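import Pool.Agent.Lib.MP_79abb3_an.W.P0Def

section

/-!
Theorem W (MP_79abb3_an), Phase 0: properties of the lift `L(t) = ∑_k σ_k(t) Y_k`.
-/

set_option autoImplicit false
set_option linter.unusedSectionVars false

open MeasureTheory Set Filter Topology Function
open scoped ENNReal RealInnerProductSpace

namespace Pool.Agent.Lib.MP_79abb3_an.W

variable {d : ℕ} {Ω W : Set (En d)} {u₀ : En d → En d} {Y : ℕ → En d → En d} {ω τ : ℕ → ℝ}

/-- JOB P0-b1. The function `sgt` (`Real.smoothTransition`). -/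
theorem sgt_smooth (a b : ℝ) : ContDiff ℝ ((⊤ : ℕ∞) : WithTop ℕ∞) (sgt a b) := by
  exact Real.smoothTransition.contDiff.comp ((contDiff_const.sub contDiff_id).div_const _)

theorem sgt_nonneg (a b t : ℝ) : 0 ≤ sgt a b t := by
  exact Real.smoothTransition.nonneg _

theorem sgt_le_one (a b t : ℝ) : sgt a b t ≤ 1 := by
  exact Real.smoothTransition.le_one _

theorem sgt_one {a b t : ℝ} (hab : a < b) (ht : t ≤ a) : sgt a b t = 1 := by
  refine Real.smoothTransition.one_of_one_le ?_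
  rw [one_le_div (by linarith)]
  linarith

theorem sgt_zero {a b t : ℝ} (hab : a < b) (ht : b ≤ t) : sgt a b t = 0 := by
  refine Real.smoothTransition.zero_of_nonpos ?_
  exact div_nonpos_of_nonpos_of_nonneg (by linarith) (by linarith)

theorem sgt_anti {a b : ℝ} (hab : a < b) : Antitone (sgt a b) := by
  intro s t hst
  refine Real.smoothTransition.monotone ?_
  have h : 0 < b - a := by linarith
  gcongr

private theorem p0_sgt_diff (a b : ℝ) : Differentiable ℝ (sgt a b) :=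
  (sgt_smooth a b).differentiable (by norm_num)

/-- the derivative vanishes for `t < a` and `b < t`, also at the end points (`sgt` is constant on one side and `C¹`) -/
theorem sgt_deriv_zero {a b t : ℝ} (hab : a < b) (ht : t ≤ a ∨ b ≤ t) : deriv (sgt a b) t = 0 := by
  rcases ht with ht | ht
  · refine IsLocalMax.deriv_eq_zero (Eventually.of_forall fun s => ?_)
    rw [sgt_one hab ht]
    exact sgt_le_one a b s
  · refine IsLocalMin.deriv_eq_zero (Eventually.of_forall fun s => ?_)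
    rw [sgt_zero hab ht]
    exact sgt_nonneg a b s

private theorem p0_sgt_deriv_cont (a b : ℝ) : Continuous (deriv (sgt a b)) :=
  (sgt_smooth a b).continuous_deriv (by norm_num)

/-- JOB P0-b2. The total variation of `sgt` is `1`: `deriv (sgt a b) ≤ 0`, so `∫ |σ'| = -∫_{a}^{b} σ' = σ(a) - σ(b) = 1`. -/
theorem sgt_deriv_integrable {a b : ℝ} (hab : a < b) : Integrable (fun t => |deriv (sgt a b) t|) := by
  refine (p0_sgt_deriv_cont a b).abs.integrable_of_hasCompactSupport ?_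
  refine HasCompactSupport.intro (K := Icc a b) isCompact_Icc fun t ht => ?_
  have h : t ≤ a ∨ b ≤ t := by
    by_contra h1
    push Not at h1
    exact ht ⟨h1.1.le, h1.2.le⟩
  rw [sgt_deriv_zero hab h, abs_zero]

theorem sgt_deriv_integral {a b : ℝ} (hab : a < b) : ∫ t, |deriv (sgt a b) t| = 1 := by
  have h1 : ∀ t, |deriv (sgt a b) t| = -deriv (sgt a b) t := fun t =>
    abs_of_nonpos ((sgt_anti hab).deriv_nonpos)
  have h2 : ∫ t, |deriv (sgt a b) t| = ∫ t in Ioc a b, |deriv (sgt a b) t| := by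
    symm
    refine setIntegral_eq_integral_of_forall_compl_eq_zero fun t ht => ?_
    have h : t ≤ a ∨ b ≤ t := by
      by_contra h1
      push Not at h1
      exact ht ⟨h1.1, h1.2.le⟩
    rw [sgt_deriv_zero hab h, abs_zero]
  rw [h2, ← intervalIntegral.integral_of_le hab.le]
  simp only [h1]
  rw [intervalIntegral.integral_neg, intervalIntegral.integral_deriv_eq_sub
    (fun x _ => (p0_sgt_diff a b) x) ((p0_sgt_deriv_cont a b).intervalIntegrable _ _),
    sgt_one hab le_rfl, sgt_zero hab le_rfl]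
  norm_num

end Pool.Agent.Lib.MP_79abb3_an.W
end

section

/-!
Theorem W (MP_79abb3_an), Phase 0: properties of the lift `L(t) = ∑_k σ_k(t) Y_k`.
-/

set_option autoImplicit false
set_option linter.unusedSectionVars false

open MeasureTheory Set Filter Topology Function
open scoped ENNReal RealInnerProductSpace

namespace Pool.Agent.Lib.MP_79abb3_an.W

variable {d : ℕ} {Ω W : Set (En d)} {u₀ : En d → En d} {Y : ℕ → En d → En d} {ω τ : ℕ → ℝ}

/-- JOB P0-b3. For `t ≥ τ_n` only the first `n` terms are present. -/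
theorem P0Seq.sg_zero (h : P0Seq Ω W u₀ Y ω τ) {n k : ℕ} (hk : n ≤ k) {t : ℝ} (ht : τ n ≤ t) : sg τ k t = 0 := by
  exact sgt_zero (h.τa (Nat.lt_succ_self k)) ((h.τa.antitone hk).trans ht)

theorem P0Seq.sg_one (h : P0Seq Ω W u₀ Y ω τ) {n k : ℕ} (hk : k < n) {t : ℝ} (ht : t ≤ τ n) : sg τ k t = 1 := by
  exact sgt_one (h.τa (Nat.lt_succ_self k)) (ht.trans (h.τa.antitone hk))

private theorem p0_sgd_zero (h : P0Seq Ω W u₀ Y ω τ) {n k : ℕ} (hk : n ≤ k) {t : ℝ} (ht : τ n ≤ t) :
    deriv (sg τ k) t = 0 := by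
  exact sgt_deriv_zero (h.τa (Nat.lt_succ_self k)) (Or.inr ((h.τa.antitone hk).trans ht))

theorem P0Seq.lft_sum (h : P0Seq Ω W u₀ Y ω τ) {n : ℕ} {t : ℝ} (ht : τ n ≤ t) (x : En d) :
    lft Y τ t x = ∑ k ∈ Finset.range n, sg τ k t • Y k x := by
  refine tsum_eq_sum fun k hk => ?_
  rw [h.sg_zero (not_lt.1 fun hkn => hk (Finset.mem_range.2 hkn)) ht, zero_smul]

theorem P0Seq.lfd_sum (h : P0Seq Ω W u₀ Y ω τ) {n : ℕ} {t : ℝ} (ht : τ n ≤ t) (x : En d) :
    lfd Y τ t x = ∑ k ∈ Finset.range n, deriv (sg τ k) t • Y k x := by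
  refine tsum_eq_sum fun k hk => ?_
  rw [p0_sgd_zero h (not_lt.1 fun hkn => hk (Finset.mem_range.2 hkn)) ht, zero_smul]

theorem P0Seq.exists_n (h : P0Seq Ω W u₀ Y ω τ) {t : ℝ} (ht : 0 < t) : ∃ n, τ n ≤ t := by
  exact ((h.τl.eventually (ge_mem_nhds ht)).exists)

/-- for `0 < t ≤ τ_0` there is `n` with `τ (n+1) ≤ t ≤ τ n` -/
theorem P0Seq.exists_n' (h : P0Seq Ω W u₀ Y ω τ) {t : ℝ} (ht : 0 < t) (ht' : t ≤ τ 0) :
    ∃ n, τ (n + 1) ≤ t ∧ t ≤ τ n := by
  classical
  have h1 := h.exists_n ht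
  have h2 : τ (Nat.find h1) ≤ t := Nat.find_spec h1
  rcases Nat.eq_zero_or_pos (Nat.find h1) with h3 | h3
  · rw [h3] at h2
    exact ⟨0, (h.τa.antitone (Nat.zero_le 1)).trans h2, ht'⟩
  · refine ⟨Nat.find h1 - 1, ?_, ?_⟩
    · rwa [Nat.sub_add_cancel h3]
    · exact (not_le.1 (Nat.find_min h1 (Nat.sub_lt h3 one_pos))).le

end Pool.Agent.Lib.MP_79abb3_an.W
end
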