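import Pool.Agent.Lib.MP_79abb3_an.W.SpC
import Pool.Agent.Lib.MP_79abb3_an.W.P0b2

section

/-!
Theorem W (MP_79abb3_an), Phase 0: the linear operator `v ↦ P(L·∇v + v·∇L)` of a smooth background field `L` and the
source terms. No condition on `L` at the boundary of `D`.
-/

set_option autoImplicit false
set_option linter.unusedSectionVars false

open MeasureTheory Set Filter Topology Function
open scoped ENNReal RealInnerProductSpace

namespace Pool.Agent.Lib.MP_79abb3_an.W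

variable {d : ℕ} {D : Set (En d)}

/-- the class of the field `f` on `D`, `0` outside `D` -/
noncomputable def clD (D : Set (En d)) (f : En d → En d) : L2E d := cl (D.indicator f)

/-- a continuous field is square integrable on the bounded set `D` -/
theorem clD_memLp (hDo : IsOpen D) (hD : Bornology.IsBounded D) {f : En d → En d} (hf : Continuous f) :
    MemLp (D.indicator f) 2 (volume : Measure (En d)) := by
  rw [memLp_indicator_iff_restrict hDo.measurableSet]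
  have : IsFiniteMeasure (volume.restrict D : Measure (En d)) := ⟨by
    rw [Measure.restrict_apply_univ]; exact hD.measure_lt_top⟩
  obtain ⟨C, hC⟩ := hD.isCompact_closure.exists_bound_of_continuousOn hf.continuousOn
  refine MemLp.of_bound hf.aestronglyMeasurable C ?_
  filter_upwards [ae_restrict_mem hDo.measurableSet] with x hx
  exact hC x (subset_closure hx)

theorem clD_add (hDo : IsOpen D) (hD : Bornology.IsBounded D) {f g : En d → En d} (hf : Continuous f)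
    (hg : Continuous g) : clD D (fun x => f x + g x) = clD D f + clD D g := by
  have h1 := cl_add (clD_memLp hDo hD hf) (clD_memLp hDo hD hg)
  have h2 : (fun x => D.indicator f x + D.indicator g x) = D.indicator (fun x => f x + g x) := by
    ext1 x
    by_cases hx : x ∈ D <;> simp [hx]
  rw [h2] at h1
  exact h1

theorem clD_smul (hDo : IsOpen D) (hD : Bornology.IsBounded D) (c : ℝ) {f : En d → En d} (hf : Continuous f) :
    clD D (fun x => c • f x) = c • clD D f := by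
  have h1 := cl_smul c (clD_memLp hDo hD hf)
  have h2 : (fun x => c • D.indicator f x) = D.indicator (fun x => c • f x) := by
    ext1 x
    by_cases hx : x ∈ D <;> simp [hx]
  rw [h2] at h1
  exact h1

theorem clD_le (hDo : IsOpen D) (hD : Bornology.IsBounded D) {f : En d → En d} (hf : Continuous f) {c : ℝ}
    (hc : 0 ≤ c) (h : eLpNorm f 2 (volume.restrict D) ≤ ENNReal.ofReal c) : ‖clD D f‖ ≤ c := by
  show ‖cl (D.indicator f)‖ ≤ c
  rw [cl_eq (clD_memLp hDo hD hf), Lp.norm_toLp, eLpNorm_indicator_eq_eLpNorm_restrict hDo.measurableSet]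
  exact ENNReal.toReal_le_of_le_ofReal hc h

/-- bound by the supremum and the volume of `D` -/
theorem clD_le_sup (hDo : IsOpen D) (hD : Bornology.IsBounded D) : ∃ K : ℝ, 0 ≤ K ∧ ∀ {f : En d → En d}, Continuous f →
    ∀ {c : ℝ}, (∀ x, ‖f x‖ ≤ c) → ‖clD D f‖ ≤ K * c := by
  have hfin : (volume D) ^ ((2 : ℝ≥0∞).toReal⁻¹) ≠ ∞ :=
    ENNReal.rpow_ne_top_of_nonneg (by positivity) hD.measure_lt_top.ne
  refine ⟨((volume D) ^ ((2 : ℝ≥0∞).toReal⁻¹)).toReal, ENNReal.toReal_nonneg, fun {f} hf {c} hc => ?_⟩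
  have hc0 : 0 ≤ c := (norm_nonneg _).trans (hc 0)
  refine clD_le hDo hD hf (by positivity) ?_
  refine (eLpNorm_le_of_ae_bound (C := c) (Eventually.of_forall hc)).trans ?_
  rw [Measure.restrict_apply_univ, ENNReal.ofReal_mul ENNReal.toReal_nonneg, ENNReal.ofReal_toReal hfin]

theorem inner_PD_clD (hDo : IsOpen D) (hD : Bornology.IsBounded D) {f : En d → En d} (hf : Continuous f) (φ : TS D) :
    ⟪PD D (clD D f), hT D φ⟫ = ∫ x, ⟪f x, (φ : En d → En d) x⟫ := by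
  rw [inner_PD, hT_coe]
  show ⟪cl (D.indicator f), cl (φ : En d → En d)⟫ = _
  rw [cl_inner (clD_memLp hDo hD hf) ((TS.ts φ).memLp 2)]
  refine integral_congr_ae (Eventually.of_forall fun x => ?_)
  show ⟪D.indicator f x, (φ : En d → En d) x⟫ = ⟪f x, (φ : En d → En d) x⟫
  by_cases hx : x ∈ D
  · rw [indicator_of_mem hx]
  · have h1 : (φ : En d → En d) x = 0 := by
      by_contra h2
      exact hx ((TS.ts φ).supp (subset_tsupport _ h2))
    rw [h1, inner_zero_right, inner_zero_right]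

end Pool.Agent.Lib.MP_79abb3_an.W
end

section

/-!
Theorem W (MP_79abb3_an), Phase 0: properties of the lift `L(t) = ∑_k σ_k(t) Y_k`.
-/

set_option autoImplicit false
set_option linter.unusedSectionVars false

open MeasureTheory Set Filter Topology Function
open scoped ENNReal RealInnerProductSpace

namespace Pool.Agent.Lib.MP_79abb3_an.W

variable {d : ℕ} {Ω W : Set (En d)} {u₀ : En d → En d} {Y : ℕ → En d → En d} {ω τ : ℕ → ℝ}

private theorem p0_te (h : P0Seq Ω W u₀ Y ω τ) (c : ℕ → ℝ) (n : ℕ) :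
    IsTe univ (fun x => ∑ k ∈ Finset.range n, c k • Y k x) :=
  IsTe.sum_fun _ fun k _ => IsTe.smul (c k) ⟨h.smo k, h.cpt k, subset_univ _⟩

private theorem p0_pd_sum (h : P0Seq Ω W u₀ Y ω τ) (c : ℕ → ℝ) (n : ℕ) (i : Fin d) (x : En d) :
    pd i (fun x => ∑ k ∈ Finset.range n, c k • Y k x) x = ∑ k ∈ Finset.range n, c k • pd i (Y k) x := by
  have h1 : HasFDerivAt (fun x => ∑ k ∈ Finset.range n, c k • Y k x)
      (∑ k ∈ Finset.range n, c k • fderiv ℝ (Y k) x) x :=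
    HasFDerivAt.fun_sum fun k _ => ((h.smo k).differentiable x).hasFDerivAt.const_smul (c k)
  show fderiv ℝ (fun x => ∑ k ∈ Finset.range n, c k • Y k x) x (ei i) = _
  rw [h1.fderiv, _root_.sum_apply]
  rfl

private theorem p0_lft_fun (h : P0Seq Ω W u₀ Y ω τ) {n : ℕ} {t : ℝ} (ht : τ n ≤ t) :
    lft Y τ t = fun x => ∑ k ∈ Finset.range n, sg τ k t • Y k x := funext fun x => h.lft_sum ht x

private theorem p0_lfd_fun (h : P0Seq Ω W u₀ Y ω τ) {n : ℕ} {t : ℝ} (ht : τ n ≤ t) :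
    lfd Y τ t = fun x => ∑ k ∈ Finset.range n, deriv (sg τ k) t • Y k x := funext fun x => h.lfd_sum ht x

/-- JOB P0-b4. Smoothness, support, divergence, wall (`t > 0`): from `lft_sum`. -/
theorem P0Seq.lft_smo (h : P0Seq Ω W u₀ Y ω τ) {t : ℝ} (ht : 0 < t) : Smo (lft Y τ t) := by
  obtain ⟨n, hn⟩ := h.exists_n ht
  rw [p0_lft_fun h hn]
  exact (p0_te h _ n).smooth

theorem P0Seq.lft_cpt (h : P0Seq Ω W u₀ Y ω τ) {t : ℝ} (ht : 0 < t) : HasCompactSupport (lft Y τ t) := by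
  obtain ⟨n, hn⟩ := h.exists_n ht
  rw [p0_lft_fun h hn]
  exact (p0_te h _ n).cpt

theorem P0Seq.lft_dv (h : P0Seq Ω W u₀ Y ω τ) {t : ℝ} (ht : 0 < t) {x : En d} (hx : x ∈ Ω) :
    dv (lft Y τ t) x = 0 := by
  obtain ⟨n, hn⟩ := h.exists_n ht
  rw [p0_lft_fun h hn]
  show ∑ i, pd i (fun x => ∑ k ∈ Finset.range n, sg τ k t • Y k x) x i = 0
  have h1 : ∀ i, pd i (fun x => ∑ k ∈ Finset.range n, sg τ k t • Y k x) x i =
      ∑ k ∈ Finset.range n, sg τ k t * pd i (Y k) x i := fun i => by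
    rw [p0_pd_sum h]
    simp
  rw [Finset.sum_congr rfl fun i _ => h1 i, Finset.sum_comm]
  refine Finset.sum_eq_zero fun k _ => ?_
  rw [← Finset.mul_sum]
  have h2 : ∑ i, pd i (Y k) x i = 0 := h.dvz k x hx
  rw [h2, mul_zero]

theorem P0Seq.lft_wall (h : P0Seq Ω W u₀ Y ω τ) {t : ℝ} (ht : 0 < t) {x : En d} (hx : x ∈ W) :
    lft Y τ t x = 0 := by
  obtain ⟨n, hn⟩ := h.exists_n ht
  rw [h.lft_sum hn]
  exact Finset.sum_eq_zero fun k _ => by rw [h.wall k x hx, smul_zero]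

theorem P0Seq.lft_late (h : P0Seq Ω W u₀ Y ω τ) {t : ℝ} (ht : τ 0 ≤ t) (x : En d) : lft Y τ t x = 0 := by
  rw [h.lft_sum ht, Finset.range_zero, Finset.sum_empty]

theorem P0Seq.lfd_smo (h : P0Seq Ω W u₀ Y ω τ) {t : ℝ} (ht : 0 < t) : Smo (lfd Y τ t) := by
  obtain ⟨n, hn⟩ := h.exists_n ht
  rw [p0_lfd_fun h hn]
  exact (p0_te h _ n).smooth

theorem P0Seq.lfd_cpt (h : P0Seq Ω W u₀ Y ω τ) {t : ℝ} (ht : 0 < t) : HasCompactSupport (lfd Y τ t) := by
  obtain ⟨n, hn⟩ := h.exists_n ht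
  rw [p0_lfd_fun h hn]
  exact (p0_te h _ n).cpt

end Pool.Agent.Lib.MP_79abb3_an.W
end

section

/-!
Theorem W (MP_79abb3_an), Phase 0: properties of the lift `L(t) = ∑_k σ_k(t) Y_k`.
-/

set_option autoImplicit false
set_option linter.unusedSectionVars false

open MeasureTheory Set Filter Topology Function
open scoped ENNReal RealInnerProductSpace

namespace Pool.Agent.Lib.MP_79abb3_an.W

variable {d : ℕ} {Ω W : Set (En d)} {u₀ : En d → En d} {Y : ℕ → En d → En d} {ω τ : ℕ → ℝ}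

private theorem p0b4_fderiv (h : P0Seq Ω W u₀ Y ω τ) (c : ℕ → ℝ) (n : ℕ) (x : En d) :
    fderiv ℝ (fun x => ∑ k ∈ Finset.range n, c k • Y k x) x = ∑ k ∈ Finset.range n, c k • fderiv ℝ (Y k) x := by
  have h1 : HasFDerivAt (fun x => ∑ k ∈ Finset.range n, c k • Y k x)
      (∑ k ∈ Finset.range n, c k • fderiv ℝ (Y k) x) x :=
    HasFDerivAt.fun_sum fun k _ => ((h.smo k).differentiable x).hasFDerivAt.const_smul (c k)
  exact h1.fderiv

private theorem p0b4_pd (c : ℕ → ℝ) {Z : ℕ → En d → En d} (hZ : ∀ k, Smo (Z k)) (n : ℕ) (i : Fin d) :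
    pd i (fun x => ∑ k ∈ Finset.range n, c k • Z k x) = fun x => ∑ k ∈ Finset.range n, c k • pd i (Z k) x := by
  ext1 x
  have h1 : HasFDerivAt (fun x => ∑ k ∈ Finset.range n, c k • Z k x)
      (∑ k ∈ Finset.range n, c k • fderiv ℝ (Z k) x) x :=
    HasFDerivAt.fun_sum fun k _ => ((hZ k).differentiable x).hasFDerivAt.const_smul (c k)
  show fderiv ℝ (fun x => ∑ k ∈ Finset.range n, c k • Z k x) x (ei i) = _
  rw [h1.fderiv, _root_.sum_apply]
  rfl

private theorem p0b4_lap (h : P0Seq Ω W u₀ Y ω τ) (c : ℕ → ℝ) (n : ℕ) (x : En d) :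
    lap (fun x => ∑ k ∈ Finset.range n, c k • Y k x) x = ∑ k ∈ Finset.range n, c k • lap (Y k) x := by
  show ∑ i, pd i (pd i (fun x => ∑ k ∈ Finset.range n, c k • Y k x)) x = _
  have h1 : ∀ i, pd i (pd i (fun x => ∑ k ∈ Finset.range n, c k • Y k x)) x =
      ∑ k ∈ Finset.range n, c k • pd i (pd i (Y k)) x := fun i => by
    rw [p0b4_pd c h.smo, p0b4_pd c (fun k => (h.smo k).pd i)]
  rw [Finset.sum_congr rfl fun i _ => h1 i, Finset.sum_comm]
  refine Finset.sum_congr rfl fun k _ => ?_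
  rw [← Finset.smul_sum]
  rfl

/-- JOB P0-b5. The bounds `t^(-1/8)`: with `n` from `exists_n'` all `σ_k ≤ 1` and the sum over `k ≤ n` of the bounds is
at most `τ_n^(-1/8) ≤ t^(-1/8)`. -/
theorem P0Seq.lft_le (h : P0Seq Ω W u₀ Y ω τ) {t : ℝ} (ht : 0 < t) (ht' : t ≤ τ 0) (x : En d) :
    ‖lft Y τ t x‖ + ‖fderiv ℝ (lft Y τ t) x‖ + ‖lap (lft Y τ t) x‖ ≤ t ^ (-(1 / 8 : ℝ)) := by
  obtain ⟨n, hn, hn'⟩ := h.exists_n' ht ht'
  have h1 : lft Y τ t = fun x => ∑ k ∈ Finset.range (n + 1), sg τ k t • Y k x := funext fun x => h.lft_sum hn x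
  have h2 : ∀ {F : Type} [NormedAddCommGroup F] [NormedSpace ℝ F] (Z : ℕ → F),
      ‖∑ k ∈ Finset.range (n + 1), sg τ k t • Z k‖ ≤ ∑ k ∈ Finset.range (n + 1), ‖Z k‖ := by
    intro F _ _ Z
    refine (norm_sum_le _ _).trans (Finset.sum_le_sum fun k _ => ?_)
    have h3 : 0 ≤ sg τ k t := sgt_nonneg _ _ _
    have h4 : sg τ k t ≤ 1 := sgt_le_one _ _ _
    rw [norm_smul, Real.norm_eq_abs, abs_of_nonneg h3]
    exact mul_le_of_le_one_left (norm_nonneg _) h4
  rw [h1, p0b4_fderiv h, p0b4_lap h]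
  calc ‖∑ k ∈ Finset.range (n + 1), sg τ k t • Y k x‖ + ‖∑ k ∈ Finset.range (n + 1), sg τ k t • fderiv ℝ (Y k) x‖
        + ‖∑ k ∈ Finset.range (n + 1), sg τ k t • lap (Y k) x‖
      ≤ ∑ k ∈ Finset.range (n + 1), ‖Y k x‖ + ∑ k ∈ Finset.range (n + 1), ‖fderiv ℝ (Y k) x‖
        + ∑ k ∈ Finset.range (n + 1), ‖lap (Y k) x‖ := add_le_add (add_le_add (h2 _) (h2 _)) (h2 _)
    _ = ∑ j ∈ Finset.range (n + 1), (‖Y j x‖ + ‖fderiv ℝ (Y j) x‖ + ‖lap (Y j) x‖) := by
        rw [Finset.sum_add_distrib, Finset.sum_add_distrib]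
    _ ≤ τ n ^ (-(1 / 8 : ℝ)) := h.sup n x
    _ ≤ t ^ (-(1 / 8 : ℝ)) := Real.rpow_le_rpow_of_nonpos ht hn' (by norm_num)

end Pool.Agent.Lib.MP_79abb3_an.W
end
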