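import Mathlib

/-!
Theorem W (MP_79abb3_an), block A3: the abstract triple `ι : V → H`, its eigenbasis, the tested equation
`x' + ν A e = G`, `x = ι e`, and the regularised Navier-Stokes system. Definitions.
-/

set_option autoImplicit false
set_option linter.unusedSectionVars false

open MeasureTheory Set Filter Topology
open scoped InnerProductSpace

namespace Pool.Agent.Lib.MP_79abb3_an.W

section
variable {H V : Type} [NormedAddCommGroup H] [InnerProductSpace ℝ H] [CompleteSpace H]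
  [NormedAddCommGroup V] [InnerProductSpace ℝ V] [CompleteSpace V]

/-- The abstract triple: `V` is compactly and densely embedded in `H`. The operator `A` is defined by
`⟪v, p⟫_V = ⟪A v, ι p⟫_H`. -/
structure IsTri (ι : V →L[ℝ] H) : Prop where
  inj : Function.Injective ι
  dense : DenseRange ι
  cpt : IsCompactOperator ι

/-- An eigenbasis of the triple: `A (e i) = lam i • b i`, `ι (e i) = b i`. -/
structure EBasis (ι : V →L[ℝ] H) where
  I : Type
  b : HilbertBasis I ℝ H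
  lam : I → ℝ
  e : I → V
  pos : ∀ i, 0 < lam i
  he : ∀ i, ι (e i) = b i
  eig : ∀ i v, ⟪e i, v⟫_ℝ = lam i * ⟪b i, ι v⟫_ℝ
  fin : ∀ R : ℝ, {i | lam i ≤ R}.Finite

/-- The tested equation `x' + ν A e = G`, `x = ι e`, on `[a, b]`. -/
structure TstR (ι : V →L[ℝ] H) (ν a b : ℝ) (e : ℝ → V) (G : ℝ → H) : Prop where
  cont : ContinuousOn e (Icc a b)
  src : ContinuousOn G (Icc a b)
  eq : ∀ (p : V) (s t : ℝ), a ≤ s → s ≤ t → t ≤ b →
    ⟪ι (e t), ι p⟫_ℝ - ⟪ι (e s), ι p⟫_ℝ = ∫ r in s..t, (-(ν * ⟪e r, p⟫_ℝ) + ⟪G r, ι p⟫_ℝ)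

/-- The right side of the regularised system: `g - F(r) v - N(ι v, v)`. -/
noncomputable def Rhs (ι : V →L[ℝ] H) (F : ℝ → V →L[ℝ] H) (g : ℝ → H) (N : H →L[ℝ] V →L[ℝ] H) (r : ℝ)
    (v : V) : H := g r - F r v - N (ι v) v

/-- Solutions of the regularised system on `[a, b]`, continuous with values in `V`. -/
def RSol (ι : V →L[ℝ] H) (ν : ℝ) (F : ℝ → V →L[ℝ] H) (g : ℝ → H) (N : H →L[ℝ] V →L[ℝ] H) (a b : ℝ)
    (e : ℝ → V) : Prop := TstR ι ν a b e (fun r => Rhs ι F g N r (e r))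

end

section
variable {I X Y : Type} [NormedAddCommGroup X] [InnerProductSpace ℝ X] [CompleteSpace X]
  [NormedAddCommGroup Y] [InnerProductSpace ℝ Y] [CompleteSpace Y]

open Classical in
/-- The diagonal operator `x ↦ ∑ m_i ⟪b_i, x⟫ c_i` (zero if it does not exist). -/
noncomputable def dgl (b : HilbertBasis I ℝ X) (c : HilbertBasis I ℝ Y) (m : I → ℝ) : X →L[ℝ] Y :=
  if h : ∃ T : X →L[ℝ] Y, ∀ x i, ⟪c i, T x⟫_ℝ = m i * ⟪b i, x⟫_ℝ then h.choose else 0

end

end Pool.Agent.Lib.MP_79abb3_an.W
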