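import Mathlib
import Pool.Agent.Lib.MP_79abb3_an.W.A3Def

section

/-!
Theorem W (MP_79abb3_an), block A3: the eigenbasis of a compact symmetric operator.
-/

set_option autoImplicit false
set_option linter.unusedSectionVars false

open MeasureTheory Set Filter Topology
open scoped InnerProductSpace

namespace Pool.Agent.Lib.MP_79abb3_an.W

section
variable {H V : Type} [NormedAddCommGroup H] [InnerProductSpace ℝ H] [CompleteSpace H]
  [NormedAddCommGroup V] [InnerProductSpace ℝ V] [CompleteSpace V] {ι : V →L[ℝ] H}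

/-- Eigenbasis of an injective compact symmetric operator. Proof. Index set
`Σ μ : {μ // HasEigenvalue K μ}, Fin (finrank (eigenspace K μ))` with `stdOrthonormalBasis` of the eigenspaces
(finite dimensional by `ContinuousLinearMap.finite_dimensional_eigenspace`, `μ ≠ 0` by injectivity);
`OrthogonalFamily.orthonormal_sigma_orthonormal` with `LinearMap.IsSymmetric.orthogonalFamily_eigenspaces'`;
`HilbertBasis.mkOfOrthogonalEqBot` with `ContinuousLinearMap.orthogonalComplement_iSup_eigenspaces_eq_bot`. -/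
theorem cpt_symm_basis {K : H →L[ℝ] H} (hc : IsCompactOperator K) (hs : K.IsSymmetric)
    (hi : ∀ x, K x = 0 → x = 0) :
    ∃ (I : Type) (b : HilbertBasis I ℝ H) (μ : I → ℝ), ∀ i, K (b i) = μ i • b i := by
  classical
  have hfd : ∀ μ : ℝ, FiniteDimensional ℝ (Module.End.eigenspace (K : H →ₗ[ℝ] H) μ) := by
    intro μ
    by_cases hμ : μ = 0
    · have hbot : Module.End.eigenspace (K : H →ₗ[ℝ] H) μ = ⊥ := by
        rw [Submodule.eq_bot_iff]
        intro x hx
        rw [Module.End.mem_eigenspace_iff, hμ, zero_smul] at hx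
        exact hi x hx
      rw [hbot]
      infer_instance
    · exact ContinuousLinearMap.finite_dimensional_eigenspace hc μ hμ
  have hof := hs.orthogonalFamily_eigenspaces
  have hon := hof.orthonormal_sigma_orthonormal
    (α := fun μ : ℝ => Fin (Module.finrank ℝ (Module.End.eigenspace (K : H →ₗ[ℝ] H) μ)))
    (v_family := fun μ => (stdOrthonormalBasis ℝ (Module.End.eigenspace (K : H →ₗ[ℝ] H) μ)))
    (fun μ => (stdOrthonormalBasis ℝ (Module.End.eigenspace (K : H →ₗ[ℝ] H) μ)).orthonormal)
  have hsp : (Submodule.span ℝ (Set.range fun a : (Σ μ : ℝ,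
      Fin (Module.finrank ℝ (Module.End.eigenspace (K : H →ₗ[ℝ] H) μ))) =>
      (Module.End.eigenspace (K : H →ₗ[ℝ] H) a.1).subtypeₗᵢ
        ((stdOrthonormalBasis ℝ (Module.End.eigenspace (K : H →ₗ[ℝ] H) a.1)) a.2)))ᗮ = ⊥ := by
    rw [← ContinuousLinearMap.orthogonalComplement_iSup_eigenspaces_eq_bot hc hs]
    apply le_antisymm
    · apply Submodule.orthogonal_le
      refine iSup_le fun μ => ?_
      intro x hx
      have h1 : (⟨x, hx⟩ : Module.End.eigenspace (K : H →ₗ[ℝ] H) μ) ∈
          Submodule.span ℝ (Set.range (stdOrthonormalBasis ℝ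
            (Module.End.eigenspace (K : H →ₗ[ℝ] H) μ))) := by
        rw [← OrthonormalBasis.coe_toBasis, Module.Basis.span_eq]
        trivial
      have h2 := Submodule.mem_map_of_mem
        (f := (Module.End.eigenspace (K : H →ₗ[ℝ] H) μ).subtype) h1
      rw [Submodule.map_span] at h2
      refine Submodule.span_mono ?_ h2
      rintro _ ⟨_, ⟨j, rfl⟩, rfl⟩
      exact ⟨⟨μ, j⟩, rfl⟩
    · apply Submodule.orthogonal_le
      rw [Submodule.span_le]
      rintro _ ⟨a, rfl⟩
      exact Submodule.mem_iSup_of_mem a.1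
        ((stdOrthonormalBasis ℝ (Module.End.eigenspace (K : H →ₗ[ℝ] H) a.1)) a.2).2
  refine ⟨_, HilbertBasis.mkOfOrthogonalEqBot hon hsp, fun a => a.1, fun a => ?_⟩
  rw [HilbertBasis.coe_mkOfOrthogonalEqBot]
  have h3 := ((stdOrthonormalBasis ℝ (Module.End.eigenspace (K : H →ₗ[ℝ] H) a.1)) a.2).2
  rw [Module.End.mem_eigenspace_iff] at h3
  exact h3

end

end Pool.Agent.Lib.MP_79abb3_an.W
end

section

/-!
Theorem W (MP_79abb3_an), block A3: the operator K.
-/

set_option autoImplicit false
set_option linter.unusedSectionVars false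

open MeasureTheory Set Filter Topology
open scoped InnerProductSpace

namespace Pool.Agent.Lib.MP_79abb3_an.W

section
variable {H V : Type} [NormedAddCommGroup H] [InnerProductSpace ℝ H] [CompleteSpace H]
  [NormedAddCommGroup V] [InnerProductSpace ℝ V] [CompleteSpace V] {ι : V →L[ℝ] H}

/-- `ι*` is injective because `ι` has dense range. -/
theorem IsTri.adj_inj (h : IsTri ι) : Function.Injective (ContinuousLinearMap.adjoint ι) := by
  refine (injective_iff_map_eq_zero (ContinuousLinearMap.adjoint ι)).mpr fun x hx => ?_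
  have h1 : ∀ v : V, ⟪x, ι v⟫_ℝ = 0 := fun v => by
    rw [← ContinuousLinearMap.adjoint_inner_left, hx, inner_zero_left]
  have h2 : ∀ y : H, ⟪x, y⟫_ℝ = 0 := by
    intro y
    refine h.dense.induction_on (p := fun y => ⟪x, y⟫_ℝ = 0) y ?_ h1
    exact isClosed_eq (continuous_const.inner continuous_id) continuous_const
  exact inner_self_eq_zero.mp (h2 x)

/-- `K = ι ι*` is compact, symmetric, injective. -/
theorem IsTri.comp_adj (h : IsTri ι) : IsCompactOperator (ι.comp (ContinuousLinearMap.adjoint ι)) ∧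
    (ι.comp (ContinuousLinearMap.adjoint ι)).IsSymmetric ∧
    ∀ x, ι (ContinuousLinearMap.adjoint ι x) = 0 → x = 0 := by
  refine ⟨?_, ?_, ?_⟩
  · exact h.cpt.comp_clm (ContinuousLinearMap.adjoint ι)
  · intro x y
    simp only [ContinuousLinearMap.coe_coe, ContinuousLinearMap.comp_apply]
    rw [← ContinuousLinearMap.adjoint_inner_right, ContinuousLinearMap.adjoint_inner_left]
  · intro x hx
    have h1 : ContinuousLinearMap.adjoint ι x = 0 := h.inj (by rw [hx, map_zero])
    exact h.adj_inj (by rw [h1, map_zero])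

/-- Compactness and orthonormality: if `ι (e i) = b i` is orthonormal and `‖e i‖² ≤ R` for `i ∈ S`, then `S` is finite.
Proof. Otherwise there is an injective sequence `i_n ∈ S`; `ι (e i_n)` has a convergent subsequence (`IsCompactOperator`:
image of the ball of radius `√R` is relatively compact), but `‖b i - b j‖ = √2` for `i ≠ j`. -/
theorem IsTri.finite (h : IsTri ι) {I : Type} {b : I → H} (hb : Orthonormal ℝ b) {e : I → V}
    (he : ∀ i, ι (e i) = b i) {R : ℝ} {S : Set I} (hS : ∀ i ∈ S, ‖e i‖ ^ 2 ≤ R) : S.Finite := by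
  by_contra hinf
  have hinf' : S.Infinite := hinf
  let f := hinf'.natEmbedding
  have hK : IsCompact (closure (ι '' Metric.closedBall (0 : V) (Real.sqrt R))) :=
    h.cpt.isCompact_closure_image_closedBall _
  have hmem : ∀ n : ℕ, b (f n : I) ∈ closure (ι '' Metric.closedBall (0 : V) (Real.sqrt R)) := by
    intro n
    refine subset_closure ⟨e (f n), ?_, he _⟩
    rw [mem_closedBall_zero_iff]
    exact Real.le_sqrt_of_sq_le (hS _ (f n).2)
  obtain ⟨a, -, φ, hφ, hlim⟩ := hK.tendsto_subseq hmem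
  have hc := hlim.cauchySeq
  rw [Metric.cauchySeq_iff'] at hc
  obtain ⟨N, hN⟩ := hc 1 one_pos
  have h1 := hN (N + 1) (Nat.le_succ N)
  have hne : (f (φ (N + 1)) : I) ≠ f (φ N) := by
    intro h2
    have h3 := f.injective (Subtype.ext h2)
    exact absurd h3 (hφ (Nat.lt_succ_self N)).ne'
  have h5 : ‖b (f (φ (N + 1)) : I) - b (f (φ N) : I)‖ ^ 2 = 2 := by
    rw [@norm_sub_sq ℝ, hb.inner_eq_zero hne, hb.1, hb.1]
    norm_num
  have h6 : ‖b (f (φ (N + 1)) : I) - b (f (φ N) : I)‖ < 1 := by
    rw [← dist_eq_norm]; exact h1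
  nlinarith [norm_nonneg (b (f (φ (N + 1)) : I) - b (f (φ N) : I))]

end

end Pool.Agent.Lib.MP_79abb3_an.W
end

section

/-!
Theorem W (MP_79abb3_an), block A3: existence of the eigenbasis of a triple.
-/

set_option autoImplicit false
set_option linter.unusedSectionVars false

open MeasureTheory Set Filter Topology
open scoped InnerProductSpace

namespace Pool.Agent.Lib.MP_79abb3_an.W

section
variable {H V : Type} [NormedAddCommGroup H] [InnerProductSpace ℝ H] [CompleteSpace H]
  [NormedAddCommGroup V] [InnerProductSpace ℝ V] [CompleteSpace V] {ι : V →L[ℝ] H}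

/-- **The eigenbasis.** Proof. `cpt_symm_basis` for `K = ι ι*`; `μ_i = ‖ι* b_i‖² > 0`, `lam i = μ_i⁻¹`,
`e i = lam i • ι* (b i)`; `⟪e i, v⟫ = lam i ⟪b i, ι v⟫`, so `‖e i‖² = lam i ⟪b i, b i⟫ = lam i`; finiteness by
`IsTri.finite`. -/
theorem IsTri.exists_EBasis (h : IsTri ι) : Nonempty (EBasis ι) := by
  obtain ⟨hc, hs, hi⟩ := h.comp_adj
  obtain ⟨I, b, μ, hb⟩ := cpt_symm_basis hc hs (fun x hx => hi x hx)
  have hK : ∀ i, ι (ContinuousLinearMap.adjoint ι (b i)) = μ i • b i := fun i => hb i
  have hon : ∀ i, ⟪b i, b i⟫_ℝ = 1 := by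
    intro i
    rw [real_inner_self_eq_norm_sq, b.orthonormal.1 i]
    norm_num
  have hμ : ∀ i, μ i = ‖ContinuousLinearMap.adjoint ι (b i)‖ ^ 2 := by
    intro i
    have h1 : ⟪ContinuousLinearMap.adjoint ι (b i), ContinuousLinearMap.adjoint ι (b i)⟫_ℝ
        = ⟪b i, ι (ContinuousLinearMap.adjoint ι (b i))⟫_ℝ :=
      ContinuousLinearMap.adjoint_inner_left ι _ _
    rw [hK, inner_smul_right, hon, mul_one, real_inner_self_eq_norm_sq] at h1
    exact h1.symm
  have hne : ∀ i, ContinuousLinearMap.adjoint ι (b i) ≠ 0 := by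
    intro i h0
    have h2 : b i = 0 := hi _ (by rw [h0, map_zero])
    have h3 := hon i
    rw [h2, inner_zero_left] at h3
    exact zero_ne_one h3
  have hpos : ∀ i, 0 < μ i := by
    intro i
    rw [hμ i]
    exact pow_pos (norm_pos_iff.mpr (hne i)) 2
  have he : ∀ i, ι ((μ i)⁻¹ • ContinuousLinearMap.adjoint ι (b i)) = b i := by
    intro i
    rw [map_smul, hK, smul_smul, inv_mul_cancel₀ (hpos i).ne', one_smul]
  have heig : ∀ i v, ⟪(μ i)⁻¹ • ContinuousLinearMap.adjoint ι (b i), v⟫_ℝ
      = (μ i)⁻¹ * ⟪b i, ι v⟫_ℝ := by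
    intro i v
    rw [real_inner_smul_left, ContinuousLinearMap.adjoint_inner_left]
  refine ⟨{ I := I, b := b, lam := fun i => (μ i)⁻¹,
            e := fun i => (μ i)⁻¹ • ContinuousLinearMap.adjoint ι (b i),
            pos := fun i => inv_pos.mpr (hpos i), he := he, eig := heig, fin := ?_ }⟩
  intro R
  refine h.finite b.orthonormal he (R := R) (fun i hi' => ?_)
  rw [← real_inner_self_eq_norm_sq, heig, he, hon, mul_one]
  exact hi'

end

end Pool.Agent.Lib.MP_79abb3_an.W
end
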