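import Pool.Agent.Lib.MP_79abb3_an.W.A3Def

/-!
Theorem W (MP_79abb3_an), block A3: properties of the eigenbasis.
-/

set_option autoImplicit false
set_option linter.unusedSectionVars false

open MeasureTheory Set Filter Topology
open scoped InnerProductSpace

namespace Pool.Agent.Lib.MP_79abb3_an.W

/-- Bessel/Parseval for a real Hilbert basis. Proof. `HilbertBasis.hasSum_inner_mul_inner`. -/
theorem hb_norm_sq {I X : Type} [NormedAddCommGroup X] [InnerProductSpace ℝ X] [CompleteSpace X]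
    (b : HilbertBasis I ℝ X) (x : X) : HasSum (fun i => ⟪b i, x⟫_ℝ ^ 2) (‖x‖ ^ 2) := by
  have h := b.hasSum_inner_mul_inner x x
  rw [real_inner_self_eq_norm_sq] at h
  refine h.congr_fun ?_
  intro i
  rw [real_inner_comm (b i) x, pow_two]

/-- Vectors are determined by their coordinates. -/
theorem hb_ext {I X : Type} [NormedAddCommGroup X] [InnerProductSpace ℝ X] [CompleteSpace X]
    (b : HilbertBasis I ℝ X) {x y : X} (h : ∀ i, ⟪b i, x⟫_ℝ = ⟪b i, y⟫_ℝ) : x = y := by
  have h1 := hb_norm_sq b (x - y)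
  have h2 : (fun i => ⟪b i, x - y⟫_ℝ ^ 2) = fun _ => 0 := by
    funext i
    rw [inner_sub_right, h i, sub_self]
    norm_num
  rw [h2] at h1
  have h3 : ‖x - y‖ ^ 2 = 0 := h1.unique hasSum_zero
  have h4 : ‖x - y‖ = 0 := by
    simpa using h3
  exact sub_eq_zero.mp (norm_eq_zero.mp h4)

section
variable {H V : Type} [NormedAddCommGroup H] [InnerProductSpace ℝ H] [CompleteSpace H]
  [NormedAddCommGroup V] [InnerProductSpace ℝ V] [CompleteSpace V] {ι : V →L[ℝ] H}

open Classical in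
theorem EBasis.ee (E : EBasis ι) (i j : E.I) : ⟪E.e i, E.e j⟫_ℝ = if i = j then E.lam i else 0 := by
  rw [E.eig, E.he, orthonormal_iff_ite.mp E.b.orthonormal i j]
  split_ifs <;> simp

theorem EBasis.norm_e (E : EBasis ι) (i : E.I) : ‖E.e i‖ ^ 2 = E.lam i := by
  rw [← real_inner_self_eq_norm_sq, E.ee, if_pos rfl]

/-- Proof. Union of the finite sets `{lam ≤ n}`. -/
theorem EBasis.countable (E : EBasis ι) : Countable E.I := by
  have h : (Set.univ : Set E.I) = ⋃ n : ℕ, {i | E.lam i ≤ n} := by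
    ext i
    simp only [Set.mem_univ, Set.mem_iUnion, Set.mem_ofPred_eq, true_iff]
    exact exists_nat_ge (E.lam i)
  rw [← Set.countable_univ_iff, h]
  exact Set.countable_iUnion fun n => (E.fin n).countable

/-- The basis `c i = lam i ^ (-1/2) e i` of `V`. Proof. Orthonormal by `EBasis.ee`; if `v` is orthogonal to all `e i`, then
`⟪b i, ι v⟫ = 0` for all `i`, so `ι v = 0`, `v = 0`; `HilbertBasis.mkOfOrthogonalEqBot`. -/
theorem EBasis.exists_c (E : EBasis ι) (h : IsTri ι) :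
    ∃ c : HilbertBasis E.I ℝ V, ∀ i, c i = (√(E.lam i))⁻¹ • E.e i := by
  classical
  have hon : Orthonormal ℝ (fun i => (√(E.lam i))⁻¹ • E.e i) := by
    rw [orthonormal_iff_ite]
    intro i j
    rw [real_inner_smul_left, real_inner_smul_right, E.ee]
    by_cases hij : i = j
    · subst hij
      rw [if_pos rfl, if_pos rfl]
      have h1 : √(E.lam i) * √(E.lam i) = E.lam i := Real.mul_self_sqrt (E.pos i).le
      have h2 : √(E.lam i) ≠ 0 := (Real.sqrt_pos.mpr (E.pos i)).ne'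
      calc (√(E.lam i))⁻¹ * ((√(E.lam i))⁻¹ * E.lam i)
          = (√(E.lam i))⁻¹ * ((√(E.lam i))⁻¹ * (√(E.lam i) * √(E.lam i))) := by rw [h1]
        _ = 1 := by field_simp
    · rw [if_neg hij, if_neg hij, mul_zero, mul_zero]
  have hsp : (Submodule.span ℝ (Set.range fun i => (√(E.lam i))⁻¹ • E.e i))ᗮ = ⊥ := by
    rw [Submodule.eq_bot_iff]
    intro v hv
    rw [Submodule.mem_orthogonal] at hv
    have h1 : ι v = 0 := by
      refine hb_ext E.b fun i => ?_
      rw [inner_zero_right]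
      have h2 := hv ((√(E.lam i))⁻¹ • E.e i) (Submodule.subset_span ⟨i, rfl⟩)
      rw [real_inner_smul_left, E.eig] at h2
      have h3 : √(E.lam i) ≠ 0 := (Real.sqrt_pos.mpr (E.pos i)).ne'
      have h4 := (E.pos i).ne'
      rcases mul_eq_zero.mp h2 with h5 | h5
      · exact absurd h5 (inv_ne_zero h3)
      · rcases mul_eq_zero.mp h5 with h6 | h6
        · exact absurd h6 h4
        · exact h6
    exact h.inj (by rw [h1, map_zero])
  refine ⟨HilbertBasis.mkOfOrthogonalEqBot hon hsp, fun i => ?_⟩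
  rw [HilbertBasis.coe_mkOfOrthogonalEqBot]

/-- The normalised basis of `V`. -/
noncomputable def EBasis.c (E : EBasis ι) (h : IsTri ι) : HilbertBasis E.I ℝ V := (E.exists_c h).choose

theorem EBasis.c_apply (E : EBasis ι) (h : IsTri ι) (i : E.I) : E.c h i = (√(E.lam i))⁻¹ • E.e i :=
  (E.exists_c h).choose_spec i

theorem EBasis.inner_c (E : EBasis ι) (h : IsTri ι) (i : E.I) (v : V) :
    ⟪E.c h i, v⟫_ℝ = √(E.lam i) * ⟪E.b i, ι v⟫_ℝ := by
  rw [E.c_apply, real_inner_smul_left, E.eig]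
  have h1 : √(E.lam i) * √(E.lam i) = E.lam i := Real.mul_self_sqrt (E.pos i).le
  have h2 : √(E.lam i) ≠ 0 := (Real.sqrt_pos.mpr (E.pos i)).ne'
  calc (√(E.lam i))⁻¹ * (E.lam i * ⟪E.b i, ι v⟫_ℝ)
      = (√(E.lam i))⁻¹ * ((√(E.lam i) * √(E.lam i)) * ⟪E.b i, ι v⟫_ℝ) := by rw [h1]
    _ = √(E.lam i) * ⟪E.b i, ι v⟫_ℝ := by field_simp

end

end Pool.Agent.Lib.MP_79abb3_an.W
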