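import Pool.Agent.Lib.MP_79abb3_an.W.A3c

/-!
Theorem W (MP_79abb3_an), block A3: norms in the eigenbasis.
-/

set_option autoImplicit false
set_option linter.unusedSectionVars false

open MeasureTheory Set Filter Topology
open scoped InnerProductSpace

namespace Pool.Agent.Lib.MP_79abb3_an.W

section
variable {H V : Type} [NormedAddCommGroup H] [InnerProductSpace ℝ H] [CompleteSpace H]
  [NormedAddCommGroup V] [InnerProductSpace ℝ V] [CompleteSpace V] {ι : V →L[ℝ] H}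

theorem EBasis.norm_sq (E : EBasis ι) (h : IsTri ι) (v : V) :
    HasSum (fun i => E.lam i * ⟪E.b i, ι v⟫_ℝ ^ 2) (‖v‖ ^ 2) := by
  have h1 := hb_norm_sq (E.c h) v
  have h2 : (fun i => ⟪E.c h i, v⟫_ℝ ^ 2) = fun i => E.lam i * ⟪E.b i, ι v⟫_ℝ ^ 2 := by
    funext i
    rw [E.inner_c h, mul_pow, Real.sq_sqrt (E.pos i).le]
  rwa [h2] at h1

/-- Ehrling's inequality. Proof. Split `‖ι v‖² = ∑ ⟪b i, ι v⟫²` (`hb_norm_sq`) at `lam i ≤ R`; for `lam i > R`,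
`⟪b i, ι v⟫² ≤ R⁻¹ lam i ⟪b i, ι v⟫²`. -/
theorem EBasis.ehrling (E : EBasis ι) (h : IsTri ι) {R : ℝ} (hR : 0 < R) (v : V) :
    ‖ι v‖ ^ 2 ≤ ∑ i ∈ (E.fin R).toFinset, ⟪E.b i, ι v⟫_ℝ ^ 2 + R⁻¹ * ‖v‖ ^ 2 := by
  classical
  refine hasSum_le_of_sum_le (hb_norm_sq E.b (ι v)) fun s => ?_
  have h1 : ∀ i ∈ s, ⟪E.b i, ι v⟫_ℝ ^ 2 ≤
      (if i ∈ (E.fin R).toFinset then ⟪E.b i, ι v⟫_ℝ ^ 2 else 0)
        + R⁻¹ * (E.lam i * ⟪E.b i, ι v⟫_ℝ ^ 2) := by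
    intro i _
    have hp : 0 ≤ R⁻¹ * (E.lam i * ⟪E.b i, ι v⟫_ℝ ^ 2) :=
      mul_nonneg (inv_nonneg.mpr hR.le) (mul_nonneg (E.pos i).le (sq_nonneg _))
    split_ifs with hi
    · linarith
    · rw [Set.Finite.mem_toFinset, Set.mem_ofPred_eq, not_le] at hi
      rw [zero_add, ← mul_assoc]
      have h2 : 1 ≤ R⁻¹ * E.lam i := by
        rw [inv_mul_eq_div, le_div_iff₀ hR, one_mul]
        exact hi.le
      exact le_mul_of_one_le_left (sq_nonneg _) h2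
  refine (Finset.sum_le_sum h1).trans ?_
  rw [Finset.sum_add_distrib, ← Finset.mul_sum]
  refine add_le_add ?_ ?_
  · rw [← Finset.sum_filter]
    refine Finset.sum_le_sum_of_subset_of_nonneg ?_ (fun i _ _ => sq_nonneg _)
    intro i hi
    exact (Finset.mem_filter.mp hi).2
  · refine mul_le_mul_of_nonneg_left ?_ (inv_nonneg.mpr hR.le)
    exact sum_le_hasSum s (fun i _ => mul_nonneg (E.pos i).le (sq_nonneg _)) (E.norm_sq h v)

/-- Membership in `V`. Proof. `v = ∑ ⟪b i, x⟫ e i = ∑ (√lam i ⟪b i, x⟫) c i`: the coefficients are in `ℓ²` by the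
hypothesis (`memℓp_gen`, `summable_of_sum_le`), `v := (E.c h).repr.symm _`; `ι v = x` by `hb_ext`, `‖v‖² = ∑ lam_i ⟪b_i, x⟫²`
by `hb_norm_sq`. -/
theorem EBasis.mem (E : EBasis ι) (h : IsTri ι) {x : H} {M : ℝ}
    (hM : ∀ s : Finset E.I, ∑ i ∈ s, E.lam i * ⟪E.b i, x⟫_ℝ ^ 2 ≤ M) : ∃ v : V, ι v = x ∧ ‖v‖ ^ 2 ≤ M := by
  have hsq : ∀ i, (√(E.lam i) * ⟪E.b i, x⟫_ℝ) ^ 2 = E.lam i * ⟪E.b i, x⟫_ℝ ^ 2 := by
    intro i
    rw [mul_pow, Real.sq_sqrt (E.pos i).le]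
  have hmem : Memℓp (fun i => √(E.lam i) * ⟪E.b i, x⟫_ℝ) 2 := by
    refine memℓp_gen' (C := M) fun s => ?_
    refine le_trans (le_of_eq ?_) (hM s)
    refine Finset.sum_congr rfl fun i _ => ?_
    rw [← hsq i, ENNReal.toReal_ofNat, Real.rpow_ofNat, Real.norm_eq_abs, sq_abs]
  obtain ⟨v, hv⟩ : ∃ v : V, ∀ i, ⟪E.c h i, v⟫_ℝ = √(E.lam i) * ⟪E.b i, x⟫_ℝ := by
    refine ⟨(E.c h).repr.symm ⟨fun i => √(E.lam i) * ⟪E.b i, x⟫_ℝ, hmem⟩, fun i => ?_⟩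
    rw [← HilbertBasis.repr_apply_apply, LinearIsometryEquiv.apply_symm_apply]
  have hb : ∀ i, ⟪E.b i, ι v⟫_ℝ = ⟪E.b i, x⟫_ℝ := by
    intro i
    have h1 := hv i
    rw [E.inner_c h] at h1
    exact mul_left_cancel₀ (Real.sqrt_pos.mpr (E.pos i)).ne' h1
  refine ⟨v, hb_ext E.b hb, ?_⟩
  refine hasSum_le_of_sum_le (E.norm_sq h v) fun s => ?_
  refine le_trans (le_of_eq ?_) (hM s)
  refine Finset.sum_congr rfl fun i _ => ?_
  rw [hb i]

/-- The span of the `e i` is dense in `V`. -/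
theorem EBasis.span_dense (E : EBasis ι) (h : IsTri ι) :
    Dense (Submodule.span ℝ (range E.e) : Set V) := by
  rw [Submodule.dense_iff_topologicalClosure_eq_top, Submodule.topologicalClosure_eq_top_iff,
    Submodule.eq_bot_iff]
  intro v hv
  rw [Submodule.mem_orthogonal] at hv
  have h1 : ι v = 0 := by
    refine hb_ext E.b fun i => ?_
    rw [inner_zero_right]
    have h2 := hv (E.e i) (Submodule.subset_span ⟨i, rfl⟩)
    rw [E.eig] at h2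
    rcases mul_eq_zero.mp h2 with h6 | h6
    · exact absurd h6 (E.pos i).ne'
    · exact h6
  exact h.inj (by rw [h1, map_zero])

end

end Pool.Agent.Lib.MP_79abb3_an.W
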