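import Mathlib

/-!
Theorem W (MP_79abb3_an), block A3: subsequences.
-/

set_option autoImplicit false
set_option linter.unusedSectionVars false

open MeasureTheory Set Filter Topology
open scoped InnerProductSpace

namespace Pool.Agent.Lib.MP_79abb3_an.W

/-- Bounded families of reals with countable index set have a subsequence which converges for every index. Proof.
`isCompact_univ_pi` in `Q → ℝ` (first countable since `Q` is countable), `IsCompact.tendsto_subseq`. -/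
theorem cantor_subseq {Q : Type} [Countable Q] {z : ℕ → Q → ℝ} {M : Q → ℝ} (hM : ∀ j q, |z j q| ≤ M q) :
    ∃ φ : ℕ → ℕ, StrictMono φ ∧ ∀ q, ∃ l, Tendsto (fun j => z (φ j) q) atTop (𝓝 l) := by
  have hK : IsCompact (Set.univ.pi fun q => Icc (-(M q)) (M q)) :=
    isCompact_univ_pi fun q => isCompact_Icc
  obtain ⟨l, -, φ, hφ, h⟩ := hK.tendsto_subseq (x := z) fun j => by
    rw [Set.mem_univ_pi]
    exact fun q => abs_le.1 (hM j q)
  exact ⟨φ, hφ, fun q => ⟨l q, (tendsto_pi_nhds.1 h) q⟩⟩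

/-- **Arzelà-Ascoli, pointwise form**, for countably many equicontinuous sequences. Proof. `cantor_subseq` with
`Q = I × (countable dense subset of Icc a b)` (`TopologicalSpace.exists_countable_dense`), then for arbitrary `t` the
sequence is Cauchy by equicontinuity. -/
theorem diag_subseq {I : Type} [Countable I] {a b : ℝ} {y : ℕ → I → ℝ → ℝ} {M : I → ℝ}
    (hM : ∀ j i, ∀ t ∈ Icc a b, |y j i t| ≤ M i)
    (heq : ∀ i, ∀ ε > 0, ∃ δ > 0, ∀ j, ∀ s ∈ Icc a b, ∀ t ∈ Icc a b, |t - s| ≤ δ → |y j i t - y j i s| ≤ ε) :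
    ∃ φ : ℕ → ℕ, StrictMono φ ∧ ∀ i, ∀ t ∈ Icc a b, ∃ l, Tendsto (fun j => y (φ j) i t) atTop (𝓝 l) := by
  obtain ⟨S, hSc, hSd⟩ := TopologicalSpace.exists_countable_dense (Icc a b)
  have : Countable S := hSc.to_subtype
  obtain ⟨φ, hφ, h⟩ := cantor_subseq (Q := I × S) (z := fun j q => y j q.1 ((q.2 : Icc a b) : ℝ))
    (M := fun q => M q.1) fun j q => hM j q.1 _ (q.2 : Icc a b).2
  refine ⟨φ, hφ, fun i t ht => ?_⟩
  refine cauchySeq_tendsto_of_complete (Metric.cauchySeq_iff'.2 fun ε hε => ?_)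
  obtain ⟨δ, hδ, hd⟩ := heq i (ε / 4) (by positivity)
  obtain ⟨s, hs, hst⟩ := hSd.exists_dist_lt (⟨t, ht⟩ : Icc a b) hδ
  have hst' : |t - (s : ℝ)| ≤ δ := by
    have : dist t (s : ℝ) < δ := hst
    rw [Real.dist_eq] at this
    exact this.le
  obtain ⟨l, hl⟩ := h (i, ⟨s, hs⟩)
  obtain ⟨N, hN⟩ := Metric.cauchySeq_iff'.1 hl.cauchySeq (ε / 4) (by positivity)
  refine ⟨N, fun n hn => ?_⟩
  have h1 := hN n hn
  have h2 := hd (φ n) s s.2 t ht hst'
  have h3 := hd (φ N) s s.2 t ht hst'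
  rw [Real.dist_eq] at h1 ⊢
  have e : y (φ n) i t - y (φ N) i t = (y (φ n) i t - y (φ n) i s) + (y (φ n) i s - y (φ N) i s) -
      (y (φ N) i t - y (φ N) i s) := by ring
  rw [e]
  have h4 := abs_sub ((y (φ n) i t - y (φ n) i s) + (y (φ n) i s - y (φ N) i s)) (y (φ N) i t - y (φ N) i s)
  have h5 := abs_add_le (y (φ n) i t - y (φ n) i s) (y (φ n) i s - y (φ N) i s)
  simp only at h1
  linarith

end Pool.Agent.Lib.MP_79abb3_an.W
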