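import Mathlib

/-!
Theorem W (MP_79abb3_an), block A3: weak limits and compact sets in Hilbert bases.
-/

set_option autoImplicit false
set_option linter.unusedSectionVars false

open MeasureTheory Set Filter Topology
open scoped InnerProductSpace

namespace Pool.Agent.Lib.MP_79abb3_an.W

section
variable {I X : Type} [NormedAddCommGroup X] [InnerProductSpace ℝ X] [CompleteSpace X]

private theorem a3ib_conv (b : HilbertBasis I ℝ X) {x : ℕ → X} {M : ℝ} (hM : ∀ j, ‖x j‖ ≤ M)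
    (hc : ∀ i, ∃ l, Tendsto (fun j => ⟪b i, x j⟫_ℝ) atTop (𝓝 l)) (h : X) :
    ∃ l, Tendsto (fun j => ⟪x j, h⟫_ℝ) atTop (𝓝 l) := by
  have hM0 : 0 ≤ M := (norm_nonneg _).trans (hM 0)
  have hd : h ∈ closure (Submodule.span ℝ (range b) : Set X) := by
    rw [← Submodule.topologicalClosure_coe, b.dense_span]
    trivial
  have key : ∀ g ∈ Submodule.span ℝ (range b), ∃ l, Tendsto (fun j => ⟪x j, g⟫_ℝ) atTop (𝓝 l) := by
    intro g hg
    induction hg using Submodule.span_induction with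
    | mem g hg =>
      obtain ⟨i, rfl⟩ := hg
      obtain ⟨l, hl⟩ := hc i
      exact ⟨l, hl.congr fun j => real_inner_comm _ _⟩
    | zero => exact ⟨0, by simp⟩
    | add g g' _ _ h1 h2 =>
      obtain ⟨l, hl⟩ := h1
      obtain ⟨l', hl'⟩ := h2
      exact ⟨l + l', (hl.add hl').congr fun j => (inner_add_right _ _ _).symm⟩
    | smul a g _ h1 =>
      obtain ⟨l, hl⟩ := h1
      exact ⟨a * l, (hl.const_mul a).congr fun j => (real_inner_smul_right _ _ _).symm⟩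
  refine cauchySeq_tendsto_of_complete (Metric.cauchySeq_iff'.2 fun ε hε => ?_)
  obtain ⟨g, hg, hgd⟩ := Metric.mem_closure_iff.1 hd (ε / (3 * (M + 1))) (by positivity)
  obtain ⟨l, hl⟩ := key g hg
  obtain ⟨N, hN⟩ := Metric.cauchySeq_iff'.1 hl.cauchySeq (ε / 3) (by positivity)
  have hb : ∀ j, |⟪x j, h - g⟫_ℝ| < ε / 3 := by
    intro j
    refine (abs_real_inner_le_norm _ _).trans_lt ?_
    rw [dist_eq_norm] at hgd
    calc ‖x j‖ * ‖h - g‖ ≤ M * ‖h - g‖ := mul_le_mul_of_nonneg_right (hM j) (norm_nonneg _)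
      _ ≤ M * (ε / (3 * (M + 1))) := mul_le_mul_of_nonneg_left hgd.le hM0
      _ < (M + 1) * (ε / (3 * (M + 1))) := by
        refine mul_lt_mul_of_pos_right (by linarith) (by positivity)
      _ = ε / 3 := by field_simp
  refine ⟨N, fun n hn => ?_⟩
  have h1 := hN n hn
  rw [Real.dist_eq] at h1 ⊢
  have e : ⟪x n, h⟫_ℝ - ⟪x N, h⟫_ℝ = ⟪x n, h - g⟫_ℝ + (⟪x n, g⟫_ℝ - ⟪x N, g⟫_ℝ) - ⟪x N, h - g⟫_ℝ := by
    rw [inner_sub_right, inner_sub_right]
    ring
  rw [e]
  have h2 := abs_lt.1 (hb n)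
  have h3 := abs_lt.1 (hb N)
  have h4 := abs_lt.1 h1
  rw [abs_lt]
  constructor <;> linarith [h2.1, h2.2, h3.1, h3.2, h4.1, h4.2]

/-- A bounded sequence whose coordinates converge is weakly convergent. Proof. The limits `l_i` satisfy
`∑_{i ∈ s} l_i² ≤ M²`; `z = b.repr.symm l`; the convergence holds for `h = b_i`, then for finite combinations, then for all
`h` by density (`b.dense_span`) and boundedness. -/
theorem weak_of_coord (b : HilbertBasis I ℝ X) {x : ℕ → X} {M : ℝ} (hM : ∀ j, ‖x j‖ ≤ M)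
    (hc : ∀ i, ∃ l, Tendsto (fun j => ⟪b i, x j⟫_ℝ) atTop (𝓝 l)) :
    ∃ z : X, ‖z‖ ≤ M ∧ ∀ h : X, Tendsto (fun j => ⟪x j, h⟫_ℝ) atTop (𝓝 ⟪z, h⟫_ℝ) := by
  have hM0 : 0 ≤ M := (norm_nonneg _).trans (hM 0)
  choose f hf using a3ib_conv b hM hc
  have hfb : ∀ h, ‖f h‖ ≤ M * ‖h‖ := fun h =>
    le_of_tendsto (hf h).norm (Eventually.of_forall fun j =>
      (norm_inner_le_norm _ _).trans (mul_le_mul_of_nonneg_right (hM j) (norm_nonneg _)))
  let F : X →L[ℝ] ℝ := LinearMap.mkContinuous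
    { toFun := f
      map_add' := fun g h => tendsto_nhds_unique (hf (g + h))
        (((hf g).add (hf h)).congr fun j => (inner_add_right _ _ _).symm)
      map_smul' := fun a h => tendsto_nhds_unique (hf (a • h))
        (((hf h).const_mul a).congr fun j => (real_inner_smul_right _ _ _).symm) } M hfb
  refine ⟨(InnerProductSpace.toDual ℝ X).symm F, ?_, fun h => ?_⟩
  · rw [LinearIsometryEquiv.norm_map]
    exact LinearMap.mkContinuous_norm_le _ hM0 _
  · rw [InnerProductSpace.toDual_symm_apply]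
    exact hf h

private theorem a3ib_norm (c : HilbertBasis I ℝ X) (s : Finset I) (w : X) :
    ‖w - ∑ i ∈ s, ⟪c i, w⟫_ℝ • c i‖ ^ 2 = ‖w‖ ^ 2 - ∑ i ∈ s, ⟪c i, w⟫_ℝ ^ 2 := by
  have h1 : ⟪w, ∑ i ∈ s, ⟪c i, w⟫_ℝ • c i⟫_ℝ = ∑ i ∈ s, ⟪c i, w⟫_ℝ ^ 2 := by
    rw [inner_sum]
    refine Finset.sum_congr rfl fun i _ => ?_
    rw [real_inner_smul_right, real_inner_comm, sq]
  have h2 : ‖∑ i ∈ s, ⟪c i, w⟫_ℝ • c i‖ ^ 2 = ∑ i ∈ s, ⟪c i, w⟫_ℝ ^ 2 := by
    rw [← real_inner_self_eq_norm_sq, c.orthonormal.inner_sum]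
    refine Finset.sum_congr rfl fun i _ => ?_
    simp [sq]
  rw [norm_sub_sq_real, h1, h2]
  ring

/-- Uniform approximation on compact sets by finite sections. Proof. For one vector `w`: `hasSum_repr`; the projections
have norm `≤ 1`, so the approximation with `ε/3` on a finite `ε/3`-net and a common finite set `s` (increasing `s` does not
increase the error: `‖w - P_s w‖² = ‖w‖² - ∑_{i∈s} ⟪c i, w⟫²`). -/
theorem cpt_approx (c : HilbertBasis I ℝ X) {K : Set X} (hK : IsCompact K) {ε : ℝ} (hε : 0 < ε) :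
    ∃ s : Finset I, ∀ w ∈ K, ‖w - ∑ i ∈ s, ⟪c i, w⟫_ℝ • c i‖ ≤ ε := by
  set U : Finset I → Set X := fun s => {w | ‖w - ∑ i ∈ s, ⟪c i, w⟫_ℝ • c i‖ < ε} with hU
  have hop : ∀ s, IsOpen (U s) := fun s => isOpen_lt (by fun_prop) continuous_const
  have hmono : ∀ s t : Finset I, s ⊆ t → U s ⊆ U t := by
    intro s t hst w hw
    have hw' : ‖w - ∑ i ∈ s, ⟪c i, w⟫_ℝ • c i‖ < ε := hw
    show ‖w - ∑ i ∈ t, ⟪c i, w⟫_ℝ • c i‖ < ε
    refine lt_of_le_of_lt ?_ hw'
    refine le_of_sq_le_sq ?_ (norm_nonneg _)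
    rw [a3ib_norm, a3ib_norm]
    have := Finset.sum_le_sum_of_subset_of_nonneg hst (f := fun i => ⟪c i, w⟫_ℝ ^ 2)
      fun i _ _ => sq_nonneg _
    linarith
  have hdir : Directed (· ⊆ ·) U := by
    classical
    exact fun s t => ⟨s ∪ t, hmono _ _ Finset.subset_union_left, hmono _ _ Finset.subset_union_right⟩
  have hcov : K ⊆ ⋃ s, U s := by
    intro w _
    have h1 := c.hasSum_repr w
    have h2 : Tendsto (fun s : Finset I => ‖w - ∑ i ∈ s, ⟪c i, w⟫_ℝ • c i‖) atTop (𝓝 0) := by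
      have h3 : Tendsto (fun s : Finset I => ∑ i ∈ s, ⟪c i, w⟫_ℝ • c i) atTop (𝓝 w) := by
        refine h1.congr fun s => Finset.sum_congr rfl fun i _ => ?_
        exact congrArg (fun r : ℝ => r • c i) (c.repr_apply_apply w i)
      have := (tendsto_const_nhds (x := w)).sub h3
      simpa using this.norm
    obtain ⟨s, hs⟩ := ((tendsto_order.1 h2).2 ε hε).exists
    exact mem_iUnion.2 ⟨s, hs⟩
  obtain ⟨s, hs⟩ := hK.elim_directed_cover U hop hcov hdir
  exact ⟨s, fun w hw => (hs hw).le⟩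

end

end Pool.Agent.Lib.MP_79abb3_an.W
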