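import Pool.Agent.Lib.MP_79abb3_an.W.A3j
import Pool.Agent.Lib.MP_79abb3_an.W.A3Def
import Pool.Agent.Lib.MP_79abb3_an.W.A3cb
import Pool.Agent.Lib.MP_79abb3_an.W.A3ib
import Pool.Agent.Lib.MP_79abb3_an.W.A3c
import Pool.Agent.Lib.MP_79abb3_an.W.A3i
import Pool.Agent.Lib.MP_79abb3_an.W.A3bb

section

/-!
Theorem W (MP_79abb3_an), block A3: the nonlinear term, part 1.
-/

set_option autoImplicit false
set_option linter.unusedSectionVars false

open MeasureTheory Set Filter Topology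
open scoped InnerProductSpace

namespace Pool.Agent.Lib.MP_79abb3_an.W

section
variable {H V : Type} [NormedAddCommGroup H] [InnerProductSpace ℝ H] [CompleteSpace H]
  [NormedAddCommGroup V] [InnerProductSpace ℝ V] [CompleteSpace V] {ι : V →L[ℝ] H} {a b M : ℝ}
  {e : ℕ → ℝ → V} {x : ℝ → H} {v : ℝ → V}

/-- The limit form: skew, bounded. -/
theorem NB.lim {q : V → ℝ} {N : ℕ → H →L[ℝ] V →L[ℝ] H} (hN : ∀ j, NB ι q (N j)) {c : V → V → V → ℝ}
    (hc : ∀ u v p, Tendsto (fun j => ⟪N j (ι u) v, ι p⟫_ℝ) atTop (𝓝 (c u v p))) (u v p : V) :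
    c u v p = -c u p v ∧ |c u v p| ≤ q u * ‖v‖ * q p := by
  constructor
  · refine tendsto_nhds_unique (hc u v p) ?_
    refine Tendsto.congr (fun j => ?_) (hc u p v).neg
    exact ((hN j).skew' (ι u) v p).symm
  · exact le_of_tendsto (hc u v p).abs (Eventually.of_forall fun j => (hN j).bd u v p)

/-- **The nonlinear term, part 1**: `N_j` along the limit. Proof. Pointwise convergence, `|⟪N_j (ι (v r)) (v r), ι p⟫| ≤ ‖p‖ q(v r)² ≤
C ‖p‖ ‖v r‖²` (`NB.self`, `IsQ.bd`), dominated convergence; measurability of `r ↦ ⟪N_j (ι (v r)) (v r), ι p⟫` from that of `v`. -/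
theorem nl_lim1 {q : V → ℝ} (hq : IsQ ι q) {N : ℕ → H →L[ℝ] V →L[ℝ] H} (hN : ∀ j, NB ι q (N j))
    {c : V → V → V → ℝ} (hc : ∀ u v p, Tendsto (fun j => ⟪N j (ι u) v, ι p⟫_ℝ) atTop (𝓝 (c u v p)))
    (hv : MemLp v 2 (volume.restrict (Icc a b))) (p : V) {s t : ℝ} (hs : a ≤ s) (hst : s ≤ t) (ht : t ≤ b) :
    Tendsto (fun j => ∫ r in s..t, ⟪N j (ι (v r)) (v r), ι p⟫_ℝ) atTop (𝓝 (∫ r in s..t, c (v r) (v r) p)) ∧
      IntervalIntegrable (fun r => c (v r) (v r) p) volume s t := by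
  obtain ⟨C, hC, hCb⟩ := hq.bd
  have hsub : Ioc s t ⊆ Icc a b := fun r hr => ⟨hs.trans hr.1.le, hr.2.trans ht⟩
  have hvm : AEStronglyMeasurable v (volume.restrict (Ioc s t)) := hv.1.mono_set hsub
  have hi : IntegrableOn (fun r => ‖v r‖ ^ 2) (Icc a b) := (memLp_two_iff_integrable_sq_norm hv.1).1 hv
  have hB : IntegrableOn (fun r => ‖p‖ * (C * ‖v r‖ ^ 2)) (Ioc s t) :=
    ((hi.mono_set hsub).const_mul C).const_mul ‖p‖
  have hm : ∀ j, AEStronglyMeasurable (fun r => ⟪N j (ι (v r)) (v r), ι p⟫_ℝ)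
      (volume.restrict (Ioc s t)) := fun j => by
    have hcont : Continuous (fun w : V => ⟪N j (ι w) w, ι p⟫_ℝ) := by fun_prop
    exact hcont.comp_aestronglyMeasurable hvm
  have hbd : ∀ j w, |⟪N j (ι w) w, ι p⟫_ℝ| ≤ ‖p‖ * (C * ‖w‖ ^ 2) := fun j w =>
    ((hN j).self w p).trans (mul_le_mul_of_nonneg_left (hCb w) (norm_nonneg p))
  have hlim : ∀ w : V, Tendsto (fun j => ⟪N j (ι w) w, ι p⟫_ℝ) atTop (𝓝 (c w w p)) := fun w => hc w w p
  have hcb : ∀ w : V, |c w w p| ≤ ‖p‖ * (C * ‖w‖ ^ 2) := fun w =>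
    le_of_tendsto (hlim w).abs (Eventually.of_forall fun j => hbd j w)
  have hcm : AEStronglyMeasurable (fun r => c (v r) (v r) p) (volume.restrict (Ioc s t)) :=
    aestronglyMeasurable_of_tendsto_ae atTop hm (Eventually.of_forall fun r => hlim (v r))
  constructor
  · refine intervalIntegral.tendsto_integral_filter_of_dominated_convergence
      (fun r => ‖p‖ * (C * ‖v r‖ ^ 2)) (Eventually.of_forall fun j => ?_)
      (Eventually.of_forall fun j => Eventually.of_forall fun r _ => ?_) ?_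
      (Eventually.of_forall fun r _ => hlim (v r))
    · rw [uIoc_of_le hst]
      exact hm j
    · rw [Real.norm_eq_abs]
      exact hbd j (v r)
    · rw [intervalIntegrable_iff_integrableOn_Ioc_of_le hst]
      exact hB
  · rw [intervalIntegrable_iff_integrableOn_Ioc_of_le hst]
    refine Integrable.mono' hB hcm (Eventually.of_forall fun r => ?_)
    rw [Real.norm_eq_abs]
    exact hcb (v r)

end

end Pool.Agent.Lib.MP_79abb3_an.W
end

section

/-!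
Theorem W (MP_79abb3_an), block A3: the nonlinear term, part 2.
-/

set_option autoImplicit false
set_option linter.unusedSectionVars false

open MeasureTheory Set Filter Topology
open scoped InnerProductSpace

namespace Pool.Agent.Lib.MP_79abb3_an.W

section
variable {H V : Type} [NormedAddCommGroup H] [InnerProductSpace ℝ H] [CompleteSpace H]
  [NormedAddCommGroup V] [InnerProductSpace ℝ V] [CompleteSpace V] {ι : V →L[ℝ] H} {a b M : ℝ}
  {e : ℕ → ℝ → V} {x : ℝ → H} {v : ℝ → V}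

/-- the pointwise estimate -/
private theorem a3ke_pt {q : V → ℝ} (_hq : IsQ ι q) {N : H →L[ℝ] V →L[ℝ] H} (hN : NB ι q N) {C δ η K : ℝ}
    (hC : ∀ v, q v ^ 2 ≤ C * ‖v‖ ^ 2) (hδ : 0 < δ) (hη : 0 < η)
    (hK : ∀ v, q v ^ 2 ≤ η * ‖v‖ ^ 2 + K * ‖ι v‖ ^ 2) (e v p : V) :
    |⟪N (ι e) e, ι p⟫_ℝ - ⟪N (ι v) v, ι p⟫_ℝ| ≤
      ‖p‖ * ((2 * δ⁻¹ * η + δ * C) * (‖e‖ ^ 2 + ‖v‖ ^ 2) + δ⁻¹ * K * ‖ι (e - v)‖ ^ 2) := by
  have e1 : ⟪N (ι e) e, ι p⟫_ℝ - ⟪N (ι v) v, ι p⟫_ℝ =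
      -⟪N (ι (e - v)) p, ι e⟫_ℝ - ⟪N (ι v) p, ι (e - v)⟫_ℝ := by
    rw [hN.skew' (ι e) e p, hN.skew' (ι v) v p, map_sub, map_sub, _root_.sub_apply,
      inner_sub_left, inner_sub_right]
    ring
  have h1 := hN.bd (e - v) p e
  have h2 := hN.bd v p (e - v)
  have h3 : |⟪N (ι e) e, ι p⟫_ℝ - ⟪N (ι v) v, ι p⟫_ℝ| ≤ ‖p‖ * (q (e - v) * (q e + q v)) := by
    rw [e1]
    refine (abs_sub _ _).trans ?_
    rw [abs_neg]
    calc |⟪N (ι (e - v)) p, ι e⟫_ℝ| + |⟪N (ι v) p, ι (e - v)⟫_ℝ| ≤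
        q (e - v) * ‖p‖ * q e + q v * ‖p‖ * q (e - v) := add_le_add h1 h2
      _ = _ := by ring
  refine h3.trans (mul_le_mul_of_nonneg_left ?_ (norm_nonneg p))
  have hδi : 0 < δ⁻¹ := inv_pos.2 hδ
  have h4 : q (e - v) * (q e + q v) ≤ δ⁻¹ * q (e - v) ^ 2 + δ * (q e ^ 2 + q v ^ 2) := by
    have h5 : 0 ≤ δ⁻¹ * (q (e - v) - δ * q e) ^ 2 := by positivity
    have h6 : 0 ≤ δ⁻¹ * (q (e - v) - δ * q v) ^ 2 := by positivity
    have h7 : δ⁻¹ * (q (e - v) - δ * q e) ^ 2 =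
        δ⁻¹ * q (e - v) ^ 2 - 2 * (q (e - v) * q e) + δ * q e ^ 2 := by
      field_simp
      ring
    have h8 : δ⁻¹ * (q (e - v) - δ * q v) ^ 2 =
        δ⁻¹ * q (e - v) ^ 2 - 2 * (q (e - v) * q v) + δ * q v ^ 2 := by
      field_simp
      ring
    have h9 : 0 ≤ δ * q e ^ 2 := by positivity
    have h10 : 0 ≤ δ * q v ^ 2 := by positivity
    nlinarith
  have h5 : ‖e - v‖ ^ 2 ≤ 2 * (‖e‖ ^ 2 + ‖v‖ ^ 2) := by
    have h6 := norm_sub_le e v
    have h7 : ‖e - v‖ ^ 2 ≤ (‖e‖ + ‖v‖) ^ 2 := pow_le_pow_left₀ (norm_nonneg _) h6 2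
    nlinarith [sq_nonneg (‖e‖ - ‖v‖)]
  have h6 : δ⁻¹ * q (e - v) ^ 2 ≤ δ⁻¹ * (η * (2 * (‖e‖ ^ 2 + ‖v‖ ^ 2)) + K * ‖ι (e - v)‖ ^ 2) := by
    refine mul_le_mul_of_nonneg_left ((hK (e - v)).trans ?_) hδi.le
    have := mul_le_mul_of_nonneg_left h5 hη.le
    linarith
  have h7 : δ * (q e ^ 2 + q v ^ 2) ≤ δ * (C * ‖e‖ ^ 2 + C * ‖v‖ ^ 2) :=
    mul_le_mul_of_nonneg_left (add_le_add (hC e) (hC v)) hδ.le
  calc q (e - v) * (q e + q v) ≤ δ⁻¹ * q (e - v) ^ 2 + δ * (q e ^ 2 + q v ^ 2) := h4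
    _ ≤ δ⁻¹ * (η * (2 * (‖e‖ ^ 2 + ‖v‖ ^ 2)) + K * ‖ι (e - v)‖ ^ 2) +
        δ * (C * ‖e‖ ^ 2 + C * ‖v‖ ^ 2) := add_le_add h6 h7
    _ = _ := by ring

/-- **The nonlinear term, part 2**. Proof. With `w = e j - v` and `NB.skew'`:
`⟪N(ι e) e, ι p⟫ - ⟪N(ι v) v, ι p⟫ = -⟪N(ι w) p, ι e⟫ - ⟪N(ι v) p, ι w⟫`, at most `‖p‖ q(w) (q(e) + q(v)) ≤
‖p‖ (δ⁻¹ q(w)² + δ (q(e)² + q(v)²)) ≤ ‖p‖ (δ⁻¹ (η ‖w‖² + K ‖ι w‖²) + δ C (‖e‖² + ‖v‖²))`; integrate: the `limsup` is at most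
`‖p‖ (4 δ⁻¹ η M + 2 δ C M)`; choose `δ`, then `η`. -/
theorem nl_lim2 {q : V → ℝ} (hq : IsQ ι q) {N : ℕ → H →L[ℝ] V →L[ℝ] H} (hN : ∀ j, NB ι q (N j))
    (hab : a ≤ b) (hec : ∀ j, ContinuousOn (e j) (Icc a b)) (hM : ∀ j, ∫ t in a..b, ‖e j t‖ ^ 2 ≤ M)
    (hv : MemLp v 2 (volume.restrict (Icc a b))) (hvM : ∫ t in a..b, ‖v t‖ ^ 2 ≤ M)
    (hw : Tendsto (fun j => ∫ t in a..b, ‖ι (e j t - v t)‖ ^ 2) atTop (𝓝 0)) (p : V) {s t : ℝ}
    (hs : a ≤ s) (hst : s ≤ t) (ht : t ≤ b) :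
    Tendsto (fun j => (∫ r in s..t, ⟪N j (ι (e j r)) (e j r), ι p⟫_ℝ) -
      ∫ r in s..t, ⟪N j (ι (v r)) (v r), ι p⟫_ℝ) atTop (𝓝 0) := by
  obtain ⟨C, hC0, hC⟩ := hq.bd
  have hvsq : IntegrableOn (fun r => ‖v r‖ ^ 2) (Icc a b) := hv.integrable_norm_pow (by norm_num)
  have hesq : ∀ j, IntegrableOn (fun r => ‖e j r‖ ^ 2) (Icc a b) := fun j =>
    ((hec j).norm.pow 2).integrableOn_Icc
  have II : ∀ {f : ℝ → ℝ}, IntegrableOn f (Icc a b) → ∀ {c d : ℝ}, a ≤ c → c ≤ d → d ≤ b →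
      IntervalIntegrable f volume c d := by
    intro f hf c d h1 h2 h3
    exact (intervalIntegrable_iff_integrableOn_Icc_of_le h2).2 (hf.mono_set (Icc_subset_Icc h1 h3))
  have hem : ∀ j, AEStronglyMeasurable (e j) (volume.restrict (Icc a b)) := fun j =>
    (hec j).aestronglyMeasurable measurableSet_Icc
  have hwi : ∀ j, IntegrableOn (fun r => ‖ι (e j r - v r)‖ ^ 2) (Icc a b) := by
    intro j
    refine Integrable.mono' (((hesq j).add hvsq).const_mul (2 * ‖ι‖ ^ 2)) ?_ ?_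
    · have hc : Continuous fun z : V => ‖ι z‖ ^ 2 := by fun_prop
      exact hc.comp_aestronglyMeasurable ((hem j).sub hv.1)
    · refine Eventually.of_forall fun r => ?_
      rw [Real.norm_of_nonneg (by positivity)]
      show ‖ι (e j r - v r)‖ ^ 2 ≤ 2 * ‖ι‖ ^ 2 * (‖e j r‖ ^ 2 + ‖v r‖ ^ 2)
      have h1 : ‖ι (e j r - v r)‖ ≤ ‖ι‖ * (‖e j r‖ + ‖v r‖) :=
        (ι.le_opNorm _).trans (mul_le_mul_of_nonneg_left (norm_sub_le _ _) (norm_nonneg _))
      have h2 : ‖ι (e j r - v r)‖ ^ 2 ≤ (‖ι‖ * (‖e j r‖ + ‖v r‖)) ^ 2 :=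
        pow_le_pow_left₀ (norm_nonneg _) h1 2
      have h3 : (‖e j r‖ + ‖v r‖) ^ 2 ≤ 2 * (‖e j r‖ ^ 2 + ‖v r‖ ^ 2) := by
        nlinarith [sq_nonneg (‖e j r‖ - ‖v r‖)]
      calc ‖ι (e j r - v r)‖ ^ 2 ≤ ‖ι‖ ^ 2 * (‖e j r‖ + ‖v r‖) ^ 2 := by rw [← mul_pow]; exact h2
        _ ≤ ‖ι‖ ^ 2 * (2 * (‖e j r‖ ^ 2 + ‖v r‖ ^ 2)) := mul_le_mul_of_nonneg_left h3 (by positivity)
        _ = _ := by ring
  have hNc : ∀ j, Continuous fun z : V => ⟪N j (ι z) z, ι p⟫_ℝ := fun j => by fun_prop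
  have h1i : ∀ j, IntegrableOn (fun r => ⟪N j (ι (e j r)) (e j r), ι p⟫_ℝ) (Icc a b) := fun j =>
    ((hNc j).comp_continuousOn (hec j)).integrableOn_Icc
  have h2i : ∀ j, IntegrableOn (fun r => ⟪N j (ι (v r)) (v r), ι p⟫_ℝ) (Icc a b) := by
    intro j
    refine Integrable.mono' (hvsq.const_mul (‖p‖ * C)) ((hNc j).comp_aestronglyMeasurable hv.1) ?_
    refine Eventually.of_forall fun r => ?_
    rw [Real.norm_eq_abs]
    refine ((hN j).self (v r) p).trans ?_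
    rw [mul_assoc]
    exact mul_le_mul_of_nonneg_left (hC (v r)) (norm_nonneg p)
  have hM0 : 0 ≤ M :=
    (intervalIntegral.integral_nonneg hab fun r _ => by positivity).trans hvM
  -- the main estimate
  have key : ∀ δ η K : ℝ, 0 < δ → 0 < η → 0 ≤ K → (∀ v, q v ^ 2 ≤ η * ‖v‖ ^ 2 + K * ‖ι v‖ ^ 2) → ∀ j,
      |(∫ r in s..t, ⟪N j (ι (e j r)) (e j r), ι p⟫_ℝ) - ∫ r in s..t, ⟪N j (ι (v r)) (v r), ι p⟫_ℝ| ≤
        ‖p‖ * ((2 * δ⁻¹ * η + δ * C) * (2 * M) +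
          δ⁻¹ * K * ∫ r in a..b, ‖ι (e j r - v r)‖ ^ 2) := by
    intro δ η K hδ hη hK0 hK j
    have hδi : 0 < δ⁻¹ := inv_pos.2 hδ
    have hGi : IntegrableOn (fun r => ‖p‖ * ((2 * δ⁻¹ * η + δ * C) * (‖e j r‖ ^ 2 + ‖v r‖ ^ 2) +
        δ⁻¹ * K * ‖ι (e j r - v r)‖ ^ 2)) (Icc a b) :=
      ((((hesq j).add hvsq).const_mul (2 * δ⁻¹ * η + δ * C)).add
        ((hwi j).const_mul (δ⁻¹ * K))).const_mul ‖p‖
    rw [← intervalIntegral.integral_sub (II (h1i j) hs hst ht) (II (h2i j) hs hst ht)]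
    have h1 : ‖∫ r in s..t, (⟪N j (ι (e j r)) (e j r), ι p⟫_ℝ - ⟪N j (ι (v r)) (v r), ι p⟫_ℝ)‖ ≤
        ∫ r in s..t, ‖p‖ * ((2 * δ⁻¹ * η + δ * C) * (‖e j r‖ ^ 2 + ‖v r‖ ^ 2) +
          δ⁻¹ * K * ‖ι (e j r - v r)‖ ^ 2) := by
      refine intervalIntegral.norm_integral_le_of_norm_le hst ?_ (II hGi hs hst ht)
      exact Eventually.of_forall fun r _ => a3ke_pt hq (hN j) hC hδ hη hK (e j r) (v r) p
    have h2 : ∫ r in s..t, ‖p‖ * ((2 * δ⁻¹ * η + δ * C) * (‖e j r‖ ^ 2 + ‖v r‖ ^ 2) +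
          δ⁻¹ * K * ‖ι (e j r - v r)‖ ^ 2) ≤
        ∫ r in a..b, ‖p‖ * ((2 * δ⁻¹ * η + δ * C) * (‖e j r‖ ^ 2 + ‖v r‖ ^ 2) +
          δ⁻¹ * K * ‖ι (e j r - v r)‖ ^ 2) := by
      refine intervalIntegral.integral_mono_interval hs hst ht ?_ (II hGi le_rfl hab le_rfl)
      exact Eventually.of_forall fun r => by
        show (0 : ℝ) ≤ _
        positivity
    have i1 := II (hesq j) le_rfl hab le_rfl
    have i2 := II hvsq le_rfl hab le_rfl
    have i3 := II (hwi j) le_rfl hab le_rfl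
    have h3 : ∫ r in a..b, ‖p‖ * ((2 * δ⁻¹ * η + δ * C) * (‖e j r‖ ^ 2 + ‖v r‖ ^ 2) +
          δ⁻¹ * K * ‖ι (e j r - v r)‖ ^ 2) =
        ‖p‖ * ((2 * δ⁻¹ * η + δ * C) * ((∫ r in a..b, ‖e j r‖ ^ 2) + ∫ r in a..b, ‖v r‖ ^ 2) +
          δ⁻¹ * K * ∫ r in a..b, ‖ι (e j r - v r)‖ ^ 2) := by
      rw [intervalIntegral.integral_const_mul, intervalIntegral.integral_add
        ((i1.add i2).const_mul _) (i3.const_mul _), intervalIntegral.integral_const_mul,
        intervalIntegral.integral_const_mul, intervalIntegral.integral_add i1 i2]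
    rw [← Real.norm_eq_abs]
    refine h1.trans (h2.trans ?_)
    rw [h3]
    refine mul_le_mul_of_nonneg_left (add_le_add_left ?_ _) (norm_nonneg p)
    refine mul_le_mul_of_nonneg_left ?_ (by positivity)
    have := hM j
    linarith
  rw [Metric.tendsto_atTop]
  intro ε hε
  have hP : 0 < ‖p‖ + 1 := by positivity
  have hCM : 0 < C * (2 * M) + 1 := by positivity
  have hM1 : 0 < 2 * (2 * M) + 1 := by positivity
  obtain ⟨δ, hδ⟩ : ∃ δ : ℝ, δ = ε / (4 * (‖p‖ + 1) * (C * (2 * M) + 1)) := ⟨_, rfl⟩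
  have hδ0 : 0 < δ := by rw [hδ]; positivity
  have hδi : 0 < δ⁻¹ := inv_pos.2 hδ0
  obtain ⟨η, hη⟩ : ∃ η : ℝ, η = ε * δ / (4 * (‖p‖ + 1) * (2 * (2 * M) + 1)) := ⟨_, rfl⟩
  have hη0 : 0 < η := by rw [hη]; positivity
  obtain ⟨K, hK0, hK⟩ := hq.ehr η hη0
  have hb1 : ‖p‖ * (δ * C * (2 * M)) ≤ ε / 4 := by
    have e1 : (‖p‖ + 1) * (δ * (C * (2 * M) + 1)) = ε / 4 := by rw [hδ]; field_simp
    have e2 : ‖p‖ * (δ * C * (2 * M)) ≤ (‖p‖ + 1) * (δ * (C * (2 * M) + 1)) := by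
      refine mul_le_mul (by linarith) ?_ (by positivity) (by positivity)
      have : δ * (C * (2 * M) + 1) = δ * C * (2 * M) + δ := by ring
      linarith
    linarith
  have hb2 : ‖p‖ * (2 * δ⁻¹ * η * (2 * M)) ≤ ε / 4 := by
    have e1 : (‖p‖ + 1) * (δ⁻¹ * η * (2 * (2 * M) + 1)) = ε / 4 := by rw [hη]; field_simp
    have e2 : ‖p‖ * (2 * δ⁻¹ * η * (2 * M)) ≤ (‖p‖ + 1) * (δ⁻¹ * η * (2 * (2 * M) + 1)) := by
      refine mul_le_mul (by linarith) ?_ (by positivity) (by positivity)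
      have e3 : δ⁻¹ * η * (2 * (2 * M) + 1) = 2 * δ⁻¹ * η * (2 * M) + δ⁻¹ * η := by ring
      have e4 : 0 ≤ δ⁻¹ * η := by positivity
      linarith
    linarith
  have hlim : Tendsto (fun j => ‖p‖ * (δ⁻¹ * K * ∫ r in a..b, ‖ι (e j r - v r)‖ ^ 2)) atTop
      (𝓝 (‖p‖ * (δ⁻¹ * K * 0))) := (hw.const_mul _).const_mul _
  rw [mul_zero, mul_zero] at hlim
  obtain ⟨J, hJ⟩ := eventually_atTop.1 (hlim.eventually (gt_mem_nhds (show 0 < ε / 4 by positivity)))
  refine ⟨J, fun j hj => ?_⟩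
  rw [Real.dist_eq, sub_zero]
  have h1 := key δ η K hδ0 hη0 hK0 hK j
  have h2 := hJ j hj
  have e1 : ‖p‖ * ((2 * δ⁻¹ * η + δ * C) * (2 * M) +
          δ⁻¹ * K * ∫ r in a..b, ‖ι (e j r - v r)‖ ^ 2) =
      ‖p‖ * (2 * δ⁻¹ * η * (2 * M)) + ‖p‖ * (δ * C * (2 * M)) +
        ‖p‖ * (δ⁻¹ * K * ∫ r in a..b, ‖ι (e j r - v r)‖ ^ 2) := by ring
  rw [e1] at h1
  linarith

end

end Pool.Agent.Lib.MP_79abb3_an.W
end

section

/-!
Theorem W (MP_79abb3_an), block A3: equicontinuity.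
-/

set_option autoImplicit false
set_option linter.unusedSectionVars false

open MeasureTheory Set Filter Topology
open scoped InnerProductSpace

namespace Pool.Agent.Lib.MP_79abb3_an.W

section
variable {H V : Type} [NormedAddCommGroup H] [InnerProductSpace ℝ H] [CompleteSpace H]
  [NormedAddCommGroup V] [InnerProductSpace ℝ V] [CompleteSpace V] {ι : V →L[ℝ] H} {ν a b M : ℝ}

/-- **Equicontinuity**, uniform in the solution, in `N` and in the left end point `α`. Proof. The tested identity; for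
`η > 0` the integrand is at most (`NB.self`, `IsQ.ehr`, `2xy ≤ η x² + η⁻¹ y²`)
`ν ‖e‖ ‖p‖ + (β + γ ‖e‖) ‖ι p‖ + ‖p‖ (η ‖e‖² + K ‖ι e‖²) ≤ C_p (3 η ‖e‖² + C_η (1 + β + γ²))`, with `C_p` independent of `η`; the
first part contributes at most `3 C_p η M`, the second is small for small `|t - s|` (the primitive of an integrable
function is uniformly continuous on `[a, b]`). -/
theorem equicont {q : V → ℝ} (hq : IsQ ι q) (hν : 0 < ν) {γ β : ℝ → ℝ}
    (hγ : IntegrableOn (fun r => γ r ^ 2) (Ioc a b)) (hβ : IntegrableOn β (Ioc a b)) (p : V) {ε : ℝ}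
    (hε : 0 < ε) :
    ∃ δ > 0, ∀ {F : ℝ → V →L[ℝ] H} {g : ℝ → H} {N : H →L[ℝ] V →L[ℝ] H} {α : ℝ} {e : ℝ → V},
    NB ι q N → a ≤ α → (∀ r ∈ Ioc a b, ‖F r‖ ≤ γ r) → (∀ r ∈ Ioc a b, ‖g r‖ ≤ β r) →
    RSol ι ν F g N α b e → (∀ r ∈ Icc α b, ‖ι (e r)‖ ≤ M) → ∫ r in α..b, ‖e r‖ ^ 2 ≤ M →
    ∀ s ∈ Icc α b, ∀ t ∈ Icc α b, |t - s| ≤ δ → |⟪ι (e t), ι p⟫_ℝ - ⟪ι (e s), ι p⟫_ℝ| ≤ ε := by
  by_cases hab : a ≤ b
  swap
  · refine ⟨1, one_pos, ?_⟩
    intro F g N α e _ hα _ _ _ _ _ s hs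
    exact absurd (hα.trans (hs.1.trans hs.2)) hab
  set η : ℝ := ε / (6 * (|M| + 1)) with hη
  have hη0 : 0 < η := by positivity
  obtain ⟨K, hK0, hK⟩ := hq.ehr (η / (‖p‖ + 1)) (by positivity)
  set c0 : ℝ := ν ^ 2 * ‖p‖ ^ 2 / (4 * η) + ‖p‖ * (K * M ^ 2) with hc0
  set ψ : ℝ → ℝ := fun r => c0 + ‖ι p‖ * β r + ‖ι p‖ ^ 2 / (4 * η) * γ r ^ 2 with hψ
  have hψi : IntegrableOn ψ (Ioc a b) :=
    ((integrableOn_const measure_Ioc_lt_top.ne).add (hβ.const_mul _)).add (hγ.const_mul _)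
  have hψi' : IntegrableOn ψ (Icc a b) := (integrableOn_Icc_iff_integrableOn_Ioc (by simp)).2 hψi
  have hcont : ContinuousOn (fun x => ∫ t in a..x, ψ t) (Icc a b) := by
    have h1 := intervalIntegral.continuousOn_primitive_interval (μ := volume) (f := ψ) (a := a) (b := b)
      (by rwa [uIcc_of_le hab])
    rwa [uIcc_of_le hab] at h1
  have huc := isCompact_Icc.uniformContinuousOn_of_continuous hcont
  rw [Metric.uniformContinuousOn_iff_le] at huc
  obtain ⟨δ, hδ, hδ'⟩ := huc (ε / 2) (by positivity)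
  refine ⟨δ, hδ, ?_⟩
  intro F g N α e hNB hα hF hg he hM hV
  have key : ∀ s t, α ≤ s → s ≤ t → t ≤ b → |t - s| ≤ δ →
      |⟪ι (e t), ι p⟫_ℝ - ⟪ι (e s), ι p⟫_ℝ| ≤ ε := by
    intro s t hs hst ht hδst
    have hαb : α ≤ b := hs.trans (hst.trans ht)
    have hM0 : 0 ≤ M := (norm_nonneg _).trans (hM α ⟨le_rfl, hαb⟩)
    rw [TstR.eq he p s t hs hst ht]
    have hsub : Icc s t ⊆ Icc α b := Icc_subset_Icc hs ht
    have hec : ContinuousOn e (Icc α b) := TstR.cont he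
    have i0 : IntervalIntegrable (fun r => ‖e r‖ ^ 2) volume α b := by
      refine ContinuousOn.intervalIntegrable ?_
      rw [uIcc_of_le hαb]
      exact hec.norm.pow 2
    have i1 : IntervalIntegrable (fun r => ‖e r‖ ^ 2) volume s t := by
      refine ContinuousOn.intervalIntegrable ?_
      rw [uIcc_of_le hst]
      exact (hec.mono hsub).norm.pow 2
    have i2 : IntervalIntegrable ψ volume s t :=
      (intervalIntegrable_iff_integrableOn_Ioc_of_le hst).2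
        (hψi.mono_set (Ioc_subset_Ioc (hα.trans hs) ht))
    have hb : ∀ r ∈ Ioc s t, ‖-(ν * ⟪e r, p⟫_ℝ) + ⟪Rhs ι F g N r (e r), ι p⟫_ℝ‖ ≤
        3 * η * ‖e r‖ ^ 2 + ψ r := by
      intro r hr
      have hr1 : r ∈ Icc α b := ⟨hs.trans hr.1.le, hr.2.trans ht⟩
      have hr2 : r ∈ Ioc a b := ⟨(hα.trans hs).trans_lt hr.1, hr.2.trans ht⟩
      have e1 : -(ν * ⟪e r, p⟫_ℝ) + ⟪Rhs ι F g N r (e r), ι p⟫_ℝ =
          -(ν * ⟪e r, p⟫_ℝ) + ⟪g r, ι p⟫_ℝ - ⟪F r (e r), ι p⟫_ℝ - ⟪N (ι (e r)) (e r), ι p⟫_ℝ := by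
        unfold Rhs
        rw [inner_sub_left, inner_sub_left]
        ring
      have b1 : |ν * ⟪e r, p⟫_ℝ| ≤ ν * (‖e r‖ * ‖p‖) := by
        rw [abs_mul, abs_of_pos hν]
        exact mul_le_mul_of_nonneg_left (abs_real_inner_le_norm _ _) hν.le
      have b2 : |⟪g r, ι p⟫_ℝ| ≤ ‖ι p‖ * β r := by
        refine (abs_real_inner_le_norm _ _).trans ?_
        rw [mul_comm]
        exact mul_le_mul_of_nonneg_left (hg r hr2) (norm_nonneg _)
      have b3 : |⟪F r (e r), ι p⟫_ℝ| ≤ γ r * ‖e r‖ * ‖ι p‖ := by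
        refine (abs_real_inner_le_norm _ _).trans (mul_le_mul_of_nonneg_right ?_ (norm_nonneg _))
        exact ((F r).le_opNorm _).trans (mul_le_mul_of_nonneg_right (hF r hr2) (norm_nonneg _))
      have b4 := hNB.self (e r) p
      have b5 : |-(ν * ⟪e r, p⟫_ℝ) + ⟪g r, ι p⟫_ℝ - ⟪F r (e r), ι p⟫_ℝ - ⟪N (ι (e r)) (e r), ι p⟫_ℝ| ≤
          |ν * ⟪e r, p⟫_ℝ| + |⟪g r, ι p⟫_ℝ| + |⟪F r (e r), ι p⟫_ℝ| + |⟪N (ι (e r)) (e r), ι p⟫_ℝ| := by
        refine (abs_sub _ _).trans (add_le_add ((abs_sub _ _).trans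
          (add_le_add ((abs_add_le _ _).trans (add_le_add ?_ le_rfl)) le_rfl)) le_rfl)
        rw [abs_neg]
      have x1 : ν * (‖e r‖ * ‖p‖) ≤ η * ‖e r‖ ^ 2 + ν ^ 2 * ‖p‖ ^ 2 / (4 * η) := by
        have h8 : 0 ≤ (2 * η * ‖e r‖ - ν * ‖p‖) ^ 2 / (4 * η) := by positivity
        have h9 : (2 * η * ‖e r‖ - ν * ‖p‖) ^ 2 / (4 * η) =
            η * ‖e r‖ ^ 2 + ν ^ 2 * ‖p‖ ^ 2 / (4 * η) - ν * (‖e r‖ * ‖p‖) := by
          field_simp
          ring
        linarith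
      have x2 : γ r * ‖e r‖ * ‖ι p‖ ≤ η * ‖e r‖ ^ 2 + ‖ι p‖ ^ 2 / (4 * η) * γ r ^ 2 := by
        have h8 : 0 ≤ (2 * η * ‖e r‖ - γ r * ‖ι p‖) ^ 2 / (4 * η) := by positivity
        have h9 : (2 * η * ‖e r‖ - γ r * ‖ι p‖) ^ 2 / (4 * η) =
            η * ‖e r‖ ^ 2 + ‖ι p‖ ^ 2 / (4 * η) * γ r ^ 2 - γ r * ‖e r‖ * ‖ι p‖ := by
          field_simp
          ring
        linarith
      have x3 : ‖p‖ * q (e r) ^ 2 ≤ η * ‖e r‖ ^ 2 + ‖p‖ * (K * M ^ 2) := by
        have h1 := mul_le_mul_of_nonneg_left (hK (e r)) (norm_nonneg p)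
        have h2 : ‖ι (e r)‖ ^ 2 ≤ M ^ 2 := pow_le_pow_left₀ (norm_nonneg _) (hM r hr1) 2
        have h3 : ‖p‖ * (K * ‖ι (e r)‖ ^ 2) ≤ ‖p‖ * (K * M ^ 2) :=
          mul_le_mul_of_nonneg_left (mul_le_mul_of_nonneg_left h2 hK0) (norm_nonneg p)
        have h4 : ‖p‖ * (η / (‖p‖ + 1)) ≤ η := by
          rw [mul_div_assoc', div_le_iff₀ (by positivity)]
          nlinarith [norm_nonneg p]
        have h5 := mul_le_mul_of_nonneg_right h4 (sq_nonneg ‖e r‖)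
        have h6 : ‖p‖ * (η / (‖p‖ + 1) * ‖e r‖ ^ 2 + K * ‖ι (e r)‖ ^ 2) =
            ‖p‖ * (η / (‖p‖ + 1)) * ‖e r‖ ^ 2 + ‖p‖ * (K * ‖ι (e r)‖ ^ 2) := by ring
        linarith
      rw [e1, Real.norm_eq_abs]
      have h10 : ψ r = c0 + ‖ι p‖ * β r + ‖ι p‖ ^ 2 / (4 * η) * γ r ^ 2 := rfl
      rw [h10, hc0]
      linarith
    have h1 := intervalIntegral.norm_integral_le_of_norm_le (μ := volume) hst
      (Eventually.of_forall fun r hr => hb r hr) ((i1.const_mul (3 * η)).add i2)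
    rw [intervalIntegral.integral_add (i1.const_mul (3 * η)) i2, intervalIntegral.integral_const_mul,
      Real.norm_eq_abs] at h1
    have h2 : ∫ r in s..t, ‖e r‖ ^ 2 ≤ M :=
      (intervalIntegral.integral_mono_interval hs hst ht
        (Eventually.of_forall fun r => sq_nonneg _) i0).trans hV
    have h3 : ∫ r in s..t, ψ r ≤ ε / 2 := by
      have h4 := hδ' t ⟨(hα.trans hs).trans hst, ht⟩ s ⟨hα.trans hs, hst.trans ht⟩
        (by rw [Real.dist_eq]; exact hδst)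
      rw [Real.dist_eq] at h4
      have j1 : IntervalIntegrable ψ volume a t :=
        (intervalIntegrable_iff_integrableOn_Ioc_of_le ((hα.trans hs).trans hst)).2
          (hψi.mono_set (Ioc_subset_Ioc le_rfl ht))
      have j2 : IntervalIntegrable ψ volume a s :=
        (intervalIntegrable_iff_integrableOn_Ioc_of_le (hα.trans hs)).2
          (hψi.mono_set (Ioc_subset_Ioc le_rfl (hst.trans ht)))
      rw [intervalIntegral.integral_interval_sub_left j1 j2] at h4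
      exact (le_abs_self _).trans h4
    have h4 : 3 * η * ∫ r in s..t, ‖e r‖ ^ 2 ≤ ε / 2 := by
      have h5 : 3 * η * (∫ r in s..t, ‖e r‖ ^ 2) ≤ 3 * η * (|M| + 1) :=
        mul_le_mul_of_nonneg_left (h2.trans (by linarith [le_abs_self M])) (by positivity)
      have h6 : 3 * η * (|M| + 1) = ε / 2 := by
        rw [hη]
        field_simp
        ring
      linarith
    exact h1.trans (by linarith)
  intro s hs t ht hst
  rcases le_total s t with h | h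
  · exact key s t hs.1 h ht.2 hst
  · rw [abs_sub_comm]
    exact key t s ht.1 h hs.2 (by rwa [abs_sub_comm])

end

end Pool.Agent.Lib.MP_79abb3_an.W
end

section

/-!
Theorem W (MP_79abb3_an), block A3: limits of sequences of curves, values in `V`.
-/

set_option autoImplicit false
set_option linter.unusedSectionVars false

open MeasureTheory Set Filter Topology
open scoped InnerProductSpace

namespace Pool.Agent.Lib.MP_79abb3_an.W

section
variable {H V : Type} [NormedAddCommGroup H] [InnerProductSpace ℝ H] [CompleteSpace H]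
  [NormedAddCommGroup V] [InnerProductSpace ℝ V] [CompleteSpace V] {ι : V →L[ℝ] H} {a b M : ℝ}
  {e : ℕ → ℝ → V} {x : ℝ → H} {v : ℝ → V}

/-- The hypotheses on a sequence of curves: continuous with values in `V`, bounded in `L^∞(H) ∩ L²(V)`, convergent in
every coordinate for every time. -/
structure CvSeq (E : EBasis ι) (a b M : ℝ) (e : ℕ → ℝ → V) (x : ℝ → H) : Prop where
  ab : a ≤ b
  cont : ∀ j, ContinuousOn (e j) (Icc a b)
  bdH : ∀ j, ∀ t ∈ Icc a b, ‖ι (e j t)‖ ≤ M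
  bdV : ∀ j, ∫ t in a..b, ‖e j t‖ ^ 2 ≤ M
  lim : ∀ i, ∀ t ∈ Icc a b, Tendsto (fun j => ⟪E.b i, ι (e j t)⟫_ℝ) atTop (𝓝 ⟪E.b i, x t⟫_ℝ)

/-- **The limit has values in `V`.** Proof. By Fatou `∫⁻ liminf ‖e j t‖² ≤ M`, so the `liminf` is finite for a.e. `t`; for such `t`
`∑_{i∈s} lam_i ⟪b_i, x t⟫² ≤ liminf ‖e j t‖²` for finite `s` (`EBasis.norm_sq`), so `EBasis.mem` gives `v t` with `ι (v t) = x t` and
`‖v t‖² ≤ liminf ‖e j t‖²` (define `v t = 0` for the other `t`). Measurability: `v t = ∑ ⟪b_i, x t⟫ e_i` (`EBasis.inner_c`,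
`HilbertBasis.hasSum_repr`) is an a.e. limit along `atTop : Filter (Finset E.I)` (countably generated by `EBasis.countable`) of
functions which are measurable because `⟪b_i, x t⟫` is a limit of continuous functions on `[a, b]`
(`aestronglyMeasurable_of_tendsto_ae`). -/
theorem CvSeq.exists_v {E : EBasis ι} (h : IsTri ι) (hc : CvSeq E a b M e x) :
    ∃ v : ℝ → V, MemLp v 2 (volume.restrict (Icc a b)) ∧ (∀ᵐ t ∂(volume.restrict (Icc a b)), ι (v t) = x t) ∧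
      ∫ t in a..b, ‖v t‖ ^ 2 ≤ M := by
  have hab := hc.ab
  have hM0 : 0 ≤ M := (norm_nonneg _).trans (hc.bdH 0 a ⟨le_rfl, hab⟩)
  have := E.countable
  set μ : Measure ℝ := volume.restrict (Icc a b) with hμ
  set u : ℕ → ℝ → V := fun j => IccExtend hab ((Icc a b).domRestrict (e j)) with hu
  have huc : ∀ j, Continuous (u j) := fun j =>
    (continuousOn_iff_continuous_domRestrict.1 (hc.cont j)).Icc_extend'
  have hue : ∀ j, ∀ t ∈ Icc a b, u j t = e j t := fun j t ht => by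
    simp only [hu]
    rw [IccExtend_of_mem hab _ ht]
    rfl
  set f : ℕ → ℝ → ENNReal := fun j t => ENNReal.ofReal (‖u j t‖ ^ 2) with hf
  have hfm : ∀ j, Measurable (f j) := fun j => ((huc j).norm.pow 2).measurable.ennreal_ofReal
  set L : ℝ → ENNReal := fun t => liminf (fun j => f j t) atTop with hL
  have hLm : Measurable L := Measurable.liminf hfm
  have hfi : ∀ j, ∫⁻ t, f j t ∂μ ≤ ENNReal.ofReal M := by
    intro j
    have i1 : Integrable (fun t => ‖u j t‖ ^ 2) μ := ((huc j).norm.pow 2).integrableOn_Icc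
    simp only [hf]
    rw [← ofReal_integral_eq_lintegral_ofReal i1 (Eventually.of_forall fun t => sq_nonneg _)]
    refine ENNReal.ofReal_le_ofReal ?_
    have h1 : ∫ t, ‖u j t‖ ^ 2 ∂μ = ∫ t in a..b, ‖e j t‖ ^ 2 := by
      rw [intervalIntegral.integral_of_le hab, ← integral_Icc_eq_integral_Ioc]
      refine setIntegral_congr_fun measurableSet_Icc fun t ht => ?_
      simp only [hue j t ht]
    rw [h1]
    exact hc.bdV j
  have hLi : ∫⁻ t, L t ∂μ ≤ ENNReal.ofReal M := by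
    refine (lintegral_liminf_le hfm).trans ?_
    exact liminf_le_of_le (by isBoundedDefault) fun c hc' => by
      obtain ⟨n, hn⟩ := hc'.exists
      exact hn.trans (hfi n)
  have hLt : ∀ᵐ t ∂μ, L t < ⊤ := ae_lt_top hLm (hLi.trans_lt ENNReal.ofReal_lt_top).ne
  have hin : ∀ᵐ t ∂μ, t ∈ Icc a b := ae_restrict_mem measurableSet_Icc
  have hex : ∀ t, ∃ w : V, t ∈ Icc a b → L t < ⊤ → ι w = x t ∧ ‖w‖ ^ 2 ≤ (L t).toReal := by
    intro t
    by_cases ht : t ∈ Icc a b ∧ L t < ⊤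
    swap
    · exact ⟨0, fun h1 h2 => absurd ⟨h1, h2⟩ ht⟩
    obtain ⟨w, hw1, hw2⟩ := E.mem h (x := x t) (M := (L t).toReal) (by
      intro s
      rw [← ENNReal.ofReal_le_iff_le_toReal ht.2.ne]
      have h1 : Tendsto (fun j => ENNReal.ofReal (∑ i ∈ s, E.lam i * ⟪E.b i, ι (e j t)⟫_ℝ ^ 2)) atTop
          (𝓝 (ENNReal.ofReal (∑ i ∈ s, E.lam i * ⟪E.b i, x t⟫_ℝ ^ 2))) :=
        ENNReal.tendsto_ofReal (tendsto_finsetSum _ fun i _ => ((hc.lim i t ht.1).pow 2).const_mul _)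
      rw [← h1.liminf_eq]
      refine liminf_le_liminf (Eventually.of_forall fun j => ?_)
      simp only [hf]
      refine ENNReal.ofReal_le_ofReal ?_
      rw [hue j t ht.1]
      exact sum_le_hasSum s (fun i _ => mul_nonneg (E.pos i).le (sq_nonneg _)) (E.norm_sq h (e j t)))
    exact ⟨w, fun _ _ => ⟨hw1, hw2⟩⟩
  choose v hv using hex
  have hvx : ∀ᵐ t ∂μ, ι (v t) = x t := by
    filter_upwards [hLt, hin] with t h1 h2
    exact (hv t h2 h1).1
  have hvn : ∀ᵐ t ∂μ, ENNReal.ofReal (‖v t‖ ^ 2) ≤ L t := by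
    filter_upwards [hLt, hin] with t h1 h2
    exact ENNReal.ofReal_le_of_le_toReal (hv t h2 h1).2
  -- measurability
  have hcm : ∀ i, AEStronglyMeasurable (fun t => ⟪E.b i, x t⟫_ℝ) μ := by
    intro i
    refine aestronglyMeasurable_of_tendsto_ae atTop (f := fun j t => ⟪E.b i, ι (u j t)⟫_ℝ) (fun j => ?_) ?_
    · have h1 := huc j
      have h2 : Continuous (fun t => ⟪E.b i, ι (u j t)⟫_ℝ) := by fun_prop
      exact h2.aestronglyMeasurable
    · filter_upwards [hin] with t ht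
      refine (hc.lim i t ht).congr fun j => ?_
      rw [hue j t ht]
  have hvm : AEStronglyMeasurable v μ := by
    refine aestronglyMeasurable_of_tendsto_ae (atTop : Filter (Finset E.I))
      (f := fun s t => ∑ i ∈ s, (√(E.lam i) * ⟪E.b i, x t⟫_ℝ) • E.c h i) (fun s => ?_) ?_
    · refine Finset.aestronglyMeasurable_fun_sum s fun i _ => ?_
      exact ((hcm i).const_mul _).smul_const _
    · filter_upwards [hvx] with t ht
      have h1 := (E.c h).hasSum_repr (v t)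
      refine Tendsto.congr (fun s => ?_) h1
      refine Finset.sum_congr rfl fun i _ => ?_
      show (E.c h).repr (v t) i • (E.c h) i = _
      have h2 : (E.c h).repr (v t) i = √(E.lam i) * ⟪E.b i, x t⟫_ℝ := by
        rw [(E.c h).repr_apply_apply, E.inner_c, ht]
      rw [h2]
  have hlin : ∫⁻ t, ENNReal.ofReal (‖v t‖ ^ 2) ∂μ ≤ ENNReal.ofReal M := (lintegral_mono_ae hvn).trans hLi
  have hvi : Integrable (fun t => ‖v t‖ ^ 2) μ := by
    refine ⟨hvm.norm.pow 2, ?_⟩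
    rw [hasFiniteIntegral_iff_ofReal (Eventually.of_forall fun t => sq_nonneg _)]
    exact hlin.trans_lt ENNReal.ofReal_lt_top
  refine ⟨v, (memLp_two_iff_integrable_sq_norm hvm).2 hvi, hvx, ?_⟩
  rw [intervalIntegral.integral_of_le hab, ← integral_Icc_eq_integral_Ioc]
  show ∫ t, ‖v t‖ ^ 2 ∂μ ≤ M
  rw [integral_eq_lintegral_of_nonneg_ae (Eventually.of_forall fun t => sq_nonneg _) (hvm.norm.pow 2)]
  exact ENNReal.toReal_le_of_le_ofReal hM0 hlin

end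

end Pool.Agent.Lib.MP_79abb3_an.W
end

section

/-!
Theorem W (MP_79abb3_an), block A3: weak continuity of the limit.
-/

set_option autoImplicit false
set_option linter.unusedSectionVars false

open MeasureTheory Set Filter Topology
open scoped InnerProductSpace

namespace Pool.Agent.Lib.MP_79abb3_an.W

section
variable {H V : Type} [NormedAddCommGroup H] [InnerProductSpace ℝ H] [CompleteSpace H]
  [NormedAddCommGroup V] [InnerProductSpace ℝ V] [CompleteSpace V] {ι : V →L[ℝ] H} {ν a b M : ℝ}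
  {F : ℝ → V →L[ℝ] H} {g : ℝ → H}

/-- **Weak continuity of the limit.** Proof. For `k = ι p` by the uniform equicontinuity `equicont` (the increments of
`t ↦ ⟪ι (e j (max t (α j))), ι p⟫` are at most `ε` for `|t - s| ≤ δ`; let `j → ∞`); then for all `k` by density
(`IsTri.dense`) and boundedness of `x`. -/
theorem lim_weak (h : IsTri ι) {q : V → ℝ} (hq : IsQ ι q) (hν : 0 < ν) {γ β : ℝ → ℝ}
    (hγ : IntegrableOn (fun r => γ r ^ 2) (Ioc a b)) (hβ : IntegrableOn β (Ioc a b))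
    (hF : ∀ r ∈ Ioc a b, ‖F r‖ ≤ γ r) (hg : ∀ r ∈ Ioc a b, ‖g r‖ ≤ β r) {N : ℕ → H →L[ℝ] V →L[ℝ] H}
    (hN : ∀ j, NB ι q (N j)) {α : ℕ → ℝ} (hα : ∀ j, a ≤ α j ∧ α j ≤ b) {e : ℕ → ℝ → V}
    (he : ∀ j, RSol ι ν F g (N j) (α j) b (e j)) (hM : ∀ j, ∀ t ∈ Icc (α j) b, ‖ι (e j t)‖ ≤ M)
    (hM' : ∀ j, ∫ t in (α j)..b, ‖e j t‖ ^ 2 ≤ M) {x : ℝ → H} (hx : ∀ t ∈ Icc a b, ‖x t‖ ≤ M)
    (hl : ∀ t ∈ Icc a b, ∀ h : H,
      Tendsto (fun j => ⟪ι (e j (max t (α j))), h⟫_ℝ) atTop (𝓝 ⟪x t, h⟫_ℝ)) (k : H) :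
    ContinuousOn (fun t => ⟪x t, k⟫_ℝ) (Icc a b) := by
  have hmem : ∀ j, ∀ t ∈ Icc a b, max t (α j) ∈ Icc (α j) b := fun j t ht =>
    ⟨le_max_right _ _, max_le ht.2 (hα j).2⟩
  -- vectors of `V`
  have h1 : ∀ p : V, ∀ ε > 0, ∃ δ > 0, ∀ s ∈ Icc a b, ∀ t ∈ Icc a b, |t - s| ≤ δ →
      |⟪x t, ι p⟫_ℝ - ⟪x s, ι p⟫_ℝ| ≤ ε := by
    intro p ε hε
    obtain ⟨δ, hδ, h2⟩ := equicont (M := M) hq hν hγ hβ p hε
    refine ⟨δ, hδ, fun s hs t ht hst => ?_⟩
    have h3 := ((hl t ht (ι p)).sub (hl s hs (ι p))).abs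
    refine le_of_tendsto h3 (Eventually.of_forall fun j => ?_)
    exact h2 (hN j) (hα j).1 hF hg (he j) (hM j) (hM' j) _ (hmem j s hs) _ (hmem j t ht)
      ((abs_max_sub_max_le_abs t s (α j)).trans hst)
  rw [Metric.continuousOn_iff]
  intro s hs ε hε
  have hM0 : 0 ≤ M := (norm_nonneg _).trans (hx s hs)
  obtain ⟨y, ⟨p, rfl⟩, hy⟩ := Metric.mem_closure_iff.1 (h.dense k) (ε / (4 * (M + 1))) (by positivity)
  rw [dist_eq_norm] at hy
  obtain ⟨δ, hδ, h2⟩ := h1 p (ε / 4) (by positivity)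
  refine ⟨δ, hδ, fun t ht hts => ?_⟩
  rw [Real.dist_eq] at hts ⊢
  have h3 := h2 s hs t ht hts.le
  have h4 : ∀ r ∈ Icc a b, |⟪x r, k - ι p⟫_ℝ| ≤ ε / 4 := by
    intro r hr
    refine (abs_real_inner_le_norm _ _).trans ?_
    have h5 := hx r hr
    calc ‖x r‖ * ‖k - ι p‖ ≤ M * (ε / (4 * (M + 1))) :=
          mul_le_mul h5 hy.le (norm_nonneg _) hM0
      _ ≤ ε / 4 := by
        rw [← mul_div_assoc, div_le_div_iff₀ (by positivity) (by norm_num)]
        nlinarith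
  have h5 := h4 t ht
  have h6 := h4 s hs
  rw [inner_sub_right] at h5 h6
  have h7 := abs_le.1 h3
  have h8 := abs_le.1 h5
  have h9 := abs_le.1 h6
  rw [abs_lt]
  constructor <;> linarith [h7.1, h7.2, h8.1, h8.2, h9.1, h9.2]

end

end Pool.Agent.Lib.MP_79abb3_an.W
end

section

/-!
Theorem W (MP_79abb3_an), block A3: strong convergence.
-/

set_option autoImplicit false
set_option linter.unusedSectionVars false

open MeasureTheory Set Filter Topology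
open scoped InnerProductSpace

namespace Pool.Agent.Lib.MP_79abb3_an.W

section
variable {H V : Type} [NormedAddCommGroup H] [InnerProductSpace ℝ H] [CompleteSpace H]
  [NormedAddCommGroup V] [InnerProductSpace ℝ V] [CompleteSpace V] {ι : V →L[ℝ] H} {a b M : ℝ}
  {e : ℕ → ℝ → V} {x : ℝ → H} {v : ℝ → V}

/-- `q` along the difference, as a measurable majorant: for every `η > 0` the integral of
`η ‖w‖² + K ‖ι w‖²` is small. **Strong convergence in `L²(H)`.** Proof. `EBasis.ehrling` for `w = e j t - v t`: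
`‖ι w‖² ≤ ∑_{lam_i ≤ R} ⟪b_i, ι w⟫² + R⁻¹ ‖w‖²`; the finite sum tends to `0` for a.e. `t` and is bounded
(`tendsto_integral_of_dominated_convergence`), `∫ ‖w‖² ≤ 2 (∫ ‖e j‖² + ∫ ‖v‖²) ≤ 4 M`. -/
theorem CvSeq.strong {E : EBasis ι} (h : IsTri ι) (hc : CvSeq E a b M e x)
    (hv : MemLp v 2 (volume.restrict (Icc a b))) (hvx : ∀ᵐ t ∂(volume.restrict (Icc a b)), ι (v t) = x t)
    (hvM : ∫ t in a..b, ‖v t‖ ^ 2 ≤ M) :
    Tendsto (fun j => ∫ t in a..b, ‖ι (e j t - v t)‖ ^ 2) atTop (𝓝 0) := by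
  have hab := hc.ab
  have hM0 : 0 ≤ M := (norm_nonneg _).trans (hc.bdH 0 a ⟨le_rfl, hab⟩)
  have hIoc : Ioc a b ⊆ Icc a b := Ioc_subset_Icc_self
  have hvm : AEStronglyMeasurable v (volume.restrict (uIoc a b)) := by
    rw [uIoc_of_le hab]; exact hv.1.mono_set hIoc
  have hem : ∀ j, AEStronglyMeasurable (e j) (volume.restrict (uIoc a b)) := fun j => by
    rw [uIoc_of_le hab]
    exact ((hc.cont j).mono hIoc).aestronglyMeasurable measurableSet_Ioc
  have hwm : ∀ j, AEStronglyMeasurable (fun t => e j t - v t) (volume.restrict (uIoc a b)) :=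
    fun j => (hem j).sub hvm
  have hvi : IntervalIntegrable (fun t => ‖v t‖ ^ 2) volume a b := by
    rw [intervalIntegrable_iff_integrableOn_Ioc_of_le hab]
    have h1 : IntegrableOn (fun t => ‖v t‖ ^ 2) (Icc a b) :=
      (memLp_two_iff_integrable_sq_norm hv.1).1 hv
    exact h1.mono_set hIoc
  have hei : ∀ j, IntervalIntegrable (fun t => ‖e j t‖ ^ 2) volume a b := fun j =>
    ((hc.cont j).norm.pow 2).intervalIntegrable_of_Icc hab
  have hsq : ∀ x y : V, ‖x - y‖ ^ 2 ≤ 2 * ‖x‖ ^ 2 + 2 * ‖y‖ ^ 2 := fun x y => by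
    have h1 := norm_sub_le x y
    have h2 : ‖x - y‖ ^ 2 ≤ (‖x‖ + ‖y‖) ^ 2 := pow_le_pow_left₀ (norm_nonneg _) h1 2
    nlinarith [sq_nonneg (‖x‖ - ‖y‖)]
  have hwi : ∀ j, IntervalIntegrable (fun t => ‖e j t - v t‖ ^ 2) volume a b := fun j => by
    refine IntervalIntegrable.mono_fun' (((hei j).const_mul 2).add (hvi.const_mul 2))
      ((hwm j).norm.pow 2) (Eventually.of_forall fun t => ?_)
    simp only [norm_pow, norm_norm]
    exact hsq _ _
  have hwM : ∀ j, ∫ t in a..b, ‖e j t - v t‖ ^ 2 ≤ 4 * M := fun j => by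
    have h1 : ∫ t in a..b, ‖e j t - v t‖ ^ 2 ≤ ∫ t in a..b, (2 * ‖e j t‖ ^ 2 + 2 * ‖v t‖ ^ 2) :=
      intervalIntegral.integral_mono_on hab (hwi j) (((hei j).const_mul 2).add (hvi.const_mul 2))
        fun t _ => hsq _ _
    rw [intervalIntegral.integral_add ((hei j).const_mul 2) (hvi.const_mul 2),
      intervalIntegral.integral_const_mul, intervalIntegral.integral_const_mul] at h1
    have h2 := hc.bdV j
    linarith
  have hιm : ∀ j, AEStronglyMeasurable (fun t => ι (e j t - v t)) (volume.restrict (uIoc a b)) :=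
    fun j => ι.continuous.comp_aestronglyMeasurable (hwm j)
  have hιi : ∀ j, IntervalIntegrable (fun t => ‖ι (e j t - v t)‖ ^ 2) volume a b := fun j => by
    refine IntervalIntegrable.mono_fun' ((hwi j).const_mul (‖ι‖ ^ 2))
      ((hιm j).norm.pow 2) (Eventually.of_forall fun t => ?_)
    simp only [norm_pow, norm_norm]
    rw [← mul_pow]
    exact pow_le_pow_left₀ (norm_nonneg _) (ι.le_opNorm _) 2
  have hbn : ∀ i (y : H), ⟪E.b i, y⟫_ℝ ^ 2 ≤ ‖y‖ ^ 2 := fun i y => by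
    have h1 : |⟪E.b i, y⟫_ℝ| ≤ ‖E.b i‖ * ‖y‖ := abs_real_inner_le_norm _ _
    rw [E.b.orthonormal.1 i, one_mul] at h1
    calc ⟪E.b i, y⟫_ℝ ^ 2 = |⟪E.b i, y⟫_ℝ| ^ 2 := (sq_abs _).symm
      _ ≤ ‖y‖ ^ 2 := pow_le_pow_left₀ (abs_nonneg _) h1 2
  have hcm : ∀ j i, AEStronglyMeasurable (fun t => ⟪E.b i, ι (e j t - v t)⟫_ℝ ^ 2)
      (volume.restrict (uIoc a b)) := fun j i => by
    have hcont : Continuous (fun w : V => ⟪E.b i, ι w⟫_ℝ ^ 2) := by fun_prop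
    exact hcont.comp_aestronglyMeasurable (hwm j)
  have hci : ∀ j i, IntervalIntegrable (fun t => ⟪E.b i, ι (e j t - v t)⟫_ℝ ^ 2) volume a b :=
    fun j i => by
      refine IntervalIntegrable.mono_fun' (hιi j) (hcm j i) (Eventually.of_forall fun t => ?_)
      simp only []
      rw [Real.norm_of_nonneg (sq_nonneg _)]
      exact hbn i _
  -- every coordinate
  have hco : ∀ i, Tendsto (fun j => ∫ t in a..b, ⟪E.b i, ι (e j t - v t)⟫_ℝ ^ 2) atTop (𝓝 0) := by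
    intro i
    have h0 : (0 : ℝ) = ∫ t in a..b, (0 : ℝ) := by simp
    rw [h0]
    refine intervalIntegral.tendsto_integral_filter_of_dominated_convergence
      (fun t => 2 * M ^ 2 + 2 * (‖ι‖ ^ 2 * ‖v t‖ ^ 2)) (Eventually.of_forall fun j => hcm j i)
      (Eventually.of_forall fun j => Eventually.of_forall fun t ht => ?_)
      (intervalIntegrable_const.add ((hvi.const_mul _).const_mul 2)) ?_
    · rw [uIoc_of_le hab] at ht
      rw [Real.norm_of_nonneg (sq_nonneg _)]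
      refine (hbn i _).trans ?_
      have h1 : ‖ι (e j t - v t)‖ ≤ M + ‖ι‖ * ‖v t‖ := by
        rw [map_sub]
        exact (norm_sub_le _ _).trans (add_le_add (hc.bdH j t (hIoc ht)) (ι.le_opNorm _))
      have h2 := pow_le_pow_left₀ (norm_nonneg _) h1 2
      nlinarith [sq_nonneg (M - ‖ι‖ * ‖v t‖)]
    · have h1 : ∀ᵐ t ∂(volume.restrict (uIoc a b)), ι (v t) = x t := by
        rw [uIoc_of_le hab]
        exact ae_restrict_of_ae_restrict_of_subset hIoc hvx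
      rw [ae_restrict_iff' measurableSet_uIoc] at h1
      filter_upwards [h1] with t h2 ht
      have h3 := h2 ht
      rw [uIoc_of_le hab] at ht
      have h4 := ((hc.lim i t (hIoc ht)).sub_const ⟪E.b i, x t⟫_ℝ).pow 2
      rw [sub_self, zero_pow two_ne_zero] at h4
      refine h4.congr fun j => ?_
      rw [map_sub, inner_sub_right, h3]
  refine tendsto_order.2 ⟨fun y hy => Eventually.of_forall fun j => lt_of_lt_of_le hy
    (intervalIntegral.integral_nonneg hab fun t _ => sq_nonneg _), fun ε hε => ?_⟩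
  obtain ⟨R, hR⟩ : ∃ R : ℝ, R = 8 * M / ε + 1 := ⟨_, rfl⟩
  have hR0 : 0 < R := by rw [hR]; positivity
  have hRε : R⁻¹ * (4 * M) < ε / 2 := by
    rw [← div_eq_inv_mul, div_lt_iff₀ hR0, hR]
    have h1 : ε / 2 * (8 * M / ε + 1) = 4 * M + ε / 2 := by
      field_simp
      ring
    rw [h1]
    linarith
  have hsum : Tendsto (fun j => ∑ i ∈ (E.fin R).toFinset, ∫ t in a..b, ⟪E.b i, ι (e j t - v t)⟫_ℝ ^ 2)
      atTop (𝓝 0) := by
    have h1 := tendsto_finsetSum (E.fin R).toFinset fun i _ => hco i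
    simpa using h1
  filter_upwards [(tendsto_order.1 hsum).2 (ε / 2) (by positivity)] with j hj
  have hsi : IntervalIntegrable (fun t => ∑ i ∈ (E.fin R).toFinset, ⟪E.b i, ι (e j t - v t)⟫_ℝ ^ 2)
      volume a b := by
    have h3 := IntervalIntegrable.sum (E.fin R).toFinset fun i _ => hci j i
    have h4 : (∑ i ∈ (E.fin R).toFinset, fun t => ⟪E.b i, ι (e j t - v t)⟫_ℝ ^ 2) =
        fun t => ∑ i ∈ (E.fin R).toFinset, ⟪E.b i, ι (e j t - v t)⟫_ℝ ^ 2 := by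
      funext t
      rw [Finset.sum_apply]
    rw [h4] at h3
    exact h3
  have h1 : ∫ t in a..b, ‖ι (e j t - v t)‖ ^ 2 ≤
      ∫ t in a..b, (∑ i ∈ (E.fin R).toFinset, ⟪E.b i, ι (e j t - v t)⟫_ℝ ^ 2 +
        R⁻¹ * ‖e j t - v t‖ ^ 2) :=
    intervalIntegral.integral_mono_on hab (hιi j)
      (hsi.add ((hwi j).const_mul _))
      fun t _ => E.ehrling h hR0 _
  rw [intervalIntegral.integral_add hsi
    ((hwi j).const_mul _), intervalIntegral.integral_const_mul,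
    intervalIntegral.integral_finsetSum fun i _ => hci j i] at h1
  have h2 : R⁻¹ * ∫ t in a..b, ‖e j t - v t‖ ^ 2 ≤ R⁻¹ * (4 * M) :=
    mul_le_mul_of_nonneg_left (hwM j) (inv_nonneg.2 hR0.le)
  linarith

end

end Pool.Agent.Lib.MP_79abb3_an.W
end

section

/-!
Theorem W (MP_79abb3_an), block A3: linear terms.
-/

set_option autoImplicit false
set_option linter.unusedSectionVars false

open MeasureTheory Set Filter Topology
open scoped InnerProductSpace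

namespace Pool.Agent.Lib.MP_79abb3_an.W

section
variable {H V : Type} [NormedAddCommGroup H] [InnerProductSpace ℝ H] [CompleteSpace H]
  [NormedAddCommGroup V] [InnerProductSpace ℝ V] [CompleteSpace V] {ι : V →L[ℝ] H} {a b M : ℝ}
  {e : ℕ → ℝ → V} {x : ℝ → H} {v : ℝ → V}

/-- **Linear terms.** Proof. For `q r = ρ r • e_i`: `⟪e j r, e_i⟫ = lam_i ⟪b_i, ι (e j r)⟫`, dominated convergence. In general
approximate `q` uniformly on `[a, b]` by finite sections in the basis `E.c h` (`cpt_approx` for the compact set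
`q '' Icc a b`); the error is at most `ε ∫ (‖e j‖ + ‖v‖) ≤ ε (2 (b - a) + 2 M)` (`y ≤ 1 + y²`). -/
theorem CvSeq.lin {E : EBasis ι} (h : IsTri ι) (hc : CvSeq E a b M e x)
    (hv : MemLp v 2 (volume.restrict (Icc a b))) (hvx : ∀ᵐ t ∂(volume.restrict (Icc a b)), ι (v t) = x t)
    (hvM : ∫ t in a..b, ‖v t‖ ^ 2 ≤ M) {q : ℝ → V} (hq : ContinuousOn q (Icc a b)) {s t : ℝ}
    (hs : a ≤ s) (hst : s ≤ t) (ht : t ≤ b) :
    Tendsto (fun j => ∫ r in s..t, ⟪e j r, q r⟫_ℝ) atTop (𝓝 (∫ r in s..t, ⟪v r, q r⟫_ℝ)) := by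
  have hab := hc.ab
  have hM0 : 0 ≤ M := (norm_nonneg _).trans (hc.bdH 0 a ⟨le_rfl, hab⟩)
  have hIoc : Ioc a b ⊆ Icc a b := Ioc_subset_Icc_self
  have hsub : uIcc s t ⊆ uIcc a b := by
    rw [uIcc_of_le hst, uIcc_of_le hab]; exact Icc_subset_Icc hs ht
  have hst' : Ioc s t ⊆ Icc a b := (Ioc_subset_Ioc hs ht).trans hIoc
  have hvm : AEStronglyMeasurable v (volume.restrict (uIoc a b)) := by
    rw [uIoc_of_le hab]; exact hv.1.mono_set hIoc
  have hem : ∀ j, AEStronglyMeasurable (e j) (volume.restrict (uIoc a b)) := fun j => by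
    rw [uIoc_of_le hab]
    exact ((hc.cont j).mono hIoc).aestronglyMeasurable measurableSet_Ioc
  have hwm : ∀ j, AEStronglyMeasurable (fun t => e j t - v t) (volume.restrict (uIoc a b)) :=
    fun j => (hem j).sub hvm
  have hvi : IntervalIntegrable (fun t => ‖v t‖ ^ 2) volume a b := by
    rw [intervalIntegrable_iff_integrableOn_Ioc_of_le hab]
    have h1 : IntegrableOn (fun t => ‖v t‖ ^ 2) (Icc a b) :=
      (memLp_two_iff_integrable_sq_norm hv.1).1 hv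
    exact h1.mono_set hIoc
  have hei : ∀ j, IntervalIntegrable (fun t => ‖e j t‖ ^ 2) volume a b := fun j =>
    ((hc.cont j).norm.pow 2).intervalIntegrable_of_Icc hab
  have hsq : ∀ x y : V, ‖x - y‖ ^ 2 ≤ 2 * ‖x‖ ^ 2 + 2 * ‖y‖ ^ 2 := fun x y => by
    have h1 := norm_sub_le x y
    have h2 : ‖x - y‖ ^ 2 ≤ (‖x‖ + ‖y‖) ^ 2 := pow_le_pow_left₀ (norm_nonneg _) h1 2
    nlinarith [sq_nonneg (‖x‖ - ‖y‖)]
  have hwi : ∀ j, IntervalIntegrable (fun t => ‖e j t - v t‖ ^ 2) volume a b := fun j => by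
    refine IntervalIntegrable.mono_fun' (((hei j).const_mul 2).add (hvi.const_mul 2))
      ((hwm j).norm.pow 2) (Eventually.of_forall fun t => ?_)
    simp only [norm_pow, norm_norm]
    exact hsq _ _
  have hwM : ∀ j, ∫ t in a..b, ‖e j t - v t‖ ^ 2 ≤ 4 * M := fun j => by
    have h1 : ∫ t in a..b, ‖e j t - v t‖ ^ 2 ≤ ∫ t in a..b, (2 * ‖e j t‖ ^ 2 + 2 * ‖v t‖ ^ 2) :=
      intervalIntegral.integral_mono_on hab (hwi j) (((hei j).const_mul 2).add (hvi.const_mul 2))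
        fun t _ => hsq _ _
    rw [intervalIntegral.integral_add ((hei j).const_mul 2) (hvi.const_mul 2),
      intervalIntegral.integral_const_mul, intervalIntegral.integral_const_mul] at h1
    have h2 := hc.bdV j
    linarith
  -- restriction to `[s, t]`
  have hsubo : uIoc s t ⊆ uIoc a b := by
    rw [uIoc_of_le hst, uIoc_of_le hab]; exact Ioc_subset_Ioc hs ht
  have hvm' : AEStronglyMeasurable v (volume.restrict (uIoc s t)) := hvm.mono_set hsubo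
  have hem' : ∀ j, AEStronglyMeasurable (e j) (volume.restrict (uIoc s t)) := fun j =>
    (hem j).mono_set hsubo
  have hwm' : ∀ j, AEStronglyMeasurable (fun t => e j t - v t) (volume.restrict (uIoc s t)) :=
    fun j => (hwm j).mono_set hsubo
  have hvi' := hvi.mono_set hsub
  have hei' := fun j => (hei j).mono_set hsub
  have hwi' := fun j => (hwi j).mono_set hsub
  have hwM' : ∀ j, ∫ r in s..t, ‖e j r - v r‖ ^ 2 ≤ 4 * M := fun j =>
    (intervalIntegral.integral_mono_interval hs hst ht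
      (Eventually.of_forall fun r => sq_nonneg _) (hwi j)).trans (hwM j)
  obtain ⟨Kq, hKq⟩ := isCompact_Icc.exists_bound_of_continuousOn hq
  have hKq0 : 0 ≤ Kq := (norm_nonneg _).trans (hKq a ⟨le_rfl, hab⟩)
  have hqm : AEStronglyMeasurable q (volume.restrict (uIoc s t)) := by
    rw [uIoc_of_le hst]
    exact (hq.mono hst').aestronglyMeasurable measurableSet_Ioc
  have hn2 : ∀ y : ℝ, y ≤ 1 + y ^ 2 := fun y => by nlinarith [sq_nonneg (y - 1), sq_nonneg y]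
  have hin : ∀ y : ℝ → V, AEStronglyMeasurable y (volume.restrict (uIoc s t)) →
      IntervalIntegrable (fun r => ‖y r‖ ^ 2) volume s t →
      IntervalIntegrable (fun r => ⟪y r, q r⟫_ℝ) volume s t := by
    intro y hy1 hy2
    refine IntervalIntegrable.mono_fun'
      (((intervalIntegrable_const (c := (1 : ℝ))).add hy2).const_mul Kq) (hy1.inner hqm) ?_
    refine (ae_restrict_iff' measurableSet_uIoc).2 (Eventually.of_forall fun r hr => ?_)
    rw [uIoc_of_le hst] at hr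
    refine (norm_inner_le_norm _ _).trans ?_
    rw [mul_comm]
    exact mul_le_mul (hKq r (hst' hr)) (hn2 _) (norm_nonneg _) hKq0
  have hdiff : ∀ j, ∫ r in s..t, ⟪e j r, q r⟫_ℝ =
      (∫ r in s..t, ⟪e j r - v r, q r⟫_ℝ) + ∫ r in s..t, ⟪v r, q r⟫_ℝ := fun j => by
    rw [← intervalIntegral.integral_add (hin _ (hwm' j) (hwi' j)) (hin _ hvm' hvi')]
    refine intervalIntegral.integral_congr fun r _ => ?_
    rw [inner_sub_left, sub_add_cancel]
  suffices hmain : Tendsto (fun j => ∫ r in s..t, ⟪e j r - v r, q r⟫_ℝ) atTop (𝓝 0) by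
    have h1 := hmain.add_const (∫ r in s..t, ⟪v r, q r⟫_ℝ)
    rw [zero_add] at h1
    exact h1.congr fun j => (hdiff j).symm
  -- coordinates
  have hcn : ∀ i, ‖E.c h i‖ = 1 := fun i => (E.c h).orthonormal.1 i
  have hcm : ∀ j i, AEStronglyMeasurable (fun r => ⟪E.c h i, q r⟫_ℝ * ⟪E.c h i, e j r - v r⟫_ℝ)
      (volume.restrict (uIoc s t)) := fun j i =>
    (aestronglyMeasurable_const.inner hqm).mul (aestronglyMeasurable_const.inner (hwm' j))
  have hcq : ∀ i, ∀ r ∈ Ioc s t, |⟪E.c h i, q r⟫_ℝ| ≤ Kq := fun i r hr => by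
    have h1 := abs_real_inner_le_norm (E.c h i) (q r)
    rw [hcn, one_mul] at h1
    exact h1.trans (hKq r (hst' hr))
  have hco : ∀ i, Tendsto (fun j => ∫ r in s..t, ⟪E.c h i, q r⟫_ℝ * ⟪E.c h i, e j r - v r⟫_ℝ)
      atTop (𝓝 0) := by
    intro i
    have h0 : (0 : ℝ) = ∫ r in s..t, (0 : ℝ) := by simp
    rw [h0]
    refine intervalIntegral.tendsto_integral_filter_of_dominated_convergence
      (fun r => Kq * (√(E.lam i) * (M + ‖ι‖ * (1 + ‖v r‖ ^ 2))))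
      (Eventually.of_forall fun j => hcm j i)
      (Eventually.of_forall fun j => Eventually.of_forall fun r hr => ?_)
      (((intervalIntegrable_const.add
        ((intervalIntegrable_const.add hvi').const_mul _)).const_mul _).const_mul _) ?_
    · rw [uIoc_of_le hst] at hr
      rw [norm_mul, Real.norm_eq_abs, Real.norm_eq_abs]
      refine mul_le_mul (hcq i r hr) ?_ (abs_nonneg _) hKq0
      rw [E.inner_c, abs_mul, abs_of_nonneg (Real.sqrt_nonneg _)]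
      refine mul_le_mul_of_nonneg_left ?_ (Real.sqrt_nonneg _)
      have h1 : |⟪E.b i, ι (e j r - v r)⟫_ℝ| ≤ ‖E.b i‖ * ‖ι (e j r - v r)‖ :=
        abs_real_inner_le_norm _ _
      rw [E.b.orthonormal.1 i, one_mul] at h1
      refine h1.trans ?_
      rw [map_sub]
      refine (norm_sub_le _ _).trans (add_le_add (hc.bdH j r (hst' hr)) ?_)
      exact (ι.le_opNorm _).trans (mul_le_mul_of_nonneg_left (hn2 _) (norm_nonneg _))
    · have h1 : ∀ᵐ r ∂(volume.restrict (uIoc s t)), ι (v r) = x r := by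
        rw [uIoc_of_le hst]
        exact ae_restrict_of_ae_restrict_of_subset hst' hvx
      rw [ae_restrict_iff' measurableSet_uIoc] at h1
      filter_upwards [h1] with r h2 hr
      have h3 := h2 hr
      rw [uIoc_of_le hst] at hr
      have h4 := ((((hc.lim i r (hst' hr)).sub_const ⟪E.b i, x r⟫_ℝ).const_mul
        (√(E.lam i))).const_mul ⟪E.c h i, q r⟫_ℝ)
      rw [sub_self, mul_zero, mul_zero] at h4
      refine h4.congr fun j => ?_
      rw [E.inner_c h i (e j r - v r), map_sub, inner_sub_right (E.b i), h3]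
  have hci : ∀ j i, IntervalIntegrable (fun r => ⟪E.c h i, q r⟫_ℝ * ⟪E.c h i, e j r - v r⟫_ℝ)
      volume s t := fun j i => by
    refine IntervalIntegrable.mono_fun'
      (((intervalIntegrable_const (c := (1 : ℝ))).add (hwi' j)).const_mul Kq) (hcm j i) ?_
    refine (ae_restrict_iff' measurableSet_uIoc).2 (Eventually.of_forall fun r hr => ?_)
    rw [uIoc_of_le hst] at hr
    simp only []
    rw [norm_mul, Real.norm_eq_abs, Real.norm_eq_abs]
    refine mul_le_mul (hcq i r hr) ?_ (abs_nonneg _) hKq0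
    have h1 := abs_real_inner_le_norm (E.c h i) (e j r - v r)
    rw [hcn, one_mul] at h1
    exact h1.trans (hn2 _)
  rw [Metric.tendsto_atTop]
  intro ε hε
  have hba : 0 ≤ b - a := sub_nonneg.2 hab
  obtain ⟨δ, hδ⟩ : ∃ δ : ℝ, δ = ε / (2 * (b - a + 4 * M + 1)) := ⟨_, rfl⟩
  have hδ0 : 0 < δ := by rw [hδ]; positivity
  have hδε : δ * (b - a + 4 * M) < ε / 2 := by
    have h1 : δ * (b - a + 4 * M + 1) = ε / 2 := by rw [hδ]; field_simp
    linarith
  obtain ⟨F, hF⟩ := cpt_approx (E.c h) (isCompact_Icc.image_of_continuousOn hq) hδ0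
  have hsum : Tendsto (fun j => ∑ i ∈ F, ∫ r in s..t, ⟪E.c h i, q r⟫_ℝ * ⟪E.c h i, e j r - v r⟫_ℝ)
      atTop (𝓝 0) := by
    have h1 := tendsto_finsetSum F fun i _ => hco i
    simpa using h1
  obtain ⟨J, hJ⟩ := (Metric.tendsto_atTop.1 hsum) (ε / 2) (by positivity)
  refine ⟨J, fun j hj => ?_⟩
  have h1 := hJ j hj
  rw [Real.dist_eq, sub_zero] at h1 ⊢
  have hsi : IntervalIntegrable (fun r => ∑ i ∈ F, ⟪E.c h i, q r⟫_ℝ * ⟪E.c h i, e j r - v r⟫_ℝ)
      volume s t := by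
    have h3 := IntervalIntegrable.sum F fun i _ => hci j i
    have h4 : (∑ i ∈ F, fun r => ⟪E.c h i, q r⟫_ℝ * ⟪E.c h i, e j r - v r⟫_ℝ) =
        fun r => ∑ i ∈ F, ⟪E.c h i, q r⟫_ℝ * ⟪E.c h i, e j r - v r⟫_ℝ := by
      funext r
      rw [Finset.sum_apply]
    rw [h4] at h3
    exact h3
  have h2 : ‖∫ r in s..t, (⟪e j r - v r, q r⟫_ℝ -
      ∑ i ∈ F, ⟪E.c h i, q r⟫_ℝ * ⟪E.c h i, e j r - v r⟫_ℝ)‖ ≤
      ∫ r in s..t, δ * (1 + ‖e j r - v r‖ ^ 2) := by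
    refine intervalIntegral.norm_integral_le_of_norm_le hst ?_
      (((intervalIntegrable_const (c := (1 : ℝ))).add (hwi' j)).const_mul δ)
    refine Eventually.of_forall fun r hr => ?_
    have h3 : ⟪e j r - v r, q r⟫_ℝ - ∑ i ∈ F, ⟪E.c h i, q r⟫_ℝ * ⟪E.c h i, e j r - v r⟫_ℝ =
        ⟪e j r - v r, q r - ∑ i ∈ F, ⟪E.c h i, q r⟫_ℝ • E.c h i⟫_ℝ := by
      rw [inner_sub_right, inner_sum]
      congr 1
      refine Finset.sum_congr rfl fun i _ => ?_
      rw [real_inner_smul_right, real_inner_comm (E.c h i)]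
    rw [h3]
    refine (norm_inner_le_norm _ _).trans ?_
    rw [mul_comm]
    exact mul_le_mul (hF _ ⟨r, hst' hr, rfl⟩) (hn2 _) (norm_nonneg _) hδ0.le
  rw [intervalIntegral.integral_sub (hin _ (hwm' j) (hwi' j)) hsi,
    intervalIntegral.integral_finsetSum fun i _ => hci j i, intervalIntegral.integral_const_mul,
    intervalIntegral.integral_add intervalIntegrable_const (hwi' j),
    intervalIntegral.integral_const, smul_eq_mul, mul_one, Real.norm_eq_abs] at h2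
  have h4 : δ * (t - s + ∫ r in s..t, ‖e j r - v r‖ ^ 2) ≤ δ * (b - a + 4 * M) :=
    mul_le_mul_of_nonneg_left (add_le_add (by linarith) (hwM' j)) hδ0.le
  have h5 := abs_add_le ((∫ r in s..t, ⟪e j r - v r, q r⟫_ℝ) -
    ∑ i ∈ F, ∫ r in s..t, ⟪E.c h i, q r⟫_ℝ * ⟪E.c h i, e j r - v r⟫_ℝ)
    (∑ i ∈ F, ∫ r in s..t, ⟪E.c h i, q r⟫_ℝ * ⟪E.c h i, e j r - v r⟫_ℝ)
  rw [sub_add_cancel] at h5
  linarith

end

end Pool.Agent.Lib.MP_79abb3_an.W
end

section

/-!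
Theorem W (MP_79abb3_an), block A3: the subsequence.
-/

set_option autoImplicit false
set_option linter.unusedSectionVars false

open MeasureTheory Set Filter Topology
open scoped InnerProductSpace

namespace Pool.Agent.Lib.MP_79abb3_an.W

section
variable {H V : Type} [NormedAddCommGroup H] [InnerProductSpace ℝ H] [CompleteSpace H]
  [NormedAddCommGroup V] [InnerProductSpace ℝ V] [CompleteSpace V] {ι : V →L[ℝ] H} {ν a b M : ℝ}
  {F : ℝ → V →L[ℝ] H} {g : ℝ → H}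

/-- **The subsequence and the weak limit**, for solutions on `[α_j, b]`, `α_j → a`. Proof. Let `y j i t = ⟪b_i, ι (e j (max t (α j)))⟫`
on `[a, b]`: bounded by `M`, equicontinuous by `equicont` with `p = E.e i`, `EBasis.he` (`t ↦ max t α` is a contraction).
`diag_subseq` (with `EBasis.countable`), then `weak_of_coord` for every `t`. -/
theorem lim_subseq (E : EBasis ι) {q : V → ℝ} (hq : IsQ ι q) (hν : 0 < ν) {γ β : ℝ → ℝ}
    (hγ : IntegrableOn (fun r => γ r ^ 2) (Ioc a b)) (hβ : IntegrableOn β (Ioc a b))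
    (hF : ∀ r ∈ Ioc a b, ‖F r‖ ≤ γ r) (hg : ∀ r ∈ Ioc a b, ‖g r‖ ≤ β r) {N : ℕ → H →L[ℝ] V →L[ℝ] H}
    (hN : ∀ j, NB ι q (N j)) {α : ℕ → ℝ} (hα : ∀ j, a ≤ α j ∧ α j ≤ b) {e : ℕ → ℝ → V}
    (he : ∀ j, RSol ι ν F g (N j) (α j) b (e j)) (hM : ∀ j, ∀ t ∈ Icc (α j) b, ‖ι (e j t)‖ ≤ M)
    (hM' : ∀ j, ∫ t in (α j)..b, ‖e j t‖ ^ 2 ≤ M) :
    ∃ (φ : ℕ → ℕ) (x : ℝ → H), StrictMono φ ∧ (∀ t ∈ Icc a b, ‖x t‖ ≤ M) ∧
      ∀ t ∈ Icc a b, ∀ h : H, Tendsto (fun j => ⟪ι (e (φ j) (max t (α (φ j)))), h⟫_ℝ) atTop (𝓝 ⟪x t, h⟫_ℝ) := by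
  classical
  have hcnt : Countable E.I := E.countable
  have hmem : ∀ j, ∀ t ∈ Icc a b, max t (α j) ∈ Icc (α j) b := fun j t ht =>
    ⟨le_max_right _ _, max_le ht.2 (hα j).2⟩
  have hbd : ∀ j, ∀ t ∈ Icc a b, ‖ι (e j (max t (α j)))‖ ≤ M := fun j t ht => hM j _ (hmem j t ht)
  obtain ⟨φ, hφ, hφl⟩ := diag_subseq (I := E.I) (a := a) (b := b)
    (y := fun j i t => ⟪E.b i, ι (e j (max t (α j)))⟫_ℝ) (M := fun _ => M) (fun j i t ht => by
      refine (abs_real_inner_le_norm _ _).trans ?_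
      rw [E.b.orthonormal.1 i, one_mul]
      exact hbd j t ht) (fun i ε hε => by
      obtain ⟨δ, hδ, h1⟩ := equicont (M := M) hq hν hγ hβ (E.e i) hε
      refine ⟨δ, hδ, fun j s hs t ht hst => ?_⟩
      have h2 := h1 (hN j) (hα j).1 hF hg (he j) (hM j) (hM' j) _ (hmem j s hs) _ (hmem j t ht)
        ((abs_max_sub_max_le_abs t s (α j)).trans hst)
      rw [E.he] at h2
      simpa only [real_inner_comm] using h2)
  have hx : ∀ t : ℝ, ∃ z : H, t ∈ Icc a b → ‖z‖ ≤ M ∧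
      ∀ h : H, Tendsto (fun j => ⟪ι (e (φ j) (max t (α (φ j)))), h⟫_ℝ) atTop (𝓝 ⟪z, h⟫_ℝ) := by
    intro t
    by_cases ht : t ∈ Icc a b
    · obtain ⟨z, hz1, hz2⟩ := weak_of_coord E.b (x := fun j => ι (e (φ j) (max t (α (φ j)))))
        (M := M) (fun j => hbd (φ j) t ht) (fun i => hφl i t ht)
      exact ⟨z, fun _ => ⟨hz1, hz2⟩⟩
    · exact ⟨0, fun h => absurd h ht⟩
  choose x hx using hx
  exact ⟨φ, x, hφ, fun t ht => (hx t ht).1, fun t ht => (hx t ht).2⟩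

end

end Pool.Agent.Lib.MP_79abb3_an.W
end

section

/-!
Theorem W (MP_79abb3_an), block A3: the limit equation.
-/

set_option autoImplicit false
set_option linter.unusedSectionVars false

open MeasureTheory Set Filter Topology
open scoped InnerProductSpace

namespace Pool.Agent.Lib.MP_79abb3_an.W

section
variable {H V : Type} [NormedAddCommGroup H] [InnerProductSpace ℝ H] [CompleteSpace H]
  [NormedAddCommGroup V] [InnerProductSpace ℝ V] [CompleteSpace V] {ι : V →L[ℝ] H} {ν a b M : ℝ}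
  {F : ℝ → V →L[ℝ] H} {g : ℝ → H} {v : ℝ → V}

/-- integrability of `⟪v, w⟫` -/
theorem a3_int (hv : MemLp v 2 (volume.restrict (Icc a b))) {w : ℝ → V}
    (hw : ContinuousOn w (Icc a b)) {s t : ℝ} (hs : a ≤ s) (hst : s ≤ t) (ht : t ≤ b) :
    IntervalIntegrable (fun r => ⟪v r, w r⟫_ℝ) volume s t := by
  obtain ⟨C, hC⟩ := isCompact_Icc.exists_bound_of_continuousOn hw
  have h1 : Integrable v (volume.restrict (Icc a b)) := hv.integrable (by norm_num)
  have h2 : Integrable (fun r => ⟪v r, w r⟫_ℝ) (volume.restrict (Icc a b)) := by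
    refine Integrable.mono' (h1.norm.mul_const C)
      (h1.aestronglyMeasurable.inner (hw.aestronglyMeasurable measurableSet_Icc)) ?_
    filter_upwards [ae_restrict_mem measurableSet_Icc] with r hr
    refine (norm_inner_le_norm _ _).trans ?_
    exact mul_le_mul_of_nonneg_left (hC r hr) (norm_nonneg _)
  rw [intervalIntegrable_iff_integrableOn_Icc_of_le hst]
  exact IntegrableOn.mono_set h2 (Icc_subset_Icc hs ht)

/-- **The limit equation** for a convergent sequence of solutions. Proof. `CvSeq.exists_v`, `CvSeq.strong`; the tested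
identity for `e j` passes to the limit: left side by weak convergence of coordinates, hence (`CvSeq.lin` is not needed) of
`⟪ι (e j t), ι p⟫` (bounded sequence, convergent coordinates: `weak_of_coord` and uniqueness of limits); `ν ⟪e, p⟫` by `CvSeq.lin`
with `q = p`; `⟪F r (e r), ι p⟫ = ⟪e r, (F r)* (ι p)⟫` by `CvSeq.lin` with `q r = (F r)* (ι p)`; the nonlinear term by
`nl_lim1`, `nl_lim2` (`Rhs` unfolds to `g - F e - N (ι e) e`). -/
theorem cv_limit {E : EBasis ι} (h : IsTri ι) {q : V → ℝ} (hq : IsQ ι q)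
    (hF : ContinuousOn F (Icc a b)) (hg : ContinuousOn g (Icc a b)) {N : ℕ → H →L[ℝ] V →L[ℝ] H}
    (hN : ∀ j, NB ι q (N j)) {c : V → V → V → ℝ}
    (hc : ∀ u v p, Tendsto (fun j => ⟪N j (ι u) v, ι p⟫_ℝ) atTop (𝓝 (c u v p)))
    {e : ℕ → ℝ → V} (he : ∀ j, RSol ι ν F g (N j) a b (e j)) {x : ℝ → H} (hx : CvSeq E a b M e x) :
    ∃ v : ℝ → V, MemLp v 2 (volume.restrict (Icc a b)) ∧
      (∀ᵐ t ∂(volume.restrict (Icc a b)), ι (v t) = x t) ∧ ∫ t in a..b, ‖v t‖ ^ 2 ≤ M ∧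
      Tendsto (fun j => ∫ t in a..b, ‖ι (e j t - v t)‖ ^ 2) atTop (𝓝 0) ∧
      (∀ p : V, IntervalIntegrable (fun r => c (v r) (v r) p) volume a b) ∧
      ∀ (p : V) (s t : ℝ), a ≤ s → s ≤ t → t ≤ b → ⟪x t, ι p⟫_ℝ - ⟪x s, ι p⟫_ℝ =
        ∫ r in s..t, (-(ν * ⟪v r, p⟫_ℝ) + ⟪g r - F r (v r), ι p⟫_ℝ - c (v r) (v r) p) := by
  obtain ⟨v, hv, hvx, hvM⟩ := hx.exists_v h
  have hstr := hx.strong h hv hvx hvM
  refine ⟨v, hv, hvx, hvM, hstr, fun p => (nl_lim1 hq hN hc hv p le_rfl hx.ab le_rfl).2,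
    fun p s t hs hst ht => ?_⟩
  -- weak convergence
  have hwk : ∀ t ∈ Icc a b, ∀ k : H, Tendsto (fun j => ⟪ι (e j t), k⟫_ℝ) atTop (𝓝 ⟪x t, k⟫_ℝ) := by
    intro t ht k
    obtain ⟨z, -, hz⟩ := weak_of_coord E.b (x := fun j => ι (e j t)) (M := M) (fun j => hx.bdH j t ht)
      (fun i => ⟨_, hx.lim i t ht⟩)
    have hzx : z = x t := by
      refine hb_ext E.b fun i => ?_
      have h1 := hz (E.b i)
      have h2 := hx.lim i t ht
      have h3 : Tendsto (fun j => ⟪ι (e j t), E.b i⟫_ℝ) atTop (𝓝 ⟪E.b i, x t⟫_ℝ) := by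
        simpa only [real_inner_comm] using h2
      rw [real_inner_comm]
      exact tendsto_nhds_unique h1 h3
    rw [← hzx]
    exact hz k
  have hts : s ∈ Icc a b := ⟨hs, hst.trans ht⟩
  have htt : t ∈ Icc a b := ⟨hs.trans hst, ht⟩
  have hL := (hwk t htt (ι p)).sub (hwk s hts (ι p))
  -- the adjoint of `F`
  set w : ℝ → V := fun r => ContinuousLinearMap.adjoint (F r) (ι p) with hw
  have hwc : ContinuousOn w (Icc a b) := by
    have h1 : Continuous fun T : V →L[ℝ] H => ContinuousLinearMap.adjoint T (ι p) :=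
      (ContinuousLinearMap.adjoint (𝕜 := ℝ) (E := V) (F := H)).continuous.clm_apply continuous_const
    exact h1.comp_continuousOn hF
  have hwi : ∀ r u, ⟪F r u, ι p⟫_ℝ = ⟪u, w r⟫_ℝ := fun r u =>
    (ContinuousLinearMap.adjoint_inner_right (F r) u (ι p)).symm
  have hsub : uIcc s t ⊆ Icc a b := by
    rw [uIcc_of_le hst]
    exact Icc_subset_Icc hs ht
  have hgi : IntervalIntegrable (fun r => ⟪g r, ι p⟫_ℝ) volume s t :=
    ((hg.mono hsub).inner continuousOn_const).intervalIntegrable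
  -- the right side
  have hR : ∀ j, ∫ r in s..t, (-(ν * ⟪e j r, p⟫_ℝ) + ⟪Rhs ι F g (N j) r (e j r), ι p⟫_ℝ) =
      -(ν * ∫ r in s..t, ⟪e j r, p⟫_ℝ) + ((∫ r in s..t, ⟪g r, ι p⟫_ℝ) - ∫ r in s..t, ⟪e j r, w r⟫_ℝ) -
        ∫ r in s..t, ⟪N j (ι (e j r)) (e j r), ι p⟫_ℝ := by
    intro j
    have hej := (he j).cont
    have i1 : IntervalIntegrable (fun r => ⟪e j r, p⟫_ℝ) volume s t :=
      ((hej.mono hsub).inner continuousOn_const).intervalIntegrable
    have i2 : IntervalIntegrable (fun r => ⟪e j r, w r⟫_ℝ) volume s t :=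
      ((hej.mono hsub).inner (hwc.mono hsub)).intervalIntegrable
    have hc3 : ContinuousOn (fun r => N j (ι (e j r)) (e j r)) (uIcc s t) :=
      ((N j).continuous.comp_continuousOn (ι.continuous.comp_continuousOn (hej.mono hsub))).clm_apply
        (hej.mono hsub)
    have i3 : IntervalIntegrable (fun r => ⟪N j (ι (e j r)) (e j r), ι p⟫_ℝ) volume s t :=
      (hc3.inner continuousOn_const).intervalIntegrable
    have e1 : ∀ r, -(ν * ⟪e j r, p⟫_ℝ) + ⟪Rhs ι F g (N j) r (e j r), ι p⟫_ℝ =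
        -(ν * ⟪e j r, p⟫_ℝ) + (⟪g r, ι p⟫_ℝ - ⟪e j r, w r⟫_ℝ) - ⟪N j (ι (e j r)) (e j r), ι p⟫_ℝ := by
      intro r
      rw [Rhs, inner_sub_left, inner_sub_left, hwi]
      ring
    have i4 : IntervalIntegrable (fun r => -(ν * ⟪e j r, p⟫_ℝ)) volume s t := (i1.const_mul ν).neg
    simp only [e1]
    rw [intervalIntegral.integral_sub (i4.add (hgi.sub i2)) i3,
      intervalIntegral.integral_add i4 (hgi.sub i2),
      intervalIntegral.integral_sub hgi i2, intervalIntegral.integral_neg,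
      intervalIntegral.integral_const_mul]
  have hR' : ∫ r in s..t, (-(ν * ⟪v r, p⟫_ℝ) + ⟪g r - F r (v r), ι p⟫_ℝ - c (v r) (v r) p) =
      -(ν * ∫ r in s..t, ⟪v r, p⟫_ℝ) + ((∫ r in s..t, ⟪g r, ι p⟫_ℝ) - ∫ r in s..t, ⟪v r, w r⟫_ℝ) -
        ∫ r in s..t, c (v r) (v r) p := by
    have i1 : IntervalIntegrable (fun r => ⟪v r, p⟫_ℝ) volume s t :=
      a3_int hv continuousOn_const hs hst ht
    have i2 : IntervalIntegrable (fun r => ⟪v r, w r⟫_ℝ) volume s t := a3_int hv hwc hs hst ht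
    have i3 : IntervalIntegrable (fun r => c (v r) (v r) p) volume s t :=
      (nl_lim1 hq hN hc hv p hs hst ht).2
    have e1 : ∀ r, -(ν * ⟪v r, p⟫_ℝ) + ⟪g r - F r (v r), ι p⟫_ℝ - c (v r) (v r) p =
        -(ν * ⟪v r, p⟫_ℝ) + (⟪g r, ι p⟫_ℝ - ⟪v r, w r⟫_ℝ) - c (v r) (v r) p := by
      intro r
      rw [inner_sub_left, hwi]
    have i4 : IntervalIntegrable (fun r => -(ν * ⟪v r, p⟫_ℝ)) volume s t := (i1.const_mul ν).neg
    simp only [e1]
    rw [intervalIntegral.integral_sub (i4.add (hgi.sub i2)) i3,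
      intervalIntegral.integral_add i4 (hgi.sub i2),
      intervalIntegral.integral_sub hgi i2, intervalIntegral.integral_neg,
      intervalIntegral.integral_const_mul]
  rw [hR']
  have l1 := hx.lin h hv hvx hvM (q := fun _ => p) continuousOn_const hs hst ht
  have l2 := hx.lin h hv hvx hvM hwc hs hst ht
  have l3 : Tendsto (fun j => ∫ r in s..t, ⟪N j (ι (e j r)) (e j r), ι p⟫_ℝ) atTop
      (𝓝 (∫ r in s..t, c (v r) (v r) p)) := by
    have h1 := nl_lim2 hq hN hx.ab hx.cont hx.bdV hv hvM hstr p hs hst ht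
    have h2 := (nl_lim1 hq hN hc hv p hs hst ht).1
    have h3 := h1.add h2
    rw [zero_add] at h3
    exact h3.congr fun j => by ring
  have hT := (((l1.const_mul ν).neg).add ((tendsto_const_nhds (x := ∫ r in s..t, ⟪g r, ι p⟫_ℝ)).sub l2)).sub l3
  refine tendsto_nhds_unique hL (hT.congr fun j => ?_)
  rw [(he j).eq p s t hs hst ht, hR j]

end

end Pool.Agent.Lib.MP_79abb3_an.W
end

section

/-!
Theorem W (MP_79abb3_an), block A3: the limit of the regularised solutions.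
-/

set_option autoImplicit false
set_option linter.unusedSectionVars false

open MeasureTheory Set Filter Topology
open scoped InnerProductSpace

namespace Pool.Agent.Lib.MP_79abb3_an.W

section
variable {H V : Type} [NormedAddCommGroup H] [InnerProductSpace ℝ H] [CompleteSpace H]
  [NormedAddCommGroup V] [InnerProductSpace ℝ V] [CompleteSpace V] {ι : V →L[ℝ] H} {ν a b M : ℝ}
  {F : ℝ → V →L[ℝ] H} {g : ℝ → H}

/-- Leray solutions of `x' + ν A v + F v + c(v, v) = g` on `[a, b]` with initial value `x₀`. -/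
structure LSol (ι : V →L[ℝ] H) (ν : ℝ) (F : ℝ → V →L[ℝ] H) (g : ℝ → H) (c : V → V → V → ℝ) (a b : ℝ)
    (x₀ : H) (x : ℝ → H) (v : ℝ → V) : Prop where
  init : x a = x₀
  weak : ∀ h : H, ContinuousOn (fun t => ⟪x t, h⟫_ℝ) (Icc a b)
  mem : MemLp v 2 (volume.restrict (Icc a b))
  ae : ∀ᵐ t ∂(volume.restrict (Icc a b)), ι (v t) = x t
  int : ∀ p : V, IntervalIntegrable (fun r => -(ν * ⟪v r, p⟫_ℝ) + ⟪g r - F r (v r), ι p⟫_ℝ - c (v r) (v r) p)
    volume a b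
  eq : ∀ (p : V) (s t : ℝ), a ≤ s → s ≤ t → t ≤ b → ⟪x t, ι p⟫_ℝ - ⟪x s, ι p⟫_ℝ =
    ∫ r in s..t, (-(ν * ⟪v r, p⟫_ℝ) + ⟪g r - F r (v r), ι p⟫_ℝ - c (v r) (v r) p)

/-- The integrand of the limit equation is integrable. -/
theorem lsol_int {v : ℝ → V} (hab : a ≤ b) (hF : ContinuousOn F (Icc a b)) (hg : ContinuousOn g (Icc a b))
    {c : V → V → V → ℝ} (hv : MemLp v 2 (volume.restrict (Icc a b))) (p : V)
    (hcp : IntervalIntegrable (fun r => c (v r) (v r) p) volume a b) :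
    IntervalIntegrable (fun r => -(ν * ⟪v r, p⟫_ℝ) + ⟪g r - F r (v r), ι p⟫_ℝ - c (v r) (v r) p)
      volume a b := by
  have hwc : ContinuousOn (fun r => ContinuousLinearMap.adjoint (F r) (ι p)) (Icc a b) := by
    have h1 : Continuous fun T : V →L[ℝ] H => ContinuousLinearMap.adjoint T (ι p) :=
      (ContinuousLinearMap.adjoint (𝕜 := ℝ) (E := V) (F := H)).continuous.clm_apply continuous_const
    exact h1.comp_continuousOn hF
  have i1 : IntervalIntegrable (fun r => ⟪v r, p⟫_ℝ) volume a b :=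
    a3_int hv continuousOn_const le_rfl hab le_rfl
  have i2 := a3_int hv hwc le_rfl hab le_rfl
  have hgi : IntervalIntegrable (fun r => ⟪g r, ι p⟫_ℝ) volume a b := by
    refine ContinuousOn.intervalIntegrable ?_
    rw [uIcc_of_le hab]
    exact hg.inner continuousOn_const
  refine (((i1.const_mul ν).neg.add (hgi.sub i2)).sub hcp).congr fun r _ => ?_
  show -(ν * ⟪v r, p⟫_ℝ) + (⟪g r, ι p⟫_ℝ - ⟪v r, ContinuousLinearMap.adjoint (F r) (ι p)⟫_ℝ) -
    c (v r) (v r) p = -(ν * ⟪v r, p⟫_ℝ) + ⟪g r - F r (v r), ι p⟫_ℝ - c (v r) (v r) p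
  rw [ContinuousLinearMap.adjoint_inner_right, inner_sub_left]

/-- **(A2') The limit of regularised solutions is a Leray solution.** Proof. `F`, `g` are bounded on `[a, b]` (take `γ`, `β`
constant), `lim_subseq` with `α = a` (`max t a = t`), `lim_weak`, `cv_limit`; `x a = x₀` by uniqueness of weak limits. -/
theorem reg_limit (h : IsTri ι) {q : V → ℝ} (hq : IsQ ι q) (hν : 0 < ν) (hab : a ≤ b)
    (hF : ContinuousOn F (Icc a b)) (hg : ContinuousOn g (Icc a b)) {N : ℕ → H →L[ℝ] V →L[ℝ] H}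
    (hN : ∀ j, NB ι q (N j)) {c : V → V → V → ℝ}
    (hc : ∀ u v p, Tendsto (fun j => ⟪N j (ι u) v, ι p⟫_ℝ) atTop (𝓝 (c u v p)))
    {e : ℕ → ℝ → V} (he : ∀ j, RSol ι ν F g (N j) a b (e j))
    (hM : ∀ j, ∀ t ∈ Icc a b, ‖ι (e j t)‖ ≤ M) (hM' : ∀ j, ∫ t in a..b, ‖e j t‖ ^ 2 ≤ M)
    {x₀ : H} (h0 : ∀ h : H, Tendsto (fun j => ⟪ι (e j a), h⟫_ℝ) atTop (𝓝 ⟪x₀, h⟫_ℝ)) :
    ∃ (φ : ℕ → ℕ) (x : ℝ → H) (v : ℝ → V), StrictMono φ ∧ LSol ι ν F g c a b x₀ x v ∧
      (∀ t ∈ Icc a b, ‖x t‖ ≤ M) ∧ ∫ t in a..b, ‖v t‖ ^ 2 ≤ M ∧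
      (∀ t ∈ Icc a b, ∀ h : H, Tendsto (fun j => ⟪ι (e (φ j) t), h⟫_ℝ) atTop (𝓝 ⟪x t, h⟫_ℝ)) ∧
      Tendsto (fun j => ∫ t in a..b, ‖ι (e (φ j) t - v t)‖ ^ 2) atTop (𝓝 0) := by
  obtain ⟨E⟩ := h.exists_EBasis
  obtain ⟨f, hf⟩ := isCompact_Icc.exists_bound_of_continuousOn hF
  obtain ⟨γ, hγ⟩ := isCompact_Icc.exists_bound_of_continuousOn hg
  have i1 : IntegrableOn (fun _ : ℝ => f ^ 2) (Ioc a b) := by
    rw [← intervalIntegrable_iff_integrableOn_Ioc_of_le hab]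
    exact intervalIntegrable_const
  have i2 : IntegrableOn (fun _ : ℝ => γ) (Ioc a b) := by
    rw [← intervalIntegrable_iff_integrableOn_Ioc_of_le hab]
    exact intervalIntegrable_const
  have hf' : ∀ r ∈ Ioc a b, ‖F r‖ ≤ f := fun r hr => hf r ⟨hr.1.le, hr.2⟩
  have hγ' : ∀ r ∈ Ioc a b, ‖g r‖ ≤ γ := fun r hr => hγ r ⟨hr.1.le, hr.2⟩
  obtain ⟨φ, x, hφ, hxM, hxl⟩ := lim_subseq E hq hν (γ := fun _ => f) (β := fun _ => γ) i1 i2 hf' hγ' hN
    (α := fun _ => a) (fun _ => ⟨le_rfl, hab⟩) he hM hM'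
  have hl : ∀ t ∈ Icc a b, ∀ k : H, Tendsto (fun j => ⟪ι (e (φ j) t), k⟫_ℝ) atTop (𝓝 ⟪x t, k⟫_ℝ) := by
    intro t ht k
    have h1 := hxl t ht k
    rwa [max_eq_left ht.1] at h1
  have hcw : ∀ k : H, ContinuousOn (fun t => ⟪x t, k⟫_ℝ) (Icc a b) := fun k =>
    lim_weak h hq hν (γ := fun _ => f) (β := fun _ => γ) i1 i2 hf' hγ' (fun j => hN (φ j))
      (α := fun _ => a) (fun _ => ⟨le_rfl, hab⟩) (e := fun j => e (φ j)) (fun j => he (φ j))
      (fun j => hM (φ j)) (fun j => hM' (φ j)) hxM hxl k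
  have hcv : CvSeq E a b M (fun j => e (φ j)) x :=
    ⟨hab, fun j => (he (φ j)).cont, fun j => hM (φ j), fun j => hM' (φ j), fun i t ht => by
      simpa only [real_inner_comm] using hl t ht (E.b i)⟩
  obtain ⟨v, hv, hvx, hvM, hst, hci, heq⟩ := cv_limit h hq hF hg (fun j => hN (φ j)) (c := c)
    (fun u v p => (hc u v p).comp hφ.tendsto_atTop) (fun j => he (φ j)) hcv
  refine ⟨φ, x, v, hφ, ⟨?_, hcw, hv, hvx, fun p => lsol_int hab hF hg hv p (hci p), heq⟩, hxM, hvM, hl,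
    hst⟩
  refine ext_inner_right ℝ fun k => ?_
  exact tendsto_nhds_unique (hl a ⟨le_rfl, hab⟩ k) ((h0 k).comp hφ.tendsto_atTop)

end

end Pool.Agent.Lib.MP_79abb3_an.W
end
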