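import Mathlib

/-!
Theorem W (MP_79abb3_an), Phase 0: a smooth field which vanishes on the closed or arbitrary set `W` has zero trace on `W`
in the sense of `IsH0` (limit in `H¹` of functions which vanish near `W`).
-/

set_option autoImplicit false
set_option linter.unusedSectionVars false

open MeasureTheory Set Filter Topology Function
open scoped ENNReal RealInnerProductSpace

namespace Pool.Agent.Lib.MP_79abb3_an.W

variable {d : ℕ}

private noncomputable def p0T (s : ℝ) : ℝ := s * Real.smoothTransition ((s ^ 2 - 1) / 3)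

private lemma p0T_smooth : ContDiff ℝ ((⊤ : ℕ∞) : WithTop ℕ∞) p0T := by
  unfold p0T
  refine contDiff_id.mul (Real.smoothTransition.contDiff.comp ?_)
  fun_prop

private lemma p0T_zero {s : ℝ} (hs : |s| ≤ 1) : p0T s = 0 := by
  unfold p0T
  rw [Real.smoothTransition.zero_of_nonpos, mul_zero]
  have h1 : s ^ 2 ≤ 1 := by
    rw [← sq_abs]
    exact pow_le_one₀ (abs_nonneg _) hs
  linarith

private lemma p0T_id {s : ℝ} (hs : 2 ≤ |s|) : p0T s = s := by
  unfold p0T
  rw [Real.smoothTransition.one_of_one_le, mul_one]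
  have h1 : 2 ^ 2 ≤ s ^ 2 := by
    rw [← sq_abs s]
    exact pow_le_pow_left₀ (by norm_num) hs 2
  linarith

private lemma p0T_sub (s : ℝ) : |p0T s - s| ≤ 2 := by
  rcases le_or_gt 2 |s| with hs | hs
  · rw [p0T_id hs, sub_self, abs_zero]
    norm_num
  · unfold p0T
    have h0 := Real.smoothTransition.nonneg ((s ^ 2 - 1) / 3)
    have h1 := Real.smoothTransition.le_one ((s ^ 2 - 1) / 3)
    have h2 : s * Real.smoothTransition ((s ^ 2 - 1) / 3) - s =
        -(s * (1 - Real.smoothTransition ((s ^ 2 - 1) / 3))) := by ring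
    rw [h2, abs_neg, abs_mul, abs_of_nonneg (by linarith : (0:ℝ) ≤ 1 - _)]
    have h3 : |s| * (1 - Real.smoothTransition ((s ^ 2 - 1) / 3)) ≤ |s| * 1 :=
      mul_le_mul_of_nonneg_left (by linarith) (abs_nonneg _)
    linarith

private lemma p0T_deriv : ∃ C : ℝ, ∀ s, |deriv p0T s| ≤ C := by
  have hc : Continuous (deriv p0T) := p0T_smooth.continuous_deriv (by norm_num)
  obtain ⟨C, hC⟩ := (isCompact_Icc (a := (-3 : ℝ)) (b := 3)).exists_bound_of_continuousOn
    hc.continuousOn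
  refine ⟨max C 1, fun s => ?_⟩
  by_cases hs : s ∈ Icc (-3 : ℝ) 3
  · exact (hC s hs).trans (le_max_left _ _)
  · have h3 : 2 < |s| := by
      by_contra h
      push Not at h
      rw [abs_le] at h
      exact hs ⟨by linarith [h.1], by linarith [h.2]⟩
    have h4 : p0T =ᶠ[𝓝 s] fun t => t := by
      have : ∀ᶠ t in 𝓝 s, 2 < |t| := continuous_abs.continuousAt.eventually (lt_mem_nhds h3)
      filter_upwards [this] with t ht
      exact p0T_id ht.le
    rw [h4.deriv_eq, deriv_id'', abs_one]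
    exact le_max_right _ _

/-- JOB P0-c1. The cut-off of small values: a smooth odd function `θ` with `θ = 0` on `[-1,1]`, `θ(s) = s` for `|s| ≥ 2`,
bounded derivative; `θ_ε(s) = ε θ(s/ε)`. -/
theorem exists_theta : ∃ (θ : ℕ → ℝ → ℝ) (C : ℝ), (∀ n, ContDiff ℝ ((⊤ : ℕ∞) : WithTop ℕ∞) (θ n)) ∧
    (∀ (n : ℕ) (s : ℝ), |s| ≤ 1 / ((n : ℝ) + 1) → θ n s = 0) ∧
    (∀ (n : ℕ) (s : ℝ), 2 / ((n : ℝ) + 1) ≤ |s| → θ n s = s) ∧
    (∀ (n : ℕ) (s : ℝ), |θ n s - s| ≤ C / ((n : ℝ) + 1)) ∧ (∀ (n : ℕ) (s : ℝ), |deriv (θ n) s| ≤ C) := by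
  obtain ⟨C, hC⟩ := p0T_deriv
  have hn : ∀ n : ℕ, (0 : ℝ) < (n : ℝ) + 1 := fun n => by positivity
  refine ⟨fun n s => p0T (((n : ℝ) + 1) * s) / ((n : ℝ) + 1), max C 2, fun n => ?_, fun n s hs => ?_,
    fun n s hs => ?_, fun n s => ?_, fun n s => ?_⟩
  · exact (p0T_smooth.comp (contDiff_const.mul contDiff_id)).div_const _
  · have h1 : |((n : ℝ) + 1) * s| ≤ 1 := by
      rw [abs_mul, abs_of_pos (hn n)]
      rw [le_div_iff₀ (hn n)] at hs
      linarith
    show p0T (((n : ℝ) + 1) * s) / ((n : ℝ) + 1) = 0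
    rw [p0T_zero h1, zero_div]
  · have h1 : 2 ≤ |((n : ℝ) + 1) * s| := by
      rw [abs_mul, abs_of_pos (hn n)]
      rw [div_le_iff₀ (hn n)] at hs
      linarith
    show p0T (((n : ℝ) + 1) * s) / ((n : ℝ) + 1) = s
    rw [p0T_id h1, mul_div_cancel_left₀ _ (hn n).ne']
  · have h1 := p0T_sub (((n : ℝ) + 1) * s)
    have h2 : p0T (((n : ℝ) + 1) * s) / ((n : ℝ) + 1) - s =
        (p0T (((n : ℝ) + 1) * s) - ((n : ℝ) + 1) * s) / ((n : ℝ) + 1) := by
      have := (hn n).ne'
      field_simp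
    show |p0T (((n : ℝ) + 1) * s) / ((n : ℝ) + 1) - s| ≤ _
    rw [h2, abs_div, abs_of_pos (hn n)]
    exact div_le_div_of_nonneg_right (h1.trans (le_max_right _ _)) (hn n).le
  · have h1 : HasDerivAt (fun s => p0T (((n : ℝ) + 1) * s) / ((n : ℝ) + 1))
        (deriv p0T (((n : ℝ) + 1) * s)) s := by
      have hd : HasDerivAt p0T (deriv p0T (((n : ℝ) + 1) * s)) (((n : ℝ) + 1) * s) :=
        (p0T_smooth.differentiable (by norm_num) _).hasDerivAt
      have h2 : HasDerivAt (fun s : ℝ => ((n : ℝ) + 1) * s) (((n : ℝ) + 1) * 1) s :=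
        (hasDerivAt_id s).const_mul _
      have h3 := (hd.comp s h2).div_const ((n : ℝ) + 1)
      refine h3.congr_deriv ?_
      have := (hn n).ne'
      field_simp
    rw [h1.deriv]
    exact (hC _).trans (le_max_left _ _)

end Pool.Agent.Lib.MP_79abb3_an.W
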