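import Pool.Agent.Lib.MP_79abb3_an.W.SpA

/-!
Theorem W, block A: trajectories in the interior form. `u : ℝ → L²` weakly continuous on `[a,b]`, `G` its gradient in `Ω`.
-/

set_option autoImplicit false
set_option linter.unusedSectionVars false

open MeasureTheory Set Filter Topology Function
open scoped ENNReal RealInnerProductSpace

namespace Pool.Agent.Lib.MP_79abb3_an.W

section
variable {d : ℕ}

/-- `u ∈ H¹(Ω)` with gradient `G` and trace zero on `W`: a limit in `H¹(Ω)` of smooth functions with compact support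
disjoint from `W`. -/
def H0L (Ω W : Set (En d)) (u : L2E d) (G : G2E d) : Prop :=
  ∀ ε : ℝ≥0∞, 0 < ε → ∃ φ : En d → En d, Smo φ ∧ HasCompactSupport φ ∧ Disjoint (tsupport φ) W ∧
    eLpNorm (fun x => (u : En d → En d) x - φ x) 2 (volume.restrict Ω) ≤ ε ∧
    ∀ i, eLpNorm (fun x => (G i : En d → En d) x - pd i φ x) 2 (volume.restrict Ω) ≤ ε

/-- the quadratic term `∫ ⟪u, Dφ u⟫ = ∑ ∫ u_i u_j ∂_i φ_j` -/
noncomputable def quad (u : L2E d) (φ : En d → En d) : ℝ :=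
  ∫ x, ⟪(u : En d → En d) x, fderiv ℝ φ x ((u : En d → En d) x)⟫

/-- **Trajectories.** Weak solutions on `[a,b]` of the Navier-Stokes system in `Ω`, with zero trace on `W`. (Outside of `Ω`
the values `u t` are arbitrary.) -/
structure WTr (Ω W : Set (En d)) (a b : ℝ) (u : ℝ → L2E d) (G : ℝ → G2E d) : Prop where
  wc : ∀ w : L2E d, ContinuousOn (fun t => ⟪u t, w⟫) (Icc a b)
  gm : MemLp G 2 (volume.restrict (Ioc a b))
  h0 : ∀ᵐ t ∂(volume.restrict (Ioc a b)), H0L Ω W (u t) (G t)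
  div : ∀ t ∈ Icc a b, ∀ q : En d → ℝ, IsTe Ω q → ⟪u t, cl (gd q)⟫ = 0
  eq : ∀ φ : TS Ω, ∀ s t : ℝ, a ≤ s → s ≤ t → t ≤ b →
    ⟪u t, cl (φ : En d → En d)⟫ - ⟪u s, cl (φ : En d → En d)⟫ =
      ∫ r in s..t, (⟪u r, cl (lap (φ : En d → En d))⟫ + quad (u r) (φ : En d → En d))

end

end Pool.Agent.Lib.MP_79abb3_an.W
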