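import Pool.Agent.Lib.MP_79abb3_an.W.SpF2
import Pool.Agent.Lib.MP_79abb3_an.W.TrDef

/-!
Theorem W, block A: trajectories from the triple `VD D → HD D`.
-/

set_option autoImplicit false
set_option linter.unusedSectionVars false

open MeasureTheory Set Filter Topology Function
open scoped ENNReal RealInnerProductSpace

namespace Pool.Agent.Lib.MP_79abb3_an.W

section
variable {d : ℕ} {D : Set (En d)} {a b : ℝ}

/-- the elements of `V(D)` have trace zero on the boundary of `D` -/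
theorem H0L_V (hO : IsOpen D) (hD : Bornology.IsBounded D) (v : VD D) :
    H0L D (frontier D) ((io D v : HD D) : L2E d) (v : G2E d) := by
  intro ε hε
  obtain ⟨δ, hδ0, hδ⟩ := ENNReal.lt_iff_exists_nnreal_btwn.1 hε
  have hδ0' : (0 : ℝ) < δ := by exact_mod_cast ENNReal.coe_pos.1 hδ0
  obtain ⟨φ, h1, h2⟩ := exists_seq hD v
  have h3 : ∀ᶠ n in atTop, dist (vT D (φ n)) v < δ := h1.eventually (Metric.ball_mem_nhds v hδ0')
  have h4 : ∀ᶠ n in atTop, dist (hT D (φ n)) (io D v) < δ :=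
    h2.eventually (Metric.ball_mem_nhds (io D v) hδ0')
  obtain ⟨n, hn1, hn2⟩ := (h3.and h4).exists
  have key : ∀ (u w : L2E d) {f : En d → En d}, ((w : En d → En d) =ᵐ[volume] f) → ‖u - w‖ < δ →
      eLpNorm (fun x => (u : En d → En d) x - f x) 2 (volume.restrict D) ≤ ε := by
    intro u w f hw huw
    refine (eLpNorm_mono_measure _ Measure.restrict_le_self).trans ?_
    have e1 : (fun x => (u : En d → En d) x - f x) =ᵐ[volume] ((u - w : L2E d) : En d → En d) := by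
      filter_upwards [hw, Lp.coeFn_sub u w] with x hx1 hx2
      rw [hx2, Pi.sub_apply, hx1]
    rw [eLpNorm_congr_ae e1, eLpNorm_L2]
    refine le_trans ?_ hδ.le
    rw [← ENNReal.ofReal_coe_nnreal]
    exact ENNReal.ofReal_le_ofReal huw.le
  refine ⟨(φ n : En d → En d), (TS.ts (φ n)).smooth, (TS.ts (φ n)).cpt, ?_, ?_, fun i => ?_⟩
  · refine Set.disjoint_of_subset_left (TS.ts (φ n)).supp ?_
    exact (disjoint_frontier_iff_isOpen.2 hO).symm
  · refine key _ (cl (φ n : En d → En d)) (cl_coe ((TS.ts (φ n)).memLp 2)) ?_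
    rw [dist_comm, dist_eq_norm] at hn2
    exact hn2
  · refine key _ (cl (pd i (φ n : En d → En d))) (cl_coe (((TS.ts (φ n)).toIsTe.pd i).memLp 2)) ?_
    rw [dist_comm, dist_eq_norm] at hn1
    exact (gi_le (v - vT D (φ n)) i).trans_lt hn1

/-- **From the triple.** `x : ℝ → HD D` weakly continuous, `v ∈ L²(a,b; V)`, `x = io v` a.e., and the equation holds for the
test fields of an open set `Ω ⊆ D` (any force outside of `Ω`). -/
theorem WTr.of_triple (hd : d = 2 ∨ d = 3) (hO : IsOpen D) (hD : Bornology.IsBounded D) {Ω : Set (En d)}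
    (hΩ : Ω ⊆ D) (x : ℝ → HD D) (v : ℝ → VD D)
    (hwc : ∀ w : HD D, ContinuousOn (fun t => ⟪x t, w⟫) (Icc a b))
    (hv : MemLp v 2 (volume.restrict (Ioc a b)))
    (hx : ∀ᵐ t ∂(volume.restrict (Ioc a b)), x t = io D (v t))
    (heq : ∀ φ : TS D, IsTs Ω (φ : En d → En d) → ∀ s t : ℝ, a ≤ s → s ≤ t → t ≤ b →
      ⟪x t, hT D φ⟫ - ⟪x s, hT D φ⟫ = -∫ r in s..t, (⟪v r, vT D φ⟫ + bV D (v r) (v r) (vT D φ))) :
    WTr Ω (frontier D) a b (fun t => (x t : L2E d)) (fun t => (v t : G2E d)) := by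
  have hcoe : ∀ (u : HD D) (w : L2E d), ⟪(u : L2E d), w⟫ = ⟪u, PD D w⟫ := by
    intro u w
    rw [real_inner_comm, ← inner_PD, real_inner_comm]
  refine ⟨fun w => ?_, ?_, ?_, ?_, ?_⟩
  · have h1 := hwc (PD D w)
    refine h1.congr fun t _ => ?_
    exact hcoe (x t) w
  · exact (VD D).subtypeL.comp_memLp' hv
  · filter_upwards [hx] with t ht
    intro ε hε
    obtain ⟨φ, h1, h2, h3, h4, h5⟩ := H0L_V hO hD (v t) ε hε
    refine ⟨φ, h1, h2, h3, ?_, fun i => ?_⟩
    · rw [ht]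
      exact (eLpNorm_mono_measure _ (Measure.restrict_mono hΩ le_rfl)).trans h4
    · exact (eLpNorm_mono_measure _ (Measure.restrict_mono hΩ le_rfl)).trans (h5 i)
  · intro t _ q hq
    exact HD_div (x t) hq.smooth hq.cpt
  · intro φ s t hs hst ht
    have hφ : IsTs Ω (φ : En d → En d) := TS.ts φ
    let ψ : TS D := ⟨(φ : En d → En d), ⟨⟨hφ.smooth, hφ.cpt, hφ.supp.trans hΩ⟩, hφ.div⟩⟩
    have h1 := heq ψ hφ s t hs hst ht
    have h2 : ⟪x t, hT D ψ⟫ - ⟪x s, hT D ψ⟫ =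
        ⟪(x t : L2E d), cl (φ : En d → En d)⟫ - ⟪(x s : L2E d), cl (φ : En d → En d)⟫ := rfl
    rw [← h2, h1, ← intervalIntegral.integral_neg]
    refine intervalIntegral.integral_congr_ae ?_
    filter_upwards [(ae_restrict_iff' measurableSet_Ioc).1 hx] with r hr hrm
    rw [uIoc_of_le hst] at hrm
    have hxr := hr ⟨hs.trans_lt hrm.1, hrm.2.trans ht⟩
    have e1 := inner_vT_lap hD (v r) ψ
    have e2 := bV_test hd hD (v r) (v r) ψ
    rw [← hxr] at e1 e2
    have e3 : bV D (v r) (v r) (vT D ψ) = -quad (x r : L2E d) (φ : En d → En d) := e2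
    have e4 : ⟪v r, vT D ψ⟫ = -⟪(x r : L2E d), cl (lap (φ : En d → En d))⟫ := e1
    rw [e3, e4]
    ring

end

end Pool.Agent.Lib.MP_79abb3_an.W
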