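import Pool.Agent.Lib.MP_79abb3_an.SC.ExAbs
import Pool.Agent.Lib.MP_79abb3_an.W.A3c

section

/-!
Theorem W (MP_79abb3_an), block A3: abstract semilinear parabolic equations
`x(t) = S(t-a) x₀ + ∫_a^t L(t-r) Φ(r, x(r)) dr` in REAL Banach spaces (copy of `SC/ExAbs.lean`; `kth`, `kth_gron`
are taken from there).
-/

set_option autoImplicit false
set_option linter.unusedSectionVars false

open MeasureTheory Set Filter Topology

namespace Pool.Agent.Lib.MP_79abb3_an.W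

open Pool.Agent.Lib.MP_79abb3_an.SC

section Abs

variable {X Y : Type} [NormedAddCommGroup X] [NormedSpace ℝ X] [CompleteSpace X]
  [NormedAddCommGroup Y] [NormedSpace ℝ Y]

/-- a contraction semigroup `S` on `X` and kernels `L τ : Y → X` -/
structure RKer (S : ℝ → (X →L[ℝ] X)) (L : ℝ → (Y →L[ℝ] X)) (C θ : ℝ) : Prop where
  C0 : 0 ≤ C
  th0 : 0 ≤ θ
  th1 : θ < 1
  s0 : ∀ x, S 0 x = x
  sadd : ∀ s t, 0 ≤ s → 0 ≤ t → ∀ x, S (s + t) x = S s (S t x)
  scont : ∀ x, Continuous fun t => S t x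
  sb : ∀ t, 0 ≤ t → ∀ x, ‖S t x‖ ≤ ‖x‖
  ls : ∀ s t, 0 ≤ s → 0 < t → ∀ y, L (s + t) y = S s (L t y)
  lb : ∀ t, 0 < t → ∀ y, ‖L t y‖ ≤ C * kth θ t * ‖y‖

/-- the nonlinearity on `[a, b]` -/
structure RNl (Φ : ℝ → X → Y) (M a b : ℝ) : Prop where
  M0 : 0 ≤ M
  cont : ∀ x, ContinuousOn (fun t => Φ t x) (Icc a b)
  lip : ∀ t ∈ Icc a b, ∀ x y, ‖Φ t x - Φ t y‖ ≤ M * (1 + ‖x‖ + ‖y‖) * ‖x - y‖
  bd : ∀ t ∈ Icc a b, ‖Φ t 0‖ ≤ M

/-- mild solutions on `[a, b]` -/
structure RMild (S : ℝ → (X →L[ℝ] X)) (L : ℝ → (Y →L[ℝ] X)) (Φ : ℝ → X → Y) (a b : ℝ) (x₀ : X)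
    (x : ℝ → X) : Prop where
  cont : ContinuousOn x (Icc a b)
  eq : ∀ t ∈ Icc a b, x t = S (t - a) x₀ + ∫ r in a..t, L (t - r) (Φ r (x r))

variable {S : ℝ → (X →L[ℝ] X)} {L : ℝ → (Y →L[ℝ] X)} {C θ : ℝ} {Φ : ℝ → X → Y}

theorem RKer.lcont (hk : RKer S L C θ) (y : Y) : ContinuousOn (fun t => L t y) (Ioi 0) := by
  intro t ht
  have ht' : 0 < t := ht
  have h1 : (fun s => S (s - t / 2) (L (t / 2) y)) =ᶠ[𝓝 t] fun s => L s y := by
    filter_upwards [Ioi_mem_nhds (half_lt_self ht')] with s hs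
    have hs' : t / 2 < s := hs
    rw [← hk.ls _ _ (by linarith) (by positivity)]
    congr 2; ring
  have h2 : ContinuousAt (fun s => S (s - t / 2) (L (t / 2) y)) t :=
    ((hk.scont (L (t / 2) y)).comp (continuous_id.sub continuous_const)).continuousAt
  exact (h2.congr h1).continuousWithinAt

/-- joint continuity of `(τ, y) ↦ L τ y` along curves -/
theorem RKer.lcont_comp (hk : RKer S L C θ) {Z : Type} [TopologicalSpace Z] {s : Set Z} {τ : Z → ℝ}
    {y : Z → Y} (hτ : ContinuousOn τ s) (hy : ContinuousOn y s) (hpos : ∀ z ∈ s, 0 < τ z) :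
    ContinuousOn (fun z => L (τ z) (y z)) s := by
  intro z hz
  have h1 : Tendsto (fun w => L (τ w) (y z)) (𝓝[s] z) (𝓝 (L (τ z) (y z))) := by
    have h2 : ContinuousAt (fun t => L t (y z)) (τ z) :=
      (hk.lcont (y z)).continuousAt (Ioi_mem_nhds (hpos z hz))
    exact h2.tendsto.comp (hτ z hz)
  have h3 : Tendsto (fun w => L (τ w) (y w - y z)) (𝓝[s] z) (𝓝 0) := by
    rw [tendsto_zero_iff_norm_tendsto_zero]
    have h4 : Tendsto (fun w => C * kth θ (τ w) * ‖y w - y z‖) (𝓝[s] z)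
        (𝓝 (C * kth θ (τ z) * 0)) := by
      refine Tendsto.mul (Tendsto.const_mul C ?_) ?_
      · have h5 : ContinuousAt (kth θ) (τ z) := by
          unfold kth
          exact continuousAt_const.add
            (Real.continuousAt_rpow_const _ _ (Or.inl (hpos z hz).ne'))
        exact h5.tendsto.comp (hτ z hz)
      · exact tendsto_iff_norm_sub_tendsto_zero.1 (hy z hz)
    rw [mul_zero] at h4
    refine squeeze_zero' (Eventually.of_forall fun _ => norm_nonneg _) ?_ h4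
    filter_upwards [self_mem_nhdsWithin] with w hw
    exact hk.lb _ (hpos w hw) _
  have h6 := h1.add h3
  rw [add_zero] at h6
  refine h6.congr fun w => ?_
  rw [map_sub]; abel

theorem RKer.scont_comp (hk : RKer S L C θ) {Z : Type} [TopologicalSpace Z] {s : Set Z} {τ : Z → ℝ}
    {x : Z → X} (hτ : ContinuousOn τ s) (hx : ContinuousOn x s) (hpos : ∀ z ∈ s, 0 ≤ τ z) :
    ContinuousOn (fun z => S (τ z) (x z)) s := by
  intro z hz
  have h1 : Tendsto (fun w => S (τ w) (x z)) (𝓝[s] z) (𝓝 (S (τ z) (x z))) :=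
    ((hk.scont (x z)).tendsto (τ z)).comp (hτ z hz)
  have h3 : Tendsto (fun w => S (τ w) (x w - x z)) (𝓝[s] z) (𝓝 0) := by
    rw [tendsto_zero_iff_norm_tendsto_zero]
    have h4 := tendsto_iff_norm_sub_tendsto_zero.1 (hx z hz)
    refine squeeze_zero' (Eventually.of_forall fun _ => norm_nonneg _) ?_ h4
    filter_upwards [self_mem_nhdsWithin] with w hw
    exact hk.sb _ (hpos w hw) _
  have h6 := h1.add h3
  rw [add_zero] at h6
  refine h6.congr fun w => ?_
  rw [map_sub]; abel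

/-- the Duhamel integral -/
noncomputable def rduh (L : ℝ → (Y →L[ℝ] X)) (a : ℝ) (f : ℝ → Y) (t : ℝ) : X :=
  ∫ r in a..t, L (t - r) (f r)

theorem rduh_self (a : ℝ) (f : ℝ → Y) : rduh L a f a = 0 := intervalIntegral.integral_same

theorem RKer.int_aux (hk : RKer S L C θ) {a b t : ℝ} {f : ℝ → Y} (hf : ContinuousOn f (Icc a b))
    (ht : t ∈ Icc a b) {c : ℝ} (hc : c ∈ Icc a t) :
    IntervalIntegrable (fun r => L (t - r) (f r)) volume c t := by
  obtain ⟨R, hR⟩ := isCompact_Icc.exists_bound_of_continuousOn hf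
  have h1 : ContinuousOn (fun r => L (t - r) (f r)) (Ioo c t) := by
    refine hk.lcont_comp (by fun_prop) (hf.mono ?_) ?_
    · exact fun r hr => ⟨hc.1.trans hr.1.le, hr.2.le.trans ht.2⟩
    · exact fun r hr => sub_pos.2 hr.2
  rw [intervalIntegrable_iff_integrableOn_Ioo_of_le hc.2]
  have h2 : IntegrableOn (fun r => C * kth θ (t - r) * R) (Ioo c t) volume := by
    rw [← intervalIntegrable_iff_integrableOn_Ioo_of_le hc.2]
    exact ((kth_int' hk.th1 t c t).const_mul C).mul_const R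
  refine Integrable.mono' h2 (h1.aestronglyMeasurable measurableSet_Ioo) ?_
  rw [ae_restrict_iff' measurableSet_Ioo]
  refine Eventually.of_forall fun r hr => ?_
  have h3 : 0 < t - r := sub_pos.2 hr.2
  refine (hk.lb _ h3 _).trans ?_
  have h4 := hR r ⟨hc.1.trans hr.1.le, hr.2.le.trans ht.2⟩
  have h5 := kth_pos θ h3
  have h6 := hk.C0
  gcongr

theorem RKer.duh_norm (hk : RKer S L C θ) {a b t : ℝ} {f : ℝ → Y} (hf : ContinuousOn f (Icc a b))
    (ht : t ∈ Icc a b) {c : ℝ} (hc : c ∈ Icc a t) :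
    ‖∫ r in c..t, L (t - r) (f r)‖ ≤ C * ∫ r in c..t, kth θ (t - r) * ‖f r‖ := by
  rw [← intervalIntegral.integral_const_mul]
  obtain ⟨R, hR⟩ := isCompact_Icc.exists_bound_of_continuousOn hf
  have hfn : ContinuousOn (fun r => ‖f r‖) (uIcc c t) := by
    rw [uIcc_of_le hc.2]
    exact (hf.mono (Icc_subset_Icc hc.1 ht.2)).norm
  have h2 : IntervalIntegrable (fun r => C * (kth θ (t - r) * ‖f r‖)) volume c t :=
    ((kth_int' hk.th1 t c t).mul_continuousOn hfn).const_mul C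
  refine intervalIntegral.norm_integral_le_of_norm_le hc.2 ?_ h2
  have : ∀ᵐ r : ℝ ∂volume, r ≠ t := by
    simp [ae_iff, measure_singleton]
  filter_upwards [this] with r hrt hr
  have h3 : 0 < t - r := sub_pos.2 (lt_of_le_of_ne hr.2 hrt)
  refine (hk.lb _ h3 _).trans (le_of_eq (by ring))

theorem RKer.duh_norm_le (hk : RKer S L C θ) {a b t : ℝ} {f : ℝ → Y} (hf : ContinuousOn f (Icc a b))
    (ht : t ∈ Icc a b) {c : ℝ} (hc : c ∈ Icc a t) {R : ℝ}
    (hR : ∀ r ∈ Icc c t, ‖f r‖ ≤ R) :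
    ‖∫ r in c..t, L (t - r) (f r)‖ ≤ C * R * ∫ τ in (0:ℝ)..(t - c), kth θ τ := by
  refine (hk.duh_norm hf ht hc).trans ?_
  rw [mul_assoc]
  refine mul_le_mul_of_nonneg_left ?_ hk.C0
  have h1 : ∫ r in c..t, kth θ (t - r) = ∫ τ in (0:ℝ)..(t - c), kth θ τ := by
    rw [intervalIntegral.integral_comp_sub_left (fun τ => kth θ τ) t, sub_self]
  rw [← h1, ← intervalIntegral.integral_const_mul]
  have hfn : ContinuousOn (fun r => ‖f r‖) (uIcc c t) := by
    rw [uIcc_of_le hc.2]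
    exact (hf.mono (Icc_subset_Icc hc.1 ht.2)).norm
  refine intervalIntegral.integral_mono_on hc.2 ((kth_int' hk.th1 t c t).mul_continuousOn hfn)
    ((kth_int' hk.th1 t c t).const_mul R) ?_
  intro r hr
  rw [mul_comm]
  exact mul_le_mul_of_nonneg_right (hR r hr) (kth_nonneg θ (sub_nonneg.2 hr.2))

/-- restart: `D_a f t = S(t-c) D_a f c + D_c f t` -/
theorem RKer.duh_restart (hk : RKer S L C θ) {a b t : ℝ} {f : ℝ → Y} (hf : ContinuousOn f (Icc a b))
    (ht : t ∈ Icc a b) {c : ℝ} (hc : c ∈ Icc a t) :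
    rduh L a f t = S (t - c) (rduh L a f c) + rduh L c f t := by
  have hct : c ∈ Icc a b := ⟨hc.1, hc.2.trans ht.2⟩
  unfold rduh
  rw [← ContinuousLinearMap.intervalIntegral_comp_comm (S (t - c))
    (hk.int_aux hf hct (c := a) ⟨le_rfl, hc.1⟩)]
  have h1 : ∫ r in a..c, S (t - c) (L (c - r) (f r)) = ∫ r in a..c, L (t - r) (f r) := by
    apply intervalIntegral.integral_congr_ae
    have : ∀ᵐ r : ℝ ∂volume, r ≠ c := by
      simp [ae_iff, measure_singleton]
    filter_upwards [this] with r hrt hr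
    rw [uIoc_of_le hc.1] at hr
    have h3 : 0 < c - r := sub_pos.2 (lt_of_le_of_ne hr.2 hrt)
    rw [← hk.ls _ _ (sub_nonneg.2 hc.2) h3]
    congr 2; ring
  rw [h1]
  have h2 := hk.int_aux hf ht (c := a) ⟨le_rfl, ht.1⟩
  have h3 := hk.int_aux hf ht hc
  have h4 : IntervalIntegrable (fun r => L (t - r) (f r)) volume a c :=
    h2.mono_set (by rw [uIcc_of_le hc.1, uIcc_of_le ht.1]; exact Icc_subset_Icc le_rfl hc.2)
  exact (intervalIntegral.integral_add_adjacent_intervals h4 h3).symm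

/-- continuity of the Duhamel integral -/
theorem RKer.duh_cont (hk : RKer S L C θ) {a b : ℝ} {f : ℝ → Y} (hf : ContinuousOn f (Icc a b)) :
    ContinuousOn (rduh L a f) (Icc a b) := by
  rcases lt_or_ge b a with hab | hab
  · rw [Icc_eq_empty (not_le.2 hab)]; exact continuousOn_empty _
  obtain ⟨R0, hR0⟩ := isCompact_Icc.exists_bound_of_continuousOn hf
  set R := |R0| with hRdef
  have hR : ∀ r ∈ Icc a b, ‖f r‖ ≤ R := fun r hr => (hR0 r hr).trans (le_abs_self _)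
  -- it suffices: uniform short time control
  rw [Metric.continuousOn_iff]
  intro t0 ht0 ε hε
  have hCR : 0 ≤ C * R := mul_nonneg hk.C0 (abs_nonneg _)
  obtain ⟨h, hh, _, hsm⟩ := kth_small hk.th1 (show 0 < ε / (4 * (C * R + 1)) by positivity)
  have hsm' : ∀ c t, c ∈ Icc a t → t ∈ Icc a b → t - c ≤ h →
      ‖∫ r in c..t, L (t - r) (f r)‖ ≤ ε / 4 := by
    intro c t hc ht hct
    refine (hk.duh_norm_le hf ht hc
      (fun r hr => hR r ⟨hc.1.trans hr.1, hr.2.trans ht.2⟩)).trans ?_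
    have h1 := hsm (t - c) (sub_nonneg.2 hc.2) hct
    calc C * R * ∫ τ in (0:ℝ)..(t - c), kth θ τ ≤ (C * R + 1) * (ε / (4 * (C * R + 1))) := by
          refine mul_le_mul (by linarith) h1 ?_ (by positivity)
          exact intervalIntegral.integral_nonneg (sub_nonneg.2 hc.2)
            fun τ hτ => kth_nonneg θ hτ.1
      _ = ε / 4 := by field_simp
  -- reference point `c = max a (t0 - h/2)`
  set c := max a (t0 - h / 2) with hcdef
  have hca : a ≤ c := le_max_left _ _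
  have hct0 : c ≤ t0 := max_le ht0.1 (by linarith)
  set z := rduh L a f c with hz
  have h5 : ContinuousAt (fun t => S (t - c) z) t0 :=
    ((hk.scont z).comp (continuous_id.sub continuous_const)).continuousAt
  obtain ⟨d, hd, h6⟩ := Metric.continuousAt_iff.1 h5 (ε / 4) (by positivity)
  rcases eq_or_lt_of_le hct0 with hcc | hcc
  · -- `t0 = c`, so `t0 = a`
    have ht0a : t0 = a := by
      rcases max_choice a (t0 - h / 2) with h7 | h7
      · rw [← hcc, hcdef, h7]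
      · rw [← hcdef] at h7; linarith
    refine ⟨min d h, lt_min hd hh, fun t ht htt => ?_⟩
    have h8 : t0 ≤ t := by rw [ht0a]; exact ht.1
    rw [Real.dist_eq, abs_of_nonneg (sub_nonneg.2 h8)] at htt
    have h9 := hsm' a t ⟨le_rfl, ht.1⟩ ht (by rw [← ht0a]; exact (htt.trans_le (min_le_right _ _)).le)
    rw [ht0a, rduh_self, dist_zero_right]
    exact lt_of_le_of_lt h9 (by linarith)
  · refine ⟨min d (min (h / 2) (t0 - c)), lt_min hd (lt_min (by positivity) (sub_pos.2 hcc)),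
      fun t ht htt => ?_⟩
    have h10 : |t - t0| < d := lt_of_lt_of_le htt (min_le_left _ _)
    have h11 : |t - t0| < h / 2 :=
      lt_of_lt_of_le htt ((min_le_right _ _).trans (min_le_left _ _))
    have h12 : |t - t0| < t0 - c :=
      lt_of_lt_of_le htt ((min_le_right _ _).trans (min_le_right _ _))
    have h13 := abs_lt.1 h11
    have h14 := abs_lt.1 h12
    have hct : c ≤ t := by linarith
    have h15 : t0 - h / 2 ≤ c := le_max_right _ _
    have e1 := hk.duh_restart hf ht (c := c) ⟨hca, hct⟩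
    have e2 := hk.duh_restart hf ht0 (c := c) ⟨hca, hct0⟩
    have h16 := hsm' c t ⟨hca, hct⟩ ht (by linarith)
    have h17 := hsm' c t0 ⟨hca, hct0⟩ ht0 (by linarith)
    have h18 := h6 (show dist t t0 < d from h10)
    rw [e1, e2, dist_eq_norm]
    rw [dist_eq_norm] at h18
    have e3 : S (t - c) z + rduh L c f t - (S (t0 - c) z + rduh L c f t0)
        = (S (t - c) z - S (t0 - c) z) + rduh L c f t - rduh L c f t0 := by abel
    rw [e3]
    calc ‖(S (t - c) z - S (t0 - c) z) + rduh L c f t - rduh L c f t0‖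
        ≤ ‖(S (t - c) z - S (t0 - c) z) + rduh L c f t‖ + ‖rduh L c f t0‖ := norm_sub_le _ _
      _ ≤ ‖S (t - c) z - S (t0 - c) z‖ + ‖rduh L c f t‖ + ‖rduh L c f t0‖ := by
          gcongr; exact norm_add_le _ _
      _ < ε := by unfold rduh; linarith

/-! ### Nonlinearities along curves -/

theorem RNl.bound {M a b : ℝ} (hΦ : RNl Φ M a b) {t : ℝ} (ht : t ∈ Icc a b) (x : X) :
    ‖Φ t x‖ ≤ M * (1 + ‖x‖) ^ 2 := by
  have h1 := hΦ.lip t ht x 0
  rw [norm_zero, sub_zero, add_zero] at h1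
  have h2 := hΦ.bd t ht
  have h3 : ‖Φ t x‖ ≤ ‖Φ t x - Φ t 0‖ + ‖Φ t 0‖ := by
    have := norm_add_le (Φ t x - Φ t 0) (Φ t 0)
    simpa using this
  have h4 := norm_nonneg x
  have h5 := hΦ.M0
  nlinarith [mul_nonneg h5 h4]

theorem RNl.mono {M a b c d : ℝ} (hΦ : RNl Φ M a b) (h1 : a ≤ c) (h2 : d ≤ b) : RNl Φ M c d where
  M0 := hΦ.M0
  cont x := (hΦ.cont x).mono (Icc_subset_Icc h1 h2)
  lip t ht := hΦ.lip t (Icc_subset_Icc h1 h2 ht)
  bd t ht := hΦ.bd t (Icc_subset_Icc h1 h2 ht)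

theorem RNl.cont_comp {M a b : ℝ} (hΦ : RNl Φ M a b) {x : ℝ → X} (hx : ContinuousOn x (Icc a b)) :
    ContinuousOn (fun t => Φ t (x t)) (Icc a b) := by
  intro t ht
  have h1 := hΦ.cont (x t) t ht
  have h2 : Tendsto (fun s => Φ s (x s) - Φ s (x t)) (𝓝[Icc a b] t) (𝓝 0) := by
    rw [tendsto_zero_iff_norm_tendsto_zero]
    have h3 : Tendsto (fun s => M * (1 + ‖x s‖ + ‖x t‖) * ‖x s - x t‖) (𝓝[Icc a b] t)
        (𝓝 (M * (1 + ‖x t‖ + ‖x t‖) * 0)) := by
      have h4 : Tendsto x (𝓝[Icc a b] t) (𝓝 (x t)) := hx t ht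
      refine Tendsto.mul (Tendsto.const_mul M ?_) (tendsto_iff_norm_sub_tendsto_zero.1 h4)
      exact (h4.norm.const_add 1).add_const _
    rw [mul_zero] at h3
    refine squeeze_zero' (Eventually.of_forall fun _ => norm_nonneg _) ?_ h3
    filter_upwards [self_mem_nhdsWithin] with s hs
    exact hΦ.lip s hs _ _
  have h5 := h2.add h1.tendsto
  rw [zero_add] at h5
  refine h5.congr fun s => ?_
  abel

/-! ### RMild solutions: restriction, restart, gluing -/

theorem RMild.eq' {a b : ℝ} {x₀ : X} {x : ℝ → X} (h : RMild S L Φ a b x₀ x) {t : ℝ}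
    (ht : t ∈ Icc a b) : x t = S (t - a) x₀ + rduh L a (fun r => Φ r (x r)) t := h.eq t ht

theorem RMild.init (hk : RKer S L C θ) {a b : ℝ} {x₀ : X} {x : ℝ → X} (h : RMild S L Φ a b x₀ x)
    (hab : a ≤ b) : x a = x₀ := by
  rw [h.eq' ⟨le_rfl, hab⟩, rduh_self, sub_self, hk.s0, add_zero]

theorem RMild.restrict {a b c : ℝ} {x₀ : X} {x : ℝ → X} (h : RMild S L Φ a b x₀ x) (hc : c ≤ b) :
    RMild S L Φ a c x₀ x where
  cont := h.cont.mono (Icc_subset_Icc le_rfl hc)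
  eq t ht := h.eq t (Icc_subset_Icc le_rfl hc ht)

theorem RMild.restart (hk : RKer S L C θ) {M a b c : ℝ} {x₀ : X} {x : ℝ → X}
    (hΦ : RNl Φ M a b) (h : RMild S L Φ a b x₀ x) (hc : c ∈ Icc a b) :
    RMild S L Φ c b (x c) x where
  cont := h.cont.mono (Icc_subset_Icc hc.1 le_rfl)
  eq t ht := by
    have ht' : t ∈ Icc a b := ⟨hc.1.trans ht.1, ht.2⟩
    have h1 := hk.duh_restart (hΦ.cont_comp h.cont) ht' (c := c) ⟨hc.1, ht.1⟩
    rw [h.eq' ht', h.eq' hc, h1, map_add, ← hk.sadd _ _ (sub_nonneg.2 ht.1) (sub_nonneg.2 hc.1)]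
    rw [show t - c + (c - a) = t - a by ring, add_assoc]
    rfl

theorem RMild.glue (hk : RKer S L C θ) {M a b c : ℝ} {x₀ : X} {x y : ℝ → X} (hΦ : RNl Φ M a b)
    (hac : a ≤ c) (hcb : c ≤ b) (hx : RMild S L Φ a c x₀ x) (hy : RMild S L Φ c b (x c) y) :
    RMild S L Φ a b x₀ (fun t => if t ≤ c then x t else y t) := by
  set z : ℝ → X := fun t => if t ≤ c then x t else y t with hz
  have hyc : y c = x c := hy.init hk hcb
  have hzx : ∀ t ∈ Icc a c, z t = x t := fun t ht => if_pos ht.2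
  have hzy : ∀ t ∈ Icc c b, z t = y t := by
    intro t ht
    rcases ht.1.eq_or_lt with h | h
    · rw [← h, hyc]; exact if_pos le_rfl
    · exact if_neg h.not_ge
  have hzc : ContinuousOn z (Icc a b) := by
    rw [← Icc_union_Icc_eq_Icc hac hcb]
    exact (hx.cont.congr hzx).union_of_isClosed (hy.cont.congr hzy) isClosed_Icc isClosed_Icc
  refine ⟨hzc, fun t ht => ?_⟩
  rcases le_total t c with htc | htc
  · rw [hzx t ⟨ht.1, htc⟩, hx.eq t ⟨ht.1, htc⟩]
    congr 1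
    apply intervalIntegral.integral_congr
    intro r hr
    rw [uIcc_of_le ht.1] at hr
    simp only
    rw [hzx r ⟨hr.1, hr.2.trans htc⟩]
  · have h1 := hk.duh_restart (hΦ.cont_comp hzc) ht (c := c) ⟨hac, htc⟩
    have h2 : rduh L a (fun r => Φ r (z r)) c = rduh L a (fun r => Φ r (x r)) c := by
      unfold rduh
      apply intervalIntegral.integral_congr
      intro r hr
      rw [uIcc_of_le hac] at hr
      simp only
      rw [hzx r hr]
    have h3 : rduh L c (fun r => Φ r (z r)) t = rduh L c (fun r => Φ r (y r)) t := by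
      unfold rduh
      apply intervalIntegral.integral_congr
      intro r hr
      rw [uIcc_of_le htc] at hr
      simp only
      rw [hzy r ⟨hr.1, hr.2.trans ht.2⟩]
    have h4 : (∫ r in a..t, L (t - r) (Φ r (z r))) = rduh L a (fun r => Φ r (z r)) t := rfl
    rw [h4, hzy t ⟨htc, ht.2⟩, hy.eq' ⟨htc, ht.2⟩, hx.eq' ⟨hac, le_rfl⟩, h1, h2, h3, map_add,
      ← hk.sadd _ _ (sub_nonneg.2 htc) (sub_nonneg.2 hac),
      show t - c + (c - a) = t - a by ring, add_assoc]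

/-! ### Uniqueness, local existence, global existence -/

theorem RMild.bdd {a b : ℝ} {x₀ : X} {x : ℝ → X} (h : RMild S L Φ a b x₀ x) :
    ∃ R, 0 ≤ R ∧ ∀ t ∈ Icc a b, ‖x t‖ ≤ R := by
  obtain ⟨R, hR⟩ := isCompact_Icc.exists_bound_of_continuousOn h.cont
  exact ⟨|R|, abs_nonneg _, fun t ht => (hR t ht).trans (le_abs_self _)⟩

theorem RMild.unique (hk : RKer S L C θ) {M a b : ℝ} {x₀ : X} {x y : ℝ → X} (hΦ : RNl Φ M a b)
    (hx : RMild S L Φ a b x₀ x) (hy : RMild S L Φ a b x₀ y) : ∀ t ∈ Icc a b, x t = y t := by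
  obtain ⟨R, hR0, hR⟩ := hx.bdd
  obtain ⟨R', hR0', hR'⟩ := hy.bdd
  have hM := hΦ.M0
  have hC := hk.C0
  set B := C * (M * (1 + R + R')) with hB
  have hB0 : 0 ≤ B := by positivity
  obtain ⟨μ, _, hg⟩ := kth_gron hk.th0 hk.th1 hB0
  have key := hg a b 0 (fun t => ‖x t - y t‖) le_rfl (hx.cont.sub hy.cont).norm
    (fun t _ => norm_nonneg _) (fun t ht => by
      have hfx := hΦ.cont_comp hx.cont
      have hfy := hΦ.cont_comp hy.cont
      have h1 : x t - y t = ∫ r in a..t, L (t - r) (Φ r (x r) - Φ r (y r)) := by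
        rw [hx.eq t ht, hy.eq t ht]
        simp only [map_sub]
        rw [intervalIntegral.integral_sub (hk.int_aux hfx ht ⟨le_rfl, ht.1⟩)
          (hk.int_aux hfy ht ⟨le_rfl, ht.1⟩)]
        abel
      have h2 := hk.duh_norm (hfx.sub hfy) ht (c := a) ⟨le_rfl, ht.1⟩
      rw [zero_add]
      show ‖x t - y t‖ ≤ _
      rw [h1]
      refine h2.trans ?_
      rw [hB, mul_assoc C]
      refine mul_le_mul_of_nonneg_left ?_ hC
      rw [← intervalIntegral.integral_const_mul]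
      have hsub : Icc a t ⊆ Icc a b := Icc_subset_Icc le_rfl ht.2
      have e1 : ContinuousOn (fun r => ‖Φ r (x r) - Φ r (y r)‖) (uIcc a t) := by
        rw [uIcc_of_le ht.1]; exact ((hfx.sub hfy).mono hsub).norm
      have e2 : ContinuousOn (fun r => ‖x r - y r‖) (uIcc a t) := by
        rw [uIcc_of_le ht.1]; exact ((hx.cont.sub hy.cont).mono hsub).norm
      refine intervalIntegral.integral_mono_on ht.1
        ((kth_int' hk.th1 t a t).mul_continuousOn e1)
        (((kth_int' hk.th1 t a t).mul_continuousOn e2).const_mul _) fun r hr => ?_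
      have hr' := hsub hr
      have h3 := hΦ.lip r hr' (x r) (y r)
      have h4 : M * (1 + ‖x r‖ + ‖y r‖) * ‖x r - y r‖ ≤ M * (1 + R + R') * ‖x r - y r‖ := by
        have := hR r hr'
        have := hR' r hr'
        gcongr
      calc kth θ (t - r) * ‖Φ r (x r) - Φ r (y r)‖
          ≤ kth θ (t - r) * (M * (1 + R + R') * ‖x r - y r‖) :=
            mul_le_mul_of_nonneg_left (h3.trans h4) (kth_nonneg θ (sub_nonneg.2 hr.2))
        _ = M * (1 + R + R') * (kth θ (t - r) * ‖x r - y r‖) := by ring)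
  intro t ht
  have h5 := key t ht
  simp only [mul_zero, zero_mul] at h5
  exact sub_eq_zero.1 (norm_le_zero_iff.1 h5)

/-- the fixed point map -/
theorem RKer.local_aux (hk : RKer S L C θ) {M R h : ℝ} (hR : 0 ≤ R)
    (hsm : ∀ T, 0 ≤ T → T ≤ h → ∫ τ in (0:ℝ)..T, kth θ τ ≤ 1 / (2 * (C * M * (2 * R + 4) ^ 2 + 1)))
    {a b : ℝ} (hab : a ≤ b) (hbh : b ≤ a + h) (hΦ : RNl Φ M a b) (x₀ : X)
    (hx₀ : ‖x₀‖ ≤ R) : ∃ x, RMild S L Φ a b x₀ x ∧ ∀ t ∈ Icc a b, ‖x t‖ ≤ R + 1 := by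
  have hM := hΦ.M0
  have hC := hk.C0
  set I := Icc a b with hI
  have : Nonempty I := ⟨⟨a, le_rfl, hab⟩⟩
  -- extension of a continuous function
  let ext : C(I, X) → ℝ → X := fun u => IccExtend hab u
  have hext : ∀ u : C(I, X), Continuous (ext u) := fun u => u.continuous.Icc_extend'
  have hext' : ∀ (u : C(I, X)) (t : ℝ) (ht : t ∈ I), ext u t = u ⟨t, ht⟩ :=
    fun u t ht => IccExtend_of_mem hab u ht
  let f : C(I, X) → ℝ → Y := fun u r => Φ r (ext u r)
  have hf : ∀ u, ContinuousOn (f u) (Icc a b) := fun u => hΦ.cont_comp (hext u).continuousOn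
  let G : C(I, X) → C(I, X) := fun u =>
    ⟨fun t => S (t.1 - a) x₀ + rduh L a (f u) t.1, by
      have h1 : ContinuousOn (fun t => S (t - a) x₀ + rduh L a (f u) t) (Icc a b) :=
        (((hk.scont x₀).comp (continuous_id.sub continuous_const)).continuousOn).add
          (hk.duh_cont (hf u))
      exact continuousOn_iff_continuous_domRestrict.1 h1⟩
  have hbd : ∀ (u : C(I, X)), ‖u‖ ≤ R + 1 → ∀ r ∈ I, ‖f u r‖ ≤ M * (2 * R + 4) ^ 2 := by
    intro u hu r hr
    refine (hΦ.bound hr _).trans ?_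
    rw [hext' u r hr]
    have h0 := (u.norm_coe_le_norm ⟨r, hr⟩).trans hu
    have h1 : 1 + ‖u ⟨r, hr⟩‖ ≤ 2 * R + 4 := by linarith
    exact mul_le_mul_of_nonneg_left (pow_le_pow_left₀ (by positivity) h1 2) hM
  have hkint : ∀ t ∈ I, 0 ≤ ∫ τ in (0:ℝ)..(t - a), kth θ τ := fun t ht =>
    intervalIntegral.integral_nonneg (sub_nonneg.2 ht.1) fun τ hτ => kth_nonneg θ hτ.1
  set D := C * M * (2 * R + 4) ^ 2 with hD
  have hD0 : 0 ≤ D := by positivity
  have hmaps : MapsTo G (Metric.closedBall 0 (R + 1)) (Metric.closedBall 0 (R + 1)) := by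
    intro u hu
    rw [mem_closedBall_zero_iff] at hu ⊢
    refine (ContinuousMap.norm_le _ (by linarith)).2 fun t => ?_
    have h1 := hk.duh_norm_le (hf u) t.2 (c := a) ⟨le_rfl, t.2.1⟩
      (fun r hr => hbd u hu r ⟨hr.1, hr.2.trans t.2.2⟩)
    have h2 := hsm (t.1 - a) (sub_nonneg.2 t.2.1) (by linarith [t.2.2])
    have h3 : C * (M * (2 * R + 4) ^ 2) * ∫ τ in (0:ℝ)..(t.1 - a), kth θ τ ≤ 1 := by
      calc C * (M * (2 * R + 4) ^ 2) * ∫ τ in (0:ℝ)..(t.1 - a), kth θ τ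
          ≤ (D + 1) * (1 / (2 * (D + 1))) := by
            refine mul_le_mul ?_ h2 (hkint t.1 t.2) (by positivity)
            rw [hD]; linarith
        _ ≤ 1 := by field_simp; norm_num
    show ‖S (t.1 - a) x₀ + rduh L a (f u) t.1‖ ≤ R + 1
    refine (norm_add_le _ _).trans ?_
    have h4 := (hk.sb (t.1 - a) (sub_nonneg.2 t.2.1) x₀).trans hx₀
    have h5 : ‖rduh L a (f u) t.1‖ ≤ 1 := h1.trans h3
    linarith
  have hlip : ∀ u ∈ Metric.closedBall (0 : C(I, X)) (R + 1),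
      ∀ v ∈ Metric.closedBall (0 : C(I, X)) (R + 1), dist (G u) (G v) ≤ (1 / 2 : ℝ) * dist u v := by
    intro u hu v hv
    rw [mem_closedBall_zero_iff] at hu hv
    rw [dist_eq_norm, dist_eq_norm]
    refine (ContinuousMap.norm_le _ (by positivity)).2 fun t => ?_
    have e1 : (G u - G v) t = ∫ r in a..t.1, L (t.1 - r) (f u r - f v r) := by
      show (S (t.1 - a) x₀ + rduh L a (f u) t.1) - (S (t.1 - a) x₀ + rduh L a (f v) t.1) = _
      simp only [map_sub]
      rw [intervalIntegral.integral_sub (hk.int_aux (hf u) t.2 ⟨le_rfl, t.2.1⟩)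
        (hk.int_aux (hf v) t.2 ⟨le_rfl, t.2.1⟩)]
      unfold rduh; abel
    have h1 : ∀ r ∈ Icc a t.1, ‖f u r - f v r‖ ≤ M * (2 * R + 4) ^ 2 * ‖u - v‖ := by
      intro r hr
      have hr' : r ∈ I := ⟨hr.1, hr.2.trans t.2.2⟩
      refine (hΦ.lip r hr' _ _).trans ?_
      rw [hext' u r hr', hext' v r hr']
      have h2 := (u.norm_coe_le_norm ⟨r, hr'⟩).trans hu
      have h3 := (v.norm_coe_le_norm ⟨r, hr'⟩).trans hv
      have h4 : ‖u ⟨r, hr'⟩ - v ⟨r, hr'⟩‖ ≤ ‖u - v‖ := (u - v).norm_coe_le_norm ⟨r, hr'⟩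
      have h5 : 1 + ‖u ⟨r, hr'⟩‖ + ‖v ⟨r, hr'⟩‖ ≤ (2 * R + 4) ^ 2 := by nlinarith
      gcongr
    rw [e1]
    refine (hk.duh_norm_le ((hf u).sub (hf v)) t.2 (c := a) ⟨le_rfl, t.2.1⟩ h1).trans ?_
    have h2 := hsm (t.1 - a) (sub_nonneg.2 t.2.1) (by linarith [t.2.2])
    have h6 : C * (M * (2 * R + 4) ^ 2) * (∫ τ in (0:ℝ)..(t.1 - a), kth θ τ) ≤ 1 / 2 := by
      calc C * (M * (2 * R + 4) ^ 2) * ∫ τ in (0:ℝ)..(t.1 - a), kth θ τ
          ≤ (D + 1) * (1 / (2 * (D + 1))) := by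
            refine mul_le_mul ?_ h2 (hkint t.1 t.2) (by positivity)
            rw [hD]; linarith
        _ = 1 / 2 := by field_simp
    calc C * (M * (2 * R + 4) ^ 2 * ‖u - v‖) * ∫ τ in (0:ℝ)..(t.1 - a), kth θ τ
        = (C * (M * (2 * R + 4) ^ 2) * ∫ τ in (0:ℝ)..(t.1 - a), kth θ τ) * ‖u - v‖ := by ring
      _ ≤ 1 / 2 * ‖u - v‖ := by gcongr
  have hcon : ContractingWith (1 / 2 : NNReal) (hmaps.restrict G _ _) := by
    refine ⟨by rw [← NNReal.coe_lt_coe]; norm_num, ?_⟩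
    refine LipschitzWith.of_dist_le_mul fun u v => ?_
    have := hlip u.1 u.2 v.1 v.2
    show dist (G u.1) (G v.1) ≤ ((1 / 2 : NNReal) : ℝ) * dist u.1 v.1
    simpa using this
  obtain ⟨u, hu, hfix, -⟩ := ContractingWith.exists_fixedPoint' Metric.isClosed_closedBall.isComplete
    hmaps hcon (x := 0) (Metric.mem_closedBall_self (by linarith)) (edist_ne_top _ _)
  refine ⟨ext u, ⟨(hext u).continuousOn, fun t ht => ?_⟩, fun t ht => ?_⟩
  · have h1 : G u = u := hfix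
    have h2 : (G u) ⟨t, ht⟩ = ext u t := by rw [h1, hext' u t ht]
    exact h2.symm
  · rw [hext' u t ht]
    rw [mem_closedBall_zero_iff] at hu
    exact (u.norm_coe_le_norm _).trans hu

/-- local existence with a uniform step -/
theorem RKer.local (hk : RKer S L C θ) {M R : ℝ} (hM : 0 ≤ M) (hR : 0 ≤ R) : ∃ h > 0, ∀ {Φ : ℝ → X → Y}
    {a b : ℝ}, a ≤ b → b ≤ a + h → RNl Φ M a b → ∀ x₀ : X, ‖x₀‖ ≤ R →
    ∃ x, RMild S L Φ a b x₀ x ∧ ∀ t ∈ Icc a b, ‖x t‖ ≤ R + 1 := by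
  have hC := hk.C0
  obtain ⟨h, hh, _, hsm⟩ := kth_small hk.th1
    (show 0 < 1 / (2 * (C * M * (2 * R + 4) ^ 2 + 1)) by positivity)
  exact ⟨h, hh, fun hab hbh hΦ x₀ hx₀ => hk.local_aux hR hsm hab hbh hΦ x₀ hx₀⟩

/-- global existence from an a priori bound -/
theorem RKer.global (hk : RKer S L C θ) {M a b R : ℝ} (hab : a ≤ b) (hΦ : RNl Φ M a b) (x₀ : X)
    (hap : ∀ c ∈ Icc a b, ∀ x, RMild S L Φ a c x₀ x → ‖x c‖ ≤ R) :
    ∃ x, RMild S L Φ a b x₀ x := by
  obtain ⟨h, hh, hloc⟩ := hk.local hΦ.M0 (abs_nonneg R)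
  have hx₀ : ∀ c ∈ Icc a b, ∀ x, RMild S L Φ a c x₀ x → ‖x c‖ ≤ |R| :=
    fun c hc x hx => (hap c hc x hx).trans (le_abs_self R)
  have key : ∀ n : ℕ, ∃ x, RMild S L Φ a (min b (a + n * h)) x₀ x := by
    intro n
    induction n with
    | zero =>
      have e : min b (a + ((0 : ℕ) : ℝ) * h) = a := by simp [hab]
      rw [e]
      refine ⟨fun _ => x₀, continuousOn_const, fun t ht => ?_⟩
      have : t = a := le_antisymm ht.2 ht.1
      subst this
      rw [intervalIntegral.integral_same, sub_self, hk.s0, add_zero]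
    | succ n ih =>
      obtain ⟨x, hx⟩ := ih
      set c := min b (a + n * h) with hc
      set d := min b (a + ((n + 1 : ℕ) : ℝ) * h) with hd
      have hn : (0:ℝ) ≤ n * h := by positivity
      have hac : a ≤ c := le_min hab (by linarith)
      have hcb : c ≤ b := min_le_left _ _
      have hdb : d ≤ b := min_le_left _ _
      have hcd : c ≤ d := by
        refine min_le_min le_rfl ?_
        push_cast; nlinarith
      have hdc : d ≤ c + h := by
        rcases le_total b (a + n * h) with h1 | h1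
        · have : c = b := min_eq_left h1
          rw [this]; linarith
        · have h2 : c = a + n * h := min_eq_right h1
          have h3 : d ≤ a + ((n + 1 : ℕ) : ℝ) * h := min_le_right _ _
          push_cast at h3
          rw [h2]; linarith
      obtain ⟨y, hy, -⟩ := hloc (Φ := Φ) hcd hdc (hΦ.mono hac hdb) (x c) (hx₀ c ⟨hac, hcb⟩ x hx)
      exact ⟨_, RMild.glue hk (hΦ.mono le_rfl hdb) hac hcd hx hy⟩
  obtain ⟨n, hn⟩ := exists_nat_ge ((b - a) / h)
  obtain ⟨x, hx⟩ := key n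
  have e : min b (a + n * h) = b := by
    apply min_eq_left
    rw [div_le_iff₀ hh] at hn
    linarith
  rw [e] at hx
  exact ⟨x, hx⟩

end Abs

end Pool.Agent.Lib.MP_79abb3_an.W
end

section

/-!
Theorem W (MP_79abb3_an), block A3: diagonal operators.
-/

set_option autoImplicit false
set_option linter.unusedSectionVars false

open MeasureTheory Set Filter Topology
open scoped InnerProductSpace

namespace Pool.Agent.Lib.MP_79abb3_an.W

section
variable {I X Y Z : Type} [NormedAddCommGroup X] [InnerProductSpace ℝ X] [CompleteSpace X]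
  [NormedAddCommGroup Y] [InnerProductSpace ℝ Y] [CompleteSpace Y]
  [NormedAddCommGroup Z] [InnerProductSpace ℝ Z] [CompleteSpace Z]
variable {b : HilbertBasis I ℝ X} {c : HilbertBasis I ℝ Y} {d : HilbertBasis I ℝ Z} {m n : I → ℝ} {C : ℝ}

private theorem a3d_norm {x : X} {y : Y} (hC : ∀ i, |m i| ≤ C) (h0 : 0 ≤ C)
    (h : ∀ i, ⟪c i, y⟫_ℝ = m i * ⟪b i, x⟫_ℝ) : ‖y‖ ≤ C * ‖x‖ := by
  have h1 := hb_norm_sq c y
  have h2 := (hb_norm_sq b x).mul_left (C ^ 2)
  have h3 : ‖y‖ ^ 2 ≤ C ^ 2 * ‖x‖ ^ 2 := by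
    refine hasSum_le (fun i => ?_) h1 h2
    rw [h i, mul_pow]
    exact mul_le_mul_of_nonneg_right (sq_le_sq' (abs_le.mp (hC i)).1 (abs_le.mp (hC i)).2)
      (sq_nonneg _)
  rw [← mul_pow] at h3
  exact le_of_sq_le_sq h3 (mul_nonneg h0 (norm_nonneg _))

/-- Proof. `T x = c.repr.symm (m_i ⟪b_i, x⟫)_i`; in `ℓ²` by comparison with `C ⟪b_i, x⟫`; linear; `LinearMap.mkContinuous`,
norms by `hb_norm_sq`. -/
theorem exists_dgl (b : HilbertBasis I ℝ X) (c : HilbertBasis I ℝ Y) (hC : ∀ i, |m i| ≤ C) :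
    ∃ T : X →L[ℝ] Y, ∀ x i, ⟪c i, T x⟫_ℝ = m i * ⟪b i, x⟫_ℝ := by
  have hC' : ∀ i, |m i| ≤ |C| := fun i => (hC i).trans (le_abs_self C)
  have h0 : ∀ x : X, Memℓp (fun i => m i * ⟪b i, x⟫_ℝ) 2 := by
    intro x
    rw [memℓp_gen_iff (by norm_num)]
    refine Summable.of_nonneg_of_le (fun i => by positivity) (fun i => ?_)
      ((hb_norm_sq b x).summable.mul_left (|C| ^ 2))
    simp only [ENNReal.toReal_ofNat, Real.rpow_two, Real.norm_eq_abs, sq_abs, mul_pow]
    refine mul_le_mul_of_nonneg_right ?_ (sq_nonneg _)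
    rw [← sq_abs C, ← sq_abs (m i)]
    rw [sq_abs C, ← sq_abs C]
    exact pow_le_pow_left₀ (abs_nonneg _) (hC' i) 2
  have hco : ∀ x i, ⟪c i, c.repr.symm ⟨fun i => m i * ⟪b i, x⟫_ℝ, h0 x⟩⟫_ℝ = m i * ⟪b i, x⟫_ℝ := by
    intro x i
    rw [← HilbertBasis.repr_apply_apply, LinearIsometryEquiv.apply_symm_apply]
  let T : X →ₗ[ℝ] Y :=
    { toFun := fun x => c.repr.symm ⟨fun i => m i * ⟪b i, x⟫_ℝ, h0 x⟩
      map_add' := fun x y => hb_ext c fun i => by
        rw [inner_add_right, hco, hco, hco, inner_add_right]; ring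
      map_smul' := fun a x => hb_ext c fun i => by
        rw [RingHom.id_apply, inner_smul_right, hco, hco, inner_smul_right]; ring }
  exact ⟨T.mkContinuous |C| fun x => a3d_norm hC' (abs_nonneg C) (hco x), fun x i => hco x i⟩

theorem dgl_coord (hC : ∀ i, |m i| ≤ C) (x : X) (i : I) :
    ⟪c i, dgl b c m x⟫_ℝ = m i * ⟪b i, x⟫_ℝ := by
  classical
  have h := exists_dgl b c hC
  rw [dgl, dif_pos h]
  exact h.choose_spec x i

theorem dgl_norm (hC : ∀ i, |m i| ≤ C) (h0 : 0 ≤ C) (x : X) : ‖dgl b c m x‖ ≤ C * ‖x‖ :=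
  a3d_norm hC h0 (dgl_coord hC x)

/-- Composition. -/
theorem dgl_comp {C' : ℝ} (hC : ∀ i, |m i| ≤ C) (hC' : ∀ i, |n i| ≤ C') (x : X) :
    dgl c d n (dgl b c m x) = dgl b d (fun i => n i * m i) x := by
  refine hb_ext d fun i => ?_
  have h1 : ∀ i, |n i * m i| ≤ C' * C := fun i => by
    rw [abs_mul]
    exact mul_le_mul (hC' i) (hC i) (abs_nonneg _) ((abs_nonneg _).trans (hC' i))
  rw [dgl_coord hC', dgl_coord hC, dgl_coord h1]
  ring

theorem dgl_one (x : X) (h : ∀ i, m i = 1) : dgl b b m x = x := by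
  have h1 : ∀ i, |m i| ≤ 1 := fun i => by rw [h i]; simp
  refine hb_ext b fun i => ?_
  rw [dgl_coord h1, h i, one_mul]

end

end Pool.Agent.Lib.MP_79abb3_an.W
end

section

/-!
Theorem W (MP_79abb3_an), block A3: diagonal operators, strong continuity.
-/

set_option autoImplicit false
set_option linter.unusedSectionVars false

open MeasureTheory Set Filter Topology
open scoped InnerProductSpace

namespace Pool.Agent.Lib.MP_79abb3_an.W

section
variable {I X Y Z : Type} [NormedAddCommGroup X] [InnerProductSpace ℝ X] [CompleteSpace X]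
  [NormedAddCommGroup Y] [InnerProductSpace ℝ Y] [CompleteSpace Y]
  [NormedAddCommGroup Z] [InnerProductSpace ℝ Z] [CompleteSpace Z]
variable {b : HilbertBasis I ℝ X} {c : HilbertBasis I ℝ Y} {d : HilbertBasis I ℝ Z} {m n : I → ℝ} {C : ℝ}

/-- Strong continuity in a parameter. Proof. `‖T_t x - T_s x‖² = ∑ (m_t i - m_s i)² ⟪b_i, x⟫²`, dominated by
`4 C² ⟪b_i, x⟫²` (`tendsto_tsum_of_dominated_convergence`). -/
theorem dgl_cont {T : Type} [TopologicalSpace T] {m : T → I → ℝ} (hC : ∀ t i, |m t i| ≤ C)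
    (hm : ∀ i, Continuous fun t => m t i) (x : X) : Continuous fun t => dgl b c (m t) x := by
  rw [continuous_iff_continuousAt]
  intro t
  have hsum : Summable fun i => (2 * C) ^ 2 * ⟪b i, x⟫_ℝ ^ 2 :=
    (hb_norm_sq b x).summable.mul_left _
  have hn : ∀ s, ‖dgl b c (m s) x - dgl b c (m t) x‖ ^ 2
      = ∑' i, (m s i - m t i) ^ 2 * ⟪b i, x⟫_ℝ ^ 2 := by
    intro s
    rw [← (hb_norm_sq c (dgl b c (m s) x - dgl b c (m t) x)).tsum_eq]
    congr 1
    funext i
    rw [inner_sub_right, dgl_coord (hC s), dgl_coord (hC t)]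
    ring
  have hlim : Tendsto (fun s => ∑' i, (m s i - m t i) ^ 2 * ⟪b i, x⟫_ℝ ^ 2) (𝓝 t)
      (𝓝 (∑' i, (0 : ℝ) * ⟪b i, x⟫_ℝ ^ 2)) := by
    refine tendsto_tsum_of_dominated_convergence hsum (fun i => ?_)
      (Eventually.of_forall fun s i => ?_)
    · refine Tendsto.mul_const _ ?_
      have h1 : Tendsto (fun s => m s i - m t i) (𝓝 t) (𝓝 (m t i - m t i)) :=
        ((hm i).tendsto t).sub_const _
      rw [sub_self] at h1
      have h2 := h1.pow 2
      rwa [zero_pow two_ne_zero] at h2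
    · rw [Real.norm_of_nonneg (mul_nonneg (sq_nonneg _) (sq_nonneg _))]
      refine mul_le_mul_of_nonneg_right ?_ (sq_nonneg _)
      have h1 := abs_le.mp (hC s i)
      have h2 := abs_le.mp (hC t i)
      exact sq_le_sq' (by linarith [h1.1, h2.2]) (by linarith [h1.2, h2.1])
  have h0 : ∑' i, (0 : ℝ) * ⟪b i, x⟫_ℝ ^ 2 = 0 := by
    simp
  rw [h0] at hlim
  rw [ContinuousAt, tendsto_iff_norm_sub_tendsto_zero]
  have h3 := (Real.continuous_sqrt.tendsto 0).comp hlim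
  rw [Real.sqrt_zero] at h3
  refine h3.congr fun s => ?_
  show √(∑' i, (m s i - m t i) ^ 2 * ⟪b i, x⟫_ℝ ^ 2) = _
  rw [← hn s, Real.sqrt_sq (norm_nonneg _)]

end

end Pool.Agent.Lib.MP_79abb3_an.W
end

section

/-!
Theorem W (MP_79abb3_an), block A3: the semigroup `exp (-t A)` on `V` and from `H` to `V`.
-/

set_option autoImplicit false
set_option linter.unusedSectionVars false

open MeasureTheory Set Filter Topology
open scoped InnerProductSpace

namespace Pool.Agent.Lib.MP_79abb3_an.W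

open Pool.Agent.Lib.MP_79abb3_an.SC

section
variable {H V : Type} [NormedAddCommGroup H] [InnerProductSpace ℝ H] [CompleteSpace H]
  [NormedAddCommGroup V] [InnerProductSpace ℝ V] [CompleteSpace V] {ι : V →L[ℝ] H}

/-- `exp (-t A)` on `V` (the identity for `t ≤ 0`). -/
noncomputable def EBasis.sv (E : EBasis ι) (h : IsTri ι) (t : ℝ) : V →L[ℝ] V :=
  dgl (E.c h) (E.c h) (fun i => Real.exp (-(max t 0 * E.lam i)))

/-- `exp (-t A)` from `H` to `V`, `t > 0`. -/
noncomputable def EBasis.lv (E : EBasis ι) (h : IsTri ι) (t : ℝ) : H →L[ℝ] V :=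
  dgl E.b (E.c h) (fun i => √(E.lam i) * Real.exp (-(t * E.lam i)))

private theorem EBasis.sv_bd_aux (E : EBasis ι) (t : ℝ) (i : E.I) :
    |Real.exp (-(max t 0 * E.lam i))| ≤ 1 := by
  rw [abs_of_pos (Real.exp_pos _), Real.exp_le_one_iff, neg_nonpos]
  exact mul_nonneg (le_max_right _ _) (E.pos i).le

private theorem EBasis.lv_bd_aux (E : EBasis ι) {t : ℝ} (ht : 0 < t) (i : E.I) :
    |√(E.lam i) * Real.exp (-(t * E.lam i))| ≤ (√t)⁻¹ := by
  have hl := (E.pos i).le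
  rw [abs_of_nonneg (mul_nonneg (Real.sqrt_nonneg _) (Real.exp_pos _).le),
    ← one_div, le_div_iff₀ (Real.sqrt_pos.mpr ht)]
  have h1 : √(t * E.lam i) ≤ Real.exp (t * E.lam i) := by
    have h2 : 0 ≤ t * E.lam i := mul_nonneg ht.le hl
    have h3 : √(t * E.lam i) ≤ t * E.lam i + 1 := by
      rw [Real.sqrt_le_left (by linarith)]
      nlinarith
    exact h3.trans (Real.add_one_le_exp _)
  rw [Real.sqrt_mul ht.le] at h1
  calc √(E.lam i) * Real.exp (-(t * E.lam i)) * √t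
      = (√t * √(E.lam i)) * Real.exp (-(t * E.lam i)) := by ring
    _ ≤ Real.exp (t * E.lam i) * Real.exp (-(t * E.lam i)) :=
        mul_le_mul_of_nonneg_right h1 (Real.exp_pos _).le
    _ = 1 := by rw [← Real.exp_add, add_neg_cancel, Real.exp_zero]

theorem EBasis.sv_coord (E : EBasis ι) (h : IsTri ι) {t : ℝ} (ht : 0 ≤ t) (v : V) (i : E.I) :
    ⟪E.b i, ι (E.sv h t v)⟫_ℝ = Real.exp (-(t * E.lam i)) * ⟪E.b i, ι v⟫_ℝ := by
  have h1 : ⟪E.c h i, E.sv h t v⟫_ℝ = Real.exp (-(max t 0 * E.lam i)) * ⟪E.c h i, v⟫_ℝ :=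
    dgl_coord (E.sv_bd_aux t) v i
  rw [E.inner_c, E.inner_c, max_eq_left ht] at h1
  refine mul_left_cancel₀ (Real.sqrt_pos.mpr (E.pos i)).ne' ?_
  rw [h1]
  ring

/-- Boundedness of the multiplier: `sqrt_mul_exp_le` (`SC/LaSG.lean`), or `x e^{-x} ≤ 1`. -/
theorem EBasis.lv_coord (E : EBasis ι) (h : IsTri ι) {t : ℝ} (ht : 0 < t) (x : H) (i : E.I) :
    ⟪E.b i, ι (E.lv h t x)⟫_ℝ = Real.exp (-(t * E.lam i)) * ⟪E.b i, x⟫_ℝ := by
  have h1 : ⟪E.c h i, E.lv h t x⟫_ℝ = √(E.lam i) * Real.exp (-(t * E.lam i)) * ⟪E.b i, x⟫_ℝ :=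
    dgl_coord (E.lv_bd_aux ht) x i
  rw [E.inner_c] at h1
  refine mul_left_cancel₀ (Real.sqrt_pos.mpr (E.pos i)).ne' ?_
  rw [h1]
  ring

theorem EBasis.lv_norm (E : EBasis ι) (h : IsTri ι) {t : ℝ} (ht : 0 < t) (x : H) :
    ‖E.lv h t x‖ ≤ (√t)⁻¹ * ‖x‖ :=
  dgl_norm (E.lv_bd_aux ht) (inv_nonneg.mpr (Real.sqrt_nonneg _)) x

/-- The kernel of the triple with viscosity `ν`. Proof. `dgl_norm`, `dgl_comp`, `dgl_cont`, `dgl_one`;
`(√(ν t))⁻¹ ≤ (√ν)⁻¹ kth (1/2) t`. -/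
theorem EBasis.rker (E : EBasis ι) (h : IsTri ι) {ν : ℝ} (hν : 0 < ν) :
    RKer (fun t => E.sv h (ν * t)) (fun t => E.lv h (ν * t)) (√ν)⁻¹ (1 / 2) where
  C0 := inv_nonneg.mpr (Real.sqrt_nonneg _)
  th0 := by norm_num
  th1 := by norm_num
  s0 x := by
    refine dgl_one x fun i => ?_
    simp
  sadd s t hs ht x := by
    show dgl (E.c h) (E.c h) _ x = dgl (E.c h) (E.c h) _ (dgl (E.c h) (E.c h) _ x)
    rw [dgl_comp (E.sv_bd_aux _) (E.sv_bd_aux _)]
    congr 2
    funext i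
    have h1 : 0 ≤ ν * s := mul_nonneg hν.le hs
    have h2 : 0 ≤ ν * t := mul_nonneg hν.le ht
    have h3 : 0 ≤ ν * (s + t) := mul_nonneg hν.le (add_nonneg hs ht)
    rw [max_eq_left h1, max_eq_left h2, max_eq_left h3, ← Real.exp_add]
    congr 1
    ring
  scont x := by
    refine dgl_cont (C := 1) (m := fun t i => Real.exp (-(max (ν * t) 0 * E.lam i)))
      (fun t => E.sv_bd_aux _) (fun i => ?_) x
    fun_prop
  sb t _ x := by
    have h1 := dgl_norm (b := E.c h) (c := E.c h) (E.sv_bd_aux (ν * t)) zero_le_one x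
    rw [one_mul] at h1
    exact h1
  ls s t hs ht y := by
    show dgl E.b (E.c h) _ y = dgl (E.c h) (E.c h) _ (dgl E.b (E.c h) _ y)
    have h2 : 0 < ν * t := mul_pos hν ht
    rw [dgl_comp (E.lv_bd_aux h2) (E.sv_bd_aux _)]
    congr 2
    funext i
    have h1 : 0 ≤ ν * s := mul_nonneg hν.le hs
    rw [max_eq_left h1, mul_left_comm, ← Real.exp_add]
    congr 2
    ring
  lb t ht y := by
    have h2 : 0 < ν * t := mul_pos hν ht
    refine (E.lv_norm h h2 y).trans ?_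
    refine mul_le_mul_of_nonneg_right ?_ (norm_nonneg y)
    rw [Real.sqrt_mul hν.le, mul_inv]
    refine mul_le_mul_of_nonneg_left ?_ (inv_nonneg.mpr (Real.sqrt_nonneg _))
    unfold kth
    rw [Real.rpow_neg ht.le, ← Real.sqrt_eq_rpow]
    linarith

end

end Pool.Agent.Lib.MP_79abb3_an.W
end
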