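import Mathlib

/-!
Theorem W (MP_79abb3_an), block A3: the scalar equation.
-/

set_option autoImplicit false
set_option linter.unusedSectionVars false

open MeasureTheory Set Filter Topology
open scoped InnerProductSpace

namespace Pool.Agent.Lib.MP_79abb3_an.W

/-- The scalar equation. Proof. `y` has the derivative `-κ y + g` on `[a, b]` (write
`y t = exp (-κ (t-a)) (y₀ + ∫_a^t exp (κ (r-a)) g r dr)`, fundamental theorem for continuous `g` on `[a, b]`: extend `g` by
`IccExtend`); integrate. -/
theorem scalar_tst {κ a b y₀ : ℝ} {y g : ℝ → ℝ} (hg : ContinuousOn g (Icc a b))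
    (hy : ∀ t ∈ Icc a b, y t = Real.exp (-(κ * (t - a))) * y₀ +
      ∫ r in a..t, Real.exp (-(κ * (t - r))) * g r) {s t : ℝ} (hs : a ≤ s) (hst : s ≤ t) (ht : t ≤ b) :
    y t - y s = ∫ r in s..t, (-(κ * y r) + g r) := by
  have hab : a ≤ b := hs.trans (hst.trans ht)
  have hgc : Continuous fun r => g (max a (min r b)) := by
    refine hg.comp_continuous (by fun_prop) fun r => ?_
    exact ⟨le_max_left _ _, max_le hab (min_le_right _ _)⟩
  have hgr : ∀ r ∈ Icc a b, g (max a (min r b)) = g r := by
    intro r hr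
    rw [min_eq_left hr.2, max_eq_right hr.1]
  have hec : Continuous fun r => Real.exp (κ * (r - a)) * g (max a (min r b)) := by
    have h0 : Continuous fun r => Real.exp (κ * (r - a)) := by fun_prop
    exact h0.mul hgc
  have hz : ∀ t ∈ Icc a b, y t = Real.exp (-(κ * (t - a))) *
      (y₀ + ∫ r in a..t, Real.exp (κ * (r - a)) * g (max a (min r b))) := by
    intro t ht
    rw [hy t ht, mul_add, ← intervalIntegral.integral_const_mul]
    congr 1
    apply intervalIntegral.integral_congr
    intro r hr
    rw [uIcc_of_le ht.1] at hr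
    show Real.exp (-(κ * (t - r))) * g r = Real.exp (-(κ * (t - a))) *
      (Real.exp (κ * (r - a)) * g (max a (min r b)))
    rw [hgr r ⟨hr.1, hr.2.trans ht.2⟩, ← mul_assoc, ← Real.exp_add]
    congr 2
    ring
  have hd : ∀ t : ℝ, HasDerivAt (fun t => Real.exp (-(κ * (t - a))) *
      (y₀ + ∫ r in a..t, Real.exp (κ * (r - a)) * g (max a (min r b))))
      (-(κ * (Real.exp (-(κ * (t - a))) *
      (y₀ + ∫ r in a..t, Real.exp (κ * (r - a)) * g (max a (min r b))))) +
        g (max a (min t b))) t := by
    intro t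
    have h1 : HasDerivAt (fun t : ℝ => ∫ r in a..t, Real.exp (κ * (r - a)) * g (max a (min r b)))
        (Real.exp (κ * (t - a)) * g (max a (min t b))) t :=
      (hec.integral_hasStrictDerivAt a t).hasDerivAt
    have h2 : HasDerivAt (fun t : ℝ => Real.exp (-(κ * (t - a))))
        (Real.exp (-(κ * (t - a))) * (-(κ * 1))) t :=
      (((hasDerivAt_id t).sub_const a).const_mul κ).fun_neg.exp
    have h3 := h2.fun_mul (h1.const_add y₀)
    refine h3.congr_deriv ?_
    have h4 : Real.exp (-(κ * (t - a))) * (Real.exp (κ * (t - a)) * g (max a (min t b)))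
        = g (max a (min t b)) := by
      rw [← mul_assoc, ← Real.exp_add, neg_add_cancel, Real.exp_zero, one_mul]
    rw [h4]
    ring
  have hcont : Continuous fun t => (-(κ * (Real.exp (-(κ * (t - a))) *
      (y₀ + ∫ r in a..t, Real.exp (κ * (r - a)) * g (max a (min r b))))) +
        g (max a (min t b))) := by
    have h5 : Continuous fun t => Real.exp (-(κ * (t - a))) *
      (y₀ + ∫ r in a..t, Real.exp (κ * (r - a)) * g (max a (min r b))) :=
      continuous_iff_continuousAt.mpr fun t => (hd t).continuousAt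
    exact (continuous_const.mul h5).neg.add hgc
  have h6 := intervalIntegral.integral_eq_sub_of_hasDerivAt (a := s) (b := t)
    (fun r _ => hd r) (hcont.intervalIntegrable s t)
  rw [hz t ⟨hs.trans hst, ht⟩, hz s ⟨hs, hst.trans ht⟩, ← h6]
  apply intervalIntegral.integral_congr
  intro r hr
  rw [uIcc_of_le hst] at hr
  have hr' : r ∈ Icc a b := ⟨hs.trans hr.1, hr.2.trans ht⟩
  show -(κ * (Real.exp (-(κ * (r - a))) *
      (y₀ + ∫ r in a..r, Real.exp (κ * (r - a)) * g (max a (min r b))))) +
        g (max a (min r b)) = -(κ * y r) + g r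
  rw [hz r hr', hgr r hr']

end Pool.Agent.Lib.MP_79abb3_an.W
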