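import Pool.Agent.Lib.MP_79abb3_an.W.A3Def

/-!
Theorem W (MP_79abb3_an), block A3: operations with tested solutions.
-/

set_option autoImplicit false
set_option linter.unusedSectionVars false

open MeasureTheory Set Filter Topology
open scoped InnerProductSpace

namespace Pool.Agent.Lib.MP_79abb3_an.W

section
variable {H V : Type} [NormedAddCommGroup H] [InnerProductSpace ℝ H] [CompleteSpace H]
  [NormedAddCommGroup V] [InnerProductSpace ℝ V] [CompleteSpace V] {ι : V →L[ℝ] H} {ν a b : ℝ}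
  {e d : ℝ → V} {G G' : ℝ → H}

private theorem a3g_cont (h : TstR ι ν a b e G) (p : V) :
    ContinuousOn (fun r => -(ν * ⟪e r, p⟫_ℝ) + ⟪G r, ι p⟫_ℝ) (Icc a b) :=
  ((h.cont.inner continuousOn_const).const_mul ν).neg.add (h.src.inner continuousOn_const)

private theorem a3g_int (h : TstR ι ν a b e G) (p : V) {s t : ℝ} (hs : a ≤ s) (hst : s ≤ t) (ht : t ≤ b) :
    IntervalIntegrable (fun r => -(ν * ⟪e r, p⟫_ℝ) + ⟪G r, ι p⟫_ℝ) volume s t := by
  refine ContinuousOn.intervalIntegrable ?_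
  rw [uIcc_of_le hst]
  exact (a3g_cont h p).mono (Icc_subset_Icc hs ht)

theorem TstR.mono (h : TstR ι ν a b e G) {c c' : ℝ} (h1 : a ≤ c) (h2 : c' ≤ b) : TstR ι ν c c' e G :=
  ⟨h.cont.mono (Icc_subset_Icc h1 h2), h.src.mono (Icc_subset_Icc h1 h2),
    fun p s t hs hst ht => h.eq p s t (h1.trans hs) hst (ht.trans h2)⟩

theorem TstR.add (h : TstR ι ν a b e G) (h' : TstR ι ν a b d G') :
    TstR ι ν a b (fun t => e t + d t) (fun t => G t + G' t) := by
  refine ⟨h.cont.add h'.cont, h.src.add h'.src, fun p s t hs hst ht => ?_⟩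
  have e1 := h.eq p s t hs hst ht
  have e2 := h'.eq p s t hs hst ht
  have e3 := intervalIntegral.integral_add (a3g_int h p hs hst ht) (a3g_int h' p hs hst ht)
  rw [← e1, ← e2] at e3
  rw [map_add, map_add, inner_add_left, inner_add_left]
  have e4 : (∫ r in s..t, (-(ν * ⟪e r + d r, p⟫_ℝ) + ⟪G r + G' r, ι p⟫_ℝ)) =
      ∫ r in s..t, ((-(ν * ⟪e r, p⟫_ℝ) + ⟪G r, ι p⟫_ℝ) + (-(ν * ⟪d r, p⟫_ℝ) + ⟪G' r, ι p⟫_ℝ)) := by
    refine intervalIntegral.integral_congr fun r _ => ?_
    simp only [inner_add_left]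
    ring
  rw [e4, e3]
  ring

theorem TstR.sub (h : TstR ι ν a b e G) (h' : TstR ι ν a b d G') :
    TstR ι ν a b (fun t => e t - d t) (fun t => G t - G' t) := by
  refine ⟨h.cont.sub h'.cont, h.src.sub h'.src, fun p s t hs hst ht => ?_⟩
  have e1 := h.eq p s t hs hst ht
  have e2 := h'.eq p s t hs hst ht
  have e3 := intervalIntegral.integral_sub (a3g_int h p hs hst ht) (a3g_int h' p hs hst ht)
  rw [← e1, ← e2] at e3
  rw [map_sub, map_sub, inner_sub_left, inner_sub_left]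
  have e4 : (∫ r in s..t, (-(ν * ⟪e r - d r, p⟫_ℝ) + ⟪G r - G' r, ι p⟫_ℝ)) =
      ∫ r in s..t, ((-(ν * ⟪e r, p⟫_ℝ) + ⟪G r, ι p⟫_ℝ) - (-(ν * ⟪d r, p⟫_ℝ) + ⟪G' r, ι p⟫_ℝ)) := by
    refine intervalIntegral.integral_congr fun r _ => ?_
    simp only [inner_sub_left]
    ring
  rw [e4, e3]
  ring

/-- Gluing of tested solutions. -/
theorem TstR.glue {c : ℝ} (hac : a ≤ c) (hcb : c ≤ b) (h : TstR ι ν a c e G) (h' : TstR ι ν c b e G) :
    TstR ι ν a b e G := by
  have k1 : ContinuousOn e (Icc a b) := by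
    rw [← Icc_union_Icc_eq_Icc hac hcb]
    exact h.cont.union_of_isClosed h'.cont isClosed_Icc isClosed_Icc
  have k2 : ContinuousOn G (Icc a b) := by
    rw [← Icc_union_Icc_eq_Icc hac hcb]
    exact h.src.union_of_isClosed h'.src isClosed_Icc isClosed_Icc
  refine ⟨k1, k2, fun p s t hs hst ht => ?_⟩
  rcases le_total t c with htc | htc
  · exact h.eq p s t hs hst htc
  · rcases le_total c s with hcs | hcs
    · exact h'.eq p s t hcs hst ht
    · have e1 := h.eq p s c hs hcs le_rfl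
      have e2 := h'.eq p c t le_rfl htc ht
      rw [← intervalIntegral.integral_add_adjacent_intervals (a3g_int h p hs hcs le_rfl)
        (a3g_int h' p le_rfl htc ht), ← e1, ← e2]
      ring

end

end Pool.Agent.Lib.MP_79abb3_an.W
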