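import Pool.Agent.Lib.MP_79abb3_an.W.A3Def

/-!
Theorem W (MP_79abb3_an), block A3: the energy identity.
-/

set_option autoImplicit false
set_option linter.unusedSectionVars false

open MeasureTheory Set Filter Topology
open scoped InnerProductSpace

namespace Pool.Agent.Lib.MP_79abb3_an.W

section
variable {H V : Type} [NormedAddCommGroup H] [InnerProductSpace ℝ H] [CompleteSpace H]
  [NormedAddCommGroup V] [InnerProductSpace ℝ V] [CompleteSpace V] {ι : V →L[ℝ] H} {ν a b : ℝ}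
  {e d : ℝ → V} {G G' : ℝ → H}

private theorem a3gb_id (h : TstR ι ν a b e G) {s t : ℝ} (hs : s ∈ Icc a b) (ht : t ∈ Icc a b) :
    ‖ι (e s)‖ ^ 2 - ‖ι (e t)‖ ^ 2 =
      ∫ r in t..s, (-(ν * ⟪e r, e s + e t⟫_ℝ) + ⟪G r, ι (e s + e t)⟫_ℝ) := by
  have key : ∀ u v : H, ‖u‖ ^ 2 - ‖v‖ ^ 2 = ⟪u, u + v⟫_ℝ - ⟪v, u + v⟫_ℝ := by
    intro u v
    rw [inner_add_right, inner_add_right, real_inner_self_eq_norm_sq, real_inner_self_eq_norm_sq,
      real_inner_comm u v]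
    ring
  rcases le_total t s with hts | hts
  · rw [← h.eq (e s + e t) t s ht.1 hts hs.2, key, map_add]
  · rw [intervalIntegral.integral_symm, ← h.eq (e s + e t) s t hs.1 hts ht.2, key, map_add]
    ring

/-- The derivative of the energy, one sided at the end points. Proof. For `s < t` in `[a, b]`, the identity tested with
`p = e t + e s` gives `‖ι e t‖² - ‖ι e s‖² = ∫_s^t (-ν ⟪e r, e t + e s⟫ + ⟪G r, ι (e t + e s)⟫) dr`; divided by `t - s`, as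
`t → s` (or `s → t`) the integrand converges uniformly to `2 (-ν ‖e s‖² + ⟪G s, ι e s⟫)` by continuity. -/
theorem TstR.deriv (h : TstR ι ν a b e G) {t : ℝ} (ht : t ∈ Icc a b) :
    HasDerivWithinAt (fun t => ‖ι (e t)‖ ^ 2) (2 * (-(ν * ‖e t‖ ^ 2) + ⟪G t, ι (e t)⟫_ℝ)) (Icc a b) t := by
  set D : ℝ := 2 * (-(ν * ‖e t‖ ^ 2) + ⟪G t, ι (e t)⟫_ℝ) with hD
  have c1 : Tendsto e (𝓝[Icc a b] t) (𝓝 (e t)) := h.cont t ht
  have c2 : Tendsto G (𝓝[Icc a b] t) (𝓝 (G t)) := h.src t ht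
  have hlim : Tendsto (fun q : ℝ × ℝ => -(ν * ⟪e q.1, e q.2 + e t⟫_ℝ) + ⟪G q.1, ι (e q.2 + e t)⟫_ℝ)
      (𝓝[Icc a b] t ×ˢ 𝓝[Icc a b] t) (𝓝 D) := by
    have e1 : Tendsto (fun q : ℝ × ℝ => e q.1) (𝓝[Icc a b] t ×ˢ 𝓝[Icc a b] t) (𝓝 (e t)) :=
      c1.comp tendsto_fst
    have e2 : Tendsto (fun q : ℝ × ℝ => e q.2 + e t) (𝓝[Icc a b] t ×ˢ 𝓝[Icc a b] t) (𝓝 (e t + e t)) :=
      (c1.comp tendsto_snd).add tendsto_const_nhds
    have e3 : Tendsto (fun q : ℝ × ℝ => G q.1) (𝓝[Icc a b] t ×ˢ 𝓝[Icc a b] t) (𝓝 (G t)) :=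
      c2.comp tendsto_fst
    have e4 : Tendsto (fun q : ℝ × ℝ => ι (e q.2 + e t)) (𝓝[Icc a b] t ×ˢ 𝓝[Icc a b] t)
        (𝓝 (ι (e t + e t))) := (ι.continuous.tendsto _).comp e2
    have e5 := ((e1.inner (𝕜 := ℝ) e2).const_mul ν).neg.add (e3.inner (𝕜 := ℝ) e4)
    have e6 : -(ν * ⟪e t, e t + e t⟫_ℝ) + ⟪G t, ι (e t + e t)⟫_ℝ = D := by
      rw [hD, map_add, inner_add_right, inner_add_right, real_inner_self_eq_norm_sq]
      ring
    rw [← e6]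
    exact e5
  rw [hasDerivWithinAt_iff_isLittleO, Asymptotics.isLittleO_iff]
  intro ε hε
  have h1 := (Metric.tendsto_nhds.1 hlim) ε hε
  rw [Filter.eventually_prod_iff] at h1
  obtain ⟨pa, hpa, pb, hpb, hP⟩ := h1
  obtain ⟨δ, hδ, hball⟩ := Metric.mem_nhdsWithin_iff.1 hpa
  filter_upwards [hpb, self_mem_nhdsWithin, mem_nhdsWithin_of_mem_nhds (Metric.ball_mem_nhds t hδ)]
    with s hs1 hs2 hs3
  rw [a3gb_id h hs2 ht]
  have hi : IntervalIntegrable (fun r => -(ν * ⟪e r, e s + e t⟫_ℝ) + ⟪G r, ι (e s + e t)⟫_ℝ) volume t s := by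
    refine ContinuousOn.intervalIntegrable ?_
    have hsub : uIcc t s ⊆ Icc a b := uIcc_subset_Icc ht hs2
    exact (((h.cont.mono hsub).inner continuousOn_const).const_mul ν).neg.add
      ((h.src.mono hsub).inner continuousOn_const)
  have e1 : (∫ r in t..s, (-(ν * ⟪e r, e s + e t⟫_ℝ) + ⟪G r, ι (e s + e t)⟫_ℝ)) - (s - t) • D =
      ∫ r in t..s, ((-(ν * ⟪e r, e s + e t⟫_ℝ) + ⟪G r, ι (e s + e t)⟫_ℝ) - D) := by
    rw [intervalIntegral.integral_sub hi (intervalIntegrable_const), intervalIntegral.integral_const]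
  rw [e1, Real.norm_eq_abs (s - t)]
  refine intervalIntegral.norm_integral_le_of_norm_le_const fun r hr => ?_
  have hr1 : r ∈ uIcc t s := uIoc_subset_uIcc hr
  have hr2 : r ∈ Icc a b := uIcc_subset_Icc ht hs2 hr1
  have hr3 : r ∈ Metric.ball t δ := by
    rw [Metric.mem_ball, Real.dist_eq]
    have h3 := abs_sub_left_of_mem_uIcc hr1
    rw [Metric.mem_ball, Real.dist_eq] at hs3
    exact lt_of_le_of_lt h3 hs3
  have h4 := hP (hball ⟨hr3, hr2⟩) hs1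
  rw [Real.dist_eq] at h4
  rw [Real.norm_eq_abs]
  exact h4.le

/-- **The energy identity.** Proof. `TstR.deriv` and the fundamental theorem
(`intervalIntegral.integral_eq_sub_of_hasDeriv_right`). -/
theorem TstR.energy (h : TstR ι ν a b e G) {s t : ℝ} (hs : a ≤ s) (hst : s ≤ t) (ht : t ≤ b) :
    ‖ι (e t)‖ ^ 2 - ‖ι (e s)‖ ^ 2 = 2 * ∫ r in s..t, (-(ν * ‖e r‖ ^ 2) + ⟪G r, ι (e r)⟫_ℝ) := by
  have hsub : Icc s t ⊆ Icc a b := Icc_subset_Icc hs ht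
  have hc : ContinuousOn e (Icc s t) := h.cont.mono hsub
  have hg : ContinuousOn G (Icc s t) := h.src.mono hsub
  have hc1 : ContinuousOn (fun r => ‖ι (e r)‖ ^ 2) (Icc s t) :=
    ((ι.continuous.comp_continuousOn hc).norm).pow 2
  have hc2 : ContinuousOn (fun r => 2 * (-(ν * ‖e r‖ ^ 2) + ⟪G r, ι (e r)⟫_ℝ)) (Icc s t) :=
    (((hc.norm.pow 2).const_mul ν).neg.add (hg.inner (ι.continuous.comp_continuousOn hc))).const_mul 2
  have hd : ∀ r ∈ Ioo s t, HasDerivAt (fun r => ‖ι (e r)‖ ^ 2)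
      (2 * (-(ν * ‖e r‖ ^ 2) + ⟪G r, ι (e r)⟫_ℝ)) r := fun r hr =>
    (h.deriv (hsub ⟨hr.1.le, hr.2.le⟩)).hasDerivAt
      (Icc_mem_nhds (hs.trans_lt hr.1) (hr.2.trans_le ht))
  have hi : IntervalIntegrable (fun r => 2 * (-(ν * ‖e r‖ ^ 2) + ⟪G r, ι (e r)⟫_ℝ)) volume s t := by
    refine ContinuousOn.intervalIntegrable ?_
    rwa [uIcc_of_le hst]
  rw [← intervalIntegral.integral_const_mul]
  exact (intervalIntegral.integral_eq_sub_of_hasDerivAt_of_le hst hc1 hd hi).symm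

end

end Pool.Agent.Lib.MP_79abb3_an.W
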