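import Pool.Agent.Lib.MP_79abb3_an.W.A3cb
import Pool.Agent.Lib.MP_79abb3_an.W.A3e
import Pool.Agent.Lib.MP_79abb3_an.W.A3fa
import Pool.Agent.Lib.MP_79abb3_an.W.A3gb

section

/-!
Theorem W (MP_79abb3_an), block A3: testing with the eigenbasis.
-/

set_option autoImplicit false
set_option linter.unusedSectionVars false

open MeasureTheory Set Filter Topology
open scoped InnerProductSpace

namespace Pool.Agent.Lib.MP_79abb3_an.W

section
variable {H V : Type} [NormedAddCommGroup H] [InnerProductSpace ℝ H] [CompleteSpace H]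
  [NormedAddCommGroup V] [InnerProductSpace ℝ V] [CompleteSpace V] {ι : V →L[ℝ] H}

/-- It suffices to test with the eigenbasis. Proof. Both sides are linear and continuous in `p` (`e`, `G` are continuous on
the compact interval), and equal on the dense set `EBasis.span_dense` (`Submodule.span_induction`, `Dense.induction` or
`Continuous.ext_on`). The right side is a continuous linear functional of `p`: write it as `⟪∫ e, p⟫`, `⟪∫ G, ι p⟫`
(`integral_inner`-type lemmas). -/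
theorem tst_of_basis (E : EBasis ι) (h : IsTri ι) {ν a b : ℝ} {e : ℝ → V} {G : ℝ → H}
    (he : ContinuousOn e (Icc a b)) (hG : ContinuousOn G (Icc a b))
    (hb : ∀ (i : E.I) (s t : ℝ), a ≤ s → s ≤ t → t ≤ b →
      ⟪E.b i, ι (e t)⟫_ℝ - ⟪E.b i, ι (e s)⟫_ℝ =
        ∫ r in s..t, (-((ν * E.lam i) * ⟪E.b i, ι (e r)⟫_ℝ) + ⟪E.b i, G r⟫_ℝ)) :
    TstR ι ν a b e G := by
  refine ⟨he, hG, fun p s t hs hst ht => ?_⟩
  have hsub : uIcc s t ⊆ Icc a b := by
    rw [uIcc_of_le hst]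
    exact Icc_subset_Icc hs ht
  have hie : IntervalIntegrable e volume s t := (he.mono hsub).intervalIntegrable
  have hiG : IntervalIntegrable G volume s t := (hG.mono hsub).intervalIntegrable
  have he1 : ∀ q : V, ∫ r in s..t, ⟪q, e r⟫_ℝ = ⟪q, ∫ r in s..t, e r⟫_ℝ := fun q =>
    ContinuousLinearMap.intervalIntegral_comp_comm (innerSL ℝ q : V →L[ℝ] ℝ) hie
  have hG1 : ∀ q : H, ∫ r in s..t, ⟪q, G r⟫_ℝ = ⟪q, ∫ r in s..t, G r⟫_ℝ := fun q =>
    ContinuousLinearMap.intervalIntegral_comp_comm (innerSL ℝ q : H →L[ℝ] ℝ) hiG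
  have hie1 : ∀ q : V, IntervalIntegrable (fun r => ⟪q, e r⟫_ℝ) volume s t := fun q =>
    (continuousOn_const.inner (he.mono hsub)).intervalIntegrable
  have hiG1 : ∀ q : H, IntervalIntegrable (fun r => ⟪q, G r⟫_ℝ) volume s t := fun q =>
    (continuousOn_const.inner (hG.mono hsub)).intervalIntegrable
  have hrhs : ∀ q : V, ∫ r in s..t, (-(ν * ⟪e r, q⟫_ℝ) + ⟪G r, ι q⟫_ℝ)
      = -(ν * ⟪q, ∫ r in s..t, e r⟫_ℝ) + ⟪ι q, ∫ r in s..t, G r⟫_ℝ := by
    intro q
    have h1 : (fun r => (-(ν * ⟪e r, q⟫_ℝ) + ⟪G r, ι q⟫_ℝ))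
        = fun r => (-ν) * ⟪q, e r⟫_ℝ + ⟪ι q, G r⟫_ℝ := by
      funext r
      rw [real_inner_comm q (e r), real_inner_comm (ι q) (G r)]
      ring
    rw [h1, intervalIntegral.integral_add ((hie1 q).const_mul _) (hiG1 _),
      intervalIntegral.integral_const_mul, he1, hG1]
    ring
  have hΦ : ((innerSL ℝ (ι (e t) - ι (e s)) : H →L[ℝ] ℝ).comp ι) =
      (-ν) • (innerSL ℝ (∫ r in s..t, e r) : V →L[ℝ] ℝ) +
        ((innerSL ℝ (∫ r in s..t, G r) : H →L[ℝ] ℝ).comp ι) := by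
    refine ContinuousLinearMap.ext_on (E.span_dense h) ?_
    rintro _ ⟨i, rfl⟩
    show ⟪ι (e t) - ι (e s), ι (E.e i)⟫_ℝ = (-ν) * ⟪∫ r in s..t, e r, E.e i⟫_ℝ +
      ⟪∫ r in s..t, G r, ι (E.e i)⟫_ℝ
    rw [E.he, inner_sub_left, real_inner_comm (E.b i) (ι (e t)),
      real_inner_comm (E.b i) (ι (e s)), hb i s t hs hst ht,
      real_inner_comm (E.e i) (∫ r in s..t, e r), real_inner_comm (E.b i) (∫ r in s..t, G r),
      ← he1, ← hG1, ← intervalIntegral.integral_const_mul,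
      ← intervalIntegral.integral_add ((hie1 _).const_mul _) (hiG1 _)]
    apply intervalIntegral.integral_congr
    intro r _
    show -((ν * E.lam i) * ⟪E.b i, ι (e r)⟫_ℝ) + ⟪E.b i, G r⟫_ℝ =
      (-ν) * ⟪E.e i, e r⟫_ℝ + ⟪E.b i, G r⟫_ℝ
    rw [E.eig]
    ring
  have h2 : ⟪ι (e t) - ι (e s), ι p⟫_ℝ = (-ν) * ⟪∫ r in s..t, e r, p⟫_ℝ +
      ⟪∫ r in s..t, G r, ι p⟫_ℝ := congrArg (fun F : V →L[ℝ] ℝ => F p) hΦ
  rw [hrhs, ← inner_sub_left, h2, real_inner_comm p (∫ r in s..t, e r),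
    real_inner_comm (ι p) (∫ r in s..t, G r)]
  ring

end

end Pool.Agent.Lib.MP_79abb3_an.W
end

section

/-!
Theorem W (MP_79abb3_an), block A3: coordinates of mild solutions.
-/

set_option autoImplicit false
set_option linter.unusedSectionVars false

open MeasureTheory Set Filter Topology
open scoped InnerProductSpace

namespace Pool.Agent.Lib.MP_79abb3_an.W

section
variable {H V : Type} [NormedAddCommGroup H] [InnerProductSpace ℝ H] [CompleteSpace H]
  [NormedAddCommGroup V] [InnerProductSpace ℝ V] [CompleteSpace V] {ι : V →L[ℝ] H}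

/-- Coordinates of a mild solution. Proof. Apply the continuous functional `v ↦ ⟪b i, ι v⟫` to the mild equation
(`ContinuousLinearMap.intervalIntegral_comp_comm`, `RKer.int_aux`), `sv_coord`, `lv_coord`. -/
theorem mild_coord (E : EBasis ι) (h : IsTri ι) {ν a b : ℝ} (hν : 0 < ν) {v₀ : V} {e : ℝ → V}
    {G : ℝ → H} (hG : ContinuousOn G (Icc a b))
    (he : ∀ t ∈ Icc a b, e t = E.sv h (ν * (t - a)) v₀ + ∫ r in a..t, E.lv h (ν * (t - r)) (G r))
    (i : E.I) {t : ℝ} (ht : t ∈ Icc a b) :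
    ⟪E.b i, ι (e t)⟫_ℝ = Real.exp (-((ν * E.lam i) * (t - a))) * ⟪E.b i, ι v₀⟫_ℝ +
      ∫ r in a..t, Real.exp (-((ν * E.lam i) * (t - r))) * ⟪E.b i, G r⟫_ℝ := by
  have hk := E.rker h hν
  have hint : IntervalIntegrable (fun r => E.lv h (ν * (t - r)) (G r)) volume a t :=
    hk.int_aux hG ht ⟨le_rfl, ht.1⟩
  have h1 := ContinuousLinearMap.intervalIntegral_comp_comm
    (((innerSL ℝ (E.b i)) : H →L[ℝ] ℝ).comp ι) hint
  have h2 : ∀ v : V, (((innerSL ℝ (E.b i)) : H →L[ℝ] ℝ).comp ι) v = ⟪E.b i, ι v⟫_ℝ := fun v => rfl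
  simp only [h2] at h1
  rw [he t ht, map_add, inner_add_right, ← h1]
  congr 1
  · rw [E.sv_coord h (mul_nonneg hν.le (sub_nonneg.mpr ht.1))]
    congr 2
    ring
  · apply intervalIntegral.integral_congr_ae
    have h3 : ∀ᵐ r : ℝ ∂volume, r ≠ t := by
      simp [ae_iff, measure_singleton]
    filter_upwards [h3] with r hrt hr
    rw [uIoc_of_le ht.1] at hr
    have h4 : 0 < t - r := sub_pos.2 (lt_of_le_of_ne hr.2 hrt)
    rw [E.lv_coord h (mul_pos hν h4)]
    congr 2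
    ring

end

end Pool.Agent.Lib.MP_79abb3_an.W
end

section

/-!
Theorem W (MP_79abb3_an), block A3: mild solutions are tested solutions.
-/

set_option autoImplicit false
set_option linter.unusedSectionVars false

open MeasureTheory Set Filter Topology
open scoped InnerProductSpace

namespace Pool.Agent.Lib.MP_79abb3_an.W

section
variable {H V : Type} [NormedAddCommGroup H] [InnerProductSpace ℝ H] [CompleteSpace H]
  [NormedAddCommGroup V] [InnerProductSpace ℝ V] [CompleteSpace V] {ι : V →L[ℝ] H}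

/-- **Mild solutions are tested solutions.** Proof. `mild_coord`, `scalar_tst`, `tst_of_basis`. -/
theorem mild_tst (E : EBasis ι) (h : IsTri ι) {ν a b : ℝ} (hν : 0 < ν) {v₀ : V} {e : ℝ → V}
    {G : ℝ → H} (hec : ContinuousOn e (Icc a b)) (hG : ContinuousOn G (Icc a b))
    (he : ∀ t ∈ Icc a b, e t = E.sv h (ν * (t - a)) v₀ + ∫ r in a..t, E.lv h (ν * (t - r)) (G r)) :
    TstR ι ν a b e G := by
  refine tst_of_basis E h hec hG fun i s t hs hst ht => ?_
  exact scalar_tst (κ := ν * E.lam i) (y := fun t => ⟪E.b i, ι (e t)⟫_ℝ)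
    (g := fun r => ⟪E.b i, G r⟫_ℝ) (continuousOn_const.inner hG)
    (fun t ht => mild_coord E h hν hG he i ht) hs hst ht

end

end Pool.Agent.Lib.MP_79abb3_an.W
end

section

/-!
Theorem W (MP_79abb3_an), block A3: the regularised system.
-/

set_option autoImplicit false
set_option linter.unusedSectionVars false

open MeasureTheory Set Filter Topology
open scoped InnerProductSpace

namespace Pool.Agent.Lib.MP_79abb3_an.W

open Pool.Agent.Lib.MP_79abb3_an.SC

section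
variable {H V : Type} [NormedAddCommGroup H] [InnerProductSpace ℝ H] [CompleteSpace H]
  [NormedAddCommGroup V] [InnerProductSpace ℝ V] [CompleteSpace V] {ι : V →L[ℝ] H} {ν a b : ℝ}
  {F : ℝ → V →L[ℝ] H} {g : ℝ → H} {N : H →L[ℝ] V →L[ℝ] H} {e : ℝ → V}

/-- Proof. `N (ι v) v - N (ι w) w = N (ι v) (v - w) + N (ι (v - w)) w`; `F`, `g` are bounded on `[a, b]`. -/
theorem rhs_nl (ι : V →L[ℝ] H) (N : H →L[ℝ] V →L[ℝ] H) (hF : ContinuousOn F (Icc a b))
    (hg : ContinuousOn g (Icc a b)) : ∃ M, RNl (Rhs ι F g N) M a b := by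
  obtain ⟨f, hf⟩ := isCompact_Icc.exists_bound_of_continuousOn hF
  obtain ⟨γ, hγ⟩ := isCompact_Icc.exists_bound_of_continuousOn hg
  refine ⟨|f| + |γ| + ‖N‖ * ‖ι‖, by positivity, fun x => ?_, fun t ht x y => ?_, fun t ht => ?_⟩
  · exact (hg.sub (hF.clm_apply continuousOn_const)).sub continuousOn_const
  · have e1 : Rhs ι F g N t x - Rhs ι F g N t y =
        -(F t (x - y)) - N (ι x) (x - y) - N (ι (x - y)) y := by
      unfold Rhs
      simp only [map_sub, sub_apply]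
      abel
    have h1 : ‖F t (x - y)‖ ≤ |f| * ‖x - y‖ :=
      ((F t).le_opNorm _).trans (mul_le_mul_of_nonneg_right ((hf t ht).trans (le_abs_self f)) (norm_nonneg _))
    have h2 : ‖N (ι x) (x - y)‖ ≤ ‖N‖ * ‖ι‖ * ‖x‖ * ‖x - y‖ := by
      refine ((N (ι x)).le_opNorm _).trans (mul_le_mul_of_nonneg_right ?_ (norm_nonneg _))
      refine (N.le_opNorm _).trans ?_
      rw [mul_assoc]
      exact mul_le_mul_of_nonneg_left (ι.le_opNorm x) (norm_nonneg _)
    have h3 : ‖N (ι (x - y)) y‖ ≤ ‖N‖ * ‖ι‖ * ‖x - y‖ * ‖y‖ := by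
      refine ((N (ι (x - y))).le_opNorm _).trans (mul_le_mul_of_nonneg_right ?_ (norm_nonneg _))
      refine (N.le_opNorm _).trans ?_
      rw [mul_assoc]
      exact mul_le_mul_of_nonneg_left (ι.le_opNorm _) (norm_nonneg _)
    rw [e1]
    have h4 : ‖-(F t (x - y)) - N (ι x) (x - y) - N (ι (x - y)) y‖ ≤
        ‖F t (x - y)‖ + ‖N (ι x) (x - y)‖ + ‖N (ι (x - y)) y‖ := by
      refine (norm_sub_le _ _).trans (add_le_add ((norm_sub_le _ _).trans ?_) le_rfl)
      rw [norm_neg]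
    refine h4.trans ((add_le_add (add_le_add h1 h2) h3).trans ?_)
    have k1 := norm_nonneg x
    have k2 := norm_nonneg y
    have k3 := norm_nonneg (x - y)
    have k4 := abs_nonneg f
    have k5 := abs_nonneg γ
    have k6 : 0 ≤ ‖N‖ * ‖ι‖ := by positivity
    have e2 : (|f| + |γ| + ‖N‖ * ‖ι‖) * (1 + ‖x‖ + ‖y‖) * ‖x - y‖ -
        (|f| * ‖x - y‖ + ‖N‖ * ‖ι‖ * ‖x‖ * ‖x - y‖ + ‖N‖ * ‖ι‖ * ‖x - y‖ * ‖y‖) =
        (|f| * (‖x‖ + ‖y‖) + |γ| * (1 + ‖x‖ + ‖y‖) + ‖N‖ * ‖ι‖) * ‖x - y‖ := by ring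
    have e3 : 0 ≤ (|f| * (‖x‖ + ‖y‖) + |γ| * (1 + ‖x‖ + ‖y‖) + ‖N‖ * ‖ι‖) * ‖x - y‖ := by positivity
    linarith
  · have e1 : Rhs ι F g N t 0 = g t := by
      unfold Rhs
      simp only [map_zero, sub_zero]
    rw [e1]
    have k4 := abs_nonneg f
    have k6 : 0 ≤ ‖N‖ * ‖ι‖ := by positivity
    have k7 := le_abs_self γ
    have k8 := hγ t ht
    linarith

/-- Continuity of the right side along continuous curves. -/
theorem rhs_cont (ι : V →L[ℝ] H) (N : H →L[ℝ] V →L[ℝ] H) (hF : ContinuousOn F (Icc a b))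
    (hg : ContinuousOn g (Icc a b)) (he : ContinuousOn e (Icc a b)) :
    ContinuousOn (fun r => Rhs ι F g N r (e r)) (Icc a b) := by
  obtain ⟨M, hM⟩ := rhs_nl ι N hF hg
  exact hM.cont_comp he

/-- Mild solutions of the regularised system are solutions. Proof. `mild_tst`. -/
theorem rsol_of_mild (E : EBasis ι) (h : IsTri ι) (hν : 0 < ν) (hF : ContinuousOn F (Icc a b))
    (hg : ContinuousOn g (Icc a b)) {v₀ : V}
    (he : RMild (fun t => E.sv h (ν * t)) (fun t => E.lv h (ν * t)) (Rhs ι F g N) a b v₀ e) :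
    RSol ι ν F g N a b e := by
  exact mild_tst E h hν he.cont (rhs_cont ι N hF hg he.cont) he.eq

/-- The energy identity of the regularised system (the form `N` is skew). Proof. `TstR.energy`. -/
theorem RSol.energy (hN : ∀ u v, ⟪N u v, ι v⟫_ℝ = 0) (he : RSol ι ν F g N a b e) {s t : ℝ} (hs : a ≤ s)
    (hst : s ≤ t) (ht : t ≤ b) :
    ‖ι (e t)‖ ^ 2 - ‖ι (e s)‖ ^ 2 =
      2 * ∫ r in s..t, (-(ν * ‖e r‖ ^ 2) + ⟪g r - F r (e r), ι (e r)⟫_ℝ) := by
  have h1 := TstR.energy he hs hst ht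
  rw [h1]
  congr 1
  refine intervalIntegral.integral_congr fun r _ => ?_
  show -(ν * ‖e r‖ ^ 2) + ⟪Rhs ι F g N r (e r), ι (e r)⟫_ℝ = _
  unfold Rhs
  rw [inner_sub_left (g r - F r (e r)), hN, sub_zero]

end

end Pool.Agent.Lib.MP_79abb3_an.W
end
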