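import Pool.Agent.Lib.MP_79abb3_an.W.A3e
import Pool.Agent.Lib.MP_79abb3_an.W.A3h
import Pool.Agent.Lib.MP_79abb3_an.W.A3bb

section

/-!
Theorem W (MP_79abb3_an), block A3: bound of the strong norm.
-/

set_option autoImplicit false
set_option linter.unusedSectionVars false

open MeasureTheory Set Filter Topology
open scoped InnerProductSpace

namespace Pool.Agent.Lib.MP_79abb3_an.W

open Pool.Agent.Lib.MP_79abb3_an.SC

section
variable {H V : Type} [NormedAddCommGroup H] [InnerProductSpace ℝ H] [CompleteSpace H]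
  [NormedAddCommGroup V] [InnerProductSpace ℝ V] [CompleteSpace V] {ι : V →L[ℝ] H} {ν a b : ℝ}
  {F : ℝ → V →L[ℝ] H} {g : ℝ → H} {N : H →L[ℝ] V →L[ℝ] H} {e : ℝ → V}

/-- The strong norm of mild solutions. Proof. `‖Rhs‖ ≤ γ + (f + ‖N‖ M) ‖e r‖ ≤ B (1 + ‖e r‖)`; the mild equation and
`EBasis.rker` give `1 + ‖e t‖ ≤ (1 + ‖v₀‖) + (√ν)⁻¹ B ∫_a^t kth (1/2) (t-r) (1 + ‖e r‖) dr`; `kth_gron` (`SC/ExAbs.lean`). -/
theorem mild_strong (E : EBasis ι) (h : IsTri ι) (hν : 0 < ν) {f γ M l : ℝ} (hγ : 0 ≤ γ) (hf : 0 ≤ f)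
    (hM : 0 ≤ M) (N : H →L[ℝ] V →L[ℝ] H) (v₀ : V) : ∃ R : ℝ, ∀ {F : ℝ → V →L[ℝ] H} {g : ℝ → H} {a b : ℝ}
    {e : ℝ → V}, b - a ≤ l → ContinuousOn F (Icc a b) → ContinuousOn g (Icc a b) →
    (∀ r ∈ Icc a b, ‖F r‖ ≤ f) → (∀ r ∈ Icc a b, ‖g r‖ ≤ γ) →
    RMild (fun t => E.sv h (ν * t)) (fun t => E.lv h (ν * t)) (Rhs ι F g N) a b v₀ e →
    (∀ r ∈ Icc a b, ‖ι (e r)‖ ≤ M) → ∀ t ∈ Icc a b, ‖e t‖ ≤ R := by
  set C : ℝ := (√ν)⁻¹ with hC
  have hC0 : 0 ≤ C := inv_nonneg.2 (Real.sqrt_nonneg ν)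
  set B : ℝ := γ + f + ‖N‖ * M with hB
  have hB0 : 0 ≤ B := by positivity
  obtain ⟨μ, hμ, hgr⟩ := kth_gron (θ := 1 / 2) (by norm_num) (by norm_num) (mul_nonneg hC0 hB0)
  refine ⟨2 * (1 + ‖v₀‖) * Real.exp (μ * l), ?_⟩
  intro F g a b e hl hF hg hFb hgb he hM' t ht
  have hk := E.rker h hν
  rw [← hC] at hk
  have hGc : ContinuousOn (fun r => Rhs ι F g N r (e r)) (Icc a b) :=
    (hg.sub (hF.clm_apply he.cont)).sub
      ((N.continuous.comp_continuousOn (ι.continuous.comp_continuousOn he.cont)).clm_apply he.cont)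
  have hRb : ∀ r ∈ Icc a b, ‖Rhs ι F g N r (e r)‖ ≤ B * (1 + ‖e r‖) := by
    intro r hr
    have h1 : ‖F r (e r)‖ ≤ f * ‖e r‖ :=
      ((F r).le_opNorm _).trans (mul_le_mul_of_nonneg_right (hFb r hr) (norm_nonneg _))
    have h2 : ‖N (ι (e r)) (e r)‖ ≤ ‖N‖ * M * ‖e r‖ := by
      refine ((N (ι (e r))).le_opNorm _).trans (mul_le_mul_of_nonneg_right ?_ (norm_nonneg _))
      exact (N.le_opNorm _).trans (mul_le_mul_of_nonneg_left (hM' r hr) (norm_nonneg _))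
    have h3 : ‖Rhs ι F g N r (e r)‖ ≤ ‖g r‖ + ‖F r (e r)‖ + ‖N (ι (e r)) (e r)‖ := by
      unfold Rhs
      exact (norm_sub_le _ _).trans (add_le_add (norm_sub_le _ _) le_rfl)
    have h4 := hgb r hr
    have h5 := norm_nonneg (e r)
    have h6 : 0 ≤ f + ‖N‖ * M := by positivity
    have h7 : B * (1 + ‖e r‖) = γ + f * ‖e r‖ + ‖N‖ * M * ‖e r‖ + (f + ‖N‖ * M) + γ * ‖e r‖ := by
      rw [hB]; ring
    have h8 : 0 ≤ γ * ‖e r‖ := by positivity
    rw [h7]
    linarith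
  have hmain : ∀ s ∈ Icc a b, 1 + ‖e s‖ ≤ (1 + ‖v₀‖) +
      C * B * ∫ r in a..s, kth (1 / 2) (s - r) * (1 + ‖e r‖) := by
    intro s hs
    have h1 := hk.duh_norm hGc hs (c := a) ⟨le_rfl, hs.1⟩
    have h2 := he.eq s hs
    have h3 : ‖e s‖ ≤ ‖v₀‖ + C * ∫ r in a..s, kth (1 / 2) (s - r) * ‖Rhs ι F g N r (e r)‖ := by
      rw [h2]
      exact (norm_add_le _ _).trans (add_le_add (hk.sb _ (sub_nonneg.2 hs.1) _) h1)
    have hsub : Icc a s ⊆ Icc a b := Icc_subset_Icc le_rfl hs.2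
    have c1 : ContinuousOn (fun r => ‖Rhs ι F g N r (e r)‖) (uIcc a s) := by
      rw [uIcc_of_le hs.1]
      exact (hGc.mono hsub).norm
    have c2 : ContinuousOn (fun r => 1 + ‖e r‖) (uIcc a s) := by
      rw [uIcc_of_le hs.1]
      exact continuousOn_const.add (he.cont.mono hsub).norm
    have ik := kth_int' (θ := 1 / 2) (by norm_num) s a s
    have h4 : ∫ r in a..s, kth (1 / 2) (s - r) * ‖Rhs ι F g N r (e r)‖ ≤
        B * ∫ r in a..s, kth (1 / 2) (s - r) * (1 + ‖e r‖) := by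
      rw [← intervalIntegral.integral_const_mul]
      refine intervalIntegral.integral_mono_on hs.1 (ik.mul_continuousOn c1)
        ((ik.mul_continuousOn c2).const_mul B) fun r hr => ?_
      have h5 := kth_nonneg (1 / 2) (sub_nonneg.2 hr.2)
      have h6 := hRb r (hsub hr)
      calc kth (1 / 2) (s - r) * ‖Rhs ι F g N r (e r)‖ ≤ kth (1 / 2) (s - r) * (B * (1 + ‖e r‖)) :=
            mul_le_mul_of_nonneg_left h6 h5
        _ = B * (kth (1 / 2) (s - r) * (1 + ‖e r‖)) := by ring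
    have h7 := mul_le_mul_of_nonneg_left h4 hC0
    have h8 : C * (B * ∫ r in a..s, kth (1 / 2) (s - r) * (1 + ‖e r‖)) =
        C * B * ∫ r in a..s, kth (1 / 2) (s - r) * (1 + ‖e r‖) := by ring
    linarith
  have h1 := hgr a b (1 + ‖v₀‖) (fun r => 1 + ‖e r‖) (by positivity)
    (continuousOn_const.add he.cont.norm) (fun r _ => by positivity) hmain t ht
  have h2 : Real.exp (μ * (t - a)) ≤ Real.exp (μ * l) := by
    refine Real.exp_le_exp.2 (mul_le_mul_of_nonneg_left ?_ hμ.le)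
    linarith [ht.2]
  have h3 : 2 * (1 + ‖v₀‖) * Real.exp (μ * (t - a)) ≤ 2 * (1 + ‖v₀‖) * Real.exp (μ * l) :=
    mul_le_mul_of_nonneg_left h2 (by positivity)
  have h4 : 1 + ‖e t‖ ≤ 2 * (1 + ‖v₀‖) * Real.exp (μ * (t - a)) := h1
  linarith

end

end Pool.Agent.Lib.MP_79abb3_an.W
end

section

/-!
Theorem W (MP_79abb3_an), block A3: a priori bound.
-/

set_option autoImplicit false
set_option linter.unusedSectionVars false

open MeasureTheory Set Filter Topology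
open scoped InnerProductSpace

namespace Pool.Agent.Lib.MP_79abb3_an.W

open Pool.Agent.Lib.MP_79abb3_an.SC

section
variable {H V : Type} [NormedAddCommGroup H] [InnerProductSpace ℝ H] [CompleteSpace H]
  [NormedAddCommGroup V] [InnerProductSpace ℝ V] [CompleteSpace V] {ι : V →L[ℝ] H} {ν a b : ℝ}
  {F : ℝ → V →L[ℝ] H} {g : ℝ → H} {N : H →L[ℝ] V →L[ℝ] H} {e : ℝ → V}

/-- Gronwall, integral form. -/
private theorem a3hb_gron {a t A K : ℝ} (hat : a ≤ t) (hK : 0 ≤ K) {u : ℝ → ℝ}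
    (hu : ContinuousOn u (Icc a t)) (h : ∀ s ∈ Icc a t, u s ≤ A + K * ∫ r in a..s, u r) :
    A + K * ∫ r in a..t, u r ≤ A * Real.exp (K * (t - a)) := by
  set v : ℝ → ℝ := IccExtend hat ((Icc a t).domRestrict u) with hv
  have hvc : Continuous v := (continuousOn_iff_continuous_domRestrict.1 hu).Icc_extend'
  have hvu : ∀ s ∈ Icc a t, v s = u s := fun s hs => by
    rw [hv, IccExtend_of_mem hat _ hs]
    rfl
  have hint : ∀ s ∈ Icc a t, ∫ r in a..s, u r = ∫ r in a..s, v r := by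
    intro s hs
    refine intervalIntegral.integral_congr fun r hr => ?_
    rw [uIcc_of_le hs.1] at hr
    exact (hvu r ⟨hr.1, hr.2.trans hs.2⟩).symm
  set w : ℝ → ℝ := fun s => A + K * ∫ r in a..s, v r with hw
  have hwd : ∀ s, HasDerivAt w (K * v s) s := by
    intro s
    have h1 : HasDerivAt (fun s => ∫ r in a..s, v r) (v s) s :=
      intervalIntegral.integral_hasDerivAt_right (hvc.intervalIntegrable _ _)
        (hvc.stronglyMeasurableAtFilter _ _) hvc.continuousAt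
    exact (h1.const_mul K).const_add A
  set φ : ℝ → ℝ := fun s => w s * Real.exp (-(K * (s - a))) with hφ
  have hφd : ∀ s, HasDerivAt φ (K * v s * Real.exp (-(K * (s - a))) +
      w s * (Real.exp (-(K * (s - a))) * (-(K * 1)))) s := by
    intro s
    have h1 : HasDerivAt (fun s : ℝ => -(K * (s - a))) (-(K * 1)) s :=
      (((hasDerivAt_id s).sub_const a).const_mul K).neg
    exact (hwd s).mul h1.exp
  have hanti : AntitoneOn φ (Icc a t) := by
    refine antitoneOn_of_deriv_nonpos (convex_Icc a t)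
      (fun s _ => (hφd s).continuousAt.continuousWithinAt)
      (fun s _ => (hφd s).differentiableAt.differentiableWithinAt) fun s hs => ?_
    rw [interior_Icc] at hs
    rw [(hφd s).deriv]
    have h1 : s ∈ Icc a t := ⟨hs.1.le, hs.2.le⟩
    have h2 : v s ≤ w s := by
      have h3 := h s h1
      rw [hint s h1, ← hvu s h1] at h3
      exact h3
    have h4 : K * v s * Real.exp (-(K * (s - a))) + w s * (Real.exp (-(K * (s - a))) * (-(K * 1))) =
        -(K * (w s - v s) * Real.exp (-(K * (s - a)))) := by ring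
    rw [h4, neg_nonpos]
    have h5 : 0 ≤ w s - v s := by linarith
    positivity
  have h1 := hanti (left_mem_Icc.2 hat) (right_mem_Icc.2 hat) hat
  have h2 : φ a = A := by
    simp only [hφ, hw, intervalIntegral.integral_same, mul_zero, add_zero, sub_self, neg_zero,
      Real.exp_zero, mul_one]
  rw [h2] at h1
  rw [hint t (right_mem_Icc.2 hat)]
  have h3 : w t = φ t * Real.exp (K * (t - a)) := by
    simp only [hφ]
    rw [mul_assoc, ← Real.exp_add, neg_add_cancel, Real.exp_zero, mul_one]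
  calc A + K * ∫ r in a..t, v r = φ t * Real.exp (K * (t - a)) := h3
    _ ≤ A * Real.exp (K * (t - a)) := mul_le_mul_of_nonneg_right h1 (Real.exp_pos _).le

/-- **A priori bound**, uniform in `N`. Proof. `2 ⟪g - F e, ι e⟫ ≤ |g|² + |ι e|² + ν |e|² + (f²/ν) |ι e|²` with `f` a bound of
`‖F‖`; so `y t = ‖ι e t‖² + ν ∫_a^t ‖e‖²` satisfies `y t ≤ y a + ∫_a^t (γ² + (1 + f²/ν) y)`; Gronwall (with the derivative
version `TstR.deriv`, or the integral version). -/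
theorem RSol.bound (hν : 0 < ν) (hN : ∀ u v, ⟪N u v, ι v⟫_ℝ = 0) {f γ : ℝ} (he : RSol ι ν F g N a b e)
    (hF : ∀ r ∈ Icc a b, ‖F r‖ ≤ f) (hg : ∀ r ∈ Icc a b, ‖g r‖ ≤ γ) {t : ℝ} (ht : t ∈ Icc a b) :
    ‖ι (e t)‖ ^ 2 + ν * ∫ r in a..t, ‖e r‖ ^ 2 ≤
      (‖ι (e a)‖ ^ 2 + (t - a) * γ ^ 2) * Real.exp ((1 + f ^ 2 / ν) * (t - a)) := by
  have hat : a ≤ t := ht.1
  have hγ0 : 0 ≤ γ := (norm_nonneg _).trans (hg t ht)
  have hf0 : 0 ≤ f := (norm_nonneg _).trans (hF t ht)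
  set K : ℝ := 1 + f ^ 2 / ν with hK
  have hK0 : 0 ≤ K := by positivity
  set A : ℝ := ‖ι (e a)‖ ^ 2 + (t - a) * γ ^ 2 with hA
  have hec : ContinuousOn e (Icc a b) := TstR.cont he
  have hGc : ContinuousOn (fun r => Rhs ι F g N r (e r)) (Icc a b) := TstR.src he
  have hιe : ContinuousOn (fun r => ι (e r)) (Icc a b) := ι.continuous.comp_continuousOn hec
  -- pointwise estimate
  have hpt : ∀ r ∈ Icc a b, 2 * (-(ν * ‖e r‖ ^ 2) + ⟪g r - F r (e r), ι (e r)⟫_ℝ) ≤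
      γ ^ 2 + K * ‖ι (e r)‖ ^ 2 - ν * ‖e r‖ ^ 2 := by
    intro r hr
    have h1 : ⟪g r - F r (e r), ι (e r)⟫_ℝ ≤ γ * ‖ι (e r)‖ + f * ‖e r‖ * ‖ι (e r)‖ := by
      rw [inner_sub_left]
      have h2 : ⟪g r, ι (e r)⟫_ℝ ≤ γ * ‖ι (e r)‖ :=
        (real_inner_le_norm _ _).trans (mul_le_mul_of_nonneg_right (hg r hr) (norm_nonneg _))
      have h3 : -⟪F r (e r), ι (e r)⟫_ℝ ≤ f * ‖e r‖ * ‖ι (e r)‖ := by
        have h4 := abs_real_inner_le_norm (F r (e r)) (ι (e r))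
        have h5 : ‖F r (e r)‖ ≤ f * ‖e r‖ :=
          ((F r).le_opNorm _).trans (mul_le_mul_of_nonneg_right (hF r hr) (norm_nonneg _))
        exact (neg_le_abs _).trans (h4.trans (mul_le_mul_of_nonneg_right h5 (norm_nonneg _)))
      linarith
    have h6 : 2 * (γ * ‖ι (e r)‖) ≤ γ ^ 2 + ‖ι (e r)‖ ^ 2 := by nlinarith [sq_nonneg (γ - ‖ι (e r)‖)]
    have h7 : 2 * (f * ‖e r‖ * ‖ι (e r)‖) ≤ ν * ‖e r‖ ^ 2 + f ^ 2 / ν * ‖ι (e r)‖ ^ 2 := by
      have h8 : 0 ≤ (ν * ‖e r‖ - f * ‖ι (e r)‖) ^ 2 / ν := by positivity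
      have h9 : (ν * ‖e r‖ - f * ‖ι (e r)‖) ^ 2 / ν =
          ν * ‖e r‖ ^ 2 + f ^ 2 / ν * ‖ι (e r)‖ ^ 2 - 2 * (f * ‖e r‖ * ‖ι (e r)‖) := by
        field_simp
        ring
      linarith
    have h10 : K * ‖ι (e r)‖ ^ 2 = ‖ι (e r)‖ ^ 2 + f ^ 2 / ν * ‖ι (e r)‖ ^ 2 := by
      rw [hK]; ring
    rw [h10]
    linarith
  -- integrated estimate
  have hint : ∀ s ∈ Icc a t, ‖ι (e s)‖ ^ 2 + ν * ∫ r in a..s, ‖e r‖ ^ 2 ≤
      A + K * ∫ r in a..s, ‖ι (e r)‖ ^ 2 := by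
    intro s hs
    have hsb : s ≤ b := hs.2.trans ht.2
    have hen := RSol.energy hN he le_rfl hs.1 hsb
    have hsub : Icc a s ⊆ Icc a b := Icc_subset_Icc le_rfl hsb
    have c1 : ContinuousOn (fun r => ‖e r‖ ^ 2) (Icc a s) := (hec.mono hsub).norm.pow 2
    have c2 : ContinuousOn (fun r => ‖ι (e r)‖ ^ 2) (Icc a s) := (hιe.mono hsub).norm.pow 2
    have i1 : IntervalIntegrable (fun r => ‖e r‖ ^ 2) volume a s := by
      refine ContinuousOn.intervalIntegrable ?_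
      rwa [uIcc_of_le hs.1]
    have i2 : IntervalIntegrable (fun r => ‖ι (e r)‖ ^ 2) volume a s := by
      refine ContinuousOn.intervalIntegrable ?_
      rwa [uIcc_of_le hs.1]
    have i3 : IntervalIntegrable (fun r => 2 * (-(ν * ‖e r‖ ^ 2) + ⟪g r - F r (e r), ι (e r)⟫_ℝ))
        volume a s := by
      have c3 : ContinuousOn (fun r => 2 * (-(ν * ‖e r‖ ^ 2) +
          ⟪Rhs ι F g N r (e r), ι (e r)⟫_ℝ)) (Icc a s) :=
        ((c1.const_mul ν).neg.add ((hGc.mono hsub).inner (hιe.mono hsub))).const_mul 2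
      refine ContinuousOn.intervalIntegrable ?_
      rw [uIcc_of_le hs.1]
      refine c3.congr fun r _ => ?_
      show _ = 2 * (-(ν * ‖e r‖ ^ 2) + ⟪Rhs ι F g N r (e r), ι (e r)⟫_ℝ)
      unfold Rhs
      rw [inner_sub_left (g r - F r (e r)), hN, sub_zero]
    have i4 : IntervalIntegrable (fun r => γ ^ 2 + K * ‖ι (e r)‖ ^ 2 - ν * ‖e r‖ ^ 2) volume a s :=
      ((intervalIntegrable_const).add (i2.const_mul K)).sub (i1.const_mul ν)
    have h1 := intervalIntegral.integral_mono_on hs.1 i3 i4 fun r hr => hpt r (hsub hr)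
    rw [intervalIntegral.integral_const_mul, ← hen] at h1
    have h2 : ∫ r in a..s, (γ ^ 2 + K * ‖ι (e r)‖ ^ 2 - ν * ‖e r‖ ^ 2) =
        (s - a) * γ ^ 2 + K * (∫ r in a..s, ‖ι (e r)‖ ^ 2) - ν * ∫ r in a..s, ‖e r‖ ^ 2 := by
      rw [intervalIntegral.integral_sub ((intervalIntegrable_const).add (i2.const_mul K)) (i1.const_mul ν),
        intervalIntegral.integral_add intervalIntegrable_const (i2.const_mul K),
        intervalIntegral.integral_const, intervalIntegral.integral_const_mul,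
        intervalIntegral.integral_const_mul, smul_eq_mul]
    rw [h2] at h1
    have h3 : (s - a) * γ ^ 2 ≤ (t - a) * γ ^ 2 :=
      mul_le_mul_of_nonneg_right (by linarith [hs.2]) (sq_nonneg γ)
    rw [hA]
    linarith
  have hfin := a3hb_gron hat hK0 (u := fun r => ‖ι (e r)‖ ^ 2) (A := A)
    ((hιe.mono (Icc_subset_Icc le_rfl ht.2)).norm.pow 2) (fun s hs => by
      have h1 := hint s hs
      have h2 : 0 ≤ ν * ∫ r in a..s, ‖e r‖ ^ 2 :=
        mul_nonneg hν.le (intervalIntegral.integral_nonneg hs.1 fun r _ => sq_nonneg _)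
      show ‖ι (e s)‖ ^ 2 ≤ _
      linarith)
  exact (hint t ⟨hat, le_rfl⟩).trans hfin

end

end Pool.Agent.Lib.MP_79abb3_an.W
end

section

/-!
Theorem W (MP_79abb3_an), block A3: global existence for the regularised system.
-/

set_option autoImplicit false
set_option linter.unusedSectionVars false

open MeasureTheory Set Filter Topology
open scoped InnerProductSpace

namespace Pool.Agent.Lib.MP_79abb3_an.W

open Pool.Agent.Lib.MP_79abb3_an.SC

section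
variable {H V : Type} [NormedAddCommGroup H] [InnerProductSpace ℝ H] [CompleteSpace H]
  [NormedAddCommGroup V] [InnerProductSpace ℝ V] [CompleteSpace V] {ι : V →L[ℝ] H} {ν a b : ℝ}
  {F : ℝ → V →L[ℝ] H} {g : ℝ → H} {N : H →L[ℝ] V →L[ℝ] H} {e : ℝ → V}

/-- **(A1') Global existence for the regularised system.** Proof. `IsTri.exists_EBasis`, `RKer.global` with
`EBasis.rker`, `rhs_nl`; a priori bound on `[a, c]`: `rsol_of_mild`, `RSol.bound`, `mild_strong`. -/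
theorem reg_exists (h : IsTri ι) (hν : 0 < ν) (hab : a ≤ b) (hF : ContinuousOn F (Icc a b))
    (hg : ContinuousOn g (Icc a b)) (hN : ∀ u v, ⟪N u v, ι v⟫_ℝ = 0) (v₀ : V) :
    ∃ e : ℝ → V, RSol ι ν F g N a b e ∧ e a = v₀ := by
  obtain ⟨E⟩ := h.exists_EBasis
  obtain ⟨M, hM⟩ := rhs_nl ι N hF hg
  have hk := E.rker h hν
  obtain ⟨f, hf⟩ := isCompact_Icc.exists_bound_of_continuousOn hF
  obtain ⟨γ, hγ⟩ := isCompact_Icc.exists_bound_of_continuousOn hg
  set M0 : ℝ := (‖ι v₀‖ ^ 2 + (b - a) * γ ^ 2) * Real.exp ((1 + f ^ 2 / ν) * (b - a)) with hM0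
  obtain ⟨R, hR⟩ := mild_strong E h hν (f := |f|) (γ := |γ|) (M := √M0) (l := b - a) (abs_nonneg _)
    (abs_nonneg _) (Real.sqrt_nonneg _) N v₀
  have hba : 0 ≤ b - a := sub_nonneg.2 hab
  obtain ⟨e, he⟩ := hk.global (Φ := Rhs ι F g N) hab hM v₀ (R := R) (fun c hc x hx => by
    have hsub : Icc a c ⊆ Icc a b := Icc_subset_Icc le_rfl hc.2
    have hsol : RSol ι ν F g N a c x := rsol_of_mild E h hν (hF.mono hsub) (hg.mono hsub) hx
    refine hR (by linarith [hc.2]) (hF.mono hsub) (hg.mono hsub)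
      (fun r hr => (hf r (hsub hr)).trans (le_abs_self _))
      (fun r hr => (hγ r (hsub hr)).trans (le_abs_self _)) hx (fun r hr => ?_) c ⟨hc.1, le_rfl⟩
    have h1 := RSol.bound hν hN hsol (fun r hr => hf r (hsub hr)) (fun r hr => hγ r (hsub hr)) hr
    rw [hx.init hk hc.1] at h1
    have h2 : 0 ≤ ν * ∫ r in a..r, ‖x r‖ ^ 2 :=
      mul_nonneg hν.le (intervalIntegral.integral_nonneg hr.1 fun _ _ => by positivity)
    have hr1 : r - a ≤ b - a := by linarith [hr.2, hc.2]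
    have hr0 : 0 ≤ r - a := sub_nonneg.2 hr.1
    have h3 : (‖ι v₀‖ ^ 2 + (r - a) * γ ^ 2) * Real.exp ((1 + f ^ 2 / ν) * (r - a)) ≤ M0 := by
      rw [hM0]
      have h4 : 0 ≤ 1 + f ^ 2 / ν := by positivity
      gcongr
    refine Real.le_sqrt_of_sq_le ?_
    linarith)
  exact ⟨e, rsol_of_mild E h hν hF hg he, he.init hk hab⟩

end

end Pool.Agent.Lib.MP_79abb3_an.W
end
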