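import Pool.Agent.Lib.MP_79abb3_an.W.A3g
import Pool.Agent.Lib.MP_79abb3_an.W.A3gb

/-!
Theorem W (MP_79abb3_an), block A3: uniqueness for the regularised system.
-/

set_option autoImplicit false
set_option linter.unusedSectionVars false

open MeasureTheory Set Filter Topology
open scoped InnerProductSpace

namespace Pool.Agent.Lib.MP_79abb3_an.W


section
variable {H V : Type} [NormedAddCommGroup H] [InnerProductSpace ℝ H] [CompleteSpace H]
  [NormedAddCommGroup V] [InnerProductSpace ℝ V] [CompleteSpace V] {ι : V →L[ℝ] H} {ν a b : ℝ}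
  {F : ℝ → V →L[ℝ] H} {g : ℝ → H} {N : H →L[ℝ] V →L[ℝ] H} {e : ℝ → V}

/-- Uniqueness. Proof. `d = e - e'` is a tested solution (`TstR.sub`) with `G = -F d - N(ι e) d - N(ι d) e'`; by
`TstR.deriv` and skewness `(‖ι d‖²)' ≤ -2ν‖d‖² + 2 f ‖d‖ ‖ι d‖ + 2 ‖N‖ ‖ι d‖² ‖e'‖ ≤ C ‖ι d‖²` (`e'` is bounded on `[a, b]`);
Gronwall (`gronwallBound` or monotonicity of `exp (-C t) ‖ι d‖²`), `ι` injective. -/
theorem RSol.unique (h : IsTri ι) (hν : 0 < ν) (hF : ContinuousOn F (Icc a b))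
    (hN : ∀ u v, ⟪N u v, ι v⟫_ℝ = 0) {e e' : ℝ → V} (he : RSol ι ν F g N a b e)
    (he' : RSol ι ν F g N a b e') (h0 : e a = e' a) : ∀ t ∈ Icc a b, e t = e' t := by
  intro t ht
  have hab : a ≤ b := ht.1.trans ht.2
  obtain ⟨f, hf⟩ := isCompact_Icc.exists_bound_of_continuousOn hF
  obtain ⟨m, hm⟩ := isCompact_Icc.exists_bound_of_continuousOn (TstR.cont he')
  have hf0 : 0 ≤ f := (norm_nonneg _).trans (hf t ht)
  have hm0 : 0 ≤ m := (norm_nonneg _).trans (hm t ht)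
  have hd := TstR.sub he he'
  set C : ℝ := f ^ 2 / ν + 2 * (‖N‖ * m) with hC
  have hC0 : 0 ≤ C := by positivity
  -- the pointwise bound
  have hpt : ∀ r ∈ Icc a b, 2 * (-(ν * ‖e r - e' r‖ ^ 2) +
      ⟪Rhs ι F g N r (e r) - Rhs ι F g N r (e' r), ι (e r - e' r)⟫_ℝ) ≤ C * ‖ι (e r - e' r)‖ ^ 2 := by
    intro r hr
    set d : V := e r - e' r with hd'
    have e1 : Rhs ι F g N r (e r) - Rhs ι F g N r (e' r) =
        -(F r d) - N (ι (e r)) d - N (ι d) (e' r) := by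
      unfold Rhs
      rw [hd']
      simp only [map_sub, sub_apply]
      abel
    have e2 : ⟪Rhs ι F g N r (e r) - Rhs ι F g N r (e' r), ι d⟫_ℝ =
        -⟪F r d, ι d⟫_ℝ - ⟪N (ι d) (e' r), ι d⟫_ℝ := by
      rw [e1, inner_sub_left, inner_sub_left, inner_neg_left, hN, sub_zero]
    have h1 : -⟪F r d, ι d⟫_ℝ ≤ f * ‖d‖ * ‖ι d‖ := by
      have h4 := abs_real_inner_le_norm (F r d) (ι d)
      have h5 : ‖F r d‖ ≤ f * ‖d‖ :=
        ((F r).le_opNorm _).trans (mul_le_mul_of_nonneg_right (hf r hr) (norm_nonneg _))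
      exact (neg_le_abs _).trans (h4.trans (mul_le_mul_of_nonneg_right h5 (norm_nonneg _)))
    have h2 : -⟪N (ι d) (e' r), ι d⟫_ℝ ≤ ‖N‖ * m * ‖ι d‖ ^ 2 := by
      have h4 := abs_real_inner_le_norm (N (ι d) (e' r)) (ι d)
      have h5 : ‖N (ι d) (e' r)‖ ≤ ‖N‖ * ‖ι d‖ * m :=
        ((N (ι d)).le_opNorm _).trans (mul_le_mul (N.le_opNorm _) (hm r hr) (norm_nonneg _)
          (by positivity))
      refine (neg_le_abs _).trans (h4.trans ((mul_le_mul_of_nonneg_right h5 (norm_nonneg _)).trans ?_))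
      exact le_of_eq (by ring)
    have h7 : 2 * (f * ‖d‖ * ‖ι d‖) ≤ 2 * (ν * ‖d‖ ^ 2) + f ^ 2 / ν * ‖ι d‖ ^ 2 := by
      have h8 : 0 ≤ (ν * ‖d‖ - f * ‖ι d‖) ^ 2 / ν := by positivity
      have h9 : (ν * ‖d‖ - f * ‖ι d‖) ^ 2 / ν =
          ν * ‖d‖ ^ 2 + f ^ 2 / ν * ‖ι d‖ ^ 2 - 2 * (f * ‖d‖ * ‖ι d‖) := by
        field_simp
        ring
      have h10 : 0 ≤ ν * ‖d‖ ^ 2 := by positivity
      linarith
    rw [e2]
    have h10 : C * ‖ι d‖ ^ 2 = f ^ 2 / ν * ‖ι d‖ ^ 2 + 2 * (‖N‖ * m * ‖ι d‖ ^ 2) := by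
      rw [hC]; ring
    rw [h10]
    linarith
  -- monotonicity
  set φ : ℝ → ℝ := fun s => ‖ι (e s - e' s)‖ ^ 2 * Real.exp (-(C * (s - a))) with hφ
  have hcd : ContinuousOn (fun s => ι (e s - e' s)) (Icc a b) :=
    ι.continuous.comp_continuousOn ((TstR.cont he).sub (TstR.cont he'))
  have hφc : ContinuousOn φ (Icc a b) := by
    refine (hcd.norm.pow 2).mul ?_
    fun_prop
  have hφd : ∀ s ∈ Ioo a b, HasDerivAt φ
      (2 * (-(ν * ‖e s - e' s‖ ^ 2) +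
        ⟪Rhs ι F g N s (e s) - Rhs ι F g N s (e' s), ι (e s - e' s)⟫_ℝ) * Real.exp (-(C * (s - a))) +
      ‖ι (e s - e' s)‖ ^ 2 * (Real.exp (-(C * (s - a))) * (-(C * 1)))) s := by
    intro s hs
    have h1 : HasDerivAt (fun s : ℝ => -(C * (s - a))) (-(C * 1)) s :=
      (((hasDerivAt_id s).sub_const a).const_mul C).neg
    have h2 := (hd.deriv (t := s) ⟨hs.1.le, hs.2.le⟩).hasDerivAt (Icc_mem_nhds hs.1 hs.2)
    exact h2.mul h1.exp
  have hanti : AntitoneOn φ (Icc a b) := by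
    refine antitoneOn_of_deriv_nonpos (convex_Icc a b) hφc ?_ fun s hs => ?_
    · rw [interior_Icc]
      exact fun s hs => (hφd s hs).differentiableAt.differentiableWithinAt
    · rw [interior_Icc] at hs
      rw [(hφd s hs).deriv]
      have h1 := hpt s ⟨hs.1.le, hs.2.le⟩
      have h2 := mul_le_mul_of_nonneg_right h1 (Real.exp_pos (-(C * (s - a)))).le
      have h3 : C * ‖ι (e s - e' s)‖ ^ 2 * Real.exp (-(C * (s - a))) +
          ‖ι (e s - e' s)‖ ^ 2 * (Real.exp (-(C * (s - a))) * (-(C * 1))) = 0 := by ring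
      linarith
  have h1 := hanti (left_mem_Icc.2 hab) ht ht.1
  have h2 : φ a = 0 := by
    simp only [hφ, h0, sub_self, map_zero, norm_zero]
    norm_num
  rw [h2] at h1
  have h3 : ‖ι (e t - e' t)‖ ^ 2 ≤ 0 := by
    have h4 : ‖ι (e t - e' t)‖ ^ 2 = φ t * Real.exp (C * (t - a)) := by
      simp only [hφ]
      rw [mul_assoc, ← Real.exp_add, neg_add_cancel, Real.exp_zero, mul_one]
    rw [h4]
    exact mul_nonpos_of_nonpos_of_nonneg h1 (Real.exp_pos _).le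
  have h4 : ‖ι (e t - e' t)‖ = 0 := by
    have h5 := sq_nonneg ‖ι (e t - e' t)‖
    have h6 : ‖ι (e t - e' t)‖ ^ 2 = 0 := le_antisymm h3 h5
    simpa using h6
  have h5 : ι (e t - e' t) = ι 0 := by rw [map_zero]; exact norm_eq_zero.1 h4
  exact sub_eq_zero.1 (h.inj h5)

end

end Pool.Agent.Lib.MP_79abb3_an.W
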