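import Mathlib

/-!
Theorem W (MP_79abb3_an), block A3: uniform bounds of the nonlinearity.
-/

set_option autoImplicit false
set_option linter.unusedSectionVars false

open MeasureTheory Set Filter Topology
open scoped InnerProductSpace

namespace Pool.Agent.Lib.MP_79abb3_an.W

section
variable {H V : Type} [NormedAddCommGroup H] [InnerProductSpace ℝ H] [CompleteSpace H]
  [NormedAddCommGroup V] [InnerProductSpace ℝ V] [CompleteSpace V] {ι : V →L[ℝ] H} {ν a b : ℝ}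

/-- `q` is a quantity of `L⁴` type: Ehrling's inequality. -/
structure IsQ (ι : V →L[ℝ] H) (q : V → ℝ) : Prop where
  nonneg : ∀ v, 0 ≤ q v
  ehr : ∀ η : ℝ, 0 < η → ∃ K : ℝ, 0 ≤ K ∧ ∀ v, q v ^ 2 ≤ η * ‖v‖ ^ 2 + K * ‖ι v‖ ^ 2

/-- The uniform bound of the smoothed forms `⟪N (ι u) v, ι p⟫ = ∫ (J u · ∇ v) · p`. -/
structure NB (ι : V →L[ℝ] H) (q : V → ℝ) (N : H →L[ℝ] V →L[ℝ] H) : Prop where
  skew : ∀ u v, ⟪N u v, ι v⟫_ℝ = 0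
  bd : ∀ u v p : V, |⟪N (ι u) v, ι p⟫_ℝ| ≤ q u * ‖v‖ * q p

/-- Ladyzhenskaya's inequality (`d = 2, 3`) implies Ehrling's inequality. Proof. `q² ≤ C² |ι v|^{1/2} ‖v‖^{3/2}`; Young's inequality
`x^{3/2} y^{1/2} ≤ η x² + K y²`: e.g. `K = η^{-3}`, since `x^{3/2} y^{1/2} ≤ η x²` if `y ≤ η² x` and `≤ η^{-3} y²` otherwise. -/
theorem isQ_of_quarter {q : V → ℝ} {C : ℝ} (hC : 0 ≤ C) (h0 : ∀ v, 0 ≤ q v)
    (h : ∀ v, q v ≤ C * ‖ι v‖ ^ (1 / 4 : ℝ) * ‖v‖ ^ (3 / 4 : ℝ)) : IsQ ι q := by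
  refine ⟨h0, fun η hη => ?_⟩
  obtain ⟨θ, hθ⟩ : ∃ θ : ℝ, θ = η / (C ^ 2 + 1) := ⟨_, rfl⟩
  have hC1 : 0 < C ^ 2 + 1 := by positivity
  have hθ0 : 0 < θ := by rw [hθ]; positivity
  have hθC : C ^ 2 * θ ≤ η := by
    have h1 : (C ^ 2 + 1) * θ = η := by rw [hθ]; field_simp
    nlinarith
  refine ⟨C ^ 2 * (θ⁻¹) ^ 3, by positivity, fun v => ?_⟩
  obtain ⟨s, hs⟩ : ∃ s : ℝ, s = ‖ι v‖ ^ (1 / 4 : ℝ) := ⟨_, rfl⟩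
  obtain ⟨r, hr⟩ : ∃ r : ℝ, r = ‖v‖ ^ (1 / 4 : ℝ) := ⟨_, rfl⟩
  have hs0 : 0 ≤ s := by rw [hs]; positivity
  have hr0 : 0 ≤ r := by rw [hr]; positivity
  have hs4 : s ^ 4 = ‖ι v‖ := by
    rw [hs, ← Real.rpow_natCast, ← Real.rpow_mul (norm_nonneg _)]
    norm_num
  have hr4 : r ^ 4 = ‖v‖ := by
    rw [hr, ← Real.rpow_natCast, ← Real.rpow_mul (norm_nonneg _)]
    norm_num
  have hr3 : ‖v‖ ^ (3 / 4 : ℝ) = r ^ 3 := by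
    rw [hr, ← Real.rpow_natCast, ← Real.rpow_mul (norm_nonneg _)]
    norm_num
  have h1 : q v ≤ C * s * r ^ 3 := by
    have h2 := h v
    rw [← hs, hr3] at h2
    exact h2
  have h3 : q v ^ 2 ≤ C ^ 2 * (s ^ 2 * r ^ 6) := by
    have h4 := pow_le_pow_left₀ (h0 v) h1 2
    calc q v ^ 2 ≤ (C * s * r ^ 3) ^ 2 := h4
      _ = C ^ 2 * (s ^ 2 * r ^ 6) := by ring
  rw [← hs4, ← hr4]
  have h5 : s ^ 2 * r ^ 6 ≤ θ * r ^ 8 + (θ⁻¹) ^ 3 * s ^ 8 := by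
    by_cases hsr : s ^ 2 ≤ θ * r ^ 2
    · have h6 : s ^ 2 * r ^ 6 ≤ θ * r ^ 2 * r ^ 6 := mul_le_mul_of_nonneg_right hsr (by positivity)
      have h7 : 0 ≤ (θ⁻¹) ^ 3 * s ^ 8 := by positivity
      calc s ^ 2 * r ^ 6 ≤ θ * r ^ 2 * r ^ 6 := h6
        _ = θ * r ^ 8 := by ring
        _ ≤ _ := by linarith
    · have h6 : r ^ 2 ≤ θ⁻¹ * s ^ 2 := by
        have h8 : θ * r ^ 2 ≤ s ^ 2 := (not_le.1 hsr).le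
        rw [← div_eq_inv_mul, le_div_iff₀ hθ0]
        linarith
      have h7 : (r ^ 2) ^ 3 ≤ (θ⁻¹ * s ^ 2) ^ 3 := pow_le_pow_left₀ (by positivity) h6 3
      have h8 : 0 ≤ θ * r ^ 8 := by positivity
      calc s ^ 2 * r ^ 6 = s ^ 2 * (r ^ 2) ^ 3 := by ring
        _ ≤ s ^ 2 * (θ⁻¹ * s ^ 2) ^ 3 := mul_le_mul_of_nonneg_left h7 (by positivity)
        _ = (θ⁻¹) ^ 3 * s ^ 8 := by ring
        _ ≤ _ := by linarith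
  have hr8 : 0 ≤ r ^ 8 := by positivity
  calc q v ^ 2 ≤ C ^ 2 * (s ^ 2 * r ^ 6) := h3
    _ ≤ C ^ 2 * (θ * r ^ 8 + (θ⁻¹) ^ 3 * s ^ 8) := mul_le_mul_of_nonneg_left h5 (by positivity)
    _ = C ^ 2 * θ * r ^ 8 + C ^ 2 * (θ⁻¹) ^ 3 * s ^ 8 := by ring
    _ ≤ η * r ^ 8 + C ^ 2 * (θ⁻¹) ^ 3 * s ^ 8 := by
      have := mul_le_mul_of_nonneg_right hθC hr8
      linarith
    _ = η * (r ^ 4) ^ 2 + C ^ 2 * (θ⁻¹) ^ 3 * (s ^ 4) ^ 2 := by ring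

/-- Proof. `ehr` with `η = 1` and `‖ι v‖ ≤ ‖ι‖ ‖v‖`. -/
theorem IsQ.bd {q : V → ℝ} (h : IsQ ι q) : ∃ C : ℝ, 0 ≤ C ∧ ∀ v, q v ^ 2 ≤ C * ‖v‖ ^ 2 := by
  obtain ⟨K, hK, hb⟩ := h.ehr 1 one_pos
  refine ⟨1 + K * ‖ι‖ ^ 2, by positivity, fun v => (hb v).trans ?_⟩
  have h1 : ‖ι v‖ ^ 2 ≤ (‖ι‖ * ‖v‖) ^ 2 := pow_le_pow_left₀ (norm_nonneg _) (ι.le_opNorm v) 2
  have h2 := mul_le_mul_of_nonneg_left h1 hK
  calc 1 * ‖v‖ ^ 2 + K * ‖ι v‖ ^ 2 ≤ 1 * ‖v‖ ^ 2 + K * (‖ι‖ * ‖v‖) ^ 2 := by linarith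
    _ = (1 + K * ‖ι‖ ^ 2) * ‖v‖ ^ 2 := by ring

/-- Polarisation. -/
theorem NB.skew' {q : V → ℝ} {N : H →L[ℝ] V →L[ℝ] H} (h : NB ι q N) (u : H) (v w : V) :
    ⟪N u v, ι w⟫_ℝ = -⟪N u w, ι v⟫_ℝ := by
  have h1 := h.skew u (v + w)
  have h2 := h.skew u v
  have h3 := h.skew u w
  rw [map_add, map_add, inner_add_left, inner_add_right, inner_add_right, h2, h3] at h1
  linarith

/-- `|⟪N(ι u) u, ι p⟫| = |⟪N(ι u) p, ι u⟫| ≤ ‖p‖ q(u)²`. -/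
theorem NB.self {q : V → ℝ} {N : H →L[ℝ] V →L[ℝ] H} (h : NB ι q N) (u p : V) :
    |⟪N (ι u) u, ι p⟫_ℝ| ≤ ‖p‖ * q u ^ 2 := by
  rw [h.skew', abs_neg]
  refine (h.bd u p u).trans (le_of_eq ?_)
  ring

end

end Pool.Agent.Lib.MP_79abb3_an.W
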