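import Pool.Agent.Lib.MP_79abb3_an.W.A3hd
import Pool.Agent.Lib.MP_79abb3_an.W.A3le

/-!
Theorem W (MP_79abb3_an), block A3: existence of Leray solutions.
-/

set_option autoImplicit false
set_option linter.unusedSectionVars false

open MeasureTheory Set Filter Topology
open scoped InnerProductSpace

namespace Pool.Agent.Lib.MP_79abb3_an.W

section
variable {H V : Type} [NormedAddCommGroup H] [InnerProductSpace ℝ H] [CompleteSpace H]
  [NormedAddCommGroup V] [InnerProductSpace ℝ V] [CompleteSpace V] {ι : V →L[ℝ] H} {ν a b M : ℝ}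
  {F : ℝ → V →L[ℝ] H} {g : ℝ → H}

/-- **Existence of Leray solutions.** Proof. `v_j` in `V` with `ι v_j → x₀` (`IsTri.dense`), `reg_exists`, `RSol.bound` (a bound
independent of `j`), `reg_limit`. -/
theorem leray_exists (h : IsTri ι) {q : V → ℝ} (hq : IsQ ι q) (hν : 0 < ν) (hab : a ≤ b)
    (hF : ContinuousOn F (Icc a b)) (hg : ContinuousOn g (Icc a b)) {N : ℕ → H →L[ℝ] V →L[ℝ] H}
    (hN : ∀ j, NB ι q (N j)) {c : V → V → V → ℝ}
    (hc : ∀ u v p, Tendsto (fun j => ⟪N j (ι u) v, ι p⟫_ℝ) atTop (𝓝 (c u v p))) (x₀ : H) :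
    ∃ (x : ℝ → H) (v : ℝ → V), LSol ι ν F g c a b x₀ x v := by
  have hx₀ : x₀ ∈ closure (range ι) := h.dense x₀
  obtain ⟨y, hy, hyx⟩ := mem_closure_iff_seq_limit.1 hx₀
  choose w hw using hy
  have hwx : Tendsto (fun j => ι (w j)) atTop (𝓝 x₀) := by
    simpa only [hw] using hyx
  obtain ⟨B, hB⟩ := (hwx.norm).bddAbove_range
  have hB' : ∀ j, ‖ι (w j)‖ ≤ B := fun j => hB ⟨j, rfl⟩
  have hB0 : 0 ≤ B := (norm_nonneg _).trans (hB' 0)
  choose e he hea using fun j => reg_exists h hν hab hF hg (hN j).skew (w j)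
  obtain ⟨f, hf⟩ := isCompact_Icc.exists_bound_of_continuousOn hF
  obtain ⟨γ, hγ⟩ := isCompact_Icc.exists_bound_of_continuousOn hg
  set M0 : ℝ := (B ^ 2 + (b - a) * γ ^ 2) * Real.exp ((1 + f ^ 2 / ν) * (b - a)) with hM0
  have hba : 0 ≤ b - a := sub_nonneg.2 hab
  have hbd : ∀ j, ∀ t ∈ Icc a b, ‖ι (e j t)‖ ^ 2 + ν * ∫ r in a..t, ‖e j r‖ ^ 2 ≤ M0 := by
    intro j t ht
    refine (RSol.bound hν (hN j).skew (he j) hf hγ ht).trans ?_
    rw [hea, hM0]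
    have h1 : t - a ≤ b - a := by linarith [ht.2]
    have h0 : 0 ≤ t - a := sub_nonneg.2 ht.1
    have h4 : 0 ≤ 1 + f ^ 2 / ν := by positivity
    have h5 := hB' j
    gcongr
  have hM : ∀ j, ∀ t ∈ Icc a b, ‖ι (e j t)‖ ≤ max (√M0) (M0 / ν) := by
    intro j t ht
    refine le_trans ?_ (le_max_left _ _)
    refine Real.le_sqrt_of_sq_le ?_
    have h1 := hbd j t ht
    have h2 : 0 ≤ ν * ∫ r in a..t, ‖e j r‖ ^ 2 :=
      mul_nonneg hν.le (intervalIntegral.integral_nonneg ht.1 fun _ _ => by positivity)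
    linarith
  have hM' : ∀ j, ∫ t in a..b, ‖e j t‖ ^ 2 ≤ max (√M0) (M0 / ν) := by
    intro j
    refine le_trans ?_ (le_max_right _ _)
    have h1 := hbd j b ⟨hab, le_rfl⟩
    rw [le_div_iff₀ hν]
    have h2 : 0 ≤ ‖ι (e j b)‖ ^ 2 := by positivity
    linarith
  obtain ⟨-, x, v, -, hL, -⟩ := reg_limit h hq hν hab hF hg hN hc he hM hM' (x₀ := x₀) fun k => by
    have h1 : Tendsto (fun j => ⟪ι (w j), k⟫_ℝ) atTop (𝓝 ⟪x₀, k⟫_ℝ) :=
      hwx.inner tendsto_const_nhds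
    exact h1.congr fun j => by rw [hea]
  exact ⟨x, v, hL⟩

end

end Pool.Agent.Lib.MP_79abb3_an.W
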