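import Pool.Agent.Lib.MP_79abb3_an.W.A3hd
import Pool.Agent.Lib.MP_79abb3_an.W.A3le

/-!
Theorem W (MP_79abb3_an), block A3: Leray solutions as limits of regularised solutions.
-/

set_option autoImplicit false
set_option linter.unusedSectionVars false

open MeasureTheory Set Filter Topology
open scoped InnerProductSpace

namespace Pool.Agent.Lib.MP_79abb3_an.W

section
variable {H V : Type} [NormedAddCommGroup H] [InnerProductSpace ℝ H] [CompleteSpace H]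
  [NormedAddCommGroup V] [InnerProductSpace ℝ V] [CompleteSpace V] {ι : V →L[ℝ] H} {ν a b M : ℝ}
  {F : ℝ → V →L[ℝ] H} {g : ℝ → H}

/-- The norm is weakly lower semicontinuous: bounds of `x_j - y` pass to the weak limit. -/
theorem norm_sub_le_of_weak {X : Type} [NormedAddCommGroup X] [InnerProductSpace ℝ X] {x : ℕ → X} {z y : X}
    {r : ℝ} (hz : ∀ k : X, Tendsto (fun j => ⟪x j, k⟫_ℝ) atTop (𝓝 ⟪z, k⟫_ℝ))
    (hr : ∀ᶠ j in atTop, ‖x j - y‖ ≤ r) : ‖z - y‖ ≤ r := by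
  by_cases h0 : z - y = 0
  · rw [h0, norm_zero]
    obtain ⟨j, hj⟩ := hr.exists
    exact (norm_nonneg _).trans hj
  · have h1 : Tendsto (fun j => ⟪x j - y, z - y⟫_ℝ) atTop (𝓝 ⟪z - y, z - y⟫_ℝ) := by
      simp only [inner_sub_left (x := _) (y := y) (z := z - y)]
      exact (hz (z - y)).sub tendsto_const_nhds
    have h2 : ⟪z - y, z - y⟫_ℝ ≤ r * ‖z - y‖ := by
      refine le_of_tendsto h1 ?_
      filter_upwards [hr] with j hj
      exact (real_inner_le_norm _ _).trans (mul_le_mul_of_nonneg_right hj (norm_nonneg _))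
    rw [real_inner_self_eq_norm_mul_norm] at h2
    exact le_of_mul_le_mul_right h2 (norm_pos_iff.2 h0)

/-- **Leray solutions as limits of regularised solutions** with initial values in `V`. All bounds for the regularised solutions
`e (φ j)` which are closed under weak convergence in `H` (for fixed times) hold for `x`, see `norm_sub_le_of_weak`. -/
theorem leray_approx (h : IsTri ι) {q : V → ℝ} (hq : IsQ ι q) (hν : 0 < ν) (hab : a ≤ b)
    (hF : ContinuousOn F (Icc a b)) (hg : ContinuousOn g (Icc a b)) {N : ℕ → H →L[ℝ] V →L[ℝ] H}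
    (hN : ∀ j, NB ι q (N j)) {c : V → V → V → ℝ}
    (hc : ∀ u v p, Tendsto (fun j => ⟪N j (ι u) v, ι p⟫_ℝ) atTop (𝓝 (c u v p))) (x₀ : H) :
    ∃ (e : ℕ → ℝ → V) (φ : ℕ → ℕ) (x : ℝ → H) (v : ℝ → V), (∀ j, RSol ι ν F g (N j) a b (e j)) ∧
      Tendsto (fun j => ι (e j a)) atTop (𝓝 x₀) ∧ StrictMono φ ∧ LSol ι ν F g c a b x₀ x v ∧
      (∀ t ∈ Icc a b, ∀ h : H, Tendsto (fun j => ⟪ι (e (φ j) t), h⟫_ℝ) atTop (𝓝 ⟪x t, h⟫_ℝ)) ∧
      Tendsto (fun j => ∫ t in a..b, ‖ι (e (φ j) t - v t)‖ ^ 2) atTop (𝓝 0) := by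
  have hx₀ : x₀ ∈ closure (range ι) := h.dense x₀
  obtain ⟨y, hy, hyx⟩ := mem_closure_iff_seq_limit.1 hx₀
  choose w hw using hy
  have hwx : Tendsto (fun j => ι (w j)) atTop (𝓝 x₀) := by
    simpa only [hw] using hyx
  obtain ⟨B, hB⟩ := (hwx.norm).bddAbove_range
  have hB' : ∀ j, ‖ι (w j)‖ ≤ B := fun j => hB ⟨j, rfl⟩
  have hB0 : 0 ≤ B := (norm_nonneg _).trans (hB' 0)
  choose e he hea using fun j => reg_exists h hν hab hF hg (hN j).skew (w j)
  obtain ⟨f, hf⟩ := isCompact_Icc.exists_bound_of_continuousOn hF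
  obtain ⟨γ, hγ⟩ := isCompact_Icc.exists_bound_of_continuousOn hg
  set M0 : ℝ := (B ^ 2 + (b - a) * γ ^ 2) * Real.exp ((1 + f ^ 2 / ν) * (b - a)) with hM0
  have hba : 0 ≤ b - a := sub_nonneg.2 hab
  have hbd : ∀ j, ∀ t ∈ Icc a b, ‖ι (e j t)‖ ^ 2 + ν * ∫ r in a..t, ‖e j r‖ ^ 2 ≤ M0 := by
    intro j t ht
    refine (RSol.bound hν (hN j).skew (he j) hf hγ ht).trans ?_
    rw [hea, hM0]
    have h1 : t - a ≤ b - a := by linarith [ht.2]
    have h0 : 0 ≤ t - a := sub_nonneg.2 ht.1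
    have h4 : 0 ≤ 1 + f ^ 2 / ν := by positivity
    have h5 := hB' j
    gcongr
  have hM : ∀ j, ∀ t ∈ Icc a b, ‖ι (e j t)‖ ≤ max (√M0) (M0 / ν) := by
    intro j t ht
    refine le_trans ?_ (le_max_left _ _)
    refine Real.le_sqrt_of_sq_le ?_
    have h1 := hbd j t ht
    have h2 : 0 ≤ ν * ∫ r in a..t, ‖e j r‖ ^ 2 :=
      mul_nonneg hν.le (intervalIntegral.integral_nonneg ht.1 fun _ _ => by positivity)
    linarith
  have hM' : ∀ j, ∫ t in a..b, ‖e j t‖ ^ 2 ≤ max (√M0) (M0 / ν) := by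
    intro j
    refine le_trans ?_ (le_max_right _ _)
    have h1 := hbd j b ⟨hab, le_rfl⟩
    rw [le_div_iff₀ hν]
    have h2 : 0 ≤ ‖ι (e j b)‖ ^ 2 := by positivity
    linarith
  have hea' : Tendsto (fun j => ι (e j a)) atTop (𝓝 x₀) := hwx.congr fun j => by rw [hea]
  obtain ⟨φ, x, v, hφ, hL, -, -, hl, hst⟩ := reg_limit h hq hν hab hF hg hN hc he hM hM' (x₀ := x₀)
    fun k => hea'.inner tendsto_const_nhds
  exact ⟨e, φ, x, v, he, hea', hφ, hL, hl, hst⟩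

end

end Pool.Agent.Lib.MP_79abb3_an.W
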