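import Pool.Agent.Lib.MP_79abb3_an.W.SpF2

/-!
Theorem W, block EM (elementary move): definitions. Controlled weak trajectories in the working domain `D` with control
region `N`; local rotations, which replace all flows.
-/

set_option autoImplicit false
set_option linter.unusedSectionVars false

open MeasureTheory Set Filter Topology Function
open scoped ENNReal RealInnerProductSpace

namespace Pool.Agent.Lib.MP_79abb3_an.W

variable {d : ℕ}

/-- Controlled weak trajectories on `[a, b]` in the domain `D` with control region `N`: `x` is weakly continuous with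
values in `H(D)`, `v ∈ L²(a,b;V(D))`, `x = v` almost everywhere, and the Navier-Stokes system (viscosity one) holds when
it is tested with divergence free fields with compact support in `D` disjoint from the closure of `N`. -/
structure CTr (D N : Set (En d)) (a b : ℝ) (x : ℝ → HD D) (v : ℝ → VD D) : Prop where
  hab : a ≤ b
  cw : ∀ h : HD D, ContinuousOn (fun t => ⟪x t, h⟫) (Icc a b)
  v2 : MemLp v 2 (volume.restrict (Ioc a b))
  ae : ∀ᵐ t ∂(volume.restrict (Ioc a b)), x t = io D (v t)
  ns : ∀ φ : TS D, Disjoint (tsupport (φ : En d → En d)) (closure N) → ∀ s t : ℝ, a ≤ s → s ≤ t → t ≤ b →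
    ⟪x t, hT D φ⟫ - ⟪x s, hT D φ⟫ = -∫ r in s..t, (⟪v r, vT D φ⟫ + bV D (v r) (v r) (vT D φ))

/-- A local rotation: centre `c`, radius `r`, plane spanned by the orthonormal vectors `u`, `w`, profile `η`. -/
structure Rot (d : ℕ) where
  c : En d
  r : ℝ
  u : En d
  w : En d
  η : ℝ → ℝ
  r0 : 0 < r
  hu : ‖u‖ = 1
  hw : ‖w‖ = 1
  huw : ⟪u, w⟫ = 0
  smo : ContDiff ℝ ((⊤ : ℕ∞) : WithTop ℕ∞) η
  hη : ∀ s, r ^ 2 ≤ s → η s = 0

namespace Rot

/-- the generator: `J u = w`, `J w = -u`, `J = 0` on the orthogonal complement -/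
noncomputable def J (R : Rot d) : En d →L[ℝ] En d :=
  (innerSL ℝ R.u).smulRight R.w - (innerSL ℝ R.w).smulRight R.u

/-- the vector field `V(x) = η(|x-c|²) J (x-c)` -/
noncomputable def V (R : Rot d) (x : En d) : En d := R.η (‖x - R.c‖ ^ 2) • R.J (x - R.c)

/-- the flow of `V` -/
noncomputable def X (R : Rot d) (t : ℝ) (x : En d) : En d :=
  x + (Real.sin (t * R.η (‖x - R.c‖ ^ 2)) • R.J (x - R.c) +
    (1 - Real.cos (t * R.η (‖x - R.c‖ ^ 2))) • R.J (R.J (x - R.c)))

/-- pull back of the one form `f` by `X t` -/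
noncomputable def pb (R : Rot d) (t : ℝ) (f : En d → En d) (x : En d) : En d :=
  ContinuousLinearMap.adjoint (fderiv ℝ (R.X t) x) (f (R.X t x))

end Rot

/-- Lie derivative of the one form `f` along the vector field `u` -/
noncomputable def lieF (u f : En d → En d) (x : En d) : En d :=
  fderiv ℝ f x (u x) + ContinuousLinearMap.adjoint (fderiv ℝ u x) (f x)

/-- commutator of vector fields -/
noncomputable def brk (u v : En d → En d) (x : En d) : En d := fderiv ℝ v x (u x) - fderiv ℝ u x (v x)

end Pool.Agent.Lib.MP_79abb3_an.W
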