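import Pool.Agent.Lib.MP_79abb3_an.W.EMa

/-!
Theorem W, block EM: the flow of a local rotation.
-/

set_option autoImplicit false
set_option linter.unusedSectionVars false

open MeasureTheory Set Filter Topology Function
open scoped ENNReal RealInnerProductSpace

namespace Pool.Agent.Lib.MP_79abb3_an.W

variable {d : ℕ}

namespace Rot
variable (R : Rot d)

theorem X_zero (x : En d) : R.X 0 x = x := by
  rw [X_eq, zero_mul, rot_zero]
  simp

/-- the distance to the centre is preserved -/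
theorem X_norm (t : ℝ) (x : En d) : ‖R.X t x - R.c‖ = ‖x - R.c‖ := by
  rw [X_eq, add_sub_cancel_left, rot_norm]

/-- group property -/
theorem X_add (s t : ℝ) (x : En d) : R.X (s + t) x = R.X s (R.X t x) := by
  rw [R.X_eq s (R.X t x), R.X_norm t x, R.X_eq t x, add_sub_cancel_left, R.X_eq (s + t) x, add_mul,
    rot_add]
  rfl

theorem X_neg (t : ℝ) (x : En d) : R.X (-t) (R.X t x) = x := by
  rw [← X_add, neg_add_cancel, X_zero]

private theorem em_eta {x : En d} (hx : R.r ≤ ‖x - R.c‖) : R.η (‖x - R.c‖ ^ 2) = 0 :=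
  R.hη _ (pow_le_pow_left₀ R.r0.le hx 2)

theorem X_out (t : ℝ) {x : En d} (hx : R.r ≤ ‖x - R.c‖) : R.X t x = x := by
  rw [X_eq, em_eta R hx, mul_zero, rot_zero]
  simp

/-- smoothness in `(t, x)` -/
theorem X_smo : ContDiff ℝ ((⊤ : ℕ∞) : WithTop ℕ∞) fun p : ℝ × En d => R.X p.1 p.2 := by
  have h1 : ContDiff ℝ ((⊤ : ℕ∞) : WithTop ℕ∞) fun p : ℝ × En d => p.2 - R.c :=
    contDiff_snd.sub contDiff_const
  have h2 : ContDiff ℝ ((⊤ : ℕ∞) : WithTop ℕ∞) fun p : ℝ × En d => R.η (‖p.2 - R.c‖ ^ 2) :=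
    R.smo.comp (h1.norm_sq ℝ)
  have h3 : ContDiff ℝ ((⊤ : ℕ∞) : WithTop ℕ∞) fun p : ℝ × En d => p.1 * R.η (‖p.2 - R.c‖ ^ 2) :=
    contDiff_fst.mul h2
  have h4 : ContDiff ℝ ((⊤ : ℕ∞) : WithTop ℕ∞) fun p : ℝ × En d => R.J (p.2 - R.c) :=
    R.J.contDiff.comp h1
  have h5 : ContDiff ℝ ((⊤ : ℕ∞) : WithTop ℕ∞) fun p : ℝ × En d => R.J (R.J (p.2 - R.c)) :=
    R.J.contDiff.comp h4
  exact contDiff_snd.add (((Real.contDiff_sin.comp h3).smul h4).add
    ((contDiff_const.sub (Real.contDiff_cos.comp h3)).smul h5))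

theorem X_smo' (t : ℝ) : Smo (R.X t) :=
  R.X_smo.comp (contDiff_const.prodMk contDiff_id)

/-- The flow preserves every set which contains the ball. -/
theorem X_mem {D : Set (En d)} (hD : Metric.closedBall R.c R.r ⊆ D) (t : ℝ) (x : En d) :
    R.X t x ∈ D ↔ x ∈ D := by
  rcases le_total R.r ‖x - R.c‖ with h | h
  · rw [R.X_out t h]
  · have h1 : x ∈ D := hD (by rw [Metric.mem_closedBall, dist_eq_norm]; exact h)
    have h2 : R.X t x ∈ D := hD (by rw [Metric.mem_closedBall, dist_eq_norm, X_norm]; exact h)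
    exact ⟨fun _ => h1, fun _ => h2⟩

theorem X_mem' {D : Set (En d)} (hD : Disjoint (Metric.closedBall R.c R.r) D) (t : ℝ) (x : En d) :
    R.X t x ∈ D ↔ x ∈ D := by
  rcases le_total R.r ‖x - R.c‖ with h | h
  · rw [R.X_out t h]
  · have h1 : x ∉ D := disjoint_left.mp hD (by rw [Metric.mem_closedBall, dist_eq_norm]; exact h)
    have h2 : R.X t x ∉ D :=
      disjoint_left.mp hD (by rw [Metric.mem_closedBall, dist_eq_norm, X_norm]; exact h)
    exact ⟨fun h3 => absurd h3 h2, fun h3 => absurd h3 h1⟩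

theorem X_deriv (t : ℝ) (x : En d) : HasDerivAt (fun s => R.X s x) (R.V (R.X t x)) t := by
  have h1 : HasDerivAt (fun s : ℝ => s * R.η (‖x - R.c‖ ^ 2)) (R.η (‖x - R.c‖ ^ 2)) t := by
    have := (hasDerivAt_id t).mul_const (R.η (‖x - R.c‖ ^ 2))
    simpa using this
  have h2 := (R.rot_deriv (t * R.η (‖x - R.c‖ ^ 2))).scomp t h1
  have h3 : HasDerivAt (fun s : ℝ => R.rot (s * R.η (‖x - R.c‖ ^ 2)) (x - R.c))
      ((R.η (‖x - R.c‖ ^ 2) • R.J.comp (R.rot (t * R.η (‖x - R.c‖ ^ 2)))) (x - R.c)) t :=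
    ((ContinuousLinearMap.apply ℝ (En d) (x - R.c)).hasFDerivAt.comp_hasDerivAt t h2)
  have h4 := h3.const_add R.c
  have e1 : (fun s => R.X s x) = fun s => R.c + R.rot (s * R.η (‖x - R.c‖ ^ 2)) (x - R.c) :=
    funext fun s => R.X_eq s x
  rw [e1]
  refine h4.congr_deriv ?_
  unfold V
  rw [X_norm, X_eq, add_sub_cancel_left]
  rfl

/-- `D X_t(x) V(x) = V(X_t x)` -/
theorem X_V (t : ℝ) (x : En d) : fderiv ℝ (R.X t) x (R.V x) = R.V (R.X t x) := by
  have h0 := R.X_deriv 0 x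
  rw [X_zero] at h0
  have h1 : HasFDerivAt (R.X t) (fderiv ℝ (R.X t) x) (R.X 0 x) := by
    rw [X_zero]
    exact ((ContDiff.differentiable (R.X_smo' t) (by norm_num)) x).hasFDerivAt
  have h2 := h1.comp_hasDerivAt (0 : ℝ) h0
  have h3 := R.X_deriv 0 (R.X t x)
  rw [X_zero] at h3
  have e1 : (fun s => R.X s (R.X t x)) = (R.X t) ∘ fun s => R.X s x := by
    funext s
    show R.X s (R.X t x) = R.X t (R.X s x)
    rw [← X_add, ← X_add, add_comm]
  rw [e1] at h3
  exact h2.unique h3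

/-- The derivatives are bounded: `X t - id` has compact support. -/
theorem X_fderiv_bd (T : ℝ) : ∃ C : ℝ, 0 ≤ C ∧ ∀ t ∈ Icc (-T) T, ∀ x, ‖fderiv ℝ (R.X t) x‖ ≤ C := by
  have hF : ∀ p : ℝ × En d, HasFDerivAt (fun p : ℝ × En d => R.X p.1 p.2)
      (fderiv ℝ (fun p : ℝ × En d => R.X p.1 p.2) p) p := fun p =>
    ((R.X_smo.differentiable (by norm_num)) p).hasFDerivAt
  have hFc : Continuous (fderiv ℝ (fun p : ℝ × En d => R.X p.1 p.2)) :=
    R.X_smo.continuous_fderiv (by norm_num)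
  have he : ∀ t x, fderiv ℝ (R.X t) x =
      (fderiv ℝ (fun p : ℝ × En d => R.X p.1 p.2) (t, x)).comp (ContinuousLinearMap.inr ℝ ℝ (En d)) := by
    intro t x
    have h1 : HasFDerivAt (fun x : En d => (t, x)) (ContinuousLinearMap.inr ℝ ℝ (En d)) x :=
      hasFDerivAt_prodMk_right t x
    exact ((hF (t, x)).comp x h1).fderiv
  obtain ⟨C, hC⟩ := ((isCompact_Icc (a := -T) (b := T)).prod
    (isCompact_closedBall R.c R.r)).exists_bound_of_continuousOn
    (f := fun p : ℝ × En d => (fderiv ℝ (fun p : ℝ × En d => R.X p.1 p.2) p).comp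
      (ContinuousLinearMap.inr ℝ ℝ (En d)))
    (hFc.clm_comp continuous_const).continuousOn
  refine ⟨max C 1, le_trans zero_le_one (le_max_right _ _), fun t ht x => ?_⟩
  rcases le_or_gt ‖x - R.c‖ R.r with h | h
  · refine le_trans ?_ (le_max_left _ _)
    rw [he]
    exact hC (t, x) ⟨ht, by rw [Metric.mem_closedBall, dist_eq_norm]; exact h⟩
  · refine le_trans ?_ (le_max_right _ _)
    have h1 : R.X t =ᶠ[𝓝 x] fun y => y := by
      have h2 : IsOpen {y : En d | R.r < ‖y - R.c‖} := isOpen_lt continuous_const (by fun_prop)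
      filter_upwards [h2.mem_nhds h] with y hy
      exact R.X_out t (le_of_lt hy)
    rw [h1.fderiv_eq, fderiv_fun_id]
    exact ContinuousLinearMap.norm_id_le

end Rot

end Pool.Agent.Lib.MP_79abb3_an.W
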