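import Pool.Agent.Lib.MP_79abb3_an.W.EMa
import Pool.Agent.Lib.MP_79abb3_an.W.EMb

section

/-!
Theorem W, block EM: the Jacobian of a local rotation.
-/

set_option autoImplicit false
set_option linter.unusedSectionVars false

open MeasureTheory Set Filter Topology Function
open scoped ENNReal RealInnerProductSpace

namespace Pool.Agent.Lib.MP_79abb3_an.W

variable {d : ℕ}

namespace Rot
variable (R : Rot d)

/-- `D X_t(x) h = rot (h + 2 t η' ⟪y, h⟫ J y)`, `y = x - c`, the rotation by the angle `t η(|y|²)`. -/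
theorem X_fderiv (t : ℝ) (x h : En d) : fderiv ℝ (R.X t) x h =
    R.rot (t * R.η (‖x - R.c‖ ^ 2))
      (h + (2 * t * deriv R.η (‖x - R.c‖ ^ 2) * ⟪x - R.c, h⟫) • R.J (x - R.c)) := by
  have hy : HasFDerivAt (fun x : En d => x - R.c) (ContinuousLinearMap.id ℝ (En d)) x :=
    (hasFDerivAt_id x).sub_const R.c
  have hn : HasFDerivAt (fun x : En d => ‖x - R.c‖ ^ 2)
      (2 • (innerSL ℝ (x - R.c)).comp (ContinuousLinearMap.id ℝ (En d))) x := hy.norm_sq
  have hη : HasDerivAt R.η (deriv R.η (‖x - R.c‖ ^ 2)) (‖x - R.c‖ ^ 2) :=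
    (R.smo.differentiable (by norm_num) _).hasDerivAt
  have hs : HasFDerivAt (fun x : En d => t * R.η (‖x - R.c‖ ^ 2))
      (t • (deriv R.η (‖x - R.c‖ ^ 2) •
        (2 • (innerSL ℝ (x - R.c)).comp (ContinuousLinearMap.id ℝ (En d))))) x :=
    (hη.comp_hasFDerivAt x hn).const_mul t
  have hr := (R.rot_deriv (t * R.η (‖x - R.c‖ ^ 2))).hasFDerivAt.comp x hs
  have h1 := (hr.clm_apply hy).const_add R.c
  have e1 : (fun x => R.c + R.rot (t * R.η (‖x - R.c‖ ^ 2)) (x - R.c)) = R.X t :=
    (funext (R.X_eq t)).symm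
  have h2 := h1.fderiv
  rw [← e1]
  refine (congrArg (fun A : En d →L[ℝ] En d => A h) h2).trans ?_
  rw [map_add, map_smul, rot_J]
  simp only [ContinuousLinearMap.comp_id, Function.comp_apply, _root_.add_apply, _root_.smul_apply,
    ContinuousLinearMap.comp_apply, ContinuousLinearMap.flip_apply, innerSL_apply_apply,
    ContinuousLinearMap.toSpanSingleton_apply,
    smul_eq_mul, nsmul_eq_mul]
  congr 1
  congr 1
  push_cast
  ring

/-- The determinant of a rotation. Proof: `φ ↦ det (rot φ)` is continuous with values `± 1` (`rot_inner`), `= 1` at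
`0`; or: `rot φ = rot (φ/2) ∘ rot (φ/2)`, so the determinant is a square, and its absolute value is `1`
(`LinearIsometry`). -/
theorem rot_det (φ : ℝ) : (R.rot φ).det = 1 := by
  have h1 : |(R.rot φ).det| = 1 := by
    let f : En d →ₗᵢ[ℝ] En d := ⟨(R.rot φ : En d →ₗ[ℝ] En d), fun x => R.rot_norm φ x⟩
    have h2 := f.normDet_eq_one
    rw [LinearMap.normDet_eq_abs_det] at h2
    exact h2
  have h2 : (R.rot φ).det = (R.rot (φ / 2)).det * (R.rot (φ / 2)).det := by
    have h3 : R.rot φ = (R.rot (φ / 2)).comp (R.rot (φ / 2)) := by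
      rw [← rot_add, add_halves]
    rw [h3]
    exact LinearMap.det_comp _ _
  rwa [abs_of_nonneg (by rw [h2]; exact mul_self_nonneg _)] at h1

/-- `det (1 + a ⊗ b) = 1 + ⟪a, b⟫` -/
theorem det_rank_one (a b : En d) (h : ⟪a, b⟫ = 0) :
    (ContinuousLinearMap.id ℝ (En d) + (innerSL ℝ b).smulRight a).det = 1 := by
  have h1 : ((ContinuousLinearMap.id ℝ (En d) + (innerSL ℝ b).smulRight a : En d →L[ℝ] En d) :
      En d →ₗ[ℝ] En d) = LinearMap.transvection (innerSL ℝ b : En d →ₗ[ℝ] ℝ) a := by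
    ext x
    rfl
  unfold ContinuousLinearMap.det
  rw [h1, LinearMap.transvection.det]
  have h2 : (innerSL ℝ b : En d →ₗ[ℝ] ℝ) a = 0 := by
    change ⟪b, a⟫ = 0
    rw [real_inner_comm]
    exact h
  rw [h2, add_zero]

theorem X_det (t : ℝ) (x : En d) : (fderiv ℝ (R.X t) x).det = 1 := by
  have h1 : fderiv ℝ (R.X t) x = (R.rot (t * R.η (‖x - R.c‖ ^ 2))).comp
      (ContinuousLinearMap.id ℝ (En d) + (innerSL ℝ (x - R.c)).smulRight
        ((2 * t * deriv R.η (‖x - R.c‖ ^ 2)) • R.J (x - R.c))) := by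
    apply ContinuousLinearMap.ext
    intro h
    rw [X_fderiv, ContinuousLinearMap.comp_apply]
    congr 1
    change _ = h + ⟪x - R.c, h⟫ • ((2 * t * deriv R.η (‖x - R.c‖ ^ 2)) • R.J (x - R.c))
    rw [smul_smul, mul_comm (⟪x - R.c, h⟫)]
  have h2 : (fderiv ℝ (R.X t) x).det = (R.rot (t * R.η (‖x - R.c‖ ^ 2))).det *
      (ContinuousLinearMap.id ℝ (En d) + (innerSL ℝ (x - R.c)).smulRight
        ((2 * t * deriv R.η (‖x - R.c‖ ^ 2)) • R.J (x - R.c))).det := by
    rw [h1]
    exact LinearMap.det_comp _ _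
  rw [h2, rot_det, one_mul]
  apply det_rank_one
  rw [real_inner_smul_left, J_self, mul_zero]

end Rot

end Pool.Agent.Lib.MP_79abb3_an.W
end

section

/-!
Theorem W, block EM: pull back by a local rotation.
-/

set_option autoImplicit false
set_option linter.unusedSectionVars false

open MeasureTheory Set Filter Topology Function
open scoped ENNReal RealInnerProductSpace

namespace Pool.Agent.Lib.MP_79abb3_an.W

variable {d : ℕ}

namespace Rot
variable (R : Rot d)

private theorem eme_hfd (t : ℝ) (x : En d) : HasFDerivAt (R.X t) (fderiv ℝ (R.X t) x) x :=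
  ((R.X_smo' t).differentiable x).hasFDerivAt

private theorem eme_pre (t : ℝ) (s : Set (En d)) : R.X t ⁻¹' s = R.X (-t) '' s := by
  ext x
  constructor
  · intro hx
    exact ⟨R.X t x, hx, R.X_neg t x⟩
  · rintro ⟨y, hy, rfl⟩
    have h := R.X_neg (-t) y
    rw [neg_neg] at h
    show R.X t (R.X (-t) y) ∈ s
    rw [h]
    exact hy

theorem X_mp (t : ℝ) : MeasurePreserving (R.X t) volume volume := by
  have hm : Measurable (R.X t) := (R.X_smo' t).continuous.measurable
  refine ⟨hm, Measure.ext fun s hs => ?_⟩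
  rw [Measure.map_apply hm hs, eme_pre]
  have hinj : InjOn (R.X (-t)) s := by
    intro x _ y _ hxy
    have h1 := R.X_neg (-t) x
    have h2 := R.X_neg (-t) y
    rw [hxy] at h1
    exact h1.symm.trans h2
  have h := lintegral_abs_det_fderiv_eq_addHaar_image (volume : Measure (En d)) hs
    (fun x _ => (R.eme_hfd (-t) x).hasFDerivWithinAt) hinj
  rw [← h]
  have h1 : ∀ x, ENNReal.ofReal |(fderiv ℝ (R.X (-t)) x).det| = 1 := by
    intro x
    rw [R.X_det]
    simp
  simp_rw [h1]
  simp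

theorem pb_zero (f : En d → En d) : R.pb 0 f = f := by
  funext x
  have h0 : R.X 0 = id := funext R.X_zero
  unfold pb
  rw [h0, fderiv_id, id_eq]
  have h1 : ContinuousLinearMap.adjoint (ContinuousLinearMap.id ℝ (En d)) =
      ContinuousLinearMap.id ℝ (En d) := by
    refine ContinuousLinearMap.ext fun y => ext_inner_right ℝ fun z => ?_
    rw [ContinuousLinearMap.adjoint_inner_left]
    rfl
  rw [h1]
  rfl

theorem pb_add (s t : ℝ) (f : En d → En d) : R.pb (s + t) f = R.pb s (R.pb t f) := by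
  funext x
  have h0 : R.X (s + t) = R.X t ∘ R.X s := by
    funext y
    rw [add_comm, R.X_add]
    rfl
  have h1 : fderiv ℝ (R.X (s + t)) x = (fderiv ℝ (R.X t) (R.X s x)).comp (fderiv ℝ (R.X s) x) := by
    rw [h0]
    exact ((R.eme_hfd t (R.X s x)).comp x (R.eme_hfd s x)).fderiv
  unfold pb
  rw [h1, ContinuousLinearMap.adjoint_comp, h0]
  rfl

theorem pb_neg (t : ℝ) (f : En d → En d) : R.pb (-t) (R.pb t f) = f := by
  rw [← R.pb_add, neg_add_cancel, R.pb_zero]

theorem pb_out (t : ℝ) (f : En d → En d) {x : En d} (hx : R.r < ‖x - R.c‖) : R.pb t f x = f x := by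
  have ho : IsOpen {y : En d | R.r < ‖y - R.c‖} :=
    isOpen_lt continuous_const (continuous_id.sub continuous_const).norm
  have h1 : R.X t =ᶠ[𝓝 x] id := by
    filter_upwards [ho.mem_nhds hx] with y hy
    exact R.X_out t (le_of_lt hy)
  have h2 : fderiv ℝ (R.X t) x = ContinuousLinearMap.id ℝ (En d) := by
    rw [h1.fderiv_eq, fderiv_id]
  have h3 : R.X t x = x := R.X_out t hx.le
  have h4 : R.pb t f x = R.pb 0 f x := by
    have h0 : R.X 0 = id := funext R.X_zero
    unfold pb
    rw [h2, h3, h0, fderiv_id]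
    rfl
  rw [h4, R.pb_zero]

theorem pb_lin (t a b : ℝ) (f g : En d → En d) :
    R.pb t (fun x => a • f x + b • g x) = fun x => a • R.pb t f x + b • R.pb t g x := by
  funext x
  unfold pb
  rw [map_add, map_smul, map_smul]

theorem pb_mul (t : ℝ) (θ : En d → ℝ) (f : En d → En d) :
    R.pb t (fun x => θ x • f x) = fun x => θ (R.X t x) • R.pb t f x := by
  funext x
  unfold pb
  rw [map_smul]

/-- the pull back of the gradient is the gradient of the pull back -/
theorem pb_grad (t : ℝ) {p : En d → ℝ} (hp : Smo p) (x : En d) :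
    R.pb t (fun x => gradient p x) x = gradient (fun x => p (R.X t x)) x := by
  refine ext_inner_right ℝ fun h => ?_
  have h1 : HasFDerivAt (fun x => p (R.X t x)) ((fderiv ℝ p (R.X t x)).comp (fderiv ℝ (R.X t) x)) x :=
    (hp.differentiable (R.X t x)).hasFDerivAt.comp x (R.eme_hfd t x)
  have h2 : ⟪gradient (fun x => p (R.X t x)) x, h⟫ = fderiv ℝ (fun x => p (R.X t x)) x h := by
    unfold gradient
    exact InnerProductSpace.toDual_symm_apply
  have h3 : ⟪gradient p (R.X t x), fderiv ℝ (R.X t) x h⟫ =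
      fderiv ℝ p (R.X t x) (fderiv ℝ (R.X t) x h) := by
    unfold gradient
    exact InnerProductSpace.toDual_symm_apply
  rw [h2, h1.fderiv]
  unfold pb
  rw [ContinuousLinearMap.adjoint_inner_left, h3]
  rfl

private theorem eme_bd (t : ℝ) : ∃ C : ℝ, 0 ≤ C ∧ ∀ x, ‖fderiv ℝ (R.X t) x‖ ≤ C := by
  obtain ⟨C, hC, h⟩ := R.X_fderiv_bd |t|
  exact ⟨C, hC, fun x => h t (mem_Icc.2 (abs_le.1 le_rfl)) x⟩

private theorem eme_le (t : ℝ) (f : En d → En d) {C : ℝ} {x : En d} (h : ‖fderiv ℝ (R.X t) x‖ ≤ C) :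
    ‖R.pb t f x‖ ≤ C * ‖(f ∘ R.X t) x‖ := by
  unfold pb
  refine (ContinuousLinearMap.le_opNorm _ _).trans ?_
  rw [LinearIsometryEquiv.norm_map]
  exact mul_le_mul_of_nonneg_right h (norm_nonneg _)

private theorem eme_meas (t : ℝ) {f : En d → En d}
    (hf : AEStronglyMeasurable f (volume : Measure (En d))) :
    AEStronglyMeasurable (R.pb t f) (volume : Measure (En d)) := by
  have h1 : AEStronglyMeasurable (f ∘ R.X t) (volume : Measure (En d)) :=
    hf.comp_measurePreserving (R.X_mp t)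
  have h2 : Continuous fun x => ContinuousLinearMap.adjoint (fderiv ℝ (R.X t) x) := by
    refine (LinearIsometryEquiv.continuous _).comp ?_
    exact ContDiff.continuous_fderiv (R.X_smo' t) (by norm_num)
  exact (ContinuousLinearMap.id ℝ (En d →L[ℝ] En d)).aestronglyMeasurable_comp₂
    h2.aestronglyMeasurable h1

/-- the pull back of an `L²` field -/
theorem pb_memLp (t : ℝ) {f : En d → En d} (hf : MemLp f 2 (volume : Measure (En d))) :
    MemLp (R.pb t f) 2 (volume : Measure (En d)) := by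
  obtain ⟨C, hC, h⟩ := R.eme_bd t
  exact (hf.comp_measurePreserving (R.X_mp t)).of_le_mul (R.eme_meas t hf.1)
    (Eventually.of_forall fun x => R.eme_le t f (h x))

theorem pb_le (T : ℝ) : ∃ C : ℝ, 0 ≤ C ∧ ∀ t ∈ Icc (-T) T, ∀ f : En d → En d,
    MemLp f 2 (volume : Measure (En d)) → eLpNorm (R.pb t f) 2 (volume : Measure (En d)) ≤
      ENNReal.ofReal C * eLpNorm f 2 (volume : Measure (En d)) := by
  obtain ⟨C, hC, h⟩ := R.X_fderiv_bd T
  refine ⟨C, hC, fun t ht f hf => ?_⟩
  rw [← eLpNorm_comp_measurePreserving hf.1 (R.X_mp t)]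
  exact eLpNorm_le_mul_eLpNorm_of_ae_le_mul (Eventually.of_forall fun x => R.eme_le t f (h t ht x)) 2

theorem pb_ae (t : ℝ) {f g : En d → En d} (h : f =ᵐ[volume] g) : R.pb t f =ᵐ[volume] R.pb t g := by
  have h1 : f ∘ R.X t =ᵐ[volume] g ∘ R.X t := (R.X_mp t).quasiMeasurePreserving.ae_eq_comp h
  filter_upwards [h1] with x hx
  unfold pb
  exact congrArg _ hx

end Rot

end Pool.Agent.Lib.MP_79abb3_an.W
end
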