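import Pool.Agent.Lib.MP_79abb3_an.W.SpDef

/-!
Theorem W, block A1: scalar products and norms of classes.
-/

set_option autoImplicit false
set_option linter.unusedSectionVars false

open MeasureTheory Set Filter Topology Function
open scoped ENNReal RealInnerProductSpace

namespace Pool.Agent.Lib.MP_79abb3_an.W

section
variable {d : ℕ} {D : Set (En d)}

theorem inner_L2 (u w : L2E d) : ⟪u, w⟫ = ∫ x, ⟪u x, w x⟫ := by
  exact L2.inner_def (𝕜 := ℝ) u w

/-- scalar products of classes -/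
theorem cl_inner {f g : En d → En d} (hf : MemLp f 2 (volume : Measure (En d)))
    (hg : MemLp g 2 (volume : Measure (En d))) : ⟪cl f, cl g⟫ = ∫ x, ⟪f x, g x⟫ := by
  rw [inner_L2]
  refine integral_congr_ae ?_
  filter_upwards [cl_coe hf, cl_coe hg] with x h1 h2
  rw [h1, h2]

theorem inner_cl (u : L2E d) {g : En d → En d} (hg : MemLp g 2 (volume : Measure (En d))) :
    ⟪u, cl g⟫ = ∫ x, ⟪u x, g x⟫ := by
  rw [inner_L2]
  refine integral_congr_ae ?_
  filter_upwards [cl_coe hg] with x h2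
  rw [h2]

theorem norm_sq_cl {f : En d → En d} (hf : MemLp f 2 (volume : Measure (En d))) :
    ‖cl f‖ ^ 2 = ∫ x, ‖f x‖ ^ 2 := by
  rw [← real_inner_self_eq_norm_sq, cl_inner hf hf]
  simp only [real_inner_self_eq_norm_sq]

theorem norm_sq_L2 (u : L2E d) : ‖u‖ ^ 2 = ∫ x, ‖u x‖ ^ 2 := by
  rw [← real_inner_self_eq_norm_sq, inner_L2]
  simp only [real_inner_self_eq_norm_sq]

theorem eLpNorm_L2 (u : L2E d) : eLpNorm u 2 volume = ENNReal.ofReal ‖u‖ := by
  rw [Lp.norm_def, ENNReal.ofReal_toReal (Lp.eLpNorm_ne_top u)]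

theorem norm_sq_gi (v : VD D) : ‖v‖ ^ 2 = ∑ i, ‖gi v i‖ ^ 2 := by
  exact PiLp.norm_sq_eq_of_L2 _ (v : G2E d)

theorem gi_le (v : VD D) (i : Fin d) : ‖gi v i‖ ≤ ‖v‖ := by
  exact PiLp.norm_apply_le (v : G2E d) i

theorem gi_add (v w : VD D) (i : Fin d) : gi (v + w) i = gi v i + gi w i := by
  rfl

theorem gi_smul (c : ℝ) (v : VD D) (i : Fin d) : gi (c • v) i = c • gi v i := by
  rfl

theorem inner_gi (v w : VD D) : ⟪v, w⟫ = ∑ i, ⟪gi v i, gi w i⟫ := by
  rw [Submodule.coe_inner, PiLp.inner_apply]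
  rfl

theorem norm_sq_vT (φ : TS D) : ‖vT D φ‖ ^ 2 = ∑ i, ∫ x, ‖pd i (φ : En d → En d) x‖ ^ 2 := by
  rw [norm_sq_gi]
  refine Finset.sum_congr rfl fun i _ => ?_
  rw [gi_vT, norm_sq_cl (((TS.ts φ).toIsTe.pd i).memLp 2)]

theorem norm_sq_hT (φ : TS D) : ‖hT D φ‖ ^ 2 = ∫ x, ‖(φ : En d → En d) x‖ ^ 2 := by
  exact norm_sq_cl ((TS.ts φ).memLp 2)

theorem norm_grT (φ : TS D) : ‖grT D φ‖ = ‖vT D φ‖ := by
  rfl

theorem norm_clT (φ : TS D) : ‖clT D φ‖ = ‖hT D φ‖ := by
  rfl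

private theorem L2_eq_zero_on_aux {U : Set (En d)} (hU : IsOpen U) {u : L2E d}
    (h : ∀ ψ : En d → En d, IsTe U ψ → ⟪u, cl ψ⟫ = 0) : ∀ᵐ x, x ∈ U → (u : En d → En d) x = 0 := by
  have hloc : LocallyIntegrable (u : En d → En d) volume :=
    (Lp.memLp u).locallyIntegrable one_le_two
  refine hU.ae_eq_zero_of_integral_contDiff_smul_eq_zero (hloc.locallyIntegrableOn U) ?_
  intro g hg hgc hgU
  have hint : Integrable (fun x => g x • (u : En d → En d) x) volume :=
    hloc.integrable_smul_left_of_hasCompactSupport hg.continuous hgc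
  set c : En d := ∫ x, g x • (u : En d → En d) x with hc
  have hψ : IsTe U (fun x => g x • c) := by
    refine ⟨hg.smul contDiff_const, hgc.smul_right, (tsupport_smul_subset_left g _).trans hgU⟩
  have h1 := h _ hψ
  rw [inner_cl u (hψ.memLp 2)] at h1
  have h2 : ∫ x, ⟪(u : En d → En d) x, g x • c⟫ = ∫ x, ⟪c, g x • (u : En d → En d) x⟫ := by
    refine integral_congr_ae (Eventually.of_forall fun x => ?_)
    show ⟪(u : En d → En d) x, g x • c⟫ = ⟪c, g x • (u : En d → En d) x⟫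
    rw [real_inner_smul_right, real_inner_smul_right, real_inner_comm]
  rw [h2, integral_inner hint, ← hc] at h1
  exact inner_self_eq_zero.1 h1

/-- A field of `L²` which is orthogonal to all smooth fields with compact support vanishes
(`ae_eq_zero_of_integral_contDiff_smul_eq_zero` with the fields `g • e_k`). -/
theorem L2_eq_zero {u : L2E d} (h : ∀ ψ : En d → En d, Smo ψ → HasCompactSupport ψ → ⟪u, cl ψ⟫ = 0) : u = 0 := by
  have h1 : ∀ᵐ x, x ∈ (univ : Set (En d)) → (u : En d → En d) x = 0 :=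
    L2_eq_zero_on_aux isOpen_univ fun ψ hψ => h ψ hψ.smooth hψ.cpt
  refine (Lp.eq_zero_iff_ae_eq_zero (f := u)).2 ?_
  filter_upwards [h1] with x hx
  exact hx (mem_univ x)

/-- The same in an open set: if `⟪u, cl ψ⟫ = 0` for all smooth `ψ` with compact support in `U`, then `u = 0` a.e. in `U`
(`IsOpen.ae_eq_zero_of_integral_contDiff_smul_eq_zero`). -/
theorem L2_eq_zero_on {U : Set (En d)} (hU : IsOpen U) {u : L2E d}
    (h : ∀ ψ : En d → En d, IsTe U ψ → ⟪u, cl ψ⟫ = 0) : ∀ᵐ x, x ∈ U → (u : En d → En d) x = 0 := by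
  exact L2_eq_zero_on_aux hU h

end

end Pool.Agent.Lib.MP_79abb3_an.W
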