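import Pool.Agent.Lib.MP_79abb3_an.W.SpB

/-!
Theorem W, block A1: weak derivatives, injectivity of `io`, the operator `K`.
-/

set_option autoImplicit false
set_option linter.unusedSectionVars false

open MeasureTheory Set Filter Topology Function
open scoped ENNReal RealInnerProductSpace

namespace Pool.Agent.Lib.MP_79abb3_an.W

section
variable {d : ℕ} {D : Set (En d)} {R : ℝ}

private theorem spB2_gi_cont (i : Fin d) : Continuous fun v : VD D => gi v i :=
  (PiLp.proj (𝕜 := ℝ) 2 (fun _ : Fin d => L2E d) i).continuous.comp continuous_subtype_val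

private theorem spB2_io_cont : Continuous fun v : VD D => ((io D v : HD D) : L2E d) :=
  continuous_subtype_val.comp (io D).continuous

private theorem spB2_cl_zero : cl (fun _ : En d => (0 : En d)) = 0 := by
  have h := cl_smul (0 : ℝ) (f := fun _ : En d => (0 : En d)) (MemLp.zero')
  simp only [smul_zero, zero_smul] at h
  exact h

private theorem spB2_cl_sum {ι : Type} (s : Finset ι) {f : ι → En d → En d} (h : ∀ i ∈ s, IsTe D (f i)) :
    cl (fun x => ∑ i ∈ s, f i x) = ∑ i ∈ s, cl (f i) := by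
  classical
  induction s using Finset.induction_on with
  | empty =>
    simp only [Finset.sum_empty]
    exact spB2_cl_zero
  | insert a s ha ih =>
    have h1 : (fun x => ∑ i ∈ insert a s, f i x) = fun x => f a x + ∑ i ∈ s, f i x := by
      ext1 x; rw [Finset.sum_insert ha]
    rw [h1, Finset.sum_insert ha, ← ih fun i hi => h i (Finset.mem_insert_of_mem hi)]
    exact cl_add ((h a (Finset.mem_insert_self a s)).memLp 2)
      ((IsTe.sum_fun s fun i hi => h i (Finset.mem_insert_of_mem hi)).memLp 2)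

/-- `gi v i` is the weak derivative of `io v` on the whole space (density of `vT`, `ibp`). -/
theorem weak_der (hD : Bornology.IsBounded D) (v : VD D) {ψ : En d → En d} (hψ : Smo ψ)
    (hc : HasCompactSupport ψ) (i : Fin d) :
    ⟪((io D v : HD D) : L2E d), cl (pd i ψ)⟫ = -⟪gi v i, cl ψ⟫ := by
  have m1 : MemLp ψ 2 (volume : Measure (En d)) := hψ.continuous.memLp_of_hasCompactSupport hc
  have m2 : MemLp (pd i ψ) 2 (volume : Measure (En d)) :=
    (hψ.pd i).continuous.memLp_of_hasCompactSupport (hcs_pd hc i)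
  refine (vT_dense D).induction_on (p := fun v : VD D =>
    ⟪((io D v : HD D) : L2E d), cl (pd i ψ)⟫ = -⟪gi v i, cl ψ⟫) v ?_ ?_
  · exact isClosed_eq (spB2_io_cont.inner continuous_const) ((spB2_gi_cont i).inner continuous_const).neg
  · intro φ
    rw [io_vT hD, hT_coe, gi_vT, cl_inner ((TS.ts φ).memLp 2) m2,
      cl_inner (((TS.ts φ).toIsTe.pd i).memLp 2) m1, ibp (TS.ts φ).smooth hψ (Or.inr hc) i, neg_neg]

theorem io_inj (hD : Bornology.IsBounded D) (v : VD D) (h : io D v = 0) : v = 0 := by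
  have h1 : ∀ i, gi v i = 0 := fun i => by
    refine L2_eq_zero fun ψ hψ hc => ?_
    have h2 := weak_der hD v hψ hc i
    rw [h, ZeroMemClass.coe_zero, inner_zero_left] at h2
    linarith
  have h3 := norm_sq_gi v
  simp only [h1, norm_zero, ne_eq, OfNat.ofNat_ne_zero, not_false_eq_true, zero_pow,
    Finset.sum_const_zero] at h3
  exact norm_eq_zero.1 (pow_eq_zero_iff two_ne_zero |>.1 h3)

/-- `⟪v, φ⟫_V = -∫ u·Δφ` -/
theorem inner_vT_lap (hD : Bornology.IsBounded D) (v : VD D) (φ : TS D) :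
    ⟪v, vT D φ⟫ = -⟪((io D v : HD D) : L2E d), cl (lap (φ : En d → En d))⟫ := by
  have e : cl (lap (φ : En d → En d)) = ∑ i, cl (pd i (pd i (φ : En d → En d))) :=
    spB2_cl_sum (D := D) Finset.univ fun i _ => ((TS.ts φ).toIsTe.pd i).pd i
  rw [inner_gi, e, inner_sum, ← Finset.sum_neg_distrib]
  refine Finset.sum_congr rfl fun i _ => ?_
  rw [gi_vT, weak_der hD v ((TS.ts φ).smooth.pd i) (hcs_pd (TS.ts φ).cpt i) i, neg_neg]

/-- Every `v` is a limit of test fields, in `V` and in `H`. -/
theorem exists_seq (hD : Bornology.IsBounded D) (v : VD D) : ∃ φ : ℕ → TS D,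
    Tendsto (fun n => vT D (φ n)) atTop (𝓝 v) ∧ Tendsto (fun n => hT D (φ n)) atTop (𝓝 (io D v)) := by
  obtain ⟨x, hx, hv⟩ := mem_closure_iff_seq_limit.1 (vT_dense D v)
  choose φ hφ using hx
  refine ⟨φ, ?_, ?_⟩
  · simp only [hφ]
    exact hv
  · have h1 := ((io D).continuous.tendsto v).comp hv
    refine h1.congr fun n => ?_
    show io D (x n) = hT D (φ n)
    rw [← hφ n, io_vT hD]

/-- The inverse of the Stokes operator. -/
noncomputable def KD (D : Set (En d)) : HD D →L[ℝ] HD D := io D ∘L ContinuousLinearMap.adjoint (io D)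

theorem KD_weak (hD : Bornology.IsBounded D) (g : HD D) (φ : TS D) :
    ⟪((KD D g : HD D) : L2E d), cl (lap (φ : En d → En d))⟫ = -⟪(g : L2E d), cl (φ : En d → En d)⟫ := by
  have h1 := inner_vT_lap hD (ContinuousLinearMap.adjoint (io D) g) φ
  rw [ContinuousLinearMap.adjoint_inner_left, io_vT hD, Submodule.coe_inner, hT_coe] at h1
  rw [h1, neg_neg]
  rfl

/-- `K g` is the limit of test fields whose energies tend to `⟪g, K g⟫`. -/
theorem KD_seq (hD : Bornology.IsBounded D) (g : HD D) : ∃ φ : ℕ → TS D,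
    Tendsto (fun n => hT D (φ n)) atTop (𝓝 (KD D g)) ∧
    Tendsto (fun n => ‖vT D (φ n)‖ ^ 2) atTop (𝓝 ⟪g, KD D g⟫) := by
  obtain ⟨φ, h1, h2⟩ := exists_seq hD (ContinuousLinearMap.adjoint (io D) g)
  refine ⟨φ, h2, ?_⟩
  have h3 : ⟪g, KD D g⟫ = ‖ContinuousLinearMap.adjoint (io D) g‖ ^ 2 := by
    rw [← real_inner_self_eq_norm_sq, ContinuousLinearMap.adjoint_inner_left]
    rfl
  rw [h3]
  exact h1.norm.pow 2

end

end Pool.Agent.Lib.MP_79abb3_an.W
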