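import Pool.Agent.Lib.MP_79abb3_an.W.SpA

/-!
Theorem W, block A: translations of smooth functions.
-/

set_option autoImplicit false
set_option linter.unusedSectionVars false

open MeasureTheory Set Filter Topology Function
open scoped ENNReal RealInnerProductSpace

namespace Pool.Agent.Lib.MP_79abb3_an.W

section
variable {d : ℕ} {D : Set (En d)}

/-- the square of the gradient -/
private noncomputable def trG (f : En d → En d) (x : En d) : ℝ := ∑ i, ‖pd i f x‖ ^ 2

private theorem trG_nonneg (f : En d → En d) (x : En d) : 0 ≤ trG f x :=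
  Finset.sum_nonneg fun i _ => by positivity

private theorem trG_cont {f : En d → En d} (hf : Smo f) : Continuous (trG f) :=
  continuous_finsetSum _ fun i _ => ((hf.pd i).continuous.norm.pow 2)

private theorem trG_fderiv (f : En d → En d) (x y : En d) :
    ‖fderiv ℝ f x y‖ ^ 2 ≤ ‖y‖ ^ 2 * trG f x := by
  rw [fderiv_eq_sum f x y, EuclideanSpace.real_norm_sq_eq y]
  have h1 : ‖∑ i, y i • pd i f x‖ ≤ ∑ i, |y i| * ‖pd i f x‖ := by
    refine (norm_sum_le _ _).trans (le_of_eq ?_)
    exact Finset.sum_congr rfl fun i _ => by rw [norm_smul, Real.norm_eq_abs]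
  calc ‖∑ i, y i • pd i f x‖ ^ 2 ≤ (∑ i, |y i| * ‖pd i f x‖) ^ 2 :=
        pow_le_pow_left₀ (norm_nonneg _) h1 2
    _ ≤ (∑ i, |y i| ^ 2) * ∑ i, ‖pd i f x‖ ^ 2 := Finset.sum_mul_sq_le_sq_mul_sq _ _ _
    _ = (∑ i, y i ^ 2) * trG f x := by
      unfold trG
      simp only [sq_abs]

private theorem trG_line {f : En d → En d} (hf : Smo f) (x y : En d) :
    ‖f (x + y) - f x‖ ^ 2 ≤ ∫ t in (0 : ℝ)..1, ‖y‖ ^ 2 * trG f (x + t • y) := by
  have hder : ∀ t : ℝ, HasDerivAt (fun t : ℝ => f (x + t • y)) (fderiv ℝ f (x + t • y) y) t := by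
    intro t
    have h1 : HasFDerivAt f (fderiv ℝ f (x + t • y)) (x + t • y) :=
      (hf.differentiable _).hasFDerivAt
    have h2 : HasDerivAt (fun t : ℝ => x + t • y) y t := by
      simpa using ((hasDerivAt_id t).smul_const y).const_add x
    exact h1.comp_hasDerivAt t h2
  have hlin : Continuous fun t : ℝ => x + t • y := by fun_prop
  have hcf : Continuous fun z => fderiv ℝ f z := by
    have h3 : ContDiff ℝ ((⊤ : ℕ∞) : WithTop ℕ∞) (fderiv ℝ f) :=
      ContDiff.fderiv_right hf (by exact_mod_cast le_top)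
    exact h3.continuous
  have hcg : Continuous fun t : ℝ => fderiv ℝ f (x + t • y) y :=
    (hcf.comp hlin).clm_apply continuous_const
  have hcG : Continuous fun t : ℝ => ‖y‖ ^ 2 * trG f (x + t • y) :=
    continuous_const.mul ((trG_cont hf).comp hlin)
  have hint := intervalIntegral.integral_eq_sub_of_hasDerivAt (fun t _ => hder t)
    (hcg.intervalIntegrable 0 1)
  simp only [one_smul, zero_smul, add_zero] at hint
  have hm : ‖f (x + y) - f x‖ ≤ ∫ t in (0 : ℝ)..1, ‖fderiv ℝ f (x + t • y) y‖ := by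
    rw [← hint]
    exact intervalIntegral.norm_integral_le_integral_norm zero_le_one
  set m : ℝ := ∫ t in (0 : ℝ)..1, ‖fderiv ℝ f (x + t • y) y‖ with hmdef
  have hm2 : m ^ 2 ≤ ∫ t in (0 : ℝ)..1, ‖y‖ ^ 2 * trG f (x + t • y) := by
    have h4 : (∫ t in (0 : ℝ)..1, (2 * m * ‖fderiv ℝ f (x + t • y) y‖ - m ^ 2)) ≤
        ∫ t in (0 : ℝ)..1, ‖y‖ ^ 2 * trG f (x + t • y) := by
      refine intervalIntegral.integral_mono_on zero_le_one ?_ (hcG.intervalIntegrable 0 1) ?_
      · exact ((continuous_const.mul hcg.norm).sub continuous_const).intervalIntegrable 0 1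
      · intro t _
        have h5 := trG_fderiv f (x + t • y) y
        nlinarith [sq_nonneg (‖fderiv ℝ f (x + t • y) y‖ - m)]
    have h6 : IntervalIntegrable (fun t : ℝ => 2 * m * ‖fderiv ℝ f (x + t • y) y‖) volume 0 1 :=
      (continuous_const.mul hcg.norm).intervalIntegrable 0 1
    have h7 : IntervalIntegrable (fun _ : ℝ => m ^ 2) volume 0 1 :=
      continuous_const.intervalIntegrable 0 1
    rw [intervalIntegral.integral_sub h6 h7, intervalIntegral.integral_const_mul, ← hmdef,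
      intervalIntegral.integral_const] at h4
    simp only [sub_zero, one_smul] at h4
    nlinarith [h4]
  exact (pow_le_pow_left₀ (norm_nonneg _) hm 2).trans hm2

/-- `f (x+y) - f x = ∫_0^1 Df(x+ty) y dt`, `‖Df(z) y‖² ≤ ‖y‖² ∑ ‖∂_i f(z)‖²` (`fderiv_eq_sum`, Cauchy-Schwarz), Fubini and the
translation invariance of the measure. -/
theorem transl {f : En d → En d} (hf : Smo f) (hc : HasCompactSupport f) (y : En d) :
    ∫ x, ‖f (x + y) - f x‖ ^ 2 ≤ ‖y‖ ^ 2 * ∑ i, ∫ x, ‖pd i f x‖ ^ 2 := by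
  have hi : ∀ i : Fin d, Integrable fun x => ‖pd i f x‖ ^ 2 := by
    intro i
    have h1 : HasCompactSupport fun x => ‖pd i f x‖ ^ 2 :=
      (hcs_pd hc i).comp_left (g := fun v : En d => ‖v‖ ^ 2) (by simp)
    exact ((hf.pd i).continuous.norm.pow 2).integrable_of_hasCompactSupport h1
  have hG : Integrable (trG f) := integrable_finsetSum _ fun i _ => hi i
  have hsum : ∑ i, ∫ x, ‖pd i f x‖ ^ 2 = ∫ x, trG f x := by
    unfold trG
    rw [integral_finsetSum _ fun i _ => hi i]
  rw [hsum]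
  have hRnn : 0 ≤ ‖y‖ ^ 2 * ∫ x, trG f x :=
    mul_nonneg (sq_nonneg _) (integral_nonneg (trG_nonneg f))
  have hcont : Continuous fun x => ‖f (x + y) - f x‖ ^ 2 :=
    ((hf.continuous.comp (continuous_id.add continuous_const)).sub hf.continuous).norm.pow 2
  rw [integral_eq_lintegral_of_nonneg_ae (Eventually.of_forall fun x => by positivity)
    hcont.aestronglyMeasurable]
  refine ENNReal.toReal_le_of_le_ofReal hRnn ?_
  have hpt : ∀ x, ENNReal.ofReal (‖f (x + y) - f x‖ ^ 2) ≤
      ∫⁻ t in Ioc (0 : ℝ) 1, ENNReal.ofReal (‖y‖ ^ 2 * trG f (x + t • y)) := by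
    intro x
    have hcG : Continuous fun t : ℝ => ‖y‖ ^ 2 * trG f (x + t • y) :=
      continuous_const.mul ((trG_cont hf).comp (by fun_prop))
    have h1 := trG_line hf x y
    rw [intervalIntegral.integral_of_le zero_le_one] at h1
    have h2 : Integrable (fun t : ℝ => ‖y‖ ^ 2 * trG f (x + t • y)) (volume.restrict (Ioc 0 1)) :=
      (hcG.intervalIntegrable 0 1).1
    rw [← ofReal_integral_eq_lintegral_ofReal h2 (Eventually.of_forall fun t =>
      mul_nonneg (sq_nonneg _) (trG_nonneg f _))]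
    exact ENNReal.ofReal_le_ofReal h1
  calc ∫⁻ x, ENNReal.ofReal (‖f (x + y) - f x‖ ^ 2)
      ≤ ∫⁻ x, ∫⁻ t in Ioc (0 : ℝ) 1, ENNReal.ofReal (‖y‖ ^ 2 * trG f (x + t • y)) :=
        lintegral_mono hpt
    _ = ∫⁻ t in Ioc (0 : ℝ) 1, ∫⁻ x, ENNReal.ofReal (‖y‖ ^ 2 * trG f (x + t • y)) := by
        refine lintegral_lintegral_swap ?_
        refine Measurable.aemeasurable ?_
        refine ENNReal.measurable_ofReal.comp (Continuous.measurable ?_)
        exact continuous_const.mul ((trG_cont hf).comp (by fun_prop))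
    _ = ∫⁻ t in Ioc (0 : ℝ) 1, ENNReal.ofReal (‖y‖ ^ 2 * ∫ x, trG f x) := by
        refine lintegral_congr fun t => ?_
        rw [lintegral_add_right_eq_self (fun z => ENNReal.ofReal (‖y‖ ^ 2 * trG f z)) (t • y),
          ← ofReal_integral_eq_lintegral_ofReal (hG.const_mul _) (Eventually.of_forall fun z =>
            mul_nonneg (sq_nonneg _) (trG_nonneg f _)), integral_const_mul]
    _ = ENNReal.ofReal (‖y‖ ^ 2 * ∫ x, trG f x) := by
        rw [lintegral_const]
        simp

end

end Pool.Agent.Lib.MP_79abb3_an.W
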