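import Pool.Agent.Lib.MP_79abb3_an.W.SpF1

/-!
Theorem W, block A: bounded coefficients, mollified velocities.
-/

set_option autoImplicit false
set_option linter.unusedSectionVars false

open MeasureTheory Set Filter Topology Function
open scoped ENNReal RealInnerProductSpace

namespace Pool.Agent.Lib.MP_79abb3_an.W

section
variable {d : ℕ} {D : Set (En d)} {F : Type} [NormedAddCommGroup F]

/-- bounded measurable functions -/
abbrev Li (d : ℕ) (F : Type) [NormedAddCommGroup F] : Type := Lp F ∞ (volume : Measure (En d))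

/-- the class of a bounded measurable function -/
noncomputable def cli (f : En d → F) : Li d F :=
  open scoped Classical in if h : MemLp f ∞ (volume : Measure (En d)) then h.toLp f else 0

theorem cli_coe {f : En d → F} (h : MemLp f ∞ (volume : Measure (En d))) :
    (cli f : En d → F) =ᵐ[volume] f := by
  have : cli f = h.toLp f := dif_pos h
  rw [this]
  exact h.coeFn_toLp

theorem memLi {f : En d → F} (hf : AEStronglyMeasurable f (volume : Measure (En d))) {c : ℝ} (h : ∀ x, ‖f x‖ ≤ c) :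
    MemLp f ∞ (volume : Measure (En d)) := by
  exact memLp_top_of_bound hf c (Eventually.of_forall h)

private theorem Li_norm_le {u : Li d F} {c : ℝ} (hc : 0 ≤ c) (h : ∀ᵐ x, ‖(u : En d → F) x‖ ≤ c) :
    ‖u‖ ≤ c := by
  rw [Lp.norm_def, eLpNorm_exponent_top]
  exact ENNReal.toReal_le_of_le_ofReal hc (eLpNormEssSup_le_of_ae_bound h)

/-- elements of `L^∞` are bounded by their norm -/
theorem Li_ae_le (u : Li d F) : ∀ᵐ x, ‖(u : En d → F) x‖ ≤ ‖u‖ := by
  have h1 : ∀ᵐ x, ‖(u : En d → F) x‖ₑ ≤ eLpNormEssSup (u : En d → F) volume := ae_le_eLpNormEssSup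
  have h2 : eLpNormEssSup (u : En d → F) volume ≠ ∞ := by
    have := Lp.eLpNorm_ne_top u
    rwa [eLpNorm_exponent_top] at this
  filter_upwards [h1] with x hx
  rw [Lp.norm_def, eLpNorm_exponent_top]
  have := ENNReal.toReal_mono h2 hx
  rwa [toReal_enorm] at this

theorem cli_le {f : En d → F} {c : ℝ} (hc : 0 ≤ c) (h : ∀ x, ‖f x‖ ≤ c) : ‖cli f‖ ≤ c := by
  by_cases hf : MemLp f ∞ (volume : Measure (En d))
  · refine Li_norm_le hc ?_
    filter_upwards [cli_coe hf] with x hx
    rw [hx]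
    exact h x
  · have : cli f = 0 := dif_neg hf
    rw [this, norm_zero]
    exact hc

theorem cli_sub_le {f g : En d → F} (hf : MemLp f ∞ (volume : Measure (En d)))
    (hg : MemLp g ∞ (volume : Measure (En d))) {c : ℝ} (hc : 0 ≤ c) (h : ∀ x, ‖f x - g x‖ ≤ c) :
    ‖cli f - cli g‖ ≤ c := by
  refine Li_norm_le hc ?_
  filter_upwards [Lp.coeFn_sub (cli f) (cli g), cli_coe hf, cli_coe hg] with x h1 h2 h3
  rw [h1, Pi.sub_apply, h2, h3]
  exact h x

private theorem comp_memLi (a : Li d (En d)) (i : Fin d) :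
    MemLp (fun x => (a : En d → En d) x i) ∞ (volume : Measure (En d)) := by
  have h1 : MemLp (a : En d → En d) ∞ (volume : Measure (En d)) := Lp.memLp a
  exact h1.continuousLinearMap_comp (EuclideanSpace.proj i : En d →L[ℝ] ℝ)

private theorem tr_memLp (a : Li d (En d)) (g : G2E d) :
    MemLp (fun x => ∑ i, (a : En d → En d) x i • (g i : En d → En d) x) 2
      (volume : Measure (En d)) := by
  refine memLp_finsetSum _ fun i _ => ?_
  have h1 : MemLp (g i : En d → En d) 2 (volume : Measure (En d)) := Lp.memLp (g i)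
  exact h1.smul (comp_memLi a i)

private noncomputable def trF (a : Li d (En d)) (g : G2E d) : L2E d := (tr_memLp a g).toLp _

private theorem trF_ae (a : Li d (En d)) (g : G2E d) : (trF a g : En d → En d) =ᵐ[volume]
    fun x => ∑ i, (a : En d → En d) x i • (g i : En d → En d) x := (tr_memLp a g).coeFn_toLp

private theorem trF_le (a : Li d (En d)) (g : G2E d) : ‖trF a g‖ ≤ ‖a‖ * ‖g‖ := by
  have h1 : ‖trF a g‖ ^ 2 ≤ (‖a‖ * ‖g‖) ^ 2 := by
    rw [norm_sq_L2]
    have hi : ∀ i, Integrable (fun x => ‖(g i : En d → En d) x‖ ^ 2) (volume : Measure (En d)) :=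
      fun i => (Lp.memLp (g i)).integrable_norm_pow (by norm_num)
    have h2 : ∫ x, ‖(trF a g : En d → En d) x‖ ^ 2 ≤
        ∫ x, ‖a‖ ^ 2 * ∑ i, ‖(g i : En d → En d) x‖ ^ 2 := by
      refine integral_mono_of_nonneg (Eventually.of_forall fun x => sq_nonneg _)
        ((integrable_finsetSum _ fun i _ => hi i).const_mul _) ?_
      filter_upwards [trF_ae a g, Li_ae_le a] with x hx1 hx2
      rw [hx1]
      have h3 : ‖∑ i, (a : En d → En d) x i • (g i : En d → En d) x‖ ≤
          ∑ i, |(a : En d → En d) x i| * ‖(g i : En d → En d) x‖ := by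
        refine (norm_sum_le _ _).trans (Finset.sum_le_sum fun i _ => ?_)
        rw [norm_smul, Real.norm_eq_abs]
      have h4 : (∑ i, |(a : En d → En d) x i| * ‖(g i : En d → En d) x‖) ^ 2 ≤
          (∑ i, |(a : En d → En d) x i| ^ 2) * ∑ i, ‖(g i : En d → En d) x‖ ^ 2 :=
        Finset.sum_mul_sq_le_sq_mul_sq _ _ _
      have h5 : ∑ i, |(a : En d → En d) x i| ^ 2 = ‖(a : En d → En d) x‖ ^ 2 := by
        rw [EuclideanSpace.norm_sq_eq]
        simp [Real.norm_eq_abs]
      have h6 : ‖(a : En d → En d) x‖ ^ 2 ≤ ‖a‖ ^ 2 := pow_le_pow_left₀ (norm_nonneg _) hx2 2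
      have h7 : 0 ≤ ∑ i, ‖(g i : En d → En d) x‖ ^ 2 := Finset.sum_nonneg fun i _ => sq_nonneg _
      calc ‖∑ i, (a : En d → En d) x i • (g i : En d → En d) x‖ ^ 2
          ≤ (∑ i, |(a : En d → En d) x i| * ‖(g i : En d → En d) x‖) ^ 2 :=
            pow_le_pow_left₀ (norm_nonneg _) h3 2
        _ ≤ ‖(a : En d → En d) x‖ ^ 2 * ∑ i, ‖(g i : En d → En d) x‖ ^ 2 := by
            rw [← h5]
            exact h4
        _ ≤ _ := mul_le_mul_of_nonneg_right h6 h7
    refine h2.trans_eq ?_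
    rw [integral_const_mul, integral_finsetSum _ fun i _ => hi i, mul_pow,
      PiLp.norm_sq_eq_of_L2]
    congr 1
    exact Finset.sum_congr rfl fun i _ => (norm_sq_L2 (g i)).symm
  exact (abs_le_of_sq_le_sq' h1 (by positivity)).2

/-- the transport operator `(a,g) ↦ ∑ a_i g_i` (`a·∇v` for `g = ∇v`) -/
theorem exists_tr0 (d : ℕ) : ∃ T : Li d (En d) →L[ℝ] G2E d →L[ℝ] L2E d, ∀ (a : Li d (En d)) (g : G2E d),
    (T a g : En d → En d) =ᵐ[volume] (fun x => ∑ i, (a : En d → En d) x i • (g i : En d → En d) x) ∧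
    ‖T a g‖ ≤ ‖a‖ * ‖g‖ := by
  have hadd1 : ∀ (a b : Li d (En d)) (g : G2E d), trF (a + b) g = trF a g + trF b g := by
    intro a b g
    refine Lp.ext ?_
    filter_upwards [trF_ae (a + b) g, trF_ae a g, trF_ae b g, Lp.coeFn_add (trF a g) (trF b g),
      Lp.coeFn_add a b] with x h1 h2 h3 h4 h5
    rw [h1, h4, Pi.add_apply, h2, h3, h5, ← Finset.sum_add_distrib]
    exact Finset.sum_congr rfl fun i _ => add_smul _ _ _
  have hsmul1 : ∀ (c : ℝ) (a : Li d (En d)) (g : G2E d), trF (c • a) g = c • trF a g := by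
    intro c a g
    refine Lp.ext ?_
    filter_upwards [trF_ae (c • a) g, trF_ae a g, Lp.coeFn_smul c (trF a g),
      Lp.coeFn_smul c a] with x h1 h2 h4 h5
    rw [h1, h4, Pi.smul_apply, h2, h5, Finset.smul_sum]
    refine Finset.sum_congr rfl fun i _ => ?_
    show (c * (a : En d → En d) x i) • _ = _
    rw [mul_smul]
  have hadd2 : ∀ (a : Li d (En d)) (g k : G2E d), trF a (g + k) = trF a g + trF a k := by
    intro a g k
    refine Lp.ext ?_
    have hae : ∀ᵐ x, ∀ i, ((g + k : G2E d) i : En d → En d) x =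
        (g i : En d → En d) x + (k i : En d → En d) x :=
      ae_all_iff.2 fun i => Lp.coeFn_add (g i) (k i)
    filter_upwards [trF_ae a (g + k), trF_ae a g, trF_ae a k, Lp.coeFn_add (trF a g) (trF a k),
      hae] with x h1 h2 h3 h4 h5
    rw [h1, h4, Pi.add_apply, h2, h3, ← Finset.sum_add_distrib]
    refine Finset.sum_congr rfl fun i _ => ?_
    rw [h5 i, smul_add]
  have hsmul2 : ∀ (c : ℝ) (a : Li d (En d)) (g : G2E d), trF a (c • g) = c • trF a g := by
    intro c a g
    refine Lp.ext ?_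
    have hae : ∀ᵐ x, ∀ i, ((c • g : G2E d) i : En d → En d) x = c • (g i : En d → En d) x :=
      ae_all_iff.2 fun i => Lp.coeFn_smul c (g i)
    filter_upwards [trF_ae a (c • g), trF_ae a g, Lp.coeFn_smul c (trF a g), hae] with x h1 h2 h4 h5
    rw [h1, h4, Pi.smul_apply, h2, Finset.smul_sum]
    refine Finset.sum_congr rfl fun i _ => ?_
    rw [h5 i, smul_comm]
  let L : Li d (En d) →ₗ[ℝ] G2E d →ₗ[ℝ] L2E d := LinearMap.mk₂ ℝ trF hadd1 hsmul1 hadd2 hsmul2
  refine ⟨L.mkContinuous₂ 1 fun a g => ?_, fun a g => ⟨trF_ae a g, trF_le a g⟩⟩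
  rw [one_mul]
  exact trF_le a g

noncomputable def tr0 (d : ℕ) : Li d (En d) →L[ℝ] G2E d →L[ℝ] L2E d := (exists_tr0 d).choose

theorem tr0_ae (a : Li d (En d)) (g : G2E d) : (tr0 d a g : En d → En d) =ᵐ[volume]
    fun x => ∑ i, (a : En d → En d) x i • (g i : En d → En d) x := ((exists_tr0 d).choose_spec a g).1

theorem tr0_le (a : Li d (En d)) (g : G2E d) : ‖tr0 d a g‖ ≤ ‖a‖ * ‖g‖ := ((exists_tr0 d).choose_spec a g).2

private theorem mu_memLp (A : Li d (En d →L[ℝ] En d)) (u : L2E d) :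
    MemLp (fun x => (A : En d → En d →L[ℝ] En d) x ((u : En d → En d) x)) 2
      (volume : Measure (En d)) := by
  have hm : AEStronglyMeasurable (fun x => (A : En d → En d →L[ℝ] En d) x ((u : En d → En d) x))
      (volume : Measure (En d)) := by
    have hc : Continuous fun p : (En d →L[ℝ] En d) × En d => p.1 p.2 :=
      isBoundedBilinearMap_apply.continuous
    exact hc.comp_aestronglyMeasurable ((Lp.aestronglyMeasurable A).prodMk (Lp.aestronglyMeasurable u))
  refine MemLp.of_le_mul (c := ‖A‖) (Lp.memLp u) hm ?_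
  filter_upwards [Li_ae_le A] with x hx
  exact ((A : En d → En d →L[ℝ] En d) x).le_of_opNorm_le hx _

private noncomputable def muF (A : Li d (En d →L[ℝ] En d)) (u : L2E d) : L2E d := (mu_memLp A u).toLp _

private theorem muF_ae (A : Li d (En d →L[ℝ] En d)) (u : L2E d) : (muF A u : En d → En d) =ᵐ[volume]
    fun x => (A : En d → En d →L[ℝ] En d) x ((u : En d → En d) x) := (mu_memLp A u).coeFn_toLp

private theorem muF_le (A : Li d (En d →L[ℝ] En d)) (u : L2E d) : ‖muF A u‖ ≤ ‖A‖ * ‖u‖ := by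
  refine Lp.norm_le_mul_norm_of_ae_le_mul ?_
  filter_upwards [Li_ae_le A, muF_ae A u] with x hx h1
  rw [h1]
  exact ((A : En d → En d →L[ℝ] En d) x).le_of_opNorm_le hx _

/-- multiplication by a bounded matrix field -/
theorem exists_mu0 (d : ℕ) : ∃ T : Li d (En d →L[ℝ] En d) →L[ℝ] L2E d →L[ℝ] L2E d,
    ∀ (A : Li d (En d →L[ℝ] En d)) (u : L2E d),
    (T A u : En d → En d) =ᵐ[volume] (fun x => (A : En d → En d →L[ℝ] En d) x ((u : En d → En d) x)) ∧
    ‖T A u‖ ≤ ‖A‖ * ‖u‖ := by
  have hadd1 : ∀ (A B : Li d (En d →L[ℝ] En d)) (u : L2E d), muF (A + B) u = muF A u + muF B u := by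
    intro A B u
    refine Lp.ext ?_
    filter_upwards [muF_ae (A + B) u, muF_ae A u, muF_ae B u, Lp.coeFn_add (muF A u) (muF B u),
      Lp.coeFn_add A B] with x h1 h2 h3 h4 h5
    rw [h1, h4, Pi.add_apply, h2, h3, h5]
    rfl
  have hsmul1 : ∀ (c : ℝ) (A : Li d (En d →L[ℝ] En d)) (u : L2E d), muF (c • A) u = c • muF A u := by
    intro c A u
    refine Lp.ext ?_
    filter_upwards [muF_ae (c • A) u, muF_ae A u, Lp.coeFn_smul c (muF A u),
      Lp.coeFn_smul c A] with x h1 h2 h4 h5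
    rw [h1, h4, Pi.smul_apply, h2, h5]
    rfl
  have hadd2 : ∀ (A : Li d (En d →L[ℝ] En d)) (u w : L2E d), muF A (u + w) = muF A u + muF A w := by
    intro A u w
    refine Lp.ext ?_
    filter_upwards [muF_ae A (u + w), muF_ae A u, muF_ae A w, Lp.coeFn_add (muF A u) (muF A w),
      Lp.coeFn_add u w] with x h1 h2 h3 h4 h5
    rw [h1, h4, Pi.add_apply, h2, h3, h5, Pi.add_apply, map_add]
  have hsmul2 : ∀ (c : ℝ) (A : Li d (En d →L[ℝ] En d)) (u : L2E d), muF A (c • u) = c • muF A u := by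
    intro c A u
    refine Lp.ext ?_
    filter_upwards [muF_ae A (c • u), muF_ae A u, Lp.coeFn_smul c (muF A u),
      Lp.coeFn_smul c u] with x h1 h2 h4 h5
    rw [h1, h4, Pi.smul_apply, h2, h5, Pi.smul_apply, map_smul]
  let L : Li d (En d →L[ℝ] En d) →ₗ[ℝ] L2E d →ₗ[ℝ] L2E d :=
    LinearMap.mk₂ ℝ muF hadd1 hsmul1 hadd2 hsmul2
  refine ⟨L.mkContinuous₂ 1 fun A u => ?_, fun A u => ⟨muF_ae A u, muF_le A u⟩⟩
  rw [one_mul]
  exact muF_le A u

noncomputable def mu0 (d : ℕ) : Li d (En d →L[ℝ] En d) →L[ℝ] L2E d →L[ℝ] L2E d := (exists_mu0 d).choose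

theorem mu0_ae (A : Li d (En d →L[ℝ] En d)) (u : L2E d) : (mu0 d A u : En d → En d) =ᵐ[volume]
    fun x => (A : En d → En d →L[ℝ] En d) x ((u : En d → En d) x) := ((exists_mu0 d).choose_spec A u).1

theorem mu0_le (A : Li d (En d →L[ℝ] En d)) (u : L2E d) : ‖mu0 d A u‖ ≤ ‖A‖ * ‖u‖ :=
  ((exists_mu0 d).choose_spec A u).2

private theorem tr0_test (a : Li d (En d)) (φ χ : TS D) :
    ⟪tr0 d a (grT D φ), clT D χ⟫ = ∫ x, ∑ i, (a : En d → En d) x i *
      ⟪pd i (φ : En d → En d) x, (χ : En d → En d) x⟫ := by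
  rw [inner_L2]
  refine integral_congr_ae ?_
  have hae : ∀ᵐ x, ∀ i, ((grT D φ) i : En d → En d) x = pd i (φ : En d → En d) x :=
    ae_all_iff.2 fun i => cl_coe (((TS.ts φ).toIsTe.pd i).memLp 2)
  filter_upwards [tr0_ae a (grT D φ), hae, cl_coe ((TS.ts χ).memLp 2)] with x h1 h2 h3
  have h4 : (clT D χ : En d → En d) x = (χ : En d → En d) x := h3
  rw [h1, h4, sum_inner]
  refine Finset.sum_congr rfl fun i _ => ?_
  rw [h2 i, real_inner_smul_left]

private theorem tr0_test_int (a : Li d (En d)) (φ χ : TS D) : Integrable (fun x =>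
    ∑ i, (a : En d → En d) x i * ⟪pd i (φ : En d → En d) x, (χ : En d → En d) x⟫)
      (volume : Measure (En d)) := by
  refine integrable_finsetSum _ fun i _ => ?_
  have h1 : Integrable (fun x => ⟪pd i (φ : En d → En d) x, (χ : En d → En d) x⟫)
      (volume : Measure (En d)) := by
    have hc : Continuous fun x => ⟪pd i (φ : En d → En d) x, (χ : En d → En d) x⟫ :=
      (((TS.ts φ).smooth.pd i).continuous).inner (TS.ts χ).smooth.continuous
    refine hc.integrable_of_hasCompactSupport ?_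
    refine (TS.ts χ).cpt.mono' fun x hx => subset_tsupport _ ?_
    intro h0
    apply hx
    show ⟪pd i (φ : En d → En d) x, (χ : En d → En d) x⟫ = 0
    rw [h0, inner_zero_right]
  have h2 := h1.bdd_mul (c := ‖a‖) (comp_memLi a i).1 (by
    filter_upwards [Li_ae_le a] with x hx
    exact (PiLp.norm_apply_le ((a : En d → En d) x) i).trans hx)
  exact h2

/-- transport by a bounded field which is divergence free in `D` is skew -/
theorem tr0_anti (hD : Bornology.IsBounded D) {a : Li d (En d)} (ha : dz D (a : En d → En d)) (v w : VD D) :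
    ⟪tr0 d a (v : G2E d), ((io D w : HD D) : L2E d)⟫ = -⟪tr0 d a (w : G2E d), ((io D v : HD D) : L2E d)⟫ := by
  have hc1 : Continuous fun v : VD D => tr0 d a (v : G2E d) :=
    (tr0 d a).continuous.comp continuous_subtype_val
  have hc2 : Continuous fun v : VD D => ((io D v : HD D) : L2E d) :=
    continuous_subtype_val.comp (io D).continuous
  refine (vT_dense D).induction_on v ?_ fun φ => ?_
  · exact isClosed_eq (hc1.inner continuous_const) (continuous_const.inner hc2).neg
  refine (vT_dense D).induction_on w ?_ fun χ => ?_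
  · exact isClosed_eq (continuous_const.inner hc2) (hc1.inner continuous_const).neg
  rw [io_vT hD, io_vT hD]
  have e1 : ⟪tr0 d a ((vT D φ : VD D) : G2E d), ((hT D χ : HD D) : L2E d)⟫ =
      ∫ x, ∑ i, (a : En d → En d) x i * ⟪pd i (φ : En d → En d) x, (χ : En d → En d) x⟫ :=
    tr0_test a φ χ
  have e2 : ⟪tr0 d a ((vT D χ : VD D) : G2E d), ((hT D φ : HD D) : L2E d)⟫ =
      ∫ x, ∑ i, (a : En d → En d) x i * ⟪pd i (χ : En d → En d) x, (φ : En d → En d) x⟫ :=
    tr0_test a χ φ
  rw [e1, e2, eq_neg_iff_add_eq_zero, ← integral_add (tr0_test_int a φ χ) (tr0_test_int a χ φ)]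
  have hq : IsTe D fun x => ⟪(φ : En d → En d) x, (χ : En d → En d) x⟫ := by
    refine ⟨(TS.ts φ).smooth.inner (TS.ts χ).smooth, ?_, ?_⟩
    · refine (TS.ts χ).cpt.mono' fun x hx => subset_tsupport _ ?_
      intro h0
      apply hx
      show ⟪(φ : En d → En d) x, (χ : En d → En d) x⟫ = 0
      rw [h0, inner_zero_right]
    · refine (closure_mono fun x hx => ?_).trans (TS.ts χ).supp
      intro h0
      apply hx
      show ⟪(φ : En d → En d) x, (χ : En d → En d) x⟫ = 0
      rw [h0, inner_zero_right]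
  rw [← ha _ hq]
  refine integral_congr_ae (Eventually.of_forall fun x => ?_)
  show (∑ i, (a : En d → En d) x i * ⟪pd i (φ : En d → En d) x, (χ : En d → En d) x⟫) +
    (∑ i, (a : En d → En d) x i * ⟪pd i (χ : En d → En d) x, (φ : En d → En d) x⟫) =
    ⟪(a : En d → En d) x, gd (fun x => ⟪(φ : En d → En d) x, (χ : En d → En d) x⟫) x⟫
  rw [← Finset.sum_add_distrib, PiLp.inner_apply]
  refine Finset.sum_congr rfl fun i _ => ?_
  have h1 : ⟪(φ : En d → En d) x, pd i (χ : En d → En d) x⟫ =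
      ⟪pd i (χ : En d → En d) x, (φ : En d → En d) x⟫ := real_inner_comm _ _
  rw [gd_apply, pd_inner (TS.ts φ).smooth (TS.ts χ).smooth, ← mul_add, h1]
  show _ = ⟪(a : En d → En d) x i, _⟫
  simp [mul_comm]

theorem tr0_skew (hD : Bornology.IsBounded D) {a : Li d (En d)} (ha : dz D (a : En d → En d)) (v : VD D) :
    ⟪tr0 d a (v : G2E d), ((io D v : HD D) : L2E d)⟫ = 0 := by
  have h := tr0_anti hD ha v v
  linarith

end

end Pool.Agent.Lib.MP_79abb3_an.W
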