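import Pool.Agent.Lib.MP_79abb3_an.W.Mol2
import Pool.Agent.Lib.MP_79abb3_an.W.SpG1

/-!
Theorem W, block A: mollified velocities.
-/

set_option autoImplicit false
set_option linter.unusedSectionVars false

open MeasureTheory Set Filter Topology Function
open scoped ENNReal RealInnerProductSpace

namespace Pool.Agent.Lib.MP_79abb3_an.W

section
variable {d : ℕ} {D : Set (En d)}

private theorem L2_memLp (u : L2E d) : MemLp (u : En d → En d) 2 (volume : Measure (En d)) :=
  Lp.memLp u

private theorem L2_loc (u : L2E d) : LocallyIntegrable (u : En d → En d) (volume : Measure (En d)) :=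
  (L2_memLp u).locallyIntegrable one_le_two

private theorem Z4_memLp (u : Z4 d) : MemLp (u : En d → En d) 4 (volume : Measure (En d)) :=
  Lp.memLp u

private theorem one_le_four' : (1 : ℝ≥0∞) ≤ 4 := by norm_num

private theorem Z4_loc (u : Z4 d) : LocallyIntegrable (u : En d → En d) (volume : Measure (En d)) :=
  (Z4_memLp u).locallyIntegrable one_le_four'

private theorem Jn_mem (n : ℕ) (u : L2E d) :
    MemLp (mo n (u : En d → En d)) ∞ (volume : Measure (En d)) := by
  obtain ⟨C, _, h⟩ := mo_sup (d := d) (F := En d) n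
  exact memLi (mo_smo n (L2_loc u)).continuous.aestronglyMeasurable fun x => h _ (L2_memLp u) x

/-- the mollification as an operator `L² → L^∞` -/
theorem exists_Jn (d n : ℕ) : ∃ T : L2E d →L[ℝ] Li d (En d), ∀ u : L2E d,
    (T u : En d → En d) =ᵐ[volume] mo n (u : En d → En d) := by
  obtain ⟨C, hC, h⟩ := mo_sup (d := d) (F := En d) n
  have hcoe : ∀ u : L2E d, (cli (mo n (u : En d → En d)) : En d → En d) =ᵐ[volume]
      mo n (u : En d → En d) := fun u => cli_coe (Jn_mem n u)
  let L : L2E d →ₗ[ℝ] Li d (En d) :=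
    { toFun := fun u => cli (mo n (u : En d → En d))
      map_add' := by
        intro u w
        refine Lp.ext ?_
        have h1 : mo n ((u + w : L2E d) : En d → En d) =
            fun x => mo n (u : En d → En d) x + mo n (w : En d → En d) x := by
          rw [mo_congr n (Lp.coeFn_add u w)]
          exact mo_add n (L2_loc u) (L2_loc w)
        filter_upwards [hcoe (u + w), hcoe u, hcoe w,
          Lp.coeFn_add (cli (mo n (u : En d → En d))) (cli (mo n (w : En d → En d)))] with x h2 h3 h4 h5
        rw [h2, h5, Pi.add_apply, h3, h4, h1]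
      map_smul' := by
        intro c u
        refine Lp.ext ?_
        have h1 : mo n ((c • u : L2E d) : En d → En d) = fun x => c • mo n (u : En d → En d) x := by
          rw [mo_congr n (Lp.coeFn_smul c u)]
          exact mo_smul n c (u : En d → En d)
        filter_upwards [hcoe (c • u), hcoe u,
          Lp.coeFn_smul c (cli (mo n (u : En d → En d)))] with x h2 h3 h5
        rw [h2, RingHom.id_apply, h5, Pi.smul_apply, h3, h1] }
  refine ⟨L.mkContinuous C fun u => ?_, fun u => hcoe u⟩
  refine cli_le (by positivity) fun x => ?_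
  have h1 := h _ (L2_memLp u) x
  rw [Lp.norm_def]
  exact h1

noncomputable def Jn (d n : ℕ) : L2E d →L[ℝ] Li d (En d) := (exists_Jn d n).choose

theorem Jn_ae (n : ℕ) (u : L2E d) : (Jn d n u : En d → En d) =ᵐ[volume] mo n (u : En d → En d) :=
  (exists_Jn d n).choose_spec u

/-- the mollification as an operator of `L⁴` -/
theorem exists_Jz (d n : ℕ) : ∃ T : Z4 d →L[ℝ] Z4 d, ∀ u : Z4 d,
    (T u : En d → En d) =ᵐ[volume] mo n (u : En d → En d) ∧ ‖T u‖ ≤ ‖u‖ := by
  have hm : ∀ u : Z4 d, MemLp (mo n (u : En d → En d)) 4 (volume : Measure (En d)) := fun u =>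
    mo_memLp n one_le_four' (Z4_memLp u)
  have hcoe : ∀ u : Z4 d, ((hm u).toLp _ : En d → En d) =ᵐ[volume] mo n (u : En d → En d) :=
    fun u => (hm u).coeFn_toLp
  have hle : ∀ u : Z4 d, ‖(hm u).toLp _‖ ≤ ‖u‖ := by
    intro u
    rw [Lp.norm_toLp, Lp.norm_def]
    exact ENNReal.toReal_mono (Lp.eLpNorm_ne_top u) (mo_Lp n one_le_four' (Z4_memLp u))
  let L : Z4 d →ₗ[ℝ] Z4 d :=
    { toFun := fun u => (hm u).toLp _
      map_add' := by
        intro u w
        refine Lp.ext ?_
        have h1 : mo n ((u + w : Z4 d) : En d → En d) =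
            fun x => mo n (u : En d → En d) x + mo n (w : En d → En d) x := by
          rw [mo_congr n (Lp.coeFn_add u w)]
          exact mo_add n (Z4_loc u) (Z4_loc w)
        filter_upwards [hcoe (u + w), hcoe u, hcoe w,
          Lp.coeFn_add ((hm u).toLp _) ((hm w).toLp _)] with x h2 h3 h4 h5
        rw [h2, h5, Pi.add_apply, h3, h4, h1]
      map_smul' := by
        intro c u
        refine Lp.ext ?_
        have h1 : mo n ((c • u : Z4 d) : En d → En d) = fun x => c • mo n (u : En d → En d) x := by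
          rw [mo_congr n (Lp.coeFn_smul c u)]
          exact mo_smul n c (u : En d → En d)
        filter_upwards [hcoe (c • u), hcoe u, Lp.coeFn_smul c ((hm u).toLp _)] with x h2 h3 h5
        rw [h2, RingHom.id_apply, h5, Pi.smul_apply, h3, h1] }
  refine ⟨L.mkContinuous 1 fun u => ?_, fun u => ⟨hcoe u, hle u⟩⟩
  rw [one_mul]
  exact hle u

noncomputable def Jz (d n : ℕ) : Z4 d →L[ℝ] Z4 d := (exists_Jz d n).choose

theorem Jz_ae (n : ℕ) (u : Z4 d) : (Jz d n u : En d → En d) =ᵐ[volume] mo n (u : En d → En d) :=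
  ((exists_Jz d n).choose_spec u).1

theorem Jz_le (n : ℕ) (u : Z4 d) : ‖Jz d n u‖ ≤ ‖u‖ := ((exists_Jz d n).choose_spec u).2

theorem Jz_tendsto (u : Z4 d) : Tendsto (fun n => Jz d n u) atTop (𝓝 u) := by
  rw [Lp.tendsto_Lp_iff_tendsto_eLpNorm']
  refine (mo_tendsto one_le_four' (by norm_num) (Z4_memLp u)).congr fun n => ?_
  refine eLpNorm_congr_ae ?_
  filter_upwards [Jz_ae n u] with x hx
  rw [Pi.sub_apply, hx]

private theorem mo_gd (n : ℕ) {q : En d → ℝ} (hq : Smo q) : mo n (gd q) = gd (mo n q) := by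
  ext x i
  rw [gd_apply, mo_pd_smo n hq i]
  have h1 := mo_integrable n hq.gd.continuous.locallyIntegrable x
  have h2 := (EuclideanSpace.proj i : En d →L[ℝ] ℝ).integral_comp_comm h1
  exact h2.symm

/-- mollified velocities are divergence free -/
theorem Jn_dz (n : ℕ) (u : HD D) : dz univ (Jn d n (u : L2E d) : En d → En d) := by
  intro q hq
  have h1 : ∫ x, ⟪(Jn d n (u : L2E d) : En d → En d) x, gd q x⟫ =
      ∫ x, ⟪mo n ((u : L2E d) : En d → En d) x, gd q x⟫ := by
    refine integral_congr_ae ?_
    filter_upwards [Jn_ae n (u : L2E d)] with x hx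
    rw [hx]
  have hgm : MemLp (gd q) 2 (volume : Measure (En d)) := hq.gd.memLp 2
  rw [h1, mo_adj n (L2_memLp (u : L2E d)) hgm, mo_gd n hq.smooth]
  have h2 : Smo (mo n q) := mo_smo n hq.smooth.continuous.locallyIntegrable
  have h3 : HasCompactSupport (mo n q) := by
    refine mo_cpt n (K := tsupport q) (Eventually.of_forall fun x hx => ?_) hq.cpt.isCompact.isBounded
    by_contra h0
    exact hx (subset_tsupport _ h0)
  have h4 : IsTe univ (mo n q) := ⟨h2, h3, subset_univ _⟩
  rw [← inner_cl (u : L2E d) (h4.gd.memLp 2)]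
  exact HD_div u h2 h3

end

end Pool.Agent.Lib.MP_79abb3_an.W
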