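import Pool.Agent.Lib.MP_79abb3_an.W.SpF2
import Pool.Agent.Lib.MP_79abb3_an.W.SpG1b

/-!
Theorem W, block A: Leray's regularised nonlinearity.
-/

set_option autoImplicit false
set_option linter.unusedSectionVars false

open MeasureTheory Set Filter Topology Function
open scoped ENNReal RealInnerProductSpace

namespace Pool.Agent.Lib.MP_79abb3_an.W

section
variable {d : ℕ} {D : Set (En d)}

/-- (composition of `Jn`, `tr0`, `PD` and the inclusions) -/
theorem exists_Nm (D : Set (En d)) (n : ℕ) : ∃ N : HD D →L[ℝ] VD D →L[ℝ] HD D, ∀ (u : HD D) (v : VD D),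
    N u v = PD D (tr0 d (Jn d n (u : L2E d)) (v : G2E d)) := by
  let A : HD D →L[ℝ] G2E d →L[ℝ] L2E d := (tr0 d).comp ((Jn d n).comp (HD D).subtypeL)
  let Q : (G2E d →L[ℝ] L2E d) →L[ℝ] (VD D →L[ℝ] L2E d) := (VD D).subtypeL.precomp (L2E d)
  let P : (VD D →L[ℝ] L2E d) →L[ℝ] (VD D →L[ℝ] HD D) := (PD D).postcomp (VD D)
  exact ⟨P.comp (Q.comp A), fun u v => rfl⟩

/-- `N_n(u) v = P ((ρ_n * u)·∇ v)` -/
noncomputable def Nm (D : Set (En d)) (n : ℕ) : HD D →L[ℝ] VD D →L[ℝ] HD D := (exists_Nm D n).choose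

theorem Nm_apply (n : ℕ) (u : HD D) (v : VD D) :
    Nm D n u v = PD D (tr0 d (Jn d n (u : L2E d)) (v : G2E d)) := (exists_Nm D n).choose_spec u v

private theorem spG2_dz (n : ℕ) (u : HD D) : dz D (Jn d n (u : L2E d) : En d → En d) :=
  fun q hq => Jn_dz n u q ⟨hq.smooth, hq.cpt, subset_univ _⟩

theorem Nm_skew (hD : Bornology.IsBounded D) (n : ℕ) (u : HD D) (v : VD D) : ⟪Nm D n u v, io D v⟫ = 0 := by
  rw [Nm_apply, inner_PD]
  exact tr0_skew hD (spG2_dz n u) v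

theorem Nm_anti (hD : Bornology.IsBounded D) (n : ℕ) (u : HD D) (v w : VD D) :
    ⟪Nm D n u v, io D w⟫ = -⟪Nm D n u w, io D v⟫ := by
  rw [Nm_apply, Nm_apply, inner_PD, inner_PD]
  exact tr0_anti hD (spG2_dz n u) v w

private theorem spG2_int (a : Li d (En d)) (g w : L2E d) (i : Fin d) : Integrable fun x =>
    (a : En d → En d) x i * ⟪(g : En d → En d) x, (w : En d → En d) x⟫ := by
  have h1 : Integrable (fun x => ⟪(g : En d → En d) x, (w : En d → En d) x⟫) :=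
    L2.integrable_inner (𝕜 := ℝ) g w
  have h2 : ∀ᵐ x, ‖(a : En d → En d) x‖ ≤ ‖a‖ := by
    have h3 := ae_le_eLpNormEssSup (f := (a : En d → En d)) (μ := (volume : Measure (En d)))
    filter_upwards [h3] with x hx
    rw [Lp.norm_def, eLpNorm_exponent_top]
    have h4 : eLpNormEssSup (a : En d → En d) volume ≠ ∞ := by
      rw [← eLpNorm_exponent_top]
      exact Lp.eLpNorm_ne_top a
    rw [← toReal_enorm]
    exact ENNReal.toReal_mono h4 hx
  have hai : AEStronglyMeasurable (fun x => (a : En d → En d) x i) volume :=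
    (EuclideanSpace.proj i : En d →L[ℝ] ℝ).continuous.comp_aestronglyMeasurable (Lp.memLp a).1
  refine (h1.norm.const_mul ‖a‖).mono' (hai.mul h1.1) ?_
  filter_upwards [h2] with x hx
  rw [norm_mul]
  exact mul_le_mul_of_nonneg_right ((PiLp.norm_apply_le _ _).trans hx) (norm_nonneg _)

theorem Nm_tri (hd : d = 2 ∨ d = 3) (hD : Bornology.IsBounded D) (n : ℕ) (u v w : VD D) :
    ⟪Nm D n (io D u) v, io D w⟫ = tri d (Jz d n (j4 D u)) (v : G2E d) (j4 D w) := by
  rw [Nm_apply, inner_PD, tri_apply, inner_L2]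
  have e1 : mo n ((((io D u : HD D) : L2E d) : En d → En d)) = mo n (j4 D u : En d → En d) :=
    mo_congr n (j4_ae hd hD u).symm
  have e2 : ∫ x, ⟪(tr0 d (Jn d n ((io D u : HD D) : L2E d)) (v : G2E d) : En d → En d) x,
      (((io D w : HD D) : L2E d) : En d → En d) x⟫ =
      ∫ x, ∑ i, (Jn d n ((io D u : HD D) : L2E d) : En d → En d) x i *
        ⟪(gi v i : En d → En d) x, (((io D w : HD D) : L2E d) : En d → En d) x⟫ := by
    refine integral_congr_ae ?_
    filter_upwards [tr0_ae (Jn d n ((io D u : HD D) : L2E d)) (v : G2E d)] with x hx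
    rw [hx, sum_inner]
    refine Finset.sum_congr rfl fun i _ => ?_
    rw [real_inner_smul_left]
    rfl
  rw [e2, integral_finsetSum _ fun i _ => spG2_int _ _ _ i]
  refine Finset.sum_congr rfl fun i _ => integral_congr_ae ?_
  filter_upwards [Jn_ae n ((io D u : HD D) : L2E d), Jz_ae n (j4 D u), j4_ae hd hD w] with x h1 h2 h3
  rw [h1, h2, h3, e1]
  rfl

/-- the Leray bound, uniformly in `n` -/
theorem Nm_le (hd : d = 2 ∨ d = 3) (hD : Bornology.IsBounded D) : ∃ C : ℝ, 0 ≤ C ∧ ∀ (n : ℕ) (u v w : VD D),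
    |⟪Nm D n (io D u) v, io D w⟫| ≤ C * (‖io D u‖ ^ (1 / 4 : ℝ) * ‖u‖ ^ (3 / 4 : ℝ)) * ‖v‖ *
      (‖io D w‖ ^ (1 / 4 : ℝ) * ‖w‖ ^ (3 / 4 : ℝ)) := by
  obtain ⟨C, hC, h⟩ := j4_le' hd hD
  refine ⟨C * C, by positivity, fun n u v w => ?_⟩
  rw [Nm_tri hd hD]
  refine (tri_le _ _ _).trans ?_
  have e : ‖(v : G2E d)‖ = ‖v‖ := rfl
  rw [e]
  have h1 := (Jz_le n (j4 D u)).trans (h u)
  have h2 := h w
  set U := ‖io D u‖ ^ (1 / 4 : ℝ) * ‖u‖ ^ (3 / 4 : ℝ) with hU
  set W := ‖io D w‖ ^ (1 / 4 : ℝ) * ‖w‖ ^ (3 / 4 : ℝ) with hW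
  have hU0 : 0 ≤ U := by positivity
  have hW0 : 0 ≤ W := by positivity
  calc ‖Jz d n (j4 D u)‖ * ‖v‖ * ‖j4 D w‖ ≤ (C * U) * ‖v‖ * (C * W) := by gcongr
    _ = C * C * U * ‖v‖ * W := by ring

/-- pointwise convergence to the form `b` -/
theorem Nm_tendsto (hd : d = 2 ∨ d = 3) (hD : Bornology.IsBounded D) (u v w : VD D) :
    Tendsto (fun n => ⟪Nm D n (io D u) v, io D w⟫) atTop (𝓝 (bV D u v w)) := by
  rw [bV_apply]
  have h1 : Continuous fun a : Z4 d => tri d a (v : G2E d) (j4 D w) :=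
    ((tri d).continuous.clm_apply continuous_const).clm_apply continuous_const
  refine ((h1.tendsto _).comp (Jz_tendsto (j4 D u))).congr fun n => ?_
  exact (Nm_tri hd hD n u v w).symm

end

end Pool.Agent.Lib.MP_79abb3_an.W
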