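import Pool.Agent.Lib.MP_79abb3_an.W.SpDef
import Pool.Agent.Lib.MP_79abb3_an.W.SpA2
import Pool.Agent.Lib.MP_79abb3_an.W.SpD1
import Pool.Agent.Lib.MP_79abb3_an.W.SpB2
import Pool.Agent.Lib.MP_79abb3_an.W.A3Def
import Pool.Agent.Lib.MP_79abb3_an.W.A3j
import Pool.Agent.Lib.MP_79abb3_an.W.SpG2

section

/-!
Theorem W, block A: the grid of cubes.
-/

set_option autoImplicit false
set_option linter.unusedSectionVars false

open MeasureTheory Set Filter Topology Function
open scoped ENNReal RealInnerProductSpace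

namespace Pool.Agent.Lib.MP_79abb3_an.W

section
variable {d : ℕ} {D : Set (En d)}

/-- the cube with index `k` of the grid of mesh `h` -/
def cube (h : ℝ) (k : Fin d → ℤ) : Set (En d) := {x | ∀ i, h * k i ≤ x i ∧ x i < h * (k i + 1)}

theorem cube_eq_preimage (h : ℝ) (k : Fin d → ℤ) : cube h k =
    (fun x : En d => WithLp.ofLp x) ⁻¹' (Set.pi univ fun i => Ico (h * k i) (h * (k i + 1))) := by
  ext x
  simp only [cube, mem_ofPred_eq, mem_preimage, Set.mem_pi, mem_univ, forall_true_left, mem_Ico]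

theorem cube_meas (h : ℝ) (k : Fin d → ℤ) : MeasurableSet (cube h k) := by
  rw [cube_eq_preimage]
  exact (PiLp.volume_preserving_ofLp (Fin d)).measurable
    (MeasurableSet.univ_pi fun i => measurableSet_Ico)

/-- (`EuclideanSpace.volume_preserving_symm_measurableEquiv_toLp` or its inverse, `Real.volume_pi_Ico`) -/
theorem cube_vol {h : ℝ} (hh : 0 < h) (k : Fin d → ℤ) : volume (cube h k) = ENNReal.ofReal (h ^ d) := by
  rw [cube_eq_preimage, (PiLp.volume_preserving_ofLp (Fin d)).measure_preimage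
    (MeasurableSet.univ_pi fun i => measurableSet_Ico).nullMeasurableSet]
  rw [Real.volume_pi_Ico]
  have h1 : ∀ i : Fin d, ENNReal.ofReal (h * (k i + 1) - h * k i) = ENNReal.ofReal h := by
    intro i
    congr 1
    ring
  rw [Finset.prod_congr rfl fun i _ => h1 i, Finset.prod_const, Finset.card_univ, Fintype.card_fin,
    ENNReal.ofReal_pow hh.le]

theorem mem_cube_iff {h : ℝ} (hh : 0 < h) (k : Fin d → ℤ) (x : En d) :
    x ∈ cube h k ↔ ∀ i, k i = ⌊x i / h⌋ := by
  refine forall_congr' fun i => ?_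
  rw [eq_comm, Int.floor_eq_iff, le_div_iff₀ hh, div_lt_iff₀ hh, mul_comm h, mul_comm h]

theorem cube_disj {h : ℝ} (hh : 0 < h) : Pairwise (Disjoint on fun k : Fin d → ℤ => cube h k) := by
  intro k l hkl
  rw [Function.onFun, Set.disjoint_left]
  intro x hx hx'
  apply hkl
  rw [mem_cube_iff hh] at hx hx'
  ext i
  rw [hx i, hx' i]

theorem cube_cover {h : ℝ} (hh : 0 < h) (x : En d) : ∃ k, x ∈ cube h k := by
  exact ⟨fun i => ⌊x i / h⌋, (mem_cube_iff hh _ x).2 fun i => rfl⟩

/-- a bounded set is covered by finitely many cubes -/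
theorem cube_fin {h : ℝ} (hh : 0 < h) (hD : Bornology.IsBounded D) :
    ∃ S : Finset (Fin d → ℤ), ∀ x ∈ D, ∃ k ∈ S, x ∈ cube h k := by
  obtain ⟨R, hR⟩ := hD.subset_closedBall 0
  refine ⟨Fintype.piFinset fun _ => Finset.Icc ⌊-R / h⌋ ⌊R / h⌋, fun x hx => ?_⟩
  refine ⟨fun i => ⌊x i / h⌋, ?_, (mem_cube_iff hh _ x).2 fun i => rfl⟩
  rw [Fintype.mem_piFinset]
  intro i
  have h1 : ‖x‖ ≤ R := by simpa using hR hx
  have h2 : |x i| ≤ R := by
    have := EuclideanSpace.norm_eq x
    exact (PiLp.norm_apply_le x i).trans h1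
  rw [Finset.mem_Icc]
  exact ⟨Int.floor_le_floor (div_le_div_of_nonneg_right (abs_le.1 h2).1 hh.le),
    Int.floor_le_floor (div_le_div_of_nonneg_right (abs_le.1 h2).2 hh.le)⟩

theorem cube_real {h : ℝ} (hh : 0 < h) (k : Fin d → ℤ) :
    (volume : Measure (En d)).real (cube h k) = h ^ d := by
  rw [measureReal_def, cube_vol hh, ENNReal.toReal_ofReal (pow_nonneg hh.le d)]

theorem cube_finite {h : ℝ} (hh : 0 < h) (k : Fin d → ℤ) : volume (cube h k) < ⊤ := by
  rw [cube_vol hh]
  exact ENNReal.ofReal_lt_top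

/-- continuous functions with compact support are bounded -/
theorem exists_bd {f : En d → En d} (hf : Continuous f) (hc : HasCompactSupport f) :
    ∃ C, ∀ x, ‖f x‖ ≤ C := hc.exists_bound_of_continuous hf

/-- Jensen for the average over one cube: `‖f x - avg‖² ≤ h^{-d} ∫ ‖f x - f y‖² dy` -/
theorem cube_jensen {h : ℝ} (hh : 0 < h) {f : En d → En d} (hf : Continuous f) (hc : HasCompactSupport f)
    (k : Fin d → ℤ) : ∫ x in cube h k, ‖f x - (h ^ d)⁻¹ • ∫ y in cube h k, f y‖ ^ 2 ≤
      (h ^ d)⁻¹ * ∫ x in cube h k, ∫ y in cube h k, ‖f x - f y‖ ^ 2 := by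
  have hpos : 0 < h ^ d := pow_pos hh d
  have : IsFiniteMeasure ((volume : Measure (En d)).restrict (cube h k)) :=
    ⟨by rw [Measure.restrict_apply_univ]; exact cube_finite hh k⟩
  obtain ⟨C, hC⟩ := exists_bd hf hc
  have hC0 : 0 ≤ C := (norm_nonneg _).trans (hC 0)
  set a : En d := (h ^ d)⁻¹ • ∫ y in cube h k, f y with ha
  have hfi : Integrable f ((volume : Measure (En d)).restrict (cube h k)) :=
    Integrable.of_bound hf.aestronglyMeasurable C (Eventually.of_forall hC)
  have hfa : ∫ y in cube h k, f y = (h ^ d) • a := by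
    rw [ha, smul_smul, mul_inv_cancel₀ hpos.ne', one_smul]
  -- integrability
  have hint2 : Integrable (fun p : En d × En d => ‖f p.1 - f p.2‖ ^ 2)
      (((volume : Measure (En d)).restrict (cube h k)).prod
        ((volume : Measure (En d)).restrict (cube h k))) := by
    refine Integrable.of_bound (C := (2 * C) ^ 2) ?_ (Eventually.of_forall fun p => ?_)
    · exact Continuous.aestronglyMeasurable (by fun_prop)
    · rw [Real.norm_of_nonneg (sq_nonneg _)]
      refine pow_le_pow_left₀ (norm_nonneg _) ((norm_sub_le _ _).trans ?_) 2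
      linarith [hC p.1, hC p.2]
  have hint1 : Integrable (fun x => ∫ y in cube h k, ‖f x - f y‖ ^ 2)
      ((volume : Measure (En d)).restrict (cube h k)) := hint2.integral_prod_left
  have hint0 : Integrable (fun x => ‖f x - a‖ ^ 2)
      ((volume : Measure (En d)).restrict (cube h k)) := by
    refine Integrable.of_bound (C := (C + ‖a‖) ^ 2) ?_ (Eventually.of_forall fun p => ?_)
    · exact Continuous.aestronglyMeasurable (by fun_prop)
    · rw [Real.norm_of_nonneg (sq_nonneg _)]
      refine pow_le_pow_left₀ (norm_nonneg _) ((norm_sub_le _ _).trans ?_) 2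
      linarith [hC p]
  rw [← integral_const_mul]
  refine integral_mono hint0 (hint1.const_mul _) fun x => ?_
  show ‖f x - a‖ ^ 2 ≤ (h ^ d)⁻¹ * ∫ y in cube h k, ‖f x - f y‖ ^ 2
  rw [le_inv_mul_iff₀ hpos]
  have h1 : ∫ y in cube h k, (2 * ⟪f x - a, f x - f y⟫ - ‖f x - a‖ ^ 2) =
      h ^ d * ‖f x - a‖ ^ 2 := by
    have h2 : Integrable (fun y => f x - f y) ((volume : Measure (En d)).restrict (cube h k)) :=
      (integrable_const _).sub hfi
    have h3 : Integrable (fun y => ⟪f x - a, f x - f y⟫)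
        ((volume : Measure (En d)).restrict (cube h k)) := h2.const_inner _
    rw [integral_sub (h3.const_mul 2) (integrable_const _), integral_const_mul,
      integral_inner h2, integral_sub (integrable_const _) hfi, hfa, integral_const,
      integral_const, Measure.real, Measure.restrict_apply_univ, ← Measure.real,
      cube_real hh, ← smul_sub, real_inner_smul_right, real_inner_self_eq_norm_sq, smul_eq_mul]
    ring
  rw [← h1]
  have h4 : Integrable (fun y => ‖f x - f y‖ ^ 2)
      ((volume : Measure (En d)).restrict (cube h k)) := by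
    refine Integrable.of_bound (C := (2 * C) ^ 2) ?_ (Eventually.of_forall fun p => ?_)
    · exact Continuous.aestronglyMeasurable (by fun_prop)
    · rw [Real.norm_of_nonneg (sq_nonneg _)]
      refine pow_le_pow_left₀ (norm_nonneg _) ((norm_sub_le _ _).trans ?_) 2
      linarith [hC p, hC x]
  have h5 : Integrable (fun y => 2 * ⟪f x - a, f x - f y⟫ - ‖f x - a‖ ^ 2)
      ((volume : Measure (En d)).restrict (cube h k)) :=
    ((((integrable_const _).sub hfi).const_inner _).const_mul 2).sub (integrable_const _)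
  refine integral_mono h5 h4 fun y => ?_
  show 2 * ⟪f x - a, f x - f y⟫ - ‖f x - a‖ ^ 2 ≤ ‖f x - f y‖ ^ 2
  have h6 : 0 ≤ ‖(f x - a) - (f x - f y)‖ ^ 2 := sq_nonneg _
  rw [norm_sub_sq_real] at h6
  linarith

theorem boxB_compact (h : ℝ) : IsCompact {z : En d | ∀ i, |z i| ≤ h} := by
  rw [Metric.isCompact_iff_isClosed_bounded]
  constructor
  · have : {z : En d | ∀ i, |z i| ≤ h} = ⋂ i, {z : En d | |z i| ≤ h} := by
      ext z
      simp
    rw [this]
    exact isClosed_iInter fun i => isClosed_le (by fun_prop) continuous_const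
  · refine (Metric.isBounded_closedBall (x := (0 : En d)) (r := Real.sqrt (d * h ^ 2))).subset ?_
    intro z hz
    rw [mem_closedBall_zero_iff, EuclideanSpace.norm_eq]
    refine Real.sqrt_le_sqrt ?_
    refine (Finset.sum_le_card_nsmul _ _ (h ^ 2) fun i _ => ?_).trans_eq ?_
    · rw [Real.norm_eq_abs]
      exact pow_le_pow_left₀ (abs_nonneg _) (hz i) 2
    · simp

/-- `∑_k ∫_{Q_k} ∫_{Q_k} ‖f x - f y‖² ≤ ∫_{|z_i| ≤ h} ∫ ‖f (x+z) - f x‖²` (`y = x + z`, the cubes are disjoint) -/
theorem cube_sum {h : ℝ} (hh : 0 < h) {f : En d → En d} (hf : Continuous f) (hc : HasCompactSupport f)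
    (S : Finset (Fin d → ℤ)) :
    ∑ k ∈ S, ∫ x in cube h k, ∫ y in cube h k, ‖f x - f y‖ ^ 2 ≤
      ∫ z in {z : En d | ∀ i, |z i| ≤ h}, ∫ x, ‖f (x + z) - f x‖ ^ 2 := by
  set B : Set (En d) := {z : En d | ∀ i, |z i| ≤ h} with hB
  have hBc : IsCompact B := boxB_compact h
  obtain ⟨C, hC⟩ := exists_bd hf hc
  obtain ⟨ρ, hρ⟩ := hBc.isBounded.subset_closedBall 0
  obtain ⟨R, hR⟩ := hc.isCompact.isBounded.subset_closedBall 0
  have hfR : ∀ x, R < ‖x‖ → f x = 0 := by
    intro x hx
    by_contra h1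
    have := hR (subset_tsupport f h1)
    rw [mem_closedBall_zero_iff] at this
    linarith
  -- integrability of the function of two variables
  have hG : Integrable (fun p : En d × En d => ‖f (p.1 + p.2) - f p.1‖ ^ 2)
      ((volume : Measure (En d)).prod ((volume : Measure (En d)).restrict B)) := by
    have h1 : (volume : Measure (En d)).prod ((volume : Measure (En d)).restrict B) =
        ((volume : Measure (En d)).prod (volume : Measure (En d))).restrict (univ ×ˢ B) := by
      rw [← Measure.prod_restrict, Measure.restrict_univ]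
    rw [h1]
    have h2 : IntegrableOn (fun p : En d × En d => ‖f (p.1 + p.2) - f p.1‖ ^ 2)
        (Metric.closedBall 0 (R + ρ) ×ˢ B) ((volume : Measure (En d)).prod volume) :=
      ContinuousOn.integrableOn_compact ((isCompact_closedBall _ _).prod hBc)
        (Continuous.continuousOn (by fun_prop))
    refine h2.of_forall_sdiff_eq_zero (MeasurableSet.univ.prod hBc.measurableSet) ?_
    rintro ⟨x, z⟩ ⟨h3, h4⟩
    have hz : z ∈ B := h3.2
    have hx : R + ρ < ‖x‖ := by
      by_contra h5
      exact h4 ⟨by rw [mem_closedBall_zero_iff]; linarith, hz⟩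
    have hz' : ‖z‖ ≤ ρ := by simpa using hρ hz
    have hρ0 : 0 ≤ ρ := (norm_nonneg z).trans hz'
    have h6 : f x = 0 := hfR x (by linarith)
    have h7 : f (x + z) = 0 := by
      refine hfR _ ?_
      have := norm_sub_le (x + z) z
      rw [add_sub_cancel_right] at this
      linarith
    show ‖f (x + z) - f x‖ ^ 2 = 0
    rw [h6, h7]
    simp
  have hΨ : Integrable (fun x => ∫ z in B, ‖f (x + z) - f x‖ ^ 2) (volume : Measure (En d)) :=
    hG.integral_prod_left
  have hΨ0 : ∀ x, 0 ≤ ∫ z in B, ‖f (x + z) - f x‖ ^ 2 := fun x =>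
    integral_nonneg fun z => sq_nonneg _
  -- the estimate for one cube
  have h1 : ∀ k ∈ S, ∫ x in cube h k, ∫ y in cube h k, ‖f x - f y‖ ^ 2 ≤
      ∫ x in cube h k, ∫ z in B, ‖f (x + z) - f x‖ ^ 2 := by
    intro k _
    refine integral_mono_of_nonneg (Eventually.of_forall fun x => integral_nonneg fun y => sq_nonneg _)
      hΨ.integrableOn ?_
    refine (ae_restrict_iff' (cube_meas h k)).2 (Eventually.of_forall fun x hx => ?_)
    show ∫ y in cube h k, ‖f x - f y‖ ^ 2 ≤ ∫ z in B, ‖f (x + z) - f x‖ ^ 2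
    rw [← integral_indicator (cube_meas h k), ← integral_indicator hBc.measurableSet,
      ← integral_add_left_eq_self _ x]
    refine integral_mono_of_nonneg (Eventually.of_forall fun z => ?_) ?_
      (Eventually.of_forall fun z => ?_)
    · exact indicator_nonneg (fun y _ => sq_nonneg _) _
    · rw [integrable_indicator_iff hBc.measurableSet]
      exact ContinuousOn.integrableOn_compact hBc (Continuous.continuousOn (by fun_prop))
    · show (cube h k).indicator (fun y => ‖f x - f y‖ ^ 2) (x + z) ≤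
        B.indicator (fun z => ‖f (x + z) - f x‖ ^ 2) z
      by_cases hz : x + z ∈ cube h k
      · have hzB : z ∈ B := by
          intro i
          have h2 := hx i
          have h3 := hz i
          have h4 : (x + z) i = x i + z i := rfl
          rw [h4] at h3
          rw [abs_le]
          constructor <;> nlinarith [h2.1, h2.2, h3.1, h3.2]
        rw [indicator_of_mem hz, indicator_of_mem hzB, norm_sub_rev]
      · rw [indicator_of_notMem hz]
        exact indicator_nonneg (fun y _ => sq_nonneg _) _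
  refine (Finset.sum_le_sum h1).trans ?_
  rw [← integral_biUnion_finset S (fun k _ => cube_meas h k)
    (fun k _ l _ hkl => cube_disj hh hkl) (fun k _ => hΨ.integrableOn)]
  refine (setIntegral_le_integral hΨ (Eventually.of_forall hΨ0)).trans ?_
  rw [integral_integral_swap hG]

end

end Pool.Agent.Lib.MP_79abb3_an.W
end

section

/-!
Theorem W, block A: finite rank approximation.
-/

set_option autoImplicit false
set_option linter.unusedSectionVars false

open MeasureTheory Set Filter Topology Function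
open scoped ENNReal RealInnerProductSpace

namespace Pool.Agent.Lib.MP_79abb3_an.W

section
variable {d : ℕ} {D : Set (En d)}

/-- the average over a cube as an operator of finite rank on `L²` -/
theorem exists_avg {h : ℝ} (hh : 0 < h) (S : Finset (Fin d → ℤ)) : ∃ T : L2E d →L[ℝ] L2E d,
    FiniteDimensional ℝ (LinearMap.range (T : L2E d →ₗ[ℝ] L2E d)) ∧
    ∀ f : L2E d, (T f : En d → En d) =ᵐ[volume]
      fun x => ∑ k ∈ S, (cube h k).indicator (fun _ => (h ^ d)⁻¹ • ∫ y in cube h k, f y) x := by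
  classical
  set b : (Fin d → ℤ) × Fin d → L2E d := fun p =>
    indicatorConstLp 2 (cube_meas h p.1) (cube_finite hh p.1).ne (ei p.2) with hb
  set P : Finset ((Fin d → ℤ) × Fin d) := S ×ˢ (Finset.univ : Finset (Fin d)) with hP
  set T : L2E d →L[ℝ] L2E d := ∑ p ∈ P, (h ^ d)⁻¹ • (innerSL ℝ (b p)).smulRight (b p) with hT
  have hTf : ∀ f : L2E d, T f = ∑ p ∈ P, ((h ^ d)⁻¹ * ⟪b p, f⟫) • b p := by
    intro f
    rw [hT, sum_apply]
    refine Finset.sum_congr rfl fun p _ => ?_
    rw [smul_apply, ContinuousLinearMap.smulRight_apply, innerSL_apply_apply,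
      smul_smul]
  refine ⟨T, ?_, fun f => ?_⟩
  · have h1 : LinearMap.range (T : L2E d →ₗ[ℝ] L2E d) ≤
        Submodule.span ℝ ((P.image b : Finset (L2E d)) : Set (L2E d)) := by
      rintro _ ⟨f, rfl⟩
      show T f ∈ _
      rw [hTf]
      refine Submodule.sum_mem _ fun p hp => Submodule.smul_mem _ _ (Submodule.subset_span ?_)
      exact Finset.mem_coe.2 (Finset.mem_image_of_mem b hp)
    exact Submodule.finiteDimensional_of_le h1
  · rw [hTf]
    have h1 : ∀ᵐ x, ∀ p ∈ P, ((((h ^ d)⁻¹ * ⟪b p, f⟫) • b p : L2E d) : En d → En d) x =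
        ((h ^ d)⁻¹ * ⟪b p, f⟫) • (cube h p.1).indicator (fun _ => (ei p.2 : En d)) x := by
      rw [eventually_all_finset]
      intro p _
      filter_upwards [Lp.coeFn_smul ((h ^ d)⁻¹ * ⟪b p, f⟫) (b p),
        indicatorConstLp_coeFn (p := 2) (hs := cube_meas h p.1) (hμs := (cube_finite hh p.1).ne)
          (c := (ei p.2 : En d))] with x hx1 hx2
      rw [hx1, Pi.smul_apply, hb, hx2]
    filter_upwards [Lp.coeFn_finsetSum P (fun p => ((h ^ d)⁻¹ * ⟪b p, f⟫) • b p), h1] with x hx1 hx2
    rw [hx1, Finset.sum_apply, Finset.sum_congr rfl hx2, hP, Finset.sum_product]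
    refine Finset.sum_congr rfl fun k _ => ?_
    by_cases hx : x ∈ cube h k
    · simp only [indicator_of_mem hx]
      ext j
      have h2 : ∀ i : Fin d, ⟪b (k, i), f⟫ = (∫ y in cube h k, f y) i := by
        intro i
        have h3 := L2.inner_indicatorConstLp_eq_inner_setIntegral (𝕜 := ℝ) (cube_meas h k)
          (cube_finite hh k).ne (ei i : En d) f
        rw [hb]
        simp only
        rw [h3]
        simp [ei, EuclideanSpace.inner_single_left]
      simp only [h2]
      have h4 : (∑ i : Fin d, ((h ^ d)⁻¹ * (∫ y in cube h k, f y) i) • (ei i : En d)) j =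
          ∑ i : Fin d, (((h ^ d)⁻¹ * (∫ y in cube h k, f y) i) • (ei i : En d)) j := by
        rw [WithLp.ofLp_sum, Finset.sum_apply]
      rw [h4, Finset.sum_eq_single j]
      · simp [ei]
      · intro i _ hij
        simp [ei, hij.symm]
      · intro hj
        exact absurd (Finset.mem_univ j) hj
    · simp only [indicator_of_notMem hx, smul_zero, Finset.sum_const_zero]

theorem boxB_vol {h : ℝ} (hh : 0 < h) :
    (volume : Measure (En d)).real {z : En d | ∀ i, |z i| ≤ h} = (2 * h) ^ d := by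
  have h1 : {z : En d | ∀ i, |z i| ≤ h} =
      (fun x : En d => WithLp.ofLp x) ⁻¹' (Set.pi univ fun _ => Icc (-h) h) := by
    ext x
    simp only [mem_ofPred_eq, mem_preimage, Set.mem_pi, mem_univ, forall_true_left, mem_Icc, abs_le]
  rw [measureReal_def, h1, (PiLp.volume_preserving_ofLp (Fin d)).measure_preimage
    (MeasurableSet.univ_pi fun i => measurableSet_Icc).nullMeasurableSet, volume_pi_pi]
  have h2 : volume (Icc (-h) h) = ENNReal.ofReal (2 * h) := by
    rw [Real.volume_Icc]
    congr 1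
    ring
  rw [h2, Finset.prod_const, Finset.card_univ, Fintype.card_fin, ENNReal.toReal_pow,
    ENNReal.toReal_ofReal (by linarith)]

/-- the estimate for one grid -/
theorem approx_key {h : ℝ} (hh : 0 < h) {S : Finset (Fin d → ℤ)}
    (hS : ∀ x ∈ D, ∃ k ∈ S, x ∈ cube h k) {T : L2E d →L[ℝ] L2E d}
    (hT : ∀ f : L2E d, (T f : En d → En d) =ᵐ[volume]
      fun x => ∑ k ∈ S, (cube h k).indicator (fun _ => (h ^ d)⁻¹ • ∫ y in cube h k, f y) x)
    (φ : TS D) :
    ‖clT D φ - T (clT D φ)‖ ^ 2 ≤ 2 ^ d * (d * h ^ 2) * ‖grT D φ‖ ^ 2 := by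
  set f : En d → En d := (φ : En d → En d) with hfdef
  have hfs : Smo f := (TS.ts φ).smooth
  have hf : Continuous f := hfs.continuous
  have hc : HasCompactSupport f := (TS.ts φ).cpt
  have hsupp : tsupport f ⊆ D := (TS.ts φ).supp
  have hfm : MemLp f 2 (volume : Measure (En d)) := (TS.ts φ).memLp 2
  have hcl : (clT D φ : En d → En d) =ᵐ[volume] f := cl_coe hfm
  obtain ⟨C, hC⟩ := exists_bd hf hc
  set a : (Fin d → ℤ) → En d := fun k => (h ^ d)⁻¹ • ∫ y in cube h k, f y with ha
  set g : En d → En d := fun x => ∑ k ∈ S, (cube h k).indicator (fun _ => a k) x with hg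
  have hTg : (T (clT D φ) : En d → En d) =ᵐ[volume] g := by
    filter_upwards [hT (clT D φ)] with x hx
    rw [hx, hg]
    refine Finset.sum_congr rfl fun k _ => ?_
    have h1 : ∫ y in cube h k, (clT D φ : En d → En d) y = ∫ y in cube h k, f y :=
      integral_congr_ae (ae_restrict_of_ae hcl)
    rw [h1]
  have hgk : ∀ k ∈ S, ∀ x ∈ cube h k, g x = a k := by
    intro k hk x hx
    rw [hg]
    simp only
    rw [Finset.sum_eq_single k]
    · rw [indicator_of_mem hx]
    · intro l _ hlk
      rw [indicator_of_notMem]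
      intro hx'
      exact Set.disjoint_left.1 (cube_disj hh hlk) hx' hx
    · intro h1
      exact absurd hk h1
  have hg0 : ∀ x, x ∉ ⋃ k ∈ S, cube h k → f x - g x = 0 := by
    intro x hx
    have h1 : ∀ k ∈ S, x ∉ cube h k := by
      intro k hk hxk
      exact hx (mem_biUnion hk hxk)
    have h2 : g x = 0 := by
      rw [hg]
      exact Finset.sum_eq_zero fun k hk => indicator_of_notMem (h1 k hk) _
    have h3 : f x = 0 := by
      by_contra h4
      obtain ⟨k, hk, hxk⟩ := hS x (hsupp (subset_tsupport f h4))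
      exact h1 k hk hxk
    rw [h2, h3, sub_zero]
  have hnorm : ‖clT D φ - T (clT D φ)‖ ^ 2 = ∫ x, ‖f x - g x‖ ^ 2 := by
    rw [norm_sq_L2]
    refine integral_congr_ae ?_
    filter_upwards [Lp.coeFn_sub (clT D φ) (T (clT D φ)), hcl, hTg] with x h1 h2 h3
    rw [h1, Pi.sub_apply, h2, h3]
  have hint : ∀ k ∈ S, IntegrableOn (fun x => ‖f x - a k‖ ^ 2) (cube h k) volume := by
    intro k _
    have : IsFiniteMeasure ((volume : Measure (En d)).restrict (cube h k)) :=
      ⟨by rw [Measure.restrict_apply_univ]; exact cube_finite hh k⟩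
    refine Integrable.of_bound (C := (C + ‖a k‖) ^ 2) ?_ (Eventually.of_forall fun p => ?_)
    · exact Continuous.aestronglyMeasurable (by fun_prop)
    · rw [Real.norm_of_nonneg (sq_nonneg _)]
      refine pow_le_pow_left₀ (norm_nonneg _) ((norm_sub_le _ _).trans ?_) 2
      linarith [hC p]
  have hint' : ∀ k ∈ S, IntegrableOn (fun x => ‖f x - g x‖ ^ 2) (cube h k) volume := by
    intro k hk
    refine (hint k hk).congr_fun (fun x hx => ?_) (cube_meas h k)
    show ‖f x - a k‖ ^ 2 = ‖f x - g x‖ ^ 2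
    rw [hgk k hk x hx]
  have hsum : ∫ x, ‖f x - g x‖ ^ 2 = ∑ k ∈ S, ∫ x in cube h k, ‖f x - a k‖ ^ 2 := by
    rw [← setIntegral_eq_integral_of_forall_compl_eq_zero (s := ⋃ k ∈ S, cube h k)
      (fun x hx => by rw [hg0 x hx]; simp)]
    rw [integral_biUnion_finset S (fun k _ => cube_meas h k)
      (fun k _ l _ hkl => cube_disj hh hkl) hint']
    refine Finset.sum_congr rfl fun k hk => ?_
    refine setIntegral_congr_fun (cube_meas h k) fun x hx => ?_
    show ‖f x - g x‖ ^ 2 = ‖f x - a k‖ ^ 2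
    rw [hgk k hk x hx]
  have hpos : 0 < h ^ d := pow_pos hh d
  have hG : ‖grT D φ‖ ^ 2 = ∑ i, ∫ x, ‖pd i f x‖ ^ 2 := by
    rw [norm_grT, norm_sq_vT]
  rw [hnorm, hsum]
  calc ∑ k ∈ S, ∫ x in cube h k, ‖f x - a k‖ ^ 2
      ≤ ∑ k ∈ S, (h ^ d)⁻¹ * ∫ x in cube h k, ∫ y in cube h k, ‖f x - f y‖ ^ 2 :=
        Finset.sum_le_sum fun k _ => cube_jensen hh hf hc k
    _ = (h ^ d)⁻¹ * ∑ k ∈ S, ∫ x in cube h k, ∫ y in cube h k, ‖f x - f y‖ ^ 2 := by
        rw [Finset.mul_sum]
    _ ≤ (h ^ d)⁻¹ * ∫ z in {z : En d | ∀ i, |z i| ≤ h}, ∫ x, ‖f (x + z) - f x‖ ^ 2 :=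
        mul_le_mul_of_nonneg_left (cube_sum hh hf hc S) (inv_nonneg.2 hpos.le)
    _ ≤ (h ^ d)⁻¹ * ∫ z in {z : En d | ∀ i, |z i| ≤ h}, (d * h ^ 2) * ‖grT D φ‖ ^ 2 := by
        refine mul_le_mul_of_nonneg_left ?_ (inv_nonneg.2 hpos.le)
        have hfin : volume {z : En d | ∀ i, |z i| ≤ h} ≠ ⊤ := (boxB_compact h).measure_lt_top.ne
        refine integral_mono_of_nonneg
          (Eventually.of_forall fun z => integral_nonneg fun x => sq_nonneg _)
          (integrableOn_const hfin) ?_
        refine (ae_restrict_iff' (boxB_compact h).measurableSet).2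
          (Eventually.of_forall fun z hz => ?_)
        show ∫ x, ‖f (x + z) - f x‖ ^ 2 ≤ (d * h ^ 2) * ‖grT D φ‖ ^ 2
        refine (transl hfs hc z).trans ?_
        rw [hG]
        refine mul_le_mul_of_nonneg_right ?_
          (Finset.sum_nonneg fun i _ => integral_nonneg fun x => sq_nonneg _)
        rw [EuclideanSpace.norm_sq_eq]
        refine (Finset.sum_le_card_nsmul _ _ (h ^ 2) fun i _ => ?_).trans_eq ?_
        · rw [Real.norm_eq_abs]
          exact pow_le_pow_left₀ (abs_nonneg _) (hz i) 2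
        · simp
    _ = 2 ^ d * (d * h ^ 2) * ‖grT D φ‖ ^ 2 := by
        rw [setIntegral_const, boxB_vol hh, smul_eq_mul, mul_pow]
        field_simp

/-- `‖f - T f‖² ≤ 2^d (√d h)² ∑ ‖∂_i f‖²` if `f` is supported in the union of the cubes of `S` (`cube_jensen`, `cube_sum`,
`transl`). -/
theorem exists_fin_approx (hD : Bornology.IsBounded D) {ε : ℝ} (hε : 0 < ε) : ∃ T : L2E d →L[ℝ] L2E d,
    FiniteDimensional ℝ (LinearMap.range (T : L2E d →ₗ[ℝ] L2E d)) ∧
    ∀ φ : TS D, ‖clT D φ - T (clT D φ)‖ ≤ ε * ‖grT D φ‖ := by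
  have hM : (0 : ℝ) < 2 ^ d * (d + 1) := by positivity
  set h : ℝ := ε / Real.sqrt (2 ^ d * (d + 1)) with hh'
  have hh : 0 < h := div_pos hε (Real.sqrt_pos.2 hM)
  have hh2 : 2 ^ d * (d * h ^ 2) ≤ ε ^ 2 := by
    rw [hh', div_pow, Real.sq_sqrt hM.le]
    have h1 : (2 : ℝ) ^ d * (d * (ε ^ 2 / (2 ^ d * (d + 1)))) = ε ^ 2 * (d / (d + 1)) := by
      field_simp
    rw [h1]
    have h2 : (d : ℝ) / (d + 1) ≤ 1 := by
      rw [div_le_one (by positivity)]
      linarith
    nlinarith [sq_nonneg ε]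
  obtain ⟨S, hS⟩ := cube_fin hh hD
  obtain ⟨T, hT1, hT2⟩ := exists_avg hh S
  refine ⟨T, hT1, fun φ => ?_⟩
  have h1 := approx_key hh hS hT2 φ
  have h2 : ‖clT D φ - T (clT D φ)‖ ^ 2 ≤ (ε * ‖grT D φ‖) ^ 2 := by
    rw [mul_pow]
    exact h1.trans (mul_le_mul_of_nonneg_right hh2 (sq_nonneg _))
  exact (abs_le_of_sq_le_sq' h2 (by positivity)).2

end

end Pool.Agent.Lib.MP_79abb3_an.W
end

section

/-!
Theorem W, block A: Rellich: the embedding of `V(D)` into `H(D)` is compact.
-/

set_option autoImplicit false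
set_option linter.unusedSectionVars false

open MeasureTheory Set Filter Topology Function
open scoped ENNReal RealInnerProductSpace

namespace Pool.Agent.Lib.MP_79abb3_an.W

section
variable {d : ℕ} {D : Set (En d)}

/-- an operator with finite dimensional range is compact -/
theorem cpt_of_fin {X Y : Type} [NormedAddCommGroup X] [NormedSpace ℝ X] [NormedAddCommGroup Y] [NormedSpace ℝ Y]
    (T : X →L[ℝ] Y) (h : FiniteDimensional ℝ (LinearMap.range (T : X →ₗ[ℝ] Y))) : IsCompactOperator T := by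
  have h1 : LocallyCompactSpace (LinearMap.range (T : X →ₗ[ℝ] Y)) :=
    have := FiniteDimensional.proper ℝ (LinearMap.range (T : X →ₗ[ℝ] Y))
    inferInstance
  have h2 : IsCompactOperator (T.codRestrict (LinearMap.range (T : X →ₗ[ℝ] Y)) fun x => ⟨x, rfl⟩) :=
    isCompactOperator_of_locallyCompactSpace_dom _
  exact h2.clm_comp (LinearMap.range (T : X →ₗ[ℝ] Y)).subtypeL

/-- `isCompactOperator_of_tendsto` for the operators `T_n ∘ subtype ∘ io` of finite rank (`exists_fin_approx`, density of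
`vT`), then `IsCompactOperator.codRestrict`. -/
theorem io_cpt (hD : Bornology.IsBounded D) : IsCompactOperator (io D) := by
  set J : VD D →L[ℝ] L2E d := (HD D).subtypeL ∘L io D with hJ
  have hpos : ∀ n : ℕ, (0 : ℝ) < 1 / ((n : ℝ) + 1) := fun n => by positivity
  choose T hT1 hT2 using fun n : ℕ => exists_fin_approx hD (hpos n)
  have hbd : ∀ n : ℕ, ‖J - T n ∘L J‖ ≤ 1 / ((n : ℝ) + 1) := by
    intro n
    refine ContinuousLinearMap.opNorm_le_bound _ (hpos n).le fun v => ?_
    have hcl : IsClosed {v : VD D | ‖(J - T n ∘L J) v‖ ≤ 1 / ((n : ℝ) + 1) * ‖v‖} :=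
      isClosed_le (by fun_prop) (by fun_prop)
    have hsub : range (vT D) ⊆ {v : VD D | ‖(J - T n ∘L J) v‖ ≤ 1 / ((n : ℝ) + 1) * ‖v‖} := by
      rintro _ ⟨φ, rfl⟩
      show ‖J (vT D φ) - T n (J (vT D φ))‖ ≤ 1 / ((n : ℝ) + 1) * ‖vT D φ‖
      have h1 : J (vT D φ) = clT D φ := by
        show ((io D (vT D φ) : HD D) : L2E d) = clT D φ
        rw [io_vT hD]
        rfl
      rw [h1, ← norm_grT]
      exact hT2 n φ
    have h2 := hcl.closure_subset_iff.2 hsub
    have h3 : v ∈ closure (range (vT D)) := vT_dense D v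
    exact h2 h3
  have hlim : Tendsto (fun n => T n ∘L J) atTop (𝓝 J) := by
    refine (tendsto_iff_norm_sub_tendsto_zero (E := VD D →L[ℝ] L2E d)).2 ?_
    refine squeeze_zero (fun n => norm_nonneg (T n ∘L J - J)) (fun n => ?_) tendsto_one_div_add_atTop_nhds_zero_nat
    have h5 : ‖T n ∘L J - J‖ = ‖J - T n ∘L J‖ := norm_sub_rev (T n ∘L J) J
    exact h5.le.trans (hbd n)
  have hJc : IsCompactOperator J :=
    isCompactOperator_of_tendsto hlim (Eventually.of_forall fun n => (cpt_of_fin (T n) (hT1 n)).comp_clm J)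
  have h4 := hJc.codRestrict (V := HD D) (fun v => (io D v).2) (Submodule.isClosed_topologicalClosure _)
  exact h4

theorem KD_cpt (hD : Bornology.IsBounded D) : IsCompactOperator (KD D) := by
  exact (io_cpt hD).comp_clm (ContinuousLinearMap.adjoint (io D))

end

end Pool.Agent.Lib.MP_79abb3_an.W
end

section

/-!
Theorem W (MP_79abb3_an), Phase 0: the concrete triple `io D : VD D → HD D` satisfies the hypotheses of block A3.
-/

set_option autoImplicit false
set_option linter.unusedSectionVars false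

open MeasureTheory Set Filter Topology Function
open scoped ENNReal RealInnerProductSpace

namespace Pool.Agent.Lib.MP_79abb3_an.W

variable {d : ℕ} {D : Set (En d)}

/-- `io_inj`, `io_dense`, `io_cpt` -/
theorem io_tri (hD : Bornology.IsBounded D) : IsTri (io D) where
  inj := (injective_iff_map_eq_zero (io D)).2 fun v hv => io_inj hD v hv
  dense := io_dense hD
  cpt := io_cpt hD

/-- `isQ_of_quarter` and `j4_le'` -/
theorem j4_isQ (hd : d = 2 ∨ d = 3) (hD : Bornology.IsBounded D) : IsQ (io D) fun v => ‖j4 D v‖ := by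
  obtain ⟨C, hC, h⟩ := j4_le' hd hD
  refine isQ_of_quarter hC (fun v => norm_nonneg _) fun v => ?_
  rw [mul_assoc]
  exact h v

/-- `Nm_skew`, `Nm_tri`, `tri_le`, `Jz_le` -/
theorem Nm_NB (hd : d = 2 ∨ d = 3) (hD : Bornology.IsBounded D) (n : ℕ) :
    NB (io D) (fun v => ‖j4 D v‖) (Nm D n) where
  skew u v := Nm_skew hD n u v
  bd u v p := by
    rw [Nm_tri hd hD]
    refine (tri_le _ _ _).trans ?_
    exact mul_le_mul_of_nonneg_right (mul_le_mul_of_nonneg_right (Jz_le n _) (norm_nonneg _)) (norm_nonneg _)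

end Pool.Agent.Lib.MP_79abb3_an.W
end
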