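import Pool.Agent.Lib.MP_79abb3_an.W.TrA

/-!
Theorem W, block A: gluing and restriction of trajectories.
-/

set_option autoImplicit false
set_option linter.unusedSectionVars false

open MeasureTheory Set Filter Topology Function
open scoped ENNReal RealInnerProductSpace

namespace Pool.Agent.Lib.MP_79abb3_an.W

section
variable {d : ℕ} {Ω W : Set (En d)} {a b c : ℝ} {u : ℝ → L2E d} {G : ℝ → G2E d}

theorem WTr.sub (h : WTr Ω W a b u G) {a' b' : ℝ} (ha : a ≤ a') (hb : b' ≤ b) : WTr Ω W a' b' u G := by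
  have hr : volume.restrict (Ioc a' b') ≤ volume.restrict (Ioc a b) :=
    Measure.restrict_mono (Ioc_subset_Ioc ha hb) le_rfl
  exact ⟨fun w => (h.wc w).mono (Icc_subset_Icc ha hb), h.gm.mono_measure hr, ae_mono hr h.h0,
    fun t ht q hq => h.div t ⟨ha.trans ht.1, ht.2.trans hb⟩ q hq,
    fun φ s t hs hst ht => h.eq φ s t (ha.trans hs) hst (ht.trans hb)⟩

/-- only the values on `[a,b]` matter -/
theorem WTr.congr (h : WTr Ω W a b u G) {u' : ℝ → L2E d} {G' : ℝ → G2E d} (hu : ∀ t ∈ Icc a b, u' t = u t)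
    (hG : ∀ᵐ t ∂(volume.restrict (Ioc a b)), G' t = G t) : WTr Ω W a b u' G' := by
  refine ⟨fun w => (h.wc w).congr fun t ht => by rw [hu t ht], (memLp_congr_ae hG).2 h.gm, ?_,
    fun t ht q hq => by rw [hu t ht]; exact h.div t ht q hq, fun φ s t hs hst ht => ?_⟩
  · filter_upwards [h.h0, hG, ae_restrict_mem measurableSet_Ioc] with t h1 h2 h3
    rw [h2, hu t ⟨h3.1.le, h3.2⟩]
    exact h1
  · rw [hu t ⟨hs.trans hst, ht⟩, hu s ⟨hs, hst.trans ht⟩, h.eq φ s t hs hst ht]
    refine intervalIntegral.integral_congr fun r hr => ?_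
    rw [uIcc_of_le hst] at hr
    rw [hu r ⟨hs.trans hr.1, hr.2.trans ht⟩]

private theorem traa_te {F : Type} [NormedAddCommGroup F] [NormedSpace ℝ F] {Ω' : Set (En d)} (hΩ : Ω' ⊆ Ω)
    {q : En d → F} (hq : IsTe Ω' q) : IsTe Ω q := ⟨hq.smooth, hq.cpt, hq.supp.trans hΩ⟩

/-- a smaller region, a smaller wall -/
theorem WTr.mono (h : WTr Ω W a b u G) {Ω' W' : Set (En d)} (hΩ : Ω' ⊆ Ω) (hW : W' ⊆ W) :
    WTr Ω' W' a b u G := by
  refine ⟨h.wc, h.gm, ?_, fun t ht q hq => h.div t ht q (traa_te hΩ hq), fun φ s t hs hst ht => ?_⟩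
  · filter_upwards [h.h0] with t h1 ε hε
    obtain ⟨φ, k1, k2, k3, k4, k5⟩ := h1 ε hε
    have hr : (volume : Measure (En d)).restrict Ω' ≤ volume.restrict Ω := Measure.restrict_mono hΩ le_rfl
    exact ⟨φ, k1, k2, k3.mono_right hW, (eLpNorm_mono_measure _ hr).trans k4,
      fun i => (eLpNorm_mono_measure _ hr).trans (k5 i)⟩
  · exact h.eq ⟨(φ : En d → En d), ⟨traa_te hΩ (TS.ts φ).toIsTe, (TS.ts φ).div⟩⟩ s t hs hst ht

private theorem traa_glue (hab : a ≤ b) (hbc : b ≤ c) (h : WTr Ω W a b u G) (h' : WTr Ω W b c u G) :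
    WTr Ω W a c u G := by
  refine ⟨fun w => ?_, ?_, ?_, fun t ht q hq => ?_, fun φ s t hs hst ht => ?_⟩
  · rw [← Icc_union_Icc_eq_Icc hab hbc]
    exact (h.wc w).union_of_isClosed (h'.wc w) isClosed_Icc isClosed_Icc
  · have h1 : MemLp ((Iic b).piecewise G G) 2 (volume.restrict (Ioc a c)) := by
      refine MemLp.piecewise measurableSet_Iic ?_ ?_
      · rw [Measure.restrict_restrict measurableSet_Iic]
        refine h.gm.mono_measure (Measure.restrict_mono ?_ le_rfl)
        rintro t ⟨h1, h2⟩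
        exact ⟨h2.1, h1⟩
      · rw [Measure.restrict_restrict measurableSet_Iic.compl]
        refine h'.gm.mono_measure (Measure.restrict_mono ?_ le_rfl)
        rintro t ⟨h1, h2⟩
        exact ⟨not_le.1 h1, h2.2⟩
    rwa [Set.piecewise_same] at h1
  · rw [← Ioc_union_Ioc_eq_Ioc hab hbc, ae_restrict_union_iff]
    exact ⟨h.h0, h'.h0⟩
  · rcases le_total t b with h1 | h1
    · exact h.div t ⟨ht.1, h1⟩ q hq
    · exact h'.div t ⟨h1, ht.2⟩ q hq
  · rcases le_total t b with h1 | h1
    · exact h.eq φ s t hs hst h1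
    · rcases le_total b s with h2 | h2
      · exact h'.eq φ s t h2 hst ht
      · rw [← intervalIntegral.integral_add_adjacent_intervals (h.int φ hs h2 le_rfl) (h'.int φ le_rfl h1 ht),
          ← h.eq φ s b hs h2 le_rfl, ← h'.eq φ b t le_rfl h1 ht]
        ring

/-- gluing at a common time -/
theorem WTr.glue (hab : a ≤ b) (hbc : b ≤ c) (h : WTr Ω W a b u G) {u' : ℝ → L2E d} {G' : ℝ → G2E d}
    (h' : WTr Ω W b c u' G') (hu : u b = u' b) :
    WTr Ω W a c (fun t => if t ≤ b then u t else u' t) (fun t => if t ≤ b then G t else G' t) := by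
  refine traa_glue hab hbc (h.congr (fun t ht => if_pos ht.2) ?_) (h'.congr (fun t ht => ?_) ?_)
  · filter_upwards [ae_restrict_mem measurableSet_Ioc] with t ht
    exact if_pos ht.2
  · by_cases h1 : t ≤ b
    · have h2 : t = b := le_antisymm h1 ht.1
      rw [if_pos h1, h2, hu]
    · exact if_neg h1
  · filter_upwards [ae_restrict_mem measurableSet_Ioc] with t ht
    exact if_neg (not_le.2 ht.1)

/-- time shift -/
theorem WTr.shift (h : WTr Ω W a b u G) (s : ℝ) :
    WTr Ω W (a + s) (b + s) (fun t => u (t - s)) (fun t => G (t - s)) := by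
  have hm : MeasurePreserving (fun t : ℝ => t - s) (volume.restrict (Ioc (a + s) (b + s)))
      (volume.restrict (Ioc a b)) := by
    have h1 := (measurePreserving_sub_right (volume : Measure ℝ) s).restrict_preimage
      (measurableSet_Ioc (a := a) (b := b))
    rwa [Set.preimage_sub_const_Ioc] at h1
  refine ⟨fun w => ?_, h.gm.comp_measurePreserving hm, hm.quasiMeasurePreserving.ae h.h0,
    fun t ht q hq => h.div (t - s) ⟨by linarith [ht.1], by linarith [ht.2]⟩ q hq, fun φ r t hr hrt ht => ?_⟩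
  · exact (h.wc w).comp (continuous_id.sub continuous_const).continuousOn
      fun t ht => ⟨le_sub_iff_add_le.2 ht.1, sub_le_iff_le_add.2 ht.2⟩
  · rw [h.eq φ (r - s) (t - s) (by linarith) (by linarith) (by linarith)]
    exact (intervalIntegral.integral_comp_sub_right
      (fun r => ⟪u r, cl (lap (φ : En d → En d))⟫ + quad (u r) (φ : En d → En d)) s).symm

/-- rest -/
theorem WTr.zero : WTr Ω W a b (fun _ => (0 : L2E d)) (fun _ => 0) := by
  have hz : ∀ s : Set (En d), ((0 : L2E d) : En d → En d) =ᵐ[volume.restrict s] fun _ => 0 := fun s =>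
    ae_restrict_of_ae (Lp.coeFn_zero (En d) 2 (volume : Measure (En d)))
  refine ⟨fun w => ?_, MemLp.zero, Eventually.of_forall fun t ε hε => ?_, fun t _ q _ => inner_zero_left _,
    fun φ s t _ _ _ => ?_⟩
  · simp only [inner_zero_left]
    exact continuousOn_const
  · refine ⟨fun _ => 0, contDiff_const, HasCompactSupport.zero, ?_, ?_, fun i => ?_⟩
    · have : tsupport (fun _ : En d => (0 : En d)) = ∅ := tsupport_eq_empty_iff.2 rfl
      rw [this]
      exact disjoint_bot_left
    · have h1 : (fun x => ((0 : L2E d) : En d → En d) x - 0) =ᵐ[volume.restrict Ω] fun _ => 0 := by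
        filter_upwards [hz Ω] with x hx
        rw [hx, sub_zero]
      rw [eLpNorm_congr_ae h1]
      simp
    · have h1 : (fun x => (((0 : G2E d) i : L2E d) : En d → En d) x - pd i (fun _ : En d => (0 : En d)) x)
          =ᵐ[volume.restrict Ω] fun _ => 0 := by
        filter_upwards [hz Ω] with x hx
        have h2 : pd i (fun _ : En d => (0 : En d)) x = 0 := by
          unfold pd
          rw [fderiv_fun_const]
          rfl
        rw [h2, sub_zero]
        exact hx
      rw [eLpNorm_congr_ae h1]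
      simp
  · have hq : quad (0 : L2E d) (φ : En d → En d) = 0 := by
      unfold quad
      rw [integral_eq_zero_of_ae]
      filter_upwards [Lp.coeFn_zero (En d) 2 (volume : Measure (En d))] with x hx
      rw [hx]
      simp
    simp only [inner_zero_left, hq, sub_zero, add_zero, intervalIntegral.integral_zero]

/-- Existence form of gluing, for the concatenation of many pieces: `Mv Ω W x y τ`: from the state `x` to `y` in time `τ`. -/
def Mv (Ω W : Set (En d)) (τ : ℝ) (x y : L2E d) : Prop :=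
  ∃ (u : ℝ → L2E d) (G : ℝ → G2E d), WTr Ω W 0 τ u G ∧ u 0 = x ∧ u τ = y

theorem Mv.trans {σ τ : ℝ} (hσ : 0 ≤ σ) (hτ : 0 ≤ τ) {x y z : L2E d} (h1 : Mv Ω W σ x y) (h2 : Mv Ω W τ y z) :
    Mv Ω W (σ + τ) x z := by
  obtain ⟨u, G, hu, u0, u1⟩ := h1
  obtain ⟨v, K, hv, v0, v1⟩ := h2
  have hs := hv.shift σ
  rw [zero_add, add_comm τ σ] at hs
  have hb : u σ = (fun t => v (t - σ)) σ := by
    simp only [sub_self]
    rw [u1, v0]
  refine ⟨_, _, hu.glue hσ (by linarith) hs hb, ?_, ?_⟩
  · rw [if_pos hσ, u0]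
  · by_cases h3 : σ + τ ≤ σ
    · have h4 : τ = 0 := by linarith
      rw [if_pos h3, h4, add_zero, u1, ← v0, ← v1, h4]
    · rw [if_neg h3, add_sub_cancel_left, v1]

theorem Mv.zero (τ : ℝ) : Mv Ω W τ (0 : L2E d) 0 := by
  exact ⟨_, _, WTr.zero, rfl, rfl⟩

theorem Mv.mono {τ : ℝ} {x y : L2E d} (h : Mv Ω W τ x y) {Ω' W' : Set (En d)} (hΩ : Ω' ⊆ Ω) (hW : W' ⊆ W) :
    Mv Ω' W' τ x y := by
  obtain ⟨u, G, hu, u0, u1⟩ := h
  exact ⟨u, G, hu.mono hΩ hW, u0, u1⟩

end

end Pool.Agent.Lib.MP_79abb3_an.W
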