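import Pool.Agent.Lib.MP_79abb3_an.W.A3g
import Pool.Agent.Lib.MP_79abb3_an.W.A3gb
import Pool.Agent.Lib.MP_79abb3_an.W.EMb
import Pool.Agent.Lib.MP_79abb3_an.W.EMDef
import Pool.Agent.Lib.MP_79abb3_an.W.TrA2
import Pool.Agent.Lib.MP_79abb3_an.W.SpG2
import Pool.Agent.Lib.MP_79abb3_an.W.TrB
import Pool.Agent.Lib.MP_79abb3_an.W.EMe
import Pool.Agent.Lib.MP_79abb3_an.W.A3hd
import Pool.Agent.Lib.MP_79abb3_an.W.A3le
import Pool.Agent.Lib.MP_79abb3_an.W.P0f1
import Pool.Agent.Lib.MP_79abb3_an.W.Def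

section

/-!
Theorem W (MP_79abb3_an), block F: the energy estimate for a short strong force (abstract).
-/

set_option autoImplicit false
set_option linter.unusedSectionVars false

open MeasureTheory Set Filter Topology Function
open scoped InnerProductSpace

namespace Pool.Agent.Lib.MP_79abb3_an.W

section

variable {H V : Type} [NormedAddCommGroup H] [InnerProductSpace ℝ H] [CompleteSpace H]
  [NormedAddCommGroup V] [InnerProductSpace ℝ V] [CompleteSpace V] {ι : V →L[ℝ] H} {τ M : ℝ}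
  {G : H} {N : H →L[ℝ] V →L[ℝ] H} {e : ℝ → V} {p₀ p₁ : V} {h₀ h₁ : H}

/-- The affine curve `s t = p₀ + (t / τ) (p₁ - p₀)` solves the tested equation with the right side
`A (s t) + ι (p₁ - p₀) / τ`, where `A p₀ = h₀`, `A p₁ = h₁`. -/
theorem er_affine (hτ : 0 < τ) (e0 : ∀ v, ⟪p₀, v⟫_ℝ = ⟪h₀, ι v⟫_ℝ) (e1 : ∀ v, ⟪p₁, v⟫_ℝ = ⟪h₁, ι v⟫_ℝ) :
    TstR ι 1 0 τ (fun t => p₀ + (t / τ) • (p₁ - p₀))
      (fun t => h₀ + (t / τ) • (h₁ - h₀) + τ⁻¹ • (ι p₁ - ι p₀)) := by
  refine ⟨by fun_prop, by fun_prop, fun p s t _ _ _ => ?_⟩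
  have h1 : ∀ r : ℝ, -(1 * ⟪p₀ + (r / τ) • (p₁ - p₀), p⟫_ℝ) +
      ⟪h₀ + (r / τ) • (h₁ - h₀) + τ⁻¹ • (ι p₁ - ι p₀), ι p⟫_ℝ = τ⁻¹ * ⟪ι p₁ - ι p₀, ι p⟫_ℝ := by
    intro r
    simp only [inner_add_left, inner_sub_left, real_inner_smul_left, e0, e1]
    ring
  simp only [h1]
  rw [intervalIntegral.integral_const, map_add, map_add, map_smul, map_smul, map_sub]
  simp only [inner_add_left, inner_sub_left, real_inner_smul_left, smul_eq_mul]
  field_simp
  ring

/-- **Energy estimate.** `d = e - s`, `w = ι d`: by `TstR.sub` and `TstR.deriv`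
`(‖w‖²)' = 2 (-‖d‖² + ⟪G - ι s', w⟫ - ⟪N (ι e) e, w⟫ - ⟪s, d⟫)`, `⟪N (ι e) e, w⟫ = ⟪N (ι e) s, w⟫ ≤ M (‖w‖ + ‖ι s‖) ‖w‖` (skewness),
so `(‖w‖²)' ≤ ‖s‖² / 2 + 2 ρ ‖w‖ + 3 M ‖w‖² + M ‖ι s‖²`, `ρ = ‖G - ι s'‖ = η / τ`. With `m = sup ‖w‖` on `[0, τ]`:
`m² ≤ ‖w 0‖² + τ (A² / 2 + M B²) + 2 η m + 3 M τ m² ≤ ‖w 0‖² + τ (A² / 2 + M B²) + 4 η² + m² / 2`. -/
theorem er_energy (hτ : 0 < τ) (hM : 0 ≤ M) (hMτ : 12 * M * τ ≤ 1)
    (e0 : ∀ v, ⟪p₀, v⟫_ℝ = ⟪h₀, ι v⟫_ℝ) (e1 : ∀ v, ⟪p₁, v⟫_ℝ = ⟪h₁, ι v⟫_ℝ)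
    (hN : ∀ u v, ⟪N u v, ι v⟫_ℝ = 0) (n0 : ∀ u, ‖N u p₀‖ ≤ M * ‖u‖) (n1 : ∀ u, ‖N u p₁‖ ≤ M * ‖u‖)
    (he : RSol ι 1 (fun _ => 0) (fun _ => G) N 0 τ e) :
    ‖ι (e τ) - ι p₁‖ ^ 2 ≤ 2 * ‖ι (e 0) - ι p₀‖ ^ 2 + 8 * ‖τ • G - (ι p₁ - ι p₀)‖ ^ 2 +
      ((‖p₀‖ + ‖p₁‖) ^ 2 + 2 * M * (‖ι p₀‖ + ‖ι p₁‖) ^ 2) * τ := by
  set s : ℝ → V := fun t => p₀ + (t / τ) • (p₁ - p₀) with hs
  set A : ℝ := ‖p₀‖ + ‖p₁‖ with hA
  set B : ℝ := ‖ι p₀‖ + ‖ι p₁‖ with hB
  set η : ℝ := ‖τ • G - (ι p₁ - ι p₀)‖ with hη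
  have hA0 : 0 ≤ A := by positivity
  have hB0 : 0 ≤ B := by positivity
  have hη0 : 0 ≤ η := norm_nonneg _
  have hd := TstR.sub he (er_affine (ι := ι) hτ e0 e1)
  set d : ℝ → V := fun t => e t - s t with hdd
  have hcont : ContinuousOn (fun t => ‖ι (d t)‖) (Icc 0 τ) := (ι.continuous.comp_continuousOn hd.cont).norm
  obtain ⟨t₀, ht₀, hmax⟩ := isCompact_Icc.exists_isMaxOn (nonempty_Icc.2 hτ.le) hcont
  set m : ℝ := ‖ι (d t₀)‖ with hm
  have hm0 : 0 ≤ m := norm_nonneg _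
  have hle : ∀ t ∈ Icc 0 τ, ‖ι (d t)‖ ≤ m := fun t ht => hmax ht
  -- the derivative
  set C : ℝ := A ^ 2 / 2 + 2 * (η / τ) * m + 3 * M * m ^ 2 + M * B ^ 2 with hC
  have hstep : ∀ t ∈ Icc 0 τ, 2 * (-(1 * ‖d t‖ ^ 2) + ⟪Rhs ι (fun _ => 0) (fun _ => G) N t (e t) -
      (h₀ + (t / τ) • (h₁ - h₀) + τ⁻¹ • (ι p₁ - ι p₀)), ι (d t)⟫_ℝ) ≤ C := by
    intro t ht
    have hθ0 : 0 ≤ t / τ := div_nonneg ht.1 hτ.le
    have hθ1 : t / τ ≤ 1 := (div_le_one hτ).2 ht.2
    set θ : ℝ := t / τ with hθ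
    have hst : s t = (1 - θ) • p₀ + θ • p₁ := by
      rw [hs]
      simp only
      rw [← hθ]
      module
    have hsn : ‖s t‖ ≤ A := by
      rw [hst]
      refine (norm_add_le _ _).trans ?_
      rw [norm_smul, norm_smul, Real.norm_of_nonneg (sub_nonneg.2 hθ1), Real.norm_of_nonneg hθ0]
      nlinarith [norm_nonneg p₀, norm_nonneg p₁]
    have hisn : ‖ι (s t)‖ ≤ B := by
      rw [hst, map_add, map_smul, map_smul]
      refine (norm_add_le _ _).trans ?_
      rw [norm_smul, norm_smul, Real.norm_of_nonneg (sub_nonneg.2 hθ1), Real.norm_of_nonneg hθ0]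
      nlinarith [norm_nonneg (ι p₀), norm_nonneg (ι p₁)]
    have het : e t = d t + s t := by
      rw [hdd]
      simp
    have hNs : ‖N (ι (e t)) (s t)‖ ≤ M * (m + B) := by
      have k1 : ‖ι (e t)‖ ≤ m + B := by
        rw [het, map_add]
        exact (norm_add_le _ _).trans (add_le_add (hle t ht) hisn)
      have k2 : ‖N (ι (e t)) (s t)‖ ≤ M * ‖ι (e t)‖ := by
        rw [hst, map_add, map_smul, map_smul]
        refine (norm_add_le _ _).trans ?_
        rw [norm_smul, norm_smul, Real.norm_of_nonneg (sub_nonneg.2 hθ1), Real.norm_of_nonneg hθ0]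
        have j0 := mul_le_mul_of_nonneg_left (n0 (ι (e t))) (sub_nonneg.2 hθ1)
        have j1 := mul_le_mul_of_nonneg_left (n1 (ι (e t))) hθ0
        linarith
      exact k2.trans (mul_le_mul_of_nonneg_left k1 hM)
    have hq : ‖G - τ⁻¹ • (ι p₁ - ι p₀)‖ = η / τ := by
      have k1 : G - τ⁻¹ • (ι p₁ - ι p₀) = τ⁻¹ • (τ • G - (ι p₁ - ι p₀)) := by
        rw [smul_sub τ⁻¹ (τ • G), smul_smul, inv_mul_cancel₀ hτ.ne', one_smul]
      rw [k1, norm_smul, norm_inv, Real.norm_of_nonneg hτ.le, hη]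
      ring
    have hin : ⟪Rhs ι (fun _ => 0) (fun _ => G) N t (e t) -
        (h₀ + θ • (h₁ - h₀) + τ⁻¹ • (ι p₁ - ι p₀)), ι (d t)⟫_ℝ =
        ⟪G - τ⁻¹ • (ι p₁ - ι p₀), ι (d t)⟫_ℝ - ⟪N (ι (e t)) (s t), ι (d t)⟫_ℝ - ⟪s t, d t⟫_ℝ := by
      have k1 : ⟪s t, d t⟫_ℝ = ⟪h₀ + θ • (h₁ - h₀), ι (d t)⟫_ℝ := by
        rw [hst]
        simp only [inner_add_left, inner_sub_left, real_inner_smul_left, e0, e1]
        ring
      have k2 : ⟪N (ι (e t)) (e t), ι (d t)⟫_ℝ = ⟪N (ι (e t)) (s t), ι (d t)⟫_ℝ := by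
        have k3 : N (ι (e t)) (e t) = N (ι (e t)) (d t) + N (ι (e t)) (s t) := by
          rw [← map_add, ← het]
        rw [k3, inner_add_left, hN, zero_add]
      have k4 : Rhs ι (fun _ => 0) (fun _ => G) N t (e t) = G - N (ι (e t)) (e t) := by
        unfold Rhs
        simp
      rw [k4, k1, ← k2]
      simp only [inner_add_left, inner_sub_left, real_inner_smul_left]
      ring
    rw [hin]
    have i1 : ⟪G - τ⁻¹ • (ι p₁ - ι p₀), ι (d t)⟫_ℝ ≤ η / τ * m := by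
      refine (real_inner_le_norm _ _).trans ?_
      rw [hq]
      exact mul_le_mul_of_nonneg_left (hle t ht) (div_nonneg hη0 hτ.le)
    have i2 : -⟪N (ι (e t)) (s t), ι (d t)⟫_ℝ ≤ M * (m + B) * m := by
      refine (neg_le_abs _).trans ((abs_real_inner_le_norm _ _).trans ?_)
      exact mul_le_mul hNs (hle t ht) (norm_nonneg _) (by positivity)
    have i3 : -⟪s t, d t⟫_ℝ ≤ A * ‖d t‖ := by
      refine (neg_le_abs _).trans ((abs_real_inner_le_norm _ _).trans ?_)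
      exact mul_le_mul_of_nonneg_right hsn (norm_nonneg _)
    have i4 : A * ‖d t‖ - ‖d t‖ ^ 2 ≤ A ^ 2 / 4 := by nlinarith [sq_nonneg (A / 2 - ‖d t‖)]
    have i5 : 2 * (M * (m + B) * m) ≤ 3 * M * m ^ 2 + M * B ^ 2 := by
      nlinarith [mul_nonneg hM (sq_nonneg (m - B))]
    rw [hC]
    linarith
  have hbd : ∀ t ∈ Icc 0 τ, ‖ι (d t)‖ ^ 2 ≤ ‖ι (d 0)‖ ^ 2 + C * t := by
    refine image_le_of_deriv_right_le_deriv_boundary (hcont.pow 2)
      (fun x hx => (hd.deriv ⟨hx.1, hx.2.le⟩).mono_of_mem_nhdsWithin (Icc_mem_nhdsGE_of_mem hx))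
      (B' := fun _ => C) (by simp) (by fun_prop) (fun x _ => ?_) (fun x hx => hstep x ⟨hx.1, hx.2.le⟩)
    have h1 : HasDerivAt (fun t : ℝ => ‖ι (d 0)‖ ^ 2 + C * t) (C * 1) x :=
      ((hasDerivAt_id x).const_mul C).const_add _
    rw [mul_one] at h1
    exact h1.hasDerivWithinAt
  have hC0 : 0 ≤ C := by positivity
  have hfin := hbd t₀ ht₀
  have hCt : C * t₀ ≤ C * τ := mul_le_mul_of_nonneg_left ht₀.2 hC0
  have hCτ : C * τ = τ * (A ^ 2 / 2 + M * B ^ 2) + 2 * η * m + 3 * (M * τ) * m ^ 2 := by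
    rw [hC]
    field_simp
    ring
  have hd0 : ι (d 0) = ι (e 0) - ι p₀ := by
    rw [hdd, hs]
    simp
  have hdτ : ι (d τ) = ι (e τ) - ι p₁ := by
    rw [hdd, hs]
    simp [hτ.ne']
  have hτm := hle τ ⟨hτ.le, le_rfl⟩
  rw [hdτ] at hτm
  rw [hd0] at hfin
  have j1 : ‖ι (e τ) - ι p₁‖ ^ 2 ≤ m ^ 2 := pow_le_pow_left₀ (norm_nonneg _) hτm 2
  have j2 : 3 * (M * τ) * m ^ 2 ≤ m ^ 2 / 4 := by nlinarith [sq_nonneg m]
  have j3 : 2 * η * m ≤ m ^ 2 / 4 + 4 * η ^ 2 := by nlinarith [sq_nonneg (m / 2 - 2 * η)]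
  have j4 : m ^ 2 ≤ ‖ι (e 0) - ι p₀‖ ^ 2 + C * t₀ := hfin
  nlinarith

end

end Pool.Agent.Lib.MP_79abb3_an.W
end

section

/-!
Theorem W, block EM: moving points.
-/

set_option autoImplicit false
set_option linter.unusedSectionVars false

open MeasureTheory Set Filter Topology Function
open scoped ENNReal RealInnerProductSpace

namespace Pool.Agent.Lib.MP_79abb3_an.W

variable {d : ℕ}

/-- **Moving a point.** Two points of a ball whose distance is less than the radius of a ball around `x` are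
exchanged by a local rotation (by the angle `π` around the midpoint). -/
theorem exists_rot (hd : 2 ≤ d) {x y : En d} {ρ : ℝ} (hxy : ‖y - x‖ < ρ) (hne : x ≠ y) :
    ∃ R : Rot d, Metric.closedBall R.c R.r ⊆ Metric.ball x ρ ∧ R.X 1 x = y := by
  set a : ℝ := ‖y - x‖ / 2 with ha
  have hyx : 0 < ‖y - x‖ := norm_pos_iff.mpr (sub_ne_zero.mpr (Ne.symm hne))
  have ha0 : 0 < a := by positivity
  obtain ⟨r, hr1, hr2⟩ : ∃ r, a < r ∧ r < ρ - a := exists_between (by linarith)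
  have hr0 : 0 < r := ha0.trans hr1
  set c : En d := (1 / 2 : ℝ) • (x + y) with hc
  have hxc : x - c = (-(1 / 2) : ℝ) • (y - x) := by rw [hc]; module
  have hnxc : ‖x - c‖ = a := by
    rw [hxc, norm_smul, Real.norm_eq_abs, abs_neg, abs_of_pos (by norm_num : (0 : ℝ) < 1 / 2), ha]
    ring
  have hxc0 : x - c ≠ 0 := norm_pos_iff.mp (by rw [hnxc]; exact ha0)
  -- a unit vector orthogonal to `x - c`
  obtain ⟨w₀, hw₀, hw₀'⟩ : ∃ w₀ ∈ (ℝ ∙ (x - c))ᗮ, w₀ ≠ 0 := by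
    refine Submodule.exists_mem_ne_zero_of_ne_bot fun h => ?_
    rw [Submodule.orthogonal_eq_bot_iff] at h
    have h1 := finrank_span_singleton (K := ℝ) hxc0
    rw [h, finrank_top, finrank_euclideanSpace_fin] at h1
    omega
  have hw₀n : 0 < ‖w₀‖ := norm_pos_iff.mpr hw₀'
  have hort : ⟪x - c, w₀⟫ = 0 := Submodule.mem_orthogonal_singleton_iff_inner_right.mp hw₀
  have hden : 0 < r ^ 2 - a ^ 2 := by nlinarith
  let R : Rot d :=
    { c := c
      r := r
      u := a⁻¹ • (x - c)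
      w := ‖w₀‖⁻¹ • w₀
      η := fun s => Real.pi * Real.smoothTransition ((r ^ 2 - s) / (r ^ 2 - a ^ 2))
      r0 := hr0
      hu := by rw [norm_smul, hnxc, norm_inv, Real.norm_eq_abs, abs_of_pos ha0, inv_mul_cancel₀ ha0.ne']
      hw := by rw [norm_smul, norm_inv, norm_norm, inv_mul_cancel₀ hw₀n.ne']
      huw := by rw [inner_smul_left, inner_smul_right, hort]; simp
      smo := by
        refine contDiff_const.mul (Real.smoothTransition.contDiff.comp ?_)
        fun_prop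
      hη := fun s hs => by
        rw [Real.smoothTransition.zero_of_nonpos, mul_zero]
        exact div_nonpos_of_nonpos_of_nonneg (by linarith) hden.le }
  refine ⟨R, ?_, ?_⟩
  · intro z hz
    have h1 : dist z c ≤ r := hz
    have h2 : dist c x = a := by rw [dist_comm, dist_eq_norm, hnxc]
    rw [Metric.mem_ball]
    have h3 := dist_triangle z c x
    linarith
  · have hη : R.η (‖x - R.c‖ ^ 2) = Real.pi := by
      change Real.pi * Real.smoothTransition ((r ^ 2 - ‖x - c‖ ^ 2) / (r ^ 2 - a ^ 2)) = Real.pi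
      rw [hnxc, div_self hden.ne', Real.smoothTransition.one, mul_one]
    have hu : x - R.c = a • R.u := by
      change x - c = a • (a⁻¹ • (x - c))
      rw [smul_smul, mul_inv_cancel₀ ha0.ne', one_smul]
    have hJJ : R.J (R.J (x - R.c)) = -(x - R.c) := by
      rw [hu, map_smul, R.J_u, map_smul, R.J_w, smul_neg]
    unfold Rot.X
    rw [hη, one_mul, Real.sin_pi, Real.cos_pi, zero_smul, zero_add, hJJ]
    change x + (1 - (-1 : ℝ)) • -(x - c) = y
    rw [hc]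
    module

/-- The composition of local rotations. -/
noncomputable def comp1 (L : List (Rot d)) (x : En d) : En d := L.foldl (fun y R => R.X 1 y) x

theorem comp1_nil (x : En d) : comp1 ([] : List (Rot d)) x = x := rfl

theorem comp1_cons (R : Rot d) (L : List (Rot d)) (x : En d) : comp1 (R :: L) x = comp1 L (R.X 1 x) := rfl

theorem comp1_append (L L' : List (Rot d)) (x : En d) : comp1 (L ++ L') x = comp1 L' (comp1 L x) := by
  unfold comp1
  rw [List.foldl_append]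

theorem comp1_cont (L : List (Rot d)) : Continuous (comp1 L) := by
  induction L with
  | nil => exact continuous_id
  | cons R L ih => exact ih.comp (R.X_smo' 1).continuous

attribute [local irreducible] comp1

/-- **Moving every point into the control region.** `D` open and connected; all the rotations live in
`D \ closedBall xN r'`. Proof: the set of points `x ∈ D` with `x ∈ ball xN r` or for which a composition exists is
open (`comp1_cont`) and closed in `D` (`exists_rot` in a small ball around the limit point: this ball does not meet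
`closedBall xN r'`), and it contains `ball xN r`. -/
theorem exists_trip (hd : 2 ≤ d) {D : Set (En d)} (hD : IsOpen D) (hc : IsPreconnected D) {xN : En d}
    {r' r : ℝ} (hr' : 0 < r') (hr : r' < r) (hN : Metric.ball xN r ⊆ D) {x : En d} (hx : x ∈ D)
    (hx' : x ∉ Metric.closedBall xN r') :
    ∃ L : List (Rot d), (∀ R ∈ L, Metric.closedBall R.c R.r ⊆ D \ Metric.closedBall xN r') ∧
      comp1 L x ∈ Metric.ball xN r := by
  set G : Set (En d) := {z | z ∈ D ∧ (z ∈ Metric.ball xN r ∨ ∃ L : List (Rot d),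
    (∀ R ∈ L, Metric.closedBall R.c R.r ⊆ D \ Metric.closedBall xN r') ∧
      comp1 L z ∈ Metric.ball xN r)} with hG
  have hGo : IsOpen G := by
    rw [isOpen_iff_mem_nhds]
    intro z hz
    rcases hz.2 with hz' | ⟨L, hL, hLz⟩
    · have h1 : ∀ᶠ y in 𝓝 z, y ∈ D := hD.mem_nhds hz.1
      have h2 : ∀ᶠ y in 𝓝 z, y ∈ Metric.ball xN r := Metric.isOpen_ball.mem_nhds hz'
      exact (h1.and h2).mono fun y hy => ⟨hy.1, Or.inl hy.2⟩
    · have h1 : ∀ᶠ y in 𝓝 z, y ∈ D := hD.mem_nhds hz.1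
      have h2 : ∀ᶠ y in 𝓝 z, comp1 L y ∈ Metric.ball xN r :=
        (comp1_cont L).continuousAt.eventually (Metric.isOpen_ball.mem_nhds hLz)
      exact (h1.and h2).mono fun y hy => ⟨hy.1, Or.inr ⟨L, hL, hy.2⟩⟩
  have hxN : xN ∈ Metric.ball xN r := Metric.mem_ball_self (hr'.trans hr)
  have hsub : D ⊆ G := by
    refine hc.subset_of_closure_inter_subset hGo ⟨xN, hN hxN, hN hxN, Or.inl hxN⟩ ?_
    rintro z ⟨hzc, hzD⟩
    refine ⟨hzD, ?_⟩
    by_cases hzN : z ∈ Metric.ball xN r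
    · exact Or.inl hzN
    right
    obtain ⟨ρ₀, hρ₀, hball⟩ := Metric.isOpen_iff.mp hD z hzD
    have hρ : 0 < min ρ₀ (r - r') := lt_min hρ₀ (by linarith)
    obtain ⟨y, ⟨hyD, hy⟩, hyz⟩ := Metric.mem_closure_iff.mp hzc _ hρ
    have hzr : r ≤ dist z xN := not_lt.mp hzN
    have hgood : Metric.ball z (min ρ₀ (r - r')) ⊆ D \ Metric.closedBall xN r' := by
      intro q hq
      rw [Metric.mem_ball] at hq
      refine ⟨hball (hq.trans_le (min_le_left _ _)), fun h1 => ?_⟩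
      have h2 := hq.trans_le (min_le_right _ _)
      have h3 : dist q xN ≤ r' := h1
      have h4 := dist_triangle z q xN
      rw [dist_comm z q] at h4
      linarith
    by_cases hyz' : z = y
    · subst hyz'
      rcases hy with h1 | h1
      · exact absurd h1 hzN
      · exact h1
    · obtain ⟨R, hR, hRX⟩ := exists_rot hd (x := z) (y := y) (ρ := min ρ₀ (r - r'))
        (by rw [← dist_eq_norm, dist_comm]; exact hyz) hyz'
      rcases hy with h1 | ⟨L, hL, hLy⟩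
      · refine ⟨[R], ?_, ?_⟩
        · intro R' hR'
          rw [List.mem_singleton] at hR'
          subst hR'
          exact hR.trans hgood
        · rw [comp1_cons, hRX, comp1_nil]
          exact h1
      · refine ⟨R :: L, ?_, ?_⟩
        · intro R' hR'
          rcases List.mem_cons.mp hR' with h2 | h2
          · subst h2
            exact hR.trans hgood
          · exact hL R' h2
        · rw [comp1_cons, hRX]
          exact hLy
  obtain ⟨-, h1 | h1⟩ := hsub hx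
  · exact ⟨[], by simp, by rw [comp1_nil]; exact h1⟩
  · exact h1

end Pool.Agent.Lib.MP_79abb3_an.W
end

section

/-!
Theorem W (MP_79abb3_an), block F (trips): definitions. The state of the fluid is `P f`, `f ∈ L²` a one form. It can be
moved by the local rotations (which transport the one form) and `f` can be erased in the control region.
-/

set_option autoImplicit false
set_option linter.unusedSectionVars false

open MeasureTheory Set Filter Topology Function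
open scoped ENNReal RealInnerProductSpace

namespace Pool.Agent.Lib.MP_79abb3_an.W

section
variable {d : ℕ}

/-- The state `P f` can be driven to `P f'`, with arbitrarily small errors, in arbitrarily short time; `N` is the control
region. -/
def Reach (D N : Set (En d)) (f f' : En d → En d) : Prop :=
  ∀ ε > 0, ∀ T > 0, ∃ ε₀ > 0, ∀ y : HD D, ‖y - PD D (cl f)‖ ≤ ε₀ → ∃ b, 0 < b ∧ b ≤ T ∧ ∃ y' : HD D,
    Mv (D \ closure N) (frontier D) b (y : L2E d) (y' : L2E d) ∧ ‖y' - PD D (cl f')‖ ≤ ε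

/-- The control regions `closedBall p r₁ ⊂ ball p r₀`, the closure of the latter is contained in `D`. -/
structure Ctr (D : Set (En d)) (p : En d) (r₁ r₀ : ℝ) : Prop where
  r1 : 0 < r₁
  r10 : r₁ < r₀
  sub : Metric.closedBall p r₀ ⊆ D

/-- **Elementary moves** (export of the blocks C, D, E): the local rotations supported in `D` away from
`closedBall p r₁`. -/
def Emove (D : Set (En d)) (p : En d) (r₁ r₀ : ℝ) : Prop :=
  ∀ R : Rot d, Metric.closedBall R.c R.r ⊆ D \ Metric.closedBall p r₁ → ∀ f : En d → En d,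
    MemLp f 2 (volume : Measure (En d)) → Reach D (Metric.ball p r₀) f (R.pb (-1) f)

/-- The sets in which the one form can be erased (`N` is the control region). -/
def Er (D N A : Set (En d)) : Prop :=
  MeasurableSet A ∧ ∀ f : En d → En d, MemLp f 2 (volume : Measure (En d)) → Reach D N f (Aᶜ.indicator f)

end

end Pool.Agent.Lib.MP_79abb3_an.W
end

section

/-!
Theorem W (MP_79abb3_an), block F: test fields in the triple of `D`.
-/

set_option autoImplicit false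
set_option linter.unusedSectionVars false

open MeasureTheory Set Filter Topology Function
open scoped ENNReal RealInnerProductSpace

namespace Pool.Agent.Lib.MP_79abb3_an.W

section

variable {d : ℕ} {D : Set (En d)}

/-- `A φ = -P Δφ` for a test field. (`inner_vT_lap`, `inner_PD`.) -/
theorem vT_lap (hD : Bornology.IsBounded D) (φ : TS D) (v : VD D) :
    ⟪vT D φ, v⟫ = ⟪-PD D (cl (lap (φ : En d → En d))), io D v⟫ := by
  rw [real_inner_comm, inner_vT_lap hD, inner_neg_left, inner_PD, real_inner_comm]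

/-- `|P ((ρ_n * u)·∇φ)| ≤ M |u|` with `M` independent of `n`: pointwise `|(ρ_n * u)·∇φ| ≤ sup |Dφ| |ρ_n * u|` and
`|ρ_n * u|₂ ≤ |u|₂` (`Nm_apply`, `PD_le`, `tr0_ae`, `Jn_ae`, `mo_Lp`). -/
theorem Nm_vT (φ : TS D) : ∃ M : ℝ, 0 ≤ M ∧ ∀ (n : ℕ) (u : HD D), ‖Nm D n u (vT D φ)‖ ≤ M * ‖u‖ := by
  have h1 : ∀ i : Fin d, ∃ C : ℝ, ∀ x, ‖pd i (φ : En d → En d) x‖ ≤ C := fun i =>
    ((TS.ts φ).toIsTe.pd i).smooth.continuous.bounded_above_of_compact_support
      ((TS.ts φ).toIsTe.pd i).cpt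
  choose C hC using h1
  have hC0 : ∀ i, 0 ≤ C i := fun i => (norm_nonneg _).trans (hC i 0)
  refine ⟨∑ i, C i, Finset.sum_nonneg fun i _ => hC0 i, fun n u => ?_⟩
  have hm := mo_memLp n (by norm_num) (Lp.memLp (u : L2E d))
  have hw : ‖hm.toLp (mo n ((u : L2E d) : En d → En d))‖ ≤ ‖u‖ := by
    rw [Lp.norm_toLp]
    have e : ‖u‖ = (eLpNorm ((u : L2E d) : En d → En d) 2 volume).toReal := Lp.norm_def (u : L2E d)
    rw [e]
    exact ENNReal.toReal_mono (Lp.eLpNorm_ne_top _) (mo_Lp n (by norm_num) (Lp.memLp (u : L2E d)))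
  rw [Nm_apply]
  refine (PD_le _).trans ?_
  have key : ‖tr0 d (Jn d n (u : L2E d)) ((vT D φ : VD D) : G2E d)‖ ≤
      (∑ i, C i) * ‖hm.toLp (mo n ((u : L2E d) : En d → En d))‖ := by
    apply Lp.norm_le_mul_norm_of_ae_le_mul
    have h2 : ∀ᵐ x, ∀ i : Fin d, (((vT D φ : VD D) : G2E d) i : En d → En d) x =
        pd i (φ : En d → En d) x := by
      rw [ae_all_iff]
      exact fun i => cl_coe (((TS.ts φ).toIsTe.pd i).memLp 2)
    filter_upwards [tr0_ae (Jn d n (u : L2E d)) ((vT D φ : VD D) : G2E d), Jn_ae n (u : L2E d), h2,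
      hm.coeFn_toLp] with x k1 k2 k3 k4
    rw [k1, k2, k4, Finset.sum_mul]
    refine (norm_sum_le _ _).trans (Finset.sum_le_sum fun i _ => ?_)
    rw [k3 i, norm_smul, mul_comm]
    exact mul_le_mul (hC i x) (PiLp.norm_apply_le _ _) (norm_nonneg _) (hC0 i)
  exact key.trans (mul_le_mul_of_nonneg_left hw (Finset.sum_nonneg fun i _ => hC0 i))

end

end Pool.Agent.Lib.MP_79abb3_an.W
end

section

/-!
Theorem W (MP_79abb3_an), block F: the elementary move in the form of block F.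
-/

set_option autoImplicit false
set_option linter.unusedSectionVars false

open MeasureTheory Set Filter Topology Function
open scoped ENNReal RealInnerProductSpace

namespace Pool.Agent.Lib.MP_79abb3_an.W

section
variable {d : ℕ} {D : Set (En d)} {p : En d} {r₁ r₀ : ℝ}

/-- A controlled trajectory of `D` is a trajectory of `D ∖ closure N`. -/
theorem CTr.mv (hd : d = 2 ∨ d = 3) (hO : IsOpen D) (hD : Bornology.IsBounded D) {N : Set (En d)} {b : ℝ}
    {x : ℝ → HD D} {v : ℝ → VD D} (h : CTr D N 0 b x v) :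
    Mv (D \ closure N) (frontier D) b ((x 0 : HD D) : L2E d) ((x b : HD D) : L2E d) := by
  have h1 := WTr.of_triple (Ω := D \ closure N) hd hO hD sdiff_subset x v h.cw h.v2 h.ae
    (fun φ hφ s t hs hst ht => h.ns φ (disjoint_left.2 fun y hy => (hφ.supp hy).2) s t hs hst ht)
  exact ⟨fun t => (x t : L2E d), fun t => (v t : G2E d), h1, rfl, rfl⟩

/-- The elementary move in the form of block F. -/
theorem emove_of (hd : d = 2 ∨ d = 3) (hO : IsOpen D) (hD : Bornology.IsBounded D)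
    (hem : ∀ R : Rot d, Metric.closedBall R.c R.r ⊆ D \ Metric.closedBall p r₁ → ∃ C : ℝ, 0 ≤ C ∧
      ∀ f : En d → En d, MemLp f 2 (volume : Measure (En d)) → ∀ y₀ : HD D, ∀ ε > 0, ∀ T > 0,
        ∃ b ∈ Ioc 0 T, ∃ (x : ℝ → HD D) (v : ℝ → VD D), CTr D (Metric.ball p r₀) 0 b x v ∧ x 0 = y₀ ∧
          ‖x b - PD D (cl (R.pb (-1) f))‖ ≤ C * ‖y₀ - PD D (cl f)‖ + ε) : Emove D p r₁ r₀ := by
  intro R hR f hf ε hε T hT
  obtain ⟨C, hC, h⟩ := hem R hR
  refine ⟨ε / (2 * (C + 1)), by positivity, fun y hy => ?_⟩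
  obtain ⟨b, hb, x, v, hx, hx0, he⟩ := h f hf y (ε / 2) (by positivity) T hT
  refine ⟨b, hb.1, hb.2, x b, ?_, he.trans ?_⟩
  · have h1 := hx.mv hd hO hD
    rwa [hx0] at h1
  · have h2 : C * ‖y - PD D (cl f)‖ ≤ C * (ε / (2 * (C + 1))) := mul_le_mul_of_nonneg_left hy hC
    have h3 : C * (ε / (2 * (C + 1))) ≤ ε / 2 := by
      rw [mul_div_assoc', div_le_div_iff₀ (by positivity) (by positivity)]
      nlinarith
    linarith

end

end Pool.Agent.Lib.MP_79abb3_an.W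
end

section

/-!
Theorem W (MP_79abb3_an), block F: erasable sets.
-/

set_option autoImplicit false
set_option linter.unusedSectionVars false

open MeasureTheory Set Filter Topology Function
open scoped ENNReal RealInnerProductSpace

namespace Pool.Agent.Lib.MP_79abb3_an.W

section
variable {d : ℕ}

variable {D N : Set (En d)} {p : En d} {r₁ r₀ : ℝ}

/-- Composition. (`T / 2` for each part, `Mv.trans`.) -/
theorem Reach.trans {f g h : En d → En d} (h1 : Reach D N f g) (h2 : Reach D N g h) : Reach D N f h := by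
  intro ε hε T hT
  obtain ⟨ε₂, hε₂, k2⟩ := h2 ε hε (T / 2) (half_pos hT)
  obtain ⟨ε₁, hε₁, k1⟩ := h1 ε₂ hε₂ (T / 2) (half_pos hT)
  refine ⟨ε₁, hε₁, fun y hy => ?_⟩
  obtain ⟨b, hb, hbT, y', hm, hy'⟩ := k1 y hy
  obtain ⟨c, hc, hcT, y'', hm', hy''⟩ := k2 y' hy'
  exact ⟨b + c, add_pos hb hc, by linarith, y'', hm.trans hb.le hc.le hm', hy''⟩

/-- `Reach` depends only on the classes. -/
theorem Reach.congr {f g f' g' : En d → En d} (h : Reach D N f g) (hf : cl f = cl f') (hg : cl g = cl g') :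
    Reach D N f' g' := by
  unfold Reach at h ⊢
  rwa [← hf, ← hg]

/-- The union of two erasable sets. (`Bᶜ.indicator (Aᶜ.indicator f) = (A ∪ B)ᶜ.indicator f`.) -/
theorem Er.union {A B : Set (En d)} (hA : Er D N A) (hB : Er D N B) : Er D N (A ∪ B) := by
  refine ⟨hA.1.union hB.1, fun f hf => ?_⟩
  have h1 := (hA.2 f hf).trans (hB.2 _ (hf.indicator hA.1.compl))
  rwa [Set.indicator_indicator, ← Set.compl_union, Set.union_comm] at h1

/-- The inverse of a rotation: the profile `-η`. -/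
def Rot.inv (R : Rot d) : Rot d where
  c := R.c
  r := R.r
  u := R.u
  w := R.w
  η := fun s => -R.η s
  r0 := R.r0
  hu := R.hu
  hw := R.hw
  huw := R.huw
  smo := R.smo.neg
  hη := fun s hs => by rw [R.hη s hs, neg_zero]

theorem Rot.inv_X (R : Rot d) (t : ℝ) : R.inv.X t = R.X (-t) := by
  funext x
  have h1 : t * R.inv.η (‖x - R.c‖ ^ 2) = -t * R.η (‖x - R.c‖ ^ 2) := by
    change t * -R.η (‖x - R.c‖ ^ 2) = -t * R.η (‖x - R.c‖ ^ 2)
    ring
  unfold Rot.X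
  change x + (Real.sin (t * R.inv.η (‖x - R.c‖ ^ 2)) • R.J (x - R.c) +
    (1 - Real.cos (t * R.inv.η (‖x - R.c‖ ^ 2))) • R.J (R.J (x - R.c))) = _
  rw [h1]

theorem Rot.inv_pb (R : Rot d) (t : ℝ) (f : En d → En d) : R.inv.pb t f = R.pb (-t) f := by
  unfold Rot.pb
  rw [Rot.inv_X]

/-- Go, erase, return: `f ↦ pb (-1) f ↦ 1_{Aᶜ} pb (-1) f ↦ pb 1 (1_{Aᶜ} pb (-1) f) = 1_{(X 1)⁻¹ Aᶜ} f` (`pb_mul` with the function `1_{Aᶜ}`,
`pb_add`, `pb_zero`, `Rot.inv_pb` with `t = -1`). -/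
theorem Er.rot (hem : Emove D p r₁ r₀) {A : Set (En d)} (hA : Er D (Metric.ball p r₀) A) {R : Rot d}
    (hR : Metric.closedBall R.c R.r ⊆ D \ Metric.closedBall p r₁) :
    Er D (Metric.ball p r₀) (R.X 1 ⁻¹' A) := by
  refine ⟨(R.X_smo' 1).continuous.measurable hA.1, fun f hf => ?_⟩
  have h1 := hem R hR f hf
  have hf1 : MemLp (R.pb (-1) f) 2 (volume : Measure (En d)) := R.pb_memLp (-1) hf
  have h2 := hA.2 _ hf1
  have h3 := hem R.inv hR _ (hf1.indicator hA.1.compl)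
  rw [Rot.inv_pb, neg_neg] at h3
  have h4 : R.pb 1 (Aᶜ.indicator (R.pb (-1) f)) = (R.X 1 ⁻¹' A)ᶜ.indicator f := by
    have e1 : Aᶜ.indicator (R.pb (-1) f) = fun x => (Aᶜ.indicator (fun _ => (1 : ℝ)) x) • R.pb (-1) f x := by
      funext x
      by_cases hx : x ∈ Aᶜ
      · rw [Set.indicator_of_mem hx, Set.indicator_of_mem hx, one_smul]
      · rw [Set.indicator_of_notMem hx, Set.indicator_of_notMem hx, zero_smul]
    rw [e1, R.pb_mul 1, ← R.pb_add, add_neg_cancel, R.pb_zero]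
    funext x
    by_cases hx : R.X 1 x ∈ Aᶜ
    · rw [Set.indicator_of_mem hx, one_smul, Set.indicator_of_mem (show x ∈ (R.X 1 ⁻¹' A)ᶜ from hx)]
    · rw [Set.indicator_of_notMem hx, zero_smul, Set.indicator_of_notMem (show x ∉ (R.X 1 ⁻¹' A)ᶜ from hx)]
  rw [h4] at h3
  exact (h1.trans h2).trans h3

/-- (induction on the list: `comp1 (R :: L) ⁻¹' A = R.X 1 ⁻¹' (comp1 L ⁻¹' A)`) -/
theorem Er.list (hem : Emove D p r₁ r₀) {A : Set (En d)} (hA : Er D (Metric.ball p r₀) A) (L : List (Rot d))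
    (hL : ∀ R ∈ L, Metric.closedBall R.c R.r ⊆ D \ Metric.closedBall p r₁) :
    Er D (Metric.ball p r₀) (comp1 L ⁻¹' A) := by
  induction L with
  | nil => exact hA
  | cons R L ih =>
    have h1 : comp1 (R :: L) ⁻¹' A = R.X 1 ⁻¹' (comp1 L ⁻¹' A) := by
      ext x
      rw [mem_preimage, comp1_cons]
      rfl
    rw [h1]
    exact Er.rot hem (ih fun S hS => hL S (List.mem_cons_of_mem _ hS)) (hL R List.mem_cons_self)

end

end Pool.Agent.Lib.MP_79abb3_an.W
end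

section

/-!
Theorem W (MP_79abb3_an), block F: compact sets are erasable.
-/

set_option autoImplicit false
set_option linter.unusedSectionVars false

open MeasureTheory Set Filter Topology Function
open scoped ENNReal RealInnerProductSpace

namespace Pool.Agent.Lib.MP_79abb3_an.W

section
variable {d : ℕ}

variable {D : Set (En d)} {p : En d} {r₁ r₀ : ℝ}

/-- Absolute continuity of the integral: `f` has small norm off a suitable compact subset of `D`. (`D` is open, hence a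
countable increasing union of compact sets, e.g. `K_j = {x ∈ closedBall 0 j | 1 / (j + 1) ≤ infDist x Dᶜ}`, or a compact
exhaustion; the norms of `(D ∖ K_j).indicator f` tend to zero by dominated convergence.) -/
theorem exists_compact {D : Set (En d)} (hD : IsOpen D) {f : En d → En d}
    (hf : MemLp f 2 (volume : Measure (En d))) {ε : ℝ} (hε : 0 < ε) :
    ∃ K : Set (En d), IsCompact K ∧ K ⊆ D ∧ ‖cl ((D \ K).indicator f)‖ ≤ ε := by
  have hfin : ∫⁻ x, ‖f x‖ₑ ^ (2 : ℝ) ≠ ∞ := by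
    have h1 := hf.2
    rw [eLpNorm_lt_top_iff_lintegral_rpow_enorm_lt_top (by norm_num) (by norm_num)] at h1
    simpa using h1.ne
  set μ : Measure (En d) := volume.withDensity fun x => ‖f x‖ₑ ^ (2 : ℝ) with hμ
  have : IsFiniteMeasure μ := isFiniteMeasure_withDensity hfin
  have hε2 : ENNReal.ofReal ε ^ (2 : ℝ) ≠ 0 := by
    intro h0
    rw [ENNReal.rpow_eq_zero_iff] at h0
    rcases h0 with h0 | h0
    · exact absurd (ENNReal.ofReal_eq_zero.1 h0.1) (not_le.2 hε)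
    · exact absurd h0.2 (by norm_num)
  obtain ⟨K, hKD, hK, hlt⟩ := hD.measurableSet.exists_isCompact_sdiff_lt (μ := μ) (measure_ne_top μ D) hε2
  refine ⟨K, hK, hKD, ?_⟩
  have hm : MeasurableSet (D \ K) := hD.measurableSet.diff hK.measurableSet
  have hmem : MemLp ((D \ K).indicator f) 2 (volume : Measure (En d)) := hf.indicator hm
  rw [cl_eq hmem, Lp.norm_toLp]
  refine ENNReal.toReal_le_of_le_ofReal hε.le ?_
  have h2 : eLpNorm ((D \ K).indicator f) 2 (volume : Measure (En d)) =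
      (∫⁻ x in D \ K, ‖f x‖ₑ ^ (2 : ℝ)) ^ (1 / (2 : ℝ)) := by
    rw [eLpNorm_indicator_eq_eLpNorm_restrict hm, eLpNorm_eq_lintegral_rpow_enorm_toReal (by norm_num) (by norm_num)]
    simp
  have h3 : ∫⁻ x in D \ K, ‖f x‖ₑ ^ (2 : ℝ) = μ (D \ K) := by
    rw [hμ, withDensity_apply _ hm]
  rw [h2, h3]
  refine (ENNReal.rpow_le_rpow hlt.le (by norm_num)).trans ?_
  rw [← ENNReal.rpow_mul]
  norm_num

/-- Every compact subset of `D` is contained in an erasable set: the ball `ball p r₀`, and for `x ∉ closedBall p r₁` the open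
set `comp1 L ⁻¹' ball p r₀` of `exists_trip` (`comp1_cont`), are erasable and open; finite subcover; `Er.union`. -/
theorem exists_er (hd : 2 ≤ d) (hD : IsOpen D) (hc : IsPreconnected D) (h : Ctr D p r₁ r₀)
    (hem : Emove D p r₁ r₀) (hN : Er D (Metric.ball p r₀) (Metric.ball p r₀)) {K : Set (En d)}
    (hK : IsCompact K) (hKD : K ⊆ D) : ∃ A : Set (En d), Er D (Metric.ball p r₀) A ∧ K ⊆ A := by
  refine hK.induction_on (p := fun S => ∃ A : Set (En d), Er D (Metric.ball p r₀) A ∧ S ⊆ A)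
    ⟨_, hN, empty_subset _⟩ ?_ ?_ ?_
  · rintro s t hst ⟨A, hA, htA⟩
    exact ⟨A, hA, hst.trans htA⟩
  · rintro s t ⟨A, hA, hsA⟩ ⟨B, hB, htB⟩
    exact ⟨A ∪ B, hA.union hB, union_subset_union hsA htB⟩
  · intro x hx
    by_cases h1 : x ∈ Metric.closedBall p r₁
    · have h2 : x ∈ Metric.ball p r₀ := by
        rw [Metric.mem_ball]
        exact (Metric.mem_closedBall.1 h1).trans_lt h.r10
      exact ⟨Metric.ball p r₀, mem_nhdsWithin_of_mem_nhds (Metric.isOpen_ball.mem_nhds h2), _, hN, subset_rfl⟩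
    · obtain ⟨L, hL, hLx⟩ := exists_trip hd hD hc h.r1 h.r10 (Metric.ball_subset_closedBall.trans h.sub)
        (hKD hx) h1
      exact ⟨comp1 L ⁻¹' Metric.ball p r₀, mem_nhdsWithin_of_mem_nhds
        ((Metric.isOpen_ball.preimage (comp1_cont L)).mem_nhds hLx), _, Er.list hem hN L hL, subset_rfl⟩

/-- **The flush**: every state is driven to an arbitrarily small state in arbitrarily short time. Proof: `f = y` (it
vanishes off `D`, `HD_supp`), `K` from `exists_compact`, `A ⊇ K` erasable; `|P (Aᶜ.indicator f)| ≤ |(D \ K).indicator f|`. -/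
theorem flush (hd : 2 ≤ d) (hD : IsOpen D) (hc : IsPreconnected D) (h : Ctr D p r₁ r₀)
    (hem : Emove D p r₁ r₀) (hN : Er D (Metric.ball p r₀) (Metric.ball p r₀)) (y : HD D)
    {T ε : ℝ} (hT : 0 < T) (hε : 0 < ε) : ∃ b, 0 < b ∧ b ≤ T ∧ ∃ y' : HD D,
      Mv (D \ closure (Metric.ball p r₀)) (frontier D) b (y : L2E d) (y' : L2E d) ∧ ‖y'‖ ≤ ε := by
  set f : En d → En d := ((y : L2E d) : En d → En d) with hf
  have hfm : MemLp f 2 (volume : Measure (En d)) := Lp.memLp (y : L2E d)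
  obtain ⟨K, hK, hKD, hKε⟩ := exists_compact hD hfm (half_pos hε)
  obtain ⟨A, hA, hKA⟩ := exists_er hd hD hc h hem hN hK hKD
  obtain ⟨ε₀, hε₀, hr⟩ := hA.2 f hfm (ε / 2) (half_pos hε) T hT
  have h1 : ‖y - PD D (cl f)‖ ≤ ε₀ := by
    rw [hf, cl_self, PD_coe, sub_self, norm_zero]
    exact hε₀.le
  obtain ⟨b, hb, hbT, y', hmv, hy'⟩ := hr y h1
  refine ⟨b, hb, hbT, y', hmv, ?_⟩
  have hm : MeasurableSet (D \ K) := hD.measurableSet.diff hK.measurableSet
  have hm1 : MemLp (Aᶜ.indicator f) 2 (volume : Measure (En d)) := hfm.indicator hA.1.compl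
  have hm2 : MemLp ((D \ K).indicator f) 2 (volume : Measure (En d)) := hfm.indicator hm
  have h2 : ‖cl (Aᶜ.indicator f)‖ ≤ ‖cl ((D \ K).indicator f)‖ := by
    refine Lp.norm_le_norm_of_ae_le ?_
    filter_upwards [cl_coe hm1, cl_coe hm2, HD_supp y] with x e1 e2 e3
    rw [e1, e2]
    by_cases hxA : x ∈ A
    · rw [indicator_of_notMem (by simpa using hxA), norm_zero]
      exact norm_nonneg _
    · by_cases hxD : x ∈ D
      · rw [indicator_of_mem (show x ∈ Aᶜ from hxA), indicator_of_mem (show x ∈ D \ K from ⟨hxD, fun hxK => hxA (hKA hxK)⟩)]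
      · have e4 : f x = 0 := e3 hxD
        rw [indicator_of_mem (show x ∈ Aᶜ from hxA), e4, norm_zero]
        exact norm_nonneg _
  have h3 : ‖y'‖ ≤ ‖y' - PD D (cl (Aᶜ.indicator f))‖ + ‖PD D (cl (Aᶜ.indicator f))‖ := by
    have h4 := norm_add_le (y' - PD D (cl (Aᶜ.indicator f))) (PD D (cl (Aᶜ.indicator f)))
    rwa [sub_add_cancel] at h4
  linarith [PD_le (D := D) (cl (Aᶜ.indicator f))]

end

end Pool.Agent.Lib.MP_79abb3_an.W
end

section

/-!
Theorem W (MP_79abb3_an), block F: one erasing step.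
-/

set_option autoImplicit false
set_option linter.unusedSectionVars false

open MeasureTheory Set Filter Topology Function
open scoped ENNReal RealInnerProductSpace

namespace Pool.Agent.Lib.MP_79abb3_an.W

section
variable {d : ℕ}

variable {D : Set (En d)}

private theorem fB3_force {N : Set (En d)} {g : En d → En d} (hg : ∀ x, x ∉ N → g x = 0) {φ : En d → En d}
    (hφ : IsTs (D \ closure N) φ) : ⟪cl g, cl φ⟫ = 0 := by
  by_cases hm : MemLp g 2 (volume : Measure (En d))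
  · rw [cl_inner hm (hφ.memLp 2)]
    have h0 : ∀ x, ⟪g x, φ x⟫ = 0 := by
      intro x
      by_cases hx : x ∈ N
      · have h1 : x ∉ tsupport φ := fun h => (hφ.supp h).2 (subset_closure hx)
        rw [image_eq_zero_of_notMem_tsupport h1, inner_zero_right]
      · rw [hg x hx, inner_zero_left]
    simp only [h0, integral_zero]
  · have h1 : cl g = 0 := dif_neg hm
    rw [h1, inner_zero_left]

private theorem fB3_n0 {H V : Type} [NormedAddCommGroup H] [InnerProductSpace ℝ H] [NormedAddCommGroup V]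
    [InnerProductSpace ℝ V] : ‖(0 : V →L[ℝ] H)‖ ≤ 0 := by
  simp

private theorem fB3_wlim {H : Type} [NormedAddCommGroup H] [InnerProductSpace ℝ H] {a : ℕ → H} {x p : H}
    (h : ∀ k : H, Tendsto (fun j => ⟪a j, k⟫) atTop (𝓝 ⟪x, k⟫)) {R : ℕ → ℝ} {r : ℝ}
    (hR : ∀ j, ‖a j - p‖ ^ 2 ≤ R j) (hr : Tendsto R atTop (𝓝 r)) : ‖x - p‖ ^ 2 ≤ r := by
  have h1 : Tendsto (fun j => ⟪a j - p, x - p⟫) atTop (𝓝 (‖x - p‖ ^ 2)) := by
    have h2 := (h (x - p)).sub (tendsto_const_nhds (x := ⟪p, x - p⟫) (f := (atTop : Filter ℕ)))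
    rw [← inner_sub_left, real_inner_self_eq_norm_sq] at h2
    refine h2.congr fun j => ?_
    rw [inner_sub_left]
  have h3 : Tendsto (fun j => (R j + ‖x - p‖ ^ 2) / 2) atTop (𝓝 ((r + ‖x - p‖ ^ 2) / 2)) :=
    (hr.add_const _).div_const 2
  have h4 : ∀ j, ⟪a j - p, x - p⟫ ≤ (R j + ‖x - p‖ ^ 2) / 2 := by
    intro j
    have h5 := real_inner_le_norm (a j - p) (x - p)
    have h6 := hR j
    nlinarith [sq_nonneg (‖a j - p‖ - ‖x - p‖)]
  have h7 := le_of_tendsto_of_tendsto' h1 h3 h4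
  linarith

/-- A Leray solution with a force `g` which vanishes on `D ∖ closure N` is a trajectory of `D ∖ closure N`. (`WTr.of_triple`,
`LSol`; the force is invisible for the test fields of `D ∖ closure N`: `⟪g, cl φ⟫ = 0`.) -/
theorem Mv.of_LSol (hd : d = 2 ∨ d = 3) (hO : IsOpen D) (hD : Bornology.IsBounded D) {N : Set (En d)} {τ : ℝ}
    (hτ : 0 < τ) {g : En d → En d}
    (hg : ∀ x, x ∉ N → g x = 0) {c : ℝ} {y : HD D} {x : ℝ → HD D} {v : ℝ → VD D}
    (h : LSol (io D) 1 (fun _ => 0) (fun _ => c • PD D (cl g)) (fun u v w => bV D u v w) 0 τ y x v) :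
    Mv (D \ closure N) (frontier D) τ (y : L2E d) ((x τ : HD D) : L2E d) := by
  have hsub : D \ closure N ⊆ D := sdiff_subset
  refine ⟨fun t => (x t : L2E d), fun t => (v t : G2E d), ?_, ?_, rfl⟩
  · refine WTr.of_triple hd hO hD hsub x v h.weak ?_ ?_ ?_
    · exact h.mem.mono_measure (Measure.restrict_mono Ioc_subset_Icc_self le_rfl)
    · have h1 := ae_restrict_of_ae_restrict_of_subset (Ioc_subset_Icc_self (a := (0 : ℝ)) (b := τ)) h.ae
      filter_upwards [h1] with t ht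
      exact ht.symm
    · intro φ hφ s t hs hst ht
      have h1 := h.eq (vT D φ) s t hs hst ht
      rw [io_vT hD φ] at h1
      rw [h1, ← intervalIntegral.integral_neg]
      apply intervalIntegral.integral_congr
      intro r _
      show -(1 * ⟪v r, vT D φ⟫) + ⟪c • PD D (cl g) - (0 : VD D →L[ℝ] HD D) (v r), hT D φ⟫ -
        bV D (v r) (v r) (vT D φ) = -(⟪v r, vT D φ⟫ + bV D (v r) (v r) (vT D φ))
      have e1 : ⟪c • PD D (cl g), hT D φ⟫ = 0 := by
        have e2 : ⟪PD D (cl g), hT D φ⟫ = 0 := by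
          rw [inner_PD]
          exact fB3_force hg hφ
        exact (real_inner_smul_left (PD D (cl g)) (hT D φ) c).trans (by rw [e2, mul_zero])
      rw [zero_apply, sub_zero, e1]
      ring
  · show (x 0 : L2E d) = y
    rw [h.init]

/-- **One step**: from `y` near the test field `φ₀` to a state near the test field `φ₁` with the impulse `g` supported in `N`.
Proof: `τ₀ = min 1 (1 / (12 M + 1))`; `v_j ∈ V` with `io v_j → y`; `reg_exists` (force `G = τ⁻¹ P g`, `N = Nm D j`); `er_energy` for each `j`;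
`RSol.bound` for the uniform bound; `reg_limit` (`io_tri`, `j4_isQ`, `Nm_NB`, `Nm_tendsto`) and `norm_le` for weak limits at `t = τ`; `Mv.of_LSol`. -/
theorem er_step (hd : d = 2 ∨ d = 3) (hO : IsOpen D) (hD : Bornology.IsBounded D) {N : Set (En d)}
    (φ₀ φ₁ : TS D) : ∃ K : ℝ, 0 ≤ K ∧ ∃ τ₀ > 0, ∀ τ, 0 < τ → τ ≤ τ₀ → ∀ (y : HD D) (g : En d → En d),
      MemLp g 2 (volume : Measure (En d)) → (∀ x, x ∉ N → g x = 0) →
      ∃ y' : HD D, Mv (D \ closure N) (frontier D) τ (y : L2E d) (y' : L2E d) ∧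
        ‖y' - hT D φ₁‖ ^ 2 ≤ 2 * ‖y - hT D φ₀‖ ^ 2 + 8 * ‖PD D (cl g) - (hT D φ₁ - hT D φ₀)‖ ^ 2 + K * τ := by
  obtain ⟨M₀, hM₀, hN₀⟩ := Nm_vT φ₀
  obtain ⟨M₁, hM₁, hN₁⟩ := Nm_vT φ₁
  obtain ⟨M, hM⟩ : ∃ M, M₀ + M₁ = M := ⟨_, rfl⟩
  have hM0 : 0 ≤ M := by linarith
  refine ⟨(‖vT D φ₀‖ + ‖vT D φ₁‖) ^ 2 + 2 * M * (‖io D (vT D φ₀)‖ + ‖io D (vT D φ₁)‖) ^ 2, by positivity,
    1 / (12 * M + 1), by positivity, fun τ hτ hτ₀ y g hgm hg => ?_⟩
  obtain ⟨K, hK⟩ : ∃ K, (‖vT D φ₀‖ + ‖vT D φ₁‖) ^ 2 +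
    2 * M * (‖io D (vT D φ₀)‖ + ‖io D (vT D φ₁)‖) ^ 2 = K := ⟨_, rfl⟩
  rw [hK]
  have hMτ : 12 * M * τ ≤ 1 := by
    have h1 : τ * (12 * M + 1) ≤ 1 := by
      rw [le_div_iff₀ (by positivity)] at hτ₀
      exact hτ₀
    nlinarith
  have hcl : y ∈ closure (range (io D)) := io_dense hD y
  have hw : ∀ j : ℕ, ∃ w : VD D, ‖io D w - y‖ < 1 / ((j : ℝ) + 1) := by
    intro j
    obtain ⟨z, ⟨w, rfl⟩, hz⟩ := Metric.mem_closure_iff.1 hcl (1 / ((j : ℝ) + 1)) (by positivity)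
    refine ⟨w, ?_⟩
    rwa [dist_comm, dist_eq_norm] at hz
  choose w hw using hw
  have hwx : Tendsto (fun j => io D (w j)) atTop (𝓝 y) := by
    rw [tendsto_iff_norm_sub_tendsto_zero]
    exact squeeze_zero (fun _ => norm_nonneg _) (fun j => (hw j).le) tendsto_one_div_add_atTop_nhds_zero_nat
  have hB : ∀ j, ‖io D (w j)‖ ≤ ‖y‖ + 1 := by
    intro j
    have h1 : ‖io D (w j)‖ ≤ ‖io D (w j) - y‖ + ‖y‖ := by
      have := norm_add_le (io D (w j) - y) y
      rwa [sub_add_cancel] at this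
    have h2 : 1 / ((j : ℝ) + 1) ≤ 1 := by
      rw [div_le_one (by positivity)]
      have : (0 : ℝ) ≤ j := Nat.cast_nonneg j
      linarith
    linarith [(hw j).le]
  obtain ⟨G, hG⟩ : ∃ G, τ⁻¹ • PD D (cl g) = G := ⟨_, rfl⟩
  have hτG : τ • G = PD D (cl g) := by
    rw [← hG, smul_smul, mul_inv_cancel₀ hτ.ne', one_smul]
  have hF : ContinuousOn (fun _ : ℝ => (0 : VD D →L[ℝ] HD D)) (Icc 0 τ) := continuousOn_const
  have hgc : ContinuousOn (fun _ : ℝ => G) (Icc 0 τ) := continuousOn_const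
  choose e he hea using fun j => reg_exists (io_tri hD) one_pos hτ.le hF hgc (Nm_NB hd hD j).skew (w j)
  obtain ⟨B, hBd⟩ : ∃ B, ((‖y‖ + 1) ^ 2 + τ * ‖G‖ ^ 2) * Real.exp τ = B := ⟨_, rfl⟩
  have hB0 : 0 ≤ B := by rw [← hBd]; positivity
  have hbd : ∀ j, ∀ t ∈ Icc 0 τ, ‖io D (e j t)‖ ^ 2 + 1 * ∫ r in (0 : ℝ)..t, ‖e j r‖ ^ 2 ≤ B := by
    intro j t ht
    have h1 := RSol.bound one_pos (Nm_NB hd hD j).skew (he j) (f := 0) (γ := ‖G‖) (fun r _ => fB3_n0)
      (fun r _ => le_rfl) ht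
    refine h1.trans ?_
    rw [hea, ← hBd]
    have h2 : Real.exp ((1 + (0 : ℝ) ^ 2 / 1) * (t - 0)) ≤ Real.exp τ := by
      refine Real.exp_le_exp.2 ?_
      have : (1 + (0 : ℝ) ^ 2 / 1) * (t - 0) = t := by ring
      rw [this]
      exact ht.2
    have h3 : ‖io D (w j)‖ ^ 2 + (t - 0) * ‖G‖ ^ 2 ≤ (‖y‖ + 1) ^ 2 + τ * ‖G‖ ^ 2 := by
      rw [sub_zero]
      have h4 := ht.2
      have h5 := hB j
      gcongr
    exact mul_le_mul h3 h2 (Real.exp_pos _).le (by positivity)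
  have hMb : ∀ j, ∀ t ∈ Icc 0 τ, ‖io D (e j t)‖ ≤ B + 1 := by
    intro j t ht
    have h1 := hbd j t ht
    have h2 : 0 ≤ ∫ r in (0 : ℝ)..t, ‖e j r‖ ^ 2 :=
      intervalIntegral.integral_nonneg ht.1 fun _ _ => by positivity
    have h3 := norm_nonneg (io D (e j t))
    nlinarith
  have hMb' : ∀ j, ∫ t in (0 : ℝ)..τ, ‖e j t‖ ^ 2 ≤ B + 1 := by
    intro j
    have h1 := hbd j τ ⟨hτ.le, le_rfl⟩
    have h2 : 0 ≤ ‖io D (e j τ)‖ ^ 2 := by positivity
    linarith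
  obtain ⟨φ, x, v, hφ, hL, -, -, hlim, -⟩ := reg_limit (io_tri hD) (j4_isQ hd hD) one_pos hτ.le hF hgc
    (Nm_NB hd hD) (c := fun u v w => bV D u v w) (fun u v p => Nm_tendsto hd hD u v p) he hMb hMb' (x₀ := y) fun k => by
      have h1 : Tendsto (fun j => ⟪io D (w j), k⟫) atTop (𝓝 ⟪y, k⟫) := hwx.inner tendsto_const_nhds
      exact h1.congr fun j => by rw [hea]
  refine ⟨x τ, ?_, ?_⟩
  · refine Mv.of_LSol hd hO hD hτ hg (c := τ⁻¹) (v := v) ?_
    rw [hG]
    exact hL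
  · have hwl := hlim τ ⟨hτ.le, le_rfl⟩
    have hR : ∀ j, ‖io D (e (φ j) τ) - hT D φ₁‖ ^ 2 ≤ 2 * ‖io D (w (φ j)) - hT D φ₀‖ ^ 2 +
        8 * ‖PD D (cl g) - (hT D φ₁ - hT D φ₀)‖ ^ 2 + K * τ := by
      intro j
      have h1 := er_energy hτ hM0 hMτ (vT_lap hD φ₀) (vT_lap hD φ₁) (Nm_NB hd hD (φ j)).skew
        (fun u => (hN₀ (φ j) u).trans (mul_le_mul_of_nonneg_right (by linarith) (norm_nonneg _)))
        (fun u => (hN₁ (φ j) u).trans (mul_le_mul_of_nonneg_right (by linarith) (norm_nonneg _))) (he (φ j))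
      rw [hK, hτG, hea, io_vT hD, io_vT hD] at h1
      exact h1
    refine fB3_wlim hwl hR ?_
    have h2 : Tendsto (fun j => ‖io D (w (φ j)) - hT D φ₀‖ ^ 2) atTop (𝓝 (‖y - hT D φ₀‖ ^ 2)) :=
      (((hwx.comp hφ.tendsto_atTop).sub_const _).norm).pow 2
    exact ((h2.const_mul 2).add_const _).add_const _

end

end Pool.Agent.Lib.MP_79abb3_an.W
end

section

/-!
Theorem W (MP_79abb3_an), block F: erasing in the control region.
-/

set_option autoImplicit false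
set_option linter.unusedSectionVars false

open MeasureTheory Set Filter Topology Function
open scoped ENNReal RealInnerProductSpace

namespace Pool.Agent.Lib.MP_79abb3_an.W

section
variable {d : ℕ}

variable {D : Set (En d)} {N : Set (En d)}

/-- **Erasing**: `f' = Nᶜ.indicator f`, `g = f' - f` (vanishes off `N`); test fields `φ₀`, `φ₁` with `|hT φ₀ - P f|, |hT φ₁ - P f'| ≤ ε'`;
`er_step`: `‖y' - P f'‖ ≤ ε' + sqrt (2 (2 ε')² + 8 (2 ε')² + K τ)`. -/
theorem erase (hd : d = 2 ∨ d = 3) (hO : IsOpen D) (hD : Bornology.IsBounded D) (hN : MeasurableSet N) :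
    Er D N N := by
  refine ⟨hN, fun f hf ε hε T hTp => ?_⟩
  have hf' : MemLp (Nᶜ.indicator f) 2 (volume : Measure (En d)) := hf.indicator hN.compl
  have hδ : 0 < ε / 8 := by positivity
  obtain ⟨φ₀, h0⟩ := (hT_dense D).exists_dist_lt (PD D (cl f)) hδ
  obtain ⟨φ₁, h1⟩ := (hT_dense D).exists_dist_lt (PD D (cl (Nᶜ.indicator f))) hδ
  rw [dist_eq_norm] at h0 h1
  obtain ⟨K, hK, τ₀, hτ₀, hstep⟩ := er_step hd hO hD (N := N) φ₀ φ₁
  refine ⟨ε / 8, hδ, fun y hy => ?_⟩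
  have hK1 : 0 < K + 1 := by linarith
  have hq : 0 < (ε / 8) ^ 2 / (K + 1) := by positivity
  have hτ : 0 < min τ₀ (min T ((ε / 8) ^ 2 / (K + 1))) := lt_min hτ₀ (lt_min hTp hq)
  set τ : ℝ := min τ₀ (min T ((ε / 8) ^ 2 / (K + 1))) with hτd
  have hg : MemLp (fun x => Nᶜ.indicator f x + (-1 : ℝ) • f x) 2 (volume : Measure (En d)) :=
    hf'.add (hf.const_smul (-1 : ℝ))
  obtain ⟨y', hmv, hy'⟩ := hstep τ hτ (min_le_left _ _) y (fun x => Nᶜ.indicator f x + (-1 : ℝ) • f x) hg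
    (fun x hx => by
      show Nᶜ.indicator f x + (-1 : ℝ) • f x = 0
      rw [indicator_of_mem (show x ∈ Nᶜ from hx), neg_one_smul, add_neg_cancel])
  refine ⟨τ, hτ, (min_le_right _ _).trans (min_le_left _ _), y', hmv, ?_⟩
  have hcl : cl (fun x => Nᶜ.indicator f x + (-1 : ℝ) • f x) = cl (Nᶜ.indicator f) + (-1 : ℝ) • cl f := by
    have h2 : MemLp (fun x => (-1 : ℝ) • f x) 2 (volume : Measure (En d)) := hf.const_smul (-1 : ℝ)
    rw [cl_add hf' h2, cl_smul (-1 : ℝ) hf]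
  rw [hcl, map_add, map_smul] at hy'
  have e1 : ‖y - hT D φ₀‖ ≤ 2 * (ε / 8) := by
    calc ‖y - hT D φ₀‖ = ‖(y - PD D (cl f)) + (PD D (cl f) - hT D φ₀)‖ := by congr 1; abel
      _ ≤ ‖y - PD D (cl f)‖ + ‖PD D (cl f) - hT D φ₀‖ := norm_add_le _ _
      _ ≤ 2 * (ε / 8) := by linarith
  have e2 : ‖PD D (cl (Nᶜ.indicator f)) + (-1 : ℝ) • PD D (cl f) - (hT D φ₁ - hT D φ₀)‖ ≤ 2 * (ε / 8) := by
    calc ‖PD D (cl (Nᶜ.indicator f)) + (-1 : ℝ) • PD D (cl f) - (hT D φ₁ - hT D φ₀)‖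
        = ‖(PD D (cl (Nᶜ.indicator f)) - hT D φ₁) - (PD D (cl f) - hT D φ₀)‖ := by
          rw [neg_one_smul]; congr 1; abel
      _ ≤ ‖PD D (cl (Nᶜ.indicator f)) - hT D φ₁‖ + ‖PD D (cl f) - hT D φ₀‖ := norm_sub_le _ _
      _ ≤ 2 * (ε / 8) := by linarith
  have e3 : K * τ ≤ (ε / 8) ^ 2 := by
    have h2 : τ ≤ (ε / 8) ^ 2 / (K + 1) := (min_le_right _ _).trans (min_le_right _ _)
    calc K * τ ≤ (K + 1) * τ := by nlinarith
      _ ≤ (K + 1) * ((ε / 8) ^ 2 / (K + 1)) := mul_le_mul_of_nonneg_left h2 hK1.le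
      _ = (ε / 8) ^ 2 := by field_simp
  have e4 : ‖y' - hT D φ₁‖ ≤ 7 * (ε / 8) := by
    refine abs_le_of_sq_le_sq' ?_ (by positivity) |>.2
    have e5 : ‖y - hT D φ₀‖ ^ 2 ≤ (2 * (ε / 8)) ^ 2 := pow_le_pow_left₀ (norm_nonneg _) e1 2
    have e6 : ‖PD D (cl (Nᶜ.indicator f)) + (-1 : ℝ) • PD D (cl f) - (hT D φ₁ - hT D φ₀)‖ ^ 2 ≤
        (2 * (ε / 8)) ^ 2 := pow_le_pow_left₀ (norm_nonneg _) e2 2
    nlinarith [hy', e5, e6, e3, sq_nonneg (ε / 8)]
  calc ‖y' - PD D (cl (Nᶜ.indicator f))‖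
      = ‖(y' - hT D φ₁) - (PD D (cl (Nᶜ.indicator f)) - hT D φ₁)‖ := by congr 1; abel
    _ ≤ ‖y' - hT D φ₁‖ + ‖PD D (cl (Nᶜ.indicator f)) - hT D φ₁‖ := norm_sub_le _ _
    _ ≤ ε := by linarith

end

end Pool.Agent.Lib.MP_79abb3_an.W
end

section

/-!
Theorem W (MP_79abb3_an), block F: the flush in the form used by the final assembly (`theoremW_of`).
-/

set_option autoImplicit false
set_option linter.unusedSectionVars false

open MeasureTheory Set Filter Topology Function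
open scoped ENNReal RealInnerProductSpace

namespace Pool.Agent.Lib.MP_79abb3_an.W

/-- The statement of the elementary move (blocks C, D, E): a local rotation with support in `D` away from the closed ball
`closedBall p (r / 2)` can be carried out, with forces in `ball p r`. -/
def EMall : Prop := ∀ d : ℕ, d = 2 ∨ d = 3 → ∀ (D : Set (En d)) (z : En d → ℝ) (δ : ℝ), Dom D z δ →
  ∀ (p : En d) (r : ℝ), 0 < r → Metric.closedBall p r ⊆ D → ∀ R : Rot d,
    Metric.closedBall R.c R.r ⊆ D \ Metric.closedBall p (r / 2) → ∃ C : ℝ, 0 ≤ C ∧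
      ∀ f : En d → En d, MemLp f 2 (volume : Measure (En d)) → ∀ y₀ : HD D, ∀ ε > 0, ∀ T > 0,
        ∃ b ∈ Ioc 0 T, ∃ (x : ℝ → HD D) (v : ℝ → VD D), CTr D (Metric.ball p r) 0 b x v ∧ x 0 = y₀ ∧
          ‖x b - PD D (cl (R.pb (-1) f))‖ ≤ C * ‖y₀ - PD D (cl f)‖ + ε

/-- **The flush.** -/
theorem flush_all (hem : EMall) : ∀ d : ℕ, d = 2 ∨ d = 3 → ∀ (D : Set (En d)) (z : En d → ℝ) (δ : ℝ),
    Dom D z δ → ∀ (x : En d) (r : ℝ), 0 < r → Metric.closedBall x r ⊆ D → ∀ (y : HD D) (T ε : ℝ), 0 < T → 0 < ε →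
      ∃ (b : ℝ) (y' : HD D), 0 < b ∧ b ≤ T ∧
        Mv (D \ Metric.closedBall x r) (frontier D) b (y : L2E d) (y' : L2E d) ∧ ‖y'‖ ≤ ε := by
  intro d hd D z δ h x r hr hb y T ε hT hε
  have hO : IsOpen D := by
    have h1 : D = {p | 0 < z p} := by
      ext p
      exact h.pos p
    rw [h1]
    exact isOpen_lt continuous_const h.smo.continuous
  have hc : Ctr D x (r / 2) r := ⟨by positivity, by linarith, hb⟩
  have hE : Emove D x (r / 2) r := emove_of hd hO h.bdd (hem d hd D z δ h x r hr hb)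
  have hd2 : 2 ≤ d := by omega
  obtain ⟨b, hb0, hbT, y', hm, hy'⟩ := flush hd2 hO h.conn.isPreconnected hc hE
    (erase hd hO h.bdd measurableSet_ball) y hT hε
  rw [closure_ball x hr.ne'] at hm
  exact ⟨b, y', hb0, hbT, hm, hy'⟩

end Pool.Agent.Lib.MP_79abb3_an.W
end
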