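import Pool.Agent.Lib.MP_79abb3_an.W.HA

section

/-!
Theorem W, block H, part B: enlarging the domain at a boundary point.
-/

set_option autoImplicit false
set_option linter.unusedSectionVars false

open MeasureTheory Set Filter Topology Function
open scoped ENNReal RealInnerProductSpace

namespace Pool.Agent.Lib.MP_79abb3_an.W

variable {d : ℕ}

/-- The data of the bump: `G = g + ε χ`, `χ` a smooth bump (`ContDiffBump`: `0 ≤ χ ≤ 1`, `χ x₀ = 1`, `χ = 0` off
`ball x₀ r`), `ε` so small that `ε |dχ| ≤ c/2` and `2 ε ≤ c r`. -/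
structure IsBump (Ω : Set (Ed d)) (g G : Ed d → ℝ) (x₀ v : Ed d) (c r ε : ℝ) : Prop where
  df : IsDf Ω (Metric.ball x₀ (3 * r)) g
  r0 : 0 < r
  c0 : 0 < c
  ε0 : 0 < ε
  εr : 2 * ε ≤ c * r
  v1 : ‖v‖ = 1
  zero : g x₀ = 0
  gder : ∀ y ∈ Metric.ball x₀ (3 * r), c ≤ fderiv ℝ g y v
  Gder : ∀ y ∈ Metric.ball x₀ (3 * r), c / 2 ≤ fderiv ℝ G y v
  Gsmo : Smo G
  le : ∀ y, g y ≤ G y
  le' : ∀ y, G y ≤ g y + ε
  eq : ∀ y, r ≤ dist y x₀ → G y = g y
  at0 : G x₀ = ε

/-- Existence of the data, with `ball x₀ (3 r) ⊆ O`. (`IsDf.exists_dir`; `ContDiffBump`; `dχ` is bounded.) -/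
theorem exists_isBump {Ω : Set (Ed d)} (hΩ : IsSmoothDomain Ω) {x₀ : Ed d} (hx : x₀ ∈ frontier Ω)
    {O : Set (Ed d)} (hO : IsOpen O) (hxO : x₀ ∈ O) :
    ∃ (g G : Ed d → ℝ) (v : Ed d) (c r ε : ℝ), IsBump Ω g G x₀ v c r ε ∧ Metric.ball x₀ (3 * r) ⊆ O := by
  obtain ⟨U, g, hdf, hxU⟩ := hΩ.df hx
  have hV : IsDf Ω (U ∩ O) g := hdf.mono (hdf.op.inter hO) inter_subset_left
  obtain ⟨v, c, r', hv, hc, hr', hb, hd⟩ := hV.exists_dir (x := x₀) ⟨hxU, hxO⟩
  set r : ℝ := r' / 3 with hr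
  have hr0 : 0 < r := by positivity
  have h3r : 3 * r = r' := by rw [hr]; ring
  let χ : ContDiffBump x₀ := ⟨r / 2, r, by positivity, by linarith⟩
  have hχs : ContDiff ℝ ((⊤ : ℕ∞) : WithTop ℕ∞) (χ : Ed d → ℝ) := χ.contDiff
  have hχc : HasCompactSupport (χ : Ed d → ℝ) := χ.hasCompactSupport
  obtain ⟨M, hM⟩ := (hχc.fderiv ℝ).exists_bound_of_continuous (hχs.continuous_fderiv (by simp))
  have hM0 : 0 ≤ M := (norm_nonneg _).trans (hM x₀)
  set ε : ℝ := min (c / (2 * (M + 1))) (c * r / 2) with hε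
  have hε0 : 0 < ε := lt_min (by positivity) (by positivity)
  have hε1 : ε * M ≤ c / 2 := by
    have h1 : ε ≤ c / (2 * (M + 1)) := min_le_left _ _
    rw [le_div_iff₀ (by positivity)] at h1
    nlinarith
  have hε2 : 2 * ε ≤ c * r := by
    have h1 : ε ≤ c * r / 2 := min_le_right _ _
    linarith
  have hgd : Differentiable ℝ g := Smo.differentiable hdf.smo
  have hχd : Differentiable ℝ (χ : Ed d → ℝ) := hχs.differentiable (by simp)
  refine ⟨g, fun y => g y + ε * χ y, v, c, r, ε, ⟨?_, hr0, hc, hε0, hε2, hv, ?_, ?_, ?_, ?_, ?_, ?_, ?_, ?_⟩, ?_⟩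
  · rw [h3r]
    exact hV.mono Metric.isOpen_ball hb
  · exact (hdf.frontier_iff hΩ.op hxU).1 hx
  · rw [h3r]
    exact hd
  · rw [h3r]
    intro y hy
    have h1 : fderiv ℝ (fun y => g y + ε * χ y) y v = fderiv ℝ g y v + ε * fderiv ℝ (χ : Ed d → ℝ) y v := by
      rw [fderiv_fun_add (hgd y) ((hχd y).const_mul ε), fderiv_const_mul (hχd y)]
      rfl
    rw [h1]
    have h2 := hd y hy
    have h3 : |fderiv ℝ (χ : Ed d → ℝ) y v| ≤ M := by
      have h4 := (fderiv ℝ (χ : Ed d → ℝ) y).le_opNorm v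
      rw [hv, mul_one, Real.norm_eq_abs] at h4
      exact h4.trans (hM y)
    have h5 : -M ≤ fderiv ℝ (χ : Ed d → ℝ) y v := (abs_le.1 h3).1
    have h6 : ε * (-M) ≤ ε * fderiv ℝ (χ : Ed d → ℝ) y v := mul_le_mul_of_nonneg_left h5 hε0.le
    linarith
  · exact hdf.smo.add (contDiff_const.mul hχs)
  · intro y
    have h1 : 0 ≤ ε * χ y := mul_nonneg hε0.le χ.nonneg
    linarith
  · intro y
    have h1 : ε * χ y ≤ ε * 1 := mul_le_mul_of_nonneg_left χ.le_one hε0.le
    linarith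
  · intro y hy
    have h1 : χ y = 0 := χ.zero_of_le_dist hy
    rw [h1, mul_zero, add_zero]
  · have h1 : χ x₀ = 1 := χ.one_of_mem_closedBall (Metric.mem_closedBall_self (by positivity))
    rw [h1, mul_one, (hdf.frontier_iff hΩ.op hxU).1 hx, zero_add]
  · rw [h3r]
    exact fun y hy => (hb hy).2

/-- The enlarged domain. -/
def bumpD (Ω : Set (Ed d)) (G : Ed d → ℝ) (x₀ : Ed d) (r : ℝ) : Set (Ed d) :=
  Ω ∪ {y | y ∈ Metric.ball x₀ (3 * r) ∧ 0 < G y}

variable {Ω : Set (Ed d)} {g G : Ed d → ℝ} {x₀ v : Ed d} {c r ε : ℝ}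

theorem IsBump.mem_iff (h : IsBump Ω g G x₀ v c r ε) {y : Ed d} (hy : y ∈ Metric.ball x₀ (3 * r)) :
    y ∈ bumpD Ω G x₀ r ↔ 0 < G y := by
  constructor
  · rintro (h1 | h1)
    · exact lt_of_lt_of_le ((h.df.eq y hy).1 h1) (h.le y)
    · exact h1.2
  · exact fun h1 => Or.inr ⟨hy, h1⟩

theorem IsBump.off (h : IsBump Ω g G x₀ v c r ε) {y : Ed d} (hy : r ≤ dist y x₀) :
    y ∈ bumpD Ω G x₀ r ↔ y ∈ Ω := by
  constructor
  · rintro (h1 | h1)
    · exact h1
    · have h2 := h1.2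
      rw [h.eq y hy] at h2
      exact (h.df.eq y h1.1).2 h2
  · exact fun h1 => Or.inl h1

theorem IsBump.off_nhds (h : IsBump Ω g G x₀ v c r ε) {y : Ed d} (hy : r < dist y x₀) :
    ∀ᶠ x in 𝓝 y, (x ∈ bumpD Ω G x₀ r ↔ x ∈ Ω) := by
  have h1 : ∀ᶠ x in 𝓝 y, r < dist x x₀ :=
    (continuous_id.dist continuous_const).continuousAt.eventually_const_lt hy
  filter_upwards [h1] with x hx
  exact h.off hx.le

private theorem hb_seg {x₀ y v : Ed d} (hv : ‖v‖ = 1) {a b s : ℝ} (hy : dist y x₀ < a) (hs0 : 0 ≤ s)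
    (hs : s ≤ b) : y + s • v ∈ Metric.ball x₀ (a + b) := by
  rw [Metric.mem_ball, dist_eq_norm]
  rw [dist_eq_norm] at hy
  calc ‖y + s • v - x₀‖ = ‖(y - x₀) + s • v‖ := by congr 1; abel
    _ ≤ ‖y - x₀‖ + ‖s • v‖ := norm_add_le _ _
    _ < a + b := by
      rw [norm_smul, hv, mul_one, Real.norm_eq_abs, abs_of_nonneg hs0]
      linarith

/-- Segments `{y + s v : 0 ≤ s ≤ ε/c}` join the new points with `Ω`: `g (y + (2ε/c) v) ≥ g y + 2ε ≥ ε > 0` because
`g y ≥ G y - ε > -ε`; `G` increases along the segment (`grow`), which stays in `ball x₀ (3r)` (`y ∈ ball x₀ r`,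
`2ε/c ≤ r`). -/
theorem IsBump.conn (h : IsBump Ω g G x₀ v c r ε) (hΩ : IsSmoothDomain Ω) :
    IsConnected (bumpD Ω G x₀ r) := by
  have hr0 := h.r0
  have hc0 := h.c0
  have hε0 := h.ε0
  refine conn_of_join hΩ.conn subset_union_left fun x hx => ?_
  by_cases hxΩ : x ∈ Ω
  · exact ⟨{x}, isPreconnected_singleton, by rw [singleton_subset_iff]; exact hx, rfl, x, rfl, hxΩ⟩
  have hd : dist x x₀ < r := by
    by_contra hcon
    exact hxΩ ((h.off (not_lt.1 hcon)).1 hx)
  have hxb : x ∈ Metric.ball x₀ (3 * r) := by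
    rw [Metric.mem_ball]; linarith
  have hGx : 0 < G x := (h.mem_iff hxb).1 hx
  set τ : ℝ := 2 * ε / c with hτ
  have hτ0 : 0 ≤ τ := by positivity
  have hτr : τ ≤ r := by
    rw [hτ, div_le_iff₀ hc0]
    linarith [h.εr]
  have hin : ∀ s ∈ Icc 0 τ, x + s • v ∈ Metric.ball x₀ (3 * r) := by
    intro s hs
    have h1 := hb_seg h.v1 hd hs.1 (hs.2.trans hτr)
    refine Metric.ball_subset_ball ?_ h1
    linarith
  refine ⟨(fun s : ℝ => x + s • v) '' Icc 0 τ, ?_, ?_, ⟨0, left_mem_Icc.2 hτ0, by simp⟩,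
    x + τ • v, ⟨τ, right_mem_Icc.2 hτ0, rfl⟩, ?_⟩
  · exact isPreconnected_Icc.image _ (by fun_prop)
  · rintro _ ⟨s, hs, rfl⟩
    refine (h.mem_iff (hin s hs)).2 ?_
    have h1 := grow (Smo.differentiable h.Gsmo) h.Gder hs.1
      (fun s' hs' => hin s' ⟨hs'.1, hs'.2.trans hs.2⟩)
    have h2 : 0 ≤ c / 2 * s := mul_nonneg (by positivity) hs.1
    linarith
  · refine (h.df.eq _ (hin τ (right_mem_Icc.2 hτ0))).2 ?_
    have h1 := grow (Smo.differentiable h.df.smo) h.gder hτ0 hin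
    have h2 : c * τ = 2 * ε := by
      rw [hτ]
      field_simp
    have h3 := h.le' x
    linarith

/-- The new domain is a smooth domain: defining functions `G` in `ball x₀ (3r)`, the old ones (restricted to
`{dist y x₀ > r}`) elsewhere. -/
theorem IsBump.smooth (h : IsBump Ω g G x₀ v c r ε) (hΩ : IsSmoothDomain Ω) :
    IsSmoothDomain (bumpD Ω G x₀ r) := by
  have hr0 := h.r0
  have hc0 := h.c0
  refine ⟨?_, ?_, h.conn hΩ, fun x hx => ?_⟩
  · exact hΩ.op.union (Metric.isOpen_ball.inter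
      (isOpen_lt continuous_const (Smo.differentiable h.Gsmo).continuous))
  · exact hΩ.bdd.union (Metric.isBounded_ball.subset fun y hy => hy.1)
  · by_cases hxb : x ∈ Metric.ball x₀ (3 * r)
    · refine ⟨Metric.ball x₀ (3 * r), G, Metric.isOpen_ball, hxb, h.Gsmo, fun y hy h0 => ?_,
        fun y hy => h.mem_iff hy⟩
      have h1 := h.Gder y hy
      rw [h0] at h1
      simp only [zero_apply] at h1
      linarith
    · have hd : r < dist x x₀ := by
        rw [Metric.mem_ball, not_lt] at hxb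
        linarith
      have hx' : x ∈ frontier Ω := (frontier_congr (h.off_nhds hd)).1 hx
      obtain ⟨U, g', h1, h2, h3, h4, h5⟩ := hΩ.loc x hx'
      refine ⟨U ∩ {y | r < dist y x₀}, g', h1.inter (isOpen_lt continuous_const (by fun_prop)),
        ⟨h2, hd⟩, h3, fun y hy => h4 y hy.1, fun y hy => ?_⟩
      have h6 : r < dist y x₀ := hy.2
      rw [h.off h6.le]
      exact h5 y hy.1

/-- The point `x₀ - s v` with small `s > 0` is in the new domain and not in the closure of `Ω`. -/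
theorem IsBump.free (h : IsBump Ω g G x₀ v c r ε) (hΩ : IsSmoothDomain Ω) :
    ∃ x ∈ bumpD Ω G x₀ r, x ∉ closure Ω := by
  have hr0 := h.r0
  have hc0 := h.c0
  have hGc : Continuous G := (Smo.differentiable h.Gsmo).continuous
  have h1 : ∀ᶠ s : ℝ in 𝓝 0, 0 < G (x₀ - s • v) := by
    have h2 : Continuous fun s : ℝ => G (x₀ - s • v) := by fun_prop
    refine h2.continuousAt.eventually_const_lt ?_
    show 0 < G (x₀ - (0 : ℝ) • v)
    rw [zero_smul, sub_zero, h.at0]
    exact h.ε0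
  obtain ⟨δ, hδ, h2⟩ := Metric.eventually_nhds_iff.1 h1
  set s : ℝ := min (δ / 2) r with hs
  have hs0 : 0 < s := lt_min (by positivity) hr0
  have hsδ : s < δ := lt_of_le_of_lt (min_le_left _ _) (by linarith)
  have hsr : s ≤ r := min_le_right _ _
  have hin : ∀ σ ∈ Icc 0 s, x₀ - s • v + σ • v ∈ Metric.ball x₀ (3 * r) := by
    intro σ hσ
    rw [Metric.mem_ball, dist_eq_norm]
    have e : x₀ - s • v + σ • v - x₀ = (σ - s) • v := by
      rw [sub_smul]
      abel
    rw [e, norm_smul, h.v1, mul_one, Real.norm_eq_abs, abs_of_nonpos (by linarith [hσ.2])]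
    linarith [hσ.1]
  have h3 : 0 < G (x₀ - s • v) := h2 (by
    rw [Real.dist_eq, sub_zero, abs_of_pos hs0]
    exact hsδ)
  have h4 : x₀ - s • v ∈ Metric.ball x₀ (3 * r) := by
    have := hin 0 (left_mem_Icc.2 hs0.le)
    rwa [zero_smul, add_zero] at this
  refine ⟨x₀ - s • v, (h.mem_iff h4).2 h3, fun hcl => ?_⟩
  have h5 := (h.df.closure_iff hΩ.op h4).1 hcl
  have h6 := grow (Smo.differentiable h.df.smo) h.gder hs0.le hin
  rw [sub_add_cancel, h.zero] at h6
  have h7 : 0 < c * s := mul_pos hc0 hs0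
  linarith

/-- **Enlarging at a boundary point.** -/
theorem exists_bump (hΩ : IsSmoothDomain Ω) (hx : x₀ ∈ frontier Ω) {O : Set (Ed d)} (hO : IsOpen O)
    (hxO : x₀ ∈ O) : ∃ D : Set (Ed d), IsSmoothDomain D ∧ Ω ⊆ D ∧ (∃ x ∈ D, x ∉ closure Ω) ∧
      ∀ x ∉ O, ∀ᶠ y in 𝓝 x, (y ∈ D ↔ y ∈ Ω) := by
  obtain ⟨g, G, v, c, r, ε, h, hr⟩ := exists_isBump hΩ hx hO hxO
  refine ⟨bumpD Ω G x₀ r, h.smooth hΩ, subset_union_left, h.free hΩ, fun x hxo => h.off_nhds ?_⟩
  by_contra hcon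
  refine hxo (hr ?_)
  rw [Metric.mem_ball]
  have := h.r0
  linarith [not_lt.1 hcon]

end Pool.Agent.Lib.MP_79abb3_an.W
end

section

/-!
Theorem W, block H, part C: tubular coordinates (inverse function theorem).
-/

set_option autoImplicit false
set_option linter.unusedSectionVars false

open MeasureTheory Set Filter Topology Function
open scoped ENNReal RealInnerProductSpace

namespace Pool.Agent.Lib.MP_79abb3_an.W

variable {d : ℕ}

/-- The map `(y, s) ↦ (y + s ν(y), g y)`. -/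
noncomputable def tubMap (g : Ed d → ℝ) (q : Ed d × ℝ) : Ed d × ℝ := (q.1 + q.2 • nu g q.1, g q.1)

theorem tubMap_smooth {Ω U : Set (Ed d)} {g : Ed d → ℝ} (h : IsDf Ω U g) :
    ContDiffOn ℝ ((⊤ : ℕ∞) : WithTop ℕ∞) (tubMap g) (U ×ˢ univ) := by
  have h1 : ContDiffOn ℝ ((⊤ : ℕ∞) : WithTop ℕ∞) (fun q : Ed d × ℝ => nu g q.1) (U ×ˢ univ) :=
    h.nu_smooth.comp contDiffOn_fst fun q hq => hq.1
  have h2 : ContDiffOn ℝ ((⊤ : ℕ∞) : WithTop ℕ∞) (fun q : Ed d × ℝ => g q.1) (U ×ˢ univ) :=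
    (ContDiff.comp h.smo contDiff_fst).contDiffOn
  exact (contDiffOn_fst.add (contDiffOn_snd.smul h1)).prodMk h2

private theorem hc_dnu {Ω U : Set (Ed d)} {g : Ed d → ℝ} (h : IsDf Ω U g) {y : Ed d} (hy : y ∈ U) :
    fderiv ℝ g y (nu g y) = ‖gradient g y‖ := by
  have h1 : ‖gradient g y‖ ≠ 0 := norm_ne_zero_iff.mpr (h.grad_ne hy)
  rw [← grad_inner, nu, inner_smul_right, real_inner_self_eq_norm_sq]
  field_simp

private theorem hc_dpos {Ω U : Set (Ed d)} {g : Ed d → ℝ} (h : IsDf Ω U g) {y : Ed d} (hy : y ∈ U) :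
    0 < fderiv ℝ g y (nu g y) := by
  rw [hc_dnu h hy]; exact norm_pos_iff.mpr (h.grad_ne hy)

private theorem hc_diff {Ω U : Set (Ed d)} {g : Ed d → ℝ} (h : IsDf Ω U g) {y : Ed d} (hy : y ∈ U) :
    DifferentiableAt ℝ (nu g) y :=
  (h.nu_smooth.contDiffAt (h.op.mem_nhds hy)).differentiableAt (by norm_num)

/-- The derivative at `(y, 0)` is `(η, τ) ↦ (η + τ ν(y), dg(η))`, which is injective: `η = -τ ν`, `0 = dg(η) = -τ |∇g|`. So
it is an isomorphism (finite dimension). -/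
theorem tubMap_deriv {Ω U : Set (Ed d)} {g : Ed d → ℝ} (h : IsDf Ω U g) {y : Ed d} (hy : y ∈ U) :
    ∃ A : (Ed d × ℝ) ≃L[ℝ] (Ed d × ℝ), HasFDerivAt (tubMap g) (A : (Ed d × ℝ) →L[ℝ] (Ed d × ℝ)) (y, 0) ∧
      ∀ q, A q = (q.1 + q.2 • nu g y, fderiv ℝ g y q.1) := by
  let L : (Ed d × ℝ) →L[ℝ] (Ed d × ℝ) :=
    (ContinuousLinearMap.fst ℝ (Ed d) ℝ +
      (ContinuousLinearMap.snd ℝ (Ed d) ℝ).smulRight (nu g y)).prod
      ((fderiv ℝ g y).comp (ContinuousLinearMap.fst ℝ (Ed d) ℝ))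
  have hL : ∀ q, L q = (q.1 + q.2 • nu g y, fderiv ℝ g y q.1) := fun q => rfl
  have hinj : Function.Injective (L : (Ed d × ℝ) →ₗ[ℝ] (Ed d × ℝ)) := by
    refine (injective_iff_map_eq_zero (L : (Ed d × ℝ) →ₗ[ℝ] (Ed d × ℝ))).mpr fun q hq => ?_
    have hq' : L q = 0 := hq
    rw [hL] at hq'
    have h1 : q.1 + q.2 • nu g y = 0 := congrArg Prod.fst hq'
    have h2 : fderiv ℝ g y q.1 = 0 := congrArg Prod.snd hq'
    have h3 : q.1 = -(q.2 • nu g y) := eq_neg_of_add_eq_zero_left h1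
    rw [h3, map_neg, map_smul, neg_eq_zero, smul_eq_mul] at h2
    have h4 : q.2 = 0 := (mul_eq_zero.mp h2).resolve_right (hc_dpos h hy).ne'
    rw [h4, zero_smul, neg_zero] at h3
    exact Prod.ext h3 h4
  let A : (Ed d × ℝ) ≃L[ℝ] (Ed d × ℝ) :=
    (LinearEquiv.ofInjectiveEndo (L : (Ed d × ℝ) →ₗ[ℝ] (Ed d × ℝ)) hinj).toContinuousLinearEquiv
  have hA : ∀ q, A q = L q := fun q => rfl
  refine ⟨A, ?_, fun q => by rw [hA, hL]⟩
  have hAL : (A : (Ed d × ℝ) →L[ℝ] (Ed d × ℝ)) = L := ContinuousLinearMap.ext hA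
  rw [hAL]
  have h5 : HasFDerivAt (fun q : Ed d × ℝ => nu g q.1)
      ((fderiv ℝ (nu g) y).comp (ContinuousLinearMap.fst ℝ (Ed d) ℝ)) (y, 0) := by
    have h51 : HasFDerivAt (nu g) (fderiv ℝ (nu g) y) ((y, (0 : ℝ)) : Ed d × ℝ).1 :=
      (hc_diff h hy).hasFDerivAt
    exact h51.comp ((y, (0 : ℝ)) : Ed d × ℝ) hasFDerivAt_fst
  have h6 : HasFDerivAt (fun q : Ed d × ℝ => q.2 • nu g q.1)
      ((ContinuousLinearMap.snd ℝ (Ed d) ℝ).smulRight (nu g y)) (y, 0) := by
    have h7 := HasFDerivAt.fun_smul (hasFDerivAt_snd (𝕜 := ℝ) (p := (y, (0 : ℝ)))) h5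
    simpa using h7
  have h8 : HasFDerivAt (fun q : Ed d × ℝ => g q.1)
      ((fderiv ℝ g y).comp (ContinuousLinearMap.fst ℝ (Ed d) ℝ)) (y, 0) := by
    have h81 : HasFDerivAt g (fderiv ℝ g y) ((y, (0 : ℝ)) : Ed d × ℝ).1 :=
      (h.smo.differentiable y).hasFDerivAt
    exact h81.comp ((y, (0 : ℝ)) : Ed d × ℝ) hasFDerivAt_fst
  exact (hasFDerivAt_fst.add h6).prodMk h8

/-- **Tubular coordinates.** The inverse function theorem (`ContDiffAt.toOpenPartialHomeomorph`, smooth inverse near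
the point: `OpenPartialHomeomorph.contDiffAt_symm`, the derivative stays invertible nearby) for `tubMap g` at
`(x₀, 0)`; `(p x, t x)` = the inverse at `(x, 0)`. -/
theorem exists_tub {Ω U : Set (Ed d)} {g : Ed d → ℝ} (h : IsDf Ω U g) {x₀ : Ed d} (hx : x₀ ∈ U)
    (h0 : g x₀ = 0) : ∃ (ε : ℝ) (p : Ed d → Ed d) (t : Ed d → ℝ), IsTub U g x₀ ε p t := by
  have hop : IsOpen (U ×ˢ (univ : Set ℝ)) := h.op.prod isOpen_univ
  have hsm : ∀ q ∈ U ×ˢ (univ : Set ℝ), ContDiffAt ℝ ((⊤ : ℕ∞) : WithTop ℕ∞) (tubMap g) q :=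
    fun q hq => (tubMap_smooth h).contDiffAt (hop.mem_nhds hq)
  obtain ⟨A, hA, -⟩ := tubMap_deriv h hx
  have hn : ((⊤ : ℕ∞) : WithTop ℕ∞) ≠ 0 := by norm_num
  have hmem : ((x₀, 0) : Ed d × ℝ) ∈ U ×ˢ (univ : Set ℝ) := ⟨hx, mem_univ _⟩
  let e := (hsm _ hmem).toOpenPartialHomeomorph (tubMap g) hA hn
  have he : (e : Ed d × ℝ → Ed d × ℝ) = tubMap g :=
    ContDiffAt.toOpenPartialHomeomorph_coe (hsm _ hmem) hA hn
  have hsrc : ((x₀, 0) : Ed d × ℝ) ∈ e.source :=
    ContDiffAt.mem_toOpenPartialHomeomorph_source (hsm _ hmem) hA hn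
  have hval : e (x₀, 0) = (x₀, 0) := by
    rw [he]; simp [tubMap, h0]
  have htgt : ((x₀, 0) : Ed d × ℝ) ∈ e.target := by
    have := e.map_source hsrc; rwa [hval] at this
  have hsymm : e.symm (x₀, 0) = (x₀, 0) := by
    have := e.left_inv hsrc; rwa [hval] at this
  -- good points of the source
  have hgood : ∀ᶠ q in 𝓝 ((x₀, 0) : Ed d × ℝ), q ∈ U ×ˢ (univ : Set ℝ) ∧
      fderiv ℝ (tubMap g) q ∈ Set.range
        (ContinuousLinearEquiv.toContinuousLinearMap : ((Ed d × ℝ) ≃L[ℝ] (Ed d × ℝ)) → _) := by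
    refine (hop.eventually_mem hmem).and ?_
    have hc : ContinuousAt (fderiv ℝ (tubMap g)) (x₀, 0) :=
      ((hsm _ hmem).fderiv_right (m := 0) (by norm_num)).continuousAt
    refine hc ?_
    rw [hA.fderiv]
    exact ContinuousLinearEquiv.nhds A
  have hcs : ContinuousAt e.symm (x₀, 0) := e.symm.continuousAt htgt
  have hev1 : ∀ᶠ a in 𝓝 ((x₀, 0) : Ed d × ℝ), a ∈ e.target ∧ (e.symm a ∈ U ×ˢ (univ : Set ℝ) ∧
      fderiv ℝ (tubMap g) (e.symm a) ∈ Set.range
        (ContinuousLinearEquiv.toContinuousLinearMap : ((Ed d × ℝ) ≃L[ℝ] (Ed d × ℝ)) → _)) := by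
    refine (e.open_target.eventually_mem htgt).and ?_
    have hcs' : Tendsto e.symm (𝓝 (x₀, 0)) (𝓝 (x₀, 0)) := by
      have := hcs.tendsto; rwa [hsymm] at this
    exact hcs'.eventually hgood
  have hev2 : ∀ᶠ a in 𝓝 ((x₀, 0) : Ed d × ℝ), a ∈ e.source := e.open_source.mem_nhds hsrc
  obtain ⟨ε, hε, hball⟩ := Metric.eventually_nhds_iff_ball.mp (hev1.and hev2)
  have hin : ∀ (x : Ed d) (s : ℝ), x ∈ Metric.ball x₀ ε → |s| < ε →
      ((x, s) : Ed d × ℝ) ∈ Metric.ball ((x₀, 0) : Ed d × ℝ) ε := by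
    intro x s hx1 hs
    rw [Metric.mem_ball, Prod.dist_eq, max_lt_iff]
    exact ⟨hx1, by simpa using hs⟩
  have hin0 : ∀ x : Ed d, x ∈ Metric.ball x₀ ε →
      ((x, 0) : Ed d × ℝ) ∈ Metric.ball ((x₀, 0) : Ed d × ℝ) ε := fun x hx1 =>
    hin x 0 hx1 (by simpa using hε)
  have hsmooth : ∀ x ∈ Metric.ball x₀ ε,
      ContDiffAt ℝ ((⊤ : ℕ∞) : WithTop ℕ∞) (fun x : Ed d => e.symm (x, 0)) x := by
    intro x hx1
    obtain ⟨⟨h1, h2, B, hB⟩, -⟩ := hball _ (hin0 x hx1)
    have h3 : HasFDerivAt e (B : (Ed d × ℝ) →L[ℝ] (Ed d × ℝ)) (e.symm (x, 0)) := by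
      rw [he, hB]
      exact ((hsm _ h2).differentiableAt (by norm_num)).hasFDerivAt
    have h4 : ContDiffAt ℝ ((⊤ : ℕ∞) : WithTop ℕ∞) e (e.symm (x, 0)) := by
      rw [he]; exact hsm _ h2
    have h5 := OpenPartialHomeomorph.contDiffAt_symm e h1 h3 h4
    exact ContDiffAt.comp x h5 (contDiff_id.prodMk contDiff_const).contDiffAt
  refine ⟨ε, fun x => (e.symm (x, 0)).1, fun x => (e.symm (x, 0)).2, hε, ?_, ?_, ?_, ?_, ?_⟩
  · exact fun x hx1 => (contDiffAt_fst.comp x (hsmooth x hx1)).contDiffWithinAt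
  · exact fun x hx1 => (contDiffAt_snd.comp x (hsmooth x hx1)).contDiffWithinAt
  · intro x hx1
    obtain ⟨⟨h1, h2, -⟩, -⟩ := hball _ (hin0 x hx1)
    have h3 := e.right_inv h1
    rw [he] at h3
    refine ⟨h2.1, congrArg Prod.snd h3, (congrArg Prod.fst h3).symm⟩
  · exact ⟨by rw [hsymm], by rw [hsymm]⟩
  · intro y s hy hs hg hb
    obtain ⟨-, h1⟩ := hball _ (hin y s hy hs)
    have h2 := e.left_inv h1
    have h3 : e (y, s) = (y + s • nu g y, 0) := by
      rw [he]; simp [tubMap, hg]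
    rw [h3] at h2
    exact ⟨by rw [h2], by rw [h2]⟩

/-- **The gradient of `t` is the normal**: differentiate `x = p x + t x ν(p x)` in the direction `w` and take the inner
product with `ν(p x)`: `⟪ν, Dp w⟫ = 0` because `g (p x) = 0`, and `⟪ν, Dν(p x) Dp w⟫ = 0` because `|ν| = 1`. -/
theorem IsTub.grad {Ω U : Set (Ed d)} {g : Ed d → ℝ} (h : IsDf Ω U g) {x₀ : Ed d} {ε : ℝ} {p : Ed d → Ed d}
    {t : Ed d → ℝ} (ht : IsTub U g x₀ ε p t) {x : Ed d} (hx : x ∈ Metric.ball x₀ ε) :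
    gradient t x = nu g (p x) := by
  have hnb : Metric.ball x₀ ε ∈ 𝓝 x := Metric.isOpen_ball.mem_nhds hx
  have hp : DifferentiableAt ℝ p x := (ht.psmo.contDiffAt hnb).differentiableAt (by norm_num)
  have ht' : DifferentiableAt ℝ t x := (ht.tsmo.contDiffAt hnb).differentiableAt (by norm_num)
  obtain ⟨hU, hg0, -⟩ := ht.mem x hx
  have hN : HasFDerivAt (fun x => nu g (p x)) ((fderiv ℝ (nu g) (p x)).comp (fderiv ℝ p x)) x :=
    HasFDerivAt.comp x (hc_diff h hU).hasFDerivAt hp.hasFDerivAt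
  have h1 : HasFDerivAt (fun x => p x + t x • nu g (p x))
      (fderiv ℝ p x + (t x • ((fderiv ℝ (nu g) (p x)).comp (fderiv ℝ p x)) +
        (fderiv ℝ t x).smulRight (nu g (p x)))) x :=
    hp.hasFDerivAt.add (HasFDerivAt.fun_smul ht'.hasFDerivAt hN)
  have h2 : HasFDerivAt (fun x : Ed d => x) (ContinuousLinearMap.id ℝ (Ed d)) x := hasFDerivAt_id x
  have h3 : (fun x => p x + t x • nu g (p x)) =ᶠ[𝓝 x] fun x => x := by
    filter_upwards [hnb] with z hz
    exact (ht.mem z hz).2.2.symm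
  have h4 := (h2.congr_of_eventuallyEq h3).unique h1
  -- `g ∘ p = 0`
  have h5 : HasFDerivAt (fun x => g (p x)) ((fderiv ℝ g (p x)).comp (fderiv ℝ p x)) x :=
    HasFDerivAt.comp x (h.smo.differentiable (p x)).hasFDerivAt hp.hasFDerivAt
  have h6 : (fun x => g (p x)) =ᶠ[𝓝 x] fun _ => (0 : ℝ) := by
    filter_upwards [hnb] with z hz
    exact (ht.mem z hz).2.1
  have h7 := ((hasFDerivAt_const (0 : ℝ) x).congr_of_eventuallyEq h6).unique h5
  have h8 : ∀ w, fderiv ℝ g (p x) (fderiv ℝ p x w) = 0 := by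
    intro w
    have := congrArg (fun A : Ed d →L[ℝ] ℝ => A w) h7
    simpa using this.symm
  -- `|ν| = 1`
  have h9 : ∀ v, ⟪nu g (p x), fderiv ℝ (nu g) (p x) v⟫ = 0 := by
    intro v
    have h10 : HasFDerivAt (fun y => ‖nu g y‖ ^ 2)
        (2 • (innerSL ℝ (nu g (p x))).comp (fderiv ℝ (nu g) (p x))) (p x) :=
      (hc_diff h hU).hasFDerivAt.norm_sq
    have h11 : (fun y => ‖nu g y‖ ^ 2) =ᶠ[𝓝 (p x)] fun _ => (1 : ℝ) := by
      filter_upwards [h.op.mem_nhds hU] with z hz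
      rw [h.nu_norm hz, one_pow]
    have h12 := ((hasFDerivAt_const (1 : ℝ) (p x)).congr_of_eventuallyEq h11).unique h10
    have h13 := congrArg (fun A : Ed d →L[ℝ] ℝ => A v) h12
    simp only [ContinuousLinearMap.zero_apply, ContinuousLinearMap.smul_apply,
      ContinuousLinearMap.comp_apply, innerSL_apply_apply, nsmul_eq_mul, Nat.cast_ofNat] at h13
    linarith
  refine grad_of_inner ?_
  have h14 : (innerSL ℝ (nu g (p x)) : Ed d →L[ℝ] ℝ) = fderiv ℝ t x := by
    ext w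
    have h15 := congrArg (fun A : Ed d →L[ℝ] Ed d => A w) h4
    simp only [ContinuousLinearMap.add_apply, ContinuousLinearMap.smul_apply,
      ContinuousLinearMap.comp_apply, ContinuousLinearMap.smulRight_apply,
      ContinuousLinearMap.id_apply] at h15
    have h17 : ⟪nu g (p x), w⟫ = ⟪nu g (p x), fderiv ℝ p x w + (t x • fderiv ℝ (nu g) (p x) (fderiv ℝ p x w) +
        fderiv ℝ t x w • nu g (p x))⟫ := congrArg (fun z => ⟪nu g (p x), z⟫) h15
    rw [innerSL_apply_apply, h17, inner_add_right, inner_add_right, inner_smul_right, h9, mul_zero, zero_add,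
      inner_smul_right, real_inner_self_eq_norm_sq, h.nu_norm hU]
    have h16 : ⟪nu g (p x), fderiv ℝ p x w⟫ = 0 := by
      rw [nu, inner_smul_left, grad_inner, h8]; simp
    rw [h16]; ring
  rw [h14]
  exact ht'.hasFDerivAt

/-- **Signs**: near `x₀` the functions `g` and `t` have the same sign. (`g (p + s ν(p))` has the derivative
`⟪∇g(p + s ν(p)), ν(p)⟫ > 0` near `x₀` by continuity.) -/
theorem IsTub.sign {Ω U : Set (Ed d)} {g : Ed d → ℝ} (h : IsDf Ω U g) {x₀ : Ed d} (hx : x₀ ∈ U) {ε : ℝ}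
    {p : Ed d → Ed d} {t : Ed d → ℝ} (ht : IsTub U g x₀ ε p t) : ∀ᶠ x in 𝓝 x₀, (0 < g x ↔ 0 < t x) := by
  have hx0 : x₀ ∈ Metric.ball x₀ ε := Metric.mem_ball_self ht.ε0
  have hnb : Metric.ball x₀ ε ∈ 𝓝 x₀ := Metric.isOpen_ball.mem_nhds hx0
  have hpc : ContinuousAt p x₀ := (ht.psmo.contDiffAt hnb).continuousAt
  -- continuity of `(y, y') ↦ dg(y) ν(y')`
  have hF : ContinuousAt (fun q : Ed d × Ed d => fderiv ℝ g q.1 (nu g q.2)) (x₀, x₀) := by
    have h1 : Continuous (fderiv ℝ g) := ContDiff.continuous_fderiv h.smo (by norm_num)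
    have h2 : ContinuousAt (nu g) x₀ := (hc_diff h hx).continuousAt
    refine ContinuousAt.clm_apply (h1.continuousAt.comp continuousAt_fst) ?_
    exact ContinuousAt.comp (g := nu g) (f := Prod.snd) (x := (x₀, x₀)) h2 continuousAt_snd
  have hpos := hc_dpos h hx
  have hev : ∀ᶠ q in 𝓝 ((x₀, x₀) : Ed d × Ed d),
      fderiv ℝ g x₀ (nu g x₀) / 2 < fderiv ℝ g q.1 (nu g q.2) :=
    hF.eventually (lt_mem_nhds (by simpa using half_lt_self hpos))
  obtain ⟨r, hr, hball⟩ := Metric.eventually_nhds_iff_ball.mp hev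
  have hin : ∀ y y' : Ed d, y ∈ Metric.ball x₀ r → y' ∈ Metric.ball x₀ r →
      fderiv ℝ g x₀ (nu g x₀) / 2 < fderiv ℝ g y (nu g y') := by
    intro y y' hy hy'
    refine hball (y, y') ?_
    rw [Metric.mem_ball, Prod.dist_eq, max_lt_iff]
    exact ⟨hy, hy'⟩
  have hpt : Tendsto p (𝓝 x₀) (𝓝 x₀) := by
    have := hpc.tendsto; rwa [ht.at0.1] at this
  filter_upwards [hnb, Metric.ball_mem_nhds x₀ hr, hpt (Metric.ball_mem_nhds x₀ hr)] with x h1 h2 h3
  obtain ⟨hU, hg0, hxe⟩ := ht.mem x h1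
  have hgd : Differentiable ℝ g := h.smo.differentiable
  have hc : ∀ y ∈ Metric.ball x₀ r, fderiv ℝ g x₀ (nu g x₀) / 2 ≤ fderiv ℝ g y (nu g (p x)) :=
    fun y hy => (hin y (p x) hy h3).le
  have hseg : ∀ s : ℝ, 0 ≤ s → s ≤ 1 → p x + (s * t x) • nu g (p x) ∈ Metric.ball x₀ r := by
    intro s hs0 hs1
    have h4 := (convex_ball x₀ r) h3 h2 (sub_nonneg.mpr hs1) hs0 (by ring)
    have h5 : (1 - s) • p x + s • x = p x + (s * t x) • nu g (p x) := by
      have h6 : s • x = s • (p x + t x • nu g (p x)) := congrArg (fun z => s • z) hxe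
      rw [h6, smul_add, smul_smul, ← add_assoc, ← add_smul]
      simp
    rwa [h5] at h4
  rcases lt_or_ge 0 (t x) with hpo | hne
  · have h4 := grow hgd (v := nu g (p x)) (y := p x) (τ := t x) hc hpo.le (by
      intro s hs
      have h5 := hseg (s / t x) (div_nonneg hs.1 hpo.le) (by rw [div_le_one hpo]; exact hs.2)
      rwa [div_mul_cancel₀ _ hpo.ne'] at h5)
    rw [← hxe, hg0] at h4
    exact ⟨fun _ => hpo, fun _ => by nlinarith⟩
  · have h4 := grow hgd (v := nu g (p x)) (y := x) (τ := -t x) hc (neg_nonneg.mpr hne) (by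
      intro s hs
      rcases eq_or_lt_of_le hne with h0 | h0
      · have hs0 : s = 0 := le_antisymm (by rw [h0, neg_zero] at hs; exact hs.2) hs.1
        rw [hs0, zero_smul, add_zero]; exact h2
      · have h5 := hseg (1 + s / t x) (by
          have h6 : -1 ≤ s / t x := by
            rw [le_div_iff_of_neg h0]; linarith [hs.2]
          linarith) (by
          have h6 : s / t x ≤ 0 := div_nonpos_of_nonneg_of_nonpos hs.1 hne
          linarith)
        have h7 : p x + ((1 + s / t x) * t x) • nu g (p x) = x + s • nu g (p x) := by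
          have h8 : (1 + s / t x) * t x = t x + s := by
            rw [add_mul, one_mul, div_mul_cancel₀ _ h0.ne]
          rw [h8, add_smul, ← add_assoc, ← hxe]
        rwa [h7] at h5)
    have h9 : x + (-t x) • nu g (p x) = p x := by
      nth_rewrite 1 [hxe]
      rw [neg_smul]; abel
    rw [h9, hg0] at h4
    constructor
    · intro h10
      exfalso
      nlinarith
    · intro h10
      exact absurd h10 (not_lt.mpr hne)

end Pool.Agent.Lib.MP_79abb3_an.W
end

section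

/-!
Theorem W, block H, part D: the signed distance is smooth near the boundary.
-/

set_option autoImplicit false
set_option linter.unusedSectionVars false

open MeasureTheory Set Filter Topology Function
open scoped ENNReal RealInnerProductSpace

namespace Pool.Agent.Lib.MP_79abb3_an.W

variable {d : ℕ}

/-- Lagrange multiplier: if `y ∈ U`, `g y = 0`, minimises `|x - ·|` among the zeros of `g` near `y`, then `x - y` is
normal (`IsLocalExtrOn.exists_multipliers_of_hasStrictFDerivAt_1d`). -/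
theorem lagrange {Ω U : Set (Ed d)} {g : Ed d → ℝ} (h : IsDf Ω U g) {x y : Ed d} (hy : y ∈ U) (h0 : g y = 0)
    (hm : ∀ᶠ z in 𝓝 y, g z = 0 → ‖x - y‖ ≤ ‖x - z‖) : ∃ s : ℝ, x - y = s • nu g y ∧ |s| = ‖x - y‖ := by
  have hmin : IsLocalExtrOn (fun z => ‖x - z‖ ^ 2) {z | g z = g y} y := by
    left
    refine Filter.eventually_inf_principal.2 ?_
    filter_upwards [hm] with z hz hz'
    have hz0 : g z = 0 := by rw [← h0]; exact hz'
    exact pow_le_pow_left₀ (norm_nonneg _) (hz hz0) 2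
  have hg : HasStrictFDerivAt g (fderiv ℝ g y) y := h.smo.contDiffAt.hasStrictFDerivAt (by simp)
  have hs : HasStrictFDerivAt (fun z => x - z) (-(ContinuousLinearMap.id ℝ (Ed d))) y := by
    simpa using (hasStrictFDerivAt_id (𝕜 := ℝ) y).const_sub x
  have hns : HasStrictFDerivAt (fun z => ‖x - z‖ ^ 2)
      ((2 • (innerSL ℝ (x - y))).comp (-(ContinuousLinearMap.id ℝ (Ed d)))) y :=
    (hasStrictFDerivAt_norm_sq (x - y)).comp y hs
  obtain ⟨a, b, hab, he⟩ := hmin.exists_multipliers_of_hasStrictFDerivAt_1d hg hns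
  have hb : b ≠ 0 := by
    intro hb
    rw [hb, zero_smul, add_zero] at he
    rcases smul_eq_zero.1 he with ha | ha
    · exact hab (by rw [ha, hb]; rfl)
    · exact h.reg y hy ha
  have key : ∀ v, (2 * b) * ⟪x - y, v⟫ = a * ⟪gradient g y, v⟫ := by
    intro v
    have h1 := congrArg (fun L : Ed d →L[ℝ] ℝ => L v) he
    have h2 : a * fderiv ℝ g y v + b * (2 • ⟪x - y, -v⟫) = 0 := h1
    rw [inner_neg_right, ← grad_inner g y v, nsmul_eq_mul] at h2
    push_cast at h2
    linarith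
  have hn := h.nu_norm hy
  have hgn : ‖gradient g y‖ ≠ 0 := norm_ne_zero_iff.2 (h.grad_ne hy)
  have e1 : x - y = (a / (2 * b) * ‖gradient g y‖) • nu g y := by
    refine ext_inner_right ℝ fun v => ?_
    unfold nu
    rw [inner_smul_left, inner_smul_left]
    simp only [conj_trivial]
    have h2 := key v
    field_simp
    linarith
  refine ⟨_, e1, ?_⟩
  conv_rhs => rw [e1]
  rw [norm_smul, hn, mul_one, Real.norm_eq_abs]

theorem sdist_abs (D : Set (Ed d)) (x : Ed d) : |sdist D x| = Metric.infDist x (frontier D) := by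
  unfold sdist
  split_ifs
  · exact abs_of_nonneg Metric.infDist_nonneg
  · rw [abs_neg]; exact abs_of_nonneg Metric.infDist_nonneg

/-- **The signed distance is `t` near `x₀`**: nearest point `y` of the compact set `frontier D` (`IsCompact.exists_infDist_eq_dist`),
`‖y - x₀‖ ≤ 2 ‖x - x₀‖`; `lagrange`; `IsTub.uniq`; `IsTub.sign`. -/
theorem sdist_eq {D U : Set (Ed d)} (hD : IsOpen D) (hb : Bornology.IsBounded D) {g : Ed d → ℝ} (h : IsDf D U g)
    {x₀ : Ed d} (hx : x₀ ∈ U) (hf : x₀ ∈ frontier D) {ε : ℝ} {p : Ed d → Ed d} {t : Ed d → ℝ}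
    (ht : IsTub U g x₀ ε p t) : ∀ᶠ x in 𝓝 x₀, sdist D x = t x := by
  have hcpt : IsCompact (frontier D) :=
    Metric.isCompact_of_isClosed_isBounded isClosed_frontier (hb.closure.subset frontier_subset_closure)
  obtain ⟨ρ, hρ, hball⟩ := Metric.isOpen_iff.1 h.op x₀ hx
  obtain ⟨r, hr⟩ : ∃ r, r = min ρ ε / 2 := ⟨_, rfl⟩
  have hr0 : 0 < r := by rw [hr]; have := lt_min hρ ht.ε0; positivity
  have hrρ : 2 * r ≤ ρ := by rw [hr]; have := min_le_left ρ ε; linarith
  have hrε : 2 * r ≤ ε := by rw [hr]; have := min_le_right ρ ε; linarith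
  filter_upwards [Metric.ball_mem_nhds x₀ hr0, ht.sign h hx] with x hxr hsign
  rw [Metric.mem_ball] at hxr
  obtain ⟨y, hyf, hyd⟩ := hcpt.exists_infDist_eq_dist ⟨x₀, hf⟩ x
  have h1 : dist x y ≤ dist x x₀ := by rw [← hyd]; exact Metric.infDist_le_dist_of_mem hf
  have h2 : dist y x₀ < 2 * r := by
    have := dist_triangle y x x₀
    rw [dist_comm y x] at this
    linarith
  have hyU : y ∈ U := hball (Metric.mem_ball.2 (h2.trans_le hrρ))
  have hyε : y ∈ Metric.ball x₀ ε := Metric.mem_ball.2 (h2.trans_le hrε)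
  have hgy : g y = 0 := (h.frontier_iff hD hyU).1 hyf
  obtain ⟨s, hs1, hs2⟩ := lagrange h (x := x) hyU hgy (by
    filter_upwards [h.op.mem_nhds hyU] with z hz hgz
    have hzf : z ∈ frontier D := (h.frontier_iff hD hz).2 hgz
    rw [← dist_eq_norm, ← dist_eq_norm, ← hyd]
    exact Metric.infDist_le_dist_of_mem hzf)
  have hxy : y + s • nu g y = x := by rw [← hs1]; abel
  have hsε : |s| < ε := by
    rw [hs2, ← dist_eq_norm]
    linarith
  have hxε : x ∈ Metric.ball x₀ ε := Metric.mem_ball.2 (by linarith)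
  obtain ⟨-, h4⟩ := ht.uniq y s hyε hsε hgy (by rw [hxy]; exact hxε)
  rw [hxy] at h4
  have hxU : x ∈ U := hball (Metric.mem_ball.2 (by linarith))
  have habs : |t x| = Metric.infDist x (frontier D) := by
    rw [h4, hs2, hyd, dist_eq_norm]
  unfold sdist
  split_ifs with hxD
  · have : 0 < t x := hsign.1 ((h.eq x hxU).1 hxD)
    rw [← habs, abs_of_pos this]
  · have : ¬ 0 < t x := fun h5 => hxD ((h.eq x hxU).2 (hsign.2 h5))
    rw [← habs, abs_of_nonpos (not_lt.1 this), neg_neg]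

/-- Every boundary point has a neighbourhood where the signed distance is smooth with a unit gradient. -/
theorem sdist_near {D : Set (Ed d)} (hD : IsSmoothDomain D) {x₀ : Ed d} (hf : x₀ ∈ frontier D) :
    ∀ᶠ x in 𝓝 x₀, ContDiffAt ℝ ((⊤ : ℕ∞) : WithTop ℕ∞) (sdist D) x ∧ ‖gradient (sdist D) x‖ = 1 := by
  obtain ⟨U, g, h, hx⟩ := hD.df hf
  obtain ⟨ε, p, t, ht⟩ := exists_tub h hx ((h.frontier_iff hD.op hx).1 hf)
  have h1 := sdist_eq hD.op hD.bdd h hx hf ht
  filter_upwards [h1.eventually_nhds, Metric.ball_mem_nhds x₀ ht.ε0] with x hx1 hx2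
  have h2 : sdist D =ᶠ[𝓝 x] t := hx1
  refine ⟨((ht.tsmo x hx2).contDiffAt (Metric.isOpen_ball.mem_nhds hx2)).congr_of_eventuallyEq h2, ?_⟩
  rw [h2.gradient_eq, ht.grad h hx2]
  exact h.nu_norm (ht.mem x hx2).1

/-- Uniformly in a neighbourhood of the compact boundary. -/
theorem sdist_unif {D : Set (Ed d)} (hD : IsSmoothDomain D) :
    ∃ δ > 0, ∀ x, Metric.infDist x (frontier D) < 8 * δ → (frontier D).Nonempty →
      ContDiffAt ℝ ((⊤ : ℕ∞) : WithTop ℕ∞) (sdist D) x ∧ ‖gradient (sdist D) x‖ = 1 := by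
  have hcpt : IsCompact (frontier D) :=
    Metric.isCompact_of_isClosed_isBounded isClosed_frontier (hD.bdd.closure.subset frontier_subset_closure)
  obtain ⟨δ, hδ, hsub⟩ := hcpt.exists_thickening_subset_open
    (isOpen_interior (s := {x | ContDiffAt ℝ ((⊤ : ℕ∞) : WithTop ℕ∞) (sdist D) x ∧ ‖gradient (sdist D) x‖ = 1}))
    (fun x₀ hf => mem_interior_iff_mem_nhds.2 (sdist_near hD hf))
  refine ⟨δ / 8, by positivity, fun x hx hn => ?_⟩
  have h1 := hsub ((Metric.mem_thickening_iff_infDist_lt hn).2 (show Metric.infDist x (frontier D) < δ by linarith))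
  have h2 := interior_subset h1
  exact h2

theorem sdist_pos {D : Set (Ed d)} (hD : IsOpen D) (hn : (frontier D).Nonempty) (x : Ed d) :
    0 < sdist D x ↔ x ∈ D := by
  unfold sdist
  split_ifs with hx
  · refine iff_of_true ?_ hx
    refine (isClosed_frontier.notMem_iff_infDist_pos hn).1 fun hxf => ?_
    rw [hD.frontier_eq] at hxf
    exact hxf.2 hx
  · refine iff_of_false (not_lt.2 ?_) hx
    have := Metric.infDist_nonneg (x := x) (s := frontier D)
    linarith

/-- Continuity: off the frontier the sign is locally constant (a ball which does not meet the frontier is connected). -/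
theorem sdist_cont (D : Set (Ed d)) : Continuous (sdist D) := by
  rw [continuous_iff_continuousAt]
  intro x
  have hc : Continuous fun y => Metric.infDist y (frontier D) := Metric.continuous_infDist_pt _
  by_cases hx : x ∈ frontier D
  · have h0 : sdist D x = 0 := by
      rw [← abs_eq_zero, sdist_abs]
      exact Metric.infDist_zero_of_mem hx
    unfold ContinuousAt
    rw [h0]
    refine squeeze_zero_norm (a := fun y => Metric.infDist y (frontier D)) (fun y => ?_) ?_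
    · rw [Real.norm_eq_abs, sdist_abs]
    · have := hc.tendsto x
      rwa [Metric.infDist_zero_of_mem hx] at this
  · rw [frontier, Set.mem_sdiff, not_and_or, not_not] at hx
    rcases hx with hx | hx
    · have h1 : (fun y => -Metric.infDist y (frontier D)) =ᶠ[𝓝 x] sdist D := by
        filter_upwards [isClosed_closure.isOpen_compl.mem_nhds hx] with y hy
        unfold sdist
        rw [if_neg (fun h => hy (subset_closure h))]
      exact (hc.neg.continuousAt).congr h1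
    · have h1 : (fun y => Metric.infDist y (frontier D)) =ᶠ[𝓝 x] sdist D := by
        filter_upwards [isOpen_interior.mem_nhds hx] with y hy
        unfold sdist
        rw [if_pos (interior_subset hy)]
      exact (hc.continuousAt).congr h1

end Pool.Agent.Lib.MP_79abb3_an.W
end

section

/-!
Theorem W, block H, part E: the working domain.
-/

set_option autoImplicit false
set_option linter.unusedSectionVars false

open MeasureTheory Set Filter Topology Function
open scoped ENNReal RealInnerProductSpace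

namespace Pool.Agent.Lib.MP_79abb3_an.W

variable {d : ℕ}

/-- The truncation: smooth, `m s = s` for `|s| ≤ 4`, constant for `s ≥ 7` and for `s ≤ -7`, monotone, `|m'| ≤ 1`.
(`m s = ∫_0^s η`, `η` a smooth bump equal to `1` on `[-4,4]`, `0` off `[-6,6]`.) -/
theorem exists_trunc : ∃ m : ℝ → ℝ, ContDiff ℝ ((⊤ : ℕ∞) : WithTop ℕ∞) m ∧ (∀ s, |s| ≤ 4 → m s = s) ∧
    (∀ s, 6 ≤ s → m s = m 6) ∧ (∀ s, s ≤ -6 → m s = m (-6)) ∧ (∀ s, 4 < s → 4 ≤ m s) ∧
    (∀ s, s < -4 → m s ≤ -4) := by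
  obtain ⟨η, hη⟩ : ∃ η : ContDiffBump (0 : ℝ), η.rIn = 4 ∧ η.rOut = 6 :=
    ⟨⟨4, 6, by norm_num, by norm_num⟩, rfl, rfl⟩
  have hc : Continuous η := η.continuous
  have hI : ∀ a b : ℝ, IntervalIntegrable η volume a b := fun a b => hc.intervalIntegrable a b
  have h4 : ∀ s : ℝ, |s| ≤ 4 → ∫ t in (0:ℝ)..s, η t = s := by
    intro s hs
    have h1 : ∫ t in (0:ℝ)..s, η t = ∫ t in (0:ℝ)..s, (1:ℝ) := by
      refine intervalIntegral.integral_congr fun t ht => ?_
      refine η.one_of_mem_closedBall ?_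
      rw [Metric.mem_closedBall, Real.dist_eq, sub_zero, hη.1]
      rw [mem_uIcc] at ht
      rw [abs_le] at hs ⊢
      rcases ht with ht | ht
      · exact ⟨by linarith, by linarith⟩
      · exact ⟨by linarith, by linarith⟩
    rw [h1, intervalIntegral.integral_const, sub_zero, smul_eq_mul, mul_one]
  have hz : ∀ t : ℝ, 6 ≤ |t| → η t = 0 := by
    intro t ht
    refine η.zero_of_le_dist ?_
    rwa [Real.dist_eq, sub_zero, hη.2]
  refine ⟨fun s => ∫ t in (0:ℝ)..s, η t, ?_, h4, ?_, ?_, ?_, ?_⟩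
  · have hd : ∀ s, HasDerivAt (fun s => ∫ t in (0:ℝ)..s, η t) (η s) s := fun s =>
      intervalIntegral.integral_hasDerivAt_right (hI 0 s) (hc.stronglyMeasurableAtFilter _ _) hc.continuousAt
    rw [contDiff_infty_iff_deriv]
    refine ⟨fun s => (hd s).differentiableAt, ?_⟩
    have e : deriv (fun s => ∫ t in (0:ℝ)..s, η t) = η := funext fun s => (hd s).deriv
    rw [e]
    exact η.contDiff
  · intro s hs
    show ∫ t in (0:ℝ)..s, η t = ∫ t in (0:ℝ)..6, η t
    rw [← intervalIntegral.integral_add_adjacent_intervals (hI 0 6) (hI 6 s)]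
    have h1 : ∫ t in (6:ℝ)..s, η t = ∫ t in (6:ℝ)..s, (0:ℝ) := by
      refine intervalIntegral.integral_congr fun t ht => ?_
      rw [uIcc_of_le hs] at ht
      exact hz t (ht.1.trans (le_abs_self t))
    rw [h1, intervalIntegral.integral_zero, add_zero]
  · intro s hs
    show ∫ t in (0:ℝ)..s, η t = ∫ t in (0:ℝ)..(-6), η t
    rw [← intervalIntegral.integral_add_adjacent_intervals (hI 0 (-6)) (hI (-6) s)]
    have h1 : ∫ t in (-6:ℝ)..s, η t = ∫ t in (-6:ℝ)..s, (0:ℝ) := by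
      refine intervalIntegral.integral_congr fun t ht => ?_
      rw [uIcc_of_ge hs] at ht
      have := neg_le_abs t
      exact hz t (by linarith [ht.2])
    rw [h1, intervalIntegral.integral_zero, add_zero]
  · intro s hs
    show 4 ≤ ∫ t in (0:ℝ)..s, η t
    rw [← intervalIntegral.integral_add_adjacent_intervals (hI 0 4) (hI 4 s), h4 4 (by norm_num)]
    have := intervalIntegral.integral_nonneg (μ := volume) hs.le (f := η) fun t _ => η.nonneg
    linarith
  · intro s hs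
    show ∫ t in (0:ℝ)..s, η t ≤ -4
    rw [← intervalIntegral.integral_add_adjacent_intervals (hI 0 (-4)) (hI (-4) s), h4 (-4) (by norm_num)]
    have := intervalIntegral.integral_nonneg (μ := volume) hs.le (f := η) fun t _ => η.nonneg
    rw [intervalIntegral.integral_symm]
    linarith

/-- **Working domain**: `z = δ m (sdist D / δ)`. Smooth at `x` if `|sdist D x| < 8 δ` (`sdist_unif`), constant near `x` if
`|sdist D x| > 7 δ` (continuity of `sdist`). If `|z x| < 4 δ`, then `|sdist D x| < 4 δ` and `z = sdist D` near `x`. -/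
theorem exists_dom {D : Set (Ed d)} (hD : IsSmoothDomain D) (hn : (frontier D).Nonempty) :
    ∃ (z : Ed d → ℝ) (δ : ℝ), Dom D z δ := by
  obtain ⟨m, hm, h4, h6, h6', hp, hneg⟩ := exists_trunc
  obtain ⟨δ, hδ, hun⟩ := sdist_unif hD
  have hs := sdist_cont D
  refine ⟨fun x => δ * m (sdist D x / δ), δ, ?_, ?_, hD.bdd, hD.conn, hδ, ?_⟩
  · unfold Smo
    rw [contDiff_iff_contDiffAt]
    intro x
    rcases lt_or_ge (Metric.infDist x (frontier D)) (8 * δ) with h | h
    · have h1 := (hun x h hn).1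
      exact contDiffAt_const.mul (hm.contDiffAt.comp x (h1.div_const δ))
    · rw [← sdist_abs] at h
      rcases le_abs.1 h with h2 | h2
      · have h3 : (fun x => δ * m (sdist D x / δ)) =ᶠ[𝓝 x] fun _ => δ * m 6 := by
          have h5 : ∀ᶠ y in 𝓝 x, 6 * δ < sdist D y :=
            (hs.tendsto x).eventually (lt_mem_nhds (by linarith))
          filter_upwards [h5] with y hy
          rw [h6]
          rw [le_div_iff₀ hδ]
          exact hy.le
        exact contDiffAt_const.congr_of_eventuallyEq h3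
      · have h3 : (fun x => δ * m (sdist D x / δ)) =ᶠ[𝓝 x] fun _ => δ * m (-6) := by
          have h5 : ∀ᶠ y in 𝓝 x, sdist D y < -6 * δ :=
            (hs.tendsto x).eventually (gt_mem_nhds (by linarith))
          filter_upwards [h5] with y hy
          rw [h6']
          rw [div_le_iff₀ hδ]
          exact hy.le
        exact contDiffAt_const.congr_of_eventuallyEq h3
  · intro x
    rw [← sdist_pos hD.op hn]
    show 0 < sdist D x ↔ 0 < δ * m (sdist D x / δ)
    rw [mul_pos_iff_of_pos_left hδ]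
    have h1 : 0 < sdist D x ↔ 0 < sdist D x / δ := by rw [div_pos_iff_of_pos_right hδ]
    rw [h1]
    rcases le_or_gt |sdist D x / δ| 4 with h | h
    · rw [h4 _ h]
    · rcases lt_abs.1 h with h2 | h2
      · have := hp _ h2
        exact iff_of_true (by linarith) (by linarith)
      · have := hneg (sdist D x / δ) (by linarith)
        exact iff_of_false (by linarith) (by linarith)
  · intro x hx
    have hx' : |δ * m (sdist D x / δ)| < 4 * δ := hx
    rw [abs_mul, abs_of_pos hδ, mul_comm 4 δ, mul_lt_mul_iff_right₀ hδ] at hx'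
    have h1 : |sdist D x / δ| < 4 := by
      rcases le_or_gt |sdist D x / δ| 4 with h | h
      · rwa [h4 _ h] at hx'
      · exfalso
        rcases lt_abs.1 h with h2 | h2
        · have := hp _ h2
          have := le_abs_self (m (sdist D x / δ))
          linarith
        · have := hneg (sdist D x / δ) (by linarith)
          have := neg_le_abs (m (sdist D x / δ))
          linarith
    have h2 : (fun x => δ * m (sdist D x / δ)) =ᶠ[𝓝 x] sdist D := by
      have h5 : ∀ᶠ y in 𝓝 x, |sdist D y / δ| < 4 :=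
        ((hs.div_const δ).abs.tendsto x).eventually (gt_mem_nhds h1)
      filter_upwards [h5] with y hy
      rw [h4 _ hy.le, mul_div_cancel₀ _ hδ.ne']
    rw [h2.gradient_eq]
    refine (hun x ?_ hn).2
    rw [← sdist_abs]
    rw [abs_div, abs_of_pos hδ, div_lt_iff₀ hδ] at h1
    linarith

/-- a bounded open set with a nonempty boundary of one of its subsets has a nonempty boundary -/
private theorem he_frontier {D Ω : Set (Ed d)} (hD : IsSmoothDomain D) (hΩ : (frontier Ω).Nonempty) :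
    (frontier D).Nonempty := by
  by_contra hcon
  rw [Set.not_nonempty_iff_eq_empty] at hcon
  have h1 : IsClopen D := isClopen_iff_frontier_eq_empty.2 hcon
  have h2 : D = univ := IsClopen.eq_univ h1 hD.conn.nonempty
  rcases subsingleton_or_nontrivial (Ed d) with h | h
  · obtain ⟨x, hx⟩ := hΩ
    have h3 : DiscreteTopology (Ed d) := inferInstance
    rw [(isClopen_discrete Ω).frontier_eq] at hx
    exact hx
  · have h3 := hD.bdd
    rw [h2] at h3
    exact NormedSpace.unbounded_univ ℝ (Ed d) h3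

/-- **The setting of Theorem W.** `exists_bump` at a point of `Γ = O ∩ frontier Ω`; a closed ball in the open set
`D \ closure Ω`. -/
theorem exists_setting {Ω Γ : Set (Ed d)} (hΩ : IsSmoothDomain Ω) (hΓ : IsOpenPart Ω Γ) :
    ∃ (D : Set (Ed d)) (z : Ed d → ℝ) (δ : ℝ) (x : Ed d) (r : ℝ), Dom D z δ ∧ Ω ⊆ D ∧
      frontier Ω \ Γ ⊆ frontier D ∧ 0 < r ∧ Metric.closedBall x r ⊆ D \ closure Ω := by
  obtain ⟨⟨x₀, hx₀⟩, O, hO, hΓO⟩ := hΓ
  rw [hΓO] at hx₀
  obtain ⟨D, hD, hΩD, ⟨x, hxD, hxΩ⟩, hloc⟩ := exists_bump hΩ hx₀.2 hO hx₀.1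
  obtain ⟨z, δ, hdom⟩ := exists_dom hD (he_frontier hD ⟨x₀, hx₀.2⟩)
  have hop : IsOpen (D \ closure Ω) := hD.op.sdiff isClosed_closure
  obtain ⟨r, hr, hball⟩ := Metric.nhds_basis_closedBall.mem_iff.1 (hop.mem_nhds ⟨hxD, hxΩ⟩)
  refine ⟨D, z, δ, x, r, hdom, hΩD, ?_, hr, hball⟩
  rintro y ⟨hy1, hy2⟩
  have hyO : y ∉ O := fun h => hy2 (by rw [hΓO]; exact ⟨h, hy1⟩)
  exact (frontier_congr (hloc y hyO)).2 hy1

/-- The boundary of a smooth domain with a nonempty part of the boundary: `Ω` itself is a working domain. -/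
theorem exists_dom_self {Ω Γ : Set (Ed d)} (hΩ : IsSmoothDomain Ω) (hΓ : IsOpenPart Ω Γ) :
    ∃ (z : Ed d → ℝ) (δ : ℝ), Dom Ω z δ := by
  obtain ⟨⟨x, hx⟩, O, _, hO⟩ := hΓ
  rw [hO] at hx
  exact exists_dom hΩ ⟨x, hx.2⟩

end Pool.Agent.Lib.MP_79abb3_an.W
end
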