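import Pool.Agent.Lib.MP_79abb3_an.W.SpDef

/-!
Theorem W, block A1: calculus and integration by parts.
-/

set_option autoImplicit false
set_option linter.unusedSectionVars false

open MeasureTheory Set Filter Topology Function
open scoped ENNReal RealInnerProductSpace

namespace Pool.Agent.Lib.MP_79abb3_an.W

section
variable {d : ℕ} {F : Type} [NormedAddCommGroup F] [InnerProductSpace ℝ F] {D : Set (En d)}

/-- the Laplacian -/
noncomputable def lap (f : En d → F) (x : En d) : F := ∑ i, pd i (pd i f) x

/-- the gradient of a scalar function as a field -/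
noncomputable def gd (q : En d → ℝ) (x : En d) : En d := WithLp.toLp 2 fun i => pd i q x

theorem gd_apply (q : En d → ℝ) (x : En d) (i : Fin d) : gd q x i = pd i q x := by
  rfl

/-- Every derivative is a combination of the `pd i`. -/
theorem fderiv_eq_sum (f : En d → F) (x y : En d) : fderiv ℝ f x y = ∑ i, y i • pd i f x := by
  have h : y = ∑ i, y i • ei i := by
    ext j
    simp [ei, Pi.single_apply]
  conv_lhs => rw [h]
  rw [map_sum]
  exact Finset.sum_congr rfl fun i _ => by rw [map_smul]; rfl

theorem inner_gd (q : En d → ℝ) (x y : En d) : ⟪gd q x, y⟫ = fderiv ℝ q x y := by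
  rw [PiLp.inner_apply, fderiv_eq_sum q x y]
  refine Finset.sum_congr rfl fun i _ => ?_
  rw [gd_apply]
  simp [smul_eq_mul]

theorem Smo.lap {f : En d → F} (h : Smo f) : Smo (lap f) := by
  exact ContDiff.sum fun i _ => (h.pd i).pd i

theorem Smo.gd {q : En d → ℝ} (h : Smo q) : Smo (gd q) := by
  exact contDiff_euclidean.2 fun i => h.pd i

theorem Smo.inner {f g : En d → F} (hf : Smo f) (hg : Smo g) : Smo fun x => ⟪f x, g x⟫ := by
  exact ContDiff.inner ℝ hf hg

theorem pd_inner {f g : En d → F} (hf : Smo f) (hg : Smo g) (i : Fin d) (x : En d) :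
    pd i (fun x => ⟪f x, g x⟫) x = ⟪pd i f x, g x⟫ + ⟪f x, pd i g x⟫ := by
  show fderiv ℝ (fun x => ⟪f x, g x⟫) x (ei i) = _
  rw [fderiv_inner_apply ℝ (hf.differentiable x) (hg.differentiable x), add_comm]
  rfl

theorem pd_fsmul {a : En d → ℝ} {f : En d → F} (ha : Smo a) (hf : Smo f) (i : Fin d) (x : En d) :
    pd i (fun x => a x • f x) x = pd i a x • f x + a x • pd i f x := by
  show fderiv ℝ (fun x => a x • f x) x (ei i) = _
  rw [fderiv_fun_smul (ha.differentiable x) (hf.differentiable x), add_comm]
  rfl

/-- second derivatives commute -/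
theorem pd_comm {f : En d → F} (hf : Smo f) (i j : Fin d) (x : En d) : pd i (pd j f) x = pd j (pd i f) x := by
  have h1 : ∀ k l : Fin d, pd k (pd l f) x = fderiv ℝ (fderiv ℝ f) x (ei k) (ei l) := by
    intro k l
    have h3 : ContDiff ℝ ((⊤ : ℕ∞) : WithTop ℕ∞) (fderiv ℝ f) :=
      ContDiff.fderiv_right hf (by exact_mod_cast le_top)
    have h2 : DifferentiableAt ℝ (fderiv ℝ f) x := h3.differentiable (by norm_num) x
    show fderiv ℝ (fun y => fderiv ℝ f y (ei l)) x (ei k) = _
    rw [fderiv_clm_apply h2 (differentiableAt_const _)]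
    simp
  rw [h1, h1]
  have h4 : minSmoothness ℝ 2 ≤ ((⊤ : ℕ∞) : WithTop ℕ∞) := by
    rw [minSmoothness_of_isRCLikeNormedField]
    exact WithTop.coe_le_coe.2 (le_top : (2 : ℕ∞) ≤ ⊤)
  exact ((ContDiff.contDiffAt hf).isSymmSndFDerivAt h4).eq _ _

/-- the components of the derivative of a field -/
theorem pd_apply {f : En d → En d} (hf : Smo f) (i k : Fin d) (x : En d) :
    pd i (fun x => f x k) x = pd i f x k := by
  have h1 : HasFDerivAt (fun x => f x k) ((EuclideanSpace.proj k : En d →L[ℝ] ℝ).comp (fderiv ℝ f x)) x :=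
    (EuclideanSpace.proj k : En d →L[ℝ] ℝ).hasFDerivAt.comp x (hf.differentiable x).hasFDerivAt
  show fderiv ℝ (fun x => f x k) x (ei i) = _
  rw [h1.fderiv]
  rfl

theorem IsTe.zero_fun : IsTe D (fun _ : En d => (0 : F)) where
  smooth := contDiff_const
  cpt := HasCompactSupport.zero
  supp := by
    have h : tsupport (fun _ : En d => (0 : F)) = ∅ := tsupport_eq_empty_iff.2 rfl
    rw [h]; exact empty_subset _

theorem IsTe.sum_fun {ι : Type} (s : Finset ι) {f : ι → En d → F} (h : ∀ i ∈ s, IsTe D (f i)) :
    IsTe D (fun x => ∑ i ∈ s, f i x) := by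
  classical
  induction s using Finset.induction_on with
  | empty => simpa using IsTe.zero_fun
  | insert a s ha ih =>
    have h1 : (fun x => ∑ i ∈ insert a s, f i x) = fun x => f a x + ∑ i ∈ s, f i x := by
      ext x; rw [Finset.sum_insert ha]
    rw [h1]
    exact (h a (Finset.mem_insert_self a s)).add (ih fun i hi => h i (Finset.mem_insert_of_mem hi))

theorem IsTe.lap {f : En d → F} (h : IsTe D f) : IsTe D (lap f) := by
  exact IsTe.sum_fun _ fun i _ => (h.pd i).pd i

theorem IsTe.gd {q : En d → ℝ} (h : IsTe D q) : IsTe D (gd q) := by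
  have hs : support (W.gd q) ⊆ tsupport q := by
    intro x hx
    by_contra h1
    have h2 : fderiv ℝ q x = 0 := by
      by_contra h3
      exact h1 (support_fderiv_subset ℝ h3)
    apply hx
    ext i
    show fderiv ℝ q x (ei i) = 0
    rw [h2]; rfl
  exact ⟨h.smooth.gd, HasCompactSupport.of_support_subset_isCompact h.cpt hs,
    (closure_minimal hs (isClosed_tsupport q)).trans h.supp⟩

theorem IsTe.integrable {f : En d → F} (h : IsTe D f) : Integrable f := by
  exact h.smooth.continuous.integrable_of_hasCompactSupport h.cpt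

theorem hcs_pd {f : En d → F} (h : HasCompactSupport f) (i : Fin d) : HasCompactSupport (pd i f) := by
  exact h.fderiv_apply ℝ (ei i)

/-- integration by parts (`integral_bilinear_hasLineDerivAt_right_eq_neg_left_of_integrable` with
`B = innerSL ℝ`; all products are continuous with compact support) -/
theorem ibp {f g : En d → F} (hf : Smo f) (hg : Smo g) (hc : HasCompactSupport f ∨ HasCompactSupport g)
    (i : Fin d) : ∫ x, ⟪pd i f x, g x⟫ = -∫ x, ⟪f x, pd i g x⟫ := by
  have hint : ∀ {u v : En d → F}, Continuous u → Continuous v →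
      (HasCompactSupport u ∨ HasCompactSupport v) → Integrable fun x => innerSL ℝ (u x) (v x) := by
    intro u v hu hv huv
    have hcont : Continuous fun x => innerSL ℝ (u x) (v x) := hu.inner hv
    refine hcont.integrable_of_hasCompactSupport ?_
    rcases huv with huv | huv
    · exact huv.mono' (fun x hx => subset_tsupport _ (by
        intro h0
        apply hx
        show ⟪u x, v x⟫ = 0
        rw [h0, inner_zero_left]))
    · exact huv.mono' (fun x hx => subset_tsupport _ (by
        intro h0
        apply hx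
        show ⟪u x, v x⟫ = 0
        rw [h0, inner_zero_right]))
  have h := integral_bilinear_hasLineDerivAt_right_eq_neg_left_of_integrable (μ := (volume : Measure (En d)))
    (f := f) (f' := pd i f) (g := g) (g' := pd i g) (v := ei i) (B := innerSL ℝ)
    (hint (hf.pd i).continuous hg.continuous (hc.imp (fun h => hcs_pd h i) id))
    (hint hf.continuous (hg.pd i).continuous (hc.imp id (fun h => hcs_pd h i)))
    (hint hf.continuous hg.continuous hc)
    (fun x _ => (hf.differentiable x).hasFDerivAt.hasLineDerivAt _)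
    (fun x _ => (hg.differentiable x).hasFDerivAt.hasLineDerivAt _)
  have h' : ∫ x, ⟪f x, pd i g x⟫ = -∫ x, ⟪pd i f x, g x⟫ := h
  rw [h', neg_neg]

/-- the scalar case, with the derivative on a function without compact support allowed -/
theorem ibp_mul {a f : En d → ℝ} (ha : Smo a) (hf : Smo f) (hc : HasCompactSupport a ∨ HasCompactSupport f)
    (i : Fin d) : ∫ x, pd i a x * f x = -∫ x, a x * pd i f x := by
  have h := ibp ha hf hc i
  simpa [mul_comm] using h

theorem integral_pd {f : En d → ℝ} (hf : Smo f) (hc : HasCompactSupport f) (i : Fin d) :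
    ∫ x, pd i f x = 0 := by
  have h1 : Smo (fun _ : En d => (1 : ℝ)) := contDiff_const
  have h := ibp_mul h1 hf (Or.inr hc) i
  have h2 : ∀ x, pd i (fun _ : En d => (1 : ℝ)) x = 0 := by
    intro x
    show fderiv ℝ (fun _ : En d => (1 : ℝ)) x (ei i) = 0
    rw [fderiv_const_apply]; rfl
  simp only [h2, zero_mul, integral_zero, one_mul] at h
  linarith

end

end Pool.Agent.Lib.MP_79abb3_an.W
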