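import Pool.Agent.Lib.MP_79abb3_an.W.HF1
import Pool.Agent.Lib.MP_79abb3_an.W.SpA

section

/-!
Theorem W, block H, part F2: distances, interior balls, exterior directions.
-/

set_option autoImplicit false
set_option linter.unusedSectionVars false

open MeasureTheory Set Filter Topology Function
open scoped ENNReal RealInnerProductSpace

namespace Pool.Agent.Lib.MP_79abb3_an.W

variable {d : ℕ}

variable {D : Set (Ed d)} {z : Ed d → ℝ} {δ : ℝ}

private theorem hf2_foot (h : Dom D z δ) {x : Ed d} (hx : |z x| < 4 * δ) :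
    z (x - z x • gradient z x) = 0 ∧ dist x (x - z x • gradient z x) = |z x| := by
  have hδ := h.δ0
  have h1 := (h.normal hx (r := -z x) (by simpa using hδ)).1
  have h2 := h.unit x hx
  constructor
  · rw [neg_smul, ← sub_eq_add_neg] at h1
    rw [h1]; ring
  · rw [dist_eq_norm, sub_sub_cancel, norm_smul, h2, mul_one, Real.norm_eq_abs]

/-- `ball x (z x) ⊆ D` (`Dom.lip`) and `x - z x • ∇z x ∉ D` (`Dom.normal`). -/
theorem Dom.dist_compl (h : Dom D z δ) {x : Ed d} (hx : 0 < z x) (hx2 : z x < 2 * δ) :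
    Metric.infDist x Dᶜ = z x := by
  have hδ := h.δ0
  have hab : |z x| = z x := abs_of_pos hx
  obtain ⟨h1, h2⟩ := hf2_foot h (x := x) (by rw [hab]; linarith)
  have hm : x - z x • gradient z x ∈ Dᶜ := by
    intro hc
    rw [h.pos, h1] at hc
    exact lt_irrefl _ hc
  apply le_antisymm
  · exact (Metric.infDist_le_dist_of_mem hm).trans (by rw [h2, hab])
  · rw [Metric.le_infDist ⟨_, hm⟩]
    intro y hy
    by_contra hlt
    push Not at hlt
    have hd1 : ‖y - x‖ < z x := by rw [← dist_eq_norm, dist_comm]; exact hlt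
    have h3 := h.lip (x := x) (y := y) (by rw [hab]; linarith)
    have h4 := (abs_le.1 h3).1
    exact hy ((h.pos y).2 (by linarith))

theorem Dom.dist_frontier (h : Dom D z δ) {x : Ed d} (hx : |z x| < 2 * δ) :
    Metric.infDist x (frontier D) = |z x| := by
  have hδ := h.δ0
  obtain ⟨h1, h2⟩ := hf2_foot h (x := x) (by linarith)
  have hm : x - z x • gradient z x ∈ frontier D := (h.frontier_iff _).2 h1
  apply le_antisymm
  · exact (Metric.infDist_le_dist_of_mem hm).trans (by rw [h2])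
  · rw [Metric.le_infDist ⟨_, hm⟩]
    intro y hy
    by_contra hlt
    push Not at hlt
    have hd1 : ‖y - x‖ < |z x| := by rw [← dist_eq_norm, dist_comm]; exact hlt
    have h3 := h.lip (x := x) (y := y) (by linarith)
    rw [(h.frontier_iff y).1 hy, zero_sub, abs_neg] at h3
    linarith

/-- Segments from a point with `z ≥ 2δ` to the complement pass through `{z = r}` for every `r < 2δ`. -/
theorem Dom.dist_big (h : Dom D z δ) (hd : 0 < d) {x : Ed d} (hx : 2 * δ ≤ z x) : 2 * δ ≤ Metric.infDist x Dᶜ := by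
  have hδ := h.δ0
  obtain ⟨y0, hy0⟩ := h.frontier_ne hd
  have hne : (Dᶜ : Set (Ed d)).Nonempty := by
    refine ⟨y0, fun hc => ?_⟩
    rw [h.pos, (h.frontier_iff y0).1 hy0] at hc
    exact lt_irrefl _ hc
  rw [Metric.le_infDist hne]
  intro y hy
  have hy' : z y ≤ 0 := by
    by_contra hc
    push Not at hc
    exact hy ((h.pos y).2 hc)
  by_contra hlt
  push Not at hlt
  obtain ⟨r, hr1, hr2⟩ := exists_between (max_lt hlt (by linarith : (0:ℝ) < 2 * δ))
  have hr0 : 0 < r := (le_max_right _ _).trans_lt hr1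
  have hr3 : dist x y < r := (le_max_left _ _).trans_lt hr1
  -- intermediate value on the segment
  let f : ℝ → ℝ := fun s => z (x + s • (y - x))
  have hf : Continuous f := by
    have := h.cont
    fun_prop
  have h01 : Icc (f 1) (f 0) ⊆ f '' Icc 0 1 := intermediate_value_Icc' zero_le_one hf.continuousOn
  have hf0 : f 0 = z x := by simp [f]
  have hf1 : f 1 = z y := by simp [f]
  have hr01 : r ∈ Icc (f 1) (f 0) := ⟨by rw [hf1]; linarith, by rw [hf0]; linarith⟩
  obtain ⟨s, hs, hsr⟩ := h01 hr01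
  set w := x + s • (y - x) with hw
  have hzw : z w = r := hsr
  have hdw : Metric.infDist w Dᶜ = r := by
    rw [h.dist_compl (by rw [hzw]; exact hr0) (by rw [hzw]; exact hr2), hzw]
  have h5 : r ≤ dist w y := by
    rw [← hdw]
    exact Metric.infDist_le_dist_of_mem hy
  have h6 : dist w y ≤ dist x y := by
    have : w - y = (1 - s) • (x - y) := by
      rw [hw, smul_sub, smul_sub, sub_smul, sub_smul, one_smul, one_smul]; abel
    rw [dist_eq_norm, dist_eq_norm, this, norm_smul, Real.norm_eq_abs, abs_of_nonneg (by linarith [hs.2])]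
    have := norm_nonneg (x - y)
    nlinarith [hs.1, hs.2]
  linarith

/-- A point with small distance from the complement has small `z`. -/
theorem Dom.z_eq_of_dist (h : Dom D z δ) (hd : 0 < d) {x : Ed d} (hx : x ∈ D) (h2 : Metric.infDist x Dᶜ < 2 * δ) :
    z x = Metric.infDist x Dᶜ := by
  have h0 := (h.pos x).1 hx
  rcases lt_or_ge (z x) (2 * δ) with h3 | h3
  · exact (h.dist_compl h0 h3).symm
  · exact absurd (h.dist_big hd h3) (not_le.2 h2)

/-- **Interior balls.** -/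
theorem Dom.int_ball (h : Dom D z δ) {x : Ed d} (hx : 0 < z x) {t : ℝ} (ht : z x ≤ t) (ht2 : t < 2 * δ) :
    Metric.ball (x + (t - z x) • gradient z x) t ⊆ D := by
  have hδ := h.δ0
  have h1 := (h.normal (x := x) (r := t - z x) (by rw [abs_of_pos hx]; linarith)
    (by rw [add_sub_cancel, abs_of_pos (by linarith)]; linarith)).1
  rw [add_sub_cancel] at h1
  have h2 := h.dist_compl (x := x + (t - z x) • gradient z x) (by rw [h1]; linarith) (by rw [h1]; exact ht2)
  intro y hy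
  by_contra hc
  have h3 := Metric.infDist_le_dist_of_mem (x := x + (t - z x) • gradient z x) (s := Dᶜ) hc
  rw [h2, h1, dist_comm] at h3
  exact absurd hy (not_lt.2 h3)

/-- **Interior balls**, in terms of the distance `s` from the complement. -/
theorem Dom.int_ball' (h : Dom D z δ) (hd : 0 < d) {x : Ed d} (hx : x ∈ D) {s : ℝ} (hs : Metric.infDist x Dᶜ = s)
    (hs2 : s < 2 * δ) : ∃ n : Ed d, ‖n‖ = 1 ∧ ∀ t, s ≤ t → t < 2 * δ → Metric.ball (x + (t - s) • n) t ⊆ D := by
  have hδ := h.δ0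
  have h0 := (h.pos x).1 hx
  have h1 := h.z_eq_of_dist hd hx (by rw [hs]; exact hs2)
  rw [hs] at h1
  refine ⟨gradient z x, h.unit x (by rw [abs_of_pos h0, h1]; linarith), fun t ht ht2 => ?_⟩
  have := h.int_ball h0 (t := t) (by rw [h1]; exact ht) ht2
  rwa [h1] at this

/-- Finitely many unit vectors such that every unit vector is close to one of them (compactness of the sphere). -/
theorem exists_dirs (d : ℕ) : ∃ S : Finset (Ed d), (∀ e ∈ S, ‖e‖ = 1) ∧
    ∀ n : Ed d, ‖n‖ = 1 → ∃ e ∈ S, 3 / 4 ≤ ⟪e, n⟫ := by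
  have hc : IsCompact (Metric.sphere (0 : Ed d) 1) := isCompact_sphere _ _
  obtain ⟨T, hT1, hT2, hT3⟩ := hc.finite_cover_balls (e := 1 / 2) (by norm_num)
  refine ⟨hT2.toFinset, fun e he => ?_, fun n hn => ?_⟩
  · have := hT1 (hT2.mem_toFinset.1 he)
    simpa using this
  · have hn' : n ∈ Metric.sphere (0 : Ed d) 1 := by simpa using hn
    obtain ⟨e, he, hne⟩ := mem_iUnion₂.1 (hT3 hn')
    refine ⟨e, hT2.mem_toFinset.2 he, ?_⟩
    have he1 : ‖e‖ = 1 := by simpa using hT1 he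
    have h1 : ‖e - n‖ < 1 / 2 := by rw [← dist_eq_norm, dist_comm]; exact hne
    have h2 : ‖e - n‖ ^ 2 = 1 - 2 * ⟪e, n⟫ + 1 := by rw [norm_sub_sq_real, he1, hn]; ring
    have h3 : ‖e - n‖ ^ 2 ≤ (1 / 2) ^ 2 := pow_le_pow_left₀ (norm_nonneg _) h1.le 2
    linarith

private theorem hf2_hess (h : Dom D z δ) : ∃ M : ℝ, 0 ≤ M ∧ ∀ x : Ed d, |z x| ≤ 3 * δ →
    ‖fderiv ℝ (gradient z) x‖ ≤ M := by
  have hδ := h.δ0
  have hc := h.cpt_near (r := 3 * δ) (by linarith)
  have hg : ContDiff ℝ ((⊤ : ℕ∞) : WithTop ℕ∞) (gradient z) := by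
    have h1 : ContDiff ℝ ((⊤ : ℕ∞) : WithTop ℕ∞) (fderiv ℝ z) := h.smo.fderiv_right (by norm_cast)
    exact (InnerProductSpace.toDual ℝ (Ed d)).symm.contDiff.comp h1
  have hg2 : Continuous (fderiv ℝ (gradient z)) := hg.continuous_fderiv (by norm_cast)
  obtain ⟨M, hM⟩ := hc.exists_bound_of_continuousOn hg2.continuousOn
  exact ⟨max M 0, le_max_right _ _, fun x hx => (hM x hx).trans (le_max_left _ _)⟩

/-- **Exterior directions.** For `e` with `⟪e, -∇z x⟫ ≥ 3/4` the derivative of `s ↦ z (x + s e)` is `≤ -1/2` for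
`0 ≤ s ≤ 2ρ`, `ρ ≤ ρ₀` (Hessian bounded on the compact set `{|z| ≤ 3δ}`), so `z (x + 2ρ e) ≤ z x - ρ < 0`. -/
theorem Dom.ext_dirs (h : Dom D z δ) : ∃ (S : Finset (Ed d)) (ρ₀ : ℝ), 0 < ρ₀ ∧ ρ₀ < δ ∧ (∀ e ∈ S, ‖e‖ = 1) ∧
    ∀ ρ, 0 < ρ → ρ ≤ ρ₀ → ∀ x, 0 < z x → z x < ρ → ∃ e ∈ S, z (x + (2 * ρ) • e) ≤ 0 := by
  have hδ := h.δ0
  obtain ⟨S, hS1, hS2⟩ := exists_dirs d
  obtain ⟨M, hM0, hM⟩ := hf2_hess h
  refine ⟨S, min (δ / 2) (1 / (8 * (M + 1))), lt_min (by linarith) (by positivity),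
    (min_le_left _ _).trans_lt (by linarith), hS1, fun ρ hρ hρ2 x hx0 hxρ => ?_⟩
  have hρδ : ρ ≤ δ / 2 := hρ2.trans (min_le_left _ _)
  have hρM : ρ * (8 * (M + 1)) ≤ 1 := by
    have := hρ2.trans (min_le_right _ _)
    rwa [le_div_iff₀ (by positivity)] at this
  have hab : |z x| = z x := abs_of_pos hx0
  have hu : ‖gradient z x‖ = 1 := h.unit x (by rw [hab]; linarith)
  obtain ⟨e, he, he2⟩ := hS2 (-gradient z x) (by rw [norm_neg, hu])
  have he1 := hS1 e he
  refine ⟨e, he, ?_⟩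
  rw [inner_neg_right] at he2
  have hdz : Differentiable ℝ z := fun y => h.smo.differentiable y
  have hg : ContDiff ℝ ((⊤ : ℕ∞) : WithTop ℕ∞) (gradient z) := by
    have h1 : ContDiff ℝ ((⊤ : ℕ∞) : WithTop ℕ∞) (fderiv ℝ z) := h.smo.fderiv_right (by norm_cast)
    exact (InnerProductSpace.toDual ℝ (Ed d)).symm.contDiff.comp h1
  have hdg : Differentiable ℝ (gradient z) := hg.differentiable (by simp)
  have hline : ∀ s : ℝ, HasDerivAt (fun s : ℝ => x + s • e) e s := fun s => by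
    simpa using ((hasDerivAt_id s).smul_const e).const_add x
  -- the points stay near the walls
  have hnear : ∀ s ∈ Icc 0 (2 * ρ), |z (x + s • e)| ≤ 3 * δ := by
    intro s hs
    have hn : ‖x + s • e - x‖ = s := by
      rw [add_sub_cancel_left, norm_smul, he1, mul_one, Real.norm_eq_abs, abs_of_nonneg hs.1]
    have h1 := h.lip (x := x) (y := x + s • e) (by rw [hn, hab]; linarith [hs.2])
    rw [hn] at h1
    have h2 : |z (x + s • e)| ≤ |z (x + s • e) - z x| + |z x| := by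
      simpa using abs_add_le (z (x + s • e) - z x) (z x)
    rw [hab] at h2
    linarith [hs.2]
  -- the gradient varies slowly
  have hgr : ∀ s ∈ Icc 0 (2 * ρ), ‖gradient z (x + s • e) - gradient z x‖ ≤ M * s := by
    intro s hs
    have h1 : ∀ u ∈ Icc (0:ℝ) (2 * ρ), HasDerivWithinAt (fun s : ℝ => gradient z (x + s • e))
        (fderiv ℝ (gradient z) (x + u • e) e) (Icc 0 (2 * ρ)) u := by
      intro u _
      exact ((hdg _).hasFDerivAt.comp_hasDerivAt u (hline u)).hasDerivWithinAt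
    have h2 := norm_image_sub_le_of_norm_deriv_le_segment' (C := M) h1 (fun u hu => ?_) s hs
    · simpa using h2
    · have h3 := hM _ (hnear u ⟨hu.1, hu.2.le⟩)
      calc ‖fderiv ℝ (gradient z) (x + u • e) e‖ ≤ ‖fderiv ℝ (gradient z) (x + u • e)‖ * ‖e‖ :=
            ContinuousLinearMap.le_opNorm _ _
        _ ≤ M := by rw [he1, mul_one]; exact h3
  -- the derivative of z along e
  have hder : ∀ s : ℝ, HasDerivAt (fun s : ℝ => z (x + s • e) + s / 2)
      (⟪gradient z (x + s • e), e⟫ + 1 / 2) s := by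
    intro s
    have h1 := (hdz (x + s • e)).hasFDerivAt.comp_hasDerivAt s (hline s)
    have h2 : fderiv ℝ z (x + s • e) e = ⟪gradient z (x + s • e), e⟫ := by
      rw [gradient, InnerProductSpace.toDual_symm_apply]
    rw [h2] at h1
    exact h1.add ((hasDerivAt_id s).div_const 2)
  have hanti : AntitoneOn (fun s : ℝ => z (x + s • e) + s / 2) (Icc 0 (2 * ρ)) := by
    apply antitoneOn_of_deriv_nonpos (convex_Icc _ _)
    · exact fun s _ => (hder s).continuousAt.continuousWithinAt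
    · exact fun s _ => (hder s).differentiableAt.differentiableWithinAt
    · intro s hs
      rw [interior_Icc] at hs
      rw [(hder s).deriv]
      have h1 := hgr s ⟨hs.1.le, hs.2.le⟩
      have h2 : ⟪gradient z (x + s • e) - gradient z x, e⟫ ≤ M * s * 1 := by
        refine (real_inner_le_norm _ _).trans ?_
        rw [he1]
        exact mul_le_mul_of_nonneg_right h1 zero_le_one
      rw [inner_sub_left] at h2
      have h3 : ⟪gradient z x, e⟫ ≤ -(3 / 4) := by
        rw [real_inner_comm]; linarith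
      have h4 : M * s ≤ 1 / 4 := by nlinarith [hs.1, hs.2]
      linarith
  have hfin := hanti (left_mem_Icc.2 (by linarith)) (right_mem_Icc.2 (by linarith)) (by linarith : (0:ℝ) ≤ 2 * ρ)
  simp only [zero_smul, add_zero, zero_div] at hfin
  linarith

end Pool.Agent.Lib.MP_79abb3_an.W
end

section

/-!
Theorem W, block H, part F3: Poincare inequality in the layer, volume of the layer.
-/

set_option autoImplicit false
set_option linter.unusedSectionVars false

open MeasureTheory Set Filter Topology Function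
open scoped ENNReal RealInnerProductSpace

namespace Pool.Agent.Lib.MP_79abb3_an.W

variable {d : ℕ}

variable {D : Set (Ed d)} {z : Ed d → ℝ} {δ : ℝ}

private theorem hf3_sq_cs {F : Type} [NormedAddCommGroup F] {f : Ed d → F} (hc : HasCompactSupport f) :
    HasCompactSupport fun x => ‖f x‖ ^ 2 := by
  refine hc.mono' fun x hx => subset_tsupport _ ?_
  intro h0
  apply hx
  show ‖f x‖ ^ 2 = 0
  rw [h0, norm_zero, zero_pow two_ne_zero]

private theorem hf3_cs {k : ℝ → ℝ} (hk : Continuous k) {L : ℝ} (hL : 0 < L) :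
    (∫ s in (0:ℝ)..L, k s) ^ 2 ≤ L * ∫ s in (0:ℝ)..L, k s ^ 2 := by
  obtain ⟨I, hI⟩ : ∃ I, I = ∫ s in (0:ℝ)..L, k s := ⟨_, rfl⟩
  have i1 : IntervalIntegrable k volume 0 L := hk.intervalIntegrable 0 L
  have i2 : IntervalIntegrable (fun s => k s ^ 2) volume 0 L := (hk.pow 2).intervalIntegrable 0 L
  have i3 : IntervalIntegrable (fun _ : ℝ => (I / L) ^ 2) volume 0 L := continuous_const.intervalIntegrable 0 L
  have h0 : 0 ≤ ∫ s in (0:ℝ)..L, (k s - I / L) ^ 2 :=
    intervalIntegral.integral_nonneg hL.le fun _ _ => sq_nonneg _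
  have h1 : ∫ s in (0:ℝ)..L, (k s - I / L) ^ 2 =
      (∫ s in (0:ℝ)..L, k s ^ 2) - 2 * (I / L) * I + L * (I / L) ^ 2 := by
    have e1 : ∀ s, (k s - I / L) ^ 2 = k s ^ 2 - 2 * (I / L) * k s + (I / L) ^ 2 := fun s => by ring
    simp_rw [e1]
    rw [intervalIntegral.integral_add (i2.sub (i1.const_mul _)) i3,
      intervalIntegral.integral_sub i2 (i1.const_mul _), intervalIntegral.integral_const_mul,
      intervalIntegral.integral_const, ← hI, sub_zero, smul_eq_mul]
  rw [h1] at h0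
  rw [← hI]
  have h2 : (∫ s in (0:ℝ)..L, k s ^ 2) - 2 * (I / L) * I + L * (I / L) ^ 2 =
      (∫ s in (0:ℝ)..L, k s ^ 2) - I ^ 2 / L := by
    field_simp
    ring
  rw [h2] at h0
  have h3 : I ^ 2 / L ≤ ∫ s in (0:ℝ)..L, k s ^ 2 := by linarith
  rw [div_le_iff₀ hL] at h3
  linarith

/-- One direction: `f x = -∫_0^{2ρ} Df(x + s e) e ds` if `f (x + 2ρ e) = 0`; Cauchy-Schwarz and Tonelli. -/
theorem poincare_dir {F : Type} [NormedAddCommGroup F] [NormedSpace ℝ F] {f : Ed d → F} (hf : Smo f)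
    (hc : HasCompactSupport f) (e : Ed d) {ρ : ℝ} (hρ : 0 < ρ) {A : Set (Ed d)} (hA : MeasurableSet A)
    (h0 : ∀ x ∈ A, f (x + (2 * ρ) • e) = 0) :
    ∫ x in A, ‖f x‖ ^ 2 ≤ (2 * ρ) ^ 2 * ∫ x, ‖fderiv ℝ f x e‖ ^ 2 := by
  have hL : 0 < 2 * ρ := by linarith
  obtain ⟨L, hLd⟩ : ∃ L, L = 2 * ρ := ⟨_, rfl⟩
  rw [← hLd] at hL h0 ⊢
  have hdf : Continuous fun x => fderiv ℝ f x e := by
    have h1 : ContDiff ℝ ((⊤ : ℕ∞) : WithTop ℕ∞) (fderiv ℝ f) := ContDiff.fderiv_right hf (by exact_mod_cast le_top)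
    exact (h1.clm_apply contDiff_const).continuous
  obtain ⟨g, hg⟩ : ∃ g : Ed d → ℝ, g = fun x => ‖fderiv ℝ f x e‖ ^ 2 := ⟨_, rfl⟩
  have hgc : Continuous g := by rw [hg]; exact hdf.norm.pow 2
  have hg0 : ∀ x, 0 ≤ g x := fun x => by rw [hg]; positivity
  have hgs : HasCompactSupport g := by
    rw [hg]
    exact hf3_sq_cs (hc.fderiv_apply ℝ e)
  have hgi : Integrable g := hgc.integrable_of_hasCompactSupport hgs
  have hfi : Integrable fun x => ‖f x‖ ^ 2 :=
    (hf.continuous.norm.pow 2).integrable_of_hasCompactSupport (hf3_sq_cs hc)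
  -- pointwise bound
  have hpt : ∀ x ∈ A, ‖f x‖ ^ 2 ≤ L * ∫ s in (0:ℝ)..L, g (x + s • e) := by
    intro x hx
    have hcurve : ∀ s : ℝ, HasDerivAt (fun s : ℝ => x + s • e) e s := fun s => by
      simpa using ((hasDerivAt_id s).smul_const e).const_add x
    have hk : Continuous fun s : ℝ => ‖fderiv ℝ f (x + s • e) e‖ :=
      (hdf.comp (continuous_const.add (continuous_id.smul continuous_const))).norm
    have hder : ∀ s : ℝ, HasDerivAt (fun s : ℝ => f (x + s • e) - f x) (fderiv ℝ f (x + s • e) e) s := fun s =>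
      (((hf.differentiable (x + s • e)).hasFDerivAt.comp_hasDerivAt s (hcurve s))).sub_const _
    have hB : ∀ s : ℝ, HasDerivAt (fun s => ∫ r in (0:ℝ)..s, ‖fderiv ℝ f (x + r • e) e‖)
        (‖fderiv ℝ f (x + s • e) e‖) s := fun s =>
      intervalIntegral.integral_hasDerivAt_right (hk.intervalIntegrable 0 s)
        (hk.stronglyMeasurableAtFilter _ _) hk.continuousAt
    have hb := image_norm_le_of_norm_deriv_right_le_deriv_boundary (a := 0) (b := L)
      (f := fun s : ℝ => f (x + s • e) - f x) (f' := fun s => fderiv ℝ f (x + s • e) e)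
      (fun s _ => (hder s).continuousAt.continuousWithinAt) (fun s _ => (hder s).hasDerivWithinAt)
      (B := fun s => ∫ r in (0:ℝ)..s, ‖fderiv ℝ f (x + r • e) e‖) (by simp) hB (fun s _ => le_rfl)
      (right_mem_Icc.2 hL.le)
    have hb' : ‖f x‖ ≤ ∫ r in (0:ℝ)..L, ‖fderiv ℝ f (x + r • e) e‖ := by
      have h1 : f (x + L • e) = 0 := h0 x hx
      simpa [h1] using hb
    calc ‖f x‖ ^ 2 ≤ (∫ r in (0:ℝ)..L, ‖fderiv ℝ f (x + r • e) e‖) ^ 2 :=
          pow_le_pow_left₀ (norm_nonneg _) hb' 2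
      _ ≤ L * ∫ s in (0:ℝ)..L, ‖fderiv ℝ f (x + s • e) e‖ ^ 2 := hf3_cs hk hL
      _ = L * ∫ s in (0:ℝ)..L, g (x + s • e) := by rw [hg]
  -- Tonelli
  have hGc : Continuous fun p : Ed d × ℝ => g (p.1 + p.2 • e) :=
    hgc.comp (continuous_fst.add (continuous_snd.smul continuous_const))
  have hG : Integrable (fun p : Ed d × ℝ => g (p.1 + p.2 • e)) (volume.prod (volume.restrict (Ioc 0 L))) := by
    rw [integrable_prod_iff' hGc.aestronglyMeasurable]
    refine ⟨Eventually.of_forall fun s => hgi.comp_add_right (s • e), ?_⟩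
    have e1 : (fun s : ℝ => ∫ x, ‖g (x + s • e)‖) = fun _ => ∫ x, g x := by
      funext s
      have e2 : ∀ x, ‖g (x + s • e)‖ = g (x + s • e) := fun x => by
        rw [Real.norm_eq_abs, abs_of_nonneg (hg0 _)]
      simp_rw [e2]
      exact integral_add_right_eq_self (fun x => g x) (s • e)
    show Integrable (fun s : ℝ => ∫ x, ‖g (x + s • e)‖) _
    rw [e1]
    exact integrable_const _
  have hGi := hG.integral_prod_left
  have hsw : ∫ x, (∫ s in Ioc 0 L, g (x + s • e)) = L * ∫ x, g x := by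
    rw [integral_integral_swap hG]
    have e1 : ∀ s : ℝ, ∫ x, g (x + s • e) = ∫ x, g x := fun s => integral_add_right_eq_self (fun x => g x) (s • e)
    simp_rw [e1]
    rw [setIntegral_const, smul_eq_mul, Real.volume_real_Ioc_of_le hL.le, sub_zero]
  calc ∫ x in A, ‖f x‖ ^ 2 ≤ ∫ x in A, L * ∫ s in Ioc 0 L, g (x + s • e) := by
        refine setIntegral_mono_on hfi.integrableOn (hGi.const_mul L).integrableOn hA fun x hx => ?_
        have := hpt x hx
        rwa [intervalIntegral.integral_of_le hL.le] at this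
    _ ≤ ∫ x, L * ∫ s in Ioc 0 L, g (x + s • e) := by
        refine setIntegral_le_integral (hGi.const_mul L) (Eventually.of_forall fun x => ?_)
        exact mul_nonneg hL.le (integral_nonneg fun s => hg0 _)
    _ = L * (L * ∫ x, g x) := by rw [integral_const_mul, hsw]
    _ = L ^ 2 * ∫ x, ‖fderiv ℝ f x e‖ ^ 2 := by rw [hg]; ring

/-- Poincare inequality for bounded sets (`poincare_dir` with a coordinate direction and large `ρ`). -/
theorem poincare_bdd (hb : Bornology.IsBounded D) (hd : 0 < d) : ∃ C : ℝ, 0 < C ∧ ∀ (F : Type) [NormedAddCommGroup F]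
    [NormedSpace ℝ F] (f : Ed d → F), Smo f → HasCompactSupport f → tsupport f ⊆ D →
      ∫ x, ‖f x‖ ^ 2 ≤ C * ∑ i, ∫ x, ‖pd i f x‖ ^ 2 := by
  obtain ⟨R, hR⟩ := hb.subset_closedBall 0
  obtain ⟨ρ, hρd⟩ : ∃ ρ, ρ = |R| + 1 := ⟨_, rfl⟩
  have hρ : 0 < ρ := by rw [hρd]; positivity
  refine ⟨(2 * ρ) ^ 2, by positivity, fun F _ _ f hf hc hs => ?_⟩
  obtain ⟨i, hi⟩ : ∃ i : Fin d, i = ⟨0, hd⟩ := ⟨_, rfl⟩
  have hne : ‖(ei i : Ed d)‖ = 1 := by simp [ei]
  have h0 : ∀ x ∈ tsupport f, f (x + (2 * ρ) • ei i) = 0 := by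
    intro x hx
    have h1 : ‖x‖ ≤ |R| := by
      have := hR (hs hx)
      rw [mem_closedBall_zero_iff] at this
      exact this.trans (le_abs_self _)
    by_contra h2
    have h3 : x + (2 * ρ) • ei i ∈ D := hs (subset_tsupport f h2)
    have h4 : ‖x + (2 * ρ) • (ei i : Ed d)‖ ≤ |R| := by
      have := hR h3
      rw [mem_closedBall_zero_iff] at this
      exact this.trans (le_abs_self _)
    have h5 : ‖(2 * ρ) • (ei i : Ed d)‖ = 2 * ρ := by
      rw [norm_smul, hne, mul_one, Real.norm_eq_abs, abs_of_pos (by positivity)]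
    have h6 := norm_sub_le (x + (2 * ρ) • (ei i : Ed d)) x
    rw [add_sub_cancel_left, h5] at h6
    linarith
  have h7 := poincare_dir hf hc (ei i) hρ (isClosed_tsupport f).measurableSet h0
  have h8 : ∫ x in tsupport f, ‖f x‖ ^ 2 = ∫ x, ‖f x‖ ^ 2 := by
    refine setIntegral_eq_integral_of_forall_compl_eq_zero fun x hx => ?_
    rw [image_eq_zero_of_notMem_tsupport hx, norm_zero, zero_pow two_ne_zero]
  rw [h8] at h7
  refine h7.trans (mul_le_mul_of_nonneg_left ?_ (by positivity))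
  exact Finset.single_le_sum (f := fun i => ∫ x, ‖pd i f x‖ ^ 2)
    (fun j _ => integral_nonneg fun x => by positivity) (Finset.mem_univ i)

private theorem hf3_dir {F : Type} [NormedAddCommGroup F] [NormedSpace ℝ F] (f : Ed d → F) (x e : Ed d)
    (he : ‖e‖ = 1) : ‖fderiv ℝ f x e‖ ^ 2 ≤ ∑ i, ‖pd i f x‖ ^ 2 := by
  have h1 : fderiv ℝ f x e = ∑ i, e i • pd i f x := by
    have h : e = ∑ i, e i • (ei i : Ed d) := by
      ext j
      simp [ei, Pi.single_apply]
    conv_lhs => rw [h]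
    rw [map_sum]
    exact Finset.sum_congr rfl fun i _ => by rw [map_smul]; rfl
  have h2 : ‖fderiv ℝ f x e‖ ≤ ∑ i, |e i| * ‖pd i f x‖ := by
    rw [h1]
    refine (norm_sum_le _ _).trans (Finset.sum_le_sum fun i _ => ?_)
    rw [norm_smul, Real.norm_eq_abs]
  have h3 : (∑ i, |e i| * ‖pd i f x‖) ^ 2 ≤ (∑ i, |e i| ^ 2) * ∑ i, ‖pd i f x‖ ^ 2 :=
    Finset.sum_mul_sq_le_sq_mul_sq _ _ _
  have h4 : ∑ i, |e i| ^ 2 = 1 := by
    have h5 := EuclideanSpace.norm_sq_eq e
    rw [he, one_pow] at h5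
    rw [h5]
    rfl
  rw [h4, one_mul] at h3
  exact (pow_le_pow_left₀ (norm_nonneg _) h2 2).trans h3

private theorem hf3_pdi {F : Type} [NormedAddCommGroup F] [NormedSpace ℝ F] {f : Ed d → F} (hf : Smo f)
    (hc : HasCompactSupport f) (i : Fin d) : Integrable fun x => ‖pd i f x‖ ^ 2 :=
  ((hf.pd i).continuous.norm.pow 2).integrable_of_hasCompactSupport (hf3_sq_cs (hc.fderiv_apply ℝ (ei i)))

/-- **Poincare inequality in the layer** `{0 < z < ρ}`. -/
theorem Dom.poincare_layer (h : Dom D z δ) : ∃ C ρ₀ : ℝ, 0 < C ∧ 0 < ρ₀ ∧ ∀ (F : Type) [NormedAddCommGroup F]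
    [NormedSpace ℝ F] (f : Ed d → F), Smo f → HasCompactSupport f → tsupport f ⊆ D → ∀ ρ, 0 < ρ → ρ ≤ ρ₀ →
      ∫ x in {x | 0 < z x ∧ z x < ρ}, ‖f x‖ ^ 2 ≤ C * ρ ^ 2 * ∑ i, ∫ x, ‖pd i f x‖ ^ 2 := by
  obtain ⟨S, ρ₀, hρ0, -, hS1, hS⟩ := h.ext_dirs
  refine ⟨4 * S.card + 1, ρ₀, by positivity, hρ0, fun F _ _ f hf hc hs ρ hρ hρ1 => ?_⟩
  obtain ⟨A, hA⟩ : ∃ A : Ed d → Set (Ed d), A = fun e => {x | (0 < z x ∧ z x < ρ) ∧ z (x + (2 * ρ) • e) ≤ 0} :=
    ⟨_, rfl⟩
  have hzc := h.cont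
  have hAm : ∀ e, MeasurableSet (A e) := by
    intro e
    rw [hA]
    have o1 : MeasurableSet {x | 0 < z x ∧ z x < ρ} :=
      ((isOpen_lt continuous_const hzc).inter (isOpen_lt hzc continuous_const)).measurableSet
    have o2 : MeasurableSet {x | z (x + (2 * ρ) • e) ≤ 0} :=
      (isClosed_le (hzc.comp (continuous_id.add continuous_const)) continuous_const).measurableSet
    exact o1.inter o2
  have hfi : Integrable fun x => ‖f x‖ ^ 2 :=
    (hf.continuous.norm.pow 2).integrable_of_hasCompactSupport (hf3_sq_cs hc)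
  have hcov : {x | 0 < z x ∧ z x < ρ} ⊆ ⋃ e ∈ S, A e := by
    intro x hx
    obtain ⟨e, heS, he⟩ := hS ρ hρ hρ1 x hx.1 hx.2
    refine mem_iUnion₂.2 ⟨e, heS, ?_⟩
    rw [hA]
    exact ⟨hx, he⟩
  have h1 : ∀ e ∈ S, ∫ x in A e, ‖f x‖ ^ 2 ≤ (2 * ρ) ^ 2 * ∑ i, ∫ x, ‖pd i f x‖ ^ 2 := by
    intro e he
    have h0 : ∀ x ∈ A e, f (x + (2 * ρ) • e) = 0 := by
      intro x hx
      rw [hA] at hx
      by_contra h2
      have h3 : x + (2 * ρ) • e ∈ D := hs (subset_tsupport f h2)
      have h4 := (h.pos _).1 h3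
      exact absurd h4 (not_lt.2 hx.2)
    refine (poincare_dir hf hc e hρ (hAm e) h0).trans (mul_le_mul_of_nonneg_left ?_ (by positivity))
    rw [← integral_finsetSum _ fun i _ => hf3_pdi hf hc i]
    refine integral_mono_of_nonneg (Eventually.of_forall fun x => by positivity)
      (integrable_finsetSum _ fun i _ => hf3_pdi hf hc i) (Eventually.of_forall fun x => ?_)
    exact hf3_dir f x e (hS1 e he)
  have hlay : MeasurableSet {x | 0 < z x ∧ z x < ρ} :=
    ((isOpen_lt continuous_const hzc).inter (isOpen_lt hzc continuous_const)).measurableSet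
  have h2 : ∫ x in {x | 0 < z x ∧ z x < ρ}, ‖f x‖ ^ 2 ≤ ∑ e ∈ S, ∫ x in A e, ‖f x‖ ^ 2 := by
    have e1 : ∀ e ∈ S, ∫ x in A e, ‖f x‖ ^ 2 = ∫ x, (A e).indicator (fun x => ‖f x‖ ^ 2) x := fun e _ =>
      (integral_indicator (hAm e)).symm
    rw [Finset.sum_congr rfl e1, ← integral_indicator hlay,
      ← integral_finsetSum _ fun e _ => hfi.indicator (hAm e)]
    refine integral_mono (hfi.indicator hlay) (integrable_finsetSum _ fun e _ => hfi.indicator (hAm e)) fun x => ?_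
    have hnn : ∀ e ∈ S, 0 ≤ (A e).indicator (fun x => ‖f x‖ ^ 2) x := fun e _ =>
      indicator_nonneg (fun x _ => sq_nonneg _) x
    show ({x | 0 < z x ∧ z x < ρ}).indicator (fun x => ‖f x‖ ^ 2) x ≤
      ∑ e ∈ S, (A e).indicator (fun x => ‖f x‖ ^ 2) x
    by_cases hx : x ∈ {x | 0 < z x ∧ z x < ρ}
    · obtain ⟨e, heS, he⟩ := mem_iUnion₂.1 (hcov hx)
      have h3 := Finset.single_le_sum hnn heS
      rw [indicator_of_mem he] at h3
      rw [indicator_of_mem hx]
      exact h3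
    · rw [indicator_of_notMem hx]
      exact Finset.sum_nonneg hnn
  have h6 : 0 ≤ ρ ^ 2 * ∑ i, ∫ x, ‖pd i f x‖ ^ 2 :=
    mul_nonneg (sq_nonneg _) (Finset.sum_nonneg fun i _ => integral_nonneg fun x => by positivity)
  have h7 := h2.trans (Finset.sum_le_sum h1)
  rw [Finset.sum_const, nsmul_eq_mul] at h7
  linarith

private theorem hf3_tsd {f : ℝ → ℝ} : tsupport (deriv f) ⊆ tsupport f :=
  closure_minimal (support_deriv_subset) (isClosed_tsupport f)

private theorem hf3_grad (g : Ed d → ℝ) (x : Ed d) (i : Fin d) : (gradient g x) i = pd i g x := by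
  have h7 := grad_inner g x (ei i)
  have h8 : ⟪gradient g x, (ei i : Ed d)⟫ = (gradient g x) i := by
    rw [real_inner_comm]
    unfold ei
    rw [EuclideanSpace.inner_single_left]
    exact one_mul _
  rw [← h8, h7]
  rfl

/-- `∫ (f'(z) |∇z|² + f(z) Δz) = 0` for smooth `f` with compact support in `(-4δ, 4δ)` (the divergence of
`f(z) ∇z`). -/
theorem Dom.int_div (h : Dom D z δ) {f : ℝ → ℝ} (hf : ContDiff ℝ ((⊤ : ℕ∞) : WithTop ℕ∞) f)
    (hs : tsupport f ⊆ Ioo (-(4 * δ)) (4 * δ)) : ∫ x, (deriv f (z x) + f (z x) * lap z x) = 0 := by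
  have hψ : Smo fun x => f (z x) := hf.comp h.smo
  have hK : IsCompact {x | z x ∈ tsupport f} := by
    refine Metric.isCompact_of_isClosed_isBounded ((isClosed_tsupport f).preimage h.cont) (h.bdd_near.subset ?_)
    intro x hx
    exact abs_lt.2 ⟨(hs hx).1, (hs hx).2⟩
  have hψc : HasCompactSupport fun x => f (z x) := by
    refine HasCompactSupport.of_support_subset_isCompact hK fun x hx => ?_
    exact subset_tsupport f hx
  have hg : ∀ i, Smo fun x => f (z x) * pd i z x := fun i => ContDiff.mul hψ (h.smo.pd i)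
  have hgc : ∀ i, HasCompactSupport fun x => f (z x) * pd i z x := fun i => hψc.mul_right
  have hfd : ∀ t, HasDerivAt f (deriv f t) t := fun t =>
    (hf.differentiable (by norm_num)).differentiableAt.hasDerivAt
  have hpd : ∀ i x, pd i (fun x => f (z x) * pd i z x) x =
      deriv f (z x) * pd i z x ^ 2 + f (z x) * pd i (pd i z) x := by
    intro i x
    have h1 : HasFDerivAt (fun x => f (z x)) (deriv f (z x) • fderiv ℝ z x) x :=
      (hfd (z x)).comp_hasFDerivAt x (h.smo.differentiable x).hasFDerivAt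
    have h2 : HasFDerivAt (pd i z) (fderiv ℝ (pd i z) x) x := ((h.smo.pd i).differentiable x).hasFDerivAt
    have h3 : HasFDerivAt (fun x => f (z x) * pd i z x)
        (f (z x) • fderiv ℝ (pd i z) x + pd i z x • (deriv f (z x) • fderiv ℝ z x)) x := h1.mul h2
    show fderiv ℝ (fun x => f (z x) * pd i z x) x (ei i) = _
    rw [h3.fderiv]
    show f (z x) * fderiv ℝ (pd i z) x (ei i) + pd i z x * (deriv f (z x) * fderiv ℝ z x (ei i)) = _
    show f (z x) * pd i (pd i z) x + pd i z x * (deriv f (z x) * pd i z x) = _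
    ring
  have hsum : ∀ x, deriv f (z x) + f (z x) * lap z x = ∑ i, pd i (fun x => f (z x) * pd i z x) x := by
    intro x
    simp_rw [hpd]
    rw [Finset.sum_add_distrib, ← Finset.mul_sum, ← Finset.mul_sum]
    have h1 : deriv f (z x) * ∑ i, pd i z x ^ 2 = deriv f (z x) := by
      by_cases h0 : deriv f (z x) = 0
      · rw [h0, zero_mul]
      · have h2 : z x ∈ tsupport f := by
          by_contra h3
          exact h0 (image_eq_zero_of_notMem_tsupport (fun h4 => h3 (hf3_tsd h4)))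
        have h3 := h.unit x (abs_lt.2 ⟨(hs h2).1, (hs h2).2⟩)
        have h4 : ∑ i, pd i z x ^ 2 = 1 := by
          have h5 := EuclideanSpace.norm_sq_eq (gradient z x)
          rw [h3, one_pow] at h5
          rw [h5]
          refine Finset.sum_congr rfl fun i _ => ?_
          rw [hf3_grad, Real.norm_eq_abs, sq_abs]
        rw [h4, mul_one]
    rw [h1]
    rfl
  simp_rw [hsum]
  rw [integral_finsetSum _ fun i _ => ((hg i).pd i).continuous.integrable_of_hasCompactSupport (hcs_pd (hgc i) i)]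
  exact Finset.sum_eq_zero fun i _ => integral_pd (hg i) (hgc i) i

/-- **Volume of the layer**: `Dom.int_div` with `f(s) = ρ a(s/ρ) ω(s)`, `a = 2 arctan` (`a' ≥ 1` on `[-1,1]`, `a' ≥ 0`,
`|a| ≤ 4`), `ω = 1` on `[-2δ,2δ]`, with support in `[-3δ,3δ]`. -/
theorem Dom.vol_layer (h : Dom D z δ) : ∃ C : ℝ, 0 < C ∧ ∀ ρ, 0 < ρ → ρ ≤ δ →
    volume {x | |z x| < ρ} ≤ ENNReal.ofReal (C * ρ) := by
  have hδ := h.δ0
  let ω : ContDiffBump (0 : ℝ) := ⟨2 * δ, 3 * δ, by positivity, by linarith⟩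
  have hω : ContDiff ℝ ((⊤ : ℕ∞) : WithTop ℕ∞) (ω : ℝ → ℝ) := ω.contDiff
  have hωd : Continuous (deriv (ω : ℝ → ℝ)) := hω.continuous_deriv (by norm_num)
  obtain ⟨W, hW⟩ := (ω.hasCompactSupport.deriv).exists_bound_of_continuous hωd
  have hW0 : 0 ≤ W := (norm_nonneg _).trans (hW 0)
  have hωs : ∀ s : ℝ, 3 * δ < |s| → ω s = 0 ∧ deriv (ω : ℝ → ℝ) s = 0 := by
    intro s hs
    have h1 : s ∉ tsupport (ω : ℝ → ℝ) := by
      rw [ω.tsupport_eq]
      intro h2
      rw [mem_closedBall_zero_iff, Real.norm_eq_abs] at h2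
      exact absurd h2 (not_le.2 hs)
    exact ⟨image_eq_zero_of_notMem_tsupport h1,
      image_eq_zero_of_notMem_tsupport fun h3 => h1 (hf3_tsd h3)⟩
  obtain ⟨K, hKd⟩ : ∃ K : Set (Ed d), K = {x | |z x| ≤ 3 * δ} := ⟨_, rfl⟩
  have hK : IsCompact K := by rw [hKd]; exact h.cpt_near (by linarith)
  have hzc := h.cont
  obtain ⟨Λ, hΛ⟩ := hK.exists_bound_of_continuousOn (f := lap z) h.smo.lap.continuous.continuousOn
  obtain ⟨V, hV⟩ : ∃ V, V = volume.real K := ⟨_, rfl⟩
  have hV0 : 0 ≤ V := by rw [hV]; exact measureReal_nonneg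
  refine ⟨4 * (W + |Λ|) * V + 1, by positivity, fun ρ hρ hρδ => ?_⟩
  obtain ⟨a, ha⟩ : ∃ a : ℝ → ℝ, a = fun s => 2 * Real.arctan (s / ρ) := ⟨_, rfl⟩
  have hac : ContDiff ℝ ((⊤ : ℕ∞) : WithTop ℕ∞) a := by
    rw [ha]
    exact contDiff_const.mul (Real.contDiff_arctan.comp (contDiff_id.div_const ρ))
  have ha4 : ∀ s, |a s| ≤ 4 := by
    intro s
    have h1 := Real.arctan_lt_pi_div_two (s / ρ)
    have h2 := Real.neg_pi_div_two_lt_arctan (s / ρ)
    have h3 := Real.pi_le_four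
    rw [ha, abs_le]
    constructor
    · show -4 ≤ 2 * Real.arctan (s / ρ)
      linarith
    · show 2 * Real.arctan (s / ρ) ≤ 4
      linarith
  have had : ∀ s, HasDerivAt a (2 * (1 / (1 + (s / ρ) ^ 2) * (1 / ρ))) s := by
    intro s
    rw [ha]
    exact (((hasDerivAt_id s).div_const ρ).arctan).const_mul 2
  obtain ⟨f, hf⟩ : ∃ f : ℝ → ℝ, f = fun s => ρ * a s * ω s := ⟨_, rfl⟩
  have hfc : ContDiff ℝ ((⊤ : ℕ∞) : WithTop ℕ∞) f := by
    rw [hf]; exact (contDiff_const.mul hac).mul hω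
  have hfs : tsupport f ⊆ Ioo (-(4 * δ)) (4 * δ) := by
    have h1 : tsupport f ⊆ Metric.closedBall 0 (3 * δ) := by
      refine closure_minimal (fun s hs => ?_) Metric.isClosed_closedBall
      by_contra h2
      rw [mem_closedBall_zero_iff, Real.norm_eq_abs, not_le] at h2
      apply hs
      rw [hf]
      show ρ * a s * ω s = 0
      rw [(hωs s h2).1, mul_zero]
    intro s hs
    have h3 := h1 hs
    rw [mem_closedBall_zero_iff, Real.norm_eq_abs, abs_le] at h3
    exact ⟨by linarith [h3.1], by linarith [h3.2]⟩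
  have hfd : ∀ s, deriv f s = 2 / (1 + (s / ρ) ^ 2) * ω s + ρ * a s * deriv (ω : ℝ → ℝ) s := by
    intro s
    have h1 : HasDerivAt f (ρ * (2 * (1 / (1 + (s / ρ) ^ 2) * (1 / ρ))) * ω s + ρ * a s * deriv (ω : ℝ → ℝ) s) s := by
      rw [hf]
      exact ((had s).const_mul ρ).mul (hω.differentiable (by norm_num)).differentiableAt.hasDerivAt
    rw [h1.deriv]
    field_simp
  obtain ⟨P, hP⟩ : ∃ P : Ed d → ℝ, P = fun x => 2 / (1 + (z x / ρ) ^ 2) * ω (z x) := ⟨_, rfl⟩
  obtain ⟨Q, hQ⟩ : ∃ Q : Ed d → ℝ, Q = fun x => ρ * a (z x) * deriv (ω : ℝ → ℝ) (z x) +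
    ρ * a (z x) * ω (z x) * lap z x := ⟨_, rfl⟩
  have hPc : Continuous P := by
    rw [hP]
    refine (continuous_const.div (continuous_const.add ((hzc.div_const ρ).pow 2)) fun x => ?_).mul
      (hω.continuous.comp hzc)
    show 1 + (z x / ρ) ^ 2 ≠ 0
    have : 0 ≤ (z x / ρ) ^ 2 := sq_nonneg _
    positivity
  have hQc : Continuous Q := by
    rw [hQ]
    have h1 : Continuous fun x => ρ * a (z x) := continuous_const.mul (hac.continuous.comp hzc)
    exact (h1.mul (hωd.comp hzc)).add ((h1.mul (hω.continuous.comp hzc)).mul h.smo.lap.continuous)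
  have hP0 : ∀ x ∉ K, P x = 0 := by
    intro x hx
    rw [hKd] at hx
    have h1 : 3 * δ < |z x| := not_le.1 hx
    rw [hP]
    show 2 / (1 + (z x / ρ) ^ 2) * ω (z x) = 0
    rw [(hωs _ h1).1, mul_zero]
  have hQ0 : ∀ x ∉ K, Q x = 0 := by
    intro x hx
    rw [hKd] at hx
    have h1 : 3 * δ < |z x| := not_le.1 hx
    rw [hQ]
    show ρ * a (z x) * deriv (ω : ℝ → ℝ) (z x) + ρ * a (z x) * ω (z x) * lap z x = 0
    rw [(hωs _ h1).1, (hωs _ h1).2, mul_zero, zero_mul, add_zero]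
  have hPi : Integrable P := hPc.integrable_of_hasCompactSupport (HasCompactSupport.intro hK fun x hx => hP0 x hx)
  have hQi : Integrable Q := hQc.integrable_of_hasCompactSupport (HasCompactSupport.intro hK fun x hx => hQ0 x hx)
  have hPQ : (∫ x, P x) + ∫ x, Q x = 0 := by
    rw [← integral_add hPi hQi, ← h.int_div hfc hfs]
    refine integral_congr_ae (Eventually.of_forall fun x => ?_)
    show P x + Q x = deriv f (z x) + f (z x) * lap z x
    rw [hfd, hP, hQ, hf]
    show 2 / (1 + (z x / ρ) ^ 2) * ω (z x) + (ρ * a (z x) * deriv (ω : ℝ → ℝ) (z x) +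
      ρ * a (z x) * ω (z x) * lap z x) = _
    ring
  have hQb : |∫ x, Q x| ≤ ρ * (4 * (W + |Λ|) * V) := by
    have e1 : ∫ x, Q x = ∫ x in K, Q x := (setIntegral_eq_integral_of_forall_compl_eq_zero hQ0).symm
    rw [e1, ← Real.norm_eq_abs]
    refine (norm_setIntegral_le_of_norm_le_const (C := ρ * (4 * (W + |Λ|))) hK.measure_lt_top fun x hx => ?_).trans ?_
    · rw [hQ, Real.norm_eq_abs]
      have h1 : |lap z x| ≤ |Λ| := (hΛ x hx).trans (le_abs_self _)
      have h2 : |deriv (ω : ℝ → ℝ) (z x)| ≤ W := hW (z x)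
      have h3 : |ω (z x)| ≤ 1 := by rw [abs_of_nonneg (ω.nonneg)]; exact ω.le_one
      have h4 := ha4 (z x)
      have e2 : ρ * a (z x) * deriv (ω : ℝ → ℝ) (z x) + ρ * a (z x) * ω (z x) * lap z x =
          ρ * (a (z x) * (deriv (ω : ℝ → ℝ) (z x) + ω (z x) * lap z x)) := by ring
      show |ρ * a (z x) * deriv (ω : ℝ → ℝ) (z x) + ρ * a (z x) * ω (z x) * lap z x| ≤ _
      rw [e2, abs_mul, abs_of_pos hρ, abs_mul]
      refine mul_le_mul_of_nonneg_left (mul_le_mul h4 ?_ (abs_nonneg _) (by norm_num)) hρ.le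
      refine (abs_add_le _ _).trans (add_le_add h2 ?_)
      rw [abs_mul]
      calc |ω (z x)| * |lap z x| ≤ 1 * |Λ| := mul_le_mul h3 h1 (abs_nonneg _) zero_le_one
        _ = |Λ| := one_mul _
    · rw [← hV]
      exact le_of_eq (by ring)
  have hPn : ∀ x, 0 ≤ P x := by
    intro x
    rw [hP]
    have h1 : 0 ≤ (z x / ρ) ^ 2 := sq_nonneg _
    have h2 : 0 ≤ ω (z x) := ω.nonneg
    show 0 ≤ 2 / (1 + (z x / ρ) ^ 2) * ω (z x)
    positivity
  have hm : MeasurableSet {x | |z x| < ρ} := (isOpen_lt hzc.abs continuous_const).measurableSet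
  have hsub : {x | |z x| < ρ} ⊆ K := by
    rw [hKd]
    intro x hx
    have hx' : |z x| < ρ := hx
    show |z x| ≤ 3 * δ
    linarith
  have hfin : volume {x | |z x| < ρ} < ⊤ := (measure_mono hsub).trans_lt hK.measure_lt_top
  have hle : volume.real {x | |z x| < ρ} ≤ ∫ x, P x := by
    have e1 : volume.real {x | |z x| < ρ} = ∫ x in {x | |z x| < ρ}, (1 : ℝ) := by
      rw [setIntegral_const, smul_eq_mul, mul_one]
    rw [e1]
    refine le_trans ?_ (setIntegral_le_integral (s := {x | |z x| < ρ}) hPi (Eventually.of_forall hPn))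
    refine setIntegral_mono_on (integrableOn_const hfin.ne) hPi.integrableOn hm fun x hx => ?_
    have hx' : |z x| < ρ := hx
    have h1 : ω (z x) = 1 := ω.one_of_mem_closedBall (by
      rw [mem_closedBall_zero_iff, Real.norm_eq_abs]
      show |z x| ≤ 2 * δ
      linarith)
    rw [hP]
    show 1 ≤ 2 / (1 + (z x / ρ) ^ 2) * ω (z x)
    rw [h1, mul_one, le_div_iff₀ (by positivity), one_mul]
    have h2 : |z x / ρ| ≤ 1 := by
      rw [abs_div, abs_of_pos hρ, div_le_one hρ]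
      exact hx'.le
    have h3 : (z x / ρ) ^ 2 ≤ 1 := by rw [← sq_abs]; exact pow_le_one₀ (abs_nonneg _) h2
    linarith
  have hfinal : volume.real {x | |z x| < ρ} ≤ (4 * (W + |Λ|) * V + 1) * ρ := by
    have h1 : ∫ x, P x ≤ |∫ x, Q x| := by
      have h2 : ∫ x, P x = -∫ x, Q x := by linarith
      rw [h2]
      exact neg_le_abs _
    nlinarith
  rw [← ENNReal.ofReal_toReal hfin.ne]
  exact ENNReal.ofReal_le_ofReal hfinal

theorem Dom.vol_frontier (h : Dom D z δ) : volume (frontier D) = 0 := by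
  obtain ⟨C, hC0, hC⟩ := h.vol_layer
  have h1 : Tendsto (fun ρ : ℝ => ENNReal.ofReal (C * ρ)) (𝓝[>] 0) (𝓝 0) := by
    have h2 : Tendsto (fun ρ : ℝ => ENNReal.ofReal (C * ρ)) (𝓝 0) (𝓝 (ENNReal.ofReal (C * 0))) :=
      (ENNReal.continuous_ofReal.comp (continuous_const.mul continuous_id)).tendsto 0
    rw [mul_zero, ENNReal.ofReal_zero] at h2
    exact h2.mono_left nhdsWithin_le_nhds
  refine le_antisymm (ge_of_tendsto h1 ?_) zero_le
  filter_upwards [Ioc_mem_nhdsGT h.δ0] with ρ hρ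
  refine (measure_mono ?_).trans (hC ρ hρ.1 hρ.2)
  intro x hx
  have h3 := (h.frontier_iff x).1 hx
  show |z x| < ρ
  rw [h3, abs_zero]
  exact hρ.1

end Pool.Agent.Lib.MP_79abb3_an.W
end
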