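import Pool.Agent.Lib.MP_79abb3_an.W.SpA
import Pool.Agent.Lib.MP_79abb3_an.W.SpA2

/-!
Theorem W, block A1: the Poincare inequality and the map `io`.
-/

set_option autoImplicit false
set_option linter.unusedSectionVars false

open MeasureTheory Set Filter Topology Function
open scoped ENNReal RealInnerProductSpace

namespace Pool.Agent.Lib.MP_79abb3_an.W

section
variable {d : ℕ} {D : Set (En d)} {R : ℝ}

/-- **Poincare.** With the coordinate `x_i`: `∫ |f|² = ∫ |f|² ∂_i x_i = -∫ x_i ∂_i |f|² = -2 ∫ x_i ⟪f, ∂_i f⟫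
≤ 2 R |f|₂ |∂_i f|₂` (integration by parts `ibp_mul`, Cauchy-Schwarz). -/
theorem poincare0 {F : Type} [NormedAddCommGroup F] [InnerProductSpace ℝ F] {f : En d → F} (hf : Smo f)
    (hc : HasCompactSupport f) (hR : tsupport f ⊆ Metric.closedBall 0 R) (i : Fin d) :
    ∫ x, ‖f x‖ ^ 2 ≤ (2 * R) ^ 2 * ∫ x, ‖pd i f x‖ ^ 2 := by
  have hq : Smo fun x => ⟪f x, f x⟫ := hf.inner hf
  have hcq : HasCompactSupport fun x => ⟪f x, f x⟫ :=
    hc.mono' fun x hx => subset_tsupport _ (by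
      intro h0
      apply hx
      show ⟪f x, f x⟫ = 0
      rw [h0, inner_zero_left])
  have ha : Smo fun x : En d => x i := (EuclideanSpace.proj i : En d →L[ℝ] ℝ).contDiff
  have hpa : ∀ x : En d, pd i (fun x : En d => x i) x = 1 := fun x => by
    have h1 : HasFDerivAt (fun x : En d => x i) (EuclideanSpace.proj i : En d →L[ℝ] ℝ) x :=
      (EuclideanSpace.proj i : En d →L[ℝ] ℝ).hasFDerivAt
    show fderiv ℝ (fun x : En d => x i) x (ei i) = 1
    rw [h1.fderiv]
    simp [ei]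
  have h1 := ibp_mul ha hq (Or.inr hcq) i
  have e1 : ∫ x, pd i (fun x : En d => x i) x * ⟪f x, f x⟫ = ∫ x, ‖f x‖ ^ 2 := by
    refine integral_congr_ae (Eventually.of_forall fun x => ?_)
    show pd i (fun x : En d => x i) x * ⟪f x, f x⟫ = ‖f x‖ ^ 2
    rw [hpa, one_mul, real_inner_self_eq_norm_sq]
  rw [e1, ← integral_neg] at h1
  have i1 : Integrable fun x => ‖f x‖ ^ 2 := by
    refine (hf.continuous.norm.pow 2).integrable_of_hasCompactSupport ?_
    refine hc.mono' fun x hx => subset_tsupport _ ?_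
    intro h0
    apply hx
    show ‖f x‖ ^ 2 = 0
    rw [h0, norm_zero, zero_pow two_ne_zero]
  have hcp : HasCompactSupport (pd i f) := hcs_pd hc i
  have i2 : Integrable fun x => ‖pd i f x‖ ^ 2 := by
    refine ((hf.pd i).continuous.norm.pow 2).integrable_of_hasCompactSupport ?_
    refine hcp.mono' fun x hx => subset_tsupport _ ?_
    intro h0
    apply hx
    show ‖pd i f x‖ ^ 2 = 0
    rw [h0, norm_zero, zero_pow two_ne_zero]
  have hpt : ∀ x, -(x i * pd i (fun x => ⟪f x, f x⟫) x) ≤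
      1 / 2 * ‖f x‖ ^ 2 + 2 * R ^ 2 * ‖pd i f x‖ ^ 2 := by
    intro x
    by_cases h0 : f x = 0
    · rw [pd_inner hf hf, h0, inner_zero_left, inner_zero_right, add_zero, mul_zero, neg_zero]
      positivity
    · have hx : x ∈ Metric.closedBall (0 : En d) R := hR (subset_tsupport f h0)
      rw [mem_closedBall_zero_iff] at hx
      have hR0 : 0 ≤ R := (norm_nonneg x).trans hx
      have hxi : |x i| ≤ R := by
        have h3 := PiLp.norm_apply_le x i
        rw [Real.norm_eq_abs] at h3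
        exact h3.trans hx
      have h4 : |⟪f x, pd i f x⟫| ≤ ‖f x‖ * ‖pd i f x‖ := abs_real_inner_le_norm _ _
      rw [pd_inner hf hf, real_inner_comm (f x) (pd i f x)]
      have h5 : |x i * (⟪f x, pd i f x⟫ + ⟪f x, pd i f x⟫)| ≤ R * (2 * (‖f x‖ * ‖pd i f x‖)) := by
        rw [abs_mul]
        refine mul_le_mul hxi ?_ (abs_nonneg _) hR0
        rw [← two_mul, abs_mul, abs_two]
        linarith
      have h6 := (neg_le_abs (x i * (⟪f x, pd i f x⟫ + ⟪f x, pd i f x⟫))).trans h5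
      have h7 : 0 ≤ (‖f x‖ - 2 * R * ‖pd i f x‖) ^ 2 := sq_nonneg _
      nlinarith
  have hint : Integrable fun x => -(x i * pd i (fun x => ⟪f x, f x⟫) x) := by
    refine Continuous.integrable_of_hasCompactSupport
      (ha.continuous.mul (hq.pd i).continuous).neg ?_
    refine (hcs_pd hcq i).mono' fun x hx => subset_tsupport _ ?_
    intro h0
    apply hx
    show -(x i * pd i (fun x => ⟪f x, f x⟫) x) = 0
    rw [h0, mul_zero, neg_zero]
  have h2 := integral_mono hint ((i1.const_mul (1 / 2)).add (i2.const_mul (2 * R ^ 2))) hpt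
  rw [← h1] at h2
  have e2 : ∫ x, (1 / 2 * ‖f x‖ ^ 2 + 2 * R ^ 2 * ‖pd i f x‖ ^ 2) =
      1 / 2 * (∫ x, ‖f x‖ ^ 2) + 2 * R ^ 2 * ∫ x, ‖pd i f x‖ ^ 2 := by
    rw [integral_add (i1.const_mul _) (i2.const_mul _), integral_const_mul, integral_const_mul]
  have h3 : ∫ x, ‖f x‖ ^ 2 ≤ 1 / 2 * (∫ x, ‖f x‖ ^ 2) + 2 * R ^ 2 * ∫ x, ‖pd i f x‖ ^ 2 := by
    rw [← e2]
    exact h2
  nlinarith

/-- (for `d = 0` all fields vanish; `D = ∅`: the field is zero) -/
theorem poincare (hR0 : 0 ≤ R) (hR : D ⊆ Metric.closedBall 0 R) (φ : TS D) :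
    ‖clT D φ‖ ≤ 2 * R * ‖grT D φ‖ := by
  rw [norm_clT, norm_grT]
  refine le_of_sq_le_sq ?_ (by positivity)
  rw [mul_pow, norm_sq_hT, norm_sq_vT]
  have hcl : tsupport (φ : En d → En d) ⊆ Metric.closedBall 0 R := (TS.ts φ).supp.trans hR
  rcases Nat.eq_zero_or_pos d with h0 | h0
  · subst h0
    have h1 : ∀ x : En 0, ‖(φ : En 0 → En 0) x‖ ^ 2 = 0 := fun x => by
      rw [Subsingleton.elim ((φ : En 0 → En 0) x) 0, norm_zero, zero_pow two_ne_zero]
    simp only [h1, integral_zero]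
    positivity
  · have h1 := poincare0 (TS.ts φ).smooth (TS.ts φ).cpt hcl ⟨0, h0⟩
    refine h1.trans (mul_le_mul_of_nonneg_left ?_ (by positivity))
    exact Finset.single_le_sum (f := fun i => ∫ x, ‖pd i (φ : En d → En d) x‖ ^ 2)
      (fun i _ => integral_nonneg fun x => sq_nonneg _) (Finset.mem_univ _)

theorem io_vT (hD : Bornology.IsBounded D) (φ : TS D) : io D (vT D φ) = hT D φ := by
  obtain ⟨r, hr⟩ := hD.subset_closedBall (0 : En d)
  have hr' : D ⊆ Metric.closedBall 0 (max r 0) := hr.trans (Metric.closedBall_subset_closedBall (le_max_left _ _))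
  exact LinearMap.extendOfNorm_eq (f := hT D) (e := vT D) (vT_dense D)
    ⟨2 * max r 0, fun ψ => poincare (le_max_right _ _) hr' ψ⟩ φ

theorem io_le (hR0 : 0 ≤ R) (hR : D ⊆ Metric.closedBall 0 R) (v : VD D) : ‖io D v‖ ≤ 2 * R * ‖v‖ :=
  LinearMap.norm_extendOfNorm_apply_le (f := hT D) (e := vT D) (vT_dense D) (2 * R)
    (fun ψ => poincare hR0 hR ψ) v

theorem io_dense (hD : Bornology.IsBounded D) : DenseRange (io D) := by
  refine Dense.mono ?_ (hT_dense D)
  rintro _ ⟨φ, rfl⟩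
  exact ⟨vT D φ, io_vT hD φ⟩

end

end Pool.Agent.Lib.MP_79abb3_an.W
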