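import Pool.Agent.Lib.MP_79abb3_an.W.SpA
import Pool.Agent.Lib.MP_79abb3_an.W.SpA2

/-!
Theorem W, block A1: supports and divergences.
-/

set_option autoImplicit false
set_option linter.unusedSectionVars false

open MeasureTheory Set Filter Topology Function
open scoped ENNReal RealInnerProductSpace

namespace Pool.Agent.Lib.MP_79abb3_an.W

section
variable {d : ℕ} {D : Set (En d)}

/-- supports are closed under convergence in `L²` -/
private theorem spC_lim {w : ℕ → L2E d} {u : L2E d} (hl : Tendsto w atTop (𝓝 u))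
    (hw : ∀ n, ∀ᵐ x, x ∉ D → (w n : En d → En d) x = 0) :
    ∀ᵐ x, x ∉ D → (u : En d → En d) x = 0 := by
  obtain ⟨ns, -, h1⟩ := (tendstoInMeasure_of_tendsto_Lp hl).exists_seq_tendsto_ae
  filter_upwards [h1, ae_all_iff.2 hw] with x h2 h3 hx
  refine tendsto_nhds_unique h2 ?_
  have h4 : (fun i => (w (ns i) : En d → En d) x) = fun _ => 0 := funext fun i => h3 (ns i) hx
  rw [h4]
  exact tendsto_const_nhds

private theorem spC_te {φ : En d → En d} (hφ : IsTe D φ) :
    ∀ᵐ x, x ∉ D → (cl φ : En d → En d) x = 0 := by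
  filter_upwards [cl_coe (hφ.memLp 2)] with x h1 hx
  rw [h1]
  by_contra h2
  exact hx (hφ.supp (subset_tsupport _ h2))

/-- The fields of `HD D` vanish outside `D` (an `L²` limit has a subsequence which converges a.e.). -/
theorem HD_supp (u : HD D) : ∀ᵐ x, x ∉ D → ((u : L2E d) : En d → En d) x = 0 := by
  obtain ⟨w, hw, hl⟩ := mem_closure_iff_seq_limit.1 (show (u : L2E d) ∈ closure
    (LinearMap.range (clT D) : Set (L2E d)) from u.2)
  refine spC_lim hl fun n => ?_
  obtain ⟨φ, hφ⟩ := hw n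
  rw [← hφ]
  exact spC_te (TS.ts φ).toIsTe

theorem VD_supp (v : VD D) (i : Fin d) : ∀ᵐ x, x ∉ D → (gi v i : En d → En d) x = 0 := by
  obtain ⟨w, hw, hl⟩ := mem_closure_iff_seq_limit.1 (show (v : G2E d) ∈ closure
    (LinearMap.range (grT D) : Set (G2E d)) from v.2)
  have hl2 : Tendsto (fun n => (w n) i) atTop (𝓝 ((v : G2E d) i)) :=
    ((PiLp.proj (𝕜 := ℝ) 2 (fun _ : Fin d => L2E d) i).continuous.tendsto _).comp hl
  refine spC_lim hl2 fun n => ?_
  obtain ⟨φ, hφ⟩ := hw n
  rw [← hφ]
  exact spC_te ((TS.ts φ).toIsTe.pd i)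

private theorem spC_hcs {q : En d → ℝ} (hc : HasCompactSupport q) : HasCompactSupport (gd q) := by
  refine HasCompactSupport.of_support_subset_isCompact hc fun x hx => ?_
  by_contra h1
  have h2 : fderiv ℝ q x = 0 := by
    by_contra h3
    exact h1 (support_fderiv_subset ℝ h3)
  apply hx
  ext i
  show fderiv ℝ q x (ei i) = 0
  rw [h2]; rfl

private theorem spC_gdc {q : En d → ℝ} (hq : ContDiff ℝ 1 q) : Continuous (gd q) := by
  have h1 : ∀ i, Continuous fun x => pd i q x := fun i =>
    (hq.continuous_fderiv one_ne_zero).clm_apply continuous_const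
  exact (PiLp.continuous_toLp 2 _).comp (continuous_pi h1)

/-- the identity for test fields -/
private theorem spC_ts {φ : En d → En d} (hφ : IsTs D φ) {q : En d → ℝ} (hq : ContDiff ℝ 1 q) :
    ∫ x, ⟪φ x, gd q x⟫ = 0 := by
  have hφi : ∀ i, Smo fun x => φ x i := fun i => contDiff_euclidean.1 hφ.smooth i
  have hci : ∀ i, HasCompactSupport fun x => φ x i := fun i =>
    hφ.cpt.comp_left (g := fun y : En d => y i) rfl
  have hcp : ∀ i, HasCompactSupport (pd i fun x => φ x i) := fun i => hcs_pd (hci i) i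
  have hqc : ∀ i, Continuous fun x => pd i q x := fun i =>
    (hq.continuous_fderiv one_ne_zero).clm_apply continuous_const
  have i1 : ∀ i, Integrable fun x => fderiv ℝ (fun x => φ x i) x (ei i) * q x := fun i =>
    (((hφi i).pd i).continuous.mul hq.continuous).integrable_of_hasCompactSupport
      ((hcp i).mul_right)
  have i2 : ∀ i, Integrable fun x => φ x i * fderiv ℝ q x (ei i) := fun i =>
    ((hφi i).continuous.mul (hqc i)).integrable_of_hasCompactSupport ((hci i).mul_right)
  have i3 : ∀ i, Integrable fun x => φ x i * q x := fun i =>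
    ((hφi i).continuous.mul hq.continuous).integrable_of_hasCompactSupport ((hci i).mul_right)
  have h1 : ∀ i, ∫ x, φ x i * fderiv ℝ q x (ei i) =
      -∫ x, fderiv ℝ (fun x => φ x i) x (ei i) * q x := fun i =>
    integral_mul_fderiv_eq_neg_fderiv_mul_of_integrable (i1 i) (i2 i) (i3 i)
      (fun x _ => (hφi i).differentiable x) (fun x _ => hq.differentiable one_ne_zero x)
  have e1 : ∀ x, ⟪φ x, gd q x⟫ = ∑ i, φ x i * fderiv ℝ q x (ei i) := by
    intro x
    rw [PiLp.inner_apply]
    refine Finset.sum_congr rfl fun i _ => ?_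
    rw [real_inner_comm]
    rfl
  calc ∫ x, ⟪φ x, gd q x⟫ = ∫ x, ∑ i, φ x i * fderiv ℝ q x (ei i) := by simp only [e1]
    _ = ∑ i, ∫ x, φ x i * fderiv ℝ q x (ei i) := integral_finsetSum _ fun i _ => i2 i
    _ = ∑ i, -∫ x, fderiv ℝ (fun x => φ x i) x (ei i) * q x := Finset.sum_congr rfl fun i _ => h1 i
    _ = -∫ x, ∑ i, fderiv ℝ (fun x => φ x i) x (ei i) * q x := by
        rw [Finset.sum_neg_distrib, integral_finsetSum _ fun i _ => i1 i]
    _ = 0 := by
        have e2 : ∀ x, ∑ i, fderiv ℝ (fun x => φ x i) x (ei i) * q x = 0 := by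
          intro x
          rw [← Finset.sum_mul]
          have e3 : ∀ i, fderiv ℝ (fun x => φ x i) x (ei i) = pd i φ x i := fun i =>
            pd_apply hφ.smooth i i x
          simp only [e3]
          have := hφ.div x
          unfold dv at this
          rw [this, zero_mul]
        simp only [e2, integral_zero, neg_zero]

private theorem spC_divC1 (u : HD D) {q : En d → ℝ} (hq : ContDiff ℝ 1 q)
    (hc : HasCompactSupport q) : ∫ x, ⟪((u : L2E d) : En d → En d) x, gd q x⟫ = 0 := by
  have hm : MemLp (gd q) 2 (volume : Measure (En d)) :=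
    (spC_gdc hq).memLp_of_hasCompactSupport (spC_hcs hc)
  rw [← inner_cl (u : L2E d) hm]
  have h1 : IsClosed {w : L2E d | ⟪w, cl (gd q)⟫ = 0} :=
    isClosed_eq (continuous_id.inner continuous_const) continuous_const
  have h2 : (LinearMap.range (clT D) : Set (L2E d)) ⊆ {w : L2E d | ⟪w, cl (gd q)⟫ = 0} := by
    rintro _ ⟨φ, rfl⟩
    show ⟪cl (φ : En d → En d), cl (gd q)⟫ = 0
    rw [cl_inner ((TS.ts φ).memLp 2) hm]
    exact spC_ts (TS.ts φ) hq
  exact closure_minimal h2 h1 u.2

/-- The fields of `HD D` are orthogonal to all gradients. -/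
theorem HD_div (u : HD D) {q : En d → ℝ} (hq : Smo q) (hc : HasCompactSupport q) :
    ⟪(u : L2E d), cl (gd q)⟫ = 0 := by
  rw [inner_cl (u : L2E d) (hq.gd.continuous.memLp_of_hasCompactSupport (spC_hcs hc))]
  exact spC_divC1 u (hq.of_le (by exact_mod_cast le_top)) hc

/-- The same without compact support of `q` (multiply `q` by a cut-off which is one near `D`). -/
theorem HD_div' (hD : Bornology.IsBounded D) (u : HD D) {q : En d → ℝ} (hq : Smo q) :
    ∫ x, ⟪((u : L2E d) : En d → En d) x, gd q x⟫ = 0 := by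
  obtain ⟨r, hr⟩ := hD.subset_ball (0 : En d)
  have hr' : D ⊆ Metric.ball (0 : En d) (max r 1) := hr.trans (Metric.ball_subset_ball (le_max_left _ _))
  have r1 : 0 < max r 1 := lt_max_of_lt_right one_pos
  let χ : ContDiffBump (0 : En d) := ⟨max r 1, max r 1 + 1, r1, by linarith⟩
  have hχ : Smo fun x => χ x * q x := ContDiff.mul χ.contDiff hq
  have hχc : HasCompactSupport fun x => χ x * q x := χ.hasCompactSupport.mul_right
  have h1 := spC_divC1 u (hχ.of_le (by exact_mod_cast le_top)) hχc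
  rw [← h1]
  refine integral_congr_ae ?_
  filter_upwards [HD_supp u] with x hx
  by_cases hxD : x ∈ D
  · have h2 : (fun y => χ y * q y) =ᶠ[𝓝 x] q := by
      filter_upwards [χ.eventuallyEq_one_of_mem_ball (hr' hxD)] with y hy
      rw [hy]
      exact one_mul _
    have h3 : gd (fun y => χ y * q y) x = gd q x := by
      ext i
      show fderiv ℝ (fun y => χ y * q y) x (ei i) = fderiv ℝ q x (ei i)
      rw [h2.fderiv_eq]
    rw [h3]
  · rw [hx hxD, inner_zero_left, inner_zero_left]

/-- The same for `q` of class `C^1` (for a test field `φ` integrate by parts, `div φ = 0`; then density). -/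
theorem HD_divC1 (u : HD D) {q : En d → ℝ} (hq : ContDiff ℝ 1 q) (hc : HasCompactSupport q) :
    ∫ x, ⟪((u : L2E d) : En d → En d) x, gd q x⟫ = 0 := by
  exact spC_divC1 u hq hc

private theorem spC_sum (s : Finset (Fin d)) (f : Fin d → Lp ℝ 2 (volume : Measure (En d))) :
    ∀ᵐ x, (∑ i ∈ s, f i : Lp ℝ 2 (volume : Measure (En d))) x = ∑ i ∈ s, f i x := by
  classical
  induction s using Finset.induction_on with
  | empty =>
    filter_upwards [Lp.coeFn_zero (E := ℝ) (p := 2) (μ := (volume : Measure (En d)))] with x hx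
    rw [Finset.sum_empty, Finset.sum_empty]
    exact hx
  | insert a s ha ih =>
    filter_upwards [Lp.coeFn_add (f a) (∑ i ∈ s, f i), ih] with x h1 h2
    rw [Finset.sum_insert ha, Finset.sum_insert ha, h1, Pi.add_apply, h2]

/-- The divergence of `v ∈ V` vanishes. -/
theorem VD_div (v : VD D) : ∀ᵐ x, ∑ i, (gi v i : En d → En d) x i = 0 := by
  let T : Fin d → L2E d →L[ℝ] Lp ℝ 2 (volume : Measure (En d)) := fun i =>
    (EuclideanSpace.proj i : En d →L[ℝ] ℝ).compLpL 2 volume
  have hT : ∀ (g : G2E d), ∀ᵐ x, (∑ i, T i (g i) : Lp ℝ 2 (volume : Measure (En d))) x =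
      ∑ i, (g i : En d → En d) x i := by
    intro g
    have h1 : ∀ᵐ x, ∀ i, (T i (g i) : Lp ℝ 2 (volume : Measure (En d))) x = (g i : En d → En d) x i :=
      ae_all_iff.2 fun i => ContinuousLinearMap.coeFn_compLpL (EuclideanSpace.proj i : En d →L[ℝ] ℝ) (g i)
    filter_upwards [h1, spC_sum Finset.univ fun i => T i (g i)] with x h2 h3
    rw [h3]
    exact Finset.sum_congr rfl fun i _ => h2 i
  have hcl : IsClosed {g : G2E d | (∑ i, T i (g i) : Lp ℝ 2 (volume : Measure (En d))) = 0} := by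
    refine isClosed_eq ?_ continuous_const
    refine continuous_finsetSum _ fun i _ => ?_
    exact (T i).continuous.comp (PiLp.proj (𝕜 := ℝ) 2 (fun _ : Fin d => L2E d) i).continuous
  have hsub : (LinearMap.range (grT D) : Set (G2E d)) ⊆
      {g : G2E d | (∑ i, T i (g i) : Lp ℝ 2 (volume : Measure (En d))) = 0} := by
    rintro _ ⟨φ, rfl⟩
    refine (Lp.eq_zero_iff_ae_eq_zero (f := _)).2 ?_
    have h1 : ∀ᵐ x, ∀ i, ((grT D φ) i : En d → En d) x = pd i (φ : En d → En d) x :=
      ae_all_iff.2 fun i => cl_coe (((TS.ts φ).toIsTe.pd i).memLp 2)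
    filter_upwards [hT (grT D φ), h1] with x h2 h3
    rw [h2]
    simp only [h3]
    exact (TS.ts φ).div x
  have h4 : (∑ i, T i ((v : G2E d) i) : Lp ℝ 2 (volume : Measure (En d))) = 0 :=
    closure_minimal hsub hcl v.2
  filter_upwards [hT (v : G2E d), (Lp.eq_zero_iff_ae_eq_zero (f := _)).1 h4] with x h5 h6
  exact h5.symm.trans h6

private theorem spC_tsm {D' : Set (En d)} (h : D ⊆ D') {φ : En d → En d} (hφ : IsTs D φ) :
    IsTs D' φ :=
  ⟨⟨hφ.smooth, hφ.cpt, hφ.supp.trans h⟩, hφ.div⟩

/-- monotonicity in `D` -/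
theorem HD_mono {D' : Set (En d)} (h : D ⊆ D') : HD D ≤ HD D' := by
  refine Submodule.topologicalClosure_mono ?_
  rintro _ ⟨φ, rfl⟩
  exact ⟨⟨(φ : En d → En d), spC_tsm h (TS.ts φ)⟩, rfl⟩

theorem VD_mono {D' : Set (En d)} (h : D ⊆ D') : VD D ≤ VD D' := by
  refine Submodule.topologicalClosure_mono ?_
  rintro _ ⟨φ, rfl⟩
  exact ⟨⟨(φ : En d → En d), spC_tsm h (TS.ts φ)⟩, rfl⟩

/-- An element of `L²` belongs to `HD D` if it is orthogonal to all elements orthogonal to the test fields. -/
theorem mem_HD_iff (u : L2E d) : u ∈ HD D ↔ ∀ w : L2E d, (∀ φ : TS D, ⟪w, cl (φ : En d → En d)⟫ = 0) → ⟪w, u⟫ = 0 := by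
  unfold HD
  rw [← Submodule.orthogonal_orthogonal_eq_closure, Submodule.mem_orthogonal]
  constructor
  · intro h w hw
    refine h w ?_
    rw [Submodule.mem_orthogonal]
    rintro _ ⟨φ, rfl⟩
    rw [real_inner_comm]
    exact hw φ
  · intro h w hw
    refine h w fun φ => ?_
    rw [Submodule.mem_orthogonal] at hw
    rw [real_inner_comm]
    exact hw _ ⟨φ, rfl⟩

/-- The orthogonal projection onto `HD D` (Leray projection) -/
noncomputable def PD (D : Set (En d)) : L2E d →L[ℝ] HD D := (HD D).orthogonalProjectionOnto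

theorem inner_PD (f : L2E d) (u : HD D) : ⟪PD D f, u⟫ = ⟪f, (u : L2E d)⟫ := by
  exact (HD D).inner_orthogonalProjectionOnto_eq_of_mem_right u f

theorem PD_le (f : L2E d) : ‖PD D f‖ ≤ ‖f‖ := by
  exact (HD D).norm_orthogonalProjectionOnto_apply_le f

theorem PD_coe (u : HD D) : PD D (u : L2E d) = u := by
  exact (HD D).orthogonalProjectionOnto_mem_subspace_eq_self u

/-- The projection kills gradients. -/
theorem PD_gd {q : En d → ℝ} (hq : Smo q) (hc : HasCompactSupport q) : PD D (cl (gd q)) = 0 := by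
  have h1 := inner_PD (cl (gd q)) (PD D (cl (gd q)))
  rw [real_inner_comm _ (cl (gd q)), HD_div _ hq hc] at h1
  exact inner_self_eq_zero.1 h1

end

end Pool.Agent.Lib.MP_79abb3_an.W
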