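import Pool.Agent.Lib.MP_79abb3_an.W.SpF1

/-!
Theorem W, block A: the form `b(u,v,w) = ∫ (u·∇)v·w` on `V(D)`.
-/

set_option autoImplicit false
set_option linter.unusedSectionVars false

open MeasureTheory Set Filter Topology Function
open scoped ENNReal RealInnerProductSpace

namespace Pool.Agent.Lib.MP_79abb3_an.W

section
variable {d : ℕ} {D : Set (En d)}

/-- (`tri` composed with `j4` in the first and third argument) -/
theorem exists_bV (D : Set (En d)) : ∃ b : VD D →L[ℝ] VD D →L[ℝ] VD D →L[ℝ] ℝ, ∀ u v w : VD D,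
    b u v w = tri d (j4 D u) (v : G2E d) (j4 D w) := by
  let P : (Z4 d →L[ℝ] ℝ) →L[ℝ] (VD D →L[ℝ] ℝ) := (j4 D).precomp ℝ
  let Q : (G2E d →L[ℝ] Z4 d →L[ℝ] ℝ) →L[ℝ] (VD D →L[ℝ] Z4 d →L[ℝ] ℝ) :=
    (VD D).subtypeL.precomp (Z4 d →L[ℝ] ℝ)
  let R : (VD D →L[ℝ] Z4 d →L[ℝ] ℝ) →L[ℝ] (VD D →L[ℝ] VD D →L[ℝ] ℝ) := P.postcomp (VD D)
  exact ⟨R.comp (Q.comp ((tri d).comp (j4 D))), fun u v w => rfl⟩

/-- `b(u,v,w) = ∫ (u·∇)v·w` -/
noncomputable def bV (D : Set (En d)) : VD D →L[ℝ] VD D →L[ℝ] VD D →L[ℝ] ℝ := (exists_bV D).choose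

theorem bV_apply (u v w : VD D) : bV D u v w = tri d (j4 D u) (v : G2E d) (j4 D w) :=
  (exists_bV D).choose_spec u v w

/-- in terms of the fields -/
theorem bV_int (hd : d = 2 ∨ d = 3) (hD : Bornology.IsBounded D) (u v w : VD D) :
    bV D u v w = ∑ i, ∫ x, (((io D u : HD D) : L2E d) : En d → En d) x i *
      ⟪(gi v i : En d → En d) x, (((io D w : HD D) : L2E d) : En d → En d) x⟫ := by
  rw [bV_apply, tri_apply]
  refine Finset.sum_congr rfl fun i _ => integral_congr_ae ?_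
  filter_upwards [j4_ae hd hD u, j4_ae hd hD w] with x h1 h2
  rw [h1, h2]
  rfl

theorem bV_anti (hd : d = 2 ∨ d = 3) (hD : Bornology.IsBounded D) (u v w : VD D) : bV D u v w = -bV D u w v := by
  have h1 : dz D (j4 D u : En d → En d) := fun q hq =>
    j4_dz hd hD u q ⟨hq.smooth, hq.cpt, subset_univ _⟩
  rw [bV_apply, bV_apply]
  exact tri_anti hd hD h1 v w

theorem bV_skew (hd : d = 2 ∨ d = 3) (hD : Bornology.IsBounded D) (u v : VD D) : bV D u v v = 0 := by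
  have h := bV_anti hd hD u v v
  linarith

/-- the Leray bound, exponents `(1/4, 3/4)` -/
theorem bV_le (hd : d = 2 ∨ d = 3) (hD : Bornology.IsBounded D) : ∃ C : ℝ, 0 ≤ C ∧ ∀ u v w : VD D,
    |bV D u v w| ≤ C * (‖io D u‖ ^ (1 / 4 : ℝ) * ‖u‖ ^ (3 / 4 : ℝ)) * ‖v‖ *
      (‖io D w‖ ^ (1 / 4 : ℝ) * ‖w‖ ^ (3 / 4 : ℝ)) := by
  obtain ⟨C, hC, h⟩ := j4_le' hd hD
  refine ⟨C * C, by positivity, fun u v w => ?_⟩
  rw [bV_apply]
  refine (tri_le _ _ _).trans ?_
  have e : ‖(v : G2E d)‖ = ‖v‖ := rfl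
  rw [e]
  have h1 := h u
  have h2 := h w
  set U := ‖io D u‖ ^ (1 / 4 : ℝ) * ‖u‖ ^ (3 / 4 : ℝ) with hU
  set W := ‖io D w‖ ^ (1 / 4 : ℝ) * ‖w‖ ^ (3 / 4 : ℝ) with hW
  have hU0 : 0 ≤ U := by positivity
  have hW0 : 0 ≤ W := by positivity
  calc ‖j4 D u‖ * ‖v‖ * ‖j4 D w‖ ≤ (C * U) * ‖v‖ * (C * W) := by gcongr
    _ = C * C * U * ‖v‖ * W := by ring

private theorem spF2_int (u v : L2E d) {ψ : En d → En d} (hψ : Continuous ψ) (hc : HasCompactSupport ψ)
    (i : Fin d) : Integrable fun x => (u : En d → En d) x i * ⟪ψ x, (v : En d → En d) x⟫ := by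
  obtain ⟨C, hC⟩ := hψ.bounded_above_of_compact_support hc
  have hu := Lp.memLp u
  have hui : AEStronglyMeasurable (fun x => (u : En d → En d) x i) volume :=
    (EuclideanSpace.proj i : En d →L[ℝ] ℝ).continuous.comp_aestronglyMeasurable hu.1
  have hf : MemLp (fun x => (u : En d → En d) x i • ψ x) 2 (volume : Measure (En d)) := by
    refine hu.of_le_mul (c := C) (hui.smul hψ.aestronglyMeasurable) (Eventually.of_forall fun x => ?_)
    rw [norm_smul, mul_comm]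
    exact mul_le_mul (hC x) (PiLp.norm_apply_le _ _) (norm_nonneg _) ((norm_nonneg _).trans (hC x))
  refine (L2.integrable_inner (𝕜 := ℝ) (cl fun x => (u : En d → En d) x i • ψ x) v).congr ?_
  filter_upwards [cl_coe hf] with x hx
  rw [hx, real_inner_smul_left]

/-- tested with a smooth field: `b(u,v,φ) = -∫ ⟪v, Dφ(x) u⟫` -/
theorem bV_test (hd : d = 2 ∨ d = 3) (hD : Bornology.IsBounded D) (u v : VD D) (φ : TS D) :
    bV D u v (vT D φ) = -∫ x, ⟪(((io D v : HD D) : L2E d) : En d → En d) x,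
      fderiv ℝ (φ : En d → En d) x ((((io D u : HD D) : L2E d) : En d → En d) x)⟫ := by
  rw [bV_anti hd hD, bV_int hd hD]
  congr 1
  have hi : ∀ i : Fin d, Integrable fun x => (((io D u : HD D) : L2E d) : En d → En d) x i *
      ⟪pd i (φ : En d → En d) x, (((io D v : HD D) : L2E d) : En d → En d) x⟫ := fun i =>
    spF2_int _ _ ((TS.ts φ).toIsTe.pd i).smooth.continuous ((TS.ts φ).toIsTe.pd i).cpt i
  have e1 : ∀ i : Fin d, ∫ x, (((io D u : HD D) : L2E d) : En d → En d) x i *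
      ⟪(gi (vT D φ) i : En d → En d) x, (((io D v : HD D) : L2E d) : En d → En d) x⟫ =
      ∫ x, (((io D u : HD D) : L2E d) : En d → En d) x i *
      ⟪pd i (φ : En d → En d) x, (((io D v : HD D) : L2E d) : En d → En d) x⟫ := fun i => by
    refine integral_congr_ae ?_
    have h0 := cl_coe (((TS.ts φ).toIsTe.pd i).memLp 2)
    rw [← gi_vT] at h0
    filter_upwards [h0] with x hx
    rw [hx]
  rw [Finset.sum_congr rfl fun i _ => e1 i, ← integral_finsetSum _ fun i _ => hi i]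
  refine integral_congr_ae (Eventually.of_forall fun x => ?_)
  show ∑ i, (((io D u : HD D) : L2E d) : En d → En d) x i *
      ⟪pd i (φ : En d → En d) x, (((io D v : HD D) : L2E d) : En d → En d) x⟫ =
    ⟪(((io D v : HD D) : L2E d) : En d → En d) x,
      fderiv ℝ (φ : En d → En d) x ((((io D u : HD D) : L2E d) : En d → En d) x)⟫
  rw [fderiv_eq_sum, inner_sum]
  refine Finset.sum_congr rfl fun i _ => ?_
  rw [real_inner_smul_right, real_inner_comm (pd i (φ : En d → En d) x)]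

end

end Pool.Agent.Lib.MP_79abb3_an.W
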