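import Pool.Agent.Lib.MP_79abb3_an.W.SpDef
import Pool.Agent.Lib.MP_79abb3_an.W.P0b2
import Pool.Agent.Lib.MP_79abb3_an.W.SpB2
import Pool.Agent.Lib.MP_79abb3_an.W.SpB
import Pool.Agent.Lib.MP_79abb3_an.W.SpC
import Pool.Agent.Lib.MP_79abb3_an.WG.Def
import Pool.Agent.Lib.MP_79abb3_an.WG.LapA
import Pool.Agent.Lib.MP_79abb3_an.PD.AbFD
import Pool.Agent.Lib.MP_79abb3_an.W.SpF2
import Pool.Agent.Lib.MP_79abb3_an.W.TrDef
import Pool.Agent.Lib.MP_79abb3_an.SC.ExR
import Pool.Agent.Lib.MP_79abb3_an.W.NDef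
import Pool.Agent.Lib.MP_79abb3_an.W.HF3
import Pool.Agent.Lib.MP_79abb3_an.W.SpA2
import Pool.Agent.Lib.MP_79abb3_an.WG.Geo

section

/-!
Theorem W, block G: the layer Poincaré inequality for the test fields of `D` (hypothesis, supplied by block H).
-/

set_option autoImplicit false
set_option linter.unusedSectionVars false

open MeasureTheory Set Filter Topology Metric

namespace Pool.Agent.Lib.MP_79abb3_an.WG

/-- Poincaré inequality in the layer of width `ρ`, for divergence free test fields. -/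
def LayerP {d : ℕ} (D : Set (W.En d)) (CP ρ0 : ℝ) : Prop :=
  ∀ ρ, 0 ≤ ρ → ρ ≤ ρ0 → ∀ φ : W.TS D,
    ∫ x in {x | x ∈ D ∧ infDist x Dᶜ < ρ}, ‖(φ : W.En d → W.En d) x‖ ^ 2 ≤
      CP * ρ ^ 2 * ‖W.vT D φ‖ ^ 2

end Pool.Agent.Lib.MP_79abb3_an.WG
end

section

/-!
Theorem W (MP_79abb3_an), Phase 0: properties of the lift `L(t) = ∑_k σ_k(t) Y_k`.
-/

set_option autoImplicit false
set_option linter.unusedSectionVars false

open MeasureTheory Set Filter Topology Function
open scoped ENNReal RealInnerProductSpace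

namespace Pool.Agent.Lib.MP_79abb3_an.W

variable {d : ℕ} {Ω W : Set (En d)} {u₀ : En d → En d} {Y : ℕ → En d → En d} {ω τ : ℕ → ℝ}

private theorem p0b5_sg (τ : ℕ → ℝ) (k : ℕ) (t : ℝ) : HasDerivAt (sg τ k) (deriv (sg τ k) t) t := by
  have h1 : Differentiable ℝ (sgt (τ (k + 1)) (τ k)) := (sgt_smooth _ _).differentiable (by norm_num)
  exact (h1 t).hasDerivAt

/-- JOB P0-b6. The time derivative. -/
theorem P0Seq.lft_deriv (h : P0Seq Ω W u₀ Y ω τ) {t : ℝ} (ht : 0 < t) (x : En d) :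
    HasDerivAt (fun s => lft Y τ s x) (lfd Y τ t x) t := by
  obtain ⟨n, hn⟩ := h.exists_n (half_pos ht)
  have hnt : τ n < t := hn.trans_lt (half_lt_self ht)
  rw [h.lfd_sum hnt.le]
  have h1 : HasDerivAt (fun s => ∑ k ∈ Finset.range n, sg τ k s • Y k x)
      (∑ k ∈ Finset.range n, deriv (sg τ k) t • Y k x) t :=
    HasDerivAt.fun_sum fun k _ => (p0b5_sg τ k t).smul_const (Y k x)
  refine h1.congr_of_eventuallyEq ?_
  filter_upwards [lt_mem_nhds hnt] with s hs
  exact h.lft_sum hs.le x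

/-- the bound of the time derivative in `L²(Ω)` -/
theorem P0Seq.lfd_le (h : P0Seq Ω W u₀ Y ω τ) {t : ℝ} (ht : 0 < t) :
    eLpNorm (lfd Y τ t) 2 (volume.restrict Ω) ≤ ENNReal.ofReal (lbd ω τ t) := by
  obtain ⟨n, hn⟩ := h.exists_n ht
  have h1 : lfd Y τ t = ∑ k ∈ Finset.range n, deriv (sg τ k) t • Y k := by
    ext1 x
    rw [h.lfd_sum hn, Finset.sum_apply]
    rfl
  have h2 : lbd ω τ t = ∑ k ∈ Finset.range n, |deriv (sg τ k) t| * ω k := by
    refine tsum_eq_sum fun k hk => ?_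
    have h3 : n ≤ k := not_lt.1 fun hkn => hk (Finset.mem_range.2 hkn)
    have h4 : deriv (sg τ k) t = 0 :=
      sgt_deriv_zero (h.τa (Nat.lt_succ_self k)) (Or.inr ((h.τa.antitone h3).trans hn))
    rw [h4, abs_zero, zero_mul]
  rw [h1, h2, ENNReal.ofReal_sum_of_nonneg fun k _ => mul_nonneg (abs_nonneg _) (h.ω0 k)]
  refine (eLpNorm_sum_le (fun k _ => ?_) (by norm_num)).trans (Finset.sum_le_sum fun k _ => ?_)
  · exact ((h.smo k).continuous.const_smul _).aestronglyMeasurable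
  · rw [eLpNorm_const_smul, ENNReal.ofReal_mul (abs_nonneg _), ← Real.norm_eq_abs, ofReal_norm]
    gcongr
    exact h.nrm k

end Pool.Agent.Lib.MP_79abb3_an.W
end

section

/-!
Theorem W (MP_79abb3_an), Phase 0: properties of the lift `L(t) = ∑_k σ_k(t) Y_k`.
-/

set_option autoImplicit false
set_option linter.unusedSectionVars false

open MeasureTheory Set Filter Topology Function
open scoped ENNReal RealInnerProductSpace

namespace Pool.Agent.Lib.MP_79abb3_an.W

variable {d : ℕ} {Ω W : Set (En d)} {u₀ : En d → En d} {Y : ℕ → En d → En d} {ω τ : ℕ → ℝ}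

private theorem p0_term_nonneg (h : P0Seq Ω W u₀ Y ω τ) (k : ℕ) (t : ℝ) :
    0 ≤ |deriv (sg τ k) t| * ω k := mul_nonneg (abs_nonneg _) (h.ω0 k)

private theorem p0_term_summable (h : P0Seq Ω W u₀ Y ω τ) (t : ℝ) :
    Summable fun k => |deriv (sg τ k) t| * ω k := by
  rcases lt_or_ge 0 t with ht | ht
  · obtain ⟨n, hn⟩ := h.exists_n ht
    refine summable_of_ne_finset_zero (s := Finset.range n) fun k hk => ?_
    have hk' : n ≤ k := not_lt.1 fun hkn => hk (Finset.mem_range.2 hkn)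
    have h1 : deriv (sg τ k) t = 0 :=
      sgt_deriv_zero (h.τa (Nat.lt_succ_self k)) (Or.inr ((h.τa.antitone hk').trans hn))
    rw [h1, abs_zero, zero_mul]
  · have h2 : (fun k => |deriv (sg τ k) t| * ω k) = fun _ => 0 := by
      funext k
      have h1 : deriv (sg τ k) t = 0 :=
        sgt_deriv_zero (h.τa (Nat.lt_succ_self k)) (Or.inl (ht.trans (h.τ0 _).le))
      rw [h1, abs_zero, zero_mul]
    rw [h2]
    exact summable_zero

private theorem p0_term_integrable (h : P0Seq Ω W u₀ Y ω τ) (k : ℕ) :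
    Integrable fun t => |deriv (sg τ k) t| * ω k :=
  (sgt_deriv_integrable (h.τa (Nat.lt_succ_self k))).mul_const _

private theorem p0_term_integral (h : P0Seq Ω W u₀ Y ω τ) (k : ℕ) :
    ∫ t, |deriv (sg τ k) t| * ω k = ω k := by
  have h1 : ∫ t, |deriv (sg τ k) t| = 1 := sgt_deriv_integral (h.τa (Nat.lt_succ_self k))
  rw [integral_mul_const, h1, one_mul]

/-- JOB P0-b7. `lbd` is integrable (`∑ ∫ |σ_k'| ω_k = ∑ ω_k < ∞`; `integrable_tsum` type argument, or by
`lintegral_tsum`) and nonnegative. -/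
theorem P0Seq.lbd_integrable (h : P0Seq Ω W u₀ Y ω τ) : Integrable (lbd ω τ) := by
  have hlim : Tendsto (fun (n : ℕ) (t : ℝ) => ∑ k ∈ Finset.range n, |deriv (sg τ k) t| * ω k) atTop
      (𝓝 (lbd ω τ)) := by
    rw [tendsto_pi_nhds]
    intro t
    exact (p0_term_summable h t).hasSum.tendsto_sum_nat
  have hmeas : AEStronglyMeasurable (lbd ω τ) volume := by
    refine aestronglyMeasurable_of_tendsto_ae atTop
      (f := fun (n : ℕ) (t : ℝ) => ∑ k ∈ Finset.range n, |deriv (sg τ k) t| * ω k) (fun n => ?_)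
      (Eventually.of_forall fun t => (tendsto_pi_nhds.1 hlim) t)
    exact (integrable_finsetSum _ fun k _ => p0_term_integrable h k).aestronglyMeasurable
  refine ⟨hmeas, ?_⟩
  have h1 : ∀ t, ‖lbd ω τ t‖ₑ = ∑' k, ENNReal.ofReal (|deriv (sg τ k) t| * ω k) := by
    intro t
    rw [← ENNReal.ofReal_tsum_of_nonneg (fun k => p0_term_nonneg h k t) (p0_term_summable h t)]
    exact Real.enorm_of_nonneg (tsum_nonneg fun k => p0_term_nonneg h k t)
  have h2 : ∫⁻ t, ‖lbd ω τ t‖ₑ = ENNReal.ofReal (∑' k, ω k) := by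
    simp only [h1]
    rw [lintegral_tsum fun k => (p0_term_integrable h k).aestronglyMeasurable.aemeasurable.ennreal_ofReal,
      ENNReal.ofReal_tsum_of_nonneg h.ω0 h.ωs]
    congr 1
    funext k
    rw [← ofReal_integral_eq_lintegral_ofReal (p0_term_integrable h k)
      (Eventually.of_forall fun t => p0_term_nonneg h k t), p0_term_integral h k]
  show ∫⁻ t, ‖lbd ω τ t‖ₑ < ⊤
  rw [h2]
  exact ENNReal.ofReal_lt_top

theorem P0Seq.lbd_nonneg (h : P0Seq Ω W u₀ Y ω τ) (t : ℝ) : 0 ≤ lbd ω τ t :=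
  tsum_nonneg fun k => p0_term_nonneg h k t

end Pool.Agent.Lib.MP_79abb3_an.W
end

section

/-!
Theorem W, block G: the layer Poincaré inequality on `VD D` and for `K g`.
-/

set_option autoImplicit false
set_option linter.unusedSectionVars false

open MeasureTheory Set Filter Topology Metric
open scoped ContDiff InnerProductSpace

namespace Pool.Agent.Lib.MP_79abb3_an.WG

section
variable {d : ℕ} {D : Set (W.En d)}

private theorem specB_norm (A : Set (W.En d)) (u : W.L2E d) :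
    ∫ x in A, ‖(u : W.En d → W.En d) x‖ ^ 2 =
      ‖LpToLpRestrictCLM (W.En d) (W.En d) ℝ volume 2 A u‖ ^ 2 := by
  have h1 := LpToLpRestrictCLM_coeFn (p := 2) ℝ A u
  rw [← real_inner_self_eq_norm_sq, L2.inner_def]
  refine integral_congr_ae ?_
  filter_upwards [h1] with x hx
  rw [hx, real_inner_self_eq_norm_sq]

/-- PROOF: `v = lim vT φ_n` (`W.vT_dense`), `io (vT φ_n) = hT φ_n → io v` in `L²` (`W.io_vT`); the set integral of
the square of the norm is continuous on `L²`. -/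
theorem layer_VD (hD : Bornology.IsBounded D) {CP ρ0 : ℝ} (hL : LayerP D CP ρ0) (v : W.VD D) {ρ : ℝ}
    (h0 : 0 ≤ ρ) (h1 : ρ ≤ ρ0) :
    ∫ x in {x | x ∈ D ∧ infDist x Dᶜ < ρ}, ‖((W.io D v : W.L2E d) : W.En d → W.En d) x‖ ^ 2 ≤
      CP * ρ ^ 2 * ‖v‖ ^ 2 := by
  obtain ⟨φ, hφ1, hφ2⟩ := W.exists_seq hD v
  set A : Set (W.En d) := {x | x ∈ D ∧ infDist x Dᶜ < ρ} with hA
  rw [specB_norm]
  have hc : Continuous fun u : W.HD D =>
      ‖LpToLpRestrictCLM (W.En d) (W.En d) ℝ volume 2 A (u : W.L2E d)‖ ^ 2 :=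
    (((LpToLpRestrictCLM (W.En d) (W.En d) ℝ volume 2 A).continuous.comp
      continuous_subtype_val).norm).pow 2
  have ht1 : Tendsto (fun n => ‖LpToLpRestrictCLM (W.En d) (W.En d) ℝ volume 2 A
      ((W.hT D (φ n) : W.HD D) : W.L2E d)‖ ^ 2) atTop
      (𝓝 (‖LpToLpRestrictCLM (W.En d) (W.En d) ℝ volume 2 A ((W.io D v : W.HD D) : W.L2E d)‖ ^ 2)) :=
    (hc.tendsto _).comp hφ2
  have ht2 : Tendsto (fun n => CP * ρ ^ 2 * ‖W.vT D (φ n)‖ ^ 2) atTop
      (𝓝 (CP * ρ ^ 2 * ‖v‖ ^ 2)) := ((hφ1.norm).pow 2).const_mul _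
  refine le_of_tendsto_of_tendsto' ht1 ht2 fun n => ?_
  refine le_trans (le_of_eq ?_) (hL ρ h0 h1 (φ n))
  rw [← specB_norm, W.hT_coe]
  have h2 := W.cl_coe ((W.TS.ts (φ n)).memLp 2)
  refine integral_congr_ae ?_
  filter_upwards [ae_restrict_of_ae h2] with x hx
  rw [hx]

/-- PROOF: `layer_VD` for `v = (io D)† g`, `‖v‖² = ⟪g, io v⟫ ≤ ‖g‖ ‖io v‖`. -/
theorem layer_K (hD : Bornology.IsBounded D) {CP ρ0 : ℝ} (hCP : 0 ≤ CP) (hL : LayerP D CP ρ0)
    (g : W.HD D) {ρ : ℝ} (h0 : 0 ≤ ρ) (h1 : ρ ≤ ρ0) :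
    ∫ x in {x | x ∈ D ∧ infDist x Dᶜ < ρ},
        ‖((W.io D (ContinuousLinearMap.adjoint (W.io D) g) : W.L2E d) : W.En d → W.En d) x‖ ^ 2 ≤
      CP * ρ ^ 2 * (‖g‖ * ‖W.io D (ContinuousLinearMap.adjoint (W.io D) g)‖) := by
  refine (layer_VD hD hL (ContinuousLinearMap.adjoint (W.io D) g) h0 h1).trans ?_
  refine mul_le_mul_of_nonneg_left ?_ (by positivity)
  rw [← real_inner_self_eq_norm_sq, ContinuousLinearMap.adjoint_inner_left]
  exact real_inner_le_norm _ _

end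

end Pool.Agent.Lib.MP_79abb3_an.WG
end

section

/-!
Theorem W, block G: the components of `u = K g` satisfy `Δ (Δ u_i + g_i) = 0` in the sense of distributions.
-/

set_option autoImplicit false
set_option linter.unusedSectionVars false

open MeasureTheory Set Filter Topology Metric Laplacian
open scoped ContDiff InnerProductSpace

namespace Pool.Agent.Lib.MP_79abb3_an.WG

section
variable {d : ℕ} {D : Set (W.En d)}

/-- The Laplacian of Mathlib and the one of block A. PROOF: `lap_eq_sum` with `EuclideanSpace.basisFun`. -/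
theorem lap_eq {ψ : W.En d → ℝ} (h : W.Smo ψ) : Δ ψ = W.lap ψ := by
  funext x
  rw [lap_eq_sum (EuclideanSpace.basisFun (Fin d) ℝ) (ContDiff.of_le h (WithTop.coe_le_coe.2 (le_top : (2 : ℕ∞) ≤ ⊤))) x]
  refine Finset.sum_congr rfl fun i _ => ?_
  rw [EuclideanSpace.basisFun_apply]
  rfl

section
variable {F : Type} [NormedAddCommGroup F] [NormedSpace ℝ F]

private theorem specA_sum {ι : Type} (s : Finset ι) {f : ι → W.En d → F} (h : ∀ j, W.Smo (f j)) (i : Fin d) :
    W.pd i (fun x => ∑ j ∈ s, f j x) = fun x => ∑ j ∈ s, W.pd i (f j) x := by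
  funext x
  show fderiv ℝ (fun x => ∑ j ∈ s, f j x) x (W.ei i) = _
  rw [fderiv_fun_sum fun j _ => (h j).differentiable x]
  rw [sum_apply]
  rfl

private theorem specA_sub {f g : W.En d → F} (hf : W.Smo f) (hg : W.Smo g) (i : Fin d) :
    W.pd i (fun x => f x - g x) = fun x => W.pd i f x - W.pd i g x := by
  funext x
  show fderiv ℝ (fun x => f x - g x) x (W.ei i) = _
  rw [fderiv_fun_sub (hf.differentiable x) (hg.differentiable x)]
  rfl

private theorem specA_smulr {a : W.En d → ℝ} (ha : W.Smo a) (c : F) (i : Fin d) :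
    W.pd i (fun x => a x • c) = fun x => W.pd i a x • c := by
  funext x
  show fderiv ℝ (fun x => a x • c) x (W.ei i) = _
  rw [fderiv_smul_const (ha.differentiable x)]
  rfl

end

private theorem specA_comm {ψ : W.En d → ℝ} (h : W.Smo ψ) (i : Fin d) :
    W.pd i (W.lap ψ) = W.lap (W.pd i ψ) := by
  funext x
  have h1 := specA_sum Finset.univ (f := fun j => W.pd j (W.pd j ψ)) (fun j => (h.pd j).pd j) i
  have h2 : W.pd i (W.lap ψ) x = ∑ j, W.pd i (W.pd j (W.pd j ψ)) x := congrFun h1 x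
  rw [h2]
  refine Finset.sum_congr rfl fun j _ => ?_
  rw [W.pd_comm (h.pd j) i j x]
  have h3 : W.pd i (W.pd j ψ) = W.pd j (W.pd i ψ) := funext fun y => W.pd_comm h i j y
  rw [h3]

private theorem specA_te {a : W.En d → ℝ} (h : W.IsTe D a) (c : W.En d) : W.IsTe D fun x => a x • c :=
  ⟨ContDiff.smul h.smooth contDiff_const, h.cpt.smul_right, (tsupport_smul_subset_left a _).trans h.supp⟩

private theorem specA_tesub {f g : W.En d → W.En d} (hf : W.IsTe D f) (hg : W.IsTe D g) :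
    W.IsTe D fun x => f x - g x := by
  have h1 := hf.add (hg.smul (-1))
  have h2 : (fun x => f x + (-1 : ℝ) • g x) = fun x => f x - g x := by
    funext x
    rw [neg_one_smul, sub_eq_add_neg]
  rwa [h2] at h1

/-- The divergence free test field `(Δψ) e_i - ∇ ∂_i ψ`. PROOF: `div ((Δψ) e_i) = ∂_i Δψ = Δ ∂_i ψ = div ∇ ∂_i ψ`
(`W.pd_comm`). -/
theorem comp_test {ψ : W.En d → ℝ} (h : W.IsTe D ψ) (i : Fin d) :
    W.IsTs D (fun x => W.lap ψ x • W.ei i - W.gd (W.pd i ψ) x) := by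
  have hT : W.IsTe D (fun x => W.lap ψ x • W.ei i - W.gd (W.pd i ψ) x) :=
    specA_tesub (specA_te h.lap _) (h.pd i).gd
  refine ⟨hT, fun x => ?_⟩
  show ∑ j, W.pd j (fun x => W.lap ψ x • W.ei i - W.gd (W.pd i ψ) x) x j = 0
  have h1 : ∀ j, W.pd j (fun x => W.lap ψ x • W.ei i - W.gd (W.pd i ψ) x) x j =
      W.pd j (W.lap ψ) x * (if j = i then 1 else 0) - W.pd j (W.pd j (W.pd i ψ)) x := by
    intro j
    rw [← W.pd_apply hT.smooth j j x]
    have h2 : (fun x => (W.lap ψ x • W.ei i - W.gd (W.pd i ψ) x : W.En d) j) =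
        fun x => W.lap ψ x • (if j = i then (1 : ℝ) else 0) - W.pd j (W.pd i ψ) x := by
      funext y
      rw [PiLp.sub_apply, PiLp.smul_apply, W.gd_apply]
      unfold W.ei
      rw [PiLp.single_apply]
    rw [h2, specA_sub ?_ ((h.smooth.pd i).pd j) j, specA_smulr h.smooth.lap]
    · rfl
    · exact ContDiff.smul h.smooth.lap contDiff_const
  simp only [h1, Finset.sum_sub_distrib, mul_ite, mul_one, mul_zero, Finset.sum_ite_eq', Finset.mem_univ, if_true]
  rw [specA_comm h.smooth i]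
  exact sub_self _

/-- PROOF: for `v = W.vT D χ` integrate by parts (`W.ibp`): `∑_j ∫ ⟪∂_j χ, ∂_j φ⟫ = - ∫ ⟪χ, Δφ⟫`; both sides
are continuous in `v` (`W.vT_dense`, `W.io_vT`). -/
theorem inner_vT (hD : Bornology.IsBounded D) (v : W.VD D) (φ : W.TS D) :
    ⟪v, W.vT D φ⟫_ℝ =
      - ∫ x, ⟪((W.io D v : W.L2E d) : W.En d → W.En d) x, W.lap (φ : W.En d → W.En d) x⟫_ℝ := by
  have hl : W.IsTe D (W.lap (φ : W.En d → W.En d)) := (W.TS.ts φ).toIsTe.lap
  rw [← W.inner_cl (W.io D v : W.L2E d) (hl.memLp 2)]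
  refine (W.vT_dense D).induction_on (p := fun v => ⟪v, W.vT D φ⟫_ℝ =
    - ⟪(W.io D v : W.L2E d), W.cl (W.lap (φ : W.En d → W.En d))⟫_ℝ) v ?_ ?_
  · refine isClosed_eq (continuous_id.inner continuous_const) ?_
    exact ((continuous_subtype_val.comp (W.io D).continuous).inner continuous_const).neg
  · intro χ
    have hχ : W.IsTe D (χ : W.En d → W.En d) := (W.TS.ts χ).toIsTe
    have hφ : W.IsTe D (φ : W.En d → W.En d) := (W.TS.ts φ).toIsTe
    rw [W.io_vT hD χ, W.inner_gi, W.hT_coe, W.cl_inner (hχ.memLp 2) (hl.memLp 2)]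
    have h1 : ∀ j, ⟪W.gi (W.vT D χ) j, W.gi (W.vT D φ) j⟫_ℝ =
        - ∫ x, ⟪(χ : W.En d → W.En d) x, W.pd j (W.pd j (φ : W.En d → W.En d)) x⟫_ℝ := by
      intro j
      rw [W.gi_vT, W.gi_vT, W.cl_inner ((hχ.pd j).memLp 2) ((hφ.pd j).memLp 2)]
      exact W.ibp hχ.smooth (hφ.smooth.pd j) (Or.inl hχ.cpt) j
    rw [Finset.sum_congr rfl fun j _ => h1 j, Finset.sum_neg_distrib]
    congr 1
    rw [← integral_finsetSum]
    · refine integral_congr_ae (Eventually.of_forall fun x => ?_)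
      show ∑ j, ⟪(χ : W.En d → W.En d) x, W.pd j (W.pd j (φ : W.En d → W.En d)) x⟫_ℝ =
        ⟪(χ : W.En d → W.En d) x, ∑ j, W.pd j (W.pd j (φ : W.En d → W.En d)) x⟫_ℝ
      rw [inner_sum]
    · intro j _
      refine Continuous.integrable_of_hasCompactSupport
        (hχ.smooth.continuous.inner ((hφ.smooth.pd j).pd j).continuous) ?_
      refine hχ.cpt.mono' fun x hx => subset_tsupport _ ?_
      intro h0
      apply hx
      show ⟪(χ : W.En d → W.En d) x, W.pd j (W.pd j (φ : W.En d → W.En d)) x⟫_ℝ = 0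
      rw [h0, inner_zero_left]

private theorem specA_pair (w : W.HD D) {a : W.En d → ℝ} (ha : W.IsTe D a) {q : W.En d → ℝ}
    (hq : W.IsTe D q) (i : Fin d) :
    ∫ x, ⟪((w : W.L2E d) : W.En d → W.En d) x, a x • W.ei i - W.gd q x⟫_ℝ =
      ∫ x, ((w : W.L2E d) : W.En d → W.En d) x i * a x := by
  have h1 : W.IsTe D fun x => a x • W.ei i := specA_te ha _
  have h2 : W.IsTe D (W.gd q) := hq.gd
  rw [← W.inner_cl (w : W.L2E d) ((specA_tesub h1 h2).memLp 2)]
  have h3 : (fun x => a x • W.ei i - W.gd q x) = fun x => a x • W.ei i + (-1 : ℝ) • W.gd q x := by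
    funext x
    rw [neg_one_smul, sub_eq_add_neg]
  rw [h3, W.cl_add (h1.memLp 2) ((h2.smul (-1)).memLp 2), W.cl_smul (-1) (h2.memLp 2), inner_add_right,
    real_inner_smul_right, W.HD_div w hq.smooth hq.cpt, mul_zero, add_zero,
    W.inner_cl (w : W.L2E d) (h1.memLp 2)]
  refine integral_congr_ae (Eventually.of_forall fun x => ?_)
  show ⟪((w : W.L2E d) : W.En d → W.En d) x, a x • W.ei i⟫_ℝ = _
  rw [real_inner_smul_right, mul_comm]
  congr 1
  unfold W.ei
  rw [EuclideanSpace.inner_single_right]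
  simp

/-- PROOF. With `v = (io D)† g`, `u = io D v`, `φ = (Δψ) e_i - ∇∂_iψ` (`comp_test`): `⟪v, vT φ⟫ = ⟪g, io (vT φ)⟫ =
⟪g, hT φ⟫ = ∫ g·φ = ∫ g_i Δψ` (`W.HD_div` for `q = ∂_i ψ`), and by `inner_vT` `⟪v, vT φ⟫ = - ∫ u·Δφ = - ∫ u_i ΔΔψ`
(`Δφ = (ΔΔψ) e_i - ∇ ∂_i Δψ`, `W.HD_div` for `q = ∂_i Δψ`). -/
theorem comp_eq (hD : Bornology.IsBounded D) (g : W.HD D) (i : Fin d) {ψ : W.En d → ℝ} (h : IsTe D ψ) :
    ∫ x, ((W.io D (ContinuousLinearMap.adjoint (W.io D) g) : W.L2E d) : W.En d → W.En d) x i *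
        Δ (Δ ψ) x =
      - ∫ x, ((g : W.L2E d) : W.En d → W.En d) x i * Δ ψ x := by
  have hψ : W.IsTe D ψ := ⟨h.smooth, h.cpt, h.sub⟩
  have hΔ : W.IsTe D (W.lap ψ) := hψ.lap
  rw [lap_eq hψ.smooth, lap_eq hΔ.smooth]
  set v : W.VD D := ContinuousLinearMap.adjoint (W.io D) g with hv
  let φ : W.TS D := ⟨fun x => W.lap ψ x • W.ei i - W.gd (W.pd i ψ) x, comp_test hψ i⟩
  have hφ : (φ : W.En d → W.En d) = fun x => W.lap ψ x • W.ei i - W.gd (W.pd i ψ) x := rfl
  have h1 : ⟪v, W.vT D φ⟫_ℝ = ∫ x, ((g : W.L2E d) : W.En d → W.En d) x i * W.lap ψ x := by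
    rw [hv, ContinuousLinearMap.adjoint_inner_left, W.io_vT hD φ, Submodule.coe_inner, W.hT_coe,
      W.inner_cl (g : W.L2E d) ((W.TS.ts φ).memLp 2), hφ]
    exact specA_pair g hΔ (hψ.pd i) i
  have h2 : W.lap (φ : W.En d → W.En d) =
      fun x => W.lap (W.lap ψ) x • W.ei i - W.gd (W.pd i (W.lap ψ)) x := by
    rw [hφ]
    have hs1 : W.Smo fun x => W.lap ψ x • W.ei i := (specA_te hΔ (W.ei i)).smooth
    have hs2 : W.Smo (W.gd (W.pd i ψ)) := (hψ.pd i).gd.smooth
    have h3 : ∀ j, W.pd j (W.pd j fun x => W.lap ψ x • W.ei i - W.gd (W.pd i ψ) x) =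
        fun x => W.pd j (W.pd j (W.lap ψ)) x • W.ei i - W.pd j (W.pd j (W.gd (W.pd i ψ))) x := by
      intro j
      rw [specA_sub hs1 hs2 j, specA_smulr hΔ.smooth (W.ei i) j,
        specA_sub ((specA_te (hΔ.pd j) (W.ei i)).smooth) (hs2.pd j) j, specA_smulr (hΔ.smooth.pd j) (W.ei i) j]
    funext x
    have h4 : W.lap (fun x => W.lap ψ x • W.ei i - W.gd (W.pd i ψ) x) x =
        ∑ j, (W.pd j (W.pd j (W.lap ψ)) x • W.ei i - W.pd j (W.pd j (W.gd (W.pd i ψ))) x) :=
      Finset.sum_congr rfl fun j _ => congrFun (h3 j) x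
    rw [h4, Finset.sum_sub_distrib, ← Finset.sum_smul]
    congr 1
    ext k
    rw [W.gd_apply]
    have h5 : ∀ j, W.pd j (W.pd j (W.gd (W.pd i ψ))) x k = W.pd j (W.pd j (W.pd k (W.pd i ψ))) x := by
      intro j
      rw [← W.pd_apply (hs2.pd j) j k x]
      congr 1
      funext y
      rw [← W.pd_apply hs2 j k y]
      rfl
    have h6 : (∑ j, W.pd j (W.pd j (W.gd (W.pd i ψ))) x : W.En d) k =
        ∑ j, W.pd j (W.pd j (W.gd (W.pd i ψ))) x k := by
      simp
    rw [h6, Finset.sum_congr rfl fun j _ => h5 j]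
    have h7 : W.pd k (W.pd i (W.lap ψ)) = W.lap (W.pd k (W.pd i ψ)) := by
      rw [specA_comm hψ.smooth i, specA_comm (hψ.smooth.pd i) k]
    rw [h7]
    rfl
  have h8 := inner_vT hD v φ
  rw [h1, h2, specA_pair (W.io D v) hΔ.lap (hΔ.pd i) i] at h8
  rw [h8, neg_neg]

end

end Pool.Agent.Lib.MP_79abb3_an.WG
end

section

/-!
Theorem W (MP_79abb3_an), Phase 0: the operator and the source of the lift, continuity in time and bounds.
-/

set_option autoImplicit false
set_option linter.unusedSectionVars false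

open MeasureTheory Set Filter Topology Function
open scoped ENNReal RealInnerProductSpace

namespace Pool.Agent.Lib.MP_79abb3_an.W

variable {d : ℕ} {Ω W : Set (En d)} {u₀ : En d → En d} {Y : ℕ → En d → En d} {ω τ : ℕ → ℝ}

private theorem p0d4_cs {f : En d → En d} (hf : Continuous f) (c : ℝ) : Continuous fun x => c • f x :=
  hf.const_smul c

private theorem p0d4_cd {f g : En d → En d} (hf : Continuous f) (hg : Continuous g) :
    Continuous fun x => f x - g x := hf.sub hg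

private theorem p0d4_q_zero (D : Set (En d)) (hDo : IsOpen D) (hD : Bornology.IsBounded D) :
    clD D (fun _ : En d => (0 : En d)) = 0 := by
  have h1 := clD_smul hDo hD 0 (f := fun _ : En d => (0 : En d)) continuous_const
  rw [zero_smul] at h1
  simpa using h1

private theorem p0d4_q_sum {D : Set (En d)} (hDo : IsOpen D) (hD : Bornology.IsBounded D) (c : ℕ → ℝ)
    {f : ℕ → En d → En d} (hf : ∀ k, Continuous (f k)) (n : ℕ) :
    clD D (fun x => ∑ k ∈ Finset.range n, c k • f k x) = ∑ k ∈ Finset.range n, c k • clD D (f k) := by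
  induction n with
  | zero =>
    simp only [Finset.range_zero, Finset.sum_empty]
    exact p0d4_q_zero D hDo hD
  | succ n ih =>
    have h1 : (fun x : En d => ∑ k ∈ Finset.range (n + 1), c k • f k x) =
        fun x => (∑ k ∈ Finset.range n, c k • f k x) + c n • f n x := by
      funext x
      rw [Finset.sum_range_succ]
    rw [h1, clD_add hDo hD (continuous_finsetSum _ fun k _ => p0d4_cs (hf k) (c k))
      (p0d4_cs (hf n) (c n)), ih, clD_smul hDo hD (c n) (hf n), Finset.sum_range_succ]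

private theorem p0d4_q_sub {D : Set (En d)} (hDo : IsOpen D) (hD : Bornology.IsBounded D)
    {f g : En d → En d} (hf : Continuous f) (hg : Continuous g) :
    clD D (fun x => f x - g x) = clD D f - clD D g := by
  have h1 : (fun x => f x - g x) = fun x => f x + (-1 : ℝ) • g x := by
    funext x
    rw [neg_one_smul, sub_eq_add_neg]
  rw [h1, clD_add hDo hD hf (p0d4_cs hg (-1 : ℝ)), clD_smul hDo hD (-1) hg, neg_one_smul,
    sub_eq_add_neg]

private theorem p0d4_fderiv (h : P0Seq Ω W u₀ Y ω τ) (c : ℕ → ℝ) (n : ℕ) (x : En d) :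
    fderiv ℝ (fun x => ∑ k ∈ Finset.range n, c k • Y k x) x = ∑ k ∈ Finset.range n, c k • fderiv ℝ (Y k) x := by
  have h1 : HasFDerivAt (fun x => ∑ k ∈ Finset.range n, c k • Y k x)
      (∑ k ∈ Finset.range n, c k • fderiv ℝ (Y k) x) x :=
    HasFDerivAt.fun_sum fun k _ => ((h.smo k).differentiable x).hasFDerivAt.const_smul (c k)
  exact h1.fderiv

private theorem p0d4_pd (c : ℕ → ℝ) {Z : ℕ → En d → En d} (hZ : ∀ k, Smo (Z k)) (n : ℕ) (i : Fin d) :
    pd i (fun x => ∑ k ∈ Finset.range n, c k • Z k x) = fun x => ∑ k ∈ Finset.range n, c k • pd i (Z k) x := by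
  ext1 x
  have h1 : HasFDerivAt (fun x => ∑ k ∈ Finset.range n, c k • Z k x)
      (∑ k ∈ Finset.range n, c k • fderiv ℝ (Z k) x) x :=
    HasFDerivAt.fun_sum fun k _ => ((hZ k).differentiable x).hasFDerivAt.const_smul (c k)
  show fderiv ℝ (fun x => ∑ k ∈ Finset.range n, c k • Z k x) x (ei i) = _
  rw [h1.fderiv, _root_.sum_apply]
  rfl

private theorem p0d4_lap (h : P0Seq Ω W u₀ Y ω τ) (c : ℕ → ℝ) (n : ℕ) (x : En d) :
    lap (fun x => ∑ k ∈ Finset.range n, c k • Y k x) x = ∑ k ∈ Finset.range n, c k • lap (Y k) x := by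
  show ∑ i, pd i (pd i (fun x => ∑ k ∈ Finset.range n, c k • Y k x)) x = _
  have h1 : ∀ i, pd i (pd i (fun x => ∑ k ∈ Finset.range n, c k • Y k x)) x =
      ∑ k ∈ Finset.range n, c k • pd i (pd i (Y k)) x := fun i => by
    rw [p0d4_pd c h.smo, p0d4_pd c (fun k => (h.smo k).pd i)]
  rw [Finset.sum_congr rfl fun i _ => h1 i, Finset.sum_comm]
  refine Finset.sum_congr rfl fun k _ => ?_
  rw [← Finset.smul_sum]
  rfl

private theorem p0d4_lap_cont {f : En d → En d} (hf : Smo f) : Continuous (lap f) := by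
  have h1 : Continuous fun x => ∑ i, pd i (pd i f) x :=
    continuous_finsetSum _ fun i _ => ((hf.pd i).pd i).continuous
  exact h1

private theorem p0d4_tr_cont {f g : En d → En d} (hf : Smo f) (hg : Smo g) :
    Continuous fun x => fderiv ℝ f x (g x) := by
  have h1 : ContDiff ℝ ((⊤ : ℕ∞) : WithTop ℕ∞) (fderiv ℝ f) :=
    ContDiff.fderiv_right hf (by exact_mod_cast le_top)
  exact h1.continuous.clm_apply hg.continuous

private theorem p0d4_formula (h : P0Seq Ω W u₀ Y ω τ) (hΩo : IsOpen Ω) (hΩ : Bornology.IsBounded Ω)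
    {n : ℕ} {t : ℝ} (ht : τ n ≤ t) :
    gl Ω Y τ t = ∑ k ∈ Finset.range n, sg τ k t • PD Ω (clD Ω (lap (Y k))) -
      ∑ k ∈ Finset.range n, deriv (sg τ k) t • PD Ω (clD Ω (Y k)) -
      ∑ j ∈ Finset.range n, sg τ j t • ∑ k ∈ Finset.range n, sg τ k t •
        PD Ω (clD Ω fun x => fderiv ℝ (Y j) x (Y k x)) := by
  have e1 : lft Y τ t = fun x => ∑ k ∈ Finset.range n, sg τ k t • Y k x := funext fun x => h.lft_sum ht x
  have e2 : lfd Y τ t = fun x => ∑ k ∈ Finset.range n, deriv (sg τ k) t • Y k x :=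
    funext fun x => h.lfd_sum ht x
  have e3 : (fun x => lap (lft Y τ t) x - lfd Y τ t x - fderiv ℝ (lft Y τ t) x (lft Y τ t x)) =
      fun x => (∑ k ∈ Finset.range n, sg τ k t • lap (Y k) x -
        ∑ k ∈ Finset.range n, deriv (sg τ k) t • Y k x) -
        ∑ j ∈ Finset.range n, sg τ j t • ∑ k ∈ Finset.range n, sg τ k t • fderiv ℝ (Y j) x (Y k x) := by
    funext x
    rw [e1, e2]
    simp only
    rw [p0d4_lap h, p0d4_fderiv h, _root_.sum_apply]
    congr 1
    refine Finset.sum_congr rfl fun j _ => ?_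
    rw [smul_apply, map_sum]
    congr 1
    refine Finset.sum_congr rfl fun k _ => ?_
    rw [map_smul]
  have c1 : Continuous fun x => ∑ k ∈ Finset.range n, sg τ k t • lap (Y k) x :=
    continuous_finsetSum _ fun k _ => p0d4_cs (p0d4_lap_cont (h.smo k)) _
  have c2 : Continuous fun x => ∑ k ∈ Finset.range n, deriv (sg τ k) t • Y k x :=
    continuous_finsetSum _ fun k _ => p0d4_cs (h.smo k).continuous _
  have c3 : ∀ j, Continuous fun x => ∑ k ∈ Finset.range n, sg τ k t • fderiv ℝ (Y j) x (Y k x) := fun j =>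
    continuous_finsetSum _ fun k _ => p0d4_cs (p0d4_tr_cont (h.smo j) (h.smo k)) _
  have c4 : Continuous fun x => ∑ j ∈ Finset.range n, sg τ j t • ∑ k ∈ Finset.range n, sg τ k t •
      fderiv ℝ (Y j) x (Y k x) :=
    continuous_finsetSum _ fun j _ => p0d4_cs (c3 j) _
  show PD Ω (clD Ω fun x => lap (lft Y τ t) x - lfd Y τ t x - fderiv ℝ (lft Y τ t) x (lft Y τ t x)) = _
  rw [e3, p0d4_q_sub hΩo hΩ (p0d4_cd c1 c2) c4, p0d4_q_sub hΩo hΩ c1 c2,
    p0d4_q_sum hΩo hΩ (fun k => sg τ k t) (fun k => p0d4_lap_cont (h.smo k)),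
    p0d4_q_sum hΩo hΩ (fun k => deriv (sg τ k) t) (fun k => (h.smo k).continuous),
    p0d4_q_sum hΩo hΩ (fun k => sg τ k t) c3, map_sub, map_sub, map_sum, map_sum, map_sum]
  congr 1
  · congr 1
    · exact Finset.sum_congr rfl fun k _ => map_smul _ _ _
    · exact Finset.sum_congr rfl fun k _ => map_smul _ _ _
  · refine Finset.sum_congr rfl fun j _ => ?_
    rw [map_smul, p0d4_q_sum hΩo hΩ (fun k => sg τ k t) (fun k => p0d4_tr_cont (h.smo j) (h.smo k)), map_sum]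
    congr 1
    exact Finset.sum_congr rfl fun k _ => map_smul _ _ _

/-- the same: `gl t = ∑ σ_k q(ΔY_k) - ∑ σ_k' q(Y_k) - ∑∑ σ_j σ_k q(DY_j Y_k)` with `q f = PD (clD f)`. -/
theorem P0Seq.gl_cont (h : P0Seq Ω W u₀ Y ω τ) (hΩo : IsOpen Ω) (hΩ : Bornology.IsBounded Ω) :
    ContinuousOn (gl Ω Y τ) (Ioi 0) := by
  intro t ht
  obtain ⟨n, hn⟩ := h.exists_n (half_pos (mem_Ioi.1 ht))
  have hnt : τ n < t := hn.trans_lt (half_lt_self (mem_Ioi.1 ht))
  have h1 : (fun s => ∑ k ∈ Finset.range n, sg τ k s • PD Ω (clD Ω (lap (Y k))) -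
      ∑ k ∈ Finset.range n, deriv (sg τ k) s • PD Ω (clD Ω (Y k)) -
      ∑ j ∈ Finset.range n, sg τ j s • ∑ k ∈ Finset.range n, sg τ k s •
        PD Ω (clD Ω fun x => fderiv ℝ (Y j) x (Y k x))) =ᶠ[𝓝 t] gl Ω Y τ := by
    filter_upwards [lt_mem_nhds hnt] with s hs
    rw [p0d4_formula h hΩo hΩ hs.le]
  have c1 : ∀ k, Continuous (sg τ k) := fun k => (sgt_smooth (τ (k + 1)) (τ k)).continuous
  have c2 : ∀ k, Continuous (deriv (sg τ k)) := fun k =>
    (sgt_smooth (τ (k + 1)) (τ k)).continuous_deriv (by norm_num)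
  have h2 : Continuous (fun s => ∑ k ∈ Finset.range n, sg τ k s • PD Ω (clD Ω (lap (Y k))) -
      ∑ k ∈ Finset.range n, deriv (sg τ k) s • PD Ω (clD Ω (Y k)) -
      ∑ j ∈ Finset.range n, sg τ j s • ∑ k ∈ Finset.range n, sg τ k s •
        PD Ω (clD Ω fun x => fderiv ℝ (Y j) x (Y k x))) := by
    refine Continuous.sub (Continuous.sub ?_ ?_) ?_
    · exact continuous_finsetSum _ fun k _ => (c1 k).smul continuous_const
    · exact continuous_finsetSum _ fun k _ => (c2 k).smul continuous_const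
    · exact continuous_finsetSum _ fun j _ => (c1 j).smul
        (continuous_finsetSum _ fun k _ => (c1 k).smul continuous_const)
  exact (h2.continuousAt.congr h1).continuousWithinAt

/-- `‖gl t‖ ≤ lbd t + K (t^(-1/8) + t^(-1/4)) ≤ lbd t + 2 K t^(-1/4)` for `t ≤ 1` (`clD_le`, `lfd_le`, `clD_le_sup`, `lft_le`,
`PD_le`); here `τ 0 ≤ 1`. -/
theorem P0Seq.gl_le (h : P0Seq Ω W u₀ Y ω τ) (hΩo : IsOpen Ω) (hΩ : Bornology.IsBounded Ω) (h1 : τ 0 ≤ 1) :
    ∃ K : ℝ, 0 ≤ K ∧ ∀ t : ℝ, 0 < t → t ≤ τ 0 → ‖gl Ω Y τ t‖ ≤ lbd ω τ t + K * t ^ (-(1 / 4 : ℝ)) := by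
  obtain ⟨K, hK0, hK⟩ := clD_le_sup (D := Ω) hΩo hΩ
  refine ⟨K * 2, by positivity, fun t ht ht' => ?_⟩
  have hs := h.lft_smo ht
  have c1 : Continuous (lap (lft Y τ t)) := p0d4_lap_cont hs
  have c2 : Continuous (lfd Y τ t) := (h.lfd_smo ht).continuous
  have c3 : Continuous fun x => fderiv ℝ (lft Y τ t) x (lft Y τ t x) := p0d4_tr_cont hs hs
  have e1 : gl Ω Y τ t = PD Ω (clD Ω (fun x => lap (lft Y τ t) x - fderiv ℝ (lft Y τ t) x (lft Y τ t x)) -
      clD Ω (lfd Y τ t)) := by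
    show PD Ω (clD Ω fun x => lap (lft Y τ t) x - lfd Y τ t x - fderiv ℝ (lft Y τ t) x (lft Y τ t x)) = _
    rw [p0d4_q_sub hΩo hΩ (p0d4_cd c1 c2) c3, p0d4_q_sub hΩo hΩ c1 c2, p0d4_q_sub hΩo hΩ c1 c3]
    congr 1
    abel
  have h4 : t ^ (-(1 / 8 : ℝ)) * t ^ (-(1 / 8 : ℝ)) = t ^ (-(1 / 4 : ℝ)) := by
    rw [← Real.rpow_add ht]
    norm_num
  have h5 : t ^ (-(1 / 8 : ℝ)) ≤ t ^ (-(1 / 4 : ℝ)) :=
    Real.rpow_le_rpow_of_exponent_ge ht (ht'.trans h1) (by norm_num)
  have h0 : 0 ≤ t ^ (-(1 / 8 : ℝ)) := Real.rpow_nonneg ht.le _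
  have h6 : ∀ x, ‖lap (lft Y τ t) x - fderiv ℝ (lft Y τ t) x (lft Y τ t x)‖ ≤ 2 * t ^ (-(1 / 4 : ℝ)) := by
    intro x
    have h7 := h.lft_le ht ht' x
    have n1 := norm_nonneg (lft Y τ t x)
    have n2 := norm_nonneg (fderiv ℝ (lft Y τ t) x)
    have n3 := norm_nonneg (lap (lft Y τ t) x)
    have h8 : ‖fderiv ℝ (lft Y τ t) x (lft Y τ t x)‖ ≤ t ^ (-(1 / 8 : ℝ)) * t ^ (-(1 / 8 : ℝ)) :=
      ((fderiv ℝ (lft Y τ t) x).le_opNorm _).trans
        (mul_le_mul (by linarith) (by linarith) n1 h0)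
    refine (norm_sub_le _ _).trans ?_
    rw [h4] at h8
    linarith
  have h9 : ‖clD Ω (fun x => lap (lft Y τ t) x - fderiv ℝ (lft Y τ t) x (lft Y τ t x))‖ ≤
      K * (2 * t ^ (-(1 / 4 : ℝ))) := hK (p0d4_cd c1 c3) h6
  have h10 : ‖clD Ω (lfd Y τ t)‖ ≤ lbd ω τ t := clD_le hΩo hΩ c2 (h.lbd_nonneg t) (h.lfd_le ht)
  rw [e1]
  refine (PD_le _).trans ((norm_sub_le _ _).trans ?_)
  linarith

end Pool.Agent.Lib.MP_79abb3_an.W
end

section

/-!
Theorem W (MP_79abb3_an), Phase 0: the equation of the sum of the background and the solution, tested at a fixed time.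
-/

set_option autoImplicit false
set_option linter.unusedSectionVars false

open MeasureTheory Set Filter Topology Function
open scoped ENNReal RealInnerProductSpace

namespace Pool.Agent.Lib.MP_79abb3_an.W

variable {d : ℕ} {D : Set (En d)}

private theorem p0g2_hr {f g : En d → En d} (hg : HasCompactSupport g) : HasCompactSupport fun x => ⟪f x, g x⟫ := by
  refine hg.mono' fun x hx => subset_tsupport _ fun h0 => hx ?_
  show ⟪f x, g x⟫ = 0
  rw [h0, inner_zero_right]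

private theorem p0g2_fc {g : En d → En d} (hg : HasCompactSupport g) (f : En d → En d) :
    HasCompactSupport fun x => fderiv ℝ g x (f x) := by
  refine (hg.fderiv ℝ).mono' fun x hx => subset_tsupport _ fun h0 => hx ?_
  show fderiv ℝ g x (f x) = 0
  rw [h0]
  rfl

private theorem p0g2_cf {f : En d → En d} (hf : Smo f) : Continuous (fderiv ℝ f) :=
  hf.continuous_fderiv (by norm_num)

private theorem p0g2_int (v : L2E d) {ψ : En d → En d} (hψ : Continuous ψ) (hc : HasCompactSupport ψ) :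
    Integrable fun x => ⟪(v : En d → En d) x, ψ x⟫ := by
  have h1 : MemLp ψ 2 (volume : Measure (En d)) := hψ.memLp_of_hasCompactSupport hc
  have h2 := L2.integrable_inner (𝕜 := ℝ) v (cl ψ)
  refine h2.congr ?_
  filter_upwards [cl_coe h1] with x hx
  rw [hx]

private theorem p0g2_adj {A : En d → En d →L[ℝ] En d} (hA : Continuous A) {ψ : En d → En d} (hψ : Continuous ψ) :
    Continuous fun x => ContinuousLinearMap.adjoint (A x) (ψ x) :=
  ((ContinuousLinearMap.adjoint (𝕜 := ℝ) (E := En d) (F := En d)).continuous.comp hA).clm_apply hψ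

/-- `⟪A v, ψ⟫` is integrable for continuous `A`, `ψ` and compact support of `ψ` -/
private theorem p0g2_int2 (v : L2E d) {A : En d → En d →L[ℝ] En d} (hA : Continuous A) {ψ : En d → En d}
    (hψ : Continuous ψ) (hc : HasCompactSupport fun x => ContinuousLinearMap.adjoint (A x) (ψ x)) :
    Integrable fun x => ⟪ψ x, A x ((v : En d → En d) x)⟫ := by
  refine (p0g2_int v (p0g2_adj hA hψ) hc).congr (Eventually.of_forall fun x => ?_)
  show ⟪(v : En d → En d) x, ContinuousLinearMap.adjoint (A x) (ψ x)⟫ = ⟪ψ x, A x ((v : En d → En d) x)⟫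
  rw [ContinuousLinearMap.adjoint_inner_right, real_inner_comm]

/-- the product rule, applied to a vector -/
private theorem p0g2_prod {L φ : En d → En d} (hL : Smo L) (hφ : Smo φ) (x y : En d) :
    ∑ i, y i * pd i (fun x => ⟪L x, φ x⟫) x = ⟪fderiv ℝ L x y, φ x⟫ + ⟪L x, fderiv ℝ φ x y⟫ := by
  rw [fderiv_eq_sum L x y, fderiv_eq_sum φ x y, sum_inner, inner_sum, ← Finset.sum_add_distrib]
  refine Finset.sum_congr rfl fun i _ => ?_
  rw [pd_inner hL hφ, real_inner_smul_left, real_inner_smul_right, mul_add]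

private theorem p0g2_zero (φ : TS D) {x : En d} (hx : x ∉ D) : (φ : En d → En d) x = 0 := by
  by_contra h1
  exact hx ((TS.ts φ).supp (subset_tsupport _ h1))

private theorem p0g2_zero' (φ : TS D) {x : En d} (hx : x ∉ D) : fderiv ℝ (φ : En d → En d) x = 0 := by
  by_contra h1
  exact hx ((TS.ts φ).supp (support_fderiv_subset ℝ h1))

/-- the scalar product of `1_D f` with a test field -/
private theorem p0g2_clD (hDo : IsOpen D) (hD : Bornology.IsBounded D) {f : En d → En d} (hf : Continuous f)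
    {ψ : En d → En d} (hψ : IsTe D ψ) : ⟪clD D f, cl ψ⟫ = ∫ x, ⟪f x, ψ x⟫ := by
  rw [show clD D f = cl (D.indicator f) from rfl, cl_inner (clD_memLp hDo hD hf) (hψ.memLp 2)]
  refine integral_congr_ae (Eventually.of_forall fun x => ?_)
  show ⟪D.indicator f x, ψ x⟫ = ⟪f x, ψ x⟫
  by_cases hx : x ∈ D
  · rw [indicator_of_mem hx]
  · have h1 : ψ x = 0 := by
      by_contra h1
      exact hx (hψ.supp (subset_tsupport _ h1))
    rw [h1, inner_zero_right, inner_zero_right]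

/-- `∫ ⟪(L·∇)L, φ⟫ = -∫ ⟪L, (L·∇)φ⟫` if `div L = 0` on the support of `φ` (`∑ ∂_i (L_i ⟪L, φ⟫) = ∑ L_i ∂_i ⟪L, φ⟫`, `integral_pd`) -/
theorem p0_LL {L : En d → En d} (hL : Smo L) (h : ∀ x ∈ D, dv L x = 0) (φ : TS D) :
    ∫ x, ⟪fderiv ℝ L x (L x), (φ : En d → En d) x⟫ = -∫ x, ⟪L x, fderiv ℝ (φ : En d → En d) x (L x)⟫ := by
  have hφ := (TS.ts φ).smooth
  have hφc := (TS.ts φ).cpt
  have hq : Smo fun x => ⟪L x, (φ : En d → En d) x⟫ := hL.inner hφ
  have hqc : HasCompactSupport fun x => ⟪L x, (φ : En d → En d) x⟫ := p0g2_hr hφc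
  have hLi : ∀ i, Smo fun x => L x i := fun i => contDiff_euclidean.1 hL i
  have hF : ∀ i, ∫ x, pd i (fun x => L x i) x * ⟪L x, (φ : En d → En d) x⟫ =
      -∫ x, L x i * pd i (fun x => ⟪L x, (φ : En d → En d) x⟫) x := fun i => ibp_mul (hLi i) hq (Or.inr hqc) i
  have i1 : ∀ i, Integrable fun x => pd i (fun x => L x i) x * ⟪L x, (φ : En d → En d) x⟫ := fun i =>
    (((hLi i).pd i).continuous.mul hq.continuous).integrable_of_hasCompactSupport hqc.mul_left
  have i2 : ∀ i, Integrable fun x => L x i * pd i (fun x => ⟪L x, (φ : En d → En d) x⟫) x := fun i =>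
    ((hLi i).continuous.mul (hq.pd i).continuous).integrable_of_hasCompactSupport (hcs_pd hqc i).mul_left
  have h1 : ∫ x, ∑ i, pd i (fun x => L x i) x * ⟪L x, (φ : En d → En d) x⟫ =
      -∫ x, ∑ i, L x i * pd i (fun x => ⟪L x, (φ : En d → En d) x⟫) x := by
    rw [integral_finsetSum _ fun i _ => i1 i, integral_finsetSum _ fun i _ => i2 i, ← Finset.sum_neg_distrib]
    exact Finset.sum_congr rfl fun i _ => hF i
  have h2 : ∀ x, ∑ i, pd i (fun x => L x i) x * ⟪L x, (φ : En d → En d) x⟫ = 0 := by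
    intro x
    rw [← Finset.sum_mul]
    by_cases hx : x ∈ D
    · have h3 : ∑ i, pd i (fun x => L x i) x = dv L x := Finset.sum_congr rfl fun i _ => pd_apply hL i i x
      rw [h3, h x hx, zero_mul]
    · rw [p0g2_zero φ hx, inner_zero_right, mul_zero]
  simp only [h2, integral_zero, p0g2_prod hL hφ] at h1
  have i3 : Integrable fun x => ⟪fderiv ℝ L x (L x), (φ : En d → En d) x⟫ :=
    (((p0g2_cf hL).clm_apply hL.continuous).inner hφ.continuous).integrable_of_hasCompactSupport (p0g2_hr hφc)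
  have i4 : Integrable fun x => ⟪L x, fderiv ℝ (φ : En d → En d) x (L x)⟫ :=
    (hL.continuous.inner ((p0g2_cf hφ).clm_apply hL.continuous)).integrable_of_hasCompactSupport
      (p0g2_hr (p0g2_fc hφc L))
  rw [integral_add i3 i4] at h1
  linarith

/-- `∫ ⟪(v·∇)L, φ⟫ = -∫ ⟪L, (v·∇)φ⟫` for `v ∈ HD D` (`HD_div` with `q = ⟪L, φ⟫`) -/
theorem p0_vL (v : HD D) {L : En d → En d} (hL : Smo L) (φ : TS D) :
    ∫ x, ⟪fderiv ℝ L x (((v : L2E d) : En d → En d) x), (φ : En d → En d) x⟫ =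
      -∫ x, ⟪L x, fderiv ℝ (φ : En d → En d) x (((v : L2E d) : En d → En d) x)⟫ := by
  have hφ := (TS.ts φ).smooth
  have hφc := (TS.ts φ).cpt
  have hq : Smo fun x => ⟪L x, (φ : En d → En d) x⟫ := hL.inner hφ
  have hqc : HasCompactSupport fun x => ⟪L x, (φ : En d → En d) x⟫ := p0g2_hr hφc
  have hte : IsTe (univ : Set (En d)) fun x => ⟪L x, (φ : En d → En d) x⟫ := ⟨hq, hqc, subset_univ _⟩
  have h1 := HD_div v hq hqc
  rw [inner_cl _ (hte.gd.memLp 2)] at h1
  have h2 : ∀ x y : En d, ⟪y, gd (fun x => ⟪L x, (φ : En d → En d) x⟫) x⟫ =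
      ⟪fderiv ℝ L x y, (φ : En d → En d) x⟫ + ⟪L x, fderiv ℝ (φ : En d → En d) x y⟫ := by
    intro x y
    rw [real_inner_comm, inner_gd, fderiv_eq_sum, ← p0g2_prod hL hφ]
    rfl
  simp only [h2] at h1
  have i3 : Integrable fun x => ⟪fderiv ℝ L x (((v : L2E d) : En d → En d) x), (φ : En d → En d) x⟫ := by
    have hc : HasCompactSupport fun x => ContinuousLinearMap.adjoint (fderiv ℝ L x) ((φ : En d → En d) x) := by
      refine hφc.mono' fun x hx => subset_tsupport _ fun h0 => hx ?_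
      show ContinuousLinearMap.adjoint (fderiv ℝ L x) ((φ : En d → En d) x) = 0
      rw [h0, map_zero]
    refine (p0g2_int2 (v : L2E d) (p0g2_cf hL) hφ.continuous hc).congr (Eventually.of_forall fun x => ?_)
    exact real_inner_comm _ _
  have i4 : Integrable fun x => ⟪L x, fderiv ℝ (φ : En d → En d) x (((v : L2E d) : En d → En d) x)⟫ := by
    refine p0g2_int2 (v : L2E d) (p0g2_cf hφ) hL.continuous ?_
    refine (hφc.fderiv ℝ).mono' fun x hx => subset_tsupport _ fun h0 => hx ?_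
    show ContinuousLinearMap.adjoint (fderiv ℝ (φ : En d → En d) x) (L x) = 0
    rw [h0, map_zero]
    rfl
  rw [integral_add i3 i4] at h1
  linarith

/-- `∫ ⟪ΔL, φ⟫ = ∫ ⟪L, Δφ⟫` -/
theorem p0_lap {L : En d → En d} (hL : Smo L) (φ : TS D) :
    ∫ x, ⟪lap L x, (φ : En d → En d) x⟫ = ∫ x, ⟪L x, lap (φ : En d → En d) x⟫ := by
  have hφ := (TS.ts φ).toIsTe
  have i1 : ∀ i, Integrable fun x => ⟪pd i (pd i L) x, (φ : En d → En d) x⟫ := fun i =>
    (((hL.pd i).pd i).continuous.inner hφ.smooth.continuous).integrable_of_hasCompactSupport (p0g2_hr hφ.cpt)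
  have i2 : ∀ i, Integrable fun x => ⟪L x, pd i (pd i (φ : En d → En d)) x⟫ := fun i =>
    (hL.continuous.inner ((hφ.pd i).pd i).smooth.continuous).integrable_of_hasCompactSupport
      (p0g2_hr ((hφ.pd i).pd i).cpt)
  have e1 : ∀ x, ⟪lap L x, (φ : En d → En d) x⟫ = ∑ i, ⟪pd i (pd i L) x, (φ : En d → En d) x⟫ := fun x =>
    sum_inner _ _ _
  have e2 : ∀ x, ⟪L x, lap (φ : En d → En d) x⟫ = ∑ i, ⟪L x, pd i (pd i (φ : En d → En d)) x⟫ := fun x =>
    inner_sum _ _ _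
  simp only [e1, e2]
  rw [integral_finsetSum _ fun i _ => i1 i, integral_finsetSum _ fun i _ => i2 i]
  refine Finset.sum_congr rfl fun i _ => ?_
  rw [ibp (hL.pd i) hφ.smooth (Or.inr hφ.cpt) i, ibp hL (hφ.pd i).smooth (Or.inr (hφ.pd i).cpt) i, neg_neg]

/-- `quad` of the sum `1_D L + v`: `∫ ⟪L, Dφ L⟫ + ∫ ⟪v, Dφ L⟫ + ∫ ⟪L, Dφ v⟫ + ∫ ⟪v, Dφ v⟫` (all integrands vanish outside of the
support of `φ`, where `1_D L = L`) -/
theorem p0_quad (hDo : IsOpen D) (hD : Bornology.IsBounded D) {L : En d → En d} (hL : Smo L) (v : L2E d) (φ : TS D) :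
    quad (clD D L + v) (φ : En d → En d) =
      (∫ x, ⟪L x, fderiv ℝ (φ : En d → En d) x (L x)⟫) +
      (∫ x, ⟪(v : En d → En d) x, fderiv ℝ (φ : En d → En d) x (L x)⟫) +
      (∫ x, ⟪L x, fderiv ℝ (φ : En d → En d) x ((v : En d → En d) x)⟫) +
      ∫ x, ⟪(v : En d → En d) x, fderiv ℝ (φ : En d → En d) x ((v : En d → En d) x)⟫ := by
  have hφ := (TS.ts φ).smooth
  have hφc := (TS.ts φ).cpt
  have hca : ∀ f : En d → En d,
      HasCompactSupport fun x => ContinuousLinearMap.adjoint (fderiv ℝ (φ : En d → En d) x) (f x) := by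
    intro f
    refine (hφc.fderiv ℝ).mono' fun x hx => subset_tsupport _ fun h0 => hx ?_
    show ContinuousLinearMap.adjoint (fderiv ℝ (φ : En d → En d) x) (f x) = 0
    rw [h0, map_zero]
    rfl
  have i1 : Integrable fun x => ⟪L x, fderiv ℝ (φ : En d → En d) x (L x)⟫ :=
    (hL.continuous.inner ((p0g2_cf hφ).clm_apply hL.continuous)).integrable_of_hasCompactSupport
      (p0g2_hr (p0g2_fc hφc L))
  have i2 : Integrable fun x => ⟪(v : En d → En d) x, fderiv ℝ (φ : En d → En d) x (L x)⟫ :=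
    p0g2_int v ((p0g2_cf hφ).clm_apply hL.continuous) (p0g2_fc hφc L)
  have i3 : Integrable fun x => ⟪L x, fderiv ℝ (φ : En d → En d) x ((v : En d → En d) x)⟫ :=
    p0g2_int2 v (p0g2_cf hφ) hL.continuous (hca L)
  have i4 : Integrable fun x => ⟪(v : En d → En d) x, fderiv ℝ (φ : En d → En d) x ((v : En d → En d) x)⟫ := by
    obtain ⟨C, hC⟩ := (p0g2_cf hφ).bounded_above_of_compact_support (hφc.fderiv ℝ)
    have h1 : Integrable fun x => ‖(v : En d → En d) x‖ ^ 2 :=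
      (memLp_two_iff_integrable_sq_norm (Lp.memLp v).1).1 (Lp.memLp v)
    refine (h1.const_mul C).mono' ?_ (Eventually.of_forall fun x => ?_)
    · exact (Lp.memLp v).1.inner (isBoundedBilinearMap_apply.continuous.comp_aestronglyMeasurable
        ((p0g2_cf hφ).aestronglyMeasurable.prodMk (Lp.memLp v).1))
    · refine (abs_real_inner_le_norm _ _).trans ?_
      have h2 : ‖fderiv ℝ (φ : En d → En d) x ((v : En d → En d) x)‖ ≤ C * ‖(v : En d → En d) x‖ :=
        ((fderiv ℝ (φ : En d → En d) x).le_opNorm _).trans (mul_le_mul_of_nonneg_right (hC x) (norm_nonneg _))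
      nlinarith [norm_nonneg ((v : En d → En d) x)]
  have i12 : Integrable fun x => ⟪L x, fderiv ℝ (φ : En d → En d) x (L x)⟫ +
      ⟪(v : En d → En d) x, fderiv ℝ (φ : En d → En d) x (L x)⟫ := i1.add i2
  have i123 : Integrable fun x => ⟪L x, fderiv ℝ (φ : En d → En d) x (L x)⟫ +
      ⟪(v : En d → En d) x, fderiv ℝ (φ : En d → En d) x (L x)⟫ +
      ⟪L x, fderiv ℝ (φ : En d → En d) x ((v : En d → En d) x)⟫ := i12.add i3
  rw [← integral_add i1 i2, ← integral_add i12 i3, ← integral_add i123 i4]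
  refine integral_congr_ae ?_
  filter_upwards [Lp.coeFn_add (clD D L) v, cl_coe (clD_memLp hDo hD hL.continuous)] with x h1 h2
  have h3 : (clD D L : En d → En d) x = D.indicator L x := h2
  rw [h1, Pi.add_apply, h3]
  by_cases hx : x ∈ D
  · rw [indicator_of_mem hx, map_add, inner_add_left, inner_add_right, inner_add_right]
    ring
  · rw [p0g2_zero' φ hx]
    simp

/-- **The total equation at a fixed time.** Sum of `p0_LL`, `p0_vL`, `p0_lap`, `p0_quad`, `bgo_test`, `inner_PD_clD` (for `srcL`),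
`inner_vT_lap`, `bV_test`. -/
theorem p0_total (hd : d = 2 ∨ d = 3) (hDo : IsOpen D) (hD : Bornology.IsBounded D) {L L' : En d → En d} (hL : Smo L)
    (hc : HasCompactSupport L) (hL' : Smo L') (h : ∀ x ∈ D, dv L x = 0) (v : VD D) (φ : TS D) :
    ⟪clD D L', cl (φ : En d → En d)⟫ + (-(1 * ⟪v, vT D φ⟫) + ⟪srcL D L L' - bgo D L v, io D (vT D φ)⟫ -
        bV D v v (vT D φ)) =
      ⟪clD D L + ((io D v : HD D) : L2E d), cl (lap (φ : En d → En d))⟫ +
        quad (clD D L + ((io D v : HD D) : L2E d)) (φ : En d → En d) := by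
  have hφ := (TS.ts φ).toIsTe
  have hφs := hφ.smooth
  have hLc := hL.continuous
  have iA : Integrable fun x => ⟪lap L x, (φ : En d → En d) x⟫ :=
    (hL.lap.continuous.inner hφs.continuous).integrable_of_hasCompactSupport (p0g2_hr hφ.cpt)
  have iB : Integrable fun x => ⟪L' x, (φ : En d → En d) x⟫ :=
    (hL'.continuous.inner hφs.continuous).integrable_of_hasCompactSupport (p0g2_hr hφ.cpt)
  have iC : Integrable fun x => ⟪fderiv ℝ L x (L x), (φ : En d → En d) x⟫ :=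
    (((p0g2_cf hL).clm_apply hLc).inner hφs.continuous).integrable_of_hasCompactSupport (p0g2_hr hφ.cpt)
  have hsc : Continuous fun x => lap L x - L' x - fderiv ℝ L x (L x) :=
    (hL.lap.continuous.sub hL'.continuous).sub ((p0g2_cf hL).clm_apply hLc)
  have h1 : ⟪srcL D L L', hT D φ⟫ = (∫ x, ⟪lap L x, (φ : En d → En d) x⟫) - (∫ x, ⟪L' x, (φ : En d → En d) x⟫) -
      ∫ x, ⟪fderiv ℝ L x (L x), (φ : En d → En d) x⟫ := by
    show ⟪PD D (clD D fun x => lap L x - L' x - fderiv ℝ L x (L x)), hT D φ⟫ = _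
    have iAB : Integrable fun x => ⟪lap L x, (φ : En d → En d) x⟫ - ⟪L' x, (φ : En d → En d) x⟫ := iA.sub iB
    rw [inner_PD_clD hDo hD hsc φ, ← integral_sub iA iB, ← integral_sub iAB iC]
    refine integral_congr_ae (Eventually.of_forall fun x => ?_)
    show ⟪lap L x - L' x - fderiv ℝ L x (L x), (φ : En d → En d) x⟫ = _
    rw [inner_sub_left, inner_sub_left]
  rw [io_vT hD, inner_sub_left, h1, bgo_test hD hL hc h v φ, inner_vT_lap hD v φ, bV_test hd hD v v φ,
    p0_quad hDo hD hL, inner_add_left, p0g2_clD hDo hD hL'.continuous hφ, p0g2_clD hDo hD hLc hφ.lap,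
    p0_LL hL h φ, p0_vL (io D v) hL φ, p0_lap hL φ]
  ring

end Pool.Agent.Lib.MP_79abb3_an.W
end

section

/-!
Theorem W (MP_79abb3_an), block A4: the complexified data.

For `RNS ι j C`: `ιc = Cx.map ι` is a form domain (`FDom`), `K = KF ιc = Cx.map (KR ι)`, and `J3c` is the map
`Yc Z → Cx X` with `⟪φ, J3c y⟫ = pry j y (Q φ)`.
-/

set_option autoImplicit false
set_option linter.unusedSectionVars false

open MeasureTheory Set Filter Topology Function
open scoped InnerProductSpace ComplexConjugate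

namespace Pool.Agent.Lib.MP_79abb3_an.W

open Pool.Agent.Lib.MP_79abb3_an.SC Pool.Agent.Lib.MP_79abb3_an.PD

section
variable {X V Z : Type} [NormedAddCommGroup X] [InnerProductSpace ℝ X] [CompleteSpace X]
  [NormedAddCommGroup V] [InnerProductSpace ℝ V] [CompleteSpace V] [NormedAddCommGroup Z] [NormedSpace ℝ Z]
  {ι : V →L[ℝ] X} {j : V →L[ℝ] Z} {C : ℝ}

/-- Job W-A4 N5 (1). Proof: `Cx.map_inj`; density: `(x, y)` is approximated by `(ι v, ι w)`. -/
theorem RNS.fdom (h : RNS ι j C) : FDom (Cx.map ι) := by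
  refine ⟨Cx.map_inj h.inj, ?_⟩
  have hof : Continuous (Cx.of : X → Cx X) := (Cx.ofL X).continuous
  have h1 : ∀ v w : V, Cx.of (ι v) + Complex.I • Cx.of (ι w) ∈ closure (range (Cx.map ι)) := fun v w =>
    subset_closure ⟨Cx.of v + Complex.I • Cx.of w, by
      rw [map_add, map_smul, Cx.map_of, Cx.map_of]⟩
  have h2 : ∀ (x : X) (w : V), Cx.of x + Complex.I • Cx.of (ι w) ∈ closure (range (Cx.map ι)) := fun x w =>
    h.dense.induction (P := fun x => Cx.of x + Complex.I • Cx.of (ι w) ∈ closure (range (Cx.map ι)))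
      (by rintro _ ⟨v, rfl⟩; exact h1 v w)
      (isClosed_closure.preimage (hof.add continuous_const)) x
  have h3 : ∀ x y : X, Cx.of x + Complex.I • Cx.of y ∈ closure (range (Cx.map ι)) := by
    intro x y
    have hc : Continuous fun y : X => Cx.of x + Complex.I • Cx.of y :=
      continuous_const.add (hof.const_smul Complex.I)
    exact h.dense.induction (P := fun y => Cx.of x + Complex.I • Cx.of y ∈ closure (range (Cx.map ι)))
      (by rintro _ ⟨w, rfl⟩; exact h2 x w)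
      (isClosed_closure.preimage hc) y
  intro z
  rw [Cx.eq_of z]
  exact h3 _ _

/-- Job W-A4 N5 (2). Proof: `Cx.adjoint_map`, `Cx.map_comp`. -/
theorem KF_map (ι : V →L[ℝ] X) : KF (Cx.map ι) = Cx.map (KR ι) := by
  rw [KF, KR, Cx.adjoint_map, Cx.map_comp]

/-- Job W-A4 N5 (3). The conjugations commute with `K`. Proof: `KF_map`, `Cx.map_cj`. -/
theorem cj_K (ι : V →L[ℝ] X) (z : Cx X) : Cx.cj X (KF (Cx.map ι) z) = KF (Cx.map ι) (Cx.cj X z) := by
  rw [KF_map, Cx.map_cj]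

/-- Job W-A4 N5 (4). `Cx.cj` is a conjugation in the sense of `SC/ExR.lean`. Proof: `Cx.cj_cj`, `Cx.cj_smul`,
`Cx.inner_cj`. -/
theorem cnj_cj (X : Type) [NormedAddCommGroup X] [InnerProductSpace ℝ X] [CompleteSpace X] :
    Cnj (Cx.cj X) := by
  refine ⟨Cx.cj_cj, fun c x => Cx.cj_smul c x, fun x y => ?_⟩
  rw [Cx.inner_cj, inner_conj_symm]

/-- Job W-A4 N5 (5). The unitary map `Q` commutes with the conjugations. Proof: injectivity of `Cx.map ι`,
`FDom.ι_Qv`, `Cnj.Kh` (see `FCj.Qv` in `PD/AbJ.lean`). -/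
theorem RNS.cj_Qv (h : RNS ι j C) (z : Cx X) :
    Cx.cj V (Qv (Cx.map ι) z) = Qv (Cx.map ι) (Cx.cj X z) := by
  have h1 : Cx.map ι (Cx.cj V (Qv (Cx.map ι) z)) = Cx.map ι (Qv (Cx.map ι) (Cx.cj X z)) := by
    rw [Cx.map_cj, h.fdom.ι_Qv, h.fdom.ι_Qv]
    exact (cnj_cj X).Kh (KF_nonneg _) (cj_K ι) z
  have h2 : Cx.map ι (Cx.cj V (Qv (Cx.map ι) z) - Qv (Cx.map ι) (Cx.cj X z)) = 0 := by
    rw [map_sub, h1, sub_self]
  exact sub_eq_zero.1 (h.fdom.inj _ h2)

end

end Pool.Agent.Lib.MP_79abb3_an.W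
end

section

/-!
Theorem W (MP_79abb3_an), block A4: `J3c`, the complexified nonlinearity, the real structure.
-/

set_option autoImplicit false
set_option linter.unusedSectionVars false
set_option maxSynthPendingDepth 3

open MeasureTheory Set Filter Topology Function
open scoped InnerProductSpace ComplexConjugate

namespace Pool.Agent.Lib.MP_79abb3_an.W

open Pool.Agent.Lib.MP_79abb3_an.SC Pool.Agent.Lib.MP_79abb3_an.PD

section
variable {X V Z : Type} [NormedAddCommGroup X] [InnerProductSpace ℝ X] [CompleteSpace X]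
  [NormedAddCommGroup V] [InnerProductSpace ℝ V] [CompleteSpace V] [NormedAddCommGroup Z] [NormedSpace ℝ Z]
  {ι : V →L[ℝ] X} {j : V →L[ℝ] Z} {C : ℝ}

theorem pry_norm (j : V →L[ℝ] Z) (y : Yc Z) (v : Cx V) : ‖pry j y v‖ ≤ ‖y‖ * (‖j v.re‖ + ‖j v.im‖) := by
  have h1 : ‖Complex.I * y (j v.im)‖ ≤ ‖y‖ * ‖j v.im‖ := by
    rw [norm_mul, Complex.norm_I, one_mul]
    exact y.le_opNorm _
  rw [pry, mul_add]
  exact (norm_sub_le _ _).trans (add_le_add (y.le_opNorm _) h1)

theorem pry_add (j : V →L[ℝ] Z) (y : Yc Z) (v w : Cx V) : pry j y (v + w) = pry j y v + pry j y w := by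
  simp only [pry, Cx.re_add, Cx.im_add, map_add]
  ring

theorem pry_smul (j : V →L[ℝ] Z) (y : Yc Z) (c : ℂ) (v : Cx V) : pry j y (c • v) = conj c * pry j y v := by
  simp only [pry, Cx.re_smul, Cx.im_smul, map_add, map_sub, map_smul, Complex.real_smul]
  have hc : conj c = (c.re : ℂ) - Complex.I * c.im := by
    apply Complex.ext <;> simp
  rw [hc]
  linear_combination (-(c.im : ℂ)) * y (j v.im) * Complex.I_mul_I

theorem pry_y_add (j : V →L[ℝ] Z) (y y' : Yc Z) (v : Cx V) : pry j (y + y') v = pry j y v + pry j y' v := by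
  simp only [pry, _root_.add_apply]
  ring

theorem pry_y_smul (j : V →L[ℝ] Z) (y : Yc Z) (c : ℂ) (v : Cx V) : pry j (c • y) v = c * pry j y v := by
  simp only [pry, _root_.smul_apply, smul_eq_mul]
  ring

/-- the linear functional `φ ↦ conj (pry j y (Q φ))` -/
noncomputable def dlc (ι : V →L[ℝ] X) (j : V →L[ℝ] Z) (y : Yc Z) : StrongDual ℂ (Cx X) :=
  LinearMap.mkContinuous
    { toFun := fun φ => conj (pry j y (Qv (Cx.map ι) φ))
      map_add' := fun φ ψ => by rw [map_add, pry_add, map_add]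
      map_smul' := fun c φ => by
        rw [map_smul, pry_smul, map_mul, Complex.conj_conj]; rfl } (‖y‖ * (2 * ‖j‖ * ‖Qv (Cx.map ι)‖)) (fun φ => by
      show ‖conj (pry j y (Qv (Cx.map ι) φ))‖ ≤ _
      rw [RCLike.norm_conj, mul_assoc]
      refine (pry_norm _ _ _).trans (mul_le_mul_of_nonneg_left ?_ (norm_nonneg _))
      have h1 := j.le_opNorm (Qv (Cx.map ι) φ).re
      have h2 := j.le_opNorm (Qv (Cx.map ι) φ).im
      have h3 := Cx.norm_re_le (Qv (Cx.map ι) φ)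
      have h4 := Cx.norm_im_le (Qv (Cx.map ι) φ)
      have h5 := (Qv (Cx.map ι)).le_opNorm φ
      have hj := norm_nonneg j
      nlinarith [mul_le_mul_of_nonneg_left (h3.trans h5) hj, mul_le_mul_of_nonneg_left (h4.trans h5) hj])

theorem dlc_apply (ι : V →L[ℝ] X) (j : V →L[ℝ] Z) (y : Yc Z) (φ : Cx X) :
    dlc ι j y φ = conj (pry j y (Qv (Cx.map ι) φ)) := rfl

/-- `⟪φ, J3c y⟫ = pry j y (Q φ)` -/
noncomputable def J3c (ι : V →L[ℝ] X) (j : V →L[ℝ] Z) : Yc Z →L[ℂ] Cx X :=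
  LinearMap.mkContinuous
    { toFun := fun y => (InnerProductSpace.toDual ℂ (Cx X)).symm (dlc ι j y)
      map_add' := fun y z => by
        rw [← map_add]; congr 1
        ext φ
        rw [_root_.add_apply, dlc_apply, dlc_apply, dlc_apply, pry_y_add, map_add]
      map_smul' := fun c y => by
        have h : dlc ι j (c • y) = (conj c) • dlc ι j y := by
          ext φ
          rw [_root_.smul_apply, dlc_apply, dlc_apply, pry_y_smul, map_mul, smul_eq_mul]
        rw [h, map_smulₛₗ]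
        simp } (2 * ‖j‖ * ‖Qv (Cx.map ι)‖) (fun y => by
      show ‖(InnerProductSpace.toDual ℂ (Cx X)).symm (dlc ι j y)‖ ≤ _
      rw [LinearIsometryEquiv.norm_map, mul_comm]
      exact LinearMap.mkContinuous_norm_le _ (by positivity) _)

theorem inner_J3c (φ : Cx X) (y : Yc Z) : ⟪φ, J3c ι j y⟫_ℂ = pry j y (Qv (Cx.map ι) φ) := by
  have h : ⟪J3c ι j y, φ⟫_ℂ = conj (pry j y (Qv (Cx.map ι) φ)) :=
    InnerProductSpace.toDual_symm_apply
  rw [← inner_conj_symm, h, Complex.conj_conj]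

/-! ### The conjugation of `Yc Z` -/

/-- the conjugation of `Yc Z` -/
noncomputable def cjY (Z : Type) [NormedAddCommGroup Z] [NormedSpace ℝ Z] : Yc Z →L[ℝ] Yc Z :=
  ContinuousLinearMap.compL ℝ Z ℂ ℂ (Complex.conjCLE : ℂ →L[ℝ] ℂ)

theorem cjY_apply (y : Yc Z) (z : Z) : cjY Z y z = conj (y z) := rfl

theorem pry_cj (j : V →L[ℝ] Z) (y : Yc Z) (v : Cx V) : pry j (cjY Z y) v = conj (pry j y (Cx.cj V v)) := by
  simp only [pry, cjY_apply, Cx.re_cj, Cx.im_cj, map_neg, map_sub, map_mul, Complex.conj_I]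
  ring

/-- Proof: as `FCj.J3` (`PD/AbJ.lean`): test with `φ`, `Cx.inner_cj`, `RNS.cj_Qv`. -/
theorem RNS.cj_J3c (h : RNS ι j C) (y : Yc Z) : Cx.cj X (J3c ι j y) = J3c ι j (cjY Z y) := by
  refine ext_inner_left ℂ fun φ => ?_
  rw [inner_J3c, pry_cj, h.cj_Qv, ← inner_J3c, ← Cx.inner_cj, Cx.cj_cj]

/-! ### The nonlinearity -/

/-- a real functional as a complex one -/
noncomputable def ofR (T : Z →L[ℝ] ℝ) : Yc Z := Complex.ofRealCLM ∘L T

theorem ofR_apply (T : Z →L[ℝ] ℝ) (z : Z) : ofR T z = (T z : ℂ) := rfl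

theorem norm_ofR_le (T : Z →L[ℝ] ℝ) : ‖ofR T‖ ≤ ‖T‖ := by
  refine ContinuousLinearMap.opNorm_le_bound _ (norm_nonneg _) fun z => ?_
  rw [ofR_apply, Complex.norm_real]
  exact T.le_opNorm z

/-- the complexification of the form `-B` -/
noncomputable def NBn (B : V →L[ℝ] V →L[ℝ] Z →L[ℝ] ℝ) (u w : Cx V) : Yc Z :=
  -(ofR (B u.re w.re) - ofR (B u.im w.im) + Complex.I • (ofR (B u.re w.im) + ofR (B u.im w.re)))

theorem NBn_apply (B : V →L[ℝ] V →L[ℝ] Z →L[ℝ] ℝ) (u w : Cx V) (z : Z) : NBn B u w z =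
    -(((B u.re w.re z : ℝ) : ℂ) - ((B u.im w.im z : ℝ) : ℂ) +
      Complex.I * (((B u.re w.im z : ℝ) : ℂ) + ((B u.im w.re z : ℝ) : ℂ))) := by
  rw [NBn, _root_.neg_apply, _root_.add_apply, _root_.sub_apply, _root_.smul_apply, _root_.add_apply]
  simp only [ofR_apply, smul_eq_mul]

theorem NBn_norm (B : V →L[ℝ] V →L[ℝ] Z →L[ℝ] ℝ) (u w : Cx V) : ‖NBn B u w‖ ≤ 4 * ‖B‖ * ‖u‖ * ‖w‖ := by
  have h1 : ∀ a b : V, ‖a‖ ≤ ‖u‖ → ‖b‖ ≤ ‖w‖ → ‖ofR (B a b)‖ ≤ ‖B‖ * ‖u‖ * ‖w‖ := fun a b ha hb => by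
    refine (norm_ofR_le _).trans ((B.le_opNorm₂ a b).trans ?_)
    have hB := norm_nonneg B
    have := norm_nonneg a
    have := norm_nonneg b
    have := norm_nonneg u
    gcongr
  have hu1 := Cx.norm_re_le u
  have hu2 := Cx.norm_im_le u
  have hw1 := Cx.norm_re_le w
  have hw2 := Cx.norm_im_le w
  rw [NBn, norm_neg]
  refine (norm_add_le _ _).trans ?_
  have h2 := (norm_sub_le (ofR (B u.re w.re)) (ofR (B u.im w.im))).trans
    (add_le_add (h1 _ _ hu1 hw1) (h1 _ _ hu2 hw2))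
  have h3 : ‖Complex.I • (ofR (B u.re w.im) + ofR (B u.im w.re))‖ ≤ ‖B‖ * ‖u‖ * ‖w‖ + ‖B‖ * ‖u‖ * ‖w‖ := by
    rw [norm_smul, Complex.norm_I, one_mul]
    exact (norm_add_le _ _).trans (add_le_add (h1 _ _ hu1 hw2) (h1 _ _ hu2 hw1))
  linarith

/-- the bilinear map -/
noncomputable def NBc (B : V →L[ℝ] V →L[ℝ] Z →L[ℝ] ℝ) : Cx V →L[ℂ] Cx V →L[ℂ] Yc Z :=
  LinearMap.mkContinuous₂ (LinearMap.mk₂ ℂ (NBn B)
    (fun u u' w => by
      ext z
      rw [_root_.add_apply, NBn_apply, NBn_apply, NBn_apply]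
      simp only [Cx.re_add, Cx.im_add, map_add, _root_.add_apply, Complex.ofReal_add]
      ring)
    (fun c u w => by
      ext z
      rw [_root_.smul_apply, NBn_apply, NBn_apply]
      simp only [Cx.re_smul, Cx.im_smul, map_add, map_sub, map_smul, _root_.add_apply, _root_.sub_apply,
        _root_.smul_apply, smul_eq_mul, Complex.ofReal_add, Complex.ofReal_sub, Complex.ofReal_mul]
      have hc : c = (c.re : ℂ) + Complex.I * c.im := by
        apply Complex.ext <;> simp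
      conv_rhs => rw [hc]
      linear_combination ((c.im : ℂ) * (((B u.re w.im z : ℝ) : ℂ) + ((B u.im w.re z : ℝ) : ℂ))) *
        Complex.I_mul_I)
    (fun u w w' => by
      ext z
      rw [_root_.add_apply, NBn_apply, NBn_apply, NBn_apply]
      simp only [Cx.re_add, Cx.im_add, map_add, _root_.add_apply, Complex.ofReal_add]
      ring)
    (fun c u w => by
      ext z
      rw [_root_.smul_apply, NBn_apply, NBn_apply]
      simp only [Cx.re_smul, Cx.im_smul, map_add, map_sub, map_smul, _root_.add_apply, _root_.sub_apply,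
        _root_.smul_apply, smul_eq_mul, Complex.ofReal_add, Complex.ofReal_sub, Complex.ofReal_mul]
      have hc : c = (c.re : ℂ) + Complex.I * c.im := by
        apply Complex.ext <;> simp
      conv_rhs => rw [hc]
      linear_combination ((c.im : ℂ) * (((B u.re w.im z : ℝ) : ℂ) + ((B u.im w.re z : ℝ) : ℂ))) *
        Complex.I_mul_I))
    (4 * ‖B‖) (fun u w => NBn_norm B u w)

theorem NBc_apply (B : V →L[ℝ] V →L[ℝ] Z →L[ℝ] ℝ) (u w : Cx V) : NBc B u w = NBn B u w := rfl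

/-- the nonlinearity in the variable `x`, `u = Q x` -/
noncomputable def Nc (ι : V →L[ℝ] X) (B : V →L[ℝ] V →L[ℝ] Z →L[ℝ] ℝ) : Cx X →L[ℂ] Cx X →L[ℂ] Yc Z :=
  ((NBc B).comp (Qv (Cx.map ι))).flip.comp (Qv (Cx.map ι)) |>.flip

theorem Nc_apply (B : V →L[ℝ] V →L[ℝ] Z →L[ℝ] ℝ) (x y : Cx X) :
    Nc ι B x y = NBn B (Qv (Cx.map ι) x) (Qv (Cx.map ι) y) := rfl

theorem NBn_cj (B : V →L[ℝ] V →L[ℝ] Z →L[ℝ] ℝ) (u w : Cx V) : cjY Z (NBn B u w) = NBn B (Cx.cj V u) (Cx.cj V w) := by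
  ext z
  rw [cjY_apply, NBn_apply, NBn_apply]
  simp only [Cx.re_cj, Cx.im_cj, map_neg, _root_.neg_apply, map_add, map_sub, map_mul, Complex.conj_I,
    Complex.conj_ofReal, Complex.ofReal_neg]
  ring

theorem RNS.cj_Nc (h : RNS ι j C) (B : V →L[ℝ] V →L[ℝ] Z →L[ℝ] ℝ) (x y : Cx X) :
    cjY Z (Nc ι B x y) = Nc ι B (Cx.cj X x) (Cx.cj X y) := by
  rw [Nc_apply, Nc_apply, NBn_cj, h.cj_Qv, h.cj_Qv]

end

end Pool.Agent.Lib.MP_79abb3_an.W
end

section

/-!
Theorem W, block H: the geometric hypotheses of block G (interior balls, Poincaré inequality in the layer).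
-/

set_option autoImplicit false
set_option linter.unusedSectionVars false

open MeasureTheory Set Filter Topology Function
open scoped ENNReal RealInnerProductSpace

namespace Pool.Agent.Lib.MP_79abb3_an.W

variable {d : ℕ} {D : Set (Ed d)} {z : Ed d → ℝ} {δ : ℝ}

theorem Dom.intBall (h : Dom D z δ) (hd : 0 < d) : ∃ t0 > 0, WG.IntBall D t0 := by
  have hδ := h.δ0
  refine ⟨δ, hδ, fun x hx hx2 => ?_⟩
  obtain ⟨n, hn, hb⟩ := h.int_ball' hd hx rfl (by linarith : Metric.infDist x Dᶜ < 2 * δ)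
  exact ⟨n, hn, fun t h1 h2 => hb t h1 (by linarith)⟩

theorem Dom.layerP (h : Dom D z δ) (hd : 0 < d) : ∃ CP ≥ 0, ∃ ρ0 > 0, WG.LayerP D CP ρ0 := by
  have hδ := h.δ0
  obtain ⟨C, ρ₀, hC, hρ, hP⟩ := h.poincare_layer
  refine ⟨C, hC.le, min ρ₀ δ, lt_min hρ hδ, fun ρ h0 h1 φ => ?_⟩
  rcases h0.eq_or_lt with h0 | h0
  · have e1 : {x | x ∈ D ∧ Metric.infDist x Dᶜ < ρ} = (∅ : Set (Ed d)) := by
      rw [← h0]
      ext x
      simp only [mem_setOf_eq, mem_empty_iff_false, iff_false, not_and, not_lt]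
      exact fun _ => Metric.infDist_nonneg
    rw [e1, Measure.restrict_empty, integral_zero_measure, ← h0]
    simp
  · have e1 : {x | x ∈ D ∧ Metric.infDist x Dᶜ < ρ} = {x | 0 < z x ∧ z x < ρ} := by
      ext x
      simp only [mem_setOf_eq]
      have e2 : ρ ≤ δ := h1.trans (min_le_right _ _)
      constructor
      · rintro ⟨hx, hx2⟩
        have e3 := h.z_eq_of_dist hd hx (by linarith)
        exact ⟨(h.pos x).1 hx, by rw [e3]; exact hx2⟩
      · rintro ⟨hx, hx2⟩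
        refine ⟨(h.pos x).2 hx, ?_⟩
        rw [h.dist_compl hx (by linarith)]
        exact hx2
    rw [e1, norm_sq_vT]
    exact hP (En d) _ (TS.ts φ).smooth (TS.ts φ).cpt (TS.ts φ).supp ρ h0 (h1.trans (min_le_left _ _))

end Pool.Agent.Lib.MP_79abb3_an.W
end
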