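import Pool.Agent.Lib.MP_79abb3_an.SC.LaSG

/-!
Theorem W (MP_79abb3_an), block A4/G3, abstract: spectral cut-offs of `A = K⁻¹`.

`Fc K Λ` is `φ(A)` with `φ(l) = 1` for `l ≤ Λ` and `φ(l) = 0` for `l ≥ 2 Λ`. Only the continuous functional
calculus `fA` of `SC/LaSG.lean` is used; no compactness, no eigenvectors.
-/

set_option autoImplicit false
set_option linter.unusedSectionVars false

open MeasureTheory Set Filter Topology Function
open scoped InnerProductSpace ComplexConjugate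

namespace Pool.Agent.Lib.MP_79abb3_an.W

open Pool.Agent.Lib.MP_79abb3_an.SC

/-- the cut-off: `1` for `l ≤ Λ`, `0` for `l ≥ 2 Λ` -/
noncomputable def ctf (Λ l : ℝ) : ℝ := max 0 (min 1 (2 - l / Λ))

theorem ctf_nonneg (Λ l : ℝ) : 0 ≤ ctf Λ l := le_max_left _ _

theorem ctf_le_one (Λ l : ℝ) : ctf Λ l ≤ 1 := max_le zero_le_one (min_le_left _ _)

theorem ctf_one {Λ l : ℝ} (hΛ : 0 < Λ) (h : l ≤ Λ) : ctf Λ l = 1 := by
  have h1 : l / Λ ≤ 1 := by rwa [div_le_one hΛ]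
  rw [ctf, min_eq_left (by linarith), max_eq_right zero_le_one]

theorem ctf_zero {Λ l : ℝ} (hΛ : 0 < Λ) (h : 2 * Λ ≤ l) : ctf Λ l = 0 := by
  have h1 : 2 ≤ l / Λ := by rwa [le_div_iff₀ hΛ]
  rw [ctf, max_eq_left]
  exact (min_le_right _ _).trans (by linarith)

theorem ctf_cont (Λ : ℝ) : Continuous (ctf Λ) := by
  unfold ctf
  fun_prop

theorem ctf_adm {Λ : ℝ} (hΛ : 0 < Λ) (k : ℕ) : Adm fun l => l ^ k * ctf Λ l where
  cont := ((continuous_id.pow k).mul (ctf_cont Λ)).continuousOn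
  lim := by
    refine tendsto_const_nhds.congr' ?_
    filter_upwards [Ici_mem_atTop (2 * Λ)] with l hl
    rw [ctf_zero hΛ hl, mul_zero]

theorem ctf_adm0 {Λ : ℝ} (hΛ : 0 < Λ) : Adm (ctf Λ) := by
  have h := ctf_adm hΛ 0
  simpa using h

section
variable {E : Type} [NormedAddCommGroup E] [InnerProductSpace ℂ E] [CompleteSpace E] {K : E →L[ℂ] E}

/-- the spectral cut-off `φ(A)` -/
noncomputable def Fc (K : E →L[ℂ] E) (Λ : ℝ) : E →L[ℂ] E := fA (ctf Λ) K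

/-- The high frequencies decay. Proof: `Sg K t = fA (exp (-(t l)))`, `fA_comp`, `fA_sub`, `fA_norm_le`
with `(1 - ctf Λ l) exp (-(t l)) ≤ exp (-(t Λ))`. -/
theorem Fc_rest (hK : 0 ≤ K) {Λ t : ℝ} (hΛ : 0 < Λ) (ht : 0 < t) (x : E) :
    ‖Sg K t x - Fc K Λ (Sg K t x)‖ ≤ Real.exp (-(t * Λ)) * ‖x‖ := by
  have e1 : Sg K t x - Fc K Λ (Sg K t x) =
      fA (fun l => Real.exp (-(t * l)) - ctf Λ l * Real.exp (-(t * l))) K x := by
    rw [Sg_pos ht, Fc, fA_comp (ctf_adm0 hΛ) (adm_exp ht),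
      fA_sub (adm_exp ht) ((ctf_adm0 hΛ).mul (adm_exp ht))]
    rfl
  rw [e1]
  refine (fA _ K).le_of_opNorm_le (fA_norm_le hK (Real.exp_pos _).le fun l hl => ?_) x
  have h0 := ctf_nonneg Λ l
  have h1 := ctf_le_one Λ l
  have h2 := Real.exp_pos (-(t * l))
  have e2 : Real.exp (-(t * l)) - ctf Λ l * Real.exp (-(t * l)) = (1 - ctf Λ l) * Real.exp (-(t * l)) := by
    ring
  rw [e2, abs_of_nonneg (mul_nonneg (by linarith) h2.le)]
  rcases le_total l Λ with h | h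
  · rw [ctf_one hΛ h, sub_self, zero_mul]
    exact (Real.exp_pos _).le
  · have h3 : Real.exp (-(t * l)) ≤ Real.exp (-(t * Λ)) := by
      rw [Real.exp_le_exp]
      nlinarith
    calc (1 - ctf Λ l) * Real.exp (-(t * l)) ≤ 1 * Real.exp (-(t * l)) :=
          mul_le_mul_of_nonneg_right (by linarith) h2.le
      _ ≤ _ := by rw [one_mul]; exact h3

/-- The range of the cut-off is in the domain of all powers of `A`, with `‖A^k y‖ ≤ (2Λ)^k ‖y‖`.
Proof: `g k = fA (l^k ctf Λ l) K x`; `K_mul_fA`; `l^k ctf Λ l = ψ_k(l) ctf Λ l` with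
`ψ_k(l) = (min l (2Λ))^k ctf (2Λ) l`, `|ψ_k| ≤ (2Λ)^k`. -/
theorem Fc_chain (hK : 0 ≤ K) {Λ : ℝ} (hΛ : 0 < Λ) (x : E) : ∃ g : ℕ → E, g 0 = Fc K Λ x ∧
    (∀ k, K (g (k + 1)) = g k) ∧ (∀ k, ‖g k‖ ≤ (2 * Λ) ^ k * ‖g 0‖) ∧
    ∀ k, g k = fA (fun l => l ^ k * ctf Λ l) K x := by
  refine ⟨fun k => fA (fun l => l ^ k * ctf Λ l) K x, ?_, fun k => ?_, fun k => ?_, fun k => rfl⟩
  · show fA (fun l => l ^ 0 * ctf Λ l) K x = fA (ctf Λ) K x
    congr 2
    funext l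
    rw [pow_zero, one_mul]
  · show K (fA (fun l => l ^ (k + 1) * ctf Λ l) K x) = fA (fun l => l ^ k * ctf Λ l) K x
    have h1 : (fun l : ℝ => l ^ (k + 1) * ctf Λ l) = fun l => l * (l ^ k * ctf Λ l) := by
      funext l
      ring
    have h2 : Adm fun l : ℝ => l * (l ^ k * ctf Λ l) := by
      rw [← h1]
      exact ctf_adm hΛ (k + 1)
    have h3 := K_mul_fA hK h2
    rw [h1]
    exact congrArg (fun f : E →L[ℂ] E => f x) h3
  · show ‖fA (fun l => l ^ k * ctf Λ l) K x‖ ≤ (2 * Λ) ^ k * ‖fA (fun l => l ^ 0 * ctf Λ l) K x‖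
    have h2Λ : 0 < 2 * Λ := by linarith
    have hψ : Adm fun l => (min l (2 * Λ)) ^ k * ctf (2 * Λ) l := by
      refine ⟨((continuous_id.min continuous_const).pow k |>.mul (ctf_cont _)).continuousOn, ?_⟩
      refine tendsto_const_nhds.congr' ?_
      filter_upwards [Ici_mem_atTop (2 * (2 * Λ))] with l hl
      rw [ctf_zero h2Λ hl, mul_zero]
    have e1 : fA (fun l => l ^ k * ctf Λ l) K =
        fA (fun l => (min l (2 * Λ)) ^ k * ctf (2 * Λ) l) K * fA (fun l => l ^ 0 * ctf Λ l) K := by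
      rw [← fA_mul hψ (ctf_adm hΛ 0)]
      refine fA_congr fun l _ => ?_
      rcases le_total l (2 * Λ) with h | h
      · rw [min_eq_left h, ctf_one h2Λ h]
        ring
      · rw [ctf_zero hΛ h]
        ring
    have e2 : fA (fun l => l ^ k * ctf Λ l) K x =
        fA (fun l => (min l (2 * Λ)) ^ k * ctf (2 * Λ) l) K (fA (fun l => l ^ 0 * ctf Λ l) K x) := by
      rw [e1]; rfl
    rw [e2]
    refine (fA _ K).le_of_opNorm_le (fA_norm_le hK (by positivity) fun l hl => ?_) _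
    have hm : 0 ≤ min l (2 * Λ) := le_min hl.le h2Λ.le
    rw [abs_of_nonneg (mul_nonneg (pow_nonneg hm k) (ctf_nonneg _ _))]
    calc (min l (2 * Λ)) ^ k * ctf (2 * Λ) l ≤ (2 * Λ) ^ k * 1 :=
          mul_le_mul (pow_le_pow_left₀ hm (min_le_right _ _) k) (ctf_le_one _ _) (ctf_nonneg _ _)
            (by positivity)
      _ = (2 * Λ) ^ k := mul_one _

end

end Pool.Agent.Lib.MP_79abb3_an.W
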