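import Pool.Agent.Lib.MP_79abb3_an.W.Cx
import Pool.Agent.Lib.MP_79abb3_an.W.N1

/-!
Theorem W (MP_79abb3_an), block A4/G3: definitions.

`RNS`: the real data `ι : V → X`, `j : V → Z` (`Z = L⁴`), `B u v : Z → ℝ` (`B u v (j w) = ∫ (u·∇) v · w`).
`Stat`: the static spectral inequality for the spectral cut-offs.
`NV`: null controlled solution in `V`.
-/

set_option autoImplicit false
set_option linter.unusedSectionVars false

open MeasureTheory Set Filter Topology Function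
open scoped InnerProductSpace ComplexConjugate

namespace Pool.Agent.Lib.MP_79abb3_an.W

open Pool.Agent.Lib.MP_79abb3_an.SC

/-- The static spectral inequality (exponent `2/3`: `Λ = L³`, cost `exp (C Λ^{2/3}) = exp (C L²)`). -/
structure Stat {E : Type} [NormedAddCommGroup E] [InnerProductSpace ℂ E] [CompleteSpace E]
    (K χ : E →L[ℂ] E) (C : ℝ) : Prop where
  C0 : 0 ≤ C
  le : ∀ L, 1 ≤ L → ∀ x, ‖Fc K (L ^ 3 / 2) x‖ ≤ Real.exp (C * L ^ 2) * ‖χ (Fc K (L ^ 3 / 2) x)‖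

section
variable {X V Z : Type} [NormedAddCommGroup X] [InnerProductSpace ℝ X] [CompleteSpace X]
  [NormedAddCommGroup V] [InnerProductSpace ℝ V] [CompleteSpace V] [NormedAddCommGroup Z] [NormedSpace ℝ Z]

/-- The real data of the Navier-Stokes system in `D`, `d ≤ 3` (`Z = L⁴`). -/
structure RNS (ι : V →L[ℝ] X) (j : V →L[ℝ] Z) (C : ℝ) : Prop where
  inj : ∀ v, ι v = 0 → v = 0
  dense : DenseRange ι
  C0 : 0 ≤ C
  lad : ∀ v, ‖j v‖ ^ 4 ≤ C ^ 4 * (‖ι v‖ * ‖v‖ ^ 3)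

/-- The inverse of the real Stokes operator. -/
noncomputable def KR (ι : V →L[ℝ] X) : X →L[ℝ] X := ι ∘L ContinuousLinearMap.adjoint ι

/-- The static spectral inequality for real fields, in the form of block G: chains `K (g (k+1)) = g k` with
`‖g k‖ ≤ Λ^k ‖g 0‖`. -/
structure StatR (ι : V →L[ℝ] X) (χ : X →L[ℝ] X) (C : ℝ) : Prop where
  C0 : 0 ≤ C
  adj : ∀ x y, ⟪χ x, y⟫_ℝ = ⟪x, χ y⟫_ℝ
  n : ∀ x, ‖χ x‖ ≤ ‖x‖
  le : ∀ Λ, 1 ≤ Λ → ∀ g : ℕ → X, (∀ k, KR ι (g (k + 1)) = g k) → (∀ k, ‖g k‖ ≤ Λ ^ k * ‖g 0‖) →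
    ‖g 0‖ ≤ Real.exp (C * Λ ^ (2 / 3 : ℝ)) * ‖χ (g 0)‖

/-- the complexification of the dual of `Z` -/
abbrev Yc (Z : Type) [NormedAddCommGroup Z] [NormedSpace ℝ Z] : Type := Z →L[ℝ] ℂ

/-- The pairing `⟪v, y⟫` of `v ∈ V + i V` with the complex functional `y` (conjugate linear in `v`). -/
noncomputable def pry (j : V →L[ℝ] Z) (y : Yc Z) (v : Cx V) : ℂ := y (j v.re) - Complex.I * y (j v.im)

/-- The solution on `[0, T]` of the controlled system in `V`: `v ∈ C([0,T];V)`, the weak form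
`⟪w, v⟫' = -⟪∇w, ∇v⟫ - b(v, v, w) + ⟪w, f⟫` for all `w ∈ V`. -/
structure NV (ι : V →L[ℝ] X) (j : V →L[ℝ] Z) (B : V →L[ℝ] V →L[ℝ] Z →L[ℝ] ℝ) (f : ℝ → X) (T : ℝ)
    (v : ℝ → V) : Prop where
  cont : ContinuousOn v (Icc 0 T)
  weak : ∀ w : V, ∀ s t, 0 ≤ s → s ≤ t → t ≤ T → ⟪ι w, ι (v t)⟫_ℝ - ⟪ι w, ι (v s)⟫_ℝ =
    ∫ r in s..t, (-⟪w, v r⟫_ℝ - B (v r) (v r) (j w) + ⟪ι w, f r⟫_ℝ)

end

end Pool.Agent.Lib.MP_79abb3_an.W
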