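import Pool.Agent.Lib.MP_79abb3_an.WG.Def
import Pool.Agent.Lib.MP_79abb3_an.WG.LapA
import Pool.Agent.Lib.MP_79abb3_an.W.NDef
import Pool.Agent.Lib.MP_79abb3_an.W.A3h
import Pool.Agent.Lib.MP_79abb3_an.W.A3g
import Pool.Agent.Lib.MP_79abb3_an.W.A3le
import Pool.Agent.Lib.MP_79abb3_an.W.A3hd
import Pool.Agent.Lib.MP_79abb3_an.SC.NcL

section

/-!
Theorem W, block G: mollification, smoothness and bounds.
-/

set_option autoImplicit false
set_option linter.unusedSectionVars false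
set_option linter.unusedVariables false

open MeasureTheory Set Filter Topology Metric Laplacian
open scoped ContDiff InnerProductSpace

namespace Pool.Agent.Lib.MP_79abb3_an.WG

section
variable {E : Type} [NormedAddCommGroup E] [InnerProductSpace ℝ E] [FiniteDimensional ℝ E]
  [MeasurableSpace E] [BorelSpace E] {D : Set E} {lam ε : ℝ}

/-- The mollification is a convolution. -/
theorem moll_eq_conv (hε : 0 < ε) (f : E → ℝ) :
    moll ε hε f = convolution ((eta ε hε : ContDiffBump (0 : E)).normed volume) f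
      (ContinuousLinearMap.mul ℝ ℝ) volume := by
  funext x
  rw [convolution_eq_swap]
  rfl

private theorem molA_loc {f : E → ℝ} (hf : MemLp f 2) : LocallyIntegrable f :=
  hf.locallyIntegrable (by norm_num)

theorem moll_contDiff (hε : 0 < ε) {f : E → ℝ} (hf : MemLp f 2) : ContDiff ℝ ∞ (moll ε hε f) := by
  rw [moll_eq_conv]
  exact (ContDiffBump.hasCompactSupport_normed _).contDiff_convolution_left _
    (ContDiffBump.contDiff_normed _) (molA_loc hf)

private theorem molA_cs {a b : E → ℝ} (ha0 : ∀ x, 0 ≤ a x) (hb0 : ∀ x, 0 ≤ b x) (ha : MemLp a 2)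
    (hb : MemLp b 2) : ∫ x, a x * b x ≤ √(∫ x, a x ^ 2) * √(∫ x, b x ^ 2) := by
  have h1 := integral_mul_le_Lp_mul_Lq_of_nonneg (μ := (volume : Measure E))
    Real.HolderConjugate.two_two (f := a) (g := b) (Eventually.of_forall ha0)
    (Eventually.of_forall hb0) (by simpa using ha) (by simpa using hb)
  simp only [Real.rpow_two] at h1
  rwa [← Real.sqrt_eq_rpow, ← Real.sqrt_eq_rpow] at h1

private theorem molA_bnd (n : ℕ) : ∀ (G H : Type) [NormedAddCommGroup G] [NormedSpace ℝ G]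
    [NormedAddCommGroup H] [NormedSpace ℝ H] [CompleteSpace H] (L : G →L[ℝ] ℝ →L[ℝ] H) (g : E → G),
    HasCompactSupport g → ContDiff ℝ ∞ g → ∃ B : ℝ, 0 ≤ B ∧ ∀ f : E → ℝ, MemLp f 2 → ∀ x,
    ‖iteratedFDeriv ℝ n (convolution g f L volume) x‖ ≤ B * √(∫ x, f x ^ 2) := by
  induction n with
  | zero =>
    intro G H _ _ _ _ _ L g hg hgs
    refine ⟨‖L‖ * √(∫ x, ‖g x‖ ^ 2), by positivity, fun f hf x => ?_⟩
    rw [norm_iteratedFDeriv_zero, convolution_eq_swap]
    have hgc : Continuous fun t => ‖g (x - t)‖ := (hgs.continuous.comp (by fun_prop)).norm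
    have hgc2 : HasCompactSupport fun t => ‖g (x - t)‖ := by
      have : HasCompactSupport fun t => g (x - t) :=
        hg.comp_homeomorph (Homeomorph.subLeft x)
      exact this.norm
    have hgm : MemLp (fun t => ‖g (x - t)‖) 2 := hgc.memLp_of_hasCompactSupport hgc2
    have hfm : MemLp (fun t => |f t|) 2 := hf.norm
    have h1 : ‖∫ t, (L (g (x - t))) (f t)‖ ≤ ∫ t, ‖L‖ * (‖g (x - t)‖ * |f t|) := by
      refine norm_integral_le_of_norm_le ((hgm.integrable_mul hfm).const_mul ‖L‖) ?_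
      refine Eventually.of_forall fun t => ?_
      have := L.le_opNorm₂ (g (x - t)) (f t)
      rw [Real.norm_eq_abs] at this
      rw [← mul_assoc]
      exact this
    refine h1.trans ?_
    rw [integral_const_mul]
    have h2 := molA_cs (fun t => norm_nonneg (g (x - t))) (fun t => abs_nonneg (f t)) hgm hfm
    have h3 : ∫ t, ‖g (x - t)‖ ^ 2 = ∫ t, ‖g t‖ ^ 2 :=
      integral_sub_left_eq_self (fun t => ‖g t‖ ^ 2) volume x
    rw [h3] at h2
    simp only [sq_abs] at h2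
    rw [mul_assoc]
    exact mul_le_mul_of_nonneg_left h2 L.opNorm_nonneg
  | succ n ih =>
    intro G H _ _ _ _ _ L g hg hgs
    obtain ⟨B, hB0, hB⟩ := ih (E →L[ℝ] G) (E →L[ℝ] H) (L.precompL E) (fderiv ℝ g) (hg.fderiv ℝ)
      (hgs.fderiv_right (m := ∞) (by norm_cast))
    refine ⟨B, hB0, fun f hf x => ?_⟩
    have h1 : fderiv ℝ (convolution g f L volume) =
        convolution (fderiv ℝ g) f (L.precompL E) volume := funext fun y =>
      (hg.hasFDerivAt_convolution_left L (hgs.of_le (by exact_mod_cast le_top)) (molA_loc hf) y).fderiv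
    rw [← norm_iteratedFDeriv_fderiv, h1]
    exact hB f hf x

/-- Derivatives fall on the mollifier; Cauchy-Schwarz: `B_n = |D^n η|_2`.
PROOF: `‖iteratedFDeriv ℝ n (moll f) x‖ ≤ ∫ ‖iteratedFDeriv ℝ n η (x - x')‖ |f x'| dx' ≤ B_n |f|_2`. (E.g. by induction
on `n` with vector valued kernels: `HasCompactSupport.hasFDerivAt_convolution_left`.) -/
theorem moll_bnd (hε : 0 < ε) (n : ℕ) : ∃ B : ℝ, 0 ≤ B ∧ ∀ f : E → ℝ, MemLp f 2 → ∀ x,
    ‖iteratedFDeriv ℝ n (moll ε hε f) x‖ ≤ B * √(∫ x, f x ^ 2) := by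
  obtain ⟨B, hB0, hB⟩ := molA_bnd n ℝ ℝ (ContinuousLinearMap.mul ℝ ℝ)
    ((eta ε hε : ContDiffBump (0 : E)).normed volume) (ContDiffBump.hasCompactSupport_normed _)
    (ContDiffBump.contDiff_normed _)
  refine ⟨B, hB0, fun f hf x => ?_⟩
  rw [moll_eq_conv]
  exact hB f hf x

end

end Pool.Agent.Lib.MP_79abb3_an.WG
end

section

/-!
Theorem W, block G: mollification and the Laplacian.
-/

set_option autoImplicit false
set_option linter.unusedSectionVars false
set_option linter.unusedVariables false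

open MeasureTheory Set Filter Topology Metric Laplacian
open scoped ContDiff InnerProductSpace

namespace Pool.Agent.Lib.MP_79abb3_an.WG

section
variable {E : Type} [NormedAddCommGroup E] [InnerProductSpace ℝ E] [FiniteDimensional ℝ E]
  [MeasurableSpace E] [BorelSpace E] {D : Set E} {lam ε : ℝ}

private theorem molB_loc {f : E → ℝ} (hf : MemLp f 2) : LocallyIntegrable f :=
  hf.locallyIntegrable (by norm_num)

/-- the convolution -/
private noncomputable def molB_cv (ψ f : E → ℝ) (x : E) : ℝ := ∫ t, ψ (x - t) * f t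

private theorem molB_cv_eq (ψ f : E → ℝ) :
    molB_cv ψ f = convolution ψ f (ContinuousLinearMap.mul ℝ ℝ) volume := by
  funext x
  rw [convolution_eq_swap]
  rfl

private theorem molB_int {ψ f : E → ℝ} (hψ : Continuous ψ) (hc : HasCompactSupport ψ)
    (hf : LocallyIntegrable f) (x : E) : Integrable fun t => ψ (x - t) * f t := by
  have h1 : HasCompactSupport fun t => ψ (x - t) := hc.comp_homeomorph (Homeomorph.subLeft x)
  have h2 : Continuous fun t => ψ (x - t) := hψ.comp (by fun_prop)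
  exact hf.integrable_smul_left_of_hasCompactSupport h2 h1

private theorem molB_fderiv {ψ f : E → ℝ} (hψ : ContDiff ℝ 1 ψ) (hc : HasCompactSupport ψ)
    (hf : LocallyIntegrable f) (y v : E) :
    fderiv ℝ (molB_cv ψ f) y v = molB_cv (fun x => fderiv ℝ ψ x v) f y := by
  rw [molB_cv_eq, (hc.hasFDerivAt_convolution_left (ContinuousLinearMap.mul ℝ ℝ) hψ hf y).fderiv,
    convolution_eq_swap, ContinuousLinearMap.integral_apply]
  · rfl
  · have h1 := (hc.fderiv ℝ).convolutionExists_left ((ContinuousLinearMap.mul ℝ ℝ).precompL E)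
      (hψ.continuous_fderiv (by norm_num)) hf y
    exact (convolutionExistsAt_iff_integrable_swap).1 h1

private theorem molB_two {ψ : E → ℝ} (hψ : ContDiff ℝ ∞ ψ) : ContDiff ℝ 2 ψ := by
  exact_mod_cast contDiff_infty.1 hψ 2

private theorem molB_cd {ψ : E → ℝ} (hψ : ContDiff ℝ 2 ψ) (b : E) :
    ContDiff ℝ 1 (fun y => fderiv ℝ ψ y b) :=
  (hψ.fderiv_right (m := 1) (by norm_num)).clm_apply contDiff_const

private theorem molB_lap {ψ f : E → ℝ} (hψ : ContDiff ℝ 2 ψ) (hc : HasCompactSupport ψ)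
    (hf : LocallyIntegrable f) (x : E) :
    Δ (molB_cv ψ f) x = molB_cv (Δ ψ) f x := by
  have h2 : ContDiff ℝ 2 (molB_cv ψ f) := by
    rw [molB_cv_eq]
    exact hc.contDiff_convolution_left _ hψ hf
  rw [lap_eq_sum (stdOrthonormalBasis ℝ E) h2]
  have h3 : ∀ i, fderiv ℝ (fun y => fderiv ℝ (molB_cv ψ f) y (stdOrthonormalBasis ℝ E i)) x
      (stdOrthonormalBasis ℝ E i) = molB_cv (fun y => fderiv ℝ
        (fun y => fderiv ℝ ψ y (stdOrthonormalBasis ℝ E i)) y (stdOrthonormalBasis ℝ E i)) f x := by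
    intro i
    have e1 : (fun y => fderiv ℝ (molB_cv ψ f) y (stdOrthonormalBasis ℝ E i)) =
        molB_cv (fun y => fderiv ℝ ψ y (stdOrthonormalBasis ℝ E i)) f :=
      funext fun y => molB_fderiv (hψ.of_le (by norm_num)) hc hf y _
    rw [e1, molB_fderiv (molB_cd hψ _) (hc.fderiv_apply ℝ _) hf]
  rw [Finset.sum_congr rfl fun i _ => h3 i]
  unfold molB_cv
  rw [← integral_finsetSum]
  · refine integral_congr_ae (Eventually.of_forall fun t => ?_)
    simp only
    rw [lap_eq_sum (stdOrthonormalBasis ℝ E) hψ, Finset.sum_mul]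
  · intro i _
    exact molB_int (((molB_cd hψ _).continuous_fderiv (by norm_num)).clm_apply continuous_const)
      ((hc.fderiv_apply ℝ _).fderiv_apply ℝ _) hf x

private theorem molB_lap_smooth {ψ : E → ℝ} (hψ : ContDiff ℝ ∞ ψ) : ContDiff ℝ ∞ (Δ ψ) := by
  have h1 : Δ ψ = fun x => ∑ i, fderiv ℝ (fun y => fderiv ℝ ψ y (stdOrthonormalBasis ℝ E i)) x
      (stdOrthonormalBasis ℝ E i) :=
    funext fun x => lap_eq_sum _ (molB_two hψ) x
  rw [h1]
  refine ContDiff.sum fun i _ => ?_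
  have h2 : ContDiff ℝ ∞ (fun y => fderiv ℝ ψ y (stdOrthonormalBasis ℝ E i)) :=
    (hψ.fderiv_right (m := ∞) (by norm_cast)).clm_apply contDiff_const
  exact (h2.fderiv_right (m := ∞) (by norm_cast)).clm_apply contDiff_const

private theorem molB_lap_cpt {ψ : E → ℝ} (hψ : ContDiff ℝ ∞ ψ) (hc : HasCompactSupport ψ) :
    HasCompactSupport (Δ ψ) := by
  refine HasCompactSupport.intro hc fun x hx => ?_
  have h1 : ψ =ᶠ[𝓝 x] fun _ => 0 := by
    have h2 := (isClosed_tsupport ψ).isOpen_compl.mem_nhds hx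
    filter_upwards [h2] with y hy
    exact image_eq_zero_of_notMem_tsupport hy
  rw [(InnerProductSpace.laplacian_congr_nhds h1).eq_of_nhds]
  simp [InnerProductSpace.laplacian_const]

/-- `Δ` falls on the mollifier, once and twice. -/
theorem moll_lap (hε : 0 < ε) {f : E → ℝ} (hf : MemLp f 2) (x : E) :
    Δ (moll ε hε f) x = ∫ x', Δ ((eta ε hε : ContDiffBump (0 : E)).normed volume) (x - x') * f x' :=
  molB_lap (ψ := (eta ε hε : ContDiffBump (0 : E)).normed volume)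
    (ContDiffBump.contDiff_normed _ (n := 2)) (ContDiffBump.hasCompactSupport_normed _)
    (molB_loc hf) x

theorem moll_lap2 (hε : 0 < ε) {f : E → ℝ} (hf : MemLp f 2) (x : E) :
    Δ (Δ (moll ε hε f)) x =
      ∫ x', Δ (Δ ((eta ε hε : ContDiffBump (0 : E)).normed volume)) (x - x') * f x' := by
  have hs : ContDiff ℝ ∞ ((eta ε hε : ContDiffBump (0 : E)).normed volume) :=
    ContDiffBump.contDiff_normed _
  have hc : HasCompactSupport ((eta ε hε : ContDiffBump (0 : E)).normed volume) :=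
    ContDiffBump.hasCompactSupport_normed _
  have h1 : Δ (moll ε hε f) = molB_cv (Δ ((eta ε hε : ContDiffBump (0 : E)).normed volume)) f :=
    funext fun y => moll_lap hε hf y
  rw [h1]
  exact molB_lap (molB_two (molB_lap_smooth hs)) (molB_lap_cpt hs hc)
    (molB_loc hf) x

/-- The translated mollifier is a test function. -/
theorem eta_te (hε : 0 < ε) {x : E} (hx : x ∈ er D ε) :
    IsTe D (fun x' => (eta ε hε : ContDiffBump (0 : E)).normed volume (x - x')) := by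
  have hs : ContDiff ℝ ∞ ((eta ε hε : ContDiffBump (0 : E)).normed volume) :=
    ContDiffBump.contDiff_normed _
  have hc : HasCompactSupport ((eta ε hε : ContDiffBump (0 : E)).normed volume) :=
    ContDiffBump.hasCompactSupport_normed _
  have hrO : (eta ε hε : ContDiffBump (0 : E)).rOut = ε := rfl
  refine ⟨hs.comp (contDiff_const.sub contDiff_id), hc.comp_homeomorph (Homeomorph.subLeft x), ?_⟩
  have h1 : tsupport (fun x' => (eta ε hε : ContDiffBump (0 : E)).normed volume (x - x')) ⊆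
      closedBall x ε := by
    refine closure_minimal (fun y hy => ?_) isClosed_closedBall
    have h2 : x - y ∈ Function.support ((eta ε hε : ContDiffBump (0 : E)).normed volume) := hy
    rw [ContDiffBump.support_normed_eq, hrO, mem_ball_zero_iff] at h2
    rw [mem_closedBall, dist_comm, dist_eq_norm]
    exact h2.le
  refine h1.trans fun y hy => ?_
  by_contra hyD
  have h3 : infDist x Dᶜ ≤ dist x y := infDist_le_dist_of_mem hyD
  rw [mem_closedBall, dist_comm] at hy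
  have h4 : ε < infDist x Dᶜ := hx
  linarith

private theorem molB_aff {ψ : E → ℝ} (hψ : ContDiff ℝ 2 ψ) (x x' : E) :
    Δ (fun x' => ψ (x - x')) x' = Δ ψ (x - x') := by
  have h1 := lap_affine hψ x (-1) x'
  have e1 : ∀ z : E, x + (-1 : ℝ) • z = x - z := fun z => by rw [neg_one_smul, sub_eq_add_neg]
  simp only [e1] at h1
  rw [h1]
  norm_num

/-- PROOF: `η` is even. -/
theorem lap_eta_sub (hε : 0 < ε) (x x' : E) :
    Δ (fun x' => (eta ε hε : ContDiffBump (0 : E)).normed volume (x - x')) x' =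
      Δ ((eta ε hε : ContDiffBump (0 : E)).normed volume) (x - x') :=
  molB_aff (ContDiffBump.contDiff_normed _ (n := 2)) x x'

theorem lap2_eta_sub (hε : 0 < ε) (x x' : E) :
    Δ (Δ (fun x' => (eta ε hε : ContDiffBump (0 : E)).normed volume (x - x'))) x' =
      Δ (Δ ((eta ε hε : ContDiffBump (0 : E)).normed volume)) (x - x') := by
  have hs : ContDiff ℝ ∞ ((eta ε hε : ContDiffBump (0 : E)).normed volume) :=
    ContDiffBump.contDiff_normed _
  have h1 : Δ (fun x' => (eta ε hε : ContDiffBump (0 : E)).normed volume (x - x')) =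
      fun x' => Δ ((eta ε hε : ContDiffBump (0 : E)).normed volume) (x - x') :=
    funext fun y => lap_eta_sub hε x y
  rw [h1]
  exact molB_aff (molB_two (molB_lap_smooth hs)) x x'

end

end Pool.Agent.Lib.MP_79abb3_an.WG
end

section

/-!
Theorem W, block G: mollification in `L²`.
-/

set_option autoImplicit false
set_option linter.unusedSectionVars false
set_option linter.unusedVariables false

open MeasureTheory Set Filter Topology Metric Laplacian
open scoped ContDiff InnerProductSpace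

namespace Pool.Agent.Lib.MP_79abb3_an.WG

section
variable {E : Type} [NormedAddCommGroup E] [InnerProductSpace ℝ E] [FiniteDimensional ℝ E]
  [MeasurableSpace E] [BorelSpace E] {D : Set E} {lam ε : ℝ}

private lemma mc_bdd (hε : 0 < ε) :
    ∃ C : ℝ, ∀ x : E, ‖(eta ε hε : ContDiffBump (0 : E)).normed volume x‖ ≤ C :=
  ((eta ε hε : ContDiffBump (0 : E)).hasCompactSupport_normed).exists_bound_of_continuous
    ((eta ε hε : ContDiffBump (0 : E)).continuous_normed)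

private lemma mc_zero (hε : 0 < ε) {x : E} (hx : ε ≤ ‖x‖) :
    (eta ε hε : ContDiffBump (0 : E)).normed volume x = 0 := by
  by_contra h
  have h1 : x ∈ Function.support ((eta ε hε : ContDiffBump (0 : E)).normed volume) := h
  rw [ContDiffBump.support_normed_eq] at h1
  have h2 : ‖x‖ < ε := mem_ball_zero_iff.mp h1
  linarith

private lemma mc_int (hε : 0 < ε) :
    Integrable ((eta ε hε : ContDiffBump (0 : E)).normed volume) :=
  (eta ε hε : ContDiffBump (0 : E)).integrable_normed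

private lemma mc_int_sub (hε : 0 < ε) (x : E) :
    Integrable (fun x' : E => (eta ε hε : ContDiffBump (0 : E)).normed volume (x - x')) :=
  (mc_int hε).comp_sub_left x

private lemma mc_sq (hε : 0 < ε) {f : E → ℝ} (hf : MemLp f 2) (x : E) :
    Integrable (fun x' : E => (eta ε hε : ContDiffBump (0 : E)).normed volume (x - x') *
      f x' ^ 2) := by
  obtain ⟨C, hC⟩ := mc_bdd (E := E) hε
  have hf2 : Integrable (fun x' => f x' ^ 2) := hf.integrable_sq
  exact hf2.bdd_mul (c := C) ((mc_int_sub hε x).aestronglyMeasurable)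
    (Eventually.of_forall fun x' => hC _)

private lemma mc_lin (hε : 0 < ε) {f : E → ℝ} (hf : MemLp f 2) (x : E) :
    Integrable (fun x' : E => (eta ε hε : ContDiffBump (0 : E)).normed volume (x - x') *
      f x') := by
  refine Integrable.mono' ((mc_int_sub hε x).add (mc_sq hε hf x))
    ((mc_int_sub hε x).aestronglyMeasurable.mul hf.1) (Eventually.of_forall fun x' => ?_)
  have h0 := (eta ε hε : ContDiffBump (0 : E)).nonneg_normed (μ := volume) (x - x')
  rw [Real.norm_eq_abs, abs_mul, abs_of_nonneg h0]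
  have h1 : |f x'| ≤ 1 + f x' ^ 2 := by
    rw [← sq_abs]
    nlinarith [abs_nonneg (f x'), sq_nonneg (|f x'| - 1)]
  calc (eta ε hε : ContDiffBump (0 : E)).normed volume (x - x') * |f x'|
      ≤ (eta ε hε : ContDiffBump (0 : E)).normed volume (x - x') * (1 + f x' ^ 2) :=
        mul_le_mul_of_nonneg_left h1 h0
    _ = _ := by simp only [Pi.add_apply]; ring

private lemma mc_point (hε : 0 < ε) {f : E → ℝ} (hf : MemLp f 2) (x : E) :
    moll ε hε f x ^ 2 ≤
      ∫ x', (eta ε hε : ContDiffBump (0 : E)).normed volume (x - x') * f x' ^ 2 := by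
  set m := moll ε hε f x with hm
  have h1 : ∫ x', (eta ε hε : ContDiffBump (0 : E)).normed volume (x - x') = 1 := by
    rw [integral_sub_left_eq_self (fun y => (eta ε hε : ContDiffBump (0 : E)).normed volume y)
      volume x]
    exact ContDiffBump.integral_normed _
  have h2 : 0 ≤ ∫ x', (eta ε hε : ContDiffBump (0 : E)).normed volume (x - x') *
      (f x' - m) ^ 2 := integral_nonneg fun x' =>
    mul_nonneg (ContDiffBump.nonneg_normed _ _) (sq_nonneg _)
  have h3 : ∫ x', (eta ε hε : ContDiffBump (0 : E)).normed volume (x - x') *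
      (f x' - m) ^ 2 =
      (∫ x', (eta ε hε : ContDiffBump (0 : E)).normed volume (x - x') * f x' ^ 2) -
        2 * m * (∫ x', (eta ε hε : ContDiffBump (0 : E)).normed volume (x - x') * f x') +
        m ^ 2 * ∫ x', (eta ε hε : ContDiffBump (0 : E)).normed volume (x - x') := by
    have i1 : Integrable (fun x' : E => (eta ε hε : ContDiffBump (0 : E)).normed volume (x - x') *
        f x' ^ 2 - 2 * m * ((eta ε hε : ContDiffBump (0 : E)).normed volume (x - x') * f x')) :=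
      (mc_sq hε hf x).sub ((mc_lin hε hf x).const_mul _)
    rw [← integral_const_mul, ← integral_const_mul, ← integral_sub (mc_sq hε hf x)
      ((mc_lin hε hf x).const_mul _), ← integral_add i1 ((mc_int_sub hε x).const_mul _)]
    congr 1
    funext x'
    ring
  have h4 : ∫ x', (eta ε hε : ContDiffBump (0 : E)).normed volume (x - x') * f x' = m := rfl
  rw [h3, h1, h4] at h2
  nlinarith

private lemma mc_prod (hε : 0 < ε) {f : E → ℝ} (hf : MemLp f 2) :
    Integrable (fun p : E × E => (eta ε hε : ContDiffBump (0 : E)).normed volume (p.1 - p.2) *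
      f p.2 ^ 2) ((volume : Measure E).prod volume) := by
  have hf2 : Integrable (fun x' => f x' ^ 2) := hf.integrable_sq
  have h := hf2.convolution_integrand (ContinuousLinearMap.mul ℝ ℝ) (mc_int (E := E) hε)
  refine h.congr (Eventually.of_forall fun p => ?_)
  simp only [ContinuousLinearMap.mul_apply']
  ring

private lemma mc_set (hε : 0 < ε) {f : E → ℝ} (hf : MemLp f 2) {A B : Set E}
    (hA : MeasurableSet A) (hB : MeasurableSet B)
    (hAB : ∀ x ∈ A, ∀ x' : E, ‖x - x'‖ < ε → x' ∈ B) :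
    ∫ x in A, moll ε hε f x ^ 2 ≤ ∫ x in B, f x ^ 2 := by
  have hf2 : Integrable (fun x' => f x' ^ 2) := hf.integrable_sq
  have hpr := mc_prod (E := E) hε hf
  have hG : Integrable (fun x => ∫ x', (eta ε hε : ContDiffBump (0 : E)).normed volume (x - x') *
      f x' ^ 2) := hpr.integral_prod_left
  have h1 : ∫ x in A, moll ε hε f x ^ 2 ≤
      ∫ x in A, ∫ x', (eta ε hε : ContDiffBump (0 : E)).normed volume (x - x') * f x' ^ 2 :=
    integral_mono_of_nonneg (Eventually.of_forall fun x => sq_nonneg _) hG.integrableOn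
      (Eventually.of_forall fun x => mc_point hε hf x)
  refine h1.trans ?_
  have hprA : Integrable (Function.uncurry fun x x' : E =>
      (eta ε hε : ContDiffBump (0 : E)).normed volume (x - x') * f x' ^ 2)
      (((volume : Measure E).restrict A).prod (volume : Measure E)) := by
    have e : ((volume : Measure E).restrict A).prod (volume : Measure E) =
        ((volume : Measure E).prod (volume : Measure E)).restrict (A ×ˢ (univ : Set E)) := by
      rw [← Measure.prod_restrict, Measure.restrict_univ]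
    rw [e]
    exact hpr.integrableOn
  rw [integral_integral_swap hprA, ← integral_indicator hB]
  apply integral_mono_of_nonneg
  · exact Eventually.of_forall fun x' => integral_nonneg fun x =>
      mul_nonneg (ContDiffBump.nonneg_normed _ _) (sq_nonneg _)
  · exact hf2.indicator hB
  · refine Eventually.of_forall fun x' => ?_
    simp only
    rw [integral_mul_const]
    have hc1 : ∫ x in A, (eta ε hε : ContDiffBump (0 : E)).normed volume (x - x') ≤ 1 := by
      have h2 : ∫ x, (eta ε hε : ContDiffBump (0 : E)).normed volume (x - x') = 1 := by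
        rw [integral_sub_right_eq_self
          (fun y => (eta ε hε : ContDiffBump (0 : E)).normed volume y) x']
        exact ContDiffBump.integral_normed _
      rw [← h2]
      exact setIntegral_le_integral ((mc_int hε).comp_sub_right x')
        (Eventually.of_forall fun x => ContDiffBump.nonneg_normed _ _)
    by_cases hx : x' ∈ B
    · rw [indicator_of_mem hx]
      calc (∫ x in A, (eta ε hε : ContDiffBump (0 : E)).normed volume (x - x')) * f x' ^ 2
          ≤ 1 * f x' ^ 2 := mul_le_mul_of_nonneg_right hc1 (sq_nonneg _)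
        _ = f x' ^ 2 := one_mul _
    · rw [indicator_of_notMem hx]
      have h3 : ∫ x in A, (eta ε hε : ContDiffBump (0 : E)).normed volume (x - x') = 0 := by
        apply setIntegral_eq_zero_of_forall_eq_zero
        intro x hxA
        apply mc_zero hε
        by_contra hcon
        push Not at hcon
        exact hx (hAB x hxA x' hcon)
      rw [h3, zero_mul]

/-- Contraction in `L²`, local version. PROOF: `(moll f x)² ≤ ∫ η(x - x') f(x')² dx'` (Cauchy-Schwarz, `∫ η = 1`),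
integrate over `ball z s` (Fubini-Tonelli): for `x ∈ ball z s` only `x' ∈ ball z (s + ε)` contribute. -/
theorem moll_l2_ball (hε : 0 < ε) {f : E → ℝ} (hf : MemLp f 2) (z : E) (s : ℝ) :
    ∫ x in ball z s, moll ε hε f x ^ 2 ≤ ∫ x in ball z (s + ε), f x ^ 2 := by
  refine mc_set hε hf measurableSet_ball measurableSet_ball fun x hx x' hxx' => ?_
  rw [mem_ball, dist_eq_norm] at hx ⊢
  calc ‖x' - z‖ = ‖(x - z) - (x - x')‖ := by congr 1; abel
    _ ≤ ‖x - z‖ + ‖x - x'‖ := norm_sub_le _ _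
    _ < s + ε := add_lt_add hx hxx'

theorem moll_l2 (hε : 0 < ε) {f : E → ℝ} (hf : MemLp f 2) :
    Integrable (fun x => moll ε hε f x ^ 2) ∧ ∫ x, moll ε hε f x ^ 2 ≤ ∫ x, f x ^ 2 := by
  constructor
  · have hG : Integrable (fun x => ∫ x', (eta ε hε : ContDiffBump (0 : E)).normed volume (x - x') *
        f x' ^ 2) := (mc_prod hε hf).integral_prod_left
    refine hG.mono' ?_ (Eventually.of_forall fun x => ?_)
    · exact ((moll_contDiff hε hf).continuous.pow 2).aestronglyMeasurable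
    · rw [Real.norm_eq_abs, abs_of_nonneg (sq_nonneg _)]
      exact mc_point hε hf x
  · have h := mc_set (A := univ) (B := univ) hε hf MeasurableSet.univ MeasurableSet.univ
      fun _ _ _ _ => mem_univ _
    rwa [setIntegral_univ, setIntegral_univ] at h

end

end Pool.Agent.Lib.MP_79abb3_an.WG
end

section

/-!
Theorem W (MP_79abb3_an), block G3: from the static spectral inequality to observability, one step.
-/

set_option autoImplicit false
set_option linter.unusedSectionVars false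

open MeasureTheory Set Filter Topology Function
open scoped InnerProductSpace ComplexConjugate

namespace Pool.Agent.Lib.MP_79abb3_an.W

open Pool.Agent.Lib.MP_79abb3_an.SC

section
variable {E : Type} [NormedAddCommGroup E] [InnerProductSpace ℂ E] [CompleteSpace E] {K χ : E →L[ℂ] E} {C : ℝ}

/-- Pointwise in time. Proof: `y = S(t) q`, `F y = Fc K (L³/2) y`; `‖y‖ ≤ ‖F y‖ + ‖y - F y‖`,
`‖F y‖ ≤ e^{C L²} ‖χ F y‖ ≤ e^{C L²} (‖χ y‖ + ‖y - F y‖)`, and `y - F y = (1 - F) S(t-t₀) S(t₀) q`. -/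
theorem Stat.point (h : Stat K χ C) (hK : 0 ≤ K) (hχ : ∀ x, ‖χ x‖ ≤ ‖x‖) {L t₀ t : ℝ} (hL : 1 ≤ L) (h0 : 0 ≤ t₀)
    (ht : t₀ < t) (q : E) : ‖Sg K t q‖ ≤ Real.exp (C * L ^ 2) * ‖χ (Sg K t q)‖ +
      2 * Real.exp (C * L ^ 2) * Real.exp (-((t - t₀) * (L ^ 3 / 2))) * ‖Sg K t₀ q‖ := by
  have hΛ : 0 < L ^ 3 / 2 := by positivity
  set y := Sg K t q with hy
  set F := Fc K (L ^ 3 / 2) with hF
  have e1 : y = Sg K (t - t₀) (Sg K t₀ q) := by
    have h1 := Sg_add (K := K) (s := t - t₀) (t := t₀) (by linarith) h0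
    rw [sub_add_cancel] at h1
    rw [hy, h1]; rfl
  have h1 : ‖y - F y‖ ≤ Real.exp (-((t - t₀) * (L ^ 3 / 2))) * ‖Sg K t₀ q‖ := by
    rw [e1]
    exact Fc_rest hK hΛ (by linarith) _
  have h2 := h.le L hL y
  rw [← hF] at h2
  have h3 : ‖χ (F y)‖ ≤ ‖χ y‖ + ‖y - F y‖ := by
    have e2 : χ (F y) = χ y - χ (y - F y) := by rw [map_sub]; abel
    rw [e2]
    exact (norm_sub_le _ _).trans (add_le_add le_rfl (hχ _))
  have h4 : ‖y‖ ≤ ‖F y‖ + ‖y - F y‖ := by
    have e3 : y = F y + (y - F y) := by abel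
    calc ‖y‖ = ‖F y + (y - F y)‖ := by rw [← e3]
      _ ≤ _ := norm_add_le _ _
  have hE : 1 ≤ Real.exp (C * L ^ 2) := Real.one_le_exp (mul_nonneg h.C0 (sq_nonneg L))
  set a := Real.exp (C * L ^ 2) with ha
  set r := ‖y - F y‖ with hr
  have hr0 : 0 ≤ r := norm_nonneg _
  have h5 : ‖y‖ ≤ a * ‖χ y‖ + 2 * a * r := by
    have h6 : ‖F y‖ ≤ a * (‖χ y‖ + r) := h2.trans (mul_le_mul_of_nonneg_left h3 (by linarith))
    nlinarith
  calc ‖y‖ ≤ a * ‖χ y‖ + 2 * a * r := h5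
    _ ≤ a * ‖χ y‖ + 2 * a * (Real.exp (-((t - t₀) * (L ^ 3 / 2))) * ‖Sg K t₀ q‖) := by
        have : 0 ≤ 2 * a := by linarith
        linarith [mul_le_mul_of_nonneg_left h1 this]
    _ = _ := by ring

/-- One step. Proof: square `Stat.point` (`(a + b)² ≤ 2 a² + 2 b²`) for `t ∈ [t₀ + τ/2, t₀ + τ]`,
`‖S(t₀+τ) q‖ ≤ ‖S(t) q‖`, integrate. -/
theorem Stat.step (h : Stat K χ C) (hK : 0 ≤ K) (hi : ∀ x, K x = 0 → x = 0) (hχ : ∀ x, ‖χ x‖ ≤ ‖x‖)
    {L t₀ τ : ℝ} (hL : 1 ≤ L) (h0 : 0 ≤ t₀) (hτ : 0 < τ) (q : E) :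
    ‖Sg K (t₀ + τ) q‖ ^ 2 ≤
      4 / τ * Real.exp (2 * (C * L ^ 2)) * (∫ t in t₀..(t₀ + τ), ‖χ (Sg K t q)‖ ^ 2) +
      8 * Real.exp (2 * (C * L ^ 2) - τ * L ^ 3 / 2) * ‖Sg K t₀ q‖ ^ 2 := by
  have hc : Continuous fun t => ‖χ (Sg K t q)‖ ^ 2 :=
    ((χ.continuous.comp (Sg_continuousOn_apply hK hi q)).norm).pow 2
  set a := Real.exp (C * L ^ 2) with ha
  have ha2 : a ^ 2 = Real.exp (2 * (C * L ^ 2)) := by
    rw [ha, ← Real.exp_nat_mul]
    congr 1
  set M := ‖Sg K t₀ q‖ with hM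
  set R := 8 * Real.exp (2 * (C * L ^ 2) - τ * L ^ 3 / 2) * M ^ 2 with hR
  have hpt : ∀ t ∈ Icc (t₀ + τ / 2) (t₀ + τ), ‖Sg K (t₀ + τ) q‖ ^ 2 ≤ 2 * a ^ 2 * ‖χ (Sg K t q)‖ ^ 2 + R := by
    intro t ht
    have h1 := h.point hK hχ hL h0 (t := t) (by linarith [ht.1]) q
    rw [← ha, ← hM] at h1
    have h2 : ‖Sg K (t₀ + τ) q‖ ≤ ‖Sg K t q‖ := by
      have h3 := Sg_add (K := K) (s := t₀ + τ - t) (t := t) (by linarith [ht.2]) (by linarith [ht.1])
      rw [sub_add_cancel] at h3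
      rw [h3]
      exact Sg_norm_apply hK _ _
    have h4 : Real.exp (-((t - t₀) * (L ^ 3 / 2))) ≤ Real.exp (-(τ * L ^ 3 / 4)) := by
      rw [Real.exp_le_exp]
      have h5 : 0 < L ^ 3 := by positivity
      nlinarith [ht.1]
    have hM0 : 0 ≤ M := norm_nonneg _
    have ha0 : 0 < a := Real.exp_pos _
    have h6 : ‖Sg K (t₀ + τ) q‖ ≤ a * ‖χ (Sg K t q)‖ + 2 * a * Real.exp (-(τ * L ^ 3 / 4)) * M := by
      refine h2.trans (h1.trans ?_)
      have := mul_le_mul_of_nonneg_left h4 (by positivity : 0 ≤ 2 * a)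
      nlinarith [mul_le_mul_of_nonneg_right this hM0]
    have h7 : ‖Sg K (t₀ + τ) q‖ ^ 2 ≤
        (a * ‖χ (Sg K t q)‖ + 2 * a * Real.exp (-(τ * L ^ 3 / 4)) * M) ^ 2 :=
      pow_le_pow_left₀ (norm_nonneg _) h6 2
    have e1 : 2 * (2 * a * Real.exp (-(τ * L ^ 3 / 4)) * M) ^ 2 = R := by
      rw [hR, Real.exp_sub, ← ha2]
      have e2 : Real.exp (-(τ * L ^ 3 / 4)) ^ 2 = (Real.exp (τ * L ^ 3 / 2))⁻¹ := by
        rw [← Real.exp_nat_mul, ← Real.exp_neg]
        congr 1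
        push_cast
        ring
      rw [mul_pow, mul_pow, e2]
      ring
    nlinarith [sq_nonneg (a * ‖χ (Sg K t q)‖ - 2 * a * Real.exp (-(τ * L ^ 3 / 4)) * M)]
  have hi1 : ∀ c d : ℝ, IntervalIntegrable (fun t => ‖χ (Sg K t q)‖ ^ 2) volume c d :=
    fun c d => hc.intervalIntegrable _ _
  have h8 : ∫ _t in (t₀ + τ / 2)..(t₀ + τ), ‖Sg K (t₀ + τ) q‖ ^ 2 ≤
      ∫ t in (t₀ + τ / 2)..(t₀ + τ), (2 * a ^ 2 * ‖χ (Sg K t q)‖ ^ 2 + R) := by
    refine intervalIntegral.integral_mono_on (by linarith) intervalIntegrable_const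
      (((hi1 _ _).const_mul _).add intervalIntegrable_const) hpt
  rw [intervalIntegral.integral_const, smul_eq_mul, intervalIntegral.integral_add
    ((hi1 _ _).const_mul _) intervalIntegrable_const, intervalIntegral.integral_const_mul,
    intervalIntegral.integral_const, smul_eq_mul] at h8
  have h9 : ∫ t in (t₀ + τ / 2)..(t₀ + τ), ‖χ (Sg K t q)‖ ^ 2 ≤ ∫ t in t₀..(t₀ + τ), ‖χ (Sg K t q)‖ ^ 2 := by
    refine intervalIntegral.integral_mono_interval (by linarith) (by linarith) le_rfl ?_ (hi1 _ _)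
    exact Eventually.of_forall fun t => by positivity
  have e3 : t₀ + τ - (t₀ + τ / 2) = τ / 2 := by ring
  rw [e3] at h8
  set I := ∫ t in t₀..(t₀ + τ), ‖χ (Sg K t q)‖ ^ 2 with hI
  rw [← ha2]
  have ha0 : 0 < a := Real.exp_pos _
  have h10 : τ / 2 * ‖Sg K (t₀ + τ) q‖ ^ 2 ≤ 2 * a ^ 2 * I + τ / 2 * R := by
    have := mul_le_mul_of_nonneg_left h9 (by positivity : 0 ≤ 2 * a ^ 2)
    linarith
  have h11 : ‖Sg K (t₀ + τ) q‖ ^ 2 ≤ (2 * a ^ 2 * I + τ / 2 * R) / (τ / 2) := by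
    rw [le_div_iff₀ (by positivity)]
    linarith
  refine h11.trans (le_of_eq ?_)
  field_simp
  ring

end

end Pool.Agent.Lib.MP_79abb3_an.W
end

section

/-!
Theorem W (MP_79abb3_an), block G3: telescoping (the direct Lebeau-Robbiano strategy).
-/

set_option autoImplicit false
set_option linter.unusedSectionVars false

open MeasureTheory Set Filter Topology Function
open scoped InnerProductSpace ComplexConjugate

namespace Pool.Agent.Lib.MP_79abb3_an.W

open Pool.Agent.Lib.MP_79abb3_an.SC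

/-- the weight `w(τ) = (τ/4) exp (-D/τ²)` -/
noncomputable def wgt (D τ : ℝ) : ℝ := τ / 4 * Real.exp (-(D / τ ^ 2))

section
variable {E : Type} [NormedAddCommGroup E] [InnerProductSpace ℂ E] [CompleteSpace E] {K χ : E →L[ℂ] E} {C : ℝ}

/-- The scalar inequality: `A = 16 C + 6`, `D = 2 C A²`, `2 τ exp (-A³/(2τ²)) ≤ w(τ/2)`. -/
theorem wgt_le (hC : 0 ≤ C) {τ : ℝ} (hτ : 0 < τ) (hτ1 : τ ≤ 1) :
    2 * τ * Real.exp (-((16 * C + 6) ^ 3 / (2 * τ ^ 2))) ≤ wgt (2 * C * (16 * C + 6) ^ 2) (τ / 2) := by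
  have h1 : (16:ℝ) ≤ Real.exp 3 := by
    have h2 : (2.7182818283 : ℝ) ≤ Real.exp 1 := Real.exp_one_gt_d9.le
    have h3 : Real.exp 3 = Real.exp 1 ^ 3 := by
      rw [← Real.exp_nat_mul]; norm_num
    rw [h3]
    calc (16:ℝ) ≤ (2.7182818283 : ℝ) ^ 3 := by norm_num
      _ ≤ _ := pow_le_pow_left₀ (by norm_num) h2 3
  unfold wgt
  set A := 16 * C + 6 with hA
  have hA6 : 6 ≤ A := by linarith
  have hτ2 : 0 < τ ^ 2 := by positivity
  have e1 : -(2 * C * A ^ 2 / (τ / 2) ^ 2) = -(A ^ 3 / (2 * τ ^ 2)) + A ^ 2 * 3 / τ ^ 2 := by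
    have h16 : 16 * C = A - 6 := by linarith
    field_simp
    nlinarith
  rw [e1, Real.exp_add]
  have h4 : Real.exp 3 ≤ Real.exp (A ^ 2 * 3 / τ ^ 2) := by
    rw [Real.exp_le_exp, le_div_iff₀ hτ2]
    have h5 : τ ^ 2 ≤ 1 := pow_le_one₀ hτ.le hτ1
    nlinarith
  have h6 : 0 < Real.exp (-(A ^ 3 / (2 * τ ^ 2))) := Real.exp_pos _
  have h7 : 16 ≤ Real.exp (A ^ 2 * 3 / τ ^ 2) := h1.trans h4
  nlinarith [mul_pos hτ h6]

/-- One step with the weights: `w(τ) ‖S(2τ) q‖² ≤ ∫_τ^{2τ} ‖χ S q‖² + w(τ/2) ‖S(τ) q‖²`.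
Proof: `Stat.step` with `t₀ = τ`, `L = A/τ`, `A = 16 C + 6`, multiplied by `w(τ)`, `D = 2 C A²`. -/
theorem Stat.tele (h : Stat K χ C) (hK : 0 ≤ K) (hi : ∀ x, K x = 0 → x = 0) (hχ : ∀ x, ‖χ x‖ ≤ ‖x‖)
    {τ : ℝ} (hτ : 0 < τ) (hτ1 : τ ≤ 1) (q : E) :
    wgt (2 * C * (16 * C + 6) ^ 2) τ * ‖Sg K (2 * τ) q‖ ^ 2 ≤
      (∫ t in τ..(2 * τ), ‖χ (Sg K t q)‖ ^ 2) +
        wgt (2 * C * (16 * C + 6) ^ 2) (τ / 2) * ‖Sg K τ q‖ ^ 2 := by
  have hC := h.C0
  have hw := wgt_le hC hτ hτ1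
  set A := 16 * C + 6 with hA
  have hA6 : 6 ≤ A := by linarith
  have hL : 1 ≤ A / τ := by
    rw [le_div_iff₀ hτ]
    linarith
  have h1 := h.step hK hi hχ hL hτ.le hτ q
  have e0 : τ + τ = 2 * τ := by ring
  rw [e0] at h1
  set I := ∫ t in τ..(2 * τ), ‖χ (Sg K t q)‖ ^ 2 with hI
  set M := ‖Sg K τ q‖ ^ 2 with hM
  have hM0 : 0 ≤ M := by positivity
  have hwpos : 0 < wgt (2 * C * A ^ 2) τ := by unfold wgt; positivity
  have h2 := mul_le_mul_of_nonneg_left h1 hwpos.le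
  have e1 : 2 * (C * (A / τ) ^ 2) = 2 * C * A ^ 2 / τ ^ 2 := by
    field_simp
  have e2 : τ * (A / τ) ^ 3 / 2 = A ^ 3 / (2 * τ ^ 2) := by
    field_simp
  have e3 : wgt (2 * C * A ^ 2) τ * (4 / τ * Real.exp (2 * (C * (A / τ) ^ 2)) * I +
      8 * Real.exp (2 * (C * (A / τ) ^ 2) - τ * (A / τ) ^ 3 / 2) * M) =
      I + 2 * τ * Real.exp (-(A ^ 3 / (2 * τ ^ 2))) * M := by
    rw [e1, e2, Real.exp_sub, wgt, Real.exp_neg, Real.exp_neg]
    have hx : Real.exp (2 * C * A ^ 2 / τ ^ 2) ≠ 0 := (Real.exp_pos _).ne'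
    have hy : Real.exp (A ^ 3 / (2 * τ ^ 2)) ≠ 0 := (Real.exp_pos _).ne'
    field_simp
    ring
  rw [e3] at h2
  exact h2.trans (by linarith [mul_le_mul_of_nonneg_right hw hM0])

/-- **Observability without weight**: `‖S(T) q‖² ≤ exp (C₁/T²) ∫_0^T ‖χ S q‖²`.
Proof: `a k = w(T/2^{k+1}) ‖S(T/2^k) q‖²`, `a k ≤ ∫_{T/2^{k+1}}^{T/2^k} + a (k+1)` (`Stat.tele`), so
`a 0 ≤ ∫_{T/2^n}^T + a n ≤ ∫_0^T + a n`, `a n → 0`; `a 0 = (T/8) exp (-4D/T²) ‖S(T) q‖²`. -/
theorem Stat.obs0 (h : Stat K χ C) (hK : 0 ≤ K) (hi : ∀ x, K x = 0 → x = 0) (hχ : ∀ x, ‖χ x‖ ≤ ‖x‖)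
    {T : ℝ} (hT : 0 < T) (hT1 : T ≤ 1) (q : E) :
    ‖Sg K T q‖ ^ 2 ≤ Real.exp ((8 * C * (16 * C + 6) ^ 2 + 8) / T ^ 2) *
      ∫ t in (0:ℝ)..T, ‖χ (Sg K t q)‖ ^ 2 := by
  have hC := h.C0
  set D := 2 * C * (16 * C + 6) ^ 2 with hD
  have hD0 : 0 ≤ D := by positivity
  have hc : Continuous fun t => ‖χ (Sg K t q)‖ ^ 2 :=
    ((χ.continuous.comp (Sg_continuousOn_apply hK hi q)).norm).pow 2
  have hi1 : ∀ c d : ℝ, IntervalIntegrable (fun t => ‖χ (Sg K t q)‖ ^ 2) volume c d :=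
    fun c d => hc.intervalIntegrable _ _
  have h2p : ∀ n : ℕ, (0:ℝ) < 2 ^ n := fun n => by positivity
  have hpos : ∀ n : ℕ, 0 < T / 2 ^ n := fun n => div_pos hT (h2p n)
  have hle : ∀ n : ℕ, T / 2 ^ n ≤ T := fun n => div_le_self hT.le (one_le_pow₀ (by norm_num))
  -- the telescoping inequality
  have key : ∀ n : ℕ, wgt D (T / 2) * ‖Sg K T q‖ ^ 2 ≤
      (∫ t in (T / 2 ^ n)..T, ‖χ (Sg K t q)‖ ^ 2) + wgt D (T / 2 ^ (n + 1)) * ‖Sg K (T / 2 ^ n) q‖ ^ 2 := by
    intro n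
    induction n with
    | zero => simp
    | succ n ih =>
      have h1 := h.tele hK hi hχ (hpos (n + 1)) ((hle (n + 1)).trans hT1) q
      rw [← hD] at h1
      have e1 : 2 * (T / 2 ^ (n + 1)) = T / 2 ^ n := by
        rw [pow_succ]
        field_simp
      have e2 : T / 2 ^ (n + 1) / 2 = T / 2 ^ (n + 1 + 1) := by
        rw [pow_succ (2:ℝ) (n + 1)]
        field_simp
      rw [e1, e2] at h1
      have h3 := intervalIntegral.integral_add_adjacent_intervals (hi1 (T / 2 ^ (n + 1)) (T / 2 ^ n))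
        (hi1 (T / 2 ^ n) T)
      linarith
  have h3 : ∀ n : ℕ, wgt D (T / 2) * ‖Sg K T q‖ ^ 2 ≤
      (∫ t in (0:ℝ)..T, ‖χ (Sg K t q)‖ ^ 2) + T / 2 ^ n * ‖q‖ ^ 2 := by
    intro n
    refine (key n).trans (add_le_add ?_ ?_)
    · refine intervalIntegral.integral_mono_interval (hpos n).le (hle n) le_rfl ?_ (hi1 _ _)
      exact Eventually.of_forall fun t => by positivity
    · have h4 : ‖Sg K (T / 2 ^ n) q‖ ^ 2 ≤ ‖q‖ ^ 2 :=
        pow_le_pow_left₀ (norm_nonneg _) (Sg_norm_apply hK _ _) 2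
      have h5 : wgt D (T / 2 ^ (n + 1)) ≤ T / 2 ^ n := by
        unfold wgt
        have h6 : Real.exp (-(D / (T / 2 ^ (n + 1)) ^ 2)) ≤ 1 := by
          rw [Real.exp_le_one_iff]
          have : 0 ≤ D / (T / 2 ^ (n + 1)) ^ 2 := div_nonneg hD0 (by positivity)
          linarith
        have h7 : T / 2 ^ (n + 1) ≤ T / 2 ^ n := by
          rw [pow_succ, ← div_div]
          linarith [hpos n]
        have h8 := hpos (n + 1)
        have h9 := Real.exp_pos (-(D / (T / 2 ^ (n + 1)) ^ 2))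
        nlinarith
      exact mul_le_mul h5 h4 (by positivity) (hpos n).le
  have h4 : wgt D (T / 2) * ‖Sg K T q‖ ^ 2 ≤ ∫ t in (0:ℝ)..T, ‖χ (Sg K t q)‖ ^ 2 := by
    have h5 : Tendsto (fun n : ℕ => (∫ t in (0:ℝ)..T, ‖χ (Sg K t q)‖ ^ 2) + T / 2 ^ n * ‖q‖ ^ 2) atTop
        (𝓝 ((∫ t in (0:ℝ)..T, ‖χ (Sg K t q)‖ ^ 2) + 0 * ‖q‖ ^ 2)) := by
      refine tendsto_const_nhds.add (Tendsto.mul_const _ ?_)
      have h6 : Tendsto (fun n : ℕ => T * (1 / 2 : ℝ) ^ n) atTop (𝓝 (T * 0)) :=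
        (tendsto_pow_atTop_nhds_zero_of_lt_one (by norm_num) (by norm_num)).const_mul T
      rw [mul_zero] at h6
      refine h6.congr fun n => ?_
      rw [one_div, inv_pow]; rfl
    rw [zero_mul, add_zero] at h5
    exact ge_of_tendsto' h5 h3
  have h5 : 8 / T ≤ Real.exp (8 / T ^ 2) := by
    have h6 : 8 / T ≤ 8 / T ^ 2 := by
      rw [div_le_div_iff₀ hT (by positivity)]
      nlinarith
    have h7 := Real.add_one_le_exp (8 / T ^ 2)
    linarith
  have hI0 : 0 ≤ ∫ t in (0:ℝ)..T, ‖χ (Sg K t q)‖ ^ 2 :=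
    intervalIntegral.integral_nonneg hT.le fun t _ => by positivity
  have e4 : wgt D (T / 2) = (8 / T * Real.exp (4 * D / T ^ 2))⁻¹ := by
    rw [wgt, Real.exp_neg, mul_inv]
    congr 1
    · field_simp
      norm_num
    · congr 2
      field_simp
      norm_num
  have hpos' : 0 < 8 / T * Real.exp (4 * D / T ^ 2) := by positivity
  rw [e4, inv_mul_le_iff₀ hpos'] at h4
  refine h4.trans (mul_le_mul_of_nonneg_right ?_ hI0)
  have e5 : (8 * C * (16 * C + 6) ^ 2 + 8) / T ^ 2 = 8 / T ^ 2 + 4 * D / T ^ 2 := by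
    rw [hD]; ring
  rw [e5, Real.exp_add]
  exact mul_le_mul_of_nonneg_right h5 (Real.exp_pos _).le

end

end Pool.Agent.Lib.MP_79abb3_an.W
end

section

/-!
Theorem W, block G: mollification of low frequency sequences.
-/

set_option autoImplicit false
set_option linter.unusedSectionVars false
set_option linter.unusedVariables false

open MeasureTheory Set Filter Topology Metric Laplacian
open scoped ContDiff InnerProductSpace

namespace Pool.Agent.Lib.MP_79abb3_an.WG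

section
variable {E : Type} [NormedAddCommGroup E] [InnerProductSpace ℝ E] [FiniteDimensional ℝ E]
  [MeasurableSpace E] [BorelSpace E] {D : Set E} {lam ε : ℝ}

/-- The mollified sequence. PROOF: `moll_contDiff`, `moll_bnd` (`√(lam^(2k)) = lam^k`), `moll_l2`, and the equation:
`moll_lap2`, `lap2_eta_sub`, `RFS.eqn` with `φ = η(x - ·)` (`eta_te`), `lap_eta_sub`, `moll_lap`. -/
theorem RFS.moll {f : ℕ → E → ℝ} (h : RFS D lam f) (hl : 0 ≤ lam) (hε : 0 < ε) :
    LFS (er D ε) lam (fun k => WG.moll ε hε (f k)) := by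
  refine ⟨fun k => moll_contDiff hε (h.mem k), fun n => ?_, fun k x hx => ?_,
    fun k => (moll_l2 hε (h.mem k)).1, fun k => (moll_l2 hε (h.mem k)).2.trans (h.l2 k)⟩
  · obtain ⟨B, hB0, hB⟩ := moll_bnd (E := E) hε n
    refine ⟨B, fun k x => (hB (f k) (h.mem k) x).trans (mul_le_mul_of_nonneg_left ?_ hB0)⟩
    have h1 : √(∫ x, f k x ^ 2) ≤ √(lam ^ (2 * k)) := Real.sqrt_le_sqrt (h.l2 k)
    have h2 : √(lam ^ (2 * k)) = lam ^ k := by
      rw [mul_comm, pow_mul]
      exact Real.sqrt_sq (pow_nonneg hl k)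
    rw [← h2]
    exact h1
  · have h1 := h.eqn k _ (eta_te hε hx)
    rw [moll_lap2 hε (h.mem k), moll_lap hε (h.mem (k + 1))]
    have e1 : ∫ x', Δ (Δ ((eta ε hε : ContDiffBump (0 : E)).normed volume)) (x - x') * f k x' =
        ∫ x', f k x' * Δ (Δ (fun x' => (eta ε hε : ContDiffBump (0 : E)).normed volume (x - x'))) x' := by
      refine integral_congr_ae (Eventually.of_forall fun x' => ?_)
      simp only
      rw [lap2_eta_sub, mul_comm]
    have e2 : ∫ x', Δ ((eta ε hε : ContDiffBump (0 : E)).normed volume) (x - x') * f (k + 1) x' =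
        ∫ x', f (k + 1) x' * Δ (fun x' => (eta ε hε : ContDiffBump (0 : E)).normed volume (x - x')) x' := by
      refine integral_congr_ae (Eventually.of_forall fun x' => ?_)
      simp only
      rw [lap_eta_sub, mul_comm]
    rw [e1, e2, h1]

/-- Almost everywhere convergence. PROOF: `ContDiffBump.ae_convolution_tendsto_right_of_locallyIntegrable`
(along `ε_n = 1/(n+1)`, with `K = 2`). -/
theorem moll_ae {f : E → ℝ} (hf : MemLp f 2) :
    ∀ᵐ x : E, Tendsto (fun n : ℕ => moll (1 / ((n : ℝ) + 1)) (by positivity) f x) atTop (𝓝 (f x)) := by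
  have hpos : ∀ n : ℕ, (0 : ℝ) < 1 / ((n : ℝ) + 1) := fun n => by positivity
  have h1 : Tendsto (fun n : ℕ => (eta (1 / ((n : ℝ) + 1)) (hpos n) : ContDiffBump (0 : E)).rOut)
      atTop (𝓝 0) := tendsto_one_div_add_atTop_nhds_zero_nat
  have h2 : ∀ᶠ n : ℕ in atTop, (eta (1 / ((n : ℝ) + 1)) (hpos n) : ContDiffBump (0 : E)).rOut ≤
      2 * (eta (1 / ((n : ℝ) + 1)) (hpos n) : ContDiffBump (0 : E)).rIn := by
    refine Eventually.of_forall fun n => ?_
    show 1 / ((n : ℝ) + 1) ≤ 2 * (1 / ((n : ℝ) + 1) / 2)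
    linarith
  have h3 := ContDiffBump.ae_convolution_tendsto_right_of_locallyIntegrable
    (φ := fun n : ℕ => (eta (1 / ((n : ℝ) + 1)) (hpos n) : ContDiffBump (0 : E))) (μ := volume)
    h1 h2 (hf.locallyIntegrable (by norm_num))
  filter_upwards [h3] with x hx
  refine hx.congr fun n => ?_
  have h4 := congrFun (moll_eq_conv (hpos n) f) x
  rw [h4]
  rfl

end

end Pool.Agent.Lib.MP_79abb3_an.WG
end

section

/-!
Theorem W (MP_79abb3_an), Phase 0: Leray solutions with coefficients which are singular at the initial time `0`.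
-/

set_option autoImplicit false
set_option linter.unusedSectionVars false

open MeasureTheory Set Filter Topology Function
open scoped ENNReal InnerProductSpace

namespace Pool.Agent.Lib.MP_79abb3_an.W

section
variable {H V : Type} [NormedAddCommGroup H] [InnerProductSpace ℝ H] [CompleteSpace H]
  [NormedAddCommGroup V] [InnerProductSpace ℝ V] [CompleteSpace V] {ι : V →L[ℝ] H} {α b : ℝ}
  {F : ℝ → V →L[ℝ] H} {g : ℝ → H} {N : H →L[ℝ] V →L[ℝ] H} {e : ℝ → V} {κ β : ℝ → ℝ}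

private theorem p0e1_sub {f : ℝ → ℝ} (hf : IntegrableOn f (Ioc 0 b)) (h0 : ∀ r ∈ Ioc 0 b, 0 ≤ f r) {t : ℝ}
    (hα : 0 < α) (hαt : α ≤ t) (htb : t ≤ b) :
    IntervalIntegrable f volume α t ∧ ∫ r in α..t, f r ≤ ∫ r in (0 : ℝ)..b, f r := by
  have hb : 0 ≤ b := hα.le.trans (hαt.trans htb)
  have h1 : IntervalIntegrable f volume 0 b := (intervalIntegrable_iff_integrableOn_Ioc_of_le hb).2 hf
  refine ⟨h1.mono_set ?_, ?_⟩
  · rw [uIcc_of_le hαt, uIcc_of_le hb]
    exact Icc_subset_Icc hα.le htb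
  · refine intervalIntegral.integral_mono_interval hα.le hαt htb ?_ h1
    filter_upwards [ae_restrict_mem measurableSet_Ioc] with r hr
    exact h0 r hr

/-- The a priori bound, uniform in the left end point `α`. Let `S = sup ‖ι (e t)‖` (attained), `B = ∫_0^b β`. The energy identity
`RSol.energy` from `α` (`e α = 0`) gives `‖ι (e t)‖² + 2 ∫_α^t ‖e‖² ≤ 2 ∫_α^t (κ ‖ι e‖² + β ‖ι e‖) ≤ S²/2 + 2 B S`; so `S² ≤ S²/2 + 2 B S`,
`S ≤ 4 B`, and `2 ∫ ‖e‖² ≤ 8 B² + 8 B²`. -/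
theorem p0_apriori (hα : 0 < α) (hαb : α ≤ b) (hN : ∀ u v, ⟪N u v, ι v⟫_ℝ = 0)
    (he : RSol ι 1 F g N α b e) (h0 : e α = 0)
    (hκ : IntegrableOn κ (Ioc 0 b)) (hβ : IntegrableOn β (Ioc 0 b)) (hκ0 : ∀ r ∈ Ioc 0 b, 0 ≤ κ r)
    (hβ0 : ∀ r ∈ Ioc 0 b, 0 ≤ β r) (hκ1 : ∫ r in (0 : ℝ)..b, κ r ≤ 1 / 4)
    (hF : ∀ r ∈ Ioc 0 b, ∀ v, -(κ r * ‖ι v‖ ^ 2) ≤ ⟪F r v, ι v⟫_ℝ) (hg : ∀ r ∈ Ioc 0 b, ‖g r‖ ≤ β r) :
    (∀ t ∈ Icc α b, ‖ι (e t)‖ ≤ 4 * ∫ r in (0 : ℝ)..b, β r) ∧
      ∫ t in α..b, ‖e t‖ ^ 2 ≤ 8 * (∫ r in (0 : ℝ)..b, β r) ^ 2 := by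
  set B : ℝ := ∫ r in (0 : ℝ)..b, β r with hBdef
  have hec : ContinuousOn e (Icc α b) := he.cont
  have hιc : ContinuousOn (fun r => ι (e r)) (Icc α b) := ι.continuous.comp_continuousOn hec
  obtain ⟨t₀, ht₀, hmax⟩ := isCompact_Icc.exists_isMaxOn (nonempty_Icc.2 hαb) hιc.norm
  set S : ℝ := ‖ι (e t₀)‖ with hS
  have hS0 : 0 ≤ S := norm_nonneg _
  have hle : ∀ t ∈ Icc α b, ‖ι (e t)‖ ≤ S := fun t ht => hmax ht
  have hB0 : 0 ≤ B := by
    refine intervalIntegral.integral_nonneg_of_ae_restrict (hα.le.trans hαb) ?_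
    have h1 : ∀ᵐ r ∂(volume.restrict (Ioc 0 b)), 0 ≤ β r := by
      filter_upwards [ae_restrict_mem measurableSet_Ioc] with r hr
      exact hβ0 r hr
    rw [← restrict_Ioc_eq_restrict_Icc]
    exact h1
  have hWc : ContinuousOn (fun r => ⟪g r - F r (e r), ι (e r)⟫_ℝ) (Icc α b) := by
    have h1 : ContinuousOn (fun r => ⟪Rhs ι F g N r (e r), ι (e r)⟫_ℝ) (Icc α b) := he.src.inner hιc
    refine h1.congr fun r _ => ?_
    show ⟪g r - F r (e r), ι (e r)⟫_ℝ = ⟪g r - F r (e r) - N (ι (e r)) (e r), ι (e r)⟫_ℝ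
    rw [inner_sub_left (g r - F r (e r)), hN, sub_zero]
  have hkey : ∀ t ∈ Icc α b, ‖ι (e t)‖ ^ 2 + 2 * ∫ r in α..t, ‖e r‖ ^ 2 ≤ S ^ 2 / 2 + 2 * B * S := by
    intro t ht
    have hsub : uIcc α t ⊆ Icc α b := by
      rw [uIcc_of_le ht.1]
      exact Icc_subset_Icc le_rfl ht.2
    have i1 : IntervalIntegrable (fun r => ‖e r‖ ^ 2) volume α t :=
      ((hec.norm.pow 2).mono hsub).intervalIntegrable
    have i2 : IntervalIntegrable (fun r => ⟪g r - F r (e r), ι (e r)⟫_ℝ) volume α t :=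
      (hWc.mono hsub).intervalIntegrable
    obtain ⟨i3, hκle⟩ := p0e1_sub hκ hκ0 hα ht.1 ht.2
    obtain ⟨i4, hβle⟩ := p0e1_sub hβ hβ0 hα ht.1 ht.2
    have h1 := RSol.energy hN he le_rfl ht.1 ht.2
    rw [h0, map_zero, norm_zero] at h1
    have h2 : ∫ r in α..t, (-(1 * ‖e r‖ ^ 2) + ⟪g r - F r (e r), ι (e r)⟫_ℝ) =
        -(∫ r in α..t, ‖e r‖ ^ 2) + ∫ r in α..t, ⟪g r - F r (e r), ι (e r)⟫_ℝ := by
      simp only [one_mul]
      have i1' : IntervalIntegrable (fun r => -‖e r‖ ^ 2) volume α t := i1.neg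
      rw [intervalIntegral.integral_add i1' i2, intervalIntegral.integral_neg]
    have h3 : ∫ r in α..t, ⟪g r - F r (e r), ι (e r)⟫_ℝ ≤ ∫ r in α..t, (κ r * S ^ 2 + β r * S) := by
      refine intervalIntegral.integral_mono_on ht.1 i2 ((i3.mul_const _).add (i4.mul_const _)) fun r hr => ?_
      have hr1 : r ∈ Icc α b := ⟨hr.1, hr.2.trans ht.2⟩
      have hr2 : r ∈ Ioc 0 b := ⟨hα.trans_le hr.1, hr.2.trans ht.2⟩
      have k1 := hF r hr2 (e r)
      have k2 : ⟪g r, ι (e r)⟫_ℝ ≤ β r * S :=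
        (real_inner_le_norm _ _).trans (mul_le_mul (hg r hr2) (hle r hr1) (norm_nonneg _) (hβ0 r hr2))
      have k3 : κ r * ‖ι (e r)‖ ^ 2 ≤ κ r * S ^ 2 :=
        mul_le_mul_of_nonneg_left (pow_le_pow_left₀ (norm_nonneg _) (hle r hr1) 2) (hκ0 r hr2)
      rw [inner_sub_left]
      linarith
    have h4 : ∫ r in α..t, (κ r * S ^ 2 + β r * S) = (∫ r in α..t, κ r) * S ^ 2 + (∫ r in α..t, β r) * S := by
      rw [intervalIntegral.integral_add (i3.mul_const _) (i4.mul_const _), intervalIntegral.integral_mul_const,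
        intervalIntegral.integral_mul_const]
    have h5 : (∫ r in α..t, κ r) * S ^ 2 ≤ 1 / 4 * S ^ 2 :=
      mul_le_mul_of_nonneg_right (hκle.trans hκ1) (by positivity)
    have h6 : (∫ r in α..t, β r) * S ≤ B * S := mul_le_mul_of_nonneg_right hβle hS0
    rw [h2] at h1
    rw [h4] at h3
    nlinarith
  have hS4 : S ≤ 4 * B := by
    have h1 := hkey t₀ ht₀
    have h2 : 0 ≤ ∫ r in α..t₀, ‖e r‖ ^ 2 :=
      intervalIntegral.integral_nonneg ht₀.1 fun r _ => by positivity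
    by_contra h3
    push Not at h3
    have h4 : 0 < S := by linarith
    nlinarith
  refine ⟨fun t ht => (hle t ht).trans hS4, ?_⟩
  have h1 := hkey b (right_mem_Icc.2 hαb)
  have h2 : 0 ≤ ‖ι (e b)‖ ^ 2 := by positivity
  nlinarith

end

end Pool.Agent.Lib.MP_79abb3_an.W
end

section

/-!
Theorem W (MP_79abb3_an), block A3: limits with coefficients which are singular at the left end point.
-/

set_option autoImplicit false
set_option linter.unusedSectionVars false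

open MeasureTheory Set Filter Topology
open scoped InnerProductSpace

namespace Pool.Agent.Lib.MP_79abb3_an.W

section
variable {H V : Type} [NormedAddCommGroup H] [InnerProductSpace ℝ H] [CompleteSpace H]
  [NormedAddCommGroup V] [InnerProductSpace ℝ V] [CompleteSpace V] {ι : V →L[ℝ] H} {ν a b M : ℝ}
  {F : ℝ → V →L[ℝ] H} {g : ℝ → H}

/-- `(a, b]` is a countable union of intervals `[a + (b-a)/(n+2), b]`. -/
private theorem a3lf_union (hab : a < b) : ⋃ n : ℕ, Icc (a + (b - a) / (n + 2)) b = Ioc a b := by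
  have hba : 0 < b - a := sub_pos.2 hab
  ext t
  simp only [mem_iUnion, mem_Icc, mem_Ioc]
  constructor
  · rintro ⟨n, h1, h2⟩
    have : 0 < (b - a) / ((n : ℝ) + 2) := by positivity
    exact ⟨by linarith, h2⟩
  · rintro ⟨h1, h2⟩
    obtain ⟨n, hn⟩ := exists_nat_gt ((b - a) / (t - a))
    have hta : 0 < t - a := sub_pos.2 h1
    refine ⟨n, ?_, h2⟩
    rw [div_lt_iff₀ hta] at hn
    have h3 : (b - a) / ((n : ℝ) + 2) ≤ t - a := by
      rw [div_le_iff₀ (by positivity)]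
      nlinarith
    linarith

private theorem a3lf_mem (hab : a < b) (n : ℕ) : a < a + (b - a) / (n + 2) ∧ a + (b - a) / (n + 2) < b := by
  have hba : 0 < b - a := sub_pos.2 hab
  have h1 : 0 < (b - a) / ((n : ℝ) + 2) := by positivity
  have h2 : (b - a) / ((n : ℝ) + 2) < b - a := by
    rw [div_lt_iff₀ (by positivity)]
    have : (0 : ℝ) ≤ n := Nat.cast_nonneg n
    nlinarith
  exact ⟨by linarith, by linarith⟩

private theorem a3lf_tendsto (a b : ℝ) : Tendsto (fun n : ℕ => a + (b - a) / ((n : ℝ) + 2)) atTop (𝓝 a) := by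
  have hinv : Tendsto (fun m : ℕ => ((m : ℝ) + 2)⁻¹) atTop (𝓝 0) :=
    (tendsto_natCast_atTop_atTop.atTop_add (tendsto_const_nhds (x := (2 : ℝ)))).inv_tendsto_atTop
  have h1 := (hinv.const_mul (b - a)).const_add a
  rw [mul_zero, add_zero] at h1
  exact h1.congr fun m => by rw [div_eq_mul_inv]

private theorem a3lf_meas {X : Type} [NormedAddCommGroup X] (hab : a < b) {f : ℝ → X}
    (hf : ∀ a', a < a' → a' < b → AEStronglyMeasurable f (volume.restrict (Icc a' b))) :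
    AEStronglyMeasurable f (volume.restrict (Ioc a b)) := by
  rw [← a3lf_union hab, aestronglyMeasurable_iUnion_iff]
  exact fun n => hf _ (a3lf_mem hab n).1 (a3lf_mem hab n).2

/-- The function `v` on `(a, b]` from its restrictions. If for every `a' ∈ (a, b)` there is `v'` in `L²(a', b; V)` with `ι v' = x` a.e.
and `∫_{a'}^b ‖v'‖² ≤ M`, then there is one `v` for all `a'`. Proof. `v t` = the element with `ι (v t) = x t` if it exists,
else `0`; it agrees a.e. on `[a', b]` with `v'` (`ι` injective); `∫_a^b ‖v‖² ≤ M` by monotone convergence along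
`a' → a` (`[a, b]` and `(a, b]` differ by a null set). -/
theorem glue_v (h : IsTri ι) (hab : a < b) {x : ℝ → H} (hx : ∀ a', a < a' → a' < b → ∃ v' : ℝ → V,
    MemLp v' 2 (volume.restrict (Icc a' b)) ∧ (∀ᵐ t ∂(volume.restrict (Icc a' b)), ι (v' t) = x t) ∧
    ∫ t in a'..b, ‖v' t‖ ^ 2 ≤ M) :
    ∃ v : ℝ → V, MemLp v 2 (volume.restrict (Icc a b)) ∧
      (∀ᵐ t ∂(volume.restrict (Icc a b)), ι (v t) = x t) ∧ ∫ t in a..b, ‖v t‖ ^ 2 ≤ M := by
  classical
  let v : ℝ → V := fun t => if h : ∃ w, ι w = x t then h.choose else 0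
  have hv : ∀ t, (∃ w, ι w = x t) → ι (v t) = x t := by
    intro t ht
    have h1 : v t = ht.choose := dif_pos ht
    rw [h1]
    exact ht.choose_spec
  have key : ∀ a', a < a' → a' < b → MemLp v 2 (volume.restrict (Icc a' b)) ∧
      (∀ᵐ t ∂(volume.restrict (Icc a' b)), ι (v t) = x t) ∧ ∫ t in a'..b, ‖v t‖ ^ 2 ≤ M := by
    intro a' h1 h2
    obtain ⟨v', m1, m2, m3⟩ := hx a' h1 h2
    have e1 : ∀ᵐ t ∂(volume.restrict (Icc a' b)), v' t = v t := by
      filter_upwards [m2] with t ht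
      exact h.inj (ht.trans (hv t ⟨_, ht⟩).symm)
    refine ⟨m1.ae_eq e1, ?_, ?_⟩
    · filter_upwards [m2] with t ht
      exact hv t ⟨_, ht⟩
    · refine le_trans (le_of_eq ?_) m3
      rw [intervalIntegral.integral_of_le h2.le, intervalIntegral.integral_of_le h2.le,
        ← integral_Icc_eq_integral_Ioc, ← integral_Icc_eq_integral_Ioc]
      refine integral_congr_ae ?_
      filter_upwards [e1] with t ht
      rw [ht]
  have hmeas : AEStronglyMeasurable v (volume.restrict (Ioc a b)) :=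
    a3lf_meas hab fun a' h1 h2 => (key a' h1 h2).1.1
  have hint : IntegrableOn (fun t => ‖v t‖ ^ 2) (Ioc a b) := by
    refine integrableOn_Ioc_of_intervalIntegral_norm_bounded_left (I := M) (l := atTop)
      (a := fun n : ℕ => a + (b - a) / ((n : ℝ) + 2)) (fun n => ?_) (a3lf_tendsto a b)
      (Eventually.of_forall fun n => ?_)
    · have h1 := (key _ (a3lf_mem hab n).1 (a3lf_mem hab n).2).1
      have h2 := (memLp_two_iff_integrable_sq_norm h1.1).1 h1
      exact IntegrableOn.mono_set h2 Ioc_subset_Icc_self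
    · have h1 := (key _ (a3lf_mem hab n).1 (a3lf_mem hab n).2).2.2
      rw [intervalIntegral.integral_of_le (a3lf_mem hab n).2.le] at h1
      refine le_trans (le_of_eq ?_) h1
      refine integral_congr_ae (Eventually.of_forall fun t => ?_)
      show ‖‖v t‖ ^ 2‖ = ‖v t‖ ^ 2
      rw [Real.norm_of_nonneg (by positivity)]
  have hr : volume.restrict (Icc a b) = volume.restrict (Ioc a b) :=
    Measure.restrict_congr_set Ioc_ae_eq_Icc.symm
  refine ⟨v, ?_, ?_, ?_⟩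
  · rw [hr]
    exact (memLp_two_iff_integrable_sq_norm hmeas).2 hint
  · rw [hr, ← a3lf_union hab, ae_restrict_iUnion_iff]
    exact fun n => (key _ (a3lf_mem hab n).1 (a3lf_mem hab n).2).2.1
  · have hc : ContinuousOn (fun s => ∫ t in s..b, ‖v t‖ ^ 2) (uIcc a b) := by
      refine intervalIntegral.continuousOn_primitive_interval_left ?_
      rw [uIcc_of_le hab.le, integrableOn_Icc_iff_integrableOn_Ioc]
      exact hint
    rw [uIcc_of_le hab.le] at hc
    have h1 : Tendsto (fun n : ℕ => ∫ t in (a + (b - a) / ((n : ℝ) + 2))..b, ‖v t‖ ^ 2) atTop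
        (𝓝 (∫ t in a..b, ‖v t‖ ^ 2)) := by
      refine (hc a ⟨le_rfl, hab.le⟩).tendsto.comp (tendsto_nhdsWithin_iff.2 ⟨a3lf_tendsto a b, ?_⟩)
      exact Eventually.of_forall fun n => ⟨(a3lf_mem hab n).1.le, (a3lf_mem hab n).2.le⟩
    exact le_of_tendsto h1 (Eventually.of_forall fun n =>
      (key _ (a3lf_mem hab n).1 (a3lf_mem hab n).2).2.2)

/-- **Singular coefficients** (phase 0). Proof. `lim_subseq`, `lim_weak`. For `a' ∈ (a, b)` one has `α (φ j) ≤ a'` for large `j`, and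
`cv_limit` applies on `[a', b]` (to the shifted sequence; `TstR.mono`); `glue_v`. The equation holds for `a < s ≤ t ≤ b`; the
integrand is integrable on `(a, b)`: `|⟪g - F v, ι p⟫| ≤ (β + γ ‖v‖) ‖ι p‖`, `|c(v, v, p)| ≤ C ‖p‖ ‖v‖²` (`NB.self`, `IsQ.bd` in the
limit); `s → a` by weak continuity and continuity of the integral. -/
theorem sing_limit (h : IsTri ι) {q : V → ℝ} (hq : IsQ ι q) (hν : 0 < ν) (hab : a < b)
    (hFc : ContinuousOn F (Ioc a b)) (hgc : ContinuousOn g (Ioc a b)) {γ β : ℝ → ℝ}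
    (hγ : IntegrableOn (fun r => γ r ^ 2) (Ioc a b)) (hβ : IntegrableOn β (Ioc a b))
    (hF : ∀ r ∈ Ioc a b, ‖F r‖ ≤ γ r) (hg : ∀ r ∈ Ioc a b, ‖g r‖ ≤ β r) {N : ℕ → H →L[ℝ] V →L[ℝ] H}
    (hN : ∀ j, NB ι q (N j)) {c : V → V → V → ℝ}
    (hc : ∀ u v p, Tendsto (fun j => ⟪N j (ι u) v, ι p⟫_ℝ) atTop (𝓝 (c u v p)))
    {α : ℕ → ℝ} (hα : ∀ j, a ≤ α j ∧ α j ≤ b) (hαl : Tendsto α atTop (𝓝 a)) {e : ℕ → ℝ → V}
    (he : ∀ j, RSol ι ν F g (N j) (α j) b (e j)) (hM : ∀ j, ∀ t ∈ Icc (α j) b, ‖ι (e j t)‖ ≤ M)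
    (hM' : ∀ j, ∫ t in (α j)..b, ‖e j t‖ ^ 2 ≤ M) {x₀ : H}
    (h0 : ∀ h : H, Tendsto (fun j => ⟪ι (e j (α j)), h⟫_ℝ) atTop (𝓝 ⟪x₀, h⟫_ℝ)) :
    ∃ (φ : ℕ → ℕ) (x : ℝ → H) (v : ℝ → V), StrictMono φ ∧ LSol ι ν F g c a b x₀ x v ∧
      (∀ t ∈ Icc a b, ‖x t‖ ≤ M) ∧ ∫ t in a..b, ‖v t‖ ^ 2 ≤ M ∧
      (∀ t ∈ Ioc a b, ∀ h : H, Tendsto (fun j => ⟪ι (e (φ j) t), h⟫_ℝ) atTop (𝓝 ⟪x t, h⟫_ℝ)) ∧
      ∀ a', a < a' → a' < b → Tendsto (fun j => ∫ t in a'..b, ‖ι (e (φ j) t - v t)‖ ^ 2) atTop (𝓝 0) := by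
  obtain ⟨E⟩ := h.exists_EBasis
  obtain ⟨φ, x, hφ, hxM, hxl⟩ := lim_subseq E hq hν hγ hβ hF hg hN hα he hM hM'
  have hcw : ∀ k : H, ContinuousOn (fun t => ⟪x t, k⟫_ℝ) (Icc a b) := fun k =>
    lim_weak h hq hν hγ hβ hF hg (fun j => hN (φ j)) (fun j => hα (φ j)) (e := fun j => e (φ j))
      (fun j => he (φ j)) (fun j => hM (φ j)) (fun j => hM' (φ j)) hxM hxl k
  have hαφ : Tendsto (fun j => α (φ j)) atTop (𝓝 a) := hαl.comp hφ.tendsto_atTop
  -- weak convergence on `(a, b]`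
  have hl : ∀ t ∈ Ioc a b, ∀ k : H, Tendsto (fun j => ⟪ι (e (φ j) t), k⟫_ℝ) atTop (𝓝 ⟪x t, k⟫_ℝ) := by
    intro t ht k
    refine (hxl t ⟨ht.1.le, ht.2⟩ k).congr' ?_
    filter_upwards [hαφ.eventually (gt_mem_nhds ht.1)] with j hj
    rw [max_eq_left hj.le]
  -- the limit on `[a', b]`
  have key : ∀ a', a < a' → a' < b → ∃ (j₀ : ℕ) (v' : ℝ → V), MemLp v' 2 (volume.restrict (Icc a' b)) ∧
      (∀ᵐ t ∂(volume.restrict (Icc a' b)), ι (v' t) = x t) ∧ ∫ t in a'..b, ‖v' t‖ ^ 2 ≤ M ∧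
      Tendsto (fun j => ∫ t in a'..b, ‖ι (e (φ (j + j₀)) t - v' t)‖ ^ 2) atTop (𝓝 0) ∧
      (∀ p : V, IntervalIntegrable (fun r => c (v' r) (v' r) p) volume a' b) ∧
      ∀ (p : V) (s t : ℝ), a' ≤ s → s ≤ t → t ≤ b → ⟪x t, ι p⟫_ℝ - ⟪x s, ι p⟫_ℝ =
        ∫ r in s..t, (-(ν * ⟪v' r, p⟫_ℝ) + ⟪g r - F r (v' r), ι p⟫_ℝ - c (v' r) (v' r) p) := by
    intro a' h1 h2
    obtain ⟨j₀, hj₀⟩ := eventually_atTop.1 (hαφ.eventually (gt_mem_nhds h1))
    have hj : ∀ j, α (φ (j + j₀)) ≤ a' := fun j => (hj₀ _ (Nat.le_add_left _ _)).le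
    have hsol : ∀ j, RSol ι ν F g (N (φ (j + j₀))) a' b (e (φ (j + j₀))) := fun j =>
      (he (φ (j + j₀))).mono (hj j) le_rfl
    have hcv : CvSeq E a' b M (fun j => e (φ (j + j₀))) x := by
      refine ⟨h2.le, fun j => (hsol j).cont, fun j t ht => hM _ t ⟨(hj j).trans ht.1, ht.2⟩,
        fun j => ?_, fun i t ht => ?_⟩
      · refine le_trans ?_ (hM' (φ (j + j₀)))
        have hc : ContinuousOn (fun t => ‖e (φ (j + j₀)) t‖ ^ 2) (Icc (α (φ (j + j₀))) b) :=
          (he (φ (j + j₀))).cont.norm.pow 2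
        refine intervalIntegral.integral_mono_interval (hj j) h2.le le_rfl
          (Eventually.of_forall fun t => by positivity) ?_
        refine ContinuousOn.intervalIntegrable ?_
        rw [uIcc_of_le ((hj j).trans h2.le)]
        exact hc
      · have h3 : Tendsto (fun j => ⟪ι (e (φ (j + j₀)) t), E.b i⟫_ℝ) atTop (𝓝 ⟪x t, E.b i⟫_ℝ) :=
          (hl t ⟨h1.trans_le ht.1, ht.2⟩ (E.b i)).comp (tendsto_add_atTop_nat j₀)
        simpa only [real_inner_comm] using h3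
    have hsub : Icc a' b ⊆ Ioc a b := fun t ht => ⟨h1.trans_le ht.1, ht.2⟩
    obtain ⟨v', m1, m2, m3, m4, m5, m6⟩ := cv_limit h hq (hFc.mono hsub) (hgc.mono hsub)
      (fun j => hN (φ (j + j₀))) (c := c)
      (fun u v p => (hc u v p).comp (hφ.tendsto_atTop.comp (tendsto_add_atTop_nat j₀))) hsol hcv
    exact ⟨j₀, v', m1, m2, m3, m4, m5, m6⟩
  obtain ⟨v, hv, hvx, hvM⟩ := glue_v h hab fun a' h1 h2 => by
    obtain ⟨-, v', m1, m2, m3, -⟩ := key a' h1 h2
    exact ⟨v', m1, m2, m3⟩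
  have hre : ∀ a', a < a' → volume.restrict (Icc a' b) ≤ volume.restrict (Icc a b) := fun a' h1 =>
    Measure.restrict_mono (Icc_subset_Icc h1.le le_rfl) le_rfl
  have hve : ∀ a', a < a' → a' < b → ∀ v' : ℝ → V,
      (∀ᵐ t ∂(volume.restrict (Icc a' b)), ι (v' t) = x t) →
      ∀ᵐ t ∂(volume.restrict (Icc a' b)), v' t = v t := by
    intro a' h1 h2 v' m2
    filter_upwards [m2, ae_mono (hre a' h1) hvx] with t h3 h4
    exact h.inj (h3.trans h4.symm)
  -- integrability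
  obtain ⟨C, hC0, hC⟩ := hq.bd
  have hcb : ∀ (u p : V), |c u u p| ≤ C * ‖p‖ * ‖u‖ ^ 2 := by
    intro u p
    rw [(NB.lim hN hc u u p).1, abs_neg]
    refine (NB.lim hN hc u p u).2.trans ?_
    have h1 := hC u
    have h2 := norm_nonneg p
    nlinarith [hq.nonneg u, mul_le_mul_of_nonneg_left h1 h2]
  have hlv : IntegrableOn (fun t => ‖v t‖ ^ 2) (Ioc a b) := by
    have h2 := (memLp_two_iff_integrable_sq_norm hv.1).1 hv
    exact IntegrableOn.mono_set h2 Ioc_subset_Icc_self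
  have hlv1 : IntegrableOn (fun t => ‖v t‖) (Ioc a b) := by
    have h2 : Integrable v (volume.restrict (Icc a b)) := hv.integrable (by norm_num)
    exact IntegrableOn.mono_set h2.norm Ioc_subset_Icc_self
  set G : V → ℝ → ℝ := fun p r => -(ν * ⟪v r, p⟫_ℝ) + ⟪g r - F r (v r), ι p⟫_ℝ - c (v r) (v r) p with hG
  have hGI : ∀ p, IntegrableOn (G p) (Ioc a b) := by
    intro p
    refine Integrable.mono' (g := fun r => ν * ‖p‖ * ‖v r‖ + ‖ι p‖ * (β r + (γ r ^ 2 + ‖v r‖ ^ 2)) +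
      C * ‖p‖ * ‖v r‖ ^ 2) ?_ ?_ ?_
    · exact ((hlv1.const_mul _).add ((hβ.add (hγ.add hlv)).const_mul _)).add (hlv.const_mul _)
    · refine a3lf_meas hab fun a' h1 h2 => ?_
      obtain ⟨-, v', m1, m2, -, -, m5, -⟩ := key a' h1 h2
      have hsub : Icc a' b ⊆ Ioc a b := fun t ht => ⟨h1.trans_le ht.1, ht.2⟩
      have i1 := lsol_int (ι := ι) (ν := ν) h2.le (hFc.mono hsub) (hgc.mono hsub) m1 p (m5 p)
      rw [intervalIntegrable_iff_integrableOn_Icc_of_le h2.le] at i1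
      refine i1.aestronglyMeasurable.congr ?_
      filter_upwards [hve a' h1 h2 v' m2] with t ht
      rw [hG, ht]
    · filter_upwards [ae_restrict_mem measurableSet_Ioc] with r hr
      rw [Real.norm_eq_abs]
      have b1 : |ν * ⟪v r, p⟫_ℝ| ≤ ν * ‖p‖ * ‖v r‖ := by
        rw [abs_mul, abs_of_pos hν, mul_assoc]
        refine mul_le_mul_of_nonneg_left ?_ hν.le
        rw [mul_comm]
        exact abs_real_inner_le_norm _ _
      have b2 : |⟪g r - F r (v r), ι p⟫_ℝ| ≤ ‖ι p‖ * (β r + (γ r ^ 2 + ‖v r‖ ^ 2)) := by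
        refine (abs_real_inner_le_norm _ _).trans ?_
        rw [mul_comm]
        refine mul_le_mul_of_nonneg_left ?_ (norm_nonneg _)
        refine (norm_sub_le _ _).trans (add_le_add (hg r hr) ?_)
        refine ((F r).le_opNorm _).trans ?_
        have h1 := hF r hr
        have h2 := norm_nonneg (v r)
        have h3 := mul_le_mul_of_nonneg_right h1 h2
        nlinarith [sq_nonneg (γ r - ‖v r‖)]
      have b3 := hcb (v r) p
      have b4 := abs_sub (-(ν * ⟪v r, p⟫_ℝ) + ⟪g r - F r (v r), ι p⟫_ℝ) (c (v r) (v r) p)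
      have b5 := abs_add_le (-(ν * ⟪v r, p⟫_ℝ)) ⟪g r - F r (v r), ι p⟫_ℝ
      rw [abs_neg] at b5
      show |-(ν * ⟪v r, p⟫_ℝ) + ⟪g r - F r (v r), ι p⟫_ℝ - c (v r) (v r) p| ≤ _
      linarith
  have hGI' : ∀ p, IntegrableOn (G p) (Icc a b) := fun p => by
    rw [integrableOn_Icc_iff_integrableOn_Ioc]
    exact hGI p
  -- the equation for `a < s`
  have heq : ∀ (p : V) (s t : ℝ), a < s → s ≤ t → t ≤ b → ⟪x t, ι p⟫_ℝ - ⟪x s, ι p⟫_ℝ =
      ∫ r in s..t, G p r := by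
    intro p s t hs hst ht
    obtain ⟨a', h1, h2⟩ : ∃ a', a < a' ∧ a' < s := exists_between hs
    have h3 : a' < b := h2.trans_le (hst.trans ht)
    obtain ⟨-, v', m1, m2, -, -, m5, m6⟩ := key a' h1 h3
    rw [m6 p s t h2.le hst ht]
    refine intervalIntegral.integral_congr_ae ?_
    have h4 := (ae_restrict_iff' measurableSet_Icc).1 (hve a' h1 h3 v' m2)
    filter_upwards [h4] with r hr hrst
    rw [uIoc_of_le hst] at hrst
    rw [hG, hr ⟨h2.le.trans hrst.1.le, hrst.2.trans ht⟩]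
  have heq' : ∀ (p : V) (s t : ℝ), a ≤ s → s ≤ t → t ≤ b → ⟪x t, ι p⟫_ℝ - ⟪x s, ι p⟫_ℝ =
      ∫ r in s..t, G p r := by
    intro p s t hs hst ht
    rcases hs.eq_or_lt with h0' | h0'
    · subst h0'
      rcases hst.eq_or_lt with h00 | h00
      · subst h00
        simp
      · have hsub : Icc a t ⊆ Icc a b := Icc_subset_Icc le_rfl ht
        have c1 : ContinuousOn (fun s => ∫ r in s..t, G p r) (Icc a t) := by
          have := intervalIntegral.continuousOn_primitive_interval_left (μ := volume) (f := G p)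
            (a := a) (b := t) (by rw [uIcc_of_le hst]; exact (hGI' p).mono_set hsub)
          rwa [uIcc_of_le hst] at this
        have c2 : ContinuousOn (fun s => ⟪x t, ι p⟫_ℝ - ⟪x s, ι p⟫_ℝ) (Icc a t) :=
          continuousOn_const.sub ((hcw (ι p)).mono hsub)
        have t1 : Tendsto (fun s => ∫ r in s..t, G p r) (𝓝[Ioc a t] a) (𝓝 (∫ r in a..t, G p r)) :=
          (c1 a ⟨le_rfl, hst⟩).mono_left (nhdsWithin_mono _ Ioc_subset_Icc_self)
        have t2 : Tendsto (fun s => ⟪x t, ι p⟫_ℝ - ⟪x s, ι p⟫_ℝ) (𝓝[Ioc a t] a)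
            (𝓝 (⟪x t, ι p⟫_ℝ - ⟪x a, ι p⟫_ℝ)) :=
          (c2 a ⟨le_rfl, hst⟩).mono_left (nhdsWithin_mono _ Ioc_subset_Icc_self)
        have hne : (𝓝[Ioc a t] a).NeBot := by
          rw [nhdsWithin_Ioc_eq_nhdsGT h00]
          infer_instance
        refine tendsto_nhds_unique t2 (t1.congr' ?_)
        filter_upwards [self_mem_nhdsWithin] with s hs'
        exact (heq p s t hs'.1 hs'.2 ht).symm
    · exact heq p s t h0' hst ht
  refine ⟨φ, x, v, hφ, ⟨?_, hcw, hv, hvx, fun p => ?_, heq'⟩, hxM, hvM, hl, fun a' h1 h2 => ?_⟩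
  · refine ext_inner_right ℝ fun k => ?_
    have h1 := hxl a ⟨le_rfl, hab.le⟩ k
    have h2 : Tendsto (fun j => ⟪ι (e (φ j) (α (φ j))), k⟫_ℝ) atTop (𝓝 ⟪x a, k⟫_ℝ) := by
      refine h1.congr fun j => ?_
      rw [max_eq_right (hα (φ j)).1]
    exact tendsto_nhds_unique h2 ((h0 k).comp hφ.tendsto_atTop)
  · rw [intervalIntegrable_iff_integrableOn_Ioc_of_le hab.le]
    exact hGI p
  · obtain ⟨j₀, v', m1, m2, -, m4, -⟩ := key a' h1 h2
    rw [← tendsto_add_atTop_iff_nat j₀]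
    refine m4.congr fun j => ?_
    rw [intervalIntegral.integral_of_le h2.le, intervalIntegral.integral_of_le h2.le,
      ← integral_Icc_eq_integral_Ioc, ← integral_Icc_eq_integral_Ioc]
    refine integral_congr_ae ?_
    filter_upwards [hve a' h1 h2 v' m2] with t ht
    rw [ht]

end

end Pool.Agent.Lib.MP_79abb3_an.W
end

section

/-!
Theorem W (MP_79abb3_an), Phase 0: Leray solutions with coefficients which are singular at the initial time `0`.
-/

set_option autoImplicit false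
set_option linter.unusedSectionVars false

open MeasureTheory Set Filter Topology Function
open scoped ENNReal InnerProductSpace

namespace Pool.Agent.Lib.MP_79abb3_an.W

section
variable {H V : Type} [NormedAddCommGroup H] [InnerProductSpace ℝ H] [CompleteSpace H]
  [NormedAddCommGroup V] [InnerProductSpace ℝ V] [CompleteSpace V] {ι : V →L[ℝ] H} {α b : ℝ}
  {F : ℝ → V →L[ℝ] H} {g : ℝ → H} {N : H →L[ℝ] V →L[ℝ] H} {e : ℝ → V} {κ β : ℝ → ℝ}

/-- **Leray solutions with singular coefficients, zero initial value.** Proof. `α_j = b/(j+1)`, `reg_exists` on `[α_j, b]` with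
initial value `0`, `p0_apriori`, `sing_limit` (with `γ`, `β`, `M = max (4 B) (8 B²)`), `x₀ = 0`. -/
theorem p0_leray (h : IsTri ι) {q : V → ℝ} (hq : IsQ ι q) (hb : 0 < b)
    (hFc : ContinuousOn F (Ioc 0 b)) (hgc : ContinuousOn g (Ioc 0 b)) {γ : ℝ → ℝ}
    (hγ : IntegrableOn (fun r => γ r ^ 2) (Ioc 0 b)) (hFb : ∀ r ∈ Ioc 0 b, ‖F r‖ ≤ γ r)
    (hκ : IntegrableOn κ (Ioc 0 b)) (hβ : IntegrableOn β (Ioc 0 b)) (hκ0 : ∀ r ∈ Ioc 0 b, 0 ≤ κ r)
    (hβ0 : ∀ r ∈ Ioc 0 b, 0 ≤ β r) (hκ1 : ∫ r in (0 : ℝ)..b, κ r ≤ 1 / 4)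
    (hF : ∀ r ∈ Ioc 0 b, ∀ v, -(κ r * ‖ι v‖ ^ 2) ≤ ⟪F r v, ι v⟫_ℝ) (hg : ∀ r ∈ Ioc 0 b, ‖g r‖ ≤ β r)
    {N : ℕ → H →L[ℝ] V →L[ℝ] H} (hN : ∀ j, NB ι q (N j)) {c : V → V → V → ℝ}
    (hc : ∀ u v p, Tendsto (fun j => ⟪N j (ι u) v, ι p⟫_ℝ) atTop (𝓝 (c u v p))) :
    ∃ (x : ℝ → H) (v : ℝ → V), LSol ι 1 F g c 0 b 0 x v := by
  have hα0 : ∀ j : ℕ, 0 < b / ((j : ℝ) + 1) := fun j => by positivity
  have hαb : ∀ j : ℕ, b / ((j : ℝ) + 1) ≤ b := fun j => by
    refine div_le_self hb.le ?_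
    have : (0 : ℝ) ≤ j := Nat.cast_nonneg j
    linarith
  have hsub : ∀ j : ℕ, Icc (b / ((j : ℝ) + 1)) b ⊆ Ioc 0 b := fun j t ht =>
    ⟨(hα0 j).trans_le ht.1, ht.2⟩
  choose e he hea using fun j : ℕ => reg_exists h one_pos (hαb j) (hFc.mono (hsub j))
    (hgc.mono (hsub j)) (hN j).skew (0 : V)
  have hap := fun j : ℕ => p0_apriori (hα0 j) (hαb j) (hN j).skew (he j) (hea j) hκ hβ hκ0 hβ0 hκ1 hF hg
  set B : ℝ := ∫ r in (0 : ℝ)..b, β r with hB
  have hαl : Tendsto (fun j : ℕ => b / ((j : ℝ) + 1)) atTop (𝓝 0) :=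
    tendsto_const_nhds.div_atTop (tendsto_atTop_add_const_right _ _ tendsto_natCast_atTop_atTop)
  obtain ⟨-, x, v, -, hL, -⟩ := sing_limit h hq one_pos hb hFc hgc hγ hβ hFb hg hN hc
    (α := fun j : ℕ => b / ((j : ℝ) + 1)) (fun j => ⟨(hα0 j).le, hαb j⟩) hαl he
    (M := max (4 * B) (8 * B ^ 2)) (fun j t ht => ((hap j).1 t ht).trans (le_max_left _ _))
    (fun j => (hap j).2.trans (le_max_right _ _)) (x₀ := 0) (fun k => by
      refine tendsto_const_nhds.congr fun j => ?_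
      rw [hea, map_zero])
  exact ⟨x, v, hL⟩

end

end Pool.Agent.Lib.MP_79abb3_an.W
end

section

/-!
Theorem W (MP_79abb3_an), block G3: observability with the time weight `kapT`, the form needed by `NcSys`.
-/

set_option autoImplicit false
set_option linter.unusedSectionVars false

open MeasureTheory Set Filter Topology Function
open scoped InnerProductSpace ComplexConjugate

namespace Pool.Agent.Lib.MP_79abb3_an.W

open Pool.Agent.Lib.MP_79abb3_an.SC

section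
variable {E : Type} [NormedAddCommGroup E] [InnerProductSpace ℂ E] [CompleteSpace E] {K χ : E →L[ℂ] E} {C : ℝ}

/-- `4096/T⁴ ≤ exp (128/T²)` -/
theorem const_T4 {T : ℝ} (hT : 0 < T) : 4096 / T ^ 4 ≤ Real.exp (128 / T ^ 2) := by
  have h1 : 64 / T ^ 2 ≤ Real.exp (64 / T ^ 2) := by
    have := Real.add_one_le_exp (64 / T ^ 2)
    linarith
  have h0 : 0 ≤ 64 / T ^ 2 := by positivity
  have h2 := pow_le_pow_left₀ h0 h1 2
  rw [← Real.exp_nat_mul] at h2
  have e1 : 4096 / T ^ 4 = (64 / T ^ 2) ^ 2 := by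
    rw [div_pow, ← pow_mul]
    norm_num
  have e2 : ((2:ℕ):ℝ) * (64 / T ^ 2) = 128 / T ^ 2 := by
    push_cast
    ring
  rw [e2] at h2
  rw [e1]
  exact h2

/-- **Observability in the form of `NcSys`.** Proof: `‖S(T) q‖ ≤ ‖S(5T/8) q‖ = ‖S(T/4) q'‖`, `q' = S(3T/8) q`,
`Stat.obs0` on `[0, T/4]`, shift of the integral to `[3T/8, 5T/8]`, `kap_mid`, `const_T4`. -/
theorem Stat.obs (h : Stat K χ C) (hK : 0 ≤ K) (hi : ∀ x, K x = 0 → x = 0) (hχ : ∀ x, ‖χ x‖ ≤ ‖x‖) :
    ∃ C0 : ℝ, 0 ≤ C0 ∧ ∀ T, 0 < T → T ≤ 1 → ∀ q : E, ‖Sg K T q‖ ^ 2 ≤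
      Real.exp (C0 / T ^ 2) * ∫ t in (0:ℝ)..T, kapT T t * ‖χ (Sg K t q)‖ ^ 2 := by
  have hC := h.C0
  set C1 := 8 * C * (16 * C + 6) ^ 2 + 8 with hC1
  have hC10 : 0 ≤ C1 := by positivity
  refine ⟨16 * C1 + 128, by positivity, fun T hT hT1 q => ?_⟩
  have hc : Continuous fun t => ‖χ (Sg K t q)‖ ^ 2 :=
    ((χ.continuous.comp (Sg_continuousOn_apply hK hi q)).norm).pow 2
  have h1 := h.obs0 hK hi hχ (T := T / 4) (by linarith) (by linarith) (Sg K (3 * T / 8) q)
  rw [← hC1] at h1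
  have e1 : ∀ t, 0 ≤ t → Sg K t (Sg K (3 * T / 8) q) = Sg K (t + 3 * T / 8) q := by
    intro t ht
    rw [Sg_add ht (by linarith : 0 ≤ 3 * T / 8)]
    rfl
  have h2 : ‖Sg K T q‖ ≤ ‖Sg K (T / 4) (Sg K (3 * T / 8) q)‖ := by
    rw [e1 _ (by linarith)]
    have h3 := Sg_add (K := K) (s := T - (T / 4 + 3 * T / 8)) (t := T / 4 + 3 * T / 8) (by linarith)
      (by linarith)
    rw [sub_add_cancel] at h3
    rw [h3]
    exact Sg_norm_apply hK _ _
  have h3 : ∫ t in (0:ℝ)..(T / 4), ‖χ (Sg K t (Sg K (3 * T / 8) q))‖ ^ 2 =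
      ∫ t in (3 * T / 8)..(5 * T / 8), ‖χ (Sg K t q)‖ ^ 2 := by
    have h4 : ∫ t in (0:ℝ)..(T / 4), ‖χ (Sg K t (Sg K (3 * T / 8) q))‖ ^ 2 =
        ∫ t in (0:ℝ)..(T / 4), ‖χ (Sg K (t + 3 * T / 8) q)‖ ^ 2 := by
      refine intervalIntegral.integral_congr fun t ht => ?_
      rw [uIcc_of_le (by linarith)] at ht
      show ‖χ (Sg K t (Sg K (3 * T / 8) q))‖ ^ 2 = ‖χ (Sg K (t + 3 * T / 8) q)‖ ^ 2
      rw [e1 t ht.1]
    rw [h4, intervalIntegral.integral_comp_add_right (fun t => ‖χ (Sg K t q)‖ ^ 2)]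
    congr 1 <;> ring
  have hk : Continuous fun t => kapT T t * ‖χ (Sg K t q)‖ ^ 2 := (kapT_cont T).mul hc
  have h4 : ∫ t in (3 * T / 8)..(5 * T / 8), ‖χ (Sg K t q)‖ ^ 2 ≤
      4096 / T ^ 4 * ∫ t in (0:ℝ)..T, kapT T t * ‖χ (Sg K t q)‖ ^ 2 := by
    have h5 : ∫ t in (3 * T / 8)..(5 * T / 8), ‖χ (Sg K t q)‖ ^ 2 ≤
        ∫ t in (3 * T / 8)..(5 * T / 8), 4096 / T ^ 4 * (kapT T t * ‖χ (Sg K t q)‖ ^ 2) := by
      refine intervalIntegral.integral_mono_on (by linarith) (hc.intervalIntegrable _ _)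
        ((hk.const_mul _).intervalIntegrable _ _) fun t ht => ?_
      have h6 := kap_mid hT ht
      have h7 : 0 ≤ ‖χ (Sg K t q)‖ ^ 2 := by positivity
      nlinarith
    rw [intervalIntegral.integral_const_mul] at h5
    refine h5.trans (mul_le_mul_of_nonneg_left ?_ (by positivity))
    refine intervalIntegral.integral_mono_interval (by linarith) (by linarith) (by linarith) ?_
      (hk.intervalIntegrable _ _)
    exact Eventually.of_forall fun t => mul_nonneg (kapT_nonneg T t) (by positivity)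
  have hI0 : 0 ≤ ∫ t in (0:ℝ)..T, kapT T t * ‖χ (Sg K t q)‖ ^ 2 :=
    intervalIntegral.integral_nonneg hT.le fun t _ => mul_nonneg (kapT_nonneg T t) (by positivity)
  have h5 := const_T4 hT
  set I := ∫ t in (0:ℝ)..T, kapT T t * ‖χ (Sg K t q)‖ ^ 2 with hI
  have h6 : ‖Sg K T q‖ ^ 2 ≤ ‖Sg K (T / 4) (Sg K (3 * T / 8) q)‖ ^ 2 :=
    pow_le_pow_left₀ (norm_nonneg _) h2 2
  rw [h3] at h1
  have e2 : C1 / (T / 4) ^ 2 = 16 * C1 / T ^ 2 := by
    field_simp
    norm_num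
  rw [e2] at h1
  have hE : 0 < Real.exp (16 * C1 / T ^ 2) := Real.exp_pos _
  calc ‖Sg K T q‖ ^ 2 ≤ Real.exp (16 * C1 / T ^ 2) * ∫ t in (3 * T / 8)..(5 * T / 8), ‖χ (Sg K t q)‖ ^ 2 :=
        h6.trans h1
    _ ≤ Real.exp (16 * C1 / T ^ 2) * (4096 / T ^ 4 * I) := mul_le_mul_of_nonneg_left h4 hE.le
    _ ≤ Real.exp (16 * C1 / T ^ 2) * (Real.exp (128 / T ^ 2) * I) :=
        mul_le_mul_of_nonneg_left (mul_le_mul_of_nonneg_right h5 hI0) hE.le
    _ = Real.exp ((16 * C1 + 128) / T ^ 2) * I := by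
        rw [← mul_assoc, ← Real.exp_add]
        congr 2
        ring

end

end Pool.Agent.Lib.MP_79abb3_an.W
end
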