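import Pool.Agent.Lib.MP_79abb3_an.W.Def

/-!
Theorem W (MP_79abb3_an): the final statement. Small-time global null controllability of the Navier-Stokes system in
smooth bounded domains of `ℝ^2` and `ℝ^3`, with the Dirichlet condition on the uncontrolled part of the boundary.
-/

set_option autoImplicit false

open MeasureTheory Set Filter Topology Function
open scoped ENNReal RealInnerProductSpace

namespace Pool.Agent.Lib.MP_79abb3_an.W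

variable {d : ℕ} {F : Type} [NormedAddCommGroup F] [NormedSpace ℝ F]

/-- A smooth bounded connected domain: near every boundary point it is `{g > 0}` for a smooth function `g` whose
derivative does not vanish. -/
structure IsSmoothDomain (Ω : Set (Ed d)) : Prop where
  op : IsOpen Ω
  bdd : Bornology.IsBounded Ω
  conn : IsConnected Ω
  loc : ∀ x ∈ frontier Ω, ∃ (U : Set (Ed d)) (g : Ed d → ℝ), IsOpen U ∧ x ∈ U ∧ Smo g ∧
    (∀ y ∈ U, fderiv ℝ g y ≠ 0) ∧ ∀ y ∈ U, y ∈ Ω ↔ 0 < g y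

/-- `Γ` is a nonempty relatively open part of the boundary of `Ω`. -/
def IsOpenPart (Ω Γ : Set (Ed d)) : Prop := Γ.Nonempty ∧ ∃ O : Set (Ed d), IsOpen O ∧ Γ = O ∩ frontier Ω

/-- Test functions: smooth with compact support in `(0,T) × Ω`. -/
structure IsTfE (T : ℝ) (Ω : Set (Ed d)) (φ : ℝ × Ed d → F) : Prop where
  smooth : ContDiff ℝ ((⊤ : ℕ∞) : WithTop ℕ∞) φ
  cpt : HasCompactSupport φ
  supp : tsupport φ ⊆ Ioo 0 T ×ˢ Ω

/-- derivative in the space direction `e` -/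
noncomputable def dSp (φ : ℝ × Ed d → F) (e : Ed d) (p : ℝ × Ed d) : F := fderiv ℝ φ p (0, e)
/-- derivative in time -/
noncomputable def dTm (φ : ℝ × Ed d → F) (p : ℝ × Ed d) : F := fderiv ℝ φ p (1, 0)
/-- Laplacian in space -/
noncomputable def lapSp (φ : ℝ × Ed d → F) (p : ℝ × Ed d) : F := ∑ i, dSp (dSp φ (eb i)) (eb i) p
/-- divergence in space -/
noncomputable def divSp (φ : ℝ × Ed d → Ed d) (p : ℝ × Ed d) : ℝ := ∑ i, (dSp φ (eb i) p) i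

/-- Admissible initial data: `u₀ ∈ L²(Ω)` is in the `L²(Ω)` closure of the smooth fields which are divergence free in `Ω`
and vanish on `∂Ω ∖ Γ`. -/
def IsData (Ω Γ : Set (Ed d)) (u₀ : Ed d → Ed d) : Prop :=
  MemLp u₀ 2 (volume.restrict Ω) ∧ ∀ ε > 0, ∃ L : Ed d → Ed d, ContDiff ℝ ((⊤ : ℕ∞) : WithTop ℕ∞) L ∧
    (∀ x ∈ Ω, dvg L x = 0) ∧ (∀ x ∈ frontier Ω \ Γ, L x = 0) ∧
    eLpNorm (fun x => u₀ x - L x) 2 (volume.restrict Ω) ≤ ε

/-- `u ∈ H¹(Ω)` with gradient `g` and trace zero on `W`: a limit in `H¹(Ω)` of smooth functions with compact support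
disjoint from `W`. -/
def IsH0 (Ω W : Set (Ed d)) (u : Ed d → Ed d) (g : Ed d → (Ed d →L[ℝ] Ed d)) : Prop :=
  ∀ ε > 0, ∃ φ : Ed d → Ed d, ContDiff ℝ ((⊤ : ℕ∞) : WithTop ℕ∞) φ ∧ HasCompactSupport φ ∧
    Disjoint (tsupport φ) W ∧ eLpNorm (fun x => u x - φ x) 2 (volume.restrict Ω) ≤ ε ∧
    eLpNorm (fun x => g x - fderiv ℝ φ x) 2 (volume.restrict Ω) ≤ ε

/-- Weak (Leray type) trajectories on `[0,T]` of the Navier-Stokes system (viscosity one) in `Ω` with the condition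
`u = 0` on `∂Ω ∖ Γ` in the sense of traces and with the initial datum `u₀`: `u ∈ C_w([0,T]; L²(Ω))`,
`u ∈ L²(0,T; H¹(Ω))`, `u(0) = u₀`, `div u = 0`, and `∫ (u·∂_t φ + u·Δφ + ∑ u_i u_j ∂_j φ_i) = 0` for all
divergence free `φ ∈ C_c^∞((0,T) × Ω)^d`. -/
structure IsTraj (Ω Γ : Set (Ed d)) (T : ℝ) (u₀ : Ed d → Ed d) (u : ℝ × Ed d → Ed d) : Prop where
  sq : ∀ t ∈ Icc 0 T, MemLp (fun x => u (t, x)) 2 (volume.restrict Ω)
  cont : ∀ φ : Ed d → Ed d, MemLp φ 2 (volume.restrict Ω) →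
    ContinuousOn (fun t => ∫ x in Ω, ⟪u (t, x), φ x⟫) (Icc 0 T)
  init : ∀ᵐ x ∂(volume.restrict Ω), u (0, x) = u₀ x
  grad : MemLp u 2 (volume.restrict (Ioo 0 T ×ˢ Ω)) ∧ ∃ g : ℝ × Ed d → (Ed d →L[ℝ] Ed d),
    MemLp g 2 (volume.restrict (Ioo 0 T ×ˢ Ω)) ∧
    ∀ᵐ t ∂(volume.restrict (Ioo 0 T)), IsH0 Ω (frontier Ω \ Γ) (fun x => u (t, x)) (fun x => g (t, x))
  div : ∀ φ : ℝ × Ed d → ℝ, IsTfE T Ω φ → ∫ p, dSp φ (u p) p = 0
  ns : ∀ φ : ℝ × Ed d → Ed d, IsTfE T Ω φ → (∀ p, divSp φ p = 0) →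
    ∫ p, (⟪u p, dTm φ p⟫ + ⟪u p, lapSp φ p⟫ + ⟪u p, dSp φ (u p) p⟫) = 0

/-- The statement of Theorem W. -/
def TheoremW : Prop :=
  ∀ d : ℕ, d = 2 ∨ d = 3 → ∀ Ω Γ : Set (Ed d), IsSmoothDomain Ω → IsOpenPart Ω Γ → ∀ T : ℝ, 0 < T →
    ∀ u₀ : Ed d → Ed d, IsData Ω Γ u₀ →
      ∃ u : ℝ × Ed d → Ed d, IsTraj Ω Γ T u₀ u ∧ ∀ᵐ x ∂(volume.restrict Ω), u (T, x) = 0

end Pool.Agent.Lib.MP_79abb3_an.W
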