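import Pool.Agent.Lib.MP_79abb3_an.W.TrDef

/-!
Theorem W, block A: first properties of trajectories.
-/

set_option autoImplicit false
set_option linter.unusedSectionVars false

open MeasureTheory Set Filter Topology Function
open scoped ENNReal RealInnerProductSpace

namespace Pool.Agent.Lib.MP_79abb3_an.W

section
variable {d : ℕ} {Ω W : Set (En d)} {a b c : ℝ} {u : ℝ → L2E d} {G : ℝ → G2E d}

private theorem tra_norm_sq (u : L2E d) : ‖u‖ ^ 2 = ∫ x, ‖(u : En d → En d) x‖ ^ 2 := by
  rw [← real_inner_self_eq_norm_sq, L2.inner_def]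
  refine integral_congr_ae (Eventually.of_forall fun x => ?_)
  exact real_inner_self_eq_norm_sq _

private theorem tra_int_sq (u : L2E d) : Integrable fun x => ‖(u : En d → En d) x‖ ^ 2 :=
  (memLp_two_iff_integrable_sq_norm (Lp.memLp u).1).1 (Lp.memLp u)

/-- `|quad u φ| ≤ c ‖u‖²` if `‖Dφ‖ ≤ c` -/
theorem quad_le {φ : En d → En d} {c : ℝ} (hφ : Smo φ) (hc : ∀ x, ‖fderiv ℝ φ x‖ ≤ c) (u : L2E d) :
    |quad u φ| ≤ c * ‖u‖ ^ 2 := by
  rw [tra_norm_sq, ← integral_const_mul]
  have h0 : ∀ x, ‖⟪(u : En d → En d) x, fderiv ℝ φ x ((u : En d → En d) x)⟫‖ ≤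
      c * ‖(u : En d → En d) x‖ ^ 2 := ?_
  · exact norm_integral_le_of_norm_le ((tra_int_sq u).const_mul c) (Eventually.of_forall h0)
  intro x
  refine (abs_real_inner_le_norm _ _).trans ?_
  have h1 : ‖fderiv ℝ φ x ((u : En d → En d) x)‖ ≤ c * ‖(u : En d → En d) x‖ :=
    ((fderiv ℝ φ x).le_opNorm _).trans (mul_le_mul_of_nonneg_right (hc x) (norm_nonneg _))
  calc ‖(u : En d → En d) x‖ * ‖fderiv ℝ φ x ((u : En d → En d) x)‖
      ≤ ‖(u : En d → En d) x‖ * (c * ‖(u : En d → En d) x‖) := mul_le_mul_of_nonneg_left h1 (norm_nonneg _)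
    _ = c * ‖(u : En d → En d) x‖ ^ 2 := by ring

private theorem tra_op {A : En d → En d →L[ℝ] En d} (hA : Continuous A) {c : ℝ} (hc : ∀ x, ‖A x‖ ≤ c) :
    ∃ T : L2E d →L[ℝ] L2E d, ∀ u : L2E d, (T u : En d → En d) =ᵐ[volume] fun x => A x ((u : En d → En d) x) := by
  have hm : ∀ u : L2E d, MemLp (fun x => A x ((u : En d → En d) x)) 2 (volume : Measure (En d)) := by
    intro u
    refine MemLp.of_le_mul (c := c) (Lp.memLp u) ?_ (Eventually.of_forall fun x => ?_)
    · exact isBoundedBilinearMap_apply.continuous.comp_aestronglyMeasurable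
        (hA.aestronglyMeasurable.prodMk (Lp.memLp u).1)
    · exact ((A x).le_opNorm _).trans (mul_le_mul_of_nonneg_right (hc x) (norm_nonneg _))
  let L : L2E d →ₗ[ℝ] L2E d :=
    { toFun := fun u => (hm u).toLp _
      map_add' := by
        intro u v
        apply Lp.ext
        filter_upwards [(hm (u + v)).coeFn_toLp, (hm u).coeFn_toLp, (hm v).coeFn_toLp,
          Lp.coeFn_add ((hm u).toLp _) ((hm v).toLp _), Lp.coeFn_add u v] with x h1 h2 h3 h4 h5
        rw [h1, h4, Pi.add_apply, h2, h3, h5, Pi.add_apply, map_add]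
      map_smul' := by
        intro r u
        apply Lp.ext
        filter_upwards [(hm (r • u)).coeFn_toLp, (hm u).coeFn_toLp,
          Lp.coeFn_smul r ((hm u).toLp _), Lp.coeFn_smul r u] with x h1 h2 h3 h4
        rw [RingHom.id_apply, h1, h3, Pi.smul_apply, h2, h4, Pi.smul_apply, map_smul] }
  refine ⟨L.mkContinuous c fun u => ?_, fun u => (hm u).coeFn_toLp⟩
  refine Lp.norm_le_mul_norm_of_ae_le_mul ?_
  filter_upwards [(hm u).coeFn_toLp] with x hx
  show ‖((hm u).toLp _ : En d → En d) x‖ ≤ _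
  rw [hx]
  exact ((A x).le_opNorm _).trans (mul_le_mul_of_nonneg_right (hc x) (norm_nonneg _))

/-- the quadratic term is continuous in `u` -/
theorem quad_cont {φ : En d → En d} (hφ : Smo φ) (hc : HasCompactSupport φ) :
    Continuous fun u : L2E d => quad u φ := by
  have h1 : Continuous (fderiv ℝ φ) := hφ.continuous_fderiv (by norm_num)
  obtain ⟨c, hc'⟩ := h1.bounded_above_of_compact_support (hc.fderiv ℝ)
  obtain ⟨T, hT⟩ := tra_op h1 hc'
  have e : ∀ u : L2E d, quad u φ = ⟪u, T u⟫ := by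
    intro u
    rw [L2.inner_def]
    refine integral_congr_ae ?_
    filter_upwards [hT u] with x hx
    rw [hx]
  simp only [e]
  exact continuous_id.inner T.continuous

/-- A weakly continuous curve is bounded (`banach_steinhaus`; for `b < a` the interval is empty). -/
theorem wc_bdd (h : ∀ w : L2E d, ContinuousOn (fun t => ⟪u t, w⟫) (Icc a b)) :
    ∃ M : ℝ, 0 ≤ M ∧ ∀ t ∈ Icc a b, ‖u t‖ ≤ M := by
  have h1 : ∀ w : L2E d, ∃ C, ∀ t : Icc a b, ‖innerSL ℝ (u t) w‖ ≤ C := by
    intro w
    obtain ⟨C, hC⟩ := isCompact_Icc.exists_bound_of_continuousOn (h w)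
    exact ⟨C, fun t => hC t t.2⟩
  obtain ⟨C, hC⟩ := banach_steinhaus h1
  refine ⟨max C 0, le_max_right _ _, fun t ht => ?_⟩
  have := hC ⟨t, ht⟩
  rw [innerSL_apply_norm] at this
  exact this.trans (le_max_left _ _)

/-- the norm is lower semicontinuous along a weakly continuous curve -/
private theorem tra_closed (h : ∀ w : L2E d, Continuous fun t => ⟪u t, w⟫) (c : L2E d) {r : ℝ} (hr : 0 ≤ r) :
    IsClosed {t | ‖u t - c‖ ≤ r} := by
  have e : {t | ‖u t - c‖ ≤ r} = ⋂ w : L2E d, {t | ⟪u t, w⟫ - ⟪c, w⟫ ≤ r * ‖w‖} := by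
    ext t
    simp only [Set.mem_ofPred_eq, mem_iInter]
    constructor
    · intro ht w
      rw [← inner_sub_left]
      exact (real_inner_le_norm _ _).trans (mul_le_mul_of_nonneg_right ht (norm_nonneg _))
    · intro ht
      have h1 := ht (u t - c)
      rw [← inner_sub_left, real_inner_self_eq_norm_sq] at h1
      by_contra h2
      push Not at h2
      have h3 : 0 < ‖u t - c‖ := hr.trans_lt h2
      nlinarith
  rw [e]
  exact isClosed_iInter fun w => isClosed_le ((h w).sub continuous_const) continuous_const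

/-- A weakly continuous curve is strongly measurable (`L²` is separable; Pettis). -/
theorem wc_meas (h : ∀ w : L2E d, Continuous fun t => ⟪u t, w⟫) : StronglyMeasurable u := by
  classical
  have : Fact ((2 : ℝ≥0∞) ≠ ∞) := ⟨by norm_num⟩
  obtain ⟨c, hc⟩ := TopologicalSpace.exists_dense_seq (L2E d)
  have hp : ∀ (n : ℕ) (t : ℝ), ∃ k, ‖u t - c k‖ ≤ 1 / ((n : ℝ) + 1) := by
    intro n t
    obtain ⟨k, hk⟩ := hc.exists_dist_lt (u t) (by positivity : (0 : ℝ) < 1 / ((n : ℝ) + 1))
    exact ⟨k, by rw [dist_eq_norm] at hk; exact hk.le⟩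
  have hm : ∀ n : ℕ, Measurable fun t => Nat.find (hp n t) := fun n =>
    measurable_find (hp n) fun k => (tra_closed h (c k) (by positivity)).measurableSet
  refine stronglyMeasurable_of_tendsto (u := atTop) (f := fun (n : ℕ) t => c (Nat.find (hp n t))) ?_ ?_
  · intro n
    exact (continuous_of_discreteTopology (f := c)).comp_stronglyMeasurable (hm n).stronglyMeasurable
  · rw [tendsto_pi_nhds]
    intro t
    rw [tendsto_iff_norm_sub_tendsto_zero]
    refine squeeze_zero (fun _ => norm_nonneg _) (fun n => ?_) tendsto_one_div_add_atTop_nhds_zero_nat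
    rw [norm_sub_rev]
    exact Nat.find_spec (hp n t)

theorem wc_aesm (h : ∀ w : L2E d, ContinuousOn (fun t => ⟪u t, w⟫) (Icc a b)) :
    AEStronglyMeasurable u (volume.restrict (Icc a b)) := by
  rcases lt_or_ge b a with hlt | hle
  · rw [Icc_eq_empty (not_le.2 hlt), Measure.restrict_empty]
    exact aestronglyMeasurable_zero_measure _
  · refine ⟨fun t => u (projIcc a b hle t), ?_, ?_⟩
    · refine wc_meas fun w => ?_
      exact (h w).comp_continuous (continuous_subtype_val.comp continuous_projIcc) fun t => (projIcc a b hle t).2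
    · refine (ae_restrict_iff' measurableSet_Icc).2 (Eventually.of_forall fun t ht => ?_)
      show u t = u (projIcc a b hle t)
      rw [projIcc_of_mem hle ht]

/-- the integrand of the equation is integrable -/
theorem WTr.int (h : WTr Ω W a b u G) (φ : TS Ω) {s t : ℝ} (hs : a ≤ s) (hst : s ≤ t) (ht : t ≤ b) :
    IntervalIntegrable (fun r => ⟪u r, cl (lap (φ : En d → En d))⟫ + quad (u r) (φ : En d → En d)) volume s t := by
  have hsub : Icc s t ⊆ Icc a b := Icc_subset_Icc hs ht
  refine IntervalIntegrable.add ?_ ?_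
  · refine ContinuousOn.intervalIntegrable ?_
    rw [uIcc_of_le hst]
    exact (h.wc _).mono hsub
  · obtain ⟨M, hM0, hM⟩ := wc_bdd h.wc
    have h1 : Continuous (fderiv ℝ (φ : En d → En d)) := (TS.ts φ).smooth.continuous_fderiv (by norm_num)
    obtain ⟨c, hc⟩ := h1.bounded_above_of_compact_support ((TS.ts φ).cpt.fderiv ℝ)
    have hc0 : 0 ≤ c := (norm_nonneg _).trans (hc 0)
    rw [intervalIntegrable_iff_integrableOn_Icc_of_le hst]
    have hm : AEStronglyMeasurable (fun r => quad (u r) (φ : En d → En d)) (volume.restrict (Icc s t)) :=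
      (quad_cont (TS.ts φ).smooth (TS.ts φ).cpt).comp_aestronglyMeasurable
        ((wc_aesm h.wc).mono_measure (Measure.restrict_mono hsub le_rfl))
    refine Integrable.of_bound hm (c * M ^ 2) ?_
    · refine (ae_restrict_iff' measurableSet_Icc).2 (Eventually.of_forall fun r hr => ?_)
      refine (quad_le (TS.ts φ).smooth hc (u r)).trans ?_
      have := hM r (hsub hr)
      gcongr

end

end Pool.Agent.Lib.MP_79abb3_an.W
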