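import Pool.Agent.Lib.MP_79abb3_an.W.Mol1
import Pool.Agent.Lib.MP_79abb3_an.W.TrA
import Pool.Agent.Lib.MP_79abb3_an.W.TrDef
import Pool.Agent.Lib.MP_79abb3_an.W.FinalW
import Pool.Agent.Lib.MP_79abb3_an.W.SpA2

section

/-!
Theorem W, block A: jointly measurable representatives.
-/

set_option autoImplicit false
set_option linter.unusedSectionVars false

open MeasureTheory Set Filter Topology Function
open scoped ENNReal RealInnerProductSpace

namespace Pool.Agent.Lib.MP_79abb3_an.W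

section
variable {d : ℕ}

/-- the mollification of an `L²` class at a point is a bounded functional -/
theorem exists_mof (d n : ℕ) : ∃ T : En d → L2E d →L[ℝ] En d, Continuous T ∧ ∀ x (f : L2E d), T x f = mo n (f : En d → En d) x := by
  have hρ : MemLp (rho n : En d → ℝ) 2 (volume : Measure (En d)) :=
    (rho_smo n).continuous.memLp_of_hasCompactSupport (rho_hcs n)
  let c : En d → C(En d, En d) := (ContinuousMap.curry
    (⟨fun p : En d × En d => p.1 - p.2, continuous_fst.sub continuous_snd⟩ : C(En d × En d, En d)))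
  have hc : Continuous c := ContinuousMap.continuous _
  have hm : ∀ x : En d, MeasurePreserving (c x) volume volume := fun x =>
    Measure.measurePreserving_sub_left volume x
  let k : En d → Lp ℝ 2 (volume : Measure (En d)) := fun x =>
    Lp.compMeasurePreserving (c x) (hm x) (hρ.toLp _)
  have hk : Continuous k := continuous_const.compMeasurePreservingLp hc hm (by norm_num)
  let B : Lp ℝ 2 (volume : Measure (En d)) →L[ℝ] L2E d →L[ℝ] En d :=
    (ContinuousLinearMap.lsmul ℝ ℝ : ℝ →L[ℝ] En d →L[ℝ] En d).lpPairing volume 2 2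
  refine ⟨fun x => B (k x), B.continuous.comp hk, fun x f => ?_⟩
  have h1 : B (k x) f = ∫ z, (k x : En d → ℝ) z • (f : En d → En d) z :=
    ContinuousLinearMap.lpPairing_eq_integral _ _ _
  rw [h1, mo_eq]
  refine integral_congr_ae ?_
  have h2 : (k x : En d → ℝ) =ᵐ[volume] fun z => rho n (x - z) := by
    have h3 : k x = (hρ.comp_measurePreserving (hm x)).toLp _ := rfl
    rw [h3]
    exact MemLp.coeFn_toLp _
  filter_upwards [h2] with z hz
  rw [hz]

/-- `ρ_n * f → f` almost everywhere (`ContDiffBump.ae_convolution_tendsto_right_of_locallyIntegrable`). -/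
theorem mo_ae (f : L2E d) : ∀ᵐ x, Tendsto (fun n => mo n (f : En d → En d) x) atTop (𝓝 (f x)) := by
  have h1 : Tendsto (fun n : ℕ => (bmp d n).rOut) atTop (𝓝 0) :=
    tendsto_one_div_add_atTop_nhds_zero_nat
  have h2 : ∀ᶠ n : ℕ in atTop, (bmp d n).rOut ≤ 2 * (bmp d n).rIn := Eventually.of_forall fun n => by
    show 1 / ((n : ℝ) + 1) ≤ 2 * ((1 / ((n : ℝ) + 1)) / 2)
    exact le_of_eq (by ring)
  exact ContDiffBump.ae_convolution_tendsto_right_of_locallyIntegrable h1 h2
    ((Lp.memLp f).locallyIntegrable one_le_two)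

/-- **Representatives.** `w(t,x) = lim_n (ρ_n * U(t))(x)` where the limit exists (`StronglyMeasurable.limUnder`): `(t,x) ↦ T_n(x) U(t)`
is measurable. -/
theorem exists_rep {U : ℝ → L2E d} (hU : StronglyMeasurable U) : ∃ w : ℝ × En d → En d, StronglyMeasurable w ∧
    ∀ t, (fun x => w (t, x)) =ᵐ[volume] (U t : En d → En d) := by
  choose T hT hTm using exists_mof d
  have hm : ∀ n, StronglyMeasurable fun p : ℝ × En d => T n p.2 (U p.1) := by
    intro n
    have h1 : StronglyMeasurable fun p : ℝ × En d => T n p.2 :=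
      (hT n).stronglyMeasurable.comp_measurable measurable_snd
    have h2 : StronglyMeasurable fun p : ℝ × En d => U p.1 := hU.comp_measurable measurable_fst
    exact (isBoundedBilinearMap_apply (𝕜 := ℝ) (E := L2E d) (F := En d)).continuous.comp_stronglyMeasurable
      (h1.prodMk h2)
  refine ⟨fun p => limUnder atTop fun n => T n p.2 (U p.1), StronglyMeasurable.limUnder hm, fun t => ?_⟩
  filter_upwards [mo_ae (U t)] with x hx
  refine Tendsto.limUnder_eq (hx.congr fun n => ?_)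
  exact (hTm n x (U t)).symm

/-- the square of the norm -/
private theorem trC_sq (f : L2E d) : ∫⁻ x, ‖(f : En d → En d) x‖ₑ ^ (2 : ℝ) = ‖f‖ₑ ^ (2 : ℝ) := by
  rw [Lp.enorm_def, eLpNorm_eq_lintegral_rpow_enorm_toReal (by norm_num) (by norm_num)]
  simp only [ENNReal.toReal_ofNat]
  rw [← ENNReal.rpow_mul]
  norm_num

/-- square integrability in space-time -/
theorem rep_memLp {U : ℝ → L2E d} {w : ℝ × En d → En d} (hw : StronglyMeasurable w)
    (h : ∀ t, (fun x => w (t, x)) =ᵐ[volume] (U t : En d → En d)) {a b : ℝ}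
    (hU : MemLp U 2 (volume.restrict (Ioc a b))) (Ω : Set (En d)) :
    MemLp w 2 (volume.restrict (Ioo a b ×ˢ Ω)) := by
  refine ⟨hw.aestronglyMeasurable, ?_⟩
  rw [eLpNorm_lt_top_iff_lintegral_rpow_enorm_lt_top (by norm_num) (by norm_num)]
  simp only [ENNReal.toReal_ofNat]
  rw [Measure.volume_eq_prod, ← Measure.prod_restrict,
    lintegral_prod _ (hw.enorm.pow_const _).aemeasurable]
  have h1 : ∫⁻ t in Ioo a b, ∫⁻ x in Ω, ‖w (t, x)‖ₑ ^ (2 : ℝ) ≤
      ∫⁻ t in Ioo a b, ‖U t‖ₑ ^ (2 : ℝ) := by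
    refine lintegral_mono fun t => ?_
    refine (setLIntegral_le_lintegral _ _).trans (le_of_eq ?_)
    rw [← trC_sq]
    refine lintegral_congr_ae ?_
    filter_upwards [h t] with x hx
    rw [show w (t, x) = (U t : En d → En d) x from hx]
  refine h1.trans_lt ?_
  have h2 := (hU.mono_measure (Measure.restrict_mono Ioo_subset_Ioc_self le_rfl)).2
  rw [eLpNorm_lt_top_iff_lintegral_rpow_enorm_lt_top (by norm_num) (by norm_num)] at h2
  simpa only [ENNReal.toReal_ofNat] using h2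

end

end Pool.Agent.Lib.MP_79abb3_an.W
end

section

/-!
Theorem W, block A: the equation for test fields which depend on time.
-/

set_option autoImplicit false
set_option linter.unusedSectionVars false

open MeasureTheory Set Filter Topology Function
open scoped ENNReal RealInnerProductSpace

namespace Pool.Agent.Lib.MP_79abb3_an.W

section
variable {d : ℕ} {Ω W : Set (En d)} {a b : ℝ} {u : ℝ → L2E d} {G : ℝ → G2E d}

private theorem trd_unif {F : Type*} [NormedAddCommGroup F] {f : ℝ × En d → F} (hf : Continuous f)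
    (hc : HasCompactSupport f) {ε : ℝ} (hε : 0 < ε) :
    ∃ δ > 0, ∀ s t : ℝ, |t - s| < δ → ∀ x, ‖f (t, x) - f (s, x)‖ ≤ ε := by
  have h1 := hc.uniformContinuous_of_continuous hf
  obtain ⟨δ, hδ, h⟩ := Metric.uniformContinuous_iff.1 h1 ε hε
  refine ⟨δ, hδ, fun s t hst x => ?_⟩
  have h2 : dist (t, x) (s, x) < δ := by
    rw [Prod.dist_eq]
    simpa [Real.dist_eq, hδ] using hst
  have := h h2
  rw [dist_eq_norm] at this
  exact this.le

private theorem trd_cl_sub {f g : En d → En d} (hf : MemLp f 2 (volume : Measure (En d)))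
    (hg : MemLp g 2 (volume : Measure (En d))) : cl (fun x => f x - g x) = cl f - cl g := by
  have h : MemLp (fun x => f x - g x) 2 (volume : Measure (En d)) := hf.sub hg
  rw [cl_eq hf, cl_eq hg, cl_eq h]; rfl

private theorem trd_norm {K : Set (En d)} (hK : IsCompact K) : ∃ C : ℝ, 0 ≤ C ∧ ∀ (g : En d → En d) (ε : ℝ),
    Continuous g → (∀ x, ‖g x‖ ≤ ε) → (∀ x, x ∉ K → g x = 0) → ‖cl g‖ ≤ ε * C := by
  refine ⟨‖indicatorConstLp 2 hK.measurableSet hK.measure_lt_top.ne (μ := (volume : Measure (En d))) (1:ℝ)‖,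
    norm_nonneg _, fun g ε hg h1 h2 => ?_⟩
  have hm : MemLp g 2 (volume : Measure (En d)) :=
    hg.memLp_of_hasCompactSupport (HasCompactSupport.intro hK h2)
  refine Lp.norm_le_mul_norm_of_ae_le_mul ?_
  filter_upwards [cl_coe hm, indicatorConstLp_coeFn (p := 2) (hs := hK.measurableSet)
    (hμs := hK.measure_lt_top.ne) (μ := (volume : Measure (En d))) (c := (1:ℝ))] with x e1 e2
  rw [e1, e2]
  by_cases hx : x ∈ K
  · rw [indicator_of_mem hx]
    simpa using h1 x
  · rw [indicator_of_notMem hx, h2 x hx]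
    simp

/-- slices of a function with compact support -/
private theorem trd_supp {F : Type*} [NormedAddCommGroup F] {f : ℝ × En d → F} (hc : HasCompactSupport f) :
    ∃ K : Set (En d), IsCompact K ∧ ∀ t x, x ∉ K → f (t, x) = 0 :=
  ⟨Prod.snd '' tsupport f, hc.isCompact.image continuous_snd, fun t x hx =>
    image_eq_zero_of_notMem_tsupport fun h => hx ⟨(t, x), h, rfl⟩⟩

private theorem trd_memLp {f : ℝ × En d → En d} (hf : Continuous f) (hc : HasCompactSupport f) (t : ℝ) :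
    MemLp (fun x => f (t, x)) 2 (volume : Measure (En d)) := by
  obtain ⟨K, hK, hz⟩ := trd_supp hc
  exact (hf.comp (by fun_prop : Continuous fun x : En d => (t, x))).memLp_of_hasCompactSupport
    (HasCompactSupport.intro hK (hz t))

/-- continuity in time of the classes of the slices -/
private theorem trd_cont {f : ℝ × En d → En d} (hf : Continuous f) (hc : HasCompactSupport f) :
    Continuous fun t => cl fun x => f (t, x) := by
  obtain ⟨K, hK, hz⟩ := trd_supp hc
  obtain ⟨C, hC, hb⟩ := trd_norm hK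
  rw [Metric.continuous_iff]
  intro s ε hε
  obtain ⟨δ, hδ, h⟩ := trd_unif hf hc (by positivity : 0 < ε / (2 * (C + 1)))
  refine ⟨δ, hδ, fun t ht => ?_⟩
  rw [dist_eq_norm, ← trd_cl_sub (trd_memLp hf hc t) (trd_memLp hf hc s)]
  have h1 := hb (fun x => f (t, x) - f (s, x)) (ε / (2 * (C + 1))) (by fun_prop)
    (h s t ht) fun x hx => by rw [hz t x hx, hz s x hx, sub_zero]
  refine h1.trans_lt ?_
  calc ε / (2 * (C + 1)) * C < ε / (2 * (C + 1)) * (2 * (C + 1)) :=
        mul_lt_mul_of_pos_left (by linarith) (by positivity)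
    _ = ε := by field_simp

/-- derivative in time of the classes of the slices -/
private theorem trd_deriv {f : ℝ × En d → En d} (hf : ContDiff ℝ ((⊤ : ℕ∞) : WithTop ℕ∞) f)
    (hc : HasCompactSupport f) (t : ℝ) :
    HasDerivAt (fun t => cl fun x => f (t, x)) (cl fun x => fderiv ℝ f (t, x) (1, 0)) t := by
  have hf1 : Continuous fun p => fderiv ℝ f p (1, 0) :=
    (hf.continuous_fderiv (by norm_num)).clm_apply continuous_const
  have hc1 : HasCompactSupport fun p => fderiv ℝ f p (1, 0) := hc.fderiv_apply ℝ _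
  obtain ⟨K, hK, hz⟩ := trd_supp hc
  obtain ⟨K', hK', hz'⟩ := trd_supp hc1
  obtain ⟨C, hC, hb⟩ := trd_norm (hK.union hK')
  rw [hasDerivAt_iff_isLittleO, Asymptotics.isLittleO_iff]
  intro ε hε
  obtain ⟨δ, hδ, h⟩ := trd_unif hf1 hc1 (by positivity : 0 < ε / (C + 1))
  filter_upwards [Metric.ball_mem_nhds t hδ] with r hr
  rw [Metric.mem_ball, Real.dist_eq] at hr
  have m1 := trd_memLp hf.continuous hc r
  have m2 := trd_memLp hf.continuous hc t
  have m3 := trd_memLp hf1 hc1 t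
  have e : (cl fun x => f (r, x)) - (cl fun x => f (t, x)) - (r - t) • (cl fun x => fderiv ℝ f (t, x) (1, 0)) =
      cl fun x => (f (r, x) - f (t, x)) - (r - t) • fderiv ℝ f (t, x) (1, 0) := by
    rw [← trd_cl_sub m1 m2, ← cl_smul _ m3]
    exact (trd_cl_sub (m1.sub m2) (m3.const_smul (r - t))).symm
  rw [e]
  have hcd : ∀ x, ‖(f (r, x) - f (t, x)) - (r - t) • fderiv ℝ f (t, x) (1, 0)‖ ≤
      ε / (C + 1) * ‖r - t‖ := by
    intro x
    have hd : ∀ q ∈ Metric.ball t δ, HasDerivWithinAt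
        (fun q => f (q, x) - (q - t) • fderiv ℝ f (t, x) (1, 0))
        (fderiv ℝ f (q, x) (1, 0) - (1:ℝ) • fderiv ℝ f (t, x) (1, 0)) (Metric.ball t δ) q := by
      intro q _
      have h1 : HasFDerivAt f (fderiv ℝ f (q, x)) (q, x) :=
        (hf.differentiable (by simp)).differentiableAt.hasFDerivAt
      have h2 : HasDerivAt (fun q : ℝ => (q, x)) ((1:ℝ), (0 : En d)) q :=
        (hasDerivAt_id q).prodMk (hasDerivAt_const q x)
      have h3 : HasDerivAt (fun q : ℝ => f (q, x)) (fderiv ℝ f (q, x) (1, 0)) q := h1.comp_hasDerivAt q h2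
      have h4 : HasDerivAt (fun q : ℝ => (q - t) • fderiv ℝ f (t, x) (1, 0))
          ((1:ℝ) • fderiv ℝ f (t, x) (1, 0)) q :=
        ((hasDerivAt_id q).sub_const t).smul_const _
      exact (h3.sub h4).hasDerivWithinAt
    have := (convex_ball t δ).norm_image_sub_le_of_norm_hasDerivWithin_le hd (C := ε / (C + 1))
      (fun q hq => by
        rw [one_smul]
        exact h t q (by simpa [Real.dist_eq] using hq) x) (Metric.mem_ball_self hδ)
      (by rwa [Metric.mem_ball, Real.dist_eq] : r ∈ Metric.ball t δ)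
    simp only [sub_self, zero_smul, sub_zero] at this
    have e2 : (f (r, x) - f (t, x)) - (r - t) • fderiv ℝ f (t, x) (1, 0) =
      (f (r, x) - (r - t) • fderiv ℝ f (t, x) (1, 0)) - f (t, x) := by abel
    rw [e2]
    exact this
  have h1 := hb (fun x => (f (r, x) - f (t, x)) - (r - t) • fderiv ℝ f (t, x) (1, 0))
    (ε / (C + 1) * ‖r - t‖) (by
      have c1 : Continuous fun x : En d => f (r, x) := hf.continuous.comp (by fun_prop)
      have c2 : Continuous fun x : En d => f (t, x) := hf.continuous.comp (by fun_prop)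
      have c3 : Continuous fun x : En d => fderiv ℝ f (t, x) (1, 0) :=
        hf1.comp (by fun_prop : Continuous fun x : En d => (t, x))
      have c4 : Continuous fun x : En d => (r - t) • fderiv ℝ f (t, x) (1, 0) := c3.const_smul (r - t)
      exact (c1.sub c2).sub c4) hcd (fun x hx => by
      have hx1 : x ∉ K := fun h => hx (Or.inl h)
      have hx2 : x ∉ K' := fun h => hx (Or.inr h)
      have h3 : fderiv ℝ f (t, x) (1, 0) = 0 := hz' t x hx2
      rw [hz r x hx1, hz t x hx1, h3]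
      simp)
  refine h1.trans ?_
  calc ε / (C + 1) * ‖r - t‖ * C = ε * ‖r - t‖ * (C / (C + 1)) := by field_simp
    _ ≤ ε * ‖r - t‖ * 1 := by
      refine mul_le_mul_of_nonneg_left ?_ (by positivity)
      rw [div_le_one (by positivity)]
      linarith
    _ = ε * ‖r - t‖ := mul_one _

/-- weak times strong convergence -/
private theorem trd_ws {X : Type*} [NormedAddCommGroup X] [InnerProductSpace ℝ X] {l : Filter ℝ} {v : ℝ → X}
    {y : X} {f : ℝ → X} {z : X} {M : ℝ} (hM : ∀ᶠ t in l, ‖v t‖ ≤ M)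
    (hv : Tendsto (fun t => ⟪v t, z⟫) l (𝓝 ⟪y, z⟫)) (hf : Tendsto f l (𝓝 z)) :
    Tendsto (fun t => ⟪v t, f t⟫) l (𝓝 ⟪y, z⟫) := by
  have h1 : Tendsto (fun t => ⟪v t, f t - z⟫) l (𝓝 0) := by
    have h2 : Tendsto (fun t => M * ‖f t - z‖) l (𝓝 0) := by
      have := (tendsto_iff_norm_sub_tendsto_zero.1 hf).const_mul M
      simpa using this
    refine squeeze_zero_norm' ?_ h2
    filter_upwards [hM] with t ht
    exact (norm_inner_le_norm _ _).trans (mul_le_mul_of_nonneg_right ht (norm_nonneg _))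
  have h3 := h1.add hv
  rw [zero_add] at h3
  refine h3.congr fun t => ?_
  rw [inner_sub_right]
  ring

private theorem trd_quad_int {φ : En d → En d} {c : ℝ} (hφ : Continuous (fderiv ℝ φ))
    (hc : ∀ x, ‖fderiv ℝ φ x‖ ≤ c) (v : L2E d) :
    Integrable fun x => ⟪(v : En d → En d) x, fderiv ℝ φ x ((v : En d → En d) x)⟫ := by
  have i1 : Integrable fun x => ‖(v : En d → En d) x‖ ^ 2 :=
    (memLp_two_iff_integrable_sq_norm (Lp.memLp v).1).1 (Lp.memLp v)
  refine (i1.const_mul c).mono' ?_ (Eventually.of_forall fun x => ?_)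
  · exact (Lp.memLp v).1.inner (isBoundedBilinearMap_apply.continuous.comp_aestronglyMeasurable
      (hφ.aestronglyMeasurable.prodMk (Lp.memLp v).1))
  · refine (abs_real_inner_le_norm _ _).trans ?_
    have h1 : ‖fderiv ℝ φ x ((v : En d → En d) x)‖ ≤ c * ‖(v : En d → En d) x‖ :=
      ((fderiv ℝ φ x).le_opNorm _).trans (mul_le_mul_of_nonneg_right (hc x) (norm_nonneg _))
    calc ‖(v : En d → En d) x‖ * ‖fderiv ℝ φ x ((v : En d → En d) x)‖
        ≤ ‖(v : En d → En d) x‖ * (c * ‖(v : En d → En d) x‖) := mul_le_mul_of_nonneg_left h1 (norm_nonneg _)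
      _ = c * ‖(v : En d → En d) x‖ ^ 2 := by ring

private theorem trd_slice {φ : ℝ × En d → En d} (hφ : ContDiff ℝ ((⊤ : ℕ∞) : WithTop ℕ∞) φ) (t : ℝ) :
    Smo fun x => φ (t, x) :=
  hφ.comp (contDiff_prodMk_right t)

private theorem trd_fd {F : Type} [NormedAddCommGroup F] [NormedSpace ℝ F] {φ : ℝ × En d → F}
    (hφ : ContDiff ℝ ((⊤ : ℕ∞) : WithTop ℕ∞) φ) (t : ℝ) (x : En d) :
    fderiv ℝ (fun x => φ (t, x)) x = (fderiv ℝ φ (t, x)).comp (ContinuousLinearMap.inr ℝ ℝ (En d)) := by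
  have h1 : HasFDerivAt φ (fderiv ℝ φ (t, x)) (t, x) :=
    (hφ.differentiable (by simp)).differentiableAt.hasFDerivAt
  exact (h1.comp x (hasFDerivAt_prodMk_right t x)).fderiv

private theorem trd_quad_sub {φ : ℝ × En d → En d} (hφ : ContDiff ℝ ((⊤ : ℕ∞) : WithTop ℕ∞) φ)
    (hc : HasCompactSupport φ) {ε : ℝ} (hε : 0 < ε) :
    ∃ δ > 0, ∀ s t : ℝ, |t - s| < δ → ∀ v : L2E d,
      |quad v (fun x => φ (t, x)) - quad v (fun x => φ (s, x))| ≤ ε * ‖v‖ ^ 2 := by
  have h1 : Continuous (fderiv ℝ φ) := hφ.continuous_fderiv (by norm_num)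
  obtain ⟨c, hc'⟩ := h1.bounded_above_of_compact_support (hc.fderiv ℝ)
  obtain ⟨δ, hδ, h⟩ := trd_unif h1 (hc.fderiv ℝ) hε
  refine ⟨δ, hδ, fun s t hst v => ?_⟩
  have hn : ‖ContinuousLinearMap.inr ℝ ℝ (En d)‖ ≤ 1 := ContinuousLinearMap.norm_inr_le_one ℝ ℝ (En d)
  have hb : ∀ r x, ‖fderiv ℝ (fun x => φ (r, x)) x‖ ≤ c := by
    intro r x
    rw [trd_fd hφ]
    refine (ContinuousLinearMap.opNorm_comp_le _ _).trans ?_
    calc ‖fderiv ℝ φ (r, x)‖ * ‖ContinuousLinearMap.inr ℝ ℝ (En d)‖ ≤ ‖fderiv ℝ φ (r, x)‖ * 1 :=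
          mul_le_mul_of_nonneg_left hn (norm_nonneg _)
      _ ≤ c := by rw [mul_one]; exact hc' _
  have hcont : ∀ r, Continuous (fderiv ℝ fun x => φ (r, x)) := fun r =>
    (trd_slice hφ r).continuous_fderiv (by norm_num)
  have e : quad v (fun x => φ (t, x)) - quad v (fun x => φ (s, x)) =
      quad v (fun x => φ (t, x) - φ (s, x)) := by
    unfold quad
    rw [← integral_sub (trd_quad_int (hcont t) (hb t) v) (trd_quad_int (hcont s) (hb s) v)]
    refine integral_congr_ae (Eventually.of_forall fun x => ?_)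
    show _ - _ = ⟪(v : En d → En d) x, fderiv ℝ (fun x => φ (t, x) - φ (s, x)) x ((v : En d → En d) x)⟫
    rw [fderiv_fun_sub ((trd_slice hφ t).differentiable x) ((trd_slice hφ s).differentiable x),
      _root_.sub_apply, inner_sub_right]
  rw [e]
  refine quad_le ((trd_slice hφ t).sub (trd_slice hφ s)) (fun x => ?_) v
  rw [fderiv_fun_sub ((trd_slice hφ t).differentiable x) ((trd_slice hφ s).differentiable x),
    trd_fd hφ, trd_fd hφ, ← ContinuousLinearMap.sub_comp]
  refine (ContinuousLinearMap.opNorm_comp_le _ _).trans ?_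
  calc ‖fderiv ℝ φ (t, x) - fderiv ℝ φ (s, x)‖ * ‖ContinuousLinearMap.inr ℝ ℝ (En d)‖
      ≤ ‖fderiv ℝ φ (t, x) - fderiv ℝ φ (s, x)‖ * 1 := mul_le_mul_of_nonneg_left hn (norm_nonneg _)
    _ ≤ ε := by rw [mul_one]; exact h s t hst x

private theorem trd_quad_cont {φ : ℝ × En d → En d} (hφ : ContDiff ℝ ((⊤ : ℕ∞) : WithTop ℕ∞) φ)
    (hc : HasCompactSupport φ) : Continuous fun p : L2E d × ℝ => quad p.1 fun x => φ (p.2, x) := by
  rw [Metric.continuous_iff]
  rintro ⟨v0, r0⟩ ε hε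
  obtain ⟨K, hK, hz⟩ := trd_supp hc
  have h0 := quad_cont (trd_slice hφ r0) (HasCompactSupport.intro hK (hz r0))
  obtain ⟨δ₁, hδ₁, h1⟩ := Metric.continuous_iff.1 h0 v0 (ε / 2) (by positivity)
  obtain ⟨δ₂, hδ₂, h2⟩ := trd_quad_sub hφ hc (by positivity : 0 < ε / (2 * ((‖v0‖ + 1) ^ 2 + 1)))
  refine ⟨min (min δ₁ δ₂) 1, by positivity, ?_⟩
  rintro ⟨v, r⟩ hp
  rw [Prod.dist_eq, max_lt_iff, lt_min_iff, lt_min_iff, lt_min_iff, lt_min_iff] at hp
  obtain ⟨⟨⟨p1, -⟩, p3⟩, ⟨-, p5⟩, -⟩ := hp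
  have q1 := h1 v p1
  rw [Real.dist_eq] at p5
  have q2 := h2 r0 r p5 v
  have q3 : ‖v‖ ≤ ‖v0‖ + 1 := by
    rw [dist_eq_norm] at p3
    have := norm_le_norm_add_norm_sub' v v0
    linarith
  have q4 : ε / (2 * ((‖v0‖ + 1) ^ 2 + 1)) * ‖v‖ ^ 2 < ε / 2 := by
    have q5 : ‖v‖ ^ 2 < (‖v0‖ + 1) ^ 2 + 1 := by
      have := pow_le_pow_left₀ (norm_nonneg v) q3 2
      linarith
    calc ε / (2 * ((‖v0‖ + 1) ^ 2 + 1)) * ‖v‖ ^ 2 < ε / (2 * ((‖v0‖ + 1) ^ 2 + 1)) * ((‖v0‖ + 1) ^ 2 + 1) :=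
          mul_lt_mul_of_pos_left q5 (by positivity)
      _ = ε / 2 := by field_simp
  rw [Real.dist_eq] at q1 ⊢
  simp only at q1 ⊢
  have e : (quad v fun x => φ (r, x)) - (quad v0 fun x => φ (r0, x)) =
    ((quad v fun x => φ (r, x)) - (quad v fun x => φ (r0, x))) +
      ((quad v fun x => φ (r0, x)) - (quad v0 fun x => φ (r0, x))) := by ring
  rw [e]
  refine (abs_add_le _ _).trans_lt ?_
  linarith

/-- the Laplacian of the slices -/
private theorem trd_lap {φ : ℝ × En d → En d} (hφ : ContDiff ℝ ((⊤ : ℕ∞) : WithTop ℕ∞) φ)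
    (hc : HasCompactSupport φ) : ∃ f : ℝ × En d → En d, Continuous f ∧ HasCompactSupport f ∧
      ∀ t x, lap (fun x => φ (t, x)) x = f (t, x) := by
  set D : Fin d → (ℝ × En d → En d) → (ℝ × En d → En d) := fun i f p => fderiv ℝ f p (0, ei i) with hD
  have D1 : ∀ i f, ContDiff ℝ ((⊤ : ℕ∞) : WithTop ℕ∞) f → ContDiff ℝ ((⊤ : ℕ∞) : WithTop ℕ∞) (D i f) :=
    fun i f hf => (ContDiff.fderiv_right hf (by exact_mod_cast le_top)).clm_apply contDiff_const
  have D2 : ∀ i f, HasCompactSupport f → HasCompactSupport (D i f) := fun i f hf => hf.fderiv_apply ℝ _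
  have D3 : ∀ i f, ContDiff ℝ ((⊤ : ℕ∞) : WithTop ℕ∞) f → ∀ t x, pd i (fun x => f (t, x)) x = D i f (t, x) := by
    intro i f hf t x
    show fderiv ℝ (fun x => f (t, x)) x (ei i) = _
    rw [trd_fd hf]
    rfl
  refine ⟨fun p => ∑ i, D i (D i φ) p, ?_, ?_, ?_⟩
  · exact continuous_finsetSum _ fun i _ => (D1 i _ (D1 i _ hφ)).continuous
  · have : (fun p => ∑ i, D i (D i φ) p) = ∑ i, D i (D i φ) := by
      funext p
      simp
    rw [this]
    refine Finset.sum_induction _ (fun f => HasCompactSupport f) (fun f g hf hg => hf.add hg)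
      HasCompactSupport.zero fun i _ => D2 i _ (D2 i _ hc)
  · intro t x
    unfold lap
    refine Finset.sum_congr rfl fun i _ => ?_
    have : pd i (fun x => φ (t, x)) = fun x => D i φ (t, x) := funext fun x => D3 i φ hφ t x
    rw [this]
    exact D3 i _ (D1 i _ hφ) t x

/-- **Time dependent test fields.** `Φ : ℝ → TS Ω` (given by `φ (t, x)` smooth in both variables with compact support).
Proof: for a partition `t_k` of `[s,t]`:
`⟪u(t_{k+1}), φ(t_{k+1})⟫ - ⟪u(t_k), φ(t_k)⟫ = ⟪u(t_{k+1}), φ(t_{k+1}) - φ(t_k)⟫ + ⟪u(t_{k+1}) - u(t_k), φ(t_k)⟫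
= ∫_{t_k}^{t_{k+1}} (⟪u(t_{k+1}), ∂_t φ(r)⟫ + ⟪u(r), Δφ(t_k)⟫ + quad (u r) φ(t_k)) dr`; the mesh tends to zero
(weak continuity, bounds `wc_bdd`, `quad_le`, dominated convergence). -/
theorem WTr.eq_time (h : WTr Ω W a b u G) {φ : ℝ × En d → En d} (hφ : ContDiff ℝ ((⊤ : ℕ∞) : WithTop ℕ∞) φ)
    (hc : HasCompactSupport φ) (hs : ∀ t, IsTs Ω fun x => φ (t, x)) {s t : ℝ} (h1 : a ≤ s) (h2 : s ≤ t) (h3 : t ≤ b) :
    ⟪u t, cl fun x => φ (t, x)⟫ - ⟪u s, cl fun x => φ (s, x)⟫ =
      ∫ r in s..t, (⟪u r, cl fun x => fderiv ℝ φ (r, x) (1, 0)⟫ + ⟪u r, cl (lap fun x => φ (r, x))⟫ +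
        quad (u r) fun x => φ (r, x)) := by
  obtain ⟨M, hM0, hM⟩ := wc_bdd h.wc
  obtain ⟨f2, hf2, hc2, hl2⟩ := trd_lap hφ hc
  have hf1 : Continuous fun p => fderiv ℝ φ p (1, 0) :=
    (hφ.continuous_fderiv (by norm_num)).clm_apply continuous_const
  have hc1 : HasCompactSupport fun p => fderiv ℝ φ p (1, 0) := hc.fderiv_apply ℝ _
  -- the classes of the slices
  set c0 : ℝ → L2E d := fun r => cl fun x => φ (r, x) with hc0
  set c1 : ℝ → L2E d := fun r => cl fun x => fderiv ℝ φ (r, x) (1, 0) with hc1'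
  set c2 : ℝ → L2E d := fun r => cl (lap fun x => φ (r, x)) with hc2'
  have k0 : Continuous c0 := trd_cont hφ.continuous hc
  have k1 : Continuous c1 := trd_cont hf1 hc1
  have k2 : Continuous c2 := by
    have e : c2 = fun r => cl fun x => f2 (r, x) := by
      funext r
      show cl (lap fun x => φ (r, x)) = _
      congr 1
      funext x
      exact hl2 r x
    rw [e]
    exact trd_cont hf2 hc2
  have ws : ∀ f : ℝ → L2E d, Continuous f → ContinuousOn (fun r => ⟪u r, f r⟫) (Icc a b) := by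
    intro f hf r hr
    refine trd_ws (M := M) ?_ ((h.wc (f r)) r hr) (hf.continuousWithinAt (s := Icc a b) (x := r))
    filter_upwards [self_mem_nhdsWithin] with q hq using hM q hq
  have hst : Icc s t ⊆ Icc a b := Icc_subset_Icc h1 h3
  set Q : ℝ → ℝ := fun r => quad (u r) fun x => φ (r, x) with hQ
  have hpair : AEStronglyMeasurable (fun r => ((u r, r) : L2E d × ℝ)) (volume.restrict (Icc a b)) :=
    (wc_aesm h.wc).prodMk continuous_id.aestronglyMeasurable
  have hQm : AEStronglyMeasurable Q (volume.restrict (Icc a b)) := by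
    have := (trd_quad_cont hφ hc).comp_aestronglyMeasurable hpair
    exact this
  -- a bound of the derivative
  have hd1 : Continuous (fderiv ℝ φ) := hφ.continuous_fderiv (by norm_num)
  obtain ⟨c, hcb⟩ := hd1.bounded_above_of_compact_support (hc.fderiv ℝ)
  have hc0' : 0 ≤ c := (norm_nonneg _).trans (hcb 0)
  have hb : ∀ r x, ‖fderiv ℝ (fun x => φ (r, x)) x‖ ≤ c := by
    intro r x
    rw [trd_fd hφ]
    refine (ContinuousLinearMap.opNorm_comp_le _ _).trans ?_
    calc ‖fderiv ℝ φ (r, x)‖ * ‖ContinuousLinearMap.inr ℝ ℝ (En d)‖ ≤ ‖fderiv ℝ φ (r, x)‖ * 1 :=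
          mul_le_mul_of_nonneg_left (ContinuousLinearMap.norm_inr_le_one ℝ ℝ (En d)) (norm_nonneg _)
      _ ≤ c := by rw [mul_one]; exact hcb _
  have hQi : IntegrableOn Q (Icc a b) := by
    refine Integrable.of_bound hQm (c * M ^ 2) ?_
    refine (ae_restrict_iff' measurableSet_Icc).2 (Eventually.of_forall fun r hr => ?_)
    refine (quad_le (trd_slice hφ r) (hb r) (u r)).trans ?_
    have := hM r hr
    gcongr
  have sub : ∀ p q : ℝ, p ∈ Icc a b → q ∈ Icc a b → uIcc p q ⊆ Icc a b := fun p q hp hq =>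
    uIcc_subset_Icc hp hq
  have iQ : ∀ p q : ℝ, p ∈ Icc a b → q ∈ Icc a b → IntervalIntegrable Q volume p q := fun p q hp hq =>
    (hQi.mono_set (sub p q hp hq)).intervalIntegrable
  have iW : ∀ f : ℝ → L2E d, Continuous f → ∀ p q : ℝ, p ∈ Icc a b → q ∈ Icc a b →
      IntervalIntegrable (fun r => ⟪u r, f r⟫) volume p q := fun f hf p q hp hq =>
    ((ws f hf).mono (sub p q hp hq)).intervalIntegrable
  have hsm : s ∈ Icc a b := ⟨h1, h2.trans h3⟩
  have htm : t ∈ Icc a b := ⟨h1.trans h2, h3⟩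
  set F : ℝ → ℝ := fun r => ⟪u r, c1 r⟫ + ⟪u r, c2 r⟫ + Q r with hF
  have iF : ∀ p q : ℝ, p ∈ Icc a b → q ∈ Icc a b → IntervalIntegrable F volume p q := fun p q hp hq =>
    ((iW c1 k1 p q hp hq).add (iW c2 k2 p q hp hq)).add (iQ p q hp hq)
  set e : ℝ → ℝ := fun r => ⟪u r, c0 r⟫ - ∫ ρ in s..r, F ρ with he
  have key := constant_of_has_deriv_right_zero (f := e) (a := s) (b := t) ?_ ?_
  · have h4 := key t ⟨h2, le_rfl⟩
    simp only [he, intervalIntegral.integral_same, sub_zero] at h4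
    show ⟪u t, c0 t⟫ - ⟪u s, c0 s⟫ = ∫ r in s..t, F r
    linarith
  · refine ((ws c0 k0).mono hst).sub ?_
    have := intervalIntegral.continuousOn_primitive_interval' (iF s t hsm htm) left_mem_uIcc
    rwa [uIcc_of_le h2] at this
  · intro x hx
    have hxm : x ∈ Icc a b := hst ⟨hx.1, hx.2.le⟩
    have hnb : Ioo x t ∈ 𝓝[>] x := Ioo_mem_nhdsGT hx.2
    have hnb' : ∀ᶠ r in 𝓝[>] x, r ∈ Icc a b := by
      filter_upwards [hnb] with r hr using hst ⟨hx.1.trans hr.1.le, hr.2.le⟩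
    have lw : ∀ w : L2E d, Tendsto (fun r => ⟪u r, w⟫) (𝓝[>] x) (𝓝 ⟪u x, w⟫) := fun w =>
      (h.wc w x hxm).mono_left (nhdsWithin_le_iff.2 hnb')
    have lM : ∀ᶠ r in 𝓝[>] x, ‖u r‖ ≤ M := by
      filter_upwards [hnb'] with r hr using hM r hr
    -- first part
    have P1 : HasDerivWithinAt (fun r => ⟪u r, c0 r - c0 x⟫) ⟪u x, c1 x⟫ (Ici x) x := by
      rw [← hasDerivWithinAt_Ioi_iff_Ici, hasDerivWithinAt_iff_tendsto_slope' self_notMem_Ioi]
      have d1 : HasDerivWithinAt c0 (c1 x) (Ioi x) x := (trd_deriv hφ hc x).hasDerivWithinAt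
      rw [hasDerivWithinAt_iff_tendsto_slope' self_notMem_Ioi] at d1
      refine (trd_ws lM (lw _) d1).congr fun r => ?_
      rw [slope_def_module, slope_def_module, sub_self, inner_zero_right, sub_zero, real_inner_smul_right]
      rfl
    -- second part
    have P2 : HasDerivWithinAt (fun r => ∫ ρ in x..r, ⟪u ρ, c1 ρ⟫) ⟪u x, c1 x⟫ (Ici x) x := by
      refine intervalIntegral.integral_hasDerivWithinAt_right (t := Ioi x) (by simp) ?_ ?_
      · refine ⟨Icc a b ∩ Ioi x, inter_mem hnb' self_mem_nhdsWithin, ?_⟩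
        exact ((ws c1 k1).mono inter_subset_left).aestronglyMeasurable
          (measurableSet_Icc.inter measurableSet_Ioi)
      · exact trd_ws lM (lw _) (k1.continuousWithinAt (s := Ioi x) (x := x))
    -- third part
    set Dx : ℝ → ℝ := fun ρ => (⟪u ρ, c2 x⟫ + quad (u ρ) fun y => φ (x, y)) - (⟪u ρ, c2 ρ⟫ + Q ρ) with hDx
    have hDx0 : Dx x = 0 := by
      simp only [hDx, hQ]
      ring
    have iX : ∀ p q : ℝ, p ∈ Icc a b → q ∈ Icc a b → p ≤ q →
        IntervalIntegrable (fun ρ => ⟪u ρ, c2 x⟫ + quad (u ρ) fun y => φ (x, y)) volume p q :=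
      fun p q hp hq hpq => h.int ⟨fun y => φ (x, y), hs x⟩ hp.1 hpq hq.2
    have iQ2 : ∀ p q : ℝ, p ∈ Icc a b → q ∈ Icc a b →
        IntervalIntegrable (fun ρ => ⟪u ρ, c2 ρ⟫ + Q ρ) volume p q := fun p q hp hq =>
      (iW c2 k2 p q hp hq).add (iQ p q hp hq)
    have P3 : HasDerivWithinAt (fun r => ∫ ρ in x..r, Dx ρ) (Dx x) (Ici x) x := by
      refine intervalIntegral.integral_hasDerivWithinAt_right (t := Ioi x) (by simp) ?_ ?_
      · refine ⟨Ioc x t, mem_of_superset hnb Ioo_subset_Ioc_self, ?_⟩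
        have := (iX x t hxm htm hx.2.le).sub (iQ2 x t hxm htm)
        exact this.1.aestronglyMeasurable
      · rw [ContinuousWithinAt, hDx0]
        have t1 : Tendsto (fun ρ => ⟪u ρ, c2 x⟫ - ⟪u ρ, c2 ρ⟫) (𝓝[>] x) (𝓝 0) := by
          have := (lw (c2 x)).sub (trd_ws lM (lw _) (k2.continuousWithinAt (s := Ioi x) (x := x)))
          simpa using this
        have t2 : Tendsto (fun ρ => (quad (u ρ) fun y => φ (x, y)) - Q ρ) (𝓝[>] x) (𝓝 0) := by
          rw [Metric.tendsto_nhds]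
          intro ε hε
          obtain ⟨δ, hδ, hq⟩ := trd_quad_sub hφ hc (by positivity : 0 < ε / (2 * (M ^ 2 + 1)))
          have hnd : Ioo x (x + δ) ∈ 𝓝[>] x := Ioo_mem_nhdsGT (by linarith)
          filter_upwards [hnd, lM] with ρ hρ hMρ
          have q1 := hq ρ x (by rw [abs_lt]; constructor <;> linarith [hρ.1, hρ.2]) (u ρ)
          rw [Real.dist_eq, sub_zero]
          refine q1.trans_lt ?_
          have q2 : ‖u ρ‖ ^ 2 ≤ M ^ 2 := pow_le_pow_left₀ (norm_nonneg _) hMρ 2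
          calc ε / (2 * (M ^ 2 + 1)) * ‖u ρ‖ ^ 2 ≤ ε / (2 * (M ^ 2 + 1)) * M ^ 2 :=
                mul_le_mul_of_nonneg_left q2 (by positivity)
            _ < ε / (2 * (M ^ 2 + 1)) * (2 * (M ^ 2 + 1)) :=
                mul_lt_mul_of_pos_left (by nlinarith [sq_nonneg M]) (by positivity)
            _ = ε := by field_simp
        have t3 := t1.add t2
        rw [add_zero] at t3
        refine t3.congr fun ρ => ?_
        simp only [hDx]
        ring
    have P4 := (P1.sub P2).add P3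
    rw [sub_self, zero_add, hDx0] at P4
    have P5 := P4.const_add (e x)
    refine P5.congr_of_eventuallyEq ?_ ?_
    · have hnb2 : Ico x t ∈ 𝓝[≥] x := Ico_mem_nhdsGE hx.2
      filter_upwards [hnb2] with r hr
      have hrm : r ∈ Icc a b := hst ⟨hx.1.trans hr.1, hr.2.le⟩
      have a1 : ∫ ρ in s..r, F ρ = (∫ ρ in s..x, F ρ) + ∫ ρ in x..r, F ρ :=
        (intervalIntegral.integral_add_adjacent_intervals (iF s x hsm hxm) (iF x r hxm hrm)).symm
      have a2 : ∫ ρ in x..r, F ρ = (∫ ρ in x..r, ⟪u ρ, c1 ρ⟫) + ∫ ρ in x..r, (⟪u ρ, c2 ρ⟫ + Q ρ) := by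
        rw [← intervalIntegral.integral_add (iW c1 k1 x r hxm hrm) (iQ2 x r hxm hrm)]
        refine intervalIntegral.integral_congr fun ρ _ => ?_
        simp only [hF]
        ring
      have a3 : ∫ ρ in x..r, Dx ρ = (∫ ρ in x..r, (⟪u ρ, c2 x⟫ + quad (u ρ) fun y => φ (x, y))) -
          ∫ ρ in x..r, (⟪u ρ, c2 ρ⟫ + Q ρ) :=
        intervalIntegral.integral_sub (iX x r hxm hrm hr.1) (iQ2 x r hxm hrm)
      have a4 : ⟪u r, c0 x⟫ - ⟪u x, c0 x⟫ = ∫ ρ in x..r, (⟪u ρ, c2 x⟫ + quad (u ρ) fun y => φ (x, y)) :=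
        h.eq ⟨fun y => φ (x, y), hs x⟩ x r hxm.1 hr.1 hrm.2
      show e r = e x + ((⟪u r, c0 r - c0 x⟫ - ∫ ρ in x..r, ⟪u ρ, c1 ρ⟫) + ∫ ρ in x..r, Dx ρ)
      simp only [he]
      rw [a1, a2, a3, ← a4, inner_sub_right]
      ring
    · show e x = e x + ((⟪u x, c0 x - c0 x⟫ - ∫ ρ in x..x, ⟪u ρ, c1 ρ⟫) + ∫ ρ in x..x, Dx ρ)
      simp

end

end Pool.Agent.Lib.MP_79abb3_an.W
end

section

/-!
Theorem W, block A: sections of test functions, the trace condition.
-/

set_option autoImplicit false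
set_option linter.unusedSectionVars false

open MeasureTheory Set Filter Topology Function
open scoped ENNReal RealInnerProductSpace

namespace Pool.Agent.Lib.MP_79abb3_an.W

section
variable {d : ℕ} {Ω Γ W : Set (En d)} {a b T : ℝ} {u : ℝ → L2E d} {G : ℝ → G2E d}

private theorem trE1_te {F : Type} [NormedAddCommGroup F] [NormedSpace ℝ F] {φ : ℝ × En d → F}
    (h : IsTfE T Ω φ) (t : ℝ) : IsTe Ω fun x => φ (t, x) := by
  have hc : Continuous fun x : En d => (t, x) := by fun_prop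
  have hcl : IsClosed {x : En d | (t, x) ∈ tsupport φ} := (isClosed_tsupport φ).preimage hc
  have hsub : support (fun x => φ (t, x)) ⊆ {x : En d | (t, x) ∈ tsupport φ} := fun x hx =>
    subset_tsupport _ hx
  have hsub2 : tsupport (fun x => φ (t, x)) ⊆ {x : En d | (t, x) ∈ tsupport φ} :=
    closure_minimal hsub hcl
  refine ⟨h.smooth.comp (contDiff_const.prodMk contDiff_id), ?_, fun x hx => ?_⟩
  · refine HasCompactSupport.of_support_subset_isCompact (h.cpt.isCompact.image continuous_snd)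
      fun x hx => ⟨(t, x), hsub hx, rfl⟩
  · exact (h.supp (hsub2 hx)).2

private theorem trE1_dSp {F : Type} [NormedAddCommGroup F] [NormedSpace ℝ F] {φ : ℝ × En d → F}
    (h : ContDiff ℝ ((⊤ : ℕ∞) : WithTop ℕ∞) φ) (e : En d) (t : ℝ) (x : En d) :
    dSp φ e (t, x) = fderiv ℝ (fun x => φ (t, x)) x e := by
  have h1 : HasFDerivAt φ (fderiv ℝ φ (t, x)) (t, x) :=
    (h.differentiable (by norm_num) (t, x)).hasFDerivAt
  have h2 : HasFDerivAt (fun x : En d => (t, x)) (ContinuousLinearMap.inr ℝ ℝ (En d)) x :=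
    hasFDerivAt_prodMk_right t x
  have h3 := h1.comp x h2
  have h4 : fderiv ℝ (fun x => φ (t, x)) x =
      (fderiv ℝ φ (t, x)).comp (ContinuousLinearMap.inr ℝ ℝ (En d)) := h3.fderiv
  rw [h4]
  rfl

private theorem trE1_smooth {F : Type} [NormedAddCommGroup F] [NormedSpace ℝ F] {φ : ℝ × En d → F}
    (h : ContDiff ℝ ((⊤ : ℕ∞) : WithTop ℕ∞) φ) (e : En d) :
    ContDiff ℝ ((⊤ : ℕ∞) : WithTop ℕ∞) (dSp φ e) := by
  have h1 : ContDiff ℝ ((⊤ : ℕ∞) : WithTop ℕ∞) (fderiv ℝ φ) :=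
    ContDiff.fderiv_right h (by exact_mod_cast le_top)
  exact h1.clm_apply contDiff_const

/-- The sections of a test function `φ ∈ C_c^∞((0,T) × Ω)` (vector valued, divergence free) are test fields of `Ω`. -/
theorem IsTfE.sect {φ : ℝ × En d → En d} (h : IsTfE T Ω φ) (hd : ∀ p, divSp φ p = 0) (t : ℝ) :
    IsTs Ω fun x => φ (t, x) := by
  refine ⟨trE1_te h t, fun x => ?_⟩
  rw [← hd (t, x)]
  unfold dv divSp
  refine Finset.sum_congr rfl fun i _ => ?_
  rw [trE1_dSp h.smooth]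
  rfl

theorem IsTfE.sect' {φ : ℝ × En d → ℝ} (h : IsTfE T Ω φ) (t : ℝ) : IsTe Ω fun x => φ (t, x) := by
  exact trE1_te h t

/-- the derivatives of the sections -/
theorem dSp_sect {F : Type} [NormedAddCommGroup F] [InnerProductSpace ℝ F] {φ : ℝ × En d → F}
    (h : ContDiff ℝ ((⊤ : ℕ∞) : WithTop ℕ∞) φ) (e : En d) (t : ℝ) (x : En d) :
    dSp φ e (t, x) = fderiv ℝ (fun x => φ (t, x)) x e := by
  exact trE1_dSp h e t x

theorem lapSp_sect {F : Type} [NormedAddCommGroup F] [InnerProductSpace ℝ F] {φ : ℝ × En d → F}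
    (h : ContDiff ℝ ((⊤ : ℕ∞) : WithTop ℕ∞) φ) (t : ℝ) (x : En d) :
    lapSp φ (t, x) = lap (fun x => φ (t, x)) x := by
  unfold lapSp lap
  refine Finset.sum_congr rfl fun i _ => ?_
  rw [trE1_dSp (trE1_smooth h (eb i))]
  have h1 : (fun x => dSp φ (eb i) (t, x)) = pd i fun x => φ (t, x) :=
    funext fun y => trE1_dSp h (eb i) t y
  rw [h1]
  rfl

/-- the gradient as a field of linear maps -/
noncomputable def grM (g : Fin d → En d) : En d →L[ℝ] En d :=
  ∑ i, (EuclideanSpace.proj i : En d →L[ℝ] ℝ).smulRight (g i)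

/-- `‖grM g‖ ≤ ∑ ‖g i‖`, `grM (fun i => pd i φ x) = fderiv ℝ φ x` (`fderiv_eq_sum`) -/
theorem grM_le (g : Fin d → En d) : ‖grM g‖ ≤ ∑ i, ‖g i‖ := by
  refine ContinuousLinearMap.opNorm_le_bound _ (Finset.sum_nonneg fun i _ => norm_nonneg _)
    fun y => ?_
  have e : grM g y = ∑ i, y i • g i := by
    simp [grM]
  rw [e, Finset.sum_mul]
  refine (norm_sum_le _ _).trans (Finset.sum_le_sum fun i _ => ?_)
  rw [norm_smul, mul_comm]
  exact mul_le_mul_of_nonneg_left (PiLp.norm_apply_le y i) (norm_nonneg _)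

theorem grM_fderiv (φ : En d → En d) (x : En d) : grM (fun i => pd i φ x) = fderiv ℝ φ x := by
  refine ContinuousLinearMap.ext fun y => ?_
  rw [fderiv_eq_sum]
  simp [grM]

/-- the trace condition in the final form (`grM` is linear, `grM_le`) -/
theorem H0L.isH0 {u : L2E d} {G : G2E d} (h : H0L Ω W u G) {w : En d → En d} (hw : w =ᵐ[volume] (u : En d → En d))
    {g : Fin d → En d → En d} (hg : ∀ i, g i =ᵐ[volume] (G i : En d → En d)) :
    IsH0 Ω W w fun x => grM fun i => g i x := by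
  intro ε hε
  have hd1 : ((d : ℝ≥0∞) + 1) ≠ ∞ := by simp
  have hpos : 0 < ε / ((d : ℝ≥0∞) + 1) := ENNReal.div_pos hε.ne' hd1
  obtain ⟨φ, h1, h2, h3, h4, h5⟩ := h _ hpos
  have hle : ε / ((d : ℝ≥0∞) + 1) ≤ ε := ENNReal.div_le_of_le_mul (by
    rw [mul_add, mul_one]
    exact le_add_self)
  have hw' : ∀ᵐ x ∂(volume.restrict Ω), w x = (u : En d → En d) x := ae_restrict_of_ae hw
  have hg' : ∀ i, ∀ᵐ x ∂(volume.restrict Ω), g i x = (G i : En d → En d) x := fun i =>
    ae_restrict_of_ae (hg i)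
  refine ⟨φ, h1, h2, h3, ?_, ?_⟩
  · refine le_trans (le_of_eq (eLpNorm_congr_ae ?_)) (h4.trans hle)
    filter_upwards [hw'] with x hx
    rw [hx]
  · have hm : ∀ i, AEStronglyMeasurable (fun x => g i x - pd i φ x) (volume.restrict Ω) := by
      intro i
      have m1 : AEStronglyMeasurable (fun x => (G i : En d → En d) x - pd i φ x)
          (volume.restrict Ω) :=
        ((Lp.stronglyMeasurable (G i)).aestronglyMeasurable.sub
          (h1.pd i).continuous.aestronglyMeasurable)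
      refine m1.congr ?_
      filter_upwards [hg' i] with x hx
      rw [hx]
    have hi : ∀ i, eLpNorm (fun x => ‖g i x - pd i φ x‖) 2 (volume.restrict Ω) ≤
        ε / ((d : ℝ≥0∞) + 1) := by
      intro i
      rw [eLpNorm_norm]
      refine le_trans (le_of_eq (eLpNorm_congr_ae ?_)) (h5 i)
      filter_upwards [hg' i] with x hx
      rw [hx]
    have hpt : ∀ x, ‖grM (fun i => g i x) - fderiv ℝ φ x‖ ≤ ∑ i, ‖g i x - pd i φ x‖ := by
      intro x
      have e : grM (fun i => g i x) - fderiv ℝ φ x = grM fun i => g i x - pd i φ x := by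
        rw [← grM_fderiv]
        unfold grM
        rw [← Finset.sum_sub_distrib]
        refine Finset.sum_congr rfl fun i _ => ?_
        refine ContinuousLinearMap.ext fun y => ?_
        simp [smul_sub]
      rw [e]
      exact grM_le _
    calc eLpNorm (fun x => grM (fun i => g i x) - fderiv ℝ φ x) 2 (volume.restrict Ω)
        ≤ eLpNorm (∑ i, fun x => ‖g i x - pd i φ x‖) 2 (volume.restrict Ω) := by
          refine eLpNorm_mono_real fun x => ?_
          rw [Finset.sum_apply]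
          exact hpt x
      _ ≤ ∑ i, eLpNorm (fun x => ‖g i x - pd i φ x‖) 2 (volume.restrict Ω) :=
          eLpNorm_sum_le (fun i _ => (hm i).norm) (by norm_num)
      _ ≤ ∑ i : Fin d, ε / ((d : ℝ≥0∞) + 1) := Finset.sum_le_sum fun i _ => hi i
      _ ≤ ε := by
          rw [Finset.sum_const, Finset.card_univ, Fintype.card_fin, nsmul_eq_mul, ← mul_div_assoc]
          refine ENNReal.div_le_of_le_mul ?_
          rw [mul_comm]
          exact mul_le_mul_right le_self_add _

end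

end Pool.Agent.Lib.MP_79abb3_an.W
end

section

/-!
Theorem W, block A: the equations in space-time.
-/

set_option autoImplicit false
set_option linter.unusedSectionVars false

open MeasureTheory Set Filter Topology Function
open scoped ENNReal RealInnerProductSpace

namespace Pool.Agent.Lib.MP_79abb3_an.W

section
variable {d : ℕ} {Ω Γ W : Set (En d)} {a b T : ℝ} {u : ℝ → L2E d} {G : ℝ → G2E d}

private theorem trE2_off {F : Type} [NormedAddCommGroup F] [NormedSpace ℝ F] {φ : ℝ × En d → F}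
    {p : ℝ × En d} (hp : p ∉ tsupport φ) : fderiv ℝ φ p = 0 := by
  by_contra h
  exact hp (support_fderiv_subset ℝ h)

private theorem trE2_dir {F : Type} [NormedAddCommGroup F] [NormedSpace ℝ F] {φ : ℝ × En d → F}
    (h : IsTfE T Ω φ) (v : ℝ × En d) : IsTfE T Ω (fun p => fderiv ℝ φ p v) where
  smooth := by
    have h1 : ContDiff ℝ ((⊤ : ℕ∞) : WithTop ℕ∞) (fderiv ℝ φ) :=
      ContDiff.fderiv_right h.smooth (by exact_mod_cast le_top)
    exact h1.clm_apply contDiff_const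
  cpt := h.cpt.fderiv_apply ℝ v
  supp := by
    refine (closure_minimal (fun x hx => ?_) (isClosed_tsupport φ)).trans h.supp
    by_contra h1
    exact hx (by show fderiv ℝ φ x v = 0; rw [trE2_off h1]; rfl)

private theorem trE2_lap {F : Type} [NormedAddCommGroup F] [NormedSpace ℝ F] {φ : ℝ × En d → F}
    (h : IsTfE T Ω φ) : IsTfE T Ω (lapSp φ) := by
  have h1 : ∀ i : Fin d, IsTfE T Ω (dSp (dSp φ (eb i)) (eb i)) := fun i =>
    trE2_dir (trE2_dir h (0, eb i)) (0, eb i)
  have hs : support (lapSp φ) ⊆ tsupport φ := by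
    intro p hp
    by_contra h2
    refine hp (Finset.sum_eq_zero fun i _ => ?_)
    have h3 : p ∉ tsupport (fun q => fderiv ℝ φ q (0, eb i)) := by
      intro h4
      refine h2 (closure_minimal (fun x hx => ?_) (isClosed_tsupport φ) h4)
      by_contra h5
      exact hx (by show fderiv ℝ φ x (0, eb i) = 0; rw [trE2_off h5]; rfl)
    show fderiv ℝ (fun q => fderiv ℝ φ q (0, eb i)) p (0, eb i) = 0
    rw [trE2_off h3]
    rfl
  exact ⟨ContDiff.sum fun i _ => (h1 i).smooth, HasCompactSupport.of_support_subset_isCompact h.cpt hs,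
    (closure_minimal hs (isClosed_tsupport φ)).trans h.supp⟩

private theorem trE2_sq {X : Type} [MeasurableSpace X] {μ : Measure X} {w : X → En d} (hw : MemLp w 2 μ) :
    Integrable (fun x => ‖w x‖ ^ 2) μ := (memLp_two_iff_integrable_sq_norm hw.1).1 hw

private theorem trE2_inner {X : Type} [MeasurableSpace X] {μ : Measure X} {w ψ : X → En d}
    (hw : MemLp w 2 μ) (hψ : MemLp ψ 2 μ) : Integrable (fun x => ⟪w x, ψ x⟫) μ := by
  refine (hw.norm.integrable_mul hψ.norm).mono' (hw.1.inner hψ.1) (Eventually.of_forall fun x => ?_)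
  exact norm_inner_le_norm _ _

private theorem trE2_quad {X : Type} [MeasurableSpace X] {μ : Measure X} {w : X → En d}
    (hw : MemLp w 2 μ) {A : X → En d →L[ℝ] En d} (hA : AEStronglyMeasurable A μ) {C : ℝ}
    (hC : ∀ x, ‖A x‖ ≤ C) : Integrable (fun x => ⟪w x, A x (w x)⟫) μ := by
  have h1 : AEStronglyMeasurable (fun x => A x (w x)) μ :=
    (ContinuousLinearMap.id ℝ (En d →L[ℝ] En d)).aestronglyMeasurable_comp₂ hA hw.1
  refine ((trE2_sq hw).const_mul C).mono' (hw.1.inner h1) (Eventually.of_forall fun x => ?_)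
  refine (norm_inner_le_norm _ _).trans ?_
  have h2 : ‖A x (w x)‖ ≤ C * ‖w x‖ := (A x).le_of_opNorm_le (hC x) _
  calc ‖w x‖ * ‖A x (w x)‖ ≤ ‖w x‖ * (C * ‖w x‖) := mul_le_mul_of_nonneg_left h2 (norm_nonneg _)
    _ = C * ‖w x‖ ^ 2 := by ring

private theorem trE2_ext {f : ℝ × En d → ℝ} (hf : IntegrableOn f (Ioo 0 T ×ˢ (univ : Set (En d))))
    (h0 : ∀ p, p.1 ∉ Ioo 0 T → f p = 0) : Integrable f := by
  refine (integrableOn_iff_integrable_of_support_subset ?_).1 hf
  intro p hp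
  by_contra h1
  refine hp (h0 p fun h2 => h1 ⟨h2, mem_univ _⟩)

/-- Fubini -/
private theorem trE2_fub (hT : 0 < T) {f : ℝ × En d → ℝ}
    (hf : IntegrableOn f (Ioo 0 T ×ˢ (univ : Set (En d)))) (h0 : ∀ p, p.1 ∉ Ioo 0 T → f p = 0) :
    ∫ p, f p = ∫ r in (0 : ℝ)..T, ∫ x, f (r, x) := by
  have hi := trE2_ext hf h0
  rw [Measure.volume_eq_prod] at hi ⊢
  rw [integral_prod _ hi, intervalIntegral.integral_of_le hT.le]
  refine (setIntegral_eq_integral_of_forall_compl_eq_zero fun t ht => ?_).symm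
  have h1 : ∀ x : En d, f (t, x) = 0 := fun x => h0 (t, x) fun h2 => ht ⟨h2.1, h2.2.le⟩
  simp only [h1, integral_zero]

private theorem trE2_dz {F : Type} [NormedAddCommGroup F] [NormedSpace ℝ F] {φ : ℝ × En d → F}
    (h : IsTfE T Ω φ) {p : ℝ × En d} (hp : p.1 ∉ Ioo 0 T) : fderiv ℝ φ p = 0 :=
  trE2_off fun h1 => hp (h.supp h1).1

private theorem trE2_z {F : Type} [NormedAddCommGroup F] [NormedSpace ℝ F] {φ : ℝ × En d → F}
    (h : IsTfE T Ω φ) {p : ℝ × En d} (hp : p.1 ∉ Ioo 0 T) : φ p = 0 := by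
  by_contra h1
  exact hp (h.supp (subset_tsupport _ h1)).1

private theorem trE2_cs {F : Type} [NormedAddCommGroup F] {ψ : ℝ × En d → F} (h : HasCompactSupport ψ)
    (t : ℝ) : HasCompactSupport fun x => ψ (t, x) :=
  HasCompactSupport.of_support_subset_isCompact (IsCompact.image h continuous_snd)
    fun x hx => ⟨(t, x), subset_tsupport _ hx, rfl⟩

private theorem trE2_cl0 : cl (fun _ : En d => (0 : En d)) = 0 := by
  have h : MemLp (fun _ : En d => (0 : En d)) 2 (volume : Measure (En d)) := MemLp.zero'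
  rw [cl_eq h]
  rfl

/-- Time dependent tests: `WTr.eq_time` on `[0,T]`; `φ` vanishes at `t = 0` and `t = T`. -/
theorem WTr.ns0 (hT : 0 < T) (h : WTr Ω W 0 T u G) {φ : ℝ × En d → En d} (hφ : IsTfE T Ω φ)
    (hd : ∀ p, divSp φ p = 0) :
    ∫ r in (0 : ℝ)..T, (⟪u r, cl fun x => dTm φ (r, x)⟫ + ⟪u r, cl (lap fun x => φ (r, x))⟫ +
      quad (u r) fun x => φ (r, x)) = 0 := by
  have h1 := h.eq_time hφ.smooth hφ.cpt (hφ.sect hd) le_rfl hT.le le_rfl
  have e1 : (fun x => φ (T, x)) = fun _ : En d => (0 : En d) := by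
    ext1 x
    exact trE2_z hφ (p := (T, x)) fun h2 => lt_irrefl _ h2.2
  have e2 : (fun x => φ (0, x)) = fun _ : En d => (0 : En d) := by
    ext1 x
    exact trE2_z hφ (p := (0, x)) fun h2 => lt_irrefl _ h2.1
  rw [e1, e2, trE2_cl0, inner_zero_right, inner_zero_right, sub_zero] at h1
  exact h1.symm

/-- **Fubini.** `w` a jointly measurable representative of `u` on `[0,T]`, square integrable on `(0,T) × ℝ^d`. All integrands
are `⟪w, bounded function with compact support⟫` or `⟪w, A w⟫` with a bounded `A`; they vanish for `t ∉ (0,T)`. -/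
theorem ns_fubini (hT : 0 < T) {w : ℝ × En d → En d} (hw : StronglyMeasurable w)
    (hwu : ∀ t ∈ Icc 0 T, (fun x => w (t, x)) =ᵐ[volume] (u t : En d → En d))
    (hw2 : MemLp w 2 (volume.restrict (Ioo 0 T ×ˢ (univ : Set (En d)))))
    {φ : ℝ × En d → En d} (hφ : IsTfE T Ω φ) :
    ∫ p, (⟪w p, dTm φ p⟫ + ⟪w p, lapSp φ p⟫ + ⟪w p, dSp φ (w p) p⟫) =
      ∫ r in (0 : ℝ)..T, (⟪u r, cl fun x => dTm φ (r, x)⟫ + ⟪u r, cl (lap fun x => φ (r, x))⟫ +
        quad (u r) fun x => φ (r, x)) := by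
  have hφ1 : IsTfE T Ω (dTm φ) := trE2_dir hφ (1, 0)
  have hφ2 : IsTfE T Ω (lapSp φ) := trE2_lap hφ
  have hcd : Continuous (fderiv ℝ φ) := hφ.smooth.continuous_fderiv (by norm_num)
  obtain ⟨C, hC⟩ := hcd.bounded_above_of_compact_support (hφ.cpt.fderiv ℝ)
  have hC0 : 0 ≤ C := (norm_nonneg _).trans (hC 0)
  have hin : ∀ e : En d, ‖((0 : ℝ), e)‖ = ‖e‖ := fun e => by
    rw [Prod.norm_mk, norm_zero]
    exact max_eq_right (norm_nonneg _)
  have hAn : ∀ p, ‖(fderiv ℝ φ p).comp (ContinuousLinearMap.inr ℝ ℝ (En d))‖ ≤ C := fun p => by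
    refine ContinuousLinearMap.opNorm_le_bound _ hC0 fun e => ?_
    have h1 := (fderiv ℝ φ p).le_of_opNorm_le (hC p) ((0 : ℝ), e)
    rw [hin] at h1
    exact h1
  have hAc : Continuous fun p => (fderiv ℝ φ p).comp (ContinuousLinearMap.inr ℝ ℝ (En d)) :=
    hcd.clm_comp continuous_const
  have i1 := trE2_inner hw2 ((hφ1.smooth.continuous.memLp_of_hasCompactSupport hφ1.cpt).restrict
    (Ioo 0 T ×ˢ (univ : Set (En d))))
  have i2 := trE2_inner hw2 ((hφ2.smooth.continuous.memLp_of_hasCompactSupport hφ2.cpt).restrict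
    (Ioo 0 T ×ˢ (univ : Set (En d))))
  have i3 := trE2_quad hw2 hAc.aestronglyMeasurable hAn
  have hI : IntegrableOn (fun p => ⟪w p, dTm φ p⟫ + ⟪w p, lapSp φ p⟫ + ⟪w p, dSp φ (w p) p⟫)
      (Ioo 0 T ×ˢ (univ : Set (En d))) := (i1.add i2).add i3
  rw [trE2_fub hT hI fun p hp => by
    have h3 : dSp φ (w p) p = 0 := by
      show fderiv ℝ φ p (0, w p) = 0
      rw [trE2_dz hφ hp]; rfl
    rw [trE2_z hφ1 hp, trE2_z hφ2 hp, h3, inner_zero_right, add_zero, add_zero]]
  refine intervalIntegral.integral_congr fun t ht => ?_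
  rw [uIcc_of_le hT.le] at ht
  have hct : Continuous fun x : En d => ((t, x) : ℝ × En d) := continuous_const.prodMk continuous_id
  have m1 : MemLp (fun x : En d => dTm φ (t, x)) 2 volume := by
    refine (hφ1.smooth.continuous.comp hct).memLp_of_hasCompactSupport ?_
    exact trE2_cs hφ1.cpt t
  have e2 : (fun x : En d => lapSp φ (t, x)) = lap fun x => φ (t, x) := by
    ext1 x
    exact lapSp_sect hφ.smooth t x
  have m2 : MemLp (fun x : En d => lapSp φ (t, x)) 2 volume := by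
    refine (hφ2.smooth.continuous.comp hct).memLp_of_hasCompactSupport ?_
    exact trE2_cs hφ2.cpt t
  have e3 : ∀ x e : En d, dSp φ e (t, x) = fderiv ℝ (fun x => φ (t, x)) x e := fun x e =>
    dSp_sect hφ.smooth e t x
  show ∫ x, (⟪w (t, x), dTm φ (t, x)⟫ + ⟪w (t, x), lapSp φ (t, x)⟫ + ⟪w (t, x), dSp φ (w (t, x)) (t, x)⟫) =
    ⟪u t, cl fun x => dTm φ (t, x)⟫ + ⟪u t, cl (lap fun x => φ (t, x))⟫ + quad (u t) fun x => φ (t, x)
  have j1 := trE2_inner (Lp.memLp (u t)) m1
  have j2 := trE2_inner (Lp.memLp (u t)) m2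
  have j3 : Integrable fun x => ⟪(u t : En d → En d) x, (fderiv ℝ φ (t, x)).comp
      (ContinuousLinearMap.inr ℝ ℝ (En d)) ((u t : En d → En d) x)⟫ :=
    trE2_quad (Lp.memLp (u t)) (hAc.comp hct).aestronglyMeasurable fun x => hAn (t, x)
  rw [← e2, inner_cl _ m1, inner_cl _ m2]
  have e4 : quad (u t) (fun x => φ (t, x)) =
      ∫ x, ⟪(u t : En d → En d) x, (fderiv ℝ φ (t, x)).comp (ContinuousLinearMap.inr ℝ ℝ (En d))
        ((u t : En d → En d) x)⟫ := by
    refine integral_congr_ae (Eventually.of_forall fun x => ?_)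
    show ⟪(u t : En d → En d) x, fderiv ℝ (fun x => φ (t, x)) x ((u t : En d → En d) x)⟫ = _
    rw [← e3]
    rfl
  have j12 : Integrable fun x => ⟪(u t : En d → En d) x, dTm φ (t, x)⟫ +
      ⟪(u t : En d → En d) x, lapSp φ (t, x)⟫ := j1.add j2
  rw [e4, ← integral_add j1 j2, ← integral_add j12 j3]
  refine integral_congr_ae ?_
  filter_upwards [hwu t ht] with x hx
  rw [show w (t, x) = (u t : En d → En d) x from hx]
  rfl

theorem div_fubini (hT : 0 < T) (h : WTr Ω W 0 T u G) {w : ℝ × En d → En d} (hw : StronglyMeasurable w)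
    (hwu : ∀ t ∈ Icc 0 T, (fun x => w (t, x)) =ᵐ[volume] (u t : En d → En d))
    (hw2 : MemLp w 2 (volume.restrict (Ioo 0 T ×ˢ (univ : Set (En d)))))
    {φ : ℝ × En d → ℝ} (hφ : IsTfE T Ω φ) : ∫ p, dSp φ (w p) p = 0 := by
  have hcd : Continuous (fderiv ℝ φ) := hφ.smooth.continuous_fderiv (by norm_num)
  have hin : ∀ e : En d, ‖((0 : ℝ), e)‖ = ‖e‖ := fun e => by
    rw [Prod.norm_mk, norm_zero]
    exact max_eq_right (norm_nonneg _)
  have hm : MemLp (fderiv ℝ φ) 2 (volume.restrict (Ioo 0 T ×ˢ (univ : Set (En d)))) :=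
    (hcd.memLp_of_hasCompactSupport (hφ.cpt.fderiv ℝ)).restrict _
  have hsm : StronglyMeasurable fun p => dSp φ (w p) p := by
    have h1 : StronglyMeasurable fun p : ℝ × En d => ((0 : ℝ), w p) :=
      stronglyMeasurable_const.prodMk hw
    exact (isBoundedBilinearMap_apply (𝕜 := ℝ) (E := ℝ × En d) (F := ℝ)).continuous.comp_stronglyMeasurable
      (hcd.stronglyMeasurable.prodMk h1)
  have hI : IntegrableOn (fun p => dSp φ (w p) p) (Ioo 0 T ×ˢ (univ : Set (En d))) := by
    refine (hm.norm.integrable_mul hw2.norm).mono' hsm.aestronglyMeasurable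
      (Eventually.of_forall fun p => ?_)
    have h1 := (fderiv ℝ φ p).le_opNorm ((0 : ℝ), w p)
    rw [hin] at h1
    exact h1
  rw [trE2_fub hT hI fun p hp => by
    show fderiv ℝ φ p (0, w p) = 0
    rw [trE2_dz hφ hp]; rfl]
  have h0 : ∀ t ∈ Icc 0 T, ∫ x, dSp φ (w (t, x)) (t, x) = 0 := by
    intro t ht
    rw [← h.div t ht _ (hφ.sect' t), inner_cl _ ((hφ.sect' t).gd.memLp 2)]
    refine integral_congr_ae ?_
    filter_upwards [hwu t ht] with x hx
    rw [show w (t, x) = (u t : En d → En d) x from hx, real_inner_comm, inner_gd, dSp_sect hφ.smooth]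
  rw [intervalIntegral.integral_congr (g := fun _ => 0) fun t ht => by
    rw [uIcc_of_le hT.le] at ht
    exact h0 t ht]
  simp

end

end Pool.Agent.Lib.MP_79abb3_an.W
end

section

/-!
Theorem W, block A: the final form of a trajectory.
-/

set_option autoImplicit false
set_option linter.unusedSectionVars false
set_option linter.unusedVariables false

open MeasureTheory Set Filter Topology Function
open scoped ENNReal RealInnerProductSpace

namespace Pool.Agent.Lib.MP_79abb3_an.W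

section
variable {d : ℕ} {Ω Γ W : Set (En d)} {a b T : ℝ} {u : ℝ → L2E d} {G : ℝ → G2E d}

/-- a jointly measurable representative of a trajectory (`exists_rep` for `U t = u (projIcc 0 T t)`, strongly measurable by
`wc_meas`; square integrability by `wc_bdd`, `rep_memLp`) -/
theorem WTr.rep (hT : 0 < T) (h : WTr Ω W 0 T u G) : ∃ w : ℝ × En d → En d, StronglyMeasurable w ∧
    (∀ t ∈ Icc 0 T, (fun x => w (t, x)) =ᵐ[volume] (u t : En d → En d)) ∧
    MemLp w 2 (volume.restrict (Ioo 0 T ×ˢ (univ : Set (En d)))) := by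
  obtain ⟨M, -, hM⟩ := wc_bdd h.wc
  have hm : StronglyMeasurable fun t => u (projIcc 0 T hT.le t) := wc_meas fun v =>
    (h.wc v).comp_continuous (continuous_subtype_val.comp continuous_projIcc)
      fun t => (projIcc 0 T hT.le t).2
  obtain ⟨w, hw, hwu⟩ := exists_rep hm
  refine ⟨w, hw, fun t ht => ?_, ?_⟩
  · have h1 := hwu t
    rw [projIcc_of_mem hT.le ht] at h1
    exact h1
  · refine rep_memLp hw hwu ?_ univ
    exact MemLp.of_bound hm.aestronglyMeasurable M
      (Eventually.of_forall fun t => hM _ (projIcc 0 T hT.le t).2)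

/-- a jointly measurable representative of the gradient (`exists_rep`, `rep_memLp` for a strongly measurable representative of
each component) -/
theorem WTr.repG (hT : 0 < T) (h : WTr Ω W 0 T u G) : ∃ g : Fin d → ℝ × En d → En d,
    (∀ i, StronglyMeasurable (g i)) ∧
    (∀ᵐ t ∂(volume.restrict (Ioc 0 T)), ∀ i, (fun x => g i (t, x)) =ᵐ[volume] (G t i : En d → En d)) ∧
    ∀ i, MemLp (g i) 2 (volume.restrict (Ioo 0 T ×ˢ (univ : Set (En d)))) := by
  have hG : ∀ i : Fin d, MemLp (fun t => G t i) 2 (volume.restrict (Ioc 0 T)) := fun i =>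
    (PiLp.proj 2 (fun _ : Fin d => L2E d) i : G2E d →L[ℝ] L2E d).comp_memLp' h.gm
  choose g hg hgu using fun i => exists_rep (hG i).1.stronglyMeasurable_mk
  refine ⟨g, hg, ?_, fun i => ?_⟩
  · have h1 : ∀ᵐ t ∂(volume.restrict (Ioc 0 T)), ∀ i, G t i = (hG i).1.mk _ t :=
      ae_all_iff.2 fun i => (hG i).1.ae_eq_mk
    filter_upwards [h1] with t ht i
    rw [ht i]
    exact hgu i t
  · exact rep_memLp (hg i) (hgu i) ((memLp_congr_ae (hG i).1.ae_eq_mk).1 (hG i)) univ

private noncomputable def trEL (i : Fin d) : En d →L[ℝ] En d →L[ℝ] En d :=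
  ContinuousLinearMap.smulRightL ℝ (En d) (En d) (EuclideanSpace.proj i : En d →L[ℝ] ℝ)

private theorem trEL_eq (i : Fin d) (v : En d) :
    (EuclideanSpace.proj i : En d →L[ℝ] ℝ).smulRight v = trEL i v := rfl

private theorem trE1 {μ : Measure (ℝ × En d)} {g : ℝ × En d → En d} (i : Fin d)
    (hg : MemLp g 2 μ) : MemLp (fun p => trEL i (g p)) 2 μ := (trEL i).comp_memLp' hg

private theorem trE2 {μ : Measure (ℝ × En d)} {g : Fin d → ℝ × En d → En d}
    (hg : ∀ i, MemLp (g i) 2 μ) : MemLp (fun p => ∑ i, trEL i (g i p)) 2 μ := by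
  refine memLp_finsetSum (μ := μ) (p := 2) (Finset.univ : Finset (Fin d))
    (f := fun i p => trEL i (g i p)) ?_
  intro i _
  exact trE1 i (hg i)

private theorem trE3 (g : Fin d → En d) : grM g = ∑ i, trEL i (g i) := by
  unfold grM
  exact Finset.sum_congr rfl fun i _ => trEL_eq i _

private theorem trE_grM_memLp {μ : Measure (ℝ × En d)} {g : Fin d → ℝ × En d → En d}
    (hg : ∀ i, MemLp (g i) 2 μ) : MemLp (fun p => grM fun i => g i p) 2 μ := by
  have e : (fun p => grM fun i => g i p) = fun p => ∑ i, trEL i (g i p) := funext fun p => trE3 _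
  rw [e]
  exact trE2 hg

/-- **The final form.** -/
theorem WTr.isTraj (hO : IsOpen Ω) (hT : 0 < T) (h : WTr Ω (frontier Ω \ Γ) 0 T u G) {u₀ : En d → En d}
    (h0 : ∀ᵐ x ∂(volume.restrict Ω), (u 0 : En d → En d) x = u₀ x) :
    ∃ w : ℝ × En d → En d, IsTraj Ω Γ T u₀ w ∧ ∀ t ∈ Icc 0 T, (fun x => w (t, x)) =ᵐ[volume] (u t : En d → En d) := by
  obtain ⟨w, hw, hwu, hw2⟩ := h.rep hT
  obtain ⟨g, -, hgu, hg2⟩ := h.repG hT
  have hsub : Ioo 0 T ×ˢ Ω ⊆ Ioo 0 T ×ˢ (univ : Set (En d)) := prod_mono_right (subset_univ _)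
  have hIoo : (volume : Measure ℝ).restrict (Ioo 0 T) ≤ volume.restrict (Ioc 0 T) :=
    Measure.restrict_mono Ioo_subset_Ioc_self le_rfl
  refine ⟨w, ⟨fun t ht => ?_, fun φ hφ => ?_, ?_, ⟨?_, fun p => grM fun i => g i p, ?_, ?_⟩,
    fun φ hφ => div_fubini hT h hw hwu hw2 hφ, fun φ hφ hd => ?_⟩, hwu⟩
  · exact ((memLp_congr_ae (hwu t ht)).2 (Lp.memLp (u t))).restrict Ω
  · have h1 : MemLp (Ω.indicator φ) 2 (volume : Measure (En d)) :=
      (memLp_indicator_iff_restrict hO.measurableSet).2 hφ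
    refine (h.wc (h1.toLp _)).congr fun t ht => ?_
    simp only []
    rw [L2.inner_def, ← integral_indicator hO.measurableSet]
    refine integral_congr_ae ?_
    filter_upwards [h1.coeFn_toLp, hwu t ht] with x h2 h3
    rw [h2, ← h3]
    by_cases hx : x ∈ Ω
    · rw [indicator_of_mem hx, indicator_of_mem hx]
    · rw [indicator_of_notMem hx, indicator_of_notMem hx, inner_zero_right]
  · filter_upwards [h0, ae_restrict_of_ae (hwu 0 ⟨le_rfl, hT.le⟩)] with x h1 h2
    rw [← h1]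
    exact h2
  · exact hw2.mono_measure (Measure.restrict_mono hsub le_rfl)
  · exact trE_grM_memLp fun i => (hg2 i).mono_measure (Measure.restrict_mono hsub le_rfl)
  · have h1 : ∀ᵐ t ∂(volume.restrict (Ioo 0 T)), t ∈ Ioo 0 T := ae_restrict_mem measurableSet_Ioo
    filter_upwards [ae_mono hIoo h.h0, ae_mono hIoo hgu, h1] with t h2 h3 h4
    exact H0L.isH0 h2 (hwu t ⟨h4.1.le, h4.2.le⟩) h3
  · rw [ns_fubini hT hw hwu hw2 hφ, h.ns0 hT hφ hd]

end

end Pool.Agent.Lib.MP_79abb3_an.W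
end
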