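import Pool.Agent.Lib.MP_79abb3_an.WG.Chain
import Pool.Agent.Lib.MP_79abb3_an.W.N4
import Pool.Agent.Lib.MP_79abb3_an.W.HGeo
import Pool.Agent.Lib.MP_79abb3_an.PD.AbW
import Pool.Agent.Lib.MP_79abb3_an.SC.NcIter
import Pool.Agent.Lib.MP_79abb3_an.W.A3hd
import Pool.Agent.Lib.MP_79abb3_an.W.A3le
import Pool.Agent.Lib.MP_79abb3_an.W.P0f1
import Pool.Agent.Lib.MP_79abb3_an.W.TrA2
import Pool.Agent.Lib.MP_79abb3_an.W.TrB
import Pool.Agent.Lib.MP_79abb3_an.W.P0a3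
import Pool.Agent.Lib.MP_79abb3_an.W.HE
import Pool.Agent.Lib.MP_79abb3_an.W.TrE
import Pool.Agent.Lib.MP_79abb3_an.W.FZ

section

/-!
Theorem W, block G: interior smallness for distributions.
-/

set_option autoImplicit false
set_option linter.unusedSectionVars false
set_option linter.unusedVariables false

open MeasureTheory Set Filter Topology Metric Laplacian
open scoped ContDiff InnerProductSpace

namespace Pool.Agent.Lib.MP_79abb3_an.WG

section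
variable {E : Type} [NormedAddCommGroup E] [InnerProductSpace ℝ E] [FiniteDimensional ℝ E]
  [MeasurableSpace E] [BorelSpace E] {D : Set E}

/-- INTERIOR SMALLNESS (distributions). PROOF. Apply `interior_small` for `ball z0 (r0/2)` to the mollified sequences
(`RFS.moll`), `ε_n = 1/(n+1)` small; `∫_{ball z0 (r0/2)} moll² ≤ ∫_{ball z0 r0} f²` (`moll_l2_ball`); then `moll_ae`. -/
theorem interior_rough (hD : (Dᶜ).Nonempty) (hDo : IsOpen D) (hDb : Bornology.IsBounded D)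
    (hDc : IsPreconnected D) {t0 : ℝ} (ht0 : 0 < t0) (hI : IntBall D t0) {z0 : E} {r0 : ℝ}
    (hr0 : 0 < r0) (hZ : ball z0 r0 ⊆ D) {c w : ℝ} (hc : 0 < c) (hw : 0 < w) :
    ∃ C : ℝ, 0 ≤ C ∧ ∀ lam : ℝ, 1 ≤ lam → ∀ f : ℕ → E → ℝ, RFS D lam f →
      ∫ x in ball z0 r0, f 0 x ^ 2 ≤ (Real.exp (-(C * lam ^ ((2 : ℝ) / 3)))) ^ 2 →
      ∀ᵐ x, x ∈ D → c / √lam ≤ infDist x Dᶜ → |f 0 x| ≤ w := by
  obtain ⟨C, hC, h⟩ := interior_small hD hDo hDb hDc ht0 hI (half_pos hr0)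
    ((ball_subset_ball (by linarith)).trans hZ) hc hw
  refine ⟨C, hC, fun lam hlam f hf hsm => ?_⟩
  obtain ⟨ε₁, hε₁, h1⟩ := h lam hlam
  have hmem := hf.mem 0
  have hlam0 : 0 ≤ lam := by linarith
  -- the scales `1/(n+1)` tend to zero
  have hlimε : Tendsto (fun n : ℕ => 1 / ((n : ℝ) + 1)) atTop (𝓝 0) :=
    tendsto_one_div_add_atTop_nhds_zero_nat
  have hev : ∀ᶠ n : ℕ in atTop, 1 / ((n : ℝ) + 1) ≤ ε₁ ∧ 1 / ((n : ℝ) + 1) ≤ r0 / 2 := by
    have e1 : ∀ᶠ n : ℕ in atTop, 1 / ((n : ℝ) + 1) < ε₁ := hlimε.eventually (gt_mem_nhds hε₁)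
    have e2 : ∀ᶠ n : ℕ in atTop, 1 / ((n : ℝ) + 1) < r0 / 2 :=
      hlimε.eventually (gt_mem_nhds (half_pos hr0))
    filter_upwards [e1, e2] with n h2 h3 using ⟨h2.le, h3.le⟩
  have hbd : ∀ᶠ n : ℕ in atTop, ∀ x ∈ D, c / √lam ≤ infDist x Dᶜ →
      |moll (1 / ((n : ℝ) + 1)) (by positivity) (f 0) x| ≤ w := by
    filter_upwards [hev] with n hn x hx hdx
    have hpos : (0 : ℝ) < 1 / ((n : ℝ) + 1) := by positivity
    refine h1 _ hpos hn.1 (fun k => WG.moll (1 / ((n : ℝ) + 1)) hpos (f k))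
      (hf.moll hlam0 hpos) ?_ x hx hdx
    refine (moll_l2_ball hpos hmem z0 (r0 / 2)).trans (le_trans ?_ hsm)
    apply setIntegral_mono_set hmem.integrable_sq.integrableOn
      (Eventually.of_forall fun x => sq_nonneg _)
    exact (ball_subset_ball (by linarith [hn.2])).eventuallyLE
  filter_upwards [moll_ae hmem] with x hx hxD hdx
  have hx' := hx.abs
  exact le_of_tendsto hx' (hbd.mono fun n hn => hn x hxD hdx)

end

end Pool.Agent.Lib.MP_79abb3_an.WG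
end

section

/-!
Theorem W (MP_79abb3_an), block A4: the kernels of the semigroup (`d ≤ 3`: exponent `7/8`), the instance of `NcSys`.
-/

set_option autoImplicit false
set_option linter.unusedSectionVars false
set_option maxSynthPendingDepth 3

open MeasureTheory Set Filter Topology Function
open scoped InnerProductSpace ComplexConjugate

namespace Pool.Agent.Lib.MP_79abb3_an.W

open Pool.Agent.Lib.MP_79abb3_an.SC Pool.Agent.Lib.MP_79abb3_an.PD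

section
variable {X V Z : Type} [NormedAddCommGroup X] [InnerProductSpace ℝ X] [CompleteSpace X]
  [NormedAddCommGroup V] [InnerProductSpace ℝ V] [CompleteSpace V] [NormedAddCommGroup Z] [NormedSpace ℝ Z]
  {ι : V →L[ℝ] X} {j : V →L[ℝ] Z} {C : ℝ}

/-- `(x + y)⁴ ≤ 8 (x⁴ + y⁴)` -/
theorem add_pow4 (x y : ℝ) : (x + y) ^ 4 ≤ 8 * (x ^ 4 + y ^ 4) := by
  nlinarith [sq_nonneg (x - y), sq_nonneg (x + y), sq_nonneg (x ^ 2 - y ^ 2), sq_nonneg (x * y),
    mul_nonneg (sq_nonneg (x - y)) (sq_nonneg (x + y)), sq_nonneg (x ^ 2 + y ^ 2), mul_nonneg (sq_nonneg (x-y)) (sq_nonneg (x-y)),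
    mul_nonneg (sq_nonneg (x-y)) (sq_nonneg x), mul_nonneg (sq_nonneg (x-y)) (sq_nonneg y)]

/-- The pairing with `J3c y`. -/
theorem RNS.pair (h : RNS ι j C) (φ : Cx X) (y : Yc Z) : ‖⟪φ, J3c ι j y⟫_ℂ‖ ^ 4 ≤
    (2 * C * ‖y‖) ^ 4 * (‖Kh (KF (Cx.map ι)) φ‖ * ‖φ‖ ^ 3) := by
  have h1 := h.fdom.ι_Qv φ
  have h2 := h.fdom.norm_Qv φ
  rw [inner_J3c, ← h1, ← h2]
  set v := Qv (Cx.map ι) φ with hv
  set a := ‖Cx.map ι v‖ with ha
  set b := ‖v‖ with hb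
  have ha0 : 0 ≤ a := norm_nonneg _
  have hb0 : 0 ≤ b := norm_nonneg _
  have hC0 := h.C0
  have h3 : ∀ w : V, ‖ι w‖ ≤ a → ‖w‖ ≤ b → ‖j w‖ ^ 4 ≤ C ^ 4 * (a * b ^ 3) := fun w hw1 hw2 => by
    refine (h.lad w).trans (mul_le_mul_of_nonneg_left ?_ (by positivity))
    exact mul_le_mul hw1 (pow_le_pow_left₀ (norm_nonneg _) hw2 3) (by positivity) ha0
  have h4 := h3 v.re (by rw [← Cx.re_map]; exact Cx.norm_re_le _) (Cx.norm_re_le _)
  have h5 := h3 v.im (by rw [← Cx.im_map]; exact Cx.norm_im_le _) (Cx.norm_im_le _)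
  have h6 := pow_le_pow_left₀ (norm_nonneg _) (pry_norm j y v) 4
  have h7 := add_pow4 ‖j v.re‖ ‖j v.im‖
  have hy : 0 ≤ ‖y‖ ^ 4 := by positivity
  calc ‖pry j y v‖ ^ 4 ≤ (‖y‖ * (‖j v.re‖ + ‖j v.im‖)) ^ 4 := h6
    _ = ‖y‖ ^ 4 * (‖j v.re‖ + ‖j v.im‖) ^ 4 := by rw [mul_pow]
    _ ≤ ‖y‖ ^ 4 * (8 * (C ^ 4 * (a * b ^ 3) + C ^ 4 * (a * b ^ 3))) :=
        mul_le_mul_of_nonneg_left (h7.trans (by linarith)) hy
    _ = (2 * C * ‖y‖) ^ 4 * (a * b ^ 3) := by ring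

/-- Proof: `z = AS τ (J3c y)`, `‖z‖² = |⟪AS τ z, J3c y⟫|`, `Kh (AS τ z) = HS τ z`; norms `τ^{-1/2}`, `τ^{-1}`. -/
theorem RNS.AS_J3c (h : RNS ι j C) {τ : ℝ} (hτ : 0 < τ) (y : Yc Z) :
    ‖AS (KF (Cx.map ι)) τ (J3c ι j y)‖ ≤ 2 * C * τ ^ (-(7 / 8 : ℝ)) * ‖y‖ := by
  have hK := KF_nonneg (Cx.map ι)
  have hC0 := h.C0
  set z := AS (KF (Cx.map ι)) τ (J3c ι j y) with hz
  have h1 : ‖z‖ ^ 2 = ‖⟪AS (KF (Cx.map ι)) τ z, J3c ι j y⟫_ℂ‖ := by
    rw [AS_inner, ← hz, inner_self_eq_norm_sq_to_K]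
    simp
  have h2 := h.pair (AS (KF (Cx.map ι)) τ z) y
  rw [← h1] at h2
  have h3 : ‖Kh (KF (Cx.map ι)) (AS (KF (Cx.map ι)) τ z)‖ ≤ (√τ)⁻¹ * ‖z‖ := by
    have e : Kh (KF (Cx.map ι)) (AS (KF (Cx.map ι)) τ z) = HS (KF (Cx.map ι)) τ z := by
      rw [← Kh_AS hK hτ]; rfl
    rw [e]
    exact ((HS (KF (Cx.map ι)) τ).le_opNorm z).trans (mul_le_mul_of_nonneg_right (HS_norm hK hτ)
      (norm_nonneg _))
  have h4 : ‖AS (KF (Cx.map ι)) τ z‖ ≤ τ⁻¹ * ‖z‖ :=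
    ((AS (KF (Cx.map ι)) τ).le_opNorm z).trans (mul_le_mul_of_nonneg_right (AS_norm hK hτ) (norm_nonneg _))
  have hz0 : 0 ≤ ‖z‖ := norm_nonneg _
  have hy0 : 0 ≤ ‖y‖ := norm_nonneg _
  have hr : 0 ≤ 2 * C * τ ^ (-(7 / 8 : ℝ)) * ‖y‖ := by
    have := Real.rpow_nonneg hτ.le (-(7 / 8 : ℝ))
    positivity
  rcases hz0.eq_or_lt with h0 | h0
  · rw [← h0]; exact hr
  have e1 : (√τ)⁻¹ = τ ^ (-(1 / 2 : ℝ)) := by
    rw [Real.rpow_neg hτ.le, Real.sqrt_eq_rpow]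
  have e2 : τ⁻¹ = τ ^ (-1 : ℝ) := by rw [Real.rpow_neg_one]
  have e3 : (τ ^ (-(7 / 8 : ℝ))) ^ 4 = (√τ)⁻¹ * τ⁻¹ ^ 3 := by
    rw [e1, e2, ← Real.rpow_natCast, ← Real.rpow_natCast, ← Real.rpow_mul hτ.le, ← Real.rpow_mul hτ.le,
      ← Real.rpow_add hτ]
    norm_num
  have h5 : (‖z‖ ^ 2) ^ 4 ≤ (2 * C * ‖y‖) ^ 4 * (((√τ)⁻¹ * ‖z‖) * (τ⁻¹ * ‖z‖) ^ 3) := by
    refine h2.trans (mul_le_mul_of_nonneg_left ?_ (by positivity))
    exact mul_le_mul h3 (pow_le_pow_left₀ (norm_nonneg _) h4 3) (by positivity) (by positivity)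
  have h6 : ‖z‖ ^ 4 * ‖z‖ ^ 4 ≤ (2 * C * τ ^ (-(7 / 8 : ℝ)) * ‖y‖) ^ 4 * ‖z‖ ^ 4 := by
    have e4 : (2 * C * τ ^ (-(7 / 8 : ℝ)) * ‖y‖) ^ 4 = (2 * C * ‖y‖) ^ 4 * ((√τ)⁻¹ * τ⁻¹ ^ 3) := by
      rw [← e3]; ring
    rw [e4]
    calc ‖z‖ ^ 4 * ‖z‖ ^ 4 = (‖z‖ ^ 2) ^ 4 := by ring
      _ ≤ _ := h5
      _ = _ := by ring
  have h7 : ‖z‖ ^ 4 ≤ (2 * C * τ ^ (-(7 / 8 : ℝ)) * ‖y‖) ^ 4 := le_of_mul_le_mul_right h6 (by positivity)
  exact (pow_le_pow_iff_left₀ hz0 hr (by norm_num)).1 h7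

/-- The kernels. Proof: as `NSA.ker` (`PD/AbNa.lean`). -/
theorem RNS.ker (h : RNS ι j C) :
    Ker (Sg (KF (Cx.map ι))) (Lc (KF (Cx.map ι)) (J3c ι j)) (2 * C + 1) (7 / 8) := by
  have hC := h.C0
  have hK := KF_nonneg (Cx.map ι)
  have hi := h.fdom.K_inj
  refine ker_AS hK hi (J := (J3c ι j).coprod (Kh (KF (Cx.map ι)))) (by linarith) (by norm_num) (by norm_num) ?_
  rintro τ hτ ⟨y, u⟩
  have e : AS (KF (Cx.map ι)) τ (((J3c ι j).coprod (Kh (KF (Cx.map ι)))) (y, u)) =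
      AS (KF (Cx.map ι)) τ (J3c ι j y) + HS (KF (Cx.map ι)) τ u := by
    rw [← AS_Kh hK hτ u, ← map_add]; rfl
  rw [e]
  have h1 := h.AS_J3c hτ y
  have h2 : ‖HS (KF (Cx.map ι)) τ u‖ ≤ (√τ)⁻¹ * ‖u‖ :=
    (HS (KF (Cx.map ι)) τ).le_of_opNorm_le (HS_norm hK hτ) u
  have h3 : (√τ)⁻¹ ≤ kth (7 / 8) τ := by
    unfold kth
    rw [Real.sqrt_eq_rpow, ← Real.rpow_neg hτ.le]
    rcases le_total τ 1 with h1 | h1
    · have := Real.rpow_le_rpow_of_exponent_ge hτ h1 (show -(7 / 8 : ℝ) ≤ -(1 / 2 : ℝ) by norm_num)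
      linarith
    · have := Real.rpow_le_one_of_one_le_of_nonpos h1 (show -(1 / 2 : ℝ) ≤ 0 by norm_num)
      have h3 := Real.rpow_nonneg hτ.le (-(7 / 8 : ℝ))
      linarith
  have h4 : τ ^ (-(7 / 8 : ℝ)) ≤ kth (7 / 8) τ := by
    unfold kth; linarith
  have hy : ‖y‖ ≤ ‖(y, u)‖ := norm_fst_le (y, u)
  have hu : ‖u‖ ≤ ‖(y, u)‖ := norm_snd_le (y, u)
  have hk : 0 ≤ kth (7 / 8) τ := kth_nonneg _ hτ.le
  have h5 := Real.rpow_nonneg hτ.le (-(7 / 8 : ℝ))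
  calc ‖AS (KF (Cx.map ι)) τ (J3c ι j y) + HS (KF (Cx.map ι)) τ u‖ ≤
        ‖AS (KF (Cx.map ι)) τ (J3c ι j y)‖ + ‖HS (KF (Cx.map ι)) τ u‖ := norm_add_le _ _
    _ ≤ 2 * C * τ ^ (-(7 / 8 : ℝ)) * ‖y‖ + (√τ)⁻¹ * ‖u‖ := add_le_add h1 h2
    _ ≤ 2 * C * kth (7 / 8) τ * ‖(y, u)‖ + kth (7 / 8) τ * ‖(y, u)‖ := by gcongr
    _ = (2 * C + 1) * kth (7 / 8) τ * ‖(y, u)‖ := by ring

/-- The static inequality for real fields gives the one for complex fields.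
Proof: for `x = of a` the chain of `Fc_chain` is real (`Cnj.fA`, `Cx.cj_eq_iff`), apply `StatR.le` with `Λ = L³`,
`(L³)^{2/3} = L²`; for `x = of a + i of b` add the squares. -/
theorem StatR.stat {χ : X →L[ℝ] X} {Cs : ℝ} (hs : StatR ι χ Cs) :
    Stat (KF (Cx.map ι)) (Cx.map χ) Cs := by
  refine ⟨hs.C0, fun L hL x => ?_⟩
  have hK := KF_nonneg (Cx.map ι)
  have hΛ : 0 < L ^ 3 / 2 := by positivity
  set F := Fc (KF (Cx.map ι)) (L ^ 3 / 2) with hF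
  have hL3 : (1:ℝ) ≤ L ^ 3 := one_le_pow₀ hL
  have e1 : (L ^ 3 : ℝ) ^ (2 / 3 : ℝ) = L ^ 2 := by
    rw [← Real.rpow_natCast, ← Real.rpow_natCast, ← Real.rpow_mul (by linarith)]
    norm_num
  have e2 : 2 * (L ^ 3 / 2) = L ^ 3 := by ring
  -- the real case
  have hreal : ∀ a : X, F (Cx.of a) = Cx.of (F (Cx.of a)).re ∧
      ‖(F (Cx.of a)).re‖ ≤ Real.exp (Cs * L ^ 2) * ‖χ (F (Cx.of a)).re‖ := by
    intro a
    obtain ⟨g, hg0, hg1, hg2, hg3⟩ := Fc_chain hK hΛ (Cx.of a)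
    rw [e2] at hg2
    have hgr : ∀ k, g k = Cx.of (g k).re := fun k => by
      rw [← Cx.cj_eq_iff, hg3 k, (cnj_cj X).fA hK (cj_K ι) (ctf_adm hΛ k), Cx.cj_of]
    have hchain : ∀ k, KR ι ((g (k + 1)).re) = (g k).re := fun k => by
      have h1 := congrArg Cx.re (hg1 k)
      rw [KF_map, Cx.re_map] at h1
      exact h1
    have hnorm : ∀ k, ‖(g k).re‖ ≤ (L ^ 3) ^ k * ‖(g 0).re‖ := fun k => by
      have h1 := hg2 k
      rw [hgr k, hgr 0, Cx.norm_of, Cx.norm_of] at h1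
      simpa using h1
    have h2 := hs.le (L ^ 3) hL3 (fun k => (g k).re) hchain hnorm
    rw [e1, hg0] at h2
    refine ⟨?_, h2⟩
    have h3 := hgr 0
    rw [hg0] at h3
    exact h3
  obtain ⟨ha, ha'⟩ := hreal x.re
  obtain ⟨hb, hb'⟩ := hreal x.im
  have e3 : F x = Cx.mk (F (Cx.of x.re)).re (F (Cx.of x.im)).re := by
    conv_lhs => rw [Cx.eq_of x, map_add, map_smul, ha, hb]
    ext <;> simp
  rw [e3]
  set p := (F (Cx.of x.re)).re
  set q := (F (Cx.of x.im)).re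
  have h4 : ‖Cx.mk p q‖ ^ 2 ≤ (Real.exp (Cs * L ^ 2) * ‖Cx.map χ (Cx.mk p q)‖) ^ 2 := by
    rw [mul_pow, Cx.norm_sq, Cx.norm_sq, Cx.re_map, Cx.im_map, Cx.re_mk, Cx.im_mk, mul_add, ← mul_pow,
      ← mul_pow]
    exact add_le_add (pow_le_pow_left₀ (norm_nonneg _) ha' 2) (pow_le_pow_left₀ (norm_nonneg _) hb' 2)
  exact (sq_le_sq₀ (norm_nonneg _) (by positivity)).1 h4

/-- The instance of `NcSys`. -/
theorem RNS.ncSys (h : RNS ι j C) {χ : X →L[ℝ] X} {Cs : ℝ} (hs : StatR ι χ Cs) :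
    ∃ C0 : ℝ, NcSys (KF (Cx.map ι)) (Cx.map χ) (J3c ι j) (2 * C + 1) (7 / 8) C0 := by
  have hK := KF_nonneg (Cx.map ι)
  have hn : ∀ x, ‖Cx.map χ x‖ ≤ ‖x‖ := fun x => by
    have h1 : ‖Cx.map χ x‖ ^ 2 ≤ ‖x‖ ^ 2 := by
      rw [Cx.norm_sq, Cx.norm_sq, Cx.re_map, Cx.im_map]
      exact add_le_add (pow_le_pow_left₀ (norm_nonneg _) (hs.n _) 2)
        (pow_le_pow_left₀ (norm_nonneg _) (hs.n _) 2)
    exact (sq_le_sq₀ (norm_nonneg _) (norm_nonneg _)).1 h1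
  obtain ⟨C0, hC0, hobs⟩ := hs.stat.obs hK h.fdom.K_inj hn
  refine ⟨C0, ⟨hK, h.fdom.K_inj, h.ker, fun x y => ?_, hn, hC0, hobs⟩⟩
  apply Complex.ext
  · rw [Cx.inner_re, Cx.inner_re, Cx.re_map, Cx.im_map, Cx.re_map, Cx.im_map, hs.adj, hs.adj]
  · rw [Cx.inner_im, Cx.inner_im, Cx.re_map, Cx.im_map, Cx.re_map, Cx.im_map, hs.adj, hs.adj]

end

end Pool.Agent.Lib.MP_79abb3_an.W
end

section

/-!
Theorem W, block G: the spectral inequality for systems of scalar low frequency sequences.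
-/

set_option autoImplicit false
set_option linter.unusedSectionVars false
set_option linter.unusedVariables false

open MeasureTheory Set Filter Topology Metric Laplacian
open scoped ContDiff InnerProductSpace

namespace Pool.Agent.Lib.MP_79abb3_an.WG

section
variable {E : Type} [NormedAddCommGroup E] [InnerProductSpace ℝ E] [FiniteDimensional ℝ E]
  [MeasurableSpace E] [BorelSpace E] {D : Set E}

private theorem wgfin_alg {a b : ℝ} (ha : 0 ≤ a) (hb : b ≤ 1 / (2 * (1 + a))) (hb0 : 0 ≤ b) :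
    a * b ^ 2 ≤ 1 / 4 := by
  have h1 : b ^ 2 ≤ (1 / (2 * (1 + a))) ^ 2 := pow_le_pow_left₀ hb0 hb 2
  refine (mul_le_mul_of_nonneg_left h1 ha).trans ?_
  rw [div_pow, one_pow, mul_one_div, div_le_div_iff₀ (by positivity) (by norm_num)]
  nlinarith [sq_nonneg a]

/-- scaling -/
private theorem wgfin_rfs {lam M : ℝ} (hM : 0 < M) {f : ℕ → E → ℝ} (hmem : ∀ k, MemLp (f k) 2)
    (hl2 : ∀ k, ∫ x, f k x ^ 2 ≤ lam ^ (2 * k) * M ^ 2)
    (heqn : ∀ k, ∀ φ : E → ℝ, IsTe D φ → ∫ x, f k x * Δ (Δ φ) x = - ∫ x, f (k + 1) x * Δ φ x) :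
    RFS D lam (fun k x => M⁻¹ * f k x) where
  mem k := (hmem k).const_mul _
  l2 k := by
    have e : ∀ x, (M⁻¹ * f k x) ^ 2 = (M ^ 2)⁻¹ * f k x ^ 2 := fun x => by
      rw [mul_pow, inv_pow]
    simp only [e]
    rw [integral_const_mul]
    have h1 : (0:ℝ) < M ^ 2 := by positivity
    rw [inv_mul_le_iff₀ h1, mul_comm]
    exact hl2 k
  eqn k φ hφ := by
    simp only [mul_assoc]
    rw [integral_const_mul, integral_const_mul, heqn k φ hφ, mul_neg]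

/-- the part away from the boundary -/
private theorem wgfin_in {u : E → ℝ} {w M : ℝ} (hM : 0 < M) (hw : 0 ≤ w) (hu : MemLp u 2)
    {B : Set E} (hB : MeasurableSet B) (hBD : B ⊆ D) (hV : volume D ≠ ⊤)
    (h : ∀ᵐ x, x ∈ B → |M⁻¹ * u x| ≤ w) :
    ∫ x in B, u x ^ 2 ≤ w ^ 2 * volume.real D * M ^ 2 := by
  have hVB : volume B ≠ ⊤ := ne_top_of_le_ne_top hV (measure_mono hBD)
  have h1 : ∫ x in B, u x ^ 2 ≤ ∫ _x in B, (w * M) ^ 2 := by
    refine setIntegral_mono_on_ae hu.integrable_sq.integrableOn (integrableOn_const hVB) hB ?_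
    filter_upwards [h] with x hx hxB
    have h2 := hx hxB
    rw [abs_mul, abs_of_pos (inv_pos.2 hM), inv_mul_le_iff₀ hM] at h2
    rw [← sq_abs, mul_comm w M]
    exact pow_le_pow_left₀ (abs_nonneg _) h2 2
  refine h1.trans ?_
  rw [setIntegral_const, smul_eq_mul, mul_pow]
  have h3 : volume.real B ≤ volume.real D := measureReal_mono hBD hV
  calc volume.real B * (w ^ 2 * M ^ 2) ≤ volume.real D * (w ^ 2 * M ^ 2) :=
        mul_le_mul_of_nonneg_right h3 (by positivity)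
    _ = _ := by ring

private theorem wgfin_split {u : E → ℝ} (hDo : IsOpen D) (hu : MemLp u 2)
    (h0 : ∀ᵐ x, x ∉ D → u x = 0) (ρ : ℝ) :
    ∫ x, u x ^ 2 = (∫ x in {x | x ∈ D ∧ infDist x Dᶜ < ρ}, u x ^ 2) +
      ∫ x in {x | x ∈ D ∧ ρ ≤ infDist x Dᶜ}, u x ^ 2 := by
  have hD : MeasurableSet D := hDo.measurableSet
  have hB : MeasurableSet {x | x ∈ D ∧ ρ ≤ infDist x Dᶜ} :=
    hD.inter (isClosed_le continuous_const (continuous_infDist_pt _)).measurableSet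
  have h1 : ∫ x in D, u x ^ 2 = ∫ x, u x ^ 2 := by
    refine setIntegral_eq_integral_of_ae_compl_eq_zero ?_
    filter_upwards [h0] with x hx hxD
    rw [hx hxD]
    norm_num
  have h2 : D = {x | x ∈ D ∧ infDist x Dᶜ < ρ} ∪ {x | x ∈ D ∧ ρ ≤ infDist x Dᶜ} := by
    ext x
    constructor
    · intro hx
      rcases lt_or_ge (infDist x Dᶜ) ρ with h | h
      · exact Or.inl ⟨hx, h⟩
      · exact Or.inr ⟨hx, h⟩
    · rintro (h | h) <;> exact h.1
  rw [← h1]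
  conv_lhs => rw [h2]
  refine setIntegral_union ?_ hB hu.integrable_sq.integrableOn hu.integrable_sq.integrableOn
  rw [Set.disjoint_left]
  rintro x ⟨-, h3⟩ ⟨-, h4⟩
  exact absurd h3 (not_lt.2 h4)

/-- THE SPECTRAL INEQUALITY, scalar form. PROOF. `M² = ∑ ∫ (f i 0)² > 0` w.l.o.g. Suppose the conclusion fails; then
`f i k / M` are `RFS` with `∫_Z (f i 0/M)² ≤ e^{-C lam^{2/3}}`. Choose `c` with `CP c² ≤ 1/4` and `c ≤ ρ0` (so
`ρ = c/√lam ≤ ρ0`), `w² · card ι · vol D ≤ 1/4`. Then `∑ ∫ (f i 0)² = ∑ ∫_{D, dist < ρ} + ∑ ∫_{D, dist ≥ ρ}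
≤ CP ρ² lam M² + card ι · vol D · w² M² ≤ M²/2`, a contradiction. -/
theorem spectral_abs {ι : Type} [Fintype ι] (hD : (Dᶜ).Nonempty) (hDo : IsOpen D)
    (hDb : Bornology.IsBounded D)
    (hDc : IsPreconnected D) {t0 : ℝ} (ht0 : 0 < t0) (hI : IntBall D t0) {z0 : E} {r0 : ℝ}
    (hr0 : 0 < r0) (hZ : ball z0 r0 ⊆ D) {CP ρ0 : ℝ} (hCP : 0 ≤ CP) (hρ0 : 0 < ρ0) :
    ∃ C : ℝ, 0 ≤ C ∧ ∀ lam : ℝ, 1 ≤ lam → ∀ f : ι → ℕ → E → ℝ, (∀ i k, MemLp (f i k) 2) →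
      (∀ k, ∑ i, ∫ x, f i k x ^ 2 ≤ lam ^ (2 * k) * ∑ i, ∫ x, f i 0 x ^ 2) →
      (∀ i k, ∀ φ : E → ℝ, IsTe D φ → ∫ x, f i k x * Δ (Δ φ) x = - ∫ x, f i (k + 1) x * Δ φ x) →
      (∀ i, ∀ᵐ x, x ∉ D → f i 0 x = 0) →
      (∀ ρ, 0 ≤ ρ → ρ ≤ ρ0 → ∑ i, ∫ x in {x | x ∈ D ∧ infDist x Dᶜ < ρ}, f i 0 x ^ 2 ≤
        CP * ρ ^ 2 * lam * ∑ i, ∫ x, f i 0 x ^ 2) →
      ∑ i, ∫ x, f i 0 x ^ 2 ≤
        Real.exp (C * lam ^ ((2 : ℝ) / 3)) * ∑ i, ∫ x in ball z0 r0, f i 0 x ^ 2 := by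
  have hV : volume D ≠ ⊤ := hDb.measure_lt_top.ne
  have hV0 : 0 ≤ volume.real D := measureReal_nonneg
  have hn : (0:ℝ) ≤ Fintype.card ι := Nat.cast_nonneg _
  have hnV : 0 ≤ (Fintype.card ι : ℝ) * volume.real D := mul_nonneg hn hV0
  obtain ⟨w, hwd⟩ : ∃ w : ℝ, w = 1 / (2 * (1 + (Fintype.card ι : ℝ) * volume.real D)) := ⟨_, rfl⟩
  obtain ⟨c, hcd⟩ : ∃ c : ℝ, c = min ρ0 (1 / (2 * (1 + CP))) := ⟨_, rfl⟩
  have hw : 0 < w := by rw [hwd]; positivity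
  have hc : 0 < c := by rw [hcd]; exact lt_min hρ0 (by positivity)
  have hcρ : c ≤ ρ0 := by rw [hcd]; exact min_le_left _ _
  have hc2 : CP * c ^ 2 ≤ 1 / 4 := wgfin_alg hCP (by rw [hcd]; exact min_le_right _ _) hc.le
  have hw2 : (Fintype.card ι : ℝ) * volume.real D * w ^ 2 ≤ 1 / 4 := wgfin_alg hnV hwd.le hw.le
  obtain ⟨C, hC, hmain⟩ := interior_rough hD hDo hDb hDc ht0 hI hr0 hZ hc hw
  refine ⟨2 * C, by positivity, ?_⟩
  intro lam hlam f hmem hl2 heqn hsupp hbd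
  obtain ⟨S, hS⟩ : ∃ S : ℝ, S = ∑ i, ∫ x, f i 0 x ^ 2 := ⟨_, rfl⟩
  obtain ⟨T, hT⟩ : ∃ T : ℝ, T = ∑ i, ∫ x in ball z0 r0, f i 0 x ^ 2 := ⟨_, rfl⟩
  rw [← hS, ← hT]
  simp only [← hS] at hl2 hbd
  have hT0 : 0 ≤ T := by
    rw [hT]
    exact Finset.sum_nonneg fun i _ => integral_nonneg fun x => sq_nonneg _
  by_contra hcon
  rw [not_le] at hcon
  have hSpos : 0 < S := lt_of_le_of_lt (mul_nonneg (Real.exp_pos _).le hT0) hcon
  have hM : 0 < √S := Real.sqrt_pos.2 hSpos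
  have hM2 : √S ^ 2 = S := Real.sq_sqrt hSpos.le
  have hlam0 : 0 < √lam := Real.sqrt_pos.2 (by linarith)
  have hlam1 : 1 ≤ √lam := Real.one_le_sqrt.2 hlam
  have hexp : (Real.exp (-(C * lam ^ ((2 : ℝ) / 3)))) ^ 2 =
      (Real.exp (2 * C * lam ^ ((2 : ℝ) / 3)))⁻¹ := by
    rw [← Real.exp_nat_mul, ← Real.exp_neg]
    congr 1
    push_cast
    ring
  have hTS : S⁻¹ * T ≤ (Real.exp (-(C * lam ^ ((2 : ℝ) / 3)))) ^ 2 := by
    rw [hexp, inv_mul_le_iff₀ hSpos, ← div_eq_mul_inv, le_div_iff₀ (Real.exp_pos _), mul_comm]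
    exact hcon.le
  have hrfs : ∀ i, RFS D lam (fun k x => (√S)⁻¹ * f i k x) := fun i => by
    refine wgfin_rfs hM (hmem i) (fun k => ?_) (heqn i)
    rw [hM2]
    refine le_trans ?_ (hl2 k)
    exact Finset.single_le_sum (f := fun i => ∫ x, f i k x ^ 2)
      (fun i _ => integral_nonneg fun x => sq_nonneg _) (Finset.mem_univ i)
  have hball : ∀ i, ∫ x in ball z0 r0, ((√S)⁻¹ * f i 0 x) ^ 2 ≤
      (Real.exp (-(C * lam ^ ((2 : ℝ) / 3)))) ^ 2 := fun i => by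
    have e : ∀ x, ((√S)⁻¹ * f i 0 x) ^ 2 = S⁻¹ * f i 0 x ^ 2 := fun x => by
      rw [mul_pow, inv_pow, hM2]
    simp only [e]
    rw [integral_const_mul]
    refine le_trans (mul_le_mul_of_nonneg_left ?_ (inv_pos.2 hSpos).le) hTS
    rw [hT]
    exact Finset.single_le_sum (f := fun i => ∫ x in ball z0 r0, f i 0 x ^ 2)
      (fun i _ => integral_nonneg fun x => sq_nonneg _) (Finset.mem_univ i)
  have hin : ∀ i, ∫ x in {x | x ∈ D ∧ c / √lam ≤ infDist x Dᶜ}, f i 0 x ^ 2 ≤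
      w ^ 2 * volume.real D * S := fun i => by
    have h1 := hmain lam hlam _ (hrfs i) (hball i)
    rw [← hM2]
    refine wgfin_in hM hw.le (hmem i 0) ?_ (fun x hx => hx.1) hV ?_
    · exact hDo.measurableSet.inter
        (isClosed_le continuous_const (continuous_infDist_pt _)).measurableSet
    · filter_upwards [h1] with x hx hxB
      exact hx hxB.1 hxB.2
  have hρ1 : c / √lam ≤ ρ0 := (div_le_self hc.le hlam1).trans hcρ
  have hout := hbd (c / √lam) (div_nonneg hc.le hlam0.le) hρ1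
  have hρ2 : CP * (c / √lam) ^ 2 * lam * S = CP * c ^ 2 * S := by
    rw [div_pow, Real.sq_sqrt (by linarith : (0:ℝ) ≤ lam)]
    field_simp
  rw [hρ2] at hout
  have hsum : S ≤ CP * c ^ 2 * S + (Fintype.card ι : ℝ) * volume.real D * w ^ 2 * S := by
    calc S = ∑ i, ((∫ x in {x | x ∈ D ∧ infDist x Dᶜ < c / √lam}, f i 0 x ^ 2) +
          ∫ x in {x | x ∈ D ∧ c / √lam ≤ infDist x Dᶜ}, f i 0 x ^ 2) := by
          rw [hS]
          exact Finset.sum_congr rfl fun i _ => wgfin_split hDo (hmem i 0) (hsupp i) _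
      _ ≤ CP * c ^ 2 * S + ∑ _i : ι, w ^ 2 * volume.real D * S := by
          rw [Finset.sum_add_distrib]
          exact add_le_add hout (Finset.sum_le_sum fun i _ => hin i)
      _ = _ := by
          rw [Finset.sum_const, Finset.card_univ, nsmul_eq_mul]
          ring
  have h1 := mul_le_mul_of_nonneg_right hc2 hSpos.le
  have h2 := mul_le_mul_of_nonneg_right hw2 hSpos.le
  linarith

end

end Pool.Agent.Lib.MP_79abb3_an.WG
end

section

/-!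
Theorem W (MP_79abb3_an), block A4: the abstract null theorem in the real triple.
-/

set_option autoImplicit false
set_option linter.unusedSectionVars false
set_option maxSynthPendingDepth 3

open MeasureTheory Set Filter Topology Function
open scoped InnerProductSpace ComplexConjugate

namespace Pool.Agent.Lib.MP_79abb3_an.W

open Pool.Agent.Lib.MP_79abb3_an.SC Pool.Agent.Lib.MP_79abb3_an.PD

section
variable {X V Z : Type} [NormedAddCommGroup X] [InnerProductSpace ℝ X] [CompleteSpace X]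
  [NormedAddCommGroup V] [InnerProductSpace ℝ V] [CompleteSpace V] [NormedAddCommGroup Z] [NormedSpace ℝ Z]
  {ι : V →L[ℝ] X} {j : V →L[ℝ] Z} {C : ℝ}

/-- The right side tested with `w`: `⟪w, Q (J3c y + Kh f - x)⟫ = -⟪w, Q x⟫ + pry j y w + ⟪ι w, f⟫`. -/
theorem RNS.inner_rhs (h : RNS ι j C) (w : Cx V) (y : Yc Z) (f x : Cx X) :
    ⟪w, Qv (Cx.map ι) (J3c ι j y + Kh (KF (Cx.map ι)) f - x)⟫_ℂ =
      -⟪w, Qv (Cx.map ι) x⟫_ℂ + pry j y w + ⟪Cx.map ι w, f⟫_ℂ := by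
  obtain ⟨q, rfl⟩ := h.fdom.Qv_surj w
  rw [h.fdom.inner_Qv, inner_sub_right, inner_add_right, inner_J3c, h.fdom.inner_Qv, ← Kh_inner, h.fdom.ι_Qv]
  ring

/-- The tested identity of a controlled solution. Proof: `mild_Tst` with `J = J3c.coprod Kh`. -/
theorem RNS.tst (h : RNS ι j C) (B : V →L[ℝ] V →L[ℝ] Z →L[ℝ] ℝ) {f : ℝ → Cx X} (hf : Continuous f) {T : ℝ}
    {x₀ : Cx X} {x : ℝ → Cx X}
    (hx : Mild (Sg (KF (Cx.map ι))) (Lc (KF (Cx.map ι)) (J3c ι j)) (Pc (Nc ι B) f) 0 T x₀ x) :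
    Tst (KF (Cx.map ι)) 0 T (fun t => Kh (KF (Cx.map ι)) (x t))
      (fun t => J3c ι j (Nc ι B (x t) (x t)) + Kh (KF (Cx.map ι)) (f t) - x t) := by
  have hg : ContinuousOn (fun t => Pc (Nc ι B) f t (x t)) (Icc 0 T) :=
    (((Nc ι B).continuous.comp_continuousOn hx.cont).clm_apply hx.cont).prodMk hf.continuousOn
  exact mild_Tst (J := (J3c ι j).coprod (Kh (KF (Cx.map ι)))) (KF_nonneg _) h.fdom.K_inj h.ker hg hx.cont hx.eq

/-- The weak form of a real controlled solution. Proof: `RNS.tst`, `FDom.tst_weak` with `of w`, real parts. -/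
theorem RNS.weak (h : RNS ι j C) (B : V →L[ℝ] V →L[ℝ] Z →L[ℝ] ℝ) {f : ℝ → Cx X} (hf : Continuous f) {T : ℝ}
    {x₀ : Cx X} {x : ℝ → Cx X}
    (hx : Mild (Sg (KF (Cx.map ι))) (Lc (KF (Cx.map ι)) (J3c ι j)) (Pc (Nc ι B) f) 0 T x₀ x)
    (hr : ∀ t ∈ Icc 0 T, Cx.cj X (x t) = x t) :
    NV ι j B (fun t => (f t).re) T (fun t => (Qv (Cx.map ι) (x t)).re) where
  cont := (Cx.reL V).continuous.comp_continuousOn ((Qv (Cx.map ι)).continuous.comp_continuousOn hx.cont)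
  weak w s t hs hst ht := by
    have hT := h.tst B hf hx
    have h1 := h.fdom.tst_weak hT (Cx.of w) hs hst ht
    have h2 := congrArg Complex.re h1
    have hsub : uIcc s t ⊆ Icc 0 T := by rw [uIcc_of_le hst]; exact Icc_subset_Icc hs ht
    have hci : ContinuousOn (fun r => ⟪Cx.of w, Qv (Cx.map ι) (J3c ι j (Nc ι B (x r) (x r)) +
        Kh (KF (Cx.map ι)) (f r) - x r)⟫_ℂ) (Icc 0 T) :=
      continuousOn_const.inner ((Qv (Cx.map ι)).continuous.comp_continuousOn hT.cl)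
    have e1 : (∫ r in s..t, ⟪Cx.of w, Qv (Cx.map ι) (J3c ι j (Nc ι B (x r) (x r)) +
        Kh (KF (Cx.map ι)) (f r) - x r)⟫_ℂ).re = ∫ r in s..t, (⟪Cx.of w, Qv (Cx.map ι) (J3c ι j (Nc ι B (x r) (x r)) +
        Kh (KF (Cx.map ι)) (f r) - x r)⟫_ℂ).re :=
      (Complex.reCLM.intervalIntegral_comp_comm (hci.mono hsub).intervalIntegrable).symm
    rw [e1, Cx.map_of, Complex.sub_re, Cx.inner_re, Cx.inner_re, Cx.re_of, Cx.im_of, inner_zero_left,
      inner_zero_left, add_zero, add_zero, Cx.re_map, Cx.re_map] at h2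
    rw [h2]
    refine intervalIntegral.integral_congr fun r hr' => ?_
    have hrr := hr r (hsub hr')
    have hQ : Qv (Cx.map ι) (x r) = Cx.of (Qv (Cx.map ι) (x r)).re := by
      rw [← Cx.cj_eq_iff, h.cj_Qv, hrr]
    show (⟪Cx.of w, Qv (Cx.map ι) (J3c ι j (Nc ι B (x r) (x r)) +
        Kh (KF (Cx.map ι)) (f r) - x r)⟫_ℂ).re = -⟪w, (Qv (Cx.map ι) (x r)).re⟫_ℝ -
        B (Qv (Cx.map ι) (x r)).re (Qv (Cx.map ι) (x r)).re (j w) + ⟪ι w, (f r).re⟫_ℝ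
    rw [h.inner_rhs, Nc_apply, Cx.map_of]
    rw [hQ]
    set v := (Qv (Cx.map ι) (x r)).re
    rw [Complex.add_re, Complex.add_re, Complex.neg_re, Cx.inner_re, Cx.inner_re, pry, NBn_apply]
    simp only [Cx.re_of, Cx.im_of, map_zero, mul_zero, _root_.zero_apply, inner_zero_left, add_zero, sub_zero,
      Complex.ofReal_zero, Complex.neg_re, Complex.ofReal_re]
    ring

/-- **The abstract null theorem.** For all `T ≤ 1` there is `ε > 0`: every `v₀ ∈ V` with `‖v₀‖ ≤ ε` is led to `0` in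
time `T` by a force `χ (g t)`. -/
theorem RNS.null (h : RNS ι j C) (B : V →L[ℝ] V →L[ℝ] Z →L[ℝ] ℝ) {χ : X →L[ℝ] X} {Cs : ℝ}
    (hs : StatR ι χ Cs) {T : ℝ} (hT : 0 < T) (hT1 : T ≤ 1) : ∃ ε, 0 < ε ∧ ∀ v₀ : V, ‖v₀‖ ≤ ε →
      ∃ (g : ℝ → X) (v : ℝ → V), Continuous (fun t => χ (g t)) ∧ (∀ t, t ≤ 0 ∨ T ≤ t → χ (g t) = 0) ∧
        NV ι j B (fun t => χ (g t)) T v ∧ v 0 = v₀ ∧ v T = 0 := by
  obtain ⟨C0, hN⟩ := h.ncSys hs
  have hK := KF_nonneg (Cx.map ι)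
  have hcj := cnj_cj X
  have hJS : ∀ t x, Cx.cj X (Sg (KF (Cx.map ι)) t x) = Sg (KF (Cx.map ι)) t (Cx.cj X x) := by
    intro t x
    rcases le_or_gt 0 t with ht | ht
    · exact hcj.Sg hK (cj_K ι) ht x
    · rw [Sg_nonpos ht.le]; rfl
  have hJχ : ∀ x, Cx.cj X (Cx.map χ x) = Cx.map χ (Cx.cj X x) := fun x => (Cx.map_cj χ x).symm
  have hJK : ∀ x, Cx.cj X (Kh (KF (Cx.map ι)) x) = Kh (KF (Cx.map ι)) (Cx.cj X x) := fun x =>
    hcj.Kh hK (cj_K ι) x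
  obtain ⟨ε, hε, hnull⟩ := hN.null (Nc ι B) (Cx.cj X) (cjY Z) hJS hJχ hJK (fun t ht y u => by
      show Cx.cj X (AS (KF (Cx.map ι)) t (J3c ι j y + Kh (KF (Cx.map ι)) u)) =
        AS (KF (Cx.map ι)) t (J3c ι j (cjY Z y) + Kh (KF (Cx.map ι)) (Cx.cj X u))
      rw [hcj.AS hK (cj_K ι) ht, map_add, h.cj_J3c, hJK]) (fun x => h.cj_Nc B x x) hT hT1
  refine ⟨ε, hε, fun v₀ hv₀ => ?_⟩
  obtain ⟨x₀, hx₀⟩ := h.fdom.Qv_surj (Cx.of v₀)
  have hx₀n : ‖x₀‖ ≤ ε := by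
    rw [← h.fdom.norm_Qv, hx₀, Cx.norm_of]
    exact hv₀
  have hx₀r : Cx.cj X x₀ = x₀ := by
    have h1 : Qv (Cx.map ι) (Cx.cj X x₀ - x₀) = 0 := by
      rw [map_sub, ← h.cj_Qv, hx₀, Cx.cj_of, sub_self]
    have h2 := h.fdom.norm_Qv (Cx.cj X x₀ - x₀)
    rw [h1, norm_zero] at h2
    exact sub_eq_zero.1 (norm_eq_zero.1 h2.symm)
  obtain ⟨f, hfc, hfχ, hf0, hfr, x, hx, hxT, hxr⟩ := hnull x₀ hx₀n
  choose G hG using hfχ
  have hre : ∀ t, (f t).re = χ (G t).re := fun t => by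
    rw [hG t, Cx.re_map]
  refine ⟨fun t => (G t).re, fun t => (Qv (Cx.map ι) (x t)).re, ?_, fun t ht => ?_, ?_, ?_, ?_⟩
  · have h1 : (fun t => χ (G t).re) = fun t => (f t).re := funext fun t => (hre t).symm
    rw [h1]
    exact (Cx.reL X).continuous.comp hfc
  · show χ (G t).re = 0
    rw [← hre, hf0 t ht, Cx.re_zero]
  · have h1 := h.weak B hfc hx (hxr hx₀r)
    have h2 : (fun t => (f t).re) = fun t => χ (G t).re := funext hre
    rw [h2] at h1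
    exact h1
  · show (Qv (Cx.map ι) (x 0)).re = v₀
    rw [hx.init hN.hk hT.le, hx₀, Cx.re_of]
  · show (Qv (Cx.map ι) (x T)).re = 0
    rw [hxT, map_zero, Cx.re_zero]

end

end Pool.Agent.Lib.MP_79abb3_an.W
end

section

/-!
Theorem W (MP_79abb3_an), assembly: small states in `L²` move, without force, to small states in `V(D)` (a good time of the
Leray solution).
-/

set_option autoImplicit false
set_option linter.unusedSectionVars false

open MeasureTheory Set Filter Topology Function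
open scoped ENNReal RealInnerProductSpace

namespace Pool.Agent.Lib.MP_79abb3_an.W

section
variable {H V : Type} [NormedAddCommGroup H] [InnerProductSpace ℝ H] [CompleteSpace H]
  [NormedAddCommGroup V] [InnerProductSpace ℝ V] [CompleteSpace V] {ι : V →L[ℝ] H} {ν a b : ℝ}

/-- Leray solutions with small initial data have a small energy. -/
theorem leray_small (h : IsTri ι) {q : V → ℝ} (hq : IsQ ι q) (hν : 0 < ν) (hab : a ≤ b)
    {N : ℕ → H →L[ℝ] V →L[ℝ] H} (hN : ∀ j, NB ι q (N j)) {c : V → V → V → ℝ}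
    (hc : ∀ u v p, Tendsto (fun j => ⟪N j (ι u) v, ι p⟫) atTop (𝓝 (c u v p))) {μ : ℝ} (hμ : 0 < μ) :
    ∃ ε : ℝ, 0 < ε ∧ ∀ x₀ : H, ‖x₀‖ ≤ ε → ∃ (x : ℝ → H) (v : ℝ → V),
      LSol ι ν (fun _ => 0) (fun _ => 0) c a b x₀ x v ∧ ∫ t in a..b, ‖v t‖ ^ 2 ≤ μ := by
  set E : ℝ := Real.exp (b - a) with hE
  have hE0 : 0 < E := Real.exp_pos _
  set m : ℝ := min (μ ^ 2) (ν * μ) with hm
  have hm0 : 0 < m := lt_min (by positivity) (by positivity)
  set ε : ℝ := √(m / (4 * E)) with hε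
  have hε0 : 0 < ε := Real.sqrt_pos.2 (by positivity)
  have hε2 : ε ^ 2 = m / (4 * E) := Real.sq_sqrt (by positivity)
  have hkey : (2 * ε) ^ 2 * E = m := by
    rw [mul_pow, hε2]
    field_simp
    norm_num
  refine ⟨ε, hε0, fun x₀ hx₀ => ?_⟩
  have hcl : x₀ ∈ closure (range ι) := h.dense x₀
  have hw : ∀ j : ℕ, ∃ w : V, ‖ι w - x₀‖ < ε / (j + 1) := by
    intro j
    obtain ⟨y, ⟨w, rfl⟩, hy⟩ := Metric.mem_closure_iff.1 hcl (ε / (j + 1)) (by positivity)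
    refine ⟨w, ?_⟩
    rwa [dist_comm, dist_eq_norm] at hy
  choose w hw using hw
  have hwx : Tendsto (fun j => ι (w j)) atTop (𝓝 x₀) := by
    rw [tendsto_iff_norm_sub_tendsto_zero]
    refine squeeze_zero (fun _ => norm_nonneg _) (fun j => (hw j).le) ?_
    have h1 : Tendsto (fun j : ℕ => ε * (1 / ((j : ℝ) + 1))) atTop (𝓝 (ε * 0)) :=
      tendsto_one_div_add_atTop_nhds_zero_nat.const_mul ε
    rw [mul_zero] at h1
    refine h1.congr fun j => ?_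
    ring
  have hB : ∀ j, ‖ι (w j)‖ ≤ 2 * ε := by
    intro j
    have h1 : ‖ι (w j)‖ ≤ ‖ι (w j) - x₀‖ + ‖x₀‖ := by
      have := norm_add_le (ι (w j) - x₀) x₀
      rwa [sub_add_cancel] at this
    have h2 : ε / ((j : ℝ) + 1) ≤ ε := div_le_self hε0.le (by
      have : (0 : ℝ) ≤ j := Nat.cast_nonneg j
      linarith)
    linarith [(hw j).le]
  have hF : ContinuousOn (fun _ : ℝ => (0 : V →L[ℝ] H)) (Icc a b) := continuousOn_const
  have hg : ContinuousOn (fun _ : ℝ => (0 : H)) (Icc a b) := continuousOn_const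
  choose e he hea using fun j => reg_exists h hν hab hF hg (hN j).skew (w j)
  have hbd : ∀ j, ∀ t ∈ Icc a b, ‖ι (e j t)‖ ^ 2 + ν * ∫ r in a..t, ‖e j r‖ ^ 2 ≤ m := by
    intro j t ht
    have h1 := RSol.bound hν (hN j).skew (he j) (f := 0) (γ := 0) (fun r _ => by simp)
      (fun r _ => by simp) ht
    refine h1.trans ?_
    rw [hea]
    have h2 : Real.exp ((1 + (0 : ℝ) ^ 2 / ν) * (t - a)) ≤ E := by
      rw [hE]
      refine Real.exp_le_exp.2 ?_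
      have : (1 + (0 : ℝ) ^ 2 / ν) * (t - a) = t - a := by
        rw [zero_pow two_ne_zero, zero_div, add_zero, one_mul]
      rw [this]
      linarith [ht.2]
    have h3 : ‖ι (w j)‖ ^ 2 + (t - a) * (0 : ℝ) ^ 2 ≤ (2 * ε) ^ 2 := by
      rw [zero_pow two_ne_zero, mul_zero, add_zero]
      exact pow_le_pow_left₀ (norm_nonneg _) (hB j) 2
    rw [← hkey]
    exact mul_le_mul h3 h2 (Real.exp_pos _).le (by positivity)
  have hM : ∀ j, ∀ t ∈ Icc a b, ‖ι (e j t)‖ ≤ μ := by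
    intro j t ht
    have h1 := hbd j t ht
    have h2 : 0 ≤ ν * ∫ r in a..t, ‖e j r‖ ^ 2 :=
      mul_nonneg hν.le (intervalIntegral.integral_nonneg ht.1 fun _ _ => by positivity)
    have h3 : m ≤ μ ^ 2 := min_le_left _ _
    exact le_of_sq_le_sq (by linarith) hμ.le
  have hM' : ∀ j, ∫ t in a..b, ‖e j t‖ ^ 2 ≤ μ := by
    intro j
    have h1 := hbd j b ⟨hab, le_rfl⟩
    have h2 : 0 ≤ ‖ι (e j b)‖ ^ 2 := by positivity
    have h3 : m ≤ ν * μ := min_le_right _ _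
    have h4 : ν * ∫ t in a..b, ‖e j t‖ ^ 2 ≤ ν * μ := by linarith
    exact le_of_mul_le_mul_left h4 hν
  obtain ⟨-, x, v, -, hL, -, hv, -⟩ := reg_limit h hq hν hab hF hg hN hc he hM hM' (x₀ := x₀) fun k => by
    have h1 : Tendsto (fun j => ⟪ι (w j), k⟫) atTop (𝓝 ⟪x₀, k⟫) :=
      hwx.inner tendsto_const_nhds
    exact h1.congr fun j => by rw [hea]
  exact ⟨x, v, hL, hv⟩

end

section
variable {d : ℕ} {D : Set (En d)}

/-- A Leray solution in `D` without force is a trajectory in `D`. -/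
theorem Mv.of_leray (hd : d = 2 ∨ d = 3) (hO : IsOpen D) (hD : Bornology.IsBounded D) {b s : ℝ}
    (hsb : s ≤ b) {x₀ : HD D} {x : ℝ → HD D} {v : ℝ → VD D} (v₀ : VD D)
    (hL : LSol (io D) 1 (fun _ => 0) (fun _ => 0) (fun u v w => bV D u v w) 0 b x₀ x v)
    (hv : x s = io D v₀) :
    Mv D (frontier D) s (x₀ : L2E d) ((io D v₀ : HD D) : L2E d) := by
  refine ⟨fun t => (x t : L2E d), fun t => (v t : G2E d), ?_, ?_, ?_⟩
  · refine WTr.of_triple hd hO hD subset_rfl x v (fun w => (hL.weak w).mono (Icc_subset_Icc le_rfl hsb))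
      ?_ ?_ ?_
    · exact hL.mem.mono_measure (Measure.restrict_mono
        (Ioc_subset_Icc_self.trans (Icc_subset_Icc le_rfl hsb)) le_rfl)
    · have h1 := ae_restrict_of_ae_restrict_of_subset
        (Ioc_subset_Icc_self.trans (Icc_subset_Icc (le_refl (0 : ℝ)) hsb)) hL.ae
      filter_upwards [h1] with t ht
      exact ht.symm
    · intro φ _ s' t hs hst ht
      have h1 := hL.eq (vT D φ) s' t hs hst (ht.trans hsb)
      rw [io_vT hD φ] at h1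
      rw [h1, ← intervalIntegral.integral_neg]
      apply intervalIntegral.integral_congr
      intro r _
      show -(1 * ⟪v r, vT D φ⟫) + ⟪(0 : HD D) - (0 : VD D →L[ℝ] HD D) (v r), hT D φ⟫ -
        bV D (v r) (v r) (vT D φ) = -(⟪v r, vT D φ⟫ + bV D (v r) (v r) (vT D φ))
      rw [zero_apply, sub_zero, inner_zero_left]
      ring
  · show (x 0 : L2E d) = x₀
    rw [hL.init]
  · show (x s : L2E d) = (io D v₀ : HD D)
    rw [hv]

/-- **Small in `L²` moves to small in `V`.** -/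
theorem small_good (hd : d = 2 ∨ d = 3) (hO : IsOpen D) (hD : Bornology.IsBounded D) {T μ : ℝ} (hT : 0 < T)
    (hμ : 0 < μ) : ∃ ε : ℝ, 0 < ε ∧ ∀ y : HD D, ‖y‖ ≤ ε → ∃ (s : ℝ) (v₀ : VD D), 0 < s ∧ s ≤ T ∧ ‖v₀‖ ≤ μ ∧
      Mv D (frontier D) s (y : L2E d) ((io D v₀ : HD D) : L2E d) := by
  obtain ⟨ε, hε, h⟩ := leray_small (io_tri hD) (j4_isQ hd hD) one_pos hT.le (Nm_NB hd hD)
    (c := fun u v w => bV D u v w) (fun u v p => Nm_tendsto hd hD u v p)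
    (μ := T * μ ^ 2) (by positivity)
  refine ⟨ε, hε, fun y hy => ?_⟩
  obtain ⟨x, v, hL, hv⟩ := h y hy
  have hint : Integrable (fun t => ‖v t‖ ^ 2) (volume.restrict (Ioc 0 T)) := by
    have h1 : MemLp v 2 (volume.restrict (Ioc 0 T)) :=
      hL.mem.mono_measure (Measure.restrict_mono Ioc_subset_Icc_self le_rfl)
    exact h1.integrable_norm_pow (by norm_num)
  have hne : volume.restrict (Ioc (0 : ℝ) T) ≠ 0 := by
    rw [Ne, Measure.restrict_eq_zero, Real.volume_Ioc, sub_zero, ENNReal.ofReal_eq_zero, not_le]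
    exact hT
  have hae : ∀ᵐ t ∂(volume.restrict (Ioc 0 T)), io D (v t) = x t ∧ t ∈ Ioc 0 T := by
    have h1 := ae_restrict_of_ae_restrict_of_subset (Ioc_subset_Icc_self (a := (0 : ℝ)) (b := T)) hL.ae
    filter_upwards [h1, ae_restrict_mem measurableSet_Ioc] with t h2 h3
    exact ⟨h2, h3⟩
  obtain ⟨s, hs, hsle⟩ := exists_notMem_null_le_average hne hint (ae_iff.1 hae)
  rw [Set.mem_ofPred_eq, not_not] at hs
  refine ⟨s, v s, hs.2.1, hs.2.2, ?_, Mv.of_leray hd hO hD hs.2.2 (v s) hL hs.1.symm⟩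
  rw [setAverage_eq, smul_eq_mul, Real.volume_real_Ioc_of_le hT.le, sub_zero] at hsle
  rw [intervalIntegral.integral_of_le hT.le] at hv
  have h3 : ‖v s‖ ^ 2 ≤ μ ^ 2 := by
    refine hsle.trans ?_
    rw [inv_mul_le_iff₀ hT]
    exact hv
  exact le_of_sq_le_sq h3 hμ.le

end

end Pool.Agent.Lib.MP_79abb3_an.W
end

section

/-!
Theorem W, block G: EXPORT. The static spectral inequality for the Stokes operator of `D`.
-/

set_option autoImplicit false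
set_option linter.unusedSectionVars false

open MeasureTheory Set Filter Topology Metric
open scoped ContDiff InnerProductSpace

namespace Pool.Agent.Lib.MP_79abb3_an.WG

section
variable {d : ℕ} {D : Set (W.En d)}

private theorem spec_comp_mem (u : W.L2E d) (i : Fin d) :
    MemLp (fun x => (u : W.En d → W.En d) x i) 2 (volume : Measure (W.En d)) :=
  (EuclideanSpace.proj (𝕜 := ℝ) i : W.En d →L[ℝ] ℝ).comp_memLp' (Lp.memLp u)

private theorem spec_sum (u : W.L2E d) (A : Set (W.En d)) :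
    ∑ i, ∫ x in A, ((u : W.En d → W.En d) x i) ^ 2 = ∫ x in A, ‖(u : W.En d → W.En d) x‖ ^ 2 := by
  rw [← integral_finsetSum]
  · refine integral_congr_ae (Eventually.of_forall fun x => ?_)
    exact (EuclideanSpace.real_norm_sq_eq _).symm
  · intro i _
    exact (spec_comp_mem u i).integrable_sq.integrableOn

private theorem spec_sum' (u : W.L2E d) :
    ∑ i, ∫ x, ((u : W.En d → W.En d) x i) ^ 2 = ‖u‖ ^ 2 := by
  have h := spec_sum u univ
  simp only [Measure.restrict_univ] at h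
  rw [h, W.norm_sq_L2]

/-- THE STATIC SPECTRAL INEQUALITY. `K = (io D)(io D)†`. PROOF. `spectral_abs` with `ι = Fin d`,
`f i k x = (g k x) i`: `∑ i ∫ (f i k)² = ‖g k‖²` (`W.norm_sq_L2`, `EuclideanSpace.norm_eq`), equation `comp_eq` (with
`io (adj (g (k+1))) = g k`), support `W.HD_supp`, layer: `layer_K` for `g 1`, `‖g 1‖ ≤ lam ‖g 0‖`, `g 0 = K (g 1)`. -/
theorem spectral_stokes (hDo : IsOpen D) (hDb : Bornology.IsBounded D) (hDc : IsConnected D)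
    (hd : 0 < d)
    {t0 : ℝ} (ht0 : 0 < t0) (hI : IntBall D t0) {CP ρ0 : ℝ} (hCP : 0 ≤ CP) (hρ0 : 0 < ρ0)
    (hL : LayerP D CP ρ0) {z0 : W.En d} {r0 : ℝ} (hr0 : 0 < r0) (hZ : ball z0 r0 ⊆ D) :
    ∃ C : ℝ, 0 ≤ C ∧ ∀ lam : ℝ, 1 ≤ lam → ∀ g : ℕ → W.HD D,
      (∀ k, W.io D (ContinuousLinearMap.adjoint (W.io D) (g (k + 1))) = g k) →
      (∀ k, ‖g k‖ ≤ lam ^ k * ‖g 0‖) →
      ‖g 0‖ ^ 2 ≤ Real.exp (C * lam ^ ((2 : ℝ) / 3)) *
        ∫ x in ball z0 r0, ‖((g 0 : W.L2E d) : W.En d → W.En d) x‖ ^ 2 := by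
  have hne : (Dᶜ).Nonempty := by
    have : Nonempty (Fin d) := ⟨⟨0, hd⟩⟩
    rw [nonempty_compl]
    intro h
    rw [h] at hDb
    exact NormedSpace.unbounded_univ ℝ (W.En d) hDb
  obtain ⟨C, hC, hmain⟩ := spectral_abs (ι := Fin d) hne hDo hDb hDc.isPreconnected ht0 hI hr0 hZ
    hCP hρ0
  refine ⟨C, hC, fun lam hlam g hg hgn => ?_⟩
  have hlam0 : 0 ≤ lam := by linarith
  have hn : ∀ k, ‖((g k : W.HD D) : W.L2E d)‖ = ‖g k‖ := fun k => rfl
  have h := hmain lam hlam (fun i k x => ((g k : W.L2E d) : W.En d → W.En d) x i)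
    (fun i k => spec_comp_mem _ i) ?_ ?_ ?_ ?_
  · rw [spec_sum', spec_sum, hn] at h
    exact h
  · intro k
    rw [spec_sum', spec_sum', hn, hn]
    calc ‖g k‖ ^ 2 ≤ (lam ^ k * ‖g 0‖) ^ 2 := pow_le_pow_left₀ (norm_nonneg _) (hgn k) 2
      _ = lam ^ (2 * k) * ‖g 0‖ ^ 2 := by ring
  · intro i k φ hφ
    have h1 := comp_eq hDb (g (k + 1)) i hφ
    rw [hg k] at h1
    exact h1
  · intro i
    filter_upwards [W.HD_supp (g 0)] with x hx hxD
    rw [hx hxD]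
    rfl
  · intro ρ hρ hρ1
    rw [spec_sum, spec_sum', hn]
    have h1 := layer_K hDb hCP hL (g 1) hρ hρ1
    have h2 := hg 0
    rw [zero_add] at h2
    rw [h2] at h1
    refine h1.trans ?_
    have h3 := hgn 1
    rw [pow_one] at h3
    have h4 : ‖g 1‖ * ‖g 0‖ ≤ lam * ‖g 0‖ ^ 2 := by
      nlinarith [mul_le_mul_of_nonneg_right h3 (norm_nonneg (g 0))]
    calc CP * ρ ^ 2 * (‖g 1‖ * ‖g 0‖) ≤ CP * ρ ^ 2 * (lam * ‖g 0‖ ^ 2) :=
          mul_le_mul_of_nonneg_left h4 (by positivity)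
      _ = CP * ρ ^ 2 * lam * ‖g 0‖ ^ 2 := by ring

end

end Pool.Agent.Lib.MP_79abb3_an.WG
end

section

/-!
Theorem W (MP_79abb3_an), block A4: the concrete null theorem in `VD D`, from the static spectral inequality.
-/

set_option autoImplicit false
set_option linter.unusedSectionVars false
set_option maxSynthPendingDepth 3

open MeasureTheory Set Filter Topology Function
open scoped ENNReal RealInnerProductSpace

namespace Pool.Agent.Lib.MP_79abb3_an.W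

section
variable {d : ℕ} {D : Set (En d)}

/-- The static spectral inequality (block G). -/
def SpecG (D S : Set (En d)) : Prop :=
  ∃ C : ℝ, 0 ≤ C ∧ ∀ lam : ℝ, 1 ≤ lam → ∀ g : ℕ → HD D,
    (∀ k, io D (ContinuousLinearMap.adjoint (io D) (g (k + 1))) = g k) → (∀ k, ‖g k‖ ≤ lam ^ k * ‖g 0‖) →
    ‖g 0‖ ^ 2 ≤ Real.exp (C * lam ^ ((2 : ℝ) / 3)) * ∫ x in S, ‖((g 0 : L2E d) : En d → En d) x‖ ^ 2

theorem exists_ind (S : Set (En d)) (hS : MeasurableSet S) : ∃ T : L2E d →L[ℝ] L2E d,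
    ∀ u : L2E d, (T u : En d → En d) =ᵐ[volume] S.indicator (u : En d → En d) := by
  have hm : ∀ u : L2E d, MemLp (S.indicator (u : En d → En d)) 2 (volume : Measure (En d)) := fun u =>
    (Lp.memLp u).indicator hS
  let L : L2E d →ₗ[ℝ] L2E d :=
    { toFun := fun u => (hm u).toLp _
      map_add' := by
        intro u v
        apply Lp.ext
        filter_upwards [(hm (u + v)).coeFn_toLp, (hm u).coeFn_toLp, (hm v).coeFn_toLp,
          Lp.coeFn_add ((hm u).toLp _) ((hm v).toLp _), Lp.coeFn_add u v] with x h1 h2 h3 h4 h5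
        rw [h1, h4, Pi.add_apply, h2, h3]
        by_cases hx : x ∈ S
        · rw [indicator_of_mem hx, indicator_of_mem hx, indicator_of_mem hx, h5, Pi.add_apply]
        · rw [indicator_of_notMem hx, indicator_of_notMem hx, indicator_of_notMem hx, add_zero]
      map_smul' := by
        intro r u
        apply Lp.ext
        filter_upwards [(hm (r • u)).coeFn_toLp, (hm u).coeFn_toLp,
          Lp.coeFn_smul r ((hm u).toLp _), Lp.coeFn_smul r u] with x h1 h2 h3 h4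
        rw [RingHom.id_apply, h1, h3, Pi.smul_apply, h2]
        by_cases hx : x ∈ S
        · rw [indicator_of_mem hx, indicator_of_mem hx, h4, Pi.smul_apply]
        · rw [indicator_of_notMem hx, indicator_of_notMem hx, smul_zero] }
  refine ⟨L.mkContinuous 1 fun u => ?_, fun u => (hm u).coeFn_toLp⟩
  refine Lp.norm_le_mul_norm_of_ae_le_mul ?_
  filter_upwards [(hm u).coeFn_toLp] with x hx
  show ‖((hm u).toLp _ : En d → En d) x‖ ≤ _
  rw [hx, one_mul]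
  exact norm_indicator_le_norm_self _ _

/-- multiplication by the indicator function of `S` (zero if `S` is not measurable) -/
noncomputable def ind (S : Set (En d)) : L2E d →L[ℝ] L2E d :=
  open scoped Classical in if h : MeasurableSet S then (exists_ind S h).choose else 0

theorem ind_ae {S : Set (En d)} (hS : MeasurableSet S) (u : L2E d) :
    (ind S u : En d → En d) =ᵐ[volume] S.indicator (u : En d → En d) := by
  unfold ind
  rw [dif_pos hS]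
  exact (exists_ind S hS).choose_spec u

theorem ind_le {S : Set (En d)} (hS : MeasurableSet S) (u : L2E d) : ‖ind S u‖ ≤ ‖u‖ := by
  refine Lp.norm_le_norm_of_ae_le ?_
  filter_upwards [ind_ae hS u] with x hx
  rw [hx]
  exact norm_indicator_le_norm_self _ _

theorem ind_inner {S : Set (En d)} (hS : MeasurableSet S) (u v : L2E d) :
    ⟪ind S u, v⟫ = ∫ x in S, ⟪(u : En d → En d) x, (v : En d → En d) x⟫ := by
  rw [L2.inner_def, ← integral_indicator hS]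
  refine integral_congr_ae ?_
  filter_upwards [ind_ae hS u] with x hx
  rw [hx]
  by_cases h : x ∈ S
  · rw [indicator_of_mem h, indicator_of_mem h]
  · rw [indicator_of_notMem h, indicator_of_notMem h, inner_zero_left]

/-- the localised force: `χ g = P (1_S g)` -/
noncomputable def chi (D S : Set (En d)) : HD D →L[ℝ] HD D := PD D ∘L (ind S ∘L (HD D).subtypeL)

theorem chi_apply (S : Set (En d)) (x : HD D) : chi D S x = PD D (ind S (x : L2E d)) := rfl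

theorem chi_inner {S : Set (En d)} (hS : MeasurableSet S) (x y : HD D) :
    ⟪chi D S x, y⟫ = ∫ z in S, ⟪((x : L2E d) : En d → En d) z, ((y : L2E d) : En d → En d) z⟫ := by
  rw [chi_apply, inner_PD, ind_inner hS]

theorem chi_adj {S : Set (En d)} (hS : MeasurableSet S) (x y : HD D) : ⟪chi D S x, y⟫ = ⟪x, chi D S y⟫ := by
  rw [real_inner_comm (chi D S y) x, chi_inner hS, chi_inner hS]
  refine integral_congr_ae (Eventually.of_forall fun z => ?_)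
  exact real_inner_comm _ _

theorem chi_le {S : Set (En d)} (hS : MeasurableSet S) (x : HD D) : ‖chi D S x‖ ≤ ‖x‖ :=
  (PD_le _).trans (ind_le hS _)

/-- the force does not act on the test fields which vanish on `S` -/
theorem chi_test {S : Set (En d)} (hS : MeasurableSet S) (x : HD D) (φ : TS D)
    (hφ : ∀ z ∈ S, (φ : En d → En d) z = 0) : ⟪hT D φ, chi D S x⟫ = 0 := by
  rw [real_inner_comm, chi_inner hS]
  refine integral_eq_zero_of_ae ?_
  have h1 := ae_restrict_of_ae (s := S) (cl_coe ((TS.ts φ).memLp 2))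
  filter_upwards [h1, ae_restrict_mem hS] with z h2 h3
  have h4 : (((hT D φ : HD D) : L2E d) : En d → En d) z = (φ : En d → En d) z := h2
  rw [h4, hφ z h3, inner_zero_right]
  rfl

theorem stat_chi {S : Set (En d)} (hS : MeasurableSet S) (h : SpecG D S) : ∃ C, StatR (io D) (chi D S) C := by
  obtain ⟨C, hC, h1⟩ := h
  refine ⟨C, hC, chi_adj hS, chi_le hS, fun lam hl g hg hn => ?_⟩
  have h2 := h1 lam hl g hg hn
  have h3 : ∫ x in S, ‖((g 0 : L2E d) : En d → En d) x‖ ^ 2 = ⟪chi D S (g 0), g 0⟫ := by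
    rw [chi_inner hS]
    refine integral_congr_ae (Eventually.of_forall fun z => ?_)
    exact (real_inner_self_eq_norm_sq _).symm
  rw [h3] at h2
  have h4 : ⟪chi D S (g 0), g 0⟫ ≤ ‖chi D S (g 0)‖ * ‖g 0‖ := real_inner_le_norm _ _
  rcases (norm_nonneg (g 0)).eq_or_lt with h5 | h5
  · rw [← h5]; positivity
  · have h6 : ‖g 0‖ * ‖g 0‖ ≤ (Real.exp (C * lam ^ ((2 : ℝ) / 3)) * ‖chi D S (g 0)‖) * ‖g 0‖ := by
      calc ‖g 0‖ * ‖g 0‖ = ‖g 0‖ ^ 2 := (sq _).symm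
        _ ≤ _ := h2
        _ ≤ Real.exp (C * lam ^ ((2 : ℝ) / 3)) * (‖chi D S (g 0)‖ * ‖g 0‖) :=
          mul_le_mul_of_nonneg_left h4 (Real.exp_nonneg _)
        _ = _ := by ring
    exact le_of_mul_le_mul_right h6 h5

theorem rns_D (hd : d = 2 ∨ d = 3) (hD : Bornology.IsBounded D) : ∃ C, RNS (io D) (j4 D) C := by
  obtain ⟨C, hC, h⟩ := j4_le hd hD
  refine ⟨max C 1, io_inj hD, io_dense hD, hC.trans (le_max_left _ _), fun v => (h v).trans ?_⟩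
  have h1 : C ≤ (max C 1) ^ 4 := by
    have h2 : (1 : ℝ) ≤ max C 1 := le_max_right _ _
    calc C ≤ max C 1 := le_max_left _ _
      _ = (max C 1) ^ 1 := (pow_one _).symm
      _ ≤ (max C 1) ^ 4 := pow_le_pow_right₀ h2 (by norm_num)
  rw [mul_assoc]
  exact mul_le_mul_of_nonneg_right h1 (by positivity)

/-- `B u v w = ∫ (u·∇)v·w`, `w ∈ L⁴` -/
theorem exists_BZ (D : Set (En d)) : ∃ B : VD D →L[ℝ] VD D →L[ℝ] Z4 d →L[ℝ] ℝ, ∀ (u v : VD D) (w : Z4 d),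
    B u v w = tri d (j4 D u) (v : G2E d) w := by
  let Q : (G2E d →L[ℝ] Z4 d →L[ℝ] ℝ) →L[ℝ] (VD D →L[ℝ] Z4 d →L[ℝ] ℝ) :=
    (VD D).subtypeL.precomp (Z4 d →L[ℝ] ℝ)
  exact ⟨Q.comp ((tri d).comp (j4 D)), fun u v w => rfl⟩

/-- a solution of class `C([0,T];V)` with a force supported in `S` is a trajectory in every `Ω ⊆ D` disjoint from `S` -/
theorem NV.wtr (hd : d = 2 ∨ d = 3) (hO : IsOpen D) (hD : Bornology.IsBounded D) {S : Set (En d)}
    (hS : MeasurableSet S) {Ω : Set (En d)} (hΩ : Ω ⊆ D) (hΩS : Disjoint Ω S)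
    {B : VD D →L[ℝ] VD D →L[ℝ] Z4 d →L[ℝ] ℝ} (hB : ∀ (u v : VD D) (w : Z4 d), B u v w = tri d (j4 D u) (v : G2E d) w)
    {g : ℝ → HD D} {T : ℝ} {v : ℝ → VD D} (h : NV (io D) (j4 D) B (fun t => chi D S (g t)) T v) :
    WTr Ω (frontier D) 0 T (fun t => ((io D (v t) : HD D) : L2E d)) (fun t => (v t : G2E d)) := by
  refine WTr.of_triple hd hO hD hΩ (fun t => io D (v t)) v (fun w => ?_) ?_ (Eventually.of_forall fun t => rfl)
    fun φ hφ s t hs hst ht => ?_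
  · exact ((io D).continuous.comp_continuousOn h.cont).inner continuousOn_const
  · obtain ⟨M, hM⟩ := isCompact_Icc.exists_bound_of_continuousOn h.cont
    refine MemLp.of_bound ((h.cont.mono Ioc_subset_Icc_self).aestronglyMeasurable measurableSet_Ioc) M ?_
    exact (ae_restrict_iff' measurableSet_Ioc).2 (Eventually.of_forall fun t ht => hM t (Ioc_subset_Icc_self ht))
  · have h1 := h.weak (vT D φ) s t hs hst ht
    rw [io_vT hD, real_inner_comm (io D (v t)), real_inner_comm (io D (v s))] at h1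
    rw [h1, ← intervalIntegral.integral_neg]
    refine intervalIntegral.integral_congr fun r _ => ?_
    have h2 : ⟪hT D φ, chi D S (g r)⟫ = 0 := chi_test hS _ φ fun z hz => by
      by_contra h3
      exact disjoint_left.1 hΩS (hφ.supp (subset_tsupport _ h3)) hz
    have h3 : B (v r) (v r) (j4 D (vT D φ)) = bV D (v r) (v r) (vT D φ) := by
      rw [hB, bV_apply]
    show -⟪vT D φ, v r⟫ - B (v r) (v r) (j4 D (vT D φ)) + ⟪hT D φ, chi D S (g r)⟫ =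
      -(⟪v r, vT D φ⟫ + bV D (v r) (v r) (vT D φ))
    rw [h2, h3, real_inner_comm (vT D φ) (v r)]
    ring

/-- **Null controllability in `V(D)` for small data**, from the static spectral inequality. -/
theorem null_S (hd : d = 2 ∨ d = 3) (hO : IsOpen D) (hD : Bornology.IsBounded D) {S : Set (En d)}
    (hS : MeasurableSet S) (h : SpecG D S) {Ω : Set (En d)} (hΩ : Ω ⊆ D) (hΩS : Disjoint Ω S) {T : ℝ} (hT : 0 < T) :
    ∃ ε : ℝ, 0 < ε ∧ ∀ v₀ : VD D, ‖v₀‖ ≤ ε → Mv Ω (frontier D) T ((io D v₀ : HD D) : L2E d) 0 := by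
  obtain ⟨C, hC⟩ := rns_D hd hD
  obtain ⟨Cs, hCs⟩ := stat_chi hS h
  obtain ⟨B, hB⟩ := exists_BZ D
  have hT1 : 0 < min T 1 := lt_min hT one_pos
  obtain ⟨ε, hε, h1⟩ := hC.null B hCs hT1 (min_le_right _ _)
  refine ⟨ε, hε, fun v₀ hv => ?_⟩
  obtain ⟨g, v, -, -, h4, h5, h6⟩ := h1 v₀ hv
  have h7 := h4.wtr hd hO hD hS hΩ hΩS hB
  have h8 : Mv Ω (frontier D) (min T 1) ((io D v₀ : HD D) : L2E d) 0 :=
    ⟨_, _, h7, by rw [h5], by rw [h6, map_zero]; rfl⟩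
  have h9 := h8.trans hT1.le (sub_nonneg.2 (min_le_left T 1)) (Mv.zero (T - min T 1))
  rwa [add_sub_cancel] at h9

end

end Pool.Agent.Lib.MP_79abb3_an.W
end

section

/-!
Theorem W (MP_79abb3_an), Phase 0: the Leray solution in the background of the lift.
-/

set_option autoImplicit false
set_option linter.unusedSectionVars false

open MeasureTheory Set Filter Topology Function
open scoped ENNReal RealInnerProductSpace

namespace Pool.Agent.Lib.MP_79abb3_an.W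

variable {d : ℕ} {Ω W : Set (En d)} {u₀ : En d → En d} {Y : ℕ → En d → En d} {ω τ : ℕ → ℝ}

private theorem p0f_int {s b : ℝ} (hs : -1 < s) (hb : 0 ≤ b) : IntegrableOn (fun r : ℝ => r ^ s) (Ioc 0 b) :=
  (intervalIntegrable_iff_integrableOn_Ioc_of_le hb).1 (intervalIntegral.intervalIntegrable_rpow' hs)

/-- `∫_0^b r^(-1/8) dr = (8/7) b^(7/8) ≤ 1/4` for `b ≤ 1/256` (`(1/256)^(7/8) = 2^(-7)`) -/
theorem p0_kappa {b : ℝ} (hb : 0 < b) (hb' : b ≤ 1 / 256) :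
    IntegrableOn (fun r : ℝ => r ^ (-(1 / 8 : ℝ))) (Ioc 0 b) ∧ ∫ r in (0 : ℝ)..b, r ^ (-(1 / 8 : ℝ)) ≤ 1 / 4 := by
  refine ⟨p0f_int (by norm_num) hb.le, ?_⟩
  rw [integral_rpow (Or.inl (by norm_num))]
  have h1 : (-(1 / 8 : ℝ)) + 1 = 7 / 8 := by norm_num
  rw [h1, Real.zero_rpow (by norm_num), sub_zero]
  have h2 : b ^ (7 / 8 : ℝ) ≤ 1 / 128 := by
    have h3 : b ^ (7 / 8 : ℝ) ≤ (1 / 256 : ℝ) ^ (7 / 8 : ℝ) := Real.rpow_le_rpow hb.le hb' (by norm_num)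
    refine h3.trans_eq ?_
    have h4 : (1 / 256 : ℝ) = (2 : ℝ) ^ (-(8 : ℝ)) := by
      rw [Real.rpow_neg (by norm_num)]
      norm_num
    have h5 : (1 / 128 : ℝ) = (2 : ℝ) ^ (-(7 : ℝ)) := by
      rw [Real.rpow_neg (by norm_num)]
      norm_num
    rw [h4, h5, ← Real.rpow_mul (by norm_num)]
    norm_num
  rw [div_le_iff₀ (by norm_num)]
  linarith

/-- `p0_leray` with `ι = io Ω`, `κ r = r^(-1/8)`, `γ r = r^(-1/8) (1 + ‖io Ω‖)`, `β r = lbd r + K r^(-1/4)` (`gl_le`), `q = ‖j4 ·‖`,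
`N j = Nm Ω j` (`Nm_NB`, `Nm_tendsto`). -/
theorem P0Seq.leray (hd : d = 2 ∨ d = 3) (hΩo : IsOpen Ω) (hΩ : Bornology.IsBounded Ω) (h : P0Seq Ω W u₀ Y ω τ)
    (h1 : τ 0 ≤ 1 / 256) : ∃ (x : ℝ → HD Ω) (v : ℝ → VD Ω),
      LSol (io Ω) 1 (Fl Ω Y τ) (gl Ω Y τ) (fun u v w => bV Ω u v w) 0 (τ 0) 0 x v := by
  have hb : 0 < τ 0 := h.τ0 0
  obtain ⟨K, hK, hg⟩ := h.gl_le hΩo hΩ (h1.trans (by norm_num))
  obtain ⟨hκ, hκ1⟩ := p0_kappa hb h1
  refine p0_leray (io_tri hΩ) (j4_isQ hd hΩ) hb (h.Fl_cont.mono fun t ht => ht.1)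
    ((h.gl_cont hΩo hΩ).mono fun t ht => ht.1) (γ := fun r => r ^ (-(1 / 8 : ℝ)) * (1 + ‖io Ω‖)) ?_
    (fun r hr => h.Fl_le hr.1 hr.2) (κ := fun r => r ^ (-(1 / 8 : ℝ))) (β := fun r => lbd ω τ r + K * r ^ (-(1 / 4 : ℝ)))
    hκ ?_ (fun r hr => Real.rpow_nonneg hr.1.le _)
    (fun r hr => add_nonneg (h.lbd_nonneg r) (mul_nonneg hK (Real.rpow_nonneg hr.1.le _))) hκ1
    (fun r hr v => h.Fl_low hΩ hr.1 hr.2 v) (fun r hr => hg r hr.1 hr.2) (fun j => Nm_NB hd hΩ j)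
    (fun u v p => Nm_tendsto hd hΩ u v p)
  · have h2 : IntegrableOn (fun r : ℝ => r ^ (-(1 / 4 : ℝ)) * (1 + ‖io Ω‖) ^ 2) (Ioc 0 (τ 0)) :=
      (p0f_int (by norm_num) hb.le).mul_const _
    refine h2.congr_fun (fun r hr => ?_) measurableSet_Ioc
    show r ^ (-(1 / 4 : ℝ)) * (1 + ‖io Ω‖) ^ 2 = (r ^ (-(1 / 8 : ℝ)) * (1 + ‖io Ω‖)) ^ 2
    rw [mul_pow, ← Real.rpow_natCast (r ^ (-(1 / 8 : ℝ))) 2, ← Real.rpow_mul hr.1.le]
    norm_num
  · exact h.lbd_integrable.integrableOn.add ((p0f_int (by norm_num) hb.le).const_mul K)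

end Pool.Agent.Lib.MP_79abb3_an.W
end

section

/-!
Theorem W (MP_79abb3_an), Phase 0: final theorem.
-/

set_option autoImplicit false
set_option linter.unusedSectionVars false

open MeasureTheory Set Filter Topology Function
open scoped ENNReal RealInnerProductSpace

namespace Pool.Agent.Lib.MP_79abb3_an.W

variable {d : ℕ} {Ω W : Set (En d)} {u₀ : En d → En d} {Y : ℕ → En d → En d} {ω τ : ℕ → ℝ}
variable {x : ℝ → HD Ω} {v : ℝ → VD Ω}

private theorem p0g5_pos {t : ℝ} (ht : 0 < t) : uP Ω u₀ Y τ x t = clD Ω (lft Y τ t) + (x t : L2E d) :=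
  if_neg (not_le.2 ht)

private theorem p0g5_zero (D : Set (En d)) : clD D (fun _ => (0 : En d)) = 0 := by
  have h1 : D.indicator (fun _ => (0 : En d)) = fun _ => (0 : En d) := by
    ext1 x
    simp
  show cl (D.indicator fun _ => (0 : En d)) = 0
  rw [h1, cl_eq MemLp.zero']
  exact MemLp.toLp_zero _

/-- the integrand is integrable (as in `WTr.int`) -/
private theorem p0g5_int {u : ℝ → L2E d} {a b : ℝ} (h : ∀ w : L2E d, ContinuousOn (fun t => ⟪u t, w⟫) (Icc a b))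
    (hab : a ≤ b) (φ : TS Ω) :
    IntervalIntegrable (fun r => ⟪u r, cl (lap (φ : En d → En d))⟫ + quad (u r) (φ : En d → En d)) volume a b := by
  refine IntervalIntegrable.add ?_ ?_
  · refine ContinuousOn.intervalIntegrable ?_
    rw [uIcc_of_le hab]
    exact h _
  · obtain ⟨M, hM0, hM⟩ := wc_bdd h
    have h1 : Continuous (fderiv ℝ (φ : En d → En d)) := (TS.ts φ).smooth.continuous_fderiv (by norm_num)
    obtain ⟨c, hc⟩ := h1.bounded_above_of_compact_support ((TS.ts φ).cpt.fderiv ℝ)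
    rw [intervalIntegrable_iff_integrableOn_Icc_of_le hab]
    have h2 : AEStronglyMeasurable (fun r => quad (u r) (φ : En d → En d)) (volume.restrict (Icc a b)) :=
      (quad_cont (TS.ts φ).smooth (TS.ts φ).cpt).comp_aestronglyMeasurable (wc_aesm h)
    refine Integrable.of_bound h2 (c * M ^ 2) ?_
    refine (ae_restrict_iff' measurableSet_Icc).2 (Eventually.of_forall fun r hr => ?_)
    have hc0 : 0 ≤ c := (norm_nonneg _).trans (hc 0)
    refine (quad_le (TS.ts φ).smooth hc (u r)).trans ?_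
    exact mul_le_mul_of_nonneg_left (pow_le_pow_left₀ (norm_nonneg _) (hM r hr) 2) hc0

/-- The equation for `0 < s`: `cl_ftc` + `LSol.eq` (with `p = vT Ω φ`, `io_vT`), the integrands agree a.e. by `p0_total` (`x r = io (v r)` for
a.e. `r`). -/
theorem P0Seq.u_eq_pos (hd : d = 2 ∨ d = 3) (h : P0Seq Ω W u₀ Y ω τ) (hΩo : IsOpen Ω) (hΩ : Bornology.IsBounded Ω)
    (hx : LSol (io Ω) 1 (Fl Ω Y τ) (gl Ω Y τ) (fun u v w => bV Ω u v w) 0 (τ 0) 0 x v) (φ : TS Ω) {s t : ℝ}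
    (hs : 0 < s) (hst : s ≤ t) (ht : t ≤ τ 0) :
    ⟪uP Ω u₀ Y τ x t, cl (φ : En d → En d)⟫ - ⟪uP Ω u₀ Y τ x s, cl (φ : En d → En d)⟫ =
      ∫ r in s..t, (⟪uP Ω u₀ Y τ x r, cl (lap (φ : En d → En d))⟫ + quad (uP Ω u₀ Y τ x r) (φ : En d → En d)) := by
  obtain ⟨i1, e1⟩ := h.cl_ftc hΩo hΩ φ hs hst
  have e2 := hx.eq (vT Ω φ) s t hs.le hst ht
  have i2 : IntervalIntegrable (fun r => -(1 * ⟪v r, vT Ω φ⟫) + ⟪gl Ω Y τ r - Fl Ω Y τ r (v r), io Ω (vT Ω φ)⟫ -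
      bV Ω (v r) (v r) (vT Ω φ)) volume s t := by
    refine (hx.int (vT Ω φ)).mono_set ?_
    rw [uIcc_of_le hst, uIcc_of_le (h.τ0 0).le]
    exact Icc_subset_Icc hs.le ht
  rw [io_vT hΩ] at e2
  have e3 : ∀ r, ⟪(x r : L2E d), cl (φ : En d → En d)⟫ = ⟪x r, hT Ω φ⟫ := fun r => rfl
  have e4 : ⟪uP Ω u₀ Y τ x t, cl (φ : En d → En d)⟫ - ⟪uP Ω u₀ Y τ x s, cl (φ : En d → En d)⟫ =
      (∫ r in s..t, ⟪clD Ω (lfd Y τ r), cl (φ : En d → En d)⟫) +
      ∫ r in s..t, (-(1 * ⟪v r, vT Ω φ⟫) + ⟪gl Ω Y τ r - Fl Ω Y τ r (v r), io Ω (vT Ω φ)⟫ -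
        bV Ω (v r) (v r) (vT Ω φ)) := by
    rw [p0g5_pos hs, p0g5_pos (hs.trans_le hst), inner_add_left, inner_add_left, e3, e3, ← e1, io_vT hΩ, ← e2]
    ring
  rw [e4, ← intervalIntegral.integral_add i1 i2]
  refine intervalIntegral.integral_congr_ae ?_
  have h1 : ∀ᵐ r, r ∈ Icc 0 (τ 0) → io Ω (v r) = x r := (ae_restrict_iff' measurableSet_Icc).1 hx.ae
  filter_upwards [h1] with r hr hr'
  rw [uIoc_of_le hst] at hr'
  have hr0 : 0 < r := hs.trans hr'.1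
  have hrx := hr ⟨hr0.le, hr'.2.trans ht⟩
  rw [p0g5_pos hr0, ← hrx]
  exact p0_total hd hΩo hΩ (h.lft_smo hr0) (h.lft_cpt hr0) (h.lfd_smo hr0) (fun y hy => h.lft_dv hr0 hy) (v r) φ

/-- The equation for `0 ≤ s`: the integrand is bounded and measurable (`wc_bdd`, `wc_aesm`, `quad_cont`, `quad_le`), so its primitive is
continuous; `s → 0+` by `u_wc`. -/
theorem P0Seq.u_eq (hd : d = 2 ∨ d = 3) (h : P0Seq Ω W u₀ Y ω τ) (hΩo : IsOpen Ω) (hΩ : Bornology.IsBounded Ω)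
    (hm : MemLp u₀ 2 (volume.restrict Ω))
    (hx : LSol (io Ω) 1 (Fl Ω Y τ) (gl Ω Y τ) (fun u v w => bV Ω u v w) 0 (τ 0) 0 x v) (φ : TS Ω) {s t : ℝ}
    (hs : 0 ≤ s) (hst : s ≤ t) (ht : t ≤ τ 0) :
    ⟪uP Ω u₀ Y τ x t, cl (φ : En d → En d)⟫ - ⟪uP Ω u₀ Y τ x s, cl (φ : En d → En d)⟫ =
      ∫ r in s..t, (⟪uP Ω u₀ Y τ x r, cl (lap (φ : En d → En d))⟫ + quad (uP Ω u₀ Y τ x r) (φ : En d → En d)) := by
  have hwc := h.u_wc hΩo hΩ hm hx
  have hint := p0g5_int hwc (h.τ0 0).le φ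
  rcases hs.eq_or_lt with h0 | h0
  · subst h0
    rcases hst.eq_or_lt with h1 | h1
    · rw [← h1, intervalIntegral.integral_same, sub_self]
    · set f : ℝ → ℝ := fun r => ⟪uP Ω u₀ Y τ x r, cl (lap (φ : En d → En d))⟫ +
        quad (uP Ω u₀ Y τ x r) (φ : En d → En d) with hf
      have hi : IntervalIntegrable f volume 0 t := by
        refine hint.mono_set ?_
        rw [uIcc_of_le hst, uIcc_of_le (h.τ0 0).le]
        exact Icc_subset_Icc le_rfl ht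
      have hIo : ∀ᶠ s in 𝓝[>] (0 : ℝ), s ∈ Ioc 0 t := Ioc_mem_nhdsGT h1
      have l1 : Tendsto (fun s => ⟪uP Ω u₀ Y τ x s, cl (φ : En d → En d)⟫) (𝓝[>] 0)
          (𝓝 ⟪uP Ω u₀ Y τ x 0, cl (φ : En d → En d)⟫) := by
        refine ((hwc (cl (φ : En d → En d))) 0 ⟨le_rfl, (h.τ0 0).le⟩).tendsto.mono_left ?_
        exact nhdsWithin_le_of_mem (mem_of_superset (Ioc_mem_nhdsGT (h.τ0 0)) Ioc_subset_Icc_self)
      have l2 : Tendsto (fun s => ∫ r in (0 : ℝ)..s, f r) (𝓝[>] 0) (𝓝 0) := by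
        have h2 := intervalIntegral.continuousOn_primitive_interval' hi left_mem_uIcc
        rw [uIcc_of_le hst] at h2
        have h3 := (h2 0 ⟨le_rfl, hst⟩).tendsto
        rw [intervalIntegral.integral_same] at h3
        exact h3.mono_left (nhdsWithin_le_of_mem (mem_of_superset (Ioc_mem_nhdsGT h1) Ioc_subset_Icc_self))
      have l3 : Tendsto (fun s => ⟪uP Ω u₀ Y τ x t, cl (φ : En d → En d)⟫ -
          ⟪uP Ω u₀ Y τ x s, cl (φ : En d → En d)⟫) (𝓝[>] 0) (𝓝 ((∫ r in (0 : ℝ)..t, f r) - 0)) := by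
        refine (tendsto_const_nhds.sub l2).congr' ?_
        filter_upwards [hIo] with s hs'
        rw [h.u_eq_pos hd hΩo hΩ hx φ hs'.1 hs'.2 ht]
        have hia : IntervalIntegrable f volume 0 s := by
          refine hi.mono_set ?_
          rw [uIcc_of_le hst, uIcc_of_le hs'.1.le]
          exact Icc_subset_Icc le_rfl hs'.2
        have hib : IntervalIntegrable f volume s t := by
          refine hi.mono_set ?_
          rw [uIcc_of_le hst, uIcc_of_le hs'.2]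
          exact Icc_subset_Icc hs'.1.le le_rfl
        have h5 := intervalIntegral.integral_add_adjacent_intervals hia hib
        show (∫ r in (0 : ℝ)..t, f r) - (∫ r in (0 : ℝ)..s, f r) = ∫ r in s..t, f r
        linarith
      have h6 := tendsto_nhds_unique l3 (tendsto_const_nhds.sub l1)
      rw [← h6, sub_zero]
  · exact h.u_eq_pos hd hΩo hΩ hx φ h0 hst ht

theorem P0Seq.wtr (hd : d = 2 ∨ d = 3) (h : P0Seq Ω W u₀ Y ω τ) (hΩo : IsOpen Ω) (hΩ : Bornology.IsBounded Ω)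
    (hW : W ⊆ frontier Ω) (hm : MemLp u₀ 2 (volume.restrict Ω))
    (hx : LSol (io Ω) 1 (Fl Ω Y τ) (gl Ω Y τ) (fun u v w => bV Ω u v w) 0 (τ 0) 0 x v) :
    WTr Ω W 0 (τ 0) (uP Ω u₀ Y τ x) (GP Ω Y τ v) :=
  ⟨fun w => h.u_wc hΩo hΩ hm hx w, h.u_gm hΩo hΩ hx, h.u_h0 hΩo hΩ hW hx, fun _ ht _ hq => h.u_div hΩo hΩ hm hx ht hq,
    fun φ _ _ h1 h2 h3 => h.u_eq hd hΩo hΩ hm hx φ h1 h2 h3⟩

/-- **Phase 0.** Every admissible datum (with flux through the free part of the boundary) is steered, in arbitrarily short time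
and without force in `Ω`, to a state in `H(Ω)`. Proof. `p0_seq` with `t₁' = min t₁ (1/256)`, `P0Seq.leray`, `P0Seq.wtr`; at the end `b = τ 0`
the lift vanishes (`lft_late`), so `u b = x b`. -/
theorem phase0 (hd : d = 2 ∨ d = 3) (hΩo : IsOpen Ω) (hΩ : Bornology.IsBounded Ω) (hW : W ⊆ frontier Ω)
    (hm : MemLp u₀ 2 (volume.restrict Ω))
    (hu : ∀ ε : ℝ≥0∞, 0 < ε → ∃ L : En d → En d, Smo L ∧ (∀ x ∈ Ω, dv L x = 0) ∧ (∀ x ∈ W, L x = 0) ∧
      eLpNorm (fun x => u₀ x - L x) 2 (volume.restrict Ω) ≤ ε) {t₁ : ℝ} (ht : 0 < t₁) :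
    ∃ (b : ℝ) (y : HD Ω), 0 < b ∧ b ≤ t₁ ∧ Mv Ω W b (clD Ω u₀) (y : L2E d) := by
  obtain ⟨Y, ω, τ, h, h1⟩ := p0_seq hΩ (hW.trans frontier_subset_closure) hm hu
    (lt_min ht (by norm_num : (0 : ℝ) < 1 / 256))
  obtain ⟨x, v, hx⟩ := h.leray hd hΩo hΩ (h1.trans (min_le_right _ _))
  refine ⟨τ 0, x (τ 0), h.τ0 0, h1.trans (min_le_left _ _), uP Ω u₀ Y τ x, GP Ω Y τ v,
    h.wtr hd hΩo hΩ hW hm hx, if_pos le_rfl, ?_⟩
  rw [p0g5_pos (h.τ0 0), show lft Y τ (τ 0) = fun _ => (0 : En d) from funext fun y => h.lft_late le_rfl y,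
    p0g5_zero, zero_add]

end Pool.Agent.Lib.MP_79abb3_an.W
end

section

/-!
Theorem W (MP_79abb3_an), assembly of the final theorem from the flush (block F) and the local null controllability
(blocks A4, G).
-/

set_option autoImplicit false
set_option linter.unusedSectionVars false

open MeasureTheory Set Filter Topology Function
open scoped ENNReal RealInnerProductSpace

namespace Pool.Agent.Lib.MP_79abb3_an.W

section
variable {d : ℕ} {D : Set (En d)}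

/-- Small states in `L²` are steered to rest, if small states in `V(D)` are. -/
theorem rest_of (hd : d = 2 ∨ d = 3) (hO : IsOpen D) (hD : Bornology.IsBounded D) {B : Set (En d)}
    (hn : ∀ T : ℝ, 0 < T → ∃ μ : ℝ, 0 < μ ∧ ∀ v₀ : VD D, ‖v₀‖ ≤ μ →
      Mv (D \ B) (frontier D) T ((io D v₀ : HD D) : L2E d) 0) {T : ℝ} (hT : 0 < T) :
    ∃ ε : ℝ, 0 < ε ∧ ∀ y : HD D, ‖y‖ ≤ ε → Mv (D \ B) (frontier D) T (y : L2E d) 0 := by
  obtain ⟨μ, hμ, h1⟩ := hn (T / 2) (half_pos hT)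
  obtain ⟨ε, hε, h2⟩ := small_good hd hO hD (half_pos hT) hμ
  refine ⟨ε, hε, fun y hy => ?_⟩
  obtain ⟨s, v₀, hs, hsT, hv, hm⟩ := h2 y hy
  have h3 := ((hm.mono (sdiff_subset (t := B)) subset_rfl).trans hs.le (half_pos hT).le (h1 v₀ hv)).trans
    (by linarith) (by linarith : 0 ≤ T - (s + T / 2)) (Mv.zero _)
  rwa [add_sub_cancel] at h3

/-- the class of a state of a smaller domain -/
theorem HD_incl {Ω : Set (En d)} (h : Ω ⊆ D) (y : HD Ω) : ∃ y' : HD D, (y' : L2E d) = (y : L2E d) :=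
  ⟨⟨(y : L2E d), HD_mono h y.2⟩, rfl⟩

end

/-- The assembly. `hF`: the flush. `hN`: local null controllability in `V(D)`. -/
theorem theoremW_of
    (hF : ∀ d : ℕ, d = 2 ∨ d = 3 → ∀ (D : Set (En d)) (z : En d → ℝ) (δ : ℝ), Dom D z δ → ∀ (x : En d) (r : ℝ),
      0 < r → Metric.closedBall x r ⊆ D → ∀ (y : HD D) (T ε : ℝ), 0 < T → 0 < ε →
      ∃ (b : ℝ) (y' : HD D), 0 < b ∧ b ≤ T ∧ Mv (D \ Metric.closedBall x r) (frontier D) b (y : L2E d) (y' : L2E d) ∧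
        ‖y'‖ ≤ ε)
    (hN : ∀ d : ℕ, d = 2 ∨ d = 3 → ∀ (D : Set (En d)) (z : En d → ℝ) (δ : ℝ), Dom D z δ → ∀ (x : En d) (r : ℝ),
      0 < r → Metric.closedBall x r ⊆ D → ∀ T : ℝ, 0 < T → ∃ μ : ℝ, 0 < μ ∧ ∀ v₀ : VD D, ‖v₀‖ ≤ μ →
      Mv (D \ Metric.closedBall x r) (frontier D) T ((io D v₀ : HD D) : L2E d) 0) :
    TheoremW := by
  intro d hd Ω Γ hΩ hΓ T hT u₀ hu₀
  obtain ⟨D, z, δ, x, r, hdom, hΩD, hW, hr, hb⟩ := exists_setting hΩ hΓ
  have hDo : IsOpen D := by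
    have h1 : D = {p | 0 < z p} := by
      ext p
      exact hdom.pos p
    rw [h1]
    exact isOpen_lt continuous_const hdom.smo.continuous
  have hDb : Bornology.IsBounded D := hdom.bdd
  have hbD : Metric.closedBall x r ⊆ D := hb.trans sdiff_subset
  have hT3 : 0 < T / 3 := by positivity
  obtain ⟨ε, hε, hrest⟩ := rest_of hd hDo hDb (B := Metric.closedBall x r)
    (hN d hd D z δ hdom x r hr hbD) hT3
  -- phase 0
  obtain ⟨b₀, y₀, hb₀, hb₀T, hm₀⟩ := phase0 hd hΩ.op hΩ.bdd (W := frontier Ω \ Γ) sdiff_subset hu₀.1 hu₀.2 hT3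
  obtain ⟨y₁, hy₁⟩ := HD_incl hΩD y₀
  -- flush
  obtain ⟨b₁, y₂, hb₁, hb₁T, hm₁, hy₂⟩ := hF d hd D z δ hdom x r hr hbD y₁ (T / 3) ε hT3 hε
  have hm₂ := hrest y₂ hy₂
  have hsub : Ω ⊆ D \ Metric.closedBall x r := fun p hp =>
    ⟨hΩD hp, fun hp' => (hb hp').2 (subset_closure hp)⟩
  have hm₁' : Mv Ω (frontier Ω \ Γ) b₁ (y₀ : L2E d) (y₂ : L2E d) := by
    rw [← hy₁]
    exact hm₁.mono hsub hW
  have hm₂' : Mv Ω (frontier Ω \ Γ) (T / 3) (y₂ : L2E d) 0 := hm₂.mono hsub hW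
  have htot := (((hm₀.trans hb₀.le hb₁.le hm₁').trans (by linarith) hT3.le hm₂').trans (by linarith)
    (by linarith : 0 ≤ T - (b₀ + b₁ + T / 3)) (Mv.zero _))
  rw [add_sub_cancel] at htot
  obtain ⟨u, G, hu, hu0, huT⟩ := htot
  have h0 : ∀ᵐ p ∂(volume.restrict Ω), (u 0 : En d → En d) p = u₀ p := by
    rw [hu0]
    have h1 := cl_coe ((memLp_indicator_iff_restrict hΩ.op.measurableSet).2 hu₀.1)
    have h2 : ∀ᵐ p ∂(volume.restrict Ω), (clD Ω u₀ : En d → En d) p = Ω.indicator u₀ p :=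
      ae_restrict_of_ae h1
    filter_upwards [h2, ae_restrict_mem hΩ.op.measurableSet] with p h3 h4
    rw [h3, indicator_of_mem h4]
  obtain ⟨w, hw, hwt⟩ := hu.isTraj hΩ.op hT h0
  refine ⟨w, hw, ?_⟩
  have h5 := hwt T ⟨hT.le, le_rfl⟩
  rw [huT] at h5
  have h6 : ∀ᵐ p : En d ∂volume, w (T, p) = 0 := by
    filter_upwards [h5, Lp.coeFn_zero (En d) 2 (volume : Measure (En d))] with p h7 h8
    rw [h7, h8]
    rfl
  exact ae_restrict_of_ae h6

end Pool.Agent.Lib.MP_79abb3_an.W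
end

section

/-!
Theorem W (MP_79abb3_an), block A4: the concrete null theorem, control in a ball.
-/

set_option autoImplicit false
set_option linter.unusedSectionVars false

open MeasureTheory Set Filter Topology Function Metric
open scoped ENNReal RealInnerProductSpace

namespace Pool.Agent.Lib.MP_79abb3_an.W

section
variable {d : ℕ} {D : Set (En d)}

/-- **Null controllability for small data in `V(D)`**, the control acts in a ball. -/
theorem null_ball (hd : d = 2 ∨ d = 3) (hDo : IsOpen D) (hDb : Bornology.IsBounded D) (hDc : IsConnected D)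
    {t0 : ℝ} (ht0 : 0 < t0) (hI : WG.IntBall D t0) {CP ρ0 : ℝ} (hCP : 0 ≤ CP) (hρ0 : 0 < ρ0)
    (hL : WG.LayerP D CP ρ0) {z0 : En d} {r0 : ℝ} (hr0 : 0 < r0) (hZ : ball z0 r0 ⊆ D) {T : ℝ} (hT : 0 < T) :
    ∃ ε : ℝ, 0 < ε ∧ ∀ v₀ : VD D, ‖v₀‖ ≤ ε →
      Mv (D \ closedBall z0 r0) (frontier D) T ((io D v₀ : HD D) : L2E d) 0 := by
  refine null_S (S := ball z0 r0) hd hDo hDb measurableSet_ball ?_ diff_subset ?_ hT
  · exact WG.spectral_stokes hDo hDb hDc (by rcases hd with rfl | rfl <;> norm_num) ht0 hI hCP hρ0 hL hr0 hZ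
  · exact disjoint_left.2 fun x hx hb => hx.2 (ball_subset_closedBall hb)

end

end Pool.Agent.Lib.MP_79abb3_an.W
end

section

/-!
Theorem W (MP_79abb3_an), assembly: Theorem W follows from the elementary move `EMall`.
-/

set_option autoImplicit false
set_option linter.unusedSectionVars false

open MeasureTheory Set Filter Topology Function
open scoped ENNReal RealInnerProductSpace

namespace Pool.Agent.Lib.MP_79abb3_an.W

/-- Local null controllability in `V(D)` for the working domains. -/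
theorem null_dom (d : ℕ) (hd : d = 2 ∨ d = 3) (D : Set (En d)) (z : En d → ℝ) (δ : ℝ) (h : Dom D z δ)
    (x : En d) (r : ℝ) (hr : 0 < r) (hb : Metric.closedBall x r ⊆ D) (T : ℝ) (hT : 0 < T) :
    ∃ μ : ℝ, 0 < μ ∧ ∀ v₀ : VD D, ‖v₀‖ ≤ μ →
      Mv (D \ Metric.closedBall x r) (frontier D) T ((io D v₀ : HD D) : L2E d) 0 := by
  have hO : IsOpen D := by
    have h1 : D = {p | 0 < z p} := by
      ext p
      exact h.pos p
    rw [h1]
    exact isOpen_lt continuous_const h.smo.continuous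
  have hd0 : 0 < d := by omega
  obtain ⟨t0, ht0, hI⟩ := h.intBall hd0
  obtain ⟨CP, hCP, ρ0, hρ0, hL⟩ := h.layerP hd0
  exact null_ball hd hO h.bdd h.conn ht0 hI hCP hρ0 hL hr (Metric.ball_subset_closedBall.trans hb) hT

/-- **Theorem W**, from the elementary move. -/
theorem theoremW_of_em (hem : EMall) : TheoremW :=
  theoremW_of (flush_all hem) null_dom

end Pool.Agent.Lib.MP_79abb3_an.W
end
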