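import Pool.Agent.Lib.MP_79abb3_an.W.BDef

/-!
Theorem W, block B: classes of regularity. A family `u : ι → Ed d → G` of functions is compared with the numbers
`N i`: all bounds are uniform in `i`. The functions are smooth on the open set `D`; values off `D` play no role.
-/

set_option autoImplicit false
set_option linter.unusedSectionVars false

open MeasureTheory Set Filter Topology Function
open scoped RealInnerProductSpace ENNReal NNReal

namespace Pool.Agent.Lib.MP_79abb3_an.W.B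

section
variable {d : ℕ} (D : Set (Ed d)) {ι : Type} (N : ι → ℝ≥0∞) {G : Type} [NormedAddCommGroup G] [NormedSpace ℝ G]

/-- `|u i|_{L²(D)} ≤ C N i`. -/
def Tame (u : ι → Ed d → G) : Prop :=
  ∃ C : ℝ≥0, ∀ i, eLpNorm (u i) 2 (volume.restrict D) ≤ C * N i

/-- Smooth on `D` and tame. -/
def T0 (u : ι → Ed d → G) : Prop := (∀ i, SmOn (u i) D) ∧ Tame D N u

/-- All derivatives of order at most `k` in directions of the fields in `𝒱` are tame. -/
def TT (𝒱 : Set (Ed d → Ed d)) : ℕ → (ι → Ed d → G) → Prop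
  | 0, u => T0 D N u
  | k + 1, u => T0 D N u ∧ ∀ X ∈ 𝒱, TT 𝒱 k (fun i x => fderiv ℝ (u i) x (X x))

/-- All partial derivatives of order at most `k` are tame. -/
def PT : ℕ → (ι → Ed d → G) → Prop
  | 0, u => T0 D N u
  | k + 1, u => T0 D N u ∧ ∀ j : Fin d, PT k (fun i x => fderiv ℝ (u i) x (ee j))

/-- All derivatives of order at most `n` are tame: first at most `m` derivatives in the direction of `Nf`, then derivatives
in directions of the fields in `𝒱`. -/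
def FF (𝒱 : Set (Ed d → Ed d)) (Nf : Ed d → Ed d) : ℕ → ℕ → (ι → Ed d → G) → Prop
  | 0, n, u => TT D N 𝒱 n u
  | _ + 1, 0, u => T0 D N u
  | m + 1, n + 1, u => FF 𝒱 Nf m (n + 1) u ∧ FF 𝒱 Nf m n (fun i x => fderiv ℝ (u i) x (Nf x))

/-- The field `W` is on `D` a combination with smooth coefficients of fields in `𝒱` and of `Nf`. -/
def Comb (𝒱 : Set (Ed d → Ed d)) (Nf W : Ed d → Ed d) : Prop :=
  ∃ (n : ℕ) (V : Fin n → Ed d → Ed d) (c : Fin n → Ed d → ℝ) (b : Ed d → ℝ), (∀ j, V j ∈ 𝒱) ∧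
    (∀ j, Sm (c j)) ∧ Sm b ∧ ∀ x ∈ D, W x = (∑ j, c j x • V j x) + b x • Nf x

/-- A frame: tangential fields `𝒱` (only finitely many are used at a time) and a normal field `Nf`. -/
structure IsFrame (z : Ed d → ℝ) (𝒱 : Set (Ed d → Ed d)) (Nf : Ed d → Ed d) : Prop where
  tan : ∀ X ∈ 𝒱, IsTan z X
  sm : Sm Nf
  comb : ∀ j : Fin d, Comb D 𝒱 Nf (fun _ => ee j)
  nor : ∃ (n : ℕ) (V : Fin n → Ed d → Ed d) (A : Fin n → Ed d → (Ed d →L[ℝ] Ed d)) (B : Ed d → Ed d),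
    (∀ j, V j ∈ 𝒱) ∧ (∀ j, Sm (A j)) ∧ Sm B ∧
    ∀ γ : Ed d → Ed d, SmOn γ D → (∀ x ∈ D, ∀ v w, ⟪fderiv ℝ γ x v, w⟫ = ⟪fderiv ℝ γ x w, v⟫) → ∀ x ∈ D,
      fderiv ℝ γ x (Nf x) = (∑ j, A j x (fderiv ℝ γ x (V j x))) + divg γ x • B x

end

end Pool.Agent.Lib.MP_79abb3_an.W.B
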