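import Pool.Agent.Lib.MP_79abb3_an.W.BDef

/-!
Theorem W, block B: more definitions.
-/

set_option autoImplicit false
set_option linter.unusedSectionVars false

open MeasureTheory Set Filter Topology Function
open scoped RealInnerProductSpace ENNReal NNReal

namespace Pool.Agent.Lib.MP_79abb3_an.W.B

variable {d : ℕ} {D : Set (Ed d)} {z : Ed d → ℝ} {δ : ℝ}

/-- The class `BB(D)`: smooth in `D` with bounded derivatives. -/
def BB {G : Type} [NormedAddCommGroup G] [NormedSpace ℝ G] (D : Set (Ed d)) (u : Ed d → G) : Prop :=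
  SmOn u D ∧ ∀ k : ℕ, ∃ C : ℝ, ∀ x ∈ D, ‖iteratedFDeriv ℝ k u x‖ ≤ C

/-- `u = O(z)`. -/
def OO {G : Type} [NormedAddCommGroup G] (D : Set (Ed d)) (z : Ed d → ℝ) (u : Ed d → G) : Prop :=
  ∃ C : ℝ, ∀ x ∈ D, ‖u x‖ ≤ C * z x

/-- The norm of `H^k(D)`. -/
noncomputable def Hn {G : Type} [NormedAddCommGroup G] [NormedSpace ℝ G] (D : Set (Ed d)) (k : ℕ)
    (u : Ed d → G) : ℝ≥0∞ :=
  ∑ j ∈ Finset.range (k + 1), eLpNorm (fun x => iteratedFDeriv ℝ j u x) 2 (volume.restrict D)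

/-- The unit cube. -/
def cub (d : ℕ) : Set (Ed d) := {t | ∀ i, t i ∈ Icc (0 : ℝ) 1}

/-- `q` is the solution of the Neumann problem `Δ q = f` in `D`, `n · ∇q = 0` at the walls, normalised to mean zero. -/
structure IsNeu (D : Set (Ed d)) (z : Ed d → ℝ) (f q : Ed d → ℝ) : Prop where
  bbf : BB D f
  bb : BB D q
  eq : ∀ x ∈ D, divg (gradient q) x = f x
  nor : OO D z (fun x => ⟪gradient z x, gradient q x⟫)
  mean : ∫ x in D, q x = 0

end Pool.Agent.Lib.MP_79abb3_an.W.B
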