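import Pool.Agent.Lib.MP_79abb3_an.W.DEDef

/-!
Theorem W, blocks D, DE: calculus of the class `BD`, with bounds `Bk` of the derivatives up to a given order.
-/

set_option autoImplicit false
set_option linter.unusedSectionVars false

open MeasureTheory Set Filter Topology Function
open scoped ENNReal RealInnerProductSpace

namespace Pool.Agent.Lib.MP_79abb3_an.W

section
variable {d : ℕ} {F G E : Type} [NormedAddCommGroup F] [NormedSpace ℝ F] [NormedAddCommGroup G] [NormedSpace ℝ G]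
  [NormedAddCommGroup E] [NormedSpace ℝ E] {D : Set (En d)} {k : ℕ} {M M' : ℝ}

/-! ### The bounds `Bk` -/

theorem Bk.mono {f : En d → F} (h : Bk D k M f) {l : ℕ} (hl : l ≤ k) (hM : M ≤ M') : Bk D l M' f :=
  fun j hj x hx => (h j (hj.trans hl) x hx).trans hM

theorem Bk.le0 {f : En d → F} (h : Bk D k M f) {x : En d} (hx : x ∈ D) : ‖f x‖ ≤ M := by
  have h1 := h 0 (Nat.zero_le _) x hx
  rwa [norm_iteratedFDeriv_zero] at h1

theorem Bk.le1 {f : En d → F} (h : Bk D (k + 1) M f) {x : En d} (hx : x ∈ D) : ‖fderiv ℝ f x‖ ≤ M := by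
  have h1 := h 1 (by omega) x hx
  rwa [← zero_add 1, ← norm_iteratedFDeriv_fderiv, norm_iteratedFDeriv_zero] at h1

theorem Bk.fderiv {f : En d → F} (h : Bk D (k + 1) M f) : Bk D k M (fderiv ℝ f) := fun j hj x hx => by
  rw [norm_iteratedFDeriv_fderiv]
  exact h (j + 1) (by omega) x hx

/-- Functions which agree on the open set `D` have the same derivatives there. -/
theorem iteratedFDeriv_congr_on (hD : IsOpen D) {f g : En d → F} (h : ∀ x ∈ D, f x = g x) (j : ℕ) {x : En d}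
    (hx : x ∈ D) : iteratedFDeriv ℝ j f x = iteratedFDeriv ℝ j g x := by
  rw [← iteratedFDerivWithin_of_isOpen j hD hx, ← iteratedFDerivWithin_of_isOpen j hD hx]
  exact iteratedFDerivWithin_congr (fun y hy => h y hy) hx j

theorem Bk.congr (hD : IsOpen D) {f g : En d → F} (hf : Bk D k M f) (h : ∀ x ∈ D, f x = g x) : Bk D k M g :=
  fun j hj x hx => by
    rw [← iteratedFDeriv_congr_on hD h j hx]
    exact hf j hj x hx

theorem fderiv_congr_on (hD : IsOpen D) {f g : En d → F} (h : ∀ x ∈ D, f x = g x) {x : En d} (hx : x ∈ D) :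
    _root_.fderiv ℝ f x = _root_.fderiv ℝ g x :=
  Filter.EventuallyEq.fderiv_eq (Filter.eventuallyEq_of_mem (hD.mem_nhds hx) h)

/-! ### The class `BD` -/

theorem BD.smoothOn {f : En d → F} (h : BD D f) : ContDiffOn ℝ ((⊤ : ℕ∞) : WithTop ℕ∞) f D := h.1

theorem BD.contDiffAt (hD : IsOpen D) {f : En d → F} (h : BD D f) {x : En d} (hx : x ∈ D) :
    ContDiffAt ℝ ((⊤ : ℕ∞) : WithTop ℕ∞) f x := h.1.contDiffAt (hD.mem_nhds hx)

theorem BD.differentiableAt (hD : IsOpen D) {f : En d → F} (h : BD D f) {x : En d} (hx : x ∈ D) :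
    DifferentiableAt ℝ f x := (h.contDiffAt hD hx).differentiableAt (by norm_num)

/-- a function of class `BD` has bounds of every order -/
theorem BD.exists_Bk {f : En d → F} (h : BD D f) (k : ℕ) : ∃ M, 0 ≤ M ∧ Bk D k M f := by
  choose C hC using h.2
  refine ⟨∑ j ∈ Finset.range (k + 1), |C j|, Finset.sum_nonneg fun _ _ => abs_nonneg _, fun j hj x hx => ?_⟩
  refine (hC j x hx).trans ((le_abs_self _).trans ?_)
  exact Finset.single_le_sum (f := fun j => |C j|) (fun _ _ => abs_nonneg _) (Finset.mem_range.2 (by omega))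

theorem BD.of_Bk {f : En d → F} (h1 : ContDiffOn ℝ ((⊤ : ℕ∞) : WithTop ℕ∞) f D) (h2 : ∀ k, ∃ M, Bk D k M f) : BD D f :=
  ⟨h1, fun k => by obtain ⟨M, hM⟩ := h2 k; exact ⟨M, fun x hx => hM k le_rfl x hx⟩⟩

theorem BD.congr (hD : IsOpen D) {f g : En d → F} (hf : BD D f) (h : ∀ x ∈ D, f x = g x) : BD D g :=
  BD.of_Bk (hf.1.congr fun x hx => (h x hx).symm) fun k => by
    obtain ⟨M, _, hM⟩ := hf.exists_Bk k
    exact ⟨M, hM.congr hD h⟩

theorem BD.fderiv (hD : IsOpen D) {f : En d → F} (h : BD D f) : BD D (fderiv ℝ f) := by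
  refine BD.of_Bk (h.1.fderiv_of_isOpen hD (by exact_mod_cast le_top)) fun k => ?_
  obtain ⟨M, _, hM⟩ := h.exists_Bk (k + 1)
  exact ⟨M, hM.fderiv⟩

theorem BD.const (_ : IsOpen D) (c : F) : BD D (fun _ : En d => c) := by
  refine ⟨contDiffOn_const, fun k => ⟨‖c‖, fun x _ => ?_⟩⟩
  cases k with
  | zero => rw [norm_iteratedFDeriv_zero]
  | succ k =>
    rw [iteratedFDeriv_succ_const]
    simp

/-! ### Linear maps, sums -/

theorem Bk.clm (hD : IsOpen D) (L : F →L[ℝ] G) {f : En d → F} (hf : ContDiffOn ℝ ((⊤ : ℕ∞) : WithTop ℕ∞) f D)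
    (h : Bk D k M f) : Bk D k (‖L‖ * M) (fun x => L (f x)) := fun j hj x hx => by
  have h1 : ContDiffAt ℝ ((⊤ : ℕ∞) : WithTop ℕ∞) f x := hf.contDiffAt (hD.mem_nhds hx)
  have h2 := L.norm_iteratedFDeriv_comp_left h1 (n := j) (by exact_mod_cast le_top)
  exact h2.trans (mul_le_mul_of_nonneg_left (h j hj x hx) (norm_nonneg _))

theorem BD.clm (hD : IsOpen D) (L : F →L[ℝ] G) {f : En d → F} (h : BD D f) : BD D (fun x => L (f x)) :=
  BD.of_Bk (L.contDiff.comp_contDiffOn h.1) fun k => by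
    obtain ⟨M, _, hM⟩ := h.exists_Bk k
    exact ⟨_, hM.clm hD L h.1⟩

theorem Bk.add (hD : IsOpen D) {f g : En d → F} (hf : ContDiffOn ℝ ((⊤ : ℕ∞) : WithTop ℕ∞) f D)
    (hg : ContDiffOn ℝ ((⊤ : ℕ∞) : WithTop ℕ∞) g D) (h : Bk D k M f) (h' : Bk D k M' g) :
    Bk D k (M + M') (fun x => f x + g x) := fun j hj x hx => by
  have h1 : ContDiffAt ℝ (j : WithTop ℕ∞) f x := (hf.contDiffAt (hD.mem_nhds hx)).of_le (by exact_mod_cast le_top)
  have h2 : ContDiffAt ℝ (j : WithTop ℕ∞) g x := (hg.contDiffAt (hD.mem_nhds hx)).of_le (by exact_mod_cast le_top)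
  have h3 : iteratedFDeriv ℝ j (fun x => f x + g x) x = iteratedFDeriv ℝ j f x + iteratedFDeriv ℝ j g x :=
    iteratedFDeriv_add_apply h1 h2
  rw [h3]
  exact (norm_add_le _ _).trans (add_le_add (h j hj x hx) (h' j hj x hx))

theorem BD.add (hD : IsOpen D) {f g : En d → F} (hf : BD D f) (hg : BD D g) : BD D (fun x => f x + g x) :=
  BD.of_Bk (hf.1.add hg.1) fun k => by
    obtain ⟨M, _, hM⟩ := hf.exists_Bk k
    obtain ⟨M', _, hM'⟩ := hg.exists_Bk k
    exact ⟨_, hM.add hD hf.1 hg.1 hM'⟩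

theorem Bk.const_smul (hD : IsOpen D) (c : ℝ) {f : En d → F} (hf : ContDiffOn ℝ ((⊤ : ℕ∞) : WithTop ℕ∞) f D)
    (h : Bk D k M f) : Bk D k (|c| * M) (fun x => c • f x) := fun j hj x hx => by
  have h1 : ContDiffAt ℝ (j : WithTop ℕ∞) f x := (hf.contDiffAt (hD.mem_nhds hx)).of_le (by exact_mod_cast le_top)
  have h3 : iteratedFDeriv ℝ j (fun x => c • f x) x = c • iteratedFDeriv ℝ j f x :=
    iteratedFDeriv_const_smul_apply h1
  rw [h3, norm_smul, Real.norm_eq_abs]
  exact mul_le_mul_of_nonneg_left (h j hj x hx) (abs_nonneg _)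

theorem BD.const_smul (hD : IsOpen D) (c : ℝ) {f : En d → F} (hf : BD D f) : BD D (fun x => c • f x) :=
  BD.of_Bk (hf.1.const_smul c) fun k => by
    obtain ⟨M, _, hM⟩ := hf.exists_Bk k
    exact ⟨_, hM.const_smul hD c hf.1⟩

theorem BD.neg (hD : IsOpen D) {f : En d → F} (hf : BD D f) : BD D (fun x => -f x) :=
  (hf.const_smul hD (-1)).congr hD fun x _ => by simp

theorem BD.sub (hD : IsOpen D) {f g : En d → F} (hf : BD D f) (hg : BD D g) : BD D (fun x => f x - g x) :=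
  (hf.add hD (hg.neg hD)).congr hD fun x _ => by simp [sub_eq_add_neg]

theorem BD.sum (hD : IsOpen D) {ι : Type} (s : Finset ι) {f : ι → En d → F} (h : ∀ i ∈ s, BD D (f i)) :
    BD D (fun x => ∑ i ∈ s, f i x) := by
  classical
  induction s using Finset.induction_on with
  | empty => simpa using BD.const hD (0 : F)
  | insert a s ha ih =>
    refine ((h a (Finset.mem_insert_self a s)).add hD
      (ih fun i hi => h i (Finset.mem_insert_of_mem hi))).congr hD fun x _ => ?_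
    rw [Finset.sum_insert ha]

/-! ### Products -/

/-- Leibniz' rule -/
theorem Bk.bilin (hD : IsOpen D) (B : F →L[ℝ] G →L[ℝ] E) {f : En d → F} {g : En d → G}
    (hf : ContDiffOn ℝ ((⊤ : ℕ∞) : WithTop ℕ∞) f D) (hg : ContDiffOn ℝ ((⊤ : ℕ∞) : WithTop ℕ∞) g D)
    (hM : 0 ≤ M) (hM' : 0 ≤ M') (h : Bk D k M f) (h' : Bk D k M' g) :
    Bk D k (‖B‖ * (2 ^ k * (M * M'))) (fun x => B (f x) (g x)) := fun j hj x hx => by
  rw [← iteratedFDerivWithin_of_isOpen j hD hx]
  refine (B.norm_iteratedFDerivWithin_le_of_bilinear hf hg hD.uniqueDiffOn hx (n := j)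
    (by exact_mod_cast le_top)).trans (mul_le_mul_of_nonneg_left ?_ (ContinuousLinearMap.opNorm_nonneg B))
  have h1 : ∀ i ∈ Finset.range (j + 1), (j.choose i : ℝ) * ‖iteratedFDerivWithin ℝ i f D x‖ *
      ‖iteratedFDerivWithin ℝ (j - i) g D x‖ ≤ (j.choose i : ℝ) * (M * M') := by
    intro i hi
    rw [iteratedFDerivWithin_of_isOpen i hD hx, iteratedFDerivWithin_of_isOpen (j - i) hD hx, mul_assoc]
    refine mul_le_mul_of_nonneg_left ?_ (Nat.cast_nonneg _)
    have hi' := Finset.mem_range.1 hi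
    exact mul_le_mul (h i (by omega) x hx) (h' (j - i) (by omega) x hx) (norm_nonneg _) hM
  refine (Finset.sum_le_sum h1).trans ?_
  rw [← Finset.sum_mul]
  refine mul_le_mul_of_nonneg_right ?_ (mul_nonneg hM hM')
  have h2 : (∑ i ∈ Finset.range (j + 1), (j.choose i : ℝ)) = 2 ^ j := by
    exact_mod_cast congrArg (Nat.cast (R := ℝ)) (Nat.sum_range_choose j)
  rw [h2]
  exact pow_le_pow_right₀ one_le_two hj

theorem BD.bilin (hD : IsOpen D) (B : F →L[ℝ] G →L[ℝ] E) {f : En d → F} {g : En d → G} (hf : BD D f)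
    (hg : BD D g) : BD D (fun x => B (f x) (g x)) :=
  BD.of_Bk ((B.contDiff.comp_contDiffOn hf.1).clm_apply hg.1) fun k => by
    obtain ⟨M, hM0, hM⟩ := hf.exists_Bk k
    obtain ⟨M', hM'0, hM'⟩ := hg.exists_Bk k
    exact ⟨_, hM.bilin hD B hf.1 hg.1 hM0 hM'0 hM'⟩

theorem BD.smul (hD : IsOpen D) {a : En d → ℝ} {f : En d → F} (ha : BD D a) (hf : BD D f) :
    BD D (fun x => a x • f x) :=
  BD.bilin hD (ContinuousLinearMap.lsmul ℝ ℝ) ha hf

theorem BD.mul (hD : IsOpen D) {a b : En d → ℝ} (ha : BD D a) (hb : BD D b) : BD D (fun x => a x * b x) :=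
  BD.bilin hD (ContinuousLinearMap.mul ℝ ℝ) ha hb

/-- application of a matrix field to a field -/
theorem BD.apply (hD : IsOpen D) {A : En d → F →L[ℝ] G} {f : En d → F} (hA : BD D A) (hf : BD D f) :
    BD D (fun x => A x (f x)) :=
  BD.bilin hD (ContinuousLinearMap.id ℝ (F →L[ℝ] G)) hA hf

theorem Bk.apply (hD : IsOpen D) {A : En d → F →L[ℝ] G} {f : En d → F}
    (hA : ContDiffOn ℝ ((⊤ : ℕ∞) : WithTop ℕ∞) A D) (hf : ContDiffOn ℝ ((⊤ : ℕ∞) : WithTop ℕ∞) f D)
    (hM : 0 ≤ M) (hM' : 0 ≤ M') (h : Bk D k M A) (h' : Bk D k M' f) :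
    Bk D k (2 ^ k * (M * M')) (fun x => A x (f x)) := by
  have h1 := h.bilin hD (ContinuousLinearMap.id ℝ (F →L[ℝ] G)) hA hf hM hM' h'
  refine h1.mono le_rfl ?_
  exact mul_le_of_le_one_left (by positivity) ContinuousLinearMap.norm_id_le

/-! ### Fields -/

/-- the transpose as a continuous linear map -/
noncomputable def adjL (d : ℕ) : (En d →L[ℝ] En d) →L[ℝ] (En d →L[ℝ] En d) :=
  LinearMap.toContinuousLinearMap
    { toFun := fun A => ContinuousLinearMap.adjoint A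
      map_add' := fun A B => by simp
      map_smul' := fun c A => by simp }

theorem adjL_apply (A : En d →L[ℝ] En d) : adjL d A = ContinuousLinearMap.adjoint A := rfl

theorem BD.Dm (hD : IsOpen D) {w : En d → En d} (hw : BD D w) : BD D (Dm w) := hw.fderiv hD

theorem BD.Dt (hD : IsOpen D) {w : En d → En d} (hw : BD D w) : BD D (Dt w) :=
  (hw.fderiv hD).clm hD (adjL d)

/-- the trace `A ↦ ∑ (A e_i)_i` -/
noncomputable def trL (d : ℕ) : (En d →L[ℝ] En d) →L[ℝ] ℝ :=
  LinearMap.toContinuousLinearMap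
    { toFun := fun A => ∑ i : Fin d, A (ei i) i
      map_add' := fun A B => by simp [Finset.sum_add_distrib]
      map_smul' := fun c A => by simp [Finset.mul_sum] }

theorem trL_apply (A : En d →L[ℝ] En d) : trL d A = ∑ i : Fin d, A (ei i) i := rfl

theorem dv_eq (w : En d → En d) (x : En d) : dv w x = trL d (_root_.fderiv ℝ w x) := rfl

theorem BD.dv (hD : IsOpen D) {w : En d → En d} (hw : BD D w) : BD D (dv w) :=
  (hw.fderiv hD).clm hD (trL d)

theorem BD.Dd (hD : IsOpen D) {w : En d → En d} (hw : BD D w) : BD D (Dd w) :=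
  (hw.fderiv hD).sub hD ((hw.dv hD).smul hD (BD.const hD (ContinuousLinearMap.id ℝ (En d))))

theorem BD.Ds (hD : IsOpen D) {w : En d → En d} (hw : BD D w) : BD D (Ds w) :=
  ((hw.Dt hD).add hD (hw.Dd hD)).const_smul hD _

theorem BD.pd (hD : IsOpen D) {f : En d → F} (hf : BD D f) (i : Fin d) : BD D (pd i f) :=
  (hf.fderiv hD).clm hD (ContinuousLinearMap.apply ℝ F (ei i))

theorem BD.lieF (hD : IsOpen D) {u w : En d → En d} (hu : BD D u) (hw : BD D w) : BD D (lieF u w) :=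
  ((hw.fderiv hD).apply hD hu).add hD ((hu.Dt hD).apply hD hw)

theorem BD.brk (hD : IsOpen D) {u w : En d → En d} (hu : BD D u) (hw : BD D w) : BD D (brk u w) :=
  ((hw.fderiv hD).apply hD hu).sub hD ((hu.fderiv hD).apply hD hw)

/-- smooth functions on the whole space are of class `BD` on bounded sets -/
theorem Smo.bd (hb : Bornology.IsBounded D) {f : En d → F} (hf : Smo f) : BD D f := by
  refine ⟨hf.contDiffOn, fun k => ?_⟩
  have h1 : Continuous (iteratedFDeriv ℝ k f) :=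
    ContDiff.continuous_iteratedFDeriv (n := ((⊤ : ℕ∞) : WithTop ℕ∞)) (by exact_mod_cast le_top) hf
  obtain ⟨C, hC⟩ := hb.isCompact_closure.exists_bound_of_continuousOn h1.continuousOn
  exact ⟨C, fun x hx => hC x (subset_closure hx)⟩

end

end Pool.Agent.Lib.MP_79abb3_an.W
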