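import Mathlib

/-!
Theorem W, block B (Neumann problem and Leray projection in a smooth domain of `ℝ^d`): definitions.
-/

set_option autoImplicit false
set_option linter.unusedSectionVars false

open MeasureTheory Set Filter Topology Function
open scoped RealInnerProductSpace ENNReal

namespace Pool.Agent.Lib.MP_79abb3_an.W.B

/-- The space `ℝ^d`. -/
abbrev Ed (d : ℕ) := EuclideanSpace ℝ (Fin d)

/-- The basis vectors. -/
noncomputable abbrev ee {d : ℕ} (i : Fin d) : Ed d := EuclideanSpace.single i (1 : ℝ)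

/-- Smooth functions. -/
abbrev Sm {F G : Type*} [NormedAddCommGroup F] [NormedSpace ℝ F] [NormedAddCommGroup G] [NormedSpace ℝ G]
    (f : F → G) : Prop := ContDiff ℝ ((⊤ : ℕ∞) : WithTop ℕ∞) f

/-- Functions which are smooth on a set. -/
abbrev SmOn {F G : Type*} [NormedAddCommGroup F] [NormedSpace ℝ F] [NormedAddCommGroup G] [NormedSpace ℝ G]
    (f : F → G) (s : Set F) : Prop := ContDiffOn ℝ ((⊤ : ℕ∞) : WithTop ℕ∞) f s

variable {d : ℕ}

/-- The working domain `D = {z > 0}`: `z` is smooth on the whole space and `|∇z| = 1` for `|z| < 4 δ`. -/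
structure Dom (D : Set (Ed d)) (z : Ed d → ℝ) (δ : ℝ) : Prop where
  sm : Sm z
  eq : D = {x | 0 < z x}
  bdd : Bornology.IsBounded D
  conn : IsConnected D
  pos : 0 < δ
  one : ∀ x, |z x| < 4 * δ → ‖gradient z x‖ = 1

/-- Test functions: continuously differentiable with compact support (in the whole space). -/
structure IsT1 (φ : Ed d → ℝ) : Prop where
  c1 : ContDiff ℝ 1 φ
  cpt : HasCompactSupport φ

/-- `γ ∈ G(D)`: `γ` is a limit in `L²(D)` of gradients of test functions. -/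
structure InG (D : Set (Ed d)) (γ : Ed d → Ed d) : Prop where
  mem : MemLp γ 2 (volume.restrict D)
  ap : ∀ ε : ℝ≥0∞, ε ≠ 0 → ∃ φ : Ed d → ℝ, IsT1 φ ∧
    eLpNorm (fun x => γ x - gradient φ x) 2 (volume.restrict D) ≤ ε

/-- `γ ∈ G(D)` and `∫_D ⟨γ - F, ∇φ⟩ + f φ = 0` for all test functions. For `f = 0` this means that `γ` is the orthogonal
projection of `F` on `G(D)`; in general `div γ = div F + f` and `(γ - F) · n = 0` at the boundary. -/
structure IsQ (D : Set (Ed d)) (F : Ed d → Ed d) (f : Ed d → ℝ) (γ : Ed d → Ed d) : Prop where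
  memF : MemLp F 2 (volume.restrict D)
  memf : MemLp f 2 (volume.restrict D)
  inG : InG D γ
  eq : ∀ φ, IsT1 φ → ∫ x in D, (⟪γ x - F x, gradient φ x⟫ + f x * φ x) = 0

/-- The flow `Φ` of the vector field `X`, for `|t| < τ`. -/
structure IsFl (X : Ed d → Ed d) (τ C : ℝ) (Φ : ℝ → Ed d → Ed d) : Prop where
  pos : 0 < τ
  zero : ∀ x, Φ 0 x = x
  der : ∀ t ∈ Ioo (-τ) τ, ∀ x, HasDerivAt (fun s => Φ s x) (X (Φ t x)) t
  inv : ∀ t ∈ Ioo (-τ) τ, ∀ x, Φ (-t) (Φ t x) = x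
  c1 : ∀ t ∈ Ioo (-τ) τ, ContDiff ℝ 1 (Φ t)
  dder : ∀ t ∈ Ioo (-τ) τ, ∀ x,
    HasDerivAt (fun s => fderiv ℝ (Φ s) x) ((fderiv ℝ X (Φ t x)).comp (fderiv ℝ (Φ t) x)) t
  cont : ContinuousOn (fun p : ℝ × Ed d => Φ p.1 p.2) (Ioo (-τ) τ ×ˢ univ)
  dcont : ContinuousOn (fun p : ℝ × Ed d => fderiv ℝ (Φ p.1) p.2) (Ioo (-τ) τ ×ˢ univ)
  near : ∀ t ∈ Ioo (-τ) τ, ∀ x, ‖Φ t x - x‖ ≤ C * |t|
  dnear : ∀ t ∈ Ioo (-τ) τ, ∀ x, ‖fderiv ℝ (Φ t) x - ContinuousLinearMap.id ℝ (Ed d)‖ ≤ C * |t|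
  dnear2 : ∀ t ∈ Ioo (-τ) τ, ∀ x,
    ‖fderiv ℝ (Φ t) x - ContinuousLinearMap.id ℝ (Ed d) - t • fderiv ℝ X x‖ ≤ C * t ^ 2
  supp : ∀ t ∈ Ioo (-τ) τ, ∀ x, x ∉ tsupport X → Φ t x = x

/-- The flow maps `D` into itself. -/
def Pres (D : Set (Ed d)) (τ : ℝ) (Φ : ℝ → Ed d → Ed d) : Prop :=
  ∀ t ∈ Ioo (-τ) τ, ∀ x ∈ D, Φ t x ∈ D

/-- Pull back of the one form `u` by `Φ t`. -/
noncomputable def pb (Φ : ℝ → Ed d → Ed d) (t : ℝ) (u : Ed d → Ed d) (x : Ed d) : Ed d :=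
  ContinuousLinearMap.adjoint (fderiv ℝ (Φ t) x) (u (Φ t x))

/-- The Lie derivative of the one form `u`. -/
noncomputable def lie (X u : Ed d → Ed d) (x : Ed d) : Ed d :=
  fderiv ℝ u x (X x) + ContinuousLinearMap.adjoint (fderiv ℝ X x) (u x)

/-- The differential of the determinant at the identity, applied to `DX`; it is the divergence of `X`, but this is
never used. -/
noncomputable def dv (X : Ed d → Ed d) (x : Ed d) : ℝ :=
  fderiv ℝ (fun B : Ed d →L[ℝ] Ed d => B.det) (ContinuousLinearMap.id ℝ (Ed d)) (fderiv ℝ X x)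

/-- Divergence. -/
noncomputable def divg (u : Ed d → Ed d) (x : Ed d) : ℝ := ∑ i, fderiv ℝ u x (ee i) i

/-- The matrix `DX + DXᵀ - div X`. -/
noncomputable def SX (X : Ed d → Ed d) (x : Ed d) : Ed d →L[ℝ] Ed d :=
  fderiv ℝ X x + ContinuousLinearMap.adjoint (fderiv ℝ X x) - dv X x • ContinuousLinearMap.id ℝ (Ed d)

/-- A smooth field with compact support which is tangential to the boundary of `D = {z > 0}`. -/
structure IsTan (z : Ed d → ℝ) (X : Ed d → Ed d) : Prop where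
  sm : Sm X
  cpt : HasCompactSupport X
  tan : ∃ c : Ed d → ℝ, Continuous c ∧ ∀ x, fderiv ℝ z x (X x) = c x * z x

end Pool.Agent.Lib.MP_79abb3_an.W.B
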