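import Pool.Agent.Lib.MP_79abb3_an.W.BT3

/-!
Theorem W, block B: the equation of a difference quotient.
-/

set_option autoImplicit false
set_option linter.unusedSectionVars false

open MeasureTheory Set Filter Topology Function
open scoped RealInnerProductSpace ENNReal NNReal

namespace Pool.Agent.Lib.MP_79abb3_an.W.B

variable {d : ℕ} {X : Ed d → Ed d} {τ C : ℝ} {Φ : ℝ → Ed d → Ed d} {D : Set (Ed d)}

theorem bt8_inner {u v : Ed d → Ed d} {μ : Measure (Ed d)} (hu : MemLp u 2 μ) (hv : MemLp v 2 μ) :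
    Integrable (fun x => ⟪u x, v x⟫) μ ∧ ∫ x, ⟪u x, v x⟫ ∂μ = ⟪hu.toLp u, hv.toLp v⟫ := by
  have h1 := L2.integrable_inner (𝕜 := ℝ) (hu.toLp u) (hv.toLp v)
  have h2 : (fun x => ⟪(hu.toLp u) x, (hv.toLp v) x⟫) =ᵐ[μ] fun x => ⟪u x, v x⟫ := by
    filter_upwards [hu.coeFn_toLp, hv.coeFn_toLp] with x h1 h2
    rw [h1, h2]
  exact ⟨h1.congr h2, by rw [L2.inner_def]; exact (integral_congr_ae h2).symm⟩

theorem bt8_grad_cont {φ : Ed d → ℝ} (hφ : IsT1 φ) : Continuous (gradient φ) :=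
  (InnerProductSpace.toDual ℝ (Ed d)).symm.continuous.comp (hφ.c1.continuous_fderiv one_ne_zero)

theorem bt8_grad_cpt {φ : Ed d → ℝ} (hφ : IsT1 φ) : HasCompactSupport (gradient φ) :=
  (hφ.cpt.fderiv (𝕜 := ℝ)).comp_left (g := (InnerProductSpace.toDual ℝ (Ed d)).symm) (map_zero _)

theorem bt8_grad_mem {φ : Ed d → ℝ} (hφ : IsT1 φ) : MemLp (gradient φ) 2 (volume.restrict D) :=
  (bt8_grad_cont hφ).memLp_of_hasCompactSupport (bt8_grad_cpt hφ)

theorem bt8_mem {φ : Ed d → ℝ} (hφ : IsT1 φ) : MemLp φ 2 (volume.restrict D) :=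
  hφ.c1.continuous.memLp_of_hasCompactSupport hφ.cpt

theorem bt8_Th_cont (hΦ : IsFl X τ C Φ) {t : ℝ} (ht : t ∈ Ioo (-τ) τ) : Continuous (Th Φ t) := by
  have htn : -t ∈ Ioo (-τ) τ := ⟨by linarith [ht.2], by linarith [ht.1]⟩
  have h1 : Continuous (fun y => fderiv ℝ (Φ (-t)) y) :=
    (hΦ.c1 (-t) htn).continuous_fderiv one_ne_zero
  have h2 : Continuous (fun y => fderiv ℝ (Φ t) (Φ (-t) y)) :=
    ((hΦ.c1 t ht).continuous_fderiv one_ne_zero).comp (hΦ.c1 (-t) htn).continuous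
  have h3 : Continuous (fun y => |(fderiv ℝ (Φ (-t)) y).det|) :=
    (ContinuousLinearMap.continuous_det.comp h1).abs
  have h4 : Continuous (fun y => ContinuousLinearMap.adjoint (fderiv ℝ (Φ (-t)) y)) :=
    (ContinuousLinearMap.adjoint (𝕜 := ℝ) (E := Ed d) (F := Ed d)).continuous.comp h1
  exact (h3.smul h2).sub h4

theorem bt8_Th_mem (hΦ : IsFl X τ C Φ) {t : ℝ} (ht : t ∈ Ioo (-τ) τ) {φ : Ed d → ℝ} (hφ : IsT1 φ) :
    MemLp (fun y => Th Φ t y (gradient φ (Φ (-t) y))) 2 (volume.restrict D) := by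
  have htn : -t ∈ Ioo (-τ) τ := ⟨by linarith [ht.2], by linarith [ht.1]⟩
  apply Continuous.memLp_of_hasCompactSupport
  · exact (bt8_Th_cont hΦ ht).clm_apply ((bt8_grad_cont hφ).comp (hΦ.c1 (-t) htn).continuous)
  · apply HasCompactSupport.intro (K := Φ t '' tsupport (gradient φ))
    · exact (bt8_grad_cpt hφ).isCompact.image (hΦ.c1 t ht).continuous
    · intro x hx
      have h0 : gradient φ (Φ (-t) x) = 0 := by
        by_contra hne
        apply hx
        refine ⟨Φ (-t) x, subset_tsupport _ hne, ?_⟩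
        have := hΦ.inv (-t) htn x
        rwa [neg_neg] at this
      rw [h0, map_zero]

/-- The equation of the difference `pb Φ t γ - γ`: `pb_dual` for `u = γ - F`, the equation of `γ` for the test functions
`φ ∘ Φ (-t)` and `φ`. -/
theorem quot_eq (hΦ : IsFl X τ C Φ) (hP : Pres D τ Φ) (hD : IsOpen D) {F γ : Ed d → Ed d} {f : Ed d → ℝ}
    (h : IsQ D F f γ) {t : ℝ} (ht : t ∈ Ioo (-τ) τ) {φ : Ed d → ℝ} (hφ : IsT1 φ) :
    ∫ x in D, ⟪(pb Φ t γ x - γ x) - (pb Φ t F x - F x), gradient φ x⟫ =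
      (∫ x in D, ⟪γ x - F x, Th Φ t x (gradient φ (Φ (-t) x))⟫) -
        ∫ x in D, f x * (φ (Φ (-t) x) - φ x) := by
  have htn : -t ∈ Ioo (-τ) τ := ⟨by linarith [ht.2], by linarith [ht.1]⟩
  have hψ : IsT1 (fun y => φ (Φ (-t) y)) := IsT1.comp hΦ htn hφ
  have hu : MemLp (fun x => γ x - F x) 2 (volume.restrict D) := h.inG.mem.sub h.memF
  have hpu := memLp_pb hΦ hP hD ht hu
  have hgφ := bt8_grad_mem (D := D) hφ
  have hgψ := bt8_grad_mem (D := D) hψ
  have hT := bt8_Th_mem (D := D) hΦ ht hφ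
  have e1 : ∫ x in D, ⟪(pb Φ t γ x - γ x) - (pb Φ t F x - F x), gradient φ x⟫ =
      (∫ x in D, ⟪pb Φ t (fun x => γ x - F x) x, gradient φ x⟫) -
        ∫ x in D, ⟪γ x - F x, gradient φ x⟫ := by
    rw [← integral_sub (bt8_inner hpu hgφ).1 (bt8_inner hu hgφ).1]
    apply integral_congr_ae
    filter_upwards with x
    rw [pb_sub, ← inner_sub_left, sub_sub_sub_comm]
  have e2 := pb_dual hΦ hP hD ht hu hφ
  have e3 : ∫ y in D, ⟪γ y - F y, gradient (fun y => φ (Φ (-t) y)) y +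
      Th Φ t y (gradient φ (Φ (-t) y))⟫ =
      (∫ y in D, ⟪γ y - F y, gradient (fun y => φ (Φ (-t) y)) y⟫) +
        ∫ y in D, ⟪γ y - F y, Th Φ t y (gradient φ (Φ (-t) y))⟫ := by
    rw [← integral_add (bt8_inner hu hgψ).1 (bt8_inner hu hT).1]
    apply integral_congr_ae
    filter_upwards with x
    rw [inner_add_right]
  have hfψ : Integrable (fun x => f x * φ (Φ (-t) x)) (volume.restrict D) :=
    h.memf.integrable_mul (bt8_mem hψ)
  have hfφ : Integrable (fun x => f x * φ x) (volume.restrict D) :=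
    h.memf.integrable_mul (bt8_mem hφ)
  have e4 := h.eq _ hψ
  rw [integral_add (bt8_inner hu hgψ).1 hfψ] at e4
  have e5 := h.eq _ hφ
  rw [integral_add (bt8_inner hu hgφ).1 hfφ] at e5
  have e6 : ∫ x in D, f x * (φ (Φ (-t) x) - φ x) =
      (∫ x in D, f x * φ (Φ (-t) x)) - ∫ x in D, f x * φ x := by
    rw [← integral_sub hfψ hfφ]
    apply integral_congr_ae
    filter_upwards with x
    ring
  rw [e1, e2, e3, e6]
  linarith

/-- If `v ∈ G(D)` and `|∫_D ⟨v - w, ∇φ⟩| ≤ κ |∇φ|_{L²(D)}` for all test functions, then `|v| ≤ |w| + κ`: take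
`∇φ` close to `v`. -/
theorem InG.le_of_test {v w : Ed d → Ed d} (hv : InG D v) (hw : MemLp w 2 (volume.restrict D)) {κ : ℝ}
    (hκ : 0 ≤ κ) (h : ∀ φ, IsT1 φ → |∫ x in D, ⟪v x - w x, gradient φ x⟫| ≤
      κ * (eLpNorm (gradient φ) 2 (volume.restrict D)).toReal) :
    eLpNorm v 2 (volume.restrict D) ≤ eLpNorm w 2 (volume.restrict D) + ENNReal.ofReal κ := by
  set V := hv.mem.toLp v with hV
  set W := hw.toLp w with hW
  have nV : eLpNorm v 2 (volume.restrict D) = ENNReal.ofReal ‖V‖ := by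
    rw [hV, Lp.norm_toLp, ENNReal.ofReal_toReal hv.mem.eLpNorm_ne_top]
  have nW : eLpNorm w 2 (volume.restrict D) = ENNReal.ofReal ‖W‖ := by
    rw [hW, Lp.norm_toLp, ENNReal.ofReal_toReal hw.eLpNorm_ne_top]
  rw [nV, nW, ← ENNReal.ofReal_add (norm_nonneg _) hκ]
  apply ENNReal.ofReal_le_ofReal
  -- the inequality for the squares
  have key : ‖V‖ ^ 2 ≤ (‖W‖ + κ) * ‖V‖ := by
    apply le_of_forall_pos_le_add
    intro ε hε
    set M : ℝ := κ + ‖V - W‖ + 1 with hM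
    have hMpos : 0 < M := by positivity
    obtain ⟨φ, hφ, hap⟩ := hv.ap (ENNReal.ofReal (ε / M)) (by
      rw [Ne, ENNReal.ofReal_eq_zero, not_le]; positivity)
    have hg := bt8_grad_mem (D := D) hφ
    set G := hg.toLp (gradient φ) with hG
    have hVG : ‖V - G‖ ≤ ε / M := by
      rw [hV, hG, ← MemLp.toLp_sub, Lp.norm_toLp]
      exact ENNReal.toReal_le_of_le_ofReal (by positivity) hap
    have h1 := h φ hφ
    have hvw : MemLp (fun x => v x - w x) 2 (volume.restrict D) := hv.mem.sub hw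
    rw [(bt8_inner hvw hg).2] at h1
    have hsub : hvw.toLp (fun x => v x - w x) = V - W := MemLp.toLp_sub hv.mem hw
    have hGn : (eLpNorm (gradient φ) 2 (volume.restrict D)).toReal = ‖G‖ := by
      rw [hG, Lp.norm_toLp]
    rw [hsub, hGn] at h1
    have h2 : ‖V‖ ^ 2 = ⟪V - W, G⟫ + ⟪V - W, V - G⟫ + ⟪W, V⟫ := by
      rw [← real_inner_self_eq_norm_sq]
      rw [← inner_add_right, add_sub_cancel, ← inner_add_left, sub_add_cancel]
    have h3 : ⟪V - W, G⟫ ≤ κ * ‖G‖ := (le_abs_self _).trans h1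
    have h4 : ⟪V - W, V - G⟫ ≤ ‖V - W‖ * ‖V - G‖ := real_inner_le_norm _ _
    have h5 : ⟪W, V⟫ ≤ ‖W‖ * ‖V‖ := real_inner_le_norm _ _
    have h6 : ‖G‖ ≤ ‖V‖ + ‖V - G‖ := by
      have := norm_sub_norm_le G V
      rw [norm_sub_rev] at this
      linarith
    have h7 : κ * ‖G‖ ≤ κ * ‖V‖ + κ * ‖V - G‖ := by
      rw [← mul_add]; exact mul_le_mul_of_nonneg_left h6 hκ
    have h8 : κ * ‖V - G‖ + ‖V - W‖ * ‖V - G‖ ≤ ε := by
      have h9 : (κ + ‖V - W‖) * ‖V - G‖ ≤ M * (ε / M) := by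
        apply mul_le_mul _ hVG (norm_nonneg _) hMpos.le
        rw [hM]; linarith
      rw [mul_div_cancel₀ _ hMpos.ne'] at h9
      linarith
    rw [h2]
    linarith
  rcases (norm_nonneg V).eq_or_lt with h0 | h0
  · rw [← h0]; positivity
  · by_contra hcon
    push Not at hcon
    have : (‖W‖ + κ) * ‖V‖ < ‖V‖ * ‖V‖ := mul_lt_mul_of_pos_right hcon h0
    nlinarith

/-- `G(D)` is a linear space. -/
theorem InG.sub {v w : Ed d → Ed d} (hv : InG D v) (hw : InG D w) : InG D (fun x => v x - w x) := by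
  refine ⟨hv.mem.sub hw.mem, fun ε hε => ?_⟩
  have hε2 : ε / 2 ≠ 0 := ENNReal.div_ne_zero.mpr ⟨hε, ENNReal.ofNat_ne_top⟩
  obtain ⟨φ, hφ, h1⟩ := hv.ap (ε / 2) hε2
  obtain ⟨ψ, hψ, h2⟩ := hw.ap (ε / 2) hε2
  refine ⟨fun x => φ x - ψ x, ⟨hφ.c1.sub hψ.c1, hφ.cpt.sub hψ.cpt⟩, ?_⟩
  have hgr : ∀ x, gradient (fun x => φ x - ψ x) x = gradient φ x - gradient ψ x := by
    intro x
    unfold gradient
    rw [show (fun x => φ x - ψ x) = φ - ψ from rfl, fderiv_sub
      (hφ.c1.differentiable one_ne_zero x) (hψ.c1.differentiable one_ne_zero x), map_sub]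
  have hfun : (fun x => v x - w x - gradient (fun x => φ x - ψ x) x) =
      (fun x => v x - gradient φ x) - fun x => w x - gradient ψ x := by
    funext x
    rw [hgr]
    simp only [Pi.sub_apply]
    abel
  rw [hfun]
  refine (eLpNorm_sub_le ((hv.mem.sub (bt8_grad_mem hφ)).aestronglyMeasurable)
    ((hw.mem.sub (bt8_grad_mem hψ)).aestronglyMeasurable) (by norm_num)).trans ?_
  calc _ ≤ ε / 2 + ε / 2 := add_le_add h1 h2
    _ = ε := ENNReal.add_halves ε

theorem InG.smul {v : Ed d → Ed d} (hv : InG D v) (c : ℝ) : InG D (fun x => c • v x) := by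
  refine ⟨hv.mem.const_smul c, fun ε hε => ?_⟩
  have hc1 : ‖c‖ₑ + 1 ≠ ⊤ := by simp
  have hc0 : ‖c‖ₑ + 1 ≠ 0 := by simp
  obtain ⟨φ, hφ, h1⟩ := hv.ap (ε / (‖c‖ₑ + 1)) (ENNReal.div_ne_zero.mpr ⟨hε, hc1⟩)
  refine ⟨fun x => c • φ x, ⟨hφ.c1.const_smul c, hφ.cpt.smul_left (f := fun _ => c)⟩, ?_⟩
  have hgr : ∀ x, gradient (fun x => c • φ x) x = c • gradient φ x := by
    intro x
    unfold gradient
    rw [show (fun x => c • φ x) = c • φ from rfl, fderiv_const_smul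
      (hφ.c1.differentiable one_ne_zero x), map_smul]
  have hfun : (fun x => c • v x - gradient (fun x => c • φ x) x) =
      c • (fun x => v x - gradient φ x) := by
    funext x
    rw [hgr]
    simp only [Pi.smul_apply, smul_sub]
  rw [hfun, eLpNorm_const_smul]
  calc ‖c‖ₑ * eLpNorm (fun x => v x - gradient φ x) 2 (volume.restrict D)
      ≤ (‖c‖ₑ + 1) * (ε / (‖c‖ₑ + 1)) := mul_le_mul' le_self_add h1
    _ = ε := ENNReal.mul_div_cancel hc0 hc1

/-- `G(D)` is closed. -/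
theorem InG.of_tendsto {v : Ed d → Ed d} (hv : MemLp v 2 (volume.restrict D)) {w : ℕ → Ed d → Ed d}
    (hw : ∀ n, InG D (w n))
    (h : Tendsto (fun n => eLpNorm (fun x => w n x - v x) 2 (volume.restrict D)) atTop (𝓝 0)) :
    InG D v := by
  refine ⟨hv, fun ε hε => ?_⟩
  have hε2 : ε / 2 ≠ 0 := ENNReal.div_ne_zero.mpr ⟨hε, ENNReal.ofNat_ne_top⟩
  have h1 : ∀ᶠ n in atTop, eLpNorm (fun x => w n x - v x) 2 (volume.restrict D) < ε / 2 :=
    h.eventually (gt_mem_nhds (pos_iff_ne_zero.mpr hε2))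
  obtain ⟨n, hn⟩ := h1.exists
  obtain ⟨φ, hφ, h2⟩ := (hw n).ap (ε / 2) hε2
  refine ⟨φ, hφ, ?_⟩
  have hfun : (fun x => v x - gradient φ x) =
      (fun x => w n x - gradient φ x) - fun x => w n x - v x := by
    funext x
    simp only [Pi.sub_apply]
    abel
  rw [hfun]
  refine (eLpNorm_sub_le (((hw n).mem.sub (bt8_grad_mem hφ)).aestronglyMeasurable)
    (((hw n).mem.sub hv).aestronglyMeasurable) (by norm_num)).trans ?_
  calc _ ≤ ε / 2 + ε / 2 := add_le_add h2 hn.le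
    _ = ε := ENNReal.add_halves ε

end Pool.Agent.Lib.MP_79abb3_an.W.B
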