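import Pool.Agent.Lib.MP_79abb3_an.W.BDef

/-!
Theorem W, block B: definitions for the Weyl lemma.
-/

set_option autoImplicit false
set_option linter.unusedSectionVars false

open MeasureTheory Set Filter Topology Function
open scoped RealInnerProductSpace ENNReal NNReal

namespace Pool.Agent.Lib.MP_79abb3_an.W.B

variable {d : ℕ}

/-- The Laplacian. -/
noncomputable def lap (φ : Ed d → ℝ) (x : Ed d) : ℝ :=
  ∑ i, fderiv ℝ (fun y => fderiv ℝ φ y (ee i)) x (ee i)

/-- Scaled kernels `τ^{-d} ρ(y/τ)`. -/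
noncomputable def ker (ρ : Ed d → ℝ) (τ : ℝ) (y : Ed d) : ℝ := (τ ^ d)⁻¹ * ρ (τ⁻¹ • y)

/-- Smooth functions with compact support in `D`. -/
structure IsTe {G : Type} [NormedAddCommGroup G] [NormedSpace ℝ G] (D : Set (Ed d)) (φ : Ed d → G) : Prop where
  sm : Sm φ
  cpt : HasCompactSupport φ
  supp : tsupport φ ⊆ D

/-- A radial kernel `ρ` with its potential `P`, `∇P = ρ(y) y`. -/
structure IsRad (ρ P : Ed d → ℝ) : Prop where
  smr : Sm ρ
  smP : Sm P
  nn : ∀ x, 0 ≤ ρ x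
  suppr : tsupport ρ ⊆ Metric.ball 0 1
  suppP : tsupport P ⊆ Metric.ball 0 1
  one : ∫ x, ρ x = 1
  grad : ∀ x, gradient P x = ρ x • x

end Pool.Agent.Lib.MP_79abb3_an.W.B
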