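import Pool.Agent.Lib.MP_79abb3_an.W.BP1
import Pool.Agent.Lib.MP_79abb3_an.W.BT8
import Pool.Agent.Lib.MP_79abb3_an.W.BW0

/-!
Theorem W, block B: the potential of a weak solution.
-/

set_option autoImplicit false
set_option linter.unusedSectionVars false
set_option linter.unusedVariables false

open MeasureTheory Set Filter Topology Function
open scoped RealInnerProductSpace ENNReal NNReal

namespace Pool.Agent.Lib.MP_79abb3_an.W.B

variable {d : ℕ} {D : Set (Ed d)} {z : Ed d → ℝ} {δ : ℝ}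

/-- `q ∈ H¹(D)` with gradient `γ`: a limit of test functions. -/
structure InH (D : Set (Ed d)) (q : Ed d → ℝ) (γ : Ed d → Ed d) : Prop where
  memq : MemLp q 2 (volume.restrict D)
  memg : MemLp γ 2 (volume.restrict D)
  ap : ∀ ε : ℝ≥0∞, ε ≠ 0 → ∃ φ : Ed d → ℝ, IsT1 φ ∧ eLpNorm (fun x => q x - φ x) 2 (volume.restrict D) ≤ ε ∧
    eLpNorm (fun x => γ x - gradient φ x) 2 (volume.restrict D) ≤ ε

private theorem be2_fin (hb : Bornology.IsBounded D) :
    IsFiniteMeasure ((volume : Measure (Ed d)).restrict D) :=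
  ⟨by rw [Measure.restrict_apply_univ]; exact hb.measure_lt_top⟩

private theorem be2_grad_sub {φ ψ : Ed d → ℝ} (hφ : ContDiff ℝ 1 φ) (hψ : ContDiff ℝ 1 ψ) :
    gradient (fun x => φ x - ψ x) = fun x => gradient φ x - gradient ψ x := by
  funext x
  unfold gradient
  rw [fderiv_fun_sub (hφ.differentiable one_ne_zero x) (hψ.differentiable one_ne_zero x), map_sub]

/-- a test function which is equal to one near `D` -/
private theorem be2_cut (hb : Bornology.IsBounded D) : ∃ χ : Ed d → ℝ, IsT1 χ ∧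
    ∀ x ∈ D, χ =ᶠ[𝓝 x] fun _ => 1 := by
  obtain ⟨r, hr⟩ := hb.subset_ball (0 : Ed d)
  have hr' : D ⊆ Metric.ball (0 : Ed d) (max r 1) :=
    hr.trans (Metric.ball_subset_ball (le_max_left _ _))
  have r1 : 0 < max r 1 := lt_max_of_lt_right one_pos
  let χ : ContDiffBump (0 : Ed d) := ⟨max r 1, max r 1 + 1, r1, by linarith⟩
  exact ⟨χ, ⟨χ.contDiff, χ.hasCompactSupport⟩, fun x hx =>
    χ.eventuallyEq_one_of_mem_ball (hr' hx)⟩

/-- subtracting a constant near `D` -/
private theorem be2_const {χ : Ed d → ℝ} (hχ : IsT1 χ) (h1 : ∀ x ∈ D, χ =ᶠ[𝓝 x] fun _ => 1)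
    {φ : Ed d → ℝ} (hφ : IsT1 φ) (m : ℝ) : IsT1 (fun x => φ x - m * χ x) ∧
    (∀ x ∈ D, φ x - m * χ x = φ x - m) ∧
    ∀ x ∈ D, gradient (fun x => φ x - m * χ x) x = gradient φ x := by
  refine ⟨⟨hφ.c1.sub (contDiff_const.mul hχ.c1), hφ.cpt.sub hχ.cpt.mul_left⟩, fun x hx => ?_,
    fun x hx => ?_⟩
  · rw [(h1 x hx).self_of_nhds, mul_one]
  · have h2 : (fun x => φ x - m * χ x) =ᶠ[𝓝 x] fun x => φ x - m := by
      filter_upwards [h1 x hx] with y hy
      rw [hy, mul_one]
    unfold gradient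
    rw [h2.fderiv_eq, fderiv_sub_const]

/-- Potentials: choose test functions with `∇φ_n → γ` and subtract constants (times a cut-off which is `1` on `D`);
by Poincaré's inequality they are a Cauchy sequence in `L²(D)`. -/
theorem InG.exists_pot (hD : IsOpen D) (hb : Bornology.IsBounded D) (hP : PI D D) {γ : Ed d → Ed d}
    (h : InG D γ) : ∃ q : Ed d → ℝ, InH D q γ ∧ ∫ x in D, q x = 0 := by
  have hfin := be2_fin (d := d) hb
  obtain ⟨C, hC⟩ := hP
  obtain ⟨χ, hχ, hχ1⟩ := be2_cut hb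
  choose φ hφ hφ2 using fun n : ℕ => h.ap (ENNReal.ofReal ((1 / 2) ^ n))
    (by rw [Ne, ENNReal.ofReal_eq_zero, not_le]; positivity)
  choose c hc using fun n => hC (fun x => φ (n + 1) x - φ n x) ((hφ (n + 1)).c1.sub (hφ n).c1)
  obtain ⟨s, hs⟩ : ∃ s : ℕ → ℝ, ∀ n, s (n + 1) = s n + c n :=
    ⟨fun n => ∑ k ∈ Finset.range n, c k, fun n => Finset.sum_range_succ _ _⟩
  have hψ : ∀ n, MemLp (fun x => φ n x - s n) 2 (volume.restrict D) := fun n =>
    (bt8_mem (hφ n)).sub (memLp_const _)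
  have hgr : ∀ n, eLpNorm (gradient fun x => φ (n + 1) x - φ n x) 2 (volume.restrict D) ≤
      ENNReal.ofReal (2 * (1 / 2) ^ n) := by
    intro n
    rw [be2_grad_sub (hφ (n + 1)).c1 (hφ n).c1]
    have e : (fun x => gradient (φ (n + 1)) x - gradient (φ n) x) =
        (fun x => γ x - gradient (φ n) x) - fun x => γ x - gradient (φ (n + 1)) x := by
      funext x
      show gradient (φ (n + 1)) x - gradient (φ n) x =
        (γ x - gradient (φ n) x) - (γ x - gradient (φ (n + 1)) x)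
      abel
    rw [e]
    refine (eLpNorm_sub_le (h.mem.1.sub (bt8_grad_mem (hφ n)).1)
      (h.mem.1.sub (bt8_grad_mem (hφ (n + 1))).1) one_le_two).trans ?_
    refine (add_le_add (hφ2 n) (hφ2 (n + 1))).trans ?_
    rw [← ENNReal.ofReal_add (by positivity) (by positivity)]
    refine ENNReal.ofReal_le_ofReal ?_
    have : (0:ℝ) ≤ (1 / 2) ^ n := by positivity
    rw [pow_succ]
    linarith
  have hdist : ∀ n, dist ((hψ n).toLp _) ((hψ (n + 1)).toLp _) ≤ (C : ℝ) * 2 * (1 / 2) ^ n := by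
    intro n
    rw [dist_comm, dist_eq_norm, ← MemLp.toLp_sub, Lp.norm_toLp]
    refine ENNReal.toReal_le_of_le_ofReal (by positivity) ?_
    have e : ((fun x => φ (n + 1) x - s (n + 1)) - fun x => φ n x - s n) =
        fun x => (φ (n + 1) x - φ n x) - c n := by
      funext x
      show (φ (n + 1) x - s (n + 1)) - (φ n x - s n) = _
      rw [hs n]
      ring
    rw [e]
    refine (hc n).trans ?_
    rw [mul_assoc, ENNReal.ofReal_mul (by positivity), ENNReal.ofReal_coe_nnreal]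
    gcongr
    exact hgr n
  obtain ⟨Q, hQ⟩ := cauchySeq_tendsto_of_complete
    (cauchySeq_of_le_geometric (1 / 2 : ℝ) ((C : ℝ) * 2) (by norm_num) hdist)
  rw [Lp.tendsto_Lp_iff_tendsto_eLpNorm'] at hQ
  obtain ⟨m, hm⟩ : ∃ m : ℝ, m = ((volume.restrict D).real univ)⁻¹ * ∫ x in D, Q x := ⟨_, rfl⟩
  have hQm : MemLp (Q : Ed d → ℝ) 2 (volume.restrict D) := Lp.memLp Q
  refine ⟨fun x => Q x - m, ⟨hQm.sub (memLp_const _), h.mem, fun ε hε => ?_⟩, ?_⟩
  · have hε0 : 0 < ε := pos_iff_ne_zero.2 hε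
    have h1 : ∀ᶠ n : ℕ in atTop, ENNReal.ofReal ((1 / 2 : ℝ) ^ n) < ε := by
      have h2 : Tendsto (fun n : ℕ => ENNReal.ofReal ((1 / 2 : ℝ) ^ n)) atTop
          (𝓝 (ENNReal.ofReal 0)) :=
        ENNReal.tendsto_ofReal (tendsto_pow_atTop_nhds_zero_of_lt_one (by norm_num) (by norm_num))
      rw [ENNReal.ofReal_zero] at h2
      exact h2.eventually_lt_const hε0
    obtain ⟨n, h2, h3⟩ := (h1.and (hQ.eventually_lt_const hε0)).exists
    obtain ⟨t1, t2, t3⟩ := be2_const hχ hχ1 (hφ n) (s n + m)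
    refine ⟨_, t1, ?_, ?_⟩
    · refine le_trans (le_of_eq ?_) h3.le
      rw [← eLpNorm_neg]
      refine eLpNorm_congr_ae ?_
      filter_upwards [(hψ n).coeFn_toLp, ae_restrict_mem hD.measurableSet] with x hx hxD
      show -(Q x - m - (φ n x - (s n + m) * χ x)) = ((hψ n).toLp _) x - Q x
      rw [hx, t2 x hxD]
      ring
    · refine le_trans (le_of_eq ?_) ((hφ2 n).trans h2.le)
      refine eLpNorm_congr_ae ?_
      filter_upwards [ae_restrict_mem hD.measurableSet] with x hxD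
      rw [t3 x hxD]
  · have hQi : Integrable (Q : Ed d → ℝ) (volume.restrict D) := hQm.integrable one_le_two
    rw [integral_sub hQi (integrable_const _), integral_const, smul_eq_mul, hm]
    by_cases h0 : (volume.restrict D).real univ = 0
    · have h1 : ∫ x in D, Q x = 0 := by
        rw [measureReal_eq_zero_iff] at h0
        refine integral_eq_zero_of_ae ?_
        rw [Filter.EventuallyEq, ae_iff]
        exact measure_mono_null (subset_univ _) h0
      rw [h1, mul_zero, mul_zero, sub_zero]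
    · field_simp
      ring

private theorem be2_sq {α : Type} [MeasurableSpace α] {μ : Measure α} {q : α → ℝ}
    (hq : MemLp q 2 μ) : eLpNorm q 2 μ = ENNReal.ofReal (√(∫ x, q x ^ 2 ∂μ)) := by
  rw [hq.eLpNorm_eq_integral_rpow_norm two_ne_zero ENNReal.ofNat_ne_top]
  congr 1
  rw [Real.sqrt_eq_rpow]
  have e : (2 : ℝ≥0∞).toReal = 2 := rfl
  rw [e, one_div]
  congr 1
  refine integral_congr_ae (Eventually.of_forall fun x => ?_)
  show ‖q x‖ ^ (2:ℝ) = q x ^ 2
  rw [Real.rpow_two, Real.norm_eq_abs, sq_abs]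

/-- a function with mean zero is orthogonal to the constants -/
private theorem be2_mean {α : Type} [MeasurableSpace α] {μ : Measure α} [IsFiniteMeasure μ]
    {q : α → ℝ} (hq : MemLp q 2 μ) (h0 : ∫ x, q x ∂μ = 0) (c : ℝ) :
    eLpNorm q 2 μ ≤ eLpNorm (fun x => q x - c) 2 μ := by
  have hqc : MemLp (fun x => q x - c) 2 μ := hq.sub (memLp_const _)
  rw [be2_sq hq, be2_sq hqc]
  refine ENNReal.ofReal_le_ofReal (Real.sqrt_le_sqrt ?_)
  have hi : Integrable q μ := hq.integrable one_le_two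
  have e : (fun x => (q x - c) ^ 2) = fun x => q x ^ 2 + (c ^ 2 - 2 * c * q x) := by
    funext x; ring
  have i2 : Integrable (fun x => c ^ 2 - 2 * c * q x) μ :=
    (integrable_const _).sub (hi.const_mul _)
  rw [e, integral_add hq.integrable_sq i2,
    integral_sub (integrable_const _) (hi.const_mul _), integral_const_mul, h0, mul_zero, sub_zero,
    integral_const, smul_eq_mul]
  have : 0 ≤ μ.real univ * c ^ 2 := mul_nonneg measureReal_nonneg (sq_nonneg _)
  linarith

/-- Poincaré's inequality for the limit. -/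
theorem InH.bound (hD : IsOpen D) (hb : Bornology.IsBounded D) (hP : PI D D) : ∃ C : ℝ≥0,
    ∀ (q : Ed d → ℝ) (γ : Ed d → Ed d), InH D q γ → ∫ x in D, q x = 0 →
      eLpNorm q 2 (volume.restrict D) ≤ C * eLpNorm γ 2 (volume.restrict D) := by
  have hfin := be2_fin (d := d) hb
  obtain ⟨C, hC⟩ := hP
  refine ⟨C, fun q γ h h0 => ?_⟩
  refine ENNReal.le_of_forall_pos_le_add fun ε hε _ => ?_
  have hC1 : (1 + C : ℝ≥0) ≠ 0 := by positivity
  obtain ⟨φ, hφ, h1, h2⟩ := h.ap ((ε / (1 + C) : ℝ≥0) : ℝ≥0∞) (by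
    rw [Ne, ENNReal.coe_eq_zero]
    exact (div_pos hε (by positivity)).ne')
  obtain ⟨c, hc⟩ := hC φ hφ.c1
  have h3 : eLpNorm (fun x => q x - c) 2 (volume.restrict D) ≤
      eLpNorm (fun x => q x - φ x) 2 (volume.restrict D) +
        eLpNorm (fun x => φ x - c) 2 (volume.restrict D) := by
    have e : (fun x => q x - c) = (fun x => q x - φ x) + fun x => φ x - c := by
      funext x
      show q x - c = q x - φ x + (φ x - c)
      ring
    rw [e]
    exact eLpNorm_add_le (h.memq.1.sub (bt8_mem hφ).1)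
      ((bt8_mem hφ).1.sub aestronglyMeasurable_const) one_le_two
  have h4 : eLpNorm (gradient φ) 2 (volume.restrict D) ≤
      eLpNorm γ 2 (volume.restrict D) + ((ε / (1 + C) : ℝ≥0) : ℝ≥0∞) := by
    have e : gradient φ = γ - fun x => γ x - gradient φ x := by
      funext x
      show gradient φ x = γ x - (γ x - gradient φ x)
      abel
    rw [e]
    exact (eLpNorm_sub_le h.memg.1 (h.memg.1.sub (bt8_grad_mem hφ).1) one_le_two).trans
      (add_le_add le_rfl h2)
  calc eLpNorm q 2 (volume.restrict D) ≤ eLpNorm (fun x => q x - c) 2 (volume.restrict D) :=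
        be2_mean h.memq h0 c
    _ ≤ ((ε / (1 + C) : ℝ≥0) : ℝ≥0∞) +
        C * (eLpNorm γ 2 (volume.restrict D) + ((ε / (1 + C) : ℝ≥0) : ℝ≥0∞)) :=
        h3.trans (add_le_add h1 (hc.trans (by gcongr)))
    _ = C * eLpNorm γ 2 (volume.restrict D) + ε := by
        have e : ((ε / (1 + C) : ℝ≥0) : ℝ≥0∞) + C * ((ε / (1 + C) : ℝ≥0) : ℝ≥0∞) = ε := by
          rw [← ENNReal.coe_mul, ← ENNReal.coe_add]
          congr 1
          field_simp
        rw [mul_add, add_comm, add_assoc, add_comm (C * ((ε / (1 + C) : ℝ≥0) : ℝ≥0∞)), e]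

private theorem be2_cs {α : Type} [MeasurableSpace α] {μ : Measure α} {f g : α → ℝ}
    (hf : MemLp f 2 μ) (hg : MemLp g 2 μ) : Integrable (fun x => f x * g x) μ ∧
    |∫ x, f x * g x ∂μ| ≤ (eLpNorm f 2 μ).toReal * (eLpNorm g 2 μ).toReal := by
  refine ⟨hf.integrable_mul hg, ?_⟩
  have h1 : ∫ x, f x * g x ∂μ = ⟪hg.toLp g, hf.toLp f⟫ := by
    rw [L2.inner_def]
    refine integral_congr_ae ?_
    filter_upwards [hf.coeFn_toLp, hg.coeFn_toLp] with x h1 h2
    rw [h1, h2]
    rfl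
  rw [h1]
  refine (abs_real_inner_le_norm _ _).trans ?_
  rw [Lp.norm_toLp, Lp.norm_toLp, mul_comm]

private theorem be2_coord {γ : Ed d → Ed d} (hγ : MemLp γ 2 (volume.restrict D)) (j : Fin d) :
    MemLp (fun x => γ x j) 2 (volume.restrict D) :=
  (EuclideanSpace.proj j : Ed d →L[ℝ] ℝ).comp_memLp' hγ

private theorem be2_gj (φ : Ed d → ℝ) (j : Fin d) (x : Ed d) :
    gradient φ x j = fderiv ℝ φ x (ee j) := by
  have h1 : ⟪gradient φ x, ee j⟫ = fderiv ℝ φ x (ee j) := InnerProductSpace.toDual_symm_apply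
  rw [← h1, EuclideanSpace.inner_single_right]
  simp

/-- `γ` is the weak gradient of `q`: limit of the integration by parts for the test functions. -/
theorem InH.weak (hD : IsOpen D) {q : Ed d → ℝ} {γ : Ed d → Ed d} (h : InH D q γ) {ψ : Ed d → ℝ}
    (hψ : IsTe D ψ) (j : Fin d) : ∫ x, q x * fderiv ℝ ψ x (ee j) = -∫ x, γ x j * ψ x := by
  have hψc : Continuous ψ := hψ.sm.continuous
  have hψd : Continuous fun x => fderiv ℝ ψ x (ee j) :=
    (hψ.sm.continuous_fderiv (by simp)).clm_apply continuous_const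
  have hcd : HasCompactSupport fun x => fderiv ℝ ψ x (ee j) := hψ.cpt.fderiv_apply ℝ (ee j)
  have hz1 : ∀ x, x ∉ D → ψ x = 0 := fun x hx => by
    by_contra h1
    exact hx (hψ.supp (subset_tsupport _ h1))
  have hz2 : ∀ x, x ∉ D → fderiv ℝ ψ x (ee j) = 0 := fun x hx => by
    by_contra h1
    refine hx (hψ.supp (support_fderiv_subset ℝ (fun h2 => h1 ?_)))
    rw [h2]; rfl
  have m1 : MemLp ψ 2 (volume.restrict D) := hψc.memLp_of_hasCompactSupport hψ.cpt
  have m2 : MemLp (fun x => fderiv ℝ ψ x (ee j)) 2 (volume.restrict D) :=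
    hψd.memLp_of_hasCompactSupport hcd
  have e1 : ∫ x, q x * fderiv ℝ ψ x (ee j) = ∫ x in D, q x * fderiv ℝ ψ x (ee j) :=
    (setIntegral_eq_integral_of_forall_compl_eq_zero fun x hx => by rw [hz2 x hx, mul_zero]).symm
  have e2 : ∫ x, γ x j * ψ x = ∫ x in D, γ x j * ψ x :=
    (setIntegral_eq_integral_of_forall_compl_eq_zero fun x hx => by rw [hz1 x hx, mul_zero]).symm
  rw [e1, e2]
  have mγ : MemLp (fun x => γ x j) 2 (volume.restrict D) := be2_coord h.memg j
  obtain ⟨A, hA⟩ : ∃ A : ℝ,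
    A = (eLpNorm (fun x => fderiv ℝ ψ x (ee j)) 2 (volume.restrict D)).toReal := ⟨_, rfl⟩
  obtain ⟨B, hB⟩ : ∃ B : ℝ, B = (eLpNorm ψ 2 (volume.restrict D)).toReal := ⟨_, rfl⟩
  have hA0 : 0 ≤ A := by rw [hA]; exact ENNReal.toReal_nonneg
  have hB0 : 0 ≤ B := by rw [hB]; exact ENNReal.toReal_nonneg
  have key : ∀ ε : ℝ, 0 < ε →
      |(∫ x in D, q x * fderiv ℝ ψ x (ee j)) + ∫ x in D, γ x j * ψ x| ≤ ε * (A + B) := by
    intro ε hε
    obtain ⟨φ, hφ, h1, h2⟩ := h.ap (ENNReal.ofReal ε) (by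
      rw [Ne, ENNReal.ofReal_eq_zero, not_le]; exact hε)
    have mφ : MemLp φ 2 (volume.restrict D) := bt8_mem hφ
    have mg : MemLp (fun x => gradient φ x j) 2 (volume.restrict D) :=
      be2_coord (bt8_grad_mem hφ) j
    have hgφ : ∀ x, gradient φ x j = fderiv ℝ φ x (ee j) := be2_gj φ j
    have hibp : (∫ x in D, φ x * fderiv ℝ ψ x (ee j)) + ∫ x in D, gradient φ x j * ψ x = 0 := by
      have f1 : ∫ x in D, φ x * fderiv ℝ ψ x (ee j) = ∫ x, φ x * fderiv ℝ ψ x (ee j) :=
        setIntegral_eq_integral_of_forall_compl_eq_zero fun x hx => by rw [hz2 x hx, mul_zero]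
      have f2 : ∫ x in D, gradient φ x j * ψ x = ∫ x, fderiv ℝ φ x (ee j) * ψ x := by
        rw [setIntegral_eq_integral_of_forall_compl_eq_zero fun x hx => by rw [hz1 x hx, mul_zero]]
        simp only [hgφ]
      have hφd : Continuous fun x => fderiv ℝ φ x (ee j) :=
        (hφ.c1.continuous_fderiv one_ne_zero).clm_apply continuous_const
      rw [f1, f2, integral_mul_fderiv_eq_neg_fderiv_mul_of_integrable
        ((hφd.mul hψc).integrable_of_hasCompactSupport hψ.cpt.mul_left)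
        ((hφ.c1.continuous.mul hψd).integrable_of_hasCompactSupport hcd.mul_left)
        ((hφ.c1.continuous.mul hψc).integrable_of_hasCompactSupport hψ.cpt.mul_left)
        (fun x _ => hφ.c1.differentiable one_ne_zero x)
        (fun x _ => hψ.sm.differentiable (by simp) x), neg_add_cancel]
    obtain ⟨i1, -⟩ := be2_cs h.memq m2
    obtain ⟨i2, -⟩ := be2_cs mφ m2
    obtain ⟨i3, -⟩ := be2_cs mγ m1
    obtain ⟨i4, -⟩ := be2_cs mg m1
    obtain ⟨-, b1⟩ := be2_cs (h.memq.sub mφ) m2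
    obtain ⟨-, b2⟩ := be2_cs (mγ.sub mg) m1
    have e3 : (∫ x in D, q x * fderiv ℝ ψ x (ee j)) + ∫ x in D, γ x j * ψ x =
        (∫ x in D, (q - φ) x * fderiv ℝ ψ x (ee j)) +
          ∫ x in D, ((fun x => γ x j) - fun x => gradient φ x j) x * ψ x := by
      have g1 : ∫ x in D, (q - φ) x * fderiv ℝ ψ x (ee j) =
          (∫ x in D, q x * fderiv ℝ ψ x (ee j)) - ∫ x in D, φ x * fderiv ℝ ψ x (ee j) := by
        rw [← integral_sub i1 i2]
        simp only [Pi.sub_apply, sub_mul]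
      have g2 : ∫ x in D, ((fun x => γ x j) - fun x => gradient φ x j) x * ψ x =
          (∫ x in D, γ x j * ψ x) - ∫ x in D, gradient φ x j * ψ x := by
        rw [← integral_sub i3 i4]
        simp only [Pi.sub_apply, sub_mul]
      rw [g1, g2]
      linarith
    rw [e3]
    have n1 : (eLpNorm (q - φ) 2 (volume.restrict D)).toReal ≤ ε :=
      ENNReal.toReal_le_of_le_ofReal hε.le h1
    have n2 : (eLpNorm ((fun x => γ x j) - fun x => gradient φ x j) 2
        (volume.restrict D)).toReal ≤ ε := by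
      refine ENNReal.toReal_le_of_le_ofReal hε.le (le_trans ?_ h2)
      refine eLpNorm_mono fun x => ?_
      exact PiLp.norm_apply_le (γ x - gradient φ x) j
    refine (abs_add_le _ _).trans ?_
    rw [mul_add, hA, hB]
    exact add_le_add (b1.trans (mul_le_mul_of_nonneg_right n1 ENNReal.toReal_nonneg))
      (b2.trans (mul_le_mul_of_nonneg_right n2 ENNReal.toReal_nonneg))
  have h0 : |(∫ x in D, q x * fderiv ℝ ψ x (ee j)) + ∫ x in D, γ x j * ψ x| ≤ 0 := by
    refine le_of_forall_pos_le_add fun ε hε => ?_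
    have hAB : 0 < A + B + 1 := by positivity
    refine (key (ε / (A + B + 1)) (by positivity)).trans ?_
    rw [zero_add, div_mul_eq_mul_div, div_le_iff₀ hAB]
    nlinarith
  have h1 := abs_eq_zero.1 (le_antisymm h0 (abs_nonneg _))
  linarith

end Pool.Agent.Lib.MP_79abb3_an.W.B
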