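import Pool.Agent.Lib.MP_79abb3_an.W.BDef

/-!
Theorem W, block B: flows, bounds for the field.
-/

set_option autoImplicit false
set_option linter.unusedSectionVars false

open MeasureTheory Set Filter Topology Function
open scoped RealInnerProductSpace ENNReal

namespace Pool.Agent.Lib.MP_79abb3_an.W.B

section

variable {E : Type*} [NormedAddCommGroup E] [NormedSpace ℝ E] {X : E → E}

private theorem fld_bound_taylor (hd : Differentiable ℝ X) {K2 : ℝ} (hK : 0 ≤ K2)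
    (hlip : ∀ x y, ‖fderiv ℝ X x - fderiv ℝ X y‖ ≤ K2 * ‖x - y‖) (x y : E) :
    ‖X y - X x - fderiv ℝ X x (y - x)‖ ≤ K2 * ‖y - x‖ ^ 2 := by
  have h1 := Convex.norm_image_sub_le_of_norm_fderiv_le' (f := X) (s := segment ℝ x y)
    (φ := fderiv ℝ X x) (C := K2 * ‖y - x‖) (x := x) (y := y) (fun z _ => hd z)
    (fun z hz => by
      refine (hlip z x).trans ?_
      gcongr
      obtain ⟨a, b, ha, hb, hab, rfl⟩ := hz
      have e : a • x + b • y - x = b • (y - x) := by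
        have : a = 1 - b := by linarith
        rw [this]
        module
      rw [e, norm_smul, Real.norm_of_nonneg hb]
      have : b ≤ 1 := by linarith
      calc b * ‖y - x‖ ≤ 1 * ‖y - x‖ := by gcongr
        _ = ‖y - x‖ := one_mul _)
    (convex_segment x y) (left_mem_segment ℝ x y) (right_mem_segment ℝ x y)
  refine h1.trans (le_of_eq ?_)
  ring

private theorem fld_bound_gen (hX : ContDiff ℝ 2 X) (hc : HasCompactSupport X) :
    ∃ K : ℝ, 0 ≤ K ∧ (∀ x, ‖X x‖ ≤ K) ∧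
    (∀ x, ‖fderiv ℝ X x‖ ≤ K) ∧ (∀ x y, ‖X x - X y‖ ≤ K * ‖x - y‖) ∧
    (∀ x y, ‖fderiv ℝ X x - fderiv ℝ X y‖ ≤ K * ‖x - y‖) ∧
    (∀ x y, ‖X y - X x - fderiv ℝ X x (y - x)‖ ≤ K * ‖y - x‖ ^ 2) := by
  have hX1 : ContDiff ℝ 1 (fderiv ℝ X) := hX.fderiv_right (by norm_num)
  have hX2 : Continuous (fderiv ℝ (fderiv ℝ X)) := hX1.continuous_fderiv (by norm_num)
  obtain ⟨K0, hK0⟩ := hc.exists_bound_of_continuous hX.continuous
  obtain ⟨K1, hK1⟩ := (hc.fderiv ℝ).exists_bound_of_continuous hX1.continuous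
  obtain ⟨K2, hK2⟩ := ((hc.fderiv ℝ).fderiv ℝ).exists_bound_of_continuous hX2
  have hd : Differentiable ℝ X := hX.differentiable (by norm_num)
  have hd1 : Differentiable ℝ (fderiv ℝ X) := hX1.differentiable (by norm_num)
  have hK0' : 0 ≤ K0 := (norm_nonneg _).trans (hK0 0)
  have hK1' : 0 ≤ K1 := (norm_nonneg _).trans (hK1 0)
  have hK2' : 0 ≤ K2 := (norm_nonneg _).trans (hK2 0)
  have hlip : ∀ x y, ‖fderiv ℝ X x - fderiv ℝ X y‖ ≤ K2 * ‖x - y‖ := fun x y =>
    Convex.norm_image_sub_le_of_norm_fderiv_le (s := univ) (fun z _ => hd1 z)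
      (fun z _ => hK2 z) convex_univ (mem_univ y) (mem_univ x)
  refine ⟨K0 + K1 + K2, by positivity, fun x => ?_, fun x => ?_, fun x y => ?_, fun x y => ?_,
    fun x y => ?_⟩
  · linarith [hK0 x]
  · linarith [hK1 x]
  · have h1 := Convex.norm_image_sub_le_of_norm_fderiv_le (s := univ) (fun z _ => hd z)
      (fun z _ => hK1 z) convex_univ (mem_univ y) (mem_univ x)
    refine h1.trans ?_
    gcongr
    linarith
  · refine (hlip x y).trans ?_
    gcongr
    linarith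
  · refine (fld_bound_taylor hd hK2' hlip x y).trans ?_
    gcongr
    linarith

end

variable {d : ℕ} {X : Ed d → Ed d}

/-- Bounds for a smooth field with compact support. (`HasCompactSupport` is inherited by `fderiv`; continuous
functions with compact support are bounded; the mean value inequality.) -/
theorem fld_bound (hX : Sm X) (hc : HasCompactSupport X) : ∃ K : ℝ, 0 ≤ K ∧ (∀ x, ‖X x‖ ≤ K) ∧
    (∀ x, ‖fderiv ℝ X x‖ ≤ K) ∧ (∀ x y, ‖X x - X y‖ ≤ K * ‖x - y‖) ∧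
    (∀ x y, ‖fderiv ℝ X x - fderiv ℝ X y‖ ≤ K * ‖x - y‖) ∧
    (∀ x y, ‖X y - X x - fderiv ℝ X x (y - x)‖ ≤ K * ‖y - x‖ ^ 2) :=
  fld_bound_gen (contDiff_infty.1 hX 2) hc

end Pool.Agent.Lib.MP_79abb3_an.W.B
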