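import Pool.Agent.Lib.MP_79abb3_an.W.BG1

/-!
Theorem W, block B: the push map.
-/

set_option autoImplicit false
set_option linter.unusedSectionVars false

open MeasureTheory Set Filter Topology Function
open scoped RealInnerProductSpace ENNReal NNReal

namespace Pool.Agent.Lib.MP_79abb3_an.W.B

variable {d : ℕ} {D : Set (Ed d)} {z : Ed d → ℝ} {δ : ℝ}

/-- The push map `x ↦ x + s ζ(x) ∇z(x)`. -/
noncomputable def push (ζ z : Ed d → ℝ) (s : ℝ) (x : Ed d) : Ed d := x + s • (ζ x • gradient z x)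

private theorem bg5_coord (z : Ed d → ℝ) (x : Ed d) (i : Fin d) : gradient z x i = fderiv ℝ z x (ee i) := by
  have h := InnerProductSpace.toDual_symm_apply (𝕜 := ℝ) (x := (ee i : Ed d)) (y := fderiv ℝ z x)
  rw [EuclideanSpace.inner_single_right] at h
  simpa [gradient] using h

private theorem bg5_grad_sm (hz : Sm z) : Sm (gradient z) := by
  refine contDiff_euclidean.mpr fun i => ?_
  have h1 : (fun x => gradient z x i) = fun x => fderiv ℝ z x (ee i) := by
    funext x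
    rw [bg5_coord]
  rw [h1]
  exact (hz.fderiv_right (m := ((⊤ : ℕ∞) : WithTop ℕ∞)) (by simp)).clm_apply contDiff_const

/-- The data of the push field. -/
private theorem bg5_data {ζ : Ed d → ℝ} (hz : Sm z) (hζ : Sm ζ) (hc : HasCompactSupport ζ) :
    ∃ C : ℝ, 1 ≤ C ∧ Sm (fun x => ζ x • gradient z x) ∧ (∀ x, ‖ζ x • gradient z x‖ ≤ C) ∧
      ∀ x, ‖fderiv ℝ (fun x => ζ x • gradient z x) x‖ ≤ C := by
  have h1 : Sm (fun x => ζ x • gradient z x) := hζ.smul (bg5_grad_sm hz)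
  have h2 : HasCompactSupport (fun x => ζ x • gradient z x) := hc.smul_right
  obtain ⟨C1, hC1⟩ := h2.exists_bound_of_continuous h1.continuous
  have h3 : Continuous (fderiv ℝ (fun x => ζ x • gradient z x)) :=
    h1.continuous_fderiv (by simp)
  obtain ⟨C2, hC2⟩ := (h2.fderiv ℝ).exists_bound_of_continuous h3
  refine ⟨max 1 (max C1 C2), le_max_left _ _, h1, fun x => ?_, fun x => ?_⟩
  · exact (hC1 x).trans ((le_max_left _ _).trans (le_max_right _ _))
  · exact (hC2 x).trans ((le_max_right _ _).trans (le_max_right _ _))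

/-- For small `s > 0` the push map is a smooth map with `‖DΨ_s - 1‖ ≤ 1/2`, injective, moves `{z ≥ 0}` into
`{z ≥ s/2}`, and does not move points by more than `C s`. (`Dom.taylor`; the mean value inequality gives
`|Ψ_s x - Ψ_s y| ≥ |x - y| / 2`.) -/
theorem Dom.push_prop (h : Dom D z δ) {ζ : Ed d → ℝ} (hζ : Sm ζ) (hc : HasCompactSupport ζ)
    (h1 : ∀ x, 0 ≤ z x → ζ x = 1) : ∃ s₀ C : ℝ, 0 < s₀ ∧ 0 < C ∧ ∀ s ∈ Icc 0 s₀,
      Sm (push ζ z s) ∧ Injective (push ζ z s) ∧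
      (∀ x, ‖fderiv ℝ (push ζ z s) x - ContinuousLinearMap.id ℝ (Ed d)‖ ≤ min (C * s) (1 / 2)) ∧
      (∀ x, ‖push ζ z s x - x‖ ≤ C * s) ∧ ∀ x, 0 ≤ z x → s / 2 ≤ z (push ζ z s x) := by
  obtain ⟨C, hC1, hV, hb0, hb1⟩ := bg5_data h.sm hζ hc
  obtain ⟨M, hM, hT⟩ := h.taylor
  have hδ := h.pos
  have hC0 : 0 < C := by linarith
  set V : Ed d → Ed d := fun x => ζ x • gradient z x with hVdef
  refine ⟨min (1 / (2 * C)) (min (1 / (2 * M)) δ), C, by positivity, hC0, fun s hs => ?_⟩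
  have hs0 : 0 ≤ s := hs.1
  have hsC : C * s ≤ 1 / 2 := by
    have : s ≤ 1 / (2 * C) := hs.2.trans (min_le_left _ _)
    rw [le_div_iff₀ (by positivity)] at this
    linarith
  have hsM : M * s ≤ 1 / 2 := by
    have : s ≤ 1 / (2 * M) := hs.2.trans ((min_le_right _ _).trans (min_le_left _ _))
    rw [le_div_iff₀ (by positivity)] at this
    linarith
  have hsδ : s ≤ δ := hs.2.trans ((min_le_right _ _).trans (min_le_right _ _))
  have hfun : push ζ z s = fun x => x + s • V x := rfl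
  have hVd : ∀ x, DifferentiableAt ℝ V x := fun x => hV.contDiffAt.differentiableAt (by simp)
  refine ⟨?_, ?_, fun x => ?_, fun x => ?_, fun x hx => ?_⟩
  · rw [hfun]
    exact contDiff_id.add (hV.const_smul s)
  · intro x y hxy
    have e1 : x - y = s • (V y - V x) := by
      have h3 : x + s • V x = y + s • V y := hxy
      rw [smul_sub, sub_eq_sub_iff_add_eq_add, h3]
      abel
    have e2 : ‖V y - V x‖ ≤ C * ‖y - x‖ :=
      (convex_univ (𝕜 := ℝ) (E := Ed d)).norm_image_sub_le_of_norm_fderiv_le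
        (fun w _ => hVd w) (fun w _ => hb1 w) (mem_univ x) (mem_univ y)
    have e3 : ‖x - y‖ ≤ s * (C * ‖x - y‖) := by
      conv_lhs => rw [e1, norm_smul, Real.norm_of_nonneg hs0]
      rw [norm_sub_rev x y]
      gcongr
    have e4 : ‖x - y‖ ≤ 0 := by nlinarith [norm_nonneg (x - y)]
    exact sub_eq_zero.1 (norm_le_zero_iff.1 e4)
  · have e1 : fderiv ℝ (push ζ z s) x = ContinuousLinearMap.id ℝ (Ed d) + s • fderiv ℝ V x := by
      rw [hfun]
      exact ((hasFDerivAt_id x).add ((hVd x).hasFDerivAt.const_smul s)).fderiv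
    rw [e1, add_sub_cancel_left, norm_smul, Real.norm_of_nonneg hs0]
    have e2 : s * ‖fderiv ℝ V x‖ ≤ C * s := by
      rw [mul_comm C s]
      exact mul_le_mul_of_nonneg_left (hb1 x) hs0
    exact le_min e2 (e2.trans hsC)
  · rw [hfun]
    show ‖x + s • V x - x‖ ≤ C * s
    rw [add_sub_cancel_left, norm_smul, Real.norm_of_nonneg hs0, mul_comm C s]
    exact mul_le_mul_of_nonneg_left (hb0 x) hs0
  · have e0 : push ζ z s x = x + s • gradient z x := by
      rw [push, h1 x hx, one_smul]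
    have e1 : ‖gradient z x‖ ≤ M := (hT x hx x (by simp)).2.2
    set g := gradient z x with hg
    have e2 : ‖x + s • g - x‖ ≤ 1 := by
      rw [add_sub_cancel_left, norm_smul, Real.norm_of_nonneg hs0]
      calc s * ‖g‖ ≤ s * M := mul_le_mul_of_nonneg_left e1 hs0
        _ ≤ 1 := by linarith
    have e3 := (hT x hx _ e2).1
    rw [add_sub_cancel_left, inner_smul_right, real_inner_self_eq_norm_sq, norm_smul,
      Real.norm_of_nonneg hs0] at e3
    have e4 := (abs_le.1 e3).1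
    rw [e0]
    rcases lt_or_ge (z x) (4 * δ) with hlt | hge
    · have e5 : ‖g‖ = 1 := h.one x (by rw [abs_of_nonneg hx]; exact hlt)
      rw [e5] at e4
      nlinarith
    · have e6 : 0 ≤ s * ‖g‖ ^ 2 * (1 - M * s) :=
        mul_nonneg (mul_nonneg hs0 (sq_nonneg _)) (by linarith)
      have e7 : s * ‖g‖ ^ 2 - M * (s * ‖g‖) ^ 2 = s * ‖g‖ ^ 2 * (1 - M * s) := by ring
      linarith

private theorem bg5_det (d : ℕ) : ∃ c : ℝ, 0 < c ∧ ∀ B : Ed d →L[ℝ] Ed d,
    ‖B - ContinuousLinearMap.id ℝ (Ed d)‖ ≤ 1 / 2 → c ≤ |B.det| := by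
  have : ProperSpace (Ed d →L[ℝ] Ed d) := FiniteDimensional.proper ℝ _
  have hK : IsCompact (Metric.closedBall (ContinuousLinearMap.id ℝ (Ed d)) (1 / 2)) :=
    isCompact_closedBall _ _
  have hne : (Metric.closedBall (ContinuousLinearMap.id ℝ (Ed d)) (1 / 2)).Nonempty :=
    ⟨_, Metric.mem_closedBall_self (by norm_num)⟩
  have hcont : Continuous (fun B : Ed d →L[ℝ] Ed d => |B.det|) :=
    (ContinuousLinearMap.continuous_det).abs
  obtain ⟨B0, hB0, hmin⟩ := hK.exists_isMinOn hne hcont.continuousOn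
  refine ⟨|B0.det|, ?_, fun B hB => hmin (by rw [Metric.mem_closedBall, dist_eq_norm]; exact hB)⟩
  rw [abs_pos]
  rw [Metric.mem_closedBall, dist_eq_norm] at hB0
  have hu : IsUnit B0 := by
    have h1 : ‖(1 : Ed d →L[ℝ] Ed d) - B0‖ < 1 := by
      rw [norm_sub_rev]
      exact lt_of_le_of_lt hB0 (by norm_num)
    have h2 := isUnit_one_sub_of_norm_lt_one h1
    rwa [sub_sub_cancel] at h2
  have hu2 : IsUnit (B0 : Ed d →ₗ[ℝ] Ed d) := hu.map (ContinuousLinearMap.toLinearMapRingHom)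
  exact ((LinearMap.isUnit_iff_isUnit_det _).1 hu2).ne_zero

/-- Change of variables: the determinant of `DΨ_s` is bounded below (`‖B - 1‖ ≤ 1/2` implies `‖B⁻¹‖ ≤ 2` and
`|det B⁻¹| ≤ M`: continuous function on a compact ball). -/
theorem Dom.push_lintegral (h : Dom D z δ) {ζ : Ed d → ℝ} (hζ : Sm ζ) (hc : HasCompactSupport ζ)
    (h1 : ∀ x, 0 ≤ z x → ζ x = 1) : ∃ s₀ : ℝ, ∃ M : ℝ≥0, 0 < s₀ ∧ ∀ s ∈ Icc 0 s₀, ∀ (A : Set (Ed d)),
      MeasurableSet A → ∀ g : Ed d → ℝ≥0∞,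
      ∫⁻ x in A, g (push ζ z s x) ≤ M * ∫⁻ y in push ζ z s '' A, g y := by
  obtain ⟨s₀, C, hs₀, hC, hP⟩ := h.push_prop hζ hc h1
  obtain ⟨c, hc0, hdet⟩ := bg5_det d
  refine ⟨s₀, (c.toNNReal)⁻¹, hs₀, fun s hs A hA g => ?_⟩
  obtain ⟨hSm, hinj, hder, -, -⟩ := hP s hs
  have e1 := lintegral_image_eq_lintegral_abs_det_fderiv_mul volume hA
    (fun x _ => ((hSm.contDiffAt (x := x)).differentiableAt (by simp)).hasFDerivAt.hasFDerivWithinAt)
    hinj.injOn g
  rw [e1]
  have e2 : ENNReal.ofReal c * ∫⁻ x in A, g (push ζ z s x) ≤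
      ∫⁻ x in A, ENNReal.ofReal |(fderiv ℝ (push ζ z s) x).det| * g (push ζ z s x) := by
    rw [← lintegral_const_mul' _ _ ENNReal.ofReal_ne_top]
    refine lintegral_mono fun x => ?_
    gcongr
    exact hdet _ ((hder x).trans (min_le_right _ _))
  have hcne : c.toNNReal ≠ 0 := by
    rw [ne_eq, Real.toNNReal_eq_zero, not_le]; exact hc0
  have e3 : ((c.toNNReal : ℝ≥0) : ℝ≥0∞) = ENNReal.ofReal c := rfl
  rw [ENNReal.coe_inv hcne, e3]
  have hc1 : ENNReal.ofReal c ≠ 0 := by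
    rw [ne_eq, ENNReal.ofReal_eq_zero, not_le]; exact hc0
  calc ∫⁻ x in A, g (push ζ z s x) = (ENNReal.ofReal c)⁻¹ *
        (ENNReal.ofReal c * ∫⁻ x in A, g (push ζ z s x)) := by
        rw [← mul_assoc, ENNReal.inv_mul_cancel hc1 ENNReal.ofReal_ne_top, one_mul]
    _ ≤ _ := by gcongr

end Pool.Agent.Lib.MP_79abb3_an.W.B
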