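import Pool.Agent.Lib.MP_79abb3_an.W.BDef

/-!
Theorem W, block B: Poincare inequality, balls.
-/

set_option autoImplicit false
set_option linter.unusedSectionVars false

open MeasureTheory Set Filter Topology Function
open scoped RealInnerProductSpace ENNReal NNReal

namespace Pool.Agent.Lib.MP_79abb3_an.W.B

variable {d : ℕ} {D : Set (Ed d)} {z : Ed d → ℝ} {δ : ℝ}

/-- Poincaré's inequality on `U` with the gradient on `D`. -/
def PI (U D : Set (Ed d)) : Prop :=
  ∃ C : ℝ≥0, ∀ φ : Ed d → ℝ, ContDiff ℝ 1 φ → ∃ c : ℝ,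
    eLpNorm (fun x => φ x - c) 2 (volume.restrict U) ≤ C * eLpNorm (gradient φ) 2 (volume.restrict D)

/-- squares of `L²` norms -/
theorem bp1_sq {E : Type*} [NormedAddCommGroup E] {α : Type*} [MeasurableSpace α]
    (μ : Measure α) (f : α → E) : eLpNorm f 2 μ ^ 2 = ∫⁻ x, ‖f x‖ₑ ^ 2 ∂μ := by
  rw [eLpNorm_eq_lintegral_rpow_enorm_toReal (by norm_num) (by norm_num)]
  simp only [ENNReal.toReal_ofNat, ENNReal.rpow_ofNat]
  rw [← ENNReal.rpow_natCast, ← ENNReal.rpow_mul]
  norm_num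

theorem bp1_le {E F : Type*} [NormedAddCommGroup E] [NormedAddCommGroup F]
    {α β : Type*} [MeasurableSpace α] [MeasurableSpace β]
    (μ : Measure α) (ν : Measure β) (f : α → E) (g : β → F) (C : ℝ≥0)
    (h : ∫⁻ x, ‖f x‖ₑ ^ 2 ∂μ ≤ (C : ℝ≥0∞) ^ 2 * ∫⁻ x, ‖g x‖ₑ ^ 2 ∂ν) :
    eLpNorm f 2 μ ≤ C * eLpNorm g 2 ν := by
  rw [← bp1_sq, ← bp1_sq, ← mul_pow] at h
  exact (ENNReal.pow_le_pow_left_iff (two_ne_zero)).1 h

/-- the fundamental theorem of calculus along a segment -/
theorem bp1_seg {φ : Ed d → ℝ} (hφ : ContDiff ℝ 1 φ) (x y : Ed d) :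
    ‖φ x - φ y‖ₑ ^ 2 ≤ ENNReal.ofReal (‖x - y‖ ^ 2) *
      ∫⁻ t in Icc (0 : ℝ) 1, ‖gradient φ (y + t • (x - y))‖ₑ ^ 2 := by
  have hd : Differentiable ℝ φ := hφ.differentiable one_ne_zero
  have hgc : Continuous (gradient φ) := by
    unfold gradient
    exact (LinearIsometryEquiv.continuous _).comp (hφ.continuous_fderiv one_ne_zero)
  have hline : Continuous fun t : ℝ => y + t • (x - y) := by fun_prop
  set h : ℝ → ℝ := fun t => ⟪gradient φ (y + t • (x - y)), x - y⟫ with hh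
  have hcont : Continuous h := (hgc.comp hline).inner continuous_const
  have hder : ∀ t ∈ uIcc (0 : ℝ) 1, HasDerivAt (fun t : ℝ => φ (y + t • (x - y))) (h t) t := by
    intro t _
    have h1 : HasDerivAt (fun t : ℝ => y + t • (x - y)) (x - y) t := by
      have := ((hasDerivAt_id t).smul_const (x - y)).const_add y
      simpa using this
    have h2 := (hd (y + t • (x - y))).hasFDerivAt.comp_hasDerivAt t h1
    refine h2.congr_deriv ?_
    rw [hh]
    simp only [gradient]
    rw [InnerProductSpace.toDual_symm_apply]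
  have hint := intervalIntegral.integral_eq_sub_of_hasDerivAt hder (hcont.intervalIntegrable _ _)
  have e1 : φ x - φ y = ∫ t in (0 : ℝ)..1, h t := by
    rw [hint]
    simp
  -- Cauchy and Schwarz
  have hCS : (∫ t in (0 : ℝ)..1, h t) ^ 2 ≤ ∫ t in (0 : ℝ)..1, h t ^ 2 := by
    set a := ∫ t in (0 : ℝ)..1, h t with ha
    have h0 : 0 ≤ ∫ t in (0 : ℝ)..1, (h t - a) ^ 2 :=
      intervalIntegral.integral_nonneg zero_le_one fun t _ => sq_nonneg _
    have h1 : ∫ t in (0 : ℝ)..1, (h t - a) ^ 2 = (∫ t in (0 : ℝ)..1, h t ^ 2) - 2 * a * a + a ^ 2 := by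
      have e : (fun t => (h t - a) ^ 2) = fun t => h t ^ 2 - 2 * a * h t + a ^ 2 := by
        funext t; ring
      have i1 : IntervalIntegrable (fun t => h t ^ 2) volume 0 1 :=
        (hcont.pow 2).intervalIntegrable _ _
      have i2 : IntervalIntegrable (fun t => 2 * a * h t) volume 0 1 :=
        (continuous_const.mul hcont).intervalIntegrable _ _
      rw [e, intervalIntegral.integral_add (i1.sub i2) intervalIntegrable_const,
        intervalIntegral.integral_sub i1 i2, intervalIntegral.integral_const_mul, ← ha]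
      simp
    nlinarith
  have hle : ∫ t in (0 : ℝ)..1, h t ^ 2 ≤
      ∫ t in (0 : ℝ)..1, ‖x - y‖ ^ 2 * ‖gradient φ (y + t • (x - y))‖ ^ 2 := by
    refine intervalIntegral.integral_mono_on zero_le_one ((hcont.pow 2).intervalIntegrable _ _)
      ((continuous_const.mul ((hgc.comp hline).norm.pow 2)).intervalIntegrable _ _) fun t _ => ?_
    have h3 : |h t| ≤ ‖gradient φ (y + t • (x - y))‖ * ‖x - y‖ := abs_real_inner_le_norm _ _
    calc h t ^ 2 = |h t| ^ 2 := (sq_abs _).symm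
      _ ≤ (‖gradient φ (y + t • (x - y))‖ * ‖x - y‖) ^ 2 := by
          exact pow_le_pow_left₀ (abs_nonneg _) h3 2
      _ = _ := by ring
  have hfin : (φ x - φ y) ^ 2 ≤ ‖x - y‖ ^ 2 * ∫ t in Icc (0 : ℝ) 1, ‖gradient φ (y + t • (x - y))‖ ^ 2 := by
    rw [e1, integral_Icc_eq_integral_Ioc, ← intervalIntegral.integral_of_le zero_le_one,
      ← intervalIntegral.integral_const_mul]
    exact hCS.trans hle
  have e2 : ‖φ x - φ y‖ₑ ^ 2 = ENNReal.ofReal ((φ x - φ y) ^ 2) := by
    rw [← ofReal_norm, ← ENNReal.ofReal_pow (norm_nonneg _), Real.norm_eq_abs, sq_abs]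
  have hci : IntegrableOn (fun t => ‖gradient φ (y + t • (x - y))‖ ^ 2) (Icc (0 : ℝ) 1) :=
    ((hgc.comp hline).norm.pow 2).continuousOn.integrableOn_compact isCompact_Icc
  have e3 : ENNReal.ofReal (∫ t in Icc (0 : ℝ) 1, ‖gradient φ (y + t • (x - y))‖ ^ 2) =
      ∫⁻ t in Icc (0 : ℝ) 1, ‖gradient φ (y + t • (x - y))‖ₑ ^ 2 := by
    rw [ofReal_integral_eq_lintegral_ofReal hci (Eventually.of_forall fun t => by positivity)]
    refine lintegral_congr fun t => ?_
    rw [ENNReal.ofReal_pow (norm_nonneg _), ofReal_norm]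
  rw [e2, ← e3, ← ENNReal.ofReal_mul (by positivity)]
  exact ENNReal.ofReal_le_ofReal hfin

/-- contractions of a ball -/
private theorem bp1_con (x₀ : Ed d) (r : ℝ) {y : Ed d} (hy : y ∈ Metric.ball x₀ r) {t : ℝ}
    (ht : t ∈ Icc (1 / 2 : ℝ) 1) {g : Ed d → ℝ≥0∞} (hg : Measurable g) :
    ∫⁻ x in Metric.ball x₀ r, g (y + t • (x - y)) ≤
      ENNReal.ofReal (2 ^ d) * ∫⁻ x in Metric.ball x₀ r, g x := by
  have ht0 : 0 < t := by linarith [ht.1]
  set G : Ed d → ℝ≥0∞ := (Metric.ball x₀ r).indicator g with hG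
  have hGm : Measurable G := hg.indicator Metric.isOpen_ball.measurableSet
  have h1 : ∫⁻ x in Metric.ball x₀ r, g (y + t • (x - y)) ≤ ∫⁻ x, G (t • x + (1 - t) • y) := by
    rw [← lintegral_indicator Metric.isOpen_ball.measurableSet]
    refine lintegral_mono fun x => ?_
    have e : y + t • (x - y) = t • x + (1 - t) • y := by
      rw [smul_sub, sub_smul, one_smul]; abel
    by_cases hx : x ∈ Metric.ball x₀ r
    · have h2 : t • x + (1 - t) • y ∈ Metric.ball x₀ r :=
        (convex_ball x₀ r) hx hy ht0.le (by linarith [ht.2]) (by ring)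
      rw [indicator_of_mem hx, e, hG, indicator_of_mem h2]
    · rw [indicator_of_notMem hx]
      exact zero_le
  have h2 : ∫⁻ x, G (t • x + (1 - t) • y) = ENNReal.ofReal |(t ^ d)⁻¹| * ∫⁻ x, G x := by
    set G' : Ed d → ℝ≥0∞ := fun u => G (u + (1 - t) • y) with hG'
    have hG'm : Measurable G' := hGm.comp (measurable_id.add_const _)
    have h3 : ∫⁻ x, G' (t • x) = ∫⁻ u, G' u ∂(Measure.map (t • ·) (volume : Measure (Ed d))) :=
      (lintegral_map hG'm (measurable_const_smul t)).symm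
    have h4 : ∫⁻ x, G' x = ∫⁻ x, G x := lintegral_add_right_eq_self G _
    show ∫⁻ x, G' (t • x) = _
    rw [h3, Measure.map_addHaar_smul _ ht0.ne', lintegral_smul_measure, h4]
    simp
  refine h1.trans ?_
  rw [h2, hG, lintegral_indicator Metric.isOpen_ball.measurableSet]
  gcongr
  rw [abs_of_nonneg (by positivity)]
  rw [inv_le_comm₀ (by positivity) (by positivity), ← inv_pow]
  exact pow_le_pow_left₀ (by positivity) (by linarith [ht.1]) d

/-- Proof: `c` = mean of `φ` on the ball `B`; `∫_B |φ - c|² ≤ |B|⁻¹ ∫∫ |φ x - φ y|²`,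
`|φ x - φ y|² ≤ (2r)² ∫_0^1 |∇φ (y + t (x - y))|² dt`; by symmetry only `t ≥ 1/2` is needed (twice), and for fixed `y`, `t`
the map `x ↦ y + t (x - y)` maps `B` into `B` with Jacobian `t^d ≥ 2^{-d}`. -/
theorem PI_ball (x₀ : Ed d) {r : ℝ} (hr : 0 < r) : PI (Metric.ball x₀ r) (Metric.ball x₀ r) := by
  set B := Metric.ball x₀ r with hB
  have hBm : MeasurableSet B := Metric.isOpen_ball.measurableSet
  have hB0 : volume B ≠ 0 := (Metric.measure_ball_pos volume x₀ hr).ne'
  have hB1 : volume B ≠ ∞ := measure_ball_lt_top.ne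
  refine ⟨Real.toNNReal (2 * r * √(2 ^ d)), fun φ hφ => ?_⟩
  have hgc : Continuous (gradient φ) := by
    unfold gradient
    exact (LinearIsometryEquiv.continuous _).comp (hφ.continuous_fderiv one_ne_zero)
  set g : Ed d → ℝ≥0∞ := fun x => ‖gradient φ x‖ₑ ^ 2 with hg
  have hgm : Measurable g := (hgc.enorm.measurable).pow_const 2
  set G : ℝ≥0∞ := ∫⁻ x in B, g x with hGd
  -- the double integral
  have hJ : ∀ t ∈ Icc (0 : ℝ) 1, ∫⁻ y in B, ∫⁻ x in B, g (y + t • (x - y)) ≤
      volume B * (ENNReal.ofReal (2 ^ d) * G) := by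
    intro t ht
    have hc : ∀ c : ℝ≥0∞, ∫⁻ _ in B, c = volume B * c := by
      intro c
      rw [setLIntegral_const, mul_comm]
    by_cases h2 : 1 / 2 ≤ t
    · rw [← hc]
      exact setLIntegral_mono' hBm fun y hy => bp1_con x₀ r hy ⟨h2, ht.2⟩ hgm
    · rw [lintegral_lintegral_swap]
      · rw [← hc]
        refine setLIntegral_mono' hBm fun x hx => ?_
        have e : ∀ y : Ed d, y + t • (x - y) = x + (1 - t) • (y - x) := by
          intro y
          rw [smul_sub, smul_sub, sub_smul, sub_smul, one_smul, one_smul]; abel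
        simp only [e]
        exact bp1_con x₀ r hx ⟨by linarith, by linarith [ht.1]⟩ hgm
      · have h3 : Measurable fun p : Ed d × Ed d => g (p.1 + t • (p.2 - p.1)) :=
          hgm.comp (by fun_prop : Continuous fun p : Ed d × Ed d => p.1 + t • (p.2 - p.1)).measurable
        exact h3.aemeasurable
  have hI : ∫⁻ y in B, ∫⁻ x in B, ‖φ x - φ y‖ₑ ^ 2 ≤
      ENNReal.ofReal ((2 * r) ^ 2) * (volume B * (ENNReal.ofReal (2 ^ d) * G)) := by
    calc ∫⁻ y in B, ∫⁻ x in B, ‖φ x - φ y‖ₑ ^ 2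
        ≤ ∫⁻ y in B, ∫⁻ x in B, ENNReal.ofReal ((2 * r) ^ 2) *
            ∫⁻ t in Icc (0 : ℝ) 1, g (y + t • (x - y)) := by
          refine setLIntegral_mono' hBm fun y hy => setLIntegral_mono' hBm fun x hx => ?_
          refine (bp1_seg hφ x y).trans ?_
          gcongr
          have h1 : dist x y ≤ dist x x₀ + dist y x₀ := dist_triangle_right x y x₀
          rw [dist_eq_norm x y] at h1
          have h2 : dist x x₀ < r := hx
          have h3 : dist y x₀ < r := hy
          linarith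
      _ = ENNReal.ofReal ((2 * r) ^ 2) *
            ∫⁻ y in B, ∫⁻ x in B, ∫⁻ t in Icc (0 : ℝ) 1, g (y + t • (x - y)) := by
          rw [← lintegral_const_mul']
          · refine lintegral_congr fun y => ?_
            rw [lintegral_const_mul' _ _ ENNReal.ofReal_ne_top]
          · exact ENNReal.ofReal_ne_top
      _ = ENNReal.ofReal ((2 * r) ^ 2) *
            ∫⁻ y in B, ∫⁻ t in Icc (0 : ℝ) 1, ∫⁻ x in B, g (y + t • (x - y)) := by
          congr 1
          refine lintegral_congr fun y => ?_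
          rw [lintegral_lintegral_swap]
          have h3 : Measurable fun p : Ed d × ℝ => g (y + p.2 • (p.1 - y)) :=
            hgm.comp (by fun_prop : Continuous fun p : Ed d × ℝ => y + p.2 • (p.1 - y)).measurable
          exact h3.aemeasurable
      _ = ENNReal.ofReal ((2 * r) ^ 2) *
            ∫⁻ t in Icc (0 : ℝ) 1, ∫⁻ y in B, ∫⁻ x in B, g (y + t • (x - y)) := by
          congr 1
          rw [lintegral_lintegral_swap]
          have h1 : Measurable fun q : (Ed d × ℝ) × Ed d => g (q.1.1 + q.1.2 • (q.2 - q.1.1)) :=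
            hgm.comp (by fun_prop : Continuous fun q : (Ed d × ℝ) × Ed d =>
              q.1.1 + q.1.2 • (q.2 - q.1.1)).measurable
          have h2 : Measurable fun q : Ed d × ℝ => ∫⁻ x in B, g (q.1 + q.2 • (x - q.1)) :=
            h1.lintegral_prod_right'
          exact h2.aemeasurable
      _ ≤ ENNReal.ofReal ((2 * r) ^ 2) *
            ∫⁻ _ in Icc (0 : ℝ) 1, volume B * (ENNReal.ofReal (2 ^ d) * G) := by
          exact mul_le_mul_right (setLIntegral_mono' measurableSet_Icc hJ) _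
      _ = _ := by
          rw [setLIntegral_const]
          simp
  -- a good value
  obtain ⟨y₀, -, hy₀⟩ := exists_le_setLAverage (s := B) (μ := (volume : Measure (Ed d)))
    (f := fun y => ∫⁻ x in B, ‖φ x - φ y‖ₑ ^ 2) hB0 hB1 (by
      refine (Measurable.lintegral_prod_right' (f := fun p : Ed d × Ed d => ‖φ p.2 - φ p.1‖ₑ ^ 2)
        ?_).aemeasurable
      exact ((hφ.continuous.comp continuous_snd).sub
        (hφ.continuous.comp continuous_fst)).enorm.measurable.pow_const 2)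
  refine ⟨φ y₀, bp1_le _ _ _ _ _ ?_⟩
  refine hy₀.trans ?_
  rw [setLAverage_eq]
  refine ENNReal.div_le_of_le_mul ?_
  refine hI.trans (le_of_eq ?_)
  have e1 : ((Real.toNNReal (2 * r * √(2 ^ d)) : ℝ≥0) : ℝ≥0∞) ^ 2 =
      ENNReal.ofReal ((2 * r) ^ 2) * ENNReal.ofReal (2 ^ d) := by
    have h1 : ((Real.toNNReal (2 * r * √(2 ^ d)) : ℝ≥0) : ℝ≥0∞) =
        ENNReal.ofReal (2 * r * √(2 ^ d)) := rfl
    rw [h1, ← ENNReal.ofReal_pow (by positivity), ← ENNReal.ofReal_mul (by positivity), mul_pow,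
      Real.sq_sqrt (by positivity)]
  rw [e1]
  ring

theorem PI.mono {U V D D' : Set (Ed d)} (h : PI U D) (hV : V ⊆ U) (hD : D ⊆ D') : PI V D' := by
  obtain ⟨C, hC⟩ := h
  refine ⟨C, fun φ hφ => ?_⟩
  obtain ⟨c, hc⟩ := hC φ hφ
  refine ⟨c, (eLpNorm_mono_measure _ (Measure.restrict_mono hV le_rfl)).trans (hc.trans ?_)⟩
  exact mul_le_mul_right (eLpNorm_mono_measure _ (Measure.restrict_mono hD le_rfl)) _

/-- Two overlapping sets: the difference of the constants is bounded on the intersection. (All sets bounded.) -/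
theorem PI.union {U V : Set (Ed d)} (hU : PI U D) (hV : PI V D) (hUo : IsOpen U) (hVo : IsOpen V)
    (hbU : Bornology.IsBounded U) (hbV : Bornology.IsBounded V) (hne : (U ∩ V).Nonempty) : PI (U ∪ V) D := by
  obtain ⟨C₁, h₁⟩ := hU
  obtain ⟨C₂, h₂⟩ := hV
  have hW0 : volume (U ∩ V) ≠ 0 := ((hUo.inter hVo).measure_pos volume hne).ne'
  have hW1 : volume (U ∩ V) ≠ ∞ := (hbU.subset inter_subset_left).measure_lt_top.ne
  have hV1 : volume V ≠ ∞ := hbV.measure_lt_top.ne
  set a : ℝ≥0∞ := volume (U ∩ V) ^ (1 / (2 : ℝ≥0∞).toReal) with ha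
  set b : ℝ≥0∞ := volume V ^ (1 / (2 : ℝ≥0∞).toReal) with hb
  have ha0 : a ≠ 0 := by
    rw [ha]
    simp only [ENNReal.toReal_ofNat, one_div, ne_eq, ENNReal.rpow_eq_zero_iff, hW0, hW1, false_and,
      or_self, not_false_eq_true]
  have ha1 : a ≠ ∞ := by
    rw [ha]
    exact ENNReal.rpow_ne_top_of_nonneg (by simp) hW1
  have hb1 : b ≠ ∞ := by
    rw [hb]
    exact ENNReal.rpow_ne_top_of_nonneg (by simp) hV1
  have hab : b / a ≠ ∞ := ENNReal.div_ne_top hb1 ha0
  refine ⟨C₁ + (C₂ + (C₁ + C₂) * (b / a).toNNReal), fun φ hφ => ?_⟩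
  obtain ⟨c₁, hc₁⟩ := h₁ φ hφ
  obtain ⟨c₂, hc₂⟩ := h₂ φ hφ
  set E := eLpNorm (gradient φ) 2 (volume.restrict D) with hE
  have hm : ∀ (c : ℝ) (S : Set (Ed d)), AEStronglyMeasurable (fun x => φ x - c) (volume.restrict S) :=
    fun c S => (hφ.continuous.sub continuous_const).aestronglyMeasurable
  -- the difference of the constants
  have hdiff : ‖c₂ - c₁‖ₑ * a ≤ (C₁ + C₂) * E := by
    have e1 : eLpNorm (fun _ : Ed d => c₂ - c₁) 2 (volume.restrict (U ∩ V)) = ‖c₂ - c₁‖ₑ * a := by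
      rw [eLpNorm_const' _ (by norm_num) (by norm_num), Measure.restrict_apply_univ]
    have e2 : (fun _ : Ed d => c₂ - c₁) = (fun x => φ x - c₁) - fun x => φ x - c₂ := by
      funext x
      simp
    rw [← e1, e2]
    refine (eLpNorm_sub_le (hm _ _) (hm _ _) (by norm_num)).trans ?_
    rw [add_mul]
    refine add_le_add ?_ ?_
    · exact (eLpNorm_mono_measure _ (Measure.restrict_mono inter_subset_left le_rfl)).trans hc₁
    · exact (eLpNorm_mono_measure _ (Measure.restrict_mono inter_subset_right le_rfl)).trans hc₂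
  have hdiff' : ‖c₂ - c₁‖ₑ * b ≤ (C₁ + C₂) * (b / a) * E := by
    have h3 : ‖c₂ - c₁‖ₑ ≤ ((C₁ + C₂) * E) / a :=
      (ENNReal.le_div_iff_mul_le (Or.inl ha0) (Or.inl ha1)).2 hdiff
    calc ‖c₂ - c₁‖ₑ * b ≤ ((C₁ + C₂) * E) / a * b := by gcongr
      _ = (C₁ + C₂) * (b / a) * E := by
          rw [div_eq_mul_inv, div_eq_mul_inv]; ring
  refine ⟨c₁, ?_⟩
  have hUV : eLpNorm (fun x => φ x - c₁) 2 (volume.restrict (U ∪ V)) ≤
      eLpNorm (fun x => φ x - c₁) 2 (volume.restrict U) +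
        eLpNorm (fun x => φ x - c₁) 2 (volume.restrict V) := by
    refine (ENNReal.pow_le_pow_left_iff (two_ne_zero)).1 ?_
    rw [bp1_sq]
    refine (lintegral_union_le _ _ _).trans ?_
    rw [← bp1_sq, ← bp1_sq, add_sq]
    calc _ ≤ eLpNorm (fun x => φ x - c₁) 2 (volume.restrict U) ^ 2 + 0 +
        eLpNorm (fun x => φ x - c₁) 2 (volume.restrict V) ^ 2 := by rw [add_zero]
      _ ≤ _ := by gcongr; exact zero_le
  have hV2 : eLpNorm (fun x => φ x - c₁) 2 (volume.restrict V) ≤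
      C₂ * E + (C₁ + C₂) * (b / a) * E := by
    have e2 : (fun x => φ x - c₁) = (fun x => φ x - c₂) + fun _ => c₂ - c₁ := by
      funext x
      simp
    rw [e2]
    refine (eLpNorm_add_le (hm _ _) aestronglyMeasurable_const (by norm_num)).trans ?_
    refine add_le_add hc₂ ?_
    rw [eLpNorm_const' _ (by norm_num) (by norm_num), Measure.restrict_apply_univ]
    exact hdiff'
  refine hUV.trans ((add_le_add hc₁ hV2).trans (le_of_eq ?_))
  push_cast
  rw [ENNReal.coe_toNNReal hab]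
  ring

end Pool.Agent.Lib.MP_79abb3_an.W.B
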