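import Pool.Agent.Lib.MP_79abb3_an.W.BDef

/-!
Theorem W, block B: flows and integrals.
-/

set_option autoImplicit false
set_option linter.unusedSectionVars false

open MeasureTheory Set Filter Topology Function
open scoped RealInnerProductSpace ENNReal NNReal

namespace Pool.Agent.Lib.MP_79abb3_an.W.B

variable {d : ℕ} {X : Ed d → Ed d} {τ C : ℝ} {Φ : ℝ → Ed d → Ed d} {D : Set (Ed d)}

private theorem neg_mem_Ioo_sym {τ t : ℝ} (ht : t ∈ Ioo (-τ) τ) : -t ∈ Ioo (-τ) τ :=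
  ⟨by linarith [ht.2], by linarith [ht.1]⟩

private theorem inv_neg_left (hΦ : IsFl X τ C Φ) {t : ℝ} (ht : t ∈ Ioo (-τ) τ) (x : Ed d) :
    Φ t (Φ (-t) x) = x := by
  have h := hΦ.inv (-t) (neg_mem_Ioo_sym ht) x
  rwa [neg_neg] at h

/-- Change of variables with `Φ (-t) : D → D` (a bijection with inverse `Φ t`):
`lintegral_image_eq_lintegral_abs_det_fderiv_mul`. -/
theorem lintegral_comp (hΦ : IsFl X τ C Φ) (hP : Pres D τ Φ) (hD : IsOpen D) {t : ℝ} (ht : t ∈ Ioo (-τ) τ)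
    (g : Ed d → ℝ≥0∞) :
    ∫⁻ x in D, g (Φ t x) = ∫⁻ y in D, ENNReal.ofReal |(fderiv ℝ (Φ (-t)) y).det| * g y := by
  have ht' := neg_mem_Ioo_sym ht
  have him : Φ (-t) '' D = D := by
    apply Subset.antisymm
    · rintro _ ⟨x, hx, rfl⟩
      exact hP (-t) ht' x hx
    · intro x hx
      exact ⟨Φ t x, hP t ht x hx, hΦ.inv t ht x⟩
  have hinj : InjOn (Φ (-t)) D := fun x _ y _ hxy => by
    have h1 := congrArg (Φ t) hxy
    rwa [inv_neg_left hΦ ht, inv_neg_left hΦ ht] at h1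
  have h := lintegral_image_eq_lintegral_abs_det_fderiv_mul volume hD.measurableSet
    (f := Φ (-t)) (f' := fun x => fderiv ℝ (Φ (-t)) x)
    (fun x _ => (((hΦ.c1 (-t) ht').differentiable (by norm_num)) x).hasFDerivAt.hasFDerivWithinAt)
    hinj (fun x => g (Φ t x))
  rw [him] at h
  rw [h]
  refine lintegral_congr fun y => ?_
  rw [inv_neg_left hΦ ht]

/-- The determinants are bounded: `‖DΦ‖ ≤ 1 + C τ`, and the continuous function `det` is bounded on a closed ball of the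
finite dimensional space of linear maps. -/
theorem exists_det_bound (hΦ : IsFl X τ C Φ) :
    ∃ M : ℝ, 0 ≤ M ∧ ∀ t ∈ Ioo (-τ) τ, ∀ x, |(fderiv ℝ (Φ t) x).det| ≤ M := by
  have hcpt : IsCompact (Metric.closedBall (0 : Ed d →L[ℝ] Ed d) (1 + |C| * τ)) := by
    have : ProperSpace (Ed d →L[ℝ] Ed d) := FiniteDimensional.proper_real _
    exact isCompact_closedBall _ _
  obtain ⟨M, hM⟩ := hcpt.exists_bound_of_continuousOn
    (ContinuousLinearMap.continuous_det (𝕜 := ℝ) (E := Ed d)).continuousOn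
  refine ⟨|M|, abs_nonneg _, fun t ht x => ?_⟩
  have h1 := hΦ.dnear t ht x
  have h2 : ‖fderiv ℝ (Φ t) x‖ ≤ 1 + |C| * τ := by
    calc ‖fderiv ℝ (Φ t) x‖ = ‖ContinuousLinearMap.id ℝ (Ed d) +
          (fderiv ℝ (Φ t) x - ContinuousLinearMap.id ℝ (Ed d))‖ := by
          congr 1
          abel
      _ ≤ ‖ContinuousLinearMap.id ℝ (Ed d)‖ +
          ‖fderiv ℝ (Φ t) x - ContinuousLinearMap.id ℝ (Ed d)‖ := norm_add_le _ _
      _ ≤ 1 + C * |t| := add_le_add ContinuousLinearMap.norm_id_le h1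
      _ ≤ 1 + |C| * τ := by
          gcongr
          · exact le_abs_self C
          · exact (abs_lt.2 ht).le
  have h3 := hM (fderiv ℝ (Φ t) x) (by simpa [Metric.mem_closedBall, dist_zero_right] using h2)
  rw [Real.norm_eq_abs] at h3
  exact h3.trans (le_abs_self M)

theorem eLpNorm_comp_le (hΦ : IsFl X τ C Φ) (hP : Pres D τ Φ) (hD : IsOpen D) :
    ∃ M : ℝ≥0, ∀ t ∈ Ioo (-τ) τ, ∀ (G : Type) [NormedAddCommGroup G] (u : Ed d → G),
      eLpNorm (fun x => u (Φ t x)) 2 (volume.restrict D) ≤ M * eLpNorm u 2 (volume.restrict D) := by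
  obtain ⟨M, hM, hdet⟩ := exists_det_bound hΦ
  refine ⟨(Real.sqrt M).toNNReal, fun t ht G _ u => ?_⟩
  have e : ∀ v : Ed d → G, eLpNorm v 2 (volume.restrict D) =
      (∫⁻ x in D, ‖v x‖ₑ ^ (2 : ℝ)) ^ (1 / (2 : ℝ)) := by
    intro v
    rw [eLpNorm_eq_lintegral_rpow_enorm_toReal (by norm_num) (by norm_num)]
    norm_num
  rw [e, e]
  have h1 : ∫⁻ x in D, ‖u (Φ t x)‖ₑ ^ (2 : ℝ) ≤
      ENNReal.ofReal M * ∫⁻ x in D, ‖u x‖ₑ ^ (2 : ℝ) := by
    rw [lintegral_comp hΦ hP hD ht (fun y => ‖u y‖ₑ ^ (2 : ℝ))]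
    rw [← lintegral_const_mul' _ _ ENNReal.ofReal_ne_top]
    refine lintegral_mono fun y => ?_
    simp only
    gcongr
    exact hdet (-t) (neg_mem_Ioo_sym ht) y
  calc (∫⁻ x in D, ‖u (Φ t x)‖ₑ ^ (2 : ℝ)) ^ (1 / (2 : ℝ)) ≤
        (ENNReal.ofReal M * ∫⁻ x in D, ‖u x‖ₑ ^ (2 : ℝ)) ^ (1 / (2 : ℝ)) := by gcongr
    _ = (ENNReal.ofReal M) ^ (1 / (2 : ℝ)) * (∫⁻ x in D, ‖u x‖ₑ ^ (2 : ℝ)) ^ (1 / (2 : ℝ)) :=
        ENNReal.mul_rpow_of_nonneg _ _ (by norm_num)
    _ = _ := by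
        congr 1
        rw [ENNReal.ofReal_rpow_of_nonneg hM (by norm_num), ← Real.sqrt_eq_rpow]
        rfl

/-- Null sets: `Φ t` is quasi measure preserving on `D` (`lintegral_comp` for indicators). -/
theorem memLp_comp (hΦ : IsFl X τ C Φ) (hP : Pres D τ Φ) (hD : IsOpen D) {t : ℝ} (ht : t ∈ Ioo (-τ) τ)
    {G : Type} [NormedAddCommGroup G] {u : Ed d → G} (hu : MemLp u 2 (volume.restrict D)) :
    MemLp (fun x => u (Φ t x)) 2 (volume.restrict D) := by
  obtain ⟨M, hM⟩ := eLpNorm_comp_le hΦ hP hD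
  have hmeas : Measurable (Φ t) := (hΦ.c1 t ht).continuous.measurable
  have hq : Measure.QuasiMeasurePreserving (Φ t) (volume.restrict D) (volume.restrict D) := by
    refine ⟨hmeas, Measure.AbsolutelyContinuous.mk fun s hs h0 => ?_⟩
    rw [Measure.map_apply hmeas hs, ← lintegral_indicator_one (hmeas hs)]
    have h1 := lintegral_comp hΦ hP hD ht (s.indicator 1)
    have h2 : ∀ x, (Φ t ⁻¹' s).indicator (1 : Ed d → ℝ≥0∞) x = s.indicator 1 (Φ t x) := fun x => rfl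
    simp only [h2]
    rw [h1]
    refine lintegral_eq_zero_of_ae_eq_zero ?_
    have h3 : ∀ᵐ y ∂(volume.restrict D), y ∉ s := by
      rw [ae_iff]
      simpa using h0
    filter_upwards [h3] with y hy
    rw [indicator_of_notMem hy, mul_zero]
    rfl
  refine ⟨hu.1.comp_quasiMeasurePreserving hq, ?_⟩
  refine (hM t ht G u).trans_lt ?_
  exact ENNReal.mul_lt_top ENNReal.coe_lt_top hu.2

end Pool.Agent.Lib.MP_79abb3_an.W.B
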