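import Pool.Agent.Lib.MP_79abb3_an.W.BDef
import Pool.Agent.Lib.MP_79abb3_an.W.BFa1
import Pool.Agent.Lib.MP_79abb3_an.W.BP1
import Pool.Agent.Lib.MP_79abb3_an.W.BT1
import Pool.Agent.Lib.MP_79abb3_an.W.BG5
import Pool.Agent.Lib.MP_79abb3_an.W.BT8

section

/-!
Theorem W, block B: flows of tangential fields.
-/

set_option autoImplicit false
set_option linter.unusedSectionVars false

open MeasureTheory Set Filter Topology Function
open scoped RealInnerProductSpace ENNReal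

namespace Pool.Agent.Lib.MP_79abb3_an.W.B

variable {d : ℕ} {X : Ed d → Ed d}

/-- The flow of a tangential field preserves `D = {z > 0}`: `g t = z (Φ t x)` satisfies `g' = c(Φ t x) g`; if `g t₁ ≤ 0`
for some `t₁` then `g` vanishes somewhere between (intermediate value), and then `g = 0` everywhere by uniqueness
(Gronwall; `c` is bounded on the compact trajectory), against `g 0 > 0`. -/
theorem IsFl.pres {τ C : ℝ} {Φ : ℝ → Ed d → Ed d} (hΦ : IsFl X τ C Φ) {z : Ed d → ℝ} (hz : Sm z)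
    (hX : IsTan z X) {D : Set (Ed d)} (hD : D = {x | 0 < z x}) : Pres D τ Φ := by
  obtain ⟨c, hc, hcz⟩ := hX.tan
  subst hD
  intro t ht x hx
  have hx0 : 0 < z x := hx
  have h0 : (0 : ℝ) ∈ Ioo (-τ) τ := ⟨neg_lt_zero.mpr hΦ.pos, hΦ.pos⟩
  have htop : ((⊤ : ℕ∞) : WithTop ℕ∞) ≠ 0 := by simp
  have hzd : Differentiable ℝ z := hz.differentiable htop
  -- continuity of the coefficient along the trajectory
  have hcon : ∀ s ∈ Ioo (-τ) τ, ContinuousAt (fun r => c (Φ r x)) s := fun s hs =>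
    hc.continuousAt.comp (hΦ.der s hs x).continuousAt
  have hconOn : ContinuousOn (fun r => c (Φ r x)) (Ioo (-τ) τ) := fun s hs =>
    (hcon s hs).continuousWithinAt
  have hAd : ∀ s ∈ Ioo (-τ) τ,
      HasDerivAt (fun u => ∫ r in (0 : ℝ)..u, c (Φ r x)) (c (Φ s x)) s := by
    intro s hs
    have hsub : uIcc (0 : ℝ) s ⊆ Ioo (-τ) τ := (ordConnected_Ioo).uIcc_subset h0 hs
    exact intervalIntegral.integral_hasDerivAt_right
      ((hconOn.mono hsub).intervalIntegrable)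
      (hconOn.stronglyMeasurableAtFilter isOpen_Ioo s hs) (hcon s hs)
  have hgd : ∀ s ∈ Ioo (-τ) τ, HasDerivAt (fun r => z (Φ r x)) (c (Φ s x) * z (Φ s x)) s := by
    intro s hs
    have h1 := (hzd (Φ s x)).hasFDerivAt.comp_hasDerivAt s (hΦ.der s hs x)
    rw [hcz] at h1
    exact h1
  have hhd : ∀ s ∈ Ioo (-τ) τ, HasDerivAt
      (fun r => z (Φ r x) * Real.exp (-∫ u in (0 : ℝ)..r, c (Φ u x))) 0 s := by
    intro s hs
    have h1 := (hgd s hs).mul ((hAd s hs).neg.exp)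
    refine h1.congr_deriv ?_
    ring
  have hconst := isOpen_Ioo.is_const_of_deriv_eq_zero (𝕜 := ℝ) isPreconnected_Ioo
    (f := fun r => z (Φ r x) * Real.exp (-∫ u in (0 : ℝ)..r, c (Φ u x)))
    (fun s hs => (hhd s hs).differentiableAt.differentiableWithinAt)
    (fun s hs => (hhd s hs).deriv) ht h0
  simp only [intervalIntegral.integral_same, neg_zero, Real.exp_zero, mul_one, hΦ.zero] at hconst
  show 0 < z (Φ t x)
  by_contra hneg
  push Not at hneg
  have := mul_nonpos_of_nonpos_of_nonneg hneg (Real.exp_pos (-∫ u in (0 : ℝ)..t, c (Φ u x))).le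
  linarith

end Pool.Agent.Lib.MP_79abb3_an.W.B
end

section

/-!
Theorem W, block B: flows, Lipschitz dependence.
-/

set_option autoImplicit false
set_option linter.unusedSectionVars false

open MeasureTheory Set Filter Topology Function
open scoped RealInnerProductSpace ENNReal

namespace Pool.Agent.Lib.MP_79abb3_an.W.B

variable {d : ℕ} {X : Ed d → Ed d}

private theorem traj_lip_pos {K : ℝ} (hK : 0 ≤ K) {Y : Ed d → Ed d} (hl : ∀ x y, ‖Y x - Y y‖ ≤ K * ‖x - y‖)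
    {f g : ℝ → Ed d} (hf : ∀ t ∈ Ioo (-2 : ℝ) 2, HasDerivAt f (Y (f t)) t)
    (hg : ∀ t ∈ Ioo (-2 : ℝ) 2, HasDerivAt g (Y (g t)) t) {t : ℝ} (h0 : 0 ≤ t) (h2 : t < 2) :
    ‖f t - g t‖ ≤ Real.exp (2 * K) * ‖f 0 - g 0‖ := by
  have hlip : ∀ _ : ℝ, LipschitzWith ⟨K, hK⟩ Y := fun _ => LipschitzWith.of_dist_le_mul fun y w => by
    rw [dist_eq_norm, dist_eq_norm]; exact hl y w
  have hmem : ∀ s ∈ Icc (0 : ℝ) t, s ∈ Ioo (-2 : ℝ) 2 := fun s hs =>
    ⟨by linarith [hs.1], by linarith [hs.2]⟩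
  have h := dist_le_of_trajectories_ODE (v := fun _ => Y) (f := f) (g := g) (a := 0) (b := t)
    (δ := ‖f 0 - g 0‖) hlip
    (fun s hs => (hf s (hmem s hs)).continuousAt.continuousWithinAt)
    (fun s hs => (hf s (hmem s (Ico_subset_Icc_self hs))).hasDerivWithinAt)
    (fun s hs => (hg s (hmem s hs)).continuousAt.continuousWithinAt)
    (fun s hs => (hg s (hmem s (Ico_subset_Icc_self hs))).hasDerivWithinAt)
    (by rw [dist_eq_norm]) t ⟨h0, le_rfl⟩
  rw [dist_eq_norm] at h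
  refine h.trans ?_
  rw [mul_comm]
  refine mul_le_mul_of_nonneg_right (Real.exp_le_exp.mpr ?_) (norm_nonneg _)
  show K * (t - 0) ≤ 2 * K
  nlinarith

/-- Lipschitz dependence on the initial point, by Gronwall's inequality (`dist_le_of_trajectories_ODE`, forward and
for the reversed time). -/
theorem traj_lip (hX : Sm X) (hc : HasCompactSupport X) {Φ : ℝ → Ed d → Ed d} (h0 : ∀ x, Φ 0 x = x)
    (h : ∀ t ∈ Ioo (-2 : ℝ) 2, ∀ x, HasDerivAt (fun s => Φ s x) (X (Φ t x)) t) :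
    ∃ C : ℝ, 0 ≤ C ∧ ∀ t ∈ Ioo (-2 : ℝ) 2, ∀ x y, ‖Φ t x - Φ t y‖ ≤ C * ‖x - y‖ := by
  obtain ⟨K, hK, -, -, hl, -, -⟩ := fld_bound hX hc
  refine ⟨Real.exp (2 * K), (Real.exp_pos _).le, fun t ht x y => ?_⟩
  rcases le_total 0 t with h1 | h1
  · have := traj_lip_pos hK hl (f := fun s => Φ s x) (g := fun s => Φ s y) (fun s hs => h s hs x)
      (fun s hs => h s hs y) h1 ht.2
    simpa only [h0] using this
  · have hneg : ∀ w : Ed d, ∀ s ∈ Ioo (-2 : ℝ) 2, HasDerivAt (fun s => Φ (-s) w) ((fun v => -X v) (Φ (-s) w)) s := by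
      intro w s hs
      have hs' : -s ∈ Ioo (-2 : ℝ) 2 := ⟨by linarith [hs.2], by linarith [hs.1]⟩
      have := (h (-s) hs' w).scomp s (hasDerivAt_neg s)
      simpa [Function.comp_def] using this
    have hl' : ∀ x y, ‖(fun v => -X v) x - (fun v => -X v) y‖ ≤ K * ‖x - y‖ := by
      intro x y
      have : (fun v => -X v) x - (fun v => -X v) y = -(X x - X y) := by simp; abel
      rw [this, norm_neg]; exact hl x y
    have := traj_lip_pos hK hl' (f := fun s => Φ (-s) x) (g := fun s => Φ (-s) y) (hneg x) (hneg y)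
      (t := -t) (by linarith) (by linarith [ht.1])
    simpa only [neg_neg, neg_zero, h0] using this

end Pool.Agent.Lib.MP_79abb3_an.W.B
end

section

/-!
Theorem W, block B: flows, inverse and support.
-/

set_option autoImplicit false
set_option linter.unusedSectionVars false

open MeasureTheory Set Filter Topology Function
open scoped RealInnerProductSpace ENNReal

namespace Pool.Agent.Lib.MP_79abb3_an.W.B

variable {d : ℕ} {X : Ed d → Ed d}

private theorem traj_unique_sym {K : ℝ} (hK : ∀ x y, ‖X x - X y‖ ≤ K * ‖x - y‖) {f g : ℝ → Ed d}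
    {r : ℝ} (hf : ∀ s ∈ Icc (-r) r, HasDerivAt f (X (f s)) s)
    (hg : ∀ s ∈ Icc (-r) r, HasDerivAt g (X (g s)) s) (h0 : f 0 = g 0) :
    ∀ s ∈ Icc (-r) r, f s = g s := by
  intro s hs
  rcases le_total 0 s with h | h
  · have hsub : ∀ u ∈ Icc (0:ℝ) s, u ∈ Icc (-r) r := fun u hu =>
      ⟨by linarith [hu.1, hs.2], hu.2.trans hs.2⟩
    have h1 := eq_zero_of_abs_deriv_le_mul_abs_self_of_eq_zero_right (f := fun u => f u - g u)
      (f' := fun u => X (f u) - X (g u)) (K := K) (a := 0) (b := s)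
      (fun u hu => ((hf u (hsub u hu)).sub (hg u (hsub u hu))).continuousAt.continuousWithinAt)
      (fun u hu => ((hf u (hsub u ⟨hu.1, hu.2.le⟩)).sub
        (hg u (hsub u ⟨hu.1, hu.2.le⟩))).hasDerivWithinAt)
      (by simp only [h0, sub_self]) (fun u _ => hK _ _) s ⟨h, le_rfl⟩
    exact sub_eq_zero.1 h1
  · have hsub : ∀ u ∈ Icc (0:ℝ) (-s), -u ∈ Icc (-r) r := fun u hu =>
      ⟨by linarith [hu.2, hs.1], by linarith [hu.1, hs.1]⟩
    have hd : ∀ {p : ℝ → Ed d}, (∀ s ∈ Icc (-r) r, HasDerivAt p (X (p s)) s) →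
        ∀ u ∈ Icc (0:ℝ) (-s), HasDerivAt (fun u => p (-u)) (-X (p (-u))) u := by
      intro p hp u hu
      have := (hp (-u) (hsub u hu)).scomp u (hasDerivAt_neg u)
      simpa [Function.comp_def] using this
    have h1 := eq_zero_of_abs_deriv_le_mul_abs_self_of_eq_zero_right
      (f := fun u => f (-u) - g (-u)) (f' := fun u => -X (f (-u)) - -X (g (-u))) (K := K)
      (a := 0) (b := -s)
      (fun u hu => ((hd hf u hu).sub (hd hg u hu)).continuousAt.continuousWithinAt)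
      (fun u hu => ((hd hf u ⟨hu.1, hu.2.le⟩).sub (hd hg u ⟨hu.1, hu.2.le⟩)).hasDerivWithinAt)
      (by simp only [neg_zero, h0, sub_self])
      (fun u _ => by
        have e : -X (f (-u)) - -X (g (-u)) = -(X (f (-u)) - X (g (-u))) := by abel
        rw [e, norm_neg]
        exact hK _ _) (-s) ⟨by linarith, le_rfl⟩
    simp only [neg_neg] at h1
    exact sub_eq_zero.1 h1

/-- The inverse. Both `s ↦ Φ (t + s) x` and `s ↦ Φ s (Φ t x)` are trajectories through `Φ t x` (uniqueness of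
trajectories, `ODE_solution_unique_of_mem_Icc` or `ODE_solution_unique`); take `s = -t`. -/
theorem traj_inv (hX : Sm X) (hc : HasCompactSupport X) {Φ : ℝ → Ed d → Ed d} (h0 : ∀ x, Φ 0 x = x)
    (h : ∀ t ∈ Ioo (-2 : ℝ) 2, ∀ x, HasDerivAt (fun s => Φ s x) (X (Φ t x)) t) :
    ∀ t ∈ Ioo (-1 : ℝ) 1, ∀ x, Φ (-t) (Φ t x) = x := by
  obtain ⟨K, -, -, -, hK, -⟩ := fld_bound hX hc
  intro t ht x
  have hr : |t| < 1 := abs_lt.2 ht
  have h1 := abs_le.1 (le_refl |t|)
  have hu := traj_unique_sym hK (f := fun s => Φ (t + s) x) (g := fun s => Φ s (Φ t x))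
    (r := |t|)
    (fun s hs => by
      have h2 : t + s ∈ Ioo (-2 : ℝ) 2 := ⟨by linarith [hs.1, h1.1], by linarith [hs.2, h1.2]⟩
      exact (h (t + s) h2 x).comp_const_add t s)
    (fun s hs => h s ⟨by linarith [hs.1], by linarith [hs.2]⟩ (Φ t x))
    (by simp only [add_zero, h0]) (-t)
    ⟨by linarith [h1.2], by linarith [h1.1]⟩
  simp only [add_neg_cancel, h0] at hu
  exact hu.symm

/-- Outside the support of `X` the constant curve is the trajectory (uniqueness). -/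
theorem traj_supp (hX : Sm X) (hc : HasCompactSupport X) {Φ : ℝ → Ed d → Ed d} (h0 : ∀ x, Φ 0 x = x)
    (h : ∀ t ∈ Ioo (-2 : ℝ) 2, ∀ x, HasDerivAt (fun s => Φ s x) (X (Φ t x)) t) :
    ∀ t ∈ Ioo (-2 : ℝ) 2, ∀ x, x ∉ tsupport X → Φ t x = x := by
  obtain ⟨K, -, -, -, hK, -⟩ := fld_bound hX hc
  intro t ht x hx
  have hr : |t| < 2 := abs_lt.2 ht
  have h1 := abs_le.1 (le_refl |t|)
  have hX0 : X x = 0 := image_eq_zero_of_notMem_tsupport hx
  exact traj_unique_sym hK (f := fun s => Φ s x) (g := fun _ => x) (r := |t|)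
    (fun s hs => h s ⟨by linarith [hs.1], by linarith [hs.2]⟩ x)
    (fun s _ => by
      simp only [hX0]
      exact hasDerivAt_const s x)
    (h0 x) t h1

end Pool.Agent.Lib.MP_79abb3_an.W.B
end

section

/-!
Theorem W, block B: flows, the linearised equation.
-/

set_option autoImplicit false
set_option linter.unusedSectionVars false

open MeasureTheory Set Filter Topology Function
open scoped RealInnerProductSpace ENNReal

namespace Pool.Agent.Lib.MP_79abb3_an.W.B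

variable {d : ℕ} {X : Ed d → Ed d}

/-- Gronwall's inequality in both directions. -/
private theorem bfb1_gw {E : Type*} [NormedAddCommGroup E] [NormedSpace ℝ E] {f f' : ℝ → E}
    {δ K ε τ : ℝ} (hf : ∀ t ∈ Ioo (-τ) τ, HasDerivAt f (f' t) t) (h0 : ‖f 0‖ ≤ δ)
    (hb : ∀ t ∈ Ioo (-τ) τ, ‖f' t‖ ≤ K * ‖f t‖ + ε) :
    ∀ t ∈ Ioo (-τ) τ, ‖f t‖ ≤ gronwallBound δ K ε |t| := by
  intro t ht
  rcases le_total 0 t with h | h
  · have hsub : ∀ s ∈ Icc 0 t, s ∈ Ioo (-τ) τ := fun s hs =>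
      ⟨by linarith [hs.1, hs.2, ht.1, ht.2], lt_of_le_of_lt hs.2 ht.2⟩
    have h1 := norm_le_gronwallBound_of_norm_deriv_right_le (f := f) (f' := f') (δ := δ) (K := K)
      (ε := ε) (a := 0) (b := t)
      (fun s hs => (hf s (hsub s hs)).continuousAt.continuousWithinAt)
      (fun s hs => (hf s (hsub s ⟨hs.1, hs.2.le⟩)).hasDerivWithinAt) h0
      (fun s hs => hb s (hsub s ⟨hs.1, hs.2.le⟩)) t ⟨h, le_rfl⟩
    rw [sub_zero] at h1
    rwa [abs_of_nonneg h]
  · have hsub : ∀ s ∈ Icc 0 (-t), -s ∈ Ioo (-τ) τ := fun s hs =>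
      ⟨by linarith [hs.1, hs.2, ht.1, ht.2], by linarith [hs.1, hs.2, ht.1, ht.2]⟩
    have hd : ∀ s ∈ Icc 0 (-t), HasDerivAt (fun s => f (-s)) (-f' (-s)) s := by
      intro s hs
      have h2 := (hf _ (hsub s hs)).scomp s (hasDerivAt_neg s)
      rw [neg_one_smul] at h2
      exact h2
    have h1 := norm_le_gronwallBound_of_norm_deriv_right_le (f := fun s => f (-s))
      (f' := fun s => -f' (-s)) (δ := δ) (K := K) (ε := ε) (a := 0) (b := -t)
      (fun s hs => (hd s hs).continuousAt.continuousWithinAt)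
      (fun s hs => (hd s ⟨hs.1, hs.2.le⟩).hasDerivWithinAt)
      (by simpa using h0)
      (fun s hs => by rw [norm_neg]; exact hb _ (hsub s ⟨hs.1, hs.2.le⟩)) (-t) ⟨by linarith, le_rfl⟩
    rw [sub_zero] at h1
    simp only [neg_neg] at h1
    rwa [abs_of_nonpos h]

/-- The linearised equation `A' = DX(Φ t x) A`, `A 0 = 1`, for `|t| < τ`. (`IsPicardLindelof` for the field
`(t, B) ↦ (DX(Φ t x)).comp B` on `[-τ, τ]`, ball of radius `1` about the identity, `K (1 + 1) τ ≤ 1`; `τ` does not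
depend on `x`.) -/
theorem exists_lin (hX : Sm X) (hc : HasCompactSupport X) {Φ : ℝ → Ed d → Ed d}
    (h : ∀ t ∈ Ioo (-2 : ℝ) 2, ∀ x, HasDerivAt (fun s => Φ s x) (X (Φ t x)) t) :
    ∃ τ : ℝ, 0 < τ ∧ τ ≤ 1 ∧ ∃ A : ℝ → Ed d → (Ed d →L[ℝ] Ed d),
      (∀ x, A 0 x = ContinuousLinearMap.id ℝ (Ed d)) ∧ (∀ t ∈ Ioo (-τ) τ, ∀ x, ‖A t x‖ ≤ 2) ∧
      ∀ t ∈ Ioo (-τ) τ, ∀ x, HasDerivAt (fun s => A s x) ((fderiv ℝ X (Φ t x)).comp (A t x)) t := by
  obtain ⟨K, hK0, -, hK2, -, hK4, -⟩ := fld_bound hX hc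
  have hKp : 0 < K + 1 := by linarith
  set τ : ℝ := 1 / (2 * (K + 1)) with hτd
  have hτ : 0 < τ := by positivity
  have hτK : (K + 1) * τ = 1 / 2 := by
    rw [hτd]
    field_simp
  have hKτ : K * τ ≤ 1 / 2 := by nlinarith
  have hτ1 : τ ≤ 1 := by nlinarith
  have hsub : ∀ t ∈ Icc (-τ) τ, t ∈ Ioo (-2 : ℝ) 2 := fun t ht =>
    ⟨by linarith [ht.1], by linarith [ht.2]⟩
  have hid : ‖ContinuousLinearMap.id ℝ (Ed d)‖ ≤ 1 := ContinuousLinearMap.norm_id_le
  have hDX : Continuous (fderiv ℝ X) := hX.continuous_fderiv (by simp)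
  have hpl : ∀ x : Ed d, IsPicardLindelof
      (fun (t : ℝ) (B : Ed d →L[ℝ] Ed d) => (fderiv ℝ X (Φ t x)).comp B)
      (tmin := -τ) (tmax := τ) ⟨0, by linarith, hτ.le⟩ (ContinuousLinearMap.id ℝ (Ed d)) 1 0
      (Real.toNNReal (2 * K)) (Real.toNNReal K) := by
    intro x
    refine ⟨?_, ?_, ?_, ?_⟩
    · intro t ht
      refine LipschitzOnWith.of_dist_le_mul fun B _ B' _ => ?_
      rw [dist_eq_norm, dist_eq_norm, ← ContinuousLinearMap.comp_sub, Real.coe_toNNReal K hK0]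
      exact (ContinuousLinearMap.opNorm_comp_le _ _).trans
        (mul_le_mul_of_nonneg_right (hK2 _) (norm_nonneg _))
    · intro B _ t ht
      have h1 : ContinuousAt (fun s => Φ s x) t := (h t (hsub t ht) x).continuousAt
      have h2 : ContinuousAt (fun s => fderiv ℝ X (Φ s x)) t := hDX.continuousAt.comp h1
      exact (h2.clm_comp continuousAt_const).continuousWithinAt
    · intro t ht B hB
      rw [Metric.mem_closedBall, dist_eq_norm] at hB
      have h1 : ‖B‖ ≤ 2 := by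
        have h2 := norm_sub_norm_le B (ContinuousLinearMap.id ℝ (Ed d))
        have h3 : ((1 : NNReal) : ℝ) = 1 := rfl
        rw [h3] at hB
        linarith
      rw [Real.coe_toNNReal _ (by linarith)]
      calc ‖(fderiv ℝ X (Φ t x)).comp B‖ ≤ ‖fderiv ℝ X (Φ t x)‖ * ‖B‖ :=
            ContinuousLinearMap.opNorm_comp_le _ _
        _ ≤ K * 2 := mul_le_mul (hK2 _) h1 (norm_nonneg _) hK0
        _ = 2 * K := by ring
    · rw [Real.coe_toNNReal _ (by linarith)]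
      have h1 : max (τ - ((⟨0, by linarith, hτ.le⟩ : Icc (-τ) τ) : ℝ))
          (((⟨0, by linarith, hτ.le⟩ : Icc (-τ) τ) : ℝ) - (-τ)) = τ := by
        show max (τ - 0) (0 - (-τ)) = τ
        rw [sub_zero, zero_sub, neg_neg, max_self]
      rw [h1]
      have h3 : ((1 : NNReal) : ℝ) = 1 := rfl
      have h4 : ((0 : NNReal) : ℝ) = 0 := rfl
      rw [h3, h4]
      linarith
  have hex : ∀ x : Ed d, ∃ α : ℝ → (Ed d →L[ℝ] Ed d), α 0 = ContinuousLinearMap.id ℝ (Ed d) ∧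
      ∀ t ∈ Icc (-τ) τ, HasDerivWithinAt α ((fderiv ℝ X (Φ t x)).comp (α t)) (Icc (-τ) τ) t :=
    fun x => (hpl x).exists_eq_forall_mem_Icc_hasDerivWithinAt₀
  choose α hα0 hα using hex
  have hder : ∀ t ∈ Ioo (-τ) τ, ∀ x,
      HasDerivAt (fun s => α x s) ((fderiv ℝ X (Φ t x)).comp (α x t)) t :=
    fun t ht x => (hα x t (Ioo_subset_Icc_self ht)).hasDerivAt (Icc_mem_nhds ht.1 ht.2)
  refine ⟨τ, hτ, hτ1, fun t x => α x t, hα0, ?_, hder⟩
  intro t ht x
  have h1 := bfb1_gw (f := α x) (f' := fun t => (fderiv ℝ X (Φ t x)).comp (α x t)) (δ := 1) (K := K)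
    (ε := 0) (fun t ht => hder t ht x) (by rw [hα0]; exact hid) (fun t _ => by
      rw [add_zero]
      exact (ContinuousLinearMap.opNorm_comp_le _ _).trans
        (mul_le_mul_of_nonneg_right (hK2 _) (norm_nonneg _))) t ht
  rw [gronwallBound_ε0, one_mul] at h1
  refine h1.trans ?_
  have h2 : K * |t| ≤ 1 / 2 := by
    have h3 : |t| ≤ τ := abs_le.mpr ⟨ht.1.le, ht.2.le⟩
    exact (mul_le_mul_of_nonneg_left h3 hK0).trans hKτ
  have h4 : Real.exp (K * |t|) ≤ Real.exp (1 / 2) := Real.exp_le_exp.mpr h2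
  have h5 : Real.exp (1 / 2) ≤ 2 := by
    have h6 : Real.exp (1 / 2) ^ 2 ≤ 2 ^ 2 := by
      rw [← Real.exp_nat_mul]
      norm_num
      have := Real.exp_one_lt_d9
      linarith
    exact le_of_sq_le_sq h6 (by norm_num)
  linarith


end Pool.Agent.Lib.MP_79abb3_an.W.B
end

section

/-!
Theorem W, block B: Poincare inequality, chains of balls.
-/

set_option autoImplicit false
set_option linter.unusedSectionVars false

open MeasureTheory Set Filter Topology Function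
open scoped RealInnerProductSpace ENNReal NNReal

namespace Pool.Agent.Lib.MP_79abb3_an.W.B

variable {d : ℕ} {D : Set (Ed d)} {z : Ed d → ℝ} {δ : ℝ}

/-- Compact subsets of a connected open set. Proof: call `x, y ∈ D` related if there is a bounded open `U ⊆ D` with
`PI U D` and `x, y ∈ U`; this is an equivalence relation with open classes (balls, `PI.union`), so all points are
related (`IsPreconnected`). Cover `K` by finitely many balls; join their centres with a fixed point; unite. -/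
theorem PI_compact (hD : IsOpen D) (hc : IsConnected D) {K : Set (Ed d)} (hK : IsCompact K) (hKD : K ⊆ D) :
    ∃ U : Set (Ed d), IsOpen U ∧ Bornology.IsBounded U ∧ K ⊆ U ∧ U ⊆ D ∧ PI U D := by
  obtain ⟨⟨x₀, hx₀⟩, hpre⟩ := hc
  -- balls
  have hball : ∀ x ∈ D, ∃ r : ℝ, 0 < r ∧ Metric.ball x r ⊆ D ∧ PI (Metric.ball x r) D := by
    intro x hx
    obtain ⟨r, hr, hrD⟩ := Metric.isOpen_iff.1 hD x hx
    exact ⟨r, hr, hrD, (PI_ball x hr).mono le_rfl hrD⟩
  set S : Set (Ed d) := {x | ∃ U : Set (Ed d), IsOpen U ∧ Bornology.IsBounded U ∧ U ⊆ D ∧ PI U D ∧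
    x₀ ∈ U ∧ x ∈ U} with hS
  have hSD : ∀ x ∈ S, x ∈ D := by
    rintro x ⟨U, -, -, hUD, -, -, hx⟩
    exact hUD hx
  have hSo : IsOpen S := by
    rw [isOpen_iff_mem_nhds]
    rintro x ⟨U, hUo, hUb, hUD, hUP, hx₀U, hxU⟩
    refine Filter.mem_of_superset (hUo.mem_nhds hxU) fun y hy => ?_
    exact ⟨U, hUo, hUb, hUD, hUP, hx₀U, hy⟩
  have hx₀S : x₀ ∈ S := by
    obtain ⟨r, hr, hrD, hP⟩ := hball x₀ hx₀
    exact ⟨Metric.ball x₀ r, Metric.isOpen_ball, Metric.isBounded_ball, hrD, hP,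
      Metric.mem_ball_self hr, Metric.mem_ball_self hr⟩
  -- the complement
  set T : Set (Ed d) := {x | x ∈ D ∧ x ∉ S} with hT
  have hTo : IsOpen T := by
    rw [isOpen_iff_mem_nhds]
    rintro y ⟨hyD, hyS⟩
    obtain ⟨r, hr, hrD, hP⟩ := hball y hyD
    refine Filter.mem_of_superset (Metric.ball_mem_nhds y hr) fun w hw => ⟨hrD hw, ?_⟩
    rintro ⟨U, hUo, hUb, hUD, hUP, hx₀U, hwU⟩
    apply hyS
    refine ⟨U ∪ Metric.ball y r, hUo.union Metric.isOpen_ball, hUb.union Metric.isBounded_ball,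
      union_subset hUD hrD, ?_, Or.inl hx₀U, Or.inr (Metric.mem_ball_self hr)⟩
    exact hUP.union hP hUo Metric.isOpen_ball hUb Metric.isBounded_ball ⟨w, hwU, hw⟩
  have hDS : D ⊆ S := by
    refine hpre.subset_left_of_subset_union hSo hTo ?_ ?_ ⟨x₀, hx₀, hx₀S⟩
    · rw [Set.disjoint_left]
      rintro x hx ⟨-, hx'⟩
      exact hx' hx
    · intro x hx
      by_cases h : x ∈ S
      · exact Or.inl h
      · exact Or.inr ⟨hx, h⟩
  -- the compact set
  have key : ∃ U : Set (Ed d), IsOpen U ∧ Bornology.IsBounded U ∧ U ⊆ D ∧ PI U D ∧ x₀ ∈ U ∧ K ⊆ U := by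
    refine hK.induction_on (p := fun K' => ∃ U : Set (Ed d), IsOpen U ∧ Bornology.IsBounded U ∧
      U ⊆ D ∧ PI U D ∧ x₀ ∈ U ∧ K' ⊆ U) ?_ ?_ ?_ ?_
    · obtain ⟨U, hUo, hUb, hUD, hUP, hx₀U, -⟩ := hx₀S
      exact ⟨U, hUo, hUb, hUD, hUP, hx₀U, empty_subset _⟩
    · rintro s t hst ⟨U, hUo, hUb, hUD, hUP, hx₀U, ht⟩
      exact ⟨U, hUo, hUb, hUD, hUP, hx₀U, hst.trans ht⟩
    · rintro s t ⟨U, hUo, hUb, hUD, hUP, hx₀U, hs⟩ ⟨V, hVo, hVb, hVD, hVP, hx₀V, ht⟩
      exact ⟨U ∪ V, hUo.union hVo, hUb.union hVb, union_subset hUD hVD,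
        hUP.union hVP hUo hVo hUb hVb ⟨x₀, hx₀U, hx₀V⟩, Or.inl hx₀U, union_subset_union hs ht⟩
    · intro x hx
      obtain ⟨U, hUo, hUb, hUD, hUP, hx₀U, hxU⟩ := hDS (hKD hx)
      exact ⟨U, mem_nhdsWithin_of_mem_nhds (hUo.mem_nhds hxU), U, hUo, hUb, hUD, hUP, hx₀U, le_rfl⟩
  obtain ⟨U, hUo, hUb, hUD, hUP, -, hKU⟩ := key
  exact ⟨U, hUo, hUb, hKU, hUD, hUP⟩

end Pool.Agent.Lib.MP_79abb3_an.W.B
end

section

/-!
Theorem W, block B: difference quotients of test functions.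
-/

set_option autoImplicit false
set_option linter.unusedSectionVars false

open MeasureTheory Set Filter Topology Function
open scoped RealInnerProductSpace ENNReal NNReal

namespace Pool.Agent.Lib.MP_79abb3_an.W.B

variable {d : ℕ} {X : Ed d → Ed d} {τ C : ℝ} {Φ : ℝ → Ed d → Ed d} {D : Set (Ed d)}

private lemma bt7_grad_cont {φ : Ed d → ℝ} (hφ : IsT1 φ) : Continuous (gradient φ) := by
  have h1 : Continuous (fderiv ℝ φ) := hφ.c1.continuous_fderiv one_ne_zero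
  exact (InnerProductSpace.toDual ℝ (Ed d)).symm.continuous.comp h1

private lemma bt7_grad_cpt {φ : Ed d → ℝ} (hφ : IsT1 φ) : HasCompactSupport (gradient φ) :=
  (hφ.cpt.fderiv ℝ).comp_left (g := (InnerProductSpace.toDual ℝ (Ed d)).symm) (map_zero _)

private lemma bt7_der (hΦ : IsFl X τ C Φ) {φ : Ed d → ℝ} (hφ : IsT1 φ) {s : ℝ}
    (hs : s ∈ Ioo (-τ) τ) (x : Ed d) :
    HasDerivAt (fun s => φ (Φ (-s) x)) (-⟪gradient φ (Φ (-s) x), X (Φ (-s) x)⟫) s := by
  have hs' : -s ∈ Ioo (-τ) τ := ⟨neg_lt_neg hs.2, by linarith [hs.1]⟩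
  have h1 : HasDerivAt (fun s => Φ (-s) x) (-(X (Φ (-s) x))) s := by
    have h := (hΦ.der (-s) hs' x).scomp s (hasDerivAt_neg s)
    rw [neg_one_smul] at h
    exact h
  have hd : DifferentiableAt ℝ φ (Φ (-s) x) := (hφ.c1.differentiable one_ne_zero) _
  have h2 := hd.hasGradientAt.hasFDerivAt.comp_hasDerivAt s h1
  have h3 : (InnerProductSpace.toDual ℝ (Ed d)) (gradient φ (Φ (-s) x)) (-(X (Φ (-s) x))) =
      -⟪gradient φ (Φ (-s) x), X (Φ (-s) x)⟫ := by
    rw [InnerProductSpace.toDual_apply_apply, inner_neg_right]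
  rw [h3] at h2
  exact h2

private lemma bt7_sq {α G : Type*} [MeasurableSpace α] [NormedAddCommGroup G] (μ : Measure α)
    (f : α → G) : eLpNorm f 2 μ ^ 2 = ∫⁻ x, ‖f x‖ₑ ^ 2 ∂μ := by
  have h := eLpNorm_nnreal_pow_eq_lintegral (μ := μ) (f := f) (p := 2) two_ne_zero
  simpa using h

/-- `φ (Φ (-t) x) - φ x = - ∫_0^t ⟨∇φ (Φ (-s) x), X (Φ (-s) x)⟩ ds`; Cauchy-Schwarz, Tonelli, `eLpNorm_comp_le`. -/
theorem eLpNorm_test_sub_le (hX : Sm X) (hc : HasCompactSupport X) (hΦ : IsFl X τ C Φ) (hP : Pres D τ Φ)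
    (hD : IsOpen D) :
    ∃ M : ℝ≥0, ∀ φ : Ed d → ℝ, IsT1 φ → ∀ t ∈ Ioo (-τ) τ,
      eLpNorm (fun x => φ (Φ (-t) x) - φ x) 2 (volume.restrict D) ≤
        M * ENNReal.ofReal |t| * eLpNorm (gradient φ) 2 (volume.restrict D) := by
  obtain ⟨M, hM⟩ := eLpNorm_comp_le hΦ hP hD
  obtain ⟨K, hK⟩ := hX.continuous.bounded_above_of_compact_support hc
  have hK0 : 0 ≤ K := (norm_nonneg _).trans (hK 0)
  refine ⟨Real.toNNReal K * M, fun φ hφ t ht => ?_⟩
  have hgc := bt7_grad_cont hφ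
  -- the interval
  have hI : ∀ s ∈ uIcc (0 : ℝ) t, s ∈ Ioo (-τ) τ := by
    intro s hs
    have h0 : (0 : ℝ) ∈ Ioo (-τ) τ := ⟨by linarith [hΦ.pos], hΦ.pos⟩
    exact (ordConnected_Ioo.uIcc_subset h0 ht) hs
  have hIn : ∀ s ∈ uIcc (0 : ℝ) t, -s ∈ Ioo (-τ) τ := fun s hs =>
    ⟨neg_lt_neg (hI s hs).2, by linarith [(hI s hs).1]⟩
  have hcontF : ContinuousOn (fun p : ℝ × Ed d => Φ (-p.1) p.2) (uIcc 0 t ×ˢ univ) := by
    have h1 : ContinuousOn (fun p : ℝ × Ed d => ((-p.1, p.2) : ℝ × Ed d)) (uIcc 0 t ×ˢ univ) := by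
      fun_prop
    exact hΦ.cont.comp h1 fun p hp => ⟨hIn p.1 hp.1, mem_univ _⟩
  have hcont1 : ∀ x, ContinuousOn (fun s => Φ (-s) x) (uIcc 0 t) := by
    intro x
    have h1 : ContinuousOn (fun s : ℝ => ((s, x) : ℝ × Ed d)) (uIcc 0 t) := by fun_prop
    exact hcontF.comp h1 fun s hs => ⟨hs, mem_univ _⟩
  -- pointwise bound
  have hpt : ∀ x, ‖φ (Φ (-t) x) - φ x‖ₑ ≤
      ENNReal.ofReal K * ∫⁻ s in uIoc 0 t, ‖gradient φ (Φ (-s) x)‖ₑ := by
    intro x
    have hint : IntervalIntegrable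
        (fun s => -⟪gradient φ (Φ (-s) x), X (Φ (-s) x)⟫) volume 0 t := by
      refine ContinuousOn.intervalIntegrable ?_
      exact ((hgc.comp_continuousOn (hcont1 x)).inner
        (hX.continuous.comp_continuousOn (hcont1 x))).neg
    have hft := intervalIntegral.integral_eq_sub_of_hasDerivAt
      (fun s hs => bt7_der hΦ hφ (hI s hs) x) hint
    rw [neg_zero, hΦ.zero] at hft
    rw [← hft, ← lintegral_const_mul' _ _ ENNReal.ofReal_ne_top]
    calc ‖∫ s in (0 : ℝ)..t, -⟪gradient φ (Φ (-s) x), X (Φ (-s) x)⟫‖ₑ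
        = ‖∫ s in uIoc 0 t, -⟪gradient φ (Φ (-s) x), X (Φ (-s) x)⟫‖ₑ := by
          rw [← ofReal_norm, ← ofReal_norm, intervalIntegral.norm_intervalIntegral_eq]
      _ ≤ ∫⁻ s in uIoc 0 t, ‖-⟪gradient φ (Φ (-s) x), X (Φ (-s) x)⟫‖ₑ :=
          enorm_integral_le_lintegral_enorm _
      _ ≤ ∫⁻ s in uIoc 0 t, ENNReal.ofReal K * ‖gradient φ (Φ (-s) x)‖ₑ := by
          refine lintegral_mono fun s => ?_
          rw [← ofReal_norm, ← ofReal_norm, ← ENNReal.ofReal_mul hK0]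
          refine ENNReal.ofReal_le_ofReal ?_
          rw [norm_neg]
          refine (norm_inner_le_norm _ _).trans ?_
          rw [mul_comm]
          exact mul_le_mul_of_nonneg_right (hK _) (norm_nonneg _)
  have hvol : volume (uIoc (0 : ℝ) t) = ENNReal.ofReal |t| := by
    rw [uIoc, Real.volume_Ioc]
    congr 1
    rw [max_sub_min_eq_abs]
    simp
  -- Cauchy-Schwarz
  have hcs : ∀ x, (∫⁻ s in uIoc 0 t, ‖gradient φ (Φ (-s) x)‖ₑ) ^ 2 ≤
      ENNReal.ofReal |t| * ∫⁻ s in uIoc 0 t, ‖gradient φ (Φ (-s) x)‖ₑ ^ 2 := by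
    intro x
    have hm : AEMeasurable (fun s => ‖gradient φ (Φ (-s) x)‖ₑ) (volume.restrict (uIoc 0 t)) := by
      have h1 : ContinuousOn (fun s => ‖gradient φ (Φ (-s) x)‖ₑ) (uIoc 0 t) :=
        ((hgc.enorm).comp_continuousOn (hcont1 x)).mono uIoc_subset_uIcc
      exact h1.aemeasurable measurableSet_uIoc
    have h2 := ENNReal.lintegral_mul_le_Lp_mul_Lq (volume.restrict (uIoc 0 t))
      (Real.HolderConjugate.two_two) hm (aemeasurable_const (b := (1 : ℝ≥0∞)))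
    simp only [Pi.mul_apply, mul_one, ENNReal.one_rpow, lintegral_const, one_mul,
      Measure.restrict_apply_univ, hvol] at h2
    have h3 : (∫⁻ s in uIoc 0 t, ‖gradient φ (Φ (-s) x)‖ₑ) ^ 2 ≤
        ((∫⁻ s in uIoc 0 t, ‖gradient φ (Φ (-s) x)‖ₑ ^ (2 : ℝ)) ^ (1 / 2 : ℝ) *
          ENNReal.ofReal |t| ^ (1 / 2 : ℝ)) ^ 2 := pow_le_pow_left' h2 2
    refine h3.trans (le_of_eq ?_)
    rw [mul_pow, ← ENNReal.rpow_natCast, ← ENNReal.rpow_mul, ← ENNReal.rpow_natCast,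
      ← ENNReal.rpow_mul]
    norm_num
    rw [mul_comm]
  -- Tonelli
  have hton : ∫⁻ x in D, ∫⁻ s in uIoc 0 t, ‖gradient φ (Φ (-s) x)‖ₑ ^ 2 =
      ∫⁻ s in uIoc 0 t, ∫⁻ x in D, ‖gradient φ (Φ (-s) x)‖ₑ ^ 2 := by
    refine (lintegral_lintegral_swap ?_).symm
    rw [Measure.prod_restrict]
    have h1 : ContinuousOn (fun p : ℝ × Ed d => ‖gradient φ (Φ (-p.1) p.2)‖ₑ ^ 2)
        (uIoc 0 t ×ˢ D) := by
      have h2 : ContinuousOn (fun p : ℝ × Ed d => ‖gradient φ (Φ (-p.1) p.2)‖ₑ)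
          (uIcc 0 t ×ˢ univ) := (hgc.enorm).comp_continuousOn hcontF
      have h3 := h2.mono (prod_mono uIoc_subset_uIcc (subset_univ D))
      exact (ENNReal.continuous_pow 2).comp_continuousOn h3
    exact h1.aemeasurable (measurableSet_uIoc.prod hD.measurableSet)
  have hsq : eLpNorm (fun x => φ (Φ (-t) x) - φ x) 2 (volume.restrict D) ^ 2 ≤
      (((Real.toNNReal K * M : ℝ≥0) : ℝ≥0∞) * ENNReal.ofReal |t| *
        eLpNorm (gradient φ) 2 (volume.restrict D)) ^ 2 := by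
    rw [bt7_sq]
    calc ∫⁻ x in D, ‖φ (Φ (-t) x) - φ x‖ₑ ^ 2
        ≤ ∫⁻ x in D, ENNReal.ofReal K ^ 2 * ENNReal.ofReal |t| *
            ∫⁻ s in uIoc 0 t, ‖gradient φ (Φ (-s) x)‖ₑ ^ 2 := by
          refine lintegral_mono fun x => ?_
          calc ‖φ (Φ (-t) x) - φ x‖ₑ ^ 2
              ≤ (ENNReal.ofReal K * ∫⁻ s in uIoc 0 t, ‖gradient φ (Φ (-s) x)‖ₑ) ^ 2 :=
                pow_le_pow_left' (hpt x) 2
            _ = ENNReal.ofReal K ^ 2 * (∫⁻ s in uIoc 0 t, ‖gradient φ (Φ (-s) x)‖ₑ) ^ 2 :=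
                mul_pow _ _ _
            _ ≤ ENNReal.ofReal K ^ 2 * (ENNReal.ofReal |t| *
                  ∫⁻ s in uIoc 0 t, ‖gradient φ (Φ (-s) x)‖ₑ ^ 2) :=
                mul_le_mul_right (hcs x) _
            _ = _ := by rw [mul_assoc]
      _ = ENNReal.ofReal K ^ 2 * ENNReal.ofReal |t| *
            ∫⁻ x in D, ∫⁻ s in uIoc 0 t, ‖gradient φ (Φ (-s) x)‖ₑ ^ 2 :=
          lintegral_const_mul' _ _ (ENNReal.mul_ne_top (ENNReal.pow_ne_top ENNReal.ofReal_ne_top)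
            ENNReal.ofReal_ne_top)
      _ = ENNReal.ofReal K ^ 2 * ENNReal.ofReal |t| *
            ∫⁻ s in uIoc 0 t, ∫⁻ x in D, ‖gradient φ (Φ (-s) x)‖ₑ ^ 2 := by rw [hton]
      _ ≤ ENNReal.ofReal K ^ 2 * ENNReal.ofReal |t| *
            ∫⁻ _ in uIoc 0 t, (M * eLpNorm (gradient φ) 2 (volume.restrict D)) ^ 2 := by
          refine mul_le_mul_right ?_ _
          refine setLIntegral_mono' measurableSet_uIoc fun s hs => ?_
          rw [← bt7_sq]
          exact pow_le_pow_left' (hM (-s) (hIn s (uIoc_subset_uIcc hs)) (Ed d) (gradient φ)) 2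
      _ = (((Real.toNNReal K * M : ℝ≥0) : ℝ≥0∞) * ENNReal.ofReal |t| *
            eLpNorm (gradient φ) 2 (volume.restrict D)) ^ 2 := by
          rw [lintegral_const, Measure.restrict_apply_univ, hvol, ENNReal.coe_mul]
          rw [show ((Real.toNNReal K : ℝ≥0) : ℝ≥0∞) = ENNReal.ofReal K from rfl]
          ring
  exact (ENNReal.pow_le_pow_left_iff two_ne_zero).mp hsq

/-- Uniform convergence: `|t⁻¹ (φ (Φ (-t) x) - φ x) + ⟨∇φ x, X x⟩| ≤ ε` for small `t`, uniformly in `x`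
(`∇φ` is uniformly continuous and bounded, `X` bounded and Lipschitz, `near`). -/
theorem test_quot (hX : Sm X) (hc : HasCompactSupport X) (hΦ : IsFl X τ C Φ) {φ : Ed d → ℝ} (hφ : IsT1 φ)
    {ε : ℝ} (hε : 0 < ε) : ∃ η : ℝ, 0 < η ∧ ∀ t, 0 < |t| → |t| < η → ∀ x,
      |t⁻¹ * (φ (Φ (-t) x) - φ x) + ⟪gradient φ x, X x⟫| ≤ ε := by
  have hwc : Continuous fun y => ⟪gradient φ y, X y⟫ := (bt7_grad_cont hφ).inner hX.continuous
  have hws : HasCompactSupport fun y => ⟪gradient φ y, X y⟫ := by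
    refine hc.mono fun y hy => ?_
    rw [mem_support] at hy ⊢
    intro h0
    exact hy (by rw [h0, inner_zero_right])
  have huc := hws.uniformContinuous_of_continuous hwc
  obtain ⟨ρ, hρ, hρ2⟩ := Metric.uniformContinuous_iff.mp huc ε hε
  have hC1 : 0 < |C| + 1 := by positivity
  refine ⟨min τ (ρ / (|C| + 1)), lt_min hΦ.pos (by positivity), fun t ht0 ht x => ?_⟩
  obtain ⟨ht1, ht2⟩ := lt_min_iff.mp ht
  have ht' := abs_lt.mp ht1
  have hball : ∀ s ∈ uIcc (0 : ℝ) t, |s| ≤ |t| := by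
    intro s hs
    have := abs_sub_left_of_mem_uIcc hs
    simpa using this
  have hIoo : ∀ s ∈ uIcc (0 : ℝ) t, s ∈ Ioo (-τ) τ := fun s hs =>
    abs_lt.mp ((hball s hs).trans_lt ht1)
  have hder : ∀ s ∈ uIcc (0 : ℝ) t, HasDerivWithinAt
      (fun s => φ (Φ (-s) x) + s * ⟪gradient φ x, X x⟫)
      (-⟪gradient φ (Φ (-s) x), X (Φ (-s) x)⟫ + ⟪gradient φ x, X x⟫) (uIcc (0 : ℝ) t) s := by
    intro s hs
    have h1 := bt7_der hΦ hφ (hIoo s hs) x
    have h2 : HasDerivAt (fun s : ℝ => s * ⟪gradient φ x, X x⟫) ⟪gradient φ x, X x⟫ s := by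
      simpa using (hasDerivAt_id s).mul_const ⟪gradient φ x, X x⟫
    exact (h1.add h2).hasDerivWithinAt
  have hbd : ∀ s ∈ uIcc (0 : ℝ) t,
      ‖-⟪gradient φ (Φ (-s) x), X (Φ (-s) x)⟫ + ⟪gradient φ x, X x⟫‖ ≤ ε := by
    intro s hs
    have hs' : -s ∈ Ioo (-τ) τ := ⟨neg_lt_neg (hIoo s hs).2, by linarith [(hIoo s hs).1]⟩
    have h1 := hΦ.near (-s) hs' x
    have h2 : dist (Φ (-s) x) x < ρ := by
      rw [dist_eq_norm]
      refine h1.trans_lt ?_
      rw [abs_neg]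
      calc C * |s| ≤ (|C| + 1) * |t| :=
            mul_le_mul ((le_abs_self C).trans (by linarith)) (hball s hs) (abs_nonneg _) hC1.le
        _ < (|C| + 1) * (ρ / (|C| + 1)) := mul_lt_mul_of_pos_left ht2 hC1
        _ = ρ := by field_simp
    have h3 := (hρ2 h2).le
    rw [dist_comm, Real.dist_eq] at h3
    rw [Real.norm_eq_abs, neg_add_eq_sub]
    exact h3
  have hmv := (convex_uIcc (0 : ℝ) t).norm_image_sub_le_of_norm_hasDerivWithin_le hder hbd
    left_mem_uIcc right_mem_uIcc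
  simp only [neg_zero, hΦ.zero, zero_mul, add_zero, sub_zero, Real.norm_eq_abs] at hmv
  have ht00 : t ≠ 0 := abs_pos.mp ht0
  have e1 : t⁻¹ * (φ (Φ (-t) x) - φ x) + ⟪gradient φ x, X x⟫ =
      t⁻¹ * (φ (Φ (-t) x) + t * ⟪gradient φ x, X x⟫ - φ x) := by
    field_simp
    ring
  rw [e1, abs_mul, abs_inv, inv_mul_le_iff₀ ht0]
  exact hmv.trans_eq (mul_comm _ _)

/-- `∇φ (Φ (-t) x) → ∇φ x` uniformly. -/
theorem test_grad (hΦ : IsFl X τ C Φ) {φ : Ed d → ℝ} (hφ : IsT1 φ) {ε : ℝ} (hε : 0 < ε) :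
    ∃ η : ℝ, 0 < η ∧ ∀ t, |t| < η → ∀ x, ‖gradient φ (Φ (-t) x) - gradient φ x‖ ≤ ε := by
  have huc := (bt7_grad_cpt hφ).uniformContinuous_of_continuous (bt7_grad_cont hφ)
  obtain ⟨ρ, hρ, hρ2⟩ := Metric.uniformContinuous_iff.mp huc ε hε
  have hC1 : 0 < |C| + 1 := by positivity
  refine ⟨min τ (ρ / (|C| + 1)), lt_min hΦ.pos (by positivity), fun t ht x => ?_⟩
  obtain ⟨ht1, ht2⟩ := lt_min_iff.mp ht
  have ht' := abs_lt.mp ht1
  have hs' : -t ∈ Ioo (-τ) τ := ⟨neg_lt_neg ht'.2, by linarith [ht'.1]⟩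
  have h1 := hΦ.near (-t) hs' x
  have h2 : dist (Φ (-t) x) x < ρ := by
    rw [dist_eq_norm]
    refine h1.trans_lt ?_
    rw [abs_neg]
    calc C * |t| ≤ (|C| + 1) * |t| :=
          mul_le_mul_of_nonneg_right ((le_abs_self C).trans (by linarith)) (abs_nonneg _)
      _ < (|C| + 1) * (ρ / (|C| + 1)) := mul_lt_mul_of_pos_left ht2 hC1
      _ = ρ := by field_simp
  have h3 := (hρ2 h2).le
  rwa [dist_eq_norm] at h3

end Pool.Agent.Lib.MP_79abb3_an.W.B
end

section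

/-!
Theorem W, block B: flows, the derivative.
-/

set_option autoImplicit false
set_option linter.unusedSectionVars false

open MeasureTheory Set Filter Topology Function
open scoped RealInnerProductSpace ENNReal

namespace Pool.Agent.Lib.MP_79abb3_an.W.B

variable {d : ℕ} {X : Ed d → Ed d}

private theorem bfb2_gron1 {E : Type*} [NormedAddCommGroup E] [NormedSpace ℝ E] {r r' : ℝ → E}
    {τ K ε σ : ℝ} (hσ : σ = 1 ∨ σ = -1) (hτ1 : τ ≤ 1) (hK : 1 ≤ K) (hε : 0 ≤ ε) (h0 : r 0 = 0)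
    (hd : ∀ t ∈ Ioo (-τ) τ, HasDerivAt r (r' t) t)
    (hb : ∀ t ∈ Ioo (-τ) τ, ‖r' t‖ ≤ K * ‖r t‖ + ε) {s : ℝ} (hs0 : 0 ≤ s) (hs : s < τ) :
    ‖r (σ * s)‖ ≤ ε * Real.exp K := by
  have hK0 : 0 < K := by linarith
  have hmem : ∀ u ∈ Icc (0 : ℝ) s, σ * u ∈ Ioo (-τ) τ := by
    intro u hu
    rcases hσ with rfl | rfl
    · exact ⟨by linarith [hu.1], by linarith [hu.2]⟩
    · exact ⟨by linarith [hu.2], by linarith [hu.1]⟩
  have hσn : ‖σ‖ = 1 := by rcases hσ with rfl | rfl <;> simp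
  have hder : ∀ u ∈ Icc (0 : ℝ) s, HasDerivAt (fun u => r (σ * u)) (σ • r' (σ * u)) u := by
    intro u hu
    have h1 : HasDerivAt (fun u : ℝ => σ * u) σ u := by
      simpa using (hasDerivAt_id u).const_mul σ
    exact (hd _ (hmem u hu)).scomp u h1
  have h1 := norm_le_gronwallBound_of_norm_deriv_right_le (f := fun u => r (σ * u))
    (f' := fun u => σ • r' (σ * u)) (δ := 0) (K := K) (ε := ε) (a := 0) (b := s)
    (fun u hu => (hder u hu).continuousAt.continuousWithinAt)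
    (fun u hu => (hder u ⟨hu.1, hu.2.le⟩).hasDerivWithinAt)
    (by rw [mul_zero, h0, norm_zero])
    (fun u hu => by
      rw [norm_smul, hσn, one_mul]
      exact hb _ (hmem u ⟨hu.1, hu.2.le⟩)) s ⟨hs0, le_rfl⟩
  refine h1.trans ?_
  rw [gronwallBound_of_K_ne_0 hK0.ne']
  simp only [zero_mul, zero_add, sub_zero]
  have h2 : ε / K ≤ ε := div_le_self hε hK
  have h3 : Real.exp (K * s) - 1 ≤ Real.exp K := by
    have h4 : Real.exp (K * s) ≤ Real.exp K := by
      apply Real.exp_le_exp.2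
      nlinarith
    linarith
  have h5 : 0 ≤ Real.exp (K * s) - 1 := by
    have h6 : 1 ≤ Real.exp (K * s) := Real.one_le_exp (by positivity)
    linarith
  calc ε / K * (Real.exp (K * s) - 1) ≤ ε * (Real.exp (K * s) - 1) :=
        mul_le_mul_of_nonneg_right h2 h5
    _ ≤ ε * Real.exp K := mul_le_mul_of_nonneg_left h3 hε

private theorem bfb2_gron {E : Type*} [NormedAddCommGroup E] [NormedSpace ℝ E] {r r' : ℝ → E}
    {τ K ε : ℝ} (hτ1 : τ ≤ 1) (hK : 1 ≤ K) (hε : 0 ≤ ε) (h0 : r 0 = 0)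
    (hd : ∀ t ∈ Ioo (-τ) τ, HasDerivAt r (r' t) t)
    (hb : ∀ t ∈ Ioo (-τ) τ, ‖r' t‖ ≤ K * ‖r t‖ + ε) {t : ℝ} (ht : t ∈ Ioo (-τ) τ) :
    ‖r t‖ ≤ ε * Real.exp K := by
  rcases le_total 0 t with h | h
  · have := bfb2_gron1 (σ := 1) (Or.inl rfl) hτ1 hK hε h0 hd hb h ht.2
    rwa [one_mul] at this
  · have := bfb2_gron1 (σ := -1) (Or.inr rfl) hτ1 hK hε h0 hd hb (s := -t) (by linarith)
      (by linarith [ht.1])
    rwa [neg_mul_neg, one_mul] at this

/-- `Φ t` is differentiable with derivative `A t x`. Proof: for fixed `x, v` put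
`r t = Φ t (x + v) - Φ t x - A t x v`. Then `r 0 = 0` and, with `w = Φ t (x + v) - Φ t x`, `|w| ≤ C |v|` (`traj_lip`),
`|r'| = |X (Φ t x + w) - X (Φ t x) - DX(Φ t x) w + DX(Φ t x) r| ≤ K C² |v|² + K |r|` (`fld_bound`), so `|r| ≤ C' |v|²` by
Gronwall (`norm_le_gronwallBound_of_norm_deriv_right_le`, and the same for the reversed time). -/
theorem lin_hasFDerivAt (hX : Sm X) (hc : HasCompactSupport X) {Φ : ℝ → Ed d → Ed d} (h0 : ∀ x, Φ 0 x = x)
    (h : ∀ t ∈ Ioo (-2 : ℝ) 2, ∀ x, HasDerivAt (fun s => Φ s x) (X (Φ t x)) t) {τ : ℝ} (hτ : 0 < τ)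
    (hτ1 : τ ≤ 1) {A : ℝ → Ed d → (Ed d →L[ℝ] Ed d)} (hA0 : ∀ x, A 0 x = ContinuousLinearMap.id ℝ (Ed d))
    (hA : ∀ t ∈ Ioo (-τ) τ, ∀ x, HasDerivAt (fun s => A s x) ((fderiv ℝ X (Φ t x)).comp (A t x)) t) :
    ∀ t ∈ Ioo (-τ) τ, ∀ x, HasFDerivAt (Φ t) (A t x) x := by
  obtain ⟨K, hK0, -, hK1, -, -, hK2⟩ := fld_bound hX hc
  obtain ⟨C, hC0, hC⟩ := traj_lip hX hc h0 h
  intro t ht x
  have hsub : ∀ s ∈ Ioo (-τ) τ, s ∈ Ioo (-2 : ℝ) 2 := fun s hs =>
    ⟨by linarith [hs.1], by linarith [hs.2]⟩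
  have key : ∀ v : Ed d, ‖Φ t (x + v) - Φ t x - A t x v‖ ≤
      (K * C ^ 2 * Real.exp (K + 1)) * ‖v‖ ^ 2 := by
    intro v
    have h1 := bfb2_gron (r := fun s => Φ s (x + v) - Φ s x - A s x v)
      (r' := fun s => X (Φ s (x + v)) - X (Φ s x) - (fderiv ℝ X (Φ s x)) (A s x v))
      (τ := τ) (K := K + 1) (ε := K * (C * ‖v‖) ^ 2) hτ1 (by linarith) (by positivity) ?_ ?_ ?_ ht
    · refine h1.trans (le_of_eq ?_)
      ring
    · simp only [h0, hA0, ContinuousLinearMap.id_apply]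
      abel
    · intro s hs
      have h2 : HasDerivAt (fun s => A s x v) ((fderiv ℝ X (Φ s x)) (A s x v)) s := by
        have h3 := (hA s hs x).clm_apply (hasDerivAt_const s v)
        simpa using h3
      exact ((h s (hsub s hs) (x + v)).sub (h s (hsub s hs) x)).sub h2
    · intro s hs
      set w := Φ s (x + v) - Φ s x with hw
      have hwn : ‖w‖ ≤ C * ‖v‖ := by
        have := hC s (hsub s hs) (x + v) x
        rwa [add_sub_cancel_left] at this
      have h4 : X (Φ s (x + v)) - X (Φ s x) - (fderiv ℝ X (Φ s x)) (A s x v) =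
          (X (Φ s (x + v)) - X (Φ s x) - (fderiv ℝ X (Φ s x)) w) +
            (fderiv ℝ X (Φ s x)) (w - A s x v) := by
        rw [(fderiv ℝ X (Φ s x)).map_sub w]
        abel
      rw [h4]
      have h5 : ‖X (Φ s (x + v)) - X (Φ s x) - (fderiv ℝ X (Φ s x)) w‖ ≤ K * (C * ‖v‖) ^ 2 := by
        refine (hK2 (Φ s x) (Φ s (x + v))).trans ?_
        rw [← hw]
        gcongr
      have h6 : ‖(fderiv ℝ X (Φ s x)) (w - A s x v)‖ ≤ (K + 1) * ‖w - A s x v‖ := by
        refine (ContinuousLinearMap.le_opNorm _ _).trans ?_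
        have := hK1 (Φ s x)
        gcongr
        linarith
      calc _ ≤ _ := norm_add_le _ _
        _ ≤ K * (C * ‖v‖) ^ 2 + (K + 1) * ‖w - A s x v‖ := add_le_add h5 h6
        _ = _ := by ring
  rw [hasFDerivAt_iff_isLittleO_nhds_zero]
  have h7 : (fun v : Ed d => Φ t (x + v) - Φ t x - A t x v) =O[𝓝 0] fun v : Ed d => ‖v‖ ^ 2 := by
    refine Asymptotics.IsBigO.of_bound (K * C ^ 2 * Real.exp (K + 1)) (Eventually.of_forall fun v => ?_)
    refine (key v).trans (le_of_eq ?_)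
    rw [Real.norm_of_nonneg (by positivity)]
  exact h7.trans_isLittleO (Asymptotics.isLittleO_norm_pow_id one_lt_two)

end Pool.Agent.Lib.MP_79abb3_an.W.B
end

section

/-!
Theorem W, block B: flows, Lipschitz bounds for the derivative.
-/

set_option autoImplicit false
set_option linter.unusedSectionVars false

open MeasureTheory Set Filter Topology Function
open scoped RealInnerProductSpace ENNReal

namespace Pool.Agent.Lib.MP_79abb3_an.W.B

variable {d : ℕ} {X : Ed d → Ed d}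

/-- Gronwall's inequality in both directions. -/
private theorem bfb3_gw {E : Type*} [NormedAddCommGroup E] [NormedSpace ℝ E] {f f' : ℝ → E}
    {δ K ε τ : ℝ} (hf : ∀ t ∈ Ioo (-τ) τ, HasDerivAt f (f' t) t) (h0 : ‖f 0‖ ≤ δ)
    (hb : ∀ t ∈ Ioo (-τ) τ, ‖f' t‖ ≤ K * ‖f t‖ + ε) :
    ∀ t ∈ Ioo (-τ) τ, ‖f t‖ ≤ gronwallBound δ K ε |t| := by
  intro t ht
  rcases le_total 0 t with h | h
  · have hsub : ∀ s ∈ Icc 0 t, s ∈ Ioo (-τ) τ := fun s hs =>
      ⟨by linarith [hs.1, hs.2, ht.1, ht.2], lt_of_le_of_lt hs.2 ht.2⟩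
    have h1 := norm_le_gronwallBound_of_norm_deriv_right_le (f := f) (f' := f') (δ := δ) (K := K)
      (ε := ε) (a := 0) (b := t)
      (fun s hs => (hf s (hsub s hs)).continuousAt.continuousWithinAt)
      (fun s hs => (hf s (hsub s ⟨hs.1, hs.2.le⟩)).hasDerivWithinAt) h0
      (fun s hs => hb s (hsub s ⟨hs.1, hs.2.le⟩)) t ⟨h, le_rfl⟩
    rw [sub_zero] at h1
    rwa [abs_of_nonneg h]
  · have hsub : ∀ s ∈ Icc 0 (-t), -s ∈ Ioo (-τ) τ := fun s hs =>
      ⟨by linarith [hs.1, hs.2, ht.1, ht.2], by linarith [hs.1, hs.2, ht.1, ht.2]⟩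
    have hd : ∀ s ∈ Icc 0 (-t), HasDerivAt (fun s => f (-s)) (-f' (-s)) s := by
      intro s hs
      have h2 := (hf _ (hsub s hs)).scomp s (hasDerivAt_neg s)
      rw [neg_one_smul] at h2
      exact h2
    have h1 := norm_le_gronwallBound_of_norm_deriv_right_le (f := fun s => f (-s))
      (f' := fun s => -f' (-s)) (δ := δ) (K := K) (ε := ε) (a := 0) (b := -t)
      (fun s hs => (hd s hs).continuousAt.continuousWithinAt)
      (fun s hs => (hd s ⟨hs.1, hs.2.le⟩).hasDerivWithinAt)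
      (by simpa using h0)
      (fun s hs => by rw [norm_neg]; exact hb _ (hsub s ⟨hs.1, hs.2.le⟩)) (-t) ⟨by linarith, le_rfl⟩
    rw [sub_zero] at h1
    simp only [neg_neg] at h1
    rwa [abs_of_nonpos h]

/-- `A` is Lipschitz in `x` (Gronwall: `(A t x - A t y)' = DX(Φ t x)(A t x - A t y) + (DX(Φ t x) - DX(Φ t y)) A t y`) and
in `t` (`|A'| ≤ 2 K`). -/
theorem lin_lip (hX : Sm X) (hc : HasCompactSupport X) {Φ : ℝ → Ed d → Ed d} (h0 : ∀ x, Φ 0 x = x)
    (h : ∀ t ∈ Ioo (-2 : ℝ) 2, ∀ x, HasDerivAt (fun s => Φ s x) (X (Φ t x)) t) {τ : ℝ} (hτ : 0 < τ)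
    (hτ1 : τ ≤ 1) {A : ℝ → Ed d → (Ed d →L[ℝ] Ed d)} (hA0 : ∀ x, A 0 x = ContinuousLinearMap.id ℝ (Ed d))
    (hA2 : ∀ t ∈ Ioo (-τ) τ, ∀ x, ‖A t x‖ ≤ 2)
    (hA : ∀ t ∈ Ioo (-τ) τ, ∀ x, HasDerivAt (fun s => A s x) ((fderiv ℝ X (Φ t x)).comp (A t x)) t) :
    ∃ C : ℝ, 0 ≤ C ∧ (∀ t ∈ Ioo (-τ) τ, ∀ x y, ‖A t x - A t y‖ ≤ C * ‖x - y‖) ∧
      ∀ s ∈ Ioo (-τ) τ, ∀ t ∈ Ioo (-τ) τ, ∀ x, ‖A s x - A t x‖ ≤ C * |s - t| := by
  obtain ⟨K, hK0, -, hK2, -, hK4, -⟩ := fld_bound hX hc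
  obtain ⟨C₀, hC0, hC⟩ := traj_lip hX hc h0 h
  have hsub : ∀ t ∈ Ioo (-τ) τ, t ∈ Ioo (-2 : ℝ) 2 := fun t ht =>
    ⟨by linarith [ht.1], by linarith [ht.2]⟩
  have hE : 0 < Real.exp (K + 1) := Real.exp_pos _
  refine ⟨2 * K * C₀ * Real.exp (K + 1) + 2 * K, by positivity, ?_, ?_⟩
  · intro t ht x y
    have hε : 0 ≤ 2 * K * C₀ * ‖x - y‖ := by positivity
    have h1 := bfb3_gw (f := fun t => A t x - A t y)
      (f' := fun t => (fderiv ℝ X (Φ t x)).comp (A t x) - (fderiv ℝ X (Φ t y)).comp (A t y))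
      (δ := 0) (K := K + 1) (ε := 2 * K * C₀ * ‖x - y‖)
      (fun t ht => (hA t ht x).sub (hA t ht y)) (by
        show ‖A 0 x - A 0 y‖ ≤ 0
        rw [hA0, hA0, sub_self, norm_zero]) (fun t ht => by
        have e1 : (fderiv ℝ X (Φ t x)).comp (A t x) - (fderiv ℝ X (Φ t y)).comp (A t y) =
            (fderiv ℝ X (Φ t x)).comp (A t x - A t y) +
            (fderiv ℝ X (Φ t x) - fderiv ℝ X (Φ t y)).comp (A t y) := by
          ext v
          simp
        show ‖(fderiv ℝ X (Φ t x)).comp (A t x) - (fderiv ℝ X (Φ t y)).comp (A t y)‖ ≤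
          (K + 1) * ‖A t x - A t y‖ + 2 * K * C₀ * ‖x - y‖
        rw [e1]
        have h2 : ‖(fderiv ℝ X (Φ t x)).comp (A t x - A t y)‖ ≤ K * ‖A t x - A t y‖ :=
          (ContinuousLinearMap.opNorm_comp_le _ _).trans
            (mul_le_mul_of_nonneg_right (hK2 _) (norm_nonneg _))
        have h3 : ‖(fderiv ℝ X (Φ t x) - fderiv ℝ X (Φ t y)).comp (A t y)‖ ≤
            (K * (C₀ * ‖x - y‖)) * 2 := by
          refine (ContinuousLinearMap.opNorm_comp_le _ _).trans ?_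
          refine mul_le_mul ?_ (hA2 t ht y) (norm_nonneg _) (by positivity)
          exact (hK4 _ _).trans (mul_le_mul_of_nonneg_left (hC t (hsub t ht) x y) hK0)
        have h4 := norm_add_le ((fderiv ℝ X (Φ t x)).comp (A t x - A t y))
          ((fderiv ℝ X (Φ t x) - fderiv ℝ X (Φ t y)).comp (A t y))
        have h5 := norm_nonneg (A t x - A t y)
        linarith) t ht
    refine h1.trans ?_
    have ht1 : |t| ≤ 1 := abs_le.mpr ⟨by linarith [ht.1], by linarith [ht.2]⟩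
    have hne : K + 1 ≠ 0 := by linarith
    rw [gronwallBound_of_K_ne_0 hne]
    simp only [zero_mul, zero_add]
    have h6 : 2 * K * C₀ * ‖x - y‖ / (K + 1) ≤ 2 * K * C₀ * ‖x - y‖ :=
      div_le_self hε (by linarith)
    have h7 : Real.exp ((K + 1) * |t|) - 1 ≤ Real.exp (K + 1) := by
      have h8 : Real.exp ((K + 1) * |t|) ≤ Real.exp (K + 1) :=
        Real.exp_le_exp.mpr (by nlinarith [abs_nonneg t])
      linarith
    have h8 : 0 ≤ Real.exp ((K + 1) * |t|) - 1 := by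
      have := Real.one_le_exp (show 0 ≤ (K + 1) * |t| by positivity)
      linarith
    have h9 := mul_le_mul h6 h7 h8 hε
    have h10 : 0 ≤ 2 * K * ‖x - y‖ := by positivity
    calc _ ≤ _ := h9
      _ ≤ _ := by linarith
  · intro s hs t ht x
    have h1 := (convex_Ioo (-τ) τ).norm_image_sub_le_of_norm_hasDerivWithin_le
      (f := fun s => A s x) (f' := fun s => (fderiv ℝ X (Φ s x)).comp (A s x)) (C := 2 * K)
      (fun s hs => (hA s hs x).hasDerivWithinAt) (fun s hs => by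
        calc ‖(fderiv ℝ X (Φ s x)).comp (A s x)‖ ≤ ‖fderiv ℝ X (Φ s x)‖ * ‖A s x‖ :=
              ContinuousLinearMap.opNorm_comp_le _ _
          _ ≤ K * 2 := mul_le_mul (hK2 _) (hA2 s hs x) (norm_nonneg _) hK0
          _ = 2 * K := by ring) ht hs
    rw [Real.norm_eq_abs] at h1
    have h2 : 0 ≤ 2 * K * C₀ * Real.exp (K + 1) * |s - t| := by positivity
    calc _ ≤ _ := h1
      _ ≤ _ := by linarith


end Pool.Agent.Lib.MP_79abb3_an.W.B
end

section

/-!
Theorem W, block B: Poincare inequality for the domain.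
-/

set_option autoImplicit false
set_option linter.unusedSectionVars false

open MeasureTheory Set Filter Topology Function
open scoped RealInnerProductSpace ENNReal NNReal

namespace Pool.Agent.Lib.MP_79abb3_an.W.B

variable {d : ℕ} {D : Set (Ed d)} {z : Ed d → ℝ} {δ : ℝ}

/-- Along the push map: `|φ (Ψ_s x) - φ x|² ≤ C s ∫_0^s |∇φ (Ψ_t x)|² dt` (`∂_t Ψ_t x = ζ ∇z`, bounded); integrate over `D`
(Tonelli, `Dom.push_lintegral`, `Ψ_t D ⊆ D`). -/
theorem push_diff (h : Dom D z δ) {ζ : Ed d → ℝ} (hζ : Sm ζ) (hc : HasCompactSupport ζ)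
    (h1 : ∀ x, 0 ≤ z x → ζ x = 1) : ∃ s₀ : ℝ, ∃ C : ℝ≥0, 0 < s₀ ∧ ∀ s ∈ Icc 0 s₀, ∀ φ : Ed d → ℝ,
      ContDiff ℝ 1 φ → eLpNorm (fun x => φ (push ζ z s x) - φ x) 2 (volume.restrict D) ≤
        C * ENNReal.ofReal s * eLpNorm (gradient φ) 2 (volume.restrict D) := by
  obtain ⟨s₁, _C₁, hs₁, -, hp⟩ := h.push_prop hζ hc h1
  obtain ⟨s₂, M, hs₂, hl⟩ := h.push_lintegral hζ hc h1
  have hDm : MeasurableSet D := h.isOpen.measurableSet
  -- the vector field is bounded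
  have hgz : Continuous (gradient z) := by
    unfold gradient
    exact (LinearIsometryEquiv.continuous _).comp (h.sm.continuous_fderiv (by simp))
  obtain ⟨Cv, hCv⟩ := (hζ.continuous.smul hgz).bounded_above_of_compact_support hc.smul_right
  have hCv0 : 0 ≤ Cv := (norm_nonneg _).trans (hCv 0)
  -- the push map
  have hpD : ∀ t ∈ Icc (0 : ℝ) s₁, push ζ z t '' D ⊆ D := by
    rintro t ht _ ⟨x, hx, rfl⟩
    have hzx : 0 < z x := by
      rw [h.eq] at hx
      exact hx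
    rcases ht.1.eq_or_lt with h0 | h0
    · have e : push ζ z t x = x := by
        rw [← h0]
        simp [push]
      rw [e]
      exact hx
    · have h2 := (hp t ht).2.2.2.2 x hzx.le
      rw [h.eq]
      show 0 < z (push ζ z t x)
      linarith
  refine ⟨min s₁ s₂, NNReal.sqrt M * Real.toNNReal Cv, lt_min hs₁ hs₂, fun s hs φ hφ => ?_⟩
  have hgφ : Continuous (gradient φ) := by
    unfold gradient
    exact (LinearIsometryEquiv.continuous _).comp (hφ.continuous_fderiv one_ne_zero)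
  set g : Ed d → ℝ≥0∞ := fun x => ‖gradient φ x‖ₑ ^ 2 with hg
  have hgm : Measurable g := (hgφ.enorm.measurable).pow_const 2
  have hv : Continuous fun x => ζ x • gradient z x := hζ.continuous.smul hgz
  have hfin : ∫⁻ x in D, ‖φ (push ζ z s x) - φ x‖ₑ ^ 2 ≤
      ((NNReal.sqrt M * Real.toNNReal Cv * Real.toNNReal s : ℝ≥0) : ℝ≥0∞) ^ 2 * ∫⁻ x in D, g x := by
    calc ∫⁻ x in D, ‖φ (push ζ z s x) - φ x‖ₑ ^ 2
        ≤ ∫⁻ x in D, ENNReal.ofReal ((Cv * s) ^ 2) *
            ∫⁻ t in Icc (0 : ℝ) 1, g (push ζ z (t * s) x) := by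
          refine lintegral_mono fun x => ?_
          refine (bp1_seg hφ (push ζ z s x) x).trans ?_
          have e : ∀ t : ℝ, x + t • (push ζ z s x - x) = push ζ z (t * s) x := by
            intro t
            unfold push
            rw [add_sub_cancel_left, smul_smul]
          simp only [e]
          gcongr
          unfold push
          rw [add_sub_cancel_left, norm_smul, Real.norm_of_nonneg hs.1, mul_comm]
          exact mul_le_mul_of_nonneg_right (hCv x) hs.1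
      _ = ENNReal.ofReal ((Cv * s) ^ 2) *
            ∫⁻ x in D, ∫⁻ t in Icc (0 : ℝ) 1, g (push ζ z (t * s) x) := by
          rw [lintegral_const_mul' _ _ ENNReal.ofReal_ne_top]
      _ = ENNReal.ofReal ((Cv * s) ^ 2) *
            ∫⁻ t in Icc (0 : ℝ) 1, ∫⁻ x in D, g (push ζ z (t * s) x) := by
          rw [lintegral_lintegral_swap]
          have h3 : Measurable fun p : Ed d × ℝ => g (push ζ z (p.2 * s) p.1) := by
            refine hgm.comp (Continuous.measurable ?_)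
            unfold push
            exact continuous_fst.add ((continuous_snd.mul continuous_const).smul
              (hv.comp continuous_fst))
          exact h3.aemeasurable
      _ ≤ ENNReal.ofReal ((Cv * s) ^ 2) * ∫⁻ _ in Icc (0 : ℝ) 1, M * ∫⁻ x in D, g x := by
          refine mul_le_mul_right (setLIntegral_mono' measurableSet_Icc fun t ht => ?_) _
          have hts : t * s ∈ Icc 0 (min s₁ s₂) :=
            ⟨mul_nonneg ht.1 hs.1, (mul_le_of_le_one_left hs.1 ht.2).trans hs.2⟩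
          refine (hl (t * s) ⟨hts.1, hts.2.trans (min_le_right _ _)⟩ D hDm g).trans ?_
          refine mul_le_mul_right (lintegral_mono_set (hpD _ ⟨hts.1, hts.2.trans (min_le_left _ _)⟩)) _
      _ = _ := by
          rw [setLIntegral_const]
          simp only [Real.volume_Icc, sub_zero, ENNReal.ofReal_one, mul_one]
          have e1 : ((NNReal.sqrt M * Real.toNNReal Cv * Real.toNNReal s : ℝ≥0) : ℝ≥0∞) ^ 2 =
              ENNReal.ofReal ((Cv * s) ^ 2) * M := by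
            rw [← ENNReal.coe_pow, mul_assoc, mul_pow, NNReal.sq_sqrt, ← Real.toNNReal_mul hCv0,
              ← Real.toNNReal_pow (mul_nonneg hCv0 hs.1), ENNReal.coe_mul, mul_comm]
            rfl
          rw [e1, mul_assoc]
  have e2 : ((NNReal.sqrt M * Real.toNNReal Cv : ℝ≥0) : ℝ≥0∞) * ENNReal.ofReal s =
      ((NNReal.sqrt M * Real.toNNReal Cv * Real.toNNReal s : ℝ≥0) : ℝ≥0∞) := by
    rw [ENNReal.coe_mul (NNReal.sqrt M * Real.toNNReal Cv)]
    rfl
  rw [e2]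
  exact bp1_le _ _ _ _ _ hfin

/-- **Poincaré's inequality for `D`.** `Ψ_s D` is contained in the compact set `K = {z ≥ s/2}`; `PI_compact` for `K`;
`|φ - c|_{L²(D)} ≤ |φ ∘ Ψ_s - c|_{L²(D)} + |φ ∘ Ψ_s - φ|_{L²(D)}` (`push_diff`) and
`|φ ∘ Ψ_s - c|²_{L²(D)} ≤ M |φ - c|²_{L²(K)}` (`Dom.push_lintegral`). -/
theorem Dom.poincare (h : Dom D z δ) : PI D D := by
  obtain ⟨ζ, hζ, hc, -, R, -, hDR, hζ1⟩ := exists_big_cut h.bdd
  have h1 : ∀ x, 0 ≤ z x → ζ x = 1 := by
    intro x hx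
    refine hζ1 x ?_
    have hx' : x ∈ closure D := by
      rw [h.closure_eq]
      exact hx
    have h2 : x ∈ Metric.closedBall (0 : Ed d) R :=
      closure_minimal (hDR.trans Metric.ball_subset_closedBall) Metric.isClosed_closedBall hx'
    rw [Metric.mem_closedBall] at h2
    rw [Metric.mem_ball]
    linarith
  obtain ⟨s₁, _C₁, hs₁, -, hp⟩ := h.push_prop hζ hc h1
  obtain ⟨s₂, M, hs₂, hl⟩ := h.push_lintegral hζ hc h1
  obtain ⟨s₃, C, hs₃, hd⟩ := push_diff h hζ hc h1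
  set s := min s₁ (min s₂ s₃) with hs
  have hs0 : 0 < s := lt_min hs₁ (lt_min hs₂ hs₃)
  have hm1 : s ∈ Icc 0 s₁ := ⟨hs0.le, min_le_left _ _⟩
  have hm2 : s ∈ Icc 0 s₂ := ⟨hs0.le, (min_le_right _ _).trans (min_le_left _ _)⟩
  have hm3 : s ∈ Icc 0 s₃ := ⟨hs0.le, (min_le_right _ _).trans (min_le_right _ _)⟩
  have hDm : MeasurableSet D := h.isOpen.measurableSet
  obtain ⟨U, -, -, hKU, -, CU, hU⟩ := PI_compact h.isOpen h.conn
    (h.core_compact (half_pos hs0)) (fun x (hx : s / 2 ≤ z x) => by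
      rw [h.eq]
      show 0 < z x
      linarith)
  have hpK : push ζ z s '' D ⊆ U := by
    rintro _ ⟨x, hx, rfl⟩
    have hzx : 0 < z x := by
      rw [h.eq] at hx
      exact hx
    exact hKU ((hp s hm1).2.2.2.2 x hzx.le)
  refine ⟨NNReal.sqrt M * CU + C * Real.toNNReal s, fun φ hφ => ?_⟩
  obtain ⟨c, hc'⟩ := hU φ hφ
  refine ⟨c, ?_⟩
  set E := eLpNorm (gradient φ) 2 (volume.restrict D) with hE
  have hpc : Continuous (push ζ z s) := (hp s hm1).1.continuous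
  have e1 : (fun x => φ x - c) = (fun x => φ (push ζ z s x) - c) -
      fun x => φ (push ζ z s x) - φ x := by
    funext x
    simp
  have h4 : eLpNorm (fun x => φ (push ζ z s x) - c) 2 (volume.restrict D) ≤
      (NNReal.sqrt M : ℝ≥0∞) * eLpNorm (fun x => φ x - c) 2 (volume.restrict U) := by
    refine bp1_le _ _ _ _ _ ?_
    refine (hl s hm2 D hDm fun y => ‖φ y - c‖ₑ ^ 2).trans ?_
    rw [← ENNReal.coe_pow, NNReal.sq_sqrt]
    exact mul_le_mul_right (lintegral_mono_set hpK) _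
  rw [e1]
  refine (eLpNorm_sub_le
    ((hφ.continuous.comp hpc).sub continuous_const).aestronglyMeasurable
    ((hφ.continuous.comp hpc).sub hφ.continuous).aestronglyMeasurable (by norm_num)).trans ?_
  refine (add_le_add (h4.trans (mul_le_mul_right hc' _)) (hd s hm3 φ hφ)).trans (le_of_eq ?_)
  have e2 : ((Real.toNNReal s : ℝ≥0) : ℝ≥0∞) = ENNReal.ofReal s := rfl
  rw [ENNReal.coe_add, ENNReal.coe_mul, ENNReal.coe_mul, add_mul, e2, mul_assoc, mul_assoc]

end Pool.Agent.Lib.MP_79abb3_an.W.B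
end

section

/-!
Theorem W, block B: existence of weak solutions.
-/

set_option autoImplicit false
set_option linter.unusedSectionVars false

open MeasureTheory Set Filter Topology Function
open scoped RealInnerProductSpace ENNReal NNReal

namespace Pool.Agent.Lib.MP_79abb3_an.W.B

variable {d : ℕ} {D : Set (Ed d)} {z : Ed d → ℝ} {δ : ℝ}

private theorem be1_fin (hb : Bornology.IsBounded D) : IsFiniteMeasure (volume.restrict D) :=
  ⟨by rw [Measure.restrict_apply_univ]; exact hb.measure_lt_top⟩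

/-- the space of test functions -/
private def be1T (d : ℕ) : Submodule ℝ (Ed d → ℝ) where
  carrier := {φ | IsT1 φ}
  add_mem' := fun {_ _} hφ hψ => ⟨hφ.c1.add hψ.c1, hφ.cpt.add hψ.cpt⟩
  zero_mem' := ⟨contDiff_const, HasCompactSupport.zero⟩
  smul_mem' := fun c _ hφ => ⟨hφ.c1.const_smul c, hφ.cpt.smul_left (f := fun _ => c)⟩

private theorem be1_grad_add {φ ψ : Ed d → ℝ} (hφ : IsT1 φ) (hψ : IsT1 ψ) :
    gradient (φ + ψ) = gradient φ + gradient ψ := by
  funext x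
  rw [Pi.add_apply]
  unfold gradient
  rw [fderiv_add (hφ.c1.differentiable one_ne_zero x) (hψ.c1.differentiable one_ne_zero x), map_add]

private theorem be1_grad_smul {φ : Ed d → ℝ} (c : ℝ) (hφ : IsT1 φ) :
    gradient (c • φ) = c • gradient φ := by
  funext x
  rw [Pi.smul_apply]
  unfold gradient
  rw [fderiv_const_smul (hφ.c1.differentiable one_ne_zero x), map_smul]

/-- the classes of the gradients of the test functions -/
private noncomputable def be1G (D : Set (Ed d)) :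
    be1T d →ₗ[ℝ] Lp (Ed d) 2 (volume.restrict D) where
  toFun φ := (bt8_grad_mem (D := D) φ.2).toLp (gradient φ.1)
  map_add' φ ψ := by
    rw [← MemLp.toLp_add]
    exact MemLp.toLp_congr _ _ (Eventually.of_forall fun x => congrFun (be1_grad_add φ.2 ψ.2) x)
  map_smul' c φ := by
    rw [RingHom.id_apply, ← MemLp.toLp_const_smul]
    exact MemLp.toLp_congr _ _ (Eventually.of_forall fun x => congrFun (be1_grad_smul c φ.2) x)

private theorem be1G_norm (φ : be1T d) :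
    ‖be1G D φ‖ = (eLpNorm (gradient φ.1) 2 (volume.restrict D)).toReal :=
  Lp.norm_toLp (gradient φ.1) (bt8_grad_mem φ.2)

private theorem be1_int {f : Ed d → ℝ} (hf : MemLp f 2 (volume.restrict D)) {φ : Ed d → ℝ}
    (hφ : IsT1 φ) : Integrable (fun x => f x * φ x) (volume.restrict D) :=
  hf.integrable_mul (bt8_mem hφ)

/-- the functional -/
private noncomputable def be1L {F : Ed d → Ed d} {f : Ed d → ℝ}
    (hF : MemLp F 2 (volume.restrict D)) (hf : MemLp f 2 (volume.restrict D)) :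
    be1T d →ₗ[ℝ] ℝ where
  toFun φ := ⟪hF.toLp F, be1G D φ⟫ - ∫ x in D, f x * φ.1 x
  map_add' φ ψ := by
    have e : ∫ x in D, f x * (φ + ψ).1 x =
        (∫ x in D, f x * φ.1 x) + ∫ x in D, f x * ψ.1 x := by
      rw [← integral_add (be1_int hf φ.2) (be1_int hf ψ.2)]
      apply integral_congr_ae
      filter_upwards with x
      show f x * (φ.1 x + ψ.1 x) = _
      ring
    rw [map_add, inner_add_right, e]
    ring
  map_smul' c φ := by
    have e : ∫ x in D, f x * (c • φ).1 x = c * ∫ x in D, f x * φ.1 x := by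
      rw [← integral_const_mul]
      apply integral_congr_ae
      filter_upwards with x
      show f x * (c * φ.1 x) = _
      ring
    rw [map_smul, inner_smul_right, e, RingHom.id_apply, smul_eq_mul]
    ring

/-- Bound of a functional: for `∫_D f = 0`, `|∫_D f φ| = |∫_D f (φ - c)| ≤ C |f| |∇φ|`. -/
theorem functional_bound (hb : Bornology.IsBounded D) (hP : PI D D) : ∃ C : ℝ≥0, ∀ f : Ed d → ℝ,
    MemLp f 2 (volume.restrict D) → ∫ x in D, f x = 0 → ∀ φ, IsT1 φ →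
    ENNReal.ofReal |∫ x in D, f x * φ x| ≤ C * eLpNorm f 2 (volume.restrict D) *
      eLpNorm (gradient φ) 2 (volume.restrict D) := by
  obtain ⟨C, hC⟩ := hP
  refine ⟨C, fun f hf h0 φ hφ => ?_⟩
  have : IsFiniteMeasure (volume.restrict D) := be1_fin hb
  obtain ⟨c, hc⟩ := hC φ hφ.c1
  have hφm : MemLp φ 2 (volume.restrict D) := bt8_mem hφ
  have hφc : MemLp (fun x => φ x - c) 2 (volume.restrict D) := hφm.sub (memLp_const c)
  have hfi : Integrable f (volume.restrict D) := hf.integrable (by norm_num)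
  have hfφ : Integrable (fun x => f x * φ x) (volume.restrict D) := hf.integrable_mul hφm
  have e1 : ∫ x in D, f x * φ x = ∫ x in D, f x * (φ x - c) := by
    have e2 : (fun x => f x * (φ x - c)) = fun x => f x * φ x - f x * c := by
      funext x; ring
    rw [e2, integral_sub hfφ (hfi.mul_const c), integral_mul_const, h0, zero_mul, sub_zero]
  rw [e1, ← Real.enorm_eq_ofReal_abs]
  refine (enorm_integral_le_lintegral_enorm _).trans ?_
  have e3 : ∫⁻ x in D, ‖f x * (φ x - c)‖ₑ =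
      eLpNorm (f • fun x => φ x - c) 1 (volume.restrict D) := by
    rw [eLpNorm_one_eq_lintegral_enorm]
    rfl
  rw [e3]
  refine (eLpNorm_smul_le_mul_eLpNorm (p := 2) (q := 2) hφc.1 hf.1).trans ?_
  calc eLpNorm f 2 (volume.restrict D) * eLpNorm (fun x => φ x - c) 2 (volume.restrict D)
      ≤ eLpNorm f 2 (volume.restrict D) * (C * eLpNorm (gradient φ) 2 (volume.restrict D)) :=
        mul_le_mul_right hc _
    _ = C * eLpNorm f 2 (volume.restrict D) * eLpNorm (gradient φ) 2 (volume.restrict D) := by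
        rw [← mul_assoc, mul_comm (eLpNorm f 2 (volume.restrict D)) (C : ℝ≥0∞)]

/-- **Existence.** In the Hilbert space `Lp (Ed d) 2 (volume.restrict D)` let `S` be the closure of the space of the
classes of gradients of test functions. The functional `φ ↦ ∫ ⟨F, ∇φ⟩ - f φ` on test functions is bounded by
`C |∇φ|` (`functional_bound`), so it extends to `S` (`LinearMap.extendOfNorm` or the Riesz representation of a bounded
functional on a dense subspace) and is represented by `γ ∈ S`. -/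
theorem exists_isQ (hD : IsOpen D) (hb : Bornology.IsBounded D) (hP : PI D D) {F : Ed d → Ed d} {f : Ed d → ℝ}
    (hF : MemLp F 2 (volume.restrict D)) (hf : MemLp f 2 (volume.restrict D)) (h0 : ∫ x in D, f x = 0) :
    ∃ γ, IsQ D F f γ := by
  obtain ⟨C, hC⟩ := functional_bound hb hP
  -- the bound
  have hL : ∀ φ : be1T d, ‖be1L hF hf φ‖ ≤
      (‖hF.toLp F‖ + C * (eLpNorm f 2 (volume.restrict D)).toReal) * ‖be1G D φ‖ := by
    intro φ
    have h1 : |∫ x in D, f x * φ.1 x| ≤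
        C * (eLpNorm f 2 (volume.restrict D)).toReal * ‖be1G D φ‖ := by
      have h2 := hC f hf h0 φ.1 φ.2
      rw [ENNReal.ofReal_le_iff_le_toReal] at h2
      · rwa [ENNReal.toReal_mul, ENNReal.toReal_mul, ENNReal.coe_toReal, ← be1G_norm] at h2
      · exact ENNReal.mul_ne_top (ENNReal.mul_ne_top ENNReal.coe_ne_top hf.eLpNorm_ne_top)
          (bt8_grad_mem φ.2).eLpNorm_ne_top
    have h3 : |⟪hF.toLp F, be1G D φ⟫| ≤ ‖hF.toLp F‖ * ‖be1G D φ‖ := abs_real_inner_le_norm _ _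
    rw [add_mul]
    exact (abs_sub _ _).trans (add_le_add h3 h1)
  -- the closure of the space of gradients
  set S : Submodule ℝ (Lp (Ed d) 2 (volume.restrict D)) :=
    (LinearMap.range (be1G D)).topologicalClosure with hS
  have : CompleteSpace S :=
    (Submodule.isClosed_topologicalClosure (LinearMap.range (be1G D))).completeSpace_coe
  have hGS : ∀ φ : be1T d, be1G D φ ∈ S := fun φ =>
    Submodule.le_topologicalClosure _ ⟨φ, rfl⟩
  set e : be1T d →ₗ[ℝ] S := (be1G D).codRestrict S hGS with he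
  have hap : ∀ x : S, ∀ ε : ℝ, 0 < ε → ∃ φ : be1T d, dist (x : Lp (Ed d) 2 (volume.restrict D))
      (be1G D φ) < ε := by
    intro x ε hε
    have hx : (x : Lp (Ed d) 2 (volume.restrict D)) ∈
        closure ((LinearMap.range (be1G D) : Submodule ℝ _) : Set _) := x.2
    obtain ⟨b, ⟨φ, rfl⟩, hb⟩ := Metric.mem_closure_iff.1 hx ε hε
    exact ⟨φ, hb⟩
  have hde : DenseRange e := by
    intro x
    rw [Metric.mem_closure_iff]
    intro ε hε
    obtain ⟨φ, hφ⟩ := hap x ε hε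
    exact ⟨e φ, ⟨φ, rfl⟩, hφ⟩
  have hne : ∃ M : ℝ, ∀ φ : be1T d, ‖be1L hF hf φ‖ ≤ M * ‖e φ‖ := ⟨_, hL⟩
  set Λ : S →L[ℝ] ℝ := (be1L hF hf).extendOfNorm e with hΛ
  set γS : S := (InnerProductSpace.toDual ℝ S).symm Λ with hγS
  have hrep : ∀ φ : be1T d, ⟪(γS : Lp (Ed d) 2 (volume.restrict D)), be1G D φ⟫ =
      be1L hF hf φ := by
    intro φ
    have h1 : ⟪γS, e φ⟫ = Λ (e φ) := InnerProductSpace.toDual_symm_apply
    rw [hΛ, LinearMap.extendOfNorm_eq hde hne] at h1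
    exact h1
  have hγ : MemLp (γS : Lp (Ed d) 2 (volume.restrict D)) 2 (volume.restrict D) := Lp.memLp _
  have hγL : hγ.toLp ((γS : Lp (Ed d) 2 (volume.restrict D)) : Ed d → Ed d) = γS :=
    Lp.toLp_coeFn _ _
  refine ⟨((γS : Lp (Ed d) 2 (volume.restrict D)) : Ed d → Ed d), hF, hf, ⟨hγ, ?_⟩, ?_⟩
  · intro ε hε
    obtain ⟨ε', h1, h2⟩ : ∃ ε' : ℝ, 0 < ε' ∧ ENNReal.ofReal ε' ≤ ε := by
      by_cases hT : ε = ⊤
      · exact ⟨1, one_pos, by rw [hT]; exact le_top⟩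
      · exact ⟨ε.toReal, ENNReal.toReal_pos hε hT, (ENNReal.ofReal_toReal hT).le⟩
    obtain ⟨φ, hφ⟩ := hap γS ε' h1
    refine ⟨φ.1, φ.2, le_trans ?_ h2⟩
    have h3 := hφ.le
    have hg := bt8_grad_mem (D := D) φ.2
    rw [dist_eq_norm, ← hγL] at h3
    have h4 : hγ.toLp _ - be1G D φ = (hγ.sub hg).toLp _ := (MemLp.toLp_sub hγ hg).symm
    rw [h4, Lp.norm_toLp] at h3
    exact (ENNReal.le_ofReal_iff_toReal_le (hγ.sub hg).eLpNorm_ne_top h1.le).2 h3
  · intro φ hφ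
    have hg := bt8_grad_mem (D := D) hφ
    have h1 := hrep ⟨φ, hφ⟩
    have h2 := bt8_inner hγ hg
    have h3 := bt8_inner hF hg
    have h4 : be1G D ⟨φ, hφ⟩ = hg.toLp (gradient φ) := rfl
    have h5 : be1L hF hf ⟨φ, hφ⟩ = ⟪hF.toLp F, be1G D ⟨φ, hφ⟩⟫ - ∫ x in D, f x * φ x := rfl
    rw [h5, h4, ← h3.2] at h1
    rw [hγL] at h2
    rw [← h2.2] at h1
    have h6 : ∫ x in D, (⟪((γS : Lp (Ed d) 2 (volume.restrict D)) : Ed d → Ed d) x - F x,
        gradient φ x⟫ + f x * φ x) =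
        ((∫ x in D, ⟪((γS : Lp (Ed d) 2 (volume.restrict D)) : Ed d → Ed d) x, gradient φ x⟫) -
          ∫ x in D, ⟪F x, gradient φ x⟫) + ∫ x in D, f x * φ x := by
      have h7 : Integrable (fun x => ⟪((γS : Lp (Ed d) 2 (volume.restrict D)) : Ed d → Ed d) x,
          gradient φ x⟫ - ⟪F x, gradient φ x⟫) (volume.restrict D) := h2.1.sub h3.1
      rw [← integral_sub h2.1 h3.1, ← integral_add h7 (be1_int hf hφ)]
      apply integral_congr_ae
      filter_upwards with x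
      rw [inner_sub_left]
    rw [h6, h1]
    ring

/-- The energy bound: test with `∇φ` close to `γ` (`InG.le_of_test` with `w = F`). -/
theorem isQ_bound (hD : IsOpen D) (hb : Bornology.IsBounded D) (hP : PI D D) : ∃ C : ℝ≥0,
    ∀ (F γ : Ed d → Ed d) (f : Ed d → ℝ), IsQ D F f γ → ∫ x in D, f x = 0 →
      eLpNorm γ 2 (volume.restrict D) ≤ eLpNorm F 2 (volume.restrict D) + C * eLpNorm f 2 (volume.restrict D) := by
  obtain ⟨C, hC⟩ := functional_bound hb hP
  refine ⟨C, fun F γ f h h0 => ?_⟩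
  have hfT : (C : ℝ≥0∞) * eLpNorm f 2 (volume.restrict D) ≠ ⊤ :=
    ENNReal.mul_ne_top ENNReal.coe_ne_top h.memf.eLpNorm_ne_top
  have key := h.inG.le_of_test h.memF
    (κ := ((C : ℝ≥0∞) * eLpNorm f 2 (volume.restrict D)).toReal) ENNReal.toReal_nonneg ?_
  · rwa [ENNReal.ofReal_toReal hfT] at key
  · intro φ hφ
    have hg := bt8_grad_mem (D := D) hφ
    have hu : MemLp (fun x => γ x - F x) 2 (volume.restrict D) := h.inG.mem.sub h.memF
    have e4 := h.eq φ hφ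
    rw [integral_add (bt8_inner hu hg).1 (be1_int h.memf hφ)] at e4
    have e5 : ∫ x in D, ⟪γ x - F x, gradient φ x⟫ = -∫ x in D, f x * φ x := by linarith
    rw [e5, abs_neg, ← ENNReal.toReal_mul]
    refine (ENNReal.ofReal_le_iff_le_toReal ?_).1 (hC f h.memf h0 φ hφ)
    exact ENNReal.mul_ne_top hfT hg.eLpNorm_ne_top

/-- Necessary condition (test function equal to `1` on `D`). -/
theorem IsQ.mean (hb : Bornology.IsBounded D) {F γ : Ed d → Ed d} {f : Ed d → ℝ} (h : IsQ D F f γ) (hD : IsOpen D) :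
    ∫ x in D, f x = 0 := by
  obtain ⟨R, hR⟩ := hb.subset_ball (0 : Ed d)
  set ψ : ContDiffBump (0 : Ed d) := ⟨|R| + 1, |R| + 2, by positivity, by linarith⟩ with hψ
  have h1 : ∀ x ∈ D, ψ x = 1 := by
    intro x hx
    apply ψ.one_of_mem_closedBall
    have h2 := hR hx
    rw [Metric.mem_ball] at h2
    rw [Metric.mem_closedBall]
    have : R ≤ |R| := le_abs_self R
    show dist x 0 ≤ |R| + 1
    linarith
  have hT : IsT1 (ψ : Ed d → ℝ) := ⟨ψ.contDiff, ψ.hasCompactSupport⟩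
  have h3 := h.eq _ hT
  rw [← h3]
  apply setIntegral_congr_fun hD.measurableSet
  intro x hx
  have hg : gradient (ψ : Ed d → ℝ) x = 0 := by
    have e : (ψ : Ed d → ℝ) =ᶠ[𝓝 x] fun _ => 1 := by
      filter_upwards [hD.mem_nhds hx] with y hy
      exact h1 y hy
    unfold gradient
    rw [e.fderiv_eq]
    simp
  show f x = ⟪γ x - F x, gradient (ψ : Ed d → ℝ) x⟫ + f x * ψ x
  rw [hg, inner_zero_right, h1 x hx, zero_add, mul_one]

end Pool.Agent.Lib.MP_79abb3_an.W.B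
end

section

/-!
Theorem W, block B: flows, trajectories.
-/

set_option autoImplicit false
set_option linter.unusedSectionVars false

open MeasureTheory Set Filter Topology Function
open scoped RealInnerProductSpace ENNReal

namespace Pool.Agent.Lib.MP_79abb3_an.W.B

variable {d : ℕ} {X : Ed d → Ed d}

/-- Trajectories for `|t| < 2`. (`IsPicardLindelof` on `[-2, 2]` with the ball of radius `2 K` about `x`:
`X` is bounded by `K` and Lipschitz with constant `K`; `IsPicardLindelof.exists_eq_forall_mem_Icc_hasDerivWithinAt₀` or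
similar.) -/
theorem exists_traj (hX : Sm X) (hc : HasCompactSupport X) : ∃ Φ : ℝ → Ed d → Ed d, (∀ x, Φ 0 x = x) ∧
    ∀ t ∈ Ioo (-2 : ℝ) 2, ∀ x, HasDerivAt (fun s => Φ s x) (X (Φ t x)) t := by
  obtain ⟨K, hK, hb, -, hl, -, -⟩ := fld_bound hX hc
  have key : ∀ x : Ed d, ∃ α : ℝ → Ed d, α 0 = x ∧
      ∀ t ∈ Icc (-2 : ℝ) 2, HasDerivWithinAt α (X (α t)) (Icc (-2) 2) t := by
    intro x
    have h0 : (0 : ℝ) ∈ Icc (-2 : ℝ) 2 := ⟨by norm_num, by norm_num⟩
    have hpl : IsPicardLindelof (fun _ => X) (⟨0, h0⟩ : Icc (-2 : ℝ) 2) x (2 * ⟨K, hK⟩) 0 ⟨K, hK⟩ ⟨K, hK⟩ := by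
      refine IsPicardLindelof.of_time_independent (fun y _ => hb y) ?_ ?_
      · refine LipschitzOnWith.of_dist_le_mul fun y _ w _ => ?_
        rw [dist_eq_norm, dist_eq_norm]
        exact hl y w
      · show K * max (2 - 0) (0 - -2) ≤ ((2 * ⟨K, hK⟩ : NNReal) : ℝ) - ((0 : NNReal) : ℝ)
        rw [NNReal.coe_mul]
        show K * max (2 - 0) (0 - -2) ≤ ((2 : NNReal) : ℝ) * K - ((0 : NNReal) : ℝ)
        norm_num
        linarith
    obtain ⟨α, h1, h2⟩ := hpl.exists_eq_forall_mem_Icc_hasDerivWithinAt₀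
    exact ⟨α, h1, h2⟩
  choose α h1 h2 using key
  refine ⟨fun t x => α x t, h1, fun t ht x => ?_⟩
  exact (h2 x t (Ioo_subset_Icc_self ht)).hasDerivAt (Icc_mem_nhds ht.1 ht.2)

end Pool.Agent.Lib.MP_79abb3_an.W.B
end
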