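import Pool.Agent.Lib.MP_79abb3_an.W.BDef

/-!
Theorem W, block B: geometry of the domain, cut-off functions.
-/

set_option autoImplicit false
set_option linter.unusedSectionVars false

open MeasureTheory Set Filter Topology Function
open scoped RealInnerProductSpace ENNReal NNReal

namespace Pool.Agent.Lib.MP_79abb3_an.W.B

variable {d : ℕ} {D : Set (Ed d)} {z : Ed d → ℝ} {δ : ℝ}

theorem Dom.isOpen (h : Dom D z δ) : IsOpen D := by
  rw [h.eq]
  exact isOpen_lt continuous_const h.sm.continuous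

/-- `{z ≥ a}` is compact: it is closed and contained in the bounded set `D`. -/
theorem Dom.core_compact (h : Dom D z δ) {a : ℝ} (ha : 0 < a) : IsCompact {x | a ≤ z x} := by
  refine Metric.isCompact_of_isClosed_isBounded (isClosed_le continuous_const h.sm.continuous)
    (h.bdd.subset ?_)
  intro x hx
  rw [h.eq]
  exact lt_of_lt_of_le ha hx

/-- `{z ≥ 0}` is the closure of `D`, and compact: if `z x = 0` then `∇z x ≠ 0`, so `z (x + t ∇z x) > 0` for small
`t > 0`. -/
theorem Dom.closure_eq (h : Dom D z δ) : closure D = {x | 0 ≤ z x} := by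
  apply Subset.antisymm
  · refine closure_minimal ?_ (isClosed_le continuous_const h.sm.continuous)
    intro x hx
    rw [h.eq] at hx
    have h1 : 0 < z x := hx
    exact h1.le
  · intro x hx
    by_contra hc
    have hxD : x ∉ D := fun hxD => hc (subset_closure hxD)
    have hz0 : z x = 0 := by
      apply le_antisymm _ hx
      by_contra h1
      apply hxD
      rw [h.eq]
      exact not_le.mp h1
    have hn : (closure D)ᶜ ∈ 𝓝 x := isClosed_closure.isOpen_compl.mem_nhds hc
    have hmax : IsLocalMax z x := by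
      filter_upwards [hn] with y hy
      rw [hz0]
      by_contra h1
      apply hy
      apply subset_closure
      rw [h.eq]
      exact not_le.mp h1
    have h0 : fderiv ℝ z x = 0 := hmax.fderiv_eq_zero
    have h1 := h.one x (by rw [hz0, abs_zero]; have := h.pos; linarith)
    rw [gradient, h0, map_zero, norm_zero] at h1
    exact zero_ne_one h1

theorem Dom.compact_nonneg (h : Dom D z δ) : IsCompact {x | 0 ≤ z x} := by
  rw [← h.closure_eq]
  exact h.bdd.isCompact_closure

/-- Cut-off function of the core: `χ = smoothTransition (2 z / a - 1)`: `0` for `z ≤ a / 2`, `1` for `z ≥ a`. -/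
theorem Dom.exists_cut (h : Dom D z δ) {a : ℝ} (ha : 0 < a) : ∃ χ : Ed d → ℝ, Sm χ ∧ HasCompactSupport χ ∧
    tsupport χ ⊆ D ∧ (∀ x, χ x ∈ Icc (0 : ℝ) 1) ∧ (∀ x, a ≤ z x → χ x = 1) ∧ ∀ x, z x ≤ a / 2 → χ x = 0 := by
  have hz : ∀ x, z x ≤ a / 2 → Real.smoothTransition (2 * z x / a - 1) = 0 := by
    intro x hx
    apply Real.smoothTransition.zero_of_nonpos
    have h1 : 2 * z x / a ≤ 1 := by
      rw [div_le_one ha]
      linarith
    linarith
  have hsub : closure (support fun x => Real.smoothTransition (2 * z x / a - 1)) ⊆ {x | a / 2 ≤ z x} := by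
    refine closure_minimal ?_ (isClosed_le continuous_const h.sm.continuous)
    intro x hx
    by_contra hc
    exact hx (hz x (not_le.mp hc).le)
  refine ⟨fun x => Real.smoothTransition (2 * z x / a - 1), ?_, ?_, ?_, ?_, ?_, hz⟩
  · exact Real.smoothTransition.contDiff.comp
      (((contDiff_const.mul h.sm).div_const a).sub contDiff_const)
  · refine HasCompactSupport.intro (h.core_compact (half_pos ha)) fun x hx => ?_
    exact hz x (not_le.mp hx).le
  · intro x hx
    have h1 : a / 2 ≤ z x := hsub hx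
    rw [h.eq]
    exact lt_of_lt_of_le (half_pos ha) h1
  · intro x
    exact ⟨Real.smoothTransition.nonneg _, Real.smoothTransition.le_one _⟩
  · intro x hx
    apply Real.smoothTransition.one_of_one_le
    have h1 : 2 ≤ 2 * z x / a := by
      rw [le_div_iff₀ ha]
      linarith
    linarith

/-- Cut-off function of the bounded set `D`, equal to `1` on a neighbourhood of the closure (`exists_contDiff_...` for a
large ball, or `ContDiffBump`). -/
theorem exists_big_cut (hb : Bornology.IsBounded D) : ∃ ζ : Ed d → ℝ, Sm ζ ∧ HasCompactSupport ζ ∧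
    (∀ x, ζ x ∈ Icc (0 : ℝ) 1) ∧ ∃ R : ℝ, 0 < R ∧ D ⊆ Metric.ball 0 R ∧ ∀ x ∈ Metric.ball (0 : Ed d) (R + 1), ζ x = 1 := by
  obtain ⟨R, hR0, hR⟩ := hb.subset_ball_lt 0 (0 : Ed d)
  let b : ContDiffBump (0 : Ed d) := ⟨R + 1, R + 2, by linarith, by linarith⟩
  refine ⟨b, b.contDiff, b.hasCompactSupport, fun x => ⟨b.nonneg, b.le_one⟩, R, hR0, hR, ?_⟩
  intro x hx
  exact b.one_of_mem_closedBall (Metric.ball_subset_closedBall hx)

private theorem bg1_lip {F G : Type*} [NormedAddCommGroup F] [NormedSpace ℝ F] [ProperSpace F]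
    [NormedAddCommGroup G] [NormedSpace ℝ G] {g : F → G} (hg : ContDiff ℝ ((⊤ : ℕ∞) : WithTop ℕ∞) g) (R : ℝ) :
    ∃ M : ℝ, 0 ≤ M ∧ (∀ x ∈ Metric.closedBall (0 : F) R, ∀ y ∈ Metric.closedBall (0 : F) R,
      ‖g y - g x‖ ≤ M * ‖y - x‖) ∧ ∀ x ∈ Metric.closedBall (0 : F) R, ‖g x‖ ≤ M := by
  have hc : Continuous (fderiv ℝ g) :=
    (hg.fderiv_right (m := 0) (by exact_mod_cast le_top)).continuous
  obtain ⟨M1, hM1⟩ := (isCompact_closedBall (0 : F) R).exists_bound_of_continuousOn hc.continuousOn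
  obtain ⟨M2, hM2⟩ := (isCompact_closedBall (0 : F) R).exists_bound_of_continuousOn
    hg.continuous.continuousOn
  refine ⟨max (max M1 M2) 0, le_max_right _ _, fun x hx y hy => ?_, fun x hx => ?_⟩
  · exact (convex_closedBall (0 : F) R).norm_image_sub_le_of_norm_fderiv_le
      (fun w _ => (hg.differentiable (by simp)) w)
      (fun w hw => (hM1 w hw).trans ((le_max_left _ _).trans (le_max_left _ _))) hx hy
  · exact (hM2 x hx).trans ((le_max_right _ _).trans (le_max_left _ _))

private theorem bg1_taylor {F : Type*} [NormedAddCommGroup F] [InnerProductSpace ℝ F] [FiniteDimensional ℝ F]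
    {z : F → ℝ} (hz : ContDiff ℝ ((⊤ : ℕ∞) : WithTop ℕ∞) z) (hK : IsCompact {x | 0 ≤ z x}) :
    ∃ M : ℝ, 0 < M ∧ ∀ x, 0 ≤ z x → ∀ y, ‖y - x‖ ≤ 1 →
    |z y - z x - ⟪gradient z x, y - x⟫| ≤ M * ‖y - x‖ ^ 2 ∧ ‖gradient z y - gradient z x‖ ≤ M * ‖y - x‖ ∧
      ‖gradient z y‖ ≤ M := by
  have : ProperSpace F := FiniteDimensional.proper ℝ F
  obtain ⟨R, hR0, hR⟩ := hK.isBounded.subset_closedBall_lt 0 (0 : F)
  have hd1 : ContDiff ℝ ((⊤ : ℕ∞) : WithTop ℕ∞) (fderiv ℝ z) := hz.fderiv_right (by exact_mod_cast le_top)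
  obtain ⟨M1, h1, hM1, hM2⟩ := bg1_lip hd1 (R + 1)
  have hmem : ∀ x, 0 ≤ z x → ∀ y, ‖y - x‖ ≤ 1 → y ∈ Metric.closedBall (0 : F) (R + 1) := by
    intro x hx y hy
    have h1 : x ∈ Metric.closedBall (0 : F) R := hR hx
    rw [mem_closedBall_zero_iff] at h1 ⊢
    calc ‖y‖ = ‖(y - x) + x‖ := by rw [sub_add_cancel]
      _ ≤ ‖y - x‖ + ‖x‖ := norm_add_le _ _
      _ ≤ R + 1 := by linarith
  have key : ∀ x, 0 ≤ z x → ∀ y, ‖y - x‖ ≤ 1 → ‖fderiv ℝ z y - fderiv ℝ z x‖ ≤ M1 * ‖y - x‖ := by
    intro x hx y hy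
    exact hM1 x (hmem x hx x (by simp)) y (hmem x hx y hy)
  refine ⟨M1 + 1, by linarith, fun x hx y hy => ⟨?_, ?_, ?_⟩⟩
  · have h3 : ‖z y - z x - fderiv ℝ z x (y - x)‖ ≤ (M1 * ‖y - x‖) * ‖y - x‖ := by
      refine (convex_closedBall x ‖y - x‖).norm_image_sub_le_of_norm_hasFDerivWithin_le'
        (f' := fderiv ℝ z) (fun w _ => ((hz.differentiable (by simp)) w).hasFDerivAt.hasFDerivWithinAt)
        ?_ (by simp) (by simp [dist_eq_norm])
      intro w hw
      rw [Metric.mem_closedBall, dist_eq_norm] at hw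
      exact (key x hx w (hw.trans hy)).trans (mul_le_mul_of_nonneg_left hw h1)
    have h4 : ⟪gradient z x, y - x⟫ = fderiv ℝ z x (y - x) := by
      rw [gradient, InnerProductSpace.toDual_symm_apply]
    rw [h4, ← Real.norm_eq_abs]
    refine h3.trans ?_
    rw [mul_assoc, ← pow_two]
    exact mul_le_mul_of_nonneg_right (by linarith) (by positivity)
  · rw [gradient, gradient, ← map_sub, LinearIsometryEquiv.norm_map]
    exact (key x hx y hy).trans (mul_le_mul_of_nonneg_right (by linarith) (norm_nonneg _))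
  · rw [gradient, LinearIsometryEquiv.norm_map]
    exact (hM2 y (hmem x hx y hy)).trans (by linarith)

/-- Taylor's formula for `z` near the compact set `{z ≥ 0}`: a bound for the second derivative on a bounded
neighbourhood (mean value inequality for `x ↦ fderiv z`). -/
theorem Dom.taylor (h : Dom D z δ) : ∃ M : ℝ, 0 < M ∧ ∀ x, 0 ≤ z x → ∀ y, ‖y - x‖ ≤ 1 →
    |z y - z x - ⟪gradient z x, y - x⟫| ≤ M * ‖y - x‖ ^ 2 ∧ ‖gradient z y - gradient z x‖ ≤ M * ‖y - x‖ ∧
      ‖gradient z y‖ ≤ M := by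
  exact bg1_taylor h.sm h.compact_nonneg

end Pool.Agent.Lib.MP_79abb3_an.W.B
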