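import Pool.Agent.Lib.MP_79abb3_an.W.BDef
import Pool.Agent.Lib.MP_79abb3_an.W.BCl
import Pool.Agent.Lib.MP_79abb3_an.W.BG1

section

/-!
Theorem W, block B: tangential fields.
-/

set_option autoImplicit false
set_option linter.unusedSectionVars false

open MeasureTheory Set Filter Topology Function
open scoped RealInnerProductSpace ENNReal NNReal

namespace Pool.Agent.Lib.MP_79abb3_an.W.B

variable {d : ℕ} {D : Set (Ed d)} {z : Ed d → ℝ} {δ : ℝ}

private theorem bg2_inner_ee (v : Ed d) (i : Fin d) : ⟪v, (ee i : Ed d)⟫ = v i := by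
  rw [EuclideanSpace.inner_single_right]
  simp

private theorem bg2_grad (z : Ed d → ℝ) (x : Ed d) (i : Fin d) : gradient z x i = fderiv ℝ z x (ee i) := by
  rw [← bg2_inner_ee, gradient, InnerProductSpace.toDual_symm_apply]

private theorem bg2_sm {z : Ed d → ℝ} (hz : Sm z) (i : Fin d) : Sm fun x => gradient z x i := by
  have h : (fun x => gradient z x i) = fun x => fderiv ℝ z x (ee i) := funext fun x => bg2_grad z x i
  rw [h]
  exact (hz.fderiv_right (m := ((⊤ : ℕ∞) : WithTop ℕ∞)) (by simp)).clm_apply contDiff_const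

private theorem bg2_sq (n : Ed d) (hn : ‖n‖ = 1) : ∑ i, n i * n i = 1 := by
  have h := EuclideanSpace.real_norm_sq_eq n
  rw [hn] at h
  rw [← one_pow 2, h]
  exact Finset.sum_congr rfl fun i _ => (sq (n i)).symm

/-- The field `ζ (∂_i z e_j - ∂_j z e_i)`. -/
noncomputable def tf (ζ z : Ed d → ℝ) (i j : Fin d) (x : Ed d) : Ed d :=
  ζ x • (gradient z x i • ee j - gradient z x j • ee i)

theorem isTan_tf {ζ : Ed d → ℝ} (hz : Sm z) (hζ : Sm ζ) (hc : HasCompactSupport ζ) (i j : Fin d) :
    IsTan z (tf ζ z i j) := by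
  refine ⟨?_, hc.smul_right, fun _ => 0, continuous_const, fun x => ?_⟩
  · exact hζ.smul (((bg2_sm hz i).smul contDiff_const).sub ((bg2_sm hz j).smul contDiff_const))
  · show fderiv ℝ z x (ζ x • (gradient z x i • ee j - gradient z x j • ee i)) = 0 * z x
    rw [map_smul, map_sub, map_smul, map_smul, bg2_grad, bg2_grad, smul_eq_mul, smul_eq_mul, smul_eq_mul]
    ring

/-- Fields with compact support in `D = {z > 0}` are tangential: `c = fderiv z (χ e_i) / z`, `0` off the support of
`χ`. -/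
theorem isTan_core (hz : Sm z) {χ : Ed d → ℝ} (hχ : Sm χ) (hc : HasCompactSupport χ)
    (hs : tsupport χ ⊆ {x | 0 < z x}) (i : Fin d) : IsTan z (fun x => χ x • ee i) := by
  refine ⟨hχ.smul contDiff_const, hc.smul_right, fun x => χ x * fderiv ℝ z x (ee i) / z x, ?_, fun x => ?_⟩
  · rw [continuous_iff_continuousAt]
    intro x
    by_cases hx : x ∈ tsupport χ
    · have h1 : Continuous fun x => fderiv ℝ z x (ee i) := by
        have h2 := (bg2_sm hz i).continuous
        have h3 : (fun x => gradient z x i) = fun x => fderiv ℝ z x (ee i) := funext fun x => bg2_grad z x i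
        rwa [h3] at h2
      exact ((hχ.continuous.mul h1).continuousAt).div hz.continuous.continuousAt (ne_of_gt (hs hx))
    · have h0 : χ =ᶠ[𝓝 x] 0 := notMem_tsupport_iff_eventuallyEq.1 hx
      have h1 : (fun x => χ x * fderiv ℝ z x (ee i) / z x) =ᶠ[𝓝 x] fun _ => 0 := by
        filter_upwards [h0] with y hy
        rw [hy]
        simp
      exact continuousAt_const.congr h1.symm
  · show fderiv ℝ z x (χ x • ee i) = χ x * fderiv ℝ z x (ee i) / z x * z x
    rw [map_smul, smul_eq_mul]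
    by_cases hx : x ∈ tsupport χ
    · rw [div_mul_cancel₀ _ (ne_of_gt (hs hx))]
    · rw [image_eq_zero_of_notMem_tsupport hx]
      simp

/-- Where `ζ = 1` and `|∇z| = 1`: `e_j = ∑_i n_i (n_i e_j - n_j e_i) + n_j n`. -/
theorem tf_comb {ζ : Ed d → ℝ} {x : Ed d} (h1 : ζ x = 1) (h2 : ‖gradient z x‖ = 1) (j : Fin d) :
    (ee j : Ed d) = (∑ i, gradient z x i • tf ζ z i j x) + gradient z x j • gradient z x := by
  set g : Ed d := gradient z x with hg
  have h3 := bg2_sq g h2
  have e1 : ∀ i, g i • tf ζ z i j x = (g i * g i) • (ee j : Ed d) - g j • (g i • (ee i : Ed d)) := by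
    intro i
    unfold tf
    rw [h1, one_smul, ← hg, smul_sub, smul_smul, smul_smul, smul_smul, mul_comm (g i) (g j)]
  have e2 : ∑ i, g i • (ee i : Ed d) = g := by
    have h4 := (EuclideanSpace.basisFun (Fin d) ℝ).sum_repr g
    simp only [EuclideanSpace.basisFun_repr, EuclideanSpace.basisFun_apply] at h4
    exact h4
  rw [Finset.sum_congr rfl fun i _ => e1 i, Finset.sum_sub_distrib, ← Finset.sum_smul, h3, ← Finset.smul_sum,
    e2, one_smul, sub_add_cancel]

/-- Linear algebra: for a symmetric linear map `A` (`⟨A v, w⟩ = ⟨A w, v⟩`) and a unit vector `n`, with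
`v_ij = n_i e_j - n_j e_i`: `A n = (tr A) n - (1/2) ∑_ij ⟨A v_ij, v_ij⟩ n + ∑_ij n_i ⟨A v_ij, n⟩ e_j`. Proof:
`∑_ij ⟨A v_ij, v_ij⟩ = 2 (|n|² tr A - ⟨A n, n⟩)`, and `⟨A n, e_j⟩ = n_j ⟨A n, n⟩ + ∑_i n_i ⟨A n, v_ij⟩` because
`e_j = n_j n + ∑_i n_i v_ij`, and `⟨A n, v_ij⟩ = ⟨A v_ij, n⟩`. -/
theorem sym_formula (A : Ed d →L[ℝ] Ed d) (hA : ∀ v w, ⟪A v, w⟫ = ⟪A w, v⟫) {n : Ed d} (hn : ‖n‖ = 1) :
    A n = (∑ i, A (ee i) i) • n
      - ((1 / 2 : ℝ) * ∑ i, ∑ j, ⟪A (n i • ee j - n j • ee i), n i • ee j - n j • ee i⟫) • n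
      + ∑ i, ∑ j, (n i * ⟪A (n i • ee j - n j • ee i), n⟫) • ee j := by
  have h1 := bg2_sq n hn
  have e2 : ∑ i, n i • (ee i : Ed d) = n := by
    have h4 := (EuclideanSpace.basisFun (Fin d) ℝ).sum_repr n
    simp only [EuclideanSpace.basisFun_repr, EuclideanSpace.basisFun_apply] at h4
    exact h4
  have k1 : ∀ w : Ed d, ∑ i, n i * ⟪w, (ee i : Ed d)⟫ = ⟪w, n⟫ := by
    intro w
    conv_rhs => rw [← e2, inner_sum]
    exact Finset.sum_congr rfl fun i _ => (real_inner_smul_right _ _ _).symm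
  have k2 : ∑ j, n j * ⟪A (ee j), n⟫ = ⟪A n, n⟫ := by
    have h5 : A n = ∑ i, n i • A (ee i) := by
      conv_lhs => rw [← e2, map_sum]
      exact Finset.sum_congr rfl fun i _ => map_smul _ _ _
    conv_rhs => rw [h5, sum_inner]
    exact Finset.sum_congr rfl fun i _ => (real_inner_smul_left _ _ _).symm
  -- the double sum
  have k3 : ∑ i, ∑ j, ⟪A (n i • ee j - n j • ee i), n i • ee j - n j • ee i⟫ =
      2 * (∑ i, A (ee i) i) - 2 * ⟪A n, n⟫ := by
    have e3 : ∀ i j, ⟪A (n i • ee j - n j • ee i), n i • ee j - n j • ee i⟫ =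
        (n i * n i) * A (ee j) j - n j * (n i * ⟪A (ee j), (ee i : Ed d)⟫)
          - n i * (n j * ⟪A (ee i), (ee j : Ed d)⟫) + (n j * n j) * A (ee i) i := by
      intro i j
      rw [map_sub, map_smul, map_smul, inner_sub_left, inner_sub_right, inner_sub_right, real_inner_smul_left,
        real_inner_smul_left, real_inner_smul_left, real_inner_smul_left, real_inner_smul_right,
        real_inner_smul_right, real_inner_smul_right, real_inner_smul_right, bg2_inner_ee (A (ee j)) j,
        bg2_inner_ee (A (ee i)) i]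
      ring
    simp only [e3, Finset.sum_add_distrib, Finset.sum_sub_distrib]
    have s1 : ∑ i, ∑ j, (n i * n i) * A (ee j) j = ∑ i, A (ee i) i := by
      simp only [← Finset.mul_sum]
      rw [← Finset.sum_mul, h1, one_mul]
    have s4 : ∑ i, ∑ j, (n j * n j) * A (ee i) i = ∑ i, A (ee i) i := by
      simp only [← Finset.sum_mul]
      rw [h1]
      simp only [one_mul]
    have s3 : ∑ i, ∑ j, n i * (n j * ⟪A (ee i), (ee j : Ed d)⟫) = ⟪A n, n⟫ := by
      simp only [← Finset.mul_sum, k1]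
      exact k2
    have s2 : ∑ i, ∑ j, n j * (n i * ⟪A (ee j), (ee i : Ed d)⟫) = ⟪A n, n⟫ := by
      rw [Finset.sum_comm]
      exact s3
    rw [s1, s2, s3, s4]
    ring
  rw [k3]
  -- the last sum
  have k4 : ∑ i, ∑ j, (n i * ⟪A (n i • ee j - n j • ee i), n⟫) • (ee j : Ed d) =
      A n - ⟪A n, n⟫ • n := by
    have e4 : ∀ j, ∑ i, n i * ⟪A (n i • ee j - n j • ee i), n⟫ = (A n) j - ⟪A n, n⟫ * n j := by
      intro j
      have e5 : ∀ i, n i * ⟪A (n i • ee j - n j • ee i), n⟫ =
          (n i * n i) * ⟪A (ee j), n⟫ - (n i * ⟪A (ee i), n⟫) * n j := by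
        intro i
        rw [map_sub, map_smul, map_smul, inner_sub_left, real_inner_smul_left, real_inner_smul_left]
        ring
      simp only [e5, Finset.sum_sub_distrib]
      rw [← Finset.sum_mul, ← Finset.sum_mul, h1, k2, one_mul, hA (ee j) n, bg2_inner_ee]
    rw [Finset.sum_comm]
    simp only [← Finset.sum_smul, e4, sub_smul, Finset.sum_sub_distrib]
    congr 1
    · have h4 := (EuclideanSpace.basisFun (Fin d) ℝ).sum_repr (A n)
      simp only [EuclideanSpace.basisFun_repr, EuclideanSpace.basisFun_apply] at h4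
      exact h4
    · conv_rhs => rw [← e2]
      rw [Finset.smul_sum, e2]
      exact Finset.sum_congr rfl fun i _ => by rw [smul_smul]
  rw [k4]
  module

end Pool.Agent.Lib.MP_79abb3_an.W.B
end

section

/-!
Theorem W, block B: the frame.
-/

set_option autoImplicit false
set_option linter.unusedSectionVars false

open MeasureTheory Set Filter Topology Function
open scoped RealInnerProductSpace ENNReal NNReal

namespace Pool.Agent.Lib.MP_79abb3_an.W.B

variable {d : ℕ} {D : Set (Ed d)} {z : Ed d → ℝ} {δ : ℝ}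

theorem bg3_coord (z : Ed d → ℝ) (x : Ed d) (i : Fin d) : gradient z x i = fderiv ℝ z x (ee i) := by
  have h := InnerProductSpace.toDual_symm_apply (𝕜 := ℝ) (x := (ee i : Ed d)) (y := fderiv ℝ z x)
  rw [EuclideanSpace.inner_single_right] at h
  simpa [gradient] using h

theorem bg3_coord_sm (hz : Sm z) (i : Fin d) : Sm (fun x => gradient z x i) := by
  have h1 : (fun x => gradient z x i) = fun x => fderiv ℝ z x (ee i) := by
    funext x
    rw [bg3_coord]
  rw [h1]
  exact (hz.fderiv_right (m := ((⊤ : ℕ∞) : WithTop ℕ∞)) (by simp)).clm_apply contDiff_const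

theorem bg3_grad_sm (hz : Sm z) : Sm (gradient z) := contDiff_euclidean.mpr fun i => bg3_coord_sm hz i

theorem bg3_sum (n : Ed d) : n = ∑ i, n i • (ee i : Ed d) := by
  ext k
  simp [Finset.sum_apply, Pi.single_apply]

/-- `w ↦ ⟨w, v⟩ u` -/
noncomputable def bg3_op (v u : Ed d) : Ed d →L[ℝ] Ed d := (innerSL ℝ v).smulRight u

theorem bg3_op_apply (v u w : Ed d) : bg3_op v u w = ⟪w, v⟫ • u := by
  unfold bg3_op
  rw [ContinuousLinearMap.smulRight_apply, innerSL_apply_apply, real_inner_comm]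

theorem bg3_op_sm {v u : Ed d → Ed d} (hv : Sm v) (hu : Sm u) : Sm (fun x => bg3_op (v x) (u x)) := by
  unfold bg3_op
  exact ((innerSL ℝ).contDiff.comp hv).smulRight hu

/-- **The frame.** `𝒱` = all tangential fields, `Nf = ζ ∇z` with `ζ = 1` near the closure of `D`. Let `χ₁ = 1` for
`z ≥ 2 δ`, `χ = 1` on the support of `χ₁` (`Dom.exists_cut` with `a = 2 δ` and with `a = δ`). On `D`:
`e_j = χ₁ (χ e_j) + ∑_i (1 - χ₁) n_i tf ζ z i j + (1 - χ₁) n_j Nf` (`tf_comb`, `|n| = 1` where `1 - χ₁ ≠ 0`). For `nor`: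
`δ_N γ = ∑_i χ₁ n_i δ_{χ e_i} γ + (1 - χ₁) δ_n γ` and `sym_formula` for `A = fderiv γ x` (`∑ i, A (ee i) i = divg γ x`).
The index sets `Fin d ⊕ (Fin d × Fin d)` are replaced by `Fin n` (`Fintype.equivFin`). -/
theorem Dom.frame (h : Dom D z δ) : ∃ Nf : Ed d → Ed d, IsFrame D z {X | IsTan z X} Nf := by
  obtain ⟨ζ, hζs, hζc, -, R, hR, hDR, hζ1⟩ := exists_big_cut h.bdd
  obtain ⟨χ₁, hχ₁s, hχ₁c, hχ₁D, -, hχ₁1, hχ₁0⟩ := h.exists_cut (a := 2 * δ) (by linarith [h.pos])
  obtain ⟨χ, hχs, hχc, hχD, -, hχ1, hχ0⟩ := h.exists_cut h.pos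
  have hζD : ∀ x ∈ D, ζ x = 1 := fun x hx =>
    hζ1 x (Metric.ball_subset_ball (by linarith) (hDR hx))
  have hcc : ∀ x, χ₁ x * χ x = χ₁ x := by
    intro x
    by_cases hx : z x ≤ δ
    · rw [hχ₁0 x (by linarith), zero_mul]
    · rw [hχ1 x (by linarith), mul_one]
  have hone : ∀ x ∈ D, χ₁ x ≠ 1 → ‖gradient z x‖ = 1 := by
    intro x hx hne
    apply h.one
    have hx0 : 0 < z x := by rw [h.eq] at hx; exact hx
    have hx1 : z x < 2 * δ := by
      by_contra hcon
      push Not at hcon
      exact hne (hχ₁1 x hcon)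
    rw [abs_of_pos hx0]
    linarith [h.pos]
  have hχT : ∀ i : Fin d, IsTan z (fun x => χ x • (ee i : Ed d)) := fun i =>
    isTan_core h.sm hχs hχc (by rw [← h.eq]; exact hχD) i
  have hgs := bg3_grad_sm h.sm
  have hgi := bg3_coord_sm (d := d) h.sm
  have h1s : Sm (fun x => 1 - χ₁ x) := contDiff_const.sub hχ₁s
  refine ⟨fun x => ζ x • gradient z x, ⟨fun X hX => hX, hζs.smul hgs, ?_, ?_⟩⟩
  · intro j
    refine ⟨d + 1, Fin.cons (fun x => χ x • (ee j : Ed d)) (fun i => tf ζ z i j),
      Fin.cons χ₁ (fun i x => (1 - χ₁ x) * gradient z x i), fun x => (1 - χ₁ x) * gradient z x j,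
      ?_, ?_, h1s.mul (hgi j), ?_⟩
    · intro k
      refine Fin.cases ?_ (fun i => ?_) k
      · exact hχT j
      · exact isTan_tf h.sm hζs hζc i j
    · intro k
      refine Fin.cases ?_ (fun i => ?_) k
      · exact hχ₁s
      · exact h1s.mul (hgi i)
    · intro x hx
      rw [Fin.sum_univ_succ]
      simp only [Fin.cons_zero, Fin.cons_succ]
      rw [hζD x hx, one_smul, smul_smul, hcc]
      by_cases hne : χ₁ x = 1
      · rw [hne]
        simp
      · have e := tf_comb (hζD x hx) (hone x hx hne) j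
        have e2 : (∑ i, ((1 - χ₁ x) * gradient z x i) • tf ζ z i j x) +
            ((1 - χ₁ x) * gradient z x j) • gradient z x = (1 - χ₁ x) • (ee j : Ed d) := by
          conv_rhs => rw [e]
          rw [smul_add, Finset.smul_sum, smul_smul]
          congr 1
          refine Finset.sum_congr rfl fun i _ => ?_
          rw [smul_smul]
        rw [add_assoc, e2, ← add_smul]
        simp
  · let ι := Fin d ⊕ (Fin d × Fin d)
    let e : ι ≃ Fin (Fintype.card ι) := Fintype.equivFin ι
    let V0 : ι → Ed d → Ed d := Sum.elim (fun i x => χ x • (ee i : Ed d)) (fun p => tf ζ z p.1 p.2)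
    let A0 : ι → Ed d → (Ed d →L[ℝ] Ed d) := Sum.elim
      (fun i x => (χ₁ x * gradient z x i) • ContinuousLinearMap.id ℝ (Ed d))
      (fun p x => (1 - χ₁ x) • ((-(1 / 2) : ℝ) • bg3_op (tf ζ z p.1 p.2 x) (gradient z x) +
        gradient z x p.1 • bg3_op (gradient z x) (ee p.2)))
    refine ⟨Fintype.card ι, fun k => V0 (e.symm k), fun k => A0 (e.symm k),
      fun x => (1 - χ₁ x) • gradient z x, ?_, ?_, h1s.smul hgs, ?_⟩
    · intro k
      change V0 (e.symm k) ∈ _
      generalize e.symm k = q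
      rcases q with i | p
      · exact hχT i
      · exact isTan_tf h.sm hζs hζc p.1 p.2
    · intro k
      change Sm (A0 (e.symm k))
      generalize e.symm k = q
      rcases q with i | p
      · exact (hχ₁s.mul (hgi i)).smul contDiff_const
      · have h3 : Sm (fun x => (-(1 / 2) : ℝ) • bg3_op (tf ζ z p.1 p.2 x) (gradient z x)) :=
          (bg3_op_sm (isTan_tf h.sm hζs hζc p.1 p.2).sm hgs).const_smul _
        have h4 : Sm (fun x => gradient z x p.1 • bg3_op (gradient z x) (ee p.2)) :=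
          (hgi p.1).smul (bg3_op_sm hgs contDiff_const)
        exact h1s.smul (h3.add h4)
    · intro γ hγ hsym x hx
      have e1 : (∑ k, A0 (e.symm k) x (fderiv ℝ γ x (V0 (e.symm k) x))) =
          ∑ i : ι, A0 i x (fderiv ℝ γ x (V0 i x)) :=
        e.symm.sum_comp (fun i => A0 i x (fderiv ℝ γ x (V0 i x)))
      rw [e1, Fintype.sum_sum_type, Fintype.sum_prod_type]
      simp only [V0, A0, Sum.elim_inl, Sum.elim_inr]
      rw [hζD x hx, one_smul]
      set M := fderiv ℝ γ x with hM
      set n := gradient z x with hn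
      have e2 : (∑ i, ((χ₁ x * n i) • ContinuousLinearMap.id ℝ (Ed d)) (M (χ x • (ee i : Ed d)))) =
          χ₁ x • M n := by
        conv_rhs => rw [bg3_sum n]
        rw [map_sum, Finset.smul_sum]
        refine Finset.sum_congr rfl fun i _ => ?_
        rw [_root_.smul_apply, ContinuousLinearMap.id_apply, map_smul, map_smul,
          smul_smul, smul_smul]
        congr 1
        linear_combination (n i) * hcc x
      rw [e2]
      by_cases hne : χ₁ x = 1
      · rw [hne]
        simp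
      · have htf : ∀ i j, tf ζ z i j x = n i • (ee j : Ed d) - n j • ee i := by
          intro i j
          unfold tf
          rw [hζD x hx, one_smul]
        have e3 := sym_formula M (hsym x hx) (hone x hx hne)
        have e4 : (∑ i, ∑ j, ((1 - χ₁ x) • ((-(1 / 2) : ℝ) • bg3_op (tf ζ z i j x) n +
            n i • bg3_op n (ee j))) (M (tf ζ z i j x))) + divg γ x • (1 - χ₁ x) • n =
            (1 - χ₁ x) • M n := by
          rw [e3]
          have e5 : (∑ i, M (ee i) i) = divg γ x := rfl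
          rw [e5, smul_add, smul_sub, smul_comm (divg γ x)]
          have e6 : (∑ i, ∑ j, ((1 - χ₁ x) • ((-(1 / 2) : ℝ) • bg3_op (tf ζ z i j x) n +
              n i • bg3_op n (ee j))) (M (tf ζ z i j x))) =
              -((1 - χ₁ x) • ((1 / 2 : ℝ) * ∑ i, ∑ j,
                ⟪M (n i • ee j - n j • ee i), n i • ee j - n j • ee i⟫) • n) +
              (1 - χ₁ x) • ∑ i, ∑ j, (n i * ⟪M (n i • ee j - n j • ee i), n⟫) • (ee j : Ed d) := by
            rw [Finset.mul_sum, Finset.sum_smul, Finset.smul_sum, Finset.smul_sum,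
              ← Finset.sum_neg_distrib, ← Finset.sum_add_distrib]
            refine Finset.sum_congr rfl fun i _ => ?_
            rw [Finset.mul_sum, Finset.sum_smul, Finset.smul_sum, Finset.smul_sum,
              ← Finset.sum_neg_distrib, ← Finset.sum_add_distrib]
            refine Finset.sum_congr rfl fun j _ => ?_
            rw [htf]
            simp only [_root_.smul_apply, _root_.add_apply, bg3_op_apply]
            module
          rw [e6]
          module
        rw [add_assoc, e4, ← add_smul]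
        simp

end Pool.Agent.Lib.MP_79abb3_an.W.B
end
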