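import Pool.Agent.Lib.MP_79abb3_an.W.BCl

/-!
Theorem W, block B: closure properties of `TT`.
-/

set_option autoImplicit false
set_option linter.unusedSectionVars false

open MeasureTheory Set Filter Topology Function
open scoped RealInnerProductSpace ENNReal NNReal

namespace Pool.Agent.Lib.MP_79abb3_an.W.B

variable {d : ℕ} {D : Set (Ed d)} {ι : Type} {N : ι → ℝ≥0∞} {G : Type} [NormedAddCommGroup G] [NormedSpace ℝ G]
  {G' : Type} [NormedAddCommGroup G'] [NormedSpace ℝ G'] {𝒱 : Set (Ed d → Ed d)} {Nf : Ed d → Ed d}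

/-- Only the values on `D` matter. -/
theorem T0.congr (hD : IsOpen D) {u v : ι → Ed d → G} (h : ∀ i, ∀ x ∈ D, u i x = v i x) (hu : T0 D N u) :
    T0 D N v := by
  obtain ⟨h1, C, hC⟩ := hu
  refine ⟨fun i => (h1 i).congr fun x hx => (h i x hx).symm, C, fun i => ?_⟩
  have e : eLpNorm (v i) 2 (volume.restrict D) = eLpNorm (u i) 2 (volume.restrict D) :=
    eLpNorm_congr_ae (ae_restrict_of_forall_mem hD.measurableSet fun x hx => (h i x hx).symm)
  rw [e]
  exact hC i

theorem T0.add {u v : ι → Ed d → G} (hD : IsOpen D) (hu : T0 D N u) (hv : T0 D N v) :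
    T0 D N (fun i x => u i x + v i x) := by
  obtain ⟨h1, C, hC⟩ := hu
  obtain ⟨h2, C', hC'⟩ := hv
  refine ⟨fun i => (h1 i).add (h2 i), C + C', fun i => ?_⟩
  have m1 : AEStronglyMeasurable (u i) (volume.restrict D) :=
    (h1 i).continuousOn.aestronglyMeasurable hD.measurableSet
  have m2 : AEStronglyMeasurable (v i) (volume.restrict D) :=
    (h2 i).continuousOn.aestronglyMeasurable hD.measurableSet
  refine (eLpNorm_add_le m1 m2 (by norm_num)).trans ?_
  refine (add_le_add (hC i) (hC' i)).trans ?_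
  rw [ENNReal.coe_add, add_mul]

/-- Multiplication by a smooth coefficient, which is bounded on the bounded set `D`. -/
theorem T0.mul (hD : IsOpen D) (hb : Bornology.IsBounded D) {A : Ed d → G →L[ℝ] G'} (hA : Sm A)
    {u : ι → Ed d → G} (hu : T0 D N u) : T0 D N (fun i x => A x (u i x)) := by
  obtain ⟨h1, C, hC⟩ := hu
  obtain ⟨r, hr⟩ := hb.subset_closedBall (0 : Ed d)
  obtain ⟨M, hM⟩ := (isCompact_closedBall (0 : Ed d) r).exists_bound_of_continuousOn
    hA.continuous.continuousOn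
  set K : ℝ≥0 := Real.toNNReal M with hK
  refine ⟨fun i => (hA.contDiffOn).clm_apply (h1 i), K * C, fun i => ?_⟩
  have hle : ∀ᵐ x ∂(volume.restrict D), ‖A x (u i x)‖₊ ≤ K * ‖u i x‖₊ := by
    refine ae_restrict_of_forall_mem hD.measurableSet fun x hx => ?_
    have h3 : ‖A x‖ ≤ M := hM x (hr hx)
    rw [← NNReal.coe_le_coe, NNReal.coe_mul, coe_nnnorm, coe_nnnorm, hK,
      Real.coe_toNNReal M ((norm_nonneg _).trans h3)]
    exact ((A x).le_opNorm _).trans (mul_le_mul_of_nonneg_right h3 (norm_nonneg _))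
  refine (eLpNorm_le_nnreal_smul_eLpNorm_of_ae_le_mul hle 2).trans ?_
  rw [ENNReal.smul_def, smul_eq_mul, ENNReal.coe_mul, mul_assoc]
  exact mul_le_mul_right (hC i) _

theorem T0.zero : T0 D N (fun (_ : ι) (_ : Ed d) => (0 : G)) := by
  refine ⟨fun i => contDiffOn_const, 0, fun i => ?_⟩
  rw [eLpNorm_zero']
  exact zero_le

private theorem br1_diff (hD : IsOpen D) {f : Ed d → G} (hf : SmOn f D) {x : Ed d} (hx : x ∈ D) :
    DifferentiableAt ℝ f x :=
  (hf.differentiableOn (by simp)).differentiableAt (hD.mem_nhds hx)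

/-- Derivatives of functions which agree on the open set `D` agree on `D`. -/
theorem TT.congr (hD : IsOpen D) {k : ℕ} {u v : ι → Ed d → G} (h : ∀ i, ∀ x ∈ D, u i x = v i x)
    (hu : TT D N 𝒱 k u) : TT D N 𝒱 k v := by
  induction k generalizing u v with
  | zero => exact T0.congr hD h hu
  | succ k ih =>
    refine ⟨T0.congr hD h hu.1, fun X hX => ih ?_ (hu.2 X hX)⟩
    intro i x hx
    have h1 : u i =ᶠ[𝓝 x] v i := by
      filter_upwards [hD.mem_nhds hx] with y hy
      exact h i y hy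
    simp only [h1.fderiv_eq]

theorem TT.base {k : ℕ} {u : ι → Ed d → G} (hu : TT D N 𝒱 k u) : T0 D N u := by
  cases k with
  | zero => exact hu
  | succ k => exact hu.1

theorem TT.mono {k : ℕ} {u : ι → Ed d → G} (hu : TT D N 𝒱 (k + 1) u) : TT D N 𝒱 k u := by
  induction k generalizing u with
  | zero => exact hu.1
  | succ k ih => exact ⟨hu.1, fun X hX => ih (hu.2 X hX)⟩

theorem TT.add (hD : IsOpen D) {k : ℕ} {u v : ι → Ed d → G} (hu : TT D N 𝒱 k u) (hv : TT D N 𝒱 k v) :
    TT D N 𝒱 k (fun i x => u i x + v i x) := by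
  induction k generalizing u v with
  | zero => exact T0.add hD hu hv
  | succ k ih =>
    refine ⟨T0.add hD hu.1 hv.1, fun X hX => ?_⟩
    refine TT.congr hD ?_ (ih (hu.2 X hX) (hv.2 X hX))
    intro i x hx
    rw [fderiv_fun_add (br1_diff hD (hu.1.1 i) hx) (br1_diff hD (hv.1.1 i) hx)]
    rfl

/-- `δ_X (A u) = (δ_X A) u + A (δ_X u)`. -/
theorem TT.mul (hD : IsOpen D) (hb : Bornology.IsBounded D) (h𝒱 : ∀ X ∈ 𝒱, Sm X) {k : ℕ}
    {A : Ed d → G →L[ℝ] G'} (hA : Sm A) {u : ι → Ed d → G} (hu : TT D N 𝒱 k u) :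
    TT D N 𝒱 k (fun i x => A x (u i x)) := by
  induction k generalizing u A with
  | zero => exact T0.mul hD hb hA hu
  | succ k ih =>
    refine ⟨T0.mul hD hb hA hu.1, fun X hX => ?_⟩
    have hA' : Sm fun x => fderiv ℝ A x (X x) :=
      (hA.fderiv_right (by simp)).clm_apply (h𝒱 X hX)
    refine TT.congr hD ?_ (TT.add hD (ih hA' hu.mono) (ih hA (hu.2 X hX)))
    intro i x hx
    have h1 : HasFDerivAt A (fderiv ℝ A x) x := (hA.differentiable (by simp) x).hasFDerivAt
    have h2 : HasFDerivAt (u i) (fderiv ℝ (u i) x) x := (br1_diff hD (hu.1.1 i) hx).hasFDerivAt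
    rw [(h1.clm_apply h2).fderiv]
    simp only [add_apply, ContinuousLinearMap.comp_apply,
      ContinuousLinearMap.flip_apply]
    rw [add_comm]

theorem TT.zero {k : ℕ} : TT D N 𝒱 k (fun (_ : ι) (_ : Ed d) => (0 : G)) := by
  induction k with
  | zero => exact T0.zero
  | succ k ih =>
    refine ⟨T0.zero, fun X hX => ?_⟩
    have e : (fun (_ : ι) (x : Ed d) => fderiv ℝ (fun _ : Ed d => (0 : G)) x (X x)) =
        fun (_ : ι) (_ : Ed d) => (0 : G) := by
      funext i x
      rw [fderiv_const_apply]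
      rfl
    rw [e]
    exact ih

end Pool.Agent.Lib.MP_79abb3_an.W.B
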