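import Pool.Agent.Lib.MP_79abb3_an.W.BT3
import Pool.Agent.Lib.MP_79abb3_an.W.BFa1

/-!
Theorem W, block B: expansion of the matrix `Th`.
-/

set_option autoImplicit false
set_option linter.unusedSectionVars false

open MeasureTheory Set Filter Topology Function
open scoped RealInnerProductSpace ENNReal NNReal

namespace Pool.Agent.Lib.MP_79abb3_an.W.B

variable {d : ℕ} {X : Ed d → Ed d} {τ C : ℝ} {Φ : ℝ → Ed d → Ed d} {D : Set (Ed d)}

/-- The matrix of a linear map. -/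
private noncomputable def bt4_M (d : ℕ) (B : Ed d →L[ℝ] Ed d) : Matrix (Fin d) (Fin d) ℝ :=
  LinearMap.toMatrix (EuclideanSpace.basisFun (Fin d) ℝ).toBasis
    (EuclideanSpace.basisFun (Fin d) ℝ).toBasis (B : Ed d →ₗ[ℝ] Ed d)

private theorem bt4_det (B : Ed d →L[ℝ] Ed d) : B.det = (bt4_M d B).det :=
  (LinearMap.det_toMatrix _ _).symm

private theorem bt4_apply (B : Ed d →L[ℝ] Ed d) (i j : Fin d) : bt4_M d B i j = B (ee j) i := by
  unfold bt4_M
  rw [LinearMap.toMatrix_apply]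
  simp

private theorem bt4_smooth : Sm (fun B : Ed d →L[ℝ] Ed d => B.det) := by
  have h1 : (fun B : Ed d →L[ℝ] Ed d => B.det) = fun B : Ed d →L[ℝ] Ed d =>
      ∑ σ : Equiv.Perm (Fin d), (((Equiv.Perm.sign σ : ℤ) : ℝ)) * ∏ i, (B (ee i)) (σ i) := by
    funext B
    rw [bt4_det, Matrix.det_apply']
    simp only [bt4_apply]
  rw [h1]
  refine ContDiff.sum fun σ _ => contDiff_const.mul (contDiff_prod fun i _ => ?_)
  have h2 : ContDiff ℝ ((⊤ : ℕ∞) : WithTop ℕ∞) fun B : Ed d →L[ℝ] Ed d => B (ee i) :=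
    contDiff_id.clm_apply contDiff_const
  exact (EuclideanSpace.proj (σ i) : Ed d →L[ℝ] ℝ).contDiff.comp h2

private theorem bt4_id : (ContinuousLinearMap.id ℝ (Ed d)).det = 1 := by
  show LinearMap.det ((ContinuousLinearMap.id ℝ (Ed d) : Ed d →L[ℝ] Ed d) : Ed d →ₗ[ℝ] Ed d) = 1
  rw [ContinuousLinearMap.coe_id, LinearMap.det_id]

/-- `det (1 + B) = 1 + (D det)(1) B + O(‖B‖²)` for `‖B‖ ≤ 1` (`det` is smooth: it is a polynomial; Taylor's formula on the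
ball, or the mean value inequality for `B ↦ det (1 + B) - (D det)(1) B` whose derivative is `O(‖B‖)`). -/
theorem det_expand (d : ℕ) : ∃ M : ℝ, 0 ≤ M ∧ ∀ B : Ed d →L[ℝ] Ed d, ‖B‖ ≤ 1 →
    |(ContinuousLinearMap.id ℝ (Ed d) + B).det - 1 -
      fderiv ℝ (fun B : Ed d →L[ℝ] Ed d => B.det) (ContinuousLinearMap.id ℝ (Ed d)) B| ≤ M * ‖B‖ ^ 2 := by
  have hs : ContDiff ℝ 1 (fderiv ℝ (fun B : Ed d →L[ℝ] Ed d => B.det)) :=
    (bt4_smooth (d := d)).fderiv_right (by norm_cast)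
  obtain ⟨M, hM⟩ := LocallyLipschitzOn.exists_lipschitzOnWith_of_compact
    (isCompact_closedBall (ContinuousLinearMap.id ℝ (Ed d)) 1) hs.locallyLipschitz.locallyLipschitzOn
  refine ⟨M, M.2, fun B hB => ?_⟩
  have hsub : Metric.closedBall (ContinuousLinearMap.id ℝ (Ed d)) ‖B‖ ⊆
      Metric.closedBall (ContinuousLinearMap.id ℝ (Ed d)) 1 := Metric.closedBall_subset_closedBall hB
  have hbound : ∀ A ∈ Metric.closedBall (ContinuousLinearMap.id ℝ (Ed d)) ‖B‖,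
      ‖fderiv ℝ (fun B : Ed d →L[ℝ] Ed d => B.det) A -
        fderiv ℝ (fun B : Ed d →L[ℝ] Ed d => B.det) (ContinuousLinearMap.id ℝ (Ed d))‖ ≤ M * ‖B‖ := by
    intro A hA
    have h1 := hM.norm_sub_le (hsub hA) (Metric.mem_closedBall_self zero_le_one)
    refine h1.trans (mul_le_mul_of_nonneg_left ?_ M.2)
    rw [← dist_eq_norm]
    exact hA
  have h2 := (convex_closedBall (ContinuousLinearMap.id ℝ (Ed d)) ‖B‖).norm_image_sub_le_of_norm_hasFDerivWithin_le'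
    (𝕜 := ℝ) (f := fun B : Ed d →L[ℝ] Ed d => B.det)
    (f' := fun A => fderiv ℝ (fun B : Ed d →L[ℝ] Ed d => B.det) A)
    (fun A _ => ((bt4_smooth.differentiable (by simp)) A).hasFDerivAt.hasFDerivWithinAt) hbound
    (Metric.mem_closedBall_self (norm_nonneg B))
    (show ContinuousLinearMap.id ℝ (Ed d) + B ∈ _ by
      rw [Metric.mem_closedBall, dist_eq_norm, add_sub_cancel_left])
  simp only [add_sub_cancel_left] at h2
  rw [bt4_id, Real.norm_eq_abs] at h2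
  calc _ ≤ _ := h2
    _ = _ := by ring

/-- `Th Φ t = t S_X + O(t²)`. Proof: `DΦ_{-t}(y) = 1 - t DX(y) + O(t²)` (`dnear2`), so its determinant is
`1 - t dv X y + O(t²)` (`det_expand`), positive for small `t`; `DΦ_t(Φ_{-t} y) = 1 + t DX(Φ_{-t} y) + O(t²) =
1 + t DX(y) + O(t²)` (`fderiv X` is Lipschitz, `near`); `DΦ_{-t}(y)ᵀ = 1 - t DX(y)ᵀ + O(t²)`. -/
theorem Th_expand (hX : Sm X) (hc : HasCompactSupport X) (hΦ : IsFl X τ C Φ) :
    ∃ τ' M : ℝ, 0 < τ' ∧ τ' ≤ τ ∧ 0 ≤ M ∧ ∀ t ∈ Ioo (-τ') τ', ∀ y,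
      ‖Th Φ t y‖ ≤ M * |t| ∧ ‖Th Φ t y - t • SX X y‖ ≤ M * t ^ 2 := by
  obtain ⟨K, hK0, -, hK2, -, hK4, -⟩ := fld_bound hX hc
  obtain ⟨M₁, hM0, hM₁⟩ := det_expand d
  have hC0 : 0 ≤ C := by
    have h1 := hΦ.near (τ / 2) ⟨by linarith [hΦ.pos], by linarith [hΦ.pos]⟩ 0
    have h2 := (norm_nonneg _).trans h1
    rw [abs_of_pos (half_pos hΦ.pos)] at h2
    by_contra h3
    push Not at h3
    have := mul_neg_of_neg_of_pos h3 (half_pos hΦ.pos)
    linarith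
  set L := fderiv ℝ (fun B : Ed d →L[ℝ] Ed d => B.det) (ContinuousLinearMap.id ℝ (Ed d)) with hL
  have hdv : ∀ y, dv X y = L (fderiv ℝ X y) := fun y => rfl
  obtain ⟨ℓ, hℓ0, hℓ⟩ : ∃ ℓ : ℝ, 0 ≤ ℓ ∧ ∀ B, ‖L B‖ ≤ ℓ * ‖B‖ := ⟨‖L‖, norm_nonneg L, L.le_opNorm⟩
  set V := ℓ * K with hV
  have hV0 : 0 ≤ V := mul_nonneg hℓ0 hK0
  have hdvV : ∀ y, |dv X y| ≤ V := fun y => by
    rw [hdv, ← Real.norm_eq_abs]
    exact (hℓ _).trans (mul_le_mul_of_nonneg_left (hK2 y) hℓ0)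
  set c₁ := ℓ * C + M₁ * C ^ 2 with hc₁
  have hc₁0 : 0 ≤ c₁ := by positivity
  set c₂ := C + K * C with hc₂
  have hc₂0 : 0 ≤ c₂ := by positivity
  set Q := V + c₁ with hQ
  have hQ0 : 0 ≤ Q := by positivity
  set M' := c₂ + V * K + V * c₂ + 2 * c₁ + C with hM'
  have hM'0 : 0 ≤ M' := by positivity
  set τ' := min τ (1 / (C + Q + 2)) with hτ'
  have hτ'0 : 0 < τ' := lt_min hΦ.pos (by positivity)
  refine ⟨τ', M' + (2 * K + V), hτ'0, min_le_left _ _, by positivity, ?_⟩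
  intro t ht y
  have hta : |t| < τ' := abs_lt.mpr ht
  have ht1 : |t| * (C + Q + 2) ≤ 1 := by
    have h1 : |t| ≤ 1 / (C + Q + 2) := hta.le.trans (min_le_right _ _)
    rwa [le_div_iff₀ (by positivity)] at h1
  have hta0 := abs_nonneg t
  have htC : C * |t| ≤ 1 := by nlinarith
  have htQ : Q * |t| ≤ 1 := by nlinarith
  have ht1' : |t| ≤ 1 := by nlinarith
  have htt : t ∈ Ioo (-τ) τ := by
    have h1 : τ' ≤ τ := min_le_left _ _
    exact ⟨by linarith [ht.1], by linarith [ht.2]⟩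
  have htt' : -t ∈ Ioo (-τ) τ := ⟨by linarith [htt.2], by linarith [htt.1]⟩
  have hsq : |t| ^ 2 = t ^ 2 := sq_abs t
  have hsq' : t ^ 2 ≤ |t| := by
    rw [← hsq]
    nlinarith
  -- the matrices
  set D1 := fderiv ℝ X y with hD1
  set a := fderiv ℝ (Φ (-t)) y with ha
  set b := fderiv ℝ (Φ t) (Φ (-t) y) with hb
  set v := dv X y with hv
  obtain ⟨R₁, hR₁⟩ : ∃ R₁, R₁ = a - ContinuousLinearMap.id ℝ (Ed d) + t • D1 := ⟨_, rfl⟩
  have hR₁n : ‖R₁‖ ≤ C * t ^ 2 := by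
    have h1 := hΦ.dnear2 (-t) htt' y
    rw [hR₁]
    have e1 : a - ContinuousLinearMap.id ℝ (Ed d) + t • D1 =
        fderiv ℝ (Φ (-t)) y - ContinuousLinearMap.id ℝ (Ed d) - (-t) • fderiv ℝ X y := by
      rw [← ha, ← hD1]
      module
    rw [e1]
    calc _ ≤ _ := h1
      _ = _ := by ring
  have han : ‖a - ContinuousLinearMap.id ℝ (Ed d)‖ ≤ C * |t| := by
    have h1 := hΦ.dnear (-t) htt' y
    rwa [abs_neg] at h1
  have hbn : ‖b - ContinuousLinearMap.id ℝ (Ed d)‖ ≤ C * |t| := hΦ.dnear t htt _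
  -- the determinant
  obtain ⟨r₁, hr₁⟩ : ∃ r₁, r₁ = a.det - 1 + t * v := ⟨_, rfl⟩
  have hr₁n : |r₁| ≤ c₁ * t ^ 2 := by
    have h1 := hM₁ (a - ContinuousLinearMap.id ℝ (Ed d)) (han.trans htC)
    rw [add_sub_cancel] at h1
    have e1 : a - ContinuousLinearMap.id ℝ (Ed d) = R₁ - t • D1 := by
      rw [hR₁]
      abel
    have h2 : |a.det - 1 - L (a - ContinuousLinearMap.id ℝ (Ed d))| ≤ M₁ * C ^ 2 * t ^ 2 := by
      refine h1.trans ?_
      have h3 : ‖a - ContinuousLinearMap.id ℝ (Ed d)‖ ^ 2 ≤ (C * |t|) ^ 2 :=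
        pow_le_pow_left₀ (norm_nonneg _) han 2
      calc _ ≤ M₁ * (C * |t|) ^ 2 := mul_le_mul_of_nonneg_left h3 hM0
        _ = M₁ * C ^ 2 * t ^ 2 := by rw [mul_pow, hsq]; ring
    have h4 : |L R₁| ≤ ℓ * (C * t ^ 2) := by
      rw [← Real.norm_eq_abs]
      exact (hℓ _).trans (mul_le_mul_of_nonneg_left hR₁n hℓ0)
    have e2 : L (a - ContinuousLinearMap.id ℝ (Ed d)) = L R₁ - t * v := by
      rw [e1, map_sub, map_smul, hv, hdv, smul_eq_mul]
    rw [e2] at h2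
    have e3 : r₁ = (a.det - 1 - (L R₁ - t * v)) + L R₁ := by
      rw [hr₁]
      ring
    rw [e3]
    refine (abs_add_le _ _).trans ?_
    rw [hc₁]
    linarith
  have hdet : a.det = 1 - t * v + r₁ := by
    rw [hr₁]
    ring
  have hvV : |v| ≤ V := hdvV y
  have hdet0 : 0 ≤ a.det := by
    have h1 : |t * v| ≤ |t| * V := by
      rw [abs_mul]
      exact mul_le_mul_of_nonneg_left hvV hta0
    have h2 : |r₁| ≤ c₁ * |t| := hr₁n.trans (mul_le_mul_of_nonneg_left hsq' hc₁0)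
    have h3 := abs_le.mp h1
    have h4 := abs_le.mp h2
    rw [hdet]
    nlinarith
  -- the other factor
  obtain ⟨R₂, hR₂⟩ : ∃ R₂, R₂ = b - ContinuousLinearMap.id ℝ (Ed d) - t • D1 := ⟨_, rfl⟩
  have hR₂n : ‖R₂‖ ≤ c₂ * t ^ 2 := by
    have h1 := hΦ.dnear2 t htt (Φ (-t) y)
    have h2 : ‖fderiv ℝ X (Φ (-t) y) - fderiv ℝ X y‖ ≤ K * (C * |t|) := by
      have h3 := hΦ.near (-t) htt' y
      rw [abs_neg] at h3
      exact (hK4 _ _).trans (mul_le_mul_of_nonneg_left h3 hK0)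
    have e1 : R₂ = (fderiv ℝ (Φ t) (Φ (-t) y) - ContinuousLinearMap.id ℝ (Ed d) -
        t • fderiv ℝ X (Φ (-t) y)) + t • (fderiv ℝ X (Φ (-t) y) - fderiv ℝ X y) := by
      rw [hR₂, smul_sub]
      abel
    rw [e1]
    refine (norm_add_le _ _).trans ?_
    rw [norm_smul, Real.norm_eq_abs]
    have h4 := mul_le_mul_of_nonneg_left h2 hta0
    have h5 : |t| * (K * (C * |t|)) = K * C * t ^ 2 := by
      rw [← hsq]
      ring
    rw [h5] at h4
    rw [hc₂]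
    linarith
  have hbe : b = ContinuousLinearMap.id ℝ (Ed d) + t • D1 + R₂ := by
    rw [hR₂]
    abel
  have hid : ‖ContinuousLinearMap.id ℝ (Ed d)‖ ≤ 1 := ContinuousLinearMap.norm_id_le
  have hb2 : ‖b‖ ≤ 2 := by
    have h1 := norm_sub_norm_le b (ContinuousLinearMap.id ℝ (Ed d))
    linarith
  -- the adjoint
  obtain ⟨R₃, hR₃⟩ : ∃ R₃, R₃ = ContinuousLinearMap.adjoint R₁ := ⟨_, rfl⟩
  have hR₃n : ‖R₃‖ ≤ C * t ^ 2 := by
    rw [hR₃, LinearIsometryEquiv.norm_map]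
    exact hR₁n
  have hadj : ContinuousLinearMap.adjoint a = ContinuousLinearMap.id ℝ (Ed d) -
      t • ContinuousLinearMap.adjoint D1 + R₃ := by
    have e1 : a = ContinuousLinearMap.id ℝ (Ed d) - t • D1 + R₁ := by
      rw [hR₁]
      abel
    have e2 : ContinuousLinearMap.adjoint (ContinuousLinearMap.id ℝ (Ed d)) =
        ContinuousLinearMap.id ℝ (Ed d) := by
      symm
      rw [ContinuousLinearMap.eq_adjoint_iff]
      intro x z
      rfl
    rw [e1, map_add, map_sub, map_smulₛₗ, e2, hR₃]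
    rfl
  have hkey : Th Φ t y - t • SX X y = R₂ - (t * t * v) • D1 - (t * v) • R₂ + r₁ • b - R₃ := by
    unfold Th SX
    rw [← ha, ← hb, ← hD1, ← hv, abs_of_nonneg hdet0, hadj, hdet]
    rw [hbe]
    module
  have hfin : ‖Th Φ t y - t • SX X y‖ ≤ M' * t ^ 2 := by
    rw [hkey]
    have n1 : ‖(t * t * v) • D1‖ ≤ V * K * t ^ 2 := by
      rw [norm_smul, Real.norm_eq_abs, abs_mul, abs_mul]
      have h1 : |v| * ‖D1‖ ≤ V * K := mul_le_mul hvV (hK2 y) (norm_nonneg _) hV0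
      have h2 : |t| * |t| * |v| * ‖D1‖ = (|v| * ‖D1‖) * t ^ 2 := by
        rw [← hsq]
        ring
      rw [h2]
      exact mul_le_mul_of_nonneg_right h1 (sq_nonneg _)
    have n2 : ‖(t * v) • R₂‖ ≤ V * c₂ * t ^ 2 := by
      rw [norm_smul, Real.norm_eq_abs, abs_mul]
      have h1 : |t| * |v| ≤ 1 * V := mul_le_mul ht1' hvV (abs_nonneg _) zero_le_one
      have h2 := mul_le_mul h1 hR₂n (norm_nonneg _) (by linarith)
      calc _ ≤ _ := h2
        _ = _ := by ring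
    have n3 : ‖r₁ • b‖ ≤ 2 * c₁ * t ^ 2 := by
      rw [norm_smul, Real.norm_eq_abs]
      have h2 := mul_le_mul hr₁n hb2 (norm_nonneg _) (by positivity)
      calc _ ≤ _ := h2
        _ = _ := by ring
    have s1 := norm_sub_le (R₂ - (t * t * v) • D1 - (t * v) • R₂ + r₁ • b) R₃
    have s2 := norm_add_le (R₂ - (t * t * v) • D1 - (t * v) • R₂) (r₁ • b)
    have s3 := norm_sub_le (R₂ - (t * t * v) • D1) ((t * v) • R₂)
    have s4 := norm_sub_le R₂ ((t * t * v) • D1)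
    rw [hM']
    linarith
  have hSX : ‖SX X y‖ ≤ 2 * K + V := by
    unfold SX
    rw [← hD1, ← hv]
    have s1 := norm_sub_le (D1 + ContinuousLinearMap.adjoint D1) (v • ContinuousLinearMap.id ℝ (Ed d))
    have s2 := norm_add_le D1 (ContinuousLinearMap.adjoint D1)
    rw [LinearIsometryEquiv.norm_map] at s2
    have s3 : ‖v • ContinuousLinearMap.id ℝ (Ed d)‖ ≤ V * 1 := by
      rw [norm_smul, Real.norm_eq_abs]
      exact mul_le_mul hvV hid (norm_nonneg _) hV0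
    have s4 : ‖D1‖ ≤ K := hK2 y
    linarith
  constructor
  · have s1 : ‖Th Φ t y‖ ≤ ‖Th Φ t y - t • SX X y‖ + ‖t • SX X y‖ := by
      have := norm_add_le (Th Φ t y - t • SX X y) (t • SX X y)
      rwa [sub_add_cancel] at this
    have s2 : ‖t • SX X y‖ ≤ |t| * (2 * K + V) := by
      rw [norm_smul, Real.norm_eq_abs]
      exact mul_le_mul_of_nonneg_left hSX hta0
    have s3 : M' * t ^ 2 ≤ M' * |t| := mul_le_mul_of_nonneg_left hsq' hM'0
    linarith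
  · have s1 : 0 ≤ (2 * K + V) * t ^ 2 := by positivity
    linarith

end Pool.Agent.Lib.MP_79abb3_an.W.B
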