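import Pool.Agent.Lib.MP_79abb3_an.W.BT1

/-!
Theorem W, block B: pull back of one forms.
-/

set_option autoImplicit false
set_option linter.unusedSectionVars false

open MeasureTheory Set Filter Topology Function
open scoped RealInnerProductSpace ENNReal NNReal

namespace Pool.Agent.Lib.MP_79abb3_an.W.B

variable {d : ℕ} {X : Ed d → Ed d} {τ C : ℝ} {Φ : ℝ → Ed d → Ed d} {D : Set (Ed d)}

private theorem bT2_norm (hΦ : IsFl X τ C Φ) {t : ℝ} (ht : t ∈ Ioo (-τ) τ) (u : Ed d → Ed d) (x : Ed d) :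
    ‖pb Φ t u x‖ ≤ (1 + |C| * τ) * ‖u (Φ t x)‖ := by
  have ht' : |t| ≤ τ := (abs_lt.2 ht).le
  have h1 : ‖fderiv ℝ (Φ t) x‖ ≤ 1 + |C| * τ := by
    have h2 := hΦ.dnear t ht x
    have h3 : ‖fderiv ℝ (Φ t) x‖ ≤ ‖fderiv ℝ (Φ t) x - ContinuousLinearMap.id ℝ (Ed d)‖ +
        ‖ContinuousLinearMap.id ℝ (Ed d)‖ := by
      have h4 := norm_add_le (fderiv ℝ (Φ t) x - ContinuousLinearMap.id ℝ (Ed d))
        (ContinuousLinearMap.id ℝ (Ed d))
      rwa [sub_add_cancel] at h4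
    have h5 : ‖ContinuousLinearMap.id ℝ (Ed d)‖ ≤ 1 := ContinuousLinearMap.norm_id_le
    have h6 : C * |t| ≤ |C| * τ :=
      (mul_le_mul_of_nonneg_right (le_abs_self C) (abs_nonneg t)).trans
        (mul_le_mul_of_nonneg_left ht' (abs_nonneg C))
    linarith
  unfold pb
  refine (ContinuousLinearMap.le_opNorm _ _).trans ?_
  rw [LinearIsometryEquiv.norm_map]
  exact mul_le_mul_of_nonneg_right h1 (norm_nonneg _)

/-- (The adjoint has the same norm; `‖DΦ‖ ≤ 1 + C τ`.) -/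
theorem eLpNorm_pb_le (hΦ : IsFl X τ C Φ) (hP : Pres D τ Φ) (hD : IsOpen D) :
    ∃ M : ℝ≥0, ∀ t ∈ Ioo (-τ) τ, ∀ u : Ed d → Ed d,
      eLpNorm (pb Φ t u) 2 (volume.restrict D) ≤ M * eLpNorm u 2 (volume.restrict D) := by
  obtain ⟨M, hM⟩ := eLpNorm_comp_le hΦ hP hD
  have hc : 0 ≤ 1 + |C| * τ := by
    have := hΦ.pos
    positivity
  obtain ⟨c, hcc⟩ : ∃ c : ℝ≥0, (c : ℝ) = 1 + |C| * τ := ⟨⟨_, hc⟩, rfl⟩
  refine ⟨c * M, fun t ht u => ?_⟩
  have h1 : eLpNorm (pb Φ t u) 2 (volume.restrict D) ≤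
      c • eLpNorm (fun x => u (Φ t x)) 2 (volume.restrict D) :=
    eLpNorm_le_nnreal_smul_eLpNorm_of_ae_le_mul (g := fun x => u (Φ t x)) (Eventually.of_forall fun x => by
      rw [← NNReal.coe_le_coe, NNReal.coe_mul, hcc]
      exact bT2_norm hΦ ht u x) 2
  refine h1.trans ?_
  rw [ENNReal.smul_def, smul_eq_mul, ENNReal.coe_mul, mul_assoc]
  exact mul_le_mul_right (hM t ht (Ed d) u) _

theorem memLp_pb (hΦ : IsFl X τ C Φ) (hP : Pres D τ Φ) (hD : IsOpen D) {t : ℝ} (ht : t ∈ Ioo (-τ) τ)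
    {u : Ed d → Ed d} (hu : MemLp u 2 (volume.restrict D)) : MemLp (pb Φ t u) 2 (volume.restrict D) := by
  have h1 := memLp_comp hΦ hP hD ht hu
  have hc : Continuous fun x => ContinuousLinearMap.adjoint (fderiv ℝ (Φ t) x) :=
    (ContinuousLinearMap.adjoint (𝕜 := ℝ) (E := Ed d) (F := Ed d)).continuous.comp
      ((hΦ.c1 t ht).continuous_fderiv (by norm_num))
  have h2 : AEStronglyMeasurable (pb Φ t u) (volume.restrict D) :=
    (ContinuousLinearMap.id ℝ (Ed d →L[ℝ] Ed d)).aestronglyMeasurable_comp₂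
      hc.aestronglyMeasurable h1.1
  exact h1.of_le_mul h2 (Eventually.of_forall fun x => bT2_norm hΦ ht u x)

theorem pb_sub (Φ : ℝ → Ed d → Ed d) (t : ℝ) (u v : Ed d → Ed d) :
    pb Φ t (fun x => u x - v x) = fun x => pb Φ t u x - pb Φ t v x := by
  funext x
  exact map_sub _ _ _

/-- Chain rule. -/
theorem gradient_comp (hΦ : IsFl X τ C Φ) {t : ℝ} (ht : t ∈ Ioo (-τ) τ) {φ : Ed d → ℝ} (hφ : IsT1 φ) (x : Ed d) :
    gradient (fun y => φ (Φ t y)) x = pb Φ t (gradient φ) x := by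
  have h1 : DifferentiableAt ℝ (Φ t) x := (hΦ.c1 t ht).differentiable (by norm_num) x
  have h2 : DifferentiableAt ℝ φ (Φ t x) := hφ.c1.differentiable (by norm_num) _
  have h3 : HasFDerivAt (fun y => φ (Φ t y)) ((fderiv ℝ φ (Φ t x)).comp (fderiv ℝ (Φ t) x)) x :=
    h2.hasFDerivAt.comp x h1.hasFDerivAt
  refine ext_inner_right ℝ fun v => ?_
  unfold pb
  rw [ContinuousLinearMap.adjoint_inner_left]
  unfold gradient
  rw [InnerProductSpace.toDual_symm_apply, InnerProductSpace.toDual_symm_apply, h3.fderiv]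
  rfl

/-- `φ ∘ Φ t` has compact support: it vanishes off `Φ (-t) '' tsupport φ` (compact, `Φ (-t)` is continuous). -/
theorem IsT1.comp (hΦ : IsFl X τ C Φ) {t : ℝ} (ht : t ∈ Ioo (-τ) τ) {φ : Ed d → ℝ} (hφ : IsT1 φ) :
    IsT1 (fun y => φ (Φ t y)) := by
  have ht' : -t ∈ Ioo (-τ) τ := ⟨neg_lt_neg ht.2, by linarith [ht.1]⟩
  refine ⟨hφ.c1.comp (hΦ.c1 t ht), ?_⟩
  refine HasCompactSupport.intro (K := Φ (-t) '' tsupport φ)
    (hφ.cpt.isCompact.image (hΦ.c1 (-t) ht').continuous) fun x hx => ?_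
  by_contra h
  exact hx ⟨Φ t x, subset_tsupport φ h, hΦ.inv t ht x⟩

/-- Pull back preserves `G(D)`. -/
theorem inG_pb (hΦ : IsFl X τ C Φ) (hP : Pres D τ Φ) (hD : IsOpen D) {t : ℝ} (ht : t ∈ Ioo (-τ) τ)
    {γ : Ed d → Ed d} (h : InG D γ) : InG D (pb Φ t γ) := by
  refine ⟨memLp_pb hΦ hP hD ht h.mem, fun ε hε => ?_⟩
  obtain ⟨M, hM⟩ := eLpNorm_pb_le hΦ hP hD
  have hM1 : ((M + 1 : ℝ≥0) : ℝ≥0∞) ≠ 0 := by
    rw [Ne, ENNReal.coe_eq_zero]
    positivity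
  have hM2 : ((M + 1 : ℝ≥0) : ℝ≥0∞) ≠ ∞ := ENNReal.coe_ne_top
  obtain ⟨φ, hφ, hle⟩ := h.ap (ε / ((M + 1 : ℝ≥0) : ℝ≥0∞)) (by
    rw [Ne, ENNReal.div_eq_zero_iff]
    exact fun h => h.elim hε hM2)
  refine ⟨fun y => φ (Φ t y), hφ.comp hΦ ht, ?_⟩
  have e : (fun x => pb Φ t γ x - gradient (fun y => φ (Φ t y)) x) =
      pb Φ t (fun x => γ x - gradient φ x) := by
    rw [pb_sub]
    funext x
    rw [gradient_comp hΦ ht hφ]
  rw [e]
  refine (hM t ht _).trans ((mul_le_mul_right hle _).trans ?_)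
  calc (M : ℝ≥0∞) * (ε / ((M + 1 : ℝ≥0) : ℝ≥0∞))
      ≤ ((M + 1 : ℝ≥0) : ℝ≥0∞) * (ε / ((M + 1 : ℝ≥0) : ℝ≥0∞)) := by
        refine mul_le_mul_left ?_ _
        rw [ENNReal.coe_le_coe]
        exact le_self_add
    _ = ε := ENNReal.mul_div_cancel hM1 hM2

end Pool.Agent.Lib.MP_79abb3_an.W.B
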