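import Pool.Agent.Lib.MP_79abb3_an.W.BCl
import Pool.Agent.Lib.MP_79abb3_an.W.BR1
import Pool.Agent.Lib.MP_79abb3_an.W.BT2

section

/-!
Theorem W, block B: closure properties of `PT`.
-/

set_option autoImplicit false
set_option linter.unusedSectionVars false

open MeasureTheory Set Filter Topology Function
open scoped RealInnerProductSpace ENNReal NNReal

namespace Pool.Agent.Lib.MP_79abb3_an.W.B

variable {d : ℕ} {D : Set (Ed d)} {ι : Type} {N : ι → ℝ≥0∞} {G : Type} [NormedAddCommGroup G] [NormedSpace ℝ G]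
  {G' : Type} [NormedAddCommGroup G'] [NormedSpace ℝ G'] {𝒱 : Set (Ed d → Ed d)} {Nf : Ed d → Ed d}

private theorem br2_congr (hD : IsOpen D) {u v : ι → Ed d → G} (h : ∀ i, ∀ x ∈ D, u i x = v i x)
    (hu : T0 D N u) : T0 D N v := by
  obtain ⟨h1, C, h2⟩ := hu
  refine ⟨fun i => (h1 i).congr fun x hx => (h i x hx).symm, C, fun i => ?_⟩
  have e : eLpNorm (v i) 2 (volume.restrict D) = eLpNorm (u i) 2 (volume.restrict D) :=
    eLpNorm_congr_ae (ae_restrict_of_forall_mem hD.measurableSet fun x hx => (h i x hx).symm)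
  rw [e]
  exact h2 i

private theorem br2_meas (hD : IsOpen D) {u : Ed d → G} (hu : SmOn u D) :
    AEStronglyMeasurable u (volume.restrict D) :=
  hu.continuousOn.aestronglyMeasurable hD.measurableSet

private theorem br2_diff (hD : IsOpen D) {u : Ed d → G} (hu : SmOn u D) {x : Ed d} (hx : x ∈ D) :
    DifferentiableAt ℝ u x :=
  (hu.differentiableOn (by norm_num)).differentiableAt (hD.mem_nhds hx)

private theorem br2_add (hD : IsOpen D) {u v : ι → Ed d → G} (hu : T0 D N u) (hv : T0 D N v) :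
    T0 D N (fun i x => u i x + v i x) := by
  obtain ⟨h1, C, h2⟩ := hu
  obtain ⟨h1', C', h2'⟩ := hv
  refine ⟨fun i => (h1 i).add (h1' i), C + C', fun i => ?_⟩
  have h3 := eLpNorm_add_le (p := 2) (br2_meas hD (h1 i)) (br2_meas hD (h1' i)) (by norm_num)
  refine h3.trans ((add_le_add (h2 i) (h2' i)).trans (le_of_eq ?_))
  push_cast
  ring

private theorem br2_zero : T0 D N (fun (_ : ι) (_ : Ed d) => (0 : G)) := by
  refine ⟨fun i => contDiffOn_const, 0, fun i => ?_⟩
  have : eLpNorm (fun _ : Ed d => (0 : G)) 2 (volume.restrict D) = 0 := eLpNorm_zero'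
  rw [this]
  exact bot_le

private theorem br2_mul (hD : IsOpen D) (hb : Bornology.IsBounded D) {A : Ed d → G →L[ℝ] G'} (hA : Sm A)
    {u : ι → Ed d → G} (hu : T0 D N u) : T0 D N (fun i x => A x (u i x)) := by
  obtain ⟨h1, C, h2⟩ := hu
  have hc : IsCompact (closure D) := hb.isCompact_closure
  obtain ⟨K, hK⟩ := hc.exists_bound_of_continuousOn (f := A) hA.continuous.continuousOn
  refine ⟨fun i => hA.contDiffOn.clm_apply (h1 i), K.toNNReal * C, fun i => ?_⟩
  have h3 : ∀ᵐ x ∂(volume.restrict D), ‖A x (u i x)‖₊ ≤ K.toNNReal * ‖u i x‖₊ := by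
    refine ae_restrict_of_forall_mem hD.measurableSet fun x hx => ?_
    have h4 := hK x (subset_closure hx)
    have h5 : ‖A x (u i x)‖ ≤ K * ‖u i x‖ :=
      ((A x).le_opNorm _).trans (mul_le_mul_of_nonneg_right h4 (norm_nonneg _))
    rw [← NNReal.coe_le_coe]
    push_cast
    rw [Real.coe_toNNReal K ((norm_nonneg _).trans h4)]
    exact h5
  have h6 := eLpNorm_le_nnreal_smul_eLpNorm_of_ae_le_mul h3 2
  refine h6.trans ?_
  rw [ENNReal.smul_def, smul_eq_mul, ENNReal.coe_mul, mul_assoc]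
  exact mul_le_mul_right (h2 i) _

theorem PT.congr (hD : IsOpen D) {k : ℕ} {u v : ι → Ed d → G} (h : ∀ i, ∀ x ∈ D, u i x = v i x)
    (hu : PT D N k u) : PT D N k v := by
  induction k generalizing u v with
  | zero => exact br2_congr hD h hu
  | succ k ih =>
    refine ⟨br2_congr hD h hu.1, fun j => ?_⟩
    refine ih (fun i x hx => ?_) (hu.2 j)
    have e : u i =ᶠ[𝓝 x] v i := by
      filter_upwards [hD.mem_nhds hx] with y hy
      exact h i y hy
    rw [e.fderiv_eq]

theorem PT.base {k : ℕ} {u : ι → Ed d → G} (hu : PT D N k u) : T0 D N u := by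
  cases k with
  | zero => exact hu
  | succ k => exact hu.1

theorem PT.mono {k : ℕ} {u : ι → Ed d → G} (hu : PT D N (k + 1) u) : PT D N k u := by
  induction k generalizing u with
  | zero => exact hu.1
  | succ k ih => exact ⟨hu.1, fun j => ih (hu.2 j)⟩

theorem PT.add (hD : IsOpen D) {k : ℕ} {u v : ι → Ed d → G} (hu : PT D N k u) (hv : PT D N k v) :
    PT D N k (fun i x => u i x + v i x) := by
  induction k generalizing u v with
  | zero => exact br2_add hD hu hv
  | succ k ih =>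
    refine ⟨br2_add hD hu.1 hv.1, fun j => ?_⟩
    refine PT.congr hD (fun i x hx => ?_) (ih (hu.2 j) (hv.2 j))
    rw [fderiv_fun_add (br2_diff hD (hu.1.1 i) hx) (br2_diff hD (hv.1.1 i) hx)]
    rfl

theorem PT.zero {k : ℕ} : PT D N k (fun (_ : ι) (_ : Ed d) => (0 : G)) := by
  induction k with
  | zero => exact br2_zero
  | succ k ih =>
    refine ⟨br2_zero, fun j => ?_⟩
    have e : (fun (_ : ι) (x : Ed d) => fderiv ℝ (fun _ : Ed d => (0 : G)) x (ee j)) =
        fun (_ : ι) (_ : Ed d) => (0 : G) := by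
      funext i x
      simp
    rw [e]
    exact ih

theorem PT.sum (hD : IsOpen D) {k n : ℕ} {u : Fin n → ι → Ed d → G} (hu : ∀ j, PT D N k (u j)) :
    PT D N k (fun i x => ∑ j, u j i x) := by
  induction n with
  | zero =>
    simp only [Finset.univ_eq_empty, Finset.sum_empty]
    exact PT.zero
  | succ n ih =>
    simp only [Fin.sum_univ_succ]
    exact (hu 0).add hD (ih fun j => hu j.succ)

/-- `∂_j (A u) = (∂_j A) u + A (∂_j u)`; smooth coefficients are bounded on `D`. -/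
theorem PT.mul (hD : IsOpen D) (hb : Bornology.IsBounded D) {k : ℕ} {A : Ed d → G →L[ℝ] G'} (hA : Sm A)
    {u : ι → Ed d → G} (hu : PT D N k u) : PT D N k (fun i x => A x (u i x)) := by
  induction k generalizing u A with
  | zero => exact br2_mul hD hb hA hu
  | succ k ih =>
    refine ⟨br2_mul hD hb hA hu.1, fun j => ?_⟩
    have hA' : Sm fun x => fderiv ℝ A x (ee j) :=
      (ContDiff.fderiv_right hA (by exact_mod_cast le_top)).clm_apply contDiff_const
    refine PT.congr hD (fun i x hx => ?_) ((ih hA' hu.mono).add hD (ih hA (hu.2 j)))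
    have hAd : DifferentiableAt ℝ A x := (hA.differentiable (by norm_num)) x
    rw [fderiv_clm_apply hAd (br2_diff hD (hu.1.1 i) hx)]
    simp [add_comm]

/-- Derivatives in the direction of a smooth field `W = ∑ W_j e_j`. -/
theorem PT.dir (hD : IsOpen D) (hb : Bornology.IsBounded D) {k : ℕ} {W : Ed d → Ed d} (hW : Sm W)
    {u : ι → Ed d → G} (hu : PT D N (k + 1) u) : PT D N k (fun i x => fderiv ℝ (u i) x (W x)) := by
  have hj : ∀ j : Fin d, Sm fun x => W x j • ContinuousLinearMap.id ℝ G := fun j =>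
    ContDiff.smul ((EuclideanSpace.proj (𝕜 := ℝ) j).contDiff.comp hW) contDiff_const
  have h1 : PT D N k fun i x => ∑ j, (W x j • ContinuousLinearMap.id ℝ G) (fderiv ℝ (u i) x (ee j)) :=
    PT.sum (u := fun j i x => (W x j • ContinuousLinearMap.id ℝ G) (fderiv ℝ (u i) x (ee j))) hD
      fun j => PT.mul hD hb (hj j) (hu.2 j)
  refine PT.congr hD (fun i x _ => ?_) h1
  have e : W x = ∑ j, W x j • (ee j : Ed d) := by
    ext k
    simp [Finset.sum_apply, Pi.single_apply]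
  conv_rhs => rw [e, map_sum]
  refine Finset.sum_congr rfl fun j _ => ?_
  rw [map_smul]
  rfl

end Pool.Agent.Lib.MP_79abb3_an.W.B
end

section

/-!
Theorem W, block B: `PT` implies `TT` and `FF`.
-/

set_option autoImplicit false
set_option linter.unusedSectionVars false

open MeasureTheory Set Filter Topology Function
open scoped RealInnerProductSpace ENNReal NNReal

namespace Pool.Agent.Lib.MP_79abb3_an.W.B

variable {d : ℕ} {D : Set (Ed d)} {ι : Type} {N : ι → ℝ≥0∞} {G : Type} [NormedAddCommGroup G] [NormedSpace ℝ G]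
  {G' : Type} [NormedAddCommGroup G'] [NormedSpace ℝ G'] {𝒱 : Set (Ed d → Ed d)} {Nf : Ed d → Ed d}

theorem PT.tt (hD : IsOpen D) (hb : Bornology.IsBounded D) (h𝒱 : ∀ X ∈ 𝒱, Sm X) {k : ℕ} {u : ι → Ed d → G}
    (hu : PT D N k u) : TT D N 𝒱 k u := by
  induction k generalizing u with
  | zero => exact hu
  | succ k ih => exact ⟨hu.base, fun X hX => ih (hu.dir hD hb (h𝒱 X hX))⟩

theorem PT.ff (hD : IsOpen D) (hb : Bornology.IsBounded D) (h𝒱 : ∀ X ∈ 𝒱, Sm X) (hN : Sm Nf) {m n : ℕ}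
    {u : ι → Ed d → G} (hu : PT D N n u) : FF D N 𝒱 Nf m n u := by
  induction m generalizing n u with
  | zero => exact hu.tt hD hb h𝒱
  | succ m ih =>
    cases n with
    | zero => exact hu.base
    | succ n => exact ⟨ih hu, ih (hu.dir hD hb hN)⟩

private lemma br3_at (hD : IsOpen D) {f : Ed d → G} (hf : SmOn f D) {x : Ed d} (hx : x ∈ D) :
    ContDiffAt ℝ ((⊤ : ℕ∞) : WithTop ℕ∞) (fderiv ℝ f) x :=
  (hf.contDiffAt (hD.mem_nhds hx)).fderiv_right (by simp)

private lemma br3_eval (hD : IsOpen D) {f : Ed d → G} (hf : SmOn f D) {x : Ed d} (hx : x ∈ D) (j : ℕ)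
    (l : Fin d) (m : Fin j → Ed d) :
    iteratedFDeriv ℝ j (fun y => fderiv ℝ f y (ee l)) x m =
      iteratedFDeriv ℝ j (fderiv ℝ f) x m (ee l) := by
  have h := ContinuousLinearMap.iteratedFDeriv_comp_left (ContinuousLinearMap.apply ℝ G (ee l))
    (br3_at hD hf hx) (i := j) (by exact_mod_cast le_top)
  have h2 := congrArg (fun T => T m) h
  exact h2

private lemma br3_lin (T : Ed d →L[ℝ] G) : ‖T‖ ≤ ∑ l, ‖T (ee l)‖ := by
  refine T.opNorm_le_bound (Finset.sum_nonneg fun _ _ => norm_nonneg _) fun w => ?_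
  have hw : w = ∑ l, w l • (ee l : Ed d) := by
    ext i
    simp [Pi.single_apply]
  calc ‖T w‖ = ‖∑ l, w l • T (ee l)‖ := by
        conv_lhs => rw [hw, map_sum]
        simp only [map_smul]
    _ ≤ ∑ l, ‖w l • T (ee l)‖ := norm_sum_le _ _
    _ ≤ ∑ l, ‖T (ee l)‖ * ‖w‖ := by
        refine Finset.sum_le_sum fun l _ => ?_
        rw [norm_smul, mul_comm]
        exact mul_le_mul_of_nonneg_left (PiLp.norm_apply_le w l) (norm_nonneg _)
    _ = _ := by rw [Finset.sum_mul]

private lemma br3_upper (hD : IsOpen D) {f : Ed d → G} (hf : SmOn f D) {x : Ed d} (hx : x ∈ D) (j : ℕ) :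
    ‖iteratedFDeriv ℝ (j + 1) f x‖ ≤ ∑ l, ‖iteratedFDeriv ℝ j (fun y => fderiv ℝ f y (ee l)) x‖ := by
  rw [← norm_iteratedFDeriv_fderiv]
  refine ContinuousMultilinearMap.opNorm_le_bound (Finset.sum_nonneg fun _ _ => norm_nonneg _)
    fun m => ?_
  refine (br3_lin _).trans ?_
  rw [Finset.sum_mul]
  refine Finset.sum_le_sum fun l _ => ?_
  rw [← br3_eval hD hf hx]
  exact ContinuousMultilinearMap.le_opNorm _ _

private lemma br3_lower (hD : IsOpen D) {f : Ed d → G} (hf : SmOn f D) {x : Ed d} (hx : x ∈ D) (j : ℕ)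
    (l : Fin d) :
    ‖iteratedFDeriv ℝ j (fun y => fderiv ℝ f y (ee l)) x‖ ≤ ‖iteratedFDeriv ℝ (j + 1) f x‖ := by
  rw [← norm_iteratedFDeriv_fderiv (f := f)]
  refine ContinuousMultilinearMap.opNorm_le_bound (norm_nonneg _) fun m => ?_
  rw [br3_eval hD hf hx]
  refine (ContinuousLinearMap.le_opNorm _ _).trans ?_
  have h1 : ‖(ee l : Ed d)‖ = 1 := by simp
  rw [h1, mul_one]
  exact ContinuousMultilinearMap.le_opNorm _ _

private lemma br3_smd (hD : IsOpen D) {f : Ed d → G} (hf : SmOn f D) (l : Fin d) :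
    SmOn (fun y => fderiv ℝ f y (ee l)) D := by
  intro x hx
  exact ((br3_at hD hf hx).clm_apply contDiffAt_const).contDiffWithinAt

private lemma br3_cont (hD : IsOpen D) {f : Ed d → G} (hf : SmOn f D) (j : ℕ) :
    ContinuousOn (iteratedFDeriv ℝ j f) D := by
  intro x hx
  have h1 : ContDiffAt ℝ ((⊤ : ℕ∞) : WithTop ℕ∞) f x := hf.contDiffAt (hD.mem_nhds hx)
  have h2 : ContDiffAt ℝ 0 (iteratedFDeriv ℝ j f) x :=
    h1.iteratedFDeriv_right (by simp only [zero_add]; exact_mod_cast le_top)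
  exact h2.continuousAt.continuousWithinAt

private lemma br3_le (hD : IsOpen D) {H H' : Type} [NormedAddCommGroup H] [NormedAddCommGroup H']
    {v : ι → Ed d → H} {w : ι → Ed d → H'}
    (hvw : ∀ i, ∀ x ∈ D, ‖v i x‖ ≤ ‖w i x‖) (i : ι) :
    eLpNorm (v i) 2 (volume.restrict D) ≤ eLpNorm (w i) 2 (volume.restrict D) := by
  refine eLpNorm_mono_ae ?_
  rw [ae_restrict_iff' hD.measurableSet]
  exact Eventually.of_forall fun x hx => hvw i x hx

/-- `PT` in terms of iterated derivatives: `|D^{j+1} u| ≤ ∑ |D^j ∂_l u|` and `|D^j ∂_l u| ≤ |D^{j+1} u|` on `D`. -/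
theorem PT.iff (hD : IsOpen D) {k : ℕ} {u : ι → Ed d → G} : PT D N k u ↔
    (∀ i, SmOn (u i) D) ∧ ∀ j ≤ k, Tame D N (fun i x => iteratedFDeriv ℝ j (u i) x) := by
  have h0 : ∀ u : ι → Ed d → G, Tame D N u ↔ Tame D N (fun i x => iteratedFDeriv ℝ 0 (u i) x) := by
    intro u
    have : ∀ i, eLpNorm (u i) 2 (volume.restrict D) =
        eLpNorm (fun x => iteratedFDeriv ℝ 0 (u i) x) 2 (volume.restrict D) := fun i =>
      eLpNorm_congr_norm_ae (Eventually.of_forall fun x => by rw [norm_iteratedFDeriv_zero])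
    simp only [Tame, this]
  induction k generalizing u with
  | zero =>
    constructor
    · rintro ⟨h1, h2⟩
      refine ⟨h1, fun j hj => ?_⟩
      obtain rfl : j = 0 := by omega
      exact (h0 u).mp h2
    · rintro ⟨h1, h2⟩
      exact ⟨h1, (h0 u).mpr (h2 0 le_rfl)⟩
  | succ k ih =>
    constructor
    · rintro ⟨⟨h1, h2⟩, h3⟩
      refine ⟨h1, fun j hj => ?_⟩
      rcases j with _ | j
      · exact (h0 u).mp h2
      have h4 : ∀ l : Fin d, Tame D N
          (fun i x => iteratedFDeriv ℝ j (fun y => fderiv ℝ (u i) y (ee l)) x) := fun l =>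
        (ih.mp (h3 l)).2 j (by omega)
      choose C hC using h4
      refine ⟨∑ l, C l, fun i => ?_⟩
      have hm : ∀ l ∈ (Finset.univ : Finset (Fin d)), AEStronglyMeasurable
          (fun x => ‖iteratedFDeriv ℝ j (fun y => fderiv ℝ (u i) y (ee l)) x‖)
          (volume.restrict D) := fun l _ =>
        ((br3_cont hD (br3_smd hD (h1 i) l) j).norm).aestronglyMeasurable hD.measurableSet
      calc eLpNorm (fun x => iteratedFDeriv ℝ (j + 1) (u i) x) 2 (volume.restrict D)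
          ≤ eLpNorm (∑ l, fun x => ‖iteratedFDeriv ℝ j (fun y => fderiv ℝ (u i) y (ee l)) x‖) 2
              (volume.restrict D) := by
            refine br3_le (v := fun i x => iteratedFDeriv ℝ (j + 1) (u i) x)
              (w := fun i => ∑ l, fun x =>
                ‖iteratedFDeriv ℝ j (fun y => fderiv ℝ (u i) y (ee l)) x‖) hD ?_ i
            intro i x hx
            rw [Finset.sum_apply, Real.norm_of_nonneg (Finset.sum_nonneg fun _ _ => norm_nonneg _)]
            exact br3_upper hD (h1 i) hx j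
        _ ≤ ∑ l, eLpNorm (fun x => ‖iteratedFDeriv ℝ j (fun y => fderiv ℝ (u i) y (ee l)) x‖) 2
              (volume.restrict D) := eLpNorm_sum_le hm (by norm_num)
        _ ≤ ∑ l, (C l : ℝ≥0∞) * N i := by
            refine Finset.sum_le_sum fun l _ => ?_
            rw [eLpNorm_norm]
            exact hC l i
        _ = ((∑ l, C l : ℝ≥0) : ℝ≥0∞) * N i := by
            rw [← Finset.sum_mul, ENNReal.ofNNReal_finsetSum]
    · rintro ⟨h1, h2⟩
      refine ⟨⟨h1, (h0 u).mpr (h2 0 (by omega))⟩, fun l => ih.mpr ⟨fun i => br3_smd hD (h1 i) l, ?_⟩⟩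
      intro j hj
      obtain ⟨C, hC⟩ := h2 (j + 1) (by omega)
      exact ⟨C, fun i => (br3_le hD (v := fun i x =>
        iteratedFDeriv ℝ j (fun y => fderiv ℝ (u i) y (ee l)) x)
        (w := fun i x => iteratedFDeriv ℝ (j + 1) (u i) x)
        (fun i x hx => br3_lower hD (h1 i) hx j l) i).trans (hC i)⟩

end Pool.Agent.Lib.MP_79abb3_an.W.B
end

section

/-!
Theorem W, block B: closure properties of `FF`, part 1.
-/

set_option autoImplicit false
set_option linter.unusedSectionVars false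

open MeasureTheory Set Filter Topology Function
open scoped RealInnerProductSpace ENNReal NNReal

namespace Pool.Agent.Lib.MP_79abb3_an.W.B

variable {d : ℕ} {D : Set (Ed d)} {ι : Type} {N : ι → ℝ≥0∞} {G : Type} [NormedAddCommGroup G] [NormedSpace ℝ G]
  {G' : Type} [NormedAddCommGroup G'] [NormedSpace ℝ G'] {𝒱 : Set (Ed d → Ed d)} {Nf : Ed d → Ed d}

private theorem br4_fderiv_congr (hD : IsOpen D) {u v : Ed d → G} (h : ∀ x ∈ D, u x = v x) {x : Ed d}
    (hx : x ∈ D) : fderiv ℝ u x = fderiv ℝ v x :=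
  Filter.EventuallyEq.fderiv_eq (Filter.eventually_of_mem (hD.mem_nhds hx) h)

private theorem br4_diff (hD : IsOpen D) {u : Ed d → G} (hu : SmOn u D) {x : Ed d} (hx : x ∈ D) :
    DifferentiableAt ℝ u x :=
  (hu.contDiffAt (hD.mem_nhds hx)).differentiableAt (by simp)

private theorem br4_two : (2 : WithTop ℕ∞) ≤ ((⊤ : ℕ∞) : WithTop ℕ∞) :=
  (WithTop.coe_le_coe.2 le_top : ((2 : ℕ∞) : WithTop ℕ∞) ≤ ((⊤ : ℕ∞) : WithTop ℕ∞))

theorem FF.congr (hD : IsOpen D) {m n : ℕ} {u v : ι → Ed d → G} (h : ∀ i, ∀ x ∈ D, u i x = v i x)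
    (hu : FF D N 𝒱 Nf m n u) : FF D N 𝒱 Nf m n v := by
  induction m generalizing n u v with
  | zero => exact TT.congr hD h hu
  | succ m ih =>
    cases n with
    | zero => exact T0.congr hD h hu
    | succ n =>
      refine ⟨ih h hu.1, ih (fun i x hx => ?_) hu.2⟩
      rw [br4_fderiv_congr hD (h i) hx]

theorem FF.base {m n : ℕ} {u : ι → Ed d → G} (hu : FF D N 𝒱 Nf m n u) : T0 D N u := by
  induction m generalizing n u with
  | zero => exact TT.base hu
  | succ m ih =>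
    cases n with
    | zero => exact hu
    | succ n => exact ih hu.1

theorem FF.tt {m n : ℕ} {u : ι → Ed d → G} (hu : FF D N 𝒱 Nf m n u) : TT D N 𝒱 n u := by
  induction m generalizing n u with
  | zero => exact hu
  | succ m ih =>
    cases n with
    | zero => exact hu
    | succ n => exact ih hu.1

theorem FF.mono {m n : ℕ} {u : ι → Ed d → G} (hu : FF D N 𝒱 Nf m (n + 1) u) : FF D N 𝒱 Nf m n u := by
  induction m generalizing n u with
  | zero => exact TT.mono hu
  | succ m ih =>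
    cases n with
    | zero => exact FF.base hu.1
    | succ n => exact ⟨ih hu.1, ih hu.2⟩

theorem FF.add (hD : IsOpen D) {m n : ℕ} {u v : ι → Ed d → G} (hu : FF D N 𝒱 Nf m n u)
    (hv : FF D N 𝒱 Nf m n v) : FF D N 𝒱 Nf m n (fun i x => u i x + v i x) := by
  induction m generalizing n u v with
  | zero => exact TT.add hD hu hv
  | succ m ih =>
    cases n with
    | zero => exact T0.add hD hu hv
    | succ n =>
      refine ⟨ih hu.1 hv.1, FF.congr hD (fun i x hx => ?_) (ih hu.2 hv.2)⟩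
      have h1 := br4_diff hD (hu.1.base.1 i) hx
      have h2 := br4_diff hD (hv.1.base.1 i) hx
      rw [fderiv_fun_add h1 h2]
      rfl

theorem FF.zero {m n : ℕ} : FF D N 𝒱 Nf m n (fun (_ : ι) (_ : Ed d) => (0 : G)) := by
  induction m generalizing n with
  | zero => exact TT.zero
  | succ m ih =>
    cases n with
    | zero => exact T0.zero
    | succ n =>
      refine ⟨ih, ?_⟩
      have h : (fun (_ : ι) (x : Ed d) => fderiv ℝ (fun _ : Ed d => (0 : G)) x (Nf x)) =
          fun (_ : ι) (_ : Ed d) => (0 : G) := by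
        funext i x
        rw [fderiv_fun_const]
        rfl
      exact Eq.mpr (congrArg (FF D N 𝒱 Nf m n) h) ih

theorem FF.sum (hD : IsOpen D) {m n l : ℕ} {u : Fin l → ι → Ed d → G} (hu : ∀ j, FF D N 𝒱 Nf m n (u j)) :
    FF D N 𝒱 Nf m n (fun i x => ∑ j, u j i x) := by
  induction l with
  | zero =>
    simp only [Finset.univ_eq_empty, Finset.sum_empty]
    exact FF.zero
  | succ l ih =>
    simp only [Fin.sum_univ_succ]
    exact FF.add hD (hu 0) (ih fun j => hu j.succ)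

theorem FF.mul (hD : IsOpen D) (hb : Bornology.IsBounded D) (h𝒱 : ∀ X ∈ 𝒱, Sm X) (hN : Sm Nf) {m n : ℕ}
    {A : Ed d → G →L[ℝ] G'} (hA : Sm A) {u : ι → Ed d → G} (hu : FF D N 𝒱 Nf m n u) :
    FF D N 𝒱 Nf m n (fun i x => A x (u i x)) := by
  induction m generalizing n A u with
  | zero => exact TT.mul hD hb h𝒱 hA hu
  | succ m ih =>
    cases n with
    | zero => exact T0.mul hD hb hA hu
    | succ n =>
      refine ⟨ih hA hu.1, ?_⟩
      have hA1 : Sm (fun x => fderiv ℝ A x (Nf x)) :=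
        (hA.fderiv_right (m := ((⊤ : ℕ∞) : WithTop ℕ∞)) (by simp)).clm_apply hN
      refine FF.congr hD (fun i x hx => ?_) (FF.add hD (ih hA1 hu.1.mono) (ih hA hu.2))
      have h1 := br4_diff hD (hu.1.base.1 i) hx
      have h2 : DifferentiableAt ℝ A x := hA.contDiffAt.differentiableAt (by simp)
      rw [fderiv_clm_apply h2 h1]
      simp only [_root_.add_apply, ContinuousLinearMap.comp_apply,
        ContinuousLinearMap.flip_apply]
      exact add_comm _ _

/-- The Lie bracket of smooth fields: `δ_W δ_X u = δ_X δ_W u + δ_Y u`, `Y = DX(W) - DW(X)` (second derivatives are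
symmetric). -/
theorem bracket (hD : IsOpen D) {X W : Ed d → Ed d} (hX : Sm X) (hW : Sm W) {u : Ed d → G} (hu : SmOn u D)
    {x : Ed d} (hx : x ∈ D) :
    fderiv ℝ (fun y => fderiv ℝ u y (X y)) x (W x) =
      fderiv ℝ (fun y => fderiv ℝ u y (W y)) x (X x) +
        fderiv ℝ u x (fderiv ℝ X x (W x) - fderiv ℝ W x (X x)) := by
  have hu' : ContDiffAt ℝ ((⊤ : ℕ∞) : WithTop ℕ∞) u x := hu.contDiffAt (hD.mem_nhds hx)
  have h1 : DifferentiableAt ℝ (fderiv ℝ u) x :=
    (hu'.fderiv_right (m := 1) (by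
      rw [one_add_one_eq_two]
      exact br4_two)).differentiableAt (by simp)
  have h2 : DifferentiableAt ℝ X x := hX.contDiffAt.differentiableAt (by simp)
  have h3 : DifferentiableAt ℝ W x := hW.contDiffAt.differentiableAt (by simp)
  have h4 : IsSymmSndFDerivAt ℝ u x := hu'.isSymmSndFDerivAt (by
    rw [minSmoothness_of_isRCLikeNormedField]
    exact br4_two)
  rw [fderiv_clm_apply h1 h2, fderiv_clm_apply h1 h3]
  simp only [_root_.add_apply, ContinuousLinearMap.comp_apply,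
    ContinuousLinearMap.flip_apply, map_sub]
  rw [h4.eq (W x) (X x)]
  abel

end Pool.Agent.Lib.MP_79abb3_an.W.B
end

section

/-!
Theorem W, block B: difference quotients of smooth one forms.
-/

set_option autoImplicit false
set_option linter.unusedSectionVars false

open MeasureTheory Set Filter Topology Function
open scoped RealInnerProductSpace ENNReal NNReal

namespace Pool.Agent.Lib.MP_79abb3_an.W.B

variable {d : ℕ} {X : Ed d → Ed d} {τ C : ℝ} {Φ : ℝ → Ed d → Ed d} {D : Set (Ed d)}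

/-- The adjoint as a real linear map. -/
private noncomputable def bt5Adj (d : ℕ) : (Ed d →L[ℝ] Ed d) →L[ℝ] (Ed d →L[ℝ] Ed d) :=
  LinearMap.mkContinuous
    { toFun := fun T => ContinuousLinearMap.adjoint T
      map_add' := fun S T => map_add _ S T
      map_smul' := fun c T => by
        rw [map_smulₛₗ]
        rfl } 1 (fun T => by
      rw [one_mul]
      exact le_of_eq (LinearIsometryEquiv.norm_map _ T))

private theorem bt5Adj_apply (T : Ed d →L[ℝ] Ed d) : bt5Adj d T = ContinuousLinearMap.adjoint T := rfl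

private theorem bt5_cs {α : Type*} [MeasurableSpace α] {μ : Measure α} {f : α → ℝ≥0∞}
    (hf : AEMeasurable f μ) : (∫⁻ a, f a ∂μ) ^ 2 ≤ μ univ * ∫⁻ a, f a ^ 2 ∂μ := by
  have h1 := ENNReal.lintegral_mul_le_Lp_mul_Lq μ Real.HolderConjugate.two_two hf
    (aemeasurable_const (b := (1 : ℝ≥0∞)))
  simp only [Pi.mul_apply, mul_one, ENNReal.one_rpow, lintegral_const, one_mul] at h1
  have h2 : (∫⁻ a, f a ∂μ) ^ 2 ≤ ((∫⁻ a, f a ^ (2 : ℝ) ∂μ) ^ (1 / 2 : ℝ) * μ univ ^ (1 / 2 : ℝ)) ^ 2 :=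
    pow_le_pow_left' h1 2
  refine h2.trans (le_of_eq ?_)
  rw [mul_pow, ← ENNReal.rpow_natCast, ← ENNReal.rpow_natCast, ← ENNReal.rpow_mul, ← ENNReal.rpow_mul]
  norm_num
  rw [mul_comm]

private theorem bt5_sq {E : Type*} [NormedAddCommGroup E] {α : Type*} [MeasurableSpace α]
    {μ : Measure α} (f : α → E) : eLpNorm f 2 μ ^ 2 = ∫⁻ a, ‖f a‖ₑ ^ 2 ∂μ := by
  have := eLpNorm_nnreal_pow_eq_lintegral (f := f) (μ := μ) (p := 2) two_ne_zero
  simpa using this

private theorem bt5_lie_cont (hX : Sm X) (hD : IsOpen D) {F : Ed d → Ed d} (hF : SmOn F D) :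
    ContinuousOn (lie X F) D := by
  have h1 : ContinuousOn (fderiv ℝ F) D := hF.continuousOn_fderiv_of_isOpen hD (by simp)
  have h2 : Continuous (fderiv ℝ X) := hX.continuous_fderiv (by simp)
  have h3 : Continuous fun x => bt5Adj d (fderiv ℝ X x) := (bt5Adj d).continuous.comp h2
  exact (h1.clm_apply hX.continuous.continuousOn).add (h3.continuousOn.clm_apply hF.continuousOn)

private theorem bt5_pb_cont (hX : Sm X) (hΦ : IsFl X τ C Φ) (hP : Pres D τ Φ) (hD : IsOpen D)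
    {F : Ed d → Ed d} (hF : SmOn F D) :
    ContinuousOn (fun p : ℝ × Ed d => pb Φ p.1 (lie X F) p.2) (Ioo (-τ) τ ×ˢ D) := by
  have hsub : Ioo (-τ) τ ×ˢ D ⊆ Ioo (-τ) τ ×ˢ univ := prod_mono Subset.rfl (subset_univ _)
  have h1 : ContinuousOn (fun p : ℝ × Ed d => bt5Adj d (fderiv ℝ (Φ p.1) p.2)) (Ioo (-τ) τ ×ˢ D) :=
    (bt5Adj d).continuous.comp_continuousOn (hΦ.dcont.mono hsub)
  have h2 : ContinuousOn (fun p : ℝ × Ed d => lie X F (Φ p.1 p.2)) (Ioo (-τ) τ ×ˢ D) :=
    (bt5_lie_cont hX hD hF).comp (hΦ.cont.mono hsub) (fun p hp => hP p.1 hp.1 p.2 hp.2)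
  exact h1.clm_apply h2

private theorem bt5_zero (hΦ : IsFl X τ C Φ) (F : Ed d → Ed d) (x : Ed d) : pb Φ 0 F x = F x := by
  have h1 : Φ 0 = fun x => x := funext hΦ.zero
  unfold pb
  rw [h1, fderiv_fun_id, ContinuousLinearMap.adjoint_id]
  rfl

/-- The derivative in time of the pull back. -/
theorem pb_hasDerivAt (hX : Sm X) (hΦ : IsFl X τ C Φ) (hP : Pres D τ Φ) (hD : IsOpen D) {F : Ed d → Ed d}
    (hF : SmOn F D) {t : ℝ} (ht : t ∈ Ioo (-τ) τ) {x : Ed d} (hx : x ∈ D) :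
    HasDerivAt (fun s => pb Φ s F x) (pb Φ t (lie X F) x) t := by
  have h1 : HasDerivAt (fun s => bt5Adj d (fderiv ℝ (Φ s) x))
      (bt5Adj d ((fderiv ℝ X (Φ t x)).comp (fderiv ℝ (Φ t) x))) t :=
    (bt5Adj d).hasFDerivAt.comp_hasDerivAt t (hΦ.dder t ht x)
  have hFd : DifferentiableAt ℝ F (Φ t x) :=
    (hF.differentiableOn (by simp)).differentiableAt (hD.mem_nhds (hP t ht x hx))
  have h2 : HasDerivAt (fun s => F (Φ s x)) (fderiv ℝ F (Φ t x) (X (Φ t x))) t :=
    hFd.hasFDerivAt.comp_hasDerivAt t (hΦ.der t ht x)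
  have h3 := h1.clm_apply h2
  have h4 : pb Φ t (lie X F) x = bt5Adj d ((fderiv ℝ X (Φ t x)).comp (fderiv ℝ (Φ t) x)) (F (Φ t x)) +
      bt5Adj d (fderiv ℝ (Φ t) x) (fderiv ℝ F (Φ t x) (X (Φ t x))) := by
    rw [bt5Adj_apply, bt5Adj_apply, ContinuousLinearMap.adjoint_comp]
    unfold pb lie
    rw [map_add, add_comm]
    rfl
  rw [h4]
  exact h3

/-- Integrate `pb_hasDerivAt` from `0` to `t`: `|pb Φ t F x - F x|² ≤ |t| |∫_0^t |pb Φ s (lie X F) x|² ds|`
(Cauchy-Schwarz), integrate over `D` (Tonelli; the integrand is continuous on `Ioo (-τ) τ ×ˢ D`) and use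
`eLpNorm_pb_le`. -/
theorem eLpNorm_pb_sub_le (hX : Sm X) (hΦ : IsFl X τ C Φ) (hP : Pres D τ Φ) (hD : IsOpen D) :
    ∃ M : ℝ≥0, ∀ F : Ed d → Ed d, SmOn F D → ∀ t ∈ Ioo (-τ) τ,
      eLpNorm (fun x => pb Φ t F x - F x) 2 (volume.restrict D) ≤
        M * ENNReal.ofReal |t| * eLpNorm (lie X F) 2 (volume.restrict D) := by
  obtain ⟨M, hM⟩ := eLpNorm_pb_le hΦ hP hD
  refine ⟨M, fun F hF t ht => ?_⟩
  have hcont := bt5_pb_cont hX hΦ hP hD hF
  have hseg : uIcc 0 t ⊆ Ioo (-τ) τ := by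
    have h0 : (0 : ℝ) ∈ Ioo (-τ) τ := ⟨by linarith [hΦ.pos], hΦ.pos⟩
    exact (convex_Ioo (-τ) τ).ordConnected.uIcc_subset h0 ht
  have hseg' : uIoc 0 t ⊆ Ioo (-τ) τ := uIoc_subset_uIcc.trans hseg
  have hcx : ∀ x ∈ D, ContinuousOn (fun s => pb Φ s (lie X F) x) (uIcc 0 t) := by
    intro x hx
    have h1 : ContinuousOn (fun s : ℝ => (s, x)) (uIcc 0 t) := by fun_prop
    have hmaps : MapsTo (fun s : ℝ => (s, x)) (uIcc 0 t) (Ioo (-τ) τ ×ˢ D) := fun s hs => ⟨hseg hs, hx⟩
    have h2 := ContinuousOn.comp (g := fun p : ℝ × Ed d => pb Φ p.1 (lie X F) p.2) hcont h1 hmaps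
    exact h2.congr (fun s _ => rfl)
  have hvol : volume (uIoc 0 t) = ENNReal.ofReal |t| := by
    rw [uIoc, Real.volume_Ioc, max_sub_min_eq_abs, sub_zero]
  -- pointwise
  have hpt : ∀ x ∈ D, ‖pb Φ t F x - F x‖ₑ ^ 2 ≤
      ENNReal.ofReal |t| * ∫⁻ s in uIoc 0 t, ‖pb Φ s (lie X F) x‖ₑ ^ 2 := by
    intro x hx
    have h1 : ∫ s in (0 : ℝ)..t, pb Φ s (lie X F) x = pb Φ t F x - F x := by
      rw [intervalIntegral.integral_eq_sub_of_hasDerivAt
        (fun s hs => pb_hasDerivAt hX hΦ hP hD hF (hseg hs) hx) (hcx x hx).intervalIntegrable,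
        bt5_zero hΦ]
    have h2 : ‖pb Φ t F x - F x‖ₑ ≤ ∫⁻ s in uIoc 0 t, ‖pb Φ s (lie X F) x‖ₑ := by
      rw [← h1, intervalIntegral.intervalIntegral_eq_integral_uIoc]
      refine le_trans (le_of_eq ?_) (enorm_integral_le_lintegral_enorm _)
      split_ifs
      · rw [one_smul]
      · rw [neg_smul, one_smul, enorm_neg]
    have h3 : AEMeasurable (fun s => ‖pb Φ s (lie X F) x‖ₑ) (volume.restrict (uIoc 0 t)) :=
      (((hcx x hx).mono uIoc_subset_uIcc).aestronglyMeasurable measurableSet_uIoc).enorm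
    calc ‖pb Φ t F x - F x‖ₑ ^ 2 ≤ (∫⁻ s in uIoc 0 t, ‖pb Φ s (lie X F) x‖ₑ) ^ 2 :=
          pow_le_pow_left' h2 2
      _ ≤ _ := bt5_cs h3
      _ = _ := by rw [Measure.restrict_apply_univ, hvol]
  have hmeas : AEMeasurable (uncurry fun (x : Ed d) (s : ℝ) => ‖pb Φ s (lie X F) x‖ₑ ^ 2)
      ((volume.restrict D).prod (volume.restrict (uIoc 0 t))) := by
    rw [Measure.prod_restrict]
    have hmaps : MapsTo (fun p : Ed d × ℝ => (p.2, p.1)) (D ×ˢ uIoc 0 t) (Ioo (-τ) τ ×ˢ D) :=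
      fun p hp => ⟨hseg' hp.2, hp.1⟩
    have h0 : ContinuousOn (fun p : Ed d × ℝ => (p.2, p.1)) (D ×ˢ uIoc 0 t) := by fun_prop
    have h1 : ContinuousOn (fun p : Ed d × ℝ => pb Φ p.2 (lie X F) p.1) (D ×ˢ uIoc 0 t) :=
      (ContinuousOn.comp (g := fun p : ℝ × Ed d => pb Φ p.1 (lie X F) p.2) hcont h0 hmaps).congr
        (fun s _ => rfl)
    exact ((h1.aestronglyMeasurable (hD.measurableSet.prod measurableSet_uIoc)).enorm).pow_const 2
  have hsq : eLpNorm (fun x => pb Φ t F x - F x) 2 (volume.restrict D) ^ 2 ≤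
      (M * ENNReal.ofReal |t| * eLpNorm (lie X F) 2 (volume.restrict D)) ^ 2 := by
    rw [bt5_sq]
    calc ∫⁻ x in D, ‖pb Φ t F x - F x‖ₑ ^ 2
        ≤ ∫⁻ x in D, ENNReal.ofReal |t| * ∫⁻ s in uIoc 0 t, ‖pb Φ s (lie X F) x‖ₑ ^ 2 :=
          setLIntegral_mono' hD.measurableSet hpt
      _ = ENNReal.ofReal |t| * ∫⁻ x in D, ∫⁻ s in uIoc 0 t, ‖pb Φ s (lie X F) x‖ₑ ^ 2 :=
          lintegral_const_mul' _ _ ENNReal.ofReal_ne_top
      _ = ENNReal.ofReal |t| * ∫⁻ s in uIoc 0 t, ∫⁻ x in D, ‖pb Φ s (lie X F) x‖ₑ ^ 2 := by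
          rw [lintegral_lintegral_swap hmeas]
      _ ≤ ENNReal.ofReal |t| * ∫⁻ _ in uIoc 0 t,
            (M * eLpNorm (lie X F) 2 (volume.restrict D)) ^ 2 := by
          gcongr ENNReal.ofReal |t| * ?_
          refine setLIntegral_mono' measurableSet_uIoc fun s hs => ?_
          rw [← bt5_sq]
          exact pow_le_pow_left' (hM s (hseg' hs) (lie X F)) 2
      _ = _ := by
          rw [setLIntegral_const, hvol]
          ring
  exact (ENNReal.pow_le_pow_left_iff two_ne_zero).1 hsq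

end Pool.Agent.Lib.MP_79abb3_an.W.B
end

section

/-!
Theorem W, block B: closure properties of `FF`, part 2.
-/

set_option autoImplicit false
set_option linter.unusedSectionVars false

open MeasureTheory Set Filter Topology Function
open scoped RealInnerProductSpace ENNReal NNReal

namespace Pool.Agent.Lib.MP_79abb3_an.W.B

variable {d : ℕ} {D : Set (Ed d)} {ι : Type} {N : ι → ℝ≥0∞} {G : Type} [NormedAddCommGroup G] [NormedSpace ℝ G]
  {G' : Type} [NormedAddCommGroup G'] [NormedSpace ℝ G'] {𝒱 : Set (Ed d → Ed d)} {Nf : Ed d → Ed d}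

variable {z : Ed d → ℝ}

/-- Every smooth field is a combination: `W = ∑ W_j e_j`. -/
theorem IsFrame.comb_all (h : IsFrame D z 𝒱 Nf) {W : Ed d → Ed d} (hW : Sm W) : Comb D 𝒱 Nf W := by
  choose l V c b hV hc hb he using h.comb
  have hWj : ∀ j : Fin d, Sm (fun x => W x j) := fun j => by
    have h1 : Sm (fun x => (EuclideanSpace.proj j : Ed d →L[ℝ] ℝ) (W x)) :=
      (EuclideanSpace.proj j : Ed d →L[ℝ] ℝ).contDiff.comp hW
    exact h1
  let e : (j : Fin d) × Fin (l j) ≃ Fin (∑ j, l j) := finSigmaFinEquiv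
  refine ⟨∑ j, l j, fun k => V (e.symm k).1 (e.symm k).2,
    fun k x => W x (e.symm k).1 * c (e.symm k).1 (e.symm k).2 x, fun x => ∑ j, W x j * b j x,
    fun k => hV _ _, fun k => (hWj _).mul (hc _ _), ContDiff.sum fun j _ => (hWj j).mul (hb j), ?_⟩
  intro x hx
  have h1 : W x = ∑ j, W x j • (ee j : Ed d) := by
    have h0 := (EuclideanSpace.basisFun (Fin d) ℝ).sum_repr (W x)
    simp only [EuclideanSpace.basisFun_repr, EuclideanSpace.basisFun_apply] at h0
    exact h0.symm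
  have h2 : ∑ k : Fin (∑ j, l j), (W x (e.symm k).1 * c (e.symm k).1 (e.symm k).2 x) •
      V (e.symm k).1 (e.symm k).2 x = ∑ j, ∑ i : Fin (l j), (W x j * c j i x) • V j i x := by
    rw [Equiv.sum_comp e.symm (fun p : (j : Fin d) × Fin (l j) => (W x p.1 * c p.1 p.2 x) • V p.1 p.2 x)]
    exact Fintype.sum_sigma _
  conv_lhs => rw [h1]
  rw [h2, Finset.sum_smul, ← Finset.sum_add_distrib]
  refine Finset.sum_congr rfl fun j _ => ?_
  have h3 : (ee j : Ed d) = (∑ i, c j i x • V j i x) + b j x • Nf x := he j x hx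
  rw [h3, smul_add, Finset.smul_sum, smul_smul]
  congr 1
  refine Finset.sum_congr rfl fun i _ => ?_
  rw [smul_smul]

private theorem br5_smul (hD : IsOpen D) (hb : Bornology.IsBounded D) (h : IsFrame D z 𝒱 Nf) {m n : ℕ}
    {c : Ed d → ℝ} (hc : Sm c) {u : ι → Ed d → G} (hu : FF D N 𝒱 Nf m n u) :
    FF D N 𝒱 Nf m n (fun i x => c x • u i x) := by
  have h1 := FF.mul (A := fun x => c x • ContinuousLinearMap.id ℝ G) hD hb (fun X hX => (h.tan X hX).sm)
    h.sm (hc.smul contDiff_const) hu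
  exact FF.congr hD (fun i x _ => rfl) h1

/-- `FF` is stable under tangential derivatives. Induction on `m` (for all `n`, `u`): the case `m = 0` is the definition
of `TT`. For `m + 1` and `n + 1`: `FF m (n + 1) (δ_X u)` by induction, and `δ_N δ_X u = δ_X δ_N u + δ_Y u` (`bracket`):
`FF m (n + 1) (δ_N u)` gives `FF m n (δ_X δ_N u)` by induction; `Y` is a combination (`IsFrame.comb_all`), so `δ_Y u`
is a sum of `c_j δ_{V_j} u` (`FF m (n + 1)` by induction, `FF.mono`) and `b δ_N u`. -/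
theorem FF.der (hD : IsOpen D) (hb : Bornology.IsBounded D) (h : IsFrame D z 𝒱 Nf) {m n : ℕ}
    {X : Ed d → Ed d} (hX : X ∈ 𝒱) {u : ι → Ed d → G} (hu : FF D N 𝒱 Nf m (n + 1) u) :
    FF D N 𝒱 Nf m n (fun i x => fderiv ℝ (u i) x (X x)) := by
  induction m generalizing n X u with
  | zero => exact hu.2 X hX
  | succ m ih =>
    cases n with
    | zero => exact (ih hX hu.1).base
    | succ n =>
      refine ⟨ih hX hu.1, ?_⟩
      have hXs : Sm X := (h.tan X hX).sm
      have hT : (((⊤ : ℕ∞) : WithTop ℕ∞)) + 1 ≤ ((⊤ : ℕ∞) : WithTop ℕ∞) := by simp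
      have hY : Sm (fun x => fderiv ℝ X x (Nf x) - fderiv ℝ Nf x (X x)) :=
        ((hXs.fderiv_right (m := ((⊤ : ℕ∞) : WithTop ℕ∞)) hT).clm_apply h.sm).sub
          ((h.sm.fderiv_right (m := ((⊤ : ℕ∞) : WithTop ℕ∞)) hT).clm_apply hXs)
      obtain ⟨l, V, c, b, hV, hc, hbs, he⟩ := h.comb_all hY
      have h1 : FF D N 𝒱 Nf m n (fun i x => ∑ k, c k x • fderiv ℝ (u i) x (V k x)) :=
        FF.sum hD (u := fun k i x => c k x • fderiv ℝ (u i) x (V k x)) fun k =>
          br5_smul hD hb h (hc k) (ih (hV k) hu.1).mono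
      have h2 : FF D N 𝒱 Nf m n (fun i x => b x • fderiv ℝ (u i) x (Nf x)) :=
        br5_smul hD hb h hbs hu.2.mono
      have h3 : FF D N 𝒱 Nf m n
          (fun i x => fderiv ℝ (fun y => fderiv ℝ (u i) y (Nf y)) x (X x)) := ih hX hu.2
      refine FF.congr hD (fun i x hx => ?_) (FF.add hD h3 (FF.add hD h1 h2))
      have h4 := bracket hD hXs h.sm (hu.1.base.1 i) hx
      have h5 : fderiv ℝ X x (Nf x) - fderiv ℝ Nf x (X x) = (∑ k, c k x • V k x) + b x • Nf x :=
        he x hx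
      rw [h4, h5, map_add, map_sum, map_smul]
      simp only [map_smul]

end Pool.Agent.Lib.MP_79abb3_an.W.B
end

section

/-!
Theorem W, block B: `FF` implies `PT`; regularity in the normal direction.
-/

set_option autoImplicit false
set_option linter.unusedSectionVars false

open MeasureTheory Set Filter Topology Function
open scoped RealInnerProductSpace ENNReal NNReal

namespace Pool.Agent.Lib.MP_79abb3_an.W.B

variable {d : ℕ} {D : Set (Ed d)} {ι : Type} {N : ι → ℝ≥0∞} {G : Type} [NormedAddCommGroup G] [NormedSpace ℝ G]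
  {G' : Type} [NormedAddCommGroup G'] [NormedSpace ℝ G'] {𝒱 : Set (Ed d → Ed d)} {Nf : Ed d → Ed d}

variable {z : Ed d → ℝ}

private theorem br6_smul (hD : IsOpen D) (hb : Bornology.IsBounded D) (h : IsFrame D z 𝒱 Nf) {m n : ℕ}
    {c : Ed d → ℝ} (hc : Sm c) {u : ι → Ed d → G} (hu : FF D N 𝒱 Nf m n u) :
    FF D N 𝒱 Nf m n (fun i x => c x • u i x) := by
  have h1 := FF.mul (A := fun x => c x • ContinuousLinearMap.id ℝ G) hD hb (fun X hX => (h.tan X hX).sm)
    h.sm (hc.smul contDiff_const) hu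
  exact FF.congr hD (fun i x _ => rfl) h1

/-- Induction on `n`: `∂_j u = ∑ c_l δ_{V_l} u + b δ_N u` on `D` (`IsFrame.comb`, `FF.der`, definition of `FF`). -/
theorem PT.of_ff (hD : IsOpen D) (hb : Bornology.IsBounded D) (h : IsFrame D z 𝒱 Nf) {n : ℕ}
    {u : ι → Ed d → G} (hu : ∀ m, FF D N 𝒱 Nf m n u) : PT D N n u := by
  induction n generalizing u with
  | zero => exact (hu 0).base
  | succ n ih =>
    refine ⟨(hu 0).base, fun j => ih fun m => ?_⟩
    obtain ⟨l, V, c, b, hV, hc, hbs, he⟩ := h.comb j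
    have h1 : FF D N 𝒱 Nf m n (fun i x => ∑ k, c k x • fderiv ℝ (u i) x (V k x)) :=
      FF.sum hD (u := fun k i x => c k x • fderiv ℝ (u i) x (V k x)) fun k =>
        br6_smul hD hb h (hc k) (FF.der hD hb h (hV k) (hu m))
    have h2 : FF D N 𝒱 Nf m n (fun i x => b x • fderiv ℝ (u i) x (Nf x)) :=
      br6_smul hD hb h hbs (hu (m + 1)).2
    refine FF.congr hD (fun i x hx => ?_) (FF.add hD h1 h2)
    have h3 : (ee j : Ed d) = (∑ k, c k x • V k x) + b x • Nf x := he x hx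
    rw [h3, map_add, map_sum, map_smul]
    simp only [map_smul]

/-- Regularity in the normal direction. Induction on `m`: `FF m (n + 1) γ` gives `FF m n (δ_V γ)` (`FF.der`), so
`FF m n (δ_N γ)` by `IsFrame.nor` (`FF.mul`, `FF.sum`, `PT.ff` for `divg γ`). -/
theorem ff_of_curl (hD : IsOpen D) (hb : Bornology.IsBounded D) (h : IsFrame D z 𝒱 Nf) {n : ℕ}
    {γ : ι → Ed d → Ed d} (hγ : TT D N 𝒱 (n + 1) γ)
    (hc : ∀ i, ∀ x ∈ D, ∀ v w, ⟪fderiv ℝ (γ i) x v, w⟫ = ⟪fderiv ℝ (γ i) x w, v⟫)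
    (hg : PT D N n (fun i => divg (γ i))) (m : ℕ) : FF D N 𝒱 Nf m (n + 1) γ := by
  induction m with
  | zero => exact hγ
  | succ m ih =>
    refine ⟨ih, ?_⟩
    obtain ⟨l, V, A, B, hV, hA, hB, he⟩ := h.nor
    have h0 : ∀ i, SmOn (γ i) D := (FF.base ih).1
    have hs : ∀ X ∈ 𝒱, Sm X := fun X hX => (h.tan X hX).sm
    have h1 : FF D N 𝒱 Nf m n (fun i x => ∑ k, A k x (fderiv ℝ (γ i) x (V k x))) :=
      FF.sum hD (u := fun k i x => A k x (fderiv ℝ (γ i) x (V k x))) fun k =>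
        FF.mul hD hb hs h.sm (hA k) (FF.der hD hb h (hV k) ih)
    have h2 : FF D N 𝒱 Nf m n (fun i => divg (γ i)) := PT.ff hD hb hs h.sm hg
    have h3 : Sm (fun x => ContinuousLinearMap.smulRightL ℝ ℝ (Ed d) (ContinuousLinearMap.id ℝ ℝ) (B x)) :=
      (ContinuousLinearMap.smulRightL ℝ ℝ (Ed d) (ContinuousLinearMap.id ℝ ℝ)).contDiff.comp hB
    have h4 := FF.mul hD hb hs h.sm h3 h2
    refine FF.congr hD (fun i x hx => ?_) (FF.add hD h1 h4)
    rw [he (γ i) (h0 i) (hc i) x hx]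
    rfl

end Pool.Agent.Lib.MP_79abb3_an.W.B
end

section

/-!
Theorem W, block B: strong continuity of the pull back.
-/

set_option autoImplicit false
set_option linter.unusedSectionVars false

open MeasureTheory Set Filter Topology Function
open scoped RealInnerProductSpace ENNReal NNReal

namespace Pool.Agent.Lib.MP_79abb3_an.W.B

variable {d : ℕ} {X : Ed d → Ed d} {τ C : ℝ} {Φ : ℝ → Ed d → Ed d} {D : Set (Ed d)}

private theorem bt6_C0 (hΦ : IsFl X τ C Φ) : 0 ≤ C := by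
  have h1 := hΦ.near (τ / 2) ⟨by linarith [hΦ.pos], by linarith [hΦ.pos]⟩ 0
  have h2 := (norm_nonneg _).trans h1
  rw [abs_of_pos (half_pos hΦ.pos)] at h2
  by_contra h3
  push Not at h3
  have := mul_neg_of_neg_of_pos h3 (half_pos hΦ.pos)
  linarith

/-- The pointwise bound. -/
private theorem bt6_point (hΦ : IsFl X τ C Φ) {v : Ed d → Ed d} {B : ℝ} (hB : ∀ x, ‖v x‖ ≤ B) {s : ℝ}
    (hs : s ∈ Ioo (-τ) τ) (x : Ed d) :
    ‖pb Φ s v x - v x‖ ≤ C * |s| * B + ‖v (Φ s x) - v x‖ := by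
  have hid : ContinuousLinearMap.adjoint (ContinuousLinearMap.id ℝ (Ed d)) =
      ContinuousLinearMap.id ℝ (Ed d) := by
    symm
    rw [ContinuousLinearMap.eq_adjoint_iff]
    intro x z
    rfl
  have e1 : pb Φ s v x - v x =
      ContinuousLinearMap.adjoint (fderiv ℝ (Φ s) x - ContinuousLinearMap.id ℝ (Ed d)) (v (Φ s x)) +
      (v (Φ s x) - v x) := by
    unfold pb
    rw [map_sub, hid, _root_.sub_apply, ContinuousLinearMap.id_apply]
    abel
  rw [e1]
  refine (norm_add_le _ _).trans (add_le_add_left ?_ _)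
  refine (ContinuousLinearMap.le_opNorm _ _).trans ?_
  rw [LinearIsometryEquiv.norm_map]
  exact mul_le_mul (hΦ.dnear s hs x) (hB _) (norm_nonneg _)
    (mul_nonneg (bt6_C0 hΦ) (abs_nonneg _))

/-- Strong continuity at `0` for continuous functions with compact support. -/
private theorem bt6_cts (hΦ : IsFl X τ C Φ) (hfin : volume D ≠ ∞) {v : Ed d → Ed d} (hv : Continuous v)
    (hc : HasCompactSupport v) {δ : ℝ≥0∞} (hδ : δ ≠ 0) :
    ∀ᶠ s in 𝓝 (0 : ℝ), s ∈ Ioo (-τ) τ ∧
      eLpNorm (fun x => pb Φ s v x - v x) 2 (volume.restrict D) ≤ δ := by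
  have hC0 := bt6_C0 hΦ
  obtain ⟨B, hB⟩ := hv.bounded_above_of_compact_support hc
  have hB0 : 0 ≤ B := (norm_nonneg _).trans (hB 0)
  set W : ℝ≥0∞ := (volume.restrict D) univ ^ (2 : ℝ≥0∞).toReal⁻¹ with hW
  have hWt : W ≠ ∞ := by
    rw [hW, Measure.restrict_apply_univ]
    exact ENNReal.rpow_ne_top_of_nonneg (by positivity) hfin
  -- a small number
  obtain ⟨η, hη, hηW⟩ : ∃ η : ℝ, 0 < η ∧ W * ENNReal.ofReal (2 * η) ≤ δ := by
    set c : ℝ≥0∞ := min (δ / (W + 1)) 1 with hc'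
    have hct : c ≠ ∞ := ne_top_of_le_ne_top ENNReal.one_ne_top (min_le_right _ _)
    have hc0 : c ≠ 0 := by
      have h1 : 0 < δ / (W + 1) :=
        ENNReal.div_pos hδ (ENNReal.add_ne_top.mpr ⟨hWt, ENNReal.one_ne_top⟩)
      exact (lt_min h1 one_pos).ne'
    have hcr : 0 < c.toReal := ENNReal.toReal_pos hc0 hct
    refine ⟨c.toReal / 2, by positivity, ?_⟩
    rw [mul_div_cancel₀ _ (two_ne_zero), ENNReal.ofReal_toReal hct]
    calc W * c ≤ (W + 1) * (δ / (W + 1)) :=
          mul_le_mul' le_self_add (min_le_left _ _)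
      _ ≤ δ := ENNReal.mul_div_le
  obtain ⟨r, hr, hur⟩ := Metric.uniformContinuous_iff.mp (hc.uniformContinuous_of_continuous hv) η hη
  have hq : 0 < min τ (min (r / (C + 1)) (η / ((C + 1) * (B + 1)))) :=
    lt_min hΦ.pos (lt_min (by positivity) (by positivity))
  filter_upwards [Metric.ball_mem_nhds (0 : ℝ) hq] with s hs
  rw [Metric.mem_ball, Real.dist_eq, sub_zero, lt_min_iff, lt_min_iff] at hs
  obtain ⟨h1, h2, h3⟩ := hs
  rw [lt_div_iff₀ (by positivity)] at h2 h3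
  have hsτ : s ∈ Ioo (-τ) τ := abs_lt.mp h1
  have h0 := abs_nonneg s
  refine ⟨hsτ, ?_⟩
  refine (eLpNorm_le_of_ae_bound (C := 2 * η) (Eventually.of_forall fun x => ?_)).trans hηW
  refine (bt6_point hΦ hB hsτ x).trans ?_
  have h4 : C * |s| * B ≤ η := by nlinarith [mul_nonneg hC0 hB0, mul_nonneg h0 hB0, mul_nonneg h0 hC0]
  have h5 : ‖v (Φ s x) - v x‖ ≤ η := by
    rw [← dist_eq_norm]
    apply (hur _).le
    rw [dist_eq_norm]
    exact lt_of_le_of_lt (hΦ.near s hsτ x) (by nlinarith)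
  linarith

/-- Strong continuity at `0`. Proof: for `u` continuous with compact support `pb Φ s u → u` uniformly (`near`, `dnear`,
uniform continuity) and `D` has finite volume; in general approximate `u` in `L²(D)`
(`MemLp.exists_hasCompactSupport_eLpNorm_sub_le`) and use `eLpNorm_pb_le`. -/
theorem tendsto_pb (hΦ : IsFl X τ C Φ) (hP : Pres D τ Φ) (hD : IsOpen D) (hb : Bornology.IsBounded D)
    {u : Ed d → Ed d} (hu : MemLp u 2 (volume.restrict D)) :
    Tendsto (fun s => eLpNorm (fun x => pb Φ s u x - u x) 2 (volume.restrict D)) (𝓝 0) (𝓝 0) := by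
  obtain ⟨M, hM⟩ := eLpNorm_pb_le hΦ hP hD
  have hfin : volume D ≠ ∞ := hb.measure_lt_top.ne
  have : IsFiniteMeasure (volume.restrict D) := ⟨by
    rw [Measure.restrict_apply_univ]
    exact hfin.lt_top⟩
  rw [ENNReal.tendsto_nhds_zero]
  intro ε hε
  set δ : ℝ≥0∞ := ε / (M + 2) with hδ
  have hδ0 : δ ≠ 0 := (ENNReal.div_pos hε.ne' (by
    exact ENNReal.add_ne_top.mpr ⟨ENNReal.coe_ne_top, ENNReal.ofNat_ne_top⟩)).ne'
  obtain ⟨v, hvc, hvu, hv, hvm⟩ := hu.exists_hasCompactSupport_eLpNorm_sub_le (by norm_num) hδ0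
  filter_upwards [bt6_cts hΦ hfin hv hvc hδ0] with s hs
  obtain ⟨hsτ, hs2⟩ := hs
  have hw : MemLp (fun x => u x - v x) 2 (volume.restrict D) := hu.sub hvm
  have m1 : MemLp (pb Φ s fun x => u x - v x) 2 (volume.restrict D) := memLp_pb hΦ hP hD hsτ hw
  have m2 : MemLp (fun x => pb Φ s v x - v x) 2 (volume.restrict D) :=
    (memLp_pb hΦ hP hD hsτ hvm).sub hvm
  have m3 : MemLp (fun x => v x - u x) 2 (volume.restrict D) := hvm.sub hu
  have e1 : (fun x => pb Φ s u x - u x) =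
      ((pb Φ s fun x => u x - v x) + fun x => pb Φ s v x - v x) + fun x => v x - u x := by
    funext x
    have h := congrFun (pb_sub Φ s u v) x
    show pb Φ s u x - u x = (pb Φ s (fun x => u x - v x) x + (pb Φ s v x - v x)) + (v x - u x)
    rw [h]
    abel
  rw [e1]
  refine (eLpNorm_add_le (m1.1.add m2.1) m3.1 (by norm_num)).trans ?_
  refine (add_le_add_left (eLpNorm_add_le m1.1 m2.1 (by norm_num)) _).trans ?_
  have h1 : eLpNorm (pb Φ s fun x => u x - v x) 2 (volume.restrict D) ≤ M * δ :=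
    (hM s hsτ _).trans (mul_le_mul_right hvu _)
  have h3 : eLpNorm (fun x => v x - u x) 2 (volume.restrict D) ≤ δ := by
    have e2 : (fun x => v x - u x) = -(u - v) := by
      funext x
      simp
    rw [e2, eLpNorm_neg]
    exact hvu
  calc _ ≤ M * δ + δ + δ := add_le_add (add_le_add h1 hs2) h3
    _ = (M + 2) * δ := by ring
    _ ≤ ε := ENNReal.mul_div_le

/-- The `L²` norm of a mean. -/
private theorem bt6_mean {S : Set ℝ} (hfin : volume S ≠ ∞) (h0 : volume S ≠ 0) {G : ℝ → Ed d → Ed d}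
    (hG : AEStronglyMeasurable (fun p : ℝ × Ed d => G p.1 p.2)
      ((volume.restrict S).prod (volume.restrict D))) (hS : MeasurableSet S)
    {c : ℝ≥0∞} (hc : ∀ s ∈ S, eLpNorm (G s) 2 (volume.restrict D) ≤ c) :
    eLpNorm (fun x => (volume S).toReal⁻¹ • ∫ s in S, G s x) 2 (volume.restrict D) ≤ c := by
  set ℓ := volume S with hℓ
  have hsq : ∀ {α : Type} [MeasurableSpace α] (μ : Measure α) (f : α → Ed d),
      eLpNorm f 2 μ ^ 2 = ∫⁻ x, ‖f x‖ₑ ^ 2 ∂μ := by
    intro α _ μ f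
    rw [eLpNorm_eq_lintegral_rpow_enorm_toReal (by norm_num) (by norm_num)]
    simp only [ENNReal.toReal_ofNat, ENNReal.rpow_two]
    rw [← ENNReal.rpow_two, ← ENNReal.rpow_mul]
    norm_num
  have hpt : ∀ x, ‖∫ s in S, G s x‖ₑ ^ 2 ≤ ℓ * ∫⁻ s in S, ‖G s x‖ₑ ^ 2 := by
    intro x
    by_cases hm : AEStronglyMeasurable (fun s => G s x) (volume.restrict S)
    · have h1 : ‖∫ s in S, G s x‖ₑ ≤ eLpNorm (fun s => G s x) 1 (volume.restrict S) := by
        rw [eLpNorm_one_eq_lintegral_enorm]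
        exact enorm_integral_le_lintegral_enorm _
      have h2 := eLpNorm_le_eLpNorm_mul_rpow_measure_univ (p := 1) (q := 2)
        (μ := volume.restrict S) (by norm_num) hm
      have h3 : ‖∫ s in S, G s x‖ₑ ^ 2 ≤ (eLpNorm (fun s => G s x) 2 (volume.restrict S) *
          ℓ ^ (1 / 2 : ℝ)) ^ 2 := by
        have e1 : (1 / (1 : ℝ≥0∞).toReal - 1 / (2 : ℝ≥0∞).toReal : ℝ) = 1 / 2 := by norm_num
        rw [e1, Measure.restrict_apply_univ] at h2
        exact pow_le_pow_left' (h1.trans h2) 2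
      refine h3.trans (le_of_eq ?_)
      rw [mul_pow, hsq, mul_comm]
      congr 1
      rw [← ENNReal.rpow_two, ← ENNReal.rpow_mul]
      norm_num
    · rw [integral_non_aestronglyMeasurable hm]
      simp
  have hf : ∀ x, ‖(volume S).toReal⁻¹ • ∫ s in S, G s x‖ₑ ^ 2 ≤ ℓ⁻¹ * ∫⁻ s in S, ‖G s x‖ₑ ^ 2 := by
    intro x
    have hpos : 0 < ℓ.toReal := ENNReal.toReal_pos h0 hfin
    have e1 : ‖(ℓ.toReal)⁻¹‖ₑ = ℓ⁻¹ := by
      rw [Real.enorm_eq_ofReal (by positivity), ENNReal.ofReal_inv_of_pos hpos,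
        ENNReal.ofReal_toReal hfin]
    rw [enorm_smul, mul_pow, e1]
    refine (mul_le_mul_right (hpt x) _).trans (le_of_eq ?_)
    rw [← mul_assoc, sq, mul_assoc (ℓ⁻¹) (ℓ⁻¹) ℓ, ENNReal.inv_mul_cancel h0 hfin, mul_one]
  have hmeas : AEMeasurable (uncurry fun (s : ℝ) (x : Ed d) => ‖G s x‖ₑ ^ 2)
      ((volume.restrict S).prod (volume.restrict D)) := hG.enorm.pow_const 2
  have hfinal : eLpNorm (fun x => (volume S).toReal⁻¹ • ∫ s in S, G s x) 2 (volume.restrict D) ^ 2 ≤
      c ^ 2 := by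
    rw [hsq]
    calc _ ≤ ∫⁻ x in D, ℓ⁻¹ * ∫⁻ s in S, ‖G s x‖ₑ ^ 2 := lintegral_mono fun x => hf x
      _ = ℓ⁻¹ * ∫⁻ x in D, ∫⁻ s in S, ‖G s x‖ₑ ^ 2 :=
          lintegral_const_mul' _ _ (ENNReal.inv_ne_top.mpr h0)
      _ = ℓ⁻¹ * ∫⁻ s in S, ∫⁻ x in D, ‖G s x‖ₑ ^ 2 := by
          rw [lintegral_lintegral_swap hmeas]
      _ ≤ ℓ⁻¹ * ∫⁻ _ in S, c ^ 2 := by
          refine mul_le_mul_right (setLIntegral_mono' hS fun s hs => ?_) _
          rw [← hsq]
          exact pow_le_pow_left' (hc s hs) 2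
      _ = c ^ 2 := by
          rw [lintegral_const, Measure.restrict_apply_univ, ← hℓ, mul_comm (c ^ 2), ← mul_assoc,
            ENNReal.inv_mul_cancel h0 hfin, one_mul]
  exact (ENNReal.pow_le_pow_left_iff (by norm_num)).mp hfinal

/-- Difference quotients converge in `L²`. Proof: `(pb Φ t F - F)/t - lie X F` is the mean over `s ∈ (0, t)` of
`pb Φ s (lie X F) - lie X F` (`pb_hasDerivAt`), so its `L²` norm is at most the supremum over `s` of
`eLpNorm (pb Φ s (lie X F) - lie X F)` (Cauchy-Schwarz and Tonelli as in `eLpNorm_pb_sub_le`), which tends to `0`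
(`tendsto_pb`). -/
theorem tendsto_quot (hX : Sm X) (hΦ : IsFl X τ C Φ) (hP : Pres D τ Φ) (hD : IsOpen D)
    (hb : Bornology.IsBounded D) {F : Ed d → Ed d} (hF : SmOn F D)
    (hL : MemLp (lie X F) 2 (volume.restrict D)) :
    Tendsto (fun t : ℝ => eLpNorm (fun x => t⁻¹ • (pb Φ t F x - F x) - lie X F x) 2 (volume.restrict D))
      (𝓝[≠] 0) (𝓝 0) := by
  have hτ := hΦ.pos
  -- continuity of the Lie derivative
  have hLc : ContinuousOn (lie X F) D := by
    have h1 : ContinuousOn (fderiv ℝ F) D := hF.continuousOn_fderiv_of_isOpen hD (by norm_cast)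
    have h2 : Continuous (fderiv ℝ X) := hX.continuous_fderiv (by simp)
    have h3 : Continuous fun x => ContinuousLinearMap.adjoint (fderiv ℝ X x) :=
      (LinearIsometryEquiv.continuous _).comp h2
    exact (h1.clm_apply hX.continuous.continuousOn).add (h3.continuousOn.clm_apply hF.continuousOn)
  have hjoint : ContinuousOn (fun p : ℝ × Ed d => pb Φ p.1 (lie X F) p.2) (Ioo (-τ) τ ×ˢ D) := by
    have h1 : ContinuousOn (fun p : ℝ × Ed d => ContinuousLinearMap.adjoint (fderiv ℝ (Φ p.1) p.2))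
        (Ioo (-τ) τ ×ˢ D) :=
      (LinearIsometryEquiv.continuous _).comp_continuousOn
        (hΦ.dcont.mono (prod_mono Subset.rfl (subset_univ _)))
    have h2 : ContinuousOn (fun p : ℝ × Ed d => lie X F (Φ p.1 p.2)) (Ioo (-τ) τ ×ˢ D) :=
      hLc.comp (hΦ.cont.mono (prod_mono Subset.rfl (subset_univ _))) fun p hp => hP p.1 hp.1 p.2 hp.2
    exact h1.clm_apply h2
  have hjoint' : ContinuousOn (fun p : ℝ × Ed d => pb Φ p.1 (lie X F) p.2 - lie X F p.2)
      (Ioo (-τ) τ ×ˢ D) :=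
    hjoint.sub (hLc.comp continuousOn_snd fun p hp => hp.2)
  have hid : ∀ x, pb Φ 0 F x = F x := by
    intro x
    have h1 : Φ 0 = fun x => x := funext hΦ.zero
    unfold pb
    rw [h1, fderiv_fun_id, ContinuousLinearMap.adjoint_id]
    rfl
  rw [ENNReal.tendsto_nhds_zero]
  intro ε hε
  have hev := (ENNReal.tendsto_nhds_zero.mp (tendsto_pb hΦ hP hD hb hL)) ε hε
  obtain ⟨η, hη, hηs⟩ := Metric.eventually_nhds_iff.mp hev
  rw [eventually_nhdsWithin_iff]
  filter_upwards [Metric.ball_mem_nhds (0 : ℝ) (lt_min hη hτ)] with t ht ht0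
  rw [Metric.mem_ball, Real.dist_eq, sub_zero, lt_min_iff] at ht
  have ht0' : t ≠ 0 := ht0
  have hta : 0 < |t| := abs_pos.mpr ht0'
  have hsub : ∀ s ∈ uIcc 0 t, s ∈ Ioo (-τ) τ ∧ |s| < η := by
    intro s hs
    have h1 : |s| ≤ |t| := by
      rcases le_total 0 t with h | h
      · rw [uIcc_of_le h] at hs
        rw [abs_of_nonneg hs.1, abs_of_nonneg h]
        exact hs.2
      · rw [uIcc_of_ge h] at hs
        rw [abs_of_nonpos hs.2, abs_of_nonpos h]
        linarith [hs.1]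
    exact ⟨abs_lt.mp (lt_of_le_of_lt h1 ht.2), lt_of_le_of_lt h1 ht.1⟩
  have hvol : volume (uIoc 0 t) = ENNReal.ofReal |t| := by
    rw [uIoc, Real.volume_Ioc, max_sub_min_eq_abs, sub_zero]
  have hvolr : (volume (uIoc 0 t)).toReal = |t| := by
    rw [hvol, ENNReal.toReal_ofReal hta.le]
  have hG : AEStronglyMeasurable (fun p : ℝ × Ed d => pb Φ p.1 (lie X F) p.2 - lie X F p.2)
      ((volume.restrict (uIoc 0 t)).prod (volume.restrict D)) := by
    rw [Measure.prod_restrict]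
    exact (hjoint'.mono (prod_mono (fun s hs => (hsub s (uIoc_subset_uIcc hs)).1)
      Subset.rfl)).aestronglyMeasurable (measurableSet_uIoc.prod hD.measurableSet)
  have hmean := bt6_mean (D := D) (S := uIoc 0 t) (c := ε) (by rw [hvol]; exact ENNReal.ofReal_ne_top)
    (by
      rw [hvol]
      exact (ENNReal.ofReal_pos.mpr hta).ne')
    (G := fun s x => pb Φ s (lie X F) x - lie X F x) hG measurableSet_uIoc (fun s hs => by
      apply hηs
      rw [Real.dist_eq, sub_zero]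
      exact (hsub s (uIoc_subset_uIcc hs)).2)
  refine le_trans (le_of_eq ?_) hmean
  refine eLpNorm_congr_ae ?_
  rw [EventuallyEq, ae_restrict_iff' hD.measurableSet]
  refine Eventually.of_forall fun x hx => ?_
  have hcx : ContinuousOn (fun s => pb Φ s (lie X F) x) (uIcc 0 t) := by
    refine hjoint.comp (f := fun s : ℝ => (s, x)) (by fun_prop) fun s hs => ⟨(hsub s hs).1, hx⟩
  have hftc : ∫ s in (0 : ℝ)..t, pb Φ s (lie X F) x = pb Φ t F x - pb Φ 0 F x :=
    intervalIntegral.integral_eq_sub_of_hasDerivAt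
      (fun s hs => pb_hasDerivAt hX hΦ hP hD hF (hsub s hs).1 hx) hcx.intervalIntegrable
  have h1 : ∫ s in (0 : ℝ)..t, (pb Φ s (lie X F) x - lie X F x) =
      (pb Φ t F x - F x) - t • lie X F x := by
    rw [intervalIntegral.integral_sub hcx.intervalIntegrable intervalIntegrable_const, hftc, hid,
      intervalIntegral.integral_const, sub_zero]
  rw [hvolr]
  have h2 : |t|⁻¹ • ∫ s in uIoc 0 t, (pb Φ s (lie X F) x - lie X F x) =
      t⁻¹ • ∫ s in (0 : ℝ)..t, (pb Φ s (lie X F) x - lie X F x) := by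
    rw [intervalIntegral.intervalIntegral_eq_integral_uIoc, smul_smul]
    congr 1
    rcases le_total 0 t with h | h
    · rw [if_pos h, abs_of_nonneg h, mul_one]
    · have h3 : ¬ (0 ≤ t) := fun h4 => ht0' (le_antisymm h h4)
      rw [if_neg h3, abs_of_nonpos h, inv_neg, mul_neg, mul_one]
  show t⁻¹ • (pb Φ t F x - F x) - lie X F x =
    |t|⁻¹ • ∫ s in uIoc 0 t, (pb Φ s (lie X F) x - lie X F x)
  rw [h2, h1, smul_sub t⁻¹ (pb Φ t F x - F x), smul_smul, inv_mul_cancel₀ ht0', one_smul]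

end Pool.Agent.Lib.MP_79abb3_an.W.B
end
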