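import Pool.Agent.Lib.MP_79abb3_an.W.BDef

/-!
Theorem W, block B: smoothness of parameter integrals.
-/

set_option autoImplicit false
set_option linter.unusedSectionVars false

open MeasureTheory Set Filter Topology Function
open scoped RealInnerProductSpace ENNReal NNReal

namespace Pool.Agent.Lib.MP_79abb3_an.W.B

variable {d : ℕ}

private theorem bw2_aux {Ω : Type} [MeasurableSpace Ω] (μ : Measure Ω) [IsFiniteMeasure μ] {h : Ω → Ed d}
    (hh : Measurable h) {w : Ω → ℝ} (hw : Measurable w) {M : ℝ} (hM : ∀ ω, |w ω| ≤ M) (n : ℕ) :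
    ∀ {G : Type} [NormedAddCommGroup G] [NormedSpace ℝ G] [CompleteSpace G] {g : Ed d → G},
      Sm g → HasCompactSupport g → ContDiff ℝ n (fun x => ∫ ω, w ω • g (x - h ω) ∂μ) := by
  have hmeas : ∀ {G : Type} [NormedAddCommGroup G] [NormedSpace ℝ G] {g : Ed d → G}, Sm g →
      ∀ x, AEStronglyMeasurable (fun ω => w ω • g (x - h ω)) μ := by
    intro G _ _ g hg x
    have h1 : StronglyMeasurable g := hg.continuous.stronglyMeasurable
    exact (hw.stronglyMeasurable.smul (h1.comp_measurable (measurable_const.sub hh))).aestronglyMeasurable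
  have hbd : ∀ {G : Type} [NormedAddCommGroup G] [NormedSpace ℝ G] {g : Ed d → G}, Sm g →
      HasCompactSupport g → ∃ B : ℝ, ∀ x ω, ‖w ω • g (x - h ω)‖ ≤ B := by
    intro G _ _ g hg hc
    obtain ⟨B, hB⟩ := hg.continuous.bounded_above_of_compact_support hc
    refine ⟨M * B, fun x ω => ?_⟩
    rw [norm_smul, Real.norm_eq_abs]
    exact mul_le_mul (hM ω) (hB _) (norm_nonneg _) ((abs_nonneg _).trans (hM ω))
  have hder : ∀ {G : Type} [NormedAddCommGroup G] [NormedSpace ℝ G] [CompleteSpace G] {g : Ed d → G}, Sm g →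
      HasCompactSupport g → ∀ x, HasFDerivAt (fun x => ∫ ω, w ω • g (x - h ω) ∂μ)
        (∫ ω, w ω • fderiv ℝ g (x - h ω) ∂μ) x := by
    intro G _ _ _ g hg hc x
    have hg' : Sm (fderiv ℝ g) := hg.fderiv_right (by norm_cast)
    obtain ⟨B, hB⟩ := hbd hg hc
    obtain ⟨B', hB'⟩ := hbd hg' (hc.fderiv ℝ)
    refine hasFDerivAt_integral_of_dominated_of_fderiv_le (s := univ) (bound := fun _ => B')
      (F' := fun x ω => w ω • fderiv ℝ g (x - h ω)) univ_mem
      (Eventually.of_forall fun x => hmeas hg x) ?_ (hmeas hg' x)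
      (Eventually.of_forall fun ω x _ => hB' x ω) (integrable_const _)
      (Eventually.of_forall fun ω x _ => ?_)
    · exact Integrable.of_bound (hmeas hg x) B (Eventually.of_forall fun ω => hB x ω)
    · have h1 : HasFDerivAt (fun x : Ed d => x - h ω) (ContinuousLinearMap.id ℝ (Ed d)) x :=
        (hasFDerivAt_id x).sub_const _
      have h2 : HasFDerivAt g (fderiv ℝ g (x - h ω)) (x - h ω) :=
        ((hg.differentiable (by simp)) _).hasFDerivAt
      exact ((h2.comp x h1).const_smul (w ω)).congr_fderiv (by rw [ContinuousLinearMap.comp_id])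
  induction n with
  | zero =>
    intro G _ _ _ g hg hc
    rw [Nat.cast_zero, contDiff_zero, continuous_iff_continuousAt]
    exact fun x => (hder hg hc x).continuousAt
  | succ n ih =>
    intro G _ _ _ g hg hc
    have hg' : Sm (fderiv ℝ g) := hg.fderiv_right (by norm_cast)
    rw [Nat.cast_succ, contDiff_succ_iff_hasFDerivAt]
    exact ⟨fun x => ∫ ω, w ω • fderiv ℝ g (x - h ω) ∂μ, ih hg' (hc.fderiv ℝ), hder hg hc⟩

/-- Averages of translates of a smooth function with compact support are smooth. Proof: by induction on `n`, for all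
target spaces `G`, the function is `C^n`: it is differentiable with derivative `∫ w ω • fderiv g (x - h ω)`
(`hasFDerivAt_integral_of_dominated_of_fderiv_le`), and `fderiv g` is smooth with compact support. -/
theorem param_smooth {Ω : Type} [MeasurableSpace Ω] (μ : Measure Ω) [IsFiniteMeasure μ] {h : Ω → Ed d}
    (hh : Measurable h) {w : Ω → ℝ} (hw : Measurable w) {M : ℝ} (hM : ∀ ω, |w ω| ≤ M) {G : Type}
    [NormedAddCommGroup G] [NormedSpace ℝ G] [CompleteSpace G] {g : Ed d → G} (hg : Sm g)
    (hc : HasCompactSupport g) : Sm (fun x => ∫ ω, w ω • g (x - h ω) ∂μ) := by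
  show ContDiff ℝ ((⊤ : ℕ∞) : WithTop ℕ∞) (fun x => ∫ ω, w ω • g (x - h ω) ∂μ)
  rw [contDiff_infty]
  exact fun n => bw2_aux μ hh hw hM n hg hc

end Pool.Agent.Lib.MP_79abb3_an.W.B
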