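import Pool.Agent.Lib.MP_79abb3_an.W.BDef
import Pool.Agent.Lib.MP_79abb3_an.W.BW0
import Pool.Agent.Lib.MP_79abb3_an.W.BW2

section

/-!
Theorem W, block B: gluing local representatives.
-/

set_option autoImplicit false
set_option linter.unusedSectionVars false

open MeasureTheory Set Filter Topology Function
open scoped RealInnerProductSpace ENNReal NNReal

namespace Pool.Agent.Lib.MP_79abb3_an.W.B

variable {d : ℕ}

/-- Gluing: if `u` has near every point of the open set `D` a smooth representative, it has a smooth representative on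
`D` (continuous functions which agree almost everywhere on an open set agree; `D` is Lindelöf). -/
theorem glue_smooth {D : Set (Ed d)} (hD : IsOpen D) {u : Ed d → ℝ}
    (h : ∀ x ∈ D, ∃ r : ℝ, 0 < r ∧ Metric.ball x r ⊆ D ∧ ∃ v : Ed d → ℝ, SmOn v (Metric.ball x r) ∧
      u =ᵐ[volume.restrict (Metric.ball x r)] v) :
    ∃ v : Ed d → ℝ, SmOn v D ∧ u =ᵐ[volume.restrict D] v := by
  classical
  choose! r hr hrD v hv huv using h
  -- local representatives agree
  have key : ∀ x ∈ D, ∀ y ∈ Metric.ball x (r x), v y y = v x y := by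
    intro x hx y hy
    have hyD : y ∈ D := hrD x hx hy
    have hU : IsOpen (Metric.ball x (r x) ∩ Metric.ball y (r y)) :=
      Metric.isOpen_ball.inter Metric.isOpen_ball
    have h1 : u =ᵐ[volume.restrict (Metric.ball x (r x) ∩ Metric.ball y (r y))] v x :=
      ae_restrict_of_ae_restrict_of_subset inter_subset_left (huv x hx)
    have h2 : u =ᵐ[volume.restrict (Metric.ball x (r x) ∩ Metric.ball y (r y))] v y :=
      ae_restrict_of_ae_restrict_of_subset inter_subset_right (huv y hyD)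
    have h3 : v y =ᵐ[volume.restrict (Metric.ball x (r x) ∩ Metric.ball y (r y))] v x :=
      h2.symm.trans h1
    have h4 := MeasureTheory.Measure.eqOn_open_of_ae_eq h3 hU
      ((hv y hyD).continuousOn.mono inter_subset_right)
      ((hv x hx).continuousOn.mono inter_subset_left)
    exact h4 ⟨hy, Metric.mem_ball_self (hr y hyD)⟩
  refine ⟨fun y => v y y, ?_, ?_⟩
  · intro x hx
    have h1 : ContDiffWithinAt ℝ ((⊤ : ℕ∞) : WithTop ℕ∞) (v x) D x := by
      have := (hv x hx) x (Metric.mem_ball_self (hr x hx))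
      exact (this.contDiffAt (Metric.ball_mem_nhds x (hr x hx))).contDiffWithinAt
    refine h1.congr_of_eventuallyEq ?_ rfl
    refine Filter.Eventually.filter_mono nhdsWithin_le_nhds ?_
    filter_upwards [Metric.ball_mem_nhds x (hr x hx)] with y hy
    exact key x hx y hy
  · obtain ⟨T, hTc, hT⟩ := TopologicalSpace.isOpen_iUnion_countable
      (fun x : D => Metric.ball (x : Ed d) (r x)) (fun x => Metric.isOpen_ball)
    have hcov : D ⊆ ⋃ i ∈ T, Metric.ball (i : Ed d) (r i) := by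
      rw [hT]
      intro x hx
      exact mem_iUnion.2 ⟨⟨x, hx⟩, Metric.mem_ball_self (hr x hx)⟩
    refine ae_restrict_of_ae_restrict_of_subset hcov ?_
    rw [ae_restrict_biUnion_iff _ hTc]
    intro i _
    have h1 := huv i i.2
    have h2 : ∀ᵐ y ∂(volume.restrict (Metric.ball (i : Ed d) (r i))), y ∈ Metric.ball (i : Ed d) (r i) :=
      ae_restrict_mem Metric.isOpen_ball.measurableSet
    filter_upwards [h1, h2] with y hy1 hy2
    rw [hy1, key i i.2 y hy2]

end Pool.Agent.Lib.MP_79abb3_an.W.B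
end

section

/-!
Theorem W, block B: radial kernels.
-/

set_option autoImplicit false
set_option linter.unusedSectionVars false

open MeasureTheory Set Filter Topology Function
open scoped RealInnerProductSpace ENNReal NNReal

namespace Pool.Agent.Lib.MP_79abb3_an.W.B

variable {d : ℕ}

/-- A smooth profile. -/
private noncomputable def bw1_th (s : ℝ) : ℝ := Real.smoothTransition (1 / 2 - s)

private theorem bw1_th_sm : ContDiff ℝ ((⊤ : ℕ∞) : WithTop ℕ∞) bw1_th :=
  Real.smoothTransition.contDiff.comp (contDiff_const.sub contDiff_id)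

private theorem bw1_th_zero {s : ℝ} (h : 1 / 2 ≤ s) : bw1_th s = 0 :=
  Real.smoothTransition.zero_of_nonpos (by linarith)

/-- Its primitive. -/
private noncomputable def bw1_g (t : ℝ) : ℝ := ∫ s in t..1, bw1_th s

private theorem bw1_g_der (t : ℝ) : HasDerivAt bw1_g (-bw1_th t) t :=
  intervalIntegral.integral_hasDerivAt_left (bw1_th_sm.continuous.intervalIntegrable _ _)
    (bw1_th_sm.continuous.stronglyMeasurableAtFilter _ _) bw1_th_sm.continuous.continuousAt

private theorem bw1_g_sm : ContDiff ℝ ((⊤ : ℕ∞) : WithTop ℕ∞) bw1_g := by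
  rw [contDiff_infty_iff_deriv]
  refine ⟨fun t => (bw1_g_der t).differentiableAt, ?_⟩
  have h : deriv bw1_g = fun t => -bw1_th t := funext fun t => (bw1_g_der t).deriv
  rw [h]
  exact bw1_th_sm.neg

private theorem bw1_g_zero {t : ℝ} (h : 1 / 2 ≤ t) : bw1_g t = 0 := by
  unfold bw1_g
  rw [intervalIntegral.integral_congr (g := fun _ => (0 : ℝ)), intervalIntegral.integral_zero]
  intro s hs
  apply bw1_th_zero
  rcases le_total t 1 with h1 | h1
  · rw [uIcc_of_le h1] at hs
    exact h.trans hs.1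
  · rw [uIcc_of_ge h1] at hs
    linarith [hs.1]

private theorem bw1_supp {f : Ed d → ℝ} (h : ∀ x : Ed d, 1 / 2 ≤ ‖x‖ ^ 2 → f x = 0) :
    tsupport f ⊆ Metric.ball 0 1 := by
  have h1 : tsupport f ⊆ {x : Ed d | ‖x‖ ^ 2 ≤ 1 / 2} := by
    apply closure_minimal
    · intro x hx
      by_contra h2
      have h3 : 1 / 2 < ‖x‖ ^ 2 := not_le.mp h2
      exact hx (h x h3.le)
    · exact isClosed_le (by fun_prop) continuous_const
  refine h1.trans fun x hx => ?_
  rw [mem_ball_zero_iff]
  have h2 : ‖x‖ ^ 2 ≤ 1 / 2 := hx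
  by_contra h3
  push Not at h3
  nlinarith

/-- `ρ x = c θ(|x|²)`, `P x = -(c/2) ∫_{|x|²}^1 θ`, with `θ ≥ 0` smooth, positive near `0` and zero for `s ≥ 1/2`
(for instance `θ s = smoothTransition (1/2 - s)`). The supports are compact (contained in a smaller closed ball). -/
theorem exists_rad (d : ℕ) : ∃ ρ P : Ed d → ℝ, IsRad ρ P := by
  have hn : ContDiff ℝ ((⊤ : ℕ∞) : WithTop ℕ∞) fun x : Ed d => ‖x‖ ^ 2 := contDiff_norm_sq ℝ
  have hf : ContDiff ℝ ((⊤ : ℕ∞) : WithTop ℕ∞) fun x : Ed d => bw1_th (‖x‖ ^ 2) := bw1_th_sm.comp hn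
  have hs : tsupport (fun x : Ed d => bw1_th (‖x‖ ^ 2)) ⊆ Metric.ball 0 1 :=
    bw1_supp fun x hx => bw1_th_zero hx
  have hcs : HasCompactSupport fun x : Ed d => bw1_th (‖x‖ ^ 2) :=
    (isCompact_closedBall (0 : Ed d) 1).of_isClosed_subset (isClosed_tsupport _)
      (hs.trans Metric.ball_subset_closedBall)
  have hI : 0 < ∫ x : Ed d, bw1_th (‖x‖ ^ 2) := by
    apply hf.continuous.integral_pos_of_hasCompactSupport_nonneg_nonzero hcs (x := 0)
    · intro x
      exact Real.smoothTransition.nonneg _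
    · have : 0 < bw1_th (‖(0 : Ed d)‖ ^ 2) := Real.smoothTransition.pos_of_pos (by simp)
      exact this.ne'
  set I := ∫ x : Ed d, bw1_th (‖x‖ ^ 2) with hId
  refine ⟨fun x => I⁻¹ * bw1_th (‖x‖ ^ 2), fun x => -(I⁻¹ / 2) * bw1_g (‖x‖ ^ 2), ?_, ?_, ?_, ?_, ?_, ?_, ?_⟩
  · exact contDiff_const.mul hf
  · exact contDiff_const.mul (bw1_g_sm.comp hn)
  · intro x
    exact mul_nonneg (inv_nonneg.mpr hI.le) (Real.smoothTransition.nonneg _)
  · exact bw1_supp fun x hx => by rw [bw1_th_zero hx, mul_zero]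
  · exact bw1_supp fun x hx => by rw [bw1_g_zero hx, mul_zero]
  · rw [integral_const_mul, ← hId, inv_mul_cancel₀ hI.ne']
  · intro x
    apply HasGradientAt.gradient
    rw [hasGradientAt_iff_hasFDerivAt]
    have h1 : HasFDerivAt (fun x : Ed d => ‖x‖ ^ 2) (2 • (innerSL ℝ x)) x :=
      (hasStrictFDerivAt_norm_sq x).hasFDerivAt
    have h2 := ((bw1_g_der (‖x‖ ^ 2)).comp_hasFDerivAt x h1).const_mul (-(I⁻¹ / 2))
    refine h2.congr_fderiv ?_
    ext v
    simp
    ring

private theorem bw1_fd {ρ P : Ed d → ℝ} (h : IsRad ρ P) (x v : Ed d) :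
    fderiv ℝ P x v = ρ x * ⟪x, v⟫ := by
  have h1 : ⟪gradient P x, v⟫ = fderiv ℝ P x v := by
    unfold gradient
    rw [InnerProductSpace.toDual_symm_apply]
  rw [← h1, h.grad, real_inner_smul_left]

private theorem bw1_ker_fd {f : Ed d → ℝ} (hf : Sm f) (τ : ℝ) (y : Ed d) :
    HasFDerivAt (ker f τ) ((τ ^ d)⁻¹ • (fderiv ℝ f (τ⁻¹ • y)).comp
      (τ⁻¹ • ContinuousLinearMap.id ℝ (Ed d))) y := by
  have h1 : HasFDerivAt (fun y : Ed d => τ⁻¹ • y) (τ⁻¹ • ContinuousLinearMap.id ℝ (Ed d)) y :=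
    (hasFDerivAt_id y).const_smul τ⁻¹
  have h2 : HasFDerivAt f (fderiv ℝ f (τ⁻¹ • y)) (τ⁻¹ • y) :=
    ((hf.differentiable (by simp)) _).hasFDerivAt
  exact (h2.comp y h1).const_mul ((τ ^ d)⁻¹)

private theorem bw1_lap {ρ P : Ed d → ℝ} (h : IsRad ρ P) (τ : ℝ) (y : Ed d) :
    lap (ker P τ) y = (τ ^ d)⁻¹ * τ⁻¹ ^ 2 *
      (τ⁻¹ * fderiv ℝ ρ (τ⁻¹ • y) y + d * ρ (τ⁻¹ • y)) := by
  have h1 : ∀ i : Fin d, (fun y => fderiv ℝ (ker P τ) y (ee i)) =
      fun y => (τ ^ d)⁻¹ * τ⁻¹ ^ 2 * (ρ (τ⁻¹ • y) * y i) := by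
    intro i
    funext y
    rw [(bw1_ker_fd h.smP τ y).fderiv]
    simp only [_root_.smul_apply, ContinuousLinearMap.comp_apply, ContinuousLinearMap.id_apply,
      bw1_fd h, real_inner_smul_left, real_inner_smul_right, smul_eq_mul]
    rw [EuclideanSpace.inner_single_right]
    simp
    ring
  have h2 : ∀ i : Fin d, fderiv ℝ (fun y => (τ ^ d)⁻¹ * τ⁻¹ ^ 2 * (ρ (τ⁻¹ • y) * y i)) y (ee i) =
      (τ ^ d)⁻¹ * τ⁻¹ ^ 2 * (τ⁻¹ * (fderiv ℝ ρ (τ⁻¹ • y) (ee i) * y i) + ρ (τ⁻¹ • y)) := by
    intro i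
    have h3 : HasFDerivAt (fun y : Ed d => τ⁻¹ • y) (τ⁻¹ • ContinuousLinearMap.id ℝ (Ed d)) y :=
      (hasFDerivAt_id y).const_smul τ⁻¹
    have h4 : HasFDerivAt ρ (fderiv ℝ ρ (τ⁻¹ • y)) (τ⁻¹ • y) :=
      ((h.smr.differentiable (by simp)) _).hasFDerivAt
    have h5 : HasFDerivAt (fun y : Ed d => y i) (EuclideanSpace.proj i : Ed d →L[ℝ] ℝ) y :=
      (EuclideanSpace.proj i : Ed d →L[ℝ] ℝ).hasFDerivAt
    have h6 := ((h4.comp y h3).mul h5).const_mul ((τ ^ d)⁻¹ * τ⁻¹ ^ 2)
    have h7 : fderiv ℝ (fun y => (τ ^ d)⁻¹ * τ⁻¹ ^ 2 * (ρ (τ⁻¹ • y) * y i)) y = _ := h6.fderiv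
    rw [h7]
    simp
    ring
  unfold lap
  simp only [h1, h2]
  rw [← Finset.mul_sum, Finset.sum_add_distrib, ← Finset.mul_sum, Finset.sum_const, Finset.card_univ,
    Fintype.card_fin, nsmul_eq_mul]
  congr 3
  have h8 : y = ∑ i, y i • ee i := by
    ext j
    simp [Pi.single_apply]
  conv_rhs => rw [h8, map_sum]
  refine Finset.sum_congr rfl fun i _ => ?_
  rw [map_smul, smul_eq_mul, mul_comm, ← h8]

/-- `∂_τ ρ_τ = - τ Δ P_τ`: both sides are `-τ^{-d-1} (d ρ + y·∇ρ)(y/τ)`; `Δ P = div (ρ y) = d ρ + y·∇ρ`. -/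
theorem ker_hasDerivAt {ρ P : Ed d → ℝ} (h : IsRad ρ P) {τ : ℝ} (hτ : 0 < τ) (y : Ed d) :
    HasDerivAt (fun τ => ker ρ τ y) (-τ * lap (ker P τ) y) τ := by
  have h0 : τ ≠ 0 := hτ.ne'
  have h1 : HasDerivAt (fun τ : ℝ => τ⁻¹ • y) (-(τ ^ 2)⁻¹ • y) τ := (hasDerivAt_inv h0).smul_const y
  have h2 : HasFDerivAt ρ (fderiv ℝ ρ (τ⁻¹ • y)) (τ⁻¹ • y) :=
    ((h.smr.differentiable (by simp)) _).hasFDerivAt
  have h3 := h2.comp_hasDerivAt τ h1
  have h4 : HasDerivAt (fun τ : ℝ => (τ ^ d)⁻¹) (-(d * (τ ^ d)⁻¹ * τ⁻¹)) τ := by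
    have h5 := (hasDerivAt_pow d τ).inv (pow_ne_zero d h0)
    refine h5.congr_deriv ?_
    rcases d with _ | n
    · simp
    · rw [Nat.add_sub_cancel]
      field_simp
      ring
  have h5 := h4.mul h3
  refine h5.congr_deriv ?_
  rw [bw1_lap h]
  simp only [Function.comp_apply, map_smul, smul_eq_mul]
  field_simp
  ring

theorem ker_te {ρ P : Ed d → ℝ} (h : IsRad ρ P) {τ : ℝ} (hτ : 0 < τ) (x : Ed d) :
    IsTe (Metric.ball x τ) (fun y => ker P τ (x - y)) ∧ IsTe (Metric.ball x τ) (fun y => ker ρ τ (x - y)) ∧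
    (∀ y, lap (fun y => ker P τ (x - y)) y = lap (ker P τ) (x - y)) ∧ ∫ y, ker ρ τ (x - y) = 1 := by
  have hte : ∀ f : Ed d → ℝ, Sm f → tsupport f ⊆ Metric.ball 0 1 →
      IsTe (Metric.ball x τ) (fun y => ker f τ (x - y)) := by
    intro f hf hs
    have hc : Continuous fun y : Ed d => τ⁻¹ • (x - y) := by fun_prop
    have h1 : tsupport (fun y => ker f τ (x - y)) ⊆ (fun y : Ed d => τ⁻¹ • (x - y)) ⁻¹' tsupport f := by
      apply closure_minimal _ ((isClosed_tsupport f).preimage hc)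
      intro y hy
      apply subset_tsupport
      intro h2
      apply hy
      show (τ ^ d)⁻¹ * f (τ⁻¹ • (x - y)) = 0
      rw [h2, mul_zero]
    have h2 : tsupport (fun y => ker f τ (x - y)) ⊆ Metric.ball x τ := by
      intro y hy
      have h3 := hs (h1 hy)
      rw [mem_ball_zero_iff, norm_smul, Real.norm_eq_abs, abs_of_pos (inv_pos.mpr hτ),
        inv_mul_lt_iff₀ hτ, mul_one] at h3
      rw [Metric.mem_ball, dist_comm, dist_eq_norm]
      exact h3
    refine ⟨?_, ?_, h2⟩
    · exact contDiff_const.mul (hf.comp ((contDiff_const.sub contDiff_id).const_smul τ⁻¹))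
    · exact (isCompact_closedBall x τ).of_isClosed_subset (isClosed_tsupport _)
        (h2.trans Metric.ball_subset_closedBall)
  refine ⟨hte P h.smP h.suppP, hte ρ h.smr h.suppr, ?_, ?_⟩
  · intro y
    have hks : Sm (ker P τ) := contDiff_const.mul (h.smP.comp (contDiff_id.const_smul τ⁻¹))
    have hkd : ∀ z, HasFDerivAt (ker P τ) (fderiv ℝ (ker P τ) z) z := fun z =>
      ((hks.differentiable (by simp)) z).hasFDerivAt
    have hsub : ∀ z, HasFDerivAt (fun y : Ed d => x - y) (-ContinuousLinearMap.id ℝ (Ed d)) z := fun z =>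
      (hasFDerivAt_id z).const_sub x
    have h1 : ∀ i : Fin d, (fun y => fderiv ℝ (fun y => ker P τ (x - y)) y (ee i)) =
        fun y => -(fderiv ℝ (ker P τ) (x - y) (ee i)) := by
      intro i
      funext z
      have h2 := (hkd (x - z)).comp z (hsub z)
      have h3 : fderiv ℝ (fun y => ker P τ (x - y)) z = _ := h2.fderiv
      rw [h3]
      simp
    have h4 : ∀ i : Fin d, Sm (fun z => fderiv ℝ (ker P τ) z (ee i)) := fun i =>
      (hks.fderiv_right (m := ((⊤ : ℕ∞) : WithTop ℕ∞)) (by norm_cast)).clm_apply contDiff_const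
    unfold lap
    refine Finset.sum_congr rfl fun i _ => ?_
    rw [h1 i]
    have h5 : HasFDerivAt (fun z => fderiv ℝ (ker P τ) z (ee i))
        (fderiv ℝ (fun z => fderiv ℝ (ker P τ) z (ee i)) (x - y)) (x - y) :=
      (((h4 i).differentiable (by simp)) _).hasFDerivAt
    have h6 := (h5.comp y (hsub y)).neg
    have h7 : fderiv ℝ (fun y => -(fderiv ℝ (ker P τ) (x - y) (ee i))) y = _ := h6.fderiv
    rw [h7]
    simp
  · rw [integral_sub_left_eq_self (fun y => ker ρ τ y) volume x]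
    unfold ker
    rw [integral_const_mul, Measure.integral_comp_inv_smul volume ρ τ, h.one, finrank_euclideanSpace,
      Fintype.card_fin, abs_of_pos (pow_pos hτ d), smul_eq_mul, mul_one,
      inv_mul_cancel₀ (pow_pos hτ d).ne']

/-- The kernel `ker f τ` is smooth. -/
theorem kerr_sm {f : Ed d → ℝ} (hf : Sm f) (τ : ℝ) : Sm (ker f τ) :=
  contDiff_const.mul (hf.comp (contDiff_id.const_smul τ⁻¹))

/-- The kernel vanishes outside of the ball of radius `τ`. -/
theorem kerr_zero {f : Ed d → ℝ} (hf : tsupport f ⊆ Metric.ball 0 1) {τ : ℝ} (hτ : 0 < τ) {y : Ed d}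
    (hy : τ ≤ ‖y‖) : ker f τ y = 0 := by
  have h1 : f (τ⁻¹ • y) = 0 := by
    by_contra h2
    have h3 := hf (subset_tsupport f h2)
    rw [mem_ball_zero_iff, norm_smul, Real.norm_eq_abs, abs_of_pos (inv_pos.mpr hτ),
      inv_mul_lt_iff₀ hτ, mul_one] at h3
    linarith
  unfold ker
  rw [h1, mul_zero]

theorem kerr_cpt {f : Ed d → ℝ} (hf : tsupport f ⊆ Metric.ball 0 1) {τ : ℝ} (hτ : 0 < τ) :
    HasCompactSupport (ker f τ) := by
  apply HasCompactSupport.intro (isCompact_closedBall (0 : Ed d) τ)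
  intro y hy
  apply kerr_zero hf hτ
  rw [mem_closedBall_zero_iff] at hy
  exact (not_le.mp hy).le

theorem kerr_int {ρ P : Ed d → ℝ} (h : IsRad ρ P) {τ : ℝ} (hτ : 0 < τ) : ∫ y, ker ρ τ y = 1 := by
  unfold ker
  rw [integral_const_mul, Measure.integral_comp_inv_smul volume ρ τ, h.one, finrank_euclideanSpace,
    Fintype.card_fin, abs_of_pos (pow_pos hτ d), smul_eq_mul, mul_one,
    inv_mul_cancel₀ (pow_pos hτ d).ne']

theorem kerr_nn {ρ P : Ed d → ℝ} (h : IsRad ρ P) {τ : ℝ} (hτ : 0 < τ) (y : Ed d) : 0 ≤ ker ρ τ y :=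
  mul_nonneg (by positivity) (h.nn _)

/-- A bound for the derivative of the kernel in `τ`. -/
theorem kerr_bound {ρ P : Ed d → ℝ} (h : IsRad ρ P) {τ₀ : ℝ} (hτ₀ : 0 < τ₀) :
    ∃ B : ℝ, ∀ τ, τ₀ ≤ τ → ∀ y, |-τ * lap (ker P τ) y| ≤ B := by
  have hρ' : Continuous (fderiv ℝ ρ) := h.smr.continuous_fderiv (by simp)
  have hcρ : HasCompactSupport ρ :=
    (isCompact_closedBall (0 : Ed d) 1).of_isClosed_subset (isClosed_tsupport _)
      (h.suppr.trans Metric.ball_subset_closedBall)
  have hqc : Continuous fun z : Ed d => fderiv ℝ ρ z z + d * ρ z :=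
    (hρ'.clm_apply continuous_id).add (continuous_const.mul h.smr.continuous)
  have hqs : HasCompactSupport fun z : Ed d => fderiv ℝ ρ z z + d * ρ z := by
    apply HasCompactSupport.intro hcρ
    intro z hz
    have h1 : ρ z = 0 := image_eq_zero_of_notMem_tsupport hz
    have h2 : fderiv ℝ ρ z = 0 :=
      image_eq_zero_of_notMem_tsupport fun h' => hz (tsupport_fderiv_subset ℝ h')
    rw [h1, h2]
    simp
  obtain ⟨Q, hQ⟩ := hqc.bounded_above_of_compact_support hqs
  have hQ0 : 0 ≤ Q := (norm_nonneg _).trans (hQ 0)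
  refine ⟨(τ₀ ^ d)⁻¹ * τ₀⁻¹ * Q, fun τ hτ y => ?_⟩
  have hτ0 : 0 < τ := hτ₀.trans_le hτ
  rw [bw1_lap h]
  have e1 : -τ * ((τ ^ d)⁻¹ * τ⁻¹ ^ 2 * (τ⁻¹ * fderiv ℝ ρ (τ⁻¹ • y) y + d * ρ (τ⁻¹ • y))) =
      -((τ ^ d)⁻¹ * τ⁻¹ * (fderiv ℝ ρ (τ⁻¹ • y) (τ⁻¹ • y) + d * ρ (τ⁻¹ • y))) := by
    rw [map_smul, smul_eq_mul]
    field_simp
  rw [e1, abs_neg, abs_mul, abs_mul, abs_of_pos (by positivity : 0 < (τ ^ d)⁻¹),
    abs_of_pos (by positivity : 0 < τ⁻¹)]
  have h3 := hQ (τ⁻¹ • y)
  rw [Real.norm_eq_abs] at h3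
  have h4 : (τ ^ d)⁻¹ ≤ (τ₀ ^ d)⁻¹ :=
    inv_anti₀ (pow_pos hτ₀ d) (pow_le_pow_left₀ hτ₀.le hτ d)
  have h5 : τ⁻¹ ≤ τ₀⁻¹ := inv_anti₀ hτ₀ hτ
  exact mul_le_mul (mul_le_mul h4 h5 (by positivity) (by positivity)) h3 (abs_nonneg _) (by positivity)

theorem kerr_lap_cont {ρ P : Ed d → ℝ} (h : IsRad ρ P) (τ : ℝ) : Continuous (lap (ker P τ)) := by
  have hρ' : Continuous (fderiv ℝ ρ) := h.smr.continuous_fderiv (by simp)
  have e1 : lap (ker P τ) = fun y => (τ ^ d)⁻¹ * τ⁻¹ ^ 2 *
      (τ⁻¹ * fderiv ℝ ρ (τ⁻¹ • y) y + d * ρ (τ⁻¹ • y)) := funext fun y => bw1_lap h τ y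
  have h1 : Continuous fun y : Ed d => τ⁻¹ • y := by fun_prop
  rw [e1]
  exact continuous_const.mul ((continuous_const.mul ((hρ'.comp h1).clm_apply continuous_id)).add
    (continuous_const.mul (h.smr.continuous.comp h1)))

end Pool.Agent.Lib.MP_79abb3_an.W.B
end

section

/-!
Theorem W, block B: radial averages of weak solutions.
-/

set_option autoImplicit false
set_option linter.unusedSectionVars false

open MeasureTheory Set Filter Topology Function
open scoped RealInnerProductSpace ENNReal NNReal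

namespace Pool.Agent.Lib.MP_79abb3_an.W.B

variable {d : ℕ}

/-- The derivative of the average with respect to the radius: differentiate under the integral sign (`ker_hasDerivAt`; the
derivative of the kernel is bounded for `τ` near a positive number, `u` is integrable), use the weak equation for
the test function `ker P τ (x - ·)` with support in `ball x τ ⊆ ball x₀ (2 r)`, and substitute `y = x - τ z`. -/
theorem avg_hasDerivAt {ρ P : Ed d → ℝ} (h : IsRad ρ P) {u g : Ed d → ℝ} (hu : Integrable u) (hg : Sm g)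
    (hc : HasCompactSupport g) {x₀ : Ed d} {r : ℝ} (hr : 0 < r)
    (hw : ∀ φ : Ed d → ℝ, IsTe (Metric.ball x₀ (2 * r)) φ → ∫ y, u y * lap φ y = ∫ y, g y * φ y) {x : Ed d}
    (hx : x ∈ Metric.ball x₀ r) {τ : ℝ} (h0 : 0 < τ) (h1 : τ < r) :
    HasDerivAt (fun τ => ∫ y, ker ρ τ (x - y) * u y) (-τ * ∫ z, g (x - τ • z) * P z) τ := by
  obtain ⟨B, hB⟩ := kerr_bound h (half_pos h0)
  have hcont : ∀ τ : ℝ, Continuous fun y : Ed d => ker ρ τ (x - y) := fun τ =>
    (kerr_sm h.smr τ).continuous.comp (continuous_const.sub continuous_id)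
  have hcont' : ∀ τ : ℝ, Continuous fun y : Ed d => lap (ker P τ) (x - y) := fun τ =>
    (kerr_lap_cont h τ).comp (continuous_const.sub continuous_id)
  have hmem : Ioi (τ / 2) ∈ 𝓝 τ := Ioi_mem_nhds (half_lt_self h0)
  have hint : Integrable fun y => ker ρ τ (x - y) * u y := by
    obtain ⟨K, hK⟩ := (kerr_sm h.smr τ).continuous.bounded_above_of_compact_support
      (kerr_cpt h.suppr h0)
    exact hu.bdd_mul (hcont τ).aestronglyMeasurable (Eventually.of_forall fun y => hK (x - y))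
  have hmain := (hasDerivAt_integral_of_dominated_loc_of_deriv_le (μ := (volume : Measure (Ed d)))
    (F := fun τ y => ker ρ τ (x - y) * u y)
    (F' := fun τ y => -τ * lap (ker P τ) (x - y) * u y) (x₀ := τ) (bound := fun y => B * ‖u y‖) hmem
    (Eventually.of_forall fun τ => (hcont τ).aestronglyMeasurable.mul hu.1) hint
    ((continuous_const.mul (hcont' τ)).aestronglyMeasurable.mul hu.1)
    (Eventually.of_forall fun y τ' hτ' => by
      rw [norm_mul, Real.norm_eq_abs]
      exact mul_le_mul_of_nonneg_right (hB τ' (le_of_lt hτ') (x - y)) (norm_nonneg _))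
    (hu.norm.const_mul B)
    (Eventually.of_forall fun y τ' hτ' =>
      (ker_hasDerivAt h (lt_trans (half_pos h0) hτ') (x - y)).mul_const (u y))).2
  refine hmain.congr_deriv ?_
  obtain ⟨ht1, -, ht2, -⟩ := ker_te h h0 x
  have hball : Metric.ball x τ ⊆ Metric.ball x₀ (2 * r) := by
    intro y hy
    rw [Metric.mem_ball] at hy hx ⊢
    have := dist_triangle y x x₀
    linarith
  have h2 := hw _ ⟨ht1.sm, ht1.cpt, ht1.supp.trans hball⟩
  simp only [ht2] at h2
  have h3 : ∫ y, -τ * lap (ker P τ) (x - y) * u y = -τ * ∫ y, u y * lap (ker P τ) (x - y) := by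
    rw [← integral_const_mul]
    congr 1
    funext y
    ring
  rw [h3, h2]
  congr 1
  have h4 := integral_sub_left_eq_self (fun y => g (x - y) * ker P τ y) (volume : Measure (Ed d)) x
  simp only [sub_sub_cancel] at h4
  rw [h4]
  have h5 := Measure.integral_comp_inv_smul (volume : Measure (Ed d)) (fun z => g (x - τ • z) * P z) τ
  rw [finrank_euclideanSpace, Fintype.card_fin, abs_of_pos (pow_pos h0 d), smul_eq_mul] at h5
  have h6 : ∫ y, g (x - y) * ker P τ y = (τ ^ d)⁻¹ * ∫ y, g (x - τ • τ⁻¹ • y) * P (τ⁻¹ • y) := by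
    rw [← integral_const_mul]
    congr 1
    funext y
    rw [smul_smul, mul_inv_cancel₀ h0.ne', one_smul]
    unfold ker
    ring
  rw [h6, h5, ← mul_assoc, inv_mul_cancel₀ (pow_pos h0 d).ne', one_mul]

/-- Averages converge weakly to `u` as the radius tends to `0`: `∫ (ρ_τ * u) φ = ∫ u (ρ_τ * φ)` (Fubini, `ρ` is even:
`gradient P x = ρ x • x`... or use the reflected kernel), and `ρ_τ * φ → φ` uniformly. If evenness is inconvenient, only
`∫ ρ = 1` and the support are used for the kernel `ρ(-·)`. -/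
theorem avg_tendsto {ρ P : Ed d → ℝ} (h : IsRad ρ P) {u : Ed d → ℝ} (hu : Integrable u) {φ : Ed d → ℝ}
    (hφ : IsTe univ φ) :
    Tendsto (fun τ => ∫ x, (∫ y, ker ρ τ (x - y) * u y) * φ x) (𝓝[>] 0) (𝓝 (∫ x, u x * φ x)) := by
  have hφc : Continuous φ := hφ.sm.continuous
  have hφi : Integrable φ := hφc.integrable_of_hasCompactSupport hφ.cpt
  obtain ⟨Bφ, hBφ⟩ := hφc.bounded_above_of_compact_support hφ.cpt
  have huφ : Integrable fun y => u y * φ y :=
    hu.mul_bdd hφc.aestronglyMeasurable (Eventually.of_forall hBφ)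
  set J := ∫ y, ‖u y‖ with hJ
  have hJ0 : 0 ≤ J := integral_nonneg fun y => norm_nonneg _
  rw [Metric.tendsto_nhds]
  intro ε hε
  have hε' : 0 < ε / (2 * (J + 1)) := by positivity
  obtain ⟨δ, hδ, hud⟩ := Metric.uniformContinuous_iff.mp (hφ.cpt.uniformContinuous_of_continuous hφc) _ hε'
  filter_upwards [Ioo_mem_nhdsGT hδ] with τ hτ
  have hτ0 : 0 < τ := hτ.1
  obtain ⟨K, hK⟩ := (kerr_sm h.smr τ).continuous.bounded_above_of_compact_support (kerr_cpt h.suppr hτ0)
  have hkc : Continuous (ker ρ τ) := (kerr_sm h.smr τ).continuous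
  have hki : Integrable (ker ρ τ) := hkc.integrable_of_hasCompactSupport (kerr_cpt h.suppr hτ0)
  -- Fubini
  have hprod : Integrable (uncurry fun (x y : Ed d) => ker ρ τ (x - y) * u y * φ x)
      ((volume : Measure (Ed d)).prod volume) := by
    have h1 : Integrable (fun z : Ed d × Ed d => φ z.1 * u z.2)
        ((volume : Measure (Ed d)).prod volume) := hφi.mul_prod hu
    have h2 : Continuous fun z : Ed d × Ed d => ker ρ τ (z.1 - z.2) :=
      hkc.comp (continuous_fst.sub continuous_snd)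
    have h3 := h1.bdd_mul (c := K) h2.aestronglyMeasurable (Eventually.of_forall fun z => hK _)
    refine h3.congr (Eventually.of_forall fun z => ?_)
    show ker ρ τ (z.1 - z.2) * (φ z.1 * u z.2) = ker ρ τ (z.1 - z.2) * u z.2 * φ z.1
    ring
  have hswap : ∫ x, (∫ y, ker ρ τ (x - y) * u y) * φ x =
      ∫ y, u y * ∫ x, ker ρ τ (x - y) * φ x := by
    have h1 : ∀ x, (∫ y, ker ρ τ (x - y) * u y) * φ x = ∫ y, ker ρ τ (x - y) * u y * φ x := fun x =>
      (integral_mul_const _ _).symm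
    simp only [h1]
    rw [integral_integral_swap hprod]
    congr 1
    funext y
    rw [← integral_const_mul]
    congr 1
    funext x
    ring
  -- the uniform estimate
  have hk1 : ∀ y : Ed d, ∫ x, ker ρ τ (x - y) = 1 := fun y => by
    rw [integral_sub_right_eq_self (fun x => ker ρ τ x) y]
    exact kerr_int h hτ0
  have hki' : ∀ y : Ed d, Integrable fun x => ker ρ τ (x - y) := fun y => hki.comp_sub_right y
  have hunif : ∀ y, ‖(∫ x, ker ρ τ (x - y) * φ x) - φ y‖ ≤ ε / (2 * (J + 1)) := by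
    intro y
    have e1 : (∫ x, ker ρ τ (x - y) * φ x) - φ y = ∫ x, ker ρ τ (x - y) * (φ x - φ y) := by
      have h1 : ∫ x, ker ρ τ (x - y) * φ y = φ y := by
        rw [integral_mul_const, hk1, one_mul]
      have h2 : Integrable fun x => ker ρ τ (x - y) * φ x :=
        (hki' y).mul_bdd hφc.aestronglyMeasurable (Eventually.of_forall hBφ)
      have h3 : Integrable fun x => ker ρ τ (x - y) * φ y := (hki' y).mul_const _
      conv_lhs => rw [← h1]
      rw [← integral_sub h2 h3]
      congr 1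
      funext x
      ring
    rw [e1]
    refine (norm_integral_le_integral_norm _).trans ?_
    have h4 : ∫ x, ‖ker ρ τ (x - y) * (φ x - φ y)‖ ≤ ∫ x, ker ρ τ (x - y) * (ε / (2 * (J + 1))) := by
      refine integral_mono_of_nonneg (Eventually.of_forall fun x => norm_nonneg _)
        ((hki' y).mul_const _) (Eventually.of_forall fun x => ?_)
      show ‖ker ρ τ (x - y) * (φ x - φ y)‖ ≤ ker ρ τ (x - y) * (ε / (2 * (J + 1)))
      rw [norm_mul, Real.norm_of_nonneg (kerr_nn h hτ0 _)]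
      rcases le_or_gt τ ‖x - y‖ with h5 | h5
      · rw [kerr_zero h.suppr hτ0 h5]
        simp
      · refine mul_le_mul_of_nonneg_left ?_ (kerr_nn h hτ0 _)
        rw [← dist_eq_norm]
        apply (hud _).le
        rw [dist_eq_norm]
        exact h5.trans hτ.2
    rw [integral_mul_const, hk1, one_mul] at h4
    exact h4
  have hmeas : AEStronglyMeasurable (fun y => ∫ x, ker ρ τ (x - y) * φ x) volume := by
    have h2 : Continuous fun z : Ed d × Ed d => ker ρ τ (z.2 - z.1) * φ z.2 :=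
      (hkc.comp (continuous_snd.sub continuous_fst)).mul (hφc.comp continuous_snd)
    exact (h2.stronglyMeasurable.integral_prod_right (ν := (volume : Measure (Ed d)))).aestronglyMeasurable
  have hint1 : Integrable fun y => u y * ∫ x, ker ρ τ (x - y) * φ x := by
    refine hu.mul_bdd (c := ε / (2 * (J + 1)) + Bφ) hmeas (Eventually.of_forall fun y => ?_)
    have h1 := hunif y
    have h2 := hBφ y
    have h3 := norm_add_le ((∫ x, ker ρ τ (x - y) * φ x) - φ y) (φ y)
    rw [sub_add_cancel] at h3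
    linarith
  rw [dist_eq_norm, hswap, ← integral_sub hint1 huφ]
  refine lt_of_le_of_lt (norm_integral_le_integral_norm _) ?_
  have h6 : ∫ y, ‖u y * (∫ x, ker ρ τ (x - y) * φ x) - u y * φ y‖ ≤
      ∫ y, ‖u y‖ * (ε / (2 * (J + 1))) := by
    refine integral_mono_of_nonneg (Eventually.of_forall fun x => norm_nonneg _)
      (hu.norm.mul_const _) (Eventually.of_forall fun y => ?_)
    show ‖u y * (∫ x, ker ρ τ (x - y) * φ x) - u y * φ y‖ ≤ ‖u y‖ * (ε / (2 * (J + 1)))
    rw [← mul_sub, norm_mul]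
    exact mul_le_mul_of_nonneg_left (hunif y) (norm_nonneg _)
  rw [integral_mul_const, ← hJ] at h6
  have h7 : J * (ε / (2 * (J + 1))) ≤ ε / 2 := by
    rw [mul_div_assoc', div_le_div_iff₀ (by positivity) (by norm_num)]
    nlinarith
  linarith

end Pool.Agent.Lib.MP_79abb3_an.W.B
end

section

/-!
Theorem W, block B: the Weyl lemma, local form.
-/

set_option autoImplicit false
set_option linter.unusedSectionVars false

open MeasureTheory Set Filter Topology Function
open scoped RealInnerProductSpace ENNReal NNReal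

namespace Pool.Agent.Lib.MP_79abb3_an.W.B

variable {d : ℕ}

/-- The average is smooth. -/
private theorem bw4_avg {ρ P : Ed d → ℝ} (h : IsRad ρ P) {u : Ed d → ℝ} (hu : Integrable u) {τ : ℝ}
    (hτ : 0 < τ) : Sm (fun x => ∫ y, ker ρ τ (x - y) * u y) := by
  have h1 := (kerr_cpt h.suppr hτ).contDiff_convolution_right (n := ⊤) (ContinuousLinearMap.mul ℝ ℝ)
    hu.locallyIntegrable (kerr_sm h.smr τ)
  have e1 : (fun x => ∫ y, ker ρ τ (x - y) * u y) =
      MeasureTheory.convolution u (ker ρ τ) (ContinuousLinearMap.mul ℝ ℝ) volume := by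
    funext x
    unfold MeasureTheory.convolution
    congr 1
    funext y
    rw [ContinuousLinearMap.mul_apply', mul_comm]
  rw [e1]
  exact h1

/-- The remainder is smooth and has the expected form. -/
private theorem bw4_rem {P : Ed d → ℝ} (hP : Sm P) (hPs : tsupport P ⊆ Metric.ball 0 1) {g : Ed d → ℝ}
    (hg : Sm g) (hc : HasCompactSupport g) {s : ℝ} (hs : 0 < s) :
    ∃ K : ℝ, 0 ≤ K ∧ (∀ x : Ed d, ∀ τ : ℝ, |∫ z, g (x - τ • z) * P z| ≤ K) ∧
      (∀ x : Ed d, IntervalIntegrable (fun τ => τ * ∫ z, g (x - τ • z) * P z) volume 0 s) ∧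
      Sm (fun x : Ed d => ∫ τ in (0 : ℝ)..s, τ * ∫ z, g (x - τ • z) * P z) := by
  have hcP : HasCompactSupport P :=
    (isCompact_closedBall (0 : Ed d) 1).of_isClosed_subset (isClosed_tsupport _)
      (hPs.trans Metric.ball_subset_closedBall)
  have hPi : Integrable P := hP.continuous.integrable_of_hasCompactSupport hcP
  obtain ⟨B, hB⟩ := hg.continuous.bounded_above_of_compact_support hc
  obtain ⟨BP, hBP⟩ := hP.continuous.bounded_above_of_compact_support hcP
  have hB0 : 0 ≤ B := (norm_nonneg _).trans (hB 0)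
  have hBP0 : 0 ≤ BP := (norm_nonneg _).trans (hBP 0)
  have hW : ∀ x : Ed d, ∀ τ : ℝ, |∫ z, g (x - τ • z) * P z| ≤ B * ∫ z, ‖P z‖ := by
    intro x τ
    rw [← Real.norm_eq_abs, ← integral_const_mul]
    refine (norm_integral_le_integral_norm _).trans ?_
    refine integral_mono_of_nonneg (Eventually.of_forall fun z => norm_nonneg _)
      (hPi.norm.const_mul B) (Eventually.of_forall fun z => ?_)
    show ‖g (x - τ • z) * P z‖ ≤ B * ‖P z‖
    rw [norm_mul]
    exact mul_le_mul_of_nonneg_right (hB _) (norm_nonneg _)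
  -- the product measure
  have hfin : IsFiniteMeasure ((volume.restrict (Ioc (0 : ℝ) s)).prod
      (volume.restrict (Metric.ball (0 : Ed d) 1))) := by
    have h1 : IsFiniteMeasure (volume.restrict (Ioc (0 : ℝ) s)) := ⟨by
      rw [Measure.restrict_apply_univ]
      exact measure_Ioc_lt_top⟩
    have h2 : IsFiniteMeasure (volume.restrict (Metric.ball (0 : Ed d) 1)) := ⟨by
      rw [Measure.restrict_apply_univ]
      exact measure_ball_lt_top⟩
    infer_instance
  have hh : Measurable fun ω : ℝ × Ed d => ω.1 • ω.2 := by fun_prop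
  have hwc : Continuous fun ω : ℝ × Ed d => max 0 (min ω.1 s) * P ω.2 :=
    (continuous_const.max (continuous_fst.min continuous_const)).mul (hP.continuous.comp continuous_snd)
  have hM : ∀ ω : ℝ × Ed d, |max 0 (min ω.1 s) * P ω.2| ≤ s * BP := by
    intro ω
    have h1 : 0 ≤ max 0 (min ω.1 s) := le_max_left _ _
    have h2 : max 0 (min ω.1 s) ≤ s := max_le hs.le (min_le_right _ _)
    rw [abs_mul, abs_of_nonneg h1]
    exact mul_le_mul h2 (hBP _) (abs_nonneg _) hs.le
  have hsm := param_smooth ((volume.restrict (Ioc (0 : ℝ) s)).prod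
      (volume.restrict (Metric.ball (0 : Ed d) 1))) hh hwc.measurable hM hg hc
  -- Fubini
  have hint : ∀ x : Ed d, Integrable (fun ω : ℝ × Ed d => (max 0 (min ω.1 s) * P ω.2) • g (x - ω.1 • ω.2))
      ((volume.restrict (Ioc (0 : ℝ) s)).prod (volume.restrict (Metric.ball (0 : Ed d) 1))) := by
    intro x
    have h1 : Continuous fun ω : ℝ × Ed d => (max 0 (min ω.1 s) * P ω.2) • g (x - ω.1 • ω.2) :=
      hwc.smul (hg.continuous.comp (by fun_prop))
    refine Integrable.of_bound h1.aestronglyMeasurable (s * BP * B) (Eventually.of_forall fun ω => ?_)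
    rw [norm_smul, Real.norm_eq_abs]
    exact mul_le_mul (hM ω) (hB _) (norm_nonneg _) (by positivity)
  have hinner : ∀ x : Ed d, ∀ τ ∈ Ioc (0 : ℝ) s,
      ∫ z in Metric.ball (0 : Ed d) 1, (max 0 (min τ s) * P z) • g (x - τ • z) =
        τ * ∫ z, g (x - τ • z) * P z := by
    intro x τ hτ
    rw [setIntegral_eq_integral_of_forall_compl_eq_zero (fun z hz => by
      have h1 : P z = 0 := image_eq_zero_of_notMem_tsupport fun h' => hz (hPs h')
      rw [h1, mul_zero, zero_smul]), ← integral_const_mul]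
    congr 1
    funext z
    rw [min_eq_left hτ.2, max_eq_right hτ.1.le, smul_eq_mul]
    ring
  have hii : ∀ x : Ed d, IntervalIntegrable (fun τ => τ * ∫ z, g (x - τ • z) * P z) volume 0 s := by
    intro x
    rw [intervalIntegrable_iff_integrableOn_Ioc_of_le hs.le]
    refine (hint x).integral_prod_left.congr ?_
    rw [EventuallyEq, ae_restrict_iff' measurableSet_Ioc]
    exact Eventually.of_forall fun τ hτ => hinner x τ hτ
  refine ⟨B * ∫ z, ‖P z‖, mul_nonneg hB0 (integral_nonneg fun z => norm_nonneg _), hW, hii, ?_⟩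
  have e1 : (fun x : Ed d => ∫ τ in (0 : ℝ)..s, τ * ∫ z, g (x - τ • z) * P z) =
      fun x => ∫ ω, (max 0 (min ω.1 s) * P ω.2) • g (x - ω.1 • ω.2)
        ∂((volume.restrict (Ioc (0 : ℝ) s)).prod (volume.restrict (Metric.ball (0 : Ed d) 1))) := by
    funext x
    rw [integral_prod _ (hint x), intervalIntegral.integral_of_le hs.le]
    exact (setIntegral_congr_fun measurableSet_Ioc fun τ hτ => hinner x τ hτ).symm
  rw [e1]
  exact hsm

/-- The Weyl lemma for an integrable function and a test function `g`. -/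
private theorem bw4_core {u g : Ed d → ℝ} (hu : Integrable u) (hg : Sm g) (hc : HasCompactSupport g)
    {x₀ : Ed d} {r s : ℝ} (hs : 0 < s) (hsr : s < r)
    (hw : ∀ φ : Ed d → ℝ, IsTe (Metric.ball x₀ (2 * r)) φ → ∫ y, u y * lap φ y = ∫ y, g y * φ y) :
    ∃ v : Ed d → ℝ, Sm v ∧ ∀ φ : Ed d → ℝ, IsTe (Metric.ball x₀ s) φ → ∫ x, u x * φ x = ∫ x, v x * φ x := by
  obtain ⟨ρ, P, h⟩ := exists_rad d
  obtain ⟨K, hK0, hK, hii, hsm⟩ := bw4_rem h.smP h.suppP hg hc hs
  have hr : 0 < r := hs.trans hsr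
  refine ⟨fun x => (∫ y, ker ρ s (x - y) * u y) + ∫ τ in (0 : ℝ)..s, τ * ∫ z, g (x - τ • z) * P z,
    (bw4_avg h hu hs).add hsm, fun φ hφ => ?_⟩
  set v : Ed d → ℝ := fun x => (∫ y, ker ρ s (x - y) * u y) +
    ∫ τ in (0 : ℝ)..s, τ * ∫ z, g (x - τ • z) * P z with hv
  have hvc : Continuous v := ((bw4_avg h hu hs).add hsm).continuous
  have hφc : Continuous φ := hφ.sm.continuous
  have hφi : Integrable φ := hφc.integrable_of_hasCompactSupport hφ.cpt
  have hvφ : Integrable fun x => v x * φ x :=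
    (hvc.mul hφc).integrable_of_hasCompactSupport hφ.cpt.mul_left
  -- the difference
  have hdiff : ∀ σ, 0 < σ → σ < s → ∀ x ∈ Metric.ball x₀ s,
      |(∫ y, ker ρ σ (x - y) * u y) - v x| ≤ s * K * σ := by
    intro σ hσ0 hσs x hx
    have hx' : x ∈ Metric.ball x₀ r := Metric.ball_subset_ball hsr.le hx
    have hsub : uIcc σ s ⊆ Ioo 0 r := by
      rw [uIcc_of_le hσs.le]
      exact fun τ hτ => ⟨hσ0.trans_le hτ.1, lt_of_le_of_lt hτ.2 hsr⟩
    have hi1 : IntervalIntegrable (fun τ => τ * ∫ z, g (x - τ • z) * P z) volume σ s :=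
      (hii x).mono_set (by
        rw [uIcc_of_le hσs.le, uIcc_of_le hs.le]
        exact Icc_subset_Icc hσ0.le le_rfl)
    have hi0 : IntervalIntegrable (fun τ => τ * ∫ z, g (x - τ • z) * P z) volume 0 σ :=
      (hii x).mono_set (by
        rw [uIcc_of_le hσ0.le, uIcc_of_le hs.le]
        exact Icc_subset_Icc le_rfl hσs.le)
    have hftc := intervalIntegral.integral_eq_sub_of_hasDerivAt (a := σ) (b := s)
      (f := fun τ => ∫ y, ker ρ τ (x - y) * u y) (f' := fun τ => -τ * ∫ z, g (x - τ • z) * P z)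
      (fun τ hτ => avg_hasDerivAt h hu hg hc hr hw hx' (hsub hτ).1 (hsub hτ).2)
      (by
        refine hi1.neg.congr ?_
        exact fun τ _ => by
          show -(τ * ∫ z, g (x - τ • z) * P z) = -τ * ∫ z, g (x - τ • z) * P z
          ring)
    have e1 : ∫ τ in σ..s, -τ * ∫ z, g (x - τ • z) * P z =
        -∫ τ in σ..s, τ * ∫ z, g (x - τ • z) * P z := by
      rw [← intervalIntegral.integral_neg]
      congr 1
      funext τ
      ring
    have e2 := intervalIntegral.integral_add_adjacent_intervals hi0 hi1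
    have e3 : (∫ y, ker ρ σ (x - y) * u y) - v x =
        -∫ τ in (0 : ℝ)..σ, τ * ∫ z, g (x - τ • z) * P z := by
      rw [e1] at hftc
      simp only [hv]
      linarith
    rw [e3, abs_neg, ← Real.norm_eq_abs]
    have h5 := intervalIntegral.norm_integral_le_of_norm_le_const (a := 0) (b := σ) (C := s * K)
      (f := fun τ => τ * ∫ z, g (x - τ • z) * P z) (fun τ hτ => by
        rw [uIoc_of_le hσ0.le] at hτ
        rw [Real.norm_eq_abs, abs_mul, abs_of_pos hτ.1]
        exact mul_le_mul (hτ.2.trans hσs.le) (hK _ _) (abs_nonneg _) hs.le)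
    rw [sub_zero, abs_of_pos hσ0] at h5
    exact h5
  -- limits
  have hφt : IsTe univ φ := ⟨hφ.sm, hφ.cpt, subset_univ _⟩
  have hlim1 := avg_tendsto h hu hφt
  have hlim2 : Tendsto (fun τ => ∫ x, (∫ y, ker ρ τ (x - y) * u y) * φ x) (𝓝[>] 0)
      (𝓝 (∫ x, v x * φ x)) := by
    rw [tendsto_iff_norm_sub_tendsto_zero]
    have hz : Tendsto (fun σ : ℝ => s * K * (∫ x, ‖φ x‖) * σ) (𝓝[>] 0) (𝓝 0) := by
      have h1 : Tendsto (fun σ : ℝ => s * K * (∫ x, ‖φ x‖) * σ) (𝓝 0) (𝓝 (s * K * (∫ x, ‖φ x‖) * 0)) :=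
        (continuous_const.mul continuous_id).tendsto 0
      rw [mul_zero] at h1
      exact h1.mono_left nhdsWithin_le_nhds
    refine squeeze_zero' (Eventually.of_forall fun σ => norm_nonneg _) ?_ hz
    filter_upwards [Ioo_mem_nhdsGT hs] with σ hσ
    have hAc : Continuous fun x => ∫ y, ker ρ σ (x - y) * u y := (bw4_avg h hu hσ.1).continuous
    have hAφ : Integrable fun x => (∫ y, ker ρ σ (x - y) * u y) * φ x :=
      (hAc.mul hφc).integrable_of_hasCompactSupport hφ.cpt.mul_left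
    rw [← integral_sub hAφ hvφ]
    refine (norm_integral_le_integral_norm _).trans ?_
    have h6 : ∫ x, ‖(∫ y, ker ρ σ (x - y) * u y) * φ x - v x * φ x‖ ≤
        ∫ x, s * K * σ * ‖φ x‖ := by
      refine integral_mono_of_nonneg (Eventually.of_forall fun x => norm_nonneg _)
        (hφi.norm.const_mul _) (Eventually.of_forall fun x => ?_)
      show ‖(∫ y, ker ρ σ (x - y) * u y) * φ x - v x * φ x‖ ≤ s * K * σ * ‖φ x‖
      rw [← sub_mul, norm_mul]
      by_cases hx : x ∈ tsupport φ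
      · refine mul_le_mul_of_nonneg_right ?_ (norm_nonneg _)
        rw [Real.norm_eq_abs]
        exact hdiff σ hσ.1 hσ.2 x (hφ.supp hx)
      · rw [image_eq_zero_of_notMem_tsupport hx]
        simp
    rw [integral_const_mul] at h6
    calc _ ≤ _ := h6
      _ = _ := by ring
  exact tendsto_nhds_unique hlim1 hlim2

/-- Let `χ` be a cut-off function, `χ = 1` on `ball x₀ (3r/2)`... Replace `u` by `u` times the indicator of
`ball x₀ (2 r)` and `g` by `χ g` with `χ = 1` on `ball x₀ ρ'`, `ρ' < 2r` close to `2 r` (apply `avg_hasDerivAt` with a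
slightly smaller `r`). For `x ∈ ball x₀ (r/2)` and `0 < σ < s = r/2`:
`∫ ρ_σ(x - y) u = ∫ ρ_s(x - y) u + ∫_σ^s τ ∫ g(x - τ z) P z dz dτ`. Let `σ → 0` in the weak sense (`avg_tendsto`): `u = v`
with `v x = ∫ ρ_s(x - y) u y dy + ∫_0^s τ ∫ g(x - τ z) P z dz dτ`, smooth by
`HasCompactSupport.contDiff_convolution_...` and `param_smooth`; conclude by
`IsOpen.ae_eq_zero_of_integral_contDiff_smul_eq_zero`. -/
theorem weyl_local {u g : Ed d → ℝ} {x₀ : Ed d} {r : ℝ} (hr : 0 < r)
    (hu : IntegrableOn u (Metric.ball x₀ (2 * r))) (hg : SmOn g (Metric.ball x₀ (2 * r)))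
    (hw : ∀ φ : Ed d → ℝ, IsTe (Metric.ball x₀ (2 * r)) φ → ∫ y, u y * lap φ y = ∫ y, g y * φ y) :
    ∃ v : Ed d → ℝ, SmOn v (Metric.ball x₀ (r / 2)) ∧ u =ᵐ[volume.restrict (Metric.ball x₀ (r / 2))] v := by
  set U := Metric.ball x₀ (2 * r) with hU
  set u' := U.indicator u with hu'
  have hu'i : Integrable u' := (integrable_indicator_iff measurableSet_ball).mpr hu
  let χ : ContDiffBump x₀ := ⟨3 * r / 2, 7 * r / 4, by positivity, by linarith⟩
  have hχs : Sm (χ : Ed d → ℝ) := χ.contDiff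
  have hχ1 : ∀ x ∈ Metric.ball x₀ (3 * r / 2), χ x = 1 := fun x hx =>
    χ.one_of_mem_closedBall (Metric.ball_subset_closedBall hx)
  have hχt : tsupport χ = Metric.closedBall x₀ (7 * r / 4) := χ.tsupport_eq
  have hχU : tsupport χ ⊆ U := by
    rw [hχt]
    exact Metric.closedBall_subset_ball (by linarith)
  set g' : Ed d → ℝ := fun x => χ x * g x with hg'
  have hg's : Sm g' := by
    show ContDiff ℝ ((⊤ : ℕ∞) : WithTop ℕ∞) g'
    rw [contDiff_iff_contDiffAt]
    intro x
    by_cases hx : x ∈ U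
    · exact hχs.contDiffAt.mul (hg.contDiffAt (Metric.isOpen_ball.mem_nhds hx))
    · have h1 : g' =ᶠ[𝓝 x] fun _ => 0 := by
        filter_upwards [(isClosed_tsupport χ).isOpen_compl.mem_nhds fun h' => hx (hχU h')] with y hy
        rw [hg']
        show χ y * g y = 0
        rw [image_eq_zero_of_notMem_tsupport hy, zero_mul]
      exact contDiffAt_const.congr_of_eventuallyEq h1
  have hg'c : HasCompactSupport g' := by
    have h1 : HasCompactSupport χ := by
      rw [HasCompactSupport, hχt]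
      exact isCompact_closedBall _ _
    exact h1.mul_right
  have hw' : ∀ φ : Ed d → ℝ, IsTe (Metric.ball x₀ (2 * (3 * r / 4))) φ →
      ∫ y, u' y * lap φ y = ∫ y, g' y * φ y := by
    intro φ hφ
    have hb : Metric.ball x₀ (2 * (3 * r / 4)) ⊆ U := Metric.ball_subset_ball (by linarith)
    have h1 := hw φ ⟨hφ.sm, hφ.cpt, hφ.supp.trans hb⟩
    have h2 : ∀ y, u' y * lap φ y = u y * lap φ y := by
      intro y
      by_cases hy : y ∈ U
      · rw [hu', indicator_of_mem hy]
      · have h3 : lap φ y = 0 := by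
          have h4 : y ∉ tsupport φ := fun h' => hy (hb (hφ.supp h'))
          have h5 : φ =ᶠ[𝓝 y] fun _ => 0 := by
            filter_upwards [(isClosed_tsupport φ).isOpen_compl.mem_nhds h4] with z hz
            exact image_eq_zero_of_notMem_tsupport hz
          unfold lap
          refine Finset.sum_eq_zero fun i _ => ?_
          have h6 : (fun z => fderiv ℝ φ z (ee i)) =ᶠ[𝓝 y] fun _ => 0 := by
            filter_upwards [h5.fderiv (𝕜 := ℝ)] with z hz
            rw [hz]
            simp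
          rw [h6.fderiv_eq]
          simp
        rw [h3, mul_zero, mul_zero]
    have h3 : ∀ y, g' y * φ y = g y * φ y := by
      intro y
      by_cases hy : y ∈ tsupport φ
      · have h4 : y ∈ Metric.ball x₀ (3 * r / 2) := by
          have h5 := hφ.supp hy
          have e1 : 2 * (3 * r / 4) = 3 * r / 2 := by ring
          rwa [e1] at h5
        rw [hg']
        show χ y * g y * φ y = g y * φ y
        rw [hχ1 y h4, one_mul]
      · rw [image_eq_zero_of_notMem_tsupport hy, mul_zero, mul_zero]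
    simp only [h2, h3]
    exact h1
  obtain ⟨v, hv, hve⟩ := bw4_core hu'i hg's hg'c (x₀ := x₀) (r := 3 * r / 4) (s := r / 2)
    (by positivity) (by linarith) hw'
  refine ⟨v, hv.contDiffOn, ?_⟩
  have hae := (Metric.isOpen_ball (x := x₀) (ε := r / 2)).ae_eq_zero_of_integral_contDiff_smul_eq_zero
    (μ := (volume : Measure (Ed d))) (f := fun x => u' x - v x)
    ((hu'i.locallyIntegrable.sub hv.continuous.locallyIntegrable).locallyIntegrableOn _)
    (fun φ hφs hφc hφt => by
      have h1 := hve φ ⟨hφs, hφc, hφt⟩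
      obtain ⟨B, hB⟩ := hφs.continuous.bounded_above_of_compact_support hφc
      have i1 : Integrable fun x => u' x * φ x :=
        hu'i.mul_bdd hφs.continuous.aestronglyMeasurable (Eventually.of_forall hB)
      have i2 : Integrable fun x => v x * φ x :=
        (hv.continuous.mul hφs.continuous).integrable_of_hasCompactSupport hφc.mul_left
      have e1 : ∫ x, φ x • (u' x - v x) = (∫ x, u' x * φ x) - ∫ x, v x * φ x := by
        rw [← integral_sub i1 i2]
        congr 1
        funext x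
        rw [smul_eq_mul]
        ring
      rw [e1, h1, sub_self])
  rw [EventuallyEq, ae_restrict_iff' measurableSet_ball]
  filter_upwards [hae] with x hx hxb
  have h1 := hx hxb
  have h2 : x ∈ U := Metric.ball_subset_ball (by linarith) hxb
  rw [hu', indicator_of_mem h2] at h1
  linarith

end Pool.Agent.Lib.MP_79abb3_an.W.B
end

section

/-!
Theorem W, block B: the Weyl lemma.
-/

set_option autoImplicit false
set_option linter.unusedSectionVars false

open MeasureTheory Set Filter Topology Function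
open scoped RealInnerProductSpace ENNReal NNReal

namespace Pool.Agent.Lib.MP_79abb3_an.W.B

variable {d : ℕ}

/-- **Weyl's lemma.** -/
theorem weyl {D : Set (Ed d)} (hD : IsOpen D) {u g : Ed d → ℝ} (hu : LocallyIntegrableOn u D) (hg : SmOn g D)
    (hw : ∀ φ : Ed d → ℝ, IsTe D φ → ∫ y, u y * lap φ y = ∫ y, g y * φ y) :
    ∃ v : Ed d → ℝ, SmOn v D ∧ u =ᵐ[volume.restrict D] v := by
  apply glue_smooth hD
  intro x hx
  obtain ⟨R, hR, hRD⟩ := Metric.nhds_basis_closedBall.mem_iff.1 (hD.mem_nhds hx)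
  have hr : 0 < R / 2 := by positivity
  have h2 : 2 * (R / 2) = R := by ring
  have hsub : Metric.ball x (2 * (R / 2)) ⊆ D := by
    rw [h2]
    exact Metric.ball_subset_closedBall.trans hRD
  obtain ⟨v, hv, huv⟩ := weyl_local (u := u) (g := g) (x₀ := x) hr
    (by
      have := hu.integrableOn_compact_subset hRD (isCompact_closedBall x R)
      rw [h2]
      exact this.mono_set Metric.ball_subset_closedBall)
    (hg.mono hsub)
    (fun φ hφ => hw φ ⟨hφ.sm, hφ.cpt, hφ.supp.trans hsub⟩)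
  refine ⟨R / 2 / 2, by positivity, ?_, v, hv, huv⟩
  refine (Metric.ball_subset_ball ?_).trans hsub
  linarith

end Pool.Agent.Lib.MP_79abb3_an.W.B
end
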