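import Pool.Agent.Lib.MP_79abb3_an.W.BFa2
import Pool.Agent.Lib.MP_79abb3_an.W.BT4
import Pool.Agent.Lib.MP_79abb3_an.W.BT6
import Pool.Agent.Lib.MP_79abb3_an.W.BT8
import Pool.Agent.Lib.MP_79abb3_an.W.BE2
import Pool.Agent.Lib.MP_79abb3_an.W.BW6
import Pool.Agent.Lib.MP_79abb3_an.W.BR1
import Pool.Agent.Lib.MP_79abb3_an.W.BG3
import Pool.Agent.Lib.MP_79abb3_an.W.BD2

section

/-!
Theorem W, block B: flows, summary.
-/

set_option autoImplicit false
set_option linter.unusedSectionVars false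

open MeasureTheory Set Filter Topology Function
open scoped RealInnerProductSpace ENNReal

namespace Pool.Agent.Lib.MP_79abb3_an.W.B

variable {d : ℕ} {X : Ed d → Ed d}

private theorem bfc1_smul {E : Type*} [NormedAddCommGroup E] [NormedSpace ℝ E] (L : E) (s : ℝ) :
    HasDerivAt (fun s : ℝ => s • L) L s := by
  simpa using (hasDerivAt_id s).smul_const L

private theorem bfc1_zero {E : Type*} [NormedAddCommGroup E] [NormedSpace ℝ E] (L : E) :
    (0 : ℝ) • L = 0 := zero_smul ℝ L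

private theorem bfc1_cont {E G : Type*} [NormedAddCommGroup E] [NormedAddCommGroup G]
    {F : ℝ → E → G} {I : Set ℝ} {C : ℝ} (hC : 0 ≤ C)
    (h1 : ∀ s ∈ I, ∀ t ∈ I, ∀ x, ‖F s x - F t x‖ ≤ C * |s - t|)
    (h2 : ∀ t ∈ I, ∀ x y, ‖F t x - F t y‖ ≤ C * ‖x - y‖) :
    ContinuousOn (fun p : ℝ × E => F p.1 p.2) (I ×ˢ univ) := by
  have h3 : LipschitzOnWith (Real.toNNReal (2 * C)) (fun p : ℝ × E => F p.1 p.2) (I ×ˢ univ) := by
    refine LipschitzOnWith.of_dist_le_mul ?_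
    rintro ⟨s, x⟩ ⟨hs, -⟩ ⟨t, y⟩ ⟨ht, -⟩
    simp only at hs ht ⊢
    rw [Real.coe_toNNReal _ (by positivity), dist_eq_norm, Prod.dist_eq]
    have h4 : |s - t| ≤ max (dist s t) (dist x y) := le_max_left _ _
    have h5 : ‖x - y‖ ≤ max (dist s t) (dist x y) := by
      rw [← dist_eq_norm]
      exact le_max_right _ _
    calc ‖F s x - F t y‖ = ‖(F s x - F t x) + (F t x - F t y)‖ := by rw [sub_add_sub_cancel]
      _ ≤ ‖F s x - F t x‖ + ‖F t x - F t y‖ := norm_add_le _ _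
      _ ≤ C * |s - t| + C * ‖x - y‖ := add_le_add (h1 s hs t ht x) (h2 t ht x y)
      _ ≤ C * max (dist s t) (dist x y) + C * max (dist s t) (dist x y) := by gcongr
      _ = _ := by ring
  exact h3.continuousOn

/-- Every smooth field with compact support has a flow. From `exists_traj`, `traj_inv`, `traj_supp`, `exists_lin`,
`lin_hasFDerivAt`, `lin_lip`: `fderiv ℝ (Φ t) x = A t x` for `|t| < τ` (for `dder`: eventually equal near `t`);
`near`: `|X| ≤ K`; `dnear`: `|A'| ≤ 2 K`; `dnear2`: the derivative of `A t x - 1 - t DX x` is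
`DX(Φ t x) A t x - DX(x)`, of size `≤ |DX(Φ t x) - DX(x)| * 2 + K |A t x - 1| ≤ C |t|` (mean value inequality;
enlarge `C`). `cont`, `dcont`: Lipschitz in both variables. -/
theorem exists_flow (hX : Sm X) (hc : HasCompactSupport X) :
    ∃ (τ C : ℝ) (Φ : ℝ → Ed d → Ed d), IsFl X τ C Φ := by
  obtain ⟨K, hK0, hKX, hKD, -, hKL, -⟩ := fld_bound hX hc
  obtain ⟨Φ, h0, h⟩ := exists_traj hX hc
  obtain ⟨C₁, hC₁, hL⟩ := traj_lip hX hc h0 h
  obtain ⟨τ, hτ, hτ1, A, hA0, hA2, hA⟩ := exists_lin hX hc h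
  obtain ⟨C₂, hC₂, hLx, hLt⟩ := lin_lip hX hc h0 h hτ hτ1 hA0 hA2 hA
  have hfd := lin_hasFDerivAt hX hc h0 h hτ hτ1 hA0 hA
  have hsub2 : ∀ s ∈ Ioo (-τ) τ, s ∈ Ioo (-2 : ℝ) 2 := fun s hs =>
    ⟨by linarith [hs.1], by linarith [hs.2]⟩
  have hsub1 : ∀ s ∈ Ioo (-τ) τ, s ∈ Ioo (-1 : ℝ) 1 := fun s hs =>
    ⟨by linarith [hs.1], by linarith [hs.2]⟩
  have hz : (0 : ℝ) ∈ Ioo (-τ) τ := ⟨by linarith, hτ⟩
  have hfA : ∀ t ∈ Ioo (-τ) τ, ∀ x, fderiv ℝ (Φ t) x = A t x := fun t ht x => (hfd t ht x).fderiv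
  -- Lipschitz in time
  have hΦt : ∀ s ∈ Ioo (-τ) τ, ∀ t ∈ Ioo (-τ) τ, ∀ x, ‖Φ s x - Φ t x‖ ≤ K * |s - t| := by
    intro s hs t ht x
    have := Convex.norm_image_sub_le_of_norm_hasDerivWithin_le (f := fun s => Φ s x)
      (f' := fun s => X (Φ s x)) (C := K) (s := Ioo (-τ) τ)
      (fun u hu => (h u (hsub2 u hu) x).hasDerivWithinAt) (fun u _ => hKX _)
      (convex_Ioo _ _) ht hs
    rwa [Real.norm_eq_abs] at this
  set C : ℝ := max (max K C₁) (max C₂ (K * K * 2 + K * C₂)) with hC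
  have hCK : K ≤ C := le_trans (le_max_left _ _) (le_max_left _ _)
  have hCC1 : C₁ ≤ C := le_trans (le_max_right _ _) (le_max_left _ _)
  have hCC2 : C₂ ≤ C := le_trans (le_max_left _ _) (le_max_right _ _)
  have hCC3 : K * K * 2 + K * C₂ ≤ C := le_trans (le_max_right _ _) (le_max_right _ _)
  have hC0 : 0 ≤ C := hK0.trans hCK
  have hnear : ∀ t ∈ Ioo (-τ) τ, ∀ x, ‖Φ t x - x‖ ≤ K * |t| := by
    intro t ht x
    have := hΦt t ht 0 hz x
    rwa [h0, sub_zero] at this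
  have hdn : ∀ t ∈ Ioo (-τ) τ, ∀ x, ‖A t x - ContinuousLinearMap.id ℝ (Ed d)‖ ≤ C₂ * |t| := by
    intro t ht x
    have := hLt t ht 0 hz x
    rwa [hA0, sub_zero] at this
  refine ⟨τ, C, Φ, ?_⟩
  refine
    { pos := hτ
      zero := h0
      der := fun t ht x => h t (hsub2 t ht) x
      inv := fun t ht x => traj_inv hX hc h0 h t (hsub1 t ht) x
      c1 := ?_
      dder := ?_
      cont := ?_
      dcont := ?_
      near := ?_
      dnear := ?_
      dnear2 := ?_
      supp := fun t ht x hx => traj_supp hX hc h0 h t (hsub2 t ht) x hx }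
  · intro t ht
    rw [contDiff_one_iff_fderiv]
    refine ⟨fun x => (hfd t ht x).differentiableAt, ?_⟩
    have h1 : fderiv ℝ (Φ t) = A t := funext fun x => hfA t ht x
    rw [h1]
    have h2 : LipschitzWith (Real.toNNReal C₂) (A t) := by
      refine LipschitzWith.of_dist_le_mul fun x y => ?_
      rw [Real.coe_toNNReal _ hC₂, dist_eq_norm, dist_eq_norm]
      exact hLx t ht x y
    exact h2.continuous
  · intro t ht x
    rw [hfA t ht x]
    refine (hA t ht x).congr_of_eventuallyEq ?_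
    filter_upwards [isOpen_Ioo.mem_nhds ht] with s hs
    exact hfA s hs x
  · exact bfc1_cont hC0 (fun s hs t ht x => (hΦt s hs t ht x).trans (by gcongr))
      (fun t ht x y => (hL t (hsub2 t ht) x y).trans (by gcongr))
  · refine (bfc1_cont hC0 (F := A) (fun s hs t ht x => (hLt s hs t ht x).trans (by gcongr))
      (fun t ht x y => (hLx t ht x y).trans (by gcongr))).congr ?_
    rintro ⟨t, x⟩ ⟨ht, -⟩
    exact hfA t ht x
  · intro t ht x
    refine (hnear t ht x).trans (by gcongr)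
  · intro t ht x
    rw [hfA t ht x]
    exact (hdn t ht x).trans (by gcongr)
  · intro t ht x
    rw [hfA t ht x]
    have hseg : ∀ s ∈ uIcc 0 t, s ∈ Ioo (-τ) τ ∧ |s| ≤ |t| := by
      intro s hs
      have h1 : |s| ≤ |t| := by
        rcases le_total 0 t with h2 | h2
        · rw [uIcc_of_le h2] at hs
          rw [abs_of_nonneg hs.1, abs_of_nonneg h2]
          exact hs.2
        · rw [uIcc_of_ge h2] at hs
          rw [abs_of_nonpos hs.2, abs_of_nonpos h2]
          linarith [hs.1]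
      have h3 : |t| < τ := abs_lt.2 ht
      exact ⟨abs_lt.1 (h1.trans_lt h3), h1⟩
    have h1 := Convex.norm_image_sub_le_of_norm_hasDerivWithin_le
      (f := fun s => A s x - ContinuousLinearMap.id ℝ (Ed d) - s • fderiv ℝ X x)
      (f' := fun s => (fderiv ℝ X (Φ s x)).comp (A s x) - fderiv ℝ X x)
      (C := (K * K * 2 + K * C₂) * |t|) (s := uIcc 0 t)
      (fun s hs => by
        have h2 : HasDerivAt (fun s : ℝ => s • fderiv ℝ X x) (fderiv ℝ X x) s :=
          bfc1_smul (fderiv ℝ X x) s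
        exact (((hA s (hseg s hs).1 x).sub_const _).sub h2).hasDerivWithinAt)
      (fun s hs => by
        obtain ⟨hs1, hs2⟩ := hseg s hs
        have h2 : (fderiv ℝ X (Φ s x)).comp (A s x) - fderiv ℝ X x =
            (fderiv ℝ X (Φ s x) - fderiv ℝ X x).comp (A s x) +
              (fderiv ℝ X x).comp (A s x - ContinuousLinearMap.id ℝ (Ed d)) := by
          ext1 v
          simp only [_root_.sub_apply, _root_.add_apply,
            ContinuousLinearMap.comp_apply, ContinuousLinearMap.id_apply, map_sub]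
          abel
        rw [h2]
        have h3 : ‖(fderiv ℝ X (Φ s x) - fderiv ℝ X x).comp (A s x)‖ ≤ K * (K * |t|) * 2 := by
          refine (ContinuousLinearMap.opNorm_comp_le _ _).trans ?_
          have h4 : ‖fderiv ℝ X (Φ s x) - fderiv ℝ X x‖ ≤ K * (K * |t|) := by
            refine (hKL _ _).trans ?_
            have h5 := hnear s hs1 x
            have h6 : K * |s| ≤ K * |t| := by gcongr
            gcongr
            exact h5.trans h6
          have h5 := hA2 s hs1 x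
          gcongr
        have h4 : ‖(fderiv ℝ X x).comp (A s x - ContinuousLinearMap.id ℝ (Ed d))‖ ≤
            K * (C₂ * |t|) := by
          refine (ContinuousLinearMap.opNorm_comp_le _ _).trans ?_
          have h5 := hKD x
          have h6 : ‖A s x - ContinuousLinearMap.id ℝ (Ed d)‖ ≤ C₂ * |t| :=
            (hdn s hs1 x).trans (by gcongr)
          gcongr
        calc _ ≤ _ := norm_add_le _ _
          _ ≤ K * (K * |t|) * 2 + K * (C₂ * |t|) := add_le_add h3 h4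
          _ = _ := by ring)
      (convex_uIcc 0 t) left_mem_uIcc right_mem_uIcc
    have h0' : (0 : ℝ) • fderiv ℝ X x = 0 := bfc1_zero (fderiv ℝ X x)
    simp only [hA0, h0', sub_self, sub_zero] at h1
    refine h1.trans ?_
    have h7 : |t| * |t| = t ^ 2 := by rw [← sq, sq_abs]
    rw [Real.norm_eq_abs, mul_assoc, h7]
    exact mul_le_mul_of_nonneg_right hCC3 (sq_nonneg t)

end Pool.Agent.Lib.MP_79abb3_an.W.B
end

section

/-!
Theorem W, block B: the Lie derivative of a solution is a solution.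
-/

set_option autoImplicit false
set_option linter.unusedSectionVars false

open MeasureTheory Set Filter Topology Function
open scoped RealInnerProductSpace ENNReal NNReal

namespace Pool.Agent.Lib.MP_79abb3_an.W.B

variable {d : ℕ} {X : Ed d → Ed d} {τ C : ℝ} {Φ : ℝ → Ed d → Ed d} {D : Set (Ed d)}

private theorem bt9_cs {α : Type*} [MeasurableSpace α] {μ : Measure α} {E F : Type*} [NormedAddCommGroup E]
    [NormedAddCommGroup F] {a : α → E} {b : α → F} (ha : AEStronglyMeasurable a μ)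
    (hb : AEStronglyMeasurable b μ) (g : α → ℝ) (c : ℝ≥0) (h : ∀ x, ‖g x‖ₑ ≤ c * (‖a x‖ₑ * ‖b x‖ₑ)) :
    ‖∫ x, g x ∂μ‖ₑ ≤ c * (eLpNorm a 2 μ * eLpNorm b 2 μ) := by
  have h1 : eLpNorm (fun x => ‖a x‖ * ‖b x‖) 1 μ ≤
      ((1 : ℝ≥0) : ℝ≥0∞) * eLpNorm (fun x => ‖a x‖) 2 μ * eLpNorm (fun x => ‖b x‖) 2 μ :=
    eLpNorm_le_eLpNorm_mul_eLpNorm_of_nnnorm ha.norm hb.norm (fun x y => x * y) 1
      (Filter.Eventually.of_forall fun x => by rw [one_mul, nnnorm_mul])
  rw [eLpNorm_norm, eLpNorm_norm, eLpNorm_one_eq_lintegral_enorm, ENNReal.coe_one, one_mul] at h1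
  calc ‖∫ x, g x ∂μ‖ₑ ≤ ∫⁻ x, ‖g x‖ₑ ∂μ := enorm_integral_le_lintegral_enorm _
    _ ≤ ∫⁻ x, (c : ℝ≥0∞) * ‖‖a x‖ * ‖b x‖‖ₑ ∂μ := by
        refine lintegral_mono fun x => (h x).trans_eq ?_
        rw [enorm_mul, enorm_norm, enorm_norm]
    _ = c * ∫⁻ x, ‖‖a x‖ * ‖b x‖‖ₑ ∂μ := lintegral_const_mul' _ _ ENNReal.coe_ne_top
    _ ≤ _ := mul_le_mul_right h1 _

private theorem bt9_grad_cont {φ : Ed d → ℝ} (hφ : IsT1 φ) : Continuous (gradient φ) := by
  have h1 : Continuous (fderiv ℝ φ) := hφ.c1.continuous_fderiv one_ne_zero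
  exact (InnerProductSpace.toDual ℝ (Ed d)).symm.continuous.comp h1

private theorem bt9_grad_cpt {φ : Ed d → ℝ} (hφ : IsT1 φ) : HasCompactSupport (gradient φ) := by
  have h1 : HasCompactSupport (fderiv ℝ φ) := hφ.cpt.fderiv ℝ
  exact h1.comp_left (g := (InnerProductSpace.toDual ℝ (Ed d)).symm) (map_zero _)

private theorem bt9_grad_memLp {φ : Ed d → ℝ} (hφ : IsT1 φ) (μ : Measure (Ed d))
    [IsFiniteMeasureOnCompacts μ] : MemLp (gradient φ) 2 μ :=
  (bt9_grad_cont hφ).memLp_of_hasCompactSupport (bt9_grad_cpt hφ)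

private theorem bt9_neg {t τ : ℝ} (ht : t ∈ Ioo (-τ) τ) : -t ∈ Ioo (-τ) τ := ⟨by linarith [ht.2], by linarith [ht.1]⟩

private theorem bt9_Th_cont (hΦ : IsFl X τ C Φ) {t : ℝ} (ht : t ∈ Ioo (-τ) τ) : Continuous (Th Φ t) := by
  have h1 : Continuous (fderiv ℝ (Φ (-t))) := (hΦ.c1 _ (bt9_neg ht)).continuous_fderiv one_ne_zero
  have h2 : Continuous (fderiv ℝ (Φ t)) := (hΦ.c1 _ ht).continuous_fderiv one_ne_zero
  have h3 : Continuous (Φ (-t)) := (hΦ.c1 _ (bt9_neg ht)).continuous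
  have h4 : Continuous fun y => (fderiv ℝ (Φ (-t)) y).det := ContinuousLinearMap.continuous_det.comp h1
  have h5 : Continuous fun y => ContinuousLinearMap.adjoint (fderiv ℝ (Φ (-t)) y) :=
    (ContinuousLinearMap.adjoint (𝕜 := ℝ) (E := Ed d) (F := Ed d)).continuous.comp h1
  exact (h4.abs.smul (h2.comp h3)).sub h5

private theorem bt9_SX_cont (hX : Sm X) : Continuous (SX X) := by
  have h1 : Continuous (fderiv ℝ X) := hX.continuous_fderiv (by simp)
  have h5 : Continuous fun y => ContinuousLinearMap.adjoint (fderiv ℝ X y) :=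
    (ContinuousLinearMap.adjoint (𝕜 := ℝ) (E := Ed d) (F := Ed d)).continuous.comp h1
  have h6 : Continuous fun y => dv X y := (ContinuousLinearMap.continuous _).comp h1
  exact (h1.add h5).sub (h6.smul continuous_const)

private theorem bt9_SX_symm (X : Ed d → Ed d) (x v w : Ed d) : ⟪v, SX X x w⟫ = ⟪SX X x v, w⟫ := by
  unfold SX
  simp only [_root_.sub_apply, _root_.add_apply, _root_.smul_apply, ContinuousLinearMap.id_apply,
    inner_sub_right, inner_add_right, inner_sub_left, inner_add_left, inner_smul_left, inner_smul_right,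
    ContinuousLinearMap.adjoint_inner_left, ContinuousLinearMap.adjoint_inner_right]
  simp only [conj_trivial]
  ring

/-- Bound of the difference quotient: `quot_eq`, `inG_pb`, `InG.sub`, `InG.le_of_test` with
`v = pb Φ t γ - γ`, `w = pb Φ t F - F`; `Th_expand`, `eLpNorm_comp_le` (for `∇φ ∘ Φ (-t)`),
`eLpNorm_test_sub_le`, `eLpNorm_pb_sub_le`. -/
theorem eLpNorm_quot_le (hX : Sm X) (hc : HasCompactSupport X) (hΦ : IsFl X τ C Φ) (hP : Pres D τ Φ)
    (hD : IsOpen D) : ∃ (M : ℝ≥0) (τ' : ℝ), 0 < τ' ∧ τ' ≤ τ ∧ ∀ (F γ : Ed d → Ed d) (f : Ed d → ℝ),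
      IsQ D F f γ → SmOn F D → MemLp (lie X F) 2 (volume.restrict D) → ∀ t ∈ Ioo (-τ') τ',
      eLpNorm (fun x => pb Φ t γ x - γ x) 2 (volume.restrict D) ≤ M * ENNReal.ofReal |t| *
        (eLpNorm (lie X F) 2 (volume.restrict D) + eLpNorm (fun x => γ x - F x) 2 (volume.restrict D) +
          eLpNorm f 2 (volume.restrict D)) := by
  obtain ⟨M0, hM0⟩ := eLpNorm_comp_le hΦ hP hD
  obtain ⟨M1, hM1⟩ := eLpNorm_test_sub_le hX hc hΦ hP hD
  obtain ⟨M2, hM2⟩ := eLpNorm_pb_sub_le hX hΦ hP hD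
  obtain ⟨τ', M3, hτ0, hτ1, hM30, hM3⟩ := Th_expand hX hc hΦ
  refine ⟨M2 + M3.toNNReal * M0 + M1, τ', hτ0, hτ1, fun F γ f h hF hL t ht => ?_⟩
  have ht' : t ∈ Ioo (-τ) τ := ⟨by linarith [ht.1], by linarith [ht.2]⟩
  set μ : Measure (Ed d) := volume.restrict D with hμ
  have hγm := h.inG.mem
  have hg : MemLp (fun x => γ x - F x) 2 μ := hγm.sub h.memF
  have hv : InG D (fun x => pb Φ t γ x - γ x) := InG.sub (inG_pb hΦ hP hD ht' h.inG) h.inG
  have hw : MemLp (fun x => pb Φ t F x - F x) 2 μ := (memLp_pb hΦ hP hD ht' h.memF).sub h.memF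
  set Ng := eLpNorm (fun x => γ x - F x) 2 μ with hNg
  set Nf := eLpNorm f 2 μ with hNf
  set NL := eLpNorm (lie X F) 2 μ with hNL
  have hNgt : Ng ≠ ∞ := hg.2.ne
  have hNft : Nf ≠ ∞ := h.memf.2.ne
  set κ : ℝ := |t| * (M3 * M0 * Ng.toReal + M1 * Nf.toReal) with hκ
  have hκ0 : 0 ≤ κ := by positivity
  have hκe : ENNReal.ofReal κ = ENNReal.ofReal |t| * (M3.toNNReal * M0 * Ng + M1 * Nf) := by
    rw [hκ, ENNReal.ofReal_mul (abs_nonneg _), ENNReal.ofReal_add (by positivity) (by positivity),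
      ENNReal.ofReal_mul (by positivity), ENNReal.ofReal_mul (by positivity),
      ENNReal.ofReal_mul (by positivity), ENNReal.ofReal_toReal hNgt, ENNReal.ofReal_toReal hNft,
      ENNReal.ofReal_coe_nnreal, ENNReal.ofReal_coe_nnreal]
    rfl
  have hle : eLpNorm (fun x => pb Φ t γ x - γ x) 2 μ ≤
      eLpNorm (fun x => pb Φ t F x - F x) 2 μ + ENNReal.ofReal κ := by
    refine InG.le_of_test hv hw hκ0 fun φ hφ => ?_
    have hφm : MemLp (gradient φ) 2 μ := bt9_grad_memLp hφ μ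
    set Nφ := eLpNorm (gradient φ) 2 μ with hNφ
    have hNφt : Nφ ≠ ∞ := hφm.2.ne
    have hgc : MemLp (fun x => gradient φ (Φ (-t) x)) 2 μ := memLp_comp hΦ hP hD (bt9_neg ht') hφm
    have hI1 : ‖∫ x in D, ⟪γ x - F x, Th Φ t x (gradient φ (Φ (-t) x))⟫‖ₑ ≤
        ENNReal.ofReal |t| * (M3.toNNReal * M0 * Ng) * Nφ := by
      have h1 := bt9_cs hg.1 hgc.1 (fun x => ⟪γ x - F x, Th Φ t x (gradient φ (Φ (-t) x))⟫)
        (M3 * |t|).toNNReal fun x => by
          have h2 : ‖⟪γ x - F x, Th Φ t x (gradient φ (Φ (-t) x))⟫‖ ≤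
              (M3 * |t|) * (‖γ x - F x‖ * ‖gradient φ (Φ (-t) x)‖) := by
            calc ‖⟪γ x - F x, Th Φ t x (gradient φ (Φ (-t) x))⟫‖
                ≤ ‖γ x - F x‖ * ‖Th Φ t x (gradient φ (Φ (-t) x))‖ := norm_inner_le_norm _ _
              _ ≤ ‖γ x - F x‖ * ((M3 * |t|) * ‖gradient φ (Φ (-t) x)‖) := by
                  refine mul_le_mul_of_nonneg_left ?_ (norm_nonneg _)
                  exact ((Th Φ t x).le_opNorm _).trans
                    (mul_le_mul_of_nonneg_right (hM3 t ht x).1 (norm_nonneg _))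
              _ = _ := by ring
          rw [← ofReal_norm, ← ofReal_norm, ← ofReal_norm,
            ← ENNReal.ofReal_mul (norm_nonneg _)]
          change _ ≤ ENNReal.ofReal (M3 * |t|) * _
          rw [← ENNReal.ofReal_mul (by positivity)]
          exact ENNReal.ofReal_le_ofReal h2
      refine h1.trans ?_
      have h3 := hM0 (-t) (bt9_neg ht') (Ed d) (gradient φ)
      calc ((M3 * |t|).toNNReal : ℝ≥0∞) * (Ng * eLpNorm (fun x => gradient φ (Φ (-t) x)) 2 μ)
          ≤ ((M3 * |t|).toNNReal : ℝ≥0∞) * (Ng * (M0 * Nφ)) := by gcongr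
        _ = ENNReal.ofReal |t| * (M3.toNNReal * M0 * Ng) * Nφ := by
            have h4 : ((M3 * |t|).toNNReal : ℝ≥0∞) = (M3.toNNReal : ℝ≥0∞) * ENNReal.ofReal |t| := by
              change ENNReal.ofReal (M3 * |t|) = _
              rw [ENNReal.ofReal_mul hM30]
              rfl
            rw [h4]
            ring
    have hI2 : ‖∫ x in D, f x * (φ (Φ (-t) x) - φ x)‖ₑ ≤ ENNReal.ofReal |t| * (M1 * Nf) * Nφ := by
      have hcm : AEStronglyMeasurable (fun x => φ (Φ (-t) x) - φ x) μ :=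
        ((hφ.c1.continuous.comp (hΦ.c1 _ (bt9_neg ht')).continuous).sub
          hφ.c1.continuous).aestronglyMeasurable
      have h1 := bt9_cs h.memf.1 hcm (fun x => f x * (φ (Φ (-t) x) - φ x)) 1 fun x => by
        rw [ENNReal.coe_one, one_mul, enorm_mul]
      rw [ENNReal.coe_one, one_mul] at h1
      refine h1.trans ?_
      calc Nf * eLpNorm (fun x => φ (Φ (-t) x) - φ x) 2 μ
          ≤ Nf * (M1 * ENNReal.ofReal |t| * Nφ) := by
            gcongr
            exact hM1 φ hφ t ht'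
        _ = _ := by ring
    have hI : ‖∫ x in D, ⟪(pb Φ t γ x - γ x) - (pb Φ t F x - F x), gradient φ x⟫‖ₑ ≤
        ENNReal.ofReal κ * Nφ := by
      rw [quot_eq hΦ hP hD h ht' hφ, hκe]
      calc _ ≤ ‖∫ x in D, ⟪γ x - F x, Th Φ t x (gradient φ (Φ (-t) x))⟫‖ₑ +
            ‖∫ x in D, f x * (φ (Φ (-t) x) - φ x)‖ₑ := enorm_sub_le
        _ ≤ ENNReal.ofReal |t| * (M3.toNNReal * M0 * Ng) * Nφ +
            ENNReal.ofReal |t| * (M1 * Nf) * Nφ := add_le_add hI1 hI2
        _ = _ := by ring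
    have h5 := ENNReal.toReal_mono (ENNReal.mul_ne_top ENNReal.ofReal_ne_top hNφt) hI
    rw [ENNReal.toReal_mul, ENNReal.toReal_ofReal hκ0, toReal_enorm, Real.norm_eq_abs] at h5
    exact h5
  refine hle.trans ?_
  rw [hκe]
  calc eLpNorm (fun x => pb Φ t F x - F x) 2 μ + ENNReal.ofReal |t| * (M3.toNNReal * M0 * Ng + M1 * Nf)
      ≤ M2 * ENNReal.ofReal |t| * NL + ENNReal.ofReal |t| * (M3.toNNReal * M0 * Ng + M1 * Nf) := by
        gcongr
        exact hM2 F hF t ht'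
    _ = ENNReal.ofReal |t| * (M2 * NL + M3.toNNReal * M0 * Ng + M1 * Nf) := by ring
    _ ≤ ENNReal.ofReal |t| * ((M2 + M3.toNNReal * M0 + M1) * NL + (M2 + M3.toNNReal * M0 + M1) * Ng +
          (M2 + M3.toNNReal * M0 + M1) * Nf) := by
        gcongr
        · exact le_add_right le_self_add
        · exact le_add_right le_add_self
        · exact le_add_self
    _ = _ := by
        push_cast
        ring

private theorem bt9_pb_zero (hΦ : IsFl X τ C Φ) (u : Ed d → Ed d) : pb Φ 0 u = u := by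
  funext x
  have h1 : Φ 0 = fun x => x := funext hΦ.zero
  rw [pb, h1]
  simp [ContinuousLinearMap.adjoint_id]

private theorem bt9_seq {τ' : ℝ} (h : 0 < τ') : ∃ t : ℕ → ℝ, (∀ n, 0 < t n) ∧ (∀ n, t n < τ') ∧
    Tendsto t atTop (𝓝 0) := by
  refine ⟨fun n => τ' / (n + 2), fun n => by positivity, fun n => ?_, ?_⟩
  · have h1 : (0 : ℝ) < n + 2 := by positivity
    rw [div_lt_iff₀ h1]
    have h2 : (0 : ℝ) ≤ n := Nat.cast_nonneg n
    nlinarith
  · have h1 : Tendsto (fun n : ℕ => (n : ℝ) + 2) atTop atTop :=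
      tendsto_atTop_add_const_right _ _ tendsto_natCast_atTop_atTop
    exact h1.const_div_atTop τ'

private theorem bt9_pt (hX : Sm X) (hΦ : IsFl X τ C Φ) (hP : Pres D τ Φ) (hD : IsOpen D)
    {γ : Ed d → Ed d} (hγ : SmOn γ D) {t : ℕ → ℝ} (ht : ∀ n, 0 < t n) (htl : Tendsto t atTop (𝓝 0))
    {x : Ed d} (hx : x ∈ D) :
    Tendsto (fun n => (t n)⁻¹ • (pb Φ (t n) γ x - γ x)) atTop (𝓝 (lie X γ x)) := by
  have h0 : (0 : ℝ) ∈ Ioo (-τ) τ := ⟨by linarith [hΦ.pos], hΦ.pos⟩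
  have h1 := pb_hasDerivAt hX hΦ hP hD hγ h0 hx
  rw [bt9_pb_zero hΦ] at h1
  rw [hasDerivAt_iff_tendsto_slope] at h1
  have h2 : Tendsto t atTop (𝓝[≠] 0) := by
    rw [tendsto_nhdsWithin_iff]
    exact ⟨htl, Filter.Eventually.of_forall fun n => (ht n).ne'⟩
  have h3 := h1.comp h2
  refine h3.congr fun n => ?_
  simp only [Function.comp_apply, slope_def_module, sub_zero]
  rw [bt9_pb_zero hΦ]

/-- The Lie derivative is in `L²`: for `x ∈ D` the quotients `t⁻¹ (pb Φ t γ x - γ x)` converge to `lie X γ x`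
(`pb_hasDerivAt` at `0`), Fatou (`Lp.eLpNorm_lim_le_liminf_eLpNorm`) along `t = 1/(n+1)`. -/
theorem eLpNorm_lie_le (hX : Sm X) (hc : HasCompactSupport X) (hΦ : IsFl X τ C Φ) (hP : Pres D τ Φ)
    (hD : IsOpen D) : ∃ M : ℝ≥0, ∀ (F γ : Ed d → Ed d) (f : Ed d → ℝ),
      IsQ D F f γ → SmOn F D → SmOn γ D → MemLp (lie X F) 2 (volume.restrict D) →
      MemLp (lie X γ) 2 (volume.restrict D) ∧
      eLpNorm (lie X γ) 2 (volume.restrict D) ≤ M *
        (eLpNorm (lie X F) 2 (volume.restrict D) + eLpNorm (fun x => γ x - F x) 2 (volume.restrict D) +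
          eLpNorm f 2 (volume.restrict D)) := by
  obtain ⟨M, τ', hτ0, hτ1, hM⟩ := eLpNorm_quot_le hX hc hΦ hP hD
  obtain ⟨t, ht0, htτ, htl⟩ := bt9_seq hτ0
  refine ⟨M, fun F γ f h hF hγ hL => ?_⟩
  set μ : Measure (Ed d) := volume.restrict D with hμ
  have htm : ∀ n, t n ∈ Ioo (-τ) τ := fun n => ⟨by linarith [ht0 n, htτ n], by linarith [ht0 n, htτ n]⟩
  have htm' : ∀ n, t n ∈ Ioo (-τ') τ' := fun n => ⟨by linarith [ht0 n, htτ n], htτ n⟩
  have hγm := h.inG.mem
  have hq : ∀ n, MemLp (fun x => (t n)⁻¹ • (pb Φ (t n) γ x - γ x)) 2 μ := fun n =>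
    ((memLp_pb hΦ hP hD (htm n) hγm).sub hγm).const_smul (t n)⁻¹
  have hlim : ∀ᵐ x ∂μ, Tendsto (fun n => (t n)⁻¹ • (pb Φ (t n) γ x - γ x)) atTop (𝓝 (lie X γ x)) := by
    rw [hμ, ae_restrict_iff' hD.measurableSet]
    exact Filter.Eventually.of_forall fun x hx => bt9_pt hX hΦ hP hD hγ ht0 htl hx
  have hms : AEStronglyMeasurable (lie X γ) μ :=
    aestronglyMeasurable_of_tendsto_ae atTop (fun n => (hq n).1) hlim
  have hle : eLpNorm (lie X γ) 2 μ ≤ M * (eLpNorm (lie X F) 2 μ + eLpNorm (fun x => γ x - F x) 2 μ +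
          eLpNorm f 2 μ) := by
    refine (Lp.eLpNorm_lim_le_liminf_eLpNorm (p := 2) (fun n => (hq n).1) _ hlim).trans ?_
    refine Filter.liminf_le_of_le (by isBoundedDefault) fun b hb => ?_
    obtain ⟨n, hn⟩ := hb.exists
    refine hn.trans ?_
    have h1 : (fun x => (t n)⁻¹ • (pb Φ (t n) γ x - γ x)) = (t n)⁻¹ • fun x => pb Φ (t n) γ x - γ x := rfl
    rw [h1, eLpNorm_const_smul]
    have h2 := hM F γ f h hF hL (t n) (htm' n)
    have h3 : ‖(t n)⁻¹‖ₑ * ENNReal.ofReal |t n| = 1 := by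
      rw [← ofReal_norm, ← ENNReal.ofReal_mul (norm_nonneg _), Real.norm_eq_abs, ← abs_mul,
        inv_mul_cancel₀ (ht0 n).ne', abs_one, ENNReal.ofReal_one]
    calc ‖(t n)⁻¹‖ₑ * eLpNorm (fun x => pb Φ (t n) γ x - γ x) 2 μ
        ≤ ‖(t n)⁻¹‖ₑ * (M * ENNReal.ofReal |t n| *
          (eLpNorm (lie X F) 2 μ + eLpNorm (fun x => γ x - F x) 2 μ + eLpNorm f 2 μ)) := by gcongr
      _ = (‖(t n)⁻¹‖ₑ * ENNReal.ofReal |t n|) * (M *
          (eLpNorm (lie X F) 2 μ + eLpNorm (fun x => γ x - F x) 2 μ + eLpNorm f 2 μ)) := by ring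
      _ = _ := by rw [h3, one_mul]
  refine ⟨⟨hms, hle.trans_lt ?_⟩, hle⟩
  have hg : MemLp (fun x => γ x - F x) 2 μ := hγm.sub h.memF
  exact ENNReal.mul_lt_top ENNReal.coe_lt_top
    (ENNReal.add_lt_top.2 ⟨ENNReal.add_lt_top.2 ⟨hL.2, hg.2⟩, h.memf.2⟩)

private theorem bt9_inner_int {μ : Measure (Ed d)} {a b : Ed d → Ed d} (ha : MemLp a 2 μ) (hb : MemLp b 2 μ) :
    Integrable (fun x => ⟪a x, b x⟫) μ := by
  have h1 : Integrable (fun x => ‖a x‖ * ‖b x‖) μ := ha.norm.integrable_mul hb.norm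
  refine h1.mono' (ha.1.inner hb.1) (Filter.Eventually.of_forall fun x => ?_)
  exact norm_inner_le_norm _ _

private theorem bt9_clm {A : ℕ → Ed d →L[ℝ] Ed d} {A0 : Ed d →L[ℝ] Ed d} {v : ℕ → Ed d} {v0 : Ed d}
    (h1 : Tendsto A atTop (𝓝 A0)) (h3 : Tendsto v atTop (𝓝 v0)) :
    Tendsto (fun n => A n (v n)) atTop (𝓝 (A0 v0)) := by
  have h4 : Continuous fun p : (Ed d →L[ℝ] Ed d) × Ed d => p.1 p.2 := isBoundedBilinearMap_apply.continuous
  exact (h4.tendsto (A0, v0)).comp (h1.prodMk_nhds h3)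

/-- the matrix is bounded -/
private theorem bt9_SX_bdd {τ' M3 : ℝ} (hτ0 : 0 < τ') (hM3 : ∀ t ∈ Ioo (-τ') τ', ∀ y,
      ‖Th Φ t y‖ ≤ M3 * |t| ∧ ‖Th Φ t y - t • SX X y‖ ≤ M3 * t ^ 2) : ∃ B : ℝ, ∀ x, ‖SX X x‖ ≤ B := by
  have h1 : τ' / 2 ∈ Ioo (-τ') τ' := ⟨by linarith, by linarith⟩
  refine ⟨M3 + M3 * (τ' / 2), fun x => ?_⟩
  obtain ⟨h2, h3⟩ := hM3 _ h1 x
  have h4 : ‖(τ' / 2) • SX X x‖ ≤ M3 * |τ' / 2| + M3 * (τ' / 2) ^ 2 := by
    have h5 : (τ' / 2) • SX X x = Th Φ (τ' / 2) x - (Th Φ (τ' / 2) x - (τ' / 2) • SX X x) := by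
      rw [sub_sub_cancel]
    rw [h5]
    exact (norm_sub_le _ _).trans (add_le_add h2 h3)
  rw [norm_smul, Real.norm_eq_abs, abs_of_pos (by linarith)] at h4
  have h6 : 0 < τ' / 2 := by linarith
  refine le_of_mul_le_mul_left ?_ h6
  calc τ' / 2 * ‖SX X x‖ ≤ M3 * (τ' / 2) + M3 * (τ' / 2) ^ 2 := h4
    _ = τ' / 2 * (M3 + M3 * (τ' / 2)) := by ring

/-- first limit -/
private theorem bt9_lim1 {μ : Measure (Ed d)} {p q : ℕ → Ed d → Ed d} {p0 q0 g : Ed d → Ed d}
    (hp : ∀ n, MemLp (p n) 2 μ) (hq : ∀ n, MemLp (q n) 2 μ) (hp0 : MemLp p0 2 μ) (hq0 : MemLp q0 2 μ)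
    (hg : MemLp g 2 μ) (h1 : Tendsto (fun n => eLpNorm (fun x => p n x - p0 x) 2 μ) atTop (𝓝 0))
    (h2 : Tendsto (fun n => eLpNorm (fun x => q n x - q0 x) 2 μ) atTop (𝓝 0)) :
    Tendsto (fun n => ∫ x, ⟪p n x - q n x, g x⟫ ∂μ) atTop (𝓝 (∫ x, ⟪p0 x - q0 x, g x⟫ ∂μ)) := by
  rw [tendsto_iff_edist_tendsto_0]
  have h3 : Tendsto (fun n => (eLpNorm (fun x => p n x - p0 x) 2 μ + eLpNorm (fun x => q n x - q0 x) 2 μ) *
        eLpNorm g 2 μ) atTop (𝓝 0) := by
    have h4 := h1.add h2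
    rw [add_zero] at h4
    have h5 := ENNReal.Tendsto.mul_const (b := eLpNorm g 2 μ) h4 (Or.inr hg.2.ne)
    rw [zero_mul] at h5
    exact h5
  refine tendsto_of_tendsto_of_tendsto_of_le_of_le tendsto_const_nhds h3 (fun n => bot_le) fun n => ?_
  have hIa : Integrable (fun x => ⟪p n x - q n x, g x⟫) μ := bt9_inner_int ((hp n).sub (hq n)) hg
  have hIb : Integrable (fun x => ⟪p0 x - q0 x, g x⟫) μ := bt9_inner_int (hp0.sub hq0) hg
  simp only
  rw [edist_eq_enorm_sub, ← integral_sub hIa hIb]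
  have h6 : ∀ x, ⟪p n x - q n x, g x⟫ - ⟪p0 x - q0 x, g x⟫ =
      ⟪(p n x - p0 x) - (q n x - q0 x), g x⟫ := by
    intro x
    rw [← inner_sub_left]
    congr 1
    abel
  have hm1 : MemLp (fun x => p n x - p0 x) 2 μ := (hp n).sub hp0
  have hm2 : MemLp (fun x => q n x - q0 x) 2 μ := (hq n).sub hq0
  have h7 := bt9_cs (μ := μ) (hm1.sub hm2).1 hg.1
      (fun x => ⟪p n x - q n x, g x⟫ - ⟪p0 x - q0 x, g x⟫) 1
      fun x => by
        rw [h6, ENNReal.coe_one, one_mul, ← ofReal_norm, ← ofReal_norm, ← ofReal_norm,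
          ← ENNReal.ofReal_mul (norm_nonneg _)]
        exact ENNReal.ofReal_le_ofReal (norm_inner_le_norm _ _)
  rw [ENNReal.coe_one, one_mul] at h7
  refine h7.trans ?_
  gcongr
  exact eLpNorm_sub_le hm1.1 hm2.1 (by norm_num)

/-- second limit, pointwise -/
private theorem bt9_lim2p (hΦ : IsFl X τ C Φ) {τ' M3 : ℝ} (hM3 : ∀ t ∈ Ioo (-τ') τ', ∀ y,
      ‖Th Φ t y‖ ≤ M3 * |t| ∧ ‖Th Φ t y - t • SX X y‖ ≤ M3 * t ^ 2) {t : ℕ → ℝ} (ht0 : ∀ n, 0 < t n)
    (htm : ∀ n, t n ∈ Ioo (-τ) τ) (htm' : ∀ n, t n ∈ Ioo (-τ') τ') (htl : Tendsto t atTop (𝓝 0))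
    {φ : Ed d → ℝ} (hφ : IsT1 φ) (x : Ed d) :
    Tendsto (fun n => (t n)⁻¹ • Th Φ (t n) x (gradient φ (Φ (-t n) x))) atTop
      (𝓝 (SX X x (gradient φ x))) := by
  have h1 : Tendsto (fun n => (t n)⁻¹ • Th Φ (t n) x) atTop (𝓝 (SX X x)) := by
    rw [tendsto_iff_norm_sub_tendsto_zero]
    have h2 : Tendsto (fun n => M3 * t n) atTop (𝓝 0) := by
      have h3 := htl.const_mul M3
      rwa [mul_zero] at h3
    refine tendsto_of_tendsto_of_tendsto_of_le_of_le tendsto_const_nhds h2 (fun n => norm_nonneg _)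
      fun n => ?_
    simp only
    have h4 : (t n)⁻¹ • Th Φ (t n) x - SX X x = (t n)⁻¹ • (Th Φ (t n) x - t n • SX X x) := by
      rw [smul_sub, smul_smul, inv_mul_cancel₀ (ht0 n).ne', one_smul]
    rw [h4, norm_smul, norm_inv, Real.norm_eq_abs, abs_of_pos (ht0 n)]
    have h5 := (hM3 (t n) (htm' n) x).2
    calc (t n)⁻¹ * ‖Th Φ (t n) x - t n • SX X x‖ ≤ (t n)⁻¹ * (M3 * t n ^ 2) :=
          mul_le_mul_of_nonneg_left h5 (inv_pos.2 (ht0 n)).le
      _ = M3 * t n := by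
          have h2 := (ht0 n).ne'
          field_simp
  have h2 : Tendsto (fun n => Φ (-t n) x) atTop (𝓝 x) := by
    rw [tendsto_iff_norm_sub_tendsto_zero]
    have h3 : Tendsto (fun n => C * t n) atTop (𝓝 0) := by
      have h3 := htl.const_mul C
      rwa [mul_zero] at h3
    refine tendsto_of_tendsto_of_tendsto_of_le_of_le tendsto_const_nhds h3 (fun n => norm_nonneg _)
      fun n => ?_
    have h4 := hΦ.near _ (bt9_neg (htm n)) x
    rwa [abs_neg, abs_of_pos (ht0 n)] at h4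
  have h3 : Tendsto (fun n => gradient φ (Φ (-t n) x)) atTop (𝓝 (gradient φ x)) :=
    ((bt9_grad_cont hφ).tendsto x).comp h2
  exact bt9_clm h1 h3

/-- second limit -/
private theorem bt9_lim2 (hΦ : IsFl X τ C Φ) {τ' M3 : ℝ} (hM30 : 0 ≤ M3) (hM3 : ∀ t ∈ Ioo (-τ') τ', ∀ y,
      ‖Th Φ t y‖ ≤ M3 * |t| ∧ ‖Th Φ t y - t • SX X y‖ ≤ M3 * t ^ 2) {t : ℕ → ℝ} (ht0 : ∀ n, 0 < t n)
    (htm : ∀ n, t n ∈ Ioo (-τ) τ) (htm' : ∀ n, t n ∈ Ioo (-τ') τ') (htl : Tendsto t atTop (𝓝 0))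
    {φ : Ed d → ℝ} (hφ : IsT1 φ) {μ : Measure (Ed d)} [IsFiniteMeasure μ] {g : Ed d → Ed d}
    (hg : MemLp g 2 μ) :
    Tendsto (fun n => ∫ x, ⟪g x, (t n)⁻¹ • Th Φ (t n) x (gradient φ (Φ (-t n) x))⟫ ∂μ)
      atTop (𝓝 (∫ x, ⟪g x, SX X x (gradient φ x)⟫ ∂μ)) := by
  obtain ⟨Gφ, hGφ⟩ := (bt9_grad_cont hφ).bounded_above_of_compact_support (bt9_grad_cpt hφ)
  refine tendsto_integral_of_dominated_convergence (fun x => ‖g x‖ * (M3 * Gφ)) (fun n => ?_)
    ((hg.integrable (by norm_num)).norm.mul_const _) (fun n => ?_) ?_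
  · have h2 := bt9_Th_cont hΦ (htm n)
    have h3 : Continuous fun x => gradient φ (Φ (-t n) x) :=
      (bt9_grad_cont hφ).comp (hΦ.c1 _ (bt9_neg (htm n))).continuous
    have h4 : Continuous fun x => Th Φ (t n) x (gradient φ (Φ (-t n) x)) := h2.clm_apply h3
    have h1 : Continuous fun x => (t n)⁻¹ • Th Φ (t n) x (gradient φ (Φ (-t n) x)) :=
      (continuous_const (y := (t n)⁻¹)).smul h4
    exact hg.1.inner h1.aestronglyMeasurable
  · refine Filter.Eventually.of_forall fun x => ?_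
    refine (norm_inner_le_norm _ _).trans (mul_le_mul_of_nonneg_left ?_ (norm_nonneg _))
    rw [norm_smul, norm_inv, Real.norm_eq_abs, abs_of_pos (ht0 n)]
    have h1 := (hM3 (t n) (htm' n) x).1
    rw [abs_of_pos (ht0 n)] at h1
    calc (t n)⁻¹ * ‖Th Φ (t n) x (gradient φ (Φ (-t n) x))‖
        ≤ (t n)⁻¹ * ((M3 * t n) * Gφ) := by
          refine mul_le_mul_of_nonneg_left ?_ (inv_pos.2 (ht0 n)).le
          refine ((Th Φ (t n) x).le_opNorm _).trans ?_
          exact mul_le_mul h1 (hGφ _) (norm_nonneg _) (mul_nonneg hM30 (ht0 n).le)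
      _ = M3 * Gφ := by
          have h2 := (ht0 n).ne'
          field_simp
  · refine Filter.Eventually.of_forall fun x => ?_
    exact (tendsto_const_nhds (x := g x)).inner (bt9_lim2p hΦ hM3 ht0 htm htm' htl hφ x)

/-- third limit -/
private theorem bt9_lim3 (hX : Sm X) (hc : HasCompactSupport X) (hΦ : IsFl X τ C Φ) {t : ℕ → ℝ}
    (ht0 : ∀ n, 0 < t n) (htm : ∀ n, t n ∈ Ioo (-τ) τ) (htl : Tendsto t atTop (𝓝 0))
    {φ : Ed d → ℝ} (hφ : IsT1 φ) {μ : Measure (Ed d)} [IsFiniteMeasure μ] {f : Ed d → ℝ}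
    (hf : MemLp f 2 μ) :
    Tendsto (fun n => ∫ x, f x * ((t n)⁻¹ * (φ (Φ (-t n) x) - φ x)) ∂μ) atTop
      (𝓝 (∫ x, f x * (-⟪gradient φ x, X x⟫) ∂μ)) := by
  obtain ⟨Gφ, hGφ⟩ := (bt9_grad_cont hφ).bounded_above_of_compact_support (bt9_grad_cpt hφ)
  obtain ⟨CX, hCX⟩ := hX.continuous.bounded_above_of_compact_support hc
  have hG0 : 0 ≤ Gφ := (norm_nonneg _).trans (hGφ 0)
  refine tendsto_integral_filter_of_dominated_convergence (fun x => ‖f x‖ * (1 + Gφ * CX)) ?_ ?_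
    ((hf.integrable (by norm_num)).norm.mul_const _) ?_
  · refine Filter.Eventually.of_forall fun n => hf.1.mul ?_
    have h1 : Continuous fun x => (t n)⁻¹ * (φ (Φ (-t n) x) - φ x) :=
      continuous_const.mul ((hφ.c1.continuous.comp (hΦ.c1 _ (bt9_neg (htm n))).continuous).sub
        hφ.c1.continuous)
    exact h1.aestronglyMeasurable
  · obtain ⟨η, hη, hq⟩ := test_quot hX hc hΦ hφ one_pos
    filter_upwards [htl.eventually (eventually_lt_nhds hη)] with n hn
    refine Filter.Eventually.of_forall fun x => ?_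
    rw [norm_mul]
    refine mul_le_mul_of_nonneg_left ?_ (norm_nonneg _)
    have h1 := hq (t n) (abs_pos.2 (ht0 n).ne') (by rwa [abs_of_pos (ht0 n)]) x
    have h2 : |⟪gradient φ x, X x⟫| ≤ Gφ * CX :=
      (abs_real_inner_le_norm _ _).trans (mul_le_mul (hGφ x) (hCX x) (norm_nonneg _) hG0)
    rw [Real.norm_eq_abs]
    have h3 : (t n)⁻¹ * (φ (Φ (-t n) x) - φ x) =
        ((t n)⁻¹ * (φ (Φ (-t n) x) - φ x) + ⟪gradient φ x, X x⟫) - ⟪gradient φ x, X x⟫ := by ring
    rw [h3]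
    exact (abs_sub _ _).trans (add_le_add h1 h2)
  · refine Filter.Eventually.of_forall fun x => ?_
    refine (tendsto_const_nhds (x := f x)).mul ?_
    rw [Metric.tendsto_atTop']
    intro ε hε
    obtain ⟨η, hη, hq⟩ := test_quot hX hc hΦ hφ (half_pos hε)
    obtain ⟨N, hN⟩ := Filter.eventually_atTop.1 (htl.eventually (eventually_lt_nhds hη))
    refine ⟨N, fun n hn => ?_⟩
    have h1 := hq (t n) (abs_pos.2 (ht0 n).ne') (by rw [abs_of_pos (ht0 n)]; exact hN n hn.le) x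
    rw [Real.dist_eq, sub_neg_eq_add]
    linarith

/-- **The Lie derivative of a solution is a solution.** Divide `quot_eq` by `t` and let `t → 0`: `tendsto_quot` for `γ` and
`F` (the inner products converge by Cauchy-Schwarz), `Th_expand`, `test_grad`, `test_quot` (`D` has finite volume).
`lie X γ ∈ G(D)`: `inG_pb`, `InG.sub`, `InG.smul`, `InG.of_tendsto`, `tendsto_quot`. -/
theorem isQ_lie (hX : Sm X) (hc : HasCompactSupport X) (hΦ : IsFl X τ C Φ) (hP : Pres D τ Φ)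
    (hD : IsOpen D) (hb : Bornology.IsBounded D) {F γ : Ed d → Ed d} {f : Ed d → ℝ} (h : IsQ D F f γ)
    (hF : SmOn F D) (hγ : SmOn γ D) (hL : MemLp (lie X F) 2 (volume.restrict D)) :
    IsQ D (fun x => lie X F x + SX X x (γ x - F x) + f x • X x) (fun _ => 0) (lie X γ) := by
  obtain ⟨M, hlie⟩ := eLpNorm_lie_le hX hc hΦ hP hD
  obtain ⟨hLγ, -⟩ := hlie F γ f h hF hγ hL
  obtain ⟨τ', M3, hτ0, hτ1, hM30, hM3⟩ := Th_expand hX hc hΦ
  obtain ⟨t, ht0, htτ, htl⟩ := bt9_seq hτ0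
  have : IsFiniteMeasure (volume.restrict D) := ⟨by
    rw [Measure.restrict_apply_univ]
    exact hb.measure_lt_top⟩
  have htm : ∀ n, t n ∈ Ioo (-τ) τ := fun n => ⟨by linarith [ht0 n, htτ n], by linarith [ht0 n, htτ n]⟩
  have htm' : ∀ n, t n ∈ Ioo (-τ') τ' := fun n => ⟨by linarith [ht0 n, htτ n], htτ n⟩
  have htl' : Tendsto t atTop (𝓝[≠] 0) := by
    rw [tendsto_nhdsWithin_iff]
    exact ⟨htl, Filter.Eventually.of_forall fun n => (ht0 n).ne'⟩
  have hγm := h.inG.mem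
  have hg : MemLp (fun x => γ x - F x) 2 (volume.restrict D) := hγm.sub h.memF
  obtain ⟨CX, hCX⟩ := hX.continuous.bounded_above_of_compact_support hc
  obtain ⟨B, hB⟩ := bt9_SX_bdd hτ0 hM3
  have hSXm : MemLp (fun x => SX X x (γ x - F x)) 2 (volume.restrict D) := by
    refine hg.of_le_mul (c := B) ?_ (Filter.Eventually.of_forall fun x => ?_)
    · exact isBoundedBilinearMap_apply.continuous.comp_aestronglyMeasurable
        ((bt9_SX_cont hX).aestronglyMeasurable.prodMk hg.1)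
    · exact ((SX X x).le_opNorm _).trans (mul_le_mul_of_nonneg_right (hB x) (norm_nonneg _))
  have hfX : MemLp (fun x => f x • X x) 2 (volume.restrict D) := by
    refine h.memf.of_le_mul (c := CX) ?_ (Filter.Eventually.of_forall fun x => ?_)
    · exact h.memf.1.smul hX.continuous.aestronglyMeasurable
    · rw [norm_smul, mul_comm]
      exact mul_le_mul_of_nonneg_right (hCX x) (norm_nonneg _)
  have hqG : ∀ n, InG D (fun x => (t n)⁻¹ • (pb Φ (t n) γ x - γ x)) := fun n =>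
    InG.smul (InG.sub (inG_pb hΦ hP hD (htm n) h.inG) h.inG) _
  have hq1 := (tendsto_quot hX hΦ hP hD hb hγ hLγ).comp htl'
  have hq2 := (tendsto_quot hX hΦ hP hD hb hF hL).comp htl'
  refine ⟨(hL.add hSXm).add hfX, MemLp.zero', ?_, fun φ hφ => ?_⟩
  · exact InG.of_tendsto hLγ hqG hq1
  -- the equation
  have hφm : MemLp (gradient φ) 2 (volume.restrict D) := bt9_grad_memLp hφ _
  have hqF : ∀ n, MemLp (fun x => (t n)⁻¹ • (pb Φ (t n) F x - F x)) 2 (volume.restrict D) := fun n =>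
    ((memLp_pb hΦ hP hD (htm n) h.memF).sub h.memF).const_smul (t n)⁻¹
  have hA := bt9_lim1 (fun n => (hqG n).mem) hqF hLγ hL hφm hq1 hq2
  have hBl := bt9_lim2 hΦ hM30 hM3 ht0 htm htm' htl hφ hg
  have hCl := bt9_lim3 hX hc hΦ ht0 htm htl hφ h.memf
  have hAB : ∀ n, ∫ x in D, ⟪(t n)⁻¹ • (pb Φ (t n) γ x - γ x) -
      (t n)⁻¹ • (pb Φ (t n) F x - F x), gradient φ x⟫ =
      (∫ x in D, ⟪γ x - F x, (t n)⁻¹ • Th Φ (t n) x (gradient φ (Φ (-t n) x))⟫) -
        ∫ x in D, f x * ((t n)⁻¹ * (φ (Φ (-t n) x) - φ x)) := by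
    intro n
    have h1 := congrArg (fun r => (t n)⁻¹ * r) (quot_eq hΦ hP hD h (htm n) hφ)
    rw [mul_sub, ← integral_const_mul, ← integral_const_mul, ← integral_const_mul] at h1
    have h2 : ∀ x, ⟪(t n)⁻¹ • (pb Φ (t n) γ x - γ x) - (t n)⁻¹ • (pb Φ (t n) F x - F x), gradient φ x⟫ =
        (t n)⁻¹ * ⟪(pb Φ (t n) γ x - γ x) - (pb Φ (t n) F x - F x), gradient φ x⟫ := by
      intro x
      rw [← smul_sub, real_inner_smul_left]
    have h3 : ∀ x, ⟪γ x - F x, (t n)⁻¹ • Th Φ (t n) x (gradient φ (Φ (-t n) x))⟫ =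
        (t n)⁻¹ * ⟪γ x - F x, Th Φ (t n) x (gradient φ (Φ (-t n) x))⟫ := by
      intro x
      rw [real_inner_smul_right]
    have h4 : ∀ x, f x * ((t n)⁻¹ * (φ (Φ (-t n) x) - φ x)) = (t n)⁻¹ * (f x * (φ (Φ (-t n) x) - φ x)) := by
      intro x
      ring
    simp only [h2, h3, h4]
    exact h1
  have hlim : ∫ x in D, ⟪lie X γ x - lie X F x, gradient φ x⟫ =
      (∫ x in D, ⟪γ x - F x, SX X x (gradient φ x)⟫) - ∫ x in D, f x * (-⟪gradient φ x, X x⟫) :=
    tendsto_nhds_unique hA ((hBl.sub hCl).congr fun n => (hAB n).symm)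
  -- conclusion
  have hi0 : Integrable (fun x => ⟪lie X γ x - lie X F x, gradient φ x⟫) (volume.restrict D) :=
    bt9_inner_int (hLγ.sub hL) hφm
  have hi1 := bt9_inner_int hSXm hφm
  have hi2 := bt9_inner_int hfX hφm
  have h1 : ∀ x, ⟪lie X γ x - (lie X F x + SX X x (γ x - F x) + f x • X x), gradient φ x⟫ + 0 * φ x =
      (⟪lie X γ x - lie X F x, gradient φ x⟫ - ⟪SX X x (γ x - F x), gradient φ x⟫) -
        ⟪f x • X x, gradient φ x⟫ := by
    intro x
    rw [zero_mul, add_zero, ← inner_sub_left, ← inner_sub_left]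
    congr 1
    abel
  have h2 : ∫ x in D, ⟪f x • X x, gradient φ x⟫ = -∫ x in D, f x * (-⟪gradient φ x, X x⟫) := by
    rw [← integral_neg]
    refine integral_congr_ae (Filter.Eventually.of_forall fun x => ?_)
    simp only
    rw [real_inner_smul_left, real_inner_comm]
    ring
  have h3 : ∫ x in D, ⟪SX X x (γ x - F x), gradient φ x⟫ =
      ∫ x in D, ⟪γ x - F x, SX X x (gradient φ x)⟫ := by
    refine integral_congr_ae (Filter.Eventually.of_forall fun x => ?_)
    simp only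
    rw [bt9_SX_symm]
  simp only [h1]
  have hi3 : Integrable (fun x => ⟪lie X γ x - lie X F x, gradient φ x⟫ -
      ⟪SX X x (γ x - F x), gradient φ x⟫) (volume.restrict D) := hi0.sub hi1
  rw [integral_sub hi3 hi2, integral_sub hi0 hi1, h2, h3, hlim]
  ring

end Pool.Agent.Lib.MP_79abb3_an.W.B
end

section

/-!
Theorem W, block B: interior regularity of solutions.
-/

set_option autoImplicit false
set_option linter.unusedSectionVars false

open MeasureTheory Set Filter Topology Function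
open scoped RealInnerProductSpace ENNReal NNReal

namespace Pool.Agent.Lib.MP_79abb3_an.W.B

variable {d : ℕ} {D : Set (Ed d)} {z : Ed d → ℝ} {δ : ℝ}

private theorem be3_int_cont {f φ : Ed d → ℝ} (hf : ContinuousOn f D) (hφ : Continuous φ)
    (hc : HasCompactSupport φ) (hs : tsupport φ ⊆ D) : Integrable (fun x => f x * φ x) := by
  have h1 : IntegrableOn (fun x => f x * φ x) (tsupport φ) :=
    ((hf.mono hs).mul hφ.continuousOn).integrableOn_compact hc
  exact h1.integrable_of_forall_notMem_eq_zero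
    (fun x hx => by simp [image_eq_zero_of_notMem_tsupport hx])

private theorem be3_int_L2 {f φ : Ed d → ℝ} (hf : MemLp f 2 (volume.restrict D)) (hφ : Continuous φ)
    (hc : HasCompactSupport φ) (hs : tsupport φ ⊆ D) : Integrable (fun x => f x * φ x) := by
  have h1 : MemLp φ 2 (volume.restrict D) := (hφ.memLp_of_hasCompactSupport hc).restrict D
  have h2 : IntegrableOn (fun x => f x * φ x) D := hf.integrable_mul h1
  exact h2.integrable_of_forall_notMem_eq_zero
    (fun x hx => by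
      have : x ∉ tsupport φ := fun h => hx (hs h)
      simp [image_eq_zero_of_notMem_tsupport this])

private theorem be3_te_der {ψ : Ed d → ℝ} (hψ : IsTe D ψ) (v : Ed d) :
    IsTe D (fun y => fderiv ℝ ψ y v) where
  sm := by
    have h1 : Sm (fderiv ℝ ψ) := ContDiff.fderiv_right hψ.sm (by simp)
    exact h1.clm_apply contDiff_const
  cpt := hψ.cpt.fderiv_apply (𝕜 := ℝ) v
  supp := (tsupport_fderiv_apply_subset ℝ v).trans hψ.supp

private theorem be3_t1 {ψ : Ed d → ℝ} (hψ : IsTe D ψ) : IsT1 ψ where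
  c1 := hψ.sm.of_le (by norm_cast)
  cpt := hψ.cpt

private theorem be3_sum (v : Ed d) : v = ∑ i, v i • ee i := by
  have h := (EuclideanSpace.basisFun (Fin d) ℝ).sum_repr v
  simpa using h.symm

private theorem be3_inner (ψ : Ed d → ℝ) (v : Ed d) (x : Ed d) :
    ⟪v, gradient ψ x⟫ = ∑ i, v i * fderiv ℝ ψ x (ee i) := by
  rw [real_inner_comm, gradient, InnerProductSpace.toDual_symm_apply]
  conv_lhs => rw [be3_sum v]
  rw [map_sum]
  simp

private theorem be3_memLp_coord {F : Ed d → Ed d} (h : MemLp F 2 (volume.restrict D)) (i : Fin d) :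
    MemLp (fun x => F x i) 2 (volume.restrict D) := by
  have := (EuclideanSpace.proj (𝕜 := ℝ) i).comp_memLp' h
  exact this

private theorem be3_cont_coord {F : Ed d → Ed d} (h : SmOn F D) (i : Fin d) :
    SmOn (fun x => F x i) D := by
  exact (EuclideanSpace.proj (𝕜 := ℝ) i).contDiff.comp_contDiffOn h

private theorem be3_fderiv_coord {F : Ed d → Ed d} {x : Ed d} (h : DifferentiableAt ℝ F x) (i : Fin d)
    (v : Ed d) : fderiv ℝ (fun y => F y i) x v = fderiv ℝ F x v i := by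
  have h1 := ((EuclideanSpace.proj (𝕜 := ℝ) i).hasFDerivAt.comp x h.hasFDerivAt).fderiv
  have h2 : (fun y => F y i) = (EuclideanSpace.proj (𝕜 := ℝ) i) ∘ F := rfl
  rw [h2, h1]
  rfl

private theorem be3_diffAt {F : Ed d → Ed d} (hD : IsOpen D) (h : SmOn F D) {x : Ed d} (hx : x ∈ D) :
    DifferentiableAt ℝ F x :=
  (h.contDiffAt (hD.mem_nhds hx)).differentiableAt (by simp)

/-- integration by parts against a test function supported in the open set -/
private theorem be3_ibp_coord (hD : IsOpen D) {F : Ed d → Ed d} (hF : SmOn F D) {ψ : Ed d → ℝ}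
    (hψ : IsTe D ψ) (i : Fin d) :
    Integrable (fun x => F x i * fderiv ℝ ψ x (ee i)) ∧
    Integrable (fun x => fderiv ℝ F x (ee i) i * ψ x) ∧
    ∫ x, F x i * fderiv ℝ ψ x (ee i) = -∫ x, fderiv ℝ F x (ee i) i * ψ x := by
  have hte := be3_te_der hψ (ee i)
  have hFi : SmOn (fun x => F x i) D := be3_cont_coord hF i
  have hF' : ContinuousOn (fun x => fderiv ℝ F x (ee i) i) D := by
    have h1 : ContinuousOn (fderiv ℝ F) D :=
      hF.continuousOn_fderiv_of_isOpen hD (by norm_cast)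
    have h2 : ContinuousOn (fun x => fderiv ℝ F x (ee i)) D := h1.clm_apply continuousOn_const
    exact (EuclideanSpace.proj (𝕜 := ℝ) i).continuous.comp_continuousOn h2
  have i1 : Integrable (fun x => F x i * fderiv ℝ ψ x (ee i)) :=
    be3_int_cont hFi.continuousOn hte.sm.continuous hte.cpt hte.supp
  have i2 : Integrable (fun x => fderiv ℝ F x (ee i) i * ψ x) :=
    be3_int_cont hF' hψ.sm.continuous hψ.cpt hψ.supp
  have i3 : Integrable (fun x => F x i * ψ x) :=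
    be3_int_cont hFi.continuousOn hψ.sm.continuous hψ.cpt hψ.supp
  have e : ∀ x, fderiv ℝ (fun y => F y i) x (ee i) * ψ x = fderiv ℝ F x (ee i) i * ψ x := by
    intro x
    by_cases hx : x ∈ tsupport ψ
    · rw [be3_fderiv_coord (be3_diffAt hD hF (hψ.supp hx)) i]
    · simp [image_eq_zero_of_notMem_tsupport hx]
  refine ⟨i1, i2, ?_⟩
  have i2' : Integrable (fun x => fderiv ℝ (fun y => F y i) x (ee i) * ψ x) := by
    simp_rw [e]; exact i2
  have h := integral_mul_fderiv_eq_neg_fderiv_mul_of_integrable (μ := (volume : Measure (Ed d)))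
    (f := fun x => F x i) (g := ψ) (v := ee i) i2' i1 i3
    (fun x hx => (hFi.contDiffAt (hD.mem_nhds (hψ.supp hx))).differentiableAt (by simp))
    (fun x _ => hψ.sm.contDiffAt.differentiableAt (by simp))
  rw [h]
  simp_rw [e]

private theorem be3_ibp (hD : IsOpen D) {F : Ed d → Ed d} (hF : SmOn F D) {ψ : Ed d → ℝ}
    (hψ : IsTe D ψ) :
    Integrable (fun x => ⟪F x, gradient ψ x⟫) ∧ Integrable (fun x => divg F x * ψ x) ∧
    ∫ x, ⟪F x, gradient ψ x⟫ = -∫ x, divg F x * ψ x := by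
  have e1 : (fun x => ⟪F x, gradient ψ x⟫) = fun x => ∑ i, F x i * fderiv ℝ ψ x (ee i) := by
    funext x; exact be3_inner ψ (F x) x
  have e2 : (fun x => divg F x * ψ x) = fun x => ∑ i, fderiv ℝ F x (ee i) i * ψ x := by
    funext x; rw [divg, Finset.sum_mul]
  refine ⟨?_, ?_, ?_⟩
  · rw [e1]
    exact integrable_finsetSum _ (fun i _ => (be3_ibp_coord hD hF hψ i).1)
  · rw [e2]
    exact integrable_finsetSum _ (fun i _ => (be3_ibp_coord hD hF hψ i).2.1)
  · rw [e1, e2, integral_finsetSum _ (fun i _ => (be3_ibp_coord hD hF hψ i).1),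
      integral_finsetSum _ (fun i _ => (be3_ibp_coord hD hF hψ i).2.1), ← Finset.sum_neg_distrib]
    exact Finset.sum_congr rfl (fun i _ => (be3_ibp_coord hD hF hψ i).2.2)

private theorem be3_int_inner {F : Ed d → Ed d} (hF : MemLp F 2 (volume.restrict D)) {ψ : Ed d → ℝ}
    (hψ : IsTe D ψ) : Integrable (fun x => ⟪F x, gradient ψ x⟫) := by
  have e1 : (fun x => ⟪F x, gradient ψ x⟫) = fun x => ∑ i, F x i * fderiv ℝ ψ x (ee i) := by
    funext x; exact be3_inner ψ (F x) x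
  rw [e1]
  refine integrable_finsetSum _ (fun i _ => ?_)
  have hte := be3_te_der hψ (ee i)
  exact be3_int_L2 (be3_memLp_coord hF i) hte.sm.continuous hte.cpt hte.supp

private theorem be3_grad_zero {ψ : Ed d → ℝ} (hψ : IsTe D ψ) {x : Ed d} (hx : x ∉ D) :
    gradient ψ x = 0 ∧ ψ x = 0 := by
  have h1 : x ∉ tsupport ψ := fun h => hx (hψ.supp h)
  refine ⟨?_, image_eq_zero_of_notMem_tsupport h1⟩
  have h2 : fderiv ℝ ψ x = 0 := by
    have : x ∉ tsupport (fderiv ℝ ψ) := fun h => h1 (tsupport_fderiv_subset ℝ h)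
    exact image_eq_zero_of_notMem_tsupport this
  rw [gradient, h2, map_zero]

/-- the weak equation over the whole space -/
private theorem be3_eq {F γ : Ed d → Ed d} {f : Ed d → ℝ} (hQ : IsQ D F f γ) {ψ : Ed d → ℝ}
    (hψ : IsTe D ψ) :
    (∫ x, ⟪γ x, gradient ψ x⟫) - (∫ x, ⟪F x, gradient ψ x⟫) + ∫ x, f x * ψ x = 0 := by
  have h := hQ.eq ψ (be3_t1 hψ)
  rw [setIntegral_eq_integral_of_forall_compl_eq_zero (fun x hx => by
    obtain ⟨h1, h2⟩ := be3_grad_zero hψ hx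
    simp [h1, h2])] at h
  have i1 := be3_int_inner hQ.inG.mem hψ
  have i2 := be3_int_inner hQ.memF hψ
  have i3 := be3_int_L2 hQ.memf hψ.sm.continuous hψ.cpt hψ.supp
  have e : (fun x => ⟪γ x - F x, gradient ψ x⟫ + f x * ψ x) =
      fun x => (⟪γ x, gradient ψ x⟫ - ⟪F x, gradient ψ x⟫) + f x * ψ x := by
    funext x; rw [inner_sub_left]
  rw [e] at h
  have e2 := integral_add (i1.sub i2) i3
  have e3 := integral_sub i1 i2
  simp only [Pi.sub_apply] at e2
  rw [e2, e3] at h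
  exact h

/-- The weak Poisson equation `Δ q = div F + f`. (`InH.weak` for `∂_j ψ`, sum over `j`; `IsQ.eq` for `φ = ψ`; integrate
by parts `∫ ⟨F, ∇ψ⟩ = -∫ (div F) ψ` for `F` smooth on `D` and `ψ ∈ C_c^∞(D)`.) -/
theorem isQ_weak_laplace (hD : IsOpen D) {q : Ed d → ℝ} {γ F : Ed d → Ed d} {f : Ed d → ℝ} (h : InH D q γ)
    (hQ : IsQ D F f γ) (hF : SmOn F D) {ψ : Ed d → ℝ} (hψ : IsTe D ψ) :
    ∫ x, q x * lap ψ x = ∫ x, (divg F x + f x) * ψ x := by
  have h1 : ∫ x, q x * lap ψ x = -∫ x, ⟪γ x, gradient ψ x⟫ := by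
    have e1 : (fun x => q x * lap ψ x) =
        fun x => ∑ i, q x * fderiv ℝ (fun y => fderiv ℝ ψ y (ee i)) x (ee i) := by
      funext x; rw [lap, Finset.mul_sum]
    have e2 : (fun x => ⟪γ x, gradient ψ x⟫) = fun x => ∑ i, γ x i * fderiv ℝ ψ x (ee i) := by
      funext x; exact be3_inner ψ (γ x) x
    have i1 : ∀ i, Integrable (fun x => q x * fderiv ℝ (fun y => fderiv ℝ ψ y (ee i)) x (ee i)) := by
      intro i
      have hte := be3_te_der (be3_te_der hψ (ee i)) (ee i)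
      exact be3_int_L2 h.memq hte.sm.continuous hte.cpt hte.supp
    have i2 : ∀ i, Integrable (fun x => γ x i * fderiv ℝ ψ x (ee i)) := by
      intro i
      have hte := be3_te_der hψ (ee i)
      exact be3_int_L2 (be3_memLp_coord h.memg i) hte.sm.continuous hte.cpt hte.supp
    rw [e1, e2, integral_finsetSum _ (fun i _ => i1 i), integral_finsetSum _ (fun i _ => i2 i),
      ← Finset.sum_neg_distrib]
    exact Finset.sum_congr rfl (fun i _ => h.weak hD (be3_te_der hψ (ee i)) i)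
  have h2 := be3_eq hQ hψ
  obtain ⟨_, i3, h3⟩ := be3_ibp hD hF hψ
  have i4 := be3_int_L2 hQ.memf hψ.sm.continuous hψ.cpt hψ.supp
  have e : (fun x => (divg F x + f x) * ψ x) = fun x => divg F x * ψ x + f x * ψ x := by
    funext x; ring
  rw [h1, e, integral_add i3 i4]
  linarith

private theorem be3_smOn_divg (hD : IsOpen D) {F : Ed d → Ed d} (hF : SmOn F D) : SmOn (divg F) D := by
  have h1 : SmOn (fderiv ℝ F) D := hF.fderiv_of_isOpen hD (by simp)
  have h2 : SmOn (fun x => ∑ i, fderiv ℝ F x (ee i) i) D := by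
    refine ContDiffOn.sum (fun i _ => ?_)
    have h3 : SmOn (fun x => fderiv ℝ F x (ee i)) D := h1.clm_apply contDiffOn_const
    exact be3_cont_coord h3 i
  exact h2

private theorem be3_locInt {F : Ed d → ℝ} (hb : Bornology.IsBounded D)
    (h : MemLp F 2 (volume.restrict D)) : LocallyIntegrableOn F D := by
  have : IsFiniteMeasure (volume.restrict D) := by
    refine ⟨?_⟩
    rw [Measure.restrict_apply_univ]
    exact hb.measure_lt_top
  have h1 : IntegrableOn F D := h.integrable (by norm_num)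
  exact h1.locallyIntegrableOn

private theorem be3_gradient_coord (q : Ed d → ℝ) (x : Ed d) (i : Fin d) :
    gradient q x i = fderiv ℝ q x (ee i) := by
  have h := InnerProductSpace.toDual_symm_apply (𝕜 := ℝ) (E := Ed d) (x := ee i) (y := fderiv ℝ q x)
  rw [← h, gradient, real_inner_comm]
  simp [EuclideanSpace.inner_single_left]

/-- Interior regularity (`weyl`): `q` has a smooth representative `q'` and `γ = ∇q'` almost everywhere in `D`
(`InH.weak`, integration by parts, uniqueness of weak derivatives). -/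
theorem isQ_smooth (hD : IsOpen D) (hb : Bornology.IsBounded D) {q : Ed d → ℝ} {γ F : Ed d → Ed d}
    {f : Ed d → ℝ} (h : InH D q γ) (hQ : IsQ D F f γ) (hF : SmOn F D) (hf : SmOn f D) :
    ∃ q' : Ed d → ℝ, SmOn q' D ∧ q =ᵐ[volume.restrict D] q' ∧ γ =ᵐ[volume.restrict D] gradient q' := by
  obtain ⟨q', hq', hqq⟩ := weyl (u := q) (g := fun x => divg F x + f x) hD (be3_locInt hb h.memq)
    ((be3_smOn_divg hD hF).add hf) (fun φ hφ => isQ_weak_laplace hD h hQ hF hφ)
  refine ⟨q', hq', hqq, ?_⟩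
  have hae : ∀ᵐ x, x ∈ D → q x = q' x := (ae_restrict_iff' hD.measurableSet).1 hqq
  -- coordinates
  have key : ∀ j : Fin d, ∀ᵐ x, x ∈ D → γ x j - fderiv ℝ q' x (ee j) = 0 := by
    intro j
    have hc : ContinuousOn (fun x => fderiv ℝ q' x (ee j)) D :=
      (hq'.continuousOn_fderiv_of_isOpen hD (by norm_cast)).clm_apply continuousOn_const
    refine hD.ae_eq_zero_of_integral_contDiff_smul_eq_zero ?_ ?_
    · exact (be3_locInt hb (be3_memLp_coord h.memg j)).sub
        (hc.locallyIntegrableOn hD.measurableSet)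
    · intro ψ hψ1 hψ2 hψ3
      have hψ : IsTe D ψ := ⟨hψ1, hψ2, hψ3⟩
      have hte := be3_te_der hψ (ee j)
      have h1 := h.weak hD hψ j
      have i0 : Integrable (fun x => q' x * fderiv ℝ ψ x (ee j)) :=
        be3_int_cont hq'.continuousOn hte.sm.continuous hte.cpt hte.supp
      have i1 : Integrable (fun x => fderiv ℝ q' x (ee j) * ψ x) :=
        be3_int_cont hc hψ.sm.continuous hψ.cpt hψ.supp
      have i2 : Integrable (fun x => q' x * ψ x) :=
        be3_int_cont hq'.continuousOn hψ.sm.continuous hψ.cpt hψ.supp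
      have i3 : Integrable (fun x => γ x j * ψ x) :=
        be3_int_L2 (be3_memLp_coord h.memg j) hψ.sm.continuous hψ.cpt hψ.supp
      have h2 := integral_mul_fderiv_eq_neg_fderiv_mul_of_integrable (μ := (volume : Measure (Ed d)))
        (f := q') (g := ψ) (v := ee j) i1 i0 i2
        (fun x hx => (hq'.contDiffAt (hD.mem_nhds (hψ.supp hx))).differentiableAt (by simp))
        (fun x _ => hψ.sm.contDiffAt.differentiableAt (by simp))
      have h3 : ∫ x, q x * fderiv ℝ ψ x (ee j) = ∫ x, q' x * fderiv ℝ ψ x (ee j) := by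
        refine integral_congr_ae ?_
        filter_upwards [hae] with x hx
        by_cases hxD : x ∈ D
        · rw [hx hxD]
        · have : x ∉ tsupport (fun y => fderiv ℝ ψ y (ee j)) := fun h => hxD (hte.supp h)
          rw [image_eq_zero_of_notMem_tsupport (f := fun y => fderiv ℝ ψ y (ee j)) this]
          simp
      have e : (fun x => ψ x • (γ x j - fderiv ℝ q' x (ee j))) =
          fun x => γ x j * ψ x - fderiv ℝ q' x (ee j) * ψ x := by
        funext x; rw [smul_eq_mul]; ring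
      rw [e, integral_sub i3 i1]
      linarith
  have hall : ∀ᵐ x, ∀ j : Fin d, x ∈ D → γ x j - fderiv ℝ q' x (ee j) = 0 := ae_all_iff.2 key
  refine (ae_restrict_iff' hD.measurableSet).2 ?_
  filter_upwards [hall] with x hx hxD
  ext j
  rw [be3_gradient_coord]
  linarith [hx j hxD]

/-- Invariance under changes on null sets. -/
theorem IsQ.congr {γ γ' F : Ed d → Ed d} {f : Ed d → ℝ} (h : IsQ D F f γ)
    (hγ : γ =ᵐ[volume.restrict D] γ') : IsQ D F f γ' where
  memF := h.memF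
  memf := h.memf
  inG :=
    { mem := (memLp_congr_ae hγ).1 h.inG.mem
      ap := by
        intro ε hε
        obtain ⟨φ, h1, h2⟩ := h.inG.ap ε hε
        refine ⟨φ, h1, ?_⟩
        have e : eLpNorm (fun x => γ' x - gradient φ x) 2 (volume.restrict D) =
            eLpNorm (fun x => γ x - gradient φ x) 2 (volume.restrict D) :=
          eLpNorm_congr_ae (by filter_upwards [hγ] with x hx; rw [hx])
        exact e.trans_le h2 }
  eq := by
    intro φ hφ
    rw [← h.eq φ hφ]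
    refine integral_congr_ae ?_
    filter_upwards [hγ] with x hx
    rw [hx]

theorem InH.congr {q q' : Ed d → ℝ} {γ γ' : Ed d → Ed d} (h : InH D q γ) (hq : q =ᵐ[volume.restrict D] q')
    (hγ : γ =ᵐ[volume.restrict D] γ') : InH D q' γ' where
  memq := (memLp_congr_ae hq).1 h.memq
  memg := (memLp_congr_ae hγ).1 h.memg
  ap := by
    intro ε hε
    obtain ⟨φ, h1, h2, h3⟩ := h.ap ε hε
    refine ⟨φ, h1, ?_, ?_⟩
    · have e : eLpNorm (fun x => q' x - φ x) 2 (volume.restrict D) =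
          eLpNorm (fun x => q x - φ x) 2 (volume.restrict D) :=
        eLpNorm_congr_ae (by filter_upwards [hq] with x hx; rw [hx])
      exact e.trans_le h2
    · have e : eLpNorm (fun x => γ' x - gradient φ x) 2 (volume.restrict D) =
          eLpNorm (fun x => γ x - gradient φ x) 2 (volume.restrict D) :=
        eLpNorm_congr_ae (by filter_upwards [hγ] with x hx; rw [hx])
      exact e.trans_le h3

/-- Smooth solutions: symmetric second derivatives and the equation `div ∇q = div F + f` in `D`. -/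
theorem isQ_classical (hD : IsOpen D) {q : Ed d → ℝ} {F : Ed d → Ed d} {f : Ed d → ℝ} (hq : SmOn q D)
    (hQ : IsQ D F f (gradient q)) (hF : SmOn F D) (hf : SmOn f D) :
    (∀ x ∈ D, ∀ v w, ⟪fderiv ℝ (gradient q) x v, w⟫ = ⟪fderiv ℝ (gradient q) x w, v⟫) ∧
      ∀ x ∈ D, divg (gradient q) x = divg F x + f x := by
  have hg : SmOn (gradient q) D := by
    have h1 : SmOn (fderiv ℝ q) D := hq.fderiv_of_isOpen hD (by simp)
    exact ((InnerProductSpace.toDual ℝ (Ed d)).symm.toContinuousLinearEquiv.contDiff).comp_contDiffOn h1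
  constructor
  · intro x hx v w
    have hqx : ContDiffAt ℝ ((⊤ : ℕ∞) : WithTop ℕ∞) q x := hq.contDiffAt (hD.mem_nhds hx)
    have hsym : IsSymmSndFDerivAt ℝ q x := by
      refine hqx.isSymmSndFDerivAt ?_
      simp only [minSmoothness_of_isRCLikeNormedField]
      norm_cast
    have hd : DifferentiableAt ℝ (fderiv ℝ q) x :=
      ((hqx.fderiv_right (m := ((⊤ : ℕ∞) : WithTop ℕ∞)) (by simp))).differentiableAt (by simp)
    have hder : ∀ v w, ⟪fderiv ℝ (gradient q) x v, w⟫ = fderiv ℝ (fderiv ℝ q) x v w := by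
      intro v w
      have h1 := (((InnerProductSpace.toDual ℝ (Ed d)).symm.toContinuousLinearEquiv :
        (Ed d →L[ℝ] ℝ) ≃L[ℝ] Ed d).toContinuousLinearMap.hasFDerivAt.comp x hd.hasFDerivAt).fderiv
      have h2 : gradient q = ((InnerProductSpace.toDual ℝ (Ed d)).symm.toContinuousLinearEquiv :
        (Ed d →L[ℝ] ℝ) ≃L[ℝ] Ed d).toContinuousLinearMap ∘ fderiv ℝ q := rfl
      rw [h2, h1]
      exact InnerProductSpace.toDual_symm_apply
    rw [hder, hder]
    exact hsym v w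
  · -- the equation
    have hc : ContinuousOn (fun x => divg (gradient q) x - (divg F x + f x)) D :=
      (be3_smOn_divg hD hg).continuousOn.sub ((be3_smOn_divg hD hF).continuousOn.add hf.continuousOn)
    have hae : ∀ᵐ x, x ∈ D → divg (gradient q) x - (divg F x + f x) = 0 := by
      refine hD.ae_eq_zero_of_integral_contDiff_smul_eq_zero (hc.locallyIntegrableOn hD.measurableSet) ?_
      intro ψ hψ1 hψ2 hψ3
      have hψ : IsTe D ψ := ⟨hψ1, hψ2, hψ3⟩
      have h1 := be3_eq hQ hψ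
      obtain ⟨_, i1, h2⟩ := be3_ibp hD hg hψ
      obtain ⟨_, i2, h3⟩ := be3_ibp hD hF hψ
      have i3 := be3_int_L2 hQ.memf hψ.sm.continuous hψ.cpt hψ.supp
      have e : (fun x => ψ x • (divg (gradient q) x - (divg F x + f x))) =
          fun x => divg (gradient q) x * ψ x - (divg F x * ψ x + f x * ψ x) := by
        funext x; rw [smul_eq_mul]; ring
      have e2 := integral_sub i1 (i2.add i3)
      have e3 := integral_add i2 i3
      simp only [Pi.add_apply] at e2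
      rw [e, e2, e3]
      linarith
    have hEq : EqOn (fun x => divg (gradient q) x - (divg F x + f x)) (fun _ => (0 : ℝ)) D := by
      refine MeasureTheory.Measure.eqOn_open_of_ae_eq (μ := (volume : Measure (Ed d))) ?_ hD hc
        continuousOn_const
      exact (ae_restrict_iff' hD.measurableSet).2 hae
    intro x hx
    have := hEq hx
    simp only at this
    linarith

end Pool.Agent.Lib.MP_79abb3_an.W.B
end

section

/-!
Theorem W, block B: tangential regularity of solutions.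
-/

set_option autoImplicit false
set_option linter.unusedSectionVars false

open MeasureTheory Set Filter Topology Function
open scoped RealInnerProductSpace ENNReal NNReal

namespace Pool.Agent.Lib.MP_79abb3_an.W.B

variable {d : ℕ} {D : Set (Ed d)} {ι : Type} {N : ι → ℝ≥0∞} {G : Type} [NormedAddCommGroup G] [NormedSpace ℝ G]
  {G' : Type} [NormedAddCommGroup G'] [NormedSpace ℝ G'] {𝒱 : Set (Ed d → Ed d)} {Nf : Ed d → Ed d}

variable {z : Ed d → ℝ}

/-- The adjoint as a real linear map. -/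
private noncomputable def br7Adj (d : ℕ) : (Ed d →L[ℝ] Ed d) →L[ℝ] (Ed d →L[ℝ] Ed d) :=
  LinearMap.mkContinuous
    { toFun := fun T => ContinuousLinearMap.adjoint T
      map_add' := fun S T => map_add _ S T
      map_smul' := fun c T => by
        rw [map_smulₛₗ]
        rfl } 1 (fun T => by
      rw [one_mul]
      exact le_of_eq (LinearIsometryEquiv.norm_map _ T))

private theorem br7Adj_apply (T : Ed d →L[ℝ] Ed d) : br7Adj d T = ContinuousLinearMap.adjoint T := rfl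

private theorem br7_fd {X : Ed d → Ed d} (hX : Sm X) : Sm (fun x => fderiv ℝ X x) :=
  hX.fderiv_right (by norm_cast)

private theorem br7_adj {X : Ed d → Ed d} (hX : Sm X) :
    Sm (fun x => ContinuousLinearMap.adjoint (fderiv ℝ X x)) :=
  (br7Adj d).contDiff.comp (br7_fd hX)

private theorem br7_SX {X : Ed d → Ed d} (hX : Sm X) : Sm (SX X) := by
  have h1 : Sm (dv X) :=
    (fderiv ℝ (fun B : Ed d →L[ℝ] Ed d => B.det) (ContinuousLinearMap.id ℝ (Ed d))).contDiff.comp (br7_fd hX)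
  exact ((br7_fd hX).add (br7_adj hX)).sub (h1.smul contDiff_const)

private theorem br7_sub (hD : IsOpen D) (hb : Bornology.IsBounded D) (h𝒱 : ∀ X ∈ 𝒱, Sm X) {k : ℕ}
    {u v : ι → Ed d → G} (hu : TT D N 𝒱 k u) (hv : TT D N 𝒱 k v) :
    TT D N 𝒱 k (fun i x => u i x - v i x) := by
  have h1 : TT D N 𝒱 k (fun i x => (-ContinuousLinearMap.id ℝ G) (v i x)) :=
    TT.mul (A := fun _ => -ContinuousLinearMap.id ℝ G) hD hb h𝒱 contDiff_const hv
  refine TT.congr hD (fun i x _ => ?_) (TT.add hD hu h1)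
  rw [_root_.neg_apply, ContinuousLinearMap.id_apply, sub_eq_add_neg]

/-- `lie X u` of a family in `TT (k + 1)`. -/
private theorem br7_lie (hD : IsOpen D) (hb : Bornology.IsBounded D) (h𝒱 : ∀ X ∈ 𝒱, Sm X) {k : ℕ}
    {X : Ed d → Ed d} (hX : X ∈ 𝒱) {u : ι → Ed d → Ed d} (hu : TT D N 𝒱 (k + 1) u) :
    TT D N 𝒱 k (fun i => lie X (u i)) := by
  have h1 : TT D N 𝒱 k (fun i x => fderiv ℝ (u i) x (X x)) := hu.2 X hX
  have h2 : TT D N 𝒱 k (fun i x => ContinuousLinearMap.adjoint (fderiv ℝ X x) (u i x)) :=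
    TT.mul hD hb h𝒱 (br7_adj (h𝒱 X hX)) hu.mono
  exact TT.add hD h1 h2

private theorem br7_memLp (hD : IsOpen D) (hN : ∀ i, N i ≠ ⊤) {u : ι → Ed d → G} (hu : T0 D N u) (i : ι) :
    MemLp (u i) 2 (volume.restrict D) := by
  obtain ⟨h1, C, hC⟩ := hu
  refine ⟨(h1 i).continuousOn.aestronglyMeasurable hD.measurableSet, (hC i).trans_lt ?_⟩
  exact ENNReal.mul_lt_top ENNReal.coe_lt_top (lt_top_iff_ne_top.mpr (hN i))

/-- The Lie derivative of the solutions is tame. -/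
private theorem br7_base (hD : IsOpen D) (hb : Bornology.IsBounded D) (hz : Sm z) (hDz : D = {x | 0 < z x})
    (h𝒱 : ∀ X ∈ 𝒱, IsTan z X) (hN : ∀ i, N i ≠ ⊤) {F γ : ι → Ed d → Ed d} {f : ι → Ed d → ℝ}
    (h : ∀ i, IsQ D (F i) (f i) (γ i)) (hF : TT D N 𝒱 1 F) (hf : T0 D N f) (hγ : T0 D N γ)
    {X : Ed d → Ed d} (hX : X ∈ 𝒱) : T0 D N (fun i => lie X (γ i)) := by
  have hS : ∀ X ∈ 𝒱, Sm X := fun X hX => (h𝒱 X hX).sm
  have hXs : Sm X := hS X hX
  obtain ⟨τ, C, Φ, hΦ⟩ := exists_flow hXs (h𝒱 X hX).cpt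
  have hP := hΦ.pres hz (h𝒱 X hX) hDz
  obtain ⟨M, hM⟩ := eLpNorm_lie_le hXs (h𝒱 X hX).cpt hΦ hP hD
  have hLF : T0 D N (fun i => lie X (F i)) := br7_lie (k := 0) hD hb hS hX hF
  have hγF : T0 D N (fun i x => γ i x - F i x) := br7_sub (k := 0) (𝒱 := 𝒱) hD hb hS hγ hF.base
  have hM' := fun i => hM (F i) (γ i) (f i) (h i) (hF.base.1 i) (hγ.1 i) (br7_memLp hD hN hLF i)
  refine ⟨fun i => ?_, ?_⟩
  · have h1 : SmOn (fun x => fderiv ℝ (γ i) x (X x)) D :=
      ((hγ.1 i).fderiv_of_isOpen hD (by norm_cast)).clm_apply hXs.contDiffOn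
    have h2 : SmOn (fun x => ContinuousLinearMap.adjoint (fderiv ℝ X x) (γ i x)) D :=
      (br7_adj hXs).contDiffOn.clm_apply (hγ.1 i)
    exact h1.add h2
  · obtain ⟨C1, hC1⟩ := hLF.2
    obtain ⟨C2, hC2⟩ := hγF.2
    obtain ⟨C3, hC3⟩ := hf.2
    refine ⟨M * (C1 + C2 + C3), fun i => (hM' i).2.trans ?_⟩
    calc (M : ℝ≥0∞) * (eLpNorm (lie X (F i)) 2 (volume.restrict D) +
          eLpNorm (fun x => γ i x - F i x) 2 (volume.restrict D) + eLpNorm (f i) 2 (volume.restrict D))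
        ≤ M * (C1 * N i + C2 * N i + C3 * N i) := by
          gcongr
          · exact hC1 i
          · exact hC2 i
          · exact hC3 i
      _ = _ := by
          push_cast
          ring

/-- From `lie X γ` to `γ`. -/
private theorem br7_up (hD : IsOpen D) (hb : Bornology.IsBounded D) (h𝒱 : ∀ X ∈ 𝒱, Sm X) {k : ℕ}
    {γ : ι → Ed d → Ed d} (hγ : TT D N 𝒱 k γ) (h : ∀ X ∈ 𝒱, TT D N 𝒱 k (fun i => lie X (γ i))) :
    TT D N 𝒱 (k + 1) γ := by
  refine ⟨hγ.base, fun X hX => ?_⟩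
  have h2 : TT D N 𝒱 k (fun i x => ContinuousLinearMap.adjoint (fderiv ℝ X x) (γ i x)) :=
    TT.mul hD hb h𝒱 (br7_adj (h𝒱 X hX)) hγ
  refine TT.congr hD (fun i x _ => ?_) (br7_sub hD hb h𝒱 (h X hX) h2)
  unfold lie
  rw [add_sub_cancel_right]

/-- The new right hand side. -/
private theorem br7_rhs (hD : IsOpen D) (hb : Bornology.IsBounded D) (h𝒱 : ∀ X ∈ 𝒱, Sm X) {k : ℕ}
    {F γ : ι → Ed d → Ed d} {f : ι → Ed d → ℝ} (hF : TT D N 𝒱 (k + 1) F) (hγ : TT D N 𝒱 k γ)
    (hf : TT D N 𝒱 k f) {X : Ed d → Ed d} (hX : X ∈ 𝒱) :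
    TT D N 𝒱 k (fun i x => lie X (F i) x + SX X x (γ i x - F i x) + f i x • X x) := by
  have h1 := br7_lie hD hb h𝒱 hX hF
  have h2 : TT D N 𝒱 k (fun i x => SX X x (γ i x - F i x)) :=
    TT.mul hD hb h𝒱 (br7_SX (h𝒱 X hX)) (br7_sub hD hb h𝒱 hγ hF.mono)
  have h3 : TT D N 𝒱 k (fun i x => (ContinuousLinearMap.toSpanSingleton ℝ (X x)) (f i x)) :=
    TT.mul (A := fun x => ContinuousLinearMap.toSpanSingleton ℝ (X x)) hD hb h𝒱
      ((ContinuousLinearMap.toSpanSingletonCLE (𝕜 := ℝ) (E := Ed d)).contDiff.comp (h𝒱 X hX)) hf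
  refine TT.congr hD (fun i x _ => ?_) (TT.add hD (TT.add hD h1 h2) h3)
  rw [ContinuousLinearMap.toSpanSingleton_apply]

/-- **Tangential regularity.** Induction on `k` for all families. Let `X ∈ 𝒱` with flow `Φ` (`exists_flow`, `IsFl.pres`).
`lie X γ` is tame by `eLpNorm_lie_le`, and it solves the equation with `F' = lie X F + S_X (γ - F) + f X`, `f' = 0`
(`isQ_lie`). Case `k = 0`: `δ_X γ = lie X γ - (DX)ᵀ γ`. Step: `TT (k + 1) γ` by induction, so `TT (k + 1) F'`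
(`TT.add`, `TT.mul`), so `TT (k + 1) (lie X γ)` by induction. -/
theorem tt_Q (hD : IsOpen D) (hb : Bornology.IsBounded D) (hz : Sm z) (hDz : D = {x | 0 < z x})
    (h𝒱 : ∀ X ∈ 𝒱, IsTan z X) (hN : ∀ i, N i ≠ ⊤) {k : ℕ} {F γ : ι → Ed d → Ed d} {f : ι → Ed d → ℝ}
    (h : ∀ i, IsQ D (F i) (f i) (γ i)) (hF : TT D N 𝒱 (k + 1) F) (hf : TT D N 𝒱 k f) (hγ : T0 D N γ) :
    TT D N 𝒱 (k + 1) γ := by
  have hS : ∀ X ∈ 𝒱, Sm X := fun X hX => (h𝒱 X hX).sm
  induction k generalizing F γ f with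
  | zero =>
    exact br7_up hD hb hS hγ fun X hX => br7_base hD hb hz hDz h𝒱 hN h hF hf hγ hX
  | succ k ih =>
    have hγ1 : TT D N 𝒱 (k + 1) γ := ih h hF.mono hf.mono hγ
    refine br7_up hD hb hS hγ1 fun X hX => ?_
    have hXs : Sm X := hS X hX
    obtain ⟨τ, C, Φ, hΦ⟩ := exists_flow hXs (h𝒱 X hX).cpt
    have hP := hΦ.pres hz (h𝒱 X hX) hDz
    have hF1 : TT D N 𝒱 1 F := ⟨hF.base, fun Y hY => (hF.2 Y hY).base⟩
    have hLF : T0 D N (fun i => lie X (F i)) := (br7_lie hD hb hS hX hF).base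
    refine ih (F := fun i x => lie X (F i) x + SX X x (γ i x - F i x) + f i x • X x)
      (f := fun _ _ => 0) (fun i => ?_) (br7_rhs hD hb hS hF hγ1 hf hX) TT.zero
      (br7_base hD hb hz hDz h𝒱 hN h hF1 hf.base hγ hX)
    exact isQ_lie hXs (h𝒱 X hX).cpt hΦ hP hD hb (h i) (hF.base.1 i) (hγ.1 i) (br7_memLp hD hN hLF i)

end Pool.Agent.Lib.MP_79abb3_an.W.B
end

section

/-!
Theorem W, block B: regularity up to the boundary.
-/

set_option autoImplicit false
set_option linter.unusedSectionVars false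

open MeasureTheory Set Filter Topology Function
open scoped RealInnerProductSpace ENNReal NNReal

namespace Pool.Agent.Lib.MP_79abb3_an.W.B

variable {d : ℕ} {D : Set (Ed d)} {z : Ed d → ℝ} {δ : ℝ}

private theorem bm1_grad (hD : IsOpen D) {q : Ed d → ℝ} (hq : SmOn q D) : SmOn (gradient q) D := by
  rw [SmOn, contDiffOn_euclidean]
  intro i
  have h1 : SmOn (fun x => fderiv ℝ q x (ee i)) D :=
    (hq.fderiv_of_isOpen hD (by simp)).clm_apply contDiffOn_const
  refine h1.congr fun x _ => ?_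
  exact bg3_coord q x i

private theorem bm1_divg (hD : IsOpen D) (hb : Bornology.IsBounded D) {ι : Type} {N : ι → ℝ≥0∞} {K : ℕ}
    {F : ι → Ed d → Ed d} (hF : PT D N (K + 1) F) : PT D N K (fun i => divg (F i)) := by
  have h1 : ∀ j : Fin d, PT D N K (fun i x => (EuclideanSpace.proj j : Ed d →L[ℝ] ℝ)
      (fderiv ℝ (F i) x (ee j))) := fun j =>
    PT.mul (A := fun _ => (EuclideanSpace.proj j : Ed d →L[ℝ] ℝ)) hD hb contDiff_const (hF.2 j)
  exact PT.congr hD (fun i x _ => rfl) (PT.sum hD h1)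

/-- **Regularity up to the boundary.** `Dom.frame`; `PT.tt`, `tt_Q` give `TT (K + 1)` for the gradients; `isQ_classical`
gives symmetry and `divg ∇q = divg F + f` (`PT K`, `PT.dir`); `ff_of_curl`, `PT.of_ff`. -/
theorem reg_main (h : Dom D z δ) {ι : Type} {N : ι → ℝ≥0∞} (hN : ∀ i, N i ≠ ⊤) {K : ℕ}
    {F : ι → Ed d → Ed d} {f q : ι → Ed d → ℝ} (hQ : ∀ i, IsQ D (F i) (f i) (gradient (q i)))
    (hq : ∀ i, SmOn (q i) D) (hF : PT D N (K + 1) F) (hf : PT D N K f) (h0 : Tame D N (fun i => gradient (q i))) :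
    PT D N (K + 1) (fun i => gradient (q i)) := by
  have hD := h.isOpen
  have hb := h.bdd
  obtain ⟨Nf, hfr⟩ := h.frame
  have hS : ∀ X ∈ {X | IsTan z X}, Sm X := fun X hX => (hfr.tan X hX).sm
  have hγ0 : T0 D N (fun i => gradient (q i)) := ⟨fun i => bm1_grad hD (hq i), h0⟩
  have hγ : TT D N {X | IsTan z X} (K + 1) (fun i => gradient (q i)) :=
    tt_Q hD hb h.sm h.eq (fun X hX => hfr.tan X hX) hN hQ (PT.tt hD hb hS hF) (PT.tt hD hb hS hf) hγ0
  have hcl := fun i => isQ_classical hD (hq i) (hQ i) (hF.base.1 i) (hf.base.1 i)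
  have hg : PT D N K (fun i => divg (gradient (q i))) :=
    PT.congr hD (fun i x hx => ((hcl i).2 x hx).symm) (PT.add hD (bm1_divg hD hb hF) hf)
  exact PT.of_ff hD hb hfr fun m => ff_of_curl hD hb hfr hγ (fun i => (hcl i).1) hg m

end Pool.Agent.Lib.MP_79abb3_an.W.B
end

section

/-!
Theorem W, block B: estimates in `H^k`.
-/

set_option autoImplicit false
set_option linter.unusedSectionVars false

open MeasureTheory Set Filter Topology Function
open scoped RealInnerProductSpace ENNReal NNReal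

namespace Pool.Agent.Lib.MP_79abb3_an.W.B

variable {d : ℕ} {D : Set (Ed d)} {z : Ed d → ℝ} {δ : ℝ}

private theorem bm2_enorm0 {G : Type} [NormedAddCommGroup G] [NormedSpace ℝ G] (u : Ed d → G) :
    eLpNorm (fun x => iteratedFDeriv ℝ 0 u x) 2 (volume.restrict D) = eLpNorm u 2 (volume.restrict D) := by
  refine eLpNorm_congr_norm_ae (ae_of_all _ fun x => ?_)
  rw [norm_iteratedFDeriv_zero]

private theorem bm2_le_Hn {G : Type} [NormedAddCommGroup G] [NormedSpace ℝ G] (u : Ed d → G) {j k : ℕ} (h : j ≤ k) :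
    eLpNorm (fun x => iteratedFDeriv ℝ j u x) 2 (volume.restrict D) ≤ Hn D k u := by
  unfold Hn
  exact Finset.single_le_sum (f := fun j => eLpNorm (fun x => iteratedFDeriv ℝ j u x) 2 (volume.restrict D))
    (fun _ _ => zero_le) (Finset.mem_range.mpr (Nat.lt_succ_of_le h))

/-- From tame iterated derivatives to a bound for `Hn`. -/
private theorem bm2_sum {ι : Type} {N : ι → ℝ≥0∞} {G : Type} [NormedAddCommGroup G] [NormedSpace ℝ G]
    {u : ι → Ed d → G} {k : ℕ} (h : ∀ j ≤ k, Tame D N (fun i x => iteratedFDeriv ℝ j (u i) x)) :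
    ∃ C : ℝ≥0, ∀ i, Hn D k (u i) ≤ C * N i := by
  induction k with
  | zero =>
    obtain ⟨C, hC⟩ := h 0 le_rfl
    refine ⟨C, fun i => ?_⟩
    simpa [Hn] using hC i
  | succ k ih =>
    obtain ⟨C, hC⟩ := ih fun j hj => h j (hj.trans (Nat.le_succ k))
    obtain ⟨C', hC'⟩ := h (k + 1) le_rfl
    refine ⟨C + C', fun i => ?_⟩
    have h1 : Hn D (k + 1) (u i) = Hn D k (u i) +
        eLpNorm (fun x => iteratedFDeriv ℝ (k + 1) (u i) x) 2 (volume.restrict D) := by
      unfold Hn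
      rw [Finset.sum_range_succ]
    rw [h1, ENNReal.coe_add, add_mul]
    exact add_le_add (hC i) (hC' i)

/-- The common part of the two estimates. -/
private theorem bm2_est (h : Dom D z δ) (K : ℕ) : ∃ C : ℝ≥0, ∀ (F : Ed d → Ed d) (f q : Ed d → ℝ), SmOn F D →
    SmOn f D → SmOn q D → IsQ D F f (gradient q) →
    Hn D (K + 1) (gradient q) ≤ C * (Hn D (K + 1) F + Hn D K f) := by
  obtain ⟨C0, hC0⟩ := isQ_bound h.isOpen h.bdd h.poincare
  let ι : Type := {p : (Ed d → Ed d) × (Ed d → ℝ) × (Ed d → ℝ) // SmOn p.1 D ∧ SmOn p.2.1 D ∧ SmOn p.2.2 D ∧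
    IsQ D p.1 p.2.1 (gradient p.2.2) ∧ Hn D (K + 1) p.1 + Hn D K p.2.1 ≠ ⊤}
  let N : ι → ℝ≥0∞ := fun p => Hn D (K + 1) p.1.1 + Hn D K p.1.2.1
  have hF : PT D N (K + 1) (fun p : ι => p.1.1) := by
    rw [PT.iff h.isOpen]
    refine ⟨fun p => p.2.1, fun j hj => ⟨1, fun p => ?_⟩⟩
    rw [ENNReal.coe_one, one_mul]
    exact (bm2_le_Hn p.1.1 hj).trans le_self_add
  have hf : PT D N K (fun p : ι => p.1.2.1) := by
    rw [PT.iff h.isOpen]
    refine ⟨fun p => p.2.2.1, fun j hj => ⟨1, fun p => ?_⟩⟩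
    rw [ENNReal.coe_one, one_mul]
    exact (bm2_le_Hn p.1.2.1 hj).trans le_add_self
  have h0 : Tame D N (fun p : ι => gradient p.1.2.2) := by
    refine ⟨1 + C0, fun p => ?_⟩
    have h1 := hC0 p.1.1 (gradient p.1.2.2) p.1.2.1 p.2.2.2.2.1 (IsQ.mean h.bdd p.2.2.2.2.1 h.isOpen)
    have h2 : eLpNorm p.1.1 2 (volume.restrict D) ≤ N p := by
      rw [← bm2_enorm0]
      exact (bm2_le_Hn p.1.1 (Nat.zero_le _)).trans le_self_add
    have h3 : eLpNorm p.1.2.1 2 (volume.restrict D) ≤ N p := by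
      rw [← bm2_enorm0]
      exact (bm2_le_Hn p.1.2.1 (Nat.zero_le _)).trans le_add_self
    refine h1.trans ?_
    rw [ENNReal.coe_add, ENNReal.coe_one, add_mul, one_mul]
    exact add_le_add h2 (by gcongr)
  have h1 := reg_main h (ι := ι) (N := N) (fun p => p.2.2.2.2.2) (K := K) (F := fun p => p.1.1)
    (f := fun p => p.1.2.1) (q := fun p => p.1.2.2) (fun p => p.2.2.2.2.1) (fun p => p.2.2.2.1) hF hf h0
  rw [PT.iff h.isOpen] at h1
  obtain ⟨C, hC⟩ := bm2_sum h1.2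
  refine ⟨C + 1, fun F f q hFs hfs hqs hQ => ?_⟩
  by_cases htop : Hn D (K + 1) F + Hn D K f = ⊤
  · rw [htop]
    have : ((C + 1 : ℝ≥0) : ℝ≥0∞) * ⊤ = ⊤ := by
      refine ENNReal.mul_top ?_
      rw [ENNReal.coe_ne_zero]
      positivity
    rw [this]
    exact le_top
  · have h2 := hC ⟨(F, f, q), hFs, hfs, hqs, hQ, htop⟩
    refine h2.trans ?_
    show (C : ℝ≥0∞) * (Hn D (K + 1) F + Hn D K f) ≤ ((C + 1 : ℝ≥0) : ℝ≥0∞) * (Hn D (K + 1) F + Hn D K f)
    gcongr
    exact_mod_cast le_self_add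

private theorem bm2_Hn_zero {G : Type} [NormedAddCommGroup G] [NormedSpace ℝ G] (k : ℕ) :
    Hn D k (fun _ : Ed d => (0 : G)) = 0 := by
  unfold Hn
  refine Finset.sum_eq_zero fun j _ => ?_
  have : (fun x : Ed d => iteratedFDeriv ℝ j (fun _ : Ed d => (0 : G)) x) = fun _ => 0 := by
    funext x
    exact congrFun (iteratedFDeriv_zero_fun (n := j)) x
  rw [this]
  exact eLpNorm_zero'

/-- `reg_main` for the family of all solutions with `F = 0`, `N = Hn D K f` (finite; otherwise there is nothing to prove), with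
`PT.iff` and the energy bound `isQ_bound` (`Dom.poincare`, `IsQ.mean`). -/
theorem Dom.est_f (h : Dom D z δ) (K : ℕ) : ∃ C : ℝ≥0, ∀ f q : Ed d → ℝ, SmOn f D → SmOn q D →
    IsQ D (fun _ => 0) f (gradient q) → Hn D (K + 1) (gradient q) ≤ C * Hn D K f := by
  obtain ⟨C, hC⟩ := bm2_est h K
  refine ⟨C, fun f q hf hq hQ => ?_⟩
  have h1 := hC (fun _ => 0) f q contDiffOn_const hf hq hQ
  rwa [bm2_Hn_zero, zero_add] at h1

/-- The same for `f = 0`, `N = Hn D K F`; for `K = 0` this is `isQ_bound`. -/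
theorem Dom.est_F (h : Dom D z δ) (K : ℕ) : ∃ C : ℝ≥0, ∀ (F : Ed d → Ed d) (q : Ed d → ℝ), SmOn F D →
    SmOn q D → IsQ D F (fun _ => 0) (gradient q) → Hn D K (gradient q) ≤ C * Hn D K F := by
  cases K with
  | zero =>
    obtain ⟨C0, hC0⟩ := isQ_bound h.isOpen h.bdd h.poincare
    refine ⟨1, fun F q _ _ hQ => ?_⟩
    have h1 := hC0 F (gradient q) (fun _ => 0) hQ (by simp)
    have h2 : eLpNorm (fun _ : Ed d => (0 : ℝ)) 2 (volume.restrict D) = 0 := eLpNorm_zero'
    rw [h2, mul_zero, add_zero] at h1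
    rw [ENNReal.coe_one, one_mul]
    unfold Hn
    simp only [zero_add, Finset.sum_range_one]
    rw [bm2_enorm0, bm2_enorm0]
    exact h1
  | succ K =>
    obtain ⟨C, hC⟩ := bm2_est h K
    refine ⟨C, fun F q hF hq hQ => ?_⟩
    have h1 := hC F (fun _ => 0) q hF contDiffOn_const hq hQ
    rwa [bm2_Hn_zero, add_zero] at h1

/-- `Hn` is finite for functions in `BB(D)`. -/
theorem BB.Hn_ne_top {G : Type} [NormedAddCommGroup G] [NormedSpace ℝ G] (hD : IsOpen D)
    (hb : Bornology.IsBounded D) {u : Ed d → G} (hu : BB D u) (k : ℕ) : Hn D k u ≠ ⊤ := by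
  unfold Hn
  rw [Ne, ENNReal.sum_eq_top]
  push Not
  intro j _
  obtain ⟨C, hC⟩ := hu.2 j
  have h1 : ∀ᵐ x ∂(volume.restrict D), ‖iteratedFDeriv ℝ j u x‖ ≤ C :=
    (ae_restrict_mem hD.measurableSet).mono fun x hx => hC x hx
  have h2 := eLpNorm_le_of_ae_bound (p := 2) h1
  refine (lt_of_le_of_lt h2 ?_).ne
  have h3 : (volume.restrict D) univ < ⊤ := by
    rw [Measure.restrict_apply_univ]
    exact hb.measure_lt_top
  exact ENNReal.mul_lt_top (ENNReal.rpow_lt_top_of_nonneg (by simp) h3.ne) ENNReal.ofReal_lt_top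

/-- Conversely, finite `Hn` for all `k` gives bounded derivatives (`Dom.sobolev`). -/
theorem Dom.bb_of_Hn (h : Dom D z δ)
    (hs : ∀ k : ℕ, ∃ C : ℝ≥0, ∀ (G : Type) [NormedAddCommGroup G] [NormedSpace ℝ G] (u : Ed d → G), SmOn u D →
      ∀ x ∈ D, ‖iteratedFDeriv ℝ k u x‖ₑ ≤ C * Hn D (k + d) u)
    {G : Type} [NormedAddCommGroup G] [NormedSpace ℝ G] {u : Ed d → G} (hu : SmOn u D)
    (hk : ∀ k, Hn D k u ≠ ⊤) : BB D u := by
  refine ⟨hu, fun k => ?_⟩
  obtain ⟨C, hC⟩ := hs k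
  refine ⟨((C : ℝ≥0∞) * Hn D (k + d) u).toReal, fun x hx => ?_⟩
  have h1 := hC G u hu x hx
  have h2 : (C : ℝ≥0∞) * Hn D (k + d) u ≠ ⊤ := ENNReal.mul_ne_top ENNReal.coe_ne_top (hk _)
  have h3 := ENNReal.toReal_mono h2 h1
  rwa [toReal_enorm] at h3

end Pool.Agent.Lib.MP_79abb3_an.W.B
end
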