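import Pool.Agent.Lib.MP_79abb3_an.W.BD2
import Pool.Agent.Lib.MP_79abb3_an.W.BG1

/-!
Theorem W, block B: Gauss theorem.
-/

set_option autoImplicit false
set_option linter.unusedSectionVars false

open MeasureTheory Set Filter Topology Function
open scoped RealInnerProductSpace ENNReal NNReal

namespace Pool.Agent.Lib.MP_79abb3_an.W.B

variable {d : ℕ} {D : Set (Ed d)} {z : Ed d → ℝ} {δ : ℝ}

/-- The derivative of the transition function is bounded. -/
theorem bn1_trans_deriv : ∃ K : ℝ, 0 ≤ K ∧ (∀ t, |deriv Real.smoothTransition t| ≤ K) ∧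
    ∀ t, 1 < t → deriv Real.smoothTransition t = 0 := by
  have hz : ∀ t : ℝ, 1 < t → deriv Real.smoothTransition t = 0 := by
    intro t h
    have : Real.smoothTransition =ᶠ[𝓝 t] fun _ => 1 := by
      filter_upwards [Ioi_mem_nhds h] with s hs
      exact Real.smoothTransition.one_of_one_le (le_of_lt hs)
    rw [this.deriv_eq]
    simp
  have hc : Continuous (deriv Real.smoothTransition) :=
    (Real.smoothTransition.contDiff (n := 1)).continuous_deriv le_rfl
  obtain ⟨K, hK⟩ := (isCompact_Icc (a := (0:ℝ)) (b := 1)).exists_bound_of_continuousOn hc.continuousOn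
  refine ⟨max K 0, le_max_right _ _, fun t => ?_, hz⟩
  by_cases ht : t ∈ Icc (0:ℝ) 1
  · exact (hK t ht).trans (le_max_left _ _)
  · have : deriv Real.smoothTransition t = 0 := by
      rcases lt_or_ge t 0 with h | h
      · have : Real.smoothTransition =ᶠ[𝓝 t] fun _ => 0 := by
          filter_upwards [Iio_mem_nhds h] with s hs
          exact Real.smoothTransition.zero_of_nonpos (le_of_lt hs)
        rw [this.deriv_eq]
        simp
      · refine hz t ?_
        by_contra hh
        exact ht ⟨h, not_lt.1 hh⟩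
    rw [this]
    simp

theorem bn1_int_fderiv {f : Ed d → ℝ} (hf : ContDiff ℝ 1 f) (hc : HasCompactSupport f) (v : Ed d) :
    ∫ x, fderiv ℝ f x v = 0 := by
  have i1 : Integrable (fun x => fderiv ℝ f x v) := by
    refine Continuous.integrable_of_hasCompactSupport ?_ ?_
    · exact (hf.continuous_fderiv one_ne_zero).clm_apply continuous_const
    · exact (hc.fderiv (𝕜 := ℝ)).comp_left (g := fun L : Ed d →L[ℝ] ℝ => L v) (by simp)
  have i2 : Integrable f := hf.continuous.integrable_of_hasCompactSupport hc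
  have h := integral_mul_fderiv_eq_neg_fderiv_mul_of_integrable (𝕜 := ℝ) (μ := (volume : Measure (Ed d)))
    (f := fun _ : Ed d => (1:ℝ)) (g := f) (v := v) (by simp) (by simpa using i1) (by simpa using i2)
    (fun x _ => differentiableAt_const _) (fun x _ => (hf.differentiable (by norm_num)) x)
  simpa using h

theorem bn1_coord {Y : Ed d → Ed d} {x : Ed d} (hY : DifferentiableAt ℝ Y x) (i : Fin d) (v : Ed d) :
    fderiv ℝ Y x v i = fderiv ℝ (fun x => Y x i) x v := by
  have h := ((EuclideanSpace.proj i : Ed d →L[ℝ] ℝ).hasFDerivAt.comp x hY.hasFDerivAt).fderiv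
  have h1 : fderiv ℝ (fun x => Y x i) x = (EuclideanSpace.proj i : Ed d →L[ℝ] ℝ).comp (fderiv ℝ Y x) := h
  rw [h1]
  rfl

theorem bn1_int_div {Y : Ed d → Ed d} (hY : ContDiff ℝ 1 Y) (hc : HasCompactSupport Y) :
    Integrable (divg Y) ∧ ∫ x, divg Y x = 0 := by
  have hd : Differentiable ℝ Y := hY.differentiable (by norm_num)
  have h1 : ∀ i, ContDiff ℝ 1 (fun x => Y x i) := fun i =>
    (EuclideanSpace.proj i : Ed d →L[ℝ] ℝ).contDiff.comp hY
  have h2 : ∀ i, HasCompactSupport (fun x => Y x i) := fun i =>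
    hc.comp_left (g := fun y : Ed d => y i) (by simp)
  have h3 : divg Y = fun x => ∑ i, fderiv ℝ (fun x => Y x i) x (ee i) := by
    funext x
    exact Finset.sum_congr rfl fun i _ => bn1_coord (hd x) i _
  have h4 : ∀ i, Integrable (fun x => fderiv ℝ (fun x => Y x i) x (ee i)) := fun i => by
    refine Continuous.integrable_of_hasCompactSupport ?_ ?_
    · exact ((h1 i).continuous_fderiv one_ne_zero).clm_apply continuous_const
    · exact ((h2 i).fderiv (𝕜 := ℝ)).comp_left (g := fun L : Ed d →L[ℝ] ℝ => L (ee i)) (by simp)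
  constructor
  · rw [h3]
    exact integrable_finsetSum _ fun i _ => h4 i
  · rw [h3]
    rw [integral_finsetSum _ fun i _ => h4 i]
    exact Finset.sum_eq_zero fun i _ => bn1_int_fderiv (h1 i) (h2 i) _

theorem bn1_expand (v : Ed d) : v = ∑ i, v i • (ee i : Ed d) := by
  have h := (EuclideanSpace.basisFun (Fin d) ℝ).sum_repr v
  simpa using h.symm

theorem bn1_divg_smul {φ : Ed d → ℝ} {v : Ed d → Ed d} {x : Ed d} (hφ : DifferentiableAt ℝ φ x)
    (hv : DifferentiableAt ℝ v x) :
    divg (fun x => φ x • v x) x = φ x * divg v x + fderiv ℝ φ x (v x) := by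
  have h1 : fderiv ℝ (fun x => φ x • v x) x = φ x • fderiv ℝ v x + (fderiv ℝ φ x).smulRight (v x) :=
    (hφ.hasFDerivAt.smul hv.hasFDerivAt).fderiv
  have h2 : fderiv ℝ φ x (v x) = ∑ i, v x i * fderiv ℝ φ x (ee i) := by
    conv_lhs => rw [bn1_expand (v x)]
    rw [map_sum]
    exact Finset.sum_congr rfl fun i _ => by rw [map_smul, smul_eq_mul]
  unfold divg
  rw [h1, h2, Finset.mul_sum, ← Finset.sum_add_distrib]
  refine Finset.sum_congr rfl fun i _ => ?_
  simp [mul_comm]

theorem bn1_divg_le {X : Ed d → Ed d} {x : Ed d} {M : ℝ} (h : ‖fderiv ℝ X x‖ ≤ M) : ‖divg X x‖ ≤ d * M := by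
  unfold divg
  refine (norm_sum_le _ _).trans ?_
  have : ∀ i ∈ (Finset.univ : Finset (Fin d)), ‖fderiv ℝ X x (ee i) i‖ ≤ M := by
    intro i _
    refine (PiLp.norm_apply_le _ i).trans ?_
    refine ((fderiv ℝ X x).le_opNorm _).trans ?_
    simpa using h
  refine (Finset.sum_le_sum this).trans ?_
  simp

/-- The volume of the layer `{0 < z < ε}` tends to `0`. -/
theorem Dom.layer (h : Dom D z δ) :
    Tendsto (fun ε : ℝ => volume {x | 0 < z x ∧ z x < ε}) (𝓝[>] 0) (𝓝 0) := by
  have hz : Continuous z := h.sm.continuous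
  have hm : ∀ ε : ℝ, MeasurableSet {x | 0 < z x ∧ z x < ε} := fun ε =>
    ((isOpen_lt continuous_const hz).inter (isOpen_lt hz continuous_const)).measurableSet
  have key := tendsto_measure_biInter_gt (μ := (volume : Measure (Ed d))) (s := fun ε : ℝ => {x | 0 < z x ∧ z x < ε})
    (a := 0) (fun r _ => (hm r).nullMeasurableSet) (fun i j _ hij x hx => ⟨hx.1, hx.2.trans_le hij⟩)
    ⟨1, zero_lt_one, ?_⟩
  · have he : (⋂ r > (0:ℝ), {x : Ed d | 0 < z x ∧ z x < r}) = ∅ := by
      ext x
      simp only [mem_iInter, mem_ofPred_eq, mem_empty_iff_false, iff_false]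
      intro hx
      exact lt_irrefl _ (hx (z x) (hx 1 zero_lt_one).1).2
    rw [he, measure_empty] at key
    exact key
  · refine ne_top_of_le_ne_top ?_ (measure_mono (t := D) ?_)
    · exact h.bdd.measure_lt_top.ne
    · intro x hx
      rw [h.eq]
      exact hx.1

theorem bn1_cut {X : Ed d → Ed d} (h : Dom D z δ) (hX : ContDiffOn ℝ 1 X D) {ω : Ed d → ℝ} (hω : ContDiff ℝ 1 ω)
    {ε : ℝ} (hε : 0 < ε) (h0 : ∀ x, z x ≤ ε → ω x = 0) :
    ContDiff ℝ 1 (fun x => ω x • X x) ∧ HasCompactSupport (fun x => ω x • X x) := by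
  have hz : Continuous z := h.sm.continuous
  constructor
  · rw [contDiff_iff_contDiffAt]
    intro x
    by_cases hx : x ∈ D
    · exact hω.contDiffAt.smul (hX.contDiffAt (h.isOpen.mem_nhds hx))
    · have hx' : z x < ε := by
        rw [h.eq] at hx
        have : ¬ 0 < z x := hx
        have := not_lt.1 this
        linarith
      have he : (fun x => ω x • X x) =ᶠ[𝓝 x] fun _ => 0 := by
        filter_upwards [(isOpen_lt hz continuous_const).mem_nhds hx'] with y hy
        rw [h0 y (le_of_lt hy), zero_smul]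
      exact contDiffAt_const.congr_of_eventuallyEq he
  · refine HasCompactSupport.of_support_subset_isCompact (h.core_compact hε) ?_
    intro x hx
    by_contra hh
    refine hx ?_
    have : ω x = 0 := h0 x (le_of_lt (not_le.1 hh))
    simp [this]

/-- **Gauss' theorem.** With `ω_ε = smoothTransition (z / ε - 1)` (`0` for `z ≤ ε`, `1` for `z ≥ 2 ε`):
`∫_D div (ω_ε X) = 0` (compact support in `D`) `= ∫ ω_ε div X + ∫ (smoothTransition' (z/ε - 1) / ε) ⟨∇z, X⟩`; the last
integrand is bounded by a constant (`|⟨∇z, X⟩| ≤ C z ≤ 2 C ε`) and supported in the layer. -/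
theorem Dom.gauss (h : Dom D z δ) {X : Ed d → Ed d} (hX : ContDiffOn ℝ 1 X D) {M : ℝ}
    (h0 : ∀ x ∈ D, ‖X x‖ ≤ M) (h1 : ∀ x ∈ D, ‖fderiv ℝ X x‖ ≤ M)
    (hn : OO D z (fun x => ⟪gradient z x, X x⟫)) : ∫ x in D, divg X x = 0 := by
  obtain ⟨C, hC⟩ := hn
  obtain ⟨K, hK0, hK, hK1⟩ := bn1_trans_deriv
  have hz : Continuous z := h.sm.continuous
  have hDo := h.isOpen
  have hDm : MeasurableSet D := hDo.measurableSet
  have hDf : volume D ≠ ∞ := h.bdd.measure_lt_top.ne
  have hfin : IsFiniteMeasure (volume.restrict D) := ⟨by rw [Measure.restrict_apply_univ]; exact hDf.lt_top⟩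
  obtain ⟨x₀, hx₀⟩ := h.conn.nonempty
  have hM : 0 ≤ M := (norm_nonneg _).trans (h0 x₀ hx₀)
  have hC0 : 0 ≤ C := by
    have h2 := (norm_nonneg _).trans (hC x₀ hx₀)
    have h3 : 0 < z x₀ := by rw [h.eq] at hx₀; exact hx₀
    by_contra hh
    have := mul_neg_of_neg_of_pos (not_le.1 hh) h3
    linarith
  -- the divergence is integrable
  have hint : IntegrableOn (divg X) D := by
    have hc : ContinuousOn (divg X) D := by
      have : ContinuousOn (fderiv ℝ X) D := hX.continuousOn_fderiv_of_isOpen hDo le_rfl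
      refine continuousOn_finsetSum _ fun i _ => ?_
      exact (EuclideanSpace.proj i : Ed d →L[ℝ] ℝ).continuous.comp_continuousOn
        (this.clm_apply continuousOn_const)
    refine Integrable.of_bound (hc.aestronglyMeasurable hDm) (d * M) ?_
    exact (ae_restrict_iff' hDm).2 (Eventually.of_forall fun x hx => bn1_divg_le (h1 x hx))
  set A : ℝ := 2 * (d * M) + 2 * K * C with hA
  have hA0 : 0 ≤ A := by positivity
  have hbound : ∀ ε : ℝ, 0 < ε →
      ‖∫ x in D, divg X x‖ ≤ A * (volume {x | 0 < z x ∧ z x < 3 * ε}).toReal := by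
    intro ε hε
    set ω : Ed d → ℝ := fun x => Real.smoothTransition (z x / ε - 1) with hω
    have hωc : ContDiff ℝ 1 ω := by
      refine (Real.smoothTransition.contDiff (n := 1)).comp ?_
      exact (((h.sm.of_le (by exact_mod_cast le_top)).div_const ε).sub contDiff_const)
    have hω0 : ∀ x, z x ≤ ε → ω x = 0 := by
      intro x hx
      refine Real.smoothTransition.zero_of_nonpos ?_
      have : z x / ε ≤ 1 := (div_le_one hε).2 hx
      linarith
    have hω1 : ∀ x, 2 * ε < z x → ω x = 1 := by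
      intro x hx
      refine Real.smoothTransition.one_of_one_le ?_
      have : 2 ≤ z x / ε := (le_div_iff₀ hε).2 hx.le
      linarith
    obtain ⟨hY, hYc⟩ := bn1_cut h hX hωc hε hω0
    obtain ⟨hYi, hY0⟩ := bn1_int_div hY hYc
    have hYD : ∫ x in D, divg (fun x => ω x • X x) x = 0 := by
      rw [← hY0]
      refine setIntegral_eq_integral_of_forall_compl_eq_zero ?_
      intro x hx
      have hx' : z x < ε := by
        rw [h.eq] at hx
        have : ¬ 0 < z x := hx
        have := not_lt.1 this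
        linarith
      have he : (fun x => ω x • X x) =ᶠ[𝓝 x] fun _ => 0 := by
        filter_upwards [(isOpen_lt hz continuous_const).mem_nhds hx'] with y hy
        rw [hω0 y (le_of_lt hy), zero_smul]
      unfold divg
      rw [he.fderiv_eq]
      simp
    have hdω : ∀ x, fderiv ℝ ω x (X x) = deriv Real.smoothTransition (z x / ε - 1) * (ε⁻¹ * ⟪gradient z x, X x⟫) := by
      intro x
      have hzd : DifferentiableAt ℝ z x := (h.sm.differentiable (by simp)) x
      have g1 : HasFDerivAt (fun x => z x / ε - 1) (ε⁻¹ • fderiv ℝ z x) x := by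
        have := (hzd.hasFDerivAt.const_mul ε⁻¹).sub_const 1
        refine this.congr_of_eventuallyEq (Eventually.of_forall fun y => ?_)
        simp only [div_eq_inv_mul]
      have g2 : HasDerivAt Real.smoothTransition (deriv Real.smoothTransition (z x / ε - 1)) (z x / ε - 1) :=
        (((Real.smoothTransition.contDiff (n := 1)).differentiable (by norm_num)) _).hasDerivAt
      have g3 := (g2.comp_hasFDerivAt x g1).fderiv
      have g4 : fderiv ℝ ω x = deriv Real.smoothTransition (z x / ε - 1) • (ε⁻¹ • fderiv ℝ z x) := g3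
      rw [g4, inner_gradient_left]
      simp
    have hsub : {x | 0 < z x ∧ z x < 3 * ε} ⊆ D := by
      intro x hx
      rw [h.eq]
      exact hx.1
    have hg : ∫ x in D, divg X x = ∫ x in {x | 0 < z x ∧ z x < 3 * ε}, (divg X x - divg (fun x => ω x • X x) x) := by
      have e1 : ∫ x in D, divg X x = ∫ x in D, (divg X x - divg (fun x => ω x • X x) x) := by
        rw [integral_sub hint hYi.integrableOn, hYD, sub_zero]
      rw [e1]
      refine setIntegral_eq_of_subset_of_forall_sdiff_eq_zero hDm hsub ?_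
      rintro x ⟨hx, hx'⟩
      have hzx : 0 < z x := by rw [h.eq] at hx; exact hx
      have h3 : 3 * ε ≤ z x := by
        by_contra hh
        exact hx' ⟨hzx, not_le.1 hh⟩
      have he : (fun x => ω x • X x) =ᶠ[𝓝 x] X := by
        filter_upwards [(isOpen_lt continuous_const hz).mem_nhds (show 2 * ε < z x by linarith)] with y hy
        rw [hω1 y hy, one_smul]
      unfold divg
      rw [he.fderiv_eq, sub_self]
    rw [hg]
    refine norm_setIntegral_le_of_norm_le_const ((measure_mono hsub).trans_lt hDf.lt_top) ?_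
    intro x hx
    have hxD : x ∈ D := hsub hx
    have hXd : DifferentiableAt ℝ X x := (hX.contDiffAt (hDo.mem_nhds hxD)).differentiableAt (by norm_num)
    rw [bn1_divg_smul ((hωc.differentiable (by norm_num)) x) hXd, hdω]
    have b1 := bn1_divg_le (h1 x hxD)
    have b2 : ‖ω x * divg X x‖ ≤ d * M := by
      rw [norm_mul]
      have : ‖ω x‖ ≤ 1 := by
        rw [Real.norm_of_nonneg (Real.smoothTransition.nonneg _)]
        exact Real.smoothTransition.le_one _
      calc ‖ω x‖ * ‖divg X x‖ ≤ 1 * ‖divg X x‖ := by gcongr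
        _ ≤ _ := by rw [one_mul]; exact b1
    have b3 : ‖deriv Real.smoothTransition (z x / ε - 1) * (ε⁻¹ * ⟪gradient z x, X x⟫)‖ ≤ 2 * K * C := by
      by_cases hx2 : 2 * ε < z x
      · rw [hK1 _ (by have : 2 < z x / ε := (lt_div_iff₀ hε).2 hx2
                      linarith)]
        simp only [zero_mul, norm_zero]
        positivity
      · have hx3 := not_lt.1 hx2
        rw [norm_mul, norm_mul]
        have b4 : ‖ε⁻¹‖ * ‖⟪gradient z x, X x⟫‖ ≤ 2 * C := by
          rw [Real.norm_of_nonneg (inv_nonneg.2 hε.le)]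
          calc ε⁻¹ * ‖⟪gradient z x, X x⟫‖ ≤ ε⁻¹ * (C * z x) := by
                gcongr
                exact hC x hxD
            _ ≤ ε⁻¹ * (C * (2 * ε)) := by gcongr
            _ = 2 * C := by field_simp
        calc _ ≤ K * (2 * C) := by
              gcongr
              exact hK _
          _ = _ := by ring
    calc ‖divg X x - (ω x * divg X x + deriv Real.smoothTransition (z x / ε - 1) * (ε⁻¹ * ⟪gradient z x, X x⟫))‖
        ≤ ‖divg X x‖ + (‖ω x * divg X x‖ + ‖deriv Real.smoothTransition (z x / ε - 1) * (ε⁻¹ * ⟪gradient z x, X x⟫)‖) :=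
          (norm_sub_le _ _).trans (by gcongr; exact norm_add_le _ _)
      _ ≤ A := by rw [hA]; linarith
  have ht : Tendsto (fun ε : ℝ => A * (volume {x | 0 < z x ∧ z x < 3 * ε}).toReal) (𝓝[>] 0) (𝓝 0) := by
    have t1 : Tendsto (fun ε : ℝ => 3 * ε) (𝓝[>] 0) (𝓝[>] 0) := by
      refine tendsto_nhdsWithin_of_tendsto_nhds_of_eventually_within _ ?_ ?_
      · have : Tendsto (fun ε : ℝ => 3 * ε) (𝓝 0) (𝓝 (3 * 0)) := (continuous_const.mul continuous_id).tendsto 0
        rw [mul_zero] at this
        exact this.mono_left nhdsWithin_le_nhds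
      · filter_upwards [self_mem_nhdsWithin] with ε hε
        have : (0:ℝ) < ε := hε
        show 0 < 3 * ε
        linarith
    have t2 := (ENNReal.tendsto_toReal ENNReal.zero_ne_top).comp (h.layer.comp t1)
    have t3 := t2.const_mul A
    simpa using t3
  have hle : ‖∫ x in D, divg X x‖ ≤ 0 := by
    refine ge_of_tendsto ht ?_
    filter_upwards [self_mem_nhdsWithin] with ε hε
    exact hbound ε hε
  exact norm_le_zero_iff.1 hle

/-- Integration by parts: `Dom.gauss` for `φ v`. -/
theorem Dom.ibp (h : Dom D z δ) {v : Ed d → Ed d} (hv : ContDiffOn ℝ 1 v D) {M : ℝ}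
    (h0 : ∀ x ∈ D, ‖v x‖ ≤ M) (h1 : ∀ x ∈ D, ‖fderiv ℝ v x‖ ≤ M)
    (hn : OO D z (fun x => ⟪gradient z x, v x⟫)) {φ : Ed d → ℝ} (hφ : ContDiffOn ℝ 1 φ D)
    (h2 : ∀ x ∈ D, ‖φ x‖ ≤ M) (h3 : ∀ x ∈ D, ‖fderiv ℝ φ x‖ ≤ M) :
    ∫ x in D, (⟪v x, gradient φ x⟫ + divg v x * φ x) = 0 := by
  obtain ⟨C, hC⟩ := hn
  have hDo := h.isOpen
  have hDm : MeasurableSet D := hDo.measurableSet
  have hM : ∀ x ∈ D, 0 ≤ M := fun x hx => (norm_nonneg _).trans (h0 x hx)
  have key := h.gauss (X := fun x => φ x • v x) (hφ.smul hv) (M := 2 * (M * M)) ?_ ?_ ?_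
  · rw [← key]
    refine setIntegral_congr_fun hDm fun x hx => ?_
    have d1 : DifferentiableAt ℝ φ x := (hφ.contDiffAt (hDo.mem_nhds hx)).differentiableAt (by norm_num)
    have d2 : DifferentiableAt ℝ v x := (hv.contDiffAt (hDo.mem_nhds hx)).differentiableAt (by norm_num)
    rw [bn1_divg_smul d1 d2, ← inner_gradient_left, real_inner_comm]
    ring
  · intro x hx
    rw [norm_smul]
    have := mul_le_mul (h2 x hx) (h0 x hx) (norm_nonneg _) (hM x hx)
    have := mul_nonneg (hM x hx) (hM x hx)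
    linarith
  · intro x hx
    have d1 : DifferentiableAt ℝ φ x := (hφ.contDiffAt (hDo.mem_nhds hx)).differentiableAt (by norm_num)
    have d2 : DifferentiableAt ℝ v x := (hv.contDiffAt (hDo.mem_nhds hx)).differentiableAt (by norm_num)
    have e1 : fderiv ℝ (fun x => φ x • v x) x = φ x • fderiv ℝ v x + (fderiv ℝ φ x).smulRight (v x) :=
      (d1.hasFDerivAt.smul d2.hasFDerivAt).fderiv
    rw [e1]
    refine (norm_add_le _ _).trans ?_
    rw [norm_smul, ContinuousLinearMap.norm_smulRight_apply]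
    have := mul_le_mul (h2 x hx) (h1 x hx) (norm_nonneg _) (hM x hx)
    have := mul_le_mul (h3 x hx) (h0 x hx) (norm_nonneg _) (hM x hx)
    linarith
  · refine ⟨M * C, fun x hx => ?_⟩
    show ‖⟪gradient z x, φ x • v x⟫‖ ≤ M * C * z x
    rw [real_inner_smul_right, norm_mul, mul_assoc]
    exact mul_le_mul (h2 x hx) (hC x hx) (norm_nonneg _) (hM x hx)

end Pool.Agent.Lib.MP_79abb3_an.W.B
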