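import Pool.Agent.Lib.MP_79abb3_an.W.BD2
import Pool.Agent.Lib.MP_79abb3_an.W.BG1

section

/-!
Theorem W, block B: functions with zero extension.
-/

set_option autoImplicit false
set_option linter.unusedSectionVars false

open MeasureTheory Set Filter Topology Function
open scoped RealInnerProductSpace ENNReal NNReal

namespace Pool.Agent.Lib.MP_79abb3_an.W.B

variable {d : ℕ} {D : Set (Ed d)} {z : Ed d → ℝ} {δ : ℝ}

private theorem bn2_sum (v : Ed d) : ∑ i, v i • (ee i : Ed d) = v := by
  ext j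
  simp [ee, Finset.sum_apply, Pi.single_apply]

private theorem bn2_grad_norm (g : Ed d → ℝ) (y : Ed d) : ‖gradient g y‖ = ‖fderiv ℝ g y‖ := by
  unfold gradient
  exact LinearIsometryEquiv.norm_map _ _

/-- the field of the mollifier -/
private theorem bn2_B {ρ : Ed d → ℝ} (hρ : Sm ρ) (hc : HasCompactSupport ρ) (c v : Ed d) :
    Sm (fun w => ρ (c - w) • v) ∧ HasCompactSupport (fun w => ρ (c - w) • v) ∧
      ∀ w, divg (fun w => ρ (c - w) • v) w = -(fderiv ℝ ρ (c - w) v) := by
  have hs : Sm (fun w => ρ (c - w)) := hρ.comp (contDiff_const.sub contDiff_id)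
  refine ⟨hs.smul contDiff_const, ?_, ?_⟩
  · have h1 : HasCompactSupport (ρ ∘ (Homeomorph.subLeft c)) := hc.comp_homeomorph _
    exact h1.smul_right
  · intro w
    have h1 : HasFDerivAt (fun w => ρ (c - w)) ((fderiv ℝ ρ (c - w)).comp (-(ContinuousLinearMap.id ℝ (Ed d)))) w := by
      have h2 : HasFDerivAt ρ (fderiv ℝ ρ (c - w)) (c - w) :=
        (hρ.contDiffAt.differentiableAt (by simp)).hasFDerivAt
      have h3 : HasFDerivAt (fun w : Ed d => c - w) (-(ContinuousLinearMap.id ℝ (Ed d))) w := by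
        simpa using (hasFDerivAt_id (𝕜 := ℝ) w).const_sub c
      exact h2.comp w h3
    have h4 := h1.smul_const v
    unfold divg
    rw [h4.fderiv]
    have h5 : ∀ i : Fin d, ((((fderiv ℝ ρ (c - w)).comp (-(ContinuousLinearMap.id ℝ (Ed d)))).smulRight v)
        (ee i)) i = -(v i * fderiv ℝ ρ (c - w) (ee i)) := by
      intro i
      have h6 : ((((fderiv ℝ ρ (c - w)).comp (-(ContinuousLinearMap.id ℝ (Ed d)))).smulRight v)
        (ee i)) = (fderiv ℝ ρ (c - w) (-(ee i))) • v := rfl
      rw [h6, map_neg]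
      show (-(fderiv ℝ ρ (c - w) (ee i))) * v i = _
      ring
    rw [Finset.sum_congr rfl fun i _ => h5 i, Finset.sum_neg_distrib]
    congr 1
    conv_rhs => rw [← bn2_sum v, map_sum]
    refine Finset.sum_congr rfl fun i _ => ?_
    rw [map_smul, smul_eq_mul]

/-- the Lipschitz estimate from inside to outside -/
private theorem bn2_lip (h : Dom D z δ) {g : Ed d → ℝ} (hg : SmOn g D) {M : ℝ} (h0 : ∀ x ∈ D, |g x| ≤ M)
    (h1 : ∀ x ∈ D, ‖gradient g x‖ ≤ M)
    (hB : ∀ B : Ed d → Ed d, Sm B → HasCompactSupport B →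
      ∫ x in D, (g x * divg B x + ⟪gradient g x, B x⟫) = 0) {x y : Ed d} (hx : x ∈ D) (hy : y ∉ closure D) :
    |g x| ≤ M * ‖y - x‖ := by
  have hM : 0 ≤ M := (abs_nonneg _).trans (h0 x hx)
  have hop := h.isOpen
  have hfin : volume D < ∞ := h.bdd.measure_lt_top
  have hfm : IsFiniteMeasure (volume.restrict D) := ⟨by rwa [Measure.restrict_apply_univ]⟩
  obtain ⟨r1, hr1, hb1⟩ := Metric.isOpen_iff.1 hop x hx
  obtain ⟨r2, hr2, hb2⟩ := Metric.isOpen_iff.1 isClosed_closure.isOpen_compl y hy
  refine le_of_forall_pos_le_add fun ε hε => ?_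
  obtain ⟨r, hr⟩ : ∃ r, r = min (min r1 r2) (ε / (M + 1)) := ⟨_, rfl⟩
  have hr0 : 0 < r := by rw [hr]; exact lt_min (lt_min hr1 hr2) (by positivity)
  have hrr1 : r ≤ r1 := by rw [hr]; exact (min_le_left _ _).trans (min_le_left _ _)
  have hrr2 : r ≤ r2 := by rw [hr]; exact (min_le_left _ _).trans (min_le_right _ _)
  have hrε : M * r ≤ ε := by
    have h2 : r ≤ ε / (M + 1) := by rw [hr]; exact min_le_right _ _
    rw [le_div_iff₀ (by positivity)] at h2
    nlinarith
  -- the mollifier
  obtain ⟨b, hb⟩ : ∃ b : ContDiffBump (0 : Ed d), b.rOut = r :=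
    ⟨⟨r / 2, r, by positivity, by linarith⟩, rfl⟩
  obtain ⟨ρ, hρe⟩ : ∃ ρ : Ed d → ℝ, ρ = b.normed volume := ⟨_, rfl⟩
  have hρ : Sm ρ := by rw [hρe]; exact b.contDiff_normed
  have hρc : HasCompactSupport ρ := by rw [hρe]; exact b.hasCompactSupport_normed
  have hρ0 : ∀ w, 0 ≤ ρ w := by rw [hρe]; exact fun w => b.nonneg_normed w
  have hρI : ∫ w, ρ w = 1 := by rw [hρe]; exact b.integral_normed
  have hρz : ∀ w, r ≤ ‖w‖ → ρ w = 0 := by
    intro w hw
    by_contra hcon
    have h2 : w ∈ Function.support ρ := hcon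
    rw [hρe, b.support_normed_eq, hb, mem_ball_zero_iff] at h2
    linarith
  have hρint : Integrable ρ := hρ.continuous.integrable_of_hasCompactSupport hρc
  have hρI' : ∀ c : Ed d, ∫ w, ρ (c - w) = 1 := by
    intro c
    rw [integral_sub_left_eq_self (fun w => ρ w) volume c, hρI]
  have hρint' : ∀ c : Ed d, Integrable (fun w => ρ (c - w)) := fun c => hρint.comp_sub_left c
  obtain ⟨K, hK⟩ : ∃ K, ∀ w, ‖fderiv ℝ ρ w‖ ≤ K :=
    (hρc.fderiv (𝕜 := ℝ)).exists_bound_of_continuous (hρ.continuous_fderiv (by simp))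
  obtain ⟨K0, hK0⟩ : ∃ K, ∀ w, ‖ρ w‖ ≤ K := hρc.exists_bound_of_continuous hρ.continuous
  obtain ⟨v, hv⟩ : ∃ v, v = y - x := ⟨_, rfl⟩
  obtain ⟨c, hc⟩ : ∃ c : ℝ → Ed d, c = fun t => x + t • v := ⟨_, rfl⟩
  have hgm : AEStronglyMeasurable g (volume.restrict D) := hg.continuousOn.aestronglyMeasurable hop.measurableSet
  have hgr : ContinuousOn (gradient g) D := by
    have h2 : ContinuousOn (fderiv ℝ g) D := hg.continuousOn_fderiv_of_isOpen hop (by simp)
    exact (InnerProductSpace.toDual ℝ (Ed d)).symm.continuous.comp_continuousOn h2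
  have hmem : ∀ᵐ w ∂(volume.restrict D), w ∈ D := ae_restrict_mem hop.measurableSet
  -- the function of `t` and its derivative
  obtain ⟨F, hF⟩ : ∃ F : ℝ → ℝ, F = fun t => ∫ w in D, g w * ρ (c t - w) := ⟨_, rfl⟩
  have hi1 : ∀ t, Integrable (fun w => g w * ρ (c t - w)) (volume.restrict D) := by
    intro t
    refine Integrable.of_bound (C := M * K0) (hgm.mul ?_) ?_
    · exact (hρ.continuous.comp (continuous_const.sub continuous_id)).aestronglyMeasurable
    · filter_upwards [hmem] with w hw
      rw [norm_mul]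
      exact mul_le_mul (h0 w hw) (hK0 _) (norm_nonneg _) hM
  have hi2 : ∀ t, Integrable (fun w => g w * fderiv ℝ ρ (c t - w) v) (volume.restrict D) := by
    intro t
    refine Integrable.of_bound (C := M * (K * ‖v‖)) (hgm.mul ?_) ?_
    · have h2 : Continuous fun w => fderiv ℝ ρ (c t - w) v :=
        ((hρ.continuous_fderiv (by simp)).comp (continuous_const.sub continuous_id)).clm_apply continuous_const
      exact h2.aestronglyMeasurable
    · filter_upwards [hmem] with w hw
      rw [norm_mul]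
      refine mul_le_mul (h0 w hw) ?_ (norm_nonneg _) hM
      exact (ContinuousLinearMap.le_opNorm _ _).trans (mul_le_mul_of_nonneg_right (hK _) (norm_nonneg _))
  have hi3 : ∀ t, Integrable (fun w => ⟪gradient g w, ρ (c t - w) • v⟫) (volume.restrict D) := by
    intro t
    refine Integrable.of_bound (C := M * (K0 * ‖v‖)) ?_ ?_
    · refine AEStronglyMeasurable.inner (𝕜 := ℝ) (hgr.aestronglyMeasurable hop.measurableSet) ?_
      exact ((hρ.continuous.comp (continuous_const.sub continuous_id)).smul continuous_const).aestronglyMeasurable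
    · filter_upwards [hmem] with w hw
      refine (norm_inner_le_norm _ _).trans (mul_le_mul (h1 w hw) ?_ (norm_nonneg _) hM)
      rw [norm_smul]
      exact mul_le_mul_of_nonneg_right (hK0 _) (norm_nonneg _)
  have hder : ∀ t, HasDerivAt F (∫ w in D, g w * fderiv ℝ ρ (c t - w) v) t := by
    intro t
    rw [hF]
    have h2 := hasDerivAt_integral_of_dominated_loc_of_deriv_le (μ := volume.restrict D)
      (F := fun s w => g w * ρ (c s - w)) (F' := fun s w => g w * fderiv ℝ ρ (c s - w) v)
      (x₀ := t) (s := univ) (bound := fun _ => M * (K * ‖v‖)) univ_mem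
      (Filter.Eventually.of_forall fun s => (hi1 s).aestronglyMeasurable) (hi1 t)
      (hi2 t).aestronglyMeasurable
      (by
        filter_upwards [hmem] with w hw s _
        rw [norm_mul]
        refine mul_le_mul (h0 w hw) ?_ (norm_nonneg _) hM
        exact (ContinuousLinearMap.le_opNorm _ _).trans (mul_le_mul_of_nonneg_right (hK _) (norm_nonneg _)))
      (integrable_const _)
      (by
        refine Filter.Eventually.of_forall fun w s _ => ?_
        have h3 : HasFDerivAt ρ (fderiv ℝ ρ (c s - w)) (c s - w) :=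
          (hρ.contDiffAt.differentiableAt (by simp)).hasFDerivAt
        have h4 : HasDerivAt (fun s => c s - w) v s := by
          rw [hc]
          simpa using (((hasDerivAt_id s).smul_const v).const_add x).sub_const w
        exact (h3.comp_hasDerivAt s h4).const_mul (g w))
    exact h2.2
  have hbd : ∀ t, |∫ w in D, g w * fderiv ℝ ρ (c t - w) v| ≤ M * ‖v‖ := by
    intro t
    obtain ⟨b1, b2, b3⟩ := bn2_B hρ hρc (c t) v
    have h2 := hB _ b1 b2
    have h3 : ∫ w in D, (g w * divg (fun w => ρ (c t - w) • v) w + ⟪gradient g w, ρ (c t - w) • v⟫) =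
        (∫ w in D, ⟪gradient g w, ρ (c t - w) • v⟫) - ∫ w in D, g w * fderiv ℝ ρ (c t - w) v := by
      rw [← integral_sub (hi3 t) (hi2 t)]
      refine integral_congr_ae (Filter.Eventually.of_forall fun w => ?_)
      simp only [b3]
      ring
    rw [h3] at h2
    have h4 : ∫ w in D, g w * fderiv ℝ ρ (c t - w) v = ∫ w in D, ⟪gradient g w, ρ (c t - w) • v⟫ := by
      linarith
    rw [h4]
    have h5 : ∀ᵐ w ∂(volume.restrict D), ‖⟪gradient g w, ρ (c t - w) • v⟫‖ ≤ M * ‖v‖ * ρ (c t - w) := by
      filter_upwards [hmem] with w hw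
      refine (norm_inner_le_norm _ _).trans ?_
      rw [norm_smul, Real.norm_of_nonneg (hρ0 _)]
      have := mul_le_mul_of_nonneg_right (h1 w hw) (mul_nonneg (hρ0 (c t - w)) (norm_nonneg v))
      linarith
    have h6 := norm_integral_le_of_norm_le (((hρint' (c t)).restrict (s := D)).const_mul (M * ‖v‖)) h5
    rw [Real.norm_eq_abs, integral_const_mul] at h6
    refine h6.trans ?_
    have h7 : ∫ w in D, ρ (c t - w) ≤ 1 := by
      rw [← hρI' (c t)]
      exact setIntegral_le_integral (hρint' _) (Filter.Eventually.of_forall fun w => hρ0 _)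
    have := mul_le_mul_of_nonneg_left h7 (mul_nonneg hM (norm_nonneg v))
    linarith
  have hmv : ‖F 1 - F 0‖ ≤ M * ‖v‖ :=
    norm_image_sub_le_of_norm_deriv_le_segment_01' (f' := fun t => ∫ w in D, g w * fderiv ℝ ρ (c t - w) v)
      (fun t _ => (hder t).hasDerivWithinAt) (fun t _ => hbd t)
  -- the value at `1`
  have hF1 : F 1 = 0 := by
    rw [hF]
    show ∫ w in D, g w * ρ (c 1 - w) = 0
    have h2 : c 1 = y := by rw [hc, hv]; simp
    rw [h2, ← integral_zero (Ed d) ℝ (μ := volume.restrict D)]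
    refine integral_congr_ae ?_
    filter_upwards [hmem] with w hw
    rw [hρz, mul_zero]
    by_contra hcon
    have h3 : w ∈ Metric.ball y r2 := by
      rw [mem_ball_iff_norm, norm_sub_rev]
      linarith
    exact hb2 h3 (subset_closure hw)
  -- the value at `0`
  have hF0 : |F 0 - g x| ≤ M * r := by
    have h2 : c 0 = x := by rw [hc]; simp
    have hF0' : F 0 = ∫ w in D, g w * ρ (x - w) := by rw [hF]; show ∫ w in D, g w * ρ (c 0 - w) = _; rw [h2]
    have hsD : ∀ w, w ∉ D → ρ (x - w) = 0 := by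
      intro w hw
      refine hρz _ ?_
      by_contra hcon
      refine hw (hb1 ?_)
      rw [mem_ball_iff_norm, norm_sub_rev]
      linarith
    have h3 : ∫ w in D, ρ (x - w) = 1 := by
      rw [setIntegral_eq_integral_of_forall_compl_eq_zero hsD, hρI']
    have h4 : F 0 - g x = ∫ w in D, (g w - g x) * ρ (x - w) := by
      have h5 : ∫ w in D, (g w - g x) * ρ (x - w) = (∫ w in D, g w * ρ (x - w)) - ∫ w in D, g x * ρ (x - w) := by
        rw [← integral_sub]
        · refine integral_congr_ae (Filter.Eventually.of_forall fun w => ?_)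
          simp only []
          ring
        · have := hi1 0
          rwa [h2] at this
        · exact ((hρint' x).restrict).const_mul _
      rw [h5, integral_const_mul, h3, hF0', mul_one]
    rw [h4]
    have h5 : ∀ᵐ w ∂(volume.restrict D), ‖(g w - g x) * ρ (x - w)‖ ≤ M * r * ρ (x - w) := by
      refine Filter.Eventually.of_forall fun w => ?_
      rw [norm_mul, Real.norm_of_nonneg (hρ0 _)]
      rcases lt_or_ge ‖w - x‖ r with hw | hw
      · refine mul_le_mul_of_nonneg_right ?_ (hρ0 _)
        have hsub : Metric.ball x r ⊆ D := (Metric.ball_subset_ball hrr1).trans hb1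
        have h6 := (convex_ball x r).norm_image_sub_le_of_norm_fderiv_le (𝕜 := ℝ) (f := g) (C := M)
          (fun w' hw' => (hg.contDiffAt (hop.mem_nhds (hsub hw'))).differentiableAt (by simp))
          (fun w' hw' => by rw [← bn2_grad_norm]; exact h1 w' (hsub hw'))
          (Metric.mem_ball_self hr0) (mem_ball_iff_norm.2 hw)
        refine h6.trans ?_
        exact mul_le_mul_of_nonneg_left hw.le hM
      · rw [hρz (x - w) (by rwa [norm_sub_rev] at hw), mul_zero, mul_zero]
    have h6 := norm_integral_le_of_norm_le (((hρint' x).restrict (s := D)).const_mul (M * r)) h5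
    rwa [Real.norm_eq_abs, integral_const_mul, h3, mul_one] at h6
  rw [hF1, zero_sub, norm_neg, Real.norm_eq_abs] at hmv
  rw [← hv]
  have h7 : |g x| ≤ |F 0| + |F 0 - g x| := by
    have := abs_sub_abs_le_abs_sub (g x) (F 0)
    rw [abs_sub_comm] at this
    linarith
  linarith

/-- If `∫_D (g div B + ⟨∇g, B⟩) = 0` for all smooth fields `B` with compact support in the whole space, then `g = O(z)`.
Proof: the extension `g̃` of `g` by zero has the weak gradient `1_D ∇g`, bounded by `M`; so its mollifications are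
Lipschitz with constant `M`; for `x ∈ D` and `y` off the closure of `D` this gives `|g x| ≤ M |x - y|` (the
mollifications converge at `x` and at `y`, where `g̃` is continuous). For `z x` small take
`y = x - 2 z(x) ∇z(x)`: `z y < 0` (`Dom.taylor`). For `z x ≥ a` use `|g x| ≤ M ≤ (M/a) z x`. -/
theorem Dom.zero_trace (h : Dom D z δ) {g : Ed d → ℝ} (hg : SmOn g D) {M : ℝ} (h0 : ∀ x ∈ D, |g x| ≤ M)
    (h1 : ∀ x ∈ D, ‖gradient g x‖ ≤ M)
    (hB : ∀ B : Ed d → Ed d, Sm B → HasCompactSupport B →
      ∫ x in D, (g x * divg B x + ⟪gradient g x, B x⟫) = 0) : OO D z g := by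
  obtain ⟨x₀, hx₀⟩ := h.conn.nonempty
  have hM : 0 ≤ M := (abs_nonneg _).trans (h0 x₀ hx₀)
  obtain ⟨L, hL, htay⟩ := h.taylor
  obtain ⟨a, ha⟩ : ∃ a, a = min (min (4 * δ) (1 / 2)) (1 / (4 * L)) := ⟨_, rfl⟩
  have hδ := h.pos
  have ha0 : 0 < a := by rw [ha]; exact lt_min (lt_min (by positivity) (by norm_num)) (by positivity)
  have ha1 : a ≤ 4 * δ := by rw [ha]; exact (min_le_left _ _).trans (min_le_left _ _)
  have ha2 : a ≤ 1 / 2 := by rw [ha]; exact (min_le_left _ _).trans (min_le_right _ _)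
  have ha3 : a ≤ 1 / (4 * L) := by rw [ha]; exact min_le_right _ _
  refine ⟨2 * M + M / a, fun x hx => ?_⟩
  have hzx : 0 < z x := by
    have := hx
    rw [h.eq] at this
    exact this
  rw [Real.norm_eq_abs]
  rcases lt_or_ge (z x) a with hza | hza
  · obtain ⟨y, hy⟩ : ∃ y, y = x - (2 * z x) • gradient z x := ⟨_, rfl⟩
    have hn : ‖gradient z x‖ = 1 := h.one x (by rw [abs_of_pos hzx]; linarith)
    have hyx : y - x = -((2 * z x) • gradient z x) := by rw [hy]; abel
    have hyn : ‖y - x‖ = 2 * z x := by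
      rw [hyx, norm_neg, norm_smul, hn, mul_one, Real.norm_of_nonneg (by positivity)]
    obtain ⟨t1, -, -⟩ := htay x hzx.le y (by rw [hyn]; linarith)
    have h2 : ⟪gradient z x, y - x⟫ = -(2 * z x) := by
      rw [hyx, inner_neg_right, inner_smul_right, real_inner_self_eq_norm_sq, hn]
      ring
    rw [h2, hyn] at t1
    have h3 : z y < 0 := by
      have h4 := (abs_le.1 t1).2
      have h5 : z x * (4 * L) < 1 := by
        have := hza.trans_le ha3
        rwa [lt_div_iff₀ (by positivity)] at this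
      nlinarith
    have h4 : y ∉ closure D := by
      rw [h.closure_eq]
      exact not_le.2 h3
    have h5 := bn2_lip h hg h0 h1 hB hx h4
    rw [hyn] at h5
    have h6 : 0 ≤ M / a * z x := by positivity
    linarith
  · have h2 : M ≤ M / a * z x := by
      rw [div_mul_eq_mul_div, le_div_iff₀ ha0]
      exact mul_le_mul_of_nonneg_left hza hM
    have h3 := h0 x hx
    have h4 : 0 ≤ 2 * M * z x := by positivity
    linarith

end Pool.Agent.Lib.MP_79abb3_an.W.B
end

section

/-!
Theorem W, block B: Sobolev inequality on the cube.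
-/

set_option autoImplicit false
set_option linter.unusedSectionVars false

open MeasureTheory Set Filter Topology Function
open scoped RealInnerProductSpace ENNReal NNReal

namespace Pool.Agent.Lib.MP_79abb3_an.W.B

variable {d : ℕ} {D : Set (Ed d)} {z : Ed d → ℝ} {δ : ℝ}

private lemma bs1_cub_closed (d : ℕ) : IsClosed (cub d) := by
  have h : cub d = ⋂ i : Fin d, (fun t : Ed d => t i) ⁻¹' Icc (0 : ℝ) 1 := by
    ext t
    simp [cub]
  rw [h]
  refine isClosed_iInter fun i => isClosed_Icc.preimage ?_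
  fun_prop

/-- The restricted size of the `j`-th derivative. -/
private noncomputable def bs1A {G : Type} [NormedAddCommGroup G] [NormedSpace ℝ G] (w : Ed d → G) (j : ℕ)
    (t : Fin d → ℝ) : ℝ≥0∞ :=
  (cub d).indicator (fun y => ‖iteratedFDeriv ℝ j w y‖ₑ) (WithLp.toLp 2 t)

private noncomputable def bs1S {G : Type} [NormedAddCommGroup G] [NormedSpace ℝ G] (w : Ed d → G) (n : ℕ)
    (t : Fin d → ℝ) : ℝ≥0∞ := ∑ j ∈ Finset.range (n + 1), bs1A w j t

variable {G : Type} [NormedAddCommGroup G] [NormedSpace ℝ G] {w : Ed d → G} {U : Set (Ed d)}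

private lemma bs1_cda (hU : IsOpen U) (hw : SmOn w U) {x : Ed d} (hx : x ∈ U) (j : ℕ) :
    ContDiffAt ℝ 1 (iteratedFDeriv ℝ j w) x := by
  have h1 : ContDiffAt ℝ ((⊤ : ℕ∞) : WithTop ℕ∞) w x := hw.contDiffAt (hU.mem_nhds hx)
  refine h1.iteratedFDeriv_right ?_
  exact_mod_cast le_top

private lemma bs1A_meas (hU : IsOpen U) (hc : cub d ⊆ U) (hw : SmOn w U) (j : ℕ) :
    Measurable (bs1A w j) := by
  classical
  have h1 : Measurable ((cub d).indicator (fun y => ‖iteratedFDeriv ℝ j w y‖ₑ)) := by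
    rw [← Set.piecewise_eq_indicator]
    refine ContinuousOn.measurable_piecewise ?_ continuousOn_const (bs1_cub_closed d).measurableSet
    intro x hx
    exact (bs1_cda hU hw (hc hx) j).continuousAt.enorm.continuousWithinAt
  exact h1.comp (WithLp.measurable_toLp 2 (Fin d → ℝ))

private lemma bs1S_meas (hU : IsOpen U) (hc : cub d ⊆ U) (hw : SmOn w U) (n : ℕ) :
    Measurable (bs1S w n) := by
  unfold bs1S
  exact Finset.measurable_fun_sum _ fun j _ => bs1A_meas hU hc hw j

private lemma bs1_line (x : Fin d → ℝ) (i : Fin d) (r : ℝ) :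
    (WithLp.toLp 2 (Function.update x i r) : Ed d) =
      WithLp.toLp 2 (Function.update x i 0) + r • (ee i : Ed d) := by
  ext k
  by_cases hk : k = i
  · subst hk
    simp
  · simp [Function.update_of_ne hk, hk]

private lemma bs1_step (hU : IsOpen U) (hc : cub d ⊆ U) (hw : SmOn w U) (j : ℕ) (i : Fin d)
    (x : Fin d → ℝ) : bs1A w j (Function.update x i 0) ≤
      ∫⁻ r : ℝ, (bs1A w j (Function.update x i r) + bs1A w (j + 1) (Function.update x i r)) := by
  by_cases hx : (WithLp.toLp 2 (Function.update x i 0) : Ed d) ∈ cub d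
  swap
  · unfold bs1A
    rw [indicator_of_notMem hx]
    exact zero_le
  set p : Ed d := WithLp.toLp 2 (Function.update x i 0) with hp
  have hmem : ∀ r ∈ Icc (0 : ℝ) 1, p + r • (ee i : Ed d) ∈ cub d := by
    intro r hr k
    rw [hp, ← bs1_line]
    by_cases hk : k = i
    · subst hk
      simpa using hr
    · have h := hx k
      rw [hp] at h
      simpa [Function.update_of_ne hk] using h
  set h : Ed d → _ := iteratedFDeriv ℝ j w with hh
  set γ : ℝ → _ := fun r : ℝ => h (p + r • (ee i : Ed d)) with hγ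
  have hcd : ContDiffOn ℝ 1 γ (Icc 0 1) := by
    intro r hr
    have h1 : ContDiffAt ℝ 1 h (p + r • (ee i : Ed d)) := bs1_cda hU hw (hc (hmem r hr)) j
    have h2 : ContDiffAt ℝ 1 (fun r : ℝ => p + r • (ee i : Ed d)) r := by fun_prop
    exact (h1.comp r h2).contDiffWithinAt
  have hder : ∀ r ∈ Icc (0 : ℝ) 1, ‖deriv γ r‖ₑ ≤ ‖iteratedFDeriv ℝ (j + 1) w (p + r • (ee i : Ed d))‖ₑ := by
    intro r hr
    have h1 : HasFDerivAt h (fderiv ℝ h (p + r • (ee i : Ed d))) (p + r • (ee i : Ed d)) :=
      ((bs1_cda hU hw (hc (hmem r hr)) j).differentiableAt one_ne_zero).hasFDerivAt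
    have h2 : HasDerivAt (fun r : ℝ => p + r • (ee i : Ed d)) (ee i) r := by
      have := ((hasDerivAt_id r).smul_const (ee i : Ed d)).const_add p
      simpa using this
    have h3 := (h1.comp_hasDerivAt r h2).deriv
    have h4 : ‖deriv γ r‖ ≤ ‖iteratedFDeriv ℝ (j + 1) w (p + r • (ee i : Ed d))‖ := by
      rw [show deriv γ r = _ from h3, ← norm_fderiv_iteratedFDeriv]
      refine (ContinuousLinearMap.le_opNorm _ _).trans ?_
      have h1 : ‖(ee i : Ed d)‖ = 1 := by simp
      rw [h1, mul_one]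
    rw [← ofReal_norm, ← ofReal_norm]
    exact ENNReal.ofReal_le_ofReal h4
  set T : ℝ≥0∞ := ∫⁻ s in Icc (0 : ℝ) 1, ‖deriv γ s‖ₑ with hT
  have hptw : ∀ r ∈ Icc (0 : ℝ) 1, ‖γ 0‖ₑ ≤ ‖γ r‖ₑ + T := by
    intro r hr
    have h1 := enorm_sub_le_lintegral_deriv_of_contDiffOn_Icc
      (hcd.mono (Icc_subset_Icc_right hr.2)) hr.1
    have h2 : ∫⁻ s in Icc (0 : ℝ) r, ‖deriv γ s‖ₑ ≤ T :=
      lintegral_mono_set (Icc_subset_Icc_right hr.2)
    calc ‖γ 0‖ₑ = ‖γ r - (γ r - γ 0)‖ₑ := by rw [sub_sub_cancel]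
      _ ≤ ‖γ r‖ₑ + ‖γ r - γ 0‖ₑ := enorm_sub_le
      _ ≤ ‖γ r‖ₑ + T := by gcongr; exact h1.trans h2
  have hvol : volume (Icc (0 : ℝ) 1) = 1 := by simp
  have hval : ∀ r ∈ Icc (0 : ℝ) 1, ∀ k, bs1A w k (Function.update x i r) =
      ‖iteratedFDeriv ℝ k w (p + r • (ee i : Ed d))‖ₑ := by
    intro r hr k
    unfold bs1A
    rw [bs1_line, ← hp, indicator_of_mem (hmem r hr)]
  have h0 : bs1A w j (Function.update x i 0) = ‖γ 0‖ₑ := by
    rw [hval 0 ⟨le_rfl, zero_le_one⟩]
  calc bs1A w j (Function.update x i 0) = ‖γ 0‖ₑ := h0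
    _ = ∫⁻ _ in Icc (0 : ℝ) 1, ‖γ 0‖ₑ := by rw [setLIntegral_const, hvol, mul_one]
    _ ≤ ∫⁻ r in Icc (0 : ℝ) 1, (‖γ r‖ₑ + T) := setLIntegral_mono' measurableSet_Icc hptw
    _ = (∫⁻ r in Icc (0 : ℝ) 1, ‖γ r‖ₑ) + T := by
        rw [lintegral_add_right _ measurable_const, setLIntegral_const, hvol, mul_one]
    _ ≤ (∫⁻ r in Icc (0 : ℝ) 1, bs1A w j (Function.update x i r)) +
          ∫⁻ r in Icc (0 : ℝ) 1, bs1A w (j + 1) (Function.update x i r) := by
        refine add_le_add (setLIntegral_mono' measurableSet_Icc fun r hr => ?_)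
          (setLIntegral_mono' measurableSet_Icc fun r hr => ?_)
        · rw [hval r hr]
        · rw [hval r hr]
          exact hder r hr
    _ = ∫⁻ r in Icc (0 : ℝ) 1, (bs1A w j (Function.update x i r) +
          bs1A w (j + 1) (Function.update x i r)) := by
        rw [lintegral_add_left]
        exact (bs1A_meas hU hc hw j).comp (measurable_update x)
    _ ≤ _ := setLIntegral_le_lintegral _ _

private lemma bs1_stepS (hU : IsOpen U) (hc : cub d ⊆ U) (hw : SmOn w U) (n : ℕ) (i : Fin d)
    (x : Fin d → ℝ) : bs1S w n (Function.update x i 0) ≤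
      2 * ∫⁻ r : ℝ, bs1S w (n + 1) (Function.update x i r) := by
  have hm : ∀ j, Measurable fun r : ℝ => bs1A w j (Function.update x i r) := fun j =>
    (bs1A_meas hU hc hw j).comp (measurable_update x)
  have hmS : Measurable fun r : ℝ => bs1S w (n + 1) (Function.update x i r) :=
    (bs1S_meas hU hc hw (n + 1)).comp (measurable_update x)
  calc bs1S w n (Function.update x i 0)
      ≤ ∑ j ∈ Finset.range (n + 1), ∫⁻ r : ℝ, (bs1A w j (Function.update x i r) +
          bs1A w (j + 1) (Function.update x i r)) :=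
        Finset.sum_le_sum fun j _ => bs1_step hU hc hw j i x
    _ = ∫⁻ r : ℝ, ∑ j ∈ Finset.range (n + 1), (bs1A w j (Function.update x i r) +
          bs1A w (j + 1) (Function.update x i r)) :=
        (lintegral_finsetSum _ fun j _ => (hm j).add (hm (j + 1))).symm
    _ ≤ ∫⁻ r : ℝ, 2 * bs1S w (n + 1) (Function.update x i r) := by
        refine lintegral_mono fun r => ?_
        rw [Finset.sum_add_distrib, two_mul]
        refine add_le_add ?_ ?_
        · unfold bs1S
          exact Finset.sum_le_sum_of_subset (Finset.range_mono (by omega))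
        · unfold bs1S
          rw [Finset.sum_range_succ' _ (n + 1)]
          exact le_self_add
    _ = _ := lintegral_const_mul _ hmS

private lemma bs1_ind (hU : IsOpen U) (hc : cub d ⊆ U) (hw : SmOn w U) (s : Finset (Fin d)) :
    ∀ (n : ℕ) (x : Fin d → ℝ), bs1S w n (fun i => if i ∈ s then 0 else x i) ≤
      2 ^ s.card * lmarginal (fun _ => volume) s (bs1S w (n + s.card)) x := by
  induction s using Finset.induction_on with
  | empty =>
    intro n x
    simp
  | insert i s hi ih =>
    intro n x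
    have e1 : (fun k => if k ∈ insert i s then 0 else x k) =
        fun k => if k ∈ s then 0 else Function.update x i 0 k := by
      ext k
      by_cases hk : k = i
      · subst hk
        simp [hi]
      · simp [hk]
    rw [e1]
    refine (ih n (Function.update x i 0)).trans ?_
    rw [lmarginal_update_of_notMem (bs1S_meas hU hc hw _) hi]
    have h1 : lmarginal (fun _ => volume) s
        (bs1S w (n + s.card) ∘ (Function.update · i 0)) x ≤
        2 * lmarginal (fun _ => volume) (insert i s) (bs1S w (n + s.card + 1)) x := by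
      rw [lmarginal_insert' _ (bs1S_meas hU hc hw _) hi]
      unfold lmarginal
      rw [← lintegral_const_mul' _ _ (by norm_num)]
      exact lintegral_mono fun y => bs1_stepS hU hc hw _ i _
    rw [Finset.card_insert_of_notMem hi, pow_succ, mul_assoc]
    exact mul_le_mul_right h1 _

/-- For a smooth function on a neighbourhood of the unit cube, the value at the vertex `0` is bounded by the `L¹` norms of the
derivatives of order at most `d` on the cube. Proof: in one variable `|g 0| ≤ ∫_0^1 (|g| + |g'|)`; iterate over the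
coordinates (induction over finite sets `s` of coordinates, integrating over `[0,1]^s`, mixed derivatives `∂_S w`,
`S ⊆ s`, each first order in every variable); `|∂_S w| ≤ |D^{|S|} w|` since `|e_i| = 1`. -/
theorem cube_sobolev (d : ℕ) : ∃ C : ℝ≥0, ∀ (G : Type) [NormedAddCommGroup G] [NormedSpace ℝ G] (w : Ed d → G)
    (U : Set (Ed d)), IsOpen U → cub d ⊆ U → SmOn w U →
    ‖w 0‖ₑ ≤ C * ∑ j ∈ Finset.range (d + 1), ∫⁻ t in cub d, ‖iteratedFDeriv ℝ j w t‖ₑ := by
  refine ⟨2 ^ d, ?_⟩
  intro G _ _ w U hU hc hw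
  have h1 := bs1_ind hU hc hw Finset.univ 0 0
  simp only [Finset.mem_univ, if_true, Finset.card_univ, Fintype.card_fin, zero_add,
    lmarginal_univ] at h1
  have h0 : (0 : Ed d) ∈ cub d := fun i => by simp
  have e0 : bs1S w 0 (fun _ => 0) = ‖w 0‖ₑ := by
    unfold bs1S bs1A
    have e : (WithLp.toLp 2 (fun _ : Fin d => (0 : ℝ)) : Ed d) = 0 := rfl
    rw [e, zero_add, Finset.sum_range_one, indicator_of_mem h0, ← ofReal_norm,
      norm_iteratedFDeriv_zero, ofReal_norm]
  rw [e0] at h1
  refine h1.trans (le_of_eq ?_)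
  have h2 : ∀ j, ∫⁻ t : Fin d → ℝ, bs1A w j t =
      ∫⁻ t in cub d, ‖iteratedFDeriv ℝ j w t‖ₑ := by
    intro j
    unfold bs1A
    rw [← lintegral_indicator (bs1_cub_closed d).measurableSet]
    exact (PiLp.volume_preserving_toLp (Fin d)).lintegral_comp_emb
      (MeasurableEquiv.toLp 2 (Fin d → ℝ)).measurableEmbedding _
  have h3 : ∫⁻ t : Fin d → ℝ, bs1S w d t ∂Measure.pi (fun _ => volume) =
      ∑ j ∈ Finset.range (d + 1), ∫⁻ t in cub d, ‖iteratedFDeriv ℝ j w t‖ₑ := by
    unfold bs1S
    rw [lintegral_finsetSum _ fun j _ => bs1A_meas hU hc hw j]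
    exact Finset.sum_congr rfl fun j _ => h2 j
  rw [h3]
  norm_cast

end Pool.Agent.Lib.MP_79abb3_an.W.B
end
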