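import Pool.Agent.Lib.MP_79abb3_an.W.BG1
import Pool.Agent.Lib.MP_79abb3_an.W.BN1
import Pool.Agent.Lib.MP_79abb3_an.W.BS1
import Pool.Agent.Lib.MP_79abb3_an.W.BE2
import Pool.Agent.Lib.MP_79abb3_an.W.BG5
import Pool.Agent.Lib.MP_79abb3_an.W.BM2

section

/-!
Theorem W, block B: parallelepipeds in the domain.
-/

set_option autoImplicit false
set_option linter.unusedSectionVars false

open MeasureTheory Set Filter Topology Function
open scoped RealInnerProductSpace ENNReal NNReal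

namespace Pool.Agent.Lib.MP_79abb3_an.W.B

variable {d : ℕ} {D : Set (Ed d)} {z : Ed d → ℝ} {δ : ℝ}

/-- For every unit vector `n` there is a linear map `L` with `|det L| ≥ 1`, `|L e_i| ≤ 2` and `⟨n, L e_i⟩ ≥ 1`: the
columns are `n + ε_i e_i` with `ε_i = sign n_i` (`1` if `n_i = 0`). The matrix is `diag ε + n 1ᵀ`, its determinant is
`(∏ ε_i) (1 + ∑ ε_i n_i)` (`Matrix.det_one_add_col_mul_row` or similar), of absolute value `1 + ∑ |n_i| ≥ 1`. -/
theorem exists_cone_frame (n : Ed d) (hn : ‖n‖ = 1) : ∃ L : Ed d →L[ℝ] Ed d, 1 ≤ |L.det| ∧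
    (∀ i, ‖L (ee i)‖ ≤ 2) ∧ ∀ i, 1 ≤ ⟪n, L (ee i)⟫ := by
  set ε : Fin d → ℝ := fun i => if 0 ≤ n i then 1 else -1 with hε
  have he1 : ∀ i, |ε i| = 1 := by
    intro i
    simp only [hε]
    split_ifs <;> simp
  have he2 : ∀ i, ε i * n i = |n i| := by
    intro i
    simp only [hε]
    split_ifs with h
    · rw [one_mul, abs_of_nonneg h]
    · rw [abs_of_neg (not_le.1 h)]; ring
  have he3 : ∀ i, ε i * ε i = 1 := by
    intro i
    rw [← abs_mul_abs_self, he1, one_mul]
  set E : Ed d →ₗ[ℝ] Ed d := Matrix.toEuclideanLin (Matrix.diagonal ε) with hEdef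
  have hE : ∀ (x : Ed d) i, E x i = ε i * x i := by
    intro x i
    rw [hEdef, Matrix.ofLp_toLpLin, Matrix.toLin'_apply, Matrix.mulVec_diagonal]
  have hdE : |LinearMap.det E| = 1 := by
    rw [hEdef, Matrix.toEuclideanLin_eq_toLin_orthonormal, LinearMap.det_toLin, Matrix.det_diagonal,
      Finset.abs_prod]
    simp [he1]
  let f : Ed d →ₗ[ℝ] ℝ :=
    { toFun := fun x => ∑ i, x i
      map_add' := fun x y => by simp [Finset.sum_add_distrib]
      map_smul' := fun c x => by simp [Finset.mul_sum] }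
  have hf : ∀ x : Ed d, f x = ∑ i, x i := fun _ => rfl
  set L0 : Ed d →ₗ[ℝ] Ed d := E ∘ₗ LinearMap.transvection f (E n) with hL0
  have hdL : 1 ≤ |LinearMap.det L0| := by
    rw [hL0, LinearMap.det_comp, abs_mul, hdE, one_mul, LinearMap.transvection.det, hf]
    have : (0 : ℝ) ≤ ∑ i, E n i := Finset.sum_nonneg fun i _ => by rw [hE, he2]; exact abs_nonneg _
    rw [abs_of_nonneg (by linarith)]
    linarith
  have hEE : E (E n) = n := by
    ext i
    rw [hE, hE, ← mul_assoc, he3, one_mul]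
  have hL : ∀ i, L0 (ee i) = n + ε i • ee i := by
    intro i
    have h1 : f (ee i) = 1 := by
      rw [hf]
      simp [ee, EuclideanSpace.single_apply]
    rw [hL0, LinearMap.comp_apply, LinearMap.transvection.apply, h1, one_smul, map_add, hEE, add_comm]
    congr 1
    ext j
    rw [hE]
    by_cases hij : j = i
    · subst hij; simp
    · simp [ee, hij]
  refine ⟨LinearMap.toContinuousLinearMap L0, ?_, fun i => ?_, fun i => ?_⟩
  · exact hdL
  · rw [LinearMap.coe_toContinuousLinearMap', hL]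
    calc ‖n + ε i • ee i‖ ≤ ‖n‖ + ‖ε i • (ee i : Ed d)‖ := norm_add_le _ _
      _ = 2 := by
        rw [hn, norm_smul, Real.norm_eq_abs, he1]
        simp [ee]
        norm_num
  · rw [LinearMap.coe_toContinuousLinearMap', hL, inner_add_right, real_inner_self_eq_norm_sq, hn,
      inner_smul_right]
    have : ⟪n, (ee i : Ed d)⟫ = n i := by
      rw [real_inner_comm]
      simp [ee, EuclideanSpace.inner_single_left]
    rw [this, he2]
    have := abs_nonneg (n i)
    linarith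

private lemma bg4_sum (L : Ed d →L[ℝ] Ed d) (t : Ed d) : L t = ∑ i, t i • L (ee i) := by
  conv_lhs => rw [show t = ∑ i, t i • (ee i : Ed d) by
    have := (EuclideanSpace.basisFun (Fin d) ℝ).sum_repr t
    simpa [ee] using this.symm]
  rw [map_sum]
  simp only [map_smul]

/-- For every `x ∈ D` there is a parallelepiped with vertex `x` in `D`, of size bounded below. Proof: near the boundary
(`z x < 2 δ`) take `s L` with `L` of `exists_cone_frame` for `n = ∇z x`: for `y = ∑ t_i s L e_i` one has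
`⟨n, y⟩ ≥ s ∑ t_i`, `|y| ≤ 2 s ∑ t_i ≤ 2 s d`, so `z (x + y) ≥ z x + s ∑ t_i - M (2 s ∑ t_i)² > 0` for
`s` small (`Dom.taylor`). If `z x ≥ 2 δ` take `s` times the identity. -/
theorem Dom.exists_par (h : Dom D z δ) : ∃ c : ℝ, 0 < c ∧ ∀ x ∈ D, ∃ L : Ed d →L[ℝ] Ed d, c ≤ |L.det| ∧
    ‖L‖ ≤ 1 ∧ ∀ t : Ed d, (∀ i, t i ∈ Icc (0 : ℝ) 1) → x + L t ∈ D := by
  obtain ⟨M, hM, hT⟩ := h.taylor
  have hδ := h.pos
  have hd0 : (0 : ℝ) ≤ d := Nat.cast_nonneg d
  set s : ℝ := min (1 / (4 * (M + 1) * (d + 1))) (δ / (4 * (M + 1) * (d + 1))) with hs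
  have hs0 : 0 < s := lt_min (by positivity) (by positivity)
  have hs1 : s * (4 * (M + 1) * (d + 1)) ≤ 1 := by
    rw [← le_div_iff₀ (by positivity)]; exact min_le_left _ _
  have hs2 : s * (4 * (M + 1) * (d + 1)) ≤ δ := by
    rw [← le_div_iff₀ (by positivity)]; exact min_le_right _ _
  have hsa := mul_nonneg hs0.le hd0
  have hsb := mul_nonneg hs0.le hM.le
  have hsc := mul_nonneg hsb hd0
  have hsd : s * (4 * (d + 1)) ≤ 1 := by nlinarith
  have hsMd : 4 * M * (s * d) ≤ 1 := by nlinarith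
  have hsMd2 : 4 * M * (s * d) ≤ δ := by nlinarith
  have hsum : ∀ t : Ed d, (∀ i, t i ∈ Icc (0 : ℝ) 1) → ∑ i, t i ≤ d := by
    intro t ht
    calc ∑ i, t i ≤ ∑ _i : Fin d, (1 : ℝ) := Finset.sum_le_sum fun i _ => (ht i).2
      _ = d := by simp
  have hsum0 : ∀ t : Ed d, (∀ i, t i ∈ Icc (0 : ℝ) 1) → 0 ≤ ∑ i, t i :=
    fun t ht => Finset.sum_nonneg fun i _ => (ht i).1
  have hdetd : ∀ L : Ed d →L[ℝ] Ed d, |(s • L).det| = s ^ d * |L.det| := by
    intro L
    have : (s • L).det = s ^ d * L.det := by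
      rw [ContinuousLinearMap.det, ContinuousLinearMap.det, ContinuousLinearMap.coe_smul,
        LinearMap.det_smul, finrank_euclideanSpace, Fintype.card_fin]
    rw [this, abs_mul, abs_of_pos (pow_pos hs0 d)]
  have hopn : ∀ L : Ed d →L[ℝ] Ed d, (∀ i, ‖L (ee i)‖ ≤ 2) → ‖s • L‖ ≤ 1 := by
    intro L hL
    refine ContinuousLinearMap.opNorm_le_bound _ zero_le_one fun t => ?_
    rw [ContinuousLinearMap.smul_apply, norm_smul, Real.norm_of_nonneg hs0.le, bg4_sum L t]
    have h1 : ‖∑ i, t i • L (ee i)‖ ≤ d * (‖t‖ * 2) := by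
      calc ‖∑ i, t i • L (ee i)‖ ≤ ∑ i, ‖t i • L (ee i)‖ := norm_sum_le _ _
        _ ≤ ∑ _i : Fin d, ‖t‖ * 2 := by
          refine Finset.sum_le_sum fun i _ => ?_
          rw [norm_smul]
          exact mul_le_mul (PiLp.norm_apply_le t i) (hL i) (norm_nonneg _) (norm_nonneg _)
        _ = d * (‖t‖ * 2) := by simp
    have h2 := norm_nonneg t
    calc s * ‖∑ i, t i • L (ee i)‖ ≤ s * (d * (‖t‖ * 2)) := by gcongr
      _ = (s * (2 * d)) * ‖t‖ := by ring
      _ ≤ 1 * ‖t‖ := by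
        gcongr
        nlinarith [mul_nonneg hs0.le hd0]
  have hnorm : ∀ L : Ed d →L[ℝ] Ed d, (∀ i, ‖L (ee i)‖ ≤ 2) → ∀ t : Ed d, (∀ i, t i ∈ Icc (0 : ℝ) 1) →
      ‖(s • L) t‖ ≤ 2 * s * ∑ i, t i := by
    intro L hL t ht
    rw [ContinuousLinearMap.smul_apply, norm_smul, Real.norm_of_nonneg hs0.le, bg4_sum L t]
    calc s * ‖∑ i, t i • L (ee i)‖ ≤ s * ∑ i, ‖t i • L (ee i)‖ := by
          gcongr; exact norm_sum_le _ _
      _ ≤ s * ∑ i, t i * 2 := by
          gcongr with i _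
          rw [norm_smul, Real.norm_of_nonneg (ht i).1]
          exact mul_le_mul_of_nonneg_left (hL i) (ht i).1
      _ = 2 * s * ∑ i, t i := by rw [← Finset.sum_mul]; ring
  refine ⟨s ^ d, pow_pos hs0 d, fun x hx => ?_⟩
  have hzx : 0 < z x := by rw [h.eq] at hx; exact hx
  have hid : ∀ i, ‖(ContinuousLinearMap.id ℝ (Ed d)) (ee i)‖ ≤ 2 := by
    intro i; simp [ee]
  rcases lt_or_ge (z x) (2 * δ) with hlt | hge
  · obtain ⟨L, hL1, hL2, hL3⟩ := exists_cone_frame (gradient z x)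
      (h.one x (by rw [abs_of_pos hzx]; linarith))
    refine ⟨s • L, ?_, hopn L hL2, fun t ht => ?_⟩
    · rw [hdetd]
      exact le_mul_of_one_le_right (pow_pos hs0 d).le hL1
    · have hn := hnorm L hL2 t ht
      have hs' := hsum t ht
      have hs0' := hsum0 t ht
      set T := ∑ i, t i with hTdef
      have hn1 : ‖x + (s • L) t - x‖ ≤ 1 := by
        rw [add_sub_cancel_left]
        refine hn.trans ?_
        nlinarith [mul_nonneg hs0.le hd0, mul_le_mul_of_nonneg_left hs' hs0.le]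
      have h1 := (hT x hzx.le (x + (s • L) t) hn1).1
      rw [add_sub_cancel_left] at h1
      have h2 : s * T ≤ ⟪gradient z x, (s • L) t⟫ := by
        rw [ContinuousLinearMap.smul_apply, inner_smul_right, bg4_sum L t, inner_sum]
        refine mul_le_mul_of_nonneg_left ?_ hs0.le
        rw [hTdef]
        refine Finset.sum_le_sum fun i _ => ?_
        rw [inner_smul_right]
        exact le_mul_of_one_le_right (ht i).1 (hL3 i)
      have h3 : M * ‖(s • L) t‖ ^ 2 ≤ M * (2 * s * T) ^ 2 := by gcongr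
      have h4 : M * (2 * s * T) ^ 2 ≤ s * T := by
        have h5 : 4 * M * (s * T) ≤ 1 := by
          refine le_trans ?_ hsMd
          gcongr
        have h6 : 0 ≤ s * T := by positivity
        nlinarith
      have h7 := (abs_le.1 h1).1
      rw [h.eq]
      show 0 < z (x + (s • L) t)
      linarith
  · refine ⟨s • ContinuousLinearMap.id ℝ (Ed d), ?_, hopn _ hid, fun t ht => ?_⟩
    · rw [hdetd]
      refine le_mul_of_one_le_right (pow_pos hs0 d).le ?_
      rw [ContinuousLinearMap.det, ContinuousLinearMap.coe_id, LinearMap.det_id, abs_one]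
    · have hn := hnorm _ hid t ht
      have hs' := hsum t ht
      have hs0' := hsum0 t ht
      set T := ∑ i, t i with hTdef
      set v := (s • ContinuousLinearMap.id ℝ (Ed d)) t with hv
      have hvd : ‖v‖ ≤ 2 * (s * d) := by
        refine hn.trans ?_
        nlinarith [mul_le_mul_of_nonneg_left hs' hs0.le]
      have hn1 : ‖x + v - x‖ ≤ 1 := by
        rw [add_sub_cancel_left]
        refine hvd.trans ?_
        nlinarith [mul_nonneg hs0.le hd0]
      have h1 := (hT x hzx.le (x + v) hn1).1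
      have h8 := (hT x hzx.le x (by simp)).2.2
      rw [add_sub_cancel_left] at h1 hn1
      have h7 := (abs_le.1 h1).1
      have h9 : -(M * ‖v‖) ≤ ⟪gradient z x, v⟫ := by
        have := (abs_le.1 (abs_real_inner_le_norm (gradient z x) v)).1
        have h10 : ‖gradient z x‖ * ‖v‖ ≤ M * ‖v‖ := by gcongr
        linarith
      have h11 : ‖v‖ ^ 2 ≤ ‖v‖ := by nlinarith [norm_nonneg v]
      have h12 : M * ‖v‖ ^ 2 ≤ M * ‖v‖ := by gcongr
      have h13 : M * ‖v‖ ≤ M * (2 * (s * d)) := by gcongr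
      rw [h.eq]
      show 0 < z (x + v)
      nlinarith

end Pool.Agent.Lib.MP_79abb3_an.W.B
end

section

/-!
Theorem W, block B: the boundary condition of weak solutions.
-/

set_option autoImplicit false
set_option linter.unusedSectionVars false

open MeasureTheory Set Filter Topology Function
open scoped RealInnerProductSpace ENNReal NNReal

namespace Pool.Agent.Lib.MP_79abb3_an.W.B

variable {d : ℕ} {D : Set (Ed d)} {z : Ed d → ℝ} {δ : ℝ}

private theorem bn3_coord (z : Ed d → ℝ) (x : Ed d) (i : Fin d) : gradient z x i = fderiv ℝ z x (ee i) := by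
  have h := InnerProductSpace.toDual_symm_apply (𝕜 := ℝ) (x := (ee i : Ed d)) (y := fderiv ℝ z x)
  rw [EuclideanSpace.inner_single_right] at h
  simpa [gradient] using h

private theorem bn3_grad_sm (hz : Sm z) : Sm (gradient z) := by
  refine contDiff_euclidean.mpr fun i => ?_
  have h1 : (fun x => gradient z x i) = fun x => fderiv ℝ z x (ee i) := by
    funext x
    rw [bn3_coord]
  rw [h1]
  exact (hz.fderiv_right (m := ((⊤ : ℕ∞) : WithTop ℕ∞)) (by simp)).clm_apply contDiff_const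

private theorem bn3_norm (c : Ed d → ℝ) (x : Ed d) : ‖gradient c x‖ = ‖fderiv ℝ c x‖ :=
  (InnerProductSpace.toDual ℝ (Ed d)).symm.norm_map _

/-- Smooth in `D`, bounded with bounded first derivatives. -/
private structure BC {G : Type} [NormedAddCommGroup G] [NormedSpace ℝ G] (D : Set (Ed d)) (u : Ed d → G) :
    Prop where
  sm : SmOn u D
  bd : ∃ M : ℝ, ∀ x ∈ D, ‖u x‖ ≤ M ∧ ‖fderiv ℝ u x‖ ≤ M

section
variable {G H K : Type} [NormedAddCommGroup G] [NormedSpace ℝ G] [NormedAddCommGroup H] [NormedSpace ℝ H]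
  [NormedAddCommGroup K] [NormedSpace ℝ K]

private theorem BC.da (hD : IsOpen D) {u : Ed d → G} (hu : BC D u) {x : Ed d} (hx : x ∈ D) :
    DifferentiableAt ℝ u x :=
  (hu.sm.contDiffAt (hD.mem_nhds hx)).differentiableAt (by simp)

private theorem bn3_of_sm (h : Dom D z δ) {u : Ed d → G} (hu : Sm u) : BC D u := by
  refine ⟨hu.contDiffOn, ?_⟩
  obtain ⟨C1, h1⟩ := h.compact_nonneg.exists_bound_of_continuousOn hu.continuous.continuousOn
  obtain ⟨C2, h2⟩ := h.compact_nonneg.exists_bound_of_continuousOn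
    (hu.continuous_fderiv (by simp)).continuousOn
  refine ⟨max C1 C2, fun x hx => ?_⟩
  have hx' : 0 ≤ z x := by
    rw [h.eq] at hx
    exact le_of_lt hx
  exact ⟨(h1 x hx').trans (le_max_left _ _), (h2 x hx').trans (le_max_right _ _)⟩

private theorem BC.bil (hD : IsOpen D) (L : G →L[ℝ] H →L[ℝ] K) {u : Ed d → G} {v : Ed d → H} (hu : BC D u)
    (hv : BC D v) : BC D (fun x => L (u x) (v x)) := by
  refine ⟨(L.contDiff.comp_contDiffOn hu.sm).clm_apply hv.sm, ?_⟩
  obtain ⟨M, hM⟩ := hu.bd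
  obtain ⟨M', hM'⟩ := hv.bd
  refine ⟨‖L‖ * M * M' + ‖L‖ * M * M', fun x hx => ?_⟩
  obtain ⟨a1, a2⟩ := hM x hx
  obtain ⟨b1, b2⟩ := hM' x hx
  have m0 : 0 ≤ M := (norm_nonneg _).trans a1
  have m0' : 0 ≤ M' := (norm_nonneg _).trans b1
  have hL := norm_nonneg L
  constructor
  · calc ‖L (u x) (v x)‖ ≤ ‖L‖ * ‖u x‖ * ‖v x‖ := L.le_opNorm₂ _ _
      _ ≤ ‖L‖ * M * M' := by gcongr
      _ ≤ _ := le_add_of_nonneg_right (by positivity)
  · have e := (L.hasFDerivAt_of_bilinear (hu.da hD hx).hasFDerivAt (hv.da hD hx).hasFDerivAt).fderiv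
    rw [e]
    refine (norm_add_le _ _).trans (add_le_add ?_ ?_)
    · refine ContinuousLinearMap.opNorm_le_bound _ (by positivity) fun w => ?_
      calc ‖L (u x) (fderiv ℝ v x w)‖ ≤ ‖L‖ * ‖u x‖ * ‖fderiv ℝ v x w‖ := L.le_opNorm₂ _ _
        _ ≤ ‖L‖ * M * (M' * ‖w‖) := by
          gcongr
          exact (ContinuousLinearMap.le_opNorm _ _).trans (by gcongr)
        _ = ‖L‖ * M * M' * ‖w‖ := by ring
    · refine ContinuousLinearMap.opNorm_le_bound _ (by positivity) fun w => ?_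
      calc ‖L (fderiv ℝ u x w) (v x)‖ ≤ ‖L‖ * ‖fderiv ℝ u x w‖ * ‖v x‖ := L.le_opNorm₂ _ _
        _ ≤ ‖L‖ * (M * ‖w‖) * M' := by
          gcongr
          exact (ContinuousLinearMap.le_opNorm _ _).trans (by gcongr)
        _ = ‖L‖ * M * M' * ‖w‖ := by ring

private theorem BC.smul (hD : IsOpen D) {c : Ed d → ℝ} {u : Ed d → G} (hc : BC D c) (hu : BC D u) :
    BC D (fun x => c x • u x) := by
  simpa using hc.bil hD (ContinuousLinearMap.lsmul ℝ ℝ) hu

private theorem BC.sub (hD : IsOpen D) {u v : Ed d → G} (hu : BC D u) (hv : BC D v) :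
    BC D (fun x => u x - v x) := by
  refine ⟨hu.sm.sub hv.sm, ?_⟩
  obtain ⟨M, hM⟩ := hu.bd
  obtain ⟨M', hM'⟩ := hv.bd
  refine ⟨M + M', fun x hx => ⟨(norm_sub_le _ _).trans (add_le_add (hM x hx).1 (hM' x hx).1), ?_⟩⟩
  rw [fderiv_fun_sub (hu.da hD hx) (hv.da hD hx)]
  exact (norm_sub_le _ _).trans (add_le_add (hM x hx).2 (hM' x hx).2)

end

private theorem BC.inner (hD : IsOpen D) {u v : Ed d → Ed d} (hu : BC D u) (hv : BC D v) :
    BC D (fun x => ⟪u x, v x⟫) := by
  exact hu.bil hD (innerSL ℝ) hv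

private theorem bn3_divg_smul {c : Ed d → ℝ} {w : Ed d → Ed d} {x : Ed d} (hc : DifferentiableAt ℝ c x)
    (hw : DifferentiableAt ℝ w x) :
    divg (fun y => c y • w y) x = c x * divg w x + ⟪gradient c x, w x⟫ := by
  have e : fderiv ℝ (fun y => c y • w y) x = c x • fderiv ℝ w x + (fderiv ℝ c x).smulRight (w x) :=
    (hc.hasFDerivAt.smul hw.hasFDerivAt).fderiv
  unfold divg
  rw [e, Finset.mul_sum, PiLp.inner_apply, ← Finset.sum_add_distrib]
  refine Finset.sum_congr rfl fun i _ => ?_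
  rw [bn3_coord]
  simp [mul_comm]

private theorem bn3_divg_add {u w : Ed d → Ed d} {x : Ed d} (hu : DifferentiableAt ℝ u x)
    (hw : DifferentiableAt ℝ w x) : divg (fun y => u y + w y) x = divg u x + divg w x := by
  unfold divg
  rw [fderiv_fun_add hu hw, ← Finset.sum_add_distrib]
  rfl

private theorem bn3_divg_sub {u w : Ed d → Ed d} {x : Ed d} (hu : DifferentiableAt ℝ u x)
    (hw : DifferentiableAt ℝ w x) : divg (fun y => u y - w y) x = divg u x - divg w x := by
  unfold divg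
  rw [fderiv_fun_sub hu hw, ← Finset.sum_sub_distrib]
  rfl

private theorem BC.int (h : Dom D z δ) {X : Ed d → Ed d} (hX : BC D X) : IntegrableOn (divg X) D := by
  obtain ⟨M, hM⟩ := hX.bd
  have hcont : ContinuousOn (divg X) D := by
    unfold divg
    refine continuousOn_finset_sum _ fun i _ => ?_
    have h1 : ContinuousOn (fun x => fderiv ℝ X x (ee i)) D :=
      (hX.sm.continuousOn_fderiv_of_isOpen h.isOpen (by simp)).clm_apply continuousOn_const
    exact (EuclideanSpace.proj (𝕜 := ℝ) i).continuous.comp_continuousOn h1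
  have hfin : IsFiniteMeasure (volume.restrict D) := ⟨by
    rw [Measure.restrict_apply_univ]
    exact h.bdd.measure_lt_top⟩
  refine Integrable.of_bound (hcont.aestronglyMeasurable h.isOpen.measurableSet) (d * M) ?_
  refine (ae_restrict_iff' h.isOpen.measurableSet).2 (Eventually.of_forall fun x hx => ?_)
  unfold divg
  calc ‖∑ i, fderiv ℝ X x (ee i) i‖ ≤ ∑ i, ‖fderiv ℝ X x (ee i) i‖ := norm_sum_le _ _
    _ ≤ ∑ _i : Fin d, M := by
      refine Finset.sum_le_sum fun i _ => (PiLp.norm_apply_le _ i).trans ?_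
      refine (ContinuousLinearMap.le_opNorm _ _).trans ?_
      rw [show ‖(ee i : Ed d)‖ = 1 by simp [ee], mul_one]
      exact (hM x hx).2
    _ = d * M := by simp

/-- The natural boundary condition. `v` is smooth in `D`, bounded with bounded first derivatives, `div v = f` in `D` and
`∫_D (⟨v, ∇φ⟩ + f φ) = 0` for all test functions. Then `⟨∇z, v⟩ = O(z)`. Proof: `g = χ' ⟨∇z, v⟩` with `χ' = 1 - χ`,
`χ = 1` for `z ≥ 2 δ`, `χ = 0` for `z ≤ δ` (`Dom.exists_cut`). For `B ∈ C_c^∞` put `b = χ' ⟨B, ∇z⟩` (test function). Where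
`χ' ≠ 0` we have `|∇z| = 1` and `g B = b v - b (v - ⟨∇z, v⟩ ∇z) + g (B - ⟨B, ∇z⟩ ∇z)`; the last two fields are
tangential and vanish for `z ≥ 2 δ`: their divergences have integral `0` (`Dom.gauss`), and
`∫_D div (b v) = ∫ ⟨v, ∇b⟩ + f b = 0`. So `∫_D div (g B) = 0`, and `Dom.zero_trace`. -/
theorem Dom.normal_trace (h : Dom D z δ) {v : Ed d → Ed d} {f : Ed d → ℝ} (hv : SmOn v D) {M : ℝ}
    (h0 : ∀ x ∈ D, ‖v x‖ ≤ M) (h1 : ∀ x ∈ D, ‖fderiv ℝ v x‖ ≤ M) (hf : ∀ x ∈ D, divg v x = f x)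
    (hw : ∀ φ, IsT1 φ → ∫ x in D, (⟪v x, gradient φ x⟫ + f x * φ x) = 0) :
    OO D z (fun x => ⟪gradient z x, v x⟫) := by
  have hD := h.isOpen
  have hδ := h.pos
  obtain ⟨χ, hχ, -, -, hχ01, hχ1, hχ0⟩ := h.exists_cut (a := 2 * δ) (by linarith)
  have hχ' : Sm (fun x => 1 - χ x) := contDiff_const.sub hχ
  have hz := bn3_grad_sm h.sm
  have cz : BC D (gradient z) := bn3_of_sm h hz
  have cv : BC D v := ⟨hv, M, fun x hx => ⟨h0 x hx, h1 x hx⟩⟩
  have cχ : BC D (fun x => 1 - χ x) := bn3_of_sm h hχ'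
  have cn : BC D (fun x => ⟪gradient z x, v x⟫) := cz.inner hD cv
  have cg : BC D (fun x => (1 - χ x) * ⟪gradient z x, v x⟫) := cχ.smul hD cn
  set g : Ed d → ℝ := fun x => (1 - χ x) * ⟪gradient z x, v x⟫ with hg
  have key : OO D z g := by
    obtain ⟨M', hM'⟩ := cg.bd
    refine h.zero_trace cg.sm (M := M') (fun x hx => (hM' x hx).1)
      (fun x hx => by rw [bn3_norm]; exact (hM' x hx).2) fun B hB hBc => ?_
    set b : Ed d → ℝ := fun x => (1 - χ x) * ⟪B x, gradient z x⟫ with hb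
    have hbS : Sm b := hχ'.mul (hB.inner ℝ hz)
    have hbc : HasCompactSupport b := by
      refine HasCompactSupport.mul_left ?_
      exact hBc.mono fun x hx => by
        rw [mem_support] at hx ⊢
        intro h0
        exact hx (by rw [h0, inner_zero_left])
    have cB : BC D B := bn3_of_sm h hB
    have cb : BC D b := bn3_of_sm h hbS
    have cX0 : BC D (fun x => b x • v x) := cb.smul hD cv
    have cX1 : BC D (fun x => b x • (v x - ⟪gradient z x, v x⟫ • gradient z x)) :=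
      cb.smul hD (cv.sub hD (cn.smul hD cz))
    have cX2 : BC D (fun x => g x • (B x - ⟪B x, gradient z x⟫ • gradient z x)) :=
      cg.smul hD (cB.sub hD ((cB.inner hD cz).smul hD cz))
    have cgB : BC D (fun x => g x • B x) := cg.smul hD cB
    set X0 : Ed d → Ed d := fun x => b x • v x with hX0
    set X1 : Ed d → Ed d := fun x => b x • (v x - ⟪gradient z x, v x⟫ • gradient z x) with hX1
    set X2 : Ed d → Ed d := fun x => g x • (B x - ⟪B x, gradient z x⟫ • gradient z x) with hX2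
    have hnz : ∀ x ∈ D, (1 - χ x) * (1 - ‖gradient z x‖ ^ 2) = 0 := by
      intro x hx
      have hx0 : 0 < z x := by rw [h.eq] at hx; exact hx
      rcases lt_or_ge (z x) (2 * δ) with h2 | h2
      · rw [h.one x (by rw [abs_of_pos hx0]; linarith)]
        ring
      · rw [hχ1 x h2]
        ring
    have t1 : ∀ x ∈ D, ⟪gradient z x, X1 x⟫ = 0 := by
      intro x hx
      have e := hnz x hx
      simp only [hX1, hb]
      rw [inner_smul_right, inner_sub_right, inner_smul_right, real_inner_self_eq_norm_sq]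
      linear_combination (⟪B x, gradient z x⟫ * ⟪gradient z x, v x⟫) * e
    have t2 : ∀ x ∈ D, ⟪gradient z x, X2 x⟫ = 0 := by
      intro x hx
      have e := hnz x hx
      simp only [hX2, hg]
      rw [inner_smul_right, inner_sub_right, inner_smul_right, real_inner_self_eq_norm_sq,
        real_inner_comm (gradient z x) (B x)]
      linear_combination (⟪gradient z x, B x⟫ * ⟪gradient z x, v x⟫) * e
    have g1 : ∫ x in D, divg X1 x = 0 := by
      obtain ⟨M1, hM1⟩ := cX1.bd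
      exact h.gauss (cX1.sm.of_le (by simp)) (fun x hx => (hM1 x hx).1) (fun x hx => (hM1 x hx).2)
        ⟨0, fun x hx => by
          show ‖⟪gradient z x, X1 x⟫‖ ≤ 0 * z x
          rw [t1 x hx]
          simp⟩
    have g2 : ∫ x in D, divg X2 x = 0 := by
      obtain ⟨M2, hM2⟩ := cX2.bd
      exact h.gauss (cX2.sm.of_le (by simp)) (fun x hx => (hM2 x hx).1) (fun x hx => (hM2 x hx).2)
        ⟨0, fun x hx => by
          show ‖⟪gradient z x, X2 x⟫‖ ≤ 0 * z x
          rw [t2 x hx]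
          simp⟩
    have g0 : ∫ x in D, divg X0 x = 0 := by
      rw [← hw b ⟨hbS.of_le (by simp), hbc⟩]
      refine setIntegral_congr_fun hD.measurableSet fun x hx => ?_
      show divg X0 x = ⟪v x, gradient b x⟫ + f x * b x
      rw [hX0, bn3_divg_smul (cb.da hD hx) (cv.da hD hx), hf x hx, real_inner_comm]
      ring
    have hsum : ∀ x ∈ D, g x * divg B x + ⟪gradient g x, B x⟫ = divg X0 x - divg X1 x + divg X2 x := by
      intro x hx
      rw [← bn3_divg_smul (cg.da hD hx) (cB.da hD hx), ← bn3_divg_sub (cX0.da hD hx) (cX1.da hD hx),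
        ← bn3_divg_add ((cX0.da hD hx).fun_sub (cX1.da hD hx)) (cX2.da hD hx)]
      congr 1
      funext y
      have e : b y * ⟪gradient z y, v y⟫ = g y * ⟪B y, gradient z y⟫ := by
        simp only [hg, hb]
        ring
      show g y • B y = b y • v y - b y • (v y - ⟪gradient z y, v y⟫ • gradient z y) +
        g y • (B y - ⟪B y, gradient z y⟫ • gradient z y)
      rw [smul_sub, smul_sub, smul_smul, smul_smul, e]
      abel
    calc ∫ x in D, (g x * divg B x + ⟪gradient g x, B x⟫)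
        = ∫ x in D, (divg X0 x - divg X1 x + divg X2 x) :=
          setIntegral_congr_fun hD.measurableSet hsum
      _ = 0 := by
        have hi : Integrable (fun x => divg X0 x - divg X1 x) (volume.restrict D) :=
          (cX0.int h).sub (cX1.int h)
        rw [integral_add hi (cX2.int h), integral_sub (cX0.int h) (cX1.int h), g0, g1, g2]
        ring
  obtain ⟨C, hC⟩ := key
  obtain ⟨M', hM'⟩ := cn.bd
  refine ⟨max C (M' / δ), fun x hx => ?_⟩
  have hx0 : 0 < z x := by rw [h.eq] at hx; exact hx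
  rcases le_or_gt (z x) δ with h2 | h2
  · have e := hC x hx
    simp only [hg] at e
    rw [hχ0 x (by linarith), sub_zero, one_mul] at e
    exact e.trans (mul_le_mul_of_nonneg_right (le_max_left _ _) hx0.le)
  · have hM0 : 0 ≤ M' := (norm_nonneg _).trans (hM' x hx).1
    calc ‖⟪gradient z x, v x⟫‖ ≤ M' := (hM' x hx).1
      _ = M' / δ * δ := by field_simp
      _ ≤ max C (M' / δ) * z x := by
        refine mul_le_mul (le_max_right _ _) h2.le hδ.le ?_
        exact le_trans (by positivity) (le_max_right _ _)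

end Pool.Agent.Lib.MP_79abb3_an.W.B
end

section

/-!
Theorem W, block B: Sobolev inequality for the domain.
-/

set_option autoImplicit false
set_option linter.unusedSectionVars false

open MeasureTheory Set Filter Topology Function
open scoped RealInnerProductSpace ENNReal NNReal

namespace Pool.Agent.Lib.MP_79abb3_an.W.B

variable {d : ℕ} {D : Set (Ed d)} {z : Ed d → ℝ} {δ : ℝ}

private lemma bs2_cub_meas (d : ℕ) : MeasurableSet (cub d) := by
  have h : cub d = ⋂ i : Fin d, (fun t : Ed d => t i) ⁻¹' Icc (0 : ℝ) 1 := by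
    ext t
    simp [cub]
  rw [h]
  refine (isClosed_iInter fun i => isClosed_Icc.preimage ?_).measurableSet
  fun_prop

private lemma bs2_comp {G : Type} [NormedAddCommGroup G] [NormedSpace ℝ G] {f : Ed d → G} {V : Set (Ed d)}
    (hV : IsOpen V) (hf : SmOn f V) (L : Ed d →L[ℝ] Ed d) (hL : ‖L‖ ≤ 1) (j : ℕ) {t : Ed d}
    (ht : L t ∈ V) : ‖iteratedFDeriv ℝ j (fun t => f (L t)) t‖ ≤ ‖iteratedFDeriv ℝ j f (L t)‖ := by
  have hV' : IsOpen (L ⁻¹' V) := hV.preimage L.continuous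
  have h1 := L.iteratedFDerivWithin_comp_right hf hV.uniqueDiffOn hV'.uniqueDiffOn ht (i := j)
    (by exact_mod_cast le_top)
  rw [iteratedFDerivWithin_of_isOpen j hV' ht, iteratedFDerivWithin_of_isOpen j hV ht] at h1
  have h2 : ‖iteratedFDeriv ℝ j (f ∘ L) t‖ ≤ ‖iteratedFDeriv ℝ j f (L t)‖ * 1 := by
    rw [h1]
    refine (ContinuousMultilinearMap.norm_compContinuousLinearMap_le _ _).trans ?_
    refine mul_le_mul_of_nonneg_left ?_ (norm_nonneg _)
    rw [Finset.prod_const]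
    exact pow_le_one₀ (norm_nonneg _) hL
  rw [mul_one] at h2
  exact h2

private lemma bs2_cv {L : Ed d →L[ℝ] Ed d} {c : ℝ} (hc : 0 < c) (hL : c ≤ |L.det|) (x : Ed d)
    (hD : ∀ t ∈ cub d, x + L t ∈ D) (g : Ed d → ℝ≥0∞) :
    ENNReal.ofReal c * ∫⁻ t in cub d, g (x + L t) ≤ ∫⁻ y in D, g y := by
  have hdet : L.det ≠ 0 := by
    intro h0
    rw [h0, abs_zero] at hL
    linarith
  have hinj : InjOn (fun t => x + L t) (cub d) := by
    have h1 : Function.Injective (L : Ed d →ₗ[ℝ] Ed d) := by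
      have h2 : IsUnit (LinearMap.det (L : Ed d →ₗ[ℝ] Ed d)) := isUnit_iff_ne_zero.mpr hdet
      exact LinearMap.ker_eq_bot.mp (LinearMap.isUnit_iff_ker_eq_bot _ |>.mp
        ((LinearMap.isUnit_iff_isUnit_det _).mpr h2))
    intro s _ t _ hst
    exact h1 (add_left_cancel hst)
  have h1 := lintegral_image_eq_lintegral_abs_det_fderiv_mul volume (bs2_cub_meas d)
    (f := fun t => x + L t) (f' := fun _ => L)
    (fun t _ => (L.hasFDerivAt.const_add x).hasFDerivWithinAt) hinj g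
  rw [lintegral_const_mul' _ _ ENNReal.ofReal_ne_top] at h1
  calc ENNReal.ofReal c * ∫⁻ t in cub d, g (x + L t)
      ≤ ENNReal.ofReal |L.det| * ∫⁻ t in cub d, g (x + L t) :=
        mul_le_mul_left (ENNReal.ofReal_le_ofReal hL) _
    _ = ∫⁻ y in (fun t => x + L t) '' cub d, g y := h1.symm
    _ ≤ ∫⁻ y in D, g y := lintegral_mono_set (by rintro _ ⟨t, ht, rfl⟩; exact hD t ht)

private lemma bs2_cont {G : Type} [NormedAddCommGroup G] [NormedSpace ℝ G] (hD : IsOpen D) {f : Ed d → G}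
    (hf : SmOn f D) (j : ℕ) : ContinuousOn (iteratedFDeriv ℝ j f) D := by
  intro x hx
  have h1 : ContDiffAt ℝ ((⊤ : ℕ∞) : WithTop ℕ∞) f x := hf.contDiffAt (hD.mem_nhds hx)
  have h2 : ContDiffAt ℝ 0 (iteratedFDeriv ℝ j f) x :=
    h1.iteratedFDeriv_right (by simp only [zero_add]; exact_mod_cast le_top)
  exact h2.continuousAt.continuousWithinAt

/-- Apply `cube_sobolev` to `t ↦ u (x + L t)` with `L` from `Dom.exists_par`: `|D^j w t| ≤ |D^j u (x + L t)|` (`‖L‖ ≤ 1`), change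
of variables (`|det L| ≥ c`), Cauchy-Schwarz on the bounded set `D`. -/
theorem Dom.sobolev0 (h : Dom D z δ) : ∃ C : ℝ≥0, ∀ (G : Type) [NormedAddCommGroup G] [NormedSpace ℝ G]
    (u : Ed d → G), SmOn u D → ∀ x ∈ D, ‖u x‖ₑ ≤ C * Hn D d u := by
  obtain ⟨C, hC⟩ := cube_sobolev d
  obtain ⟨c, hc, hpar⟩ := h.exists_par
  have hDo := h.isOpen
  have hvol : volume D ≠ ⊤ := h.bdd.measure_lt_top.ne
  set V : ℝ≥0∞ := volume D ^ (1 / (1 : ℝ≥0∞).toReal - 1 / (2 : ℝ≥0∞).toReal) with hV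
  have hVt : V ≠ ⊤ := by
    rw [hV]
    refine ENNReal.rpow_ne_top_of_nonneg ?_ hvol
    norm_num
  have hct : (ENNReal.ofReal c)⁻¹ ≠ ⊤ := by
    rw [ENNReal.inv_ne_top]
    exact (ENNReal.ofReal_pos.mpr hc).ne'
  refine ⟨(C * ((ENNReal.ofReal c)⁻¹ * V)).toNNReal, ?_⟩
  intro G _ _ u hu x hx
  obtain ⟨L, hL1, hL2, hL3⟩ := hpar x hx
  have hsh : IsOpen {y : Ed d | x + y ∈ D} := hDo.preimage (by fun_prop)
  have hsm : SmOn (fun y => u (x + y)) {y : Ed d | x + y ∈ D} := by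
    refine hu.comp ?_ fun y hy => hy
    fun_prop
  have hU : IsOpen (L ⁻¹' {y : Ed d | x + y ∈ D}) := hsh.preimage L.continuous
  have hw : SmOn (fun t => u (x + L t)) (L ⁻¹' {y : Ed d | x + y ∈ D}) := by
    refine hu.comp ?_ fun y hy => hy
    fun_prop
  have h1 := hC G (fun t => u (x + L t)) _ hU (fun t ht => hL3 t ht) hw
  simp only [map_zero, add_zero] at h1
  have h2 : ∀ j, ∫⁻ t in cub d, ‖iteratedFDeriv ℝ j (fun t => u (x + L t)) t‖ₑ ≤
      (ENNReal.ofReal c)⁻¹ * V * eLpNorm (fun y => iteratedFDeriv ℝ j u y) 2 (volume.restrict D) := by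
    intro j
    have h3 : ∫⁻ t in cub d, ‖iteratedFDeriv ℝ j (fun t => u (x + L t)) t‖ₑ ≤
        ∫⁻ t in cub d, ‖iteratedFDeriv ℝ j u (x + L t)‖ₑ := by
      refine setLIntegral_mono' (bs2_cub_meas d) fun t ht => ?_
      have h4 := bs2_comp hsh hsm L hL2 j (t := t) (hL3 t ht)
      rw [iteratedFDeriv_comp_add_left] at h4
      rw [← ofReal_norm, ← ofReal_norm]
      exact ENNReal.ofReal_le_ofReal h4
    have h4 := bs2_cv hc hL1 x (D := D) (fun t ht => hL3 t ht) (fun y => ‖iteratedFDeriv ℝ j u y‖ₑ)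
    have hm : AEStronglyMeasurable (fun y => iteratedFDeriv ℝ j u y) (volume.restrict D) :=
      (bs2_cont hDo hu j).aestronglyMeasurable hDo.measurableSet
    have h5 := eLpNorm_le_eLpNorm_mul_rpow_measure_univ (p := 1) (q := 2) (by norm_num) hm
    rw [eLpNorm_one_eq_lintegral_enorm, Measure.restrict_apply_univ, ← hV] at h5
    have h6 : ∫⁻ t in cub d, ‖iteratedFDeriv ℝ j u (x + L t)‖ₑ ≤
        (ENNReal.ofReal c)⁻¹ * ∫⁻ y in D, ‖iteratedFDeriv ℝ j u y‖ₑ := by
      rw [← ENNReal.mul_le_iff_le_inv (ENNReal.ofReal_pos.mpr hc).ne' ENNReal.ofReal_ne_top]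
      exact h4
    refine h3.trans (h6.trans ?_)
    rw [mul_assoc]
    refine mul_le_mul_right ?_ _
    rw [mul_comm V]
    exact h5
  refine h1.trans ?_
  rw [ENNReal.coe_toNNReal (ENNReal.mul_ne_top ENNReal.coe_ne_top (ENNReal.mul_ne_top hct hVt))]
  rw [mul_assoc]
  refine mul_le_mul_right ?_ _
  unfold Hn
  rw [Finset.mul_sum]
  exact Finset.sum_le_sum fun j _ => h2 j

/-- Induction on `k` (for all `G`): `|D^{k+1} u x| = |D^k (fderiv u) x|` (`norm_iteratedFDeriv_fderiv`). -/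
theorem Dom.sobolev (h : Dom D z δ) (k : ℕ) : ∃ C : ℝ≥0, ∀ (G : Type) [NormedAddCommGroup G]
    [NormedSpace ℝ G] (u : Ed d → G), SmOn u D → ∀ x ∈ D, ‖iteratedFDeriv ℝ k u x‖ₑ ≤ C * Hn D (k + d) u := by
  obtain ⟨C, hC⟩ := h.sobolev0
  refine ⟨C, ?_⟩
  induction k with
  | zero =>
    intro G _ _ u hu x hx
    have e0 : ‖iteratedFDeriv ℝ 0 u x‖ₑ = ‖u x‖ₑ := by
      rw [← ofReal_norm, norm_iteratedFDeriv_zero, ofReal_norm]
    rw [e0, zero_add]
    exact hC G u hu x hx
  | succ k ih =>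
    intro G _ _ u hu x hx
    have hu' : SmOn (fderiv ℝ u) D := by
      intro y hy
      exact ((hu.contDiffAt (h.isOpen.mem_nhds hy)).fderiv_right (by simp)).contDiffWithinAt
    have h1 := ih (Ed d →L[ℝ] G) (fderiv ℝ u) hu' x hx
    have e1 : ‖iteratedFDeriv ℝ (k + 1) u x‖ₑ = ‖iteratedFDeriv ℝ k (fderiv ℝ u) x‖ₑ := by
      rw [← ofReal_norm, ← ofReal_norm, norm_iteratedFDeriv_fderiv]
    rw [e1]
    refine h1.trans (mul_le_mul_right ?_ _)
    unfold Hn
    rw [show k + 1 + d + 1 = (k + d + 1) + 1 by ring, Finset.sum_range_succ' _ (k + d + 1)]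
    refine le_trans (le_of_eq (Finset.sum_congr rfl fun j _ => ?_)) le_self_add
    exact eLpNorm_congr_norm_ae (Eventually.of_forall fun y => norm_iteratedFDeriv_fderiv)

end Pool.Agent.Lib.MP_79abb3_an.W.B
end

section

/-!
Theorem W, block B: density of test functions in `H¹(D)`.
-/

set_option autoImplicit false
set_option linter.unusedSectionVars false

open MeasureTheory Set Filter Topology Function
open scoped RealInnerProductSpace ENNReal NNReal

namespace Pool.Agent.Lib.MP_79abb3_an.W.B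

variable {d : ℕ} {D : Set (Ed d)} {z : Ed d → ℝ} {δ : ℝ}

private theorem bh1_comp {M : ℝ≥0} {Ψ : Ed d → Ed d} (hΨ : ∀ x ∈ D, Ψ x ∈ D)
    (hM : ∀ g : Ed d → ℝ≥0∞, ∫⁻ x in D, g (Ψ x) ≤ M * ∫⁻ y in Ψ '' D, g y) (g : Ed d → ℝ≥0∞) :
    ∫⁻ x in D, g (Ψ x) ≤ M * ∫⁻ y in D, g y := by
  refine (hM g).trans ?_
  gcongr
  rintro _ ⟨x, hx, rfl⟩
  exact hΨ x hx

private theorem bh1_norm {M : ℝ≥0} {Ψ : Ed d → Ed d}
    (hM : ∀ g : Ed d → ℝ≥0∞, ∫⁻ x in D, g (Ψ x) ≤ M * ∫⁻ y in D, g y) {G : Type} [NormedAddCommGroup G]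
    (f : Ed d → G) :
    eLpNorm (fun x => f (Ψ x)) 2 (volume.restrict D) ≤
      (M : ℝ≥0∞) ^ (1 / 2 : ℝ) * eLpNorm f 2 (volume.restrict D) := by
  rw [eLpNorm_eq_lintegral_rpow_enorm_toReal (by norm_num) (by norm_num),
    eLpNorm_eq_lintegral_rpow_enorm_toReal (by norm_num) (by norm_num)]
  have h2 : (1 / (2 : ℝ≥0∞).toReal) = (1 / 2 : ℝ) := by norm_num
  rw [h2, ← ENNReal.mul_rpow_of_nonneg _ _ (by norm_num)]
  exact ENNReal.rpow_le_rpow (hM fun y => ‖f y‖ₑ ^ (2 : ℝ≥0∞).toReal) (by norm_num)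

private theorem bh1_qmp {M : ℝ≥0} {Ψ : Ed d → Ed d} (hc : Measurable Ψ)
    (hM : ∀ g : Ed d → ℝ≥0∞, ∫⁻ x in D, g (Ψ x) ≤ M * ∫⁻ y in D, g y) :
    Measure.QuasiMeasurePreserving Ψ (volume.restrict D) (volume.restrict D) := by
  refine ⟨hc, Measure.AbsolutelyContinuous.mk fun s hs h0 => ?_⟩
  rw [Measure.map_apply hc hs]
  have h1 := hM (s.indicator 1)
  have h2 : ∫⁻ y in D, s.indicator (1 : Ed d → ℝ≥0∞) y = 0 := by
    rw [lintegral_indicator_one hs, h0]
  rw [h2, mul_zero] at h1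
  have h3 : ∫⁻ x in D, s.indicator (1 : Ed d → ℝ≥0∞) (Ψ x) = (volume.restrict D) (Ψ ⁻¹' s) := by
    rw [← lintegral_indicator_one (hc hs)]
    rfl
  rw [← h3]
  exact le_antisymm h1 bot_le

/-- The data for small `s`. -/
private theorem bh1_data (h : Dom D z δ) {ζ : Ed d → ℝ} (hζ : Sm ζ) (hc : HasCompactSupport ζ)
    (h1 : ∀ x, 0 ≤ z x → ζ x = 1) : ∃ s₀ C : ℝ, ∃ M : ℝ≥0, 0 < s₀ ∧ 0 < C ∧ ∀ s ∈ Ioc 0 s₀,
      Sm (push ζ z s) ∧ (∀ x ∈ D, push ζ z s x ∈ D) ∧
      (∀ x, ‖fderiv ℝ (push ζ z s) x - ContinuousLinearMap.id ℝ (Ed d)‖ ≤ C * s) ∧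
      (∀ x, ‖push ζ z s x - x‖ ≤ C * s) ∧ (∀ x, 0 ≤ z x → s / 2 ≤ z (push ζ z s x)) ∧
      ∀ g : Ed d → ℝ≥0∞, ∫⁻ x in D, g (push ζ z s x) ≤ M * ∫⁻ y in D, g y := by
  obtain ⟨s₀, C, hs₀, hC, hP⟩ := h.push_prop hζ hc h1
  obtain ⟨s₁, M, hs₁, hM⟩ := h.push_lintegral hζ hc h1
  refine ⟨min s₀ s₁, C, M, lt_min hs₀ hs₁, hC, fun s hs => ?_⟩
  obtain ⟨a1, -, a3, a4, a5⟩ := hP s ⟨hs.1.le, hs.2.trans (min_le_left _ _)⟩
  have a2 : ∀ x ∈ D, push ζ z s x ∈ D := by
    intro x hx
    rw [h.eq] at hx ⊢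
    have hx' : 0 < z x := hx
    have := a5 x hx'.le
    show 0 < z (push ζ z s x)
    linarith [hs.1]
  refine ⟨a1, a2, fun x => (a3 x).trans (min_le_left _ _), a4, a5, ?_⟩
  exact bh1_comp a2
    (hM s ⟨hs.1.le, hs.2.trans (min_le_right _ _)⟩ D h.isOpen.measurableSet)

/-- Composition with the push map is continuous in `L²(D)` at `s = 0` (density of continuous functions with compact support,
`Dom.push_lintegral`, `Ψ_s D ⊆ D`). -/
theorem push_tendsto (h : Dom D z δ) {ζ : Ed d → ℝ} (hζ : Sm ζ) (hc : HasCompactSupport ζ)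
    (h1 : ∀ x, 0 ≤ z x → ζ x = 1) {G : Type} [NormedAddCommGroup G] [NormedSpace ℝ G] {u : Ed d → G}
    (hu : MemLp u 2 (volume.restrict D)) :
    Tendsto (fun s : ℝ => eLpNorm (fun x => u (push ζ z s x) - u x) 2 (volume.restrict D)) (𝓝[>] 0) (𝓝 0) := by
  obtain ⟨s₀, C, M, hs₀, hC, hP⟩ := bh1_data h hζ hc h1
  have hfin : IsFiniteMeasure (volume.restrict D) := ⟨by
    rw [Measure.restrict_apply_univ]; exact h.bdd.measure_lt_top⟩
  rw [ENNReal.tendsto_nhds_zero]
  intro ε hε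
  set K : ℝ≥0∞ := (M : ℝ≥0∞) ^ (1 / 2 : ℝ) + 1 with hK
  have hKt : K ≠ ⊤ := by
    rw [hK]
    exact ENNReal.add_ne_top.2 ⟨ENNReal.rpow_ne_top_of_nonneg (by norm_num) ENNReal.coe_ne_top,
      ENNReal.one_ne_top⟩
  have hε2 : ε / 2 ≠ 0 := (ENNReal.div_pos hε.ne' (by norm_num)).ne'
  obtain ⟨η, hη0, hη⟩ := ENNReal.exists_nnreal_pos_mul_lt hKt hε2
  obtain ⟨g, hgc, hgu, hg, hgm⟩ := hu.exists_hasCompactSupport_eLpNorm_sub_le (by norm_num)
    (ε := (η : ℝ≥0∞)) (by exact_mod_cast hη0.ne')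
  have hV : (volume.restrict D) Set.univ ^ (2 : ℝ≥0∞).toReal⁻¹ ≠ ⊤ :=
    ENNReal.rpow_ne_top_of_nonneg (by norm_num) (measure_ne_top _ _)
  obtain ⟨κ, hκ0, hκ⟩ := ENNReal.exists_nnreal_pos_mul_lt hV hε2
  have hunif := hg.uniformContinuous_of_tendsto_cocompact
    (x := (0 : G)) (hgc.is_zero_at_infty)
  obtain ⟨τ, hτ0, hτ⟩ := Metric.uniformContinuous_iff.1 hunif κ (by exact_mod_cast hκ0)
  have hsm : ∀ᶠ s in 𝓝[>] (0 : ℝ), s < min s₀ (τ / C) :=
    nhdsWithin_le_nhds (Iio_mem_nhds (lt_min hs₀ (by positivity)))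
  filter_upwards [hsm, self_mem_nhdsWithin] with s hs hs0
  have hs0' : 0 < s := hs0
  obtain ⟨a1, a2, a3, a4, a5, a6⟩ := hP s ⟨hs0', (hs.le).trans (min_le_left _ _)⟩
  have hq := bh1_qmp a1.continuous.measurable a6
  have mu := hu.1
  have mg : AEStronglyMeasurable g (volume.restrict D) := hgm.1
  have muΨ : AEStronglyMeasurable (fun x => u (push ζ z s x)) (volume.restrict D) :=
    mu.comp_quasiMeasurePreserving hq
  have mgΨ : AEStronglyMeasurable (fun x => g (push ζ z s x)) (volume.restrict D) :=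
    mg.comp_quasiMeasurePreserving hq
  have e1 : (fun x => u (push ζ z s x) - u x) = (fun x => u (push ζ z s x) - g (push ζ z s x)) +
      ((fun x => g (push ζ z s x) - g x) + fun x => g x - u x) := by
    funext x
    show u (push ζ z s x) - u x = (u (push ζ z s x) - g (push ζ z s x)) +
      ((g (push ζ z s x) - g x) + (g x - u x))
    abel
  have b1 : eLpNorm (fun x => u (push ζ z s x) - g (push ζ z s x)) 2 (volume.restrict D) ≤
      (M : ℝ≥0∞) ^ (1 / 2 : ℝ) * η :=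
    (bh1_norm a6 (fun x => u x - g x)).trans (mul_le_mul_right hgu _)
  have b2 : eLpNorm (fun x => g (push ζ z s x) - g x) 2 (volume.restrict D) ≤ ε / 2 := by
    have c1 : ∀ᵐ x ∂(volume.restrict D), ‖g (push ζ z s x) - g x‖ ≤ (κ : ℝ) := by
      refine Eventually.of_forall fun x => ?_
      rw [← dist_eq_norm]
      refine (hτ ?_).le
      rw [dist_eq_norm]
      refine (a4 x).trans_lt ?_
      have : s < τ / C := hs.trans_le (min_le_right _ _)
      rw [lt_div_iff₀ hC] at this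
      linarith
    refine (eLpNorm_le_of_ae_bound c1).trans ?_
    rw [mul_comm, ENNReal.ofReal_coe_nnreal]
    exact hκ.le
  have b3 : eLpNorm (fun x => g x - u x) 2 (volume.restrict D) ≤ η := by
    have : (fun x => g x - u x) = -(u - g) := by
      funext x
      show g x - u x = -(u x - g x)
      abel
    rw [this, eLpNorm_neg]
    exact hgu
  rw [e1]
  calc eLpNorm ((fun x => u (push ζ z s x) - g (push ζ z s x)) +
        ((fun x => g (push ζ z s x) - g x) + fun x => g x - u x)) 2 (volume.restrict D)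
      ≤ (M : ℝ≥0∞) ^ (1 / 2 : ℝ) * η + (ε / 2 + η) := by
        refine (eLpNorm_add_le (muΨ.sub mgΨ) ((mgΨ.sub mg).add (mg.sub mu)) (by norm_num)).trans ?_
        refine add_le_add b1 ((eLpNorm_add_le (mgΨ.sub mg) (mg.sub mu) (by norm_num)).trans ?_)
        exact add_le_add b2 b3
    _ = η * K + ε / 2 := by rw [hK]; ring
    _ ≤ ε / 2 + ε / 2 := by gcongr
    _ = ε := ENNReal.add_halves ε

/-- The gradient of a composition. -/
private theorem bh1_grad {u : Ed d → ℝ} {Ψ : Ed d → Ed d} {x : Ed d} (hu : DifferentiableAt ℝ u (Ψ x))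
    (hΨ : DifferentiableAt ℝ Ψ x) : gradient (fun x => u (Ψ x)) x =
      ContinuousLinearMap.adjoint (fderiv ℝ Ψ x) (gradient u (Ψ x)) := by
  refine ext_inner_right ℝ fun v => ?_
  rw [ContinuousLinearMap.adjoint_inner_left]
  unfold gradient
  rw [InnerProductSpace.toDual_symm_apply, InnerProductSpace.toDual_symm_apply]
  have h1 : HasFDerivAt (fun x => u (Ψ x)) ((fderiv ℝ u (Ψ x)).comp (fderiv ℝ Ψ x)) x :=
    hu.hasFDerivAt.comp x hΨ.hasFDerivAt
  rw [h1.fderiv]
  rfl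

private theorem bh1_adj (A : Ed d →L[ℝ] Ed d) (w : Ed d) :
    ‖w - ContinuousLinearMap.adjoint A w‖ ≤ ‖A - ContinuousLinearMap.id ℝ (Ed d)‖ * ‖w‖ := by
  have h1 : w - ContinuousLinearMap.adjoint A w =
      -(ContinuousLinearMap.adjoint (A - ContinuousLinearMap.id ℝ (Ed d)) w) := by
    refine ext_inner_right ℝ fun v => ?_
    rw [inner_neg_left, inner_sub_left, ContinuousLinearMap.adjoint_inner_left,
      ContinuousLinearMap.adjoint_inner_left]
    show ⟪w, v⟫ - ⟪w, A v⟫ = -⟪w, A v - v⟫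
    rw [inner_sub_right]
    ring
  rw [h1, norm_neg]
  refine (ContinuousLinearMap.le_opNorm _ _).trans (le_of_eq ?_)
  rw [LinearIsometryEquiv.norm_map]

private theorem bh1_grad_cont {φ : Ed d → ℝ} (hφ : ContDiff ℝ 1 φ) : Continuous (gradient φ) := by
  unfold gradient
  exact (InnerProductSpace.toDual ℝ (Ed d)).symm.continuous.comp (hφ.continuous_fderiv (by norm_num))

/-- The test function `χ (u ∘ Ψ)`. -/
private theorem bh1_test (h : Dom D z δ) {ζ : Ed d → ℝ} (hζ : Sm ζ) (hc : HasCompactSupport ζ)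
    (h1 : ∀ x, 0 ≤ z x → ζ x = 1) {u : Ed d → ℝ} (hu : SmOn u D) {Ψ : Ed d → Ed d} (hΨ : Sm Ψ) {s : ℝ}
    (hs : 0 < s) (hz : ∀ x, 0 ≤ z x → s / 2 ≤ z (Ψ x)) :
    ∃ φ : Ed d → ℝ, IsT1 φ ∧ ∀ x ∈ D, φ x = u (Ψ x) := by
  set χ : Ed d → ℝ := fun x => ζ x * Real.smoothTransition (4 * z (Ψ x) / s - 1) with hχ
  have hzΨ : Sm fun x => z (Ψ x) := h.sm.comp hΨ
  have hχs : Sm χ := hζ.mul (Real.smoothTransition.contDiff.comp
    (((contDiff_const.mul hzΨ).div_const s).sub contDiff_const))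
  have hχ0 : ∀ x, z (Ψ x) < s / 4 → χ x = 0 := by
    intro x hx
    rw [hχ]
    simp only
    rw [Real.smoothTransition.zero_of_nonpos, mul_zero]
    rw [sub_nonpos, div_le_one hs]
    linarith
  have hχ1 : ∀ x, 0 ≤ z x → χ x = 1 := by
    intro x hx
    rw [hχ]
    simp only
    rw [h1 x hx, Real.smoothTransition.one_of_one_le, mul_one]
    have := hz x hx
    rw [le_sub_iff_add_le, le_div_iff₀ hs]
    linarith
  refine ⟨fun x => χ x * u (Ψ x), ⟨?_, ?_⟩, fun x hx => ?_⟩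
  · have key : Sm fun x => χ x * u (Ψ x) := by
      refine contDiff_iff_contDiffAt.2 fun x => ?_
      by_cases hx : Ψ x ∈ D
      · have h2 : ContDiffAt ℝ ((⊤ : ℕ∞) : WithTop ℕ∞) u (Ψ x) := hu.contDiffAt (h.isOpen.mem_nhds hx)
        exact hχs.contDiffAt.mul (h2.comp x hΨ.contDiffAt)
      · have h2 : z (Ψ x) < s / 4 := by
          rw [h.eq] at hx
          have hx' : ¬ 0 < z (Ψ x) := hx
          linarith
        have h3 : (fun x => χ x * u (Ψ x)) =ᶠ[𝓝 x] fun _ => (0 : ℝ) := by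
          filter_upwards [(isOpen_lt hzΨ.continuous continuous_const).mem_nhds h2] with y hy
          rw [hχ0 y hy, zero_mul]
        exact contDiffAt_const.congr_of_eventuallyEq h3
    exact key.of_le (by exact_mod_cast le_top)
  · have h2 : (fun x => χ x * u (Ψ x)) =
        fun x => ζ x * (Real.smoothTransition (4 * z (Ψ x) / s - 1) * u (Ψ x)) := by
      funext x
      rw [hχ]
      ring
    rw [h2]
    exact hc.mul_right
  · rw [h.eq] at hx
    have hx' : 0 < z x := hx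
    show χ x * u (Ψ x) = u (Ψ x)
    rw [hχ1 x hx'.le, one_mul]

/-- Test functions are dense in `H¹(D)`: `u ∘ Ψ_s` is smooth near the compact set `{z ≥ 0}`, which `Ψ_s` maps into `D`;
multiply by a cut-off function. `∇(u ∘ Ψ_s) = (DΨ_s)ᵀ ∇u ∘ Ψ_s → ∇u` (`push_tendsto`, `Dom.push_prop`). -/
theorem Dom.inH (h : Dom D z δ) {u : Ed d → ℝ} (hu : SmOn u D) (h0 : MemLp u 2 (volume.restrict D))
    (h1 : MemLp (gradient u) 2 (volume.restrict D)) : InH D u (gradient u) := by
  refine ⟨h0, h1, fun ε hε => ?_⟩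
  obtain ⟨ζ, hζs, hζc, -, R, hR, hDR, hζ1⟩ := exists_big_cut h.bdd
  have hζ : ∀ x, 0 ≤ z x → ζ x = 1 := by
    intro x hx
    have hx1 : x ∈ closure D := by rw [h.closure_eq]; exact hx
    have hx2 : x ∈ Metric.closedBall (0 : Ed d) R :=
      closure_minimal (hDR.trans Metric.ball_subset_closedBall) Metric.isClosed_closedBall hx1
    exact hζ1 x (Metric.closedBall_subset_ball (by linarith) hx2)
  obtain ⟨s₀, C, M, hs₀, hC, hP⟩ := bh1_data h hζs hζc hζ
  have hε2 : ε / 2 ≠ 0 := (ENNReal.div_pos hε (by norm_num)).ne'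
  have t1 := (ENNReal.tendsto_nhds_zero.1 (push_tendsto h hζs hζc hζ h0)) ε (pos_iff_ne_zero.2 hε)
  have t2 := (ENNReal.tendsto_nhds_zero.1 (push_tendsto h hζs hζc hζ h1)) (ε / 2)
    (pos_iff_ne_zero.2 hε2)
  have hK : (M : ℝ≥0∞) ^ (1 / 2 : ℝ) * eLpNorm (gradient u) 2 (volume.restrict D) ≠ ⊤ :=
    ENNReal.mul_ne_top (ENNReal.rpow_ne_top_of_nonneg (by norm_num) ENNReal.coe_ne_top) h1.2.ne
  obtain ⟨κ, hκ0, hκ⟩ := ENNReal.exists_nnreal_pos_mul_lt hK hε2
  have hκ0' : (0 : ℝ) < κ := by exact_mod_cast hκ0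
  have hsm : ∀ᶠ s in 𝓝[>] (0 : ℝ), s < min s₀ (κ / C) :=
    nhdsWithin_le_nhds (Iio_mem_nhds (lt_min hs₀ (by positivity)))
  obtain ⟨s, ⟨⟨c1, c2⟩, c3⟩, c4⟩ := (((t1.and t2).and hsm).and self_mem_nhdsWithin).exists
  have hs0 : 0 < s := c4
  obtain ⟨a1, a2, a3, a4, a5, a6⟩ := hP s ⟨hs0, c3.le.trans (min_le_left _ _)⟩
  obtain ⟨φ, hφ, hφu⟩ := bh1_test h hζs hζc hζ hu a1 hs0 a5
  have hq := bh1_qmp a1.continuous.measurable a6
  have mD : MeasurableSet D := h.isOpen.measurableSet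
  refine ⟨φ, hφ, ?_, ?_⟩
  · have e1 : eLpNorm (fun x => u x - φ x) 2 (volume.restrict D) =
        eLpNorm (fun x => u (push ζ z s x) - u x) 2 (volume.restrict D) := by
      refine eLpNorm_congr_norm_ae ?_
      filter_upwards [ae_restrict_mem mD] with x hx
      rw [hφu x hx, norm_sub_rev]
    rw [e1]
    exact c1
  · have mg : AEStronglyMeasurable (gradient u) (volume.restrict D) := h1.1
    have mgΨ : AEStronglyMeasurable (fun x => gradient u (push ζ z s x)) (volume.restrict D) :=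
      mg.comp_quasiMeasurePreserving hq
    have mφ : AEStronglyMeasurable (gradient φ) (volume.restrict D) :=
      (bh1_grad_cont hφ.c1).aestronglyMeasurable
    have e1 : (fun x => gradient u x - gradient φ x) =
        (fun x => gradient u x - gradient u (push ζ z s x)) +
          fun x => gradient u (push ζ z s x) - gradient φ x := by
      funext x
      show gradient u x - gradient φ x = (gradient u x - gradient u (push ζ z s x)) +
        (gradient u (push ζ z s x) - gradient φ x)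
      abel
    have b1 : eLpNorm (fun x => gradient u x - gradient u (push ζ z s x)) 2 (volume.restrict D) ≤
        ε / 2 := by
      have e2 : eLpNorm (fun x => gradient u x - gradient u (push ζ z s x)) 2 (volume.restrict D) =
          eLpNorm (fun x => gradient u (push ζ z s x) - gradient u x) 2 (volume.restrict D) := by
        refine eLpNorm_congr_norm_ae (Eventually.of_forall fun x => ?_)
        rw [norm_sub_rev]
      rw [e2]
      exact c2
    have b2 : eLpNorm (fun x => gradient u (push ζ z s x) - gradient φ x) 2 (volume.restrict D) ≤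
        ε / 2 := by
      have e2 : ∀ᵐ x ∂(volume.restrict D), ‖gradient u (push ζ z s x) - gradient φ x‖ ≤
          (κ : ℝ) * ‖gradient u (push ζ z s x)‖ := by
        filter_upwards [ae_restrict_mem mD] with x hx
        have e3 : gradient φ x = gradient (fun x => u (push ζ z s x)) x := by
          have e4 : φ =ᶠ[𝓝 x] fun x => u (push ζ z s x) := by
            filter_upwards [h.isOpen.mem_nhds hx] with y hy
            exact hφu y hy
          unfold gradient
          rw [e4.fderiv_eq]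
        have e5 : DifferentiableAt ℝ u (push ζ z s x) :=
          (hu.contDiffAt (h.isOpen.mem_nhds (a2 x hx))).differentiableAt (by simp)
        have e6 : DifferentiableAt ℝ (push ζ z s) x := a1.contDiffAt.differentiableAt (by simp)
        rw [e3, bh1_grad e5 e6]
        refine (bh1_adj _ _).trans (mul_le_mul_of_nonneg_right ((a3 x).trans ?_) (norm_nonneg _))
        have : s < κ / C := c3.trans_le (min_le_right _ _)
        rw [lt_div_iff₀ hC] at this
        linarith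
      refine (eLpNorm_le_mul_eLpNorm_of_ae_le_mul e2 2).trans ?_
      rw [ENNReal.ofReal_coe_nnreal]
      refine le_trans ?_ hκ.le
      gcongr
      exact bh1_norm a6 (gradient u)
    rw [e1]
    refine (eLpNorm_add_le (mg.sub mgΨ) (mgΨ.sub mφ) (by norm_num)).trans ?_
    exact (add_le_add b1 b2).trans (le_of_eq (ENNReal.add_halves ε))

end Pool.Agent.Lib.MP_79abb3_an.W.B
end

section

/-!
Theorem W, block B: the Neumann problem.
-/

set_option autoImplicit false
set_option linter.unusedSectionVars false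

open MeasureTheory Set Filter Topology Function
open scoped RealInnerProductSpace ENNReal NNReal

namespace Pool.Agent.Lib.MP_79abb3_an.W.B

variable {d : ℕ} {D : Set (Ed d)} {z : Ed d → ℝ} {δ : ℝ}

/-- The identification of linear forms and vectors, as a real linear isometry. -/
private noncomputable def bm3E (d : ℕ) : (Ed d →L[ℝ] ℝ) ≃ₗᵢ[ℝ] Ed d where
  toFun := fun L => (InnerProductSpace.toDual ℝ (Ed d)).symm L
  invFun := fun v => InnerProductSpace.toDual ℝ (Ed d) v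
  map_add' := fun L M => map_add _ L M
  map_smul' := fun c L => by
    rw [map_smulₛₗ]
    rfl
  left_inv := fun L => (InnerProductSpace.toDual ℝ (Ed d)).apply_symm_apply L
  right_inv := fun v => (InnerProductSpace.toDual ℝ (Ed d)).symm_apply_apply v
  norm_map' := fun L => LinearIsometryEquiv.norm_map _ L

private theorem bm3_grad_eq (q : Ed d → ℝ) : gradient q = bm3E d ∘ fderiv ℝ q := rfl

private theorem bm3_norm (q : Ed d → ℝ) (x : Ed d) (k : ℕ) :
    ‖iteratedFDeriv ℝ k (gradient q) x‖ = ‖iteratedFDeriv ℝ (k + 1) q x‖ := by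
  rw [bm3_grad_eq, LinearIsometryEquiv.norm_iteratedFDeriv_comp_left, norm_iteratedFDeriv_fderiv]

private theorem bm3_grad_sm (hD : IsOpen D) {q : Ed d → ℝ} (hq : SmOn q D) : SmOn (gradient q) D := by
  rw [bm3_grad_eq]
  exact (bm3E d).contDiff.comp_contDiffOn (hq.fderiv_of_isOpen hD (by norm_cast))

private theorem bm3_fin (hD : IsOpen D) (hb : Bornology.IsBounded D) {G : Type*} [NormedAddCommGroup G]
    {u : Ed d → G} {C : ℝ} (h : ∀ x ∈ D, ‖u x‖ ≤ C) : eLpNorm u 2 (volume.restrict D) < ⊤ := by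
  have h1 : ∀ᵐ x ∂(volume.restrict D), ‖u x‖ ≤ C :=
    (ae_restrict_iff' hD.measurableSet).2 (ae_of_all _ h)
  refine (eLpNorm_le_of_ae_bound h1).trans_lt ?_
  refine ENNReal.mul_lt_top (ENNReal.rpow_lt_top_of_nonneg (by positivity) ?_) ENNReal.ofReal_lt_top
  rw [Measure.restrict_apply_univ]
  exact hb.measure_lt_top.ne

private theorem bm3_b0 {G : Type} [NormedAddCommGroup G] [NormedSpace ℝ G] {u : Ed d → G} (hu : BB D u) :
    ∃ C : ℝ, ∀ x ∈ D, ‖u x‖ ≤ C := by
  obtain ⟨C, hC⟩ := hu.2 0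
  exact ⟨C, fun x hx => by rw [← norm_iteratedFDeriv_zero (𝕜 := ℝ)]; exact hC x hx⟩

private theorem bm3_b1 {G : Type} [NormedAddCommGroup G] [NormedSpace ℝ G] {u : Ed d → G} (hu : BB D u) :
    ∃ C : ℝ, ∀ x ∈ D, ‖fderiv ℝ u x‖ ≤ C := by
  obtain ⟨C, hC⟩ := hu.2 1
  refine ⟨C, fun x hx => ?_⟩
  have h1 := hC x hx
  rw [← norm_iteratedFDeriv_fderiv, norm_iteratedFDeriv_zero] at h1
  exact h1

private theorem bm3_mem (hD : IsOpen D) (hb : Bornology.IsBounded D) {G : Type} [NormedAddCommGroup G]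
    [NormedSpace ℝ G] {u : Ed d → G} (hu : BB D u) : MemLp u 2 (volume.restrict D) := by
  obtain ⟨C, hC⟩ := bm3_b0 hu
  exact ⟨hu.1.continuousOn.aestronglyMeasurable hD.measurableSet, bm3_fin hD hb hC⟩

private theorem bm3_PT (hD : IsOpen D) (hb : Bornology.IsBounded D) {G : Type} [NormedAddCommGroup G]
    [NormedSpace ℝ G] {u : Ed d → G} (hu : BB D u) (k : ℕ) :
    PT D (fun _ : Unit => (1 : ℝ≥0∞)) k (fun _ => u) := by
  rw [PT.iff hD]
  refine ⟨fun _ => hu.1, fun j _ => ?_⟩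
  obtain ⟨C, hC⟩ := hu.2 j
  have h1 := bm3_fin hD hb hC
  refine ⟨(eLpNorm (fun x => iteratedFDeriv ℝ j u x) 2 (volume.restrict D)).toNNReal, fun _ => ?_⟩
  rw [mul_one, ENNReal.coe_toNNReal h1.ne]

private theorem bm3_dat (hD : IsOpen D) {G : Type} [NormedAddCommGroup G]
    [NormedSpace ℝ G] {u : Ed d → G} (hu : SmOn u D) {x : Ed d} (hx : x ∈ D) : DifferentiableAt ℝ u x :=
  (hu.contDiffAt (hD.mem_nhds hx)).differentiableAt (by simp)

private theorem bm3_divg_sub {u v : Ed d → Ed d} {x : Ed d} (hu : DifferentiableAt ℝ u x)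
    (hv : DifferentiableAt ℝ v x) : divg (fun x => u x - v x) x = divg u x - divg v x := by
  unfold divg
  rw [← Finset.sum_sub_distrib]
  refine Finset.sum_congr rfl fun i _ => ?_
  have h1 : fderiv ℝ (fun x => u x - v x) x = fderiv ℝ u x - fderiv ℝ v x := fderiv_sub hu hv
  rw [h1, _root_.sub_apply]
  rfl

private theorem bm3_sub (hD : IsOpen D) {u v : Ed d → Ed d} (hu : BB D u) (hv : BB D v) :
    ∃ M : ℝ, (∀ x ∈ D, ‖u x - v x‖ ≤ M) ∧ ∀ x ∈ D, ‖fderiv ℝ (fun x => u x - v x) x‖ ≤ M := by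
  obtain ⟨C0, h0⟩ := bm3_b0 hu
  obtain ⟨C1, h1⟩ := bm3_b0 hv
  obtain ⟨C2, h2⟩ := bm3_b1 hu
  obtain ⟨C3, h3⟩ := bm3_b1 hv
  refine ⟨max (C0 + C1) (C2 + C3), fun x hx => ?_, fun x hx => ?_⟩
  · exact ((norm_sub_le _ _).trans (add_le_add (h0 x hx) (h1 x hx))).trans (le_max_left _ _)
  · have h4 : fderiv ℝ (fun x => u x - v x) x = fderiv ℝ u x - fderiv ℝ v x :=
      fderiv_sub (bm3_dat hD hu.1 hx) (bm3_dat hD hv.1 hx)
    rw [h4]
    exact ((norm_sub_le _ _).trans (add_le_add (h2 x hx) (h3 x hx))).trans (le_max_right _ _)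

/-- A function whose gradient is in `BB(D)` and which is in `L²(D)` is in `BB(D)`. -/
theorem Dom.bb_of_gradient (h : Dom D z δ) {q : Ed d → ℝ} (hq : SmOn q D) (h0 : MemLp q 2 (volume.restrict D))
    (h1 : BB D (gradient q)) : BB D q := by
  refine ⟨hq, fun k => ?_⟩
  cases k with
  | succ k =>
    obtain ⟨C, hC⟩ := h1.2 k
    exact ⟨C, fun x hx => by rw [← bm3_norm]; exact hC x hx⟩
  | zero =>
    obtain ⟨C, hC⟩ := h.sobolev0
    have hfin : Hn D d q ≠ ⊤ := by
      unfold Hn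
      refine (ENNReal.sum_lt_top.mpr fun j _ => ?_).ne
      cases j with
      | zero =>
        have e : eLpNorm (fun x => iteratedFDeriv ℝ 0 q x) 2 (volume.restrict D) =
            eLpNorm q 2 (volume.restrict D) :=
          eLpNorm_congr_norm_ae (ae_of_all _ fun x => norm_iteratedFDeriv_zero)
        rw [e]
        exact h0.2
      | succ j =>
        obtain ⟨C, hC⟩ := h1.2 j
        exact bm3_fin h.isOpen h.bdd (C := C) fun x hx => by
          rw [← bm3_norm]
          exact hC x hx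
    refine ⟨(C * Hn D d q).toReal, fun x hx => ?_⟩
    rw [norm_iteratedFDeriv_zero, ← toReal_enorm]
    exact ENNReal.toReal_mono (ENNReal.mul_ne_top ENNReal.coe_ne_top hfin) (hC ℝ q hq x hx)

/-- **Existence** for the Neumann problem, general form: `F, f ∈ BB(D)`, `∫_D f = 0`: there is `q ∈ BB(D)` with
`Δ q = div F + f`, `n · (∇q - F) = O(z)`, mean zero. (`exists_isQ`, `InG.exists_pot`, `isQ_smooth`, `IsQ.congr`, `isQ_classical`;
`q ∈ BB(D)` by `reg_main` for the one element family with `N = 1`, `BB.Hn_ne_top`, `PT.iff`, `Dom.bb_of_Hn`;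
`Dom.normal_trace` for `v = ∇q - F`.) -/
theorem Dom.exists_sol (h : Dom D z δ) {F : Ed d → Ed d} {f : Ed d → ℝ} (hF : BB D F) (hf : BB D f)
    (h0 : ∫ x in D, f x = 0) : ∃ q : Ed d → ℝ, BB D q ∧ IsQ D F f (gradient q) ∧
      (∀ x ∈ D, divg (gradient q) x = divg F x + f x) ∧
      OO D z (fun x => ⟪gradient z x, gradient q x - F x⟫) ∧ ∫ x in D, q x = 0 := by
  have hD := h.isOpen
  have hb := h.bdd
  have hP := h.poincare
  obtain ⟨γ, hγ⟩ := exists_isQ hD hb hP (bm3_mem hD hb hF) (bm3_mem hD hb hf) h0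
  obtain ⟨q0, hq0, hq0m⟩ := hγ.inG.exists_pot hD hb hP
  obtain ⟨q, hq, hqq, hγq⟩ := isQ_smooth hD hb hq0 hγ hF.1 hf.1
  have hQ : IsQ D F f (gradient q) := hγ.congr hγq
  obtain ⟨-, hdiv⟩ := isQ_classical hD hq hQ hF.1 hf.1
  have mq : MemLp q 2 (volume.restrict D) := hq0.memq.ae_eq hqq
  have hgs : SmOn (gradient q) D := bm3_grad_sm hD hq
  have hHn : ∀ k, Hn D k (gradient q) ≠ ⊤ := by
    intro k
    have hr := reg_main h (ι := Unit) (N := fun _ => 1) (by simp) (K := k) (F := fun _ => F)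
      (f := fun _ => f) (q := fun _ => q) (fun _ => hQ) (fun _ => hq) (bm3_PT hD hb hF (k + 1))
      (bm3_PT hD hb hf k)
      ⟨(eLpNorm (gradient q) 2 (volume.restrict D)).toNNReal, fun _ => by
        rw [mul_one, ENNReal.coe_toNNReal hQ.inG.mem.eLpNorm_ne_top]⟩
    rw [PT.iff hD] at hr
    unfold Hn
    refine (ENNReal.sum_lt_top.mpr fun j hj => ?_).ne
    obtain ⟨C, hC⟩ := hr.2 j (by have := Finset.mem_range.mp hj; omega)
    refine (hC ()).trans_lt ?_
    rw [mul_one]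
    exact ENNReal.coe_lt_top
  have hbb : BB D (gradient q) := h.bb_of_Hn (fun k => h.sobolev k) hgs hHn
  refine ⟨q, h.bb_of_gradient hq mq hbb, hQ, hdiv, ?_, ?_⟩
  · obtain ⟨M, hM0, hM1⟩ := bm3_sub hD hbb hF
    refine h.normal_trace (v := fun x => gradient q x - F x) (f := f) (hgs.sub hF.1) hM0 hM1
      (fun x hx => ?_) hQ.eq
    rw [bm3_divg_sub (bm3_dat hD hgs hx) (bm3_dat hD hF.1 hx), hdiv x hx, add_sub_cancel_left]
  · rw [← hq0m]
    exact integral_congr_ae hqq.symm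

/-- **The Neumann problem.** -/
theorem Dom.neumann (h : Dom D z δ) {f : Ed d → ℝ} (hf : BB D f) (h0 : ∫ x in D, f x = 0) :
    ∃ q : Ed d → ℝ, IsNeu D z f q := by
  have hz : BB D (fun _ : Ed d => (0 : Ed d)) := by
    refine ⟨contDiffOn_const, fun k => ⟨0, fun x _ => ?_⟩⟩
    have h1 : iteratedFDeriv ℝ k (fun _ : Ed d => (0 : Ed d)) x = 0 := by
      simp
    rw [h1, norm_zero]
  obtain ⟨q, hq, -, hdiv, hn, hm⟩ := h.exists_sol hz hf h0
  refine ⟨q, hf, hq, fun x hx => ?_, ?_, hm⟩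
  · rw [hdiv x hx]
    unfold divg
    simp
  · simpa using hn

/-- Classical solutions are weak solutions: `Dom.inH` (so `∇q ∈ G(D)`) and `Dom.ibp`. -/
theorem Dom.isQ_of_classical (h : Dom D z δ) {F : Ed d → Ed d} {f q : Ed d → ℝ} (hq : BB D q) (hF : BB D F)
    (hf : BB D f) (he : ∀ x ∈ D, divg (gradient q) x = divg F x + f x)
    (hn : OO D z (fun x => ⟪gradient z x, gradient q x - F x⟫)) : IsQ D F f (gradient q) := by
  have hD := h.isOpen
  have hb := h.bdd
  have hgs : SmOn (gradient q) D := bm3_grad_sm hD hq.1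
  have hbb : BB D (gradient q) := ⟨hgs, fun k => by
    obtain ⟨C, hC⟩ := hq.2 (k + 1)
    exact ⟨C, fun x hx => by rw [bm3_norm]; exact hC x hx⟩⟩
  have hH := h.inH hq.1 (bm3_mem hD hb hq) (bm3_mem hD hb hbb)
  refine ⟨bm3_mem hD hb hF, bm3_mem hD hb hf, ⟨hH.memg, fun ε hε => ?_⟩, fun φ hφ => ?_⟩
  · obtain ⟨φ, hφ, -, h2⟩ := hH.ap ε hε
    exact ⟨φ, hφ, h2⟩
  · obtain ⟨M, hM0, hM1⟩ := bm3_sub hD hbb hF
    obtain ⟨M2, hM2⟩ := hφ.cpt.exists_bound_of_continuous hφ.c1.continuous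
    obtain ⟨M3, hM3⟩ := (hφ.cpt.fderiv (𝕜 := ℝ)).exists_bound_of_continuous
      (hφ.c1.continuous_fderiv (by norm_num))
    have h1 := h.ibp (v := fun x => gradient q x - F x)
      ((hgs.sub hF.1).of_le (by norm_cast)) (M := max M (max M2 M3))
      (fun x hx => (hM0 x hx).trans (le_max_left _ _)) (fun x hx => (hM1 x hx).trans (le_max_left _ _))
      hn hφ.c1.contDiffOn
      (fun x _ => (hM2 x).trans ((le_max_left _ _).trans (le_max_right _ _)))
      (fun x _ => (hM3 x).trans ((le_max_right _ _).trans (le_max_right _ _)))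
    rw [← h1]
    refine setIntegral_congr_fun hD.measurableSet fun x hx => ?_
    rw [bm3_divg_sub (bm3_dat hD hgs hx) (bm3_dat hD hF.1 hx), he x hx, add_sub_cancel_left]

end Pool.Agent.Lib.MP_79abb3_an.W.B
end

section

/-!
Theorem W, block B: uniqueness and estimates.
-/

set_option autoImplicit false
set_option linter.unusedSectionVars false

open MeasureTheory Set Filter Topology Function
open scoped RealInnerProductSpace ENNReal NNReal

namespace Pool.Agent.Lib.MP_79abb3_an.W.B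

variable {d : ℕ} {D : Set (Ed d)} {z : Ed d → ℝ} {δ : ℝ}

/-- The Riesz isometry, real linear. -/
noncomputable def bm4_iso (d : ℕ) : (Ed d →L[ℝ] ℝ) ≃ₗᵢ[ℝ] Ed d where
  toFun := (InnerProductSpace.toDual ℝ (Ed d)).symm
  invFun := InnerProductSpace.toDual ℝ (Ed d)
  map_add' := map_add _
  map_smul' := fun c x => by simp
  left_inv := fun x => by simp
  right_inv := fun x => by simp
  norm_map' := fun x => by
    show ‖(InnerProductSpace.toDual ℝ (Ed d)).symm x‖ = ‖x‖
    simp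

theorem bm4_grad (q : Ed d → ℝ) : gradient q = bm4_iso d ∘ fderiv ℝ q := rfl

theorem bm4_norm_grad (q : Ed d → ℝ) (j : ℕ) (x : Ed d) :
    ‖iteratedFDeriv ℝ j (gradient q) x‖ = ‖iteratedFDeriv ℝ (j + 1) q x‖ := by
  rw [bm4_grad, LinearIsometryEquiv.norm_iteratedFDeriv_comp_left, norm_iteratedFDeriv_fderiv]

theorem bm4_grad_smOn {q : Ed d → ℝ} (hD : IsOpen D) (hq : SmOn q D) : SmOn (gradient q) D := by
  rw [bm4_grad]
  exact (bm4_iso d).contDiff.comp_contDiffOn (hq.fderiv_of_isOpen hD (by simp))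

theorem bm4_mem {G : Type} [NormedAddCommGroup G] [NormedSpace ℝ G] (hD : IsOpen D)
    (hb : Bornology.IsBounded D) {u : Ed d → G} (hu : SmOn u D) {M : ℝ} (hM : ∀ x ∈ D, ‖u x‖ ≤ M) :
    MemLp u 2 (volume.restrict D) := by
  have : IsFiniteMeasure (volume.restrict D) :=
    ⟨by rw [Measure.restrict_apply_univ]; exact hb.measure_lt_top⟩
  refine MemLp.of_bound (hu.continuousOn.aestronglyMeasurable hD.measurableSet) M ?_
  filter_upwards [ae_restrict_mem hD.measurableSet] with x hx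
  exact hM x hx

theorem bm4_BB_mem {G : Type} [NormedAddCommGroup G] [NormedSpace ℝ G] (hD : IsOpen D)
    (hb : Bornology.IsBounded D) {u : Ed d → G} (hu : BB D u) : MemLp u 2 (volume.restrict D) := by
  obtain ⟨M, hM⟩ := hu.2 0
  refine bm4_mem hD hb hu.1 (M := M) fun x hx => ?_
  rw [← norm_iteratedFDeriv_zero (𝕜 := ℝ)]
  exact hM x hx

theorem bm4_grad_mem (hD : IsOpen D) (hb : Bornology.IsBounded D) {q : Ed d → ℝ} (hq : BB D q) :
    MemLp (gradient q) 2 (volume.restrict D) := by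
  obtain ⟨M, hM⟩ := hq.2 1
  refine bm4_mem hD hb (bm4_grad_smOn hD hq.1) (M := M) fun x hx => ?_
  rw [← norm_iteratedFDeriv_zero (𝕜 := ℝ), bm4_norm_grad]
  exact hM x hx

theorem bm4_BB_zero {G : Type} [NormedAddCommGroup G] [NormedSpace ℝ G] :
    BB D (fun _ : Ed d => (0 : G)) := by
  refine ⟨contDiffOn_const, fun k => ⟨0, fun x _ => ?_⟩⟩
  rw [show (fun _ : Ed d => (0 : G)) = 0 from rfl, iteratedFDeriv_zero]
  simp

theorem bm4_isQ (h : Dom D z δ) {f q : Ed d → ℝ} (hq : IsNeu D z f q) :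
    IsQ D (fun _ => 0) f (gradient q) := by
  refine h.isQ_of_classical hq.bb bm4_BB_zero hq.bbf ?_ ?_
  · intro x hx
    have h0 : divg (fun _ : Ed d => (0 : Ed d)) x = 0 := by
      unfold divg
      simp
    rw [hq.eq x hx, h0, zero_add]
  · have := hq.nor
    simpa using this

theorem bm4_Hn_mono {G : Type} [NormedAddCommGroup G] [NormedSpace ℝ G] {u : Ed d → G} {k m : ℕ}
    (hkm : k ≤ m) : Hn D k u ≤ Hn D m u := by
  unfold Hn
  exact Finset.sum_le_sum_of_subset (Finset.range_subset_range.mpr (by omega))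

theorem bm4_Hn_zero {G : Type} [NormedAddCommGroup G] [NormedSpace ℝ G] (u : Ed d → G) (k : ℕ) :
    eLpNorm u 2 (volume.restrict D) ≤ Hn D k u := by
  unfold Hn
  have h1 : eLpNorm u 2 (volume.restrict D) =
      eLpNorm (fun x => iteratedFDeriv ℝ 0 u x) 2 (volume.restrict D) := by
    apply eLpNorm_congr_norm_ae
    filter_upwards with x
    rw [norm_iteratedFDeriv_zero]
  rw [h1]
  exact Finset.single_le_sum (f := fun j => eLpNorm (fun x => iteratedFDeriv ℝ j u x) 2 (volume.restrict D))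
    (fun _ _ => bot_le) (Finset.mem_range.mpr (Nat.succ_pos k))

theorem bm4_Hn_grad (q : Ed d → ℝ) (k : ℕ) :
    Hn D (k + 1) q = Hn D k (gradient q) + eLpNorm q 2 (volume.restrict D) := by
  unfold Hn
  rw [Finset.sum_range_succ']
  congr 1
  · refine Finset.sum_congr rfl fun j _ => ?_
    apply eLpNorm_congr_norm_ae
    filter_upwards with x
    rw [bm4_norm_grad]
  · apply eLpNorm_congr_norm_ae
    filter_upwards with x
    rw [norm_iteratedFDeriv_zero]

theorem bm4_Hn_bound (hD : IsOpen D) {f : Ed d → ℝ} {m : ℕ} {A : ℝ}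
    (hA : ∀ j ≤ m, ∀ x ∈ D, ‖iteratedFDeriv ℝ j f x‖ ≤ A) :
    Hn D m f ≤ (m + 1 : ℕ) * (((volume.restrict D) univ) ^ ((2 : ℝ≥0∞).toReal⁻¹) * ENNReal.ofReal A) := by
  unfold Hn
  refine (Finset.sum_le_card_nsmul _ _ (((volume.restrict D) univ) ^ ((2 : ℝ≥0∞).toReal⁻¹) *
    ENNReal.ofReal A) fun j hj => ?_).trans ?_
  · apply eLpNorm_le_of_ae_bound
    filter_upwards [ae_restrict_mem hD.measurableSet] with x hx
    exact hA j (Nat.lt_succ_iff.mp (Finset.mem_range.mp hj)) x hx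
  · rw [Finset.card_range, nsmul_eq_mul]

/-- Uniqueness: the difference `w` satisfies `IsQ D 0 0 (∇w)`, so `∇w = 0` (`isQ_bound` or `Dom.est_F`), `w` is constant on the
connected set `D`, with mean zero. -/
theorem IsNeu.unique (h : Dom D z δ) {f q q' : Ed d → ℝ} (hq : IsNeu D z f q) (hq' : IsNeu D z f q') :
    ∀ x ∈ D, q x = q' x := by
  have hD := h.isOpen
  have hQ := bm4_isQ h hq
  have hQ' := bm4_isQ h hq'
  have hQ0 : IsQ D (fun _ => 0) (fun _ => 0) (fun x => gradient q x - gradient q' x) := by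
    refine ⟨hQ.memF, MemLp.zero', hQ.inG.sub hQ'.inG, fun φ hφ => ?_⟩
    have e1 := hQ.eq φ hφ
    have e2 := hQ'.eq φ hφ
    have hg := bt8_grad_mem (D := D) hφ
    have i1 : Integrable (fun x => ⟪gradient q x - (fun _ => (0 : Ed d)) x, gradient φ x⟫ + f x * φ x)
        (volume.restrict D) :=
      (bt8_inner (hQ.inG.mem.sub hQ.memF) hg).1.add (hQ.memf.integrable_mul (bt8_mem hφ))
    have i2 : Integrable (fun x => ⟪gradient q' x - (fun _ => (0 : Ed d)) x, gradient φ x⟫ + f x * φ x)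
        (volume.restrict D) :=
      (bt8_inner (hQ'.inG.mem.sub hQ'.memF) hg).1.add (hQ'.memf.integrable_mul (bt8_mem hφ))
    have e3 := integral_sub i1 i2
    rw [e1, e2, sub_zero] at e3
    refine Eq.trans ?_ e3
    apply integral_congr_ae
    filter_upwards with x
    simp only [sub_zero, zero_mul, add_zero, inner_sub_left]
    ring
  obtain ⟨C, hC⟩ := isQ_bound hD h.bdd h.poincare
  have h0 := hC _ _ _ hQ0 (by simp)
  have h1 : eLpNorm (fun x => gradient q x - gradient q' x) 2 (volume.restrict D) = 0 := by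
    refine le_antisymm (h0.trans ?_) bot_le
    rw [eLpNorm_zero', eLpNorm_zero', mul_zero, add_zero]
  have hgs := bm4_grad_smOn hD hq.bb.1
  have hgs' := bm4_grad_smOn hD hq'.bb.1
  rw [eLpNorm_eq_zero_iff hQ0.inG.mem.aestronglyMeasurable (by norm_num)] at h1
  have h2 : EqOn (gradient q) (gradient q') D := by
    apply Measure.eqOn_open_of_ae_eq (μ := volume) _ hD hgs.continuousOn hgs'.continuousOn
    filter_upwards [h1] with x hx
    exact sub_eq_zero.mp hx
  have htop : ((⊤ : ℕ∞) : WithTop ℕ∞) ≠ 0 := by simp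
  have hd : DifferentiableOn ℝ (fun x => q x - q' x) D :=
    (hq.bb.1.differentiableOn htop).sub (hq'.bb.1.differentiableOn htop)
  have hd0 : EqOn (fderiv ℝ (fun x => q x - q' x)) 0 D := by
    intro x hx
    have d1 := (hq.bb.1.differentiableOn htop).differentiableAt (hD.mem_nhds hx)
    have d2 := (hq'.bb.1.differentiableOn htop).differentiableAt (hD.mem_nhds hx)
    rw [fderiv_fun_sub d1 d2]
    have h3 := h2 hx
    rw [bm4_grad, bm4_grad] at h3
    have h4 : fderiv ℝ q x = fderiv ℝ q' x := (bm4_iso d).injective h3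
    rw [h4, sub_self]
    rfl
  obtain ⟨x₀, hx₀⟩ := h.conn.nonempty
  have hconst : ∀ x ∈ D, q x - q' x = q x₀ - q' x₀ := fun x hx =>
    hD.is_const_of_fderiv_eq_zero h.conn.isPreconnected hd hd0 hx hx₀
  have hfin : volume D < ⊤ := h.bdd.measure_lt_top
  have hfm : IsFiniteMeasure (volume.restrict D) :=
    ⟨by rw [Measure.restrict_apply_univ]; exact hfin⟩
  have hiq : Integrable q (volume.restrict D) :=
    (bm4_BB_mem hD h.bdd hq.bb).integrable (by norm_num)
  have hiq' : Integrable q' (volume.restrict D) :=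
    (bm4_BB_mem hD h.bdd hq'.bb).integrable (by norm_num)
  have h5 : ∫ x in D, (q x - q' x) = 0 := by
    rw [integral_sub hiq hiq', hq.mean, hq'.mean, sub_zero]
  have h6 : ∫ x in D, (q x - q' x) = ∫ x in D, (q x₀ - q' x₀) :=
    setIntegral_congr_fun hD.measurableSet fun x hx => hconst x hx
  rw [h5, setIntegral_const, smul_eq_mul] at h6
  have hpos : 0 < (volume : Measure (Ed d)).real D := by
    rw [Measure.real, ENNReal.toReal_pos_iff]
    exact ⟨hD.measure_pos volume h.conn.nonempty, hfin⟩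
  have h7 : q x₀ - q' x₀ = 0 := by
    rcases mul_eq_zero.mp h6.symm with h8 | h8
    · exact absurd h8 hpos.ne'
    · exact h8
  intro x hx
  have := hconst x hx
  rw [h7] at this
  linarith

/-- Estimates in `H^k` (sharp order). -/
theorem IsNeu.est_H (h : Dom D z δ) (k : ℕ) : ∃ C : ℝ≥0, ∀ f q : Ed d → ℝ, IsNeu D z f q →
    Hn D (k + 2) q ≤ C * Hn D k f := by
  have hD := h.isOpen
  obtain ⟨C1, hC1⟩ := h.est_f k
  obtain ⟨C2, hC2⟩ := InH.bound hD h.bdd h.poincare
  refine ⟨(1 + C2) * C1, fun f q hq => ?_⟩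
  have h1 := hC1 f q hq.bbf.1 hq.bb.1 (bm4_isQ h hq)
  have h2 := hC2 q (gradient q) (h.inH hq.bb.1 (bm4_BB_mem hD h.bdd hq.bb)
    (bm4_grad_mem hD h.bdd hq.bb)) hq.mean
  have h3 : eLpNorm q 2 (volume.restrict D) ≤ C2 * Hn D (k + 1) (gradient q) :=
    h2.trans (mul_le_mul_right (bm4_Hn_zero _ _) _)
  rw [bm4_Hn_grad]
  calc Hn D (k + 1) (gradient q) + eLpNorm q 2 (volume.restrict D)
      ≤ Hn D (k + 1) (gradient q) + C2 * Hn D (k + 1) (gradient q) := by gcongr
    _ = (1 + C2) * Hn D (k + 1) (gradient q) := by ring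
    _ ≤ (1 + C2) * (C1 * Hn D k f) := by gcongr
    _ = ((1 + C2) * C1 : ℝ≥0) * Hn D k f := by push_cast; ring

/-- Estimates in `C^k`. -/
theorem IsNeu.est_C (h : Dom D z δ) (k : ℕ) : ∃ (m : ℕ) (C : ℝ), 0 ≤ C ∧ ∀ (f q : Ed d → ℝ) (A : ℝ),
    IsNeu D z f q → (∀ j ≤ m, ∀ x ∈ D, ‖iteratedFDeriv ℝ j f x‖ ≤ A) →
    ∀ j ≤ k, ∀ x ∈ D, ‖iteratedFDeriv ℝ j q x‖ ≤ C * A := by
  have hD := h.isOpen
  have hfin : volume D < ⊤ := h.bdd.measure_lt_top
  obtain ⟨x₀, hx₀⟩ := h.conn.nonempty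
  -- one order of derivatives
  have key : ∀ k : ℕ, ∃ (m : ℕ) (C : ℝ), 0 ≤ C ∧ ∀ (f q : Ed d → ℝ) (A : ℝ),
      IsNeu D z f q → (∀ j ≤ m, ∀ x ∈ D, ‖iteratedFDeriv ℝ j f x‖ ≤ A) →
      ∀ x ∈ D, ‖iteratedFDeriv ℝ k q x‖ ≤ C * A := by
    intro k
    obtain ⟨C1, hC1⟩ := h.sobolev k
    obtain ⟨C2, hC2⟩ := IsNeu.est_H h (k + d)
    set V : ℝ≥0∞ := ((volume.restrict D) univ) ^ ((2 : ℝ≥0∞).toReal⁻¹) with hV
    have hVt : V ≠ ⊤ := by
      rw [hV, Measure.restrict_apply_univ]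
      exact ENNReal.rpow_ne_top_of_nonneg (by positivity) hfin.ne
    refine ⟨k + d, C1 * (C2 * ((k + d + 1 : ℕ) * V.toReal)), by positivity, ?_⟩
    intro f q A hq hA x hx
    have hA0 : 0 ≤ A := (norm_nonneg _).trans (hA 0 (Nat.zero_le _) x₀ hx₀)
    have h1 := hC1 ℝ q hq.bb.1 x hx
    have h2 : Hn D (k + d) q ≤ C2 * ((k + d + 1 : ℕ) * (V * ENNReal.ofReal A)) :=
      (bm4_Hn_mono (by omega)).trans ((hC2 f q hq).trans
        (mul_le_mul_right (bm4_Hn_bound hD hA) _))
    have h3 : ‖iteratedFDeriv ℝ k q x‖ₑ ≤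
        C1 * (C2 * ((k + d + 1 : ℕ) * (V * ENNReal.ofReal A))) :=
      h1.trans (mul_le_mul_right h2 _)
    have h4 : (C1 * (C2 * ((k + d + 1 : ℕ) * (V * ENNReal.ofReal A))) : ℝ≥0∞) ≠ ⊤ := by
      refine ENNReal.mul_ne_top ENNReal.coe_ne_top (ENNReal.mul_ne_top ENNReal.coe_ne_top
        (ENNReal.mul_ne_top (ENNReal.natCast_ne_top _) (ENNReal.mul_ne_top hVt ENNReal.ofReal_ne_top)))
    have h5 := ENNReal.toReal_mono h4 h3
    rw [toReal_enorm] at h5
    simp only [ENNReal.toReal_mul, ENNReal.coe_toReal, ENNReal.toReal_natCast,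
      ENNReal.toReal_ofReal hA0] at h5
    refine h5.trans (le_of_eq ?_)
    ring
  induction k with
  | zero =>
    obtain ⟨m, C, hC, hm⟩ := key 0
    refine ⟨m, C, hC, fun f q A hq hA j hj x hx => ?_⟩
    obtain rfl : j = 0 := by omega
    exact hm f q A hq hA x hx
  | succ k ih =>
    obtain ⟨m1, C1, hC1, hm1⟩ := ih
    obtain ⟨m2, C2, hC2, hm2⟩ := key (k + 1)
    refine ⟨max m1 m2, max C1 C2, le_max_of_le_left hC1, fun f q A hq hA j hj x hx => ?_⟩
    have hA0 : 0 ≤ A := (norm_nonneg _).trans (hA 0 (Nat.zero_le _) x₀ hx₀)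
    rcases Nat.lt_or_ge j (k + 1) with hj' | hj'
    · exact (hm1 f q A hq (fun i hi => hA i (hi.trans (le_max_left _ _))) j (by omega) x hx).trans
        (mul_le_mul_of_nonneg_right (le_max_left _ _) hA0)
    · obtain rfl : j = k + 1 := by omega
      exact (hm2 f q A hq (fun i hi => hA i (hi.trans (le_max_right _ _))) x hx).trans
        (mul_le_mul_of_nonneg_right (le_max_right _ _) hA0)

end Pool.Agent.Lib.MP_79abb3_an.W.B
end
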