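import Pool.Agent.Lib.MP_79abb3_an.W.BM4

/-!
Theorem W, block B: inhomogeneous boundary data, Leray projection.
-/

set_option autoImplicit false
set_option linter.unusedSectionVars false

open MeasureTheory Set Filter Topology Function
open scoped RealInnerProductSpace ENNReal NNReal

namespace Pool.Agent.Lib.MP_79abb3_an.W.B

variable {d : ℕ} {D : Set (Ed d)} {z : Ed d → ℝ} {δ : ℝ}

section tools

variable {G : Type} [NormedAddCommGroup G] [NormedSpace ℝ G]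

private theorem bm5_le (j : ℕ) : (j : WithTop ℕ∞) ≤ ((⊤ : ℕ∞) : WithTop ℕ∞) := by
  exact_mod_cast (le_top : (j : ℕ∞) ≤ ⊤)

private theorem bm5_at (hD : IsOpen D) {u : Ed d → G} (hu : SmOn u D) {x : Ed d} (hx : x ∈ D) (j : ℕ) :
    ContDiffAt ℝ j u x := (hu.contDiffAt (hD.mem_nhds hx)).of_le (bm5_le j)

private theorem bm5_sm (hb : Bornology.IsBounded D) {u : Ed d → G} (hu : Sm u) : BB D u := by
  refine ⟨hu.contDiffOn, fun k => ?_⟩
  have h1 : Continuous (iteratedFDeriv ℝ k u) := hu.continuous_iteratedFDeriv (bm5_le k)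
  obtain ⟨C, hC⟩ := hb.isCompact_closure.exists_bound_of_continuousOn h1.continuousOn
  exact ⟨C, fun x hx => hC x (subset_closure hx)⟩

private theorem bm5_bd {u : Ed d → G} (hu : BB D u) (k : ℕ) :
    ∃ C : ℝ, 0 ≤ C ∧ ∀ j ≤ k, ∀ x ∈ D, ‖iteratedFDeriv ℝ j u x‖ ≤ C := by
  choose C hC using hu.2
  refine ⟨∑ j ∈ Finset.range (k + 1), |C j|, Finset.sum_nonneg fun j _ => abs_nonneg _,
    fun j hj x hx => ?_⟩
  refine (hC j x hx).trans ((le_abs_self _).trans ?_)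
  exact Finset.single_le_sum (f := fun j => |C j|) (fun j _ => abs_nonneg _)
    (Finset.mem_range.2 (by omega))

private theorem bm5_mul (hD : IsOpen D) {P : Ed d → ℝ} (hP : BB D P) (k : ℕ) :
    ∃ C : ℝ, 0 ≤ C ∧ ∀ (g : Ed d → ℝ) (A : ℝ), SmOn g D →
      (∀ j ≤ k, ∀ x ∈ D, ‖iteratedFDeriv ℝ j g x‖ ≤ A) →
      ∀ j ≤ k, ∀ x ∈ D, ‖iteratedFDeriv ℝ j (fun x => P x * g x) x‖ ≤ C * A := by
  obtain ⟨M, hM0, hM⟩ := bm5_bd hP k
  refine ⟨2 ^ k * M, by positivity, fun g A hg hA j hj x hx => ?_⟩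
  have hA0 : 0 ≤ A := (norm_nonneg _).trans (hA 0 (Nat.zero_le _) x hx)
  have h1 := norm_iteratedFDerivWithin_mul_le hP.1 hg hD.uniqueDiffOn hx (bm5_le j)
  have h2 : ∀ (i : ℕ) (u : Ed d → ℝ), iteratedFDerivWithin ℝ i u D x = iteratedFDeriv ℝ i u x :=
    fun i u => iteratedFDerivWithin_of_isOpen i hD hx
  simp only [h2] at h1
  refine h1.trans ?_
  calc ∑ i ∈ Finset.range (j + 1), (j.choose i : ℝ) * ‖iteratedFDeriv ℝ i P x‖ *
        ‖iteratedFDeriv ℝ (j - i) g x‖ ≤ ∑ i ∈ Finset.range (j + 1), (j.choose i : ℝ) * (M * A) := by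
        refine Finset.sum_le_sum fun i hi => ?_
        rw [mul_assoc]
        refine mul_le_mul_of_nonneg_left ?_ (Nat.cast_nonneg _)
        have hi' : i ≤ j := Nat.lt_succ_iff.1 (Finset.mem_range.1 hi)
        exact mul_le_mul (hM i (hi'.trans hj) x hx) (hA _ (by omega) x hx) (norm_nonneg _) hM0
    _ = 2 ^ j * (M * A) := by
        rw [← Finset.sum_mul]
        congr 1
        exact_mod_cast Nat.sum_range_choose j
    _ ≤ 2 ^ k * (M * A) := by
        refine mul_le_mul_of_nonneg_right ?_ (mul_nonneg hM0 hA0)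
        exact pow_le_pow_right₀ (by norm_num) hj
    _ = 2 ^ k * M * A := by ring

private theorem bm5_add_le (hD : IsOpen D) {u v : Ed d → G} (hu : SmOn u D) (hv : SmOn v D) (j : ℕ)
    {x : Ed d} (hx : x ∈ D) : ‖iteratedFDeriv ℝ j (fun x => u x + v x) x‖ ≤
      ‖iteratedFDeriv ℝ j u x‖ + ‖iteratedFDeriv ℝ j v x‖ := by
  have h1 := iteratedFDeriv_add_apply (bm5_at hD hu hx j) (bm5_at hD hv hx j)
  change iteratedFDeriv ℝ j (fun x => u x + v x) x = _ at h1
  rw [h1]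
  exact norm_add_le _ _

private theorem bm5_sub_eq (hD : IsOpen D) {u v : Ed d → G} (hu : SmOn u D) (hv : SmOn v D) (j : ℕ)
    {x : Ed d} (hx : x ∈ D) : iteratedFDeriv ℝ j (fun x => u x - v x) x =
      iteratedFDeriv ℝ j u x - iteratedFDeriv ℝ j v x :=
  iteratedFDeriv_sub_apply (bm5_at hD hu hx j) (bm5_at hD hv hx j)

private theorem bm5_add (hD : IsOpen D) {u v : Ed d → G} (hu : BB D u) (hv : BB D v) :
    BB D (fun x => u x + v x) := by
  refine ⟨hu.1.add hv.1, fun k => ?_⟩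
  obtain ⟨C, hC⟩ := hu.2 k
  obtain ⟨C', hC'⟩ := hv.2 k
  exact ⟨C + C', fun x hx => (bm5_add_le hD hu.1 hv.1 k hx).trans (add_le_add (hC x hx) (hC' x hx))⟩

private theorem bm5_sub (hD : IsOpen D) {u v : Ed d → G} (hu : BB D u) (hv : BB D v) :
    BB D (fun x => u x - v x) := by
  refine ⟨hu.1.sub hv.1, fun k => ?_⟩
  obtain ⟨C, hC⟩ := hu.2 k
  obtain ⟨C', hC'⟩ := hv.2 k
  refine ⟨C + C', fun x hx => ?_⟩
  rw [bm5_sub_eq hD hu.1 hv.1 k hx]
  exact (norm_sub_le _ _).trans (add_le_add (hC x hx) (hC' x hx))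

private theorem bm5_cmul_eq (hD : IsOpen D) {u : Ed d → ℝ} (hu : SmOn u D) (c : ℝ) (j : ℕ)
    {x : Ed d} (hx : x ∈ D) : ‖iteratedFDeriv ℝ j (fun x => c * u x) x‖ = |c| * ‖iteratedFDeriv ℝ j u x‖ := by
  have h1 := iteratedFDeriv_const_smul_apply (a := c) (bm5_at hD hu hx j)
  change iteratedFDeriv ℝ j (fun x => c * u x) x = _ at h1
  rw [h1, norm_smul, Real.norm_eq_abs]

private theorem bm5_cmul (hD : IsOpen D) {u : Ed d → ℝ} (hu : BB D u) (c : ℝ) :
    BB D (fun x => c * u x) := by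
  refine ⟨contDiffOn_const.mul hu.1, fun k => ?_⟩
  obtain ⟨C, hC⟩ := hu.2 k
  refine ⟨|c| * C, fun x hx => ?_⟩
  rw [bm5_cmul_eq hD hu.1 c k hx]
  exact mul_le_mul_of_nonneg_left (hC x hx) (abs_nonneg _)

private noncomputable def bm5L (d : ℕ) : (Ed d →L[ℝ] ℝ) →L[ℝ] Ed d :=
  ∑ i, (ContinuousLinearMap.apply ℝ ℝ (ee i : Ed d)).smulRight (ee i)

private noncomputable def bm5T (d : ℕ) : (Ed d →L[ℝ] Ed d) →L[ℝ] ℝ :=
  ∑ i, (EuclideanSpace.proj i : Ed d →L[ℝ] ℝ).comp (ContinuousLinearMap.apply ℝ (Ed d) (ee i : Ed d))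

private theorem bm5_grad (u : Ed d → ℝ) (x : Ed d) : gradient u x = bm5L d (fderiv ℝ u x) := by
  rw [bg3_sum (gradient u x), bm5L, _root_.sum_apply]
  refine Finset.sum_congr rfl fun i _ => ?_
  rw [bg3_coord, ContinuousLinearMap.smulRight_apply, ContinuousLinearMap.apply_apply]

private theorem bm5_div (v : Ed d → Ed d) (x : Ed d) : divg v x = bm5T d (fderiv ℝ v x) := by
  rw [divg, bm5T, _root_.sum_apply]
  rfl

private theorem bm5_inner (u : Ed d → ℝ) (x v : Ed d) : ⟪gradient u x, v⟫ = fderiv ℝ u x v :=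
  InnerProductSpace.toDual_symm_apply

private theorem bm5_fd (hD : IsOpen D) {u : Ed d → G} (hu : SmOn u D) : SmOn (fderiv ℝ u) D :=
  hu.fderiv_of_isOpen hD (by norm_cast)

private theorem bm5_grad_sm (hD : IsOpen D) {u : Ed d → ℝ} (hu : SmOn u D) : SmOn (gradient u) D := by
  have h1 : gradient u = fun x => bm5L d (fderiv ℝ u x) := funext fun x => bm5_grad u x
  rw [h1]
  exact (bm5L d).contDiff.comp_contDiffOn (bm5_fd hD hu)

private theorem bm5_div_sm (hD : IsOpen D) {v : Ed d → Ed d} (hv : SmOn v D) : SmOn (divg v) D := by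
  have h1 : divg v = fun x => bm5T d (fderiv ℝ v x) := funext fun x => bm5_div v x
  rw [h1]
  exact (bm5T d).contDiff.comp_contDiffOn (bm5_fd hD hv)

private theorem bm5_grad_le (hD : IsOpen D) {u : Ed d → ℝ} (hu : SmOn u D) (j : ℕ) {x : Ed d} (hx : x ∈ D) :
    ‖iteratedFDeriv ℝ j (gradient u) x‖ ≤ ‖bm5L d‖ * ‖iteratedFDeriv ℝ (j + 1) u x‖ := by
  have h1 : gradient u = (bm5L d) ∘ (fderiv ℝ u) := funext fun x => bm5_grad u x
  rw [h1, ← norm_iteratedFDeriv_fderiv]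
  exact (bm5L d).norm_iteratedFDeriv_comp_left (bm5_at hD (bm5_fd hD hu) hx j) le_rfl

private theorem bm5_div_le (hD : IsOpen D) {v : Ed d → Ed d} (hv : SmOn v D) (j : ℕ) {x : Ed d} (hx : x ∈ D) :
    ‖iteratedFDeriv ℝ j (divg v) x‖ ≤ ‖bm5T d‖ * ‖iteratedFDeriv ℝ (j + 1) v x‖ := by
  have h1 : divg v = (bm5T d) ∘ (fderiv ℝ v) := funext fun x => bm5_div v x
  rw [h1, ← norm_iteratedFDeriv_fderiv]
  exact (bm5T d).norm_iteratedFDeriv_comp_left (bm5_at hD (bm5_fd hD hv) hx j) le_rfl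

private theorem bm5_lap_le (hD : IsOpen D) {u : Ed d → ℝ} (hu : SmOn u D) (j : ℕ) {x : Ed d} (hx : x ∈ D) :
    ‖iteratedFDeriv ℝ j (divg (gradient u)) x‖ ≤ ‖bm5T d‖ * ‖bm5L d‖ * ‖iteratedFDeriv ℝ (j + 2) u x‖ := by
  refine (bm5_div_le hD (bm5_grad_sm hD hu) j hx).trans ?_
  rw [mul_assoc]
  exact mul_le_mul_of_nonneg_left (bm5_grad_le hD hu (j + 1) hx) (bm5T d).opNorm_nonneg

private theorem bm5_BBgrad (hD : IsOpen D) {u : Ed d → ℝ} (hu : BB D u) : BB D (gradient u) := by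
  refine ⟨bm5_grad_sm hD hu.1, fun k => ?_⟩
  obtain ⟨C, hC⟩ := hu.2 (k + 1)
  exact ⟨‖bm5L d‖ * C, fun x hx => (bm5_grad_le hD hu.1 k hx).trans
    (mul_le_mul_of_nonneg_left (hC x hx) (bm5L d).opNorm_nonneg)⟩

private theorem bm5_BBdiv (hD : IsOpen D) {v : Ed d → Ed d} (hv : BB D v) : BB D (divg v) := by
  refine ⟨bm5_div_sm hD hv.1, fun k => ?_⟩
  obtain ⟨C, hC⟩ := hv.2 (k + 1)
  exact ⟨‖bm5T d‖ * C, fun x hx => (bm5_div_le hD hv.1 k hx).trans
    (mul_le_mul_of_nonneg_left (hC x hx) (bm5T d).opNorm_nonneg)⟩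

private theorem bm5_dat (hD : IsOpen D) {u : Ed d → G} (hu : SmOn u D) {x : Ed d} (hx : x ∈ D) :
    DifferentiableAt ℝ u x := (bm5_at hD hu hx 1).differentiableAt (by norm_num)

private theorem bm5_div_sub (hD : IsOpen D) {v w : Ed d → Ed d} (hv : SmOn v D) (hw : SmOn w D) {x : Ed d}
    (hx : x ∈ D) : divg (fun y => v y - w y) x = divg v x - divg w x := by
  rw [bm5_div, bm5_div, bm5_div, fderiv_fun_sub (bm5_dat hD hv hx) (bm5_dat hD hw hx), map_sub]

private theorem bm5_lap_add (hD : IsOpen D) {u v : Ed d → ℝ} (hu : SmOn u D) (hv : SmOn v D) {x : Ed d}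
    (hx : x ∈ D) : divg (gradient fun y => u y + v y) x = divg (gradient u) x + divg (gradient v) x := by
  have h1 : gradient (fun y => u y + v y) =ᶠ[𝓝 x] fun y => gradient u y + gradient v y := by
    filter_upwards [hD.mem_nhds hx] with y hy
    rw [bm5_grad, bm5_grad, bm5_grad, fderiv_fun_add (bm5_dat hD hu hy) (bm5_dat hD hv hy), map_add]
  rw [bm5_div, h1.fderiv_eq, bm5_div, bm5_div, fderiv_fun_add (bm5_dat hD (bm5_grad_sm hD hu) hx)
    (bm5_dat hD (bm5_grad_sm hD hv) hx), map_add]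

private theorem bm5_int (hD : IsOpen D) (hb : Bornology.IsBounded D) {u : Ed d → ℝ} (hu : BB D u) :
    IntegrableOn u D := by
  have hf : IsFiniteMeasure (volume.restrict D) := ⟨by
    rw [Measure.restrict_apply_univ]
    exact hb.measure_lt_top⟩
  obtain ⟨C, hC⟩ := hu.2 0
  refine Integrable.of_bound (hu.1.continuousOn.aestronglyMeasurable hD.measurableSet) C ?_
  rw [ae_restrict_iff' hD.measurableSet]
  refine Filter.Eventually.of_forall fun x hx => ?_
  have := hC x hx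
  rwa [norm_iteratedFDeriv_zero] at this

end tools

private theorem bm5_OO_add {G : Type} [NormedAddCommGroup G] {u v : Ed d → G} (hu : OO D z u) (hv : OO D z v) :
    OO D z (fun x => u x + v x) := by
  obtain ⟨C, hC⟩ := hu
  obtain ⟨C', hC'⟩ := hv
  refine ⟨C + C', fun x hx => (norm_add_le _ _).trans ?_⟩
  rw [add_mul]
  exact add_le_add (hC x hx) (hC' x hx)

private theorem bm5_OO_sub {G : Type} [NormedAddCommGroup G] {u v : Ed d → G} (hu : OO D z u) (hv : OO D z v) :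
    OO D z (fun x => u x - v x) := by
  obtain ⟨C, hC⟩ := hu
  obtain ⟨C', hC'⟩ := hv
  refine ⟨C + C', fun x hx => (norm_sub_le _ _).trans ?_⟩
  rw [add_mul]
  exact add_le_add (hC x hx) (hC' x hx)

private theorem bm5_OO_congr {G : Type} [NormedAddCommGroup G] {u v : Ed d → G} (hu : OO D z u)
    (h : ∀ x ∈ D, u x = v x) : OO D z v := by
  obtain ⟨C, hC⟩ := hu
  exact ⟨C, fun x hx => by rw [← h x hx]; exact hC x hx⟩

/-- the explicit part has the right normal derivative -/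
private theorem bm5_normal (h : Dom D z δ) {κ : Ed d → ℝ} (hκ : Sm κ) (hκI : ∀ x, |κ x| ≤ 1)
    (hκ1 : ∀ x, z x ≤ δ → κ x = 1) {g : Ed d → ℝ} (hg : BB D g) :
    OO D z (fun x => ⟪gradient z x, gradient (fun y => (z y * κ y) * g y) x⟫ - g x) := by
  have hD := h.isOpen
  have hb := h.bdd
  have hz : BB D z := bm5_sm hb h.sm
  have hκB : BB D κ := bm5_sm hb hκ
  obtain ⟨Z, hZ0, hZ⟩ := bm5_bd (bm5_BBgrad hD hz) 0
  obtain ⟨K, hK0, hK⟩ := bm5_bd hκB 1
  obtain ⟨A, hA0, hA⟩ := bm5_bd hg 1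
  have hZ' : ∀ x ∈ D, ‖gradient z x‖ ≤ Z := fun x hx => by
    have := hZ 0 le_rfl x hx
    rwa [norm_iteratedFDeriv_zero] at this
  have hK' : ∀ x ∈ D, ‖fderiv ℝ κ x‖ ≤ K := fun x hx => by
    have := hK 1 le_rfl x hx
    rwa [norm_iteratedFDeriv_one] at this
  have hA' : ∀ x ∈ D, ‖fderiv ℝ g x‖ ≤ A := fun x hx => by
    have := hA 1 le_rfl x hx
    rwa [norm_iteratedFDeriv_one] at this
  have hA'' : ∀ x ∈ D, |g x| ≤ A := fun x hx => by
    have := hA 0 (by norm_num) x hx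
    rwa [norm_iteratedFDeriv_zero, Real.norm_eq_abs] at this
  refine ⟨A * Z + A * (K * Z) + A * (Z ^ 2 + 1) / δ, fun x hx => ?_⟩
  have hzx : 0 < z x := by
    have := hx
    rw [h.eq] at this
    exact this
  have hδ := h.pos
  set n := gradient z x with hn
  have hnn : fderiv ℝ z x n = ‖n‖ ^ 2 := by
    rw [← bm5_inner, ← hn, real_inner_self_eq_norm_sq]
  have hdz : DifferentiableAt ℝ z x := (h.sm.differentiable (by simp)) x
  have hdκ : DifferentiableAt ℝ κ x := (hκ.differentiable (by simp)) x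
  have hdg : DifferentiableAt ℝ g x := bm5_dat hD hg.1 hx
  have h1 : ⟪n, gradient (fun y => (z y * κ y) * g y) x⟫ =
      (z x * κ x) * fderiv ℝ g x n + g x * (z x * fderiv ℝ κ x n + κ x * ‖n‖ ^ 2) := by
    rw [real_inner_comm, bm5_inner, fderiv_fun_mul (hdz.fun_mul hdκ) hdg, fderiv_fun_mul hdz hdκ]
    simp only [_root_.add_apply, _root_.smul_apply, smul_eq_mul, hnn]
  show ‖⟪n, gradient (fun y => (z y * κ y) * g y) x⟫ - g x‖ ≤ _
  rw [h1]
  have h2 : (z x * κ x) * fderiv ℝ g x n + g x * (z x * fderiv ℝ κ x n + κ x * ‖n‖ ^ 2) - g x =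
      z x * (κ x * fderiv ℝ g x n + g x * fderiv ℝ κ x n) + g x * (κ x * ‖n‖ ^ 2 - 1) := by ring
  rw [h2, Real.norm_eq_abs]
  have h3 : |fderiv ℝ g x n| ≤ A * Z :=
    ((fderiv ℝ g x).le_opNorm n).trans (mul_le_mul (hA' x hx) (hZ' x hx) (norm_nonneg _) hA0)
  have h4 : |fderiv ℝ κ x n| ≤ K * Z :=
    ((fderiv ℝ κ x).le_opNorm n).trans (mul_le_mul (hK' x hx) (hZ' x hx) (norm_nonneg _) hK0)
  have h5 : |z x * (κ x * fderiv ℝ g x n + g x * fderiv ℝ κ x n)| ≤ (A * Z + A * (K * Z)) * z x := by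
    rw [abs_mul, abs_of_pos hzx, mul_comm]
    refine mul_le_mul_of_nonneg_right ?_ hzx.le
    refine (abs_add_le _ _).trans (add_le_add ?_ ?_)
    · rw [abs_mul]
      calc |κ x| * |fderiv ℝ g x n| ≤ 1 * (A * Z) :=
            mul_le_mul (hκI x) h3 (abs_nonneg _) zero_le_one
        _ = A * Z := one_mul _
    · rw [abs_mul]
      exact mul_le_mul (hA'' x hx) h4 (abs_nonneg _) hA0
  have h6 : |g x * (κ x * ‖n‖ ^ 2 - 1)| ≤ A * (Z ^ 2 + 1) / δ * z x := by
    by_cases hzδ : z x ≤ δ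
    · have h7 : ‖n‖ = 1 := h.one x (by rw [abs_of_pos hzx]; linarith)
      rw [hκ1 x hzδ, h7]
      have h8 : 0 ≤ A * (Z ^ 2 + 1) / δ * z x := by positivity
      simpa using h8
    · have h9 : |κ x * ‖n‖ ^ 2 - 1| ≤ Z ^ 2 + 1 := by
        refine (abs_sub _ _).trans ?_
        rw [abs_one, abs_mul, abs_of_nonneg (sq_nonneg ‖n‖)]
        have h10 : ‖n‖ ^ 2 ≤ Z ^ 2 := pow_le_pow_left₀ (norm_nonneg _) (hZ' x hx) 2
        have h11 : |κ x| * ‖n‖ ^ 2 ≤ 1 * ‖n‖ ^ 2 := mul_le_mul_of_nonneg_right (hκI x) (sq_nonneg _)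
        linarith
      rw [abs_mul]
      have h12 : |g x| * |κ x * ‖n‖ ^ 2 - 1| ≤ A * (Z ^ 2 + 1) :=
        mul_le_mul (hA'' x hx) h9 (abs_nonneg _) hA0
      refine h12.trans ?_
      rw [div_mul_eq_mul_div, le_div_iff₀ hδ]
      exact mul_le_mul_of_nonneg_left (le_of_not_ge hzδ) (by positivity)
  refine (abs_add_le _ _).trans ?_
  rw [add_mul]
  exact add_le_add h5 h6

/-- Solution with prescribed normal derivative `g` and a source in the support of `θ`: `Δ q = c θ`. With `χ' = 1 - χ`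
(`Dom.exists_cut`, `χ = 1` for `z ≥ 2 δ`, `0` for `z ≤ δ`): `q = z χ' g + q₀` with `q₀` the solution of the Neumann
problem with right hand side `c θ - Δ (z χ' g)`, `c = ∫_D Δ (z χ' g)`. -/
theorem Dom.neumann_bdry (h : Dom D z δ) {θ : Ed d → ℝ} (hθ : Sm θ) (hθ1 : ∫ x in D, θ x = 1) :
    ∃ Cm : ℕ → ℝ × ℕ, ∀ g : Ed d → ℝ, BB D g → ∃ (q : Ed d → ℝ) (c : ℝ), BB D q ∧
      (∀ x ∈ D, divg (gradient q) x = c * θ x) ∧
      OO D z (fun x => ⟪gradient z x, gradient q x⟫ - g x) ∧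
      (∀ v : Ed d → Ed d, BB D v → (∀ x ∈ D, divg v x = 0) → OO D z (fun x => ⟪gradient z x, v x⟫ - g x) → c = 0) ∧
      ∀ k, ∀ A : ℝ, (∀ j ≤ (Cm k).2, ∀ x ∈ D, ‖iteratedFDeriv ℝ j g x‖ ≤ A) →
        ∀ j ≤ k, ∀ x ∈ D, ‖iteratedFDeriv ℝ j q x‖ ≤ (Cm k).1 * A := by
  have hD : IsOpen D := h.isOpen
  have hb := h.bdd
  obtain ⟨χ, hχs, hχc, hχD, hχI, hχ1, hχ0⟩ := h.exists_cut (a := 2 * δ) (by linarith [h.pos])
  set κ : Ed d → ℝ := fun x => 1 - χ x with hκ
  have hκs : Sm κ := contDiff_const.sub hχs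
  have hκI : ∀ x, |κ x| ≤ 1 := fun x => by
    have h1 := hχI x
    rw [hκ, abs_le]
    constructor
    · linarith [h1.2]
    · linarith [h1.1]
  have hκ1 : ∀ x, z x ≤ δ → κ x = 1 := fun x hx => by
    show 1 - χ x = 1
    rw [hχ0 x (by linarith), sub_zero]
  have hPs : Sm (fun x => z x * κ x) := h.sm.mul hκs
  have hPB : BB D (fun x => z x * κ x) := bm5_sm hb hPs
  have hθB : BB D θ := bm5_sm hb hθ
  choose C1 hC10 hC1 using bm5_mul hD hPB
  choose mk Ck hCk0 hCk using fun k => IsNeu.est_C h k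
  choose Cθ hCθ0 hCθ using bm5_bd hθB
  set CL : ℝ := ‖bm5T d‖ * ‖bm5L d‖ with hCL
  have hCL0 : 0 ≤ CL := mul_nonneg (bm5T d).opNorm_nonneg (bm5L d).opNorm_nonneg
  set V : ℝ := volume.real D with hV
  have hV0 : 0 ≤ V := measureReal_nonneg
  set m' : ℕ → ℕ := fun k => max (mk k + 2) k with hm'
  set E : ℕ → ℝ := fun k => (CL * C1 (m' k) * V) * Cθ (mk k) + CL * C1 (m' k) with hE
  refine ⟨fun k => (C1 (m' k) + Ck k * E k, m' k), fun g hg => ?_⟩
  set w : Ed d → ℝ := fun x => (z x * κ x) * g x with hw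
  have hwB : BB D w := by
    refine ⟨hPB.1.mul hg.1, fun k => ?_⟩
    obtain ⟨A, hA0, hA⟩ := bm5_bd hg k
    exact ⟨C1 k * A, hC1 k g A hg.1 hA k le_rfl⟩
  have hlB : BB D (divg (gradient w)) := bm5_BBdiv hD (bm5_BBgrad hD hwB)
  set c : ℝ := ∫ x in D, divg (gradient w) x with hc
  have hfB : BB D (fun x => c * θ x - divg (gradient w) x) := bm5_sub hD (bm5_cmul hD hθB c) hlB
  have hf0 : ∫ x in D, (c * θ x - divg (gradient w) x) = 0 := by
    rw [integral_sub ((bm5_int hD hb hθB).const_mul c) (bm5_int hD hb hlB), integral_const_mul, hθ1,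
      mul_one, ← hc, sub_self]
  obtain ⟨q₀, hq₀⟩ := h.neumann hfB hf0
  have hnw := bm5_normal h hκs hκI hκ1 hg
  refine ⟨fun x => w x + q₀ x, c, bm5_add hD hwB hq₀.bb, fun x hx => ?_, ?_, fun v hv hv0 hvn => ?_,
    fun k A hA j hj x hx => ?_⟩
  · rw [bm5_lap_add hD hwB.1 hq₀.bb.1 hx, hq₀.eq x hx]
    ring
  · refine bm5_OO_congr (bm5_OO_add hnw hq₀.nor) fun x hx => ?_
    have h1 : gradient (fun y => w y + q₀ y) x = gradient w x + gradient q₀ x := by
      rw [bm5_grad, bm5_grad, bm5_grad, fderiv_fun_add (bm5_dat hD hwB.1 hx) (bm5_dat hD hq₀.bb.1 hx),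
        map_add]
    rw [h1, inner_add_right]
    ring
  · -- `c = 0`
    have hX : BB D (fun x => gradient w x - v x) := bm5_sub hD (bm5_BBgrad hD hwB) hv
    obtain ⟨M, hM0, hM⟩ := bm5_bd hX 1
    have h1 := h.gauss (X := fun x => gradient w x - v x) (hX.1.of_le (bm5_le 1)) (M := M)
      (fun x hx => by
        have := hM 0 (by norm_num) x hx
        rwa [norm_iteratedFDeriv_zero] at this)
      (fun x hx => by
        have := hM 1 le_rfl x hx
        rwa [norm_iteratedFDeriv_one] at this)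
      (bm5_OO_congr (bm5_OO_sub hnw hvn) fun x hx => by
        rw [inner_sub_right]
        ring)
    rw [← h1, hc]
    refine setIntegral_congr_fun hD.measurableSet fun x hx => ?_
    rw [bm5_div_sub hD (bm5_grad_sm hD hwB.1) hv.1 hx, hv0 x hx, sub_zero]
  · -- estimates
    have hA0 : 0 ≤ A := (norm_nonneg _).trans (hA 0 (Nat.zero_le _) x hx)
    have hm1 : mk k + 2 ≤ m' k := le_max_left _ _
    have hm2 : k ≤ m' k := le_max_right _ _
    have hwA := hC1 (m' k) g A hg.1 hA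
    have hlA : ∀ i ≤ mk k, ∀ y ∈ D, ‖iteratedFDeriv ℝ i (divg (gradient w)) y‖ ≤
        CL * (C1 (m' k) * A) := fun i hi y hy =>
      (bm5_lap_le hD hwB.1 i hy).trans (mul_le_mul_of_nonneg_left (hwA (i + 2) (by omega) y hy) hCL0)
    have hcA : |c| ≤ CL * (C1 (m' k) * A) * V := by
      rw [hc, ← Real.norm_eq_abs]
      refine norm_setIntegral_le_of_norm_le_const hb.measure_lt_top fun y hy => ?_
      have := hlA 0 (Nat.zero_le _) y hy
      rwa [norm_iteratedFDeriv_zero] at this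
    have hfA : ∀ i ≤ mk k, ∀ y ∈ D,
        ‖iteratedFDeriv ℝ i (fun x => c * θ x - divg (gradient w) x) y‖ ≤ E k * A := by
      intro i hi y hy
      rw [bm5_sub_eq hD (bm5_cmul hD hθB c).1 hlB.1 i hy]
      refine (norm_sub_le _ _).trans ?_
      rw [bm5_cmul_eq hD hθB.1 c i hy]
      have h1 : |c| * ‖iteratedFDeriv ℝ i θ y‖ ≤ (CL * (C1 (m' k) * A) * V) * Cθ (mk k) :=
        mul_le_mul hcA (hCθ (mk k) i hi y hy) (norm_nonneg _) ((abs_nonneg _).trans hcA)
      refine (add_le_add h1 (hlA i hi y hy)).trans (le_of_eq ?_)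
      rw [hE]
      ring
    have hqA := hCk k _ q₀ (E k * A) hq₀ hfA j hj x hx
    refine (bm5_add_le hD hwB.1 hq₀.bb.1 j hx).trans ?_
    refine (add_le_add (hwA j (hj.trans hm2) x hx) hqA).trans (le_of_eq ?_)
    show C1 (m' k) * A + Ck k * (E k * A) = (C1 (m' k) + Ck k * E k) * A
    ring

private theorem bm5_Hn_sub {G : Type} [NormedAddCommGroup G] [NormedSpace ℝ G] (hD : IsOpen D)
    {u v : Ed d → G} (hu : SmOn u D) (hv : SmOn v D) (k : ℕ) :
    Hn D k (fun x => u x - v x) ≤ Hn D k u + Hn D k v := by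
  have hm : ∀ (j : ℕ) {w : Ed d → G}, SmOn w D →
      AEStronglyMeasurable (fun x => iteratedFDeriv ℝ j w x) (volume.restrict D) := by
    intro j w hw
    have h1 : ContinuousOn (iteratedFDerivWithin ℝ j w D) D :=
      hw.continuousOn_iteratedFDerivWithin (bm5_le j) hD.uniqueDiffOn
    have h2 : ContinuousOn (iteratedFDeriv ℝ j w) D :=
      h1.congr fun x hx => (iteratedFDerivWithin_of_isOpen j hD hx).symm
    exact h2.aestronglyMeasurable hD.measurableSet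
  unfold Hn
  rw [← Finset.sum_add_distrib]
  refine Finset.sum_le_sum fun j _ => ?_
  have h1 : eLpNorm (fun x => iteratedFDeriv ℝ j (fun x => u x - v x) x) 2 (volume.restrict D) =
      eLpNorm (fun x => iteratedFDeriv ℝ j u x - iteratedFDeriv ℝ j v x) 2 (volume.restrict D) := by
    refine eLpNorm_congr_ae ?_
    rw [Filter.EventuallyEq, ae_restrict_iff' hD.measurableSet]
    exact Filter.Eventually.of_forall fun x hx => bm5_sub_eq hD hu hv j hx
  rw [h1]
  exact eLpNorm_sub_le (hm j hu) (hm j hv) (by norm_num)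

/-- **The Leray projection** of a field in `BB(D)`: `F = v + ∇q` with `v` divergence free and tangential, with estimates of the
sharp order. -/
theorem Dom.leray (h : Dom D z δ) : ∃ C : ℕ → ℝ≥0, ∀ F : Ed d → Ed d, BB D F → ∃ (v : Ed d → Ed d)
    (q : Ed d → ℝ), BB D v ∧ BB D q ∧ (∀ x, F x = v x + gradient q x) ∧ (∀ x ∈ D, divg v x = 0) ∧
      OO D z (fun x => ⟪gradient z x, v x⟫) ∧ (∀ k, Hn D k v ≤ C k * Hn D k F) ∧
      ∀ k, Hn D k (gradient q) ≤ C k * Hn D k F := by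
  have hD : IsOpen D := h.isOpen
  have hb := h.bdd
  choose C hC using fun K => h.est_F K
  refine ⟨fun k => 1 + C k, fun F hF => ?_⟩
  obtain ⟨q, hq, hQ, hdiv, hn, -⟩ := h.exists_sol (F := F) (f := fun _ => 0) hF
    (bm5_sm hb contDiff_const) (by simp)
  have hgB := bm5_BBgrad hD hq
  have h1 : ∀ k, Hn D k (gradient q) ≤ C k * Hn D k F := fun k => hC k F q hF.1 hq.1 hQ
  refine ⟨fun x => F x - gradient q x, q, bm5_sub hD hF hgB, hq, fun x => ?_, fun x hx => ?_, ?_,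
    fun k => ?_, fun k => ?_⟩
  · rw [sub_add_cancel]
  · rw [bm5_div_sub hD hF.1 hgB.1 hx, hdiv x hx, add_zero, sub_self]
  · obtain ⟨M, hM⟩ := hn
    refine ⟨M, fun x hx => ?_⟩
    have h2 := hM x hx
    have h3 : ⟪gradient z x, F x - gradient q x⟫ = -⟪gradient z x, gradient q x - F x⟫ := by
      rw [← inner_neg_right, neg_sub]
    show ‖⟪gradient z x, F x - gradient q x⟫‖ ≤ _
    rw [h3, norm_neg]
    exact h2
  · refine (bm5_Hn_sub hD hF.1 hgB.1 k).trans ?_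
    push_cast
    rw [add_mul, one_mul]
    exact add_le_add le_rfl (h1 k)
  · refine (h1 k).trans ?_
    push_cast
    rw [add_mul, one_mul]
    exact le_add_self

end Pool.Agent.Lib.MP_79abb3_an.W.B
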