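import Pool.Agent.Lib.MP_79abb3_an.W.BT2

/-!
Theorem W, block B: the adjoint of the pull back.
-/

set_option autoImplicit false
set_option linter.unusedSectionVars false

open MeasureTheory Set Filter Topology Function
open scoped RealInnerProductSpace ENNReal NNReal

namespace Pool.Agent.Lib.MP_79abb3_an.W.B

variable {d : ℕ} {X : Ed d → Ed d} {τ C : ℝ} {Φ : ℝ → Ed d → Ed d} {D : Set (Ed d)}

/-- The difference between the adjoint of the pull back by `Φ t` and the pull back by `Φ (-t)`. -/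
noncomputable def Th (Φ : ℝ → Ed d → Ed d) (t : ℝ) (y : Ed d) : Ed d →L[ℝ] Ed d :=
  |(fderiv ℝ (Φ (-t)) y).det| • fderiv ℝ (Φ t) (Φ (-t) y) -
    ContinuousLinearMap.adjoint (fderiv ℝ (Φ (-t)) y)

/-- Substitute `x = Φ (-t) y` (`integral_image_eq_integral_abs_det_fderiv_smul` with `Φ (-t) '' D = D`) in
`∫_D ⟨u (Φ t x), DΦ_t(x) ∇φ(x)⟩`, and `∇(φ ∘ Φ (-t))(y) = DΦ_{-t}(y)ᵀ ∇φ(Φ (-t) y)`. -/
theorem pb_dual (hΦ : IsFl X τ C Φ) (hP : Pres D τ Φ) (hD : IsOpen D) {t : ℝ} (ht : t ∈ Ioo (-τ) τ)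
    {u : Ed d → Ed d} (hu : MemLp u 2 (volume.restrict D)) {φ : Ed d → ℝ} (hφ : IsT1 φ) :
    ∫ x in D, ⟪pb Φ t u x, gradient φ x⟫ =
      ∫ y in D, ⟪u y, gradient (fun y => φ (Φ (-t) y)) y + Th Φ t y (gradient φ (Φ (-t) y))⟫ := by
  have ht' : -t ∈ Ioo (-τ) τ := ⟨by linarith [ht.2], by linarith [ht.1]⟩
  have hinv : ∀ y, Φ t (Φ (-t) y) = y := by
    intro y
    have h1 := hΦ.inv (-t) ht' y
    rwa [neg_neg] at h1
  have hdiff : ∀ y, HasFDerivAt (Φ (-t)) (fderiv ℝ (Φ (-t)) y) y := fun y =>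
    ((hΦ.c1 (-t) ht').differentiable (by simp) y).hasFDerivAt
  have himg : Φ (-t) '' D = D := by
    apply Subset.antisymm
    · rintro _ ⟨y, hy, rfl⟩
      exact hP (-t) ht' y hy
    · intro x hx
      exact ⟨Φ t x, hP t ht x hx, hΦ.inv t ht x⟩
  have hinj : InjOn (Φ (-t)) D := fun x _ y _ h => by
    rw [← hinv x, h, hinv y]
  have h1 := integral_image_eq_integral_abs_det_fderiv_smul (volume : Measure (Ed d)) hD.measurableSet
    (fun y _ => (hdiff y).hasFDerivWithinAt) hinj (fun x => ⟪pb Φ t u x, gradient φ x⟫)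
  rw [himg] at h1
  rw [h1]
  congr 1
  funext y
  rw [gradient_comp hΦ ht' hφ y]
  unfold pb Th
  rw [hinv y, ContinuousLinearMap.adjoint_inner_left]
  rw [_root_.sub_apply, _root_.smul_apply, add_sub_cancel, real_inner_smul_right, smul_eq_mul]


end Pool.Agent.Lib.MP_79abb3_an.W.B
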