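import Pool.Agent.Lib.MP_79abb3_an.W.BW2
import Pool.Agent.Lib.MP_79abb3_an.W.BW0

section

/-!
Theorem W, block B: bumps and divergences.
-/

set_option autoImplicit false
set_option linter.unusedSectionVars false

open MeasureTheory Set Filter Topology Function
open scoped RealInnerProductSpace ENNReal NNReal

namespace Pool.Agent.Lib.MP_79abb3_an.W.B

variable {d : ℕ} {D : Set (Ed d)}

/-- Bound of the derivatives of order at most `m`. -/
def CB {G : Type} [NormedAddCommGroup G] [NormedSpace ℝ G] (m : ℕ) (u : Ed d → G) (A : ℝ) : Prop :=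
  ∀ j ≤ m, ∀ x, ‖iteratedFDeriv ℝ j u x‖ ≤ A

section CBlemmas
variable {G : Type} [NormedAddCommGroup G] [NormedSpace ℝ G] {m : ℕ}

theorem CB.mono {u : Ed d → G} {A A' : ℝ} (h : CB m u A) (hA : A ≤ A') : CB m u A' :=
  fun j hj x => (h j hj x).trans hA

theorem CB.nonneg {u : Ed d → G} {A : ℝ} (h : CB m u A) : 0 ≤ A :=
  (norm_nonneg _).trans (h 0 (Nat.zero_le _) 0)

theorem CB.zero_bd {u : Ed d → G} {A : ℝ} (h : CB m u A) (x : Ed d) : ‖u x‖ ≤ A := by
  have := h 0 (Nat.zero_le _) x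
  rwa [norm_iteratedFDeriv_zero] at this

theorem CB.add {u v : Ed d → G} {A A' : ℝ} (hu : Sm u) (hv : Sm v) (h : CB m u A) (h' : CB m v A') :
    CB m (fun x => u x + v x) (A + A') := by
  intro j hj x
  have e : iteratedFDeriv ℝ j (fun x => u x + v x) x =
      iteratedFDeriv ℝ j u x + iteratedFDeriv ℝ j v x :=
    fun_iteratedFDeriv_add_apply ((hu.of_le (by exact_mod_cast le_top)).contDiffAt)
      ((hv.of_le (by exact_mod_cast le_top)).contDiffAt)
  rw [e]
  exact (norm_add_le _ _).trans (add_le_add (h j hj x) (h' j hj x))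

theorem CB.sub {u v : Ed d → G} {A A' : ℝ} (hu : Sm u) (hv : Sm v) (h : CB m u A) (h' : CB m v A') :
    CB m (fun x => u x - v x) (A + A') := by
  intro j hj x
  have e : iteratedFDeriv ℝ j (fun x => u x - v x) x =
      iteratedFDeriv ℝ j u x - iteratedFDeriv ℝ j v x :=
    fun_iteratedFDeriv_sub_apply ((hu.of_le (by exact_mod_cast le_top)).contDiffAt)
      ((hv.of_le (by exact_mod_cast le_top)).contDiffAt)
  rw [e]
  exact (norm_sub_le _ _).trans (add_le_add (h j hj x) (h' j hj x))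

theorem CB.csmul {u : Ed d → G} {A : ℝ} (c : ℝ) (hu : Sm u) (h : CB m u A) :
    CB m (fun x => c • u x) (|c| * A) := by
  intro j hj x
  have e : iteratedFDeriv ℝ j (fun x => c • u x) x = c • iteratedFDeriv ℝ j u x :=
    iteratedFDeriv_const_smul_apply' ((hu.of_le (by exact_mod_cast le_top)).contDiffAt)
  rw [e, norm_smul, Real.norm_eq_abs]
  exact mul_le_mul_of_nonneg_left (h j hj x) (abs_nonneg _)

theorem CB.sum {ι : Type} (s : Finset ι) {u : ι → Ed d → G} {A : ι → ℝ} (hu : ∀ i ∈ s, Sm (u i))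
    (h : ∀ i ∈ s, CB m (u i) (A i)) : CB m (fun x => ∑ i ∈ s, u i x) (∑ i ∈ s, A i) := by
  intro j hj x
  have e : iteratedFDeriv ℝ j (fun x => ∑ i ∈ s, u i x) x = ∑ i ∈ s, iteratedFDeriv ℝ j (u i) x :=
    iteratedFDeriv_fun_sum_apply fun i hi =>
      ((hu i hi).of_le (by exact_mod_cast le_top)).contDiffAt
  rw [e]
  exact (norm_sum_le _ _).trans (Finset.sum_le_sum fun i hi => h i hi j hj x)

theorem CB.smulc {u : Ed d → ℝ} {A : ℝ} (v : G) (hu : Sm u) (h : CB m u A) :
    CB m (fun x => u x • v) (‖v‖ * A) := by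
  intro j hj x
  have e : iteratedFDeriv ℝ j (fun x => u x • v) x =
      ((ContinuousLinearMap.id ℝ ℝ).smulRight v).compContinuousMultilinearMap
        (iteratedFDeriv ℝ j u x) :=
    iteratedFDeriv_smul_const_apply ((hu.of_le (by exact_mod_cast le_top)).contDiffAt)
  rw [e]
  refine (ContinuousLinearMap.norm_compContinuousMultilinearMap_le _ _).trans ?_
  refine mul_le_mul ?_ (h j hj x) (norm_nonneg _) (norm_nonneg _)
  rw [ContinuousLinearMap.norm_smulRight_apply]
  have h1 : ‖(ContinuousLinearMap.id ℝ ℝ)‖ ≤ 1 := ContinuousLinearMap.norm_id_le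
  nlinarith [norm_nonneg v]

/-- Products (Leibniz). -/
theorem CB.mul {u v : Ed d → ℝ} {A A' : ℝ} (hu : Sm u) (hv : Sm v) (h : CB m u A) (h' : CB m v A') :
    CB m (fun x => u x * v x) (2 ^ m * A * A') := by
  intro j hj x
  refine (norm_iteratedFDeriv_mul_le hu hv x (n := j) (by exact_mod_cast le_top)).trans ?_
  have hA := h.nonneg
  have hA' := h'.nonneg
  have h1 : ∀ i ∈ Finset.range (j + 1), (j.choose i : ℝ) * ‖iteratedFDeriv ℝ i u x‖ *
      ‖iteratedFDeriv ℝ (j - i) v x‖ ≤ (j.choose i : ℝ) * A * A' := by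
    intro i hi
    rw [Finset.mem_range] at hi
    have h2 := h i (by omega) x
    have h3 := h' (j - i) (by omega) x
    gcongr
  refine (Finset.sum_le_sum h1).trans ?_
  rw [← Finset.sum_mul, ← Finset.sum_mul]
  have h4 : ∑ i ∈ Finset.range (j + 1), (j.choose i : ℝ) = 2 ^ j := by
    exact_mod_cast Nat.sum_range_choose j
  rw [h4]
  have h5 : (2 : ℝ) ^ j ≤ 2 ^ m := pow_le_pow_right₀ (by norm_num) hj
  gcongr

theorem CB.of_cpt {u : Ed d → G} (hu : Sm u) (hc : HasCompactSupport u) (m : ℕ) :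
    ∃ A : ℝ, CB m u A := by
  have h1 : ∀ j : ℕ, ∃ A : ℝ, ∀ x, ‖iteratedFDeriv ℝ j u x‖ ≤ A := by
    intro j
    have h2 : Continuous (iteratedFDeriv ℝ j u) := hu.continuous_iteratedFDeriv (by exact_mod_cast le_top)
    exact h2.bounded_above_of_compact_support (hc.iteratedFDeriv (𝕜 := ℝ) j)
  choose A hA using h1
  refine ⟨∑ j ∈ Finset.range (m + 1), |A j|, fun j hj x => ?_⟩
  refine (hA j x).trans ((le_abs_self _).trans ?_)
  exact Finset.single_le_sum (f := fun j => |A j|) (fun i _ => abs_nonneg _)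
    (Finset.mem_range.2 (by omega))

end CBlemmas

section param

private theorem bv1_meas {Ω : Type} [MeasurableSpace Ω] (μ : Measure Ω) {h : Ω → Ed d}
    (hh : Measurable h) {w : Ω → ℝ} (hw : Measurable w) {G : Type} [NormedAddCommGroup G]
    [NormedSpace ℝ G] {g : Ed d → G} (hg : Sm g) (x : Ed d) :
    AEStronglyMeasurable (fun ω => w ω • g (x - h ω)) μ := by
  have h1 : StronglyMeasurable g := hg.continuous.stronglyMeasurable
  exact (hw.stronglyMeasurable.smul (h1.comp_measurable (measurable_const.sub hh))).aestronglyMeasurable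

private theorem bv1_bdd {Ω : Type} {h : Ω → Ed d}
    {w : Ω → ℝ} {M : ℝ} (hM : ∀ ω, |w ω| ≤ M) {G : Type} [NormedAddCommGroup G]
    [NormedSpace ℝ G] {g : Ed d → G} (hg : Sm g) (hc : HasCompactSupport g) :
    ∃ B : ℝ, ∀ x ω, ‖w ω • g (x - h ω)‖ ≤ B := by
  obtain ⟨B, hB⟩ := hg.continuous.bounded_above_of_compact_support hc
  refine ⟨M * B, fun x ω => ?_⟩
  rw [norm_smul, Real.norm_eq_abs]
  exact mul_le_mul (hM ω) (hB _) (norm_nonneg _) ((abs_nonneg _).trans (hM ω))

private theorem bv1_der {Ω : Type} [MeasurableSpace Ω] (μ : Measure Ω) [IsFiniteMeasure μ] {h : Ω → Ed d}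
    (hh : Measurable h) {w : Ω → ℝ} (hw : Measurable w) {M : ℝ} (hM : ∀ ω, |w ω| ≤ M)
    {G : Type} [NormedAddCommGroup G] [NormedSpace ℝ G] [CompleteSpace G] {g : Ed d → G}
    (hg : Sm g) (hc : HasCompactSupport g) (x : Ed d) :
    HasFDerivAt (fun x => ∫ ω, w ω • g (x - h ω) ∂μ) (∫ ω, w ω • fderiv ℝ g (x - h ω) ∂μ) x := by
  have hg' : Sm (fderiv ℝ g) := hg.fderiv_right (by norm_cast)
  obtain ⟨B, hB⟩ := bv1_bdd (h := h) hM hg hc
  obtain ⟨B', hB'⟩ := bv1_bdd (h := h) hM hg' (hc.fderiv ℝ)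
  refine hasFDerivAt_integral_of_dominated_of_fderiv_le (s := univ) (bound := fun _ => B')
    (F' := fun x ω => w ω • fderiv ℝ g (x - h ω)) univ_mem
    (Eventually.of_forall fun x => bv1_meas μ hh hw hg x) ?_ (bv1_meas μ hh hw hg' x)
    (Eventually.of_forall fun ω x _ => hB' x ω) (integrable_const _)
    (Eventually.of_forall fun ω x _ => ?_)
  · exact Integrable.of_bound (bv1_meas μ hh hw hg x) B (Eventually.of_forall fun ω => hB x ω)
  · have h1 : HasFDerivAt (fun x : Ed d => x - h ω) (ContinuousLinearMap.id ℝ (Ed d)) x :=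
      (hasFDerivAt_id x).sub_const _
    have h2 : HasFDerivAt g (fderiv ℝ g (x - h ω)) (x - h ω) :=
      ((hg.differentiable (by simp)) _).hasFDerivAt
    exact ((h2.comp x h1).const_smul (w ω)).congr_fderiv (by rw [ContinuousLinearMap.comp_id])

private theorem bv1_bd {Ω : Type} [MeasurableSpace Ω] (μ : Measure Ω) [IsFiniteMeasure μ] {h : Ω → Ed d}
    (hh : Measurable h) {w : Ω → ℝ} (hw : Measurable w) {M : ℝ} (hM : ∀ ω, |w ω| ≤ M) (j : ℕ) :
    ∀ {G : Type} [NormedAddCommGroup G] [NormedSpace ℝ G] [CompleteSpace G] {g : Ed d → G}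
      (_ : Sm g) (_ : HasCompactSupport g) {A : ℝ} (_ : ∀ x, ‖iteratedFDeriv ℝ j g x‖ ≤ A) (x : Ed d),
      ‖iteratedFDeriv ℝ j (fun x => ∫ ω, w ω • g (x - h ω) ∂μ) x‖ ≤ M * A * μ.real univ := by
  induction j with
  | zero =>
    intro G _ _ _ g hg hc A hA x
    rw [norm_iteratedFDeriv_zero]
    refine norm_integral_le_of_norm_le_const (Eventually.of_forall fun ω => ?_)
    rw [norm_smul, Real.norm_eq_abs]
    have h1 := hA (x - h ω)
    rw [norm_iteratedFDeriv_zero] at h1
    exact mul_le_mul (hM ω) h1 (norm_nonneg _) ((abs_nonneg _).trans (hM ω))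
  | succ j ih =>
    intro G _ _ _ g hg hc A hA x
    have hg' : Sm (fderiv ℝ g) := hg.fderiv_right (by norm_cast)
    rw [← norm_iteratedFDeriv_fderiv]
    have h1 : fderiv ℝ (fun x => ∫ ω, w ω • g (x - h ω) ∂μ) =
        fun x => ∫ ω, w ω • fderiv ℝ g (x - h ω) ∂μ :=
      funext fun x => (bv1_der μ hh hw hM hg hc x).fderiv
    rw [h1]
    refine ih hg' (hc.fderiv ℝ) (fun x => ?_) x
    rw [norm_iteratedFDeriv_fderiv]
    exact hA x

end param

private theorem bv1_fsum {G : Type} [NormedAddCommGroup G] [NormedSpace ℝ G] (L : Ed d →L[ℝ] G)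
    (v : Ed d) : L v = ∑ i, v i • L (ee i) := by
  have h8 : v = ∑ i, v i • ee i := by
    ext j
    simp [Pi.single_apply]
  conv_lhs => rw [h8, map_sum]
  exact Finset.sum_congr rfl fun i _ => by rw [map_smul]

private theorem bv1_seg {g : Ed d → ℝ} (hg : Sm g) (x v : Ed d) :
    ∫ t in (0:ℝ)..1, fderiv ℝ g (x - t • v) v = g x - g (x - v) := by
  have h1 : ∀ t : ℝ, HasDerivAt (fun t : ℝ => -g (x - t • v)) (fderiv ℝ g (x - t • v) v) t := by
    intro t
    have h2 : HasDerivAt (fun t : ℝ => x - t • v) (-((1 : ℝ) • v)) t :=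
      ((hasDerivAt_id t).smul_const v).const_sub x
    have h3 : HasFDerivAt g (fderiv ℝ g (x - t • v)) (x - t • v) :=
      ((hg.differentiable (by simp)) _).hasFDerivAt
    have h4 := (h3.comp_hasDerivAt t h2).neg
    refine h4.congr_deriv ?_
    rw [one_smul, map_neg, neg_neg]
  have hc : Continuous fun t : ℝ => fderiv ℝ g (x - t • v) v := by
    have h5 : Continuous (fderiv ℝ g) := hg.continuous_fderiv (by simp)
    have h6 : Continuous fun t : ℝ => x - t • v := by fun_prop
    exact (h5.comp h6).clm_apply continuous_const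
  rw [intervalIntegral.integral_eq_sub_of_hasDerivAt (fun t _ => h1 t)
    (hc.intervalIntegrable _ _)]
  simp
  ring

/-- the measure of the parameters -/
private noncomputable def bvm (d : ℕ) (r : ℝ) : Measure (Ed d × ℝ) :=
  ((volume : Measure (Ed d)).restrict (Metric.closedBall 0 r)).prod
    ((volume : Measure ℝ).restrict (Ioc 0 1))

private instance bvm_fin (r : ℝ) : IsFiniteMeasure (bvm d r) := by
  have h1 : IsFiniteMeasure ((volume : Measure (Ed d)).restrict (Metric.closedBall 0 r)) :=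
    ⟨by rw [Measure.restrict_apply_univ]; exact measure_closedBall_lt_top⟩
  unfold bvm
  infer_instance

/-- the field -/
private noncomputable def bvP (r : ℝ) (a g : Ed d → ℝ) (x : Ed d) : Ed d :=
  ∑ i, (∫ ω, (a ω.1 * ω.1 i) • g (x - ω.2 • ω.1) ∂(bvm d r)) • ee i

private theorem bv1_wm {a : Ed d → ℝ} (ha : Continuous a) (i : Fin d) :
    Measurable fun ω : Ed d × ℝ => a ω.1 * ω.1 i := by
  have h1 : Continuous fun ω : Ed d × ℝ => a ω.1 * ω.1 i := by fun_prop
  exact h1.measurable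

private theorem bv1_hm : Measurable fun ω : Ed d × ℝ => ω.2 • ω.1 := by
  have h1 : Continuous fun ω : Ed d × ℝ => ω.2 • ω.1 := by fun_prop
  exact h1.measurable

private theorem bv1_wM {r : ℝ} {a : Ed d → ℝ} {M : ℝ} (hM : ∀ w, |a w| ≤ M)
    (h0 : ∀ w, w ∉ Metric.closedBall (0 : Ed d) r → a w = 0) (hr : 0 ≤ r) (w : Ed d) (i : Fin d) :
    |a w * w i| ≤ M * r := by
  have hM0 : 0 ≤ M := (abs_nonneg _).trans (hM 0)
  by_cases hw : w ∈ Metric.closedBall (0 : Ed d) r
  · rw [abs_mul]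
    refine mul_le_mul (hM w) ?_ (abs_nonneg _) hM0
    rw [mem_closedBall_zero_iff] at hw
    have := PiLp.norm_apply_le w i
    rw [Real.norm_eq_abs] at this
    exact this.trans hw
  · rw [h0 w hw, zero_mul, abs_zero]
    positivity

private theorem bvP_sm {r : ℝ} (hr : 0 ≤ r) {a g : Ed d → ℝ} (ha : Continuous a) {M : ℝ}
    (hM : ∀ w, |a w| ≤ M) (h0 : ∀ w, w ∉ Metric.closedBall (0 : Ed d) r → a w = 0) (hg : Sm g)
    (hc : HasCompactSupport g) : Sm (bvP r a g) := by
  refine ContDiff.sum fun i _ => ?_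
  exact (param_smooth (bvm d r) bv1_hm (bv1_wm ha i)
    (fun ω => bv1_wM hM h0 hr ω.1 i) hg hc).smul contDiff_const

private theorem bvP_cb {r : ℝ} (hr : 0 ≤ r) {a g : Ed d → ℝ} (ha : Continuous a) {M : ℝ}
    (hM : ∀ w, |a w| ≤ M) (h0 : ∀ w, w ∉ Metric.closedBall (0 : Ed d) r → a w = 0) (hg : Sm g)
    (hc : HasCompactSupport g) {m : ℕ} {A : ℝ} (h : CB m g A) :
    CB m (bvP r a g) (∑ _i : Fin d, (M * r) * A * (bvm d r).real univ) := by
  have h1 : ∀ i : Fin d, CB m (fun x => (∫ ω, (a ω.1 * ω.1 i) • g (x - ω.2 • ω.1) ∂(bvm d r)))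
      ((M * r) * A * (bvm d r).real univ) := fun i j hj x =>
    bv1_bd (bvm d r) bv1_hm (bv1_wm ha i) (fun ω => bv1_wM hM h0 hr ω.1 i) j hg hc (h j hj) x
  have h2 : ∀ i : Fin d, Sm (fun x => (∫ ω, (a ω.1 * ω.1 i) • g (x - ω.2 • ω.1) ∂(bvm d r))) :=
    fun i => param_smooth (bvm d r) bv1_hm (bv1_wm ha i) (fun ω => bv1_wM hM h0 hr ω.1 i) hg hc
  refine CB.sum Finset.univ (fun i _ => (h2 i).smul contDiff_const) fun i _ => ?_
  have h3 := CB.smulc (ee i : Ed d) (h2 i) (h1 i)
  refine h3.mono (le_of_eq ?_)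
  rw [PiLp.norm_single, norm_one, one_mul]

private theorem bvP_zero {r : ℝ} {a g : Ed d → ℝ} {x₀ : Ed d}
    (hs : ∀ w, w ∉ Metric.closedBall x₀ r → g w = 0) {x : Ed d}
    (hx : x ∉ Metric.closedBall x₀ (2 * r)) : bvP r a g x = 0 := by
  unfold bvP
  refine Finset.sum_eq_zero fun i _ => ?_
  have hae : ∀ᵐ ω ∂(bvm d r), ω ∈ Metric.closedBall (0 : Ed d) r ×ˢ Ioc (0 : ℝ) 1 := by
    unfold bvm
    rw [Measure.prod_restrict]
    exact ae_restrict_mem (Metric.isClosed_closedBall.measurableSet.prod measurableSet_Ioc)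
  have h1 : ∫ ω, (a ω.1 * ω.1 i) • g (x - ω.2 • ω.1) ∂(bvm d r) = 0 := by
    refine integral_eq_zero_of_ae ?_
    filter_upwards [hae] with ω hω
    have hg0 : g (x - ω.2 • ω.1) = 0 := by
      refine hs _ fun hmem => hx ?_
      rw [Metric.mem_closedBall, dist_eq_norm] at hmem ⊢
      have hω1 := hω.1
      rw [mem_closedBall_zero_iff] at hω1
      have hω2 : 0 < ω.2 := hω.2.1
      have hω3 : ω.2 ≤ 1 := hω.2.2
      have h2 : ‖ω.2 • ω.1‖ ≤ r := by
        rw [norm_smul, Real.norm_eq_abs, abs_of_pos hω2]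
        have := norm_nonneg ω.1
        nlinarith
      have h3 : x - x₀ = (x - ω.2 • ω.1 - x₀) + ω.2 • ω.1 := by abel
      rw [h3]
      refine (norm_add_le _ _).trans ?_
      linarith
    rw [hg0, smul_zero]
    rfl
  rw [h1, zero_smul]

private theorem bvP_div {r : ℝ} (hr : 0 ≤ r) {a g : Ed d → ℝ} (ha : Continuous a) {M : ℝ}
    (hM : ∀ w, |a w| ≤ M) (h0 : ∀ w, w ∉ Metric.closedBall (0 : Ed d) r → a w = 0) (hg : Sm g)
    (hc : HasCompactSupport g) (x : Ed d) :
    divg (bvP r a g) x = ∫ w, a w * (g x - g (x - w)) := by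
  have hg' : Sm (fderiv ℝ g) := hg.fderiv_right (by norm_cast)
  have hwM := fun (i : Fin d) (ω : Ed d × ℝ) => bv1_wM hM h0 hr ω.1 i
  obtain ⟨B, hB⟩ := hg'.continuous.bounded_above_of_compact_support (hc.fderiv ℝ)
  have hI : ∀ i : Fin d, Integrable (fun ω => (a ω.1 * ω.1 i) • fderiv ℝ g (x - ω.2 • ω.1))
      (bvm d r) := by
    intro i
    obtain ⟨B', hB'⟩ := bv1_bdd (h := fun ω : Ed d × ℝ => ω.2 • ω.1) (hwM i) hg' (hc.fderiv ℝ)
    exact Integrable.of_bound (bv1_meas (bvm d r) bv1_hm (bv1_wm ha i) hg' x) B'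
      (Eventually.of_forall fun ω => hB' x ω)
  have h1 : HasFDerivAt (bvP r a g)
      (∑ i, (∫ ω, (a ω.1 * ω.1 i) • fderiv ℝ g (x - ω.2 • ω.1) ∂(bvm d r)).smulRight (ee i)) x := by
    refine HasFDerivAt.fun_sum fun i _ => ?_
    exact (bv1_der (bvm d r) bv1_hm (bv1_wm ha i) (hwM i) hg hc x).smul_const (ee i)
  have h2 : divg (bvP r a g) x =
      ∑ k, (∫ ω, (a ω.1 * ω.1 k) • fderiv ℝ g (x - ω.2 • ω.1) ∂(bvm d r)) (ee k) := by
    unfold divg
    rw [h1.fderiv]
    refine Finset.sum_congr rfl fun k _ => ?_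
    rw [_root_.sum_apply]
    simp only [ContinuousLinearMap.smulRight_apply]
    simp [Pi.single_apply]
  have h3 : ∀ k : Fin d, (∫ ω, (a ω.1 * ω.1 k) • fderiv ℝ g (x - ω.2 • ω.1) ∂(bvm d r)) (ee k) =
      ∫ ω, (a ω.1 * ω.1 k) * fderiv ℝ g (x - ω.2 • ω.1) (ee k) ∂(bvm d r) := by
    intro k
    rw [ContinuousLinearMap.integral_apply (hI k)]
    rfl
  have hI' : ∀ k : Fin d, Integrable (fun ω => (a ω.1 * ω.1 k) * fderiv ℝ g (x - ω.2 • ω.1) (ee k))
      (bvm d r) := fun k => (hI k).apply_continuousLinearMap (ee k)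
  have h4 : divg (bvP r a g) x =
      ∫ ω, a ω.1 * fderiv ℝ g (x - ω.2 • ω.1) ω.1 ∂(bvm d r) := by
    rw [h2, Finset.sum_congr rfl fun k _ => h3 k, ← integral_finsetSum _ fun k _ => hI' k]
    refine integral_congr_ae (Eventually.of_forall fun ω => ?_)
    simp only
    rw [bv1_fsum (fderiv ℝ g (x - ω.2 • ω.1)) ω.1, Finset.mul_sum]
    refine Finset.sum_congr rfl fun k _ => ?_
    rw [smul_eq_mul]
    ring
  have hI2 : Integrable (fun ω : Ed d × ℝ => a ω.1 * fderiv ℝ g (x - ω.2 • ω.1) ω.1) (bvm d r) := by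
    have h5 : (fun ω : Ed d × ℝ => a ω.1 * fderiv ℝ g (x - ω.2 • ω.1) ω.1) =
        fun ω => ∑ k, (a ω.1 * ω.1 k) * fderiv ℝ g (x - ω.2 • ω.1) (ee k) := by
      funext ω
      rw [bv1_fsum (fderiv ℝ g (x - ω.2 • ω.1)) ω.1, Finset.mul_sum]
      refine Finset.sum_congr rfl fun k _ => ?_
      rw [smul_eq_mul]
      ring
    rw [h5]
    exact integrable_finsetSum _ fun k _ => hI' k
  rw [h4]
  have h1 : IsFiniteMeasure ((volume : Measure (Ed d)).restrict (Metric.closedBall 0 r)) :=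
    ⟨by rw [Measure.restrict_apply_univ]; exact measure_closedBall_lt_top⟩
  unfold bvm at hI2 ⊢
  rw [integral_prod _ hI2]
  have h6 : ∀ w : Ed d, ∫ t in Ioc (0 : ℝ) 1, a w * fderiv ℝ g (x - t • w) w =
      a w * (g x - g (x - w)) := by
    intro w
    rw [integral_const_mul, ← intervalIntegral.integral_of_le zero_le_one, bv1_seg hg x w]
  simp only [h6]
  refine setIntegral_eq_integral_of_forall_compl_eq_zero fun w hw => ?_
  rw [h0 w hw, zero_mul]

/-- Translation of a bump along a segment: `div (-v ∫_0^1 η(x - t v) dt) = η(x - v) - η(x)`. (`param_smooth` for the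
smoothness.) -/
theorem div_translate {η : Ed d → ℝ} (hη : Sm η) (hc : HasCompactSupport η) (v : Ed d) :
    Sm (fun x => -(∫ t in (0:ℝ)..1, η (x - t • v)) • v) ∧
    (∀ x, divg (fun x => -(∫ t in (0:ℝ)..1, η (x - t • v)) • v) x = η (x - v) - η x) ∧
    tsupport (fun x => -(∫ t in (0:ℝ)..1, η (x - t • v)) • v) ⊆
      {x | ∃ t ∈ Icc (0 : ℝ) 1, x - t • v ∈ tsupport η} := by
  -- the field as a parameter integral
  have hI : IsFiniteMeasure ((volume : Measure ℝ).restrict (Ioc 0 1)) := inferInstance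
  have hh : Measurable fun t : ℝ => t • v := (by fun_prop : Continuous fun t : ℝ => t • v).measurable
  have hone : ∀ t : ℝ, |(fun _ : ℝ => (1 : ℝ)) t| ≤ 1 := fun _ => by simp
  have hrep : (fun x => ∫ t in (0:ℝ)..1, η (x - t • v)) =
      fun x => ∫ t in Ioc (0:ℝ) 1, (fun _ : ℝ => (1 : ℝ)) t • η (x - t • v) := by
    funext x
    rw [intervalIntegral.integral_of_le zero_le_one]
    simp
  have hsm : Sm (fun x => ∫ t in (0:ℝ)..1, η (x - t • v)) := by
    rw [hrep]
    exact param_smooth _ hh measurable_const hone hη hc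
  have hη' : Sm (fderiv ℝ η) := hη.fderiv_right (by norm_cast)
  have hder : ∀ x, HasFDerivAt (fun x => ∫ t in (0:ℝ)..1, η (x - t • v))
      (∫ t in Ioc (0:ℝ) 1, (fun _ : ℝ => (1 : ℝ)) t • fderiv ℝ η (x - t • v)) x := by
    intro x
    rw [hrep]
    exact bv1_der _ hh measurable_const hone hη hc x
  refine ⟨?_, fun x => ?_, ?_⟩
  · exact hsm.neg.smul contDiff_const
  · have h1 : HasFDerivAt (fun x => -(∫ t in (0:ℝ)..1, η (x - t • v)) • v)
        ((-(∫ t in Ioc (0:ℝ) 1, (fun _ : ℝ => (1 : ℝ)) t • fderiv ℝ η (x - t • v))).smulRight v) x :=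
      (hder x).neg.smul_const v
    unfold divg
    rw [h1.fderiv]
    have hi : Integrable (fun t : ℝ => (fun _ : ℝ => (1 : ℝ)) t • fderiv ℝ η (x - t • v))
        ((volume : Measure ℝ).restrict (Ioc 0 1)) := by
      obtain ⟨B', hB'⟩ := bv1_bdd (h := fun t : ℝ => t • v) hone hη' (hc.fderiv ℝ)
      exact Integrable.of_bound (bv1_meas _ hh measurable_const hη' x) B'
        (Eventually.of_forall fun ω => hB' x ω)
    have h2 : ∑ i, (((-(∫ t in Ioc (0:ℝ) 1, (fun _ : ℝ => (1 : ℝ)) t •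
        fderiv ℝ η (x - t • v))).smulRight v) (ee i)) i =
        -((∫ t in Ioc (0:ℝ) 1, (fun _ : ℝ => (1 : ℝ)) t • fderiv ℝ η (x - t • v)) v) := by
      rw [bv1_fsum (∫ t in Ioc (0:ℝ) 1, (fun _ : ℝ => (1 : ℝ)) t • fderiv ℝ η (x - t • v)) v,
        ← Finset.sum_neg_distrib]
      refine Finset.sum_congr rfl fun i _ => ?_
      simp only [ContinuousLinearMap.smulRight_apply, _root_.neg_apply, PiLp.smul_apply,
        smul_eq_mul]
      ring
    rw [h2, ContinuousLinearMap.integral_apply hi]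
    have h3 := bv1_seg hη x v
    rw [intervalIntegral.integral_of_le zero_le_one] at h3
    simp only [one_smul]
    rw [h3]
    ring
  · have hcl : IsClosed {x : Ed d | ∃ t ∈ Icc (0 : ℝ) 1, x - t • v ∈ tsupport η} := by
      have : {x : Ed d | ∃ t ∈ Icc (0 : ℝ) 1, x - t • v ∈ tsupport η} =
          (fun p : ℝ × Ed d => p.2 + p.1 • v) '' (Icc (0 : ℝ) 1 ×ˢ tsupport η) := by
        ext x
        constructor
        · rintro ⟨t, ht, hx⟩
          exact ⟨(t, x - t • v), ⟨ht, hx⟩, by simp⟩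
        · rintro ⟨⟨t, y⟩, ⟨ht, hy⟩, rfl⟩
          exact ⟨t, ht, by simpa using hy⟩
      rw [this]
      refine ((isCompact_Icc.prod hc).image ?_).isClosed
      fun_prop
    refine closure_minimal (fun x hx => ?_) hcl
    by_contra hn
    refine hx ?_
    have h0 : ∫ t in (0:ℝ)..1, η (x - t • v) = 0 := by
      rw [intervalIntegral.integral_of_le zero_le_one]
      refine setIntegral_eq_zero_of_forall_eq_zero fun t ht => ?_
      by_contra h
      exact hn ⟨t, ⟨ht.1.le, ht.2⟩, subset_tsupport η h⟩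
    show -(∫ t in (0:ℝ)..1, η (x - t • v)) • v = 0
    rw [h0, neg_zero, zero_smul]

/-- The ball lemma. `η` is a bump with integral `1` and support in `closedBall 0 r`. For `h` smooth with support in
`closedBall x₀ r` put
`B x = ∫ η(w) w ∫_0^1 h(x - t w) dt dw - ∫ h(y) (y - x₀) ∫_0^1 η(x - x₀ - t (y - x₀)) dt dy`. Then
`div B = h - (∫ h) η(· - x₀)`: the first term has divergence `h - η * h`, the second `-(∫ h) η(· - x₀) + η * h`. Smoothness:
`param_smooth` (component by component); the bounds by differentiation under the integral sign. -/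
theorem div_ball (x₀ : Ed d) {r : ℝ} (hr : 0 < r) {η : Ed d → ℝ} (hη : Sm η)
    (hs : tsupport η ⊆ Metric.closedBall 0 r) (h1 : ∫ x, η x = 1) : ∃ C : ℕ → ℝ, (∀ m, 0 ≤ C m) ∧
    ∀ h : Ed d → ℝ, Sm h → tsupport h ⊆ Metric.closedBall x₀ r → ∃ B : Ed d → Ed d, Sm B ∧
      tsupport B ⊆ Metric.closedBall x₀ (2 * r) ∧ (∀ x, divg B x = h x - (∫ y, h y) * η (x - x₀)) ∧
      ∀ m A, CB m h A → CB m B (C m * A) := by
  have hcη : HasCompactSupport η :=
    (isCompact_closedBall (0 : Ed d) r).of_isClosed_subset (isClosed_tsupport _) hs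
  have hη0 : ∀ w, w ∉ Metric.closedBall (0 : Ed d) r → η w = 0 := fun w hw =>
    image_eq_zero_of_notMem_tsupport fun h => hw (hs h)
  obtain ⟨M, hM⟩ := hη.continuous.bounded_above_of_compact_support hcη
  have hM' : ∀ w, |η w| ≤ M := fun w => by rw [← Real.norm_eq_abs]; exact hM w
  have hM0 : 0 ≤ M := (abs_nonneg _).trans (hM' 0)
  -- the translate of `η`
  have hτ : Sm (fun x => η (x - x₀)) := hη.comp (contDiff_id.sub contDiff_const)
  have hτ0 : ∀ w, w ∉ Metric.closedBall x₀ r → η (w - x₀) = 0 := fun w hw =>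
    hη0 _ fun h => hw (by
      rw [mem_closedBall_zero_iff] at h
      rwa [Metric.mem_closedBall, dist_eq_norm])
  have hcτ : HasCompactSupport (fun x => η (x - x₀)) :=
    HasCompactSupport.intro (isCompact_closedBall x₀ r) hτ0
  have hA := fun m => CB.of_cpt hτ hcτ m
  choose Aη hAη using hA
  have hAη0 : ∀ m, 0 ≤ Aη m := fun m => (hAη m).nonneg
  set V : ℝ := (bvm d r).real univ with hV
  have hV0 : 0 ≤ V := measureReal_nonneg
  refine ⟨fun m => (∑ _i : Fin d, (M * r) * V) + ∑ _i : Fin d, r * Aη m * V, fun m => ?_,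
    fun h hh hsh => ?_⟩
  · have := hAη0 m
    have h1 : 0 ≤ (M * r) * V := by positivity
    have h2 : 0 ≤ r * Aη m * V := by positivity
    exact add_nonneg (Finset.sum_nonneg fun _ _ => h1) (Finset.sum_nonneg fun _ _ => h2)
  have hch : HasCompactSupport h :=
    (isCompact_closedBall x₀ r).of_isClosed_subset (isClosed_tsupport _) hsh
  have hh0 : ∀ w, w ∉ Metric.closedBall x₀ r → h w = 0 := fun w hw =>
    image_eq_zero_of_notMem_tsupport fun h' => hw (hsh h')
  have ha : Continuous fun w => h (x₀ + w) := hh.continuous.comp (continuous_const.add continuous_id)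
  have ha0 : ∀ w, w ∉ Metric.closedBall (0 : Ed d) r → h (x₀ + w) = 0 := fun w hw =>
    hh0 _ fun h' => hw (by
      rw [Metric.mem_closedBall, dist_eq_norm, add_sub_cancel_left] at h'
      rwa [mem_closedBall_zero_iff])
  obtain ⟨Mh, hMh⟩ := hh.continuous.bounded_above_of_compact_support hch
  have hMh' : ∀ w, |h (x₀ + w)| ≤ Mh := fun w => by rw [← Real.norm_eq_abs]; exact hMh _
  have hP1 : Sm (bvP r η h) := bvP_sm hr.le hη.continuous hM' hη0 hh hch
  have hP2 : Sm (bvP r (fun w => h (x₀ + w)) (fun x => η (x - x₀))) :=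
    bvP_sm hr.le ha hMh' ha0 hτ hcτ
  refine ⟨fun x => bvP r η h x - bvP r (fun w => h (x₀ + w)) (fun x => η (x - x₀)) x,
    hP1.sub hP2, ?_, fun x => ?_, fun m A hmA => ?_⟩
  · refine closure_minimal (fun x hx => ?_) Metric.isClosed_closedBall
    by_contra hn
    refine hx ?_
    show bvP r η h x - bvP r (fun w => h (x₀ + w)) (fun x => η (x - x₀)) x = 0
    rw [bvP_zero hh0 hn, bvP_zero hτ0 hn, sub_zero]
  · have e1 : divg (fun x => bvP r η h x - bvP r (fun w => h (x₀ + w)) (fun x => η (x - x₀)) x) x =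
        divg (bvP r η h) x - divg (bvP r (fun w => h (x₀ + w)) (fun x => η (x - x₀))) x := by
      unfold divg
      rw [← Finset.sum_sub_distrib]
      refine Finset.sum_congr rfl fun i _ => ?_
      rw [fderiv_fun_sub ((hP1.differentiable (by simp)) x) ((hP2.differentiable (by simp)) x)]
      rfl
    rw [e1, bvP_div hr.le hη.continuous hM' hη0 hh hch, bvP_div hr.le ha hMh' ha0 hτ hcτ]
    -- the integrals
    have i1 : Integrable fun w => η w * h x := (hη.continuous.integrable_of_hasCompactSupport hcη).mul_const _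
    have i2 : Integrable fun w => η w * h (x - w) := by
      have hc' : Continuous fun w => η w * h (x - w) :=
        hη.continuous.mul (hh.continuous.comp (continuous_const.sub continuous_id))
      exact hc'.integrable_of_hasCompactSupport (hcη.mul_right)
    have i3 : Integrable fun w => h (x₀ + w) * η (x - x₀) := by
      have hc' : Continuous fun w => h (x₀ + w) * η (x - x₀) := ha.mul continuous_const
      refine hc'.integrable_of_hasCompactSupport ?_
      exact (HasCompactSupport.intro (isCompact_closedBall (0 : Ed d) r) ha0).mul_right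
    have i4 : Integrable fun w => h (x₀ + w) * η (x - w - x₀) := by
      have hc' : Continuous fun w => h (x₀ + w) * η (x - w - x₀) :=
        ha.mul (hη.continuous.comp (by fun_prop))
      refine hc'.integrable_of_hasCompactSupport ?_
      exact (HasCompactSupport.intro (isCompact_closedBall (0 : Ed d) r) ha0).mul_right
    simp only [mul_sub]
    rw [integral_sub i1 i2, integral_sub i3 i4, integral_mul_const, integral_mul_const, h1, one_mul]
    have e2 : ∫ w, h (x₀ + w) = ∫ y, h y := integral_add_left_eq_self (fun y => h y) x₀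
    have e3 : ∫ w, h (x₀ + w) * η (x - w - x₀) = ∫ w, η w * h (x - w) := by
      rw [← integral_sub_left_eq_self (fun w => η w * h (x - w)) volume (x - x₀)]
      refine integral_congr_ae (Eventually.of_forall fun w => ?_)
      simp only
      rw [mul_comm]
      congr 2 <;> abel
    rw [e2, e3]
    ring
  · have c1 := bvP_cb (r := r) hr.le hη.continuous hM' hη0 hh hch hmA
    have hmh : ∀ w, |h (x₀ + w)| ≤ A := fun w => by
      rw [← Real.norm_eq_abs]
      exact hmA.zero_bd _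
    have c2 := bvP_cb (r := r) hr.le ha hmh ha0 hτ hcτ (hAη m)
    refine (CB.sub hP1 hP2 c1 c2).mono (le_of_eq ?_)
    rw [add_mul, Finset.sum_mul, Finset.sum_mul]
    congr 1
    · exact Finset.sum_congr rfl fun _ _ => by ring
    · exact Finset.sum_congr rfl fun _ _ => by ring

section divgl

theorem bv_divg_add {u v : Ed d → Ed d} (hu : Sm u) (hv : Sm v) (x : Ed d) :
    divg (fun x => u x + v x) x = divg u x + divg v x := by
  unfold divg
  rw [← Finset.sum_add_distrib]
  refine Finset.sum_congr rfl fun i _ => ?_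
  rw [fderiv_fun_add ((hu.differentiable (by simp)) x) ((hv.differentiable (by simp)) x)]
  rfl

theorem bv_divg_smul {u : Ed d → Ed d} (c : ℝ) (hu : Sm u) (x : Ed d) :
    divg (fun x => c • u x) x = c * divg u x := by
  unfold divg
  rw [Finset.mul_sum]
  refine Finset.sum_congr rfl fun i _ => ?_
  rw [fderiv_fun_const_smul ((hu.differentiable (by simp)) x)]
  rfl

theorem bv_divg_sum {ι : Type} (s : Finset ι) {u : ι → Ed d → Ed d} (hu : ∀ i ∈ s, Sm (u i)) (x : Ed d) :
    divg (fun x => ∑ i ∈ s, u i x) x = ∑ i ∈ s, divg (u i) x := by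
  unfold divg
  rw [Finset.sum_comm]
  refine Finset.sum_congr rfl fun i _ => ?_
  rw [fderiv_fun_sum fun j hj => ((hu j hj).differentiable (by simp)) x]
  rw [_root_.sum_apply]
  simp

/-- A unit bump. -/
theorem bv_bump (x₀ : Ed d) {r : ℝ} (hr : 0 < r) : ∃ κ : Ed d → ℝ, Sm κ ∧
    tsupport κ ⊆ Metric.closedBall x₀ r ∧ ∫ x, κ x = 1 := by
  let f : ContDiffBump x₀ := ⟨r / 2, r, by positivity, by linarith⟩
  refine ⟨f.normed volume, f.contDiff_normed, ?_, f.integral_normed⟩
  rw [f.tsupport_normed_eq]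

end divgl

end Pool.Agent.Lib.MP_79abb3_an.W.B
end

section

/-!
Theorem W, block B: bumps in a connected open set.
-/

set_option autoImplicit false
set_option linter.unusedSectionVars false

open MeasureTheory Set Filter Topology Function
open scoped RealInnerProductSpace ENNReal NNReal

namespace Pool.Agent.Lib.MP_79abb3_an.W.B

variable {d : ℕ} {D : Set (Ed d)}

/-- `η - θ` is the divergence of a smooth field with compact support in `D`. -/
def Coh (D : Set (Ed d)) (η θ : Ed d → ℝ) : Prop :=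
  ∃ B : Ed d → Ed d, IsTe D B ∧ ∀ x, divg B x = η x - θ x

theorem Coh.trans {η θ ξ : Ed d → ℝ} (h : Coh D η θ) (h' : Coh D θ ξ) : Coh D η ξ := by
  obtain ⟨B, hB, hdB⟩ := h
  obtain ⟨B', hB', hdB'⟩ := h'
  refine ⟨fun x => B x + B' x, ⟨hB.sm.add hB'.sm, hB.cpt.add hB'.cpt,
    (tsupport_add B B').trans (union_subset hB.supp hB'.supp)⟩, fun x => ?_⟩
  rw [bv_divg_add hB.sm hB'.sm, hdB, hdB']
  ring

theorem Coh.symm {η θ : Ed d → ℝ} (h : Coh D η θ) : Coh D θ η := by
  obtain ⟨B, hB, hdB⟩ := h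
  refine ⟨fun x => (-1 : ℝ) • B x, ⟨hB.sm.const_smul (-1 : ℝ), ?_, ?_⟩, fun x => ?_⟩
  · exact hB.cpt.smul_left (f := fun _ => (-1 : ℝ))
  · exact (tsupport_smul_subset_right (fun _ => (-1 : ℝ)) B).trans hB.supp
  · rw [bv_divg_smul _ hB.sm, hdB]
    ring

/-- Two unit bumps in a small ball (`div_ball` for the difference, a smaller closed ball contains the supports). -/
theorem coh_ball {x₀ : Ed d} {r : ℝ} (hr : 0 < r) (hD : Metric.closedBall x₀ (2 * r) ⊆ D) {η θ : Ed d → ℝ}
    (hη : IsTe (Metric.ball x₀ r) η) (hθ : IsTe (Metric.ball x₀ r) θ) (h1 : ∫ x, η x = 1) (h2 : ∫ x, θ x = 1) :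
    Coh D η θ := by
  obtain ⟨κ, hκ, hκs, hκ1⟩ := bv_bump (0 : Ed d) hr
  obtain ⟨C, -, hC⟩ := div_ball x₀ hr hκ hκs hκ1
  have hsm : Sm fun x => η x - θ x := hη.sm.sub hθ.sm
  have hs : tsupport (fun x => η x - θ x) ⊆ Metric.closedBall x₀ r := by
    refine closure_minimal (fun x hx => ?_) Metric.isClosed_closedBall
    by_contra hn
    refine hx ?_
    have h3 : η x = 0 := image_eq_zero_of_notMem_tsupport fun h =>
      hn (Metric.ball_subset_closedBall (hη.supp h))
    have h4 : θ x = 0 := image_eq_zero_of_notMem_tsupport fun h =>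
      hn (Metric.ball_subset_closedBall (hθ.supp h))
    show η x - θ x = 0
    rw [h3, h4, sub_zero]
  obtain ⟨B, hB, hBs, hBd, -⟩ := hC _ hsm hs
  refine ⟨B, ⟨hB, ?_, hBs.trans hD⟩, fun x => ?_⟩
  · exact (isCompact_closedBall x₀ (2 * r)).of_isClosed_subset (isClosed_tsupport _) hBs
  · rw [hBd x, integral_sub (hη.sm.continuous.integrable_of_hasCompactSupport hη.cpt)
      (hθ.sm.continuous.integrable_of_hasCompactSupport hθ.cpt), h1, h2, sub_self, zero_mul, sub_zero]

/-- Connectedness: fix a unit bump `θ` in a small ball. The set of the points `x ∈ D` which have a ball `ball x r` such that all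
unit bumps in it are cohomologous to `θ` is open, relatively closed (`coh_ball` and a bump in the intersection of two
balls), nonempty: it is `D`. -/
theorem coh_all (hD : IsOpen D) (hc : IsPreconnected D) {x₀ : Ed d} {r : ℝ} (hr : 0 < r)
    (hx : Metric.closedBall x₀ (2 * r) ⊆ D) {θ : Ed d → ℝ} (hθ : IsTe (Metric.ball x₀ r) θ)
    (h1 : ∫ x, θ x = 1) {x : Ed d} (hxD : x ∈ D) : ∃ s : ℝ, 0 < s ∧ Metric.closedBall x (2 * s) ⊆ D ∧
    ∀ η : Ed d → ℝ, IsTe (Metric.ball x s) η → ∫ y, η y = 1 → Coh D η θ := by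
  set S : Set (Ed d) := {x | ∃ s : ℝ, 0 < s ∧ Metric.closedBall x (2 * s) ⊆ D ∧
    ∀ η : Ed d → ℝ, IsTe (Metric.ball x s) η → ∫ y, η y = 1 → Coh D η θ} with hS
  have mono : ∀ {U V : Set (Ed d)} {η : Ed d → ℝ}, IsTe U η → U ⊆ V → IsTe V η :=
    fun h hUV => ⟨h.sm, h.cpt, h.supp.trans hUV⟩
  have hx₀S : x₀ ∈ S := ⟨r, hr, hx, fun η hη h => coh_ball hr hx hη hθ h h1⟩
  have hSo : IsOpen S := by
    rw [Metric.isOpen_iff]
    rintro y ⟨s, hs, hsD, hs1⟩
    refine ⟨s / 2, by positivity, fun z hz => ⟨s / 2, by positivity, ?_, fun η hη h => ?_⟩⟩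
    · rw [Metric.mem_ball] at hz
      exact (Metric.closedBall_subset_closedBall' (by linarith)).trans hsD
    · rw [Metric.mem_ball] at hz
      exact hs1 η (mono hη (Metric.ball_subset_ball' (by linarith))) h
  have hcl : closure S ∩ D ⊆ S := by
    rintro y ⟨hy, hyD⟩
    obtain ⟨ε, hε, hεD⟩ := Metric.isOpen_iff.1 hD y hyD
    have hs : 0 < ε / 4 := by positivity
    have hsD : Metric.closedBall y (2 * (ε / 4)) ⊆ D := by
      refine (Metric.closedBall_subset_ball ?_).trans hεD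
      linarith
    obtain ⟨z, ⟨s', hs', hs'D, hs'1⟩, hz⟩ := Metric.mem_closure_iff.1 hy (ε / 4) hs
    refine ⟨ε / 4, hs, hsD, fun η hη h => ?_⟩
    -- a bump in the intersection
    set ρ : ℝ := min (s' / 2) ((ε / 4 - dist y z) / 2) with hρ
    have hρ0 : 0 < ρ := lt_min (by positivity) (by linarith)
    have hρ1 : ρ ≤ s' / 2 := min_le_left _ _
    have hρ2 : ρ ≤ (ε / 4 - dist y z) / 2 := min_le_right _ _
    obtain ⟨ξ, hξ, hξs, hξ1⟩ := bv_bump z hρ0
    have hξc : HasCompactSupport ξ :=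
      (isCompact_closedBall z ρ).of_isClosed_subset (isClosed_tsupport _) hξs
    have k1 : IsTe (Metric.ball z s') ξ :=
      ⟨hξ, hξc, hξs.trans (Metric.closedBall_subset_ball (by linarith))⟩
    have k2 : IsTe (Metric.ball y (ε / 4)) ξ := by
      refine ⟨hξ, hξc, hξs.trans fun w hw => ?_⟩
      rw [Metric.mem_closedBall] at hw
      rw [Metric.mem_ball]
      have := dist_triangle w z y
      rw [dist_comm z y] at this
      linarith
    exact (coh_ball hs hsD hη k2 h hξ1).trans (hs'1 ξ k1 hξ1)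
  have hsub : D ⊆ S := by
    refine hc.subset_of_closure_inter_subset hSo ⟨x₀, ?_, hx₀S⟩ hcl
    exact hx (Metric.mem_closedBall_self (by positivity))
  exact hsub hxD

end Pool.Agent.Lib.MP_79abb3_an.W.B
end

section

/-!
Theorem W, block B: the divergence equation.
-/

set_option autoImplicit false
set_option linter.unusedSectionVars false

open MeasureTheory Set Filter Topology Function
open scoped RealInnerProductSpace ENNReal NNReal

namespace Pool.Agent.Lib.MP_79abb3_an.W.B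

variable {d : ℕ} {D : Set (Ed d)}

/-- **The divergence equation** with bounds, first for a unit bump `θ` in a small ball. Cover the compact `K` by finitely many
balls `ball x_i (s_i / 2)` (`coh_all`), take a smooth partition of unity `∑ ζ_i = 1` on `K` with
`tsupport ζ_i ⊆ ball x_i (s_i / 2)` (for instance by `SmoothPartitionOfUnity` or `exists_contDiff...`), `div_ball` for
`ζ_i h` with a fixed bump `η_i`, and `η_i(· - x_i) - θ = div B_i` (`coh_all`). -/
theorem exists_div_aux (hD : IsOpen D) (hc : IsPreconnected D) {x₀ : Ed d} {r : ℝ} (hr : 0 < r)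
    (hx : Metric.closedBall x₀ (2 * r) ⊆ D) {θ : Ed d → ℝ} (hθ : IsTe (Metric.ball x₀ r) θ)
    (h1 : ∫ x, θ x = 1) {K : Set (Ed d)} (hK : IsCompact K) (hKD : K ⊆ D) : ∃ (K' : Set (Ed d)) (C : ℕ → ℝ),
    IsCompact K' ∧ K' ⊆ D ∧ ∀ h : Ed d → ℝ, Sm h → tsupport h ⊆ K → ∃ B : Ed d → Ed d, Sm B ∧ tsupport B ⊆ K' ∧
      (∀ x, divg B x = h x - (∫ y, h y) * θ x) ∧ ∀ m A, CB m h A → CB m B (C m * A) := by
  classical
  have hall : ∀ x ∈ K, ∃ s : ℝ, 0 < s ∧ Metric.closedBall x (2 * s) ⊆ D ∧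
      ∀ η : Ed d → ℝ, IsTe (Metric.ball x s) η → ∫ y, η y = 1 → Coh D η θ := fun x hxK =>
    coh_all hD hc hr hx hθ h1 (hKD hxK)
  choose! s hs0 hsD hsC using hall
  obtain ⟨t, htK, htc⟩ := hK.elim_nhds_subcover (fun x => Metric.ball x (s x / 2))
    (fun x hxK => Metric.ball_mem_nhds x (by have := hs0 x hxK; positivity))
  have hcov : K ⊆ ⋃ i : t, Metric.ball (i : Ed d) (s i / 2) := by
    intro x hxK
    obtain ⟨i, hi, hxi⟩ := mem_iUnion₂.1 (htc hxK)
    exact mem_iUnion.2 ⟨⟨i, hi⟩, hxi⟩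
  obtain ⟨f, hf⟩ := SmoothPartitionOfUnity.exists_isSubordinate (I := modelWithCornersSelf ℝ (Ed d))
    hK.isClosed (fun i : t => Metric.ball (i : Ed d) (s i / 2)) (fun i => Metric.isOpen_ball) hcov
  have hfs : ∀ i : t, Sm (f i : Ed d → ℝ) := fun i => (f i).contMDiff.contDiff
  have hft : ∀ i : t, tsupport (f i : Ed d → ℝ) ⊆ Metric.ball (i : Ed d) (s i / 2) := fun i => hf i
  have hfc : ∀ i : t, HasCompactSupport (f i : Ed d → ℝ) := fun i =>
    (isCompact_closedBall (i : Ed d) (s i / 2)).of_isClosed_subset (isClosed_tsupport _)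
      ((hft i).trans Metric.ball_subset_closedBall)
  have hf1 : ∀ x ∈ K, ∑ i : t, f i x = 1 := by
    intro x hxK
    have := f.sum_eq_one hxK
    rwa [finsum_eq_sum_of_fintype] at this
  have hsi : ∀ i : t, 0 < s i := fun i => hs0 i (htK i i.2)
  have hsi2 : ∀ i : t, 0 < s i / 2 := fun i => by have := hsi i; positivity
  -- the bumps
  have hκ := fun i : t => bv_bump (0 : Ed d) (hsi2 i)
  choose κ hκs hκt hκ1 using hκ
  have hball := fun i : t => div_ball (i : Ed d) (hsi2 i) (hκs i) (hκt i) (hκ1 i)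
  choose C hC0 hC using hball
  have hτ : ∀ i : t, IsTe (Metric.ball (i : Ed d) (s i)) (fun x => κ i (x - i)) := by
    intro i
    have hsub : tsupport (fun x => κ i (x - i)) ⊆ Metric.closedBall (i : Ed d) (s i / 2) := by
      refine closure_minimal (fun x hx => ?_) Metric.isClosed_closedBall
      have h2 := hκt i (subset_tsupport _ hx)
      rw [mem_closedBall_zero_iff] at h2
      rwa [Metric.mem_closedBall, dist_eq_norm]
    refine ⟨(hκs i).comp (contDiff_id.sub contDiff_const), ?_, hsub.trans ?_⟩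
    · exact (isCompact_closedBall (i : Ed d) (s i / 2)).of_isClosed_subset (isClosed_tsupport _) hsub
    · exact Metric.closedBall_subset_ball (by have := hsi i; linarith)
  have hτ1 : ∀ i : t, ∫ x, κ i (x - i) = 1 := fun i => by
    rw [integral_sub_right_eq_self (fun x => κ i x) (i : Ed d)]
    exact hκ1 i
  have hE := fun i : t => hsC i (htK i i.2) _ (hτ i) (hτ1 i)
  choose E hET hEd using hE
  have hAζ := fun (m : ℕ) (i : t) => CB.of_cpt (hfs i) (hfc i) m
  choose Aζ hAζ using hAζ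
  have hAE := fun (m : ℕ) (i : t) => CB.of_cpt (hET i).sm (hET i).cpt m
  choose AE hAE using hAE
  set V : ℝ := (volume : Measure (Ed d)).real K with hV
  set K' : Set (Ed d) := ⋃ i : t, (Metric.closedBall (i : Ed d) (s i) ∪ tsupport (E i)) with hK'
  have hK'c : IsCompact K' := isCompact_iUnion fun i =>
    (isCompact_closedBall (i : Ed d) (s i)).union (hET i).cpt
  refine ⟨K', fun m => ∑ i : t, (C i m * (2 ^ m * Aζ m i) + Aζ m i * V * AE m i), hK'c, ?_,
    fun h hh hhK => ?_⟩
  · refine iUnion_subset fun i => union_subset ?_ (hET i).supp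
    refine (Metric.closedBall_subset_closedBall ?_).trans (hsD i (htK i i.2))
    have := hsi i
    linarith
  have hh0 : ∀ x, x ∉ K → h x = 0 := fun x hx =>
    image_eq_zero_of_notMem_tsupport fun h' => hx (hhK h')
  have hhc : HasCompactSupport h := hK.of_isClosed_subset (isClosed_tsupport _) hhK
  have hfh : ∀ i : t, Sm fun x => f i x * h x := fun i => (hfs i).mul hh
  have hfht : ∀ i : t, tsupport (fun x => f i x * h x) ⊆ Metric.closedBall (i : Ed d) (s i / 2) :=
    fun i => (tsupport_mul_subset_left).trans ((hft i).trans Metric.ball_subset_closedBall)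
  have hB := fun i : t => hC i _ (hfh i) (hfht i)
  choose B hBs hBt hBd hBc using hB
  have hsum : ∀ x, ∑ i : t, f i x * h x = h x := by
    intro x
    by_cases hxK : x ∈ K
    · rw [← Finset.sum_mul, hf1 x hxK, one_mul]
    · rw [hh0 x hxK]
      simp
  have hint : ∑ i : t, ∫ y, f i y * h y = ∫ y, h y := by
    rw [← integral_finsetSum]
    · exact integral_congr_ae (Eventually.of_forall hsum)
    · intro i _
      exact ((hfs i).continuous.mul hh.continuous).integrable_of_hasCompactSupport (hfc i).mul_right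
  have hterm : ∀ i : t, Sm fun x => B i x + (∫ y, f i y * h y) • E i x := fun i =>
    (hBs i).add ((hET i).sm.const_smul _)
  refine ⟨fun x => ∑ i : t, (B i x + (∫ y, f i y * h y) • E i x),
    ContDiff.sum fun i _ => hterm i, ?_, fun x => ?_, fun m A hmA => ?_⟩
  · refine closure_minimal (fun x hx => ?_) hK'c.isClosed
    by_contra hn
    refine hx ?_
    show ∑ i : t, (B i x + (∫ y, f i y * h y) • E i x) = 0
    refine Finset.sum_eq_zero fun i _ => ?_
    have h2 : x ∉ Metric.closedBall (i : Ed d) (s i) := fun h' =>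
      hn (mem_iUnion.2 ⟨i, Or.inl h'⟩)
    have h3 : x ∉ tsupport (E i) := fun h' => hn (mem_iUnion.2 ⟨i, Or.inr h'⟩)
    have h4 : B i x = 0 := image_eq_zero_of_notMem_tsupport fun h' => h2 (by
      have := hBt i h'
      rwa [mul_div_cancel₀ _ (two_ne_zero)] at this)
    rw [h4, image_eq_zero_of_notMem_tsupport h3, smul_zero, add_zero]
  · rw [bv_divg_sum Finset.univ (fun i _ => hterm i) x]
    have h2 : ∀ i : t, divg (fun x => B i x + (∫ y, f i y * h y) • E i x) x =
        f i x * h x - (∫ y, f i y * h y) * θ x := by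
      intro i
      have h3 : Sm fun x => (∫ y, f i y * h y) • E i x := (hET i).sm.const_smul _
      rw [bv_divg_add (hBs i) h3, bv_divg_smul _ (hET i).sm, hBd, hEd]
      ring
    rw [Finset.sum_congr rfl fun i _ => h2 i, Finset.sum_sub_distrib, hsum, ← Finset.sum_mul, hint]
  · have h2 : ∀ i : t, CB m (fun x => B i x + (∫ y, f i y * h y) • E i x)
        (C i m * (2 ^ m * Aζ m i * A) + |∫ y, f i y * h y| * AE m i) := by
      intro i
      have h3 : Sm fun x => (∫ y, f i y * h y) • E i x := (hET i).sm.const_smul _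
      exact CB.add (hBs i) h3 (hBc i m _ (CB.mul (hfs i) hh (hAζ m i) hmA))
        (CB.csmul _ (hET i).sm (hAE m i))
    refine (CB.sum Finset.univ (fun i _ => hterm i) fun i _ => h2 i).mono ?_
    rw [Finset.sum_mul]
    refine Finset.sum_le_sum fun i _ => ?_
    have h4 : |∫ y, f i y * h y| ≤ Aζ m i * A * V := by
      have h5 : ∫ y, f i y * h y = ∫ y in K, f i y * h y := by
        symm
        refine setIntegral_eq_integral_of_forall_compl_eq_zero fun y hy => ?_
        rw [hh0 y hy, mul_zero]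
      rw [h5, ← Real.norm_eq_abs]
      refine norm_setIntegral_le_of_norm_le_const hK.measure_lt_top fun y _ => ?_
      rw [norm_mul]
      exact mul_le_mul ((hAζ m i).zero_bd y) (hmA.zero_bd y) (norm_nonneg _) (hAζ m i).nonneg
    have h6 : |∫ y, f i y * h y| * AE m i ≤ Aζ m i * A * V * AE m i :=
      mul_le_mul_of_nonneg_right h4 (hAE m i).nonneg
    calc _ ≤ C i m * (2 ^ m * Aζ m i * A) + Aζ m i * A * V * AE m i := by linarith
      _ = _ := by ring

/-- The same for an arbitrary `θ ∈ C_c^∞(D)` with integral `1` (apply `exists_div_aux` to `h` and to `θ`, with a bump in a small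
ball, and take the difference). -/
theorem exists_div (hD : IsOpen D) (hc : IsConnected D) {θ : Ed d → ℝ} (hθ : IsTe D θ)
    (h1 : ∫ x, θ x = 1) {K : Set (Ed d)} (hK : IsCompact K) (hKD : K ⊆ D) : ∃ (K' : Set (Ed d)) (C : ℕ → ℝ),
    IsCompact K' ∧ K' ⊆ D ∧ ∀ h : Ed d → ℝ, Sm h → tsupport h ⊆ K → ∃ B : Ed d → Ed d, Sm B ∧ tsupport B ⊆ K' ∧
      (∀ x, divg B x = h x - (∫ y, h y) * θ x) ∧ ∀ m A, CB m h A → CB m B (C m * A) := by
  obtain ⟨x₀, hx₀⟩ := hc.nonempty
  obtain ⟨ε, hε, hεD⟩ := Metric.isOpen_iff.1 hD x₀ hx₀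
  have hr : 0 < ε / 4 := by positivity
  have hx : Metric.closedBall x₀ (2 * (ε / 4)) ⊆ D := by
    refine (Metric.closedBall_subset_ball ?_).trans hεD
    linarith
  have hr8 : 0 < ε / 8 := by positivity
  obtain ⟨κ, hκ, hκt, hκ1⟩ := bv_bump x₀ hr8
  have hκc : HasCompactSupport κ :=
    (isCompact_closedBall x₀ (ε / 8)).of_isClosed_subset (isClosed_tsupport _) hκt
  have hκT : IsTe (Metric.ball x₀ (ε / 4)) κ :=
    ⟨hκ, hκc, hκt.trans (Metric.closedBall_subset_ball (by linarith))⟩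
  have hK1 : IsCompact (K ∪ tsupport θ) := hK.union hθ.cpt
  have hK1D : K ∪ tsupport θ ⊆ D := union_subset hKD hθ.supp
  obtain ⟨K', C, hK', hK'D, hC⟩ := exists_div_aux hD hc.isPreconnected hr hx hκT hκ1 hK1 hK1D
  obtain ⟨Bθ, hBθ, hBθt, hBθd, hBθc⟩ := hC θ hθ.sm subset_union_right
  have hAθ := fun m => CB.of_cpt hθ.sm hθ.cpt m
  choose Aθ hAθ using hAθ
  set V : ℝ := (volume : Measure (Ed d)).real K with hV
  refine ⟨K', fun m => C m + V * (C m * Aθ m), hK', hK'D, fun h hh hhK => ?_⟩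
  obtain ⟨B, hB, hBt, hBd, hBc⟩ := hC h hh (hhK.trans subset_union_left)
  have hsm2 : Sm fun x => (-(∫ y, h y)) • Bθ x := hBθ.const_smul _
  refine ⟨fun x => B x + (-(∫ y, h y)) • Bθ x, hB.add hsm2, ?_, fun x => ?_, fun m A hmA => ?_⟩
  · refine closure_minimal (fun x hx => ?_) hK'.isClosed
    by_contra hn
    refine hx ?_
    show B x + (-(∫ y, h y)) • Bθ x = 0
    rw [image_eq_zero_of_notMem_tsupport fun h' => hn (hBt h'),
      image_eq_zero_of_notMem_tsupport fun h' => hn (hBθt h'), smul_zero, add_zero]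
  · rw [bv_divg_add hB hsm2, bv_divg_smul _ hBθ, hBd, hBθd, h1]
    ring
  · have h2 := CB.add hB hsm2 (hBc m A hmA) (CB.csmul (-(∫ y, h y)) hBθ (hBθc m _ (hAθ m)))
    refine h2.mono ?_
    have h4 : |-(∫ y, h y)| ≤ A * V := by
      have h5 : ∫ y, h y = ∫ y in K, h y := by
        symm
        refine setIntegral_eq_integral_of_forall_compl_eq_zero fun y hy => ?_
        exact image_eq_zero_of_notMem_tsupport fun h' => hy (hhK h')
      rw [abs_neg, h5, ← Real.norm_eq_abs]
      exact norm_setIntegral_le_of_norm_le_const hK.measure_lt_top fun y _ => hmA.zero_bd y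
    have h6 : |-(∫ y, h y)| * (C m * Aθ m) ≤ A * V * (C m * Aθ m) :=
      mul_le_mul_of_nonneg_right h4 (hBθc m _ (hAθ m)).nonneg
    calc _ ≤ C m * A + A * V * (C m * Aθ m) := by linarith
      _ = _ := by ring

end Pool.Agent.Lib.MP_79abb3_an.W.B
end
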