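import Pool.Agent.Lib.MP_79abb3_an.W.Def
import Pool.Agent.Lib.MP_79abb3_an.W.BDef

/-!
Theorem W, block B: the domain in the notation of block B.
-/

set_option autoImplicit false
set_option linter.unusedSectionVars false

open MeasureTheory Set Filter Topology Function
open scoped RealInnerProductSpace ENNReal NNReal

namespace Pool.Agent.Lib.MP_79abb3_an.W

variable {d : ℕ} {D : Set (Ed d)} {z : Ed d → ℝ} {δ : ℝ}

theorem Dom.toB (h : Dom D z δ) : B.Dom D z δ where
  sm := h.smo
  eq := by ext x; exact h.pos x
  bdd := h.bdd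
  conn := h.conn
  pos := h.δ0
  one := h.unit

end Pool.Agent.Lib.MP_79abb3_an.W
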