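import Pool.Agent.Lib.MP_79abb3_an.W.SpA

/-!
Theorem W, block D, part H1: the collar of a smooth domain, the divergence theorem for fields `g(z) ∇z`.
-/

set_option autoImplicit false
set_option linter.unusedSectionVars false

open MeasureTheory Set Filter Topology Function
open scoped ENNReal RealInnerProductSpace

namespace Pool.Agent.Lib.MP_79abb3_an.W

section
variable {d : ℕ} {F : Type} [NormedAddCommGroup F] [InnerProductSpace ℝ F]

/-- A smooth bounded open set `D = {z > 0}`, where `z` is the distance to the walls `{z = 0}` near the walls. -/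
structure Col (D : Set (En d)) (z : En d → ℝ) (δ : ℝ) : Prop where
  smo : Smo z
  pos : ∀ x, x ∈ D ↔ 0 < z x
  bdd : Bornology.IsBounded D
  δ0 : 0 < δ
  unit : ∀ x, |z x| < 4 * δ → ‖gd z x‖ = 1

variable {D : Set (En d)} {z : En d → ℝ} {δ : ℝ}

theorem Col.isOpen (h : Col D z δ) : IsOpen D := by
  have h1 : D = {x | 0 < z x} := by ext x; exact h.pos x
  rw [h1]
  exact isOpen_lt continuous_const h.smo.continuous

theorem Col.meas (h : Col D z δ) : MeasurableSet D := h.isOpen.measurableSet

theorem Col.compact (h : Col D z δ) : IsCompact (closure D) := h.bdd.isCompact_closure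

theorem Col.vol (h : Col D z δ) : volume D < ∞ := h.bdd.measure_lt_top

theorem Col.closure_nonneg (h : Col D z δ) {x : En d} (hx : x ∈ closure D) : 0 ≤ z x := by
  have h1 : closure D ⊆ {x | 0 ≤ z x} :=
    closure_minimal (fun y hy => ((h.pos y).1 hy).le) (isClosed_le continuous_const h.smo.continuous)
  exact h1 hx

/-- A continuous function is bounded on `D`. -/
theorem Col.bound (h : Col D z δ) {f : En d → F} (hf : Continuous f) : ∃ M, 0 ≤ M ∧ ∀ x ∈ closure D, ‖f x‖ ≤ M := by
  obtain ⟨M, hM⟩ := h.compact.exists_bound_of_continuousOn hf.continuousOn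
  exact ⟨max M 0, le_max_right _ _, fun x hx => (hM x hx).trans (le_max_left _ _)⟩

/-! ### Functions of `z` -/

theorem smo_comp {g : ℝ → ℝ} (hg : ContDiff ℝ ((⊤ : ℕ∞) : WithTop ℕ∞) g) (hz : Smo z) : Smo fun x => g (z x) :=
  hg.comp hz

theorem pd_comp {g : ℝ → ℝ} (hg : ContDiff ℝ ((⊤ : ℕ∞) : WithTop ℕ∞) g) (hz : Smo z) (i : Fin d) (x : En d) :
    pd i (fun x => g (z x)) x = deriv g (z x) * pd i z x := by
  have h1 : HasFDerivAt (fun x => g (z x)) (deriv g (z x) • fderiv ℝ z x) x :=
    ((hg.differentiable (by norm_num)) (z x)).hasDerivAt.comp_hasFDerivAt x (hz.differentiable x).hasFDerivAt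
  show fderiv ℝ (fun x => g (z x)) x (ei i) = _
  rw [h1.fderiv]
  rfl

theorem gd_comp {g : ℝ → ℝ} (hg : ContDiff ℝ ((⊤ : ℕ∞) : WithTop ℕ∞) g) (hz : Smo z) (x : En d) :
    gd (fun x => g (z x)) x = deriv g (z x) • gd z x := by
  ext i
  rw [gd_apply, pd_comp hg hz]
  rfl

theorem dv_smul {a : En d → ℝ} {f : En d → En d} (ha : Smo a) (hf : Smo f) (x : En d) :
    dv (fun x => a x • f x) x = ⟪gd a x, f x⟫ + a x * dv f x := by
  unfold dv
  have h1 : ∀ i, pd i (fun x => a x • f x) x i = pd i a x * f x i + a x * pd i f x i := by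
    intro i
    rw [pd_fsmul ha hf]
    rfl
  rw [Finset.sum_congr rfl fun i _ => h1 i, Finset.sum_add_distrib, ← Finset.mul_sum]
  congr 1
  rw [PiLp.inner_apply]
  refine Finset.sum_congr rfl fun i _ => ?_
  rw [gd_apply]
  simp [mul_comm]

theorem dv_gd {q : En d → ℝ} (hq : Smo q) (x : En d) : dv (gd q) x = lap q x := by
  unfold dv lap
  refine Finset.sum_congr rfl fun i _ => ?_
  rw [← pd_apply hq.gd i i x]
  rfl

/-- The divergence theorem for fields with compact support. -/
theorem int_dv {f : En d → En d} (hf : Smo f) (hc : HasCompactSupport f) : ∫ x, dv f x = 0 := by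
  unfold dv
  have hs : ∀ i : Fin d, Smo fun x => f x i := fun i => (contDiff_euclidean.1 hf) i
  have hcs : ∀ i : Fin d, HasCompactSupport fun x => f x i := fun i =>
    hc.comp_left (g := fun y : En d => y i) rfl
  have h1 : ∀ i x, pd i f x i = pd i (fun x => f x i) x := fun i x => (pd_apply hf i i x).symm
  simp only [h1]
  rw [integral_finsetSum _ fun i _ => ?_]
  · exact Finset.sum_eq_zero fun i _ => integral_pd (hs i) (hcs i) i
  · exact ((hs i).pd i).continuous.integrable_of_hasCompactSupport (hcs_pd (hcs i) i)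

end

end Pool.Agent.Lib.MP_79abb3_an.W
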