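import Pool.Agent.Lib.MP_79abb3_an.W.Def
import Pool.Agent.Lib.MP_79abb3_an.W.DH1

/-!
Theorem W, block D, part H0: `Dom` and `Col`.
-/

set_option autoImplicit false
set_option linter.unusedSectionVars false

open MeasureTheory Set Filter Topology Function
open scoped ENNReal RealInnerProductSpace

namespace Pool.Agent.Lib.MP_79abb3_an.W

section
variable {d : ℕ} {D : Set (En d)} {z : En d → ℝ} {δ : ℝ}

theorem gd_eq_gradient (q : En d → ℝ) (x : En d) : gd q x = gradient q x := by
  refine ext_inner_right ℝ fun y => ?_
  rw [inner_gd]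
  unfold gradient
  rw [InnerProductSpace.toDual_symm_apply]

theorem Dom.col (h : Dom D z δ) : Col D z δ where
  smo := h.smo
  pos := h.pos
  bdd := h.bdd
  δ0 := h.δ0
  unit x hx := by
    rw [gd_eq_gradient]
    exact h.unit x hx

end

end Pool.Agent.Lib.MP_79abb3_an.W
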