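import Pool.Agent.Lib.MP_79abb3_an.W.BM4
import Pool.Agent.Lib.MP_79abb3_an.W.BX0
import Pool.Agent.Lib.MP_79abb3_an.W.DH0

/-!
Theorem W, block B: exports in the notation of `W/Def.lean`.
-/

set_option autoImplicit false
set_option linter.unusedSectionVars false

open MeasureTheory Set Filter Topology Function
open scoped RealInnerProductSpace ENNReal NNReal

namespace Pool.Agent.Lib.MP_79abb3_an.W

variable {d : ℕ} {D : Set (Ed d)} {z : Ed d → ℝ} {δ : ℝ}

theorem BD_iff {F : Type} [NormedAddCommGroup F] [NormedSpace ℝ F] {f : Ed d → F} : BD D f ↔ B.BB D f := Iff.rfl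

theorem Oz_iff {F : Type} [NormedAddCommGroup F] [NormedSpace ℝ F] {f : Ed d → F} :
    Oz D z f ↔ B.OO D z f := Iff.rfl

theorem dv_eq_divg (v : Ed d → Ed d) (x : Ed d) : dv v x = B.divg v x := rfl

/-- On the open set where `q` is smooth the Laplacian is the divergence of the gradient. -/
theorem divg_gradient_eq (hD : IsOpen D) {q : Ed d → ℝ} (hq : ContDiffOn ℝ ((⊤ : ℕ∞) : WithTop ℕ∞) q D)
    {x : Ed d} (hx : x ∈ D) : B.divg (gradient q) x = lap q x := by
  have h1 : ContDiffAt ℝ ((⊤ : ℕ∞) : WithTop ℕ∞) q x := hq.contDiffAt (hD.mem_nhds hx)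
  have h2 : ContDiffAt ℝ 1 (fderiv ℝ q) x := h1.fderiv_right (m := 1) (by norm_cast)
  have h3 : DifferentiableAt ℝ (fderiv ℝ q) x := h2.differentiableAt (by norm_num)
  have h4 : (gradient q : Ed d → Ed d) = gd q := by
    funext y
    exact (gd_eq_gradient q y).symm
  have h5 : DifferentiableAt ℝ (gradient q) x := by
    have : (gradient q : Ed d → Ed d) = fun y => (InnerProductSpace.toDual ℝ (Ed d)).symm (fderiv ℝ q y) := rfl
    rw [this]
    exact (InnerProductSpace.toDual ℝ (Ed d)).symm.toContinuousLinearEquiv.differentiableAt.comp x h3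
  unfold B.divg lap
  refine Finset.sum_congr rfl fun i _ => ?_
  have h6 : (fun y => gradient q y i) = pd i q := by
    funext y
    rw [h4]
    exact gd_apply q y i
  have h7 : HasFDerivAt (fun y => gradient q y i) ((EuclideanSpace.proj i : Ed d →L[ℝ] ℝ).comp
      (fderiv ℝ (gradient q) x)) x :=
    (EuclideanSpace.proj i : Ed d →L[ℝ] ℝ).hasFDerivAt.comp x h5.hasFDerivAt
  have h8 : pd i (pd i q) x = fderiv ℝ (gradient q) x (B.ee i) i := by
    unfold pd
    have h9 : fderiv ℝ (fun y => gradient q y i) x = (EuclideanSpace.proj i : Ed d →L[ℝ] ℝ).comp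
      (fderiv ℝ (gradient q) x) := h7.fderiv
    have h10 : (fun y => fderiv ℝ q y (ei i)) = fun y => gradient q y i := by
      rw [h6]
      rfl
    rw [h10, h9]
    rfl
  exact h8.symm

/-- **The Neumann problem.** -/
theorem Dom.neumann (h : Dom D z δ) {f : Ed d → ℝ} (hf : BD D f) (h0 : ∫ x in D, f x = 0) :
    ∃ q : Ed d → ℝ, BD D q ∧ (∀ x ∈ D, lap q x = f x) ∧ Oz D z (fun x => ⟪gradient z x, gradient q x⟫) ∧
      ∫ x in D, q x = 0 := by
  obtain ⟨q, hq⟩ := h.toB.neumann hf h0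
  refine ⟨q, hq.bb, fun x hx => ?_, hq.nor, hq.mean⟩
  rw [← divg_gradient_eq h.toB.isOpen hq.bb.1 hx]
  exact hq.eq x hx

/-- The solution of the Neumann problem in the notation of block B. -/
theorem isNeu_of (h : Dom D z δ) {f q : Ed d → ℝ} (hf : BD D f) (hq : BD D q) (he : ∀ x ∈ D, lap q x = f x)
    (hn : Oz D z (fun x => ⟪gradient z x, gradient q x⟫)) (h0 : ∫ x in D, q x = 0) : B.IsNeu D z f q :=
  ⟨hf, hq, fun x hx => by rw [divg_gradient_eq h.toB.isOpen hq.1 hx]; exact he x hx, hn, h0⟩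

/-- Estimates in `C^k` for the solution of the Neumann problem. -/
theorem Dom.neumann_C (h : Dom D z δ) (k : ℕ) : ∃ (m : ℕ) (C : ℝ), 0 ≤ C ∧ ∀ (f q : Ed d → ℝ) (A : ℝ),
    BD D f → BD D q → (∀ x ∈ D, lap q x = f x) → Oz D z (fun x => ⟪gradient z x, gradient q x⟫) →
    ∫ x in D, q x = 0 → (∀ j ≤ m, ∀ x ∈ D, ‖iteratedFDeriv ℝ j f x‖ ≤ A) →
    ∀ j ≤ k, ∀ x ∈ D, ‖iteratedFDeriv ℝ j q x‖ ≤ C * A := by
  obtain ⟨m, C, hC, H⟩ := B.IsNeu.est_C h.toB k
  exact ⟨m, C, hC, fun f q A hf hq he hn h0 hA => H f q A (isNeu_of h hf hq he hn h0) hA⟩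

/-- **Gauss' theorem.** -/
theorem Dom.gaussB (h : Dom D z δ) {X : Ed d → Ed d} (hX : BD D X)
    (hn : Oz D z (fun x => ⟪gradient z x, X x⟫)) : ∫ x in D, dv X x = 0 := by
  obtain ⟨C0, h0⟩ := hX.2 0
  obtain ⟨C1, h1⟩ := hX.2 1
  refine h.toB.gauss (M := max C0 C1) (hX.1.of_le (by norm_cast)) (fun x hx => ?_) (fun x hx => ?_) hn
  · have := h0 x hx
    rw [norm_iteratedFDeriv_zero] at this
    exact this.trans (le_max_left _ _)
  · have := h1 x hx
    rw [norm_iteratedFDeriv_one] at this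
    exact this.trans (le_max_right _ _)

end Pool.Agent.Lib.MP_79abb3_an.W
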