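import Pool.Agent.Lib.MP_79abb3_an.W.HA

/-!
Theorem W, block H, part F1: elementary consequences of `Dom D z δ`.
-/

set_option autoImplicit false
set_option linter.unusedSectionVars false

open MeasureTheory Set Filter Topology Function
open scoped ENNReal RealInnerProductSpace

namespace Pool.Agent.Lib.MP_79abb3_an.W

variable {d : ℕ}

variable {D : Set (Ed d)} {z : Ed d → ℝ} {δ : ℝ}

theorem Dom.cont (h : Dom D z δ) : Continuous z :=
  (Smo.differentiable h.smo).continuous

theorem Dom.isOpen (h : Dom D z δ) : IsOpen D := by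
  have h1 : D = {x | 0 < z x} := by
    ext x
    exact h.pos x
  rw [h1]
  exact isOpen_lt continuous_const h.cont

private theorem Dom.hf1_df (h : Dom D z δ) : IsDf D {x | |z x| < 4 * δ} z where
  op := isOpen_lt h.cont.abs continuous_const
  smo := h.smo
  reg y hy h0 := by
    have h1 := h.unit y hy
    rw [grad_norm, h0, norm_zero] at h1
    exact zero_ne_one h1
  eq y _ := h.pos y

theorem Dom.closure_iff (h : Dom D z δ) (x : Ed d) : x ∈ closure D ↔ 0 ≤ z x := by
  have hδ := h.δ0
  constructor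
  · intro hx
    have h1 : closure D ⊆ {x | 0 ≤ z x} :=
      closure_minimal (fun y hy => ((h.pos y).1 hy).le) (isClosed_le continuous_const h.cont)
    exact h1 hx
  · intro hx
    rcases hx.eq_or_lt with h0 | h0
    · refine (h.hf1_df.closure_iff h.isOpen ?_).2 hx
      show |z x| < 4 * δ
      rw [← h0, abs_zero]
      linarith
    · exact subset_closure ((h.pos x).2 h0)

theorem Dom.frontier_iff (h : Dom D z δ) (x : Ed d) : x ∈ frontier D ↔ z x = 0 := by
  rw [h.isOpen.frontier_eq, Set.mem_sdiff, h.closure_iff, h.pos]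
  exact ⟨fun h1 => le_antisymm (not_lt.1 h1.2) h1.1, fun h0 => by rw [h0]; exact ⟨le_refl _, lt_irrefl _⟩⟩

/-- `Dom` domains are smooth domains (defining function `z` in `{|z| < 4δ}`). -/
theorem Dom.isSmoothDomain (h : Dom D z δ) : IsSmoothDomain D where
  op := h.isOpen
  bdd := h.bdd
  conn := h.conn
  loc x hx := by
    have hδ := h.δ0
    refine ⟨{x | |z x| < 4 * δ}, z, h.hf1_df.op, ?_, h.smo, h.hf1_df.reg, h.hf1_df.eq⟩
    show |z x| < 4 * δ
    rw [(h.frontier_iff x).1 hx, abs_zero]
    linarith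

/-- The boundary is not empty (`D` is bounded and not empty, `d ≥ 1`). -/
theorem Dom.frontier_ne (h : Dom D z δ) (hd : 0 < d) : (frontier D).Nonempty := by
  haveI : Nontrivial (Ed d) := by
    haveI : Nonempty (Fin d) := ⟨⟨0, hd⟩⟩
    infer_instance
  refine nonempty_frontier_iff.2 ⟨h.conn.nonempty, fun h1 => ?_⟩
  exact NoncompactSpace.noncompact_univ (Metric.isCompact_of_isClosed_isBounded isClosed_univ (h1 ▸ h.bdd))

private theorem hf1_grad_apply (hz : Smo z) (x v w : Ed d) :
    ⟪fderiv ℝ (gradient z) x v, w⟫ = fderiv ℝ (fderiv ℝ z) x v w := by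
  have h1 : Differentiable ℝ (gradient z) := Smo.differentiable hz.gradient
  have h2 : HasFDerivAt (fun y => ⟪gradient z y, w⟫)
      ((fderivInnerCLM ℝ (gradient z x, w)).comp ((fderiv ℝ (gradient z) x).prod 0)) x :=
    (h1 x).hasFDerivAt.inner ℝ (hasFDerivAt_const w x)
  have h3 : (fun y => ⟪gradient z y, w⟫) = fun y => fderiv ℝ z y w := by
    ext y
    exact grad_inner z y w
  have h4 : ContDiff ℝ ((⊤ : ℕ∞) : WithTop ℕ∞) (fderiv ℝ z) :=
    ContDiff.fderiv_right hz (by exact_mod_cast le_top)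
  have h5 : HasFDerivAt (fun y => fderiv ℝ z y w) ((fderiv ℝ (fderiv ℝ z) x).flip w) x :=
    ((h4.differentiable (by simp)) x).hasFDerivAt.clm_apply (hasFDerivAt_const w x) |>.congr_fderiv (by
      ext v
      simp)
  rw [h3] at h2
  have h6 := congrArg (fun L : Ed d →L[ℝ] ℝ => L v) (h2.unique h5)
  simp only [ContinuousLinearMap.comp_apply, ContinuousLinearMap.prod_apply, fderivInnerCLM_apply,
    ContinuousLinearMap.flip_apply] at h6
  rw [← h6]
  simp

/-- The Hessian of `z` is symmetric. -/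
theorem hess_symm (hz : Smo z) (x v w : Ed d) :
    ⟪fderiv ℝ (gradient z) x v, w⟫ = ⟪fderiv ℝ (gradient z) x w, v⟫ := by
  rw [hf1_grad_apply hz, hf1_grad_apply hz]
  have h1 : ContDiffAt ℝ ((⊤ : ℕ∞) : WithTop ℕ∞) z x := ContDiff.contDiffAt hz
  have h2 : IsSymmSndFDerivAt ℝ z x := h1.isSymmSndFDerivAt (by
    rw [minSmoothness_of_isRCLikeNormedField]
    exact WithTop.coe_le_coe.2 (show (2 : ℕ∞) ≤ ⊤ from le_top))
  exact h2 v w

/-- Derivative of `|∇z|² = 1`, on the open set `{|z| < 4δ}`. -/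
theorem Dom.hess_normal (h : Dom D z δ) {x : Ed d} (hx : |z x| < 4 * δ) (v : Ed d) :
    ⟪fderiv ℝ (gradient z) x v, gradient z x⟫ = 0 := by
  have h1 : Differentiable ℝ (gradient z) := Smo.differentiable h.smo.gradient
  have h2 : HasFDerivAt (fun y => ⟪gradient z y, gradient z y⟫)
      ((fderivInnerCLM ℝ (gradient z x, gradient z x)).comp
        ((fderiv ℝ (gradient z) x).prod (fderiv ℝ (gradient z) x))) x :=
    (h1 x).hasFDerivAt.inner ℝ (h1 x).hasFDerivAt
  have h3 : (fun y => ⟪gradient z y, gradient z y⟫) =ᶠ[𝓝 x] fun _ => (1:ℝ) := by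
    filter_upwards [h.hf1_df.op.mem_nhds hx] with y hy
    rw [real_inner_self_eq_norm_sq, h.unit y hy]
    norm_num
  have h4 : HasFDerivAt (fun y => ⟪gradient z y, gradient z y⟫) (0 : Ed d →L[ℝ] ℝ) x :=
    (hasFDerivAt_const (1:ℝ) x).congr_of_eventuallyEq h3
  have h5 := congrArg (fun L : Ed d →L[ℝ] ℝ => L v) (h2.unique h4)
  simp only [ContinuousLinearMap.comp_apply, ContinuousLinearMap.prod_apply, fderivInnerCLM_apply,
    zero_apply] at h5
  rw [real_inner_comm] at h5
  linarith

theorem Dom.hess_normal' (h : Dom D z δ) {x : Ed d} (hx : |z x| < 4 * δ) :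
    fderiv ℝ (gradient z) x (gradient z x) = 0 := by
  refine ext_inner_right ℝ fun w => ?_
  rw [hess_symm h.smo, h.hess_normal hx, inner_zero_left]

/-- `z` is `1`-Lipschitz near the walls: on the segment from `x` to `y` the function stays in `|z| < 4δ` (continuity:
first exit), where the derivative of `s ↦ z (x + s (y - x))` is at most `‖y - x‖`. -/
theorem Dom.lip (h : Dom D z δ) {x y : Ed d} (hxy : |z x| + ‖y - x‖ < 4 * δ) : |z y - z x| ≤ ‖y - x‖ := by
  set L := ‖y - x‖ with hL
  have hL0 : 0 ≤ L := norm_nonneg _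
  have hder : ∀ s : ℝ, HasDerivAt (fun s : ℝ => z (x + s • (y - x)) - z x)
      (fderiv ℝ z (x + s • (y - x)) (y - x)) s := by
    intro s
    have h2 : HasDerivAt (fun s : ℝ => x + s • (y - x)) (y - x) s := by
      simpa using ((hasDerivAt_id s).smul_const (y - x)).const_add x
    exact (((Smo.differentiable h.smo) (x + s • (y - x))).hasFDerivAt.comp_hasDerivAt s h2).sub_const _
  have key : ∀ η : ℝ, 0 < η → |z x| + L + η < 4 * δ → |z y - z x| ≤ L + η := by
    intro η hη hη2
    have h1 := image_norm_le_of_norm_deriv_right_lt_deriv_boundary' (a := 0) (b := 1)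
      (f := fun s : ℝ => z (x + s • (y - x)) - z x) (f' := fun s => fderiv ℝ z (x + s • (y - x)) (y - x))
      (fun s _ => (hder s).continuousAt.continuousWithinAt) (fun s _ => (hder s).hasDerivWithinAt)
      (B := fun s => (L + η) * s) (B' := fun _ => L + η) (by simp) (by fun_prop)
      (fun s _ => by simpa using ((hasDerivAt_id s).const_mul (L + η)).hasDerivWithinAt)
      (fun s hs he => by
        have e1 : |z (x + s • (y - x))| < 4 * δ := by
          have e2 : ‖z (x + s • (y - x)) - z x‖ = (L + η) * s := he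
          rw [Real.norm_eq_abs] at e2
          have e3 : |z (x + s • (y - x))| ≤ |z x| + |z (x + s • (y - x)) - z x| := by
            have := abs_add_le (z x) (z (x + s • (y - x)) - z x)
            rwa [add_sub_cancel] at this
          have e4 : (L + η) * s ≤ L + η := by
            have := hs.2
            nlinarith
          linarith
        have e5 : |fderiv ℝ z (x + s • (y - x)) (y - x)| ≤ L := by
          have := (fderiv ℝ z (x + s • (y - x))).le_opNorm (y - x)
          rwa [← grad_norm, h.unit _ e1, one_mul, Real.norm_eq_abs] at this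
        calc ‖fderiv ℝ z (x + s • (y - x)) (y - x)‖ ≤ L := e5
          _ < L + η := by linarith) (right_mem_Icc.2 zero_le_one)
    simp only [one_smul, add_sub_cancel, mul_one, Real.norm_eq_abs] at h1
    exact h1
  refine le_of_forall_pos_lt_add fun η hη => ?_
  set η' := min (η / 2) ((4 * δ - (|z x| + L)) / 2) with hη'
  have h1 : 0 < η' := lt_min (by linarith) (by linarith)
  have h2 : η' ≤ η / 2 := min_le_left _ _
  have h3 : η' ≤ (4 * δ - (|z x| + L)) / 2 := min_le_right _ _
  have := key η' h1 (by linarith)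
  linarith

/-- One sided version of `Dom.normal`, by continuous induction. -/
private theorem Dom.hf1_normal (h : Dom D z δ) {x : Ed d} (hx : |z x| < 4 * δ) {σ : ℝ} (hσ : |σ| = 1) {R : ℝ}
    (hR : 0 ≤ R) (hr : |z x + σ * R| < 4 * δ) : ∀ s ∈ Icc (0:ℝ) R,
      gradient z (x + (σ * s) • gradient z x) = gradient z x ∧ z (x + (σ * s) • gradient z x) = z x + σ * s := by
  set n := gradient z x with hn
  set c : ℝ → Ed d := fun s => x + (σ * s) • n with hc
  have hn1 : ‖n‖ = 1 := h.unit x hx
  have hgd : Differentiable ℝ (gradient z) := Smo.differentiable h.smo.gradient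
  have hzd : Differentiable ℝ z := Smo.differentiable h.smo
  have hcd : ∀ s, HasDerivAt c (σ • n) s := by
    intro s
    have h2 : HasDerivAt (fun s : ℝ => σ * s) σ s := by simpa using (hasDerivAt_id s).const_mul σ
    simpa [hc] using (h2.smul_const n).const_add x
  have hcc : Continuous c := by
    simp only [hc]
    fun_prop
  have hwd : ∀ s, HasDerivAt (fun s => gradient z (c s) - n) (fderiv ℝ (gradient z) (c s) (σ • n)) s := fun s =>
    ((hgd (c s)).hasFDerivAt.comp_hasDerivAt s (hcd s)).sub_const n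
  have hzcd : ∀ s, HasDerivAt (fun s => z (c s)) (fderiv ℝ z (c s) (σ • n)) s := fun s =>
    (hzd (c s)).hasFDerivAt.comp_hasDerivAt s (hcd s)
  have hD2c : Continuous (fderiv ℝ (gradient z)) := by
    have : ContDiff ℝ ((⊤ : ℕ∞) : WithTop ℕ∞) (fderiv ℝ (gradient z)) :=
      ContDiff.fderiv_right h.smo.gradient (by exact_mod_cast le_top)
    exact this.continuous
  set S : Set ℝ := {s | gradient z (c s) = n ∧ z (c s) = z x + σ * s} with hS
  have hSc : IsClosed (S ∩ Icc 0 R) := by
    refine IsClosed.inter ?_ isClosed_Icc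
    exact (isClosed_eq (h.smo.gradient.continuous.comp hcc) continuous_const).inter
      (isClosed_eq (h.cont.comp hcc) (by fun_prop))
  have hS0 : (0:ℝ) ∈ S := by
    refine ⟨?_, ?_⟩ <;> simp [hc, hn]
  have hstep : ∀ s ∈ S ∩ Ico 0 R, S ∈ 𝓝[>] s := by
    rintro s ⟨⟨hs1, hs2⟩, hs0, hsR⟩
    -- `|z (c s)| < 4 δ`
    have e0 : |z (c s)| < 4 * δ := by
      rw [hs2]
      rw [abs_lt] at hx hr ⊢
      rcases (abs_eq zero_le_one).1 hσ with h1 | h1 <;> rw [h1] at hr ⊢ <;> constructor <;> nlinarith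
    have e1 : ∀ᶠ τ in 𝓝 s, |z (c τ)| < 4 * δ :=
      ((h.cont.comp hcc).abs.continuousAt (x := s)).eventually_lt_const e0
    set M := ‖fderiv ℝ (gradient z) (c s)‖ + 1 with hM
    have e2 : ∀ᶠ τ in 𝓝 s, ‖fderiv ℝ (gradient z) (c τ)‖ < M := by
      refine ((hD2c.comp hcc).norm.continuousAt (x := s)).eventually_lt_const ?_
      show ‖fderiv ℝ (gradient z) (c s)‖ < M
      rw [hM]; linarith
    obtain ⟨η, hη, hη2⟩ := Metric.eventually_nhds_iff_ball.1 (e1.and e2)
    have e3 : ∀ τ ∈ Icc s (s + η / 2), |z (c τ)| < 4 * δ ∧ ‖fderiv ℝ (gradient z) (c τ)‖ < M := by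
      intro τ hτ
      refine hη2 τ ?_
      rw [Metric.mem_ball, Real.dist_eq, abs_lt]
      constructor <;> linarith [hτ.1, hτ.2]
    have e4 : ∀ τ ∈ Icc s (s + η / 2), gradient z (c τ) - n = 0 := by
      refine eq_zero_of_abs_deriv_le_mul_abs_self_of_eq_zero_right (K := M)
        (fun τ _ => (hwd τ).continuousAt.continuousWithinAt) (fun τ _ => (hwd τ).hasDerivWithinAt)
        (by rw [hs1, sub_self]) (fun τ hτ => ?_)
      obtain ⟨e5, e6⟩ := e3 τ ⟨hτ.1, hτ.2.le⟩
      have e7 : fderiv ℝ (gradient z) (c τ) (σ • n) = -(σ • fderiv ℝ (gradient z) (c τ) (gradient z (c τ) - n)) := by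
        rw [map_smul, map_sub, h.hess_normal' e5, zero_sub, smul_neg, neg_neg]
      rw [e7, norm_neg, norm_smul, Real.norm_eq_abs, hσ, one_mul]
      refine ((fderiv ℝ (gradient z) (c τ)).le_opNorm _).trans ?_
      exact mul_le_mul_of_nonneg_right e6.le (norm_nonneg _)
    have e8 : ∀ τ ∈ Icc s (s + η / 2), z (c τ) = z x + σ * τ := by
      intro τ hτ
      have e9 : ∀ τ' ∈ Icc s (s + η / 2), (fun u => z (c u) - σ * u) τ' = (fun u => z (c u) - σ * u) s := by
        have e10 : ∀ u ∈ Ico s (s + η / 2), HasDerivWithinAt (fun u => z (c u) - σ * u) 0 (Ici u) u := by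
          intro u hu
          have e11 : HasDerivAt (fun u => z (c u) - σ * u) (fderiv ℝ z (c u) (σ • n) - σ * 1) u :=
            (hzcd u).sub ((hasDerivAt_id u).const_mul σ)
          have e12 : fderiv ℝ z (c u) (σ • n) - σ * 1 = 0 := by
            have e13 := sub_eq_zero.1 (e4 u ⟨hu.1, hu.2.le⟩)
            rw [map_smul, ← grad_inner, e13, real_inner_self_eq_norm_sq, hn1]
            simp
          rw [e12] at e11
          exact e11.hasDerivWithinAt
        exact constant_of_has_deriv_right_zero (by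
          exact ((h.cont.comp hcc).sub (by fun_prop)).continuousOn) e10
      have e14 := e9 τ hτ
      simp only [hs2] at e14
      linarith
    have e15 : Icc s (s + η / 2) ∈ 𝓝[>] s :=
      mem_of_superset (Ioc_mem_nhdsGT (by linarith)) Ioc_subset_Icc_self
    filter_upwards [e15] with τ hτ
    exact ⟨sub_eq_zero.1 (e4 τ hτ), e8 τ hτ⟩
  exact hSc.Icc_subset_of_forall_mem_nhdsWithin hS0 hstep

/-- **Normals**: for `w(s) = ∇z (x + s n) - n`, `n = ∇z x`: `w' = D²z (n) = -D²z (w)` (`hess_normal'`), `w(0) = 0`, so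
`w = 0` (Gronwall) as long as `|z| < 4δ`; then `z (x + s n) = z x + s`. -/
theorem Dom.normal (h : Dom D z δ) {x : Ed d} (hx : |z x| < 4 * δ) {r : ℝ} (hr : |z x + r| < 4 * δ) :
    z (x + r • gradient z x) = z x + r ∧ gradient z (x + r • gradient z x) = gradient z x := by
  rcases le_total 0 r with h0 | h0
  · have h1 := h.hf1_normal hx (σ := 1) (by simp) h0 (by simpa using hr) r (right_mem_Icc.2 h0)
    simp only [one_mul] at h1
    exact ⟨h1.2, h1.1⟩
  · have h1 := h.hf1_normal hx (σ := -1) (by simp) (R := -r) (by linarith) (by simpa using hr) (-r)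
      (right_mem_Icc.2 (by linarith))
    simp only [neg_mul, one_mul, neg_neg] at h1
    exact ⟨h1.2, h1.1⟩

/-- `{|z| < 4δ}` is bounded. -/
theorem Dom.bdd_near (h : Dom D z δ) : Bornology.IsBounded {x | |z x| < 4 * δ} := by
  have hδ := h.δ0
  refine (h.bdd.closure.thickening (δ := 4 * δ)).subset fun x hx => ?_
  have hx' : |z x| < 4 * δ := hx
  rw [Metric.mem_thickening_iff]
  have h1 := h.normal hx' (r := -z x) (by simp; linarith)
  refine ⟨x + (-z x) • gradient z x, (h.closure_iff _).2 (by rw [h1.1]; simp), ?_⟩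
  rw [dist_comm, dist_eq_norm, add_sub_cancel_left, norm_smul, h.unit x hx', mul_one, Real.norm_eq_abs, abs_neg]
  exact hx'

/-- `{|z| ≤ r}` is compact for `r < 4δ`. -/
theorem Dom.cpt_near (h : Dom D z δ) {r : ℝ} (hr : r < 4 * δ) : IsCompact {x | |z x| ≤ r} :=
  Metric.isCompact_of_isClosed_isBounded (isClosed_le h.cont.abs continuous_const)
    (h.bdd_near.subset fun _ hx => lt_of_le_of_lt hx hr)

/-- `{z ≥ r}` is a compact subset of `D` for `r > 0`. -/
theorem Dom.cpt_in (h : Dom D z δ) {r : ℝ} (hr : 0 < r) : IsCompact {x | r ≤ z x} ∧ {x | r ≤ z x} ⊆ D := by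
  have h1 : {x | r ≤ z x} ⊆ D := fun x hx => (h.pos x).2 (hr.trans_le hx)
  exact ⟨Metric.isCompact_of_isClosed_isBounded (isClosed_le continuous_const h.cont) (h.bdd.subset h1), h1⟩

/-- A compact subset of `D` has a positive distance from the walls. -/
theorem Dom.pos_of_cpt (h : Dom D z δ) {K : Set (Ed d)} (hK : IsCompact K) (hKD : K ⊆ D) :
    ∃ r > 0, ∀ x ∈ K, r ≤ z x := by
  rcases K.eq_empty_or_nonempty with h0 | h0
  · exact ⟨1, one_pos, fun x hx => by rw [h0] at hx; exact hx.elim⟩
  · obtain ⟨y, hy, hy2⟩ := hK.exists_isMinOn h0 h.cont.continuousOn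
    exact ⟨z y, (h.pos y).1 (hKD hy), fun x hx => hy2 hx⟩

end Pool.Agent.Lib.MP_79abb3_an.W
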