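import Pool.Agent.Lib.MP_79abb3_an.W.Mol1

/-!
Theorem W, block A: mollifiers in `L^p`.
-/

set_option autoImplicit false
set_option linter.unusedSectionVars false

open MeasureTheory Set Filter Topology Function
open scoped ENNReal RealInnerProductSpace

namespace Pool.Agent.Lib.MP_79abb3_an.W

section
variable {d : ℕ} {F : Type} [NormedAddCommGroup F] [InnerProductSpace ℝ F] [CompleteSpace F]

/-- the probability measure with the density `ρ_n` -/
private noncomputable def nu (d n : ℕ) : Measure (En d) :=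
  (volume : Measure (En d)).withDensity fun y => ENNReal.ofReal (rho n y)

private theorem rho_meas (n : ℕ) : Measurable fun y : En d => ENNReal.ofReal (rho n y) :=
  (rho_smo n).continuous.measurable.ennreal_ofReal

private theorem nu_prob (d n : ℕ) : IsProbabilityMeasure (nu d n) := by
  constructor
  unfold nu
  rw [withDensity_apply _ MeasurableSet.univ, Measure.restrict_univ,
    ← ofReal_integral_eq_lintegral_ofReal
      ((rho_smo n).continuous.integrable_of_hasCompactSupport (rho_hcs n))
      (Eventually.of_forall fun y => rho_nonneg n y), rho_int, ENNReal.ofReal_one]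

private theorem nu_ac (d n : ℕ) : nu d n ≪ (volume : Measure (En d)) :=
  withDensity_absolutelyContinuous _ _

private theorem enorm_mo_le (n : ℕ) {f : En d → F} (hf : StronglyMeasurable f) (x : En d) :
    ‖mo n f x‖ₑ ≤ ∫⁻ y, ‖f (x - y)‖ₑ ∂(nu d n) := by
  have hm : Measurable fun y : En d => ‖f (x - y)‖ₑ :=
    (hf.comp_measurable (measurable_const.sub measurable_id)).enorm
  unfold nu
  rw [lintegral_withDensity_eq_lintegral_mul _ (rho_meas n) hm]
  refine (enorm_integral_le_lintegral_enorm _).trans_eq ?_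
  refine lintegral_congr fun y => ?_
  rw [enorm_smul, Pi.mul_apply, Real.enorm_eq_ofReal (rho_nonneg n y)]

private theorem mo_Lp_aux (n : ℕ) {p : ℝ≥0∞} (hp : 1 ≤ p) {f : En d → F} (hf : StronglyMeasurable f) :
    eLpNorm (mo n f) p (volume : Measure (En d)) ≤ eLpNorm f p (volume : Measure (En d)) := by
  have := nu_prob d n
  have hsm : ∀ x, StronglyMeasurable fun y : En d => f (x - y) := fun x =>
    hf.comp_measurable (measurable_const.sub measurable_id)
  rcases eq_or_ne p ∞ with rfl | hp'
  · rw [eLpNorm_exponent_top]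
    refine eLpNormEssSup_le_of_ae_enorm_bound (Eventually.of_forall fun x => ?_)
    refine (enorm_mo_le n hf x).trans ?_
    have h1 : ∀ᵐ z, ‖f z‖ₑ ≤ eLpNormEssSup f (volume : Measure (En d)) := ae_le_eLpNormEssSup
    have h2 : ∀ᵐ y, ‖f (x - y)‖ₑ ≤ eLpNormEssSup f (volume : Measure (En d)) :=
      (Measure.measurePreserving_sub_left (volume : Measure (En d)) x).quasiMeasurePreserving.ae h1
    refine (lintegral_mono_ae ((nu_ac d n).ae_le h2)).trans ?_
    rw [lintegral_const, measure_univ, mul_one, eLpNorm_exponent_top]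
  · have hp0 : p ≠ 0 := (lt_of_lt_of_le one_pos hp).ne'
    have hpr : 0 < p.toReal := ENNReal.toReal_pos hp0 hp'
    rw [eLpNorm_eq_lintegral_rpow_enorm_toReal hp0 hp', eLpNorm_eq_lintegral_rpow_enorm_toReal hp0 hp']
    refine ENNReal.rpow_le_rpow ?_ (by positivity)
    have h1 : ∀ x, ‖mo n f x‖ₑ ^ p.toReal ≤ ∫⁻ y, ‖f (x - y)‖ₑ ^ p.toReal ∂(nu d n) := by
      intro x
      have h2 : ‖mo n f x‖ₑ ≤ eLpNorm (fun y => f (x - y)) p (nu d n) := by
        refine (enorm_mo_le n hf x).trans ?_
        rw [← eLpNorm_one_eq_lintegral_enorm]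
        exact eLpNorm_le_eLpNorm_of_exponent_le hp (hsm x).aestronglyMeasurable
      refine (ENNReal.rpow_le_rpow h2 hpr.le).trans ?_
      rw [eLpNorm_eq_lintegral_rpow_enorm_toReal hp0 hp', ← ENNReal.rpow_mul, one_div,
        inv_mul_cancel₀ hpr.ne', ENNReal.rpow_one]
    refine (lintegral_mono h1).trans ?_
    have hmeas : Measurable (uncurry fun x y : En d => ‖f (x - y)‖ₑ ^ p.toReal) := by
      have h3 : Measurable fun q : En d × En d => ‖f (q.1 - q.2)‖ₑ :=
        (hf.comp_measurable (measurable_fst.sub measurable_snd)).enorm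
      exact h3.pow_const _
    rw [lintegral_lintegral_swap hmeas.aemeasurable]
    have h4 : ∀ y, ∫⁻ x, ‖f (x - y)‖ₑ ^ p.toReal = ∫⁻ x, ‖f x‖ₑ ^ p.toReal := fun y =>
      lintegral_sub_right_eq_self (fun x => ‖f x‖ₑ ^ p.toReal) y
    simp only [h4]
    rw [lintegral_const, measure_univ, mul_one]

/-- Jensen: `‖ρ_n * f(x)‖^p ≤ (ρ_n * ‖f‖^p)(x)`, Fubini, translation invariance (`p = ∞`: trivial). -/
theorem mo_Lp (n : ℕ) {p : ℝ≥0∞} (hp : 1 ≤ p) {f : En d → F} (hf : MemLp f p (volume : Measure (En d))) :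
    eLpNorm (mo n f) p (volume : Measure (En d)) ≤ eLpNorm f p (volume : Measure (En d)) := by
  obtain ⟨f', hf', h1⟩ : ∃ f' : En d → F, StronglyMeasurable f' ∧ f =ᵐ[volume] f' :=
    ⟨hf.1.mk f, hf.1.stronglyMeasurable_mk, hf.1.ae_eq_mk⟩
  rw [mo_congr n h1, eLpNorm_congr_ae h1]
  exact mo_Lp_aux n hp hf'

theorem mo_memLp (n : ℕ) {p : ℝ≥0∞} (hp : 1 ≤ p) {f : En d → F} (hf : MemLp f p (volume : Measure (En d))) :
    MemLp (mo n f) p (volume : Measure (En d)) := by
  exact ⟨(mo_smo n (hf.locallyIntegrable hp)).continuous.aestronglyMeasurable,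
    (mo_Lp n hp hf).trans_lt hf.2⟩

/-- convergence at every point for continuous functions -/
private theorem mo_pt {f : En d → F} (hf : Continuous f) (x : En d) :
    Tendsto (fun n => mo n f x) atTop (𝓝 (f x)) := by
  exact ContDiffBump.convolution_tendsto_right_of_continuous (φ := fun n => bmp d n)
    tendsto_one_div_add_atTop_nhds_zero_nat hf x

private theorem mo_close (n : ℕ) {f : En d → F} (hf : Continuous f) (x : En d) {ε : ℝ}
    (h : ∀ y, dist y x < 1 / ((n : ℝ) + 1) → dist (f y) (f x) ≤ ε) : ‖mo n f x - f x‖ ≤ ε := by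
  rw [← dist_eq_norm]
  exact ContDiffBump.dist_normed_convolution_le (φ := bmp d n) hf.aestronglyMeasurable
    fun y hy => h y hy

private theorem mo_tendsto_aux {p : ℝ≥0∞} {f : En d → F}
    (hf : Continuous f) (hc : HasCompactSupport f) :
    Tendsto (fun n => eLpNorm (fun x => mo n f x - f x) p (volume : Measure (En d))) atTop (𝓝 0) := by
  obtain ⟨R, hR⟩ := hc.isCompact.isBounded.subset_closedBall 0
  set K : Set (En d) := Metric.closedBall 0 (R + 1) with hK
  have hKc : volume K ≠ ∞ := (isCompact_closedBall _ _).measure_lt_top.ne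
  have hUC : UniformContinuous f := hc.uniformContinuous_of_continuous hf
  set M : ℝ≥0∞ := volume K ^ p.toReal⁻¹ with hM
  have hMt : M ≠ ∞ := ENNReal.rpow_ne_top_of_nonneg (by positivity) hKc
  have hfz : ∀ x : En d, R < ‖x‖ → f x = 0 := by
    intro x hx
    by_contra h1
    have := hR (subset_tsupport f h1)
    rw [mem_closedBall_zero_iff] at this
    linarith
  have hzero : ∀ n, ∀ x : En d, x ∉ K → mo n f x - f x = 0 := by
    intro n x hx
    rw [hK, mem_closedBall_zero_iff, not_le] at hx
    have h1 : mo n f x = 0 := by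
      refine mo_supp n (K := Metric.closedBall 0 R) (Eventually.of_forall fun y hy => ?_) ?_
      · rw [mem_closedBall_zero_iff, not_le] at hy
        exact hfz y hy
      · intro y hy
        rw [mem_closedBall_zero_iff] at hy
        rw [dist_eq_norm]
        have h2 : ‖x‖ ≤ ‖x - y‖ + ‖y‖ := by
          have := norm_add_le (x - y) y
          rwa [sub_add_cancel] at this
        have h3 : 1 / ((n : ℝ) + 1) ≤ 1 := by
          rw [div_le_one (by positivity)]
          linarith [(Nat.cast_nonneg n : (0 : ℝ) ≤ n)]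
        linarith
    rw [h1, hfz x (by linarith), sub_zero]
  rw [ENNReal.tendsto_atTop_zero]
  intro ε hε
  -- choose `δ` with `M * δ ≤ ε`
  obtain ⟨δ, hδ, hδε⟩ : ∃ δ : ℝ, 0 < δ ∧ M * ENNReal.ofReal δ ≤ ε := by
    have h1 : Tendsto (fun t : ℝ => M * ENNReal.ofReal t) (𝓝[>] 0) (𝓝 (M * ENNReal.ofReal 0)) :=
      (ENNReal.Tendsto.const_mul (ENNReal.continuous_ofReal.tendsto 0) (Or.inr hMt)).mono_left
        nhdsWithin_le_nhds
    rw [ENNReal.ofReal_zero, mul_zero] at h1
    have h2 := (h1.eventually (ge_mem_nhds hε)).and self_mem_nhdsWithin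
    obtain ⟨δ, h3, h4⟩ := h2.exists
    exact ⟨δ, h4, h3⟩
  obtain ⟨η, hη, hη'⟩ := Metric.uniformContinuous_iff.1 hUC δ hδ
  obtain ⟨N, hN⟩ := (tendsto_one_div_add_atTop_nhds_zero_nat (𝕜 := ℝ)).eventually
    (gt_mem_nhds hη) |>.exists_forall_of_atTop
  refine ⟨N, fun n hn => ?_⟩
  have hb : ∀ x, ‖mo n f x - f x‖ ≤ δ := by
    intro x
    refine mo_close n hf x fun y hy => (hη' ?_).le
    exact hy.trans (hN n hn)
  have hsupp : (fun x => mo n f x - f x).support ⊆ K := by
    intro x hx
    by_contra h1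
    exact hx (hzero n x h1)
  rw [← eLpNorm_restrict_eq_of_support_subset hsupp]
  refine (eLpNorm_le_of_ae_bound (Eventually.of_forall hb)).trans ?_
  rw [Measure.restrict_apply_univ]
  exact hδε

/-- For continuous `f` with compact support the convergence is uniform with supports in a fixed compact set; then
density of these functions in `L^p` (`MemLp.exists_hasCompactSupport_eLpNorm_sub_le`) and `mo_Lp`. -/
theorem mo_tendsto {p : ℝ≥0∞} (hp : 1 ≤ p) (hp' : p ≠ ∞) {f : En d → F} (hf : MemLp f p (volume : Measure (En d))) :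
    Tendsto (fun n => eLpNorm (fun x => mo n f x - f x) p (volume : Measure (En d))) atTop (𝓝 0) := by
  rw [ENNReal.tendsto_atTop_zero]
  intro ε hε
  have hε3 : ε / 3 ≠ 0 := by
    simpa using hε.ne'
  obtain ⟨g, hgc, hfg, hg, hgm⟩ := hf.exists_hasCompactSupport_eLpNorm_sub_le hp' hε3
  have h1 := mo_tendsto_aux (p := p) hg hgc
  rw [ENNReal.tendsto_atTop_zero] at h1
  obtain ⟨N, hN⟩ := h1 (ε / 3) (pos_iff_ne_zero.2 hε3)
  refine ⟨N, fun n hn => ?_⟩
  have hfl := hf.locallyIntegrable hp
  have hgl := hgm.locallyIntegrable hp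
  have hsub : MemLp (f - g) p (volume : Measure (En d)) := hf.sub hgm
  have hmo : mo n f = fun x => mo n (f - g) x + mo n g x := by
    rw [← mo_add n (hsub.locallyIntegrable hp) hgl]
    congr 1
    ext1 x
    show f x = (f x - g x) + g x
    abel
  have hsplit : (fun x => mo n f x - f x) =
      (mo n (f - g) + fun x => mo n g x - g x) + (g - f) := by
    ext1 x
    show mo n f x - f x = (mo n (f - g) x + (mo n g x - g x)) + (g x - f x)
    rw [hmo]
    show mo n (f - g) x + mo n g x - f x = (mo n (f - g) x + (mo n g x - g x)) + (g x - f x)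
    generalize mo n (f - g) x = a
    generalize mo n g x = b
    show a + b - f x = a + (b - g x) + (g x - f x)
    abel
  have hm1 : MemLp (mo n (f - g)) p (volume : Measure (En d)) := mo_memLp n hp hsub
  have hm2 : MemLp (fun x => mo n g x - g x) p (volume : Measure (En d)) :=
    (mo_memLp n hp hgm).sub hgm
  have hm3 : MemLp (g - f) p (volume : Measure (En d)) := hgm.sub hf
  rw [hsplit]
  refine (eLpNorm_add_le (hm1.add hm2).1 hm3.1 hp).trans ?_
  refine (add_le_add (eLpNorm_add_le hm1.1 hm2.1 hp) le_rfl).trans ?_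
  have h2 : eLpNorm (mo n (f - g)) p (volume : Measure (En d)) ≤ ε / 3 :=
    (mo_Lp n hp hsub).trans hfg
  have h3 : eLpNorm (g - f) p (volume : Measure (En d)) ≤ ε / 3 := by
    rw [eLpNorm_sub_comm]
    exact hfg
  refine (add_le_add (add_le_add h2 (hN n hn)) h3).trans_eq ?_
  exact ENNReal.add_thirds ε

/-- The sup norm is bounded by the `L²` norm, for fixed `n` (Cauchy-Schwarz). -/
theorem mo_sup (n : ℕ) : ∃ C : ℝ, 0 ≤ C ∧ ∀ f : En d → F, MemLp f 2 (volume : Measure (En d)) → ∀ x,
    ‖mo n f x‖ ≤ C * (eLpNorm f 2 (volume : Measure (En d))).toReal := by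
  have hr : MemLp (rho n : En d → ℝ) 2 (volume : Measure (En d)) :=
    (rho_smo n).continuous.memLp_of_hasCompactSupport (rho_hcs n)
  refine ⟨(eLpNorm (rho n : En d → ℝ) 2 (volume : Measure (En d))).toReal, ENNReal.toReal_nonneg,
    fun f hf x => ?_⟩
  have hmp := Measure.measurePreserving_sub_left (volume : Measure (En d)) x
  have hfx : MemLp (fun y => f (x - y)) 2 (volume : Measure (En d)) :=
    hf.comp_measurePreserving hmp
  have h1 : ‖mo n f x‖ₑ ≤ eLpNorm (rho n : En d → ℝ) 2 (volume : Measure (En d)) *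
      eLpNorm f 2 (volume : Measure (En d)) := by
    have h2 : ‖mo n f x‖ₑ ≤ eLpNorm ((rho n : En d → ℝ) • fun y => f (x - y)) 1
        (volume : Measure (En d)) := by
      rw [eLpNorm_one_eq_lintegral_enorm]
      exact enorm_integral_le_lintegral_enorm _
    refine h2.trans ?_
    have h3 := eLpNorm_smul_le_mul_eLpNorm (p := 2) (q := 2) (r := 1) hfx.1 hr.1
    refine h3.trans_eq ?_
    congr 1
    exact eLpNorm_comp_measurePreserving hf.1 hmp
  have h4 := ENNReal.toReal_mono (ENNReal.mul_ne_top hr.2.ne hf.2.ne) h1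
  rw [ENNReal.toReal_mul, toReal_enorm] at h4
  exact h4

private theorem mo_integrable' (n : ℕ) {f : En d → F} (hf : LocallyIntegrable f) (x : En d) :
    Integrable (fun y => rho n (x - y) • f y) := by
  have h1 := mo_integrable n hf x
  have h2 := h1.comp_sub_left x
  simpa using h2

/-- `∫ ⟪ρ_n * f, g⟫ = ∫ ⟪f, ρ_n * g⟫` (Fubini, `ρ_n` is even). -/
theorem mo_adj (n : ℕ) {f g : En d → F} (hf : MemLp f 2 (volume : Measure (En d)))
    (hg : MemLp g 2 (volume : Measure (En d))) : ∫ x, ⟪mo n f x, g x⟫ = ∫ x, ⟪f x, mo n g x⟫ := by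
  have h12 : (1 : ℝ≥0∞) ≤ 2 := one_le_two
  have hfl := hf.locallyIntegrable h12
  have hgl := hg.locallyIntegrable h12
  have hnf : MemLp (fun x => ‖f x‖) 2 (volume : Measure (En d)) := hf.norm
  have hnfl := hnf.locallyIntegrable h12
  have hF : Integrable (fun q : En d × En d => rho n (q.1 - q.2) * ⟪f q.2, g q.1⟫)
      ((volume : Measure (En d)).prod volume) := by
    have hmeas : AEStronglyMeasurable
        (fun q : En d × En d => rho n (q.1 - q.2) * ⟪f q.2, g q.1⟫)
        ((volume : Measure (En d)).prod volume) := by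
      have h1 : Continuous fun q : En d × En d => rho n (q.1 - q.2) :=
        (rho_smo n).continuous.comp (continuous_fst.sub continuous_snd)
      have h2 : AEStronglyMeasurable (fun q : En d × En d => f q.2)
          ((volume : Measure (En d)).prod volume) := hf.1.comp_snd
      have h3 : AEStronglyMeasurable (fun q : En d × En d => g q.1)
          ((volume : Measure (En d)).prod volume) := hg.1.comp_fst
      exact h1.aestronglyMeasurable.mul (h2.inner h3)
    rw [integrable_prod_iff hmeas]
    refine ⟨Eventually.of_forall fun x => ?_, ?_⟩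
    · have h1 := (mo_integrable' n hfl x).inner_const (𝕜 := ℝ) (g x)
      refine h1.congr (Eventually.of_forall fun y => ?_)
      show ⟪rho n (x - y) • f y, g x⟫ = rho n (x - y) * ⟪f y, g x⟫
      rw [real_inner_smul_left]
    · have hbound : Integrable (fun x => ‖g x‖ * mo n (fun y => ‖f y‖) x)
          (volume : Measure (En d)) := by
        have h1 : MemLp (mo n fun y => ‖f y‖) 2 (volume : Measure (En d)) := mo_memLp n h12 hnf
        exact hg.norm.integrable_mul h1
      refine hbound.mono' hmeas.norm.integral_prod_right' (Eventually.of_forall fun x => ?_)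
      have h2 : 0 ≤ ∫ y, ‖rho n (x - y) * ⟪f y, g x⟫‖ := integral_nonneg fun y => norm_nonneg _
      show ‖∫ y, ‖rho n (x - y) * ⟪f y, g x⟫‖‖ ≤ ‖g x‖ * mo n (fun y => ‖f y‖) x
      rw [Real.norm_of_nonneg h2, mo_eq, ← integral_const_mul]
      have h3 : Integrable (fun y => ‖g x‖ * rho n (x - y) • ‖f y‖) (volume : Measure (En d)) :=
        (mo_integrable' n hnfl x).const_mul _
      refine integral_mono_of_nonneg (Eventually.of_forall fun y => norm_nonneg _) h3
        (Eventually.of_forall fun y => ?_)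
      show ‖rho n (x - y) * ⟪f y, g x⟫‖ ≤ ‖g x‖ * rho n (x - y) • ‖f y‖
      rw [norm_mul, Real.norm_of_nonneg (rho_nonneg n _), smul_eq_mul]
      have h4 : ‖⟪f y, g x⟫‖ ≤ ‖f y‖ * ‖g x‖ := norm_inner_le_norm _ _
      nlinarith [rho_nonneg n (x - y), mul_le_mul_of_nonneg_left h4 (rho_nonneg n (x - y))]
  have e1 : ∀ x, ⟪mo n f x, g x⟫ = ∫ y, rho n (x - y) * ⟪f y, g x⟫ := by
    intro x
    rw [mo_eq, real_inner_comm, ← integral_inner (mo_integrable' n hfl x)]
    refine integral_congr_ae (Eventually.of_forall fun y => ?_)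
    show ⟪g x, rho n (x - y) • f y⟫ = rho n (x - y) * ⟪f y, g x⟫
    rw [real_inner_smul_right, real_inner_comm]
  have e2 : ∀ y, ⟪f y, mo n g y⟫ = ∫ x, rho n (x - y) * ⟪f y, g x⟫ := by
    intro y
    rw [mo_eq, ← integral_inner (mo_integrable' n hgl y)]
    refine integral_congr_ae (Eventually.of_forall fun x => ?_)
    show ⟪f y, rho n (y - x) • g x⟫ = rho n (x - y) * ⟪f y, g x⟫
    rw [real_inner_smul_right, ← rho_even n (x - y), neg_sub]
  simp only [e1, e2]
  exact integral_integral_swap hF

/-- convergence at every point for continuous functions -/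
theorem mo_tendsto_pt {f : En d → F} (hf : Continuous f) (x : En d) :
    Tendsto (fun n => mo n f x) atTop (𝓝 (f x)) := by
  exact mo_pt hf x

end

end Pool.Agent.Lib.MP_79abb3_an.W
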