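import Pool.Agent.Lib.MP_79abb3_an.W.Mb3
import Pool.Agent.Lib.MP_79abb3_an.W.HF1
import Pool.Agent.Lib.MP_79abb3_an.W.Mol2
import Pool.Agent.Lib.MP_79abb3_an.W.SpB
import Pool.Agent.Lib.MP_79abb3_an.W.DH0
import Pool.Agent.Lib.MP_79abb3_an.W.SpC

section

/-!
Theorem W, block A: bounds and convergence of the Piola transform.
-/

set_option autoImplicit false
set_option linter.unusedSectionVars false
set_option linter.unusedVariables false

open MeasureTheory Set Filter Topology Function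
open scoped ENNReal RealInnerProductSpace

namespace Pool.Agent.Lib.MP_79abb3_an.W

section
variable {d : ℕ} {X : En d → En d}

private theorem mb4_par {F : Type} [NormedAddCommGroup F] {g : ℝ → En d → F}
    (hg : Continuous (Function.uncurry g)) {K : Set (En d)} (hK : IsCompact K)
    (h0 : ∀ ε : ℝ, ∀ x, x ∉ K → g ε x = 0) (h1 : ∀ x, g 0 x = 0) :
    Tendsto (fun ε : ℝ => ∫ x, ‖g ε x‖ ^ 2) (𝓝 0) (𝓝 0) := by
  have h2 : ∀ ε : ℝ, ∫ x, ‖g ε x‖ ^ 2 = ∫ x in K, ‖g ε x‖ ^ 2 := fun ε => by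
    refine (setIntegral_eq_integral_of_forall_compl_eq_zero fun x hx => ?_).symm
    rw [h0 ε x hx, norm_zero]
    norm_num
  have h3 : Continuous fun ε : ℝ => ∫ x in K, ‖g ε x‖ ^ 2 :=
    continuous_parametric_integral_of_continuous (f := fun (ε : ℝ) (x : En d) => ‖g ε x‖ ^ 2)
      (by
        have h := hg.norm.pow 2
        exact h) hK
  have h4 := h3.tendsto 0
  have h5 : ∫ x in K, ‖g 0 x‖ ^ 2 = 0 := by
    simp [h1]
  rw [h5] at h4
  simpa only [h2] using h4

private theorem mb4_th (ε : ℝ) {x : En d} (hx : x ∉ tsupport X) : th X ε x = x := by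
  unfold th
  rw [image_eq_zero_of_notMem_tsupport hx, smul_zero, sub_zero]

private theorem mb4_out (ε : ℝ) (v : En d → En d) {x : En d} (hx : x ∉ tsupport X) : Tp X ε v x = v x := by
  unfold Tp
  rw [mb4_th ε hx, Am_id hx]
  rfl

private theorem mb4_zero (v : En d → En d) (x : En d) : Tp X 0 v x = v x := by
  unfold Tp th
  rw [Am_zero, zero_smul, sub_zero]
  rfl

private theorem mb4_joint (hX : Smo X) {v : En d → En d} (hv : Smo v) :
    ContDiff ℝ ((⊤ : ℕ∞) : WithTop ℕ∞) fun p : ℝ × En d => Tp X p.1 v p.2 := by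
  have h1 : ContDiff ℝ ((⊤ : ℕ∞) : WithTop ℕ∞) fun p : ℝ × En d => p.2 - p.1 • X p.2 :=
    contDiff_snd.sub (contDiff_fst.smul (ContDiff.comp hX contDiff_snd))
  exact (Am_smo hX).clm_apply (ContDiff.comp hv h1)

private theorem mb4_pd (hX : Smo X) {v : En d → En d} (hv : Smo v) (i : Fin d) (ε : ℝ) (x : En d) :
    pd i (Tp X ε v) x = fderiv ℝ (fun p : ℝ × En d => Tp X p.1 v p.2) (ε, x) (0, ei i) := by
  have h1 : HasFDerivAt (fun p : ℝ × En d => Tp X p.1 v p.2)
      (fderiv ℝ (fun p : ℝ × En d => Tp X p.1 v p.2) (ε, x)) (ε, x) :=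
    ((mb4_joint hX hv).differentiable (by norm_num) (ε, x)).hasFDerivAt
  have h2 : HasFDerivAt (fun y : En d => ((ε, y) : ℝ × En d)) (ContinuousLinearMap.inr ℝ ℝ (En d)) x :=
    hasFDerivAt_prodMk_right ε x
  have h3 : HasFDerivAt (Tp X ε v) ((fderiv ℝ (fun p : ℝ × En d => Tp X p.1 v p.2) (ε, x)).comp
      (ContinuousLinearMap.inr ℝ ℝ (En d))) x := HasFDerivAt.comp x h1 h2
  show fderiv ℝ (Tp X ε v) x (ei i) = _
  rw [h3.fderiv]
  rfl

private theorem mb4_int (hX : Smo X) (hc : HasCompactSupport X) (ε : ℝ) {w : En d → En d} (hw : Continuous w)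
    (hwc : HasCompactSupport w) : Integrable fun x => ‖w (th X ε x)‖ ^ 2 := by
  have h1 : Continuous fun x => ‖w (th X ε x)‖ ^ 2 :=
    (hw.comp (ContDiff.continuous (th_smo hX ε))).norm.pow 2
  refine h1.integrable_of_hasCompactSupport
    (HasCompactSupport.intro (IsCompact.union hc hwc) fun x hx => ?_)
  rw [mem_union, not_or] at hx
  rw [mb4_th ε hx.1, image_eq_zero_of_notMem_tsupport hx.2, norm_zero]
  norm_num

/-- `L²` bound (`th_le`, `Am_near`) -/
theorem Tp_L2 (hX : Smo X) (hc : HasCompactSupport X) : ∃ ε₀ C : ℝ, 0 < ε₀ ∧ 0 ≤ C ∧ ∀ ε : ℝ, |ε| ≤ ε₀ →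
    ∀ v : En d → En d, Smo v → HasCompactSupport v →
      ∫ x, ‖Tp X ε v x‖ ^ 2 ≤ C * ∫ x, ‖v x‖ ^ 2 ∧
      ∀ i, ∫ x, ‖pd i (Tp X ε v) x‖ ^ 2 ≤ C * ((∫ x, ‖v x‖ ^ 2) + ∑ j, ∫ x, ‖pd j v x‖ ^ 2) := by
  obtain ⟨ε₀, hε₀, h1⟩ := exists_diffeo hX hc
  obtain ⟨C0, hC0, h2⟩ := Am_near hX hc
  have hfc : Continuous (fderiv ℝ X) := (ContDiff.fderiv_right (m := 0) hX (by norm_num)).continuous
  obtain ⟨B, hB⟩ := (hc.fderiv ℝ).exists_bound_of_continuous hfc
  have hB0 : 0 ≤ B := (norm_nonneg _).trans (hB 0)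
  have hei : ∀ i : Fin d, ‖(ei i : En d)‖ = 1 := fun i => by
    unfold ei
    simp
  refine ⟨min ε₀ 1, 2 * (2 * ((1 + C0) ^ 2 * (1 + B) ^ 2) * (d + 1)), lt_min hε₀ one_pos, by positivity,
    fun ε hε v hv hvc => ?_⟩
  have hε1 : |ε| ≤ ε₀ := hε.trans (min_le_left _ _)
  have hε2 : |ε| ≤ 1 := hε.trans (min_le_right _ _)
  obtain ⟨hdet, Ψ, hΨ, hΨ1, hΨ2⟩ := h1 ε hε1
  have hle : ∀ w : En d → En d, Continuous w → HasCompactSupport w →
      ∫ x, ‖w (th X ε x)‖ ^ 2 ≤ 2 * ∫ x, ‖w x‖ ^ 2 := fun w hw hwc =>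
    th_le hX (fun x => (hdet x).1) hΨ1 hΨ2 (f := fun x => ‖w x‖ ^ 2) (fun x => by positivity)
      ((hw.norm.pow 2).integrable_of_hasCompactSupport (by
        refine HasCompactSupport.intro hwc fun x hx => ?_
        rw [Pi.pow_apply, image_eq_zero_of_notMem_tsupport hx, norm_zero]
        norm_num))
  have hA : ∀ x, ‖Am X ε x‖ ≤ 1 + C0 := fun x => by
    have h3 := (h2 ε hε2 x).1
    have h4 : ‖Am X ε x‖ ≤ ‖Am X ε x - ContinuousLinearMap.id ℝ (En d)‖ +
        ‖ContinuousLinearMap.id ℝ (En d)‖ := by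
      have := norm_add_le (Am X ε x - ContinuousLinearMap.id ℝ (En d)) (ContinuousLinearMap.id ℝ (En d))
      rwa [sub_add_cancel] at this
    have h5 : ‖ContinuousLinearMap.id ℝ (En d)‖ ≤ 1 := ContinuousLinearMap.norm_id_le
    have h6 : C0 * |ε| ≤ C0 * 1 := mul_le_mul_of_nonneg_left hε2 hC0
    linarith
  have hdA : ∀ i x, ‖fderiv ℝ (Am X ε) x (ei i)‖ ≤ 1 + C0 := fun i x => by
    have h3 := (h2 ε hε2 x).2 i
    have h6 : C0 * |ε| ≤ C0 * 1 := mul_le_mul_of_nonneg_left hε2 hC0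
    linarith
  have hT : ∀ i x j, |pd i (th X ε) x j| ≤ 1 + B := fun i x j => by
    have h3 : pd i (th X ε) x = ei i - ε • pd i X x := by
      show fderiv ℝ (th X ε) x (ei i) = _
      rw [th_fderiv hX]
      rfl
    have h4 : |pd i (th X ε) x j| ≤ ‖pd i (th X ε) x‖ := by
      rw [← Real.norm_eq_abs]
      exact PiLp.norm_apply_le _ j
    have h5 : ‖pd i X x‖ ≤ B := by
      have h6 : ‖fderiv ℝ X x (ei i)‖ ≤ ‖fderiv ℝ X x‖ * ‖(ei i : En d)‖ := (fderiv ℝ X x).le_opNorm _
      rw [hei, mul_one] at h6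
      exact h6.trans (hB x)
    have h6 : ‖pd i (th X ε) x‖ ≤ 1 + B := by
      rw [h3]
      refine (norm_sub_le _ _).trans ?_
      rw [hei, norm_smul, Real.norm_eq_abs]
      have h7 : |ε| * ‖pd i X x‖ ≤ 1 * B := mul_le_mul hε2 h5 (norm_nonneg _) zero_le_one
      linarith
    exact h4.trans h6
  have hd0 : (0 : ℝ) ≤ d := Nat.cast_nonneg d
  constructor
  · have h3 : ∫ x, ‖Tp X ε v x‖ ^ 2 ≤ ∫ x, (1 + C0) ^ 2 * ‖v (th X ε x)‖ ^ 2 := by
      refine integral_mono_of_nonneg (Eventually.of_forall fun x => by positivity)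
        ((mb4_int hX hc ε (ContDiff.continuous hv) hvc).const_mul _) (Eventually.of_forall fun x => ?_)
      show ‖Am X ε x (v (th X ε x))‖ ^ 2 ≤ (1 + C0) ^ 2 * ‖v (th X ε x)‖ ^ 2
      rw [← mul_pow]
      exact pow_le_pow_left₀ (norm_nonneg _) (((Am X ε x).le_opNorm _).trans
        (mul_le_mul_of_nonneg_right (hA x) (norm_nonneg _))) 2
    rw [integral_const_mul] at h3
    have h4 := hle v (ContDiff.continuous hv) hvc
    have h5 : (0 : ℝ) ≤ ∫ x, ‖v x‖ ^ 2 := integral_nonneg fun x => by positivity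
    have h6 : (1 : ℝ) ≤ (1 + B) ^ 2 := one_le_pow₀ (by linarith)
    have h7 : (0 : ℝ) ≤ (1 + C0) ^ 2 := by positivity
    have h8 : (1 + C0) ^ 2 ≤ (1 + C0) ^ 2 * (1 + B) ^ 2 := le_mul_of_one_le_right h7 h6
    have h9 : (1 + C0) ^ 2 * (1 + B) ^ 2 ≤ 2 * ((1 + C0) ^ 2 * (1 + B) ^ 2) * (d + 1) := by
      nlinarith [mul_nonneg (mul_nonneg h7 (by positivity : (0:ℝ) ≤ (1 + B) ^ 2)) hd0]
    calc ∫ x, ‖Tp X ε v x‖ ^ 2 ≤ (1 + C0) ^ 2 * ∫ x, ‖v (th X ε x)‖ ^ 2 := h3
      _ ≤ (1 + C0) ^ 2 * (2 * ∫ x, ‖v x‖ ^ 2) := mul_le_mul_of_nonneg_left h4 h7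
      _ = (1 + C0) ^ 2 * (2 * ∫ x, ‖v x‖ ^ 2) := rfl
      _ ≤ (2 * ((1 + C0) ^ 2 * (1 + B) ^ 2) * (d + 1)) * (2 * ∫ x, ‖v x‖ ^ 2) :=
          mul_le_mul_of_nonneg_right (h8.trans h9) (by positivity)
      _ = _ := by ring
  · intro i
    set K : ℝ := 2 * ((1 + C0) ^ 2 * (1 + B) ^ 2) * (d + 1) with hK
    have hK0 : 0 ≤ K := by positivity
    have hint : Integrable fun x => ‖v (th X ε x)‖ ^ 2 + ∑ j, ‖pd j v (th X ε x)‖ ^ 2 :=
      (mb4_int hX hc ε (ContDiff.continuous hv) hvc).add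
        (integrable_finsetSum _ fun j _ => mb4_int hX hc ε (ContDiff.continuous (hv.pd j)) (hcs_pd hvc j))
    have h3 : ∫ x, ‖pd i (Tp X ε v) x‖ ^ 2 ≤
        ∫ x, K * (‖v (th X ε x)‖ ^ 2 + ∑ j, ‖pd j v (th X ε x)‖ ^ 2) := by
      refine integral_mono_of_nonneg (Eventually.of_forall fun x => by positivity)
        (hint.const_mul _) (Eventually.of_forall fun x => ?_)
      show ‖pd i (Tp X ε v) x‖ ^ 2 ≤ K * (‖v (th X ε x)‖ ^ 2 + ∑ j, ‖pd j v (th X ε x)‖ ^ 2)
      set a : ℝ := ‖v (th X ε x)‖ with ha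
      set b : Fin d → ℝ := fun j => ‖pd j v (th X ε x)‖ with hb
      have ha0 : 0 ≤ a := norm_nonneg _
      have hb0 : ∀ j, 0 ≤ b j := fun j => norm_nonneg _
      have hs0 : 0 ≤ ∑ j, b j := Finset.sum_nonneg fun j _ => hb0 j
      have e1 : ‖pd i (Tp X ε v) x‖ ≤ (1 + C0) * (1 + B) * (a + ∑ j, b j) := by
        rw [Tp_pd hX ε hv i x]
        refine (norm_add_le _ _).trans ?_
        have e2 : ‖fderiv ℝ (Am X ε) x (ei i) (v (th X ε x))‖ ≤ (1 + C0) * a :=
          (ContinuousLinearMap.le_opNorm _ _).trans (mul_le_mul_of_nonneg_right (hdA i x) ha0)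
        have e3 : ‖∑ j, pd i (th X ε) x j • pd j v (th X ε x)‖ ≤ (1 + B) * ∑ j, b j := by
          refine (norm_sum_le _ _).trans ?_
          rw [Finset.mul_sum]
          refine Finset.sum_le_sum fun j _ => ?_
          rw [norm_smul, Real.norm_eq_abs]
          exact mul_le_mul_of_nonneg_right (hT i x j) (hb0 j)
        have e4 : ‖Am X ε x (∑ j, pd i (th X ε) x j • pd j v (th X ε x))‖ ≤
            (1 + C0) * ((1 + B) * ∑ j, b j) :=
          (ContinuousLinearMap.le_opNorm _ _).trans (mul_le_mul (hA x) e3 (norm_nonneg _) (by linarith))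
        have e5 : (1 + C0) * a ≤ (1 + C0) * (1 + B) * a := by
          have : (0 : ℝ) ≤ (1 + C0) * B * a := by positivity
          nlinarith
        nlinarith
      have e6 : (a + ∑ j, b j) ^ 2 ≤ 2 * (d + 1) * (a ^ 2 + ∑ j, b j ^ 2) := by
        have e7 : (∑ j, b j) ^ 2 ≤ d * ∑ j, b j ^ 2 := by
          have := sq_sum_le_card_mul_sum_sq (s := (Finset.univ : Finset (Fin d))) (f := b)
          simpa using this
        have e8 : (a + ∑ j, b j) ^ 2 ≤ 2 * (a ^ 2 + (∑ j, b j) ^ 2) := add_sq_le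
        have e9 : 0 ≤ ∑ j, b j ^ 2 := Finset.sum_nonneg fun j _ => by positivity
        nlinarith [mul_nonneg hd0 (sq_nonneg a)]
      calc ‖pd i (Tp X ε v) x‖ ^ 2 ≤ ((1 + C0) * (1 + B) * (a + ∑ j, b j)) ^ 2 :=
            pow_le_pow_left₀ (norm_nonneg _) e1 2
        _ = (1 + C0) ^ 2 * (1 + B) ^ 2 * (a + ∑ j, b j) ^ 2 := by ring
        _ ≤ (1 + C0) ^ 2 * (1 + B) ^ 2 * (2 * (d + 1) * (a ^ 2 + ∑ j, b j ^ 2)) :=
            mul_le_mul_of_nonneg_left e6 (by positivity)
        _ = K * (a ^ 2 + ∑ j, b j ^ 2) := by rw [hK]; ring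
    refine h3.trans ?_
    rw [integral_const_mul, integral_add (mb4_int hX hc ε (ContDiff.continuous hv) hvc)
      (integrable_finsetSum _ fun j _ => mb4_int hX hc ε (ContDiff.continuous (hv.pd j)) (hcs_pd hvc j)),
      integral_finsetSum _ fun j _ => mb4_int hX hc ε (ContDiff.continuous (hv.pd j)) (hcs_pd hvc j)]
    have h4 := hle v (ContDiff.continuous hv) hvc
    have h5 : ∑ j, ∫ x, ‖pd j v (th X ε x)‖ ^ 2 ≤ 2 * ∑ j, ∫ x, ‖pd j v x‖ ^ 2 := by
      rw [Finset.mul_sum]
      exact Finset.sum_le_sum fun j _ => hle (pd j v) (ContDiff.continuous (hv.pd j)) (hcs_pd hvc j)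
    calc K * ((∫ x, ‖v (th X ε x)‖ ^ 2) + ∑ j, ∫ x, ‖pd j v (th X ε x)‖ ^ 2)
        ≤ K * (2 * (∫ x, ‖v x‖ ^ 2) + 2 * ∑ j, ∫ x, ‖pd j v x‖ ^ 2) :=
          mul_le_mul_of_nonneg_left (add_le_add h4 h5) hK0
      _ = _ := by ring

/-- convergence as `ε → 0` for a fixed smooth field (uniform convergence of the field and of its first derivatives, the
supports stay in a fixed compact set) -/
theorem Tp_tendsto (hX : Smo X) (hc : HasCompactSupport X) {v : En d → En d} (hv : Smo v)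
    (hvc : HasCompactSupport v) :
    Tendsto (fun ε : ℝ => ∫ x, ‖Tp X ε v x - v x‖ ^ 2) (𝓝 0) (𝓝 0) ∧
    ∀ i, Tendsto (fun ε : ℝ => ∫ x, ‖pd i (Tp X ε v) x - pd i v x‖ ^ 2) (𝓝 0) (𝓝 0) := by
  constructor
  · refine mb4_par (g := fun (ε : ℝ) (x : En d) => Tp X ε v x - v x) ?_ hc (fun ε x hx => ?_) fun x => ?_
    · exact ((mb4_joint hX hv).continuous).sub ((ContDiff.continuous hv).comp continuous_snd)
    · show Tp X ε v x - v x = 0
      rw [mb4_out ε v hx, sub_self]
    · show Tp X 0 v x - v x = 0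
      rw [mb4_zero, sub_self]
  · intro i
    refine mb4_par (g := fun (ε : ℝ) (x : En d) => pd i (Tp X ε v) x - pd i v x) ?_ hc (fun ε x hx => ?_)
      fun x => ?_
    · have h1 : Continuous fun p : ℝ × En d => fderiv ℝ (fun p : ℝ × En d => Tp X p.1 v p.2) p (0, ei i) :=
        ((mb4_joint hX hv).continuous_fderiv (by norm_num)).clm_apply continuous_const
      have h2 : Continuous fun p : ℝ × En d => fderiv ℝ (fun p : ℝ × En d => Tp X p.1 v p.2) p (0, ei i) -
          pd i v p.2 := h1.sub ((ContDiff.continuous (hv.pd i)).comp continuous_snd)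
      refine h2.congr fun p => ?_
      show _ = pd i (Tp X p.1 v) p.2 - pd i v p.2
      rw [mb4_pd hX hv]
    · show pd i (Tp X ε v) x - pd i v x = 0
      have h1 : Tp X ε v =ᶠ[𝓝 x] v := by
        filter_upwards [(isClosed_tsupport X).isOpen_compl.mem_nhds hx] with y hy
        exact mb4_out ε v hy
      have h2 : pd i (Tp X ε v) x = pd i v x := by
        show fderiv ℝ (Tp X ε v) x (ei i) = fderiv ℝ v x (ei i)
        rw [h1.fderiv_eq]
      rw [h2, sub_self]
    · show pd i (Tp X 0 v) x - pd i v x = 0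
      have h1 : Tp X 0 v = v := funext (mb4_zero v)
      rw [h1, sub_self]

end

end Pool.Agent.Lib.MP_79abb3_an.W
end

section

/-!
Theorem W, block A: density of the test fields: pushing into the domain.
-/

set_option autoImplicit false
set_option linter.unusedSectionVars false

open MeasureTheory Set Filter Topology Function
open scoped ENNReal RealInnerProductSpace

namespace Pool.Agent.Lib.MP_79abb3_an.W

section
variable {d : ℕ} {D : Set (En d)} {z : En d → ℝ} {δ : ℝ}

/-- The pushing field `χ(z) ∇z`: smooth, compactly supported, and `z (x - ε X x) = z x - ε χ(z x)`, where `χ = 1` on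
`[-2δ, 2δ]`, `0 ≤ χ ≤ 1`, `χ = 0` outside of `[-3δ, 3δ]` (`Dom.normal`, `Dom.cpt_near`). -/
theorem exists_push (h : Dom D z δ) : ∃ (X : En d → En d) (χ : ℝ → ℝ), Smo X ∧ HasCompactSupport X ∧
    (∀ s, 0 ≤ χ s ∧ χ s ≤ 1) ∧ (∀ s, |s| ≤ 2 * δ → χ s = 1) ∧
    ∀ ε x, 0 ≤ ε → ε < δ → z (x - ε • X x) = z x - ε * χ (z x) := by
  have hδ := h.δ0
  let χ : ContDiffBump (0 : ℝ) := ⟨2 * δ, 3 * δ, by linarith, by linarith⟩
  have hz : Smo z := h.smo
  have hχs : ContDiff ℝ ((⊤ : ℕ∞) : WithTop ℕ∞) fun s : ℝ => χ s := χ.contDiff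
  have hχz : Smo fun x => χ (z x) := hχs.comp hz
  have hχ0 : ∀ s, 3 * δ ≤ |s| → χ s = 0 := fun s hs => by
    refine χ.zero_of_le_dist ?_
    rw [Real.dist_eq, sub_zero]
    exact hs
  refine ⟨fun x => χ (z x) • gradient z x, fun s => χ s, ContDiff.smul hχz h.smo.gradient, ?_, ?_, ?_, ?_⟩
  · refine HasCompactSupport.intro (h.cpt_near (r := 3 * δ) (by linarith)) fun x hx => ?_
    have h1 : 3 * δ ≤ |z x| := (not_le.1 hx).le
    show χ (z x) • gradient z x = 0
    rw [hχ0 _ h1, zero_smul]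
  · exact fun s => ⟨χ.nonneg, χ.le_one⟩
  · intro s hs
    refine χ.one_of_mem_closedBall ?_
    rw [Metric.mem_closedBall, Real.dist_eq, sub_zero]
    exact hs
  · intro ε x hε hεδ
    show z (x - ε • χ (z x) • gradient z x) = z x - ε * χ (z x)
    rcases le_or_gt (3 * δ) |z x| with h1 | h1
    · rw [hχ0 _ h1, zero_smul, smul_zero, sub_zero, mul_zero, sub_zero]
    · have h2 : 0 ≤ ε * χ (z x) := mul_nonneg hε χ.nonneg
      have h3 : ε * χ (z x) ≤ ε * 1 := mul_le_mul_of_nonneg_left χ.le_one hε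
      have h4 : |z x + -(ε * χ (z x))| < 4 * δ := by
        rw [abs_lt] at h1 ⊢
        constructor <;> linarith [h1.1, h1.2]
      have h5 := (h.normal (x := x) (r := -(ε * χ (z x))) (by linarith) h4).1
      rw [smul_smul, sub_eq_add_neg, ← neg_smul, h5, sub_eq_add_neg]

/-- supports: a field which vanishes for `z ≤ -η` is pushed into `{z ≥ ε - η}` -/
theorem push_supp (h : Dom D z δ) {X : En d → En d} {χ : ℝ → ℝ} (hχ : ∀ s, 0 ≤ χ s ∧ χ s ≤ 1)
    (hχ1 : ∀ s, |s| ≤ 2 * δ → χ s = 1) {ε η : ℝ} (hη : 0 < η) (hηε : η < ε) (hε : ε < δ)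
    (hX : ∀ x, z (x - ε • X x) = z x - ε * χ (z x)) {v : En d → En d} (hv : ∀ y, z y ≤ -η → v y = 0) {x : En d}
    (hx : Tp X ε v x ≠ 0) : ε - η ≤ z x := by
  have hδ := h.δ0
  have h1 : v (th X ε x) ≠ 0 := by
    intro h2
    apply hx
    show Am X ε x (v (th X ε x)) = 0
    rw [h2, map_zero]
  have h2 : -η < z (th X ε x) := by
    by_contra h3
    exact h1 (hv _ (not_lt.1 h3))
  have h3 : z (th X ε x) = z x - ε * χ (z x) := hX x
  rw [h3] at h2
  have hε0 : 0 < ε := hη.trans hηε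
  have h4 : 0 ≤ ε * χ (z x) := mul_nonneg hε0.le (hχ _).1
  rcases le_or_gt |z x| (2 * δ) with h5 | h5
  · rw [hχ1 _ h5] at h2
    linarith
  · rcases lt_abs.1 h5 with h6 | h6
    · linarith
    · linarith

/-- the mollification of a field which vanishes outside of `D` vanishes for `z ≤ -η` if `n` is large (the compact set
`closure D` and the closed set `{z ≤ -η}` are disjoint) -/
theorem mo_zero_off (h : Dom D z δ) {η : ℝ} (hη : 0 < η) : ∃ n₀ : ℕ, ∀ n ≥ n₀, ∀ u : En d → En d,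
    (∀ᵐ x, x ∉ D → u x = 0) → ∀ y, z y ≤ -η → mo n u y = 0 := by
  have hcl : IsCompact (closure D) := h.bdd.isCompact_closure
  have hcz : IsClosed {y | z y ≤ -η} := isClosed_le h.cont continuous_const
  have hdis : Disjoint (closure D) {y | z y ≤ -η} := by
    rw [Set.disjoint_left]
    intro y hy hy2
    have h1 := (h.closure_iff y).1 hy
    have h2 : z y ≤ -η := hy2
    linarith
  obtain ⟨r, hr, hr2⟩ := Metric.exists_pos_forall_lt_edist hcl hcz hdis
  obtain ⟨n₀, hn₀⟩ := exists_nat_one_div_lt (K := ℝ) (ε := (r : ℝ)) (by exact_mod_cast hr)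
  refine ⟨n₀, fun n hn u hu y hy => mo_supp n hu fun x hx => ?_⟩
  have h1 := hr2 x (subset_closure hx) y hy
  rw [edist_comm, edist_nndist, ENNReal.coe_lt_coe] at h1
  have h2 : (r : ℝ) < dist y x := by
    rw [← coe_nndist]
    exact_mod_cast h1
  have h3 : 1 / ((n : ℝ) + 1) ≤ 1 / ((n₀ : ℝ) + 1) := Nat.one_div_le_one_div hn
  linarith

/-- the mollification of a weakly divergence free field is divergence free -/
theorem mo_div (n : ℕ) {u : L2E d} (hu : ∀ q : En d → ℝ, Smo q → HasCompactSupport q → ⟪u, cl (gd q)⟫ = 0)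
    (x : En d) : dv (mo n (u : En d → En d)) x = 0 := by
  have hf : LocallyIntegrable (u : En d → En d) volume := (Lp.memLp u).locallyIntegrable one_le_two
  set f : En d → En d := (u : En d → En d) with hfdef
  have h1 : HasFDerivAt (mo n f) (convolution (fderiv ℝ (rho n)) f
      ((ContinuousLinearMap.lsmul ℝ ℝ).precompL (En d)) volume x) x := by
    rw [mo_conv]
    exact (rho_hcs n).hasFDerivAt_convolution_left _ ((rho_smo n).of_le (by exact_mod_cast le_top))
      hf x
  have hfd : Continuous (fderiv ℝ (rho n : En d → ℝ)) :=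
    (ContDiff.fderiv_right (m := 0) (rho_smo n) (by norm_num)).continuous
  have h2 : ConvolutionExistsAt (fderiv ℝ (rho n)) f x
      ((ContinuousLinearMap.lsmul ℝ ℝ).precompL (En d)) (volume : Measure (En d)) :=
    ((rho_hcs n).fderiv ℝ).convolutionExists_left _ hfd hf x
  have hci : ∀ i, Integrable fun y => pd i (rho n) (x - y) • f y := by
    intro i
    have hc : Continuous fun y : En d => pd i (rho n) (x - y) :=
      ((rho_smo n).pd i).continuous.comp (continuous_const.sub continuous_id)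
    have hcs : HasCompactSupport fun y : En d => pd i (rho n) (x - y) := by
      have h5 : Topology.IsClosedEmbedding fun y : En d => x - y :=
        (Homeomorph.subLeft x).isClosedEmbedding
      exact (hcs_pd (rho_hcs n) i).comp_isClosedEmbedding h5
    exact hf.integrable_smul_left_of_hasCompactSupport hc hcs
  have h4 : ∀ i, pd i (mo n f) x = ∫ y, pd i (rho n) (x - y) • f y := by
    intro i
    show fderiv ℝ (mo n f) x (ei i) = _
    rw [h1.fderiv, convolution_def, ContinuousLinearMap.integral_apply h2]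
    have h3 : ∀ y, (((ContinuousLinearMap.lsmul ℝ ℝ).precompL (En d)) (fderiv ℝ (rho n) y)
        (f (x - y))) (ei i) = pd i (rho n) y • f (x - y) := fun y => rfl
    simp only [h3]
    have h := integral_sub_left_eq_self (fun y => pd i (rho n) (x - y) • f y)
      (volume : Measure (En d)) x
    rw [← h]
    simp only [sub_sub_cancel]
  set ψ : En d → ℝ := fun y => rho n (x - y) with hψ
  have hψs : Smo ψ := ContDiff.comp (rho_smo n) (contDiff_const.sub contDiff_id)
  have hψc : HasCompactSupport ψ := by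
    have h5 : Topology.IsClosedEmbedding fun y : En d => x - y :=
      (Homeomorph.subLeft x).isClosedEmbedding
    exact (rho_hcs n).comp_isClosedEmbedding h5
  have hpd : ∀ i y, pd i ψ y = -pd i (rho n) (x - y) := by
    intro i y
    have h6 : HasFDerivAt ψ ((fderiv ℝ (rho n) (x - y)).comp
        (-ContinuousLinearMap.id ℝ (En d))) y := by
      have h7 : HasFDerivAt (fun y : En d => x - y) (-ContinuousLinearMap.id ℝ (En d)) y :=
        (hasFDerivAt_id y).const_sub x
      exact ((rho_smo n).differentiable (x - y)).hasFDerivAt.comp y h7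
    show fderiv ℝ ψ y (ei i) = _
    rw [h6.fderiv]
    simp [pd]
  have hte : IsTe (univ : Set (En d)) ψ := ⟨hψs, hψc, subset_univ _⟩
  have h8 := hu ψ hψs hψc
  rw [inner_cl u (hte.gd.memLp 2)] at h8
  have h9 : ∀ i, pd i (mo n f) x i = ∫ y, pd i (rho n) (x - y) * f y i := by
    intro i
    rw [h4 i]
    exact ((EuclideanSpace.proj i : En d →L[ℝ] ℝ).integral_comp_comm (hci i)).symm
  have h10 : ∀ i, Integrable fun y => pd i (rho n) (x - y) * f y i := fun i =>
    (EuclideanSpace.proj i : En d →L[ℝ] ℝ).integrable_comp (hci i)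
  show ∑ i, pd i (mo n f) x i = 0
  rw [Finset.sum_congr rfl fun i _ => h9 i, ← integral_finsetSum _ fun i _ => h10 i]
  have h11 : ∀ y, ∑ i, pd i (rho n) (x - y) * f y i = -⟪f y, gd ψ y⟫ := by
    intro y
    rw [PiLp.inner_apply, ← Finset.sum_neg_distrib]
    refine Finset.sum_congr rfl fun i _ => ?_
    rw [gd_apply, hpd]
    simp
  simp only [h11, integral_neg]
  rw [h8, neg_zero]

private theorem mb5_cl_sub {f g : En d → En d} (hf : MemLp f 2 (volume : Measure (En d)))
    (hg : MemLp g 2 (volume : Measure (En d))) : cl (fun x => f x - g x) = cl f - cl g := by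
  have h : MemLp (fun x => f x - g x) 2 (volume : Measure (En d)) := hf.sub hg
  rw [cl_eq hf, cl_eq hg, cl_eq h]
  rfl

private theorem mb5_mem {f : En d → En d} (hf : Smo f) (hc : HasCompactSupport f) :
    MemLp f 2 (volume : Measure (En d)) :=
  hf.continuous.memLp_of_hasCompactSupport hc

private theorem mb5_memsub {f g : En d → En d} (hf : Smo f) (hfc : HasCompactSupport f) (hg : Smo g)
    (hgc : HasCompactSupport g) : MemLp (fun x => f x - g x) 2 (volume : Measure (En d)) :=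
  (mb5_mem hf hfc).sub (mb5_mem hg hgc)

private theorem mb5_pd_sub {f g : En d → En d} (hf : Smo f) (hg : Smo g) (i : Fin d) :
    pd i (fun x => f x - g x) = fun x => pd i f x - pd i g x := by
  ext1 x
  show fderiv ℝ (fun x => f x - g x) x (ei i) = _
  rw [fderiv_fun_sub (hf.differentiable x) (hg.differentiable x)]
  rfl

private theorem mb5_mo_tendsto (u : L2E d) : Tendsto (fun n => cl (mo n (u : En d → En d))) atTop (𝓝 u) := by
  have h1 : ∀ n, MemLp (mo n (u : En d → En d)) 2 (volume : Measure (En d)) := fun n =>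
    mo_memLp n one_le_two (Lp.memLp u)
  have h2 := mo_tendsto (p := 2) one_le_two (by norm_num) (Lp.memLp u)
  rw [Lp.tendsto_Lp_iff_tendsto_eLpNorm']
  refine h2.congr fun n => ?_
  refine eLpNorm_congr_ae ?_
  filter_upwards [cl_coe (h1 n)] with x hx
  rw [Pi.sub_apply, hx]

/-- weak derivatives, tested with scalar functions -/
private theorem mb5_weak {u g : L2E d} (i : Fin d)
    (hg : ∀ ψ : En d → En d, Smo ψ → HasCompactSupport ψ → ⟪u, cl (pd i ψ)⟫ = -⟪g, cl ψ⟫)
    {ψ : En d → ℝ} (hψ : Smo ψ) (hc : HasCompactSupport ψ) :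
    ∫ x, pd i ψ x • (u : En d → En d) x = -∫ x, ψ x • (g : En d → En d) x := by
  have hul : LocallyIntegrable (u : En d → En d) volume := (Lp.memLp u).locallyIntegrable one_le_two
  have hgl : LocallyIntegrable (g : En d → En d) volume := (Lp.memLp g).locallyIntegrable one_le_two
  have i1 : Integrable fun x => pd i ψ x • (u : En d → En d) x :=
    hul.integrable_smul_left_of_hasCompactSupport (hψ.pd i).continuous (hcs_pd hc i)
  have i2 : Integrable fun x => ψ x • (g : En d → En d) x :=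
    hgl.integrable_smul_left_of_hasCompactSupport hψ.continuous hc
  refine ext_inner_left ℝ fun e => ?_
  rw [inner_neg_right, ← integral_inner i1, ← integral_inner i2]
  have hs : Smo fun x => ψ x • e := ContDiff.smul hψ contDiff_const
  have hsc : HasCompactSupport fun x => ψ x • e := hc.smul_right
  have h1 := hg _ hs hsc
  rw [inner_cl u (mb5_mem (hs.pd i) (hcs_pd hsc i)), inner_cl g (mb5_mem hs hsc)] at h1
  have h2 : ∀ x, pd i (fun x => ψ x • e) x = pd i ψ x • e := by
    intro x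
    rw [pd_fsmul hψ contDiff_const]
    show pd i ψ x • e + ψ x • fderiv ℝ (fun _ : En d => e) x (ei i) = _
    rw [fderiv_const_apply]
    show pd i ψ x • e + ψ x • (0 : En d) = _
    rw [smul_zero, add_zero]
  simp only [h2] at h1
  have e1 : ∀ x, ⟪e, pd i ψ x • (u : En d → En d) x⟫ = ⟪(u : En d → En d) x, pd i ψ x • e⟫ := fun x => by
    rw [real_inner_smul_right, real_inner_smul_right, real_inner_comm]
  have e2 : ∀ x, ⟪e, ψ x • (g : En d → En d) x⟫ = ⟪(g : En d → En d) x, ψ x • e⟫ := fun x => by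
    rw [real_inner_smul_right, real_inner_smul_right, real_inner_comm]
  simp only [e1, e2]
  exact h1

private theorem mb5_sqle {a b : ℝ} (ha : 0 ≤ a) (hb : 0 ≤ b) (h : a ^ 2 ≤ b ^ 2) : a ≤ b :=
  (pow_le_pow_iff_left₀ ha hb two_ne_zero).1 h

private theorem mb5_core (h : Dom D z δ) {u : L2E d} (h0 : ∀ᵐ x, x ∉ D → (u : En d → En d) x = 0)
    (hu : ∀ q : En d → ℝ, Smo q → HasCompactSupport q → ⟪u, cl (gd q)⟫ = 0) (g : Fin d → L2E d) (P : Prop)
    (hg : P → ∀ i, ∀ ψ : En d → En d, Smo ψ → HasCompactSupport ψ → ⟪u, cl (pd i ψ)⟫ = -⟪g i, cl ψ⟫)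
    {κ : ℝ} (hκ : 0 < κ) : ∃ w : En d → En d, IsTs D w ∧ ‖cl w - u‖ < κ ∧ (P → ∀ i, ‖cl (pd i w) - g i‖ < κ) := by
  have hδ := h.δ0
  obtain ⟨X, χ, hX, hXc, hχ, hχ1, hXz⟩ := exists_push h
  obtain ⟨ε₀, hε₀, hdiff⟩ := exists_diffeo hX hXc
  obtain ⟨ε₁, C, hε₁, hC, hL2⟩ := Tp_L2 hX hXc
  have hul : LocallyIntegrable (u : En d → En d) volume := (Lp.memLp u).locallyIntegrable one_le_two
  have hgl : ∀ i, LocallyIntegrable (g i : En d → En d) volume := fun i =>
    (Lp.memLp (g i)).locallyIntegrable one_le_two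
  have hs : ∀ n, Smo (mo n (u : En d → En d)) := fun n => mo_smo n hul
  have hcs : ∀ n, HasCompactSupport (mo n (u : En d → En d)) := fun n => mo_cpt n h0 h.bdd
  -- the constants
  obtain ⟨L, hL⟩ : ∃ L : ℝ, L = Real.sqrt (C * (d + 1)) := ⟨_, rfl⟩
  have hd0 : (0 : ℝ) ≤ d := Nat.cast_nonneg d
  have hL0 : 0 ≤ L := by rw [hL]; exact Real.sqrt_nonneg _
  have hLsq : L ^ 2 = C * (d + 1) := by rw [hL]; exact Real.sq_sqrt (by positivity)
  obtain ⟨κ', hκ'⟩ : ∃ κ' : ℝ, κ' = κ / (2 * L + 3) := ⟨_, rfl⟩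
  have hκ0 : 0 < κ' := by rw [hκ']; positivity
  have hκκ : (2 * L + 3) * κ' = κ := by rw [hκ']; field_simp
  have hm1 : ∀ᶠ n : ℕ in atTop, ‖cl (mo n (u : En d → En d)) - u‖ < κ' := by
    have h1 := (mb5_mo_tendsto u).sub_const u
    rw [sub_self] at h1
    have h2 := h1.norm
    rw [norm_zero] at h2
    exact h2.eventually (gt_mem_nhds hκ0)
  have hm2 : ∀ᶠ n : ℕ in atTop, ∀ i, ‖cl (mo n (g i : En d → En d)) - g i‖ < κ' := by
    refine eventually_all.2 fun i => ?_
    have h1 := (mb5_mo_tendsto (g i)).sub_const (g i)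
    rw [sub_self] at h1
    have h2 := h1.norm
    rw [norm_zero] at h2
    exact h2.eventually (gt_mem_nhds hκ0)
  obtain ⟨m, hm⟩ := (hm1.and hm2).exists_forall_of_atTop
  obtain ⟨ht1, ht2⟩ := Tp_tendsto hX hXc (hs m) (hcs m)
  have hκ2 : (0 : ℝ) < κ' ^ 2 := by positivity
  have he1 : ∀ᶠ ε : ℝ in 𝓝 0, ∫ x, ‖Tp X ε (mo m (u : En d → En d)) x - mo m (u : En d → En d) x‖ ^ 2 < κ' ^ 2 :=
    ht1.eventually (gt_mem_nhds hκ2)
  have he2 : ∀ᶠ ε : ℝ in 𝓝 0, ∀ i, ∫ x, ‖pd i (Tp X ε (mo m (u : En d → En d))) x -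
      pd i (mo m (u : En d → En d)) x‖ ^ 2 < κ' ^ 2 :=
    eventually_all.2 fun i => (ht2 i).eventually (gt_mem_nhds hκ2)
  have he3 : ∀ᶠ ε : ℝ in 𝓝[>] 0, ε < min ε₀ (min ε₁ δ) := by
    have h1 : (0 : ℝ) < min ε₀ (min ε₁ δ) := lt_min hε₀ (lt_min hε₁ hδ)
    exact nhdsWithin_le_nhds (gt_mem_nhds h1)
  obtain ⟨ε, ⟨⟨he1, he2⟩, he3⟩, hεpos⟩ :=
    ((((he1.and he2).filter_mono nhdsWithin_le_nhds).and he3).and self_mem_nhdsWithin).exists
  have hε : 0 < ε := hεpos
  have hεa : ε < ε₀ := he3.trans_le (min_le_left _ _)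
  have hεb : ε < ε₁ := he3.trans_le ((min_le_right _ _).trans (min_le_left _ _))
  have hεc : ε < δ := he3.trans_le ((min_le_right _ _).trans (min_le_right _ _))
  obtain ⟨hdet, Ψ, hΨ, hΨ1, hΨ2⟩ := hdiff ε (by rw [abs_of_pos hε]; exact hεa.le)
  obtain ⟨n₀, hn₀⟩ := mo_zero_off h (η := ε / 2) (by linarith)
  obtain ⟨n, hnm, hnn⟩ : ∃ n, m ≤ n ∧ n₀ ≤ n := ⟨max m n₀, le_max_left _ _, le_max_right _ _⟩
  have hmm := hm m le_rfl
  have hmn := hm n hnm
  obtain ⟨φ, hφ⟩ : ∃ φ, φ = mo m (u : En d → En d) := ⟨_, rfl⟩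
  obtain ⟨ω, hω⟩ : ∃ ω, ω = mo n (u : En d → En d) := ⟨_, rfl⟩
  have hφs : Smo φ := by rw [hφ]; exact hs m
  have hφc : HasCompactSupport φ := by rw [hφ]; exact hcs m
  have hωs : Smo ω := by rw [hω]; exact hs n
  have hωc : HasCompactSupport ω := by rw [hω]; exact hcs n
  have hzero : ∀ y, z y ≤ -(ε / 2) → ω y = 0 := by rw [hω]; exact hn₀ n hnn _ h0
  have hdiv : ∀ x, dv ω x = 0 := by rw [hω]; exact mo_div n hu
  rw [← hφ] at he1 he2 hmm
  rw [← hω] at hmn
  have hwts : IsTs D (Tp X ε ω) := by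
    refine ⟨⟨Tp_smo hX ε hωs, Tp_hcs hXc ε hωc, ?_⟩, fun x => ?_⟩
    · have h1 : support (Tp X ε ω) ⊆ {x | ε / 2 ≤ z x} := by
        intro x hx
        have h2 := push_supp h hχ hχ1 (ε := ε) (η := ε / 2) (by linarith) (by linarith) hεc
          (fun x => hXz ε x hε.le hεc) hzero hx
        show ε / 2 ≤ z x
        linarith
      have h3 : IsClosed {x | ε / 2 ≤ z x} := isClosed_le continuous_const h.cont
      exact (closure_minimal h1 h3).trans (h.cpt_in (r := ε / 2) (by linarith)).2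
    · exact Tp_div hX hXc (fun x => lt_of_lt_of_le (by norm_num) (hdet x).1) hΨ hΨ1 hΨ2 hωs hdiv x
  have hTφs : Smo (Tp X ε φ) := Tp_smo hX ε hφs
  have hTφc : HasCompactSupport (Tp X ε φ) := Tp_hcs hXc ε hφc
  have hvs : Smo fun x => ω x - φ x := ContDiff.sub hωs hφs
  have hvc : HasCompactSupport fun x => ω x - φ x := hωc.sub hφc
  have hTlin : Tp X ε (fun x => ω x - φ x) = fun x => Tp X ε ω x - Tp X ε φ x := by
    ext1 x
    show Am X ε x (ω (th X ε x) - φ (th X ε x)) = _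
    rw [map_sub]
    rfl
  obtain ⟨b1, b2⟩ := hL2 ε (by rw [abs_of_pos hε]; exact hεb.le) _ hvs hvc
  have hmv : MemLp (fun x => ω x - φ x) 2 (volume : Measure (En d)) := mb5_mem hvs hvc
  have hmT : MemLp (Tp X ε fun x => ω x - φ x) 2 (volume : Measure (En d)) :=
    mb5_mem (Tp_smo hX ε hvs) (Tp_hcs hXc ε hvc)
  rw [← norm_sq_cl hmT, ← norm_sq_cl hmv, hTlin, mb5_cl_sub (mb5_mem hwts.smooth hwts.cpt) (mb5_mem hTφs hTφc),
    mb5_cl_sub (mb5_mem hωs hωc) (mb5_mem hφs hφc)] at b1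
  have b3 : ‖cl ω - cl φ‖ ≤ 2 * κ' := by
    have h1 : cl ω - cl φ = (cl ω - u) - (cl φ - u) := by abel
    rw [h1]
    refine (norm_sub_le _ _).trans ?_
    linarith [hmn.1, hmm.1]
  have b4 : ‖cl ω - cl φ‖ ^ 2 ≤ (2 * κ') ^ 2 := pow_le_pow_left₀ (norm_nonneg _) b3 2
  have b5 : ‖cl (Tp X ε ω) - cl (Tp X ε φ)‖ ≤ L * (2 * κ') := by
    refine mb5_sqle (norm_nonneg _) (by positivity) (b1.trans ?_)
    rw [mul_pow, hLsq]
    have h1 : C * ‖cl ω - cl φ‖ ^ 2 ≤ C * (2 * κ') ^ 2 := mul_le_mul_of_nonneg_left b4 hC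
    have h2 : 0 ≤ C * d * (2 * κ') ^ 2 := by positivity
    linarith
  have b6 : ‖cl (Tp X ε φ) - cl φ‖ ≤ κ' := by
    refine mb5_sqle (norm_nonneg _) hκ0.le ?_
    rw [← mb5_cl_sub (mb5_mem hTφs hTφc) (mb5_mem hφs hφc),
      norm_sq_cl (mb5_memsub hTφs hTφc hφs hφc)]
    exact he1.le
  refine ⟨Tp X ε ω, hwts, ?_, fun hP i => ?_⟩
  · have h1 : cl (Tp X ε ω) - u = (cl (Tp X ε ω) - cl (Tp X ε φ)) + (cl (Tp X ε φ) - cl φ) + (cl φ - u) := by
      abel
    rw [h1]
    refine (norm_add₃_le).trans_lt ?_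
    have h2 := hmm.1
    rw [← hκκ]
    linarith
  · -- the derivatives
    have hpω : ∀ j, pd j ω = mo n (g j : En d → En d) := fun j => by
      rw [hω]
      exact mo_pd n hul (hgl j) j fun ψ hψ hψc => mb5_weak j (hg hP j) hψ hψc
    have hpφ : ∀ j, pd j φ = mo m (g j : En d → En d) := fun j => by
      rw [hφ]
      exact mo_pd m hul (hgl j) j fun ψ hψ hψc => mb5_weak j (hg hP j) hψ hψc
    have hpm : ∀ j, MemLp (pd j fun x => ω x - φ x) 2 (volume : Measure (En d)) := fun j =>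
      mb5_mem (hvs.pd j) (hcs_pd hvc j)
    have c1 : ∀ j, ‖cl (pd j ω) - cl (pd j φ)‖ ≤ 2 * κ' := by
      intro j
      have h1 : cl (pd j ω) - cl (pd j φ) = (cl (pd j ω) - g j) - (cl (pd j φ) - g j) := by abel
      rw [h1]
      refine (norm_sub_le _ _).trans ?_
      rw [hpω j, hpφ j]
      linarith [hmn.2 j, hmm.2 j]
    have c2 := b2 i
    have c3 : ∀ j, ∫ x, ‖pd j (fun x => ω x - φ x) x‖ ^ 2 = ‖cl (pd j ω) - cl (pd j φ)‖ ^ 2 := by
      intro j
      rw [← norm_sq_cl (hpm j), mb5_pd_sub hωs hφs,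
        mb5_cl_sub (mb5_mem (hωs.pd j) (hcs_pd hωc j)) (mb5_mem (hφs.pd j) (hcs_pd hφc j))]
    have c4 : ∫ x, ‖pd i (Tp X ε fun x => ω x - φ x) x‖ ^ 2 =
        ‖cl (pd i (Tp X ε ω)) - cl (pd i (Tp X ε φ))‖ ^ 2 := by
      rw [hTlin, mb5_pd_sub hwts.smooth hTφs, ← mb5_cl_sub (mb5_mem (hwts.smooth.pd i) (hcs_pd hwts.cpt i))
        (mb5_mem (hTφs.pd i) (hcs_pd hTφc i)), norm_sq_cl (mb5_memsub (hwts.smooth.pd i) (hcs_pd hwts.cpt i)
        (hTφs.pd i) (hcs_pd hTφc i))]
    simp only [c3] at c2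
    rw [c4, ← norm_sq_cl hmv, mb5_cl_sub (mb5_mem hωs hωc) (mb5_mem hφs hφc)] at c2
    have c5 : ∑ j, ‖cl (pd j ω) - cl (pd j φ)‖ ^ 2 ≤ d * (2 * κ') ^ 2 := by
      refine (Finset.sum_le_card_nsmul _ _ ((2 * κ') ^ 2) fun j _ => ?_).trans_eq ?_
      · exact pow_le_pow_left₀ (norm_nonneg _) (c1 j) 2
      · rw [Finset.card_univ, Fintype.card_fin, nsmul_eq_mul]
    have c6 : ‖cl (pd i (Tp X ε ω)) - cl (pd i (Tp X ε φ))‖ ≤ L * (2 * κ') := by
      refine mb5_sqle (norm_nonneg _) (by positivity) (c2.trans ?_)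
      rw [mul_pow, hLsq]
      have h1 : C * (‖cl ω - cl φ‖ ^ 2 + ∑ j, ‖cl (pd j ω) - cl (pd j φ)‖ ^ 2) ≤
          C * ((2 * κ') ^ 2 + d * (2 * κ') ^ 2) := mul_le_mul_of_nonneg_left (add_le_add b4 c5) hC
      linarith
    have c7 : ‖cl (pd i (Tp X ε φ)) - cl (pd i φ)‖ ≤ κ' := by
      refine mb5_sqle (norm_nonneg _) hκ0.le ?_
      rw [← mb5_cl_sub (mb5_mem (hTφs.pd i) (hcs_pd hTφc i)) (mb5_mem (hφs.pd i) (hcs_pd hφc i)),
        norm_sq_cl (mb5_memsub (hTφs.pd i) (hcs_pd hTφc i) (hφs.pd i) (hcs_pd hφc i))]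
      exact (he2 i).le
    have h1 : cl (pd i (Tp X ε ω)) - g i = (cl (pd i (Tp X ε ω)) - cl (pd i (Tp X ε φ))) +
        (cl (pd i (Tp X ε φ)) - cl (pd i φ)) + (cl (pd i φ) - g i) := by
      abel
    rw [h1]
    refine (norm_add₃_le).trans_lt ?_
    have h2 := hmm.2 i
    rw [← hpφ i] at h2
    rw [← hκκ]
    linarith

/-- **Membership in `H(D)`.** -/
theorem mem_HD (h : Dom D z δ) {u : L2E d} (h0 : ∀ᵐ x, x ∉ D → (u : En d → En d) x = 0)
    (hu : ∀ q : En d → ℝ, Smo q → HasCompactSupport q → ⟪u, cl (gd q)⟫ = 0) : u ∈ HD D := by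
  refine Metric.mem_closure_iff.2 fun κ hκ => ?_
  obtain ⟨w, hw, hw2, _⟩ := mb5_core h h0 hu (fun _ => 0) False (fun hF => hF.elim) hκ
  refine ⟨cl w, ⟨⟨w, hw⟩, rfl⟩, ?_⟩
  rw [dist_comm, dist_eq_norm]
  exact hw2

/-- **Membership in `V(D)`.** Proof: `φ = ρ_m * u` is close to `u` in `H¹`; `Tp ε φ` is close to `φ` for small `ε`; `Tp ε (ρ_n * u)`
is close to `Tp ε φ` uniformly in `ε` (`Tp_L2`), and it is a test field of `D` for large `n` (`push_supp` with
`η = ε/2`, `mo_zero_off`, `mo_div`, `Tp_div`). -/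
theorem mem_VD (h : Dom D z δ) {u : L2E d} {g : Fin d → L2E d} (h0 : ∀ᵐ x, x ∉ D → (u : En d → En d) x = 0)
    (hu : ∀ q : En d → ℝ, Smo q → HasCompactSupport q → ⟪u, cl (gd q)⟫ = 0)
    (hg : ∀ i, ∀ ψ : En d → En d, Smo ψ → HasCompactSupport ψ → ⟪u, cl (pd i ψ)⟫ = -⟪g i, cl ψ⟫) :
    ∃ v : VD D, ((io D v : HD D) : L2E d) = u ∧ ∀ i, gi v i = g i := by
  have h1 : ∀ n : ℕ, ∃ φ : TS D, ‖cl (φ : En d → En d) - u‖ < 1 / ((n : ℝ) + 1) ∧
      ∀ i, ‖cl (pd i (φ : En d → En d)) - g i‖ < 1 / ((n : ℝ) + 1) := by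
    intro n
    obtain ⟨w, hw, hw2, hw3⟩ := mb5_core h h0 hu g True (fun _ => hg) (κ := 1 / ((n : ℝ) + 1)) (by positivity)
    exact ⟨⟨w, hw⟩, hw2, hw3 trivial⟩
  choose φ hφ1 hφ2 using h1
  have t0 : Tendsto (fun n : ℕ => 1 / ((n : ℝ) + 1)) atTop (𝓝 0) := tendsto_one_div_add_atTop_nhds_zero_nat
  have t1 : Tendsto (fun n => cl (φ n : En d → En d)) atTop (𝓝 u) := by
    rw [tendsto_iff_norm_sub_tendsto_zero]
    exact squeeze_zero (fun n => norm_nonneg _) (fun n => (hφ1 n).le) t0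
  have t2 : ∀ i, Tendsto (fun n => cl (pd i (φ n : En d → En d))) atTop (𝓝 (g i)) := by
    intro i
    rw [tendsto_iff_norm_sub_tendsto_zero]
    exact squeeze_zero (fun n => norm_nonneg _) (fun n => (hφ2 n i).le) t0
  have t3 : Tendsto (fun n => grT D (φ n)) atTop (𝓝 (WithLp.toLp 2 g : G2E d)) := by
    have h2 : Tendsto (fun n => fun i => cl (pd i (φ n : En d → En d))) atTop (𝓝 g) := tendsto_pi_nhds.2 t2
    exact ((PiLp.continuous_toLp 2 _).tendsto g).comp h2
  have hv : (WithLp.toLp 2 g : G2E d) ∈ VD D := by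
    show (WithLp.toLp 2 g : G2E d) ∈ closure (LinearMap.range (grT D) : Set (G2E d))
    exact mem_closure_of_tendsto t3 (Eventually.of_forall fun n => ⟨φ n, rfl⟩)
  refine ⟨⟨_, hv⟩, ?_, fun i => rfl⟩
  have t4 : Tendsto (fun n => vT D (φ n)) atTop (𝓝 (⟨_, hv⟩ : VD D)) := by
    rw [tendsto_subtype_rng]
    exact t3
  have t5 := ((io D).continuous.tendsto _).comp t4
  have t6 := ((HD D).subtypeL.continuous.tendsto _).comp t5
  refine tendsto_nhds_unique t6 (t1.congr fun n => ?_)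
  show cl (φ n : En d → En d) = ((io D (vT D (φ n)) : HD D) : L2E d)
  rw [io_vT h.bdd]
  rfl

end

end Pool.Agent.Lib.MP_79abb3_an.W
end

section

/-!
Theorem W, block A: bounded smooth fields as elements of `H(D)` and `V(D)`.
-/

set_option autoImplicit false
set_option linter.unusedSectionVars false

open MeasureTheory Set Filter Topology Function
open scoped ENNReal RealInnerProductSpace

namespace Pool.Agent.Lib.MP_79abb3_an.W

section
variable {d : ℕ} {D : Set (En d)} {z : En d → ℝ} {δ : ℝ}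


section cut

private noncomputable def mb6_eta (s : ℝ) : ℝ := Real.smoothTransition (s - 1)

private theorem mb6_smo : ContDiff ℝ ((⊤ : ℕ∞) : WithTop ℕ∞) mb6_eta :=
  Real.smoothTransition.contDiff.comp (contDiff_id.sub contDiff_const)

private theorem mb6_zero {s : ℝ} (hs : s ≤ 1) : mb6_eta s = 0 :=
  Real.smoothTransition.zero_of_nonpos (by linarith)

private theorem mb6_one {s : ℝ} (hs : 2 ≤ s) : mb6_eta s = 1 :=
  Real.smoothTransition.one_of_one_le (by linarith)

private theorem mb6_01 (s : ℝ) : 0 ≤ mb6_eta s ∧ mb6_eta s ≤ 1 :=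
  ⟨Real.smoothTransition.nonneg _, Real.smoothTransition.le_one _⟩

private theorem mb6_d0 {s : ℝ} (hs : s < 1) : deriv mb6_eta s = 0 := by
  have h1 : mb6_eta =ᶠ[𝓝 s] fun _ => (0 : ℝ) := by
    filter_upwards [Iio_mem_nhds hs] with t ht
    exact mb6_zero (le_of_lt ht)
  rw [h1.deriv_eq, deriv_const]

private theorem mb6_d1 {s : ℝ} (hs : 2 < s) : deriv mb6_eta s = 0 := by
  have h1 : mb6_eta =ᶠ[𝓝 s] fun _ => (1 : ℝ) := by
    filter_upwards [Ioi_mem_nhds hs] with t ht
    exact mb6_one (le_of_lt ht)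
  rw [h1.deriv_eq, deriv_const]

private theorem mb6_db : ∃ C : ℝ, 0 ≤ C ∧ ∀ s, |deriv mb6_eta s| ≤ C := by
  have h1 : Continuous (deriv mb6_eta) := mb6_smo.continuous_deriv (by norm_num)
  obtain ⟨C, hC⟩ := (isCompact_Icc (a := (1 : ℝ)) (b := 2)).exists_bound_of_continuousOn h1.continuousOn
  refine ⟨max C 0, le_max_right _ _, fun s => ?_⟩
  by_cases h2 : s < 1
  · rw [mb6_d0 h2, abs_zero]
    exact le_max_right _ _
  by_cases h3 : 2 < s
  · rw [mb6_d1 h3, abs_zero]
    exact le_max_right _ _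
  · exact (hC s ⟨not_lt.1 h2, not_lt.1 h3⟩).trans (le_max_left _ _)

/-- the cut-off in the domain -/
private noncomputable def mb6_chi (z : En d → ℝ) (n : ℕ) (x : En d) : ℝ := mb6_eta (((n : ℝ) + 1) * z x)

private theorem mb6_chi_smo (h : Dom D z δ) (n : ℕ) : Smo (mb6_chi z n) :=
  mb6_smo.comp (contDiff_const.mul h.smo)

private theorem mb6_chi_pd (h : Dom D z δ) (n : ℕ) (x : En d) (i : Fin d) :
    pd i (mb6_chi z n) x = deriv mb6_eta (((n : ℝ) + 1) * z x) * (((n : ℝ) + 1) * pd i z x) := by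
  have h1 : HasFDerivAt (fun y => ((n : ℝ) + 1) * z y) (((n : ℝ) + 1) • fderiv ℝ z x) x :=
    (h.smo.differentiable x).hasFDerivAt.const_mul _
  have h2 := ((mb6_smo.differentiable (by norm_num)) (((n : ℝ) + 1) * z x)).hasDerivAt.comp_hasFDerivAt x h1
  show fderiv ℝ (mb6_chi z n) x (ei i) = _
  have h3 : fderiv ℝ (mb6_chi z n) x = _ := h2.fderiv
  rw [h3]
  rfl

private theorem mb6_n0 (n : ℕ) : (0 : ℝ) < (n : ℝ) + 1 := by positivity

/-- for a point of the domain the cut-off is eventually one, and its derivatives vanish -/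
private theorem mb6_ev (h : Dom D z δ) {x : En d} (hx : x ∈ D) :
    ∀ᶠ n : ℕ in atTop, 2 < ((n : ℝ) + 1) * z x := by
  have h0 : 0 < z x := (h.pos x).1 hx
  obtain ⟨N, hN⟩ := exists_nat_gt (2 / z x)
  filter_upwards [eventually_ge_atTop N] with n hn
  have h1 : (N : ℝ) ≤ n := by exact_mod_cast hn
  have h2 : 2 / z x < (n : ℝ) + 1 := by linarith
  rwa [div_lt_iff₀ h0] at h2

private theorem mb6_te (h : Dom D z δ) {F : Type} [NormedAddCommGroup F] [NormedSpace ℝ F] {v : En d → F}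
    (hv : ContDiffOn ℝ ((⊤ : ℕ∞) : WithTop ℕ∞) v D) (n : ℕ) : IsTe D (fun x => mb6_chi z n x • v x) := by
  have hn := mb6_n0 n
  have hr : 0 < 1 / ((n : ℝ) + 1) := by positivity
  obtain ⟨hK, hKD⟩ := h.cpt_in hr
  have hs : Function.support (fun x => mb6_chi z n x • v x) ⊆ {x | 1 / ((n : ℝ) + 1) ≤ z x} := by
    intro x hx
    by_contra h1
    apply hx
    have h2 : z x < 1 / ((n : ℝ) + 1) := not_le.1 h1
    have h3 : ((n : ℝ) + 1) * z x ≤ 1 := by
      rw [lt_div_iff₀ hn] at h2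
      linarith
    show mb6_chi z n x • v x = 0
    unfold mb6_chi
    rw [mb6_zero h3, zero_smul]
  refine ⟨?_, HasCompactSupport.of_support_subset_isCompact hK hs, (closure_minimal hs hK.isClosed).trans hKD⟩
  refine contDiff_iff_contDiffAt.2 fun x => ?_
  by_cases hx : x ∈ D
  · exact (mb6_chi_smo h n).contDiffAt.smul (hv.contDiffAt (h.isOpen.mem_nhds hx))
  · have h1 : z x ≤ 0 := not_lt.1 fun h2 => hx ((h.pos x).2 h2)
    have h2 : (fun x => mb6_chi z n x • v x) =ᶠ[𝓝 x] fun _ => 0 := by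
      have h3 : {y | z y < 1 / ((n : ℝ) + 1)} ∈ 𝓝 x :=
        (isOpen_lt h.cont continuous_const).mem_nhds (lt_of_le_of_lt h1 hr)
      filter_upwards [h3] with y hy
      by_contra h4
      exact absurd (hs h4) (not_le.2 hy)
    exact contDiffAt_const.congr_of_eventuallyEq h2

private theorem mb6_te_pd (h : Dom D z δ) {F : Type} [NormedAddCommGroup F] [NormedSpace ℝ F] {v : En d → F}
    (hv : ContDiffOn ℝ ((⊤ : ℕ∞) : WithTop ℕ∞) v D) (n : ℕ) (i : Fin d) {x : En d} (hx : x ∈ D) :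
    pd i (fun x => mb6_chi z n x • v x) x = mb6_chi z n x • pd i v x + pd i (mb6_chi z n) x • v x := by
  have h1 : DifferentiableAt ℝ v x := (hv.contDiffAt (h.isOpen.mem_nhds hx)).differentiableAt (by norm_num)
  show fderiv ℝ (fun x => mb6_chi z n x • v x) x (ei i) = _
  rw [fderiv_fun_smul ((mb6_chi_smo h n).differentiable x) h1]
  rfl

private theorem mb6_te_off (h : Dom D z δ) {F : Type} [NormedAddCommGroup F] [NormedSpace ℝ F] {v : En d → F}
    (hv : ContDiffOn ℝ ((⊤ : ℕ∞) : WithTop ℕ∞) v D) (n : ℕ) (i : Fin d) {x : En d} (hx : x ∉ D) :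
    pd i (fun x => mb6_chi z n x • v x) x = 0 := by
  by_contra h1
  exact hx (((mb6_te h hv n).pd i).supp (subset_tsupport _ h1))

private theorem mb6_gradz (h : Dom D z δ) : ∃ M : ℝ, 0 ≤ M ∧ ∀ x ∈ D, ‖fderiv ℝ z x‖ ≤ M := by
  have h1 : Continuous (fderiv ℝ z) := h.smo.continuous_fderiv (by norm_num)
  obtain ⟨C, hC⟩ := h.bdd.isCompact_closure.exists_bound_of_continuousOn h1.continuousOn
  exact ⟨max C 0, le_max_right _ _, fun x hx => (hC x (subset_closure hx)).trans (le_max_left _ _)⟩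

private theorem mb6_ei (i : Fin d) : ‖(ei i : En d)‖ = 1 := by
  unfold ei
  simp

private theorem mb6_norm_gd (q : En d → ℝ) (x : En d) : ‖gd q x‖ = ‖fderiv ℝ q x‖ := by
  rw [gd_eq_gradient]
  unfold gradient
  rw [LinearIsometryEquiv.norm_map]

/-- bound for the derivative of the cut-off against a factor `O(z)` -/
private theorem mb6_bd {C0 : ℝ} (hC0 : ∀ s, |deriv mb6_eta s| ≤ C0) (n : ℕ) {x : En d}
    (hx : 0 < z x) {a A : ℝ} (hA : 0 ≤ A) (ha : |a| ≤ A * z x) :
    |deriv mb6_eta (((n : ℝ) + 1) * z x) * (((n : ℝ) + 1) * a)| ≤ 2 * C0 * A := by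
  have hn := mb6_n0 n
  have hC : 0 ≤ C0 := (abs_nonneg _).trans (hC0 0)
  by_cases h1 : 2 < ((n : ℝ) + 1) * z x
  · rw [mb6_d1 h1, zero_mul, abs_zero]
    positivity
  · rw [abs_mul, abs_mul, abs_of_pos hn]
    have h2 : ((n : ℝ) + 1) * |a| ≤ A * 2 := by
      calc ((n : ℝ) + 1) * |a| ≤ ((n : ℝ) + 1) * (A * z x) := mul_le_mul_of_nonneg_left ha hn.le
        _ = A * (((n : ℝ) + 1) * z x) := by ring
        _ ≤ A * 2 := mul_le_mul_of_nonneg_left (not_lt.1 h1) hA
    calc |deriv mb6_eta (((n : ℝ) + 1) * z x)| * (((n : ℝ) + 1) * |a|) ≤ C0 * (A * 2) :=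
          mul_le_mul (hC0 _) h2 (by positivity) hC
      _ = 2 * C0 * A := by ring

end cut

theorem gradient_eq_gd (q : En d → ℝ) (x : En d) : gradient q x = gd q x := (gd_eq_gradient q x).symm

/-- fields which are bounded and continuous in `D`, extended by zero -/
theorem ind_memLp (h : Dom D z δ) {F : Type} [NormedAddCommGroup F] {v : En d → F} (hv : ContinuousOn v D) {C : ℝ}
    (hC : ∀ x ∈ D, ‖v x‖ ≤ C) (p : ℝ≥0∞) : MemLp (D.indicator v) p (volume : Measure (En d)) := by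
  rw [memLp_indicator_iff_restrict h.isOpen.measurableSet]
  haveI : IsFiniteMeasure (volume.restrict D) := ⟨by
    rw [Measure.restrict_apply_univ]
    exact h.bdd.measure_lt_top⟩
  refine MemLp.of_bound (hv.aestronglyMeasurable h.isOpen.measurableSet) C ?_
  exact (ae_restrict_iff' h.isOpen.measurableSet).2 (Eventually.of_forall hC)

/-- Cut-off: `∫_D ⟪v, ∇q⟫ = 0` for `v` smooth in `D`, bounded, `div v = 0`, `|⟪v, ∇z⟫| ≤ C z`. Proof: with `χ_r = η(z/r)`, `η = 0` on
`(-∞,1]`, `η = 1` on `[2,∞)`: `∫ χ_r ⟪v, ∇q⟫ = -∫ q η'(z/r) r⁻¹ ⟪v, ∇z⟫` (integration by parts for the smooth field with compact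
support `χ_r q v`), and the right side is at most `C'` times the volume of `{0 < z < 2r}`, which tends to zero. -/
theorem BD_div (h : Dom D z δ) {v : En d → En d} (hv : ContDiffOn ℝ ((⊤ : ℕ∞) : WithTop ℕ∞) v D) {C : ℝ}
    (hC : ∀ x ∈ D, ‖v x‖ ≤ C) (hd : ∀ x ∈ D, dv v x = 0) (hn : ∀ x ∈ D, |⟪v x, gradient z x⟫| ≤ C * z x)
    {q : En d → ℝ} (hq : Smo q) (hc : HasCompactSupport q) : ⟪cl (D.indicator v), cl (gd q)⟫ = 0 := by
  obtain ⟨C0, hC0, hd0⟩ := mb6_db
  have hgc : HasCompactSupport (gd q) := by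
    refine HasCompactSupport.of_support_subset_isCompact hc fun x hx => ?_
    by_contra h1
    have h2 : fderiv ℝ q x = 0 := by
      by_contra h3
      exact h1 (support_fderiv_subset ℝ h3)
    apply hx
    rw [← norm_eq_zero, mb6_norm_gd, h2, norm_zero]
  have hgm : MemLp (gd q) 2 (volume : Measure (En d)) := hq.gd.continuous.memLp_of_hasCompactSupport hgc
  have hvm := ind_memLp h hv.continuousOn hC 2
  rw [cl_inner hvm hgm]
  -- the identity with the cut-off
  have hid : ∀ n : ℕ, ∫ x, mb6_chi z n x * ⟪D.indicator v x, gd q x⟫ =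
      ∫ x, -(q x * D.indicator (fun x => ⟪gd (mb6_chi z n) x, v x⟫) x) := by
    intro n
    have hte := mb6_te h hv n
    have h1 : ∫ x, dv (fun x => q x • (mb6_chi z n x • v x)) x = 0 :=
      int_dv (hq.smul hte.smooth) hc.smul_right
    have h2 : ∀ x, dv (fun x => q x • (mb6_chi z n x • v x)) x =
        mb6_chi z n x * ⟪D.indicator v x, gd q x⟫ + q x * D.indicator (fun x => ⟪gd (mb6_chi z n) x, v x⟫) x := by
      intro x
      rw [dv_smul hq hte.smooth]
      by_cases hx : x ∈ D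
      · rw [indicator_of_mem hx, indicator_of_mem hx, inner_smul_right, real_inner_comm]
        congr 2
        unfold dv
        simp only [mb6_te_pd h hv n _ hx]
        have h3 := hd x hx
        unfold dv at h3
        simp only [PiLp.add_apply, PiLp.smul_apply, Finset.sum_add_distrib, smul_eq_mul]
        rw [← Finset.mul_sum, h3, mul_zero, zero_add, PiLp.inner_apply]
        refine Finset.sum_congr rfl fun i _ => ?_
        rw [gd_apply]
        simp [mul_comm]
      · rw [indicator_of_notMem hx, indicator_of_notMem hx]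
        have h4 : mb6_chi z n x = 0 := by
          unfold mb6_chi
          have h5 : z x ≤ 0 := not_lt.1 fun h6 => hx ((h.pos x).2 h6)
          refine mb6_zero ?_
          have := mul_nonpos_of_nonneg_of_nonpos (mb6_n0 n).le h5
          linarith
        have h6 : dv (fun x => mb6_chi z n x • v x) x = 0 := by
          unfold dv
          exact Finset.sum_eq_zero fun i _ => by rw [mb6_te_off h hv n i hx]; rfl
        rw [h6, h4]
        simp
    have hi1 : Integrable fun x => mb6_chi z n x * ⟪D.indicator v x, gd q x⟫ := by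
      have h3 : (fun x => mb6_chi z n x * ⟪D.indicator v x, gd q x⟫) =
          fun x => ⟪mb6_chi z n x • v x, gd q x⟫ := by
        funext x
        by_cases hx : x ∈ D
        · rw [indicator_of_mem hx, real_inner_smul_left]
        · have h5 : mb6_chi z n x • v x = 0 := by
            by_contra h6
            exact hx (hte.supp (subset_tsupport _ h6))
          rw [h5, indicator_of_notMem hx, inner_zero_left, mul_zero]
      rw [h3]
      refine (hte.smooth.continuous.inner hq.gd.continuous).integrable_of_hasCompactSupport ?_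
      refine HasCompactSupport.of_support_subset_isCompact hgc fun x hx => ?_
      refine subset_tsupport _ fun h6 => hx ?_
      show ⟪mb6_chi z n x • v x, gd q x⟫ = 0
      rw [h6, inner_zero_right]
    have hi3 : Integrable (dv (fun x => q x • (mb6_chi z n x • v x))) := by
      have h3 : IsTe D (fun x => q x • (mb6_chi z n x • v x)) :=
        ⟨hq.smul hte.smooth, hc.smul_right, (tsupport_smul_subset_right _ _).trans hte.supp⟩
      have h4 : dv (fun x => q x • (mb6_chi z n x • v x)) =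
          fun x => ∑ i, pd i (fun x => q x • (mb6_chi z n x • v x)) x i := rfl
      rw [h4]
      refine integrable_finset_sum _ fun i _ => ?_
      have h5 := (h3.pd i)
      exact (((contDiff_euclidean.1 h5.smooth) i).continuous).integrable_of_hasCompactSupport
        (h5.cpt.comp_left (g := fun y : En d => y i) rfl)
    have hi2 : Integrable fun x => q x * D.indicator (fun x => ⟪gd (mb6_chi z n) x, v x⟫) x := by
      have h3 : (fun x => q x * D.indicator (fun x => ⟪gd (mb6_chi z n) x, v x⟫) x) =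
          fun x => dv (fun x => q x • (mb6_chi z n x • v x)) x - mb6_chi z n x * ⟪D.indicator v x, gd q x⟫ := by
        funext x
        rw [h2 x]
        ring
      rw [h3]
      exact hi3.sub hi1
    simp only [h2] at h1
    rw [integral_add hi1 hi2] at h1
    rw [integral_neg]
    linarith
  obtain ⟨M, hM0, hM⟩ := mb6_gradz h
  -- the limits
  have hC1 : ∀ x ∈ D, 0 ≤ C := fun x hx => (norm_nonneg _).trans (hC x hx)
  have hb : ∀ x, ‖D.indicator v x‖ ≤ |C| := by
    intro x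
    by_cases hx : x ∈ D
    · rw [indicator_of_mem hx]
      exact (hC x hx).trans (le_abs_self _)
    · rw [indicator_of_notMem hx, norm_zero]
      exact abs_nonneg _
  have hL : Tendsto (fun n : ℕ => ∫ x, mb6_chi z n x * ⟪D.indicator v x, gd q x⟫) atTop
      (𝓝 (∫ x, ⟪D.indicator v x, gd q x⟫)) := by
    refine tendsto_integral_of_dominated_convergence (fun x => |C| * ‖gd q x‖) (fun n => ?_) ?_ (fun n => ?_) ?_
    · exact (mb6_chi_smo h n).continuous.aestronglyMeasurable.mul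
        (hvm.1.inner hgm.1)
    · exact (hq.gd.continuous.norm.integrable_of_hasCompactSupport hgc.norm).const_mul _
    · refine Eventually.of_forall fun x => ?_
      rw [norm_mul]
      have h1 : ‖mb6_chi z n x‖ ≤ 1 := by
        rw [Real.norm_eq_abs, abs_le]
        have := mb6_01 (((n : ℝ) + 1) * z x)
        unfold mb6_chi
        constructor <;> linarith [this.1, this.2]
      calc ‖mb6_chi z n x‖ * ‖⟪D.indicator v x, gd q x⟫‖ ≤ 1 * (|C| * ‖gd q x‖) := by
            refine mul_le_mul h1 ?_ (norm_nonneg _) zero_le_one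
            exact (norm_inner_le_norm _ _).trans (mul_le_mul_of_nonneg_right (hb x) (norm_nonneg _))
        _ = |C| * ‖gd q x‖ := one_mul _
    · refine Eventually.of_forall fun x => ?_
      by_cases hx : x ∈ D
      · refine tendsto_const_nhds.congr' ?_
        filter_upwards [mb6_ev h hx] with n hn
        unfold mb6_chi
        rw [mb6_one hn.le, one_mul]
      · simp only [indicator_of_notMem hx, inner_zero_left, mul_zero]
        exact tendsto_const_nhds
  have hR : Tendsto (fun n : ℕ => ∫ x, -(q x * D.indicator (fun x => ⟪gd (mb6_chi z n) x, v x⟫) x)) atTop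
      (𝓝 (∫ _ : En d, (0 : ℝ))) := by
    refine tendsto_integral_of_dominated_convergence (fun x => ‖q x‖ * (2 * C0 * |C|)) (fun n => ?_) ?_ (fun n => ?_) ?_
    · have h1 : AEStronglyMeasurable (D.indicator (fun x => ⟪gd (mb6_chi z n) x, v x⟫)) volume := by
        rw [aestronglyMeasurable_indicator_iff h.isOpen.measurableSet]
        exact ((mb6_chi_smo h n).gd.continuous.continuousOn.inner hv.continuousOn).aestronglyMeasurable
          h.isOpen.measurableSet
      exact (hq.continuous.aestronglyMeasurable.mul h1).neg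
    · exact (hq.continuous.norm.integrable_of_hasCompactSupport hc.norm).mul_const _
    · refine Eventually.of_forall fun x => ?_
      rw [norm_neg, norm_mul]
      refine mul_le_mul_of_nonneg_left ?_ (norm_nonneg _)
      by_cases hx : x ∈ D
      · rw [indicator_of_mem hx]
        have h1 : ⟪gd (mb6_chi z n) x, v x⟫ =
            deriv mb6_eta (((n : ℝ) + 1) * z x) * (((n : ℝ) + 1) * ⟪v x, gradient z x⟫) := by
          rw [PiLp.inner_apply, PiLp.inner_apply, Finset.mul_sum, Finset.mul_sum]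
          refine Finset.sum_congr rfl fun i _ => ?_
          rw [gd_apply, mb6_chi_pd h, gradient_eq_gd]
          have : gd z x i = pd i z x := gd_apply z x i
          simp only [RCLike.inner_apply, conj_trivial, this]
          ring
        rw [h1, Real.norm_eq_abs]
        refine mb6_bd hd0 n ((h.pos x).1 hx) (abs_nonneg _) ((hn x hx).trans ?_)
        exact mul_le_mul_of_nonneg_right (le_abs_self _) ((h.pos x).1 hx).le
      · rw [indicator_of_notMem hx, norm_zero]
        positivity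
    · refine Eventually.of_forall fun x => ?_
      by_cases hx : x ∈ D
      · refine tendsto_const_nhds.congr' ?_
        filter_upwards [mb6_ev h hx] with n hn
        rw [indicator_of_mem hx]
        have h1 : gd (mb6_chi z n) x = 0 := by
          ext i
          rw [gd_apply, mb6_chi_pd h, mb6_d1 hn, zero_mul]
          rfl
        rw [h1, inner_zero_left, mul_zero, neg_zero]
      · simp only [indicator_of_notMem hx, mul_zero, neg_zero]
        exact tendsto_const_nhds
  rw [integral_zero] at hR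
  simp only [hid] at hL
  exact tendsto_nhds_unique hL hR

/-- Tangential divergence free fields are in `H(D)`. -/
theorem BD_mem_HD (h : Dom D z δ) {v : En d → En d} (hv : ContDiffOn ℝ ((⊤ : ℕ∞) : WithTop ℕ∞) v D) {C : ℝ}
    (hC : ∀ x ∈ D, ‖v x‖ ≤ C) (hd : ∀ x ∈ D, dv v x = 0) (hn : ∀ x ∈ D, |⟪v x, gradient z x⟫| ≤ C * z x) :
    cl (D.indicator v) ∈ HD D := by
  refine mem_HD h ?_ fun q hq hc => BD_div h hv hC hd hn hq hc
  filter_upwards [cl_coe (ind_memLp h hv.continuousOn hC 2)] with x h1 hx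
  rw [h1, indicator_of_notMem hx]

/-- Integration by parts for fields which vanish at the walls (cut-off as in `BD_div`: `|∂_i χ_r| |v| ≤ (C/r) C z`). -/
theorem BD_ibp (h : Dom D z δ) {v : En d → En d} (hv : ContDiffOn ℝ ((⊤ : ℕ∞) : WithTop ℕ∞) v D) {C : ℝ}
    (hC : ∀ x ∈ D, ‖v x‖ ≤ C * z x) (hC' : ∀ x ∈ D, ∀ i, ‖pd i v x‖ ≤ C) (i : Fin d) {ψ : En d → En d} (hψ : Smo ψ)
    (hc : HasCompactSupport ψ) :
    ⟪cl (D.indicator v), cl (pd i ψ)⟫ = -⟪cl (D.indicator (pd i v)), cl ψ⟫ := by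
  obtain ⟨C0, hC0, hd0⟩ := mb6_db
  obtain ⟨M, hM0, hM⟩ := mb6_gradz h
  have hvp : ContDiffOn ℝ ((⊤ : ℕ∞) : WithTop ℕ∞) (pd i v) D := by
    have h1 : ContDiffOn ℝ ((⊤ : ℕ∞) : WithTop ℕ∞) (fderiv ℝ v) D :=
      hv.fderiv_of_isOpen h.isOpen (by exact_mod_cast le_top)
    exact h1.clm_apply contDiffOn_const
  obtain ⟨Z, hZ⟩ := h.bdd.isCompact_closure.exists_bound_of_continuousOn h.cont.continuousOn
  have hz : ∀ x ∈ D, 0 < z x := fun x hx => (h.pos x).1 hx
  have hCv : ∀ x ∈ D, ‖v x‖ ≤ |C| * |Z| := fun x hx => by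
    refine (hC x hx).trans ?_
    have h1 : z x ≤ |Z| := (le_abs_self _).trans ((hZ x (subset_closure hx)).trans (le_abs_self _))
    calc C * z x ≤ |C| * z x := mul_le_mul_of_nonneg_right (le_abs_self _) (hz x hx).le
      _ ≤ |C| * |Z| := mul_le_mul_of_nonneg_left h1 (abs_nonneg _)
  have hvm := ind_memLp h hv.continuousOn hCv 2
  have hpm := ind_memLp h hvp.continuousOn (fun x hx => hC' x hx i) 2
  have hψm : MemLp ψ 2 (volume : Measure (En d)) := hψ.continuous.memLp_of_hasCompactSupport hc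
  have hψpm : MemLp (pd i ψ) 2 (volume : Measure (En d)) :=
    (hψ.pd i).continuous.memLp_of_hasCompactSupport (hcs_pd hc i)
  rw [cl_inner hvm hψpm, cl_inner hpm hψm]
  have hid : ∀ n : ℕ, ∫ x, mb6_chi z n x * ⟪D.indicator v x, pd i ψ x⟫ =
      -∫ x, (mb6_chi z n x * ⟪D.indicator (pd i v) x, ψ x⟫ + pd i (mb6_chi z n) x * ⟪D.indicator v x, ψ x⟫) := by
    intro n
    have hte := mb6_te h hv n
    have h1 := ibp hte.smooth hψ (Or.inl hte.cpt) i
    have h2 : (fun x => mb6_chi z n x * ⟪D.indicator v x, pd i ψ x⟫) =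
        fun x => ⟪mb6_chi z n x • v x, pd i ψ x⟫ := by
      funext x
      by_cases hx : x ∈ D
      · rw [indicator_of_mem hx, real_inner_smul_left]
      · have h5 : mb6_chi z n x • v x = 0 := by
          by_contra h6
          exact hx (hte.supp (subset_tsupport _ h6))
        rw [h5, indicator_of_notMem hx, inner_zero_left, mul_zero]
    have h3 : (fun x => mb6_chi z n x * ⟪D.indicator (pd i v) x, ψ x⟫ +
        pd i (mb6_chi z n) x * ⟪D.indicator v x, ψ x⟫) =
        fun x => ⟪pd i (fun x => mb6_chi z n x • v x) x, ψ x⟫ := by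
      funext x
      by_cases hx : x ∈ D
      · rw [indicator_of_mem hx, indicator_of_mem hx, mb6_te_pd h hv n i hx, inner_add_left,
          real_inner_smul_left, real_inner_smul_left]
      · rw [mb6_te_off h hv n i hx, indicator_of_notMem hx, indicator_of_notMem hx, inner_zero_left, mul_zero,
          mul_zero, add_zero]
    rw [h2, h3]
    linarith
  have hb : ∀ x, ‖D.indicator v x‖ ≤ |C| * |Z| := by
    intro x
    by_cases hx : x ∈ D
    · rw [indicator_of_mem hx]
      exact hCv x hx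
    · rw [indicator_of_notMem hx, norm_zero]
      positivity
  have hbp : ∀ x, ‖D.indicator (pd i v) x‖ ≤ |C| := by
    intro x
    by_cases hx : x ∈ D
    · rw [indicator_of_mem hx]
      exact (hC' x hx i).trans (le_abs_self _)
    · rw [indicator_of_notMem hx, norm_zero]
      positivity
  have hχ : ∀ (n : ℕ) x, ‖mb6_chi z n x‖ ≤ 1 := by
    intro n x
    rw [Real.norm_eq_abs, abs_le]
    have := mb6_01 (((n : ℝ) + 1) * z x)
    unfold mb6_chi
    constructor <;> linarith [this.1, this.2]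
  have hL : Tendsto (fun n : ℕ => ∫ x, mb6_chi z n x * ⟪D.indicator v x, pd i ψ x⟫) atTop
      (𝓝 (∫ x, ⟪D.indicator v x, pd i ψ x⟫)) := by
    refine tendsto_integral_of_dominated_convergence (fun x => (|C| * |Z|) * ‖pd i ψ x‖) (fun n => ?_) ?_
      (fun n => ?_) ?_
    · exact (mb6_chi_smo h n).continuous.aestronglyMeasurable.mul (hvm.1.inner hψpm.1)
    · exact ((hψ.pd i).continuous.norm.integrable_of_hasCompactSupport (hcs_pd hc i).norm).const_mul _
    · refine Eventually.of_forall fun x => ?_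
      rw [norm_mul]
      calc ‖mb6_chi z n x‖ * ‖⟪D.indicator v x, pd i ψ x⟫‖ ≤ 1 * ((|C| * |Z|) * ‖pd i ψ x‖) := by
            refine mul_le_mul (hχ n x) ?_ (norm_nonneg _) zero_le_one
            exact (norm_inner_le_norm _ _).trans (mul_le_mul_of_nonneg_right (hb x) (norm_nonneg _))
        _ = (|C| * |Z|) * ‖pd i ψ x‖ := one_mul _
    · refine Eventually.of_forall fun x => ?_
      by_cases hx : x ∈ D
      · refine tendsto_const_nhds.congr' ?_
        filter_upwards [mb6_ev h hx] with n hn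
        unfold mb6_chi
        rw [mb6_one hn.le, one_mul]
      · simp only [indicator_of_notMem hx, inner_zero_left, mul_zero]
        exact tendsto_const_nhds
  have hR : Tendsto (fun n : ℕ => ∫ x, (mb6_chi z n x * ⟪D.indicator (pd i v) x, ψ x⟫ +
      pd i (mb6_chi z n) x * ⟪D.indicator v x, ψ x⟫)) atTop (𝓝 (∫ x, ⟪D.indicator (pd i v) x, ψ x⟫)) := by
    refine tendsto_integral_of_dominated_convergence (fun x => (|C| + 2 * C0 * (M * |C|)) * ‖ψ x‖) (fun n => ?_) ?_
      (fun n => ?_) ?_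
    · exact ((mb6_chi_smo h n).continuous.aestronglyMeasurable.mul (hpm.1.inner hψm.1)).add
        (((mb6_chi_smo h n).pd i).continuous.aestronglyMeasurable.mul (hvm.1.inner hψm.1))
    · exact (hψ.continuous.norm.integrable_of_hasCompactSupport hc.norm).const_mul _
    · refine Eventually.of_forall fun x => ?_
      have h1 : ‖mb6_chi z n x * ⟪D.indicator (pd i v) x, ψ x⟫‖ ≤ |C| * ‖ψ x‖ := by
        rw [norm_mul]
        calc ‖mb6_chi z n x‖ * ‖⟪D.indicator (pd i v) x, ψ x⟫‖ ≤ 1 * (|C| * ‖ψ x‖) := by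
              refine mul_le_mul (hχ n x) ?_ (norm_nonneg _) zero_le_one
              exact (norm_inner_le_norm _ _).trans (mul_le_mul_of_nonneg_right (hbp x) (norm_nonneg _))
          _ = |C| * ‖ψ x‖ := one_mul _
      have h2 : ‖pd i (mb6_chi z n) x * ⟪D.indicator v x, ψ x⟫‖ ≤ 2 * C0 * (M * |C|) * ‖ψ x‖ := by
        by_cases hx : x ∈ D
        · rw [indicator_of_mem hx, mb6_chi_pd h, norm_mul]
          have h3 : |⟪v x, ψ x⟫| ≤ |C| * z x * ‖ψ x‖ := by
            refine (abs_real_inner_le_norm _ _).trans (mul_le_mul_of_nonneg_right ?_ (norm_nonneg _))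
            exact (hC x hx).trans (mul_le_mul_of_nonneg_right (le_abs_self _) (hz x hx).le)
          have h4 : |pd i z x| ≤ M := by
            refine (((fderiv ℝ z x).le_opNorm (ei i))).trans ?_
            rw [mb6_ei, mul_one]
            exact hM x hx
          have h5 : |pd i z x * ⟪v x, ψ x⟫| ≤ (M * |C| * ‖ψ x‖) * z x := by
            rw [abs_mul]
            calc |pd i z x| * |⟪v x, ψ x⟫| ≤ M * (|C| * z x * ‖ψ x‖) := mul_le_mul h4 h3 (abs_nonneg _) hM0
              _ = (M * |C| * ‖ψ x‖) * z x := by ring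
          have h6 := mb6_bd hd0 n (hz x hx) (a := pd i z x * ⟪v x, ψ x⟫) (A := M * |C| * ‖ψ x‖) (by positivity) h5
          rw [← norm_mul, Real.norm_eq_abs]
          calc |deriv mb6_eta (((n : ℝ) + 1) * z x) * (((n : ℝ) + 1) * pd i z x) * ⟪v x, ψ x⟫|
              = |deriv mb6_eta (((n : ℝ) + 1) * z x) * (((n : ℝ) + 1) * (pd i z x * ⟪v x, ψ x⟫))| := by
                congr 1; ring
            _ ≤ 2 * C0 * (M * |C| * ‖ψ x‖) := h6
            _ = 2 * C0 * (M * |C|) * ‖ψ x‖ := by ring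
        · rw [indicator_of_notMem hx, inner_zero_left, mul_zero, norm_zero]
          positivity
      calc ‖mb6_chi z n x * ⟪D.indicator (pd i v) x, ψ x⟫ + pd i (mb6_chi z n) x * ⟪D.indicator v x, ψ x⟫‖
          ≤ |C| * ‖ψ x‖ + 2 * C0 * (M * |C|) * ‖ψ x‖ := (norm_add_le _ _).trans (add_le_add h1 h2)
        _ = (|C| + 2 * C0 * (M * |C|)) * ‖ψ x‖ := by ring
    · refine Eventually.of_forall fun x => ?_
      by_cases hx : x ∈ D
      · refine tendsto_const_nhds.congr' ?_
        filter_upwards [mb6_ev h hx] with n hn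
        rw [mb6_chi_pd h, mb6_d1 hn, zero_mul, zero_mul, add_zero]
        unfold mb6_chi
        rw [mb6_one hn.le, one_mul]
      · simp only [indicator_of_notMem hx, inner_zero_left, mul_zero, add_zero]
        exact tendsto_const_nhds
  simp only [hid] at hL
  exact tendsto_nhds_unique hL hR.neg

/-- Divergence free fields which vanish at the walls are in `V(D)`. -/
theorem BD_mem_VD (h : Dom D z δ) {v : En d → En d} (hv : ContDiffOn ℝ ((⊤ : ℕ∞) : WithTop ℕ∞) v D) {C : ℝ}
    (hC : ∀ x ∈ D, ‖v x‖ ≤ C * z x) (hC' : ∀ x ∈ D, ∀ i, ‖pd i v x‖ ≤ C) (hd : ∀ x ∈ D, dv v x = 0) :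
    ∃ w : VD D, ((io D w : HD D) : L2E d) = cl (D.indicator v) ∧ ∀ i, gi w i = cl (D.indicator (pd i v)) := by
  obtain ⟨M, hM0, hM⟩ := mb6_gradz h
  obtain ⟨Z, hZ⟩ := h.bdd.isCompact_closure.exists_bound_of_continuousOn h.cont.continuousOn
  have hz : ∀ x ∈ D, 0 < z x := fun x hx => (h.pos x).1 hx
  have hCv : ∀ x ∈ D, ‖v x‖ ≤ max (|C| * |Z|) (|C| * M) := fun x hx => by
    refine (hC x hx).trans (le_trans ?_ (le_max_left _ _))
    have h1 : z x ≤ |Z| := (le_abs_self _).trans ((hZ x (subset_closure hx)).trans (le_abs_self _))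
    calc C * z x ≤ |C| * z x := mul_le_mul_of_nonneg_right (le_abs_self _) (hz x hx).le
      _ ≤ |C| * |Z| := mul_le_mul_of_nonneg_left h1 (abs_nonneg _)
  have hn : ∀ x ∈ D, |⟪v x, gradient z x⟫| ≤ max (|C| * |Z|) (|C| * M) * z x := fun x hx => by
    have h1 : ‖gradient z x‖ ≤ M := by
      rw [gradient_eq_gd, mb6_norm_gd]
      exact hM x hx
    calc |⟪v x, gradient z x⟫| ≤ ‖v x‖ * ‖gradient z x‖ := abs_real_inner_le_norm _ _
      _ ≤ (|C| * z x) * M := by
          refine mul_le_mul ((hC x hx).trans ?_) h1 (norm_nonneg _) (mul_nonneg (abs_nonneg _) (hz x hx).le)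
          exact mul_le_mul_of_nonneg_right (le_abs_self _) (hz x hx).le
      _ = (|C| * M) * z x := by ring
      _ ≤ max (|C| * |Z|) (|C| * M) * z x := mul_le_mul_of_nonneg_right (le_max_right _ _) (hz x hx).le
  refine mem_VD h (g := fun i => cl (D.indicator (pd i v))) ?_ (fun q hq hc => BD_div h hv hCv hd hn hq hc)
    fun i ψ hψ hc => BD_ibp h hv hC hC' i hψ hc
  filter_upwards [cl_coe (ind_memLp h hv.continuousOn hCv 2)] with x h1 hx
  rw [h1, indicator_of_notMem hx]

/-- **Projection.** If `v - w` is an `L²(D)` limit of gradients of test functions of the whole space and `w` is tangential and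
divergence free, then `P v = w`. -/
theorem PD_eq_of (h : Dom D z δ) {v w : En d → En d} (hv : MemLp (D.indicator v) 2 (volume : Measure (En d)))
    (hw : cl (D.indicator w) ∈ HD D) (hw2 : MemLp (D.indicator w) 2 (volume : Measure (En d)))
    (hg : ∀ ε : ℝ≥0∞, 0 < ε → ∃ q : En d → ℝ, ContDiff ℝ 1 q ∧ HasCompactSupport q ∧
      eLpNorm (fun x => v x - w x - gd q x) 2 (volume.restrict D) ≤ ε) :
    ((PD D (cl (D.indicator v)) : HD D) : L2E d) = cl (D.indicator w) := by
  have hm := h.isOpen.measurableSet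
  have h1 : PD D (cl (D.indicator v)) = ⟨cl (D.indicator w), hw⟩ := by
    refine ext_inner_right ℝ fun y => ?_
    rw [inner_PD]
    show ⟪cl (D.indicator v), (y : L2E d)⟫ = ⟪cl (D.indicator w), (y : L2E d)⟫
    rw [← sub_eq_zero, ← inner_sub_left]
    by_contra h2
    have h3 : 0 < |⟪cl (D.indicator v) - cl (D.indicator w), (y : L2E d)⟫| := abs_pos.2 h2
    obtain ⟨ε, hε, h4⟩ : ∃ ε : ℝ, 0 < ε ∧ ε * ‖(y : L2E d)‖ < |⟪cl (D.indicator v) - cl (D.indicator w), (y : L2E d)⟫| := by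
      refine ⟨|⟪cl (D.indicator v) - cl (D.indicator w), (y : L2E d)⟫| / (‖(y : L2E d)‖ + 1), by positivity, ?_⟩
      rw [div_mul_eq_mul_div, div_lt_iff₀ (by positivity)]
      have := norm_nonneg (y : L2E d)
      nlinarith
    obtain ⟨q, hq, hc, h5⟩ := hg (ENNReal.ofReal ε) (ENNReal.ofReal_pos.2 hε)
    have hgcont : Continuous (gd q) := by
      have h6 : ∀ i, Continuous fun x => pd i q x := fun i =>
        (hq.continuous_fderiv one_ne_zero).clm_apply continuous_const
      exact (PiLp.continuous_toLp 2 _).comp (continuous_pi h6)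
    have hgc : HasCompactSupport (gd q) := by
      refine HasCompactSupport.of_support_subset_isCompact hc fun x hx => ?_
      by_contra h1
      have h2 : fderiv ℝ q x = 0 := by
        by_contra h3
        exact h1 (support_fderiv_subset ℝ h3)
      apply hx
      rw [← norm_eq_zero, mb6_norm_gd, h2, norm_zero]
    have hgm : MemLp (gd q) 2 (volume : Measure (En d)) := hgcont.memLp_of_hasCompactSupport hgc
    have hgm' : MemLp (D.indicator (gd q)) 2 (volume : Measure (En d)) := hgm.indicator hm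
    have h6 : ⟪cl (D.indicator (gd q)), (y : L2E d)⟫ = 0 := by
      rw [real_inner_comm, inner_cl _ hgm', ← HD_divC1 y hq hc]
      refine integral_congr_ae ?_
      filter_upwards [HD_supp y] with x hx
      by_cases hxD : x ∈ D
      · rw [indicator_of_mem hxD]
      · rw [hx hxD, inner_zero_left, inner_zero_left]
    have h7 : ‖cl (D.indicator v) - cl (D.indicator w) - cl (D.indicator (gd q))‖ ≤ ε := by
      have h8 : cl (D.indicator v) - cl (D.indicator w) - cl (D.indicator (gd q)) =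
          ((hv.sub hw2).sub hgm').toLp _ := by
        rw [cl_eq hv, cl_eq hw2, cl_eq hgm']
        rfl
      rw [h8, Lp.norm_toLp]
      refine ENNReal.toReal_le_of_le_ofReal hε.le ?_
      have h9 : (D.indicator v - D.indicator w - D.indicator (gd q)) = D.indicator fun x => v x - w x - gd q x := by
        funext x
        by_cases hx : x ∈ D
        · simp [hx]
        · simp [hx]
      rw [h9, eLpNorm_indicator_eq_eLpNorm_restrict hm]
      exact h5
    have h10 : ⟪cl (D.indicator v) - cl (D.indicator w), (y : L2E d)⟫ =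
        ⟪cl (D.indicator v) - cl (D.indicator w) - cl (D.indicator (gd q)), (y : L2E d)⟫ := by
      rw [inner_sub_left (cl (D.indicator v) - cl (D.indicator w)), h6, sub_zero]
    rw [h10] at h4
    have h11 := abs_real_inner_le_norm (cl (D.indicator v) - cl (D.indicator w) - cl (D.indicator (gd q))) (y : L2E d)
    have h12 := mul_le_mul_of_nonneg_right h7 (norm_nonneg (y : L2E d))
    linarith
  rw [h1]

/-- The projection of `v` is `v - γ` if `γ` is an `L²(D)` limit of gradients of test functions and `∫_D ⟪v - γ, ∇q⟫ = 0` for all test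
functions `q` (the form of block B: `IsQ`). -/
theorem PD_eq_sub (h : Dom D z δ) {v γ : En d → En d} (hv : MemLp v 2 (volume.restrict D))
    (hγ : MemLp γ 2 (volume.restrict D))
    (hg : ∀ ε : ℝ≥0∞, 0 < ε → ∃ q : En d → ℝ, ContDiff ℝ 1 q ∧ HasCompactSupport q ∧
      eLpNorm (fun x => γ x - gd q x) 2 (volume.restrict D) ≤ ε)
    (ho : ∀ q : En d → ℝ, ContDiff ℝ 1 q → HasCompactSupport q → ∫ x in D, ⟪v x - γ x, gd q x⟫ = 0) :
    ((PD D (cl (D.indicator v)) : HD D) : L2E d) = cl (D.indicator fun x => v x - γ x) := by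
  have hm := h.isOpen.measurableSet
  have hv' : MemLp (D.indicator v) 2 (volume : Measure (En d)) := (memLp_indicator_iff_restrict hm).2 hv
  have hw' : MemLp (D.indicator fun x => v x - γ x) 2 (volume : Measure (En d)) :=
    (memLp_indicator_iff_restrict hm).2 (hv.sub hγ)
  refine PD_eq_of h (w := fun x => v x - γ x) hv' ?_ hw' fun ε hε => ?_
  · refine mem_HD h ?_ fun q hq hc => ?_
    · filter_upwards [cl_coe hw'] with x h1 hx
      rw [h1, indicator_of_notMem hx]
    · have hgc : HasCompactSupport (gd q) := by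
        refine HasCompactSupport.of_support_subset_isCompact hc fun x hx => ?_
        by_contra h1
        have h2 : fderiv ℝ q x = 0 := by
          by_contra h3
          exact h1 (support_fderiv_subset ℝ h3)
        apply hx
        rw [← norm_eq_zero, mb6_norm_gd, h2, norm_zero]
      have hgm : MemLp (gd q) 2 (volume : Measure (En d)) := hq.gd.continuous.memLp_of_hasCompactSupport hgc
      rw [cl_inner hw' hgm, ← ho q (hq.of_le (by exact_mod_cast le_top)) hc, ← integral_indicator hm]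
      refine integral_congr_ae (Eventually.of_forall fun x => ?_)
      by_cases hx : x ∈ D
      · simp [hx]
      · simp [hx]
  · obtain ⟨q, hq, hc, h1⟩ := hg ε hε
    refine ⟨q, hq, hc, ?_⟩
    have h2 : (fun x => v x - (v x - γ x) - gd q x) = fun x => γ x - gd q x := by
      funext x
      abel
    rw [h2]
    exact h1

end

end Pool.Agent.Lib.MP_79abb3_an.W
end
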