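import Pool.Agent.Lib.MP_79abb3_an.W.BM5
import Pool.Agent.Lib.MP_79abb3_an.W.BX1
import Pool.Agent.Lib.MP_79abb3_an.W.Mb6

/-!
Theorem W, block B: the Leray projection in the notation of block A, estimates in `H¹` and `H²`.
-/

set_option autoImplicit false
set_option linter.unusedSectionVars false

open MeasureTheory Set Filter Topology Function
open scoped RealInnerProductSpace ENNReal NNReal

namespace Pool.Agent.Lib.MP_79abb3_an.W

variable {d : ℕ} {D : Set (Ed d)} {z : Ed d → ℝ} {δ : ℝ}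

private theorem bx2_mem (h : Dom D z δ) {G : Type} [NormedAddCommGroup G] [NormedSpace ℝ G] {F : Ed d → G}
    (hF : BD D F) : MemLp (D.indicator F) 2 (volume : Measure (Ed d)) := by
  obtain ⟨C, hC⟩ := hF.2 0
  refine ind_memLp h hF.1.continuousOn (C := C) (fun x hx => ?_) 2
  have := hC x hx
  rwa [norm_iteratedFDeriv_zero] at this

/-- Tangential divergence free fields of the class `BD` are in `H(D)`. -/
theorem Dom.mem_HD_BD (h : Dom D z δ) {v : Ed d → Ed d} (hv : BD D v) (hd : ∀ x ∈ D, dv v x = 0)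
    (hn : Oz D z (fun x => ⟪gradient z x, v x⟫)) : cl (D.indicator v) ∈ HD D := by
  obtain ⟨C, hC⟩ := hv.2 0
  obtain ⟨C', hC'⟩ := hn
  refine BD_mem_HD h hv.1 (C := max C C') (fun x hx => ?_) hd (fun x hx => ?_)
  · have := hC x hx
    rw [norm_iteratedFDeriv_zero] at this
    exact this.trans (le_max_left _ _)
  · rw [real_inner_comm]
    refine (hC' x hx).trans ?_
    exact mul_le_mul_of_nonneg_right (le_max_right _ _) ((h.pos x).1 hx).le

/-- Divergence free fields of the class `BD` which vanish at the walls are in `V(D)`. -/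
theorem Dom.mem_VD_BD (h : Dom D z δ) {v : Ed d → Ed d} (hv : BD D v) (hd : ∀ x ∈ D, dv v x = 0) (hn : Oz D z v) :
    ∃ w : VD D, ((io D w : HD D) : L2E d) = cl (D.indicator v) ∧ ∀ i, gi w i = cl (D.indicator (pd i v)) := by
  obtain ⟨C, hC⟩ := hv.2 1
  obtain ⟨C', hC'⟩ := hn
  refine BD_mem_VD h hv.1 (C := max C C') (fun x hx => ?_) (fun x hx i => ?_) hd
  · exact (hC' x hx).trans (mul_le_mul_of_nonneg_right (le_max_right _ _) ((h.pos x).1 hx).le)
  · have h1 := hC x hx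
    rw [norm_iteratedFDeriv_one] at h1
    have h2 : ‖pd i v x‖ ≤ ‖fderiv ℝ v x‖ * ‖(ei i : Ed d)‖ := (fderiv ℝ v x).le_opNorm _
    have h3 : ‖(ei i : Ed d)‖ = 1 := by unfold ei; simp
    rw [h3, mul_one] at h2
    exact (h2.trans h1).trans (le_max_left _ _)

/-- The projection of `F ∈ BD` is `v` if `F = v + ∇q` with `v`, `q ∈ BD`, `v` divergence free and tangential. -/
theorem Dom.PD_eq (h : Dom D z δ) {F v : Ed d → Ed d} {q : Ed d → ℝ} (hF : BD D F) (hv : BD D v) (hq : BD D q)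
    (he : ∀ x ∈ D, F x = v x + gradient q x) (hd : ∀ x ∈ D, dv v x = 0)
    (hn : Oz D z (fun x => ⟪gradient z x, v x⟫)) :
    ((PD D (cl (D.indicator F)) : HD D) : L2E d) = cl (D.indicator v) := by
  have hB := h.toB
  have hm := h.isOpen.measurableSet
  have h0 : MemLp q 2 (volume.restrict D) := (memLp_indicator_iff_restrict hm).1 (bx2_mem h hq)
  have h1 : MemLp (gradient q) 2 (volume.restrict D) := by
    have h2 : MemLp (fun x => F x - v x) 2 (volume.restrict D) :=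
      ((memLp_indicator_iff_restrict hm).1 (bx2_mem h hF)).sub ((memLp_indicator_iff_restrict hm).1 (bx2_mem h hv))
    refine (memLp_congr_ae ?_).1 h2
    refine (ae_restrict_iff' hm).2 (Eventually.of_forall fun x hx => ?_)
    show F x - v x = gradient q x
    rw [he x hx, add_sub_cancel_left]
  have hI := hB.inH hq.1 h0 h1
  refine PD_eq_of h (bx2_mem h hF) (h.mem_HD_BD hv hd hn) (bx2_mem h hv) fun ε hε => ?_
  obtain ⟨φ, hφ, -, h3⟩ := hI.ap ε hε.ne'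
  refine ⟨φ, hφ.c1, hφ.cpt, ?_⟩
  refine le_of_eq_of_le (eLpNorm_congr_ae ?_) h3
  refine (ae_restrict_iff' hm).2 (Eventually.of_forall fun x hx => ?_)
  show F x - v x - gd φ x = gradient q x - gradient φ x
  rw [he x hx, gradient_eq_gd φ, add_sub_cancel_left]

/-- **The Leray projection** of a field in `BD(D)`: `F = v + ∇q`, `P F = v`, with estimates of the sharp order. -/
theorem Dom.leray (h : Dom D z δ) : ∃ C : ℕ → ℝ≥0, ∀ F : Ed d → Ed d, BD D F → ∃ (v : Ed d → Ed d)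
    (q : Ed d → ℝ), BD D v ∧ BD D q ∧ (∀ x, F x = v x + gradient q x) ∧ (∀ x ∈ D, dv v x = 0) ∧
      Oz D z (fun x => ⟪gradient z x, v x⟫) ∧
      ((PD D (cl (D.indicator F)) : HD D) : L2E d) = cl (D.indicator v) ∧
      (∀ k, B.Hn D k v ≤ C k * B.Hn D k F) ∧ ∀ k, B.Hn D k (gradient q) ≤ C k * B.Hn D k F := by
  obtain ⟨C, hC⟩ := h.toB.leray
  refine ⟨C, fun F hF => ?_⟩
  obtain ⟨v, q, hv, hq, he, hd, hn, h1, h2⟩ := hC F hF
  exact ⟨v, q, hv, hq, he, hd, hn, h.PD_eq hF hv hq (fun x _ => he x) hd hn, h1, h2⟩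

/-- Prescribed normal derivative: if `η` is the wall trace of a divergence free field `v` (in the normal direction), there is
a harmonic `q` with `n · (∇q - η) = O(z)`. -/
theorem Dom.neumann_field (h : Dom D z δ) {η v : Ed d → Ed d} (hη : BD D (fun x => ⟪gradient z x, η x⟫)) (hv : BD D v)
    (hd : ∀ x ∈ D, dv v x = 0) (hn : Oz D z (fun x => ⟪gradient z x, v x⟫ - ⟪gradient z x, η x⟫)) :
    ∃ q : Ed d → ℝ, BD D q ∧ (∀ x ∈ D, lap q x = 0) ∧
      Oz D z (fun x => ⟪gradient z x, gradient q x⟫ - ⟪gradient z x, η x⟫) := by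
  obtain ⟨x₀, hx₀⟩ := h.conn.nonempty
  obtain ⟨r, hr, hrD⟩ := Metric.isOpen_iff.1 h.isOpen x₀ hx₀
  have hr2 : 0 < r / 4 := by positivity
  let χ : ContDiffBump (x₀ : Ed d) := ⟨r / 4, r / 2, hr2, by linarith⟩
  let θ : Ed d → ℝ := fun x => χ.normed volume x
  have hθ : B.Sm θ := χ.contDiff_normed
  have hθ1 : ∫ x in D, θ x = 1 := by
    rw [← χ.integral_normed (μ := (volume : Measure (Ed d)))]
    refine setIntegral_eq_integral_of_forall_compl_eq_zero fun x hx => ?_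
    by_contra h1
    have h2 : x ∈ tsupport (χ.normed volume) := subset_tsupport _ h1
    rw [χ.tsupport_normed_eq] at h2
    have h3 : x ∈ Metric.ball x₀ r := Metric.closedBall_subset_ball (by show r / 2 < r; linarith) h2
    exact hx (hrD h3)
  obtain ⟨Cm, hCm⟩ := h.toB.neumann_bdry hθ hθ1
  obtain ⟨q, c, hq, hl, hnq, hc, -⟩ := hCm _ hη
  have hc0 : c = 0 := hc v hv hd hn
  refine ⟨q, hq, fun x hx => ?_, hnq⟩
  rw [← divg_gradient_eq h.isOpen hq.1 hx, hl x hx, hc0, zero_mul]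

/-- Prescribed normal derivative `g`, with a source `c θ`. -/
theorem Dom.neumann_bdry (h : Dom D z δ) {θ : Ed d → ℝ} (hθ : Smo θ) (hθ1 : ∫ x in D, θ x = 1) :
    ∃ Cm : ℕ → ℝ × ℕ, ∀ g : Ed d → ℝ, BD D g → ∃ (q : Ed d → ℝ) (c : ℝ), BD D q ∧
      (∀ x ∈ D, lap q x = c * θ x) ∧ Oz D z (fun x => ⟪gradient z x, gradient q x⟫ - g x) ∧
      (∀ v : Ed d → Ed d, BD D v → (∀ x ∈ D, dv v x = 0) → Oz D z (fun x => ⟪gradient z x, v x⟫ - g x) → c = 0) ∧
      ∀ k, ∀ A : ℝ, (∀ j ≤ (Cm k).2, ∀ x ∈ D, ‖iteratedFDeriv ℝ j g x‖ ≤ A) →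
        ∀ j ≤ k, ∀ x ∈ D, ‖iteratedFDeriv ℝ j q x‖ ≤ (Cm k).1 * A := by
  obtain ⟨Cm, hCm⟩ := h.toB.neumann_bdry hθ hθ1
  refine ⟨Cm, fun g hg => ?_⟩
  obtain ⟨q, c, hq, hl, hnq, hc, hk⟩ := hCm g hg
  refine ⟨q, c, hq, fun x hx => ?_, hnq, hc, hk⟩
  rw [← divg_gradient_eq h.isOpen hq.1 hx, hl x hx]

/-! ### Estimates in terms of the norms of the partial derivatives -/

/-- the norm of `H¹(D)` -/
noncomputable def nH1 (D : Set (Ed d)) (F : Ed d → Ed d) : ℝ :=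
  ‖cl (D.indicator F)‖ + ∑ i, ‖cl (D.indicator (pd i F))‖

/-- the norm of `H²(D)` -/
noncomputable def nH2 (D : Set (Ed d)) (F : Ed d → Ed d) : ℝ :=
  nH1 D F + ∑ i, ∑ j, ‖cl (D.indicator (pd i (pd j F)))‖

private theorem bx2_smo {v : Ed d → Ed d} (hD : IsOpen D) (hv : ContDiffOn ℝ ((⊤ : ℕ∞) : WithTop ℕ∞) v D)
    (i : Fin d) : ContDiffOn ℝ ((⊤ : ℕ∞) : WithTop ℕ∞) (pd i v) D := by
  have h1 : ContDiffOn ℝ ((⊤ : ℕ∞) : WithTop ℕ∞) (fderiv ℝ v) D :=
    hv.fderiv_of_isOpen hD (by exact_mod_cast le_top)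
  exact h1.clm_apply contDiffOn_const

private theorem bx2_ei (i : Fin d) : ‖(ei i : Ed d)‖ = 1 := by unfold ei; simp

private theorem bx2_pd_le {G : Type} [NormedAddCommGroup G] [NormedSpace ℝ G] (u : Ed d → G) (i : Fin d) (x : Ed d) :
    ‖pd i u x‖ ≤ ‖fderiv ℝ u x‖ := by
  refine ((fderiv ℝ u x).le_opNorm _).trans ?_
  rw [bx2_ei, mul_one]

private theorem bx2_dec (y : Ed d) : y = ∑ j, y j • (ei j : Ed d) := by
  ext k
  simp [ei, Finset.sum_apply, Pi.single_apply]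

private theorem bx2_op {G : Type} [NormedAddCommGroup G] [NormedSpace ℝ G] (T : Ed d →L[ℝ] G) :
    ‖T‖ ≤ ∑ i, ‖T (ei i)‖ := by
  refine ContinuousLinearMap.opNorm_le_bound _ (Finset.sum_nonneg fun i _ => norm_nonneg _) fun y => ?_
  have h1 : T y = ∑ j, y j • T (ei j) := by
    conv_lhs => rw [bx2_dec y]
    rw [map_sum]
    exact Finset.sum_congr rfl fun j _ => map_smul _ _ _
  rw [h1, Finset.sum_mul]
  refine (norm_sum_le _ _).trans (Finset.sum_le_sum fun i _ => ?_)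
  rw [norm_smul, mul_comm]
  exact mul_le_mul_of_nonneg_left (PiLp.norm_apply_le y i) (norm_nonneg _)

private theorem bx2_le_pd {G : Type} [NormedAddCommGroup G] [NormedSpace ℝ G] (u : Ed d → G) (x : Ed d) :
    ‖fderiv ℝ u x‖ ≤ ∑ i, ‖pd i u x‖ := bx2_op _

/-- second derivatives: `fderiv (fderiv u)` and `pd i (pd j u)` -/
private theorem bx2_pd2 {u : Ed d → Ed d} (hD : IsOpen D) (hu : ContDiffOn ℝ ((⊤ : ℕ∞) : WithTop ℕ∞) u D) {x : Ed d}
    (hx : x ∈ D) (i j : Fin d) : pd i (pd j u) x = (fderiv ℝ (fderiv ℝ u) x (ei i)) (ei j) := by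
  have h1 : DifferentiableAt ℝ (fderiv ℝ u) x := by
    have h2 : ContDiffOn ℝ ((⊤ : ℕ∞) : WithTop ℕ∞) (fderiv ℝ u) D :=
      hu.fderiv_of_isOpen hD (by exact_mod_cast le_top)
    exact (h2.contDiffAt (hD.mem_nhds hx)).differentiableAt (by norm_num)
  have h3 : HasFDerivAt (fun y => fderiv ℝ u y (ei j)) ((fderiv ℝ (fderiv ℝ u) x).flip (ei j)) x := by
    have h4 := h1.hasFDerivAt.clm_apply (hasFDerivAt_const (ei j : Ed d) x)
    refine h4.congr_fderiv ?_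
    ext y
    simp
  show fderiv ℝ (pd j u) x (ei i) = _
  have h5 : fderiv ℝ (pd j u) x = (fderiv ℝ (fderiv ℝ u) x).flip (ei j) := h3.fderiv
  rw [h5]
  rfl

private theorem bx2_two {u : Ed d → Ed d} (hD : IsOpen D) (hu : ContDiffOn ℝ ((⊤ : ℕ∞) : WithTop ℕ∞) u D) {x : Ed d}
    (hx : x ∈ D) : ‖iteratedFDeriv ℝ 2 u x‖ ≤ ∑ i, ∑ j, ‖pd i (pd j u) x‖ := by
  have h0 : ‖iteratedFDeriv ℝ 2 u x‖ = ‖fderiv ℝ (fderiv ℝ u) x‖ := by
    rw [← norm_iteratedFDeriv_fderiv, norm_iteratedFDeriv_one]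
  rw [h0]
  refine (bx2_le_pd (fderiv ℝ u) x).trans (Finset.sum_le_sum fun i _ => ?_)
  refine (bx2_op _).trans (Finset.sum_le_sum fun j _ => ?_)
  rw [bx2_pd2 hD hu hx]
  exact le_refl _

private theorem bx2_enorm (h : Dom D z δ) {F : Ed d → Ed d} (hF : MemLp (D.indicator F) 2 (volume : Measure (Ed d))) :
    eLpNorm F 2 (volume.restrict D) = ENNReal.ofReal ‖cl (D.indicator F)‖ := by
  rw [← eLpNorm_indicator_eq_eLpNorm_restrict h.isOpen.measurableSet, cl_eq hF, Lp.norm_toLp,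
    ENNReal.ofReal_toReal hF.2.ne]

private theorem bx2_BDpd (h : Dom D z δ) {F : Ed d → Ed d} (hF : BD D F) (i : Fin d) : BD D (pd i F) := by
  refine ⟨bx2_smo h.isOpen hF.1 i, fun k => ?_⟩
  obtain ⟨C, hC⟩ := hF.2 (k + 1)
  refine ⟨C, fun x hx => ?_⟩
  have h1 : ContDiffOn ℝ ((⊤ : ℕ∞) : WithTop ℕ∞) (fderiv ℝ F) D :=
    hF.1.fderiv_of_isOpen h.isOpen (by exact_mod_cast le_top)
  have h2 : ContDiffAt ℝ k (fderiv ℝ F) x :=
    (h1.contDiffAt (h.isOpen.mem_nhds hx)).of_le (by exact_mod_cast (le_top : (k : ℕ∞) ≤ ⊤))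
  have h3 := (ContinuousLinearMap.apply ℝ (Ed d) (ei i : Ed d)).norm_iteratedFDeriv_comp_left h2 (le_refl (k : WithTop ℕ∞))
  have h4 : ((ContinuousLinearMap.apply ℝ (Ed d) (ei i : Ed d)) ∘ fderiv ℝ F) = pd i F := rfl
  rw [h4] at h3
  refine h3.trans ?_
  have h5 : ‖ContinuousLinearMap.apply ℝ (Ed d) (ei i : Ed d)‖ ≤ 1 := by
    refine ContinuousLinearMap.opNorm_le_bound _ zero_le_one fun T => ?_
    rw [ContinuousLinearMap.apply_apply, one_mul]
    refine (T.le_opNorm _).trans ?_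
    rw [bx2_ei, mul_one]
  rw [norm_iteratedFDeriv_fderiv]
  calc ‖ContinuousLinearMap.apply ℝ (Ed d) (ei i : Ed d)‖ * ‖iteratedFDeriv ℝ (k + 1) F x‖
      ≤ 1 * ‖iteratedFDeriv ℝ (k + 1) F x‖ := mul_le_mul_of_nonneg_right h5 (norm_nonneg _)
    _ ≤ C := by rw [one_mul]; exact hC x hx

private theorem bx2_sum {ι : Type} [Fintype ι] (h : Dom D z δ) {g : Ed d → ℝ} {f : ι → Ed d → Ed d}
    (hf : ∀ i, MemLp (D.indicator (f i)) 2 (volume : Measure (Ed d)))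
    (hg : ∀ x ∈ D, ‖g x‖ ≤ ∑ i, ‖f i x‖) :
    eLpNorm g 2 (volume.restrict D) ≤ ENNReal.ofReal (∑ i, ‖cl (D.indicator (f i))‖) := by
  have hm := h.isOpen.measurableSet
  have hf' : ∀ i, MemLp (f i) 2 (volume.restrict D) := fun i => (memLp_indicator_iff_restrict hm).1 (hf i)
  calc eLpNorm g 2 (volume.restrict D) ≤ eLpNorm (∑ i, fun x => ‖f i x‖) 2 (volume.restrict D) := by
        refine eLpNorm_mono_ae ?_
        refine (ae_restrict_iff' hm).2 (Eventually.of_forall fun x hx => ?_)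
        refine (hg x hx).trans ?_
        rw [Finset.sum_apply]
        exact Real.le_norm_self _
    _ ≤ ∑ i, eLpNorm (fun x => ‖f i x‖) 2 (volume.restrict D) :=
        eLpNorm_sum_le (fun i _ => (hf' i).norm.1) (by norm_num)
    _ = ENNReal.ofReal (∑ i, ‖cl (D.indicator (f i))‖) := by
        rw [ENNReal.ofReal_sum_of_nonneg fun i _ => norm_nonneg _]
        refine Finset.sum_congr rfl fun i _ => ?_
        rw [eLpNorm_norm, bx2_enorm h (hf i)]

theorem nH1_nonneg (F : Ed d → Ed d) : 0 ≤ nH1 D F := by unfold nH1; positivity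

theorem nH2_nonneg (F : Ed d → Ed d) : 0 ≤ nH2 D F := by
  unfold nH2
  have := nH1_nonneg (D := D) F
  positivity

private theorem bx2_H0 (h : Dom D z δ) {F : Ed d → Ed d} (hF : BD D F) :
    eLpNorm (fun x => iteratedFDeriv ℝ 0 F x) 2 (volume.restrict D) = ENNReal.ofReal ‖cl (D.indicator F)‖ := by
  rw [← bx2_enorm h (bx2_mem h hF)]
  exact eLpNorm_congr_norm_ae (Eventually.of_forall fun x => norm_iteratedFDeriv_zero)

private theorem bx2_H1 (h : Dom D z δ) {F : Ed d → Ed d} (hF : BD D F) :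
    eLpNorm (fun x => iteratedFDeriv ℝ 1 F x) 2 (volume.restrict D) ≤
      ENNReal.ofReal (∑ i, ‖cl (D.indicator (pd i F))‖) := by
  have h1 := bx2_sum h (g := fun x => ‖iteratedFDeriv ℝ 1 F x‖) (f := fun i => pd i F)
    (fun i => bx2_mem h (bx2_BDpd h hF i)) (fun x _ => by
      rw [norm_norm, norm_iteratedFDeriv_one]
      exact bx2_le_pd F x)
  rwa [eLpNorm_norm] at h1

private theorem bx2_H2 (h : Dom D z δ) {F : Ed d → Ed d} (hF : BD D F) :
    eLpNorm (fun x => iteratedFDeriv ℝ 2 F x) 2 (volume.restrict D) ≤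
      ENNReal.ofReal (∑ i, ∑ j, ‖cl (D.indicator (pd i (pd j F)))‖) := by
  have h1 := bx2_sum h (g := fun x => ‖iteratedFDeriv ℝ 2 F x‖) (f := fun p : Fin d × Fin d => pd p.1 (pd p.2 F))
    (fun p => bx2_mem h (bx2_BDpd h (bx2_BDpd h hF p.2) p.1)) (fun x hx => by
      rw [norm_norm, Fintype.sum_prod_type]
      exact bx2_two h.isOpen hF.1 hx)
  rw [Fintype.sum_prod_type] at h1
  rwa [eLpNorm_norm] at h1

/-- `H¹` norm of block B by the partial derivatives -/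
theorem Dom.Hn1_le (h : Dom D z δ) {F : Ed d → Ed d} (hF : BD D F) : B.Hn D 1 F ≤ ENNReal.ofReal (nH1 D F) := by
  unfold B.Hn nH1
  rw [Finset.sum_range_succ, Finset.sum_range_one, ENNReal.ofReal_add (norm_nonneg _)
    (Finset.sum_nonneg fun i _ => norm_nonneg _)]
  exact add_le_add (bx2_H0 h hF).le (bx2_H1 h hF)

/-- `H²` norm of block B by the partial derivatives -/
theorem Dom.Hn2_le (h : Dom D z δ) {F : Ed d → Ed d} (hF : BD D F) : B.Hn D 2 F ≤ ENNReal.ofReal (nH2 D F) := by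
  have h1 := h.Hn1_le hF
  unfold B.Hn at h1 ⊢
  unfold nH2
  rw [Finset.sum_range_succ, ENNReal.ofReal_add (nH1_nonneg F)
    (Finset.sum_nonneg fun i _ => Finset.sum_nonneg fun j _ => norm_nonneg _)]
  exact add_le_add h1 (bx2_H2 h hF)

private theorem bx2_rev {F : Ed d → Ed d} {k : ℕ} (h : Dom D z δ) {g : Ed d → Ed d}
    (hg : MemLp (D.indicator g) 2 (volume : Measure (Ed d))) {j : ℕ} (hj : j ≤ k)
    (hle : ∀ x ∈ D, ‖g x‖ ≤ ‖iteratedFDeriv ℝ j F x‖) : ENNReal.ofReal ‖cl (D.indicator g)‖ ≤ B.Hn D k F := by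
  rw [← bx2_enorm h hg]
  refine le_trans ?_ (Finset.single_le_sum (f := fun j => eLpNorm (fun x => iteratedFDeriv ℝ j F x) 2
    (volume.restrict D)) (fun _ _ => zero_le) (Finset.mem_range.2 (Nat.lt_succ_of_le hj)))
  refine eLpNorm_mono_ae ?_
  exact (ae_restrict_iff' h.isOpen.measurableSet).2 (Eventually.of_forall hle)

private theorem bx2_pd2_le {u : Ed d → Ed d} (hD : IsOpen D) (hu : ContDiffOn ℝ ((⊤ : ℕ∞) : WithTop ℕ∞) u D)
    {x : Ed d} (hx : x ∈ D) (i j : Fin d) : ‖pd i (pd j u) x‖ ≤ ‖iteratedFDeriv ℝ 2 u x‖ := by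
  have h0 : ‖iteratedFDeriv ℝ 2 u x‖ = ‖fderiv ℝ (fderiv ℝ u) x‖ := by
    rw [← norm_iteratedFDeriv_fderiv, norm_iteratedFDeriv_one]
  rw [bx2_pd2 hD hu hx, h0]
  refine (ContinuousLinearMap.le_opNorm _ _).trans ?_
  rw [bx2_ei, mul_one]
  refine (ContinuousLinearMap.le_opNorm _ _).trans ?_
  rw [bx2_ei, mul_one]

theorem Dom.le_Hn1 (h : Dom D z δ) {F : Ed d → Ed d} (hF : BD D F) :
    ENNReal.ofReal (nH1 D F) ≤ (d + 1 : ℝ≥0) * B.Hn D 1 F := by
  unfold nH1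
  rw [ENNReal.ofReal_add (norm_nonneg _) (Finset.sum_nonneg fun i _ => norm_nonneg _),
    ENNReal.ofReal_sum_of_nonneg fun i _ => norm_nonneg _]
  have h0 := bx2_rev (F := F) (k := 1) h (bx2_mem h hF) (Nat.zero_le _) (fun x _ => by rw [norm_iteratedFDeriv_zero])
  have h1 : ∑ i : Fin d, ENNReal.ofReal ‖cl (D.indicator (pd i F))‖ ≤ ∑ _i : Fin d, B.Hn D 1 F :=
    Finset.sum_le_sum fun i _ => bx2_rev (F := F) (k := 1) h (bx2_mem h (bx2_BDpd h hF i)) (le_refl 1)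
      (fun x _ => by rw [norm_iteratedFDeriv_one]; exact bx2_pd_le F i x)
  rw [Finset.sum_const, Finset.card_univ, Fintype.card_fin, nsmul_eq_mul] at h1
  refine (add_le_add h0 h1).trans (le_of_eq ?_)
  push_cast
  ring

theorem Dom.le_Hn2 (h : Dom D z δ) {F : Ed d → Ed d} (hF : BD D F) :
    ENNReal.ofReal (nH2 D F) ≤ (d + 1 + d * d : ℝ≥0) * B.Hn D 2 F := by
  unfold nH2
  rw [ENNReal.ofReal_add (nH1_nonneg F) (Finset.sum_nonneg fun i _ => Finset.sum_nonneg fun j _ => norm_nonneg _),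
    ENNReal.ofReal_sum_of_nonneg fun i _ => Finset.sum_nonneg fun j _ => norm_nonneg _]
  have h0 := h.le_Hn1 hF
  have h00 : B.Hn D 1 F ≤ B.Hn D 2 F := by
    unfold B.Hn
    exact Finset.sum_le_sum_of_subset (Finset.range_mono (by norm_num))
  have h1 : ∑ i : Fin d, ENNReal.ofReal (∑ j, ‖cl (D.indicator (pd i (pd j F)))‖) ≤
      ∑ _i : Fin d, ∑ _j : Fin d, B.Hn D 2 F := by
    refine Finset.sum_le_sum fun i _ => ?_
    rw [ENNReal.ofReal_sum_of_nonneg fun j _ => norm_nonneg _]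
    exact Finset.sum_le_sum fun j _ => bx2_rev (F := F) (k := 2) h
      (bx2_mem h (bx2_BDpd h (bx2_BDpd h hF j) i)) (le_refl 2) (fun x hx => bx2_pd2_le h.isOpen hF.1 hx i j)
  rw [Finset.sum_const, Finset.sum_const, Finset.card_univ, Fintype.card_fin, nsmul_eq_mul, nsmul_eq_mul] at h1
  refine (add_le_add (h0.trans (mul_le_mul_right h00 _)) h1).trans (le_of_eq ?_)
  push_cast
  ring

private theorem bx2_real {a b : ℝ} {C K : ℝ≥0} {x y : ℝ≥0∞} (hb : 0 ≤ b) (h1 : ENNReal.ofReal a ≤ K * x)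
    (h2 : x ≤ C * y) (h3 : y ≤ ENNReal.ofReal b) : a ≤ (K * C : ℝ≥0) * b := by
  have h4 : ENNReal.ofReal a ≤ ENNReal.ofReal ((K * C : ℝ≥0) * b) := by
    rw [ENNReal.ofReal_mul (NNReal.coe_nonneg _), ENNReal.ofReal_coe_nnreal]
    calc ENNReal.ofReal a ≤ K * x := h1
      _ ≤ K * (C * y) := by gcongr
      _ ≤ K * (C * ENNReal.ofReal b) := by gcongr
      _ = ((K * C : ℝ≥0) : ℝ≥0∞) * ENNReal.ofReal b := by push_cast; ring
  exact (ENNReal.ofReal_le_ofReal_iff (by positivity)).1 h4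

/-- **The Leray projection, estimates in `H¹(D)` and `H²(D)`** in terms of the partial derivatives. -/
theorem Dom.leray12 (h : Dom D z δ) : ∃ C : ℝ, 0 ≤ C ∧ ∀ F : Ed d → Ed d, BD D F → ∃ (v : Ed d → Ed d)
    (q : Ed d → ℝ), BD D v ∧ BD D q ∧ (∀ x, F x = v x + gradient q x) ∧ (∀ x ∈ D, dv v x = 0) ∧
      Oz D z (fun x => ⟪gradient z x, v x⟫) ∧
      ((PD D (cl (D.indicator F)) : HD D) : L2E d) = cl (D.indicator v) ∧
      nH1 D v ≤ C * nH1 D F ∧ nH2 D v ≤ C * nH2 D F := by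
  obtain ⟨C, hC⟩ := h.leray
  refine ⟨max ((((d : ℝ≥0) + 1) * C 1 : ℝ≥0) : ℝ) ((((d : ℝ≥0) + 1 + d * d) * C 2 : ℝ≥0) : ℝ), by positivity,
    fun F hF => ?_⟩
  obtain ⟨v, q, hv, hq, he, hd, hn, hP, h1, -⟩ := hC F hF
  refine ⟨v, q, hv, hq, he, hd, hn, hP, ?_, ?_⟩
  · refine (bx2_real (nH1_nonneg F) ?_ (h1 1) (h.Hn1_le hF)).trans
      (mul_le_mul_of_nonneg_right (le_max_left _ _) (nH1_nonneg F))
    exact_mod_cast h.le_Hn1 hv
  · refine (bx2_real (nH2_nonneg F) ?_ (h1 2) (h.Hn2_le hF)).trans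
      (mul_le_mul_of_nonneg_right (le_max_right _ _) (nH2_nonneg F))
    exact_mod_cast h.le_Hn2 hv

end Pool.Agent.Lib.MP_79abb3_an.W
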