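import Pool.Agent.Lib.MP_79abb3_an.W.CDef

section

/-!
Theorem W (MP_79abb3_an), block C (density of the drifts). Pointwise rules for `OK`, `BN`: products, derivatives, linear maps.
-/

set_option autoImplicit false
set_option linter.unusedSectionVars false
set_option linter.unusedVariables false

open MeasureTheory Set Filter Topology Function Metric
open scoped ENNReal InnerProductSpace BoundedContinuousFunction

namespace Pool.Agent.Lib.MP_79abb3_an.W.C

variable {d : ℕ} {F : Type} [NormedAddCommGroup F] [NormedSpace ℝ F]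

theorem cab_bn {R : Set (Ed d)} {f : Ed d → F} (hf : OK R f) (m : ℕ) : ∃ c, 0 ≤ c ∧ BN R m f c := by
  choose C hC using hf.2
  refine ⟨∑ i ∈ Finset.range (m + 1), |C i|, Finset.sum_nonneg fun i _ => abs_nonneg _, ?_⟩
  intro i hi x hx
  refine (hC i x hx).trans ((le_abs_self _).trans ?_)
  exact Finset.single_le_sum (f := fun i => |C i|) (fun i _ => abs_nonneg _)
    (Finset.mem_range.2 (Nat.lt_succ_of_le hi))

theorem cab_ok {R : Set (Ed d)} {f : Ed d → F} (h1 : ∀ x ∈ R, ContDiffAt ℝ ((⊤ : ℕ∞) : WithTop ℕ∞) f x)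
    (h2 : ∀ m, ∃ c, BN R m f c) : OK R f := by
  refine ⟨h1, fun m => ?_⟩
  obtain ⟨c, hc⟩ := h2 m
  exact ⟨c, fun x hx => hc m le_rfl x hx⟩

/-- PROOF: `ContDiffAt` gives an open neighbourhood `U` of `x` where `f, g` are `ContDiffOn` of order `m`; there
`iteratedFDerivWithin = iteratedFDeriv` (`iteratedFDerivWithin_of_isOpen`) and `norm_iteratedFDerivWithin_mul_le`;
`∑_j C(i,j) a b = 2^i a b ≤ 2^m a b`. -/
theorem nrm_mul {f g : Ed d → ℂ} {x : Ed d} (hf : ContDiffAt ℝ ((⊤ : ℕ∞) : WithTop ℕ∞) f x)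
    (hg : ContDiffAt ℝ ((⊤ : ℕ∞) : WithTop ℕ∞) g x) {m : ℕ} {a b : ℝ}
    (ha : ∀ i ≤ m, ‖iteratedFDeriv ℝ i f x‖ ≤ a) (hb : ∀ i ≤ m, ‖iteratedFDeriv ℝ i g x‖ ≤ b) :
    ∀ i ≤ m, ‖iteratedFDeriv ℝ i (fun x => f x * g x) x‖ ≤ 2 ^ m * a * b := by
  intro i hi
  have hfe := (hf.of_le (m := ((i : ℕ∞) : WithTop ℕ∞)) (by exact_mod_cast le_top)).eventually (by simp)
  have hge := (hg.of_le (m := ((i : ℕ∞) : WithTop ℕ∞)) (by exact_mod_cast le_top)).eventually (by simp)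
  obtain ⟨U, hU, hUo, hx⟩ := _root_.eventually_nhds_iff.1 (hfe.and hge)
  have hfU : ContDiffOn ℝ ((i : ℕ∞) : WithTop ℕ∞) f U := fun y hy => (hU y hy).1.contDiffWithinAt
  have hgU : ContDiffOn ℝ ((i : ℕ∞) : WithTop ℕ∞) g U := fun y hy => (hU y hy).2.contDiffWithinAt
  have key := norm_iteratedFDerivWithin_mul_le hfU hgU hUo.uniqueDiffOn hx (n := i) le_rfl
  rw [iteratedFDerivWithin_of_isOpen i hUo hx] at key
  have ha0 : 0 ≤ a := (norm_nonneg _).trans (ha 0 (Nat.zero_le _))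
  have hb0 : 0 ≤ b := (norm_nonneg _).trans (hb 0 (Nat.zero_le _))
  refine key.trans ?_
  have h1 : ∑ j ∈ Finset.range (i + 1), (i.choose j : ℝ) * ‖iteratedFDerivWithin ℝ j f U x‖ *
        ‖iteratedFDerivWithin ℝ (i - j) g U x‖ ≤ ∑ j ∈ Finset.range (i + 1), (i.choose j : ℝ) * a * b := by
    refine Finset.sum_le_sum fun j hj => ?_
    have hj' : j ≤ i := Nat.lt_succ_iff.1 (Finset.mem_range.1 hj)
    rw [iteratedFDerivWithin_of_isOpen j hUo hx, iteratedFDerivWithin_of_isOpen (i - j) hUo hx]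
    have e1 := ha j (hj'.trans hi)
    have e2 := hb (i - j) ((Nat.sub_le _ _).trans hi)
    have e3 : (0 : ℝ) ≤ (i.choose j : ℝ) := Nat.cast_nonneg _
    exact mul_le_mul (mul_le_mul_of_nonneg_left e1 e3) e2 (norm_nonneg _) (mul_nonneg e3 ha0)
  refine h1.trans ?_
  rw [← Finset.sum_mul, ← Finset.sum_mul]
  have h2 : ∑ j ∈ Finset.range (i + 1), (i.choose j : ℝ) = 2 ^ i := by
    exact_mod_cast Nat.sum_range_choose i
  rw [h2]
  have h3 : (2 : ℝ) ^ i ≤ 2 ^ m := pow_le_pow_right₀ (by norm_num) hi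
  exact mul_le_mul_of_nonneg_right (mul_le_mul_of_nonneg_right h3 ha0) hb0

theorem bn_mul {R : Set (Ed d)} {f g : Ed d → ℂ} {m : ℕ} {a b : ℝ} (hf : OK R f) (hg : OK R g)
    (ha : BN R m f a) (hb : BN R m g b) : BN R m (fun x => f x * g x) (2 ^ m * a * b) := by
  intro i hi x hx
  exact nrm_mul (hf.1 x hx) (hg.1 x hx) (fun i hi => ha i hi x hx) (fun i hi => hb i hi x hx) i hi

theorem ok_mul {R : Set (Ed d)} {f g : Ed d → ℂ} (hf : OK R f) (hg : OK R g) : OK R (fun x => f x * g x) := by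
  refine cab_ok (fun x hx => (hf.1 x hx).mul (hg.1 x hx)) fun m => ?_
  obtain ⟨a, _, ha⟩ := cab_bn hf m
  obtain ⟨b, _, hb⟩ := cab_bn hg m
  exact ⟨_, bn_mul hf hg ha hb⟩

/-- PROOF: `iteratedFDeriv ℝ i (fderiv ℝ f)` has the norm of `iteratedFDeriv ℝ (i+1) f`
(`norm_iteratedFDeriv_fderiv`), evaluation at `eb j` is a linear map of norm `≤ 1`. -/
theorem nrm_pd {f : Ed d → F} {x : Ed d} (hf : ContDiffAt ℝ ((⊤ : ℕ∞) : WithTop ℕ∞) f x) (j : Fin d) (i : ℕ) :
    ‖iteratedFDeriv ℝ i (pd j f) x‖ ≤ ‖iteratedFDeriv ℝ (i + 1) f x‖ := by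
  have h1 : ContDiffAt ℝ ((i : ℕ∞) : WithTop ℕ∞) (fderiv ℝ f) x :=
    hf.fderiv_right (m := ((i : ℕ∞) : WithTop ℕ∞)) (by exact_mod_cast le_top)
  have h2 := norm_iteratedFDeriv_clm_apply_const (c := eb j) h1 (n := i) le_rfl
  have h3 : ‖(eb j : Ed d)‖ = 1 := by simp [eb]
  rw [h3, one_mul, norm_iteratedFDeriv_fderiv] at h2
  exact h2

theorem cda_pd {f : Ed d → F} {x : Ed d} (hf : ContDiffAt ℝ ((⊤ : ℕ∞) : WithTop ℕ∞) f x) (j : Fin d) :
    ContDiffAt ℝ ((⊤ : ℕ∞) : WithTop ℕ∞) (pd j f) x := by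
  have h1 : ContDiffAt ℝ ((⊤ : ℕ∞) : WithTop ℕ∞) (fderiv ℝ f) x :=
    hf.fderiv_right (m := ((⊤ : ℕ∞) : WithTop ℕ∞)) (by exact_mod_cast le_top)
  exact h1.clm_apply contDiffAt_const

theorem ok_pd {R : Set (Ed d)} {f : Ed d → F} (hf : OK R f) (j : Fin d) : OK R (pd j f) := by
  refine cab_ok (fun x hx => cda_pd (hf.1 x hx) j) fun m => ?_
  obtain ⟨a, _, ha⟩ := cab_bn hf (m + 1)
  exact ⟨a, fun i hi x hx => (nrm_pd (hf.1 x hx) j i).trans (ha (i + 1) (Nat.succ_le_succ hi) x hx)⟩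

theorem bn_pd {R : Set (Ed d)} {f : Ed d → F} {m : ℕ} {c : ℝ} (hf : OK R f) (h : GN R (m + 1) f c) (j : Fin d) :
    BN R m (pd j f) c := by
  intro i hi x hx
  exact (nrm_pd (hf.1 x hx) j i).trans (h (i + 1) (Nat.succ_le_succ (Nat.zero_le _)) (Nat.succ_le_succ hi) x hx)

theorem smo_pd {f : Ed d → F} (hf : Smo f) (j : Fin d) : Smo (pd j f) := by
  unfold Smo at hf ⊢
  rw [contDiff_iff_contDiffAt] at hf ⊢
  exact fun x => cda_pd (hf x) j

/-- PROOF: `ContinuousLinearMap.norm_iteratedFDeriv_comp_left` (localised). -/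
theorem nrm_clm {G : Type} [NormedAddCommGroup G] [NormedSpace ℝ G] (L : F →L[ℝ] G) {f : Ed d → F} {x : Ed d}
    (hf : ContDiffAt ℝ ((⊤ : ℕ∞) : WithTop ℕ∞) f x) (i : ℕ) :
    ‖iteratedFDeriv ℝ i (fun x => L (f x)) x‖ ≤ ‖L‖ * ‖iteratedFDeriv ℝ i f x‖ := by
  exact L.norm_iteratedFDeriv_comp_left hf (by exact_mod_cast le_top)

theorem ok_clm {G : Type} [NormedAddCommGroup G] [NormedSpace ℝ G] (L : F →L[ℝ] G) {R : Set (Ed d)}
    {f : Ed d → F} (hf : OK R f) : OK R (fun x => L (f x)) := by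
  refine cab_ok (fun x hx => L.contDiff.contDiffAt.comp x (hf.1 x hx)) fun m => ?_
  obtain ⟨a, _, ha⟩ := cab_bn hf m
  exact ⟨‖L‖ * a, fun i hi x hx => (nrm_clm L (hf.1 x hx) i).trans
    (mul_le_mul_of_nonneg_left (ha i hi x hx) (norm_nonneg _))⟩

theorem bn_clm {G : Type} [NormedAddCommGroup G] [NormedSpace ℝ G] (L : F →L[ℝ] G) {R : Set (Ed d)}
    {f : Ed d → F} {m : ℕ} {c : ℝ} (hf : OK R f) (h : BN R m f c) : BN R m (fun x => L (f x)) (‖L‖ * c) := by
  intro i hi x hx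
  exact (nrm_clm L (hf.1 x hx) i).trans (mul_le_mul_of_nonneg_left (h i hi x hx) (norm_nonneg _))

/-- the map `c ↦ c e_i` -/
noncomputable def cab_L (d : ℕ) (i : Fin d) : ℂ →L[ℝ] Cd d :=
  (ContinuousLinearMap.toSpanSingleton ℂ (EuclideanSpace.single i (1 : ℂ))).restrictScalars ℝ

theorem cab_L_apply (i : Fin d) (c : ℂ) : cab_L d i c = c • (EuclideanSpace.single i (1 : ℂ) : Cd d) := rfl

theorem cab_L_norm (i : Fin d) : ‖cab_L d i‖ ≤ 1 := by
  refine ContinuousLinearMap.opNorm_le_bound _ zero_le_one fun c => ?_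
  rw [cab_L_apply, norm_smul, PiLp.norm_single, norm_one, mul_one, one_mul]

theorem cab_vec_eq (f : Fin d → Ed d → ℂ) : (fun x => (WithLp.toLp 2 fun i => f i x : Cd d)) =
    fun x => ∑ i, cab_L d i (f i x) := by
  funext x
  ext j
  simp [cab_L_apply, Finset.sum_apply, Pi.single_apply]

theorem cab_vec_nrm {f : Fin d → Ed d → ℂ} {x : Ed d}
    (hf : ∀ i, ContDiffAt ℝ ((⊤ : ℕ∞) : WithTop ℕ∞) (f i) x) (k : ℕ) :
    ‖iteratedFDeriv ℝ k (fun x => (WithLp.toLp 2 fun i => f i x : Cd d)) x‖ ≤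
      ∑ i, ‖iteratedFDeriv ℝ k (f i) x‖ := by
  rw [cab_vec_eq f]
  have h1 : ∀ i ∈ (Finset.univ : Finset (Fin d)),
      ContDiffAt ℝ ((k : ℕ∞) : WithTop ℕ∞) (fun x => cab_L d i (f i x)) x := fun i _ =>
    (((cab_L d i).contDiff.contDiffAt.comp x (hf i)).of_le (by exact_mod_cast le_top))
  rw [iteratedFDeriv_fun_sum_apply (f := fun i x => cab_L d i (f i x)) (n := k) h1]
  refine (norm_sum_le _ _).trans (Finset.sum_le_sum fun i _ => ?_)
  refine (nrm_clm (cab_L d i) (hf i) k).trans ?_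
  calc ‖cab_L d i‖ * ‖iteratedFDeriv ℝ k (f i) x‖ ≤ 1 * ‖iteratedFDeriv ℝ k (f i) x‖ :=
        mul_le_mul_of_nonneg_right (cab_L_norm i) (norm_nonneg _)
    _ = _ := one_mul _

/-- fields from their components. PROOF: `toLp f = ∑ i, (L_i (f i))` with `L_i c = c • single i 1` of norm `1`. -/
theorem ok_vec {R : Set (Ed d)} {f : Fin d → Ed d → ℂ} (hf : ∀ i, OK R (f i)) :
    OK R (fun x => (WithLp.toLp 2 fun i => f i x : Cd d)) := by
  refine cab_ok (fun x hx => ?_) fun m => ?_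
  · rw [cab_vec_eq f]
    exact ContDiffAt.sum fun i _ => (cab_L d i).contDiff.contDiffAt.comp x ((hf i).1 x hx)
  · choose c hc0 hc using fun i => cab_bn (hf i) m
    refine ⟨∑ i, c i, fun k hk x hx => ?_⟩
    refine (cab_vec_nrm (fun i => (hf i).1 x hx) k).trans ?_
    exact Finset.sum_le_sum fun i _ => hc i k hk x hx

theorem bn_vec {R : Set (Ed d)} {f : Fin d → Ed d → ℂ} {m : ℕ} {c : ℝ} (hf : ∀ i, OK R (f i))
    (h : ∀ i, BN R m (f i) c) : BN R m (fun x => (WithLp.toLp 2 fun i => f i x : Cd d)) (d * c) := by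
  intro k hk x hx
  refine (cab_vec_nrm (fun i => (hf i).1 x hx) k).trans ?_
  refine (Finset.sum_le_sum fun i _ => h i k hk x hx).trans (le_of_eq ?_)
  simp

/-- a real function as a complex function -/
theorem ok_ofReal {R : Set (Ed d)} {f : Ed d → ℝ} (hf : OK R f) : OK R (fun x => ((f x : ℝ) : ℂ)) := by
  exact ok_clm Complex.ofRealCLM hf

end Pool.Agent.Lib.MP_79abb3_an.W.C
end

section

/-!
Theorem W (MP_79abb3_an), block C (density of the drifts). Pointwise rules for `OK`, `BN`, `GN`: sums, products, constants.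
-/

set_option autoImplicit false
set_option linter.unusedSectionVars false
set_option linter.unusedVariables false

open MeasureTheory Set Filter Topology Function Metric
open scoped ENNReal InnerProductSpace BoundedContinuousFunction

namespace Pool.Agent.Lib.MP_79abb3_an.W.C

variable {d : ℕ} {F : Type} [NormedAddCommGroup F] [NormedSpace ℝ F]

private theorem caa_nat {f : Ed d → F} {x : Ed d} (h : ContDiffAt ℝ ((⊤ : ℕ∞) : WithTop ℕ∞) f x) (m : ℕ) :
    ContDiffAt ℝ m f x := h.of_le (by exact_mod_cast le_top)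

private theorem caa_add {f g : Ed d → F} {x : Ed d} (hf : ContDiffAt ℝ ((⊤ : ℕ∞) : WithTop ℕ∞) f x)
    (hg : ContDiffAt ℝ ((⊤ : ℕ∞) : WithTop ℕ∞) g x) {m : ℕ} {a b : ℝ}
    (h1 : ‖iteratedFDeriv ℝ m f x‖ ≤ a) (h2 : ‖iteratedFDeriv ℝ m g x‖ ≤ b) :
    ‖iteratedFDeriv ℝ m (fun x => f x + g x) x‖ ≤ a + b := by
  rw [fun_iteratedFDeriv_add_apply (caa_nat hf m) (caa_nat hg m)]
  exact (norm_add_le _ _).trans (add_le_add h1 h2)

private theorem caa_neg {f : Ed d → F} {x : Ed d} (m : ℕ) :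
    ‖iteratedFDeriv ℝ m (fun x => -f x) x‖ = ‖iteratedFDeriv ℝ m f x‖ := by
  have h : iteratedFDeriv ℝ m (fun x => -f x) x = -iteratedFDeriv ℝ m f x :=
    iteratedFDeriv_neg_apply
  rw [h, norm_neg]

private theorem caa_zero {x : Ed d} (m : ℕ) : ‖iteratedFDeriv ℝ m (fun _ : Ed d => (0 : F)) x‖ = 0 := by
  rcases Nat.eq_zero_or_pos m with h | h
  · subst h
    rw [norm_iteratedFDeriv_zero, norm_zero]
  · rw [iteratedFDeriv_const_of_ne h.ne']
    simp

/-- a smooth function is OK on bounded sets. PROOF: all derivatives are continuous, hence bounded on the compact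
closure of `R`. -/
theorem ok_of_smo {R : Set (Ed d)} {f : Ed d → F} (hf : Smo f) (hR : Bornology.IsBounded R) : OK R f := by
  refine ⟨fun x _ => ContDiff.contDiffAt hf, fun m => ?_⟩
  have hc : Continuous (iteratedFDeriv ℝ m f) :=
    ContDiff.continuous_iteratedFDeriv (by exact_mod_cast le_top) hf
  obtain ⟨C, hC⟩ := hR.isCompact_closure.exists_bound_of_continuousOn hc.continuousOn
  exact ⟨C, fun x hx => hC x (subset_closure hx)⟩

theorem ok_mono {R S : Set (Ed d)} {f : Ed d → F} (hf : OK S f) (h : R ⊆ S) : OK R f := by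
  refine ⟨fun x hx => hf.1 x (h hx), fun m => ?_⟩
  obtain ⟨C, hC⟩ := hf.2 m
  exact ⟨C, fun x hx => hC x (h hx)⟩

theorem ok_add {R : Set (Ed d)} {f g : Ed d → F} (hf : OK R f) (hg : OK R g) : OK R (fun x => f x + g x) := by
  refine ⟨fun x hx => (hf.1 x hx).add (hg.1 x hx), fun m => ?_⟩
  obtain ⟨C, hC⟩ := hf.2 m
  obtain ⟨C', hC'⟩ := hg.2 m
  exact ⟨C + C', fun x hx => caa_add (hf.1 x hx) (hg.1 x hx) (hC x hx) (hC' x hx)⟩

private theorem caa_okneg {R : Set (Ed d)} {f : Ed d → F} (hf : OK R f) : OK R (fun x => -f x) := by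
  refine ⟨fun x hx => (hf.1 x hx).neg, fun m => ?_⟩
  obtain ⟨C, hC⟩ := hf.2 m
  refine ⟨C, fun x hx => ?_⟩
  rw [caa_neg]
  exact hC x hx

theorem ok_sub {R : Set (Ed d)} {f g : Ed d → F} (hf : OK R f) (hg : OK R g) : OK R (fun x => f x - g x) := by
  have h := ok_add hf (caa_okneg hg)
  simpa only [← sub_eq_add_neg] using h

theorem ok_neg {R : Set (Ed d)} {f : Ed d → F} (hf : OK R f) : OK R (fun x => -f x) :=
  caa_okneg hf

theorem ok_const (R : Set (Ed d)) (c : F) : OK R (fun _ : Ed d => c) := by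
  refine ⟨fun x _ => contDiffAt_const, fun m => ?_⟩
  rcases Nat.eq_zero_or_pos m with h | h
  · subst h
    refine ⟨‖c‖, fun x _ => ?_⟩
    rw [norm_iteratedFDeriv_zero]
  · refine ⟨0, fun x _ => ?_⟩
    rw [iteratedFDeriv_const_of_ne h.ne']
    simp

theorem ok_sum {ι : Type} {R : Set (Ed d)} (s : Finset ι) {f : ι → Ed d → F} (hf : ∀ i ∈ s, OK R (f i)) :
    OK R (fun x => ∑ i ∈ s, f i x) := by
  classical
  induction s using Finset.induction_on with
  | empty =>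
    simp only [Finset.sum_empty]
    exact ok_const R 0
  | insert a s ha ih =>
    simp only [Finset.sum_insert ha]
    exact ok_add (hf a (Finset.mem_insert_self a s))
      (ih fun i hi => hf i (Finset.mem_insert_of_mem hi))

/-- only the germs of `f` at the points of `R` matter -/
theorem ok_congr {R : Set (Ed d)} {f g : Ed d → F} (hf : OK R f) (h : ∀ x ∈ R, f =ᶠ[𝓝 x] g) : OK R g := by
  refine ⟨fun x hx => (hf.1 x hx).congr_of_eventuallyEq (h x hx).symm, fun m => ?_⟩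
  obtain ⟨C, hC⟩ := hf.2 m
  refine ⟨C, fun x hx => ?_⟩
  rw [← (EventuallyEq.iteratedFDeriv ℝ (h x hx) m).self_of_nhds]
  exact hC x hx

theorem bn_congr {R : Set (Ed d)} {f g : Ed d → F} {m : ℕ} {c : ℝ} (hf : BN R m f c)
    (h : ∀ x ∈ R, f =ᶠ[𝓝 x] g) : BN R m g c := by
  intro i hi x hx
  rw [← (EventuallyEq.iteratedFDeriv ℝ (h x hx) i).self_of_nhds]
  exact hf i hi x hx

theorem bn_add {R : Set (Ed d)} {f g : Ed d → F} {m : ℕ} {a b : ℝ} (hf : OK R f) (hg : OK R g)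
    (ha : BN R m f a) (hb : BN R m g b) : BN R m (fun x => f x + g x) (a + b) := fun i hi x hx =>
  caa_add (hf.1 x hx) (hg.1 x hx) (ha i hi x hx) (hb i hi x hx)

theorem bn_sub {R : Set (Ed d)} {f g : Ed d → F} {m : ℕ} {a b : ℝ} (hf : OK R f) (hg : OK R g)
    (ha : BN R m f a) (hb : BN R m g b) : BN R m (fun x => f x - g x) (a + b) := by
  have hb' : BN R m (fun x => -g x) b := by
    intro i hi x hx
    rw [caa_neg]
    exact hb i hi x hx
  have h := bn_add hf (caa_okneg hg) ha hb'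
  simpa only [← sub_eq_add_neg] using h

theorem bn_sum {ι : Type} {R : Set (Ed d)} {m : ℕ} (s : Finset ι) {f : ι → Ed d → F} {a : ι → ℝ}
    (hf : ∀ i ∈ s, OK R (f i)) (ha : ∀ i ∈ s, BN R m (f i) (a i)) :
    BN R m (fun x => ∑ i ∈ s, f i x) (∑ i ∈ s, a i) := by
  classical
  induction s using Finset.induction_on with
  | empty =>
    simp only [Finset.sum_empty]
    intro i _ x _
    rw [caa_zero]
  | insert j s hj ih =>
    simp only [Finset.sum_insert hj]
    exact bn_add (hf j (Finset.mem_insert_self j s))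
      (ok_sum s fun i hi => hf i (Finset.mem_insert_of_mem hi))
      (ha j (Finset.mem_insert_self j s))
      (ih (fun i hi => hf i (Finset.mem_insert_of_mem hi)) fun i hi =>
        ha i (Finset.mem_insert_of_mem hi))

/-- the best constant exists -/
theorem bn_exists {R : Set (Ed d)} {f : Ed d → F} (hf : OK R f) (m : ℕ) : ∃ c, 0 ≤ c ∧ BN R m f c := by
  choose C hC using hf.2
  refine ⟨∑ i ∈ Finset.range (m + 1), |C i|, Finset.sum_nonneg fun i _ => abs_nonneg _, ?_⟩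
  intro i hi x hx
  refine (hC i x hx).trans ((le_abs_self _).trans ?_)
  exact Finset.single_le_sum (f := fun i => |C i|) (fun i _ => abs_nonneg _)
    (Finset.mem_range.mpr (by omega))

end Pool.Agent.Lib.MP_79abb3_an.W.C
end
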