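import Pool.Agent.Lib.MP_79abb3_an.W.CDef

/-!
Theorem W (MP_79abb3_an), block C (density of the drifts). Jets.
-/

set_option autoImplicit false
set_option linter.unusedSectionVars false
set_option linter.unusedVariables false

open MeasureTheory Set Filter Topology Function Metric
open scoped ENNReal InnerProductSpace BoundedContinuousFunction

namespace Pool.Agent.Lib.MP_79abb3_an.W.C

variable {d : ℕ} {F : Type} [NormedAddCommGroup F] [NormedSpace ℝ F]

theorem cba_cont {R : Set (Ed d)} {V : Ed d → Cd d} (h : OK R V) (i : ℕ) :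
    Continuous (fun x : R => iteratedFDeriv ℝ i V (x : Ed d)) ∧
      ∃ C, ∀ x : R, ‖iteratedFDeriv ℝ i V (x : Ed d)‖ ≤ C := by
  refine ⟨?_, ?_⟩
  · rw [continuous_iff_continuousAt]
    intro x
    have h1 := (h.1 x.1 x.2).continuousAt_iteratedFDeriv (k := i) (by exact_mod_cast le_top)
    exact ContinuousAt.comp (f := fun y : R => (y : Ed d)) h1 continuous_subtype_val.continuousAt
  · obtain ⟨C, hC⟩ := h.2 i
    exact ⟨C, fun x => hC x.1 x.2⟩

theorem cba_at {R : Set (Ed d)} {V : Ed d → Cd d} (h : OK R V) {x : Ed d} (hx : x ∈ R) (i : ℕ) :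
    ContDiffAt ℝ (i : WithTop ℕ∞) V x :=
  (h.1 x hx).of_le (by exact_mod_cast le_top)

theorem cba_add {R : Set (Ed d)} {V W : Ed d → Cd d} (hV : OK R V) (hW : OK R W) :
    OK R (fun x => V x + W x) := by
  refine ⟨fun x hx => (hV.1 x hx).add (hW.1 x hx), fun m => ?_⟩
  obtain ⟨C, hC⟩ := hV.2 m
  obtain ⟨D, hD⟩ := hW.2 m
  refine ⟨C + D, fun x hx => ?_⟩
  rw [fun_iteratedFDeriv_add_apply (cba_at hV hx m) (cba_at hW hx m)]
  exact (norm_add_le _ _).trans (add_le_add (hC x hx) (hD x hx))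

theorem cba_sub {R : Set (Ed d)} {V W : Ed d → Cd d} (hV : OK R V) (hW : OK R W) :
    OK R (fun x => V x - W x) := by
  refine ⟨fun x hx => (hV.1 x hx).sub (hW.1 x hx), fun m => ?_⟩
  obtain ⟨C, hC⟩ := hV.2 m
  obtain ⟨D, hD⟩ := hW.2 m
  refine ⟨C + D, fun x hx => ?_⟩
  rw [fun_iteratedFDeriv_sub_apply (cba_at hV hx m) (cba_at hW hx m)]
  exact (norm_sub_le _ _).trans (add_le_add (hC x hx) (hD x hx))

theorem cba_smul {R : Set (Ed d)} {V : Ed d → Cd d} (c : ℂ) (hV : OK R V) :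
    OK R (fun x => c • V x) := by
  refine ⟨fun x hx => (hV.1 x hx).const_smul c, fun m => ?_⟩
  obtain ⟨C, hC⟩ := hV.2 m
  refine ⟨‖c‖ * C, fun x hx => ?_⟩
  rw [iteratedFDeriv_const_smul_apply' (cba_at hV hx m)]
  exact (norm_smul_le _ _).trans (mul_le_mul_of_nonneg_left (hC x hx) (norm_nonneg _))

theorem cba_zero {R : Set (Ed d)} : OK R (fun _ => (0 : Cd d)) := by
  refine ⟨fun x hx => contDiffAt_const, fun m => ⟨0, fun x hx => ?_⟩⟩
  have h : iteratedFDeriv ℝ m (fun _ : Ed d => (0 : Cd d)) x = 0 := by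
    have := iteratedFDeriv_fun_zero (𝕜 := ℝ) (E := Ed d) (F := Cd d) (n := m)
    exact congrFun this x
  rw [h, norm_zero]

theorem cba_sum {ι : Type} {R : Set (Ed d)} (s : Finset ι) {V : ι → Ed d → Cd d}
    (hV : ∀ i ∈ s, OK R (V i)) : OK R (fun x => ∑ i ∈ s, V i x) := by
  classical
  induction s using Finset.induction_on with
  | empty => simpa using cba_zero
  | insert a s ha ih =>
    simp only [Finset.sum_insert ha]
    exact cba_add (hV a (Finset.mem_insert_self a s))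
      (ih fun i hi => hV i (Finset.mem_insert_of_mem hi))

/-- value of the jet. PROOF: `dif_pos`; the continuity of `iteratedFDeriv ℝ i V` on `R` follows from `ContDiffAt`. -/
theorem jt_apply {R : Set (Ed d)} {V : Ed d → Cd d} (h : OK R V) (k : ℕ) (i : Fin (k + 1)) (x : R) :
    (jt R k V i) x = iteratedFDeriv ℝ (i : ℕ) V (x : Ed d) := by
  have h1 := cba_cont h (i : ℕ)
  unfold jt
  rw [dif_pos h1]
  rfl

theorem cba_ext {R : Set (Ed d)} {k : ℕ} {S T : JS R k} (h : ∀ (i : Fin (k + 1)) (x : R), (S i) x = (T i) x) :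
    S = T := by
  funext i
  exact BoundedContinuousFunction.ext fun x => h i x

theorem jt_add {R : Set (Ed d)} {V W : Ed d → Cd d} (k : ℕ) (hV : OK R V) (hW : OK R W) :
    jt R k (fun x => V x + W x) = jt R k V + jt R k W := by
  refine cba_ext fun i x => ?_
  have e : (jt R k V + jt R k W) i = jt R k V i + jt R k W i := rfl
  rw [e, BoundedContinuousFunction.add_apply, jt_apply (cba_add hV hW), jt_apply hV, jt_apply hW,
    fun_iteratedFDeriv_add_apply (cba_at hV x.2 _) (cba_at hW x.2 _)]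

theorem jt_sub {R : Set (Ed d)} {V W : Ed d → Cd d} (k : ℕ) (hV : OK R V) (hW : OK R W) :
    jt R k (fun x => V x - W x) = jt R k V - jt R k W := by
  refine cba_ext fun i x => ?_
  have e : (jt R k V - jt R k W) i = jt R k V i - jt R k W i := rfl
  rw [e, BoundedContinuousFunction.sub_apply, jt_apply (cba_sub hV hW), jt_apply hV, jt_apply hW,
    fun_iteratedFDeriv_sub_apply (cba_at hV x.2 _) (cba_at hW x.2 _)]

theorem jt_smul {R : Set (Ed d)} {V : Ed d → Cd d} (k : ℕ) (c : ℂ) (hV : OK R V) :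
    jt R k (fun x => c • V x) = c • jt R k V := by
  refine cba_ext fun i x => ?_
  have e : (c • jt R k V) i = c • jt R k V i := rfl
  rw [e, BoundedContinuousFunction.smul_apply, jt_apply (cba_smul c hV), jt_apply hV,
    iteratedFDeriv_const_smul_apply' (cba_at hV x.2 _)]

theorem cba_jt_zero {R : Set (Ed d)} (k : ℕ) : jt R k (fun _ => (0 : Cd d)) = 0 := by
  have h := jt_sub k (cba_zero (R := R)) (cba_zero (R := R))
  simpa using h

theorem jt_sum {ι : Type} {R : Set (Ed d)} (k : ℕ) (s : Finset ι) {V : ι → Ed d → Cd d}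
    (hV : ∀ i ∈ s, OK R (V i)) : jt R k (fun x => ∑ i ∈ s, V i x) = ∑ i ∈ s, jt R k (V i) := by
  classical
  induction s using Finset.induction_on with
  | empty => simpa using cba_jt_zero (R := R) k
  | insert a s ha ih =>
    simp only [Finset.sum_insert ha]
    have h1 : ∀ i ∈ s, OK R (V i) := fun i hi => hV i (Finset.mem_insert_of_mem hi)
    rw [jt_add k (hV a (Finset.mem_insert_self a s)) (cba_sum s h1), ih h1]

theorem cba_norm_le_iff {R : Set (Ed d)} {k : ℕ} {c : ℝ} (hc : 0 ≤ c) (S : JS R k) :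
    ‖S‖ ≤ c ↔ ∀ (i : Fin (k + 1)) (x : R), ‖(S i) x‖ ≤ c := by
  have h1 : ‖S‖ ≤ c ↔ ∀ i : Fin (k + 1), ‖S i‖ ≤ c :=
    pi_norm_le_iff_of_nonneg (ι := Fin (k + 1))
      (G := fun i => (R →ᵇ (Ed d [×(i : ℕ)]→L[ℝ] Cd d))) hc
  rw [h1]
  exact forall_congr' fun i => BoundedContinuousFunction.norm_le hc

theorem jt_norm_le {R : Set (Ed d)} {V : Ed d → Cd d} {k : ℕ} {c : ℝ} (hV : OK R V) (hc : 0 ≤ c)
    (h : BN R k V c) : ‖jt R k V‖ ≤ c := by
  rw [cba_norm_le_iff hc]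
  intro i x
  rw [jt_apply hV]
  exact h (i : ℕ) (Nat.lt_succ_iff.1 i.2) x.1 x.2

theorem bn_of_jt {R : Set (Ed d)} {V : Ed d → Cd d} {k : ℕ} {c : ℝ} (hV : OK R V) (h : ‖jt R k V‖ ≤ c) :
    BN R k V c := by
  intro i hi x hx
  have hc : 0 ≤ c := (norm_nonneg _).trans h
  have h1 := (cba_norm_le_iff hc _).1 h ⟨i, Nat.lt_succ_iff.2 hi⟩ ⟨x, hx⟩
  rwa [jt_apply hV] at h1

theorem jt_congr {R : Set (Ed d)} {V W : Ed d → Cd d} (k : ℕ) (h : ∀ x ∈ R, V =ᶠ[𝓝 x] W) :
    jt R k V = jt R k W := by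
  funext i
  have e : (fun x : R => iteratedFDeriv ℝ (i : ℕ) V (x : Ed d))
      = fun x : R => iteratedFDeriv ℝ (i : ℕ) W (x : Ed d) := by
    funext x
    exact ((h x.1 x.2).iteratedFDeriv ℝ (i : ℕ)).eq_of_nhds
  have e' : ∀ x : R, iteratedFDeriv ℝ (i : ℕ) V (x : Ed d) = iteratedFDeriv ℝ (i : ℕ) W (x : Ed d) :=
    fun x => congrFun e x
  by_cases hV : Continuous (fun x : R => iteratedFDeriv ℝ (i : ℕ) V (x : Ed d)) ∧
      ∃ C, ∀ x : R, ‖iteratedFDeriv ℝ (i : ℕ) V (x : Ed d)‖ ≤ C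
  · have hW : Continuous (fun x : R => iteratedFDeriv ℝ (i : ℕ) W (x : Ed d)) ∧
        ∃ C, ∀ x : R, ‖iteratedFDeriv ℝ (i : ℕ) W (x : Ed d)‖ ≤ C := by
      refine ⟨e ▸ hV.1, ?_⟩
      obtain ⟨C, hC⟩ := hV.2
      exact ⟨C, fun x => by rw [← e' x]; exact hC x⟩
    unfold jt
    rw [dif_pos hV, dif_pos hW]
    exact BoundedContinuousFunction.ext fun x => e' x
  · have hW : ¬ (Continuous (fun x : R => iteratedFDeriv ℝ (i : ℕ) W (x : Ed d)) ∧
        ∃ C, ∀ x : R, ‖iteratedFDeriv ℝ (i : ℕ) W (x : Ed d)‖ ≤ C) := by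
      rintro ⟨h1, C, hC⟩
      exact hV ⟨e ▸ h1, C, fun x => by rw [e' x]; exact hC x⟩
    unfold jt
    rw [dif_neg hV, dif_neg hW]

end Pool.Agent.Lib.MP_79abb3_an.W.C
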