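import Pool.Agent.Lib.MP_79abb3_an.W.CBa
import Pool.Agent.Lib.MP_79abb3_an.W.CAa

/-!
Theorem W (MP_79abb3_an), block C (density of the drifts). Divergences of matrix fields, drifts.
-/

set_option autoImplicit false
set_option linter.unusedSectionVars false
set_option linter.unusedVariables false

open MeasureTheory Set Filter Topology Function Metric
open scoped ENNReal InnerProductSpace BoundedContinuousFunction

namespace Pool.Agent.Lib.MP_79abb3_an.W.C

variable {d : ℕ} {F : Type} [NormedAddCommGroup F] [NormedSpace ℝ F]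

private theorem cbb_ev {R : Set (Ed d)} {f : Ed d → ℂ} (hf : OK R f) {x : Ed d} (hx : x ∈ R) :
    ∀ᶠ y in 𝓝 x, DifferentiableAt ℝ f y := by
  have h1 : ContDiffAt ℝ 1 f x := (hf.1 x hx).of_le (by exact_mod_cast le_top)
  filter_upwards [h1.eventually (by simp)] with y hy
  exact hy.differentiableAt one_ne_zero

private theorem cbb_evE {R : Set (Ed d)} {E : Fin d → Fin d → Ed d → ℂ} (h : ∀ i j, OK R (E i j)) {x : Ed d}
    (hx : x ∈ R) : ∀ᶠ y in 𝓝 x, ∀ i j, DifferentiableAt ℝ (E i j) y := by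
  rw [eventually_all]
  intro i
  rw [eventually_all]
  intro j
  exact cbb_ev (h i j) hx

theorem ok_DV {R : Set (Ed d)} {E : Fin d → Fin d → Ed d → ℂ} (h : ∀ i j, OK R (E i j)) : OK R (DV E) := by
  exact ok_vec (f := fun i x => ∑ j, pd j (E i j) x) fun i => ok_sum _ fun j _ => ok_pd (h i j) j

theorem bn_DV {R : Set (Ed d)} {E : Fin d → Fin d → Ed d → ℂ} {m : ℕ} {c : ℝ} (h : ∀ i j, OK R (E i j))
    (hc : ∀ i j, BN R (m + 1) (E i j) c) : BN R m (DV E) (d * (d * c)) := by
  refine bn_vec (f := fun i x => ∑ j, pd j (E i j) x) (fun i => ok_sum _ fun j _ => ok_pd (h i j) j) fun i => ?_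
  have h1 := bn_sum (R := R) (m := m) (Finset.univ : Finset (Fin d)) (f := fun j => pd j (E i j))
    (a := fun _ => c) (fun j _ => ok_pd (h i j) j)
    (fun j _ => bn_pd (h i j) (fun l _ hl x hx => hc i j l hl x hx) j)
  rw [Finset.sum_const, Finset.card_univ, Fintype.card_fin, nsmul_eq_mul] at h1
  exact h1

theorem jt_DV_add {R : Set (Ed d)} {E E' : Fin d → Fin d → Ed d → ℂ} (k : ℕ) (h : ∀ i j, OK R (E i j))
    (h' : ∀ i j, OK R (E' i j)) :
    jt R k (DV fun i j x => E i j x + E' i j x) = jt R k (DV E) + jt R k (DV E') := by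
  rw [← jt_add k (ok_DV h) (ok_DV h')]
  refine jt_congr k fun x hx => ?_
  filter_upwards [cbb_evE h hx, cbb_evE h' hx] with y hy hy'
  ext i
  simp only [DV, PiLp.add_apply]
  rw [← Finset.sum_add_distrib]
  refine Finset.sum_congr rfl fun j _ => ?_
  unfold pd
  rw [fderiv_fun_add (hy i j) (hy' i j)]
  rfl

theorem jt_DV_sub {R : Set (Ed d)} {E E' : Fin d → Fin d → Ed d → ℂ} (k : ℕ) (h : ∀ i j, OK R (E i j))
    (h' : ∀ i j, OK R (E' i j)) :
    jt R k (DV fun i j x => E i j x - E' i j x) = jt R k (DV E) - jt R k (DV E') := by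
  rw [← jt_sub k (ok_DV h) (ok_DV h')]
  refine jt_congr k fun x hx => ?_
  filter_upwards [cbb_evE h hx, cbb_evE h' hx] with y hy hy'
  ext i
  simp only [DV, PiLp.sub_apply]
  rw [← Finset.sum_sub_distrib]
  refine Finset.sum_congr rfl fun j _ => ?_
  unfold pd
  rw [fderiv_fun_sub (hy i j) (hy' i j)]
  rfl

theorem jt_DV_smul {R : Set (Ed d)} {E : Fin d → Fin d → Ed d → ℂ} (k : ℕ) (c : ℂ) (h : ∀ i j, OK R (E i j)) :
    jt R k (DV fun i j x => c * E i j x) = c • jt R k (DV E) := by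
  rw [← jt_smul k c (ok_DV h)]
  refine jt_congr k fun x hx => ?_
  filter_upwards [cbb_evE h hx] with y hy
  ext i
  simp only [DV, PiLp.smul_apply, smul_eq_mul]
  rw [Finset.mul_sum]
  refine Finset.sum_congr rfl fun j _ => ?_
  unfold pd
  rw [fderiv_const_mul (hy i j)]
  rfl

theorem jt_DV_sum {ι : Type} {R : Set (Ed d)} (k : ℕ) (s : Finset ι) {E : ι → Fin d → Fin d → Ed d → ℂ}
    (h : ∀ a ∈ s, ∀ i j, OK R (E a i j)) :
    jt R k (DV fun i j x => ∑ a ∈ s, E a i j x) = ∑ a ∈ s, jt R k (DV (E a)) := by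
  rw [← jt_sum k s (V := fun a => DV (E a)) fun a ha => ok_DV (h a ha)]
  refine jt_congr k fun x hx => ?_
  have h1 : ∀ᶠ y in 𝓝 x, ∀ a ∈ s, ∀ i j, DifferentiableAt ℝ (E a i j) y := by
    rw [Finset.eventually_all]
    exact fun a ha => cbb_evE (h a ha) hx
  filter_upwards [h1] with y hy
  ext i
  simp only [DV, WithLp.ofLp_sum, Finset.sum_apply]
  rw [Finset.sum_comm]
  refine Finset.sum_congr rfl fun j _ => ?_
  unfold pd
  rw [fderiv_fun_sum fun a ha => hy a ha i j, sum_apply]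

theorem jt_DV_congr {R : Set (Ed d)} {E E' : Fin d → Fin d → Ed d → ℂ} (k : ℕ)
    (h : ∀ x ∈ R, ∀ i j, E i j =ᶠ[𝓝 x] E' i j) : jt R k (DV E) = jt R k (DV E') := by
  refine jt_congr k fun x hx => ?_
  have h1 : ∀ᶠ y in 𝓝 x, ∀ i j, fderiv ℝ (E i j) y = fderiv ℝ (E' i j) y := by
    rw [eventually_all]
    intro i
    rw [eventually_all]
    intro j
    exact (h x hx i j).fderiv
  filter_upwards [h1] with y hy
  ext i
  simp only [DV]
  refine Finset.sum_congr rfl fun j _ => ?_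
  unfold pd
  rw [hy i j]

/-- PROOF: the same germs of derivatives (`Filter.EventuallyEq.fderiv`). -/
theorem VV_eq (p q : Ed d → ℂ) : VV p q = fun x => (1 / 4 : ℂ) • DV (AA p q) x := by
  funext x
  ext i
  simp only [VV, DV, PiLp.smul_apply, smul_eq_mul]

end Pool.Agent.Lib.MP_79abb3_an.W.C
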