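import Pool.Agent.Lib.MP_79abb3_an.W.CAa

/-!
Theorem W (MP_79abb3_an), block C (density of the drifts). The bilinear field `AA`.
-/

set_option autoImplicit false
set_option linter.unusedSectionVars false
set_option linter.unusedVariables false

open MeasureTheory Set Filter Topology Function Metric
open scoped ENNReal InnerProductSpace BoundedContinuousFunction

namespace Pool.Agent.Lib.MP_79abb3_an.W.C

variable {d : ℕ} {F : Type} [NormedAddCommGroup F] [NormedSpace ℝ F]

private theorem cbc_pd_add {f g : Ed d → ℂ} {x : Ed d} (hf : DifferentiableAt ℝ f x)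
    (hg : DifferentiableAt ℝ g x) (i : Fin d) : pd i (fun x => f x + g x) x = pd i f x + pd i g x := by
  unfold pd
  rw [fderiv_fun_add hf hg]
  rfl

private theorem cbc_pd_sub {f g : Ed d → ℂ} {x : Ed d} (hf : DifferentiableAt ℝ f x)
    (hg : DifferentiableAt ℝ g x) (i : Fin d) : pd i (fun x => f x - g x) x = pd i f x - pd i g x := by
  unfold pd
  rw [fderiv_fun_sub hf hg]
  rfl

private theorem cbc_pd_mul {f g : Ed d → ℂ} {x : Ed d} (hf : DifferentiableAt ℝ f x)
    (hg : DifferentiableAt ℝ g x) (i : Fin d) :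
    pd i (fun x => f x * g x) x = f x * pd i g x + pd i f x * g x := by
  unfold pd
  rw [fderiv_fun_mul hf hg]
  simp only [FunLike.coe_add, FunLike.coe_smul, Pi.add_apply, Pi.smul_apply, smul_eq_mul]
  ring

private theorem cbc_pd_smul {f : Ed d → ℂ} {x : Ed d} (hf : DifferentiableAt ℝ f x) (c : ℂ)
    (i : Fin d) : pd i (fun x => c * f x) x = c * pd i f x := by
  unfold pd
  rw [fderiv_const_mul hf c]
  rfl

private theorem cbc_comm {f : Ed d → ℂ} {x : Ed d}
    (hf : ContDiffAt ℝ ((⊤ : ℕ∞) : WithTop ℕ∞) f x) (i j : Fin d) :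
    pd i (pd j f) x = pd j (pd i f) x := by
  have h0 : ContDiffAt ℝ ((⊤ : ℕ∞) : WithTop ℕ∞) (fderiv ℝ f) x :=
    hf.fderiv_right (by exact_mod_cast le_top)
  have h1 : ∀ k l : Fin d, pd k (pd l f) x = fderiv ℝ (fderiv ℝ f) x (eb k) (eb l) := by
    intro k l
    have h2 : DifferentiableAt ℝ (fderiv ℝ f) x := h0.differentiableAt (by norm_num)
    show fderiv ℝ (fun y => fderiv ℝ f y (eb l)) x (eb k) = _
    rw [fderiv_clm_apply h2 (differentiableAt_const _)]
    simp
  rw [h1, h1]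
  have h4 : minSmoothness ℝ 2 ≤ ((⊤ : ℕ∞) : WithTop ℕ∞) := by
    rw [minSmoothness_of_isRCLikeNormedField]
    exact WithTop.coe_le_coe.2 (le_top : (2 : ℕ∞) ≤ ⊤)
  exact (hf.isSymmSndFDerivAt h4).eq _ _

theorem ok_AA {R : Set (Ed d)} {p q : Ed d → ℂ} (hp : OK R p) (hq : OK R q) (i j : Fin d) :
    OK R (AA p q i j) := by
  have h1 := ok_mul (ok_const R (2 : ℂ)) (ok_sub (ok_mul (ok_pd hp j) (ok_pd hq i))
    (ok_mul (ok_pd hp i) (ok_pd hq j)))
  exact h1

/-- PROOF: `bn_mul`, `bn_pd`: `2 (2^m a b + 2^m a b) = 2^(m+2) a b`. -/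
theorem bn_AA {R : Set (Ed d)} {p q : Ed d → ℂ} {m : ℕ} {a b : ℝ} (hp : OK R p) (hq : OK R q)
    (ha : GN R (m + 1) p a) (hb : GN R (m + 1) q b) (i j : Fin d) :
    BN R m (AA p q i j) (2 ^ (m + 2) * a * b) := by
  have o1 := ok_mul (ok_pd hp j) (ok_pd hq i)
  have o2 := ok_mul (ok_pd hp i) (ok_pd hq j)
  have b1 := bn_mul (ok_pd hp j) (ok_pd hq i) (bn_pd hp ha j) (bn_pd hq hb i)
  have b2 := bn_mul (ok_pd hp i) (ok_pd hq j) (bn_pd hp ha i) (bn_pd hq hb j)
  have o3 := ok_sub o1 o2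
  have b3 := bn_sub o1 o2 b1 b2
  have b4 := bn_add o3 o3 b3 b3
  have e1 : (AA p q i j) = fun x => (pd j p x * pd i q x - pd i p x * pd j q x) +
      (pd j p x * pd i q x - pd i p x * pd j q x) := by
    funext x
    unfold AA
    ring
  have e2 : (2 : ℝ) ^ (m + 2) * a * b = 2 ^ m * a * b + 2 ^ m * a * b +
      (2 ^ m * a * b + 2 ^ m * a * b) := by
    rw [pow_add]
    ring
  rw [e1, e2]
  exact b4

theorem AA_anti (p q : Ed d → ℂ) (i j : Fin d) (x : Ed d) : AA p q i j x = -AA p q j i x := by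
  unfold AA
  ring

theorem AA_add_left {p p' q : Ed d → ℂ} {x : Ed d} (hp : DifferentiableAt ℝ p x) (hp' : DifferentiableAt ℝ p' x)
    (i j : Fin d) : AA (fun x => p x + p' x) q i j x = AA p q i j x + AA p' q i j x := by
  unfold AA
  rw [cbc_pd_add hp hp', cbc_pd_add hp hp']
  ring

theorem AA_add_right {p q q' : Ed d → ℂ} {x : Ed d} (hq : DifferentiableAt ℝ q x) (hq' : DifferentiableAt ℝ q' x)
    (i j : Fin d) : AA p (fun x => q x + q' x) i j x = AA p q i j x + AA p q' i j x := by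
  unfold AA
  rw [cbc_pd_add hq hq', cbc_pd_add hq hq']
  ring

theorem AA_smul_left {p q : Ed d → ℂ} {x : Ed d} (hp : DifferentiableAt ℝ p x) (c : ℂ) (i j : Fin d) :
    AA (fun x => c * p x) q i j x = c * AA p q i j x := by
  unfold AA
  rw [cbc_pd_smul hp, cbc_pd_smul hp]
  ring

theorem AA_smul_right {p q : Ed d → ℂ} {x : Ed d} (hq : DifferentiableAt ℝ q x) (c : ℂ) (i j : Fin d) :
    AA p (fun x => c * q x) i j x = c * AA p q i j x := by
  unfold AA
  rw [cbc_pd_smul hq, cbc_pd_smul hq]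
  ring

/-- `AA p q = cr (p ∇q - q ∇p)`. PROOF: product rule; the second derivatives of `p`, `q` commute
(`second_derivative_symmetric` or `ContDiffAt.isSymmSndFDerivAt`). -/
theorem AA_eq_cr {p q : Ed d → ℂ} {x : Ed d} (hp : ContDiffAt ℝ ((⊤ : ℕ∞) : WithTop ℕ∞) p x)
    (hq : ContDiffAt ℝ ((⊤ : ℕ∞) : WithTop ℕ∞) q x) (i j : Fin d) :
    AA p q i j x = cr (fun x => WithLp.toLp 2 fun i => p x * pd i q x - q x * pd i p x) i j x := by
  have dp : DifferentiableAt ℝ p x := hp.differentiableAt (by norm_num)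
  have dq : DifferentiableAt ℝ q x := hq.differentiableAt (by norm_num)
  have dpp : ∀ k, DifferentiableAt ℝ (pd k p) x := fun k =>
    (cda_pd hp k).differentiableAt (by norm_num)
  have dqq : ∀ k, DifferentiableAt ℝ (pd k q) x := fun k =>
    (cda_pd hq k).differentiableAt (by norm_num)
  have key : ∀ k l : Fin d, pd k (fun x => p x * pd l q x - q x * pd l p x) x =
      (p x * pd k (pd l q) x + pd k p x * pd l q x) -
        (q x * pd k (pd l p) x + pd k q x * pd l p x) := by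
    intro k l
    have d1 : DifferentiableAt ℝ (fun x => p x * pd l q x) x := dp.mul (dqq l)
    have d2 : DifferentiableAt ℝ (fun x => q x * pd l p x) x := dq.mul (dpp l)
    rw [cbc_pd_sub d1 d2, cbc_pd_mul dp (dqq l), cbc_pd_mul dq (dpp l)]
  unfold cr
  show AA p q i j x = pd j (fun x => p x * pd i q x - q x * pd i p x) x -
    pd i (fun x => p x * pd j q x - q x * pd j p x) x
  rw [key, key, cbc_comm hp i j, cbc_comm hq i j]
  unfold AA
  ring

end Pool.Agent.Lib.MP_79abb3_an.W.C
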