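import Pool.Agent.Lib.MP_79abb3_an.W.CAa

/-!
Theorem W (MP_79abb3_an), block C (density of the drifts). Cut off fields.
-/

set_option autoImplicit false
set_option linter.unusedSectionVars false
set_option linter.unusedVariables false

open MeasureTheory Set Filter Topology Function Metric
open scoped ENNReal InnerProductSpace BoundedContinuousFunction

namespace Pool.Agent.Lib.MP_79abb3_an.W.C

variable {d : ℕ} {F : Type} [NormedAddCommGroup F] [NormedSpace ℝ F]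

private theorem cbd_zero {f : Ed d → F} {x : Ed d} (h : f =ᶠ[𝓝 x] fun _ => 0) (m : ℕ) :
    iteratedFDeriv ℝ m f x = 0 := by
  rw [(h.iteratedFDeriv ℝ m).eq_of_nhds]
  exact congrFun (iteratedFDeriv_fun_zero (𝕜 := ℝ) (E := Ed d) (F := F) (n := m)) x

private theorem cbd_ok {R S : Set (Ed d)} {f : Ed d → F} (hf : OK (R ∩ S) f)
    (h : ∀ x, x ∉ S → f =ᶠ[𝓝 x] fun _ => 0) : OK R f := by
  refine ⟨fun x hx => ?_, fun m => ?_⟩
  · by_cases hxS : x ∈ S
    · exact hf.1 x ⟨hx, hxS⟩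
    · exact contDiffAt_const.congr_of_eventuallyEq (h x hxS)
  · obtain ⟨C, hC⟩ := hf.2 m
    refine ⟨max C 0, fun x hx => ?_⟩
    by_cases hxS : x ∈ S
    · exact (hC x ⟨hx, hxS⟩).trans (le_max_left _ _)
    · rw [cbd_zero (h x hxS), norm_zero]
      exact le_max_right _ _

private theorem cbd_bn {R S : Set (Ed d)} {f : Ed d → F} {m : ℕ} {c : ℝ} (hc : 0 ≤ c)
    (hf : BN (R ∩ S) m f c) (h : ∀ x, x ∉ S → f =ᶠ[𝓝 x] fun _ => 0) : BN R m f c := by
  intro i hi x hx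
  by_cases hxS : x ∈ S
  · exact hf i hi x ⟨hx, hxS⟩
  · rw [cbd_zero (h x hxS), norm_zero]
    exact hc

private theorem cbd_ev {χ : Ed d → ℝ} (f : Ed d → ℂ) (x : Ed d) (hx : x ∉ tsupport fun x => 1 - χ x) :
    (fun x => ((1 - χ x : ℝ) : ℂ) * f x) =ᶠ[𝓝 x] fun _ => 0 := by
  have h1 : (tsupport fun x => 1 - χ x)ᶜ ∈ 𝓝 x := (isClosed_tsupport _).isOpen_compl.mem_nhds hx
  filter_upwards [h1] with y hy
  have h2 : (1 - χ y) = 0 := by
    by_contra h3
    exact hy (subset_tsupport (fun x => 1 - χ x) h3)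
  rw [h2]
  simp

private theorem cbd_smo {χ : Ed d → ℝ} (hχ : Smo χ) : Smo fun x => ((1 - χ x : ℝ) : ℂ) := by
  have h1 : Smo fun x => 1 - χ x := contDiff_const.sub hχ
  exact Complex.ofRealCLM.contDiff.comp h1

/-- the cut off of a function which is OK on `R ∩ supp (1-χ)`. PROOF: at `x ∈ R` either `x ∈ tsupport (1-χ)` and the
product rule applies, or `1 - χ = 0` near `x` and the function is locally zero. Boundedness: Leibniz with the constants of
`1-χ` on the bounded set `R`. -/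
theorem ok_cut {R : Set (Ed d)} (hR : Bornology.IsBounded R) {χ : Ed d → ℝ} (hχ : Smo χ) {f : Ed d → ℂ}
    (hf : OK (R ∩ tsupport fun x => 1 - χ x) f) : OK R (fun x => ((1 - χ x : ℝ) : ℂ) * f x) := by
  have hg : OK (R ∩ tsupport fun x => 1 - χ x) fun x => ((1 - χ x : ℝ) : ℂ) :=
    ok_of_smo (cbd_smo hχ) (hR.subset inter_subset_left)
  exact cbd_ok (ok_mul hg hf) (cbd_ev f)

theorem bn_cut {R : Set (Ed d)} (hR : Bornology.IsBounded R) {χ : Ed d → ℝ} (hχ : Smo χ) (m : ℕ) :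
    ∃ C, 0 ≤ C ∧ ∀ (f : Ed d → ℂ) (c : ℝ), OK (R ∩ tsupport fun x => 1 - χ x) f →
      BN (R ∩ tsupport fun x => 1 - χ x) m f c → BN R m (fun x => ((1 - χ x : ℝ) : ℂ) * f x) (C * c) := by
  have hg : OK (R ∩ tsupport fun x => 1 - χ x) fun x => ((1 - χ x : ℝ) : ℂ) :=
    ok_of_smo (cbd_smo hχ) (hR.subset inter_subset_left)
  obtain ⟨A, hA, hgA⟩ := bn_exists hg m
  rcases (R ∩ tsupport fun x => 1 - χ x).eq_empty_or_nonempty with he | ⟨x₀, hx₀⟩
  · refine ⟨0, le_rfl, fun f c hf hc => ?_⟩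
    rw [zero_mul]
    refine cbd_bn le_rfl ?_ (cbd_ev f)
    rw [he]
    exact fun i _ x hx => absurd hx (notMem_empty x)
  · refine ⟨2 ^ m * A, by positivity, fun f c hf hc => ?_⟩
    have hc0 : 0 ≤ c := (norm_nonneg _).trans (hc 0 (Nat.zero_le m) x₀ hx₀)
    exact cbd_bn (by positivity) (bn_mul hg hf hgA hc) (cbd_ev f)

end Pool.Agent.Lib.MP_79abb3_an.W.C
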