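import Mathlib

/-!
Theorem W (MP_79abb3_an), block C (density of the drifts): definitions.

Notation of the proofs: `Y = iv y x = (x-y)/|x-y|²` (inversion at `y`), `K_ζ = KV y ζ = |x-y|^{2-d} exp(ζ·Y)`,
`Rf x = I - 2 (x-y)(x-y)ᵀ/|x-y|²` (a reflection), `Pb y b = |x-y|^{2-2d} Rf b(Y)`, `cr v i j = ∂_j v_i - ∂_i v_j`,
`AA p q i j = 2 (∂_j p ∂_i q - ∂_i p ∂_j q) = cr (p ∇q - q ∇p) i j`, `DV E i = ∑_j ∂_j E i j`,
`VV p q = (1/4) DV (AA p q)` (the drift of the pair `(p,q)`).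
-/

set_option autoImplicit false
set_option linter.unusedSectionVars false

open MeasureTheory Set Filter Topology Function Metric
open scoped ENNReal InnerProductSpace BoundedContinuousFunction

namespace Pool.Agent.Lib.MP_79abb3_an.W.C

/-- the space `ℝ^d` -/
abbrev Ed (d : ℕ) : Type := EuclideanSpace ℝ (Fin d)

/-- the complex space `ℂ^d` -/
abbrev Cd (d : ℕ) : Type := EuclideanSpace ℂ (Fin d)

variable {d : ℕ} {F : Type} [NormedAddCommGroup F] [NormedSpace ℝ F]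

/-- infinitely differentiable functions on `ℝ^d` -/
def Smo (f : Ed d → F) : Prop := ContDiff ℝ ((⊤ : ℕ∞) : WithTop ℕ∞) f

/-- the standard basis -/
noncomputable def eb (i : Fin d) : Ed d := EuclideanSpace.single i 1

/-- partial derivative -/
noncomputable def pd (i : Fin d) (f : Ed d → F) (x : Ed d) : F := fderiv ℝ f x (eb i)

/-- the Laplacian -/
noncomputable def lapl (f : Ed d → F) (x : Ed d) : F := ∑ i, pd i (pd i f) x

/-- A smooth bounded domain `D = {z > 0}`, where `z` is the distance to the walls `{z = 0}` near the walls. -/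
structure Dom (D : Set (Ed d)) (z : Ed d → ℝ) (δ : ℝ) : Prop where
  smo : Smo z
  pos : ∀ x, x ∈ D ↔ 0 < z x
  bdd : Bornology.IsBounded D
  conn : IsConnected D
  δ0 : 0 < δ
  unit : ∀ x, |z x| < 4 * δ → ‖gradient z x‖ = 1

/-- Functions smooth in `D` with all derivatives bounded on `D`. -/
def BD (D : Set (Ed d)) (f : Ed d → F) : Prop :=
  ContDiffOn ℝ ((⊤ : ℕ∞) : WithTop ℕ∞) f D ∧ ∀ k : ℕ, ∃ C, ∀ x ∈ D, ‖iteratedFDeriv ℝ k f x‖ ≤ C

/-- `f = O(z)` in `D`: the function vanishes at the walls. -/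
def Oz (D : Set (Ed d)) (z : Ed d → ℝ) (f : Ed d → F) : Prop := ∃ C, ∀ x ∈ D, ‖f x‖ ≤ C * z x

/-- smooth at all points of `R`, all derivatives bounded on `R` -/
def OK (R : Set (Ed d)) (f : Ed d → F) : Prop :=
  (∀ x ∈ R, ContDiffAt ℝ ((⊤ : ℕ∞) : WithTop ℕ∞) f x) ∧ ∀ m : ℕ, ∃ C, ∀ x ∈ R, ‖iteratedFDeriv ℝ m f x‖ ≤ C

/-- all derivatives of order `≤ m` are bounded by `c` on `R` -/
def BN (R : Set (Ed d)) (m : ℕ) (f : Ed d → F) (c : ℝ) : Prop :=
  ∀ i ≤ m, ∀ x ∈ R, ‖iteratedFDeriv ℝ i f x‖ ≤ c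

/-- all derivatives of the orders `1, …, m` are bounded by `c` on `R` -/
def GN (R : Set (Ed d)) (m : ℕ) (f : Ed d → F) (c : ℝ) : Prop :=
  ∀ i, 1 ≤ i → i ≤ m → ∀ x ∈ R, ‖iteratedFDeriv ℝ i f x‖ ≤ c

/-- the jets of order `≤ k` of fields, on `R` -/
def JS (R : Set (Ed d)) (k : ℕ) : Type := (i : Fin (k + 1)) → (R →ᵇ (Ed d [×(i : ℕ)]→L[ℝ] Cd d))

noncomputable instance (R : Set (Ed d)) (k : ℕ) : NormedAddCommGroup (JS R k) :=
  inferInstanceAs (NormedAddCommGroup ((i : Fin (k + 1)) → (R →ᵇ (Ed d [×(i : ℕ)]→L[ℝ] Cd d))))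
noncomputable instance (R : Set (Ed d)) (k : ℕ) : NormedSpace ℂ (JS R k) :=
  inferInstanceAs (NormedSpace ℂ ((i : Fin (k + 1)) → (R →ᵇ (Ed d [×(i : ℕ)]→L[ℝ] Cd d))))
instance (R : Set (Ed d)) (k : ℕ) : CompleteSpace (JS R k) :=
  inferInstanceAs (CompleteSpace ((i : Fin (k + 1)) → (R →ᵇ (Ed d [×(i : ℕ)]→L[ℝ] Cd d))))

/-- the jet of a field (component by component, `0` if not continuous and bounded) -/
noncomputable def jt (R : Set (Ed d)) (k : ℕ) (V : Ed d → Cd d) : JS R k := fun i =>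
  open scoped Classical in
  if h : Continuous (fun x : R => iteratedFDeriv ℝ (i : ℕ) V (x : Ed d)) ∧
      ∃ C, ∀ x : R, ‖iteratedFDeriv ℝ (i : ℕ) V (x : Ed d)‖ ≤ C then
    BoundedContinuousFunction.ofNormedAddCommGroup
      (fun x : R => iteratedFDeriv ℝ (i : ℕ) V (x : Ed d)) h.1 h.2.choose h.2.choose_spec
  else 0

/-- bilinear pairing of a complex with a real vector -/
noncomputable def br (ζ : Cd d) (Y : Ed d) : ℂ := ∑ i, ζ i * ((Y i : ℝ) : ℂ)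

/-- the complex bilinear form -/
noncomputable def bc (ζ η : Cd d) : ℂ := ∑ i, ζ i * η i

/-- a real vector as a complex vector -/
noncomputable def cv (v : Ed d) : Cd d := WithLp.toLp 2 fun i => ((v i : ℝ) : ℂ)

/-- the real part of a complex vector -/
noncomputable def rv (ζ : Cd d) : Ed d := WithLp.toLp 2 fun i => (ζ i).re

/-- inversion at `y` -/
noncomputable def iv (y x : Ed d) : Ed d := (‖x - y‖ ^ 2)⁻¹ • (x - y)

/-- the inverse map of the inversion -/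
noncomputable def vi (y Y : Ed d) : Ed d := y + (‖Y‖ ^ 2)⁻¹ • Y

/-- the Kelvin exponential with pole `y` -/
noncomputable def KV (y : Ed d) (ζ : Cd d) (x : Ed d) : ℂ :=
  ((((‖x - y‖ ^ (d - 2))⁻¹ : ℝ)) : ℂ) * Complex.exp (br ζ (iv y x))

/-- the reflection `I - 2 h hᵀ / |h|²` -/
noncomputable def rf (h : Ed d) (v : Cd d) : Cd d := v - (2 * (((‖h‖ ^ 2)⁻¹ : ℝ) : ℂ) * br v h) • cv h

/-- pull back of a field by the inversion (Piola transform) -/
noncomputable def Pb (y : Ed d) (b : Ed d → Cd d) (x : Ed d) : Cd d :=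
  ((((‖x - y‖ ^ (2 * d - 2))⁻¹ : ℝ)) : ℂ) • rf (x - y) (b (iv y x))

/-- the curl `∂_j v_i - ∂_i v_j` -/
noncomputable def cr (v : Ed d → Cd d) (i j : Fin d) (x : Ed d) : ℂ :=
  pd j (fun x => v x i) x - pd i (fun x => v x j) x

/-- `2 (∂_j p ∂_i q - ∂_i p ∂_j q)` -/
noncomputable def AA (p q : Ed d → ℂ) (i j : Fin d) (x : Ed d) : ℂ :=
  2 * (pd j p x * pd i q x - pd i p x * pd j q x)

/-- the divergence of a matrix field -/
noncomputable def DV (E : Fin d → Fin d → Ed d → ℂ) (x : Ed d) : Cd d :=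
  WithLp.toLp 2 fun i => ∑ j, pd j (E i j) x

/-- the drift of the pair `(p,q)` -/
noncomputable def VV (p q : Ed d → ℂ) (x : Ed d) : Cd d :=
  WithLp.toLp 2 fun i => (1 / 4 : ℂ) * ∑ j, pd j (AA p q i j) x

/-- `∑_j ∂_j ((1-χ) (∂_j v_i - ∂_i v_j))` -/
noncomputable def LL (χ : Ed d → ℝ) (v : Ed d → Cd d) : Ed d → Cd d :=
  DV fun i j x => (((1 - χ x : ℝ)) : ℂ) * cr v i j x

/-- the elementary antisymmetric matrix field `H (e_k ∧ e_l)` -/
noncomputable def EM (k l : Fin d) (H : Ed d → ℂ) (i j : Fin d) (Y : Ed d) : ℂ :=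
  (if i = k ∧ j = l then H Y else 0) - (if i = l ∧ j = k then H Y else 0)

/-- the functional on the Kelvin side -/
noncomputable def Qf {R : Set (Ed d)} {k : ℕ} (T : JS R k →L[ℂ] ℂ) (χ : Ed d → ℝ) (y : Ed d) (i j : Fin d)
    (H : Ed d → ℂ) : ℂ := T (jt R k (LL χ (Pb y (DV (EM i j H)))))

/-- the plane exponential `exp (a ⟨e, Y⟩ + i ⟨ξ, Y⟩)` -/
noncomputable def pe (a : ℝ) (e ξ : Ed d) (Y : Ed d) : ℂ :=
  Complex.exp (((a * ⟪e, Y⟫_ℝ : ℝ) : ℂ) + Complex.I * ((⟪ξ, Y⟫_ℝ : ℝ) : ℂ))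

/-- real versions -/
noncomputable def AR (p q : Ed d → ℝ) (i j : Fin d) (x : Ed d) : ℝ :=
  2 * (pd j p x * pd i q x - pd i p x * pd j q x)
noncomputable def DR (E : Fin d → Fin d → Ed d → ℝ) (x : Ed d) : Ed d :=
  WithLp.toLp 2 fun i => ∑ j, pd j (E i j) x
noncomputable def VR (p q : Ed d → ℝ) (x : Ed d) : Ed d :=
  WithLp.toLp 2 fun i => (1 / 4 : ℝ) * ∑ j, pd j (AR p q i j) x

/-- smooth antisymmetric matrix fields with compact support in `O` -/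
structure IsE (O : Set (Ed d)) (E : Fin d → Fin d → Ed d → F) : Prop where
  smo : ∀ i j, Smo (E i j)
  cpt : ∀ i j, HasCompactSupport (E i j)
  supp : ∀ i j, tsupport (E i j) ⊆ O
  anti : ∀ i j x, E i j x = -E j i x

/-- admissible potentials: smooth with bounded derivatives and harmonic on `D \ B`, tangential to the walls -/
structure Adm (D : Set (Ed d)) (z : Ed d → ℝ) (B : Set (Ed d)) (p : Ed d → F) : Prop where
  ok : OK (D \ B) p
  harm : ∀ x ∈ D \ B, lapl p x = 0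
  tan : ∃ C, ∀ x ∈ D \ B, ‖fderiv ℝ p x (gradient z x)‖ ≤ C * z x

/-- the slip of `p` is at most `c`: the derivatives of order `1, …, k+1` are bounded by `c` near the walls -/
def Slip (D : Set (Ed d)) (z : Ed d → ℝ) (k : ℕ) (p : Ed d → F) (c : ℝ) : Prop :=
  0 ≤ c ∧ ∃ ρ > 0, ∀ x ∈ D, z x < ρ → ∀ i, 1 ≤ i → i ≤ k + 1 → ‖iteratedFDeriv ℝ i p x‖ ≤ c

/-- the working geometry: `N'' = ball a r₁`, `N' = ball a r₂` -/
structure Geo (D : Set (Ed d)) (z : Ed d → ℝ) (δ : ℝ) (a : Ed d) (r₁ r₂ : ℝ) : Prop where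
  dom : Dom D z δ
  two : 2 ≤ d
  pos : 0 < r₁
  lt : r₁ < r₂
  sub : closedBall a r₂ ⊆ D

/-- what is needed from block B (homogeneous Neumann problem) -/
structure NeuP (D : Set (Ed d)) (z : Ed d → ℝ) : Prop where
  ex : ∀ f : Ed d → ℝ, BD D f → ∫ x in D, f x = 0 → ∃ q : Ed d → ℝ, BD D q ∧ (∀ x ∈ D, lapl q x = f x) ∧
    Oz D z fun x => fderiv ℝ q x (gradient z x)
  est : ∀ k : ℕ, ∃ (m : ℕ) (C : ℝ), 0 ≤ C ∧ ∀ q : Ed d → ℝ, BD D q → (Oz D z fun x => fderiv ℝ q x (gradient z x)) →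
    ∀ c : ℝ, 0 ≤ c → BN D m (lapl q) c → GN D k q (C * c)

/-- what is needed from block G: unique continuation for harmonic functions on concentric balls -/
def UCP (d : ℕ) : Prop := ∀ (c : Ed d) (t : ℝ) (U : Ed d → ℝ), 0 < t → Smo U → (∀ x ∈ ball c t, lapl U x = 0) →
  (∀ x ∈ ball c (4 / 5 * t), U x = 0) → ∀ x ∈ ball c (901 / 1000 * t), U x = 0

/-- the functional `T` satisfies the basic inequality -/
def Bas (D : Set (Ed d)) (z : Ed d → ℝ) (a : Ed d) (r₁ r₂ : ℝ) (k : ℕ) (T : JS (D \ ball a r₂) k →L[ℂ] ℂ)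
    (C : ℝ) : Prop :=
  0 ≤ C ∧ ∀ (p q : Ed d → ℂ) (c₁ c₂ : ℝ), Adm D z (ball a r₁) p → Adm D z (ball a r₁) q → Slip D z k p c₁ →
    Slip D z k q c₂ → ‖T (jt _ k (VV p q))‖ ≤ C * c₁ * c₂

/-- the distribution `E ↦ T (div E)` vanishes on `O` -/
def Van {R : Set (Ed d)} {k : ℕ} (T : JS R k →L[ℂ] ℂ) (O : Set (Ed d)) : Prop :=
  ∀ E : Fin d → Fin d → Ed d → ℂ, IsE O E → T (jt R k (DV E)) = 0

/-- linear functionals on smooth functions, bounded by the derivatives of order `≤ m` on `K` -/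
structure LinB (K : Set (Ed d)) (m : ℕ) (Φ : (Ed d → ℂ) → ℂ) : Prop where
  add : ∀ f g, Smo f → Smo g → Φ (fun x => f x + g x) = Φ f + Φ g
  smul : ∀ (c : ℂ) (f), Smo f → Φ (fun x => c * f x) = c * Φ f
  bdd : ∃ C, 0 ≤ C ∧ ∀ (f) (c : ℝ), Smo f → 0 ≤ c → BN K m f c → ‖Φ f‖ ≤ C * c

end Pool.Agent.Lib.MP_79abb3_an.W.C
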