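import Pool.Agent.Lib.MP_79abb3_an.W.CDef

/-!
Theorem W (MP_79abb3_an), block C (density of the drifts). Bounds for composed functions.
-/

set_option autoImplicit false
set_option linter.unusedSectionVars false
set_option linter.unusedVariables false

open MeasureTheory Set Filter Topology Function Metric
open scoped ENNReal InnerProductSpace BoundedContinuousFunction

namespace Pool.Agent.Lib.MP_79abb3_an.W.C

variable {d : ℕ} {F : Type} [NormedAddCommGroup F] [NormedSpace ℝ F]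

private theorem cfa_bd {E : Type} [NormedAddCommGroup E] [NormedSpace ℝ E] {U K : Set (Ed d)}
    (hU : IsOpen U) (hK : IsCompact K) (hKU : K ⊆ U) {f : Ed d → E}
    (hf : ContDiffOn ℝ ((⊤ : ℕ∞) : WithTop ℕ∞) f U) (m : ℕ) :
    ∃ C : ℝ, 1 ≤ C ∧ ∀ i ≤ m, ∀ x ∈ K, ‖iteratedFDerivWithin ℝ i f U x‖ ≤ C := by
  have h1 : ∀ i : ℕ, ∃ C : ℝ, ∀ x ∈ K, ‖iteratedFDerivWithin ℝ i f U x‖ ≤ C := by
    intro i
    have h2 : ContinuousOn (iteratedFDerivWithin ℝ i f U) U :=
      hf.continuousOn_iteratedFDerivWithin (by exact_mod_cast le_top) hU.uniqueDiffOn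
    exact hK.exists_bound_of_continuousOn (h2.mono hKU)
  choose C hC using h1
  refine ⟨1 + ∑ i ∈ Finset.range (m + 1), |C i|, ?_, ?_⟩
  · have h2 : 0 ≤ ∑ i ∈ Finset.range (m + 1), |C i| := Finset.sum_nonneg fun i _ => abs_nonneg _
    linarith
  · intro i hi x hx
    have h2 : |C i| ≤ ∑ i ∈ Finset.range (m + 1), |C i| :=
      Finset.single_le_sum (f := fun i => |C i|) (fun i _ => abs_nonneg _)
        (Finset.mem_range.2 (Nat.lt_succ_of_le hi))
    have h3 := hC i x hx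
    have h4 := le_abs_self (C i)
    linarith

/-- `x ↦ a x * H (Y x)`: the derivatives of order `≤ m` on a compact set are bounded by those of `H` at `Y x`.
PROOF. Multiply `a`, `Y` by a cut off equal to `1` near `K` with compact support in `U` (then they are smooth on the whole space
with bounded derivatives; the germs at the points of `K` do not change). `norm_iteratedFDeriv_comp_le` for `H ∘ Y` with
`D = max 1 (sup of the derivatives of Y of order 1..m)` and `norm_iteratedFDeriv_mul_le`. -/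
theorem comp_bound {U K : Set (Ed d)} (hU : IsOpen U) (hK : IsCompact K) (hKU : K ⊆ U) {a : Ed d → ℂ}
    {Y : Ed d → Ed d} (ha : ContDiffOn ℝ ((⊤ : ℕ∞) : WithTop ℕ∞) a U)
    (hY : ContDiffOn ℝ ((⊤ : ℕ∞) : WithTop ℕ∞) Y U) (m : ℕ) :
    ∃ C, 0 ≤ C ∧ ∀ H : Ed d → ℂ, Smo H → ∀ x ∈ K, ∀ B : ℝ, (∀ j ≤ m, ‖iteratedFDeriv ℝ j H (Y x)‖ ≤ B) →
      ∀ i ≤ m, ‖iteratedFDeriv ℝ i (fun x => a x * H (Y x)) x‖ ≤ C * B := by
  obtain ⟨A, hA1, hA⟩ := cfa_bd hU hK hKU ha m
  obtain ⟨D, hD1, hD⟩ := cfa_bd hU hK hKU hY m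
  refine ⟨2 ^ m * A * (m.factorial * D ^ m), by positivity, ?_⟩
  intro H hH x hx B hB i hi
  have hxU := hKU hx
  have hB0 : 0 ≤ B := (norm_nonneg _).trans (hB 0 (Nat.zero_le _))
  have hHY : ContDiffOn ℝ ((⊤ : ℕ∞) : WithTop ℕ∞) (H ∘ Y) U := by
    have h1 : ContDiff ℝ ((⊤ : ℕ∞) : WithTop ℕ∞) H := hH
    exact h1.comp_contDiffOn hY
  have hcomp : ∀ l ≤ m, ‖iteratedFDerivWithin ℝ l (H ∘ Y) U x‖ ≤ m.factorial * B * D ^ m := by
    intro l hl
    have h1 : ‖iteratedFDerivWithin ℝ l (H ∘ Y) U x‖ ≤ l.factorial * B * D ^ l := by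
      refine norm_iteratedFDerivWithin_comp_le (t := univ) (N := ((⊤ : ℕ∞) : WithTop ℕ∞))
        (contDiffOn_univ.2 hH) hY (by exact_mod_cast le_top) uniqueDiffOn_univ hU.uniqueDiffOn
        (mapsTo_univ _ _) hxU ?_ ?_
      · intro j hj
        rw [iteratedFDerivWithin_univ]
        exact hB j (hj.trans hl)
      · intro j hj hjl
        exact (hD j (hjl.trans hl) x hx).trans (le_self_pow₀ hD1 (by omega))
    refine h1.trans ?_
    have h2 : (l.factorial : ℝ) ≤ m.factorial := by exact_mod_cast Nat.factorial_le hl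
    have h3 : D ^ l ≤ D ^ m := pow_le_pow_right₀ hD1 hl
    exact mul_le_mul (mul_le_mul_of_nonneg_right h2 hB0) h3 (by positivity) (by positivity)
  have hmul := norm_iteratedFDerivWithin_mul_le (N := ((⊤ : ℕ∞) : WithTop ℕ∞)) ha hHY
    hU.uniqueDiffOn hxU (n := i) (by exact_mod_cast le_top)
  have hopen : iteratedFDerivWithin ℝ i (fun y => a y * (H ∘ Y) y) U x =
      iteratedFDeriv ℝ i (fun x => a x * H (Y x)) x := iteratedFDerivWithin_of_isOpen i hU hxU
  rw [hopen] at hmul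
  refine hmul.trans ?_
  have hsum : ∀ l ∈ Finset.range (i + 1), (i.choose l : ℝ) * ‖iteratedFDerivWithin ℝ l a U x‖ *
      ‖iteratedFDerivWithin ℝ (i - l) (H ∘ Y) U x‖ ≤
      (i.choose l : ℝ) * (A * (m.factorial * B * D ^ m)) := by
    intro l hl
    have hl' : l ≤ i := Nat.lt_succ_iff.1 (Finset.mem_range.1 hl)
    have h1 := hA l (hl'.trans hi) x hx
    have h2 := hcomp (i - l) ((Nat.sub_le _ _).trans hi)
    rw [mul_assoc]
    refine mul_le_mul_of_nonneg_left ?_ (Nat.cast_nonneg _)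
    exact mul_le_mul h1 h2 (norm_nonneg _) (by linarith)
  refine (Finset.sum_le_sum hsum).trans ?_
  rw [← Finset.sum_mul]
  have h3 : ∑ l ∈ Finset.range (i + 1), (i.choose l : ℝ) = 2 ^ i := by
    exact_mod_cast Nat.sum_range_choose i
  rw [h3]
  have h4 : (2 : ℝ) ^ i ≤ 2 ^ m := pow_le_pow_right₀ (by norm_num) hi
  have h5 : 0 ≤ A * (m.factorial * B * D ^ m) := by positivity
  calc (2 : ℝ) ^ i * (A * (m.factorial * B * D ^ m)) ≤ 2 ^ m * (A * (m.factorial * B * D ^ m)) :=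
        mul_le_mul_of_nonneg_right h4 h5
    _ = _ := by ring

end Pool.Agent.Lib.MP_79abb3_an.W.C
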