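import Pool.Agent.Lib.MP_79abb3_an.W.CDef

/-!
Theorem W (MP_79abb3_an), block C (density of the drifts). The inversion.
-/

set_option autoImplicit false
set_option linter.unusedSectionVars false
set_option linter.unusedVariables false

open MeasureTheory Set Filter Topology Function Metric
open scoped ENNReal InnerProductSpace BoundedContinuousFunction

namespace Pool.Agent.Lib.MP_79abb3_an.W.C

variable {d : ℕ} {F : Type} [NormedAddCommGroup F] [NormedSpace ℝ F]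

private theorem cea_vi (y Y : Ed d) : vi y Y - y = (‖Y‖ ^ 2)⁻¹ • Y := by
  unfold vi
  rw [add_sub_cancel_left]

theorem norm_iv {y x : Ed d} (h : x ≠ y) : ‖iv y x‖ = ‖x - y‖⁻¹ := by
  have h0 : ‖x - y‖ ≠ 0 := norm_ne_zero_iff.2 (sub_ne_zero.2 h)
  unfold iv
  rw [norm_smul, norm_inv, norm_pow, norm_norm]
  field_simp

theorem norm_vi_sub {y Y : Ed d} (h : Y ≠ 0) : ‖vi y Y - y‖ = ‖Y‖⁻¹ := by
  have h0 : ‖Y‖ ≠ 0 := norm_ne_zero_iff.2 h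
  rw [cea_vi, norm_smul, norm_inv, norm_pow, norm_norm]
  field_simp

theorem iv_vi {y Y : Ed d} (h : Y ≠ 0) : iv y (vi y Y) = Y := by
  have h0 : ‖Y‖ ≠ 0 := norm_ne_zero_iff.2 h
  unfold iv
  rw [norm_vi_sub h, cea_vi, smul_smul]
  have e : ((‖Y‖⁻¹ ^ 2)⁻¹ * (‖Y‖ ^ 2)⁻¹) = 1 := by
    field_simp
  rw [e, one_smul]

theorem vi_iv {y x : Ed d} (h : x ≠ y) : vi y (iv y x) = x := by
  have h0 : ‖x - y‖ ≠ 0 := norm_ne_zero_iff.2 (sub_ne_zero.2 h)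
  unfold vi
  rw [norm_iv h]
  unfold iv
  rw [smul_smul]
  have e : ((‖x - y‖⁻¹ ^ 2)⁻¹ * (‖x - y‖ ^ 2)⁻¹) = 1 := by
    field_simp
  rw [e, one_smul, add_sub_cancel]

theorem iv_ne {y x : Ed d} (h : x ≠ y) : iv y x ≠ 0 := by
  have h0 : ‖x - y‖ ≠ 0 := norm_ne_zero_iff.2 (sub_ne_zero.2 h)
  rw [← norm_ne_zero_iff, norm_iv h]
  exact inv_ne_zero h0

theorem vi_ne {y Y : Ed d} (h : Y ≠ 0) : vi y Y ≠ y := by
  have h0 : ‖Y‖ ≠ 0 := norm_ne_zero_iff.2 h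
  rw [← sub_ne_zero, ← norm_ne_zero_iff, norm_vi_sub h]
  exact inv_ne_zero h0

theorem iv_cda {y x : Ed d} (h : x ≠ y) : ContDiffAt ℝ ((⊤ : ℕ∞) : WithTop ℕ∞) (iv y) x := by
  have h0 : ‖x - y‖ ^ 2 ≠ 0 := pow_ne_zero 2 (norm_ne_zero_iff.2 (sub_ne_zero.2 h))
  have h1 : ContDiffAt ℝ ((⊤ : ℕ∞) : WithTop ℕ∞) (fun x : Ed d => x - y) x :=
    contDiffAt_id.sub contDiffAt_const
  have h2 : ContDiffAt ℝ ((⊤ : ℕ∞) : WithTop ℕ∞) (fun x : Ed d => ‖x - y‖ ^ 2) x := h1.norm_sq ℝ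
  exact (h2.inv h0).smul h1

theorem vi_cda {y Y : Ed d} (h : Y ≠ 0) : ContDiffAt ℝ ((⊤ : ℕ∞) : WithTop ℕ∞) (vi y) Y := by
  have h0 : ‖Y‖ ^ 2 ≠ 0 := pow_ne_zero 2 (norm_ne_zero_iff.2 h)
  have h2 : ContDiffAt ℝ ((⊤ : ℕ∞) : WithTop ℕ∞) (fun x : Ed d => ‖x‖ ^ 2) Y := contDiffAt_id.norm_sq ℝ
  exact contDiffAt_const.add ((h2.inv h0).smul contDiffAt_id)

private theorem cea_aux {c : Ed d} {x : Ed d} (h : x ≠ c) :
    HasFDerivAt (fun x : Ed d => (‖x - c‖ ^ 2)⁻¹ • (x - c))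
      ((‖x - c‖ ^ 2)⁻¹ • ContinuousLinearMap.id ℝ (Ed d) +
        ((-((‖x - c‖ ^ 2) ^ 2)⁻¹) • ((2 : ℝ) • innerSL ℝ (x - c))).smulRight (x - c)) x := by
  have h0 : ‖x - c‖ ^ 2 ≠ 0 := pow_ne_zero 2 (norm_ne_zero_iff.2 (sub_ne_zero.2 h))
  have h1 : HasFDerivAt (fun x : Ed d => x - c) (ContinuousLinearMap.id ℝ (Ed d)) x :=
    (hasFDerivAt_id x).sub_const c
  have h2 : HasFDerivAt (fun x : Ed d => ‖x - c‖ ^ 2) ((2 : ℝ) • innerSL ℝ (x - c)) x := by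
    refine h1.norm_sq.congr_fderiv ?_
    refine ContinuousLinearMap.ext fun z => ?_
    simp [two_mul]
  have h3 : HasFDerivAt (fun x : Ed d => (‖x - c‖ ^ 2)⁻¹)
      ((-((‖x - c‖ ^ 2) ^ 2)⁻¹) • ((2 : ℝ) • innerSL ℝ (x - c))) x :=
    (hasDerivAt_inv h0).comp_hasFDerivAt x h2
  exact h3.smul h1

private theorem cea_alg (g q : ℝ) (v w : Ed d) :
    g⁻¹ • v + ((-(g ^ 2)⁻¹) * ((2 : ℝ) * q)) • w = g⁻¹ • (v - (2 * g⁻¹ * q) • w) := by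
  rw [smul_sub, smul_smul, sub_eq_add_neg, ← neg_smul]
  congr 2
  rw [← inv_pow]
  ring

/-- PROOF: derivative of `‖x-y‖^(-2) (x-y)` (or `EuclideanGeometry.hasFDerivAt_inversion`). -/
theorem fderiv_iv {y x : Ed d} (h : x ≠ y) (v : Ed d) :
    fderiv ℝ (iv y) x v = (‖x - y‖ ^ 2)⁻¹ • (v - (2 * (‖x - y‖ ^ 2)⁻¹ * ⟪x - y, v⟫_ℝ) • (x - y)) := by
  have h1 : HasFDerivAt (iv y) _ x := cea_aux h
  rw [h1.fderiv]
  exact cea_alg _ _ _ _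

theorem fderiv_vi {y Y : Ed d} (h : Y ≠ 0) (v : Ed d) :
    fderiv ℝ (vi y) Y v = (‖Y‖ ^ 2)⁻¹ • (v - (2 * (‖Y‖ ^ 2)⁻¹ * ⟪Y, v⟫_ℝ) • Y) := by
  have h1 : HasFDerivAt (fun x : Ed d => (‖x - 0‖ ^ 2)⁻¹ • (x - 0)) _ Y := cea_aux h
  simp only [sub_zero] at h1
  have h2 : HasFDerivAt (vi y) _ Y := h1.const_add y
  rw [h2.fderiv]
  exact cea_alg _ _ _ _

end Pool.Agent.Lib.MP_79abb3_an.W.C
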