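import Pool.Agent.Lib.MP_79abb3_an.W.CBb
import Pool.Agent.Lib.MP_79abb3_an.W.CBd
import Pool.Agent.Lib.MP_79abb3_an.W.CEa

/-!
Theorem W (MP_79abb3_an), block C (density of the drifts). Transformed fields are smooth off the pole.
-/

set_option autoImplicit false
set_option linter.unusedSectionVars false
set_option linter.unusedVariables false

open MeasureTheory Set Filter Topology Function Metric
open scoped ENNReal InnerProductSpace BoundedContinuousFunction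

namespace Pool.Agent.Lib.MP_79abb3_an.W.C

variable {d : ℕ} {F : Type} [NormedAddCommGroup F] [NormedSpace ℝ F]

/-- the components, as real linear maps -/
private noncomputable def cfd_pr (j : Fin d) : Cd d →L[ℝ] ℂ :=
  (EuclideanSpace.proj j : Cd d →L[ℂ] ℂ).restrictScalars ℝ

private theorem cfd_pr_apply (j : Fin d) (v : Cd d) : cfd_pr j v = v j := rfl

private theorem cfd_ofReal {f : Ed d → ℝ} {x : Ed d} (hf : ContDiffAt ℝ ((⊤ : ℕ∞) : WithTop ℕ∞) f x) :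
    ContDiffAt ℝ ((⊤ : ℕ∞) : WithTop ℕ∞) (fun x => ((f x : ℝ) : ℂ)) x :=
  Complex.ofRealCLM.contDiff.contDiffAt.comp x hf

private theorem cfd_Pb_apply (y : Ed d) (b : Ed d → Cd d) (x : Ed d) (i : Fin d) :
    Pb y b x i = ((((‖x - y‖ ^ (2 * d - 2))⁻¹ : ℝ)) : ℂ) * (b (iv y x) i -
      (2 * (((‖x - y‖ ^ 2)⁻¹ : ℝ) : ℂ) * ∑ j, b (iv y x) j * (((x - y) j : ℝ) : ℂ)) *
        (((x - y) i : ℝ) : ℂ)) := rfl

/-- PROOF. Components: `‖x-y‖^{2-2d} (b_i(Y) - 2 |h|⁻² (∑ b_j(Y) h_j) h_i)`, `Y = iv y x`, `h = x-y ≠ 0`, `iv_cda`. -/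
theorem Pb_cda {y x : Ed d} (h : x ≠ y) {b : Ed d → Cd d} (hb : Smo b) :
    ContDiffAt ℝ ((⊤ : ℕ∞) : WithTop ℕ∞) (Pb y b) x := by
  have hne : x - y ≠ 0 := sub_ne_zero.2 h
  have h0 : ContDiffAt ℝ ((⊤ : ℕ∞) : WithTop ℕ∞) (fun x : Ed d => x - y) x :=
    contDiffAt_id.sub contDiffAt_const
  have h1 : ContDiffAt ℝ ((⊤ : ℕ∞) : WithTop ℕ∞) (fun x : Ed d => ‖x - y‖) x := h0.norm ℝ hne
  have h2 : ∀ n : ℕ, ContDiffAt ℝ ((⊤ : ℕ∞) : WithTop ℕ∞) (fun x : Ed d => (‖x - y‖ ^ n)⁻¹) x := fun n =>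
    (h1.pow n).inv (pow_ne_zero n (norm_ne_zero_iff.2 hne))
  have h3 : ∀ j, ContDiffAt ℝ ((⊤ : ℕ∞) : WithTop ℕ∞) (fun x : Ed d => (x - y) j) x := fun j =>
    (EuclideanSpace.proj j : Ed d →L[ℝ] ℝ).contDiff.contDiffAt.comp x h0
  have h4 : ContDiffAt ℝ ((⊤ : ℕ∞) : WithTop ℕ∞) (fun x : Ed d => b (iv y x)) x :=
    ContDiffAt.comp x (ContDiff.contDiffAt hb) (iv_cda h)
  have h5 : ∀ j, ContDiffAt ℝ ((⊤ : ℕ∞) : WithTop ℕ∞) (fun x : Ed d => b (iv y x) j) x := fun j =>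
    (cfd_pr j).contDiff.contDiffAt.comp x h4
  refine (contDiffAt_piLp 2).2 fun i => ?_
  have h6 : ContDiffAt ℝ ((⊤ : ℕ∞) : WithTop ℕ∞)
      (fun x : Ed d => ∑ j, b (iv y x) j * (((x - y) j : ℝ) : ℂ)) x :=
    ContDiffAt.sum fun j _ => (h5 j).mul (cfd_ofReal (h3 j))
  exact (cfd_ofReal (h2 _)).mul ((h5 i).sub (((contDiffAt_const.mul (cfd_ofReal (h2 2))).mul h6).mul
    (cfd_ofReal (h3 i))))

private theorem cfd_far {χ : Ed d → ℝ} {y : Ed d} {r₃ : ℝ} (h1 : ∀ x, ‖x - y‖ < r₃ → χ x = 1) {x : Ed d}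
    (hx : x ∈ tsupport fun x => 1 - χ x) : r₃ ≤ ‖x - y‖ := by
  have h2 : (support fun x => 1 - χ x) ⊆ {x | r₃ ≤ ‖x - y‖} := by
    intro x hx
    by_contra h3
    apply hx
    show 1 - χ x = 0
    rw [h1 x (not_le.1 h3), sub_self]
  have h3 : IsClosed {x : Ed d | r₃ ≤ ‖x - y‖} :=
    isClosed_le continuous_const (continuous_id.sub continuous_const).norm
  exact closure_minimal h2 h3 hx

private theorem cfd_ok {R : Set (Ed d)} (hR : Bornology.IsBounded R) {χ : Ed d → ℝ} {y : Ed d}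
    {r₃ : ℝ} (hr : 0 < r₃) (h1 : ∀ x, ‖x - y‖ < r₃ → χ x = 1) {b : Ed d → Cd d} (hb : Smo b) :
    OK (R ∩ tsupport fun x => 1 - χ x) (Pb y b) := by
  have hne : ∀ x : Ed d, r₃ ≤ ‖x - y‖ → x ≠ y := by
    intro x hx h2
    rw [h2, sub_self, norm_zero] at hx
    linarith
  refine ⟨fun x hx => Pb_cda (hne x (cfd_far h1 hx.2)) hb, fun m => ?_⟩
  obtain ⟨ρ, hρ⟩ := hR.subset_closedBall y
  have hK : IsCompact (closedBall y ρ ∩ {x : Ed d | r₃ ≤ ‖x - y‖}) :=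
    (isCompact_closedBall y ρ).inter_right
      (isClosed_le continuous_const (continuous_id.sub continuous_const).norm)
  have hc : ContinuousOn (fun x => iteratedFDeriv ℝ m (Pb y b) x)
      (closedBall y ρ ∩ {x : Ed d | r₃ ≤ ‖x - y‖}) := by
    intro x hx
    have h2 := Pb_cda (hne x hx.2) hb
    have h3 : ContDiffAt ℝ ((0 : ℕ∞) : WithTop ℕ∞) (iteratedFDeriv ℝ m (Pb y b)) x :=
      h2.iteratedFDeriv_right (by norm_cast; exact le_top)
    exact h3.continuousAt.continuousWithinAt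
  obtain ⟨C, hC⟩ := hK.exists_bound_of_continuousOn hc
  exact ⟨C, fun x hx => hC x ⟨hρ hx.1, cfd_far h1 hx.2⟩⟩

/-- Let `χ = 1` on `ball y r₃`. PROOF. On `S = R ∩ tsupport (1-χ)` (bounded, `r₃ ≤ ‖x-y‖`) the field `v = Pb y b` is smooth with bounded derivatives
(continuous on the compact set `{r₃ ≤ ‖x-y‖ ≤ ρ}`); `cr v i j` is OK on `S` (`ok_pd`, `ok_clm` for the components), `ok_cut`, `ok_DV`. -/
theorem ok_LL {R : Set (Ed d)} (hR : Bornology.IsBounded R) {χ : Ed d → ℝ} (hχ : Smo χ) {y : Ed d}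
    {r₃ : ℝ} (hr : 0 < r₃) (h1 : ∀ x, ‖x - y‖ < r₃ → χ x = 1) {b : Ed d → Cd d} (hb : Smo b) (i j : Fin d) :
    OK R (fun x => ((1 - χ x : ℝ) : ℂ) * cr (Pb y b) i j x) ∧ OK R (LL χ (Pb y b)) := by
  have hv := cfd_ok hR hr h1 hb
  have hcr : ∀ i j, OK R (fun x => ((1 - χ x : ℝ) : ℂ) * cr (Pb y b) i j x) := fun i j =>
    ok_cut hR hχ (ok_sub (ok_pd (ok_clm (cfd_pr i) hv) j) (ok_pd (ok_clm (cfd_pr j) hv) i))
  exact ⟨hcr i j, ok_DV hcr⟩

private theorem cfd_pd_add {f g : Ed d → ℂ} {x : Ed d} (hf : DifferentiableAt ℝ f x) (hg : DifferentiableAt ℝ g x)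
    (i : Fin d) : pd i (fun x => f x + g x) x = pd i f x + pd i g x := by
  show fderiv ℝ (fun x => f x + g x) x (eb i) = _
  rw [fderiv_fun_add hf hg]
  rfl

private theorem cfd_pd_smul {f : Ed d → ℂ} {x : Ed d} (hf : DifferentiableAt ℝ f x) (c : ℂ)
    (i : Fin d) : pd i (fun x => c * f x) x = c * pd i f x := by
  show fderiv ℝ (fun x => c * f x) x (eb i) = _
  rw [fderiv_const_mul hf]
  rfl

private theorem cfd_diff {y x : Ed d} (h : x ≠ y) {b : Ed d → Cd d} (hb : Smo b) (i : Fin d) :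
    DifferentiableAt ℝ (fun x => Pb y b x i) x := by
  have h1 : ContDiffAt ℝ ((⊤ : ℕ∞) : WithTop ℕ∞) (fun x => cfd_pr i (Pb y b x)) x :=
    (cfd_pr i).contDiff.contDiffAt.comp x (Pb_cda h hb)
  exact h1.differentiableAt (by norm_num)

private theorem cfd_Pb_add (y : Ed d) (b b' : Ed d → Cd d) (x : Ed d) (i : Fin d) :
    Pb y (fun Y => b Y + b' Y) x i = Pb y b x i + Pb y b' x i := by
  rw [cfd_Pb_apply, cfd_Pb_apply, cfd_Pb_apply]
  have h1 : ∑ j, (b (iv y x) + b' (iv y x)) j * (((x - y) j : ℝ) : ℂ) =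
      (∑ j, b (iv y x) j * (((x - y) j : ℝ) : ℂ)) + ∑ j, b' (iv y x) j * (((x - y) j : ℝ) : ℂ) := by
    rw [← Finset.sum_add_distrib]
    refine Finset.sum_congr rfl fun j _ => ?_
    rw [PiLp.add_apply]
    ring
  rw [h1, PiLp.add_apply]
  ring

private theorem cfd_Pb_smul (y : Ed d) (c : ℂ) (b : Ed d → Cd d) (x : Ed d) (i : Fin d) :
    Pb y (fun Y => c • b Y) x i = c * Pb y b x i := by
  rw [cfd_Pb_apply, cfd_Pb_apply]
  have h1 : ∑ j, (c • b (iv y x)) j * (((x - y) j : ℝ) : ℂ) =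
      c * ∑ j, b (iv y x) j * (((x - y) j : ℝ) : ℂ) := by
    rw [Finset.mul_sum]
    refine Finset.sum_congr rfl fun j _ => ?_
    rw [PiLp.smul_apply, smul_eq_mul]
    ring
  rw [h1, PiLp.smul_apply, smul_eq_mul]
  ring

/-- PROOF. `Pb y` and `cr` are additive (differentiability off `y`), near `y` everything is `0`: `jt_DV_congr`, `jt_DV_add`. -/
theorem jt_LL_add {R : Set (Ed d)} (hR : Bornology.IsBounded R) (k : ℕ) {χ : Ed d → ℝ} (hχ : Smo χ) {y : Ed d}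
    {r₃ : ℝ} (hr : 0 < r₃) (h1 : ∀ x, ‖x - y‖ < r₃ → χ x = 1) {b b' : Ed d → Cd d} (hb : Smo b) (hb' : Smo b') :
    jt R k (LL χ (Pb y fun Y => b Y + b' Y)) = jt R k (LL χ (Pb y b)) + jt R k (LL χ (Pb y b')) := by
  have h2 : (fun (i j : Fin d) x => (((1 - χ x : ℝ)) : ℂ) * cr (Pb y fun Y => b Y + b' Y) i j x) =
      fun i j x => (((1 - χ x : ℝ)) : ℂ) * cr (Pb y b) i j x + (((1 - χ x : ℝ)) : ℂ) * cr (Pb y b') i j x := by
    funext i j x
    by_cases hx : x = y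
    · have h3 : χ x = 1 := h1 x (by rw [hx, sub_self, norm_zero]; exact hr)
      rw [h3, sub_self, Complex.ofReal_zero, zero_mul, zero_mul, zero_mul, add_zero]
    · rw [← mul_add]
      congr 1
      unfold cr
      simp only [cfd_Pb_add]
      rw [cfd_pd_add (cfd_diff hx hb i) (cfd_diff hx hb' i), cfd_pd_add (cfd_diff hx hb j) (cfd_diff hx hb' j)]
      ring
  show jt R k (DV fun i j x => (((1 - χ x : ℝ)) : ℂ) * cr (Pb y fun Y => b Y + b' Y) i j x) = _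
  rw [h2]
  exact jt_DV_add k (fun i j => (ok_LL hR hχ hr h1 hb i j).1) fun i j => (ok_LL hR hχ hr h1 hb' i j).1

theorem jt_LL_smul {R : Set (Ed d)} (hR : Bornology.IsBounded R) (k : ℕ) {χ : Ed d → ℝ} (hχ : Smo χ) {y : Ed d}
    {r₃ : ℝ} (hr : 0 < r₃) (h1 : ∀ x, ‖x - y‖ < r₃ → χ x = 1) (c : ℂ) {b : Ed d → Cd d} (hb : Smo b) :
    jt R k (LL χ (Pb y fun Y => c • b Y)) = c • jt R k (LL χ (Pb y b)) := by
  have h2 : (fun (i j : Fin d) x => (((1 - χ x : ℝ)) : ℂ) * cr (Pb y fun Y => c • b Y) i j x) =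
      fun i j x => c * ((((1 - χ x : ℝ)) : ℂ) * cr (Pb y b) i j x) := by
    funext i j x
    by_cases hx : x = y
    · have h3 : χ x = 1 := h1 x (by rw [hx, sub_self, norm_zero]; exact hr)
      rw [h3, sub_self, Complex.ofReal_zero, zero_mul, zero_mul, mul_zero]
    · rw [mul_left_comm]
      congr 1
      unfold cr
      simp only [cfd_Pb_smul]
      rw [cfd_pd_smul (cfd_diff hx hb i), cfd_pd_smul (cfd_diff hx hb j)]
      ring
  show jt R k (DV fun i j x => (((1 - χ x : ℝ)) : ℂ) * cr (Pb y fun Y => c • b Y) i j x) = _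
  rw [h2]
  exact jt_DV_smul k c fun i j => (ok_LL hR hχ hr h1 hb i j).1

end Pool.Agent.Lib.MP_79abb3_an.W.C
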