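import Pool.Agent.Lib.MP_79abb3_an.W.CDef

/-!
Theorem W (MP_79abb3_an), block C (density of the drifts). The matrix fields `EM`.
-/

set_option autoImplicit false
set_option linter.unusedSectionVars false
set_option linter.unusedVariables false

open MeasureTheory Set Filter Topology Function Metric
open scoped ENNReal InnerProductSpace BoundedContinuousFunction

namespace Pool.Agent.Lib.MP_79abb3_an.W.C

variable {d : ℕ} {F : Type} [NormedAddCommGroup F] [NormedSpace ℝ F]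

private theorem cfe_pd (k l i j : Fin d) {H : Ed d → ℂ} (hH : Smo H) (Y : Ed d) :
    pd j (EM k l H i j) Y = (if i = k ∧ j = l then pd j H Y else 0) -
      (if i = l ∧ j = k then pd j H Y else 0) := by
  have hd : DifferentiableAt ℝ H Y := (ContDiff.differentiable hH (by norm_num)) Y
  unfold pd EM
  by_cases h1 : i = k ∧ j = l
  · by_cases h2 : i = l ∧ j = k
    · simp only [if_pos h1, if_pos h2, sub_self]
      simp
    · simp only [if_pos h1, if_neg h2, sub_zero]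
  · by_cases h2 : i = l ∧ j = k
    · simp only [if_neg h1, if_pos h2, zero_sub]
      rw [fderiv_fun_neg]
      rfl
    · simp only [if_neg h1, if_neg h2, sub_zero]
      simp

private theorem cfe_comp (k l : Fin d) {H : Ed d → ℂ} (hH : Smo H) (Y : Ed d) (i : Fin d) :
    DV (EM k l H) Y i = (if i = k then pd l H Y else 0) - (if i = l then pd k H Y else 0) := by
  show ∑ j, pd j (EM k l H i j) Y = _
  rw [Finset.sum_congr rfl fun j _ => cfe_pd k l i j hH Y, Finset.sum_sub_distrib]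
  congr 1
  · by_cases h : i = k
    · simp [h]
    · simp [h]
  · by_cases h : i = l
    · simp [h]
    · simp [h]

/-- the vector field `DV (EM k l H)`: only the components `k` and `l` -/
theorem DV_EM (k l : Fin d) {H : Ed d → ℂ} (hH : Smo H) (Y : Ed d) :
    DV (EM k l H) Y = pd l H Y • EuclideanSpace.single k (1 : ℂ) - pd k H Y • EuclideanSpace.single l (1 : ℂ) := by
  ext i
  rw [cfe_comp k l hH]
  by_cases h1 : i = k <;> by_cases h2 : i = l <;> simp [h1, h2]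

private theorem cfe_smo {H : Ed d → ℂ} (hH : Smo H) (j : Fin d) : Smo (pd j H) := by
  have h1 : ContDiff ℝ ((⊤ : ℕ∞) : WithTop ℕ∞) (fderiv ℝ H) :=
    ContDiff.fderiv_right hH (by exact_mod_cast le_top)
  exact h1.clm_apply contDiff_const

theorem smo_DV_EM (k l : Fin d) {H : Ed d → ℂ} (hH : Smo H) : Smo (DV (EM k l H)) := by
  have e : DV (EM k l H) = fun Y => pd l H Y • EuclideanSpace.single k (1 : ℂ) -
      pd k H Y • EuclideanSpace.single l (1 : ℂ) := funext (DV_EM k l hH)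
  rw [e]
  have h1 : ∀ (j : Fin d) (v : Cd d), ContDiff ℝ ((⊤ : ℕ∞) : WithTop ℕ∞) fun Y => pd j H Y • v :=
    fun j v => ((ContinuousLinearMap.toSpanSingleton ℂ v).restrictScalars ℝ).contDiff.comp
      (cfe_smo hH j)
  exact (h1 l _).sub (h1 k _)

/-- the real coefficients -/
private noncomputable def cfe_a (y : Ed d) (i k : Fin d) (x : Ed d) : ℝ :=
  (‖x - y‖ ^ (2 * d - 2))⁻¹ * ((if i = k then 1 else 0) - 2 * (‖x - y‖ ^ 2)⁻¹ * ((x - y) k * (x - y) i))

private theorem cfe_cda (y : Ed d) (i k : Fin d) {x : Ed d} (h : x ≠ y) :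
    ContDiffAt ℝ ((⊤ : ℕ∞) : WithTop ℕ∞) (fun x => ((cfe_a y i k x : ℝ) : ℂ)) x := by
  have hs : ContDiffAt ℝ ((⊤ : ℕ∞) : WithTop ℕ∞) (fun x : Ed d => x - y) x :=
    contDiffAt_id.sub contDiffAt_const
  have hne : x - y ≠ 0 := sub_ne_zero.mpr h
  have hn : ContDiffAt ℝ ((⊤ : ℕ∞) : WithTop ℕ∞) (fun x : Ed d => ‖x - y‖) x := hs.norm ℝ hne
  have hc : ∀ j : Fin d, ContDiffAt ℝ ((⊤ : ℕ∞) : WithTop ℕ∞) (fun x : Ed d => (x - y) j) x :=
    fun j => (EuclideanSpace.proj (𝕜 := ℝ) j).contDiff.contDiffAt.comp x hs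
  have hp : ∀ n : ℕ, ContDiffAt ℝ ((⊤ : ℕ∞) : WithTop ℕ∞) (fun x : Ed d => (‖x - y‖ ^ n)⁻¹) x :=
    fun n => (hn.pow n).inv (pow_ne_zero _ (norm_ne_zero_iff.mpr hne))
  have hr : ContDiffAt ℝ ((⊤ : ℕ∞) : WithTop ℕ∞) (cfe_a y i k) x :=
    (hp _).mul (contDiffAt_const.sub ((contDiffAt_const.mul (hp 2)).mul ((hc k).mul (hc i))))
  exact Complex.ofRealCLM.contDiff.contDiffAt.comp x hr

/-- The `i`-th component of `Pb y (DV (EM k l H))` is `a₁ x (∂_l H)(iv y x) - a₂ x (∂_k H)(iv y x)` with `a₁, a₂` smooth off `y`,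
independent of `H`. -/
theorem Pb_EM (y : Ed d) (k l i : Fin d) :
    ∃ a₁ a₂ : Ed d → ℂ, (∀ x, x ≠ y → ContDiffAt ℝ ((⊤ : ℕ∞) : WithTop ℕ∞) a₁ x) ∧
      (∀ x, x ≠ y → ContDiffAt ℝ ((⊤ : ℕ∞) : WithTop ℕ∞) a₂ x) ∧ ∀ H : Ed d → ℂ, Smo H → ∀ x, x ≠ y →
      Pb y (DV (EM k l H)) x i = a₁ x * pd l H (iv y x) - a₂ x * pd k H (iv y x) := by
  refine ⟨fun x => ((cfe_a y i k x : ℝ) : ℂ), fun x => ((cfe_a y i l x : ℝ) : ℂ),
    fun x hx => cfe_cda y i k hx, fun x hx => cfe_cda y i l hx, fun H hH x hx => ?_⟩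
  set P := pd l H (iv y x) with hP
  set Q := pd k H (iv y x) with hQ
  have hbr : br (DV (EM k l H) (iv y x)) (x - y) =
      P * (((x - y) k : ℝ) : ℂ) - Q * (((x - y) l : ℝ) : ℂ) := by
    unfold br
    simp only [cfe_comp k l hH, sub_mul, ite_mul, zero_mul, Finset.sum_sub_distrib,
      Finset.sum_ite_eq', Finset.mem_univ, if_true, ← hP, ← hQ]
  have e1 : Pb y (DV (EM k l H)) x i = ((((‖x - y‖ ^ (2 * d - 2))⁻¹ : ℝ)) : ℂ) *
      (DV (EM k l H) (iv y x) i - (2 * (((‖x - y‖ ^ 2)⁻¹ : ℝ) : ℂ) *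
        br (DV (EM k l H) (iv y x)) (x - y)) * (((x - y) i : ℝ) : ℂ)) := rfl
  rw [e1, hbr, cfe_comp k l hH]
  unfold cfe_a
  rw [← hP, ← hQ]
  by_cases h1 : i = k <;> by_cases h2 : i = l
  · simp only [if_pos h1, if_pos h2]
    push_cast
    ring
  · simp only [if_pos h1, if_neg h2]
    push_cast
    ring
  · simp only [if_neg h1, if_pos h2]
    push_cast
    ring
  · simp only [if_neg h1, if_neg h2]
    push_cast
    ring

end Pool.Agent.Lib.MP_79abb3_an.W.C
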