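import Pool.Agent.Lib.MP_79abb3_an.W.CDef

/-!
Theorem W (MP_79abb3_an), block C (density of the drifts). Cut off functions, touching balls, tubes.
-/

set_option autoImplicit false
set_option linter.unusedSectionVars false
set_option linter.unusedVariables false

open MeasureTheory Set Filter Topology Function Metric
open scoped ENNReal InnerProductSpace BoundedContinuousFunction

namespace Pool.Agent.Lib.MP_79abb3_an.W.C

variable {d : ℕ} {F : Type} [NormedAddCommGroup F] [NormedSpace ℝ F]

/-- PROOF: `exists_contMDiff_support_eq…` / `exists_smooth_zero_one_of_isClosed`-type lemma, or: a finite cover of `K` by balls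
`ball x (r/2)` with `closedBall x r ⊆ U` and `χ = 1 - ∏ (1 - f_x)`, `f_x` a `ContDiffBump`. -/
theorem exists_cut {K U : Set (Ed d)} (hK : IsCompact K) (hU : IsOpen U) (hKU : K ⊆ U) :
    ∃ χ : Ed d → ℝ, Smo χ ∧ HasCompactSupport χ ∧ tsupport χ ⊆ U ∧ (∃ V, IsOpen V ∧ K ⊆ V ∧ ∀ x ∈ V, χ x = 1) ∧
      ∀ x, 0 ≤ χ x ∧ χ x ≤ 1 := by
  obtain ⟨δ, hδ, hδU⟩ := hK.exists_cthickening_subset_open hU hKU
  have hs : IsClosed (thickening δ K)ᶜ := isOpen_thickening.isClosed_compl
  have ht : IsClosed (cthickening (δ / 2) K) := isClosed_cthickening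
  have hd : Disjoint (thickening δ K)ᶜ (cthickening (δ / 2) K) := by
    rw [disjoint_compl_left_iff_subset]
    exact cthickening_subset_thickening' hδ (by linarith) K
  obtain ⟨f, hf0, hf1, hf⟩ :=
    exists_contMDiffMap_zero_one_of_isClosed (n := (⊤ : ℕ∞)) (modelWithCornersSelf ℝ (Ed d)) hs ht hd
  have hsupp : support (f : Ed d → ℝ) ⊆ thickening δ K := by
    intro x hx
    by_contra h1
    exact hx (hf0 h1)
  have hts : tsupport (f : Ed d → ℝ) ⊆ cthickening δ K :=
    closure_minimal (hsupp.trans (thickening_subset_cthickening δ K)) isClosed_cthickening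
  refine ⟨f, f.contMDiff.contDiff, ?_, hts.trans hδU, ⟨thickening (δ / 2) K, isOpen_thickening,
    self_subset_thickening (by linarith) K, fun x hx => hf1 (thickening_subset_cthickening _ _ hx)⟩,
    fun x => ⟨(hf x).1, (hf x).2⟩⟩
  exact HasCompactSupport.of_support_subset_isCompact hK.cthickening
    (hsupp.trans (thickening_subset_cthickening δ K))

/-- PROOF: `U = connectedComponentIn O a` is open (`IsOpen.connectedComponentIn`) and nonempty; if `closure U ∩ D ⊆ U`, then `U` is closed in the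
connected set `D`, so `U = D`. -/
theorem touch {D O : Set (Ed d)} (hDc : IsPreconnected D) (hO : IsOpen O) (hOD : O ⊆ D)
    {a : Ed d} (ha : a ∈ O) (hne : connectedComponentIn O a ≠ D) :
    ∃ x₁ ∈ D, x₁ ∈ closure (connectedComponentIn O a) ∧ x₁ ∉ connectedComponentIn O a := by
  by_contra hcon
  push Not at hcon
  have hCO : connectedComponentIn O a ⊆ O := connectedComponentIn_subset O a
  have haC : a ∈ connectedComponentIn O a := mem_connectedComponentIn ha
  apply hne
  refine Subset.antisymm (hCO.trans hOD) ?_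
  refine hDc.subset_of_closure_inter_subset hO.connectedComponentIn ⟨a, hOD ha, haC⟩ ?_
  rintro x ⟨hx1, hx2⟩
  exact hcon x hx2 hx1

/-- PROOF: `U = connectedComponentIn O a`. `y ∈ U` with `dist y x₁ < ρ/40`, `r = infDist y Uᶜ ≤ dist y x₁`, attained at `x₀ ∈ Uᶜ`
(`IsClosed.exists_infDist_eq_dist`). `ball y r ⊆ U`. `dist x₀ x₁ ≤ ρ/20 < ρ`. If `x₀ ∈ O` then a small ball around `x₀` is contained in `O`
and meets `U` (`x₀ ∈ closure (ball y r)`), so it is contained in the component `U`: contradiction. -/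
theorem touch2 {D O : Set (Ed d)} (hO : IsOpen O) {a x₁ : Ed d} (ha : a ∈ O)
    (h1 : x₁ ∈ closure (connectedComponentIn O a)) (h2 : x₁ ∉ connectedComponentIn O a) {ρ : ℝ} (hρ : 0 < ρ)
    (hD : ball x₁ ρ ⊆ D) :
    ∃ (y x₀ : Ed d) (r : ℝ), 0 < r ∧ r ≤ ρ / 40 ∧ dist y x₁ ≤ ρ / 40 ∧ y ∈ connectedComponentIn O a ∧
      ball y r ⊆ connectedComponentIn O a ∧ dist x₀ y = r ∧ x₀ ∈ D ∧ x₀ ∉ O := by
  have hUo : IsOpen (connectedComponentIn O a) := hO.connectedComponentIn
  obtain ⟨y, hyU, hy⟩ := Metric.mem_closure_iff.1 h1 (ρ / 40) (by positivity)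
  have hyd : dist y x₁ < ρ / 40 := by rw [dist_comm]; exact hy
  have hne : ((connectedComponentIn O a)ᶜ).Nonempty := ⟨x₁, h2⟩
  obtain ⟨x₀, hx₀, hx₀d⟩ := hUo.isClosed_compl.exists_infDist_eq_dist hne y
  have hr1 : infDist y (connectedComponentIn O a)ᶜ ≤ dist y x₁ := infDist_le_dist_of_mem h2
  have hr0 : 0 < infDist y (connectedComponentIn O a)ᶜ := by
    rw [← hUo.isClosed_compl.notMem_iff_infDist_pos hne]
    exact fun h => h hyU
  have hball : ball y (infDist y (connectedComponentIn O a)ᶜ) ⊆ connectedComponentIn O a := by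
    intro w hw
    by_contra hw'
    have h3 : infDist y (connectedComponentIn O a)ᶜ ≤ dist y w := infDist_le_dist_of_mem hw'
    rw [mem_ball, dist_comm] at hw
    linarith
  have hxy : dist x₀ y = infDist y (connectedComponentIn O a)ᶜ := by rw [dist_comm, hx₀d]
  refine ⟨y, x₀, infDist y (connectedComponentIn O a)ᶜ, hr0, by linarith, hyd.le, hyU, hball, hxy, ?_, ?_⟩
  · apply hD
    rw [mem_ball]
    have := dist_triangle x₀ y x₁
    linarith
  · intro hxO
    obtain ⟨ε, hε, hεO⟩ := Metric.isOpen_iff.1 hO x₀ hxO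
    have hcl : x₀ ∈ closure (ball y (infDist y (connectedComponentIn O a)ᶜ)) := by
      rw [closure_ball y hr0.ne', mem_closedBall, hxy]
    obtain ⟨w, hw1, hw2⟩ := Metric.mem_closure_iff.1 hcl ε hε
    have hwU : w ∈ connectedComponentIn O a := hball hw1
    have hwb : w ∈ ball x₀ ε := by rw [mem_ball, dist_comm]; exact hw2
    have h4 : ball x₀ ε ⊆ connectedComponentIn O w :=
      (convex_ball x₀ ε).isPreconnected.subset_connectedComponentIn hwb hεO
    rw [← connectedComponentIn_eq hwU] at h4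
    exact hx₀ (h4 (mem_ball_self hε))

/-- PROOF: `U` is path connected (`IsOpen.isConnected_iff_isPathConnected`); the image `P` of a path from `a` to `y` is compact; there is `ε` with
`cthickening (2ε) P ⊆ U` (`IsCompact.exists_cthickening_subset_open`); `Ω = thickening ε P`, `ρ = ε`. `Ω` is a union of balls with centres in the connected set `P`:
preconnected. -/
theorem tube {U : Set (Ed d)} (hU : IsOpen U) (hc : IsPreconnected U) {a y : Ed d} (ha : a ∈ U) (hy : y ∈ U) :
    ∃ (Ω : Set (Ed d)) (ρ : ℝ), 0 < ρ ∧ IsOpen Ω ∧ IsPreconnected Ω ∧ a ∈ Ω ∧ y ∈ Ω ∧ Bornology.IsBounded Ω ∧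
      cthickening ρ Ω ⊆ U := by
  have hUc : IsConnected U := ⟨⟨a, ha⟩, hc⟩
  have hUp : IsPathConnected U := (hU.isConnected_iff_isPathConnected).1 hUc
  obtain ⟨γ, hγ⟩ := hUp.joinedIn a ha y hy
  have hP : IsCompact (range γ) := isCompact_range γ.continuous
  have hPU : range γ ⊆ U := by
    rintro _ ⟨t, rfl⟩
    exact hγ t
  obtain ⟨δ, hδ, hδU⟩ := hP.exists_cthickening_subset_open hU hPU
  have haP : a ∈ range γ := ⟨0, γ.source⟩
  have hyP : y ∈ range γ := ⟨1, γ.target⟩
  have hsub : range γ ⊆ thickening (δ / 2) (range γ) := self_subset_thickening (by linarith) _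
  have hPc : IsPreconnected (range γ) := isPreconnected_range γ.continuous
  refine ⟨thickening (δ / 2) (range γ), δ / 2, by linarith, isOpen_thickening, ?_, hsub haP, hsub hyP,
    hP.isBounded.thickening, ?_⟩
  · refine isPreconnected_of_forall a fun w hw => ?_
    obtain ⟨p, hp, hwp⟩ := mem_thickening_iff.1 hw
    refine ⟨range γ ∪ ball p (δ / 2), union_subset hsub (ball_subset_thickening hp _), Or.inl haP, Or.inr hwp, ?_⟩
    exact hPc.union p hp (mem_ball_self (by linarith)) (convex_ball p _).isPreconnected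
  · refine (cthickening_thickening_subset (by linarith) _ _).trans ?_
    rw [add_halves]
    exact hδU

end Pool.Agent.Lib.MP_79abb3_an.W.C
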