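import Pool.Agent.Lib.MP_79abb3_an.W.CAa
import Pool.Agent.Lib.MP_79abb3_an.W.CBa
import Pool.Agent.Lib.MP_79abb3_an.W.CBb
import Pool.Agent.Lib.MP_79abb3_an.W.CKa
import Pool.Agent.Lib.MP_79abb3_an.W.CBc
import Pool.Agent.Lib.MP_79abb3_an.W.CFa
import Pool.Agent.Lib.MP_79abb3_an.W.CFd
import Pool.Agent.Lib.MP_79abb3_an.W.CFe
import Pool.Agent.Lib.MP_79abb3_an.W.CDef
import Pool.Agent.Lib.MP_79abb3_an.WG.Three
import Pool.Agent.Lib.MP_79abb3_an.W.EMDef
import Pool.Agent.Lib.MP_79abb3_an.W.CBd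

section

/-!
Theorem W (MP_79abb3_an), block C (density of the drifts). Real and imaginary parts.
-/

set_option autoImplicit false
set_option linter.unusedSectionVars false
set_option linter.unusedVariables false

open MeasureTheory Set Filter Topology Function Metric
open scoped ENNReal InnerProductSpace BoundedContinuousFunction

namespace Pool.Agent.Lib.MP_79abb3_an.W.C

variable {d : ℕ} {F : Type} [NormedAddCommGroup F] [NormedSpace ℝ F]

private theorem cmc_fd (L : ℂ →L[ℝ] ℝ) {f : Ed d → ℂ} {x : Ed d} (hf : DifferentiableAt ℝ f x) (v : Ed d) :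
    fderiv ℝ (fun x => L (f x)) x v = L (fderiv ℝ f x v) := by
  have h := (L.hasFDerivAt (x := f x)).comp x hf.hasFDerivAt
  have h2 : fderiv ℝ (fun x => L (f x)) x = L.comp (fderiv ℝ f x) := h.fderiv
  rw [h2]
  rfl

private theorem cmc_pd (L : ℂ →L[ℝ] ℝ) {f : Ed d → ℂ} {x : Ed d} (hf : DifferentiableAt ℝ f x) (i : Fin d) :
    pd i (fun x => L (f x)) x = L (pd i f x) := cmc_fd L hf (eb i)

private theorem cmc_ev {f : Ed d → ℂ} {x : Ed d} (hf : ContDiffAt ℝ ((⊤ : ℕ∞) : WithTop ℕ∞) f x) :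
    ∀ᶠ y in 𝓝 x, DifferentiableAt ℝ f y := by
  have h1 : ContDiffAt ℝ 1 f x := hf.of_le (by exact_mod_cast le_top)
  filter_upwards [h1.eventually (by simp)] with y hy
  exact hy.differentiableAt one_ne_zero

private theorem cmc_adm (L : ℂ →L[ℝ] ℝ) (hL : ‖L‖ ≤ 1) {D B : Set (Ed d)} {z : Ed d → ℝ} {p : Ed d → ℂ}
    (h : Adm D z B p) : Adm D z B (fun x => L (p x)) := by
  refine ⟨ok_clm L h.ok, fun x hx => ?_, ?_⟩
  · have h1 := h.ok.1 x hx
    have h2 : ∀ i : Fin d, pd i (pd i fun x => L (p x)) x = L (pd i (pd i p) x) := by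
      intro i
      have e1 : (pd i fun x => L (p x)) =ᶠ[𝓝 x] fun y => L (pd i p y) := by
        filter_upwards [cmc_ev h1] with y hy
        exact cmc_pd L hy i
      have e2 : pd i (pd i fun x => L (p x)) x = pd i (fun y => L (pd i p y)) x := by
        unfold pd at e1 ⊢
        rw [e1.fderiv_eq]
      rw [e2, cmc_pd L ((cda_pd h1 i).differentiableAt (by norm_num))]
    unfold lapl
    simp only [h2]
    rw [← map_sum]
    have h3 : (∑ i, pd i (pd i p) x) = 0 := h.harm x hx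
    rw [h3, map_zero]
  · obtain ⟨C, hC⟩ := h.tan
    refine ⟨C, fun x hx => ?_⟩
    rw [cmc_fd L ((h.ok.1 x hx).differentiableAt (by norm_num))]
    refine (L.le_opNorm _).trans ((mul_le_of_le_one_left (norm_nonneg _) hL).trans (hC x hx))

private theorem cmc_re : ‖Complex.reCLM‖ ≤ 1 := by simp

private theorem cmc_im : ‖Complex.imCLM‖ ≤ 1 := by simp

/-- the points near the walls are far from the ball -/
private theorem cmc_far {D : Set (Ed d)} {z : Ed d → ℝ} {δ : ℝ} {a : Ed d} {r₁ r₂ : ℝ} (hG : Geo D z δ a r₁ r₂) :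
    ∃ ρ > 0, ∀ x ∈ D, z x < ρ → x ∉ ball a r₁ := by
  have hc : IsCompact (closedBall a r₂) := isCompact_closedBall a r₂
  have hne : (closedBall a r₂).Nonempty := ⟨a, mem_closedBall_self (hG.pos.trans hG.lt).le⟩
  obtain ⟨y, hy, hmin⟩ := hc.exists_isMinOn hne hG.dom.smo.continuous.continuousOn
  refine ⟨z y, (hG.dom.pos y).1 (hG.sub hy), fun x _ hx hxb => ?_⟩
  have h1 : x ∈ closedBall a r₂ := ball_subset_closedBall (ball_subset_ball hG.lt.le hxb)
  exact absurd (hmin h1) (not_le.2 hx)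

private theorem cmc_slip (L : ℂ →L[ℝ] ℝ) (hL : ‖L‖ ≤ 1) {D : Set (Ed d)} {z : Ed d → ℝ} {δ : ℝ} {a : Ed d}
    {r₁ r₂ : ℝ} (hG : Geo D z δ a r₁ r₂) {k : ℕ} {p : Ed d → ℂ} (h : Adm D z (ball a r₁) p) {c : ℝ}
    (hs : Slip D z k p c) : Slip D z k (fun x => L (p x)) c := by
  obtain ⟨hc, ρ, hρ, H⟩ := hs
  obtain ⟨ρ₁, hρ₁, H₁⟩ := cmc_far hG
  refine ⟨hc, min ρ ρ₁, lt_min hρ hρ₁, fun x hx hz i hi hi' => ?_⟩
  have h1 := H₁ x hx (hz.trans_le (min_le_right _ _))
  refine (nrm_clm L (h.ok.1 x ⟨hx, h1⟩) i).trans ?_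
  exact (mul_le_of_le_one_left (norm_nonneg _) hL).trans (H x hx (hz.trans_le (min_le_left _ _)) i hi hi')

private theorem cmc_AR {p q : Ed d → ℝ} {x : Ed d} (hp : ContDiffAt ℝ ((⊤ : ℕ∞) : WithTop ℕ∞) p x)
    (hq : ContDiffAt ℝ ((⊤ : ℕ∞) : WithTop ℕ∞) q x) (i j : Fin d) : DifferentiableAt ℝ (AR p q i j) x := by
  have h : ∀ {f : Ed d → ℝ} (_ : ContDiffAt ℝ ((⊤ : ℕ∞) : WithTop ℕ∞) f x) (l : Fin d),
      DifferentiableAt ℝ (pd l f) x := fun hf l => (cda_pd hf l).differentiableAt (by norm_num)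
  exact (((h hp j).mul (h hq i)).sub ((h hp i).mul (h hq j))).const_mul 2

private theorem cmc_clm {L : ℂ →L[ℝ] ℝ} {p : Ed d → ℂ} {x : Ed d}
    (hp : ContDiffAt ℝ ((⊤ : ℕ∞) : WithTop ℕ∞) p x) :
    ContDiffAt ℝ ((⊤ : ℕ∞) : WithTop ℕ∞) (fun x => L (p x)) x :=
  L.contDiff.contDiffAt.comp x hp

theorem adm_re {D B : Set (Ed d)} {z : Ed d → ℝ} {p : Ed d → ℂ} (h : Adm D z B p) : Adm D z B (fun x => (p x).re) := by
  exact cmc_adm Complex.reCLM cmc_re h

theorem adm_im {D B : Set (Ed d)} {z : Ed d → ℝ} {p : Ed d → ℂ} (h : Adm D z B p) : Adm D z B (fun x => (p x).im) := by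
  exact cmc_adm Complex.imCLM cmc_im h

theorem adm_neg {D B : Set (Ed d)} {z : Ed d → ℝ} {p : Ed d → ℝ} (h : Adm D z B p) : Adm D z B (fun x => -p x) := by
  refine ⟨ok_neg h.ok, fun x hx => ?_, ?_⟩
  · have h1 : ∀ (f : Ed d → ℝ) (i : Fin d), (pd i fun x => -f x) = fun x => -pd i f x := by
      intro f i
      funext y
      unfold pd
      rw [fderiv_fun_neg]
      rfl
    have h2 := h.harm x hx
    unfold lapl at h2 ⊢
    simp only [h1, Finset.sum_neg_distrib, h2, neg_zero]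
  · obtain ⟨C, hC⟩ := h.tan
    refine ⟨C, fun x hx => ?_⟩
    have h1 : fderiv ℝ (fun x => -p x) x (gradient z x) = -fderiv ℝ p x (gradient z x) := by
      rw [fderiv_fun_neg]
      rfl
    rw [h1, norm_neg]
    exact hC x hx

/-- here `B` is closed under nothing: only smoothness near the walls matters (`ContDiffAt` at the points of `D \ B` near the walls) -/
theorem slip_re {D : Set (Ed d)} {z : Ed d → ℝ} {δ : ℝ} {a : Ed d} {r₁ r₂ : ℝ} (hG : Geo D z δ a r₁ r₂) {k : ℕ}
    {p : Ed d → ℂ} (h : Adm D z (ball a r₁) p) {c : ℝ} (hs : Slip D z k p c) :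
    Slip D z k (fun x => (p x).re) c ∧ Slip D z k (fun x => (p x).im) c := by
  exact ⟨cmc_slip Complex.reCLM cmc_re hG h hs, cmc_slip Complex.imCLM cmc_im hG h hs⟩

theorem slip_neg {D : Set (Ed d)} {z : Ed d → ℝ} {k : ℕ} {p : Ed d → ℝ} {c : ℝ} (hs : Slip D z k p c) :
    Slip D z k (fun x => -p x) c := by
  obtain ⟨hc, ρ, hρ, H⟩ := hs
  refine ⟨hc, ρ, hρ, fun x hx hz i hi hi' => ?_⟩
  have h1 : iteratedFDeriv ℝ i (fun x => -p x) x = -iteratedFDeriv ℝ i p x := iteratedFDeriv_neg_apply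
  rw [h1, norm_neg]
  exact H x hx hz i hi hi'

/-- the real part of the drift. PROOF: `AA p q = (AA of the real parts) - (AA of the imaginary parts) + i …`; all functions smooth near `x`. -/
theorem VV_re {p q : Ed d → ℂ} {x : Ed d} (hp : ContDiffAt ℝ ((⊤ : ℕ∞) : WithTop ℕ∞) p x)
    (hq : ContDiffAt ℝ ((⊤ : ℕ∞) : WithTop ℕ∞) q x) (i : Fin d) :
    (VV p q x i).re = VR (fun x => (p x).re) (fun x => (q x).re) x i +
      VR (fun x => (p x).im) (fun x => -(q x).im) x i := by
  have dA : ∀ j, DifferentiableAt ℝ (AA p q i j) x := by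
    intro j
    have h : ∀ {f : Ed d → ℂ} (_ : ContDiffAt ℝ ((⊤ : ℕ∞) : WithTop ℕ∞) f x) (l : Fin d),
        DifferentiableAt ℝ (pd l f) x := fun hf l => (cda_pd hf l).differentiableAt (by norm_num)
    exact (((h hp j).mul (h hq i)).sub ((h hp i).mul (h hq j))).const_mul 2
  have rp : ContDiffAt ℝ ((⊤ : ℕ∞) : WithTop ℕ∞) (fun x => (p x).re) x :=
    cmc_clm (L := Complex.reCLM) hp
  have rq : ContDiffAt ℝ ((⊤ : ℕ∞) : WithTop ℕ∞) (fun x => (q x).re) x :=
    cmc_clm (L := Complex.reCLM) hq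
  have ip : ContDiffAt ℝ ((⊤ : ℕ∞) : WithTop ℕ∞) (fun x => (p x).im) x :=
    cmc_clm (L := Complex.imCLM) hp
  have iq : ContDiffAt ℝ ((⊤ : ℕ∞) : WithTop ℕ∞) (fun x => -(q x).im) x :=
    (cmc_clm (L := Complex.imCLM) hq).neg
  have key : ∀ j, (pd j (AA p q i j) x).re = pd j (AR (fun x => (p x).re) (fun x => (q x).re) i j) x +
      pd j (AR (fun x => (p x).im) (fun x => -(q x).im) i j) x := by
    intro j
    have e1 : (pd j (AA p q i j) x).re = pd j (fun y => Complex.reCLM (AA p q i j y)) x :=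
      (cmc_pd Complex.reCLM (dA j) j).symm
    have e2 : (fun y => Complex.reCLM (AA p q i j y)) =ᶠ[𝓝 x] fun y =>
        AR (fun x => (p x).re) (fun x => (q x).re) i j y +
          AR (fun x => (p x).im) (fun x => -(q x).im) i j y := by
      filter_upwards [cmc_ev hp, cmc_ev hq] with y hy1 hy2
      have a1 : ∀ l, pd l (fun x => (p x).re) y = (pd l p y).re := fun l => cmc_pd Complex.reCLM hy1 l
      have a2 : ∀ l, pd l (fun x => (q x).re) y = (pd l q y).re := fun l => cmc_pd Complex.reCLM hy2 l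
      have a3 : ∀ l, pd l (fun x => (p x).im) y = (pd l p y).im := fun l => cmc_pd Complex.imCLM hy1 l
      have a4 : ∀ l, pd l (fun x => -(q x).im) y = -(pd l q y).im := by
        intro l
        have := cmc_pd Complex.imCLM hy2 l
        unfold pd at this ⊢
        rw [fderiv_fun_neg]
        exact congrArg Neg.neg this
      unfold AR
      rw [a1, a1, a2, a2, a3, a3, a4, a4]
      unfold AA
      simp only [Complex.reCLM_apply, Complex.mul_re, Complex.sub_re, Complex.sub_im, Complex.mul_im,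
        Complex.re_ofNat, Complex.im_ofNat]
      ring
    rw [e1]
    unfold pd at e2 ⊢
    rw [e2.fderiv_eq, fderiv_fun_add (cmc_AR rp rq i j) (cmc_AR ip iq i j)]
    rfl
  have h1 : (VV p q x i).re = (1 / 4 : ℝ) * ∑ j, (pd j (AA p q i j) x).re := by
    have : VV p q x i = (1 / 4 : ℂ) * ∑ j, pd j (AA p q i j) x := rfl
    rw [this]
    have h2 : (1 / 4 : ℂ) = (((1 / 4 : ℝ)) : ℂ) := by push_cast; rfl
    rw [h2, Complex.re_ofReal_mul, Complex.re_sum]
  rw [h1]
  simp only [key, Finset.sum_add_distrib, mul_add]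
  rfl

end Pool.Agent.Lib.MP_79abb3_an.W.C
end

section

/-!
Theorem W (MP_79abb3_an), block C (density of the drifts). Translations of a test field.
-/

set_option autoImplicit false
set_option linter.unusedSectionVars false
set_option linter.unusedVariables false

open MeasureTheory Set Filter Topology Function Metric
open scoped ENNReal InnerProductSpace BoundedContinuousFunction

namespace Pool.Agent.Lib.MP_79abb3_an.W.C

variable {d : ℕ} {F : Type} [NormedAddCommGroup F] [NormedSpace ℝ F]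

private theorem cbf_shift {f : Ed d → F} (j : Fin d) (w x : Ed d) :
    pd j (fun x => f (x - w)) x = pd j f (x - w) := by
  unfold pd
  rw [fderiv_comp_sub]

private theorem cbf_fd {X : Type} [NormedAddCommGroup X] [NormedSpace ℝ X] {f : Ed d → X} (hf : Smo f) :
    ContDiff ℝ ((⊤ : ℕ∞) : WithTop ℕ∞) (fderiv ℝ f) :=
  ContDiff.fderiv_right hf (by norm_num)

private theorem cbf_dir {X : Type} [NormedAddCommGroup X] [NormedSpace ℝ X] {f : Ed d → X} (hf : Smo f)
    (h : Ed d) : Smo (fun z => fderiv ℝ f z h) :=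
  (cbf_fd hf).clm_apply contDiff_const

/-- symmetry of the second derivative -/
private theorem cbf_snd {X : Type} [NormedAddCommGroup X] [NormedSpace ℝ X] {f : Ed d → X} (hf : Smo f)
    (x h k : Ed d) : fderiv ℝ (fun z => fderiv ℝ f z h) x k = fderiv ℝ (fderiv ℝ f) x h k := by
  have h1 : DifferentiableAt ℝ (fderiv ℝ f) x := ((cbf_fd hf).differentiable (by norm_num)) x
  have h2 : HasFDerivAt (fun z => fderiv ℝ f z h) ((fderiv ℝ (fderiv ℝ f) x).flip h) x :=
    (h1.hasFDerivAt.clm_apply (hasFDerivAt_const h x)).congr_fderiv (by simp)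
  rw [h2.fderiv, ContinuousLinearMap.flip_apply]
  have h3 : IsSymmSndFDerivAt ℝ f x :=
    (hf.contDiffAt (x := x)).isSymmSndFDerivAt (by
      rw [minSmoothness_of_isRCLikeNormedField]; exact WithTop.coe_le_coe.mpr le_top)
  exact h3 k h

private theorem cbf_pd_comm {f : Ed d → F} (hf : Smo f) (i j : Fin d) : pd i (pd j f) = pd j (pd i f) := by
  funext x
  change fderiv ℝ (fun z => fderiv ℝ f z (eb j)) x (eb i) = fderiv ℝ (fun z => fderiv ℝ f z (eb i)) x (eb j)
  rw [cbf_snd hf]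
  have h3 : IsSymmSndFDerivAt ℝ f x :=
    (hf.contDiffAt (x := x)).isSymmSndFDerivAt (by
      rw [minSmoothness_of_isRCLikeNormedField]; exact WithTop.coe_le_coe.mpr le_top)
  rw [h3, cbf_snd hf, h3]

/-- the derivative of the iterated derivative in a direction -/
private theorem cbf_comm (i : ℕ) : ∀ {X : Type} [NormedAddCommGroup X] [NormedSpace ℝ X] {G : Ed d → X}
    (_ : Smo G) (y h : Ed d), fderiv ℝ (iteratedFDeriv ℝ i G) y h =
      iteratedFDeriv ℝ i (fun z => fderiv ℝ G z h) y := by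
  induction i with
  | zero =>
    intro X _ _ G hG y h
    rw [iteratedFDeriv_zero_eq_comp, iteratedFDeriv_zero_eq_comp]
    rw [LinearIsometryEquiv.comp_fderiv]
    rfl
  | succ i ih =>
    intro X _ _ G hG y h
    have e1 : iteratedFDeriv ℝ (i + 1) G =
        (continuousMultilinearCurryRightEquiv' ℝ i (Ed d) X).symm ∘ iteratedFDeriv ℝ i (fderiv ℝ G) :=
      funext fun x => iteratedFDeriv_succ_eq_comp_right
    have e0 : fderiv ℝ (iteratedFDeriv ℝ (i + 1) G) y h =
        (continuousMultilinearCurryRightEquiv' ℝ i (Ed d) X).symm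
          (fderiv ℝ (iteratedFDeriv ℝ i (fderiv ℝ G)) y h) := by
      have h1 : DifferentiableAt ℝ (iteratedFDeriv ℝ i (fderiv ℝ G)) y :=
        (ContDiff.differentiable_iteratedFDeriv (WithTop.coe_lt_coe.mpr (WithTop.coe_lt_top i))
          (cbf_fd hG)) y
      have h2 := ((continuousMultilinearCurryRightEquiv' ℝ i (Ed d)
        X).symm.toContinuousLinearEquiv.hasFDerivAt).comp y h1.hasFDerivAt
      rw [e1]
      exact congrArg (fun A => A h) h2.fderiv
    rw [e0, iteratedFDeriv_succ_eq_comp_right]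
    have e2 : (fun y => fderiv ℝ (fun z => fderiv ℝ G z h) y) = fun z => fderiv ℝ (fderiv ℝ G) z h := by
      funext z
      exact ContinuousLinearMap.ext fun k => cbf_snd hG z h k
    rw [e2]
    have e3 := ih (G := fderiv ℝ G) (cbf_fd hG) y h
    rw [e3]
    rfl

private theorem cbf_taylor {X : Type} [NormedAddCommGroup X] [NormedSpace ℝ X] {Φ : Ed d → X} (hΦ : Smo Φ)
    {M : ℝ} (hM : ∀ z, ‖fderiv ℝ (fderiv ℝ Φ) z‖ ≤ M) (y h : Ed d) :
    ‖Φ (y - h) - Φ y + fderiv ℝ Φ y h‖ ≤ M * ‖h‖ ^ 2 := by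
  have hM0 : 0 ≤ M := (norm_nonneg (fderiv ℝ (fderiv ℝ Φ) 0)).trans (hM 0)
  have hd : ∀ z, HasFDerivAt (fun z => Φ z - fderiv ℝ Φ y z) (fderiv ℝ Φ z - fderiv ℝ Φ y) z := fun z =>
    ((hΦ.differentiable (by norm_num)) z).hasFDerivAt.sub (fderiv ℝ Φ y).hasFDerivAt
  have h1 : ∀ z ∈ closedBall y ‖h‖, ‖fderiv ℝ Φ z - fderiv ℝ Φ y‖ ≤ M * ‖h‖ := by
    intro z hz
    have h2 := Convex.norm_image_sub_le_of_norm_fderiv_le (𝕜 := ℝ) (f := fderiv ℝ Φ) (C := M) (s := univ)
      (x := y) (y := z) (fun w _ => ((cbf_fd hΦ).differentiable (by norm_num)) w) (fun w _ => hM w)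
      convex_univ (mem_univ _) (mem_univ _)
    refine h2.trans (mul_le_mul_of_nonneg_left ?_ hM0)
    rw [← dist_eq_norm]
    exact hz
  have h2 := Convex.norm_image_sub_le_of_norm_hasFDerivWithin_le (𝕜 := ℝ)
    (f := fun z => Φ z - fderiv ℝ Φ y z) (f' := fun z => fderiv ℝ Φ z - fderiv ℝ Φ y) (C := M * ‖h‖)
    (s := closedBall y ‖h‖) (x := y) (y := y - h) (fun z _ => (hd z).hasFDerivWithinAt) h1
    (convex_closedBall _ _) (mem_closedBall_self (norm_nonneg _)) (by
      rw [mem_closedBall, dist_eq_norm]; simp)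
  have e1 : (Φ (y - h) - fderiv ℝ Φ y (y - h)) - (Φ y - fderiv ℝ Φ y y) =
      Φ (y - h) - Φ y + fderiv ℝ Φ y h := by
    rw [map_sub]; abel
  rw [e1] at h2
  refine h2.trans (le_of_eq ?_)
  have e2 : ‖y - h - y‖ = ‖h‖ := by
    rw [sub_sub_cancel_left, norm_neg]
  rw [e2]
  ring

private theorem cbf_top (i : ℕ) : ((⊤ : ℕ∞) : WithTop ℕ∞) + (i : WithTop ℕ∞) ≤ ((⊤ : ℕ∞) : WithTop ℕ∞) := by
  have h1 : ((⊤ : ℕ∞) : WithTop ℕ∞) + (i : WithTop ℕ∞) = ((⊤ + (i : ℕ∞) : ℕ∞) : WithTop ℕ∞) := rfl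
  rw [h1, top_add]

private theorem cbf_ok {X : Type} [NormedAddCommGroup X] [NormedSpace ℝ X] {G : Ed d → X} (hG : Smo G)
    (hc : HasCompactSupport G) (R : Set (Ed d)) (w : Ed d) : OK R (fun x => G (x - w)) := by
  refine ⟨fun x _ => (ContDiff.comp (g := G) hG (contDiff_id.sub contDiff_const)).contDiffAt, fun m => ?_⟩
  obtain ⟨C, hC⟩ := (ContDiff.continuous_iteratedFDeriv (m := m) (WithTop.coe_le_coe.mpr le_top)
    hG).bounded_above_of_compact_support (hc.iteratedFDeriv m)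
  exact ⟨C, fun x _ => by rw [iteratedFDeriv_comp_sub]; exact hC _⟩

private theorem cbf_sum {G : Ed d → Cd d} (z h : Ed d) :
    ∑ l, ((h l : ℝ) : ℂ) • pd l G z = fderiv ℝ G z h := by
  have h1 : h = ∑ l, (h l) • eb l := by
    have h2 := (EuclideanSpace.basisFun (Fin d) ℝ).sum_repr h
    simpa [eb] using h2.symm
  conv_rhs => rw [h1, map_sum]
  refine Finset.sum_congr rfl fun l _ => ?_
  rw [map_smul]
  exact Complex.coe_smul (h l) (pd l G z)

private theorem cbf_pd_smo {X : Type} [NormedAddCommGroup X] [NormedSpace ℝ X] {f : Ed d → X} (hf : Smo f)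
    (l : Fin d) : Smo (pd l f) := cbf_dir hf (eb l)

private theorem cbf_pd_cs {X : Type} [NormedAddCommGroup X] [NormedSpace ℝ X] {f : Ed d → X}
    (hf : HasCompactSupport f) (l : Fin d) : HasCompactSupport (pd l f) :=
  (hf.fderiv ℝ).comp_left (g := fun A : Ed d →L[ℝ] X => A (eb l)) rfl

private theorem cbf_key {R : Set (Ed d)} {k : ℕ} {G : Ed d → Cd d} (hG : Smo G) (hc : HasCompactSupport G) :
    ∃ M : ℝ, ∀ w h : Ed d, ‖jt R k (fun x => G (x - (w + h))) - jt R k (fun x => G (x - w)) +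
      ∑ l, ((h l : ℝ) : ℂ) • jt R k (fun x => pd l G (x - w))‖ ≤ M * ‖h‖ ^ 2 := by
  have hM : ∀ i : ℕ, ∃ C, ∀ z, ‖fderiv ℝ (fderiv ℝ (iteratedFDeriv ℝ i G)) z‖ ≤ C := by
    intro i
    have h1 : Smo (iteratedFDeriv ℝ i G) := ContDiff.iteratedFDeriv_right hG (cbf_top i)
    exact ((cbf_fd (f := fderiv ℝ (iteratedFDeriv ℝ i G)) (cbf_fd h1)).continuous).bounded_above_of_compact_support
      (((hc.iteratedFDeriv i).fderiv ℝ).fderiv ℝ)
  choose C hC using hM
  have hle : ∀ i ≤ k, C i ≤ ∑ i ∈ Finset.range (k + 1), |C i| := fun i hi =>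
    (le_abs_self _).trans (Finset.single_le_sum (f := fun i => |C i|) (fun j _ => abs_nonneg _)
      (Finset.mem_range.mpr (Nat.lt_succ_of_le hi)))
  refine ⟨∑ i ∈ Finset.range (k + 1), |C i|, fun w h => ?_⟩
  have hM0 : 0 ≤ ∑ i ∈ Finset.range (k + 1), |C i| := Finset.sum_nonneg fun j _ => abs_nonneg _
  have o1 := cbf_ok hG hc R (w + h)
  have o2 := cbf_ok hG hc R w
  have o3 : ∀ l, OK R (fun x => pd l G (x - w)) := fun l => cbf_ok (cbf_pd_smo hG l) (cbf_pd_cs hc l) R w
  have o4 : ∀ l, OK R (fun x => ((h l : ℝ) : ℂ) • pd l G (x - w)) := fun l =>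
    ok_clm (((((h l : ℝ) : ℂ)) • ContinuousLinearMap.id ℂ (Cd d)).restrictScalars ℝ) (o3 l)
  have o5 := ok_sum Finset.univ (f := fun l x => ((h l : ℝ) : ℂ) • pd l G (x - w)) fun l _ => o4 l
  have o6 := ok_add (ok_sub o1 o2) o5
  have e1 : jt R k (fun x => G (x - (w + h))) - jt R k (fun x => G (x - w)) +
      ∑ l, ((h l : ℝ) : ℂ) • jt R k (fun x => pd l G (x - w)) =
      jt R k (fun x => (G (x - (w + h)) - G (x - w)) + ∑ l, ((h l : ℝ) : ℂ) • pd l G (x - w)) := by
    rw [jt_add k (ok_sub o1 o2) o5, jt_sub k o1 o2,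
      jt_sum k Finset.univ (V := fun l x => ((h l : ℝ) : ℂ) • pd l G (x - w)) fun l _ => o4 l]
    congr 1
    exact Finset.sum_congr rfl fun l _ => (jt_smul k _ (o3 l)).symm
  rw [e1]
  refine jt_norm_le o6 (by positivity) fun i hi x hx => ?_
  have e2 : (fun x => (G (x - (w + h)) - G (x - w)) + ∑ l, ((h l : ℝ) : ℂ) • pd l G (x - w)) =
      fun x => (fun z => (G (z - h) - G z) + fderiv ℝ G z h) (x - w) := by
    funext x
    change _ = (G (x - w - h) - G (x - w)) + fderiv ℝ G (x - w) h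
    rw [cbf_sum, sub_sub]
  rw [e2, iteratedFDeriv_comp_sub (f := fun z => (G (z - h) - G z) + fderiv ℝ G z h)]
  have s1 : ContDiff ℝ ((⊤ : ℕ∞) : WithTop ℕ∞) (fun z => G (z - h)) :=
    ContDiff.comp (g := G) hG (contDiff_id.sub contDiff_const)
  have s2 : ContDiff ℝ ((⊤ : ℕ∞) : WithTop ℕ∞) (fun z => fderiv ℝ G z h) := cbf_dir hG h
  have le : ∀ i : ℕ, (i : WithTop ℕ∞) ≤ ((⊤ : ℕ∞) : WithTop ℕ∞) := fun i => WithTop.coe_le_coe.mpr le_top
  have hG' : ContDiff ℝ ((⊤ : ℕ∞) : WithTop ℕ∞) G := hG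
  have e3 : iteratedFDeriv ℝ i (fun z => (G (z - h) - G z) + fderiv ℝ G z h) (x - w) =
      (iteratedFDeriv ℝ i G (x - w - h) - iteratedFDeriv ℝ i G (x - w)) +
        fderiv ℝ (iteratedFDeriv ℝ i G) (x - w) h := by
    rw [cbf_comm i hG, ← iteratedFDeriv_comp_sub i h (x - w)]
    have a1 := iteratedFDeriv_add_apply (x := x - w) (((s1.sub hG').of_le (le i)).contDiffAt)
      ((s2.of_le (le i)).contDiffAt)
    have a2 := iteratedFDeriv_sub_apply (x := x - w) ((s1.of_le (le i)).contDiffAt)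
      ((hG'.of_le (le i)).contDiffAt)
    rw [← a2]
    exact a1
  rw [e3]
  have hs : Smo (iteratedFDeriv ℝ i G) := ContDiff.iteratedFDeriv_right hG (cbf_top i)
  exact cbf_taylor hs (fun z => (hC i z).trans (hle i hi)) (x - w) h

private theorem cbf_J {R : Set (Ed d)} {k : ℕ} {G : Ed d → Cd d} (hG : Smo G) (hc : HasCompactSupport G)
    (w : Ed d) : HasFDerivAt (fun w => jt R k (fun x => G (x - w)))
      (-∑ l, (EuclideanSpace.proj l : Ed d →L[ℝ] ℝ).smulRight (jt R k (fun x => pd l G (x - w)))) w := by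
  obtain ⟨M, hM⟩ := cbf_key (R := R) (k := k) hG hc
  rw [hasFDerivAt_iff_isLittleO_nhds_zero]
  refine Asymptotics.IsBigO.trans_isLittleO (g := fun h : Ed d => ‖h‖ ^ 2)
    (Asymptotics.IsBigO.of_bound M (Eventually.of_forall fun h => ?_))
    (Asymptotics.isLittleO_norm_pow_id one_lt_two)
  rw [Real.norm_of_nonneg (by positivity)]
  refine le_trans (le_of_eq ?_) (hM w h)
  congr 1
  rw [_root_.neg_apply, _root_.sum_apply, sub_neg_eq_add]
  congr 1

private theorem cbf_smo {R : Set (Ed d)} {k : ℕ} (n : ℕ) : ∀ {G : Ed d → Cd d} (_ : Smo G)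
    (_ : HasCompactSupport G), ContDiff ℝ n (fun w => jt R k (fun x => G (x - w))) := by
  induction n with
  | zero =>
    intro G hG hc
    rw [Nat.cast_zero, contDiff_zero]
    exact continuous_iff_continuousAt.mpr fun w => (cbf_J hG hc w).continuousAt
  | succ n ih =>
    intro G hG hc
    rw [Nat.cast_succ, contDiff_succ_iff_hasFDerivAt]
    refine ⟨_, ?_, fun w => cbf_J hG hc w⟩
    refine ContDiff.neg (ContDiff.sum fun l _ => ?_)
    exact contDiff_const.smulRight (ih (cbf_pd_smo hG l) (cbf_pd_cs hc l))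

private theorem cbf_DV_shift (E : Fin d → Fin d → Ed d → ℂ) (w : Ed d) :
    (DV fun i j x => E i j (x - w)) = fun x => DV E (x - w) := by
  funext x
  unfold DV
  congr 1
  funext i
  exact Finset.sum_congr rfl fun j _ => cbf_shift j w x

private theorem cbf_DV_smo {E : Fin d → Fin d → Ed d → ℂ} (hE : ∀ i j, Smo (E i j)) : Smo (DV E) := by
  unfold Smo
  rw [contDiff_piLp]
  intro i
  change ContDiff ℝ ((⊤ : ℕ∞) : WithTop ℕ∞) (fun x => ∑ j, pd j (E i j) x)
  exact ContDiff.sum fun j _ => cbf_pd_smo (hE i j) j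

private theorem cbf_DV_cs {E : Fin d → Fin d → Ed d → ℂ} (hc : ∀ i j, HasCompactSupport (E i j)) :
    HasCompactSupport (DV E) := by
  refine HasCompactSupport.intro (K := ⋃ i, ⋃ j, tsupport (E i j))
    (isCompact_iUnion fun i => isCompact_iUnion fun j => hc i j) fun x hx => ?_
  have h1 : ∀ i j, pd j (E i j) x = 0 := by
    intro i j
    have h2 : x ∉ tsupport (E i j) := fun h => hx (mem_iUnion.mpr ⟨i, mem_iUnion.mpr ⟨j, h⟩⟩)
    unfold pd
    rw [fderiv_of_notMem_tsupport ℝ h2]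
    rfl
  unfold DV
  simp only [h1, Finset.sum_const_zero]
  rfl

private theorem cbf_pd_DV {E : Fin d → Fin d → Ed d → ℂ} (hE : ∀ i j, Smo (E i j)) (l : Fin d) :
    pd l (DV E) = DV fun i j => pd l (E i j) := by
  funext x
  have hd : DifferentiableAt ℝ (DV E) x := (ContDiff.differentiable (cbf_DV_smo hE) (by norm_num)) x
  ext i
  have h1 := (((EuclideanSpace.proj i : Cd d →L[ℂ] ℂ).restrictScalars ℝ).hasFDerivAt).comp x hd.hasFDerivAt
  have h2 : (pd l (DV E) x) i = fderiv ℝ (fun x => ∑ j, pd j (E i j) x) x (eb l) :=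
    (congrArg (fun A => A (eb l)) h1.fderiv).symm
  rw [h2, fderiv_fun_sum fun j _ => (ContDiff.differentiable (cbf_pd_smo (hE i j) j) (by norm_num)) x,
    _root_.sum_apply]
  change _ = ∑ j, pd j (pd l (E i j)) x
  refine Finset.sum_congr rfl fun j _ => ?_
  exact congrFun (cbf_pd_comm (hE i j) l j) x

/-- Let `E` be a smooth matrix field with compact support. The function `u(w) = T (jt R k (DV E(·-w)))` is smooth and
`∂_l u(w) = - T (jt R k (DV (∂_l E)(·-w)))`.
PROOF. Let `G = DV E`, a smooth field with compact support, `DV (E(·-w)) = G(·-w)`. For a smooth field `G` with compact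
support put `J_G(w) = jt R k (G(·-w))`. By Taylor, for `i ≤ k`,
`‖D^i G(x-w-h) - D^i G(x-w) + (D^{i+1} G(x-w)) h‖ ≤ |h|² sup ‖D^{i+2} G‖` (mean value inequality twice), and
`(D^{i+1}G)(x-w) h` = `D^i (∂_h G)(x-w)`: so `J_G` has the derivative `h ↦ - J_{∂_h G}(w) = - ∑_l h_l J_{∂_l G}(w)`. By
induction (`contDiff_succ_iff_hasFDerivAt` or `contDiff_infty_iff_fderiv` with finite sums of `J_{∂_l G}`) `J_G` is smooth.
Compose with `T`. -/
theorem trans_smo {R : Set (Ed d)} {k : ℕ} (T : JS R k →L[ℂ] ℂ) {E : Fin d → Fin d → Ed d → ℂ}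
    (hE : ∀ i j, Smo (E i j)) (hc : ∀ i j, HasCompactSupport (E i j)) :
    Smo (fun w : Ed d => T (jt R k (DV fun i j x => E i j (x - w)))) := by
  simp only [cbf_DV_shift]
  unfold Smo
  rw [contDiff_infty]
  intro n
  exact (T.restrictScalars ℝ).contDiff.comp (cbf_smo n (cbf_DV_smo hE) (cbf_DV_cs hc))

theorem trans_pd {R : Set (Ed d)} {k : ℕ} (T : JS R k →L[ℂ] ℂ) {E : Fin d → Fin d → Ed d → ℂ}
    (hE : ∀ i j, Smo (E i j)) (hc : ∀ i j, HasCompactSupport (E i j)) (l : Fin d) (w : Ed d) :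
    pd l (fun w : Ed d => T (jt R k (DV fun i j x => E i j (x - w)))) w =
      -T (jt R k (DV fun i j x => pd l (E i j) (x - w))) := by
  simp only [cbf_DV_shift]
  rw [← cbf_pd_DV hE l]
  have h1 := ((T.restrictScalars ℝ).hasFDerivAt).comp w
    (cbf_J (R := R) (k := k) (cbf_DV_smo hE) (cbf_DV_cs hc) w)
  have h2 : pd l (fun w : Ed d => T (jt R k fun x => DV E (x - w))) w =
      T ((-∑ l, (EuclideanSpace.proj l : Ed d →L[ℝ] ℝ).smulRight
        (jt R k (fun x => pd l (DV E) (x - w)))) (eb l)) :=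
    congrArg (fun A => A (eb l)) h1.fderiv
  rw [h2, _root_.neg_apply, map_neg, _root_.sum_apply]
  congr 2
  rw [Finset.sum_eq_single l]
  · rw [ContinuousLinearMap.smulRight_apply]
    simp [eb]
  · intro j _ hj
    rw [ContinuousLinearMap.smulRight_apply]
    simp [eb, hj]
  · simp

end Pool.Agent.Lib.MP_79abb3_an.W.C
end

section

/-!
Theorem W (MP_79abb3_an), block C (density of the drifts). Laplacian of the translated functional.
-/

set_option autoImplicit false
set_option linter.unusedSectionVars false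
set_option linter.unusedVariables false

open MeasureTheory Set Filter Topology Function Metric
open scoped ENNReal InnerProductSpace BoundedContinuousFunction

namespace Pool.Agent.Lib.MP_79abb3_an.W.C

variable {d : ℕ} {F : Type} [NormedAddCommGroup F] [NormedSpace ℝ F]

private theorem cbg_cpt {f : Ed d → F} (h : HasCompactSupport f) (l : Fin d) :
    HasCompactSupport (pd l f) := h.fderiv_apply ℝ (eb l)

private theorem cbg_ok (R : Set (Ed d)) {f : Ed d → F} (hf : Smo f) (hc : HasCompactSupport f)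
    (w : Ed d) : OK R fun x => f (x - w) := by
  have hs : Smo fun x => f (x - w) := ContDiff.comp hf (contDiff_id.sub contDiff_const)
  have hc' : HasCompactSupport fun x => f (x - w) :=
    hc.comp_isClosedEmbedding (Homeomorph.subRight w).isClosedEmbedding
  refine ⟨fun x _ => hs.contDiffAt, fun m => ?_⟩
  have h1 : Continuous (iteratedFDeriv ℝ m fun x => f (x - w)) :=
    hs.continuous_iteratedFDeriv (by exact_mod_cast le_top)
  obtain ⟨C, hC⟩ := (hc'.iteratedFDeriv (𝕜 := ℝ) m).exists_bound_of_continuous h1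
  exact ⟨C, fun x _ => hC x⟩

/-- PROOF: `trans_pd` twice (the derivative of `∂_l E` is again smooth with compact support), `jt_DV_sum`. -/
theorem trans_lapl {R : Set (Ed d)} {k : ℕ} (T : JS R k →L[ℂ] ℂ) {E : Fin d → Fin d → Ed d → ℂ}
    (hE : ∀ i j, Smo (E i j)) (hc : ∀ i j, HasCompactSupport (E i j)) (w : Ed d) :
    lapl (fun w : Ed d => T (jt R k (DV fun i j x => E i j (x - w)))) w =
      T (jt R k (DV fun i j x => lapl (E i j) (x - w))) := by
  have h1 : ∀ l : Fin d, pd l (pd l fun w : Ed d => T (jt R k (DV fun i j x => E i j (x - w)))) w =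
      T (jt R k (DV fun i j x => pd l (pd l (E i j)) (x - w))) := by
    intro l
    have h2 : (pd l fun w : Ed d => T (jt R k (DV fun i j x => E i j (x - w)))) =
        fun w => -T (jt R k (DV fun i j x => pd l (E i j) (x - w))) := by
      ext1 w
      exact trans_pd T hE hc l w
    have h3 : pd l (fun w : Ed d => -T (jt R k (DV fun i j x => pd l (E i j) (x - w)))) w =
        -pd l (fun w : Ed d => T (jt R k (DV fun i j x => pd l (E i j) (x - w)))) w := by
      show fderiv ℝ (fun w : Ed d => -T (jt R k (DV fun i j x => pd l (E i j) (x - w)))) w (eb l) = _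
      rw [fderiv_fun_neg]
      rfl
    rw [h2, h3, trans_pd T (fun i j => smo_pd (hE i j) l) (fun i j => cbg_cpt (hc i j) l) l w, neg_neg]
  show ∑ l, pd l (pd l fun w : Ed d => T (jt R k (DV fun i j x => E i j (x - w)))) w = _
  rw [Finset.sum_congr rfl fun l _ => h1 l, ← map_sum]
  congr 1
  exact (jt_DV_sum k Finset.univ (E := fun l i j x => pd l (pd l (E i j)) (x - w)) fun l _ i j =>
    cbg_ok R (smo_pd (smo_pd (hE i j) l) l) (cbg_cpt (cbg_cpt (hc i j) l) l) w).symm

end Pool.Agent.Lib.MP_79abb3_an.W.C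
end

section

/-!
Theorem W (MP_79abb3_an), block C (density of the drifts). The vanishing of the distribution is a local property.
-/

set_option autoImplicit false
set_option linter.unusedSectionVars false
set_option linter.unusedVariables false

open MeasureTheory Set Filter Topology Function Metric
open scoped ENNReal InnerProductSpace BoundedContinuousFunction

namespace Pool.Agent.Lib.MP_79abb3_an.W.C

variable {d : ℕ} {F : Type} [NormedAddCommGroup F] [NormedSpace ℝ F]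

private theorem ckb_smo {O : Set (Ed d)} {E : Fin d → Fin d → Ed d → F} (h : IsE O E) {φ : Ed d → ℝ} (hφ : Smo φ)
    {O' : Set (Ed d)} (hs : ∀ i j, tsupport (fun x => φ x • E i j x) ⊆ O') :
    IsE O' (fun i j x => φ x • E i j x) where
  smo i j := ContDiff.smul hφ (h.smo i j)
  cpt i j := (h.cpt i j).smul_left
  supp := hs
  anti i j x := by rw [h.anti i j x, smul_neg]

/-- a smooth function with compact support is OK on every set -/
theorem ok_cpt {f : Ed d → F} (R : Set (Ed d)) (hf : Smo f) (hc : HasCompactSupport f) : OK R f := by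
  refine ⟨fun x _ => hf.contDiffAt, fun m => ?_⟩
  have h1 : Continuous (iteratedFDeriv ℝ m f) := hf.continuous_iteratedFDeriv (by exact_mod_cast le_top)
  obtain ⟨C, hC⟩ := h1.bounded_above_of_compact_support (hc.iteratedFDeriv m)
  exact ⟨C, fun x _ => hC x⟩

theorem van_mono {R : Set (Ed d)} {k : ℕ} {T : JS R k →L[ℂ] ℂ} {O O' : Set (Ed d)} (h : Van T O) (hO : O' ⊆ O) :
    Van T O' := by
  intro E hE
  exact h E ⟨hE.smo, hE.cpt, fun i j => (hE.supp i j).trans hO, hE.anti⟩

private theorem ckb_zero {R : Set (Ed d)} {k : ℕ} (T : JS R k →L[ℂ] ℂ) :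
    T (jt R k (DV fun (_ _ : Fin d) (_ : Ed d) => (0 : ℂ))) = 0 := by
  have h0 : OK R (fun _ : Ed d => (0 : ℂ)) := ok_cpt R contDiff_const HasCompactSupport.zero
  have h1 := jt_DV_smul (R := R) (E := fun (_ _ : Fin d) (_ : Ed d) => (0 : ℂ)) k 0 fun _ _ => h0
  simp only [mul_zero, zero_smul] at h1
  rw [h1, map_zero]

private theorem ckb_sets {R : Set (Ed d)} {k : ℕ} {T : JS R k →L[ℂ] ℂ} (ε : Ed d → ℝ) (hε : ∀ x, 0 < ε x) :
    ∀ (S : Finset (Ed d)), (∀ x ∈ S, Van T (ball x (ε x))) → ∀ E : Fin d → Fin d → Ed d → ℂ, IsE univ E →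
      (∀ i j, tsupport (E i j) ⊆ ⋃ x ∈ S, closedBall x (ε x / 2)) → T (jt R k (DV E)) = 0 := by
  classical
  intro S
  induction S using Finset.induction_on with
  | empty =>
    intro _ E hE hs
    have h1 : E = fun _ _ _ => 0 := by
      funext i j x
      by_contra h2
      have h3 := hs i j (subset_tsupport _ h2)
      simp at h3
    rw [h1]
    exact ckb_zero T
  | insert a S ha ih =>
    intro hv E hE hs
    have h1 : closedBall a (ε a / 2) ⊆ ball a (ε a) := closedBall_subset_ball (by linarith [hε a])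
    obtain ⟨χ, hχ, hχc, hχs, ⟨V, hV, hKV, hV1⟩, hχ01⟩ := exists_cut (isCompact_closedBall a (ε a / 2)) isOpen_ball h1
    have hχ' : Smo fun x => 1 - χ x := contDiff_const.sub hχ
    have hA : IsE (ball a (ε a)) (fun i j x => χ x • E i j x) := ckb_smo hE hχ fun i j =>
      (tsupport_smul_subset_left χ (E i j)).trans hχs
    have hB : IsE univ (fun i j x => (1 - χ x) • E i j x) := ckb_smo hE hχ' fun i j => subset_univ _
    have e1 : T (jt R k (DV fun i j x => χ x • E i j x)) = 0 := hv a (Finset.mem_insert_self a S) _ hA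
    have e2 : T (jt R k (DV fun i j x => (1 - χ x) • E i j x)) = 0 := by
      refine ih (fun x hx => hv x (Finset.mem_insert_of_mem hx)) _ hB fun i j => ?_
      have h2 : tsupport (fun x => (1 - χ x) • E i j x) ⊆ tsupport (E i j) :=
        tsupport_smul_subset_right (fun x => 1 - χ x) (E i j)
      have h3 : Disjoint (tsupport (fun x => (1 - χ x) • E i j x)) V := by
        refine Disjoint.closure_left ?_ hV
        rw [Set.disjoint_left]
        intro x hx hxV
        apply hx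
        show (1 - χ x) • E i j x = 0
        rw [hV1 x hxV, sub_self, zero_smul]
      intro x hx
      have h4 := hs i j (h2 hx)
      rw [Finset.set_biUnion_insert] at h4
      rcases h4 with h4 | h4
      · exact absurd (hKV h4) (Set.disjoint_left.1 h3 hx)
      · exact h4
    have h5 := jt_DV_add (R := R) k (fun i j => ok_cpt R (hA.smo i j) (hA.cpt i j))
      (fun i j => ok_cpt R (hB.smo i j) (hB.cpt i j))
    have h6 : (fun (i j : Fin d) (x : Ed d) => χ x • E i j x + (1 - χ x) • E i j x) = E := by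
      funext i j x
      rw [← add_smul, add_sub_cancel, one_smul]
    rw [h6] at h5
    rw [h5, map_add, e1, e2, add_zero]

/-- PROOF: cover the compact set `⋃ tsupport (E i j)` by finitely many balls of half radius; smooth partition of unity `∑ φ_s = 1` near this
set, `φ_s` smooth with compact support in the balls (`SmoothPartitionOfUnity` or products of cut offs `exists_cut`), `E = ∑ φ_s E`, `jt_DV_sum`. -/
theorem van_local {R : Set (Ed d)} {k : ℕ} {T : JS R k →L[ℂ] ℂ} {O : Set (Ed d)}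
    (h : ∀ x ∈ O, ∃ ε > 0, Van T (ball x ε)) : Van T O := by
  intro E hE
  classical
  have hex : ∀ x, ∃ ε : ℝ, 0 < ε ∧ (x ∈ O → Van T (ball x ε)) := by
    intro x
    by_cases hx : x ∈ O
    · obtain ⟨ε, hε, h1⟩ := h x hx
      exact ⟨ε, hε, fun _ => h1⟩
    · exact ⟨1, one_pos, fun h' => absurd h' hx⟩
  choose ε hε hv using hex
  have hK : IsCompact (⋃ i, ⋃ j, tsupport (E i j)) :=
    isCompact_iUnion fun i => isCompact_iUnion fun j => hE.cpt i j
  have hKO : (⋃ i, ⋃ j, tsupport (E i j)) ⊆ O := iUnion_subset fun i => iUnion_subset fun j => hE.supp i j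
  obtain ⟨S, hS1, hS2⟩ := hK.elim_nhds_subcover (fun x => ball x (ε x / 2)) fun x _ =>
    ball_mem_nhds x (half_pos (hε x))
  refine ckb_sets ε hε S (fun x hx => hv x (hKO (hS1 x hx))) E
    ⟨hE.smo, hE.cpt, fun i j => subset_univ _, hE.anti⟩ fun i j => ?_
  refine Subset.trans ?_ (hS2.trans (iUnion₂_mono fun x _ => ball_subset_closedBall))
  exact subset_iUnion_of_subset i (subset_iUnion_of_subset j Subset.rfl)

/-- the distribution vanishes in the complement of the closure of `R`. PROOF: `E i j = 0` near every point of `R`. -/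
theorem van_off {R O : Set (Ed d)} {k : ℕ} (T : JS R k →L[ℂ] ℂ) (hO : IsOpen O) (h : Disjoint O R) : Van T O := by
  intro E hE
  have h1 : jt R k (DV E) = jt R k (DV fun (_ _ : Fin d) (_ : Ed d) => (0 : ℂ)) := by
    refine jt_DV_congr k fun x hx i j => ?_
    have h2 : x ∉ tsupport (E i j) := fun h3 => Set.disjoint_left.1 h (hE.supp i j h3) hx
    exact notMem_tsupport_iff_eventuallyEq.1 h2
  rw [h1]
  exact ckb_zero T

end Pool.Agent.Lib.MP_79abb3_an.W.C
end

section

/-!
Theorem W (MP_79abb3_an), block C (density of the drifts). Cut off of the drift of an admissible pair.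
-/

set_option autoImplicit false
set_option linter.unusedSectionVars false
set_option linter.unusedVariables false

open MeasureTheory Set Filter Topology Function Metric
open scoped ENNReal InnerProductSpace BoundedContinuousFunction

namespace Pool.Agent.Lib.MP_79abb3_an.W.C

variable {d : ℕ} {F : Type} [NormedAddCommGroup F] [NormedSpace ℝ F]

/-- PROOF. `VV_eq`, `R = D \ ball a r₂ ⊆ D \ ball a r₁`; `AA p q = (1-χ) AA p q + χ AA p q`, `jt_DV_add`. Let `θ` be a cut off, `θ = 1` near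
`closedBall a r₁`, compact support in `ball a r₂` (`exists_cut`). `E i j = (1-θ) χ AA p q i j` is smooth on the whole space: a point `x` of
`tsupport χ ⊆ D` is either in `closedBall a r₁` (then `1-θ = 0` near `x`) or `p, q` are smooth at `x`; so `IsE U E`, `T (jt (DV E)) = 0`. Near
every `x ∈ R`: `θ = 0`, so `E = χ AA p q` (`jt_DV_congr`). -/
theorem cut_eq {D : Set (Ed d)} {z : Ed d → ℝ} {δ : ℝ} {a : Ed d} {r₁ r₂ : ℝ} (hG : Geo D z δ a r₁ r₂) {k : ℕ}
    (T : JS (D \ ball a r₂) k →L[ℂ] ℂ) {U : Set (Ed d)} (hUD : U ⊆ D) (hV : Van T U) {χ : Ed d → ℝ} (hχ : Smo χ)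
    (hc : HasCompactSupport χ) (hs : tsupport χ ⊆ U) {p q : Ed d → ℂ} (hp : Adm D z (ball a r₁) p)
    (hq : Adm D z (ball a r₁) q) :
    T (jt _ k (VV p q)) = (1 / 4 : ℂ) * T (jt _ k (DV fun i j x => ((1 - χ x : ℝ) : ℂ) * AA p q i j x)) := by
  set R := D \ ball a r₂ with hR
  have hRs : R ⊆ D \ ball a r₁ := fun x hx => ⟨hx.1, fun h => hx.2 (ball_subset_ball hG.lt.le h)⟩
  have hRb : Bornology.IsBounded R := hG.dom.bdd.subset sdiff_subset
  have oAA : ∀ i j, OK R (AA p q i j) := fun i j => ok_AA (ok_mono hp.ok hRs) (ok_mono hq.ok hRs) i j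
  have oχ : OK R (fun x => ((χ x : ℝ) : ℂ)) := ok_ofReal (ok_of_smo hχ hRb)
  have oχ' : OK R (fun x => ((1 - χ x : ℝ) : ℂ)) :=
    ok_ofReal (ok_of_smo (f := fun x => 1 - χ x) (contDiff_const.sub hχ) hRb)
  -- the cut off near the closed ball
  obtain ⟨θ, hθs, hθc, hθt, ⟨V, hVo, hKV, hθ1⟩, -⟩ := exists_cut (isCompact_closedBall a r₁)
    (isOpen_ball (x := a) (ε := r₂)) (closedBall_subset_ball hG.lt)
  have hE : IsE U (fun i j x => (((1 - θ x) * χ x : ℝ) : ℂ) * AA p q i j x) := by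
    have hsup : ∀ i j, tsupport (fun x => (((1 - θ x) * χ x : ℝ) : ℂ) * AA p q i j x) ⊆ tsupport χ := by
      intro i j
      apply closure_mono
      intro x hx hx'
      apply hx
      show (((1 - θ x) * χ x : ℝ) : ℂ) * AA p q i j x = 0
      rw [hx', mul_zero, Complex.ofReal_zero, zero_mul]
    refine ⟨fun i j => ?_, fun i j => ?_, fun i j => (hsup i j).trans hs, fun i j x => ?_⟩
    · show ContDiff ℝ ((⊤ : ℕ∞) : WithTop ℕ∞) _
      rw [contDiff_iff_contDiffAt]
      intro x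
      by_cases hxV : x ∈ V
      · have h1 : (fun x => (((1 - θ x) * χ x : ℝ) : ℂ) * AA p q i j x) =ᶠ[𝓝 x] fun _ => 0 := by
          filter_upwards [hVo.mem_nhds hxV] with y hy
          rw [hθ1 y hy, sub_self, zero_mul, Complex.ofReal_zero, zero_mul]
        exact contDiffAt_const.congr_of_eventuallyEq h1
      · by_cases hxs : x ∈ tsupport χ
        · have h1 : x ∈ D \ ball a r₁ :=
            ⟨hUD (hs hxs), fun h => hxV (hKV (ball_subset_closedBall h))⟩
          have h2 : ContDiffAt ℝ ((⊤ : ℕ∞) : WithTop ℕ∞) (AA p q i j) x :=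
            (ok_AA hp.ok hq.ok i j).1 x h1
          have h3 : ContDiff ℝ ((⊤ : ℕ∞) : WithTop ℕ∞) fun x => (1 - θ x) * χ x :=
            (contDiff_const.sub hθs).mul hχ
          exact ((Complex.ofRealCLM.contDiff.comp h3).contDiffAt).mul h2
        · have h1 : (fun x => (((1 - θ x) * χ x : ℝ) : ℂ) * AA p q i j x) =ᶠ[𝓝 x] fun _ => 0 := by
            filter_upwards [(isClosed_tsupport χ).isOpen_compl.mem_nhds hxs] with y hy
            rw [image_eq_zero_of_notMem_tsupport hy, mul_zero, Complex.ofReal_zero, zero_mul]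
          exact contDiffAt_const.congr_of_eventuallyEq h1
    · exact hc.isCompact.of_isClosed_subset (isClosed_tsupport _) (hsup i j)
    · rw [AA_anti]
      ring
  have h0 := hV _ hE
  have h1 : jt R k (DV fun i j x => ((χ x : ℝ) : ℂ) * AA p q i j x) =
      jt R k (DV fun i j x => (((1 - θ x) * χ x : ℝ) : ℂ) * AA p q i j x) := by
    apply jt_DV_congr
    intro x hx i j
    have h2 : x ∉ tsupport θ := fun h => hx.2 (hθt h)
    filter_upwards [(isClosed_tsupport θ).isOpen_compl.mem_nhds h2] with y hy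
    rw [image_eq_zero_of_notMem_tsupport hy, sub_zero, one_mul]
  have h2 : DV (AA p q) = DV fun i j x => ((1 - χ x : ℝ) : ℂ) * AA p q i j x +
      ((χ x : ℝ) : ℂ) * AA p q i j x := by
    congr 1
    funext i j x
    push_cast
    ring
  have h3 : jt R k (VV p q) = (1 / 4 : ℂ) • jt R k (DV (AA p q)) := by
    rw [VV_eq]
    exact jt_smul k _ (ok_DV oAA)
  rw [h3, map_smul, smul_eq_mul, h2, jt_DV_add k (fun i j => ok_mul oχ' (oAA i j))
    (fun i j => ok_mul oχ (oAA i j)), map_add, h1, h0, add_zero]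

end Pool.Agent.Lib.MP_79abb3_an.W.C
end

section

/-!
Theorem W (MP_79abb3_an), block C (density of the drifts). Unique continuation for the distribution.
-/

set_option autoImplicit false
set_option linter.unusedSectionVars false
set_option linter.unusedVariables false

open MeasureTheory Set Filter Topology Function Metric
open scoped ENNReal InnerProductSpace BoundedContinuousFunction

namespace Pool.Agent.Lib.MP_79abb3_an.W.C

variable {d : ℕ} {F : Type} [NormedAddCommGroup F] [NormedSpace ℝ F]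

/-- the support of a translated function -/
theorem cle_tsupport (f : Ed d → F) (w : Ed d) :
    tsupport (fun x => f (x - w)) ⊆ (fun x => x - w) ⁻¹' tsupport f := by
  refine closure_minimal ?_ ((isClosed_tsupport f).preimage (by fun_prop))
  intro x hx
  exact subset_tsupport f hx

theorem cle_isE {E : Fin d → Fin d → Ed d → ℂ} {x₀ w : Ed d} {ε : ℝ} {O : Set (Ed d)}
    (hE : IsE (ball x₀ ε) E) (hO : ∀ x, dist x (x₀ + w) < ε → x ∈ O) :
    IsE O (fun i j x => E i j (x - w)) where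
  smo i j := (hE.smo i j).comp (contDiff_id.sub contDiff_const)
  cpt i j := (hE.cpt i j).comp_homeomorph (Homeomorph.subRight w)
  supp i j x hx := by
    apply hO
    have h1 := hE.supp i j (cle_tsupport _ w hx)
    rw [mem_ball] at h1
    calc dist x (x₀ + w) = dist (x - w) x₀ := by
          rw [dist_eq_norm, dist_eq_norm]; congr 1; abel
      _ < ε := h1
  anti i j x := hE.anti i j (x - w)

theorem cle_pd (f : Ed d → F) (w : Ed d) (l : Fin d) :
    pd l (fun x => f (x - w)) = fun x => pd l f (x - w) := by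
  funext x
  show fderiv ℝ (fun x => f (x - w)) x (eb l) = fderiv ℝ f (x - w) (eb l)
  rw [fderiv_comp_sub]

theorem cle_lapl (f : Ed d → F) (w x : Ed d) : lapl (fun x => f (x - w)) x = lapl f (x - w) := by
  unfold lapl
  refine Finset.sum_congr rfl fun i _ => ?_
  rw [cle_pd, cle_pd]

theorem cle_clm {G : Type} [NormedAddCommGroup G] [NormedSpace ℝ G] (L : F →L[ℝ] G) {f : Ed d → F}
    (hf : Smo f) (x : Ed d) : lapl (fun x => L (f x)) x = L (lapl f x) := by
  have h1 : ∀ {g : Ed d → F} (_ : Smo g) (l : Fin d),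
      pd l (fun x => L (g x)) = fun x => L (pd l g x) := by
    intro g hg l
    funext x
    show fderiv ℝ (fun x => L (g x)) x (eb l) = L (fderiv ℝ g x (eb l))
    have h2 : HasFDerivAt (fun x => L (g x)) (L.comp (fderiv ℝ g x)) x :=
      L.hasFDerivAt.comp x (hg.differentiable (by simp) x).hasFDerivAt
    rw [h2.fderiv]
    rfl
  unfold lapl
  rw [map_sum]
  refine Finset.sum_congr rfl fun i _ => ?_
  rw [h1 hf, h1 (smo_pd hf i)]

/-- PROOF. `t = δ₀/2`, `s = (85/100) t`, `ε = (5/100) t`, `c = -s e`, `e = (x₀-y)/r`. Let `E` be `IsE (ball x₀ ε)` and `u(w) = T (jt R k (DV (E(·-w))))`, smooth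
(`trans_smo`). For `w ∈ ball c t`: `‖w‖ ≤ s+t`, `E(·-w)` is `IsE (ball x₀ δ₀)` (`s+t+ε ≤ δ₀`), so `lapl u w = 0` (`trans_lapl`, `hL` for `E(·-w)`,
`lapl (E(·-w)) = (lapl E)(·-w)`). For `w ∈ ball c (4t/5)`: the support of `E(·-w)` is in `ball (x₀+w) ε`, and
`dist (x₀+w) y < (r-s) + 4t/5 ≤ r-ε`: `E(·-w)` is `IsE (ball y r)`, `u(w) = 0`. `UCP` for `re u`, `im u`: `u = 0` on `ball c (901t/1000) ∋ 0`. So
`T (jt R k (DV E)) = u(0) = 0`. -/
theorem van_near (hU : UCP d) {R : Set (Ed d)} {k : ℕ} (T : JS R k →L[ℂ] ℂ) {x₀ y : Ed d} {r δ₀ : ℝ} (hr : 0 < r)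
    (hxy : dist x₀ y = r) (hδ : 0 < δ₀) (hδr : δ₀ ≤ r) (hV : Van T (ball y r))
    (hL : ∀ E : Fin d → Fin d → Ed d → ℂ, IsE (ball x₀ δ₀) E → T (jt R k (DV fun i j x => lapl (E i j) x)) = 0) :
    ∃ ε > 0, Van T (ball x₀ ε) := by
  set t := δ₀ / 2 with ht
  have ht0 : 0 < t := by positivity
  have htr : t ≤ r / 2 := by rw [ht]; linarith
  refine ⟨5 / 100 * t, by positivity, fun E hE => ?_⟩
  set c : Ed d := (85 / 100 * t / r) • (y - x₀) with hc
  have hyx : ‖y - x₀‖ = r := by rw [← dist_eq_norm, dist_comm, hxy]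
  have hcn : ‖c‖ = 85 / 100 * t := by
    rw [hc, norm_smul, Real.norm_of_nonneg (by positivity), hyx]
    field_simp
  have hcy : ‖x₀ + c - y‖ = r - 85 / 100 * t := by
    have h1 : x₀ + c - y = (-(1 - 85 / 100 * t / r)) • (y - x₀) := by
      rw [hc]
      module
    rw [h1, norm_smul, norm_neg, Real.norm_of_nonneg, hyx]
    · field_simp
    · rw [sub_nonneg, div_le_one hr]
      linarith
  let u : Ed d → ℂ := fun w => T (jt R k (DV fun i j x => E i j (x - w)))
  have hus : Smo u := trans_smo T hE.smo hE.cpt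
  have hul : ∀ w ∈ ball c t, lapl u w = 0 := by
    intro w hw
    have h1 : lapl u w = T (jt R k (DV fun i j x => lapl (E i j) (x - w))) :=
      trans_lapl T hE.smo hE.cpt w
    have h2 : (fun (i j : Fin d) (x : Ed d) => lapl (E i j) (x - w)) =
        fun i j x => lapl (fun x => E i j (x - w)) x := by
      funext i j x
      rw [cle_lapl]
    rw [h1, h2]
    refine hL _ (cle_isE hE fun x hx => ?_)
    rw [mem_ball]
    have h3 : ‖w‖ < 85 / 100 * t + t := by
      rw [mem_ball, dist_eq_norm] at hw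
      calc ‖w‖ = ‖c + (w - c)‖ := by congr 1; abel
        _ ≤ ‖c‖ + ‖w - c‖ := norm_add_le _ _
        _ < 85 / 100 * t + t := by rw [hcn]; linarith
    calc dist x x₀ ≤ dist x (x₀ + w) + dist (x₀ + w) x₀ := dist_triangle _ _ _
      _ < 5 / 100 * t + (85 / 100 * t + t) := by
        have : dist (x₀ + w) x₀ = ‖w‖ := by simp
        rw [this]
        linarith
      _ ≤ δ₀ := by rw [ht]; linarith
  have huz : ∀ w ∈ ball c (4 / 5 * t), u w = 0 := by
    intro w hw
    refine hV _ (cle_isE hE fun x hx => ?_)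
    rw [mem_ball]
    rw [mem_ball, dist_eq_norm] at hw
    calc dist x y ≤ dist x (x₀ + w) + dist (x₀ + w) y := dist_triangle _ _ _
      _ < 5 / 100 * t + ((r - 85 / 100 * t) + 4 / 5 * t) := by
        have : dist (x₀ + w) y ≤ (r - 85 / 100 * t) + ‖w - c‖ := by
          rw [dist_eq_norm, ← hcy]
          calc ‖x₀ + w - y‖ = ‖(x₀ + c - y) + (w - c)‖ := by congr 1; abel
            _ ≤ _ := norm_add_le _ _
        linarith
      _ = r := by ring
  have h0 : (0 : Ed d) ∈ ball c (901 / 1000 * t) := by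
    rw [mem_ball, dist_comm, dist_zero_right, hcn]
    linarith
  have hre : (u 0).re = 0 := by
    refine hU c t (fun w => (u w).re) ht0 ?_ ?_ ?_ 0 h0
    · exact Complex.reCLM.contDiff.comp hus
    · intro w hw
      have := cle_clm Complex.reCLM hus w
      simp only [Complex.reCLM_apply] at this
      rw [this, hul w hw, Complex.zero_re]
    · intro w hw
      simp only [huz w hw, Complex.zero_re]
  have him : (u 0).im = 0 := by
    refine hU c t (fun w => (u w).im) ht0 ?_ ?_ ?_ 0 h0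
    · exact Complex.imCLM.contDiff.comp hus
    · intro w hw
      have := cle_clm Complex.imCLM hus w
      simp only [Complex.imCLM_apply] at this
      rw [this, hul w hw, Complex.zero_im]
    · intro w hw
      simp only [huz w hw, Complex.zero_im]
  have h1 : u 0 = 0 := Complex.ext hre him
  have h2 : u 0 = T (jt R k (DV E)) := by
    simp only [u, sub_zero]
  rw [← h2, h1]

end Pool.Agent.Lib.MP_79abb3_an.W.C
end

section

/-!
Theorem W (MP_79abb3_an), block C (density of the drifts). The functional `Qf` is linear and bounded.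
-/

set_option autoImplicit false
set_option linter.unusedSectionVars false
set_option linter.unusedVariables false

open MeasureTheory Set Filter Topology Function Metric
open scoped ENNReal InnerProductSpace BoundedContinuousFunction

namespace Pool.Agent.Lib.MP_79abb3_an.W.C

variable {d : ℕ} {F : Type} [NormedAddCommGroup F] [NormedSpace ℝ F]

private theorem cff_ok {U K : Set (Ed d)} (hU : IsOpen U) (hK : IsCompact K) (hKU : K ⊆ U) {f : Ed d → ℂ}
    (hf : ContDiffOn ℝ ((⊤ : ℕ∞) : WithTop ℕ∞) f U) : OK K f := by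
  refine ⟨fun x hx => (hf x (hKU hx)).contDiffAt (hU.mem_nhds (hKU hx)), fun m => ?_⟩
  have h1 : ContinuousOn (iteratedFDeriv ℝ m f) U := by
    have h2 : ContinuousOn (iteratedFDerivWithin ℝ m f U) U :=
      hf.continuousOn_iteratedFDerivWithin (by exact_mod_cast le_top) hU.uniqueDiffOn
    exact h2.congr fun x hx => (iteratedFDerivWithin_of_isOpen m hU hx).symm
  exact hK.exists_bound_of_continuousOn (h1.mono hKU)

private theorem cff_add (k l : Fin d) {f g : Ed d → ℂ} (hf : Smo f) (hg : Smo g) :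
    DV (EM k l fun x => f x + g x) = fun Y => DV (EM k l f) Y + DV (EM k l g) Y := by
  ext1 Y
  have hfg : Smo fun x => f x + g x := ContDiff.add hf hg
  have h1 : ∀ i, pd i (fun x => f x + g x) Y = pd i f Y + pd i g Y := fun i => by
    show fderiv ℝ (fun x => f x + g x) Y (eb i) = _
    rw [fderiv_fun_add (ContDiff.differentiable hf (by norm_num) Y)
      (ContDiff.differentiable hg (by norm_num) Y)]
    rfl
  rw [DV_EM k l hfg, DV_EM k l hf, DV_EM k l hg, h1, h1]
  module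

private theorem cff_smul (k l : Fin d) (c : ℂ) {f : Ed d → ℂ} (hf : Smo f) :
    DV (EM k l fun x => c * f x) = fun Y => c • DV (EM k l f) Y := by
  ext1 Y
  have hfg : Smo fun x => c * f x := ContDiff.mul contDiff_const hf
  have h1 : ∀ i, pd i (fun x => c * f x) Y = c * pd i f Y := fun i => by
    show fderiv ℝ (fun x => c * f x) Y (eb i) = _
    rw [fderiv_const_mul (ContDiff.differentiable hf (by norm_num) Y)]
    rfl
  rw [DV_EM k l hfg, DV_EM k l hf, h1, h1]
  module

/-- PROOF. Linearity: `DV_EM`, `jt_LL_add`, `jt_LL_smul`. Bound: let `S = R ∩ tsupport (1-χ)`; there `r₃ ≤ ‖x-y‖`, so `‖iv y x‖ ≤ 1/r₃`. `Pb_EM` and `comp_bound`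
(`U = {x ≠ y}`, `K = {r₃ ≤ ‖x-y‖ ≤ ρ}` with `R ⊆ closedBall y ρ`; the derivatives of `pd l H` of order `≤ k+2` are bounded by those of `H` of
order `≤ k+3`): the components of `v = Pb y (DV (EM i j H))` satisfy `BN S (k+2) ≤ C c`, so `BN S (k+1) (cr v i j) ≤ C c`; `bn_cut`, `bn_DV`,
`jt_norm_le`. -/
theorem Qf_linB {R : Set (Ed d)} (hR : Bornology.IsBounded R) {k : ℕ} (T : JS R k →L[ℂ] ℂ)
    {χ : Ed d → ℝ} (hχ : Smo χ) {y : Ed d} {r₃ : ℝ} (hr : 0 < r₃) (h1 : ∀ x, ‖x - y‖ < r₃ → χ x = 1)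
    (i j : Fin d) : LinB (closedBall 0 r₃⁻¹) (k + 3) (Qf T χ y i j) := by
  refine ⟨fun f g hf hg => ?_, fun c f hf => ?_, ?_⟩
  · show T (jt R k (LL χ (Pb y (DV (EM i j fun x => f x + g x))))) = _
    rw [cff_add i j hf hg, jt_LL_add hR k hχ hr h1 (smo_DV_EM i j hf) (smo_DV_EM i j hg), map_add]
    rfl
  · show T (jt R k (LL χ (Pb y (DV (EM i j fun x => c * f x))))) = _
    rw [cff_smul i j c hf, jt_LL_smul hR k hχ hr h1 c (smo_DV_EM i j hf), map_smul, smul_eq_mul]
    rfl
  obtain ⟨ρ, hρ⟩ := hR.subset_closedBall y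
  have hU : IsOpen ({y}ᶜ : Set (Ed d)) := isOpen_compl_singleton
  obtain ⟨K, hKdef⟩ : ∃ K : Set (Ed d), K = {x | r₃ ≤ ‖x - y‖} ∩ closedBall y ρ := ⟨_, rfl⟩
  have hcl : IsClosed {x : Ed d | r₃ ≤ ‖x - y‖} := isClosed_le continuous_const (by fun_prop)
  have hK : IsCompact K := by
    rw [hKdef]
    exact (isCompact_closedBall y ρ).inter_left hcl
  have hKr : ∀ x ∈ K, r₃ ≤ ‖x - y‖ := fun x hx => by
    rw [hKdef] at hx
    exact hx.1
  have hKy : ∀ x ∈ K, x ≠ y := fun x hx h2 => by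
    have h3 := hKr x hx
    rw [h2, sub_self, norm_zero] at h3
    exact absurd h3 (not_le.2 hr)
  have hKU : K ⊆ ({y}ᶜ : Set (Ed d)) := fun x hx => hKy x hx
  have hKiv : ∀ x ∈ K, iv y x ∈ closedBall (0 : Ed d) r₃⁻¹ := fun x hx => by
    rw [mem_closedBall_zero_iff, norm_iv (hKy x hx)]
    exact inv_anti₀ hr (hKr x hx)
  have hSK : (R ∩ tsupport fun x => 1 - χ x) ⊆ K := by
    rintro x ⟨hx1, hx2⟩
    rw [hKdef]
    refine ⟨closure_minimal (fun z hz => ?_) hcl hx2, hρ hx1⟩
    by_contra h3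
    exact hz (by
      show 1 - χ z = 0
      rw [h1 z (not_le.1 h3), sub_self])
  choose a₁ a₂ ha₁ ha₂ hP using fun l => Pb_EM y i j l
  have ha₁U : ∀ l, ContDiffOn ℝ ((⊤ : ℕ∞) : WithTop ℕ∞) (a₁ l) ({y}ᶜ) := fun l x hx =>
    (ha₁ l x hx).contDiffWithinAt
  have ha₂U : ∀ l, ContDiffOn ℝ ((⊤ : ℕ∞) : WithTop ℕ∞) (a₂ l) ({y}ᶜ) := fun l x hx =>
    (ha₂ l x hx).contDiffWithinAt
  have hivU : ContDiffOn ℝ ((⊤ : ℕ∞) : WithTop ℕ∞) (iv y) ({y}ᶜ) := fun x hx =>
    (iv_cda hx).contDiffWithinAt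
  choose C₁ hC₁ hB₁ using fun l => comp_bound hU hK hKU (ha₁U l) hivU (k + 2)
  choose C₂ hC₂ hB₂ using fun l => comp_bound hU hK hKU (ha₂U l) hivU (k + 2)
  obtain ⟨C₃, hC₃, hB₃⟩ := bn_cut hR hχ (k + 1)
  obtain ⟨C, hC⟩ : ∃ C : ℝ, C = ∑ l, (C₁ l + C₂ l) := ⟨_, rfl⟩
  have hC0 : 0 ≤ C := by
    rw [hC]
    exact Finset.sum_nonneg fun l _ => add_nonneg (hC₁ l) (hC₂ l)
  have hCl : ∀ l, C₁ l + C₂ l ≤ C := fun l => by
    rw [hC]
    exact Finset.single_le_sum (f := fun l => C₁ l + C₂ l) (fun l _ => add_nonneg (hC₁ l) (hC₂ l))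
      (Finset.mem_univ l)
  refine ⟨‖T‖ * (d * (d * (C₃ * (C + C)))), by positivity, fun H c hH hc hBN => ?_⟩
  obtain ⟨v, hv⟩ : ∃ v : Ed d → Cd d, v = Pb y (DV (EM i j H)) := ⟨_, rfl⟩
  have hpd : ∀ (l : Fin d) (n : ℕ), n ≤ k + 2 → ∀ x ∈ K, ‖iteratedFDeriv ℝ n (pd l H) (iv y x)‖ ≤ c := by
    intro l n hn x hx
    refine (nrm_pd (ContDiff.contDiffAt hH) l n).trans ?_
    exact hBN (n + 1) (by omega) _ (hKiv x hx)
  have hcomp : ∀ (l : Fin d), ContDiffOn ℝ ((⊤ : ℕ∞) : WithTop ℕ∞) (fun x => pd l H (iv y x)) ({y}ᶜ) :=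
    fun l => ContDiff.comp_contDiffOn (smo_pd hH l) hivU
  have okv : ∀ l, OK K (fun x => v x l) := by
    intro l
    have o1 : OK K fun x => a₁ l x * pd j H (iv y x) :=
      cff_ok hU hK hKU ((ha₁U l).mul (hcomp j))
    have o2 : OK K fun x => a₂ l x * pd i H (iv y x) :=
      cff_ok hU hK hKU ((ha₂U l).mul (hcomp i))
    refine ok_congr (ok_sub o1 o2) fun x hx => ?_
    filter_upwards [hU.mem_nhds (hKU hx)] with z hz
    rw [hv]
    exact (hP l H hH z hz).symm
  have bnv : ∀ l, BN K (k + 2) (fun x => v x l) (C * c) := by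
    intro l
    have o1 : OK K fun x => a₁ l x * pd j H (iv y x) :=
      cff_ok hU hK hKU ((ha₁U l).mul (hcomp j))
    have o2 : OK K fun x => a₂ l x * pd i H (iv y x) :=
      cff_ok hU hK hKU ((ha₂U l).mul (hcomp i))
    have b1 : BN K (k + 2) (fun x => a₁ l x * pd j H (iv y x)) (C₁ l * c) := fun n hn x hx =>
      hB₁ l (pd j H) (smo_pd hH j) x hx c (fun n hn => hpd j n hn x hx) n hn
    have b2 : BN K (k + 2) (fun x => a₂ l x * pd i H (iv y x)) (C₂ l * c) := fun n hn x hx =>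
      hB₂ l (pd i H) (smo_pd hH i) x hx c (fun n hn => hpd i n hn x hx) n hn
    have b3 : BN K (k + 2) (fun x => v x l) (C₁ l * c + C₂ l * c) := by
      refine bn_congr (bn_sub o1 o2 b1 b2) fun x hx => ?_
      filter_upwards [hU.mem_nhds (hKU hx)] with z hz
      rw [hv]
      exact (hP l H hH z hz).symm
    intro n hn x hx
    refine (b3 n hn x hx).trans ?_
    rw [← add_mul]
    exact mul_le_mul_of_nonneg_right (hCl l) hc
  have okcr : ∀ p q, OK K (cr v p q) := fun p q => ok_sub (ok_pd (okv p) q) (ok_pd (okv q) p)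
  have bncr : ∀ p q, BN K (k + 1) (cr v p q) (C * c + C * c) := fun p q =>
    bn_sub (ok_pd (okv p) q) (ok_pd (okv q) p)
      (bn_pd (okv p) (fun n _ hn x hx => bnv p n hn x hx) q)
      (bn_pd (okv q) (fun n _ hn x hx => bnv q n hn x hx) p)
  have okE : ∀ p q, OK R (fun x => ((1 - χ x : ℝ) : ℂ) * cr v p q x) := fun p q =>
    ok_cut hR hχ (ok_mono (okcr p q) hSK)
  have bnE : ∀ p q, BN R (k + 1) (fun x => ((1 - χ x : ℝ) : ℂ) * cr v p q x) (C₃ * (C * c + C * c)) :=
    fun p q => hB₃ _ _ (ok_mono (okcr p q) hSK) fun n hn x hx => bncr p q n hn x (hSK hx)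
  have h5 : BN R k (LL χ v) (d * (d * (C₃ * (C * c + C * c)))) := bn_DV okE bnE
  have h6 : ‖jt R k (LL χ v)‖ ≤ d * (d * (C₃ * (C * c + C * c))) :=
    jt_norm_le (ok_DV okE) (by positivity) h5
  have h7 : Qf T χ y i j H = T (jt R k (LL χ v)) := by rw [hv]; rfl
  rw [h7]
  refine (T.le_opNorm _).trans ?_
  calc ‖T‖ * ‖jt R k (LL χ v)‖ ≤ ‖T‖ * (d * (d * (C₃ * (C * c + C * c)))) :=
        mul_le_mul_of_nonneg_left h6 (norm_nonneg _)
    _ = ‖T‖ * (d * (d * (C₃ * (C + C)))) * c := by ring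

end Pool.Agent.Lib.MP_79abb3_an.W.C
end

section

/-!
Theorem W (MP_79abb3_an), block C: unique continuation from block G.
-/

set_option autoImplicit false
set_option linter.unusedSectionVars false
set_option linter.unusedVariables false

open MeasureTheory Set Filter Topology Function Metric
open scoped ENNReal InnerProductSpace

namespace Pool.Agent.Lib.MP_79abb3_an.W.C

private theorem cxa2_lap {d : ℕ} {U : Ed d → ℝ} (hU : Smo U) (x : Ed d) : Laplacian.laplacian U x = lapl U x := by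
  rw [congrFun (InnerProductSpace.laplacian_eq_iteratedFDeriv_orthonormalBasis U (EuclideanSpace.basisFun (Fin d) ℝ)) x]
  refine Finset.sum_congr rfl fun i _ => ?_
  have h3 : ContDiff ℝ ((⊤ : ℕ∞) : WithTop ℕ∞) (fderiv ℝ U) :=
    ContDiff.fderiv_right hU (by exact_mod_cast le_top)
  have h4 : DifferentiableAt ℝ (fderiv ℝ U) x := h3.differentiable (by norm_num) x
  rw [iteratedFDeriv_two_apply]
  have h5 : pd i (pd i U) x = fderiv ℝ (fderiv ℝ U) x (eb i) (eb i) := by
    show fderiv ℝ (fun y => fderiv ℝ U y (eb i)) x (eb i) = _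
    rw [(h4.hasFDerivAt.clm_apply (hasFDerivAt_const (eb i) x)).fderiv]
    simp
  rw [h5]
  simp [eb]

/-- The input from block G. PROOF. `WG.three_balls` (file `WG/Three.lean`, `F = Ed d`, `A = 0`, `B` = the maximum of `|U|` on the compact
`closedBall c t`): `|U z| ≤ C * 0 ^ (4/9) * B ^ (5/9) = 0` for `z ∈ ball c (901/1000 t)`. `lapl U = Δ U` for smooth `U`: `Δ` is the sum of the second
derivatives in the vectors of an orthonormal basis (`InnerProductSpace.laplacian_eq_iteratedFDeriv_orthonormalBasis` with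
`EuclideanSpace.basisFun`), `iteratedFDeriv_two_apply`, and `pd i (pd i U) x = fderiv (fderiv U) x (eb i) (eb i)`. -/
theorem ucp (d : ℕ) : UCP d := by
  intro c t U ht hU hH h0 x hx
  obtain ⟨C, hC, h3⟩ := WG.three_balls (Ed d)
  have hU' : ContDiff ℝ ((⊤ : ℕ∞) : WithTop ℕ∞) U := hU
  have hU2 : ContDiff ℝ 2 U := hU'.of_le (by norm_cast)
  obtain ⟨B, hB⟩ := (isCompact_closedBall c t).exists_bound_of_continuousOn hU2.continuous.continuousOn
  have key := h3 U hU2 c t 0 (max B 0) ht (fun z hz => by rw [cxa2_lap hU]; exact hH z hz) le_rfl (le_max_right _ _)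
    (fun z hz => by rw [h0 z hz]; simp)
    (fun z hz => (hB z (ball_subset_closedBall (ball_subset_ball (by linarith) hz))).trans (le_max_left _ _)) x hx
  rw [Real.zero_rpow (by norm_num), mul_zero, zero_mul] at key
  exact abs_nonpos_iff.1 key

end Pool.Agent.Lib.MP_79abb3_an.W.C
end

section

/-!
Theorem W (MP_79abb3_an), block C: local rotations are divergences of antisymmetric test matrix fields.
-/

set_option autoImplicit false
set_option linter.unusedSectionVars false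
set_option linter.unusedVariables false

open MeasureTheory Set Filter Topology Function Metric
open scoped ENNReal RealInnerProductSpace

namespace Pool.Agent.Lib.MP_79abb3_an.W

variable {d : ℕ}

private noncomputable def cxc_g (R : Rot d) (s : ℝ) : ℝ := (1 / 2) * ∫ t in (R.r ^ 2)..s, R.η t

private theorem cxc_deriv (R : Rot d) (s : ℝ) : HasDerivAt (cxc_g R) ((1 / 2) * R.η s) s := by
  have hc : Continuous R.η := R.smo.continuous
  have h1 : HasDerivAt (fun s => ∫ t in (R.r ^ 2)..s, R.η t) (R.η s) s :=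
    intervalIntegral.integral_hasDerivAt_right (hc.intervalIntegrable _ _)
      hc.stronglyMeasurable.stronglyMeasurableAtFilter hc.continuousAt
  exact h1.const_mul (1 / 2)

private theorem cxc_smo (R : Rot d) : ContDiff ℝ ((⊤ : ℕ∞) : WithTop ℕ∞) (cxc_g R) := by
  rw [contDiff_infty_iff_deriv]
  refine ⟨fun s => (cxc_deriv R s).differentiableAt, ?_⟩
  have h1 : deriv (cxc_g R) = fun s => (1 / 2) * R.η s := funext fun s => (cxc_deriv R s).deriv
  rw [h1]
  exact contDiff_const.mul R.smo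

private theorem cxc_zero (R : Rot d) {s : ℝ} (hs : R.r ^ 2 ≤ s) : cxc_g R s = 0 := by
  have h1 : ∫ t in (R.r ^ 2)..s, R.η t = ∫ t in (R.r ^ 2)..s, (0 : ℝ) := by
    refine intervalIntegral.integral_congr fun t ht => ?_
    rw [uIcc_of_le hs] at ht
    exact R.hη t ht.1
  unfold cxc_g
  rw [h1]
  simp

private theorem cxc_q (R : Rot d) (x : En d) :
    HasFDerivAt (fun x : En d => cxc_g R (‖x - R.c‖ ^ 2))
      (((1 / 2) * R.η (‖x - R.c‖ ^ 2)) • ((2 : ℝ) • (innerSL ℝ (x - R.c)))) x := by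
  have h1 : HasFDerivAt (fun x : En d => ‖x - R.c‖ ^ 2) ((2 : ℝ) • (innerSL ℝ (x - R.c))) x := by
    have h2 := ((hasFDerivAt_id x).sub_const R.c).norm_sq
    refine h2.congr_fderiv ?_
    ext v
    simp
  have h3 := (cxc_deriv R (‖x - R.c‖ ^ 2)).hasFDerivAt.comp (g := cxc_g R) (f := fun x : En d => ‖x - R.c‖ ^ 2) x h1
  refine h3.congr_fderiv ?_
  ext v
  simp [mul_comm]
  ring

/-- PROOF. `g(s) = (1/2) ∫ t in r²..s, η t` (smooth, `g' = η/2`, `g(s) = 0` for `s ≥ r²`), `E i j x = g(‖x - c‖²) (w_i u_j - u_i w_j)`: smooth,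
`tsupport (E i j) ⊆ closedBall c r`, antisymmetric, `∂_j E_ij = η(‖x - c‖²) (x - c)_j (w_i u_j - u_i w_j)` and
`∑_j (x - c)_j (w_i u_j - u_i w_j) = ⟪u, x - c⟫ w_i - ⟪w, x - c⟫ u_i = (J (x - c))_i`. -/
theorem rot_E (R : Rot d) {D : Set (En d)} (hR : closedBall R.c R.r ⊆ D) :
    ∃ E : Fin d → Fin d → En d → ℝ, C.IsE D E ∧ C.DR E = R.V := by
  set E : Fin d → Fin d → En d → ℝ := fun i j x =>
    cxc_g R (‖x - R.c‖ ^ 2) * (R.w i * R.u j - R.u i * R.w j) with hE
  have hsm : ∀ i j, ContDiff ℝ ((⊤ : ℕ∞) : WithTop ℕ∞) (E i j) := fun i j =>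
    ((cxc_smo R).comp ((contDiff_id.sub contDiff_const).norm_sq ℝ)).mul contDiff_const
  have hsp : ∀ i j, tsupport (E i j) ⊆ closedBall R.c R.r := by
    intro i j
    refine closure_minimal ?_ isClosed_closedBall
    intro x hx
    by_contra hx'
    apply hx
    have h1 : R.r < ‖x - R.c‖ := by
      rw [mem_closedBall, dist_eq_norm] at hx'
      exact not_le.1 hx'
    have h2 : R.r ^ 2 ≤ ‖x - R.c‖ ^ 2 := pow_le_pow_left₀ R.r0.le h1.le 2
    show cxc_g R (‖x - R.c‖ ^ 2) * _ = 0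
    rw [cxc_zero R h2, zero_mul]
  refine ⟨E, ⟨hsm, fun i j => ?_, fun i j => (hsp i j).trans hR, fun i j x => ?_⟩, ?_⟩
  · exact (isCompact_closedBall R.c R.r).of_isClosed_subset (isClosed_tsupport _) (hsp i j)
  · show cxc_g R (‖x - R.c‖ ^ 2) * _ = -(cxc_g R (‖x - R.c‖ ^ 2) * _)
    ring
  · funext x
    have hpd : ∀ i j, C.pd j (E i j) x =
        R.η (‖x - R.c‖ ^ 2) * (x - R.c) j * (R.w i * R.u j - R.u i * R.w j) := by
      intro i j
      have h1 := (cxc_q R x).mul_const (R.w i * R.u j - R.u i * R.w j)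
      show fderiv ℝ (E i j) x (C.eb j) = _
      rw [h1.fderiv]
      have h2 : ⟪x - R.c, (EuclideanSpace.single j 1 : En d)⟫ = (x - R.c) j := by
        rw [EuclideanSpace.inner_single_right]
        simp
      show (R.w i * R.u j - R.u i * R.w j) *
        (((1 / 2) * R.η (‖x - R.c‖ ^ 2)) * (2 * ⟪x - R.c, (EuclideanSpace.single j 1 : En d)⟫)) = _
      rw [h2]
      ring
    ext i
    show ∑ j, C.pd j (E i j) x = _
    have hin : ∀ v y : En d, ⟪v, y⟫ = ∑ j, y j * v j := by
      intro v y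
      rw [PiLp.inner_apply]
      rfl
    have hV : R.V x i = R.η (‖x - R.c‖ ^ 2) * (⟪R.u, x - R.c⟫ * R.w i - ⟪R.w, x - R.c⟫ * R.u i) := rfl
    rw [hV, hin, hin, Finset.sum_mul, Finset.sum_mul, ← Finset.sum_sub_distrib, Finset.mul_sum]
    refine Finset.sum_congr rfl fun j _ => ?_
    rw [hpd]
    ring

end Pool.Agent.Lib.MP_79abb3_an.W
end

section

/-!
Theorem W (MP_79abb3_an), block C: the drift is the commutator of the gradients.
-/

set_option autoImplicit false
set_option linter.unusedSectionVars false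
set_option linter.unusedVariables false

open MeasureTheory Set Filter Topology Function Metric
open scoped ENNReal RealInnerProductSpace

namespace Pool.Agent.Lib.MP_79abb3_an.W

variable {d : ℕ}

theorem cxc2_comp (p : En d → ℝ) (y : En d) (i : Fin d) : gradient p y i = C.pd i p y := by
  have h1 : ⟪gradient p y, C.eb i⟫ = fderiv ℝ p y (C.eb i) := by
    unfold gradient
    exact InnerProductSpace.toDual_symm_apply
  have h2 : ⟪gradient p y, C.eb i⟫ = gradient p y i := by
    unfold C.eb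
    rw [EuclideanSpace.inner_single_right]
    simp
  unfold C.pd
  rw [← h1, h2]

theorem cxc2_diff {p : En d → ℝ} {x : En d} (hp : ContDiffAt ℝ ((⊤ : ℕ∞) : WithTop ℕ∞) p x) :
    DifferentiableAt ℝ (fderiv ℝ p) x := by
  have h1 : ContDiffAt ℝ ((⊤ : ℕ∞) : WithTop ℕ∞) (fderiv ℝ p) x := hp.fderiv_right (by exact_mod_cast le_top)
  exact h1.differentiableAt (by simp)

theorem cxc2_pd {p : En d → ℝ} {x : En d} (hp : ContDiffAt ℝ ((⊤ : ℕ∞) : WithTop ℕ∞) p x) (i : Fin d) :
    DifferentiableAt ℝ (C.pd i p) x := (cxc2_diff hp).clm_apply (differentiableAt_const _)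

theorem cxc2_grad {p : En d → ℝ} {x : En d} (hp : ContDiffAt ℝ ((⊤ : ℕ∞) : WithTop ℕ∞) p x) :
    DifferentiableAt ℝ (gradient p) x := by
  have h1 : gradient p = fun y => (InnerProductSpace.toDual ℝ (En d)).symm (fderiv ℝ p y) := rfl
  rw [h1]
  exact ((InnerProductSpace.toDual ℝ (En d)).symm.differentiable.differentiableAt).comp x (cxc2_diff hp)

theorem cxc2_vec (v : En d) : v = ∑ j, v j • C.eb j := by
  have h := (EuclideanSpace.basisFun (Fin d) ℝ).sum_repr v
  simpa [C.eb] using h.symm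

theorem cxc2_fd {q : En d → ℝ} {x : En d} (hq : ContDiffAt ℝ ((⊤ : ℕ∞) : WithTop ℕ∞) q x) (v : En d) (i : Fin d) :
    (fderiv ℝ (gradient q) x v) i = ∑ j, v j * C.pd j (C.pd i q) x := by
  have h1 : HasFDerivAt (gradient q) (fderiv ℝ (gradient q) x) x := (cxc2_grad hq).hasFDerivAt
  have h2 : HasFDerivAt (fun y => gradient q y i)
      ((EuclideanSpace.proj i : En d →L[ℝ] ℝ).comp (fderiv ℝ (gradient q) x)) x :=
    (EuclideanSpace.proj i : En d →L[ℝ] ℝ).hasFDerivAt.comp x h1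
  have h3 : (fun y => gradient q y i) = C.pd i q := funext fun y => cxc2_comp q y i
  rw [h3] at h2
  have h4 : (fderiv ℝ (gradient q) x v) i = fderiv ℝ (C.pd i q) x v := by rw [h2.fderiv]; rfl
  rw [h4]
  conv_lhs => rw [cxc2_vec v]
  rw [map_sum]
  refine Finset.sum_congr rfl fun j _ => ?_
  rw [map_smul]
  rfl

theorem cxc2_AR {p q : En d → ℝ} {x : En d} (hp : ContDiffAt ℝ ((⊤ : ℕ∞) : WithTop ℕ∞) p x)
    (hq : ContDiffAt ℝ ((⊤ : ℕ∞) : WithTop ℕ∞) q x) (i j : Fin d) :
    C.pd j (C.AR p q i j) x = 2 * (C.pd j (C.pd j p) x * C.pd i q x + C.pd j p x * C.pd j (C.pd i q) x -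
      (C.pd j (C.pd i p) x * C.pd j q x + C.pd i p x * C.pd j (C.pd j q) x)) := by
  have h1 : HasFDerivAt (C.AR p q i j) ((2 : ℝ) • ((C.pd j p x • fderiv ℝ (C.pd i q) x + C.pd i q x • fderiv ℝ (C.pd j p) x) -
      (C.pd i p x • fderiv ℝ (C.pd j q) x + C.pd j q x • fderiv ℝ (C.pd i p) x))) x := by
    have := ((((cxc2_pd hp j).hasFDerivAt.mul (cxc2_pd hq i).hasFDerivAt).sub
      ((cxc2_pd hp i).hasFDerivAt.mul (cxc2_pd hq j).hasFDerivAt)).const_mul (2 : ℝ))
    exact this
  have h2 : C.pd j (C.AR p q i j) x = fderiv ℝ (C.AR p q i j) x (C.eb j) := rfl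
  rw [h2, h1.fderiv]
  simp only [smul_apply, sub_apply, add_apply,
    smul_eq_mul]
  show 2 * (C.pd j p x * C.pd j (C.pd i q) x + C.pd i q x * C.pd j (C.pd j p) x -
    (C.pd i p x * C.pd j (C.pd j q) x + C.pd j q x * C.pd j (C.pd i p) x)) = _
  ring

/-- PROOF. With `∂_i` = `C.pd i` and the symmetry of the second derivatives at `x`, `∑_j ∂_j (∂_j p ∂_i q - ∂_i p ∂_j q) =
(lapl p) ∂_i q + ∑_j ∂_j p ∂_j ∂_i q - ∑_j ∂_j q ∂_j ∂_i p - ∂_i p (lapl q)`; the `i`-th component of `fderiv (gradient q) x (gradient p x)` is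
`∑_j ∂_j p ∂_j ∂_i q` (`gradient q` has the components `∂_i q`, `brk u v x = fderiv v x (u x) - fderiv u x (v x)`). -/
theorem VR_eq_brk {p q : En d → ℝ} {x : En d} (hp : ContDiffAt ℝ ((⊤ : ℕ∞) : WithTop ℕ∞) p x)
    (hq : ContDiffAt ℝ ((⊤ : ℕ∞) : WithTop ℕ∞) q x) (hpl : C.lapl p x = 0) (hql : C.lapl q x = 0) :
    C.VR p q x = (1 / 2 : ℝ) • brk (gradient p) (gradient q) x := by
  ext i
  have h1 : (C.VR p q x) i = (1 / 4 : ℝ) * ∑ j, C.pd j (C.AR p q i j) x := rfl
  have h2 : ((1 / 2 : ℝ) • brk (gradient p) (gradient q) x) i =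
      (1 / 2 : ℝ) * ((fderiv ℝ (gradient q) x (gradient p x)) i - (fderiv ℝ (gradient p) x (gradient q x)) i) := rfl
  rw [h1, h2, cxc2_fd hq, cxc2_fd hp]
  simp_rw [cxc2_comp, cxc2_AR hp hq]
  have e1 : ∑ j, C.pd j (C.pd j p) x * C.pd i q x = 0 := by
    rw [← Finset.sum_mul]
    have : ∑ j, C.pd j (C.pd j p) x = C.lapl p x := rfl
    rw [this, hpl, zero_mul]
  have e2 : ∑ j, C.pd i p x * C.pd j (C.pd j q) x = 0 := by
    rw [← Finset.mul_sum]
    have : ∑ j, C.pd j (C.pd j q) x = C.lapl q x := rfl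
    rw [this, hql, mul_zero]
  rw [← Finset.mul_sum, Finset.sum_sub_distrib, Finset.sum_add_distrib, Finset.sum_add_distrib, e1, e2]
  have e3 : ∑ j, C.pd j (C.pd i p) x * C.pd j q x = ∑ j, C.pd j q x * C.pd j (C.pd i p) x :=
    Finset.sum_congr rfl fun j _ => mul_comm _ _
  rw [e3]
  ring

end Pool.Agent.Lib.MP_79abb3_an.W
end

section

/-!
Theorem W (MP_79abb3_an), block C (density of the drifts). The cut off drift is a bounded bilinear map.
-/

set_option autoImplicit false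
set_option linter.unusedSectionVars false
set_option linter.unusedVariables false

open MeasureTheory Set Filter Topology Function Metric
open scoped ENNReal InnerProductSpace BoundedContinuousFunction

namespace Pool.Agent.Lib.MP_79abb3_an.W.C

variable {d : ℕ} {F : Type} [NormedAddCommGroup F] [NormedSpace ℝ F]

theorem ok_cutAA {R : Set (Ed d)} (hR : Bornology.IsBounded R) {χ : Ed d → ℝ} (hχ : Smo χ) {p q : Ed d → ℂ}
    (hp : OK (R ∩ tsupport fun x => 1 - χ x) p) (hq : OK (R ∩ tsupport fun x => 1 - χ x) q) (i j : Fin d) :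
    OK R (fun x => ((1 - χ x : ℝ) : ℂ) * AA p q i j x) := by
  exact ok_cut hR hχ (ok_AA hp hq i j)

/-- PROOF: `bn_AA` with `m = k+1`, `bn_cut`, `bn_DV`, `jt_norm_le`. -/
theorem bil_bound {R : Set (Ed d)} (hR : Bornology.IsBounded R) {χ : Ed d → ℝ} (hχ : Smo χ) (k : ℕ) :
    ∃ C, 0 ≤ C ∧ ∀ (p q : Ed d → ℂ) (a b : ℝ), 0 ≤ a → 0 ≤ b → OK (R ∩ tsupport fun x => 1 - χ x) p →
      OK (R ∩ tsupport fun x => 1 - χ x) q → GN (R ∩ tsupport fun x => 1 - χ x) (k + 2) p a →
      GN (R ∩ tsupport fun x => 1 - χ x) (k + 2) q b →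
      ‖jt R k (DV fun i j x => ((1 - χ x : ℝ) : ℂ) * AA p q i j x)‖ ≤ C * a * b := by
  obtain ⟨C₁, hC₁, h₁⟩ := bn_cut hR hχ (k + 1)
  refine ⟨d * (d * (C₁ * 2 ^ (k + 3))), by positivity, fun p q a b ha hb hp hq hpa hqb => ?_⟩
  have h2 : ∀ i j, BN R (k + 1) (fun x => ((1 - χ x : ℝ) : ℂ) * AA p q i j x)
      (C₁ * (2 ^ (k + 1 + 2) * a * b)) := fun i j =>
    h₁ _ _ (ok_AA hp hq i j) (bn_AA hp hq hpa hqb i j)
  have h3 : ∀ i j, OK R (fun x => ((1 - χ x : ℝ) : ℂ) * AA p q i j x) := fun i j =>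
    ok_cutAA hR hχ hp hq i j
  have h4 := bn_DV (E := fun i j x => ((1 - χ x : ℝ) : ℂ) * AA p q i j x) h3 h2
  have h5 := jt_norm_le (ok_DV (E := fun i j x => ((1 - χ x : ℝ) : ℂ) * AA p q i j x) h3)
    (by positivity) h4
  refine h5.trans_eq ?_
  ring

end Pool.Agent.Lib.MP_79abb3_an.W.C
end
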