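import Pool.Agent.Lib.MP_79abb3_an.W.CEa

/-!
Theorem W (MP_79abb3_an), block C (density of the drifts). Derivative of the Kelvin exponentials.
-/

set_option autoImplicit false
set_option linter.unusedSectionVars false
set_option linter.unusedVariables false

open MeasureTheory Set Filter Topology Function Metric
open scoped ENNReal InnerProductSpace BoundedContinuousFunction

namespace Pool.Agent.Lib.MP_79abb3_an.W.C

variable {d : ℕ} {F : Type} [NormedAddCommGroup F] [NormedSpace ℝ F]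

theorem ceb_br_cv (h : Ed d) : br (cv h) h = (((‖h‖ ^ 2 : ℝ)) : ℂ) := by
  unfold br cv
  rw [EuclideanSpace.norm_sq_eq, Complex.ofReal_sum]
  refine Finset.sum_congr rfl fun i _ => ?_
  show ((h i : ℝ) : ℂ) * ((h i : ℝ) : ℂ) = _
  rw [Real.norm_eq_abs, sq_abs, ← Complex.ofReal_mul, sq]

theorem ceb_br_sub (v w : Cd d) (h : Ed d) : br (v - w) h = br v h - br w h := by
  unfold br
  rw [← Finset.sum_sub_distrib]
  refine Finset.sum_congr rfl fun i _ => ?_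
  show (v i - w i) * _ = _
  ring

theorem ceb_br_smul (c : ℂ) (v : Cd d) (h : Ed d) : br (c • v) h = c * br v h := by
  unfold br
  rw [Finset.mul_sum]
  refine Finset.sum_congr rfl fun i _ => ?_
  show (c * v i) * _ = _
  ring

theorem ceb_rf_apply (h : Ed d) (v : Cd d) (i : Fin d) :
    rf h v i = v i - (2 * (((‖h‖ ^ 2)⁻¹ : ℝ) : ℂ) * br v h) * ((h i : ℝ) : ℂ) := rfl

theorem ceb_gg {h : Ed d} (hh : h ≠ 0) :
    (((‖h‖ ^ 2)⁻¹ : ℝ) : ℂ) * (((‖h‖ ^ 2 : ℝ)) : ℂ) = 1 := by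
  rw [← Complex.ofReal_mul, inv_mul_cancel₀ (pow_ne_zero 2 (norm_ne_zero_iff.2 hh)), Complex.ofReal_one]

theorem ceb_br_rf {h : Ed d} (hh : h ≠ 0) (v : Cd d) : br (rf h v) h = -br v h := by
  unfold rf
  rw [ceb_br_sub, ceb_br_smul, ceb_br_cv]
  have := ceb_gg hh
  linear_combination (-2 * br v h) * this

/-- basic rules for the reflection: `rf h` is complex linear, `rf h (rf h v) = v`, `br (rf h v) w = br v (w - 2 ⟨h,w⟩ h/|h|²)` -/
theorem rf_rf {h : Ed d} (hh : h ≠ 0) (v : Cd d) : rf h (rf h v) = v := by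
  ext i
  rw [ceb_rf_apply, ceb_br_rf hh, ceb_rf_apply]
  ring

private theorem ceb_key (h : Ed d) (v w : Cd d) (A B : ℂ) :
    ∑ i, (v i - A * ((h i : ℝ) : ℂ)) * (w i - B * ((h i : ℝ) : ℂ)) =
      bc v w - B * br v h - A * br w h + A * B * br (cv h) h := by
  have e1 : br v h = ∑ i, v i * ((h i : ℝ) : ℂ) := rfl
  have e2 : br w h = ∑ i, w i * ((h i : ℝ) : ℂ) := rfl
  have e3 : br (cv h) h = ∑ i, ((h i : ℝ) : ℂ) * ((h i : ℝ) : ℂ) := rfl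
  have e4 : bc v w = ∑ i, v i * w i := rfl
  rw [e1, e2, e3, e4, Finset.mul_sum, Finset.mul_sum, Finset.mul_sum, ← Finset.sum_sub_distrib,
    ← Finset.sum_sub_distrib, ← Finset.sum_add_distrib]
  refine Finset.sum_congr rfl fun i _ => ?_
  ring

theorem bc_rf {h : Ed d} (hh : h ≠ 0) (v w : Cd d) : bc (rf h v) (rf h w) = bc v w := by
  have h1 : bc (rf h v) (rf h w) = _ := ceb_key h v w (2 * (((‖h‖ ^ 2)⁻¹ : ℝ) : ℂ) * br v h)
    (2 * (((‖h‖ ^ 2)⁻¹ : ℝ) : ℂ) * br w h)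
  rw [h1, ceb_br_cv]
  have := ceb_gg hh
  linear_combination (4 * (((‖h‖ ^ 2)⁻¹ : ℝ) : ℂ) * br v h * br w h) * this

/-- the pairing as a linear map -/
noncomputable def ceb_brL (ζ : Cd d) : Ed d →L[ℝ] ℂ :=
  ∑ i, (ζ i) • (Complex.ofRealCLM.comp (EuclideanSpace.proj i : Ed d →L[ℝ] ℝ))

theorem ceb_brL_apply (ζ : Cd d) (Y : Ed d) : ceb_brL ζ Y = br ζ Y := by
  unfold ceb_brL br
  rw [sum_apply]
  rfl

/-- the derivative of the norm -/
theorem ceb_norm {y x : Ed d} (h : x ≠ y) :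
    HasFDerivAt (fun x : Ed d => ‖x - y‖) (‖x - y‖⁻¹ • innerSL ℝ (x - y)) x := by
  have h0 : ‖x - y‖ ≠ 0 := norm_ne_zero_iff.2 (sub_ne_zero.2 h)
  have h1 : HasFDerivAt (fun x : Ed d => x - y) (ContinuousLinearMap.id ℝ (Ed d)) x :=
    (hasFDerivAt_id x).sub_const y
  have h2 : HasFDerivAt (fun x : Ed d => ‖x - y‖ ^ 2) ((2 : ℝ) • innerSL ℝ (x - y)) x := by
    refine h1.norm_sq.congr_fderiv ?_
    refine ContinuousLinearMap.ext fun z => ?_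
    simp [two_mul]
  have h3 := h2.sqrt (pow_ne_zero 2 h0)
  have e : (fun x : Ed d => √(‖x - y‖ ^ 2)) = fun x : Ed d => ‖x - y‖ := by
    funext z
    exact Real.sqrt_sq (norm_nonneg _)
  rw [e] at h3
  refine h3.congr_fderiv ?_
  rw [Real.sqrt_sq (norm_nonneg _), smul_smul]
  congr 1
  field_simp

theorem ceb_invpow (n : ℕ) {y x : Ed d} (h : x ≠ y) :
    HasFDerivAt (fun x : Ed d => (‖x - y‖ ^ n)⁻¹)
      ((-((n : ℝ) * (‖x - y‖ ^ n)⁻¹ * (‖x - y‖ ^ 2)⁻¹)) • innerSL ℝ (x - y)) x := by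
  have h0 : ‖x - y‖ ≠ 0 := norm_ne_zero_iff.2 (sub_ne_zero.2 h)
  have h1 := (ceb_norm h).pow n
  have h2 := (hasDerivAt_inv (pow_ne_zero n h0)).comp_hasFDerivAt x h1
  refine h2.congr_fderiv ?_
  rw [smul_smul, smul_smul]
  congr 1
  rcases n with _ | n
  · simp
  · rw [Nat.add_sub_cancel, nsmul_eq_mul]
    field_simp
    ring

theorem KV_cda {y x : Ed d} (h : x ≠ y) (ζ : Cd d) : ContDiffAt ℝ ((⊤ : ℕ∞) : WithTop ℕ∞) (KV y ζ) x := by
  have h0 : x - y ≠ 0 := sub_ne_zero.2 h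
  have h1 : ContDiffAt ℝ ((⊤ : ℕ∞) : WithTop ℕ∞) (fun x : Ed d => x - y) x :=
    contDiffAt_id.sub contDiffAt_const
  have h2 : ContDiffAt ℝ ((⊤ : ℕ∞) : WithTop ℕ∞) (fun x : Ed d => (‖x - y‖ ^ (d - 2))⁻¹) x :=
    ((h1.norm ℝ h0).pow (d - 2)).inv (pow_ne_zero _ (norm_ne_zero_iff.2 h0))
  have h3 : ContDiffAt ℝ ((⊤ : ℕ∞) : WithTop ℕ∞) (fun x : Ed d => (((‖x - y‖ ^ (d - 2))⁻¹ : ℝ) : ℂ)) x :=
    Complex.ofRealCLM.contDiff.contDiffAt.comp x h2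
  have h4 : ContDiffAt ℝ ((⊤ : ℕ∞) : WithTop ℕ∞) (fun x : Ed d => br ζ (iv y x)) x := by
    have h5 : ContDiffAt ℝ ((⊤ : ℕ∞) : WithTop ℕ∞) (fun x : Ed d => ceb_brL ζ (iv y x)) x :=
      (ceb_brL ζ).contDiff.contDiffAt.comp x (iv_cda h)
    have e : (fun x : Ed d => ceb_brL ζ (iv y x)) = fun x : Ed d => br ζ (iv y x) :=
      funext fun x => ceb_brL_apply _ _
    rwa [e] at h5
  exact h3.mul h4.cexp

/-- PROOF. `K = |h|^{2-d} e^{ζ·Y}`, `h = x-y`. `∂_i |h|^{2-d} = (2-d) |h|^{-d} h_i = |h|^{2-d} (2-d) h_i / |h|²`;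
`∂_i (ζ·Y) = |h|^{-2} (ζ_i - 2 (ζ·h) h_i/|h|²) = |h|^{-2} (rf h ζ)_i` (`fderiv_iv`). -/
theorem pd_KV (hd : 2 ≤ d) {y x : Ed d} (h : x ≠ y) (ζ : Cd d) (i : Fin d) :
    pd i (KV y ζ) x = KV y ζ x * ((((‖x - y‖ ^ 2)⁻¹ : ℝ) : ℂ) *
      (rf (x - y) ζ i - ((d : ℂ) - 2) * (((x - y) i : ℝ) : ℂ))) := by
  have hn := ceb_invpow (d - 2) h
  have h1 := Complex.ofRealCLM.hasFDerivAt.comp x hn
  have h2 : HasFDerivAt (iv y) (fderiv ℝ (iv y) x) x :=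
    ((iv_cda h).differentiableAt (by norm_num)).hasFDerivAt
  have h3 : HasFDerivAt (fun x => br ζ (iv y x)) ((ceb_brL ζ).comp (fderiv ℝ (iv y) x)) x := by
    have h5 := (ceb_brL ζ).hasFDerivAt.comp x h2
    have e : (ceb_brL ζ) ∘ (iv y) = fun x : Ed d => br ζ (iv y x) :=
      funext fun x => ceb_brL_apply _ _
    rwa [e] at h5
  have h4 := h1.mul h3.cexp
  have h5 : HasFDerivAt (KV y ζ) _ x := h4
  unfold pd
  rw [h5.fderiv]
  have e1 : (ceb_brL ζ) (fderiv ℝ (iv y) x (eb i)) = (((‖x - y‖ ^ 2)⁻¹ : ℝ) : ℂ) * rf (x - y) ζ i := by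
    rw [fderiv_iv h, map_smul, map_sub, map_smul, ceb_brL_apply, ceb_brL_apply, ceb_rf_apply]
    have e2 : br ζ (eb i) = ζ i := by
      unfold br eb
      rw [Finset.sum_eq_single i]
      · simp
      · intro j _ hj
        simp [hj]
      · intro hi
        exact absurd (Finset.mem_univ i) hi
    have e3 : ⟪x - y, eb i⟫_ℝ = (x - y) i := by
      unfold eb
      rw [EuclideanSpace.inner_single_right]
      simp
    rw [e2, e3, Complex.real_smul, Complex.real_smul]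
    push_cast
    ring
  have e4 : ⟪x - y, eb i⟫_ℝ = (x - y) i := by
    unfold eb
    rw [EuclideanSpace.inner_single_right]
    simp
  have e5 : (((d - 2 : ℕ) : ℝ) : ℂ) = (d : ℂ) - 2 := by
    rw [Complex.ofReal_natCast, Nat.cast_sub hd]
    norm_num
  show (((‖x - y‖ ^ (d - 2))⁻¹ : ℝ) : ℂ) •
      (Complex.exp (br ζ (iv y x)) • ((ceb_brL ζ) (fderiv ℝ (iv y) x (eb i)))) +
    Complex.exp (br ζ (iv y x)) •
      (((-(((d - 2 : ℕ) : ℝ) * (‖x - y‖ ^ (d - 2))⁻¹ * (‖x - y‖ ^ 2)⁻¹) * ⟪x - y, eb i⟫_ℝ : ℝ)) : ℂ) = _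
  rw [e1, e4]
  unfold KV
  rw [smul_eq_mul, smul_eq_mul, smul_eq_mul, Complex.ofReal_mul, Complex.ofReal_neg,
    Complex.ofReal_mul, Complex.ofReal_mul, e5]
  ring

end Pool.Agent.Lib.MP_79abb3_an.W.C
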