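import Pool.Agent.Lib.MP_79abb3_an.W.CDef

/-!
Theorem W (MP_79abb3_an), block C (density of the drifts). Exponentials.
-/

set_option autoImplicit false
set_option linter.unusedSectionVars false
set_option linter.unusedVariables false

open MeasureTheory Set Filter Topology Function Metric
open scoped ENNReal InnerProductSpace BoundedContinuousFunction

namespace Pool.Agent.Lib.MP_79abb3_an.W.C

variable {d : ℕ} {F : Type} [NormedAddCommGroup F] [NormedSpace ℝ F]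

private noncomputable def cfb_L (ζ : Cd d) : Ed d →L[ℝ] ℂ :=
  ∑ i, (ζ i) • (Complex.ofRealCLM.comp (EuclideanSpace.proj i : Ed d →L[ℝ] ℝ))

private theorem cfb_L_apply (ζ : Cd d) (Y : Ed d) : cfb_L ζ Y = br ζ Y := by
  unfold cfb_L br
  simp

private theorem cfb_L_le (ζ : Cd d) : ‖cfb_L ζ‖ ≤ ‖ζ‖ := by
  refine ContinuousLinearMap.opNorm_le_bound _ (norm_nonneg _) fun Y => ?_
  rw [cfb_L_apply, EuclideanSpace.norm_eq ζ, EuclideanSpace.norm_eq Y]
  refine (norm_sum_le _ _).trans ?_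
  have h1 : ∀ i ∈ Finset.univ, ‖ζ i * ((Y i : ℝ) : ℂ)‖ = ‖ζ i‖ * ‖Y i‖ := fun i _ => by
    rw [norm_mul, Complex.norm_real]
  rw [Finset.sum_congr rfl h1]
  exact Real.sum_mul_le_sqrt_mul_sqrt _ _ _

theorem smo_exp (ζ : Cd d) : Smo (fun Y : Ed d => Complex.exp (br ζ Y)) := by
  have h : (fun Y : Ed d => Complex.exp (br ζ Y)) = fun Y => Complex.exp (cfb_L ζ Y) := by
    ext1 Y
    rw [cfb_L_apply]
  rw [h]
  exact (cfb_L ζ).contDiff.cexp

/-- PROOF: induction on `j`: `fderiv` of `exp (br ζ Y)` is `exp (br ζ Y) • L`, `L v = br ζ v`, `‖L‖ ≤ ‖ζ‖`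
(or `iteratedFDeriv` of a composition with a linear map, `norm_iteratedFDeriv_comp_le`-free:
`iteratedFDeriv j (exp ∘ L) Y v = (∏ L (v i)) exp (L Y)`); `|exp (br ζ Y)| = exp ⟨rv ζ, Y⟩`. -/
theorem exp_bound (ζ : Cd d) (j : ℕ) (Y : Ed d) :
    ‖iteratedFDeriv ℝ j (fun Y : Ed d => Complex.exp (br ζ Y)) Y‖ ≤ ‖ζ‖ ^ j * Real.exp ⟪rv ζ, Y⟫_ℝ := by
  induction j with
  | zero =>
    rw [norm_iteratedFDeriv_zero, pow_zero, one_mul, Complex.norm_exp]
    refine Real.exp_le_exp.2 (le_of_eq ?_)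
    unfold br rv
    rw [Complex.re_sum, PiLp.inner_apply]
    refine Finset.sum_congr rfl fun i _ => ?_
    simp [mul_comm]
  | succ j ih =>
    rw [← norm_iteratedFDeriv_fderiv]
    have hE := smo_exp ζ
    let Λ : ℂ →L[ℝ] (Ed d →L[ℝ] ℂ) :=
      ((ContinuousLinearMap.lsmul ℝ ℂ : ℂ →L[ℝ] (Ed d →L[ℝ] ℂ) →L[ℝ] (Ed d →L[ℝ] ℂ))).flip (cfb_L ζ)
    have hΛ : ∀ c, Λ c = c • cfb_L ζ := fun c => rfl
    have hΛn : ‖Λ‖ ≤ ‖ζ‖ := by
      refine ContinuousLinearMap.opNorm_le_bound _ (norm_nonneg _) fun c => ?_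
      rw [hΛ, norm_smul, mul_comm]
      exact mul_le_mul_of_nonneg_right (cfb_L_le ζ) (norm_nonneg _)
    have h1 : fderiv ℝ (fun Y : Ed d => Complex.exp (br ζ Y)) =
        Λ ∘ fun Y : Ed d => Complex.exp (br ζ Y) := by
      ext1 Z
      have h2 : (fun Y : Ed d => Complex.exp (br ζ Y)) = fun Y => Complex.exp (cfb_L ζ Y) := by
        ext1 Y
        rw [cfb_L_apply]
      show fderiv ℝ (fun Y : Ed d => Complex.exp (br ζ Y)) Z = Λ (Complex.exp (br ζ Z))
      rw [h2, hΛ, ← cfb_L_apply]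
      exact ((cfb_L ζ).hasFDerivAt.cexp).fderiv
    rw [h1]
    refine (Λ.norm_iteratedFDeriv_comp_left (n := j) (ContDiff.contDiffAt (ContDiff.of_le hE
      (by exact_mod_cast le_top))) le_rfl).trans ?_
    rw [pow_succ', mul_assoc]
    exact mul_le_mul hΛn ih (norm_nonneg _) (norm_nonneg _)

/-- the plane exponential is `exp (br (a e + i ξ) Y)` -/
theorem pe_eq (a : ℝ) (e ξ : Ed d) :
    pe a e ξ = fun Y => Complex.exp (br ((a : ℂ) • cv e + Complex.I • cv ξ) Y) := by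
  ext1 Y
  unfold pe
  congr 1
  unfold br cv
  rw [PiLp.inner_apply, PiLp.inner_apply]
  push_cast
  rw [Finset.mul_sum, Finset.mul_sum, ← Finset.sum_add_distrib]
  refine Finset.sum_congr rfl fun i _ => ?_
  simp
  ring

theorem rv_eta (a : ℝ) (e ξ : Ed d) : rv ((a : ℂ) • cv e + Complex.I • cv ξ) = a • e := by
  ext i
  unfold rv cv
  simp

end Pool.Agent.Lib.MP_79abb3_an.W.C
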