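import Mathlib
import Pool.Agent.Lib.MP_79abb3_an.W.CDef

section

/-!
Theorem W (MP_79abb3_an), block C (density of the drifts). Holomorphic maps with values in `C(Q, ℂ)`.
-/

set_option autoImplicit false
set_option linter.unusedSectionVars false
set_option linter.unusedVariables false

open MeasureTheory Set Filter Topology Function Metric
open scoped ENNReal InnerProductSpace BoundedContinuousFunction

namespace Pool.Agent.Lib.MP_79abb3_an.W.C

variable {d : ℕ} {F : Type} [NormedAddCommGroup F] [NormedSpace ℝ F]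

/-- PROOF. `‖g t' - g t - (t'-t) g' t‖ ≤ |t'-t| sup_{s ∈ [t,t']} ‖g' s - g' t‖`: for every `x` by the mean value inequality
(`Convex.norm_image_sub_le_of_norm_hasDerivWithin_le` applied to `s ↦ g s x - s g' t x` on a small ball around `t`), uniformly in `x`;
the right side is `o(|t'-t|)` by the continuity of `g'` in `C(Q, ℂ)`. -/
theorem holo_CQ {Q : Type} [TopologicalSpace Q] [CompactSpace Q] {U : Set ℂ} (hU : IsOpen U)
    {g g' : ℂ → C(Q, ℂ)} (hg : ∀ t ∈ U, ∀ x, HasDerivAt (fun s => g s x) (g' t x) t) (hc : ContinuousOn g' U) :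
    DifferentiableOn ℂ g U := by
  intro t ht
  have key : HasDerivAt g (g' t) t := by
    rw [hasDerivAt_iff_isLittleO, Asymptotics.isLittleO_iff]
    intro ε hε
    have h1 : ∀ᶠ s in 𝓝 t, s ∈ U ∧ ‖g' s - g' t‖ ≤ ε := by
      have h2 : ContinuousAt g' t := hc.continuousAt (hU.mem_nhds ht)
      have h3 := Metric.continuousAt_iff.1 h2 ε hε
      obtain ⟨δ, hδ, h4⟩ := h3
      filter_upwards [hU.mem_nhds ht, Metric.ball_mem_nhds t hδ] with s hs hs'
      refine ⟨hs, ?_⟩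
      have := h4 (Metric.mem_ball.1 hs')
      rw [dist_eq_norm] at this
      exact this.le
    obtain ⟨δ, hδ, h2⟩ := Metric.eventually_nhds_iff_ball.1 h1
    filter_upwards [Metric.ball_mem_nhds t hδ] with t' ht'
    rw [ContinuousMap.norm_le _ (by positivity)]
    intro x
    have h3 : ∀ s ∈ ball t δ, HasDerivWithinAt (fun s => g s x - s * g' t x) (g' s x - g' t x)
        (ball t δ) s := by
      intro s hs
      have h4 := (hg s (h2 s hs).1 x).sub ((hasDerivAt_id s).mul_const (g' t x))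
      rw [one_mul] at h4
      exact h4.hasDerivWithinAt
    have h5 : ∀ s ∈ ball t δ, ‖g' s x - g' t x‖ ≤ ε := by
      intro s hs
      refine le_trans ?_ (h2 s hs).2
      have := (g' s - g' t).norm_coe_le_norm x
      simpa using this
    have h6 := (convex_ball t δ).norm_image_sub_le_of_norm_hasDerivWithin_le h3 h5
      (mem_ball_self hδ) ht'
    have e : (g t' - g t - (t' - t) • g' t) x = (g t' x - t' * g' t x) - (g t x - t * g' t x) := by
      simp only [ContinuousMap.sub_apply, ContinuousMap.smul_apply, smul_eq_mul]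
      ring
    rw [e]
    exact h6
  exact key.differentiableAt.differentiableWithinAt

end Pool.Agent.Lib.MP_79abb3_an.W.C
end

section

/-!
Theorem W (MP_79abb3_an), block C (density of the drifts). Moving the pole along a segment is analytic.
-/

set_option autoImplicit false
set_option linter.unusedSectionVars false
set_option linter.unusedVariables false

open MeasureTheory Set Filter Topology Function Metric
open scoped ENNReal InnerProductSpace BoundedContinuousFunction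

namespace Pool.Agent.Lib.MP_79abb3_an.W.C

variable {d : ℕ} {F : Type} [NormedAddCommGroup F] [NormedSpace ℝ F]

private noncomputable def cgdS (y₀ h : Ed d) (t : ℂ) (x : Ed d) : ℂ :=
  ((‖x - y₀‖ ^ 2 : ℝ) : ℂ) - 2 * t * ((⟪x - y₀, h⟫_ℝ : ℝ) : ℂ) + t ^ 2 * ((‖h‖ ^ 2 : ℝ) : ℂ)

private noncomputable def cgdS' (y₀ h : Ed d) (t : ℂ) (x : Ed d) : ℂ :=
  -(2 * ((⟪x - y₀, h⟫_ℝ : ℝ) : ℂ)) + 2 * t * ((‖h‖ ^ 2 : ℝ) : ℂ)

private noncomputable def cgdN (ζ : Cd d) (y₀ h : Ed d) (t : ℂ) (x : Ed d) : ℂ :=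
  br ζ (x - y₀) - t * br ζ h

private noncomputable def cgdf (ζ : Cd d) (y₀ h : Ed d) (t : ℂ) (x : Ed d) : ℂ :=
  Complex.exp (-(((d - 2 : ℕ) : ℂ) / 2) * Complex.log (cgdS y₀ h t x)) *
    Complex.exp (cgdN ζ y₀ h t x / cgdS y₀ h t x)

private noncomputable def cgdf' (ζ : Cd d) (y₀ h : Ed d) (t : ℂ) (x : Ed d) : ℂ :=
  cgdf ζ y₀ h t x * (-(((d - 2 : ℕ) : ℂ) / 2) * (cgdS' y₀ h t x / cgdS y₀ h t x) +
    ((-br ζ h) * cgdS y₀ h t x - cgdN ζ y₀ h t x * cgdS' y₀ h t x) / cgdS y₀ h t x ^ 2)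

private lemma cgd_br_cont (ζ : Cd d) : Continuous fun x : Ed d => br ζ x := by
  unfold br
  fun_prop

private lemma cgd_br_lin (ζ : Cd d) (a : ℝ) (x y : Ed d) : br ζ (x + a • y) = br ζ x + a * br ζ y := by
  unfold br
  rw [Finset.mul_sum, ← Finset.sum_add_distrib]
  refine Finset.sum_congr rfl fun i _ => ?_
  simp only [PiLp.add_apply, PiLp.smul_apply, smul_eq_mul]
  push_cast
  ring

private lemma cgd_br_smul (ζ : Cd d) (a : ℝ) (y : Ed d) : br ζ (a • y) = a * br ζ y := by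
  have h1 := cgd_br_lin ζ a 0 y
  have h2 : br ζ (0 : Ed d) = 0 := by simp [br]
  rw [zero_add, h2, zero_add] at h1
  exact h1

private lemma cgd_S_cont (y₀ h : Ed d) {P : Type} [TopologicalSpace P] {a : P → ℂ} {c : P → Ed d}
    (ha : Continuous a) (hc : Continuous c) : Continuous fun p => cgdS y₀ h (a p) (c p) := by
  unfold cgdS
  fun_prop

private lemma cgd_S'_cont (y₀ h : Ed d) {P : Type} [TopologicalSpace P] {a : P → ℂ} {c : P → Ed d}
    (ha : Continuous a) (hc : Continuous c) : Continuous fun p => cgdS' y₀ h (a p) (c p) := by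
  unfold cgdS'
  fun_prop

private lemma cgd_N_cont (ζ : Cd d) (y₀ h : Ed d) {P : Type} [TopologicalSpace P] {a : P → ℂ}
    {c : P → Ed d} (ha : Continuous a) (hc : Continuous c) :
    Continuous fun p => cgdN ζ y₀ h (a p) (c p) := by
  unfold cgdN
  exact ((cgd_br_cont ζ).comp (hc.sub continuous_const)).sub (ha.mul continuous_const)

private lemma cgd_f_cont (ζ : Cd d) (y₀ h : Ed d) {P : Type} [TopologicalSpace P] {a : P → ℂ}
    {c : P → Ed d} (ha : Continuous a) (hc : Continuous c)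
    (hsl : ∀ p, 0 < (cgdS y₀ h (a p) (c p)).re) :
    Continuous fun p => cgdf ζ y₀ h (a p) (c p) := by
  unfold cgdf
  have hSc := cgd_S_cont y₀ h ha hc
  have hNc := cgd_N_cont ζ y₀ h ha hc
  exact (Complex.continuous_exp.comp (continuous_const.mul (hSc.clog fun p => Or.inl (hsl p)))).mul
    (Complex.continuous_exp.comp (hNc.div hSc fun p => Complex.slitPlane_ne_zero (Or.inl (hsl p))))

private lemma cgd_f'_cont (ζ : Cd d) (y₀ h : Ed d) {P : Type} [TopologicalSpace P] {a : P → ℂ}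
    {c : P → Ed d} (ha : Continuous a) (hc : Continuous c)
    (hsl : ∀ p, 0 < (cgdS y₀ h (a p) (c p)).re) :
    Continuous fun p => cgdf' ζ y₀ h (a p) (c p) := by
  unfold cgdf'
  have hSc := cgd_S_cont y₀ h ha hc
  have hS'c := cgd_S'_cont y₀ h ha hc
  have hNc := cgd_N_cont ζ y₀ h ha hc
  have hfc := cgd_f_cont ζ y₀ h ha hc hsl
  have hSn : ∀ p, cgdS y₀ h (a p) (c p) ≠ 0 := fun p =>
    Complex.slitPlane_ne_zero (Or.inl (hsl p))
  exact hfc.mul ((continuous_const.mul (hS'c.div hSc hSn)).add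
      (((continuous_const.mul hSc).sub (hNc.mul hS'c)).div (hSc.pow 2) fun p => pow_ne_zero 2 (hSn p)))

private lemma cgd_S_real (y₀ h : Ed d) (s : ℝ) (x : Ed d) :
    cgdS y₀ h (s : ℂ) x = ((‖x - (y₀ + s • h)‖ ^ 2 : ℝ) : ℂ) := by
  have h1 : ‖x - (y₀ + s • h)‖ ^ 2 = ‖x - y₀‖ ^ 2 - 2 * s * ⟪x - y₀, h⟫_ℝ + s ^ 2 * ‖h‖ ^ 2 := by
    rw [← sub_sub, norm_sub_sq_real, inner_smul_right, norm_smul, mul_pow, Real.norm_eq_abs, sq_abs]
    ring
  rw [h1, cgdS]
  push_cast
  ring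

private lemma cgd_S_der (y₀ h : Ed d) (t : ℂ) (x : Ed d) :
    HasDerivAt (fun t => cgdS y₀ h t x) (cgdS' y₀ h t x) t := by
  unfold cgdS cgdS'
  have h1 := (((hasDerivAt_id t).const_mul (2 : ℂ)).mul_const ((⟪x - y₀, h⟫_ℝ : ℝ) : ℂ)).const_sub
    ((‖x - y₀‖ ^ 2 : ℝ) : ℂ)
  have h2 := ((hasDerivAt_id t).pow 2).mul_const ((‖h‖ ^ 2 : ℝ) : ℂ)
  refine (h1.add h2).congr_deriv ?_
  simp

private lemma cgd_N_der (ζ : Cd d) (y₀ h : Ed d) (t : ℂ) (x : Ed d) :
    HasDerivAt (fun t => cgdN ζ y₀ h t x) (-br ζ h) t := by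
  unfold cgdN
  have h1 := ((hasDerivAt_id t).mul_const (br ζ h)).const_sub (br ζ (x - y₀))
  refine h1.congr_deriv ?_
  simp

private lemma cgd_f_der (ζ : Cd d) (y₀ h : Ed d) (t : ℂ) (x : Ed d) (hS : 0 < (cgdS y₀ h t x).re) :
    HasDerivAt (fun t => cgdf ζ y₀ h t x) (cgdf' ζ y₀ h t x) t := by
  have hsl : cgdS y₀ h t x ∈ Complex.slitPlane := Or.inl hS
  have hne : cgdS y₀ h t x ≠ 0 := Complex.slitPlane_ne_zero hsl
  have h1 := (((cgd_S_der y₀ h t x).clog hsl).const_mul (-(((d - 2 : ℕ) : ℂ) / 2))).cexp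
  have h2 := ((cgd_N_der ζ y₀ h t x).div (cgd_S_der y₀ h t x) hne).cexp
  refine (h1.mul h2).congr_deriv ?_
  unfold cgdf' cgdf
  simp only [Pi.div_apply]
  ring

private lemma cgd_real (ζ : Cd d) (y₀ h : Ed d) (s : ℝ) (x : Ed d) (hx : x ≠ y₀ + s • h) :
    cgdf ζ y₀ h (s : ℂ) x = KV (y₀ + s • h) ζ x := by
  set r : ℝ := ‖x - (y₀ + s • h)‖ with hr
  have hr0 : 0 < r := norm_pos_iff.2 (sub_ne_zero.2 hx)
  unfold cgdf KV
  rw [cgd_S_real, ← hr]
  congr 1
  · rw [← Complex.ofReal_log (by positivity), Real.log_pow]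
    have h1 : -(((d - 2 : ℕ) : ℂ) / 2) * (((2 : ℕ) * Real.log r : ℝ) : ℂ) =
        ((-((d - 2 : ℕ) * Real.log r) : ℝ) : ℂ) := by
      push_cast
      ring
    rw [h1, ← Complex.ofReal_exp, Real.exp_neg, Real.exp_nat_mul, Real.exp_log hr0]
  · congr 1
    rw [iv, cgd_br_smul, ← hr]
    have h1 : x - (y₀ + s • h) = (x - y₀) + (-s) • h := by
      rw [neg_smul]; abel
    rw [h1, cgd_br_lin, cgdN]
    push_cast
    rw [div_eq_mul_inv]
    ring

private lemma cgd_gen {X : Type} [TopologicalSpace X] {Q : Set X} (hQ : IsCompact Q) {U : Set ℂ}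
    (hU : IsOpen U) (f f' : ℂ → X → ℂ)
    (hfc : Continuous fun p : U × Q => f (p.1 : ℂ) (p.2 : X))
    (hf'c : Continuous fun p : U × Q => f' (p.1 : ℂ) (p.2 : X))
    (hder : ∀ t ∈ U, ∀ x ∈ Q, HasDerivAt (fun s => f s x) (f' t x) t) :
    ∃ g : ℂ → C(Q, ℂ), DifferentiableOn ℂ g U ∧ ∀ t ∈ U, ∀ x : Q, g t x = f t (x : X) := by
  have : CompactSpace Q := isCompact_iff_compactSpace.1 hQ
  obtain ⟨G, hG⟩ : ∃ G : C(U, C(Q, ℂ)), ∀ (t : U) (x : Q), G t x = f (t : ℂ) (x : X) :=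
    ⟨ContinuousMap.curry ⟨_, hfc⟩, fun t x => rfl⟩
  obtain ⟨G', hG'⟩ : ∃ G' : C(U, C(Q, ℂ)), ∀ (t : U) (x : Q), G' t x = f' (t : ℂ) (x : X) :=
    ⟨ContinuousMap.curry ⟨_, hf'c⟩, fun t x => rfl⟩
  classical
  obtain ⟨g, hg⟩ : ∃ g : ℂ → C(Q, ℂ), ∀ t : U, g (t : ℂ) = G t :=
    ⟨fun t => if ht : t ∈ U then G ⟨t, ht⟩ else 0, fun t => dif_pos t.2⟩
  obtain ⟨g', hg'⟩ : ∃ g' : ℂ → C(Q, ℂ), ∀ t : U, g' (t : ℂ) = G' t :=
    ⟨fun t => if ht : t ∈ U then G' ⟨t, ht⟩ else 0, fun t => dif_pos t.2⟩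
  have hgv : ∀ t, t ∈ U → ∀ x : Q, g t x = f t (x : X) := fun t ht x => by
    rw [hg ⟨t, ht⟩]
    exact hG _ _
  have hg'v : ∀ t, t ∈ U → ∀ x : Q, g' t x = f' t (x : X) := fun t ht x => by
    rw [hg' ⟨t, ht⟩]
    exact hG' _ _
  refine ⟨g, holo_CQ hU (g := g) (g' := g') (fun t ht x => ?_) ?_, hgv⟩
  · rw [hg'v t ht x]
    refine (hder t ht x x.2).congr_of_eventuallyEq ?_
    filter_upwards [hU.mem_nhds ht] with s hs
    exact hgv s hs x
  · rw [continuousOn_iff_continuous_domRestrict]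
    have h1 : U.domRestrict g' = G' := funext fun t => hg' t
    rw [h1]
    exact G'.continuous

private lemma cgd_open {Q : Set (Ed d)} (hQ : IsCompact Q) {y₀ h : Ed d}
    (hseg : ∀ s ∈ Icc (0 : ℝ) 1, y₀ + s • h ∉ Q) :
    ∃ U : Set ℂ, IsOpen U ∧ IsPreconnected U ∧ (∀ s ∈ Icc (0 : ℝ) 1, (s : ℂ) ∈ U) ∧
      ∀ t ∈ U, ∀ x ∈ Q, 0 < (cgdS y₀ h t x).re := by
  set W : Set ℂ := {t | ∀ x ∈ Q, 0 < (cgdS y₀ h t x).re} with hW
  have hWo : IsOpen W := by
    rw [isOpen_iff_eventually]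
    intro t ht
    refine hQ.eventually_forall_of_forall_eventually fun x hx => ?_
    have h1 : Continuous fun p : ℂ × Ed d => (cgdS y₀ h p.1 p.2).re :=
      Complex.continuous_re.comp (cgd_S_cont y₀ h continuous_fst continuous_snd)
    exact h1.continuousAt.eventually (lt_mem_nhds (ht x hx))
  set K : Set ℂ := Complex.ofRealCLM '' Icc (0 : ℝ) 1 with hK
  have hKc : IsCompact K := isCompact_Icc.image Complex.ofRealCLM.continuous
  have hKconv : Convex ℝ K :=
    (convex_Icc (0 : ℝ) 1).linear_image (Complex.ofRealCLM : ℝ →ₗ[ℝ] ℂ)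
  have hKW : K ⊆ W := by
    rintro _ ⟨s, hs, rfl⟩ x hx
    show 0 < (cgdS y₀ h (s : ℂ) x).re
    rw [cgd_S_real, Complex.ofReal_re]
    have h1 : x - (y₀ + s • h) ≠ 0 := fun h2 => hseg s hs (by rw [← sub_eq_zero.1 h2]; exact hx)
    have := norm_pos_iff.2 h1
    positivity
  obtain ⟨ε, hε, hKε⟩ := hKc.exists_thickening_subset_open hWo hKW
  exact ⟨thickening ε K, isOpen_thickening, (hKconv.thickening ε).isPreconnected,
    fun s hs => self_subset_thickening hε K ⟨s, hs, rfl⟩, fun t ht x hx => hKε ht x hx⟩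

/-- PROOF. For `t ∈ ℂ` near `[0,1]` and `x ∈ Q` put `σ(t,x) = |x-y₀|² - 2t⟨x-y₀,h⟩ + t²|h|²`; for real `t` this is
`|x-y₀-th|² > 0`. By compactness of `[0,1] × Q` there is `ε > 0` with `Re σ > 0` on `U × Q`, `U = {-ε < Re t < 1+ε, |Im t| < ε}` (convex).
`f(t,x) = exp(-((d-2)/2) log σ) exp((br ζ (x-y₀) - t br ζ h)/σ)` is jointly continuous on `U × Q`, holomorphic in `t`, its `t`-derivative is
given by a jointly continuous formula; for `t = s` real, `f(s,x) = KV (y₀+s h) ζ x`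
(`exp(-((d-2)/2) log |·|²) = (|·|^{d-2})⁻¹`). Joint continuity on `U × Q` gives continuity of `t ↦ f(t,·) ∈ C(Q,ℂ)` and of the derivative;
`holo_CQ`. -/
theorem seg_holo (hd : 2 ≤ d) {Q : Set (Ed d)} (hQ : IsCompact Q) {y₀ h : Ed d}
    (hseg : ∀ s ∈ Icc (0 : ℝ) 1, y₀ + s • h ∉ Q) (ζ : Cd d) :
    ∃ (U : Set ℂ) (g : ℂ → C(Q, ℂ)), IsOpen U ∧ IsPreconnected U ∧ (∀ s ∈ Icc (0 : ℝ) 1, (s : ℂ) ∈ U) ∧
      DifferentiableOn ℂ g U ∧ ∀ s ∈ Icc (0 : ℝ) 1, ∀ x : Q, g (s : ℂ) x = KV (y₀ + s • h) ζ (x : Ed d) := by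
  obtain ⟨U, hUo, hUc, hUK, hpos⟩ := cgd_open hQ hseg
  have ha : Continuous fun p : U × Q => (p.1 : ℂ) := continuous_subtype_val.comp continuous_fst
  have hc : Continuous fun p : U × Q => (p.2 : Ed d) := continuous_subtype_val.comp continuous_snd
  have hsl : ∀ p : U × Q, 0 < (cgdS y₀ h (p.1 : ℂ) (p.2 : Ed d)).re := fun p =>
    hpos p.1 p.1.2 p.2 p.2.2
  obtain ⟨g, hg1, hg2⟩ := cgd_gen hQ hUo (cgdf ζ y₀ h) (cgdf' ζ y₀ h)
    (cgd_f_cont ζ y₀ h ha hc hsl) (cgd_f'_cont ζ y₀ h ha hc hsl)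
    fun t ht x hx => cgd_f_der ζ y₀ h t x (hpos t ht x hx)
  refine ⟨U, g, hUo, hUc, hUK, hg1, fun s hs x => ?_⟩
  rw [hg2 _ (hUK s hs) x]
  refine cgd_real ζ y₀ h s x fun h2 => hseg s hs ?_
  rw [← h2]
  exact x.2

end Pool.Agent.Lib.MP_79abb3_an.W.C
end

section

/-!
Theorem W (MP_79abb3_an), block C (density of the drifts). Mean value property with a smooth radial weight.
-/

set_option autoImplicit false
set_option linter.unusedSectionVars false
set_option linter.unusedVariables false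

open MeasureTheory Set Filter Topology Function Metric
open scoped ENNReal InnerProductSpace BoundedContinuousFunction

namespace Pool.Agent.Lib.MP_79abb3_an.W.C

variable {d : ℕ} {F : Type} [NormedAddCommGroup F] [NormedSpace ℝ F]

private lemma cga_pd_smo {f : Ed d → F} (hf : Smo f) (i : Fin d) : Smo (pd i f) := by
  have h1 : ContDiff ℝ ((⊤ : ℕ∞) : WithTop ℕ∞) (fderiv ℝ f) := hf.fderiv_right (by simp)
  exact h1.clm_apply contDiff_const

private lemma cga_diff {f : Ed d → F} (hf : Smo f) : Differentiable ℝ f :=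
  ContDiff.differentiable hf (by simp)

/-- integration by parts. PROOF: `integral_mul_fderiv_eq_neg_fderiv_mul_of_integrable` (or the divergence theorem for compactly supported
functions), component by component. -/
theorem ibp_lapl {u Θ : Ed d → ℝ} (hu : Smo u) (hΘ : Smo Θ) (hc : HasCompactSupport Θ) :
    ∑ i, ∫ x, pd i u x * pd i Θ x = -∫ x, lapl u x * Θ x := by
  have hΘc : Continuous Θ := ContDiff.continuous hΘ
  have hi : ∀ i, Integrable fun x => pd i (pd i u) x * Θ x := fun i =>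
    ((ContDiff.continuous (cga_pd_smo (cga_pd_smo hu i) i)).mul hΘc).integrable_of_hasCompactSupport
      hc.mul_left
  have h1 : ∀ i, ∫ x, pd i u x * pd i Θ x = -∫ x, pd i (pd i u) x * Θ x := by
    intro i
    have hpd : Smo (pd i u) := cga_pd_smo hu i
    have hpΘ : HasCompactSupport (pd i Θ) := hc.fderiv_apply ℝ (eb i)
    exact integral_mul_fderiv_eq_neg_fderiv_mul_of_integrable (f := pd i u) (g := Θ) (v := eb i)
      (hi i)
      (((ContDiff.continuous hpd).mul
        (ContDiff.continuous (cga_pd_smo hΘ i))).integrable_of_hasCompactSupport hpΘ.mul_left)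
      (((ContDiff.continuous hpd).mul hΘc).integrable_of_hasCompactSupport hc.mul_left)
      (fun x _ => cga_diff hpd x) (fun x _ => cga_diff hΘ x)
  simp only [h1]
  rw [Finset.sum_neg_distrib, ← integral_finsetSum _ fun i _ => hi i]
  congr 1
  refine integral_congr_ae (Eventually.of_forall fun x => ?_)
  simp only [lapl]
  rw [Finset.sum_mul]

/-! ### the profile -/

private noncomputable def cgaE' (x : ℝ) : ℝ := deriv expNegInvGlue x

private lemma cga_E_smooth : ContDiff ℝ ((⊤ : ℕ∞) : WithTop ℕ∞) expNegInvGlue :=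
  expNegInvGlue.contDiff

private lemma cga_E'_smooth : ContDiff ℝ ((⊤ : ℕ∞) : WithTop ℕ∞) cgaE' :=
  (contDiff_infty_iff_deriv.1 cga_E_smooth).2

private lemma cga_E_der (x : ℝ) : HasDerivAt expNegInvGlue (cgaE' x) x :=
  ((contDiff_infty_iff_deriv.1 cga_E_smooth).1 x).hasDerivAt

private lemma cga_E'_nonneg (x : ℝ) : 0 ≤ cgaE' x :=
  expNegInvGlue.monotone.deriv_nonneg

private lemma cga_E'_zero {x : ℝ} (hx : x ≤ 0) : cgaE' x = 0 := by
  have h1 : IsLocalMin expNegInvGlue x := Eventually.of_forall fun y => by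
    rw [expNegInvGlue.zero_of_nonpos hx]
    exact expNegInvGlue.nonneg y
  exact h1.deriv_eq_zero

private lemma cga_E'_pos : 0 < cgaE' (1 / 2) := by
  have h1 : HasDerivAt (fun x : ℝ => Real.exp (-x⁻¹)) (Real.exp (-(1 / 2 : ℝ)⁻¹) * -(-((1 / 2 : ℝ) ^ 2)⁻¹))
      (1 / 2) := ((hasDerivAt_inv (by norm_num : (1 / 2 : ℝ) ≠ 0)).neg).exp
  have h2 : expNegInvGlue =ᶠ[𝓝 (1 / 2 : ℝ)] fun x => Real.exp (-x⁻¹) := by
    filter_upwards [Ioi_mem_nhds (by norm_num : (0 : ℝ) < 1 / 2)] with x hx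
    rw [expNegInvGlue, if_neg (not_le.2 hx)]
  have h3 : cgaE' (1 / 2) = Real.exp (-(1 / 2 : ℝ)⁻¹) * -(-((1 / 2 : ℝ) ^ 2)⁻¹) := by
    rw [cgaE', h2.deriv_eq, h1.deriv]
  rw [h3, neg_neg]
  positivity

private lemma cga_arg_smo (d : ℕ) : ContDiff ℝ ((⊤ : ℕ∞) : WithTop ℕ∞) fun z : Ed d => 1 / 2 - ‖z‖ ^ 2 :=
  contDiff_const.sub (contDiff_norm_sq ℝ)

private lemma cga_big {d : ℕ} {z : Ed d} (hz : z ∉ closedBall (0 : Ed d) 1) : 1 / 2 - ‖z‖ ^ 2 ≤ 0 := by
  rw [mem_closedBall, dist_zero_right, not_le] at hz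
  nlinarith

private lemma cga_sum (z : Ed d) : z = ∑ i, z i • eb i := by
  ext j
  simp [eb, Pi.single_apply]

private lemma cga_lin (L : Ed d →L[ℝ] ℝ) (z : Ed d) : L z = ∑ i, z i * L (eb i) := by
  calc L z = L (∑ i, z i • eb i) := congrArg L (cga_sum z)
    _ = ∑ i, z i * L (eb i) := by
        rw [map_sum]
        exact Finset.sum_congr rfl fun i _ => by rw [map_smul, smul_eq_mul]

/-- PROOF. Let `β : ℝ → ℝ` be smooth, `β ≥ 0`, `β(s) = 0` for `s ≥ 1/2`, `β(0) > 0`, `κ₀(z) = β(‖z‖²)`, `κ = κ₀/∫κ₀` and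
`Θ(z) = (1/2) ∫_{‖z‖²}^1 β(s) ds` (normalised in the same way): smooth, support in the ball, `∂_i Θ = - z_i κ(z)`. For `0 ≤ s ≤ ρ` let
`F(s) = ∫ u(x+sz) κ(z) dz`; `F'(s) = ∫ ∑ z_i (∂_i u)(x+sz) κ(z) dz = -∫ ∑ (∂_i u)(x+sz) ∂_iΘ(z) dz = s ∫ (Δu)(x+sz) Θ(z) dz = 0`
(`ibp_lapl` for `z ↦ u(x+sz)`, multiplied by `s`; for `s = 0` the derivative is `∇u(x)·∫ z κ = 0`, or use continuity). So
`F(ρ) = F(0) = u(x)`. -/
theorem mean_smooth (d : ℕ) : ∃ κ : Ed d → ℝ, Smo κ ∧ HasCompactSupport κ ∧ tsupport κ ⊆ ball 0 1 ∧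
    (∀ z, 0 ≤ κ z) ∧ ∫ z, κ z = 1 ∧
    ∀ (u : Ed d → ℝ) (x : Ed d) (ρ : ℝ), Smo u → 0 < ρ → (∀ w ∈ ball x ρ, lapl u w = 0) →
      ∫ z, u (x + ρ • z) * κ z = u x := by
  set κ₀ : Ed d → ℝ := fun z => 2 * cgaE' (1 / 2 - ‖z‖ ^ 2) with hκ₀
  have hκ₀s : Smo κ₀ := contDiff_const.mul (cga_E'_smooth.comp (cga_arg_smo d))
  have hκ₀c : Continuous κ₀ := ContDiff.continuous hκ₀s
  have hκ₀cs : HasCompactSupport κ₀ := HasCompactSupport.intro (isCompact_closedBall 0 1) fun z hz => by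
    simp only [hκ₀]
    rw [cga_E'_zero (cga_big hz), mul_zero]
  have hκ₀n : ∀ z, 0 ≤ κ₀ z := fun z => mul_nonneg zero_le_two (cga_E'_nonneg _)
  set c₀ : ℝ := ∫ z, κ₀ z with hc₀
  have hc₀pos : 0 < c₀ := by
    refine hκ₀c.integral_pos_of_hasCompactSupport_nonneg_nonzero hκ₀cs hκ₀n (x := 0) ?_
    simp only [hκ₀]
    rw [norm_zero, zero_pow two_ne_zero, sub_zero]
    exact (mul_pos two_pos cga_E'_pos).ne'
  set κ : Ed d → ℝ := fun z => c₀⁻¹ * κ₀ z with hκ
  have hκs : Smo κ := contDiff_const.mul hκ₀s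
  have hκc : Continuous κ := ContDiff.continuous hκs
  have hκcs : HasCompactSupport κ := hκ₀cs.mul_left
  have hκn : ∀ z, 0 ≤ κ z := fun z => mul_nonneg (inv_nonneg.2 hc₀pos.le) (hκ₀n z)
  have hκ1 : ∫ z, κ z = 1 := by
    simp only [hκ]
    rw [integral_const_mul, ← hc₀, inv_mul_cancel₀ hc₀pos.ne']
  have hκi : Integrable κ := hκc.integrable_of_hasCompactSupport hκcs
  have hκ0 : ∀ z, z ∉ closedBall (0 : Ed d) 1 → κ z = 0 := fun z hz => by
    simp only [hκ, hκ₀]
    rw [cga_E'_zero (cga_big hz), mul_zero, mul_zero]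
  -- the potential
  set Θ : Ed d → ℝ := fun z => c₀⁻¹ * expNegInvGlue (1 / 2 - ‖z‖ ^ 2) with hΘ
  have hΘs : Smo Θ := contDiff_const.mul (cga_E_smooth.comp (cga_arg_smo d))
  have hΘcs : HasCompactSupport Θ := HasCompactSupport.intro (isCompact_closedBall 0 1) fun z hz => by
    simp only [hΘ]
    rw [expNegInvGlue.zero_of_nonpos (cga_big hz), mul_zero]
  have hΘ0 : ∀ z, 1 ≤ ‖z‖ → Θ z = 0 := fun z hz => by
    simp only [hΘ]
    rw [expNegInvGlue.zero_of_nonpos (by nlinarith), mul_zero]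
  have hΘd : ∀ i z, pd i Θ z = -(z i * κ z) := by
    intro i z
    have h1 : HasFDerivAt (fun z : Ed d => ‖z‖ ^ 2) (2 • (innerSL ℝ z)) z :=
      (hasStrictFDerivAt_norm_sq z).hasFDerivAt
    have h2 : HasFDerivAt (fun z : Ed d => 1 / 2 - ‖z‖ ^ 2) (-(2 • (innerSL ℝ z))) z :=
      h1.const_sub _
    have h3 : HasFDerivAt Θ (c₀⁻¹ • (cgaE' (1 / 2 - ‖z‖ ^ 2) •
        (-(2 • (innerSL ℝ z)) : Ed d →L[ℝ] ℝ))) z :=
      HasFDerivAt.const_mul (HasDerivAt.comp_hasFDerivAt (h₂ := expNegInvGlue) z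
        (cga_E_der (1 / 2 - ‖z‖ ^ 2)) h2) c₀⁻¹
    rw [pd, h3.fderiv]
    have h4 : (innerSL ℝ z) (eb i) = z i := by
      rw [innerSL_apply_apply, eb, EuclideanSpace.inner_single_right]
      simp
    simp only [hκ, hκ₀, smul_apply, neg_apply, smul_eq_mul, nsmul_eq_mul, h4]
    push_cast
    ring
  refine ⟨κ, hκs, hκcs, ?_, hκn, hκ1, ?_⟩
  · have h1 : tsupport κ ⊆ {z : Ed d | ‖z‖ ^ 2 ≤ 1 / 2} := by
      refine closure_minimal (fun z hz => ?_) (isClosed_le (by fun_prop) continuous_const)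
      rw [mem_support] at hz
      by_contra h2
      refine hz ?_
      rw [mem_ofPred_eq, not_le] at h2
      simp only [hκ, hκ₀]
      rw [cga_E'_zero (by linarith), mul_zero, mul_zero]
    refine h1.trans fun z hz => ?_
    rw [mem_ofPred_eq] at hz
    rw [mem_ball, dist_zero_right]
    by_contra h2
    rw [not_lt] at h2
    nlinarith
  · intro u x ρ hu hρ hharm
    have huc : Continuous u := ContDiff.continuous hu
    have hud : Continuous (fderiv ℝ u) := ContDiff.continuous_fderiv hu (by simp)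
    set Φ : ℝ → ℝ := fun s => ∫ z, u (x + s • z) * κ z with hΦ
    have hder : ∀ s, HasDerivAt Φ (∫ z, fderiv ℝ u (x + s • z) z * κ z) s := by
      intro s₀
      obtain ⟨M, hM⟩ : ∃ M, ∀ p ∈ closedBall s₀ 1 ×ˢ closedBall (0 : Ed d) 1,
          ‖fderiv ℝ u (x + p.1 • p.2) p.2‖ ≤ M :=
        ((isCompact_closedBall s₀ 1).prod (isCompact_closedBall (0 : Ed d) 1)).exists_bound_of_continuousOn
          (Continuous.continuousOn (by fun_prop))
      refine (hasDerivAt_integral_of_dominated_loc_of_deriv_le (bound := fun z => M * κ z)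
        (F := fun s z => u (x + s • z) * κ z)
        (F' := fun s z => fderiv ℝ u (x + s • z) z * κ z) (closedBall_mem_nhds s₀ one_pos)
        (Eventually.of_forall fun s => ?_) ?_ ?_ (Eventually.of_forall fun z s hs => ?_)
        (hκi.const_mul M) (Eventually.of_forall fun z s hs => ?_)).2
      · exact (Continuous.mul (by fun_prop) hκc).aestronglyMeasurable
      · exact (Continuous.mul (by fun_prop) hκc).integrable_of_hasCompactSupport hκcs.mul_left
      · exact (Continuous.mul (by fun_prop) hκc).aestronglyMeasurable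
      · by_cases hz : z ∈ closedBall (0 : Ed d) 1
        · rw [norm_mul, Real.norm_of_nonneg (hκn z)]
          exact mul_le_mul_of_nonneg_right (hM (s, z) ⟨hs, hz⟩) (hκn z)
        · simp only [hκ0 z hz, mul_zero, norm_zero, le_refl]
      · have h1 : HasDerivAt (fun s : ℝ => x + s • z) z s := by
          have := ((hasDerivAt_id s).smul_const z).const_add x
          simpa using this
        exact ((cga_diff hu (x + s • z)).hasFDerivAt.comp_hasDerivAt s h1).mul_const (κ z)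
    have hzero : ∀ s, 0 < s → s ≤ ρ → ∫ z, fderiv ℝ u (x + s • z) z * κ z = 0 := by
      intro s hs hsρ
      set v : Ed d → ℝ := fun z => u (x + s • z) with hv
      have hL : ContDiff ℝ ((⊤ : ℕ∞) : WithTop ℕ∞) fun z : Ed d => x + s • z :=
        contDiff_const.add (contDiff_id.const_smul s)
      have hpd : ∀ {w : Ed d → ℝ}, Smo w → ∀ i z,
          pd i (fun z => w (x + s • z)) z = s * pd i w (x + s • z) := by
        intro w hw i z
        have h1 : HasFDerivAt (fun z : Ed d => x + s • z) (s • ContinuousLinearMap.id ℝ (Ed d)) z :=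
          ((hasFDerivAt_id z).const_smul s).const_add x
        have h2 := (cga_diff hw (x + s • z)).hasFDerivAt.comp z h1
        have h3 : fderiv ℝ (fun z => w (x + s • z)) z =
            (fderiv ℝ w (x + s • z)).comp (s • ContinuousLinearMap.id ℝ (Ed d)) := h2.fderiv
        rw [pd, h3, pd]
        simp
      have hvs : Smo v := hu.comp hL
      have e1 := ibp_lapl hvs hΘs hΘcs
      have e2 : ∫ z, lapl v z * Θ z = 0 := by
        refine integral_eq_zero_of_ae (Eventually.of_forall fun z => ?_)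
        show lapl v z * Θ z = 0
        rcases le_or_gt 1 ‖z‖ with hz | hz
        · rw [hΘ0 z hz, mul_zero]
        · have h1 : lapl v z = s * (s * lapl u (x + s • z)) := by
            simp only [lapl]
            rw [Finset.mul_sum, Finset.mul_sum]
            refine Finset.sum_congr rfl fun i _ => ?_
            have h2 : pd i v = fun z => s * pd i u (x + s • z) := funext fun z => hpd hu i z
            rw [h2]
            have h3 := hpd (cga_pd_smo hu i) i z
            have h4 : DifferentiableAt ℝ (fun z => pd i u (x + s • z)) z :=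
              (cga_diff ((cga_pd_smo hu i).comp hL)) z
            rw [← h3, pd, fderiv_const_mul h4, pd]
            rfl
          rw [h1, hharm, mul_zero, mul_zero, zero_mul]
          rw [mem_ball, dist_eq_norm, add_sub_cancel_left, norm_smul, Real.norm_of_nonneg hs.le]
          nlinarith
      rw [e2, neg_zero] at e1
      have e3 : ∀ i, ∫ z, pd i v z * pd i Θ z = -s * ∫ z, (z i * pd i u (x + s • z)) * κ z := by
        intro i
        rw [← integral_const_mul]
        refine integral_congr_ae (Eventually.of_forall fun z => ?_)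
        simp only
        rw [hpd hu i z, hΘd]
        ring
      simp only [e3] at e1
      rw [← Finset.mul_sum] at e1
      have e4 : ∑ i, ∫ z, (z i * pd i u (x + s • z)) * κ z = 0 := by
        rcases mul_eq_zero.1 e1 with h1 | h1
        · linarith
        · exact h1
      rw [← integral_finsetSum] at e4
      · rw [← e4]
        refine integral_congr_ae (Eventually.of_forall fun z => ?_)
        simp only
        rw [← Finset.sum_mul]
        congr 1
        exact cga_lin (fderiv ℝ u (x + s • z)) z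
      · intro i _
        have h1 : Continuous (pd i u) := ContDiff.continuous (cga_pd_smo hu i)
        exact (Continuous.mul (by fun_prop) hκc).integrable_of_hasCompactSupport hκcs.mul_left
    obtain ⟨c, hc, hc2⟩ := exists_hasDerivAt_eq_slope Φ (fun s => ∫ z, fderiv ℝ u (x + s • z) z * κ z)
      hρ (fun s _ => (hder s).continuousAt.continuousWithinAt) (fun s _ => hder s)
    simp only [hzero c hc.1 hc.2.le] at hc2
    have h1 : Φ ρ - Φ 0 = 0 := by
      have h2 : ρ - 0 ≠ 0 := by linarith [hρ]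
      rcases div_eq_zero_iff.1 hc2.symm with h3 | h3
      · exact h3
      · exact absurd h3 h2
    have h2 : Φ 0 = u x := by
      simp only [hΦ, zero_smul, add_zero]
      rw [integral_const_mul, hκ1, mul_one]
    have h3 : Φ ρ = u x := by linarith
    exact h3

end Pool.Agent.Lib.MP_79abb3_an.W.C
end
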