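import Pool.Agent.Lib.MP_79abb3_an.W.CEb
import Pool.Agent.Lib.MP_79abb3_an.W.CAa
import Pool.Agent.Lib.MP_79abb3_an.W.CGa
import Pool.Agent.Lib.MP_79abb3_an.W.CEa
import Pool.Agent.Lib.MP_79abb3_an.W.CFa
import Pool.Agent.Lib.MP_79abb3_an.W.CFb

section

/-!
Theorem W (MP_79abb3_an), block C (density of the drifts). The Kelvin exponentials are harmonic.
-/

set_option autoImplicit false
set_option linter.unusedSectionVars false
set_option linter.unusedVariables false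

open MeasureTheory Set Filter Topology Function Metric
open scoped ENNReal InnerProductSpace BoundedContinuousFunction

namespace Pool.Agent.Lib.MP_79abb3_an.W.C

variable {d : ℕ} {F : Type} [NormedAddCommGroup F] [NormedSpace ℝ F]

/-- the components of the logarithmic gradient -/
noncomputable def cec_G (y : Ed d) (ζ : Cd d) (i : Fin d) (x : Ed d) : ℂ :=
  (((‖x - y‖ ^ 2)⁻¹ : ℝ) : ℂ) * (rf (x - y) ζ i - ((d : ℂ) - 2) * (((x - y) i : ℝ) : ℂ))

theorem cec_u {y x : Ed d} (h : x ≠ y) (i : Fin d) :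
    ∃ D : Ed d →L[ℝ] ℂ, HasFDerivAt (fun x : Ed d => (((‖x - y‖ ^ 2)⁻¹ : ℝ) : ℂ)) D x ∧
      D (eb i) = -(2 * ((((‖x - y‖ ^ 2)⁻¹ : ℝ) : ℂ)) ^ 2 * (((x - y) i : ℝ) : ℂ)) := by
  refine ⟨_, Complex.ofRealCLM.hasFDerivAt.comp x (ceb_invpow 2 h), ?_⟩
  have e4 : ⟪x - y, eb i⟫_ℝ = (x - y) i := by
    unfold eb
    rw [EuclideanSpace.inner_single_right]
    simp
  show (((-(((2 : ℕ) : ℝ) * (‖x - y‖ ^ 2)⁻¹ * (‖x - y‖ ^ 2)⁻¹) * ⟪x - y, eb i⟫_ℝ : ℝ)) : ℂ) = _
  rw [e4]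
  push_cast
  ring

theorem cec_b (y x : Ed d) (ζ : Cd d) (i : Fin d) :
    ∃ D : Ed d →L[ℝ] ℂ, HasFDerivAt (fun x : Ed d => br ζ (x - y)) D x ∧ D (eb i) = ζ i := by
  have h1 : HasFDerivAt (fun x : Ed d => x - y) (ContinuousLinearMap.id ℝ (Ed d)) x :=
    (hasFDerivAt_id x).sub_const y
  have h2 := (ceb_brL ζ).hasFDerivAt.comp x h1
  have e : (ceb_brL ζ) ∘ (fun x : Ed d => x - y) = fun x : Ed d => br ζ (x - y) :=
    funext fun x => ceb_brL_apply _ _
  rw [e] at h2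
  refine ⟨_, h2, ?_⟩
  show ceb_brL ζ (eb i) = ζ i
  rw [ceb_brL_apply]
  unfold br eb
  rw [Finset.sum_eq_single i]
  · simp
  · intro j _ hj
    simp [hj]
  · intro hi
    exact absurd (Finset.mem_univ i) hi

theorem cec_h (y x : Ed d) (i : Fin d) :
    ∃ D : Ed d →L[ℝ] ℂ, HasFDerivAt (fun x : Ed d => (((x - y) i : ℝ) : ℂ)) D x ∧ D (eb i) = 1 := by
  have h1 : HasFDerivAt (fun x : Ed d => x - y) (ContinuousLinearMap.id ℝ (Ed d)) x :=
    (hasFDerivAt_id x).sub_const y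
  have h2 := (Complex.ofRealCLM.comp (EuclideanSpace.proj i : Ed d →L[ℝ] ℝ)).hasFDerivAt.comp x h1
  refine ⟨_, h2, ?_⟩
  show (((eb i : Ed d) i : ℝ) : ℂ) = 1
  unfold eb
  simp

theorem cec_dG {y x : Ed d} (h : x ≠ y) (ζ : Cd d) (i : Fin d) : DifferentiableAt ℝ (cec_G y ζ i) x ∧
    pd i (cec_G y ζ i) x =
      -(2 * ((((‖x - y‖ ^ 2)⁻¹ : ℝ) : ℂ)) ^ 2 * (((x - y) i : ℝ) : ℂ)) *
        (ζ i - (2 * (((‖x - y‖ ^ 2)⁻¹ : ℝ) : ℂ) * br ζ (x - y)) * (((x - y) i : ℝ) : ℂ) -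
          ((d : ℂ) - 2) * (((x - y) i : ℝ) : ℂ)) +
      (((‖x - y‖ ^ 2)⁻¹ : ℝ) : ℂ) *
        (-((2 * -(2 * ((((‖x - y‖ ^ 2)⁻¹ : ℝ) : ℂ)) ^ 2 * (((x - y) i : ℝ) : ℂ)) * br ζ (x - y) +
            2 * (((‖x - y‖ ^ 2)⁻¹ : ℝ) : ℂ) * ζ i) * (((x - y) i : ℝ) : ℂ) +
            (2 * (((‖x - y‖ ^ 2)⁻¹ : ℝ) : ℂ) * br ζ (x - y))) - ((d : ℂ) - 2)) := by
  obtain ⟨U, hU, hU'⟩ := cec_u h i
  obtain ⟨B, hB, hB'⟩ := cec_b y x ζ i
  obtain ⟨H, hH, hH'⟩ := cec_h y x i
  have h1 := (hU.const_mul 2).mul hB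
  have h2 := h1.mul hH
  have h3 := (hasFDerivAt_const (𝕜 := ℝ) (ζ i) x).sub h2
  have h4 := h3.sub (hH.const_mul ((d : ℂ) - 2))
  have h5 : HasFDerivAt (cec_G y ζ i) _ x := hU.mul h4
  refine ⟨h5.differentiableAt, ?_⟩
  unfold pd
  rw [h5.fderiv]
  simp only [add_apply, sub_apply, smul_apply, zero_apply, smul_eq_mul, hU', hB', hH',
    Pi.mul_apply]
  rw [ceb_rf_apply]
  ring

/-- PROOF. By `pd_KV` on a neighbourhood of `x`, `∇K = K g` with `g = |h|^{-2} (rf h ζ + (2-d) h)`, `h = x-y`. So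
`Δ K = K (g·g + div g)`. `g·g = |h|^{-4} (bc ζ ζ + 2 (2-d) (rf h ζ)·h + (2-d)² |h|²)`, `(rf h ζ)·h = -ζ·h`, and
`div g`: `div (|h|^{-2} ζ) = -2 |h|^{-4} ζ·h`, `div (|h|^{-4} (ζ·h) h) = |h|^{-4} (ζ·h) (d - 4 + 1)`, so
`div (|h|^{-2} rf h ζ) = |h|^{-4} (ζ·h)(-2 - 2(d-3)) = |h|^{-4} (ζ·h) (4 - 2 d)`; `div ((2-d) |h|^{-2} h) = (2-d)(d-2) |h|^{-2}`.
Sum: `|h|^{-4} (ζ·h) (-2(2-d) + 4 - 2d) + |h|^{-2} ((2-d)² - (d-2)²) = 0` as `bc ζ ζ = 0`. -/
theorem KV_harm (hd : 2 ≤ d) {y x : Ed d} (h : x ≠ y) {ζ : Cd d} (hζ : bc ζ ζ = 0) : lapl (KV y ζ) x = 0 := by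
  have h0 : x - y ≠ 0 := sub_ne_zero.2 h
  have hgg := ceb_gg h0
  have hpd : ∀ i, pd i (pd i (KV y ζ)) x =
      KV y ζ x * (cec_G y ζ i x ^ 2 + pd i (cec_G y ζ i) x) := by
    intro i
    have hev : pd i (KV y ζ) =ᶠ[𝓝 x] fun x => KV y ζ x * cec_G y ζ i x := by
      filter_upwards [isOpen_ne.mem_nhds h] with z hz
      exact pd_KV hd hz ζ i
    have hK : HasFDerivAt (KV y ζ) (fderiv ℝ (KV y ζ) x) x :=
      ((KV_cda h ζ).differentiableAt (by norm_num)).hasFDerivAt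
    have hG : HasFDerivAt (cec_G y ζ i) (fderiv ℝ (cec_G y ζ i) x) x :=
      (cec_dG h ζ i).1.hasFDerivAt
    have h1 : fderiv ℝ (pd i (KV y ζ)) x (eb i) =
        KV y ζ x * fderiv ℝ (cec_G y ζ i) x (eb i) + cec_G y ζ i x * fderiv ℝ (KV y ζ) x (eb i) := by
      have hKG : HasFDerivAt (fun x => KV y ζ x * cec_G y ζ i x) _ x := hK.mul hG
      rw [hev.fderiv_eq, hKG.fderiv]
      rfl
    have h2 : fderiv ℝ (KV y ζ) x (eb i) = KV y ζ x * cec_G y ζ i x := pd_KV hd h ζ i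
    show fderiv ℝ (pd i (KV y ζ)) x (eb i) = _
    rw [h1, h2]
    show _ = KV y ζ x * (cec_G y ζ i x ^ 2 + fderiv ℝ (cec_G y ζ i) x (eb i))
    ring
  unfold lapl
  simp_rw [hpd]
  rw [← Finset.mul_sum]
  -- the sum vanishes
  have hsum : ∑ i, (cec_G y ζ i x ^ 2 + pd i (cec_G y ζ i) x) = 0 := by
    have e1 : ∀ i, cec_G y ζ i x ^ 2 + pd i (cec_G y ζ i) x =
        ((((‖x - y‖ ^ 2)⁻¹ : ℝ) : ℂ)) ^ 2 * (ζ i * ζ i) +
        (-4 * ((((‖x - y‖ ^ 2)⁻¹ : ℝ) : ℂ)) ^ 3 * br ζ (x - y) -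
          2 * ((d : ℂ) - 2) * ((((‖x - y‖ ^ 2)⁻¹ : ℝ) : ℂ)) ^ 2 -
          4 * ((((‖x - y‖ ^ 2)⁻¹ : ℝ) : ℂ)) ^ 2) * (ζ i * (((x - y) i : ℝ) : ℂ)) +
        (((((‖x - y‖ ^ 2)⁻¹ : ℝ) : ℂ)) ^ 2 *
            (2 * (((‖x - y‖ ^ 2)⁻¹ : ℝ) : ℂ) * br ζ (x - y) + ((d : ℂ) - 2)) ^ 2 +
          8 * ((((‖x - y‖ ^ 2)⁻¹ : ℝ) : ℂ)) ^ 3 * br ζ (x - y) +
          2 * ((d : ℂ) - 2) * ((((‖x - y‖ ^ 2)⁻¹ : ℝ) : ℂ)) ^ 2) *
            ((((x - y) i : ℝ) : ℂ) * (((x - y) i : ℝ) : ℂ)) +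
        (-2 * ((((‖x - y‖ ^ 2)⁻¹ : ℝ) : ℂ)) ^ 2 * br ζ (x - y) -
          ((d : ℂ) - 2) * (((‖x - y‖ ^ 2)⁻¹ : ℝ) : ℂ)) := by
      intro i
      rw [(cec_dG h ζ i).2]
      unfold cec_G
      rw [ceb_rf_apply]
      ring
    rw [Finset.sum_congr rfl fun i _ => e1 i]
    rw [Finset.sum_add_distrib, Finset.sum_add_distrib, Finset.sum_add_distrib,
      ← Finset.mul_sum, ← Finset.mul_sum, ← Finset.mul_sum, Finset.sum_const, Finset.card_univ,
      Fintype.card_fin, nsmul_eq_mul]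
    have a1 : ∑ i, ζ i * ζ i = 0 := hζ
    have a2 : ∑ i, ζ i * (((x - y) i : ℝ) : ℂ) = br ζ (x - y) := rfl
    have a3 : ∑ i, (((x - y) i : ℝ) : ℂ) * (((x - y) i : ℝ) : ℂ) = (((‖x - y‖ ^ 2 : ℝ)) : ℂ) :=
      ceb_br_cv (x - y)
    rw [a1, a2, a3]
    generalize (((‖x - y‖ ^ 2)⁻¹ : ℝ) : ℂ) = u at *
    generalize (((‖x - y‖ ^ 2 : ℝ)) : ℂ) = g at *
    generalize br ζ (x - y) = b at *
    linear_combination (u * (2 * u * b + ((d : ℂ) - 2)) ^ 2 + 8 * u ^ 2 * b +
      2 * ((d : ℂ) - 2) * u) * hgg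
  rw [hsum, mul_zero]

end Pool.Agent.Lib.MP_79abb3_an.W.C
end

section

/-!
Theorem W (MP_79abb3_an), block C (density of the drifts). Interior estimates for harmonic functions.
-/

set_option autoImplicit false
set_option linter.unusedSectionVars false
set_option linter.unusedVariables false

open MeasureTheory Set Filter Topology Function Metric
open scoped ENNReal InnerProductSpace BoundedContinuousFunction

namespace Pool.Agent.Lib.MP_79abb3_an.W.C

variable {d : ℕ} {F : Type} [NormedAddCommGroup F] [NormedSpace ℝ F]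

open scoped Convolution in
/-- the derivatives of a convolution fall on the smooth kernel -/
private lemma cgb_conv (n : ℕ) : ∀ {A B : Type} [NormedAddCommGroup A] [NormedSpace ℝ A]
    [NormedAddCommGroup B] [NormedSpace ℝ B] (L : ℂ →L[ℝ] A →L[ℝ] B) (f : Ed d → ℂ)
    (hf : Continuous f) (g : Ed d → A) (hg : Smo g) (hcg : HasCompactSupport g) (hL : ‖L‖ ≤ 1)
    (x : Ed d), ‖iteratedFDeriv ℝ n (f ⋆[L, volume] g) x‖ ≤
      ∫ t, ‖f t‖ * ‖iteratedFDeriv ℝ n g (x - t)‖ := by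
  induction n with
  | zero =>
    intro A B _ _ _ _ L f hf g hg hcg hL x
    rw [norm_iteratedFDeriv_zero]
    simp only [norm_iteratedFDeriv_zero]
    have hgc : Continuous g := ContDiff.continuous hg
    have hcs : HasCompactSupport fun t => g (x - t) :=
      hcg.comp_homeomorph (Homeomorph.subLeft x)
    refine (norm_integral_le_of_norm_le (g := fun t => ‖f t‖ * ‖g (x - t)‖) ?_
      (Eventually.of_forall fun t => ?_))
    · exact (hf.norm.mul (hgc.comp (continuous_const.sub continuous_id)).norm).integrable_of_hasCompactSupport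
        hcs.norm.mul_left
    · refine (L.le_opNorm₂ _ _).trans ?_
      rw [mul_assoc]
      exact mul_le_of_le_one_left (by positivity) hL
  | succ n ih =>
    intro A B _ _ _ _ L f hf g hg hcg hL x
    have h1 : fderiv ℝ (f ⋆[L, volume] g) = f ⋆[L.precompR (Ed d), volume] fderiv ℝ g := by
      funext y
      exact (hcg.hasFDerivAt_convolution_right L hf.locallyIntegrable
        (ContDiff.of_le hg (by simp)) y).fderiv
    rw [← norm_iteratedFDeriv_fderiv, h1]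
    refine (ih (L.precompR (Ed d)) f hf (fderiv ℝ g) (ContDiff.fderiv_right hg (by simp))
      (hcg.fderiv ℝ) ((L.norm_precompR_le (Ed d)).trans hL) x).trans (le_of_eq ?_)
    simp only [norm_iteratedFDeriv_fderiv]

private lemma cgb_lapl_L (L : ℂ →L[ℝ] ℝ) {v : Ed d → ℂ} (hv : Smo v) (w : Ed d) :
    lapl (fun x => L (v x)) w = L (lapl v w) := by
  have hpd : ∀ {f : Ed d → ℂ}, Smo f → ∀ (i : Fin d) (x : Ed d), pd i (fun x => L (f x)) x = L (pd i f x) := by
    intro f hf i x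
    have h1 : DifferentiableAt ℝ f x := (ContDiff.differentiable hf (by simp)) x
    have h2 : HasFDerivAt (fun x => L (f x)) (L.comp (fderiv ℝ f x)) x :=
      L.hasFDerivAt.comp x h1.hasFDerivAt
    rw [pd, h2.fderiv]
    rfl
  simp only [lapl]
  rw [map_sum]
  refine Finset.sum_congr rfl fun i _ => ?_
  have h1 : pd i (fun x => L (v x)) = fun x => L (pd i v x) := funext fun x => hpd hv i x
  rw [h1, hpd (smo_pd hv i) i w]

/-- PROOF. Real and imaginary parts: `u` real. Choose a smooth cut off `χ`, `χ = 1` on `ball x (2ρ/3)`, compact support in `ball x ρ`: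
`v = χ u` is smooth on the whole space and harmonic on `ball x (2ρ/3)`. For `|w-x| < ρ/3`, `mean_smooth` with radius `ρ/3`:
`v(w) = ∫ v(w + (ρ/3) z) κ(z) dz = ∫ v(y) κ((y-w)/(ρ/3)) (ρ/3)^{-d} dy` and only `y ∈ ball x (2ρ/3)` count. Differentiate in `w` under the
integral (`hasFDerivAt_integral`, or the convolution theorem `HasCompactSupport.contDiff_convolution_right` and
`iteratedFDeriv`): `‖D^i v(x)‖ ≤ sup_{ball} |u| ∫ ‖D^i κ_{ρ/3}‖`. The constant depends on `d, m, ρ` only. -/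
theorem int_est (d m : ℕ) {ρ : ℝ} (hρ : 0 < ρ) :
    ∃ C, 0 ≤ C ∧ ∀ (u : Ed d → ℂ) (x : Ed d) (c : ℝ),
      (∀ w ∈ ball x ρ, ContDiffAt ℝ ((⊤ : ℕ∞) : WithTop ℕ∞) u w) → (∀ w ∈ ball x ρ, lapl u w = 0) →
      (∀ w ∈ ball x ρ, ‖u w‖ ≤ c) → ∀ i ≤ m, ‖iteratedFDeriv ℝ i u x‖ ≤ C * c := by
  obtain ⟨κ, hκs, hκcs, hκt, hκn, hκ1, hmean⟩ := mean_smooth d
  set r : ℝ := ρ / 3 with hr
  have hr0 : 0 < r := by positivity
  have hκc : Continuous κ := ContDiff.continuous hκs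
  -- the kernel
  set q : ℝ := (r ^ d)⁻¹ with hq
  set k : Ed d → ℝ := fun y => q * κ (-(r⁻¹ • y)) with hk
  have hks : Smo k := contDiff_const.mul (hκs.comp (contDiff_id.const_smul r⁻¹).neg)
  have hkcs : HasCompactSupport k := by
    have h1 : HasCompactSupport fun y : Ed d => κ (-(r⁻¹ • y)) := by
      have h2 := hκcs.comp_homeomorph ((Homeomorph.smulOfNeZero r⁻¹ (inv_ne_zero hr0.ne')).trans
        (Homeomorph.neg (Ed d)))
      exact h2
    exact h1.mul_left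
  have hkc : Continuous k := ContDiff.continuous hks
  have hkn : ∀ i, 0 ≤ ∫ y, ‖iteratedFDeriv ℝ i k y‖ := fun i => integral_nonneg fun y => norm_nonneg _
  refine ⟨∑ i ∈ Finset.range (m + 1), ∫ y, ‖iteratedFDeriv ℝ i k y‖,
    Finset.sum_nonneg fun i _ => hkn i, ?_⟩
  intro u x c hu hharm hc i hi
  have hc0 : 0 ≤ c := (norm_nonneg _).trans (hc x (mem_ball_self hρ))
  -- the cut off
  let χ : ContDiffBump x := ⟨2 * ρ / 3, 5 * ρ / 6, by positivity, by linarith⟩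
  set v : Ed d → ℂ := fun y => ((χ y : ℝ) : ℂ) * u y with hv
  have hvs : Smo v := by
    rw [Smo, contDiff_iff_contDiffAt]
    intro y
    by_cases hy : y ∈ ball x ρ
    · have h1 : ContDiffAt ℝ ((⊤ : ℕ∞) : WithTop ℕ∞) (fun y => ((χ y : ℝ) : ℂ)) y :=
        (Complex.ofRealCLM.contDiff.contDiffAt).comp y χ.contDiffAt
      exact h1.mul (hu y hy)
    · have h1 : v =ᶠ[𝓝 y] fun _ => 0 := by
        have h2 : y ∈ (closedBall x (5 * ρ / 6))ᶜ := by
          rw [mem_compl_iff, mem_closedBall, not_le]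
          rw [mem_ball, not_lt] at hy
          linarith
        filter_upwards [isClosed_closedBall.isOpen_compl.mem_nhds h2] with z hz
        have h3 : χ z = 0 := χ.zero_of_le_dist (by
          rw [mem_compl_iff, mem_closedBall, not_le] at hz
          exact hz.le)
        simp only [hv]
        rw [h3, Complex.ofReal_zero, zero_mul]
      exact contDiffAt_const.congr_of_eventuallyEq h1
  have hvc : Continuous v := ContDiff.continuous hvs
  have hvb : ∀ y, ‖v y‖ ≤ c := by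
    intro y
    simp only [hv]
    rw [norm_mul, Complex.norm_real, Real.norm_of_nonneg χ.nonneg]
    by_cases hy : y ∈ ball x ρ
    · exact (mul_le_of_le_one_left (norm_nonneg _) χ.le_one).trans (hc y hy)
    · have h3 : χ y = 0 := χ.zero_of_le_dist (by
        rw [mem_ball, not_lt] at hy
        show 5 * ρ / 6 ≤ dist y x
        linarith)
      rw [h3, zero_mul]
      exact hc0
  have hvu : ∀ y ∈ ball x (2 * ρ / 3), v =ᶠ[𝓝 y] u := by
    intro y hy
    filter_upwards [isOpen_ball.mem_nhds hy] with z hz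
    have h3 : χ z = 1 := χ.one_of_mem_closedBall (ball_subset_closedBall hz)
    simp only [hv]
    rw [h3, Complex.ofReal_one, one_mul]
  have hvh : ∀ y ∈ ball x (2 * ρ / 3), lapl v y = 0 := by
    intro y hy
    have h1 : lapl v y = lapl u y := by
      simp only [lapl, pd]
      refine Finset.sum_congr rfl fun i _ => ?_
      have h2 : pd i v =ᶠ[𝓝 y] pd i u := by
        filter_upwards [(hvu y hy).fderiv (𝕜 := ℝ)] with z hz
        rw [pd, pd, hz]
      show fderiv ℝ (pd i v) y (eb i) = fderiv ℝ (pd i u) y (eb i)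
      rw [h2.fderiv_eq]
    rw [h1]
    exact hharm y (ball_subset_ball (by linarith) hy)
  -- the mean value property
  have hmv : ∀ w ∈ ball x r, v w = ∫ z, (κ z : ℂ) * v (w + r • z) := by
    intro w hw
    have hsub : ball w r ⊆ ball x (2 * ρ / 3) := by
      refine (ball_subset_ball' (ε₂ := 2 * ρ / 3) ?_)
      rw [mem_ball] at hw
      rw [hr] at hw ⊢
      linarith
    have hLm : ∀ L : ℂ →L[ℝ] ℝ, ∫ z, L (v (w + r • z)) * κ z = L (v w) := by
      intro L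
      refine hmean (fun y => L (v y)) w r (L.contDiff.comp hvs) hr0 fun y hy => ?_
      rw [cgb_lapl_L L hvs, hvh y (hsub hy), map_zero]
    have hint : Integrable fun z => (κ z : ℂ) * v (w + r • z) := by
      refine Continuous.integrable_of_hasCompactSupport ?_ ?_
      · exact (Complex.continuous_ofReal.comp hκc).mul (hvc.comp (by fun_prop))
      · exact (hκcs.comp_left (g := fun t : ℝ => (t : ℂ)) Complex.ofReal_zero).mul_right
    have hLi : ∀ L : ℂ →L[ℝ] ℝ, L (∫ z, (κ z : ℂ) * v (w + r • z)) = L (v w) := by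
      intro L
      rw [← L.integral_comp_comm hint, ← hLm L]
      refine integral_congr_ae (Eventually.of_forall fun z => ?_)
      show L ((κ z : ℂ) * v (w + r • z)) = L (v (w + r • z)) * κ z
      have h1 : (κ z : ℂ) * v (w + r • z) = κ z • v (w + r • z) := (Complex.real_smul).symm
      rw [h1, map_smul, smul_eq_mul, mul_comm]
    apply Complex.ext
    · exact (hLi Complex.reCLM).symm
    · exact (hLi Complex.imCLM).symm
  -- as a convolution
  set L : ℂ →L[ℝ] ℝ →L[ℝ] ℂ := (ContinuousLinearMap.lsmul ℝ ℝ : ℝ →L[ℝ] ℂ →L[ℝ] ℂ).flip with hL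
  have hLn : ‖L‖ ≤ 1 := by
    rw [hL, ContinuousLinearMap.opNorm_flip]
    exact ContinuousLinearMap.opNorm_lsmul_le
  have hcv : ∀ w ∈ ball x r, v w = (convolution v k L volume) w := by
    intro w hw
    have e1 : (convolution v k L volume) w = ∫ t, (k (w - t)) • v t := rfl
    rw [e1, hmv w hw]
    have e2 := Measure.integral_comp_smul (volume : Measure (Ed d))
      (fun z => ((κ (r⁻¹ • z) : ℝ) : ℂ) * v (w + z)) r
    rw [finrank_euclideanSpace_fin, abs_of_pos (inv_pos.2 (pow_pos hr0 d))] at e2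
    simp only [smul_smul, inv_mul_cancel₀ hr0.ne', one_smul] at e2
    rw [e2, ← integral_sub_right_eq_self _ w, ← integral_smul]
    refine integral_congr_ae (Eventually.of_forall fun t => ?_)
    simp only [hk, hq]
    have e3 : w + (t - w) = t := by abel
    have e4 : -(r⁻¹ • (w - t)) = r⁻¹ • (t - w) := by rw [← smul_neg, neg_sub]
    rw [e3, e4, Complex.real_smul, Complex.real_smul]
    push_cast
    ring
  have hev : u =ᶠ[𝓝 x] convolution v k L volume := by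
    have h1 := hvu x (mem_ball_self (by positivity))
    filter_upwards [h1, isOpen_ball.mem_nhds (mem_ball_self hr0 : x ∈ ball x r)] with w hw hw2
    rw [← hw, hcv w hw2]
  rw [(hev.iteratedFDeriv ℝ i).eq_of_nhds]
  refine (cgb_conv i L v hvc k hks hkcs hLn x).trans ?_
  have hkic : Continuous fun y => ‖iteratedFDeriv ℝ i k y‖ :=
    (ContDiff.continuous_iteratedFDeriv (n := ((⊤ : ℕ∞) : WithTop ℕ∞)) (m := i) (by exact_mod_cast le_top) hks).norm
  have hkics : HasCompactSupport fun y => ‖iteratedFDeriv ℝ i k y‖ := (hkcs.iteratedFDeriv i).norm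
  have hki : Integrable fun y => ‖iteratedFDeriv ℝ i k y‖ := hkic.integrable_of_hasCompactSupport hkics
  have hki2 : Integrable fun t => ‖iteratedFDeriv ℝ i k (x - t)‖ := hki.comp_sub_left x
  calc ∫ t, ‖v t‖ * ‖iteratedFDeriv ℝ i k (x - t)‖ ≤ ∫ t, c * ‖iteratedFDeriv ℝ i k (x - t)‖ := by
        refine integral_mono ?_ (hki2.const_mul c) fun t =>
          mul_le_mul_of_nonneg_right (hvb t) (norm_nonneg _)
        refine hki2.bdd_mul (c := c) hvc.norm.aestronglyMeasurable (Eventually.of_forall fun t => ?_)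
        rw [norm_norm]
        exact hvb t
    _ = (∫ y, ‖iteratedFDeriv ℝ i k y‖) * c := by
        rw [integral_const_mul, integral_sub_left_eq_self (fun y => ‖iteratedFDeriv ℝ i k y‖) volume x,
          mul_comm]
    _ ≤ (∑ i ∈ Finset.range (m + 1), ∫ y, ‖iteratedFDeriv ℝ i k y‖) * c := by
        refine mul_le_mul_of_nonneg_right ?_ hc0
        exact Finset.single_le_sum (f := fun i => ∫ y, ‖iteratedFDeriv ℝ i k y‖)
          (fun i _ => hkn i) (Finset.mem_range.2 (by omega))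

end Pool.Agent.Lib.MP_79abb3_an.W.C
end

section

/-!
Theorem W (MP_79abb3_an), block C (density of the drifts). The lift of the normal derivative in the collar.
-/

set_option autoImplicit false
set_option linter.unusedSectionVars false
set_option linter.unusedVariables false

open MeasureTheory Set Filter Topology Function Metric
open scoped ENNReal InnerProductSpace BoundedContinuousFunction

namespace Pool.Agent.Lib.MP_79abb3_an.W.C

variable {d : ℕ} {F : Type} [NormedAddCommGroup F] [NormedSpace ℝ F]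

theorem cha_union_ok {R S : Set (Ed d)} {f : Ed d → F} (hR : OK R f) (hS : OK S f) : OK (R ∪ S) f := by
  refine ⟨fun x hx => hx.elim (hR.1 x) (hS.1 x), fun m => ?_⟩
  obtain ⟨a, ha⟩ := hR.2 m
  obtain ⟨b, hb⟩ := hS.2 m
  exact ⟨max a b, fun x hx => hx.elim (fun h => (ha x h).trans (le_max_left _ _))
    (fun h => (hb x h).trans (le_max_right _ _))⟩

theorem cha_bn_zero (R : Set (Ed d)) (m : ℕ) {c : ℝ} (hc : 0 ≤ c) : BN R m (fun _ : Ed d => (0 : F)) c := by
  intro i _ x _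
  have h : iteratedFDeriv ℝ i (fun _ : Ed d => (0 : F)) x = 0 := by
    have := iteratedFDeriv_fun_zero (𝕜 := ℝ) (E := Ed d) (F := F) (n := i)
    exact congrFun this x
  rw [h, norm_zero]
  exact hc

theorem cha_coord (z : Ed d → ℝ) (x : Ed d) (j : Fin d) : (gradient z x) j = pd j z x := by
  have h : ⟪gradient z x, eb j⟫_ℝ = fderiv ℝ z x (eb j) := inner_gradient_left
  unfold pd
  rw [← h, eb, EuclideanSpace.inner_single_right]
  simp

theorem cha_grad (z : Ed d → ℝ) (x : Ed d) : gradient z x = ∑ j, pd j z x • (eb j : Ed d) := by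
  have h := (EuclideanSpace.basisFun (Fin d) ℝ).sum_repr (gradient z x)
  have h1 : ∀ j, (EuclideanSpace.basisFun (Fin d) ℝ).repr (gradient z x) j • (EuclideanSpace.basisFun (Fin d) ℝ) j
      = pd j z x • (eb j : Ed d) := by
    intro j
    rw [EuclideanSpace.basisFun_repr, EuclideanSpace.basisFun_apply, cha_coord]
    rfl
  rw [← Finset.sum_congr rfl fun j _ => h1 j]
  exact h.symm

/-- the normal derivative in coordinates -/
theorem cha_normal (z : Ed d → ℝ) (K : Ed d → ℂ) (x : Ed d) :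
    ∑ j, ((pd j z x : ℝ) : ℂ) * pd j K x = fderiv ℝ K x (gradient z x) := by
  rw [cha_grad, map_sum]
  refine Finset.sum_congr rfl fun j _ => ?_
  rw [map_smul, Complex.real_smul]
  rfl

/-- PROOF. Let `η : ℝ → ℝ` be smooth, `η = 1` for `t ≤ 1/2`, `η = 0` for `t ≥ 3/4`, `ϑ(x) = η(z x/δ₁)`. `L x = - z x * ϑ x * ∂_n K x`,
`∂_n K x = fderiv ℝ K x (gradient z x)`. On `D`: if `z x ≤ δ₁` the product rule (`z, ϑ, gradient z` smooth on the whole space, `D` bounded), if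
`z x > 3δ₁/4` locally `0`. Estimates: Leibniz. For `z x < δ₁/2` (open), `ϑ = 1` and
`∂_n L = -|∇z|² ∂_n K - z ∂_n(∂_n K) = -∂_n K - z (…)` as `|∇z| = 1` there (`z x < δ₁ ≤ δ`); for `z x = δ₁/2` or larger nothing is claimed. -/
theorem lift {D : Set (Ed d)} {z : Ed d → ℝ} {δ : ℝ} (hD : Dom D z δ) {δ₁ : ℝ} (h0 : 0 < δ₁) (h1 : δ₁ ≤ δ) (m : ℕ) :
    ∃ C, 0 ≤ C ∧ ∀ K : Ed d → ℂ, OK {x | x ∈ D ∧ z x ≤ δ₁} K → ∀ c, 0 ≤ c → BN {x | x ∈ D ∧ z x ≤ δ₁} (m + 1) K c →
      ∃ L : Ed d → ℂ, OK D L ∧ BN D m L (C * c) ∧ ∃ B, ∀ x ∈ D, z x < δ₁ / 2 →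
        ‖fderiv ℝ L x (gradient z x) + fderiv ℝ K x (gradient z x)‖ ≤ B * z x := by
  have hzs : ContDiff ℝ ((⊤ : ℕ∞) : WithTop ℕ∞) z := hD.smo
  have hzc : Continuous z := hzs.continuous
  have hzd : Differentiable ℝ z := hzs.differentiable (by simp)
  set R : Set (Ed d) := {x | x ∈ D ∧ z x ≤ δ₁} with hR
  have hRb : Bornology.IsBounded R := hD.bdd.subset fun x hx => hx.1
  -- the cut-off function
  set g : Ed d → ℝ := fun x => -(z x) * (1 - Real.smoothTransition (4 * (z x / δ₁) - 2)) with hg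
  have hgs : Smo g := by
    have e1 : ContDiff ℝ ((⊤ : ℕ∞) : WithTop ℕ∞) (fun x => 4 * (z x / δ₁) - 2) :=
      (contDiff_const.mul (hzs.div_const δ₁)).sub contDiff_const
    have e2 : ContDiff ℝ ((⊤ : ℕ∞) : WithTop ℕ∞) (fun x => Real.smoothTransition (4 * (z x / δ₁) - 2)) :=
      (Real.smoothTransition.contDiff (n := (⊤ : ℕ∞))).comp e1
    exact hzs.neg.mul (contDiff_const.sub e2)
  have hg1 : ∀ x, z x < δ₁ / 2 → g x = -(z x) := by
    intro x hx
    have e1 : 4 * (z x / δ₁) - 2 ≤ 0 := by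
      have : z x / δ₁ ≤ 1 / 2 := by
        rw [div_le_iff₀ h0]
        linarith
      linarith
    simp only [hg]
    rw [Real.smoothTransition.zero_of_nonpos e1]
    ring
  have hg0 : ∀ x, 3 / 4 * δ₁ < z x → g x = 0 := by
    intro x hx
    have e1 : 1 ≤ 4 * (z x / δ₁) - 2 := by
      have : 3 / 4 ≤ z x / δ₁ := by
        rw [le_div_iff₀ h0]
        linarith
      linarith
    simp only [hg]
    rw [Real.smoothTransition.one_of_one_le e1]
    ring
  have hgR : OK R (fun x => ((g x : ℝ) : ℂ)) := ok_ofReal (ok_of_smo hgs hRb)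
  have hpR : ∀ j, OK R (fun x => ((pd j z x : ℝ) : ℂ)) := fun j => ok_ofReal (ok_of_smo (smo_pd hD.smo j) hRb)
  obtain ⟨a, ha0, ha⟩ := bn_exists hgR m
  choose b hb0 hb using fun j => bn_exists (hpR j) m
  refine ⟨2 ^ m * a * ∑ j, 2 ^ m * b j, ?_, ?_⟩
  · have : 0 ≤ ∑ j, 2 ^ m * b j := Finset.sum_nonneg fun j _ => mul_nonneg (by positivity) (hb0 j)
    positivity
  intro K hK c hc hKc
  set M : Ed d → ℂ := fun x => ∑ j, ((pd j z x : ℝ) : ℂ) * pd j K x with hM
  have hMok : OK R M := ok_sum Finset.univ fun j _ => ok_mul (hpR j) (ok_pd hK j)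
  have hMbn : BN R m M (∑ j, 2 ^ m * b j * c) :=
    bn_sum Finset.univ (fun j _ => ok_mul (hpR j) (ok_pd hK j))
      fun j _ => bn_mul (hpR j) (ok_pd hK j) (hb j) (bn_pd hK (fun i _ hi x hx => hKc i hi x hx) j)
  have hLok : OK R (fun x => ((g x : ℝ) : ℂ) * M x) := ok_mul hgR hMok
  have hLbn : BN R m (fun x => ((g x : ℝ) : ℂ) * M x) (2 ^ m * a * ∑ j, 2 ^ m * b j * c) :=
    bn_mul hgR hMok ha hMbn
  have hDR : D = R ∪ (D \ R) := by
    ext x
    constructor
    · intro hx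
      by_cases h : x ∈ R
      · exact Or.inl h
      · exact Or.inr ⟨hx, h⟩
    · rintro (hx | hx)
      · exact hx.1
      · exact hx.1
  have hloc : ∀ x ∈ D \ R, (fun _ : Ed d => (0 : ℂ)) =ᶠ[𝓝 x] fun x => ((g x : ℝ) : ℂ) * M x := by
    rintro x ⟨hxD, hxR⟩
    have hx : 3 / 4 * δ₁ < z x := by
      by_contra hh
      exact hxR ⟨hxD, by linarith [not_lt.1 hh]⟩
    filter_upwards [(isOpen_lt continuous_const hzc).mem_nhds hx] with y hy
    rw [hg0 y hy]
    simp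
  refine ⟨fun x => ((g x : ℝ) : ℂ) * M x, ?_, ?_, ?_⟩
  · rw [hDR]
    exact cha_union_ok hLok (ok_congr (ok_const _ 0) hloc)
  · have e1 : (2 ^ m * a * ∑ j, 2 ^ m * b j) * c = 2 ^ m * a * ∑ j, 2 ^ m * b j * c := by
      rw [mul_assoc, Finset.sum_mul]
    rw [e1]
    have hnn : 0 ≤ 2 ^ m * a * ∑ j, 2 ^ m * b j * c := by
      have : 0 ≤ ∑ j, 2 ^ m * b j * c :=
        Finset.sum_nonneg fun j _ => mul_nonneg (mul_nonneg (by positivity) (hb0 j)) hc
      positivity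
    have hz2 := bn_congr (cha_bn_zero (F := ℂ) (D \ R) m hnn) hloc
    intro i hi x hx
    rw [hDR] at hx
    rcases hx with hx | hx
    · exact hLbn i hi x hx
    · exact hz2 i hi x hx
  · obtain ⟨B, hB⟩ := hMok.2 1
    refine ⟨B, fun x hx hzx => ?_⟩
    have hzpos : 0 < z x := (hD.pos x).1 hx
    have hxR : x ∈ R := ⟨hx, by linarith⟩
    have hMd : DifferentiableAt ℝ M x := (hMok.1 x hxR).differentiableAt (by simp)
    have hu : ‖gradient z x‖ = 1 := by
      refine hD.unit x ?_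
      rw [abs_of_pos hzpos]
      have := hD.δ0
      linarith
    have hzz : fderiv ℝ z x (gradient z x) = 1 := by
      have h : ⟪gradient z x, gradient z x⟫_ℝ = fderiv ℝ z x (gradient z x) := inner_gradient_left
      rw [← h, real_inner_self_eq_norm_sq, hu]
      norm_num
    have hev : (fun x => ((g x : ℝ) : ℂ) * M x) =ᶠ[𝓝 x] fun x => ((-(z x) : ℝ) : ℂ) * M x := by
      filter_upwards [(isOpen_lt hzc continuous_const).mem_nhds hzx] with y hy
      rw [hg1 y hy]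
    have e1 : HasFDerivAt (fun x => ((-(z x) : ℝ) : ℂ)) (Complex.ofRealCLM.comp (-(fderiv ℝ z x))) x :=
      Complex.ofRealCLM.hasFDerivAt.comp x (hzd x).hasFDerivAt.neg
    have e2 := e1.mul hMd.hasFDerivAt
    have e3 : fderiv ℝ (fun x => ((g x : ℝ) : ℂ) * M x) x (gradient z x) =
        ((-(z x) : ℝ) : ℂ) * fderiv ℝ M x (gradient z x) - M x := by
      rw [hev.fderiv_eq]
      have e4 : fderiv ℝ (fun x => ((-(z x) : ℝ) : ℂ) * M x) x =
        ((-(z x) : ℝ) : ℂ) • fderiv ℝ M x + M x • (Complex.ofRealCLM.comp (-(fderiv ℝ z x))) := e2.fderiv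
      rw [e4]
      simp only [add_apply, smul_apply, smul_eq_mul,
        ContinuousLinearMap.comp_apply, neg_apply, hzz, Complex.ofRealCLM_apply]
      push_cast
      ring
    rw [e3, ← cha_normal z K x]
    have e5 : ((-(z x) : ℝ) : ℂ) * fderiv ℝ M x (gradient z x) - M x + ∑ j, ((pd j z x : ℝ) : ℂ) * pd j K x =
        ((-(z x) : ℝ) : ℂ) * fderiv ℝ M x (gradient z x) := by
      rw [hM]
      ring
    rw [e5, norm_mul, Complex.norm_real, norm_neg, Real.norm_of_nonneg hzpos.le, mul_comm]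
    refine mul_le_mul_of_nonneg_right ?_ hzpos.le
    refine ((fderiv ℝ M x).le_opNorm _).trans ?_
    rw [hu, mul_one]
    have h3 := hB x hxR
    rwa [norm_iteratedFDeriv_one] at h3

end Pool.Agent.Lib.MP_79abb3_an.W.C
end

section

/-!
Theorem W (MP_79abb3_an), block C (density of the drifts). Bounds for the Kelvin exponentials.
-/

set_option autoImplicit false
set_option linter.unusedSectionVars false
set_option linter.unusedVariables false

open MeasureTheory Set Filter Topology Function Metric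
open scoped ENNReal InnerProductSpace BoundedContinuousFunction

namespace Pool.Agent.Lib.MP_79abb3_an.W.C

variable {d : ℕ} {F : Type} [NormedAddCommGroup F] [NormedSpace ℝ F]

private theorem cfc_a (y : Ed d) (n : ℕ) :
    ContDiffOn ℝ ((⊤ : ℕ∞) : WithTop ℕ∞) (fun x : Ed d => ((((‖x - y‖ ^ n)⁻¹ : ℝ)) : ℂ)) {y}ᶜ := by
  intro x hx
  have hne : x - y ≠ 0 := sub_ne_zero.2 hx
  have h1 : ContDiffAt ℝ ((⊤ : ℕ∞) : WithTop ℕ∞) (fun x : Ed d => ‖x - y‖) x :=
    (contDiffAt_id.sub contDiffAt_const).norm ℝ hne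
  have h2 : ContDiffAt ℝ ((⊤ : ℕ∞) : WithTop ℕ∞) (fun x : Ed d => (‖x - y‖ ^ n)⁻¹) x :=
    (h1.pow n).inv (pow_ne_zero _ (norm_ne_zero_iff.2 hne))
  exact (Complex.ofRealCLM.contDiff.contDiffAt.comp x h2).contDiffWithinAt

private theorem cfc_K (y : Ed d) (r ρ : ℝ) : IsCompact {x : Ed d | r ≤ ‖x - y‖ ∧ ‖x - y‖ ≤ ρ} := by
  refine (isCompact_closedBall y ρ).of_isClosed_subset ?_ ?_
  · have hc : Continuous fun x : Ed d => ‖x - y‖ := by fun_prop
    exact (isClosed_le continuous_const hc).inter (isClosed_le hc continuous_const)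
  · intro x hx
    rw [mem_closedBall, dist_eq_norm]
    exact hx.2

/-- PROOF. `comp_bound` with `U = {x | x ≠ y}`, `K = {r ≤ |x-y| ≤ ρ}`, `a = |x-y|^{2-d}`, `Y = iv y`,
`H = exp (br ζ ·)`, `exp_bound`, `‖ζ‖^j ≤ (1+‖ζ‖)^m`. -/
theorem KV_bound (y : Ed d) {r ρ : ℝ} (hr : 0 < r) (m : ℕ) :
    ∃ C, 0 ≤ C ∧ ∀ (ζ : Cd d) (x : Ed d), r ≤ ‖x - y‖ → ‖x - y‖ ≤ ρ → ∀ i ≤ m,
      ‖iteratedFDeriv ℝ i (KV y ζ) x‖ ≤ C * (1 + ‖ζ‖) ^ m * Real.exp ⟪rv ζ, iv y x⟫_ℝ := by
  have hKU : {x : Ed d | r ≤ ‖x - y‖ ∧ ‖x - y‖ ≤ ρ} ⊆ {y}ᶜ := by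
    rintro x hx rfl
    have := hx.1
    rw [sub_self, norm_zero] at this
    linarith
  obtain ⟨C, hC, h⟩ := comp_bound (isOpen_compl_singleton (x := y)) (cfc_K y r ρ) hKU
    (cfc_a y (d - 2)) (fun x hx => (iv_cda (y := y) (x := x) hx).contDiffWithinAt) m
  refine ⟨C, hC, fun ζ x h1 h2 i hi => ?_⟩
  have h3 := h (fun Y : Ed d => Complex.exp (br ζ Y)) (smo_exp ζ) x ⟨h1, h2⟩
    ((1 + ‖ζ‖) ^ m * Real.exp ⟪rv ζ, iv y x⟫_ℝ) (fun j hj => (exp_bound ζ j (iv y x)).trans ?_) i hi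
  · rw [mul_assoc]
    exact h3
  · refine mul_le_mul_of_nonneg_right ?_ (Real.exp_nonneg _)
    have h4 : ‖ζ‖ ^ j ≤ (1 + ‖ζ‖) ^ j := pow_le_pow_left₀ (norm_nonneg _) (by linarith) j
    exact h4.trans (pow_le_pow_right₀ (by linarith [norm_nonneg ζ]) hj)

/-- PROOF. `⟨rv ζ, iv y x⟩ ≤ ‖rv ζ‖ / ‖x-y‖`. -/
theorem KV_bound' (y : Ed d) {r ρ : ℝ} (hr : 0 < r) (m : ℕ) :
    ∃ C, 0 ≤ C ∧ ∀ (ζ : Cd d) (S : Set (Ed d)) (s A : ℝ), r ≤ s → ‖rv ζ‖ ≤ A →
      (∀ x ∈ S, s ≤ ‖x - y‖ ∧ ‖x - y‖ ≤ ρ) → BN S m (KV y ζ) (C * (1 + ‖ζ‖) ^ m * Real.exp (A / s)) := by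
  obtain ⟨C, hC, h⟩ := KV_bound (ρ := ρ) y hr m
  refine ⟨C, hC, fun ζ S s A hs hA hS i hi x hx => ?_⟩
  obtain ⟨h1, h2⟩ := hS x hx
  have hs0 : 0 < s := hr.trans_le hs
  refine (h ζ x (hs.trans h1) h2 i hi).trans ?_
  refine mul_le_mul_of_nonneg_left (Real.exp_le_exp.2 ?_) (by positivity)
  have hne : x ≠ y := by
    rintro rfl
    rw [sub_self, norm_zero] at h1
    linarith
  have h3 : ⟪rv ζ, iv y x⟫_ℝ ≤ ‖rv ζ‖ * ‖iv y x‖ := real_inner_le_norm _ _
  rw [norm_iv hne, ← div_eq_mul_inv] at h3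
  refine h3.trans ?_
  have hA0 : 0 ≤ A := (norm_nonneg _).trans hA
  exact div_le_div₀ hA0 hA hs0 h1

end Pool.Agent.Lib.MP_79abb3_an.W.C
end

section

/-!
Theorem W (MP_79abb3_an), block C (density of the drifts). Wall corrections.
-/

set_option autoImplicit false
set_option linter.unusedSectionVars false
set_option linter.unusedVariables false

open MeasureTheory Set Filter Topology Function Metric
open scoped ENNReal InnerProductSpace BoundedContinuousFunction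

namespace Pool.Agent.Lib.MP_79abb3_an.W.C

variable {d : ℕ} {F : Type} [NormedAddCommGroup F] [NormedSpace ℝ F]

private theorem chb_open {D : Set (Ed d)} {z : Ed d → ℝ} {δ : ℝ} (hD : Dom D z δ) : IsOpen D := by
  have h1 : D = z ⁻¹' Ioi 0 := by
    ext x
    exact hD.pos x
  rw [h1]
  exact isOpen_Ioi.preimage (ContDiff.continuous hD.smo)

private theorem chb_bd {D : Set (Ed d)} {f : Ed d → F} (hf : OK D f) : BD D f :=
  ⟨fun x hx => (hf.1 x hx).contDiffWithinAt, hf.2⟩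

private theorem chb_ok {D : Set (Ed d)} {f : Ed d → F} (hD : IsOpen D) (hf : BD D f) : OK D f :=
  ⟨fun _ hx => hf.1.contDiffAt (hD.mem_nhds hx), hf.2⟩

private theorem chb_bn_mono {R : Set (Ed d)} {m m' : ℕ} {f : Ed d → F} {c c' : ℝ} (h : BN R m f c) (hm : m' ≤ m)
    (hc : c ≤ c') : BN R m' f c' := fun i hi x hx => (h i (hi.trans hm) x hx).trans hc

private theorem chb_bn_gn {R : Set (Ed d)} {m : ℕ} {f : Ed d → F} {c : ℝ} (h : BN R m f c) : GN R m f c :=
  fun i _ hi x hx => h i hi x hx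

private theorem chb_ok_lapl {R : Set (Ed d)} {f : Ed d → F} (hf : OK R f) : OK R (lapl f) :=
  ok_sum Finset.univ fun i _ => ok_pd (ok_pd hf i) i

private theorem chb_bn_lapl {R : Set (Ed d)} {m : ℕ} {f : Ed d → F} {c : ℝ} (hf : OK R f)
    (h : BN R (m + 2) f c) : BN R m (lapl f) (d * c) := by
  have h1 := bn_sum (R := R) (m := m) (Finset.univ : Finset (Fin d)) (f := fun i => pd i (pd i f))
    (a := fun _ => c) (fun i _ => ok_pd (ok_pd hf i) i)
    (fun i _ => bn_pd (ok_pd hf i) (chb_bn_gn (bn_pd hf (chb_bn_gn h) i)) i)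
  rw [Finset.sum_const, Finset.card_univ, Fintype.card_fin, nsmul_eq_mul] at h1
  exact h1

private theorem chb_pd_clm {G : Type} [NormedAddCommGroup G] [NormedSpace ℝ G] (A : F →L[ℝ] G) {f : Ed d → F}
    {x : Ed d} (hf : DifferentiableAt ℝ f x) (i : Fin d) : pd i (fun x => A (f x)) x = A (pd i f x) := by
  unfold pd
  have h1 : fderiv ℝ (fun x => A (f x)) x = A.comp (fderiv ℝ f x) :=
    (A.hasFDerivAt.comp x hf.hasFDerivAt).fderiv
  rw [h1]
  rfl

private theorem chb_pd_add {f g : Ed d → F} {x : Ed d} (hf : DifferentiableAt ℝ f x)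
    (hg : DifferentiableAt ℝ g x) (i : Fin d) : pd i (fun x => f x + g x) x = pd i f x + pd i g x := by
  unfold pd
  have h1 : fderiv ℝ (fun x => f x + g x) x = fderiv ℝ f x + fderiv ℝ g x := fderiv_add hf hg
  rw [h1]
  rfl

private theorem chb_dat {D : Set (Ed d)} {f : Ed d → F} (hf : OK D f) {x : Ed d} (hx : x ∈ D) :
    DifferentiableAt ℝ f x := (hf.1 x hx).differentiableAt (by simp)

private theorem chb_lapl_clm {G : Type} [NormedAddCommGroup G] [NormedSpace ℝ G] (A : F →L[ℝ] G)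
    {D : Set (Ed d)} (hD : IsOpen D) {f : Ed d → F} (hf : OK D f) {x : Ed d} (hx : x ∈ D) :
    lapl (fun x => A (f x)) x = A (lapl f x) := by
  unfold lapl
  rw [map_sum]
  refine Finset.sum_congr rfl fun i _ => ?_
  have h1 : pd i (fun x => A (f x)) =ᶠ[𝓝 x] fun x => A (pd i f x) := by
    filter_upwards [hD.mem_nhds hx] with y hy
    exact chb_pd_clm A (chb_dat hf hy) i
  have h2 : pd i (pd i (fun x => A (f x))) x = pd i (fun x => A (pd i f x)) x := by
    show fderiv ℝ _ x _ = fderiv ℝ _ x _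
    rw [h1.fderiv_eq]
  rw [h2, chb_pd_clm A (chb_dat (ok_pd hf i) hx) i]

private theorem chb_lapl_add {D : Set (Ed d)} (hD : IsOpen D) {f g : Ed d → F} (hf : OK D f) (hg : OK D g)
    {x : Ed d} (hx : x ∈ D) : lapl (fun x => f x + g x) x = lapl f x + lapl g x := by
  unfold lapl
  rw [← Finset.sum_add_distrib]
  refine Finset.sum_congr rfl fun i _ => ?_
  have h1 : pd i (fun x => f x + g x) =ᶠ[𝓝 x] fun x => pd i f x + pd i g x := by
    filter_upwards [hD.mem_nhds hx] with y hy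
    exact chb_pd_add (chb_dat hf hy) (chb_dat hg hy) i
  have h2 : pd i (pd i (fun x => f x + g x)) x = pd i (fun x => pd i f x + pd i g x) x := by
    show fderiv ℝ _ x _ = fderiv ℝ _ x _
    rw [h1.fderiv_eq]
  rw [h2, chb_pd_add (chb_dat (ok_pd hf i) hx) (chb_dat (ok_pd hg i) hx) i]

private theorem chb_fderiv_le {R : Set (Ed d)} {f : Ed d → F} {C : ℝ}
    (h : ∀ x ∈ R, ‖iteratedFDeriv ℝ 1 f x‖ ≤ C) {x : Ed d} (hx : x ∈ R) : ‖fderiv ℝ f x‖ ≤ C := by
  have h1 := h x hx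
  rw [← norm_iteratedFDeriv_fderiv, norm_iteratedFDeriv_zero] at h1
  exact h1

private theorem chb_integrable {D : Set (Ed d)} (hD : IsOpen D) (hb : Bornology.IsBounded D) {g : Ed d → ℝ}
    (hg : OK D g) : IntegrableOn g D := by
  obtain ⟨C, hC⟩ := hg.2 0
  have hcon : ContinuousOn g D := fun x hx => (hg.1 x hx).continuousAt.continuousWithinAt
  have : IsFiniteMeasure ((volume : Measure (Ed d)).restrict D) := ⟨by
    rw [Measure.restrict_apply_univ]
    exact hb.measure_lt_top⟩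
  refine Integrable.of_bound (hcon.aestronglyMeasurable hD.measurableSet) C ?_
  refine (ae_restrict_iff' hD.measurableSet).2 (ae_of_all _ fun x hx => ?_)
  have := hC x hx
  rwa [norm_iteratedFDeriv_zero] at this

/-- The real problem. -/
private theorem chb_real {D : Set (Ed d)} {z : Ed d → ℝ} {δ : ℝ} {a : Ed d} {r₁ r₂ : ℝ}
    (hG : Geo D z δ a r₁ r₂) (hN : NeuP D z) (m : ℕ) : ∃ (m₁ : ℕ) (C : ℝ), 0 ≤ C ∧ ∀ g : Ed d → ℝ, OK D g →
      ∀ c, 0 ≤ c → BN D m₁ g c → ∃ q : Ed d → ℝ, OK D q ∧ (∀ x ∈ D \ ball a r₁, lapl q x = -g x) ∧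
        (Oz D z fun x => fderiv ℝ q x (gradient z x)) ∧ GN D m q (C * c) := by
  have hO := chb_open hG.dom
  have hb := hG.dom.bdd
  obtain ⟨m₁, C₁, hC₁, hest⟩ := hN.est m
  set b : ContDiffBump a := ⟨r₁ / 2, r₁, by have := hG.pos; linarith, by have := hG.pos; linarith⟩ with hbdef
  set β : Ed d → ℝ := b.normed volume with hβ
  have hβs : Smo β := b.contDiff_normed
  have hβ0 : ∀ x ∉ ball a r₁, β x = 0 := by
    intro x hx
    by_contra h
    have h1 : x ∈ Function.support β := h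
    rw [hβ, b.support_normed_eq] at h1
    exact hx h1
  have hsub : ball a r₁ ⊆ D := (ball_subset_closedBall.trans (closedBall_subset_closedBall hG.lt.le)).trans hG.sub
  have hβi : ∫ x in D, β x = 1 := by
    rw [setIntegral_eq_integral_of_forall_compl_eq_zero fun x hx => hβ0 x fun h => hx (hsub h)]
    exact b.integral_normed
  have hβok : OK D β := ok_of_smo hβs hb
  obtain ⟨cb, hcb, hβb⟩ := bn_exists hβok m₁
  refine ⟨m₁, C₁ * (volume.real D * cb + 1), by positivity, fun g hg c hc hgc => ?_⟩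
  set c₀ : ℝ := ∫ x in D, g x with hc₀
  have hc₀b : |c₀| ≤ c * volume.real D := by
    rw [← Real.norm_eq_abs]
    refine norm_setIntegral_le_of_norm_le_const hb.measure_lt_top fun x hx => ?_
    have := hgc 0 (Nat.zero_le _) x hx
    rwa [norm_iteratedFDeriv_zero] at this
  set A : ℝ →L[ℝ] ℝ := c₀ • ContinuousLinearMap.id ℝ ℝ with hA
  have hAn : ‖A‖ ≤ |c₀| := by
    rw [hA, norm_smul, Real.norm_eq_abs]
    exact mul_le_of_le_one_right (abs_nonneg _) ContinuousLinearMap.norm_id_le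
  have hAβ : OK D (fun x => A (β x)) := ok_clm A hβok
  have hf : OK D (fun x => A (β x) - g x) := ok_sub hAβ hg
  have hfi : ∫ x in D, (A (β x) - g x) = 0 := by
    rw [integral_sub (chb_integrable hO hb hAβ) (chb_integrable hO hb hg)]
    have h1 : ∀ x, A (β x) = c₀ * β x := fun x => rfl
    simp_rw [h1]
    rw [integral_const_mul, hβi, mul_one, sub_self]
  obtain ⟨q, hq, hql, hqn⟩ := hN.ex _ (chb_bd hf) hfi
  refine ⟨q, chb_ok hO hq, fun x hx => ?_, hqn, ?_⟩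
  · rw [hql x hx.1, hβ0 x hx.2, map_zero, zero_sub]
  · have h1 : BN D m₁ (fun x => A (β x) - g x) (|c₀| * cb + c) :=
      bn_sub hAβ hg (chb_bn_mono (bn_clm A hβok hβb) le_rfl (mul_le_mul_of_nonneg_right hAn hcb)) hgc
    have h2 : BN D m₁ (lapl q) ((volume.real D * cb + 1) * c) := by
      refine bn_congr (chb_bn_mono h1 le_rfl ?_) fun x hx => ?_
      · have := mul_le_mul_of_nonneg_right hc₀b hcb
        linarith
      · filter_upwards [hO.mem_nhds hx] with y hy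
        exact (hql y hy).symm
    have h3 := hest q hq hqn _ (by positivity) h2
    rw [mul_assoc]
    exact h3

/-- PROOF. `K` complex: apply the following to real and imaginary parts (or use `NeuP` for `re`, `im` of the right side). `L` from `lift` with `m+2`
(`m` = the order below). Fix `β : Ed d → ℝ` smooth, `∫ β = 1`, compact support in `ball a r₁`. `c₀ = ∫_D lapl L`, `f = c₀ β - lapl L`:
BD, `∫_D f = 0`; `q` from `NeuP.ex`; `w = L + q`. `lapl w = c₀ β = 0` on `D \ ball a r₁`; near the walls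
`∂_n w + ∂_n K = (∂_n L + ∂_n K) + ∂_n q = O(z)`; for `z x ≥ δ₁/2` the left side is bounded by a constant `≤ B z x`. Estimate: `NeuP.est` with `k = m`:
`GN D m q ≤ C BN D m' (lapl q)`, `lapl q = f` on `D` (open), `|c₀| ≤ |D| sup|lapl L|`. -/
theorem wall {D : Set (Ed d)} {z : Ed d → ℝ} {δ : ℝ} {a : Ed d} {r₁ r₂ : ℝ} (hG : Geo D z δ a r₁ r₂)
    (hN : NeuP D z) {δ₁ : ℝ} (h0 : 0 < δ₁) (h1 : δ₁ ≤ δ) (m : ℕ) :
    ∃ (m' : ℕ) (C : ℝ), 0 ≤ C ∧ ∀ K : Ed d → ℂ, OK {x | x ∈ D ∧ z x ≤ δ₁} K → ∀ c, 0 ≤ c →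
      BN {x | x ∈ D ∧ z x ≤ δ₁} m' K c → ∃ w : Ed d → ℂ, OK D w ∧ (∀ x ∈ D \ ball a r₁, lapl w x = 0) ∧
        GN D m w (C * c) ∧ ∃ B, ∀ x ∈ D, z x ≤ δ₁ →
          ‖fderiv ℝ w x (gradient z x) + fderiv ℝ K x (gradient z x)‖ ≤ B * z x := by
  have hO := chb_open hG.dom
  obtain ⟨m₁, C₃, hC₃, hreal⟩ := chb_real hG hN m
  obtain ⟨C₂, hC₂, hlift⟩ := lift hG.dom h0 h1 (max m (m₁ + 2))
  refine ⟨max m (m₁ + 2) + 1, C₂ + (C₃ * (d * C₂) + C₃ * (d * C₂)), by positivity, fun K hK c hc hKc => ?_⟩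
  obtain ⟨L, hL, hLb, B, hB⟩ := hlift K hK c hc hKc
  have hg : BN D m₁ (lapl L) (d * (C₂ * c)) := chb_bn_lapl hL (chb_bn_mono hLb (le_max_right _ _) le_rfl)
  have hlL := chb_ok_lapl hL
  have hre : BN D m₁ (fun x => Complex.reCLM (lapl L x)) (d * (C₂ * c)) :=
    chb_bn_mono (bn_clm Complex.reCLM hlL hg) le_rfl (by rw [Complex.reCLM_norm, one_mul])
  have him : BN D m₁ (fun x => Complex.imCLM (lapl L x)) (d * (C₂ * c)) :=
    chb_bn_mono (bn_clm Complex.imCLM hlL hg) le_rfl (by rw [Complex.imCLM_norm, one_mul])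
  obtain ⟨q, hq, hql, ⟨B₁, hB₁⟩, hqg⟩ := hreal _ (ok_clm Complex.reCLM hlL) _ (by positivity) hre
  obtain ⟨p, hp, hpl, ⟨B₂, hB₂⟩, hpg⟩ := hreal _ (ok_clm Complex.imCLM hlL) _ (by positivity) him
  set A₁ : ℝ →L[ℝ] ℂ := Complex.ofRealCLM with hA₁
  set A₂ : ℝ →L[ℝ] ℂ := Complex.I • Complex.ofRealCLM with hA₂
  have n₁ : ‖A₁‖ ≤ 1 := by rw [hA₁, Complex.ofRealCLM_norm]
  have n₂ : ‖A₂‖ ≤ 1 := by
    refine ContinuousLinearMap.opNorm_le_bound _ zero_le_one fun t => ?_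
    show ‖Complex.I * (t : ℂ)‖ ≤ 1 * ‖t‖
    rw [norm_mul, Complex.norm_I, Complex.norm_real]
  have o₁ : OK D (fun x => A₁ (q x)) := ok_clm A₁ hq
  have o₂ : OK D (fun x => A₂ (p x)) := ok_clm A₂ hp
  have o₃ : OK D (fun x => A₁ (q x) + A₂ (p x)) := ok_add o₁ o₂
  refine ⟨fun x => L x + (A₁ (q x) + A₂ (p x)), ok_add hL o₃, fun x hx => ?_, ?_, ?_⟩
  · rw [chb_lapl_add hO hL o₃ hx.1, chb_lapl_add hO o₁ o₂ hx.1, chb_lapl_clm A₁ hO hq hx.1,
      chb_lapl_clm A₂ hO hp hx.1, hql x hx, hpl x hx]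
    show lapl L x + (((-(lapl L x).re : ℝ) : ℂ) + Complex.I * ((-(lapl L x).im : ℝ) : ℂ)) = 0
    have h2 := Complex.re_add_im (lapl L x)
    push_cast
    linear_combination -h2
  · intro i hi hi' x hx
    have e1 : iteratedFDeriv ℝ i (fun x => L x + (A₁ (q x) + A₂ (p x))) x = iteratedFDeriv ℝ i L x +
        (iteratedFDeriv ℝ i (fun x => A₁ (q x)) x + iteratedFDeriv ℝ i (fun x => A₂ (p x)) x) := by
      have hle : ((i : ℕ∞) : WithTop ℕ∞) ≤ ((⊤ : ℕ∞) : WithTop ℕ∞) := by exact_mod_cast le_top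
      have g1 := iteratedFDeriv_add_apply (𝕜 := ℝ) (i := i) ((hL.1 x hx).of_le hle) ((o₃.1 x hx).of_le hle)
      have g2 := iteratedFDeriv_add_apply (𝕜 := ℝ) (i := i) ((o₁.1 x hx).of_le hle) ((o₂.1 x hx).of_le hle)
      have g1' : iteratedFDeriv ℝ i (fun x => L x + (A₁ (q x) + A₂ (p x))) x = iteratedFDeriv ℝ i L x +
        iteratedFDeriv ℝ i (fun x => A₁ (q x) + A₂ (p x)) x := g1
      have g2' : iteratedFDeriv ℝ i (fun x => A₁ (q x) + A₂ (p x)) x =
        iteratedFDeriv ℝ i (fun x => A₁ (q x)) x + iteratedFDeriv ℝ i (fun x => A₂ (p x)) x := g2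
      rw [g1', g2']
    have e2 : ‖iteratedFDeriv ℝ i (fun x => A₁ (q x)) x‖ ≤ C₃ * (d * (C₂ * c)) :=
      (nrm_clm A₁ (hq.1 x hx) i).trans ((mul_le_of_le_one_left (norm_nonneg _) n₁).trans (hqg i hi hi' x hx))
    have e3 : ‖iteratedFDeriv ℝ i (fun x => A₂ (p x)) x‖ ≤ C₃ * (d * (C₂ * c)) :=
      (nrm_clm A₂ (hp.1 x hx) i).trans ((mul_le_of_le_one_left (norm_nonneg _) n₂).trans (hpg i hi hi' x hx))
    have e4 : ‖iteratedFDeriv ℝ i L x‖ ≤ C₂ * c := hLb i (hi'.trans (le_max_left _ _)) x hx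
    rw [e1]
    calc _ ≤ C₂ * c + (C₃ * (d * (C₂ * c)) + C₃ * (d * (C₂ * c))) :=
          (norm_add_le _ _).trans (add_le_add e4 ((norm_add_le _ _).trans (add_le_add e2 e3)))
      _ = _ := by ring
  · obtain ⟨bL, hbL⟩ := hL.2 1
    obtain ⟨bK, hbK⟩ := hK.2 1
    refine ⟨max B ((|bL| + |bK|) * (2 / δ₁)) + (B₁ + B₂), fun x hx hzx => ?_⟩
    have hz0 : 0 < z x := (hG.dom.pos x).1 hx
    have hn : ‖gradient z x‖ = 1 := hG.dom.unit x (by
      rw [abs_of_pos hz0]
      have := hG.dom.δ0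
      linarith)
    have e1 : fderiv ℝ (fun x => L x + (A₁ (q x) + A₂ (p x))) x (gradient z x) =
        fderiv ℝ L x (gradient z x) + (A₁ (fderiv ℝ q x (gradient z x)) + A₂ (fderiv ℝ p x (gradient z x))) := by
      have f1 : HasFDerivAt (fun x => A₁ (q x)) (A₁.comp (fderiv ℝ q x)) x :=
        A₁.hasFDerivAt.comp x (chb_dat hq hx).hasFDerivAt
      have f2 : HasFDerivAt (fun x => A₂ (p x)) (A₂.comp (fderiv ℝ p x)) x :=
        A₂.hasFDerivAt.comp x (chb_dat hp hx).hasFDerivAt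
      have f3 : HasFDerivAt (fun x => L x + (A₁ (q x) + A₂ (p x)))
          (fderiv ℝ L x + (A₁.comp (fderiv ℝ q x) + A₂.comp (fderiv ℝ p x))) x :=
        (chb_dat hL hx).hasFDerivAt.add (f1.add f2)
      rw [f3.fderiv]
      rfl
    have e2 : ‖A₁ (fderiv ℝ q x (gradient z x))‖ ≤ B₁ * z x :=
      ((A₁.le_opNorm _).trans (mul_le_of_le_one_left (norm_nonneg _) n₁)).trans (hB₁ x hx)
    have e3 : ‖A₂ (fderiv ℝ p x (gradient z x))‖ ≤ B₂ * z x :=
      ((A₂.le_opNorm _).trans (mul_le_of_le_one_left (norm_nonneg _) n₂)).trans (hB₂ x hx)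
    have e4 : ‖fderiv ℝ L x (gradient z x) + fderiv ℝ K x (gradient z x)‖ ≤
        max B ((|bL| + |bK|) * (2 / δ₁)) * z x := by
      by_cases hlt : z x < δ₁ / 2
      · exact (hB x hx hlt).trans (mul_le_mul_of_nonneg_right (le_max_left _ _) hz0.le)
      · push Not at hlt
        have k1 : ‖fderiv ℝ L x (gradient z x)‖ ≤ |bL| := by
          refine ((fderiv ℝ L x).le_opNorm _).trans ?_
          rw [hn, mul_one]
          exact (chb_fderiv_le hbL hx).trans (le_abs_self _)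
        have k2 : ‖fderiv ℝ K x (gradient z x)‖ ≤ |bK| := by
          refine ((fderiv ℝ K x).le_opNorm _).trans ?_
          rw [hn, mul_one]
          exact (chb_fderiv_le hbK ⟨hx, hzx⟩).trans (le_abs_self _)
        have k3 : |bL| + |bK| ≤ (|bL| + |bK|) * (2 / δ₁) * z x := by
          have k4 : 1 ≤ 2 / δ₁ * z x := by
            rw [div_mul_eq_mul_div, le_div_iff₀ h0]
            linarith
          have k5 : 0 ≤ |bL| + |bK| := by positivity
          calc |bL| + |bK| = (|bL| + |bK|) * 1 := (mul_one _).symm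
            _ ≤ (|bL| + |bK|) * (2 / δ₁ * z x) := mul_le_mul_of_nonneg_left k4 k5
            _ = _ := by ring
        exact (((norm_add_le _ _).trans (add_le_add k1 k2)).trans k3).trans
          (mul_le_mul_of_nonneg_right (le_max_right _ _) hz0.le)
    rw [e1]
    have e5 : fderiv ℝ L x (gradient z x) + (A₁ (fderiv ℝ q x (gradient z x)) + A₂ (fderiv ℝ p x (gradient z x))) +
        fderiv ℝ K x (gradient z x) = (fderiv ℝ L x (gradient z x) + fderiv ℝ K x (gradient z x)) +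
        (A₁ (fderiv ℝ q x (gradient z x)) + A₂ (fderiv ℝ p x (gradient z x))) := by ring
    rw [e5]
    calc _ ≤ max B ((|bL| + |bK|) * (2 / δ₁)) * z x + (B₁ * z x + B₂ * z x) :=
          (norm_add_le _ _).trans (add_le_add e4 ((norm_add_le _ _).trans (add_le_add e2 e3)))
      _ = _ := by ring

end Pool.Agent.Lib.MP_79abb3_an.W.C
end

section

/-!
Theorem W (MP_79abb3_an), block C (density of the drifts). Runge approximation: moving the pole in a connected set.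
-/

set_option autoImplicit false
set_option linter.unusedSectionVars false
set_option linter.unusedVariables false

open MeasureTheory Set Filter Topology Function Metric
open scoped ENNReal InnerProductSpace BoundedContinuousFunction

namespace Pool.Agent.Lib.MP_79abb3_an.W.C

variable {d : ℕ} {F : Type} [NormedAddCommGroup F] [NormedSpace ℝ F]

private theorem cge_cont {Q : Set (Ed d)} {w : Ed d} (h : w ∉ Q) (ζ : Cd d) :
    Continuous fun x : Q => KV w ζ (x : Ed d) := by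
  rw [continuous_iff_continuousAt]
  intro x
  have h1 : (x : Ed d) ≠ w := fun h2 => h (h2 ▸ x.2)
  exact (KV_cda h1 ζ).continuousAt.comp continuous_subtype_val.continuousAt

open scoped Classical in
/-- the Kelvin exponential as an element of `C(Q, ℂ)` -/
private noncomputable def cgek (Q : Set (Ed d)) (ζ : Cd d) (w : Ed d) : C(Q, ℂ) :=
  if h : w ∉ Q then ⟨fun x : Q => KV w ζ (x : Ed d), cge_cont h ζ⟩ else 0

private theorem cgek_apply {Q : Set (Ed d)} {w : Ed d} (h : w ∉ Q) (ζ : Cd d) (x : Q) :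
    cgek Q ζ w x = KV w ζ (x : Ed d) := by
  rw [cgek, dif_pos h]
  rfl

/-- Hahn-Banach: a functional which vanishes on a closed subspace and not at a point outside -/
private theorem cge_hb {X : Type} [NormedAddCommGroup X] [NormedSpace ℂ X] {L : Submodule ℂ X} {x : X}
    (hx : x ∉ L.topologicalClosure) : ∃ ℓ : X →L[ℂ] ℂ, (∀ z ∈ L, ℓ z = 0) ∧ ℓ x ≠ 0 := by
  have hc : IsClosed (L.topologicalClosure : Set X) := L.isClosed_topologicalClosure
  have : IsClosed (L.topologicalClosure : Set X) := hc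
  obtain ⟨g, hg, hgx⟩ := exists_dual_vector ℂ (Submodule.Quotient.mk x : X ⧸ L.topologicalClosure) (by
    rw [norm_ne_zero_iff]
    intro h
    exact hx ((Submodule.Quotient.mk_eq_zero _).1 h))
  refine ⟨g ∘L L.topologicalClosure.mkQL, fun z hz => ?_, ?_⟩
  · show g (Submodule.Quotient.mk z) = 0
    rw [(Submodule.Quotient.mk_eq_zero _).2 (L.le_topologicalClosure hz), map_zero]
  · show g (Submodule.Quotient.mk x) ≠ 0
    rw [hgx]
    have h1 : ‖(Submodule.Quotient.mk x : X ⧸ L.topologicalClosure)‖ ≠ 0 := by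
      rw [norm_ne_zero_iff]
      intro h
      exact hx ((Submodule.Quotient.mk_eq_zero _).1 h)
    exact fun h => h1 (Complex.ofReal_eq_zero.1 h)

/-- PROOF. Let `k y ∈ C(Q, ℂ)` be the restriction of `KV y ζ` (`y ∉ Q`) and `L` the closed span of `{k y | y ∈ N₁}`. If `k y₁ ∉ L` for some
`y₁ ∈ Ω`, there is `ℓ : C(Q,ℂ) →L[ℂ] ℂ` with `ℓ = 0` on `L`, `ℓ (k y₁) ≠ 0`
(`Submodule.exists_dual_map_eq_bot_of_notMem` / `geometric_hahn_banach_point_closed`, `RCLike`). `W = {y ∈ Ω | ℓ ∘ k = 0 near y}` is open, contains `N₁`. It is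
closed in `Ω`: let `y ∈ Ω ∩ closure W`, `ball y ρ ⊆ Ω`, `y' ∈ W ∩ ball y (ρ/2)`. For every `y''∈ ball y ρ` the segment `[y',y'']` lies in `Ω`;
`t ↦ ℓ(g t)` (`seg_holo`, `y₀ = y'`, `h = y''-y'`) is holomorphic on `U` and `0` at the real `s > 0` near `0`, so near... it vanishes on `U` by the identity
theorem (`AnalyticOnNhd.eqOn_zero_of_preconnected_of_frequently_eq_zero`), in particular at `s = 1`: `ℓ(k y'') = 0`. So `ball y ρ ⊆ W`. As `Ω` is preconnected
`W = Ω`, contradiction. So `k y₁ ∈ L`, an element of the span is within `ε`. -/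
theorem runge0 (hd : 2 ≤ d) {Q Ω N₁ : Set (Ed d)} (hQ : IsCompact Q) (hΩ : IsOpen Ω) (hc : IsPreconnected Ω)
    (hdis : Disjoint Ω Q) (hN : IsOpen N₁) (hne : N₁.Nonempty) (hNΩ : N₁ ⊆ Ω) {y : Ed d} (hy : y ∈ Ω) (ζ : Cd d)
    {ε : ℝ} (hε : 0 < ε) :
    ∃ (n : ℕ) (w : Fin n → Ed d) (c : Fin n → ℂ), (∀ l, w l ∈ N₁) ∧
      ∀ x ∈ Q, ‖KV y ζ x - ∑ l, c l * KV (w l) ζ x‖ ≤ ε := by
  have : CompactSpace Q := isCompact_iff_compactSpace.1 hQ
  have hΩQ : ∀ w ∈ Ω, w ∉ Q := fun w hw hw' => Set.disjoint_left.1 hdis hw hw'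
  set L : Submodule ℂ C(Q, ℂ) := Submodule.span ℂ (cgek Q ζ '' N₁) with hL
  have key : cgek Q ζ y ∈ L.topologicalClosure := by
    by_contra hcon
    obtain ⟨ℓ, hℓ, hℓy⟩ := cge_hb hcon
    set u : Set (Ed d) := interior {w | ℓ (cgek Q ζ w) = 0} with hu
    have hNu : N₁ ⊆ u := interior_maximal
      (fun w hw => hℓ _ (Submodule.subset_span (mem_image_of_mem _ hw))) hN
    have hΩu : Ω ⊆ u := by
      refine hc.subset_of_closure_inter_subset isOpen_interior ?_ ?_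
      · obtain ⟨w, hw⟩ := hne
        exact ⟨w, hNΩ hw, hNu hw⟩
      · rintro w ⟨hw1, hw2⟩
        obtain ⟨ρ, hρ, hρΩ⟩ := Metric.isOpen_iff.1 hΩ w hw2
        obtain ⟨w₁, hw₁u, hw₁⟩ := Metric.mem_closure_iff.1 hw1 ρ hρ
        have hw₁b : w₁ ∈ ball w ρ := by rw [mem_ball, dist_comm]; exact hw₁
        rw [hu, mem_interior]
        refine ⟨ball w ρ, fun w₂ hw₂ => ?_, isOpen_ball, mem_ball_self hρ⟩
        have hsegb : ∀ s ∈ Icc (0 : ℝ) 1, w₁ + s • (w₂ - w₁) ∈ ball w ρ := fun s hs =>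
          (convex_ball w ρ).add_smul_sub_mem hw₁b hw₂ hs
        have hseg : ∀ s ∈ Icc (0 : ℝ) 1, w₁ + s • (w₂ - w₁) ∉ Q := fun s hs => hΩQ _ (hρΩ (hsegb s hs))
        obtain ⟨U, g, hUo, hUc, hU1, hgd, hg⟩ := seg_holo hd hQ hseg ζ
        have hgk : ∀ s ∈ Icc (0 : ℝ) 1, g (s : ℂ) = cgek Q ζ (w₁ + s • (w₂ - w₁)) := by
          intro s hs
          ext x
          rw [hg s hs x, cgek_apply (hseg s hs)]
        have hF : DifferentiableOn ℂ (fun t => ℓ (g t)) U := ℓ.differentiable.comp_differentiableOn hgd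
        have hFa : AnalyticOnNhd ℂ (fun t => ℓ (g t)) U := hF.analyticOnNhd hUo
        have h0U : (0 : ℂ) ∈ U := by
          have := hU1 0 ⟨le_rfl, zero_le_one⟩
          simpa using this
        have hfr : ∃ᶠ t in 𝓝[≠] (0 : ℂ), ℓ (g t) = 0 := by
          have hcont : ContinuousAt (fun s : ℝ => w₁ + s • (w₂ - w₁)) 0 := by fun_prop
          have hnear : ∀ᶠ s : ℝ in 𝓝 0, w₁ + s • (w₂ - w₁) ∈ u := by
            refine hcont.eventually_mem (isOpen_interior.mem_nhds ?_)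
            simpa using hw₁u
          have hev : ∀ᶠ s : ℝ in 𝓝[>] 0, ℓ (g (s : ℂ)) = 0 := by
            filter_upwards [nhdsWithin_le_nhds hnear, Ioc_mem_nhdsGT (zero_lt_one' ℝ)] with s hs hs'
            rw [hgk s ⟨hs'.1.le, hs'.2⟩]
            exact interior_subset (s := {w | ℓ (cgek Q ζ w) = 0}) hs
          have htt : Tendsto (fun s : ℝ => (s : ℂ)) (𝓝[>] 0) (𝓝[≠] 0) := by
            refine tendsto_nhdsWithin_iff.2 ⟨?_, ?_⟩
            · have : Tendsto (fun s : ℝ => (s : ℂ)) (𝓝 0) (𝓝 ((0 : ℝ) : ℂ)) := Complex.continuous_ofReal.tendsto 0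
              rw [Complex.ofReal_zero] at this
              exact this.mono_left nhdsWithin_le_nhds
            · filter_upwards [self_mem_nhdsWithin] with s hs
              have h3 : (s : ℝ) ≠ 0 := (mem_Ioi.1 hs).ne'
              simpa using h3
          exact htt.frequently hev.frequently
        have hzero := hFa.eqOn_zero_of_preconnected_of_frequently_eq_zero hUc h0U hfr
        have h1U : ((1 : ℝ) : ℂ) ∈ U := hU1 1 ⟨zero_le_one, le_rfl⟩
        have h5 : ℓ (g ((1 : ℝ) : ℂ)) = 0 := hzero h1U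
        rw [hgk 1 ⟨zero_le_one, le_rfl⟩, one_smul, add_sub_cancel] at h5
        exact h5
    exact hℓy (interior_subset (s := {w | ℓ (cgek Q ζ w) = 0}) (hΩu hy))
  have key' : cgek Q ζ y ∈ closure (L : Set C(Q, ℂ)) := key
  obtain ⟨p, hp, hpd⟩ := Metric.mem_closure_iff.1 key' ε hε
  obtain ⟨n, c, q, hq⟩ := Submodule.mem_span_set'.1 hp
  choose w hw hwq using fun l => (q l).2
  refine ⟨n, w, c, hw, fun x hx => ?_⟩
  have h1 : KV y ζ x - ∑ l, c l * KV (w l) ζ x = (cgek Q ζ y - p) (⟨x, hx⟩ : Q) := by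
    rw [ContinuousMap.sub_apply, cgek_apply (hΩQ y hy), ← hq, ContinuousMap.sum_apply]
    congr 1
    refine Finset.sum_congr rfl fun l _ => ?_
    rw [ContinuousMap.smul_apply, ← hwq l, cgek_apply (hΩQ _ (hNΩ (hw l))), smul_eq_mul]
  rw [h1]
  refine (ContinuousMap.norm_coe_le_norm _ _).trans ?_
  rw [← dist_eq_norm]
  exact hpd.le

end Pool.Agent.Lib.MP_79abb3_an.W.C
end

section

/-!
Theorem W (MP_79abb3_an), block C (density of the drifts). Runge approximation with derivatives.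
-/

set_option autoImplicit false
set_option linter.unusedSectionVars false
set_option linter.unusedVariables false

open MeasureTheory Set Filter Topology Function Metric
open scoped ENNReal InnerProductSpace BoundedContinuousFunction

namespace Pool.Agent.Lib.MP_79abb3_an.W.C

variable {d : ℕ} {F : Type} [NormedAddCommGroup F] [NormedSpace ℝ F]

private theorem cgf_pd {f : Ed d → ℂ} {x : Ed d} (hf : ContDiffAt ℝ ((⊤ : ℕ∞) : WithTop ℕ∞) f x) (i : Fin d) :
    ContDiffAt ℝ ((⊤ : ℕ∞) : WithTop ℕ∞) (pd i f) x := by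
  have h1 : ContDiffAt ℝ ((⊤ : ℕ∞) : WithTop ℕ∞) (fderiv ℝ f) x := hf.fderiv_right (by exact_mod_cast le_top)
  exact h1.clm_apply contDiffAt_const

private theorem cgf_diff {f : Ed d → ℂ} {x : Ed d} (hf : ContDiffAt ℝ ((⊤ : ℕ∞) : WithTop ℕ∞) f x) :
    DifferentiableAt ℝ f x := hf.differentiableAt (by norm_num)

/-- the Laplacian of a difference of a smooth function and a linear combination -/
private theorem cgf_lapl {n : ℕ} {f : Ed d → ℂ} {g : Fin n → Ed d → ℂ} {U : Set (Ed d)} (hU : IsOpen U)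
    (hf : ∀ x ∈ U, ContDiffAt ℝ ((⊤ : ℕ∞) : WithTop ℕ∞) f x)
    (hg : ∀ l, ∀ x ∈ U, ContDiffAt ℝ ((⊤ : ℕ∞) : WithTop ℕ∞) (g l) x) (c : Fin n → ℂ) {x : Ed d} (hx : x ∈ U)
    (h1 : lapl f x = 0) (h2 : ∀ l, lapl (g l) x = 0) : lapl (fun x => f x - ∑ l, c l * g l x) x = 0 := by
  have key : ∀ (i : Fin d) (F : Ed d → ℂ) (G : Fin n → Ed d → ℂ), ∀ y, DifferentiableAt ℝ F y →
      (∀ l, DifferentiableAt ℝ (G l) y) →
      pd i (fun x => F x - ∑ l, c l * G l x) y = pd i F y - ∑ l, c l * pd i (G l) y := by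
    intro i F G y hF hG
    have h3 : HasFDerivAt (fun x => F x - ∑ l, c l * G l x) (fderiv ℝ F y - ∑ l, c l • fderiv ℝ (G l) y) y :=
      hF.hasFDerivAt.sub (HasFDerivAt.fun_sum fun l _ => (hG l).hasFDerivAt.const_mul (c l))
    show fderiv ℝ (fun x => F x - ∑ l, c l * G l x) y (eb i) = _
    rw [h3.fderiv, ContinuousLinearMap.sub_apply, ContinuousLinearMap.sum_apply]
    rfl
  have h4 : ∀ i : Fin d, pd i (pd i fun x => f x - ∑ l, c l * g l x) x =
      pd i (pd i f) x - ∑ l, c l * pd i (pd i (g l)) x := by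
    intro i
    have h5 : pd i (fun x => f x - ∑ l, c l * g l x) =ᶠ[𝓝 x] fun x => pd i f x - ∑ l, c l * pd i (g l) x := by
      filter_upwards [hU.mem_nhds hx] with y hy
      exact key i f g y (cgf_diff (hf y hy)) fun l => cgf_diff (hg l y hy)
    show fderiv ℝ (pd i fun x => f x - ∑ l, c l * g l x) x (eb i) = _
    rw [h5.fderiv_eq]
    exact key i (pd i f) (fun l => pd i (g l)) x (cgf_diff (cgf_pd (hf x hx) i)) fun l =>
      cgf_diff (cgf_pd (hg l x hx) i)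
  show ∑ i, pd i (pd i fun x => f x - ∑ l, c l * g l x) x = 0
  rw [Finset.sum_congr rfl fun i _ => h4 i, Finset.sum_sub_distrib, Finset.sum_comm]
  have h6 : ∑ i, pd i (pd i f) x = 0 := h1
  have h7 : ∀ l, ∑ i, c l * pd i (pd i (g l)) x = 0 := fun l => by
    rw [← Finset.mul_sum]
    have h8 : ∑ i, pd i (pd i (g l)) x = 0 := h2 l
    rw [h8, mul_zero]
  rw [h6, Finset.sum_congr rfl fun l _ => h7 l, Finset.sum_const_zero, sub_zero]

/-- PROOF. `Q = {x | infDist x S ≤ ρ/2}` is compact (`S` bounded, we may assume `S` nonempty) and disjoint from `Ω`. `runge0` on `Q` with a small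
`ε' = ε/C`; the difference is harmonic and smooth on `ball x (ρ/2)` for `x ∈ S` (`KV_harm`, `KV_cda`: the poles are in `Ω`, at
distance `≥ ρ`), `int_est` with radius `ρ/2`. -/
theorem runge_m (hd : 2 ≤ d) {S Ω N₁ : Set (Ed d)} (hS : Bornology.IsBounded S) {ρ : ℝ} (hρ : 0 < ρ)
    (hSΩ : ∀ x ∈ S, ∀ w ∈ Ω, ρ ≤ dist x w) (hΩ : IsOpen Ω) (hc : IsPreconnected Ω) (hN : IsOpen N₁)
    (hne : N₁.Nonempty) (hNΩ : N₁ ⊆ Ω) {y : Ed d} (hy : y ∈ Ω) {ζ : Cd d} (hζ : bc ζ ζ = 0) (m : ℕ) {ε : ℝ}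
    (hε : 0 < ε) :
    ∃ (n : ℕ) (w : Fin n → Ed d) (c : Fin n → ℂ), (∀ l, w l ∈ N₁) ∧
      BN S m (fun x => KV y ζ x - ∑ l, c l * KV (w l) ζ x) ε := by
  have hQ : IsCompact (cthickening (ρ / 2) S) :=
    isCompact_of_isClosed_isBounded isClosed_cthickening hS.cthickening
  have hdis : Disjoint Ω (cthickening (ρ / 2) S) := by
    rw [Set.disjoint_left]
    intro w hw hw'
    have h1 : w ∈ thickening ρ S := cthickening_subset_thickening' hρ (by linarith) S hw'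
    obtain ⟨x, hx, hxw⟩ := mem_thickening_iff.1 h1
    have h2 := hSΩ x hx w hw
    rw [dist_comm] at h2
    linarith
  obtain ⟨C, hC, hest⟩ := int_est d m (half_pos hρ)
  obtain ⟨n, w, c, hw, hb⟩ := runge0 hd hQ hΩ hc hdis hN hne hNΩ hy ζ
    (by positivity : 0 < ε / (C + 1))
  refine ⟨n, w, c, hw, fun i hi x hx => ?_⟩
  have hball : ball x (ρ / 2) ⊆ cthickening (ρ / 2) S :=
    (ball_subset_thickening hx _).trans (thickening_subset_cthickening _ _)
  have hne' : ∀ v ∈ ball x (ρ / 2), ∀ y' ∈ Ω, v ≠ y' := by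
    intro v hv y' hy' h
    exact Set.disjoint_left.1 hdis hy' (h ▸ hball hv)
  have hs1 : ∀ v ∈ ball x (ρ / 2), ContDiffAt ℝ ((⊤ : ℕ∞) : WithTop ℕ∞) (KV y ζ) v := fun v hv =>
    KV_cda (hne' v hv y hy) ζ
  have hs2 : ∀ l, ∀ v ∈ ball x (ρ / 2), ContDiffAt ℝ ((⊤ : ℕ∞) : WithTop ℕ∞) (KV (w l) ζ) v := fun l v hv =>
    KV_cda (hne' v hv _ (hNΩ (hw l))) ζ
  have h1 := hest (fun x => KV y ζ x - ∑ l, c l * KV (w l) ζ x) x (ε / (C + 1)) ?_ ?_ ?_ i hi
  · refine h1.trans ?_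
    rw [mul_div_assoc', div_le_iff₀ (by positivity)]
    nlinarith
  · intro v hv
    exact (hs1 v hv).sub (ContDiffAt.sum fun l _ => contDiffAt_const.mul (hs2 l v hv))
  · intro v hv
    exact cgf_lapl isOpen_ball hs1 hs2 c hv (KV_harm hd (hne' v hv y hy) hζ) fun l =>
      KV_harm hd (hne' v hv _ (hNΩ (hw l))) hζ
  · intro v hv
    exact hb v (hball hv)

end Pool.Agent.Lib.MP_79abb3_an.W.C
end

section

/-!
Theorem W (MP_79abb3_an), block C (density of the drifts). Approximation of corrected Kelvin exponentials by admissible potentials.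
-/

set_option autoImplicit false
set_option linter.unusedSectionVars false
set_option linter.unusedVariables false

open MeasureTheory Set Filter Topology Function Metric
open scoped ENNReal InnerProductSpace BoundedContinuousFunction

namespace Pool.Agent.Lib.MP_79abb3_an.W.C

variable {d : ℕ} {F : Type} [NormedAddCommGroup F] [NormedSpace ℝ F]

private lemma cib_ne : ((⊤ : ℕ∞) : WithTop ℕ∞) ≠ 0 := by simp

private lemma cib_diff {f : Ed d → ℂ} {x : Ed d} (hf : ContDiffAt ℝ ((⊤ : ℕ∞) : WithTop ℕ∞) f x) :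
    DifferentiableAt ℝ f x := hf.differentiableAt cib_ne

private lemma cib_ev {f : Ed d → ℂ} {x : Ed d} (hf : ContDiffAt ℝ ((⊤ : ℕ∞) : WithTop ℕ∞) f x) :
    ∀ᶠ y in 𝓝 x, DifferentiableAt ℝ f y := by
  have h1 : ContDiffAt ℝ 1 f x := hf.of_le (by exact_mod_cast le_top)
  filter_upwards [h1.eventually (by simp)] with y hy
  exact hy.differentiableAt (by simp)

private lemma cib_pd_add {f g : Ed d → ℂ} {x : Ed d} (hf : DifferentiableAt ℝ f x)
    (hg : DifferentiableAt ℝ g x) (i : Fin d) :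
    pd i (fun x => f x + g x) x = pd i f x + pd i g x := by
  unfold pd
  rw [fderiv_fun_add hf hg]; rfl

private lemma cib_pd_mul {f : Ed d → ℂ} {x : Ed d} (hf : DifferentiableAt ℝ f x) (c : ℂ) (i : Fin d) :
    pd i (fun x => c * f x) x = c * pd i f x := by
  unfold pd
  rw [fderiv_const_mul hf]; rfl

private lemma cib_lapl_add {f g : Ed d → ℂ} {x : Ed d} (hf : ContDiffAt ℝ ((⊤ : ℕ∞) : WithTop ℕ∞) f x)
    (hg : ContDiffAt ℝ ((⊤ : ℕ∞) : WithTop ℕ∞) g x) :
    lapl (fun x => f x + g x) x = lapl f x + lapl g x := by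
  unfold lapl
  rw [← Finset.sum_add_distrib]
  refine Finset.sum_congr rfl fun i _ => ?_
  have h1 : pd i (fun x => f x + g x) =ᶠ[𝓝 x] fun x => pd i f x + pd i g x := by
    filter_upwards [cib_ev hf, cib_ev hg] with y h1 h2
    exact cib_pd_add h1 h2 i
  have h2 : pd i (pd i (fun x => f x + g x)) x = pd i (fun x => pd i f x + pd i g x) x := by
    show fderiv ℝ (pd i (fun x => f x + g x)) x (eb i) = _
    rw [h1.fderiv_eq]; rfl
  rw [h2]
  exact cib_pd_add (cib_diff (cda_pd hf i)) (cib_diff (cda_pd hg i)) i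

private lemma cib_lapl_mul {f : Ed d → ℂ} {x : Ed d} (hf : ContDiffAt ℝ ((⊤ : ℕ∞) : WithTop ℕ∞) f x) (c : ℂ) :
    lapl (fun x => c * f x) x = c * lapl f x := by
  unfold lapl
  rw [Finset.mul_sum]
  refine Finset.sum_congr rfl fun i _ => ?_
  have h1 : pd i (fun x => c * f x) =ᶠ[𝓝 x] fun x => c * pd i f x := by
    filter_upwards [cib_ev hf] with y h1
    exact cib_pd_mul h1 c i
  have h2 : pd i (pd i (fun x => c * f x)) x = pd i (fun x => c * pd i f x) x := by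
    show fderiv ℝ (pd i (fun x => c * f x)) x (eb i) = _
    rw [h1.fderiv_eq]; rfl
  rw [h2]
  exact cib_pd_mul (cib_diff (cda_pd hf i)) c i

private lemma cib_lapl_sum {ι : Type} (s : Finset ι) {f : ι → Ed d → ℂ} {x : Ed d}
    (hf : ∀ l ∈ s, ContDiffAt ℝ ((⊤ : ℕ∞) : WithTop ℕ∞) (f l) x) :
    lapl (fun x => ∑ l ∈ s, f l x) x = ∑ l ∈ s, lapl (f l) x := by
  classical
  induction s using Finset.induction_on with
  | empty =>
    simp only [Finset.sum_empty]
    unfold lapl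
    refine Finset.sum_eq_zero fun i _ => ?_
    have h : pd i (fun _ : Ed d => (0 : ℂ)) = fun _ => 0 := by
      funext y; unfold pd; simp
    rw [h]; unfold pd; simp
  | insert l s hl ih =>
    simp only [Finset.sum_insert hl]
    rw [cib_lapl_add (hf l (Finset.mem_insert_self _ _))
      (ContDiffAt.sum fun k hk => hf k (Finset.mem_insert_of_mem hk)),
      ih fun k hk => hf k (Finset.mem_insert_of_mem hk)]

/-- Kelvin exponentials are OK on bounded sets away from the pole. -/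
private lemma cib_ok_KV {R : Set (Ed d)} (hR : Bornology.IsBounded R) {y : Ed d} {s : ℝ} (hs : 0 < s)
    (h : ∀ x ∈ R, s ≤ ‖x - y‖) (ζ : Cd d) : OK R (KV y ζ) := by
  refine ⟨fun x hx => KV_cda (fun hxy => ?_) ζ, fun m => ?_⟩
  · have := h x hx
    rw [hxy, sub_self, norm_zero] at this
    linarith
  · obtain ⟨ρ, hρ⟩ : ∃ ρ, ∀ x ∈ R, ‖x - y‖ ≤ ρ := by
      obtain ⟨C, hC⟩ := hR.exists_norm_le
      exact ⟨C + ‖y‖, fun x hx => (norm_sub_le x y).trans (by linarith [hC x hx])⟩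
    obtain ⟨C, hC0, hC⟩ := KV_bound' (d := d) y (ρ := ρ) hs m
    exact ⟨_, fun x hx => hC ζ R s ‖rv ζ‖ le_rfl le_rfl (fun x hx => ⟨h x hx, hρ x hx⟩) m le_rfl x hx⟩

/-- PROOF. `runge_m` on `S` (with order `m'' = max m m'`, `m'` from `wall` for the order `m`; `N₁ = Ω ∩ ball a r₁`) gives
`K' = ∑ c_l KV (w l) ζ` with poles in `Ω ∩ ball a r₁`, `BN S m'' (KV y ζ - K') ε'`. `wall` for `K' - KV y ζ` (it is OK on the collar, which is contained in
`S`) gives `w'` with `GN D m w' (C ε')`. Put `p' = K' + w + w'`. OK on `D \ ball a r₁` and on `S` (the poles are at positive distance: bounded derivatives by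
compactness, `ok_of…`), harmonic (`KV_harm`, the `lapl` of sums), `∂_n p' = (∂_n w + ∂_n KV y ζ) + (∂_n w' + ∂_n (K' - KV y ζ))` on the collar
`z ≤ δ₁`, and for `z x > δ₁`: bounded, `≤ (B/δ₁) z x`. The difference is `KV y ζ + w - p' = (KV y ζ - K') - w'`. -/
theorem approx_adm {D : Set (Ed d)} {z : Ed d → ℝ} {δ : ℝ} {a : Ed d} {r₁ r₂ : ℝ} (hG : Geo D z δ a r₁ r₂)
    (hN : NeuP D z) {δ₁ : ℝ} (h0 : 0 < δ₁) (h1 : δ₁ ≤ δ) {S Ω : Set (Ed d)} {ρ : ℝ} (hρ : 0 < ρ) (hSD : S ⊆ D)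
    (hSΩ : ∀ x ∈ S, ∀ w ∈ Ω, ρ ≤ dist x w) (hcol : ∀ x ∈ D, z x ≤ δ₁ → x ∈ S) (hΩ : IsOpen Ω)
    (hc : IsPreconnected Ω) (hb : Bornology.IsBounded Ω) (hne : (Ω ∩ ball a r₁).Nonempty) {y : Ed d} (hy : y ∈ Ω)
    {ζ : Cd d} (hζ : bc ζ ζ = 0) {w : Ed d → ℂ} (hw : OK D w) (hwl : ∀ x ∈ D \ ball a r₁, lapl w x = 0)
    (hwn : ∃ B, ∀ x ∈ D, z x ≤ δ₁ →
      ‖fderiv ℝ w x (gradient z x) + fderiv ℝ (KV y ζ) x (gradient z x)‖ ≤ B * z x)
    (m : ℕ) {ε : ℝ} (hε : 0 < ε) :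
    ∃ p : Ed d → ℂ, Adm D z (ball a r₁) p ∧ OK S p ∧ GN S m (fun x => KV y ζ x + w x - p x) ε := by
  classical
  have hDb : Bornology.IsBounded D := hG.dom.bdd
  have hSb : Bornology.IsBounded S := hDb.subset hSD
  obtain ⟨m', C, hC0, hwall⟩ := wall hG hN h0 h1 m
  obtain ⟨B, hB⟩ := hwn
  -- the small constant
  obtain ⟨ε', hε', hεε⟩ : ∃ ε' : ℝ, 0 < ε' ∧ ε' + C * ε' ≤ ε := by
    refine ⟨ε / (1 + C), by positivity, ?_⟩
    have : (1 + C) ≠ 0 := by positivity
    have : ε / (1 + C) + C * (ε / (1 + C)) = ε := by field_simp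
    exact this.le
  obtain ⟨n, u, c, hu, hrun⟩ := runge_m hG.two hSb hρ hSΩ hΩ hc (hΩ.inter isOpen_ball) hne
    inter_subset_left hy hζ (max m m') hε'
  -- the sets and the Kelvin functions
  have hyS : ∀ x ∈ S, ρ ≤ ‖x - y‖ := fun x hx => by
    rw [← dist_eq_norm]; exact hSΩ x hx y hy
  have huS : ∀ l, ∀ x ∈ S, ρ ≤ ‖x - u l‖ := fun l x hx => by
    rw [← dist_eq_norm]; exact hSΩ x hx (u l) (hu l).1
  have hKyS : OK S (KV y ζ) := cib_ok_KV hSb hρ hyS ζ
  have hKuS : ∀ l, OK S (KV (u l) ζ) := fun l => cib_ok_KV hSb hρ (huS l) ζ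
  have hKuD : ∀ l, OK (D \ ball a r₁) (KV (u l) ζ) := by
    intro l
    have hl : 0 < r₁ - dist (u l) a := sub_pos.2 (mem_ball.1 (hu l).2)
    refine cib_ok_KV (hDb.subset sdiff_subset) hl (fun x hx => ?_) ζ
    have h2 : r₁ ≤ dist x a := not_lt.1 fun h => hx.2 (mem_ball.2 h)
    have h3 := dist_triangle x (u l) a
    rw [← dist_eq_norm]
    linarith
  let K' : Ed d → ℂ := fun x => ∑ l, c l * KV (u l) ζ x
  have hcK : ∀ {R : Set (Ed d)}, (∀ l, OK R (KV (u l) ζ)) → OK R K' := fun {R} hR =>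
    ok_sum Finset.univ fun l _ => ok_mul (ok_const R (c l)) (hR l)
  have hK'S : OK S K' := hcK hKuS
  have hK'D : OK (D \ ball a r₁) K' := hcK hKuD
  -- the collar
  have hcolS : {x | x ∈ D ∧ z x ≤ δ₁} ⊆ S := fun x hx => hcol x hx.1 hx.2
  have hΔS : OK S (fun x => K' x - KV y ζ x) := ok_sub hK'S hKyS
  have hΔ : BN S (max m m') (fun x => K' x - KV y ζ x) ε' := by
    intro i hi x hx
    have h2 := hrun i hi x hx
    have h3 : (fun x => K' x - KV y ζ x) = -(fun x => KV y ζ x - ∑ l, c l * KV (u l) ζ x) := by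
      funext x; simp [K']
    rw [h3, iteratedFDeriv_neg_apply, norm_neg]
    exact h2
  obtain ⟨w', hw'D, hw'l, hw'n, B', hB'⟩ := hwall (fun x => K' x - KV y ζ x) (ok_mono hΔS hcolS) ε' hε'.le
    (fun i hi x hx => hΔ i (hi.trans (le_max_right _ _)) x (hcolS hx))
  refine ⟨fun x => K' x + w x + w' x, ⟨?_, ?_, ?_⟩, ?_, ?_⟩
  · exact ok_add (ok_add hK'D (ok_mono hw sdiff_subset)) (ok_mono hw'D sdiff_subset)
  · intro x hx
    have e1 := hK'D.1 x hx
    have e2 := hw.1 x hx.1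
    have e3 := hw'D.1 x hx.1
    have h2 : lapl K' x = 0 := by
      show lapl (fun x => ∑ l ∈ Finset.univ, c l * KV (u l) ζ x) x = 0
      rw [cib_lapl_sum Finset.univ (f := fun l x => c l * KV (u l) ζ x)
        (fun l _ => contDiffAt_const.mul ((hKuD l).1 x hx))]
      refine Finset.sum_eq_zero fun l _ => ?_
      have hne' : x ≠ u l := fun h => hx.2 (by rw [h]; exact (hu l).2)
      rw [cib_lapl_mul ((hKuD l).1 x hx), KV_harm hG.two hne' hζ, mul_zero]
    have h3 : lapl (fun x => (K' x + w x) + w' x) x = lapl (fun x => K' x + w x) x + lapl w' x :=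
      cib_lapl_add (f := fun x => K' x + w x) (e1.add e2) e3
    rw [h3, cib_lapl_add e1 e2, h2, hwl x hx, hw'l x hx, add_zero, add_zero]
  · have hokp : OK (D \ ball a r₁) (fun x => K' x + w x + w' x) :=
      ok_add (ok_add hK'D (ok_mono hw sdiff_subset)) (ok_mono hw'D sdiff_subset)
    obtain ⟨C₁, hC₁⟩ := hokp.2 1
    obtain ⟨C₂, hC₂⟩ := (ok_of_smo hG.dom.smo hDb).2 1
    have hcase : ∀ x ∈ D \ ball a r₁, z x ≤ δ₁ →
        ‖fderiv ℝ (fun x => K' x + w x + w' x) x (gradient z x)‖ ≤ (B + B') * z x := by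
      intro x hx hzx
      have hxS : x ∈ S := hcol x hx.1 hzx
      have d1 := cib_diff (hK'S.1 x hxS)
      have d2 := cib_diff (hw.1 x hx.1)
      have d3 := cib_diff (hw'D.1 x hx.1)
      have d4 := cib_diff (hKyS.1 x hxS)
      have e1 : fderiv ℝ (fun x => K' x + w x + w' x) x = fderiv ℝ K' x + fderiv ℝ w x + fderiv ℝ w' x := by
        rw [fderiv_fun_add (f := fun x => K' x + w x) (d1.add d2) d3, fderiv_fun_add d1 d2]
      have e2 : fderiv ℝ (fun x => K' x - KV y ζ x) x = fderiv ℝ K' x - fderiv ℝ (KV y ζ) x :=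
        fderiv_fun_sub d1 d4
      have b1 := hB x hx.1 hzx
      have b2 := hB' x hx.1 hzx
      rw [e2] at b2
      have e3 : fderiv ℝ (fun x => K' x + w x + w' x) x (gradient z x) =
          (fderiv ℝ w x (gradient z x) + fderiv ℝ (KV y ζ) x (gradient z x)) +
          (fderiv ℝ w' x (gradient z x) + (fderiv ℝ K' x - fderiv ℝ (KV y ζ) x) (gradient z x)) := by
        rw [e1]
        simp only [add_apply, sub_apply]
        ring
      rw [e3, add_mul]
      exact (norm_add_le _ _).trans (add_le_add b1 b2)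
    refine ⟨|B + B'| + |C₁| * |C₂| / δ₁, fun x hx => ?_⟩
    have hzx : 0 < z x := (hG.dom.pos x).1 hx.1
    rcases le_or_gt (z x) δ₁ with h | h
    · refine (hcase x hx h).trans (mul_le_mul_of_nonneg_right ?_ hzx.le)
      have : 0 ≤ |C₁| * |C₂| / δ₁ := by positivity
      linarith [le_abs_self (B + B')]
    · have h2 : ‖fderiv ℝ (fun x => K' x + w x + w' x) x‖ ≤ |C₁| := by
        rw [← norm_iteratedFDeriv_one]
        exact (hC₁ x hx).trans (le_abs_self _)
      have h3 : ‖gradient z x‖ ≤ |C₂| := by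
        have : ‖gradient z x‖ = ‖fderiv ℝ z x‖ := by
          unfold gradient
          exact LinearIsometryEquiv.norm_map _ _
        rw [this, ← norm_iteratedFDeriv_one]
        exact (hC₂ x hx.1).trans (le_abs_self _)
      have h4 : ‖fderiv ℝ (fun x => K' x + w x + w' x) x (gradient z x)‖ ≤ |C₁| * |C₂| :=
        (ContinuousLinearMap.le_opNorm _ _).trans (mul_le_mul h2 h3 (norm_nonneg _) (abs_nonneg _))
      have h5 : |C₁| * |C₂| ≤ |C₁| * |C₂| / δ₁ * z x := by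
        have h6 : |C₁| * |C₂| / δ₁ * δ₁ = |C₁| * |C₂| := by field_simp
        calc |C₁| * |C₂| = |C₁| * |C₂| / δ₁ * δ₁ := h6.symm
          _ ≤ |C₁| * |C₂| / δ₁ * z x := mul_le_mul_of_nonneg_left h.le (by positivity)
      calc _ ≤ |C₁| * |C₂| := h4
        _ ≤ |C₁| * |C₂| / δ₁ * z x := h5
        _ ≤ (|B + B'| + |C₁| * |C₂| / δ₁) * z x := by
          apply mul_le_mul_of_nonneg_right _ hzx.le
          linarith [abs_nonneg (B + B')]
  · exact ok_add (ok_add hK'S (ok_mono hw hSD)) (ok_mono hw'D hSD)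
  · intro i hi1 him x hx
    have f1 : (fun x => KV y ζ x + w x - (K' x + w x + w' x)) =
        fun x => -(K' x - KV y ζ x) - w' x := by
      funext x; ring
    have o1 : ContDiffAt ℝ ((⊤ : ℕ∞) : WithTop ℕ∞) (fun x => -(K' x - KV y ζ x)) x := (hΔS.1 x hx).neg
    have o2 : ContDiffAt ℝ ((⊤ : ℕ∞) : WithTop ℕ∞) w' x := hw'D.1 x (hSD hx)
    have f2 : iteratedFDeriv ℝ i (fun x => -(K' x - KV y ζ x) - w' x) x =
        iteratedFDeriv ℝ i (fun x => -(K' x - KV y ζ x)) x - iteratedFDeriv ℝ i w' x := by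
      apply iteratedFDeriv_sub_apply
      · exact o1.of_le (by exact_mod_cast le_top)
      · exact o2.of_le (by exact_mod_cast le_top)
    rw [f1, f2]
    have g1 : ‖iteratedFDeriv ℝ i (fun x => -(K' x - KV y ζ x)) x‖ ≤ ε' := by
      have : (fun x => -(K' x - KV y ζ x)) = -(fun x => K' x - KV y ζ x) := rfl
      rw [this, iteratedFDeriv_neg_apply, norm_neg]
      exact hΔ i (him.trans (le_max_left _ _)) x hx
    have g2 : ‖iteratedFDeriv ℝ i w' x‖ ≤ C * ε' := hw'n i hi1 him x (hSD hx)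
    exact (norm_sub_le _ _).trans ((add_le_add g1 g2).trans hεε)

end Pool.Agent.Lib.MP_79abb3_an.W.C
end
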