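import Mathlib

/-!
Theorem W (MP_79abb3_an), block C (density of the drifts). Weighted polynomial approximation (Bernstein).
-/

set_option autoImplicit false
set_option linter.unusedSectionVars false
set_option linter.unusedVariables false

open MeasureTheory Set Filter Topology Function Metric
open scoped ENNReal InnerProductSpace BoundedContinuousFunction

namespace Pool.Agent.Lib.MP_79abb3_an.W.C

variable {d : ℕ} {F : Type} [NormedAddCommGroup F] [NormedSpace ℝ F]

section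
open Polynomial

/-- weighted sum of the coefficients -/
private noncomputable def wn (u : ℝ) (D : ℕ) (P : Polynomial ℂ) : ℝ := ∑ n ∈ Finset.range D, ‖P.coeff n‖ * u ^ n

private theorem wn_nonneg {u : ℝ} (hu : 0 ≤ u) (D : ℕ) (P : Polynomial ℂ) : 0 ≤ wn u D P :=
  Finset.sum_nonneg fun n _ => by positivity

private theorem wn_add {u : ℝ} (hu : 0 ≤ u) (D : ℕ) (P Q : Polynomial ℂ) : wn u D (P + Q) ≤ wn u D P + wn u D Q := by
  unfold wn
  rw [← Finset.sum_add_distrib]
  refine Finset.sum_le_sum fun n _ => ?_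
  rw [coeff_add, ← add_mul]
  exact mul_le_mul_of_nonneg_right (norm_add_le _ _) (by positivity)

private theorem wn_zero (u : ℝ) (D : ℕ) : wn u D 0 = 0 := by
  unfold wn
  simp

private theorem wn_sum {u : ℝ} (hu : 0 ≤ u) (D : ℕ) {ι : Type} (s : Finset ι) (P : ι → Polynomial ℂ) :
    wn u D (∑ i ∈ s, P i) ≤ ∑ i ∈ s, wn u D (P i) := by
  classical
  induction s using Finset.induction_on with
  | empty => simp [wn_zero]
  | insert a s ha ih =>
    rw [Finset.sum_insert ha, Finset.sum_insert ha]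
    exact (wn_add hu D _ _).trans (by linarith)

private theorem wn_C_mul (u : ℝ) (D : ℕ) (a : ℂ) (P : Polynomial ℂ) : wn u D (C a * P) = ‖a‖ * wn u D P := by
  unfold wn
  rw [Finset.mul_sum]
  refine Finset.sum_congr rfl fun n _ => ?_
  rw [coeff_C_mul, norm_mul, mul_assoc]

private theorem wn_X_mul {u : ℝ} (hu : 0 ≤ u) (D : ℕ) (P : Polynomial ℂ) : wn u D (X * P) ≤ u * wn u D P := by
  unfold wn
  rcases D with _ | D
  · simp
  · rw [Finset.sum_range_succ']
    have h1 : (X * P).coeff 0 = 0 := by simp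
    rw [h1, norm_zero, zero_mul, add_zero, Finset.mul_sum]
    have h2 : ∑ n ∈ Finset.range D, ‖(X * P).coeff (n + 1)‖ * u ^ (n + 1) = ∑ n ∈ Finset.range D, u * (‖P.coeff n‖ * u ^ n) := by
      refine Finset.sum_congr rfl fun n _ => ?_
      rw [coeff_X_mul, pow_succ]
      ring
    rw [h2]
    refine Finset.sum_le_sum_of_subset_of_nonneg (Finset.range_mono (Nat.le_succ D)) fun n _ _ => by positivity

private theorem wn_sub_mul {u : ℝ} (hu : 0 ≤ u) (D : ℕ) (P : Polynomial ℂ) :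
    wn u D ((1 - X) * P) ≤ (1 + u) * wn u D P := by
  have h1 : (1 - X) * P = P + C (-1) * (X * P) := by
    rw [C_neg, C_1]
    ring
  rw [h1]
  refine (wn_add hu D _ _).trans ?_
  rw [wn_C_mul, norm_neg, norm_one, one_mul]
  have h2 := wn_X_mul hu D P
  linarith

private theorem wn_bern {u : ℝ} (hu : 0 ≤ u) (D k l : ℕ) :
    wn u D (X ^ k * (1 - X) ^ l : Polynomial ℂ) ≤ u ^ k * (1 + u) ^ l := by
  induction k with
  | zero =>
    induction l with
    | zero =>
      simp only [pow_zero, mul_one]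
      unfold wn
      rcases D with _ | D
      · simp
      · rw [Finset.sum_range_succ']
        simp [coeff_one]
    | succ l ih =>
      have h1 : (X ^ 0 * (1 - X) ^ (l + 1) : Polynomial ℂ) = (1 - X) * (X ^ 0 * (1 - X) ^ l) := by ring
      rw [h1]
      refine (wn_sub_mul hu D _).trans ?_
      have h2 : u ^ 0 * (1 + u) ^ (l + 1) = (1 + u) * (u ^ 0 * (1 + u) ^ l) := by ring
      rw [h2]
      exact mul_le_mul_of_nonneg_left ih (by positivity)
  | succ k ih =>
    have h1 : (X ^ (k + 1) * (1 - X) ^ l : Polynomial ℂ) = X * (X ^ k * (1 - X) ^ l) := by ring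
    rw [h1]
    refine (wn_X_mul hu D _).trans ?_
    have h2 : u ^ (k + 1) * (1 + u) ^ l = u * (u ^ k * (1 + u) ^ l) := by ring
    rw [h2]
    exact mul_le_mul_of_nonneg_left ih hu

/-- primitive, zero at `0` -/
private noncomputable def pr (Q : Polynomial ℂ) : Polynomial ℂ :=
  ∑ n ∈ Finset.range (Q.natDegree + 1), monomial (n + 1) (Q.coeff n / (n + 1))

private theorem pr_zero (Q : Polynomial ℂ) : (pr Q).coeff 0 = 0 := by
  unfold pr
  rw [finsetSum_coeff]
  refine Finset.sum_eq_zero fun n _ => ?_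
  rw [coeff_monomial, if_neg (by omega)]

private theorem pr_succ (Q : Polynomial ℂ) (k : ℕ) : (pr Q).coeff (k + 1) = Q.coeff k / (k + 1) := by
  unfold pr
  rw [finsetSum_coeff]
  have h1 : ∀ n ∈ Finset.range (Q.natDegree + 1), ((monomial (n + 1) (Q.coeff n / (n + 1)) : Polynomial ℂ)).coeff (k + 1) =
      if n = k then Q.coeff n / (n + 1) else 0 := by
    intro n _
    rw [coeff_monomial]
    by_cases h : n = k
    · rw [if_pos h, if_pos (by omega)]
    · rw [if_neg h, if_neg (by omega)]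
  rw [Finset.sum_congr rfl h1, Finset.sum_ite_eq']
  split_ifs with h
  · rfl
  · have h2 : Q.natDegree < k := by
      by_contra h3
      exact h (Finset.mem_range.2 (by omega))
    rw [coeff_eq_zero_of_natDegree_lt h2, zero_div]

private theorem pr_der (Q : Polynomial ℂ) : derivative (pr Q) = Q := by
  ext n
  rw [coeff_derivative, pr_succ]
  have h : ((n : ℂ) + 1) ≠ 0 := by exact_mod_cast Nat.succ_ne_zero n
  field_simp

private theorem pr_deg (Q : Polynomial ℂ) : (pr Q).natDegree ≤ Q.natDegree + 1 := by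
  rw [natDegree_le_iff_coeff_eq_zero]
  intro N hN
  obtain ⟨k, rfl⟩ : ∃ k, N = k + 1 := ⟨N - 1, by omega⟩
  rw [pr_succ, coeff_eq_zero_of_natDegree_lt (by omega), zero_div]

private theorem pr_it_deg (Q : Polynomial ℂ) (m : ℕ) : (pr^[m] Q).natDegree ≤ Q.natDegree + m := by
  induction m with
  | zero => simp
  | succ m ih =>
    rw [Function.iterate_succ_apply']
    have := pr_deg (pr^[m] Q)
    omega

private theorem pr_it_der (Q : Polynomial ℂ) (m i : ℕ) (h : i ≤ m) :
    derivative^[i] (pr^[m] Q) = pr^[m - i] Q := by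
  induction i with
  | zero => simp
  | succ i ih =>
    rw [Function.iterate_succ_apply', ih (by omega)]
    obtain ⟨k, hk⟩ : ∃ k, m - i = k + 1 := ⟨m - i - 1, by omega⟩
    rw [hk, Function.iterate_succ_apply', pr_der]
    congr 1
    have : m - (i + 1) = k := by omega
    rw [this]

private theorem pr_low {Q : Polynomial ℂ} {n₀ : ℕ} (h : ∀ n < n₀, Q.coeff n = 0) (m : ℕ) :
    ∀ n < n₀, (pr^[m] Q).coeff n = 0 := by
  induction m with
  | zero => exact h
  | succ m ih =>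
    intro n hn
    rw [Function.iterate_succ_apply']
    rcases n with _ | n
    · exact pr_zero _
    · rw [pr_succ, ih n (by omega), zero_div]

private theorem wn_pr {u : ℝ} (hu : 0 ≤ u) (hu1 : u ≤ 1) (D : ℕ) (Q : Polynomial ℂ) : wn u D (pr Q) ≤ wn u D Q := by
  unfold wn
  rcases D with _ | D
  · simp
  · rw [Finset.sum_range_succ', pr_zero, norm_zero, zero_mul, add_zero]
    refine le_trans (Finset.sum_le_sum fun n _ => ?_)
      (Finset.sum_le_sum_of_subset_of_nonneg (Finset.range_mono (Nat.le_succ D)) fun n _ _ => by positivity)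
    rw [pr_succ, norm_div]
    have h1 : (1 : ℝ) ≤ ‖((n : ℂ) + 1)‖ := by
      have h2 : ((n : ℂ) + 1) = (((n : ℝ) + 1 : ℝ) : ℂ) := by push_cast; rfl
      rw [h2, Complex.norm_real, Real.norm_of_nonneg (by positivity)]
      linarith [(Nat.cast_nonneg n : (0 : ℝ) ≤ n)]
    have h3 : ‖Q.coeff n‖ / ‖((n : ℂ) + 1)‖ ≤ ‖Q.coeff n‖ := div_le_self (norm_nonneg _) h1
    have h4 : u ^ (n + 1) ≤ u ^ n := pow_le_pow_of_le_one hu hu1 (Nat.le_succ n)
    exact mul_le_mul h3 h4 (by positivity) (norm_nonneg _)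

private theorem wn_pr_it {u : ℝ} (hu : 0 ≤ u) (hu1 : u ≤ 1) (D : ℕ) (Q : Polynomial ℂ) (m : ℕ) :
    wn u D (pr^[m] Q) ≤ wn u D Q := by
  induction m with
  | zero => exact le_rfl
  | succ m ih =>
    rw [Function.iterate_succ_apply']
    exact (wn_pr hu hu1 D _).trans ih

private theorem pol_der (P : Polynomial ℂ) (x : ℝ) :
    HasDerivAt (fun x : ℝ => P.eval (x : ℂ)) ((derivative P).eval (x : ℂ)) x :=
  (P.hasDerivAt (x : ℂ)).comp_ofReal

private theorem pol_it (P : Polynomial ℂ) (i : ℕ) :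
    iteratedDeriv i (fun x : ℝ => P.eval (x : ℂ)) = fun x : ℝ => (derivative^[i] P).eval (x : ℂ) := by
  induction i with
  | zero => simp
  | succ i ih =>
    rw [iteratedDeriv_succ, ih]
    ext x
    rw [Function.iterate_succ_apply']
    exact (pol_der _ x).deriv

private theorem pol_smo (P : Polynomial ℂ) (n : WithTop ℕ∞) : ContDiff ℝ n (fun x : ℝ => P.eval (x : ℂ)) := by
  have h1 : ContDiff ℂ n fun z : ℂ => P.eval z := by
    have h2 := P.contDiff_aeval (𝕜 := ℂ) n
    simpa using h2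
  exact (h1.restrict_scalars ℝ).comp Complex.ofRealCLM.contDiff

/-- integrate the error -/
private theorem cua_int {Γ : ℝ → ℂ} (hΓ : ContDiff ℝ ((⊤ : ℕ∞) : WithTop ℕ∞) Γ) (h0 : ∀ i, iteratedDeriv i Γ 0 = 0)
    (m : ℕ) (B : Polynomial ℂ) {δ : ℝ} (hδ : 0 ≤ δ)
    (hB : ∀ x ∈ Icc (0 : ℝ) 1, ‖iteratedDeriv m Γ x - B.eval (x : ℂ)‖ ≤ δ) (j : ℕ) (hj : j ≤ m) :
    ∀ x ∈ Icc (0 : ℝ) 1, ‖iteratedDeriv (m - j) Γ x - (pr^[j] B).eval (x : ℂ)‖ ≤ δ := by
  induction j with
  | zero => exact hB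
  | succ j ih =>
    intro x hx
    have h1 : ∀ y ∈ Icc (0 : ℝ) 1, HasDerivWithinAt
        (fun y => iteratedDeriv (m - (j + 1)) Γ y - (pr^[j + 1] B).eval (y : ℂ))
        (iteratedDeriv (m - j) Γ y - (pr^[j] B).eval (y : ℂ)) (Icc 0 1) y := by
      intro y _
      have h2 : HasDerivAt (iteratedDeriv (m - (j + 1)) Γ) (iteratedDeriv (m - j) Γ y) y := by
        have h3 : m - j = (m - (j + 1)) + 1 := by omega
        rw [h3, iteratedDeriv_succ]
        have h9 : ContDiff ℝ (((m - (j + 1) : ℕ) : WithTop ℕ∞) + 1) Γ := by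
          exact_mod_cast contDiff_infty.1 hΓ (m - (j + 1) + 1)
        exact (h9.differentiable_iteratedDeriv' (m - (j + 1)) y).hasDerivAt
      have h4 := pol_der (pr^[j + 1] B) y
      have h5 : derivative (pr^[j + 1] B) = pr^[j] B := by
        rw [Function.iterate_succ_apply', pr_der]
      rw [h5] at h4
      exact (h2.sub h4).hasDerivWithinAt
    have h6 := Convex.norm_image_sub_le_of_norm_hasDerivWithin_le h1 (ih (by omega)) (convex_Icc 0 1)
      (⟨le_rfl, zero_le_one⟩ : (0 : ℝ) ∈ Icc (0 : ℝ) 1) hx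
    have h7 : iteratedDeriv (m - (j + 1)) Γ 0 - (pr^[j + 1] B).eval ((0 : ℝ) : ℂ) = 0 := by
      rw [h0, Complex.ofReal_zero, ← coeff_zero_eq_eval_zero, Function.iterate_succ_apply', pr_zero, sub_zero]
    rw [h7, sub_zero, sub_zero] at h6
    refine h6.trans ?_
    rw [Real.norm_of_nonneg hx.1]
    exact (mul_le_mul_of_nonneg_left hx.2 hδ).trans_eq (mul_one _)

/-- the Bernstein polynomial -/
private noncomputable def bB (g : ℝ → ℂ) (N : ℕ) : Polynomial ℂ :=
  ∑ k ∈ Finset.range (N + 1), C (g ((k : ℝ) / N)) * (C ((N.choose k : ℂ)) * (X ^ k * (1 - X) ^ (N - k)))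

private theorem bB_eval (g : C(unitInterval, ℂ)) (g' : ℝ → ℂ) (hg : ∀ x : unitInterval, g x = g' x) (N : ℕ)
    (x : unitInterval) : (bernsteinApproximation N g) x = (bB g' N).eval ((x : ℝ) : ℂ) := by
  unfold bernsteinApproximation bB
  rw [eval_finsetSum, Finset.sum_range, ContinuousMap.sum_apply]
  refine Finset.sum_congr rfl fun k _ => ?_
  show bernstein N k x • g (bernstein.z k) = _
  rw [bernstein_apply, hg, eval_mul, eval_mul, eval_mul, eval_C, eval_C, eval_pow, eval_pow, eval_X, eval_sub,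
    eval_one, eval_X, Complex.real_smul]
  push_cast
  have h1 : ((bernstein.z k : unitInterval) : ℝ) = (k : ℝ) / N := rfl
  rw [h1]
  ring

private theorem bB_deg (g : ℝ → ℂ) (N : ℕ) : (bB g N).natDegree ≤ N := by
  unfold bB
  refine natDegree_sum_le_of_forall_le _ _ fun k hk => ?_
  have hk' : k ≤ N := Nat.lt_succ_iff.1 (Finset.mem_range.1 hk)
  refine (natDegree_C_mul_le _ _).trans ((natDegree_C_mul_le _ _).trans (natDegree_mul_le.trans ?_))
  have h1 : (X ^ k : Polynomial ℂ).natDegree ≤ k := natDegree_X_pow_le k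
  have h2 : ((1 - X) ^ (N - k) : Polynomial ℂ).natDegree ≤ N - k := by
    refine natDegree_pow_le.trans ?_
    have h3 : (1 - X : Polynomial ℂ).natDegree ≤ 1 := by
      refine (natDegree_sub_le _ _).trans ?_
      simp
    calc (N - k) * (1 - X : Polynomial ℂ).natDegree ≤ (N - k) * 1 := Nat.mul_le_mul_left _ h3
      _ = N - k := mul_one _
  omega

private theorem bB_low {g : ℝ → ℂ} {c : ℝ} (hg : ∀ x ≤ c, g x = 0) {N n₀ : ℕ} (hN : 0 < N) (h : (n₀ : ℝ) ≤ c * N) :
    ∀ n < n₀, (bB g N).coeff n = 0 := by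
  intro n hn
  unfold bB
  rw [finsetSum_coeff]
  refine Finset.sum_eq_zero fun k _ => ?_
  by_cases hk : (k : ℝ) / N ≤ c
  · rw [hg _ hk]
    simp
  · have hN' : (0 : ℝ) < N := by exact_mod_cast hN
    have h1 : c * N < k := by
      rw [not_le, lt_div_iff₀ hN'] at hk
      exact hk
    have h2 : n < k := by
      have h3 : (n : ℝ) < k := by
        have h4 : (n : ℝ) < n₀ := by exact_mod_cast hn
        linarith
      exact_mod_cast h3
    rw [coeff_C_mul, coeff_C_mul, coeff_X_pow_mul', if_neg (by omega), mul_zero, mul_zero]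

private theorem bB_wn {g : ℝ → ℂ} {c u A : ℝ} (hu : 0 < u) (hu1 : u < 1) (hA : 0 ≤ A)
    (hgA : ∀ x ∈ Icc (0 : ℝ) 1, ‖g x‖ ≤ A) (hg : ∀ x ≤ c, g x = 0) {N : ℕ} (hN : 0 < N) (D : ℕ) :
    wn u D (bB g N) ≤ A * (3 * u ^ c) ^ N := by
  unfold bB
  refine (wn_sum hu.le D _ _).trans ?_
  have hN' : (0 : ℝ) < N := by exact_mod_cast hN
  have h1 : ∀ k ∈ Finset.range (N + 1), wn u D (C (g ((k : ℝ) / N)) * (C ((N.choose k : ℂ)) * (X ^ k * (1 - X) ^ (N - k)))) ≤
      A * (u ^ c) ^ N * ((1 : ℝ) ^ k * 2 ^ (N - k) * N.choose k) := by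
    intro k hk
    have hk' : k ≤ N := Nat.lt_succ_iff.1 (Finset.mem_range.1 hk)
    rw [wn_C_mul, wn_C_mul]
    by_cases hkc : (k : ℝ) / N ≤ c
    · rw [hg _ hkc, norm_zero, zero_mul]
      positivity
    · have h2 : c * N < k := by
        rw [not_le, lt_div_iff₀ hN'] at hkc
        exact hkc
      have h3 : u ^ k ≤ (u ^ c) ^ N := by
        rw [← Real.rpow_natCast u k, ← Real.rpow_natCast (u ^ c) N, ← Real.rpow_mul hu.le]
        exact Real.rpow_le_rpow_of_exponent_ge hu hu1.le h2.le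
      have h4 : ‖g ((k : ℝ) / N)‖ ≤ A := by
        refine hgA _ ⟨by positivity, ?_⟩
        rw [div_le_one hN']
        exact_mod_cast hk'
      have h5 : wn u D (X ^ k * (1 - X) ^ (N - k) : Polynomial ℂ) ≤ (u ^ c) ^ N * 2 ^ (N - k) := by
        refine (wn_bern hu.le D k (N - k)).trans ?_
        have h6 : (1 + u) ^ (N - k) ≤ (2 : ℝ) ^ (N - k) := pow_le_pow_left₀ (by linarith) (by linarith) _
        exact mul_le_mul h3 h6 (by positivity) (by positivity)
      have h7 : ‖((N.choose k : ℂ))‖ = (N.choose k : ℝ) := by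
        rw [Complex.norm_natCast]
      rw [h7]
      calc ‖g ((k : ℝ) / N)‖ * ((N.choose k : ℝ) * wn u D (X ^ k * (1 - X) ^ (N - k) : Polynomial ℂ))
          ≤ A * ((N.choose k : ℝ) * ((u ^ c) ^ N * 2 ^ (N - k))) := by
            refine mul_le_mul h4 (mul_le_mul_of_nonneg_left h5 (by positivity)) ?_ hA
            exact mul_nonneg (by positivity) (wn_nonneg hu.le D _)
        _ = _ := by ring
  refine (Finset.sum_le_sum h1).trans ?_
  rw [← Finset.mul_sum, ← add_pow]
  have h8 : (1 + 2 : ℝ) = 3 := by norm_num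
  rw [h8, mul_pow]
  exact le_of_eq (by ring)

end

/-- PROOF. `g = Γ^{(m)}` is continuous and zero on `[0,c]`. The Bernstein polynomials (`bernsteinApproximation_uniform`)
`B_N(x) = ∑_{k ≤ N} g(k/N) C(N,k) x^k (1-x)^{N-k}` converge to `g` uniformly on `[0,1]`; only `k ≥ cN` occur, so `x^{⌈cN⌉} ∣ B_N`,
and the sum of `|coefficient of x^n| u^n` is at most
`sup|g| ∑_{k ≥ cN} C(N,k) u^k (1+u)^{N-k} ≤ sup|g| u^{cN} (2+u)^N ≤ sup|g| (3 u^c)^N` (the degree is `≤ N`).
Let `P` be the `m`-fold primitive of `B_N` with zeros at `0`: `coeff P (n+m) = coeff B_N n / ((n+1)⋯(n+m))`. As `Γ = 0` near `0`,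
`|Γ^{(i)} - P^{(i)}| ≤ sup |g - B_N|` on `[0,1]` for `i ≤ m` (integrate `m-i` times). The weighted sum for `P` is at most
`(1+N+m)^M (3 u^c)^N sup|g| → 0` as `4 u^c < 1`. Low coefficients vanish for `n < n₀` as soon as `cN ≥ n₀`. -/
theorem bern {c u : ℝ} (hc : 0 < c) (hc1 : c < 1) (hu : 0 < u) (hu1 : u < 1) (h : 4 * u ^ c < 1) {Γ : ℝ → ℂ}
    (hΓ : ContDiff ℝ ((⊤ : ℕ∞) : WithTop ℕ∞) Γ) (h0 : ∀ x ≤ c, Γ x = 0) (m M n₀ : ℕ) {ε : ℝ} (hε : 0 < ε) :
    ∃ P : Polynomial ℂ, (∀ i ≤ m, ∀ x ∈ Icc (0 : ℝ) 1, ‖iteratedDeriv i (fun x : ℝ => Γ x - P.eval (x : ℂ)) x‖ ≤ ε) ∧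
      (∀ n < n₀, P.coeff n = 0) ∧
      ∑ n ∈ P.support, ‖P.coeff n‖ * (1 + (n : ℝ)) ^ M * u ^ n ≤ ε := by
  set g : ℝ → ℂ := iteratedDeriv m Γ with hg
  have hit : ∀ i, Continuous (iteratedDeriv i Γ) := fun i =>
    hΓ.continuous_iteratedDeriv i (by exact_mod_cast le_top)
  have hz : ∀ i, ∀ x ≤ c, iteratedDeriv i Γ x = 0 := by
    intro i
    have h1 : ∀ x ∈ Iio c, iteratedDeriv i Γ x = 0 := by
      intro x hx
      have h2 : Γ =ᶠ[𝓝 x] fun _ => (0 : ℂ) := by
        filter_upwards [Iio_mem_nhds hx] with y hy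
        exact h0 y (le_of_lt hy)
      rw [h2.iteratedDeriv_eq i]
      have h3 : iteratedDeriv i (fun _ : ℝ => (0 : ℂ)) = fun _ => 0 := by
        ext y
        simp
      rw [h3]
    have h4 : ∀ x ∈ closure (Iio c), iteratedDeriv i Γ x = 0 := fun x hx =>
      (closure_minimal (fun y hy => h1 y hy) (isClosed_eq (hit i) continuous_const)) hx
    intro x hx
    exact h4 x (by rw [closure_Iio]; exact hx)
  obtain ⟨A, hA⟩ := isCompact_Icc.exists_bound_of_continuousOn (s := Icc (0 : ℝ) 1) (hit m).continuousOn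
  have hA0 : 0 ≤ A := (norm_nonneg _).trans (hA 0 ⟨le_rfl, zero_le_one⟩)
  set gI : C(unitInterval, ℂ) := ⟨fun x => g x, (hit m).comp continuous_subtype_val⟩ with hgI
  -- conditions for large `N`
  have c1 : ∀ᶠ N : ℕ in atTop, ‖bernsteinApproximation N gI - gI‖ < ε := by
    have h1 := (tendsto_iff_norm_sub_tendsto_zero.1 (bernsteinApproximation_uniform gI))
    exact h1.eventually (gt_mem_nhds hε)
  have c2 : ∀ᶠ N : ℕ in atTop, (n₀ : ℝ) ≤ c * N := by
    have h1 : Tendsto (fun N : ℕ => c * (N : ℝ)) atTop atTop :=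
      tendsto_natCast_atTop_atTop.const_mul_atTop hc
    exact h1.eventually (eventually_ge_atTop _)
  set r : ℝ := 3 * u ^ c with hr
  have huc : 0 < u ^ c := Real.rpow_pos_of_pos hu c
  have hr0 : 0 < r := by positivity
  have hr1 : r < 1 := by linarith
  have c3 : ∀ᶠ N : ℕ in atTop, (1 + (N : ℝ) + m) ^ M * (A * r ^ N) ≤ ε := by
    have h1 := tendsto_pow_const_mul_const_pow_of_abs_lt_one M (r := r) (by rw [abs_of_pos hr0]; exact hr1)
    have h2 := (h1.comp (tendsto_add_atTop_nat (1 + m))).mul_const (A * (r ^ (1 + m))⁻¹)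
    rw [zero_mul] at h2
    have h3 := h2.eventually (gt_mem_nhds hε)
    filter_upwards [h3] with N hN
    refine le_of_eq_of_le ?_ hN.le
    show (1 + (N : ℝ) + m) ^ M * (A * r ^ N) = (((N + (1 + m) : ℕ) : ℝ) ^ M * r ^ (N + (1 + m))) * (A * (r ^ (1 + m))⁻¹)
    have h4 : r ^ (1 + m) ≠ 0 := by positivity
    push_cast
    rw [pow_add r N (1 + m)]
    field_simp
    ring
  obtain ⟨N, hN1, hN2, hN3, hN0⟩ := (c1.and (c2.and (c3.and (eventually_gt_atTop 0)))).exists
  have hBg : ∀ x ∈ Icc (0 : ℝ) 1, ‖iteratedDeriv m Γ x - (bB g N).eval (x : ℂ)‖ ≤ ε := by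
    intro x hx
    have h1 := (ContinuousMap.norm_le _ hε.le).1 hN1.le ⟨x, hx⟩
    rw [ContinuousMap.sub_apply, bB_eval gI g (fun _ => rfl) N ⟨x, hx⟩, norm_sub_rev] at h1
    exact h1
  refine ⟨pr^[m] (bB g N), ?_, ?_, ?_⟩
  · intro i hi x hx
    have h1 : ContDiffAt ℝ (i : WithTop ℕ∞) Γ x := (hΓ.of_le (by exact_mod_cast le_top)).contDiffAt
    have h2 : iteratedDeriv i (fun x : ℝ => Γ x - (pr^[m] (bB g N)).eval (x : ℂ)) x =
        iteratedDeriv i Γ x - iteratedDeriv i (fun x : ℝ => (pr^[m] (bB g N)).eval (x : ℂ)) x :=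
      iteratedDeriv_sub h1 (pol_smo _ _).contDiffAt
    rw [h2, pol_it]
    show ‖iteratedDeriv i Γ x - (Polynomial.derivative^[i] (pr^[m] (bB g N))).eval (x : ℂ)‖ ≤ ε
    rw [pr_it_der _ _ _ hi]
    have h3 := cua_int hΓ (fun i => hz i 0 hc.le) m (bB g N) hε.le hBg (m - i) (by omega) x hx
    have h4 : m - (m - i) = i := by omega
    rw [h4] at h3
    exact h3
  · exact pr_low (bB_low (fun x hx => hz m x hx) hN0 hN2) m
  · set P := pr^[m] (bB g N) with hP
    have hdeg : P.natDegree ≤ N + m := (pr_it_deg _ m).trans (Nat.add_le_add_right (bB_deg g N) m)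
    have h1 : P.support ⊆ Finset.range (N + m + 1) := fun n hn =>
      Finset.mem_range.2 (Nat.lt_succ_of_le ((Polynomial.le_natDegree_of_mem_supp n hn).trans hdeg))
    have h2 : ∑ n ∈ P.support, ‖P.coeff n‖ * (1 + (n : ℝ)) ^ M * u ^ n ≤
        ∑ n ∈ Finset.range (N + m + 1), (1 + (N : ℝ) + m) ^ M * (‖P.coeff n‖ * u ^ n) := by
      refine (Finset.sum_le_sum_of_subset_of_nonneg h1 fun n _ _ => by positivity).trans
        (Finset.sum_le_sum fun n hn => ?_)
      have h3 : (n : ℝ) ≤ N + m := by exact_mod_cast Nat.lt_succ_iff.1 (Finset.mem_range.1 hn)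
      have h4 : (1 + (n : ℝ)) ^ M ≤ (1 + (N : ℝ) + m) ^ M := pow_le_pow_left₀ (by positivity) (by linarith) _
      calc ‖P.coeff n‖ * (1 + (n : ℝ)) ^ M * u ^ n = (1 + (n : ℝ)) ^ M * (‖P.coeff n‖ * u ^ n) := by ring
        _ ≤ _ := mul_le_mul_of_nonneg_right h4 (by positivity)
    refine h2.trans ?_
    rw [← Finset.mul_sum]
    have h5 : ∑ n ∈ Finset.range (N + m + 1), ‖P.coeff n‖ * u ^ n ≤ A * r ^ N :=
      (wn_pr_it hu.le hu1.le (N + m + 1) (bB g N) m).trans
        (bB_wn hu hu1 hA0 hA (fun x hx => hz m x hx) hN0 _)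
    exact (mul_le_mul_of_nonneg_left h5 (by positivity)).trans hN3

end Pool.Agent.Lib.MP_79abb3_an.W.C
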