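import Pool.Agent.Lib.MP_79abb3_an.W.CDef
import Pool.Agent.Lib.MP_79abb3_an.W.CAa
import Pool.Agent.Lib.MP_79abb3_an.W.CUa
import Pool.Agent.Lib.MP_79abb3_an.W.CBc
import Pool.Agent.Lib.MP_79abb3_an.W.CEb
import Pool.Agent.Lib.MP_79abb3_an.W.CFb
import Pool.Agent.Lib.MP_79abb3_an.W.CFd
import Pool.Agent.Lib.MP_79abb3_an.W.CFe

section

/-!
Theorem W (MP_79abb3_an), block C (density of the drifts). Null vectors.
-/

set_option autoImplicit false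
set_option linter.unusedSectionVars false
set_option linter.unusedVariables false

open MeasureTheory Set Filter Topology Function Metric
open scoped ENNReal InnerProductSpace BoundedContinuousFunction

namespace Pool.Agent.Lib.MP_79abb3_an.W.C

variable {d : ℕ} {F : Type} [NormedAddCommGroup F] [NormedSpace ℝ F]

private theorem ceh_add (x y z : Cd d) : bc (x + y) z = bc x z + bc y z := by
  unfold bc
  rw [← Finset.sum_add_distrib]
  exact Finset.sum_congr rfl fun i _ => by rw [PiLp.add_apply, add_mul]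

private theorem ceh_smul (c : ℂ) (x z : Cd d) : bc (c • x) z = c * bc x z := by
  unfold bc
  rw [Finset.mul_sum]
  exact Finset.sum_congr rfl fun i _ => by rw [PiLp.smul_apply, smul_eq_mul, mul_assoc]

private theorem ceh_comm (x y : Cd d) : bc x y = bc y x := by
  unfold bc
  exact Finset.sum_congr rfl fun i _ => mul_comm _ _

private theorem ceh_cv (v w : Ed d) : bc (cv v) (cv w) = ((⟪v, w⟫_ℝ : ℝ) : ℂ) := by
  unfold bc cv
  rw [PiLp.inner_apply, Complex.ofReal_sum]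
  refine Finset.sum_congr rfl fun i _ => ?_
  simp [mul_comm]

private theorem ceh_norm (v : Ed d) : ‖cv v‖ = ‖v‖ := by
  unfold cv
  rw [EuclideanSpace.norm_eq, EuclideanSpace.norm_eq]
  congr 1
  refine Finset.sum_congr rfl fun i _ => ?_
  simp

/-- a combination of three vectors -/
private theorem ceh_sq {e f ξ : Ed d} (he : ‖e‖ = 1) (hf : ‖f‖ = 1) (hef : ⟪e, f⟫_ℝ = 0) (hξ : ⟪e, ξ⟫_ℝ = 0)
    (α β γ : ℂ) : bc (α • cv e + β • cv ξ + γ • cv f) (α • cv e + β • cv ξ + γ • cv f) =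
      α ^ 2 + β ^ 2 * ((‖ξ‖ ^ 2 : ℝ) : ℂ) + γ ^ 2 + 2 * β * γ * ((⟪f, ξ⟫_ℝ : ℝ) : ℂ) := by
  have ex : ∀ w : Cd d, bc (α • cv e + β • cv ξ + γ • cv f) w = α * bc (cv e) w + β * bc (cv ξ) w + γ * bc (cv f) w := by
    intro w
    rw [ceh_add, ceh_add, ceh_smul, ceh_smul, ceh_smul]
  have ey : ∀ w : Cd d, bc w (α • cv e + β • cv ξ + γ • cv f) = α * bc w (cv e) + β * bc w (cv ξ) + γ * bc w (cv f) := by
    intro w
    rw [ceh_comm, ex, ceh_comm (cv e), ceh_comm (cv ξ), ceh_comm (cv f)]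
  have hee : ⟪e, e⟫_ℝ = 1 := by rw [real_inner_self_eq_norm_sq, he, one_pow]
  have hff : ⟪f, f⟫_ℝ = 1 := by rw [real_inner_self_eq_norm_sq, hf, one_pow]
  have hfe : ⟪f, e⟫_ℝ = 0 := by rw [real_inner_comm, hef]
  have hξe : ⟪ξ, e⟫_ℝ = 0 := by rw [real_inner_comm, hξ]
  have hξf : ⟪ξ, f⟫_ℝ = ⟪f, ξ⟫_ℝ := real_inner_comm _ _
  have hξξ : ⟪ξ, ξ⟫_ℝ = ‖ξ‖ ^ 2 := real_inner_self_eq_norm_sq _
  rw [ex, ey, ey, ey]
  simp only [ceh_cv, hee, hff, hef, hfe, hξ, hξe, hξf, hξξ]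
  push_cast
  ring

private theorem ceh_rv (e f ξ : Ed d) (α β γ : ℝ) :
    rv ((1 / 2 : ℂ) • ((α : ℂ) • cv e + (Complex.I * β) • cv ξ + (Complex.I * γ) • cv f)) = (α / 2) • e := by
  ext i
  unfold rv cv
  simp
  ring

private theorem ceh_bound (e f ξ : Ed d) (he : ‖e‖ = 1) (hf : ‖f‖ = 1) (α β γ : ℝ) :
    ‖(1 / 2 : ℂ) • ((α : ℂ) • cv e + (Complex.I * β) • cv ξ + (Complex.I * γ) • cv f)‖ ≤
      (|α| + |β| * ‖ξ‖ + |γ|) / 2 := by
  rw [norm_smul]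
  have h1 : ‖(α : ℂ) • cv e + (Complex.I * β) • cv ξ + (Complex.I * γ) • cv f‖ ≤ |α| + |β| * ‖ξ‖ + |γ| := by
    refine (norm_add_le _ _).trans (add_le_add ((norm_add_le _ _).trans (add_le_add ?_ ?_)) ?_)
    · rw [norm_smul, ceh_norm, he, Complex.norm_real, mul_one, Real.norm_eq_abs]
    · rw [norm_smul, ceh_norm, norm_mul, Complex.norm_I, one_mul, Complex.norm_real, Real.norm_eq_abs]
    · rw [norm_smul, ceh_norm, hf, norm_mul, Complex.norm_I, one_mul, Complex.norm_real, mul_one,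
        Real.norm_eq_abs]
  have h2 : ‖(1 / 2 : ℂ)‖ = 1 / 2 := by simp
  rw [h2]
  linarith

/-- PROOF. `η = a e + i ξ`, `φ = ⟨f,ξ⟩`, `|φ| ≤ ‖ξ‖ ≤ a/2`, `s = √((a²-‖ξ‖²)/(a²-φ²))`, `3/4 ≤ s² ≤ 1`
(Cauchy-Schwarz), `ν' = -s (φ e + i a f)`. Then `bc ν' η = 0`, `bc η η = a² - ‖ξ‖²`, `bc ν' ν' = s² (φ² - a²) = -bc η η`. Put
`ζ₁ = (η-ν')/2`, `ζ₂ = (η+ν')/2`, `c = i/s`: `c ν' = -i (φ e + i a f) = a f - i φ e`. Real parts `(a ± s φ)/2 e`. Norms: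
`‖η‖ ≤ a + ‖ξ‖`, `‖ν'‖ ≤ |φ| + a`. -/
theorem null_pair {e f ξ : Ed d} (he : ‖e‖ = 1) (hf : ‖f‖ = 1) (hef : ⟪e, f⟫_ℝ = 0) (hξ : ⟪e, ξ⟫_ℝ = 0) {a : ℝ}
    (ha0 : 0 < a) (ha : 2 * ‖ξ‖ ≤ a) :
    ∃ (ζ₁ ζ₂ : Cd d) (c : ℂ), bc ζ₁ ζ₁ = 0 ∧ bc ζ₂ ζ₂ = 0 ∧ ζ₁ + ζ₂ = (a : ℂ) • cv e + Complex.I • cv ξ ∧
      c • (ζ₂ - ζ₁) = (a : ℂ) • cv f - (Complex.I * ((⟪f, ξ⟫_ℝ : ℝ) : ℂ)) • cv e ∧ ‖c‖ ≤ 2 ∧
      ‖rv ζ₁‖ ≤ (a + ‖ξ‖) / 2 ∧ ‖rv ζ₂‖ ≤ (a + ‖ξ‖) / 2 ∧ ‖ζ₁‖ ≤ 2 * a ∧ ‖ζ₂‖ ≤ 2 * a := by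
  set φ : ℝ := ⟪f, ξ⟫_ℝ with hφ
  have hφξ : |φ| ≤ ‖ξ‖ := by
    have := abs_real_inner_le_norm f ξ
    rwa [hf, one_mul] at this
  have hξ0 : 0 ≤ ‖ξ‖ := norm_nonneg ξ
  have hφ2 : φ ^ 2 ≤ ‖ξ‖ ^ 2 := by
    rw [← sq_abs φ]
    exact pow_le_pow_left₀ (abs_nonneg _) hφξ 2
  have hξ2 : ‖ξ‖ ^ 2 ≤ a ^ 2 / 4 := by nlinarith
  have ha2 : 0 < a ^ 2 := by positivity
  have hden : 0 < a ^ 2 - φ ^ 2 := by nlinarith
  set q : ℝ := (a ^ 2 - ‖ξ‖ ^ 2) / (a ^ 2 - φ ^ 2) with hq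
  have hq1 : q ≤ 1 := by
    rw [hq, div_le_one hden]
    linarith
  have hq0 : 3 / 4 ≤ q := by
    rw [hq, le_div_iff₀ hden]
    nlinarith [sq_nonneg φ]
  have hqe : q * (a ^ 2 - φ ^ 2) = a ^ 2 - ‖ξ‖ ^ 2 := div_mul_cancel₀ _ hden.ne'
  set s : ℝ := √q with hs
  have hs2 : s ^ 2 = q := Real.sq_sqrt (by linarith)
  have hs0 : 0 < s := Real.sqrt_pos.2 (by linarith)
  have hs1 : s ≤ 1 := by nlinarith
  have hs3 : 1 / 2 ≤ s := by nlinarith
  have hse : s ^ 2 * (a ^ 2 - φ ^ 2) = a ^ 2 - ‖ξ‖ ^ 2 := by rw [hs2]; exact hqe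
  have hseC : (s : ℂ) ^ 2 * ((a : ℂ) ^ 2 - (φ : ℂ) ^ 2) = (a : ℂ) ^ 2 - ((‖ξ‖ : ℝ) : ℂ) ^ 2 := by
    exact_mod_cast hse
  have hsφ : |s * φ| ≤ ‖ξ‖ := by
    rw [abs_mul, abs_of_pos hs0]
    calc s * |φ| ≤ 1 * |φ| := mul_le_mul_of_nonneg_right hs1 (abs_nonneg _)
      _ ≤ ‖ξ‖ := by rw [one_mul]; exact hφξ
  have hsφ' := abs_le.1 hsφ
  have hI : Complex.I ^ 2 = -1 := Complex.I_sq
  refine ⟨(1 / 2 : ℂ) • (((a + s * φ : ℝ) : ℂ) • cv e + (Complex.I * ((1 : ℝ) : ℂ)) • cv ξ +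
      (Complex.I * ((s * a : ℝ) : ℂ)) • cv f),
    (1 / 2 : ℂ) • (((a - s * φ : ℝ) : ℂ) • cv e + (Complex.I * ((1 : ℝ) : ℂ)) • cv ξ +
      (Complex.I * ((-(s * a) : ℝ) : ℂ)) • cv f), Complex.I / (s : ℂ), ?_, ?_, ?_, ?_, ?_, ?_, ?_, ?_, ?_⟩
  · rw [ceh_smul, ceh_comm, ceh_smul, ceh_sq he hf hef hξ, ← hφ]
    push_cast
    linear_combination (-1 / 4 : ℂ) * hseC + (1 / 4 * (((‖ξ‖ : ℝ) : ℂ) ^ 2 + (s : ℂ) ^ 2 * (a : ℂ) ^ 2 + 2 * s * a * φ)) * hI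
  · rw [ceh_smul, ceh_comm, ceh_smul, ceh_sq he hf hef hξ, ← hφ]
    push_cast
    linear_combination (-1 / 4 : ℂ) * hseC + (1 / 4 * (((‖ξ‖ : ℝ) : ℂ) ^ 2 + (s : ℂ) ^ 2 * (a : ℂ) ^ 2 - 2 * s * a * φ)) * hI
  · rw [← smul_add]
    push_cast
    module
  · have hsC : (s : ℂ) ≠ 0 := by exact_mod_cast hs0.ne'
    rw [← smul_sub]
    have e1 : ((a - s * φ : ℝ) : ℂ) • cv e + (Complex.I * ((1 : ℝ) : ℂ)) • cv ξ + (Complex.I * ((-(s * a) : ℝ) : ℂ)) • cv f -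
        (((a + s * φ : ℝ) : ℂ) • cv e + (Complex.I * ((1 : ℝ) : ℂ)) • cv ξ + (Complex.I * ((s * a : ℝ) : ℂ)) • cv f) =
        (-(2 * (s : ℂ) * φ)) • cv e + (-(2 * Complex.I * s * a)) • cv f := by
      push_cast
      module
    rw [e1, smul_add, smul_add, smul_smul, smul_smul, smul_smul, smul_smul]
    have c1 : Complex.I / (s : ℂ) * (1 / 2) * -(2 * (s : ℂ) * φ) = -(Complex.I * (φ : ℂ)) := by
      field_simp
    have c2 : Complex.I / (s : ℂ) * (1 / 2) * -(2 * Complex.I * s * a) = (a : ℂ) := by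
      field_simp
      rw [hI]
      ring
    rw [c1, c2]
    module
  · rw [norm_div, Complex.norm_I, Complex.norm_real, Real.norm_eq_abs, abs_of_pos hs0, div_le_iff₀ hs0]
    linarith
  · rw [ceh_rv, norm_smul, he, mul_one, Real.norm_eq_abs, abs_of_nonneg (by nlinarith [hsφ'.1])]
    linarith [hsφ'.2]
  · rw [ceh_rv, norm_smul, he, mul_one, Real.norm_eq_abs, abs_of_nonneg (by nlinarith [hsφ'.2])]
    linarith [hsφ'.1]
  · refine (ceh_bound e f ξ he hf _ _ _).trans ?_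
    rw [abs_one, one_mul, abs_of_nonneg (by nlinarith [hsφ'.1] : 0 ≤ a + s * φ),
      abs_of_nonneg (by positivity : 0 ≤ s * a)]
    nlinarith [hsφ'.2]
  · refine (ceh_bound e f ξ he hf _ _ _).trans ?_
    rw [abs_one, one_mul, abs_of_nonneg (by nlinarith [hsφ'.2] : 0 ≤ a - s * φ), abs_neg,
      abs_of_nonneg (by positivity : 0 ≤ s * a)]
    nlinarith [hsφ'.1]

end Pool.Agent.Lib.MP_79abb3_an.W.C
end

section

/-!
Theorem W (MP_79abb3_an), block C (density of the drifts). Linear functionals on the vectors orthogonal to `a e + i ξ`.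
-/

set_option autoImplicit false
set_option linter.unusedSectionVars false
set_option linter.unusedVariables false

open MeasureTheory Set Filter Topology Function Metric
open scoped ENNReal InnerProductSpace BoundedContinuousFunction

namespace Pool.Agent.Lib.MP_79abb3_an.W.C

variable {d : ℕ} {F : Type} [NormedAddCommGroup F] [NormedSpace ℝ F]

private theorem cei_cv_apply (v : Ed d) (i : Fin d) : cv v i = ((v i : ℝ) : ℂ) := rfl

private theorem cei_bc (p q e : Ed d) :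
    bc (cv p + Complex.I • cv q) (cv e) =
      ((⟪p, e⟫_ℝ : ℝ) : ℂ) + Complex.I * ((⟪q, e⟫_ℝ : ℝ) : ℂ) := by
  unfold bc
  rw [PiLp.inner_apply, PiLp.inner_apply, Complex.ofReal_sum, Complex.ofReal_sum, Finset.mul_sum,
    ← Finset.sum_add_distrib]
  refine Finset.sum_congr rfl fun i _ => ?_
  have h1 : (⟪p i, e i⟫_ℝ : ℝ) = p i * e i := by simp [mul_comm]
  have h2 : (⟪q i, e i⟫_ℝ : ℝ) = q i * e i := by simp [mul_comm]
  rw [h1, h2, cei_cv_apply]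
  show (((p i : ℝ) : ℂ) + Complex.I * ((q i : ℝ) : ℂ)) * ((e i : ℝ) : ℂ) = _
  push_cast
  ring

private theorem cei_bc_add (ν u w : Cd d) : bc ν (u + w) = bc ν u + bc ν w := by
  unfold bc
  rw [← Finset.sum_add_distrib]
  refine Finset.sum_congr rfl fun i _ => ?_
  show ν i * (u i + w i) = _
  ring

private theorem cei_bc_smul (ν u : Cd d) (c : ℂ) : bc ν (c • u) = c * bc ν u := by
  unfold bc
  rw [Finset.mul_sum]
  refine Finset.sum_congr rfl fun i _ => ?_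
  show ν i * (c * u i) = _
  ring

private theorem cei_N {e ξ : Ed d} {a B : ℝ} (hB0 : 0 ≤ B)
    (S : Cd d →ₗ[ℂ] ℂ)
    (hB : ∀ f : Ed d, ‖f‖ = 1 → ⟪e, f⟫_ℝ = 0 →
      ‖S ((a : ℂ) • cv f - (Complex.I * ((⟪f, ξ⟫_ℝ : ℝ) : ℂ)) • cv e)‖ ≤ B)
    (g : Ed d) (hg : ⟪e, g⟫_ℝ = 0) :
    ‖S ((a : ℂ) • cv g - (Complex.I * ((⟪g, ξ⟫_ℝ : ℝ) : ℂ)) • cv e)‖ ≤ ‖g‖ * B := by
  rcases eq_or_ne g 0 with rfl | h0
  · have h1 : (a : ℂ) • cv (0 : Ed d) - (Complex.I * ((⟪(0 : Ed d), ξ⟫_ℝ : ℝ) : ℂ)) • cv e = 0 := by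
      ext i
      show (a : ℂ) * (((0 : ℝ)) : ℂ) - (Complex.I * ((⟪(0 : Ed d), ξ⟫_ℝ : ℝ) : ℂ)) * cv e i = 0
      rw [inner_zero_left]
      simp
    rw [h1, map_zero, norm_zero, norm_zero, zero_mul]
  · have hn : ‖g‖ ≠ 0 := norm_ne_zero_iff.2 h0
    set f : Ed d := ‖g‖⁻¹ • g with hf
    have hf1 : ‖f‖ = 1 := by
      rw [hf, norm_smul, norm_inv, norm_norm, inv_mul_cancel₀ hn]
    have hf2 : ⟪e, f⟫_ℝ = 0 := by rw [hf, real_inner_smul_right, hg, mul_zero]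
    have hgf : g = ‖g‖ • f := by rw [hf, smul_smul, mul_inv_cancel₀ hn, one_smul]
    have h1 : (a : ℂ) • cv g - (Complex.I * ((⟪g, ξ⟫_ℝ : ℝ) : ℂ)) • cv e =
        ((‖g‖ : ℝ) : ℂ) • ((a : ℂ) • cv f - (Complex.I * ((⟪f, ξ⟫_ℝ : ℝ) : ℂ)) • cv e) := by
      have h2 : ⟪g, ξ⟫_ℝ = ‖g‖ * ⟪f, ξ⟫_ℝ := by
        conv_lhs => rw [hgf]
        rw [real_inner_smul_left]
      have h3 : ∀ i, g i = ‖g‖ * f i := by
        intro i
        conv_lhs => rw [hgf]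
        rfl
      ext i
      show (a : ℂ) * ((g i : ℝ) : ℂ) - (Complex.I * ((⟪g, ξ⟫_ℝ : ℝ) : ℂ)) * ((e i : ℝ) : ℂ) =
        ((‖g‖ : ℝ) : ℂ) * ((a : ℂ) * ((f i : ℝ) : ℂ) -
          (Complex.I * ((⟪f, ξ⟫_ℝ : ℝ) : ℂ)) * ((e i : ℝ) : ℂ))
      rw [h2, h3 i]
      push_cast
      ring
    rw [h1, map_smul, norm_smul, Complex.norm_real, norm_norm]
    exact mul_le_mul_of_nonneg_left (hB f hf1 hf2) (norm_nonneg _)

private theorem cei_norm {e p : Ed d} (he : ‖e‖ = 1) : ‖p - ⟪e, p⟫_ℝ • e‖ ≤ ‖p‖ := by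
  have h1 : ‖p - ⟪e, p⟫_ℝ • e‖ ^ 2 ≤ ‖p‖ ^ 2 := by
    rw [norm_sub_sq_real, real_inner_smul_right, norm_smul, he, mul_one, Real.norm_eq_abs, sq_abs,
      real_inner_comm p e]
    nlinarith [sq_nonneg (⟪p, e⟫_ℝ)]
  exact (abs_le_of_sq_le_sq' h1 (norm_nonneg _)).2

/-- PROOF. Let `ν_⟂ = ν - (ν·e) e = g₁ + i g₂`, `g₁, g₂` real, orthogonal to `e`, `‖g_i‖ ≤ ‖ν‖`. For a real `g ⟂ e` let
`N(g) = a g - i ⟨g,ξ⟩ e`. `bc ν η = 0` means `a (ν·e) = -i ν_⟂·ξ`, so `a ν = N(g₁) + i N(g₂)`. `N(g) = ‖g‖ N(g/‖g‖)` (if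
`g ≠ 0`), so `‖S (N g)‖ ≤ ‖g‖ B`. Hence `a ‖S ν‖ ≤ 2 ‖ν‖ B`. -/
theorem perp_bound {e ξ : Ed d} (he : ‖e‖ = 1) (hξ : ⟪e, ξ⟫_ℝ = 0) {a B : ℝ} (ha : 0 < a) (hB0 : 0 ≤ B)
    (S : Cd d →ₗ[ℂ] ℂ)
    (hB : ∀ f : Ed d, ‖f‖ = 1 → ⟪e, f⟫_ℝ = 0 →
      ‖S ((a : ℂ) • cv f - (Complex.I * ((⟪f, ξ⟫_ℝ : ℝ) : ℂ)) • cv e)‖ ≤ B)
    (ν : Cd d) (hν : bc ν ((a : ℂ) • cv e + Complex.I • cv ξ) = 0) : ‖S ν‖ ≤ 2 * B * ‖ν‖ / a := by
  set p : Ed d := rv ν with hp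
  set q : Ed d := WithLp.toLp 2 fun i => (ν i).im with hq
  have hνpq : ν = cv p + Complex.I • cv q := by
    ext i
    show ν i = (((ν i).re : ℝ) : ℂ) + Complex.I * (((ν i).im : ℝ) : ℂ)
    rw [mul_comm]
    exact (Complex.re_add_im (ν i)).symm
  have hpn : ‖p‖ ≤ ‖ν‖ := by
    have h1 : ‖p‖ ^ 2 ≤ ‖ν‖ ^ 2 := by
      rw [EuclideanSpace.norm_sq_eq, EuclideanSpace.norm_sq_eq]
      refine Finset.sum_le_sum fun i _ => pow_le_pow_left₀ (norm_nonneg _) ?_ 2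
      exact Complex.abs_re_le_norm (ν i)
    exact (abs_le_of_sq_le_sq' h1 (norm_nonneg _)).2
  have hqn : ‖q‖ ≤ ‖ν‖ := by
    have h1 : ‖q‖ ^ 2 ≤ ‖ν‖ ^ 2 := by
      rw [EuclideanSpace.norm_sq_eq, EuclideanSpace.norm_sq_eq]
      refine Finset.sum_le_sum fun i _ => pow_le_pow_left₀ (norm_nonneg _) ?_ 2
      exact Complex.abs_im_le_norm (ν i)
    exact (abs_le_of_sq_le_sq' h1 (norm_nonneg _)).2
  set g₁ : Ed d := p - ⟪e, p⟫_ℝ • e with hg₁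
  set g₂ : Ed d := q - ⟪e, q⟫_ℝ • e with hg₂
  have hee : ⟪e, e⟫_ℝ = 1 := by rw [real_inner_self_eq_norm_sq, he]; norm_num
  have ho : ∀ w : Ed d, ⟪e, w - ⟪e, w⟫_ℝ • e⟫_ℝ = 0 := by
    intro w
    rw [inner_sub_right, real_inner_smul_right, hee, mul_one, sub_self]
  have hξg : ∀ w : Ed d, ⟪w - ⟪e, w⟫_ℝ • e, ξ⟫_ℝ = ⟪w, ξ⟫_ℝ := by
    intro w
    rw [inner_sub_left, real_inner_smul_left, hξ, mul_zero, sub_zero]
  -- the equation
  have h1 : (a : ℂ) * (((⟪p, e⟫_ℝ : ℝ) : ℂ) + Complex.I * ((⟪q, e⟫_ℝ : ℝ) : ℂ)) +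
      Complex.I * (((⟪p, ξ⟫_ℝ : ℝ) : ℂ) + Complex.I * ((⟪q, ξ⟫_ℝ : ℝ) : ℂ)) = 0 := by
    rw [← cei_bc, ← cei_bc, ← hνpq, ← cei_bc_smul, ← cei_bc_smul, ← cei_bc_add]
    exact hν
  have h2 : (a : ℂ) • ν =
      ((a : ℂ) • cv g₁ - (Complex.I * ((⟪g₁, ξ⟫_ℝ : ℝ) : ℂ)) • cv e) +
      Complex.I • ((a : ℂ) • cv g₂ - (Complex.I * ((⟪g₂, ξ⟫_ℝ : ℝ) : ℂ)) • cv e) := by
    rw [hg₁, hg₂, hξg, hξg]
    conv_lhs => rw [hνpq]
    ext i
    show (a : ℂ) * (((p i : ℝ) : ℂ) + Complex.I * ((q i : ℝ) : ℂ)) =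
      ((a : ℂ) * (((p i - ⟪e, p⟫_ℝ * e i : ℝ)) : ℂ) -
        (Complex.I * ((⟪p, ξ⟫_ℝ : ℝ) : ℂ)) * ((e i : ℝ) : ℂ)) +
      Complex.I * ((a : ℂ) * (((q i - ⟪e, q⟫_ℝ * e i : ℝ)) : ℂ) -
        (Complex.I * ((⟪q, ξ⟫_ℝ : ℝ) : ℂ)) * ((e i : ℝ) : ℂ))
    rw [real_inner_comm p e, real_inner_comm q e]
    push_cast
    linear_combination (((e i : ℝ)) : ℂ) * h1
  have h3 : (a : ℂ) * S ν =
      S ((a : ℂ) • cv g₁ - (Complex.I * ((⟪g₁, ξ⟫_ℝ : ℝ) : ℂ)) • cv e) +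
      Complex.I * S ((a : ℂ) • cv g₂ - (Complex.I * ((⟪g₂, ξ⟫_ℝ : ℝ) : ℂ)) • cv e) := by
    have h4 := congrArg S h2
    rw [map_add, map_smul S Complex.I, map_smul S (a : ℂ) ν, smul_eq_mul, smul_eq_mul] at h4
    exact h4
  have h5 : a * ‖S ν‖ ≤ 2 * B * ‖ν‖ := by
    have h6 : ‖(a : ℂ) * S ν‖ = a * ‖S ν‖ := by
      rw [norm_mul, Complex.norm_real, Real.norm_of_nonneg ha.le]
    rw [← h6, h3]
    refine (norm_add_le _ _).trans ?_
    rw [norm_mul, Complex.norm_I, one_mul]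
    have h7 := cei_N hB0 S hB g₁ (ho p)
    have h8 := cei_N hB0 S hB g₂ (ho q)
    have h9 : ‖g₁‖ ≤ ‖ν‖ := (cei_norm he).trans hpn
    have h10 : ‖g₂‖ ≤ ‖ν‖ := (cei_norm he).trans hqn
    nlinarith [mul_le_mul_of_nonneg_right h9 hB0, mul_le_mul_of_nonneg_right h10 hB0]
  rw [le_div_iff₀ ha]
  linarith

end Pool.Agent.Lib.MP_79abb3_an.W.C
end

section

/-!
Theorem W (MP_79abb3_an), block C (density of the drifts). A functional which kills all plane waves kills all test functions.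
-/

set_option autoImplicit false
set_option linter.unusedSectionVars false
set_option linter.unusedVariables false

open MeasureTheory Set Filter Topology Function Metric
open scoped ENNReal InnerProductSpace BoundedContinuousFunction

namespace Pool.Agent.Lib.MP_79abb3_an.W.C

variable {d : ℕ} {F : Type} [NormedAddCommGroup F] [NormedSpace ℝ F]

section
open scoped FourierTransform

/-- the derivatives of a plane wave -/
private theorem cub_der (g : Ed d → ℂ) (v : Ed d) (j : ℕ) (Y : Ed d) :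
    iteratedFDeriv ℝ j (fun w : Ed d => Real.fourierChar (-⟪v, w⟫_ℝ) • g v) Y =
      Real.fourierChar (-⟪v, Y⟫_ℝ) • VectorFourier.fourierPowSMulRight (innerSL ℝ) g v j := by
  have h := VectorFourier.iteratedFDeriv_fourierIntegral (μ := Measure.dirac v) (innerSL ℝ) (f := g)
    (N := (j : ℕ∞)) (fun n _ => integrable_dirac (by simp [enorm_lt_top, ENNReal.mul_lt_top])) aestronglyMeasurable_dirac (n := j) le_rfl
  have h1 : VectorFourier.fourierIntegral Real.fourierChar (Measure.dirac v)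
      (innerSL ℝ : Ed d →L[ℝ] Ed d →L[ℝ] ℝ).toLinearMap₁₂ g =
      fun w : Ed d => Real.fourierChar (-⟪v, w⟫_ℝ) • g v := by
    ext w
    unfold VectorFourier.fourierIntegral
    rw [integral_dirac]
    rfl
  rw [h1] at h
  rw [h]
  unfold VectorFourier.fourierIntegral
  rw [integral_dirac]
  rfl

private theorem cub_smo (g : Ed d → ℂ) (v : Ed d) : Smo fun w : Ed d => Real.fourierChar (-⟪v, w⟫_ℝ) • g v := by
  have h1 : (fun w : Ed d => Real.fourierChar (-⟪v, w⟫_ℝ) • g v) =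
      fun w : Ed d => Complex.exp (((2 * Real.pi * -⟪v, w⟫_ℝ : ℝ) : ℂ) * Complex.I) * g v := by
    ext w
    rw [Circle.smul_def, Real.fourierChar_apply, smul_eq_mul]
  rw [h1]
  refine ContDiff.mul ?_ contDiff_const
  refine ContDiff.cexp ?_
  refine ContDiff.mul ?_ contDiff_const
  refine Complex.ofRealCLM.contDiff.comp ?_
  exact contDiff_const.mul (contDiff_const.inner ℝ contDiff_id).neg

private instance cuCpt (κ : ℝ) : CompactSpace (closedBall (0 : Ed d) κ) :=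
  isCompact_iff_compactSpace.1 (isCompact_closedBall _ _)

/-- the space of jets on a ball -/
private def CuY (d : ℕ) (κ : ℝ) (m : ℕ) : Type :=
  (j : Fin (m + 1)) → C(closedBall (0 : Ed d) κ, Ed d [×(j : ℕ)]→L[ℝ] ℂ)

private noncomputable instance (κ : ℝ) (m : ℕ) : NormedAddCommGroup (CuY d κ m) :=
  inferInstanceAs (NormedAddCommGroup ((j : Fin (m + 1)) → C(closedBall (0 : Ed d) κ, Ed d [×(j : ℕ)]→L[ℝ] ℂ)))
private noncomputable instance (κ : ℝ) (m : ℕ) : NormedSpace ℝ (CuY d κ m) :=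
  inferInstanceAs (NormedSpace ℝ ((j : Fin (m + 1)) → C(closedBall (0 : Ed d) κ, Ed d [×(j : ℕ)]→L[ℝ] ℂ)))
private instance (κ : ℝ) (m : ℕ) : CompleteSpace (CuY d κ m) :=
  inferInstanceAs (CompleteSpace ((j : Fin (m + 1)) → C(closedBall (0 : Ed d) κ, Ed d [×(j : ℕ)]→L[ℝ] ℂ)))

private theorem cuY_le {κ : ℝ} {m : ℕ} {G : CuY d κ m} {r : ℝ} (hr : 0 ≤ r) :
    ‖G‖ ≤ r ↔ ∀ (j : Fin (m + 1)) (Y : closedBall (0 : Ed d) κ), ‖G j Y‖ ≤ r := by
  constructor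
  · intro h j Y
    exact (ContinuousMap.norm_le _ hr).1 ((pi_norm_le_iff_of_nonneg hr).1 h j) Y
  · intro h
    exact (pi_norm_le_iff_of_nonneg hr).2 fun j => (ContinuousMap.norm_le _ hr).2 (h j)

/-- evaluation -/
private noncomputable def cuE {κ : ℝ} {m : ℕ} (j : Fin (m + 1)) (Y : closedBall (0 : Ed d) κ) :
    CuY d κ m →L[ℝ] (Ed d [×(j : ℕ)]→L[ℝ] ℂ) :=
  LinearMap.mkContinuous
    { toFun := fun G => G j Y
      map_add' := fun _ _ => rfl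
      map_smul' := fun _ _ => rfl } 1 fun G => by
    rw [one_mul]
    exact (cuY_le (norm_nonneg G)).1 le_rfl j Y

private theorem cuE_apply {κ : ℝ} {m : ℕ} (j : Fin (m + 1)) (Y : closedBall (0 : Ed d) κ) (G : CuY d κ m) :
    cuE j Y G = G j Y := rfl

private theorem cuY_ext {κ : ℝ} {m : ℕ} {G G' : CuY d κ m}
    (h : ∀ (j : Fin (m + 1)) (Y : closedBall (0 : Ed d) κ), G j Y = G' j Y) : G = G' :=
  funext fun j => ContinuousMap.ext fun Y => h j Y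

/-- jets on a ball -/
private noncomputable def cuJ (κ : ℝ) (m : ℕ) (f : Ed d → ℂ) (hf : Smo f) : CuY d κ m :=
  fun j => ⟨fun Y => iteratedFDeriv ℝ (j : ℕ) f (Y : Ed d),
    (ContDiff.continuous_iteratedFDeriv (m := (j : ℕ)) (by exact_mod_cast le_top) hf).comp continuous_subtype_val⟩

private theorem cuJ_apply (κ : ℝ) (m : ℕ) (f : Ed d → ℂ) (hf : Smo f) (j : Fin (m + 1))
    (Y : closedBall (0 : Ed d) κ) : cuJ κ m f hf j Y = iteratedFDeriv ℝ (j : ℕ) f (Y : Ed d) := rfl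

private theorem cub_it_add {f g : Ed d → ℂ} (hf : Smo f) (hg : Smo g) (j : ℕ) (Y : Ed d) :
    iteratedFDeriv ℝ j (fun x => f x + g x) Y = iteratedFDeriv ℝ j f Y + iteratedFDeriv ℝ j g Y := by
  have hf' : ContDiff ℝ (j : WithTop ℕ∞) f := ContDiff.of_le hf (by exact_mod_cast le_top)
  have hg' : ContDiff ℝ (j : WithTop ℕ∞) g := ContDiff.of_le hg (by exact_mod_cast le_top)
  exact iteratedFDeriv_add_apply hf'.contDiffAt hg'.contDiffAt

private theorem cub_it_smul (c : ℝ) {f : Ed d → ℂ} (hf : Smo f) (j : ℕ) (Y : Ed d) :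
    iteratedFDeriv ℝ j (fun x => (c : ℂ) * f x) Y = c • iteratedFDeriv ℝ j f Y := by
  have hf' : ContDiff ℝ (j : WithTop ℕ∞) f := ContDiff.of_le hf (by exact_mod_cast le_top)
  have h1 : (fun x => (c : ℂ) * f x) = c • f := by
    ext x
    rw [Pi.smul_apply, Complex.real_smul]
  rw [h1]
  exact iteratedFDeriv_const_smul_apply hf'.contDiffAt

private theorem cub_smo_add {f g : Ed d → ℂ} (hf : Smo f) (hg : Smo g) : Smo fun x => f x + g x :=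
  ContDiff.add hf hg

private theorem cub_smo_smul (c : ℂ) {f : Ed d → ℂ} (hf : Smo f) : Smo fun x => c * f x :=
  ContDiff.mul contDiff_const hf

private theorem cub_nrm (g : Ed d → ℂ) (v : Ed d) (j : ℕ) (c : Circle) :
    ‖c • (VectorFourier.fourierPowSMulRight (innerSL ℝ) g v j : Ed d [×j]→L[ℝ] ℂ)‖ ≤
      (2 * Real.pi * ‖(innerSL ℝ : Ed d →L[ℝ] Ed d →L[ℝ] ℝ)‖) ^ j * (‖v‖ ^ j * ‖g v‖) := by
  rw [← mul_assoc]
  refine le_trans (le_of_eq ?_) (VectorFourier.norm_fourierPowSMulRight_le (innerSL ℝ) g v j)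
  exact Circle.norm_smul c (VectorFourier.fourierPowSMulRight (innerSL ℝ) g v j : Ed d [×j]→L[ℝ] ℂ)

/-- the jets of the functions killed by `Φ` -/
private noncomputable def cuS (κ : ℝ) (m : ℕ) {Φ : (Ed d → ℂ) → ℂ} (hΦ : LinB (closedBall (0 : Ed d) κ) m Φ) :
    Submodule ℝ (CuY d κ m) where
  carrier := {y | ∃ (f : Ed d → ℂ) (hf : Smo f), y = cuJ κ m f hf ∧ Φ f = 0}
  add_mem' := by
    rintro _ _ ⟨f, hf, rfl, h1⟩ ⟨g, hg, rfl, h2⟩
    refine ⟨fun x => f x + g x, cub_smo_add hf hg, ?_, ?_⟩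
    · refine cuY_ext fun j Y => ?_
      exact (cub_it_add hf hg (j : ℕ) (Y : Ed d)).symm
    · rw [hΦ.add f g hf hg, h1, h2, add_zero]
  zero_mem' := by
    have h0 : Smo (fun _ : Ed d => (0 : ℂ)) := contDiff_const
    refine ⟨fun _ => 0, h0, ?_, ?_⟩
    · refine cuY_ext fun j Y => ?_
      show 0 = iteratedFDeriv ℝ (j : ℕ) (fun _ : Ed d => (0 : ℂ)) (Y : Ed d)
      have h1 := cub_it_smul 0 h0 (j : ℕ) (Y : Ed d)
      simp only [Complex.ofReal_zero, zero_mul, zero_smul] at h1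
      exact h1.symm
    · have h1 := hΦ.smul 0 (fun _ : Ed d => (0 : ℂ)) h0
      simpa using h1
  smul_mem' := by
    rintro c _ ⟨f, hf, rfl, h1⟩
    refine ⟨fun x => (c : ℂ) * f x, cub_smo_smul c hf, ?_, ?_⟩
    · refine cuY_ext fun j Y => ?_
      exact (cub_it_smul c hf (j : ℕ) (Y : Ed d)).symm
    · rw [hΦ.smul _ f hf, h1, mul_zero]

/-- a functional zero on a submodule and non zero at a point off its closure -/
private theorem cub_sep {X : Type} [NormedAddCommGroup X] [NormedSpace ℝ X] (S : Submodule ℝ X) {z : X}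
    (hz : z ∉ closure (S : Set X)) : ∃ T : X →L[ℝ] ℝ, (∀ y ∈ S, T y = 0) ∧ T z ≠ 0 := by
  have hconv : Convex ℝ (closure (S : Set X)) := S.convex.closure
  obtain ⟨T, u, h1, h2⟩ := geometric_hahn_banach_closed_point hconv isClosed_closure hz
  have hu : 0 < u := by
    have h3 := h1 0 (subset_closure S.zero_mem)
    rwa [map_zero] at h3
  refine ⟨T, fun y hy => ?_, ?_⟩
  · by_contra hne
    have h3 := h1 ((u / T y) • y) (subset_closure (S.smul_mem _ hy))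
    rw [map_smul, smul_eq_mul, div_mul_cancel₀ _ hne] at h3
    exact lt_irrefl _ h3
  · exact (hu.trans h2).ne'

/-- PROOF. (1) Hahn-Banach: let `Y` be the Banach space of bounded continuous `(D^j)_{j ≤ m}` on `K = closedBall 0 κ` (as `JS`, with values
in `ℂ` instead of `Cd d`), `J : H ↦` jet. By `bdd`, `‖Φ H‖ ≤ C ‖J H‖`; so `Φ` defines a bounded functional on the range of `J` on smooth
functions (well defined), extend it to `T : Y →L[ℂ] ℂ` (`exists_extension_norm_eq`), `Φ H = T (J H)`. (2) `H` is a Schwartz function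
(`HasCompactSupport.toSchwartzMap`-like), `Ĥ = 𝓕 H` is Schwartz, `H(Y) = ∫ Ĥ(ξ) e_ξ(Y) dξ` (Fourier inversion),
`e_ξ(Y) = exp (2πi ⟨ξ,Y⟩)`. The map `ξ ↦ J e_ξ ∈ Y` is continuous with `‖J e_ξ‖ ≤ (1 + 2π‖ξ‖)^m`, so `ξ ↦ Ĥ(ξ) J e_ξ` is Bochner integrable;
its integral is `J H`, since evaluation at a point and at vectors commutes with the integral and
`D^j H(Y) = ∫ Ĥ(ξ) D^j e_ξ(Y) dξ` (`Real.iteratedFDeriv_fourier` for `𝓕⁻`, or differentiation under the integral).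
So `Φ H = T (J H) = ∫ Ĥ(ξ) T (J e_ξ) dξ = ∫ Ĥ(ξ) Φ(e_ξ) dξ = 0`. -/
theorem four_kill {κ : ℝ} (hκ : 0 < κ) {m : ℕ} {Φ : (Ed d → ℂ) → ℂ} (hΦ : LinB (closedBall (0 : Ed d) κ) m Φ)
    (h0 : ∀ ξ : Ed d, Φ (fun Y => Complex.exp (2 * Real.pi * Complex.I * ((⟪ξ, Y⟫_ℝ : ℝ) : ℂ))) = 0)
    {H : Ed d → ℂ} (hH : Smo H) (hc : HasCompactSupport H) : Φ H = 0 := by
  have hH' : ContDiff ℝ ((⊤ : ℕ∞) : WithTop ℕ∞) H := hH
  set Hs : SchwartzMap (Ed d) ℂ := hc.toSchwartzMap hH' with hHs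
  set gs : SchwartzMap (Ed d) ℂ := 𝓕⁻ Hs with hgs
  have hgH : 𝓕 (gs : Ed d → ℂ) = H := by
    have h1 : 𝓕 gs = Hs := FourierTransform.fourier_fourierInv_eq Hs
    rw [← SchwartzMap.fourier_coe, h1]
    rfl
  set g : Ed d → ℂ := (gs : Ed d → ℂ) with hg
  have hgc : Continuous g := gs.continuous
  -- the curve of the jets of plane waves
  set G : Ed d → CuY d κ m :=
    fun v => cuJ κ m _ (cub_smo g v) with hG
  have hGa : ∀ (v : Ed d) (j : Fin (m + 1)) (Y : closedBall (0 : Ed d) κ), G v j Y =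
      Real.fourierChar (-⟪v, (Y : Ed d)⟫_ℝ) • VectorFourier.fourierPowSMulRight (innerSL ℝ) g v j :=
    fun v j Y => cub_der g v j Y
  have hGcont : Continuous G := by
    refine continuous_pi fun j => ContinuousMap.continuous_of_continuous_uncurry _ ?_
    have h1 : Function.uncurry (fun (v : Ed d) (Y : closedBall (0 : Ed d) κ) => G v j Y) =
        fun p : Ed d × closedBall (0 : Ed d) κ =>
          Real.fourierChar (-⟪p.1, (p.2 : Ed d)⟫_ℝ) • VectorFourier.fourierPowSMulRight (innerSL ℝ) g p.1 j := by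
      ext1 p
      exact hGa p.1 j p.2
    rw [h1]
    have h2 : Continuous fun p : Ed d × closedBall (0 : Ed d) κ => Real.fourierChar (-⟪p.1, (p.2 : Ed d)⟫_ℝ) :=
      Real.continuous_fourierChar.comp (continuous_fst.inner (continuous_subtype_val.comp continuous_snd)).neg
    have h3 : Continuous fun p : Ed d × closedBall (0 : Ed d) κ =>
        VectorFourier.fourierPowSMulRight (innerSL ℝ) g p.1 j :=
      (hgc.fourierPowSMulRight (innerSL ℝ) j).comp continuous_fst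
    exact h2.smul h3
  have hGint : Integrable G := by
    have h1 : ∀ j : Fin (m + 1), Integrable fun v : Ed d =>
        (2 * Real.pi * ‖(innerSL ℝ : Ed d →L[ℝ] Ed d →L[ℝ] ℝ)‖) ^ (j : ℕ) * (‖v‖ ^ (j : ℕ) * ‖g v‖) :=
      fun j => (gs.integrable_pow_mul volume j).const_mul _
    refine (integrable_finsetSum Finset.univ fun j _ => h1 j).mono' hGcont.aestronglyMeasurable ?_
    refine Eventually.of_forall fun v => ?_
    have hnn : ∀ j : Fin (m + 1), 0 ≤ (2 * Real.pi * ‖(innerSL ℝ : Ed d →L[ℝ] Ed d →L[ℝ] ℝ)‖) ^ (j : ℕ) *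
        (‖v‖ ^ (j : ℕ) * ‖g v‖) := fun j => by positivity
    refine (cuY_le (Finset.sum_nonneg fun j _ => hnn j)).2 fun j Y => ?_
    rw [hGa]
    refine (cub_nrm g v j _).trans ?_
    exact Finset.single_le_sum (f := fun j : Fin (m + 1) =>
      (2 * Real.pi * ‖(innerSL ℝ : Ed d →L[ℝ] Ed d →L[ℝ] ℝ)‖) ^ (j : ℕ) * (‖v‖ ^ (j : ℕ) * ‖g v‖))
      (fun j _ => hnn j) (Finset.mem_univ j)
  -- the jet of `H` is the integral
  have hjet : cuJ κ m H hH = ∫ v, G v := by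
    refine cuY_ext fun j Y => ?_
    have e1 : (∫ v, G v) j Y = ∫ v, G v j Y := ((cuE j Y).integral_comp_comm hGint).symm
    rw [e1, cuJ_apply]
    have e2 := Real.iteratedFDeriv_fourier (f := g) (N := ⊤) (fun n _ => gs.integrable_pow_mul volume n)
      hgc.aestronglyMeasurable (n := (j : ℕ)) le_top
    rw [hgH] at e2
    rw [e2]
    rw [Real.fourier_eq]
    exact integral_congr_ae (Eventually.of_forall fun v => (hGa v j Y).symm)
  -- the waves are killed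
  have hGS : ∀ v, G v ∈ cuS κ m hΦ := by
    intro v
    refine ⟨_, cub_smo g v, rfl, ?_⟩
    have h1 : (fun w : Ed d => Real.fourierChar (-⟪v, w⟫_ℝ) • g v) =
        fun w : Ed d => g v * Complex.exp (2 * Real.pi * Complex.I * ((⟪-v, w⟫_ℝ : ℝ) : ℂ)) := by
      ext w
      rw [Circle.smul_def, Real.fourierChar_apply, smul_eq_mul, mul_comm (g v), inner_neg_left]
      congr 2
      push_cast
      ring
    have h2 : Smo fun w : Ed d => Complex.exp (2 * Real.pi * Complex.I * ((⟪-v, w⟫_ℝ : ℝ) : ℂ)) := by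
      refine ContDiff.cexp (contDiff_const.mul ?_)
      exact Complex.ofRealCLM.contDiff.comp (contDiff_const.inner ℝ contDiff_id)
    rw [h1, hΦ.smul (g v) _ h2, h0 (-v), mul_zero]
  have hcl : cuJ κ m H hH ∈ closure (cuS κ m hΦ : Set _) := by
    by_contra hne
    obtain ⟨T, h1, h2⟩ := cub_sep (cuS κ m hΦ) hne
    apply h2
    rw [hjet, ← T.integral_comp_comm hGint]
    have h3 : ∀ v, T (G v) = 0 := fun v => h1 _ (hGS v)
    simp only [h3, integral_zero]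
  obtain ⟨C, hC, hbd⟩ := hΦ.bdd
  have hle : ∀ ε : ℝ, 0 < ε → ‖Φ H‖ ≤ C * ε := by
    intro ε hε
    obtain ⟨_, ⟨f, hf, rfl, hf0⟩, hdist⟩ := Metric.mem_closure_iff.1 hcl ε hε
    have h5 : Smo fun x => ((-1 : ℝ) : ℂ) * f x := cub_smo_smul _ hf
    have h1 : Smo fun x => H x + ((-1 : ℝ) : ℂ) * f x := cub_smo_add hH h5
    have h2 : Φ (fun x => H x + ((-1 : ℝ) : ℂ) * f x) = Φ H := by
      rw [hΦ.add H _ hH h5, hΦ.smul _ f hf, hf0, mul_zero, add_zero]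
    rw [← h2]
    refine hbd _ _ h1 hε.le fun i hi x hx => ?_
    rw [dist_eq_norm] at hdist
    have h6 := (cuY_le hε.le).1 hdist.le ⟨i, Nat.lt_succ_of_le hi⟩ ⟨x, hx⟩
    have h7 : iteratedFDeriv ℝ i (fun x => H x + ((-1 : ℝ) : ℂ) * f x) x =
        iteratedFDeriv ℝ i H x - iteratedFDeriv ℝ i f x := by
      rw [cub_it_add hH h5, cub_it_smul (-1) hf, neg_one_smul, sub_eq_add_neg]
    rw [h7]
    exact h6
  have h8 : Tendsto (fun ε : ℝ => C * ε) (𝓝[>] 0) (𝓝 (C * 0)) :=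
    (tendsto_id.const_mul C).mono_left nhdsWithin_le_nhds
  have h9 : ‖Φ H‖ ≤ C * 0 := ge_of_tendsto h8 (by
    filter_upwards [self_mem_nhdsWithin] with ε hε
    exact hle ε hε)
  rw [mul_zero] at h9
  exact norm_le_zero_iff.1 h9

end

end Pool.Agent.Lib.MP_79abb3_an.W.C
end

section

/-!
Theorem W (MP_79abb3_an), block C (density of the drifts). Functions of one variable times a plane wave.
-/

set_option autoImplicit false
set_option linter.unusedSectionVars false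
set_option linter.unusedVariables false

open MeasureTheory Set Filter Topology Function Metric
open scoped ENNReal InnerProductSpace BoundedContinuousFunction

namespace Pool.Agent.Lib.MP_79abb3_an.W.C

variable {d : ℕ} {F : Type} [NormedAddCommGroup F] [NormedSpace ℝ F]

private theorem cuc_zero {K : Set (Ed d)} {m : ℕ} {Φ : (Ed d → ℂ) → ℂ} (hΦ : LinB K m Φ) :
    Φ (fun _ => 0) = 0 := by
  have h0 : Smo (fun _ : Ed d => (0 : ℂ)) := contDiff_const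
  have h1 := hΦ.smul 0 (fun _ : Ed d => (0 : ℂ)) h0
  simpa using h1

private theorem cuc_smo_sum {ι : Type} (s : Finset ι) {f : ι → Ed d → ℂ} (hf : ∀ i, Smo (f i)) :
    Smo fun x => ∑ i ∈ s, f i x := ContDiff.sum fun i _ => hf i

private theorem cuc_sum {K : Set (Ed d)} {m : ℕ} {Φ : (Ed d → ℂ) → ℂ} (hΦ : LinB K m Φ) {ι : Type} (s : Finset ι)
    {f : ι → Ed d → ℂ} (hf : ∀ i, Smo (f i)) : Φ (fun x => ∑ i ∈ s, f i x) = ∑ i ∈ s, Φ (f i) := by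
  classical
  induction s using Finset.induction_on with
  | empty =>
    simp only [Finset.sum_empty]
    exact cuc_zero hΦ
  | insert a s ha ih =>
    simp only [Finset.sum_insert ha]
    rw [hΦ.add _ _ (hf a) (cuc_smo_sum s hf), ih]

private theorem cuc_pe (a : ℝ) (e ξ : Ed d) : Smo (pe a e ξ) := by
  unfold pe
  refine ContDiff.cexp (ContDiff.add ?_ (contDiff_const.mul ?_))
  · exact Complex.ofRealCLM.contDiff.comp (contDiff_const.mul (contDiff_const.inner ℝ contDiff_id))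
  · exact Complex.ofRealCLM.contDiff.comp (contDiff_const.inner ℝ contDiff_id)

/-- the number `4 exp (-4/e)` is less than one -/
private theorem cuc_num {y : ℝ} (hy : 4 ≤ y) : 4 * (Real.exp (-y)) ^ Real.exp (-1) < 1 := by
  rw [← Real.exp_mul]
  have h1 : Real.exp 1 < 2.7182818286 := Real.exp_one_lt_d9
  have h2 : Real.log 2 < 0.6931471808 := Real.log_two_lt_d9
  have h3 : (1.38629437 : ℝ) < 4 * Real.exp (-1) := by
    rw [Real.exp_neg, ← div_eq_mul_inv, lt_div_iff₀ (Real.exp_pos 1)]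
    nlinarith
  have h4 : Real.log 4 < y * Real.exp (-1) := by
    have h5 : Real.log 4 = 2 * Real.log 2 := by
      rw [show (4 : ℝ) = 2 ^ (2 : ℕ) by norm_num, Real.log_pow]
      norm_num
    have h6 : 4 * Real.exp (-1) ≤ y * Real.exp (-1) := mul_le_mul_of_nonneg_right hy (Real.exp_pos _).le
    linarith
  have h5 : (4 : ℝ) < Real.exp (y * Real.exp (-1)) := by
    rw [← Real.log_lt_iff_lt_exp (by norm_num)]
    exact h4
  have h6 : -y * Real.exp (-1) = -(y * Real.exp (-1)) := by ring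
  rw [h6, Real.exp_neg, ← div_eq_mul_inv, div_lt_one (Real.exp_pos _)]
  exact h5

/-- the function `Γ` -/
private theorem cuc_Gam {t₀ κ₁ : ℝ} (h1 : t₀ < κ₁) {G : ℝ → ℂ} (hG : ContDiff ℝ ((⊤ : ℕ∞) : WithTop ℕ∞) G)
    (hGs : tsupport G ⊆ Ioi t₀) : ∃ Γ : ℝ → ℂ, ContDiff ℝ ((⊤ : ℕ∞) : WithTop ℕ∞) Γ ∧
      (∀ x ≤ Real.exp (-1), Γ x = 0) ∧ ∀ t : ℝ, Γ (Real.exp ((t - κ₁) / (κ₁ - t₀))) = G t := by
  have hs : 0 < κ₁ - t₀ := sub_pos.2 h1
  have hG0 : ∀ t ≤ t₀, G t = 0 := fun t ht =>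
    image_eq_zero_of_notMem_tsupport fun hmem => absurd (hGs hmem) (not_lt.2 ht)
  have h0 : ∀ x ≤ Real.exp (-1), (if 0 < x then G (κ₁ + (κ₁ - t₀) * Real.log x) else 0) = 0 := by
    intro x hx
    split_ifs with hx0
    · refine hG0 _ ?_
      have h2 : Real.log x ≤ -1 := by
        rw [Real.log_le_iff_le_exp hx0]
        exact hx
      nlinarith
    · rfl
  refine ⟨fun x => if 0 < x then G (κ₁ + (κ₁ - t₀) * Real.log x) else 0, ?_, h0, ?_⟩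
  · rw [contDiff_iff_contDiffAt]
    intro x
    by_cases hx : 0 < x
    · have h3 : ContDiffAt ℝ ((⊤ : ℕ∞) : WithTop ℕ∞) (fun y => G (κ₁ + (κ₁ - t₀) * Real.log y)) x :=
        hG.contDiffAt.comp x (contDiffAt_const.add (contDiffAt_const.mul (Real.contDiffAt_log.2 hx.ne')))
      refine h3.congr_of_eventuallyEq ?_
      filter_upwards [Ioi_mem_nhds hx] with y hy
      exact if_pos hy
    · have h3 : ContDiffAt ℝ ((⊤ : ℕ∞) : WithTop ℕ∞) (fun _ : ℝ => (0 : ℂ)) x := contDiffAt_const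
      refine h3.congr_of_eventuallyEq ?_
      have hx' : x < Real.exp (-1) := (not_lt.1 hx).trans_lt (Real.exp_pos _)
      filter_upwards [Iio_mem_nhds hx'] with y hy
      exact h0 y (le_of_lt hy)
  · intro t
    show (if 0 < Real.exp ((t - κ₁) / (κ₁ - t₀)) then
      G (κ₁ + (κ₁ - t₀) * Real.log (Real.exp ((t - κ₁) / (κ₁ - t₀)))) else 0) = G t
    rw [if_pos (Real.exp_pos _), Real.log_exp, mul_div_cancel₀ _ hs.ne']
    congr 1
    ring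

/-- PROOF. `s = κ₁ - t₀ > 0`, `u = exp (-(κ₁-κm)/s) ≤ e^{-4}`, `c = e^{-1}`: `4 u^c ≤ 4 e^{-4/e} < 1`. `Γ(x) = G(κ₁ + s log x)` for
`x > 0`, `0` for `x ≤ 0`: smooth, zero for `x ≤ c` (`G = 0` for `t ≤ t₀`). `bern` with `m`, `M`, `n₀ ≥ s a₀` and `ε`: `P = ∑ c_n x^n`.
With `z(Y) = exp ((⟨e,Y⟩ - κ₁)/s)`, which is in `(0,1]` for `‖Y‖ ≤ κ₁`,
`G⟨e,Y⟩ e^{i⟨ξ,Y⟩} = ∑_n c_n e^{-nκ₁/s} pe (n/s) e ξ Y + (Γ - P)(z(Y)) e^{i⟨ξ,Y⟩}`. The derivatives of order `≤ m` of the last term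
on `closedBall 0 κ₁` are `≤ C ε`, `C` independent of `P` (Faà di Bruno `norm_iteratedFDeriv_comp_le`: `‖D^i z‖ ≤ (1/s)^i`, and
`nrm_mul`), so `Φ` of it is `≤ C' ε`; and `‖Φ (∑ …)‖ ≤ ∑ |c_n| e^{-nκ₁/s} C₀ (1+n/s)^M e^{nκm/s} ≤ C₀ max(1,1/s)^M ∑ |c_n| (1+n)^M u^n ≤ C'' ε`
(only `n ≥ n₀`, i.e. `n/s ≥ a₀`). Let `ε → 0`. -/
theorem slab_kill {e : Ed d} (he : ‖e‖ = 1) {t₀ κ₁ κm : ℝ} (hκ : 0 < κ₁) (h1 : t₀ < κ₁)
    (h2 : 4 * (κ₁ - t₀) ≤ κ₁ - κm) {m : ℕ} {Φ : (Ed d → ℂ) → ℂ} (hΦ : LinB (closedBall (0 : Ed d) κ₁) m Φ)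
    {ξ : Ed d} (M : ℕ) {C₀ a₀ : ℝ}
    (hexp : ∀ a, a₀ ≤ a → ‖Φ (pe a e ξ)‖ ≤ C₀ * (1 + a) ^ M * Real.exp (a * κm))
    {G : ℝ → ℂ} (hG : ContDiff ℝ ((⊤ : ℕ∞) : WithTop ℕ∞) G) (hGc : HasCompactSupport G) (hGs : tsupport G ⊆ Ioi t₀) :
    Φ (fun Y => G ⟪e, Y⟫_ℝ * pe 0 e ξ Y) = 0 := by
  obtain ⟨s, hs⟩ : ∃ s, s = κ₁ - t₀ := ⟨_, rfl⟩
  have hs0 : 0 < s := by rw [hs]; exact sub_pos.2 h1
  obtain ⟨Γ, hΓ, hΓ0, hΓG⟩ := cuc_Gam h1 hG hGs
  rw [← hs] at hΓG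
  have hy : 4 ≤ (κ₁ - κm) / s := by
    rw [le_div_iff₀ hs0, hs]
    exact h2
  obtain ⟨u, hu⟩ : ∃ u, u = Real.exp (-((κ₁ - κm) / s)) := ⟨_, rfl⟩
  have hu0 : 0 < u := by rw [hu]; exact Real.exp_pos _
  have hu1 : u < 1 := by
    rw [hu, Real.exp_lt_one_iff]
    linarith
  have hu4 : 4 * u ^ Real.exp (-1) < 1 := by
    rw [hu]
    exact cuc_num hy
  have hc1 : Real.exp (-1) < 1 := by
    rw [Real.exp_lt_one_iff]
    norm_num
  -- the function `z`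
  obtain ⟨z, hz⟩ : ∃ z : Ed d → ℝ, z = fun Y => Real.exp ((⟪e, Y⟫_ℝ - κ₁) / s) := ⟨_, rfl⟩
  have hzs : ContDiff ℝ ((⊤ : ℕ∞) : WithTop ℕ∞) z := by
    rw [hz]
    exact (((contDiff_const.inner ℝ contDiff_id).sub contDiff_const).div_const s).exp
  obtain ⟨D, hD0, hD⟩ := bn_exists (ok_of_smo (F := ℝ) hzs (isBounded_closedBall (x := (0 : Ed d)) (r := κ₁))) m
  obtain ⟨b, hb0, hb⟩ := bn_exists (ok_of_smo (cuc_pe 0 e ξ) (isBounded_closedBall (x := (0 : Ed d)) (r := κ₁))) m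
  obtain ⟨CΦ, hCΦ, hbd⟩ := hΦ.bdd
  obtain ⟨E, hE⟩ : ∃ E, E = max 1 D := ⟨_, rfl⟩
  have hE1 : 1 ≤ E := by rw [hE]; exact le_max_left _ _
  have hED : D ≤ E := by rw [hE]; exact le_max_right _ _
  obtain ⟨L, hL⟩ : ∃ L, L = max 1 (1 / s) := ⟨_, rfl⟩
  have hL1 : 1 ≤ L := by rw [hL]; exact le_max_left _ _
  have hLs : 1 / s ≤ L := by rw [hL]; exact le_max_right _ _
  obtain ⟨n₀, hn₀⟩ := exists_nat_ge (s * a₀)
  -- the estimate for a given `ε`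
  have key : ∀ ε : ℝ, 0 < ε → ‖Φ (fun Y => G ⟪e, Y⟫_ℝ * pe 0 e ξ Y)‖ ≤
      (|C₀| * L ^ M + CΦ * (2 ^ m * ((m.factorial : ℝ) * E ^ m) * b)) * ε := by
    intro ε hε
    obtain ⟨P, hP1, hP2, hP3⟩ := bern (Real.exp_pos (-1)) hc1 hu0 hu1 hu4 hΓ hΓ0 m M n₀ hε
    set f : ℝ → ℂ := fun x : ℝ => Γ x - P.eval (x : ℂ) with hf
    have hfs : ContDiff ℝ ((⊤ : ℕ∞) : WithTop ℕ∞) f := by
      have h3 : ContDiff ℂ ((⊤ : ℕ∞) : WithTop ℕ∞) fun z : ℂ => P.eval z := by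
        have h4 := P.contDiff_aeval (𝕜 := ℂ) ((⊤ : ℕ∞) : WithTop ℕ∞)
        simpa using h4
      exact hΓ.sub ((h3.restrict_scalars ℝ).comp Complex.ofRealCLM.contDiff)
    have hfz : Smo fun Y => f (z Y) := hfs.comp hzs
    have hterm : ∀ n : ℕ, Smo fun Y => (P.coeff n * ((Real.exp (-(n * κ₁ / s)) : ℝ) : ℂ)) * pe (n / s) e ξ Y :=
      fun n => contDiff_const.mul (cuc_pe _ e ξ)
    have hdec : (fun Y => G ⟪e, Y⟫_ℝ * pe 0 e ξ Y) = fun Y =>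
        (∑ n ∈ P.support, (P.coeff n * ((Real.exp (-(n * κ₁ / s)) : ℝ) : ℂ)) * pe (n / s) e ξ Y) +
          f (z Y) * pe 0 e ξ Y := by
      ext Y
      have h3 : Γ (z Y) = G ⟪e, Y⟫_ℝ := by
        rw [hz]
        exact hΓG _
      have h4 : P.eval ((z Y : ℝ) : ℂ) * pe 0 e ξ Y =
          ∑ n ∈ P.support, (P.coeff n * ((Real.exp (-(n * κ₁ / s)) : ℝ) : ℂ)) * pe (n / s) e ξ Y := by
        rw [Polynomial.eval_eq_sum, Polynomial.sum_def, Finset.sum_mul]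
        refine Finset.sum_congr rfl fun n _ => ?_
        rw [mul_assoc, mul_assoc]
        congr 1
        rw [hz]
        unfold pe
        rw [← Complex.ofReal_pow, ← Real.exp_nat_mul, Complex.ofReal_exp, Complex.ofReal_exp, ← Complex.exp_add,
          ← Complex.exp_add]
        congr 1
        have h5 : (s : ℂ) ≠ 0 := by exact_mod_cast hs0.ne'
        push_cast
        field_simp
        ring
      rw [← h4, ← h3]
      show Γ (z Y) * pe 0 e ξ Y = P.eval ((z Y : ℝ) : ℂ) * pe 0 e ξ Y + (Γ (z Y) - P.eval ((z Y : ℝ) : ℂ)) * pe 0 e ξ Y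
      ring
    have hsm2 : Smo fun Y => f (z Y) * pe 0 e ξ Y := ContDiff.mul hfz (cuc_pe 0 e ξ)
    rw [hdec, hΦ.add _ _ (cuc_smo_sum _ hterm) hsm2, cuc_sum hΦ _ hterm]
    refine (norm_add_le _ _).trans ?_
    rw [add_mul]
    refine add_le_add ?_ ?_
    · refine (norm_sum_le _ _).trans ?_
      have h5 : ∀ n ∈ P.support, ‖Φ (fun Y => (P.coeff n * ((Real.exp (-(n * κ₁ / s)) : ℝ) : ℂ)) * pe (n / s) e ξ Y)‖ ≤
          |C₀| * L ^ M * (‖P.coeff n‖ * (1 + (n : ℝ)) ^ M * u ^ n) := by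
        intro n hn
        have hn0 : n₀ ≤ n := by
          by_contra h6
          exact (Polynomial.mem_support_iff.1 hn) (hP2 n (not_le.1 h6))
        have hna : a₀ ≤ (n : ℝ) / s := by
          rw [le_div_iff₀ hs0, mul_comm]
          exact hn₀.trans (by exact_mod_cast hn0)
        have hns : 0 ≤ (n : ℝ) / s := by positivity
        rw [hΦ.smul _ _ (cuc_pe _ e ξ), norm_mul, norm_mul, Complex.norm_real,
          Real.norm_of_nonneg (Real.exp_pos _).le]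
        have h6 : ‖Φ (pe (n / s) e ξ)‖ ≤ |C₀| * (L * (1 + n)) ^ M * Real.exp (n / s * κm) := by
          refine (hexp _ hna).trans ?_
          refine mul_le_mul_of_nonneg_right ?_ (Real.exp_pos _).le
          refine mul_le_mul (le_abs_self _) (pow_le_pow_left₀ (by positivity) ?_ _) (by positivity) (abs_nonneg _)
          have h7 : (n : ℝ) / s ≤ L * n := by
            rw [div_eq_mul_one_div, mul_comm]
            exact mul_le_mul_of_nonneg_right hLs (Nat.cast_nonneg n)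
          linarith
        have h8 : Real.exp (-(n * κ₁ / s)) * Real.exp (n / s * κm) = u ^ n := by
          rw [hu, ← Real.exp_nat_mul, ← Real.exp_add]
          congr 1
          field_simp
          ring
        calc ‖P.coeff n‖ * Real.exp (-(n * κ₁ / s)) * ‖Φ (pe (n / s) e ξ)‖
            ≤ ‖P.coeff n‖ * Real.exp (-(n * κ₁ / s)) * (|C₀| * (L * (1 + n)) ^ M * Real.exp (n / s * κm)) :=
              mul_le_mul_of_nonneg_left h6 (by positivity)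
          _ = |C₀| * L ^ M * (‖P.coeff n‖ * (1 + (n : ℝ)) ^ M * (Real.exp (-(n * κ₁ / s)) * Real.exp (n / s * κm))) := by
              rw [mul_pow]
              ring
          _ = _ := by rw [h8]
      refine (Finset.sum_le_sum h5).trans ?_
      rw [← Finset.mul_sum]
      exact mul_le_mul_of_nonneg_left hP3 (by positivity)
    · have h9 : BN (closedBall (0 : Ed d) κ₁) m (fun Y => f (z Y)) ((m.factorial : ℝ) * E ^ m * ε) := by
        intro i hi Y hY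
        have hzY : z Y ∈ Icc (0 : ℝ) 1 := by
          rw [hz]
          refine ⟨(Real.exp_pos _).le, ?_⟩
          rw [Real.exp_le_one_iff]
          refine div_nonpos_of_nonpos_of_nonneg ?_ hs0.le
          have h10 : ⟪e, Y⟫_ℝ ≤ κ₁ := by
            refine (real_inner_le_norm _ _).trans ?_
            rw [he, one_mul]
            exact mem_closedBall_zero_iff.1 hY
          linarith
        have h11 := norm_iteratedFDeriv_comp_le (𝕜 := ℝ) (g := f) (f := z) (n := i) (N := ((⊤ : ℕ∞) : WithTop ℕ∞))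
          hfs hzs (by exact_mod_cast le_top) Y (C := ε) (D := E)
          (fun j hj => by
            rw [norm_iteratedFDeriv_eq_norm_iteratedDeriv]
            exact hP1 j (hj.trans hi) _ hzY)
          (fun j hj1 hj => (hD j (hj.trans hi) Y hY).trans (hED.trans (le_self_pow₀ hE1 (by omega))))
        refine h11.trans ?_
        have h12 : (i.factorial : ℝ) ≤ m.factorial := by exact_mod_cast Nat.factorial_le hi
        have h13 : E ^ i ≤ E ^ m := pow_le_pow_right₀ hE1 hi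
        calc (i.factorial : ℝ) * ε * E ^ i = (i.factorial : ℝ) * E ^ i * ε := by ring
          _ ≤ _ := by
            refine mul_le_mul_of_nonneg_right ?_ hε.le
            exact mul_le_mul h12 h13 (by positivity) (by positivity)
      have h14 := bn_mul (ok_of_smo hfz (isBounded_closedBall (x := (0 : Ed d)) (r := κ₁)))
        (ok_of_smo (cuc_pe 0 e ξ) (isBounded_closedBall (x := (0 : Ed d)) (r := κ₁))) h9 hb
      have h15 := hbd _ _ hsm2 (by positivity) h14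
      exact h15.trans_eq (by ring)
  have h8 : Tendsto (fun ε : ℝ => (|C₀| * L ^ M + CΦ * (2 ^ m * ((m.factorial : ℝ) * E ^ m) * b)) * ε) (𝓝[>] 0)
      (𝓝 ((|C₀| * L ^ M + CΦ * (2 ^ m * ((m.factorial : ℝ) * E ^ m) * b)) * 0)) :=
    (tendsto_id.const_mul _).mono_left nhdsWithin_le_nhds
  have h9 := ge_of_tendsto h8 (by
    filter_upwards [self_mem_nhdsWithin] with ε hε
    exact key ε hε)
  rw [mul_zero] at h9
  exact norm_le_zero_iff.1 h9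

end Pool.Agent.Lib.MP_79abb3_an.W.C
end

section

/-!
Theorem W (MP_79abb3_an), block C (density of the drifts). The field `AA` of two Kelvin exponentials.
-/

set_option autoImplicit false
set_option linter.unusedSectionVars false
set_option linter.unusedVariables false

open MeasureTheory Set Filter Topology Function Metric
open scoped ENNReal InnerProductSpace BoundedContinuousFunction

namespace Pool.Agent.Lib.MP_79abb3_an.W.C

variable {d : ℕ} {F : Type} [NormedAddCommGroup F] [NormedSpace ℝ F]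

theorem ced_rf_sub (h : Ed d) (v w : Cd d) (i : Fin d) : rf h (v - w) i = rf h v i - rf h w i := by
  have h1 : br (v - w) h = br v h - br w h := by
    unfold br
    rw [← Finset.sum_sub_distrib]
    exact Finset.sum_congr rfl fun k _ => by
      show (v k - w k) * _ = _
      ring
  show (v i - w i) - (2 * (((‖h‖ ^ 2)⁻¹ : ℝ) : ℂ) * br (v - w) h) * cv h i =
    (v i - (2 * (((‖h‖ ^ 2)⁻¹ : ℝ) : ℂ) * br v h) * cv h i) -
      (w i - (2 * (((‖h‖ ^ 2)⁻¹ : ℝ) : ℂ) * br w h) * cv h i)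
  rw [h1]
  ring

theorem ced_rf_smul (h : Ed d) (c : ℂ) (v : Cd d) (i : Fin d) : rf h (c • v) i = c * rf h v i := by
  have h1 : br (c • v) h = c * br v h := by
    unfold br
    rw [Finset.mul_sum]
    exact Finset.sum_congr rfl fun k _ => by
      show (c * v k) * _ = _
      ring
  show c * v i - (2 * (((‖h‖ ^ 2)⁻¹ : ℝ) : ℂ) * br (c • v) h) * cv h i =
    c * (v i - (2 * (((‖h‖ ^ 2)⁻¹ : ℝ) : ℂ) * br v h) * cv h i)
  rw [h1]
  ring

theorem ced_br_add (ζ₁ ζ₂ : Cd d) (Y : Ed d) : br (ζ₁ + ζ₂) Y = br ζ₁ Y + br ζ₂ Y := by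
  unfold br
  rw [← Finset.sum_add_distrib]
  exact Finset.sum_congr rfl fun k _ => by
    show (ζ₁ k + ζ₂ k) * _ = _
    ring

/-- PROOF. `pd_KV`: `K₁ ∂_i K₂ - K₂ ∂_i K₁ = K₁ K₂ |h|^{-2} (rf h (ζ₂-ζ₁))_i` (the other terms cancel),
`K₁ K₂ = |h|^{4-2d} e^{(ζ₁+ζ₂)·Y}`, `|h|^{4-2d} |h|^{-2} = |h|^{2-2d}`. -/
theorem J_KV (hd : 2 ≤ d) {y x : Ed d} (h : x ≠ y) (ζ₁ ζ₂ : Cd d) (i : Fin d) :
    KV y ζ₁ x * pd i (KV y ζ₂) x - KV y ζ₂ x * pd i (KV y ζ₁) x =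
      Pb y (fun Y => Complex.exp (br (ζ₁ + ζ₂) Y) • (ζ₂ - ζ₁)) x i := by
  rw [pd_KV hd h, pd_KV hd h]
  show _ = ((((‖x - y‖ ^ (2 * d - 2))⁻¹ : ℝ)) : ℂ) *
    rf (x - y) (Complex.exp (br (ζ₁ + ζ₂) (iv y x)) • (ζ₂ - ζ₁)) i
  rw [ced_rf_smul, ced_rf_sub, ced_br_add, Complex.exp_add]
  unfold KV
  have hr : (‖x - y‖ ^ (2 * d - 2))⁻¹ = (‖x - y‖ ^ (d - 2))⁻¹ * (‖x - y‖ ^ (d - 2))⁻¹ * (‖x - y‖ ^ 2)⁻¹ := by
    have h1 : 2 * d - 2 = (d - 2) + (d - 2) + 2 := by omega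
    rw [h1, pow_add, pow_add, mul_inv, mul_inv]
  rw [hr]
  push_cast
  ring

/-- PROOF: `AA_eq_cr`, `J_KV` on a neighbourhood of `x`. -/
theorem AA_KV (hd : 2 ≤ d) {y x : Ed d} (h : x ≠ y) (ζ₁ ζ₂ : Cd d) (i j : Fin d) :
    AA (KV y ζ₁) (KV y ζ₂) i j x =
      cr (Pb y (fun Y => Complex.exp (br (ζ₁ + ζ₂) Y) • (ζ₂ - ζ₁))) i j x := by
  rw [AA_eq_cr (KV_cda h ζ₁) (KV_cda h ζ₂) i j]
  have hev : ∀ᶠ x' in 𝓝 x, x' ≠ y := (isOpen_ne (x := y)).mem_nhds h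
  have h1 : ∀ k l : Fin d, pd l (fun x => KV y ζ₁ x * pd k (KV y ζ₂) x - KV y ζ₂ x * pd k (KV y ζ₁) x) x =
      pd l (fun x => Pb y (fun Y => Complex.exp (br (ζ₁ + ζ₂) Y) • (ζ₂ - ζ₁)) x k) x := by
    intro k l
    have h2 : (fun x => KV y ζ₁ x * pd k (KV y ζ₂) x - KV y ζ₂ x * pd k (KV y ζ₁) x) =ᶠ[𝓝 x]
        (fun x => Pb y (fun Y => Complex.exp (br (ζ₁ + ζ₂) Y) • (ζ₂ - ζ₁)) x k) := by
      filter_upwards [hev] with x' hx'
      exact J_KV hd hx' ζ₁ ζ₂ k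
    exact congrArg (fun L : Ed d →L[ℝ] ℂ => L (eb l)) h2.fderiv_eq
  show pd j (fun x => KV y ζ₁ x * pd i (KV y ζ₂) x - KV y ζ₂ x * pd i (KV y ζ₁) x) x -
      pd i (fun x => KV y ζ₁ x * pd j (KV y ζ₂) x - KV y ζ₂ x * pd j (KV y ζ₁) x) x = _
  rw [h1, h1]
  rfl

end Pool.Agent.Lib.MP_79abb3_an.W.C
end

section

/-!
Theorem W (MP_79abb3_an), block C (density of the drifts). The uniqueness theorem.
-/

set_option autoImplicit false
set_option linter.unusedSectionVars false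
set_option linter.unusedVariables false

open MeasureTheory Set Filter Topology Function Metric
open scoped ENNReal InnerProductSpace BoundedContinuousFunction

namespace Pool.Agent.Lib.MP_79abb3_an.W.C

variable {d : ℕ} {F : Type} [NormedAddCommGroup F] [NormedSpace ℝ F]

/-- a smooth cut off function on the line -/
private theorem cud_cut {t₀ a b : ℝ} (h1 : t₀ < a) (h2 : a ≤ b) : ∃ θ : ℝ → ℝ,
    ContDiff ℝ ((⊤ : ℕ∞) : WithTop ℕ∞) θ ∧ HasCompactSupport θ ∧ tsupport θ ⊆ Ioi t₀ ∧ ∀ t ∈ Icc a b, θ t = 1 := by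
  set θ : ℝ → ℝ := fun t => Real.smoothTransition ((t - (t₀ + a) / 2) / (a - (t₀ + a) / 2)) *
    Real.smoothTransition (b + 1 - t) with hθ
  have ha : 0 < a - (t₀ + a) / 2 := by linarith
  have hsup : support θ ⊆ Icc ((t₀ + a) / 2) (b + 1) := by
    intro t ht
    by_contra hn
    apply ht
    rw [mem_Icc, not_and_or, not_le, not_le] at hn
    rcases hn with hn | hn
    · show _ * _ = _
      rw [Real.smoothTransition.zero_of_nonpos (div_nonpos_of_nonpos_of_nonneg (by linarith) ha.le), zero_mul]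
    · show _ * _ = _
      rw [Real.smoothTransition.zero_of_nonpos (x := b + 1 - t) (by linarith), mul_zero]
  have hts : tsupport θ ⊆ Icc ((t₀ + a) / 2) (b + 1) := closure_minimal hsup isClosed_Icc
  refine ⟨θ, ?_, HasCompactSupport.of_support_subset_isCompact isCompact_Icc hsup,
    fun t ht => ?_, fun t ht => ?_⟩
  · refine ContDiff.mul (Real.smoothTransition.contDiff.comp ?_) (Real.smoothTransition.contDiff.comp ?_)
    · fun_prop
    · fun_prop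
  · have h3 := (hts ht).1
    rw [mem_Ioi]
    linarith
  · show _ * _ = _
    rw [Real.smoothTransition.one_of_one_le, Real.smoothTransition.one_of_one_le, mul_one]
    · linarith [ht.2]
    · rw [one_le_div ha]
      linarith [ht.1]

private theorem cud_range {e : Ed d} {t₀ : ℝ} {S : Set (Ed d)} (hS : IsCompact S) (hs : ∀ Y ∈ S, t₀ < ⟪e, Y⟫_ℝ) :
    ∃ a b : ℝ, t₀ < a ∧ a ≤ b ∧ ∀ Y ∈ S, ⟪e, Y⟫_ℝ ∈ Icc a b := by
  rcases S.eq_empty_or_nonempty with h | h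
  · exact ⟨t₀ + 1, t₀ + 1, by linarith, le_rfl, fun Y hY => absurd hY (by rw [h]; exact notMem_empty Y)⟩
  · have hc : ContinuousOn (fun Y : Ed d => ⟪e, Y⟫_ℝ) S := (continuous_const.inner continuous_id).continuousOn
    obtain ⟨Y₁, hY₁, hmin⟩ := hS.exists_isMinOn h hc
    obtain ⟨Y₂, hY₂, hmax⟩ := hS.exists_isMaxOn h hc
    exact ⟨⟪e, Y₁⟫_ℝ, ⟪e, Y₂⟫_ℝ, hs _ hY₁, hmin hY₂, fun Y hY => ⟨hmin hY, hmax hY⟩⟩

/-- multiplication by a smooth function -/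
private theorem cud_lin {κ : ℝ} {m : ℕ} {Φ : (Ed d → ℂ) → ℂ} (hΦ : LinB (closedBall (0 : Ed d) κ) m Φ)
    {g : Ed d → ℂ} (hg : Smo g) : LinB (closedBall (0 : Ed d) κ) m fun f => Φ fun Y => g Y * f Y := by
  obtain ⟨C, hC, hb⟩ := hΦ.bdd
  obtain ⟨b, hb0, hbg⟩ := bn_exists (ok_of_smo hg (isBounded_closedBall (x := (0 : Ed d)) (r := κ))) m
  refine ⟨fun f f' hf hf' => ?_, fun c f hf => ?_, C * (2 ^ m * b), by positivity, fun f c hf hc hbf => ?_⟩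
  · have h1 : (fun Y => g Y * (f Y + f' Y)) = fun Y => g Y * f Y + g Y * f' Y := by
      ext Y
      ring
    show Φ (fun Y => g Y * (f Y + f' Y)) = _
    rw [h1]
    exact hΦ.add _ _ (ContDiff.mul hg hf) (ContDiff.mul hg hf')
  · have h1 : (fun Y => g Y * (c * f Y)) = fun Y => c * (g Y * f Y) := by
      ext Y
      ring
    show Φ (fun Y => g Y * (c * f Y)) = _
    rw [h1]
    exact hΦ.smul _ _ (ContDiff.mul hg hf)
  · have h1 := bn_mul (ok_of_smo hg (isBounded_closedBall (x := (0 : Ed d)) (r := κ)))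
      (ok_of_smo hf (isBounded_closedBall (x := (0 : Ed d)) (r := κ))) hbg hbf
    exact (hb _ _ (ContDiff.mul hg hf) (by positivity) h1).trans_eq (by ring)

/-- PROOF. Let `S = tsupport H`, compact, `⟨e,·⟩ > t₀` on it: choose `θ : ℝ → ℝ` smooth with compact support in `Ioi t₀`, `θ = 1` on
`⟨e, S⟩`. `Ψ(f) = Φ(θ⟨e,·⟩ f)` is `LinB` (product rule). For a plane wave, `ξ = b e + ξ'`, `ξ' ⟂ e`:
`θ⟨e,Y⟩ e^{2πi⟨ξ,Y⟩} = (θ(t) e^{2πi b t})|_{t=⟨e,Y⟩} pe 0 e (2πξ') Y`, so `Ψ` vanishes on it by `slab_kill`. `four_kill`: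
`Ψ H = 0`, and `θ⟨e,·⟩ H = H`. -/
theorem U_main {e : Ed d} (he : ‖e‖ = 1) {t₀ κ₁ κm : ℝ} (hκ : 0 < κ₁) (h1 : t₀ < κ₁)
    (h2 : 4 * (κ₁ - t₀) ≤ κ₁ - κm) {m M : ℕ} {Φ : (Ed d → ℂ) → ℂ} (hΦ : LinB (closedBall (0 : Ed d) κ₁) m Φ)
    (hexp : ∀ ξ : Ed d, ⟪e, ξ⟫_ℝ = 0 → ∃ C₀ a₀ : ℝ, ∀ a, a₀ ≤ a →
      ‖Φ (pe a e ξ)‖ ≤ C₀ * (1 + a) ^ M * Real.exp (a * κm))
    {H : Ed d → ℂ} (hH : Smo H) (hc : HasCompactSupport H) (hs : ∀ Y ∈ tsupport H, t₀ < ⟪e, Y⟫_ℝ) : Φ H = 0 := by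
  obtain ⟨a, b, ha, hab, hT⟩ := cud_range hc hs
  obtain ⟨θ, hθ, hθc, hθs, hθ1⟩ := cud_cut ha hab
  have hin : ContDiff ℝ ((⊤ : ℕ∞) : WithTop ℕ∞) (fun Y : Ed d => ⟪e, Y⟫_ℝ) := contDiff_const.inner ℝ contDiff_id
  have hg : Smo (fun Y : Ed d => ((θ ⟪e, Y⟫_ℝ : ℝ) : ℂ)) := Complex.ofRealCLM.contDiff.comp (hθ.comp hin)
  have h3 := four_kill (H := H) hκ (cud_lin hΦ hg) (fun ξ => ?_) hH hc
  · have h4 : (fun Y => ((θ ⟪e, Y⟫_ℝ : ℝ) : ℂ) * H Y) = H := by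
      ext Y
      by_cases hY : Y ∈ tsupport H
      · rw [hθ1 _ (hT Y hY), Complex.ofReal_one, one_mul]
      · rw [image_eq_zero_of_notMem_tsupport hY, mul_zero]
    rwa [h4] at h3
  · obtain ⟨β, hβ⟩ : ∃ β, β = ⟪e, ξ⟫_ℝ := ⟨_, rfl⟩
    obtain ⟨ξ', hξ'⟩ : ∃ ξ', ξ' = ξ - β • e := ⟨_, rfl⟩
    have hort : ⟪e, (2 * Real.pi) • ξ'⟫_ℝ = 0 := by
      rw [inner_smul_right, hξ', inner_sub_right, inner_smul_right, real_inner_self_eq_norm_sq, he, ← hβ]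
      ring
    obtain ⟨C₀, a₀, hexp'⟩ := hexp _ hort
    set G : ℝ → ℂ := fun t => (θ t : ℂ) * Complex.exp (2 * Real.pi * Complex.I * (β * t : ℝ)) with hG
    have hGs : ContDiff ℝ ((⊤ : ℕ∞) : WithTop ℕ∞) G := by
      refine ContDiff.mul (Complex.ofRealCLM.contDiff.comp hθ) ((contDiff_const.mul ?_).cexp)
      exact Complex.ofRealCLM.contDiff.comp (contDiff_const.mul contDiff_id)
    have hsup : support G ⊆ support θ := by
      intro t ht h0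
      apply ht
      show (θ t : ℂ) * _ = 0
      rw [h0, Complex.ofReal_zero, zero_mul]
    have hGc : HasCompactSupport G := hθc.mono hsup
    have hGt : tsupport G ⊆ Ioi t₀ := (closure_mono hsup).trans hθs
    have h5 := slab_kill he hκ h1 h2 hΦ M hexp' hGs hGc hGt
    have h6 : (fun Y => ((θ ⟪e, Y⟫_ℝ : ℝ) : ℂ) *
        Complex.exp (2 * Real.pi * Complex.I * ((⟪ξ, Y⟫_ℝ : ℝ) : ℂ))) =
        fun Y => G ⟪e, Y⟫_ℝ * pe 0 e ((2 * Real.pi) • ξ') Y := by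
      ext Y
      have h7 : ⟪ξ, Y⟫_ℝ = β * ⟪e, Y⟫_ℝ + ⟪ξ', Y⟫_ℝ := by
        rw [hξ', inner_sub_left, real_inner_smul_left]
        ring
      rw [hG]
      show _ = ((θ ⟪e, Y⟫_ℝ : ℝ) : ℂ) * Complex.exp (2 * Real.pi * Complex.I * ((β * ⟪e, Y⟫_ℝ : ℝ) : ℂ)) *
        pe 0 e ((2 * Real.pi) • ξ') Y
      unfold pe
      rw [mul_assoc ((θ ⟪e, Y⟫_ℝ : ℝ) : ℂ), ← Complex.exp_add, h7, real_inner_smul_left]
      congr 2
      push_cast
      ring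
    show Φ (fun Y => ((θ ⟪e, Y⟫_ℝ : ℝ) : ℂ) *
        Complex.exp (2 * Real.pi * Complex.I * ((⟪ξ, Y⟫_ℝ : ℝ) : ℂ))) = 0
    rw [h6]
    exact h5

end Pool.Agent.Lib.MP_79abb3_an.W.C
end

section

/-!
Theorem W (MP_79abb3_an), block C (density of the drifts). The functional `Qf` on plane exponentials.
-/

set_option autoImplicit false
set_option linter.unusedSectionVars false
set_option linter.unusedVariables false

open MeasureTheory Set Filter Topology Function Metric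
open scoped ENNReal InnerProductSpace BoundedContinuousFunction

namespace Pool.Agent.Lib.MP_79abb3_an.W.C

variable {d : ℕ} {F : Type} [NormedAddCommGroup F] [NormedSpace ℝ F]

private theorem clb_pd (η : Cd d) (i : Fin d) (Y : Ed d) :
    pd i (fun Y : Ed d => Complex.exp (br η Y)) Y = Complex.exp (br η Y) * η i := by
  have h1 : ∀ k : Fin d, HasFDerivAt (fun Y : Ed d => η k * ((Y k : ℝ) : ℂ))
      (η k • (Complex.ofRealCLM.comp (EuclideanSpace.proj k : Ed d →L[ℝ] ℝ))) Y := fun k =>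
    (Complex.ofRealCLM.comp (EuclideanSpace.proj k : Ed d →L[ℝ] ℝ)).hasFDerivAt.const_mul (η k)
  have h2 : HasFDerivAt (fun Y : Ed d => br η Y)
      (∑ k, η k • (Complex.ofRealCLM.comp (EuclideanSpace.proj k : Ed d →L[ℝ] ℝ))) Y := by
    unfold br
    exact HasFDerivAt.fun_sum fun k _ => h1 k
  unfold pd
  rw [h2.cexp.fderiv]
  simp only [eb, _root_.smul_apply, sum_apply, ContinuousLinearMap.comp_apply, smul_eq_mul]
  congr 1
  rw [Finset.sum_eq_single i]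
  · simp
  · intro k _ hk
    simp [hk]
  · intro h
    exact absurd (Finset.mem_univ i) h

private theorem clb_sm (η ν : Cd d) : Smo (fun Y : Ed d => Complex.exp (br η Y) • ν) :=
  ContDiff.smul (smo_exp η) contDiff_const

/-- The linear functional. -/
private noncomputable def clb_S {R : Set (Ed d)} (hR : Bornology.IsBounded R) {k : ℕ} (T : JS R k →L[ℂ] ℂ)
    {χ : Ed d → ℝ} (hχ : Smo χ) {y : Ed d} {r₃ : ℝ} (hr : 0 < r₃) (h3 : ∀ x, ‖x - y‖ < r₃ → χ x = 1)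
    (η : Cd d) : Cd d →ₗ[ℂ] ℂ where
  toFun ν := T (jt R k (LL χ (Pb y (fun Y => Complex.exp (br η Y) • ν))))
  map_add' ν ν' := by
    have h1 := jt_LL_add hR k hχ hr h3 (clb_sm η ν) (clb_sm η ν')
    have h2 : (fun Y : Ed d => Complex.exp (br η Y) • (ν + ν')) =
        fun Y => Complex.exp (br η Y) • ν + Complex.exp (br η Y) • ν' := funext fun Y => smul_add _ _ _
    rw [h2, h1, map_add]
  map_smul' c ν := by
    have h1 := jt_LL_smul hR k hχ hr h3 c (clb_sm η ν)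
    have h2 : (fun Y : Ed d => Complex.exp (br η Y) • (c • ν)) =
        fun Y => c • (Complex.exp (br η Y) • ν) := funext fun Y => smul_comm _ _ _
    rw [h2, h1, map_smul]
    rfl

private theorem clb_bc (η : Cd d) (i j : Fin d) :
    bc (η j • EuclideanSpace.single i (1 : ℂ) - η i • EuclideanSpace.single j (1 : ℂ)) η = 0 := by
  unfold bc
  have h1 : ∀ k, (η j • EuclideanSpace.single i (1 : ℂ) - η i • EuclideanSpace.single j (1 : ℂ) : Cd d) k * η k =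
      (if k = i then η j * η k else 0) - (if k = j then η i * η k else 0) := by
    intro k
    rw [PiLp.sub_apply, PiLp.smul_apply, PiLp.smul_apply, PiLp.single_apply, PiLp.single_apply,
      smul_eq_mul, smul_eq_mul]
    split_ifs <;> ring
  simp only [h1]
  rw [Finset.sum_sub_distrib, Finset.sum_ite_eq', Finset.sum_ite_eq', if_pos (Finset.mem_univ _),
    if_pos (Finset.mem_univ _)]
  ring

private theorem clb_nu (η : Cd d) (i j : Fin d) :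
    ‖(η j • EuclideanSpace.single i (1 : ℂ) - η i • EuclideanSpace.single j (1 : ℂ) : Cd d)‖ ≤ 2 * ‖η‖ := by
  refine (norm_sub_le _ _).trans ?_
  rw [norm_smul, norm_smul, PiLp.norm_single, PiLp.norm_single, norm_one, mul_one,
    mul_one]
  have h1 := PiLp.norm_apply_le η i
  have h2 := PiLp.norm_apply_le η j
  linarith

private theorem clb_cv (v : Ed d) : ‖cv v‖ = ‖v‖ := by
  rw [EuclideanSpace.norm_eq, EuclideanSpace.norm_eq]
  congr 1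
  refine Finset.sum_congr rfl fun k _ => ?_
  unfold cv
  rw [Complex.norm_real]

/-- PROOF. `η = a e + i ξ`. For `ν : Cd d` let `S ν = T (jt R k (LL χ (Pb y (fun Y => exp (br η Y) • ν))))`, a linear map (the fields are OK on `R`: components
`a(x) exp (br η (iv y x))` off `y`, `χ = 1` near `y`). `pe a e ξ = exp (br η ·)` (`pe_eq`) and `DV (EM i j (pe a e ξ)) Y = exp (br η Y) • ν`, `ν = η_j e_i - η_i e_j`,
`bc ν η = 0`, `‖ν‖ ≤ 2 (a + ‖ξ‖) ≤ 3 a`. For a unit vector `f ⟂ e`, `null_pair` (`a ≥ max 1 (2‖ξ‖)`): `a f - i⟨f,ξ⟩ e = c (ζ₂-ζ₁)`, `ζ₁+ζ₂ = η`, and `AA_KV`: near every point `x ≠ y`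
`cr (Pb y (exp • (ζ₂-ζ₁))) = AA (KV y ζ₁) (KV y ζ₂)`, near `y` both cut off fields are `0`; so `S(…) = c T (jt (DV ((1-χ) AA …)))`,
`‖S(…)‖ ≤ B = 2 C₀ (1+2a)^{2M} exp ((a+‖ξ‖)/2 · (r₃⁻¹+rw⁻¹))`. `perp_bound`: `‖S ν‖ ≤ 2 B ‖ν‖/a ≤ 6 B`. -/
theorem Qf_pe (hd : 2 ≤ d) {R : Set (Ed d)} (hR : Bornology.IsBounded R) {k : ℕ} (T : JS R k →L[ℂ] ℂ)
    {χ : Ed d → ℝ} (hχ : Smo χ) {y : Ed d} {r₃ κ : ℝ} (hr : 0 < r₃) (h3 : ∀ x, ‖x - y‖ < r₃ → χ x = 1)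
    {M : ℕ} {C₀ : ℝ} (hC₀ : 0 ≤ C₀)
    (hexp : ∀ (ζ₁ ζ₂ : Cd d) (A : ℝ), bc ζ₁ ζ₁ = 0 → bc ζ₂ ζ₂ = 0 → ‖rv ζ₁‖ ≤ A → ‖rv ζ₂‖ ≤ A →
      ‖T (jt _ k (DV fun i j x => ((1 - χ x : ℝ) : ℂ) * AA (KV y ζ₁) (KV y ζ₂) i j x))‖ ≤
        C₀ * (1 + ‖ζ₁‖) ^ M * (1 + ‖ζ₂‖) ^ M * Real.exp (A * κ))
    {e ξ : Ed d} (he : ‖e‖ = 1) (hξ : ⟪e, ξ⟫_ℝ = 0) (i j : Fin d) :
    ∃ C₁ a₀ : ℝ, ∀ a, a₀ ≤ a → ‖Qf T χ y i j (pe a e ξ)‖ ≤ C₁ * (1 + a) ^ (2 * M) * Real.exp (a * (κ / 2)) := by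
  refine ⟨12 * C₀ * 2 ^ (2 * M) * Real.exp (‖ξ‖ * κ / 2), max 1 (2 * ‖ξ‖), fun a ha => ?_⟩
  have ha1 : 1 ≤ a := (le_max_left _ _).trans ha
  have ha2 : 2 * ‖ξ‖ ≤ a := (le_max_right _ _).trans ha
  have ha0 : 0 < a := by linarith
  set η : Cd d := (a : ℂ) • cv e + Complex.I • cv ξ with hη
  set ν : Cd d := η j • EuclideanSpace.single i (1 : ℂ) - η i • EuclideanSpace.single j (1 : ℂ) with hν
  set B : ℝ := 2 * (C₀ * (1 + 2 * a) ^ M * (1 + 2 * a) ^ M * Real.exp ((a + ‖ξ‖) / 2 * κ)) with hB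
  have hB0 : 0 ≤ B := by positivity
  have hQ : Qf T χ y i j (pe a e ξ) = clb_S hR T hχ hr h3 η ν := by
    have h1 : DV (EM i j (pe a e ξ)) = fun Y => Complex.exp (br η Y) • ν := by
      funext Y
      rw [pe_eq, DV_EM i j (smo_exp _), clb_pd, clb_pd, hν, smul_sub, smul_smul, smul_smul]
    show T (jt R k (LL χ (Pb y (DV (EM i j (pe a e ξ)))))) =
      T (jt R k (LL χ (Pb y (fun Y => Complex.exp (br η Y) • ν))))
    rw [h1]
  have hS : ∀ f : Ed d, ‖f‖ = 1 → ⟪e, f⟫_ℝ = 0 →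
      ‖clb_S hR T hχ hr h3 η ((a : ℂ) • cv f - (Complex.I * ((⟪f, ξ⟫_ℝ : ℝ) : ℂ)) • cv e)‖ ≤ B := by
    intro f hf hef
    obtain ⟨ζ₁, ζ₂, c, hz1, hz2, hsum, hdiff, hc2, hr1, hr2, hn1, hn2⟩ := null_pair he hf hef hξ ha0 ha2
    have h1 : clb_S hR T hχ hr h3 η (ζ₂ - ζ₁) =
        T (jt _ k (DV fun i j x => ((1 - χ x : ℝ) : ℂ) * AA (KV y ζ₁) (KV y ζ₂) i j x)) := by
      show T (jt R k (LL χ (Pb y (fun Y => Complex.exp (br η Y) • (ζ₂ - ζ₁))))) = _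
      congr 1
      apply jt_DV_congr
      intro x _ i j
      rw [hη, ← hsum]
      by_cases hx : x = y
      · have h4 : ball y r₃ ∈ 𝓝 x := by
          rw [hx]
          exact ball_mem_nhds y hr
        filter_upwards [h4] with x' hx'
        rw [mem_ball, dist_eq_norm] at hx'
        rw [h3 x' hx', sub_self, Complex.ofReal_zero, zero_mul, zero_mul]
      · filter_upwards [isOpen_ne.mem_nhds hx] with x' hx'
        rw [AA_KV hd hx' ζ₁ ζ₂ i j]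
    rw [← hdiff, map_smul, h1, norm_smul]
    have h5 := hexp ζ₁ ζ₂ ((a + ‖ξ‖) / 2) hz1 hz2 hr1 hr2
    have h6 : (1 + ‖ζ₁‖) ^ M ≤ (1 + 2 * a) ^ M := pow_le_pow_left₀ (by positivity) (by linarith) M
    have h7 : (1 + ‖ζ₂‖) ^ M ≤ (1 + 2 * a) ^ M := pow_le_pow_left₀ (by positivity) (by linarith) M
    have h8 : C₀ * (1 + ‖ζ₁‖) ^ M * (1 + ‖ζ₂‖) ^ M * Real.exp ((a + ‖ξ‖) / 2 * κ) ≤
        C₀ * (1 + 2 * a) ^ M * (1 + 2 * a) ^ M * Real.exp ((a + ‖ξ‖) / 2 * κ) := by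
      gcongr
    rw [hB]
    exact mul_le_mul hc2 (h5.trans h8) (norm_nonneg _) (by norm_num)
  have hfin := perp_bound he hξ ha0 hB0 (clb_S hR T hχ hr h3 η) hS ν (clb_bc η i j)
  rw [hQ]
  have hηn : ‖η‖ ≤ 3 / 2 * a := by
    have h1 := norm_add_le ((a : ℂ) • cv e) (Complex.I • cv ξ)
    rw [norm_smul, norm_smul, clb_cv, clb_cv, he, Complex.norm_I, Complex.norm_real, Real.norm_eq_abs,
      abs_of_pos ha0] at h1
    rw [hη]
    linarith
  have hνn : ‖ν‖ ≤ 3 * a := (clb_nu η i j).trans (by linarith)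
  have h9 : 2 * B * ‖ν‖ / a ≤ 6 * B := by
    rw [div_le_iff₀ ha0]
    nlinarith
  have h10 : (1 + 2 * a) ^ M * (1 + 2 * a) ^ M ≤ 2 ^ (2 * M) * (1 + a) ^ (2 * M) := by
    rw [← pow_add, ← two_mul, ← mul_pow]
    exact pow_le_pow_left₀ (by positivity) (by linarith) _
  have h11 : Real.exp ((a + ‖ξ‖) / 2 * κ) = Real.exp (‖ξ‖ * κ / 2) * Real.exp (a * (κ / 2)) := by
    rw [← Real.exp_add]
    congr 1
    ring
  have h12 : 6 * B ≤ 12 * C₀ * (2 ^ (2 * M) * (1 + a) ^ (2 * M)) *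
      (Real.exp (‖ξ‖ * κ / 2) * Real.exp (a * (κ / 2))) := by
    rw [hB, h11]
    have h13 : 6 * (2 * (C₀ * (1 + 2 * a) ^ M * (1 + 2 * a) ^ M *
        (Real.exp (‖ξ‖ * κ / 2) * Real.exp (a * (κ / 2))))) = 12 * C₀ * ((1 + 2 * a) ^ M * (1 + 2 * a) ^ M) *
        (Real.exp (‖ξ‖ * κ / 2) * Real.exp (a * (κ / 2))) := by ring
    rw [h13]
    gcongr
  calc _ ≤ _ := hfin
    _ ≤ _ := h9
    _ ≤ _ := h12
    _ = _ := by ring

end Pool.Agent.Lib.MP_79abb3_an.W.C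
end
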