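import Pool.Agent.Lib.MP_79abb3_an.W.CEa
import Pool.Agent.Lib.MP_79abb3_an.W.CEb
import Pool.Agent.Lib.MP_79abb3_an.W.CFd
import Pool.Agent.Lib.MP_79abb3_an.W.CFe

section

/-!
Theorem W (MP_79abb3_an), block C (density of the drifts). Divergence of a transformed field.
-/

set_option autoImplicit false
set_option linter.unusedSectionVars false
set_option linter.unusedVariables false

open MeasureTheory Set Filter Topology Function Metric
open scoped ENNReal InnerProductSpace BoundedContinuousFunction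

namespace Pool.Agent.Lib.MP_79abb3_an.W.C

variable {d : ℕ} {F : Type} [NormedAddCommGroup F] [NormedSpace ℝ F]

theorem cee_invpow {Y : Ed d} (hY : Y ≠ 0) (n : ℕ) :
    HasFDerivAt (fun Y : Ed d => (((‖Y‖ ^ (2 * n))⁻¹ : ℝ) : ℂ))
      (Complex.ofRealCLM.comp ((-(2 * n * (‖Y‖ ^ (2 * n + 2))⁻¹)) • innerSL ℝ Y)) Y := by
  have hr : ‖Y‖ ^ 2 ≠ 0 := by positivity
  have h1 : HasFDerivAt (fun Y : Ed d => ‖Y‖ ^ 2) (2 • innerSL ℝ Y) Y :=
    (hasStrictFDerivAt_norm_sq Y).hasFDerivAt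
  have h2 : HasDerivAt (fun r : ℝ => (r ^ n)⁻¹) (-(n * (‖Y‖ ^ 2) ^ (n - 1)) / ((‖Y‖ ^ 2) ^ n) ^ 2) (‖Y‖ ^ 2) :=
    (hasDerivAt_pow n (‖Y‖ ^ 2)).inv (pow_ne_zero n hr)
  have h3 := h2.comp_hasFDerivAt Y h1
  have h4 : (fun Y : Ed d => (‖Y‖ ^ (2 * n))⁻¹) = (fun r : ℝ => (r ^ n)⁻¹) ∘ fun Y : Ed d => ‖Y‖ ^ 2 := by
    funext Y
    simp only [Function.comp]
    rw [pow_mul]
  have h6 : (-(n * (‖Y‖ ^ 2) ^ (n - 1)) / ((‖Y‖ ^ 2) ^ n) ^ 2) * 2 = -(2 * n * (‖Y‖ ^ (2 * n + 2))⁻¹) := by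
    rcases n with _ | n
    · simp
    · have h6 : (‖Y‖ ^ 2) ^ (n + 1 - 1) = ‖Y‖ ^ (2 * n) := by
        rw [pow_mul]; simp
      have h7 : (‖Y‖ ^ 2) ^ (n + 1) = ‖Y‖ ^ (2 * n) * ‖Y‖ ^ 2 := by
        rw [pow_succ, pow_mul]
      have h8 : ‖Y‖ ^ (2 * (n + 1) + 2) = ‖Y‖ ^ (2 * n) * ‖Y‖ ^ 2 * ‖Y‖ ^ 2 := by ring
      have h9 : ‖Y‖ ^ (2 * n) ≠ 0 := by positivity
      rw [h6, h7, h8]
      push_cast
      field_simp
  have h7 : (-(n * (‖Y‖ ^ 2) ^ (n - 1)) / ((‖Y‖ ^ 2) ^ n) ^ 2) • (2 • innerSL ℝ Y) =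
      (-(2 * n * (‖Y‖ ^ (2 * n + 2))⁻¹)) • innerSL ℝ Y := by
    rw [← h6]
    ext v
    simp only [smul_apply, smul_eq_mul, nsmul_eq_mul, Nat.cast_ofNat]
    ring
  have h5 : HasFDerivAt (fun Y : Ed d => (‖Y‖ ^ (2 * n))⁻¹) ((-(2 * n * (‖Y‖ ^ (2 * n + 2))⁻¹)) • innerSL ℝ Y) Y := by
    rw [h4, ← h7]
    exact h3
  exact (Complex.ofRealCLM.hasFDerivAt (x := (‖Y‖ ^ (2 * n))⁻¹)).comp Y h5

theorem cee_coord (Y : Ed d) (j : Fin d) :
    HasFDerivAt (fun Y : Ed d => ((Y j : ℝ) : ℂ))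
      (Complex.ofRealCLM.comp (EuclideanSpace.proj j : Ed d →L[ℝ] ℝ)) Y :=
  (Complex.ofRealCLM.hasFDerivAt (x := Y j)).comp Y (EuclideanSpace.proj j : Ed d →L[ℝ] ℝ).hasFDerivAt

theorem cee_eb (j k : Fin d) : (eb j : Ed d) k = if k = j then 1 else 0 := by
  simp [eb, Pi.single_apply]

theorem cee_inner_eb (Y : Ed d) (j : Fin d) : ⟪Y, eb j⟫_ℝ = Y j := by
  rw [PiLp.inner_apply, Finset.sum_eq_single j]
  · simp [cee_eb]
  · intro k _ hk
    simp [cee_eb, hk]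
  · simp

theorem cee_sum_eb (Y : Ed d) : Y = ∑ j, Y j • (eb j : Ed d) := by
  ext k
  simp [eb, Pi.single_apply]

theorem cee_sum_sq (Y : Ed d) : ∑ j, ((Y j : ℝ) : ℂ) ^ 2 = ((‖Y‖ ^ 2 : ℝ) : ℂ) := by
  rw [EuclideanSpace.norm_sq_eq]
  push_cast
  refine Finset.sum_congr rfl fun j _ => ?_
  rw [← Complex.ofReal_pow, ← Complex.ofReal_pow]
  congr 1
  rw [Real.norm_eq_abs, sq_abs]

/-- The inverse Piola transform of a vector field. With `ρ = |Y|`, `R = rf Y` and `w = u ∘ vi y`: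
`div (ρ^{2-2d} R w) (Y) = ρ^{-2d} (div u)(vi y Y)`.
PROOF. `div (ρ^{2-2d} w) = -(2d-2) ρ^{-2d} Y·w + ρ^{2-2d} ∑_j ∂_j w_j`, `D(vi y) = ρ^{-2} R` (`fderiv_vi`), so
`∑_j ∂_j w_j = ρ^{-2} (div u - 2 ρ^{-2} Y·Du[Y])`. And `R w = w - 2 ρ^{-2} (Y·w) Y`:
`div (ρ^{-2d} (Y·w) Y) = ρ^{-2d} (Y·w)(d - 2d) + ρ^{-2d} Y·∇(Y·w)`, `Y·∇(Y·w) = Y·w + Y·(Dw[Y])`,
`Dw[Y] = Du[D(vi y) Y] = -ρ^{-2} Du[Y]`. Total:
`-(2d-2)ρ^{-2d} Y·w + ρ^{-2d}(div u - 2ρ^{-2} Y·Du[Y]) - 2 (ρ^{-2d}(1-d) Y·w - ρ^{-2d-2} Y·Du[Y]) = ρ^{-2d} div u`. -/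
theorem div_inv (hd : 1 ≤ d) (y : Ed d) (u : Ed d → Cd d) {Y : Ed d} (hY : Y ≠ 0)
    (hu : DifferentiableAt ℝ u (vi y Y)) :
    ∑ j, pd j (fun Y => ((((‖Y‖ ^ (2 * d - 2))⁻¹ : ℝ)) : ℂ) * rf Y (u (vi y Y)) j) Y =
      ((((‖Y‖ ^ (2 * d))⁻¹ : ℝ)) : ℂ) * ∑ j, pd j (fun x => u x j) (vi y Y) := by
  set M : Ed d →L[ℝ] Cd d := fderiv ℝ u (vi y Y) with hM
  set w : Ed d → Cd d := fun Y => u (vi y Y) with hw
  have hvi : DifferentiableAt ℝ (vi y) Y := (vi_cda hY).differentiableAt (by norm_num)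
  set L : Ed d →L[ℝ] Cd d := M.comp (fderiv ℝ (vi y) Y) with hL
  have hwd : HasFDerivAt w L Y := hu.hasFDerivAt.comp Y hvi.hasFDerivAt
  have hwk : ∀ k, HasFDerivAt (fun Y => w Y k) (((EuclideanSpace.proj k : Cd d →L[ℂ] ℂ).restrictScalars ℝ).comp L) Y :=
    fun k => ((EuclideanSpace.proj k : Cd d →L[ℂ] ℂ).restrictScalars ℝ).hasFDerivAt.comp Y hwd
  set r : ℂ := ((‖Y‖ ^ 2 : ℝ) : ℂ) with hr
  have hr0 : r ≠ 0 := by
    rw [hr]
    exact_mod_cast (by positivity : ‖Y‖ ^ 2 ≠ 0)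
  set a : ℂ := (((‖Y‖ ^ (2 * (d - 1)))⁻¹ : ℝ) : ℂ) with ha
  set b : ℂ := (((‖Y‖ ^ (2 * d))⁻¹ : ℝ) : ℂ) with hb
  set c : ℂ := (((‖Y‖ ^ (2 * d + 2))⁻¹ : ℝ) : ℂ) with hc
  set s : ℂ := ∑ k, w Y k * ((Y k : ℝ) : ℂ) with hs
  -- the derivative of `s`
  have hS : HasFDerivAt (fun Y : Ed d => ∑ k, w Y k * ((Y k : ℝ) : ℂ))
      (∑ k, (w Y k • (Complex.ofRealCLM.comp (EuclideanSpace.proj k : Ed d →L[ℝ] ℝ)) +
        ((Y k : ℝ) : ℂ) • (((EuclideanSpace.proj k : Cd d →L[ℂ] ℂ).restrictScalars ℝ).comp L))) Y :=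
    HasFDerivAt.fun_sum fun k _ => (hwk k).mul (cee_coord Y k)
  have hd1 : 2 * (d - 1) + 2 = 2 * d := by omega
  have hfun : ∀ j, (fun Y : Ed d => ((((‖Y‖ ^ (2 * d - 2))⁻¹ : ℝ)) : ℂ) * rf Y (u (vi y Y)) j) =
      fun Y => (((‖Y‖ ^ (2 * (d - 1)))⁻¹ : ℝ) : ℂ) * w Y j -
        2 * (((((‖Y‖ ^ (2 * d))⁻¹ : ℝ) : ℂ) * ∑ k, w Y k * ((Y k : ℝ) : ℂ)) * ((Y j : ℝ) : ℂ)) := by
    intro j
    funext Z
    have e1 : 2 * d - 2 = 2 * (d - 1) := by omega
    have e2 : (‖Z‖ ^ (2 * d))⁻¹ = (‖Z‖ ^ (2 * (d - 1)))⁻¹ * (‖Z‖ ^ 2)⁻¹ := by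
      rw [← mul_inv, ← pow_add, hd1]
    rw [e1, e2]
    show _ * (w Z j - (2 * (((‖Z‖ ^ 2)⁻¹ : ℝ) : ℂ) * ∑ k, w Z k * ((Z k : ℝ) : ℂ)) * ((Z j : ℝ) : ℂ)) = _
    push_cast
    ring
  have hT : ∀ j, pd j (fun Y : Ed d => ((((‖Y‖ ^ (2 * d - 2))⁻¹ : ℝ)) : ℂ) * rf Y (u (vi y Y)) j) Y =
      a * L (eb j) j - (2 * ((d : ℂ) - 1) * b) * (w Y j * ((Y j : ℝ) : ℂ)) - 2 * b * s -
        (2 * b) * (((Y j : ℝ) : ℂ) * ∑ k, L (eb j) k * ((Y k : ℝ) : ℂ)) -
        (2 * b) * (w Y j * ((Y j : ℝ) : ℂ)) + (4 * d * c * s) * ((Y j : ℝ) : ℂ) ^ 2 := by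
    intro j
    rw [hfun j]
    have hG := ((cee_invpow hY (d - 1)).mul (hwk j)).sub
      ((((cee_invpow hY d).mul hS).mul (cee_coord Y j)).const_mul (2 : ℂ))
    unfold pd
    rw [show fderiv ℝ (fun Y : Ed d => (((‖Y‖ ^ (2 * (d - 1)))⁻¹ : ℝ) : ℂ) * w Y j -
        2 * (((((‖Y‖ ^ (2 * d))⁻¹ : ℝ) : ℂ) * ∑ k, w Y k * ((Y k : ℝ) : ℂ)) * ((Y j : ℝ) : ℂ))) Y = _ from
          hG.fderiv, hd1]
    have hcast : ((d - 1 : ℕ) : ℝ) = (d : ℝ) - 1 := by
      rw [Nat.cast_sub hd]; simp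
    have hsum : (∑ k, (w Y k • (Complex.ofRealCLM.comp (EuclideanSpace.proj k : Ed d →L[ℝ] ℝ)) +
        ((Y k : ℝ) : ℂ) • (((EuclideanSpace.proj k : Cd d →L[ℂ] ℂ).restrictScalars ℝ).comp L))) (eb j) =
        w Y j + ∑ k, L (eb j) k * ((Y k : ℝ) : ℂ) := by
      rw [sum_apply]
      have h1 : ∀ k, (w Y k • (Complex.ofRealCLM.comp (EuclideanSpace.proj k : Ed d →L[ℝ] ℝ)) +
        ((Y k : ℝ) : ℂ) • (((EuclideanSpace.proj k : Cd d →L[ℂ] ℂ).restrictScalars ℝ).comp L)) (eb j) =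
          w Y k * (((eb j : Ed d) k : ℝ) : ℂ) + L (eb j) k * ((Y k : ℝ) : ℂ) := by
        intro k
        show w Y k * (((eb j : Ed d) k : ℝ) : ℂ) + ((Y k : ℝ) : ℂ) * L (eb j) k = _
        ring
      rw [Finset.sum_congr rfl fun k _ => h1 k, Finset.sum_add_distrib]
      congr 1
      rw [Finset.sum_eq_single j]
      · rw [cee_eb]; simp
      · intro k _ hk
        rw [cee_eb, if_neg hk]; simp
      · simp
    show (a * L (eb j) j + w Y j * (((-(2 * ((d - 1 : ℕ) : ℝ) * (‖Y‖ ^ (2 * d))⁻¹) * ⟪Y, eb j⟫_ℝ : ℝ)) : ℂ)) -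
      2 * ((b * s) * (((eb j : Ed d) j : ℝ) : ℂ) + ((Y j : ℝ) : ℂ) *
        (b * (∑ k, (w Y k • (Complex.ofRealCLM.comp (EuclideanSpace.proj k : Ed d →L[ℝ] ℝ)) +
        ((Y k : ℝ) : ℂ) • (((EuclideanSpace.proj k : Cd d →L[ℂ] ℂ).restrictScalars ℝ).comp L))) (eb j) +
          s * (((-(2 * (d : ℝ) * (‖Y‖ ^ (2 * d + 2))⁻¹) * ⟪Y, eb j⟫_ℝ : ℝ)) : ℂ))) = _
    rw [hsum, cee_inner_eb, hcast, cee_eb, if_pos rfl]
    have hb' : (((‖Y‖ ^ (2 * d))⁻¹ : ℝ) : ℂ) = b := rfl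
    have hc' : (((‖Y‖ ^ (2 * d + 2))⁻¹ : ℝ) : ℂ) = c := rfl
    push_cast at hb' hc' ⊢
    rw [hb', hc']
    ring
  -- the chain rule
  have hLv : ∀ v : Ed d, ∀ k, L v k = r⁻¹ * (M v k - 2 * r⁻¹ * ((⟪Y, v⟫_ℝ : ℝ) : ℂ) * M Y k) := by
    intro v k
    have h1 : L v = M ((‖Y‖ ^ 2)⁻¹ • (v - (2 * (‖Y‖ ^ 2)⁻¹ * ⟪Y, v⟫_ℝ) • Y)) := by
      rw [← fderiv_vi (y := y) hY v]; rfl
    rw [h1, map_smul, map_sub, map_smul]
    show (((‖Y‖ ^ 2)⁻¹ : ℝ) • (M v k - ((2 * (‖Y‖ ^ 2)⁻¹ * ⟪Y, v⟫_ℝ : ℝ)) • M Y k) : ℂ) = _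
    rw [Complex.real_smul, Complex.real_smul, hr]
    push_cast
    ring
  set B : ℂ := ∑ j, ((Y j : ℝ) : ℂ) * M Y j with hB
  set dv : ℂ := ∑ j, M (eb j) j with hdv
  have hF1 : ∑ j, L (eb j) j = r⁻¹ * (dv - 2 * r⁻¹ * B) := by
    have h1 : ∀ j, L (eb j) j = r⁻¹ * M (eb j) j - (2 * r⁻¹ * r⁻¹) * (((Y j : ℝ) : ℂ) * M Y j) := by
      intro j
      rw [hLv, cee_inner_eb]
      ring
    rw [Finset.sum_congr rfl fun j _ => h1 j, Finset.sum_sub_distrib, ← Finset.mul_sum, ← Finset.mul_sum,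
      ← hdv, ← hB]
    ring
  have hMY : ∀ k, ∑ j, ((Y j : ℝ) : ℂ) * M (eb j) k = M Y k := by
    intro k
    conv_rhs => rw [cee_sum_eb Y, map_sum]
    have h1 : (∑ j, M (Y j • eb j)).ofLp k = ∑ j, (M (Y j • eb j)) k :=
      map_sum (EuclideanSpace.proj k : Cd d →L[ℂ] ℂ) _ _
    rw [h1]
    refine Finset.sum_congr rfl fun j _ => ?_
    rw [map_smul]
    show _ = ((Y j : ℝ) • (M (eb j) k) : ℂ)
    rw [Complex.real_smul]
  have hF2 : ∑ j, (((Y j : ℝ) : ℂ) * ∑ k, L (eb j) k * ((Y k : ℝ) : ℂ)) = -(r⁻¹ * B) := by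
    have h1 : ∀ j, ((Y j : ℝ) : ℂ) * ∑ k, L (eb j) k * ((Y k : ℝ) : ℂ) =
        ∑ k, ((Y j : ℝ) : ℂ) * L (eb j) k * ((Y k : ℝ) : ℂ) := by
      intro j
      rw [Finset.mul_sum]
      exact Finset.sum_congr rfl fun k _ => by ring
    rw [Finset.sum_congr rfl fun j _ => h1 j, Finset.sum_comm]
    have h2 : ∀ k, ∑ j, ((Y j : ℝ) : ℂ) * L (eb j) k * ((Y k : ℝ) : ℂ) =
        -(r⁻¹ * (((Y k : ℝ) : ℂ) * M Y k)) := by
      intro k
      have h3 : ∀ j, ((Y j : ℝ) : ℂ) * L (eb j) k * ((Y k : ℝ) : ℂ) =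
          (r⁻¹ * ((Y k : ℝ) : ℂ)) * (((Y j : ℝ) : ℂ) * M (eb j) k) -
            (2 * r⁻¹ * r⁻¹ * ((Y k : ℝ) : ℂ) * M Y k) * ((Y j : ℝ) : ℂ) ^ 2 := by
        intro j
        rw [hLv, cee_inner_eb]
        ring
      rw [Finset.sum_congr rfl fun j _ => h3 j, Finset.sum_sub_distrib, ← Finset.mul_sum, ← Finset.mul_sum,
        hMY, cee_sum_sq, ← hr]
      field_simp
      ring
    rw [Finset.sum_congr rfl fun k _ => h2 k, Finset.sum_neg_distrib, ← Finset.mul_sum]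
  have hab : a * r⁻¹ = b := by
    rw [ha, hb, hr, ← Complex.ofReal_inv, ← Complex.ofReal_mul, ← mul_inv, ← pow_add, hd1]
  have hcb : c * r = b := by
    rw [hc, hb, hr, ← Complex.ofReal_mul]
    congr 1
    rw [pow_add]
    field_simp
  have hdiv : ∑ j, pd j (fun x => u x j) (vi y Y) = dv := by
    refine Finset.sum_congr rfl fun j _ => ?_
    have h1 : HasFDerivAt (fun x => u x j) (((EuclideanSpace.proj j : Cd d →L[ℂ] ℂ).restrictScalars ℝ).comp M) (vi y Y) :=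
      ((EuclideanSpace.proj j : Cd d →L[ℂ] ℂ).restrictScalars ℝ).hasFDerivAt.comp (vi y Y) hu.hasFDerivAt
    unfold pd
    rw [h1.fderiv]
    rfl
  rw [hdiv, Finset.sum_congr rfl fun j _ => hT j]
  simp only [Finset.sum_add_distrib, Finset.sum_sub_distrib, ← Finset.mul_sum, Finset.sum_const,
    Finset.card_univ, Fintype.card_fin, nsmul_eq_mul]
  rw [hF1, hF2, cee_sum_sq, ← hr, ← hs]
  linear_combination (dv - 2 * r⁻¹ * B) * hab + 4 * d * s * hcb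

end Pool.Agent.Lib.MP_79abb3_an.W.C
end

section

/-!
Theorem W (MP_79abb3_an), block C (density of the drifts). The inverse Piola transform of a divergence.
-/

set_option autoImplicit false
set_option linter.unusedSectionVars false
set_option linter.unusedVariables false

open MeasureTheory Set Filter Topology Function Metric
open scoped ENNReal InnerProductSpace BoundedContinuousFunction

namespace Pool.Agent.Lib.MP_79abb3_an.W.C

variable {d : ℕ} {F : Type} [NormedAddCommGroup F] [NormedSpace ℝ F]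

/-- the matrix of the reflection `I - 2 h hᵀ/|h|²` -/
noncomputable def rm (h : Ed d) (i k : Fin d) : ℝ := (if i = k then 1 else 0) - 2 * (‖h‖ ^ 2)⁻¹ * h i * h k

/-- the transformed matrix field `ρ^{4-2d} R E(vi y Y) R`, `ρ = |Y|` -/
noncomputable def Es (y : Ed d) (E : Fin d → Fin d → Ed d → ℂ) (i j : Fin d) (Y : Ed d) : ℂ :=
  ((((‖Y‖ ^ (2 * d - 4))⁻¹ : ℝ)) : ℂ) * ∑ k, ∑ l, ((rm Y i k : ℝ) : ℂ) * E k l (vi y Y) * ((rm Y l j : ℝ) : ℂ)

theorem cef_rf (h : Ed d) (v : Cd d) (j : Fin d) : rf h v j = ∑ l, v l * ((rm h l j : ℝ) : ℂ) := by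
  have h1 : ∀ l, v l * ((rm h l j : ℝ) : ℂ) =
      (if l = j then v l else 0) - (2 * (((‖h‖ ^ 2)⁻¹ : ℝ) : ℂ) * ((h j : ℝ) : ℂ)) * (v l * ((h l : ℝ) : ℂ)) := by
    intro l
    unfold rm
    split_ifs with hl
    · push_cast
      ring
    · push_cast
      ring
  rw [Finset.sum_congr rfl fun l _ => h1 l, Finset.sum_sub_distrib, ← Finset.mul_sum, Finset.sum_ite_eq',
    if_pos (Finset.mem_univ j)]
  show v j - (2 * (((‖h‖ ^ 2)⁻¹ : ℝ) : ℂ) * br v h) * ((h j : ℝ) : ℂ) = _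
  unfold br
  ring

theorem cef_rm_symm (h : Ed d) (i k : Fin d) : rm h i k = rm h k i := by
  unfold rm
  by_cases hik : i = k
  · rw [if_pos hik, if_pos hik.symm]; ring
  · rw [if_neg hik, if_neg (Ne.symm hik)]; ring

theorem cef_rm_vi {y Y : Ed d} (hY : Y ≠ 0) (i k : Fin d) : rm (vi y Y - y) i k = rm Y i k := by
  have h1 : vi y Y - y = (‖Y‖ ^ 2)⁻¹ • Y := by unfold vi; abel
  have hn : ‖Y‖ ≠ 0 := norm_ne_zero_iff.2 hY
  have h2 : ‖(‖Y‖ ^ 2)⁻¹ • Y‖ = ‖Y‖⁻¹ := by rw [← h1, norm_vi_sub hY]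
  unfold rm
  rw [h1, h2]
  show (if i = k then (1 : ℝ) else 0) - 2 * ((‖Y‖⁻¹) ^ 2)⁻¹ * ((‖Y‖ ^ 2)⁻¹ * Y i) * ((‖Y‖ ^ 2)⁻¹ * Y k) = _
  congr 1
  field_simp

/-- the columns of the derivative of the inversion -/
theorem cef_pd_iv {y x : Ed d} (h : x ≠ y) (i k : Fin d) :
    pd k (fun x => iv y x i) x = (‖x - y‖ ^ 2)⁻¹ * rm (x - y) i k := by
  have h1 : HasFDerivAt (fun x => iv y x i) ((EuclideanSpace.proj i : Ed d →L[ℝ] ℝ).comp (fderiv ℝ (iv y) x)) x :=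
    (EuclideanSpace.proj i : Ed d →L[ℝ] ℝ).hasFDerivAt.comp x ((iv_cda h).differentiableAt (by norm_num)).hasFDerivAt
  unfold pd
  rw [h1.fderiv]
  show (fderiv ℝ (iv y) x (eb k)) i = _
  rw [fderiv_iv h, cee_inner_eb]
  show (‖x - y‖ ^ 2)⁻¹ * ((eb k : Ed d) i - (2 * (‖x - y‖ ^ 2)⁻¹ * (x - y) k) * (x - y) i) = _
  rw [cee_eb]
  unfold rm
  ring

/-- second derivatives commute -/
theorem cef_pd_comm {f : Ed d → ℝ} {x : Ed d} (hf : ContDiffAt ℝ ((⊤ : ℕ∞) : WithTop ℕ∞) f x) (j k : Fin d) :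
    pd j (pd k f) x = pd k (pd j f) x := by
  have h1 : ∀ k l : Fin d, pd k (pd l f) x = fderiv ℝ (fderiv ℝ f) x (eb k) (eb l) := by
    intro k l
    have h3 : ContDiffAt ℝ ((⊤ : ℕ∞) : WithTop ℕ∞) (fderiv ℝ f) x :=
      hf.fderiv_right (by exact_mod_cast le_top)
    have h2 : DifferentiableAt ℝ (fderiv ℝ f) x := h3.differentiableAt (by norm_num)
    show fderiv ℝ (fun y => fderiv ℝ f y (eb l)) x (eb k) = _
    rw [fderiv_clm_apply h2 (differentiableAt_const _)]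
    simp
  rw [h1, h1]
  have h4 : minSmoothness ℝ 2 ≤ ((⊤ : ℕ∞) : WithTop ℕ∞) := by
    rw [minSmoothness_of_isRCLikeNormedField]
    exact WithTop.coe_le_coe.2 (le_top : (2 : ℕ∞) ≤ ⊤)
  exact (hf.isSymmSndFDerivAt h4).eq _ _

/-- PROOF. Fix `i`. With `h = x-y`, put `u_j(x) = ∑_k |h|^{-2} (rm h i k) E k j x` (a vector field in `x`, index `j`).
As `|vi y Y - y| = 1/|Y|` and `rm (vi y Y - y) = rm Y`, `Es y E i j Y = |Y|^{2-2d} (rf Y (u (vi y Y))) j` (for `Y ≠ 0`,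
`d ≥ 2`; `rm` is symmetric). `div_inv`: `∑_j ∂_j Es i j = |Y|^{-2d} (div u)(vi y Y)`, and
`div u = ∑_{k,j} ∂_j(|h|^{-2} rm h i k) E k j + |h|^{-2} ∑_k rm h i k ∑_j ∂_j E k j`. The first sum is `0`:
`|h|^{-2} rm h i k = ∂_k (iv y)_i` (`fderiv_iv`), so `∂_j ∂_k (iv y)_i` is symmetric in `(j,k)`, `E` is antisymmetric.
So `DV (Es y E) Y = |Y|^{2-2d} rf Y (DV E (vi y Y))` (`|h|^{-2} = |Y|²`). -/
theorem DV_Es (hd : 2 ≤ d) (y : Ed d) {E : Fin d → Fin d → Ed d → ℂ} (hE : ∀ i j, Smo (E i j))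
    (ha : ∀ i j x, E i j x = -E j i x) {Y : Ed d} (hY : Y ≠ 0) :
    DV (Es y E) Y = ((((‖Y‖ ^ (2 * d - 2))⁻¹ : ℝ)) : ℂ) • rf Y (DV E (vi y Y)) := by
  have hn : ‖Y‖ ≠ 0 := norm_ne_zero_iff.2 hY
  set X : Ed d := vi y Y with hX
  have hXy : X ≠ y := vi_ne hY
  ext i
  -- the coefficients `g k = ∂_k (iv y)_i`
  set g : Fin d → Ed d → ℝ := fun k x => (‖x - y‖ ^ 2)⁻¹ * rm (x - y) i k with hg
  have hgev : ∀ k, pd k (fun x => iv y x i) =ᶠ[𝓝 X] g k := by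
    intro k
    have hev : ∀ᶠ x' in 𝓝 X, x' ≠ y := (isOpen_ne (x := y)).mem_nhds hXy
    filter_upwards [hev] with x' hx'
    exact cef_pd_iv hx' i k
  have hivc : ContDiffAt ℝ ((⊤ : ℕ∞) : WithTop ℕ∞) (fun x => iv y x i) X :=
    (EuclideanSpace.proj i : Ed d →L[ℝ] ℝ).contDiff.contDiffAt.comp X (iv_cda hXy)
  have hgd : ∀ k, DifferentiableAt ℝ (g k) X := by
    intro k
    have h3 : ContDiffAt ℝ ((⊤ : ℕ∞) : WithTop ℕ∞) (fderiv ℝ (fun x => iv y x i)) X :=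
      hivc.fderiv_right (by exact_mod_cast le_top)
    have h2 : DifferentiableAt ℝ (fderiv ℝ (fun x => iv y x i)) X := h3.differentiableAt (by norm_num)
    have h4 : DifferentiableAt ℝ (pd k (fun x => iv y x i)) X := h2.clm_apply (differentiableAt_const _)
    exact h4.congr_of_eventuallyEq (hgev k).symm
  have hgs : ∀ j k, pd j (g k) X = pd k (g j) X := by
    intro j k
    have h5 : ∀ j k, pd j (g k) X = pd j (pd k (fun x => iv y x i)) X := by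
      intro j k
      exact (congrArg (fun L : Ed d →L[ℝ] ℝ => L (eb j)) (hgev k).fderiv_eq).symm
    rw [h5, h5]
    exact cef_pd_comm hivc j k
  have hgX : ∀ k, g k X = ‖Y‖ ^ 2 * rm Y i k := by
    intro k
    show (‖X - y‖ ^ 2)⁻¹ * rm (X - y) i k = _
    rw [hX, cef_rm_vi hY, norm_vi_sub hY, inv_pow, inv_inv]
  -- the auxiliary field
  set u : Ed d → Cd d := fun x => WithLp.toLp 2 fun j => ∑ k, ((g k x : ℝ) : ℂ) * E k j x with hu
  have hEd : ∀ k j, DifferentiableAt ℝ (E k j) X := fun k j => (ContDiff.differentiable (hE k j) (by norm_num)) X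
  have hgc : ∀ k, HasFDerivAt (fun x => ((g k x : ℝ) : ℂ)) (Complex.ofRealCLM.comp (fderiv ℝ (g k) X)) X :=
    fun k => (Complex.ofRealCLM.hasFDerivAt (x := g k X)).comp X (hgd k).hasFDerivAt
  have huj : ∀ j, HasFDerivAt (fun x => ∑ k, ((g k x : ℝ) : ℂ) * E k j x)
      (∑ k, (((g k X : ℝ) : ℂ) • fderiv ℝ (E k j) X + E k j X • (Complex.ofRealCLM.comp (fderiv ℝ (g k) X)))) X :=
    fun j => HasFDerivAt.fun_sum fun k _ => (hgc k).mul (hEd k j).hasFDerivAt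
  have hud : DifferentiableAt ℝ u X := by
    have h6 : DifferentiableAt ℝ (fun x (j : Fin d) => ∑ k, ((g k x : ℝ) : ℂ) * E k j x) X :=
      differentiableAt_pi.2 fun j => (huj j).differentiableAt
    exact (PiLp.continuousLinearEquiv 2 ℝ (fun _ : Fin d => ℂ)).symm.differentiableAt.comp X h6
  have hdiv := div_inv (by omega : 1 ≤ d) y u hY hud
  -- `Es` in terms of `u`
  have hEs : ∀ j, pd j (Es y E i j) Y =
      pd j (fun Y => ((((‖Y‖ ^ (2 * d - 2))⁻¹ : ℝ)) : ℂ) * rf Y (u (vi y Y)) j) Y := by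
    intro j
    have hev : ∀ᶠ Z in 𝓝 Y, Z ≠ 0 := (isOpen_ne (x := (0 : Ed d))).mem_nhds hY
    have h6 : Es y E i j =ᶠ[𝓝 Y] fun Y => ((((‖Y‖ ^ (2 * d - 2))⁻¹ : ℝ)) : ℂ) * rf Y (u (vi y Y)) j := by
      filter_upwards [hev] with Z hZ
      have hZn : ‖Z‖ ≠ 0 := norm_ne_zero_iff.2 hZ
      rw [cef_rf]
      have h7 : ∀ l, u (vi y Z) l = ((‖Z‖ ^ 2 : ℝ) : ℂ) * ∑ k, ((rm Z i k : ℝ) : ℂ) * E k l (vi y Z) := by
        intro l
        show ∑ k, ((g k (vi y Z) : ℝ) : ℂ) * E k l (vi y Z) = _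
        rw [Finset.mul_sum]
        refine Finset.sum_congr rfl fun k _ => ?_
        have h8 : g k (vi y Z) = ‖Z‖ ^ 2 * rm Z i k := by
          show (‖vi y Z - y‖ ^ 2)⁻¹ * rm (vi y Z - y) i k = _
          rw [cef_rm_vi hZ, norm_vi_sub hZ, inv_pow, inv_inv]
        rw [h8]
        push_cast
        ring
      have h9 : ((((‖Z‖ ^ (2 * d - 4))⁻¹ : ℝ)) : ℂ) = ((((‖Z‖ ^ (2 * d - 2))⁻¹ : ℝ)) : ℂ) * ((‖Z‖ ^ 2 : ℝ) : ℂ) := by
        rw [← Complex.ofReal_mul]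
        congr 1
        have h10 : 2 * d - 2 = (2 * d - 4) + 2 := by omega
        rw [h10, pow_add]
        field_simp
      unfold Es
      rw [h9, mul_assoc]
      congr 1
      rw [Finset.sum_comm, Finset.mul_sum]
      refine Finset.sum_congr rfl fun l _ => ?_
      rw [h7 l, Finset.mul_sum, Finset.mul_sum, Finset.sum_mul]
      refine Finset.sum_congr rfl fun k _ => ?_
      ring
    exact congrArg (fun L : Ed d →L[ℝ] ℂ => L (eb j)) h6.fderiv_eq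
  show ∑ j, pd j (Es y E i j) Y = ((((‖Y‖ ^ (2 * d - 2))⁻¹ : ℝ)) : ℂ) * rf Y (DV E X) i
  rw [Finset.sum_congr rfl fun j _ => hEs j, hdiv]
  have hpu : ∀ j, pd j (fun x => u x j) X =
      ∑ k, (((g k X : ℝ) : ℂ) * pd j (E k j) X + E k j X * ((pd j (g k) X : ℝ) : ℂ)) := by
    intro j
    unfold pd
    rw [show fderiv ℝ (fun x => u x j) X = _ from (huj j).fderiv, sum_apply]
    rfl
  rw [Finset.sum_congr rfl fun j _ => hpu j]
  simp only [Finset.sum_add_distrib]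
  -- the antisymmetric part
  have hanti : ∑ j, ∑ k, E k j X * ((pd j (g k) X : ℝ) : ℂ) = 0 := by
    have h11 : ∑ j, ∑ k, E k j X * ((pd j (g k) X : ℝ) : ℂ) = -∑ j, ∑ k, E k j X * ((pd j (g k) X : ℝ) : ℂ) := by
      conv_lhs => rw [Finset.sum_comm]
      rw [← Finset.sum_neg_distrib]
      refine Finset.sum_congr rfl fun k _ => ?_
      rw [← Finset.sum_neg_distrib]
      refine Finset.sum_congr rfl fun j _ => ?_
      rw [ha j k X, hgs k j]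
      ring
    have h12 := add_eq_zero_iff_eq_neg.2 h11
    rw [← two_mul] at h12
    exact (mul_eq_zero.1 h12).resolve_left two_ne_zero
  rw [hanti, add_zero, cef_rf, Finset.sum_comm]
  rw [Finset.mul_sum, Finset.mul_sum]
  refine Finset.sum_congr rfl fun k _ => ?_
  rw [← Finset.mul_sum, hgX, cef_rm_symm Y k i]
  have h13 : ((((‖Y‖ ^ (2 * d))⁻¹ : ℝ)) : ℂ) * ((‖Y‖ ^ 2 : ℝ) : ℂ) = ((((‖Y‖ ^ (2 * d - 2))⁻¹ : ℝ)) : ℂ) := by
    rw [← Complex.ofReal_mul]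
    congr 1
    have h14 : 2 * d = (2 * d - 2) + 2 := by omega
    rw [h14, pow_add, Nat.add_sub_cancel]
    field_simp
  have h15 : (DV E X) k = ∑ j, pd j (E k j) X := rfl
  rw [h15, ← h13]
  push_cast
  ring

end Pool.Agent.Lib.MP_79abb3_an.W.C
end

section

/-!
Theorem W (MP_79abb3_an), block C (density of the drifts). Test fields on the Kelvin side.
-/

set_option autoImplicit false
set_option linter.unusedSectionVars false
set_option linter.unusedVariables false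

open MeasureTheory Set Filter Topology Function Metric
open scoped ENNReal InnerProductSpace BoundedContinuousFunction

namespace Pool.Agent.Lib.MP_79abb3_an.W.C

variable {d : ℕ} {F : Type} [NormedAddCommGroup F] [NormedSpace ℝ F]

private theorem ceg_rm_symm (h : Ed d) (i k : Fin d) : rm h i k = rm h k i := by
  unfold rm
  by_cases hik : i = k
  · subst hik
    rfl
  · rw [if_neg hik, if_neg fun h => hik h.symm]
    ring

private theorem ceg_norm {Y : Ed d} (hY : Y ≠ 0) (n : ℕ) :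
    ContDiffAt ℝ ((⊤ : ℕ∞) : WithTop ℕ∞) (fun Y : Ed d => (‖Y‖ ^ n)⁻¹) Y :=
  ((contDiffAt_norm ℝ hY).pow n).inv (pow_ne_zero n (norm_ne_zero_iff.2 hY))

private theorem ceg_coord (i : Fin d) (Y : Ed d) :
    ContDiffAt ℝ ((⊤ : ℕ∞) : WithTop ℕ∞) (fun Y : Ed d => Y i) Y :=
  (EuclideanSpace.proj i : Ed d →L[ℝ] ℝ).contDiff.contDiffAt

private theorem ceg_rm {Y : Ed d} (hY : Y ≠ 0) (i k : Fin d) :
    ContDiffAt ℝ ((⊤ : ℕ∞) : WithTop ℕ∞) (fun Y : Ed d => rm Y i k) Y := by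
  unfold rm
  exact contDiffAt_const.sub (((contDiffAt_const.mul (ceg_norm hY 2)).mul (ceg_coord i Y)).mul (ceg_coord k Y))

private theorem ceg_ofReal {f : Ed d → ℝ} {Y : Ed d} (hf : ContDiffAt ℝ ((⊤ : ℕ∞) : WithTop ℕ∞) f Y) :
    ContDiffAt ℝ ((⊤ : ℕ∞) : WithTop ℕ∞) (fun Y => ((f Y : ℝ) : ℂ)) Y :=
  Complex.ofRealCLM.contDiff.contDiffAt.comp Y hf

private theorem ceg_zero {y : Ed d} {E : Fin d → Fin d → Ed d → ℂ} {Y : Ed d} (h : ∀ k l, E k l (vi y Y) = 0)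
    (i j : Fin d) : Es y E i j Y = 0 := by
  unfold Es
  simp [h]

private theorem ceg_vi_zero (y : Ed d) : vi y 0 = y := by
  unfold vi
  simp

private theorem ceg_cpt {y : Ed d} {O : Set (Ed d)} {E : Fin d → Fin d → Ed d → ℂ} (hE : IsE O E) :
    IsCompact (⋃ k, ⋃ l, tsupport (E k l)) :=
  isCompact_iUnion fun k => isCompact_iUnion fun l => hE.cpt k l

/-- PROOF. `Es y E` is smooth at `Y ≠ 0` (`vi_cda`) and `0` near `Y = 0` (`vi y Y → ∞`, compact support). If `E k l (vi y Y)`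
is not zero for some `k, l` then `vi y Y ∈ S`, `S` = the (finite) union of the supports, compact, `y ∉ S`: so `Y` is in the compact set
`iv y '' S`; `tsupport ⊆ iv y '' S`, and `vi y` maps it to `S ⊆ O`. -/
theorem isE_Es (hd : 2 ≤ d) {y : Ed d} {O : Set (Ed d)} {E : Fin d → Fin d → Ed d → ℂ} (hE : IsE O E)
    (hy : ∀ i j, y ∉ tsupport (E i j)) : IsE {Y | Y ≠ 0 ∧ vi y Y ∈ O} (Es y E) := by
  set S : Set (Ed d) := ⋃ k, ⋃ l, tsupport (E k l) with hS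
  have hSc : IsCompact S := ceg_cpt (y := y) hE
  have hmem : ∀ {x : Ed d}, x ∈ S → ∃ k l, x ∈ tsupport (E k l) := fun {x} hx => by
    rw [hS] at hx
    simpa only [mem_iUnion] using hx
  have hSy : ∀ {x : Ed d}, x ∈ S → x ≠ y := fun {x} hx hxy => by
    obtain ⟨k, l, h1⟩ := hmem hx
    rw [hxy] at h1
    exact hy k l h1
  have hout : ∀ {x : Ed d}, x ∉ S → ∀ k l, E k l x = 0 := fun {x} hx k l => by
    refine image_eq_zero_of_notMem_tsupport fun h1 => hx ?_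
    rw [hS]
    exact mem_iUnion.2 ⟨k, mem_iUnion.2 ⟨l, h1⟩⟩
  have hcont : ContinuousOn (iv y) S := fun x hx => (iv_cda (hSy hx)).continuousAt.continuousWithinAt
  have hKc : IsCompact (iv y '' S) := hSc.image_of_continuousOn hcont
  have hz : ∀ Y, Y ∉ iv y '' S → ∀ i j, Es y E i j Y = 0 := by
    intro Y hY i j
    refine ceg_zero (fun k l => ?_) i j
    by_cases h0 : Y = 0
    · rw [h0, ceg_vi_zero]
      exact image_eq_zero_of_notMem_tsupport (hy k l)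
    · refine hout (fun h1 => hY ⟨vi y Y, h1, iv_vi h0⟩) k l
  have hsub : ∀ i j, tsupport (Es y E i j) ⊆ iv y '' S := fun i j =>
    closure_minimal (fun Y hY => by
      by_contra hc
      exact hY (hz Y hc i j)) hKc.isClosed
  have h0K : (0 : Ed d) ∉ iv y '' S := by
    rintro ⟨x, hx, hx0⟩
    exact iv_ne (hSy hx) hx0
  refine ⟨fun i j => ?_, fun i j => ?_, fun i j => ?_, fun i j Y => ?_⟩
  · refine contDiff_iff_contDiffAt.2 fun Y => ?_
    by_cases h0 : Y = 0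
    · have h1 : Es y E i j =ᶠ[𝓝 Y] fun _ => 0 := by
        filter_upwards [hKc.isClosed.isOpen_compl.mem_nhds (show Y ∈ (iv y '' S)ᶜ by rw [h0]; exact h0K)]
          with Z hZ
        exact hz Z hZ i j
      exact contDiffAt_const.congr_of_eventuallyEq h1
    · have h1 : ContDiffAt ℝ ((⊤ : ℕ∞) : WithTop ℕ∞) (fun Y => ((((‖Y‖ ^ (2 * d - 4))⁻¹ : ℝ)) : ℂ)) Y :=
        ceg_ofReal (ceg_norm h0 _)
      refine h1.mul (ContDiffAt.sum fun k _ => ContDiffAt.sum fun l _ => ?_)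
      have h2 : ContDiffAt ℝ ((⊤ : ℕ∞) : WithTop ℕ∞) (fun Y => E k l (vi y Y)) Y :=
        (hE.smo k l).contDiffAt.comp Y (vi_cda h0)
      exact ((ceg_ofReal (ceg_rm h0 i k)).mul h2).mul (ceg_ofReal (ceg_rm h0 l j))
  · exact HasCompactSupport.intro hKc fun Y hY => hz Y hY i j
  · intro Y hY
    obtain ⟨x, hx, hxY⟩ := hsub i j hY
    obtain ⟨k, l, h1⟩ := hmem hx
    rw [← hxY]
    refine ⟨iv_ne (hSy hx), ?_⟩
    rw [vi_iv (hSy hx)]
    exact hE.supp k l h1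
  · unfold Es
    rw [← mul_neg]
    congr 1
    rw [Finset.sum_comm, ← Finset.sum_neg_distrib]
    refine Finset.sum_congr rfl fun k _ => ?_
    rw [← Finset.sum_neg_distrib]
    refine Finset.sum_congr rfl fun l _ => ?_
    rw [hE.anti l k, ceg_rm_symm Y i l, ceg_rm_symm Y k j]
    ring

private theorem ceg_br_smul (c : ℝ) (v : Cd d) (h : Ed d) : br v (c • h) = (c : ℂ) * br v h := by
  unfold br
  rw [Finset.mul_sum]
  refine Finset.sum_congr rfl fun i _ => ?_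
  have : ((c • h) i : ℝ) = c * h i := rfl
  rw [this]
  push_cast
  ring

private theorem ceg_cv_smul (c : ℝ) (h : Ed d) : cv (c • h) = (c : ℂ) • cv h := by
  ext i
  show (((c • h) i : ℝ) : ℂ) = (c : ℂ) * ((h i : ℝ) : ℂ)
  have : ((c • h) i : ℝ) = c * h i := rfl
  rw [this]
  push_cast
  rfl

private theorem ceg_rf_scale {c : ℝ} (hc : c ≠ 0) (h : Ed d) (v : Cd d) : rf (c • h) v = rf h v := by
  unfold rf
  rw [ceg_br_smul, ceg_cv_smul, smul_smul]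
  congr 2
  have h1 : ((‖c • h‖ ^ 2)⁻¹ : ℝ) = (c ^ 2)⁻¹ * (‖h‖ ^ 2)⁻¹ := by
    rw [norm_smul, mul_pow, Real.norm_eq_abs, sq_abs, mul_inv]
  rw [h1]
  have h2 : (c : ℂ) ≠ 0 := by exact_mod_cast hc
  push_cast
  field_simp

private theorem ceg_rf_smul (c : ℂ) (h : Ed d) (v : Cd d) : rf h (c • v) = c • rf h v := by
  have h1 : br (c • v) h = c * br v h := by
    unfold br
    rw [Finset.mul_sum]
    refine Finset.sum_congr rfl fun i _ => ?_
    have : ((c • v) i : ℂ) = c * v i := rfl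
    rw [this]
    ring
  unfold rf
  rw [h1, smul_sub, smul_smul]
  congr 2
  ring

/-- PROOF. `DV_Es` at `Y = iv y x` (`iv_ne`, `vi_iv`), `rf_rf` (`rf Y = rf (x-y)`), and
`|x-y|^{2-2d} |Y|^{2-2d} = 1`. -/
theorem Pb_Es (hd : 2 ≤ d) (y : Ed d) {E : Fin d → Fin d → Ed d → ℂ} (hE : ∀ i j, Smo (E i j))
    (ha : ∀ i j x, E i j x = -E j i x) {x : Ed d} (hx : x ≠ y) :
    Pb y (DV (Es y E)) x = DV E x := by
  have hxy : x - y ≠ 0 := sub_ne_zero.2 hx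
  have hn : ‖x - y‖ ≠ 0 := norm_ne_zero_iff.2 hxy
  unfold Pb
  rw [DV_Es hd y hE ha (iv_ne hx), vi_iv hx, norm_iv hx]
  have h1 : rf (iv y x) (DV E x) = rf (x - y) (DV E x) := by
    unfold iv
    exact ceg_rf_scale (inv_ne_zero (pow_ne_zero 2 hn)) _ _
  rw [h1, ceg_rf_smul, rf_rf hxy, smul_smul, ← Complex.ofReal_mul]
  have h2 : (‖x - y‖ ^ (2 * d - 2))⁻¹ * (‖x - y‖⁻¹ ^ (2 * d - 2))⁻¹ = 1 := by
    rw [inv_pow, inv_inv]
    exact inv_mul_cancel₀ (pow_ne_zero _ hn)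
  rw [h2, Complex.ofReal_one, one_smul]

end Pool.Agent.Lib.MP_79abb3_an.W.C
end

section

/-!
Theorem W (MP_79abb3_an), block C (density of the drifts). From the Kelvin side to the Laplacian of the distribution.
-/

set_option autoImplicit false
set_option linter.unusedSectionVars false
set_option linter.unusedVariables false

open MeasureTheory Set Filter Topology Function Metric
open scoped ENNReal InnerProductSpace BoundedContinuousFunction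

namespace Pool.Agent.Lib.MP_79abb3_an.W.C

variable {d : ℕ} {F : Type} [NormedAddCommGroup F] [NormedSpace ℝ F]

private theorem cld_diff {f : Ed d → F} (hf : Smo f) (x : Ed d) : DifferentiableAt ℝ f x :=
  hf.contDiffAt.differentiableAt (by simp)

private theorem cld_sub {f g : Ed d → F} (hf : Smo f) (hg : Smo g) (j : Fin d) (x : Ed d) :
    pd j (fun x => f x - g x) x = pd j f x - pd j g x := by
  unfold pd
  rw [fderiv_fun_sub (cld_diff hf x) (cld_diff hg x)]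
  rfl

private theorem cld_sum {ι : Type} (s : Finset ι) {f : ι → Ed d → F} (hf : ∀ a, Smo (f a)) (j : Fin d) (x : Ed d) :
    pd j (fun x => ∑ a ∈ s, f a x) x = ∑ a ∈ s, pd j (f a) x := by
  unfold pd
  rw [fderiv_fun_sum fun a _ => cld_diff (hf a) x, _root_.sum_apply]

private theorem cld_smo_sum {ι : Type} (s : Finset ι) {f : ι → Ed d → F} (hf : ∀ a, Smo (f a)) :
    Smo (fun x => ∑ a ∈ s, f a x) := ContDiff.sum fun a _ => hf a

private theorem cld_comm {f : Ed d → F} (hf : Smo f) (i j : Fin d) : pd i (pd j f) = pd j (pd i f) := by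
  funext x
  have hd : DifferentiableAt ℝ (fderiv ℝ f) x :=
    (hf.fderiv_right (m := ((⊤ : ℕ∞) : WithTop ℕ∞)) (by simp)).contDiffAt.differentiableAt (by simp)
  have h1 : ∀ a b : Fin d, pd a (pd b f) x = fderiv ℝ (fderiv ℝ f) x (eb a) (eb b) := by
    intro a b
    have h2 : HasFDerivAt (fun x => fderiv ℝ f x (eb b))
        ((ContinuousLinearMap.apply ℝ F (eb b)).comp (fderiv ℝ (fderiv ℝ f) x)) x :=
      (ContinuousLinearMap.apply ℝ F (eb b)).hasFDerivAt.comp x hd.hasFDerivAt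
    show fderiv ℝ (fun x => fderiv ℝ f x (eb b)) x (eb a) = _
    rw [h2.fderiv]
    rfl
  rw [h1, h1]
  have h2 : minSmoothness ℝ 2 ≤ ((⊤ : ℕ∞) : WithTop ℕ∞) := by
    rw [minSmoothness_of_isRCLikeNormedField]
    exact WithTop.coe_le_coe.2 le_top
  exact (hf.contDiffAt.isSymmSndFDerivAt h2).eq _ _

/-- `∑_j ∂_j (cr v i j) = Δ v_i` for `v = DV E`. PROOF: `∑_j ∂_j(∂_j v_i - ∂_i v_j) = Δ v_i - ∂_i div v`, `div v = ∑ ∂_i∂_j E i j = 0`
(antisymmetry), and `Δ v_i = ∑_j ∂_j Δ(E i j)`. -/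
theorem DV_cr_DV {E : Fin d → Fin d → Ed d → ℂ} (hE : ∀ i j, Smo (E i j)) (ha : ∀ i j x, E i j x = -E j i x) :
    DV (cr (DV E)) = DV fun i j x => lapl (E i j) x := by
  have hs : ∀ i, Smo (fun x => ∑ k, pd k (E i k) x) := fun i => cld_smo_sum _ fun k => smo_pd (hE i k) k
  have hDV : ∀ i, (fun x => DV E x i) = fun x => ∑ k, pd k (E i k) x := fun i => rfl
  -- the divergence vanishes
  have hdiv : ∀ x, ∑ j, pd j (fun x => ∑ k, pd k (E j k) x) x = 0 := by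
    intro x
    have h1 : ∀ j, pd j (fun x => ∑ k, pd k (E j k) x) x = ∑ k, pd j (pd k (E j k)) x := fun j =>
      cld_sum _ (fun k => smo_pd (hE j k) k) j x
    rw [Finset.sum_congr rfl fun j _ => h1 j]
    have h2 : ∑ j, ∑ k, pd j (pd k (E j k)) x = ∑ j, ∑ k, -(pd j (pd k (E j k)) x) := by
      rw [Finset.sum_comm]
      refine Finset.sum_congr rfl fun k _ => Finset.sum_congr rfl fun j _ => ?_
      have h3 : E j k = fun x => -E k j x := funext fun x => ha j k x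
      have h4 : pd k (E j k) = fun x => -pd k (E k j) x := by
        funext x
        rw [h3]
        unfold pd
        rw [fderiv_fun_neg]
        rfl
      rw [h4]
      have h5 : pd j (fun x => -pd k (E k j) x) x = -(pd j (pd k (E k j)) x) := by
        unfold pd
        rw [fderiv_fun_neg]
        rfl
      rw [h5, cld_comm (hE k j) j k]
    have h6 : ∑ j, ∑ k, -(pd j (pd k (E j k)) x) = -∑ j, ∑ k, pd j (pd k (E j k)) x := by
      simp only [Finset.sum_neg_distrib]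
    rw [h6] at h2
    exact self_eq_neg.1 h2
  funext x
  ext i
  show ∑ j, pd j (cr (DV E) i j) x = ∑ j, pd j (fun x => lapl (E i j) x) x
  have e1 : ∀ j, pd j (cr (DV E) i j) x = pd j (pd j (fun x => ∑ k, pd k (E i k) x)) x -
      pd i (pd j (fun x => ∑ k, pd k (E j k) x)) x := by
    intro j
    have e2 : cr (DV E) i j = fun x => pd j (fun x => ∑ k, pd k (E i k) x) x - pd i (fun x => ∑ k, pd k (E j k) x) x := rfl
    rw [e2, cld_sub (smo_pd (hs i) j) (smo_pd (hs j) i), cld_comm (hs j) j i]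
  rw [Finset.sum_congr rfl fun j _ => e1 j, Finset.sum_sub_distrib]
  have e3 : ∑ j, pd i (pd j (fun x => ∑ k, pd k (E j k) x)) x = 0 := by
    rw [← cld_sum _ (fun j => smo_pd (hs j) j) i x]
    have e4 : (fun x => ∑ j, pd j (fun x => ∑ k, pd k (E j k) x) x) = fun _ => (0:ℂ) := funext hdiv
    rw [e4]
    unfold pd
    rw [fderiv_const_apply]
    rfl
  rw [e3, sub_zero]
  have e5 : ∀ j, pd j (pd j (fun x => ∑ k, pd k (E i k) x)) x = ∑ k, pd k (pd j (pd j (E i k))) x := by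
    intro j
    have e6 : pd j (fun x => ∑ k, pd k (E i k) x) = fun x => ∑ k, pd j (pd k (E i k)) x :=
      funext fun x => cld_sum _ (fun k => smo_pd (hE i k) k) j x
    rw [e6, cld_sum _ (fun k => smo_pd (smo_pd (hE i k) k) j) j x]
    refine Finset.sum_congr rfl fun k _ => ?_
    rw [cld_comm (hE i k) j k, cld_comm (smo_pd (hE i k) j) j k]
  rw [Finset.sum_congr rfl fun j _ => e5 j, Finset.sum_comm]
  refine Finset.sum_congr rfl fun k _ => ?_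
  exact (cld_sum _ (fun j => smo_pd (smo_pd (hE i k) j) j) k x).symm

private theorem cld_LL_sum {ι : Type} {R : Set (Ed d)} (hR : Bornology.IsBounded R) (k : ℕ) {χ : Ed d → ℝ}
    (hχ : Smo χ) {y : Ed d} {r₃ : ℝ} (hr : 0 < r₃) (h1 : ∀ x, ‖x - y‖ < r₃ → χ x = 1) (s : Finset ι)
    {b : ι → Ed d → Cd d} (hb : ∀ a, Smo (b a)) :
    jt R k (LL χ (Pb y fun Y => ∑ a ∈ s, b a Y)) = ∑ a ∈ s, jt R k (LL χ (Pb y (b a))) := by
  classical
  induction s using Finset.induction_on with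
  | empty =>
    have h2 := jt_LL_smul hR k hχ hr h1 (0:ℂ) (b := fun _ => (0 : Cd d)) contDiff_const
    simp only [zero_smul] at h2
    simp only [Finset.sum_empty]
    exact h2
  | insert a s has ih =>
    simp only [Finset.sum_insert has]
    rw [jt_LL_add hR k hχ hr h1 (hb a) (cld_smo_sum s hb), ih]

/-- PROOF. `Es = Es y E` is `IsE {Y | Y ≠ 0 ∧ vi y Y ∈ O}` (`isE_Es`). `Es = (1/2) ∑_{k,l} EM k l (Es k l)` (antisymmetry), so by linearity
(`ok_LL`, `jt_sum`) `T (jt (LL χ (Pb y (DV Es)))) = (1/2) ∑ Qf T χ y k l (Es k l) = 0` (`hQ`; `Y ∈ tsupport (Es k l)` gives `vi y Y ∈ O`,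
`t₀ < ⟨e,Y⟩` by `hO` with `x = vi y Y`, `iv y x = Y`). `Pb_Es`: `Pb y (DV Es) = DV E` off `y`, and near `y` both cut off fields vanish: so
`T (jt (LL χ (DV E))) = 0`. `LL χ v = DV (cr v) - DV (χ cr v)`, `χ cr v` is `IsE U` (antisymmetric, smooth, compact support), `DV_cr_DV`. -/
theorem lap_zero (hd : 2 ≤ d) {R : Set (Ed d)} (hR : Bornology.IsBounded R) {k : ℕ} (T : JS R k →L[ℂ] ℂ)
    {U : Set (Ed d)} (hV : Van T U) {χ : Ed d → ℝ} (hχ : Smo χ) (hχc : HasCompactSupport χ)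
    (hχs : tsupport χ ⊆ U) {y : Ed d} {r₃ : ℝ} (hr : 0 < r₃) (h3 : ∀ x, ‖x - y‖ < r₃ → χ x = 1) {e : Ed d} {t₀ : ℝ}
    (hQ : ∀ (i j : Fin d) (H : Ed d → ℂ), Smo H → HasCompactSupport H → (∀ Y ∈ tsupport H, t₀ < ⟪e, Y⟫_ℝ) →
      Qf T χ y i j H = 0)
    {O : Set (Ed d)} (hO : ∀ x ∈ O, x ≠ y ∧ t₀ < ⟪e, iv y x⟫_ℝ) {E : Fin d → Fin d → Ed d → ℂ} (hE : IsE O E) :
    T (jt R k (DV fun i j x => lapl (E i j) x)) = 0 := by
  obtain ⟨G, hG⟩ : ∃ G, G = Es y E := ⟨_, rfl⟩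
  have hGE : IsE {Y | Y ≠ 0 ∧ vi y Y ∈ O} G := by
    rw [hG]
    exact isE_Es hd hE fun i j h => (hO y (hE.supp i j h)).1 rfl
  -- the decomposition
  have hEMs : ∀ a b, ∀ i j, Smo (EM a b (G a b) i j) := by
    intro a b i j
    have e1 : EM a b (G a b) i j = fun Y => (if i = a ∧ j = b then G a b Y else 0) -
      (if i = b ∧ j = a then G a b Y else 0) := rfl
    rw [e1]
    have e2 : ∀ P : Prop, [Decidable P] → Smo (fun Y => if P then G a b Y else 0) := by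
      intro P _
      split_ifs
      · exact hGE.smo a b
      · exact contDiff_const
    exact (e2 _).sub (e2 _)
  have hdec : ∀ i j Y, G i j Y = ∑ a, ∑ b, (1 / 2 : ℂ) * EM a b (G a b) i j Y := by
    intro i j Y
    have e1 : ∑ a, ∑ b, (1 / 2 : ℂ) * EM a b (G a b) i j Y =
        (1 / 2 : ℂ) * ((∑ a, ∑ b, if i = a ∧ j = b then G a b Y else 0) -
          ∑ a, ∑ b, if i = b ∧ j = a then G a b Y else 0) := by
      rw [← Finset.sum_sub_distrib, Finset.mul_sum]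
      refine Finset.sum_congr rfl fun a _ => ?_
      rw [← Finset.sum_sub_distrib, Finset.mul_sum]
      rfl
    have e2 : (∑ a, ∑ b, if i = a ∧ j = b then G a b Y else 0) = G i j Y := by
      simp only [ite_and]
      simp
    have e3 : (∑ a, ∑ b, if i = b ∧ j = a then G a b Y else 0) = G j i Y := by
      have e4 : ∀ a b : Fin d, (if i = b ∧ j = a then G a b Y else 0) = if j = a then (if i = b then G a b Y else 0) else 0 := by
        intro a b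
        by_cases h5 : j = a <;> by_cases h6 : i = b <;> simp [h5, h6]
      simp only [e4]
      simp
    rw [e1, e2, e3, hGE.anti j i Y]
    ring
  have hDV : DV G = fun Y => ∑ p : Fin d × Fin d, (1 / 2 : ℂ) • DV (EM p.1 p.2 (G p.1 p.2)) Y := by
    funext Y
    ext i
    have e1 : (∑ p : Fin d × Fin d, (1 / 2 : ℂ) • DV (EM p.1 p.2 (G p.1 p.2)) Y) i =
        ∑ p : Fin d × Fin d, (1 / 2 : ℂ) * ∑ j, pd j (EM p.1 p.2 (G p.1 p.2) i j) Y := by
      rw [WithLp.ofLp_sum, Finset.sum_apply]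
      rfl
    rw [e1]
    show ∑ j, pd j (G i j) Y = _
    have e2 : ∀ j, pd j (G i j) Y = ∑ p : Fin d × Fin d, (1 / 2 : ℂ) * pd j (EM p.1 p.2 (G p.1 p.2) i j) Y := by
      intro j
      have e3 : G i j = fun Y => ∑ p : Fin d × Fin d, (1 / 2 : ℂ) * EM p.1 p.2 (G p.1 p.2) i j Y := by
        funext Y
        rw [hdec i j Y, Fintype.sum_prod_type]
      have e4 : ∀ p : Fin d × Fin d, Smo (fun Y => (1 / 2 : ℂ) * EM p.1 p.2 (G p.1 p.2) i j Y) := fun p =>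
        contDiff_const.mul (hEMs p.1 p.2 i j)
      conv_lhs => rw [e3]
      rw [cld_sum _ e4 j Y]
      refine Finset.sum_congr rfl fun p _ => ?_
      unfold pd
      rw [fderiv_const_mul (cld_diff (hEMs p.1 p.2 i j) Y)]
      rfl
    rw [Finset.sum_congr rfl fun j _ => e2 j, Finset.sum_comm]
    exact Finset.sum_congr rfl fun p _ => (Finset.mul_sum _ _ _).symm
  -- the functional on the Kelvin side
  have hB : T (jt R k (LL χ (Pb y (DV G)))) = 0 := by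
    have hsm : ∀ p : Fin d × Fin d, Smo (DV (EM p.1 p.2 (G p.1 p.2))) := fun p => smo_DV_EM _ _ (hGE.smo _ _)
    have hsm' : ∀ p : Fin d × Fin d, Smo (fun Y => (1 / 2 : ℂ) • DV (EM p.1 p.2 (G p.1 p.2)) Y) := fun p =>
      (hsm p).const_smul (1 / 2 : ℂ)
    have key : jt R k (LL χ (Pb y fun Y => ∑ p : Fin d × Fin d, (1 / 2 : ℂ) • DV (EM p.1 p.2 (G p.1 p.2)) Y)) =
        ∑ p : Fin d × Fin d, jt R k (LL χ (Pb y fun Y => (1 / 2 : ℂ) • DV (EM p.1 p.2 (G p.1 p.2)) Y)) :=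
      cld_LL_sum hR k hχ hr h3 Finset.univ hsm'
    have e0 : T (jt R k (LL χ (Pb y (DV G)))) =
        ∑ p : Fin d × Fin d, T (jt R k (LL χ (Pb y fun Y => (1 / 2 : ℂ) • DV (EM p.1 p.2 (G p.1 p.2)) Y))) := by
      rw [← map_sum, ← key, ← hDV]
    rw [e0]
    refine Finset.sum_eq_zero fun p _ => ?_
    have e1 := jt_LL_smul hR k hχ hr h3 (1 / 2 : ℂ) (hsm p)
    rw [e1, map_smul]
    have h4 : Qf T χ y p.1 p.2 (G p.1 p.2) = 0 := by
      refine hQ _ _ _ (hGE.smo _ _) (hGE.cpt _ _) fun Y hY => ?_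
      obtain ⟨hY0, hYO⟩ := hGE.supp _ _ hY
      have h5 := (hO _ hYO).2
      rwa [iv_vi hY0] at h5
    have h6 : T (jt R k (LL χ (Pb y (DV (EM p.1 p.2 (G p.1 p.2)))))) = 0 := h4
    rw [h6, smul_zero]
  -- comparison with `DV E`
  have hC : jt R k (LL χ (Pb y (DV G))) = jt R k (LL χ (DV E)) := by
    unfold LL
    refine jt_DV_congr k fun x _ i j => ?_
    by_cases hx : x = y
    · subst hx
      filter_upwards [Metric.ball_mem_nhds x hr] with x' hx'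
      rw [mem_ball_iff_norm] at hx'
      rw [h3 x' hx']
      simp
    · filter_upwards [isOpen_ne.mem_nhds hx] with x' hx'
      have h4 : Pb y (DV G) =ᶠ[𝓝 x'] DV E := by
        filter_upwards [isOpen_ne.mem_nhds hx'] with w hw
        rw [hG]
        exact Pb_Es hd y hE.smo hE.anti hw
      have h5 : ∀ a b : Fin d, pd a (fun x => Pb y (DV G) x b) x' = pd a (fun x => DV E x b) x' := by
        intro a b
        have h6 : (fun x => Pb y (DV G) x b) =ᶠ[𝓝 x'] fun x => DV E x b := by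
          filter_upwards [h4] with w hw
          rw [hw]
        unfold pd
        rw [h6.fderiv_eq]
      show ((1 - χ x' : ℝ) : ℂ) * (pd j (fun x => Pb y (DV G) x i) x' - pd i (fun x => Pb y (DV G) x j) x') =
        ((1 - χ x' : ℝ) : ℂ) * (pd j (fun x => DV E x i) x' - pd i (fun x => DV E x j) x')
      rw [h5, h5]
  -- removal of the cut off
  have hsc : ∀ i j, Smo (cr (DV E) i j) := by
    intro i j
    have hs : ∀ i, Smo (fun x => DV E x i) := by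
      intro i
      show Smo (fun x => ∑ k, pd k (E i k) x)
      exact cld_smo_sum _ fun k => smo_pd (hE.smo i k) k
    exact (smo_pd (hs i) j).sub (smo_pd (hs j) i)
  have hsχ : Smo (fun x => ((χ x : ℝ) : ℂ)) := Complex.ofRealCLM.contDiff.comp hχ
  have hD : jt R k (LL χ (DV E)) = jt R k (DV (cr (DV E))) - jt R k (DV fun i j x => ((χ x : ℝ) : ℂ) * cr (DV E) i j x) := by
    rw [← jt_DV_sub k (fun i j => ok_of_smo (hsc i j) hR) (fun i j => ok_of_smo (hsχ.mul (hsc i j)) hR)]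
    unfold LL
    congr 2
    funext i j x
    push_cast
    ring
  have hZ : T (jt R k (DV fun i j x => ((χ x : ℝ) : ℂ) * cr (DV E) i j x)) = 0 := by
    refine hV _ ⟨fun i j => hsχ.mul (hsc i j), fun i j => ?_, fun i j => ?_, fun i j x => ?_⟩
    · have h4 : HasCompactSupport (fun x => ((χ x : ℝ) : ℂ)) := hχc.comp_left (g := fun r : ℝ => (r : ℂ)) Complex.ofReal_zero
      exact h4.mul_right
    · refine (closure_mono fun x hx => ?_).trans hχs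
      intro h4
      refine hx ?_
      show ((χ x : ℝ) : ℂ) * cr (DV E) i j x = 0
      rw [h4, Complex.ofReal_zero, zero_mul]
    · unfold cr
      ring
  rw [← DV_cr_DV hE.smo hE.anti]
  rw [hC, hD, map_sub, hZ, sub_zero] at hB
  exact hB

end Pool.Agent.Lib.MP_79abb3_an.W.C
end
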