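import Mathlib
import Pool.Agent.Lib.MP_79abb3_an.W.CBb
import Pool.Agent.Lib.MP_79abb3_an.W.CBc

section

/-!
Theorem W (MP_79abb3_an), block C (density of the drifts). A separation lemma.
-/

set_option autoImplicit false
set_option linter.unusedSectionVars false
set_option linter.unusedVariables false

open MeasureTheory Set Filter Topology Function Metric
open scoped ENNReal InnerProductSpace BoundedContinuousFunction

namespace Pool.Agent.Lib.MP_79abb3_an.W.C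

variable {d : ℕ} {F : Type} [NormedAddCommGroup F] [NormedSpace ℝ F]

/-- the cone of the sums -/
private def cmaS {Y : Type} [NormedAddCommGroup Y] [NormedSpace ℂ Y] (P : Y → ℝ → Prop) : Set (Y × ℝ) :=
  {p | ∃ (n : ℕ) (v : Fin n → Y) (s : Fin n → ℝ), (∀ j, P (v j) (s j)) ∧ ∑ j, v j = p.1 ∧
    ∑ j, s j ≤ p.2}

private lemma cma_add {Y : Type} [NormedAddCommGroup Y] [NormedSpace ℂ Y] {P : Y → ℝ → Prop}
    {p q : Y × ℝ} (hp : p ∈ cmaS P) (hq : q ∈ cmaS P) : p + q ∈ cmaS P := by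
  obtain ⟨n, v, s, h1, h2, h3⟩ := hp
  obtain ⟨n', v', s', h1', h2', h3'⟩ := hq
  refine ⟨n + n', Fin.append v v', Fin.append s s', fun j => ?_, ?_, ?_⟩
  · refine Fin.addCases (fun i => ?_) (fun i => ?_) j
    · rw [Fin.append_left, Fin.append_left]
      exact h1 i
    · rw [Fin.append_right, Fin.append_right]
      exact h1' i
  · rw [Fin.sum_univ_add]
    simp only [Fin.append_left, Fin.append_right]
    rw [h2, h2']
    rfl
  · rw [Fin.sum_univ_add]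
    simp only [Fin.append_left, Fin.append_right]
    exact add_le_add h3 h3'

private lemma cma_smul {Y : Type} [NormedAddCommGroup Y] [NormedSpace ℂ Y] {P : Y → ℝ → Prop}
    (hs : ∀ v s (c : ℂ), P v s → P (c • v) (‖c‖ * s))
    {p : Y × ℝ} (hp : p ∈ cmaS P) {c : ℝ} (hc : 0 ≤ c) : c • p ∈ cmaS P := by
  obtain ⟨n, v, s, h1, h2, h3⟩ := hp
  refine ⟨n, fun j => (c : ℂ) • v j, fun j => ‖(c : ℂ)‖ * s j, fun j => hs _ _ _ (h1 j), ?_, ?_⟩
  · rw [← Finset.smul_sum, h2]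
    exact Complex.coe_smul c p.1
  · rw [← Finset.mul_sum, Complex.norm_real, Real.norm_of_nonneg hc]
    exact mul_le_mul_of_nonneg_left h3 hc

/-- PROOF. In `Y × ℝ` let `S` be the set of all `(∑ v_j, t)`, `P (v_j) (s_j)`, `t ≥ ∑ s_j`: convex (it is closed under addition and multiplication by
nonnegative reals, by `hs`). The open set `{(w,t) | ‖w - V₀‖ < ε, t < κ}` around `(V₀, 0)` does not meet `S`, so `(V₀,0) ∉ closure S`;
`geometric_hahn_banach_point_closed`: a real functional `f` with `f(V₀,0) < u < f` on `closure S`. As `S` is a cone, `u < 0 ≤ f` on `S`. `f(w,t) = g(w) + τ t`,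
`τ ≥ 0` (`(0,1) ∈ S`). So `-g(v) ≤ τ s` if `P v s`, by `hs` with `λ = ±1, ±i`: `|g(λ v)| ≤ τ s`. Complexify: `T w = g(w) - i g(i w)`, complex linear and
continuous, `‖T v‖ ≤ 2 τ s`, `Re T V₀ = g(V₀) < 0`. -/
theorem hb_abs {Y : Type} [NormedAddCommGroup Y] [NormedSpace ℂ Y] (P : Y → ℝ → Prop) (h0 : ∀ v s, P v s → 0 ≤ s)
    (hs : ∀ v s (c : ℂ), P v s → P (c • v) (‖c‖ * s)) {V₀ : Y} {ε κ : ℝ} (hε : 0 < ε) (hκ : 0 < κ)
    (hno : ∀ (n : ℕ) (v : Fin n → Y) (s : Fin n → ℝ), (∀ j, P (v j) (s j)) → ∑ j, s j ≤ κ → ε < ‖V₀ - ∑ j, v j‖) :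
    ∃ (T : Y →L[ℂ] ℂ) (C : ℝ), 0 ≤ C ∧ (∀ v s, P v s → ‖T v‖ ≤ C * s) ∧ T V₀ ≠ 0 := by
  have hconv : Convex ℝ (cmaS P) := by
    intro p hp q hq a b ha hb _
    exact cma_add (cma_smul hs hp ha) (cma_smul hs hq hb)
  have hzero : ∀ t : ℝ, 0 ≤ t → ((0 : Y), t) ∈ cmaS P := fun t ht =>
    ⟨0, fun _ => 0, fun _ => 0, fun j => j.elim0, by simp, by simpa using ht⟩
  have hdisj : Disjoint (ball V₀ ε ×ˢ Iio κ) (cmaS P) := by
    rw [Set.disjoint_left]
    rintro p ⟨hp1, hp2⟩ ⟨n, v, s, h1, h2, h3⟩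
    have h4 := hno n v s h1 (h3.trans (le_of_lt hp2))
    rw [mem_ball, dist_comm, dist_eq_norm, ← h2] at hp1
    exact absurd hp1 (not_lt.2 h4.le)
  obtain ⟨f, u, hf1, hf2⟩ := geometric_hahn_banach_open
    ((convex_ball V₀ ε).prod (convex_Iio κ)) (isOpen_ball.prod isOpen_Iio) hconv hdisj
  have hf0 : f (V₀, 0) < u := hf1 _ ⟨mem_ball_self hε, hκ⟩
  have hu : u ≤ 0 := by
    have := hf2 _ (hzero 0 le_rfl)
    rwa [show ((0 : Y), (0 : ℝ)) = 0 from rfl, map_zero] at this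
  -- nonnegative on the cone
  have hfn : ∀ p ∈ cmaS P, 0 ≤ f p := by
    intro p hp
    by_contra hneg
    push Not at hneg
    have h1 : u < 0 := lt_of_le_of_lt (hf2 p hp) hneg
    have h2 : 0 ≤ 2 * u / f p := div_nonneg_of_nonpos (by linarith) hneg.le
    have h3 := hf2 _ (cma_smul hs hp h2)
    rw [map_smul, smul_eq_mul, div_mul_cancel₀ _ hneg.ne] at h3
    linarith
  set g : Y →L[ℝ] ℝ := f.comp (ContinuousLinearMap.inl ℝ Y ℝ) with hg
  have hgv : ∀ w, g w = f (w, 0) := fun w => rfl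
  set τ : ℝ := f ((0 : Y), (1 : ℝ)) with hτ
  have hτ0 : 0 ≤ τ := hfn _ (hzero 1 zero_le_one)
  have hdec : ∀ (w : Y) (t : ℝ), f (w, t) = g w + t * τ := by
    intro w t
    have h1 : ((w, t) : Y × ℝ) = (w, 0) + t • ((0 : Y), (1 : ℝ)) := by
      ext <;> simp
    rw [h1, map_add, map_smul, hgv, smul_eq_mul]
  have hb1 : ∀ v s, P v s → -g v ≤ τ * s := by
    intro v s hv
    have h1 : ((v, s) : Y × ℝ) ∈ cmaS P :=
      ⟨1, fun _ => v, fun _ => s, fun _ => hv, by simp, by simp⟩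
    have h2 := hfn _ h1
    rw [hdec] at h2
    linarith
  have hb2 : ∀ v s, P v s → |g v| ≤ τ * s := by
    intro v s hv
    rw [abs_le]
    have h1 := hb1 v s hv
    have h2 := hb1 _ _ (hs v s (-1) hv)
    rw [norm_neg, norm_one, one_mul, neg_one_smul, map_neg, neg_neg] at h2
    exact ⟨by linarith, h2⟩
  refine ⟨StrongDual.extendRCLike (𝕜 := ℂ) g, 2 * τ, by positivity, fun v s hv => ?_, fun h => ?_⟩
  · have h1 := hb2 v s hv
    have h2 := hb2 _ _ (hs v s Complex.I hv)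
    rw [Complex.norm_I, one_mul] at h2
    rw [StrongDual.extendRCLike_apply]
    refine (norm_sub_le _ _).trans ?_
    have e1 : ‖((g v : ℝ) : ℂ)‖ = |g v| := by rw [Complex.norm_real, Real.norm_eq_abs]
    have e2 : ‖Complex.I * ((g (Complex.I • v) : ℝ) : ℂ)‖ = |g (Complex.I • v)| := by
      rw [norm_mul, Complex.norm_I, one_mul, Complex.norm_real, Real.norm_eq_abs]
    calc _ = |g v| + |g (Complex.I • v)| := by
          rw [← e1, ← e2]
          rfl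
      _ ≤ 2 * τ * s := by linarith
  · have h1 := StrongDual.re_extendRCLike_apply (𝕜 := ℂ) g V₀
    rw [h, map_zero, hgv] at h1
    linarith

end Pool.Agent.Lib.MP_79abb3_an.W.C
end

section

/-!
Theorem W (MP_79abb3_an), block C (density of the drifts). The functional.
-/

set_option autoImplicit false
set_option linter.unusedSectionVars false
set_option linter.unusedVariables false

open MeasureTheory Set Filter Topology Function Metric
open scoped ENNReal InnerProductSpace BoundedContinuousFunction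

namespace Pool.Agent.Lib.MP_79abb3_an.W.C

variable {d : ℕ} {F : Type} [NormedAddCommGroup F] [NormedSpace ℝ F]

private theorem cmb_fd (L : ℂ →L[ℝ] ℂ) {f : Ed d → ℂ} {x : Ed d} (hf : DifferentiableAt ℝ f x) (v : Ed d) :
    fderiv ℝ (fun x => L (f x)) x v = L (fderiv ℝ f x v) := by
  have h := (L.hasFDerivAt (x := f x)).comp x hf.hasFDerivAt
  have h2 : fderiv ℝ (fun x => L (f x)) x = L.comp (fderiv ℝ f x) := h.fderiv
  rw [h2]
  rfl

private theorem cmb_pd (L : ℂ →L[ℝ] ℂ) {f : Ed d → ℂ} {x : Ed d} (hf : DifferentiableAt ℝ f x) (i : Fin d) :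
    pd i (fun x => L (f x)) x = L (pd i f x) := cmb_fd L hf (eb i)

private theorem cmb_ev {f : Ed d → ℂ} {x : Ed d} (hf : ContDiffAt ℝ ((⊤ : ℕ∞) : WithTop ℕ∞) f x) :
    ∀ᶠ y in 𝓝 x, DifferentiableAt ℝ f y := by
  have h1 : ContDiffAt ℝ 1 f x := hf.of_le (by exact_mod_cast le_top)
  filter_upwards [h1.eventually (by simp)] with y hy
  exact hy.differentiableAt one_ne_zero

private theorem cmb_adm (c : ℂ) {D B : Set (Ed d)} {z : Ed d → ℝ} {p : Ed d → ℂ}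
    (h : Adm D z B p) : Adm D z B (fun x => c * p x) := by
  let L : ℂ →L[ℝ] ℂ := ContinuousLinearMap.mul ℝ ℂ c
  change Adm D z B (fun x => L (p x))
  refine ⟨ok_clm L h.ok, fun x hx => ?_, ?_⟩
  · have h1 := h.ok.1 x hx
    have h2 : ∀ i : Fin d, pd i (pd i fun x => L (p x)) x = L (pd i (pd i p) x) := by
      intro i
      have e1 : (pd i fun x => L (p x)) =ᶠ[𝓝 x] fun y => L (pd i p y) := by
        filter_upwards [cmb_ev h1] with y hy
        exact cmb_pd L hy i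
      have e2 : pd i (pd i fun x => L (p x)) x = pd i (fun y => L (pd i p y)) x := by
        unfold pd at e1 ⊢
        rw [e1.fderiv_eq]
      rw [e2, cmb_pd L ((cda_pd h1 i).differentiableAt (by norm_num))]
    unfold lapl
    simp only [h2]
    rw [← map_sum]
    have h3 : (∑ i, pd i (pd i p) x) = 0 := h.harm x hx
    rw [h3, map_zero]
  · obtain ⟨C, hC⟩ := h.tan
    refine ⟨‖L‖ * C, fun x hx => ?_⟩
    rw [cmb_fd L ((h.ok.1 x hx).differentiableAt (by norm_num)), mul_assoc]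
    exact (L.le_opNorm _).trans (mul_le_mul_of_nonneg_left (hC x hx) (norm_nonneg _))

/-- the points near the walls are far from the ball -/
private theorem cmb_far {D : Set (Ed d)} {z : Ed d → ℝ} {δ : ℝ} {a : Ed d} {r₁ r₂ : ℝ} (hG : Geo D z δ a r₁ r₂) :
    ∃ ρ > 0, ∀ x ∈ D, z x < ρ → x ∉ ball a r₁ := by
  have hc : IsCompact (closedBall a r₂) := isCompact_closedBall a r₂
  have hne : (closedBall a r₂).Nonempty := ⟨a, mem_closedBall_self (hG.pos.trans hG.lt).le⟩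
  obtain ⟨y, hy, hmin⟩ := hc.exists_isMinOn hne hG.dom.smo.continuous.continuousOn
  refine ⟨z y, (hG.dom.pos y).1 (hG.sub hy), fun x _ hx hxb => ?_⟩
  have h1 : x ∈ closedBall a r₂ := ball_subset_closedBall (ball_subset_ball hG.lt.le hxb)
  exact absurd (hmin h1) (not_le.2 hx)

private theorem cmb_slip (c : ℂ) {D : Set (Ed d)} {z : Ed d → ℝ} {δ : ℝ} {a : Ed d}
    {r₁ r₂ : ℝ} (hG : Geo D z δ a r₁ r₂) {k : ℕ} {p : Ed d → ℂ} (h : Adm D z (ball a r₁) p) {c₁ : ℝ}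
    (hs : Slip D z k p c₁) : Slip D z k (fun x => c * p x) (‖c‖ * c₁) := by
  let L : ℂ →L[ℝ] ℂ := ContinuousLinearMap.mul ℝ ℂ c
  change Slip D z k (fun x => L (p x)) (‖c‖ * c₁)
  have hL : ‖L‖ ≤ ‖c‖ := ContinuousLinearMap.opNorm_mul_apply_le ℝ ℂ c
  obtain ⟨hc, ρ, hρ, H⟩ := hs
  obtain ⟨ρ₁, hρ₁, H₁⟩ := cmb_far hG
  refine ⟨mul_nonneg (norm_nonneg _) hc, min ρ ρ₁, lt_min hρ hρ₁, fun x hx hz i hi hi' => ?_⟩
  have h1 := H₁ x hx (hz.trans_le (min_le_right _ _))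
  refine (nrm_clm L (h.ok.1 x ⟨hx, h1⟩) i).trans ?_
  exact mul_le_mul hL (H x hx (hz.trans_le (min_le_left _ _)) i hi hi') (norm_nonneg _) (norm_nonneg _)

private theorem cmb_slip_mono {D : Set (Ed d)} {z : Ed d → ℝ} {k : ℕ} {p : Ed d → ℂ} {c c' : ℝ}
    (hs : Slip D z k p c) (h : c ≤ c') : Slip D z k p c' := by
  obtain ⟨hc, ρ, hρ, H⟩ := hs
  exact ⟨hc.trans h, ρ, hρ, fun x hx hz i hi hi' => (H x hx hz i hi hi').trans h⟩

private theorem cmb_VV {R : Set (Ed d)} {p q : Ed d → ℂ} (k : ℕ) (hp : OK R p) (hq : OK R q) (α β : ℂ) :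
    jt R k (VV (fun x => α * p x) (fun x => β * q x)) = (α * β) • jt R k (VV p q) := by
  have hp' : OK R (fun x => α * p x) := ok_mul (ok_const R α) hp
  have hq' : OK R (fun x => β * q x) := ok_mul (ok_const R β) hq
  rw [VV_eq, VV_eq, jt_smul k _ (ok_DV (ok_AA hp' hq')), jt_smul k _ (ok_DV (ok_AA hp hq))]
  have h1 : jt R k (DV (AA (fun x => α * p x) (fun x => β * q x))) =
      jt R k (DV fun i j x => (α * β) * AA p q i j x) := by
    refine jt_DV_congr k fun x hx i j => ?_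
    filter_upwards [cmb_ev (hp.1 x hx), cmb_ev (hq.1 x hx)] with y hy1 hy2
    rw [AA_smul_left hy1, AA_smul_right hy2, mul_assoc]
  rw [h1, jt_DV_smul k _ (ok_AA hp hq), smul_comm]

/-- PROOF. `hb_abs` with `P v s = ∃ p q c, Adm … p ∧ Adm … q ∧ Slip … p c ∧ Slip … q c ∧ v = jt (VV p q) ∧ s = c²`. Scaling by `λ ≠ 0`: `√‖λ‖ p`,
`(λ/√‖λ‖) q` (`AA_smul`, `c' = √‖λ‖ c`); `λ = 0`: `p = q = 0`. From `‖T (jt (VV p q))‖ ≤ C c²` (same `c` for both) to `C c₁ c₂`: if `c₁, c₂ > 0` scale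
`p` by `√(c₂/c₁)`, `q` by `√(c₁/c₂)`; if one is `0` replace it by `t > 0` and let `t → 0`. -/
theorem exists_T {D : Set (Ed d)} {z : Ed d → ℝ} {δ : ℝ} {a : Ed d} {r₁ r₂ : ℝ} (hG : Geo D z δ a r₁ r₂) (k : ℕ)
    (V₀ : Ed d → Cd d) {ε κ : ℝ} (hε : 0 < ε) (hκ : 0 < κ)
    (hno : ¬ ∃ (n : ℕ) (p q : Fin n → Ed d → ℂ) (c : Fin n → ℝ), (∀ j, Adm D z (ball a r₁) (p j)) ∧
      (∀ j, Adm D z (ball a r₁) (q j)) ∧ (∀ j, Slip D z k (p j) (c j)) ∧ (∀ j, Slip D z k (q j) (c j)) ∧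
      ∑ j, c j ^ 2 ≤ κ ∧ ‖jt (D \ ball a r₂) k V₀ - ∑ j, jt (D \ ball a r₂) k (VV (p j) (q j))‖ ≤ ε) :
    ∃ (T : JS (D \ ball a r₂) k →L[ℂ] ℂ) (C : ℝ), Bas D z a r₁ r₂ k T C ∧ T (jt _ k V₀) ≠ 0 := by
  have hsub : D \ ball a r₂ ⊆ D \ ball a r₁ := sdiff_subset_sdiff_right (ball_subset_ball hG.lt.le)
  obtain ⟨P, hPdef⟩ : ∃ P : JS (D \ ball a r₂) k → ℝ → Prop, P = fun v s =>
      ∃ (p q : Ed d → ℂ) (c : ℝ), Adm D z (ball a r₁) p ∧ Adm D z (ball a r₁) q ∧ Slip D z k p c ∧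
        Slip D z k q c ∧ v = jt (D \ ball a r₂) k (VV p q) ∧ s = c ^ 2 := ⟨_, rfl⟩
  have h0 : ∀ v s, P v s → 0 ≤ s := by
    intro v s h
    rw [hPdef] at h
    obtain ⟨p, q, c, -, -, -, -, -, rfl⟩ := h
    exact sq_nonneg c
  have hs : ∀ v s (c : ℂ), P v s → P (c • v) (‖c‖ * s) := by
    intro v s l h
    rw [hPdef] at h ⊢
    obtain ⟨p, q, c, hp, hq, hsp, hsq, rfl, rfl⟩ := h
    have n1 : ‖((Real.sqrt ‖l‖ : ℝ) : ℂ)‖ = Real.sqrt ‖l‖ := by
      rw [Complex.norm_real, Real.norm_of_nonneg (Real.sqrt_nonneg _)]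
    have n2 : ‖l / ((Real.sqrt ‖l‖ : ℝ) : ℂ)‖ = Real.sqrt ‖l‖ := by
      rw [norm_div, n1, Real.div_sqrt]
    refine ⟨fun x => ((Real.sqrt ‖l‖ : ℝ) : ℂ) * p x, fun x => (l / ((Real.sqrt ‖l‖ : ℝ) : ℂ)) * q x,
      Real.sqrt ‖l‖ * c, cmb_adm _ hp, cmb_adm _ hq, ?_, ?_, ?_, ?_⟩
    · have := cmb_slip ((Real.sqrt ‖l‖ : ℝ) : ℂ) hG hp hsp
      rwa [n1] at this
    · have := cmb_slip (l / ((Real.sqrt ‖l‖ : ℝ) : ℂ)) hG hq hsq
      rwa [n2] at this
    · rw [cmb_VV k (ok_mono hp.ok hsub) (ok_mono hq.ok hsub)]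
      congr 1
      by_cases hl : l = 0
      · rw [hl]
        simp
      · have h1 : ((Real.sqrt ‖l‖ : ℝ) : ℂ) ≠ 0 := by
          rw [Complex.ofReal_ne_zero]
          exact (Real.sqrt_pos.2 (norm_pos_iff.2 hl)).ne'
        rw [mul_div_cancel₀ _ h1]
    · rw [mul_pow, Real.sq_sqrt (norm_nonneg _)]
  have hno' : ∀ (n : ℕ) (v : Fin n → JS (D \ ball a r₂) k) (s : Fin n → ℝ), (∀ j, P (v j) (s j)) →
      ∑ j, s j ≤ κ → ε < ‖jt (D \ ball a r₂) k V₀ - ∑ j, v j‖ := by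
    intro n v s hP hsum
    by_contra hle
    rw [hPdef] at hP
    choose p q c hp hq hsp hsq hv hsc using hP
    refine hno ⟨n, p, q, c, hp, hq, hsp, hsq, ?_, ?_⟩
    · simpa only [hsc] using hsum
    · have h1 : ∑ j, jt (D \ ball a r₂) k (VV (p j) (q j)) = ∑ j, v j :=
        Finset.sum_congr rfl fun j _ => (hv j).symm
      rw [h1]
      exact not_lt.1 hle
  obtain ⟨T, C, hC, hT, hT0⟩ := hb_abs P h0 hs hε hκ hno'
  have hpos : ∀ (p q : Ed d → ℂ) (c₁ c₂ : ℝ), Adm D z (ball a r₁) p → Adm D z (ball a r₁) q →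
      Slip D z k p c₁ → Slip D z k q c₂ → 0 < c₁ → 0 < c₂ → ‖T (jt _ k (VV p q))‖ ≤ C * c₁ * c₂ := by
    intro p q c₁ c₂ hp hq hsp hsq h1 h2
    have hs0 : 0 < Real.sqrt (c₁ * c₂) := Real.sqrt_pos.2 (mul_pos h1 h2)
    have hss : Real.sqrt (c₁ * c₂) ^ 2 = c₁ * c₂ := Real.sq_sqrt (mul_pos h1 h2).le
    have n1 : ∀ t : ℝ, 0 < t → ‖((Real.sqrt (c₁ * c₂) / t : ℝ) : ℂ)‖ * t = Real.sqrt (c₁ * c₂) := by
      intro t ht
      rw [Complex.norm_real, Real.norm_of_nonneg (div_pos hs0 ht).le, div_mul_cancel₀ _ ht.ne']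
    have hP : P (jt (D \ ball a r₂) k (VV p q)) (Real.sqrt (c₁ * c₂) ^ 2) := by
      rw [hPdef]
      refine ⟨fun x => ((Real.sqrt (c₁ * c₂) / c₁ : ℝ) : ℂ) * p x,
        fun x => ((Real.sqrt (c₁ * c₂) / c₂ : ℝ) : ℂ) * q x, Real.sqrt (c₁ * c₂), cmb_adm _ hp,
        cmb_adm _ hq, ?_, ?_, ?_, rfl⟩
      · have := cmb_slip ((Real.sqrt (c₁ * c₂) / c₁ : ℝ) : ℂ) hG hp hsp
        rwa [n1 _ h1] at this
      · have := cmb_slip ((Real.sqrt (c₁ * c₂) / c₂ : ℝ) : ℂ) hG hq hsq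
        rwa [n1 _ h2] at this
      · rw [cmb_VV k (ok_mono hp.ok hsub) (ok_mono hq.ok hsub)]
        have h3 : ((Real.sqrt (c₁ * c₂) / c₁ : ℝ) : ℂ) * ((Real.sqrt (c₁ * c₂) / c₂ : ℝ) : ℂ) = 1 := by
          rw [← Complex.ofReal_mul]
          have h4 : Real.sqrt (c₁ * c₂) / c₁ * (Real.sqrt (c₁ * c₂) / c₂) = 1 := by
            rw [div_mul_div_comm, ← pow_two, hss]
            exact div_self (mul_pos h1 h2).ne'
          rw [h4, Complex.ofReal_one]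
        rw [h3, one_smul]
    have h5 := hT _ _ hP
    rw [hss, ← mul_assoc] at h5
    exact h5
  refine ⟨T, C, ⟨hC, fun p q c₁ c₂ hp hq h1 h2 => ?_⟩, hT0⟩
  have hcont : Continuous fun t : ℝ => C * (c₁ + t) * (c₂ + t) := by fun_prop
  have hlim : Tendsto (fun t : ℝ => C * (c₁ + t) * (c₂ + t)) (𝓝[>] 0) (𝓝 (C * (c₁ + 0) * (c₂ + 0))) :=
    hcont.continuousAt.tendsto.mono_left nhdsWithin_le_nhds
  rw [add_zero, add_zero] at hlim
  refine ge_of_tendsto hlim ?_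
  filter_upwards [self_mem_nhdsWithin] with t ht
  have ht' : (0 : ℝ) < t := ht
  exact hpos p q (c₁ + t) (c₂ + t) hp hq (cmb_slip_mono h1 (by linarith)) (cmb_slip_mono h2 (by linarith))
    (by linarith [h1.1]) (by linarith [h2.1])

end Pool.Agent.Lib.MP_79abb3_an.W.C
end
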