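import Pool.Agent.Lib.MP_79abb3_an.W.CBe
import Pool.Agent.Lib.MP_79abb3_an.W.CIb
import Pool.Agent.Lib.MP_79abb3_an.W.CLb
import Pool.Agent.Lib.MP_79abb3_an.W.CLd
import Pool.Agent.Lib.MP_79abb3_an.W.CMb
import Pool.Agent.Lib.MP_79abb3_an.W.BX1
import Pool.Agent.Lib.MP_79abb3_an.W.CAa
import Pool.Agent.Lib.MP_79abb3_an.W.BV3

section

/-!
Theorem W (MP_79abb3_an), block C (density of the drifts). The basic inequality for poles in the treated region.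
-/

set_option autoImplicit false
set_option linter.unusedSectionVars false
set_option linter.unusedVariables false

open MeasureTheory Set Filter Topology Function Metric
open scoped ENNReal InnerProductSpace BoundedContinuousFunction

namespace Pool.Agent.Lib.MP_79abb3_an.W.C

variable {d : ℕ} {F : Type} [NormedAddCommGroup F] [NormedSpace ℝ F]

theorem cic_add {p q : Ed d → ℂ} {x : Ed d} {i : ℕ} (hp : ContDiffAt ℝ ((⊤ : ℕ∞) : WithTop ℕ∞) p x)
    (hq : ContDiffAt ℝ ((⊤ : ℕ∞) : WithTop ℕ∞) q x) {a b : ℝ} (ha : ‖iteratedFDeriv ℝ i p x‖ ≤ a)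
    (hb : ‖iteratedFDeriv ℝ i (fun x => p x - q x) x‖ ≤ b) : ‖iteratedFDeriv ℝ i q x‖ ≤ a + b := by
  have hi : ((i : ℕ) : WithTop ℕ∞) ≤ ((⊤ : ℕ∞) : WithTop ℕ∞) := by exact_mod_cast le_top
  have h1 : iteratedFDeriv ℝ i (fun x => p x - q x) x = iteratedFDeriv ℝ i p x - iteratedFDeriv ℝ i q x :=
    iteratedFDeriv_sub_apply (hp.of_le hi) (hq.of_le hi)
  have h2 : iteratedFDeriv ℝ i q x =
      iteratedFDeriv ℝ i p x - iteratedFDeriv ℝ i (fun x => p x - q x) x := by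
    rw [h1]
    abel
  rw [h2]
  exact (norm_sub_le _ _).trans (add_le_add ha hb)

/-- PROOF. `S = (D \ ball a r₂) ∩ tsupport (1-χ)`, `φ_i = KV y ζ_i + w_i`. The collar `z ≤ δ₁` is contained in `S`. For `ε > 0`, `approx_adm` (order `k+2`) gives admissible
`p_i` with `GN S (k+2) (φ_i - p_i) ε`; `Slip p_i (c_i + ε)` (near the walls `‖D^j p_i‖ ≤ ‖D^j φ_i‖ + ‖D^j(φ_i-p_i)‖`). `cut_eq` and `Bas`:
`‖T (jt (DV ((1-χ) AA p₁ p₂)))‖ = 4 ‖T (jt (VV p₁ p₂))‖ ≤ 4 C (c₁+ε)(c₂+ε)`. The difference with `φ_i` in place of `p_i`: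
`AA φ₁ φ₂ - AA p₁ p₂ = AA (φ₁-p₁) φ₂ + AA p₁ (φ₂-p₂)`, `bil_bound`: `≤ C' ε (G₂ + G₁ + ε)`, `G_i` a bound of `GN S (k+2) φ_i`. `ε → 0`. -/
theorem ext_ineq {D : Set (Ed d)} {z : Ed d → ℝ} {δ : ℝ} {a : Ed d} {r₁ r₂ : ℝ} (hG : Geo D z δ a r₁ r₂)
    (hN : NeuP D z) {k : ℕ} {T : JS (D \ ball a r₂) k →L[ℂ] ℂ} {C : ℝ} (hB : Bas D z a r₁ r₂ k T C)
    {U : Set (Ed d)} (hUD : U ⊆ D) (hV : Van T U) {χ : Ed d → ℝ} (hχ : Smo χ) (hχc : HasCompactSupport χ)
    (hχs : tsupport χ ⊆ U) {δ₁ : ℝ} (h0 : 0 < δ₁) (h1 : δ₁ ≤ δ)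
    (hcol : ∀ x ∈ D, z x ≤ δ₁ → x ∉ ball a r₂ ∧ x ∉ tsupport χ) {Ω : Set (Ed d)} {ρ : ℝ} (hρ : 0 < ρ)
    (hSΩ : ∀ x ∈ tsupport (fun x => 1 - χ x), ∀ w ∈ Ω, ρ ≤ dist x w) (hΩ : IsOpen Ω) (hc : IsPreconnected Ω)
    (hb : Bornology.IsBounded Ω) (hne : (Ω ∩ ball a r₁).Nonempty) {y : Ed d} (hy : y ∈ Ω) {ζ₁ ζ₂ : Cd d}
    (hζ₁ : bc ζ₁ ζ₁ = 0) (hζ₂ : bc ζ₂ ζ₂ = 0) {w₁ w₂ : Ed d → ℂ} (hw₁ : OK D w₁) (hw₂ : OK D w₂)
    (hl₁ : ∀ x ∈ D \ ball a r₁, lapl w₁ x = 0) (hl₂ : ∀ x ∈ D \ ball a r₁, lapl w₂ x = 0)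
    (hn₁ : ∃ B, ∀ x ∈ D, z x ≤ δ₁ →
      ‖fderiv ℝ w₁ x (gradient z x) + fderiv ℝ (KV y ζ₁) x (gradient z x)‖ ≤ B * z x)
    (hn₂ : ∃ B, ∀ x ∈ D, z x ≤ δ₁ →
      ‖fderiv ℝ w₂ x (gradient z x) + fderiv ℝ (KV y ζ₂) x (gradient z x)‖ ≤ B * z x)
    {c₁ c₂ : ℝ} (hs₁ : Slip D z k (fun x => KV y ζ₁ x + w₁ x) c₁) (hs₂ : Slip D z k (fun x => KV y ζ₂ x + w₂ x) c₂) :
    ‖T (jt _ k (DV fun i j x => ((1 - χ x : ℝ) : ℂ) *
      AA (fun x => KV y ζ₁ x + w₁ x) (fun x => KV y ζ₂ x + w₂ x) i j x))‖ ≤ 4 * C * c₁ * c₂ := by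
  set S : Set (Ed d) := (D \ ball a r₂) ∩ tsupport (fun x => 1 - χ x) with hSdef
  have hRb : Bornology.IsBounded (D \ ball a r₂) := hG.dom.bdd.subset sdiff_subset
  have hSD : S ⊆ D := fun x hx => hx.1.1
  have hSΩ' : ∀ x ∈ S, ∀ w ∈ Ω, ρ ≤ dist x w := fun x hx w hw => hSΩ x hx.2 w hw
  have hcol' : ∀ x ∈ D, z x ≤ δ₁ → x ∈ S := by
    intro x hx hz
    refine ⟨⟨hx, (hcol x hx hz).1⟩, subset_tsupport _ ?_⟩
    rw [Function.mem_support]
    have h : χ x = 0 := by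
      by_contra hne
      exact (hcol x hx hz).2 (subset_tsupport _ hne)
    rw [h]
    norm_num
  obtain ⟨Cb, hCb0, hCb⟩ := bil_bound hRb hχ k
  have hyS : ∀ x ∈ S, ρ ≤ ‖x - y‖ := fun x hx => by
    rw [← dist_eq_norm]
    exact hSΩ' x hx y hy
  obtain ⟨ρ₀, hρ₀⟩ : ∃ ρ₀, ∀ x ∈ D, ‖x - y‖ ≤ ρ₀ := by
    obtain ⟨ρ₀, h⟩ := hG.dom.bdd.subset_closedBall y
    exact ⟨ρ₀, fun x hx => by rw [← dist_eq_norm]; exact mem_closedBall.mp (h hx)⟩
  have hKok : ∀ ζ : Cd d, OK S (KV y ζ) := by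
    intro ζ
    refine ⟨fun x hx => KV_cda (fun h => ?_) ζ, fun m => ?_⟩
    · have h2 := hyS x hx
      rw [h, sub_self, norm_zero] at h2
      exact absurd hρ (not_lt.mpr h2)
    · obtain ⟨C', -, hC'⟩ := KV_bound' y (ρ := ρ₀) hρ m
      exact ⟨_, fun x hx => hC' ζ S ρ _ le_rfl le_rfl
        (fun x hx => ⟨hyS x hx, hρ₀ x (hSD hx)⟩) m le_rfl x hx⟩
  set φ₁ : Ed d → ℂ := fun x => KV y ζ₁ x + w₁ x with hφ₁
  set φ₂ : Ed d → ℂ := fun x => KV y ζ₂ x + w₂ x with hφ₂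
  have hφ₁ok : OK S φ₁ := ok_add (hKok ζ₁) (ok_mono hw₁ hSD)
  have hφ₂ok : OK S φ₂ := ok_add (hKok ζ₂) (ok_mono hw₂ hSD)
  obtain ⟨G₁, hG₁0, hG₁⟩ := bn_exists hφ₁ok (k + 2)
  obtain ⟨G₂, hG₂0, hG₂⟩ := bn_exists hφ₂ok (k + 2)
  let X : (Ed d → ℂ) → (Ed d → ℂ) → JS (D \ ball a r₂) k := fun p q =>
    jt (D \ ball a r₂) k (DV fun i j x => ((1 - χ x : ℝ) : ℂ) * AA p q i j x)
  show ‖T (X φ₁ φ₂)‖ ≤ 4 * C * c₁ * c₂
  have key : ∀ ε : ℝ, 0 < ε → ‖T (X φ₁ φ₂)‖ ≤ 4 * (C * (c₁ + ε) * (c₂ + ε)) +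
      ‖T‖ * (Cb * ε * G₂) + ‖T‖ * (Cb * (G₁ + ε) * ε) := by
    intro ε hε
    obtain ⟨p₁, hA₁, hO₁, hN₁⟩ := approx_adm hG hN h0 h1 hρ hSD hSΩ' hcol' hΩ hc hb hne hy hζ₁ hw₁
      hl₁ hn₁ (k + 2) hε
    obtain ⟨p₂, hA₂, hO₂, hN₂⟩ := approx_adm hG hN h0 h1 hρ hSD hSΩ' hcol' hΩ hc hb hne hy hζ₂ hw₂
      hl₂ hn₂ (k + 2) hε
    have hslip : ∀ (φ p : Ed d → ℂ) (c : ℝ), OK S φ → OK S p → GN S (k + 2) (fun x => φ x - p x) ε →
        Slip D z k φ c → Slip D z k p (c + ε) := by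
      rintro φ p c hφ hp hN' ⟨hc0, ρ₁, hρ₁, hs⟩
      refine ⟨by linarith, min ρ₁ δ₁, lt_min hρ₁ h0, fun x hx hz i hi hik => ?_⟩
      have hxS : x ∈ S := hcol' x hx (hz.le.trans (min_le_right _ _))
      exact cic_add (hφ.1 x hxS) (hp.1 x hxS) (hs x hx (hz.trans_le (min_le_left _ _)) i hi hik)
        (hN' i hi (by omega) x hxS)
    have hS₁ : Slip D z k p₁ (c₁ + ε) := hslip φ₁ p₁ c₁ hφ₁ok hO₁ hN₁ hs₁
    have hS₂ : Slip D z k p₂ (c₂ + ε) := hslip φ₂ p₂ c₂ hφ₂ok hO₂ hN₂ hs₂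
    have hT1 := cut_eq hG T hUD hV hχ hχc hχs hA₁ hA₂
    have hT2 := hB.2 p₁ p₂ (c₁ + ε) (c₂ + ε) hA₁ hA₂ hS₁ hS₂
    have hT3 : ‖T (X p₁ p₂)‖ ≤ 4 * (C * (c₁ + ε) * (c₂ + ε)) := by
      have h : ‖T (jt (D \ ball a r₂) k (VV p₁ p₂))‖ = 1 / 4 * ‖T (X p₁ p₂)‖ := by
        have h4 : ‖(1 / 4 : ℂ)‖ = 1 / 4 := by norm_num
        rw [hT1, norm_mul, h4]
      rw [h] at hT2
      linarith
    set q₁ : Ed d → ℂ := fun x => KV y ζ₁ x + w₁ x - p₁ x with hq₁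
    set q₂ : Ed d → ℂ := fun x => KV y ζ₂ x + w₂ x - p₂ x with hq₂
    have hq₁ok : OK S q₁ := ok_sub hφ₁ok hO₁
    have hq₂ok : OK S q₂ := ok_sub hφ₂ok hO₂
    have hX : X φ₁ φ₂ = X p₁ p₂ + X p₁ q₂ + X q₁ φ₂ := by
      have e1 : X p₁ p₂ + X p₁ q₂ = jt (D \ ball a r₂) k (DV fun i j x =>
          ((1 - χ x : ℝ) : ℂ) * AA p₁ p₂ i j x + ((1 - χ x : ℝ) : ℂ) * AA p₁ q₂ i j x) :=
        (jt_DV_add k (fun i j => ok_cutAA hRb hχ hO₁ hO₂ i j)
          (fun i j => ok_cutAA hRb hχ hO₁ hq₂ok i j)).symm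
      rw [e1]
      have e2 : jt (D \ ball a r₂) k (DV fun i j x =>
          ((1 - χ x : ℝ) : ℂ) * AA p₁ p₂ i j x + ((1 - χ x : ℝ) : ℂ) * AA p₁ q₂ i j x) + X q₁ φ₂ =
          jt (D \ ball a r₂) k (DV fun i j x =>
          (((1 - χ x : ℝ) : ℂ) * AA p₁ p₂ i j x + ((1 - χ x : ℝ) : ℂ) * AA p₁ q₂ i j x) +
            ((1 - χ x : ℝ) : ℂ) * AA q₁ φ₂ i j x) :=
        (jt_DV_add k (fun i j => ok_add (ok_cutAA hRb hχ hO₁ hO₂ i j)
          (ok_cutAA hRb hχ hO₁ hq₂ok i j)) (fun i j => ok_cutAA hRb hχ hq₁ok hφ₂ok i j)).symm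
      rw [e2]
      refine jt_DV_congr k fun x hx i j => ?_
      by_cases hxs : x ∈ tsupport (fun x => 1 - χ x)
      · have hxS : x ∈ S := ⟨hx, hxs⟩
        have hev : ∀ {f : Ed d → ℂ}, OK S f → ∀ᶠ x' in 𝓝 x, DifferentiableAt ℝ f x' := by
          intro f hf
          have h := ((hf.1 x hxS).of_le (m := 1) (by exact_mod_cast le_top)).eventually (by simp)
          filter_upwards [h] with x' hx'
          exact hx'.differentiableAt (by simp)
        filter_upwards [hev hO₁, hev hO₂, hev hq₁ok, hev hq₂ok] with x' d1 d2 d3 d4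
        have a1 : φ₁ = fun x => p₁ x + q₁ x := by
          funext x
          simp only [hq₁, hφ₁]
          ring
        have a2 : φ₂ = fun x => p₂ x + q₂ x := by
          funext x
          simp only [hq₂, hφ₂]
          ring
        have b1 : AA φ₁ φ₂ i j x' = AA p₁ φ₂ i j x' + AA q₁ φ₂ i j x' := by
          rw [a1]
          exact AA_add_left d1 d3 i j
        have b2 : AA p₁ φ₂ i j x' = AA p₁ p₂ i j x' + AA p₁ q₂ i j x' := by
          rw [a2]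
          exact AA_add_right d2 d4 i j
        rw [b1, b2]
        ring
      · have h : ∀ᶠ x' in 𝓝 x, 1 - χ x' = 0 := notMem_tsupport_iff_eventuallyEq.mp hxs
        filter_upwards [h] with x' hx'
        rw [hx']
        simp
    have hb1 : ‖X p₁ q₂‖ ≤ Cb * (G₁ + ε) * ε := by
      refine hCb p₁ q₂ (G₁ + ε) ε (by linarith) hε.le hO₁ hq₂ok (fun i hi hik x hx => ?_) hN₂
      exact cic_add (hφ₁ok.1 x hx) (hO₁.1 x hx) (hG₁ i hik x hx) (hN₁ i hi hik x hx)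
    have hb2 : ‖X q₁ φ₂‖ ≤ Cb * ε * G₂ :=
      hCb q₁ φ₂ ε G₂ hε.le hG₂0 hq₁ok hφ₂ok hN₁ (fun i hi hik x hx => hG₂ i hik x hx)
    rw [hX, map_add, map_add]
    calc ‖T (X p₁ p₂) + T (X p₁ q₂) + T (X q₁ φ₂)‖
        ≤ ‖T (X p₁ p₂)‖ + ‖T (X p₁ q₂)‖ + ‖T (X q₁ φ₂)‖ := norm_add₃_le
      _ ≤ 4 * (C * (c₁ + ε) * (c₂ + ε)) + ‖T‖ * (Cb * (G₁ + ε) * ε) + ‖T‖ * (Cb * ε * G₂) := by
        gcongr
        · exact (T.le_opNorm _).trans (by gcongr)
        · exact (T.le_opNorm _).trans (by gcongr)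
      _ = _ := by ring
  have hlim : Tendsto (fun ε : ℝ => 4 * (C * (c₁ + ε) * (c₂ + ε)) +
      ‖T‖ * (Cb * ε * G₂) + ‖T‖ * (Cb * (G₁ + ε) * ε)) (𝓝[>] 0) (𝓝 (4 * C * c₁ * c₂)) := by
    have h : Continuous (fun ε : ℝ => 4 * (C * (c₁ + ε) * (c₂ + ε)) +
      ‖T‖ * (Cb * ε * G₂) + ‖T‖ * (Cb * (G₁ + ε) * ε)) := by fun_prop
    have h2 := (h.tendsto 0).mono_left (nhdsWithin_le_nhds (s := Ioi 0))
    convert h2 using 2
    ring
  exact ge_of_tendsto hlim (eventually_nhdsWithin_of_forall fun ε hε => key ε hε)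

end Pool.Agent.Lib.MP_79abb3_an.W.C
end

section

/-!
Theorem W (MP_79abb3_an), block C (density of the drifts). The inequality for Kelvin exponentials.
-/

set_option autoImplicit false
set_option linter.unusedSectionVars false
set_option linter.unusedVariables false

open MeasureTheory Set Filter Topology Function Metric
open scoped ENNReal InnerProductSpace BoundedContinuousFunction

namespace Pool.Agent.Lib.MP_79abb3_an.W.C

variable {d : ℕ} {F : Type} [NormedAddCommGroup F] [NormedSpace ℝ F]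

private theorem cla_ok {S : Set (Ed d)} {y : Ed d} {r ρ : ℝ} (hr : 0 < r)
    (hS : ∀ x ∈ S, r ≤ ‖x - y‖ ∧ ‖x - y‖ ≤ ρ) (ζ : Cd d) : OK S (KV y ζ) := by
  constructor
  · intro x hx
    apply KV_cda
    rintro rfl
    have := (hS x hx).1
    rw [sub_self, norm_zero] at this
    linarith
  · intro m
    obtain ⟨C, hC0, hC⟩ := KV_bound' (ρ := ρ) y hr m
    exact ⟨_, fun x hx => hC ζ S r ‖rv ζ‖ le_rfl le_rfl hS m le_rfl x hx⟩

private theorem cla_add {f g : Ed d → ℂ} {x : Ed d} (hf : ContDiffAt ℝ ((⊤ : ℕ∞) : WithTop ℕ∞) f x)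
    (hg : ContDiffAt ℝ ((⊤ : ℕ∞) : WithTop ℕ∞) g x) (i : ℕ) :
    ‖iteratedFDeriv ℝ i (fun x => f x + g x) x‖ ≤ ‖iteratedFDeriv ℝ i f x‖ + ‖iteratedFDeriv ℝ i g x‖ := by
  have h1 : ContDiffAt ℝ i f x := hf.of_le (by exact_mod_cast le_top)
  have h2 : ContDiffAt ℝ i g x := hg.of_le (by exact_mod_cast le_top)
  have h3 : iteratedFDeriv ℝ i (fun x => f x + g x) x = iteratedFDeriv ℝ i f x + iteratedFDeriv ℝ i g x :=
    iteratedFDeriv_add_apply h1 h2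
  rw [h3]
  exact norm_add_le _ _

private theorem cla_gn {S : Set (Ed d)} {m M : ℕ} {f : Ed d → ℂ} {c : ℝ} (h : BN S M f c) (hm : m ≤ M) :
    GN S m f c := fun i _ hi x hx => h i (hi.trans hm) x hx

private theorem cla_split {S : Set (Ed d)} {χ : Ed d → ℝ} {K₁ K₂ w₁ w₂ : Ed d → ℂ} {x : Ed d}
    (h : χ x ≠ 1 → DifferentiableAt ℝ K₁ x ∧ DifferentiableAt ℝ K₂ x) (h1 : DifferentiableAt ℝ w₁ x)
    (h2 : DifferentiableAt ℝ w₂ x) (i j : Fin d) :
    ((1 - χ x : ℝ) : ℂ) * AA (fun x => K₁ x + w₁ x) (fun x => K₂ x + w₂ x) i j x =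
      ((1 - χ x : ℝ) : ℂ) * AA K₁ K₂ i j x + (((1 - χ x : ℝ) : ℂ) * AA K₁ w₂ i j x +
        (((1 - χ x : ℝ) : ℂ) * AA w₁ K₂ i j x + ((1 - χ x : ℝ) : ℂ) * AA w₁ w₂ i j x)) := by
  by_cases hx : χ x = 1
  · rw [hx]; simp
  · obtain ⟨h3, h4⟩ := h hx
    rw [AA_add_left h3 h1, AA_add_right h4 h2, AA_add_right h4 h2]
    ring

/-- PROOF. `R = D \ ball a r₂`, `S = R ∩ tsupport (1-χ)`: there `r₃ ≤ ‖x-y‖ ≤ ρ₀`. `wall` (order `m = k+2`, gives `m'`, `C`). For null `ζ₁, ζ₂` with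
`‖rv ζ_i‖ ≤ A`: `KV_bound'` on the collar `{z ≤ δ₁}` (`s = rw`, order `m'`), on `S` (`s = r₃`, order `k+2`). So with `P_i = (1+‖ζ_i‖)^M`, `M = max m' (k+2)`:
`w_i` with `GN D (k+2) w_i (C P_i e^{A/rw})`, `φ_i = KV + w_i` has `Slip` `C P_i e^{A/rw}`, `GN S (k+2) (KV y ζ_i) (C P_i e^{A/r₃})`. `ext_ineq` for
`φ₁, φ₂`; `AA K₁ K₂ = AA φ₁ φ₂ - AA K₁ w₂ - AA w₁ K₂ - AA w₁ w₂`, the last three by `bil_bound`: each term is
`≤ C P₁ P₂ e^{A/r₃} e^{A/rw}` (as `r₃ ≤ rw`, `A ≥ 0`). -/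
theorem exp_pair {D : Set (Ed d)} {z : Ed d → ℝ} {δ : ℝ} {a : Ed d} {r₁ r₂ : ℝ} (hG : Geo D z δ a r₁ r₂)
    (hN : NeuP D z) {k : ℕ} {T : JS (D \ ball a r₂) k →L[ℂ] ℂ} {C : ℝ} (hB : Bas D z a r₁ r₂ k T C)
    {U : Set (Ed d)} (hUD : U ⊆ D) (hV : Van T U) {χ : Ed d → ℝ} (hχ : Smo χ) (hχc : HasCompactSupport χ)
    (hχs : tsupport χ ⊆ U) {δ₁ : ℝ} (h0 : 0 < δ₁) (h1 : δ₁ ≤ δ)
    (hcol : ∀ x ∈ D, z x ≤ δ₁ → x ∉ ball a r₂ ∧ x ∉ tsupport χ) {Ω : Set (Ed d)} {ρ : ℝ} (hρ : 0 < ρ)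
    (hSΩ : ∀ x ∈ tsupport (fun x => 1 - χ x), ∀ w ∈ Ω, ρ ≤ dist x w) (hΩ : IsOpen Ω) (hc : IsPreconnected Ω)
    (hb : Bornology.IsBounded Ω) (hne : (Ω ∩ ball a r₁).Nonempty) {y : Ed d} (hy : y ∈ Ω) {r₃ rw : ℝ}
    (hr : 0 < r₃) (hrw : r₃ ≤ rw) (h3 : ∀ x, ‖x - y‖ < r₃ → χ x = 1) (hw : ∀ x ∈ D, z x ≤ δ₁ → rw ≤ ‖x - y‖) :
    ∃ (M : ℕ) (C₀ : ℝ), 0 ≤ C₀ ∧ ∀ (ζ₁ ζ₂ : Cd d) (A : ℝ), bc ζ₁ ζ₁ = 0 → bc ζ₂ ζ₂ = 0 → ‖rv ζ₁‖ ≤ A → ‖rv ζ₂‖ ≤ A →
      ‖T (jt _ k (DV fun i j x => ((1 - χ x : ℝ) : ℂ) * AA (KV y ζ₁) (KV y ζ₂) i j x))‖ ≤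
        C₀ * (1 + ‖ζ₁‖) ^ M * (1 + ‖ζ₂‖) ^ M * Real.exp (A * (r₃⁻¹ + rw⁻¹)) := by
  obtain ⟨ρ₀, hρ₀⟩ := hG.dom.bdd.subset_closedBall y
  have hDo : IsOpen D := by
    have e : D = {x | 0 < z x} := Set.ext fun x => hG.dom.pos x
    rw [e]
    have hc : Continuous z := ContDiff.continuous hG.dom.smo
    exact isOpen_lt continuous_const hc
  have hDn : ∀ x ∈ D, ‖x - y‖ ≤ ρ₀ := fun x hx => by
    have := hρ₀ hx
    rwa [mem_closedBall, dist_eq_norm] at this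
  set Z : Set (Ed d) := {x | x ∈ D ∧ z x ≤ δ₁} with hZ
  set S : Set (Ed d) := (D \ ball a r₂) ∩ tsupport (fun x => 1 - χ x) with hS
  have hZb : ∀ x ∈ Z, rw ≤ ‖x - y‖ ∧ ‖x - y‖ ≤ ρ₀ := fun x hx => ⟨hw x hx.1 hx.2, hDn x hx.1⟩
  have hSb : ∀ x ∈ S, r₃ ≤ ‖x - y‖ ∧ ‖x - y‖ ≤ ρ₀ := by
    intro x hx
    refine ⟨?_, hDn x hx.1.1⟩
    have hcl : IsClosed {x : Ed d | r₃ ≤ ‖x - y‖} := isClosed_le continuous_const (by fun_prop)
    have hsub : tsupport (fun x => 1 - χ x) ⊆ {x : Ed d | r₃ ≤ ‖x - y‖} := by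
      refine closure_minimal (fun x hx => ?_) hcl
      by_contra hlt
      rw [mem_ofPred_eq, not_le] at hlt
      exact hx (by simp [h3 x hlt])
    exact hsub hx.2
  have hrw0 : 0 < rw := hr.trans_le hrw
  obtain ⟨m', Cw, hCw0, hwall⟩ := wall hG hN h0 h1 (k + 2)
  obtain ⟨C₁, hC₁0, hC₁⟩ := KV_bound' (ρ := ρ₀) y hr (max m' (k + 2))
  have hRb : Bornology.IsBounded (D \ ball a r₂) := hG.dom.bdd.subset sdiff_subset
  obtain ⟨C₂, hC₂0, hC₂⟩ := bil_bound hRb hχ k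
  have hC0 : 0 ≤ C := hB.1
  refine ⟨max m' (k + 2), 4 * C * (C₁ + Cw * C₁) ^ 2 + ‖T‖ * (C₂ * C₁ * (Cw * C₁) + C₂ * (Cw * C₁) * C₁ +
    C₂ * (Cw * C₁) * (Cw * C₁)), by positivity, fun ζ₁ ζ₂ A hn₁ hn₂ hA₁ hA₂ => ?_⟩
  have hA : 0 ≤ A := (norm_nonneg _).trans hA₁
  set M := max m' (k + 2) with hM
  set P₁ := (1 + ‖ζ₁‖) ^ M with hP₁
  set P₂ := (1 + ‖ζ₂‖) ^ M with hP₂
  have hP₁0 : 0 ≤ P₁ := by positivity
  have hP₂0 : 0 ≤ P₂ := by positivity
  set E₃ := Real.exp (A / r₃) with hE₃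
  set Ew := Real.exp (A / rw) with hEw
  have hE₃0 : 0 ≤ E₃ := (Real.exp_pos _).le
  have hEw0 : 0 ≤ Ew := (Real.exp_pos _).le
  have hEE : Ew ≤ E₃ := Real.exp_le_exp.2 (div_le_div_of_nonneg_left hA hr hrw)
  have hexp : Real.exp (A * (r₃⁻¹ + rw⁻¹)) = E₃ * Ew := by
    rw [hE₃, hEw, ← Real.exp_add]
    congr 1
    rw [div_eq_mul_inv, div_eq_mul_inv]; ring
  -- bounds of the exponentials
  have bZ₁ : BN Z M (KV y ζ₁) (C₁ * P₁ * Ew) := hC₁ ζ₁ Z rw A hrw hA₁ hZb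
  have bZ₂ : BN Z M (KV y ζ₂) (C₁ * P₂ * Ew) := hC₁ ζ₂ Z rw A hrw hA₂ hZb
  have bS₁ : BN S M (KV y ζ₁) (C₁ * P₁ * E₃) := hC₁ ζ₁ S r₃ A le_rfl hA₁ hSb
  have bS₂ : BN S M (KV y ζ₂) (C₁ * P₂ * E₃) := hC₁ ζ₂ S r₃ A le_rfl hA₂ hSb
  have okZ₁ : OK Z (KV y ζ₁) := cla_ok hrw0 hZb ζ₁
  have okZ₂ : OK Z (KV y ζ₂) := cla_ok hrw0 hZb ζ₂
  have okS₁ : OK S (KV y ζ₁) := cla_ok hr hSb ζ₁
  have okS₂ : OK S (KV y ζ₂) := cla_ok hr hSb ζ₂
  have c₁0 : 0 ≤ C₁ * P₁ * Ew := by positivity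
  have c₂0 : 0 ≤ C₁ * P₂ * Ew := by positivity
  -- the wall corrections
  obtain ⟨w₁, ow₁, lw₁, gw₁, nw₁⟩ := hwall (KV y ζ₁) okZ₁ _ c₁0 (fun i hi => bZ₁ i (hi.trans (le_max_left _ _)))
  obtain ⟨w₂, ow₂, lw₂, gw₂, nw₂⟩ := hwall (KV y ζ₂) okZ₂ _ c₂0 (fun i hi => bZ₂ i (hi.trans (le_max_left _ _)))
  have hslip : ∀ (ζ : Cd d) (w : Ed d → ℂ) (c : ℝ), 0 ≤ c → OK Z (KV y ζ) → BN Z M (KV y ζ) c → OK D w →
      GN D (k + 2) w (Cw * c) → Slip D z k (fun x => KV y ζ x + w x) (c + Cw * c) := by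
    intro ζ w c hc hok hbn how hgn
    refine ⟨by positivity, δ₁, h0, fun x hx hzx i hi1 hi2 => ?_⟩
    have hxZ : x ∈ Z := ⟨hx, hzx.le⟩
    refine (cla_add (hok.1 x hxZ) (how.1 x hx) i).trans ?_
    have hik : i ≤ M := (hi2.trans (by omega)).trans (le_max_right m' (k + 2))
    exact add_le_add (hbn i hik x hxZ) (hgn i hi1 (hi2.trans (by omega)) x hx)
  have s₁ := hslip ζ₁ w₁ _ c₁0 okZ₁ bZ₁ ow₁ gw₁
  have s₂ := hslip ζ₂ w₂ _ c₂0 okZ₂ bZ₂ ow₂ gw₂
  have key := ext_ineq hG hN hB hUD hV hχ hχc hχs h0 h1 hcol hρ hSΩ hΩ hc hb hne hy hn₁ hn₂ ow₁ ow₂ lw₁ lw₂ nw₁ nw₂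
    s₁ s₂
  -- the bilinear decomposition
  have hSD : S ⊆ D := fun x hx => hx.1.1
  have oS₁ : OK S w₁ := ok_mono ow₁ hSD
  have oS₂ : OK S w₂ := ok_mono ow₂ hSD
  have gS₁ : GN S (k + 2) w₁ (Cw * (C₁ * P₁ * Ew)) := fun i h1 h2 x hx => gw₁ i h1 h2 x (hSD hx)
  have gS₂ : GN S (k + 2) w₂ (Cw * (C₁ * P₂ * Ew)) := fun i h1 h2 x hx => gw₂ i h1 h2 x (hSD hx)
  have gK₁ : GN S (k + 2) (KV y ζ₁) (C₁ * P₁ * E₃) := cla_gn bS₁ (le_max_right _ _)
  have gK₂ : GN S (k + 2) (KV y ζ₂) (C₁ * P₂ * E₃) := cla_gn bS₂ (le_max_right _ _)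
  have e₁ := hC₂ (KV y ζ₁) w₂ _ _ (by positivity : 0 ≤ C₁ * P₁ * E₃) (by positivity : 0 ≤ Cw * (C₁ * P₂ * Ew))
    okS₁ oS₂ gK₁ gS₂
  have e₂ := hC₂ w₁ (KV y ζ₂) _ _ (by positivity : 0 ≤ Cw * (C₁ * P₁ * Ew)) (by positivity : 0 ≤ C₁ * P₂ * E₃)
    oS₁ okS₂ gS₁ gK₂
  have e₃ := hC₂ w₁ w₂ _ _ (by positivity : 0 ≤ Cw * (C₁ * P₁ * Ew)) (by positivity : 0 ≤ Cw * (C₁ * P₂ * Ew))
    oS₁ oS₂ gS₁ gS₂
  have okKK := ok_cutAA hRb hχ okS₁ okS₂
  have okKw := ok_cutAA hRb hχ okS₁ oS₂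
  have okwK := ok_cutAA hRb hχ oS₁ okS₂
  have okww := ok_cutAA hRb hχ oS₁ oS₂
  have hdec : jt (D \ ball a r₂) k (DV fun i j x => ((1 - χ x : ℝ) : ℂ) *
      AA (fun x => KV y ζ₁ x + w₁ x) (fun x => KV y ζ₂ x + w₂ x) i j x) =
      jt _ k (DV fun i j x => ((1 - χ x : ℝ) : ℂ) * AA (KV y ζ₁) (KV y ζ₂) i j x) +
      (jt _ k (DV fun i j x => ((1 - χ x : ℝ) : ℂ) * AA (KV y ζ₁) w₂ i j x) +
      (jt _ k (DV fun i j x => ((1 - χ x : ℝ) : ℂ) * AA w₁ (KV y ζ₂) i j x) +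
      jt _ k (DV fun i j x => ((1 - χ x : ℝ) : ℂ) * AA w₁ w₂ i j x))) := by
    rw [← jt_DV_add k okwK okww, ← jt_DV_add k okKw (fun i j => ok_add (okwK i j) (okww i j)),
      ← jt_DV_add k okKK (fun i j => ok_add (okKw i j) (ok_add (okwK i j) (okww i j)))]
    refine jt_DV_congr k fun x hx i j => ?_
    filter_upwards [hDo.mem_nhds hx.1] with x' hx'
    have hdw₁ : DifferentiableAt ℝ w₁ x' := (ow₁.1 x' hx').differentiableAt (by simp)
    have hdw₂ : DifferentiableAt ℝ w₂ x' := (ow₂.1 x' hx').differentiableAt (by simp)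
    refine cla_split (S := S) (fun hne1 => ?_) hdw₁ hdw₂ i j
    have hne' : x' ≠ y := by
      rintro rfl
      exact hne1 (h3 _ (by rw [sub_self, norm_zero]; exact hr))
    exact ⟨(KV_cda hne' ζ₁).differentiableAt (by simp), (KV_cda hne' ζ₂).differentiableAt (by simp)⟩
  set J := jt (D \ ball a r₂) k (DV fun i j x => ((1 - χ x : ℝ) : ℂ) *
      AA (fun x => KV y ζ₁ x + w₁ x) (fun x => KV y ζ₂ x + w₂ x) i j x) with hJ
  set J₀ := jt (D \ ball a r₂) k (DV fun i j x => ((1 - χ x : ℝ) : ℂ) * AA (KV y ζ₁) (KV y ζ₂) i j x) with hJ₀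
  set J₁ := jt (D \ ball a r₂) k (DV fun i j x => ((1 - χ x : ℝ) : ℂ) * AA (KV y ζ₁) w₂ i j x) with hJ₁
  set J₂ := jt (D \ ball a r₂) k (DV fun i j x => ((1 - χ x : ℝ) : ℂ) * AA w₁ (KV y ζ₂) i j x) with hJ₂
  set J₃ := jt (D \ ball a r₂) k (DV fun i j x => ((1 - χ x : ℝ) : ℂ) * AA w₁ w₂ i j x) with hJ₃
  have hT : T J₀ = T J - T (J₁ + (J₂ + J₃)) := by
    rw [hdec, map_add, add_sub_cancel_right]
  have hJn : ‖J₁ + (J₂ + J₃)‖ ≤ ‖J₁‖ + (‖J₂‖ + ‖J₃‖) :=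
    (norm_add_le _ _).trans (add_le_add le_rfl (norm_add_le _ _))
  have hPP : 0 ≤ P₁ * P₂ := mul_nonneg hP₁0 hP₂0
  have hEwE : Ew * Ew ≤ E₃ * Ew := mul_le_mul_of_nonneg_right hEE hEw0
  calc ‖T J₀‖ ≤ ‖T J‖ + ‖T (J₁ + (J₂ + J₃))‖ := by rw [hT]; exact norm_sub_le _ _
    _ ≤ 4 * C * (C₁ * P₁ * Ew + Cw * (C₁ * P₁ * Ew)) * (C₁ * P₂ * Ew + Cw * (C₁ * P₂ * Ew)) +
        ‖T‖ * (C₂ * (C₁ * P₁ * E₃) * (Cw * (C₁ * P₂ * Ew)) + (C₂ * (Cw * (C₁ * P₁ * Ew)) * (C₁ * P₂ * E₃) +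
          C₂ * (Cw * (C₁ * P₁ * Ew)) * (Cw * (C₁ * P₂ * Ew)))) := by
        refine add_le_add key ((T.le_opNorm _).trans ?_)
        refine mul_le_mul_of_nonneg_left (hJn.trans ?_) (norm_nonneg _)
        exact add_le_add e₁ (add_le_add e₂ e₃)
    _ = 4 * C * (C₁ + Cw * C₁) ^ 2 * (P₁ * P₂) * (Ew * Ew) +
        ‖T‖ * (C₂ * C₁ * (Cw * C₁) + C₂ * (Cw * C₁) * C₁) * (P₁ * P₂) * (E₃ * Ew) +
        ‖T‖ * (C₂ * (Cw * C₁) * (Cw * C₁)) * (P₁ * P₂) * (Ew * Ew) := by ring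
    _ ≤ 4 * C * (C₁ + Cw * C₁) ^ 2 * (P₁ * P₂) * (E₃ * Ew) +
        ‖T‖ * (C₂ * C₁ * (Cw * C₁) + C₂ * (Cw * C₁) * C₁) * (P₁ * P₂) * (E₃ * Ew) +
        ‖T‖ * (C₂ * (Cw * C₁) * (Cw * C₁)) * (P₁ * P₂) * (E₃ * Ew) := by
        have t1 : 0 ≤ 4 * C * (C₁ + Cw * C₁) ^ 2 * (P₁ * P₂) := by positivity
        have t2 : 0 ≤ ‖T‖ * (C₂ * (Cw * C₁) * (Cw * C₁)) * (P₁ * P₂) := by positivity
        have t3 := mul_le_mul_of_nonneg_left hEwE t1
        have t4 := mul_le_mul_of_nonneg_left hEwE t2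
        linarith
    _ = _ := by rw [hexp]; ring

end Pool.Agent.Lib.MP_79abb3_an.W.C
end

section

/-!
Theorem W (MP_79abb3_an), block C (density of the drifts). The functional `Qf` vanishes on test functions.
-/

set_option autoImplicit false
set_option linter.unusedSectionVars false
set_option linter.unusedVariables false

open MeasureTheory Set Filter Topology Function Metric
open scoped ENNReal InnerProductSpace BoundedContinuousFunction

namespace Pool.Agent.Lib.MP_79abb3_an.W.C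

variable {d : ℕ} {F : Type} [NormedAddCommGroup F] [NormedSpace ℝ F]

/-- PROOF. `Qf_linB`, `exp_pair`, `Qf_pe` and `U_main` with `κ₁ = r₃⁻¹`, `κm = (r₃⁻¹ + rw⁻¹)/2`. -/
theorem Qf_zero {D : Set (Ed d)} {z : Ed d → ℝ} {δ : ℝ} {a : Ed d} {r₁ r₂ : ℝ} (hG : Geo D z δ a r₁ r₂)
    (hN : NeuP D z) {k : ℕ} {T : JS (D \ ball a r₂) k →L[ℂ] ℂ} {C : ℝ} (hB : Bas D z a r₁ r₂ k T C)
    {U : Set (Ed d)} (hUD : U ⊆ D) (hV : Van T U) {χ : Ed d → ℝ} (hχ : Smo χ) (hχc : HasCompactSupport χ)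
    (hχs : tsupport χ ⊆ U) {δ₁ : ℝ} (h0 : 0 < δ₁) (h1 : δ₁ ≤ δ)
    (hcol : ∀ x ∈ D, z x ≤ δ₁ → x ∉ ball a r₂ ∧ x ∉ tsupport χ) {Ω : Set (Ed d)} {ρ : ℝ} (hρ : 0 < ρ)
    (hSΩ : ∀ x ∈ tsupport (fun x => 1 - χ x), ∀ w ∈ Ω, ρ ≤ dist x w) (hΩ : IsOpen Ω) (hc : IsPreconnected Ω)
    (hb : Bornology.IsBounded Ω) (hne : (Ω ∩ ball a r₁).Nonempty) {y : Ed d} (hy : y ∈ Ω) {r₃ rw : ℝ}
    (hr : 0 < r₃) (hrw : r₃ ≤ rw) (h3 : ∀ x, ‖x - y‖ < r₃ → χ x = 1) (hw : ∀ x ∈ D, z x ≤ δ₁ → rw ≤ ‖x - y‖)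
    {e : Ed d} (he : ‖e‖ = 1) {t₀ : ℝ} (ht : t₀ < r₃⁻¹) (ht4 : 4 * (r₃⁻¹ - t₀) ≤ (r₃⁻¹ - rw⁻¹) / 2) (i j : Fin d)
    {H : Ed d → ℂ} (hH : Smo H) (hHc : HasCompactSupport H) (hHs : ∀ Y ∈ tsupport H, t₀ < ⟪e, Y⟫_ℝ) :
    Qf T χ y i j H = 0 := by
  obtain ⟨M, C₀, hC₀, hexp⟩ := exp_pair hG hN hB hUD hV hχ hχc hχs h0 h1 hcol hρ hSΩ hΩ hc hb hne hy hr hrw
    h3 hw
  have hR : Bornology.IsBounded (D \ ball a r₂) := hG.dom.bdd.subset sdiff_subset
  refine U_main he (κ₁ := r₃⁻¹) (κm := (r₃⁻¹ + rw⁻¹) / 2) (M := 2 * M) (inv_pos.2 hr) ht (by linarith)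
    (Qf_linB hR T hχ hr h3 i j) (fun ξ hξ => ?_) hH hHc hHs
  exact Qf_pe hG.two hR T hχ hr h3 hC₀ hexp he hξ i j

end Pool.Agent.Lib.MP_79abb3_an.W.C
end

section

/-!
Theorem W (MP_79abb3_an), block C (density of the drifts). The distribution vanishes in `D`.
-/

set_option autoImplicit false
set_option linter.unusedSectionVars false
set_option linter.unusedVariables false

open MeasureTheory Set Filter Topology Function Metric
open scoped ENNReal InnerProductSpace BoundedContinuousFunction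

namespace Pool.Agent.Lib.MP_79abb3_an.W.C

variable {d : ℕ} {F : Type} [NormedAddCommGroup F] [NormedSpace ℝ F]

/-- Numbers: for `x ∈ ball x₀ (r/100)`, `‖x₀-y‖ = r`, `e = (x₀-y)/r`: `⟨e, iv y x⟩ ≥ (99/100) r/((101/100) r)² > (95/100)/r`. -/
theorem cone {x₀ y x : Ed d} {r : ℝ} (hr : 0 < r) (hxy : dist x₀ y = r) (hx : x ∈ ball x₀ (r / 100)) :
    x ≠ y ∧ 95 / 100 * r⁻¹ < ⟪r⁻¹ • (x₀ - y), iv y x⟫_ℝ := by
  rw [mem_ball] at hx
  have hn : ‖x₀ - y‖ = r := by rw [← dist_eq_norm, hxy]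
  have h1 : ‖x - x₀‖ < r / 100 := by rw [← dist_eq_norm]; exact hx
  have h2 : ‖x - y‖ ≤ 101 / 100 * r := by
    calc ‖x - y‖ = ‖(x₀ - y) + (x - x₀)‖ := by congr 1; abel
      _ ≤ ‖x₀ - y‖ + ‖x - x₀‖ := norm_add_le _ _
      _ ≤ _ := by rw [hn]; linarith
  have h3 : 99 / 100 * r ≤ ‖x - y‖ := by
    have h : ‖x₀ - y‖ ≤ ‖x - y‖ + ‖x - x₀‖ := by
      calc ‖x₀ - y‖ = ‖(x - y) - (x - x₀)‖ := by congr 1; abel
        _ ≤ _ := norm_sub_le _ _
    rw [hn] at h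
    linarith
  have h4 : 0 < ‖x - y‖ := by linarith
  refine ⟨fun h => by rw [h, sub_self, norm_zero] at h4; exact lt_irrefl _ h4, ?_⟩
  have h5 : 99 / 100 * r * r ≤ ⟪x₀ - y, x - y⟫_ℝ := by
    have e1 : ⟪x₀ - y, x - y⟫_ℝ = ‖x₀ - y‖ ^ 2 + ⟪x₀ - y, x - x₀⟫_ℝ := by
      rw [← real_inner_self_eq_norm_sq, ← inner_add_right]
      congr 1
      abel
    have e2 : |⟪x₀ - y, x - x₀⟫_ℝ| ≤ ‖x₀ - y‖ * ‖x - x₀‖ := abs_real_inner_le_norm _ _
    rw [hn] at e1 e2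
    have e3 := (abs_le.mp e2).1
    nlinarith
  unfold iv
  rw [real_inner_smul_left, real_inner_smul_right]
  have h6 : ‖x - y‖ ^ 2 ≤ (101 / 100 * r) ^ 2 := by gcongr
  have h7 : 95 / 100 < (‖x - y‖ ^ 2)⁻¹ * ⟪x₀ - y, x - y⟫_ℝ := by
    rw [inv_mul_eq_div, lt_div_iff₀ (by positivity)]
    nlinarith
  rw [mul_comm (95 / 100)]
  exact mul_lt_mul_of_pos_left h7 (inv_pos.mpr hr)

/-- PROOF. `O = {x ∈ D | ∃ ε > 0, Van T (ball x ε)}`: open; `a ∈ O` (`van_off` for `ball a r₂`); `Van T O` (`van_local`). `U = connectedComponentIn O a`. If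
`U = D` we are done. Otherwise `touch`, a radius `ρ` with `closedBall x₁ ρ ⊆ D`, `touch2`: `y, x₀, r`. `tube` in `U` from `a` to `y`: `Ω, ρ'`. `exists_cut` for the
compact set `cthickening ρ' Ω ∪ closedBall y (50r/51) ⊆ U`: `χ`; `1-χ = 0` on an open set containing it, so points of
`tsupport (1-χ)` are at distance `≥ ρ'` from `Ω`. `δ₁ ∈ (0, δ]` with `δ₁ < z` on the compact subset `closedBall x₁ ρ ∪ closedBall a r₂ ∪ tsupport χ` of `D`; for
`z x ≤ δ₁`: `‖x-y‖ ≥ ρ - ρ/40 ≥ 39 r ≥ 10 r =: rw`. `r₃ = 50r/51`, `r₃⁻¹ = 1.02/r`, `t₀ = 0.95/r`: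
`4 (r₃⁻¹-t₀) = 0.28/r ≤ 0.46/r = (r₃⁻¹-rw⁻¹)/2`. `Qf_zero`, `lap_zero` (`O := ball x₀ (r/100)`, `cone`), `van_near` (`ball y r ⊆ U`): `x₀ ∈ O`,
contradiction. -/
theorem van_all {D : Set (Ed d)} {z : Ed d → ℝ} {δ : ℝ} {a : Ed d} {r₁ r₂ : ℝ} (hG : Geo D z δ a r₁ r₂)
    (hN : NeuP D z) (hU : UCP d) {k : ℕ} {T : JS (D \ ball a r₂) k →L[ℂ] ℂ} {C : ℝ}
    (hB : Bas D z a r₁ r₂ k T C) : Van T D := by
  have hDo : IsOpen D := by
    have h : D = {x | 0 < z x} := by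
      ext x
      exact hG.dom.pos x
    rw [h]
    exact isOpen_lt continuous_const hG.dom.smo.continuous
  have hr₂ : 0 < r₂ := hG.pos.trans hG.lt
  set O : Set (Ed d) := {x | x ∈ D ∧ ∃ ε > 0, Van T (ball x ε)} with hOdef
  have hOo : IsOpen O := by
    rw [Metric.isOpen_iff]
    rintro x ⟨hx, ε, hε, hxε⟩
    obtain ⟨ε', hε', h'⟩ := Metric.isOpen_iff.mp hDo x hx
    refine ⟨min (ε / 2) ε', lt_min (by positivity) hε', fun x' hx' => ⟨?_, ε / 2, by positivity, ?_⟩⟩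
    · exact h' (ball_subset_ball (min_le_right _ _) hx')
    · refine van_mono hxε (fun x'' hx'' => ?_)
      rw [mem_ball] at hx' hx'' ⊢
      have h1 := min_le_left (ε / 2) ε'
      have h2 := dist_triangle x'' x' x
      linarith
  have hOD : O ⊆ D := fun x hx => hx.1
  have haO : a ∈ O := by
    refine ⟨hG.sub (mem_closedBall_self hr₂.le), r₂, hr₂, ?_⟩
    exact van_off T isOpen_ball disjoint_sdiff_self_right
  have hVO : Van T O := van_local fun x hx => hx.2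
  set U := connectedComponentIn O a with hUdef
  have hUO : U ⊆ O := connectedComponentIn_subset O a
  have hVU : Van T U := van_mono hVO hUO
  have hUo : IsOpen U := hOo.connectedComponentIn
  have hUc : IsPreconnected U := isPreconnected_connectedComponentIn
  have haU : a ∈ U := mem_connectedComponentIn haO
  by_cases hUD : U = D
  · exact van_mono hVU hUD.ge
  exfalso
  obtain ⟨x₁, hx₁D, hx₁c, hx₁U⟩ := touch hG.dom.conn.isPreconnected hOo hOD haO hUD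
  obtain ⟨ρ, hρ, hρD⟩ := Metric.nhds_basis_closedBall.mem_iff.mp (hDo.mem_nhds hx₁D)
  obtain ⟨y, x₀, r, hr, hrρ, hyx₁, hyU, hballU, hx₀y, hx₀D, hx₀O⟩ :=
    touch2 (D := D) hOo haO hx₁c hx₁U hρ (ball_subset_closedBall.trans hρD)
  obtain ⟨Ω, ρ', hρ', hΩo, hΩc, haΩ, hyΩ, hΩb, hΩU⟩ := tube hUo hUc haU hyU
  -- the cut off
  have hKc : IsCompact (cthickening ρ' Ω ∪ closedBall y (50 / 51 * r)) :=
    (Metric.isCompact_of_isClosed_isBounded isClosed_cthickening hΩb.cthickening).union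
      (isCompact_closedBall _ _)
  have hKU : cthickening ρ' Ω ∪ closedBall y (50 / 51 * r) ⊆ U := by
    refine union_subset hΩU (fun x hx => hballU ?_)
    rw [mem_closedBall] at hx
    rw [mem_ball]
    linarith
  obtain ⟨χ, hχ, hχc, hχs, ⟨V, hVo, hKV, hV1⟩, hχ01⟩ := exists_cut hKc hUo hKU
  have hχV : ∀ x ∈ tsupport (fun x => 1 - χ x), x ∉ V := by
    intro x hx hxV
    have h1 : Disjoint V (Function.support fun x => 1 - χ x) := by
      rw [Set.disjoint_left]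
      intro x' hx' h
      rw [Function.mem_support] at h
      exact h (by rw [hV1 x' hx', sub_self])
    have h2 : Disjoint V (closure (Function.support fun x => 1 - χ x)) := h1.closure_right hVo
    exact Set.disjoint_left.mp h2 hxV hx
  have hSΩ : ∀ x ∈ tsupport (fun x => 1 - χ x), ∀ w ∈ Ω, ρ' ≤ dist x w := by
    intro x hx w hw
    by_contra h
    push Not at h
    exact hχV x hx (hKV (Or.inl (mem_cthickening_of_dist_le x w ρ' Ω hw h.le)))
  -- the collar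
  have hCc : IsCompact (closedBall x₁ ρ ∪ closedBall a r₂ ∪ tsupport χ) :=
    ((isCompact_closedBall _ _).union (isCompact_closedBall _ _)).union hχc
  have hCD : closedBall x₁ ρ ∪ closedBall a r₂ ∪ tsupport χ ⊆ D :=
    union_subset (union_subset hρD hG.sub) (hχs.trans (hUO.trans hOD))
  obtain ⟨xm, hxm, hmin⟩ := hCc.exists_isMinOn ⟨a, Or.inl (Or.inr (mem_closedBall_self hr₂.le))⟩
    hG.dom.smo.continuous.continuousOn
  have hm0 : 0 < z xm := (hG.dom.pos xm).mp (hCD hxm)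
  set δ₁ := min δ (z xm / 2) with hδ₁
  have hδ₁0 : 0 < δ₁ := lt_min hG.dom.δ0 (by positivity)
  have hnot : ∀ x, z x ≤ δ₁ → x ∉ closedBall x₁ ρ ∪ closedBall a r₂ ∪ tsupport χ := by
    intro x hx hmem
    have h1 : z xm ≤ z x := hmin hmem
    have h2 : δ₁ ≤ z xm / 2 := min_le_right _ _
    linarith
  have hcol : ∀ x ∈ D, z x ≤ δ₁ → x ∉ ball a r₂ ∧ x ∉ tsupport χ := by
    intro x _ hx
    have h1 := hnot x hx
    exact ⟨fun h => h1 (Or.inl (Or.inr (ball_subset_closedBall h))), fun h => h1 (Or.inr h)⟩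
  have hw : ∀ x ∈ D, z x ≤ δ₁ → 10 * r ≤ ‖x - y‖ := by
    intro x _ hx
    have h1 : ρ < dist x x₁ := by
      by_contra h
      push Not at h
      exact hnot x hx (Or.inl (Or.inl (mem_closedBall.mpr h)))
    have h2 := dist_triangle x y x₁
    rw [← dist_eq_norm]
    linarith
  have h3 : ∀ x, ‖x - y‖ < 50 / 51 * r → χ x = 1 := by
    intro x hx
    refine hV1 x (hKV (Or.inr ?_))
    rw [mem_closedBall, dist_eq_norm]
    exact hx.le
  set e : Ed d := r⁻¹ • (x₀ - y) with he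
  have he1 : ‖e‖ = 1 := by
    rw [he, norm_smul, Real.norm_of_nonneg (by positivity), ← dist_eq_norm, hx₀y]
    field_simp
  have hr₃ : (50 / 51 * r)⁻¹ = 51 / 50 * r⁻¹ := by
    rw [mul_inv]
    norm_num
  have hrw : (10 * r)⁻¹ = 1 / 10 * r⁻¹ := by
    rw [mul_inv]
    norm_num
  have hri : 0 < r⁻¹ := inv_pos.mpr hr
  have hQ : ∀ (i j : Fin d) (H : Ed d → ℂ), Smo H → HasCompactSupport H →
      (∀ Y ∈ tsupport H, 95 / 100 * r⁻¹ < ⟪e, Y⟫_ℝ) → Qf T χ y i j H = 0 := by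
    intro i j H hH hHc hHs
    refine Qf_zero hG hN hB (hUO.trans hOD) hVU hχ hχc hχs hδ₁0 (min_le_left _ _) hcol hρ' hSΩ hΩo hΩc
      hΩb ⟨a, haΩ, mem_ball_self hG.pos⟩ hyΩ (r₃ := 50 / 51 * r) (rw := 10 * r) (by positivity)
      (by linarith) h3 hw he1 (t₀ := 95 / 100 * r⁻¹) ?_ ?_ i j hH hHc hHs
    · rw [hr₃]
      linarith
    · rw [hr₃, hrw]
      linarith
  have hRb : Bornology.IsBounded (D \ ball a r₂) := hG.dom.bdd.subset sdiff_subset
  have hL : ∀ E : Fin d → Fin d → Ed d → ℂ, IsE (ball x₀ (r / 100)) E →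
      T (jt (D \ ball a r₂) k (DV fun i j x => lapl (E i j) x)) = 0 := by
    intro E hE
    exact lap_zero hG.two hRb T hVU hχ hχc hχs (by positivity) h3 hQ (fun x hx => cone hr hx₀y hx) hE
  obtain ⟨ε, hε, hVε⟩ := van_near hU T hr hx₀y (δ₀ := r / 100) (by positivity) (by linarith)
    (van_mono hVU hballU) hL
  exact hx₀O ⟨hx₀D, ε, hε, hVε⟩

end Pool.Agent.Lib.MP_79abb3_an.W.C
end

section

/-!
Theorem W (MP_79abb3_an), block C (density of the drifts). THE DENSITY THEOREM.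
-/

set_option autoImplicit false
set_option linter.unusedSectionVars false
set_option linter.unusedVariables false

open MeasureTheory Set Filter Topology Function Metric
open scoped ENNReal InnerProductSpace BoundedContinuousFunction

namespace Pool.Agent.Lib.MP_79abb3_an.W.C

variable {d : ℕ} {F : Type} [NormedAddCommGroup F] [NormedSpace ℝ F]

private theorem cn_norm_rv (ζ : Cd d) : ‖rv ζ‖ ≤ 1 * ‖ζ‖ := by
  rw [one_mul, EuclideanSpace.norm_eq, EuclideanSpace.norm_eq]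
  refine Real.sqrt_le_sqrt (Finset.sum_le_sum fun i _ => ?_)
  refine pow_le_pow_left₀ (norm_nonneg _) ?_ 2
  show ‖(ζ i).re‖ ≤ ‖ζ i‖
  rw [Real.norm_eq_abs]
  exact Complex.abs_re_le_norm _

/-- the real part as a continuous linear map -/
private noncomputable def cnL (d : ℕ) : Cd d →L[ℝ] Ed d :=
  LinearMap.mkContinuous
    { toFun := rv
      map_add' := fun x y => by
        ext i
        simp [rv]
      map_smul' := fun c x => by
        ext i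
        simp [rv] } 1 cn_norm_rv

private theorem cnL_apply (ζ : Cd d) : cnL d ζ = rv ζ := rfl

private theorem cnL_norm : ‖cnL d‖ ≤ 1 := LinearMap.mkContinuous_norm_le _ zero_le_one _

private theorem cn_smo {f : Ed d → ℝ} (hf : Smo f) : Smo fun x => ((f x : ℝ) : ℂ) :=
  Complex.ofRealCLM.contDiff.comp hf

private theorem cn_supp {f : Ed d → ℝ} : support (fun x => ((f x : ℝ) : ℂ)) = support f := by
  ext x
  simp

private theorem cn_isE {O : Set (Ed d)} {E : Fin d → Fin d → Ed d → ℝ} (h : IsE O E) :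
    IsE O fun i j x => ((E i j x : ℝ) : ℂ) where
  smo i j := cn_smo (h.smo i j)
  cpt i j := (h.cpt i j).comp_left (g := fun r : ℝ => (r : ℂ)) (by simp)
  supp i j := by
    rw [tsupport, cn_supp]
    exact h.supp i j
  anti i j x := by
    rw [h.anti i j x]
    push_cast
    rfl

private theorem cn_pd {f : Ed d → ℝ} (hf : Smo f) (j : Fin d) (x : Ed d) :
    pd j (fun x => ((f x : ℝ) : ℂ)) x = ((pd j f x : ℝ) : ℂ) := by
  have h1 : HasFDerivAt f (fderiv ℝ f x) x := (hf.differentiable (by simp)).differentiableAt.hasFDerivAt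
  have h2 : HasFDerivAt (fun x => ((f x : ℝ) : ℂ)) ((Complex.ofRealCLM).comp (fderiv ℝ f x)) x :=
    Complex.ofRealCLM.hasFDerivAt.comp x h1
  show fderiv ℝ (fun x => ((f x : ℝ) : ℂ)) x (eb j) = _
  rw [h2.fderiv]
  rfl

private theorem cn_ok_smul {R : Set (Ed d)} {f : Ed d → Cd d} (hf : OK R f) (c : ℂ) : OK R fun x => c • f x :=
  ok_clm ((c • ContinuousLinearMap.id ℂ (Cd d)).restrictScalars ℝ) hf

/-- PROOF. Let `V₀ = DV (E : complex)`. If there is no complex family for `(ε, κ/2)`, `exists_T` gives `T` with `Bas` and `T (jt V₀) ≠ 0`, but `van_all`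
gives `T (jt (DV E)) = 0`. So there is a complex family `p_j, q_j, c_j`; the real family: `(re p_j, re q_j, c_j)`, `(im p_j, -im q_j, c_j)`,
`n' = 2n`, `∑ c² ≤ κ`. On `R = D \ ball a r₂`, near every point, `∑ VR - DR E = re (∑ VV - V₀)` (`VV_re`), so its derivatives are bounded by
those of `∑ VV - V₀` (`nrm_clm`), `bn_of_jt`. -/
theorem density {D : Set (Ed d)} {z : Ed d → ℝ} {δ : ℝ} {a : Ed d} {r₁ r₂ : ℝ} (hG : Geo D z δ a r₁ r₂)
    (hN : NeuP D z) (hU : UCP d) (k : ℕ) {E : Fin d → Fin d → Ed d → ℝ} (hE : IsE D E) {ε κ : ℝ} (hε : 0 < ε)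
    (hκ : 0 < κ) :
    ∃ (n : ℕ) (p q : Fin n → Ed d → ℝ) (c : Fin n → ℝ), (∀ j, Adm D z (ball a r₁) (p j)) ∧
      (∀ j, Adm D z (ball a r₁) (q j)) ∧ (∀ j, Slip D z k (p j) (c j)) ∧ (∀ j, Slip D z k (q j) (c j)) ∧
      ∑ j, c j ^ 2 ≤ κ ∧ BN (D \ ball a r₂) k (fun x => ∑ j, VR (p j) (q j) x - DR E x) ε := by
  set EC : Fin d → Fin d → Ed d → ℂ := fun i j x => ((E i j x : ℝ) : ℂ) with hEC
  have hEE : IsE D EC := cn_isE hE
  have hex : ∃ (n : ℕ) (p q : Fin n → Ed d → ℂ) (c : Fin n → ℝ), (∀ j, Adm D z (ball a r₁) (p j)) ∧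
      (∀ j, Adm D z (ball a r₁) (q j)) ∧ (∀ j, Slip D z k (p j) (c j)) ∧ (∀ j, Slip D z k (q j) (c j)) ∧
      ∑ j, c j ^ 2 ≤ κ / 2 ∧ ‖jt (D \ ball a r₂) k (DV EC) - ∑ j, jt (D \ ball a r₂) k (VV (p j) (q j))‖ ≤ ε := by
    by_contra hno
    obtain ⟨T, C, hB, hne⟩ := exists_T hG k (DV EC) hε (half_pos hκ) hno
    exact hne (van_all hG hN hU hB EC hEE)
  obtain ⟨n, p, q, c, hp, hq, hsp, hsq, hc, hj⟩ := hex
  have hDo : IsOpen D := by
    have h1 : D = z ⁻¹' Ioi 0 := by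
      ext x
      exact hG.dom.pos x
    rw [h1]
    exact isOpen_Ioi.preimage hG.dom.smo.continuous
  have hRb : Bornology.IsBounded (D \ ball a r₂) := hG.dom.bdd.subset sdiff_subset
  have hRR : D \ ball a r₂ ⊆ D \ ball a r₁ := sdiff_subset_sdiff_right (ball_subset_ball hG.lt.le)
  -- all functions are smooth near the points of `R`
  have hnear : ∀ x ∈ D \ ball a r₂, ∀ᶠ y in 𝓝 x, y ∈ D \ ball a r₁ := by
    intro x hx
    have h1 : x ∉ closedBall a r₁ := fun h => hx.2 (closedBall_subset_ball hG.lt h)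
    filter_upwards [hDo.mem_nhds hx.1, isClosed_closedBall.isOpen_compl.mem_nhds h1] with y hy1 hy2
    exact ⟨hy1, fun h => hy2 (ball_subset_closedBall h)⟩
  have okV : ∀ j, OK (D \ ball a r₂) (VV (p j) (q j)) := by
    intro j
    rw [VV_eq]
    exact cn_ok_smul (ok_DV fun i l => ok_AA (ok_mono (hp j).ok hRR) (ok_mono (hq j).ok hRR) i l) _
  have okE : OK (D \ ball a r₂) (DV EC) := ok_DV fun i j => ok_of_smo (hEE.smo i j) hRb
  have okS : OK (D \ ball a r₂) (fun x => ∑ j, VV (p j) (q j) x) := ok_sum _ fun j _ => okV j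
  have hS : BN (D \ ball a r₂) k (fun x => ∑ j, VV (p j) (q j) x - DV EC x) ε := by
    refine bn_of_jt (ok_sub okS okE) ?_
    rw [jt_sub k okS okE, jt_sum k _ fun j _ => okV j, norm_sub_rev]
    exact hj
  have okSE := ok_sub okS okE
  refine ⟨n + n, Fin.append (fun j x => (p j x).re) (fun j x => (p j x).im),
    Fin.append (fun j x => (q j x).re) (fun j x => -(q j x).im), Fin.append c c, ?_, ?_, ?_, ?_, ?_, ?_⟩
  · intro j
    refine Fin.addCases (fun i => ?_) (fun i => ?_) j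
    · rw [Fin.append_left]; exact adm_re (hp i)
    · rw [Fin.append_right]; exact adm_im (hp i)
  · intro j
    refine Fin.addCases (fun i => ?_) (fun i => ?_) j
    · rw [Fin.append_left]; exact adm_re (hq i)
    · rw [Fin.append_right]; exact adm_neg (adm_im (hq i))
  · intro j
    refine Fin.addCases (fun i => ?_) (fun i => ?_) j
    · rw [Fin.append_left, Fin.append_left]; exact (slip_re hG (hp i) (hsp i)).1
    · rw [Fin.append_right, Fin.append_right]; exact (slip_re hG (hp i) (hsp i)).2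
  · intro j
    refine Fin.addCases (fun i => ?_) (fun i => ?_) j
    · rw [Fin.append_left, Fin.append_left]; exact (slip_re hG (hq i) (hsq i)).1
    · rw [Fin.append_right, Fin.append_right]; exact slip_neg (slip_re hG (hq i) (hsq i)).2
  · rw [Fin.sum_univ_add]
    simp only [Fin.append_left, Fin.append_right]
    linarith
  · have hL : BN (D \ ball a r₂) k (fun x => cnL d (∑ j, VV (p j) (q j) x - DV EC x)) ε := by
      intro i hi x hx
      refine (nrm_clm (cnL d) (okSE.1 x hx) i).trans ?_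
      calc ‖cnL d‖ * ‖iteratedFDeriv ℝ i (fun x => ∑ j, VV (p j) (q j) x - DV EC x) x‖
          ≤ 1 * ‖iteratedFDeriv ℝ i (fun x => ∑ j, VV (p j) (q j) x - DV EC x) x‖ :=
            mul_le_mul_of_nonneg_right cnL_norm (norm_nonneg _)
        _ ≤ ε := by rw [one_mul]; exact hS i hi x hx
    refine bn_congr hL fun x hx => ?_
    filter_upwards [hnear x hx] with y hy
    rw [cnL_apply]
    ext i
    have h1 : (rv (∑ j, VV (p j) (q j) y - DV EC y)) i =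
        ∑ j, (VV (p j) (q j) y i).re - (DV EC y i).re := by
      show ((∑ j, VV (p j) (q j) y - DV EC y) i).re = _
      rw [PiLp.sub_apply, Complex.sub_re]
      congr 1
      rw [WithLp.ofLp_sum, Finset.sum_apply, Complex.re_sum]
    have h2 : (DV EC y i).re = DR E y i := by
      show (∑ j, pd j (EC i j) y).re = ∑ j, pd j (E i j) y
      rw [Complex.re_sum]
      refine Finset.sum_congr rfl fun j _ => ?_
      rw [hEC]
      simp only
      rw [cn_pd (hE.smo i j), Complex.ofReal_re]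
    rw [h1, h2]
    have h3 : ∀ j, (VV (p j) (q j) y i).re = VR (fun x => (p j x).re) (fun x => (q j x).re) y i +
        VR (fun x => (p j x).im) (fun x => -(q j x).im) y i := fun j =>
      VV_re ((hp j).ok.1 y hy) ((hq j).ok.1 y hy) i
    simp only [h3]
    rw [Finset.sum_add_distrib]
    show _ = (∑ j, VR (Fin.append (fun j x => (p j x).re) (fun j x => (p j x).im) j)
      (Fin.append (fun j x => (q j x).re) (fun j x => -(q j x).im) j) y - DR E y) i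
    rw [PiLp.sub_apply, WithLp.ofLp_sum, Finset.sum_apply, Fin.sum_univ_add]
    simp only [Fin.append_left, Fin.append_right]

end Pool.Agent.Lib.MP_79abb3_an.W.C
end

section

/-!
Theorem W (MP_79abb3_an), block C: the input from block B (Neumann problem).
-/

set_option autoImplicit false
set_option linter.unusedSectionVars false
set_option linter.unusedVariables false

open MeasureTheory Set Filter Topology Function Metric
open scoped ENNReal InnerProductSpace BoundedContinuousFunction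

namespace Pool.Agent.Lib.MP_79abb3_an.W.C

variable {d : ℕ} {F : Type} [NormedAddCommGroup F] [NormedSpace ℝ F]

theorem dom_of {D : Set (Ed d)} {z : Ed d → ℝ} {δ : ℝ} (h : W.Dom D z δ) : Dom D z δ where
  smo := h.smo
  pos := h.pos
  bdd := h.bdd
  conn := h.conn
  δ0 := h.δ0
  unit := h.unit

theorem lapl_eq_lap (f : Ed d → ℝ) : lapl f = W.lap f := rfl

theorem dn_eq (z q : Ed d → ℝ) (x : Ed d) : fderiv ℝ q x (gradient z x) = ⟪gradient z x, gradient q x⟫_ℝ := by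
  rw [real_inner_comm, inner_gradient_left]

theorem bd_ok {D : Set (Ed d)} (hD : IsOpen D) {f : Ed d → F} : BD D f ↔ OK D f :=
  ⟨fun h => ⟨fun x hx => h.1.contDiffAt (hD.mem_nhds hx), h.2⟩,
    fun h => ⟨fun x hx => (h.1 x hx).contDiffWithinAt, h.2⟩⟩

theorem bd_lapl {D : Set (Ed d)} (hD : IsOpen D) {f : Ed d → F} (hf : BD D f) : BD D (lapl f) :=
  (bd_ok hD).2 (ok_sum _ fun i _ => ok_pd (ok_pd ((bd_ok hD).1 hf) i) i)

theorem cxa_itd {f : Ed d → F} (c : F) (x : Ed d) {i : ℕ} (hi : 1 ≤ i) :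
    iteratedFDeriv ℝ i (fun y => f y - c) x = iteratedFDeriv ℝ i f x := by
  obtain ⟨j, rfl⟩ : ∃ j, i = j + 1 := ⟨i - 1, by omega⟩
  have h1 : fderiv ℝ (fun y => f y - c) = fderiv ℝ f := by
    funext y
    exact fderiv_sub_const c
  ext m
  rw [iteratedFDeriv_succ_apply_right, iteratedFDeriv_succ_apply_right, h1]

/-- The input from block B. -/
theorem neuP_of {D : Set (Ed d)} {z : Ed d → ℝ} {δ : ℝ} (h : W.Dom D z δ) : NeuP D z where
  ex := by
    intro f hf h0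
    obtain ⟨q, hq, he, hn, -⟩ := h.neumann hf h0
    refine ⟨q, hq, he, ?_⟩
    obtain ⟨C, hC⟩ := hn
    refine ⟨C, fun x hx => ?_⟩
    have := hC x hx
    simp only at this ⊢
    rw [dn_eq]
    exact this
  est := by
    intro k
    obtain ⟨m, C, hC, H⟩ := h.neumann_C k
    refine ⟨m, C, hC, fun q hq hn c hc hb i hi1 hik x hx => ?_⟩
    have hD : IsOpen D := h.toB.isOpen
    have hμ : volume D ≠ ∞ := h.bdd.measure_lt_top.ne
    have hμ0 : volume D ≠ 0 := (hD.measure_pos volume h.conn.nonempty).ne'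
    have hμr : (volume D).toReal ≠ 0 := (ENNReal.toReal_pos hμ0 hμ).ne'
    have : IsFiniteMeasure (volume.restrict D) := ⟨by
      rw [Measure.restrict_apply_univ]
      exact h.bdd.measure_lt_top⟩
    obtain ⟨C0, hC0⟩ := hq.2 0
    have hqi : IntegrableOn q D := by
      refine Integrable.mono' (integrable_const C0) (hq.1.continuousOn.aestronglyMeasurable hD.measurableSet) ?_
      rw [ae_restrict_iff' hD.measurableSet]
      refine Eventually.of_forall fun y hy => ?_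
      have := hC0 y hy
      rwa [norm_iteratedFDeriv_zero] at this
    set c₀ : ℝ := (volume D).toReal⁻¹ * ∫ y in D, q y with hc₀
    set q' : Ed d → ℝ := fun y => q y - c₀ with hq'
    have hfd : fderiv ℝ q' = fderiv ℝ q := by
      funext y
      exact fderiv_sub_const c₀
    have hpd : ∀ i, pd i q' = pd i q := by
      intro i
      funext y
      show fderiv ℝ q' y (eb i) = fderiv ℝ q y (eb i)
      rw [hfd]
    have hq'b : BD D q' := (bd_ok hD).2 (ok_sub ((bd_ok hD).1 hq) (ok_const D c₀))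
    have hlap : lapl q' = lapl q := by
      funext y
      show ∑ i, pd i (pd i q') y = ∑ i, pd i (pd i q) y
      simp only [hpd]
    have hgr : gradient q' = gradient q := by
      funext y
      show (InnerProductSpace.toDual ℝ (Ed d)).symm (fderiv ℝ q' y) = _
      rw [hfd]
      rfl
    have hn' : W.Oz D z fun x => ⟪gradient z x, gradient q' x⟫_ℝ := by
      obtain ⟨C1, hC1⟩ := hn
      refine ⟨C1, fun y hy => ?_⟩
      have := hC1 y hy
      simp only at this ⊢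
      rw [hgr, ← dn_eq]
      exact this
    have h0 : ∫ y in D, q' y = 0 := by
      show ∫ y in D, (q y - c₀) = 0
      rw [integral_sub hqi (integrable_const c₀)]
      rw [setIntegral_const, hc₀]
      rw [smul_eq_mul, measureReal_def, ← mul_assoc, mul_inv_cancel₀ hμr, one_mul, sub_self]
    have hb' : ∀ j ≤ m, ∀ y ∈ D, ‖iteratedFDeriv ℝ j (lapl q) y‖ ≤ c := hb
    have h1 := H (lapl q) q' c (bd_lapl hD hq) hq'b (fun y hy => by rw [← lapl_eq_lap, hlap]) hn' h0 hb' i hik x hx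
    rwa [hq', cxa_itd c₀ x hi1] at h1

end Pool.Agent.Lib.MP_79abb3_an.W.C
end

section

/-!
Theorem W (MP_79abb3_an), block C: cut off of an admissible potential and of its gradient.
-/

set_option autoImplicit false
set_option linter.unusedSectionVars false
set_option linter.unusedVariables false

open MeasureTheory Set Filter Topology Function Metric
open scoped ENNReal RealInnerProductSpace

namespace Pool.Agent.Lib.MP_79abb3_an.W

variable {d : ℕ} {D : Set (En d)} {z : En d → ℝ} {δ : ℝ}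

/-- real products -/
theorem cxb_mul {R : Set (En d)} {f g : En d → ℝ} (hf : C.OK R f) (hg : C.OK R g) :
    C.OK R (fun x => f x * g x) := by
  have h1 := C.ok_clm Complex.reCLM (C.ok_mul (C.ok_ofReal hf) (C.ok_ofReal hg))
  have h2 : (fun x => Complex.reCLM (((f x : ℝ) : ℂ) * ((g x : ℝ) : ℂ))) = fun x => f x * g x := by
    funext x
    rw [← Complex.ofReal_mul, Complex.reCLM_apply, Complex.ofReal_re]
  rw [h2] at h1
  exact h1

/-- fields from their components -/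
theorem cxb_vec {R : Set (En d)} {X : En d → En d} (hX : ∀ i, C.OK R fun x => X x i) : C.OK R X := by
  have h1 : X = fun x => ∑ i, (ContinuousLinearMap.toSpanSingleton ℝ (ei i : En d)) (X x i) := by
    funext x
    ext j
    simp [ContinuousLinearMap.toSpanSingleton_apply, ei, Finset.sum_apply, Pi.single_apply]
  rw [h1]
  exact C.ok_sum _ fun i _ => C.ok_clm _ (hX i)

/-- glueing with a function which is locally zero -/
theorem cxb_glue {F : Type} [NormedAddCommGroup F] [NormedSpace ℝ F] {R O : Set (En d)} {f : En d → F}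
    (hf : C.OK (R \ O) f) (h0 : ∀ x ∈ O, f =ᶠ[𝓝 x] fun _ => 0) : BD R f := by
  refine ⟨fun x hx => ?_, fun m => ?_⟩
  · by_cases hO : x ∈ O
    · exact (contDiffAt_const.congr_of_eventuallyEq (h0 x hO)).contDiffWithinAt
    · exact (hf.1 x ⟨hx, hO⟩).contDiffWithinAt
  · obtain ⟨c, hc⟩ := hf.2 m
    refine ⟨max c 0, fun x hx => ?_⟩
    by_cases hO : x ∈ O
    · have h1 : iteratedFDeriv ℝ m f x = iteratedFDeriv ℝ m (fun _ : En d => (0 : F)) x :=
        (Filter.EventuallyEq.iteratedFDeriv ℝ (h0 x hO) m).eq_of_nhds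
      rw [h1]
      have h2 : iteratedFDeriv ℝ m (fun _ : En d => (0 : F)) x = 0 := by
        have := iteratedFDeriv_fun_zero (𝕜 := ℝ) (E := En d) (F := F) (n := m)
        exact congrFun this x
      rw [h2, norm_zero]
      exact le_max_right _ _
    · exact (hc x ⟨hx, hO⟩).trans (le_max_left _ _)

/-- Cut off of an admissible potential and of its gradient. PROOF. Let `s₀ = (3 r₁ + r₂) / 4 ∈ (r₁, s)`, `s = (r₁ + r₂) / 2`, `χ = 1 - β` with the bump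
`β` (`ContDiffBump`, `rIn = s₀`, `rOut = s`), `p' = χ p`, `X = χ ∇p`. Both vanish in `ball a s₀`, which contains `closedBall a r₁`, and at the other points
of `D` all functions are smooth with bounded derivatives (`C.OK (D \ ball a r₁) p`; products of real functions: `ContinuousLinearMap.norm_iteratedFDeriv_le_of_bilinear`
or `norm_iteratedFDeriv_smul_le`, bounds at one point `x` with `ContDiffAt` at `x` as in `C.nrm_mul` of `CAb.lean`). Outside of `closedBall a s`: `χ = 1` near the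
point, so `X = ∇p` near `x`, `dv (gradient p) x = lap p x = 0` (`divg_gradient_eq` of `BX1.lean` for a small open ball around `x`). `⟪∇z, X⟫ = χ ∂_n p`, `Adm.tan`. -/
theorem cut_adm (h : Dom D z δ) {a : En d} {r₁ r₂ : ℝ} (h1 : 0 < r₁) (h2 : r₁ < r₂) (hsub : closedBall a r₂ ⊆ D)
    {p : En d → ℝ} (hp : C.Adm D z (ball a r₁) p) : ∃ (p' : En d → ℝ) (X : En d → En d), BD D p' ∧ BD D X ∧
      (Oz D z fun x => ⟪gradient z x, X x⟫) ∧
      (∀ x, x ∉ closedBall a ((r₁ + r₂) / 2) → p' =ᶠ[𝓝 x] p ∧ X =ᶠ[𝓝 x] gradient p) ∧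
      ∀ x ∈ D, x ∉ closedBall a ((r₁ + r₂) / 2) → dv X x = 0 := by
  set s : ℝ := (r₁ + r₂) / 2 with hs
  set s₀ : ℝ := (3 * r₁ + r₂) / 4 with hs₀
  have hs₀s : s₀ < s := by rw [hs, hs₀]; linarith
  have hs₀0 : 0 < s₀ := by rw [hs₀]; linarith
  have hr₁s₀ : r₁ < s₀ := by rw [hs₀]; linarith
  have hsr₂ : s < r₂ := by rw [hs]; linarith
  let β : ContDiffBump a := ⟨s₀, s, hs₀0, hs₀s⟩
  have hDo : IsOpen D := h.toB.isOpen
  set χ : En d → ℝ := fun x => 1 - β x with hχ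
  have hχS : Smo χ := contDiff_const.sub β.contDiff
  have hχ0 : ∀ x ∈ closedBall a s₀, χ x = 0 := fun x hx => by
    rw [hχ]
    show 1 - β x = 0
    rw [β.one_of_mem_closedBall hx, sub_self]
  have hχ1 : ∀ x, x ∉ closedBall a s → χ x = 1 := fun x hx => by
    rw [hχ]
    show 1 - β x = 1
    rw [β.zero_of_le_dist (by rw [mem_closedBall] at hx; push Not at hx; exact hx.le), sub_zero]
  have hχb : ∀ x, |χ x| ≤ 1 := fun x => by
    rw [hχ]
    show |1 - β x| ≤ 1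
    rw [abs_le]
    constructor <;> linarith [β.nonneg (x := x), β.le_one (x := x)]
  have hsubs : D \ ball a s₀ ⊆ D \ ball a r₁ := sdiff_subset_sdiff_right (ball_subset_ball hr₁s₀.le)
  have hpok : C.OK (D \ ball a s₀) p := C.ok_mono hp.ok hsubs
  have hχok : C.OK (D \ ball a s₀) χ := C.ok_of_smo hχS (h.bdd.subset sdiff_subset)
  have hgi : ∀ x i, gradient p x i = C.pd i p x := by
    intro x i
    rw [← gd_eq_gradient]
    exact gd_apply p x i
  have hnear0 : ∀ x ∈ ball a s₀, ∀ᶠ y in 𝓝 x, χ y = 0 := fun x hx => by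
    filter_upwards [isOpen_ball.mem_nhds hx] with y hy
    exact hχ0 y (ball_subset_closedBall hy)
  have hnear1 : ∀ x, x ∉ closedBall a s → ∀ᶠ y in 𝓝 x, χ y = 1 := fun x hx => by
    filter_upwards [isClosed_closedBall.isOpen_compl.mem_nhds hx] with y hy
    exact hχ1 y hy
  refine ⟨fun x => χ x * p x, fun x => χ x • gradient p x, ?_, ?_, ?_, ?_, ?_⟩
  · refine cxb_glue (O := ball a s₀) (cxb_mul hχok hpok) fun x hx => ?_
    filter_upwards [hnear0 x hx] with y hy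
    rw [hy, zero_mul]
  · refine cxb_glue (O := ball a s₀) (cxb_vec fun i => ?_) fun x hx => ?_
    · have h3 : (fun x => (χ x • gradient p x) i) = fun x => χ x * C.pd i p x := by
        funext x
        rw [← hgi x i]
        rfl
      rw [h3]
      exact cxb_mul hχok (C.ok_pd hpok i)
    · filter_upwards [hnear0 x hx] with y hy
      rw [hy, zero_smul]
  · obtain ⟨c, hc⟩ := hp.tan
    refine ⟨|c|, fun x hx => ?_⟩
    have hz : 0 < z x := (h.pos x).mp hx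
    show ‖⟪gradient z x, χ x • gradient p x⟫‖ ≤ |c| * z x
    by_cases hxb : x ∈ ball a s₀
    · rw [hχ0 x (ball_subset_closedBall hxb), zero_smul, inner_zero_right, norm_zero]
      positivity
    · have h3 := hc x ⟨hx, fun h4 => hxb (ball_subset_ball hr₁s₀.le h4)⟩
      have h4 : ⟪gradient z x, gradient p x⟫ = fderiv ℝ p x (gradient z x) := by
        rw [real_inner_comm]
        unfold gradient
        rw [InnerProductSpace.toDual_symm_apply]
      rw [real_inner_smul_right, h4, norm_mul, Real.norm_eq_abs (χ x)]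
      calc |χ x| * ‖fderiv ℝ p x (gradient z x)‖ ≤ 1 * ‖fderiv ℝ p x (gradient z x)‖ :=
            mul_le_mul_of_nonneg_right (hχb x) (norm_nonneg _)
        _ ≤ c * z x := by rw [one_mul]; exact h3
        _ ≤ |c| * z x := mul_le_mul_of_nonneg_right (le_abs_self c) hz.le
  · intro x hx
    constructor
    · filter_upwards [hnear1 x hx] with y hy
      rw [hy, one_mul]
    · filter_upwards [hnear1 x hx] with y hy
      rw [hy, one_smul]
  · intro x hx hxs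
    have hU : IsOpen (D \ closedBall a s) := hDo.sdiff isClosed_closedBall
    have hUsub : ∀ y ∈ D \ closedBall a s, y ∈ D \ ball a r₁ := fun y hy =>
      ⟨hy.1, fun h4 => hy.2 (ball_subset_closedBall (ball_subset_ball (hr₁s₀.le.trans hs₀s.le) h4))⟩
    have h3 : ContDiffOn ℝ ((⊤ : ℕ∞) : WithTop ℕ∞) p (D \ closedBall a s) := fun y hy =>
      (hp.ok.1 y (hUsub y hy)).contDiffWithinAt
    have h4 : dv (fun x => χ x • gradient p x) x = dv (gradient p) x := by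
      have h5 : (fun x => χ x • gradient p x) =ᶠ[𝓝 x] gradient p := by
        filter_upwards [hnear1 x hxs] with y hy
        rw [hy, one_smul]
      unfold dv pd
      rw [h5.fderiv_eq]
    rw [h4, dv_eq_divg, divg_gradient_eq hU h3 ⟨hx, hxs⟩]
    exact hp.harm x (hUsub x ⟨hx, hxs⟩)

end Pool.Agent.Lib.MP_79abb3_an.W
end

section

/-!
Theorem W (MP_79abb3_an), block C: correction of the divergence in a ball.
-/

set_option autoImplicit false
set_option linter.unusedSectionVars false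
set_option linter.unusedVariables false

open MeasureTheory Set Filter Topology Function Metric
open scoped ENNReal RealInnerProductSpace

namespace Pool.Agent.Lib.MP_79abb3_an.W

variable {d : ℕ} {D : Set (En d)} {z : En d → ℝ} {δ : ℝ}

/-- A field `X` with divergence supported in `closedBall a s` is made divergence free by a field with compact support in `ball a r₂`.
PROOF. `g x = dv X x` for `x ∈ D`, `0` else: smooth (near a point of `closedBall a r₂ ⊆ D` it is `dv X`, `BD D X`; elsewhere it is `0` near the point, since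
`g = 0` off `closedBall a s`), `tsupport g ⊆ closedBall a s`. `∫ g = ∫ x in D, dv X x = 0` (`Dom.gaussB`, `BX1.lean`). `B.exists_div` (`BV3.lean`) for the
domain `ball a r₂`, `K = closedBall a s`, and any test function `θ` in `ball a r₂` with integral `1` (normed `ContDiffBump`): `divg v = g - 0`. -/
theorem div_corr (h : Dom D z δ) {a : En d} {s r₂ : ℝ} (h0 : 0 < s) (h2 : s < r₂) (hsub : closedBall a r₂ ⊆ D)
    {X : En d → En d} (hX : BD D X) (hn : Oz D z fun x => ⟪gradient z x, X x⟫)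
    (hs : ∀ x ∈ D, x ∉ closedBall a s → dv X x = 0) :
    ∃ v : En d → En d, Smo v ∧ HasCompactSupport v ∧ tsupport v ⊆ ball a r₂ ∧ ∀ x ∈ D, dv v x = dv X x := by
  have hDo : IsOpen D := h.toB.isOpen
  have hball : closedBall a s ⊆ D := (closedBall_subset_closedBall h2.le).trans hsub
  have hdv : ContDiffOn ℝ ((⊤ : ℕ∞) : WithTop ℕ∞) (dv X) D := by
    have h1 : ContDiffOn ℝ ((⊤ : ℕ∞) : WithTop ℕ∞) (fderiv ℝ X) D := hX.1.fderiv_of_isOpen hDo (by norm_cast)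
    have h3 : dv X = fun x => ∑ i, (EuclideanSpace.proj i : En d →L[ℝ] ℝ) (fderiv ℝ X x (ei i)) := rfl
    rw [h3]
    refine ContDiffOn.sum fun i _ => ?_
    exact (EuclideanSpace.proj i : En d →L[ℝ] ℝ).contDiff.comp_contDiffOn (h1.clm_apply contDiffOn_const)
  set g : En d → ℝ := D.indicator (dv X) with hg
  have hg0 : ∀ x, x ∉ closedBall a s → g x = 0 := by
    intro x hx
    by_cases hxD : x ∈ D
    · rw [hg, indicator_of_mem hxD]
      exact hs x hxD hx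
    · rw [hg, indicator_of_notMem hxD]
  have hgS : Smo g := by
    refine contDiff_iff_contDiffAt.2 fun x => ?_
    by_cases hxD : x ∈ D
    · have h1 : g =ᶠ[𝓝 x] dv X := by
        filter_upwards [hDo.mem_nhds hxD] with y hy
        rw [hg, indicator_of_mem hy]
      exact (hdv.contDiffAt (hDo.mem_nhds hxD)).congr_of_eventuallyEq h1
    · have h1 : g =ᶠ[𝓝 x] fun _ => (0 : ℝ) := by
        filter_upwards [isClosed_closedBall.isOpen_compl.mem_nhds fun h3 => hxD (hball h3)] with y hy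
        exact hg0 y hy
      exact contDiffAt_const.congr_of_eventuallyEq h1
  have hgt : tsupport g ⊆ closedBall a s := by
    refine closure_minimal (fun x hx => ?_) isClosed_closedBall
    by_contra h3
    exact hx (hg0 x h3)
  have hgi : ∫ x, g x = 0 := by
    rw [hg, integral_indicator hDo.measurableSet]
    exact h.gaussB hX hn
  have hr2 : 0 < r₂ := h0.trans h2
  obtain ⟨θ, hθ, hθt, hθ1⟩ := B.bv_bump a (half_pos hr2)
  have hθc : HasCompactSupport θ := (isCompact_closedBall a (r₂ / 2)).of_isClosed_subset (isClosed_tsupport _) hθt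
  have hθT : B.IsTe (ball a r₂) θ := ⟨hθ, hθc, hθt.trans (closedBall_subset_ball (by linarith))⟩
  obtain ⟨K', C, hK', hK'D, H⟩ := B.exists_div isOpen_ball
    ⟨⟨a, mem_ball_self hr2⟩, (convex_ball a r₂).isPreconnected⟩ hθT hθ1 (isCompact_closedBall a s)
    (closedBall_subset_ball h2)
  obtain ⟨v, hv, hvt, hvd, -⟩ := H g hgS hgt
  refine ⟨v, hv, hK'.of_isClosed_subset (isClosed_tsupport _) hvt, hvt.trans hK'D, fun x hx => ?_⟩
  rw [dv_eq_divg, hvd x, hgi, zero_mul, sub_zero, hg, indicator_of_mem hx]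

end Pool.Agent.Lib.MP_79abb3_an.W
end

section

/-!
Theorem W (MP_79abb3_an), block C: divergence free extension of the gradient of an admissible potential.
-/

set_option autoImplicit false
set_option linter.unusedSectionVars false
set_option linter.unusedVariables false

open MeasureTheory Set Filter Topology Function Metric
open scoped ENNReal RealInnerProductSpace

namespace Pool.Agent.Lib.MP_79abb3_an.W

variable {d : ℕ} {D : Set (En d)} {z : En d → ℝ} {δ : ℝ}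

theorem cxb3_ok {F : Type} [NormedAddCommGroup F] [NormedSpace ℝ F] (hD : IsOpen D) {f : En d → F} :
    BD D f ↔ C.OK D f :=
  ⟨fun h => ⟨fun x hx => h.1.contDiffAt (hD.mem_nhds hx), h.2⟩,
    fun h => ⟨fun x hx => (h.1 x hx).contDiffWithinAt, h.2⟩⟩

/-- `z` is bounded below on compact subsets of `D`. -/
theorem cxb3_low (h : Dom D z δ) {K : Set (En d)} (hK : IsCompact K) (hKD : K ⊆ D) : ∃ z₀ > 0, ∀ x ∈ K, z₀ ≤ z x := by
  rcases K.eq_empty_or_nonempty with rfl | hne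
  · exact ⟨1, one_pos, fun x hx => absurd hx (notMem_empty x)⟩
  · obtain ⟨x₀, hx₀, hmin⟩ := hK.exists_isMinOn hne h.smo.continuous.continuousOn
    exact ⟨z x₀, (h.pos x₀).1 (hKD hx₀), fun x hx => hmin hx⟩

/-- Divergence free extension of the gradient of an admissible potential (`P = χ∇p - v` of `cut_adm` and `div_corr`). -/
theorem ext_div (h : Dom D z δ) {a : En d} {r₁ r₂ : ℝ} (h1 : 0 < r₁) (h2 : r₁ < r₂) (hsub : closedBall a r₂ ⊆ D)
    {p : En d → ℝ} (hp : C.Adm D z (ball a r₁) p) : ∃ (p' : En d → ℝ) (P : En d → En d), BD D p' ∧ BD D P ∧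
      (∀ x ∈ D, dv P x = 0) ∧ (Oz D z fun x => ⟪gradient z x, P x⟫) ∧
      ∀ x ∈ D, x ∉ ball a r₂ → p' =ᶠ[𝓝 x] p ∧ P =ᶠ[𝓝 x] gradient p' := by
  have hD : IsOpen D := h.toB.isOpen
  obtain ⟨p', X, hp', hX, hXn, hXe, hXd⟩ := cut_adm h h1 h2 hsub hp
  obtain ⟨v, hv, hvc, hvs, hvd⟩ := div_corr h (s := (r₁ + r₂) / 2) (by linarith) (by linarith) hsub hX hXn hXd
  have hvD : tsupport v ⊆ D := hvs.trans (ball_subset_closedBall.trans hsub)
  have hvB : BD D v := (cxb3_ok hD).2 (C.ok_of_smo hv h.bdd)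
  have hP : BD D fun x => X x - v x := (cxb3_ok hD).2 (C.ok_sub ((cxb3_ok hD).1 hX) ((cxb3_ok hD).1 hvB))
  refine ⟨p', fun x => X x - v x, hp', hP, fun x hx => ?_, ?_, fun x hx hxb => ?_⟩
  · have hXx : DifferentiableAt ℝ X x := (hX.1.contDiffAt (hD.mem_nhds hx)).differentiableAt (by simp)
    have hvx : DifferentiableAt ℝ v x := hv.differentiable x
    have h3 : dv (fun x => X x - v x) x = dv X x - dv v x := by
      unfold dv pd
      rw [← Finset.sum_sub_distrib]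
      refine Finset.sum_congr rfl fun i _ => ?_
      rw [show (fun x => X x - v x) = X - v from rfl, fderiv_sub hXx hvx]
      rfl
    rw [h3, hvd x hx, sub_self]
  · obtain ⟨C1, hC1⟩ := hXn
    obtain ⟨z₀, hz₀, hz⟩ := cxb3_low h (hvc : IsCompact (tsupport v)) hvD
    obtain ⟨Cz, hCz⟩ := (C.ok_of_smo (R := D) h.smo h.bdd).2 1
    obtain ⟨Cv, hCv⟩ := hvB.2 0
    have hCz0 : ∀ x ∈ D, ‖gradient z x‖ ≤ max Cz 0 := by
      intro x hx
      have h4 : ‖gradient z x‖ = ‖fderiv ℝ z x‖ := by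
        show ‖(InnerProductSpace.toDual ℝ (En d)).symm (fderiv ℝ z x)‖ = _
        rw [LinearIsometryEquiv.norm_map]
      rw [h4, ← norm_iteratedFDeriv_one]
      exact (hCz x hx).trans (le_max_left _ _)
    refine ⟨C1 + max Cz 0 * max Cv 0 * z₀⁻¹, fun x hx => ?_⟩
    have hzx : 0 < z x := (h.pos x).1 hx
    have h5 : ‖⟪gradient z x, v x⟫‖ ≤ max Cz 0 * max Cv 0 * z₀⁻¹ * z x := by
      by_cases hxv : x ∈ tsupport v
      · have h6 := hz x hxv
        have h7 : ‖v x‖ ≤ max Cv 0 := by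
          have := hCv x hx
          rw [norm_iteratedFDeriv_zero] at this
          exact this.trans (le_max_left _ _)
        calc ‖⟪gradient z x, v x⟫‖ ≤ ‖gradient z x‖ * ‖v x‖ := norm_inner_le_norm _ _
          _ ≤ max Cz 0 * max Cv 0 := mul_le_mul (hCz0 x hx) h7 (norm_nonneg _) (le_max_right _ _)
          _ = max Cz 0 * max Cv 0 * z₀⁻¹ * z₀ := by field_simp
          _ ≤ max Cz 0 * max Cv 0 * z₀⁻¹ * z x := by
            refine mul_le_mul_of_nonneg_left h6 ?_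
            positivity
      · rw [image_eq_zero_of_notMem_tsupport hxv, inner_zero_right, norm_zero]
        positivity
    calc ‖⟪gradient z x, X x - v x⟫‖ = ‖⟪gradient z x, X x⟫ - ⟪gradient z x, v x⟫‖ := by rw [inner_sub_right]
      _ ≤ ‖⟪gradient z x, X x⟫‖ + ‖⟪gradient z x, v x⟫‖ := norm_sub_le _ _
      _ ≤ C1 * z x + max Cz 0 * max Cv 0 * z₀⁻¹ * z x := add_le_add (hC1 x hx) h5
      _ = _ := by ring
  · have hx1 : x ∉ closedBall a ((r₁ + r₂) / 2) := fun hh =>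
      hxb (closedBall_subset_ball (by linarith) hh)
    obtain ⟨e1, e2⟩ := hXe x hx1
    refine ⟨e1, ?_⟩
    have hvx : ∀ᶠ y in 𝓝 x, v y = 0 := by
      have h8 : x ∉ tsupport v := fun hh => hxb (hvs hh)
      filter_upwards [(isClosed_tsupport v).isOpen_compl.mem_nhds h8] with y hy
      exact image_eq_zero_of_notMem_tsupport hy
    have e3 : gradient p' =ᶠ[𝓝 x] gradient p := by
      filter_upwards [e1.eventually_nhds] with y hy
      show (InnerProductSpace.toDual ℝ (En d)).symm (fderiv ℝ p' y) = (InnerProductSpace.toDual ℝ (En d)).symm (fderiv ℝ p y)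
      rw [(show p' =ᶠ[𝓝 y] p from hy).fderiv_eq]
    filter_upwards [e2, hvx, e3] with y hy1 hy2 hy3
    rw [hy1, hy2, hy3, sub_zero]

end Pool.Agent.Lib.MP_79abb3_an.W
end

section

/-!
Theorem W (MP_79abb3_an), block C: EXPORT. Existence of the waves with a prescribed drift.
-/

set_option autoImplicit false
set_option linter.unusedSectionVars false
set_option linter.unusedVariables false

open MeasureTheory Set Filter Topology Function Metric
open scoped ENNReal RealInnerProductSpace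

namespace Pool.Agent.Lib.MP_79abb3_an.W

variable {d : ℕ} {D : Set (En d)} {z : En d → ℝ} {δ : ℝ}

/-- Families of waves `(P_j, Q_j)`, `j < n`, with the frequencies `4 ^ j`: divergence free and tangential fields in `D`, gradients near the points of
`D \ B`, with slips `2 ^ j c_j` (derivatives of order `≤ k` near the walls), `∑ c_j² ≤ κ`. -/
structure Waves (D : Set (En d)) (z : En d → ℝ) (B : Set (En d)) (k : ℕ) (κ : ℝ) (n : ℕ) (P Q : Fin n → En d → En d)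
    (c : Fin n → ℝ) : Prop where
  bP : ∀ j, BD D (P j)
  bQ : ∀ j, BD D (Q j)
  dP : ∀ j, ∀ x ∈ D, dv (P j) x = 0
  dQ : ∀ j, ∀ x ∈ D, dv (Q j) x = 0
  nP : ∀ j, Oz D z fun x => ⟪gradient z x, P j x⟫
  nQ : ∀ j, Oz D z fun x => ⟪gradient z x, Q j x⟫
  gP : ∀ j, ∃ p : En d → ℝ, BD D p ∧ ∀ x ∈ D, x ∉ B → P j =ᶠ[𝓝 x] gradient p
  gQ : ∀ j, ∃ q : En d → ℝ, BD D q ∧ ∀ x ∈ D, x ∉ B → Q j =ᶠ[𝓝 x] gradient q
  c0 : ∀ j, 0 ≤ c j
  cκ : ∑ j, c j ^ 2 ≤ κ
  sl : ∃ r₀ > 0, ∀ j, ∀ i ≤ k, ∀ x ∈ D, z x < r₀ → ‖iteratedFDeriv ℝ i (P j) x‖ ≤ 2 ^ (j : ℕ) * c j ∧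
    ‖iteratedFDeriv ℝ i (Q j) x‖ ≤ 2 ^ (j : ℕ) * c j

theorem cxd_min {n : ℕ} (ρ : Fin n → ℝ) (h : ∀ j, 0 < ρ j) : ∃ r₀ > 0, ∀ j, r₀ ≤ ρ j := by
  have h1 : ∀ᶠ r in 𝓝[>] (0 : ℝ), ∀ j, r ≤ ρ j := by
    rw [eventually_all]
    intro j
    filter_upwards [Ioc_mem_nhdsGT (h j)] with r hr using hr.2
  obtain ⟨r, hr, hr0⟩ := (h1.and self_mem_nhdsWithin).exists
  exact ⟨r, hr0, hr⟩

theorem cxd_bd_smul (hD : IsOpen D) (c : ℝ) {f : En d → En d} (hf : BD D f) : BD D fun x => c • f x :=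
  (cxb3_ok hD).2 (C.ok_clm (c • ContinuousLinearMap.id ℝ (En d)) ((cxb3_ok hD).1 hf))

theorem cxd_bd_smulR (hD : IsOpen D) (c : ℝ) {f : En d → ℝ} (hf : BD D f) : BD D fun x => c • f x :=
  (cxb3_ok hD).2 (C.ok_clm (c • ContinuousLinearMap.id ℝ ℝ) ((cxb3_ok hD).1 hf))

theorem cxd_dv_smul (hD : IsOpen D) (c : ℝ) {f : En d → En d} (hf : BD D f) {x : En d} (hx : x ∈ D) :
    dv (fun x => c • f x) x = c * dv f x := by
  have h1 : DifferentiableAt ℝ f x := (hf.1.contDiffAt (hD.mem_nhds hx)).differentiableAt (by simp)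
  unfold dv pd
  rw [Finset.mul_sum]
  refine Finset.sum_congr rfl fun i _ => ?_
  rw [show (fun x => c • f x) = c • f from rfl, fderiv_const_smul h1]
  rfl

theorem cxd_oz_smul (c : ℝ) {f : En d → En d} (hf : Oz D z fun x => ⟪gradient z x, f x⟫) :
    Oz D z fun x => ⟪gradient z x, c • f x⟫ := by
  obtain ⟨C, hC⟩ := hf
  refine ⟨|c| * C, fun x hx => ?_⟩
  have h1 := hC x hx
  simp only at h1 ⊢
  rw [inner_smul_right, norm_mul, Real.norm_eq_abs c, mul_assoc]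
  exact mul_le_mul_of_nonneg_left h1 (abs_nonneg _)

theorem cxd_grad_smul (c : ℝ) (hD : IsOpen D) {p : En d → ℝ} (hp : BD D p) {x : En d} (hx : x ∈ D) :
    gradient (fun x => c • p x) x = c • gradient p x := by
  have h1 : DifferentiableAt ℝ p x := (hp.1.contDiffAt (hD.mem_nhds hx)).differentiableAt (by simp)
  show (InnerProductSpace.toDual ℝ (En d)).symm (fderiv ℝ (fun x => c • p x) x) =
    c • (InnerProductSpace.toDual ℝ (En d)).symm (fderiv ℝ p x)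
  rw [show (fun x => c • p x) = c • p from rfl, fderiv_const_smul h1]
  simp

/-- derivatives of the gradient -/
theorem cxd_grad_nrm (p : En d → ℝ) (i : ℕ) (x : En d) :
    ‖iteratedFDeriv ℝ i (gradient p) x‖ = ‖iteratedFDeriv ℝ (i + 1) p x‖ := by
  have h1 : (gradient p : En d → En d) = (InnerProductSpace.toDual ℝ (En d)).symm ∘ fderiv ℝ p := rfl
  rw [h1]
  have h2 := (InnerProductSpace.toDual ℝ (En d)).symm.norm_iteratedFDeriv_comp_left (fderiv ℝ p) x i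
  rw [← norm_iteratedFDeriv_fderiv]
  exact h2

/-- data of one wave -/
theorem cxd_one (h : Dom D z δ) {a : En d} {r₁ r₂ : ℝ} (h1 : 0 < r₁) (h2 : r₁ < r₂) (hsub : closedBall a r₂ ⊆ D)
    {p : En d → ℝ} (hp : C.Adm D z (ball a r₁) p) {k : ℕ} {c : ℝ} (hs : C.Slip D z k p c) {s : ℝ} (hs0 : 0 ≤ s) :
    ∃ P : En d → En d, BD D P ∧ (∀ x ∈ D, dv P x = 0) ∧ (Oz D z fun x => ⟪gradient z x, P x⟫) ∧
      (∃ p' : En d → ℝ, BD D p' ∧ ∀ x ∈ D, x ∉ ball a r₂ → P =ᶠ[𝓝 x] gradient p') ∧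
      (∀ x ∈ D, x ∉ ball a r₂ → P =ᶠ[𝓝 x] fun y => s • gradient p y) ∧
      ∃ r₀ > 0, ∀ i ≤ k, ∀ x ∈ D, z x < r₀ → ‖iteratedFDeriv ℝ i P x‖ ≤ s * c := by
  have hD : IsOpen D := h.toB.isOpen
  obtain ⟨p', P, hp', hP, hdP, hnP, heP⟩ := ext_div h h1 h2 hsub hp
  have hgr : ∀ x ∈ D, x ∉ ball a r₂ → P =ᶠ[𝓝 x] gradient p := by
    intro x hx hxb
    obtain ⟨e1, e2⟩ := heP x hx hxb
    filter_upwards [e2, e1.eventually_nhds] with y hy1 hy2
    rw [hy1]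
    show (InnerProductSpace.toDual ℝ (En d)).symm (fderiv ℝ p' y) = (InnerProductSpace.toDual ℝ (En d)).symm (fderiv ℝ p y)
    rw [(show p' =ᶠ[𝓝 y] p from hy2).fderiv_eq]
  refine ⟨fun x => s • P x, cxd_bd_smul hD s hP, fun x hx => ?_, cxd_oz_smul s hnP, ⟨fun x => s • p' x,
    cxd_bd_smulR hD s hp', fun x hx hxb => ?_⟩, fun x hx hxb => ?_, ?_⟩
  · rw [cxd_dv_smul hD s hP hx, hdP x hx, mul_zero]
  · filter_upwards [(heP x hx hxb).2, hD.mem_nhds hx] with y hy hyD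
    rw [cxd_grad_smul s hD hp' hyD, hy]
  · filter_upwards [hgr x hx hxb] with y hy
    rw [hy]
  · obtain ⟨hc, ρ, hρ, hsl⟩ := hs
    obtain ⟨z₀, hz₀, hz⟩ := cxb3_low h (isCompact_closedBall a r₂) hsub
    refine ⟨min ρ z₀, lt_min hρ hz₀, fun i hi x hx hzx => ?_⟩
    have hxb : x ∉ ball a r₂ := fun hh =>
      absurd (hz x (ball_subset_closedBall hh)) (not_le.2 (hzx.trans_le (min_le_right _ _)))
    have e1 : (fun x => s • P x) =ᶠ[𝓝 x] fun y => s • gradient p y := by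
      filter_upwards [hgr x hx hxb] with y hy
      rw [hy]
    have hxb1 : x ∈ D \ ball a r₁ := ⟨hx, fun hh => hxb (ball_subset_ball h2.le hh)⟩
    have hpx := hp.ok.1 x hxb1
    have hgx : ContDiffAt ℝ ((i : ℕ) : WithTop ℕ∞) (gradient p) x := by
      have h5 : ContDiffAt ℝ ((i : ℕ) : WithTop ℕ∞) (fderiv ℝ p) x :=
        hpx.fderiv_right (m := ((i : ℕ) : WithTop ℕ∞)) (by exact_mod_cast le_top)
      exact (InnerProductSpace.toDual ℝ (En d)).symm.toContinuousLinearEquiv.contDiff.contDiffAt.comp x h5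
    rw [(e1.iteratedFDeriv ℝ i).eq_of_nhds]
    rw [show (fun y => s • gradient p y) = s • gradient p from rfl, iteratedFDeriv_const_smul_apply hgx, norm_smul,
      Real.norm_eq_abs, abs_of_nonneg hs0, cxd_grad_nrm]
    exact mul_le_mul_of_nonneg_left (hsl x hx (hzx.trans_le (min_le_left _ _)) (i + 1) (by omega) (by omega)) hs0

theorem cxd_brk_smul (s : ℝ) {u v : En d → En d} {x : En d} (hu : DifferentiableAt ℝ u x) (hv : DifferentiableAt ℝ v x) :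
    brk (fun y => s • u y) (fun y => s • v y) x = (s * s) • brk u v x := by
  unfold brk
  rw [show (fun y => s • u y) = s • u from rfl, show (fun y => s • v y) = s • v from rfl, fderiv_const_smul hu,
    fderiv_const_smul hv]
  simp only [smul_apply, Pi.smul_apply, map_smul, smul_smul, smul_sub]

theorem cxd_brk_congr {u v u' v' : En d → En d} {x : En d} (hu : u =ᶠ[𝓝 x] u') (hv : v =ᶠ[𝓝 x] v') :
    brk u v x = brk u' v' x := by
  unfold brk
  rw [hu.fderiv_eq, hv.fderiv_eq, hu.eq_of_nhds, hv.eq_of_nhds]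

/-- **Existence of waves with a drift close to `div E`** (`E` antisymmetric, smooth, with compact support in `D`). -/
theorem exists_waves_E (h : Dom D z δ) (hd : 2 ≤ d) {a : En d} {r : ℝ} (hr : 0 < r) (hsub : closedBall a r ⊆ D)
    {E : Fin d → Fin d → En d → ℝ} (hE : C.IsE D E) (k : ℕ) {ε κ : ℝ} (hε : 0 < ε) (hκ : 0 < κ) :
    ∃ (n : ℕ) (P Q : Fin n → En d → En d) (c : Fin n → ℝ), Waves D z (ball a r) k κ n P Q c ∧
      ∀ i ≤ k, ∀ x ∈ D, x ∉ ball a r →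
        ‖iteratedFDeriv ℝ i (fun x => ∑ j : Fin n, (2 * 4 ^ (j : ℕ) : ℝ)⁻¹ • brk (P j) (Q j) x - C.DR E x) x‖ ≤ ε := by
  have hD : IsOpen D := h.toB.isOpen
  have h1 : 0 < r / 2 := by linarith
  have h2 : r / 2 < r := by linarith
  have hG : C.Geo D z δ a (r / 2) r := ⟨C.dom_of h, hd, h1, h2, hsub⟩
  obtain ⟨n, p, q, c, hp, hq, hsp, hsq, hc, hB⟩ := C.density hG (C.neuP_of h) (C.ucp d) k hE hε hκ
  choose P hP hdP hnP hgP heP hslP using fun j : Fin n => cxd_one h h1 h2 hsub (hp j) (hsp j)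
    (pow_nonneg (zero_le_two : (0 : ℝ) ≤ 2) (j : ℕ))
  choose Q hQ hdQ hnQ hgQ heQ hslQ using fun j : Fin n => cxd_one h h1 h2 hsub (hq j) (hsq j)
    (pow_nonneg (zero_le_two : (0 : ℝ) ≤ 2) (j : ℕ))
  choose ρP hρP hP' using hslP
  choose ρQ hρQ hQ' using hslQ
  obtain ⟨ρ, hρ, hρm⟩ := cxd_min (fun j => min (ρP j) (ρQ j)) fun j => lt_min (hρP j) (hρQ j)
  refine ⟨n, P, Q, c, ⟨hP, hQ, hdP, hdQ, hnP, hnQ, hgP, hgQ, fun j => (hsp j).1, hc, ⟨ρ, hρ, fun j i hi x hx hzx =>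
    ⟨hP' j i hi x hx (hzx.trans_le ((hρm j).trans (min_le_left _ _))),
      hQ' j i hi x hx (hzx.trans_le ((hρm j).trans (min_le_right _ _)))⟩⟩⟩, fun i hi x hx hxb => ?_⟩
  -- near `x` the drift is `∑ VR`
  have hx1 : x ∉ closedBall a (r / 2) := fun hh => hxb (closedBall_subset_ball h2 hh)
  have hnear : ∀ᶠ y in 𝓝 x, y ∈ D \ ball a (r / 2) := by
    filter_upwards [hD.mem_nhds hx, isClosed_closedBall.isOpen_compl.mem_nhds hx1] with y hy1 hy2
    exact ⟨hy1, fun hh => hy2 (ball_subset_closedBall hh)⟩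
  have hPn : ∀ᶠ y in 𝓝 x, ∀ j, P j =ᶠ[𝓝 y] fun y => (2 : ℝ) ^ (j : ℕ) • gradient (p j) y := by
    rw [eventually_all]
    exact fun j => (heP j x hx hxb).eventually_nhds
  have hQn : ∀ᶠ y in 𝓝 x, ∀ j, Q j =ᶠ[𝓝 y] fun y => (2 : ℝ) ^ (j : ℕ) • gradient (q j) y := by
    rw [eventually_all]
    exact fun j => (heQ j x hx hxb).eventually_nhds
  have hgd : ∀ {u : En d → ℝ} {y : En d}, ContDiffAt ℝ ((⊤ : ℕ∞) : WithTop ℕ∞) u y → DifferentiableAt ℝ (gradient u) y := by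
    intro u y hu
    have h5 : ContDiffAt ℝ 1 (fderiv ℝ u) y := hu.fderiv_right (m := 1) (by norm_cast)
    exact (InnerProductSpace.toDual ℝ (En d)).symm.toContinuousLinearEquiv.differentiableAt.comp y
      (h5.differentiableAt (by norm_num))
  have hev : (fun x => ∑ j : Fin n, (2 * 4 ^ (j : ℕ) : ℝ)⁻¹ • brk (P j) (Q j) x - C.DR E x) =ᶠ[𝓝 x]
      fun x => ∑ j, C.VR (p j) (q j) x - C.DR E x := by
    filter_upwards [hnear, hPn, hQn] with y hy hPy hQy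
    congr 1
    refine Finset.sum_congr rfl fun j _ => ?_
    have hpy := (hp j).ok.1 y hy
    have hqy := (hq j).ok.1 y hy
    rw [VR_eq_brk hpy hqy ((hp j).harm y hy) ((hq j).harm y hy), cxd_brk_congr (hPy j) (hQy j),
      cxd_brk_smul _ (hgd hpy) (hgd hqy), smul_smul]
    congr 1
    have h6 : (2 : ℝ) ^ (j : ℕ) * 2 ^ (j : ℕ) = 4 ^ (j : ℕ) := by
      rw [← mul_pow]
      norm_num
    rw [h6]
    have h7 : (4 : ℝ) ^ (j : ℕ) ≠ 0 := by positivity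
    field_simp
  rw [(hev.iteratedFDeriv ℝ i).eq_of_nhds]
  exact hB i hi x ⟨hx, hxb⟩

/-- **Existence of waves with a drift close to `μ V`**, `V` a local rotation. -/
theorem exists_waves (h : Dom D z δ) (hd : 2 ≤ d) {a : En d} {r : ℝ} (hr : 0 < r) (hsub : closedBall a r ⊆ D)
    (R : Rot d) (hR : closedBall R.c R.r ⊆ D) (μ : ℝ) (k : ℕ) {ε κ : ℝ} (hε : 0 < ε) (hκ : 0 < κ) :
    ∃ (n : ℕ) (P Q : Fin n → En d → En d) (c : Fin n → ℝ), Waves D z (ball a r) k κ n P Q c ∧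
      ∀ i ≤ k, ∀ x ∈ D, x ∉ ball a r →
        ‖iteratedFDeriv ℝ i (fun x => ∑ j : Fin n, (2 * 4 ^ (j : ℕ) : ℝ)⁻¹ • brk (P j) (Q j) x - μ • R.V x) x‖ ≤ ε := by
  obtain ⟨E, hE, hEV⟩ := rot_E R hR
  have hE' : C.IsE D fun i j x => μ * E i j x := by
    refine ⟨fun i j => ?_, fun i j => ?_, fun i j => ?_, fun i j x => ?_⟩
    · exact contDiff_const.mul (hE.smo i j)
    · exact (hE.cpt i j).mul_left
    · exact (tsupport_mul_subset_right).trans (hE.supp i j)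
    · show μ * E i j x = -(μ * E j i x)
      rw [hE.anti i j x]
      ring
  have hDR : C.DR (fun i j x => μ * E i j x) = fun x => μ • R.V x := by
    funext x
    rw [← hEV]
    ext i
    show ∑ j, C.pd j (fun x => μ * E i j x) x = μ * ∑ j, C.pd j (E i j) x
    rw [Finset.mul_sum]
    refine Finset.sum_congr rfl fun j _ => ?_
    have h1 : DifferentiableAt ℝ (E i j) x := ((hE.smo i j).differentiable (by simp)).differentiableAt
    show fderiv ℝ (fun x => μ * E i j x) x (C.eb j) = μ * fderiv ℝ (E i j) x (C.eb j)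
    rw [fderiv_const_mul h1]
    rfl
  obtain ⟨n, P, Q, c, hW, hw⟩ := exists_waves_E h hd hr hsub hE' k hε hκ
  rw [hDR] at hw
  exact ⟨n, P, Q, c, hW, hw⟩

end Pool.Agent.Lib.MP_79abb3_an.W
end
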