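import Mathlib

/-!
Theorem W (MP_79abb3_an), block A: the complexification `Cx H` of a real Hilbert space `H`.
`Cx.mk x y` is `x + i y`; `Cx.re`, `Cx.im` are the parts, `Cx.of x = x + i 0`, `Cx.cj` the conjugation and
`Cx.map T` the complexification of a real operator.
-/

set_option autoImplicit false
set_option linter.unusedSectionVars false

open scoped InnerProductSpace ComplexConjugate

namespace Pool.Agent.Lib.MP_79abb3_an.W

/-- The complexification of a real Hilbert space. -/
def Cx (H : Type) : Type := WithLp 2 (H × H)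

namespace Cx

section
variable {H : Type} [NormedAddCommGroup H] [InnerProductSpace ℝ H]

noncomputable instance : NormedAddCommGroup (Cx H) := inferInstanceAs (NormedAddCommGroup (WithLp 2 (H × H)))

/-- `x + i y` -/
def mk (x y : H) : Cx H := (WithLp.toLp 2 (x, y) : WithLp 2 (H × H))
/-- real part -/
def re (z : Cx H) : H := (WithLp.ofLp (z : WithLp 2 (H × H))).1
/-- imaginary part -/
def im (z : Cx H) : H := (WithLp.ofLp (z : WithLp 2 (H × H))).2

@[simp] theorem re_mk (x y : H) : (mk x y).re = x := rfl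
@[simp] theorem im_mk (x y : H) : (mk x y).im = y := rfl
@[simp] theorem mk_re_im (z : Cx H) : mk z.re z.im = z := rfl
@[simp] theorem re_add (z w : Cx H) : (z + w).re = z.re + w.re := rfl
@[simp] theorem im_add (z w : Cx H) : (z + w).im = z.im + w.im := rfl
@[simp] theorem re_zero : (0 : Cx H).re = 0 := rfl
@[simp] theorem im_zero : (0 : Cx H).im = 0 := rfl
@[simp] theorem re_neg (z : Cx H) : (-z).re = -z.re := rfl
@[simp] theorem im_neg (z : Cx H) : (-z).im = -z.im := rfl
@[simp] theorem re_sub (z w : Cx H) : (z - w).re = z.re - w.re := rfl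
@[simp] theorem im_sub (z w : Cx H) : (z - w).im = z.im - w.im := rfl

@[ext] theorem ext {z w : Cx H} (h1 : z.re = w.re) (h2 : z.im = w.im) : z = w := by
  rw [← mk_re_im z, ← mk_re_im w, h1, h2]

theorem norm_sq (z : Cx H) : ‖z‖ ^ 2 = ‖z.re‖ ^ 2 + ‖z.im‖ ^ 2 :=
  WithLp.prod_norm_sq_eq_of_L2 (α := H) (β := H) z

noncomputable instance : SMul ℂ (Cx H) :=
  ⟨fun c z => mk (c.re • z.re - c.im • z.im) (c.re • z.im + c.im • z.re)⟩

@[simp] theorem re_smul (c : ℂ) (z : Cx H) : (c • z).re = c.re • z.re - c.im • z.im := rfl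
@[simp] theorem im_smul (c : ℂ) (z : Cx H) : (c • z).im = c.re • z.im + c.im • z.re := rfl

noncomputable instance : Module ℂ (Cx H) where
  one_smul z := by ext <;> simp
  mul_smul c c' z := by
    ext <;> simp [sub_smul, add_smul, mul_smul, smul_sub, smul_add] <;> abel
  smul_zero c := by ext <;> simp
  smul_add c z w := by ext <;> simp [smul_add] <;> abel
  add_smul c c' z := by ext <;> simp [add_smul] <;> abel
  zero_smul z := by ext <;> simp

noncomputable instance : Inner ℂ (Cx H) :=
  ⟨fun z w => ⟨⟪z.re, w.re⟫_ℝ + ⟪z.im, w.im⟫_ℝ, ⟪z.re, w.im⟫_ℝ - ⟪z.im, w.re⟫_ℝ⟩⟩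

theorem inner_re (z w : Cx H) : (⟪z, w⟫_ℂ).re = ⟪z.re, w.re⟫_ℝ + ⟪z.im, w.im⟫_ℝ := rfl
theorem inner_im (z w : Cx H) : (⟪z, w⟫_ℂ).im = ⟪z.re, w.im⟫_ℝ - ⟪z.im, w.re⟫_ℝ := rfl

theorem norm_smul_eq (c : ℂ) (z : Cx H) : ‖c • z‖ = ‖c‖ * ‖z‖ := by
  have h : ‖c • z‖ ^ 2 = (‖c‖ * ‖z‖) ^ 2 := by
    rw [norm_sq, mul_pow, norm_sq, re_smul, im_smul, norm_sub_sq_real, norm_add_sq_real, ← Complex.normSq_eq_norm_sq,
      Complex.normSq_apply, real_inner_smul_left, real_inner_smul_left, real_inner_smul_right, real_inner_smul_right,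
      norm_smul, norm_smul, norm_smul, norm_smul, mul_pow, mul_pow, mul_pow, mul_pow, Real.norm_eq_abs,
      Real.norm_eq_abs, sq_abs, sq_abs, real_inner_comm z.im z.re]
    ring
  exact (sq_eq_sq₀ (norm_nonneg _) (by positivity)).1 h

noncomputable instance : NormedSpace ℂ (Cx H) where
  norm_smul_le c z := (norm_smul_eq c z).le

noncomputable instance : InnerProductSpace ℂ (Cx H) where
  norm_sq_eq_re_inner z := by
    show ‖z‖ ^ 2 = (⟪z, z⟫_ℂ).re
    rw [norm_sq, inner_re, real_inner_self_eq_norm_sq, real_inner_self_eq_norm_sq]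
  conj_inner_symm z w := by
    apply Complex.ext
    · rw [Complex.conj_re, inner_re, inner_re, real_inner_comm, real_inner_comm w.im]
    · rw [Complex.conj_im, inner_im, inner_im, real_inner_comm w.im, real_inner_comm w.re]; ring
  add_left z w u := by
    apply Complex.ext
    · rw [Complex.add_re, inner_re, inner_re, inner_re, re_add, im_add, inner_add_left, inner_add_left]; ring
    · rw [Complex.add_im, inner_im, inner_im, inner_im, re_add, im_add, inner_add_left, inner_add_left]; ring
  smul_left z w c := by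
    apply Complex.ext
    · rw [Complex.mul_re, inner_re, inner_re, inner_im, re_smul, im_smul, inner_sub_left, inner_add_left,
        real_inner_smul_left, real_inner_smul_left, real_inner_smul_left, real_inner_smul_left, Complex.conj_re,
        Complex.conj_im]
      ring
    · rw [Complex.mul_im, inner_im, inner_re, inner_im, re_smul, im_smul, inner_sub_left, inner_add_left,
        real_inner_smul_left, real_inner_smul_left, real_inner_smul_left, real_inner_smul_left, Complex.conj_re,
        Complex.conj_im]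
      ring

instance [CompleteSpace H] : CompleteSpace (Cx H) := inferInstanceAs (CompleteSpace (WithLp 2 (H × H)))

theorem norm_re_le (z : Cx H) : ‖z.re‖ ≤ ‖z‖ := by
  have := norm_sq z
  nlinarith [norm_nonneg z, norm_nonneg z.re, sq_nonneg ‖z.im‖]

theorem norm_im_le (z : Cx H) : ‖z.im‖ ≤ ‖z‖ := by
  have := norm_sq z
  nlinarith [norm_nonneg z, norm_nonneg z.im, sq_nonneg ‖z.re‖]

@[simp] theorem re_rsmul (c : ℝ) (z : Cx H) : (c • z).re = c • z.re := by
  show ((c : ℂ) • z).re = _
  rw [re_smul, Complex.ofReal_re, Complex.ofReal_im, zero_smul, sub_zero]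
@[simp] theorem im_rsmul (c : ℝ) (z : Cx H) : (c • z).im = c • z.im := by
  show ((c : ℂ) • z).im = _
  rw [im_smul, Complex.ofReal_re, Complex.ofReal_im, zero_smul, add_zero]

variable (H) in
/-- the real part as an operator -/
noncomputable def reL : Cx H →L[ℝ] H :=
  LinearMap.mkContinuous { toFun := re, map_add' := re_add, map_smul' := re_rsmul } 1 fun z => by
    rw [one_mul]; exact norm_re_le z

variable (H) in
/-- the imaginary part as an operator -/
noncomputable def imL : Cx H →L[ℝ] H :=
  LinearMap.mkContinuous { toFun := im, map_add' := im_add, map_smul' := im_rsmul } 1 fun z => by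
    rw [one_mul]; exact norm_im_le z

@[simp] theorem reL_apply (z : Cx H) : reL H z = z.re := rfl
@[simp] theorem imL_apply (z : Cx H) : imL H z = z.im := rfl

/-- the real element `x + i 0` -/
def of (x : H) : Cx H := mk x 0

@[simp] theorem re_of (x : H) : (of x).re = x := rfl
@[simp] theorem im_of (x : H) : (of x).im = 0 := rfl

theorem norm_of (x : H) : ‖of x‖ = ‖x‖ := by
  have h := norm_sq (of x)
  rw [re_of, im_of, norm_zero, zero_pow two_ne_zero, add_zero] at h
  exact (sq_eq_sq₀ (norm_nonneg _) (norm_nonneg _)).1 h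

variable (H) in
/-- the embedding as an operator -/
noncomputable def ofL : H →L[ℝ] Cx H :=
  LinearMap.mkContinuous
    { toFun := of
      map_add' := fun x y => by ext <;> simp
      map_smul' := fun c x => by ext <;> simp } 1 fun x => by
    rw [one_mul]; exact (norm_of x).le

@[simp] theorem ofL_apply (x : H) : ofL H x = of x := rfl
theorem of_add (x y : H) : of (x + y) = of x + of y := (ofL H).map_add x y
theorem of_sub (x y : H) : of (x - y) = of x - of y := (ofL H).map_sub x y
theorem of_rsmul (c : ℝ) (x : H) : of (c • x) = c • of x := (ofL H).map_smul c x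
@[simp] theorem of_zero : of (0 : H) = 0 := rfl

theorem inner_of (x y : H) : ⟪of x, of y⟫_ℂ = (⟪x, y⟫_ℝ : ℝ) := by
  apply Complex.ext
  · rw [inner_re]; simp
  · rw [inner_im]; simp

/-- `z = x + i y` -/
theorem eq_of (z : Cx H) : z = of z.re + Complex.I • of z.im := by
  ext <;> simp

variable (H) in
/-- the conjugation -/
noncomputable def cj : Cx H →L[ℝ] Cx H :=
  LinearMap.mkContinuous
    { toFun := fun z => mk z.re (-z.im)
      map_add' := fun z w => by ext <;> simp; abel
      map_smul' := fun c z => by ext <;> simp } 1 fun z => by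
    rw [one_mul]
    have h : ‖(mk z.re (-z.im) : Cx H)‖ ^ 2 = ‖z‖ ^ 2 := by
      rw [norm_sq, norm_sq, re_mk, im_mk, norm_neg]
    exact ((sq_eq_sq₀ (norm_nonneg _) (norm_nonneg _)).1 h).le

@[simp] theorem re_cj (z : Cx H) : (cj H z).re = z.re := rfl
@[simp] theorem im_cj (z : Cx H) : (cj H z).im = -z.im := rfl
@[simp] theorem cj_cj (z : Cx H) : cj H (cj H z) = z := by ext <;> simp
@[simp] theorem cj_of (x : H) : cj H (of x) = of x := by ext <;> simp
theorem norm_cj (z : Cx H) : ‖cj H z‖ = ‖z‖ := by
  have h : ‖cj H z‖ ^ 2 = ‖z‖ ^ 2 := by rw [norm_sq, norm_sq, re_cj, im_cj, norm_neg]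
  exact (sq_eq_sq₀ (norm_nonneg _) (norm_nonneg _)).1 h
theorem cj_smul (c : ℂ) (z : Cx H) : cj H (c • z) = conj c • cj H z := by
  ext
  · simp
  · simp; abel
theorem inner_cj (z w : Cx H) : ⟪cj H z, cj H w⟫_ℂ = conj ⟪z, w⟫_ℂ := by
  apply Complex.ext
  · rw [Complex.conj_re, inner_re, inner_re]; simp
  · rw [Complex.conj_im, inner_im, inner_im, re_cj, im_cj, re_cj, im_cj, inner_neg_right, inner_neg_left]; ring
/-- real elements -/
theorem cj_eq_iff (z : Cx H) : cj H z = z ↔ z = of z.re := by
  constructor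
  · intro h
    ext
    · rfl
    · have h1 : -z.im = z.im := congrArg im h
      rw [im_of]
      have h2 : (2 : ℝ) • z.im = 0 := by
        rw [two_smul]
        nth_rewrite 1 [← h1]
        exact neg_add_cancel _
      exact (smul_eq_zero.1 h2).resolve_left two_ne_zero
  · intro h
    rw [h, cj_of]

end

section
variable {H G F : Type} [NormedAddCommGroup H] [InnerProductSpace ℝ H] [NormedAddCommGroup G] [InnerProductSpace ℝ G]
  [NormedAddCommGroup F] [InnerProductSpace ℝ F]

/-- the complexification of a real operator -/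
noncomputable def map (T : H →L[ℝ] G) : Cx H →L[ℂ] Cx G :=
  LinearMap.mkContinuous
    { toFun := fun z => mk (T z.re) (T z.im)
      map_add' := fun z w => by ext <;> simp
      map_smul' := fun c z => by ext <;> simp } ‖T‖ fun z => by
    have h : ‖(mk (T z.re) (T z.im) : Cx G)‖ ^ 2 ≤ (‖T‖ * ‖z‖) ^ 2 := by
      rw [norm_sq, mul_pow, norm_sq, re_mk, im_mk, mul_add, ← mul_pow, ← mul_pow]
      exact add_le_add (pow_le_pow_left₀ (norm_nonneg _) (T.le_opNorm _) 2)
        (pow_le_pow_left₀ (norm_nonneg _) (T.le_opNorm _) 2)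
    exact le_of_sq_le_sq h (by positivity)

@[simp] theorem re_map (T : H →L[ℝ] G) (z : Cx H) : (map T z).re = T z.re := rfl
@[simp] theorem im_map (T : H →L[ℝ] G) (z : Cx H) : (map T z).im = T z.im := rfl
@[simp] theorem map_of (T : H →L[ℝ] G) (x : H) : map T (of x) = of (T x) := by ext <;> simp
theorem map_cj (T : H →L[ℝ] G) (z : Cx H) : map T (cj H z) = cj G (map T z) := by ext <;> simp
theorem map_comp (S : G →L[ℝ] F) (T : H →L[ℝ] G) : map (S ∘L T) = map S ∘L map T := by
  ext z <;> simp
theorem map_add (S T : H →L[ℝ] G) : map (S + T) = map S + map T := by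
  ext z <;> simp
theorem map_sub (S T : H →L[ℝ] G) : map (S - T) = map S - map T := by
  ext z <;> simp
theorem map_rsmul (c : ℝ) (T : H →L[ℝ] G) : map (c • T) = (c : ℂ) • map T := by
  ext z <;> simp
theorem map_id : map (ContinuousLinearMap.id ℝ H) = ContinuousLinearMap.id ℂ (Cx H) := by
  ext z <;> simp
theorem map_one : map (1 : H →L[ℝ] H) = 1 := map_id

theorem norm_map (T : H →L[ℝ] G) : ‖map T‖ = ‖T‖ := by
  apply le_antisymm
  · exact LinearMap.mkContinuous_norm_le _ (norm_nonneg _) _
  · refine T.opNorm_le_bound (norm_nonneg _) fun x => ?_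
    rw [← norm_of (T x), ← map_of, ← norm_of x]
    exact (map T).le_opNorm _

theorem map_inj {T : H →L[ℝ] G} (h : ∀ x, T x = 0 → x = 0) : ∀ z, map T z = 0 → z = 0 := by
  intro z hz
  ext
  · exact h _ (congrArg re hz)
  · exact h _ (congrArg im hz)

/-- A complex operator which commutes with the conjugations is the complexification of a real one. -/
theorem eq_map (S : Cx H →L[ℂ] Cx G) (h : ∀ z, S (cj H z) = cj G (S z)) :
    S = map ((reL G ∘L S.restrictScalars ℝ) ∘L ofL H) := by
  have h1 : ∀ x : H, S (of x) = of (S (of x)).re := fun x => by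
    rw [← cj_eq_iff, ← h, cj_of]
  ext z
  · conv_lhs => rw [eq_of z, _root_.map_add, map_smul, h1 z.re, h1 z.im]
    simp
  · conv_lhs => rw [eq_of z, _root_.map_add, map_smul, h1 z.re, h1 z.im]
    simp

variable [CompleteSpace H] [CompleteSpace G]

theorem adjoint_map (T : H →L[ℝ] G) :
    ContinuousLinearMap.adjoint (map T) = map (ContinuousLinearMap.adjoint T) := by
  symm
  rw [ContinuousLinearMap.eq_adjoint_iff]
  intro z w
  apply Complex.ext
  · rw [inner_re, inner_re, re_map, im_map, re_map, im_map, ContinuousLinearMap.adjoint_inner_left,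
      ContinuousLinearMap.adjoint_inner_left]
  · rw [inner_im, inner_im, re_map, im_map, re_map, im_map, ContinuousLinearMap.adjoint_inner_left,
      ContinuousLinearMap.adjoint_inner_left]

end

end Cx

end Pool.Agent.Lib.MP_79abb3_an.W
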