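import Mathlib

/-!
Theorem W, block D, part A1: calculus of the class `BB(D)` (`BD D`), `D` open: see the file `DB1` of the block DE. There:
`BD.congr hD hf (h : ∀ x ∈ D, f x = g x)`, `BD.const hD c`, `BD.add`, `BD.clm`, `BD.neg`, `BD.sub`, `BD.const_smul`, `BD.sum`,
`BD.bilin`, `BD.smul`, `BD.mul`, `BD.apply`, `BD.fderiv`, `BD.pd`, `BD.dv`, `BD.contDiffAt`, `BD.differentiableAt`, `Smo.bd`,
and the quantitative forms `Bk.clm`, `Bk.add`, `Bk.const_smul`, `Bk.bilin`, `Bk.apply`.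
-/
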