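import Pool.Agent.Lib.MP_79abb3_an.W.BDc

/-!
Theorem W, block D, part A1b: products and derivatives (continued from `DB1`).
-/

set_option autoImplicit false
set_option linter.unusedSectionVars false

open MeasureTheory Set Filter Topology Function
open scoped ENNReal RealInnerProductSpace

namespace Pool.Agent.Lib.MP_79abb3_an.W

variable {d : ℕ} {D : Set (Ed d)} {E F G : Type} [NormedAddCommGroup E] [NormedSpace ℝ E] [NormedAddCommGroup F]
  [NormedSpace ℝ F] [NormedAddCommGroup G] [NormedSpace ℝ G]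

theorem BD.inner (hD : IsOpen D) {f g : Ed d → Ed d} (hf : BD D f) (hg : BD D g) :
    BD D fun x => ⟪f x, g x⟫ :=
  BD.bilin hD (innerSL ℝ) hf hg

theorem BD.coord (hD : IsOpen D) {f : Ed d → Ed d} (hf : BD D f) (i : Fin d) : BD D fun x => f x i :=
  hf.clm hD (EuclideanSpace.proj i : Ed d →L[ℝ] ℝ)

/-- `f = ∑ f_i e_i` -/
theorem BD.of_coord (hD : IsOpen D) {f : Ed d → Ed d} (hf : ∀ i, BD D fun x => f x i) : BD D f := by
  refine (BD.sum hD Finset.univ fun i _ => (hf i).smul hD (BD.const hD (ei i))).congr hD fun x _ => ?_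
  ext j
  rw [WithLp.ofLp_sum, Finset.sum_apply]
  simp [ei]

theorem BD.fderiv_apply (hD : IsOpen D) {f : Ed d → G} {v : Ed d → Ed d} (hf : BD D f) (hv : BD D v) :
    BD D fun x => _root_.fderiv ℝ f x (v x) :=
  (hf.fderiv hD).apply hD hv

theorem BD.gd (hD : IsOpen D) {f : Ed d → ℝ} (hf : BD D f) : BD D (gd f) :=
  BD.of_coord hD fun i => hf.pd hD i

theorem BD.lap (hD : IsOpen D) {F' : Type} [NormedAddCommGroup F'] [InnerProductSpace ℝ F'] {f : Ed d → F'}
    (hf : BD D f) : BD D (lap f) :=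
  BD.sum hD Finset.univ fun i _ => (hf.pd hD i).pd hD i

/-- Smooth functions on the whole space; `D` is bounded (`closure D` is compact). -/
theorem BD.of_smo (hb : Bornology.IsBounded D) {f : Ed d → G} (hf : Smo f) : BD D f := Smo.bd hb hf

theorem BD.bound {f : Ed d → G} (hf : BD D f) : ∃ C, 0 ≤ C ∧ ∀ x ∈ D, ‖f x‖ ≤ C := by
  obtain ⟨M, hM, h⟩ := hf.exists_Bk 0
  exact ⟨M, hM, fun x hx => h.le0 hx⟩

theorem BD.bound_fderiv {f : Ed d → G} (hf : BD D f) : ∃ C, 0 ≤ C ∧ ∀ x ∈ D, ‖_root_.fderiv ℝ f x‖ ≤ C := by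
  obtain ⟨M, hM, h⟩ := hf.exists_Bk 1
  exact ⟨M, hM, fun x hx => Bk.le1 (k := 0) h hx⟩

theorem BD.diff (hD : IsOpen D) {f : Ed d → G} (hf : BD D f) {x : Ed d} (hx : x ∈ D) :
    DifferentiableAt ℝ f x := hf.differentiableAt hD hx

end Pool.Agent.Lib.MP_79abb3_an.W
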