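import Pool.Agent.Lib.MP_79abb3_an.W.SpDef

/-!
Theorem W (MP_79abb3_an, all smooth bounded domains of `ℝ^d`, `d = 2, 3`): the working domain. `Ed`, `eb`, `dvg` are
other names of `En`, `ei`, `dv` of `SpDef.lean`.
-/

set_option autoImplicit false
set_option linter.unusedSectionVars false

open MeasureTheory Set Filter Topology Function
open scoped ENNReal InnerProductSpace

namespace Pool.Agent.Lib.MP_79abb3_an.W

/-- the space `ℝ^d` -/
abbrev Ed (d : ℕ) : Type := En d

variable {d : ℕ} {F : Type} [NormedAddCommGroup F] [NormedSpace ℝ F]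

/-- the standard basis -/
noncomputable abbrev eb (i : Fin d) : Ed d := ei i

/-- the divergence -/
noncomputable abbrev dvg (v : Ed d → Ed d) (x : Ed d) : ℝ := dv v x

/-- A smooth bounded domain `D = {z > 0}`, where `z` is the distance to the walls `{z = 0}` near the walls. -/
structure Dom (D : Set (Ed d)) (z : Ed d → ℝ) (δ : ℝ) : Prop where
  smo : Smo z
  pos : ∀ x, x ∈ D ↔ 0 < z x
  bdd : Bornology.IsBounded D
  conn : IsConnected D
  δ0 : 0 < δ
  unit : ∀ x, |z x| < 4 * δ → ‖gradient z x‖ = 1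

/-- Functions smooth in `D` with all derivatives bounded on `D` (the class `BB(D)` of the notes). -/
def BD (D : Set (Ed d)) (f : Ed d → F) : Prop :=
  ContDiffOn ℝ ((⊤ : ℕ∞) : WithTop ℕ∞) f D ∧ ∀ k : ℕ, ∃ C, ∀ x ∈ D, ‖iteratedFDeriv ℝ k f x‖ ≤ C

/-- `f = O(z)` in `D`: the function vanishes at the walls. -/
def Oz (D : Set (Ed d)) (z : Ed d → ℝ) (f : Ed d → F) : Prop := ∃ C, ∀ x ∈ D, ‖f x‖ ≤ C * z x

end Pool.Agent.Lib.MP_79abb3_an.W
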