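import Pool.Agent.Lib.MP_79abb3_an.W.DH2
import Pool.Agent.Lib.MP_79abb3_an.W.Def

/-!
Theorem W, block D (layers): definitions.

`ε` is the thickness of the layers, `θ = t / ε²` the fast time, `ζ = z / ε` the stretched distance to the walls. A family is a
field depending on `ε`, `t`. Bounds of families are uniform in `ε ∈ (0, 1]`, `t ∈ ℝ`, `x ∈ D`.
-/

set_option autoImplicit false
set_option linter.unusedSectionVars false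

open MeasureTheory Set Filter Topology Function
open scoped ENNReal RealInnerProductSpace

namespace Pool.Agent.Lib.MP_79abb3_an.W

variable {d : ℕ} {G : Type} [NormedAddCommGroup G] [NormedSpace ℝ G]

/-! ### Fields in the collar -/

/-- The setting: `B` is the closed part of `D` where nothing is required of the fields. -/
structure Stg (D B : Set (Ed d)) (z : Ed d → ℝ) (δ : ℝ) : Prop where
  dom : Dom D z δ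
  clo : IsClosed B
  sub : B ⊆ D
  far : ∀ x ∈ B, 4 * δ ≤ z x

/-- Waves: divergence free in `D`, tangential at the walls, gradients of harmonic functions off `B`. -/
structure Wave (D B : Set (Ed d)) (z : Ed d → ℝ) (W : Ed d → Ed d) : Prop where
  bd : BD D W
  div : ∀ x ∈ D, dv W x = 0
  tan : Oz D z fun x => ⟪gd z x, W x⟫
  pot : ∃ p : Ed d → ℝ, ContDiffOn ℝ ((⊤ : ℕ∞) : WithTop ℕ∞) p (D \ B) ∧ ∀ x ∈ D \ B, W x = gd p x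

/-- Fields with support in the collar `{z ≤ 2δ}`. -/
structure CV (D : Set (Ed d)) (z : Ed d → ℝ) (δ : ℝ) (v : Ed d → G) : Prop where
  bd : BD D v
  supp : ∀ x ∈ D, 2 * δ < z x → v x = 0

/-- Tangential fields with support in the collar. -/
structure CF (D : Set (Ed d)) (z : Ed d → ℝ) (δ : ℝ) (σ : Ed d → Ed d) : Prop extends CV D z δ σ where
  tan : ∀ x ∈ D, ⟪gd z x, σ x⟫ = 0

/-- The tangential part, cut off. -/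
noncomputable def ct (z : Ed d → ℝ) (δ : ℝ) (v : Ed d → Ed d) (x : Ed d) : Ed d :=
  kap δ (z x) • (v x - ⟪gd z x, v x⟫ • gd z x)

/-- `ℓ(σ) = div (σ ⊗ n - n ⊗ σ)`, `n = ∇z`. -/
noncomputable def ell (z : Ed d → ℝ) (σ : Ed d → Ed d) (x : Ed d) : Ed d :=
  ∑ j, pd j (fun y => gd z y j • σ y - σ y j • gd z y) x

/-- The potential of `σ`: harmonic, with the normal derivative `n · ℓ(σ) = - div σ` at the walls. -/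
structure IsPt (D : Set (Ed d)) (z : Ed d → ℝ) (σ : Ed d → Ed d) (q : Ed d → ℝ) : Prop where
  bd : BD D q
  lap : ∀ x ∈ D, lap q x = 0
  nor : Oz D z fun x => ⟪gd z x, gd q x⟫ + dv σ x

/-! ### Profiles -/

/-- The basic profile `Re (A e^{ikθ} ζ^m e^{-μζ})`. -/
noncomputable def bp (k : ℤ) (m : ℕ) (μ A : ℂ) (θ ζ : ℝ) : ℝ :=
  (A * Complex.exp (Complex.I * (k : ℂ) * (θ : ℂ)) * ((ζ : ℂ) ^ m * Complex.exp (-(μ * (ζ : ℂ))))).re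

/-- Profiles with frequencies in `s`. -/
noncomputable def PR (s : Set ℤ) : Submodule ℝ (ℝ → ℝ → ℝ) :=
  Submodule.span ℝ {K | ∃ (k : ℤ) (m : ℕ) (μ A : ℂ), k ∈ s ∧ 0 < μ.re ∧ K = bp k m μ A}

/-- Trigonometric polynomials with frequencies in `s`. -/
noncomputable def TR (s : Set ℤ) : Submodule ℝ (ℝ → ℝ) :=
  Submodule.span ℝ {T | ∃ (k : ℤ) (A : ℂ), k ∈ s ∧ T = fun θ : ℝ => (A * Complex.exp (Complex.I * (k : ℂ) * (θ : ℂ))).re}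

/-- `∂K/∂θ` -/
noncomputable def pth (K : ℝ → ℝ → ℝ) (θ ζ : ℝ) : ℝ := deriv (fun s => K s ζ) θ
/-- `∂K/∂ζ` -/
noncomputable def pze (K : ℝ → ℝ → ℝ) (θ ζ : ℝ) : ℝ := deriv (fun s => K θ s) ζ

/-- The Stokes profile: `K_θ = K_ζζ`, `K(θ,0) = cos (kθ + φ)`. -/
noncomputable def Kh (k : ℕ) (φ θ ζ : ℝ) : ℝ :=
  Real.exp (-(√(k / 2) * ζ)) * Real.cos (k * θ + φ - √(k / 2) * ζ)
/-- The decaying primitive of `Kh`. -/
noncomputable def Gh (k : ℕ) (φ θ ζ : ℝ) : ℝ := -(√k)⁻¹ * Kh k (φ - Real.pi / 4) θ ζ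

/-- Forced profiles: `K_θ - K_ζζ = - f`, `G_ζ = K`, `K(θ,0) = m`, `G(θ,0) = M + τ(θ)`, `τ` of mean zero. -/
structure IsFD (f : ℝ → ℝ → ℝ) (m M : ℝ) (K G : ℝ → ℝ → ℝ) (τ : ℝ → ℝ) : Prop where
  hK : K ∈ PR univ
  hG : G ∈ PR univ
  hτ : τ ∈ TR {0}ᶜ
  heat : ∀ θ ζ, pth K θ ζ - pze (pze K) θ ζ = -f θ ζ
  prim : pze G = K
  tK : ∀ θ, K θ 0 = m
  tG : ∀ θ, G θ 0 = M + τ θ

/-! ### Families -/

/-- Families of functions. -/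
abbrev Fam (d : ℕ) (G : Type) : Type := ℝ → ℝ → Ed d → G

/-- Finite sums `∑ c_i(t) v_i(x)` on `D`, `c_i` smooth, `v_i ∈ BB(D)`. -/
def FS (D : Set (Ed d)) (X : ℝ → Ed d → G) : Prop :=
  ∃ (ι : Type) (_ : Fintype ι) (c : ι → ℝ → ℝ) (v : ι → Ed d → G),
    (∀ i, ContDiff ℝ ((⊤ : ℕ∞) : WithTop ℕ∞) (c i)) ∧ (∀ i, BD D (v i)) ∧
    ∀ t, ∀ x ∈ D, X t x = ∑ i, c i t • v i x

/-- `FS` for all `ε`. -/
def FFS (D : Set (Ed d)) (X : Fam d G) : Prop := ∀ ε ∈ Ioc (0 : ℝ) 1, FS D (X ε)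

/-- Coefficients: smooth functions, bounded with their derivative. -/
structure CB (c : ℝ → ℝ) : Prop where
  smo : ContDiff ℝ ((⊤ : ℕ∞) : WithTop ℕ∞) c
  bd : ∃ C, ∀ t, |c t| ≤ C ∧ |deriv c t| ≤ C

/-- `|X| ≤ C ε^m exp(-c z/ε)` -/
def Lb (D : Set (Ed d)) (z : Ed d → ℝ) (m : ℤ) (X : Fam d G) : Prop :=
  FFS D X ∧ ∃ C c : ℝ, 0 < c ∧ ∀ ε ∈ Ioc (0 : ℝ) 1, ∀ t, ∀ x ∈ D, ‖X ε t x‖ ≤ C * ε ^ m * Real.exp (-(c * (z x / ε)))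

/-- `|X| ≤ C ε^m` -/
def Bb (D : Set (Ed d)) (m : ℤ) (X : Fam d G) : Prop :=
  FFS D X ∧ ∃ C : ℝ, ∀ ε ∈ Ioc (0 : ℝ) 1, ∀ t, ∀ x ∈ D, ‖X ε t x‖ ≤ C * ε ^ m

/-- `|X|, |∇X| ≤ C ε^m` -/
def Bkf (D : Set (Ed d)) (m : ℤ) (X : Fam d (Ed d)) : Prop :=
  FFS D X ∧ ∃ C : ℝ, ∀ ε ∈ Ioc (0 : ℝ) 1, ∀ t, ∀ x ∈ D, ‖X ε t x‖ ≤ C * ε ^ m ∧ ‖fderiv ℝ (X ε t) x‖ ≤ C * ε ^ m

/-- The normal component is `O(ε^m z)`. -/
def Tb (D : Set (Ed d)) (z : Ed d → ℝ) (m : ℤ) (X : Fam d (Ed d)) : Prop :=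
  ∃ C : ℝ, ∀ ε ∈ Ioc (0 : ℝ) 1, ∀ t, ∀ x ∈ D, |⟪gd z x, X ε t x⟫| ≤ C * ε ^ m * z x

/-- Divergence free in `D`. -/
def Dfr (D : Set (Ed d)) (X : Fam d (Ed d)) : Prop := ∀ ε ∈ Ioc (0 : ℝ) 1, ∀ t, ∀ x ∈ D, dv (X ε t) x = 0

/-- Finite sums of gradients off `B`. -/
def Pot (D B : Set (Ed d)) (X : Fam d (Ed d)) : Prop :=
  ∀ ε ∈ Ioc (0 : ℝ) 1, ∃ (ι : Type) (_ : Fintype ι) (c : ι → ℝ → ℝ) (p : ι → Ed d → ℝ),
    (∀ i, ContDiff ℝ ((⊤ : ℕ∞) : WithTop ℕ∞) (c i)) ∧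
    (∀ i, ContDiffOn ℝ ((⊤ : ℕ∞) : WithTop ℕ∞) (p i) (D \ B)) ∧
    ∀ t, ∀ x ∈ D \ B, X ε t x = ∑ i, c i t • gd (p i) x

/-- Layers of size `ε^m`: the normal component is smaller, tangential derivatives are not larger. -/
structure IsLay (D : Set (Ed d)) (z : Ed d → ℝ) (m : ℤ) (X : Fam d (Ed d)) : Prop where
  fs : FFS D X
  div : Dfr D X
  bd : ∃ C c : ℝ, 0 < c ∧ ∀ ε ∈ Ioc (0 : ℝ) 1, ∀ t, ∀ x ∈ D,
    ‖X ε t x‖ ≤ C * ε ^ m * Real.exp (-(c * (z x / ε))) ∧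
    |⟪gd z x, X ε t x⟫| ≤ C * ε ^ (m + 1) * Real.exp (-(c * (z x / ε))) ∧
    ∀ v : Ed d, ‖fderiv ℝ (X ε t) x v‖ ≤
      C * Real.exp (-(c * (z x / ε))) * (ε ^ (m - 1) * |⟪gd z x, v⟫| + ε ^ m * ‖v‖)

/-- `∂_t X - Δ X` -/
noncomputable def Hop (X : Fam d (Ed d)) : Fam d (Ed d) := fun ε t x => deriv (fun s => X ε s x) t - lap (X ε t) x

/-- `(X · ∇) Y` -/
noncomputable def Trn (X Y : Fam d (Ed d)) : Fam d (Ed d) := fun ε t x => fderiv ℝ (Y ε t) x (X ε t x)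

/-- Crude correctors: size `ε³`, residual `ε`. -/
structure IsCr (D : Set (Ed d)) (X : Fam d (Ed d)) : Prop where
  bk : Bkf D 3 X
  div : Dfr D X
  hop : Bb D 1 (Hop X)

/-- Negligible: `X = ∇π + r` off `B`, `|r| ≤ C (ε⁻¹ exp(-c z/ε) + ε)` in `D`. -/
def Ng (D B : Set (Ed d)) (z : Ed d → ℝ) (X : Fam d (Ed d)) : Prop :=
  ∃ (r : Fam d (Ed d)) (π : Fam d ℝ) (C c : ℝ), 0 < c ∧ FFS D r ∧
    (∀ ε ∈ Ioc (0 : ℝ) 1, ∀ t, ContDiffOn ℝ ((⊤ : ℕ∞) : WithTop ℕ∞) (π ε t) (D \ B)) ∧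
    (∀ ε ∈ Ioc (0 : ℝ) 1, ∀ t, ∀ x ∈ D \ B, X ε t x = r ε t x + gd (π ε t) x) ∧
    ∀ ε ∈ Ioc (0 : ℝ) 1, ∀ t, ∀ x ∈ D, ‖r ε t x‖ ≤ C * (ε⁻¹ * Real.exp (-(c * (z x / ε))) + ε)

/-- `X = O(z)` for all `ε`, `t`. -/
def Tz (D : Set (Ed d)) (z : Ed d → ℝ) (X : Fam d G) : Prop := ∀ ε ∈ Ioc (0 : ℝ) 1, ∀ t, Oz D z (X ε t)

/-- The family `c(t) K(t/ε², z/ε) v(x)`. -/
noncomputable def atm (z : Ed d → ℝ) (c : ℝ → ℝ) (K : ℝ → ℝ → ℝ) (v : Ed d → G) : Fam d G :=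
  fun ε t x => (c t * K (t / ε ^ 2) (z x / ε)) • v x

/-- The layer `c(t) (K σ + ε G ℓ(σ))`. -/
noncomputable def lay (z : Ed d → ℝ) (c : ℝ → ℝ) (K G : ℝ → ℝ → ℝ) (σ : Ed d → Ed d) : Fam d (Ed d) :=
  fun ε t x => atm z c K σ ε t x + ε • atm z c G (ell z σ) ε t x

/-- The family `c(t) T(t/ε²) v(x)`. -/
noncomputable def btm (c T : ℝ → ℝ) (v : Ed d → G) : Fam d G := fun ε t x => (c t * T (t / ε ^ 2)) • v x

/-- The wave `cos (kθ + φ)`. -/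
noncomputable def cw (k : ℕ) (φ θ : ℝ) : ℝ := Real.cos (k * θ + φ)

/-- Bounds of derivatives of order at most `k` on a set. -/
def Bn (O : Set (Ed d)) (k : ℕ) (A : ℝ) (f : Ed d → G) : Prop := ∀ i ≤ k, ∀ x ∈ O, ‖iteratedFDeriv ℝ i f x‖ ≤ A

/-- The part of the collar `{0 < z < r}`. -/
def strip (D : Set (Ed d)) (z : Ed d → ℝ) (r : ℝ) : Set (Ed d) := {x | x ∈ D ∧ z x < r}

end Pool.Agent.Lib.MP_79abb3_an.W
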