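import Pool.Agent.Lib.MP_79abb3_an.W.BDc
import Pool.Agent.Lib.MP_79abb3_an.W.DDef

/-!
Theorem W, block D, part A2: bounds of derivatives of order at most `k` (`Bn`), with explicit dependence. `O` is open.
-/

set_option autoImplicit false
set_option linter.unusedSectionVars false

open MeasureTheory Set Filter Topology Function
open scoped ENNReal RealInnerProductSpace

namespace Pool.Agent.Lib.MP_79abb3_an.W

variable {d : ℕ} {D O : Set (Ed d)} {E F G : Type} [NormedAddCommGroup E] [NormedSpace ℝ E] [NormedAddCommGroup F]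
  [NormedSpace ℝ F] [NormedAddCommGroup G] [NormedSpace ℝ G] {k l : ℕ} {A A' : ℝ}

theorem Bn.mono {f : Ed d → G} (h : Bn O k A f) (hl : l ≤ k) (hA : A ≤ A') : Bn O l A' f := by
  exact fun i hi x hx => (h i (hi.trans hl) x hx).trans hA

theorem Bn.subset {O' : Set (Ed d)} {f : Ed d → G} (h : Bn O k A f) (hO : O' ⊆ O) : Bn O' k A f := by
  exact fun i hi x hx => h i hi x (hO hx)

theorem Bn.congr (hO : IsOpen O) {f g : Ed d → G} (h : Bn O k A f) (hg : ∀ x ∈ O, g x = f x) : Bn O k A g := by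
  exact Bk.congr (k := k) (M := A) hO h fun x hx => (hg x hx).symm

theorem BD.bn {f : Ed d → G} (hf : BD D f) (k : ℕ) : ∃ A, 0 ≤ A ∧ Bn D k A f := by
  exact hf.exists_Bk k

theorem Bn.add (hO : IsOpen O) {f g : Ed d → G} (hf : ContDiffOn ℝ ((⊤ : ℕ∞) : WithTop ℕ∞) f O)
    (hg : ContDiffOn ℝ ((⊤ : ℕ∞) : WithTop ℕ∞) g O) (h : Bn O k A f) (h' : Bn O k A' g) :
    Bn O k (A + A') fun x => f x + g x := by
  exact Bk.add (k := k) hO hf hg h h'

theorem Bn.sum (hO : IsOpen O) {ι : Type} (s : Finset ι) {f : ι → Ed d → G} {a : ι → ℝ}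
    (hf : ∀ i ∈ s, ContDiffOn ℝ ((⊤ : ℕ∞) : WithTop ℕ∞) (f i) O) (h : ∀ i ∈ s, Bn O k (a i) (f i)) :
    Bn O k (∑ i ∈ s, a i) fun x => ∑ i ∈ s, f i x := by
  classical
  induction s using Finset.induction_on with
  | empty =>
    intro i _ x _
    simp only [Finset.sum_empty]
    cases i with
    | zero => rw [norm_iteratedFDeriv_zero, norm_zero]
    | succ i =>
      rw [iteratedFDeriv_succ_const]
      simp
  | insert b s hb ih =>
    simp only [Finset.sum_insert hb]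
    refine Bn.add hO (hf b (Finset.mem_insert_self b s)) ?_ (h b (Finset.mem_insert_self b s))
      (ih (fun i hi => hf i (Finset.mem_insert_of_mem hi)) fun i hi => h i (Finset.mem_insert_of_mem hi))
    exact ContDiffOn.sum fun i hi => hf i (Finset.mem_insert_of_mem hi)

theorem Bn.clm (hO : IsOpen O) (L : G →L[ℝ] E) {f : Ed d → G} (hf : ContDiffOn ℝ ((⊤ : ℕ∞) : WithTop ℕ∞) f O)
    (h : Bn O k A f) : Bn O k (‖L‖ * A) fun x => L (f x) := by
  exact Bk.clm (k := k) hO L hf h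

theorem Bn.const_smul (hO : IsOpen O) (c : ℝ) {f : Ed d → G} (hf : ContDiffOn ℝ ((⊤ : ℕ∞) : WithTop ℕ∞) f O)
    (h : Bn O k A f) : Bn O k (|c| * A) fun x => c • f x := by
  exact Bk.const_smul (k := k) hO c hf h

/-- Products, with a constant which depends only on `L` and `k`. -/
theorem Bn.bilin (L : G →L[ℝ] E →L[ℝ] F) (k : ℕ) : ∃ C, 0 ≤ C ∧ ∀ (O : Set (Ed d)), IsOpen O →
    ∀ (f : Ed d → G) (g : Ed d → E) (A A' : ℝ), 0 ≤ A → 0 ≤ A' → ContDiffOn ℝ ((⊤ : ℕ∞) : WithTop ℕ∞) f O →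
    ContDiffOn ℝ ((⊤ : ℕ∞) : WithTop ℕ∞) g O → Bn O k A f → Bn O k A' g →
    Bn O k (C * (A * A')) fun x => L (f x) (g x) := by
  refine ⟨‖L‖ * 2 ^ k, by positivity, fun O hO f g A A' hA hA' hf hg h h' => ?_⟩
  have h1 := Bk.bilin (k := k) hO L hf hg hA hA' h h'
  rwa [← mul_assoc] at h1

theorem Bn.fderiv (hO : IsOpen O) {f : Ed d → G} (h : Bn O (k + 1) A f) : Bn O k A (fderiv ℝ f) := by
  exact Bk.fderiv (k := k) h

/-- `n = ∇z` and functions of `z` are fixed functions: multiplication by a fixed function in `BB(D)`. -/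
theorem Bn.fix (hD : IsOpen D) {b : Ed d → G} (hb : BD D b) (L : G →L[ℝ] E →L[ℝ] F) (k : ℕ) :
    ∃ C, 0 ≤ C ∧ ∀ O ⊆ D, IsOpen O → ∀ (f : Ed d → E) (A : ℝ), 0 ≤ A →
    ContDiffOn ℝ ((⊤ : ℕ∞) : WithTop ℕ∞) f O → Bn O k A f → Bn O k (C * A) fun x => L (b x) (f x) := by
  obtain ⟨C, hC, h1⟩ := Bn.bilin (d := d) L k
  obtain ⟨M, hM, h2⟩ := hb.exists_Bk k
  refine ⟨C * M, by positivity, fun O hOD hO f A hA hf h => ?_⟩
  have h3 := h1 O hO b f M A hM hA (hb.1.mono hOD) hf (fun i hi x hx => h2 i hi x (hOD hx)) h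
  rwa [← mul_assoc] at h3

end Pool.Agent.Lib.MP_79abb3_an.W
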