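import Pool.Agent.Lib.MP_79abb3_an.W.DH1
import Pool.Agent.Lib.MP_79abb3_an.W.Def
import Pool.Agent.Lib.MP_79abb3_an.W.SpA

section

/-!
Theorem W, block D, part A3b: second derivatives.
-/

set_option autoImplicit false
set_option linter.unusedSectionVars false

open MeasureTheory Set Filter Topology Function
open scoped ENNReal RealInnerProductSpace

namespace Pool.Agent.Lib.MP_79abb3_an.W

variable {d : ℕ} {O : Set (Ed d)} {z : Ed d → ℝ} {G : Type} [NormedAddCommGroup G] [NormedSpace ℝ G]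

private theorem da3b_at (hO : IsOpen O) {f : Ed d → G} (hf : ContDiffOn ℝ ((⊤ : ℕ∞) : WithTop ℕ∞) f O)
    {x : Ed d} (hx : x ∈ O) : ContDiffAt ℝ ((⊤ : ℕ∞) : WithTop ℕ∞) f x := hf.contDiffAt (hO.mem_nhds hx)

private theorem da3b_da (hO : IsOpen O) {f : Ed d → G} (hf : ContDiffOn ℝ ((⊤ : ℕ∞) : WithTop ℕ∞) f O)
    {x : Ed d} (hx : x ∈ O) : DifferentiableAt ℝ f x :=
  (da3b_at hO hf hx).differentiableAt (by norm_num)

private theorem da3b_pd (hO : IsOpen O) {f : Ed d → G} (hf : ContDiffOn ℝ ((⊤ : ℕ∞) : WithTop ℕ∞) f O)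
    (i : Fin d) : ContDiffOn ℝ ((⊤ : ℕ∞) : WithTop ℕ∞) (pd i f) O := by
  have h1 : ContDiffOn ℝ ((⊤ : ℕ∞) : WithTop ℕ∞) (fderiv ℝ f) O :=
    hf.fderiv_of_isOpen hO (by exact_mod_cast le_top)
  exact h1.clm_apply contDiffOn_const

private theorem da3b_congr (hO : IsOpen O) {f g : Ed d → G} (h : ∀ y ∈ O, f y = g y) {x : Ed d} (hx : x ∈ O)
    (i : Fin d) : pd i f x = pd i g x := by
  have h1 : f =ᶠ[𝓝 x] g := by
    filter_upwards [hO.mem_nhds hx] with y hy using h y hy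
  show fderiv ℝ f x (ei i) = fderiv ℝ g x (ei i)
  rw [h1.fderiv_eq]

private theorem da3b_add {f g : Ed d → G} {x : Ed d} (hf : DifferentiableAt ℝ f x)
    (hg : DifferentiableAt ℝ g x) (i : Fin d) : pd i (fun y => f y + g y) x = pd i f x + pd i g x := by
  show fderiv ℝ (fun y => f y + g y) x (ei i) = _
  rw [fderiv_fun_add hf hg]
  rfl

private theorem da3b_csmul (c : ℝ) {f : Ed d → G} {x : Ed d} (hf : DifferentiableAt ℝ f x) (i : Fin d) :
    pd i (fun y => c • f y) x = c • pd i f x := by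
  show fderiv ℝ (fun y => c • f y) x (ei i) = _
  rw [fderiv_fun_const_smul hf]
  rfl

private theorem da3b_smul {a : Ed d → ℝ} {f : Ed d → G} {x : Ed d} (ha : DifferentiableAt ℝ a x)
    (hf : DifferentiableAt ℝ f x) (i : Fin d) :
    pd i (fun y => a y • f y) x = pd i a x • f x + a x • pd i f x := by
  show fderiv ℝ (fun y => a y • f y) x (ei i) = _
  rw [fderiv_fun_smul ha hf, add_comm]
  rfl

private theorem da3b_sum {ι : Type} (s : Finset ι) {f : ι → Ed d → G} {x : Ed d}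
    (hf : ∀ j ∈ s, DifferentiableAt ℝ (f j) x) (i : Fin d) :
    pd i (fun y => ∑ j ∈ s, f j y) x = ∑ j ∈ s, pd i (f j) x := by
  show fderiv ℝ (fun y => ∑ j ∈ s, f j y) x (ei i) = _
  rw [fderiv_fun_sum hf]
  simp [pd]

private theorem da3b_apply {f : Ed d → Ed d} {x : Ed d} (hf : DifferentiableAt ℝ f x) (i k : Fin d) :
    pd i (fun y => f y k) x = pd i f x k := by
  have h1 : HasFDerivAt (fun x => f x k) ((EuclideanSpace.proj k : En d →L[ℝ] ℝ).comp (fderiv ℝ f x)) x :=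
    (EuclideanSpace.proj k : En d →L[ℝ] ℝ).hasFDerivAt.comp x hf.hasFDerivAt
  show fderiv ℝ (fun x => f x k) x (ei i) = _
  rw [h1.fderiv]
  rfl

private theorem da3b_comp (_hO : IsOpen O) {f : Ed d → Ed d} (hf : ContDiffOn ℝ ((⊤ : ℕ∞) : WithTop ℕ∞) f O)
    (k : Fin d) : ContDiffOn ℝ ((⊤ : ℕ∞) : WithTop ℕ∞) (fun y => f y k) O :=
  (contDiffOn_euclidean.1 hf) k

private theorem da3b_comm (hO : IsOpen O) {f : Ed d → G} (hf : ContDiffOn ℝ ((⊤ : ℕ∞) : WithTop ℕ∞) f O)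
    (i j : Fin d) {x : Ed d} (hx : x ∈ O) : pd i (pd j f) x = pd j (pd i f) x := by
  have h3 : ContDiffOn ℝ ((⊤ : ℕ∞) : WithTop ℕ∞) (fderiv ℝ f) O :=
    hf.fderiv_of_isOpen hO (by exact_mod_cast le_top)
  have h1 : ∀ k l : Fin d, pd k (pd l f) x = fderiv ℝ (fderiv ℝ f) x (ei k) (ei l) := by
    intro k l
    have h2 : DifferentiableAt ℝ (fderiv ℝ f) x := da3b_da hO h3 hx
    show fderiv ℝ (fun y => fderiv ℝ f y (ei l)) x (ei k) = _
    rw [fderiv_clm_apply h2 (differentiableAt_const _)]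
    simp
  rw [h1, h1]
  have h4 : minSmoothness ℝ 2 ≤ ((⊤ : ℕ∞) : WithTop ℕ∞) := by
    rw [minSmoothness_of_isRCLikeNormedField]
    exact WithTop.coe_le_coe.2 (le_top : (2 : ℕ∞) ≤ ⊤)
  exact ((da3b_at hO hf hx).isSymmSndFDerivAt h4).eq _ _

/-- `pd i (pd i f)` of a field, component `k` -/
private theorem da3b_apply2 (hO : IsOpen O) {f : Ed d → Ed d}
    (hf : ContDiffOn ℝ ((⊤ : ℕ∞) : WithTop ℕ∞) f O) (i j k : Fin d) {x : Ed d} (hx : x ∈ O) :
    pd i (pd j f) x k = pd i (pd j fun y => f y k) x := by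
  rw [← da3b_apply (da3b_da hO (da3b_pd hO hf j) hx) i k]
  exact da3b_congr hO (fun y hy => (da3b_apply (da3b_da hO hf hy) j k).symm) hx i

theorem lap_add_on (hO : IsOpen O) {v w : Ed d → Ed d} (hv : ContDiffOn ℝ ((⊤ : ℕ∞) : WithTop ℕ∞) v O)
    (hw : ContDiffOn ℝ ((⊤ : ℕ∞) : WithTop ℕ∞) w O) {x : Ed d} (hx : x ∈ O) :
    lap (fun y => v y + w y) x = lap v x + lap w x := by
  unfold lap
  rw [← Finset.sum_add_distrib]
  refine Finset.sum_congr rfl fun i _ => ?_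
  rw [da3b_congr hO (fun y hy => da3b_add (da3b_da hO hv hy) (da3b_da hO hw hy) i) hx i]
  exact da3b_add (da3b_da hO (da3b_pd hO hv i) hx) (da3b_da hO (da3b_pd hO hw i) hx) i

theorem lap_const_smul_on (hO : IsOpen O) (c : ℝ) {v : Ed d → Ed d}
    (hv : ContDiffOn ℝ ((⊤ : ℕ∞) : WithTop ℕ∞) v O) {x : Ed d} (hx : x ∈ O) :
    lap (fun y => c • v y) x = c • lap v x := by
  unfold lap
  rw [Finset.smul_sum]
  refine Finset.sum_congr rfl fun i _ => ?_
  rw [da3b_congr hO (fun y hy => da3b_csmul c (da3b_da hO hv hy) i) hx i]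
  exact da3b_csmul c (da3b_da hO (da3b_pd hO hv i) hx) i

theorem lap_sum_on (hO : IsOpen O) {ι : Type} (s : Finset ι) {v : ι → Ed d → Ed d}
    (hv : ∀ i ∈ s, ContDiffOn ℝ ((⊤ : ℕ∞) : WithTop ℕ∞) (v i) O) {x : Ed d} (hx : x ∈ O) :
    lap (fun y => ∑ i ∈ s, v i y) x = ∑ i ∈ s, lap (v i) x := by
  unfold lap
  rw [Finset.sum_comm]
  refine Finset.sum_congr rfl fun i _ => ?_
  rw [da3b_congr hO (fun y hy => da3b_sum s (fun j hj => da3b_da hO (hv j hj) hy) i) hx i]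
  exact da3b_sum s (fun j hj => da3b_da hO (da3b_pd hO (hv j hj) i) hx) i

/-- The Laplacian of `F(z) g`. -/
theorem lap_comp_smul_on (hO : IsOpen O) {F : ℝ → ℝ} (hF : ContDiff ℝ ((⊤ : ℕ∞) : WithTop ℕ∞) F) (hz : Smo z)
    {g : Ed d → Ed d} (hg : ContDiffOn ℝ ((⊤ : ℕ∞) : WithTop ℕ∞) g O) {x : Ed d} (hx : x ∈ O) :
    lap (fun y => F (z y) • g y) x = (deriv (deriv F) (z x) * ‖gd z x‖ ^ 2) • g x +
      deriv F (z x) • (lap z x • g x + (2 : ℝ) • fderiv ℝ g x (gd z x)) + F (z x) • lap g x := by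
  have hF1 : ContDiff ℝ ((⊤ : ℕ∞) : WithTop ℕ∞) (deriv F) :=
    ((contDiff_infty_iff_deriv (𝕜 := ℝ)).1 hF).2
  have ha : Smo fun y => F (z y) := smo_comp hF hz
  have ha1 : Smo fun y => deriv F (z y) := smo_comp hF1 hz
  have hpa : ∀ i y, pd i (fun y => F (z y)) y = deriv F (z y) * pd i z y := fun i y => pd_comp hF hz i y
  have hpa2 : ∀ i : Fin d, pd i (pd i fun y => F (z y)) x =
      deriv (deriv F) (z x) * pd i z x * pd i z x + deriv F (z x) * pd i (pd i z) x := by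
    intro i
    have e1 : (pd i fun y => F (z y)) = fun y => deriv F (z y) • pd i z y := by
      funext y
      rw [hpa, smul_eq_mul]
    rw [e1, pd_fsmul ha1 (hz.pd i) i x, pd_comp hF1 hz i x]
    simp only [smul_eq_mul]
  have hterm : ∀ i : Fin d, pd i (pd i fun y => F (z y) • g y) x =
      (deriv (deriv F) (z x) * pd i z x * pd i z x + deriv F (z x) * pd i (pd i z) x) • g x +
      (2 * (deriv F (z x) * pd i z x)) • pd i g x + F (z x) • pd i (pd i g) x := by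
    intro i
    rw [da3b_congr hO (fun y hy => da3b_smul (ha.differentiable y) (da3b_da hO hg hy) i) hx i]
    have hpg := da3b_pd hO hg i
    have d1 : DifferentiableAt ℝ (fun y => pd i (fun y => F (z y)) y • g y) x :=
      ((ha.pd i).differentiable x).fun_smul (da3b_da hO hg hx)
    have d2 : DifferentiableAt ℝ (fun y => F (z y) • pd i g y) x :=
      (ha.differentiable x).fun_smul (da3b_da hO hpg hx)
    rw [da3b_add d1 d2 i,
      da3b_smul ((ha.pd i).differentiable x) (da3b_da hO hg hx) i,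
      da3b_smul (ha.differentiable x) (da3b_da hO hpg hx) i, hpa2, hpa]
    module
  have hn : ‖gd z x‖ ^ 2 = ∑ i, pd i z x * pd i z x := by
    rw [EuclideanSpace.norm_sq_eq]
    refine Finset.sum_congr rfl fun i _ => ?_
    rw [gd_apply, Real.norm_eq_abs, sq_abs, sq]
  have hfd : fderiv ℝ g x (gd z x) = ∑ i, pd i z x • pd i g x := by
    rw [fderiv_eq_sum]
    rfl
  have hlz : lap z x = ∑ i, pd i (pd i z) x := rfl
  have hlg : lap g x = ∑ i, pd i (pd i g) x := rfl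
  show ∑ i, pd i (pd i fun y => F (z y) • g y) x = _
  rw [Finset.sum_congr rfl fun i _ => hterm i, Finset.sum_add_distrib, Finset.sum_add_distrib, hn, hfd, hlz,
    hlg, ← Finset.smul_sum, ← Finset.sum_smul, Finset.sum_add_distrib]
  have e1 : ∑ i, (2 * (deriv F (z x) * pd i z x)) • pd i g x =
      deriv F (z x) • (2 : ℝ) • ∑ i, pd i z x • pd i g x := by
    rw [Finset.smul_sum, Finset.smul_sum]
    refine Finset.sum_congr rfl fun i _ => ?_
    module
  have e2 : ∑ i, deriv (deriv F) (z x) * pd i z x * pd i z x =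
      deriv (deriv F) (z x) * ∑ i, pd i z x * pd i z x := by
    rw [Finset.mul_sum]
    exact Finset.sum_congr rfl fun i _ => by ring
  have e3 : ∑ i, deriv F (z x) * pd i (pd i z) x = deriv F (z x) * ∑ i, pd i (pd i z) x := by
    rw [Finset.mul_sum]
  rw [e1, e2, e3]
  module

/-- Second derivatives commute: `D²p` is symmetric. -/
theorem fderiv_gd_symm (hO : IsOpen O) {p : Ed d → ℝ} (hp : ContDiffOn ℝ ((⊤ : ℕ∞) : WithTop ℕ∞) p O) {x : Ed d}
    (hx : x ∈ O) (v w : Ed d) : ⟪fderiv ℝ (gd p) x v, w⟫ = ⟪fderiv ℝ (gd p) x w, v⟫ := by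
  have hgd : ContDiffOn ℝ ((⊤ : ℕ∞) : WithTop ℕ∞) (gd p) O :=
    contDiffOn_euclidean.2 fun i => da3b_pd hO hp i
  have key : ∀ v w : Ed d, ⟪fderiv ℝ (gd p) x v, w⟫ = ∑ j, ∑ i, v i * w j * pd i (pd j p) x := by
    intro v w
    rw [PiLp.inner_apply]
    refine Finset.sum_congr rfl fun j _ => ?_
    rw [fderiv_eq_sum (gd p) x v]
    have h1 : (∑ i, v i • pd i (gd p) x) j = ∑ i, v i * pd i (pd j p) x := by
      rw [WithLp.ofLp_sum, Finset.sum_apply]
      refine Finset.sum_congr rfl fun i _ => ?_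
      have h2 := da3b_apply (da3b_da hO hgd hx) i j
      show v i * pd i (gd p) x j = _
      rw [← h2]
      rfl
    rw [h1]
    show w j * ∑ i, v i * pd i (pd j p) x = _
    rw [Finset.mul_sum]
    exact Finset.sum_congr rfl fun i _ => by ring
  rw [key v w, key w v, Finset.sum_comm]
  refine Finset.sum_congr rfl fun i _ => Finset.sum_congr rfl fun j _ => ?_
  rw [da3b_comm hO hp i j hx]
  ring

theorem gd_contDiffOn (hO : IsOpen O) {p : Ed d → ℝ} (hp : ContDiffOn ℝ ((⊤ : ℕ∞) : WithTop ℕ∞) p O) :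
    ContDiffOn ℝ ((⊤ : ℕ∞) : WithTop ℕ∞) (gd p) O :=
  contDiffOn_euclidean.2 fun i => da3b_pd hO hp i

theorem lap_contDiffOn (hO : IsOpen O) {p : Ed d → ℝ} (hp : ContDiffOn ℝ ((⊤ : ℕ∞) : WithTop ℕ∞) p O) :
    ContDiffOn ℝ ((⊤ : ℕ∞) : WithTop ℕ∞) (lap p) O :=
  ContDiffOn.sum fun i _ => da3b_pd hO (da3b_pd hO hp i) i

/-- `(∇p · ∇)∇p = ∇ (|∇p|²/2)` -/
theorem fderiv_gd_self (hO : IsOpen O) {p : Ed d → ℝ} (hp : ContDiffOn ℝ ((⊤ : ℕ∞) : WithTop ℕ∞) p O) {x : Ed d}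
    (hx : x ∈ O) : fderiv ℝ (gd p) x (gd p x) = gd (fun y => ‖gd p y‖ ^ 2 / 2) x := by
  refine ext_inner_right ℝ fun w => ?_
  have hd : DifferentiableAt ℝ (gd p) x := da3b_da hO (gd_contDiffOn hO hp) hx
  rw [fderiv_gd_symm hO hp hx, inner_gd]
  have h1 : HasFDerivAt (fun y => ‖gd p y‖ ^ 2 / 2) ((2 : ℝ)⁻¹ • (2 • (innerSL ℝ (gd p x)).comp (fderiv ℝ (gd p) x)))
      x := by
    have h2 := hd.hasFDerivAt.norm_sq
    have h3 := h2.const_mul (2 : ℝ)⁻¹
    refine h3.congr_of_eventuallyEq (Eventually.of_forall fun y => ?_)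
    show ‖gd p y‖ ^ 2 / 2 = (2 : ℝ)⁻¹ * ‖gd p y‖ ^ 2
    ring
  rw [h1.fderiv]
  show _ = (2 : ℝ)⁻¹ • (2 • ⟪gd p x, fderiv ℝ (gd p) x w⟫)
  rw [real_inner_comm]
  simp

/-- `Δ∇p = ∇Δp` -/
theorem lap_gd_on (hO : IsOpen O) {p : Ed d → ℝ} (hp : ContDiffOn ℝ ((⊤ : ℕ∞) : WithTop ℕ∞) p O) {x : Ed d}
    (hx : x ∈ O) : lap (gd p) x = gd (lap p) x := by
  ext k
  have h1 : lap (gd p) x k = ∑ i, pd i (pd i (gd p)) x k := by
    unfold lap
    rw [WithLp.ofLp_sum, Finset.sum_apply]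
  rw [h1, gd_apply]
  have h2 : pd k (lap p) x = ∑ i, pd k (pd i (pd i p)) x :=
    da3b_sum Finset.univ (fun i _ => da3b_da hO (da3b_pd hO (da3b_pd hO hp i) i) hx) k
  rw [h2]
  refine Finset.sum_congr rfl fun i _ => ?_
  rw [da3b_apply2 hO (gd_contDiffOn hO hp) i i k hx]
  show pd i (pd i (pd k p)) x = _
  rw [da3b_congr hO (fun y hy => da3b_comm hO hp i k hy) hx i]
  exact da3b_comm hO (da3b_pd hO hp i) i k hx

theorem dv_gd_at {p : Ed d → ℝ} {x : Ed d} (hp : DifferentiableAt ℝ (gd p) x) : dv (gd p) x = lap p x := by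
  unfold dv lap
  refine Finset.sum_congr rfl fun i _ => ?_
  rw [← da3b_apply hp i i]
  rfl

/-- `div div` of an antisymmetric matrix vanishes. -/
theorem dv_anti (hO : IsOpen O) {a b : Ed d → Ed d} (ha : ContDiffOn ℝ ((⊤ : ℕ∞) : WithTop ℕ∞) a O)
    (hb : ContDiffOn ℝ ((⊤ : ℕ∞) : WithTop ℕ∞) b O) {x : Ed d} (hx : x ∈ O) :
    dv (fun y => ∑ j, pd j (fun w => a w j • b w - b w j • a w) y) x = 0 := by
  have hM : ∀ j : Fin d, ContDiffOn ℝ ((⊤ : ℕ∞) : WithTop ℕ∞) (fun w => a w j • b w - b w j • a w) O :=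
    fun j => ((da3b_comp hO ha j).smul hb).sub ((da3b_comp hO hb j).smul ha)
  set A : Fin d → Fin d → ℝ := fun i j => pd i (pd j fun w => a w j * b w i - b w j * a w i) x with hA
  have h1 : ∀ i : Fin d, pd i (fun y => ∑ j, pd j (fun w => a w j • b w - b w j • a w) y) x i = ∑ j, A i j := by
    intro i
    rw [da3b_sum Finset.univ (fun j _ => da3b_da hO (da3b_pd hO (hM j) j) hx) i, WithLp.ofLp_sum,
      Finset.sum_apply]
    refine Finset.sum_congr rfl fun j _ => ?_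
    exact da3b_apply2 hO (hM j) i j i hx
  have h2 : ∀ i j, A i j = -A j i := by
    intro i j
    have hs : ContDiffOn ℝ ((⊤ : ℕ∞) : WithTop ℕ∞) (fun w => a w i * b w j - b w i * a w j) O :=
      ((da3b_comp hO ha i).mul (da3b_comp hO hb j)).sub ((da3b_comp hO hb i).mul (da3b_comp hO ha j))
    have e1 : (fun w => a w j * b w i - b w j * a w i) = fun w => (-1 : ℝ) • (a w i * b w j - b w i * a w j) := by
      funext w
      rw [smul_eq_mul]
      ring
    simp only [hA]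
    rw [e1, da3b_congr hO (fun y hy => da3b_csmul (-1) (da3b_da hO hs hy) j) hx i,
      da3b_csmul (-1) (da3b_da hO (da3b_pd hO hs j) hx) i, da3b_comm hO hs i j hx]
    simp
  unfold dv
  rw [Finset.sum_congr rfl fun i _ => h1 i]
  have h3 : ∑ i, ∑ j, A i j = -∑ i, ∑ j, A i j := by
    conv_lhs => rw [Finset.sum_comm]
    rw [← Finset.sum_neg_distrib]
    refine Finset.sum_congr rfl fun i _ => ?_
    rw [← Finset.sum_neg_distrib]
    exact Finset.sum_congr rfl fun j _ => h2 j i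
  linarith

end Pool.Agent.Lib.MP_79abb3_an.W
end

section

/-!
Theorem W, block D, part A3: vector calculus on an open set `O`.
-/

set_option autoImplicit false
set_option linter.unusedSectionVars false

open MeasureTheory Set Filter Topology Function
open scoped ENNReal RealInnerProductSpace

namespace Pool.Agent.Lib.MP_79abb3_an.W

variable {d : ℕ} {O : Set (Ed d)} {z : Ed d → ℝ} {G : Type} [NormedAddCommGroup G] [NormedSpace ℝ G]

/-- `gd q` at a point depends only on the values near the point. -/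
theorem gd_congr {p q : Ed d → ℝ} {x : Ed d} (h : p =ᶠ[𝓝 x] q) : gd p x = gd q x := by
  have h1 : fderiv ℝ p x = fderiv ℝ q x := h.fderiv_eq
  ext i
  rw [gd_apply, gd_apply]
  show fderiv ℝ p x (ei i) = fderiv ℝ q x (ei i)
  rw [h1]

theorem gd_add_at {p q : Ed d → ℝ} {x : Ed d} (hp : DifferentiableAt ℝ p x) (hq : DifferentiableAt ℝ q x) :
    gd (fun y => p y + q y) x = gd p x + gd q x := by
  ext i
  show fderiv ℝ (fun y => p y + q y) x (ei i) = fderiv ℝ p x (ei i) + fderiv ℝ q x (ei i)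
  rw [fderiv_fun_add hp hq]
  rfl

theorem gd_smul_at (c : ℝ) {p : Ed d → ℝ} {x : Ed d} (hp : DifferentiableAt ℝ p x) :
    gd (fun y => c * p y) x = c • gd p x := by
  ext i
  show fderiv ℝ (fun y => c * p y) x (ei i) = c * fderiv ℝ p x (ei i)
  rw [fderiv_const_mul hp]
  rfl

theorem gd_sum_at {ι : Type} (s : Finset ι) {p : ι → Ed d → ℝ} {x : Ed d}
    (hp : ∀ i ∈ s, DifferentiableAt ℝ (p i) x) : gd (fun y => ∑ i ∈ s, p i y) x = ∑ i ∈ s, gd (p i) x := by
  ext i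
  have h1 : (∑ j ∈ s, gd (p j) x) i = ∑ j ∈ s, gd (p j) x i := by
    simp
  rw [h1, gd_apply]
  show fderiv ℝ (fun y => ∑ j ∈ s, p j y) x (ei i) = ∑ j ∈ s, fderiv ℝ (p j) x (ei i)
  rw [fderiv_fun_sum hp]
  simp

theorem gd_mul_at {p q : Ed d → ℝ} {x : Ed d} (hp : DifferentiableAt ℝ p x) (hq : DifferentiableAt ℝ q x) :
    gd (fun y => p y * q y) x = p x • gd q x + q x • gd p x := by
  ext i
  show fderiv ℝ (fun y => p y * q y) x (ei i) = p x * fderiv ℝ q x (ei i) + q x * fderiv ℝ p x (ei i)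
  rw [fderiv_fun_mul hp hq]
  rfl

/-- Functions of `z`. -/
theorem gd_comp_at {F : ℝ → ℝ} (hF : Differentiable ℝ F) (hz : Smo z) (x : Ed d) :
    gd (fun y => F (z y)) x = deriv F (z x) • gd z x := by
  ext i
  show fderiv ℝ (fun y => F (z y)) x (ei i) = deriv F (z x) * fderiv ℝ z x (ei i)
  have h1 : HasFDerivAt (fun y => F (z y)) (deriv F (z x) • fderiv ℝ z x) x :=
    (hF (z x)).hasDerivAt.comp_hasFDerivAt x (hz.differentiable x).hasFDerivAt
  rw [h1.fderiv]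
  rfl

theorem dv_add_at {v w : Ed d → Ed d} {x : Ed d} (hv : DifferentiableAt ℝ v x) (hw : DifferentiableAt ℝ w x) :
    dv (fun y => v y + w y) x = dv v x + dv w x := by
  have h1 : fderiv ℝ (fun y => v y + w y) x = fderiv ℝ v x + fderiv ℝ w x := fderiv_fun_add hv hw
  show ∑ i, (fderiv ℝ (fun y => v y + w y) x (ei i)) i = ∑ i, (fderiv ℝ v x (ei i)) i + ∑ i, (fderiv ℝ w x (ei i)) i
  rw [h1, ← Finset.sum_add_distrib]
  rfl

theorem dv_const_smul_at (c : ℝ) {v : Ed d → Ed d} {x : Ed d} (hv : DifferentiableAt ℝ v x) :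
    dv (fun y => c • v y) x = c * dv v x := by
  have h1 : fderiv ℝ (fun y => c • v y) x = c • fderiv ℝ v x := fderiv_fun_const_smul hv c
  show ∑ i, (fderiv ℝ (fun y => c • v y) x (ei i)) i = c * ∑ i, (fderiv ℝ v x (ei i)) i
  rw [h1, Finset.mul_sum]
  rfl

theorem dv_sum_at {ι : Type} (s : Finset ι) {v : ι → Ed d → Ed d} {x : Ed d}
    (hv : ∀ i ∈ s, DifferentiableAt ℝ (v i) x) : dv (fun y => ∑ i ∈ s, v i y) x = ∑ i ∈ s, dv (v i) x := by
  have h1 : fderiv ℝ (fun y => ∑ i ∈ s, v i y) x = ∑ i ∈ s, fderiv ℝ (v i) x := fderiv_fun_sum hv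
  show ∑ j, (fderiv ℝ (fun y => ∑ i ∈ s, v i y) x (ei j)) j = ∑ i ∈ s, ∑ j, (fderiv ℝ (v i) x (ei j)) j
  rw [h1, Finset.sum_comm]
  refine Finset.sum_congr rfl fun j _ => ?_
  simp

theorem dv_smul_at {a : Ed d → ℝ} {v : Ed d → Ed d} {x : Ed d} (ha : DifferentiableAt ℝ a x)
    (hv : DifferentiableAt ℝ v x) : dv (fun y => a y • v y) x = ⟪gd a x, v x⟫ + a x * dv v x := by
  have h1 : fderiv ℝ (fun y => a y • v y) x = a x • fderiv ℝ v x + (fderiv ℝ a x).smulRight (v x) :=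
    fderiv_fun_smul ha hv
  have h2 : ⟪gd a x, v x⟫ = ∑ i, fderiv ℝ a x (ei i) * v x i := by
    rw [PiLp.inner_apply]
    refine Finset.sum_congr rfl fun i _ => ?_
    rw [gd_apply]
    show v x i * fderiv ℝ a x (ei i) = _
    ring
  show ∑ i, (fderiv ℝ (fun y => a y • v y) x (ei i)) i = _ + a x * ∑ i, (fderiv ℝ v x (ei i)) i
  rw [h1, h2, Finset.mul_sum, ← Finset.sum_add_distrib]
  refine Finset.sum_congr rfl fun i _ => ?_
  show a x * (fderiv ℝ v x (ei i)) i + fderiv ℝ a x (ei i) * v x i = _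
  ring

theorem dv_congr {v w : Ed d → Ed d} {x : Ed d} (h : v =ᶠ[𝓝 x] w) : dv v x = dv w x := by
  have h1 : fderiv ℝ v x = fderiv ℝ w x := h.fderiv_eq
  show ∑ i, (fderiv ℝ v x (ei i)) i = ∑ i, (fderiv ℝ w x (ei i)) i
  rw [h1]

theorem lap_congr {v w : Ed d → Ed d} {x : Ed d} (h : v =ᶠ[𝓝 x] w) : lap v x = lap w x := by
  show ∑ i, pd i (pd i v) x = ∑ i, pd i (pd i w) x
  refine Finset.sum_congr rfl fun i _ => ?_
  have h1 : pd i v =ᶠ[𝓝 x] pd i w := by
    filter_upwards [h.eventuallyEq_nhds] with y hy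
    show fderiv ℝ v y (ei i) = fderiv ℝ w y (ei i)
    rw [hy.fderiv_eq]
  show fderiv ℝ (pd i v) x (ei i) = fderiv ℝ (pd i w) x (ei i)
  rw [h1.fderiv_eq]

end Pool.Agent.Lib.MP_79abb3_an.W
end
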