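import Mathlib

/-!
Theorem W (MP_79abb3_an): the calculus of the class `BD` is in the file `BDc`.
-/
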