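import Pool.Agent.Lib.MP_79abb3_an.W.DBp

/-!
Theorem W, block D, part B1b: derivatives and bounds.
-/

set_option autoImplicit false
set_option linter.unusedSectionVars false

open MeasureTheory Set Filter Topology Function
open scoped ENNReal RealInnerProductSpace

namespace Pool.Agent.Lib.MP_79abb3_an.W

variable {s s' s'' : Set ℤ} {K L : ℝ → ℝ → ℝ} {T : ℝ → ℝ}

/-- Profiles are smooth functions of two variables. -/
theorem PR.smooth (hK : K ∈ PR s) : ContDiff ℝ ((⊤ : ℕ∞) : WithTop ℕ∞) fun p : ℝ × ℝ => K p.1 p.2 := by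
  induction hK using Submodule.span_induction with
  | mem K hK =>
    obtain ⟨k, m, μ, A, hk, hμ, rfl⟩ := hK
    unfold bp
    have h1 : ContDiff ℝ ((⊤ : ℕ∞) : WithTop ℕ∞) fun p : ℝ × ℝ => ((p.1 : ℝ) : ℂ) :=
      Complex.ofRealCLM.contDiff.comp contDiff_fst
    have h2 : ContDiff ℝ ((⊤ : ℕ∞) : WithTop ℕ∞) fun p : ℝ × ℝ => ((p.2 : ℝ) : ℂ) :=
      Complex.ofRealCLM.contDiff.comp contDiff_snd
    have h3 : ContDiff ℝ ((⊤ : ℕ∞) : WithTop ℕ∞) fun p : ℝ × ℝ => Complex.exp (Complex.I * (k : ℂ) * (p.1 : ℂ)) :=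
      Complex.contDiff_exp.comp (contDiff_const.mul h1)
    have h4 : ContDiff ℝ ((⊤ : ℕ∞) : WithTop ℕ∞) fun p : ℝ × ℝ => Complex.exp (-(μ * (p.2 : ℂ))) :=
      Complex.contDiff_exp.comp (contDiff_const.mul h2).neg
    exact Complex.reCLM.contDiff.comp ((contDiff_const.mul h3).mul ((h2.pow m).mul h4))
  | zero => exact contDiff_const
  | add K K' _ _ h1 h2 => exact h1.add h2
  | smul c K _ h1 => exact contDiff_const.mul h1

theorem PR.hasDerivAt_ze (hK : K ∈ PR s) (θ ζ : ℝ) : HasDerivAt (fun r => K θ r) (pze K θ ζ) ζ := by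
  have h : ContDiff ℝ ((⊤ : ℕ∞) : WithTop ℕ∞) fun r : ℝ => K θ r :=
    (PR.smooth hK).comp (contDiff_const.prodMk contDiff_id : ContDiff ℝ ((⊤ : ℕ∞) : WithTop ℕ∞) fun r : ℝ => (θ, r))
  exact (h.differentiable (by norm_num) ζ).hasDerivAt

theorem PR.hasDerivAt_th (hK : K ∈ PR s) (θ ζ : ℝ) : HasDerivAt (fun r => K r ζ) (pth K θ ζ) θ := by
  have h : ContDiff ℝ ((⊤ : ℕ∞) : WithTop ℕ∞) fun r : ℝ => K r ζ :=
    (PR.smooth hK).comp (contDiff_id.prodMk contDiff_const : ContDiff ℝ ((⊤ : ℕ∞) : WithTop ℕ∞) fun r : ℝ => (r, ζ))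
  exact (h.differentiable (by norm_num) θ).hasDerivAt

theorem bp_hasDerivAt_ze (k : ℤ) (m : ℕ) (μ A : ℂ) (θ ζ : ℝ) :
    HasDerivAt (fun r => bp k m μ A θ r) (bp k (m - 1) μ (m * A) θ ζ + bp k m μ (-μ * A) θ ζ) ζ := by
  have h0 : HasDerivAt (fun r : ℝ => (r : ℂ)) 1 ζ := Complex.ofRealCLM.hasDerivAt
  have h1 : HasDerivAt (fun r : ℝ => (r : ℂ) ^ m) ((m : ℂ) * (ζ : ℂ) ^ (m - 1) * 1) ζ := h0.pow m
  have h2 : HasDerivAt (fun r : ℝ => Complex.exp (-(μ * (r : ℂ)))) (Complex.exp (-(μ * (ζ : ℂ))) * (-(μ * 1))) ζ :=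
    (h0.const_mul μ).neg.cexp
  have h3 := (h1.mul h2).const_mul (A * Complex.exp (Complex.I * (k : ℂ) * (θ : ℂ)))
  have h4 := Complex.reCLM.hasFDerivAt.comp_hasDerivAt ζ h3
  refine h4.congr_deriv ?_
  unfold bp
  rw [← Complex.add_re]
  show Complex.re _ = _
  congr 1
  ring

theorem bp_hasDerivAt_th (k : ℤ) (m : ℕ) (μ A : ℂ) (θ ζ : ℝ) :
    HasDerivAt (fun r => bp k m μ A r ζ) (bp k m μ (Complex.I * k * A) θ ζ) θ := by
  have h0 : HasDerivAt (fun r : ℝ => (r : ℂ)) 1 θ := Complex.ofRealCLM.hasDerivAt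
  have h2 : HasDerivAt (fun r : ℝ => Complex.exp (Complex.I * (k : ℂ) * (r : ℂ)))
      (Complex.exp (Complex.I * (k : ℂ) * (θ : ℂ)) * (Complex.I * (k : ℂ) * 1)) θ :=
    (h0.const_mul (Complex.I * (k : ℂ))).cexp
  have h3 := (h2.const_mul A).mul_const ((ζ : ℂ) ^ m * Complex.exp (-(μ * (ζ : ℂ))))
  have h4 := Complex.reCLM.hasFDerivAt.comp_hasDerivAt θ h3
  refine h4.congr_deriv ?_
  unfold bp
  show Complex.re _ = _
  congr 1
  ring

theorem PR.pze (hK : K ∈ PR s) : pze K ∈ PR s := by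
  induction hK using Submodule.span_induction with
  | mem K hK =>
    obtain ⟨k, m, μ, A, hk, hμ, rfl⟩ := hK
    have e : W.pze (bp k m μ A) = fun θ ζ => bp k (m - 1) μ (m * A) θ ζ + bp k m μ (-μ * A) θ ζ := by
      funext θ ζ
      exact (bp_hasDerivAt_ze k m μ A θ ζ).deriv
    rw [e]
    exact PR.add (bp_mem _ hk hμ) (bp_mem _ hk hμ)
  | zero =>
    have e : W.pze (0 : ℝ → ℝ → ℝ) = 0 := by
      funext θ ζ
      show deriv (fun _ => (0 : ℝ)) ζ = 0
      exact deriv_const _ _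
    rw [e]
    exact (PR s).zero_mem
  | add K K' hK hK' h1 h2 =>
    have e : W.pze (K + K') = fun θ ζ => W.pze K θ ζ + W.pze K' θ ζ := by
      funext θ ζ
      exact ((PR.hasDerivAt_ze hK θ ζ).add (PR.hasDerivAt_ze hK' θ ζ)).deriv
    rw [e]
    exact PR.add h1 h2
  | smul c K hK h1 =>
    have e : W.pze (c • K) = fun θ ζ => c * W.pze K θ ζ := by
      funext θ ζ
      exact ((PR.hasDerivAt_ze hK θ ζ).const_mul c).deriv
    rw [e]
    exact PR.smul c h1

theorem PR.pth (hK : K ∈ PR s) : pth K ∈ PR s := by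
  induction hK using Submodule.span_induction with
  | mem K hK =>
    obtain ⟨k, m, μ, A, hk, hμ, rfl⟩ := hK
    have e : W.pth (bp k m μ A) = bp k m μ (Complex.I * k * A) := by
      funext θ ζ
      exact (bp_hasDerivAt_th k m μ A θ ζ).deriv
    rw [e]
    exact bp_mem _ hk hμ
  | zero =>
    have e : W.pth (0 : ℝ → ℝ → ℝ) = 0 := by
      funext θ ζ
      show deriv (fun _ => (0 : ℝ)) θ = 0
      exact deriv_const _ _
    rw [e]
    exact (PR s).zero_mem
  | add K K' hK hK' h1 h2 =>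
    have e : W.pth (K + K') = fun θ ζ => W.pth K θ ζ + W.pth K' θ ζ := by
      funext θ ζ
      exact ((PR.hasDerivAt_th hK θ ζ).add (PR.hasDerivAt_th hK' θ ζ)).deriv
    rw [e]
    exact PR.add h1 h2
  | smul c K hK h1 =>
    have e : W.pth (c • K) = fun θ ζ => c * W.pth K θ ζ := by
      funext θ ζ
      exact ((PR.hasDerivAt_th hK θ ζ).const_mul c).deriv
    rw [e]
    exact PR.smul c h1

private theorem db1b_norm_exp (k : ℤ) (θ : ℝ) : ‖Complex.exp (Complex.I * (k : ℂ) * (θ : ℂ))‖ = 1 := by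
  rw [Complex.norm_exp]
  simp

private theorem db1b_pow_exp {c ζ : ℝ} (hc : 0 < c) (hζ : 0 ≤ ζ) (m : ℕ) :
    ζ ^ m * Real.exp (-(2 * c * ζ)) ≤ (m.factorial : ℝ) / c ^ m * Real.exp (-(c * ζ)) := by
  have h1 := Real.pow_div_factorial_le_exp (c * ζ) (by positivity) m
  have hf : (0 : ℝ) < (m.factorial : ℝ) := by exact_mod_cast m.factorial_pos
  have hcm : 0 < c ^ m := by positivity
  rw [div_le_iff₀ hf, mul_pow] at h1
  have h2 : Real.exp (-(2 * c * ζ)) = Real.exp (-(c * ζ)) * Real.exp (-(c * ζ)) := by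
    rw [← Real.exp_add]
    congr 1
    ring
  have h3 : Real.exp (c * ζ) * Real.exp (-(c * ζ)) = 1 := by
    rw [← Real.exp_add]
    simp
  have h4 : ζ ^ m * Real.exp (-(c * ζ)) ≤ (m.factorial : ℝ) / c ^ m := by
    rw [le_div_iff₀ hcm]
    calc ζ ^ m * Real.exp (-(c * ζ)) * c ^ m = c ^ m * ζ ^ m * Real.exp (-(c * ζ)) := by ring
      _ ≤ Real.exp (c * ζ) * (m.factorial : ℝ) * Real.exp (-(c * ζ)) :=
          mul_le_mul_of_nonneg_right h1 (Real.exp_pos _).le
      _ = (m.factorial : ℝ) * (Real.exp (c * ζ) * Real.exp (-(c * ζ))) := by ring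
      _ = (m.factorial : ℝ) := by rw [h3, mul_one]
  rw [h2, ← mul_assoc]
  exact mul_le_mul_of_nonneg_right h4 (Real.exp_pos _).le

theorem PR.bound (hK : K ∈ PR s) :
    ∃ C c : ℝ, 0 < c ∧ 0 ≤ C ∧ ∀ θ ζ, 0 ≤ ζ → |K θ ζ| ≤ C * Real.exp (-(c * ζ)) := by
  induction hK using Submodule.span_induction with
  | mem K hK =>
    obtain ⟨k, m, μ, A, hk, hμ, rfl⟩ := hK
    have hc : 0 < μ.re / 2 := by positivity
    refine ⟨‖A‖ * ((m.factorial : ℝ) / (μ.re / 2) ^ m), μ.re / 2, hc, by positivity, fun θ ζ hζ => ?_⟩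
    unfold bp
    refine (Complex.abs_re_le_norm _).trans ?_
    rw [norm_mul, norm_mul, norm_mul, db1b_norm_exp, mul_one, norm_pow, Complex.norm_real, Real.norm_of_nonneg hζ,
      Complex.norm_exp]
    have e : (-(μ * (ζ : ℂ))).re = -(2 * (μ.re / 2) * ζ) := by
      rw [Complex.neg_re, Complex.re_mul_ofReal]
      ring
    rw [e, mul_assoc ‖A‖ (_ / _)]
    exact mul_le_mul_of_nonneg_left (db1b_pow_exp hc hζ m) (norm_nonneg _)
  | zero => exact ⟨0, 1, one_pos, le_rfl, fun θ ζ _ => by simp⟩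
  | add K K' _ _ h1 h2 =>
    obtain ⟨C, c, hc, hC, h1⟩ := h1
    obtain ⟨C', c', hc', hC', h2⟩ := h2
    refine ⟨C + C', min c c', lt_min hc hc', add_nonneg hC hC', fun θ ζ hζ => ?_⟩
    have a1 : Real.exp (-(c * ζ)) ≤ Real.exp (-(min c c' * ζ)) := by
      apply Real.exp_le_exp.2
      have := mul_le_mul_of_nonneg_right (min_le_left c c') hζ
      linarith
    have a2 : Real.exp (-(c' * ζ)) ≤ Real.exp (-(min c c' * ζ)) := by
      apply Real.exp_le_exp.2
      have := mul_le_mul_of_nonneg_right (min_le_right c c') hζ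
      linarith
    calc |(K + K') θ ζ| ≤ |K θ ζ| + |K' θ ζ| := abs_add_le _ _
      _ ≤ C * Real.exp (-(c * ζ)) + C' * Real.exp (-(c' * ζ)) := add_le_add (h1 θ ζ hζ) (h2 θ ζ hζ)
      _ ≤ C * Real.exp (-(min c c' * ζ)) + C' * Real.exp (-(min c c' * ζ)) :=
          add_le_add (mul_le_mul_of_nonneg_left a1 hC) (mul_le_mul_of_nonneg_left a2 hC')
      _ = _ := by ring
  | smul a K _ h1 =>
    obtain ⟨C, c, hc, hC, h1⟩ := h1
    refine ⟨|a| * C, c, hc, by positivity, fun θ ζ hζ => ?_⟩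
    show |a * K θ ζ| ≤ _
    rw [abs_mul, mul_assoc]
    exact mul_le_mul_of_nonneg_left (h1 θ ζ hζ) (abs_nonneg _)

theorem TR.bound (hT : T ∈ TR s) : ∃ C : ℝ, 0 ≤ C ∧ ∀ θ, |T θ| ≤ C := by
  induction hT using Submodule.span_induction with
  | mem T hT =>
    obtain ⟨k, A, hk, rfl⟩ := hT
    refine ⟨‖A‖, norm_nonneg _, fun θ => (Complex.abs_re_le_norm _).trans ?_⟩
    rw [norm_mul, db1b_norm_exp, mul_one]
  | zero => exact ⟨0, le_rfl, fun θ => by simp⟩
  | add T T' _ _ h1 h2 =>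
    obtain ⟨C, hC, h1⟩ := h1
    obtain ⟨C', hC', h2⟩ := h2
    exact ⟨C + C', add_nonneg hC hC', fun θ => (abs_add_le _ _).trans (add_le_add (h1 θ) (h2 θ))⟩
  | smul a T _ h1 =>
    obtain ⟨C, hC, h1⟩ := h1
    refine ⟨|a| * C, by positivity, fun θ => ?_⟩
    show |a * T θ| ≤ _
    rw [abs_mul]
    exact mul_le_mul_of_nonneg_left (h1 θ) (abs_nonneg _)

theorem TR.smooth (hT : T ∈ TR s) : ContDiff ℝ ((⊤ : ℕ∞) : WithTop ℕ∞) T := by
  induction hT using Submodule.span_induction with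
  | mem T hT =>
    obtain ⟨k, A, hk, rfl⟩ := hT
    exact Complex.reCLM.contDiff.comp
      (contDiff_const.mul (Complex.contDiff_exp.comp (contDiff_const.mul Complex.ofRealCLM.contDiff)))
  | zero => exact contDiff_const
  | add T T' _ _ h1 h2 => exact h1.add h2
  | smul c T _ h1 => exact contDiff_const.mul h1

private theorem db1b_tr_deriv (k : ℤ) (A : ℂ) (θ : ℝ) :
    HasDerivAt (fun r : ℝ => (A * Complex.exp (Complex.I * (k : ℂ) * (r : ℂ))).re)
      ((Complex.I * k * A) * Complex.exp (Complex.I * (k : ℂ) * (θ : ℂ))).re θ := by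
  have h0 : HasDerivAt (fun r : ℝ => (r : ℂ)) 1 θ := Complex.ofRealCLM.hasDerivAt
  have h2 : HasDerivAt (fun r : ℝ => Complex.exp (Complex.I * (k : ℂ) * (r : ℂ)))
      (Complex.exp (Complex.I * (k : ℂ) * (θ : ℂ)) * (Complex.I * (k : ℂ) * 1)) θ :=
    (h0.const_mul (Complex.I * (k : ℂ))).cexp
  have h4 := Complex.reCLM.hasFDerivAt.comp_hasDerivAt θ (h2.const_mul A)
  refine h4.congr_deriv ?_
  show Complex.re _ = _
  congr 1
  ring

theorem TR.deriv (hT : T ∈ TR s) : deriv T ∈ TR s := by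
  induction hT using Submodule.span_induction with
  | mem T hT =>
    obtain ⟨k, A, hk, rfl⟩ := hT
    refine Submodule.subset_span ⟨k, Complex.I * k * A, hk, ?_⟩
    funext θ
    exact (db1b_tr_deriv k A θ).deriv
  | zero =>
    have e : _root_.deriv (0 : ℝ → ℝ) = 0 := by
      funext θ
      exact deriv_const θ (0 : ℝ)
    rw [e]
    exact (TR s).zero_mem
  | add T T' hT hT' h1 h2 =>
    have e : _root_.deriv (T + T') = _root_.deriv T + _root_.deriv T' := by
      funext θ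
      exact deriv_add ((TR.smooth hT).differentiable (by norm_num) θ) ((TR.smooth hT').differentiable (by norm_num) θ)
    rw [e]
    exact (TR s).add_mem h1 h2
  | smul c T hT h1 =>
    have e : _root_.deriv (c • T) = c • _root_.deriv T := by
      funext θ
      exact deriv_const_smul c ((TR.smooth hT).differentiable (by norm_num) θ)
    rw [e]
    exact (TR s).smul_mem c h1

/-- The value at the wall. -/
theorem PR.at_zero (hK : K ∈ PR s) : (fun θ => K θ 0) ∈ TR s := by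
  induction hK using Submodule.span_induction with
  | mem K hK =>
    obtain ⟨k, m, μ, A, hk, hμ, rfl⟩ := hK
    refine Submodule.subset_span ⟨k, A * 0 ^ m, hk, ?_⟩
    funext θ
    unfold bp
    congr 1
    rw [Complex.ofReal_zero, mul_zero, neg_zero, Complex.exp_zero, mul_one]
    ring
  | zero => exact (TR s).zero_mem
  | add K K' _ _ h1 h2 => exact (TR s).add_mem h1 h2
  | smul c K _ h1 => exact (TR s).smul_mem c h1

private theorem db1b_sm (m : ℕ) (μ : ℂ) :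
    ContDiff ℝ ((⊤ : ℕ∞) : WithTop ℕ∞) fun r : ℝ => (r : ℂ) ^ m * Complex.exp (-(μ * (r : ℂ))) :=
  (Complex.ofRealCLM.contDiff.pow m).mul
    (Complex.contDiff_exp.comp (contDiff_const.mul Complex.ofRealCLM.contDiff).neg)

/-- Separation of variables. -/
theorem PR.sep (hK : K ∈ PR s) : ∃ (n : ℕ) (T : Fin n → ℝ → ℝ) (f : Fin n → ℝ → ℝ),
    (∀ i, T i ∈ TR s) ∧ (∀ i, ContDiff ℝ ((⊤ : ℕ∞) : WithTop ℕ∞) (f i)) ∧ ∀ θ ζ, K θ ζ = ∑ i, T i θ * f i ζ := by
  induction hK using Submodule.span_induction with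
  | mem K hK =>
    obtain ⟨k, m, μ, A, hk, hμ, rfl⟩ := hK
    refine ⟨2, ![fun θ => (A * Complex.exp (Complex.I * (k : ℂ) * (θ : ℂ))).re,
      fun θ => ((Complex.I * A) * Complex.exp (Complex.I * (k : ℂ) * (θ : ℂ))).re],
      ![fun r => ((r : ℂ) ^ m * Complex.exp (-(μ * (r : ℂ)))).re,
        fun r => ((r : ℂ) ^ m * Complex.exp (-(μ * (r : ℂ)))).im], ?_, ?_, ?_⟩
    · intro i
      fin_cases i
      · exact Submodule.subset_span ⟨k, A, hk, rfl⟩
      · exact Submodule.subset_span ⟨k, Complex.I * A, hk, rfl⟩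
    · intro i
      fin_cases i
      · exact Complex.reCLM.contDiff.comp (db1b_sm m μ)
      · exact Complex.imCLM.contDiff.comp (db1b_sm m μ)
    · intro θ ζ
      rw [Fin.sum_univ_two]
      show bp k m μ A θ ζ = (A * Complex.exp (Complex.I * (k : ℂ) * (θ : ℂ))).re *
          ((ζ : ℂ) ^ m * Complex.exp (-(μ * (ζ : ℂ)))).re +
        ((Complex.I * A) * Complex.exp (Complex.I * (k : ℂ) * (θ : ℂ))).re *
          ((ζ : ℂ) ^ m * Complex.exp (-(μ * (ζ : ℂ)))).im
      unfold bp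
      rw [Complex.mul_re, mul_assoc Complex.I A, Complex.I_mul_re]
      ring
  | zero => exact ⟨0, fun i => i.elim0, fun i => i.elim0, fun i => i.elim0, fun i => i.elim0, fun θ ζ => by simp⟩
  | add K K' _ _ h1 h2 =>
    obtain ⟨n, T, f, hT, hf, h1⟩ := h1
    obtain ⟨n', T', f', hT', hf', h2⟩ := h2
    refine ⟨n + n', Fin.append T T', Fin.append f f', ?_, ?_, ?_⟩
    · intro i
      refine Fin.addCases (fun i => ?_) (fun i => ?_) i
      · rw [Fin.append_left]; exact hT i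
      · rw [Fin.append_right]; exact hT' i
    · intro i
      refine Fin.addCases (fun i => ?_) (fun i => ?_) i
      · rw [Fin.append_left]; exact hf i
      · rw [Fin.append_right]; exact hf' i
    · intro θ ζ
      rw [Fin.sum_univ_add]
      simp only [Fin.append_left, Fin.append_right]
      show K θ ζ + K' θ ζ = _
      rw [h1, h2]
  | smul a K _ h1 =>
    obtain ⟨n, T, f, hT, hf, h1⟩ := h1
    refine ⟨n, fun i => a • T i, f, fun i => (TR s).smul_mem a (hT i), hf, fun θ ζ => ?_⟩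
    show a * K θ ζ = _
    rw [h1, Finset.mul_sum]
    refine Finset.sum_congr rfl fun i _ => ?_
    show a * (T i θ * f i ζ) = a * T i θ * f i ζ
    ring

/-- Scaling. -/
theorem PR.scale (hK : K ∈ PR s) (α : ℕ) (hα : 1 ≤ α) (h : ∀ k ∈ s, (α : ℤ) * k ∈ s') :
    (fun θ ζ => K (α * θ) (√α * ζ)) ∈ PR s' := by
  induction hK using Submodule.span_induction with
  | mem K hK =>
    obtain ⟨k, m, μ, A, hk, hμ, rfl⟩ := hK
    have hα' : (0 : ℝ) < α := by exact_mod_cast hα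
    have e : (fun θ ζ => bp k m μ A (α * θ) (√α * ζ)) =
        bp (α * k) m (((√α : ℝ) : ℂ) * μ) (A * ((√α : ℝ) : ℂ) ^ m) := by
      funext θ ζ
      unfold bp
      congr 1
      rw [show Complex.I * ((α * k : ℤ) : ℂ) * (θ : ℂ) = Complex.I * (k : ℂ) * ((α * θ : ℝ) : ℂ) by push_cast; ring,
        show -(((√α : ℝ) : ℂ) * μ * (ζ : ℂ)) = -(μ * ((√α * ζ : ℝ) : ℂ)) by push_cast; ring, Complex.ofReal_mul (√α) ζ,
        mul_pow]
      ring
    rw [e]
    refine bp_mem _ (h k hk) ?_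
    rw [Complex.re_ofReal_mul]
    exact mul_pos (Real.sqrt_pos.2 hα') hμ
  | zero => exact (PR s').zero_mem
  | add K K' _ _ h1 h2 => exact (PR s').add_mem h1 h2
  | smul c K _ h1 => exact (PR s').smul_mem c h1

theorem TR.scale (hT : T ∈ TR s) (α : ℕ) (h : ∀ k ∈ s, (α : ℤ) * k ∈ s') : (fun θ => T (α * θ)) ∈ TR s' := by
  induction hT using Submodule.span_induction with
  | mem T hT =>
    obtain ⟨k, A, hk, rfl⟩ := hT
    refine Submodule.subset_span ⟨α * k, A, h k hk, ?_⟩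
    funext θ
    show (A * Complex.exp (Complex.I * (k : ℂ) * ((α * θ : ℝ) : ℂ))).re =
      (A * Complex.exp (Complex.I * ((α * k : ℤ) : ℂ) * (θ : ℂ))).re
    rw [show Complex.I * ((α * k : ℤ) : ℂ) * (θ : ℂ) = Complex.I * (k : ℂ) * ((α * θ : ℝ) : ℂ) by push_cast; ring]
  | zero => exact (TR s').zero_mem
  | add T T' _ _ h1 h2 => exact (TR s').add_mem h1 h2
  | smul c T _ h1 => exact (TR s').smul_mem c h1

end Pool.Agent.Lib.MP_79abb3_an.W
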