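import Pool.Agent.Lib.MP_79abb3_an.W.DB1b

/-!
Theorem W, block D, part B2: the primitive and the heat equation in the class of profiles.
-/

set_option autoImplicit false
set_option linter.unusedSectionVars false

open MeasureTheory Set Filter Topology Function
open scoped ENNReal RealInnerProductSpace

namespace Pool.Agent.Lib.MP_79abb3_an.W

variable {s s' s'' : Set ℤ} {K L : ℝ → ℝ → ℝ} {T : ℝ → ℝ}

theorem db2_ze (k : ℤ) (m : ℕ) (μ A : ℂ) (θ ζ : ℝ) :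
    HasDerivAt (fun r => bp k m μ A θ r) (m * bp k (m - 1) μ A θ ζ - bp k m μ (μ * A) θ ζ) ζ := by
  have h1 : HasDerivAt (fun w : ℂ => w ^ m) (m * (ζ : ℂ) ^ (m - 1)) (ζ : ℂ) := hasDerivAt_pow m (ζ : ℂ)
  have h2 : HasDerivAt (fun w : ℂ => Complex.exp (-(μ * w))) (Complex.exp (-(μ * (ζ : ℂ))) * (-(μ * 1))) (ζ : ℂ) :=
    (((hasDerivAt_id (ζ : ℂ)).const_mul μ).neg).cexp
  have h3 := ((h1.mul h2).const_mul (A * Complex.exp (Complex.I * (k : ℂ) * (θ : ℂ)))).real_of_complex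
  have h4 : (A * Complex.exp (Complex.I * (k : ℂ) * (θ : ℂ)) * (m * (ζ : ℂ) ^ (m - 1) * Complex.exp (-(μ * (ζ : ℂ))) +
      (ζ : ℂ) ^ m * (Complex.exp (-(μ * (ζ : ℂ))) * (-(μ * 1))))).re =
      m * bp k (m - 1) μ A θ ζ - bp k m μ (μ * A) θ ζ := by
    have h5 : (m : ℝ) * bp k (m - 1) μ A θ ζ = ((m : ℂ) * (A * Complex.exp (Complex.I * (k : ℂ) * (θ : ℂ)) *
        ((ζ : ℂ) ^ (m - 1) * Complex.exp (-(μ * (ζ : ℂ)))))).re := by
      unfold bp
      rw [← Complex.ofReal_natCast, Complex.re_ofReal_mul]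
    rw [h5]
    unfold bp
    rw [← Complex.sub_re]
    congr 1
    ring
  rw [← h4]
  exact h3

theorem db2_th (k : ℤ) (m : ℕ) (μ A : ℂ) (θ ζ : ℝ) :
    HasDerivAt (fun r => bp k m μ A r ζ) (bp k m μ (Complex.I * k * A) θ ζ) θ := by
  have h2 : HasDerivAt (fun w : ℂ => Complex.exp (Complex.I * (k : ℂ) * w))
      (Complex.exp (Complex.I * (k : ℂ) * (θ : ℂ)) * (Complex.I * (k : ℂ) * 1)) (θ : ℂ) :=
    ((hasDerivAt_id (θ : ℂ)).const_mul (Complex.I * (k : ℂ))).cexp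
  have h3 := ((h2.const_mul A).mul_const ((ζ : ℂ) ^ m * Complex.exp (-(μ * (ζ : ℂ))))).real_of_complex
  have h4 : (A * (Complex.exp (Complex.I * (k : ℂ) * (θ : ℂ)) * (Complex.I * (k : ℂ) * 1)) *
      ((ζ : ℂ) ^ m * Complex.exp (-(μ * (ζ : ℂ))))).re = bp k m μ (Complex.I * k * A) θ ζ := by
    unfold bp
    congr 1
    ring
  rw [← h4]
  exact h3

theorem db2_add (k : ℤ) (m : ℕ) (μ A B : ℂ) (θ ζ : ℝ) :
    bp k m μ (A + B) θ ζ = bp k m μ A θ ζ + bp k m μ B θ ζ := by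
  unfold bp
  rw [← Complex.add_re]
  congr 1
  ring

theorem db2_smul (k : ℤ) (m : ℕ) (μ A : ℂ) (c : ℝ) (θ ζ : ℝ) :
    bp k m μ ((c : ℂ) * A) θ ζ = c * bp k m μ A θ ζ := by
  unfold bp
  rw [← Complex.re_ofReal_mul]
  congr 1
  ring

theorem db2_zero (k : ℤ) (m : ℕ) (μ : ℂ) (θ ζ : ℝ) : bp k m μ 0 θ ζ = 0 := by
  unfold bp
  simp

theorem db2_neg (k : ℤ) (m : ℕ) (μ A : ℂ) (θ ζ : ℝ) : bp k m μ (-A) θ ζ = -bp k m μ A θ ζ := by
  have h := db2_smul k m μ A (-1) θ ζ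
  simpa using h

theorem db2_mem {k : ℤ} {m : ℕ} {μ A : ℂ} (hμ : 0 < μ.re) (hk : k ∈ s) : bp k m μ A ∈ PR s :=
  Submodule.subset_span ⟨k, m, μ, A, hk, hμ, rfl⟩

theorem db2_pze_add (hK : K ∈ PR s) (hL : L ∈ PR s) : pze (K + L) = pze K + pze L := by
  funext θ ζ
  exact ((PR.hasDerivAt_ze hK θ ζ).add (PR.hasDerivAt_ze hL θ ζ)).deriv

theorem db2_pze_smul (c : ℝ) (hK : K ∈ PR s) : pze (c • K) = c • pze K := by
  funext θ ζ
  exact ((PR.hasDerivAt_ze hK θ ζ).const_mul c).deriv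

theorem db2_pth_add (hK : K ∈ PR s) (hL : L ∈ PR s) : pth (K + L) = pth K + pth L := by
  funext θ ζ
  exact ((PR.hasDerivAt_th hK θ ζ).add (PR.hasDerivAt_th hL θ ζ)).deriv

theorem db2_pth_smul (c : ℝ) (hK : K ∈ PR s) : pth (c • K) = c • pth K := by
  funext θ ζ
  exact ((PR.hasDerivAt_th hK θ ζ).const_mul c).deriv

theorem db2_T_add (hK : K ∈ PR s) (hL : L ∈ PR s) (θ ζ : ℝ) :
    pth (K + L) θ ζ - pze (pze (K + L)) θ ζ =
      (pth K θ ζ - pze (pze K) θ ζ) + (pth L θ ζ - pze (pze L) θ ζ) := by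
  rw [db2_pth_add hK hL, db2_pze_add hK hL, db2_pze_add (PR.pze hK) (PR.pze hL)]
  show (pth K θ ζ + pth L θ ζ) - (pze (pze K) θ ζ + pze (pze L) θ ζ) = _
  ring

theorem db2_T_smul (c : ℝ) (hK : K ∈ PR s) (θ ζ : ℝ) :
    pth (c • K) θ ζ - pze (pze (c • K)) θ ζ = c * (pth K θ ζ - pze (pze K) θ ζ) := by
  rw [db2_pth_smul c hK, db2_pze_smul c hK, db2_pze_smul c (PR.pze hK)]
  show c * pth K θ ζ - c * pze (pze K) θ ζ = _
  ring

/-- `∂_ζ` of a basic profile. -/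
theorem bp_pze (k : ℤ) (m : ℕ) (μ A : ℂ) :
    pze (bp k m μ A) = fun θ ζ => m * bp k (m - 1) μ A θ ζ - bp k m μ (μ * A) θ ζ := by
  funext θ ζ
  exact (db2_ze k m μ A θ ζ).deriv

theorem bp_pth (k : ℤ) (m : ℕ) (μ A : ℂ) : pth (bp k m μ A) = bp k m μ (Complex.I * k * A) := by
  funext θ ζ
  exact (db2_th k m μ A θ ζ).deriv

/-- Primitive of a basic profile, induction on `m`: `bp k m μ (- A/μ)` plus the primitive of
`m bp k (m-1) μ (A/μ)`. -/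
theorem bp_prim (k : ℤ) (m : ℕ) (μ A : ℂ) (hμ : 0 < μ.re) (hk : k ∈ s) : ∃ G ∈ PR s, pze G = bp k m μ A := by
  have hμ0 : μ ≠ 0 := by
    rintro rfl
    simp at hμ
  induction m generalizing A with
  | zero =>
    refine ⟨bp k 0 μ (-A / μ), db2_mem hμ hk, ?_⟩
    rw [bp_pze]
    funext θ ζ
    have h1 : μ * (-A / μ) = -A := by field_simp
    rw [h1, db2_neg]
    simp
  | succ m ih =>
    obtain ⟨G', hG', hG'e⟩ := ih (((m + 1 : ℝ) : ℂ) * (A / μ))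
    refine ⟨bp k (m + 1) μ (-A / μ) + G', (PR s).add_mem (db2_mem hμ hk) hG', ?_⟩
    rw [db2_pze_add (db2_mem hμ hk) hG', hG'e, bp_pze]
    funext θ ζ
    show (((m + 1 : ℕ) : ℝ) * bp k (m + 1 - 1) μ (-A / μ) θ ζ - bp k (m + 1) μ (μ * (-A / μ)) θ ζ) +
      bp k m μ (((m + 1 : ℝ) : ℂ) * (A / μ)) θ ζ = _
    have h1 : μ * (-A / μ) = -A := by field_simp
    have h2 : -A / μ = -(A / μ) := by ring
    rw [h1, h2, db2_neg, db2_neg, db2_smul, Nat.add_sub_cancel]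
    push_cast
    ring

theorem PR.prim (hK : K ∈ PR s) : ∃ G ∈ PR s, W.pze G = K := by
  induction hK using Submodule.span_induction with
  | mem K hK =>
    obtain ⟨k, m, μ, A, hk, hμ, rfl⟩ := hK
    exact bp_prim k m μ A hμ hk
  | zero =>
    refine ⟨0, (PR s).zero_mem, ?_⟩
    funext θ ζ
    show deriv (fun _ : ℝ => (0 : ℝ)) ζ = 0
    simp
  | add K L _ _ hK hL =>
    obtain ⟨G, hG, rfl⟩ := hK
    obtain ⟨G', hG', rfl⟩ := hL
    exact ⟨G + G', (PR s).add_mem hG hG', db2_pze_add hG hG'⟩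
  | smul c K _ hK =>
    obtain ⟨G, hG, rfl⟩ := hK
    exact ⟨c • G, (PR s).smul_mem c hG, db2_pze_smul c hG⟩

theorem db2_T_bp (k : ℤ) (m : ℕ) (μ B : ℂ) (θ ζ : ℝ) :
    pth (bp k m μ B) θ ζ - pze (pze (bp k m μ B)) θ ζ =
      bp k m μ ((Complex.I * k - μ ^ 2) * B) θ ζ + bp k (m - 1) μ ((((2 * m : ℝ)) : ℂ) * (μ * B)) θ ζ -
        bp k (m - 2) μ (((m * (m - 1 : ℕ) : ℝ) : ℂ) * B) θ ζ := by
  have h1 : pze (pze (bp k m μ B)) θ ζ = m * (((m - 1 : ℕ) : ℝ) * bp k (m - 1 - 1) μ B θ ζ - bp k (m - 1) μ (μ * B) θ ζ) -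
      (m * bp k (m - 1) μ (μ * B) θ ζ - bp k m μ (μ * (μ * B)) θ ζ) := by
    rw [bp_pze]
    exact (((db2_ze k (m - 1) μ B θ ζ).const_mul (m : ℝ)).sub (db2_ze k m μ (μ * B) θ ζ)).deriv
  have h2 : m - 1 - 1 = m - 2 := by omega
  have h3 : (Complex.I * k - μ ^ 2) * B = Complex.I * k * B + -(μ * (μ * B)) := by ring
  rw [h1, bp_pth, h2, h3, db2_add, db2_neg, db2_smul, db2_smul]
  ring

theorem db2_neg_mem (hK : K ∈ PR s) : -K ∈ PR s := (PR s).neg_mem hK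

/-- Heat equation with a basic profile as the right hand side, strong induction on `m`. Let `c = i k - μ²`.
If `c ≠ 0`: `K = bp k m μ (A/c) + ` solution for the right hand side
`- (2 m μ /c) ζ^{m-1} + (m (m-1)/c) ζ^{m-2}` (`(∂_θ - ∂_ζ²)(e^{ikθ} p(ζ) e^{-μζ}) = e^{ikθ} (c p + 2 μ p' - p'') e^{-μζ}`).
If `c = 0`: `μ ≠ 0`, `K = bp k (m+1) μ (A / (2 μ (m+1))) + ` solution for the right hand side `(m/(2μ)) ζ^{m-1}`
(`2 μ p' - p''` for `p = ζ^{m+1} / (2 μ (m+1))` is `ζ^m - (m/(2μ)) ζ^{m-1}`). -/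
theorem bp_heat (k : ℤ) (m : ℕ) (μ A : ℂ) (hμ : 0 < μ.re) (hk : k ∈ s) :
    ∃ K ∈ PR s, ∀ θ ζ, pth K θ ζ - pze (pze K) θ ζ = bp k m μ A θ ζ := by
  have hμ0 : μ ≠ 0 := by
    rintro rfl
    simp at hμ
  induction m using Nat.strong_induction_on generalizing A with
  | _ m ih =>
    -- solutions for lower degrees, with a coefficient which may vanish
    have hlow : ∀ (j : ℕ) (B : ℂ), 1 ≤ j → (m < j → B = 0) → ∃ K ∈ PR s, ∀ θ ζ,
        pth K θ ζ - pze (pze K) θ ζ = bp k (m - j) μ B θ ζ := by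
      intro j B hj hB
      by_cases hmj : m < j
      · refine ⟨bp k 0 μ 0, db2_mem hμ hk, fun θ ζ => ?_⟩
        rw [db2_T_bp, hB hmj]
        simp [db2_zero]
      · exact ih (m - j) (by omega) B
    by_cases hc : Complex.I * k - μ ^ 2 = 0
    · -- resonant case
      have hm0 : m < 1 → (((m : ℝ) : ℂ) * (A / (2 * μ))) = 0 := by
        intro h
        have : m = 0 := by omega
        subst this
        simp
      obtain ⟨K', hK', hK'e⟩ := hlow 1 (((m : ℝ) : ℂ) * (A / (2 * μ))) le_rfl hm0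
      set B : ℂ := A / (2 * μ * (m + 1)) with hB
      refine ⟨bp k (m + 1) μ B + K', (PR s).add_mem (db2_mem hμ hk) hK', fun θ ζ => ?_⟩
      rw [db2_T_add (db2_mem hμ hk) hK', db2_T_bp, hK'e, hc, zero_mul, db2_zero]
      have hm1 : ((m : ℂ) + 1) ≠ 0 := by exact_mod_cast Nat.succ_ne_zero m
      have e1 : (((2 * ((m + 1 : ℕ) : ℝ) : ℝ)) : ℂ) * (μ * B) = A := by
        rw [hB]
        push_cast
        field_simp
      have e2 : (((((m + 1 : ℕ) : ℝ) * ((m + 1 - 1 : ℕ) : ℝ) : ℝ)) : ℂ) * B = ((m : ℝ) : ℂ) * (A / (2 * μ)) := by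
        rw [hB, Nat.add_sub_cancel]
        push_cast
        field_simp
      have e3 : m + 1 - 2 = m - 1 := by omega
      rw [e1, e2, e3, Nat.add_sub_cancel]
      ring
    · -- non resonant case
      set c : ℂ := Complex.I * k - μ ^ 2 with hcdef
      have hm0 : m < 1 → (-((((2 * m : ℝ)) : ℂ) * (μ * (A / c)))) = 0 := by
        intro h
        have : m = 0 := by omega
        subst this
        simp
      have hm1 : m < 2 → ((((m * (m - 1 : ℕ) : ℝ)) : ℂ) * (A / c)) = 0 := by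
        intro h
        have : m = 0 ∨ m = 1 := by omega
        rcases this with rfl | rfl <;> simp
      obtain ⟨K', hK', hK'e⟩ := hlow 1 (-((((2 * m : ℝ)) : ℂ) * (μ * (A / c)))) le_rfl hm0
      obtain ⟨K'', hK'', hK''e⟩ := hlow 2 ((((m * (m - 1 : ℕ) : ℝ)) : ℂ) * (A / c)) (by norm_num) hm1
      refine ⟨bp k m μ (A / c) + K' + K'', (PR s).add_mem ((PR s).add_mem (db2_mem hμ hk) hK') hK'', fun θ ζ => ?_⟩
      rw [db2_T_add ((PR s).add_mem (db2_mem hμ hk) hK') hK'', db2_T_add (db2_mem hμ hk) hK', db2_T_bp, hK'e, hK''e,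
        ← hcdef, mul_div_cancel₀ _ hc, db2_neg]
      ring

theorem PR.heat (hK : K ∈ PR s) : ∃ L ∈ PR s, ∀ θ ζ, W.pth L θ ζ - W.pze (W.pze L) θ ζ = K θ ζ := by
  induction hK using Submodule.span_induction with
  | mem K hK =>
    obtain ⟨k, m, μ, A, hk, hμ, rfl⟩ := hK
    exact bp_heat k m μ A hμ hk
  | zero =>
    refine ⟨0, (PR s).zero_mem, fun θ ζ => ?_⟩
    have h1 : W.pze (0 : ℝ → ℝ → ℝ) = 0 := by
      funext θ ζ
      show deriv (fun _ : ℝ => (0 : ℝ)) ζ = 0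
      simp
    rw [h1, h1]
    show deriv (fun _ : ℝ => (0 : ℝ)) θ - 0 = 0
    simp
  | add K L _ _ hK hL =>
    obtain ⟨G, hG, hGe⟩ := hK
    obtain ⟨G', hG', hGe'⟩ := hL
    refine ⟨G + G', (PR s).add_mem hG hG', fun θ ζ => ?_⟩
    rw [db2_T_add hG hG', hGe, hGe']
    rfl
  | smul c K _ hK =>
    obtain ⟨G, hG, hGe⟩ := hK
    refine ⟨c • G, (PR s).smul_mem c hG, fun θ ζ => ?_⟩
    rw [db2_T_smul c hG, hGe]
    rfl

end Pool.Agent.Lib.MP_79abb3_an.W
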