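import Pool.Agent.Lib.MP_79abb3_an.W.DB2

/-!
Theorem W, block D, part B2b: forced profiles.
-/

set_option autoImplicit false
set_option linter.unusedSectionVars false

open MeasureTheory Set Filter Topology Function
open scoped ENNReal RealInnerProductSpace

namespace Pool.Agent.Lib.MP_79abb3_an.W

variable {s s' s'' : Set ℤ} {K L : ℝ → ℝ → ℝ} {T : ℝ → ℝ}

private theorem db2b_root (k : ℤ) (hk : k ≠ 0) : ∃ μ : ℂ, μ ^ 2 = Complex.I * k ∧ 0 < μ.re := by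
  rcases lt_or_gt_of_ne hk with h | h
  · have h0 : (0 : ℝ) < -(k : ℝ) / 2 := by
      have : (k : ℝ) < 0 := by exact_mod_cast h
      linarith
    refine ⟨((√(-(k : ℝ) / 2) : ℝ) : ℂ) * (1 - Complex.I), ?_, ?_⟩
    · rw [mul_pow, ← Complex.ofReal_pow, Real.sq_sqrt h0.le]
      have : (1 - Complex.I) ^ 2 = -2 * Complex.I := by
        ring_nf
        rw [Complex.I_sq]
        ring
      rw [this]
      push_cast
      ring
    · rw [Complex.re_ofReal_mul]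
      simpa using Real.sqrt_pos.2 h0
  · have h0 : (0 : ℝ) < (k : ℝ) / 2 := by
      have : (0 : ℝ) < k := by exact_mod_cast h
      linarith
    refine ⟨((√((k : ℝ) / 2) : ℝ) : ℂ) * (1 + Complex.I), ?_, ?_⟩
    · rw [mul_pow, ← Complex.ofReal_pow, Real.sq_sqrt h0.le]
      have : (1 + Complex.I) ^ 2 = 2 * Complex.I := by
        ring_nf
        rw [Complex.I_sq]
        ring
      rw [this]
      push_cast
      ring
    · rw [Complex.re_ofReal_mul]
      simpa using Real.sqrt_pos.2 h0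

private theorem db2b_zero : pze (0 : ℝ → ℝ → ℝ) = 0 := by
  funext θ ζ
  show deriv (fun _ : ℝ => (0 : ℝ)) ζ = 0
  simp

private theorem db2b_zero_th (θ ζ : ℝ) : pth (0 : ℝ → ℝ → ℝ) θ ζ = 0 := by
  show deriv (fun _ : ℝ => (0 : ℝ)) θ = 0
  simp

/-- Prescribed value at the wall, frequencies different from zero: for `T = Re (A e^{ikθ})`, `k ≠ 0`, the profile
`bp k 0 μ A` with `μ² = i k`, `Re μ > 0`. -/
theorem TR.heat (hT : T ∈ TR s) (h0 : (0 : ℤ) ∉ s) :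
    ∃ L ∈ PR s, (∀ θ ζ, W.pth L θ ζ - W.pze (W.pze L) θ ζ = 0) ∧ ∀ θ, L θ 0 = T θ := by
  induction hT using Submodule.span_induction with
  | mem T hT =>
    obtain ⟨k, A, hk, rfl⟩ := hT
    have hk0 : k ≠ 0 := fun h => h0 (h ▸ hk)
    obtain ⟨μ, hμ2, hμ⟩ := db2b_root k hk0
    refine ⟨bp k 0 μ A, db2_mem hμ hk, fun θ ζ => ?_, fun θ => ?_⟩
    · have h1 := db2_T_bp k 0 μ A θ ζ
      rw [h1, hμ2]
      simp [db2_zero]
    · unfold bp
      simp
  | zero =>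
    refine ⟨0, (PR s).zero_mem, fun θ ζ => ?_, fun θ => rfl⟩
    rw [db2b_zero, db2b_zero, db2b_zero_th]
    simp
  | add T T' _ _ hT hT' =>
    obtain ⟨L, hL, hLe, hL0⟩ := hT
    obtain ⟨L', hL', hLe', hL0'⟩ := hT'
    refine ⟨L + L', (PR s).add_mem hL hL', fun θ ζ => ?_, fun θ => ?_⟩
    · rw [db2_T_add hL hL', hLe, hLe', add_zero]
    · show L θ 0 + L' θ 0 = T θ + T' θ
      rw [hL0, hL0']
  | smul c T _ hT =>
    obtain ⟨L, hL, hLe, hL0⟩ := hT
    refine ⟨c • L, (PR s).smul_mem c hL, fun θ ζ => ?_, fun θ => ?_⟩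
    · rw [db2_T_smul c hL, hLe, mul_zero]
    · show c * L θ 0 = c * T θ
      rw [hL0]

/-- Mean value and rest. -/
theorem TR.dec (hT : T ∈ TR univ) : ∃ (m : ℝ) (τ : ℝ → ℝ), τ ∈ TR {0}ᶜ ∧ ∀ θ, T θ = m + τ θ := by
  induction hT using Submodule.span_induction with
  | mem T hT =>
    obtain ⟨k, A, -, rfl⟩ := hT
    by_cases hk : k = 0
    · refine ⟨A.re, 0, (TR {0}ᶜ).zero_mem, fun θ => ?_⟩
      subst hk
      simp
    · exact ⟨0, _, Submodule.subset_span ⟨k, A, hk, rfl⟩, fun θ => by simp⟩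
  | zero => exact ⟨0, 0, (TR {0}ᶜ).zero_mem, fun θ => by simp⟩
  | add T T' _ _ hT hT' =>
    obtain ⟨m, τ, hτ, h⟩ := hT
    obtain ⟨m', τ', hτ', h'⟩ := hT'
    refine ⟨m + m', τ + τ', (TR {0}ᶜ).add_mem hτ hτ', fun θ => ?_⟩
    show T θ + T' θ = m + m' + (τ θ + τ' θ)
    rw [h, h']
    ring
  | smul c T _ hT =>
    obtain ⟨m, τ, hτ, h⟩ := hT
    refine ⟨c * m, c • τ, (TR {0}ᶜ).smul_mem c hτ, fun θ => ?_⟩
    show c * T θ = c * m + c * τ θ
    rw [h]
    ring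

/-- Sum of simple waves. (`Re (A e^{ikθ}) = |A| cos (kθ + arg A)`, `|A| cos (|k|θ - arg A)` for `k < 0`.) -/
theorem TR.waves (hT : T ∈ TR {0}ᶜ) : ∃ (n : ℕ) (k : Fin n → ℕ) (φ A : Fin n → ℝ), (∀ i, 1 ≤ k i) ∧
    ∀ θ, T θ = ∑ i, A i * cw (k i) (φ i) θ := by
  induction hT using Submodule.span_induction with
  | mem T hT =>
    obtain ⟨k, A, hk, rfl⟩ := hT
    have hk0 : k ≠ 0 := hk
    have h1 : ∀ θ : ℝ, (A * Complex.exp (Complex.I * (k : ℂ) * (θ : ℂ))).re =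
        ‖A‖ * Real.cos ((k : ℝ) * θ + A.arg) := by
      intro θ
      conv_lhs => rw [← Complex.norm_mul_exp_arg_mul_I A]
      have h2 : (‖A‖ : ℂ) * Complex.exp ((A.arg : ℂ) * Complex.I) * Complex.exp (Complex.I * (k : ℂ) * (θ : ℂ)) =
          (‖A‖ : ℂ) * Complex.exp ((((k : ℝ) * θ + A.arg : ℝ) : ℂ) * Complex.I) := by
        rw [mul_assoc, ← Complex.exp_add]
        congr 2
        push_cast
        ring
      rw [h2, Complex.re_ofReal_mul, Complex.exp_ofReal_mul_I_re]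
    rcases lt_or_gt_of_ne hk0 with h | h
    · refine ⟨1, fun _ => k.natAbs, fun _ => -A.arg, fun _ => ‖A‖, fun _ => ?_, fun θ => ?_⟩
      · exact Int.natAbs_pos.2 hk0
      · have h3 : ((k.natAbs : ℕ) : ℝ) = -(k : ℝ) := by
          rw [Nat.cast_natAbs, abs_of_neg h]; push_cast; ring
        simp only [Finset.univ_unique, Finset.sum_const, Finset.card_singleton, one_smul]
        show _ = ‖A‖ * Real.cos ((k.natAbs : ℝ) * θ + -A.arg)
        rw [h1, h3, ← Real.cos_neg]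
        congr 2
        ring
    · refine ⟨1, fun _ => k.natAbs, fun _ => A.arg, fun _ => ‖A‖, fun _ => ?_, fun θ => ?_⟩
      · exact Int.natAbs_pos.2 hk0
      · have h3 : ((k.natAbs : ℕ) : ℝ) = (k : ℝ) := by
          rw [Nat.cast_natAbs, abs_of_pos h]
        simp only [Finset.univ_unique, Finset.sum_const, Finset.card_singleton, one_smul]
        show _ = ‖A‖ * Real.cos ((k.natAbs : ℝ) * θ + A.arg)
        rw [h1, h3]
  | zero => exact ⟨0, fun _ => 1, fun _ => 0, fun _ => 0, fun _ => le_rfl, fun θ => by simp⟩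
  | add T T' _ _ hT hT' =>
    obtain ⟨n, k, φ, A, hk, h⟩ := hT
    obtain ⟨n', k', φ', A', hk', h'⟩ := hT'
    refine ⟨n + n', Fin.append k k', Fin.append φ φ', Fin.append A A', fun i => ?_, fun θ => ?_⟩
    · refine Fin.addCases (fun i => ?_) (fun i => ?_) i
      · rw [Fin.append_left]; exact hk i
      · rw [Fin.append_right]; exact hk' i
    · rw [Fin.sum_univ_add]
      simp only [Fin.append_left, Fin.append_right]
      show T θ + T' θ = _
      rw [h, h']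
  | smul c T _ hT =>
    obtain ⟨n, k, φ, A, hk, h⟩ := hT
    refine ⟨n, k, φ, fun i => c * A i, hk, fun θ => ?_⟩
    show c * T θ = _
    rw [h, Finset.mul_sum]
    exact Finset.sum_congr rfl fun i _ => by ring

/-- Forced profiles exist: `PR.heat` for `-f`, minus `TR.heat` for the oscillating part of the value at the wall
(`TR.dec`, `PR.at_zero`), `PR.prim`, `TR.dec`. -/
theorem FD_exists {f : ℝ → ℝ → ℝ} (hf : f ∈ PR univ) : ∃ m M K G τ, IsFD f m M K G τ := by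
  have hf' : -f ∈ PR univ := (PR univ).neg_mem hf
  obtain ⟨K₁, hK₁, h1⟩ := PR.heat hf'
  obtain ⟨m, τ₁, hτ₁, h2⟩ := TR.dec (PR.at_zero hK₁)
  obtain ⟨L, hL, h3, h4⟩ := TR.heat hτ₁ (by simp)
  have hL' : L ∈ PR univ := PR.mono (subset_univ _) hL
  have hK : K₁ - L ∈ PR univ := (PR univ).sub_mem hK₁ hL'
  obtain ⟨G, hG, h5⟩ := PR.prim hK
  obtain ⟨M, τ, hτ, h6⟩ := TR.dec (PR.at_zero hG)
  refine ⟨m, M, K₁ - L, G, τ, hK, hG, hτ, fun θ ζ => ?_, h5, fun θ => ?_, h6⟩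
  · have hLn : -L ∈ PR univ := (PR univ).neg_mem hL'
    have h7 : K₁ - L = K₁ + (-1 : ℝ) • L := by
      rw [neg_one_smul, sub_eq_add_neg]
    rw [h7, db2_T_add hK₁ ((PR univ).smul_mem _ hL'), db2_T_smul _ hL', h1, h3, mul_zero, add_zero]
    rfl
  · show K₁ θ 0 - L θ 0 = m
    rw [h4, h2 θ]
    ring

/-- The same for `f` without the frequency zero: everything in `PR {0}ᶜ`, `m = M = 0`. -/
theorem FD_zero {f : ℝ → ℝ → ℝ} (hf : f ∈ PR {0}ᶜ) : ∃ K G τ, IsFD f 0 0 K G τ := by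
  have hf' : -f ∈ PR {0}ᶜ := (PR {0}ᶜ).neg_mem hf
  obtain ⟨K₁, hK₁, h1⟩ := PR.heat hf'
  obtain ⟨L, hL, h3, h4⟩ := TR.heat (PR.at_zero hK₁) (by simp)
  have hK : K₁ - L ∈ PR {0}ᶜ := (PR {0}ᶜ).sub_mem hK₁ hL
  obtain ⟨G, hG, h5⟩ := PR.prim hK
  refine ⟨K₁ - L, G, fun θ => G θ 0, PR.mono (subset_univ _) hK, PR.mono (subset_univ _) hG, PR.at_zero hG,
    fun θ ζ => ?_, h5, fun θ => ?_, fun θ => (zero_add _).symm⟩
  · have h7 : K₁ - L = K₁ + (-1 : ℝ) • L := by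
      rw [neg_one_smul, sub_eq_add_neg]
    rw [h7, db2_T_add hK₁ ((PR {0}ᶜ).smul_mem _ hL), db2_T_smul _ hL, h1, h3, mul_zero, add_zero]
    rfl
  · show K₁ θ 0 - L θ 0 = 0
    rw [h4 θ]
    ring

/-- Scaling of forced profiles. -/
theorem IsFD.scale {f K G : ℝ → ℝ → ℝ} {m M : ℝ} {τ : ℝ → ℝ} (h : IsFD f m M K G τ) (α : ℕ) (hα : 1 ≤ α) :
    IsFD (fun θ ζ => f (α * θ) (√α * ζ)) (m / α) (M / (α * √α)) (fun θ ζ => K (α * θ) (√α * ζ) / α)
      (fun θ ζ => G (α * θ) (√α * ζ) / (α * √α)) (fun θ => τ (α * θ) / (α * √α)) := by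
  have hα0 : (0 : ℝ) < α := by exact_mod_cast hα
  have hsq : √(α : ℝ) * √(α : ℝ) = α := Real.mul_self_sqrt hα0.le
  have hs0 : 0 < √(α : ℝ) := Real.sqrt_pos.2 hα0
  have hdz : ∀ {K : ℝ → ℝ → ℝ}, K ∈ PR univ → ∀ (c θ ζ : ℝ),
      HasDerivAt (fun r => K (α * θ) (√α * r) / c) (√α * pze K (α * θ) (√α * ζ) / c) ζ := by
    intro K hK c θ ζ
    have h1 : HasDerivAt (fun r : ℝ => √α * r) (√α) ζ := by
      simpa using (hasDerivAt_id ζ).const_mul (√(α : ℝ))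
    have h2 := ((PR.hasDerivAt_ze hK (α * θ) (√α * ζ)).comp ζ h1).div_const c
    rw [mul_comm (pze K (α * θ) (√α * ζ))] at h2
    exact h2
  have hdt : ∀ {K : ℝ → ℝ → ℝ}, K ∈ PR univ → ∀ (c θ ζ : ℝ),
      HasDerivAt (fun r => K (α * r) (√α * ζ) / c) (α * pth K (α * θ) (√α * ζ) / c) θ := by
    intro K hK c θ ζ
    have h1 : HasDerivAt (fun r : ℝ => α * r) α θ := by
      simpa using (hasDerivAt_id θ).const_mul (α : ℝ)
    have h2 := ((PR.hasDerivAt_th hK (α * θ) (√α * ζ)).comp θ h1).div_const c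
    rw [mul_comm (pth K (α * θ) (√α * ζ))] at h2
    exact h2
  have hsc : ∀ {K : ℝ → ℝ → ℝ}, K ∈ PR univ → ∀ c : ℝ, (fun θ ζ => K (α * θ) (√α * ζ) / c) ∈ PR univ := by
    intro K hK c
    have h1 := PR.smul c⁻¹ (PR.scale hK α hα (s' := univ) fun k _ => mem_univ _)
    have h2 : (fun θ ζ => K (α * θ) (√α * ζ) / c) = fun θ ζ => c⁻¹ * K (α * θ) (√α * ζ) := by
      funext θ ζ
      rw [div_eq_inv_mul]
    rw [h2]
    exact h1
  refine ⟨hsc h.hK α, hsc h.hG (α * √α), ?_, fun θ ζ => ?_, ?_, fun θ => ?_, fun θ => ?_⟩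
  · have h1 : (fun θ => τ (α * θ)) ∈ TR {0}ᶜ := TR.scale h.hτ α (s' := {0}ᶜ) fun k hk => by
      simp only [mem_compl_iff, mem_singleton_iff] at hk ⊢
      intro h0
      rcases mul_eq_zero.1 h0 with h2 | h2
      · have : (α : ℤ) ≠ 0 := by positivity
        exact this h2
      · exact hk h2
    have h2 : (fun θ => τ (α * θ) / (α * √α)) = (α * √α)⁻¹ • fun θ => τ (α * θ) := by
      funext θ
      show _ = (α * √α)⁻¹ * τ (α * θ)
      rw [div_eq_inv_mul]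
    rw [h2]
    exact (TR {0}ᶜ).smul_mem _ h1
  · have e1 : pth (fun θ ζ => K (α * θ) (√α * ζ) / α) θ ζ = pth K (α * θ) (√α * ζ) := by
      show deriv (fun r => K (α * r) (√α * ζ) / α) θ = _
      rw [(hdt h.hK α θ ζ).deriv]
      field_simp
    have e2 : pze (fun θ ζ => K (α * θ) (√α * ζ) / α) = fun θ ζ => pze K (α * θ) (√α * ζ) / √α := by
      funext θ ζ
      show deriv (fun r => K (α * θ) (√α * r) / α) ζ = _
      rw [(hdz h.hK α θ ζ).deriv, div_eq_div_iff hα0.ne' hs0.ne']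
      rw [mul_comm, ← mul_assoc, hsq]
      ring
    have e3 : pze (fun θ ζ => pze K (α * θ) (√α * ζ) / √α) θ ζ = pze (pze K) (α * θ) (√α * ζ) := by
      show deriv (fun r => pze K (α * θ) (√α * r) / √α) ζ = _
      rw [(hdz (PR.pze h.hK) (√α) θ ζ).deriv]
      field_simp
    rw [e1, e2, e3]
    exact h.heat _ _
  · funext θ ζ
    show deriv (fun r => G (α * θ) (√α * r) / (α * √α)) ζ = _
    rw [(hdz h.hG (α * √α) θ ζ).deriv, h.prim]
    field_simp
  · show K (α * θ) (√α * 0) / α = m / α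
    rw [mul_zero, h.tK]
  · show G (α * θ) (√α * 0) / (α * √α) = M / (α * √α) + τ (α * θ) / (α * √α)
    rw [mul_zero, h.tG]
    ring

end Pool.Agent.Lib.MP_79abb3_an.W
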