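import Pool.Agent.Lib.MP_79abb3_an.W.DBp

/-!
Theorem W, block D, part B3: the Stokes profile and the profiles of the quadratic terms.
-/

set_option autoImplicit false
set_option linter.unusedSectionVars false

open MeasureTheory Set Filter Topology Function
open scoped ENNReal RealInnerProductSpace

namespace Pool.Agent.Lib.MP_79abb3_an.W

variable {k k' : ℕ} {φ φ' : ℝ}

private theorem db3_bp (k : ℕ) (φ : ℝ) : Kh k φ =
    bp (k : ℤ) 0 (((√(k / 2) : ℝ) : ℂ) + ((√(k / 2) : ℝ) : ℂ) * Complex.I)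
      (Complex.exp (((φ : ℝ) : ℂ) * Complex.I)) := by
  funext θ ζ
  unfold Kh bp
  rw [pow_zero, one_mul, ← Complex.exp_add, ← Complex.exp_add]
  have e : ((φ : ℝ) : ℂ) * Complex.I + Complex.I * (((k : ℕ) : ℤ) : ℂ) * ((θ : ℝ) : ℂ) +
      -((((√(k / 2) : ℝ) : ℂ) + ((√(k / 2) : ℝ) : ℂ) * Complex.I) * ((ζ : ℝ) : ℂ)) =
      ((-(√(k / 2) * ζ) : ℝ) : ℂ) + ((k * θ + φ - √(k / 2) * ζ : ℝ) : ℂ) * Complex.I := by
    push_cast
    ring
  rw [e, Complex.exp_re, Complex.add_re, Complex.add_im, Complex.ofReal_re, Complex.ofReal_im,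
    Complex.re_ofReal_mul, Complex.im_ofReal_mul, Complex.I_re, Complex.I_im, mul_zero, mul_one,
    add_zero, zero_add]

private theorem db3_pos (hk : 1 ≤ k) : 0 < √((k : ℝ) / 2) := by
  have : (1 : ℝ) ≤ k := by exact_mod_cast hk
  exact Real.sqrt_pos.2 (by linarith)

/-- `Kh k φ = bp k 0 ((1+i) √(k/2)) e^{iφ}` -/
theorem Kh_mem (hk : 1 ≤ k) (φ : ℝ) : Kh k φ ∈ PR {(k : ℤ), -(k : ℤ)} := by
  refine Submodule.subset_span ⟨(k : ℤ), 0, _, _, by simp, ?_, db3_bp k φ⟩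
  rw [Complex.add_re, Complex.ofReal_re, Complex.re_ofReal_mul, Complex.I_re, mul_zero, add_zero]
  exact db3_pos hk

theorem Gh_mem (hk : 1 ≤ k) (φ : ℝ) : Gh k φ ∈ PR {(k : ℤ), -(k : ℤ)} :=
  PR.smul (-(√k)⁻¹) (Kh_mem hk (φ - Real.pi / 4))

theorem cw_mem (k : ℕ) (φ : ℝ) : cw k φ ∈ TR {(k : ℤ), -(k : ℤ)} := by
  refine Submodule.subset_span ⟨(k : ℤ), Complex.exp (((φ : ℝ) : ℂ) * Complex.I), by simp, ?_⟩
  funext θ
  unfold cw
  rw [← Complex.exp_add]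
  have e : ((φ : ℝ) : ℂ) * Complex.I + Complex.I * (((k : ℕ) : ℤ) : ℂ) * ((θ : ℝ) : ℂ) =
      ((k * θ + φ : ℝ) : ℂ) * Complex.I := by
    push_cast
    ring
  rw [e, Complex.exp_ofReal_mul_I_re]

private theorem db3_exp (a ζ : ℝ) :
    HasDerivAt (fun s : ℝ => Real.exp (-(a * s))) (-a * Real.exp (-(a * ζ))) ζ := by
  have h0 : HasDerivAt (fun s : ℝ => a * s) a ζ := by
    have := (hasDerivAt_id ζ).const_mul a
    rw [mul_one] at this
    exact this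
  refine h0.neg.exp.congr_deriv ?_
  show Real.exp (-(a * ζ)) * -a = -a * Real.exp (-(a * ζ))
  ring

private theorem db3_ph (b a ζ : ℝ) : HasDerivAt (fun s : ℝ => b - a * s) (-a) ζ := by
  have h0 : HasDerivAt (fun s : ℝ => a * s) a ζ := by
    have := (hasDerivAt_id ζ).const_mul a
    rw [mul_one] at this
    exact this
  exact h0.const_sub b

private theorem db3_pze (k : ℕ) (φ : ℝ) : pze (Kh k φ) = fun θ ζ => √(k / 2) *
    (Real.exp (-(√(k / 2) * ζ)) * (Real.sin (k * θ + φ - √(k / 2) * ζ) -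
      Real.cos (k * θ + φ - √(k / 2) * ζ))) := by
  funext θ ζ
  unfold pze Kh
  have h := (db3_exp (√(k / 2)) ζ).mul (db3_ph (k * θ + φ) (√(k / 2)) ζ).cos
  refine h.deriv.trans ?_
  ring

private theorem db3_pth (k : ℕ) (φ θ ζ : ℝ) : pth (Kh k φ) θ ζ =
    -(k * (Real.exp (-(√(k / 2) * ζ)) * Real.sin (k * θ + φ - √(k / 2) * ζ))) := by
  unfold pth Kh
  have h0 : HasDerivAt (fun s : ℝ => k * s + φ - √(k / 2) * ζ) (k : ℝ) θ := by
    have := ((hasDerivAt_id θ).const_mul (k : ℝ)).add_const φ |>.sub_const (√(k / 2) * ζ)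
    rw [mul_one] at this
    exact this
  refine (h0.cos.const_mul (Real.exp (-(√(k / 2) * ζ)))).deriv.trans ?_
  ring

private theorem db3_sq (k : ℕ) : √((k : ℝ) / 2) * √((k : ℝ) / 2) = k / 2 :=
  Real.mul_self_sqrt (by positivity)

private theorem db3_sqrt (k : ℕ) : √(k : ℝ) = √2 * √((k : ℝ) / 2) := by
  rw [← Real.sqrt_mul (by norm_num)]
  congr 1
  ring

theorem Kh_heat (k : ℕ) (φ θ ζ : ℝ) : pth (Kh k φ) θ ζ = pze (pze (Kh k φ)) θ ζ := by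
  rw [db3_pth, db3_pze]
  unfold pze
  have h1 := db3_ph (k * θ + φ) (√(k / 2)) ζ
  have h := ((db3_exp (√(k / 2)) ζ).mul (h1.sin.sub h1.cos)).const_mul (√(k / 2))
  refine Eq.trans ?_ h.deriv.symm
  have e := db3_sq k
  simp only [Pi.sub_apply]
  linear_combination (2 * (Real.exp (-(√(k / 2) * ζ)) * Real.sin (k * θ + φ - √(k / 2) * ζ))) * e

private theorem db3_trig (ψ : ℝ) : Real.sin (ψ - Real.pi / 4) - Real.cos (ψ - Real.pi / 4) =
    -(√2 * Real.cos ψ) := by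
  rw [Real.sin_sub, Real.cos_sub, Real.sin_pi_div_four, Real.cos_pi_div_four]
  ring

private theorem db3_ang (k : ℕ) (φ θ ζ : ℝ) : k * θ + (φ - Real.pi / 4) - √(k / 2) * ζ =
    (k * θ + φ - √(k / 2) * ζ) - Real.pi / 4 := by ring

private theorem db3_pzeG (k : ℕ) (φ θ ζ : ℝ) :
    pze (Gh k φ) θ ζ = -(√k)⁻¹ * pze (Kh k (φ - Real.pi / 4)) θ ζ := by
  have h := (db3_exp (√(k / 2)) ζ).mul (db3_ph (k * θ + (φ - Real.pi / 4)) (√(k / 2)) ζ).cos
  have h2 : HasDerivAt (fun s => Kh k (φ - Real.pi / 4) θ s) _ ζ := h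
  unfold pze
  rw [h2.deriv]
  exact (h2.const_mul (-(√k)⁻¹)).deriv

theorem Gh_ze (hk : 1 ≤ k) (φ : ℝ) : pze (Gh k φ) = Kh k φ := by
  have h0 : √(k : ℝ) ≠ 0 := by
    have : (1 : ℝ) ≤ k := by exact_mod_cast hk
    exact (Real.sqrt_pos.2 (by linarith)).ne'
  have h2 := db3_sqrt k
  funext θ ζ
  rw [db3_pzeG, db3_pze]
  unfold Kh
  simp only
  rw [db3_ang, db3_trig]
  field_simp
  rw [h2]
  ring

theorem Gh_th (hk : 1 ≤ k) (φ θ ζ : ℝ) : pth (Gh k φ) θ ζ = pze (Kh k φ) θ ζ := by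
  have h0 : √(k : ℝ) ≠ 0 := by
    have : (1 : ℝ) ≤ k := by exact_mod_cast hk
    exact (Real.sqrt_pos.2 (by linarith)).ne'
  have hs := db3_sqrt k
  have h1 : HasDerivAt (fun s : ℝ => k * s + (φ - Real.pi / 4) - √(k / 2) * ζ) (k : ℝ) θ := by
    have := ((hasDerivAt_id θ).const_mul (k : ℝ)).add_const (φ - Real.pi / 4) |>.sub_const
      (√(k / 2) * ζ)
    rw [mul_one] at this
    exact this
  have h2 := (h1.cos.const_mul (Real.exp (-(√(k / 2) * ζ)))).const_mul (-(√k)⁻¹)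
  have h3 : pth (Gh k φ) θ ζ = _ := h2.deriv
  rw [h3, db3_pze, db3_ang, Real.sin_sub, Real.cos_pi_div_four, Real.sin_pi_div_four]
  have hk2 : (k : ℝ) = √k * √k := (Real.mul_self_sqrt (by positivity)).symm
  have h22 : √2 * √2 = (2 : ℝ) := Real.mul_self_sqrt (by norm_num)
  have e1 : (√(k:ℝ))⁻¹ * (k : ℝ) = √k := by
    rw [mul_comm]
    exact (eq_mul_inv_iff_mul_eq₀ h0).2 hk2.symm |>.symm
  have e2 : √(k : ℝ) * √2 = 2 * √((k : ℝ) / 2) := by
    rw [hs]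
    linear_combination √((k : ℝ) / 2) * h22
  simp only
  generalize Real.sin (k * θ + φ - √(k / 2) * ζ) = S
  generalize Real.cos (k * θ + φ - √(k / 2) * ζ) = C
  generalize Real.exp (-(√(k / 2) * ζ)) = E
  linear_combination (E * (S * (√2 / 2) - C * (√2 / 2))) * e1 + (E * (S - C) / 2) * e2

theorem Kh_zero (k : ℕ) (φ θ : ℝ) : Kh k φ θ 0 = cw k φ θ := by
  unfold Kh cw
  rw [mul_zero, neg_zero, Real.exp_zero, one_mul, sub_zero]

theorem Gh_zero (k : ℕ) (φ θ : ℝ) : Gh k φ θ 0 = -(√k)⁻¹ * cw k (φ - Real.pi / 4) θ := by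
  unfold Gh
  rw [Kh_zero]

theorem Kh_scale (k : ℕ) (φ θ ζ : ℝ) : Kh k φ θ ζ = Kh 1 φ (k * θ) (√k * ζ) := by
  have h : √((((1 : ℕ) : ℝ)) / 2) * (√k * ζ) = √(k / 2) * ζ := by
    rw [← mul_assoc, ← Real.sqrt_mul (by positivity)]
    congr 2
    push_cast
    ring
  unfold Kh
  rw [h, Nat.cast_one, one_mul]

theorem Kh_bound (k : ℕ) (φ θ ζ : ℝ) : |Kh k φ θ ζ| ≤ Real.exp (-(√(k / 2) * ζ)) := by
  unfold Kh
  rw [abs_mul, abs_of_pos (Real.exp_pos _)]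
  exact mul_le_of_le_one_right (Real.exp_pos _).le (Real.abs_cos_le_one _)

theorem pze_Kh_bound (k : ℕ) (φ θ ζ : ℝ) : |pze (Kh k φ) θ ζ| ≤ 2 * √k * Real.exp (-(√(k / 2) * ζ)) := by
  rw [db3_pze]
  simp only
  rw [abs_mul, abs_mul, abs_of_pos (Real.exp_pos _), abs_of_nonneg (Real.sqrt_nonneg _)]
  have h1 : |Real.sin (k * θ + φ - √(k / 2) * ζ) - Real.cos (k * θ + φ - √(k / 2) * ζ)| ≤ 2 := by
    refine (abs_sub _ _).trans ?_
    linarith [Real.abs_sin_le_one (k * θ + φ - √(k / 2) * ζ),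
      Real.abs_cos_le_one (k * θ + φ - √(k / 2) * ζ)]
  have h2 : √((k : ℝ) / 2) ≤ √k := Real.sqrt_le_sqrt (by
    have : (0 : ℝ) ≤ k := by positivity
    linarith)
  have h3 := Real.exp_pos (-(√(k / 2) * ζ))
  calc √((k : ℝ) / 2) * (Real.exp (-(√(k / 2) * ζ)) *
        |Real.sin (k * θ + φ - √(k / 2) * ζ) - Real.cos (k * θ + φ - √(k / 2) * ζ)|)
      ≤ √k * (Real.exp (-(√(k / 2) * ζ)) * 2) :=
        mul_le_mul h2 (mul_le_mul_of_nonneg_left h1 h3.le) (by positivity) (Real.sqrt_nonneg _)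
    _ = 2 * √k * Real.exp (-(√(k / 2) * ζ)) := by ring

end Pool.Agent.Lib.MP_79abb3_an.W
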