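import Pool.Agent.Lib.MP_79abb3_an.W.DB1b
import Pool.Agent.Lib.MP_79abb3_an.W.DB3

/-!
Theorem W, block D, part B3b: profiles of the quadratic terms.
-/

set_option autoImplicit false
set_option linter.unusedSectionVars false

open MeasureTheory Set Filter Topology Function
open scoped ENNReal RealInnerProductSpace

namespace Pool.Agent.Lib.MP_79abb3_an.W

variable {k k' : ℕ} {φ φ' : ℝ}

/-- The profiles of the quadratic terms. -/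
noncomputable def fA (k : ℕ) (φ : ℝ) (k' : ℕ) (φ' θ ζ : ℝ) : ℝ :=
  pze (Kh k' φ') θ ζ * (ζ * cw k φ θ - Gh k φ θ ζ + Gh k φ θ 0)
noncomputable def fB (k : ℕ) (φ : ℝ) (k' : ℕ) (φ' θ ζ : ℝ) : ℝ :=
  Kh k φ θ ζ * Kh k' φ' θ ζ - cw k φ θ * Kh k' φ' θ ζ
noncomputable def fC (k : ℕ) (φ : ℝ) (k' : ℕ) (φ' θ ζ : ℝ) : ℝ := -(cw k φ θ * Kh k' φ' θ ζ)

private theorem db3b_A {s : Set ℤ} (hk : 1 ≤ k) (hk' : 1 ≤ k')
    (h : ∀ a ∈ ({(k : ℤ), -(k : ℤ)} : Set ℤ), ∀ b ∈ ({(k' : ℤ), -(k' : ℤ)} : Set ℤ),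
      a + b ∈ s ∧ a - b ∈ s) : fA k φ k' φ' ∈ PR s := by
  have hp := PR.pze (Kh_mem hk' φ')
  have h1 := PR.zeta (PR.tr h (cw_mem k φ) hp)
  have h2 := PR.mul h (Gh_mem hk φ) hp
  have h3 := PR.smul (-(√k)⁻¹) (PR.tr h (cw_mem k (φ - Real.pi / 4)) hp)
  have h4 := PR.add (PR.sub h1 h2) h3
  have e : fA k φ k' φ' = fun θ ζ => ζ * (cw k φ θ * pze (Kh k' φ') θ ζ) -
      Gh k φ θ ζ * pze (Kh k' φ') θ ζ +
      -(√k)⁻¹ * (cw k (φ - Real.pi / 4) θ * pze (Kh k' φ') θ ζ) := by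
    funext θ ζ
    unfold fA
    rw [Gh_zero]
    ring
  rw [e]
  exact h4

private theorem db3b_C {s : Set ℤ} (hk' : 1 ≤ k')
    (h : ∀ a ∈ ({(k : ℤ), -(k : ℤ)} : Set ℤ), ∀ b ∈ ({(k' : ℤ), -(k' : ℤ)} : Set ℤ),
      a + b ∈ s ∧ a - b ∈ s) : fC k φ k' φ' ∈ PR s := by
  have h1 := PR.smul (-1) (PR.tr h (cw_mem k φ) (Kh_mem hk' φ'))
  have e : fC k φ k' φ' = fun θ ζ => (-1) * (cw k φ θ * Kh k' φ' θ ζ) := by
    funext θ ζ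
    unfold fC
    ring
  rw [e]
  exact h1

private theorem db3b_B {s : Set ℤ} (hk : 1 ≤ k) (hk' : 1 ≤ k')
    (h : ∀ a ∈ ({(k : ℤ), -(k : ℤ)} : Set ℤ), ∀ b ∈ ({(k' : ℤ), -(k' : ℤ)} : Set ℤ),
      a + b ∈ s ∧ a - b ∈ s) : fB k φ k' φ' ∈ PR s :=
  PR.sub (PR.mul h (Kh_mem hk φ) (Kh_mem hk' φ')) (PR.tr h (cw_mem k φ) (Kh_mem hk' φ'))

private theorem db3b_ne (hk : 1 ≤ k) (hk' : 1 ≤ k') (h : k ≠ k') :
    ∀ a ∈ ({(k : ℤ), -(k : ℤ)} : Set ℤ), ∀ b ∈ ({(k' : ℤ), -(k' : ℤ)} : Set ℤ),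
      a + b ∈ ({0}ᶜ : Set ℤ) ∧ a - b ∈ ({0}ᶜ : Set ℤ) := by
  intro a ha b hb
  rw [mem_insert_iff, mem_singleton_iff] at ha hb
  rw [mem_compl_iff, mem_singleton_iff, mem_compl_iff, mem_singleton_iff]
  rcases ha with ha | ha <;> rcases hb with hb | hb <;> subst ha <;> subst hb <;> omega

theorem fA_mem (hk : 1 ≤ k) (hk' : 1 ≤ k') : fA k φ k' φ' ∈ PR univ :=
  db3b_A hk hk' fun _ _ _ _ => ⟨mem_univ _, mem_univ _⟩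
theorem fB_mem (hk : 1 ≤ k) (hk' : 1 ≤ k') : fB k φ k' φ' ∈ PR univ :=
  db3b_B hk hk' fun _ _ _ _ => ⟨mem_univ _, mem_univ _⟩
theorem fC_mem (hk : 1 ≤ k) (hk' : 1 ≤ k') : fC k φ k' φ' ∈ PR univ :=
  db3b_C hk' fun _ _ _ _ => ⟨mem_univ _, mem_univ _⟩

/-- Different frequencies: no mean value. -/
theorem fA_mem0 (hk : 1 ≤ k) (hk' : 1 ≤ k') (h : k ≠ k') : fA k φ k' φ' ∈ PR {0}ᶜ :=
  db3b_A hk hk' (db3b_ne hk hk' h)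
theorem fB_mem0 (hk : 1 ≤ k) (hk' : 1 ≤ k') (h : k ≠ k') : fB k φ k' φ' ∈ PR {0}ᶜ :=
  db3b_B hk hk' (db3b_ne hk hk' h)
theorem fC_mem0 (hk : 1 ≤ k) (hk' : 1 ≤ k') (h : k ≠ k') : fC k φ k' φ' ∈ PR {0}ᶜ :=
  db3b_C hk' (db3b_ne hk hk' h)

private theorem db3b_cw (k : ℕ) (φ θ : ℝ) : cw k φ θ = cw 1 φ (k * θ) := by
  unfold cw
  rw [Nat.cast_one, one_mul]

private theorem db3b_Gh (k : ℕ) (φ θ ζ : ℝ) :
    Gh k φ θ ζ = (√k)⁻¹ * Gh 1 φ (k * θ) (√k * ζ) := by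
  unfold Gh
  rw [Kh_scale, Nat.cast_one, Real.sqrt_one, inv_one]
  ring

private theorem db3b_pze (k : ℕ) (φ θ ζ : ℝ) :
    pze (Kh k φ) θ ζ = √k * pze (Kh 1 φ) (k * θ) (√k * ζ) := by
  have h1 := PR.hasDerivAt_ze (Kh_mem (k := 1) le_rfl φ) (k * θ) (√k * ζ)
  have h2 : HasDerivAt (fun s : ℝ => √k * s) √k ζ := by
    have := (hasDerivAt_id ζ).const_mul √(k : ℝ)
    rw [mul_one] at this
    exact this
  have h3 : HasDerivAt (fun s => Kh 1 φ (k * θ) (√k * s)) (pze (Kh 1 φ) (k * θ) (√k * ζ) * √k) ζ :=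
    h1.comp ζ h2
  have h4 : pze (Kh k φ) θ ζ = deriv (fun s => Kh 1 φ (k * θ) (√k * s)) ζ := by
    unfold pze
    congr 1
    exact funext fun s => Kh_scale k φ θ s
  rw [h4, h3.deriv, mul_comm]

/-- Equal frequencies: scaling. -/
theorem fA_scale (hk : 1 ≤ k) (θ ζ : ℝ) : fA k φ k φ' θ ζ = fA 1 φ 1 φ' (k * θ) (√k * ζ) := by
  have h0 : √(k : ℝ) ≠ 0 := by
    have : (1 : ℝ) ≤ k := by exact_mod_cast hk
    exact (Real.sqrt_pos.2 (by linarith)).ne'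
  unfold fA
  rw [db3b_pze, db3b_cw, db3b_Gh k φ θ ζ, db3b_Gh k φ θ 0, mul_zero]
  field_simp
theorem fB_scale (hk : 1 ≤ k) (θ ζ : ℝ) : fB k φ k φ' θ ζ = fB 1 φ 1 φ' (k * θ) (√k * ζ) := by
  unfold fB
  rw [db3b_cw, Kh_scale k φ, Kh_scale k φ']
theorem fC_scale (hk : 1 ≤ k) (θ ζ : ℝ) : fC k φ k φ' θ ζ = fC 1 φ 1 φ' (k * θ) (√k * ζ) := by
  unfold fC
  rw [db3b_cw, Kh_scale k φ']

end Pool.Agent.Lib.MP_79abb3_an.W
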