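import Pool.Agent.Lib.MP_79abb3_an.W.DDef

/-!
Theorem W, block D, part B1: algebra of the profiles. `PR s` is the real span of the functions
`bp k m μ A = Re (A e^{ikθ} ζ^m e^{-μζ})`, `k ∈ s`, `Re μ > 0`. Use `Re X * Re Y = (Re (X Y) + Re (X conj Y)) / 2` and
`Submodule.span_induction`.
-/

set_option autoImplicit false
set_option linter.unusedSectionVars false

open MeasureTheory Set Filter Topology Function
open scoped ENNReal RealInnerProductSpace

namespace Pool.Agent.Lib.MP_79abb3_an.W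

variable {s s' s'' : Set ℤ} {K L : ℝ → ℝ → ℝ} {T : ℝ → ℝ}

theorem PR.mono (h : s ⊆ s') (hK : K ∈ PR s) : K ∈ PR s' := by
  refine Submodule.span_mono ?_ hK
  rintro K ⟨k, m, μ, A, hk, hμ, rfl⟩
  exact ⟨k, m, μ, A, h hk, hμ, rfl⟩

theorem TR.mono (h : s ⊆ s') (hT : T ∈ TR s) : T ∈ TR s' := by
  refine Submodule.span_mono ?_ hT
  rintro T ⟨k, A, hk, rfl⟩
  exact ⟨k, A, h hk, rfl⟩

private theorem db1_exp_conj (x : ℝ) (k : ℤ) :
    (starRingEnd ℂ) (Complex.exp (Complex.I * (k : ℂ) * (x : ℂ))) = Complex.exp (-(Complex.I * (k : ℂ) * (x : ℂ))) := by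
  rw [← Complex.exp_conj]
  congr 1
  simp

private theorem db1_exp_conj' (x : ℝ) (μ : ℂ) :
    (starRingEnd ℂ) (Complex.exp (-(μ * (x : ℂ)))) = Complex.exp (-((starRingEnd ℂ) μ * (x : ℂ))) := by
  rw [← Complex.exp_conj]
  congr 1
  simp

private theorem db1_re_mul (X Y : ℂ) : X.re * Y.re = (X * Y / 2).re + (X * (starRingEnd ℂ) Y / 2).re := by
  have h2 : (2 : ℂ) = ((2 : ℝ) : ℂ) := by norm_num
  rw [h2, Complex.div_ofReal_re, Complex.div_ofReal_re]
  simp only [Complex.mul_re, Complex.conj_re, Complex.conj_im]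
  ring

/-- The product of two basic profiles. -/
theorem bp_mul (k k' : ℤ) (m m' : ℕ) (μ μ' A A' : ℂ) (θ ζ : ℝ) :
    bp k m μ A θ ζ * bp k' m' μ' A' θ ζ =
      bp (k + k') (m + m') (μ + μ') (A * A' / 2) θ ζ +
        bp (k - k') (m + m') (μ + (starRingEnd ℂ) μ') (A * (starRingEnd ℂ) A' / 2) θ ζ := by
  unfold bp
  rw [db1_re_mul]
  congr 1
  · congr 1
    rw [show Complex.I * ((k + k' : ℤ) : ℂ) * (θ : ℂ) = Complex.I * (k : ℂ) * (θ : ℂ) + Complex.I * (k' : ℂ) * (θ : ℂ) by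
      push_cast; ring, show -((μ + μ') * (ζ : ℂ)) = -(μ * (ζ : ℂ)) + -(μ' * (ζ : ℂ)) by ring, Complex.exp_add,
      Complex.exp_add, pow_add]
    ring
  · congr 1
    rw [map_mul, map_mul, map_mul, db1_exp_conj, db1_exp_conj', map_pow, Complex.conj_ofReal,
      show Complex.I * ((k - k' : ℤ) : ℂ) * (θ : ℂ) =
        Complex.I * (k : ℂ) * (θ : ℂ) + -(Complex.I * (k' : ℂ) * (θ : ℂ)) by push_cast; ring,
      show -((μ + (starRingEnd ℂ) μ') * (ζ : ℂ)) = -(μ * (ζ : ℂ)) + -((starRingEnd ℂ) μ' * (ζ : ℂ)) by ring,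
      Complex.exp_add, Complex.exp_add, pow_add]
    ring

theorem bp_mem {k : ℤ} {m : ℕ} {μ : ℂ} (A : ℂ) (hk : k ∈ s) (hμ : 0 < μ.re) : bp k m μ A ∈ PR s :=
  Submodule.subset_span ⟨k, m, μ, A, hk, hμ, rfl⟩

theorem PR.smul (c : ℝ) (hK : K ∈ PR s) : (fun θ ζ => c * K θ ζ) ∈ PR s :=
  (PR s).smul_mem c hK

theorem PR.add (hK : K ∈ PR s) (hL : L ∈ PR s) : (fun θ ζ => K θ ζ + L θ ζ) ∈ PR s :=
  (PR s).add_mem hK hL

theorem PR.sub (hK : K ∈ PR s) (hL : L ∈ PR s) : (fun θ ζ => K θ ζ - L θ ζ) ∈ PR s :=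
  (PR s).sub_mem hK hL

theorem PR.mul (h : ∀ k ∈ s, ∀ k' ∈ s', k + k' ∈ s'' ∧ k - k' ∈ s'') (hK : K ∈ PR s) (hL : L ∈ PR s') :
    (fun θ ζ => K θ ζ * L θ ζ) ∈ PR s'' := by
  induction hK using Submodule.span_induction with
  | mem K hK =>
    obtain ⟨k, m, μ, A, hk, hμ, rfl⟩ := hK
    induction hL using Submodule.span_induction with
    | mem L hL =>
      obtain ⟨k', m', μ', A', hk', hμ', rfl⟩ := hL
      have e : (fun θ ζ => bp k m μ A θ ζ * bp k' m' μ' A' θ ζ) = fun θ ζ =>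
          bp (k + k') (m + m') (μ + μ') (A * A' / 2) θ ζ +
            bp (k - k') (m + m') (μ + (starRingEnd ℂ) μ') (A * (starRingEnd ℂ) A' / 2) θ ζ := by
        funext θ ζ
        exact bp_mul k k' m m' μ μ' A A' θ ζ
      rw [e]
      refine PR.add (bp_mem _ (h k hk k' hk').1 ?_) (bp_mem _ (h k hk k' hk').2 ?_)
      · rw [Complex.add_re]; exact add_pos hμ hμ'
      · rw [Complex.add_re, Complex.conj_re]; exact add_pos hμ hμ'
    | zero =>
      have e : (fun θ ζ => bp k m μ A θ ζ * (0 : ℝ → ℝ → ℝ) θ ζ) = 0 := by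
        funext θ ζ
        simp
      rw [e]
      exact (PR s'').zero_mem
    | add L L' _ _ h1 h2 =>
      have e : (fun θ ζ => bp k m μ A θ ζ * (L + L') θ ζ) = fun θ ζ =>
          bp k m μ A θ ζ * L θ ζ + bp k m μ A θ ζ * L' θ ζ := by
        funext θ ζ
        simp [mul_add]
      rw [e]
      exact PR.add h1 h2
    | smul c L _ h1 =>
      have e : (fun θ ζ => bp k m μ A θ ζ * (c • L) θ ζ) = fun θ ζ => c * (bp k m μ A θ ζ * L θ ζ) := by
        funext θ ζ
        simp only [Pi.smul_apply, smul_eq_mul]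
        ring
      rw [e]
      exact PR.smul c h1
  | zero =>
    have e : (fun θ ζ => (0 : ℝ → ℝ → ℝ) θ ζ * L θ ζ) = 0 := by
      funext θ ζ
      simp
    rw [e]
    exact (PR s'').zero_mem
  | add K K' _ _ h1 h2 =>
    have e : (fun θ ζ => (K + K') θ ζ * L θ ζ) = fun θ ζ => K θ ζ * L θ ζ + K' θ ζ * L θ ζ := by
      funext θ ζ
      simp [add_mul]
    rw [e]
    exact PR.add h1 h2
  | smul c K _ h1 =>
    have e : (fun θ ζ => (c • K) θ ζ * L θ ζ) = fun θ ζ => c * (K θ ζ * L θ ζ) := by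
      funext θ ζ
      simp only [Pi.smul_apply, smul_eq_mul]
      ring
    rw [e]
    exact PR.smul c h1

private theorem db1_tr (k : ℤ) (A : ℂ) (θ ζ : ℝ) :
    (A * Complex.exp (Complex.I * (k : ℂ) * (θ : ℂ))).re = bp k 0 0 A θ ζ := by
  unfold bp
  simp

theorem PR.tr (h : ∀ k ∈ s, ∀ k' ∈ s', k + k' ∈ s'' ∧ k - k' ∈ s'') (hT : T ∈ TR s) (hL : L ∈ PR s') :
    (fun θ ζ => T θ * L θ ζ) ∈ PR s'' := by
  induction hT using Submodule.span_induction with
  | mem T hT =>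
    obtain ⟨k, A, hk, rfl⟩ := hT
    induction hL using Submodule.span_induction with
    | mem L hL =>
      obtain ⟨k', m', μ', A', hk', hμ', rfl⟩ := hL
      have e : (fun θ ζ : ℝ => (A * Complex.exp (Complex.I * (k : ℂ) * (θ : ℂ))).re * bp k' m' μ' A' θ ζ) = fun θ ζ =>
          bp (k + k') (0 + m') (0 + μ') (A * A' / 2) θ ζ +
            bp (k - k') (0 + m') (0 + (starRingEnd ℂ) μ') (A * (starRingEnd ℂ) A' / 2) θ ζ := by
        funext θ ζ
        rw [db1_tr k A θ ζ]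
        exact bp_mul k k' 0 m' 0 μ' A A' θ ζ
      show (fun θ ζ : ℝ => (A * Complex.exp (Complex.I * (k : ℂ) * (θ : ℂ))).re * bp k' m' μ' A' θ ζ) ∈ PR s''
      rw [e]
      refine PR.add (bp_mem _ (h k hk k' hk').1 ?_) (bp_mem _ (h k hk k' hk').2 ?_)
      · rw [zero_add]; exact hμ'
      · rw [zero_add, Complex.conj_re]; exact hμ'
    | zero =>
      have e : (fun θ ζ : ℝ => (fun θ : ℝ => (A * Complex.exp (Complex.I * (k : ℂ) * (θ : ℂ))).re) θ *
          (0 : ℝ → ℝ → ℝ) θ ζ) = 0 := by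
        funext θ ζ
        simp
      rw [e]
      exact (PR s'').zero_mem
    | add L L' _ _ h1 h2 =>
      have e : (fun θ ζ : ℝ => (fun θ : ℝ => (A * Complex.exp (Complex.I * (k : ℂ) * (θ : ℂ))).re) θ *
          (L + L') θ ζ) = fun θ ζ =>
          (fun θ : ℝ => (A * Complex.exp (Complex.I * (k : ℂ) * (θ : ℂ))).re) θ * L θ ζ +
            (fun θ : ℝ => (A * Complex.exp (Complex.I * (k : ℂ) * (θ : ℂ))).re) θ * L' θ ζ := by
        funext θ ζ
        simp only [Pi.add_apply]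
        ring
      rw [e]
      exact PR.add h1 h2
    | smul c L _ h1 =>
      have e : (fun θ ζ : ℝ => (fun θ : ℝ => (A * Complex.exp (Complex.I * (k : ℂ) * (θ : ℂ))).re) θ *
          (c • L) θ ζ) = fun θ ζ =>
          c * ((fun θ : ℝ => (A * Complex.exp (Complex.I * (k : ℂ) * (θ : ℂ))).re) θ * L θ ζ) := by
        funext θ ζ
        simp only [Pi.smul_apply, smul_eq_mul]
        ring
      rw [e]
      exact PR.smul c h1
  | zero =>
    have e : (fun θ ζ => (0 : ℝ → ℝ) θ * L θ ζ) = 0 := by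
      funext θ ζ
      simp
    rw [e]
    exact (PR s'').zero_mem
  | add T T' _ _ h1 h2 =>
    have e : (fun θ ζ => (T + T') θ * L θ ζ) = fun θ ζ => T θ * L θ ζ + T' θ * L θ ζ := by
      funext θ ζ
      simp [add_mul]
    rw [e]
    exact PR.add h1 h2
  | smul c T _ h1 =>
    have e : (fun θ ζ => (c • T) θ * L θ ζ) = fun θ ζ => c * (T θ * L θ ζ) := by
      funext θ ζ
      simp only [Pi.smul_apply, smul_eq_mul]
      ring
    rw [e]
    exact PR.smul c h1

theorem PR.zeta (hK : K ∈ PR s) : (fun θ ζ => ζ * K θ ζ) ∈ PR s := by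
  induction hK using Submodule.span_induction with
  | mem K hK =>
    obtain ⟨k, m, μ, A, hk, hμ, rfl⟩ := hK
    have e : (fun θ ζ => ζ * bp k m μ A θ ζ) = bp k (m + 1) μ A := by
      funext θ ζ
      unfold bp
      rw [← Complex.re_ofReal_mul]
      congr 1
      rw [pow_succ]
      ring
    rw [e]
    exact bp_mem _ hk hμ
  | zero =>
    have e : (fun θ ζ => ζ * (0 : ℝ → ℝ → ℝ) θ ζ) = 0 := by
      funext θ ζ
      simp
    rw [e]
    exact (PR s).zero_mem
  | add K K' _ _ h1 h2 =>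
    have e : (fun θ ζ => ζ * (K + K') θ ζ) = fun θ ζ => ζ * K θ ζ + ζ * K' θ ζ := by
      funext θ ζ
      simp [mul_add]
    rw [e]
    exact PR.add h1 h2
  | smul c K _ h1 =>
    have e : (fun θ ζ => ζ * (c • K) θ ζ) = fun θ ζ => c * (ζ * K θ ζ) := by
      funext θ ζ
      simp only [Pi.smul_apply, smul_eq_mul]
      ring
    rw [e]
    exact PR.smul c h1

end Pool.Agent.Lib.MP_79abb3_an.W
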