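import Pool.Agent.Lib.MP_79abb3_an.W.DA1b
import Pool.Agent.Lib.MP_79abb3_an.W.DH0
import Pool.Agent.Lib.MP_79abb3_an.W.HF1

/-!
Theorem W, block D, part C1: the collar. `n = gd z`. Use `gd_eq_gradient` and the results of `HF1.lean`.
-/

set_option autoImplicit false
set_option linter.unusedSectionVars false

open MeasureTheory Set Filter Topology Function
open scoped ENNReal RealInnerProductSpace

namespace Pool.Agent.Lib.MP_79abb3_an.W

variable {d : ℕ} {D B : Set (Ed d)} {z : Ed d → ℝ} {δ δ' : ℝ} {G : Type} [NormedAddCommGroup G] [NormedSpace ℝ G]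

private theorem dc1_e (z : Ed d → ℝ) : gd z = gradient z := funext (gd_eq_gradient z)

theorem Dom.shrink (h : Dom D z δ) (h0 : 0 < δ') (h1 : δ' ≤ δ) : Dom D z δ' where
  smo := h.smo
  pos := h.pos
  bdd := h.bdd
  conn := h.conn
  δ0 := h0
  unit x hx := h.unit x (by linarith)

theorem Dom.zpos (h : Dom D z δ) {x : Ed d} (hx : x ∈ D) : 0 < z x := (h.pos x).1 hx

theorem Dom.gd_norm (h : Dom D z δ) {x : Ed d} (hx : |z x| < 4 * δ) : ‖gd z x‖ = 1 := by
  rw [dc1_e]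
  exact h.unit x hx

theorem Dom.gd_smo (h : Dom D z δ) : Smo (gd z) := Smo.gd h.smo

theorem Dom.gd_symm (h : Dom D z δ) (x v w : Ed d) : ⟪fderiv ℝ (gd z) x v, w⟫ = ⟪fderiv ℝ (gd z) x w, v⟫ := by
  rw [dc1_e]
  exact hess_symm h.smo x v w

theorem Dom.gd_inner (h : Dom D z δ) {x : Ed d} (hx : |z x| < 4 * δ) (v : Ed d) :
    ⟪gd z x, fderiv ℝ (gd z) x v⟫ = 0 := by
  rw [dc1_e, real_inner_comm]
  exact h.hess_normal hx v

theorem Dom.gd_gd (h : Dom D z δ) {x : Ed d} (hx : |z x| < 4 * δ) : fderiv ℝ (gd z) x (gd z x) = 0 := by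
  rw [dc1_e]
  exact h.hess_normal' hx

theorem Dom.dv_gd (h : Dom D z δ) (x : Ed d) : dv (gd z) x = lap z x := W.dv_gd h.smo x

/-- Moving along the normal. -/
theorem Dom.push (h : Dom D z δ) {x : Ed d} (hx : |z x| < 4 * δ) {r : ℝ} (hr : |z x + r| < 4 * δ) :
    z (x + r • gd z x) = z x + r ∧ gd z (x + r • gd z x) = gd z x := by
  rw [dc1_e]
  exact h.normal hx hr

theorem Dom.bd_z (h : Dom D z δ) : BD D z := BD.of_smo h.bdd h.smo

theorem Dom.bd_n (h : Dom D z δ) : BD D (gd z) := BD.of_smo h.bdd h.gd_smo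

theorem Dom.bd_comp (h : Dom D z δ) {F : ℝ → ℝ} (hF : ContDiff ℝ ((⊤ : ℕ∞) : WithTop ℕ∞) F) :
    BD D fun x => F (z x) := BD.of_smo h.bdd (smo_comp hF h.smo)

end Pool.Agent.Lib.MP_79abb3_an.W
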