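import Pool.Agent.Lib.MP_79abb3_an.W.DC1

/-!
Theorem W, block D, part C1b: O(z).
-/

set_option autoImplicit false
set_option linter.unusedSectionVars false

open MeasureTheory Set Filter Topology Function
open scoped ENNReal RealInnerProductSpace

namespace Pool.Agent.Lib.MP_79abb3_an.W

variable {d : ℕ} {D B : Set (Ed d)} {z : Ed d → ℝ} {δ δ' : ℝ} {G : Type} [NormedAddCommGroup G] [NormedSpace ℝ G]

/-! ### `O(z)` -/

theorem Oz.add {f g : Ed d → G} (hf : Oz D z f) (hg : Oz D z g) : Oz D z fun x => f x + g x := by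
  obtain ⟨C, hC⟩ := hf
  obtain ⟨C', hC'⟩ := hg
  refine ⟨C + C', fun x hx => (norm_add_le _ _).trans ?_⟩
  rw [add_mul]
  exact add_le_add (hC x hx) (hC' x hx)

theorem Oz.sub {f g : Ed d → G} (hf : Oz D z f) (hg : Oz D z g) : Oz D z fun x => f x - g x := by
  obtain ⟨C, hC⟩ := hf
  obtain ⟨C', hC'⟩ := hg
  refine ⟨C + C', fun x hx => (norm_sub_le _ _).trans ?_⟩
  rw [add_mul]
  exact add_le_add (hC x hx) (hC' x hx)

theorem Oz.neg {f : Ed d → G} (hf : Oz D z f) : Oz D z fun x => -f x := by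
  obtain ⟨C, hC⟩ := hf
  exact ⟨C, fun x hx => by rw [norm_neg]; exact hC x hx⟩

theorem Oz.const_smul (c : ℝ) {f : Ed d → G} (hf : Oz D z f) : Oz D z fun x => c • f x := by
  obtain ⟨C, hC⟩ := hf
  refine ⟨|c| * C, fun x hx => ?_⟩
  rw [norm_smul, Real.norm_eq_abs, mul_assoc]
  exact mul_le_mul_of_nonneg_left (hC x hx) (abs_nonneg c)

theorem Oz.sum {ι : Type} (s : Finset ι) {f : ι → Ed d → G} (hf : ∀ i ∈ s, Oz D z (f i)) :
    Oz D z fun x => ∑ i ∈ s, f i x := by
  classical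
  induction s using Finset.induction_on with
  | empty => exact ⟨0, fun x _ => by simp⟩
  | insert a s ha ih =>
    simp only [Finset.sum_insert ha]
    exact (hf a (Finset.mem_insert_self a s)).add (ih fun i hi => hf i (Finset.mem_insert_of_mem hi))

theorem Oz.congr {f g : Ed d → G} (hf : Oz D z f) (h : ∀ x ∈ D, g x = f x) : Oz D z g := by
  obtain ⟨C, hC⟩ := hf
  exact ⟨C, fun x hx => by rw [h x hx]; exact hC x hx⟩

/-- A bounded function times `O(z)`. -/
theorem Oz.smul {a : Ed d → ℝ} {f : Ed d → G} {C : ℝ} (ha : ∀ x ∈ D, |a x| ≤ C) (hf : Oz D z f) :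
    Oz D z fun x => a x • f x := by
  obtain ⟨C', hC'⟩ := hf
  refine ⟨C * C', fun x hx => ?_⟩
  rw [norm_smul, Real.norm_eq_abs, mul_assoc]
  exact mul_le_mul (ha x hx) (hC' x hx) (norm_nonneg _) ((abs_nonneg _).trans (ha x hx))

theorem Oz.smul' {a : Ed d → ℝ} {f : Ed d → G} {C : ℝ} (hf : ∀ x ∈ D, ‖f x‖ ≤ C) (ha : Oz D z a) :
    Oz D z fun x => a x • f x := by
  obtain ⟨C', hC'⟩ := ha
  refine ⟨C' * C, fun x hx => ?_⟩
  rw [norm_smul]
  have h1 := mul_le_mul (hC' x hx) (hf x hx) (norm_nonneg _) ((norm_nonneg _).trans (hC' x hx))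
  calc ‖a x‖ * ‖f x‖ ≤ C' * z x * C := h1
    _ = C' * C * z x := by ring

/-- Bounded functions which are `O(z)` in `{z < δ}`. -/
theorem Oz.of_near (h : Dom D z δ) {f : Ed d → G} {C C' : ℝ} (hf : ∀ x ∈ D, ‖f x‖ ≤ C)
    (hn : ∀ x ∈ D, z x < δ → ‖f x‖ ≤ C' * z x) : Oz D z f := by
  refine ⟨|C| / δ + |C'|, fun x hx => ?_⟩
  have hz := h.zpos hx
  have hδ := h.δ0
  have h1 : 0 ≤ |C| / δ := by positivity
  rcases lt_or_ge (z x) δ with h2 | h2
  · refine (hn x hx h2).trans ?_
    refine mul_le_mul_of_nonneg_right ?_ hz.le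
    linarith [le_abs_self C']
  · refine (hf x hx).trans ?_
    have h3 : |C| ≤ |C| / δ * z x := by
      rw [div_mul_eq_mul_div, le_div_iff₀ hδ]
      exact mul_le_mul_of_nonneg_left h2 (abs_nonneg C)
    have h4 : 0 ≤ |C'| * z x := by positivity
    rw [add_mul]
    linarith [le_abs_self C]

/-- A function which is `O(z)` and whose normal derivative is `O(z)` is `O(z²)`: on the segment `y_s = x - (z x - s) n`,
`0 < s ≤ z x < δ`, `|d/ds f(y_s)| ≤ C s`, `|f(y_s)| ≤ C s → 0`. For `z x ≥ δ` use that `f` is bounded. -/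
theorem Dom.sq_of_normal (h : Dom D z δ) {f : Ed d → G} (hf : BD D f) (h0 : Oz D z f)
    (h1 : Oz D z fun x => fderiv ℝ f x (gd z x)) : ∃ C, ∀ x ∈ D, ‖f x‖ ≤ C * z x ^ 2 := by
  obtain ⟨C₀, hC₀⟩ := h0
  obtain ⟨C₁, hC₁⟩ := h1
  obtain ⟨M, hM0, hM⟩ := hf.bound
  have hδ := h.δ0
  refine ⟨M / δ ^ 2 + |C₁|, fun x hx => ?_⟩
  have hz := h.zpos hx
  have hq : 0 ≤ M / δ ^ 2 := by positivity
  rcases lt_or_ge (z x) δ with h2 | h2
  · have h3 : ‖f x‖ ≤ |C₁| * z x ^ 2 := by
      refine le_of_forall_pos_le_add fun ε hε => ?_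
      obtain ⟨s, hs0, hs1, hs2⟩ : ∃ s, 0 < s ∧ s ≤ z x ∧ |C₀| * s ≤ ε := by
        refine ⟨min (z x) (ε / (|C₀| + 1)), lt_min hz (by positivity), min_le_left _ _, ?_⟩
        have h4 : min (z x) (ε / (|C₀| + 1)) ≤ ε / (|C₀| + 1) := min_le_right _ _
        calc |C₀| * min (z x) (ε / (|C₀| + 1)) ≤ (|C₀| + 1) * (ε / (|C₀| + 1)) := by
              refine mul_le_mul (by linarith) h4 (le_min hz.le (by positivity)) (by positivity)
          _ = ε := by field_simp
      set γ : ℝ → Ed d := fun t => x + (t - z x) • gd z x with hγ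
      have hxδ : |z x| < 4 * δ := by
        rw [abs_of_pos hz]
        linarith
      have hpush : ∀ t ∈ Icc s (z x), z (γ t) = t ∧ gd z (γ t) = gd z x := by
        intro t ht
        have ht0 : 0 < t := hs0.trans_le ht.1
        have h5 : |z x + (t - z x)| < 4 * δ := by
          rw [add_sub_cancel, abs_of_pos ht0]
          linarith [ht.2]
        have h6 := h.push hxδ h5
        rw [add_sub_cancel] at h6
        exact h6
      have hmem : ∀ t ∈ Icc s (z x), γ t ∈ D := by
        intro t ht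
        rw [h.pos, (hpush t ht).1]
        exact hs0.trans_le ht.1
      have hγd : ∀ t, HasDerivAt γ (gd z x) t := by
        intro t
        have h7 : HasDerivAt (fun t : ℝ => x + (t - z x) • gd z x) ((1 : ℝ) • gd z x) t :=
          (((hasDerivAt_id t).sub_const (z x)).smul_const (gd z x)).const_add x
        rwa [one_smul] at h7
      have hder : ∀ t ∈ Icc s (z x), HasDerivWithinAt (fun t => f (γ t)) (fderiv ℝ f (γ t) (gd z (γ t)))
          (Icc s (z x)) t := by
        intro t ht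
        have h8 : HasFDerivAt f (fderiv ℝ f (γ t)) (γ t) := (hf.diff h.isOpen (hmem t ht)).hasFDerivAt
        have h9 := h8.comp_hasDerivAt t (hγd t)
        rw [(hpush t ht).2]
        exact h9.hasDerivWithinAt
      have h10 := norm_image_sub_le_of_norm_deriv_le_segment' (f := fun t => f (γ t)) (C := |C₁| * z x) hder
        (fun t ht => by
          have h11 := hC₁ (γ t) (hmem t ⟨ht.1, ht.2.le⟩)
          rw [(hpush t ⟨ht.1, ht.2.le⟩).1] at h11
          refine h11.trans ?_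
          exact mul_le_mul (le_abs_self _) ht.2.le (hs0.le.trans ht.1) (abs_nonneg _)) (z x) ⟨hs1, le_rfl⟩
      have h12 : γ (z x) = x := by
        rw [hγ]
        simp
      have h13 : ‖f (γ s)‖ ≤ |C₀| * s := by
        have h14 := hC₀ (γ s) (hmem s ⟨le_rfl, hs1⟩)
        rw [(hpush s ⟨le_rfl, hs1⟩).1] at h14
        exact h14.trans (mul_le_mul_of_nonneg_right (le_abs_self _) hs0.le)
      simp only [h12] at h10
      have h15 : ‖f x‖ ≤ ‖f x - f (γ s)‖ + ‖f (γ s)‖ := by
        have h16 := norm_add_le (f x - f (γ s)) (f (γ s))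
        rwa [sub_add_cancel] at h16
      have h17 : |C₁| * z x * (z x - s) ≤ |C₁| * z x ^ 2 := by
        rw [pow_two, ← mul_assoc]
        exact mul_le_mul_of_nonneg_left (by linarith) (by positivity)
      linarith
    refine h3.trans (mul_le_mul_of_nonneg_right ?_ (by positivity))
    linarith
  · refine (hM x hx).trans ?_
    have h3 : M ≤ M / δ ^ 2 * z x ^ 2 := by
      rw [div_mul_eq_mul_div, le_div_iff₀ (by positivity)]
      exact mul_le_mul_of_nonneg_left (pow_le_pow_left₀ hδ.le h2 2) hM0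
    have h4 : 0 ≤ |C₁| * z x ^ 2 := by positivity
    rw [add_mul]
    linarith

end Pool.Agent.Lib.MP_79abb3_an.W
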