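import Pool.Agent.Lib.MP_79abb3_an.W.DA3
import Pool.Agent.Lib.MP_79abb3_an.W.DC1
import Pool.Agent.Lib.MP_79abb3_an.W.DDef
import Pool.Agent.Lib.MP_79abb3_an.W.DC1b

section

/-!
Theorem W, block D, part C2: the operator `ℓ`, tangential fields in the collar.

In `{z < 3δ}` one has `|n| = 1`; in the open set `{z > 2δ}` a collar field vanishes.
-/

set_option autoImplicit false
set_option linter.unusedSectionVars false

open MeasureTheory Set Filter Topology Function
open scoped ENNReal RealInnerProductSpace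

namespace Pool.Agent.Lib.MP_79abb3_an.W

variable {d : ℕ} {D B : Set (Ed d)} {z : Ed d → ℝ} {δ δ' : ℝ} {G : Type} [NormedAddCommGroup G] [NormedSpace ℝ G]

private theorem dc2_pd_apply {f : Ed d → Ed d} {x : Ed d} (hf : DifferentiableAt ℝ f x) (i k : Fin d) :
    pd i (fun y => f y k) x = pd i f x k := by
  unfold pd
  have h1 : HasFDerivAt (fun y => f y k) ((EuclideanSpace.proj k : Ed d →L[ℝ] ℝ).comp (fderiv ℝ f x)) x :=
    (EuclideanSpace.proj k : Ed d →L[ℝ] ℝ).hasFDerivAt.comp x hf.hasFDerivAt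
  rw [h1.fderiv]
  rfl

private theorem dc2_pd_smul {a : Ed d → ℝ} {f : Ed d → Ed d} {x : Ed d} (ha : DifferentiableAt ℝ a x)
    (hf : DifferentiableAt ℝ f x) (i : Fin d) :
    pd i (fun y => a y • f y) x = a x • pd i f x + pd i a x • f x := by
  unfold pd
  rw [fderiv_fun_smul ha hf]
  simp

private theorem dc2_coord {f : Ed d → Ed d} {x : Ed d} (hf : DifferentiableAt ℝ f x) (k : Fin d) :
    DifferentiableAt ℝ (fun y => f y k) x :=
  (EuclideanSpace.proj k : Ed d →L[ℝ] ℝ).differentiableAt.comp x hf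

/-- `ℓ(σ) = (Δz) σ + (n·∇)σ - (div σ) n - (σ·∇)n` -/
theorem ell_eq (h : Dom D z δ) {σ : Ed d → Ed d} (hσ : BD D σ) {x : Ed d} (hx : x ∈ D) :
    ell z σ x = lap z x • σ x + fderiv ℝ σ x (gd z x) - dv σ x • gd z x - fderiv ℝ (gd z) x (σ x) := by
  have hn : DifferentiableAt ℝ (gd z) x := (h.bd_n).diff h.isOpen hx
  have hs : DifferentiableAt ℝ σ x := hσ.diff h.isOpen hx
  have h1 : ∀ j : Fin d, pd j (fun y => gd z y j • σ y - σ y j • gd z y) x =
      (gd z x j • pd j σ x + pd j (gd z) x j • σ x) - (σ x j • pd j (gd z) x + pd j σ x j • gd z x) := by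
    intro j
    have h2 : pd j (fun y => gd z y j • σ y - σ y j • gd z y) x =
        pd j (fun y => gd z y j • σ y) x - pd j (fun y => σ y j • gd z y) x := by
      unfold pd
      rw [fderiv_fun_sub ((dc2_coord hn j).fun_smul hs) ((dc2_coord hs j).fun_smul hn)]
      rfl
    rw [h2, dc2_pd_smul (dc2_coord hn j) hs, dc2_pd_smul (dc2_coord hs j) hn, dc2_pd_apply hn, dc2_pd_apply hs]
  unfold ell
  rw [Finset.sum_congr rfl fun j _ => h1 j, Finset.sum_sub_distrib, Finset.sum_add_distrib, Finset.sum_add_distrib,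
    ← Finset.sum_smul, ← Finset.sum_smul, ← fderiv_eq_sum, ← fderiv_eq_sum]
  have h3 : ∑ i, pd i (gd z) x i = lap z x := h.dv_gd x
  have h4 : ∑ i, pd i σ x i = dv σ x := rfl
  rw [h3, h4]
  abel

/-- `n · ℓ(σ) = - div σ` (`n · (n·∇)σ = n·∇(n·σ) - σ · (n·∇)n = 0`). -/
theorem ell_nor (h : Dom D z δ) {σ : Ed d → Ed d} (hσ : CF D z δ σ) {x : Ed d} (hx : x ∈ D) :
    ⟪gd z x, ell z σ x⟫ = -dv σ x := by
  have hO := h.isOpen
  rw [ell_eq h hσ.bd hx, inner_sub_right, inner_sub_right, inner_add_right, inner_smul_right, inner_smul_right,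
    hσ.tan x hx]
  have hsd : DifferentiableAt ℝ σ x := hσ.bd.diff hO hx
  have hnd : DifferentiableAt ℝ (gd z) x := (h.bd_n).diff hO hx
  -- the derivative of `n·σ = 0`
  have h1 : ⟪gd z x, fderiv ℝ σ x (gd z x)⟫ + ⟪fderiv ℝ (gd z) x (gd z x), σ x⟫ = 0 := by
    have h2 : HasFDerivAt (fun y => ⟪gd z y, σ y⟫) (0 : Ed d →L[ℝ] ℝ) x := by
      refine (hasFDerivAt_const (0 : ℝ) x).congr_of_eventuallyEq ?_
      filter_upwards [hO.mem_nhds hx] with y hy
      exact hσ.tan y hy
    have h3 := hnd.hasFDerivAt.inner ℝ hsd.hasFDerivAt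
    have h4 := h3.unique h2
    have h5 := congrArg (fun L : Ed d →L[ℝ] ℝ => L (gd z x)) h4
    simpa [fderivInnerCLM_apply] using h5
  rcases le_or_gt (z x) (2 * δ) with h2 | h2
  · have hδ := h.δ0
    have hz := h.zpos hx
    have hx4 : |z x| < 4 * δ := by
      rw [abs_of_pos hz]
      linarith
    have h6 := h.gd_gd hx4
    rw [h6, inner_zero_left, add_zero] at h1
    rw [h1, real_inner_self_eq_norm_sq, h.gd_norm hx4, h.gd_inner hx4]
    ring
  · have h7 : fderiv ℝ σ x = 0 := by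
      have h8 : HasFDerivAt σ (0 : Ed d →L[ℝ] Ed d) x := by
        refine (hasFDerivAt_const (0 : Ed d) x).congr_of_eventuallyEq ?_
        have h9 : {y | 2 * δ < z y} ∈ 𝓝 x := (isOpen_lt continuous_const h.smo.continuous).mem_nhds h2
        filter_upwards [hO.mem_nhds hx, h9] with y hy hy2
        exact hσ.supp y hy hy2
      exact h8.fderiv
    have h10 : σ x = 0 := hσ.supp x hx h2
    have h11 : dv σ x = 0 := by
      unfold dv pd
      rw [h7]
      simp
    rw [h7, h10, h11]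
    simp

theorem ell_div (h : Dom D z δ) {σ : Ed d → Ed d} (hσ : BD D σ) {x : Ed d} (hx : x ∈ D) :
    dv (ell z σ) x = 0 := by
  have hO := h.isOpen
  exact dv_anti hO (h.bd_n).1 hσ.1 hx

theorem CV.fderiv_zero (h : Dom D z δ) {v : Ed d → G} (hv : CV D z δ v) {x : Ed d} (hx : x ∈ D) (h2 : 2 * δ < z x) :
    fderiv ℝ v x = 0 := by
  have h8 : HasFDerivAt v (0 : Ed d →L[ℝ] G) x := by
    refine (hasFDerivAt_const (0 : G) x).congr_of_eventuallyEq ?_
    have h9 : {y | 2 * δ < z y} ∈ 𝓝 x := (isOpen_lt continuous_const h.smo.continuous).mem_nhds h2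
    filter_upwards [h.isOpen.mem_nhds hx, h9] with y hy hy2
    exact hv.supp y hy hy2
  exact h8.fderiv

theorem CV.add (h : Dom D z δ) {v w : Ed d → G} (hv : CV D z δ v) (hw : CV D z δ w) :
    CV D z δ fun x => v x + w x := by
  exact ⟨hv.bd.add h.isOpen hw.bd, fun x hx h2 => by rw [hv.supp x hx h2, hw.supp x hx h2, add_zero]⟩

theorem CV.const_smul (h : Dom D z δ) (c : ℝ) {v : Ed d → G} (hv : CV D z δ v) : CV D z δ fun x => c • v x := by
  exact ⟨hv.bd.const_smul h.isOpen c, fun x hx h2 => by rw [hv.supp x hx h2, smul_zero]⟩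

theorem CV.smul (h : Dom D z δ) {a : Ed d → ℝ} (ha : BD D a) {v : Ed d → G} (hv : CV D z δ v) :
    CV D z δ fun x => a x • v x := by
  exact ⟨ha.smul h.isOpen hv.bd, fun x hx h2 => by rw [hv.supp x hx h2, smul_zero]⟩

theorem CV.smul' (h : Dom D z δ) {a : Ed d → ℝ} (ha : CV D z δ a) {v : Ed d → G} (hv : BD D v) :
    CV D z δ fun x => a x • v x := by
  exact ⟨ha.bd.smul h.isOpen hv, fun x hx h2 => by rw [ha.supp x hx h2, zero_smul]⟩

/-- `(v·∇)w`, `v` in the collar. -/
theorem CV.trn (h : Dom D z δ) {v : Ed d → Ed d} {w : Ed d → G} (hv : CV D z δ v) (hw : BD D w) :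
    CV D z δ fun x => fderiv ℝ w x (v x) := by
  exact ⟨hw.fderiv_apply h.isOpen hv.bd, fun x hx h2 => by rw [hv.supp x hx h2, map_zero]⟩

/-- `(v·∇)w`, `w` in the collar. -/
theorem CV.trn' (h : Dom D z δ) {v : Ed d → Ed d} {w : Ed d → G} (hv : BD D v) (hw : CV D z δ w) :
    CV D z δ fun x => fderiv ℝ w x (v x) := by
  exact ⟨hw.bd.fderiv_apply h.isOpen hv, fun x hx h2 => by rw [hw.fderiv_zero h hx h2]; rfl⟩

private theorem dc2_pd (h : Dom D z δ) {v : Ed d → Ed d} (hv : CV D z δ v) (i : Fin d) : CV D z δ (pd i v) := by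
  refine ⟨hv.bd.pd h.isOpen i, fun x hx h2 => ?_⟩
  unfold W.pd
  rw [hv.fderiv_zero h hx h2]
  rfl

theorem CV.dv (h : Dom D z δ) {v : Ed d → Ed d} (hv : CV D z δ v) : CV D z δ (dv v) := by
  refine ⟨hv.bd.dv h.isOpen, fun x hx h2 => ?_⟩
  have h1 := hv.fderiv_zero h hx h2
  unfold W.dv W.pd
  rw [h1]
  simp

theorem CV.lap (h : Dom D z δ) {v : Ed d → Ed d} (hv : CV D z δ v) : CV D z δ (lap v) := by
  refine ⟨hv.bd.lap h.isOpen, fun x hx h2 => ?_⟩
  unfold W.lap
  refine Finset.sum_eq_zero fun i _ => ?_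
  have h3 := (dc2_pd h hv i).fderiv_zero h hx h2
  unfold W.pd at h3 ⊢
  rw [h3]
  rfl

theorem CV.ell (h : Dom D z δ) {v : Ed d → Ed d} (hv : CV D z δ v) : CV D z δ (ell z v) := by
  have hO := h.isOpen
  refine ⟨?_, fun x hx h2 => ?_⟩
  · refine BD.sum hO Finset.univ fun j _ => BD.pd hO ?_ j
    exact ((h.bd_n.coord hO j).smul hO hv.bd).sub hO ((hv.bd.coord hO j).smul hO h.bd_n)
  · rw [ell_eq h hv.bd hx, hv.supp x hx h2, hv.fderiv_zero h hx h2, (hv.dv h).supp x hx h2]
    simp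

end Pool.Agent.Lib.MP_79abb3_an.W
end

section

/-!
Theorem W, block D, part C2b: tangential collar fields.
-/

set_option autoImplicit false
set_option linter.unusedSectionVars false

open MeasureTheory Set Filter Topology Function
open scoped ENNReal RealInnerProductSpace

namespace Pool.Agent.Lib.MP_79abb3_an.W

variable {d : ℕ} {D B : Set (Ed d)} {z : Ed d → ℝ} {δ δ' : ℝ} {G : Type} [NormedAddCommGroup G] [NormedSpace ℝ G]

private theorem dc2b_cs (h : Dom D z δ) (c : ℝ) {σ : Ed d → Ed d} (hσ : CF D z δ σ) :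
    CF D z δ fun x => c • σ x where
  toCV := CV.const_smul h c hσ.toCV
  tan x hx := by rw [inner_smul_right, hσ.tan x hx, mul_zero]

theorem CF.neg (h : Dom D z δ) {σ : Ed d → Ed d} (hσ : CF D z δ σ) : CF D z δ fun x => -σ x := by
  have h1 := dc2b_cs h (-1) hσ
  simpa only [neg_one_smul] using h1

theorem CF.add (h : Dom D z δ) {σ τ : Ed d → Ed d} (hσ : CF D z δ σ) (hτ : CF D z δ τ) :
    CF D z δ fun x => σ x + τ x where
  toCV := CV.add h hσ.toCV hτ.toCV
  tan x hx := by rw [inner_add_right, hσ.tan x hx, hτ.tan x hx, add_zero]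

theorem CF.const_smul (h : Dom D z δ) (c : ℝ) {σ : Ed d → Ed d} (hσ : CF D z δ σ) : CF D z δ fun x => c • σ x :=
  dc2b_cs h c hσ

theorem CF.sum (h : Dom D z δ) {ι : Type} (s : Finset ι) {σ : ι → Ed d → Ed d} (hσ : ∀ i ∈ s, CF D z δ (σ i)) :
    CF D z δ fun x => ∑ i ∈ s, σ i x := by
  classical
  induction s using Finset.induction_on with
  | empty =>
    refine ⟨⟨?_, fun x _ _ => rfl⟩, fun x _ => ?_⟩
    · exact BD.const h.isOpen 0
    · rw [Finset.sum_empty, inner_zero_right]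
  | insert a s ha ih =>
    have h1 := CF.add h (hσ a (Finset.mem_insert_self a s))
      (ih fun i hi => hσ i (Finset.mem_insert_of_mem hi))
    have e : (fun x => ∑ i ∈ insert a s, σ i x) = fun x => σ a x + ∑ i ∈ s, σ i x := by
      funext x
      rw [Finset.sum_insert ha]
    rw [e]
    exact h1

/-- The cut off tangential part is a tangential collar field. -/
theorem ct_cf (h : Dom D z δ) {v : Ed d → Ed d} (hv : BD D v) : CF D z δ (ct z δ v) := by
  have hD : IsOpen D := h.col.isOpen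
  refine ⟨⟨?_, fun x _ h2 => ?_⟩, fun x hx => ?_⟩
  · exact BD.smul hD (h.bd_comp (kap_smooth δ))
      (BD.sub hD hv (BD.smul hD (BD.inner hD h.bd_n hv) h.bd_n))
  · show kap δ (z x) • (v x - ⟪gd z x, v x⟫ • gd z x) = 0
    rw [kap_zero h.col.δ0 h2.le, zero_smul]
  · show ⟪gd z x, kap δ (z x) • (v x - ⟪gd z x, v x⟫ • gd z x)⟫ = 0
    have hz := h.zpos hx
    have hδ := h.col.δ0
    by_cases h4 : z x < 4 * δ
    · have h5 : ‖gd z x‖ = 1 := h.gd_norm (by rwa [abs_of_pos hz])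
      rw [inner_smul_right, inner_sub_right, inner_smul_right, real_inner_self_eq_norm_sq, h5]
      ring
    · rw [kap_zero hδ (by linarith), zero_smul, inner_zero_right]

/-- It differs from the tangential part by `O(z)`. -/
theorem ct_sub (h : Dom D z δ) {v : Ed d → Ed d} (hv : BD D v) :
    Oz D z fun x => v x - ⟪gd z x, v x⟫ • gd z x - ct z δ v x := by
  have hD : IsOpen D := h.col.isOpen
  have h1 : BD D fun x => v x - ⟪gd z x, v x⟫ • gd z x - ct z δ v x :=
    BD.sub hD (BD.sub hD hv (BD.smul hD (BD.inner hD h.bd_n hv) h.bd_n)) (ct_cf h hv).bd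
  obtain ⟨C, -, hC⟩ := h1.bound
  refine Oz.of_near h (C := C) (C' := 0) hC fun x _ hx => ?_
  rw [ct, kap_one h.col.δ0 hx.le, one_smul, sub_self, norm_zero, zero_mul]

/-- Fields `F'(z) σ + F(z) ℓ(σ)` are divergence free. -/
theorem strm_div (h : Dom D z δ) {F : ℝ → ℝ} (hF : ContDiff ℝ ((⊤ : ℕ∞) : WithTop ℕ∞) F) {σ : Ed d → Ed d}
    (hσ : CF D z δ σ) {x : Ed d} (hx : x ∈ D) :
    dv (fun y => deriv F (z y) • σ y + F (z y) • ell z σ y) x = 0 := by
  have hD : IsOpen D := h.col.isOpen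
  have hF' : ContDiff ℝ ((⊤ : ℕ∞) : WithTop ℕ∞) (deriv F) :=
    (contDiff_infty_iff_deriv.1 hF).2
  have hFd : Differentiable ℝ F := hF.differentiable (by norm_num)
  have hFd' : Differentiable ℝ (deriv F) := hF'.differentiable (by norm_num)
  have d1 : DifferentiableAt ℝ (fun y => F (z y)) x := (h.bd_comp hF).diff hD hx
  have d2 : DifferentiableAt ℝ (fun y => deriv F (z y)) x := (h.bd_comp hF').diff hD hx
  have d3 : DifferentiableAt ℝ σ x := hσ.bd.diff hD hx
  have d4 : DifferentiableAt ℝ (ell z σ) x := (CV.ell h hσ.toCV).bd.diff hD hx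
  have d5 : DifferentiableAt ℝ (fun y => deriv F (z y) • σ y) x := d2.smul d3
  have d6 : DifferentiableAt ℝ (fun y => F (z y) • ell z σ y) x := d1.smul d4
  rw [dv_add_at d5 d6, dv_smul_at d2 d3, dv_smul_at d1 d4,
    gd_comp_at hFd' h.col.smo x, gd_comp_at hFd h.col.smo x, real_inner_smul_left,
    real_inner_smul_left, hσ.tan x hx, ell_nor h hσ hx, ell_div h hσ.bd hx]
  ring

/-- The linearity of `ℓ`. -/
theorem ell_add (h : Dom D z δ) {σ τ : Ed d → Ed d} (hσ : BD D σ) (hτ : BD D τ) {x : Ed d} (hx : x ∈ D) :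
    ell z (fun y => σ y + τ y) x = ell z σ x + ell z τ x := by
  have hD : IsOpen D := h.col.isOpen
  have d1 := hσ.diff hD hx
  have d2 := hτ.diff hD hx
  rw [ell_eq h (BD.add hD hσ hτ) hx, ell_eq h hσ hx, ell_eq h hτ hx, dv_add_at d1 d2,
    fderiv_fun_add d1 d2, ContinuousLinearMap.add_apply, map_add, smul_add, add_smul]
  abel

theorem ell_const_smul (h : Dom D z δ) (c : ℝ) {σ : Ed d → Ed d} (hσ : BD D σ) {x : Ed d} (hx : x ∈ D) :
    ell z (fun y => c • σ y) x = c • ell z σ x := by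
  have hD : IsOpen D := h.col.isOpen
  have d1 := hσ.diff hD hx
  rw [ell_eq h (BD.const_smul hD c hσ) hx, ell_eq h hσ hx, dv_const_smul_at c d1,
    fderiv_fun_const_smul d1, ContinuousLinearMap.smul_apply, map_smul, smul_sub, smul_sub, smul_add,
    smul_comm c (lap z x), mul_smul]

theorem ell_sum (h : Dom D z δ) {ι : Type} (s : Finset ι) {σ : ι → Ed d → Ed d} (hσ : ∀ i ∈ s, BD D (σ i))
    {x : Ed d} (hx : x ∈ D) : ell z (fun y => ∑ i ∈ s, σ i y) x = ∑ i ∈ s, ell z (σ i) x := by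
  have hD : IsOpen D := h.col.isOpen
  classical
  induction s using Finset.induction_on with
  | empty =>
    have h1 := ell_const_smul h 0 (BD.const hD (0 : Ed d)) hx
    simpa using h1
  | insert a s ha ih =>
    have e : (fun y => ∑ i ∈ insert a s, σ i y) = fun y => σ a y + ∑ i ∈ s, σ i y := by
      funext y
      rw [Finset.sum_insert ha]
    rw [e, ell_add h (hσ a (Finset.mem_insert_self a s))
      (BD.sum hD s fun i hi => hσ i (Finset.mem_insert_of_mem hi)) hx,
      ih fun i hi => hσ i (Finset.mem_insert_of_mem hi), Finset.sum_insert ha]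

end Pool.Agent.Lib.MP_79abb3_an.W
end
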