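import Pool.Agent.Lib.MP_79abb3_an.W.DC2b

/-!
Theorem W, block D, part C3: waves near the walls, potentials.
-/

set_option autoImplicit false
set_option linter.unusedSectionVars false

open MeasureTheory Set Filter Topology Function
open scoped ENNReal RealInnerProductSpace

namespace Pool.Agent.Lib.MP_79abb3_an.W

variable {d : ℕ} {D B : Set (Ed d)} {z : Ed d → ℝ} {δ δ' : ℝ} {V : Ed d → Ed d}

/-- The slip of a wave, with the opposite sign. -/
noncomputable def slip (z : Ed d → ℝ) (δ : ℝ) (V : Ed d → Ed d) (x : Ed d) : Ed d := -ct z δ V x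

theorem slip_cf (h : Dom D z δ) (hV : BD D V) : CF D z δ (slip z δ V) :=
  CF.neg h (ct_cf h hV)

private theorem dc3_nb (h : Dom D z δ) : ∃ C, 0 ≤ C ∧ ∀ x ∈ D, ‖gd z x‖ ≤ C := h.bd_n.bound

private theorem dc3_open (h : Dom D z δ) : IsOpen D := h.col.isOpen

/-- `V = - slip + O(z)` -/
theorem slip_sub (h : Dom D z δ) (hV : Wave D B z V) : Oz D z fun x => V x + slip z δ V x := by
  obtain ⟨C, -, hC⟩ := dc3_nb h
  have h1 := ct_sub h hV.bd
  have h2 : Oz D z fun x => ⟪gd z x, V x⟫ • gd z x := Oz.smul' hC hV.tan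
  refine (h1.add h2).congr fun x _ => ?_
  simp only [slip]
  abel

/-- near the walls -/
private theorem dc3_near (h : Dom D z δ) {x : Ed d} (hx : z x < δ) :
    (fun y => V y + slip z δ V y) =ᶠ[𝓝 x] fun y => ⟪gd z y, V y⟫ • gd z y := by
  have hc : Continuous z := h.smo.continuous
  have ho : ∀ᶠ y in 𝓝 x, z y < δ := (isOpen_lt hc continuous_const).mem_nhds hx
  filter_upwards [ho] with y hy
  simp only [slip, ct, kap_one h.δ0 hy.le, one_smul]
  abel

private theorem dc3_dinner {f : Ed d → ℝ} {x v : Ed d} : fderiv ℝ f x v = ⟪gd f x, v⟫ := by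
  rw [gd_eq_gradient]
  exact (InnerProductSpace.toDual_symm_apply).symm

private theorem dc3_dv_add {u w : Ed d → Ed d} {x : Ed d} (hu : DifferentiableAt ℝ u x)
    (hw : DifferentiableAt ℝ w x) : dv (fun y => u y + w y) x = dv u x + dv w x := by
  simp only [dv, pd]
  rw [← Finset.sum_add_distrib]
  refine Finset.sum_congr rfl fun i _ => ?_
  rw [fderiv_fun_add hu hw]
  simp

private theorem dc3_dv_smul {a : Ed d → ℝ} {w : Ed d → Ed d} {x : Ed d} (ha : DifferentiableAt ℝ a x)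
    (hw : DifferentiableAt ℝ w x) : dv (fun y => a y • w y) x = fderiv ℝ a x (w x) + a x * dv w x := by
  have e : w x = ∑ i, w x i • ei i := by
    ext j
    simp [ei, Pi.single_apply]
  have e2 : fderiv ℝ a x (w x) = ∑ i, w x i * fderiv ℝ a x (ei i) := by
    conv_lhs => rw [e, map_sum]
    simp
  rw [e2]
  simp only [dv, pd]
  rw [Finset.mul_sum, ← Finset.sum_add_distrib]
  refine Finset.sum_congr rfl fun i _ => ?_
  rw [fderiv_fun_smul ha hw]
  simp
  ring

private theorem dc3_dv_congr {u w : Ed d → Ed d} {x : Ed d} (he : u =ᶠ[𝓝 x] w) : dv u x = dv w x := by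
  simp only [dv, pd]
  rw [he.fderiv_eq]

/-- `n·V = z div (slip) + O(z²)`: for `z < δ`, `V = - σ + h n`, `0 = div V = - div σ + n·∇h + h Δz`; then
`Dom.sq_of_normal` for `h - z div σ`. -/
theorem slip_nor (h : Dom D z δ) (hV : Wave D B z V) :
    ∃ C, ∀ x ∈ D, |⟪gd z x, V x⟫ - z x * dv (slip z δ V) x| ≤ C * z x ^ 2 := by
  have hD := dc3_open h
  have hσ := slip_cf h hV.bd
  have hh : BD D fun x => ⟪gd z x, V x⟫ := BD.inner hD h.bd_n hV.bd
  have hdv : BD D (dv (slip z δ V)) := BD.dv hD hσ.bd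
  have hzd : BD D fun x => z x * dv (slip z δ V) x := BD.mul hD h.bd_z hdv
  have hf : BD D fun x => ⟪gd z x, V x⟫ - z x * dv (slip z δ V) x := BD.sub hD hh hzd
  obtain ⟨Cd, hCd0, hCd⟩ := hdv.bound
  have h0 : Oz D z fun x => ⟪gd z x, V x⟫ - z x * dv (slip z δ V) x := by
    refine hV.tan.sub ⟨Cd, fun x hx => ?_⟩
    have hz := h.zpos hx
    rw [Real.norm_eq_abs, abs_mul, abs_of_pos hz, mul_comm]
    exact mul_le_mul_of_nonneg_right (hCd x hx) hz.le
  have hb : BD D fun x => fderiv ℝ (fun y => ⟪gd z y, V y⟫ - z y * dv (slip z δ V) y) x (gd z x) :=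
    BD.fderiv_apply hD hf h.bd_n
  obtain ⟨Cb, -, hCb⟩ := hb.bound
  obtain ⟨Ch, hCh⟩ := hV.tan
  have hlz : BD D (lap z) := BD.lap hD h.bd_z
  obtain ⟨Cl, hCl0, hCl⟩ := hlz.bound
  have hnd : BD D fun x => fderiv ℝ (dv (slip z δ V)) x (gd z x) := BD.fderiv_apply hD hdv h.bd_n
  obtain ⟨Cn, hCn0, hCn⟩ := hnd.bound
  have h1 : Oz D z fun x => fderiv ℝ (fun y => ⟪gd z y, V y⟫ - z y * dv (slip z δ V) y) x (gd z x) := by
    refine Oz.of_near h hCb (C' := |Ch| * Cl + Cn) fun x hx hzx => ?_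
    have hz := h.zpos hx
    have hz4 : |z x| < 4 * δ := by rw [abs_of_pos hz]; linarith [h.δ0]
    have hzd' := h.bd_z.diff hD hx
    have hdvd := hdv.diff hD hx
    have hhd := hh.diff hD hx
    have hnn : fderiv ℝ z x (gd z x) = 1 := by
      rw [dc3_dinner, real_inner_self_eq_norm_sq, h.gd_norm hz4]; norm_num
    have e1 : fderiv ℝ (fun y => ⟪gd z y, V y⟫ - z y * dv (slip z δ V) y) x (gd z x) =
        fderiv ℝ (fun y => ⟪gd z y, V y⟫) x (gd z x) - (dv (slip z δ V) x +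
          z x * fderiv ℝ (dv (slip z δ V)) x (gd z x)) := by
      rw [fderiv_fun_sub hhd (hzd'.fun_mul hdvd), fderiv_fun_mul hzd' hdvd]
      simp only [sub_apply, add_apply, smul_apply,
        smul_eq_mul, hnn]
      ring
    have e2 : dv (fun y => V y + slip z δ V y) x = dv (slip z δ V) x := by
      rw [dc3_dv_add (hV.bd.diff hD hx) (hσ.bd.diff hD hx), hV.div x hx, zero_add]
    have e3 : dv (fun y => V y + slip z δ V y) x =
        fderiv ℝ (fun y => ⟪gd z y, V y⟫) x (gd z x) + ⟪gd z x, V x⟫ * lap z x := by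
      rw [dc3_dv_congr (dc3_near h hzx), dc3_dv_smul hhd (h.bd_n.diff hD hx), h.dv_gd]
    have e4 : fderiv ℝ (fun y => ⟪gd z y, V y⟫ - z y * dv (slip z δ V) y) x (gd z x) =
        -(⟪gd z x, V x⟫ * lap z x) - z x * fderiv ℝ (dv (slip z δ V)) x (gd z x) := by
      rw [e1]; linarith
    rw [e4]
    have hb1 : |⟪gd z x, V x⟫ * lap z x| ≤ |Ch| * Cl * z x := by
      rw [abs_mul]
      have a1 : |⟪gd z x, V x⟫| ≤ |Ch| * z x :=
        (hCh x hx).trans (mul_le_mul_of_nonneg_right (le_abs_self _) hz.le)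
      calc |⟪gd z x, V x⟫| * |lap z x| ≤ (|Ch| * z x) * Cl :=
            mul_le_mul a1 (hCl x hx) (abs_nonneg _) (by positivity)
        _ = |Ch| * Cl * z x := by ring
    have hb2 : |z x * fderiv ℝ (dv (slip z δ V)) x (gd z x)| ≤ Cn * z x := by
      rw [abs_mul, abs_of_pos hz, mul_comm]
      exact mul_le_mul_of_nonneg_right (hCn x hx) hz.le
    calc ‖-(⟪gd z x, V x⟫ * lap z x) - z x * fderiv ℝ (dv (slip z δ V)) x (gd z x)‖
        ≤ ‖-(⟪gd z x, V x⟫ * lap z x)‖ + ‖z x * fderiv ℝ (dv (slip z δ V)) x (gd z x)‖ := norm_sub_le _ _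
      _ = |⟪gd z x, V x⟫ * lap z x| + |z x * fderiv ℝ (dv (slip z δ V)) x (gd z x)| := by
          rw [norm_neg, Real.norm_eq_abs, Real.norm_eq_abs]
      _ ≤ |Ch| * Cl * z x + Cn * z x := add_le_add hb1 hb2
      _ = (|Ch| * Cl + Cn) * z x := by ring
  obtain ⟨C, hC⟩ := h.sq_of_normal hf h0 h1
  exact ⟨C, fun x hx => hC x hx⟩

/-- `(v·∇)V = - (v·∇)σ + O(z) + (multiple of n)` for collar fields `v`. -/
theorem slip_trn (h : Dom D z δ) (hV : Wave D B z V) {v : Ed d → Ed d} (hv : CF D z δ v) :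
    Oz D z (fun x => (fderiv ℝ V x (v x) + fderiv ℝ (slip z δ V) x (v x)) -
      ⟪gd z x, fderiv ℝ V x (v x) + fderiv ℝ (slip z δ V) x (v x)⟫ • gd z x) := by
  have hD := dc3_open h
  have hσ := slip_cf h hV.bd
  have hh : BD D fun x => ⟪gd z x, V x⟫ := BD.inner hD h.bd_n hV.bd
  have hw : BD D fun x => fderiv ℝ V x (v x) + fderiv ℝ (slip z δ V) x (v x) :=
    BD.add hD (BD.fderiv_apply hD hV.bd hv.bd) (BD.fderiv_apply hD hσ.bd hv.bd)
  have hb : BD D fun x => (fderiv ℝ V x (v x) + fderiv ℝ (slip z δ V) x (v x)) -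
      ⟪gd z x, fderiv ℝ V x (v x) + fderiv ℝ (slip z δ V) x (v x)⟫ • gd z x :=
    BD.sub hD hw (BD.smul hD (BD.inner hD h.bd_n hw) h.bd_n)
  obtain ⟨Cb, -, hCb⟩ := hb.bound
  obtain ⟨Ch, hCh⟩ := hV.tan
  have hdn : BD D fun x => fderiv ℝ (gd z) x (v x) := BD.fderiv_apply hD h.bd_n hv.bd
  obtain ⟨Cn, hCn0, hCn⟩ := hdn.bound
  refine Oz.of_near h hCb (C' := |Ch| * Cn) fun x hx hzx => ?_
  have hz := h.zpos hx
  have hz4 : |z x| < 4 * δ := by rw [abs_of_pos hz]; linarith [h.δ0]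
  have e1 : fderiv ℝ V x (v x) + fderiv ℝ (slip z δ V) x (v x) =
      fderiv ℝ (fun y => ⟪gd z y, V y⟫) x (v x) • gd z x + ⟪gd z x, V x⟫ • fderiv ℝ (gd z) x (v x) := by
    have a1 : fderiv ℝ (fun y => V y + slip z δ V y) x (v x) =
        fderiv ℝ V x (v x) + fderiv ℝ (slip z δ V) x (v x) := by
      rw [fderiv_fun_add (hV.bd.diff hD hx) (hσ.bd.diff hD hx)]; rfl
    rw [← a1, (dc3_near h hzx).fderiv_eq, fderiv_fun_smul (hh.diff hD hx) (h.bd_n.diff hD hx)]
    simp only [add_apply, smul_apply,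
      ContinuousLinearMap.smulRight_apply]
    rw [add_comm]
  have hnn : ⟪gd z x, gd z x⟫ = 1 := by
    rw [real_inner_self_eq_norm_sq, h.gd_norm hz4]; norm_num
  have e2 : (fderiv ℝ V x (v x) + fderiv ℝ (slip z δ V) x (v x)) -
      ⟪gd z x, fderiv ℝ V x (v x) + fderiv ℝ (slip z δ V) x (v x)⟫ • gd z x =
      ⟪gd z x, V x⟫ • fderiv ℝ (gd z) x (v x) := by
    rw [e1, inner_add_right, inner_smul_right, inner_smul_right, hnn, h.gd_inner hz4, mul_zero, add_zero, mul_one]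
    abel
  rw [e2, norm_smul, Real.norm_eq_abs]
  have a1 : |⟪gd z x, V x⟫| ≤ |Ch| * z x :=
    (hCh x hx).trans (mul_le_mul_of_nonneg_right (le_abs_self _) hz.le)
  calc |⟪gd z x, V x⟫| * ‖fderiv ℝ (gd z) x (v x)‖ ≤ (|Ch| * z x) * Cn :=
        mul_le_mul a1 (hCn x hx) (norm_nonneg _) (by positivity)
    _ = |Ch| * Cn * z x := by ring

end Pool.Agent.Lib.MP_79abb3_an.W
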