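import Pool.Agent.Lib.MP_79abb3_an.W.DF2b

/-!
Theorem W, block D, part F2d: operators.
-/

set_option autoImplicit false
set_option linter.unusedSectionVars false

open MeasureTheory Set Filter Topology Function
open scoped ENNReal RealInnerProductSpace

namespace Pool.Agent.Lib.MP_79abb3_an.W

variable {d : ℕ} {D B : Set (Ed d)} {z : Ed d → ℝ} {δ : ℝ} {G : Type} [NormedAddCommGroup G] [NormedSpace ℝ G]
  {m m' : ℤ} {X Y : Fam d (Ed d)} {ι : Type}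

/-! ### `Hop`, `Trn` -/

private theorem df2d_cd (hD : IsOpen D) (hX : FFS D X) {ε : ℝ} (hε : ε ∈ Ioc (0 : ℝ) 1) (t : ℝ) :
    ContDiffOn ℝ ((⊤ : ℕ∞) : WithTop ℕ∞) (X ε t) D := ((hX ε hε).bd hD t).1

theorem Hop_add (hD : IsOpen D) (hX : FFS D X) (hY : FFS D Y) {ε : ℝ} (hε : ε ∈ Ioc (0 : ℝ) 1) (t : ℝ) {x : Ed d}
    (hx : x ∈ D) : Hop (fun ε t x => X ε t x + Y ε t x) ε t x = Hop X ε t x + Hop Y ε t x := by
  show deriv (fun s => X ε s x + Y ε s x) t - lap (fun y => X ε t y + Y ε t y) x =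
    (deriv (fun s => X ε s x) t - lap (X ε t) x) + (deriv (fun s => Y ε s x) t - lap (Y ε t) x)
  rw [FS.dt_add (hX ε hε) (hY ε hε) hx, lap_add_on hD (df2d_cd hD hX hε t) (df2d_cd hD hY hε t) hx]
  abel

theorem Hop_sum (hD : IsOpen D) (s : Finset ι) {X : ι → Fam d (Ed d)} (hX : ∀ i ∈ s, FFS D (X i)) {ε : ℝ}
    (hε : ε ∈ Ioc (0 : ℝ) 1) (t : ℝ) {x : Ed d} (hx : x ∈ D) :
    Hop (fun ε t x => ∑ i ∈ s, X i ε t x) ε t x = ∑ i ∈ s, Hop (X i) ε t x := by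
  show deriv (fun r => ∑ i ∈ s, X i ε r x) t - lap (fun y => ∑ i ∈ s, X i ε t y) x =
    ∑ i ∈ s, (deriv (fun r => X i ε r x) t - lap (X i ε t) x)
  rw [lap_sum_on hD s (fun i hi => df2d_cd hD (hX i hi) hε t) hx, Finset.sum_sub_distrib,
    deriv_fun_sum fun i hi => (FS.differentiable_t (hX i hi ε hε) hx) t]

/-- `a` may depend on `ε`. -/
theorem Hop_smul (hD : IsOpen D) (hX : FFS D X) (a : ℝ → ℝ) {ε : ℝ} (hε : ε ∈ Ioc (0 : ℝ) 1) (t : ℝ) {x : Ed d}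
    (hx : x ∈ D) : Hop (fun ε t x => a ε • X ε t x) ε t x = a ε • Hop X ε t x := by
  show deriv (fun s => a ε • X ε s x) t - lap (fun y => a ε • X ε t y) x =
    a ε • (deriv (fun s => X ε s x) t - lap (X ε t) x)
  rw [lap_const_smul_on hD (a ε) (df2d_cd hD hX hε t) hx, smul_sub,
    deriv_fun_const_smul (a ε) ((FS.differentiable_t (hX ε hε) hx) t)]

theorem Hop_ffs (hD : IsOpen D) (hX : FFS D X) : FFS D (Hop X) :=
  fun ε hε => (FS.dt (hX ε hε)).sub (FS.lap hD (hX ε hε))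

theorem Trn_ffs (hD : IsOpen D) (hX : FFS D X) (hY : FFS D Y) : FFS D (Trn X Y) :=
  fun ε hε => FS.trn hD (hX ε hε) (hY ε hε)

theorem Trn_add_left (X Y Z : Fam d (Ed d)) (ε t : ℝ) (x : Ed d) :
    Trn (fun ε t x => X ε t x + Y ε t x) Z ε t x = Trn X Z ε t x + Trn Y Z ε t x :=
  map_add _ _ _

theorem Trn_add_right (hD : IsOpen D) {Z : Fam d (Ed d)} (hY : FFS D Y) (hZ : FFS D Z) {ε : ℝ}
    (hε : ε ∈ Ioc (0 : ℝ) 1) (t : ℝ) {x : Ed d} (hx : x ∈ D) :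
    Trn X (fun ε t x => Y ε t x + Z ε t x) ε t x = Trn X Y ε t x + Trn X Z ε t x := by
  show fderiv ℝ (fun y => Y ε t y + Z ε t y) x (X ε t x) =
    fderiv ℝ (Y ε t) x (X ε t x) + fderiv ℝ (Z ε t) x (X ε t x)
  rw [fderiv_fun_add (df2_diff hD hY hε t hx) (df2_diff hD hZ hε t hx)]
  rfl

theorem Trn_sum_left (s : Finset ι) (X : ι → Fam d (Ed d)) (Y : Fam d (Ed d)) (ε t : ℝ) (x : Ed d) :
    Trn (fun ε t x => ∑ i ∈ s, X i ε t x) Y ε t x = ∑ i ∈ s, Trn (X i) Y ε t x :=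
  map_sum _ _ _

theorem Trn_sum_right (hD : IsOpen D) (s : Finset ι) {Y : ι → Fam d (Ed d)} (hY : ∀ i ∈ s, FFS D (Y i)) {ε : ℝ}
    (hε : ε ∈ Ioc (0 : ℝ) 1) (t : ℝ) {x : Ed d} (hx : x ∈ D) :
    Trn X (fun ε t x => ∑ i ∈ s, Y i ε t x) ε t x = ∑ i ∈ s, Trn X (Y i) ε t x := by
  show fderiv ℝ (fun y => ∑ i ∈ s, Y i ε t y) x (X ε t x) = ∑ i ∈ s, fderiv ℝ (Y i ε t) x (X ε t x)
  rw [fderiv_fun_sum fun i hi => df2_diff hD (hY i hi) hε t hx, sum_apply]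

end Pool.Agent.Lib.MP_79abb3_an.W
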