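import Pool.Agent.Lib.MP_79abb3_an.W.DF2b
import Pool.Agent.Lib.MP_79abb3_an.W.DF2d
import Pool.Agent.Lib.MP_79abb3_an.W.BX2
import Pool.Agent.Lib.MP_79abb3_an.W.DC2b

section

/-!
Theorem W, block D, part F2c: layers.
-/

set_option autoImplicit false
set_option linter.unusedSectionVars false

open MeasureTheory Set Filter Topology Function
open scoped ENNReal RealInnerProductSpace

namespace Pool.Agent.Lib.MP_79abb3_an.W

variable {d : ℕ} {D B : Set (Ed d)} {z : Ed d → ℝ} {δ : ℝ} {G : Type} [NormedAddCommGroup G] [NormedSpace ℝ G]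
  {m m' : ℤ} {X Y : Fam d (Ed d)} {ι : Type}

/-! ### Layers -/

theorem df2c_open (hS : Dom D z δ) : IsOpen D := by
  have h1 : D = z ⁻¹' Ioi 0 := by
    ext x
    exact hS.pos x
  rw [h1]
  exact isOpen_Ioi.preimage hS.smo.continuous

/-- enlarge the constants -/
private theorem df2c_le {C C' c c' ε w p q a : ℝ} (hε : ε ∈ Ioc (0 : ℝ) 1) (hw : 0 < w) (hc : c' ≤ c)
    (hC : |C| ≤ C') (hp : 0 ≤ p) (hpq : p ≤ q) (h : a ≤ C * p * Real.exp (-(c * (w / ε)))) :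
    a ≤ C' * q * Real.exp (-(c' * (w / ε))) := by
  refine h.trans ?_
  have hC0 : 0 ≤ C' := (abs_nonneg C).trans hC
  refine mul_le_mul ?_ (df2_exp hε hw hc) (Real.exp_pos _).le (mul_nonneg hC0 (hp.trans hpq))
  exact mul_le_mul ((le_abs_self C).trans hC) hpq hp hC0

theorem IsLay.add (hS : Dom D z δ) (h : IsLay D z m X) (h' : IsLay D z m Y) :
    IsLay D z m fun ε t x => X ε t x + Y ε t x := by
  have hD := df2c_open hS
  obtain ⟨h1, h2, C, c, hc, h3⟩ := h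
  obtain ⟨h1', h2', C', c', hc', h3'⟩ := h'
  refine ⟨fun ε hε => (h1 ε hε).add (h1' ε hε), Dfr.add hD h1 h1' h2 h2', |C| + |C'|, min c c',
    lt_min hc hc', fun ε hε t x hx => ?_⟩
  have hz : 0 < z x := (hS.pos x).1 hx
  obtain ⟨a1, a2, a3⟩ := h3 ε hε t x hx
  obtain ⟨b1, b2, b3⟩ := h3' ε hε t x hx
  set E : ℝ := Real.exp (-(min c c' * (z x / ε))) with hE
  have k1 : ∀ {a p : ℝ}, 0 ≤ p → a ≤ C * p * Real.exp (-(c * (z x / ε))) → a ≤ |C| * p * E :=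
    fun hp h => df2c_le hε hz (min_le_left _ _) le_rfl hp le_rfl h
  have k2 : ∀ {a p : ℝ}, 0 ≤ p → a ≤ C' * p * Real.exp (-(c' * (z x / ε))) → a ≤ |C'| * p * E :=
    fun hp h => df2c_le hε hz (min_le_right _ _) le_rfl hp le_rfl h
  refine ⟨?_, ?_, fun v => ?_⟩
  · calc ‖X ε t x + Y ε t x‖ ≤ ‖X ε t x‖ + ‖Y ε t x‖ := norm_add_le _ _
      _ ≤ |C| * ε ^ m * E + |C'| * ε ^ m * E :=
          add_le_add (k1 (df2_zpos hε m).le a1) (k2 (df2_zpos hε m).le b1)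
      _ = _ := by ring
  · show |⟪gd z x, X ε t x + Y ε t x⟫| ≤ _
    rw [inner_add_right]
    calc |⟪gd z x, X ε t x⟫ + ⟪gd z x, Y ε t x⟫| ≤ |⟪gd z x, X ε t x⟫| + |⟪gd z x, Y ε t x⟫| :=
          abs_add_le _ _
      _ ≤ |C| * ε ^ (m + 1) * E + |C'| * ε ^ (m + 1) * E :=
          add_le_add (k1 (df2_zpos hε _).le a2) (k2 (df2_zpos hε _).le b2)
      _ = _ := by ring
  · have e : fderiv ℝ (fun y => X ε t y + Y ε t y) x = fderiv ℝ (X ε t) x + fderiv ℝ (Y ε t) x :=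
      fderiv_fun_add (df2_diff hD h1 hε t hx) (df2_diff hD h1' hε t hx)
    show ‖fderiv ℝ (fun y => X ε t y + Y ε t y) x v‖ ≤ _
    rw [e]
    set P : ℝ := ε ^ (m - 1) * |⟪gd z x, v⟫| + ε ^ m * ‖v‖ with hP
    have hP0 : 0 ≤ P := add_nonneg (mul_nonneg (df2_zpos hε _).le (abs_nonneg _))
      (mul_nonneg (df2_zpos hε _).le (norm_nonneg _))
    have a4 : ‖fderiv ℝ (X ε t) x v‖ ≤ |C| * P * E := by
      refine k1 hP0 ((a3 v).trans_eq ?_)
      ring
    have b4 : ‖fderiv ℝ (Y ε t) x v‖ ≤ |C'| * P * E := by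
      refine k2 hP0 ((b3 v).trans_eq ?_)
      ring
    calc ‖(fderiv ℝ (X ε t) x + fderiv ℝ (Y ε t) x) v‖
        ≤ ‖fderiv ℝ (X ε t) x v‖ + ‖fderiv ℝ (Y ε t) x v‖ := norm_add_le _ _
      _ ≤ |C| * P * E + |C'| * P * E := add_le_add a4 b4
      _ = _ := by ring

theorem df2c_zero : IsLay D z m (fun _ _ _ => (0 : Ed d)) := by
  have e : ∀ x : Ed d, fderiv ℝ (fun _ : Ed d => (0 : Ed d)) x = 0 := fun x => fderiv_const_apply 0
  refine ⟨fun ε _ => FS.zero, fun ε _ t x _ => ?_, 0, 1, one_pos, fun ε _ t x _ => ⟨by simp, by simp,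
    fun v => ?_⟩⟩
  · show ∑ i, pd i (fun _ : Ed d => (0 : Ed d)) x i = 0
    refine Finset.sum_eq_zero fun i _ => ?_
    show (fderiv ℝ (fun _ : Ed d => (0 : Ed d)) x (ei i)) i = 0
    rw [e]
    rfl
  · show ‖fderiv ℝ (fun _ : Ed d => (0 : Ed d)) x v‖ ≤ _
    rw [e]
    simp

theorem IsLay.sum (hS : Dom D z δ) (s : Finset ι) {X : ι → Fam d (Ed d)} (h : ∀ i ∈ s, IsLay D z m (X i)) :
    IsLay D z m fun ε t x => ∑ i ∈ s, X i ε t x := by
  classical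
  induction s using Finset.induction_on with
  | empty => simpa using df2c_zero (D := D) (z := z) (m := m)
  | insert a s ha ih =>
    have h1 := IsLay.add hS (h a (Finset.mem_insert_self a s))
      (ih fun i hi => h i (Finset.mem_insert_of_mem hi))
    simpa only [Finset.sum_insert ha] using h1

private theorem df2c_smul (hS : Dom D z δ) (a : ℝ → ℝ) (l : ℤ) {A : ℝ}
    (ha : ∀ ε ∈ Ioc (0 : ℝ) 1, |a ε| ≤ A * ε ^ l) (h : IsLay D z m X) :
    IsLay D z (l + m) fun ε t x => a ε • X ε t x := by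
  have hD := df2c_open hS
  obtain ⟨h1, h2, C, c, hc, h3⟩ := h
  refine ⟨fun ε hε => (h1 ε hε).const_smul (a ε), fun ε hε t x hx => ?_, A * |C|, c, hc,
    fun ε hε t x hx => ?_⟩
  · show dv (fun y => a ε • X ε t y) x = 0
    rw [dv_const_smul_at _ (df2_diff hD h1 hε t hx), h2 ε hε t x hx, mul_zero]
  have hz : 0 < z x := (hS.pos x).1 hx
  obtain ⟨a1, a2, a3⟩ := h3 ε hε t x hx
  set E : ℝ := Real.exp (-(c * (z x / ε))) with hE
  have hE0 : 0 ≤ E := (Real.exp_pos _).le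
  have key : ∀ {w p : ℝ}, 0 ≤ p → w ≤ C * p * E → |a ε| * w ≤ A * |C| * (ε ^ l * p) * E := by
    intro w p hp hw
    have hA : 0 ≤ A * ε ^ l := (abs_nonneg _).trans (ha ε hε)
    calc |a ε| * w ≤ |a ε| * (|C| * p * E) := by
          refine mul_le_mul_of_nonneg_left (hw.trans ?_) (abs_nonneg _)
          exact mul_le_mul_of_nonneg_right (mul_le_mul_of_nonneg_right (le_abs_self C) hp) hE0
      _ ≤ A * ε ^ l * (|C| * p * E) :=
          mul_le_mul_of_nonneg_right (ha ε hε) (by positivity)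
      _ = _ := by ring
  refine ⟨?_, ?_, fun v => ?_⟩
  · rw [norm_smul, Real.norm_eq_abs, df2_zadd hε]
    exact key (df2_zpos hε m).le a1
  · show |⟪gd z x, a ε • X ε t x⟫| ≤ _
    rw [real_inner_smul_right, abs_mul, add_assoc, df2_zadd hε]
    exact key (df2_zpos hε _).le a2
  · have e : fderiv ℝ (fun y => a ε • X ε t y) x = a ε • fderiv ℝ (X ε t) x :=
      fderiv_fun_const_smul (df2_diff hD h1 hε t hx) (a ε)
    show ‖fderiv ℝ (fun y => a ε • X ε t y) x v‖ ≤ _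
    rw [e]
    show ‖a ε • fderiv ℝ (X ε t) x v‖ ≤ _
    rw [norm_smul, Real.norm_eq_abs]
    have hP0 : 0 ≤ ε ^ (m - 1) * |⟪gd z x, v⟫| + ε ^ m * ‖v‖ :=
      add_nonneg (mul_nonneg (df2_zpos hε _).le (abs_nonneg _))
        (mul_nonneg (df2_zpos hε _).le (norm_nonneg _))
    have a4 : ‖fderiv ℝ (X ε t) x v‖ ≤
        C * (ε ^ (m - 1) * |⟪gd z x, v⟫| + ε ^ m * ‖v‖) * E := by
      refine (a3 v).trans_eq ?_
      ring
    refine (key hP0 a4).trans_eq ?_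
    have e1 : ε ^ (l + m - 1) = ε ^ l * ε ^ (m - 1) := by
      rw [← df2_zadd hε]
      congr 1
      ring
    rw [e1, df2_zadd hε]
    ring

theorem IsLay.zsmul (hS : Dom D z δ) (h : IsLay D z m X) (l : ℤ) : IsLay D z (l + m) fun ε t x => ε ^ l • X ε t x := by
  refine df2c_smul hS (fun ε => ε ^ l) l (A := 1) (fun ε hε => ?_) h
  show |ε ^ l| ≤ 1 * ε ^ l
  rw [abs_of_pos (df2_zpos hε l), one_mul]

theorem IsLay.const_smul (hS : Dom D z δ) (h : IsLay D z m X) (a : ℝ) : IsLay D z m fun ε t x => a • X ε t x := by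
  have h1 := df2c_smul hS (fun _ => a) 0 (A := |a|) (fun ε hε => by simp) h
  rwa [zero_add] at h1

theorem IsLay.mono (hS : Dom D z δ) (hm : m' ≤ m) (h : IsLay D z m X) : IsLay D z m' X := by
  obtain ⟨h1, h2, C, c, hc, h3⟩ := h
  refine ⟨h1, h2, |C|, c, hc, fun ε hε t x hx => ?_⟩
  have hz : 0 < z x := (hS.pos x).1 hx
  obtain ⟨a1, a2, a3⟩ := h3 ε hε t x hx
  refine ⟨df2c_le hε hz le_rfl le_rfl (df2_zpos hε _).le (df2_zpow hε hm) a1,
    df2c_le hε hz le_rfl le_rfl (df2_zpos hε _).le (df2_zpow hε (by linarith)) a2, fun v => ?_⟩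
  have hP0 : 0 ≤ ε ^ (m - 1) * |⟪gd z x, v⟫| + ε ^ m * ‖v‖ :=
    add_nonneg (mul_nonneg (df2_zpos hε _).le (abs_nonneg _))
      (mul_nonneg (df2_zpos hε _).le (norm_nonneg _))
  have hPP : ε ^ (m - 1) * |⟪gd z x, v⟫| + ε ^ m * ‖v‖ ≤
      ε ^ (m' - 1) * |⟪gd z x, v⟫| + ε ^ m' * ‖v‖ :=
    add_le_add (mul_le_mul_of_nonneg_right (df2_zpow hε (by linarith)) (abs_nonneg _))
      (mul_le_mul_of_nonneg_right (df2_zpow hε hm) (norm_nonneg _))
  have a4 : ‖fderiv ℝ (X ε t) x v‖ ≤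
      C * (ε ^ (m - 1) * |⟪gd z x, v⟫| + ε ^ m * ‖v‖) * Real.exp (-(c * (z x / ε))) := by
    refine (a3 v).trans_eq ?_
    ring
  refine (df2c_le hε hz le_rfl le_rfl hP0 hPP a4).trans_eq ?_
  ring

end Pool.Agent.Lib.MP_79abb3_an.W
end

section

/-!
Theorem W, block D, part F3c: stationary fields and crude correctors.
-/

set_option autoImplicit false
set_option linter.unusedSectionVars false

open MeasureTheory Set Filter Topology Function
open scoped ENNReal RealInnerProductSpace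

namespace Pool.Agent.Lib.MP_79abb3_an.W

variable {d : ℕ} {D B : Set (Ed d)} {z : Ed d → ℝ} {δ : ℝ} {G : Type} [NormedAddCommGroup G] [NormedSpace ℝ G]
  {c : ℝ → ℝ} {K L : ℝ → ℝ → ℝ} {s : Set ℤ}

private theorem df3c_ct (hc : CB c) {T : ℝ → ℝ} (hT : T ∈ TR s) :
    ∃ C : ℝ, 0 ≤ C ∧ ∀ t r : ℝ, |c t * T r| ≤ C := by
  obtain ⟨C1, h1⟩ := hc.bd
  obtain ⟨C2, hC2, h2⟩ := TR.bound hT
  refine ⟨|C1| * C2, by positivity, fun t r => ?_⟩
  rw [abs_mul]
  have h3 : |c t| ≤ |C1| := (h1 t).1.trans (le_abs_self _)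
  have h4 := h2 r
  gcongr

private theorem df3c_ct' (hc : CB c) {T : ℝ → ℝ} (hT : T ∈ TR s) :
    ∃ C : ℝ, 0 ≤ C ∧ ∀ t r : ℝ, |deriv c t * T r| ≤ C := by
  obtain ⟨C1, h1⟩ := hc.bd
  obtain ⟨C2, hC2, h2⟩ := TR.bound hT
  refine ⟨|C1| * C2, by positivity, fun t r => ?_⟩
  rw [abs_mul]
  have h3 : |deriv c t| ≤ |C1| := (h1 t).2.trans (le_abs_self _)
  have h4 := h2 r
  gcongr

/-- Stationary fields times `c(t) T(t/ε²)`. -/
theorem btm_bk (hD : IsOpen D) (hc : CB c) {T : ℝ → ℝ} (hT : T ∈ TR s) {v : Ed d → Ed d} (hv : BD D v) :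
    Bkf D 0 (btm c T v) := by
  refine ⟨btm_ffs hc.smo hT hv, ?_⟩
  obtain ⟨C1, hC1, h1⟩ := df3c_ct hc hT
  obtain ⟨C3, hC3, h3⟩ := hv.bound
  obtain ⟨C4, hC4, h4⟩ := hv.bound_fderiv
  refine ⟨C1 * (C3 + C4), fun ε hε t x hx => ?_⟩
  have e1 : C1 * (C3 + C4) * ε ^ (0 : ℤ) = C1 * C3 + C1 * C4 := by rw [zpow_zero]; ring
  have p1 : 0 ≤ C1 * C3 := by positivity
  have p2 : 0 ≤ C1 * C4 := by positivity
  rw [e1]
  constructor
  · show ‖(c t * T (t / ε ^ 2)) • v x‖ ≤ _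
    rw [norm_smul, Real.norm_eq_abs]
    have := mul_le_mul (h1 t (t / ε ^ 2)) (h3 x hx) (norm_nonneg _) hC1
    linarith
  · have e2 : fderiv ℝ (btm c T v ε t) x = (c t * T (t / ε ^ 2)) • fderiv ℝ v x := by
      show fderiv ℝ (fun y => (c t * T (t / ε ^ 2)) • v y) x = _
      rw [fderiv_fun_const_smul (hv.diff hD hx)]
    rw [e2, norm_smul, Real.norm_eq_abs]
    have := mul_le_mul (h1 t (t / ε ^ 2)) (h4 x hx) (norm_nonneg _) hC1
    linarith

theorem btm_tb (hc : CB c) {T : ℝ → ℝ} (hT : T ∈ TR s) {v : Ed d → Ed d} (h0 : Oz D z fun x => ⟪gd z x, v x⟫) :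
    Tb D z 0 (btm c T v) := by
  obtain ⟨C1, hC1, h1⟩ := df3c_ct hc hT
  obtain ⟨C, hC⟩ := h0
  refine ⟨C1 * C, fun ε hε t x hx => ?_⟩
  show |⟪gd z x, (c t * T (t / ε ^ 2)) • v x⟫| ≤ _
  have h2 : |⟪gd z x, v x⟫| ≤ C * z x := hC x hx
  rw [inner_smul_right, abs_mul, zpow_zero, mul_one, mul_assoc]
  exact mul_le_mul (h1 t _) h2 (abs_nonneg _) hC1

theorem btm_dfr (hD : IsOpen D) {T : ℝ → ℝ} {v : Ed d → Ed d} (hv : BD D v) (h0 : ∀ x ∈ D, dv v x = 0) :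
    Dfr D (btm c T v) := by
  intro ε hε t x hx
  show dv (fun y => (c t * T (t / ε ^ 2)) • v y) x = 0
  rw [dv_const_smul_at _ (hv.diff hD hx), h0 x hx, mul_zero]

theorem btm_pot (hc : CB c) {T : ℝ → ℝ} (hT : T ∈ TR s) {v : Ed d → Ed d} {p : Ed d → ℝ}
    (hp : ContDiffOn ℝ ((⊤ : ℕ∞) : WithTop ℕ∞) p (D \ B)) (h0 : ∀ x ∈ D \ B, v x = gd p x) :
    Pot D B (btm c T v) := by
  intro ε hε
  refine ⟨Unit, inferInstance, fun _ t => c t * T (t / ε ^ 2), fun _ => p, fun _ => ?_, fun _ => hp,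
    fun t x hx => ?_⟩
  · exact hc.smo.mul ((TR.smooth hT).comp (contDiff_id.div_const _))
  · rw [Fintype.sum_unique]
    show (c t * T (t / ε ^ 2)) • v x = _
    rw [h0 x hx]

/-- `ε³` times a stationary field times `c(t) T(t/ε²)` is a crude corrector. -/
theorem btm_cr (hD : IsOpen D) (hc : CB c) {T : ℝ → ℝ} (hT : T ∈ TR s) {v : Ed d → Ed d} (hv : BD D v)
    (h0 : ∀ x ∈ D, dv v x = 0) : IsCr D fun ε t x => ε ^ 3 • btm c T v ε t x := by
  have hf : FFS D (btm c T v) := btm_ffs hc.smo hT hv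
  have hbk : Bkf D 3 fun ε t x => ε ^ 3 • btm c T v ε t x := by
    have h1 := Bkf.zsmul hD (btm_bk hD hc hT hv) 3
    simpa only [zpow_ofNat, add_zero] using h1
  refine ⟨hbk, ?_, ?_, ?_⟩
  · have h1 := Dfr.zsmul hD hf (btm_dfr (c := c) hD hv h0 (T := T)) 3
    simpa only [zpow_ofNat] using h1
  · exact Hop_ffs hD hbk.1
  · obtain ⟨C1, hC1, h1⟩ := df3c_ct hc hT
    obtain ⟨C1', hC1', h1'⟩ := df3c_ct' hc hT
    obtain ⟨C2, hC2, h2⟩ := df3c_ct hc (TR.deriv hT)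
    obtain ⟨C3, hC3, h3⟩ := hv.bound
    obtain ⟨C4, hC4, h4⟩ := (BD.lap hD hv).bound
    refine ⟨(C1' + C2) * C3 + C1 * C4, fun ε hε t x hx => ?_⟩
    have hε0 : 0 < ε := hε.1
    have hε1 : ε ≤ 1 := hε.2
    have e1 : Hop (fun ε t x => ε ^ 3 • btm c T v ε t x) ε t x = ε ^ 3 • Hop (btm c T v) ε t x :=
      Hop_smul hD hf (fun ε => ε ^ 3) hε t hx
    have d1 : HasDerivAt (fun s => c s * T (s / ε ^ 2))
        (deriv c t * T (t / ε ^ 2) + c t * (deriv T (t / ε ^ 2) * (1 / ε ^ 2))) t := by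
      have g1 : HasDerivAt c (deriv c t) t := (hc.smo.differentiable (by norm_num) t).hasDerivAt
      have g2 : HasDerivAt T (deriv T (t / ε ^ 2)) (t / ε ^ 2) :=
        ((TR.smooth hT).differentiable (by norm_num) _).hasDerivAt
      have g3 : HasDerivAt (fun s : ℝ => s / ε ^ 2) (1 / ε ^ 2) t := (hasDerivAt_id t).div_const _
      exact g1.mul (g2.comp t g3)
    have e2 : deriv (fun s => btm c T v ε s x) t =
        (deriv c t * T (t / ε ^ 2) + c t * (deriv T (t / ε ^ 2) * (1 / ε ^ 2))) • v x :=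
      (d1.smul_const (v x)).deriv
    have e3 : lap (btm c T v ε t) x = (c t * T (t / ε ^ 2)) • lap v x :=
      lap_const_smul_on hD _ hv.1 hx
    rw [e1]
    show ‖ε ^ 3 • (deriv (fun s => btm c T v ε s x) t - lap (btm c T v ε t) x)‖ ≤ _
    rw [e2, e3, zpow_one, norm_smul, Real.norm_of_nonneg (by positivity)]
    have hε3 : ε ^ 3 ≤ ε := by
      calc ε ^ 3 = ε * (ε * ε) := by ring
        _ ≤ ε * (1 * 1) := by gcongr
        _ = ε := by ring
    have b1 : ‖(deriv c t * T (t / ε ^ 2) + c t * (deriv T (t / ε ^ 2) * (1 / ε ^ 2))) • v x‖ ≤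
        (C1' + C2 * (1 / ε ^ 2)) * C3 := by
      rw [norm_smul, Real.norm_eq_abs]
      have l1 : |deriv c t * T (t / ε ^ 2) + c t * (deriv T (t / ε ^ 2) * (1 / ε ^ 2))| ≤
          C1' + C2 * (1 / ε ^ 2) := by
        refine (abs_add_le _ _).trans (add_le_add (h1' _ _) ?_)
        rw [← mul_assoc, abs_mul, abs_of_pos (by positivity : (0:ℝ) < 1 / ε ^ 2)]
        exact mul_le_mul_of_nonneg_right (h2 _ _) (by positivity)
      exact mul_le_mul l1 (h3 x hx) (norm_nonneg _) (by positivity)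
    have b2 : ‖(c t * T (t / ε ^ 2)) • lap v x‖ ≤ C1 * C4 := by
      rw [norm_smul, Real.norm_eq_abs]
      exact mul_le_mul (h1 _ _) (h4 x hx) (norm_nonneg _) hC1
    have b3 := (norm_sub_le _ _).trans (add_le_add b1 b2)
    calc ε ^ 3 * ‖(deriv c t * T (t / ε ^ 2) + c t * (deriv T (t / ε ^ 2) * (1 / ε ^ 2))) • v x -
          (c t * T (t / ε ^ 2)) • lap v x‖
        ≤ ε ^ 3 * ((C1' + C2 * (1 / ε ^ 2)) * C3 + C1 * C4) :=
          mul_le_mul_of_nonneg_left b3 (by positivity)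
      _ = ε ^ 3 * (C1' * C3 + C1 * C4) + ε * (C2 * C3) := by
          field_simp
          ring
      _ ≤ ε * (C1' * C3 + C1 * C4) + ε * (C2 * C3) := by gcongr
      _ = ((C1' + C2) * C3 + C1 * C4) * ε := by ring

theorem IsCr.add (hD : IsOpen D) {X Y : Fam d (Ed d)} (h : IsCr D X) (h' : IsCr D Y) :
    IsCr D fun ε t x => X ε t x + Y ε t x where
  bk := Bkf.add hD h.bk h'.bk
  div := Dfr.add hD h.bk.1 h'.bk.1 h.div h'.div
  hop := Bb.congr (Bb.add h.hop h'.hop) fun ε hε t x hx => Hop_add hD h.bk.1 h'.bk.1 hε t hx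

theorem IsCr.sum (hD : IsOpen D) {ι : Type} (s : Finset ι) {X : ι → Fam d (Ed d)} (h : ∀ i ∈ s, IsCr D (X i)) :
    IsCr D fun ε t x => ∑ i ∈ s, X i ε t x where
  bk := Bkf.sum hD s fun i hi => (h i hi).bk
  div := Dfr.sum hD s (fun i hi => (h i hi).bk.1) fun i hi => (h i hi).div
  hop := Bb.congr (Bb.sum s fun i hi => (h i hi).hop) fun ε hε t x hx =>
    Hop_sum hD s (fun i hi => (h i hi).bk.1) hε t hx

theorem IsCr.const_smul (hD : IsOpen D) {X : Fam d (Ed d)} (h : IsCr D X) (a : ℝ) :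
    IsCr D fun ε t x => a • X ε t x := by
  have hbk := Bkf.const_smul hD a h.bk
  refine ⟨hbk, Dfr.const_smul hD h.bk.1 h.div a, Hop_ffs hD hbk.1, ?_⟩
  obtain ⟨-, C, hC⟩ := h.hop
  refine ⟨|a| * C, fun ε hε t x hx => ?_⟩
  have e1 : Hop (fun ε t x => a • X ε t x) ε t x = a • Hop X ε t x :=
    Hop_smul hD h.bk.1 (fun _ => a) hε t hx
  rw [e1, norm_smul, Real.norm_eq_abs, mul_assoc]
  exact mul_le_mul_of_nonneg_left (hC ε hε t x hx) (abs_nonneg _)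

/-- Multiplication by `ε`. -/
theorem IsCr.eps (hD : IsOpen D) {X : Fam d (Ed d)} (h : IsCr D X) : IsCr D fun ε t x => ε • X ε t x := by
  have h1 := Bkf.mono (m' := 3) (by norm_num) (Bkf.zsmul hD h.bk 1)
  have h2 := Dfr.zsmul hD h.bk.1 h.div 1
  have h3 := Bb.mono (m' := 1) (by norm_num) (Bb.zsmul h.hop 1)
  simp only [zpow_one] at h1 h2 h3
  exact ⟨h1, h2, Bb.congr h3 fun ε hε t x hx => Hop_smul hD h.bk.1 (fun ε => ε) hε t hx⟩

end Pool.Agent.Lib.MP_79abb3_an.W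
end

section

/-!
Theorem W, block D, part C3b: potentials.
-/

set_option autoImplicit false
set_option linter.unusedSectionVars false

open MeasureTheory Set Filter Topology Function
open scoped ENNReal RealInnerProductSpace

namespace Pool.Agent.Lib.MP_79abb3_an.W

variable {d : ℕ} {D B : Set (Ed d)} {z : Ed d → ℝ} {δ δ' : ℝ} {V : Ed d → Ed d}

private theorem dc3b_opn (h : Dom D z δ) : IsOpen D := by
  have h1 : D = z ⁻¹' Ioi 0 := by
    ext x
    exact h.pos x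
  rw [h1]
  exact isOpen_Ioi.preimage h.smo.continuous

/-- Potentials exist: `Dom.leray` of block B for `F = ℓ(σ)`, `F = v + ∇q`, `div F = 0`, `div v = 0`, `n·v = O(z)`. -/
theorem exists_pt (h : Dom D z δ) {σ : Ed d → Ed d} (hσ : CF D z δ σ) : ∃ q, IsPt D z σ q := by
  have hD := dc3b_opn h
  have hl : BD D (ell z σ) := (hσ.toCV.ell h).bd
  have h1 : BD D fun x => ⟪gradient z x, ell z σ x⟫ := by
    refine ((h.bd_n).inner hD hl).congr hD fun x _ => ?_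
    rw [gd_eq_gradient]
  obtain ⟨q, hq, hl0, hn⟩ := h.neumann_field h1 hl (fun x hx => ell_div h hσ.bd hx) (by
    refine ⟨0, fun x _ => ?_⟩
    show ‖⟪gradient z x, ell z σ x⟫ - ⟪gradient z x, ell z σ x⟫‖ ≤ 0 * z x
    rw [sub_self, norm_zero, zero_mul])
  refine ⟨q, hq, hl0, hn.congr fun x hx => ?_⟩
  rw [gd_eq_gradient, gd_eq_gradient, ← gd_eq_gradient z, ell_nor h hσ hx]
  ring

theorem IsPt.bd_gd (h : Dom D z δ) {σ : Ed d → Ed d} {q : Ed d → ℝ} (hq : IsPt D z σ q) : BD D (gd q) := by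
  exact hq.bd.gd (dc3b_opn h)

theorem IsPt.dv_gd (h : Dom D z δ) {σ : Ed d → Ed d} {q : Ed d → ℝ} (hq : IsPt D z σ q) {x : Ed d} (hx : x ∈ D) :
    W.dv (W.gd q) x = 0 := by
  rw [dv_gd_at ((hq.bd.gd (dc3b_opn h)).diff (dc3b_opn h) hx)]
  exact hq.lap x hx

theorem IsPt.lap_gd (h : Dom D z δ) {σ : Ed d → Ed d} {q : Ed d → ℝ} (hq : IsPt D z σ q) {x : Ed d} (hx : x ∈ D) :
    W.lap (W.gd q) x = 0 := by
  have hD := dc3b_opn h
  rw [lap_gd_on hD hq.bd.1 hx, gd_congr (q := fun _ => (0 : ℝ)) (by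
    filter_upwards [hD.mem_nhds hx] with y hy
    exact hq.lap y hy)]
  unfold W.gd W.pd
  ext i
  simp

/-- The next tangential field. -/
noncomputable def nxt (z : Ed d → ℝ) (δ : ℝ) (σ : Ed d → Ed d) (q : Ed d → ℝ) : Ed d → Ed d :=
  ct z δ fun x => ell z σ x - gd q x

theorem nxt_cf (h : Dom D z δ) {σ : Ed d → Ed d} (hσ : CF D z δ σ) {q : Ed d → ℝ} (hq : IsPt D z σ q) :
    CF D z δ (nxt z δ σ q) := by
  have hD := dc3b_opn h
  exact ct_cf h (((hσ.toCV.ell h).bd).sub hD (hq.bd.gd hD))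

/-- `ℓ(σ) = ∇q + nxt + O(z)` -/
theorem nxt_sub (h : Dom D z δ) {σ : Ed d → Ed d} (hσ : CF D z δ σ) {q : Ed d → ℝ} (hq : IsPt D z σ q) :
    Oz D z fun x => ell z σ x - gd q x - nxt z δ σ q x := by
  have hD := dc3b_opn h
  have hg : BD D (gd q) := hq.bd.gd hD
  have hl : BD D (ell z σ) := (hσ.toCV.ell h).bd
  have h1 := ct_sub h (hl.sub hD hg)
  obtain ⟨C, hC, hb⟩ := (h.bd_n).bound
  have h2 : Oz D z fun x => ⟪gd z x, ell z σ x - gd q x⟫ • gd z x := by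
    refine Oz.smul' hb (hq.nor.neg.congr fun x hx => ?_)
    rw [inner_sub_right, ell_nor h hσ hx]
    ring
  refine (h1.add h2).congr fun x hx => ?_
  unfold nxt
  abel

end Pool.Agent.Lib.MP_79abb3_an.W
end
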