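import Pool.Agent.Lib.MP_79abb3_an.W.Def
import Pool.Agent.Lib.MP_79abb3_an.W.EMDef
import Pool.Agent.Lib.MP_79abb3_an.W.SpG1

/-!
Theorem W (MP_79abb3_an), block DE: the concrete instance of the energy estimate (block E). Definitions.

All fields are given on the open set `D`; their values outside of `D` play no role (they are cut off by
`D.indicator`). Time is rescaled: `τ ∈ [0, 1]`, `t = b τ`.
-/

set_option autoImplicit false
set_option linter.unusedSectionVars false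

open MeasureTheory Set Filter Topology Function
open scoped ENNReal RealInnerProductSpace

namespace Pool.Agent.Lib.MP_79abb3_an.W

section
variable {d : ℕ} {F : Type} [NormedAddCommGroup F] [NormedSpace ℝ F]

/-- bounds for the derivatives up to order `k` on `D` -/
def Bk (D : Set (En d)) (k : ℕ) (M : ℝ) (f : En d → F) : Prop :=
  ∀ j ≤ k, ∀ x ∈ D, ‖iteratedFDeriv ℝ j f x‖ ≤ M

/-- time dependent functions on `D`: finite sums of smooth functions of time times functions of the class `BD` -/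
def Sep (D : Set (En d)) (f : ℝ → En d → F) : Prop :=
  ∃ (n : ℕ) (c : Fin n → ℝ → ℝ) (g : Fin n → En d → F), (∀ k, ContDiff ℝ ((⊤ : ℕ∞) : WithTop ℕ∞) (c k)) ∧
    (∀ k, BD D (g k)) ∧ ∀ t, ∀ x ∈ D, f t x = ∑ k, c k t • g k x

/-- the derivative with respect to time -/
noncomputable def dtm (f : ℝ → En d → F) (t : ℝ) (x : En d) : F := deriv (fun s => f s x) t

/-- a function given on `D` as a bounded measurable function -/
noncomputable def bf (D : Set (En d)) (f : En d → F) : Li d F := cli (D.indicator f)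

/-- the matrix `∇w` acting by `v ↦ v·∇w` -/
noncomputable def Dm (w : En d → En d) (x : En d) : En d →L[ℝ] En d := fderiv ℝ w x

/-- the transpose `v ↦ (∇w)ᵀ v` -/
noncomputable def Dt (w : En d → En d) (x : En d) : En d →L[ℝ] En d :=
  ContinuousLinearMap.adjoint (fderiv ℝ w x)

/-- `v ↦ v·∇w - (div w) v` -/
noncomputable def Dd (w : En d → En d) (x : En d) : En d →L[ℝ] En d :=
  fderiv ℝ w x - dv w x • ContinuousLinearMap.id ℝ (En d)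

/-- the symmetric matrix `sym ∇w - (div w)/2` -/
noncomputable def Ds (w : En d → En d) (x : En d) : En d →L[ℝ] En d :=
  (1 / 2 : ℝ) • (Dt w x + Dd w x)

/-- the Leray projection of a field given on `D` -/
noncomputable def PcD (D : Set (En d)) (f : En d → En d) : HD D := PD D (cl (D.indicator f))

/-- `v ↦ P(w·∇v + A v)` for a field `w` and a matrix field `A` -/
noncomputable def OpD (D : Set (En d)) (w : En d → En d) (A : En d → (En d →L[ℝ] En d)) : VD D →L[ℝ] HD D :=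
  PD D ∘L (tr0 d (bf D w) ∘L (VD D).subtypeL + mu0 d (bf D A) ∘L (HD D).subtypeL ∘L io D)

/-- `x ↦ P(A x)` for a matrix field `A` -/
noncomputable def MuD (D : Set (En d)) (A : En d → (En d →L[ℝ] En d)) : HD D →L[ℝ] HD D :=
  PD D ∘L mu0 d (bf D A) ∘L (HD D).subtypeL

/-- the generator `v ↦ P L_w v = P(w·∇v + (∇w)ᵀ v)` -/
noncomputable def LvD (D : Set (En d)) (w : En d → En d) : VD D →L[ℝ] HD D := OpD D w (Dt w)

/-- the formal adjoint `φ ↦ -P(w·∇φ - φ·∇w + (div w) φ)` -/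
noncomputable def LpD (D : Set (En d)) (w : En d → En d) : VD D →L[ℝ] HD D := -OpD D w fun x => -Dd w x

/-- the linearised nonlinearity `v ↦ P(w·∇v + v·∇w)` -/
noncomputable def TvD (D : Set (En d)) (w : En d → En d) : VD D →L[ℝ] HD D := OpD D w (Dm w)

/-- Trigonometric polynomials of fields, without constant term. -/
structure Wav (d : ℕ) where
  n : ℕ
  α : Fin n → ℕ
  p : Fin n → En d → En d
  r : Fin n → En d → En d

/-- `U(θ) = ∑ cos(α θ) p + sin(α θ) r` -/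
noncomputable def Wav.U (W : Wav d) (θ : ℝ) (x : En d) : En d :=
  ∑ j, (Real.cos (W.α j * θ) • W.p j x + Real.sin (W.α j * θ) • W.r j x)

/-- the primitive `Ξ(θ) = ∑ (sin(α θ) p - cos(α θ) r) / α` -/
noncomputable def Wav.Xi (W : Wav d) (θ : ℝ) (x : En d) : En d :=
  ∑ j, (W.α j : ℝ)⁻¹ • (Real.sin (W.α j * θ) • W.p j x - Real.cos (W.α j * θ) • W.r j x)

/-- the drift `∑ [p, r] / (2 α)` -/
noncomputable def Wav.Vb (W : Wav d) (x : En d) : En d :=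
  ∑ j, (2 * W.α j : ℝ)⁻¹ • brk (W.p j) (W.r j) x

/-- The input of block DE. -/
structure DIn (d : ℕ) where
  wv : Wav d
  q : ℝ
  b : ℝ
  a : ℝ → ℝ
  /-- the reference field -/
  u : ℝ → En d → En d
  /-- thin fields -/
  R : ℝ → En d → En d
  /-- bounded fields with bounded gradients -/
  Se : ℝ → En d → En d
  /-- the slow field in the fast transport -/
  Sa : ℝ → En d → En d
  /-- the residual -/
  r : ℝ → En d → En d
  /-- the force on the slow field -/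
  fN : ℝ → En d → En d
  /-- the damping -/
  χ : En d → ℝ

/-- The hypotheses. `Ω ⊆ D` is the open set in which the Navier-Stokes system must hold. `κ₀` depends on `D` only, `MS` is
the bound of the fields `Se`; `M` contains all other constants. -/
structure DIn.OK (I : DIn d) (D Ω : Set (En d)) (z : En d → ℝ) (κ₀ MS M CV δ γ : ℝ) : Prop where
  q1 : 1 ≤ I.q
  b0 : 0 < I.b
  b1 : I.b ≤ 1
  α0 : ∀ j, 0 < I.wv.α j
  αi : Injective I.wv.α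
  nM : (I.wv.n : ℝ) ≤ M
  bp : ∀ j, BD D (I.wv.p j)
  br : ∀ j, BD D (I.wv.r j)
  kp : ∀ j, Bk D 4 M (I.wv.p j)
  kr : ∀ j, Bk D 4 M (I.wv.r j)
  /-- the waves are irrotational in `Ω` -/
  sp : ∀ j, ∀ x ∈ Ω, ∀ v w, ⟪fderiv ℝ (I.wv.p j) x v, w⟫ = ⟪fderiv ℝ (I.wv.p j) x w, v⟫
  sr : ∀ j, ∀ x ∈ Ω, ∀ v w, ⟪fderiv ℝ (I.wv.r j) x v, w⟫ = ⟪fderiv ℝ (I.wv.r j) x w, v⟫
  as : ContDiff ℝ ((⊤ : ℕ∞) : WithTop ℕ∞) I.a
  a1 : ∀ t ∈ Icc (0:ℝ) 1, |I.a t| ≤ 1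
  a' : ∀ t ∈ Icc (0:ℝ) 1, |deriv I.a t| ≤ M
  su : Sep D I.u
  sR : Sep D I.R
  sSe : Sep D I.Se
  sSa : Sep D I.Sa
  ss : Sep D I.r
  sfN : Sep D I.fN
  spl : ∀ t ∈ Icc (0:ℝ) 1, ∀ x ∈ D,
    I.u t x = (I.q ^ 12 * I.a t / I.b) • I.wv.U (I.q ^ 24 * t) x + I.R t x + I.Se t x
  du : ∀ t ∈ Icc (0:ℝ) 1, ∀ x ∈ D, dv (I.u t) x = 0
  uz : ∀ t ∈ Icc (0:ℝ) 1, Oz D z (I.u t)
  Rz : ∀ t ∈ Icc (0:ℝ) 1, ∀ x ∈ D, z x * ‖I.R t x‖ ≤ κ₀
  Rz' : ∀ t ∈ Icc (0:ℝ) 1, ∀ x ∈ D, z x ^ 2 * ‖fderiv ℝ (I.R t) x‖ ≤ κ₀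
  Seb : ∀ t ∈ Icc (0:ℝ) 1, Bk D 1 MS (I.Se t)
  Sab : ∀ t ∈ Icc (0:ℝ) 1, Bk D 3 M (I.Sa t)
  Sad : ∀ t ∈ Icc (0:ℝ) 1, Bk D 1 M (dtm I.Sa t)
  fNb : ∀ t ∈ Icc (0:ℝ) 1, ∀ x ∈ D, ‖I.fN t x‖ ≤ M
  fNs : ∀ t ∈ Icc (0:ℝ) 1, ∀ x ∈ Ω, I.fN t x = 0
  χm : Measurable I.χ
  χ0 : ∀ x, 0 ≤ I.χ x
  χM : ∀ x, I.χ x ≤ M
  χs : ∀ x ∈ Ω, I.χ x = 0
  /-- the equation of the reference field in `Ω` -/
  eq : ∀ t ∈ Icc (0:ℝ) 1, ∃ p : En d → ℝ, ContDiffOn ℝ ((⊤ : ℕ∞) : WithTop ℕ∞) p Ω ∧ ∀ x ∈ Ω,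
    dtm I.u t x + I.b • (fderiv ℝ (I.u t) x (I.u t x) - lap (I.u t) x) =
      I.b • I.r t x + dtm I.Sa t x + (I.q ^ 12 * I.a t) • lieF (I.wv.U (I.q ^ 24 * t)) (I.Sa t) x + gd p x
  /-- the slow equation -/
  sl : ∀ t ∈ Icc (0:ℝ) 1,
    ‖PcD D (fun x => I.a t ^ 2 • lieF I.wv.Vb (I.Sa t) x + dtm I.Sa t x + I.fN t x)‖ ≤ δ
  /-- the drift is stable outside of the damping region -/
  CV0 : 0 ≤ CV
  CVM : CV ≤ M
  dr : ∀ x ∈ D, ∀ w : En d,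
    -⟪fderiv ℝ I.wv.Vb x w, w⟫ + 1 / 2 * dv I.wv.Vb x * ‖w‖ ^ 2 ≤ (CV + I.χ x) * ‖w‖ ^ 2
  δ0 : 0 ≤ δ
  δ1 : δ ≤ 1
  γ0 : 0 ≤ γ
  γ1 : γ ≤ 1
  /-- the residual is small in the dual of `V` -/
  rb : ∀ t ∈ Icc (0:ℝ) 1, ∀ v : VD D,
    I.b * |∫ x in D, ⟪I.r t x, ((io D v : HD D) : L2E d) x⟫| ≤ γ * ‖v‖

end

end Pool.Agent.Lib.MP_79abb3_an.W
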