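import Pool.Agent.Lib.MP_79abb3_an.W.BDc

/-!
Theorem W, block DE: bounded coefficients on `D`, the operators `OpD`, `MuD`, `PcD`.
-/

set_option autoImplicit false
set_option linter.unusedSectionVars false

open MeasureTheory Set Filter Topology Function
open scoped ENNReal RealInnerProductSpace

namespace Pool.Agent.Lib.MP_79abb3_an.W

section
variable {d : ℕ} {F : Type} [NormedAddCommGroup F] [NormedSpace ℝ F] {D : Set (En d)}

/-- measurable and bounded on `D` -/
structure Bm (D : Set (En d)) (f : En d → F) : Prop where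
  meas : AEStronglyMeasurable (D.indicator f) (volume : Measure (En d))
  bdd : ∃ c : ℝ, ∀ x ∈ D, ‖f x‖ ≤ c

theorem BD.bm [SecondCountableTopology F] (hD : IsOpen D) {f : En d → F} (h : BD D f) : Bm D f where
  meas := by
    rw [aestronglyMeasurable_indicator_iff hD.measurableSet]
    exact h.1.continuousOn.aestronglyMeasurable hD.measurableSet
  bdd := by
    obtain ⟨M, _, hM⟩ := h.exists_Bk 0
    exact ⟨M, fun x hx => hM.le0 hx⟩

theorem Bm.ind_bdd {f : En d → F} (h : Bm D f) : ∃ c : ℝ, 0 ≤ c ∧ ∀ x, ‖D.indicator f x‖ ≤ c := by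
  obtain ⟨c, hc⟩ := h.bdd
  refine ⟨max c 0, le_max_right _ _, fun x => ?_⟩
  by_cases hx : x ∈ D
  · rw [indicator_of_mem hx]
    exact (hc x hx).trans (le_max_left _ _)
  · rw [indicator_of_notMem hx, norm_zero]
    exact le_max_right _ _

theorem Bm.memLi {f : En d → F} (h : Bm D f) : MemLp (D.indicator f) ∞ (volume : Measure (En d)) := by
  obtain ⟨c, _, hc⟩ := h.ind_bdd
  exact W.memLi h.meas hc

theorem Bm.add {f g : En d → F} (hf : Bm D f) (hg : Bm D g) : Bm D (fun x => f x + g x) where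
  meas := by
    rw [indicator_add]
    exact hf.meas.add hg.meas
  bdd := by
    obtain ⟨c, hc⟩ := hf.bdd
    obtain ⟨c', hc'⟩ := hg.bdd
    exact ⟨c + c', fun x hx => (norm_add_le _ _).trans (add_le_add (hc x hx) (hc' x hx))⟩

theorem Bm.smul (c : ℝ) {f : En d → F} (hf : Bm D f) : Bm D (fun x => c • f x) where
  meas := by
    have h1 : D.indicator (fun x => c • f x) = fun x => c • D.indicator f x := indicator_const_smul D c f
    rw [h1]
    exact hf.meas.const_smul c
  bdd := by
    obtain ⟨c', hc'⟩ := hf.bdd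
    exact ⟨|c| * c', fun x hx => by
      rw [norm_smul, Real.norm_eq_abs]
      exact mul_le_mul_of_nonneg_left (hc' x hx) (abs_nonneg _)⟩

theorem Bm.zero : Bm D (fun _ : En d => (0 : F)) where
  meas := by
    rw [indicator_zero]
    exact aestronglyMeasurable_const
  bdd := ⟨0, fun _ _ => by rw [norm_zero]⟩

theorem Bm.apply {G : Type} [NormedAddCommGroup G] [NormedSpace ℝ G] {A : En d → F →L[ℝ] G} {f : En d → F}
    (hA : Bm D A) (hf : Bm D f) : Bm D (fun x => A x (f x)) where
  meas := by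
    have h1 : D.indicator (fun x => A x (f x)) = fun x => D.indicator A x (D.indicator f x) := by
      ext1 x
      by_cases hx : x ∈ D
      · rw [indicator_of_mem hx, indicator_of_mem hx, indicator_of_mem hx]
      · rw [indicator_of_notMem hx, indicator_of_notMem hx, indicator_of_notMem hx]
        simp
    rw [h1]
    exact isBoundedBilinearMap_apply.continuous.comp_aestronglyMeasurable (hA.meas.prodMk hf.meas)
  bdd := by
    obtain ⟨c, hc⟩ := hA.bdd
    obtain ⟨c', hc'⟩ := hf.bdd
    refine ⟨c * c', fun x hx => ((A x).le_opNorm (f x)).trans ?_⟩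
    exact mul_le_mul (hc x hx) (hc' x hx) (norm_nonneg _) ((norm_nonneg _).trans (hc x hx))

theorem BD.bm_fderiv [FiniteDimensional ℝ F] (hD : IsOpen D) {f : En d → F} (h : BD D f) : Bm D (_root_.fderiv ℝ f) := by
  have : SecondCountableTopology (En d →L[ℝ] F) := inferInstance
  exact (h.fderiv hD).bm hD

theorem Bm.sum {ι : Type} (s : Finset ι) {f : ι → En d → F} (h : ∀ i ∈ s, Bm D (f i)) :
    Bm D (fun x => ∑ i ∈ s, f i x) := by
  classical
  induction s using Finset.induction_on with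
  | empty => simpa using (Bm.zero : Bm D (fun _ : En d => (0 : F)))
  | insert a s ha ih =>
    have h1 := (h a (Finset.mem_insert_self a s)).add (ih fun i hi => h i (Finset.mem_insert_of_mem hi))
    have h2 : (fun x => ∑ i ∈ insert a s, f i x) = fun x => f a x + ∑ i ∈ s, f i x := by
      ext1 x; rw [Finset.sum_insert ha]
    rw [h2]
    exact h1

/-! ### Classes of bounded functions -/

theorem bf_coe {f : En d → F} (h : Bm D f) : (bf D f : En d → F) =ᵐ[volume] D.indicator f := cli_coe h.memLi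

theorem bf_le {f : En d → F} {c : ℝ} (hc : 0 ≤ c) (h : ∀ x ∈ D, ‖f x‖ ≤ c) : ‖bf D f‖ ≤ c := by
  refine cli_le hc fun x => ?_
  by_cases hx : x ∈ D
  · rw [indicator_of_mem hx]
    exact h x hx
  · rw [indicator_of_notMem hx, norm_zero]
    exact hc

theorem bf_congr {f g : En d → F} (h : ∀ x ∈ D, f x = g x) : bf D f = bf D g := by
  unfold bf
  rw [indicator_congr h]

theorem bf_add {f g : En d → F} (hf : Bm D f) (hg : Bm D g) : bf D (fun x => f x + g x) = bf D f + bf D g := by
  refine Lp.ext ?_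
  filter_upwards [bf_coe (hf.add hg), bf_coe hf, bf_coe hg, Lp.coeFn_add (bf D f) (bf D g)] with x h1 h2 h3 h4
  rw [h1, h4, Pi.add_apply, h2, h3, indicator_add]

theorem bf_smul (c : ℝ) {f : En d → F} (hf : Bm D f) : bf D (fun x => c • f x) = c • bf D f := by
  refine Lp.ext ?_
  filter_upwards [bf_coe (hf.smul c), bf_coe hf, Lp.coeFn_smul c (bf D f)] with x h1 h2 h3
  rw [h1, h3, Pi.smul_apply, h2]
  exact congrFun (indicator_const_smul D c f) x

theorem bf_zero : bf D (fun _ : En d => (0 : F)) = 0 := by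
  have h1 := bf_smul (D := D) (0 : ℝ) (Bm.zero (F := F))
  simpa using h1

/-! ### Square integrable fields -/

theorem Bm.memL2 (hb : Bornology.IsBounded D) {f : En d → F} (h : Bm D f) :
    MemLp (D.indicator f) 2 (volume : Measure (En d)) := by
  obtain ⟨c, _, hc⟩ := h.ind_bdd
  have h1 : MemLp (D.indicator f) ∞ (volume : Measure (En d)) := h.memLi
  obtain ⟨R, hR⟩ := hb.subset_closedBall (0 : En d)
  have h2 : MemLp (D.indicator f) ∞ (volume.restrict (Metric.closedBall (0 : En d) R)) := h1.restrict _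
  have : IsFiniteMeasure (volume.restrict (Metric.closedBall (0 : En d) R)) :=
    ⟨by rw [Measure.restrict_apply_univ]; exact measure_closedBall_lt_top⟩
  have h3 : MemLp (D.indicator f) 2 (volume.restrict (Metric.closedBall (0 : En d) R)) :=
    h2.mono_exponent le_top
  have h4 : (Metric.closedBall (0 : En d) R).indicator (D.indicator f) = D.indicator f := by
    rw [indicator_indicator, inter_eq_right.2 hR]
  rw [← h4]
  exact (memLp_indicator_iff_restrict Metric.isClosed_closedBall.measurableSet).2 h3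

theorem clI_coe (hb : Bornology.IsBounded D) {f : En d → En d} (h : Bm D f) :
    (cl (D.indicator f) : En d → En d) =ᵐ[volume] D.indicator f := cl_coe (h.memL2 hb)

theorem clI_add (hb : Bornology.IsBounded D) {f g : En d → En d} (hf : Bm D f) (hg : Bm D g) :
    cl (D.indicator fun x => f x + g x) = cl (D.indicator f) + cl (D.indicator g) := by
  rw [indicator_add]
  exact cl_add (hf.memL2 hb) (hg.memL2 hb)

theorem clI_smul (hb : Bornology.IsBounded D) (c : ℝ) {f : En d → En d} (hf : Bm D f) :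
    cl (D.indicator fun x => c • f x) = c • cl (D.indicator f) := by
  have h1 : D.indicator (fun x => c • f x) = fun x => c • D.indicator f x := indicator_const_smul D c f
  rw [h1]
  exact cl_smul c (hf.memL2 hb)

theorem clI_congr {f g : En d → En d} (h : ∀ x ∈ D, f x = g x) : cl (D.indicator f) = cl (D.indicator g) := by
  rw [indicator_congr h]

/-- the norm in `L²` -/
theorem clI_norm_sq (hD : MeasurableSet D) (hb : Bornology.IsBounded D) {f : En d → En d} (h : Bm D f) :
    ‖cl (D.indicator f)‖ ^ 2 = ∫ x in D, ‖f x‖ ^ 2 := by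
  rw [norm_sq_cl (h.memL2 hb), ← integral_indicator hD]
  refine integral_congr_ae (Eventually.of_forall fun x => ?_)
  show ‖D.indicator f x‖ ^ 2 = D.indicator (fun x => ‖f x‖ ^ 2) x
  by_cases hx : x ∈ D
  · rw [indicator_of_mem hx, indicator_of_mem hx]
  · rw [indicator_of_notMem hx, indicator_of_notMem hx, norm_zero, zero_pow two_ne_zero]

theorem clI_le (hD : MeasurableSet D) (hb : Bornology.IsBounded D) {f : En d → En d} {c : ℝ} (hc : 0 ≤ c)
    (hm : Bm D f) (h : ∀ x ∈ D, ‖f x‖ ≤ c) : ‖cl (D.indicator f)‖ ≤ Real.sqrt (volume.real D) * c := by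
  have hv : volume D < ∞ := hb.measure_lt_top
  refine le_of_sq_le_sq ?_ (by positivity)
  rw [clI_norm_sq hD hb hm, mul_pow, Real.sq_sqrt measureReal_nonneg]
  have h2 : IntegrableOn (fun _ : En d => c ^ 2) D := integrableOn_const hv.ne
  have h1 : IntegrableOn (fun x => ‖f x‖ ^ 2) D := by
    refine Integrable.mono' h2 ?_ ?_
    · have h3 : AEStronglyMeasurable f (volume.restrict D) :=
        (aestronglyMeasurable_indicator_iff hD).1 hm.meas
      exact (h3.norm.pow 2)
    · filter_upwards [ae_restrict_mem hD] with x hx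
      rw [Real.norm_eq_abs, abs_of_nonneg (by positivity)]
      exact pow_le_pow_left₀ (norm_nonneg _) (h x hx) 2
  refine (setIntegral_mono_on h1 h2 hD fun x hx => pow_le_pow_left₀ (norm_nonneg _) (h x hx) 2).trans ?_
  rw [setIntegral_const, smul_eq_mul]

/-! ### The Leray projection of fields on `D` -/

theorem PcD_add (hb : Bornology.IsBounded D) {f g : En d → En d} (hf : Bm D f) (hg : Bm D g) :
    PcD D (fun x => f x + g x) = PcD D f + PcD D g := by
  unfold PcD
  rw [clI_add hb hf hg, map_add]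

theorem PcD_smul (hb : Bornology.IsBounded D) (c : ℝ) {f : En d → En d} (hf : Bm D f) :
    PcD D (fun x => c • f x) = c • PcD D f := by
  unfold PcD
  rw [clI_smul hb c hf, map_smul]

theorem PcD_congr {f g : En d → En d} (h : ∀ x ∈ D, f x = g x) : PcD D f = PcD D g := by
  unfold PcD
  rw [clI_congr h]

theorem PcD_zero (hb : Bornology.IsBounded D) : PcD D (fun _ => 0) = 0 := by
  have h1 := PcD_smul hb (0 : ℝ) (Bm.zero (D := D) (F := En d))
  simpa using h1

theorem PcD_sum (hb : Bornology.IsBounded D) {ι : Type} (s : Finset ι) {f : ι → En d → En d}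
    (h : ∀ i ∈ s, Bm D (f i)) : PcD D (fun x => ∑ i ∈ s, f i x) = ∑ i ∈ s, PcD D (f i) := by
  classical
  induction s using Finset.induction_on with
  | empty => simpa using PcD_zero hb
  | insert a s ha ih =>
    have h2 : (fun x => ∑ i ∈ insert a s, f i x) = fun x => f a x + ∑ i ∈ s, f i x := by
      ext1 x; rw [Finset.sum_insert ha]
    rw [h2, PcD_add hb (h a (Finset.mem_insert_self a s))
      (Bm.sum s fun i hi => h i (Finset.mem_insert_of_mem hi)), Finset.sum_insert ha,
      ih fun i hi => h i (Finset.mem_insert_of_mem hi)]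

theorem PcD_le (hD : MeasurableSet D) (hb : Bornology.IsBounded D) {f : En d → En d} {c : ℝ} (hc : 0 ≤ c)
    (hm : Bm D f) (h : ∀ x ∈ D, ‖f x‖ ≤ c) : ‖PcD D f‖ ≤ Real.sqrt (volume.real D) * c :=
  (PD_le _).trans (clI_le hD hb hc hm h)

/-- scalar products with the projection -/
theorem inner_PcD (hD : MeasurableSet D) (hb : Bornology.IsBounded D) {f : En d → En d} (hm : Bm D f) (u : HD D) :
    ⟪PcD D f, u⟫ = ∫ x in D, ⟪f x, ((u : L2E d) : En d → En d) x⟫ := by
  unfold PcD
  rw [inner_PD, inner_L2, ← integral_indicator hD]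
  refine integral_congr_ae ?_
  filter_upwards [clI_coe hb hm] with x hx
  rw [hx]
  by_cases h : x ∈ D
  · rw [indicator_of_mem h, indicator_of_mem h]
  · rw [indicator_of_notMem h, indicator_of_notMem h, inner_zero_left]

/-! ### The operators -/

theorem OpD_apply (w : En d → En d) (A : En d → (En d →L[ℝ] En d)) (v : VD D) :
    OpD D w A v = PD D (tr0 d (bf D w) (v : G2E d) + mu0 d (bf D A) ((io D v : HD D) : L2E d)) := rfl

theorem MuD_apply (A : En d → (En d →L[ℝ] En d)) (u : HD D) : MuD D A u = PD D (mu0 d (bf D A) (u : L2E d)) := rfl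

theorem OpD_le_apply {w : En d → En d} {A : En d → (En d →L[ℝ] En d)} {c c' : ℝ} (hc : 0 ≤ c) (hc' : 0 ≤ c')
    (h : ∀ x ∈ D, ‖w x‖ ≤ c) (h' : ∀ x ∈ D, ‖A x‖ ≤ c') (v : VD D) :
    ‖OpD D w A v‖ ≤ c * ‖v‖ + c' * ‖io D v‖ := by
  rw [OpD_apply]
  refine (PD_le _).trans ((norm_add_le _ _).trans (add_le_add ?_ ?_))
  · exact (tr0_le _ _).trans (mul_le_mul_of_nonneg_right (bf_le hc h) (norm_nonneg _))
  · exact (mu0_le _ _).trans (mul_le_mul_of_nonneg_right (bf_le hc' h') (norm_nonneg _))

theorem OpD_le {w : En d → En d} {A : En d → (En d →L[ℝ] En d)} {c : ℝ} (hc : 0 ≤ c)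
    (h : ∀ x ∈ D, ‖w x‖ ≤ c) (h' : ∀ x ∈ D, ‖A x‖ ≤ c) : ‖OpD D w A‖ ≤ c * (1 + ‖io D‖) := by
  refine ContinuousLinearMap.opNorm_le_bound _ (by positivity) fun v => ?_
  refine (OpD_le_apply hc hc h h' v).trans ?_
  have h1 : ‖io D v‖ ≤ ‖io D‖ * ‖v‖ := (io D).le_opNorm v
  have h2 := mul_le_mul_of_nonneg_left h1 hc
  calc c * ‖v‖ + c * ‖io D v‖ ≤ c * ‖v‖ + c * (‖io D‖ * ‖v‖) := by gcongr
    _ = _ := by ring

theorem MuD_le {A : En d → (En d →L[ℝ] En d)} {c : ℝ} (hc : 0 ≤ c) (h : ∀ x ∈ D, ‖A x‖ ≤ c) : ‖MuD D A‖ ≤ c := by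
  refine ContinuousLinearMap.opNorm_le_bound _ hc fun u => ?_
  rw [MuD_apply]
  exact (PD_le _).trans ((mu0_le _ _).trans (mul_le_mul_of_nonneg_right (bf_le hc h) (norm_nonneg _)))

theorem OpD_congr {w w' : En d → En d} {A A' : En d → (En d →L[ℝ] En d)} (h : ∀ x ∈ D, w x = w' x)
    (h' : ∀ x ∈ D, A x = A' x) : OpD D w A = OpD D w' A' := by
  unfold OpD
  rw [bf_congr h, bf_congr h']

theorem OpD_add {w w' : En d → En d} {A A' : En d → (En d →L[ℝ] En d)} (hw : Bm D w) (hw' : Bm D w')
    (hA : Bm D A) (hA' : Bm D A') :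
    OpD D (fun x => w x + w' x) (fun x => A x + A' x) = OpD D w A + OpD D w' A' := by
  ext1 v
  rw [_root_.add_apply, OpD_apply, OpD_apply, OpD_apply, bf_add hw hw', bf_add hA hA', ← map_add]
  congr 1
  rw [map_add, map_add, _root_.add_apply, _root_.add_apply]
  abel

theorem OpD_smul (c : ℝ) {w : En d → En d} {A : En d → (En d →L[ℝ] En d)} (hw : Bm D w) (hA : Bm D A) :
    OpD D (fun x => c • w x) (fun x => c • A x) = c • OpD D w A := by
  ext1 v
  rw [_root_.smul_apply, OpD_apply, OpD_apply, bf_smul c hw, bf_smul c hA, ← map_smul]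
  congr 1
  rw [map_smul, map_smul, _root_.smul_apply, _root_.smul_apply, smul_add]

theorem OpD_zero : OpD D (fun _ => 0) (fun _ => 0) = 0 := by
  ext1 v
  rw [OpD_apply, bf_zero, bf_zero]
  simp

theorem OpD_sum {ι : Type} (s : Finset ι) {w : ι → En d → En d} {A : ι → En d → (En d →L[ℝ] En d)}
    (hw : ∀ i ∈ s, Bm D (w i)) (hA : ∀ i ∈ s, Bm D (A i)) :
    OpD D (fun x => ∑ i ∈ s, w i x) (fun x => ∑ i ∈ s, A i x) = ∑ i ∈ s, OpD D (w i) (A i) := by
  classical
  induction s using Finset.induction_on with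
  | empty => simpa using OpD_zero
  | insert a s ha ih =>
    have h2 : (fun x => ∑ i ∈ insert a s, w i x) = fun x => w a x + ∑ i ∈ s, w i x := by
      ext1 x; rw [Finset.sum_insert ha]
    have h3 : (fun x => ∑ i ∈ insert a s, A i x) = fun x => A a x + ∑ i ∈ s, A i x := by
      ext1 x; rw [Finset.sum_insert ha]
    rw [h2, h3, OpD_add (hw a (Finset.mem_insert_self a s))
      (Bm.sum s fun i hi => hw i (Finset.mem_insert_of_mem hi)) (hA a (Finset.mem_insert_self a s))
      (Bm.sum s fun i hi => hA i (Finset.mem_insert_of_mem hi)), Finset.sum_insert ha,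
      ih (fun i hi => hw i (Finset.mem_insert_of_mem hi)) fun i hi => hA i (Finset.mem_insert_of_mem hi)]

theorem MuD_add {A A' : En d → (En d →L[ℝ] En d)} (hA : Bm D A) (hA' : Bm D A') :
    MuD D (fun x => A x + A' x) = MuD D A + MuD D A' := by
  ext1 v
  rw [_root_.add_apply, MuD_apply, MuD_apply, MuD_apply, bf_add hA hA', ← map_add]
  congr 1
  rw [map_add, _root_.add_apply]

theorem MuD_smul (c : ℝ) {A : En d → (En d →L[ℝ] En d)} (hA : Bm D A) :
    MuD D (fun x => c • A x) = c • MuD D A := by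
  ext1 v
  rw [_root_.smul_apply, MuD_apply, MuD_apply, bf_smul c hA, ← map_smul]
  congr 1
  rw [map_smul, _root_.smul_apply]

/-- `⟪P(w·∇v + A v), u⟫` as an integral -/
theorem inner_OpD (hD : MeasurableSet D) {w : En d → En d} {A : En d → (En d →L[ℝ] En d)}
    (hw : Bm D w) (hA : Bm D A) (v : VD D) (u : HD D) :
    ⟪OpD D w A v, u⟫ = ∫ x in D, ⟪(∑ i, w x i • (gi v i : En d → En d) x) +
      A x ((((io D v : HD D) : L2E d) : En d → En d) x), ((u : L2E d) : En d → En d) x⟫ := by
  rw [OpD_apply, inner_PD, inner_L2, ← integral_indicator hD]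
  refine integral_congr_ae ?_
  filter_upwards [Lp.coeFn_add (tr0 d (bf D w) (v : G2E d)) (mu0 d (bf D A) ((io D v : HD D) : L2E d)),
    tr0_ae (bf D w) (v : G2E d), mu0_ae (bf D A) ((io D v : HD D) : L2E d), bf_coe hw, bf_coe hA] with x h1 h2 h3 h4 h5
  rw [h1, Pi.add_apply, h2, h3, h4, h5]
  by_cases h : x ∈ D
  · rw [indicator_of_mem h, indicator_of_mem h, indicator_of_mem h]
    rfl
  · rw [indicator_of_notMem h, indicator_of_notMem h, indicator_of_notMem h]
    simp

theorem inner_MuD (hD : MeasurableSet D) {A : En d → (En d →L[ℝ] En d)} (hA : Bm D A) (v u : HD D) :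
    ⟪MuD D A v, u⟫ = ∫ x in D, ⟪A x (((v : L2E d) : En d → En d) x), ((u : L2E d) : En d → En d) x⟫ := by
  rw [MuD_apply, inner_PD, inner_L2, ← integral_indicator hD]
  refine integral_congr_ae ?_
  filter_upwards [mu0_ae (bf D A) (v : L2E d), bf_coe hA] with x h3 h5
  rw [h3, h5]
  by_cases h : x ∈ D
  · rw [indicator_of_mem h, indicator_of_mem h]
  · rw [indicator_of_notMem h, indicator_of_notMem h]
    simp

/-- the operator on test fields -/
theorem OpD_vT (hm0 : IsOpen D) (hb : Bornology.IsBounded D) {w : En d → En d} {A : En d → (En d →L[ℝ] En d)}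
    (hw : Bm D w) (hA : Bm D A) (φ : TS D) :
    OpD D w A (vT D φ) = PcD D fun x => fderiv ℝ (φ : En d → En d) x (w x) + A x ((φ : En d → En d) x) := by
  have hm : Bm D fun x => fderiv ℝ (φ : En d → En d) x (w x) + A x ((φ : En d → En d) x) := by
    exact ((BD.bm_fderiv hm0 (Smo.bd hb (TS.ts φ).smooth)).apply hw).add (hA.apply (BD.bm hm0 (Smo.bd hb (TS.ts φ).smooth)))
  rw [OpD_apply]
  unfold PcD
  congr 1
  rw [io_vT hb]
  refine Lp.ext ?_
  have h6 : ∀ i, (((vT D φ : VD D) : G2E d) i : En d → En d) =ᵐ[volume] pd i (φ : En d → En d) := fun i =>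
    cl_coe (((TS.ts φ).toIsTe.pd i).memLp 2)
  have h7 : (((hT D φ : HD D) : L2E d) : En d → En d) =ᵐ[volume] (φ : En d → En d) := cl_coe ((TS.ts φ).memLp 2)
  filter_upwards [Lp.coeFn_add (tr0 d (bf D w) ((vT D φ : VD D) : G2E d)) (mu0 d (bf D A) ((hT D φ : HD D) : L2E d)),
    tr0_ae (bf D w) ((vT D φ : VD D) : G2E d), mu0_ae (bf D A) ((hT D φ : HD D) : L2E d), bf_coe hw, bf_coe hA,
    ae_all_iff.2 h6, h7, clI_coe hb hm] with x h1 h2 h3 h4 h5 h6 h7 h8
  rw [h1, Pi.add_apply, h2, h3, h4, h5, h7, h8]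
  by_cases h : x ∈ D
  · rw [indicator_of_mem h, indicator_of_mem h, indicator_of_mem h, fderiv_eq_sum]
    congr 1
    exact Finset.sum_congr rfl fun i _ => by rw [h6 i]
  · rw [indicator_of_notMem h, indicator_of_notMem h, indicator_of_notMem h]
    simp

end

end Pool.Agent.Lib.MP_79abb3_an.W
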