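import Pool.Agent.Lib.MP_79abb3_an.W.BDc
import Pool.Agent.Lib.MP_79abb3_an.W.DH1

/-!
Theorem W, block DE: the generator `LvD` and its formal adjoint `LpD`.
-/

set_option autoImplicit false
set_option linter.unusedSectionVars false

open MeasureTheory Set Filter Topology Function
open scoped ENNReal RealInnerProductSpace

namespace Pool.Agent.Lib.MP_79abb3_an.W

section
variable {d : ℕ} {F G E : Type} [NormedAddCommGroup F] [NormedSpace ℝ F] [NormedAddCommGroup G] [NormedSpace ℝ G]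
  [NormedAddCommGroup E] [NormedSpace ℝ E] {D : Set (En d)}

/-- The product of a function which is smooth on `D` with a test function is a test function. -/
theorem IsTe.bilin (hD : IsOpen D) (B : F →L[ℝ] G →L[ℝ] E) {a : En d → F} {φ : En d → G}
    (ha : ContDiffOn ℝ ((⊤ : ℕ∞) : WithTop ℕ∞) a D) (hφ : IsTe D φ) : IsTe D (fun x => B (a x) (φ x)) := by
  have hs : support (fun x => B (a x) (φ x)) ⊆ support φ := fun x hx h0 => hx (by
    show B (a x) (φ x) = 0
    rw [h0, map_zero])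
  refine ⟨contDiff_iff_contDiffAt.2 fun x => ?_, hφ.cpt.mono hs, (closure_mono hs).trans hφ.supp⟩
  by_cases hx : x ∈ D
  · exact (B.contDiff.contDiffAt.comp x (ha.contDiffAt (hD.mem_nhds hx))).clm_apply
      (ContDiff.contDiffAt hφ.smooth)
  · have h1 : x ∉ tsupport φ := fun h => hx (hφ.supp h)
    have h2 : ∀ᶠ y in 𝓝 x, φ y = 0 := by
      filter_upwards [(isClosed_tsupport φ).isOpen_compl.mem_nhds h1] with y hy
      exact image_eq_zero_of_notMem_tsupport hy
    refine (contDiffAt_const (c := (0 : E))).congr_of_eventuallyEq ?_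
    filter_upwards [h2] with y hy
    rw [hy, map_zero]

theorem IsTe.bilin' (hD : IsOpen D) (B : F →L[ℝ] G →L[ℝ] E) {a : En d → G} {φ : En d → F}
    (ha : ContDiffOn ℝ ((⊤ : ℕ∞) : WithTop ℕ∞) a D) (hφ : IsTe D φ) : IsTe D (fun x => B (φ x) (a x)) :=
  IsTe.bilin hD B.flip ha hφ

theorem IsTe.zero_off {φ : En d → F} (hφ : IsTe D φ) {x : En d} (hx : x ∉ D) : φ x = 0 :=
  image_eq_zero_of_notMem_tsupport fun h => hx (hφ.supp h)

theorem IsTe.fder {φ : En d → F} (hφ : IsTe D φ) : IsTe D (fderiv ℝ φ) where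
  smooth := ContDiff.fderiv_right hφ.smooth (by exact_mod_cast le_top)
  cpt := hφ.cpt.fderiv ℝ
  supp := (closure_minimal (support_fderiv_subset ℝ) (isClosed_tsupport φ)).trans hφ.supp

theorem IsTe.sub_fun {φ ψ : En d → F} (hφ : IsTe D φ) (hψ : IsTe D ψ) : IsTe D (fun x => φ x - ψ x) := by
  have h1 := hφ.add (hψ.smul (-1))
  have h2 : (fun x => φ x - ψ x) = fun x => φ x + (-1 : ℝ) • ψ x := by
    ext1 x; rw [neg_one_smul, sub_eq_add_neg]
  rw [h2]
  exact h1

theorem IsTe.bd {φ : En d → F} (hb : Bornology.IsBounded D) (hφ : IsTe D φ) : BD D φ := Smo.bd hb hφ.smooth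

/-- the formal adjoint of the Lie derivative, pointwise: `φ·∇w - (div w) φ - w·∇φ` -/
noncomputable def lpF (w φ : En d → En d) (x : En d) : En d := Dd w x (φ x) - fderiv ℝ φ x (w x)

end

section
variable {d : ℕ} {D : Set (En d)}

theorem isTe_lpF (hD : IsOpen D) {w φ : En d → En d} (hw : BD D w) (hφ : IsTe D φ) : IsTe D (lpF w φ) := by
  have h1 : IsTe D (fun x => Dd w x (φ x)) :=
    IsTe.bilin hD (ContinuousLinearMap.id ℝ (En d →L[ℝ] En d)) (hw.Dd hD).1 hφ
  have h2 : IsTe D (fun x => fderiv ℝ φ x (w x)) :=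
    IsTe.bilin' hD (ContinuousLinearMap.id ℝ (En d →L[ℝ] En d)) hw.1 hφ.fder
  exact h1.sub_fun h2

/-- **Integration by parts.** `∫ ⟪L_w ω, φ⟫ = ∫ ⟪ω, L'_w φ⟫` for `ω` smooth on `D`, `φ` a test field. -/
theorem int_lieF (hD : IsOpen D) {w ω φ : En d → En d} (hw : BD D w) (hω : BD D ω) (hφ : IsTe D φ) :
    ∫ x in D, ⟪lieF w ω x, φ x⟫ = ∫ x in D, ⟪ω x, lpF w φ x⟫ := by
  set X : En d → En d := fun x => ⟪ω x, φ x⟫ • w x with hX
  have hX1 : IsTe D (fun x => ⟪ω x, φ x⟫) := IsTe.bilin hD (innerSL ℝ) hω.1 hφ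
  have hXt : IsTe D X := IsTe.bilin' hD (ContinuousLinearMap.lsmul ℝ ℝ) hw.1 hX1
  have h0 := int_dv hXt.smooth hXt.cpt
  have hsupp : ∀ x, x ∉ D → dv X x = 0 := by
    intro x hx
    have h1 : x ∉ tsupport X := fun h => hx (hXt.supp h)
    have h2 : fderiv ℝ X x = 0 := by
      by_contra h3
      exact h1 (support_fderiv_subset ℝ h3)
    rw [dv_eq, h2, map_zero]
  rw [← setIntegral_eq_integral_of_forall_compl_eq_zero hsupp] at h0
  -- the pointwise identity
  have hpt : ∀ x ∈ D, dv X x = ⟪lieF w ω x, φ x⟫ - ⟪ω x, lpF w φ x⟫ := by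
    intro x hx
    have dw := hw.differentiableAt hD hx
    have dω := hω.differentiableAt hD hx
    have dφ : DifferentiableAt ℝ φ x := hφ.smooth.differentiable x
    have e1 : ∀ y, fderiv ℝ X x y = (⟪ω x, fderiv ℝ φ x y⟫ + ⟪fderiv ℝ ω x y, φ x⟫) • w x +
        ⟪ω x, φ x⟫ • fderiv ℝ w x y := by
      intro y
      have h1 : DifferentiableAt ℝ (fun x => ⟪ω x, φ x⟫) x := dω.inner ℝ dφ
      rw [hX, fderiv_fun_smul h1 dw]
      show ⟪ω x, φ x⟫ • fderiv ℝ w x y + fderiv ℝ (fun x => ⟪ω x, φ x⟫) x y • w x = _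
      rw [fderiv_inner_apply ℝ dω dφ, add_comm]
    have e2 : dv X x = (⟪ω x, fderiv ℝ φ x (w x)⟫ + ⟪fderiv ℝ ω x (w x), φ x⟫) +
        dv w x * ⟪ω x, φ x⟫ := by
      have h1 : dv X x = ∑ i : Fin d, (((⟪ω x, fderiv ℝ φ x (ei i)⟫ + ⟪fderiv ℝ ω x (ei i), φ x⟫) * w x i) +
          ⟪ω x, φ x⟫ * fderiv ℝ w x (ei i) i) := by
        rw [dv_eq, trL_apply]
        refine Finset.sum_congr rfl fun i _ => ?_
        rw [e1]
        simp [smul_eq_mul]
      rw [h1, Finset.sum_add_distrib, ← Finset.mul_sum, dv_eq, trL_apply]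
      congr 1
      · have h2 : w x = ∑ i, w x i • ei i := by
          ext j
          simp [ei, Pi.single_apply]
        have h3 : ∀ f : En d → En d, fderiv ℝ f x (w x) = ∑ i, w x i • fderiv ℝ f x (ei i) :=
          fun f => fderiv_eq_sum f x (w x)
        rw [h3 φ, h3 ω, inner_sum, sum_inner, ← Finset.sum_add_distrib]
        refine Finset.sum_congr rfl fun i _ => ?_
        rw [real_inner_smul_left, real_inner_smul_right]
        ring
      · ring
    rw [e2]
    unfold lieF lpF Dd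
    rw [inner_add_left, ContinuousLinearMap.adjoint_inner_left, inner_sub_right]
    have e3 : (fderiv ℝ w x - dv w x • ContinuousLinearMap.id ℝ (En d)) (φ x) =
        fderiv ℝ w x (φ x) - dv w x • φ x := rfl
    rw [e3, inner_sub_right, real_inner_smul_right]
    ring
  have hi1 : IntegrableOn (fun x => ⟪lieF w ω x, φ x⟫) D := by
    have h1 : IsTe D (fun x => ⟪lieF w ω x, φ x⟫) := IsTe.bilin hD (innerSL ℝ) (hw.lieF hD hω).1 hφ
    exact (h1.smooth.continuous.integrable_of_hasCompactSupport h1.cpt).integrableOn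
  have hi2 : IntegrableOn (fun x => ⟪ω x, lpF w φ x⟫) D := by
    have h1 : IsTe D (fun x => ⟪ω x, lpF w φ x⟫) := IsTe.bilin hD (innerSL ℝ) hω.1 (isTe_lpF hD hw hφ)
    exact (h1.smooth.continuous.integrable_of_hasCompactSupport h1.cpt).integrableOn
  have h4 : ∫ x in D, dv X x = ∫ x in D, (⟪lieF w ω x, φ x⟫ - ⟪ω x, lpF w φ x⟫) :=
    setIntegral_congr_fun hD.measurableSet hpt
  rw [h0, integral_sub hi1 hi2] at h4
  linarith

/-- **The formal adjoint maps test fields to test fields**: `L'_w φ = -div (φ ⊗ w - w ⊗ φ)`. -/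
theorem isTs_lpF (hD : IsOpen D) {w φ : En d → En d} (hw : BD D w) (hφ : IsTs D φ) : IsTs D (lpF w φ) := by
  refine ⟨isTe_lpF hD hw hφ.toIsTe, fun x => ?_⟩
  -- the antisymmetric potential
  set Em : Fin d → Fin d → En d → ℝ := fun i j x => w x j * φ x i - φ x j * w x i with hEm
  have hwi : ∀ i : Fin d, ContDiffOn ℝ ((⊤ : ℕ∞) : WithTop ℕ∞) (fun x => w x i) D := fun i =>
    (EuclideanSpace.proj i : En d →L[ℝ] ℝ).contDiff.comp_contDiffOn hw.1
  have hφi : ∀ i : Fin d, IsTe D (fun x => φ x i) := fun i =>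
    ⟨(EuclideanSpace.proj i : En d →L[ℝ] ℝ).contDiff.comp hφ.smooth,
      hφ.cpt.comp_left (g := fun y : En d => y i) rfl,
      (closure_mono (fun x (hx : x ∈ support fun x => φ x i) (h0 : φ x = 0) => hx (by
        show φ x i = 0; rw [h0]; rfl))).trans hφ.supp⟩
  have hE : ∀ i j, IsTe D (Em i j) := fun i j => by
    have h1 : IsTe D (fun x => w x j * φ x i) := IsTe.bilin hD (ContinuousLinearMap.mul ℝ ℝ) (hwi j) (hφi i)
    have h2 : IsTe D (fun x => φ x j * w x i) := IsTe.bilin' hD (ContinuousLinearMap.mul ℝ ℝ) (hwi i) (hφi j)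
    exact h1.sub_fun h2
  have hanti : ∀ i j x, Em i j x = -Em j i x := fun i j x => by simp only [hEm]; ring
  -- the components of the field
  have hcomp : ∀ i y, lpF w φ y i = -∑ j, pd j (Em i j) y := by
    intro i y
    by_cases hy : y ∈ D
    · have dw := hw.differentiableAt hD hy
      have dφ : DifferentiableAt ℝ φ y := hφ.smooth.differentiable y
      have hc : ∀ (f : En d → En d) (k l : Fin d), DifferentiableAt ℝ f y → pd k (fun x => f x l) y = fderiv ℝ f y (ei k) l := by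
        intro f k l hf
        have h1 : HasFDerivAt (fun x => f x l) ((EuclideanSpace.proj l : En d →L[ℝ] ℝ).comp (fderiv ℝ f y)) y :=
          (EuclideanSpace.proj l : En d →L[ℝ] ℝ).hasFDerivAt.comp y hf.hasFDerivAt
        show fderiv ℝ (fun x => f x l) y (ei k) = _
        rw [h1.fderiv]
        rfl
      have hdc : ∀ (f : En d → En d) (l : Fin d), DifferentiableAt ℝ f y → DifferentiableAt ℝ (fun x => f x l) y :=
        fun f l hf => (EuclideanSpace.proj l : En d →L[ℝ] ℝ).differentiableAt.comp y hf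
      have hprod : ∀ (f g : En d → ℝ) (k : Fin d), DifferentiableAt ℝ f y → DifferentiableAt ℝ g y →
          pd k (fun x => f x * g x) y = f y * pd k g y + g y * pd k f y := by
        intro f g k hf hg
        show fderiv ℝ (fun x => f x * g x) y (ei k) = _
        rw [fderiv_fun_mul hf hg]
        rfl
      have h1 : ∀ j, pd j (Em i j) y = (w y j * fderiv ℝ φ y (ei j) i + φ y i * fderiv ℝ w y (ei j) j) -
          (φ y j * fderiv ℝ w y (ei j) i + w y i * fderiv ℝ φ y (ei j) j) := by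
        intro j
        have h2 : pd j (Em i j) y = pd j (fun x => w x j * φ x i) y - pd j (fun x => φ x j * w x i) y := by
          show fderiv ℝ (fun x => w x j * φ x i - φ x j * w x i) y (ei j) = _
          rw [fderiv_fun_sub ((hdc w j dw).fun_mul (hdc φ i dφ)) ((hdc φ j dφ).fun_mul (hdc w i dw))]
          rfl
        rw [h2, hprod _ _ j (hdc w j dw) (hdc φ i dφ), hprod _ _ j (hdc φ j dφ) (hdc w i dw), hc φ j i dφ, hc w j j dw,
          hc w j i dw, hc φ j j dφ]
      rw [Finset.sum_congr rfl fun j _ => h1 j, Finset.sum_sub_distrib, Finset.sum_add_distrib,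
        Finset.sum_add_distrib, ← Finset.mul_sum, ← Finset.mul_sum]
      have h3 : (∑ j : Fin d, fderiv ℝ w y (ei j) j) = dv w y := rfl
      have h4 : (∑ j : Fin d, fderiv ℝ φ y (ei j) j) = 0 := hφ.div y
      have h5 : ∀ f g : En d → En d, (∑ j, g y j * fderiv ℝ f y (ei j) i) = fderiv ℝ f y (g y) i := by
        intro f g
        have h6 := fderiv_eq_sum f y (g y)
        rw [h6]
        simp [pd, Finset.sum_apply]
      rw [h3, h4, h5 φ w, h5 w φ]
      unfold lpF Dd
      have e3 : (fderiv ℝ w y - dv w y • ContinuousLinearMap.id ℝ (En d)) (φ y) =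
          fderiv ℝ w y (φ y) - dv w y • φ y := rfl
      rw [e3]
      simp only [PiLp.sub_apply, PiLp.smul_apply, smul_eq_mul]
      ring
    · have h1 : lpF w φ y = 0 := (isTe_lpF hD hw hφ.toIsTe).zero_off hy
      rw [h1]
      have h2 : ∀ j, pd j (Em i j) y = 0 := fun j => ((hE i j).pd j).zero_off hy
      simp [h2]
  have hs : Smo (lpF w φ) := (isTe_lpF hD hw hφ.toIsTe).smooth
  have h1 : dv (lpF w φ) x = ∑ i, pd i (fun y => lpF w φ y i) x :=
    Finset.sum_congr rfl fun i _ => (pd_apply hs i i x).symm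
  rw [h1]
  have h2 : ∀ i : Fin d, pd i (fun y => lpF w φ y i) x = -∑ j, pd i (pd j (Em i j)) x := by
    intro i
    have h3 : (fun y => lpF w φ y i) = fun y => -∑ j, pd j (Em i j) y := funext fun y => hcomp i y
    rw [h3]
    show fderiv ℝ (fun y => -∑ j, pd j (Em i j) y) x (ei i) = _
    have h4 : ∀ j ∈ Finset.univ, DifferentiableAt ℝ (fun y => pd j (Em i j) y) x := fun j _ =>
      ((hE i j).smooth.pd j).differentiable x
    rw [fderiv_fun_neg, fderiv_fun_sum h4]
    show -((∑ j, fderiv ℝ (fun y => pd j (Em i j) y) x) (ei i)) = _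
    rw [_root_.sum_apply]
    rfl
  rw [Finset.sum_congr rfl fun i _ => h2 i, Finset.sum_neg_distrib, neg_eq_zero]
  have h5 : ∑ i, ∑ j, pd i (pd j (Em i j)) x = -∑ i, ∑ j, pd i (pd j (Em i j)) x := by
    conv_lhs => rw [Finset.sum_comm]
    rw [← Finset.sum_neg_distrib]
    refine Finset.sum_congr rfl fun i _ => ?_
    rw [← Finset.sum_neg_distrib]
    refine Finset.sum_congr rfl fun j _ => ?_
    rw [pd_comm (hE j i).smooth j i x]
    have h6 : Em j i = fun y => (-1 : ℝ) • Em i j y := funext fun y => by rw [hanti j i y]; simp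
    have h7 : pd j (Em j i) = fun y => (-1 : ℝ) • pd j (Em i j) y := by
      rw [h6]; exact pd_smul _ (hE i j).smooth j
    rw [h7, pd_smul _ ((hE i j).smooth.pd j) i]
    simp
  linarith

end

end Pool.Agent.Lib.MP_79abb3_an.W
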