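import Pool.Agent.Lib.MP_79abb3_an.W.DEa
import Pool.Agent.Lib.MP_79abb3_an.W.DEb

/-!
Theorem W, block DE: adjoint, symmetric part and commutator of the generators.
-/

set_option autoImplicit false
set_option linter.unusedSectionVars false

open MeasureTheory Set Filter Topology Function
open scoped ENNReal RealInnerProductSpace

namespace Pool.Agent.Lib.MP_79abb3_an.W

section
variable {d : ℕ} {D : Set (En d)}

theorem ind_test {φ : En d → En d} (hφ : IsTe D φ) : D.indicator φ = φ := by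
  ext1 x
  by_cases hx : x ∈ D
  · rw [indicator_of_mem hx]
  · rw [indicator_of_notMem hx, hφ.zero_off hx]

theorem PcD_test (φ : TS D) : PcD D (φ : En d → En d) = hT D φ := by
  unfold PcD
  rw [ind_test (TS.ts φ).toIsTe, ← hT_coe, PD_coe]

theorem inner_PcD_hT (hD : IsOpen D) (hb : Bornology.IsBounded D) {f : En d → En d} (hf : Bm D f) (φ : TS D) :
    ⟪PcD D f, hT D φ⟫ = ∫ x in D, ⟪f x, (φ : En d → En d) x⟫ := by
  rw [inner_PcD hD.measurableSet hb hf]
  have h7 : (((hT D φ : HD D) : L2E d) : En d → En d) =ᵐ[volume] (φ : En d → En d) := cl_coe ((TS.ts φ).memLp 2)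
  refine integral_congr_ae (ae_restrict_of_ae ?_)
  filter_upwards [h7] with x hx
  rw [hx]

theorem LvD_vT (hD : IsOpen D) (hb : Bornology.IsBounded D) {w : En d → En d} (hw : BD D w) (φ : TS D) :
    LvD D w (vT D φ) = PcD D (lieF w (φ : En d → En d)) :=
  OpD_vT hD hb (hw.bm hD) ((hw.Dt hD).bm hD) φ

theorem LpD_vT (hD : IsOpen D) (hb : Bornology.IsBounded D) {w : En d → En d} (hw : BD D w) (φ : TS D) :
    LpD D w (vT D φ) = hT D ⟨lpF w (φ : En d → En d), isTs_lpF hD hw (TS.ts φ)⟩ := by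
  have hA : BD D (fun x => -Dd w x) := (hw.Dd hD).neg hD
  have h1 : LpD D w (vT D φ) = (-1 : ℝ) • PcD D (fun x => fderiv ℝ (φ : En d → En d) x (w x) +
      (-Dd w x) ((φ : En d → En d) x)) := by
    unfold LpD
    rw [neg_one_smul]
    show -(OpD D w (fun x => -Dd w x) (vT D φ)) = _
    rw [OpD_vT hD hb (hw.bm hD) (hA.bm hD) φ]
  have hm : Bm D (fun x => fderiv ℝ (φ : En d → En d) x (w x) + (-Dd w x) ((φ : En d → En d) x)) :=
    ((BD.bm_fderiv hD ((TS.ts φ).toIsTe.bd hb)).apply (hw.bm hD)).add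
      ((hA.bm hD).apply (((TS.ts φ).toIsTe.bd hb).bm hD))
  rw [h1, ← PcD_smul hb _ hm, ← PcD_test]
  refine PcD_congr fun x _ => ?_
  show (-1 : ℝ) • (fderiv ℝ (φ : En d → En d) x (w x) + (-Dd w x) ((φ : En d → En d) x)) =
    Dd w x ((φ : En d → En d) x) - fderiv ℝ (φ : En d → En d) x (w x)
  rw [neg_one_smul]
  show -(fderiv ℝ (φ : En d → En d) x (w x) + -(Dd w x ((φ : En d → En d) x))) = _
  abel

/-- `⟪P L_w s, φ⟫ = ∫ ⟪s, L'_w φ⟫` for a field `s` of class `BD` without any boundary condition -/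
theorem PcD_lieF_hT (hD : IsOpen D) (hb : Bornology.IsBounded D) {w s : En d → En d} (hw : BD D w) (hs : BD D s)
    (φ : TS D) : ⟪PcD D (lieF w s), hT D φ⟫ = ∫ x in D, ⟪s x, lpF w (φ : En d → En d) x⟫ := by
  rw [inner_PcD_hT hD hb ((hw.lieF hD hs).bm hD), int_lieF hD hw hs (TS.ts φ).toIsTe]

/-- the same with the formal adjoint on the right side -/
theorem PcD_LpD (hD : IsOpen D) (hb : Bornology.IsBounded D) {w s : En d → En d} (hw : BD D w) (hs : BD D s)
    (φ : TS D) : ⟪PcD D s, LpD D w (vT D φ)⟫ = ∫ x in D, ⟪lieF w s x, (φ : En d → En d) x⟫ := by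
  rw [LpD_vT hD hb hw, inner_PcD_hT hD hb (hs.bm hD), int_lieF hD hw hs (TS.ts φ).toIsTe]

private theorem dec_io_cont : Continuous fun v : VD D => io D v := (io D).continuous

/-- **The adjoint.** -/
theorem adj_LvD (hD : IsOpen D) (hb : Bornology.IsBounded D) {w : En d → En d} (hw : BD D w) (v φ : VD D) :
    ⟪LvD D w v, io D φ⟫ = ⟪io D v, LpD D w φ⟫ := by
  refine (vT_dense D).induction_on (p := fun v : VD D => ⟪LvD D w v, io D φ⟫ = ⟪io D v, LpD D w φ⟫) v ?_ ?_
  · exact isClosed_eq ((LvD D w).continuous.inner continuous_const) ((io D).continuous.inner continuous_const)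
  intro ψ
  refine (vT_dense D).induction_on (p := fun φ : VD D => ⟪LvD D w (vT D ψ), io D φ⟫ = ⟪io D (vT D ψ), LpD D w φ⟫)
    φ ?_ ?_
  · exact isClosed_eq (continuous_const.inner (io D).continuous) (continuous_const.inner (LpD D w).continuous)
  intro χ
  rw [LvD_vT hD hb hw, io_vT hb, io_vT hb, PcD_lieF_hT hD hb hw ((TS.ts ψ).toIsTe.bd hb), LpD_vT hD hb hw,
    ← PcD_test ψ, inner_PcD_hT hD hb (((TS.ts ψ).toIsTe.bd hb).bm hD)]

/-- **The symmetric part.** -/
theorem sym_LvD (hD : IsOpen D) {w : En d → En d} (hw : BD D w) (v : VD D) :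
    LvD D w v + LpD D w v = (2 : ℝ) • MuD D (Ds w) (io D v) := by
  have hA : BD D (fun x => -Dd w x) := (hw.Dd hD).neg hD
  have hB : BD D (fun x => Dt w x + Dd w x) := (hw.Dt hD).add hD (hw.Dd hD)
  have h1 : bf D (fun x => Dt w x + Dd w x) = bf D (Dt w) - bf D (fun x => -Dd w x) := by
    have h2 : bf D (fun x => -Dd w x) = (-1 : ℝ) • bf D (Dd w) := by
      rw [← bf_smul _ ((hw.Dd hD).bm hD)]
      exact bf_congr fun x _ => by rw [neg_one_smul]
    rw [h2, neg_one_smul, sub_neg_eq_add]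
    exact bf_add ((hw.Dt hD).bm hD) ((hw.Dd hD).bm hD)
  have h3 : (2 : ℝ) • MuD D (Ds w) (io D v) = MuD D (fun x => Dt w x + Dd w x) (io D v) := by
    have h4 : MuD D (Ds w) = (1 / 2 : ℝ) • MuD D (fun x => Dt w x + Dd w x) := by
      rw [← MuD_smul _ (hB.bm hD)]
      rfl
    rw [h4]
    show (2 : ℝ) • ((1 / 2 : ℝ) • (MuD D (fun x => Dt w x + Dd w x) (io D v))) = _
    rw [smul_smul]
    norm_num
  rw [h3]
  show OpD D w (Dt w) v + -(OpD D w (fun x => -Dd w x) v) = _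
  rw [OpD_apply, OpD_apply, MuD_apply, h1, ← sub_eq_add_neg, ← map_sub, add_sub_add_left_eq_sub]
  congr 1
  rw [map_sub]
  rfl

theorem Ds_symm (w : En d → En d) (x y y' : En d) : ⟪Ds w x y, y'⟫ = ⟪y, Ds w x y'⟫ := by
  unfold Ds Dt Dd
  have h1 : ∀ y y' : En d, ⟪((1 / 2 : ℝ) • (ContinuousLinearMap.adjoint (fderiv ℝ w x) +
      (fderiv ℝ w x - dv w x • ContinuousLinearMap.id ℝ (En d)))) y, y'⟫ =
      1 / 2 * (⟪y, fderiv ℝ w x y'⟫ + ⟪fderiv ℝ w x y, y'⟫ - dv w x * ⟪y, y'⟫) := by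
    intro y y'
    show ⟪(1 / 2 : ℝ) • (ContinuousLinearMap.adjoint (fderiv ℝ w x) y + (fderiv ℝ w x y - dv w x • y)), y'⟫ = _
    rw [real_inner_smul_left, inner_add_left, inner_sub_left, real_inner_smul_left,
      ContinuousLinearMap.adjoint_inner_left]
    ring
  refine (h1 y y').trans (Eq.trans ?_ (real_inner_comm _ _))
  rw [h1 y' y, real_inner_comm y' y, real_inner_comm y' (fderiv ℝ w x y), real_inner_comm y (fderiv ℝ w x y')]
  ring

theorem MuD_symm (hD : IsOpen D) {A : En d → (En d →L[ℝ] En d)} (hA : Bm D A)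
    (hs : ∀ x ∈ D, ∀ y y', ⟪A x y, y'⟫ = ⟪y, A x y'⟫) (u v : HD D) : ⟪MuD D A u, v⟫ = ⟪u, MuD D A v⟫ := by
  rw [real_inner_comm _ u, inner_MuD hD.measurableSet hA, inner_MuD hD.measurableSet hA]
  refine setIntegral_congr_fun hD.measurableSet fun x hx => ?_
  show ⟪A x _, _⟫ = ⟪A x _, _⟫
  rw [hs x hx, real_inner_comm]

/-- **The commutator of Lie derivatives.** -/
theorem lieF_comm (hD : IsOpen D) {p r s : En d → En d} (hp : BD D p) (hr : BD D r) (hs : BD D s) {x : En d}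
    (hx : x ∈ D) : lieF p (lieF r s) x - lieF r (lieF p s) x = lieF (brk p r) s x := by
  -- first derivatives
  have h1 : ∀ {f : En d → En d}, BD D f → HasFDerivAt f (fderiv ℝ f x) x := fun hf =>
    (hf.differentiableAt hD hx).hasFDerivAt
  have h2 : ∀ {f : En d → En d}, BD D f → HasFDerivAt (fderiv ℝ f) (fderiv ℝ (fderiv ℝ f) x) x := fun hf =>
    ((hf.fderiv hD).differentiableAt hD hx).hasFDerivAt
  have hsym : ∀ {f : En d → En d}, BD D f → ∀ y y', fderiv ℝ (fderiv ℝ f) x y y' = fderiv ℝ (fderiv ℝ f) x y' y := by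
    intro f hf y y'
    have h4 : minSmoothness ℝ 2 ≤ ((⊤ : ℕ∞) : WithTop ℕ∞) := by
      rw [minSmoothness_of_isRCLikeNormedField]
      exact WithTop.coe_le_coe.2 (le_top : (2 : ℕ∞) ≤ ⊤)
    exact ((hf.contDiffAt hD hx).isSymmSndFDerivAt h4).eq _ _
  -- the derivative of a Lie derivative
  have h3 : ∀ {u w : En d → En d}, BD D u → BD D w → ∀ y, fderiv ℝ (lieF u w) x y =
      fderiv ℝ (fderiv ℝ w) x y (u x) + fderiv ℝ w x (fderiv ℝ u x y) +
      (ContinuousLinearMap.adjoint (fderiv ℝ (fderiv ℝ u) x y) (w x) +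
        ContinuousLinearMap.adjoint (fderiv ℝ u x) (fderiv ℝ w x y)) := by
    intro u w hu hw y
    have e1 : HasFDerivAt (fun x => fderiv ℝ w x (u x)) _ x := (h2 hw).clm_apply (h1 hu)
    have e2 : HasFDerivAt (fun x => adjL d (fderiv ℝ u x)) ((adjL d).comp (fderiv ℝ (fderiv ℝ u) x)) x :=
      (adjL d).hasFDerivAt.comp x (h2 hu)
    have e3 := e1.add (e2.clm_apply (h1 hw))
    have e4 : HasFDerivAt (lieF u w) _ x := e3
    rw [e4.fderiv]
    simp only [_root_.add_apply, ContinuousLinearMap.comp_apply, ContinuousLinearMap.flip_apply]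
    rw [adjL_apply, adjL_apply]
    abel
  have hb3 : ∀ y, fderiv ℝ (brk p r) x y = (fderiv ℝ (fderiv ℝ r) x y (p x) + fderiv ℝ r x (fderiv ℝ p x y)) -
      (fderiv ℝ (fderiv ℝ p) x y (r x) + fderiv ℝ p x (fderiv ℝ r x y)) := by
    intro y
    have e1 : HasFDerivAt (fun x => fderiv ℝ r x (p x)) _ x := (h2 hr).clm_apply (h1 hp)
    have e2 : HasFDerivAt (fun x => fderiv ℝ p x (r x)) _ x := (h2 hp).clm_apply (h1 hr)
    have e4 : HasFDerivAt (brk p r) _ x := e1.sub e2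
    rw [e4.fderiv]
    simp only [_root_.add_apply, _root_.sub_apply, ContinuousLinearMap.comp_apply, ContinuousLinearMap.flip_apply]
    abel
  refine ext_inner_right ℝ fun y => ?_
  rw [inner_sub_left]
  have e5 : ∀ {u w : En d → En d}, ⟪lieF u w x, y⟫ = ⟪fderiv ℝ w x (u x), y⟫ + ⟪w x, fderiv ℝ u x y⟫ := by
    intro u w
    unfold lieF
    rw [inner_add_left, ContinuousLinearMap.adjoint_inner_left]
  have e6 : ∀ {u w : En d → En d} (y : En d), ⟪lieF u w x, y⟫ = ⟪fderiv ℝ w x (u x), y⟫ + ⟪w x, fderiv ℝ u x y⟫ := by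
    intro u w y
    unfold lieF
    rw [inner_add_left, ContinuousLinearMap.adjoint_inner_left]
  rw [e6, e6 y, e6 y, h3 hr hs, h3 hp hs, e6, e6, hb3]
  simp only [inner_add_left, inner_add_right, inner_sub_right, ContinuousLinearMap.adjoint_inner_left]
  rw [hsym hs (p x) (r x), hsym hr (p x) y, hsym hp (r x) y]
  have e7 : brk p r x = fderiv ℝ r x (p x) - fderiv ℝ p x (r x) := rfl
  rw [e7, map_sub, inner_sub_left]
  ring

end

end Pool.Agent.Lib.MP_79abb3_an.W
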