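import Pool.Agent.Lib.MP_79abb3_an.W.EDef

/-!
Theorem W, block DE: fast generators from finite families of generators and integer frequencies; the drift.
-/

set_option autoImplicit false
set_option linter.unusedSectionVars false

open MeasureTheory Set Filter Topology Function
open scoped InnerProductSpace

namespace Pool.Agent.Lib.MP_79abb3_an.W

/-! ### Trigonometric integrals -/

theorem int_cos (m : ℤ) : ∫ θ in (0:ℝ)..2 * Real.pi, Real.cos (m * θ) = if m = 0 then 2 * Real.pi else 0 := by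
  by_cases hm : m = 0
  · subst hm
    simp
  · have hm' : (m : ℝ) ≠ 0 := by exact_mod_cast hm
    rw [if_neg hm, intervalIntegral.integral_comp_mul_left _ hm', integral_cos]
    have h1 : Real.sin ((m : ℝ) * (2 * Real.pi)) = 0 := by
      have h2 := Real.sin_int_mul_pi (2 * m)
      push_cast at h2
      rw [← h2]
      ring_nf
    rw [h1, mul_zero, Real.sin_zero, sub_zero, smul_zero]

theorem int_sin (m : ℤ) : ∫ θ in (0:ℝ)..2 * Real.pi, Real.sin (m * θ) = 0 := by
  by_cases hm : m = 0
  · subst hm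
    simp
  · have hm' : (m : ℝ) ≠ 0 := by exact_mod_cast hm
    rw [intervalIntegral.integral_comp_mul_left _ hm', integral_sin]
    have h1 : Real.cos ((m : ℝ) * (2 * Real.pi)) = 1 := Real.cos_int_mul_two_pi m
    rw [h1, mul_zero, Real.cos_zero, sub_self, smul_zero]

private theorem ded_c (m : ℤ) : Continuous fun θ : ℝ => Real.cos (m * θ) := by fun_prop
private theorem ded_s (m : ℤ) : Continuous fun θ : ℝ => Real.sin (m * θ) := by fun_prop

theorem int_cos_cos {k l : ℕ} (hk : 0 < k) (_ : 0 < l) :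
    ∫ θ in (0:ℝ)..2 * Real.pi, Real.cos (k * θ) * Real.cos (l * θ) = if k = l then Real.pi else 0 := by
  have h1 : ∀ θ : ℝ, Real.cos (k * θ) * Real.cos (l * θ) =
      1 / 2 * Real.cos (((k - l : ℤ) : ℝ) * θ) + 1 / 2 * Real.cos (((k + l : ℤ) : ℝ) * θ) := by
    intro θ
    push_cast
    rw [sub_mul, add_mul, Real.cos_sub, Real.cos_add]
    ring
  simp only [h1]
  rw [intervalIntegral.integral_add (((ded_c _).const_mul _ |>.intervalIntegrable _ _))
    (((ded_c _).const_mul _ |>.intervalIntegrable _ _)), intervalIntegral.integral_const_mul,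
    intervalIntegral.integral_const_mul, int_cos, int_cos]
  have h2 : ((k : ℤ) + l) ≠ 0 := by omega
  rw [if_neg h2]
  by_cases h : k = l
  · subst h
    simp
  · have h3 : ((k : ℤ) - l) ≠ 0 := by omega
    rw [if_neg h3, if_neg h]
    ring

theorem int_sin_sin {k l : ℕ} (hk : 0 < k) (_ : 0 < l) :
    ∫ θ in (0:ℝ)..2 * Real.pi, Real.sin (k * θ) * Real.sin (l * θ) = if k = l then Real.pi else 0 := by
  have h1 : ∀ θ : ℝ, Real.sin (k * θ) * Real.sin (l * θ) =
      1 / 2 * Real.cos (((k - l : ℤ) : ℝ) * θ) + (-1 / 2) * Real.cos (((k + l : ℤ) : ℝ) * θ) := by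
    intro θ
    push_cast
    rw [sub_mul, add_mul, Real.cos_sub, Real.cos_add]
    ring
  simp only [h1]
  rw [intervalIntegral.integral_add (((ded_c _).const_mul _ |>.intervalIntegrable _ _))
    (((ded_c _).const_mul _ |>.intervalIntegrable _ _)), intervalIntegral.integral_const_mul,
    intervalIntegral.integral_const_mul, int_cos, int_cos]
  have h2 : ((k : ℤ) + l) ≠ 0 := by omega
  rw [if_neg h2]
  by_cases h : k = l
  · subst h
    simp
  · have h3 : ((k : ℤ) - l) ≠ 0 := by omega
    rw [if_neg h3, if_neg h]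
    ring

theorem int_sin_cos (k l : ℕ) :
    ∫ θ in (0:ℝ)..2 * Real.pi, Real.sin (k * θ) * Real.cos (l * θ) = 0 := by
  have h1 : ∀ θ : ℝ, Real.sin (k * θ) * Real.cos (l * θ) =
      1 / 2 * Real.sin (((k + l : ℤ) : ℝ) * θ) + 1 / 2 * Real.sin (((k - l : ℤ) : ℝ) * θ) := by
    intro θ
    push_cast
    rw [sub_mul, add_mul, Real.sin_sub, Real.sin_add]
    ring
  simp only [h1]
  rw [intervalIntegral.integral_add (((ded_s _).const_mul _ |>.intervalIntegrable _ _))
    (((ded_s _).const_mul _ |>.intervalIntegrable _ _)), intervalIntegral.integral_const_mul,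
    intervalIntegral.integral_const_mul, int_sin, int_sin]
  ring

section
variable {H V : Type} [NormedAddCommGroup H] [InnerProductSpace ℝ H] [NormedAddCommGroup V]
  [InnerProductSpace ℝ V]

/-- A generator with its formal adjoint and its symmetric part. -/
structure Gen (ι : V →L[ℝ] H) where
  A : V →L[ℝ] H
  A' : V →L[ℝ] H
  S : H →L[ℝ] H
  adj : ∀ v φ, ⟪A v, ι φ⟫_ℝ = ⟪ι v, A' φ⟫_ℝ
  sym : ∀ v, A v + A' v = (2 : ℝ) • S (ι v)
  sS : ∀ x y, ⟪S x, y⟫_ℝ = ⟪x, S y⟫_ℝ

/-- a trigonometric polynomial -/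
noncomputable def tp {X : Type} [NormedAddCommGroup X] [NormedSpace ℝ X] {n : ℕ} (α : Fin n → ℕ)
    (x y : Fin n → X) (θ : ℝ) : X := ∑ j, (Real.cos (α j * θ) • x j + Real.sin (α j * θ) • y j)

/-- its primitive -/
noncomputable def tq {X : Type} [NormedAddCommGroup X] [NormedSpace ℝ X] {n : ℕ} (α : Fin n → ℕ)
    (x y : Fin n → X) (θ : ℝ) : X := ∑ j, (α j : ℝ)⁻¹ • (Real.sin (α j * θ) • x j - Real.cos (α j * θ) • y j)

section
variable {X : Type} [NormedAddCommGroup X] [NormedSpace ℝ X] {n : ℕ} (α : Fin n → ℕ) (x y : Fin n → X)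

theorem tp_cont : Continuous (tp α x y) := by
  unfold tp
  fun_prop

theorem tp_per (θ : ℝ) : tp α x y (θ + 2 * Real.pi) = tp α x y θ := by
  unfold tp
  refine Finset.sum_congr rfl fun j _ => ?_
  have h1 : (α j : ℝ) * (θ + 2 * Real.pi) = α j * θ + α j * (2 * Real.pi) := by ring
  rw [h1, Real.cos_add_nat_mul_two_pi, Real.sin_add_nat_mul_two_pi]

theorem tq_per (θ : ℝ) : tq α x y (θ + 2 * Real.pi) = tq α x y θ := by
  unfold tq
  refine Finset.sum_congr rfl fun j _ => ?_
  have h1 : (α j : ℝ) * (θ + 2 * Real.pi) = α j * θ + α j * (2 * Real.pi) := by ring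
  rw [h1, Real.cos_add_nat_mul_two_pi, Real.sin_add_nat_mul_two_pi]

theorem tq_deriv (hα : ∀ j, 0 < α j) (θ : ℝ) : HasDerivAt (tq α x y) (tp α x y θ) θ := by
  unfold tq tp
  refine HasDerivAt.fun_sum fun j _ => ?_
  have h0 : HasDerivAt (fun θ : ℝ => (α j : ℝ) * θ) (α j) θ := by
    simpa using (hasDerivAt_id θ).const_mul (α j : ℝ)
  have h1 := (h0.sin.smul_const (x j)).sub (h0.cos.smul_const (y j))
  have hj : (α j : ℝ) ≠ 0 := by exact_mod_cast (hα j).ne'
  have h2 : HasDerivAt (fun θ => (α j : ℝ)⁻¹ • (Real.sin (α j * θ) • x j - Real.cos (α j * θ) • y j)) _ θ :=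
    h1.const_smul (α j : ℝ)⁻¹
  refine h2.congr_deriv ?_
  rw [smul_sub, smul_smul, smul_smul, sub_eq_add_neg, ← neg_smul]
  congr 2
  · field_simp
  · field_simp

theorem tq_cont (hα : ∀ j, 0 < α j) : Continuous (tq α x y) :=
  continuous_iff_continuousAt.2 fun θ => (tq_deriv α x y hα θ).continuousAt

theorem tp_le {M : ℝ} (hx : ∀ j, ‖x j‖ ≤ M) (hy : ∀ j, ‖y j‖ ≤ M) (θ : ℝ) : ‖tp α x y θ‖ ≤ n * (2 * M) := by
  unfold tp
  refine (norm_sum_le _ _).trans ?_
  have h1 : ∀ j ∈ (Finset.univ : Finset (Fin n)),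
      ‖Real.cos (α j * θ) • x j + Real.sin (α j * θ) • y j‖ ≤ 2 * M := by
    intro j _
    refine (norm_add_le _ _).trans ?_
    rw [norm_smul, norm_smul, Real.norm_eq_abs, Real.norm_eq_abs]
    have h2 := mul_le_mul (Real.abs_cos_le_one (α j * θ)) (hx j) (norm_nonneg _) zero_le_one
    have h3 := mul_le_mul (Real.abs_sin_le_one (α j * θ)) (hy j) (norm_nonneg _) zero_le_one
    linarith
  refine (Finset.sum_le_sum h1).trans ?_
  rw [Finset.sum_const, Finset.card_univ, Fintype.card_fin, nsmul_eq_mul]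

theorem tq_le (hα : ∀ j, 0 < α j) {M : ℝ} (hx : ∀ j, ‖x j‖ ≤ M) (hy : ∀ j, ‖y j‖ ≤ M) (θ : ℝ) :
    ‖tq α x y θ‖ ≤ n * (2 * M) := by
  unfold tq
  refine (norm_sum_le _ _).trans ?_
  have h1 : ∀ j ∈ (Finset.univ : Finset (Fin n)),
      ‖(α j : ℝ)⁻¹ • (Real.sin (α j * θ) • x j - Real.cos (α j * θ) • y j)‖ ≤ 2 * M := by
    intro j _
    have hM : 0 ≤ M := (norm_nonneg _).trans (hx j)
    have h4 : ‖Real.sin (α j * θ) • x j - Real.cos (α j * θ) • y j‖ ≤ 2 * M := by
      refine (norm_sub_le _ _).trans ?_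
      rw [norm_smul, norm_smul, Real.norm_eq_abs, Real.norm_eq_abs]
      have h2 := mul_le_mul (Real.abs_cos_le_one (α j * θ)) (hy j) (norm_nonneg _) zero_le_one
      have h3 := mul_le_mul (Real.abs_sin_le_one (α j * θ)) (hx j) (norm_nonneg _) zero_le_one
      linarith
    rw [norm_smul, Real.norm_eq_abs, abs_of_nonneg (by positivity)]
    have h5 : (α j : ℝ)⁻¹ ≤ 1 := inv_le_one_of_one_le₀ (by exact_mod_cast hα j)
    calc (α j : ℝ)⁻¹ * _ ≤ 1 * (2 * M) := mul_le_mul h5 h4 (norm_nonneg _) zero_le_one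
      _ = _ := one_mul _
  refine (Finset.sum_le_sum h1).trans ?_
  rw [Finset.sum_const, Finset.card_univ, Fintype.card_fin, nsmul_eq_mul]

end

/-- Fast generators from a finite family. -/
noncomputable def fastF (ι : V →L[ℝ] H) {n : ℕ} (α : Fin n → ℕ) (hα : ∀ j, 0 < α j) (G G' : Fin n → Gen ι) :
    Fast H V where
  ι := ι
  A := tp α (fun j => (G j).A) fun j => (G' j).A
  A' := tp α (fun j => (G j).A') fun j => (G' j).A'
  B := tq α (fun j => (G j).A) fun j => (G' j).A
  S := tp α (fun j => (G j).S) fun j => (G' j).S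
  cA := tp_cont _ _ _
  cA' := tp_cont _ _ _
  cS := tp_cont _ _ _
  dB := tq_deriv _ _ _ hα
  pA := tp_per _ _ _
  pA' := tp_per _ _ _
  pB := tq_per _ _ _
  pS := tp_per _ _ _
  adj θ v φ := by
    simp only [tp, sum_apply, add_apply, smul_apply, sum_inner, inner_sum, inner_add_left, inner_add_right,
      real_inner_smul_left, real_inner_smul_right, (G _).adj, (G' _).adj]
  sym θ v := by
    simp only [tp, sum_apply, add_apply, smul_apply]
    rw [← Finset.sum_add_distrib, Finset.smul_sum]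
    refine Finset.sum_congr rfl fun j _ => ?_
    have h1 := (G j).sym v
    have h2 := (G' j).sym v
    rw [smul_add, smul_comm (2 : ℝ), smul_comm (2 : ℝ) (Real.sin _), ← h1, ← h2]
    module
  sS θ x y := by
    simp only [tp, sum_apply, add_apply, smul_apply, sum_inner, inner_sum, inner_add_left, inner_add_right,
      real_inner_smul_left, real_inner_smul_right, (G _).sS, (G' _).sS]
  mS x y := by
    simp only [tp, sum_apply, add_apply, smul_apply, sum_inner, inner_add_left, real_inner_smul_left]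
    rw [intervalIntegral.integral_finsetSum]
    · refine Finset.sum_eq_zero fun j _ => ?_
      have hc : Continuous fun θ : ℝ => Real.cos (α j * θ) := by fun_prop
      have hs : Continuous fun θ : ℝ => Real.sin (α j * θ) := by fun_prop
      have ha : IntervalIntegrable (fun θ : ℝ => Real.cos (α j * θ) * ⟪(G j).S x, y⟫_ℝ) volume 0 (2 * Real.pi) :=
        (hc.mul continuous_const).intervalIntegrable _ _
      have hb : IntervalIntegrable (fun θ : ℝ => Real.sin (α j * θ) * ⟪(G' j).S x, y⟫_ℝ) volume 0 (2 * Real.pi) :=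
        (hs.mul continuous_const).intervalIntegrable _ _
      rw [intervalIntegral.integral_add ha hb, intervalIntegral.integral_mul_const,
        intervalIntegral.integral_mul_const]
      have h1 := int_cos (α j)
      have h2 := int_sin (α j)
      have h3 : (α j : ℤ) ≠ 0 := by exact_mod_cast (hα j).ne'
      rw [if_neg h3] at h1
      push_cast at h1 h2
      rw [h1, h2]
      ring
    · intro j _
      have hc : Continuous fun θ : ℝ => Real.cos (α j * θ) := by fun_prop
      have hs : Continuous fun θ : ℝ => Real.sin (α j * θ) := by fun_prop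
      exact ((hc.mul continuous_const).add (hs.mul continuous_const)).intervalIntegrable _ _

/-- **The drift** of a finite family with distinct frequencies. -/
theorem fastF_drS (ι : V →L[ℝ] H) {n : ℕ} (α : Fin n → ℕ) (hα : ∀ j, 0 < α j) (hi : Injective α)
    (G G' : Fin n → Gen ι) (x y : Fin n → H) (φ : V) :
    (fastF ι α hα G G').drS (tq α x y) φ =
      ∑ j, (2 * α j : ℝ)⁻¹ * (⟪y j, (G j).A' φ⟫_ℝ - ⟪x j, (G' j).A' φ⟫_ℝ) := by
  have h1 : ∀ θ, ⟪tq α x y θ, (fastF ι α hα G G').A' θ φ⟫_ℝ = ∑ j, ∑ k, (α j : ℝ)⁻¹ *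
      ((Real.sin (α j * θ) * Real.cos (α k * θ)) * ⟪x j, (G k).A' φ⟫_ℝ +
        (Real.sin (α j * θ) * Real.sin (α k * θ)) * ⟪x j, (G' k).A' φ⟫_ℝ -
        (Real.cos (α j * θ) * Real.cos (α k * θ)) * ⟪y j, (G k).A' φ⟫_ℝ -
        (Real.sin (α k * θ) * Real.cos (α j * θ)) * ⟪y j, (G' k).A' φ⟫_ℝ) := by
    intro θ
    show ⟪tq α x y θ, tp α (fun j => (G j).A') (fun j => (G' j).A') θ φ⟫_ℝ = _
    simp only [tp, tq, sum_apply, add_apply, smul_apply, sum_inner, inner_sum]
    rw [Finset.sum_comm]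
    refine Finset.sum_congr rfl fun j _ => Finset.sum_congr rfl fun k _ => ?_
    simp only [inner_add_right, inner_sub_left, real_inner_smul_left, real_inner_smul_right]
    ring
  have hcc : ∀ j k : Fin n, Continuous fun θ : ℝ => Real.cos (α j * θ) * Real.cos (α k * θ) := fun j k => by fun_prop
  have hss : ∀ j k : Fin n, Continuous fun θ : ℝ => Real.sin (α j * θ) * Real.sin (α k * θ) := fun j k => by fun_prop
  have hsc : ∀ j k : Fin n, Continuous fun θ : ℝ => Real.sin (α j * θ) * Real.cos (α k * θ) := fun j k => by fun_prop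
  have h2 : ∀ j k : Fin n, ∫ θ in (0:ℝ)..2 * Real.pi, (α j : ℝ)⁻¹ *
      ((Real.sin (α j * θ) * Real.cos (α k * θ)) * ⟪x j, (G k).A' φ⟫_ℝ +
        (Real.sin (α j * θ) * Real.sin (α k * θ)) * ⟪x j, (G' k).A' φ⟫_ℝ -
        (Real.cos (α j * θ) * Real.cos (α k * θ)) * ⟪y j, (G k).A' φ⟫_ℝ -
        (Real.sin (α k * θ) * Real.cos (α j * θ)) * ⟪y j, (G' k).A' φ⟫_ℝ) =
      if j = k then (α j : ℝ)⁻¹ * (Real.pi * ⟪x j, (G' k).A' φ⟫_ℝ - Real.pi * ⟪y j, (G k).A' φ⟫_ℝ) else 0 := by
    intro j k
    rw [intervalIntegral.integral_const_mul, intervalIntegral.integral_sub, intervalIntegral.integral_sub,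
      intervalIntegral.integral_add, intervalIntegral.integral_mul_const, intervalIntegral.integral_mul_const,
      intervalIntegral.integral_mul_const, intervalIntegral.integral_mul_const, int_sin_cos, int_sin_cos,
      int_sin_sin (hα j) (hα k), int_cos_cos (hα j) (hα k)]
    · by_cases h : j = k
      · subst h
        simp
      · have h' : α j ≠ α k := fun h0 => h (hi h0)
        rw [if_neg h', if_neg h]
        ring
    · exact ((hsc j k).mul continuous_const).intervalIntegrable _ _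
    · exact ((hss j k).mul continuous_const).intervalIntegrable _ _
    · exact (((hsc j k).mul continuous_const).add ((hss j k).mul continuous_const)).intervalIntegrable _ _
    · exact ((hcc j k).mul continuous_const).intervalIntegrable _ _
    · exact ((((hsc j k).mul continuous_const).add ((hss j k).mul continuous_const)).sub
        ((hcc j k).mul continuous_const)).intervalIntegrable _ _
    · exact ((hsc k j).mul continuous_const).intervalIntegrable _ _
  have hint : ∀ j k : Fin n, IntervalIntegrable (fun θ : ℝ => (α j : ℝ)⁻¹ *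
      ((Real.sin (α j * θ) * Real.cos (α k * θ)) * ⟪x j, (G k).A' φ⟫_ℝ +
        (Real.sin (α j * θ) * Real.sin (α k * θ)) * ⟪x j, (G' k).A' φ⟫_ℝ -
        (Real.cos (α j * θ) * Real.cos (α k * θ)) * ⟪y j, (G k).A' φ⟫_ℝ -
        (Real.sin (α k * θ) * Real.cos (α j * θ)) * ⟪y j, (G' k).A' φ⟫_ℝ)) volume 0 (2 * Real.pi) := by
    intro j k
    refine Continuous.intervalIntegrable ?_ _ _
    exact continuous_const.mul (((((hsc j k).mul continuous_const).add ((hss j k).mul continuous_const)).sub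
      ((hcc j k).mul continuous_const)).sub ((hsc k j).mul continuous_const))
  have hint' : ∀ j : Fin n, IntervalIntegrable (fun θ : ℝ => ∑ k, (α j : ℝ)⁻¹ *
      ((Real.sin (α j * θ) * Real.cos (α k * θ)) * ⟪x j, (G k).A' φ⟫_ℝ +
        (Real.sin (α j * θ) * Real.sin (α k * θ)) * ⟪x j, (G' k).A' φ⟫_ℝ -
        (Real.cos (α j * θ) * Real.cos (α k * θ)) * ⟪y j, (G k).A' φ⟫_ℝ -
        (Real.sin (α k * θ) * Real.cos (α j * θ)) * ⟪y j, (G' k).A' φ⟫_ℝ)) volume 0 (2 * Real.pi) := by
    intro j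
    refine Continuous.intervalIntegrable (continuous_finsetSum _ fun k _ => ?_) _ _
    exact continuous_const.mul (((((hsc j k).mul continuous_const).add ((hss j k).mul continuous_const)).sub
      ((hcc j k).mul continuous_const)).sub ((hsc k j).mul continuous_const))
  unfold Fast.drS
  simp only [h1]
  rw [intervalIntegral.integral_finsetSum fun j _ => hint' j]
  rw [Finset.mul_sum, ← Finset.sum_neg_distrib]
  refine Finset.sum_congr rfl fun j _ => ?_
  rw [intervalIntegral.integral_finsetSum fun k _ => hint j k, Finset.sum_congr rfl fun k _ => h2 j k,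
    Finset.sum_ite_eq Finset.univ j]
  simp only [Finset.mem_univ, if_true]
  have hj : (α j : ℝ) ≠ 0 := by exact_mod_cast (hα j).ne'
  field_simp
  ring

end

end Pool.Agent.Lib.MP_79abb3_an.W
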