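import Pool.Agent.Lib.MP_79abb3_an.W.DEc
import Pool.Agent.Lib.MP_79abb3_an.W.DEd

/-!
Theorem W, block DE: the fast generators of a family of waves, the drift.
-/

set_option autoImplicit false
set_option linter.unusedSectionVars false

open MeasureTheory Set Filter Topology Function
open scoped ENNReal RealInnerProductSpace

namespace Pool.Agent.Lib.MP_79abb3_an.W

section
variable {d : ℕ} {D : Set (En d)}

/-- The generator of a field of class `BD`. -/
noncomputable def genD (hD : IsOpen D) (hb : Bornology.IsBounded D) {w : En d → En d} (hw : BD D w) :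
    Gen (io D) where
  A := LvD D w
  A' := LpD D w
  S := MuD D (Ds w)
  adj := adj_LvD hD hb hw
  sym := sym_LvD hD hw
  sS := MuD_symm hD ((hw.Ds hD).bm hD) fun x _ y y' => Ds_symm w x y y'

/-- The fast generators of a family of waves. -/
noncomputable def Wav.fast (W : Wav d) (hD : IsOpen D) (hb : Bornology.IsBounded D) (hα : ∀ j, 0 < W.α j)
    (hp : ∀ j, BD D (W.p j)) (hr : ∀ j, BD D (W.r j)) : Fast (HD D) (VD D) :=
  fastF (io D) W.α hα (fun j => genD hD hb (hp j)) fun j => genD hD hb (hr j)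

theorem Wav.bdVb (W : Wav d) (hD : IsOpen D) (hp : ∀ j, BD D (W.p j)) (hr : ∀ j, BD D (W.r j)) : BD D W.Vb :=
  BD.sum hD _ fun j _ => ((hp j).brk hD (hr j)).const_smul hD _

/-- the Lie derivative is linear in the transporting field -/
theorem lieF_sum (hD : IsOpen D) {n : ℕ} {c : Fin n → ℝ} {u : Fin n → En d → En d} (hu : ∀ j, BD D (u j))
    (s : En d → En d) {x : En d} (hx : x ∈ D) :
    lieF (fun x => ∑ j, c j • u j x) s x = ∑ j, c j • lieF (u j) s x := by
  have h1 : fderiv ℝ (fun x => ∑ j, c j • u j x) x = ∑ j, c j • fderiv ℝ (u j) x := by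
    rw [fderiv_fun_sum fun j _ => ((hu j).differentiableAt hD hx).fun_const_smul (c j)]
    exact Finset.sum_congr rfl fun j _ => fderiv_fun_const_smul ((hu j).differentiableAt hD hx) (c j)
  unfold lieF
  rw [h1, ← adjL_apply, map_sum, map_sum]
  simp only [map_smul, sum_apply, smul_apply, adjL_apply, smul_add, Finset.sum_add_distrib]

/-- **The drift of the slow field.** -/
theorem Wav.drS_eq (W : Wav d) (hD : IsOpen D) (hb : Bornology.IsBounded D) (hα : ∀ j, 0 < W.α j)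
    (hi : Injective W.α) (hp : ∀ j, BD D (W.p j)) (hr : ∀ j, BD D (W.r j)) {s : En d → En d} (hs : BD D s)
    (φ : VD D) : (W.fast hD hb hα hp hr).drS (tq W.α (fun j => PcD D (lieF (W.p j) s))
      fun j => PcD D (lieF (W.r j) s)) φ = ⟪PcD D (lieF W.Vb s), io D φ⟫ := by
  unfold Wav.fast
  rw [fastF_drS _ _ _ hi]
  refine (vT_dense D).induction_on (p := fun φ : VD D =>
    ∑ j, (2 * W.α j : ℝ)⁻¹ * (⟪PcD D (lieF (W.r j) s), (genD hD hb (hp j)).A' φ⟫ -
      ⟪PcD D (lieF (W.p j) s), (genD hD hb (hr j)).A' φ⟫) = ⟪PcD D (lieF W.Vb s), io D φ⟫) φ ?_ ?_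
  · refine isClosed_eq (continuous_finsetSum _ fun j _ => ?_) (continuous_const.inner (io D).continuous)
    exact continuous_const.mul ((continuous_const.inner (genD hD hb (hp j)).A'.continuous).sub
      (continuous_const.inner (genD hD hb (hr j)).A'.continuous))
  intro χ
  have hχ : BD D (χ : En d → En d) := (TS.ts χ).toIsTe.bd hb
  have hint : ∀ {f : En d → En d}, BD D f → IntegrableOn (fun x => ⟪f x, (χ : En d → En d) x⟫) D := by
    intro f hf
    have h1 : IsTe D (fun x => ⟪f x, (χ : En d → En d) x⟫) := IsTe.bilin hD (innerSL ℝ) hf.1 (TS.ts χ).toIsTe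
    exact (h1.smooth.continuous.integrable_of_hasCompactSupport h1.cpt).integrableOn
  have h1 : ∀ j, ⟪PcD D (lieF (W.r j) s), (genD hD hb (hp j)).A' (vT D χ)⟫ -
      ⟪PcD D (lieF (W.p j) s), (genD hD hb (hr j)).A' (vT D χ)⟫ =
      ∫ x in D, ⟪lieF (brk (W.p j) (W.r j)) s x, (χ : En d → En d) x⟫ := by
    intro j
    show ⟪PcD D (lieF (W.r j) s), LpD D (W.p j) (vT D χ)⟫ - ⟪PcD D (lieF (W.p j) s), LpD D (W.r j) (vT D χ)⟫ = _
    rw [PcD_LpD hD hb (hp j) ((hr j).lieF hD hs), PcD_LpD hD hb (hr j) ((hp j).lieF hD hs),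
      ← integral_sub (hint ((hp j).lieF hD ((hr j).lieF hD hs))) (hint ((hr j).lieF hD ((hp j).lieF hD hs)))]
    refine setIntegral_congr_fun hD.measurableSet fun x hx => ?_
    show ⟪lieF (W.p j) (lieF (W.r j) s) x, _⟫ - ⟪lieF (W.r j) (lieF (W.p j) s) x, _⟫ = _
    rw [← inner_sub_left, lieF_comm hD (hp j) (hr j) hs hx]
  rw [Finset.sum_congr rfl fun j _ => by rw [h1 j], io_vT hb,
    inner_PcD_hT hD hb ((((W.bdVb hD hp hr).lieF hD hs)).bm hD)]
  have h2 : ∀ j : Fin W.n, (2 * W.α j : ℝ)⁻¹ * ∫ x in D, ⟪lieF (brk (W.p j) (W.r j)) s x, (χ : En d → En d) x⟫ =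
      ∫ x in D, (2 * W.α j : ℝ)⁻¹ * ⟪lieF (brk (W.p j) (W.r j)) s x, (χ : En d → En d) x⟫ := fun j =>
    (integral_const_mul _ _).symm
  rw [Finset.sum_congr rfl fun j _ => h2 j, ← integral_finsetSum _ fun j _ =>
    (hint (((hp j).brk hD (hr j)).lieF hD hs)).const_mul _]
  refine setIntegral_congr_fun hD.measurableSet fun x hx => ?_
  show ∑ j, (2 * W.α j : ℝ)⁻¹ * ⟪lieF (brk (W.p j) (W.r j)) s x, (χ : En d → En d) x⟫ = ⟪lieF W.Vb s x, _⟫
  have h3 : lieF W.Vb s x = ∑ j, (2 * W.α j : ℝ)⁻¹ • lieF (brk (W.p j) (W.r j)) s x :=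
    lieF_sum hD (fun j => (hp j).brk hD (hr j)) s hx
  rw [h3, sum_inner]
  exact Finset.sum_congr rfl fun j _ => (real_inner_smul_left _ _ _).symm

/-- **The drift form.** -/
theorem Wav.dr_eq (W : Wav d) (hD : IsOpen D) (hb : Bornology.IsBounded D) (hα : ∀ j, 0 < W.α j)
    (hi : Injective W.α) (hp : ∀ j, BD D (W.p j)) (hr : ∀ j, BD D (W.r j)) (v φ : VD D) :
    (W.fast hD hb hα hp hr).dr v φ = ⟪LvD D W.Vb v, io D φ⟫ := by
  have h0 : ∀ v : VD D, (W.fast hD hb hα hp hr).dr v φ =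
      ∑ j, (2 * W.α j : ℝ)⁻¹ * (⟪LvD D (W.r j) v, LpD D (W.p j) φ⟫ - ⟪LvD D (W.p j) v, LpD D (W.r j) φ⟫) := by
    intro v
    have h1 : (fun θ => (W.fast hD hb hα hp hr).B θ v) =
        tq W.α (fun j => LvD D (W.p j) v) fun j => LvD D (W.r j) v := by
      ext1 θ
      show tq W.α (fun j => LvD D (W.p j)) (fun j => LvD D (W.r j)) θ v = _
      simp only [tq, sum_apply, smul_apply, sub_apply]
    unfold Fast.dr
    rw [h1]
    exact fastF_drS _ _ _ hi _ _ _ _ _
  rw [h0]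
  refine (vT_dense D).induction_on (p := fun v : VD D =>
    ∑ j, (2 * W.α j : ℝ)⁻¹ * (⟪LvD D (W.r j) v, LpD D (W.p j) φ⟫ - ⟪LvD D (W.p j) v, LpD D (W.r j) φ⟫) =
      ⟪LvD D W.Vb v, io D φ⟫) v ?_ ?_
  · refine isClosed_eq (continuous_finsetSum _ fun j _ => ?_) ((LvD D W.Vb).continuous.inner continuous_const)
    exact continuous_const.mul (((LvD D (W.r j)).continuous.inner continuous_const).sub
      ((LvD D (W.p j)).continuous.inner continuous_const))
  intro ψ
  have hψ : BD D (ψ : En d → En d) := (TS.ts ψ).toIsTe.bd hb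
  have h2 := W.drS_eq hD hb hα hi hp hr hψ φ
  unfold Wav.fast at h2
  rw [fastF_drS _ _ _ hi] at h2
  rw [LvD_vT hD hb (W.bdVb hD hp hr), ← h2]
  refine Finset.sum_congr rfl fun j _ => ?_
  rw [LvD_vT hD hb (hp j), LvD_vT hD hb (hr j)]
  rfl

end

end Pool.Agent.Lib.MP_79abb3_an.W
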