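import Pool.Agent.Lib.MP_79abb3_an.W.BDc

/-!
Theorem W (MP_79abb3_an), block DE: calculus of the time dependent fields of class `Sep`.
-/

set_option autoImplicit false
set_option linter.unusedSectionVars false

open MeasureTheory Set Filter Topology Function
open scoped ENNReal RealInnerProductSpace

namespace Pool.Agent.Lib.MP_79abb3_an.W

section
variable {d : ℕ} {D : Set (En d)} {F G E X : Type} [NormedAddCommGroup F] [NormedSpace ℝ F]
  [NormedAddCommGroup G] [NormedSpace ℝ G] [NormedAddCommGroup E] [NormedSpace ℝ E]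
  [NormedAddCommGroup X] [NormedSpace ℝ X]

/-- maps of fields on `D` which are linear on the class `BD` -/
structure LinD (D : Set (En d)) (L : (En d → F) → X) : Prop where
  congr : ∀ f g : En d → F, (∀ x ∈ D, f x = g x) → L f = L g
  add : ∀ f g : En d → F, BD D f → BD D g → L (fun x => f x + g x) = L f + L g
  smul : ∀ (c : ℝ) (f : En d → F), BD D f → L (fun x => c • f x) = c • L f

theorem LinD.zero (hD : IsOpen D) {L : (En d → F) → X} (hL : LinD D L) : L (fun _ => 0) = 0 := by
  have h1 := hL.smul 0 (fun _ => 0) (BD.const hD 0)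
  simpa using h1

theorem LinD.sum (hD : IsOpen D) {L : (En d → F) → X} (hL : LinD D L) {ι : Type} (s : Finset ι) (c : ι → ℝ)
    {g : ι → En d → F} (hg : ∀ k ∈ s, BD D (g k)) : L (fun x => ∑ k ∈ s, c k • g k x) = ∑ k ∈ s, c k • L (g k) := by
  classical
  induction s using Finset.induction_on with
  | empty => simpa using hL.zero hD
  | insert k s hk ih =>
    have h1 : ∀ j ∈ s, BD D (g j) := fun j hj => hg j (Finset.mem_insert_of_mem hj)
    have h2 : BD D (g k) := hg k (Finset.mem_insert_self _ _)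
    have h3 : BD D fun x => ∑ j ∈ s, c j • g j x := BD.sum hD s fun j hj => (h1 j hj).const_smul hD (c j)
    rw [Finset.sum_insert hk, ← ih h1, ← hL.smul _ _ h2, ← hL.add _ _ (h2.const_smul hD _) h3]
    congr 1
    funext x
    rw [Finset.sum_insert hk]

theorem LinD.comp {L : (En d → F) → X} (hL : LinD D L) {Y : Type} [NormedAddCommGroup Y] [NormedSpace ℝ Y]
    (T : X →L[ℝ] Y) : LinD D fun f => T (L f) where
  congr f g h := by rw [hL.congr f g h]
  add f g hf hg := by rw [hL.add f g hf hg, map_add]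
  smul c f hf := by rw [hL.smul c f hf, map_smul]

theorem Sep.bd (hD : IsOpen D) {f : ℝ → En d → F} (hf : Sep D f) (t : ℝ) : BD D (f t) := by
  obtain ⟨n, c, g, hc, hg, he⟩ := hf
  exact (BD.sum (D := D) hD Finset.univ (f := fun k x => c k t • g k x)
    fun k _ => (hg k).const_smul hD (c k t)).congr hD fun x hx => (he t x hx).symm

theorem Sep.congr {f g : ℝ → En d → F} (hf : Sep D f) (h : ∀ t, ∀ x ∈ D, g t x = f t x) : Sep D g := by
  obtain ⟨n, c, g', hc, hg, he⟩ := hf
  exact ⟨n, c, g', hc, hg, fun t x hx => (h t x hx).trans (he t x hx)⟩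

private theorem def_dtm {n : ℕ} {c : Fin n → ℝ → ℝ} {g : Fin n → En d → F}
    (hc : ∀ k, ContDiff ℝ ((⊤ : ℕ∞) : WithTop ℕ∞) (c k)) {f : ℝ → En d → F}
    (he : ∀ t, ∀ x ∈ D, f t x = ∑ k, c k t • g k x) (t : ℝ) {x : En d} (hx : x ∈ D) :
    HasDerivAt (fun t => f t x) (∑ k, deriv (c k) t • g k x) t := by
  have h1 : (fun t => f t x) = fun t => ∑ k, c k t • g k x := funext fun t => he t x hx
  rw [h1]
  refine HasDerivAt.fun_sum fun k _ => ?_
  exact (((hc k).differentiable (by norm_num)) t).hasDerivAt.smul_const (g k x)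

/-- the representation and the one of the time derivative -/
theorem Sep.exists_dtm {f : ℝ → En d → F} (hf : Sep D f) : ∃ (n : ℕ) (c : Fin n → ℝ → ℝ) (g : Fin n → En d → F),
    (∀ k, ContDiff ℝ ((⊤ : ℕ∞) : WithTop ℕ∞) (c k)) ∧ (∀ k, BD D (g k)) ∧
    (∀ t, ∀ x ∈ D, f t x = ∑ k, c k t • g k x) ∧ ∀ t, ∀ x ∈ D, dtm f t x = ∑ k, deriv (c k) t • g k x := by
  obtain ⟨n, c, g, hc, hg, he⟩ := hf
  exact ⟨n, c, g, hc, hg, he, fun t x hx => (def_dtm hc he t hx).deriv⟩

theorem Sep.hasDerivAt {f : ℝ → En d → F} (hf : Sep D f) (t : ℝ) {x : En d} (hx : x ∈ D) :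
    HasDerivAt (fun t => f t x) (dtm f t x) t := by
  obtain ⟨n, c, g, hc, hg, he⟩ := hf
  have h1 := def_dtm hc he t hx
  exact h1.congr_deriv h1.deriv.symm

theorem Sep.dtm {f : ℝ → En d → F} (hf : Sep D f) : Sep D (dtm f) := by
  obtain ⟨n, c, g, hc, hg, he, he'⟩ := hf.exists_dtm
  refine ⟨n, fun k => deriv (c k), g, fun k => ?_, hg, he'⟩
  exact (contDiff_infty_iff_deriv.1 (hc k)).2

/-- **Linear maps of fields of class `Sep`** are smooth curves. -/
theorem Sep.map_hasDerivAt (hD : IsOpen D) {f : ℝ → En d → F} (hf : Sep D f) {L : (En d → F) → X} (hL : LinD D L)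
    (t : ℝ) : HasDerivAt (fun t => L (f t)) (L (W.dtm f t)) t := by
  obtain ⟨n, c, g, hc, hg, he, he'⟩ := hf.exists_dtm
  have h1 : ∀ t, L (f t) = ∑ k, c k t • L (g k) := fun t => by
    rw [hL.congr (f t) (fun x => ∑ k, c k t • g k x) (he t)]
    exact hL.sum hD Finset.univ (fun k => c k t) fun k _ => hg k
  have h2 : L (W.dtm f t) = ∑ k, deriv (c k) t • L (g k) := by
    rw [hL.congr (W.dtm f t) (fun x => ∑ k, deriv (c k) t • g k x) (he' t)]
    exact hL.sum hD Finset.univ (fun k => deriv (c k) t) fun k _ => hg k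
  have h3 : (fun t => L (f t)) = fun t => ∑ k, c k t • L (g k) := funext h1
  rw [h2, h3]
  refine HasDerivAt.fun_sum fun k _ => ?_
  exact (((hc k).differentiable (by norm_num)) t).hasDerivAt.smul_const (L (g k))

theorem Sep.map_cont (hD : IsOpen D) {f : ℝ → En d → F} (hf : Sep D f) {L : (En d → F) → X} (hL : LinD D L) :
    Continuous fun t => L (f t) :=
  continuous_iff_continuousAt.2 fun t => (hf.map_hasDerivAt hD hL t).continuousAt

/-- the integral of the derivative -/
theorem Sep.map_integral [CompleteSpace X] (hD : IsOpen D) {f : ℝ → En d → F} (hf : Sep D f) {L : (En d → F) → X}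
    (hL : LinD D L) (s t : ℝ) : L (f t) - L (f s) = ∫ r in s..t, L (W.dtm f r) :=
  (intervalIntegral.integral_eq_sub_of_hasDerivAt (fun r _ => hf.map_hasDerivAt hD hL r)
    ((hf.dtm.map_cont hD hL).intervalIntegrable s t)).symm

/-- a Lipschitz bound -/
theorem Sep.map_lip (hD : IsOpen D) {f : ℝ → En d → F} (hf : Sep D f) {L : (En d → F) → X} (hL : LinD D L)
    {C : ℝ} (hC : ∀ t ∈ Icc (0:ℝ) 1, ‖L (W.dtm f t)‖ ≤ C) {s t : ℝ} (hs : s ∈ Icc (0:ℝ) 1) (ht : t ∈ Icc (0:ℝ) 1) :
    ‖L (f t) - L (f s)‖ ≤ C * |t - s| := by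
  have h1 := (convex_Icc (0:ℝ) 1).norm_image_sub_le_of_norm_hasDerivWithin_le
    (f := fun t => L (f t)) (f' := fun t => L (W.dtm f t)) (C := C)
    (fun x _ => (hf.map_hasDerivAt hD hL x).hasDerivWithinAt) hC hs ht
  simpa [Real.norm_eq_abs] using h1

/-! ### Closure properties -/

theorem Sep.add {f g : ℝ → En d → F} (hf : Sep D f) (hg : Sep D g) : Sep D fun t x => f t x + g t x := by
  obtain ⟨n, c, u, hc, hu, he⟩ := hf
  obtain ⟨m, c', u', hc', hu', he'⟩ := hg
  refine ⟨n + m, Fin.append c c', Fin.append u u', fun k => ?_, fun k => ?_, fun t x hx => ?_⟩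
  · refine Fin.addCases (fun i => ?_) (fun i => ?_) k
    · rw [Fin.append_left]; exact hc i
    · rw [Fin.append_right]; exact hc' i
  · refine Fin.addCases (fun i => ?_) (fun i => ?_) k
    · rw [Fin.append_left]; exact hu i
    · rw [Fin.append_right]; exact hu' i
  · rw [Fin.sum_univ_add]
    simp only [Fin.append_left, Fin.append_right]
    rw [he t x hx, he' t x hx]

theorem Sep.of_bd {g : En d → F} (hg : BD D g) : Sep D fun _ => g :=
  ⟨1, fun _ _ => 1, fun _ => g, fun _ => contDiff_const, fun _ => hg, fun t x _ => by simp⟩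

theorem Sep.zero (hD : IsOpen D) : Sep D (fun (_ : ℝ) (_ : En d) => (0 : F)) := Sep.of_bd (BD.const hD 0)

/-- multiplication by a smooth function of time -/
theorem Sep.smul {a : ℝ → ℝ} (ha : ContDiff ℝ ((⊤ : ℕ∞) : WithTop ℕ∞) a) {f : ℝ → En d → F} (hf : Sep D f) :
    Sep D fun t x => a t • f t x := by
  obtain ⟨n, c, u, hc, hu, he⟩ := hf
  refine ⟨n, fun k t => a t * c k t, u, fun k => ha.mul (hc k), hu, fun t x hx => ?_⟩
  beta_reduce
  rw [he t x hx, Finset.smul_sum]
  exact Finset.sum_congr rfl fun k _ => smul_smul _ _ _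

theorem Sep.const_smul (c : ℝ) {f : ℝ → En d → F} (hf : Sep D f) : Sep D fun t x => c • f t x :=
  Sep.smul (a := fun _ => c) contDiff_const hf

theorem Sep.neg {f : ℝ → En d → F} (hf : Sep D f) : Sep D fun t x => -f t x :=
  (hf.const_smul (-1)).congr fun t x _ => by simp

theorem Sep.sub {f g : ℝ → En d → F} (hf : Sep D f) (hg : Sep D g) : Sep D fun t x => f t x - g t x :=
  (hf.add hg.neg).congr fun t x _ => by rw [sub_eq_add_neg]

theorem Sep.sum (hD : IsOpen D) {ι : Type} (s : Finset ι) {f : ι → ℝ → En d → F} (h : ∀ i ∈ s, Sep D (f i)) :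
    Sep D fun t x => ∑ i ∈ s, f i t x := by
  classical
  induction s using Finset.induction_on with
  | empty => exact (Sep.zero hD).congr fun t x _ => by simp
  | insert i s hi ih =>
    have h1 := ih fun j hj => h j (Finset.mem_insert_of_mem hj)
    exact ((h i (Finset.mem_insert_self _ _)).add h1).congr fun t x _ => by rw [Finset.sum_insert hi]

theorem Sep.clm (hD : IsOpen D) (L : F →L[ℝ] G) {f : ℝ → En d → F} (hf : Sep D f) : Sep D fun t x => L (f t x) := by
  obtain ⟨n, c, u, hc, hu, he⟩ := hf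
  refine ⟨n, c, fun k x => L (u k x), hc, fun k => (hu k).clm hD L, fun t x hx => ?_⟩
  beta_reduce
  rw [he t x hx, map_sum]
  exact Finset.sum_congr rfl fun k _ => map_smul _ _ _

theorem Sep.fderiv (hD : IsOpen D) {f : ℝ → En d → F} (hf : Sep D f) : Sep D fun t => _root_.fderiv ℝ (f t) := by
  obtain ⟨n, c, u, hc, hu, he⟩ := hf
  refine ⟨n, c, fun k => _root_.fderiv ℝ (u k), hc, fun k => (hu k).fderiv hD, fun t x hx => ?_⟩
  beta_reduce
  have h1 : ∀ k ∈ (Finset.univ : Finset (Fin n)), DifferentiableAt ℝ (fun x => c k t • u k x) x := fun k _ =>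
    ((hu k).differentiableAt hD hx).const_smul (c k t)
  rw [fderiv_congr_on hD (he t) hx, fderiv_fun_sum h1]
  exact Finset.sum_congr rfl fun k _ => fderiv_fun_const_smul ((hu k).differentiableAt hD hx) (c k t)

/-- bilinear operations -/
theorem Sep.bilin (hD : IsOpen D) (B : F →L[ℝ] G →L[ℝ] E) {f : ℝ → En d → F} {g : ℝ → En d → G} (hf : Sep D f)
    (hg : Sep D g) : Sep D fun t x => B (f t x) (g t x) := by
  obtain ⟨n, c, u, hc, hu, he⟩ := hf
  have h1 : Sep D fun t x => ∑ k, c k t • B (u k x) (g t x) := by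
    refine Sep.sum hD Finset.univ fun k _ => Sep.smul (hc k) ?_
    obtain ⟨m, c', u', hc', hu', he'⟩ := hg
    refine ⟨m, c', fun j x => B (u k x) (u' j x), hc', fun j => (hu k).bilin hD B (hu' j), fun t x hx => ?_⟩
    beta_reduce
    rw [he' t x hx, map_sum]
    exact Finset.sum_congr rfl fun j _ => map_smul _ _ _
  refine h1.congr fun t x hx => ?_
  rw [he t x hx, map_sum, sum_apply]
  refine Finset.sum_congr rfl fun k _ => ?_
  rw [map_smul]
  rfl

theorem Sep.apply (hD : IsOpen D) {A : ℝ → En d → F →L[ℝ] G} {f : ℝ → En d → F} (hA : Sep D A) (hf : Sep D f) :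
    Sep D fun t x => A t x (f t x) :=
  Sep.bilin hD (ContinuousLinearMap.id ℝ (F →L[ℝ] G)) hA hf

end

end Pool.Agent.Lib.MP_79abb3_an.W
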