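import Pool.Agent.Lib.MP_79abb3_an.W.DEDef

/-!
Theorem W (MP_79abb3_an), block DE: the reference field of one move as a curve in `V(D)`; operator and source of the
error equation.
-/

set_option autoImplicit false
set_option linter.unusedSectionVars false

open MeasureTheory Set Filter Topology Function
open scoped ENNReal RealInnerProductSpace

namespace Pool.Agent.Lib.MP_79abb3_an.W

variable {d : ℕ} {D : Set (En d)} {z : En d → ℝ} {δ : ℝ}

/-- the element of `V(D)` of a divergence free field which vanishes at the walls (`0` for other fields) -/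
noncomputable def vD (D : Set (En d)) (f : En d → En d) : VD D :=
  open scoped Classical in
  if h : ∃ w : VD D, ((io D w : HD D) : L2E d) = cl (D.indicator f) ∧ ∀ i, gi w i = cl (D.indicator (pd i f))
  then h.choose else 0

/-- the linear operator of the error equation -/
noncomputable def DIn.Fo (I : DIn d) (D : Set (En d)) (t : ℝ) : VD D →L[ℝ] HD D :=
  (I.q ^ 12 * I.a t) • LvD D (I.wv.U (I.q ^ 24 * t)) +
    MuD D (fun x => I.χ x • ContinuousLinearMap.id ℝ (En d)) ∘L io D +
    I.b • (TvD D (I.R t) + TvD D (I.Se t))

/-- the source of the error equation -/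
noncomputable def DIn.go (I : DIn d) (D : Set (En d)) (t : ℝ) : HD D :=
  -((I.q ^ 12 * I.a t) • PcD D (lieF (I.wv.U (I.q ^ 24 * t)) (I.Sa t)) +
    PcD D (fun x => dtm I.Sa t x + I.fN t x) + I.b • PcD D (I.r t))

end Pool.Agent.Lib.MP_79abb3_an.W
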