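import Pool.Agent.Lib.MP_79abb3_an.W.HF3
import Pool.Agent.Lib.MP_79abb3_an.W.SpB2

section

/-!
Theorem W, block H, part F4: the Hardy inequality.
-/

set_option autoImplicit false
set_option linter.unusedSectionVars false

open MeasureTheory Set Filter Topology Function
open scoped ENNReal RealInnerProductSpace

namespace Pool.Agent.Lib.MP_79abb3_an.W

variable {d : ℕ}

variable {D : Set (Ed d)} {z : Ed d → ℝ} {δ : ℝ}

private theorem hf4_grad (z : Ed d → ℝ) (x : Ed d) : gradient z x = gd z x := by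
  apply ext_inner_right ℝ
  intro y
  rw [inner_gd]
  unfold gradient
  rw [InnerProductSpace.toDual_symm_apply]

private theorem hf4_out {F : Type} [NormedAddCommGroup F] [NormedSpace ℝ F] {f : Ed d → F}
    (hs : tsupport f ⊆ D) {x : Ed d} (hx : x ∉ D) : f x = 0 :=
  image_eq_zero_of_notMem_tsupport fun h => hx (hs h)

/-- a test function of `D` times a function smooth in `D` -/
private theorem hf4_te {f : Ed d → ℝ} (hf : IsTe D f) {g : Ed d → ℝ}
    (hg : ∀ x ∈ D, ContDiffAt ℝ ((⊤ : ℕ∞) : WithTop ℕ∞) g x) : IsTe D (fun x => f x * g x) := by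
  have hsub : support (fun x => f x * g x) ⊆ tsupport f := by
    intro x hx
    refine subset_tsupport _ fun h0 => hx ?_
    show f x * g x = 0
    rw [h0, zero_mul]
  have hsub2 : tsupport (fun x => f x * g x) ⊆ tsupport f :=
    closure_minimal hsub (isClosed_tsupport f)
  refine ⟨?_, HasCompactSupport.of_support_subset_isCompact hf.cpt hsub, hsub2.trans hf.supp⟩
  refine contDiff_iff_contDiffAt.2 fun x => ?_
  by_cases hx : x ∈ D
  · exact (ContDiff.contDiffAt hf.smooth).mul (hg x hx)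
  · have h1 : x ∉ tsupport f := fun h => hx (hf.supp h)
    have h2 : (fun x => f x * g x) =ᶠ[𝓝 x] fun _ => 0 := by
      filter_upwards [(isClosed_tsupport f).isOpen_compl.mem_nhds h1] with y hy
      rw [image_eq_zero_of_notMem_tsupport hy, zero_mul]
    exact contDiffAt_const.congr_of_eventuallyEq h2

/-- Integration by parts of the Hardy inequality, real valued: for `X = f² (ω(z)/z) ∇z` (smooth with compact support,
`ω(s) = 0` for `s ≥ 2δ`) the integral of the divergence is zero. -/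
theorem Dom.hardy_id (h : Dom D z δ) {f : Ed d → ℝ} (hf : Smo f) (hc : HasCompactSupport f) (hs : tsupport f ⊆ D)
    {ω : ℝ → ℝ} (hω : ContDiff ℝ ((⊤ : ℕ∞) : WithTop ℕ∞) ω) (hω2 : ∀ s, 2 * δ ≤ s → ω s = 0) :
    ∫ x, f x ^ 2 * (ω (z x) / z x ^ 2) = ∫ x, (2 * f x * fderiv ℝ f x (gradient z x) * (ω (z x) / z x) +
      f x ^ 2 * (deriv ω (z x) / z x) + f x ^ 2 * (ω (z x) / z x) * lap z x) := by
  have hte : IsTe D f := ⟨hf, hc, hs⟩
  have hz : ∀ x, ContDiffAt ℝ ((⊤ : ℕ∞) : WithTop ℕ∞) z x := fun x => ContDiff.contDiffAt h.smo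
  have hfx : ∀ x, ContDiffAt ℝ ((⊤ : ℕ∞) : WithTop ℕ∞) f x := fun x => ContDiff.contDiffAt hf
  have hz0 : ∀ x ∈ D, z x ≠ 0 := fun x hx => ((h.pos x).1 hx).ne'
  have hωz : ∀ x, ContDiffAt ℝ ((⊤ : ℕ∞) : WithTop ℕ∞) (fun x => ω (z x)) x := fun x =>
    (hω.contDiffAt (x := z x)).comp x (hz x)
  have hω' : ContDiff ℝ ((⊤ : ℕ∞) : WithTop ℕ∞) (deriv ω) := by
    have h1 := (contDiff_infty_iff_deriv (f := ω)).1 hω
    exact h1.2
  have hω'z : ∀ x, ContDiffAt ℝ ((⊤ : ℕ∞) : WithTop ℕ∞) (fun x => deriv ω (z x)) x := fun x =>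
    (hω'.contDiffAt (x := z x)).comp x (hz x)
  have hdf : Smo (fun x => fderiv ℝ f x (gradient z x)) := by
    have h1 : ContDiff ℝ ((⊤ : ℕ∞) : WithTop ℕ∞) (fderiv ℝ f) :=
      ContDiff.fderiv_right hf (by exact_mod_cast le_top)
    have h2 : (fun x => gradient z x) = gd z := funext fun x => hf4_grad z x
    have h3 : ContDiff ℝ ((⊤ : ℕ∞) : WithTop ℕ∞) (fun x => gradient z x) := by
      rw [h2]
      exact h.smo.gd
    exact h1.clm_apply h3
  have hlap : Smo (lap z) := h.smo.lap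
  -- the function `a`
  set g : Ed d → ℝ := fun x => ω (z x) / z x with hg
  have hgs : ∀ x ∈ D, ContDiffAt ℝ ((⊤ : ℕ∞) : WithTop ℕ∞) g x := fun x hx =>
    (hωz x).div (hz x) (hz0 x hx)
  have ha : IsTe D (fun x => f x * (f x * g x)) :=
    hf4_te hte fun x hx => (hfx x).mul (hgs x hx)
  set a : Ed d → ℝ := fun x => f x * (f x * g x) with hadef
  -- divergence theorem
  have hdiv : ∫ x, fderiv ℝ a x (gradient z x) = -∫ x, a x * lap z x := by
    have h1 : ∀ i : Fin d, ∫ x, pd i a x * pd i z x = -∫ x, a x * pd i (pd i z) x := fun i =>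
      ibp_mul ha.smooth (h.smo.pd i) (Or.inl ha.cpt) i
    have h2 : ∀ x, fderiv ℝ a x (gradient z x) = ∑ i, pd i a x * pd i z x := by
      intro x
      rw [fderiv_eq_sum]
      refine Finset.sum_congr rfl fun i _ => ?_
      rw [hf4_grad, gd_apply, smul_eq_mul, mul_comm]
    have h3 : ∀ x, a x * lap z x = ∑ i, a x * pd i (pd i z) x := by
      intro x
      unfold lap
      rw [Finset.mul_sum]
    simp only [h2, h3]
    rw [integral_finsetSum, integral_finsetSum, ← Finset.sum_neg_distrib]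
    · exact Finset.sum_congr rfl fun i _ => h1 i
    · intro i _
      exact (hf4_te ha fun x _ => ContDiff.contDiffAt ((h.smo.pd i).pd i)).integrable
    · intro i _
      exact (hf4_te (ha.pd i) fun x _ => ContDiff.contDiffAt (h.smo.pd i)).integrable
  -- the integrand
  have hpt : ∀ x, fderiv ℝ a x (gradient z x) =
      (2 * f x * fderiv ℝ f x (gradient z x) * (ω (z x) / z x) +
      f x ^ 2 * (deriv ω (z x) / z x)) - f x ^ 2 * (ω (z x) / z x ^ 2) := by
    intro x
    by_cases hx : x ∈ D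
    · have hzx := hz0 x hx
      have hzp := (h.pos x).1 hx
      have d1 : HasFDerivAt f (fderiv ℝ f x) x := (hf.differentiable x).hasFDerivAt
      have d2 : HasFDerivAt z (fderiv ℝ z x) x := (h.smo.differentiable x).hasFDerivAt
      have d3 : HasDerivAt ω (deriv ω (z x)) (z x) :=
        (hω.differentiable (by simp) (z x)).hasDerivAt
      have d4 : HasFDerivAt (fun x => ω (z x)) (deriv ω (z x) • fderiv ℝ z x) x :=
        d3.comp_hasFDerivAt x d2
      have d5 : HasDerivAt (fun s : ℝ => s⁻¹) (-(z x ^ 2)⁻¹) (z x) := hasDerivAt_inv hzx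
      have d6 : HasFDerivAt (fun x => (z x)⁻¹) ((-(z x ^ 2)⁻¹) • fderiv ℝ z x) x :=
        d5.comp_hasFDerivAt x d2
      have d7 := d1.mul (d1.mul (d4.mul d6))
      have e1 : a = f * (f * ((fun x => ω (z x)) * fun x => (z x)⁻¹)) := by
        funext y
        simp only [hadef, hg, Pi.mul_apply, div_eq_mul_inv]
      have hN : ω (z x) ≠ 0 ∨ deriv ω (z x) ≠ 0 → fderiv ℝ z x (gradient z x) = 1 := by
        intro hor
        have hlt : z x < 4 * δ := by
          by_contra hcon
          rw [not_lt] at hcon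
          have hδ := h.δ0
          have hgt : 2 * δ < z x := by linarith
          rcases hor with h1 | h1
          · exact h1 (hω2 _ hgt.le)
          · apply h1
            have : ω =ᶠ[𝓝 (z x)] fun _ => 0 := by
              filter_upwards [lt_mem_nhds hgt] with t ht
              exact hω2 t (le_of_lt ht)
            rw [this.deriv_eq]
            simp
        have h1 := h.unit x (by rw [abs_of_pos hzp]; exact hlt)
        rw [← inner_gd, ← hf4_grad, real_inner_self_eq_norm_sq, h1]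
        norm_num
      rw [e1, d7.fderiv]
      simp only [FunLike.coe_add, FunLike.coe_smul, Pi.add_apply, Pi.smul_apply, smul_eq_mul,
        Pi.mul_apply]
      by_cases h1 : ω (z x) = 0
      · by_cases h2 : deriv ω (z x) = 0
        · rw [h1, h2]
          ring
        · rw [hN (Or.inr h2), h1]
          field_simp
          ring
      · rw [hN (Or.inl h1)]
        field_simp
        ring
    · have h1 : x ∉ tsupport a := fun h' => hx (ha.supp h')
      have h2 : fderiv ℝ a x = 0 :=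
        image_eq_zero_of_notMem_tsupport fun h' => h1 (tsupport_fderiv_subset ℝ h')
      rw [h2, hf4_out hs hx]
      simp
  -- integrability
  have i1 : Integrable (fun x => 2 * f x * fderiv ℝ f x (gradient z x) * (ω (z x) / z x)) := by
    have := (hf4_te hte (g := fun x => 2 * fderiv ℝ f x (gradient z x) * (ω (z x) / z x))
      fun x hx => (contDiffAt_const.mul (ContDiff.contDiffAt hdf)).mul (hgs x hx)).integrable
    refine this.congr (Eventually.of_forall fun x => ?_)
    simp only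
    ring
  have i2 : Integrable (fun x => f x ^ 2 * (deriv ω (z x) / z x)) := by
    have := (hf4_te hte (g := fun x => f x * (deriv ω (z x) / z x))
      fun x hx => (hfx x).mul ((hω'z x).div (hz x) (hz0 x hx))).integrable
    refine this.congr (Eventually.of_forall fun x => ?_)
    simp only
    ring
  have i3 : Integrable (fun x => f x ^ 2 * (ω (z x) / z x ^ 2)) := by
    have := (hf4_te hte (g := fun x => f x * (ω (z x) / z x ^ 2))
      fun x hx => (hfx x).mul ((hωz x).div ((hz x).pow 2) (pow_ne_zero 2 (hz0 x hx)))).integrable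
    refine this.congr (Eventually.of_forall fun x => ?_)
    simp only
    ring
  have i4 : Integrable (fun x => f x ^ 2 * (ω (z x) / z x) * lap z x) := by
    have := (hf4_te hte (g := fun x => f x * (ω (z x) / z x) * lap z x)
      fun x hx => ((hfx x).mul (hgs x hx)).mul (ContDiff.contDiffAt hlap)).integrable
    refine this.congr (Eventually.of_forall fun x => ?_)
    simp only
    ring
  simp only [hpt] at hdiv
  have i12 : Integrable (fun x => 2 * f x * fderiv ℝ f x (gradient z x) * (ω (z x) / z x) +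
      f x ^ 2 * (deriv ω (z x) / z x)) := i1.add i2
  rw [integral_sub i12 i3] at hdiv
  have e2 : ∫ x, a x * lap z x = ∫ x, f x ^ 2 * (ω (z x) / z x) * lap z x := by
    congr 1
    funext x
    simp only [hadef, hg]
    ring
  rw [e2] at hdiv
  rw [integral_add i12 i4]
  linarith

/-- the cut-off -/
private theorem hf4_cut (hδ : 0 < δ) : ∃ ω : ℝ → ℝ, ContDiff ℝ ((⊤ : ℕ∞) : WithTop ℕ∞) ω ∧
    (∀ s, 2 * δ ≤ s → ω s = 0) ∧ (∀ s, s ≤ δ → ω s = 1) ∧ (∀ s, 0 ≤ ω s ∧ ω s ≤ 1) ∧
    ∃ M : ℝ, 0 ≤ M ∧ ∀ s, 0 < s → |deriv ω s| ≤ M ∧ (s < δ → deriv ω s = 0) := by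
  refine ⟨fun s => Real.smoothTransition (2 - s / δ), ?_, ?_, ?_, ?_, ?_⟩
  · exact Real.smoothTransition.contDiff.comp (contDiff_const.sub (contDiff_id.div_const δ))
  · intro s hs
    apply Real.smoothTransition.zero_of_nonpos
    rw [sub_nonpos, le_div_iff₀ hδ]
    exact hs
  · intro s hs
    apply Real.smoothTransition.one_of_one_le
    have : s / δ ≤ 1 := by
      rw [div_le_one hδ]
      exact hs
    linarith
  · intro s
    exact ⟨Real.smoothTransition.nonneg _, Real.smoothTransition.le_one _⟩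
  · have hsm : ContDiff ℝ ((⊤ : ℕ∞) : WithTop ℕ∞) (fun s => Real.smoothTransition (2 - s / δ)) :=
      Real.smoothTransition.contDiff.comp (contDiff_const.sub (contDiff_id.div_const δ))
    have hcont : Continuous (deriv fun s => Real.smoothTransition (2 - s / δ)) :=
      ((contDiff_infty_iff_deriv (f := fun s => Real.smoothTransition (2 - s / δ))).1 hsm).2.continuous
    obtain ⟨M, hM⟩ := (isCompact_Icc (a := (0 : ℝ)) (b := 2 * δ)).exists_bound_of_continuousOn
      hcont.continuousOn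
    refine ⟨max M 0, le_max_right _ _, fun s hs => ⟨?_, fun hs2 => ?_⟩⟩
    · by_cases h1 : s ≤ 2 * δ
      · exact (hM s ⟨hs.le, h1⟩).trans (le_max_left _ _)
      · rw [not_le] at h1
        have : (fun s => Real.smoothTransition (2 - s / δ)) =ᶠ[𝓝 s] fun _ => 0 := by
          filter_upwards [lt_mem_nhds h1] with t ht
          apply Real.smoothTransition.zero_of_nonpos
          rw [sub_nonpos, le_div_iff₀ hδ]
          exact (le_of_lt ht)
        rw [this.deriv_eq]
        simp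
    · have : (fun s => Real.smoothTransition (2 - s / δ)) =ᶠ[𝓝 s] fun _ => 1 := by
        filter_upwards [gt_mem_nhds hs2] with t ht
        apply Real.smoothTransition.one_of_one_le
        have : t / δ ≤ 1 := by
          rw [div_le_one hδ]
          exact (le_of_lt ht)
        linarith
      rw [this.deriv_eq]
      simp

private theorem hf4_cs (f : Ed d → ℝ) (x n : Ed d) (hn : ‖n‖ = 1) :
    fderiv ℝ f x n ^ 2 ≤ ∑ i, pd i f x ^ 2 := by
  have h1 : ‖gd f x‖ ^ 2 = ∑ i, pd i f x ^ 2 := by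
    rw [EuclideanSpace.norm_sq_eq]
    refine Finset.sum_congr rfl fun i _ => ?_
    rw [gd_apply, Real.norm_eq_abs, sq_abs]
  rw [← inner_gd, ← h1]
  have h2 := abs_real_inner_le_norm (gd f x) n
  rw [hn, mul_one] at h2
  exact sq_le_sq' (by linarith [neg_abs_le (⟪gd f x, n⟫ : ℝ)]) ((le_abs_self _).trans h2)

/-- **Hardy inequality.** From `hardy_id` with `ω = 1` for `s ≤ δ`, `0 ≤ ω ≤ 1`: `I = ∫ f² ω/z²` satisfies
`I ≤ 2 I^{1/2} |∇f| + C ∫ f² + C ∫ f² ω/z`, `f² ω/z ≤ η f² ω/z² + C_η f²`, Poincare (`poincare_bdd`); for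
`z ≥ δ` trivially `f²/z² ≤ δ⁻² f²`. -/
theorem Dom.hardy_real (h : Dom D z δ) (hd : 0 < d) : ∃ C : ℝ, 0 < C ∧ ∀ f : Ed d → ℝ, Smo f → HasCompactSupport f →
    tsupport f ⊆ D → ∫ x, f x ^ 2 / z x ^ 2 ≤ C * ∑ i, ∫ x, pd i f x ^ 2 := by
  obtain ⟨ω, hω, hω2, hω1, hω01, M, hM0, hM⟩ := hf4_cut h.δ0
  obtain ⟨CP, hCP, hP⟩ := poincare_bdd h.bdd hd
  have hδ := h.δ0
  have hlap : Smo (lap z) := h.smo.lap
  have hcl : IsCompact (closure D) := h.bdd.isCompact_closure
  obtain ⟨L, hL⟩ := hcl.exists_bound_of_continuousOn hlap.continuous.continuousOn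
  set K : ℝ := M / δ + L ^ 2 with hK
  refine ⟨8 + (2 * K + (δ ^ 2)⁻¹) * CP, by positivity, fun f hf hc hs => ?_⟩
  have hte : IsTe D f := ⟨hf, hc, hs⟩
  have hz : ∀ x, ContDiffAt ℝ ((⊤ : ℕ∞) : WithTop ℕ∞) z x := fun x => ContDiff.contDiffAt h.smo
  have hfx : ∀ x, ContDiffAt ℝ ((⊤ : ℕ∞) : WithTop ℕ∞) f x := fun x => ContDiff.contDiffAt hf
  have hz0 : ∀ x ∈ D, z x ≠ 0 := fun x hx => ((h.pos x).1 hx).ne'
  have hωz : ∀ x, ContDiffAt ℝ ((⊤ : ℕ∞) : WithTop ℕ∞) (fun x => ω (z x)) x := fun x =>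
    (hω.contDiffAt (x := z x)).comp x (hz x)
  have iI : Integrable (fun x => f x ^ 2 * (ω (z x) / z x ^ 2)) := by
    have := (hf4_te hte (g := fun x => f x * (ω (z x) / z x ^ 2))
      fun x hx => (hfx x).mul ((hωz x).div ((hz x).pow 2) (pow_ne_zero 2 (hz0 x hx)))).integrable
    refine this.congr (Eventually.of_forall fun x => ?_)
    simp only
    ring
  have iH : Integrable (fun x => f x ^ 2 / z x ^ 2) := by
    have := (hf4_te hte (g := fun x => f x / z x ^ 2)
      fun x hx => (hfx x).div ((hz x).pow 2) (pow_ne_zero 2 (hz0 x hx))).integrable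
    refine this.congr (Eventually.of_forall fun x => ?_)
    simp only
    ring
  have iF : Integrable (fun x => f x ^ 2) := by
    have := (hf4_te hte (g := f) fun x hx => hfx x).integrable
    refine this.congr (Eventually.of_forall fun x => ?_)
    simp only
    ring
  have iP : ∀ i, Integrable (fun x => pd i f x ^ 2) := fun i => by
    have := (hf4_te (hte.pd i) (g := pd i f) fun x hx => ContDiff.contDiffAt (hf.pd i)).integrable
    refine this.congr (Eventually.of_forall fun x => ?_)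
    simp only
    ring
  have iS : Integrable (fun x => ∑ i, pd i f x ^ 2) := integrable_finsetSum _ fun i _ => iP i
  have hS : ∫ x, ∑ i, pd i f x ^ 2 = ∑ i, ∫ x, pd i f x ^ 2 := integral_finsetSum _ fun i _ => iP i
  have hPf : ∫ x, f x ^ 2 ≤ CP * ∑ i, ∫ x, pd i f x ^ 2 := by
    have := hP ℝ f hf hc hs
    simpa [Real.norm_eq_abs, sq_abs] using this
  have hid := h.hardy_id hf hc hs hω hω2
  -- pointwise bound
  have hpt : ∀ x, 2 * f x * fderiv ℝ f x (gradient z x) * (ω (z x) / z x) +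
      f x ^ 2 * (deriv ω (z x) / z x) + f x ^ 2 * (ω (z x) / z x) * lap z x ≤
      (1 / 2) * (f x ^ 2 * (ω (z x) / z x ^ 2)) + 4 * (∑ i, pd i f x ^ 2) + K * f x ^ 2 := by
    intro x
    have hSn : 0 ≤ ∑ i, pd i f x ^ 2 := Finset.sum_nonneg fun i _ => sq_nonneg _
    by_cases hx : x ∈ D
    · have hzp := (h.pos x).1 hx
      obtain ⟨w0, w1⟩ := hω01 (z x)
      obtain ⟨m1, m2⟩ := hM (z x) hzp
      have hLx : |lap z x| ≤ L := hL x (subset_closure hx)
      have hinv : 0 < (z x)⁻¹ := inv_pos.2 hzp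
      -- first term
      have t1 : 2 * f x * fderiv ℝ f x (gradient z x) * (ω (z x) / z x) ≤
          (1 / 4) * (f x ^ 2 * (ω (z x) / z x ^ 2)) + 4 * ∑ i, pd i f x ^ 2 := by
        by_cases hw : ω (z x) = 0
        · rw [hw]
          simp only [zero_div, mul_zero, zero_add]
          positivity
        · have hlt : z x < 4 * δ := by
            by_contra hcon
            rw [not_lt] at hcon
            exact hw (hω2 _ (by linarith))
          have hn := h.unit x (by rw [abs_of_pos hzp]; exact hlt)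
          have h1 := hf4_cs f x (gradient z x) hn
          set q := fderiv ℝ f x (gradient z x)
          have h2 : 2 * f x * q * (ω (z x) / z x) ≤
              (1 / 4) * (f x * (z x)⁻¹ * ω (z x)) ^ 2 + 4 * q ^ 2 := by
            have h3 := sq_nonneg ((1 / 2) * (f x * (z x)⁻¹ * ω (z x)) - 2 * q)
            rw [div_eq_mul_inv]
            nlinarith
          have h4 : (f x * (z x)⁻¹ * ω (z x)) ^ 2 ≤ f x ^ 2 * (ω (z x) / z x ^ 2) := by
            have e : f x ^ 2 * (ω (z x) / z x ^ 2) = (f x * (z x)⁻¹) ^ 2 * ω (z x) := by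
              rw [div_eq_mul_inv, mul_pow, inv_pow]
              ring
            rw [e, mul_pow _ (ω (z x))]
            refine mul_le_mul_of_nonneg_left ?_ (sq_nonneg _)
            nlinarith
          linarith
      -- second term
      have t2 : f x ^ 2 * (deriv ω (z x) / z x) ≤ M / δ * f x ^ 2 := by
        by_cases hlt : z x < δ
        · rw [m2 hlt]
          simp only [zero_div, mul_zero]
          positivity
        · rw [not_lt] at hlt
          have h1 : deriv ω (z x) / z x ≤ M / δ := by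
            rw [div_le_div_iff₀ hzp hδ]
            have h2 : deriv ω (z x) ≤ M := (le_abs_self _).trans m1
            nlinarith
          rw [mul_comm]
          exact mul_le_mul_of_nonneg_right h1 (sq_nonneg _)
      -- third term
      have t3 : f x ^ 2 * (ω (z x) / z x) * lap z x ≤
          (1 / 4) * (f x ^ 2 * (ω (z x) / z x ^ 2)) + L ^ 2 * f x ^ 2 := by
        have h1 : lap z x ≤ L := (le_abs_self _).trans hLx
        have h2 : (z x)⁻¹ * lap z x ≤ (1 / 4) * ((z x)⁻¹) ^ 2 + L ^ 2 := by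
          have h3 : (z x)⁻¹ * lap z x ≤ (z x)⁻¹ * L := mul_le_mul_of_nonneg_left h1 hinv.le
          have h4 := sq_nonneg ((1 / 2) * (z x)⁻¹ - L)
          nlinarith
        have e1 : f x ^ 2 * (ω (z x) / z x) * lap z x =
            (f x ^ 2 * ω (z x)) * ((z x)⁻¹ * lap z x) := by
          rw [div_eq_mul_inv]
          ring
        have e2 : (1 / 4) * (f x ^ 2 * (ω (z x) / z x ^ 2)) =
            (f x ^ 2 * ω (z x)) * ((1 / 4) * ((z x)⁻¹) ^ 2) := by
          rw [div_eq_mul_inv, inv_pow]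
          ring
        rw [e1, e2]
        have h5 : 0 ≤ f x ^ 2 * ω (z x) := mul_nonneg (sq_nonneg _) w0
        have h6 := mul_le_mul_of_nonneg_left h2 h5
        have h7 : f x ^ 2 * ω (z x) * L ^ 2 ≤ L ^ 2 * f x ^ 2 := by
          have : f x ^ 2 * ω (z x) ≤ f x ^ 2 := mul_le_of_le_one_right (sq_nonneg _) w1
          nlinarith [sq_nonneg L]
        nlinarith
      rw [hK]
      nlinarith
    · rw [hf4_out hs hx]
      simp only [mul_zero, zero_mul, ne_eq, OfNat.ofNat_ne_zero, not_false_eq_true, zero_pow,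
        zero_add, add_zero]
      positivity
  have hI : ∫ x, f x ^ 2 * (ω (z x) / z x ^ 2) ≤
      8 * (∑ i, ∫ x, pd i f x ^ 2) + 2 * K * ∫ x, f x ^ 2 := by
    have iR : Integrable (fun x => (1 / 2) * (f x ^ 2 * (ω (z x) / z x ^ 2)) +
        4 * (∑ i, pd i f x ^ 2) + K * f x ^ 2) :=
      ((iI.const_mul _).add (iS.const_mul _)).add (iF.const_mul _)
    have hpos : ∀ x, 0 ≤ (1 / 2) * (f x ^ 2 * (ω (z x) / z x ^ 2)) +
        4 * (∑ i, pd i f x ^ 2) + K * f x ^ 2 := by
      intro x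
      have h1 := (hω01 (z x)).1
      have h2 : 0 ≤ ∑ i, pd i f x ^ 2 := Finset.sum_nonneg fun i _ => sq_nonneg _
      positivity
    have h1 : ∫ x, (2 * f x * fderiv ℝ f x (gradient z x) * (ω (z x) / z x) +
        f x ^ 2 * (deriv ω (z x) / z x) + f x ^ 2 * (ω (z x) / z x) * lap z x) ≤
        ∫ x, ((1 / 2) * (f x ^ 2 * (ω (z x) / z x ^ 2)) + 4 * (∑ i, pd i f x ^ 2) + K * f x ^ 2) := by
      by_cases hint : Integrable (fun x => 2 * f x * fderiv ℝ f x (gradient z x) * (ω (z x) / z x) +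
        f x ^ 2 * (deriv ω (z x) / z x) + f x ^ 2 * (ω (z x) / z x) * lap z x)
      · exact integral_mono hint iR hpt
      · rw [integral_undef hint]
        exact integral_nonneg hpos
    rw [← hid] at h1
    have i5 : Integrable (fun x => (1 / 2) * (f x ^ 2 * (ω (z x) / z x ^ 2)) +
        4 * (∑ i, pd i f x ^ 2)) := (iI.const_mul _).add (iS.const_mul _)
    rw [integral_add i5 (iF.const_mul _),
      integral_add (iI.const_mul _) (iS.const_mul _), integral_const_mul, integral_const_mul,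
      integral_const_mul, hS] at h1
    linarith
  have hfin : ∫ x, f x ^ 2 / z x ^ 2 ≤ (∫ x, f x ^ 2 * (ω (z x) / z x ^ 2)) +
      (δ ^ 2)⁻¹ * ∫ x, f x ^ 2 := by
    rw [← integral_const_mul, ← integral_add iI (iF.const_mul _)]
    refine integral_mono iH (iI.add (iF.const_mul _)) fun x => ?_
    show f x ^ 2 / z x ^ 2 ≤ f x ^ 2 * (ω (z x) / z x ^ 2) + (δ ^ 2)⁻¹ * f x ^ 2
    by_cases hx : x ∈ D
    · have hzp := (h.pos x).1 hx
      by_cases hlt : z x ≤ δ
      · rw [hω1 _ hlt]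
        have : 0 ≤ (δ ^ 2)⁻¹ * f x ^ 2 := by positivity
        have e : f x ^ 2 / z x ^ 2 = f x ^ 2 * (1 / z x ^ 2) := by ring
        linarith
      · rw [not_le] at hlt
        have h1 : f x ^ 2 / z x ^ 2 ≤ (δ ^ 2)⁻¹ * f x ^ 2 := by
          rw [div_eq_inv_mul]
          refine mul_le_mul_of_nonneg_right ?_ (sq_nonneg _)
          exact inv_anti₀ (by positivity) (pow_le_pow_left₀ hδ.le hlt.le 2)
        have h2 := (hω01 (z x)).1
        have h3 : 0 ≤ f x ^ 2 * (ω (z x) / z x ^ 2) := by positivity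
        linarith
    · rw [hf4_out hs hx]
      simp
  have hK0 : 0 ≤ K := by positivity
  have hfn : 0 ≤ ∫ x, f x ^ 2 := integral_nonneg fun x => sq_nonneg _
  calc ∫ x, f x ^ 2 / z x ^ 2
      ≤ 8 * (∑ i, ∫ x, pd i f x ^ 2) + (2 * K + (δ ^ 2)⁻¹) * ∫ x, f x ^ 2 := by linarith
    _ ≤ 8 * (∑ i, ∫ x, pd i f x ^ 2) +
        (2 * K + (δ ^ 2)⁻¹) * (CP * ∑ i, ∫ x, pd i f x ^ 2) := by
        have h1 : 0 ≤ 2 * K + (δ ^ 2)⁻¹ := by positivity
        have := mul_le_mul_of_nonneg_left hPf h1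
        linarith
    _ = _ := by ring

/-- Vector valued version (sum over the components). -/
theorem Dom.hardy (h : Dom D z δ) (hd : 0 < d) : ∃ C : ℝ, 0 < C ∧ ∀ f : Ed d → Ed d, Smo f → HasCompactSupport f →
    tsupport f ⊆ D → ∫ x, ‖f x‖ ^ 2 / z x ^ 2 ≤ C * ∑ i, ∫ x, ‖pd i f x‖ ^ 2 := by
  obtain ⟨C, hC, hH⟩ := h.hardy_real hd
  refine ⟨C, hC, fun f hf hc hs => ?_⟩
  have hte : IsTe D f := ⟨hf, hc, hs⟩
  have hz : ∀ x, ContDiffAt ℝ ((⊤ : ℕ∞) : WithTop ℕ∞) z x := fun x => ContDiff.contDiffAt h.smo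
  have hz0 : ∀ x ∈ D, z x ≠ 0 := fun x hx => ((h.pos x).1 hx).ne'
  have hk : ∀ k, IsTe D (fun x => f x k) := by
    intro k
    have hsub : support (fun x => f x k) ⊆ tsupport f := by
      intro x hx
      refine subset_tsupport _ fun h0 => hx ?_
      show f x k = 0
      rw [h0]
      rfl
    refine ⟨(EuclideanSpace.proj k : Ed d →L[ℝ] ℝ).contDiff.comp hf,
      HasCompactSupport.of_support_subset_isCompact hc hsub,
      (closure_minimal hsub (isClosed_tsupport f)).trans hs⟩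
  have hn : ∀ v : Ed d, ‖v‖ ^ 2 = ∑ k, v k ^ 2 := by
    intro v
    rw [EuclideanSpace.norm_sq_eq]
    exact Finset.sum_congr rfl fun i _ => by rw [Real.norm_eq_abs, sq_abs]
  have iH : ∀ k, Integrable (fun x => f x k ^ 2 / z x ^ 2) := by
    intro k
    have := (hf4_te (hk k) (g := fun x => f x k / z x ^ 2)
      fun x hx => (ContDiff.contDiffAt (hk k).smooth).div ((hz x).pow 2)
        (pow_ne_zero 2 (hz0 x hx))).integrable
    refine this.congr (Eventually.of_forall fun x => ?_)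
    simp only
    ring
  have iP : ∀ k i, Integrable (fun x => pd i (fun x => f x k) x ^ 2) := fun k i => by
    have := (hf4_te ((hk k).pd i) (g := pd i (fun x => f x k))
      fun x hx => ContDiff.contDiffAt ((hk k).smooth.pd i)).integrable
    refine this.congr (Eventually.of_forall fun x => ?_)
    simp only
    ring
  have e1 : ∫ x, ‖f x‖ ^ 2 / z x ^ 2 = ∑ k, ∫ x, f x k ^ 2 / z x ^ 2 := by
    rw [← integral_finsetSum _ fun k _ => iH k]
    congr 1
    funext x
    rw [hn, Finset.sum_div]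
  have e2 : ∀ i, ∫ x, ‖pd i f x‖ ^ 2 = ∑ k, ∫ x, pd i (fun x => f x k) x ^ 2 := by
    intro i
    rw [← integral_finsetSum _ fun k _ => iP k i]
    congr 1
    funext x
    rw [hn]
    refine Finset.sum_congr rfl fun k _ => ?_
    rw [pd_apply hf i k x]
  rw [e1]
  simp only [e2]
  rw [Finset.sum_comm, Finset.mul_sum]
  exact Finset.sum_le_sum fun k _ => hH _ (hk k).smooth (hk k).cpt (hk k).supp

end Pool.Agent.Lib.MP_79abb3_an.W
end

section

/-!
Theorem W, block H, part V: Poincare inequality in the layer and Hardy inequality in `V(D)`.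
-/

set_option autoImplicit false
set_option linter.unusedSectionVars false

open MeasureTheory Set Filter Topology Function
open scoped ENNReal RealInnerProductSpace

namespace Pool.Agent.Lib.MP_79abb3_an.W

variable {d : ℕ}

variable {D : Set (Ed d)} {z : Ed d → ℝ} {δ : ℝ}

/-- passage to the limit in weighted inequalities -/
private theorem hV_lim (hb : Bornology.IsBounded D) {w : Ed d → ℝ} (hw : Measurable w) {C : ℝ}
    (h : ∀ φ : TS D, ∫⁻ x, ENNReal.ofReal (‖(φ : Ed d → Ed d) x‖ ^ 2 * w x) ≤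
      ENNReal.ofReal (C * ‖vT D φ‖ ^ 2)) (v : VD D) :
    ∫⁻ x, ENNReal.ofReal (‖((io D v : HD D) : L2E d) x‖ ^ 2 * w x) ≤ ENNReal.ofReal (C * ‖v‖ ^ 2) := by
  obtain ⟨φ, h1, h2⟩ := exists_seq hb v
  have h3 : Tendsto (fun n => ((hT D (φ n) : HD D) : L2E d)) atTop (𝓝 ((io D v : HD D) : L2E d)) :=
    (continuous_subtype_val.tendsto _).comp h2
  obtain ⟨ns, hns, hae⟩ := (tendstoInMeasure_of_tendsto_Lp h3).exists_seq_tendsto_ae
  have hc : ∀ᵐ x ∂(volume : Measure (Ed d)), ∀ n, ((hT D (φ n) : HD D) : L2E d) x =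
      (φ n : Ed d → Ed d) x := by
    rw [ae_all_iff]
    intro n
    rw [hT_coe]
    exact cl_coe ((TS.ts (φ n)).memLp 2)
  have hlim : ∀ᵐ x ∂(volume : Measure (Ed d)),
      Tendsto (fun i => ENNReal.ofReal (‖(φ (ns i) : Ed d → Ed d) x‖ ^ 2 * w x)) atTop
        (𝓝 (ENNReal.ofReal (‖((io D v : HD D) : L2E d) x‖ ^ 2 * w x))) := by
    filter_upwards [hae, hc] with x hx1 hx2
    have h4 : Tendsto (fun i => (φ (ns i) : Ed d → Ed d) x) atTop
        (𝓝 (((io D v : HD D) : L2E d) x)) := by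
      refine hx1.congr fun i => ?_
      exact hx2 (ns i)
    exact (ENNReal.continuous_ofReal.tendsto _).comp ((h4.norm.pow 2).mul_const (w x))
  calc ∫⁻ x, ENNReal.ofReal (‖((io D v : HD D) : L2E d) x‖ ^ 2 * w x)
      = ∫⁻ x, liminf (fun i => ENNReal.ofReal (‖(φ (ns i) : Ed d → Ed d) x‖ ^ 2 * w x)) atTop := by
        refine lintegral_congr_ae ?_
        filter_upwards [hlim] with x hx
        exact hx.liminf_eq.symm
    _ ≤ liminf (fun i => ∫⁻ x, ENNReal.ofReal (‖(φ (ns i) : Ed d → Ed d) x‖ ^ 2 * w x)) atTop := by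
        refine lintegral_liminf_le fun i => ?_
        exact (((TS.ts (φ (ns i))).smooth.continuous.norm.pow 2).measurable.mul hw).ennreal_ofReal
    _ ≤ liminf (fun i => ENNReal.ofReal (C * ‖vT D (φ (ns i))‖ ^ 2)) atTop :=
        liminf_le_liminf (Eventually.of_forall fun i => h (φ (ns i)))
    _ = ENNReal.ofReal (C * ‖v‖ ^ 2) := by
        have h5 : Tendsto (fun i => vT D (φ (ns i))) atTop (𝓝 v) := h1.comp hns.tendsto_atTop
        exact ((ENNReal.continuous_ofReal.tendsto _).comp ((h5.norm.pow 2).const_mul C)).liminf_eq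

private theorem hV_meas (v : VD D) :
    AEStronglyMeasurable (fun x => ((io D v : HD D) : L2E d) x) (volume : Measure (Ed d)) :=
  (Lp.stronglyMeasurable _).aestronglyMeasurable

private theorem hV_real (hb : Bornology.IsBounded D) {w : Ed d → ℝ} (hw : Measurable w)
    (hw0 : ∀ x, 0 ≤ w x) {C : ℝ} (hC : 0 ≤ C)
    (hi : ∀ φ : TS D, Integrable fun x => ‖(φ : Ed d → Ed d) x‖ ^ 2 * w x)
    (h : ∀ φ : TS D, ∫ x, ‖(φ : Ed d → Ed d) x‖ ^ 2 * w x ≤ C * ‖vT D φ‖ ^ 2) (v : VD D) :
    ∫⁻ x, ENNReal.ofReal (‖((io D v : HD D) : L2E d) x‖ ^ 2 * w x) ≤ ENNReal.ofReal (C * ‖v‖ ^ 2) ∧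
      ∫ x, ‖((io D v : HD D) : L2E d) x‖ ^ 2 * w x ≤ C * ‖v‖ ^ 2 := by
  have h1 := hV_lim hb hw (C := C) (fun φ => by
    rw [← ofReal_integral_eq_lintegral_ofReal (hi φ)
      (Eventually.of_forall fun x => mul_nonneg (sq_nonneg _) (hw0 x))]
    exact ENNReal.ofReal_le_ofReal (h φ)) v
  refine ⟨h1, ?_⟩
  rw [integral_eq_lintegral_of_nonneg_ae
    (Eventually.of_forall fun x => mul_nonneg (sq_nonneg _) (hw0 x))
    (((hV_meas v).norm.pow 2).mul hw.aestronglyMeasurable)]
  have h2 : 0 ≤ C * ‖v‖ ^ 2 := by positivity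
  calc (∫⁻ x, ENNReal.ofReal (‖((io D v : HD D) : L2E d) x‖ ^ 2 * w x)).toReal
      ≤ (ENNReal.ofReal (C * ‖v‖ ^ 2)).toReal := ENNReal.toReal_mono ENNReal.ofReal_ne_top h1
    _ = _ := ENNReal.toReal_ofReal h2

/-- **Poincare inequality in the layer** for `V(D)`. Density of test fields (`exists_seq`; `‖io D v‖ ≤ C ‖v‖`). -/
theorem Dom.poincare_layer_V (h : Dom D z δ) : ∃ C ρ₀ : ℝ, 0 < C ∧ 0 < ρ₀ ∧ ∀ (v : VD D) (ρ : ℝ), 0 < ρ → ρ ≤ ρ₀ →
    ∫ x in {x | 0 < z x ∧ z x < ρ}, ‖((io D v : HD D) : L2E d) x‖ ^ 2 ≤ C * ρ ^ 2 * ‖v‖ ^ 2 := by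
  obtain ⟨C, ρ₀, hC, hρ₀, hP⟩ := h.poincare_layer
  refine ⟨C, ρ₀, hC, hρ₀, fun v ρ hρ hρ' => ?_⟩
  have hz : Continuous z := h.smo.continuous
  set A : Set (Ed d) := {x | 0 < z x ∧ z x < ρ} with hA
  have hAm : MeasurableSet A :=
    ((isOpen_lt continuous_const hz).inter (isOpen_lt hz continuous_const)).measurableSet
  have hind : ∀ f : Ed d → ℝ, ∫ x in A, f x = ∫ x, f x * A.indicator (fun _ => (1 : ℝ)) x := by
    intro f
    rw [← integral_indicator hAm]
    congr 1
    funext x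
    by_cases hx : x ∈ A
    · rw [indicator_of_mem hx, indicator_of_mem hx, mul_one]
    · rw [indicator_of_notMem hx, indicator_of_notMem hx, mul_zero]
  have hi : ∀ φ : TS D, Integrable fun x => ‖(φ : Ed d → Ed d) x‖ ^ 2 *
      A.indicator (fun _ => (1 : ℝ)) x := by
    intro φ
    have h1 : Integrable fun x => ‖(φ : Ed d → Ed d) x‖ ^ 2 :=
      ((TS.ts φ).memLp 2).integrable_norm_pow two_ne_zero
    refine (h1.indicator hAm).congr (Eventually.of_forall fun x => ?_)
    by_cases hx : x ∈ A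
    · simp only [indicator_of_mem hx, mul_one]
    · simp only [indicator_of_notMem hx, mul_zero]
  rw [hind]
  refine (hV_real h.bdd (measurable_const.indicator hAm)
    (fun x => indicator_nonneg (fun _ _ => zero_le_one) x) (by positivity) hi (fun φ => ?_) v).2
  rw [← hind, norm_sq_vT]
  exact hP _ _ (TS.ts φ).smooth (TS.ts φ).cpt (TS.ts φ).supp ρ hρ hρ'

/-- **Hardy inequality** for `V(D)`. (Density: `z⁻¹ φ_n` is a Cauchy sequence in `L²`; Fatou for the limit.) -/
theorem Dom.hardy_V (h : Dom D z δ) (hd : 0 < d) : ∃ C : ℝ, 0 < C ∧ ∀ v : VD D,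
    MemLp (fun x => (z x)⁻¹ • ((io D v : HD D) : L2E d) x) 2 volume ∧
      ∫ x, ‖((io D v : HD D) : L2E d) x‖ ^ 2 / z x ^ 2 ≤ C * ‖v‖ ^ 2 := by
  obtain ⟨C, hC, hH⟩ := h.hardy hd
  refine ⟨C, hC, fun v => ?_⟩
  have hz : Continuous z := h.smo.continuous
  have hw : Measurable fun x => (z x ^ 2)⁻¹ := (hz.pow 2).measurable.inv
  have hi : ∀ φ : TS D, Integrable fun x => ‖(φ : Ed d → Ed d) x‖ ^ 2 * (z x ^ 2)⁻¹ := by
    intro φ
    have hcont : Continuous fun x => ‖(φ : Ed d → Ed d) x‖ ^ 2 * (z x ^ 2)⁻¹ := by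
      rw [continuous_iff_continuousAt]
      intro x
      by_cases hx : x ∈ D
      · have h1 : z x ^ 2 ≠ 0 := pow_ne_zero 2 ((h.pos x).1 hx).ne'
        exact ((TS.ts φ).smooth.continuous.norm.pow 2).continuousAt.mul
          ((hz.pow 2).continuousAt.inv₀ h1)
      · have h1 : x ∉ tsupport (φ : Ed d → Ed d) := fun h' => hx ((TS.ts φ).supp h')
        have h2 : (fun x => ‖(φ : Ed d → Ed d) x‖ ^ 2 * (z x ^ 2)⁻¹) =ᶠ[𝓝 x] fun _ => 0 := by
          filter_upwards [(isClosed_tsupport (φ : Ed d → Ed d)).isOpen_compl.mem_nhds h1] with y hy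
          rw [image_eq_zero_of_notMem_tsupport hy, norm_zero]
          ring
        exact continuousAt_const.congr h2.symm
    refine hcont.integrable_of_hasCompactSupport ?_
    refine (TS.ts φ).cpt.mono' fun x hx => subset_tsupport _ fun h0 => hx ?_
    show ‖(φ : Ed d → Ed d) x‖ ^ 2 * (z x ^ 2)⁻¹ = 0
    rw [h0, norm_zero]
    ring
  obtain ⟨h1, h2⟩ := hV_real h.bdd hw (fun x => by positivity) hC.le hi (fun φ => by
    rw [norm_sq_vT]
    have := hH _ (TS.ts φ).smooth (TS.ts φ).cpt (TS.ts φ).supp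
    simpa only [div_eq_mul_inv] using this) v
  refine ⟨⟨?_, ?_⟩, ?_⟩
  · exact hz.measurable.inv.aestronglyMeasurable.smul (hV_meas v)
  · rw [eLpNorm_lt_top_iff_lintegral_rpow_enorm_lt_top (by norm_num) (by norm_num)]
    refine lt_of_le_of_lt ?_ (h1.trans_lt ENNReal.ofReal_lt_top)
    refine lintegral_mono fun x => ?_
    have e : ‖(z x)⁻¹ • ((io D v : HD D) : L2E d) x‖ₑ ^ ((2 : ℝ≥0∞).toReal) =
        ENNReal.ofReal (‖((io D v : HD D) : L2E d) x‖ ^ 2 * (z x ^ 2)⁻¹) := by
      rw [← ofReal_norm, ENNReal.toReal_ofNat, ENNReal.ofReal_rpow_of_nonneg (norm_nonneg _)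
        (by norm_num)]
      congr 1
      rw [norm_smul, Real.rpow_two, mul_pow, norm_inv, Real.norm_eq_abs, inv_pow, sq_abs, mul_comm]
    exact e.le
  · simpa only [div_eq_mul_inv] using h2

end Pool.Agent.Lib.MP_79abb3_an.W
end
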