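import Pool.Agent.Lib.MP_79abb3_an.W.DEa
import Pool.Agent.Lib.MP_79abb3_an.W.HV

/-!
Theorem W (MP_79abb3_an), block DE: bounds of the linear terms (thin fields by Hardy's inequality, bounded fields).
-/

set_option autoImplicit false
set_option linter.unusedSectionVars false

open MeasureTheory Set Filter Topology Function
open scoped ENNReal RealInnerProductSpace

namespace Pool.Agent.Lib.MP_79abb3_an.W

section
variable {d : ℕ} {D : Set (En d)} {z : En d → ℝ} {δ : ℝ}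

/-- Cauchy-Schwarz for the norms of two square integrable fields -/
theorem int_norm_mul (u g : L2E d) : Integrable (fun x => ‖(u : En d → En d) x‖ * ‖(g : En d → En d) x‖) ∧
    ∫ x, ‖(u : En d → En d) x‖ * ‖(g : En d → En d) x‖ ≤ ‖u‖ * ‖g‖ := by
  have h1 : ∀ u : L2E d, MemLp (fun x => ‖(u : En d → En d) x‖) 2 (volume : Measure (En d)) := fun u =>
    (Lp.memLp u).norm
  have h2 : ∀ u : L2E d, ‖(h1 u).toLp‖ = ‖u‖ := fun u => by
    rw [Lp.norm_toLp, Lp.norm_def, eLpNorm_norm]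
  have h3 : (fun x => ⟪((h1 u).toLp : En d → ℝ) x, ((h1 g).toLp : En d → ℝ) x⟫) =ᵐ[volume]
      fun x => ‖(u : En d → En d) x‖ * ‖(g : En d → En d) x‖ := by
    filter_upwards [(h1 u).coeFn_toLp, (h1 g).coeFn_toLp] with x hx hx'
    rw [hx, hx']
    show ‖(g : En d → En d) x‖ * ‖(u : En d → En d) x‖ = _
    ring
  refine ⟨(L2.integrable_inner (𝕜 := ℝ) (h1 u).toLp (h1 g).toLp).congr h3, ?_⟩
  rw [← integral_congr_ae h3, ← h2 u, ← h2 g]
  exact real_inner_le_norm (h1 u).toLp (h1 g).toLp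

private theorem deh_real {N W F S V P c κ : ℝ} (hN : N ≤ W * S + F * (c * V)) (hS : 0 ≤ S) (hV : 0 ≤ V) (hP : 0 ≤ P)
    (hc : 0 ≤ c) (h1 : c * W ≤ κ) (h2 : c ^ 2 * F ≤ κ) : N * (c * P) ≤ κ * (S * P + V * P) := by
  have e1 : N * (c * P) ≤ (W * S + F * (c * V)) * (c * P) := mul_le_mul_of_nonneg_right hN (mul_nonneg hc hP)
  have e2 : (c * W) * (S * P) ≤ κ * (S * P) := mul_le_mul_of_nonneg_right h1 (mul_nonneg hS hP)
  have e3 : (c ^ 2 * F) * (V * P) ≤ κ * (V * P) := mul_le_mul_of_nonneg_right h2 (mul_nonneg hV hP)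
  nlinarith

/-- the pointwise estimate -/
private theorem deh_pt {w₀ : En d} {A : En d →L[ℝ] En d} {g : Fin d → En d} {e f e' f' : En d} {c κ : ℝ} (hc : 0 < c)
    (he : e' = c⁻¹ • e) (hf : f' = c⁻¹ • f) (h1 : c * ‖w₀‖ ≤ κ) (h2 : c ^ 2 * ‖A‖ ≤ κ) :
    ‖⟪(∑ i, w₀ i • g i) + A e, f⟫‖ ≤ κ * (∑ i, ‖g i‖ * ‖f'‖ + ‖e'‖ * ‖f'‖) := by
  have e1 : ‖e‖ = c * ‖e'‖ := by
    rw [he, norm_smul, norm_inv, Real.norm_eq_abs, abs_of_pos hc]
    field_simp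
  have e2 : ‖f‖ = c * ‖f'‖ := by
    rw [hf, norm_smul, norm_inv, Real.norm_eq_abs, abs_of_pos hc]
    field_simp
  have e3 : ‖(∑ i, w₀ i • g i)‖ ≤ ‖w₀‖ * ∑ i, ‖g i‖ := by
    refine (norm_sum_le _ _).trans ?_
    rw [Finset.mul_sum]
    refine Finset.sum_le_sum fun i _ => ?_
    rw [norm_smul]
    exact mul_le_mul_of_nonneg_right (PiLp.norm_apply_le _ _) (norm_nonneg _)
  have e4 : ‖A e‖ ≤ ‖A‖ * (c * ‖e'‖) := by
    rw [← e1]
    exact A.le_opNorm _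
  refine (norm_inner_le_norm (𝕜 := ℝ) _ _).trans ?_
  rw [e2, ← Finset.sum_mul]
  exact deh_real ((norm_add_le _ _).trans (add_le_add e3 e4)) (Finset.sum_nonneg fun i _ => norm_nonneg _)
    (norm_nonneg _) (norm_nonneg _) hc.le h1 h2

/-- **Thin fields.** -/
theorem TvD_thin (h : Dom D z δ) (hd : 0 < d) : ∃ C : ℝ, 0 ≤ C ∧ ∀ w : En d → En d, BD D w → ∀ κ : ℝ,
    (∀ x ∈ D, z x * ‖w x‖ ≤ κ) → (∀ x ∈ D, z x ^ 2 * ‖fderiv ℝ w x‖ ≤ κ) →
    ∀ v φ : VD D, |⟪TvD D w v, io D φ⟫| ≤ C * κ * ‖v‖ * ‖φ‖ := by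
  obtain ⟨C, hC, hH⟩ := h.hardy_V hd
  have hD := h.isOpen
  have hz : ∀ x ∈ D, 0 < z x := fun x hx => (h.pos x).1 hx
  -- the fields `z⁻¹ v`
  obtain ⟨Z, hZ⟩ : ∃ Z : VD D → L2E d, ∀ v : VD D, (Z v : En d → En d) =ᵐ[volume]
      fun x => (z x)⁻¹ • (((io D v : HD D) : L2E d) : En d → En d) x :=
    ⟨fun v => (hH v).1.toLp, fun v => (hH v).1.coeFn_toLp⟩
  have hZn : ∀ v : VD D, ‖Z v‖ ≤ √C * ‖v‖ := by
    intro v
    have h1 : ‖Z v‖ ^ 2 ≤ C * ‖v‖ ^ 2 := by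
      rw [norm_sq_L2]
      refine le_trans (le_of_eq (integral_congr_ae ?_)) (hH v).2
      filter_upwards [hZ v] with x hx
      rw [hx, norm_smul, mul_pow, norm_inv, Real.norm_eq_abs, inv_pow, sq_abs]
      ring
    have h2 : (√C * ‖v‖) ^ 2 = C * ‖v‖ ^ 2 := by rw [mul_pow, Real.sq_sqrt hC.le]
    exact abs_le_of_sq_le_sq' (by rw [h2]; exact h1) (by positivity) |>.2
  refine ⟨d * √C + C, by positivity, fun w hw κ h1 h2 v φ => ?_⟩
  obtain ⟨x₀, hx₀⟩ := h.conn.nonempty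
  have hκ : 0 ≤ κ := (mul_nonneg (hz x₀ hx₀).le (norm_nonneg _)).trans (h1 x₀ hx₀)
  unfold TvD
  have hDm : Bm D (Dm w) := hw.bm_fderiv hD
  rw [inner_OpD hD.measurableSet (hw.bm hD) hDm, ← integral_indicator hD.measurableSet]
  have hGi : Integrable fun x => κ * (∑ i, ‖(gi v i : En d → En d) x‖ * ‖(Z φ : En d → En d) x‖ +
      ‖(Z v : En d → En d) x‖ * ‖(Z φ : En d → En d) x‖) := by
    refine Integrable.const_mul (Integrable.add (integrable_finsetSum _ fun i _ => ?_) ?_) κ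
    · exact (int_norm_mul (gi v i) (Z φ)).1
    · exact (int_norm_mul (Z v) (Z φ)).1
  have hle : ∀ᵐ x, ‖D.indicator (fun x => ⟪(∑ i, w x i • (gi v i : En d → En d) x) +
      Dm w x ((((io D v : HD D) : L2E d) : En d → En d) x), (((io D φ : HD D) : L2E d) : En d → En d) x⟫) x‖ ≤
      κ * (∑ i, ‖(gi v i : En d → En d) x‖ * ‖(Z φ : En d → En d) x‖ +
      ‖(Z v : En d → En d) x‖ * ‖(Z φ : En d → En d) x‖) := by
    filter_upwards [hZ v, hZ φ] with x hx hx'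
    by_cases hxD : x ∈ D
    · rw [indicator_of_mem hxD]
      exact deh_pt (hz x hxD) hx hx' (h1 x hxD) (h2 x hxD)
    · rw [indicator_of_notMem hxD, norm_zero]
      have hS0 : 0 ≤ ∑ i, ‖(gi v i : En d → En d) x‖ * ‖(Z φ : En d → En d) x‖ :=
        Finset.sum_nonneg fun i _ => mul_nonneg (norm_nonneg _) (norm_nonneg _)
      exact mul_nonneg hκ (add_nonneg hS0 (mul_nonneg (norm_nonneg _) (norm_nonneg _)))
  refine (norm_integral_le_integral_norm _).trans ((integral_mono_of_nonneg (Eventually.of_forall fun x =>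
    norm_nonneg _) hGi hle).trans ?_)
  rw [integral_const_mul, integral_add (integrable_finsetSum _ fun i _ => (int_norm_mul (gi v i) (Z φ)).1)
    (int_norm_mul (Z v) (Z φ)).1, integral_finsetSum _ fun i _ => (int_norm_mul (gi v i) (Z φ)).1]
  have f1 : ∑ i, ∫ x, ‖(gi v i : En d → En d) x‖ * ‖(Z φ : En d → En d) x‖ ≤ d * (‖v‖ * (√C * ‖φ‖)) := by
    refine (Finset.sum_le_sum fun i _ => (int_norm_mul (gi v i) (Z φ)).2.trans
      (mul_le_mul (gi_le v i) (hZn φ) (norm_nonneg _) (norm_nonneg _))).trans ?_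
    rw [Finset.sum_const, Finset.card_univ, Fintype.card_fin, nsmul_eq_mul]
  have f2 : ∫ x, ‖(Z v : En d → En d) x‖ * ‖(Z φ : En d → En d) x‖ ≤ (√C * ‖v‖) * (√C * ‖φ‖) :=
    (int_norm_mul (Z v) (Z φ)).2.trans (mul_le_mul (hZn v) (hZn φ) (norm_nonneg _) (by positivity))
  have f3 : (√C * ‖v‖) * (√C * ‖φ‖) = C * (‖v‖ * ‖φ‖) := by
    calc (√C * ‖v‖) * (√C * ‖φ‖) = (√C * √C) * (‖v‖ * ‖φ‖) := by ring
      _ = _ := by rw [Real.mul_self_sqrt hC.le]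
  refine (mul_le_mul_of_nonneg_left (add_le_add f1 (f2.trans (le_of_eq f3))) hκ).trans (le_of_eq ?_)
  ring

/-- **Bounded fields.** -/
theorem TvD_bdd {w : En d → En d} {c : ℝ} (hc : 0 ≤ c) (h1 : ∀ x ∈ D, ‖w x‖ ≤ c)
    (h2 : ∀ x ∈ D, ‖fderiv ℝ w x‖ ≤ c) (v φ : VD D) :
    |⟪TvD D w v, io D φ⟫| ≤ c * (‖v‖ + ‖io D v‖) * ‖io D φ‖ := by
  refine (abs_real_inner_le_norm _ _).trans (mul_le_mul_of_nonneg_right ?_ (norm_nonneg _))
  refine (OpD_le_apply hc hc h1 h2 v).trans (le_of_eq ?_)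
  ring

end

section
variable {H V W' : Type} [NormedAddCommGroup H] [InnerProductSpace ℝ H] [NormedAddCommGroup V]
  [NormedSpace ℝ V]

/-- `x ↦ ⟪x, ι ·⟫` -/
noncomputable def jf (ι : V →L[ℝ] H) : H →L[ℝ] V →L[ℝ] ℝ :=
  LinearMap.mkContinuous₂ (LinearMap.mk₂ ℝ (fun (x : H) (φ : V) => ⟪x, ι φ⟫)
    (fun x y φ => inner_add_left _ _ _) (fun c x φ => real_inner_smul_left _ _ _)
    (fun x φ ψ => by rw [map_add, inner_add_right]) (fun c x φ => by rw [map_smul, real_inner_smul_right]; rfl))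
    ‖ι‖ fun x φ => by
      refine (norm_inner_le_norm (𝕜 := ℝ) _ _).trans ?_
      calc ‖x‖ * ‖ι φ‖ ≤ ‖x‖ * (‖ι‖ * ‖φ‖) := mul_le_mul_of_nonneg_left (ι.le_opNorm φ) (norm_nonneg _)
        _ = ‖ι‖ * ‖x‖ * ‖φ‖ := by ring

@[simp] theorem jf_apply (ι : V →L[ℝ] H) (x : H) (φ : V) : jf ι x φ = ⟪x, ι φ⟫ := rfl

end

end Pool.Agent.Lib.MP_79abb3_an.W
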