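import Pool.Agent.Lib.MP_79abb3_an.W.DEa
import Pool.Agent.Lib.MP_79abb3_an.W.DEd
import Pool.Agent.Lib.MP_79abb3_an.W.DEf

/-!
Theorem W (MP_79abb3_an), block DE: the fast transport of the slow field; time dependent coefficients.
-/

set_option autoImplicit false
set_option linter.unusedSectionVars false

open MeasureTheory Set Filter Topology Function
open scoped ENNReal RealInnerProductSpace

namespace Pool.Agent.Lib.MP_79abb3_an.W

section
variable {d : ℕ} {D : Set (En d)}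

theorem lieF_add_right (hD : IsOpen D) {p f g : En d → En d} (hf : BD D f) (hg : BD D g) {x : En d} (hx : x ∈ D) :
    lieF p (fun x => f x + g x) x = lieF p f x + lieF p g x := by
  unfold lieF
  rw [fderiv_fun_add (hf.differentiableAt hD hx) (hg.differentiableAt hD hx), _root_.add_apply, map_add]
  abel

theorem lieF_smul_right (hD : IsOpen D) (c : ℝ) {p f : En d → En d} (hf : BD D f) {x : En d} (hx : x ∈ D) :
    lieF p (fun x => c • f x) x = c • lieF p f x := by
  unfold lieF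
  rw [fderiv_fun_const_smul (hf.differentiableAt hD hx), _root_.smul_apply, map_smul, smul_add]

theorem lieF_congr_right (hD : IsOpen D) {p f g : En d → En d} (h : ∀ x ∈ D, f x = g x) {x : En d} (hx : x ∈ D) :
    lieF p f x = lieF p g x := by
  unfold lieF
  rw [fderiv_congr_on hD h hx, h x hx]

theorem lieF_le {p f : En d → En d} {x : En d} {A B : ℝ} (h1 : ‖p x‖ ≤ A) (h2 : ‖fderiv ℝ p x‖ ≤ A)
    (h3 : ‖f x‖ ≤ B) (h4 : ‖fderiv ℝ f x‖ ≤ B) : ‖lieF p f x‖ ≤ 2 * A * B := by
  unfold lieF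
  refine (norm_add_le _ _).trans ?_
  have e1 : ‖fderiv ℝ f x (p x)‖ ≤ B * A :=
    ((fderiv ℝ f x).le_opNorm _).trans (mul_le_mul h4 h1 (norm_nonneg _) ((norm_nonneg _).trans h4))
  have e2 : ‖ContinuousLinearMap.adjoint (fderiv ℝ p x) (f x)‖ ≤ A * B := by
    refine ((ContinuousLinearMap.adjoint (fderiv ℝ p x)).le_opNorm _).trans ?_
    rw [LinearIsometryEquiv.norm_map]
    exact mul_le_mul h2 h3 (norm_nonneg _) ((norm_nonneg _).trans h2)
  linarith [mul_comm A B]

theorem linD_PcD (hD : IsOpen D) (hb : Bornology.IsBounded D) : LinD D (PcD D : (En d → En d) → HD D) where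
  congr _ _ h := PcD_congr h
  add _ _ hf hg := PcD_add hb (hf.bm hD) (hg.bm hD)
  smul c _ hf := PcD_smul hb c (hf.bm hD)

theorem linD_lieF (hD : IsOpen D) (hb : Bornology.IsBounded D) {p : En d → En d} (hp : BD D p) :
    LinD D fun s => PcD D (lieF p s) where
  congr f g h := PcD_congr fun x hx => lieF_congr_right hD h hx
  add f g hf hg := by
    rw [← PcD_add hb ((hp.lieF hD hf).bm hD) ((hp.lieF hD hg).bm hD)]
    exact PcD_congr fun x hx => lieF_add_right hD hf hg hx
  smul c f hf := by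
    rw [← PcD_smul hb c ((hp.lieF hD hf).bm hD)]
    exact PcD_congr fun x hx => lieF_smul_right hD c hf hx

theorem linD_TvD (hD : IsOpen D) : LinD D fun w => TvD D w where
  congr f g h := OpD_congr h fun x hx => fderiv_congr_on hD h hx
  add f g hf hg := by
    have h1 : Bm D (Dm f) := hf.bm_fderiv hD
    have h2 : Bm D (Dm g) := hg.bm_fderiv hD
    unfold TvD
    rw [← OpD_add (hf.bm hD) (hg.bm hD) h1 h2]
    exact OpD_congr (fun x _ => rfl) fun x hx =>
      fderiv_fun_add (hf.differentiableAt hD hx) (hg.differentiableAt hD hx)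
  smul c f hf := by
    have h1 : Bm D (Dm f) := hf.bm_fderiv hD
    unfold TvD
    rw [← OpD_smul c (hf.bm hD) h1]
    exact OpD_congr (fun x _ => rfl) fun x hx => fderiv_fun_const_smul (hf.differentiableAt hD hx) c

/-- bound of the projected Lie derivative -/
theorem PcD_lieF_le (hD : IsOpen D) (hb : Bornology.IsBounded D) {p s : En d → En d} (hp : BD D p) (hs : BD D s)
    {A B : ℝ} (hA : 0 ≤ A) (hB : 0 ≤ B) (h1 : Bk D 1 A p) (h2 : Bk D 1 B s) :
    ‖PcD D (lieF p s)‖ ≤ √(volume.real D) * (2 * A * B) :=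
  PcD_le hD.measurableSet hb (by positivity) ((hp.lieF hD hs).bm hD) fun x hx =>
    lieF_le (h1.le0 hx) (h1.le1 hx) (h2.le0 hx) (h2.le1 hx)

/-! ### The operators of a field of class `BD` -/

theorem Dt_norm (w : En d → En d) (x : En d) : ‖Dt w x‖ = ‖fderiv ℝ w x‖ := by
  unfold Dt
  rw [LinearIsometryEquiv.norm_map]

theorem dv_abs_le (w : En d → En d) (x : En d) : |dv w x| ≤ d * ‖fderiv ℝ w x‖ := by
  unfold dv
  refine (Finset.abs_sum_le_sum_abs _ _).trans ?_
  have h1 : ∀ i ∈ (Finset.univ : Finset (Fin d)), |pd i w x i| ≤ ‖fderiv ℝ w x‖ := fun i _ => by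
    have h2 : |pd i w x i| ≤ ‖pd i w x‖ := by
      have := PiLp.norm_apply_le (pd i w x) i
      rwa [Real.norm_eq_abs] at this
    refine h2.trans ?_
    have h3 := (fderiv ℝ w x).le_opNorm (ei i : En d)
    have h4 : ‖(ei i : En d)‖ = 1 := by
      show ‖EuclideanSpace.single i (1:ℝ)‖ = 1
      simp
    rw [h4, mul_one] at h3
    exact h3
  refine (Finset.sum_le_sum h1).trans ?_
  rw [Finset.sum_const, Finset.card_univ, Fintype.card_fin, nsmul_eq_mul]

theorem Dd_norm_le (w : En d → En d) (x : En d) : ‖Dd w x‖ ≤ (1 + d) * ‖fderiv ℝ w x‖ := by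
  unfold Dd
  refine (norm_sub_le _ _).trans ?_
  have h1 : ‖dv w x • ContinuousLinearMap.id ℝ (En d)‖ ≤ |dv w x| * 1 := by
    rw [norm_smul, Real.norm_eq_abs]
    exact mul_le_mul_of_nonneg_left ContinuousLinearMap.norm_id_le (abs_nonneg _)
  have h2 := dv_abs_le w x
  linarith

theorem Ds_norm_le (w : En d → En d) (x : En d) : ‖Ds w x‖ ≤ (1 + d) * ‖fderiv ℝ w x‖ := by
  unfold Ds
  rw [norm_smul, Real.norm_eq_abs, abs_of_pos (by norm_num : (0:ℝ) < 1 / 2)]
  have h1 := norm_add_le (Dt w x) (Dd w x)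
  have h2 := Dt_norm w x
  have h3 := Dd_norm_le w x
  have h4 : 0 ≤ (d:ℝ) * ‖fderiv ℝ w x‖ := by positivity
  nlinarith [norm_nonneg (fderiv ℝ w x)]

theorem LvD_norm_le {w : En d → En d} {A : ℝ} (hA : 0 ≤ A) (h : Bk D 1 A w) : ‖LvD D w‖ ≤ A * (1 + ‖io D‖) :=
  OpD_le hA (fun x hx => h.le0 hx) fun x hx => by rw [Dt_norm]; exact h.le1 hx

theorem LpD_norm_le {w : En d → En d} {A : ℝ} (hA : 0 ≤ A) (h : Bk D 1 A w) :
    ‖LpD D w‖ ≤ ((1 + d) * A) * (1 + ‖io D‖) := by
  unfold LpD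
  rw [ContinuousLinearMap.opNorm_neg]
  refine OpD_le (by positivity) (fun x hx => ?_) fun x hx => ?_
  · have h1 : ‖w x‖ ≤ A := h.le0 hx
    have h2 : 0 ≤ (d:ℝ) * A := by positivity
    linarith
  · rw [norm_neg]
    exact (Dd_norm_le w x).trans (mul_le_mul_of_nonneg_left (h.le1 hx) (by positivity))

theorem MuDs_norm_le {w : En d → En d} {A : ℝ} (hA : 0 ≤ A) (h : Bk D 1 A w) : ‖MuD D (Ds w)‖ ≤ (1 + d) * A :=
  MuD_le (by positivity) fun x hx => (Ds_norm_le w x).trans (mul_le_mul_of_nonneg_left (h.le1 hx) (by positivity))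

/-! ### The background as trigonometric polynomial -/

theorem Wav.bdU (W : Wav d) (hD : IsOpen D) (hp : ∀ j, BD D (W.p j)) (hr : ∀ j, BD D (W.r j)) (θ : ℝ) :
    BD D (W.U θ) :=
  BD.sum hD _ fun j _ => ((hp j).const_smul hD _).add hD ((hr j).const_smul hD _)

theorem Wav.fderiv_U (W : Wav d) (hD : IsOpen D) (hp : ∀ j, BD D (W.p j)) (hr : ∀ j, BD D (W.r j)) (θ : ℝ)
    {x : En d} (hx : x ∈ D) : fderiv ℝ (W.U θ) x = ∑ j, (Real.cos (W.α j * θ) • fderiv ℝ (W.p j) x +
        Real.sin (W.α j * θ) • fderiv ℝ (W.r j) x) := by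
  unfold Wav.U
  rw [fderiv_fun_sum fun j _ => (((hp j).differentiableAt hD hx).fun_const_smul _).fun_add
    (((hr j).differentiableAt hD hx).fun_const_smul _)]
  refine Finset.sum_congr rfl fun j _ => ?_
  rw [fderiv_fun_add (((hp j).differentiableAt hD hx).fun_const_smul _)
    (((hr j).differentiableAt hD hx).fun_const_smul _),
    fderiv_fun_const_smul ((hp j).differentiableAt hD hx), fderiv_fun_const_smul ((hr j).differentiableAt hD hx)]

/-- `P L_{U(θ)} s` -/
theorem Wav.PcD_lieF (W : Wav d) (hD : IsOpen D) (hb : Bornology.IsBounded D) (hp : ∀ j, BD D (W.p j))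
    (hr : ∀ j, BD D (W.r j)) {s : En d → En d} (hs : BD D s) (θ : ℝ) :
    PcD D (lieF (W.U θ) s) = tp W.α (fun j => PcD D (lieF (W.p j) s)) (fun j => PcD D (lieF (W.r j) s)) θ := by
  have h1 : ∀ x ∈ D, lieF (W.U θ) s x =
      ∑ j, (Real.cos (W.α j * θ) • lieF (W.p j) s x + Real.sin (W.α j * θ) • lieF (W.r j) s x) := by
    intro x hx
    have h2 := W.fderiv_U hD hp hr θ hx
    unfold lieF
    rw [h2, ← adjL_apply, map_sum]
    unfold Wav.U
    rw [map_sum, sum_apply, ← Finset.sum_add_distrib]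
    refine Finset.sum_congr rfl fun j _ => ?_
    rw [map_add, map_add, map_smul, map_smul, map_smul, map_smul, _root_.add_apply, _root_.smul_apply,
      _root_.smul_apply, adjL_apply, adjL_apply]
    module
  rw [PcD_congr h1, PcD_sum hb]
  · unfold tp
    refine Finset.sum_congr rfl fun j _ => ?_
    rw [PcD_add hb (((hp j).lieF hD hs).bm hD |>.smul _) (((hr j).lieF hD hs).bm hD |>.smul _),
      PcD_smul hb _ (((hp j).lieF hD hs).bm hD), PcD_smul hb _ (((hr j).lieF hD hs).bm hD)]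
  · exact fun j _ => ((((hp j).lieF hD hs).bm hD).smul _).add ((((hr j).lieF hD hs).bm hD).smul _)

/-- the generator -/
theorem Wav.LvD_eq (W : Wav d) (hD : IsOpen D) (hb : Bornology.IsBounded D) (hp : ∀ j, BD D (W.p j))
    (hr : ∀ j, BD D (W.r j)) (θ : ℝ) :
    LvD D (W.U θ) = tp W.α (fun j => LvD D (W.p j)) (fun j => LvD D (W.r j)) θ := by
  have hb1 : ∀ {w : En d → En d}, BD D w → Bm D w := fun hw => hw.bm hD
  have hb2 : ∀ {w : En d → En d}, BD D w → Bm D (Dt w) := fun hw => (hw.Dt hD).bm hD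
  unfold LvD
  have h1 : OpD D (W.U θ) (Dt (W.U θ)) =
      OpD D (fun x => ∑ j, (Real.cos (W.α j * θ) • W.p j x + Real.sin (W.α j * θ) • W.r j x))
        (fun x => ∑ j, (Real.cos (W.α j * θ) • Dt (W.p j) x + Real.sin (W.α j * θ) • Dt (W.r j) x)) := by
    refine OpD_congr (fun x _ => rfl) fun x hx => ?_
    unfold Dt
    rw [W.fderiv_U hD hp hr θ hx, ← adjL_apply, map_sum]
    refine Finset.sum_congr rfl fun j _ => ?_
    rw [map_add, map_smul, map_smul, adjL_apply, adjL_apply]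
  rw [h1, OpD_sum]
  · unfold tp
    refine Finset.sum_congr rfl fun j _ => ?_
    rw [OpD_add ((hb1 (hp j)).smul _) ((hb1 (hr j)).smul _) ((hb2 (hp j)).smul _) ((hb2 (hr j)).smul _),
      OpD_smul _ (hb1 (hp j)) (hb2 (hp j)), OpD_smul _ (hb1 (hr j)) (hb2 (hr j))]
  · exact fun j _ => ((hb1 (hp j)).smul _).add ((hb1 (hr j)).smul _)
  · exact fun j _ => ((hb2 (hp j)).smul _).add ((hb2 (hr j)).smul _)

end

end Pool.Agent.Lib.MP_79abb3_an.W
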