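import Pool.Agent.Lib.MP_79abb3_an.W.DEd
import Pool.Agent.Lib.MP_79abb3_an.W.DEh
import Pool.Agent.Lib.MP_79abb3_an.W.SpG2

/-!
Theorem W (MP_79abb3_an), block DE: ingredients of the data of the energy estimate.
-/

set_option autoImplicit false
set_option linter.unusedSectionVars false

open MeasureTheory Set Filter Topology Function
open scoped ENNReal RealInnerProductSpace

namespace Pool.Agent.Lib.MP_79abb3_an.W

/-! ### Approximation by elements of `V` -/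

section
variable {H V : Type} [NormedAddCommGroup H] [InnerProductSpace ℝ H] [NormedAddCommGroup V]
  [InnerProductSpace ℝ V]

/-- `y` approximates `x` -/
structure AppV (ι : V →L[ℝ] H) (A B C : ℝ) (x : H) (y : V) : Prop where
  a : ‖y‖ ≤ A
  b : ‖x - ι y‖ ≤ B
  c : ∀ e : V, |⟪ι e, x - ι y⟫| ≤ C * ‖e‖

theorem tp_sub_map (ι : V →L[ℝ] H) {n : ℕ} (α : Fin n → ℕ) (x x' : Fin n → H) (y y' : Fin n → V) (θ : ℝ) :
    tp α x x' θ - ι (tp α y y' θ) = tp α (fun j => x j - ι (y j)) (fun j => x' j - ι (y' j)) θ := by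
  unfold tp
  rw [map_sum, ← Finset.sum_sub_distrib]
  refine Finset.sum_congr rfl fun j _ => ?_
  rw [map_add, map_smul, map_smul]
  module

theorem inner_tp (u : H) {n : ℕ} (α : Fin n → ℕ) (x x' : Fin n → H) (θ : ℝ) :
    ⟪u, tp α x x' θ⟫ = tp α (fun j => ⟪u, x j⟫) (fun j => ⟪u, x' j⟫) θ := by
  simp only [tp, inner_sum, inner_add_right, real_inner_smul_right, smul_eq_mul]

theorem AppV.tp {ι : V →L[ℝ] H} {n : ℕ} {α : Fin n → ℕ} {x x' : Fin n → H} {y y' : Fin n → V} {A B C : ℝ}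
    (h : ∀ j, AppV ι A B C (x j) (y j)) (h' : ∀ j, AppV ι A B C (x' j) (y' j)) (θ : ℝ) :
    AppV ι (n * (2 * A)) (n * (2 * B)) (n * (2 * C)) (W.tp α x x' θ) (W.tp α y y' θ) where
  a := tp_le α y y' (fun j => (h j).a) (fun j => (h' j).a) θ
  b := by
    rw [tp_sub_map]
    exact tp_le α _ _ (fun j => (h j).b) (fun j => (h' j).b) θ
  c e := by
    rw [tp_sub_map, inner_tp]
    have h1 := tp_le α (fun j => ⟪ι e, x j - ι (y j)⟫) (fun j => ⟪ι e, x' j - ι (y' j)⟫)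
      (M := C * ‖e‖) (fun j => (h j).c e) (fun j => (h' j).c e) θ
    rw [Real.norm_eq_abs] at h1
    refine h1.trans (le_of_eq ?_)
    ring

/-- the Young inequality for the Leray bound -/
theorem nu_young {a b η K : ℝ} (ha : 0 ≤ a) (hb : 0 ≤ b) (hη : 0 < η) (hK : 1 ≤ K) :
    (a ^ (1 / 4 : ℝ) * b ^ (3 / 4 : ℝ)) ^ 2 ≤ η * b ^ 2 + K / η ^ 3 * a ^ 2 := by
  have h1 : (a ^ (1 / 4 : ℝ) * b ^ (3 / 4 : ℝ)) ^ 2 = (a ^ 2 / η ^ 3) ^ (1 / 4 : ℝ) * (η * b ^ 2) ^ (3 / 4 : ℝ) := by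
    rw [mul_pow, Real.div_rpow (by positivity) (by positivity), Real.mul_rpow hη.le (by positivity)]
    have e1 : (η ^ 3 : ℝ) ^ (1 / 4 : ℝ) = η ^ (3 / 4 : ℝ) := by
      rw [← Real.rpow_natCast, ← Real.rpow_mul hη.le]
      norm_num
    have e2 : (a ^ (1 / 4 : ℝ)) ^ 2 = (a ^ 2) ^ (1 / 4 : ℝ) := by
      rw [← Real.rpow_natCast, ← Real.rpow_natCast, ← Real.rpow_mul ha, ← Real.rpow_mul ha]
      norm_num
    have e3 : (b ^ (3 / 4 : ℝ)) ^ 2 = (b ^ 2) ^ (3 / 4 : ℝ) := by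
      rw [← Real.rpow_natCast, ← Real.rpow_natCast, ← Real.rpow_mul hb, ← Real.rpow_mul hb]
      norm_num
    rw [e1, e2, e3]
    have e4 : (0:ℝ) < η ^ (3 / 4 : ℝ) := Real.rpow_pos_of_pos hη _
    field_simp
  rw [h1]
  have h2 := Real.geom_mean_le_arith_mean2_weighted (w₁ := 1 / 4) (w₂ := 3 / 4) (p₁ := a ^ 2 / η ^ 3)
    (p₂ := η * b ^ 2) (by norm_num) (by norm_num) (by positivity) (by positivity) (by norm_num)
  refine h2.trans ?_
  have h3 : a ^ 2 / η ^ 3 ≤ K / η ^ 3 * a ^ 2 := by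
    rw [div_mul_eq_mul_div]
    refine div_le_div_of_nonneg_right ?_ (by positivity)
    nlinarith [sq_nonneg a]
  have h4 : 0 ≤ η * b ^ 2 := by positivity
  have h5 : 0 ≤ a ^ 2 / η ^ 3 := by positivity
  linarith

end

/-! ### The slow field -/

section
variable {d : ℕ} {D : Set (En d)}

/-- the nonlinearity as a trilinear form -/
noncomputable def cN (D : Set (En d)) (m : ℕ) : VD D →L[ℝ] VD D →L[ℝ] VD D →L[ℝ] ℝ :=
  ((jf (io D)).postcomp (VD D)).comp ((Nm D m).comp (io D))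

theorem cN_apply (m : ℕ) (u v φ : VD D) : cN D m u v φ = ⟪Nm D m (io D u) v, io D φ⟫ := rfl

/-- `P L_{U(θ)} Sa(t)` -/
noncomputable def DIn.asF (I : DIn d) (D : Set (En d)) (θ t : ℝ) : HD D :=
  tp I.wv.α (fun j => PcD D (lieF (I.wv.p j) (I.Sa t))) (fun j => PcD D (lieF (I.wv.r j) (I.Sa t))) θ

/-- `P L_{Ξ(θ)} Sa(t)` -/
noncomputable def DIn.bsF (I : DIn d) (D : Set (En d)) (θ t : ℝ) : HD D :=
  tq I.wv.α (fun j => PcD D (lieF (I.wv.p j) (I.Sa t))) (fun j => PcD D (lieF (I.wv.r j) (I.Sa t))) θ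

/-- `∂_t Sa + fN` -/
noncomputable def DIn.sF (I : DIn d) (D : Set (En d)) (t : ℝ) : HD D := PcD D fun x => dtm I.Sa t x + I.fN t x

theorem tp_sub {X : Type} [NormedAddCommGroup X] [NormedSpace ℝ X] {n : ℕ} (α : Fin n → ℕ) (x x' y y' : Fin n → X)
    (θ : ℝ) : tp α x x' θ - tp α y y' θ = tp α (fun j => x j - y j) (fun j => x' j - y' j) θ := by
  unfold tp
  rw [← Finset.sum_sub_distrib]
  refine Finset.sum_congr rfl fun j _ => ?_
  module

theorem tq_sub {X : Type} [NormedAddCommGroup X] [NormedSpace ℝ X] {n : ℕ} (α : Fin n → ℕ) (x x' y y' : Fin n → X)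
    (θ : ℝ) : tq α x x' θ - tq α y y' θ = tq α (fun j => x j - y j) (fun j => x' j - y' j) θ := by
  unfold tq
  rw [← Finset.sum_sub_distrib]
  refine Finset.sum_congr rfl fun j _ => ?_
  module

end

end Pool.Agent.Lib.MP_79abb3_an.W
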