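import Pool.Agent.Lib.MP_79abb3_an.W.DEe
import Pool.Agent.Lib.MP_79abb3_an.W.DEi
import Pool.Agent.Lib.MP_79abb3_an.W.DEj

/-!
Theorem W (MP_79abb3_an), block DE: bounds of the slow fields.
-/

set_option autoImplicit false
set_option linter.unusedSectionVars false

open MeasureTheory Set Filter Topology Function
open scoped ENNReal RealInnerProductSpace

namespace Pool.Agent.Lib.MP_79abb3_an.W

section
variable {d : ℕ} {D : Set (En d)} {z : En d → ℝ} {δ : ℝ} {I : DIn d} {Ω : Set (En d)} {κ₀ MS M CV δ' γ : ℝ}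

theorem DIn.OK.M0 (hI : I.OK D Ω z κ₀ MS M CV δ' γ) : 0 ≤ M := (Nat.cast_nonneg _).trans hI.nM

theorem DIn.OK.q0 (hI : I.OK D Ω z κ₀ MS M CV δ' γ) : 0 < I.q := zero_lt_one.trans_le hI.q1

/-- the matrix field of the damping is bounded and measurable -/
theorem DIn.OK.bmχ (hI : I.OK D Ω z κ₀ MS M CV δ' γ) (hD : IsOpen D) :
    Bm D fun x => I.χ x • ContinuousLinearMap.id ℝ (En d) where
  meas := (AEMeasurable.indicator (hI.χm.smul_const _).aemeasurable hD.measurableSet).aestronglyMeasurable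
  bdd := ⟨M, fun x _ => by
    rw [norm_smul, Real.norm_eq_abs, abs_of_nonneg (hI.χ0 x)]
    calc I.χ x * _ ≤ I.χ x * 1 := mul_le_mul_of_nonneg_left ContinuousLinearMap.norm_id_le (hI.χ0 x)
      _ ≤ M := by rw [mul_one]; exact hI.χM x⟩

theorem DIn.OK.inner_m (hI : I.OK D Ω z κ₀ MS M CV δ' γ) (hD : IsOpen D) (u v : HD D) :
    ⟪MuD D (fun x => I.χ x • ContinuousLinearMap.id ℝ (En d)) u, v⟫ =
      ∫ x in D, I.χ x * ⟪((u : L2E d) : En d → En d) x, ((v : L2E d) : En d → En d) x⟫ := by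
  rw [inner_MuD hD.measurableSet (hI.bmχ hD)]
  refine integral_congr_ae (Eventually.of_forall fun x => ?_)
  show ⟪(I.χ x • ContinuousLinearMap.id ℝ (En d)) _, _⟫ = _
  rw [_root_.smul_apply, real_inner_smul_left]
  rfl

/-- bound of the components of `asF` -/
theorem DIn.OK.as_le (hI : I.OK D Ω z κ₀ MS M CV δ' γ) (hD : IsOpen D) (hb : Bornology.IsBounded D) {p : En d → En d}
    (hp : BD D p) (hpM : Bk D 4 M p) {t : ℝ} (ht : t ∈ Icc (0:ℝ) 1) :
    ‖PcD D (lieF p (I.Sa t))‖ ≤ √(volume.real D) * (2 * M * M) :=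
  PcD_lieF_le hD hb hp (hI.sSa.bd hD t) hI.M0 hI.M0 (hpM.mono (by norm_num) le_rfl)
    ((hI.Sab t ht).mono (by norm_num) le_rfl)

/-- Lipschitz bound of the components of `asF` -/
theorem DIn.OK.as_lip (hI : I.OK D Ω z κ₀ MS M CV δ' γ) (hD : IsOpen D) (hb : Bornology.IsBounded D) {p : En d → En d}
    (hp : BD D p) (hpM : Bk D 4 M p) {t s : ℝ} (ht : t ∈ Icc (0:ℝ) 1) (hs : s ∈ Icc (0:ℝ) 1) :
    ‖PcD D (lieF p (I.Sa t)) - PcD D (lieF p (I.Sa s))‖ ≤ √(volume.real D) * (2 * M * M) * |t - s| :=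
  hI.sSa.map_lip hD (linD_lieF hD hb hp) (fun r hr => PcD_lieF_le hD hb hp (hI.sSa.dtm.bd hD r) hI.M0 hI.M0
    (hpM.mono (by norm_num) le_rfl) (hI.Sad r hr)) hs ht

/-- `n (2 x)` with `n ≤ M` -/
theorem DIn.OK.n_le (hI : I.OK D Ω z κ₀ MS M CV δ' γ) {x : ℝ} (hx : 0 ≤ x) : I.wv.n * (2 * x) ≤ M * (2 * x) :=
  mul_le_mul_of_nonneg_right hI.nM (by positivity)

theorem DIn.OK.asb (hI : I.OK D Ω z κ₀ MS M CV δ' γ) (hD : IsOpen D) (hb : Bornology.IsBounded D)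
    {t : ℝ} (ht : t ∈ Icc (0:ℝ) 1) (θ : ℝ) : ‖I.asF D θ t‖ ≤ M * (2 * (√(volume.real D) * (2 * M * M))) := by
  have hM := hI.M0
  exact (tp_le _ _ _ (fun j => hI.as_le hD hb (hI.bp j) (hI.kp j) ht) (fun j => hI.as_le hD hb (hI.br j) (hI.kr j) ht)
    θ).trans (hI.n_le (by positivity))

theorem DIn.OK.bsb (hI : I.OK D Ω z κ₀ MS M CV δ' γ) (hD : IsOpen D) (hb : Bornology.IsBounded D)
    {t : ℝ} (ht : t ∈ Icc (0:ℝ) 1) (θ : ℝ) : ‖I.bsF D θ t‖ ≤ M * (2 * (√(volume.real D) * (2 * M * M))) := by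
  have hM := hI.M0
  exact (tq_le _ _ _ hI.α0 (fun j => hI.as_le hD hb (hI.bp j) (hI.kp j) ht)
    (fun j => hI.as_le hD hb (hI.br j) (hI.kr j) ht) θ).trans (hI.n_le (by positivity))

theorem DIn.OK.asl (hI : I.OK D Ω z κ₀ MS M CV δ' γ) (hD : IsOpen D) (hb : Bornology.IsBounded D)
    {t s : ℝ} (ht : t ∈ Icc (0:ℝ) 1) (hs : s ∈ Icc (0:ℝ) 1) (θ : ℝ) :
    ‖I.asF D θ t - I.asF D θ s‖ ≤ M * (2 * (√(volume.real D) * (2 * M * M))) * |t - s| := by
  have hM := hI.M0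
  have h1 := (tp_le I.wv.α _ _ (fun j => hI.as_lip hD hb (hI.bp j) (hI.kp j) ht hs)
    (fun j => hI.as_lip hD hb (hI.br j) (hI.kr j) ht hs) θ).trans (hI.n_le (by positivity))
  unfold DIn.asF
  rw [tp_sub]
  refine h1.trans (le_of_eq ?_)
  ring

theorem DIn.OK.bsl (hI : I.OK D Ω z κ₀ MS M CV δ' γ) (hD : IsOpen D) (hb : Bornology.IsBounded D)
    {t s : ℝ} (ht : t ∈ Icc (0:ℝ) 1) (hs : s ∈ Icc (0:ℝ) 1) (θ : ℝ) :
    ‖I.bsF D θ t - I.bsF D θ s‖ ≤ M * (2 * (√(volume.real D) * (2 * M * M))) * |t - s| := by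
  have hM := hI.M0
  have h1 := (tq_le I.wv.α _ _ hI.α0 (fun j => hI.as_lip hD hb (hI.bp j) (hI.kp j) ht hs)
    (fun j => hI.as_lip hD hb (hI.br j) (hI.kr j) ht hs) θ).trans (hI.n_le (by positivity))
  unfold DIn.bsF
  rw [tq_sub]
  refine h1.trans (le_of_eq ?_)
  ring

theorem DIn.OK.cas (hI : I.OK D Ω z κ₀ MS M CV δ' γ) (hD : IsOpen D) (hb : Bornology.IsBounded D) :
    Continuous fun p : ℝ × ℝ => I.asF D p.1 p.2 := by
  unfold DIn.asF tp
  refine continuous_finsetSum _ fun j _ => Continuous.add ?_ ?_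
  · have h1 : Continuous fun p : ℝ × ℝ => Real.cos (I.wv.α j * p.1) := by fun_prop
    exact h1.smul ((hI.sSa.map_cont hD (linD_lieF hD hb (hI.bp j))).comp continuous_snd)
  · have h1 : Continuous fun p : ℝ × ℝ => Real.sin (I.wv.α j * p.1) := by fun_prop
    exact h1.smul ((hI.sSa.map_cont hD (linD_lieF hD hb (hI.br j))).comp continuous_snd)

theorem DIn.OK.ssF (hI : I.OK D Ω z κ₀ MS M CV δ' γ) : Sep D fun t x => dtm I.Sa t x + I.fN t x :=
  hI.sSa.dtm.add hI.sfN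

theorem DIn.OK.csF (hI : I.OK D Ω z κ₀ MS M CV δ' γ) (hD : IsOpen D) (hb : Bornology.IsBounded D) :
    Continuous (I.sF D) := hI.ssF.map_cont hD (linD_PcD hD hb)

theorem DIn.OK.sFb (hI : I.OK D Ω z κ₀ MS M CV δ' γ) (hD : IsOpen D) (hb : Bornology.IsBounded D)
    {t : ℝ} (ht : t ∈ Icc (0:ℝ) 1) : ‖I.sF D t‖ ≤ √(volume.real D) * (2 * M) := by
  have hM := hI.M0
  refine PcD_le hD.measurableSet hb (by positivity) ((hI.ssF.bd hD t).bm hD) fun x hx => ?_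
  have h1 := norm_add_le (dtm I.Sa t x) (I.fN t x)
  have h2 := (hI.Sad t ht).le0 hx
  have h3 := hI.fNb t ht x hx
  linarith

/-- `a² ⟨drift of Sa, φ⟩ + ⟨∂_t Sa + fN, φ⟩` is small -/
theorem DIn.OK.drδ (hI : I.OK D Ω z κ₀ MS M CV δ' γ) (hD : IsOpen D) (hb : Bornology.IsBounded D)
    {t : ℝ} (ht : t ∈ Icc (0:ℝ) 1) (φ : VD D) :
    |I.a t ^ 2 * (I.wv.fast hD hb hI.α0 hI.bp hI.br).drS (fun θ => I.bsF D θ t) φ + ⟪I.sF D t, io D φ⟫| ≤
      δ' * ‖io D φ‖ := by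
  have h1 : (I.wv.fast hD hb hI.α0 hI.bp hI.br).drS (fun θ => I.bsF D θ t) φ =
      ⟪PcD D (lieF I.wv.Vb (I.Sa t)), io D φ⟫ :=
    I.wv.drS_eq hD hb hI.α0 hI.αi hI.bp hI.br (hI.sSa.bd hD t) φ
  have hV := (I.wv.bdVb hD hI.bp hI.br).lieF hD (hI.sSa.bd hD t)
  have h2 : I.a t ^ 2 • PcD D (lieF I.wv.Vb (I.Sa t)) + I.sF D t =
      PcD D (fun x => I.a t ^ 2 • lieF I.wv.Vb (I.Sa t) x + dtm I.Sa t x + I.fN t x) := by
    unfold DIn.sF
    rw [← PcD_smul hb _ (hV.bm hD), ← PcD_add hb ((hV.bm hD).smul _) ((hI.ssF.bd hD t).bm hD)]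
    exact PcD_congr fun x _ => by rw [add_assoc]
  rw [h1, ← real_inner_smul_left, ← inner_add_left, h2]
  exact (abs_real_inner_le_norm _ _).trans (mul_le_mul_of_nonneg_right (hI.sl t ht) (norm_nonneg _))

/-- **The drift is stable** outside of the damping region. -/
theorem DIn.OK.drb (hI : I.OK D Ω z κ₀ MS M CV δ' γ) (hD : IsOpen D) (hb : Bornology.IsBounded D) (v : VD D) :
    -(I.wv.fast hD hb hI.α0 hI.bp hI.br).dr v v ≤ CV * ‖io D v‖ ^ 2 +
      ⟪MuD D (fun x => I.χ x • ContinuousLinearMap.id ℝ (En d)) (io D v), io D v⟫ := by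
  have hV := I.wv.bdVb hD hI.bp hI.br
  have hDs : Bm D (Ds I.wv.Vb) := (hV.Ds hD).bm hD
  have h0 : ⟪LvD D I.wv.Vb v, io D v⟫ = ⟪MuD D (Ds I.wv.Vb) (io D v), io D v⟫ := by
    have h1 := adj_LvD hD hb hV v v
    have h2 := sym_LvD hD hV v
    have h3 : ⟪LvD D I.wv.Vb v + LpD D I.wv.Vb v, io D v⟫ =
        ⟪MuD D (Ds I.wv.Vb) (io D v) + MuD D (Ds I.wv.Vb) (io D v), io D v⟫ := by
      rw [h2, two_smul]
    have h4 : ⟪MuD D (Ds I.wv.Vb) (io D v) + MuD D (Ds I.wv.Vb) (io D v), io D v⟫ =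
        ⟪MuD D (Ds I.wv.Vb) (io D v), io D v⟫ + ⟪MuD D (Ds I.wv.Vb) (io D v), io D v⟫ := inner_add_left _ _ _
    have h5 : ⟪LpD D I.wv.Vb v, io D v⟫ = ⟪io D v, LpD D I.wv.Vb v⟫ := real_inner_comm _ _
    have h6 : ⟪LvD D I.wv.Vb v + LpD D I.wv.Vb v, io D v⟫ = ⟪LvD D I.wv.Vb v, io D v⟫ + ⟪LpD D I.wv.Vb v, io D v⟫ :=
      inner_add_left _ _ _
    linarith
  rw [I.wv.dr_eq hD hb hI.α0 hI.αi hI.bp hI.br, h0, hI.inner_m hD, inner_MuD hD.measurableSet hDs]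
  have hs : ‖io D v‖ ^ 2 = ∫ x in D, ‖(((io D v : HD D) : L2E d) : En d → En d) x‖ ^ 2 := by
    have e1 : ‖io D v‖ ^ 2 = ∫ x, ‖(((io D v : HD D) : L2E d) : En d → En d) x‖ ^ 2 :=
      norm_sq_L2 ((io D v : HD D) : L2E d)
    rw [e1, ← integral_indicator hD.measurableSet]
    refine integral_congr_ae ?_
    filter_upwards [HD_supp (io D v)] with x hx
    by_cases h : x ∈ D
    · rw [indicator_of_mem h]
    · rw [indicator_of_notMem h, hx h, norm_zero]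
      norm_num
  have hi0 : Integrable (fun x => ‖(((io D v : HD D) : L2E d) : En d → En d) x‖ ^ 2)
      ((volume : Measure (En d)).restrict D) :=
    ((Lp.memLp ((io D v : HD D) : L2E d)).integrable_norm_pow two_ne_zero).integrableOn
  have hi1 : Integrable (fun x => I.χ x * ⟪(((io D v : HD D) : L2E d) : En d → En d) x,
      (((io D v : HD D) : L2E d) : En d → En d) x⟫) ((volume : Measure (En d)).restrict D) := by
    refine (hi0.const_mul M).mono' ?_ (Eventually.of_forall fun x => ?_)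
    · simp only [real_inner_self_eq_norm_sq]
      exact hI.χm.aestronglyMeasurable.mul hi0.1
    · rw [real_inner_self_eq_norm_sq, Real.norm_eq_abs, abs_mul, abs_of_nonneg (hI.χ0 x), abs_of_nonneg (sq_nonneg _)]
      exact mul_le_mul_of_nonneg_right (hI.χM x) (sq_nonneg _)
  rw [hs, ← integral_const_mul, ← integral_add (hi0.const_mul CV) hi1, ← integral_neg]
  obtain ⟨c, hc⟩ := hDs.bdd
  refine integral_mono_ae ?_ ((hi0.const_mul CV).add hi1) ?_
  · refine Integrable.neg ?_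
    have h1 : Integrable (fun x => ⟪(Ds I.wv.Vb x) ((((io D v : HD D) : L2E d) : En d → En d) x),
        (((io D v : HD D) : L2E d) : En d → En d) x⟫) ((volume : Measure (En d)).restrict D) := by
      have hm := mu0_ae (bf D (Ds I.wv.Vb)) ((io D v : HD D) : L2E d)
      have h2 : Integrable (fun x => ⟪(mu0 d (bf D (Ds I.wv.Vb)) ((io D v : HD D) : L2E d) : En d → En d) x,
          (((io D v : HD D) : L2E d) : En d → En d) x⟫) volume := L2.integrable_inner (𝕜 := ℝ) _ _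
      refine (h2.restrict (s := D)).congr ?_
      filter_upwards [ae_restrict_of_ae hm, ae_restrict_of_ae (bf_coe hDs), ae_restrict_mem hD.measurableSet] with x
        h3 h4 h5
      rw [h3, h4, indicator_of_mem h5]
    exact h1
  · filter_upwards [ae_restrict_mem hD.measurableSet] with x hx
    have h1 := hI.dr x hx ((((io D v : HD D) : L2E d) : En d → En d) x)
    have h2 : ∀ w : En d, ⟪Ds I.wv.Vb x w, w⟫ = ⟪fderiv ℝ I.wv.Vb x w, w⟫ - 1 / 2 * dv I.wv.Vb x * ‖w‖ ^ 2 := by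
      intro w
      unfold Ds Dt Dd
      rw [_root_.smul_apply, _root_.add_apply, _root_.sub_apply, _root_.smul_apply, real_inner_smul_left,
        inner_add_left, inner_sub_left, ContinuousLinearMap.adjoint_inner_left, real_inner_smul_left,
        real_inner_comm, ContinuousLinearMap.id_apply, real_inner_self_eq_norm_sq]
      ring
    show -⟪_, _⟫ ≤ _
    rw [h2]
    show _ ≤ CV * _ + I.χ x * _
    rw [real_inner_self_eq_norm_sq]
    linarith

end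

end Pool.Agent.Lib.MP_79abb3_an.W
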