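import Pool.Agent.Lib.MP_79abb3_an.W.DEe
import Pool.Agent.Lib.MP_79abb3_an.W.DEg
import Pool.Agent.Lib.MP_79abb3_an.W.DEi
import Pool.Agent.Lib.MP_79abb3_an.W.DEj

/-!
Theorem W (MP_79abb3_an), block DE: the data of the energy estimate (instance of `EData`).
-/

set_option autoImplicit false
set_option linter.unusedSectionVars false

open MeasureTheory Set Filter Topology Function
open scoped ENNReal RealInnerProductSpace

namespace Pool.Agent.Lib.MP_79abb3_an.W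

section
variable {d : ℕ} {D : Set (En d)} {z : En d → ℝ} {δ : ℝ} {I : DIn d} {Ω : Set (En d)} {κ₀ MS M CV δ' γ : ℝ}

/-- the linear form of the slow terms -/
noncomputable def DIn.dF (I : DIn d) (D : Set (En d)) (t : ℝ) : VD D →L[ℝ] VD D →L[ℝ] ℝ :=
  jf (ContinuousLinearMap.id ℝ (VD D)) + (jf (io D)).comp (TvD D (I.R t) + TvD D (I.Se t))

theorem DIn.dF_apply (I : DIn d) (D : Set (En d)) (t : ℝ) (v φ : VD D) :
    I.dF D t v φ = ⟪v, φ⟫ + (⟪TvD D (I.R t) v, io D φ⟫ + ⟪TvD D (I.Se t) v, io D φ⟫) := by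
  unfold DIn.dF
  rw [_root_.add_apply, _root_.add_apply, jf_apply, ContinuousLinearMap.comp_apply, jf_apply, _root_.add_apply,
    inner_add_left]
  rfl

/-- **The data of the energy estimate.** -/
noncomputable def DIn.OK.E (hI : I.OK D Ω z κ₀ MS M CV δ' γ) (hD : IsOpen D) (hb : Bornology.IsBounded D) (m : ℕ) :
    EData (HD D) (VD D) where
  toFast := I.wv.fast hD hb hI.α0 hI.bp hI.br
  c := cN D m
  d := I.dF D
  g t := -(I.b • jf (io D) (PcD D (I.r t)))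
  m := MuD D (fun x => I.χ x • ContinuousLinearMap.id ℝ (En d))
  as := I.asF D
  bs := I.bsF D
  s' := I.sF D
  a := I.a
  n v := ‖io D v‖ ^ (1 / 4 : ℝ) * ‖v‖ ^ (3 / 4 : ℝ)
  q := I.q
  b := I.b

theorem DIn.OK.E_A (hI : I.OK D Ω z κ₀ MS M CV δ' γ) (hD : IsOpen D) (hb : Bornology.IsBounded D) (m : ℕ) (θ : ℝ) :
    (hI.E hD hb m).A θ = tp I.wv.α (fun j => LvD D (I.wv.p j)) (fun j => LvD D (I.wv.r j)) θ := rfl

theorem DIn.OK.E_g (hI : I.OK D Ω z κ₀ MS M CV δ' γ) (hD : IsOpen D) (hb : Bornology.IsBounded D) (m : ℕ) (t : ℝ)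
    (φ : VD D) : (hI.E hD hb m).g t φ = -(I.b * ⟪PcD D (I.r t), io D φ⟫) := rfl

/-- the rate -/
theorem DIn.OK.E_R (hI : I.OK D Ω z κ₀ MS M CV δ' γ) (hD : IsOpen D) (hb : Bornology.IsBounded D) (m : ℕ) (t : ℝ)
    (e φ : VD D) : (hI.E hD hb m).R t e φ =
      I.b * ⟪e, φ⟫ + ⟪I.Fo D t e + I.b • Nm D m (io D e) e - I.go D t, io D φ⟫ := by
  have hA : (hI.E hD hb m).A (I.q ^ 24 * t) e = LvD D (I.wv.U (I.q ^ 24 * t)) e := by
    rw [hI.E_A, I.wv.LvD_eq hD hb hI.bp hI.br]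
  have has : (hI.E hD hb m).as (I.q ^ 24 * t) t = PcD D (lieF (I.wv.U (I.q ^ 24 * t)) (I.Sa t)) := by
    rw [I.wv.PcD_lieF hD hb hI.bp hI.br (hI.sSa.bd hD t)]
    rfl
  have hL : (hI.E hD hb m).R t e φ = I.q ^ 12 * (I.a t * ⟪(hI.E hD hb m).A (I.q ^ 24 * t) e +
      (hI.E hD hb m).as (I.q ^ 24 * t) t, io D φ⟫) +
      (⟪MuD D (fun x => I.χ x • ContinuousLinearMap.id ℝ (En d)) (io D e), io D φ⟫ + ⟪I.sF D t, io D φ⟫) +
      (I.b * I.dF D t e φ + I.b * ⟪Nm D m (io D e) e, io D φ⟫ - -(I.b * ⟪PcD D (I.r t), io D φ⟫)) := rfl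
  rw [hL, hA, has, I.dF_apply]
  unfold DIn.Fo DIn.go DIn.sF
  simp only [_root_.add_apply, _root_.smul_apply, ContinuousLinearMap.comp_apply, inner_add_left, inner_sub_left,
    inner_neg_left]
  have hs : ∀ (c : ℝ) (x y : HD D), ⟪c • x, y⟫ = c * ⟪x, y⟫ := fun c x y => real_inner_smul_left x y c
  simp only [hs, inner_add_left]
  ring

end

end Pool.Agent.Lib.MP_79abb3_an.W
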