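import Pool.Agent.Lib.MP_79abb3_an.W.DEDef

/-!
Theorem W, block DY, part b: energies of functions of class `BD`, the Leray projection with energy estimates.
-/

set_option autoImplicit false
set_option linter.unusedSectionVars false

open MeasureTheory Set Filter Topology Function
open scoped ENNReal NNReal RealInnerProductSpace

namespace Pool.Agent.Lib.MP_79abb3_an.W

section
variable {d : ℕ} {D : Set (En d)} {z : En d → ℝ} {δ : ℝ}

/-- the energy of order `k` -/
noncomputable def dyE {F : Type} [NormedAddCommGroup F] [NormedSpace ℝ F] (D : Set (En d)) (k : ℕ) (Y : En d → F) : ℝ :=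
  ∑ j ∈ Finset.range (k + 1), ∫ x in D, ‖iteratedFDeriv ℝ j Y x‖ ^ 2

variable {F : Type} [NormedAddCommGroup F] [NormedSpace ℝ F]

theorem dyE_nonneg (k : ℕ) (Y : En d → F) : 0 ≤ dyE D k Y :=
  Finset.sum_nonneg fun _ _ => integral_nonneg fun _ => by positivity

private theorem dy_open (h : Dom D z δ) : IsOpen D := by
  have h1 : D = z ⁻¹' Ioi 0 := by
    ext x
    exact h.pos x
  rw [h1]
  exact isOpen_Ioi.preimage (ContDiff.continuous h.smo)

/-- bounded continuous functions are integrable on `D` -/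
theorem dy_int (h : Dom D z δ) {f : En d → ℝ} (hf : ContinuousOn f D) {C : ℝ} (hC : ∀ x ∈ D, |f x| ≤ C) :
    IntegrableOn f D := by
  have hm : MeasurableSet D := (dy_open h).measurableSet
  have hfin : IsFiniteMeasure ((volume : Measure (En d)).restrict D) :=
    ⟨by rw [Measure.restrict_apply_univ]; exact h.bdd.measure_lt_top⟩
  refine Integrable.of_bound (hf.aestronglyMeasurable hm) C ?_
  exact (ae_restrict_iff' hm).2 (Eventually.of_forall fun x hx => hC x hx)

theorem dyE_int (h : Dom D z δ) {Y : En d → F} (hY : BD D Y) (j : ℕ) :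
    IntegrableOn (fun x => ‖iteratedFDeriv ℝ j Y x‖ ^ 2) D := by
  obtain ⟨C, hC⟩ := hY.2 j
  have ho := dy_open h
  have hc : ContinuousOn (iteratedFDeriv ℝ j Y) D := by
    have h1 := hY.1.continuousOn_iteratedFDerivWithin (m := j) (by exact_mod_cast le_top) ho.uniqueDiffOn
    exact h1.congr fun x hx => (iteratedFDerivWithin_of_isOpen j ho hx).symm
  refine dy_int h (hc.norm.pow 2) (C := C ^ 2) fun x hx => ?_
  rw [abs_of_nonneg (by positivity)]
  exact pow_le_pow_left₀ (norm_nonneg _) (hC x hx) 2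

theorem dyE_mono (k : ℕ) (Y : En d → F) : dyE D k Y ≤ dyE D (k + 1) Y := by
  unfold dyE
  rw [Finset.sum_range_succ _ (k + 1)]
  have : 0 ≤ ∫ x in D, ‖iteratedFDeriv ℝ (k + 1) Y x‖ ^ 2 := integral_nonneg fun _ => by positivity
  linarith

/-- a bound of the derivatives gives a bound of the energy -/
theorem dyE_le (h : Dom D z δ) {Y : En d → F} (hY : BD D Y) {k : ℕ} {M : ℝ} (hM : Bk D k M Y) :
    dyE D k Y ≤ (k + 1) * (M ^ 2 * (volume : Measure (En d)).real D) := by
  have hm : MeasurableSet D := (dy_open h).measurableSet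
  have h1 : ∀ j ∈ Finset.range (k + 1), ∫ x in D, ‖iteratedFDeriv ℝ j Y x‖ ^ 2 ≤
      M ^ 2 * (volume : Measure (En d)).real D := by
    intro j hj
    have h2 : ∫ x in D, ‖iteratedFDeriv ℝ j Y x‖ ^ 2 ≤ ∫ x in D, M ^ 2 := by
      refine setIntegral_mono_on (dyE_int h hY j) ?_ hm fun x hx => ?_
      · exact integrableOn_const h.bdd.measure_lt_top.ne
      · exact pow_le_pow_left₀ (norm_nonneg _) (hM j (Nat.lt_succ_iff.1 (Finset.mem_range.1 hj)) x hx) 2
    refine h2.trans (le_of_eq ?_)
    rw [setIntegral_const, smul_eq_mul, mul_comm]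
  refine (Finset.sum_le_sum h1).trans (le_of_eq ?_)
  rw [Finset.sum_const, Finset.card_range, nsmul_eq_mul]
  push_cast
  ring

end

end Pool.Agent.Lib.MP_79abb3_an.W
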