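import Pool.Agent.Lib.MP_79abb3_an.W.DYd

/-!
Theorem W, block DY, part d2: expansion of the corrector.
-/

set_option autoImplicit false
set_option linter.unusedSectionVars false

open MeasureTheory Set Filter Topology Function
open scoped ENNReal RealInnerProductSpace

namespace Pool.Agent.Lib.MP_79abb3_an.W

section
variable {d : ℕ} {D : Set (En d)}

private theorem dyd2_comp {f : En d → En d} {x : En d} (h : DifferentiableAt ℝ f x) (i k : Fin d) :
    DifferentiableAt ℝ (fun x => f x k) x ∧ pd i (fun x => f x k) x = pd i f x k := by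
  have h1 : HasFDerivAt (fun x => f x k) ((EuclideanSpace.proj k : En d →L[ℝ] ℝ).comp (fderiv ℝ f x)) x :=
    (EuclideanSpace.proj k : En d →L[ℝ] ℝ).hasFDerivAt.comp x h.hasFDerivAt
  refine ⟨h1.differentiableAt, ?_⟩
  show fderiv ℝ (fun x => f x k) x (ei i) = _
  rw [h1.fderiv]
  rfl

private theorem dyd2_mul {a b : En d → ℝ} {x : En d} (ha : DifferentiableAt ℝ a x)
    (hb : DifferentiableAt ℝ b x) (i : Fin d) :
    pd i (fun x => a x * b x) x = pd i a x * b x + a x * pd i b x := by
  show fderiv ℝ (fun x => a x * b x) x (ei i) = _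
  rw [fderiv_fun_mul ha hb]
  show a x * fderiv ℝ b x (ei i) + b x * fderiv ℝ a x (ei i) = fderiv ℝ a x (ei i) * b x + _
  rw [add_comm, mul_comm (b x)]
  rfl

private theorem dyd2_sub {a b : En d → ℝ} {x : En d} (ha : DifferentiableAt ℝ a x)
    (hb : DifferentiableAt ℝ b x) (i : Fin d) :
    pd i (fun x => a x - b x) x = pd i a x - pd i b x := by
  show fderiv ℝ (fun x => a x - b x) x (ei i) = _
  rw [fderiv_fun_sub ha hb]
  rfl

/-- the expansion of the corrector -/
theorem dyC_eq (hD : IsOpen D) {g : En d → ℝ} {n Y : En d → En d} (hg : BD D g) (hn : BD D n) (hY : BD D Y)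
    {x : En d} (hx : x ∈ D) : dyC g n Y x = ⟪gd g x, n x⟫ • Y x - ⟪gd g x, Y x⟫ • n x +
      g x • (fderiv ℝ Y x (n x) - fderiv ℝ n x (Y x) + dv n x • Y x - dv Y x • n x) := by
  have dg : DifferentiableAt ℝ g x := hg.differentiableAt hD hx
  have dn : DifferentiableAt ℝ n x := hn.differentiableAt hD hx
  have dY : DifferentiableAt ℝ Y x := hY.differentiableAt hD hx
  have key : ∀ i j : Fin d, pd j (dyM g n Y i j) x = pd j g x * (Y x i * n x j - n x i * Y x j) +
      g x * ((pd j Y x i * n x j + Y x i * pd j n x j) - (pd j n x i * Y x j + n x i * pd j Y x j)) := by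
    intro i j
    have ni := dyd2_comp dn j i
    have nj := dyd2_comp dn j j
    have Yi := dyd2_comp dY j i
    have Yj := dyd2_comp dY j j
    have e : dyM g n Y i j = fun x => g x * (Y x i * n x j - n x i * Y x j) := rfl
    have d1 : DifferentiableAt ℝ (fun x => Y x i * n x j) x := Yi.1.mul nj.1
    have d2 : DifferentiableAt ℝ (fun x => n x i * Y x j) x := ni.1.mul Yj.1
    rw [e, dyd2_mul (a := g) (b := fun x => Y x i * n x j - n x i * Y x j) dg (d1.sub d2),
      dyd2_sub (a := fun x => Y x i * n x j) (b := fun x => n x i * Y x j) d1 d2,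
      dyd2_mul (a := fun x => Y x i) (b := fun x => n x j) Yi.1 nj.1,
      dyd2_mul (a := fun x => n x i) (b := fun x => Y x j) ni.1 Yj.1, ni.2, nj.2, Yi.2, Yj.2]
  ext i
  have e1 : dyC g n Y x i = ∑ j, pd j (dyM g n Y i j) x := rfl
  have e2 : ⟪gd g x, n x⟫ = ∑ j, pd j g x * n x j := by
    rw [PiLp.inner_apply]
    refine Finset.sum_congr rfl fun j _ => ?_
    rw [gd_apply]
    simp [mul_comm]
  have e3 : ⟪gd g x, Y x⟫ = ∑ j, pd j g x * Y x j := by
    rw [PiLp.inner_apply]
    refine Finset.sum_congr rfl fun j _ => ?_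
    rw [gd_apply]
    simp [mul_comm]
  have e4 : ∀ (f : En d → En d) (y : En d), fderiv ℝ f x y i = ∑ j, y j * pd j f x i := by
    intro f y
    rw [fderiv_eq_sum]
    simp
  simp only [PiLp.add_apply, PiLp.sub_apply, PiLp.smul_apply, smul_eq_mul]
  rw [e1, e2, e3, e4, e4, Finset.sum_congr rfl fun j _ => key i j]
  unfold dv
  simp only [Finset.sum_mul, Finset.mul_sum, ← Finset.sum_add_distrib, ← Finset.sum_sub_distrib]
  refine Finset.sum_congr rfl fun j _ => ?_
  ring

theorem dyC_bd (hD : IsOpen D) {g : En d → ℝ} {n Y : En d → En d} (hg : BD D g) (hn : BD D n) (hY : BD D Y) :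
    BD D (dyC g n Y) := by
  have h1 : ∀ i j : Fin d, BD D (pd j (dyM g n Y i j)) := fun i j => (dyM_bd hD hg hn hY i j).pd hD j
  have h2 : BD D fun x => ∑ i : Fin d, (∑ j, pd j (dyM g n Y i j) x) • (ei i : En d) := by
    refine BD.sum hD _ fun i _ => ?_
    exact BD.smul hD (BD.sum hD _ fun j _ => h1 i j) (BD.const hD (ei i))
  refine h2.congr hD fun x _ => ?_
  ext k
  have e1 : dyC g n Y x k = ∑ j, pd j (dyM g n Y k j) x := rfl
  rw [e1]
  simp [ei, Pi.single_apply]

end

end Pool.Agent.Lib.MP_79abb3_an.W
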