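import Pool.Agent.Lib.MP_79abb3_an.W.DYd
import Pool.Agent.Lib.MP_79abb3_an.W.DH0
import Pool.Agent.Lib.MP_79abb3_an.W.DYd2

section

/-!
Theorem W, block DY, part e: the corrector `K = div (z e^{-z/ρ} (Y nᵀ - n Yᵀ))`, `n = ∇z`: pointwise estimates.
-/

set_option autoImplicit false
set_option linter.unusedSectionVars false

open MeasureTheory Set Filter Topology Function
open scoped ENNReal RealInnerProductSpace

namespace Pool.Agent.Lib.MP_79abb3_an.W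

section
variable {d : ℕ} {D : Set (En d)} {z : En d → ℝ} {δ : ℝ}

/-- the profile `z exp(-z/ρ)` -/
noncomputable def dyg (z : En d → ℝ) (ρ : ℝ) (x : En d) : ℝ := z x * Real.exp (-(z x / ρ))

/-- the profile `(1 - z/ρ) exp(-z/ρ)` -/
noncomputable def dya (z : En d → ℝ) (ρ : ℝ) (x : En d) : ℝ := (1 - z x / ρ) * Real.exp (-(z x / ρ))

/-- the corrector -/
noncomputable def dyK (z : En d → ℝ) (ρ : ℝ) (Y : En d → En d) : En d → En d := dyC (dyg z ρ) (gd z) Y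

private theorem dye_norm_gd (q : En d → ℝ) (x : En d) : ‖gd q x‖ = ‖fderiv ℝ q x‖ := by
  rw [gd_eq_gradient]
  unfold gradient
  exact LinearIsometryEquiv.norm_map _ _

private theorem dye_dg (ρ s : ℝ) : HasDerivAt (fun s : ℝ => s * Real.exp (-(s / ρ)))
    ((1 - s / ρ) * Real.exp (-(s / ρ))) s := by
  have h1 : HasDerivAt (fun s : ℝ => -(s / ρ)) (-(1 / ρ)) s := ((hasDerivAt_id s).div_const ρ).neg
  have h2 := (hasDerivAt_id s).mul h1.exp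
  have h3 : (1 : ℝ) * Real.exp (-(s / ρ)) + id s * (Real.exp (-(s / ρ)) * -(1 / ρ)) =
      (1 - s / ρ) * Real.exp (-(s / ρ)) := by
    simp only [id]
    ring
  rw [h3] at h2
  exact h2

private theorem dye_da (ρ s : ℝ) : HasDerivAt (fun s : ℝ => (1 - s / ρ) * Real.exp (-(s / ρ)))
    (-(1 / ρ) * ((2 - s / ρ) * Real.exp (-(s / ρ)))) s := by
  have h1 : HasDerivAt (fun s : ℝ => -(s / ρ)) (-(1 / ρ)) s := ((hasDerivAt_id s).div_const ρ).neg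
  have h4 : HasDerivAt (fun s : ℝ => 1 - s / ρ) (-(1 / ρ)) s :=
    ((hasDerivAt_id s).div_const ρ).const_sub 1
  have h2 := h4.mul h1.exp
  have h3 : -(1 / ρ) * Real.exp (-(s / ρ)) + (1 - s / ρ) * (Real.exp (-(s / ρ)) * -(1 / ρ)) =
      -(1 / ρ) * ((2 - s / ρ) * Real.exp (-(s / ρ))) := by
    ring
  rw [h3] at h2
  exact h2

/-- `exp (-σ) = exp (-σ/2)²` and `1 + σ/2 ≤ exp (σ/2)` -/
private theorem dye_exp {ρ : ℝ} (hρ : 0 < ρ) {s : ℝ} :
    (1 + s / ρ / 2) * Real.exp (-(s / ρ)) ≤ Real.exp (-(s / (2 * ρ))) := by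
  have h1 : s / (2 * ρ) = s / ρ / 2 := by field_simp
  have h2 : Real.exp (-(s / ρ)) = Real.exp (-(s / ρ / 2)) * Real.exp (-(s / ρ / 2)) := by
    rw [← Real.exp_add]
    congr 1
    ring
  have h3 : 1 + s / ρ / 2 ≤ Real.exp (s / ρ / 2) := by
    have := Real.add_one_le_exp (s / ρ / 2)
    linarith
  have h4 : (1 + s / ρ / 2) * Real.exp (-(s / ρ / 2)) ≤ 1 := by
    calc (1 + s / ρ / 2) * Real.exp (-(s / ρ / 2)) ≤
        Real.exp (s / ρ / 2) * Real.exp (-(s / ρ / 2)) :=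
          mul_le_mul_of_nonneg_right h3 (Real.exp_pos _).le
      _ = 1 := by rw [← Real.exp_add, add_neg_cancel, Real.exp_zero]
  rw [h1, h2, ← mul_assoc]
  have h5 := mul_le_mul_of_nonneg_right h4 (Real.exp_pos (-(s / ρ / 2))).le
  rwa [one_mul] at h5

theorem dyg_smo (hz : Smo z) (ρ : ℝ) : Smo (dyg z ρ) := by
  exact hz.mul ((hz.div_const ρ).neg.exp)

theorem dya_smo (hz : Smo z) (ρ : ℝ) : Smo (dya z ρ) := by
  exact (contDiff_const.sub (hz.div_const ρ)).mul ((hz.div_const ρ).neg.exp)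

theorem dyg_gd (hz : Smo z) (ρ : ℝ) (x : En d) : gd (dyg z ρ) x = dya z ρ x • gd z x := by
  have h1 : HasFDerivAt z (fderiv ℝ z x) x := (hz.differentiable x).hasFDerivAt
  have h2 : HasFDerivAt (dyg z ρ) (dya z ρ x • fderiv ℝ z x) x :=
    (dye_dg ρ (z x)).comp_hasFDerivAt x h1
  ext i
  show fderiv ℝ (dyg z ρ) x (ei i) = dya z ρ x * fderiv ℝ z x (ei i)
  rw [h2.fderiv]
  rfl

/-- one variable bounds: `s e^{-s} ≤ 1`, `(1 + s) e^{-s} ≤ 2 e^{-s/2}`, `(2 + s) e^{-s} ≤ 2 e^{-s/2}` -/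
theorem dyg_le {ρ : ℝ} (hρ : 0 < ρ) {x : En d} (hx : 0 < z x) : |dyg z ρ x| ≤ ρ := by
  have h0 : 0 ≤ dyg z ρ x := mul_nonneg hx.le (Real.exp_pos _).le
  rw [abs_of_nonneg h0]
  unfold dyg
  have h1 : z x / ρ ≤ Real.exp (z x / ρ) := by
    have := Real.add_one_le_exp (z x / ρ)
    linarith
  have h2 : z x / ρ * Real.exp (-(z x / ρ)) ≤ 1 := by
    calc z x / ρ * Real.exp (-(z x / ρ)) ≤ Real.exp (z x / ρ) * Real.exp (-(z x / ρ)) :=
          mul_le_mul_of_nonneg_right h1 (Real.exp_pos _).le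
      _ = 1 := by rw [← Real.exp_add, add_neg_cancel, Real.exp_zero]
  calc z x * Real.exp (-(z x / ρ)) = ρ * (z x / ρ * Real.exp (-(z x / ρ))) := by
        field_simp
    _ ≤ ρ * 1 := mul_le_mul_of_nonneg_left h2 hρ.le
    _ = ρ := mul_one ρ

theorem dya_le {ρ : ℝ} (hρ : 0 < ρ) {x : En d} (hx : 0 < z x) : |dya z ρ x| ≤ 2 * Real.exp (-(z x / (2 * ρ))) := by
  have hs : 0 < z x / ρ := div_pos hx hρ
  unfold dya
  rw [abs_mul, abs_of_pos (Real.exp_pos _)]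
  have h1 : |1 - z x / ρ| ≤ 2 * (1 + z x / ρ / 2) := by
    rw [abs_le]
    constructor <;> linarith
  calc |1 - z x / ρ| * Real.exp (-(z x / ρ)) ≤ 2 * (1 + z x / ρ / 2) * Real.exp (-(z x / ρ)) :=
        mul_le_mul_of_nonneg_right h1 (Real.exp_pos _).le
    _ = 2 * ((1 + z x / ρ / 2) * Real.exp (-(z x / ρ))) := by ring
    _ ≤ 2 * Real.exp (-(z x / (2 * ρ))) := mul_le_mul_of_nonneg_left (dye_exp hρ) (by norm_num)

theorem dya_fderiv_le (hz : Smo z) {ρ : ℝ} (hρ : 0 < ρ) {x : En d} (hx : 0 < z x) :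
    ‖fderiv ℝ (dya z ρ) x‖ ≤ 2 / ρ * Real.exp (-(z x / (2 * ρ))) * ‖gd z x‖ := by
  have hs : 0 < z x / ρ := div_pos hx hρ
  have h1 : HasFDerivAt z (fderiv ℝ z x) x := (hz.differentiable x).hasFDerivAt
  have h2 : HasFDerivAt (dya z ρ)
      ((-(1 / ρ) * ((2 - z x / ρ) * Real.exp (-(z x / ρ)))) • fderiv ℝ z x) x :=
    (dye_da ρ (z x)).comp_hasFDerivAt x h1
  rw [h2.fderiv, norm_smul, dye_norm_gd]
  refine mul_le_mul_of_nonneg_right ?_ (norm_nonneg _)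
  have h3 : |2 - z x / ρ| ≤ 2 * (1 + z x / ρ / 2) := by
    rw [abs_le]
    constructor <;> linarith
  rw [Real.norm_eq_abs, abs_mul, abs_neg, abs_of_pos (by positivity : 0 < 1 / ρ), abs_mul,
    abs_of_pos (Real.exp_pos _)]
  calc 1 / ρ * (|2 - z x / ρ| * Real.exp (-(z x / ρ))) ≤
      1 / ρ * (2 * (1 + z x / ρ / 2) * Real.exp (-(z x / ρ))) :=
        mul_le_mul_of_nonneg_left (mul_le_mul_of_nonneg_right h3 (Real.exp_pos _).le)
          (by positivity)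
    _ = 2 / ρ * ((1 + z x / ρ / 2) * Real.exp (-(z x / ρ))) := by ring
    _ ≤ 2 / ρ * Real.exp (-(z x / (2 * ρ))) := mul_le_mul_of_nonneg_left (dye_exp hρ) (by positivity)

end

end Pool.Agent.Lib.MP_79abb3_an.W
end

section

/-!
Theorem W, block DY, part e2: the corrector at the walls.
-/

set_option autoImplicit false
set_option linter.unusedSectionVars false

open MeasureTheory Set Filter Topology Function
open scoped ENNReal RealInnerProductSpace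

namespace Pool.Agent.Lib.MP_79abb3_an.W

section
variable {d : ℕ} {D : Set (En d)} {z : En d → ℝ} {δ : ℝ}

private theorem dye2_open (h : Dom D z δ) : IsOpen D := by
  have e : D = z ⁻¹' Ioi 0 := by
    ext x
    exact h.pos x
  rw [e]
  exact isOpen_Ioi.preimage h.smo.continuous

/-- the corrector in `D` (`dyC_eq`, `dv Y = 0`) -/
theorem dyK_eq (h : Dom D z δ) (ρ : ℝ) {Y : En d → En d} (hY : BD D Y) (hd : ∀ x ∈ D, dv Y x = 0) {x : En d}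
    (hx : x ∈ D) : dyK z ρ Y x = dya z ρ x • (‖gd z x‖ ^ 2 • Y x - ⟪gd z x, Y x⟫ • gd z x) +
      dyg z ρ x • (fderiv ℝ Y x (gd z x) - fderiv ℝ (gd z) x (Y x) + lap z x • Y x) := by
  have hO := dye2_open h
  have e1 : dv (gd z) x = lap z x := by
    refine Finset.sum_congr rfl fun i _ => ?_
    rw [← pd_apply h.smo.gd i i x]
    rfl
  unfold dyK
  rw [dyC_eq hO ((dyg_smo h.smo ρ).bd h.bdd) (h.smo.gd.bd h.bdd) hY hx, dyg_gd h.smo, hd x hx, e1,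
    real_inner_smul_left, real_inner_smul_left, real_inner_self_eq_norm_sq]
  module

theorem dyK_bd (h : Dom D z δ) (ρ : ℝ) {Y : En d → En d} (hY : BD D Y) : BD D (dyK z ρ Y) :=
  dyC_bd (dye2_open h) ((dyg_smo h.smo ρ).bd h.bdd) (h.smo.gd.bd h.bdd) hY

/-- `Y - K` vanishes at the walls: for `z < min ρ (4δ)`: `‖∇z‖ = 1`, `|1 - a| ≤ 2 z/ρ`, `⟪∇z, Y⟫ = O(z)`, `g = O(z)`; elsewhere
`Y - K` is bounded. -/
theorem dyK_Oz (h : Dom D z δ) {ρ : ℝ} (hρ : 0 < ρ) {Y : En d → En d} (hY : BD D Y) (hd : ∀ x ∈ D, dv Y x = 0)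
    (hn : Oz D z (fun x => ⟪gradient z x, Y x⟫)) : Oz D z (fun x => Y x - dyK z ρ Y x) := by
  have hO := dye2_open h
  have hbr : BD D fun x => fderiv ℝ Y x (gd z x) - fderiv ℝ (gd z) x (Y x) + lap z x • Y x :=
    (((hY.fderiv hO).apply hO (h.smo.gd.bd h.bdd)).sub hO
      (((h.smo.gd.bd h.bdd).fderiv hO).apply hO hY)).add hO ((h.smo.lap.bd h.bdd).smul hO hY)
  obtain ⟨M1, hM1, hY1⟩ := hY.exists_Bk 0
  obtain ⟨M2, hM2, hB2⟩ := hbr.exists_Bk 0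
  obtain ⟨M3, hM3, hB3⟩ := (hY.sub hO (dyK_bd h ρ hY)).exists_Bk 0
  obtain ⟨Cn, hCn⟩ := hn
  have hδ := h.δ0
  refine ⟨2 / ρ * M1 + 2 * |Cn| + M2 + M3 / (4 * δ), fun x hx => ?_⟩
  have hz : 0 < z x := (h.pos x).1 hx
  have hY1x : ‖Y x‖ ≤ M1 := hY1.le0 hx
  have hB2x : ‖fderiv ℝ Y x (gd z x) - fderiv ℝ (gd z) x (Y x) + lap z x • Y x‖ ≤ M2 := hB2.le0 hx
  have hB3x : ‖Y x - dyK z ρ Y x‖ ≤ M3 := hB3.le0 hx
  show ‖Y x - dyK z ρ Y x‖ ≤ (2 / ρ * M1 + 2 * |Cn| + M2 + M3 / (4 * δ)) * z x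
  have p1 : 0 ≤ 2 / ρ * M1 * z x := by positivity
  have p2 : 0 ≤ 2 * |Cn| * z x := by positivity
  have p3 : 0 ≤ M2 * z x := by positivity
  have p4 : 0 ≤ M3 / (4 * δ) * z x := by positivity
  rcases lt_or_ge (z x) (4 * δ) with h1 | h1
  · have hu : ‖gd z x‖ = 1 := by
      rw [gd_eq_gradient]
      exact h.unit x (by rwa [abs_of_pos hz])
    obtain ⟨s, hs⟩ : ∃ s, s = z x / ρ := ⟨_, rfl⟩
    have hs0 : 0 < s := by rw [hs]; positivity
    have ha : dya z ρ x = (1 - s) * Real.exp (-s) := by rw [hs]; rfl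
    have hg : dyg z ρ x = z x * Real.exp (-s) := by rw [hs]; rfl
    have hexp1 : Real.exp (-s) ≤ 1 := Real.exp_le_one_iff.2 (by linarith)
    have hexp0 : 0 < Real.exp (-s) := Real.exp_pos _
    have hexp2 : 1 - s ≤ Real.exp (-s) := by
      have := Real.add_one_le_exp (-s)
      linarith
    have ha1 : |1 - dya z ρ x| ≤ 2 * s := by
      rw [ha, abs_le]
      constructor
      · nlinarith [mul_pos hs0 hexp0]
      · nlinarith [mul_le_mul_of_nonneg_left hexp1 hs0.le]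
    have ha2 : |dya z ρ x| ≤ 2 := by
      refine (dya_le hρ hz).trans ?_
      have : Real.exp (-(z x / (2 * ρ))) ≤ 1 := Real.exp_le_one_iff.2 (by
        have : 0 < z x / (2 * ρ) := by positivity
        linarith)
      linarith
    have hg1 : |dyg z ρ x| ≤ z x := by
      rw [hg, abs_of_pos (by positivity)]
      exact mul_le_of_le_one_right hz.le hexp1
    have hcn : |⟪gd z x, Y x⟫| ≤ |Cn| * z x := by
      have h3 : ‖⟪gradient z x, Y x⟫‖ ≤ Cn * z x := hCn x hx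
      rw [Real.norm_eq_abs, ← gd_eq_gradient] at h3
      exact h3.trans (mul_le_mul_of_nonneg_right (le_abs_self _) hz.le)
    have e1 : Y x - dyK z ρ Y x = (1 - dya z ρ x) • Y x + (dya z ρ x * ⟪gd z x, Y x⟫) • gd z x -
        dyg z ρ x • (fderiv ℝ Y x (gd z x) - fderiv ℝ (gd z) x (Y x) + lap z x • Y x) := by
      rw [dyK_eq h ρ hY hd hx, hu]
      module
    rw [e1]
    have n1 : ‖(1 - dya z ρ x) • Y x‖ ≤ 2 / ρ * M1 * z x := by
      rw [norm_smul, Real.norm_eq_abs]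
      calc |1 - dya z ρ x| * ‖Y x‖ ≤ (2 * s) * M1 := mul_le_mul ha1 hY1x (norm_nonneg _) (by positivity)
        _ = 2 / ρ * M1 * z x := by rw [hs]; ring
    have n2 : ‖(dya z ρ x * ⟪gd z x, Y x⟫) • gd z x‖ ≤ 2 * |Cn| * z x := by
      rw [norm_smul, hu, mul_one, Real.norm_eq_abs, abs_mul]
      calc |dya z ρ x| * |⟪gd z x, Y x⟫| ≤ 2 * (|Cn| * z x) :=
            mul_le_mul ha2 hcn (abs_nonneg _) (by norm_num)
        _ = 2 * |Cn| * z x := by ring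
    have n3 : ‖dyg z ρ x • (fderiv ℝ Y x (gd z x) - fderiv ℝ (gd z) x (Y x) + lap z x • Y x)‖ ≤ M2 * z x := by
      rw [norm_smul, Real.norm_eq_abs, mul_comm]
      exact mul_le_mul hB2x hg1 (abs_nonneg _) hM2
    refine (norm_sub_le _ _).trans ((add_le_add (norm_add_le _ _) le_rfl).trans ?_)
    calc ‖(1 - dya z ρ x) • Y x‖ + ‖(dya z ρ x * ⟪gd z x, Y x⟫) • gd z x‖ +
          ‖dyg z ρ x • (fderiv ℝ Y x (gd z x) - fderiv ℝ (gd z) x (Y x) + lap z x • Y x)‖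
        ≤ 2 / ρ * M1 * z x + 2 * |Cn| * z x + M2 * z x := add_le_add (add_le_add n1 n2) n3
      _ ≤ 2 / ρ * M1 * z x + 2 * |Cn| * z x + M2 * z x + M3 / (4 * δ) * z x := by linarith
      _ = (2 / ρ * M1 + 2 * |Cn| + M2 + M3 / (4 * δ)) * z x := by ring
  · have n1 : M3 ≤ M3 / (4 * δ) * z x := by
      rw [div_mul_eq_mul_div, le_div_iff₀ (by positivity)]
      exact mul_le_mul_of_nonneg_left h1 hM3
    calc ‖Y x - dyK z ρ Y x‖ ≤ M3 := hB3x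
      _ ≤ M3 / (4 * δ) * z x := n1
      _ ≤ 2 / ρ * M1 * z x + 2 * |Cn| * z x + M2 * z x + M3 / (4 * δ) * z x := by linarith
      _ = (2 / ρ * M1 + 2 * |Cn| + M2 + M3 / (4 * δ)) * z x := by ring

end

end Pool.Agent.Lib.MP_79abb3_an.W
end

section

/-!
Theorem W, block DY, part e3: pointwise bounds of the corrector.
-/

set_option autoImplicit false
set_option linter.unusedSectionVars false

open MeasureTheory Set Filter Topology Function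
open scoped ENNReal RealInnerProductSpace

namespace Pool.Agent.Lib.MP_79abb3_an.W

section
variable {d : ℕ} {D : Set (En d)} {z : En d → ℝ} {δ : ℝ}

/-- the matrix `‖∇z‖² - ∇z ⊗ ∇z` -/
private noncomputable def dyP3 (z : En d → ℝ) (x : En d) : En d →L[ℝ] En d :=
  ‖gd z x‖ ^ 2 • ContinuousLinearMap.id ℝ (En d) - (innerSL ℝ (gd z x)).smulRight (gd z x)

/-- the matrix `Δz - D²z` -/
private noncomputable def dyQ3 (z : En d → ℝ) (x : En d) : En d →L[ℝ] En d :=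
  lap z x • ContinuousLinearMap.id ℝ (En d) - fderiv ℝ (gd z) x

private theorem dyP3_smo (hz : Smo z) : Smo (dyP3 z) := by
  have hg : ContDiff ℝ ((⊤ : ℕ∞) : WithTop ℕ∞) (gd z) := hz.gd
  have h1 : ContDiff ℝ ((⊤ : ℕ∞) : WithTop ℕ∞) fun x => ‖gd z x‖ ^ 2 := hg.norm_sq ℝ
  have h2 : ContDiff ℝ ((⊤ : ℕ∞) : WithTop ℕ∞) fun x => innerSL ℝ (gd z x) := (innerSL ℝ).contDiff.comp hg
  exact (h1.smul contDiff_const).sub (h2.smulRight hg)

private theorem dyQ3_smo (hz : Smo z) : Smo (dyQ3 z) := by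
  have hg : ContDiff ℝ ((⊤ : ℕ∞) : WithTop ℕ∞) (gd z) := hz.gd
  have h1 : ContDiff ℝ ((⊤ : ℕ∞) : WithTop ℕ∞) (lap z) := hz.lap
  have h2 : ContDiff ℝ ((⊤ : ℕ∞) : WithTop ℕ∞) (fderiv ℝ (gd z)) := ContDiff.fderiv_right hg (by exact_mod_cast le_top)
  exact (h1.smul contDiff_const).sub h2

private theorem dy3_eq (h : Dom D z δ) (ρ : ℝ) {Y : En d → En d} (hY : BD D Y) (hd : ∀ x ∈ D, dv Y x = 0)
    {x : En d} (hx : x ∈ D) : dyK z ρ Y x = dya z ρ x • dyP3 z x (Y x) +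
      dyg z ρ x • (fderiv ℝ Y x (gd z x) + dyQ3 z x (Y x)) := by
  rw [dyK_eq h ρ hY hd hx]
  congr 1
  congr 1
  show _ = fderiv ℝ Y x (gd z x) + (lap z x • Y x - fderiv ℝ (gd z) x (Y x))
  abel

private theorem dy3_clm {F G : Type} [NormedAddCommGroup F] [NormedSpace ℝ F] [NormedAddCommGroup G]
    [NormedSpace ℝ G] {c : En d → (F →L[ℝ] G)} {u : En d → F} {x : En d} (hc : DifferentiableAt ℝ c x)
    (hu : DifferentiableAt ℝ u x) :
    ‖fderiv ℝ (fun y => c y (u y)) x‖ ≤ ‖fderiv ℝ c x‖ * ‖u x‖ + ‖c x‖ * ‖fderiv ℝ u x‖ := by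
  refine ContinuousLinearMap.opNorm_le_bound _ (by positivity) fun v => ?_
  have h1 : fderiv ℝ (fun y => c y (u y)) x v = c x (fderiv ℝ u x v) + fderiv ℝ c x v (u x) := by
    rw [(hc.hasFDerivAt.clm_apply hu.hasFDerivAt).fderiv]
    simp
  rw [h1]
  refine (norm_add_le _ _).trans ?_
  have h2 : ‖c x (fderiv ℝ u x v)‖ ≤ ‖c x‖ * (‖fderiv ℝ u x‖ * ‖v‖) :=
    ((c x).le_opNorm _).trans (mul_le_mul_of_nonneg_left ((fderiv ℝ u x).le_opNorm v) (norm_nonneg _))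
  have h3 : ‖fderiv ℝ c x v (u x)‖ ≤ ‖fderiv ℝ c x‖ * ‖v‖ * ‖u x‖ :=
    ((fderiv ℝ c x v).le_opNorm _).trans (mul_le_mul_of_nonneg_right ((fderiv ℝ c x).le_opNorm v) (norm_nonneg _))
  nlinarith [h2, h3]

private theorem dy3_smul {G : Type} [NormedAddCommGroup G] [NormedSpace ℝ G] {a : En d → ℝ} {u : En d → G}
    {x : En d} (ha : DifferentiableAt ℝ a x) (hu : DifferentiableAt ℝ u x) :
    ‖fderiv ℝ (fun y => a y • u y) x‖ ≤ ‖fderiv ℝ a x‖ * ‖u x‖ + |a x| * ‖fderiv ℝ u x‖ := by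
  refine ContinuousLinearMap.opNorm_le_bound _ (by positivity) fun v => ?_
  have h1 : fderiv ℝ (fun y => a y • u y) x v = a x • fderiv ℝ u x v + fderiv ℝ a x v • u x := by
    rw [fderiv_fun_smul ha hu]
    simp
  rw [h1]
  refine (norm_add_le _ _).trans ?_
  rw [norm_smul, norm_smul, Real.norm_eq_abs]
  have h2 := mul_le_mul_of_nonneg_left ((fderiv ℝ u x).le_opNorm v) (abs_nonneg (a x))
  have h3 := mul_le_mul_of_nonneg_right ((fderiv ℝ a x).le_opNorm v) (norm_nonneg (u x))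
  nlinarith [h2, h3]

private theorem dy3_gd (q : En d → ℝ) (x : En d) : ‖fderiv ℝ q x‖ ≤ ‖gd q x‖ := by
  refine ContinuousLinearMap.opNorm_le_bound _ (norm_nonneg _) fun v => ?_
  rw [← inner_gd]
  exact norm_inner_le_norm _ _

private theorem dy3_M (h : Dom D z δ) : ∃ M, 0 ≤ M ∧ Bk D 1 M (dyP3 z) ∧ Bk D 1 M (dyQ3 z) ∧ Bk D 1 M (gd z) := by
  obtain ⟨M1, h1, h1'⟩ := ((dyP3_smo h.smo).bd h.bdd).exists_Bk 1
  obtain ⟨M2, h2, h2'⟩ := ((dyQ3_smo h.smo).bd h.bdd).exists_Bk 1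
  obtain ⟨M3, h3, h3'⟩ := (Smo.bd h.bdd h.smo.gd).exists_Bk 1
  exact ⟨M1 + M2 + M3, by positivity, h1'.mono le_rfl (by linarith), h2'.mono le_rfl (by linarith),
    h3'.mono le_rfl (by linarith)⟩

/-- pointwise bound -/
theorem dyK_le (h : Dom D z δ) : ∃ C, 0 ≤ C ∧ ∀ ρ, 0 < ρ → ρ ≤ 1 → ∀ Y : En d → En d, BD D Y → (∀ x ∈ D, dv Y x = 0) →
    ∀ x ∈ D, ‖dyK z ρ Y x‖ ≤ C * (Real.exp (-(z x / (2 * ρ))) * ‖Y x‖ + ρ * (‖Y x‖ + ‖fderiv ℝ Y x‖)) := by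
  obtain ⟨M, hM, hP, hQ, hg⟩ := dy3_M h
  refine ⟨2 * M, by positivity, fun ρ hρ _ Y hY hd x hx => ?_⟩
  have hz : 0 < z x := (h.pos x).1 hx
  rw [dy3_eq h ρ hY hd hx]
  have e1 : ‖dyP3 z x (Y x)‖ ≤ M * ‖Y x‖ :=
    ((dyP3 z x).le_opNorm _).trans (mul_le_mul_of_nonneg_right (hP.le0 hx) (norm_nonneg _))
  have e2 : ‖dyQ3 z x (Y x)‖ ≤ M * ‖Y x‖ :=
    ((dyQ3 z x).le_opNorm _).trans (mul_le_mul_of_nonneg_right (hQ.le0 hx) (norm_nonneg _))
  have e3 : ‖fderiv ℝ Y x (gd z x)‖ ≤ ‖fderiv ℝ Y x‖ * M :=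
    ((fderiv ℝ Y x).le_opNorm _).trans (mul_le_mul_of_nonneg_left (hg.le0 hx) (norm_nonneg _))
  have e4 := norm_add_le (fderiv ℝ Y x (gd z x)) (dyQ3 z x (Y x))
  refine (norm_add_le _ _).trans ?_
  rw [norm_smul, norm_smul, Real.norm_eq_abs, Real.norm_eq_abs]
  have e5 := dya_le (z := z) hρ hz
  have e6 := dyg_le (z := z) hρ hz
  have hE : 0 ≤ Real.exp (-(z x / (2 * ρ))) := (Real.exp_pos _).le
  have f1 : |dya z ρ x| * ‖dyP3 z x (Y x)‖ ≤ 2 * Real.exp (-(z x / (2 * ρ))) * (M * ‖Y x‖) :=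
    mul_le_mul e5 e1 (norm_nonneg _) (by positivity)
  have f2 : |dyg z ρ x| * ‖fderiv ℝ Y x (gd z x) + dyQ3 z x (Y x)‖ ≤ ρ * (‖fderiv ℝ Y x‖ * M + M * ‖Y x‖) :=
    mul_le_mul e6 (e4.trans (add_le_add e3 e2)) (norm_nonneg _) hρ.le
  have f3 : 0 ≤ ρ * (M * (‖Y x‖ + ‖fderiv ℝ Y x‖)) := by positivity
  calc _ ≤ 2 * Real.exp (-(z x / (2 * ρ))) * (M * ‖Y x‖) + ρ * (‖fderiv ℝ Y x‖ * M + M * ‖Y x‖) := add_le_add f1 f2
    _ ≤ _ := by nlinarith [f3]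

/-- pointwise bound of the derivative (product rule in `dyK_eq`) -/
theorem dyK_fderiv_le (h : Dom D z δ) : ∃ C, 0 ≤ C ∧ ∀ ρ, 0 < ρ → ρ ≤ 1 → ∀ Y : En d → En d, BD D Y →
    (∀ x ∈ D, dv Y x = 0) → ∀ x ∈ D, ‖fderiv ℝ (dyK z ρ Y) x‖ ≤
      C * (ρ⁻¹ * Real.exp (-(z x / (2 * ρ))) * ‖Y x‖ + ‖Y x‖ + ‖fderiv ℝ Y x‖ + ρ * ‖fderiv ℝ (fderiv ℝ Y) x‖) := by
  obtain ⟨M, hM, hP, hQ, hg⟩ := dy3_M h
  refine ⟨4 * M ^ 2 + 6 * M, by positivity, fun ρ hρ hρ1 Y hY hd x hx => ?_⟩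
  have hD : IsOpen D := h.col.isOpen
  have hz : 0 < z x := (h.pos x).1 hx
  rw [fderiv_congr_on hD (fun y hy => dy3_eq h ρ hY hd hy) hx]
  have dP : DifferentiableAt ℝ (dyP3 z) x := (dyP3_smo h.smo).differentiable x
  have dQ : DifferentiableAt ℝ (dyQ3 z) x := (dyQ3_smo h.smo).differentiable x
  have dg : DifferentiableAt ℝ (gd z) x := h.smo.gd.differentiable x
  have dY : DifferentiableAt ℝ Y x := hY.differentiableAt hD hx
  have dY' : DifferentiableAt ℝ (fderiv ℝ Y) x := (hY.fderiv hD).differentiableAt hD hx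
  have da : DifferentiableAt ℝ (dya z ρ) x := (dya_smo h.smo ρ).differentiable x
  have db : DifferentiableAt ℝ (dyg z ρ) x := (dyg_smo h.smo ρ).differentiable x
  have dA : DifferentiableAt ℝ (fun y => dyP3 z y (Y y)) x := dP.clm_apply dY
  have dB1 : DifferentiableAt ℝ (fun y => fderiv ℝ Y y (gd z y)) x := dY'.clm_apply dg
  have dB2 : DifferentiableAt ℝ (fun y => dyQ3 z y (Y y)) x := dQ.clm_apply dY
  have dB : DifferentiableAt ℝ (fun y => fderiv ℝ Y y (gd z y) + dyQ3 z y (Y y)) x := dB1.add dB2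
  set E := Real.exp (-(z x / (2 * ρ))) with hEd
  have hE : 0 ≤ E := (Real.exp_pos _).le
  have hE1 : E ≤ 1 := Real.exp_le_one_iff.2 (neg_nonpos.2 (by positivity))
  set y0 := ‖Y x‖ with hy0
  set y1 := ‖fderiv ℝ Y x‖ with hy1
  set y2 := ‖fderiv ℝ (fderiv ℝ Y) x‖ with hy2
  have n0 : 0 ≤ y0 := norm_nonneg _
  have n1 : 0 ≤ y1 := norm_nonneg _
  have n2 : 0 ≤ y2 := norm_nonneg (fderiv ℝ (fderiv ℝ Y) x)
  -- the zeroth order terms
  have e1 : ‖dyP3 z x (Y x)‖ ≤ M * y0 :=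
    ((dyP3 z x).le_opNorm _).trans (mul_le_mul_of_nonneg_right (hP.le0 hx) (norm_nonneg _))
  have e2 : ‖dyQ3 z x (Y x)‖ ≤ M * y0 :=
    ((dyQ3 z x).le_opNorm _).trans (mul_le_mul_of_nonneg_right (hQ.le0 hx) (norm_nonneg _))
  have e3 : ‖fderiv ℝ Y x (gd z x)‖ ≤ y1 * M :=
    ((fderiv ℝ Y x).le_opNorm _).trans (mul_le_mul_of_nonneg_left (hg.le0 hx) (norm_nonneg _))
  have e4 : ‖fderiv ℝ Y x (gd z x) + dyQ3 z x (Y x)‖ ≤ y1 * M + M * y0 :=
    (norm_add_le _ _).trans (add_le_add e3 e2)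
  -- the first order terms
  have g1 : ‖fderiv ℝ (fun y => dyP3 z y (Y y)) x‖ ≤ M * y0 + M * y1 :=
    (dy3_clm dP dY).trans (add_le_add (mul_le_mul_of_nonneg_right (hP.le1 hx) n0)
      (mul_le_mul_of_nonneg_right (hP.le0 hx) n1))
  have g2 : ‖fderiv ℝ (fun y => dyQ3 z y (Y y)) x‖ ≤ M * y0 + M * y1 :=
    (dy3_clm dQ dY).trans (add_le_add (mul_le_mul_of_nonneg_right (hQ.le1 hx) n0)
      (mul_le_mul_of_nonneg_right (hQ.le0 hx) n1))
  have g3 : ‖fderiv ℝ (fun y => fderiv ℝ Y y (gd z y)) x‖ ≤ y2 * M + y1 * M :=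
    (dy3_clm dY' dg).trans (add_le_add (mul_le_mul_of_nonneg_left (hg.le0 hx) n2)
      (mul_le_mul_of_nonneg_left (hg.le1 hx) n1))
  have g4 : ‖fderiv ℝ (fun y => fderiv ℝ Y y (gd z y) + dyQ3 z y (Y y)) x‖ ≤
      (y2 * M + y1 * M) + (M * y0 + M * y1) := by
    rw [fderiv_fun_add dB1 dB2]
    exact (norm_add_le _ _).trans (add_le_add g3 g2)
  -- the profiles
  have p1 : |dya z ρ x| ≤ 2 := (dya_le (z := z) hρ hz).trans (by rw [← hEd]; linarith)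
  have p2 : |dyg z ρ x| ≤ ρ := dyg_le (z := z) hρ hz
  have p3 : ‖fderiv ℝ (dya z ρ) x‖ ≤ 2 / ρ * E * M :=
    (dya_fderiv_le h.smo hρ hz).trans (mul_le_mul_of_nonneg_left (hg.le0 hx) (by positivity))
  have p4 : ‖fderiv ℝ (dyg z ρ) x‖ ≤ 2 * M := by
    refine (dy3_gd _ x).trans ?_
    rw [dyg_gd h.smo ρ x, norm_smul, Real.norm_eq_abs]
    exact mul_le_mul p1 (hg.le0 hx) (norm_nonneg _) (by norm_num)
  have q1 : ‖fderiv ℝ (fun y => dya z ρ y • dyP3 z y (Y y)) x‖ ≤ (2 / ρ * E * M) * (M * y0) + 2 * (M * y0 + M * y1) :=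
    (dy3_smul da dA).trans (add_le_add (mul_le_mul p3 e1 (norm_nonneg _) (by positivity))
      (mul_le_mul p1 g1 (norm_nonneg _) (by norm_num)))
  have q2 : ‖fderiv ℝ (fun y => dyg z ρ y • (fderiv ℝ Y y (gd z y) + dyQ3 z y (Y y))) x‖ ≤
      (2 * M) * (y1 * M + M * y0) + ρ * ((y2 * M + y1 * M) + (M * y0 + M * y1)) :=
    (dy3_smul db dB).trans (add_le_add (mul_le_mul p4 e4 (norm_nonneg _) (by positivity))
      (mul_le_mul p2 g4 (norm_nonneg _) hρ.le))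
  have s1 : DifferentiableAt ℝ (fun y => dya z ρ y • dyP3 z y (Y y)) x := da.smul dA
  have s2 : DifferentiableAt ℝ (fun y => dyg z ρ y • (fderiv ℝ Y y (gd z y) + dyQ3 z y (Y y))) x := db.smul dB
  rw [fderiv_fun_add s1 s2]
  refine ((norm_add_le _ _).trans (add_le_add q1 q2)).trans ?_
  have r1 : ρ * (M * (y0 + 2 * y1)) ≤ 1 * (M * (y0 + 2 * y1)) := mul_le_mul_of_nonneg_right hρ1 (by positivity)
  have r2 : 2 / ρ * E * M * (M * y0) = 2 * M ^ 2 * (ρ⁻¹ * E * y0) := by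
    rw [div_eq_mul_inv]; ring
  have r3 : 0 ≤ (2 * M ^ 2 + 6 * M) * (ρ⁻¹ * E * y0) := by positivity
  have r4 : 0 ≤ (2 * M ^ 2 + 3 * M) * y0 := by positivity
  have r5 : 0 ≤ (2 * M ^ 2 + 2 * M) * y1 := by positivity
  have r6 : 0 ≤ (4 * M ^ 2 + 5 * M) * (ρ * y2) := by positivity
  rw [r2]
  nlinarith [r1, r3, r4, r5, r6]

end

end Pool.Agent.Lib.MP_79abb3_an.W
end
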