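import Pool.Agent.Lib.MP_79abb3_an.W.DH1

/-!
Theorem W, block D, part H2: integrals over the collar. `∫_D exp(-z/r) ≤ C r`, `|{0 < z ≤ r}| ≤ C r`.
-/

set_option autoImplicit false
set_option linter.unusedSectionVars false

open MeasureTheory Set Filter Topology Function
open scoped ENNReal RealInnerProductSpace

namespace Pool.Agent.Lib.MP_79abb3_an.W

section
variable {d : ℕ} {D : Set (En d)} {z : En d → ℝ} {δ : ℝ}

/-- The cut-off `1` for `t ≤ δ`, `0` for `t ≥ 2δ`. -/
noncomputable def kap (δ t : ℝ) : ℝ := Real.smoothTransition (2 - t / δ)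

theorem kap_smooth (δ : ℝ) : ContDiff ℝ ((⊤ : ℕ∞) : WithTop ℕ∞) (kap δ) := by
  refine Real.smoothTransition.contDiff.comp ?_
  exact contDiff_const.sub (contDiff_id.div_const δ)

theorem kap_nonneg (δ t : ℝ) : 0 ≤ kap δ t := Real.smoothTransition.nonneg _
theorem kap_le_one (δ t : ℝ) : kap δ t ≤ 1 := Real.smoothTransition.le_one _
theorem kap_one (hδ : 0 < δ) {t : ℝ} (ht : t ≤ δ) : kap δ t = 1 := by
  apply Real.smoothTransition.one_of_one_le
  have : t / δ ≤ 1 := (div_le_one hδ).2 ht
  linarith
theorem kap_zero (hδ : 0 < δ) {t : ℝ} (ht : 2 * δ ≤ t) : kap δ t = 0 := by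
  apply Real.smoothTransition.zero_of_nonpos
  have : 2 ≤ t / δ := (le_div_iff₀ hδ).2 ht
  linarith

private theorem dh2_zero {n : ℕ} {t : ℝ} (ht : t ≤ 0) : Real.smoothTransition ((n + 1 : ℝ) * t) = 0 :=
  Real.smoothTransition.zero_of_nonpos (mul_nonpos_of_nonneg_of_nonpos (by positivity) ht)

private theorem dh2_smooth (n : ℕ) :
    ContDiff ℝ ((⊤ : ℕ∞) : WithTop ℕ∞) fun t : ℝ => Real.smoothTransition ((n + 1 : ℝ) * t) :=
  Real.smoothTransition.contDiff.comp (contDiff_const.mul contDiff_id)

private theorem dh2_mono (n : ℕ) : Monotone fun t : ℝ => Real.smoothTransition ((n + 1 : ℝ) * t) :=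
  fun a b h => Real.smoothTransition.monotone (mul_le_mul_of_nonneg_left h (by positivity))

private theorem dh2_deriv_zero {n : ℕ} {t : ℝ} (ht : t ≤ 0) :
    deriv (fun t : ℝ => Real.smoothTransition ((n + 1 : ℝ) * t)) t = 0 := by
  apply IsLocalMin.deriv_eq_zero
  refine Filter.Eventually.of_forall fun s => ?_
  show Real.smoothTransition ((n + 1 : ℝ) * t) ≤ _
  rw [dh2_zero ht]
  exact Real.smoothTransition.nonneg _

/-- `∫_D (g'(z)|∇z|² + g(z) Δz) ≤ 0` for `g ≥ 0` on `[0,∞)`: divergence theorem for `θ(n z) g(z) ∇z`, `n → ∞`. -/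
theorem Col.int_le (h : Col D z δ) {g : ℝ → ℝ} (hg : ContDiff ℝ ((⊤ : ℕ∞) : WithTop ℕ∞) g)
    (h0 : ∀ t, 0 ≤ t → 0 ≤ g t) :
    ∫ x in D, (deriv g (z x) * ‖gd z x‖ ^ 2 + g (z x) * lap z x) ≤ 0 := by
  set f : En d → ℝ := fun x => deriv g (z x) * ‖gd z x‖ ^ 2 + g (z x) * lap z x with hf
  have hgd : Continuous (deriv g) := hg.continuous_deriv (by norm_num)
  have hfc : Continuous f := by
    have h1 : Continuous (gd z) := h.smo.gd.continuous
    have h2 : Continuous (lap z) := h.smo.lap.continuous
    have h3 : Continuous z := h.smo.continuous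
    exact ((hgd.comp h3).mul (h1.norm.pow 2)).add ((hg.continuous.comp h3).mul h2)
  -- the approximations
  have key : ∀ n : ℕ, ∫ x in D, Real.smoothTransition ((n + 1 : ℝ) * z x) * f x ≤ 0 := by
    intro n
    set θ : ℝ → ℝ := fun t => Real.smoothTransition ((n + 1 : ℝ) * t) with hθ
    have hθs : ContDiff ℝ ((⊤ : ℕ∞) : WithTop ℕ∞) θ := dh2_smooth n
    have hθg : ContDiff ℝ ((⊤ : ℕ∞) : WithTop ℕ∞) fun t => θ t * g t := hθs.mul hg
    have hFs : Smo fun x => (θ (z x) * g (z x)) • gd z x := (smo_comp hθg h.smo).smul h.smo.gd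
    have hsupp : ∀ x, x ∉ D → z x ≤ 0 := fun x hx => not_lt.1 fun h' => hx ((h.pos x).2 h')
    have hFc : HasCompactSupport fun x => (θ (z x) * g (z x)) • gd z x := by
      refine HasCompactSupport.intro h.compact fun x hx => ?_
      have h1 : z x ≤ 0 := hsupp x fun h' => hx (subset_closure h')
      show (θ (z x) * g (z x)) • gd z x = 0
      rw [show θ (z x) = 0 from dh2_zero h1, zero_mul, zero_smul]
    have hint := int_dv hFs hFc
    have hdv : ∀ x, dv (fun x => (θ (z x) * g (z x)) • gd z x) x =
        deriv θ (z x) * g (z x) * ‖gd z x‖ ^ 2 + θ (z x) * f x := by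
      intro x
      rw [dv_smul (smo_comp hθg h.smo) h.smo.gd, gd_comp hθg h.smo, dv_gd h.smo]
      have h1 : deriv (fun t => θ t * g t) (z x) = deriv θ (z x) * g (z x) + θ (z x) * deriv g (z x) :=
        deriv_fun_mul ((hθs.differentiable (by norm_num)) _) ((hg.differentiable (by norm_num)) _)
      rw [h1, real_inner_smul_left, real_inner_self_eq_norm_sq, hf]
      ring
    have hoff : ∀ x, x ∉ D → dv (fun x => (θ (z x) * g (z x)) • gd z x) x = 0 := by
      intro x hx
      rw [hdv, show deriv θ (z x) = 0 from dh2_deriv_zero (hsupp x hx),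
        show θ (z x) = 0 from dh2_zero (hsupp x hx)]
      ring
    rw [← setIntegral_eq_integral_of_forall_compl_eq_zero hoff] at hint
    have hle : ∫ x in D, θ (z x) * f x ≤ ∫ x in D, dv (fun x => (θ (z x) * g (z x)) • gd z x) x := by
      have hi1 : IntegrableOn (fun x => θ (z x) * f x) D := by
        have hc1 : Continuous fun x => θ (z x) * f x := (hθs.continuous.comp h.smo.continuous).mul hfc
        exact (hc1.continuousOn.integrableOn_compact h.compact).mono_set subset_closure
      have hi2 : IntegrableOn (fun x => dv (fun x => (θ (z x) * g (z x)) • gd z x) x) D := by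
        have hc2 : Continuous fun x => dv (fun x => (θ (z x) * g (z x)) • gd z x) x := by
          have e : (fun x => dv (fun x => (θ (z x) * g (z x)) • gd z x) x) = fun x =>
            deriv θ (z x) * g (z x) * ‖gd z x‖ ^ 2 + θ (z x) * f x := funext hdv
          rw [e]
          have h3 : Continuous z := h.smo.continuous
          exact ((((hθs.continuous_deriv (by norm_num)).comp h3).mul (hg.continuous.comp h3)).mul
            (h.smo.gd.continuous.norm.pow 2)).add ((hθs.continuous.comp h3).mul hfc)
        exact (hc2.continuousOn.integrableOn_compact h.compact).mono_set subset_closure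
      refine setIntegral_mono_on hi1 hi2 h.meas fun x hx => ?_
      rw [hdv]
      have h5 : 0 ≤ deriv θ (z x) * g (z x) * ‖gd z x‖ ^ 2 := by
        have h6 : 0 ≤ deriv θ (z x) := (dh2_mono n).deriv_nonneg
        have h7 : 0 ≤ g (z x) := h0 _ ((h.pos x).1 hx).le
        positivity
      linarith
    linarith
  -- the limit
  have hlim : Tendsto (fun n : ℕ => ∫ x in D, Real.smoothTransition ((n + 1 : ℝ) * z x) * f x) atTop
      (𝓝 (∫ x in D, f x)) := by
    refine tendsto_integral_of_dominated_convergence (fun x => ‖f x‖) ?_ ?_ ?_ ?_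
    · intro n
      exact (((dh2_smooth n).continuous.comp h.smo.continuous).mul hfc).aestronglyMeasurable
    · exact ((hfc.continuousOn.integrableOn_compact h.compact).mono_set subset_closure).norm
    · intro n
      refine Filter.Eventually.of_forall fun x => ?_
      rw [norm_mul, Real.norm_eq_abs, abs_of_nonneg (Real.smoothTransition.nonneg _)]
      exact mul_le_of_le_one_left (norm_nonneg _) (Real.smoothTransition.le_one _)
    · filter_upwards [ae_restrict_mem h.meas] with x hx
      have hzx : 0 < z x := (h.pos x).1 hx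
      obtain ⟨N, hN⟩ := exists_nat_gt (1 / z x)
      refine tendsto_const_nhds.congr' ?_
      filter_upwards [eventually_ge_atTop N] with n hn
      have h1 : 1 ≤ (n + 1 : ℝ) * z x := by
        have h2 : (N : ℝ) ≤ n := by exact_mod_cast hn
        have h3 : 1 < (N : ℝ) * z x := by
          rw [div_lt_iff₀ hzx] at hN
          exact hN
        nlinarith
      rw [Real.smoothTransition.one_of_one_le h1, one_mul]
  exact le_of_tendsto' hlim key

/-- `∫_D exp(-z/r) ≤ C r`: `Col.int_le` for `g(t) = r (1 - exp(-t/r)) κ(t)`. -/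
theorem Col.int_exp (h : Col D z δ) : ∃ C, 0 ≤ C ∧ ∀ r > 0, ∫ x in D, Real.exp (-(z x / r)) ≤ C * r := by
  have hkd : Continuous (deriv (kap δ)) := (kap_smooth δ).continuous_deriv (by norm_num)
  have h3 : Continuous z := h.smo.continuous
  obtain ⟨M, hM0, hM⟩ := h.bound (f := fun x => |deriv (kap δ) (z x)| * ‖gd z x‖ ^ 2 + |lap z x|)
    (((hkd.comp h3).abs.mul (h.smo.gd.continuous.norm.pow 2)).add h.smo.lap.continuous.abs)
  have hδ := h.δ0
  refine ⟨M * volume.real D + volume.real D / δ, by positivity, fun r hr => ?_⟩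
  set e : ℝ → ℝ := fun t => Real.exp (-(t / r)) with he
  have hes : ContDiff ℝ ((⊤ : ℕ∞) : WithTop ℕ∞) e := Real.contDiff_exp.comp (contDiff_id.div_const r).neg
  have hed : ∀ t, HasDerivAt e (-(e t / r)) t := by
    intro t
    have h1 : HasDerivAt (fun t : ℝ => -(t / r)) (-(1 / r)) t := ((hasDerivAt_id t).div_const r).neg
    have h2 := h1.exp
    convert h2 using 1
    simp only [he]
    ring
  set g : ℝ → ℝ := fun t => (r * (1 - e t)) * kap δ t with hgdef
  have hgs : ContDiff ℝ ((⊤ : ℕ∞) : WithTop ℕ∞) g :=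
    (contDiff_const.mul (contDiff_const.sub hes)).mul (kap_smooth δ)
  have he1 : ∀ t, 0 ≤ t → e t ≤ 1 := by
    intro t ht
    apply Real.exp_le_one_iff.2
    have : 0 ≤ t / r := by positivity
    linarith
  have hg0 : ∀ t, 0 ≤ t → 0 ≤ g t := by
    intro t ht
    have h1 := he1 t ht
    have h2 := kap_nonneg δ t
    have h4 : 0 ≤ 1 - e t := by linarith
    positivity
  have hgd : ∀ t, deriv g t = e t * kap δ t + r * (1 - e t) * deriv (kap δ) t := by
    intro t
    have h1 : HasDerivAt (fun t => r * (1 - e t)) (r * (0 - -(e t / r))) t :=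
      ((hasDerivAt_const t (1 : ℝ)).sub (hed t)).const_mul r
    have h2 := h1.mul ((kap_smooth δ).differentiable (by norm_num) t).hasDerivAt
    have h4 := h2.deriv
    have h5 : deriv g t = r * (0 - -(e t / r)) * kap δ t + r * (1 - e t) * deriv (kap δ) t := h4
    rw [h5]
    field_simp
    ring
  have hmain := h.int_le hgs hg0
  have hcont : ∀ {f : En d → ℝ}, Continuous f → IntegrableOn f D := fun hf =>
    (hf.continuousOn.integrableOn_compact h.compact).mono_set subset_closure
  -- pointwise comparison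
  have hpt : ∀ x ∈ D, e (z x) ≤ (deriv g (z x) * ‖gd z x‖ ^ 2 + g (z x) * lap z x) + r * M + r / δ := by
    intro x hx
    have hzx : 0 < z x := (h.pos x).1 hx
    have hMx := hM x (subset_closure hx)
    rw [Real.norm_eq_abs, abs_of_nonneg (by positivity)] at hMx
    have hex := he1 _ hzx.le
    have hex0 : 0 < e (z x) := Real.exp_pos _
    have hk0 := kap_nonneg δ (z x)
    have hk1 := kap_le_one δ (z x)
    have h1 : -(r * M) ≤ r * (1 - e (z x)) * deriv (kap δ) (z x) * ‖gd z x‖ ^ 2 + g (z x) * lap z x := by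
      have h6 : |(1 - e (z x)) * (deriv (kap δ) (z x) * ‖gd z x‖ ^ 2) +
          (1 - e (z x)) * kap δ (z x) * lap z x| ≤ M := by
        refine (abs_add_le _ _).trans (le_trans (add_le_add ?_ ?_) hMx)
        · rw [abs_mul, abs_mul, abs_of_nonneg (by positivity : (0 : ℝ) ≤ ‖gd z x‖ ^ 2),
            abs_of_nonneg (by linarith : (0 : ℝ) ≤ 1 - e (z x))]
          exact mul_le_of_le_one_left (by positivity) (by linarith)
        · rw [abs_mul, abs_of_nonneg (by nlinarith : (0 : ℝ) ≤ (1 - e (z x)) * kap δ (z x))]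
          exact mul_le_of_le_one_left (abs_nonneg _) (by nlinarith)
      have h7 := (abs_le.1 h6).1
      have h8 : r * (1 - e (z x)) * deriv (kap δ) (z x) * ‖gd z x‖ ^ 2 + g (z x) * lap z x =
          r * ((1 - e (z x)) * (deriv (kap δ) (z x) * ‖gd z x‖ ^ 2) +
          (1 - e (z x)) * kap δ (z x) * lap z x) := by
        simp only [hgdef]; ring
      rw [h8]
      nlinarith
    have h2 : e (z x) ≤ e (z x) * kap δ (z x) * ‖gd z x‖ ^ 2 + r / δ := by
      by_cases hz : z x ≤ δ
      · rw [kap_one hδ hz, h.unit x (by rw [abs_of_pos hzx]; linarith)]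
        have : 0 < r / δ := by positivity
        linarith
      · push Not at hz
        have h9 : e (z x) ≤ r / δ := by
          have h10 : z x / r < Real.exp (z x / r) := by
            have := Real.add_one_le_exp (z x / r)
            linarith
          have h11 : e (z x) = (Real.exp (z x / r))⁻¹ := Real.exp_neg _
          have h12 : (Real.exp (z x / r))⁻¹ ≤ (z x / r)⁻¹ :=
            inv_anti₀ (by positivity) h10.le
          rw [inv_div] at h12
          have h13 : r / z x ≤ r / δ := div_le_div_of_nonneg_left hr.le hδ hz.le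
          linarith
        have : 0 ≤ e (z x) * kap δ (z x) * ‖gd z x‖ ^ 2 := by positivity
        linarith
    rw [hgd]
    nlinarith
  have hc1 : Continuous fun x => e (z x) := hes.continuous.comp h3
  have hc2 : Continuous fun x => deriv g (z x) * ‖gd z x‖ ^ 2 + g (z x) * lap z x :=
    (((hgs.continuous_deriv (by norm_num)).comp h3).mul (h.smo.gd.continuous.norm.pow 2)).add
      ((hgs.continuous.comp h3).mul h.smo.lap.continuous)
  have hc3 : Continuous fun x => (deriv g (z x) * ‖gd z x‖ ^ 2 + g (z x) * lap z x) + r * M + r / δ :=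
    (hc2.add continuous_const).add continuous_const
  calc ∫ x in D, Real.exp (-(z x / r))
      ≤ ∫ x in D, ((deriv g (z x) * ‖gd z x‖ ^ 2 + g (z x) * lap z x) + r * M + r / δ) :=
        setIntegral_mono_on (hcont hc1) (hcont hc3) h.meas hpt
    _ = (∫ x in D, (deriv g (z x) * ‖gd z x‖ ^ 2 + g (z x) * lap z x)) + r * M * volume.real D +
          r / δ * volume.real D := by
        have e1 : ∫ x in D, ((deriv g (z x) * ‖gd z x‖ ^ 2 + g (z x) * lap z x) + (r * M + r / δ)) =
            (∫ x in D, (deriv g (z x) * ‖gd z x‖ ^ 2 + g (z x) * lap z x)) + ∫ _ in D, (r * M + r / δ) :=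
          integral_add (hcont hc2) (hcont continuous_const)
        simp only [add_assoc] at e1 ⊢
        rw [e1, setIntegral_const, smul_eq_mul]
        ring
    _ ≤ (M * volume.real D + volume.real D / δ) * r := by
        have : r * M * volume.real D + r / δ * volume.real D =
          (M * volume.real D + volume.real D / δ) * r := by ring
        linarith

/-- `|{0 < z ≤ r}| ≤ C r` -/
theorem Col.vol_le (h : Col D z δ) : ∃ C, 0 ≤ C ∧ ∀ r > 0, volume.real (D ∩ {x | z x ≤ r}) ≤ C * r := by
  obtain ⟨C, hC, h1⟩ := h.int_exp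
  refine ⟨Real.exp 1 * C, by positivity, fun r hr => ?_⟩
  have hm : MeasurableSet (D ∩ {x | z x ≤ r}) :=
    h.meas.inter (measurableSet_le h.smo.continuous.measurable measurable_const)
  have hfin : volume (D ∩ {x | z x ≤ r}) ≠ ∞ := ((measure_mono inter_subset_left).trans_lt h.vol).ne
  have hc1 : Continuous fun x => Real.exp (-(z x / r)) :=
    Real.continuous_exp.comp (h.smo.continuous.div_const r).neg
  have hint : IntegrableOn (fun x => Real.exp (-(z x / r))) D :=
    (hc1.continuousOn.integrableOn_compact h.compact).mono_set subset_closure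
  have h2 : ∫ _ in D ∩ {x | z x ≤ r}, Real.exp (-1) ≤ ∫ x in D, Real.exp (-(z x / r)) := by
    refine le_trans (setIntegral_mono_on (integrableOn_const hfin) (hint.mono_set inter_subset_left) hm
      fun x hx => ?_) (setIntegral_mono_set hint (Filter.Eventually.of_forall fun x => (Real.exp_pos _).le)
      (Filter.Eventually.of_forall fun x hx => hx.1))
    apply Real.exp_le_exp.2
    have h3 : z x / r ≤ 1 := (div_le_one hr).2 hx.2
    linarith
  rw [setIntegral_const, smul_eq_mul] at h2
  have h3 := h1 r hr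
  have h4 : Real.exp 1 * Real.exp (-1) = 1 := by rw [← Real.exp_add]; norm_num
  have h5 : volume.real (D ∩ {x | z x ≤ r}) =
      Real.exp 1 * (volume.real (D ∩ {x | z x ≤ r}) * Real.exp (-1)) := by
    rw [mul_left_comm, h4, mul_one]
  rw [h5, mul_assoc]
  exact mul_le_mul_of_nonneg_left (h2.trans h3) (Real.exp_pos _).le

end

end Pool.Agent.Lib.MP_79abb3_an.W
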