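import Pool.Agent.Lib.MP_79abb3_an.W.Mb1
import Pool.Agent.Lib.MP_79abb3_an.W.SpA

section

/-!
Theorem W, block A: the adjugate of the derivative of a perturbation of the identity.
-/

set_option autoImplicit false
set_option linter.unusedSectionVars false

open MeasureTheory Set Filter Topology Function
open scoped ENNReal RealInnerProductSpace

namespace Pool.Agent.Lib.MP_79abb3_an.W

section
variable {d : ℕ} {X : En d → En d}

/-- the Jacobi matrix -/
noncomputable def Jm (X : En d → En d) (x : En d) : Matrix (Fin d) (Fin d) ℝ := fun k i => pd i X x k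

/-- the adjugate of `DΘ`, `Θ = th X ε`, as a linear map -/
noncomputable def Am (X : En d → En d) (ε : ℝ) (x : En d) : En d →L[ℝ] En d :=
  Matrix.toEuclideanCLM (n := Fin d) (𝕜 := ℝ) (Matrix.adjugate (1 - ε • Jm X x))

theorem fderiv_Jm (x : En d) : fderiv ℝ X x = Matrix.toEuclideanCLM (n := Fin d) (𝕜 := ℝ) (Jm X x) := by
  have h : ∀ i : Fin d, fderiv ℝ X x (ei i) =
      Matrix.toEuclideanCLM (n := Fin d) (𝕜 := ℝ) (Jm X x) (ei i) := by
    intro i
    ext k
    rw [Matrix.ofLp_toEuclideanCLM]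
    have h1 : (ei i : En d).ofLp = Pi.single i 1 := rfl
    rw [h1, Matrix.mulVec_single_one]
    rfl
  apply ContinuousLinearMap.coe_injective
  refine (EuclideanSpace.basisFun (Fin d) ℝ).toBasis.ext fun i => ?_
  rw [OrthonormalBasis.coe_toBasis, EuclideanSpace.basisFun_apply]
  exact h i

private theorem mb2_fd (hX : Smo X) (ε : ℝ) (x : En d) :
    fderiv ℝ (th X ε) x = Matrix.toEuclideanCLM (n := Fin d) (𝕜 := ℝ) (1 - ε • Jm X x) := by
  rw [th_fderiv hX, fderiv_Jm, map_sub, map_one, map_smul]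
  rfl

private theorem mb2_det (M : Matrix (Fin d) (Fin d) ℝ) :
    (Matrix.toEuclideanCLM (n := Fin d) (𝕜 := ℝ) M).det = M.det := by
  rw [ContinuousLinearMap.det, Matrix.coe_toEuclideanCLM_eq_toEuclideanLin,
    Matrix.toEuclideanLin_eq_toLin_orthonormal, LinearMap.det_toLin]

/-- `DΘ ∘ Am = det DΘ` (`Matrix.mul_adjugate`) -/
theorem th_Am (hX : Smo X) (ε : ℝ) (x v : En d) :
    fderiv ℝ (th X ε) x (Am X ε x v) = (fderiv ℝ (th X ε) x).det • v := by
  rw [mb2_fd hX, mb2_det, Am, ← mul_apply_eq_comp, ← map_mul, Matrix.mul_adjugate,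
    map_smul, map_one]
  rfl

private theorem mb2_ent (hX : Smo X) (k l : Fin d) :
    ContDiff ℝ ((⊤ : ℕ∞) : WithTop ℕ∞) fun p : ℝ × En d =>
      ((1 : Matrix (Fin d) (Fin d) ℝ) - p.1 • Jm X p.2) k l := by
  have h1 : ContDiff ℝ ((⊤ : ℕ∞) : WithTop ℕ∞) fun p : ℝ × En d => pd l X p.2 k :=
    (contDiff_euclidean.1 (hX.pd l) k).comp contDiff_snd
  have h2 : (fun p : ℝ × En d => ((1 : Matrix (Fin d) (Fin d) ℝ) - p.1 • Jm X p.2) k l) =
      fun p => (1 : Matrix (Fin d) (Fin d) ℝ) k l - p.1 * pd l X p.2 k := by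
    funext p
    rfl
  rw [h2]
  exact contDiff_const.sub (contDiff_fst.mul h1)

private theorem mb2_adj (hX : Smo X) (i j : Fin d) :
    ContDiff ℝ ((⊤ : ℕ∞) : WithTop ℕ∞) fun p : ℝ × En d =>
      Matrix.adjugate (1 - p.1 • Jm X p.2) i j := by
  simp only [Matrix.adjugate_apply, Matrix.det_apply]
  refine ContDiff.sum fun σ _ => ?_
  refine ContDiff.const_smul _ ?_
  refine contDiff_prod fun k _ => ?_
  by_cases hk : σ k = j
  · have e : (fun p : ℝ × En d => Matrix.updateRow ((1 : Matrix (Fin d) (Fin d) ℝ) -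
        p.1 • Jm X p.2) j (Pi.single i 1) (σ k) k) = fun _ => (Pi.single i (1 : ℝ) : Fin d → ℝ) k := by
      funext p
      rw [hk, Matrix.updateRow_self]
    rw [e]
    exact contDiff_const
  · have e : (fun p : ℝ × En d => Matrix.updateRow ((1 : Matrix (Fin d) (Fin d) ℝ) -
        p.1 • Jm X p.2) j (Pi.single i 1) (σ k) k) =
        fun p => ((1 : Matrix (Fin d) (Fin d) ℝ) - p.1 • Jm X p.2) (σ k) k := by
      funext p
      rw [Matrix.updateRow_ne hk]
    rw [e]
    exact mb2_ent hX _ _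

/-- joint smoothness: the entries are polynomials in `ε` and the entries of `Jm` -/
theorem Am_smo (hX : Smo X) : ContDiff ℝ ((⊤ : ℕ∞) : WithTop ℕ∞) fun p : ℝ × En d => Am X p.1 p.2 := by
  rw [contDiff_clm_apply_iff]
  intro v
  rw [contDiff_euclidean]
  intro i
  have e : (fun p : ℝ × En d => (Am X p.1 p.2 v).ofLp i) =
      fun p => ∑ j, Matrix.adjugate (1 - p.1 • Jm X p.2) i j * v j := by
    funext p
    rfl
  rw [e]
  exact ContDiff.sum fun j _ => (mb2_adj hX i j).mul contDiff_const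

theorem Am_id {x : En d} (hx : x ∉ tsupport X) (ε : ℝ) : Am X ε x = ContinuousLinearMap.id ℝ (En d) := by
  have h : Jm X x = 0 := by
    ext k i
    have h1 : fderiv ℝ X x = 0 := by
      by_contra h3
      exact hx (support_fderiv_subset ℝ h3)
    show (fderiv ℝ X x (ei i)) k = 0
    rw [h1]
    rfl
  rw [Am, h, smul_zero, sub_zero, Matrix.adjugate_one, map_one]
  rfl

theorem Am_zero (x : En d) : Am X 0 x = ContinuousLinearMap.id ℝ (En d) := by
  rw [Am, zero_smul, sub_zero, Matrix.adjugate_one, map_one]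
  rfl

/-- mean value theorem in `ε` for a family which is constant for `ε = 0` and outside a compact set -/
private theorem mb2_mvt {F : Type} [NormedAddCommGroup F] [NormedSpace ℝ F] {K : Set (En d)}
    (hK : IsCompact K) {G : ℝ × En d → F} (hG : ContDiff ℝ ((⊤ : ℕ∞) : WithTop ℕ∞) G) {c : F}
    (h0 : ∀ x, G (0, x) = c) (h1 : ∀ x, x ∉ K → ∀ ε, G (ε, x) = c) :
    ∃ C : ℝ, 0 ≤ C ∧ ∀ ε : ℝ, |ε| ≤ 1 → ∀ x, ‖G (ε, x) - c‖ ≤ C * |ε| := by
  have hc : Continuous fun p : ℝ × En d => fderiv ℝ G p (1, 0) :=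
    (hG.continuous_fderiv (by simp)).clm_apply continuous_const
  obtain ⟨C₀, hC₀⟩ := (isCompact_Icc (a := (-1 : ℝ)) (b := 1)).prod hK |>.exists_bound_of_continuousOn
    hc.continuousOn
  refine ⟨max C₀ 0, le_max_right _ _, fun ε hε x => ?_⟩
  by_cases hx : x ∈ K
  · have hd : ∀ s ∈ Icc (-1 : ℝ) 1, HasDerivWithinAt (fun s : ℝ => G (s, x))
        (fderiv ℝ G (s, x) (1, 0)) (Icc (-1 : ℝ) 1) s := by
      intro s _
      have h2 : HasFDerivAt G (fderiv ℝ G (s, x)) (s, x) :=
        (hG.differentiable (by simp) (s, x)).hasFDerivAt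
      have h3 : HasDerivAt (fun s : ℝ => (s, x)) ((1 : ℝ), (0 : En d)) s :=
        (hasDerivAt_id s).prodMk (hasDerivAt_const s x)
      exact (h2.comp_hasDerivAt s h3).hasDerivWithinAt
    have h4 := (convex_Icc (-1 : ℝ) 1).norm_image_sub_le_of_norm_hasDerivWithin_le hd
      (fun s hs => (hC₀ (s, x) ⟨hs, hx⟩).trans (le_max_left C₀ 0))
      (x := 0) (y := ε) ⟨by norm_num, by norm_num⟩ (abs_le.1 hε)
    rw [h0, sub_zero, Real.norm_eq_abs] at h4
    exact h4
  · rw [h1 x hx, sub_self, norm_zero]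
    exact mul_nonneg (le_max_right _ _) (abs_nonneg _)

/-- (mean value theorem in `ε`; the derivatives in `ε` are bounded on the compact set `[-1,1] × tsupport X` and vanish
outside) -/
theorem Am_near (hX : Smo X) (hc : HasCompactSupport X) : ∃ C : ℝ, 0 ≤ C ∧ ∀ ε : ℝ, |ε| ≤ 1 → ∀ x,
    ‖Am X ε x - ContinuousLinearMap.id ℝ (En d)‖ ≤ C * |ε| ∧
    ∀ i, ‖fderiv ℝ (Am X ε) x (ei i)‖ ≤ C * |ε| := by
  have hG := Am_smo hX
  obtain ⟨C₁, h1, hC₁⟩ := mb2_mvt hc.isCompact hG (c := ContinuousLinearMap.id ℝ (En d))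
    (fun x => Am_zero x) (fun x hx ε => Am_id hx ε)
  have hfd : ∀ (ε : ℝ) (x v : En d), fderiv ℝ (Am X ε) x v =
      fderiv ℝ (fun p : ℝ × En d => Am X p.1 p.2) (ε, x) (0, v) := by
    intro ε x v
    have h2 : HasFDerivAt (fun p : ℝ × En d => Am X p.1 p.2)
        (fderiv ℝ (fun p : ℝ × En d => Am X p.1 p.2) (ε, x)) (ε, x) :=
      (hG.differentiable (by simp) (ε, x)).hasFDerivAt
    have h3 : HasFDerivAt (fun x : En d => (ε, x))
        (ContinuousLinearMap.inr ℝ ℝ (En d)) x := hasFDerivAt_prodMk_right ε x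
    have h4 : HasFDerivAt (Am X ε) _ x := h2.comp x h3
    rw [h4.fderiv]
    rfl
  have hH : ∀ i : Fin d, ∃ C : ℝ, 0 ≤ C ∧ ∀ ε : ℝ, |ε| ≤ 1 → ∀ x,
      ‖fderiv ℝ (fun p : ℝ × En d => Am X p.1 p.2) (ε, x) (0, ei i) - 0‖ ≤ C * |ε| := by
    intro i
    refine mb2_mvt (G := fun q => fderiv ℝ (fun p : ℝ × En d => Am X p.1 p.2) q (0, ei i))
      hc.isCompact ?_ ?_ ?_
    · have h5 : ContDiff ℝ ((⊤ : ℕ∞) : WithTop ℕ∞) (fderiv ℝ (fun p : ℝ × En d => Am X p.1 p.2)) :=
        hG.fderiv_right (by exact_mod_cast le_top)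
      exact h5.clm_apply contDiff_const
    · intro x
      show fderiv ℝ (fun p : ℝ × En d => Am X p.1 p.2) (0, x) (0, ei i) = 0
      rw [← hfd]
      have h6 : (Am X 0 : En d → En d →L[ℝ] En d) = fun _ => ContinuousLinearMap.id ℝ (En d) :=
        funext fun x => Am_zero x
      rw [h6]
      simp
    · intro x hx ε
      show fderiv ℝ (fun p : ℝ × En d => Am X p.1 p.2) (ε, x) (0, ei i) = 0
      rw [← hfd]
      have h6 : (Am X ε : En d → En d →L[ℝ] En d) =ᶠ[𝓝 x]
          fun _ => ContinuousLinearMap.id ℝ (En d) := by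
        filter_upwards [(isClosed_tsupport X).isOpen_compl.mem_nhds hx] with y hy
        exact Am_id hy ε
      rw [h6.fderiv_eq]
      simp
  choose C₂ h2 hC₂ using hH
  refine ⟨C₁ + ∑ i, C₂ i, add_nonneg h1 (Finset.sum_nonneg fun i _ => h2 i), fun ε hε x => ⟨?_, ?_⟩⟩
  · refine (hC₁ ε hε x).trans (mul_le_mul_of_nonneg_right ?_ (abs_nonneg _))
    exact le_add_of_nonneg_right (Finset.sum_nonneg fun i _ => h2 i)
  · intro i
    rw [hfd]
    have h7 := hC₂ i ε hε x
    rw [sub_zero] at h7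
    refine h7.trans (mul_le_mul_of_nonneg_right ?_ (abs_nonneg _))
    have h8 : C₂ i ≤ ∑ i, C₂ i := Finset.single_le_sum (fun i _ => h2 i) (Finset.mem_univ i)
    linarith

end

end Pool.Agent.Lib.MP_79abb3_an.W
end

section

/-!
Theorem W, block A: the Piola transform.
-/

set_option autoImplicit false
set_option linter.unusedSectionVars false

open MeasureTheory Set Filter Topology Function
open scoped ENNReal RealInnerProductSpace

namespace Pool.Agent.Lib.MP_79abb3_an.W

section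
variable {d : ℕ} {X : En d → En d}

/-- the Piola transform -/
noncomputable def Tp (X : En d → En d) (ε : ℝ) (v : En d → En d) (x : En d) : En d := Am X ε x (v (th X ε x))

private theorem Am_smo1 (hX : Smo X) (ε : ℝ) : Smo (Am X ε) := by
  have h : ContDiff ℝ ((⊤ : ℕ∞) : WithTop ℕ∞) (Prod.mk ε : En d → ℝ × En d) :=
    contDiff_prodMk_right ε
  have h2 := ContDiff.comp (g := fun p : ℝ × En d => Am X p.1 p.2) (f := (Prod.mk ε : En d → ℝ × En d))
    (Am_smo hX) h
  have h3 : (fun p : ℝ × En d => Am X p.1 p.2) ∘ (Prod.mk ε : En d → ℝ × En d) = Am X ε := by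
    ext1 x
    simp only [comp_apply]
  rw [h3] at h2
  exact h2

theorem Tp_smo (hX : Smo X) (ε : ℝ) {v : En d → En d} (hv : Smo v) : Smo (Tp X ε v) := by
  have h : ContDiff ℝ ((⊤ : ℕ∞) : WithTop ℕ∞) fun x : En d => v (th X ε x) :=
    ContDiff.comp hv (th_smo hX ε)
  exact ContDiff.clm_apply (Am_smo1 hX ε) h

/-- (outside of the support of `X` the transform is `v`) -/
theorem Tp_hcs (hc : HasCompactSupport X) (ε : ℝ) {v : En d → En d} (hv : HasCompactSupport v) :
    HasCompactSupport (Tp X ε v) := by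
  refine HasCompactSupport.intro (hc.isCompact.union hv.isCompact) fun x hx => ?_
  have h1 : x ∉ tsupport X := fun h => hx (Or.inl h)
  have h2 : x ∉ tsupport v := fun h => hx (Or.inr h)
  have h3 : th X ε x = x := by
    unfold th
    rw [image_eq_zero_of_notMem_tsupport h1, smul_zero, sub_zero]
  unfold Tp
  rw [h3, image_eq_zero_of_notMem_tsupport h2, map_zero]

/-- `∂_i (Tp v) = (∂_i Am) v(Θ) + Am ∑_j (∂_i Θ)_j (∂_j v)(Θ)` -/
theorem Tp_pd (hX : Smo X) (ε : ℝ) {v : En d → En d} (hv : Smo v) (i : Fin d) (x : En d) :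
    pd i (Tp X ε v) x = fderiv ℝ (Am X ε) x (ei i) (v (th X ε x)) +
      Am X ε x (∑ j, pd i (th X ε) x j • pd j v (th X ε x)) := by
  have hA : HasFDerivAt (Am X ε) (fderiv ℝ (Am X ε) x) x :=
    ((Am_smo1 hX ε).differentiable x).hasFDerivAt
  have hg : HasFDerivAt (fun x => v (th X ε x)) ((fderiv ℝ v (th X ε x)).comp (fderiv ℝ (th X ε) x)) x :=
    (hv.differentiable (th X ε x)).hasFDerivAt.comp x ((th_smo hX ε).differentiable x).hasFDerivAt
  have h := hA.clm_apply hg
  have h1 : pd i (Tp X ε v) x = fderiv ℝ (fun x => Am X ε x (v (th X ε x))) x (ei i) := rfl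
  rw [h1, h.fderiv, ← fderiv_eq_sum v (th X ε x) (pd i (th X ε) x)]
  simp only [_root_.add_apply, ContinuousLinearMap.comp_apply,
    ContinuousLinearMap.flip_apply]
  rw [add_comm]
  rfl

private theorem mb3_inner (q : En d → ℝ) (w : En d → En d) (x : En d) :
    ⟪gd q x, w x⟫ = ∑ i, pd i q x * w x i := by
  rw [PiLp.inner_apply]
  refine Finset.sum_congr rfl fun i _ => ?_
  rw [gd_apply]
  simp [mul_comm]

/-- integration by parts for the divergence -/
private theorem mb3_ibp {w : En d → En d} (hw : Smo w) {q : En d → ℝ} (hq : Smo q)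
    (hc : HasCompactSupport q) : ∫ x, ⟪gd q x, w x⟫ = -∫ x, q x * dv w x := by
  have hwi : ∀ i, Smo fun x => w x i := fun i => contDiff_euclidean.1 hw i
  have h1 : ∀ i, ∫ x, pd i q x * w x i = -∫ x, q x * pd i w x i := by
    intro i
    have h := ibp_mul hq (hwi i) (Or.inl hc) i
    simp only [pd_apply hw] at h
    exact h
  have i1 : ∀ i, Integrable fun x => pd i q x * w x i := by
    intro i
    exact ((hq.pd i).continuous.mul (hwi i).continuous).integrable_of_hasCompactSupport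
      ((hcs_pd hc i).mul_right)
  have i2 : ∀ i, Integrable fun x => q x * pd i w x i := by
    intro i
    exact (hq.continuous.mul (contDiff_euclidean.1 (hw.pd i) i).continuous).integrable_of_hasCompactSupport
      (hc.mul_right)
  simp only [mb3_inner, dv, Finset.mul_sum]
  rw [integral_finsetSum _ fun i _ => i1 i, integral_finsetSum _ fun i _ => i2 i,
    ← Finset.sum_neg_distrib]
  exact Finset.sum_congr rfl fun i _ => h1 i

/-- **Divergence.** For a test function `q` and `q' = q ∘ Ψ`: `∇q = (DΘ)^T (∇q')(Θ)`,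
`⟪Tp v, ∇q⟫ = ⟪DΘ Am v(Θ), ∇q'(Θ)⟫ = det DΘ ⟪v(Θ), ∇q'(Θ)⟫`, so `∫ ⟪Tp v, ∇q⟫ = ∫ ⟪v, ∇q'⟫ = -∫ q' div v = 0`; hence the continuous
function `div (Tp v)` vanishes. -/
theorem Tp_div (hX : Smo X) (hc : HasCompactSupport X) {ε : ℝ} (h1 : ∀ x, 0 < (fderiv ℝ (th X ε) x).det)
    {Ψ : En d → En d} (hΨ : Smo Ψ) (h2 : ∀ x, Ψ (th X ε x) = x) (h3 : ∀ x, th X ε (Ψ x) = x)
    {v : En d → En d} (hv : Smo v) (hd : ∀ x, dv v x = 0) (x : En d) : dv (Tp X ε v) x = 0 := by
  have _ := hc
  have hT := Tp_smo hX ε hv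
  have key : ∀ q : En d → ℝ, Smo q → HasCompactSupport q → ∫ x, q x * dv (Tp X ε v) x = 0 := by
    intro q hq hqc
    set q' : En d → ℝ := fun y => q (Ψ y) with hq'
    have hq's : Smo q' := ContDiff.comp hq hΨ
    have hq'c : HasCompactSupport q' := by
      refine HasCompactSupport.intro (hqc.isCompact.image (th_smo hX ε).continuous) fun y hy => ?_
      by_contra h0
      exact hy ⟨Ψ y, subset_tsupport _ h0, h3 y⟩
    have e1 : ∀ x, ⟪gd q x, Tp X ε v x⟫ =
        (fderiv ℝ (th X ε) x).det • ⟪gd q' (th X ε x), v (th X ε x)⟫ := by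
      intro x
      have hqq : q = fun x => q' (th X ε x) := by
        funext x
        show q x = q (Ψ (th X ε x))
        rw [h2]
      have hf : HasFDerivAt q ((fderiv ℝ q' (th X ε x)).comp (fderiv ℝ (th X ε) x)) x := by
        have := (hq's.differentiable (th X ε x)).hasFDerivAt.comp x
          ((th_smo hX ε).differentiable x).hasFDerivAt
        exact (congrArg (fun f => HasFDerivAt f ((fderiv ℝ q' (th X ε x)).comp
          (fderiv ℝ (th X ε) x)) x) hqq).mpr this
      rw [inner_gd, inner_gd, hf.fderiv]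
      show fderiv ℝ q' (th X ε x) (fderiv ℝ (th X ε) x (Am X ε x (v (th X ε x)))) = _
      rw [th_Am hX, map_smul]
    have e2 := mb3_ibp hT hq hqc
    have e3 := mb3_ibp hv hq's hq'c
    have e4 := th_cov hX h1 h2 h3 (fun y => ⟪gd q' y, v y⟫)
    simp only [e1] at e2
    rw [← e4, e3] at e2
    simp only [hd, mul_zero, integral_zero] at e2
    linarith
  have hcont : Continuous (dv (Tp X ε v)) :=
    continuous_finsetSum _ fun i _ => (contDiff_euclidean.1 (hT.pd i) i).continuous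
  have hae : ∀ᵐ x, dv (Tp X ε v) x = 0 := by
    refine ae_eq_zero_of_integral_contDiff_smul_eq_zero hcont.locallyIntegrable ?_
    intro q hq hqc
    exact key q hq hqc
  have := (Continuous.ae_eq_iff_eq (μ := (volume : Measure (En d))) hcont continuous_const).1 hae
  exact congrFun this x

end

end Pool.Agent.Lib.MP_79abb3_an.W
end
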