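import Pool.Agent.Lib.MP_79abb3_an.W.SpA

/-!
Theorem W, block A: mollifiers on `ℝ^d`.
-/

set_option autoImplicit false
set_option linter.unusedSectionVars false

open MeasureTheory Set Filter Topology Function
open scoped ENNReal RealInnerProductSpace

namespace Pool.Agent.Lib.MP_79abb3_an.W

section
variable {d : ℕ} {F : Type} [NormedAddCommGroup F] [InnerProductSpace ℝ F] [CompleteSpace F]

/-- a smooth bump of radius `1/(n+1)` -/
noncomputable def bmp (d n : ℕ) : ContDiffBump (0 : En d) where
  rIn := (1 / ((n : ℝ) + 1)) / 2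
  rOut := 1 / ((n : ℝ) + 1)
  rIn_pos := by positivity
  rIn_lt_rOut := half_lt_self (by positivity)

/-- the mollifying kernel: smooth, nonnegative, even, integral one, support in the ball of radius `1/(n+1)` -/
noncomputable def rho (n : ℕ) : En d → ℝ := (bmp d n).normed volume

theorem rho_smo (n : ℕ) : Smo (rho n : En d → ℝ) := by
  exact (bmp d n).contDiff_normed
theorem rho_hcs (n : ℕ) : HasCompactSupport (rho n : En d → ℝ) := by
  exact (bmp d n).hasCompactSupport_normed
theorem rho_supp (n : ℕ) : tsupport (rho n : En d → ℝ) ⊆ Metric.closedBall 0 (1 / ((n : ℝ) + 1)) := by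
  exact ((bmp d n).tsupport_normed_eq (μ := volume)).subset
theorem rho_nonneg (n : ℕ) (x : En d) : 0 ≤ rho n x := by
  exact (bmp d n).nonneg_normed x
theorem rho_int (n : ℕ) : ∫ x, rho n (x : En d) = 1 := by
  exact (bmp d n).integral_normed
theorem rho_even (n : ℕ) (x : En d) : rho n (-x) = rho n x := by
  exact (bmp d n).normed_neg x

theorem rho_zero (n : ℕ) {x : En d} (hx : 1 / ((n : ℝ) + 1) < ‖x‖) : rho n x = 0 := by
  by_contra h
  have h1 := rho_supp n (subset_tsupport _ h)
  rw [mem_closedBall_zero_iff] at h1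
  linarith

/-- `ρ_n * f` -/
noncomputable def mo (n : ℕ) (f : En d → F) (x : En d) : F := ∫ y, rho n y • f (x - y)

theorem mo_conv (n : ℕ) (f : En d → F) :
    mo n f = convolution (rho n) f (ContinuousLinearMap.lsmul ℝ ℝ) volume := by
  rfl

theorem mo_eq (n : ℕ) (f : En d → F) (x : En d) : mo n f x = ∫ y, rho n (x - y) • f y := by
  have h := integral_sub_left_eq_self (fun y => rho n (x - y) • f y) (volume : Measure (En d)) x
  rw [← h]
  simp only [sub_sub_cancel]
  rfl

theorem mo_congr (n : ℕ) {f g : En d → F} (h : f =ᵐ[volume] g) : mo n f = mo n g := by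
  ext1 x
  rw [mo_eq, mo_eq]
  refine integral_congr_ae ?_
  filter_upwards [h] with y hy
  rw [hy]

/-- `HasCompactSupport.contDiff_convolution_left` -/
theorem mo_smo (n : ℕ) {f : En d → F} (hf : LocallyIntegrable f) : Smo (mo n f) := by
  rw [mo_conv]
  exact (rho_hcs n).contDiff_convolution_left _ (rho_smo n) hf

theorem mo_integrable (n : ℕ) {f : En d → F} (hf : LocallyIntegrable f) (x : En d) :
    Integrable (fun y => rho n y • f (x - y)) :=
  (rho_hcs n).convolutionExists_left (ContinuousLinearMap.lsmul ℝ ℝ) (rho_smo n).continuous hf x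

theorem mo_add (n : ℕ) {f g : En d → F} (hf : LocallyIntegrable f) (hg : LocallyIntegrable g) :
    mo n (fun x => f x + g x) = fun x => mo n f x + mo n g x := by
  ext1 x
  show ∫ y, rho n y • (f (x - y) + g (x - y)) = _
  simp only [smul_add]
  rw [integral_add (mo_integrable n hf x) (mo_integrable n hg x)]
  rfl

theorem mo_smul (n : ℕ) (c : ℝ) (f : En d → F) : mo n (fun x => c • f x) = fun x => c • mo n f x := by
  ext1 x
  show ∫ y, rho n y • (c • f (x - y)) = c • ∫ y, rho n y • f (x - y)
  rw [← integral_smul]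
  refine integral_congr_ae (Eventually.of_forall fun y => ?_)
  exact smul_comm _ _ _

/-- the mollification vanishes at distance `> 1/(n+1)` from the support -/
theorem mo_supp (n : ℕ) {f : En d → F} {K : Set (En d)} (hK : ∀ᵐ x, x ∉ K → f x = 0) {x : En d}
    (hx : ∀ y ∈ K, 1 / ((n : ℝ) + 1) < dist x y) : mo n f x = 0 := by
  rw [mo_eq]
  refine integral_eq_zero_of_ae ?_
  filter_upwards [hK] with y hy
  by_cases hyK : y ∈ K
  · have h1 := hx y hyK
    rw [dist_eq_norm] at h1
    rw [rho_zero n h1, zero_smul]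
    rfl
  · rw [hy hyK, smul_zero]
    rfl

theorem mo_cpt (n : ℕ) {f : En d → F} {K : Set (En d)} (hK : ∀ᵐ x, x ∉ K → f x = 0)
    (hb : Bornology.IsBounded K) : HasCompactSupport (mo n f) := by
  obtain ⟨R, hR⟩ := hb.subset_closedBall 0
  refine HasCompactSupport.intro (isCompact_closedBall (0 : En d) (R + 1 / ((n : ℝ) + 1))) ?_
  intro x hx
  refine mo_supp n hK fun y hy => ?_
  have h1 := hR hy
  rw [mem_closedBall_zero_iff] at h1 hx
  rw [dist_eq_norm]
  have h2 : ‖x‖ ≤ ‖x - y‖ + ‖y‖ := by
    have := norm_add_le (x - y) y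
    rwa [sub_add_cancel] at this
  linarith [not_le.1 hx]

private theorem ibp_smul {ψ : En d → ℝ} {f : En d → F} (hψ : Smo ψ) (hc : HasCompactSupport ψ)
    (hf : Smo f) (i : Fin d) : ∫ x, pd i ψ x • f x = -∫ x, ψ x • pd i f x := by
  have hint : ∀ {u : En d → ℝ} {v : En d → F}, Continuous u → Continuous v →
      HasCompactSupport u → Integrable fun x => ContinuousLinearMap.lsmul ℝ ℝ (u x) (v x) := by
    intro u v hu hv huv
    have hcont : Continuous fun x => ContinuousLinearMap.lsmul ℝ ℝ (u x) (v x) := hu.smul hv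
    exact hcont.integrable_of_hasCompactSupport huv.smul_right
  have h := integral_bilinear_hasLineDerivAt_right_eq_neg_left_of_integrable
    (μ := (volume : Measure (En d)))
    (f := ψ) (f' := pd i ψ) (g := f) (g' := pd i f) (v := ei i)
    (B := ContinuousLinearMap.lsmul ℝ ℝ)
    (hint (hψ.pd i).continuous hf.continuous (hcs_pd hc i))
    (hint hψ.continuous (hf.pd i).continuous hc)
    (hint hψ.continuous hf.continuous hc)
    (fun x _ => (hψ.differentiable x).hasFDerivAt.hasLineDerivAt _)
    (fun x _ => (hf.differentiable x).hasFDerivAt.hasLineDerivAt _)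
  have h' : ∫ x, ψ x • pd i f x = -∫ x, pd i ψ x • f x := h
  rw [h', neg_neg]

/-- If `g` is the weak derivative of `f` in direction `i`, then `∂_i (ρ_n * f) = ρ_n * g`. -/
theorem mo_pd (n : ℕ) {f g : En d → F} (hf : LocallyIntegrable f) (hg : LocallyIntegrable g) (i : Fin d)
    (h : ∀ ψ : En d → ℝ, Smo ψ → HasCompactSupport ψ → ∫ x, pd i ψ x • f x = -∫ x, ψ x • g x) :
    pd i (mo n f) = mo n g := by
  ext1 x
  have h1 : HasFDerivAt (mo n f) (convolution (fderiv ℝ (rho n)) f
      ((ContinuousLinearMap.lsmul ℝ ℝ).precompL (En d)) volume x) x := by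
    rw [mo_conv]
    exact (rho_hcs n).hasFDerivAt_convolution_left _ ((rho_smo n).of_le (by exact_mod_cast le_top))
      hf x
  have hfd : Continuous (fderiv ℝ (rho n : En d → ℝ)) :=
    (ContDiff.fderiv_right (m := 0) (rho_smo n) (by norm_num)).continuous
  have h2 : ConvolutionExistsAt (fderiv ℝ (rho n)) f x
      ((ContinuousLinearMap.lsmul ℝ ℝ).precompL (En d)) (volume : Measure (En d)) :=
    ((rho_hcs n).fderiv ℝ).convolutionExists_left _ hfd hf x
  show fderiv ℝ (mo n f) x (ei i) = mo n g x
  rw [h1.fderiv, convolution_def, ContinuousLinearMap.integral_apply h2]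
  have h3 : ∀ y, (((ContinuousLinearMap.lsmul ℝ ℝ).precompL (En d)) (fderiv ℝ (rho n) y)
      (f (x - y))) (ei i) = pd i (rho n) y • f (x - y) := fun y => rfl
  simp only [h3]
  have h4 : ∫ y, pd i (rho n) y • f (x - y) = ∫ y, pd i (rho n) (x - y) • f y := by
    have h := integral_sub_left_eq_self (fun y => pd i (rho n) (x - y) • f y)
      (volume : Measure (En d)) x
    rw [← h]
    simp only [sub_sub_cancel]
  rw [h4]
  set ψ : En d → ℝ := fun y => rho n (x - y) with hψ
  have hψs : Smo ψ := ContDiff.comp (rho_smo n) (contDiff_const.sub contDiff_id)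
  have hψc : HasCompactSupport ψ := by
    have h5 : Topology.IsClosedEmbedding fun y : En d => x - y :=
      (Homeomorph.subLeft x).isClosedEmbedding
    exact (rho_hcs n).comp_isClosedEmbedding h5
  have hpd : ∀ y, pd i ψ y = -pd i (rho n) (x - y) := by
    intro y
    have h6 : HasFDerivAt ψ ((fderiv ℝ (rho n) (x - y)).comp
        (-ContinuousLinearMap.id ℝ (En d))) y := by
      have h7 : HasFDerivAt (fun y : En d => x - y) (-ContinuousLinearMap.id ℝ (En d)) y :=
        (hasFDerivAt_id y).const_sub x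
      exact ((rho_smo n).differentiable (x - y)).hasFDerivAt.comp y h7
    show fderiv ℝ ψ y (ei i) = _
    rw [h6.fderiv]
    simp [pd]
  have h8 := h ψ hψs hψc
  simp only [hpd, neg_smul, integral_neg, neg_inj] at h8
  rw [h8, mo_eq]

theorem mo_pd_smo (n : ℕ) {f : En d → F} (hf : Smo f) (i : Fin d) : pd i (mo n f) = mo n (pd i f) := by
  exact mo_pd n hf.continuous.locallyIntegrable (hf.pd i).continuous.locallyIntegrable i
    fun ψ hψ hc => ibp_smul hψ hc hf i

end

end Pool.Agent.Lib.MP_79abb3_an.W
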