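import Pool.Agent.Lib.MP_79abb3_an.W.SpB

/-!
Theorem W, block A: the `L⁴` inequality for test functions.
-/

set_option autoImplicit false
set_option linter.unusedSectionVars false

open MeasureTheory Set Filter Topology Function
open scoped ENNReal RealInnerProductSpace

namespace Pool.Agent.Lib.MP_79abb3_an.W

section
variable {d : ℕ} {D : Set (En d)}

theorem norm_fderiv_sq_le {f : En d → En d} (x : En d) : ‖fderiv ℝ f x‖ ^ 2 ≤ ∑ i, ‖pd i f x‖ ^ 2 := by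
  have hS : 0 ≤ ∑ i, ‖pd i f x‖ ^ 2 := Finset.sum_nonneg fun i _ => sq_nonneg _
  have h1 : ‖fderiv ℝ f x‖ ≤ Real.sqrt (∑ i, ‖pd i f x‖ ^ 2) := by
    refine ContinuousLinearMap.opNorm_le_bound _ (Real.sqrt_nonneg _) fun y => ?_
    rw [fderiv_eq_sum]
    have h2 : ‖∑ i, y i • pd i f x‖ ≤ ∑ i, |y i| * ‖pd i f x‖ := by
      refine (norm_sum_le _ _).trans (Finset.sum_le_sum fun i _ => ?_)
      rw [norm_smul, Real.norm_eq_abs]
    have h3 : (∑ i, |y i| * ‖pd i f x‖) ^ 2 ≤ (∑ i, |y i| ^ 2) * ∑ i, ‖pd i f x‖ ^ 2 :=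
      Finset.sum_mul_sq_le_sq_mul_sq _ _ _
    have h4 : ‖y‖ ^ 2 = ∑ i, |y i| ^ 2 := by
      rw [EuclideanSpace.norm_sq_eq]
      simp [Real.norm_eq_abs]
    refine h2.trans ?_
    have hn : 0 ≤ ∑ i, |y i| * ‖pd i f x‖ :=
      Finset.sum_nonneg fun i _ => mul_nonneg (abs_nonneg _) (norm_nonneg _)
    refine (sq_le_sq₀ hn (mul_nonneg (Real.sqrt_nonneg _) (norm_nonneg _))).1 ?_
    rw [mul_pow, Real.sq_sqrt hS, h4, mul_comm]
    exact h3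
  calc ‖fderiv ℝ f x‖ ^ 2 ≤ Real.sqrt (∑ i, ‖pd i f x‖ ^ 2) ^ 2 := by gcongr
    _ = _ := Real.sq_sqrt hS

theorem cs_integral {u v : En d → ℝ} (hu : Integrable (fun x => u x ^ 2))
    (hv : Integrable (fun x => v x ^ 2)) (huv : Integrable (fun x => u x * v x)) :
    (∫ x, u x * v x) ^ 2 ≤ (∫ x, u x ^ 2) * ∫ x, v x ^ 2 := by
  have h : ∀ t : ℝ, 0 ≤ (∫ x, v x ^ 2) * (t * t) + (2 * ∫ x, u x * v x) * t + ∫ x, u x ^ 2 := by
    intro t
    have h1 : 0 ≤ ∫ x, (u x + t * v x) ^ 2 := integral_nonneg fun x => sq_nonneg _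
    have h2 : ∫ x, (u x + t * v x) ^ 2 =
        (∫ x, v x ^ 2) * (t * t) + (2 * ∫ x, u x * v x) * t + ∫ x, u x ^ 2 := by
      have h3 : (fun x => (u x + t * v x) ^ 2) =
          fun x => ((t * t) * v x ^ 2 + (2 * t) * (u x * v x)) + u x ^ 2 := by
        funext x; ring
      have h5 : Integrable (fun x => (t * t) * v x ^ 2 + (2 * t) * (u x * v x)) :=
        (hv.const_mul _).add (huv.const_mul _)
      rw [h3, integral_add h5 hu,
        integral_add (hv.const_mul _) (huv.const_mul _), integral_const_mul, integral_const_mul]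
      ring
    rw [← h2]; exact h1
  have h4 := discrim_le_zero h
  unfold discrim at h4
  nlinarith [h4]

theorem pow_toReal_eLpNorm {F G : Type} [NormedAddCommGroup F] [NormedAddCommGroup G] [MeasurableSpace G]
    {μ : Measure G} {f : G → F} (n : ℕ) (hn : n ≠ 0)
    (hf : MemLp f (n : ℝ≥0∞) μ) : (eLpNorm f (n : ℝ≥0∞) μ).toReal ^ n = ∫ x, ‖f x‖ ^ n ∂μ := by
  have hn' : (n : ℝ≥0∞) ≠ 0 := by exact_mod_cast hn
  rw [hf.eLpNorm_eq_integral_rpow_norm hn' (ENNReal.natCast_ne_top n)]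
  simp only [ENNReal.toReal_natCast, Real.rpow_natCast]
  have h0 : 0 ≤ ∫ x, ‖f x‖ ^ n ∂μ := integral_nonneg fun x => by positivity
  rw [ENNReal.toReal_ofReal (by positivity), Real.rpow_inv_natCast_pow h0 hn]

/-- `d = 3`: `∫ |f|⁶ ≤ C (∫ |∇f|²)³` (`eLpNorm_le_eLpNorm_fderiv_of_eq` with `p = 2`, `p' = 6`). -/
theorem L6_three : ∃ C : ℝ, 0 ≤ C ∧ ∀ f : En 3 → En 3, Smo f → HasCompactSupport f →
    ∫ x, ‖f x‖ ^ 6 ≤ C * (∑ i, ∫ x, ‖pd i f x‖ ^ 2) ^ 3 := by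
  set K : NNReal := eLpNormLESNormFDerivOfEqInnerConst (volume : Measure (En 3)) 2 with hK
  refine ⟨(K : ℝ) ^ 6, by positivity, fun f hf hc => ?_⟩
  have hfd : Continuous (fderiv ℝ f) := (ContDiff.fderiv_right (m := 0) hf (by norm_num)).continuous
  have hcd : HasCompactSupport (fderiv ℝ f) := hc.fderiv ℝ
  have h6 : MemLp f ((6 : ℕ) : ℝ≥0∞) volume := hf.continuous.memLp_of_hasCompactSupport hc
  have h2 : MemLp (fderiv ℝ f) ((2 : ℕ) : ℝ≥0∞) volume := hfd.memLp_of_hasCompactSupport hcd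
  have h := eLpNorm_le_eLpNorm_fderiv_of_eq_inner (μ := (volume : Measure (En 3))) (u := f) (p := 2) (p' := 6)
    (ContDiff.of_le hf (by norm_num)) hc (by norm_num) (by simp) (by simp; norm_num)
  have e6 : ((6 : NNReal) : ℝ≥0∞) = ((6 : ℕ) : ℝ≥0∞) := by norm_num
  have e2 : ((2 : NNReal) : ℝ≥0∞) = ((2 : ℕ) : ℝ≥0∞) := by norm_num
  rw [e6, e2] at h
  have h' : (eLpNorm f ((6 : ℕ) : ℝ≥0∞) volume).toReal ≤
      K * (eLpNorm (fderiv ℝ f) ((2 : ℕ) : ℝ≥0∞) volume).toReal := by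
    have := ENNReal.toReal_mono (ENNReal.mul_ne_top ENNReal.coe_ne_top h2.2.ne) h
    rwa [ENNReal.toReal_mul, ENNReal.coe_toReal] at this
  have hle : ∫ x, ‖fderiv ℝ f x‖ ^ 2 ≤ ∑ i, ∫ x, ‖pd i f x‖ ^ 2 := by
    have hi : ∀ i, Integrable fun x => ‖pd i f x‖ ^ 2 := by
      intro i
      have : Continuous fun x => ‖pd i f x‖ ^ 2 := ((hf.pd i).continuous.norm).pow 2
      refine this.integrable_of_hasCompactSupport ?_
      exact (hcs_pd hc i).comp_left (g := fun y : En 3 => ‖y‖ ^ 2) (by simp)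
    rw [← integral_finsetSum _ fun i _ => hi i]
    refine integral_mono ?_ (integrable_finsetSum _ fun i _ => hi i) fun x => norm_fderiv_sq_le x
    have : Continuous fun x => ‖fderiv ℝ f x‖ ^ 2 := (hfd.norm).pow 2
    refine this.integrable_of_hasCompactSupport ?_
    exact hcd.comp_left (g := fun y : En 3 →L[ℝ] En 3 => ‖y‖ ^ 2) (by simp)
  have hA := pow_toReal_eLpNorm 6 (by norm_num) h6
  have hB := pow_toReal_eLpNorm 2 (by norm_num) h2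
  rw [← hA]
  calc (eLpNorm f ((6 : ℕ) : ℝ≥0∞) volume).toReal ^ 6
      ≤ (K * (eLpNorm (fderiv ℝ f) ((2 : ℕ) : ℝ≥0∞) volume).toReal) ^ 6 := by gcongr
    _ = (K : ℝ) ^ 6 * (((eLpNorm (fderiv ℝ f) ((2 : ℕ) : ℝ≥0∞) volume).toReal) ^ 2) ^ 3 := by ring
    _ = (K : ℝ) ^ 6 * (∫ x, ‖fderiv ℝ f x‖ ^ 2) ^ 3 := by rw [hB]
    _ ≤ _ := by
        have h0 : 0 ≤ ∫ x, ‖fderiv ℝ f x‖ ^ 2 := integral_nonneg fun x => by positivity
        gcongr

/-- `d = 2`: `∫ |f|⁴ ≤ C (∫ |f|²) (∫ |∇f|²)` (`eLpNorm_le_eLpNorm_fderiv_of_eq` with `p = 1`, `p' = 2` for the function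
`|f|²`, `‖D|f|²‖ ≤ 2 |f| ‖Df‖`, Cauchy-Schwarz). -/
theorem L4_two : ∃ C : ℝ, 0 ≤ C ∧ ∀ f : En 2 → En 2, Smo f → HasCompactSupport f →
    ∫ x, ‖f x‖ ^ 4 ≤ C * (∫ x, ‖f x‖ ^ 2) * ∑ i, ∫ x, ‖pd i f x‖ ^ 2 := by
  set K : NNReal := eLpNormLESNormFDerivOfEqInnerConst (volume : Measure (En 2)) 1 with hK
  refine ⟨(K : ℝ) ^ 2 * 4, by positivity, fun f hf hc => ?_⟩
  set g : En 2 → ℝ := fun x => ⟪f x, f x⟫ with hg
  have hgs : Smo g := hf.inner hf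
  have hgc : HasCompactSupport g := hc.comp_left (g := fun y : En 2 => ⟪y, y⟫) (by simp)
  have hfd : Continuous (fderiv ℝ f) := (ContDiff.fderiv_right (m := 0) hf (by norm_num)).continuous
  have hcd : HasCompactSupport (fderiv ℝ f) := hc.fderiv ℝ
  have hgd : Continuous (fderiv ℝ g) := (ContDiff.fderiv_right (m := 0) hgs (by norm_num)).continuous
  have hgcd : HasCompactSupport (fderiv ℝ g) := hgc.fderiv ℝ
  have h2 : MemLp g ((2 : ℕ) : ℝ≥0∞) volume := hgs.continuous.memLp_of_hasCompactSupport hgc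
  have h1 : MemLp (fderiv ℝ g) ((1 : ℕ) : ℝ≥0∞) volume := hgd.memLp_of_hasCompactSupport hgcd
  have h := eLpNorm_le_eLpNorm_fderiv_of_eq_inner (μ := (volume : Measure (En 2))) (u := g) (p := 1) (p' := 2)
    (ContDiff.of_le hgs (by norm_num)) hgc le_rfl (by simp) (by simp; norm_num)
  have e1 : ((1 : NNReal) : ℝ≥0∞) = ((1 : ℕ) : ℝ≥0∞) := by norm_num
  have e2 : ((2 : NNReal) : ℝ≥0∞) = ((2 : ℕ) : ℝ≥0∞) := by norm_num
  rw [e1, e2] at h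
  have h' : (eLpNorm g ((2 : ℕ) : ℝ≥0∞) volume).toReal ≤
      K * (eLpNorm (fderiv ℝ g) ((1 : ℕ) : ℝ≥0∞) volume).toReal := by
    have := ENNReal.toReal_mono (ENNReal.mul_ne_top ENNReal.coe_ne_top h1.2.ne) h
    rwa [ENNReal.toReal_mul, ENNReal.coe_toReal] at this
  have hA := pow_toReal_eLpNorm 2 (by norm_num) h2
  have hB := pow_toReal_eLpNorm 1 (by norm_num) h1
  simp only [pow_one] at hB
  have hgf : ∀ x, ‖g x‖ ^ 2 = ‖f x‖ ^ 4 := by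
    intro x
    rw [hg]
    simp only [real_inner_self_eq_norm_sq, Real.norm_eq_abs, sq_abs]
    ring
  simp only [hgf] at hA
  rw [← hA]
  have hif : Integrable fun x => ‖f x‖ ^ 2 := by
    have : Continuous fun x => ‖f x‖ ^ 2 := (hf.continuous.norm).pow 2
    refine this.integrable_of_hasCompactSupport ?_
    exact hc.comp_left (g := fun y : En 2 => ‖y‖ ^ 2) (by simp)
  have hid : Integrable fun x => ‖fderiv ℝ f x‖ ^ 2 := by
    have : Continuous fun x => ‖fderiv ℝ f x‖ ^ 2 := (hfd.norm).pow 2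
    refine this.integrable_of_hasCompactSupport ?_
    exact hcd.comp_left (g := fun y : En 2 →L[ℝ] En 2 => ‖y‖ ^ 2) (by simp)
  have hifd : Integrable fun x => ‖f x‖ * ‖fderiv ℝ f x‖ := by
    have : Continuous fun x => ‖f x‖ * ‖fderiv ℝ f x‖ := (hf.continuous.norm).mul hfd.norm
    refine this.integrable_of_hasCompactSupport ?_
    exact (hc.norm).mul_right
  have hle : ∫ x, ‖fderiv ℝ f x‖ ^ 2 ≤ ∑ i, ∫ x, ‖pd i f x‖ ^ 2 := by
    have hi : ∀ i, Integrable fun x => ‖pd i f x‖ ^ 2 := by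
      intro i
      have : Continuous fun x => ‖pd i f x‖ ^ 2 := ((hf.pd i).continuous.norm).pow 2
      refine this.integrable_of_hasCompactSupport ?_
      exact (hcs_pd hc i).comp_left (g := fun y : En 2 => ‖y‖ ^ 2) (by simp)
    rw [← integral_finsetSum _ fun i _ => hi i]
    exact integral_mono hid (integrable_finsetSum _ fun i _ => hi i) fun x => norm_fderiv_sq_le x
  have hpt : ∀ x, ‖fderiv ℝ g x‖ ≤ 2 * (‖f x‖ * ‖fderiv ℝ f x‖) := by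
    intro x
    refine ContinuousLinearMap.opNorm_le_bound _ (by positivity) fun y => ?_
    have : fderiv ℝ g x y = ⟪f x, fderiv ℝ f x y⟫ + ⟪fderiv ℝ f x y, f x⟫ :=
      fderiv_inner_apply ℝ (hf.differentiable x) (hf.differentiable x) y
    rw [this, real_inner_comm (f x) (fderiv ℝ f x y), Real.norm_eq_abs]
    have h3 := abs_real_inner_le_norm (f x) (fderiv ℝ f x y)
    have h4 := (fderiv ℝ f x).le_opNorm y
    have h5 : |⟪f x, fderiv ℝ f x y⟫ + ⟪f x, fderiv ℝ f x y⟫| ≤ 2 * |⟪f x, fderiv ℝ f x y⟫| := by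
      rw [← two_mul, abs_mul]; simp
    calc _ ≤ 2 * |⟪f x, fderiv ℝ f x y⟫| := h5
      _ ≤ 2 * (‖f x‖ * (‖fderiv ℝ f x‖ * ‖y‖)) := by gcongr; exact h3.trans (by gcongr)
      _ = _ := by ring
  have hint : ∫ x, ‖fderiv ℝ g x‖ ≤ 2 * ∫ x, ‖f x‖ * ‖fderiv ℝ f x‖ := by
    rw [← integral_const_mul]
    exact integral_mono (hgd.norm.integrable_of_hasCompactSupport hgcd.norm) (hifd.const_mul 2) hpt
  have hcs := cs_integral (u := fun x => ‖f x‖) (v := fun x => ‖fderiv ℝ f x‖) hif hid hifd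
  have hn0 : 0 ≤ ∫ x, ‖fderiv ℝ g x‖ := integral_nonneg fun x => by positivity
  have hn1 : 0 ≤ ∫ x, ‖f x‖ ^ 2 := integral_nonneg fun x => by positivity
  calc (eLpNorm g ((2 : ℕ) : ℝ≥0∞) volume).toReal ^ 2
      ≤ (K * (eLpNorm (fderiv ℝ g) ((1 : ℕ) : ℝ≥0∞) volume).toReal) ^ 2 := by gcongr
    _ = (K : ℝ) ^ 2 * (∫ x, ‖fderiv ℝ g x‖) ^ 2 := by rw [hB]; ring
    _ ≤ (K : ℝ) ^ 2 * (2 * ∫ x, ‖f x‖ * ‖fderiv ℝ f x‖) ^ 2 := by gcongr
    _ = (K : ℝ) ^ 2 * 4 * (∫ x, ‖f x‖ * ‖fderiv ℝ f x‖) ^ 2 := by ring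
    _ ≤ (K : ℝ) ^ 2 * 4 * ((∫ x, ‖f x‖ ^ 2) * ∫ x, ‖fderiv ℝ f x‖ ^ 2) := by gcongr
    _ ≤ (K : ℝ) ^ 2 * 4 * ((∫ x, ‖f x‖ ^ 2) * ∑ i, ∫ x, ‖pd i f x‖ ^ 2) := by gcongr
    _ = _ := by ring

/-- `(∫ |f|⁴)² ≤ C (∫ |f|²) (∫ |∇f|²)³`. For `d = 3`: `(∫ |f|⁴)² ≤ (∫ |f|²) (∫ |f|⁶)`. For `d = 2`: square of `L4_two` and Poincare
(`poincare0`). -/
theorem L4_test (hd : d = 2 ∨ d = 3) (hD : Bornology.IsBounded D) : ∃ C : ℝ, 0 ≤ C ∧ ∀ f : En d → En d, IsTe D f →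
    (∫ x, ‖f x‖ ^ 4) ^ 2 ≤ C * (∫ x, ‖f x‖ ^ 2) * (∑ i, ∫ x, ‖pd i f x‖ ^ 2) ^ 3 := by
  rcases hd with rfl | rfl
  · obtain ⟨C, hC, h⟩ := L4_two
    obtain ⟨R, hR⟩ := hD.subset_closedBall (0 : En 2)
    refine ⟨C ^ 2 * (2 * R) ^ 2, by positivity, fun f hf => ?_⟩
    have h1 := h f hf.smooth hf.cpt
    have h2 := poincare0 hf.smooth hf.cpt (hf.supp.trans hR) (0 : Fin 2)
    have h3 : ∫ x, ‖pd 0 f x‖ ^ 2 ≤ ∑ i, ∫ x, ‖pd i f x‖ ^ 2 :=
      Finset.single_le_sum (f := fun i => ∫ x, ‖pd i f x‖ ^ 2)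
        (fun i _ => integral_nonneg fun x => by positivity) (Finset.mem_univ 0)
    have hn1 : 0 ≤ ∫ x, ‖f x‖ ^ 2 := integral_nonneg fun x => by positivity
    have hn2 : 0 ≤ ∫ x, ‖f x‖ ^ 4 := integral_nonneg fun x => by positivity
    have hn3 : 0 ≤ ∑ i, ∫ x, ‖pd i f x‖ ^ 2 :=
      Finset.sum_nonneg fun i _ => integral_nonneg fun x => by positivity
    have h4 : ∫ x, ‖f x‖ ^ 2 ≤ (2 * R) ^ 2 * ∑ i, ∫ x, ‖pd i f x‖ ^ 2 := by
      refine h2.trans ?_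
      gcongr
    generalize (∫ x, ‖f x‖ ^ 2) = A at h1 h4 hn1 ⊢
    generalize (∫ x, ‖f x‖ ^ 4) = Q at h1 hn2 ⊢
    generalize (∑ i, ∫ x, ‖pd i f x‖ ^ 2) = S at h1 h4 hn3 ⊢
    calc Q ^ 2 ≤ (C * A * S) ^ 2 := pow_le_pow_left₀ hn2 h1 2
      _ = (C ^ 2 * A * S ^ 2) * A := by ring
      _ ≤ (C ^ 2 * A * S ^ 2) * ((2 * R) ^ 2 * S) := mul_le_mul_of_nonneg_left h4 (by positivity)
      _ = _ := by ring
  · obtain ⟨C, hC, h⟩ := L6_three
    refine ⟨C, hC, fun f hf => ?_⟩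
    have h1 := h f hf.smooth hf.cpt
    have hi : ∀ n : ℕ, n ≠ 0 → Integrable fun x => ‖f x‖ ^ n := by
      intro n hn
      have : Continuous fun x => ‖f x‖ ^ n := (hf.smooth.continuous.norm).pow n
      refine this.integrable_of_hasCompactSupport ?_
      exact hf.cpt.comp_left (g := fun y : En 3 => ‖y‖ ^ n) (by simp [hn])
    have e1 : (fun x => ‖f x‖ * ‖f x‖ ^ 3) = fun x => ‖f x‖ ^ 4 := by funext x; ring
    have e2 : (fun x => (‖f x‖ ^ 3) ^ 2) = fun x => ‖f x‖ ^ 6 := by funext x; ring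
    have h2 := cs_integral (u := fun x => ‖f x‖) (v := fun x => ‖f x‖ ^ 3) (hi 2 (by norm_num))
      (by rw [e2]; exact hi 6 (by norm_num)) (by rw [e1]; exact hi 4 (by norm_num))
    rw [e1, e2] at h2
    have hn1 : 0 ≤ ∫ x, ‖f x‖ ^ 2 := integral_nonneg fun x => by positivity
    calc (∫ x, ‖f x‖ ^ 4) ^ 2 ≤ (∫ x, ‖f x‖ ^ 2) * ∫ x, ‖f x‖ ^ 6 := h2
      _ ≤ (∫ x, ‖f x‖ ^ 2) * (C * (∑ i, ∫ x, ‖pd i f x‖ ^ 2) ^ 3) := by gcongr
      _ = _ := by ring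

end

end Pool.Agent.Lib.MP_79abb3_an.W
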