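import Mathlib
import Pool.Agent.Lib.MP_79abb3_an.W.Mol1
import Pool.Agent.Lib.MP_79abb3_an.W.SpE1
import Pool.Agent.Lib.MP_79abb3_an.W.SpD1
import Pool.Agent.Lib.MP_79abb3_an.W.BN1
import Pool.Agent.Lib.MP_79abb3_an.W.BX0
import Pool.Agent.Lib.MP_79abb3_an.W.Mb3
import Pool.Agent.Lib.MP_79abb3_an.W.DYb
import Pool.Agent.Lib.MP_79abb3_an.W.BDc
import Pool.Agent.Lib.MP_79abb3_an.W.DH0
import Pool.Agent.Lib.MP_79abb3_an.W.DH2
import Pool.Agent.Lib.MP_79abb3_an.W.DEa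

section

/-!
Theorem W, block DY (approximation hypotheses `yS`, `ys` of block DE), part a: the minimiser of
`|W - ι y|² + ρ² |y|²`, `ρ = r²`. One competitor `y'` with `|W - ι y'| ≤ r N`, `|y'| ≤ N / r` gives the three bounds.
-/

set_option autoImplicit false
set_option linter.unusedSectionVars false

open MeasureTheory Set Filter Topology Function
open scoped ENNReal RealInnerProductSpace

namespace Pool.Agent.Lib.MP_79abb3_an.W

section
variable {V H : Type} [NormedAddCommGroup V] [InnerProductSpace ℝ V] [CompleteSpace V]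
  [NormedAddCommGroup H] [InnerProductSpace ℝ H] [CompleteSpace H]

/-- (Lax-Milgram for the form `⟪ι y, ι e⟫ + ρ² ⟪y, e⟫`) -/
theorem dy_res (ι : V →L[ℝ] H) {ρ : ℝ} (hρ : 0 < ρ) (W : H) :
    ∃ y : V, ∀ e : V, ⟪W - ι y, ι e⟫ = ρ ^ 2 * ⟪y, e⟫ := by
  set B : V →L[ℝ] V →L[ℝ] ℝ := ((innerSL ℝ : H →L[ℝ] H →L[ℝ] ℝ).bilinearComp ι ι) +
    (ρ ^ 2) • (innerSL ℝ : V →L[ℝ] V →L[ℝ] ℝ) with hB
  have hBa : ∀ u v : V, B u v = ⟪ι u, ι v⟫ + ρ ^ 2 * ⟪u, v⟫ := fun _ _ => rfl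
  have hco : IsCoercive B := by
    refine ⟨ρ ^ 2, by positivity, fun u => ?_⟩
    rw [hBa, real_inner_self_eq_norm_sq, real_inner_self_eq_norm_sq]
    nlinarith [sq_nonneg ‖ι u‖]
  set L : V →L[ℝ] ℝ := (innerSL ℝ W).comp ι with hL
  set w : V := (InnerProductSpace.toDual ℝ V).symm L with hw
  refine ⟨hco.continuousLinearEquivOfBilin.symm w, fun e => ?_⟩
  set y := hco.continuousLinearEquivOfBilin.symm w with hy
  have h1 : ⟪hco.continuousLinearEquivOfBilin y, e⟫ = B y e := hco.continuousLinearEquivOfBilin_apply y e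
  rw [hy, ContinuousLinearEquiv.apply_symm_apply] at h1
  have h2 : ⟪w, e⟫ = L e := by
    rw [hw, InnerProductSpace.toDual_symm_apply]
  rw [h2] at h1
  have h3 : L e = ⟪W, ι e⟫ := by simp [hL]
  rw [h3, hBa] at h1
  rw [inner_sub_left, h1]
  ring

theorem dy_min (ι : V →L[ℝ] H) {r N : ℝ} (hr : 0 < r) (W : H) {y' : V} (h1 : ‖W - ι y'‖ ≤ r * N)
    (h2 : ‖y'‖ ≤ r⁻¹ * N) :
    ∃ y : V, ‖W - ι y‖ ≤ 2 * (r * N) ∧ ‖y‖ ≤ 2 * (r⁻¹ * N) ∧
      ∀ e : V, |⟪ι e, W - ι y⟫| ≤ 2 * (r ^ 3 * N) * ‖e‖ := by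
  have hN : 0 ≤ r * N := (norm_nonneg _).trans h1
  have hN0 : 0 ≤ N := by
    by_contra h
    push Not at h
    nlinarith
  obtain ⟨y, hy⟩ := dy_res ι (ρ := r ^ 2) (by positivity) W
  have hmin : ‖W - ι y‖ ^ 2 + (r ^ 2) ^ 2 * ‖y‖ ^ 2 ≤ ‖W - ι y'‖ ^ 2 + (r ^ 2) ^ 2 * ‖y'‖ ^ 2 := by
    have e1 : W - ι y' = (W - ι y) + ι (y - y') := by rw [map_sub]; abel
    have e2 : y' = y - (y - y') := by abel
    have h3 : ‖W - ι y'‖ ^ 2 = ‖W - ι y‖ ^ 2 + 2 * ⟪W - ι y, ι (y - y')⟫ + ‖ι (y - y')‖ ^ 2 := by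
      rw [e1]; exact norm_add_sq_real _ _
    have h4 : ‖y'‖ ^ 2 = ‖y‖ ^ 2 - 2 * ⟪y, y - y'⟫ + ‖y - y'‖ ^ 2 := by
      conv_lhs => rw [e2]
      exact norm_sub_sq_real _ _
    rw [h3, h4, hy]
    nlinarith [sq_nonneg ‖ι (y - y')‖, sq_nonneg ((r ^ 2) * ‖y - y'‖)]
  have hr1 : r * r⁻¹ = 1 := mul_inv_cancel₀ hr.ne'
  have hb : ‖W - ι y'‖ ^ 2 + (r ^ 2) ^ 2 * ‖y'‖ ^ 2 ≤ 2 * (r * N) ^ 2 := by
    have h5 : ‖W - ι y'‖ ^ 2 ≤ (r * N) ^ 2 := pow_le_pow_left₀ (norm_nonneg _) h1 2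
    have h6 : ‖y'‖ ^ 2 ≤ (r⁻¹ * N) ^ 2 := pow_le_pow_left₀ (norm_nonneg _) h2 2
    have h7 : (r ^ 2) ^ 2 * ‖y'‖ ^ 2 ≤ (r ^ 2) ^ 2 * (r⁻¹ * N) ^ 2 := mul_le_mul_of_nonneg_left h6 (by positivity)
    have h8 : (r ^ 2) ^ 2 * (r⁻¹ * N) ^ 2 = (r * N) ^ 2 * (r * r⁻¹) ^ 2 := by ring
    rw [h8, hr1, one_pow, mul_one] at h7
    linarith
  have hA : ‖W - ι y‖ ≤ 2 * (r * N) := by
    refine abs_le_of_sq_le_sq' ?_ (by positivity) |>.2
    nlinarith [sq_nonneg ((r ^ 2) * ‖y‖), sq_nonneg (r * N)]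
  have hB : r ^ 2 * ‖y‖ ≤ 2 * (r * N) := by
    refine abs_le_of_sq_le_sq' ?_ (by positivity) |>.2
    nlinarith [sq_nonneg ‖W - ι y‖, sq_nonneg (r * N)]
  have hC : ‖y‖ ≤ 2 * (r⁻¹ * N) := by
    have h9 : ‖y‖ = (r⁻¹) ^ 2 * (r ^ 2 * ‖y‖) := by
      have : (r⁻¹) ^ 2 * (r ^ 2 * ‖y‖) = (r * r⁻¹) ^ 2 * ‖y‖ := by ring
      rw [this, hr1, one_pow, one_mul]
    rw [h9]
    refine (mul_le_mul_of_nonneg_left hB (by positivity)).trans (le_of_eq ?_)
    have : (r⁻¹) ^ 2 * (2 * (r * N)) = 2 * (r⁻¹ * N) * (r * r⁻¹) := by ring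
    rw [this, hr1, mul_one]
  refine ⟨y, hA, hC, fun e => ?_⟩
  rw [real_inner_comm, hy e, abs_mul, abs_of_pos (by positivity : (0 : ℝ) < (r ^ 2) ^ 2)]
  have h10 : |⟪y, e⟫| ≤ ‖y‖ * ‖e‖ := abs_real_inner_le_norm y e
  calc (r ^ 2) ^ 2 * |⟪y, e⟫| ≤ (r ^ 2) ^ 2 * (‖y‖ * ‖e‖) := mul_le_mul_of_nonneg_left h10 (by positivity)
    _ = r ^ 2 * (r ^ 2 * ‖y‖) * ‖e‖ := by ring
    _ ≤ r ^ 2 * (2 * (r * N)) * ‖e‖ := by gcongr
    _ = 2 * (r ^ 3 * N) * ‖e‖ := by ring

end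

end Pool.Agent.Lib.MP_79abb3_an.W
end

section

/-!
Theorem W, block DY, part g: mollification of a smooth field with rates.
-/

set_option autoImplicit false
set_option linter.unusedSectionVars false

open MeasureTheory Set Filter Topology Function
open scoped ENNReal RealInnerProductSpace

namespace Pool.Agent.Lib.MP_79abb3_an.W

section
variable {d : ℕ}

/-- Cauchy-Schwarz with a weight: `‖∫ k h‖² ≤ ∫ |k| ∫ |k| ‖h‖²` -/
theorem dy_cs_weight {k : En d → ℝ} (hk : Continuous k) (hkc : HasCompactSupport k) {g : En d → En d}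
    (hg : Continuous g) : ‖∫ y, k y • g y‖ ^ 2 ≤ (∫ y, |k y|) * ∫ y, |k y| * ‖g y‖ ^ 2 := by
  have ha : HasCompactSupport fun y => |k y| := hkc.comp_left (g := fun t : ℝ => |t|) abs_zero
  have i1 : Integrable fun y => |k y| := hk.abs.integrable_of_hasCompactSupport ha
  have i2 : Integrable fun y => |k y| * ‖g y‖ ^ 2 :=
    (hk.abs.mul (hg.norm.pow 2)).integrable_of_hasCompactSupport ha.mul_right
  have i3 : Integrable fun y => |k y| * ‖g y‖ := (hk.abs.mul hg.norm).integrable_of_hasCompactSupport ha.mul_right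
  have e1 : ∀ y, Real.sqrt |k y| ^ 2 = |k y| := fun y => Real.sq_sqrt (abs_nonneg _)
  have e2 : ∀ y, (Real.sqrt |k y| * ‖g y‖) ^ 2 = |k y| * ‖g y‖ ^ 2 := fun y => by rw [mul_pow, e1]
  have e3 : ∀ y, Real.sqrt |k y| * (Real.sqrt |k y| * ‖g y‖) = |k y| * ‖g y‖ := fun y => by
    rw [← mul_assoc, Real.mul_self_sqrt (abs_nonneg _)]
  have h1 := cs_integral (u := fun y => Real.sqrt |k y|) (v := fun y => Real.sqrt |k y| * ‖g y‖)
    (by simpa only [e1] using i1) (by simpa only [e2] using i2) (by simpa only [e3] using i3)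
  simp only [e1, e2, e3] at h1
  refine le_trans (pow_le_pow_left₀ (norm_nonneg _) ?_ 2) h1
  refine (norm_integral_le_integral_norm _).trans (le_of_eq ?_)
  refine integral_congr_ae (Eventually.of_forall fun y => ?_)
  show ‖k y • g y‖ = |k y| * ‖g y‖
  rw [norm_smul, Real.norm_eq_abs]

private theorem dy_bmp_scale (n : ℕ) (x : En d) : bmp d n x = bmp d 0 (((n : ℝ) + 1) • x) := by
  have hn : ((n : ℝ) + 1) ≠ 0 := by positivity
  rw [ContDiffBump.apply, ContDiffBump.apply]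
  have e1 : (bmp d n).rOut / (bmp d n).rIn = (bmp d 0).rOut / (bmp d 0).rIn := by
    show (1 / ((n : ℝ) + 1)) / ((1 / ((n : ℝ) + 1)) / 2) = (1 / (((0 : ℕ) : ℝ) + 1)) / ((1 / (((0 : ℕ) : ℝ) + 1)) / 2)
    rw [Nat.cast_zero]
    field_simp
  have e2 : ((bmp d n).rIn⁻¹ • (x - 0)) = ((bmp d 0).rIn⁻¹ • (((n : ℝ) + 1) • x - 0)) := by
    rw [sub_zero, sub_zero, smul_smul]
    congr 1
    show ((1 / ((n : ℝ) + 1)) / 2)⁻¹ = ((1 / (((0 : ℕ) : ℝ) + 1)) / 2)⁻¹ * ((n : ℝ) + 1)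
    rw [Nat.cast_zero]
    field_simp
    norm_num
  rw [e1, e2]

/-- scaling: `ρ_n(x) = (n+1)^d ρ_0((n+1) x)` (`ContDiffBump` is defined by scaling of a base function) -/
theorem dy_rho_scale (n : ℕ) (x : En d) : rho n x = ((n : ℝ) + 1) ^ d * rho 0 (((n : ℝ) + 1) • x) := by
  have hn : (0 : ℝ) < (n : ℝ) + 1 := by positivity
  have e1 : ∫ y, bmp d n y = (((n : ℝ) + 1) ^ d)⁻¹ * ∫ y, bmp d 0 y := by
    simp only [dy_bmp_scale n]
    rw [Measure.integral_comp_smul, finrank_euclideanSpace_fin, abs_of_nonneg (by positivity), smul_eq_mul]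
  have hI : 0 < ∫ y, bmp d 0 y := (bmp d 0).integral_pos
  show (bmp d n).normed volume x = ((n : ℝ) + 1) ^ d * (bmp d 0).normed volume (((n : ℝ) + 1) • x)
  rw [ContDiffBump.normed_def, ContDiffBump.normed_def, e1, dy_bmp_scale n x]
  have h2 : ((n : ℝ) + 1) ^ d ≠ 0 := by positivity
  field_simp

theorem dy_rho_pd (d : ℕ) : ∃ C : ℝ, 0 ≤ C ∧ ∀ (n : ℕ) (i : Fin d), ∫ x : En d, |pd i (rho n) x| ≤ C * ((n : ℝ) + 1) := by
  refine ⟨∑ i : Fin d, ∫ x : En d, |pd i (rho 0) x|, Finset.sum_nonneg fun i _ => integral_nonneg fun x => abs_nonneg _,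
    fun n i => ?_⟩
  have hn : (0 : ℝ) < (n : ℝ) + 1 := by positivity
  have e1 : ∀ x : En d, pd i (rho n) x = ((n : ℝ) + 1) ^ d * (((n : ℝ) + 1) * pd i (rho 0) (((n : ℝ) + 1) • x)) := by
    intro x
    have h0 : HasFDerivAt (fun x : En d => ((n : ℝ) + 1) • x) (((n : ℝ) + 1) • ContinuousLinearMap.id ℝ (En d)) x :=
      (((n : ℝ) + 1) • ContinuousLinearMap.id ℝ (En d)).hasFDerivAt
    have h1 : HasFDerivAt (rho 0 : En d → ℝ) (fderiv ℝ (rho 0) (((n : ℝ) + 1) • x)) (((n : ℝ) + 1) • x) :=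
      ((rho_smo 0).differentiable _).hasFDerivAt
    have h2 : HasFDerivAt (fun x : En d => ((n : ℝ) + 1) ^ d * rho 0 (((n : ℝ) + 1) • x))
        (((n : ℝ) + 1) ^ d • (fderiv ℝ (rho 0) (((n : ℝ) + 1) • x)).comp
          (((n : ℝ) + 1) • ContinuousLinearMap.id ℝ (En d))) x := (h1.comp x h0).const_mul _
    have h3 : (rho n : En d → ℝ) = fun x => ((n : ℝ) + 1) ^ d * rho 0 (((n : ℝ) + 1) • x) :=
      funext fun x => dy_rho_scale n x
    show fderiv ℝ (rho n) x (ei i) = _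
    rw [h3, h2.fderiv]
    simp [pd]
  have e2 : ∀ x : En d, |pd i (rho n) x| = ((n : ℝ) + 1) ^ d * ((n : ℝ) + 1) * |pd i (rho 0) (((n : ℝ) + 1) • x)| := by
    intro x
    rw [e1, ← mul_assoc, abs_mul, abs_of_pos (by positivity : (0 : ℝ) < ((n : ℝ) + 1) ^ d * ((n : ℝ) + 1))]
  simp only [e2]
  rw [integral_const_mul, Measure.integral_comp_smul volume (fun x : En d => |pd i (rho 0) x|),
    finrank_euclideanSpace_fin, abs_of_nonneg (by positivity), smul_eq_mul]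
  have h4 : ∫ x : En d, |pd i (rho 0) x| ≤ ∑ i : Fin d, ∫ x : En d, |pd i (rho 0) x| :=
    Finset.single_le_sum (f := fun i : Fin d => ∫ x : En d, |pd i (rho 0) x|)
      (fun i _ => integral_nonneg fun x => abs_nonneg _) (Finset.mem_univ i)
  have h5 : ((n : ℝ) + 1) ^ d * ((n : ℝ) + 1) * ((((n : ℝ) + 1) ^ d)⁻¹ * ∫ x : En d, |pd i (rho 0) x|) =
      (∫ x : En d, |pd i (rho 0) x|) * ((n : ℝ) + 1) := by
    field_simp
  rw [h5]
  exact mul_le_mul_of_nonneg_right h4 hn.le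

end

end Pool.Agent.Lib.MP_79abb3_an.W
end

section

/-!
Theorem W, block DY, part g2: Young inequality.
-/

set_option autoImplicit false
set_option linter.unusedSectionVars false

open MeasureTheory Set Filter Topology Function
open scoped ENNReal RealInnerProductSpace

namespace Pool.Agent.Lib.MP_79abb3_an.W

section
variable {d : ℕ}

/-- Young's inequality `|k * g|₂ ≤ |k|₁ |g|₂` (`(∫ |k(y)| |g(x-y)|)² ≤ |k|₁ ∫ |k(y)| |g(x-y)|²`, Fubini) -/
theorem dy_young {k : En d → ℝ} (hk : Continuous k) (hkc : HasCompactSupport k) {g : En d → En d} (hg : Continuous g)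
    (hgc : HasCompactSupport g) : ∫ x, ‖∫ y, k y • g (x - y)‖ ^ 2 ≤ (∫ y, |k y|) ^ 2 * ∫ x, ‖g x‖ ^ 2 := by
  have ha : HasCompactSupport fun y => |k y| := hkc.comp_left (g := fun t : ℝ => |t|) abs_zero
  have hg2 : HasCompactSupport fun x => ‖g x‖ ^ 2 := hgc.comp_left (g := fun v : En d => ‖v‖ ^ 2) (by simp)
  have hF : Continuous (uncurry fun x y : En d => |k y| * ‖g (x - y)‖ ^ 2) := by
    show Continuous fun q : En d × En d => |k q.2| * ‖g (q.1 - q.2)‖ ^ 2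
    exact (hk.comp continuous_snd).abs.mul ((hg.comp (continuous_fst.sub continuous_snd)).norm.pow 2)
  have hFc : HasCompactSupport (uncurry fun x y : En d => |k y| * ‖g (x - y)‖ ^ 2) := by
    have hK : IsCompact ((fun q : En d × En d => (q.1 + q.2, q.2)) '' (tsupport g ×ˢ tsupport k)) :=
      (hgc.isCompact.prod hkc.isCompact).image ((continuous_fst.add continuous_snd).prodMk continuous_snd)
    refine HasCompactSupport.intro hK ?_
    rintro ⟨x, y⟩ hxy
    show |k y| * ‖g (x - y)‖ ^ 2 = 0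
    by_contra h1
    apply hxy
    refine ⟨(x - y, y), ⟨subset_tsupport _ fun h2 => h1 ?_, subset_tsupport _ fun h2 => h1 ?_⟩, ?_⟩
    · have h3 : g (x - y) = 0 := h2
      rw [h3]
      simp
    · have h3 : k y = 0 := h2
      rw [h3]
      simp
    · show (x - y + y, y) = (x, y)
      rw [sub_add_cancel]
  have hFi : Integrable (uncurry fun x y : En d => |k y| * ‖g (x - y)‖ ^ 2) (volume.prod volume) :=
    hF.integrable_of_hasCompactSupport hFc
  have hswap := integral_integral_swap hFi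
  have h1 : ∀ y : En d, ∫ x, |k y| * ‖g (x - y)‖ ^ 2 = |k y| * ∫ x, ‖g x‖ ^ 2 := by
    intro y
    rw [integral_const_mul]
    congr 1
    exact integral_sub_right_eq_self (fun x => ‖g x‖ ^ 2) y
  have h2 : ∫ x, ∫ y, |k y| * ‖g (x - y)‖ ^ 2 = (∫ y, |k y|) * ∫ x, ‖g x‖ ^ 2 := by
    rw [hswap]
    simp only [h1]
    rw [integral_mul_const]
  have hpt : ∀ x, ‖∫ y, k y • g (x - y)‖ ^ 2 ≤ (∫ y, |k y|) * ∫ y, |k y| * ‖g (x - y)‖ ^ 2 := fun x =>
    dy_cs_weight hk hkc (hg.comp (continuous_const.sub continuous_id))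
  calc ∫ x, ‖∫ y, k y • g (x - y)‖ ^ 2 ≤ ∫ x, (∫ y, |k y|) * ∫ y, |k y| * ‖g (x - y)‖ ^ 2 := by
        refine integral_mono_of_nonneg (Eventually.of_forall fun x => by positivity) ?_ (Eventually.of_forall hpt)
        exact hFi.integral_prod_left.const_mul _
    _ = (∫ y, |k y|) ^ 2 * ∫ x, ‖g x‖ ^ 2 := by
        rw [integral_const_mul, h2]
        ring

end

end Pool.Agent.Lib.MP_79abb3_an.W
end

section

/-!
Theorem W, block DY, part g3: the mollified field: derivative on the kernel, rate of convergence.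
-/

set_option autoImplicit false
set_option linter.unusedSectionVars false

open MeasureTheory Set Filter Topology Function
open scoped ENNReal RealInnerProductSpace

namespace Pool.Agent.Lib.MP_79abb3_an.W

section
variable {d : ℕ}

/-- the derivative on the kernel (`mo_eq` or `HasCompactSupport.hasFDerivAt_convolution_left`) -/
theorem dy_mo_pd (n : ℕ) {g : En d → En d} (hg : Smo g) (hgc : HasCompactSupport g) (i : Fin d) (x : En d) :
    pd i (mo n g) x = ∫ y, pd i (rho n) y • g (x - y) := by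
  have hf : LocallyIntegrable g := hg.continuous.locallyIntegrable
  have h1 : HasFDerivAt (mo n g) (convolution (fderiv ℝ (rho n)) g
      ((ContinuousLinearMap.lsmul ℝ ℝ).precompL (En d)) volume x) x := by
    rw [mo_conv]
    exact (rho_hcs n).hasFDerivAt_convolution_left _ ((rho_smo n).of_le (by exact_mod_cast le_top)) hf x
  have hfd : Continuous (fderiv ℝ (rho n : En d → ℝ)) :=
    (ContDiff.fderiv_right (m := 0) (rho_smo n) (by norm_num)).continuous
  have h2 : ConvolutionExistsAt (fderiv ℝ (rho n)) g x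
      ((ContinuousLinearMap.lsmul ℝ ℝ).precompL (En d)) (volume : Measure (En d)) :=
    ((rho_hcs n).fderiv ℝ).convolutionExists_left _ hfd hf x
  show fderiv ℝ (mo n g) x (ei i) = _
  rw [h1.fderiv, convolution_def, ContinuousLinearMap.integral_apply h2]
  rfl

/-- `|ρ_n * φ - φ|₂ ≤ |∇φ|₂ / (n+1)` (Jensen for the probability density `ρ_n`, `transl`) -/
theorem dy_mo_near (n : ℕ) {φ : En d → En d} (hφ : Smo φ) (hc : HasCompactSupport φ) :
    ∫ x, ‖mo n φ x - φ x‖ ^ 2 ≤ (1 / ((n : ℝ) + 1)) ^ 2 * ∑ i, ∫ x, ‖pd i φ x‖ ^ 2 := by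
  have hφc := hφ.continuous
  set E : ℝ := ∑ i, ∫ x, ‖pd i φ x‖ ^ 2 with hE
  have hE0 : 0 ≤ E := Finset.sum_nonneg fun i _ => integral_nonneg fun x => by positivity
  have hr := (rho_smo n : Smo (rho n : En d → ℝ)).continuous
  have hri : Integrable (rho n : En d → ℝ) := hr.integrable_of_hasCompactSupport (rho_hcs n)
  have habs : ∀ y : En d, |rho n y| = rho n y := fun y => abs_of_nonneg (rho_nonneg n y)
  have hm : ∀ x, mo n φ x - φ x = ∫ y, rho n y • (φ (x - y) - φ x) := by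
    intro x
    have i1 : Integrable fun y => rho n y • φ (x - y) :=
      mo_integrable n hφc.locallyIntegrable x
    have i2 : Integrable fun y => rho n y • φ x := hri.smul_const (φ x)
    simp only [smul_sub]
    rw [integral_sub i1 i2, integral_smul_const, rho_int, one_smul]
    rfl
  have hpt : ∀ x, ‖mo n φ x - φ x‖ ^ 2 ≤ ∫ y, rho n y * ‖φ (x - y) - φ x‖ ^ 2 := by
    intro x
    have h1 := dy_cs_weight (k := (rho n : En d → ℝ)) hr (rho_hcs n) (g := fun y => φ (x - y) - φ x)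
      ((hφc.comp (continuous_const.sub continuous_id)).sub continuous_const)
    simp only [habs, rho_int, one_mul] at h1
    rw [hm]
    exact h1
  have hF : Continuous (uncurry fun x y : En d => rho n y * ‖φ (x - y) - φ x‖ ^ 2) := by
    show Continuous fun q : En d × En d => rho n q.2 * ‖φ (q.1 - q.2) - φ q.1‖ ^ 2
    exact (hr.comp continuous_snd).mul
      (((hφc.comp (continuous_fst.sub continuous_snd)).sub (hφc.comp continuous_fst)).norm.pow 2)
  have hFc : HasCompactSupport (uncurry fun x y : En d => rho n y * ‖φ (x - y) - φ x‖ ^ 2) := by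
    obtain ⟨R, hR⟩ := hc.isCompact.isBounded.subset_closedBall 0
    have hz : ∀ v : En d, R < ‖v‖ → φ v = 0 := by
      intro v hv
      by_contra h1
      have := hR (subset_tsupport φ h1)
      rw [mem_closedBall_zero_iff] at this
      linarith
    refine HasCompactSupport.intro
      ((isCompact_closedBall (0 : En d) (R + 1 / ((n : ℝ) + 1))).prod
        (isCompact_closedBall (0 : En d) (1 / ((n : ℝ) + 1)))) ?_
    rintro ⟨x, y⟩ hxy
    show rho n y * ‖φ (x - y) - φ x‖ ^ 2 = 0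
    by_cases hy : 1 / ((n : ℝ) + 1) < ‖y‖
    · rw [rho_zero n hy, zero_mul]
    · have hx : R + 1 / ((n : ℝ) + 1) < ‖x‖ := by
        by_contra h1
        exact hxy ⟨mem_closedBall_zero_iff.2 (not_lt.1 h1), mem_closedBall_zero_iff.2 (not_lt.1 hy)⟩
      have h2 : ‖x‖ ≤ ‖x - y‖ + ‖y‖ := by
        have := norm_add_le (x - y) y
        rwa [sub_add_cancel] at this
      have hn : (0 : ℝ) < 1 / ((n : ℝ) + 1) := by positivity
      rw [hz x (by linarith), hz (x - y) (by linarith [not_lt.1 hy]), sub_zero, norm_zero]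
      simp
  have hFi : Integrable (uncurry fun x y : En d => rho n y * ‖φ (x - y) - φ x‖ ^ 2) (volume.prod volume) :=
    hF.integrable_of_hasCompactSupport hFc
  have h1 : ∀ y : En d, ∫ x, rho n y * ‖φ (x - y) - φ x‖ ^ 2 ≤ (1 / ((n : ℝ) + 1)) ^ 2 * E * rho n y := by
    intro y
    rw [integral_const_mul]
    by_cases hy : 1 / ((n : ℝ) + 1) < ‖y‖
    · rw [rho_zero n hy, zero_mul, mul_zero]
    · have h2 := transl hφ hc (-y)
      rw [norm_neg] at h2
      simp only [← sub_eq_add_neg] at h2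
      have h3 : ‖y‖ ^ 2 ≤ (1 / ((n : ℝ) + 1)) ^ 2 := pow_le_pow_left₀ (norm_nonneg _) (not_lt.1 hy) 2
      have h4 : ∫ x, ‖φ (x - y) - φ x‖ ^ 2 ≤ (1 / ((n : ℝ) + 1)) ^ 2 * E :=
        h2.trans (mul_le_mul_of_nonneg_right h3 hE0)
      nlinarith [rho_nonneg n y, mul_le_mul_of_nonneg_left h4 (rho_nonneg n y)]
  calc ∫ x, ‖mo n φ x - φ x‖ ^ 2 ≤ ∫ x, ∫ y, rho n y * ‖φ (x - y) - φ x‖ ^ 2 := by
        refine integral_mono_of_nonneg (Eventually.of_forall fun x => by positivity) ?_ (Eventually.of_forall hpt)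
        exact hFi.integral_prod_left
    _ = ∫ y, ∫ x, rho n y * ‖φ (x - y) - φ x‖ ^ 2 := integral_integral_swap hFi
    _ ≤ ∫ y, (1 / ((n : ℝ) + 1)) ^ 2 * E * rho n y := by
        refine integral_mono_of_nonneg (Eventually.of_forall fun y => ?_) (hri.const_mul _) (Eventually.of_forall h1)
        exact integral_nonneg fun x => mul_nonneg (rho_nonneg n y) (by positivity)
    _ = (1 / ((n : ℝ) + 1)) ^ 2 * E := by rw [integral_const_mul, rho_int, mul_one]

end

end Pool.Agent.Lib.MP_79abb3_an.W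
end

section

/-!
Theorem W, block DY, part g4: mollification at scale `ρ`.
-/

set_option autoImplicit false
set_option linter.unusedSectionVars false

open MeasureTheory Set Filter Topology Function
open scoped ENNReal RealInnerProductSpace

namespace Pool.Agent.Lib.MP_79abb3_an.W

section
variable {d : ℕ}

/-- **Mollification at scale `ρ`.** (`w = mo n φ`, `n = ⌊1/ρ⌋`; `mo_pd_smo`, `mo_Lp`) -/
theorem dy_moll (d : ℕ) : ∃ C : ℝ, 0 ≤ C ∧ ∀ φ : En d → En d, Smo φ → HasCompactSupport φ → ∀ ρ : ℝ, 0 < ρ → ρ ≤ 1 →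
    ∃ w : En d → En d, Smo w ∧ HasCompactSupport w ∧ ∫ x, ‖w x - φ x‖ ^ 2 ≤ ρ ^ 2 * ∑ i, ∫ x, ‖pd i φ x‖ ^ 2 ∧
      ∫ x, ‖w x‖ ^ 2 ≤ ∫ x, ‖φ x‖ ^ 2 ∧ (∀ i, ∫ x, ‖pd i w x‖ ^ 2 ≤ ∫ x, ‖pd i φ x‖ ^ 2) ∧
      ∀ i j, ∫ x, ‖pd i (pd j w) x‖ ^ 2 ≤ (C / ρ) ^ 2 * ∫ x, ‖pd j φ x‖ ^ 2 := by
  obtain ⟨C, hC, hCr⟩ := dy_rho_pd d
  refine ⟨2 * C, by positivity, fun φ hφ hc ρ hρ hρ1 => ?_⟩
  set n : ℕ := ⌊1 / ρ⌋₊ with hn
  have hn1 : 1 / ρ < (n : ℝ) + 1 := Nat.lt_floor_add_one _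
  have hn2 : (n : ℝ) ≤ 1 / ρ := Nat.floor_le (by positivity)
  have hn3 : 1 / ((n : ℝ) + 1) ≤ ρ := by
    rw [div_le_iff₀ (by positivity)]
    rw [div_lt_iff₀ hρ] at hn1
    linarith
  have hn4 : (n : ℝ) + 1 ≤ 2 / ρ := by
    have h1 : 1 ≤ 1 / ρ := by rw [le_div_iff₀ hρ]; linarith
    have h2 : 2 / ρ = 1 / ρ + 1 / ρ := by ring
    linarith
  have habs : ∫ y : En d, |rho n y| = 1 := by
    have h1 : ∀ y : En d, |rho n y| = rho n y := fun y => abs_of_nonneg (rho_nonneg n y)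
    simp only [h1]
    exact rho_int n
  have hy : ∀ g : En d → En d, Smo g → HasCompactSupport g → ∫ x, ‖mo n g x‖ ^ 2 ≤ ∫ x, ‖g x‖ ^ 2 := by
    intro g hg hgc
    have h1 := dy_young (rho_smo n : Smo (rho n : En d → ℝ)).continuous (rho_hcs n) hg.continuous hgc
    rw [habs, one_pow, one_mul] at h1
    exact h1
  have hE0 : 0 ≤ ∑ i, ∫ x, ‖pd i φ x‖ ^ 2 :=
    Finset.sum_nonneg fun i _ => integral_nonneg fun x => by positivity
  refine ⟨mo n φ, mo_smo n hφ.continuous.locallyIntegrable, ?_, ?_, hy φ hφ hc, fun i => ?_, fun i j => ?_⟩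
  · exact mo_cpt n (K := tsupport φ) (Eventually.of_forall fun x hx => image_eq_zero_of_notMem_tsupport hx)
      hc.isCompact.isBounded
  · refine (dy_mo_near n hφ hc).trans (mul_le_mul_of_nonneg_right ?_ hE0)
    exact pow_le_pow_left₀ (by positivity) hn3 2
  · rw [mo_pd_smo n hφ i]
    exact hy _ (hφ.pd i) (hcs_pd hc i)
  · rw [mo_pd_smo n hφ j]
    simp only [dy_mo_pd n (hφ.pd j) (hcs_pd hc j) i]
    refine (dy_young ((rho_smo n).pd i).continuous (hcs_pd (rho_hcs n) i) (hφ.pd j).continuous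
      (hcs_pd hc j)).trans (mul_le_mul_of_nonneg_right ?_ (integral_nonneg fun x => by positivity))
    refine pow_le_pow_left₀ (integral_nonneg fun y => abs_nonneg _) ((hCr n i).trans ?_) 2
    calc C * ((n : ℝ) + 1) ≤ C * (2 / ρ) := mul_le_mul_of_nonneg_left hn4 hC
      _ = 2 * C / ρ := by ring

end

end Pool.Agent.Lib.MP_79abb3_an.W
end

section

/-!
Theorem W, block DY, part c: the energy in a layer at the wall.
-/

set_option autoImplicit false
set_option linter.unusedSectionVars false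

open MeasureTheory Set Filter Topology Function
open scoped ENNReal RealInnerProductSpace

namespace Pool.Agent.Lib.MP_79abb3_an.W

section
variable {d : ℕ} {D : Set (En d)} {z : En d → ℝ} {δ : ℝ}

/-- Gauss' theorem (`B.Dom.gauss`) for fields of class `BD`. -/
theorem dy_gauss (h : Dom D z δ) {X : En d → En d} (hX : BD D X) (hn : Oz D z (fun x => ⟪gradient z x, X x⟫)) :
    ∫ x in D, dv X x = 0 := by
  obtain ⟨C0, h0⟩ := hX.2 0
  obtain ⟨C1, h1⟩ := hX.2 1
  refine h.toB.gauss (M := max C0 C1) (hX.1.of_le (by norm_cast)) (fun x hx => ?_) (fun x hx => ?_) hn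
  · have := h0 x hx
    rw [norm_iteratedFDeriv_zero] at this
    exact this.trans (le_max_left _ _)
  · have := h1 x hx
    rw [norm_iteratedFDeriv_one] at this
    exact this.trans (le_max_right _ _)

/-- `dv (a Y) = ⟪∇a, Y⟫ + a dv Y` in `D` -/
theorem dy_dv_smul (hD : IsOpen D) {a : En d → ℝ} {Y : En d → En d} (ha : BD D a) (hY : BD D Y) {x : En d}
    (hx : x ∈ D) : dv (fun x => a x • Y x) x = ⟪gd a x, Y x⟫ + a x * dv Y x := by
  have hda : DifferentiableAt ℝ a x :=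
    (ha.1.contDiffAt (hD.mem_nhds hx)).differentiableAt (by norm_num)
  have hdY : DifferentiableAt ℝ Y x :=
    (hY.1.contDiffAt (hD.mem_nhds hx)).differentiableAt (by norm_num)
  have hpd : ∀ i, pd i (fun x => a x • Y x) x = a x • pd i Y x + pd i a x • Y x := by
    intro i
    have h2 : fderiv ℝ (fun x => a x • Y x) x = a x • fderiv ℝ Y x + (fderiv ℝ a x).smulRight (Y x) :=
      fderiv_fun_smul hda hdY
    simp only [pd, h2, ContinuousLinearMap.add_apply, ContinuousLinearMap.smul_apply,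
      ContinuousLinearMap.smulRight_apply]
  have hin : ⟪gd a x, Y x⟫ = ∑ i, pd i a x * Y x i := by
    rw [PiLp.inner_apply]
    refine Finset.sum_congr rfl fun i _ => ?_
    simp [gd, mul_comm]
  rw [hin, dv, dv, Finset.mul_sum, ← Finset.sum_add_distrib]
  refine Finset.sum_congr rfl fun i _ => ?_
  rw [hpd i]
  simp only [PiLp.add_apply, PiLp.smul_apply, smul_eq_mul]
  ring

end

end Pool.Agent.Lib.MP_79abb3_an.W
end

section

/-!
Theorem W, block DY, part h2: energies of smooth fields with compact support.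
-/

set_option autoImplicit false
set_option linter.unusedSectionVars false
set_option maxSynthPendingDepth 3

open MeasureTheory Set Filter Topology Function
open scoped ENNReal RealInnerProductSpace

namespace Pool.Agent.Lib.MP_79abb3_an.W

section
variable {d : ℕ} {D : Set (En d)} {z : En d → ℝ} {δ : ℝ}

private theorem dyh2_op {F : Type} [NormedAddCommGroup F] [NormedSpace ℝ F] (L : En d →L[ℝ] F) :
    ‖L‖ ^ 2 ≤ ∑ i, ‖L (ei i)‖ ^ 2 := by
  have hS : 0 ≤ ∑ i, ‖L (ei i)‖ ^ 2 := Finset.sum_nonneg fun i _ => sq_nonneg _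
  have h1 : ‖L‖ ≤ Real.sqrt (∑ i, ‖L (ei i)‖ ^ 2) := by
    refine ContinuousLinearMap.opNorm_le_bound _ (Real.sqrt_nonneg _) fun y => ?_
    have e : L y = ∑ i, y i • L (ei i) := by
      have e1 : y = ∑ i, y i • (ei i : En d) := by
        ext j
        simp [ei, Pi.single_apply]
      conv_lhs => rw [e1]
      rw [map_sum]
      exact Finset.sum_congr rfl fun i _ => map_smul _ _ _
    rw [e]
    have h2 : ‖∑ i, y i • L (ei i)‖ ≤ ∑ i, |y i| * ‖L (ei i)‖ := by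
      refine (norm_sum_le _ _).trans (Finset.sum_le_sum fun i _ => ?_)
      rw [norm_smul, Real.norm_eq_abs]
    have h3 : (∑ i, |y i| * ‖L (ei i)‖) ^ 2 ≤ (∑ i, |y i| ^ 2) * ∑ i, ‖L (ei i)‖ ^ 2 :=
      Finset.sum_mul_sq_le_sq_mul_sq _ _ _
    have h4 : ‖y‖ ^ 2 = ∑ i, |y i| ^ 2 := by
      rw [EuclideanSpace.norm_sq_eq]
      simp [Real.norm_eq_abs]
    refine h2.trans ?_
    have hn : 0 ≤ ∑ i, |y i| * ‖L (ei i)‖ :=
      Finset.sum_nonneg fun i _ => mul_nonneg (abs_nonneg _) (norm_nonneg _)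
    refine (sq_le_sq₀ hn (mul_nonneg (Real.sqrt_nonneg _) (norm_nonneg _))).1 ?_
    rw [mul_pow, Real.sq_sqrt hS, h4, mul_comm]
    exact h3
  calc ‖L‖ ^ 2 ≤ Real.sqrt (∑ i, ‖L (ei i)‖ ^ 2) ^ 2 := pow_le_pow_left₀ (norm_nonneg _) h1 2
    _ = _ := Real.sq_sqrt hS

private theorem dyh2_int {F : Type} [NormedAddCommGroup F] [NormedSpace ℝ F] {f : En d → F} (hf : Continuous f)
    (hc : HasCompactSupport f) : Integrable fun x => ‖f x‖ ^ 2 := by
  have h1 : Continuous fun x => ‖f x‖ ^ 2 := hf.norm.pow 2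
  have h2 : HasCompactSupport fun x => ‖f x‖ ^ 2 := hc.comp_left (g := fun y : F => ‖y‖ ^ 2) (by simp)
  exact h1.integrable_of_hasCompactSupport h2

private theorem dyh2_0 {w : En d → En d} (hw : Smo w) (hc : HasCompactSupport w) :
    ∫ x in D, ‖iteratedFDeriv ℝ 0 w x‖ ^ 2 ≤ ∫ x, ‖w x‖ ^ 2 := by
  simp only [norm_iteratedFDeriv_zero]
  exact setIntegral_le_integral (dyh2_int hw.continuous hc) (Eventually.of_forall fun x => sq_nonneg _)

private theorem dyh2_1 {w : En d → En d} (hw : Smo w) (hc : HasCompactSupport w) :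
    ∫ x in D, ‖iteratedFDeriv ℝ 1 w x‖ ^ 2 ≤ ∑ i, ∫ x, ‖pd i w x‖ ^ 2 := by
  have h1 : ∀ x, ‖iteratedFDeriv ℝ 1 w x‖ ^ 2 = ‖fderiv ℝ w x‖ ^ 2 := fun x => by
    rw [← zero_add 1, ← norm_iteratedFDeriv_fderiv, norm_iteratedFDeriv_zero]
  simp only [h1]
  have hi : ∀ i, Integrable fun x => ‖pd i w x‖ ^ 2 := fun i =>
    dyh2_int (hw.pd i).continuous (hcs_pd hc i)
  rw [← integral_finsetSum _ fun i _ => hi i]
  have hfc : Continuous (fderiv ℝ w) := hw.continuous_fderiv (by norm_num)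
  refine (setIntegral_le_integral (dyh2_int hfc (hc.fderiv ℝ)) (Eventually.of_forall fun x => sq_nonneg _)).trans ?_
  exact integral_mono (dyh2_int hfc (hc.fderiv ℝ)) (integrable_finsetSum _ fun i _ => hi i) fun x => dyh2_op _

private theorem dyh2_pd {w : En d → En d} (hw : Smo w) (i j : Fin d) (x : En d) :
    pd i (pd j w) x = fderiv ℝ (fderiv ℝ w) x (ei i) (ei j) := by
  have hf1 : Smo (fderiv ℝ w) := ContDiff.fderiv_right hw (by exact_mod_cast le_top)
  have h3 : DifferentiableAt ℝ (fderiv ℝ w) x := hf1.differentiable x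
  show fderiv ℝ (fun y => fderiv ℝ w y (ei j)) x (ei i) = _
  rw [fderiv_clm_apply h3 (differentiableAt_const _)]
  simp

private theorem dyh2_it (w : En d → En d) (x : En d) :
    ‖iteratedFDeriv ℝ 2 w x‖ = ‖fderiv ℝ (fderiv ℝ w) x‖ := by
  rw [show (2 : ℕ) = 1 + 1 from rfl, ← norm_iteratedFDeriv_fderiv]
  have h1 := norm_iteratedFDeriv_fderiv (𝕜 := ℝ) (f := fderiv ℝ w) (x := x) (n := 0)
  rw [norm_iteratedFDeriv_zero] at h1
  exact h1.symm

private theorem dyh2_pt {w : En d → En d} (hw : Smo w) (x : En d) :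
    ‖fderiv ℝ (fderiv ℝ w) x‖ ^ 2 ≤ ∑ i, ∑ j, ‖pd i (pd j w) x‖ ^ 2 := by
  refine (dyh2_op _).trans (Finset.sum_le_sum fun i _ => (dyh2_op _).trans (le_of_eq ?_))
  exact Finset.sum_congr rfl fun j _ => by rw [dyh2_pd hw]

private theorem dyh2_2 {w : En d → En d} (hw : Smo w) (hc : HasCompactSupport w) :
    ∫ x in D, ‖iteratedFDeriv ℝ 2 w x‖ ^ 2 ≤ ∑ i, ∑ j, ∫ x, ‖pd i (pd j w) x‖ ^ 2 := by
  simp only [dyh2_it]
  have hi : ∀ i j, Integrable fun x => ‖pd i (pd j w) x‖ ^ 2 := fun i j =>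
    dyh2_int ((hw.pd j).pd i).continuous (hcs_pd (hcs_pd hc j) i)
  have hf1 : Smo (fderiv ℝ w) := ContDiff.fderiv_right hw (by exact_mod_cast le_top)
  have hfc : Continuous (fderiv ℝ (fderiv ℝ w)) := ContDiff.continuous_fderiv hf1 (by norm_num)
  have hcc : HasCompactSupport (fderiv ℝ (fderiv ℝ w)) := (hc.fderiv ℝ).fderiv ℝ
  have hI : Integrable fun x => ‖fderiv ℝ (fderiv ℝ w) x‖ ^ 2 := dyh2_int hfc hcc
  have e : ∑ i, ∑ j, ∫ x, ‖pd i (pd j w) x‖ ^ 2 = ∫ x, ∑ i, ∑ j, ‖pd i (pd j w) x‖ ^ 2 := by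
    rw [integral_finsetSum _ fun i _ => integrable_finsetSum _ fun j _ => hi i j]
    exact Finset.sum_congr rfl fun i _ => (integral_finsetSum _ fun j _ => hi i j).symm
  rw [e]
  refine (setIntegral_le_integral hI (Eventually.of_forall fun x => sq_nonneg _)).trans ?_
  exact integral_mono hI
    (integrable_finsetSum _ fun i _ => integrable_finsetSum _ fun j _ => hi i j) fun x => dyh2_pt hw x

theorem dyE1_smo (h : Dom D z δ) {w : En d → En d} (hw : Smo w) (hc : HasCompactSupport w) :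
    dyE D 1 w ≤ (∫ x, ‖w x‖ ^ 2) + ∑ i, ∫ x, ‖pd i w x‖ ^ 2 := by
  unfold dyE
  rw [Finset.sum_range_succ, Finset.sum_range_one]
  exact add_le_add (dyh2_0 hw hc) (dyh2_1 hw hc)

theorem dyE2_smo (h : Dom D z δ) {w : En d → En d} (hw : Smo w) (hc : HasCompactSupport w) :
    dyE D 2 w ≤ (∫ x, ‖w x‖ ^ 2) + (∑ i, ∫ x, ‖pd i w x‖ ^ 2) + ∑ i, ∑ j, ∫ x, ‖pd i (pd j w) x‖ ^ 2 := by
  unfold dyE
  rw [Finset.sum_range_succ, Finset.sum_range_succ, Finset.sum_range_one]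
  exact add_le_add (add_le_add (dyh2_0 hw hc) (dyh2_1 hw hc)) (dyh2_2 hw hc)

end

end Pool.Agent.Lib.MP_79abb3_an.W
end

section

/-!
Theorem W, block DY, part h: energies of products `A w`.
-/

set_option autoImplicit false
set_option linter.unusedSectionVars false

open MeasureTheory Set Filter Topology Function
open scoped ENNReal RealInnerProductSpace

namespace Pool.Agent.Lib.MP_79abb3_an.W

section
variable {d : ℕ} {D : Set (En d)} {z : En d → ℝ} {δ : ℝ}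

private theorem dyh_pt (hD : IsOpen D) {A : En d → (En d →L[ℝ] En d)} (hA : BD D A) {k : ℕ} {M : ℝ} (hM : 0 ≤ M)
    (hAM : Bk D k M A) {w : En d → En d} (hw : BD D w) {j : ℕ} (hj : j ≤ k) {x : En d} (hx : x ∈ D) :
    ‖iteratedFDeriv ℝ j (fun x => A x (w x)) x‖ ^ 2 ≤
      (k + 1) * (2 ^ k * M) ^ 2 * ∑ l ∈ Finset.range (k + 1), ‖iteratedFDeriv ℝ l w x‖ ^ 2 := by
  have h1 : ‖iteratedFDeriv ℝ j (fun x => A x (w x)) x‖ ≤
      2 ^ k * M * ∑ l ∈ Finset.range (j + 1), ‖iteratedFDeriv ℝ l w x‖ := by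
    rw [← iteratedFDerivWithin_of_isOpen j hD hx]
    refine ((ContinuousLinearMap.id ℝ (En d →L[ℝ] En d)).norm_iteratedFDerivWithin_le_of_bilinear hA.1 hw.1
      hD.uniqueDiffOn hx (n := j) (by exact_mod_cast le_top)).trans ?_
    have h2 : ∀ i ∈ Finset.range (j + 1), (j.choose i : ℝ) * ‖iteratedFDerivWithin ℝ i A D x‖ *
        ‖iteratedFDerivWithin ℝ (j - i) w D x‖ ≤ 2 ^ k * M * ‖iteratedFDeriv ℝ (j - i) w x‖ := by
      intro i hi
      rw [iteratedFDerivWithin_of_isOpen i hD hx, iteratedFDerivWithin_of_isOpen (j - i) hD hx]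
      have hi' := Finset.mem_range.1 hi
      have h3 : (j.choose i : ℝ) ≤ 2 ^ k := by
        have h4 : j.choose i ≤ 2 ^ j := Nat.choose_le_two_pow j i
        calc (j.choose i : ℝ) ≤ 2 ^ j := by exact_mod_cast h4
          _ ≤ 2 ^ k := pow_le_pow_right₀ one_le_two hj
      refine mul_le_mul_of_nonneg_right ?_ (norm_nonneg _)
      exact mul_le_mul h3 (hAM i (by omega) x hx) (norm_nonneg _) (by positivity)
    have hs : 0 ≤ ∑ i ∈ Finset.range (j + 1), (j.choose i : ℝ) * ‖iteratedFDerivWithin ℝ i A D x‖ *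
        ‖iteratedFDerivWithin ℝ (j - i) w D x‖ := Finset.sum_nonneg fun i _ => by positivity
    refine (mul_le_of_le_one_left hs ContinuousLinearMap.norm_id_le).trans ?_
    refine (Finset.sum_le_sum h2).trans ?_
    rw [← Finset.mul_sum]
    refine mul_le_mul_of_nonneg_left (le_of_eq ?_) (by positivity)
    rw [Finset.sum_range_reflect (fun l => ‖iteratedFDeriv ℝ l w x‖) (j + 1) |>.symm]
    refine Finset.sum_congr rfl fun i hi => ?_
    rw [show j + 1 - 1 - i = j - i by omega]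
  have h5 : ∑ l ∈ Finset.range (j + 1), ‖iteratedFDeriv ℝ l w x‖ ≤
      ∑ l ∈ Finset.range (k + 1), ‖iteratedFDeriv ℝ l w x‖ :=
    Finset.sum_le_sum_of_subset_of_nonneg (Finset.range_mono (by omega)) fun l _ _ => norm_nonneg _
  have h6 : (∑ l ∈ Finset.range (k + 1), ‖iteratedFDeriv ℝ l w x‖) ^ 2 ≤
      (k + 1) * ∑ l ∈ Finset.range (k + 1), ‖iteratedFDeriv ℝ l w x‖ ^ 2 := by
    have h7 := sq_sum_le_card_mul_sum_sq (s := Finset.range (k + 1)) (f := fun l => ‖iteratedFDeriv ℝ l w x‖)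
    rw [Finset.card_range] at h7
    push_cast at h7
    exact h7
  have h8 : 0 ≤ ∑ l ∈ Finset.range (j + 1), ‖iteratedFDeriv ℝ l w x‖ := Finset.sum_nonneg fun _ _ => norm_nonneg _
  calc ‖iteratedFDeriv ℝ j (fun x => A x (w x)) x‖ ^ 2
      ≤ (2 ^ k * M * ∑ l ∈ Finset.range (j + 1), ‖iteratedFDeriv ℝ l w x‖) ^ 2 :=
        pow_le_pow_left₀ (norm_nonneg _) h1 2
    _ = (2 ^ k * M) ^ 2 * (∑ l ∈ Finset.range (j + 1), ‖iteratedFDeriv ℝ l w x‖) ^ 2 := mul_pow _ _ _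
    _ ≤ (2 ^ k * M) ^ 2 * (∑ l ∈ Finset.range (k + 1), ‖iteratedFDeriv ℝ l w x‖) ^ 2 :=
        mul_le_mul_of_nonneg_left (pow_le_pow_left₀ h8 h5 2) (sq_nonneg _)
    _ ≤ (2 ^ k * M) ^ 2 * ((k + 1) * ∑ l ∈ Finset.range (k + 1), ‖iteratedFDeriv ℝ l w x‖ ^ 2) :=
        mul_le_mul_of_nonneg_left h6 (sq_nonneg _)
    _ = _ := by ring

/-- Leibniz' rule for the energies -/
theorem dyE_apply (h : Dom D z δ) {A : En d → (En d →L[ℝ] En d)} (hA : BD D A) {k : ℕ} {M : ℝ} (hM : 0 ≤ M)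
    (hAM : Bk D k M A) {w : En d → En d} (hw : BD D w) :
    dyE D k (fun x => A x (w x)) ≤ ((k + 1) * (2 ^ k * M)) ^ 2 * dyE D k w := by
  have hD : IsOpen D := by
    have e : D = {x | 0 < z x} := by ext x; exact h.pos x
    rw [e]
    exact isOpen_lt continuous_const h.smo.continuous
  have hAw : BD D fun x => A x (w x) := hA.apply hD hw
  have hi : ∀ l, IntegrableOn (fun x => ‖iteratedFDeriv ℝ l w x‖ ^ 2) D := fun l => dyE_int h hw l
  have h1 : ∀ j ∈ Finset.range (k + 1), ∫ x in D, ‖iteratedFDeriv ℝ j (fun x => A x (w x)) x‖ ^ 2 ≤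
      (k + 1) * (2 ^ k * M) ^ 2 * dyE D k w := by
    intro j hj
    have hj' : j ≤ k := by have := Finset.mem_range.1 hj; omega
    have h2 : ∫ x in D, (k + 1) * (2 ^ k * M) ^ 2 * ∑ l ∈ Finset.range (k + 1), ‖iteratedFDeriv ℝ l w x‖ ^ 2 =
        (k + 1) * (2 ^ k * M) ^ 2 * dyE D k w := by
      rw [integral_const_mul, integral_finsetSum _ fun l _ => hi l]
      rfl
    rw [← h2]
    refine setIntegral_mono_on (dyE_int h hAw j)
      ((integrable_finsetSum _ fun l _ => hi l).const_mul _) hD.measurableSet fun x hx => ?_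
    exact dyh_pt hD hA hM hAM hw hj' hx
  calc dyE D k (fun x => A x (w x)) ≤ ∑ j ∈ Finset.range (k + 1), (k + 1) * (2 ^ k * M) ^ 2 * dyE D k w :=
        Finset.sum_le_sum h1
    _ = _ := by
        rw [Finset.sum_const, Finset.card_range, nsmul_eq_mul]
        push_cast
        ring

end

end Pool.Agent.Lib.MP_79abb3_an.W
end

section

/-!
Theorem W, block DY, part c2: the layer estimate.
-/

set_option autoImplicit false
set_option linter.unusedSectionVars false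

open MeasureTheory Set Filter Topology Function
open scoped ENNReal RealInnerProductSpace

namespace Pool.Agent.Lib.MP_79abb3_an.W

section
variable {d : ℕ} {D : Set (En d)} {z : En d → ℝ} {δ : ℝ}

/-- **Layer estimate.** `dy_gauss` for `X = G(z) κ(z) ‖Y‖² ∇z`, `G(s) = ρ (1 - exp(-s/ρ))`, `κ = kap δ` (as in `Col.int_exp`):
`∫ G'(z) κ ‖∇z‖² ‖Y‖² = -∫ (G κ' ‖∇z‖² ‖Y‖² + G κ Δz ‖Y‖² + 2 G κ ⟪Y, DY ∇z⟫)`, `0 ≤ G ≤ ρ`, `G' = exp(-s/ρ)`;
for `z ≥ δ` use `exp(-z/ρ) ≤ ρ/δ`. -/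
theorem dy_layer (h : Dom D z δ) : ∃ C, 0 ≤ C ∧ ∀ Y : En d → En d, BD D Y → ∀ ρ > 0,
    ∫ x in D, Real.exp (-(z x / ρ)) * ‖Y x‖ ^ 2 ≤ C * ρ * dyE D 1 Y := by
  have hcol := h.col
  have hDo : IsOpen D := hcol.isOpen
  have hkd : Continuous (deriv (kap δ)) := (kap_smooth δ).continuous_deriv (by norm_num)
  have h3 : Continuous z := h.smo.continuous
  obtain ⟨M, hM0, hM⟩ := hcol.bound (f := fun x => |deriv (kap δ) (z x)| * ‖gd z x‖ ^ 2 + |lap z x|)
    (((hkd.comp h3).abs.mul (h.smo.gd.continuous.norm.pow 2)).add h.smo.lap.continuous.abs)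
  obtain ⟨M', hM'0, hM'⟩ := hcol.bound (f := gd z) h.smo.gd.continuous
  have hδ := h.δ0
  refine ⟨M + M' + 1 / δ, by positivity, fun Y hY r hr => ?_⟩
  set e : ℝ → ℝ := fun t => Real.exp (-(t / r)) with he
  have hes : ContDiff ℝ ((⊤ : ℕ∞) : WithTop ℕ∞) e := Real.contDiff_exp.comp (contDiff_id.div_const r).neg
  have hed : ∀ t, HasDerivAt e (-(e t / r)) t := by
    intro t
    have h1 : HasDerivAt (fun t : ℝ => -(t / r)) (-(1 / r)) t := ((hasDerivAt_id t).div_const r).neg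
    have h2 := h1.exp
    convert h2 using 1
    simp only [he]
    ring
  set g : ℝ → ℝ := fun t => (r * (1 - e t)) * kap δ t with hgdef
  have hgs : ContDiff ℝ ((⊤ : ℕ∞) : WithTop ℕ∞) g :=
    (contDiff_const.mul (contDiff_const.sub hes)).mul (kap_smooth δ)
  have he1 : ∀ t, 0 ≤ t → e t ≤ 1 := by
    intro t ht
    apply Real.exp_le_one_iff.2
    have : 0 ≤ t / r := by positivity
    linarith
  have hg0 : ∀ t, 0 ≤ t → 0 ≤ g t := by
    intro t ht
    have h1 := he1 t ht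
    have h2 := kap_nonneg δ t
    have h4 : 0 ≤ 1 - e t := by linarith
    positivity
  have hgt : ∀ t, 0 ≤ t → g t ≤ t := by
    intro t ht
    have h1 := he1 t ht
    have h2 := kap_le_one δ t
    have h4 : 0 ≤ r * (1 - e t) := mul_nonneg hr.le (by linarith)
    have h5 : 1 - e t ≤ t / r := by
      have := Real.add_one_le_exp (-(t / r))
      simp only [he]
      linarith
    calc g t ≤ r * (1 - e t) * 1 := mul_le_mul_of_nonneg_left h2 h4
      _ ≤ r * (t / r) * 1 := by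
        rw [mul_one, mul_one]
        exact mul_le_mul_of_nonneg_left h5 hr.le
      _ = t := by field_simp
  have hgd : ∀ t, deriv g t = e t * kap δ t + r * (1 - e t) * deriv (kap δ) t := by
    intro t
    have h1 : HasDerivAt (fun t => r * (1 - e t)) (r * (0 - -(e t / r))) t :=
      ((hasDerivAt_const t (1 : ℝ)).sub (hed t)).const_mul r
    have h2 := h1.mul ((kap_smooth δ).differentiable (by norm_num) t).hasDerivAt
    have h4 := h2.deriv
    have h5 : deriv g t = r * (0 - -(e t / r)) * kap δ t + r * (1 - e t) * deriv (kap δ) t := h4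
    rw [h5]
    field_simp
    ring
  -- the field
  set a : En d → ℝ := fun x => g (z x) * ⟪Y x, Y x⟫ with ha
  have hgz : BD D fun x => g (z x) := (smo_comp hgs h.smo).bd h.bdd
  have hYY : BD D fun x => ⟪Y x, Y x⟫ := BD.bilin hDo (innerSL ℝ) hY hY
  have haB : BD D a := hgz.mul hDo hYY
  have hgzB : BD D (gd z) := h.smo.gd.bd h.bdd
  have hX : BD D fun x => a x • gd z x := haB.smul hDo hgzB
  obtain ⟨N, hN0, hN⟩ := hY.exists_Bk 0
  have hn : Oz D z (fun x => ⟪gradient z x, a x • gd z x⟫) := by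
    refine ⟨N ^ 2 * M' ^ 2, fun x hx => ?_⟩
    have hzx : 0 < z x := (h.pos x).1 hx
    show ‖⟪gradient z x, a x • gd z x⟫‖ ≤ _
    rw [← gd_eq_gradient, real_inner_smul_right, real_inner_self_eq_norm_sq]
    have h1 : ‖Y x‖ ≤ N := hN.le0 hx
    have h2 : ‖gd z x‖ ≤ M' := hM' x (subset_closure hx)
    have h4 := hg0 _ hzx.le
    have h5 := hgt _ hzx.le
    have h6 : ‖a x * ‖gd z x‖ ^ 2‖ = g (z x) * (‖Y x‖ ^ 2 * ‖gd z x‖ ^ 2) := by
      rw [ha]
      show ‖g (z x) * ⟪Y x, Y x⟫ * ‖gd z x‖ ^ 2‖ = _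
      rw [real_inner_self_eq_norm_sq, Real.norm_eq_abs, abs_of_nonneg (by positivity)]
      ring
    rw [h6]
    have h7 : ‖Y x‖ ^ 2 * ‖gd z x‖ ^ 2 ≤ N ^ 2 * M' ^ 2 :=
      mul_le_mul (pow_le_pow_left₀ (norm_nonneg _) h1 2) (pow_le_pow_left₀ (norm_nonneg _) h2 2) (by positivity)
        (by positivity)
    calc g (z x) * (‖Y x‖ ^ 2 * ‖gd z x‖ ^ 2) ≤ z x * (N ^ 2 * M' ^ 2) :=
          mul_le_mul h5 h7 (by positivity) hzx.le
      _ = N ^ 2 * M' ^ 2 * z x := by ring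
  have hgauss := dy_gauss h hX hn
  have hdiv : ∀ x ∈ D, dv (fun x => a x • gd z x) x = deriv g (z x) * ‖gd z x‖ ^ 2 * ‖Y x‖ ^ 2 +
      g (z x) * (2 * ⟪Y x, fderiv ℝ Y x (gd z x)⟫) + g (z x) * ‖Y x‖ ^ 2 * lap z x := by
    intro x hx
    rw [dy_dv_smul hDo haB hgzB hx, dv_gd h.smo, inner_gd]
    have h1 : HasFDerivAt (fun x => g (z x)) (deriv g (z x) • fderiv ℝ z x) x :=
      ((hgs.differentiable (by norm_num)) (z x)).hasDerivAt.comp_hasFDerivAt x (h.smo.differentiable x).hasFDerivAt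
    have h2 : HasFDerivAt Y (fderiv ℝ Y x) x := (hY.differentiableAt hDo hx).hasFDerivAt
    have h4 := h1.mul (h2.inner ℝ h2)
    have h5 : fderiv ℝ a x = _ := h4.fderiv
    rw [h5]
    have h6 : fderiv ℝ z x (gd z x) = ‖gd z x‖ ^ 2 := by rw [← inner_gd, real_inner_self_eq_norm_sq]
    have h7 : a x = g (z x) * ‖Y x‖ ^ 2 := by
      rw [ha, ← real_inner_self_eq_norm_sq]
    rw [h7]
    simp only [ContinuousLinearMap.add_apply, ContinuousLinearMap.smul_apply, smul_eq_mul,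
      ContinuousLinearMap.comp_apply, fderivInnerCLM_apply, ContinuousLinearMap.prod_apply, h6,
      real_inner_self_eq_norm_sq]
    rw [real_inner_comm (Y x) (fderiv ℝ Y x (gd z x))]
    ring
  -- pointwise comparison
  have hpt : ∀ x ∈ D, e (z x) * ‖Y x‖ ^ 2 ≤ dv (fun x => a x • gd z x) x +
      (M + M' + 1 / δ) * r * (‖Y x‖ ^ 2 + ‖fderiv ℝ Y x‖ ^ 2) := by
    intro x hx
    rw [hdiv x hx, hgd]
    have hzx : 0 < z x := (h.pos x).1 hx
    have hMx := hM x (subset_closure hx)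
    rw [Real.norm_eq_abs, abs_of_nonneg (by positivity)] at hMx
    have hM'x : ‖gd z x‖ ≤ M' := hM' x (subset_closure hx)
    have hex := he1 _ hzx.le
    have hex0 : 0 < e (z x) := Real.exp_pos _
    have hk0 := kap_nonneg δ (z x)
    have hk1 := kap_le_one δ (z x)
    have h6 : |(1 - e (z x)) * (deriv (kap δ) (z x) * ‖gd z x‖ ^ 2) +
        (1 - e (z x)) * kap δ (z x) * lap z x| ≤ M := by
      refine (abs_add_le _ _).trans (le_trans (add_le_add ?_ ?_) hMx)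
      · rw [abs_mul, abs_mul, abs_of_nonneg (by positivity : (0 : ℝ) ≤ ‖gd z x‖ ^ 2),
          abs_of_nonneg (by linarith : (0 : ℝ) ≤ 1 - e (z x))]
        exact mul_le_of_le_one_left (by positivity) (by linarith)
      · rw [abs_mul, abs_of_nonneg (by nlinarith : (0 : ℝ) ≤ (1 - e (z x)) * kap δ (z x))]
        exact mul_le_of_le_one_left (abs_nonneg _) (by nlinarith)
    have h7 := (abs_le.1 h6).1
    have h2 : e (z x) ≤ e (z x) * kap δ (z x) * ‖gd z x‖ ^ 2 + 1 / δ * r := by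
      by_cases hz : z x ≤ δ
      · have hu : ‖gd z x‖ = 1 := hcol.unit x (by rw [abs_of_pos hzx]; linarith)
        rw [kap_one hδ hz, hu]
        have : 0 < 1 / δ * r := by positivity
        linarith
      · push Not at hz
        have h9 : e (z x) ≤ 1 / δ * r := by
          have h10 : z x / r < Real.exp (z x / r) := by
            have := Real.add_one_le_exp (z x / r)
            linarith
          have h11 : e (z x) = (Real.exp (z x / r))⁻¹ := Real.exp_neg _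
          have h12 : (Real.exp (z x / r))⁻¹ ≤ (z x / r)⁻¹ :=
            inv_anti₀ (by positivity) h10.le
          rw [inv_div] at h12
          have h13 : r / z x ≤ r / δ := div_le_div_of_nonneg_left hr.le hδ hz.le
          have h14 : 1 / δ * r = r / δ := by ring
          linarith
        have : 0 ≤ e (z x) * kap δ (z x) * ‖gd z x‖ ^ 2 := by positivity
        linarith
    have hI : |⟪Y x, fderiv ℝ Y x (gd z x)⟫| ≤ M' * (‖Y x‖ * ‖fderiv ℝ Y x‖) := by
      refine (abs_real_inner_le_norm _ _).trans ?_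
      have h8 : ‖fderiv ℝ Y x (gd z x)‖ ≤ ‖fderiv ℝ Y x‖ * M' :=
        ((fderiv ℝ Y x).le_opNorm _).trans (mul_le_mul_of_nonneg_left hM'x (norm_nonneg _))
      nlinarith [norm_nonneg (Y x), mul_le_mul_of_nonneg_left h8 (norm_nonneg (Y x))]
    have hgr : g (z x) ≤ r := by
      have h8 : (1 - e (z x)) * kap δ (z x) ≤ 1 := by nlinarith
      have h9 : g (z x) = r * ((1 - e (z x)) * kap δ (z x)) := by simp only [hgdef]; ring
      rw [h9]
      exact mul_le_of_le_one_right hr.le h8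
    have hgx := hg0 _ hzx.le
    -- the three parts
    have p1 : e (z x) * ‖Y x‖ ^ 2 ≤ e (z x) * kap δ (z x) * ‖gd z x‖ ^ 2 * ‖Y x‖ ^ 2 + 1 / δ * r * ‖Y x‖ ^ 2 := by
      have := mul_le_mul_of_nonneg_right h2 (sq_nonneg ‖Y x‖)
      linarith
    have p2 : 0 ≤ r * (1 - e (z x)) * deriv (kap δ) (z x) * ‖gd z x‖ ^ 2 * ‖Y x‖ ^ 2 +
        g (z x) * ‖Y x‖ ^ 2 * lap z x + M * r * ‖Y x‖ ^ 2 := by
      have h8 : r * (1 - e (z x)) * deriv (kap δ) (z x) * ‖gd z x‖ ^ 2 * ‖Y x‖ ^ 2 +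
          g (z x) * ‖Y x‖ ^ 2 * lap z x + M * r * ‖Y x‖ ^ 2 = r * ‖Y x‖ ^ 2 *
          ((1 - e (z x)) * (deriv (kap δ) (z x) * ‖gd z x‖ ^ 2) + (1 - e (z x)) * kap δ (z x) * lap z x + M) := by
        simp only [hgdef]
        ring
      rw [h8]
      exact mul_nonneg (by positivity) (by linarith)
    have p3 : 0 ≤ g (z x) * (2 * ⟪Y x, fderiv ℝ Y x (gd z x)⟫) + M' * r * (‖Y x‖ ^ 2 + ‖fderiv ℝ Y x‖ ^ 2) := by
      have h8 := (abs_le.1 hI).1
      have h9 : 2 * (‖Y x‖ * ‖fderiv ℝ Y x‖) ≤ ‖Y x‖ ^ 2 + ‖fderiv ℝ Y x‖ ^ 2 := by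
        nlinarith [sq_nonneg (‖Y x‖ - ‖fderiv ℝ Y x‖)]
      have h10 : -(M' * (‖Y x‖ ^ 2 + ‖fderiv ℝ Y x‖ ^ 2)) ≤ 2 * ⟪Y x, fderiv ℝ Y x (gd z x)⟫ := by
        have := mul_le_mul_of_nonneg_left h9 hM'0
        linarith
      have h11 := mul_le_mul_of_nonneg_left h10 hgx
      have h12 : g (z x) * (M' * (‖Y x‖ ^ 2 + ‖fderiv ℝ Y x‖ ^ 2)) ≤ r * (M' * (‖Y x‖ ^ 2 + ‖fderiv ℝ Y x‖ ^ 2)) :=
        mul_le_mul_of_nonneg_right hgr (by positivity)
      linarith
    have p4 : 0 ≤ (M + 1 / δ) * r * ‖fderiv ℝ Y x‖ ^ 2 := by positivity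
    nlinarith
  have i1 : IntegrableOn (fun x => dv (fun x => a x • gd z x) x) D := by
    obtain ⟨C, hC0, hC⟩ := (hX.dv hDo).exists_Bk 0
    exact dy_int h (hX.dv hDo).1.continuousOn fun x hx => hC.le0 hx
  have i2 : IntegrableOn (fun x => ‖Y x‖ ^ 2) D := by
    have := dyE_int h hY 0
    simpa only [norm_iteratedFDeriv_zero] using this
  have i3 : IntegrableOn (fun x => ‖fderiv ℝ Y x‖ ^ 2) D := by
    have := dyE_int h hY 1
    simpa only [norm_iteratedFDeriv_one] using this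
  have i4 : IntegrableOn (fun x => e (z x) * ‖Y x‖ ^ 2) D := by
    refine dy_int h ((hes.continuous.comp h3).continuousOn.mul (hY.1.continuousOn.norm.pow 2)) (C := 1 * N ^ 2)
      fun x hx => ?_
    have hzx : 0 < z x := (h.pos x).1 hx
    rw [abs_of_nonneg (mul_nonneg (Real.exp_pos _).le (by positivity))]
    exact mul_le_mul (he1 _ hzx.le) (pow_le_pow_left₀ (norm_nonneg _) (hN.le0 hx) 2) (by positivity) zero_le_one
  have i23 : IntegrableOn (fun x => ‖Y x‖ ^ 2 + ‖fderiv ℝ Y x‖ ^ 2) D := i2.add i3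
  have hE : dyE D 1 Y = ∫ x in D, (‖Y x‖ ^ 2 + ‖fderiv ℝ Y x‖ ^ 2) := by
    rw [integral_add i2 i3]
    unfold dyE
    rw [Finset.sum_range_succ, Finset.sum_range_one]
    simp only [norm_iteratedFDeriv_zero, norm_iteratedFDeriv_one]
  calc ∫ x in D, Real.exp (-(z x / r)) * ‖Y x‖ ^ 2
      ≤ ∫ x in D, (dv (fun x => a x • gd z x) x + (M + M' + 1 / δ) * r * (‖Y x‖ ^ 2 + ‖fderiv ℝ Y x‖ ^ 2)) :=
        setIntegral_mono_on i4 (i1.add (i23.const_mul _)) hcol.meas hpt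
    _ = (M + M' + 1 / δ) * r * dyE D 1 Y := by
        rw [integral_add i1 (i23.const_mul _), hgauss, integral_const_mul, hE, zero_add]

end

end Pool.Agent.Lib.MP_79abb3_an.W
end

section

/-!
Theorem W, block DY, part i: the approximation hypotheses `yS`, `ys` for the concrete spaces.
-/

set_option autoImplicit false
set_option linter.unusedSectionVars false

open MeasureTheory Set Filter Topology Function
open scoped ENNReal RealInnerProductSpace

namespace Pool.Agent.Lib.MP_79abb3_an.W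

section
variable {d : ℕ} {D : Set (En d)} {z : En d → ℝ} {δ : ℝ}

/-- the projection of `A u` only depends on `A u` in `D`; difference of two such fields -/
theorem dy_MuD_sub (h : Dom D z δ) {A : En d → (En d →L[ℝ] En d)} (hA : BD D A) {M : ℝ} (hM : 0 ≤ M)
    (hAM : ∀ x ∈ D, ‖A x‖ ≤ M) (u : HD D) {w : En d → En d} (hw : Smo w) (hc : HasCompactSupport w) :
    ‖MuD D A u - PcD D (fun x => A x (w x))‖ ≤ M * ‖(u : L2E d) - cl w‖ := by
  have hD : IsOpen D := by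
    have e : D = {x | 0 < z x} := by ext x; exact h.pos x
    rw [e]
    exact isOpen_lt continuous_const h.smo.continuous
  have hAm : Bm D A := hA.bm hD
  have hwL : MemLp w 2 (volume : Measure (En d)) := hw.continuous.memLp_of_hasCompactSupport hc
  have hAw : Bm D fun x => A x (w x) := hAm.apply ((hw.bd h.bdd).bm hD)
  have e1 : cl (D.indicator fun x => A x (w x)) = mu0 d (bf D A) (cl w) := by
    refine Lp.ext ?_
    filter_upwards [clI_coe h.bdd hAw, mu0_ae (bf D A) (cl w), bf_coe hAm, cl_coe hwL] with x h1 h2 h3 h4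
    rw [h1, h2, h3, h4]
    by_cases hx : x ∈ D
    · rw [indicator_of_mem hx, indicator_of_mem hx]
    · rw [indicator_of_notMem hx, indicator_of_notMem hx]
      simp
  rw [MuD_apply, PcD, e1, ← map_sub, ← map_sub]
  exact (PD_le _).trans ((mu0_le _ _).trans (mul_le_mul_of_nonneg_right (bf_le hM hAM) (norm_nonneg _)))

end

end Pool.Agent.Lib.MP_79abb3_an.W
end
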