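import Pool.Agent.Lib.MP_79abb3_an.W.BDef
import Pool.Agent.Lib.MP_79abb3_an.W.Mb6
import Pool.Agent.Lib.MP_79abb3_an.W.DYi
import Pool.Agent.Lib.MP_79abb3_an.W.DYe3
import Pool.Agent.Lib.MP_79abb3_an.W.HF1
import Pool.Agent.Lib.MP_79abb3_an.W.DEja
import Pool.Agent.Lib.MP_79abb3_an.W.DEjb
import Pool.Agent.Lib.MP_79abb3_an.W.BM2
import Pool.Agent.Lib.MP_79abb3_an.W.DYb
import Pool.Agent.Lib.MP_79abb3_an.W.BM5
import Pool.Agent.Lib.MP_79abb3_an.W.BX0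
import Pool.Agent.Lib.MP_79abb3_an.W.DEa

section

/-!
Theorem W, block A: link with block B.
-/

set_option autoImplicit false
set_option linter.unusedSectionVars false

open MeasureTheory Set Filter Topology Function
open scoped ENNReal RealInnerProductSpace

namespace Pool.Agent.Lib.MP_79abb3_an.W

section
variable {d : ℕ} {D : Set (En d)} {z : En d → ℝ} {δ : ℝ}

/-- The projection in terms of block B. -/
theorem PD_of_IsQ (h : Dom D z δ) {F γ : En d → En d} (hQ : B.IsQ D F (fun _ => 0) γ) :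
    ((PD D (cl (D.indicator F)) : HD D) : L2E d) = cl (D.indicator fun x => F x - γ x) := by
  have e1 : ∀ q : En d → ℝ, (fun x => gradient q x) = gd q := fun q => funext fun x => gradient_eq_gd q x
  refine PD_eq_sub h hQ.memF hQ.inG.mem (fun ε hε => ?_) (fun q hq hc => ?_)
  · obtain ⟨φ, hφ, h1⟩ := hQ.inG.ap ε hε.ne'
    refine ⟨φ, hφ.c1, hφ.cpt, ?_⟩
    simpa only [gradient_eq_gd] using h1
  · have h1 := hQ.eq q ⟨hq, hc⟩
    have h2 : (fun x => ⟪F x - γ x, gd q x⟫) = fun x => -(⟪γ x - F x, gradient q x⟫ + 0 * q x) := by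
      funext x
      rw [gradient_eq_gd, zero_mul, add_zero, ← inner_neg_left, neg_sub]
    rw [h2, integral_neg, h1, neg_zero]

/-- `F - γ` is in `H(D)`. -/
theorem mem_HD_of_IsQ (h : Dom D z δ) {F γ : En d → En d} (hQ : B.IsQ D F (fun _ => 0) γ) :
    cl (D.indicator fun x => F x - γ x) ∈ HD D := by
  rw [← PD_of_IsQ h hQ]
  exact (PD D (cl (D.indicator F))).2

end

end Pool.Agent.Lib.MP_79abb3_an.W
end

section

/-!
Theorem W, block DY, part f: the competitor `Y - K` in `V(D)`, `L²` estimates, the approximation theorem for fields of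
class `BD`.
-/

set_option autoImplicit false
set_option linter.unusedSectionVars false

open MeasureTheory Set Filter Topology Function
open scoped ENNReal RealInnerProductSpace

namespace Pool.Agent.Lib.MP_79abb3_an.W

section
variable {d : ℕ} {D : Set (En d)} {z : En d → ℝ} {δ : ℝ}

private theorem dyf_n0 (Y : En d → En d) (x : En d) : ‖iteratedFDeriv ℝ 0 Y x‖ = ‖Y x‖ :=
  norm_iteratedFDeriv_zero

private theorem dyf_n1 (Y : En d → En d) (x : En d) : ‖iteratedFDeriv ℝ 1 Y x‖ = ‖fderiv ℝ Y x‖ :=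
  norm_iteratedFDeriv_one Y

private theorem dyf_n2 (Y : En d → En d) (x : En d) :
    ‖iteratedFDeriv ℝ 2 Y x‖ = ‖fderiv ℝ (fderiv ℝ Y) x‖ := by
  rw [← norm_iteratedFDeriv_one, norm_iteratedFDeriv_fderiv]

private theorem dyf_E1 (Y : En d → En d) : dyE D 1 Y =
    (∫ x in D, ‖Y x‖ ^ 2) + ∫ x in D, ‖fderiv ℝ Y x‖ ^ 2 := by
  unfold dyE
  rw [Finset.sum_range_succ, Finset.sum_range_one]
  simp_rw [dyf_n0, dyf_n1]

private theorem dyf_E2 (Y : En d → En d) : ∫ x in D, ‖fderiv ℝ (fderiv ℝ Y) x‖ ^ 2 ≤ dyE D 2 Y := by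
  unfold dyE
  rw [Finset.sum_range_succ]
  simp_rw [← dyf_n2]
  have : 0 ≤ ∑ j ∈ Finset.range 2, ∫ x in D, ‖iteratedFDeriv ℝ j Y x‖ ^ 2 :=
    Finset.sum_nonneg fun _ _ => integral_nonneg fun _ => by positivity
  linarith

private theorem dyf_sq (z ρ : ℝ) : Real.exp (-(z / (2 * ρ))) ^ 2 = Real.exp (-(z / ρ)) := by
  rw [sq, ← Real.exp_add]
  congr 1
  rcases eq_or_ne ρ 0 with h | h
  · simp [h]
  · field_simp
    ring

private theorem dyf_int (h : Dom D z δ) {ρ : ℝ} (hρ : 0 < ρ) {Y : En d → En d} (hY : BD D Y) :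
    IntegrableOn (fun x => Real.exp (-(z x / ρ)) * ‖Y x‖ ^ 2) D := by
  have h1 := dyE_int h hY 0
  simp_rw [dyf_n0] at h1
  have hc : Continuous fun x => Real.exp (-(z x / ρ)) :=
    Real.continuous_exp.comp ((h.smo.continuous.div_const ρ).neg)
  refine Integrable.bdd_mul (c := 1) h1 hc.aestronglyMeasurable ?_
  refine ae_restrict_of_forall_mem h.isOpen.measurableSet fun x hx => ?_
  rw [Real.norm_of_nonneg (Real.exp_pos _).le, Real.exp_le_one_iff, neg_nonpos]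
  exact div_nonneg ((h.pos x).1 hx).le hρ.le

/-- (`dyK_le`, `dy_layer`, `ρ² ≤ ρ`) -/
theorem dyK_L2 (h : Dom D z δ) : ∃ C, 0 ≤ C ∧ ∀ ρ, 0 < ρ → ρ ≤ 1 → ∀ Y : En d → En d, BD D Y → (∀ x ∈ D, dv Y x = 0) →
    ∫ x in D, ‖dyK z ρ Y x‖ ^ 2 ≤ C * ρ * dyE D 1 Y := by
  obtain ⟨C, hC0, hC⟩ := dyK_le h
  obtain ⟨C', hC'0, hC'⟩ := dy_layer h
  refine ⟨3 * C ^ 2 * (C' + 1), by positivity, fun ρ hρ hρ1 Y hY hd => ?_⟩
  have i0 := dyf_int h hρ hY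
  have i1 := dyE_int h hY 0
  have i2 := dyE_int h hY 1
  simp_rw [dyf_n0] at i1
  simp_rw [dyf_n1] at i2
  have hD := h.isOpen.measurableSet
  have hpt : ∀ x ∈ D, ‖dyK z ρ Y x‖ ^ 2 ≤ 3 * C ^ 2 * (Real.exp (-(z x / ρ)) * ‖Y x‖ ^ 2) +
      (3 * C ^ 2 * ρ ^ 2) * ‖Y x‖ ^ 2 + (3 * C ^ 2 * ρ ^ 2) * ‖fderiv ℝ Y x‖ ^ 2 := by
    intro x hx
    have h1 := hC ρ hρ hρ1 Y hY hd x hx
    have h2 := pow_le_pow_left₀ (norm_nonneg _) h1 2
    refine h2.trans ?_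
    rw [← dyf_sq (z x) ρ]
    obtain ⟨e, he⟩ : ∃ e, e = Real.exp (-(z x / (2 * ρ))) := ⟨_, rfl⟩
    obtain ⟨a, ha⟩ : ∃ a, a = ‖Y x‖ := ⟨_, rfl⟩
    obtain ⟨b, hb⟩ : ∃ b, b = ‖fderiv ℝ Y x‖ := ⟨_, rfl⟩
    rw [← he, ← ha, ← hb]
    have h3 : (e * a + ρ * (a + b)) ^ 2 ≤ 3 * (e ^ 2 * a ^ 2 + ρ ^ 2 * a ^ 2 + ρ ^ 2 * b ^ 2) := by
      nlinarith [sq_nonneg (e * a - ρ * a), sq_nonneg (e * a - ρ * b), sq_nonneg (ρ * a - ρ * b)]
    calc (C * (e * a + ρ * (a + b))) ^ 2 = C ^ 2 * (e * a + ρ * (a + b)) ^ 2 := by ring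
      _ ≤ C ^ 2 * (3 * (e ^ 2 * a ^ 2 + ρ ^ 2 * a ^ 2 + ρ ^ 2 * b ^ 2)) :=
          mul_le_mul_of_nonneg_left h3 (sq_nonneg C)
      _ = _ := by ring
  have j0 : IntegrableOn (fun x => 3 * C ^ 2 * (Real.exp (-(z x / ρ)) * ‖Y x‖ ^ 2)) D :=
    i0.const_mul _
  have j1 : IntegrableOn (fun x => (3 * C ^ 2 * ρ ^ 2) * ‖Y x‖ ^ 2) D := i1.const_mul _
  have j2 : IntegrableOn (fun x => (3 * C ^ 2 * ρ ^ 2) * ‖fderiv ℝ Y x‖ ^ 2) D := i2.const_mul _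
  have h4 : ∫ x in D, ‖dyK z ρ Y x‖ ^ 2 ≤ ∫ x in D,
      (3 * C ^ 2 * (Real.exp (-(z x / ρ)) * ‖Y x‖ ^ 2) +
      (3 * C ^ 2 * ρ ^ 2) * ‖Y x‖ ^ 2 + (3 * C ^ 2 * ρ ^ 2) * ‖fderiv ℝ Y x‖ ^ 2) :=
    integral_mono_of_nonneg (Eventually.of_forall fun x => by positivity) ((j0.add j1).add j2)
      (ae_restrict_of_forall_mem hD hpt)
  have h5 : ∫ x in D, (3 * C ^ 2 * (Real.exp (-(z x / ρ)) * ‖Y x‖ ^ 2) +
      (3 * C ^ 2 * ρ ^ 2) * ‖Y x‖ ^ 2 + (3 * C ^ 2 * ρ ^ 2) * ‖fderiv ℝ Y x‖ ^ 2) =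
      3 * C ^ 2 * (∫ x in D, Real.exp (-(z x / ρ)) * ‖Y x‖ ^ 2) +
      (3 * C ^ 2 * ρ ^ 2) * dyE D 1 Y := by
    have j01 : IntegrableOn (fun x => 3 * C ^ 2 * (Real.exp (-(z x / ρ)) * ‖Y x‖ ^ 2) +
      (3 * C ^ 2 * ρ ^ 2) * ‖Y x‖ ^ 2) D := j0.add j1
    rw [dyf_E1, integral_add j01 j2, integral_add j0 j1, integral_const_mul,
      integral_const_mul, integral_const_mul]
    ring
  rw [h5] at h4
  have h6 := hC' Y hY ρ hρ
  have hE : 0 ≤ dyE D 1 Y := dyE_nonneg 1 Y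
  have h7 : ρ ^ 2 * dyE D 1 Y ≤ ρ * dyE D 1 Y := by
    refine mul_le_mul_of_nonneg_right ?_ hE
    nlinarith
  have h8 : 3 * C ^ 2 * (∫ x in D, Real.exp (-(z x / ρ)) * ‖Y x‖ ^ 2) ≤
      3 * C ^ 2 * (C' * ρ * dyE D 1 Y) := mul_le_mul_of_nonneg_left h6 (by positivity)
  have h9 : 3 * C ^ 2 * (ρ ^ 2 * dyE D 1 Y) ≤ 3 * C ^ 2 * (ρ * dyE D 1 Y) :=
    mul_le_mul_of_nonneg_left h7 (by positivity)
  calc _ ≤ _ := h4
    _ ≤ 3 * C ^ 2 * (C' * ρ * dyE D 1 Y) + 3 * C ^ 2 * (ρ * dyE D 1 Y) := by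
        rw [mul_assoc (3 * C ^ 2) (ρ ^ 2)]
        exact add_le_add h8 h9
    _ = 3 * C ^ 2 * (C' + 1) * ρ * dyE D 1 Y := by ring

/-- (`dyK_fderiv_le`, `dy_layer`) -/
theorem dyK_H1 (h : Dom D z δ) : ∃ C, 0 ≤ C ∧ ∀ ρ, 0 < ρ → ρ ≤ 1 → ∀ Y : En d → En d, BD D Y → (∀ x ∈ D, dv Y x = 0) →
    ∫ x in D, ‖fderiv ℝ (dyK z ρ Y) x‖ ^ 2 ≤ C * (ρ⁻¹ * dyE D 1 Y + ρ ^ 2 * dyE D 2 Y) := by
  obtain ⟨C, hC0, hC⟩ := dyK_fderiv_le h
  obtain ⟨C', hC'0, hC'⟩ := dy_layer h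
  refine ⟨4 * C ^ 2 * (C' + 1), by positivity, fun ρ hρ hρ1 Y hY hd => ?_⟩
  have i0 := dyf_int h hρ hY
  have i1 := dyE_int h hY 0
  have i2 := dyE_int h hY 1
  have i3 := dyE_int h hY 2
  simp_rw [dyf_n0] at i1
  simp_rw [dyf_n1] at i2
  simp_rw [dyf_n2] at i3
  have hD := h.isOpen.measurableSet
  have hpt : ∀ x ∈ D, ‖fderiv ℝ (dyK z ρ Y) x‖ ^ 2 ≤
      (4 * C ^ 2 * (ρ⁻¹) ^ 2) * (Real.exp (-(z x / ρ)) * ‖Y x‖ ^ 2) +
      (4 * C ^ 2) * ‖Y x‖ ^ 2 + (4 * C ^ 2) * ‖fderiv ℝ Y x‖ ^ 2 +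
      (4 * C ^ 2 * ρ ^ 2) * ‖fderiv ℝ (fderiv ℝ Y) x‖ ^ 2 := by
    intro x hx
    have h1 := hC ρ hρ hρ1 Y hY hd x hx
    have h2 := pow_le_pow_left₀ (norm_nonneg _) h1 2
    refine h2.trans ?_
    rw [← dyf_sq (z x) ρ]
    obtain ⟨e, he⟩ : ∃ e, e = Real.exp (-(z x / (2 * ρ))) := ⟨_, rfl⟩
    obtain ⟨a, ha⟩ : ∃ a, a = ‖Y x‖ := ⟨_, rfl⟩
    obtain ⟨b, hb⟩ : ∃ b, b = ‖fderiv ℝ Y x‖ := ⟨_, rfl⟩
    obtain ⟨c, hc⟩ : ∃ c, c = ‖fderiv ℝ (fderiv ℝ Y) x‖ := ⟨_, rfl⟩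
    rw [← he, ← ha, ← hb, ← hc]
    have h3 : (ρ⁻¹ * e * a + a + b + ρ * c) ^ 2 ≤
        4 * ((ρ⁻¹ * e * a) ^ 2 + a ^ 2 + b ^ 2 + (ρ * c) ^ 2) := by
      nlinarith [sq_nonneg (ρ⁻¹ * e * a - a), sq_nonneg (ρ⁻¹ * e * a - b),
        sq_nonneg (ρ⁻¹ * e * a - ρ * c), sq_nonneg (a - b), sq_nonneg (a - ρ * c),
        sq_nonneg (b - ρ * c)]
    calc (C * (ρ⁻¹ * e * a + a + b + ρ * c)) ^ 2 = C ^ 2 * (ρ⁻¹ * e * a + a + b + ρ * c) ^ 2 := by
          ring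
      _ ≤ C ^ 2 * (4 * ((ρ⁻¹ * e * a) ^ 2 + a ^ 2 + b ^ 2 + (ρ * c) ^ 2)) :=
          mul_le_mul_of_nonneg_left h3 (sq_nonneg C)
      _ = _ := by ring
  have j0 : IntegrableOn (fun x => (4 * C ^ 2 * (ρ⁻¹) ^ 2) *
    (Real.exp (-(z x / ρ)) * ‖Y x‖ ^ 2)) D := i0.const_mul _
  have j1 : IntegrableOn (fun x => (4 * C ^ 2) * ‖Y x‖ ^ 2) D := i1.const_mul _
  have j2 : IntegrableOn (fun x => (4 * C ^ 2) * ‖fderiv ℝ Y x‖ ^ 2) D := i2.const_mul _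
  have j3 : IntegrableOn (fun x => (4 * C ^ 2 * ρ ^ 2) * ‖fderiv ℝ (fderiv ℝ Y) x‖ ^ 2) D :=
    i3.const_mul _
  have h4 : ∫ x in D, ‖fderiv ℝ (dyK z ρ Y) x‖ ^ 2 ≤ ∫ x in D,
      ((4 * C ^ 2 * (ρ⁻¹) ^ 2) * (Real.exp (-(z x / ρ)) * ‖Y x‖ ^ 2) +
      (4 * C ^ 2) * ‖Y x‖ ^ 2 + (4 * C ^ 2) * ‖fderiv ℝ Y x‖ ^ 2 +
      (4 * C ^ 2 * ρ ^ 2) * ‖fderiv ℝ (fderiv ℝ Y) x‖ ^ 2) :=
    integral_mono_of_nonneg (Eventually.of_forall fun x => by positivity)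
      (((j0.add j1).add j2).add j3) (ae_restrict_of_forall_mem hD hpt)
  have h5 : ∫ x in D, ((4 * C ^ 2 * (ρ⁻¹) ^ 2) * (Real.exp (-(z x / ρ)) * ‖Y x‖ ^ 2) +
      (4 * C ^ 2) * ‖Y x‖ ^ 2 + (4 * C ^ 2) * ‖fderiv ℝ Y x‖ ^ 2 +
      (4 * C ^ 2 * ρ ^ 2) * ‖fderiv ℝ (fderiv ℝ Y) x‖ ^ 2) =
      (4 * C ^ 2 * (ρ⁻¹) ^ 2) * (∫ x in D, Real.exp (-(z x / ρ)) * ‖Y x‖ ^ 2) +
      4 * C ^ 2 * dyE D 1 Y +
      (4 * C ^ 2 * ρ ^ 2) * ∫ x in D, ‖fderiv ℝ (fderiv ℝ Y) x‖ ^ 2 := by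
    have j01 : IntegrableOn (fun x => (4 * C ^ 2 * (ρ⁻¹) ^ 2) *
      (Real.exp (-(z x / ρ)) * ‖Y x‖ ^ 2) + (4 * C ^ 2) * ‖Y x‖ ^ 2) D := j0.add j1
    have j012 : IntegrableOn (fun x => (4 * C ^ 2 * (ρ⁻¹) ^ 2) *
      (Real.exp (-(z x / ρ)) * ‖Y x‖ ^ 2) + (4 * C ^ 2) * ‖Y x‖ ^ 2 +
      (4 * C ^ 2) * ‖fderiv ℝ Y x‖ ^ 2) D := j01.add j2
    rw [dyf_E1, integral_add j012 j3, integral_add j01 j2,
      integral_add j0 j1, integral_const_mul, integral_const_mul, integral_const_mul,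
      integral_const_mul]
    ring
  rw [h5] at h4
  have h6 := hC' Y hY ρ hρ
  have hE : 0 ≤ dyE D 1 Y := dyE_nonneg 1 Y
  have hρi : 1 ≤ ρ⁻¹ := (one_le_inv₀ hρ).2 hρ1
  have h7 : dyE D 1 Y ≤ ρ⁻¹ * dyE D 1 Y := by nlinarith
  have h8 : (4 * C ^ 2 * (ρ⁻¹) ^ 2) * (∫ x in D, Real.exp (-(z x / ρ)) * ‖Y x‖ ^ 2) ≤
      (4 * C ^ 2 * (ρ⁻¹) ^ 2) * (C' * ρ * dyE D 1 Y) := mul_le_mul_of_nonneg_left h6 (by positivity)
  have h9 : (4 * C ^ 2 * (ρ⁻¹) ^ 2) * (C' * ρ * dyE D 1 Y) = 4 * C ^ 2 * C' * (ρ⁻¹ * dyE D 1 Y) := by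
    field_simp
  have h10 : 4 * C ^ 2 * dyE D 1 Y ≤ 4 * C ^ 2 * (ρ⁻¹ * dyE D 1 Y) :=
    mul_le_mul_of_nonneg_left h7 (by positivity)
  have h11 : (4 * C ^ 2 * ρ ^ 2) * ∫ x in D, ‖fderiv ℝ (fderiv ℝ Y) x‖ ^ 2 ≤
      (4 * C ^ 2 * (C' + 1)) * (ρ ^ 2 * dyE D 2 Y) := by
    have hE2 : 0 ≤ dyE D 2 Y := dyE_nonneg 2 Y
    calc (4 * C ^ 2 * ρ ^ 2) * ∫ x in D, ‖fderiv ℝ (fderiv ℝ Y) x‖ ^ 2 ≤
        (4 * C ^ 2 * ρ ^ 2) * dyE D 2 Y := mul_le_mul_of_nonneg_left (dyf_E2 Y) (by positivity)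
      _ = 4 * C ^ 2 * 1 * (ρ ^ 2 * dyE D 2 Y) := by ring
      _ ≤ (4 * C ^ 2 * (C' + 1)) * (ρ ^ 2 * dyE D 2 Y) := by
        refine mul_le_mul_of_nonneg_right (mul_le_mul_of_nonneg_left ?_ (by positivity))
          (by positivity)
        linarith
  calc _ ≤ _ := h4
    _ ≤ 4 * C ^ 2 * C' * (ρ⁻¹ * dyE D 1 Y) + 4 * C ^ 2 * (ρ⁻¹ * dyE D 1 Y) +
        (4 * C ^ 2 * (C' + 1)) * (ρ ^ 2 * dyE D 2 Y) := by
        rw [h9] at h8
        exact add_le_add (add_le_add h8 h10) h11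
    _ = 4 * C ^ 2 * (C' + 1) * (ρ⁻¹ * dyE D 1 Y + ρ ^ 2 * dyE D 2 Y) := by ring

end

end Pool.Agent.Lib.MP_79abb3_an.W
end

section

/-!
Theorem W (MP_79abb3_an), block DE: the data of the energy estimate satisfy all hypotheses.
-/

set_option autoImplicit false
set_option linter.unusedSectionVars false

open MeasureTheory Set Filter Topology Function
open scoped ENNReal RealInnerProductSpace

namespace Pool.Agent.Lib.MP_79abb3_an.W

section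
variable {d : ℕ} {D : Set (En d)} {z : En d → ℝ} {δ : ℝ} {I : DIn d} {Ω : Set (En d)} {κ₀ MS M CV δ' γ : ℝ}

/- shortcuts for the instance search -/
noncomputable local instance : NormedAddCommGroup (VD D →L[ℝ] HD D) := ContinuousLinearMap.toNormedAddCommGroup
noncomputable local instance : NormedSpace ℝ (VD D →L[ℝ] HD D) := ContinuousLinearMap.toNormedSpace
noncomputable local instance : NormedAddCommGroup (HD D →L[ℝ] HD D) := ContinuousLinearMap.toNormedAddCommGroup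
noncomputable local instance : NormedSpace ℝ (HD D →L[ℝ] HD D) := ContinuousLinearMap.toNormedSpace

/-- `Bk` bound of `Ds w` -/
theorem Bk.Ds (hD : IsOpen D) {w : En d → En d} (hw : BD D w) {k : ℕ} {M : ℝ} (hM : 0 ≤ M) (h : Bk D (k + 1) M w) :
    Bk D k (‖adjL d‖ * M + (1 + ‖trL d‖) * M) (Ds w) := by
  have hf := h.fderiv
  have hF := (hw.fderiv hD).1
  have e1 : ∀ x, W.Ds w x = (1 / 2 : ℝ) • (adjL d (_root_.fderiv ℝ w x) + (ContinuousLinearMap.id ℝ (En d →L[ℝ] En d) -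
      (trL d).smulRight (ContinuousLinearMap.id ℝ (En d))) (_root_.fderiv ℝ w x)) := fun x => rfl
  have h1 := hf.clm hD (adjL d) hF
  have h2 := hf.clm hD (ContinuousLinearMap.id ℝ (En d →L[ℝ] En d) -
      (trL d).smulRight (ContinuousLinearMap.id ℝ (En d))) hF
  have h3 := (h1.add hD ((adjL d).contDiff.comp_contDiffOn hF) ((ContinuousLinearMap.contDiff _).comp_contDiffOn hF)
    h2).const_smul hD (1 / 2) (((adjL d).contDiff.comp_contDiffOn hF).add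
      ((ContinuousLinearMap.contDiff _).comp_contDiffOn hF))
  have h4 : ‖ContinuousLinearMap.id ℝ (En d →L[ℝ] En d) -
      (trL d).smulRight (ContinuousLinearMap.id ℝ (En d))‖ ≤ 1 + ‖trL d‖ := by
    have h0 : ‖ContinuousLinearMap.id ℝ (En d →L[ℝ] En d)‖ ≤ 1 := ContinuousLinearMap.norm_id_le
    have h0' : ‖(trL d).smulRight (ContinuousLinearMap.id ℝ (En d))‖ ≤ ‖trL d‖ := by
      rw [ContinuousLinearMap.norm_smulRight_apply]
      exact mul_le_of_le_one_right (norm_nonneg _) ContinuousLinearMap.norm_id_le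
    have h00 := norm_sub_le (ContinuousLinearMap.id ℝ (En d →L[ℝ] En d))
      ((trL d).smulRight (ContinuousLinearMap.id ℝ (En d)))
    exact h00.trans (add_le_add h0 h0')
  refine (h3.mono le_rfl ?_)
  rw [abs_of_pos (by norm_num : (0:ℝ) < 1 / 2)]
  have h5 := mul_le_mul_of_nonneg_right h4 hM
  have h6 : 0 ≤ ‖adjL d‖ * M := by positivity
  have h7 : 0 ≤ (1 + ‖trL d‖) * M := by positivity
  linarith

/-- `Bk` bound of `lieF p s` -/
theorem Bk.lieF (hD : IsOpen D) {p s : En d → En d} (hp : BD D p) (hs : BD D s) {k : ℕ} {A B : ℝ} (hA : 0 ≤ A)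
    (hB : 0 ≤ B) (h : Bk D (k + 1) A p) (h' : Bk D (k + 1) B s) :
    Bk D k (2 ^ k * (B * A) + 2 ^ k * (‖adjL d‖ * A * B)) (lieF p s) := by
  have h1 := h'.fderiv.apply hD (hs.fderiv hD).1 hp.1 hB hA (h.mono (Nat.le_succ k) le_rfl)
  have h2 := (h.fderiv.clm hD (adjL d) (hp.fderiv hD).1).apply hD (hp.Dt hD).1 hs.1 (by positivity) hB
    (h'.mono (Nat.le_succ k) le_rfl)
  exact h1.add hD ((hs.fderiv hD).apply hD hp).1 ((hp.Dt hD).apply hD hs).1 h2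

private theorem dek_cont {H V : Type} [NormedAddCommGroup H] [InnerProductSpace ℝ H] [NormedAddCommGroup V]
    [InnerProductSpace ℝ V] (ι : V →L[ℝ] H) {T : ℝ → V →L[ℝ] H} (hT : Continuous T) :
    Continuous fun t => jf (ContinuousLinearMap.id ℝ V) + (jf ι).comp (T t) := by
  have h1 : IsTopologicalAddGroup (V →L[ℝ] V →L[ℝ] ℝ) := inferInstance
  have h2 : ContinuousAdd (V →L[ℝ] V →L[ℝ] ℝ) := h1.toContinuousAdd
  exact continuous_const.add (((jf ι).postcomp V).continuous.comp hT)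

/-- **All hypotheses of the energy estimate.** The constants: `K₀ ≥` the first list, `K ≥` the second list. -/
theorem DIn.OK.E_OK (hI : I.OK D Ω z κ₀ MS M CV δ' γ) (hD : IsOpen D) (hb : Bornology.IsBounded D) (m : ℕ)
    {CN CH K₀ K KS Ks : ℝ}
    (hCN : ∀ u v w : VD D,
      |⟪Nm D m (io D u) v, io D w⟫| ≤ CN * (‖io D u‖ ^ (1 / 4 : ℝ) * ‖u‖ ^ (3 / 4 : ℝ)) * ‖v‖ *
      (‖io D w‖ ^ (1 / 4 : ℝ) * ‖w‖ ^ (3 / 4 : ℝ)))
    (hCH : ∀ w : En d → En d, BD D w → ∀ κ : ℝ,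
      (∀ x ∈ D, z x * ‖w x‖ ≤ κ) → (∀ x ∈ D, z x ^ 2 * ‖fderiv ℝ w x‖ ≤ κ) →
      ∀ v φ : VD D, |⟪TvD D w v, io D φ⟫| ≤ CH * κ * ‖v‖ * ‖φ‖)
    (hκ : CH * κ₀ ≤ 1 / 8)
    (hbM : 1 / I.b ≤ M)
    (hKS : ∀ A : En d → (En d →L[ℝ] En d), BD D A → Bk D 3 (‖adjL d‖ * M + (1 + ‖trL d‖) * M) A →
      ∀ q : ℝ, 1 ≤ q → ∀ v : VD D, ∃ y : VD D, ‖y‖ ≤ KS * q ^ 5 * ‖v‖ ∧
        ‖MuD D A (io D v) - io D y‖ ≤ KS / q ^ 5 * ‖v‖ ∧
        ∀ e : VD D, |⟪io D e, MuD D A (io D v) - io D y⟫| ≤ KS / q ^ 15 * ‖e‖ * ‖v‖)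
    (hKs : ∀ F : En d → En d, BD D F →
      Bk D 2 (2 ^ 2 * (M * M) + 2 ^ 2 * (‖adjL d‖ * M * M)) F → ∀ q : ℝ, 1 ≤ q → ∃ y : VD D, ‖y‖ ≤ Ks * q ^ 5 ∧
        ‖PcD D F - io D y‖ ≤ Ks / q ^ 5 ∧ ∀ e : VD D, |⟪io D e, PcD D F - io D y⟫| ≤ Ks / q ^ 15 * ‖e‖)
    (k1 : 1 ≤ K₀) (k2 : ‖io D‖ ≤ K₀) (k3 : CN ≤ K₀)
    (k4 : 9 / 8 + max MS 0 * (1 + ‖io D‖) * ‖io D‖ ≤ K₀) (k5 : 2 * max MS 0 ^ 2 + max MS 0 ≤ K₀)
    (l1 : K₀ ≤ K) (l2 : M ≤ K) (l3 : M * (2 * (M * (1 + ‖io D‖))) ≤ K)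
    (l4 : M * (2 * (((1 + d) * M) * (1 + ‖io D‖))) ≤ K) (l5 : M * (2 * ((1 + d) * M)) ≤ K)
    (l6 : M * (2 * (√(volume.real D) * (2 * M * M))) ≤ K) (l7 : √(volume.real D) * (2 * M) ≤ K)
    (l8 : M * (2 * KS) ≤ K) (l9 : M * (2 * Ks) ≤ K) :
    (hI.E hD hb m).OK K₀ K CV δ' γ := by
  have hM := hI.M0
  have hq := hI.q1
  have hq0 := hI.q0
  have hn : ∀ {x : ℝ}, 0 ≤ x → I.wv.n * (2 * x) ≤ M * (2 * x) := fun hx => hI.n_le hx
  have h41 : ∀ {p : En d → En d}, Bk D 4 M p → Bk D 1 M p := fun h => h.mono (by norm_num) le_rfl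
  set MS' := max MS 0 with hMS'
  have hMS0 : 0 ≤ MS' := le_max_right _ _
  have hSe : ∀ t ∈ Icc (0:ℝ) 1, Bk D 1 MS' (I.Se t) := fun t ht => (hI.Seb t ht).mono le_rfl (le_max_left _ _)
  have hioP : ∀ v : VD D, ‖io D v‖ ≤ ‖io D‖ * ‖v‖ := fun v => (io D).le_opNorm v
  have hR : ∀ t ∈ Icc (0:ℝ) 1, ∀ v φ : VD D, |⟪TvD D (I.R t) v, io D φ⟫| ≤ 1 / 8 * ‖v‖ * ‖φ‖ := by
    intro t ht v φ
    refine (hCH (I.R t) (hI.sR.bd hD t) κ₀ (hI.Rz t ht) (hI.Rz' t ht) v φ).trans ?_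
    exact mul_le_mul_of_nonneg_right (mul_le_mul_of_nonneg_right hκ (norm_nonneg _)) (norm_nonneg _)
  have hS : ∀ t ∈ Icc (0:ℝ) 1, ∀ v φ : VD D, |⟪TvD D (I.Se t) v, io D φ⟫| ≤
      MS' * (‖v‖ + ‖io D v‖) * ‖io D φ‖ := fun t ht v φ =>
    TvD_bdd hMS0 (fun x hx => (hSe t ht).le0 hx) (fun x hx => (hSe t ht).le1 hx) v φ
  constructor
  case q1 => exact hq
  case b0 => exact hI.b0
  case b1 => exact hI.b1
  case K₀1 => exact k1
  case K₀K => exact l1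
  case bK => exact hbM.trans l2
  case CV0 => exact hI.CV0
  case CVK => exact hI.CVM.trans l2
  case δ0 => exact hI.δ0
  case δ1 => exact hI.δ1
  case γ0 => exact hI.γ0
  case γ1 => exact hI.γ1
  case ιb => exact k2
  case Ab =>
    intro θ
    exact ((tp_le _ _ _ (fun j => LvD_norm_le hM (h41 (hI.kp j))) (fun j => LvD_norm_le hM (h41 (hI.kr j))) θ).trans
      (hn (by positivity))).trans l3
  case A'b =>
    intro θ
    exact ((tp_le _ _ _ (fun j => LpD_norm_le hM (h41 (hI.kp j))) (fun j => LpD_norm_le hM (h41 (hI.kr j))) θ).trans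
      (hn (by positivity))).trans l4
  case Bb =>
    intro θ
    exact ((tq_le _ _ _ hI.α0 (fun j => LvD_norm_le hM (h41 (hI.kp j))) (fun j => LvD_norm_le hM (h41 (hI.kr j)))
      θ).trans (hn (by positivity))).trans l3
  case Sb =>
    intro θ
    exact ((tp_le _ _ _ (fun j => MuDs_norm_le hM (h41 (hI.kp j))) (fun j => MuDs_norm_le hM (h41 (hI.kr j)))
      θ).trans (hn (by positivity))).trans l5
  case c0 =>
    intro u v
    exact Nm_skew hb m (io D u) v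
  case cb =>
    intro u v φ
    refine (hCN u v φ).trans ?_
    have h1 : 0 ≤ ‖io D u‖ ^ (1 / 4 : ℝ) * ‖u‖ ^ (3 / 4 : ℝ) := by positivity
    have h2 : 0 ≤ ‖io D φ‖ ^ (1 / 4 : ℝ) * ‖φ‖ ^ (3 / 4 : ℝ) := by positivity
    exact mul_le_mul_of_nonneg_right (mul_le_mul_of_nonneg_right (mul_le_mul_of_nonneg_right k3 h1)
      (norm_nonneg _)) h2
  case n0 => intro v; exact mul_nonneg (by positivity) (by positivity)
  case nb =>
    intro v η hη _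
    exact nu_young (norm_nonneg _) (norm_nonneg _) hη k1
  case cd =>
    refine Continuous.continuousOn ?_
    have h1 : Continuous fun t => TvD D (I.R t) + TvD D (I.Se t) :=
      (hI.sR.map_cont hD (linD_TvD hD)).add (hI.sSe.map_cont hD (linD_TvD hD))
    exact dek_cont (io D) h1
  case db =>
    intro t ht v φ
    have e1 : (hI.E hD hb m).d t v φ = ⟪v, φ⟫ + (⟪TvD D (I.R t) v, io D φ⟫ + ⟪TvD D (I.Se t) v, io D φ⟫) :=
      I.dF_apply D t v φ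
    rw [e1]
    have h1 := abs_real_inner_le_norm v φ
    have h2 := hR t ht v φ
    have h3 := hS t ht v φ
    have h4 : MS' * (‖v‖ + ‖io D v‖) * ‖io D φ‖ ≤ MS' * (1 + ‖io D‖) * ‖io D‖ * (‖v‖ * ‖φ‖) := by
      have e2 : MS' * (‖v‖ + ‖io D v‖) ≤ MS' * ((1 + ‖io D‖) * ‖v‖) :=
        mul_le_mul_of_nonneg_left (by have := hioP v; linarith) hMS0
      calc MS' * (‖v‖ + ‖io D v‖) * ‖io D φ‖ ≤ MS' * ((1 + ‖io D‖) * ‖v‖) * (‖io D‖ * ‖φ‖) :=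
            mul_le_mul e2 (hioP φ) (norm_nonneg _) (by positivity)
        _ = _ := by ring
    have h5 : (9 / 8 + MS' * (1 + ‖io D‖) * ‖io D‖) * (‖v‖ * ‖φ‖) ≤ K₀ * (‖v‖ * ‖φ‖) :=
      mul_le_mul_of_nonneg_right k4 (by positivity)
    have h6 := abs_add_three ⟪v, φ⟫ ⟪TvD D (I.R t) v, io D φ⟫ ⟪TvD D (I.Se t) v, io D φ⟫
    rw [add_assoc] at h6
    linarith
  case dc =>
    intro t ht v
    have e1 : (hI.E hD hb m).d t v v = ⟪v, v⟫ + (⟪TvD D (I.R t) v, io D v⟫ + ⟪TvD D (I.Se t) v, io D v⟫) :=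
      I.dF_apply D t v v
    rw [e1, real_inner_self_eq_norm_sq]
    have h2 := neg_le_of_abs_le (hR t ht v v)
    have h3 := neg_le_of_abs_le (hS t ht v v)
    have h4 : MS' * (‖v‖ + ‖io D v‖) * ‖io D v‖ ≤ 1 / 8 * ‖v‖ ^ 2 + (2 * MS' ^ 2 + MS') * ‖io D v‖ ^ 2 := by
      nlinarith [sq_nonneg (‖v‖ - 4 * (MS' * ‖io D v‖))]
    have h5 : (2 * MS' ^ 2 + MS') * ‖io D v‖ ^ 2 ≤ K₀ * ‖io D v‖ ^ 2 := mul_le_mul_of_nonneg_right k5 (sq_nonneg _)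
    show 3 / 4 * ‖v‖ ^ 2 - K₀ * ‖io D v‖ ^ 2 ≤ _
    nlinarith
  case cg =>
    refine Continuous.continuousOn ?_
    have h1 : Continuous fun t => PcD D (I.r t) := hI.ss.map_cont hD (linD_PcD hD hb)
    exact (((jf (io D)).continuous.comp h1).const_smul I.b).neg
  case gb =>
    intro t ht
    refine ContinuousLinearMap.opNorm_le_bound _ hI.γ0 fun φ => ?_
    have e1 : (hI.E hD hb m).g t φ = -(I.b * ⟪PcD D (I.r t), io D φ⟫) := rfl
    rw [e1, norm_neg, norm_mul, Real.norm_eq_abs, Real.norm_eq_abs, abs_of_pos hI.b0,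
      inner_PcD hD.measurableSet hb ((hI.ss.bd hD t).bm hD)]
    exact hI.rb t ht φ
  case m0 =>
    intro x
    have e1 : ⟪(hI.E hD hb m).m x, x⟫ = ⟪MuD D (fun x => I.χ x • ContinuousLinearMap.id ℝ (En d)) x, x⟫ := rfl
    rw [e1, hI.inner_m hD]
    refine integral_nonneg fun y => mul_nonneg (hI.χ0 y) ?_
    exact real_inner_self_nonneg
  case mb =>
    refine (MuD_le hM fun x _ => ?_).trans l2
    rw [norm_smul, Real.norm_eq_abs, abs_of_nonneg (hI.χ0 x)]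
    calc I.χ x * _ ≤ I.χ x * 1 := mul_le_mul_of_nonneg_left ContinuousLinearMap.norm_id_le (hI.χ0 x)
      _ ≤ M := by rw [mul_one]; exact hI.χM x
  case ab => exact hI.a1
  case al =>
    intro t ht r hr
    have h1 := (convex_Icc (0:ℝ) 1).norm_image_sub_le_of_norm_hasDerivWithin_le
      (f := I.a) (f' := fun t => deriv I.a t) (C := M)
      (fun x _ => ((hI.as.differentiable (by norm_num)) x).hasDerivAt.hasDerivWithinAt)
      (fun x hx => by rw [Real.norm_eq_abs]; exact hI.a' x hx) hr ht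
    rw [Real.norm_eq_abs, Real.norm_eq_abs] at h1
    exact h1.trans (mul_le_mul_of_nonneg_right l2 (abs_nonneg _))
  case cas => exact (hI.cas hD hb).continuousOn
  case asb => intro t ht θ; exact (hI.asb hD hb ht θ).trans l6
  case asl =>
    intro t ht r hr θ
    exact (hI.asl hD hb ht hr θ).trans (mul_le_mul_of_nonneg_right l6 (abs_nonneg _))
  case pas => intro t _ θ; exact tp_per _ _ _ θ
  case dbs => intro t _ θ; exact tq_deriv _ _ _ hI.α0 θ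
  case bsb => intro t ht θ; exact (hI.bsb hD hb ht θ).trans l6
  case bsl =>
    intro t ht r hr θ
    exact (hI.bsl hD hb ht hr θ).trans (mul_le_mul_of_nonneg_right l6 (abs_nonneg _))
  case pbs => intro t _ θ; exact tq_per _ _ _ θ
  case cs' => exact (hI.csF hD hb).continuousOn
  case s'b => intro t ht; exact (hI.sFb hD hb ht).trans l7
  case drb => intro v; exact hI.drb hD hb v
  case drδ => intro t ht φ; exact hI.drδ hD hb ht φ
  case yS =>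
    intro θ v
    have hA : ∀ p : En d → En d, BD D p → Bk D 4 M p → ∃ y : VD D, AppV (io D) (KS * I.q ^ 5 * ‖v‖)
        (KS / I.q ^ 5 * ‖v‖) (KS / I.q ^ 15 * ‖v‖) (MuD D (Ds p) (io D v)) y := by
      intro p hp hpM
      obtain ⟨y, h1, h2, h3⟩ := hKS (Ds p) (hp.Ds hD) (hpM.Ds hD hp hM) I.q hq v
      exact ⟨y, h1, h2, fun e => (h3 e).trans (le_of_eq (by ring))⟩
    choose y hy using fun j => hA _ (hI.bp j) (hI.kp j)
    choose y' hy' using fun j => hA _ (hI.br j) (hI.kr j)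
    have h1 := AppV.tp (α := I.wv.α) hy hy' θ
    have h2 : (hI.E hD hb m).S θ ((hI.E hD hb m).ι v) =
        tp I.wv.α (fun j => MuD D (Ds (I.wv.p j)) (io D v)) (fun j => MuD D (Ds (I.wv.r j)) (io D v)) θ := by
      show tp I.wv.α (fun j => MuD D (Ds (I.wv.p j))) (fun j => MuD D (Ds (I.wv.r j))) θ (io D v) = _
      simp only [tp, sum_apply, add_apply, smul_apply]
    have hKS0 : 0 ≤ KS ∨ KS < 0 := le_or_gt 0 KS
    refine ⟨tp I.wv.α y y' θ, ?_, ?_, fun e => ?_⟩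
    · refine h1.a.trans ?_
      have h3 : (I.wv.n : ℝ) * (2 * (KS * I.q ^ 5 * ‖v‖)) ≤ K * I.q ^ 5 * ‖v‖ := by
        have h4 : (I.wv.n : ℝ) * (2 * KS) ≤ K := by
          rcases hKS0 with h | h
          · exact (hn h).trans l8
          · have h5 : (I.wv.n : ℝ) * (2 * KS) ≤ 0 :=
              mul_nonpos_of_nonneg_of_nonpos (Nat.cast_nonneg _) (by linarith)
            linarith
        have h5 : 0 ≤ I.q ^ 5 * ‖v‖ := by positivity
        have h6 := mul_le_mul_of_nonneg_right h4 h5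
        linarith
      exact h3
    · rw [h2]
      refine h1.b.trans ?_
      have h4 : (I.wv.n : ℝ) * (2 * KS) ≤ K := by
        rcases hKS0 with h | h
        · exact (hn h).trans l8
        · have h5 : (I.wv.n : ℝ) * (2 * KS) ≤ 0 :=
            mul_nonpos_of_nonneg_of_nonpos (Nat.cast_nonneg _) (by linarith)
          linarith
      have h5 : 0 ≤ (I.q ^ 5)⁻¹ * ‖v‖ := by positivity
      have h6 := mul_le_mul_of_nonneg_right h4 h5
      show _ ≤ K / I.q ^ 5 * ‖v‖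
      rw [div_eq_mul_inv, div_eq_mul_inv]
      linarith
    · rw [h2]
      refine (h1.c e).trans ?_
      have h4 : (I.wv.n : ℝ) * (2 * KS) ≤ K := by
        rcases hKS0 with h | h
        · exact (hn h).trans l8
        · have h5 : (I.wv.n : ℝ) * (2 * KS) ≤ 0 :=
            mul_nonpos_of_nonneg_of_nonpos (Nat.cast_nonneg _) (by linarith)
          linarith
      have h5 : 0 ≤ (I.q ^ 15)⁻¹ * ‖v‖ * ‖e‖ := by positivity
      have h6 := mul_le_mul_of_nonneg_right h4 h5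
      show _ ≤ K / I.q ^ 15 * ‖e‖ * ‖v‖
      rw [div_eq_mul_inv, div_eq_mul_inv]
      linarith
  case ys =>
    intro t ht θ
    have hA : ∀ p : En d → En d, BD D p → Bk D 4 M p → ∃ y : VD D, AppV (io D) (Ks * I.q ^ 5)
        (Ks / I.q ^ 5) (Ks / I.q ^ 15) (PcD D (lieF p (I.Sa t))) y := by
      intro p hp hpM
      have hs := hI.sSa.bd hD t
      obtain ⟨y, h1, h2, h3⟩ := hKs (lieF p (I.Sa t)) (hp.lieF hD hs)
        (Bk.lieF hD hp hs hM hM (hpM.mono (by norm_num) le_rfl) (hI.Sab t ht)) I.q hq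
      exact ⟨y, h1, h2, h3⟩
    choose y hy using fun j => hA _ (hI.bp j) (hI.kp j)
    choose y' hy' using fun j => hA _ (hI.br j) (hI.kr j)
    have h1 := AppV.tp (α := I.wv.α) hy hy' θ
    have h4 : (I.wv.n : ℝ) * (2 * Ks) ≤ K := by
      rcases le_or_gt 0 Ks with h | h
      · exact (hn h).trans l9
      · have h5 : (I.wv.n : ℝ) * (2 * Ks) ≤ 0 :=
          mul_nonpos_of_nonneg_of_nonpos (Nat.cast_nonneg _) (by linarith)
        linarith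
    refine ⟨tp I.wv.α y y' θ, ?_, ?_, fun e => ?_⟩
    · refine h1.a.trans ?_
      have h6 := mul_le_mul_of_nonneg_right h4 (by positivity : 0 ≤ I.q ^ 5)
      show _ ≤ K * I.q ^ 5
      linarith
    · refine h1.b.trans ?_
      have h6 := mul_le_mul_of_nonneg_right h4 (by positivity : 0 ≤ (I.q ^ 5)⁻¹)
      show _ ≤ K / I.q ^ 5
      rw [div_eq_mul_inv, div_eq_mul_inv]
      linarith
    · refine (h1.c e).trans ?_
      have h6 := mul_le_mul_of_nonneg_right h4 (by positivity : 0 ≤ (I.q ^ 15)⁻¹)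
      have h7 := mul_le_mul_of_nonneg_right h6 (norm_nonneg e)
      show _ ≤ K / I.q ^ 15 * ‖e‖
      rw [div_eq_mul_inv, div_eq_mul_inv]
      linarith

end

end Pool.Agent.Lib.MP_79abb3_an.W
end

section

/-!
Theorem W, block DY, part b2: energies and the norms of block B.
-/

set_option autoImplicit false
set_option linter.unusedSectionVars false

open MeasureTheory Set Filter Topology Function
open scoped ENNReal NNReal RealInnerProductSpace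

namespace Pool.Agent.Lib.MP_79abb3_an.W

section
variable {d : ℕ} {D : Set (En d)} {z : En d → ℝ} {δ : ℝ}

variable {F : Type} [NormedAddCommGroup F] [NormedSpace ℝ F]

private theorem dyb2_open (h : Dom D z δ) : IsOpen D := by
  have h1 : D = z ⁻¹' Ioi 0 := by
    ext x
    exact h.pos x
  rw [h1]
  exact isOpen_Ioi.preimage (ContDiff.continuous h.smo)

private theorem dyb2_term (h : Dom D z δ) {Y : En d → F} (hY : BD D Y) (j : ℕ) :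
    ∫ x in D, ‖iteratedFDeriv ℝ j Y x‖ ^ 2 =
      (eLpNorm (fun x => iteratedFDeriv ℝ j Y x) 2 (volume.restrict D)).toReal ^ 2 := by
  have ho := dyb2_open h
  have hc : ContinuousOn (iteratedFDeriv ℝ j Y) D := by
    have h1 := hY.1.continuousOn_iteratedFDerivWithin (m := j) (by exact_mod_cast le_top) ho.uniqueDiffOn
    exact h1.congr fun x hx => (iteratedFDerivWithin_of_isOpen j ho hx).symm
  have hm : AEStronglyMeasurable (fun x => iteratedFDeriv ℝ j Y x) (volume.restrict D) :=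
    hc.aestronglyMeasurable ho.measurableSet
  have hL : MemLp (fun x => iteratedFDeriv ℝ j Y x) 2 (volume.restrict D) :=
    (memLp_two_iff_integrable_sq_norm hm).2 (dyE_int h hY j)
  rw [hL.eLpNorm_eq_integral_rpow_norm two_ne_zero ENNReal.ofNat_ne_top]
  have h0 : 0 ≤ ∫ x in D, ‖iteratedFDeriv ℝ j Y x‖ ^ 2 := integral_nonneg fun _ => by positivity
  simp only [ENNReal.toReal_ofNat, Real.rpow_two]
  rw [ENNReal.toReal_ofReal (Real.rpow_nonneg h0 _), ← Real.rpow_natCast, ← Real.rpow_mul h0]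
  norm_num

/-- comparison with the norms of block B -/
theorem dyE_Hn (h : Dom D z δ) {Y : En d → F} (hY : BD D Y) (k : ℕ) : B.Hn D k Y ≠ ⊤ ∧
    dyE D k Y ≤ (B.Hn D k Y).toReal ^ 2 ∧ (B.Hn D k Y).toReal ^ 2 ≤ (k + 1) * dyE D k Y := by
  have hne : B.Hn D k Y ≠ ⊤ := B.BB.Hn_ne_top (dyb2_open h) h.bdd hY k
  have hne' : ∀ j ∈ Finset.range (k + 1),
      eLpNorm (fun x => iteratedFDeriv ℝ j Y x) 2 (volume.restrict D) ≠ ⊤ := by
    intro j hj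
    exact ne_top_of_le_ne_top hne (Finset.single_le_sum
      (f := fun j => eLpNorm (fun x => iteratedFDeriv ℝ j Y x) 2 (volume.restrict D)) (fun _ _ => bot_le) hj)
  have e1 : (B.Hn D k Y).toReal = ∑ j ∈ Finset.range (k + 1),
      (eLpNorm (fun x => iteratedFDeriv ℝ j Y x) 2 (volume.restrict D)).toReal := by
    unfold B.Hn
    exact ENNReal.toReal_sum hne'
  have e2 : dyE D k Y = ∑ j ∈ Finset.range (k + 1),
      (eLpNorm (fun x => iteratedFDeriv ℝ j Y x) 2 (volume.restrict D)).toReal ^ 2 :=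
    Finset.sum_congr rfl fun j _ => dyb2_term h hY j
  refine ⟨hne, ?_, ?_⟩
  · rw [e1, e2]
    set a : ℕ → ℝ := fun j => (eLpNorm (fun x => iteratedFDeriv ℝ j Y x) 2 (volume.restrict D)).toReal with ha
    have ha0 : ∀ j, 0 ≤ a j := fun j => ENNReal.toReal_nonneg
    show ∑ j ∈ Finset.range (k + 1), a j ^ 2 ≤ (∑ j ∈ Finset.range (k + 1), a j) ^ 2
    rw [sq (∑ j ∈ Finset.range (k + 1), a j), Finset.sum_mul]
    refine Finset.sum_le_sum fun j hj => ?_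
    rw [sq]
    exact mul_le_mul_of_nonneg_left (Finset.single_le_sum (fun i _ => ha0 i) hj) (ha0 j)
  · rw [e1, e2]
    refine (sq_sum_le_card_mul_sum_sq (s := Finset.range (k + 1))
      (f := fun j => (eLpNorm (fun x => iteratedFDeriv ℝ j Y x) 2 (volume.restrict D)).toReal)).trans
      (le_of_eq ?_)
    rw [Finset.card_range]
    push_cast
    rfl

end

end Pool.Agent.Lib.MP_79abb3_an.W
end

section

/-!
Theorem W, block DY, part b3: the Leray projection with energy estimates.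
-/

set_option autoImplicit false
set_option linter.unusedSectionVars false

open MeasureTheory Set Filter Topology Function
open scoped ENNReal NNReal RealInnerProductSpace

namespace Pool.Agent.Lib.MP_79abb3_an.W

section
variable {d : ℕ} {D : Set (En d)} {z : En d → ℝ} {δ : ℝ}

/-- **The Leray projection of a field of class `BD`** (`B.Dom.leray`, `B.Dom.isQ_of_classical`, `PD_of_IsQ`). -/
theorem dy_leray (h : Dom D z δ) : ∃ C : ℕ → ℝ, (∀ k, 0 ≤ C k) ∧ ∀ F : En d → En d, BD D F → ∃ Y : En d → En d,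
    BD D Y ∧ (∀ x ∈ D, dv Y x = 0) ∧ Oz D z (fun x => ⟪gradient z x, Y x⟫) ∧
      ((PcD D F : HD D) : L2E d) = cl (D.indicator Y) ∧ ∀ k, dyE D k Y ≤ C k * dyE D k F := by
  obtain ⟨C, hC⟩ := h.toB.leray
  refine ⟨fun k => (C k : ℝ) ^ 2 * (k + 1), fun k => by positivity, fun F hF => ?_⟩
  have hDo : IsOpen D := h.toB.isOpen
  obtain ⟨v, q, hv, hq, hFv, hdiv, hn, hE, -⟩ := hC F hF
  have hg : ∀ x, gradient q x = F x - v x := fun x => by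
    rw [hFv x]
    abel
  have hgf : gradient q = fun x => F x - v x := funext hg
  have hdF : ∀ x ∈ D, DifferentiableAt ℝ F x := fun x hx =>
    (hF.1.differentiableOn (by norm_num)).differentiableAt (hDo.mem_nhds hx)
  have hdv : ∀ x ∈ D, DifferentiableAt ℝ v x := fun x hx =>
    (hv.1.differentiableOn (by norm_num)).differentiableAt (hDo.mem_nhds hx)
  have h0 : B.BB D (fun _ : En d => (0 : ℝ)) := by
    refine ⟨contDiffOn_const, fun k => ⟨0, fun x _ => ?_⟩⟩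
    rw [show (fun _ : En d => (0 : ℝ)) = 0 from rfl, iteratedFDeriv_zero]
    simp
  have hQ : B.IsQ D F (fun _ => 0) (gradient q) := by
    refine h.toB.isQ_of_classical hq hF h0 (fun x hx => ?_) ?_
    · have h1 := hdiv x hx
      rw [add_zero, hgf]
      unfold B.divg at h1 ⊢
      rw [fderiv_fun_sub (hdF x hx) (hdv x hx)]
      have h2 : ∀ i : Fin d, (fderiv ℝ F x - fderiv ℝ v x) (B.ee i) i =
          fderiv ℝ F x (B.ee i) i - fderiv ℝ v x (B.ee i) i := fun i => rfl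
      rw [Finset.sum_congr rfl fun i _ => h2 i, Finset.sum_sub_distrib, h1, sub_zero]
    · obtain ⟨M, hM⟩ := hn
      refine ⟨M, fun x hx => ?_⟩
      have h2 : ⟪gradient z x, gradient q x - F x⟫ = -⟪gradient z x, v x⟫ := by
        rw [hg x, ← inner_neg_right]
        congr 1
        abel
      show ‖⟪gradient z x, gradient q x - F x⟫‖ ≤ M * z x
      rw [h2, norm_neg]
      exact hM x hx
  refine ⟨v, hv, hdiv, hn, ?_, fun k => ?_⟩
  · have h1 := PD_of_IsQ h hQ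
    have h2 : (fun x => F x - gradient q x) = v := by
      funext x
      rw [hg x]
      abel
    rw [h2] at h1
    exact h1
  · obtain ⟨-, k1, -⟩ := dyE_Hn h hv k
    obtain ⟨k2, -, k3⟩ := dyE_Hn h hF k
    have k4 : (B.Hn D k v).toReal ≤ C k * (B.Hn D k F).toReal := by
      have h1 := ENNReal.toReal_mono (ENNReal.mul_ne_top ENNReal.coe_ne_top k2) (hE k)
      rwa [ENNReal.toReal_mul, ENNReal.coe_toReal] at h1
    calc dyE D k v ≤ (B.Hn D k v).toReal ^ 2 := k1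
      _ ≤ (C k * (B.Hn D k F).toReal) ^ 2 := pow_le_pow_left₀ ENNReal.toReal_nonneg k4 2
      _ = (C k : ℝ) ^ 2 * (B.Hn D k F).toReal ^ 2 := by rw [mul_pow]
      _ ≤ (C k : ℝ) ^ 2 * ((k + 1) * dyE D k F) :=
          mul_le_mul_of_nonneg_left k3 (by positivity)
      _ = (C k : ℝ) ^ 2 * (k + 1) * dyE D k F := by rw [mul_assoc]

end

end Pool.Agent.Lib.MP_79abb3_an.W
end

section

/-!
Theorem W, block DY, part f2: the competitor.
-/

set_option autoImplicit false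
set_option linter.unusedSectionVars false

open MeasureTheory Set Filter Topology Function
open scoped ENNReal RealInnerProductSpace

namespace Pool.Agent.Lib.MP_79abb3_an.W

section
variable {d : ℕ} {D : Set (En d)} {z : En d → ℝ} {δ : ℝ}

private theorem dyf2_sqrt {x a b : ℝ} (_ : 0 ≤ x) (ha : 0 ≤ a) (hb : 0 ≤ b) (h : x ^ 2 ≤ a * b ^ 2) :
    x ≤ √a * b := by
  refine le_of_sq_le_sq ?_ (by positivity)
  rw [mul_pow, Real.sq_sqrt ha]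
  exact h

/-- the competitor: `y = Y - K` (`BD_mem_VD`, `dyK_Oz`, `dyC_dv`) -/
theorem dy_comp (h : Dom D z δ) : ∃ C, 0 ≤ C ∧ ∀ F : En d → En d, BD D F → ∀ r N : ℝ, 0 < r → r ≤ 1 → 0 ≤ N →
    dyE D 1 F ≤ N ^ 2 → r ^ 6 * dyE D 2 F ≤ N ^ 2 →
    ∃ y : VD D, ‖PcD D F - io D y‖ ≤ C * (r * N) ∧ ‖y‖ ≤ C * (r⁻¹ * N) := by
  obtain ⟨CL, hCL, hleray⟩ := dy_leray h
  obtain ⟨C1, hC1, hL2⟩ := dyK_L2 h
  obtain ⟨C2, hC2, hH1⟩ := dyK_H1 h
  have hO := h.isOpen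
  have hm := hO.measurableSet
  have hb := h.bdd
  obtain ⟨A, hA⟩ : ∃ A, A = C1 * CL 1 := ⟨_, rfl⟩
  obtain ⟨B, hB⟩ : ∃ B, B = (d : ℝ) * (2 * (CL 1 + C2 * (CL 1 + CL 2))) := ⟨_, rfl⟩
  have h1L := hCL 1
  have h2L := hCL 2
  have hA0 : 0 ≤ A := by rw [hA]; positivity
  have hB0 : 0 ≤ B := by rw [hB]; positivity
  refine ⟨√A + √B, by positivity, ?_⟩
  intro F hF r N hr hr1 hN hE1 hE2
  obtain ⟨Y, hY, hYd, hYn, hYP, hYE⟩ := hleray F hF
  obtain ⟨ρ, hρ⟩ : ∃ ρ, ρ = r ^ 2 := ⟨_, rfl⟩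
  have hρ0 : 0 < ρ := by rw [hρ]; positivity
  have hρ1 : ρ ≤ 1 := by rw [hρ]; exact pow_le_one₀ hr.le hr1
  have hK := dyK_bd h ρ hY
  have hv := hY.sub hO hK
  have hY1 : dyE D 1 Y ≤ CL 1 * N ^ 2 := (hYE 1).trans (mul_le_mul_of_nonneg_left hE1 h1L)
  have hY2 : r ^ 6 * dyE D 2 Y ≤ CL 2 * N ^ 2 := by
    have e1 := mul_le_mul_of_nonneg_left (hYE 2) (show 0 ≤ r ^ 6 by positivity)
    have e2 := mul_le_mul_of_nonneg_left hE2 h2L
    nlinarith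
  have hY10 := dyE_nonneg (D := D) 1 Y
  have hY20 := dyE_nonneg (D := D) 2 Y
  -- divergence
  have hvd : ∀ x ∈ D, dv (fun x => Y x - dyK z ρ Y x) x = 0 := by
    intro x hx
    have e1 : dv (dyK z ρ Y) x = 0 :=
      dyC_dv hO (Smo.bd hb (dyg_smo h.smo ρ)) (Smo.bd hb h.smo.gd) hY hx
    rw [dv_eq, fderiv_fun_sub (hY.differentiableAt hO hx) (hK.differentiableAt hO hx), map_sub, ← dv_eq, ← dv_eq,
      hYd x hx, e1, sub_zero]
  obtain ⟨Cz, hCz⟩ := dyK_Oz h hρ0 hY hYd hYn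
  obtain ⟨M, hM0, hM⟩ := hv.exists_Bk 1
  obtain ⟨Z, hZ⟩ : ∃ Z, Z = max Cz M := ⟨_, rfl⟩
  have hz : ∀ x ∈ D, 0 < z x := fun x hx => (h.pos x).1 hx
  have hpd : ∀ (f : En d → En d) (x : En d) (i : Fin d), ‖pd i f x‖ ≤ ‖fderiv ℝ f x‖ := by
    intro f x i
    have e1 : ‖(ei i : En d)‖ = 1 := by unfold ei; simp
    have e2 := (fderiv ℝ f x).le_opNorm (ei i)
    rw [e1, mul_one] at e2
    exact e2
  obtain ⟨w, hw1, hw2⟩ := BD_mem_VD h (C := Z) hv.1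
    (fun x hx => (hCz x hx).trans (mul_le_mul_of_nonneg_right (by rw [hZ]; exact le_max_left _ _) (hz x hx).le))
    (fun x hx i => (hpd _ x i).trans ((hM.le1 hx).trans (by rw [hZ]; exact le_max_right _ _))) hvd
  refine ⟨w, ?_, ?_⟩
  · -- the distance
    have e1 : ((PcD D F - io D w : HD D) : L2E d) = cl (D.indicator (dyK z ρ Y)) := by
      have e2 : ((PcD D F - io D w : HD D) : L2E d) = ((PcD D F : HD D) : L2E d) - ((io D w : HD D) : L2E d) := rfl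
      rw [e2, hYP, hw1]
      have e3 : cl (D.indicator Y) = cl (D.indicator (fun x => Y x - dyK z ρ Y x)) + cl (D.indicator (dyK z ρ Y)) := by
        rw [← clI_add hb (BD.bm hO hv) (BD.bm hO hK)]
        exact clI_congr fun x _ => by simp
      rw [e3, add_sub_cancel_left]
    have e4 : ‖PcD D F - io D w‖ ^ 2 ≤ A * (r * N) ^ 2 := by
      have e5 : ‖PcD D F - io D w‖ = ‖cl (D.indicator (dyK z ρ Y))‖ := by
        rw [← e1]; rfl
      rw [e5, clI_norm_sq hm hb (BD.bm hO hK)]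
      refine (hL2 ρ hρ0 hρ1 Y hY hYd).trans ?_
      have e6 := mul_le_mul_of_nonneg_left hY1 (show 0 ≤ C1 * ρ by positivity)
      refine e6.trans (le_of_eq ?_)
      rw [hA, hρ]
      ring
    have e7 := dyf2_sqrt (norm_nonneg _) hA0 (by positivity) e4
    refine e7.trans (mul_le_mul_of_nonneg_right ?_ (by positivity))
    have := Real.sqrt_nonneg B
    linarith
  · -- the norm
    have e1 : ‖w‖ ^ 2 = ∑ i, ∫ x in D, ‖pd i (fun x => Y x - dyK z ρ Y x) x‖ ^ 2 := by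
      rw [norm_sq_gi]
      refine Finset.sum_congr rfl fun i _ => ?_
      rw [hw2 i, clI_norm_sq hm hb (BD.bm hO (hv.pd hO i))]
    have i1 : IntegrableOn (fun x => ‖fderiv ℝ Y x‖ ^ 2) D := by
      have := dyE_int h hY 1
      refine this.congr_fun (fun x _ => ?_) hm
      show ‖iteratedFDeriv ℝ 1 Y x‖ ^ 2 = ‖fderiv ℝ Y x‖ ^ 2
      rw [← zero_add 1, ← norm_iteratedFDeriv_fderiv, norm_iteratedFDeriv_zero]
    have i2 : IntegrableOn (fun x => ‖fderiv ℝ (dyK z ρ Y) x‖ ^ 2) D := by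
      have := dyE_int h hK 1
      refine this.congr_fun (fun x _ => ?_) hm
      show ‖iteratedFDeriv ℝ 1 (dyK z ρ Y) x‖ ^ 2 = ‖fderiv ℝ (dyK z ρ Y) x‖ ^ 2
      rw [← zero_add 1, ← norm_iteratedFDeriv_fderiv, norm_iteratedFDeriv_zero]
    have hYf : ∫ x in D, ‖fderiv ℝ Y x‖ ^ 2 ≤ dyE D 1 Y := by
      have e2 : ∫ x in D, ‖fderiv ℝ Y x‖ ^ 2 = ∫ x in D, ‖iteratedFDeriv ℝ 1 Y x‖ ^ 2 := by
        refine setIntegral_congr_fun hm fun x _ => ?_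
        show ‖fderiv ℝ Y x‖ ^ 2 = ‖iteratedFDeriv ℝ 1 Y x‖ ^ 2
        rw [← zero_add 1, ← norm_iteratedFDeriv_fderiv, norm_iteratedFDeriv_zero]
      rw [e2]
      exact Finset.single_le_sum (f := fun j => ∫ x in D, ‖iteratedFDeriv ℝ j Y x‖ ^ 2)
        (fun _ _ => integral_nonneg fun _ => by positivity) (Finset.mem_range.2 (by norm_num))
    have hKf := hH1 ρ hρ0 hρ1 Y hY hYd
    have e3 : ∀ i : Fin d, ∫ x in D, ‖pd i (fun x => Y x - dyK z ρ Y x) x‖ ^ 2 ≤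
        2 * ((∫ x in D, ‖fderiv ℝ Y x‖ ^ 2) + ∫ x in D, ‖fderiv ℝ (dyK z ρ Y) x‖ ^ 2) := by
      intro i
      rw [← integral_add i1 i2, ← integral_const_mul]
      refine setIntegral_mono_on ?_ ((i1.add i2).const_mul 2) hm fun x hx => ?_
      · have := dyE_int h (hv.pd hO i) 0
        refine this.congr_fun (fun x _ => ?_) hm
        show ‖iteratedFDeriv ℝ 0 _ x‖ ^ 2 = _
        rw [norm_iteratedFDeriv_zero]
      · have e4 := hpd (fun x => Y x - dyK z ρ Y x) x i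
        rw [fderiv_fun_sub (hY.differentiableAt hO hx) (hK.differentiableAt hO hx)] at e4
        have e5 := e4.trans (norm_sub_le _ _)
        have e6 := pow_le_pow_left₀ (norm_nonneg _) e5 2
        nlinarith [sq_nonneg (‖fderiv ℝ Y x‖ - ‖fderiv ℝ (dyK z ρ Y) x‖)]
    have hr2 : r ^ 2 * ‖w‖ ^ 2 ≤ B * N ^ 2 := by
      have e7 : ‖w‖ ^ 2 ≤ (d : ℝ) * (2 * (dyE D 1 Y + C2 * (ρ⁻¹ * dyE D 1 Y + ρ ^ 2 * dyE D 2 Y))) := by
        rw [e1]
        refine (Finset.sum_le_sum fun i _ => (e3 i).trans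
          (mul_le_mul_of_nonneg_left (add_le_add hYf hKf) (by norm_num))).trans (le_of_eq ?_)
        rw [Finset.sum_const, Finset.card_univ, Fintype.card_fin, nsmul_eq_mul]
      have e8 : r ^ 2 * (dyE D 1 Y + C2 * (ρ⁻¹ * dyE D 1 Y + ρ ^ 2 * dyE D 2 Y)) ≤
          (CL 1 + C2 * (CL 1 + CL 2)) * N ^ 2 := by
        have e9 : r ^ 2 * (ρ⁻¹ * dyE D 1 Y + ρ ^ 2 * dyE D 2 Y) = dyE D 1 Y + r ^ 6 * dyE D 2 Y := by
          rw [hρ]
          field_simp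
        have e10 : r ^ 2 * (dyE D 1 Y + C2 * (ρ⁻¹ * dyE D 1 Y + ρ ^ 2 * dyE D 2 Y)) =
            r ^ 2 * dyE D 1 Y + C2 * (dyE D 1 Y + r ^ 6 * dyE D 2 Y) := by
          rw [← e9]; ring
        rw [e10]
        have e11 : r ^ 2 * dyE D 1 Y ≤ CL 1 * N ^ 2 := by
          have : r ^ 2 ≤ 1 := pow_le_one₀ hr.le hr1
          nlinarith
        have e12 := mul_le_mul_of_nonneg_left (add_le_add hY1 hY2) hC2
        nlinarith
      have e13 := mul_le_mul_of_nonneg_left e7 (show 0 ≤ r ^ 2 by positivity)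
      refine e13.trans ?_
      have e14 := mul_le_mul_of_nonneg_left e8 (show 0 ≤ (d : ℝ) * 2 by positivity)
      rw [hB]
      nlinarith
    have e15 : (r * ‖w‖) ^ 2 ≤ B * N ^ 2 := by rw [mul_pow]; exact hr2
    have e16 := dyf2_sqrt (by positivity) hB0 hN e15
    have e17 : ‖w‖ ≤ √B * (r⁻¹ * N) := by
      have e18 : √B * (r⁻¹ * N) = r⁻¹ * (√B * N) := by ring
      rw [e18, ← div_eq_inv_mul, le_div_iff₀ hr, mul_comm]
      exact e16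
    refine e17.trans (mul_le_mul_of_nonneg_right ?_ (by positivity))
    have := Real.sqrt_nonneg A
    linarith

end

end Pool.Agent.Lib.MP_79abb3_an.W
end

section

/-!
Theorem W, block DY, part f3: approximation of projected fields.
-/

set_option autoImplicit false
set_option linter.unusedSectionVars false

open MeasureTheory Set Filter Topology Function
open scoped ENNReal RealInnerProductSpace

namespace Pool.Agent.Lib.MP_79abb3_an.W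

section
variable {d : ℕ} {D : Set (En d)} {z : En d → ℝ} {δ : ℝ}

/-- **Approximation**: `dy_comp`, `dy_min`. -/
theorem dy_F (h : Dom D z δ) : ∃ C, 0 ≤ C ∧ ∀ F : En d → En d, BD D F → ∀ r N : ℝ, 0 < r → r ≤ 1 → 0 ≤ N →
    dyE D 1 F ≤ N ^ 2 → r ^ 6 * dyE D 2 F ≤ N ^ 2 → ∀ W : HD D, ‖W - PcD D F‖ ≤ r * N →
    ∃ y : VD D, ‖W - io D y‖ ≤ C * (r * N) ∧ ‖y‖ ≤ C * (r⁻¹ * N) ∧
      ∀ e : VD D, |⟪io D e, W - io D y⟫| ≤ C * (r ^ 3 * N) * ‖e‖ := by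
  obtain ⟨C, hC, hcomp⟩ := dy_comp h
  refine ⟨2 * (1 + C), by positivity, fun F hF r N hr hr1 hN h1 h2 W hW => ?_⟩
  obtain ⟨y', hy1, hy2⟩ := hcomp F hF r N hr hr1 hN h1 h2
  have h3 : ‖W - io D y'‖ ≤ r * ((1 + C) * N) := by
    have e : W - io D y' = (W - PcD D F) + (PcD D F - io D y') := by abel
    rw [e]
    refine (norm_add_le _ _).trans ((add_le_add hW hy1).trans (le_of_eq ?_))
    ring
  have h4 : ‖y'‖ ≤ r⁻¹ * ((1 + C) * N) := by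
    refine hy2.trans ?_
    have h5 : 0 ≤ r⁻¹ * N := by positivity
    nlinarith
  obtain ⟨y, ha, hb, hc⟩ := dy_min (io D) hr W h3 h4
  refine ⟨y, ha.trans (le_of_eq (by ring)), hb.trans (le_of_eq (by ring)), fun e => ?_⟩
  exact (hc e).trans (le_of_eq (by ring))

end

end Pool.Agent.Lib.MP_79abb3_an.W
end

section

/-!
Theorem W, block DY, part i2: the approximation hypotheses `yS`, `ys` for the concrete spaces.
-/

set_option autoImplicit false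
set_option linter.unusedSectionVars false

open MeasureTheory Set Filter Topology Function
open scoped ENNReal RealInnerProductSpace

namespace Pool.Agent.Lib.MP_79abb3_an.W

section
variable {d : ℕ} {D : Set (En d)} {z : En d → ℝ} {δ : ℝ}

/-- a test field close to `v` -/
private theorem dy_near (v : VD D) {r : ℝ} (hr : 0 < r) : ∃ φ : TS D, ‖v - vT D φ‖ ≤ r * ‖v‖ := by
  by_cases hv : v = 0
  · refine ⟨0, ?_⟩
    rw [hv, map_zero, sub_zero, norm_zero, mul_zero]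
  · have h1 : 0 < r * ‖v‖ := mul_pos hr (norm_pos_iff.2 hv)
    obtain ⟨φ, hφ⟩ := Metric.denseRange_iff.1 (vT_dense D) v (r * ‖v‖) h1
    exact ⟨φ, by rw [← dist_eq_norm]; exact hφ.le⟩

private theorem dy_alg0 {m P C x : ℝ} (hm : 0 ≤ m) (hP : 0 ≤ P) (hC : 0 ≤ C) (hx : 0 ≤ x) (n : ℕ) :
    144 * m ^ 2 * (P ^ 2 + 1 + n * C ^ 2) * (4 * x ^ 2) ≤ ((24 * m * (P + 1 + n * C) + m * (P + 2)) * x) ^ 2 := by
  have hd1 : (n : ℝ) * C ^ 2 ≤ (n * C) ^ 2 := by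
    have h1 : (n : ℝ) ≤ (n : ℝ) ^ 2 := by
      rcases Nat.eq_zero_or_pos n with h0 | h0
      · rw [h0]; norm_num
      · have : (1 : ℝ) ≤ n := by exact_mod_cast h0
        nlinarith
    rw [mul_pow]
    exact mul_le_mul_of_nonneg_right h1 (sq_nonneg C)
  have h4 : 0 ≤ (n : ℝ) * C := by positivity
  have h3 : P ^ 2 + 1 + n * C ^ 2 ≤ (P + 1 + n * C) ^ 2 := by nlinarith [mul_nonneg hP h4]
  have h0 : 0 ≤ m * (P + 2) := by positivity
  have h1 : 24 * m * (P + 1 + n * C) * x ≤ (24 * m * (P + 1 + n * C) + m * (P + 2)) * x :=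
    mul_le_mul_of_nonneg_right (by linarith) hx
  have h2 := pow_le_pow_left₀ (by positivity) h1 2
  refine le_trans ?_ h2
  have h5 : 144 * m ^ 2 * (P ^ 2 + 1 + n * C ^ 2) ≤ 144 * m ^ 2 * (P + 1 + n * C) ^ 2 :=
    mul_le_mul_of_nonneg_left h3 (by positivity)
  have h6 := mul_le_mul_of_nonneg_right h5 (by positivity : 0 ≤ 4 * x ^ 2)
  refine h6.trans (le_of_eq ?_)
  ring

private theorem dy_alg1 {m P C x G E : ℝ} (hP : 0 ≤ P) (n : ℕ) (hE : E ≤ P ^ 2 * G + G)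
    (hG0 : 0 ≤ G) (hG : G ≤ 4 * x ^ 2) : (((1 : ℕ) + 1 : ℝ) * (2 ^ 1 * m)) ^ 2 * E ≤
      144 * m ^ 2 * (P ^ 2 + 1 + n * C ^ 2) * (4 * x ^ 2) := by
  have h1 : (P ^ 2 + 1) * G ≤ (P ^ 2 + 1 + n * C ^ 2) * (4 * x ^ 2) := by
    have h0 : 0 ≤ (n : ℝ) * C ^ 2 := by positivity
    exact mul_le_mul (by linarith) hG hG0 (by positivity)
  have h2 : E ≤ (P ^ 2 + 1 + n * C ^ 2) * (4 * x ^ 2) := by linarith
  have h3 : 0 ≤ (P ^ 2 + 1 + n * C ^ 2) * (4 * x ^ 2) := by positivity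
  have h4 : (((1 : ℕ) + 1 : ℝ) * (2 ^ 1 * m)) ^ 2 = 16 * m ^ 2 := by push_cast; ring
  rw [h4]
  have h5 : 16 * m ^ 2 * E ≤ 16 * m ^ 2 * ((P ^ 2 + 1 + n * C ^ 2) * (4 * x ^ 2)) :=
    mul_le_mul_of_nonneg_left h2 (by positivity)
  have h6 : 0 ≤ m ^ 2 * ((P ^ 2 + 1 + n * C ^ 2) * (4 * x ^ 2)) := by positivity
  linarith

private theorem dy_alg2 {m P C x G E r : ℝ} (hP : 0 ≤ P) (hr : 0 < r) (hr1 : r ≤ 1) (n : ℕ)
    (hE : E ≤ P ^ 2 * G + G + n * ((C / r ^ 2) ^ 2 * G))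
    (hG0 : 0 ≤ G) (hG : G ≤ 4 * x ^ 2) : r ^ 6 * ((((2 : ℕ) + 1 : ℝ) * (2 ^ 2 * m)) ^ 2 * E) ≤
      144 * m ^ 2 * (P ^ 2 + 1 + n * C ^ 2) * (4 * x ^ 2) := by
  have h1 : (P ^ 2 + 1 + n * C ^ 2) * G ≤ (P ^ 2 + 1 + n * C ^ 2) * (4 * x ^ 2) :=
    mul_le_mul_of_nonneg_left hG (by positivity)
  have h2 : r ^ 6 * E ≤ (P ^ 2 + 1 + n * C ^ 2) * G := by
    have h3 : r ^ 6 * E ≤ r ^ 6 * (P ^ 2 * G + G + n * ((C / r ^ 2) ^ 2 * G)) :=
      mul_le_mul_of_nonneg_left hE (by positivity)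
    have e : r ^ 6 * (P ^ 2 * G + G + n * ((C / r ^ 2) ^ 2 * G)) =
        r ^ 6 * ((P ^ 2 + 1) * G) + r ^ 2 * (n * C ^ 2 * G) := by
      field_simp
    rw [e] at h3
    have h7 : r ^ 6 ≤ 1 := pow_le_one₀ hr.le hr1
    have h8 : r ^ 2 ≤ 1 := pow_le_one₀ hr.le hr1
    have h9 : r ^ 6 * ((P ^ 2 + 1) * G) ≤ (P ^ 2 + 1) * G := mul_le_of_le_one_left (by positivity) h7
    have h10 : r ^ 2 * (n * C ^ 2 * G) ≤ n * C ^ 2 * G := mul_le_of_le_one_left (by positivity) h8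
    linarith
  have h4 : r ^ 6 * ((((2 : ℕ) + 1 : ℝ) * (2 ^ 2 * m)) ^ 2 * E) = 144 * m ^ 2 * (r ^ 6 * E) := by push_cast; ring
  rw [h4]
  have h5 := mul_le_mul_of_nonneg_left (h2.trans h1) (by positivity : 0 ≤ 144 * m ^ 2)
  linarith

/-- approximation of `P(A v)`, with `r = q⁻⁵` -/
theorem dy_Sr (h : Dom D z δ) (M : ℝ) : ∃ K, 0 ≤ K ∧ ∀ A : En d → (En d →L[ℝ] En d), BD D A → Bk D 2 M A →
    ∀ r : ℝ, 0 < r → r ≤ 1 → ∀ v : VD D, ∃ y : VD D, ‖y‖ ≤ K * r⁻¹ * ‖v‖ ∧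
      ‖MuD D A (io D v) - io D y‖ ≤ K * r * ‖v‖ ∧
      ∀ e : VD D, |⟪io D e, MuD D A (io D v) - io D y⟫| ≤ K * r ^ 3 * ‖e‖ * ‖v‖ := by
  obtain ⟨C, hC, hF⟩ := dy_F h
  obtain ⟨Cm, hCm, hmoll⟩ := dy_moll d
  obtain ⟨R₀, hR₀⟩ := h.bdd.subset_closedBall (0 : En d)
  obtain ⟨R, hR0, hRD⟩ : ∃ R : ℝ, 0 ≤ R ∧ D ⊆ Metric.closedBall 0 R :=
    ⟨max R₀ 0, le_max_right _ _, hR₀.trans (Metric.closedBall_subset_closedBall (le_max_left _ _))⟩
  obtain ⟨P, hP0, hP⟩ : ∃ P : ℝ, 0 ≤ P ∧ ∀ u : VD D, ‖io D u‖ ≤ P * ‖u‖ :=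
    ⟨2 * R, by positivity, fun u => io_le hR0 hRD u⟩
  obtain ⟨m, hm0, hm⟩ : ∃ m : ℝ, 0 ≤ m ∧ M ≤ m := ⟨|M|, abs_nonneg M, le_abs_self M⟩
  obtain ⟨κ, hκ⟩ : ∃ κ : ℝ, κ = 24 * m * (P + 1 + d * Cm) + m * (P + 2) := ⟨_, rfl⟩
  have hκ0 : 0 ≤ κ := by rw [hκ]; positivity
  refine ⟨C * κ, by positivity, fun A hA hAM r hr hr1 v => ?_⟩
  have hAm : Bk D 2 m A := hAM.mono le_rfl hm
  obtain ⟨φ, hφ⟩ := dy_near v hr
  obtain ⟨G, hG⟩ : ∃ G : ℝ, G = ∑ i, ∫ x, ‖pd i (φ : En d → En d) x‖ ^ 2 := ⟨_, rfl⟩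
  have hvT : ‖vT D φ‖ ^ 2 = G := by rw [hG]; exact norm_sq_vT φ
  have hG0 : 0 ≤ G := by rw [← hvT]; positivity
  have hv0 : 0 ≤ ‖v‖ := norm_nonneg v
  have hvT2 : ‖vT D φ‖ ≤ 2 * ‖v‖ := by
    have e : vT D φ = v - (v - vT D φ) := by abel
    rw [e]
    refine (norm_sub_le _ _).trans ?_
    have : r * ‖v‖ ≤ 1 * ‖v‖ := mul_le_mul_of_nonneg_right hr1 hv0
    linarith
  have hG4 : G ≤ 4 * ‖v‖ ^ 2 := by
    rw [← hvT]
    have := pow_le_pow_left₀ (norm_nonneg _) hvT2 2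
    linarith
  have hφs : Smo (φ : En d → En d) := (TS.ts φ).smooth
  have hφc : HasCompactSupport (φ : En d → En d) := (TS.ts φ).cpt
  obtain ⟨w, hws, hwc, hw1, hw2, hw3, hw4⟩ := hmoll _ hφs hφc (r ^ 2) (by positivity) (pow_le_one₀ hr.le hr1)
  have hL2φ : ∫ x, ‖(φ : En d → En d) x‖ ^ 2 ≤ P ^ 2 * G := by
    rw [← norm_sq_hT, ← io_vT h.bdd, ← hvT, ← mul_pow]
    exact pow_le_pow_left₀ (norm_nonneg _) (hP _) 2
  have hD : IsOpen D := h.isOpen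
  have hwB : BD D w := hws.bd h.bdd
  have hFB : BD D fun x => A x (w x) := hA.apply hD hwB
  -- energies of `w`
  have hw3' : ∑ i, ∫ x, ‖pd i w x‖ ^ 2 ≤ G := by
    rw [hG]
    exact Finset.sum_le_sum fun i _ => hw3 i
  have hE1 : dyE D 1 w ≤ P ^ 2 * G + G :=
    (dyE1_smo h hws hwc).trans (add_le_add (hw2.trans hL2φ) hw3')
  have hw4' : ∑ i, ∑ j, ∫ x, ‖pd i (pd j w) x‖ ^ 2 ≤ d * ((Cm / r ^ 2) ^ 2 * G) := by
    refine (Finset.sum_le_sum fun i _ => Finset.sum_le_sum fun j _ => hw4 i j).trans (le_of_eq ?_)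
    rw [Finset.sum_const, ← Finset.mul_sum, Finset.card_univ, Fintype.card_fin, nsmul_eq_mul, hG]
  have hE2 : dyE D 2 w ≤ P ^ 2 * G + G + d * ((Cm / r ^ 2) ^ 2 * G) :=
    (dyE2_smo h hws hwc).trans (add_le_add (add_le_add (hw2.trans hL2φ) hw3') hw4')
  have hkey := dy_alg0 hm0 hP0 hCm hv0 d
  rw [← hκ] at hkey
  have hN1 : dyE D 1 (fun x => A x (w x)) ≤ (κ * ‖v‖) ^ 2 :=
    (dyE_apply h hA hm0 (hAm.mono (by norm_num : 1 ≤ 2) le_rfl) hwB).trans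
      ((dy_alg1 hP0 d hE1 hG0 hG4).trans hkey)
  have hN2 : r ^ 6 * dyE D 2 (fun x => A x (w x)) ≤ (κ * ‖v‖) ^ 2 :=
    (mul_le_mul_of_nonneg_left (dyE_apply h hA hm0 hAm hwB) (by positivity)).trans
      ((dy_alg2 hP0 hr hr1 d hE2 hG0 hG4).trans hkey)
  -- closeness
  have hφm : MemLp (φ : En d → En d) 2 (volume : Measure (En d)) := (TS.ts φ).memLp 2
  have hwm : MemLp w 2 (volume : Measure (En d)) := hws.continuous.memLp_of_hasCompactSupport hwc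
  have hwφ : MemLp (fun x => w x - (φ : En d → En d) x) 2 (volume : Measure (En d)) := hwm.sub hφm
  have h2 : ‖cl (φ : En d → En d) - cl w‖ ≤ r ^ 2 * (2 * ‖v‖) := by
    have h3 : cl w - cl (φ : En d → En d) = cl fun x => w x - (φ : En d → En d) x := by
      have h4 : cl w = cl (fun x => (w x - (φ : En d → En d) x) + (φ : En d → En d) x) := by simp
      rw [h4, cl_add hwφ hφm]
      abel
    rw [norm_sub_rev, h3]
    refine abs_le_of_sq_le_sq' ?_ (by positivity) |>.2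
    rw [norm_sq_cl hwφ]
    refine hw1.trans ?_
    rw [← hG, mul_pow]
    have h5 : G ≤ (2 * ‖v‖) ^ 2 := by linarith [hG4, mul_pow (2 : ℝ) ‖v‖ 2]
    exact mul_le_mul_of_nonneg_left h5 (by positivity)
  have hcl : ‖((io D v : HD D) : L2E d) - cl w‖ ≤ (P + 2) * r * ‖v‖ := by
    have e : ((io D v : HD D) : L2E d) - cl w =
        ((io D v - io D (vT D φ) : HD D) : L2E d) + (cl (φ : En d → En d) - cl w) := by
      rw [io_vT h.bdd, Submodule.coe_sub, hT_coe]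
      abel
    rw [e]
    have h1 : ‖((io D v - io D (vT D φ) : HD D) : L2E d)‖ ≤ P * (r * ‖v‖) := by
      rw [← map_sub]
      exact (hP _).trans (mul_le_mul_of_nonneg_left hφ hP0)
    refine (norm_add_le _ _).trans ((add_le_add h1 h2).trans ?_)
    have h6 : r ^ 2 ≤ r := by nlinarith
    have h5 : r ^ 2 * (2 * ‖v‖) ≤ r * (2 * ‖v‖) := mul_le_mul_of_nonneg_right h6 (by positivity)
    linarith
  have hW : ‖MuD D A (io D v) - PcD D (fun x => A x (w x))‖ ≤ r * (κ * ‖v‖) := by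
    refine (dy_MuD_sub h hA hm0 (fun x hx => hAm.le0 hx) (io D v) hws hwc).trans ?_
    refine (mul_le_mul_of_nonneg_left hcl hm0).trans ?_
    have h6 : m * (P + 2) ≤ κ := by
      rw [hκ]
      have : 0 ≤ 24 * m * (P + 1 + d * Cm) := by positivity
      linarith
    have h7 := mul_le_mul_of_nonneg_right h6 (by positivity : 0 ≤ r * ‖v‖)
    linarith
  obtain ⟨y, ha, hb, hc⟩ := hF _ hFB r (κ * ‖v‖) hr hr1 (by positivity) hN1 hN2 _ hW
  refine ⟨y, hb.trans (le_of_eq (by ring)), ha.trans (le_of_eq (by ring)), fun e => ?_⟩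
  exact (hc e).trans (le_of_eq (by ring))

private theorem dy_q {q : ℝ} (hq : 1 ≤ q) : 0 < (q ^ 5)⁻¹ ∧ (q ^ 5)⁻¹ ≤ 1 ∧ ((q ^ 5)⁻¹)⁻¹ = q ^ 5 ∧
    ((q ^ 5)⁻¹) ^ 3 = (q ^ 15)⁻¹ := by
  have h1 : 1 ≤ q ^ 5 := one_le_pow₀ hq
  refine ⟨by positivity, inv_le_one_of_one_le₀ h1, inv_inv _, ?_⟩
  rw [inv_pow, ← pow_mul]

theorem dy_S (hd : d = 2 ∨ d = 3) (h : Dom D z δ) (M : ℝ) : ∃ K, 0 ≤ K ∧ ∀ A : En d → (En d →L[ℝ] En d), BD D A →
    Bk D 3 M A → ∀ q : ℝ, 1 ≤ q → ∀ v : VD D, ∃ y : VD D, ‖y‖ ≤ K * q ^ 5 * ‖v‖ ∧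
      ‖MuD D A (io D v) - io D y‖ ≤ K / q ^ 5 * ‖v‖ ∧
      ∀ e : VD D, |⟪io D e, MuD D A (io D v) - io D y⟫| ≤ K / q ^ 15 * ‖e‖ * ‖v‖ := by
  obtain ⟨K, hK, hS⟩ := dy_Sr h M
  refine ⟨K, hK, fun A hA hAM q hq v => ?_⟩
  obtain ⟨h1, h2, h3, h4⟩ := dy_q hq
  obtain ⟨y, ha, hb, hc⟩ := hS A hA (hAM.mono (by norm_num) le_rfl) _ h1 h2 v
  refine ⟨y, by rwa [h3] at ha, by rwa [← div_eq_mul_inv] at hb, fun e => ?_⟩
  have := hc e
  rwa [h4, ← div_eq_mul_inv] at this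

theorem dy_s (hd : d = 2 ∨ d = 3) (h : Dom D z δ) (M : ℝ) : ∃ K, 0 ≤ K ∧ ∀ F : En d → En d, BD D F →
    Bk D 2 M F → ∀ q : ℝ, 1 ≤ q → ∃ y : VD D, ‖y‖ ≤ K * q ^ 5 ∧ ‖PcD D F - io D y‖ ≤ K / q ^ 5 ∧
      ∀ e : VD D, |⟪io D e, PcD D F - io D y⟫| ≤ K / q ^ 15 * ‖e‖ := by
  obtain ⟨C, hC, hF⟩ := dy_F h
  set vol : ℝ := (volume : Measure (En d)).real D with hvol
  have hv0 : 0 ≤ vol := measureReal_nonneg
  set N : ℝ := 1 + 3 * (M ^ 2 * vol) with hN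
  have hN1 : 1 ≤ N := by have : 0 ≤ 3 * (M ^ 2 * vol) := by positivity
                         linarith
  have hN0 : 0 ≤ N := zero_le_one.trans hN1
  refine ⟨C * N, by positivity, fun F hFB hFM q hq => ?_⟩
  obtain ⟨h1, h2, h3, h4⟩ := dy_q hq
  have hNN : N ≤ N ^ 2 := by nlinarith
  have e1 : dyE D 1 F ≤ N ^ 2 := by
    have := dyE_le h hFB (hFM.mono (by norm_num : 1 ≤ 2) le_rfl)
    refine this.trans (le_trans ?_ hNN)
    have h5 : 0 ≤ M ^ 2 * vol := by positivity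
    rw [hN, ← hvol]
    push_cast
    nlinarith
  have e2 : ((q ^ 5)⁻¹) ^ 6 * dyE D 2 F ≤ N ^ 2 := by
    have h5 := dyE_le h hFB hFM
    have h6 : ((q ^ 5)⁻¹) ^ 6 ≤ 1 := pow_le_one₀ h1.le h2
    refine (mul_le_of_le_one_left (dyE_nonneg 2 F) h6).trans (h5.trans (le_trans ?_ hNN))
    rw [hN, ← hvol]
    push_cast
    nlinarith [mul_nonneg (sq_nonneg M) hv0]
  obtain ⟨y, ha, hb, hc⟩ := hF F hFB _ N h1 h2 hN0 e1 e2 (PcD D F) (by rw [sub_self, norm_zero]; positivity)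
  refine ⟨y, ?_, ?_, fun e => ?_⟩
  · rw [h3] at hb
    exact hb.trans (le_of_eq (by ring))
  · refine ha.trans (le_of_eq ?_)
    rw [div_eq_mul_inv]; ring
  · refine (hc e).trans (le_of_eq ?_)
    rw [h4, div_eq_mul_inv]; ring

end

end Pool.Agent.Lib.MP_79abb3_an.W
end

section

/-!
Theorem W (MP_79abb3_an), block DE: the data of the energy estimate for one move.
-/

set_option autoImplicit false
set_option linter.unusedSectionVars false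

open MeasureTheory Set Filter Topology Function
open scoped ENNReal RealInnerProductSpace

namespace Pool.Agent.Lib.MP_79abb3_an.W

variable {d : ℕ} {D : Set (En d)} {z : En d → ℝ} {δ : ℝ}

/-- **The data of the energy estimate** for the regularised systems, with uniform constants. -/
theorem de_edata (hd : d = 2 ∨ d = 3) (h : Dom D z δ) : ∃ κ₀ : ℝ, 0 < κ₀ ∧ ∀ MS : ℝ, ∃ K₁ : ℝ, 1 ≤ K₁ ∧
    ∀ K₀ M : ℝ, K₁ ≤ K₀ → ∃ K : ℝ, K₀ ≤ K ∧ M ≤ K ∧ ∀ (I : DIn d) (Ω : Set (En d)) (CV δ' γ : ℝ),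
      I.OK D Ω z κ₀ MS M CV δ' γ → 1 / I.b ≤ M →
      ∀ m : ℕ, ∃ E : EData (HD D) (VD D), E.ι = io D ∧ E.q = I.q ∧ E.b = I.b ∧ E.OK K₀ K CV δ' γ ∧
        ∀ t ∈ Icc (0:ℝ) 1, ∀ e φ : VD D,
          E.R t e φ = I.b * ⟪e, φ⟫ + ⟪I.Fo D t e + I.b • Nm D m (io D e) e - I.go D t, io D φ⟫ := by
  have hD := h.isOpen
  have hb := h.bdd
  have hd0 : 0 < d := by rcases hd with h | h <;> omega
  obtain ⟨CH, hCH0, hCH⟩ := TvD_thin h hd0
  obtain ⟨CN, hCN0, hCN⟩ := Nm_le hd hb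
  refine ⟨1 / (8 * (CH + 1)), by positivity, fun MS => ?_⟩
  have hκ : CH * (1 / (8 * (CH + 1))) ≤ 1 / 8 := by
    rw [mul_one_div, div_le_div_iff₀ (by positivity) (by norm_num)]
    linarith
  have hMS : 0 ≤ max MS 0 := le_max_right _ _
  have hio : 0 ≤ ‖io D‖ := (io D).opNorm_nonneg
  have a1 : 0 ≤ max MS 0 * (1 + ‖io D‖) * ‖io D‖ := by positivity
  have a2 : 0 ≤ 2 * max MS 0 ^ 2 + max MS 0 := by positivity
  refine ⟨2 + ‖io D‖ + CN + max MS 0 * (1 + ‖io D‖) * ‖io D‖ + (2 * max MS 0 ^ 2 + max MS 0), by linarith,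
    fun K₀ M hK₀ => ?_⟩
  obtain ⟨KS, hKS0, hKS⟩ := dy_S hd h (‖adjL d‖ * M + (1 + ‖trL d‖) * M)
  obtain ⟨Ks, hKs0, hKs⟩ := dy_s hd h (2 ^ 2 * (M * M) + 2 ^ 2 * (‖adjL d‖ * M * M))
  have hK₀0 : 0 ≤ K₀ := by linarith
  obtain ⟨M', hM'⟩ : ∃ M' : ℝ, M' = |M| := ⟨_, rfl⟩
  have hM0 : 0 ≤ M' := by rw [hM']; exact abs_nonneg _
  obtain ⟨x1, hx1⟩ : ∃ x : ℝ, x = M * (2 * (M * (1 + ‖io D‖))) := ⟨_, rfl⟩
  obtain ⟨x2, hx2⟩ : ∃ x : ℝ, x = M * (2 * (((1 + d) * M) * (1 + ‖io D‖))) := ⟨_, rfl⟩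
  obtain ⟨x3, hx3⟩ : ∃ x : ℝ, x = M * (2 * ((1 + d) * M)) := ⟨_, rfl⟩
  obtain ⟨x4, hx4⟩ : ∃ x : ℝ, x = M * (2 * (√(volume.real D) * (2 * M * M))) := ⟨_, rfl⟩
  obtain ⟨x5, hx5⟩ : ∃ x : ℝ, x = √(volume.real D) * (2 * M) := ⟨_, rfl⟩
  obtain ⟨x6, hx6⟩ : ∃ x : ℝ, x = M * (2 * KS) := ⟨_, rfl⟩
  obtain ⟨x7, hx7⟩ : ∃ x : ℝ, x = M * (2 * Ks) := ⟨_, rfl⟩
  have b1 := le_abs_self x1
  have b2 := le_abs_self x2
  have b3 := le_abs_self x3
  have b4 := le_abs_self x4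
  have b5 := le_abs_self x5
  have b6 := le_abs_self x6
  have b7 := le_abs_self x7
  have c1 := abs_nonneg x1
  have c2 := abs_nonneg x2
  have c3 := abs_nonneg x3
  have c4 := abs_nonneg x4
  have c5 := abs_nonneg x5
  have c6 := abs_nonneg x6
  have c7 := abs_nonneg x7
  have b8 := le_abs_self M
  have c8 := abs_nonneg M
  refine ⟨K₀ + |M| + |x1| + |x2| + |x3| + |x4| + |x5| + |x6| + |x7|, by linarith, by linarith, ?_⟩
  intro I Ω CV δ' γ hI hbM m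
  refine ⟨hI.E hD hb m, rfl, rfl, rfl, ?_, fun t _ e φ => hI.E_R hD hb m t e φ⟩
  exact hI.E_OK hD hb m (hCN m) hCH hκ hbM hKS hKs (by linarith) (by linarith) (by linarith) (by linarith)
    (by linarith) (by linarith) (by linarith) (by linarith) (by linarith) (by linarith) (by linarith) (by linarith)
    (by linarith) (by linarith)

end Pool.Agent.Lib.MP_79abb3_an.W
end
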