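import Pool.Agent.Lib.MP_79abb3_an.W.BDc
import Pool.Agent.Lib.MP_79abb3_an.W.DDef

/-!
Theorem W, block D, part F1: the class `FS` of finite sums `∑ c_i(t) v_i(x)` (equality on `D` only, `D` open).
-/

set_option autoImplicit false
set_option linter.unusedSectionVars false

open MeasureTheory Set Filter Topology Function
open scoped ENNReal RealInnerProductSpace

namespace Pool.Agent.Lib.MP_79abb3_an.W

variable {d : ℕ} {D : Set (Ed d)} {z : Ed d → ℝ} {E F G : Type} [NormedAddCommGroup E] [NormedSpace ℝ E]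
  [NormedAddCommGroup F] [NormedSpace ℝ F] [NormedAddCommGroup G] [NormedSpace ℝ G]

theorem FS.congr {X Y : ℝ → Ed d → G} (hX : FS D X) (h : ∀ t, ∀ x ∈ D, Y t x = X t x) : FS D Y := by
  obtain ⟨ι, hι, c, v, hc, hv, he⟩ := hX
  exact ⟨ι, hι, c, v, hc, hv, fun t x hx => (h t x hx).trans (he t x hx)⟩

theorem FS.zero : FS D fun (_ : ℝ) (_ : Ed d) => (0 : G) := by
  refine ⟨Empty, inferInstance, fun _ _ => 0, fun _ _ => 0, fun i => i.elim, fun i => i.elim, fun t x _ => ?_⟩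
  simp

theorem FS.single {c : ℝ → ℝ} (hc : ContDiff ℝ ((⊤ : ℕ∞) : WithTop ℕ∞) c) {v : Ed d → G} (hv : BD D v) :
    FS D fun t x => c t • v x := by
  refine ⟨Unit, inferInstance, fun _ => c, fun _ => v, fun _ => hc, fun _ => hv, fun t x _ => ?_⟩
  simp

theorem FS.add {X Y : ℝ → Ed d → G} (hX : FS D X) (hY : FS D Y) : FS D fun t x => X t x + Y t x := by
  obtain ⟨ι, hι, c, v, hc, hv, he⟩ := hX
  obtain ⟨κ, hκ, c', v', hc', hv', he'⟩ := hY
  refine ⟨ι ⊕ κ, inferInstance, Sum.elim c c', Sum.elim v v', ?_, ?_, fun t x hx => ?_⟩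
  · rintro (i | i)
    · exact hc i
    · exact hc' i
  · rintro (i | i)
    · exact hv i
    · exact hv' i
  · dsimp only
    rw [he t x hx, he' t x hx, Fintype.sum_sum_type]
    rfl

theorem FS.const_smul (c : ℝ) {X : ℝ → Ed d → G} (hX : FS D X) : FS D fun t x => c • X t x := by
  obtain ⟨ι, hι, a, v, ha, hv, he⟩ := hX
  refine ⟨ι, hι, fun i t => c * a i t, v, fun i => contDiff_const.mul (ha i), hv, fun t x hx => ?_⟩
  dsimp only
  rw [he t x hx, Finset.smul_sum]
  exact Finset.sum_congr rfl fun i _ => smul_smul _ _ _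

theorem FS.neg {X : ℝ → Ed d → G} (hX : FS D X) : FS D fun t x => -X t x := by
  refine (hX.const_smul (-1)).congr fun t x _ => ?_
  rw [neg_smul, one_smul]

theorem FS.sub {X Y : ℝ → Ed d → G} (hX : FS D X) (hY : FS D Y) : FS D fun t x => X t x - Y t x := by
  refine (hX.add hY.neg).congr fun t x _ => ?_
  rw [sub_eq_add_neg]

theorem FS.sum {ι : Type} (s : Finset ι) {X : ι → ℝ → Ed d → G} (hX : ∀ i ∈ s, FS D (X i)) :
    FS D fun t x => ∑ i ∈ s, X i t x := by
  classical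
  induction s using Finset.induction_on with
  | empty =>
    refine FS.zero.congr fun t x _ => ?_
    rw [Finset.sum_empty]
  | insert a s ha ih =>
    refine ((hX a (Finset.mem_insert_self a s)).add
      (ih fun i hi => hX i (Finset.mem_insert_of_mem hi))).congr fun t x _ => ?_
    rw [Finset.sum_insert ha]

/-- Products. -/
theorem FS.bilin (hD : IsOpen D) (L : G →L[ℝ] E →L[ℝ] F) {X : ℝ → Ed d → G} {Y : ℝ → Ed d → E} (hX : FS D X)
    (hY : FS D Y) : FS D fun t x => L (X t x) (Y t x) := by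
  obtain ⟨ι, hι, c, v, hc, hv, he⟩ := hX
  obtain ⟨κ, hκ, c', v', hc', hv', he'⟩ := hY
  refine ⟨ι × κ, inferInstance, fun p t => c p.1 t * c' p.2 t, fun p x => L (v p.1 x) (v' p.2 x),
    fun p => (hc p.1).mul (hc' p.2), fun p => BD.bilin hD L (hv p.1) (hv' p.2), fun t x hx => ?_⟩
  dsimp only
  have e1 : L (∑ i, c i t • v i x) = ∑ i, L (c i t • v i x) := map_sum L _ _
  rw [he t x hx, he' t x hx, Fintype.sum_prod_type, e1, _root_.sum_apply]
  refine Finset.sum_congr rfl fun i _ => ?_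
  rw [map_sum]
  refine Finset.sum_congr rfl fun j _ => ?_
  rw [map_smul, map_smul, ContinuousLinearMap.smul_apply, smul_smul, mul_comm (c' j t)]

theorem FS.clm (hD : IsOpen D) (L : G →L[ℝ] E) {X : ℝ → Ed d → G} (hX : FS D X) : FS D fun t x => L (X t x) := by
  obtain ⟨ι, hι, c, v, hc, hv, he⟩ := hX
  refine ⟨ι, hι, c, fun i x => L (v i x), hc, fun i => BD.clm hD L (hv i), fun t x hx => ?_⟩
  dsimp only
  rw [he t x hx, map_sum]
  refine Finset.sum_congr rfl fun i _ => ?_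
  rw [map_smul]

theorem FS.smul (hD : IsOpen D) {a : ℝ → Ed d → ℝ} {X : ℝ → Ed d → G} (ha : FS D a) (hX : FS D X) :
    FS D fun t x => a t x • X t x := by
  exact FS.bilin hD (ContinuousLinearMap.lsmul ℝ ℝ : ℝ →L[ℝ] G →L[ℝ] G) ha hX

theorem FS.smul_t {c : ℝ → ℝ} (hc : ContDiff ℝ ((⊤ : ℕ∞) : WithTop ℕ∞) c) {X : ℝ → Ed d → G} (hX : FS D X) :
    FS D fun t x => c t • X t x := by
  obtain ⟨ι, hι, a, v, ha, hv, he⟩ := hX
  refine ⟨ι, hι, fun i t => c t * a i t, v, fun i => hc.mul (ha i), hv, fun t x hx => ?_⟩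
  dsimp only
  rw [he t x hx, Finset.smul_sum]
  exact Finset.sum_congr rfl fun i _ => smul_smul _ _ _

end Pool.Agent.Lib.MP_79abb3_an.W
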