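import Pool.Agent.Lib.MP_79abb3_an.W.DA1b
import Pool.Agent.Lib.MP_79abb3_an.W.DA3
import Pool.Agent.Lib.MP_79abb3_an.W.DB1b
import Pool.Agent.Lib.MP_79abb3_an.W.DF1

/-!
Theorem W, block D, part F1b: derivatives.
-/

set_option autoImplicit false
set_option linter.unusedSectionVars false

open MeasureTheory Set Filter Topology Function
open scoped ENNReal RealInnerProductSpace

namespace Pool.Agent.Lib.MP_79abb3_an.W

variable {d : ℕ} {D : Set (Ed d)} {z : Ed d → ℝ} {E F G : Type} [NormedAddCommGroup E] [NormedSpace ℝ E]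
  [NormedAddCommGroup F] [NormedSpace ℝ F] [NormedAddCommGroup G] [NormedSpace ℝ G]

theorem FS.fderiv (hD : IsOpen D) {X : ℝ → Ed d → G} (hX : FS D X) : FS D fun t => fderiv ℝ (X t) := by
  obtain ⟨ι, hι, c, v, hc, hv, he⟩ := hX
  refine ⟨ι, hι, c, fun i => _root_.fderiv ℝ (v i), hc, fun i => BD.fderiv hD (hv i), fun t x hx => ?_⟩
  have h1 : X t =ᶠ[𝓝 x] fun y => ∑ i, c i t • v i y := by
    filter_upwards [hD.mem_nhds hx] with y hy using he t y hy
  have h2 : ∀ i ∈ (Finset.univ : Finset ι), HasFDerivAt (fun y => c i t • v i y) (c i t • _root_.fderiv ℝ (v i) x) x :=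
    fun i _ => ((hv i).diff hD hx).hasFDerivAt.const_smul (c i t)
  dsimp only
  rw [h1.fderiv_eq]
  exact (HasFDerivAt.fun_sum h2).fderiv

/-- `(X·∇)Y` -/
theorem FS.trn (hD : IsOpen D) {X : ℝ → Ed d → Ed d} {Y : ℝ → Ed d → G} (hX : FS D X) (hY : FS D Y) :
    FS D fun t x => _root_.fderiv ℝ (Y t) x (X t x) := by
  exact FS.bilin hD (ContinuousLinearMap.id ℝ (Ed d →L[ℝ] G)) (hY.fderiv hD) hX

theorem FS.dt {X : ℝ → Ed d → G} (hX : FS D X) : FS D fun t x => deriv (fun s => X s x) t := by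
  obtain ⟨ι, hι, c, v, hc, hv, he⟩ := hX
  refine ⟨ι, hι, fun i => deriv (c i), v, fun i => ?_, hv, fun t x hx => ?_⟩
  · have h := hc i
    rw [contDiff_infty_iff_deriv] at h
    exact h.2
  · have h1 : (fun s => X s x) = fun s => ∑ i, c i s • v i x := funext fun s => he s x hx
    have h2 : ∀ i ∈ (Finset.univ : Finset ι), HasDerivAt (fun s => c i s • v i x) (deriv (c i) t • v i x) t :=
      fun i _ => (((hc i).differentiable (by norm_num)) t).hasDerivAt.smul_const (v i x)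
    dsimp only
    rw [h1]
    exact (HasDerivAt.fun_sum h2).deriv

theorem FS.lap (hD : IsOpen D) {X : ℝ → Ed d → Ed d} (hX : FS D X) : FS D fun t => lap (X t) := by
  obtain ⟨ι, hι, c, v, hc, hv, he⟩ := hX
  refine ⟨ι, hι, c, fun i => W.lap (v i), hc, fun i => BD.lap hD (hv i), fun t x hx => ?_⟩
  have h1 : X t =ᶠ[𝓝 x] fun y => ∑ i, c i t • v i y := by
    filter_upwards [hD.mem_nhds hx] with y hy using he t y hy
  dsimp only
  rw [lap_congr h1, lap_sum_on hD Finset.univ (v := fun i y => c i t • v i y)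
    (fun i _ => (hv i).1.const_smul (c i t)) hx]
  exact Finset.sum_congr rfl fun i _ => lap_const_smul_on hD (c i t) (hv i).1 hx

theorem FS.bd (hD : IsOpen D) {X : ℝ → Ed d → G} (hX : FS D X) (t : ℝ) : BD D (X t) := by
  obtain ⟨ι, hι, c, v, hc, hv, he⟩ := hX
  exact (BD.sum hD Finset.univ fun i _ => (hv i).const_smul hD (c i t)).congr hD fun x hx => (he t x hx).symm

theorem FS.differentiable_t {X : ℝ → Ed d → G} (hX : FS D X) {x : Ed d} (hx : x ∈ D) :
    Differentiable ℝ fun t => X t x := by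
  obtain ⟨ι, hι, c, v, hc, hv, he⟩ := hX
  have h1 : (fun s => X s x) = fun s => ∑ i, c i s • v i x := funext fun s => he s x hx
  rw [h1]
  exact Differentiable.fun_sum fun i _ => ((hc i).differentiable (by norm_num)).smul_const (v i x)

/-- Joint continuity. -/
theorem FS.continuousOn {X : ℝ → Ed d → G} (hX : FS D X) :
    ContinuousOn (fun p : ℝ × Ed d => X p.1 p.2) (univ ×ˢ D) := by
  obtain ⟨ι, hι, c, v, hc, hv, he⟩ := hX
  have h1 : ContinuousOn (fun p : ℝ × Ed d => ∑ i, c i p.1 • v i p.2) (univ ×ˢ D) := by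
    refine continuousOn_finsetSum _ fun i _ => ContinuousOn.smul ?_ ?_
    · exact ((hc i).continuous.comp continuous_fst).continuousOn
    · exact (hv i).1.continuousOn.comp continuousOn_snd fun p hp => hp.2
  exact h1.congr fun p hp => he p.1 p.2 hp.2

theorem FS.dt_add {X Y : ℝ → Ed d → G} (hX : FS D X) (hY : FS D Y) {x : Ed d} (hx : x ∈ D) (t : ℝ) :
    deriv (fun s => X s x + Y s x) t = deriv (fun s => X s x) t + deriv (fun s => Y s x) t := by
  exact deriv_fun_add (hX.differentiable_t hx t) (hY.differentiable_t hx t)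

/-- Atoms are finite sums: `PR.sep`; `c(t) T(t/ε²)` is smooth, `f(z/ε)` is smooth on the whole space. -/
theorem atm_ffs (hD : IsOpen D) (hb : Bornology.IsBounded D) (hz : Smo z) {c : ℝ → ℝ}
    (hc : ContDiff ℝ ((⊤ : ℕ∞) : WithTop ℕ∞) c) {s : Set ℤ} {K : ℝ → ℝ → ℝ} (hK : K ∈ PR s) {v : Ed d → G}
    (hv : BD D v) : FFS D (atm z c K v) := by
  intro ε hε
  obtain ⟨n, T, f, hT, hf, hK⟩ := PR.sep hK
  refine ⟨Fin n, inferInstance, fun i t => c t * T i (t / ε ^ 2), fun i x => f i (z x / ε) • v x, fun i => ?_,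
    fun i => ?_, fun t x hx => ?_⟩
  · exact hc.mul ((TR.smooth (hT i)).comp (contDiff_id.div_const _))
  · refine BD.smul hD (BD.of_smo hb ?_) hv
    exact (hf i).comp (ContDiff.div_const hz ε)
  · show (c t * K (t / ε ^ 2) (z x / ε)) • v x = _
    rw [hK, Finset.mul_sum, Finset.sum_smul]
    refine Finset.sum_congr rfl fun i _ => ?_
    rw [smul_smul, mul_assoc]

theorem btm_ffs {c : ℝ → ℝ} (hc : ContDiff ℝ ((⊤ : ℕ∞) : WithTop ℕ∞) c) {s : Set ℤ} {T : ℝ → ℝ} (hT : T ∈ TR s)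
    {v : Ed d → G} (hv : BD D v) : FFS D (btm c T v) := by
  intro ε hε
  exact FS.single (hc.mul ((TR.smooth hT).comp (contDiff_id.div_const _))) hv

end Pool.Agent.Lib.MP_79abb3_an.W
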