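import Pool.Agent.Lib.MP_79abb3_an.W.DF1

/-!
Theorem W, block D, part F2: closure properties of the classes of families.
-/

set_option autoImplicit false
set_option linter.unusedSectionVars false

open MeasureTheory Set Filter Topology Function
open scoped ENNReal RealInnerProductSpace

namespace Pool.Agent.Lib.MP_79abb3_an.W

variable {d : ℕ} {D B : Set (Ed d)} {z : Ed d → ℝ} {δ : ℝ} {G : Type} [NormedAddCommGroup G] [NormedSpace ℝ G]
  {m m' : ℤ} {X Y : Fam d (Ed d)} {ι : Type}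

/-! ### `Lb` -/

/-- powers of `ε` -/
theorem df2_zpow {ε : ℝ} (hε : ε ∈ Ioc (0 : ℝ) 1) (hm : m' ≤ m) : ε ^ m ≤ ε ^ m' :=
  zpow_le_zpow_right_of_le_one₀ hε.1 hε.2 hm

theorem df2_zpos {ε : ℝ} (hε : ε ∈ Ioc (0 : ℝ) 1) (m : ℤ) : 0 < ε ^ m := zpow_pos hε.1 m

theorem df2_zadd {ε : ℝ} (hε : ε ∈ Ioc (0 : ℝ) 1) (l m : ℤ) : ε ^ (l + m) = ε ^ l * ε ^ m :=
  zpow_add₀ hε.1.ne' l m

/-- a smaller rate of decay -/
theorem df2_exp {c c' ε w : ℝ} (hε : ε ∈ Ioc (0 : ℝ) 1) (hw : 0 < w) (hc : c' ≤ c) :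
    Real.exp (-(c * (w / ε))) ≤ Real.exp (-(c' * (w / ε))) := by
  refine Real.exp_le_exp.2 (neg_le_neg ?_)
  exact mul_le_mul_of_nonneg_right hc (div_pos hw hε.1).le

theorem Lb.congr {X Y : Fam d G} (h : Lb D z m X) (e : ∀ ε ∈ Ioc (0 : ℝ) 1, ∀ t, ∀ x ∈ D, Y ε t x = X ε t x) :
    Lb D z m Y := by
  obtain ⟨h1, C, c, hc, h2⟩ := h
  refine ⟨fun ε hε => (h1 ε hε).congr (e ε hε), C, c, hc, fun ε hε t x hx => ?_⟩
  rw [e ε hε t x hx]
  exact h2 ε hε t x hx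

theorem Lb.add (hz : ∀ x ∈ D, 0 < z x) {X Y : Fam d G} (h : Lb D z m X) (h' : Lb D z m Y) :
    Lb D z m fun ε t x => X ε t x + Y ε t x := by
  obtain ⟨h1, C, c, hc, h2⟩ := h
  obtain ⟨h1', C', c', hc', h2'⟩ := h'
  refine ⟨fun ε hε => (h1 ε hε).add (h1' ε hε), |C| + |C'|, min c c', lt_min hc hc',
    fun ε hε t x hx => ?_⟩
  have e1 := df2_exp hε (hz x hx) (min_le_left c c')
  have e2 := df2_exp hε (hz x hx) (min_le_right c c')
  have p := (df2_zpos hε m).le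
  calc ‖X ε t x + Y ε t x‖ ≤ ‖X ε t x‖ + ‖Y ε t x‖ := norm_add_le _ _
    _ ≤ C * ε ^ m * Real.exp (-(c * (z x / ε))) + C' * ε ^ m * Real.exp (-(c' * (z x / ε))) :=
        add_le_add (h2 ε hε t x hx) (h2' ε hε t x hx)
    _ ≤ |C| * ε ^ m * Real.exp (-(min c c' * (z x / ε))) +
        |C'| * ε ^ m * Real.exp (-(min c c' * (z x / ε))) := by
        refine add_le_add ?_ ?_
        · exact mul_le_mul (mul_le_mul_of_nonneg_right (le_abs_self C) p) e1 (Real.exp_pos _).le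
            (mul_nonneg (abs_nonneg C) p)
        · exact mul_le_mul (mul_le_mul_of_nonneg_right (le_abs_self C') p) e2 (Real.exp_pos _).le
            (mul_nonneg (abs_nonneg C') p)
    _ = _ := by ring

theorem Lb.neg {X : Fam d G} (h : Lb D z m X) : Lb D z m fun ε t x => -X ε t x := by
  obtain ⟨h1, C, c, hc, h2⟩ := h
  refine ⟨fun ε hε => (h1 ε hε).neg, C, c, hc, fun ε hε t x hx => ?_⟩
  rw [norm_neg]
  exact h2 ε hε t x hx

theorem Lb.sub (hz : ∀ x ∈ D, 0 < z x) {X Y : Fam d G} (h : Lb D z m X) (h' : Lb D z m Y) :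
    Lb D z m fun ε t x => X ε t x - Y ε t x := by
  refine (Lb.add hz h h'.neg).congr fun ε _ t x _ => ?_
  exact sub_eq_add_neg _ _

theorem df2_Lb_zero : Lb D z m (fun _ _ _ => (0 : G)) := by
  refine ⟨fun ε _ => FS.zero, 0, 1, one_pos, fun ε _ t x _ => ?_⟩
  simp

theorem Lb.sum (hz : ∀ x ∈ D, 0 < z x) (s : Finset ι) {X : ι → Fam d G} (h : ∀ i ∈ s, Lb D z m (X i)) :
    Lb D z m fun ε t x => ∑ i ∈ s, X i ε t x := by
  classical
  induction s using Finset.induction_on with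
  | empty => exact df2_Lb_zero.congr fun ε _ t x _ => Finset.sum_empty
  | insert a s ha ih =>
    refine (Lb.add hz (h a (Finset.mem_insert_self a s))
      (ih fun i hi => h i (Finset.mem_insert_of_mem hi))).congr fun ε _ t x _ => ?_
    exact Finset.sum_insert ha

theorem Lb.mono (hz : ∀ x ∈ D, 0 < z x) (hm : m' ≤ m) {X : Fam d G} (h : Lb D z m X) : Lb D z m' X := by
  obtain ⟨h1, C, c, hc, h2⟩ := h
  refine ⟨h1, |C|, c, hc, fun ε hε t x hx => (h2 ε hε t x hx).trans ?_⟩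
  refine mul_le_mul_of_nonneg_right ?_ (Real.exp_pos _).le
  exact mul_le_mul (le_abs_self C) (df2_zpow hε hm) (df2_zpos hε m).le (abs_nonneg C)

/-- Multiplication by `ε^l`. -/
theorem Lb.zsmul {X : Fam d G} (h : Lb D z m X) (l : ℤ) : Lb D z (l + m) fun ε t x => ε ^ l • X ε t x := by
  obtain ⟨h1, C, c, hc, h2⟩ := h
  refine ⟨fun ε hε => (h1 ε hε).const_smul (ε ^ l), C, c, hc, fun ε hε t x hx => ?_⟩
  rw [norm_smul, Real.norm_of_nonneg (df2_zpos hε l).le, df2_zadd hε]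
  calc ε ^ l * ‖X ε t x‖ ≤ ε ^ l * (C * ε ^ m * Real.exp (-(c * (z x / ε)))) :=
        mul_le_mul_of_nonneg_left (h2 ε hε t x hx) (df2_zpos hε l).le
    _ = _ := by ring

theorem Lb.const_smul (a : ℝ) {X : Fam d G} (h : Lb D z m X) : Lb D z m fun ε t x => a • X ε t x := by
  obtain ⟨h1, C, c, hc, h2⟩ := h
  refine ⟨fun ε hε => (h1 ε hε).const_smul a, |a| * C, c, hc, fun ε hε t x hx => ?_⟩
  rw [norm_smul, Real.norm_eq_abs]
  calc |a| * ‖X ε t x‖ ≤ |a| * (C * ε ^ m * Real.exp (-(c * (z x / ε)))) :=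
        mul_le_mul_of_nonneg_left (h2 ε hε t x hx) (abs_nonneg a)
    _ = _ := by ring

/-! ### `Bb` -/

theorem Bb.congr {X Y : Fam d G} (h : Bb D m X) (e : ∀ ε ∈ Ioc (0 : ℝ) 1, ∀ t, ∀ x ∈ D, Y ε t x = X ε t x) :
    Bb D m Y := by
  obtain ⟨h1, C, h2⟩ := h
  refine ⟨fun ε hε => (h1 ε hε).congr (e ε hε), C, fun ε hε t x hx => ?_⟩
  rw [e ε hε t x hx]
  exact h2 ε hε t x hx

theorem Bb.add {X Y : Fam d G} (h : Bb D m X) (h' : Bb D m Y) : Bb D m fun ε t x => X ε t x + Y ε t x := by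
  obtain ⟨h1, C, h2⟩ := h
  obtain ⟨h1', C', h2'⟩ := h'
  refine ⟨fun ε hε => (h1 ε hε).add (h1' ε hε), C + C', fun ε hε t x hx => ?_⟩
  calc ‖X ε t x + Y ε t x‖ ≤ ‖X ε t x‖ + ‖Y ε t x‖ := norm_add_le _ _
    _ ≤ C * ε ^ m + C' * ε ^ m := add_le_add (h2 ε hε t x hx) (h2' ε hε t x hx)
    _ = _ := by ring

theorem df2_Bb_zero : Bb D m (fun _ _ _ => (0 : G)) := by
  refine ⟨fun ε _ => FS.zero, 0, fun ε _ t x _ => ?_⟩
  simp

theorem Bb.sum (s : Finset ι) {X : ι → Fam d G} (h : ∀ i ∈ s, Bb D m (X i)) :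
    Bb D m fun ε t x => ∑ i ∈ s, X i ε t x := by
  classical
  induction s using Finset.induction_on with
  | empty => exact df2_Bb_zero.congr fun ε _ t x _ => Finset.sum_empty
  | insert a s ha ih =>
    refine (Bb.add (h a (Finset.mem_insert_self a s))
      (ih fun i hi => h i (Finset.mem_insert_of_mem hi))).congr fun ε _ t x _ => ?_
    exact Finset.sum_insert ha

theorem Bb.zsmul {X : Fam d G} (h : Bb D m X) (l : ℤ) : Bb D (l + m) fun ε t x => ε ^ l • X ε t x := by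
  obtain ⟨h1, C, h2⟩ := h
  refine ⟨fun ε hε => (h1 ε hε).const_smul (ε ^ l), C, fun ε hε t x hx => ?_⟩
  rw [norm_smul, Real.norm_of_nonneg (df2_zpos hε l).le, df2_zadd hε]
  calc ε ^ l * ‖X ε t x‖ ≤ ε ^ l * (C * ε ^ m) :=
        mul_le_mul_of_nonneg_left (h2 ε hε t x hx) (df2_zpos hε l).le
    _ = _ := by ring

theorem Bb.mono (hm : m' ≤ m) {X : Fam d G} (h : Bb D m X) : Bb D m' X := by
  obtain ⟨h1, C, h2⟩ := h
  refine ⟨h1, |C|, fun ε hε t x hx => (h2 ε hε t x hx).trans ?_⟩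
  exact mul_le_mul (le_abs_self C) (df2_zpow hε hm) (df2_zpos hε m).le (abs_nonneg C)

end Pool.Agent.Lib.MP_79abb3_an.W
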