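import Pool.Agent.Lib.MP_79abb3_an.W.DF1b
import Pool.Agent.Lib.MP_79abb3_an.W.DF2

/-!
Theorem W, block D, part F2b: bulk classes.
-/

set_option autoImplicit false
set_option linter.unusedSectionVars false

open MeasureTheory Set Filter Topology Function
open scoped ENNReal RealInnerProductSpace

namespace Pool.Agent.Lib.MP_79abb3_an.W

variable {d : ℕ} {D B : Set (Ed d)} {z : Ed d → ℝ} {δ : ℝ} {G : Type} [NormedAddCommGroup G] [NormedSpace ℝ G]
  {m m' : ℤ} {X Y : Fam d (Ed d)} {ι : Type}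

/-! ### `Bkf`, `Tb`, `Dfr`, `Pot` -/

/-- members of `FFS` are differentiable in `D` -/
theorem df2_diff (hD : IsOpen D) {X : Fam d G} (h : FFS D X) {ε : ℝ} (hε : ε ∈ Ioc (0 : ℝ) 1) (t : ℝ) {x : Ed d}
    (hx : x ∈ D) : DifferentiableAt ℝ (X ε t) x :=
  ((h ε hε).bd hD t).diff hD hx

theorem Bkf.add (hD : IsOpen D) (h : Bkf D m X) (h' : Bkf D m Y) : Bkf D m fun ε t x => X ε t x + Y ε t x := by
  obtain ⟨h1, C, h2⟩ := h
  obtain ⟨h1', C', h2'⟩ := h'
  refine ⟨fun ε hε => (h1 ε hε).add (h1' ε hε), C + C', fun ε hε t x hx => ⟨?_, ?_⟩⟩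
  · calc ‖X ε t x + Y ε t x‖ ≤ ‖X ε t x‖ + ‖Y ε t x‖ := norm_add_le _ _
      _ ≤ C * ε ^ m + C' * ε ^ m := add_le_add (h2 ε hε t x hx).1 (h2' ε hε t x hx).1
      _ = _ := by ring
  · have e : fderiv ℝ (fun y => X ε t y + Y ε t y) x = fderiv ℝ (X ε t) x + fderiv ℝ (Y ε t) x :=
      fderiv_fun_add (df2_diff hD h1 hε t hx) (df2_diff hD h1' hε t hx)
    show ‖fderiv ℝ (fun y => X ε t y + Y ε t y) x‖ ≤ _
    rw [e]
    calc ‖fderiv ℝ (X ε t) x + fderiv ℝ (Y ε t) x‖ ≤ ‖fderiv ℝ (X ε t) x‖ + ‖fderiv ℝ (Y ε t) x‖ :=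
          norm_add_le _ _
      _ ≤ C * ε ^ m + C' * ε ^ m := add_le_add (h2 ε hε t x hx).2 (h2' ε hε t x hx).2
      _ = _ := by ring

theorem df2_Bk_zero : Bkf D m (fun _ _ _ => (0 : Ed d)) := by
  refine ⟨fun ε _ => FS.zero, 0, fun ε _ t x _ => ⟨by simp, ?_⟩⟩
  show ‖fderiv ℝ (fun _ : Ed d => (0 : Ed d)) x‖ ≤ _
  rw [fderiv_const_apply]
  simp

theorem Bkf.sum (hD : IsOpen D) (s : Finset ι) {X : ι → Fam d (Ed d)} (h : ∀ i ∈ s, Bkf D m (X i)) :
    Bkf D m fun ε t x => ∑ i ∈ s, X i ε t x := by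
  classical
  induction s using Finset.induction_on with
  | empty => simpa using df2_Bk_zero (D := D) (m := m)
  | insert a s ha ih =>
    have h1 := Bkf.add hD (h a (Finset.mem_insert_self a s))
      (ih fun i hi => h i (Finset.mem_insert_of_mem hi))
    simpa only [Finset.sum_insert ha] using h1

private theorem df2_Bk_smul (hD : IsOpen D) {m'' : ℤ} (a : ℝ → ℝ) {A : ℝ}
    (ha : ∀ ε ∈ Ioc (0 : ℝ) 1, |a ε| * ε ^ m ≤ A * ε ^ m'') (h : Bkf D m X) :
    Bkf D m'' fun ε t x => a ε • X ε t x := by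
  obtain ⟨h1, C, h2⟩ := h
  have key : ∀ ε ∈ Ioc (0 : ℝ) 1, ∀ w : ℝ, w ≤ C * ε ^ m → |a ε| * w ≤ |C| * A * ε ^ m'' := by
    intro ε hε w hw
    calc |a ε| * w ≤ |a ε| * (|C| * ε ^ m) := by
          refine mul_le_mul_of_nonneg_left (hw.trans ?_) (abs_nonneg _)
          exact mul_le_mul_of_nonneg_right (le_abs_self C) (df2_zpos hε m).le
      _ = |C| * (|a ε| * ε ^ m) := by ring
      _ ≤ |C| * (A * ε ^ m'') := mul_le_mul_of_nonneg_left (ha ε hε) (abs_nonneg C)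
      _ = _ := by ring
  refine ⟨fun ε hε => (h1 ε hε).const_smul (a ε), |C| * A, fun ε hε t x hx => ⟨?_, ?_⟩⟩
  · rw [norm_smul, Real.norm_eq_abs]
    exact key ε hε _ (h2 ε hε t x hx).1
  · have e : fderiv ℝ (fun y => a ε • X ε t y) x = a ε • fderiv ℝ (X ε t) x :=
      fderiv_fun_const_smul (df2_diff hD h1 hε t hx) (a ε)
    show ‖fderiv ℝ (fun y => a ε • X ε t y) x‖ ≤ _
    rw [e, norm_smul, Real.norm_eq_abs]
    exact key ε hε _ (h2 ε hε t x hx).2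

theorem Bkf.zsmul (hD : IsOpen D) (h : Bkf D m X) (l : ℤ) : Bkf D (l + m) fun ε t x => ε ^ l • X ε t x := by
  refine df2_Bk_smul hD (fun ε => ε ^ l) (A := 1) (fun ε hε => ?_) h
  show |ε ^ l| * ε ^ m ≤ 1 * ε ^ (l + m)
  rw [abs_of_pos (df2_zpos hε l), one_mul, df2_zadd hε]

theorem Bkf.const_smul (hD : IsOpen D) (a : ℝ) (h : Bkf D m X) : Bkf D m fun ε t x => a • X ε t x :=
  df2_Bk_smul hD (fun _ => a) (A := |a|) (fun _ _ => le_rfl) h

theorem Bkf.mono (hm : m' ≤ m) (h : Bkf D m X) : Bkf D m' X := by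
  obtain ⟨h1, C, h2⟩ := h
  have key : ∀ ε ∈ Ioc (0 : ℝ) 1, C * ε ^ m ≤ |C| * ε ^ m' := fun ε hε =>
    mul_le_mul (le_abs_self C) (df2_zpow hε hm) (df2_zpos hε m).le (abs_nonneg C)
  exact ⟨h1, |C|, fun ε hε t x hx =>
    ⟨(h2 ε hε t x hx).1.trans (key ε hε), (h2 ε hε t x hx).2.trans (key ε hε)⟩⟩

theorem Tb.add (h : Tb D z m X) (h' : Tb D z m Y) : Tb D z m fun ε t x => X ε t x + Y ε t x := by
  obtain ⟨C, h2⟩ := h
  obtain ⟨C', h2'⟩ := h'
  refine ⟨C + C', fun ε hε t x hx => ?_⟩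
  rw [inner_add_right]
  calc |⟪gd z x, X ε t x⟫ + ⟪gd z x, Y ε t x⟫| ≤ |⟪gd z x, X ε t x⟫| + |⟪gd z x, Y ε t x⟫| :=
        abs_add_le _ _
    _ ≤ C * ε ^ m * z x + C' * ε ^ m * z x := add_le_add (h2 ε hε t x hx) (h2' ε hε t x hx)
    _ = _ := by ring

theorem Tb.sum (s : Finset ι) {X : ι → Fam d (Ed d)} (h : ∀ i ∈ s, Tb D z m (X i)) :
    Tb D z m fun ε t x => ∑ i ∈ s, X i ε t x := by
  classical
  induction s using Finset.induction_on with
  | empty =>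
    refine ⟨0, fun ε _ t x _ => ?_⟩
    simp
  | insert a s ha ih =>
    have h1 := Tb.add (h a (Finset.mem_insert_self a s))
      (ih fun i hi => h i (Finset.mem_insert_of_mem hi))
    simpa only [Finset.sum_insert ha] using h1

theorem Dfr.add (hD : IsOpen D) (hX : FFS D X) (hY : FFS D Y) (h : Dfr D X) (h' : Dfr D Y) :
    Dfr D fun ε t x => X ε t x + Y ε t x := by
  intro ε hε t x hx
  show dv (fun y => X ε t y + Y ε t y) x = 0
  rw [dv_add_at (df2_diff hD hX hε t hx) (df2_diff hD hY hε t hx), h ε hε t x hx, h' ε hε t x hx,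
    add_zero]

theorem Dfr.sum (hD : IsOpen D) (s : Finset ι) {X : ι → Fam d (Ed d)} (hX : ∀ i ∈ s, FFS D (X i))
    (h : ∀ i ∈ s, Dfr D (X i)) : Dfr D fun ε t x => ∑ i ∈ s, X i ε t x := by
  intro ε hε t x hx
  show dv (fun y => ∑ i ∈ s, X i ε t y) x = 0
  rw [dv_sum_at s fun i hi => df2_diff hD (hX i hi) hε t hx]
  exact Finset.sum_eq_zero fun i hi => h i hi ε hε t x hx

theorem Dfr.zsmul (hD : IsOpen D) (hX : FFS D X) (h : Dfr D X) (l : ℤ) : Dfr D fun ε t x => ε ^ l • X ε t x := by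
  intro ε hε t x hx
  show dv (fun y => ε ^ l • X ε t y) x = 0
  rw [dv_const_smul_at _ (df2_diff hD hX hε t hx), h ε hε t x hx, mul_zero]

theorem Dfr.const_smul (hD : IsOpen D) (hX : FFS D X) (h : Dfr D X) (a : ℝ) :
    Dfr D fun ε t x => a • X ε t x := by
  intro ε hε t x hx
  show dv (fun y => a • X ε t y) x = 0
  rw [dv_const_smul_at _ (df2_diff hD hX hε t hx), h ε hε t x hx, mul_zero]

theorem Pot.add (h : Pot D B X) (h' : Pot D B Y) : Pot D B fun ε t x => X ε t x + Y ε t x := by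
  intro ε hε
  obtain ⟨ι₁, _, c₁, p₁, a1, a2, a3⟩ := h ε hε
  obtain ⟨ι₂, _, c₂, p₂, b1, b2, b3⟩ := h' ε hε
  refine ⟨ι₁ ⊕ ι₂, inferInstance, Sum.elim c₁ c₂, Sum.elim p₁ p₂, ?_, ?_, fun t x hx => ?_⟩
  · rintro (i | i)
    · exact a1 i
    · exact b1 i
  · rintro (i | i)
    · exact a2 i
    · exact b2 i
  · show X ε t x + Y ε t x = _
    rw [a3 t x hx, b3 t x hx, Fintype.sum_sum_type]
    rfl

theorem df2_Pot_zero : Pot D B (fun _ _ _ => (0 : Ed d)) := by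
  intro ε _
  refine ⟨Empty, inferInstance, fun i => i.elim, fun i => i.elim, fun i => i.elim, fun i => i.elim,
    fun t x _ => ?_⟩
  simp

theorem Pot.sum (s : Finset ι) {X : ι → Fam d (Ed d)} (h : ∀ i ∈ s, Pot D B (X i)) :
    Pot D B fun ε t x => ∑ i ∈ s, X i ε t x := by
  classical
  induction s using Finset.induction_on with
  | empty => simpa using df2_Pot_zero (D := D) (B := B)
  | insert a s ha ih =>
    have h1 := Pot.add (h a (Finset.mem_insert_self a s))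
      (ih fun i hi => h i (Finset.mem_insert_of_mem hi))
    simpa only [Finset.sum_insert ha] using h1

private theorem df2_Pot_smul (a : ℝ → ℝ) (h : Pot D B X) : Pot D B fun ε t x => a ε • X ε t x := by
  intro ε hε
  obtain ⟨ι₁, _, c₁, p₁, a1, a2, a3⟩ := h ε hε
  refine ⟨ι₁, inferInstance, fun i t => a ε * c₁ i t, p₁, fun i => contDiff_const.mul (a1 i), a2,
    fun t x hx => ?_⟩
  show a ε • X ε t x = _
  rw [a3 t x hx, Finset.smul_sum]
  exact Finset.sum_congr rfl fun i _ => smul_smul _ _ _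

theorem Pot.zsmul (h : Pot D B X) (l : ℤ) : Pot D B fun ε t x => ε ^ l • X ε t x :=
  df2_Pot_smul (fun ε => ε ^ l) h

theorem Pot.const_smul (h : Pot D B X) (a : ℝ) : Pot D B fun ε t x => a • X ε t x :=
  df2_Pot_smul (fun _ => a) h

end Pool.Agent.Lib.MP_79abb3_an.W
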