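import Pool.Agent.Lib.MP_79abb3_an.W.DC1
import Pool.Agent.Lib.MP_79abb3_an.W.DF1b
import Pool.Agent.Lib.MP_79abb3_an.W.DF2

/-!
Theorem W, block D, part F3: atoms `c(t) K(t/ε², z/ε) v(x)`: derivatives and bounds.
-/

set_option autoImplicit false
set_option linter.unusedSectionVars false

open MeasureTheory Set Filter Topology Function
open scoped ENNReal RealInnerProductSpace

namespace Pool.Agent.Lib.MP_79abb3_an.W

variable {d : ℕ} {D B : Set (Ed d)} {z : Ed d → ℝ} {δ : ℝ} {G : Type} [NormedAddCommGroup G] [NormedSpace ℝ G]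
  {c : ℝ → ℝ} {K L : ℝ → ℝ → ℝ} {s : Set ℤ}

private theorem df3_exp {a e y : ℝ} (ha : 0 < a) (he : 0 < e) :
    y * Real.exp (-(a * (y / e))) ≤ 2 / a * e * Real.exp (-(a / 2 * (y / e))) := by
  have h1 : Real.exp (-(a * (y / e))) = Real.exp (-(a / 2 * (y / e))) * Real.exp (-(a / 2 * (y / e))) := by
    rw [← Real.exp_add]
    congr 1
    ring
  have h2 : a / 2 * (y / e) ≤ Real.exp (a / 2 * (y / e)) := by
    have := Real.add_one_le_exp (a / 2 * (y / e))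
    linarith
  have h3 : a / 2 * (y / e) * Real.exp (-(a / 2 * (y / e))) ≤ 1 := by
    rw [Real.exp_neg, ← div_eq_mul_inv, div_le_one (Real.exp_pos _)]
    exact h2
  have h4 : y = 2 / a * e * (a / 2 * (y / e)) := by
    field_simp
  have h5 : 0 ≤ 2 / a * e := by positivity
  rw [h1]
  have h6 : 0 < Real.exp (-(a / 2 * (y / e))) := Real.exp_pos _
  generalize Real.exp (-(a / 2 * (y / e))) = q at h3 h6 ⊢
  calc y * (q * q) = 2 / a * e * (a / 2 * (y / e)) * (q * q) := by rw [← h4]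
    _ = 2 / a * e * (a / 2 * (y / e) * q) * q := by ring
    _ ≤ 2 / a * e * 1 * q := by gcongr
    _ = 2 / a * e * q := by ring

private theorem df3_lb (h : Dom D z δ) (hc : ContDiff ℝ ((⊤ : ℕ∞) : WithTop ℕ∞) c) {C0 : ℝ}
    (hC0 : ∀ t, |c t| ≤ C0) (hK : K ∈ PR s) {v : Ed d → G} (hv : BD D v) :
    Lb D z 0 (atm z c K v) := by
  obtain ⟨C1, c1, hc1, hC1, hb1⟩ := PR.bound hK
  obtain ⟨C2, hC2, hb2⟩ := hv.bound
  refine ⟨atm_ffs h.isOpen h.bdd h.smo hc hK hv, C0 * C1 * C2, c1, hc1, ?_⟩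
  intro ε hε t x hx
  have hz : 0 ≤ z x / ε := div_nonneg (h.zpos hx).le hε.1.le
  have e1 := hb1 (t / ε ^ 2) (z x / ε) hz
  have e0 : 0 ≤ C0 := (abs_nonneg _).trans (hC0 0)
  show ‖(c t * K (t / ε ^ 2) (z x / ε)) • v x‖ ≤ _
  rw [norm_smul, norm_mul, Real.norm_eq_abs, Real.norm_eq_abs, zpow_zero, mul_one]
  calc |c t| * |K (t / ε ^ 2) (z x / ε)| * ‖v x‖ ≤ C0 * (C1 * Real.exp (-(c1 * (z x / ε)))) * C2 := by
        gcongr
        · exact hC0 t
        · exact hb2 x hx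
    _ = _ := by ring

theorem atm_lb (h : Dom D z δ) (hc : CB c) (hK : K ∈ PR s) {v : Ed d → G} (hv : BD D v) :
    Lb D z 0 (atm z c K v) := by
  obtain ⟨C0, hC0⟩ := hc.bd
  exact df3_lb h hc.smo (fun t => (hC0 t).1) hK hv

/-- A field which is `O(z)`: one power of `ε` more (`z e^{-cz/ε} ≤ C ε e^{-cz/(2ε)}`). -/
theorem atm_lb_oz (h : Dom D z δ) (hc : CB c) (hK : K ∈ PR s) {v : Ed d → G} (hv : BD D v) (h0 : Oz D z v) :
    Lb D z 1 (atm z c K v) := by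
  obtain ⟨C0, hC0⟩ := hc.bd
  obtain ⟨C1, c1, hc1, hC1, hb1⟩ := PR.bound hK
  obtain ⟨C2, hb2⟩ := h0
  refine ⟨atm_ffs h.isOpen h.bdd h.smo hc.smo hK hv, C0 * C1 * |C2| * (2 / c1), c1 / 2, by positivity, ?_⟩
  intro ε hε t x hx
  have hz0 : 0 ≤ z x := (h.zpos hx).le
  have hz : 0 ≤ z x / ε := div_nonneg hz0 hε.1.le
  have e1 := hb1 (t / ε ^ 2) (z x / ε) hz
  have e0 : 0 ≤ C0 := (abs_nonneg _).trans (hC0 0).1
  have e2 : ‖v x‖ ≤ |C2| * z x := (hb2 x hx).trans (mul_le_mul_of_nonneg_right (le_abs_self _) hz0)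
  have e3 := df3_exp (y := z x) hc1 hε.1
  show ‖(c t * K (t / ε ^ 2) (z x / ε)) • v x‖ ≤ _
  rw [norm_smul, norm_mul, Real.norm_eq_abs, Real.norm_eq_abs, zpow_one]
  calc |c t| * |K (t / ε ^ 2) (z x / ε)| * ‖v x‖
      ≤ C0 * (C1 * Real.exp (-(c1 * (z x / ε)))) * (|C2| * z x) := by
        gcongr
        exact (hC0 t).1
    _ = C0 * C1 * |C2| * (z x * Real.exp (-(c1 * (z x / ε)))) := by ring
    _ ≤ C0 * C1 * |C2| * (2 / c1 * ε * Real.exp (-(c1 / 2 * (z x / ε)))) := by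
        gcongr
    _ = _ := by ring

/-- The same for a bounded factor: `X = O(z)` uniformly in `t`, `Y` of class `Lb D z m`. -/
theorem Lb.mul_z (h : Dom D z δ) {m l : ℤ} {X Y : Fam d G} (hX : Lb D z m X) (hY : FFS D Y) {C : ℝ}
    (hb : ∀ ε ∈ Ioc (0 : ℝ) 1, ∀ t, ∀ x ∈ D, ‖Y ε t x‖ ≤ C * ε ^ l * z x * ‖X ε t x‖) : Lb D z (m + l + 1) Y := by
  obtain ⟨_, C1, c1, hc1, hb1⟩ := hX
  refine ⟨hY, |C| * |C1| * (2 / c1), c1 / 2, by positivity, ?_⟩
  intro ε hε t x hx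
  have hε0 : 0 < ε := hε.1
  have hz0 : 0 ≤ z x := (h.zpos hx).le
  have e1 : ‖X ε t x‖ ≤ |C1| * ε ^ m * Real.exp (-(c1 * (z x / ε))) :=
    (hb1 ε hε t x hx).trans (by gcongr; exact le_abs_self _)
  have e3 := df3_exp (y := z x) hc1 hε.1
  calc ‖Y ε t x‖ ≤ C * ε ^ l * z x * ‖X ε t x‖ := hb ε hε t x hx
    _ ≤ |C| * ε ^ l * z x * ‖X ε t x‖ := by
        gcongr
        exact le_abs_self _
    _ ≤ |C| * ε ^ l * z x * (|C1| * ε ^ m * Real.exp (-(c1 * (z x / ε)))) := by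
        gcongr
    _ = |C| * |C1| * (ε ^ m * ε ^ l) * (z x * Real.exp (-(c1 * (z x / ε)))) := by ring
    _ ≤ |C| * |C1| * (ε ^ m * ε ^ l) * (2 / c1 * ε * Real.exp (-(c1 / 2 * (z x / ε)))) := by
        gcongr
    _ = _ := by
        rw [zpow_add_one₀ hε0.ne', zpow_add₀ hε0.ne']
        ring

private theorem df3_hasFDerivAt (h : Dom D z δ) (hK : K ∈ PR s) {ε : ℝ} (θ a : ℝ) (x : Ed d) :
    HasFDerivAt (fun y => a * K θ (z y / ε)) (a • (pze K θ (z x / ε) • (ε⁻¹ • fderiv ℝ z x))) x := by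
  have hz1 : HasFDerivAt z (fderiv ℝ z x) x := (Smo.differentiable h.smo).differentiableAt.hasFDerivAt
  have hz2 : HasFDerivAt (fun y => z y / ε) (ε⁻¹ • fderiv ℝ z x) x := by
    have h1 : (fun y => z y / ε) = fun y => ε⁻¹ * z y := by
      funext y
      rw [div_eq_inv_mul]
    rw [h1]
    exact hz1.const_mul ε⁻¹
  exact ((PR.hasDerivAt_ze hK θ (z x / ε)).comp_hasFDerivAt x hz2).const_mul a

/-- `∇ (c K v) = ε⁻¹ c K_ζ n ⊗ v + c K ∇v` -/
theorem atm_fderiv (h : Dom D z δ) (hK : K ∈ PR s) {v : Ed d → G} (hv : BD D v) {ε : ℝ} (hε : 0 < ε) (t : ℝ)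
    {x : Ed d} (hx : x ∈ D) (w : Ed d) :
    fderiv ℝ (atm z c K v ε t) x w = (ε⁻¹ * ⟪gd z x, w⟫) • atm z c (pze K) v ε t x +
      atm z c K (fun y => fderiv ℝ v y w) ε t x := by
  have hv1 : HasFDerivAt v (fderiv ℝ v x) x := (hv.diff h.isOpen hx).hasFDerivAt
  have h5 := ((df3_hasFDerivAt (ε := ε) h hK (t / ε ^ 2) (c t) x).smul hv1).fderiv
  have h6 : fderiv ℝ (atm z c K v ε t) x = _ := h5
  rw [h6, inner_gd]
  simp only [atm, FunLike.coe_add, Pi.add_apply, FunLike.coe_smul, Pi.smul_apply,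
    ContinuousLinearMap.smulRight_apply, smul_eq_mul, smul_smul]
  rw [add_comm]
  congr 2
  ring

/-- `∂_t (c K v) = c' K v + ε⁻² c K_θ v` -/
theorem atm_dt (hc : CB c) (hK : K ∈ PR s) (v : Ed d → G) {ε : ℝ} (hε : 0 < ε) (t : ℝ) (x : Ed d) :
    deriv (fun r => atm z c K v ε r x) t = atm z (deriv c) K v ε t x + (ε ^ 2)⁻¹ • atm z c (pth K) v ε t x := by
  have h1 : HasDerivAt c (deriv c t) t := (hc.smo.differentiable (by norm_num) t).hasDerivAt
  have h2 : HasDerivAt (fun r : ℝ => r / ε ^ 2) ((ε ^ 2)⁻¹) t := by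
    have := (hasDerivAt_id t).div_const (ε ^ 2)
    simpa using this
  have h3 : HasDerivAt (fun r : ℝ => K (r / ε ^ 2) (z x / ε)) (pth K (t / ε ^ 2) (z x / ε) * (ε ^ 2)⁻¹) t :=
    HasDerivAt.comp (h₂ := fun r => K r (z x / ε)) t (PR.hasDerivAt_th hK (t / ε ^ 2) (z x / ε)) h2
  have h4 := ((h1.mul h3).smul_const (v x)).deriv
  have h5 : deriv (fun r => atm z c K v ε r x) t = _ := h4
  rw [h5]
  simp only [atm, smul_smul]
  rw [← add_smul]
  congr 1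
  ring

/-- The heat operator, `|n| = 1` on the support of `v`. -/
theorem atm_hop (h : Dom D z δ) (hc : CB c) (hK : K ∈ PR s) {v : Ed d → Ed d} (hv : CV D z δ v) {ε : ℝ} (hε : 0 < ε)
    (t : ℝ) {x : Ed d} (hx : x ∈ D) :
    Hop (atm z c K v) ε t x = (ε ^ 2)⁻¹ • atm z c (fun θ ζ => pth K θ ζ - pze (pze K) θ ζ) v ε t x -
      ε⁻¹ • atm z c (pze K) (fun y => lap z y • v y + (2 : ℝ) • fderiv ℝ v y (gd z y)) ε t x +
      (atm z (deriv c) K v ε t x - atm z c K (lap v) ε t x) := by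
  have hF1 : ∀ {L : ℝ → ℝ → ℝ} (_ : L ∈ PR s) (a r : ℝ),
      HasDerivAt (fun r => a * L (t / ε ^ 2) (r / ε)) (a * (pze L (t / ε ^ 2) (r / ε) * ε⁻¹)) r := by
    intro L hL a r
    have h2 : HasDerivAt (fun r : ℝ => r / ε) ε⁻¹ r := by
      have := (hasDerivAt_id r).div_const ε
      simpa using this
    exact ((PR.hasDerivAt_ze hL (t / ε ^ 2) (r / ε)).comp r h2).const_mul a
  have hFs : ContDiff ℝ ((⊤ : ℕ∞) : WithTop ℕ∞) fun r => c t * K (t / ε ^ 2) (r / ε) := by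
    have h1 : ContDiff ℝ ((⊤ : ℕ∞) : WithTop ℕ∞) fun r : ℝ => (t / ε ^ 2, r / ε) :=
      contDiff_const.prodMk (contDiff_id.div_const ε)
    exact contDiff_const.mul ((PR.smooth hK).comp h1)
  have hd1 : deriv (fun r => c t * K (t / ε ^ 2) (r / ε)) =
      fun r => (c t * ε⁻¹) * pze K (t / ε ^ 2) (r / ε) := by
    funext r
    rw [(hF1 hK (c t) r).deriv]
    ring
  have hd2 : ∀ r, deriv (deriv (fun r => c t * K (t / ε ^ 2) (r / ε))) r =
      (c t * ε⁻¹) * (pze (pze K) (t / ε ^ 2) (r / ε) * ε⁻¹) := by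
    intro r
    rw [hd1]
    exact (hF1 (PR.pze hK) (c t * ε⁻¹) r).deriv
  have hl := lap_comp_smul_on h.isOpen hFs h.smo hv.bd.1 hx
  have hn : ‖gd z x‖ ^ 2 • v x = v x := by
    by_cases h2 : z x < 4 * δ
    · rw [h.gd_norm (by rw [abs_of_pos (h.zpos hx)]; exact h2), one_pow, one_smul]
    · have h3 : 2 * δ < z x := by
        have := h.δ0
        linarith
      rw [hv.supp x hx h3, smul_zero]
  show deriv (fun r => atm z c K v ε r x) t - lap (atm z c K v ε t) x = _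
  have hl2 : lap (atm z c K v ε t) x = _ := hl
  rw [hl2, atm_dt hc hK v hε, hd2, hd1]
  have e1 : (c t * ε⁻¹ * (pze (pze K) (t / ε ^ 2) (z x / ε) * ε⁻¹) * ‖gd z x‖ ^ 2) • v x =
      (c t * ε⁻¹ * (pze (pze K) (t / ε ^ 2) (z x / ε) * ε⁻¹)) • v x := by
    rw [mul_smul, hn]
  rw [e1]
  simp only [atm]
  generalize v x = V
  generalize lap v x = W
  generalize lap z x • V + (2 : ℝ) • (fderiv ℝ v x) (gd z x) = U
  simp only [smul_smul]
  module

/-- Bounds of the last group of terms. -/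
theorem atm_hop_rest (h : Dom D z δ) (hc : CB c) (hK : K ∈ PR s) {v : Ed d → Ed d} (hv : BD D v) :
    Lb D z 0 fun ε t x => atm z (deriv c) K v ε t x - atm z c K (lap v) ε t x := by
  obtain ⟨C0, hC0⟩ := hc.bd
  have hc' : ContDiff ℝ ((⊤ : ℕ∞) : WithTop ℕ∞) (deriv c) := (contDiff_infty_iff_deriv.1 hc.smo).2
  exact Lb.sub (fun x hx => h.zpos hx) (df3_lb h hc' (fun t => (hC0 t).2) hK hv) (atm_lb h hc hK (hv.lap h.isOpen))

end Pool.Agent.Lib.MP_79abb3_an.W
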