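import Pool.Agent.Lib.MP_79abb3_an.W.DC2b
import Pool.Agent.Lib.MP_79abb3_an.W.DF2d
import Pool.Agent.Lib.MP_79abb3_an.W.DF3

/-!
Theorem W, block D, part F3b: layers.
-/

set_option autoImplicit false
set_option linter.unusedSectionVars false

open MeasureTheory Set Filter Topology Function
open scoped ENNReal RealInnerProductSpace

namespace Pool.Agent.Lib.MP_79abb3_an.W

variable {d : ℕ} {D B : Set (Ed d)} {z : Ed d → ℝ} {δ : ℝ} {G : Type} [NormedAddCommGroup G] [NormedSpace ℝ G]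
  {c : ℝ → ℝ} {K L : ℝ → ℝ → ℝ} {s : Set ℤ}

private theorem df3b_ffs (h : Dom D z δ) (hc : CB c) (hK : K ∈ PR s) (hL : L ∈ PR s) {σ : Ed d → Ed d}
    (hσ : CF D z δ σ) : FFS D (lay z c K L σ) := fun ε hε =>
  FS.add (atm_ffs h.isOpen h.bdd h.smo hc.smo hK hσ.bd ε hε)
    (FS.const_smul ε (atm_ffs h.isOpen h.bdd h.smo hc.smo hL (CV.ell h hσ.toCV).bd ε hε))

private theorem df3b_dfr (h : Dom D z δ) (hL : L ∈ PR s) (hKL : pze L = K) {σ : Ed d → Ed d}
    (hσ : CF D z δ σ) : Dfr D (lay z c K L σ) := by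
  intro ε hε t x hx
  have hε0 : 0 < ε := hε.1
  have hF1 : ∀ r, HasDerivAt (fun r => ε * (c t * L (t / ε ^ 2) (r / ε)))
      (ε * (c t * (pze L (t / ε ^ 2) (r / ε) * ε⁻¹))) r := by
    intro r
    have h2 : HasDerivAt (fun r : ℝ => r / ε) ε⁻¹ r := by
      have := (hasDerivAt_id r).div_const ε
      simpa using this
    exact (((PR.hasDerivAt_ze hL (t / ε ^ 2) (r / ε)).comp r h2).const_mul (c t)).const_mul ε
  have hFs : ContDiff ℝ ((⊤ : ℕ∞) : WithTop ℕ∞) fun r => ε * (c t * L (t / ε ^ 2) (r / ε)) := by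
    have h1 : ContDiff ℝ ((⊤ : ℕ∞) : WithTop ℕ∞) fun r : ℝ => (t / ε ^ 2, r / ε) :=
      contDiff_const.prodMk (contDiff_id.div_const ε)
    exact contDiff_const.mul (contDiff_const.mul ((PR.smooth hL).comp h1))
  have hd := strm_div h hFs hσ hx
  have he : (fun y => deriv (fun r => ε * (c t * L (t / ε ^ 2) (r / ε))) (z y) • σ y +
      (ε * (c t * L (t / ε ^ 2) (z y / ε))) • ell z σ y) = lay z c K L σ ε t := by
    funext y
    rw [(hF1 (z y)).deriv]
    simp only [lay, atm, smul_smul, ← hKL]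
    congr 2
    field_simp
  rw [← he]
  exact hd

/-- The layers are layers. -/
theorem lay_isLay (h : Dom D z δ) (hc : CB c) (hK : K ∈ PR s) (hL : L ∈ PR s) (hKL : pze L = K) {σ : Ed d → Ed d}
    (hσ : CF D z δ σ) : IsLay D z 0 (lay z c K L σ) := by
  refine ⟨df3b_ffs h hc hK hL hσ, df3b_dfr h hL hKL hσ, ?_⟩
  have hl : BD D (ell z σ) := (CV.ell h hσ.toCV).bd
  obtain ⟨_, A1, a1, p1, H1⟩ := atm_lb h hc hK hσ.bd
  obtain ⟨_, A2, a2, p2, H2⟩ := atm_lb h hc hL hl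
  obtain ⟨_, A3, a3, p3, H3⟩ := atm_lb h hc (PR.pze hK) hσ.bd
  obtain ⟨_, A4, a4, p4, H4⟩ := atm_lb h hc (PR.pze hL) hl
  obtain ⟨_, A5, a5, p5, H5⟩ := atm_lb h hc hK (hσ.bd.fderiv h.isOpen)
  obtain ⟨_, A6, a6, p6, H6⟩ := atm_lb h hc hL (hl.fderiv h.isOpen)
  obtain ⟨A7, q7, H7⟩ := h.bd_n.bound
  set a := min (min a1 a2) (min (min a3 a4) (min a5 a6)) with ha
  have pa : 0 < a := by
    simp only [ha, lt_min_iff]
    exact ⟨⟨p1, p2⟩, ⟨p3, p4⟩, p5, p6⟩
  have b1 : a ≤ a1 := (min_le_left _ _).trans (min_le_left _ _)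
  have b2 : a ≤ a2 := (min_le_left _ _).trans (min_le_right _ _)
  have b3 : a ≤ a3 := (min_le_right _ _).trans ((min_le_left _ _).trans (min_le_left _ _))
  have b4 : a ≤ a4 := (min_le_right _ _).trans ((min_le_left _ _).trans (min_le_right _ _))
  have b5 : a ≤ a5 := (min_le_right _ _).trans ((min_le_right _ _).trans (min_le_left _ _))
  have b6 : a ≤ a6 := (min_le_right _ _).trans ((min_le_right _ _).trans (min_le_right _ _))
  have key : ∀ (A b : ℝ), a ≤ b → ∀ ε ∈ Ioc (0 : ℝ) 1, ∀ x ∈ D,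
      A * ε ^ (0 : ℤ) * Real.exp (-(b * (z x / ε))) ≤ |A| * Real.exp (-(a * (z x / ε))) := by
    intro A b hb ε hε x hx
    have hz : 0 ≤ z x / ε := div_nonneg (h.zpos hx).le hε.1.le
    rw [zpow_zero, mul_one]
    refine (mul_le_mul_of_nonneg_right (le_abs_self A) (Real.exp_pos _).le).trans ?_
    refine mul_le_mul_of_nonneg_left (Real.exp_le_exp.2 ?_) (abs_nonneg A)
    exact neg_le_neg (mul_le_mul_of_nonneg_right hb hz)
  refine ⟨|A1| + |A2| + |A3| + |A4| + |A5| + |A6| + A7 * |A2|, a, pa, fun ε hε t x hx => ?_⟩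
  have hε0 : 0 < ε := hε.1
  have hε1 : ε ≤ 1 := hε.2
  have c1 := (H1 ε hε t x hx).trans (key A1 a1 b1 ε hε x hx)
  have c2 := (H2 ε hε t x hx).trans (key A2 a2 b2 ε hε x hx)
  have c3 := (H3 ε hε t x hx).trans (key A3 a3 b3 ε hε x hx)
  have c4 := (H4 ε hε t x hx).trans (key A4 a4 b4 ε hε x hx)
  have c5 := (H5 ε hε t x hx).trans (key A5 a5 b5 ε hε x hx)
  have c6 := (H6 ε hε t x hx).trans (key A6 a6 b6 ε hε x hx)
  have c7 := H7 x hx
  set E := Real.exp (-(a * (z x / ε))) with hE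
  have hE0 : 0 ≤ E := (Real.exp_pos _).le
  have n1 := abs_nonneg A1
  have n2 := abs_nonneg A2
  have n3 := abs_nonneg A3
  have n4 := abs_nonneg A4
  have n5 := abs_nonneg A5
  have n6 := abs_nonneg A6
  have n7 := mul_nonneg q7 n2
  refine ⟨?_, ?_, ?_⟩
  · have e1 : ‖lay z c K L σ ε t x‖ ≤ ‖atm z c K σ ε t x‖ + ε * ‖atm z c L (ell z σ) ε t x‖ := by
      refine (norm_add_le _ _).trans ?_
      rw [norm_smul, Real.norm_of_nonneg hε0.le]
    refine e1.trans ?_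
    calc ‖atm z c K σ ε t x‖ + ε * ‖atm z c L (ell z σ) ε t x‖
        ≤ |A1| * E + 1 * (|A2| * E) := by gcongr
      _ = (|A1| + |A2|) * ε ^ (0 : ℤ) * E := by rw [zpow_zero]; ring
      _ ≤ _ := by
        refine mul_le_mul_of_nonneg_right (mul_le_mul_of_nonneg_right ?_ (by positivity)) hE0
        linarith
  · have e1 : ⟪gd z x, lay z c K L σ ε t x⟫ = ε * ⟪gd z x, atm z c L (ell z σ) ε t x⟫ := by
      simp only [lay, atm, inner_add_right, inner_smul_right]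
      rw [hσ.tan x hx]
      ring
    rw [e1, abs_mul, abs_of_pos hε0, zero_add, zpow_one]
    calc ε * |⟪gd z x, atm z c L (ell z σ) ε t x⟫| ≤ ε * (‖gd z x‖ * ‖atm z c L (ell z σ) ε t x‖) := by
          gcongr
          exact abs_real_inner_le_norm _ _
      _ ≤ ε * (A7 * (|A2| * E)) := by gcongr
      _ = (A7 * |A2|) * ε * E := by ring
      _ ≤ _ := by
        refine mul_le_mul_of_nonneg_right (mul_le_mul_of_nonneg_right ?_ hε0.le) hE0
        linarith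
  · intro w
    have d1 : DifferentiableAt ℝ (atm z c K σ ε t) x :=
      ((FS.bd h.isOpen (atm_ffs h.isOpen h.bdd h.smo hc.smo hK hσ.bd ε hε) t).diff h.isOpen hx)
    have d2 : DifferentiableAt ℝ (atm z c L (ell z σ) ε t) x :=
      ((FS.bd h.isOpen (atm_ffs h.isOpen h.bdd h.smo hc.smo hL hl ε hε) t).diff h.isOpen hx)
    have e1 : fderiv ℝ (lay z c K L σ ε t) x w =
        fderiv ℝ (atm z c K σ ε t) x w + ε • fderiv ℝ (atm z c L (ell z σ) ε t) x w := by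
      have := (d1.hasFDerivAt.add (d2.hasFDerivAt.const_smul ε)).fderiv
      have h2 : fderiv ℝ (lay z c K L σ ε t) x = _ := this
      rw [h2]
      simp only [FunLike.coe_add, Pi.add_apply, FunLike.coe_smul, Pi.smul_apply]
    rw [e1, atm_fderiv h hK hσ.bd hε0 t hx w, atm_fderiv h hL hl hε0 t hx w]
    have e2 : atm z c K (fun y => fderiv ℝ σ y w) ε t x = (atm z c K (fderiv ℝ σ) ε t x) w := by
      simp only [atm, FunLike.coe_smul, Pi.smul_apply]
    have e3 : atm z c L (fun y => fderiv ℝ (ell z σ) y w) ε t x = (atm z c L (fderiv ℝ (ell z σ)) ε t x) w := by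
      simp only [atm, FunLike.coe_smul, Pi.smul_apply]
    rw [e2, e3, zpow_zero, one_mul]
    have e4 : ε ^ ((0 : ℤ) - 1) = ε⁻¹ := by
      rw [zero_sub, zpow_neg_one]
    rw [e4]
    have f1 : ‖(ε⁻¹ * ⟪gd z x, w⟫) • atm z c (pze K) σ ε t x‖ ≤ (ε⁻¹ * |⟪gd z x, w⟫|) * (|A3| * E) := by
      rw [norm_smul, norm_mul, Real.norm_of_nonneg (inv_nonneg.2 hε0.le), Real.norm_eq_abs]
      gcongr
    have f2 : ‖(ε⁻¹ * ⟪gd z x, w⟫) • atm z c (pze L) (ell z σ) ε t x‖ ≤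
        (ε⁻¹ * |⟪gd z x, w⟫|) * (|A4| * E) := by
      rw [norm_smul, norm_mul, Real.norm_of_nonneg (inv_nonneg.2 hε0.le), Real.norm_eq_abs]
      gcongr
    have f3 : ‖(atm z c K (fderiv ℝ σ) ε t x) w‖ ≤ |A5| * E * ‖w‖ :=
      (ContinuousLinearMap.le_opNorm _ _).trans (by gcongr)
    have f4 : ‖(atm z c L (fderiv ℝ (ell z σ)) ε t x) w‖ ≤ |A6| * E * ‖w‖ :=
      (ContinuousLinearMap.le_opNorm _ _).trans (by gcongr)
    have p : 0 ≤ ε⁻¹ * |⟪gd z x, w⟫| := by positivity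
    set P := ε⁻¹ * |⟪gd z x, w⟫| with hP
    refine (norm_add_le _ _).trans ?_
    refine (add_le_add (norm_add_le _ _) (norm_smul_le _ _)).trans ?_
    rw [Real.norm_of_nonneg hε0.le]
    refine (add_le_add_right (mul_le_mul_of_nonneg_left (norm_add_le _ _) hε0.le) _).trans ?_
    calc _ ≤ (P * (|A3| * E) + |A5| * E * ‖w‖) + 1 * (P * (|A4| * E) + |A6| * E * ‖w‖) := by
          gcongr
      _ = (|A3| + |A4|) * E * P + (|A5| + |A6|) * E * ‖w‖ := by ring
      _ ≤ (|A1| + |A2| + |A3| + |A4| + |A5| + |A6| + A7 * |A2|) * E * P +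
          (|A1| + |A2| + |A3| + |A4| + |A5| + |A6| + A7 * |A2|) * E * ‖w‖ := by
        refine add_le_add (mul_le_mul_of_nonneg_right (mul_le_mul_of_nonneg_right ?_ hE0) p)
          (mul_le_mul_of_nonneg_right (mul_le_mul_of_nonneg_right ?_ hE0) (norm_nonneg w))
        · linarith
        · linarith
      _ = _ := by ring

/-- The heat operator for layers. -/
theorem lay_hop (h : Dom D z δ) (hc : CB c) (hK : K ∈ PR s) (hL : L ∈ PR s) (hKL : pze L = K) {σ : Ed d → Ed d}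
    (hσ : CF D z δ σ) : Lb D z 0 fun ε t x => Hop (lay z c K L σ) ε t x -
      (ε ^ 2)⁻¹ • atm z c (fun θ ζ => pth K θ ζ - pze (pze K) θ ζ) σ ε t x +
      ε⁻¹ • atm z c (pze K) (fun y => lap z y • σ y + (2 : ℝ) • fderiv ℝ σ y (gd z y)) ε t x -
      ε⁻¹ • atm z c (fun θ ζ => pth L θ ζ - pze K θ ζ) (ell z σ) ε t x := by
  have hlc : CV D z δ (ell z σ) := CV.ell h hσ.toCV
  have hl : BD D (ell z σ) := hlc.bd
  have hzp : ∀ x ∈ D, 0 < z x := fun x hx => h.zpos hx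
  have hO := h.isOpen
  have r1 := atm_hop_rest h hc hK hσ.bd
  have r2 := atm_hop_rest h hc hL hl
  have hv : BD D fun y => lap z y • ell z σ y + (2 : ℝ) • fderiv ℝ (ell z σ) y (gd z y) :=
    (BD.smul hO (h.bd_z.lap hO) hl).add hO ((BD.fderiv_apply hO hl h.bd_n).const_smul hO 2)
  have r3 := atm_lb h hc hK hv
  have r4 : Lb D z 0 fun ε t x => ε • (atm z (deriv c) L (ell z σ) ε t x - atm z c L (lap (ell z σ)) ε t x) := by
    have := (r2.zsmul 1).mono hzp (m' := 0) (by norm_num)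
    refine this.congr fun ε _ t x _ => ?_
    rw [zpow_one]
  refine ((r1.sub hzp r3).add hzp r4).congr fun ε hε t x hx => ?_
  have hε0 : 0 < ε := hε.1
  have fK : FFS D (atm z c K σ) := atm_ffs hO h.bdd h.smo hc.smo hK hσ.bd
  have fL : FFS D (atm z c L (ell z σ)) := atm_ffs hO h.bdd h.smo hc.smo hL hl
  have e1 : Hop (lay z c K L σ) ε t x = Hop (atm z c K σ) ε t x + ε • Hop (atm z c L (ell z σ)) ε t x := by
    rw [← Hop_smul hO fL (fun r => r) hε t hx]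
    exact Hop_add hO fK (fun r hr => FS.const_smul r (fL r hr)) hε t hx
  rw [e1, atm_hop h hc hK hσ.toCV hε0 t hx, atm_hop h hc hL hlc hε0 t hx, hKL]
  generalize atm z c (fun θ ζ => pth K θ ζ - pze (pze K) θ ζ) σ ε t x = X1
  generalize atm z c (pze K) (fun y => lap z y • σ y + (2 : ℝ) • fderiv ℝ σ y (gd z y)) ε t x = X2
  generalize atm z (deriv c) K σ ε t x = X3
  generalize atm z c K (lap σ) ε t x = X4
  generalize atm z c (fun θ ζ => pth L θ ζ - pze K θ ζ) (ell z σ) ε t x = X5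
  generalize atm z (deriv c) L (ell z σ) ε t x = X6
  generalize atm z c L (lap (ell z σ)) ε t x = X7
  generalize atm z c K (fun y => lap z y • ell z σ y + (2 : ℝ) • fderiv ℝ (ell z σ) y (gd z y)) ε t x = X8
  have g1 : ε • (ε ^ 2)⁻¹ • X5 = ε⁻¹ • X5 := by
    rw [smul_smul]
    congr 1
    field_simp
  have g2 : ε • ε⁻¹ • X8 = X8 := by
    rw [smul_smul, mul_inv_cancel₀ hε0.ne', one_smul]
  rw [smul_add, smul_sub, g1, g2]
  abel

private theorem df3b_lip (hK : K ∈ PR s) : ∃ C, 0 ≤ C ∧ ∀ θ ζ, 0 ≤ ζ → |K θ ζ - K θ 0| ≤ C * ζ := by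
  obtain ⟨C, c, hc, hC, hb⟩ := PR.bound (PR.pze hK)
  refine ⟨C, hC, fun θ ζ hζ => ?_⟩
  have h1 := (convex_Ici (0 : ℝ)).norm_image_sub_le_of_norm_hasDerivWithin_le (f := fun r => K θ r)
    (f' := fun r => pze K θ r) (C := C) (x := 0) (y := ζ)
    (fun r _ => (PR.hasDerivAt_ze hK θ r).hasDerivWithinAt) (fun r hr => ?_) self_mem_Ici hζ
  · rwa [Real.norm_eq_abs, Real.norm_eq_abs, sub_zero, abs_of_nonneg hζ] at h1
  · rw [Real.norm_eq_abs]
    refine (hb θ r hr).trans ?_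
    refine mul_le_of_le_one_right hC (Real.exp_le_one_iff.2 ?_)
    exact neg_nonpos.2 (mul_nonneg hc.le hr)

/-- The trace of a layer. -/
theorem lay_trace (h : Dom D z δ) (hc : CB c) (hK : K ∈ PR s) (hL : L ∈ PR s) {σ : Ed d → Ed d} (hσ : CF D z δ σ) :
    Tz D z fun ε t x => lay z c K L σ ε t x - (btm c (fun θ => K θ 0) σ ε t x +
      ε • btm c (fun θ => L θ 0) (ell z σ) ε t x) := by
  intro ε hε t
  have hε0 : 0 < ε := hε.1
  obtain ⟨C1, p1, H1⟩ := df3b_lip hK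
  obtain ⟨C2, p2, H2⟩ := df3b_lip hL
  obtain ⟨A1, q1, G1⟩ := hσ.bd.bound
  obtain ⟨A2, q2, G2⟩ := (CV.ell h hσ.toCV).bd.bound
  refine ⟨|c t| * (C1 * ε⁻¹) * A1 + ε * (|c t| * (C2 * ε⁻¹) * A2), fun x hx => ?_⟩
  have hz : 0 ≤ z x / ε := div_nonneg (h.zpos hx).le hε.1.le
  have e1 : lay z c K L σ ε t x - (btm c (fun θ => K θ 0) σ ε t x + ε • btm c (fun θ => L θ 0) (ell z σ) ε t x) =
      (c t * (K (t / ε ^ 2) (z x / ε) - K (t / ε ^ 2) 0)) • σ x +
      ε • ((c t * (L (t / ε ^ 2) (z x / ε) - L (t / ε ^ 2) 0)) • ell z σ x) := by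
    simp only [lay, atm, btm]
    module
  have e2 := H1 (t / ε ^ 2) (z x / ε) hz
  have e3 := H2 (t / ε ^ 2) (z x / ε) hz
  show ‖lay z c K L σ ε t x - (btm c (fun θ => K θ 0) σ ε t x + ε • btm c (fun θ => L θ 0) (ell z σ) ε t x)‖ ≤ _
  rw [e1]
  refine (norm_add_le _ _).trans ?_
  rw [norm_smul, norm_smul, norm_smul, norm_mul, norm_mul, Real.norm_of_nonneg hε0.le, Real.norm_eq_abs,
    Real.norm_eq_abs, Real.norm_eq_abs]
  calc _ ≤ |c t| * (C1 * (z x / ε)) * A1 + ε * (|c t| * (C2 * (z x / ε)) * A2) := by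
        gcongr
        · exact G1 x hx
        · exact G2 x hx
    _ = _ := by
      field_simp

end Pool.Agent.Lib.MP_79abb3_an.W
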