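import Pool.Agent.Lib.MP_79abb3_an.W.DB2
import Pool.Agent.Lib.MP_79abb3_an.W.DC2b
import Pool.Agent.Lib.MP_79abb3_an.W.DF3

/-!
Theorem W, block D, part N1: negligible families (`Ng`).
-/

set_option autoImplicit false
set_option linter.unusedSectionVars false
set_option linter.unusedVariables false

open MeasureTheory Set Filter Topology Function
open scoped ENNReal RealInnerProductSpace

namespace Pool.Agent.Lib.MP_79abb3_an.W

variable {d : ℕ} {D B : Set (Ed d)} {z : Ed d → ℝ} {δ : ℝ} {X Y : Fam d (Ed d)} {ι : Type} {c : ℝ → ℝ}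
  {K : ℝ → ℝ → ℝ} {s : Set ℤ}

private theorem dn1_open (hS : Stg D B z δ) : IsOpen (D \ B) :=
  hS.dom.col.isOpen.sdiff hS.clo

private theorem dn1_gd_zero (x : Ed d) : gd (fun _ : Ed d => (0 : ℝ)) x = 0 := by
  refine ext_inner_right ℝ fun w => ?_
  rw [inner_gd, fderiv_fun_const]
  simp

private theorem dn1_diff (hS : Stg D B z δ) {p : Ed d → ℝ}
    (hp : ContDiffOn ℝ ((⊤ : ℕ∞) : WithTop ℕ∞) p (D \ B)) {x : Ed d} (hx : x ∈ D \ B) :
    DifferentiableAt ℝ p x :=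
  (hp.contDiffAt ((dn1_open hS).mem_nhds hx)).differentiableAt (by norm_num)

theorem Ng.congr (h : Ng D B z X) (e : ∀ ε ∈ Ioc (0 : ℝ) 1, ∀ t, ∀ x ∈ D \ B, Y ε t x = X ε t x) : Ng D B z Y := by
  obtain ⟨r, π, C, c, hc, hr, hπ, he, hb⟩ := h
  exact ⟨r, π, C, c, hc, hr, hπ, fun ε hε t x hx => by rw [e ε hε t x hx, he ε hε t x hx], hb⟩

theorem Ng.add (hS : Stg D B z δ) (h : Ng D B z X) (h' : Ng D B z Y) : Ng D B z fun ε t x => X ε t x + Y ε t x := by
  obtain ⟨r, π, C, c, hc, hr, hπ, he, hb⟩ := h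
  obtain ⟨r', π', C', c', hc', hr', hπ', he', hb'⟩ := h'
  refine ⟨fun ε t x => r ε t x + r' ε t x, fun ε t x => π ε t x + π' ε t x, |C| + |C'|, min c c', lt_min hc hc',
    fun ε hε => (hr ε hε).add (hr' ε hε), fun ε hε t => (hπ ε hε t).add (hπ' ε hε t), ?_, ?_⟩
  · intro ε hε t x hx
    rw [gd_add_at (dn1_diff hS (hπ ε hε t) hx) (dn1_diff hS (hπ' ε hε t) hx)]
    simp only [he ε hε t x hx, he' ε hε t x hx]
    abel
  · intro ε hε t x hx
    have hz : 0 ≤ z x / ε := div_nonneg (hS.dom.zpos hx).le hε.1.le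
    have e1 : Real.exp (-(c * (z x / ε))) ≤ Real.exp (-(min c c' * (z x / ε))) :=
      Real.exp_le_exp.2 (neg_le_neg (mul_le_mul_of_nonneg_right (min_le_left _ _) hz))
    have e2 : Real.exp (-(c' * (z x / ε))) ≤ Real.exp (-(min c c' * (z x / ε))) :=
      Real.exp_le_exp.2 (neg_le_neg (mul_le_mul_of_nonneg_right (min_le_right _ _) hz))
    have h0 : 0 ≤ ε⁻¹ := inv_nonneg.2 hε.1.le
    have b1 : ‖r ε t x‖ ≤ |C| * (ε⁻¹ * Real.exp (-(min c c' * (z x / ε))) + ε) := by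
      refine (hb ε hε t x hx).trans ?_
      refine mul_le_mul (le_abs_self C) ?_ ?_ (abs_nonneg C)
      · have := mul_le_mul_of_nonneg_left e1 h0
        linarith
      · have := mul_nonneg h0 (Real.exp_pos (-(c * (z x / ε)))).le
        linarith [hε.1]
    have b2 : ‖r' ε t x‖ ≤ |C'| * (ε⁻¹ * Real.exp (-(min c c' * (z x / ε))) + ε) := by
      refine (hb' ε hε t x hx).trans ?_
      refine mul_le_mul (le_abs_self C') ?_ ?_ (abs_nonneg C')
      · have := mul_le_mul_of_nonneg_left e2 h0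
        linarith
      · have := mul_nonneg h0 (Real.exp_pos (-(c' * (z x / ε)))).le
        linarith [hε.1]
    calc ‖r ε t x + r' ε t x‖ ≤ ‖r ε t x‖ + ‖r' ε t x‖ := norm_add_le _ _
      _ ≤ (|C| + |C'|) * (ε⁻¹ * Real.exp (-(min c c' * (z x / ε))) + ε) := by rw [add_mul]; exact add_le_add b1 b2

theorem Ng.const_smul (hS : Stg D B z δ) (a : ℝ) (h : Ng D B z X) : Ng D B z fun ε t x => a • X ε t x := by
  obtain ⟨r, π, C, c, hc, hr, hπ, he, hb⟩ := h
  refine ⟨fun ε t x => a • r ε t x, fun ε t x => a * π ε t x, |a| * C, c, hc,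
    fun ε hε => (hr ε hε).const_smul a, fun ε hε t => contDiffOn_const.mul (hπ ε hε t), ?_, ?_⟩
  · intro ε hε t x hx
    rw [gd_smul_at a (dn1_diff hS (hπ ε hε t) hx)]
    simp only [he ε hε t x hx, smul_add]
  · intro ε hε t x hx
    rw [norm_smul, Real.norm_eq_abs, mul_assoc]
    exact mul_le_mul_of_nonneg_left (hb ε hε t x hx) (abs_nonneg a)

theorem Ng.neg (hS : Stg D B z δ) (h : Ng D B z X) : Ng D B z fun ε t x => -X ε t x :=
  (h.const_smul hS (-1)).congr fun ε _ t x _ => by rw [neg_one_smul]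

theorem Ng.sub (hS : Stg D B z δ) (h : Ng D B z X) (h' : Ng D B z Y) : Ng D B z fun ε t x => X ε t x - Y ε t x :=
  (h.add hS (h'.neg hS)).congr fun ε _ t x _ => sub_eq_add_neg _ _

theorem Ng.of_bb (hS : Stg D B z δ) (h : Bb D 1 X) : Ng D B z X := by
  obtain ⟨hf, C, hC⟩ := h
  refine ⟨X, fun _ _ _ => 0, |C|, 1, one_pos, hf, fun ε hε t => contDiffOn_const, ?_, ?_⟩
  · intro ε hε t x hx
    rw [dn1_gd_zero, add_zero]
  · intro ε hε t x hx
    refine (hC ε hε t x hx).trans ?_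
    rw [zpow_one]
    refine mul_le_mul (le_abs_self C) ?_ hε.1.le (abs_nonneg C)
    have := mul_nonneg (inv_nonneg.2 hε.1.le) (Real.exp_pos (-(1 * (z x / ε)))).le
    linarith

private theorem dn1_zero (hS : Stg D B z δ) : Ng D B z fun _ _ _ => (0 : Ed d) :=
  Ng.of_bb hS ⟨fun _ _ => FS.zero, 0, fun ε hε t x hx => by simp⟩

theorem Ng.sum (hS : Stg D B z δ) (s : Finset ι) {X : ι → Fam d (Ed d)} (h : ∀ i ∈ s, Ng D B z (X i)) :
    Ng D B z fun ε t x => ∑ i ∈ s, X i ε t x := by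
  classical
  induction s using Finset.induction_on with
  | empty =>
    refine (dn1_zero hS).congr fun ε _ t x _ => ?_
    rw [Finset.sum_empty]
  | insert a s ha ih =>
    refine ((h a (Finset.mem_insert_self a s)).add hS
      (ih fun i hi => h i (Finset.mem_insert_of_mem hi))).congr fun ε _ t x _ => ?_
    rw [Finset.sum_insert ha]

theorem Ng.of_lb (hS : Stg D B z δ) (h : Lb D z (-1) X) : Ng D B z X := by
  obtain ⟨hf, C, c, hc, hC⟩ := h
  refine ⟨X, fun _ _ _ => 0, |C|, c, hc, hf, fun ε hε t => contDiffOn_const, ?_, ?_⟩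
  · intro ε hε t x hx
    rw [dn1_gd_zero, add_zero]
  · intro ε hε t x hx
    refine (hC ε hε t x hx).trans ?_
    rw [zpow_neg_one, mul_assoc]
    have h1 := mul_nonneg (inv_nonneg.2 hε.1.le) (Real.exp_pos (-(c * (z x / ε)))).le
    exact mul_le_mul (le_abs_self C) (by linarith [hε.1]) h1 (abs_nonneg C)

/-- Gradients are negligible. -/
theorem Ng.of_gd (hS : Stg D B z δ) {π : Fam d ℝ}
    (hπ : ∀ ε ∈ Ioc (0 : ℝ) 1, ∀ t, ContDiffOn ℝ ((⊤ : ℕ∞) : WithTop ℕ∞) (π ε t) (D \ B))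
    (h : ∀ ε ∈ Ioc (0 : ℝ) 1, ∀ t, ∀ x ∈ D \ B, X ε t x = gd (π ε t) x) : Ng D B z X := by
  refine ⟨fun _ _ _ => 0, π, 0, 1, one_pos, fun _ _ => FS.zero, hπ, ?_, ?_⟩
  · intro ε hε t x hx
    rw [zero_add]
    exact h ε hε t x hx
  · intro ε hε t x hx
    simp

/-- **Main reduction**: terms of order `ε⁻²` matter only through the tangential part at the walls. With `G_ζ = K`
(`PR.prim`) and `φ = n·v`: `ε⁻² c K v = ∇(ε⁻¹ c G φ) - ε⁻¹ c G ∇φ + ε⁻² c K (v - φ n)`, the last field is `O(z)`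
(`atm_lb_oz`); `|n| = 1` on the support of `v`. -/
theorem Ng.main (hS : Stg D B z δ) (hc : CB c) (hK : K ∈ PR s) {v : Ed d → Ed d} (hv : CV D z δ v)
    (h0 : Oz D z fun x => v x - ⟪gd z x, v x⟫ • gd z x) :
    Ng D B z fun ε t x => (ε ^ 2)⁻¹ • atm z c K v ε t x := by
  obtain ⟨G, hG, hGK⟩ := PR.prim hK
  have hD : IsOpen D := hS.dom.col.isOpen
  have hn : BD D (gd z) := hS.dom.bd_n
  have hφ : BD D fun x => ⟪gd z x, v x⟫ := BD.inner hD hn hv.bd
  have hgφ : BD D (gd fun x => ⟪gd z x, v x⟫) := BD.gd hD hφ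
  have hw : BD D fun x => v x - ⟪gd z x, v x⟫ • gd z x := BD.sub hD hv.bd (BD.smul hD hφ hn)
  have hatm := atm_ffs hD hS.dom.bdd hS.dom.smo hc.smo hG hφ
  have r1 : Ng D B z fun ε t x => (ε ^ 2)⁻¹ • atm z c K (fun x => v x - ⟪gd z x, v x⟫ • gd z x) ε t x := by
    have h1 := (atm_lb_oz hS.dom hc hK hw h0).zsmul (-2)
    refine Ng.of_lb hS ((Lb.congr h1 fun ε hε t x hx => ?_ : Lb D z (-2 + 1) _))
    rw [zpow_neg]
    rfl
  have r2 : Ng D B z fun ε t x => ε⁻¹ • atm z c G (gd fun x => ⟪gd z x, v x⟫) ε t x := by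
    have h1 := (atm_lb hS.dom hc hG hgφ).zsmul (-1)
    refine Ng.of_lb hS ((Lb.congr h1 fun ε hε t x hx => ?_ : Lb D z (-1 + 0) _))
    rw [zpow_neg_one]
  have r3 : Ng D B z fun ε t x => gd (fun y => ε⁻¹ * atm z c G (fun x => ⟪gd z x, v x⟫) ε t y) x := by
    refine Ng.of_gd hS (π := fun ε t y => ε⁻¹ * atm z c G (fun x => ⟪gd z x, v x⟫) ε t y) ?_
      fun ε hε t x hx => rfl
    intro ε hε t
    exact contDiffOn_const.mul (((FS.bd hD (hatm ε hε) t).1).mono sdiff_subset)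
  refine ((r1.sub hS r2).add hS r3).congr fun ε hε t x hx => ?_
  have hdif : DifferentiableAt ℝ (atm z c G (fun x => ⟪gd z x, v x⟫) ε t) x :=
    BD.diff hD (FS.bd hD (hatm ε hε) t) hx.1
  rw [gd_smul_at ε⁻¹ hdif]
  have hg : gd (atm z c G (fun x => ⟪gd z x, v x⟫) ε t) x =
      (ε⁻¹ * (c t * K (t / ε ^ 2) (z x / ε)) * ⟪gd z x, v x⟫) • gd z x +
        (c t * G (t / ε ^ 2) (z x / ε)) • gd (fun x => ⟪gd z x, v x⟫) x := by
    refine ext_inner_right ℝ fun w => ?_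
    rw [inner_gd, atm_fderiv hS.dom hG hφ hε.1 t hx.1 w, hGK, inner_add_left, real_inner_smul_left,
      real_inner_smul_left, inner_gd (fun x => ⟪gd z x, v x⟫) x w]
    simp only [atm, smul_eq_mul]
    ring
  rw [hg]
  simp only [atm, smul_add, smul_sub, smul_smul]
  have e1 : (ε ^ 2)⁻¹ * (c t * K (t / ε ^ 2) (z x / ε) * ⟪gd z x, v x⟫) =
      ε⁻¹ * (ε⁻¹ * (c t * K (t / ε ^ 2) (z x / ε)) * ⟪gd z x, v x⟫) := by
    rw [pow_two, mul_inv]
    ring
  rw [e1]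
  abel

/-- In particular `v` and `ct v` are equivalent. -/
theorem Ng.main_ct (hS : Stg D B z δ) (hc : CB c) (hK : K ∈ PR s) {v : Ed d → Ed d} (hv : CV D z δ v) :
    Ng D B z fun ε t x => (ε ^ 2)⁻¹ • atm z c K v ε t x - (ε ^ 2)⁻¹ • atm z c K (ct z δ v) ε t x := by
  have hct := ct_cf hS.dom hv.bd
  have hv' : CV D z δ fun x => v x + (-1 : ℝ) • ct z δ v x :=
    CV.add hS.dom hv (CV.const_smul hS.dom (-1) hct.toCV)
  have h0 : Oz D z fun x => (v x + (-1 : ℝ) • ct z δ v x) -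
      ⟪gd z x, v x + (-1 : ℝ) • ct z δ v x⟫ • gd z x := by
    refine (ct_sub hS.dom hv.bd).congr fun x hx => ?_
    rw [inner_add_right, real_inner_smul_right, hct.tan x hx, mul_zero, add_zero, neg_one_smul]
    abel
  refine (Ng.main hS hc hK hv' h0).congr fun ε hε t x hx => ?_
  simp only [atm, neg_one_smul, smul_add, smul_neg]
  rw [sub_eq_add_neg]

end Pool.Agent.Lib.MP_79abb3_an.W
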