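import Pool.Agent.Lib.MP_79abb3_an.W.DC1
import Pool.Agent.Lib.MP_79abb3_an.W.DF2d
import Pool.Agent.Lib.MP_79abb3_an.W.DN1

section

/-!
Theorem W, block D, part N1b: products of classes.
-/

set_option autoImplicit false
set_option linter.unusedSectionVars false
set_option linter.unusedVariables false

open MeasureTheory Set Filter Topology Function
open scoped ENNReal RealInnerProductSpace

namespace Pool.Agent.Lib.MP_79abb3_an.W

variable {d : ℕ} {D B : Set (Ed d)} {z : Ed d → ℝ} {δ : ℝ} {X Y : Fam d (Ed d)} {ι : Type} {c : ℝ → ℝ}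
  {K : ℝ → ℝ → ℝ} {s : Set ℤ}

private theorem dn1b_lay {m : ℤ} (hX : IsLay D z m X) : ∃ C c : ℝ, 0 < c ∧ 0 ≤ C ∧
    ∀ ε ∈ Ioc (0 : ℝ) 1, ∀ t, ∀ x ∈ D,
    ‖X ε t x‖ ≤ C * ε ^ m * Real.exp (-(c * (z x / ε))) ∧
    |⟪gd z x, X ε t x⟫| ≤ C * ε ^ (m + 1) * Real.exp (-(c * (z x / ε))) ∧
    ∀ v : Ed d, ‖fderiv ℝ (X ε t) x v‖ ≤
      C * Real.exp (-(c * (z x / ε))) * (ε ^ (m - 1) * |⟪gd z x, v⟫| + ε ^ m * ‖v‖) := by
  obtain ⟨C, c, hc, h⟩ := hX.bd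
  refine ⟨|C|, c, hc, abs_nonneg C, fun ε hε t x hx => ?_⟩
  obtain ⟨h1, h2, h3⟩ := h ε hε t x hx
  have he := (Real.exp_pos (-(c * (z x / ε)))).le
  refine ⟨h1.trans ?_, h2.trans ?_, fun v => (h3 v).trans ?_⟩
  · exact mul_le_mul_of_nonneg_right
      (mul_le_mul_of_nonneg_right (le_abs_self C) (zpow_pos hε.1 m).le) he
  · exact mul_le_mul_of_nonneg_right
      (mul_le_mul_of_nonneg_right (le_abs_self C) (zpow_pos hε.1 (m + 1)).le) he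
  · refine mul_le_mul_of_nonneg_right (mul_le_mul_of_nonneg_right (le_abs_self C) he) ?_
    have := (zpow_pos hε.1 (m - 1)).le
    have := (zpow_pos hε.1 m).le
    positivity

private theorem dn1b_bk {m : ℤ} (hX : Bkf D m X) : ∃ C : ℝ, 0 ≤ C ∧
    ∀ ε ∈ Ioc (0 : ℝ) 1, ∀ t, ∀ x ∈ D, ‖X ε t x‖ ≤ C * ε ^ m ∧ ‖fderiv ℝ (X ε t) x‖ ≤ C * ε ^ m := by
  obtain ⟨C, h⟩ := hX.2
  refine ⟨|C|, abs_nonneg C, fun ε hε t x hx => ?_⟩
  obtain ⟨h1, h2⟩ := h ε hε t x hx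
  have h0 := mul_le_mul_of_nonneg_right (le_abs_self C) (zpow_pos hε.1 m).le
  exact ⟨h1.trans h0, h2.trans h0⟩

private theorem dn1b_bb (h : Dom D z δ) {m : ℤ} (hX : Lb D z m X) : Bb D m X := by
  obtain ⟨hf, C, c, hc, hb⟩ := hX
  refine ⟨hf, |C|, fun ε hε t x hx => (hb ε hε t x hx).trans ?_⟩
  have hz : 0 ≤ z x / ε := div_nonneg (h.zpos hx).le hε.1.le
  have he : Real.exp (-(c * (z x / ε))) ≤ 1 := Real.exp_le_one_iff.2 (neg_nonpos.2 (mul_nonneg hc.le hz))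
  have h0 := (zpow_pos hε.1 m).le
  calc C * ε ^ m * Real.exp (-(c * (z x / ε))) ≤ |C| * ε ^ m * 1 :=
        mul_le_mul (mul_le_mul_of_nonneg_right (le_abs_self C) h0) he (Real.exp_pos _).le
          (mul_nonneg (abs_nonneg C) h0)
    _ = |C| * ε ^ m := mul_one _

private theorem dn1b_abs (hS : Stg D B z δ) : ∃ M : ℝ, 0 ≤ M ∧ ∀ x ∈ D, ∀ v : Ed d, |⟪gd z x, v⟫| ≤ M * ‖v‖ := by
  obtain ⟨M, hM, h⟩ := hS.dom.bd_n.bound
  exact ⟨M, hM, fun x hx v => (abs_real_inner_le_norm _ _).trans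
    (mul_le_mul_of_nonneg_right (h x hx) (norm_nonneg v))⟩

/-! ### Products of classes -/

/-- layer on layer -/
theorem trn_lay_lay (hS : Stg D B z δ) {m l : ℤ} (hX : IsLay D z m X) (hY : IsLay D z l Y) :
    Lb D z (m + l) (Trn X Y) := by
  obtain ⟨C, c, hc, hC, h⟩ := dn1b_lay hX
  obtain ⟨C', c', hc', hC', h'⟩ := dn1b_lay hY
  refine ⟨Trn_ffs hS.dom.col.isOpen hX.fs hY.fs, 2 * C' * C, c' + c, add_pos hc' hc, fun ε hε t x hx => ?_⟩
  obtain ⟨a1, a2, -⟩ := h ε hε t x hx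
  obtain ⟨-, -, b3⟩ := h' ε hε t x hx
  have he : Real.exp (-((c' + c) * (z x / ε))) =
      Real.exp (-(c' * (z x / ε))) * Real.exp (-(c * (z x / ε))) := by
    rw [← Real.exp_add]
    congr 1
    ring
  have p1 : ε ^ (l - 1) * ε ^ (m + 1) = ε ^ (m + l) := by
    rw [← zpow_add₀ hε.1.ne']
    congr 1
    ring
  have p2 : ε ^ l * ε ^ m = ε ^ (m + l) := by
    rw [← zpow_add₀ hε.1.ne']
    congr 1
    ring
  have q1 := (zpow_pos hε.1 (l - 1)).le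
  have q2 := (zpow_pos hε.1 l).le
  have e1 := (Real.exp_pos (-(c' * (z x / ε)))).le
  calc ‖Trn X Y ε t x‖ ≤ C' * Real.exp (-(c' * (z x / ε))) *
        (ε ^ (l - 1) * |⟪gd z x, X ε t x⟫| + ε ^ l * ‖X ε t x‖) := b3 _
    _ ≤ C' * Real.exp (-(c' * (z x / ε))) *
        (ε ^ (l - 1) * (C * ε ^ (m + 1) * Real.exp (-(c * (z x / ε)))) +
          ε ^ l * (C * ε ^ m * Real.exp (-(c * (z x / ε))))) := by
        refine mul_le_mul_of_nonneg_left ?_ (mul_nonneg hC' e1)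
        exact add_le_add (mul_le_mul_of_nonneg_left a2 q1) (mul_le_mul_of_nonneg_left a1 q2)
    _ = C' * C * (ε ^ (l - 1) * ε ^ (m + 1) + ε ^ l * ε ^ m) *
        (Real.exp (-(c' * (z x / ε))) * Real.exp (-(c * (z x / ε)))) := by ring
    _ = 2 * C' * C * ε ^ (m + l) * Real.exp (-((c' + c) * (z x / ε))) := by
        rw [p1, p2, he]
        ring

/-- bulk on layer -/
theorem trn_bk_lay (hS : Stg D B z δ) {m l : ℤ} (hX : Bkf D m X) (hY : IsLay D z l Y) :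
    Lb D z (m + l - 1) (Trn X Y) := by
  obtain ⟨C, hC, h⟩ := dn1b_bk hX
  obtain ⟨C', c', hc', hC', h'⟩ := dn1b_lay hY
  obtain ⟨M, hM, hn⟩ := dn1b_abs hS
  refine ⟨Trn_ffs hS.dom.col.isOpen hX.1 hY.fs, C' * C * (M + 1), c', hc', fun ε hε t x hx => ?_⟩
  obtain ⟨a1, -⟩ := h ε hε t x hx
  obtain ⟨-, -, b3⟩ := h' ε hε t x hx
  have p1 : ε ^ (l - 1) * ε ^ m = ε ^ (m + l - 1) := by
    rw [← zpow_add₀ hε.1.ne']
    congr 1
    ring
  have p2 : ε ^ l ≤ ε ^ (l - 1) := zpow_le_zpow_right_of_le_one₀ hε.1 hε.2 (by linarith)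
  have q1 := (zpow_pos hε.1 (l - 1)).le
  have q2 := (zpow_pos hε.1 l).le
  have q3 := (zpow_pos hε.1 m).le
  have e1 := (Real.exp_pos (-(c' * (z x / ε)))).le
  have s1 : ε ^ (l - 1) * |⟪gd z x, X ε t x⟫| ≤ ε ^ (l - 1) * (M * (C * ε ^ m)) :=
    mul_le_mul_of_nonneg_left ((hn x hx _).trans (mul_le_mul_of_nonneg_left a1 hM)) q1
  have s2 : ε ^ l * ‖X ε t x‖ ≤ ε ^ (l - 1) * (C * ε ^ m) := mul_le_mul p2 a1 (norm_nonneg _) q1
  calc ‖Trn X Y ε t x‖ ≤ C' * Real.exp (-(c' * (z x / ε))) *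
        (ε ^ (l - 1) * |⟪gd z x, X ε t x⟫| + ε ^ l * ‖X ε t x‖) := b3 _
    _ ≤ C' * Real.exp (-(c' * (z x / ε))) * (ε ^ (l - 1) * (M * (C * ε ^ m)) + ε ^ (l - 1) * (C * ε ^ m)) :=
        mul_le_mul_of_nonneg_left (add_le_add s1 s2) (mul_nonneg hC' e1)
    _ = C' * C * (M + 1) * (ε ^ (l - 1) * ε ^ m) * Real.exp (-(c' * (z x / ε))) := by ring
    _ = C' * C * (M + 1) * ε ^ (m + l - 1) * Real.exp (-(c' * (z x / ε))) := by rw [p1]

/-- tangential bulk on layer -/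
theorem trn_tb_lay (hS : Stg D B z δ) {m l : ℤ} (hX : Bkf D m X) (hX' : Tb D z m X) (hY : IsLay D z l Y) :
    Lb D z (m + l) (Trn X Y) := by
  obtain ⟨C, hC, h⟩ := dn1b_bk hX
  obtain ⟨A0, hA0⟩ := hX'
  obtain ⟨C', c', hc', hC', h'⟩ := dn1b_lay hY
  refine ⟨Trn_ffs hS.dom.col.isOpen hX.1 hY.fs, C' * (|A0| * (2 / c') + C), c' / 2, half_pos hc',
    fun ε hε t x hx => ?_⟩
  obtain ⟨a1, -⟩ := h ε hε t x hx
  have a2 : |⟪gd z x, X ε t x⟫| ≤ |A0| * ε ^ m * z x := by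
    refine (hA0 ε hε t x hx).trans ?_
    exact mul_le_mul_of_nonneg_right
      (mul_le_mul_of_nonneg_right (le_abs_self A0) (zpow_pos hε.1 m).le) (hS.dom.zpos hx).le
  obtain ⟨-, -, b3⟩ := h' ε hε t x hx
  have hζ : 0 ≤ z x / ε := div_nonneg (hS.dom.zpos hx).le hε.1.le
  set ζ := z x / ε with hζd
  have hε0 : ε ≠ 0 := hε.1.ne'
  have hzx : z x = ε * ζ := by
    rw [hζd]
    field_simp
  have p1 : ε ^ (l - 1) * ε ^ m * ε = ε ^ (m + l) := by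
    rw [← zpow_add₀ hε.1.ne', ← zpow_add_one₀ hε.1.ne']
    congr 1
    ring
  have p2 : ε ^ l * ε ^ m = ε ^ (m + l) := by
    rw [← zpow_add₀ hε.1.ne']
    congr 1
    ring
  have q1 := (zpow_pos hε.1 (l - 1)).le
  have q2 := (zpow_pos hε.1 l).le
  have q4 := (zpow_pos hε.1 (m + l)).le
  have e1 := (Real.exp_pos (-(c' * ζ))).le
  have e2 : Real.exp (-(c' * ζ)) = Real.exp (-(c' / 2 * ζ)) * Real.exp (-(c' / 2 * ζ)) := by
    rw [← Real.exp_add]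
    congr 1
    ring
  have e3 : ζ * Real.exp (-(c' / 2 * ζ)) ≤ 2 / c' := by
    have h1 : c' / 2 * ζ ≤ Real.exp (c' / 2 * ζ) := by
      have := Real.add_one_le_exp (c' / 2 * ζ)
      linarith
    have h2 : c' / 2 * ζ * Real.exp (-(c' / 2 * ζ)) ≤ 1 := by
      calc c' / 2 * ζ * Real.exp (-(c' / 2 * ζ)) ≤ Real.exp (c' / 2 * ζ) * Real.exp (-(c' / 2 * ζ)) :=
            mul_le_mul_of_nonneg_right h1 (Real.exp_pos _).le
        _ = 1 := by rw [← Real.exp_add, add_neg_cancel, Real.exp_zero]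
    rw [le_div_iff₀ hc']
    nlinarith [h2]
  have e4 : Real.exp (-(c' / 2 * ζ)) ≤ 1 :=
    Real.exp_le_one_iff.2 (neg_nonpos.2 (mul_nonneg (half_pos hc').le hζ))
  have e5 := (Real.exp_pos (-(c' / 2 * ζ))).le
  calc ‖Trn X Y ε t x‖ ≤ C' * Real.exp (-(c' * ζ)) *
        (ε ^ (l - 1) * |⟪gd z x, X ε t x⟫| + ε ^ l * ‖X ε t x‖) := b3 _
    _ ≤ C' * Real.exp (-(c' * ζ)) * (ε ^ (l - 1) * (|A0| * ε ^ m * z x) + ε ^ l * (C * ε ^ m)) := by
        refine mul_le_mul_of_nonneg_left ?_ (mul_nonneg hC' e1)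
        exact add_le_add (mul_le_mul_of_nonneg_left a2 q1) (mul_le_mul_of_nonneg_left a1 q2)
    _ = C' * ((|A0| * (ε ^ (l - 1) * ε ^ m * ε)) * (ζ * Real.exp (-(c' / 2 * ζ))) +
          (C * (ε ^ l * ε ^ m)) * Real.exp (-(c' / 2 * ζ))) * Real.exp (-(c' / 2 * ζ)) := by
        rw [hzx, e2]
        ring
    _ ≤ C' * ((|A0| * (ε ^ (l - 1) * ε ^ m * ε)) * (2 / c') + (C * (ε ^ l * ε ^ m)) * 1) *
          Real.exp (-(c' / 2 * ζ)) := by
        rw [p1, p2]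
        refine mul_le_mul_of_nonneg_right (mul_le_mul_of_nonneg_left (add_le_add ?_ ?_) hC') e5
        · exact mul_le_mul_of_nonneg_left e3 (mul_nonneg (abs_nonneg A0) q4)
        · exact mul_le_mul_of_nonneg_left e4 (mul_nonneg hC q4)
    _ = C' * (|A0| * (2 / c') + C) * ε ^ (m + l) * Real.exp (-(c' / 2 * ζ)) := by
        rw [p1, p2]
        ring

/-- layer on bulk -/
theorem trn_lay_bk (hS : Stg D B z δ) {m l : ℤ} (hX : IsLay D z m X) (hY : Bkf D l Y) :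
    Lb D z (m + l) (Trn X Y) := by
  obtain ⟨C, c, hc, hC, h⟩ := dn1b_lay hX
  obtain ⟨C', hC', h'⟩ := dn1b_bk hY
  refine ⟨Trn_ffs hS.dom.col.isOpen hX.fs hY.1, C' * C, c, hc, fun ε hε t x hx => ?_⟩
  obtain ⟨a1, -, -⟩ := h ε hε t x hx
  obtain ⟨-, b2⟩ := h' ε hε t x hx
  have q2 := (zpow_pos hε.1 l).le
  have p2 : ε ^ l * ε ^ m = ε ^ (m + l) := by
    rw [← zpow_add₀ hε.1.ne']
    congr 1
    ring
  calc ‖Trn X Y ε t x‖ ≤ ‖fderiv ℝ (Y ε t) x‖ * ‖X ε t x‖ := ContinuousLinearMap.le_opNorm _ _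
    _ ≤ (C' * ε ^ l) * (C * ε ^ m * Real.exp (-(c * (z x / ε)))) :=
        mul_le_mul b2 a1 (norm_nonneg _) (mul_nonneg hC' q2)
    _ = C' * C * (ε ^ l * ε ^ m) * Real.exp (-(c * (z x / ε))) := by ring
    _ = C' * C * ε ^ (m + l) * Real.exp (-(c * (z x / ε))) := by rw [p2]

/-- bulk on bulk -/
theorem trn_bk_bk (hS : Stg D B z δ) {m l : ℤ} (hX : Bkf D m X) (hY : Bkf D l Y) : Bb D (m + l) (Trn X Y) := by
  obtain ⟨C, hC, h⟩ := dn1b_bk hX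
  obtain ⟨C', hC', h'⟩ := dn1b_bk hY
  refine ⟨Trn_ffs hS.dom.col.isOpen hX.1 hY.1, C' * C, fun ε hε t x hx => ?_⟩
  obtain ⟨a1, -⟩ := h ε hε t x hx
  obtain ⟨-, b2⟩ := h' ε hε t x hx
  have q2 := (zpow_pos hε.1 l).le
  have p2 : ε ^ l * ε ^ m = ε ^ (m + l) := by
    rw [← zpow_add₀ hε.1.ne']
    congr 1
    ring
  calc ‖Trn X Y ε t x‖ ≤ ‖fderiv ℝ (Y ε t) x‖ * ‖X ε t x‖ := ContinuousLinearMap.le_opNorm _ _
    _ ≤ (C' * ε ^ l) * (C * ε ^ m) := mul_le_mul b2 a1 (norm_nonneg _) (mul_nonneg hC' q2)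
    _ = C' * C * (ε ^ l * ε ^ m) := by ring
    _ = C' * C * ε ^ (m + l) := by rw [p2]

/-- layer of order `-1` on crude corrector and conversely -/
theorem trn_lay_cr (hS : Stg D B z δ) (hX : IsLay D z (-1) X) (hY : IsCr D Y) :
    Bb D 1 (Trn X Y) ∧ Bb D 1 (Trn Y X) := by
  constructor
  · exact Bb.mono (by norm_num) (dn1b_bb hS.dom (trn_lay_bk hS hX hY.bk))
  · exact Bb.mono (by norm_num) (dn1b_bb hS.dom (trn_bk_lay hS hY.bk hX))

end Pool.Agent.Lib.MP_79abb3_an.W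
end

section

/-!
Theorem W, block D, part N1c: gradients.
-/

set_option autoImplicit false
set_option linter.unusedSectionVars false
set_option linter.unusedVariables false

open MeasureTheory Set Filter Topology Function
open scoped ENNReal RealInnerProductSpace

namespace Pool.Agent.Lib.MP_79abb3_an.W

variable {d : ℕ} {D B : Set (Ed d)} {z : Ed d → ℝ} {δ : ℝ} {X Y : Fam d (Ed d)} {ι : Type} {c : ℝ → ℝ}
  {K : ℝ → ℝ → ℝ} {s : Set ℤ}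

private theorem dn1c_open (hS : Stg D B z δ) : IsOpen (D \ B) :=
  hS.dom.col.isOpen.sdiff hS.clo

private theorem dn1c_of (hS : Stg D B z δ) (h : ∀ ε ∈ Ioc (0 : ℝ) 1, ∃ q : ℝ → Ed d → ℝ,
    (∀ t, ContDiffOn ℝ ((⊤ : ℕ∞) : WithTop ℕ∞) (q t) (D \ B)) ∧ ∀ t, ∀ x ∈ D \ B, X ε t x = gd (q t) x) :
    Ng D B z X := by
  choose! q hq using h
  exact Ng.of_gd hS (π := q) (fun ε hε t => (hq ε hε).1 t) fun ε hε t x hx => (hq ε hε).2 t x hx

private theorem dn1c_sum (hS : Stg D B z δ) {κ : Type} [Fintype κ] (a : κ → ℝ) {p : κ → Ed d → ℝ}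
    (hp : ∀ i, ContDiffOn ℝ ((⊤ : ℕ∞) : WithTop ℕ∞) (p i) (D \ B)) :
    ContDiffOn ℝ ((⊤ : ℕ∞) : WithTop ℕ∞) (fun y => ∑ i, a i * p i y) (D \ B) ∧
    ∀ x ∈ D \ B, gd (fun y => ∑ i, a i * p i y) x = ∑ i, a i • gd (p i) x := by
  refine ⟨ContDiffOn.sum fun i _ => contDiffOn_const.mul (hp i), fun x hx => ?_⟩
  have hd : ∀ i, DifferentiableAt ℝ (p i) x := fun i =>
    ((hp i).contDiffAt ((dn1c_open hS).mem_nhds hx)).differentiableAt (by norm_num)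
  rw [gd_sum_at Finset.univ fun i _ => (hd i).const_mul (a i)]
  exact Finset.sum_congr rfl fun i _ => gd_smul_at (a i) (hd i)

private theorem dn1c_rep (hS : Stg D B z δ) (h : Pot D B X) {ε : ℝ} (hε : ε ∈ Ioc (0 : ℝ) 1) (t : ℝ) :
    ∃ P : Ed d → ℝ, ContDiffOn ℝ ((⊤ : ℕ∞) : WithTop ℕ∞) P (D \ B) ∧ ∀ x ∈ D \ B, X ε t x = gd P x := by
  obtain ⟨κ, _, c, p, hc, hp, he⟩ := h ε hε
  obtain ⟨h1, h2⟩ := dn1c_sum hS (fun i => c i t) hp
  exact ⟨_, h1, fun x hx => by rw [he t x hx, h2 x hx]⟩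

/-- Sums of gradients: `∂_t P`, `(P·∇)P`, `ΔP` are gradients off `B`. -/
theorem Pot.ng_dt (hS : Stg D B z δ) (h : Pot D B X) : Ng D B z fun ε t x => deriv (fun r => X ε r x) t := by
  refine dn1c_of hS fun ε hε => ?_
  obtain ⟨κ, _, c, p, hc, hp, he⟩ := h ε hε
  refine ⟨fun t y => ∑ i, deriv (c i) t * p i y, fun t => (dn1c_sum hS (fun i => deriv (c i) t) hp).1,
    fun t x hx => ?_⟩
  rw [(dn1c_sum hS (fun i => deriv (c i) t) hp).2 x hx]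
  have e : (fun r => X ε r x) = fun r => ∑ i, c i r • gd (p i) x := by
    funext r
    exact he r x hx
  have hd : ∀ i, DifferentiableAt ℝ (c i) t := fun i => ((hc i).contDiffAt).differentiableAt (by norm_num)
  rw [e, deriv_fun_sum fun i _ => (hd i).smul_const (gd (p i) x)]
  exact Finset.sum_congr rfl fun i _ => deriv_smul_const (hd i) (gd (p i) x)

theorem Pot.ng_lap (hS : Stg D B z δ) (h : Pot D B X) : Ng D B z fun ε t x => lap (X ε t) x := by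
  refine dn1c_of hS fun ε hε => ?_
  choose P hP hX using fun t => dn1c_rep hS h hε t
  refine ⟨fun t => lap (P t), fun t => lap_contDiffOn (dn1c_open hS) (hP t), fun t x hx => ?_⟩
  rw [← lap_gd_on (dn1c_open hS) (hP t) hx]
  exact lap_congr (Filter.eventually_of_mem ((dn1c_open hS).mem_nhds hx) fun y hy => hX t y hy)

theorem Pot.ng_trn (hS : Stg D B z δ) (h : Pot D B X) : Ng D B z (Trn X X) := by
  refine dn1c_of hS fun ε hε => ?_
  choose P hP hX using fun t => dn1c_rep hS h hε t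
  refine ⟨fun t y => ‖gd (P t) y‖ ^ 2 / 2, fun t => ?_, fun t x hx => ?_⟩
  · exact ((gd_contDiffOn (dn1c_open hS) (hP t)).norm_sq ℝ).div_const 2
  · rw [← fderiv_gd_self (dn1c_open hS) (hP t) hx]
    have e : X ε t =ᶠ[𝓝 x] gd (P t) :=
      Filter.eventually_of_mem ((dn1c_open hS).mem_nhds hx) fun y hy => hX t y hy
    show fderiv ℝ (X ε t) x (X ε t x) = _
    rw [e.fderiv_eq, hX t x hx]

/-- The derivative of a sum of gradients is symmetric. -/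
theorem Pot.symm (hS : Stg D B z δ) (h : Pot D B X) {ε : ℝ} (hε : ε ∈ Ioc (0 : ℝ) 1) (t : ℝ) {x : Ed d}
    (hx : x ∈ D \ B) (v w : Ed d) : ⟪fderiv ℝ (X ε t) x v, w⟫ = ⟪fderiv ℝ (X ε t) x w, v⟫ := by
  obtain ⟨P, hP, hX⟩ := dn1c_rep hS h hε t
  have e : X ε t =ᶠ[𝓝 x] gd P :=
    Filter.eventually_of_mem ((dn1c_open hS).mem_nhds hx) fun y hy => hX y hy
  rw [e.fderiv_eq]
  exact fderiv_gd_symm (dn1c_open hS) hP hx v w

end Pool.Agent.Lib.MP_79abb3_an.W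
end
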