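import Pool.Agent.Lib.MP_79abb3_an.W.DB2b
import Pool.Agent.Lib.MP_79abb3_an.W.DB3
import Pool.Agent.Lib.MP_79abb3_an.W.DC3b
import Pool.Agent.Lib.MP_79abb3_an.W.DF3b

/-!
Theorem W, block D, part T1: correction of oscillating traces and forced layers.
-/

set_option autoImplicit false
set_option linter.unusedSectionVars false

open MeasureTheory Set Filter Topology Function
open scoped ENNReal RealInnerProductSpace

namespace Pool.Agent.Lib.MP_79abb3_an.W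

variable {d : ℕ} {D B : Set (Ed d)} {z : Ed d → ℝ} {δ : ℝ} {σ : Ed d → Ed d} {a c : ℝ → ℝ}

/-- Heat layers of order `m`: the residual is of order `m - 1`. -/
def HLay (D : Set (Ed d)) (z : Ed d → ℝ) (m : ℤ) (X : Fam d (Ed d)) : Prop := IsLay D z m X ∧ Lb D z (m - 1) (Hop X)

/-- Potential fields of order `m`. -/
def PLay (D B : Set (Ed d)) (m : ℤ) (X : Fam d (Ed d)) : Prop := Bkf D m X ∧ Dfr D X ∧ Pot D B X

/-- `X` vanishes where the coefficient vanishes (for all `ε`). -/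
def Van (c : ℝ → ℝ) (X : Fam d (Ed d)) : Prop := ∀ ε t x, c t = 0 → X ε t x = 0

/-! ### auxiliary closure properties -/

private theorem dt1_hlay_add (h : Dom D z δ) {m : ℤ} {X Y : Fam d (Ed d)} (hX : HLay D z m X) (hY : HLay D z m Y) :
    HLay D z m fun ε t x => X ε t x + Y ε t x := by
  refine ⟨hX.1.add h hY.1, ?_⟩
  exact (hX.2.add (fun x hx => h.zpos hx) hY.2).congr fun ε hε t x hx =>
    Hop_add h.isOpen hX.1.fs hY.1.fs hε t hx

/-- multiplication by `(ε a)^l` -/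
private theorem dt1_hlay_smul (h : Dom D z δ) {m : ℤ} {X : Fam d (Ed d)} (hX : HLay D z m X) (a : ℝ) (l : ℕ) :
    HLay D z m fun ε t x => (ε ^ l * a) • X ε t x := by
  have h0 : ∀ x ∈ D, 0 < z x := fun x hx => h.zpos hx
  have h1 : IsLay D z m fun ε t x => ε ^ (l : ℤ) • (a • X ε t x) :=
    ((hX.1.const_smul h a).zsmul h l).mono h (by omega)
  have h2 : Lb D z (m - 1) fun ε t x => ε ^ (l : ℤ) • (a • Hop X ε t x) :=
    ((hX.2.const_smul a).zsmul l).mono h0 (by omega)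
  have h3 : (fun ε t x => ε ^ (l : ℤ) • (a • X ε t x) : Fam d (Ed d)) = fun ε t x => (ε ^ l * a) • X ε t x := by
    funext ε t x
    rw [zpow_natCast, smul_smul]
  rw [h3] at h1
  refine ⟨h1, h2.congr fun ε hε t x hx => ?_⟩
  rw [Hop_smul h.isOpen hX.1.fs (fun ε => ε ^ l * a) hε t hx, zpow_natCast, smul_smul]

private theorem dt1_play_add (h : Dom D z δ) {m : ℤ} {X Y : Fam d (Ed d)} (hX : PLay D B m X) (hY : PLay D B m Y) :
    PLay D B m fun ε t x => X ε t x + Y ε t x :=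
  ⟨hX.1.add h.isOpen hY.1, hX.2.1.add h.isOpen hX.1.1 hY.1.1 hY.2.1, hX.2.2.add hY.2.2⟩

private theorem dt1_play_smul (h : Dom D z δ) {m m' : ℤ} {X : Fam d (Ed d)} (hX : PLay D B m X) (a : ℝ) (l : ℕ)
    (hm : m' ≤ l + m) : PLay D B m' fun ε t x => (ε ^ l * a) • X ε t x := by
  have h3 : (fun ε t x => ε ^ (l : ℤ) • (a • X ε t x) : Fam d (Ed d)) = fun ε t x => (ε ^ l * a) • X ε t x := by
    funext ε t x
    rw [zpow_natCast, smul_smul]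
  have h1 := hX.1.const_smul h.isOpen a
  have h2 := (h1.zsmul h.isOpen l).mono hm
  have h4 := (hX.2.1.const_smul h.isOpen hX.1.1 a).zsmul h.isOpen h1.1 l
  have h5 := (hX.2.2.const_smul a).zsmul l
  rw [h3] at h2 h4 h5
  exact ⟨h2, h4, h5⟩

private theorem dt1_van_add {X Y : Fam d (Ed d)} (hX : Van c X) (hY : Van c Y) :
    Van c fun ε t x => X ε t x + Y ε t x := fun ε t x h0 => by
  show X ε t x + Y ε t x = 0
  rw [hX ε t x h0, hY ε t x h0, add_zero]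

private theorem dt1_van_smul {X : Fam d (Ed d)} (hX : Van c X) (a : ℝ → ℝ) :
    Van c fun ε t x => a ε • X ε t x := fun ε t x h0 => by
  show a ε • X ε t x = 0
  rw [hX ε t x h0, smul_zero]

private theorem dt1_van_btm (T : ℝ → ℝ) (v : Ed d → Ed d) : Van c (btm c T v) := fun ε t x h0 => by
  unfold btm
  rw [h0, zero_mul, zero_smul]

private theorem dt1_van_lay (z : Ed d → ℝ) (K G : ℝ → ℝ → ℝ) (σ : Ed d → Ed d) : Van c (lay z c K G σ) :=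
  fun ε t x h0 => by
    unfold lay atm
    rw [h0, zero_mul, zero_mul, zero_smul, zero_smul, smul_zero, add_zero]

private theorem dt1_cr_smul (h : Dom D z δ) {X : Fam d (Ed d)} (hX : IsCr D X) (a : ℝ) :
    IsCr D fun ε t x => (ε * a) • X ε t x := by
  have h1 := (hX.const_smul h.isOpen a).eps h.isOpen
  have h3 : (fun ε t x => ε • (a • X ε t x) : Fam d (Ed d)) = fun ε t x => (ε * a) • X ε t x := by
    funext ε t x
    rw [smul_smul]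
  rwa [h3] at h1

private theorem dt1_tz_add {X Y : Fam d (Ed d)} (hX : Tz D z X) (hY : Tz D z Y) :
    Tz D z fun ε t x => X ε t x + Y ε t x := fun ε hε t => (hX ε hε t).add (hY ε hε t)

private theorem dt1_tz_smul {X : Fam d (Ed d)} (hX : Tz D z X) (a : ℝ → ℝ) :
    Tz D z fun ε t x => a ε • X ε t x := fun ε hε t => (hX ε hε t).const_smul (a ε)

private theorem dt1_gd_play (hS : Stg D B z δ) (hc : CB c) (k : ℕ) (φ : ℝ) {q : Ed d → ℝ}
    (hq : IsPt D z σ q) : PLay D B 0 (btm c (cw k φ) (gd q)) := by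
  have hD := hS.dom.isOpen
  refine ⟨btm_bk hD hc (cw_mem k φ) (hq.bd_gd hS.dom), btm_dfr hD (hq.bd_gd hS.dom) fun x hx =>
    hq.dv_gd hS.dom hx, btm_pot hc (cw_mem k φ) (p := q) (hq.bd.1.mono sdiff_subset) fun x _ => rfl⟩

theorem stokes_hlay (hS : Stg D B z δ) (hc : CB c) {k : ℕ} (hk : 1 ≤ k) (φ : ℝ) (hσ : CF D z δ σ) :
    HLay D z 0 (lay z c (Kh k φ) (Gh k φ) σ) := by
  have h := hS.dom
  have hD := h.isOpen
  have h0 : ∀ x ∈ D, 0 < z x := fun x hx => h.zpos hx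
  have hK := Kh_mem hk φ
  have hG := Gh_mem hk φ
  have hKG := Gh_ze hk φ
  refine ⟨lay_isLay h hc hK hG hKG hσ, ?_⟩
  have h1 := (lay_hop h hc hK hG hKG hσ).mono h0 (m' := 0 - 1) (by norm_num)
  have hb : BD D (fun y => lap z y • σ y + (2 : ℝ) • fderiv ℝ σ y (gd z y)) :=
    (BD.smul hD (h.bd_z.lap hD) hσ.bd).add hD ((hσ.bd.fderiv_apply hD h.bd_n).const_smul hD 2)
  have h2 : Lb D z (0 - 1) fun ε t x => ε⁻¹ • atm z c (pze (Kh k φ))
      (fun y => lap z y • σ y + (2 : ℝ) • fderiv ℝ σ y (gd z y)) ε t x := by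
    have h3 := (atm_lb h hc (PR.pze hK) hb).zsmul (-1)
    refine Lb.congr (m := 0 - 1) (by simpa using h3) fun ε _ t x _ => rfl
  refine (h1.sub h0 h2).congr fun ε hε t x hx => ?_
  have e1 : (fun θ ζ => pth (Kh k φ) θ ζ - pze (pze (Kh k φ)) θ ζ) = fun _ _ => (0 : ℝ) := by
    funext θ ζ
    rw [Kh_heat, sub_self]
  have e2 : (fun θ ζ => pth (Gh k φ) θ ζ - pze (Kh k φ) θ ζ) = fun _ _ => (0 : ℝ) := by
    funext θ ζ
    rw [Gh_th hk, sub_self]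
  have e3 : ∀ v : Ed d → Ed d, atm z c (fun _ _ => (0 : ℝ)) v ε t x = 0 := fun v => by
    unfold atm
    rw [mul_zero, zero_smul]
  rw [e1, e2, e3, e3, smul_zero, smul_zero]
  abel

/-- One step. Trace of `- c cos (kθ+φ) ∇q - lay c Kh Gh σ'`, `σ' = nxt σ q`:
`- c cos (kθ+φ) ℓ(σ) + ε k^{-1/2} c cos (kθ+φ-π/4) ℓ(σ')`. -/
theorem trace_step (hS : Stg D B z δ) (hc : CB c) {k : ℕ} (hk : 1 ≤ k) (φ : ℝ) (hσ : CF D z δ σ) {q : Ed d → ℝ}
    (hq : IsPt D z σ q) : Tz D z fun ε t x =>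
      -btm c (cw k φ) (gd q) ε t x - lay z c (Kh k φ) (Gh k φ) (nxt z δ σ q) ε t x +
      (btm c (cw k φ) (ell z σ) ε t x -
        (ε * (√k)⁻¹) • btm c (cw k (φ - Real.pi / 4)) (ell z (nxt z δ σ q)) ε t x) := by
  intro ε hε t
  have h := hS.dom
  have h1 := (lay_trace h hc (Kh_mem hk φ) (Gh_mem hk φ) (nxt_cf h hσ hq)) ε hε t
  have h2 := (nxt_sub h hσ hq).const_smul (c t * cw k φ (t / ε ^ 2))
  refine (h2.sub h1).congr fun x _ => ?_
  have e1 : (fun θ => Kh k φ θ 0) = cw k φ := funext fun θ => Kh_zero k φ θ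
  have e2 : (fun θ => Gh k φ θ 0) = fun θ => -(√k)⁻¹ * cw k (φ - Real.pi / 4) θ := funext fun θ => Gh_zero k φ θ
  rw [e1, e2]
  unfold btm
  module

/-- **Correction of the trace** `c(t) cos (kθ+φ) ℓ(σ)`: three steps, the last term is corrected by
`ε³ c cos (..) ℓ(σ''')`. -/
theorem trace_corr (hS : Stg D B z δ) (hc : CB c) {k : ℕ} (hk : 1 ≤ k) (φ : ℝ) (hσ : CF D z δ σ) {q : Ed d → ℝ}
    (hq : IsPt D z σ q) : ∃ Y P E : Fam d (Ed d), HLay D z 0 Y ∧ PLay D B 1 P ∧ IsCr D E ∧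
      Van c Y ∧ Van c P ∧ Van c E ∧
      Tz D z fun ε t x => -btm c (cw k φ) (gd q) ε t x + Y ε t x + P ε t x + E ε t x +
        btm c (cw k φ) (ell z σ) ε t x := by
  have h := hS.dom
  have hD := h.isOpen
  obtain ⟨σ₁, hσ₁⟩ : ∃ σ₁, σ₁ = nxt z δ σ q := ⟨_, rfl⟩
  have c1 : CF D z δ σ₁ := hσ₁ ▸ nxt_cf h hσ hq
  obtain ⟨q₁, hq₁⟩ := exists_pt h c1
  obtain ⟨σ₂, hσ₂⟩ : ∃ σ₂, σ₂ = nxt z δ σ₁ q₁ := ⟨_, rfl⟩
  have c2 : CF D z δ σ₂ := hσ₂ ▸ nxt_cf h c1 hq₁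
  obtain ⟨q₂, hq₂⟩ := exists_pt h c2
  obtain ⟨σ₃, hσ₃⟩ : ∃ σ₃, σ₃ = nxt z δ σ₂ q₂ := ⟨_, rfl⟩
  have c3 : CF D z δ σ₃ := hσ₃ ▸ nxt_cf h c2 hq₂
  obtain ⟨φ₁, hφ₁⟩ : ∃ φ₁, φ₁ = φ - Real.pi / 4 := ⟨_, rfl⟩
  obtain ⟨φ₂, hφ₂⟩ : ∃ φ₂, φ₂ = φ₁ - Real.pi / 4 := ⟨_, rfl⟩
  obtain ⟨φ₃, hφ₃⟩ : ∃ φ₃, φ₃ = φ₂ - Real.pi / 4 := ⟨_, rfl⟩
  set κ : ℝ := (√k)⁻¹ with hκ
  have t0 := trace_step hS hc hk φ hσ hq
  have t1 := trace_step hS hc hk φ₁ c1 hq₁
  have t2 := trace_step hS hc hk φ₂ c2 hq₂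
  rw [← hσ₁, ← hφ₁] at t0
  rw [← hσ₂, ← hφ₂] at t1
  rw [← hσ₃, ← hφ₃] at t2
  rw [← hκ] at t0 t1 t2
  refine ⟨fun ε t x => ((ε ^ 0 * (-1)) • lay z c (Kh k φ) (Gh k φ) σ₁ ε t x +
      (ε ^ 1 * (-κ)) • lay z c (Kh k φ₁) (Gh k φ₁) σ₂ ε t x) +
      (ε ^ 2 * (-κ ^ 2)) • lay z c (Kh k φ₂) (Gh k φ₂) σ₃ ε t x,
    fun ε t x => (ε ^ 1 * (-κ)) • btm c (cw k φ₁) (gd q₁) ε t x +
      (ε ^ 2 * (-κ ^ 2)) • btm c (cw k φ₂) (gd q₂) ε t x,
    fun ε t x => (-κ ^ 3) • (ε ^ 3 • btm c (cw k φ₃) (ell z σ₃) ε t x), ?_, ?_, ?_, ?_, ?_, ?_, ?_⟩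
  · exact dt1_hlay_add h (dt1_hlay_add h (dt1_hlay_smul h (stokes_hlay hS hc hk φ c1) _ 0)
      (dt1_hlay_smul h (stokes_hlay hS hc hk φ₁ c2) _ 1)) (dt1_hlay_smul h (stokes_hlay hS hc hk φ₂ c3) _ 2)
  · exact dt1_play_add h (dt1_play_smul h (dt1_gd_play hS hc k φ₁ hq₁) _ 1 (by norm_num))
      (dt1_play_smul h (dt1_gd_play hS hc k φ₂ hq₂) _ 2 (by norm_num))
  · exact (btm_cr hD hc (cw_mem k φ₃) (c3.toCV.ell h).bd fun x hx => ell_div h c3.bd hx).const_smul hD _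
  · exact dt1_van_add (dt1_van_add (dt1_van_smul (dt1_van_lay _ _ _ _) fun ε => ε ^ 0 * (-1))
      (dt1_van_smul (dt1_van_lay _ _ _ _) fun ε => ε ^ 1 * (-κ)))
      (dt1_van_smul (dt1_van_lay _ _ _ _) fun ε => ε ^ 2 * (-κ ^ 2))
  · exact dt1_van_add (dt1_van_smul (dt1_van_btm _ _) fun ε => ε ^ 1 * (-κ))
      (dt1_van_smul (dt1_van_btm _ _) fun ε => ε ^ 2 * (-κ ^ 2))
  · exact dt1_van_smul (dt1_van_smul (dt1_van_btm _ _) fun ε => ε ^ 3) fun _ => -κ ^ 3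
  · have h5 := dt1_tz_add (dt1_tz_add t0 (dt1_tz_smul t1 fun ε => ε * κ)) (dt1_tz_smul t2 fun ε => ε ^ 2 * κ ^ 2)
    intro ε hε t
    refine (h5 ε hε t).congr fun x _ => ?_
    module

/-- a finite sum version of the closure properties -/
private theorem dt1_sum (hS : Stg D B z δ) {n : ℕ} {Y P E R : Fin n → Fam d (Ed d)}
    (h : ∀ i, HLay D z 0 (Y i) ∧ PLay D B 1 (P i) ∧ IsCr D (E i) ∧ Van c (Y i) ∧ Van c (P i) ∧ Van c (E i) ∧
      Tz D z fun ε t x => Y i ε t x + P i ε t x + E i ε t x + R i ε t x) (s : Finset (Fin n)) :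
    ∃ Y P E : Fam d (Ed d), HLay D z 0 Y ∧ PLay D B 1 P ∧ IsCr D E ∧ Van c Y ∧ Van c P ∧ Van c E ∧
      Tz D z fun ε t x => Y ε t x + P ε t x + E ε t x + ∑ i ∈ s, R i ε t x := by
  have h' := hS.dom
  have hD := h'.isOpen
  have h0 : ∀ x ∈ D, 0 < z x := fun x hx => h'.zpos hx
  refine ⟨fun ε t x => ∑ i ∈ s, Y i ε t x, fun ε t x => ∑ i ∈ s, P i ε t x, fun ε t x => ∑ i ∈ s, E i ε t x,
    ⟨?_, ?_⟩, ⟨?_, ?_, ?_⟩, ?_, ?_, ?_, ?_, ?_⟩
  · exact IsLay.sum h' s fun i _ => (h i).1.1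
  · exact (Lb.sum h0 s fun i _ => (h i).1.2).congr fun ε hε t x hx =>
      Hop_sum hD s (fun i _ => (h i).1.1.fs) hε t hx
  · exact Bkf.sum hD s fun i _ => (h i).2.1.1
  · exact Dfr.sum hD s (fun i _ => (h i).2.1.1.1) fun i _ => (h i).2.1.2.1
  · exact Pot.sum s fun i _ => (h i).2.1.2.2
  · exact IsCr.sum hD s fun i _ => (h i).2.2.1
  · exact fun ε t x hx => Finset.sum_eq_zero fun i _ => (h i).2.2.2.1 ε t x hx
  · exact fun ε t x hx => Finset.sum_eq_zero fun i _ => (h i).2.2.2.2.1 ε t x hx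
  · exact fun ε t x hx => Finset.sum_eq_zero fun i _ => (h i).2.2.2.2.2.1 ε t x hx
  · intro ε hε t
    refine (Oz.sum s fun i _ => (h i).2.2.2.2.2.2 ε hε t).congr fun x _ => ?_
    simp only [Finset.sum_add_distrib]

/-- The same with a factor `ε` and for all `T` of mean zero (`TR.waves`): the potential is of order `1`. -/
theorem trace_corr_eps (hS : Stg D B z δ) (hc : CB c) {T : ℝ → ℝ} (hT : T ∈ TR {0}ᶜ) (hσ : CF D z δ σ) :
    ∃ Y P E : Fam d (Ed d), HLay D z 0 Y ∧ PLay D B 1 P ∧ IsCr D E ∧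
      Van c Y ∧ Van c P ∧ Van c E ∧
      Tz D z fun ε t x => Y ε t x + P ε t x + E ε t x + ε • btm c T (ell z σ) ε t x := by
  have h := hS.dom
  have hD := h.isOpen
  obtain ⟨n, k, φ, A, hk, hT'⟩ := TR.waves hT
  obtain ⟨q, hq⟩ := exists_pt h hσ
  have h1 := fun i => trace_corr hS hc (hk i) (φ i) hσ hq
  choose Y P E h2 h3 h4 h5 h6 h7 h8 using h1
  obtain ⟨Y', P', E', g1, g2, g3, g4, g5, g6, g7⟩ := dt1_sum (c := c) hS
    (Y := fun i ε t x => (ε ^ 1 * A i) • Y i ε t x)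
    (P := fun i ε t x => (ε ^ 1 * (-A i)) • btm c (cw (k i) (φ i)) (gd q) ε t x + (ε ^ 1 * A i) • P i ε t x)
    (E := fun i ε t x => (ε * A i) • E i ε t x)
    (R := fun i ε t x => (ε * A i) • btm c (cw (k i) (φ i)) (ell z σ) ε t x) (fun i => by
      refine ⟨dt1_hlay_smul h (h2 i) _ 1, dt1_play_add h
        (dt1_play_smul h (dt1_gd_play hS hc (k i) (φ i) hq) _ 1 (by norm_num))
        (dt1_play_smul h (h3 i) _ 1 (by norm_num)), dt1_cr_smul h (h4 i) _,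
        dt1_van_smul (h5 i) fun ε => ε ^ 1 * A i, dt1_van_add (dt1_van_smul (dt1_van_btm _ _) fun ε => ε ^ 1 * (-A i))
          (dt1_van_smul (h6 i) fun ε => ε ^ 1 * A i), dt1_van_smul (h7 i) fun ε => ε * A i, ?_⟩
      intro ε hε t
      refine ((dt1_tz_smul (h8 i) fun ε => ε * A i) ε hε t).congr fun x _ => ?_
      module) Finset.univ
  refine ⟨Y', P', E', g1, g2, g3, g4, g5, g6, fun ε hε t => (g7 ε hε t).congr fun x _ => ?_⟩
  unfold btm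
  simp only [smul_smul]
  rw [← Finset.sum_smul, hT', Finset.mul_sum, Finset.mul_sum]
  refine congrArg (fun w : ℝ => Y' ε t x + P' ε t x + E' ε t x + w • ell z σ x) (Finset.sum_congr rfl fun i _ => ?_)
  ring

end Pool.Agent.Lib.MP_79abb3_an.W
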