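import Pool.Agent.Lib.MP_79abb3_an.W.DA2
import Pool.Agent.Lib.MP_79abb3_an.W.DC1

/-!
Theorem W, block D, part W1: extension of functions from the walls, constant along the normals.

`pr r x = x - (z x - r) n(x)` is the point with `z = r` on the normal through `x` (`|z x| < 4δ`, `|r| < 4δ`). For `f` in
`BB(D)` the extension is the limit of `f ∘ pr r`, `r → 0+`, cut off. The family `pr r`, `r ∈ [0, δ]`, has all derivatives
bounded on `{|z| ≤ 3δ}`, uniformly in `r`.
-/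

set_option autoImplicit false
set_option linter.unusedSectionVars false

open MeasureTheory Set Filter Topology Function
open scoped ENNReal RealInnerProductSpace

namespace Pool.Agent.Lib.MP_79abb3_an.W

variable {d : ℕ} {D : Set (Ed d)} {z : Ed d → ℝ} {δ : ℝ} {G : Type} [NormedAddCommGroup G] [NormedSpace ℝ G]

noncomputable def pr (z : Ed d → ℝ) (r : ℝ) (x : Ed d) : Ed d := x - (z x - r) • gd z x

theorem pr_smo (h : Dom D z δ) (r : ℝ) : Smo (pr z r) :=
  contDiff_id.sub ((ContDiff.sub h.smo contDiff_const).smul (Smo.gd h.smo))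

private theorem dw1_push (z : Ed d → ℝ) (r : ℝ) (x : Ed d) : pr z r x = x + (r - z x) • gd z x := by
  unfold pr
  module

theorem pr_z (h : Dom D z δ) {r : ℝ} (hr : |r| < 4 * δ) {x : Ed d} (hx : |z x| < 4 * δ) :
    z (pr z r x) = r ∧ gd z (pr z r x) = gd z x := by
  have h1 := h.push hx (r := r - z x) (by rw [add_sub_cancel]; exact hr)
  rw [add_sub_cancel] at h1
  rw [dw1_push]
  exact h1

theorem pr_mem (h : Dom D z δ) {r : ℝ} (h0 : 0 < r) (hr : r < 4 * δ) {x : Ed d} (hx : |z x| < 4 * δ) :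
    pr z r x ∈ D := by
  rw [h.pos, (pr_z h (by rwa [abs_of_pos h0]) hx).1]
  exact h0

/-- the collar on both sides -/
private theorem dw1_open (h : Dom D z δ) (c : ℝ) : IsOpen {x : Ed d | |z x| < c} :=
  isOpen_lt h.cont.abs continuous_const

private theorem dw1_bdd (h : Dom D z δ) : Bornology.IsBounded {x : Ed d | |z x| < 3 * δ} := by
  have hδ := h.δ0
  obtain ⟨R, hR⟩ := h.bdd.exists_norm_le
  refine isBounded_iff_forall_norm_le.2 ⟨R + 4 * δ, fun x hx => ?_⟩
  have hx' : |z x| < 3 * δ := hx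
  have h1 : pr z δ x ∈ D := pr_mem h hδ (by linarith) (by linarith)
  have h2 := hR _ h1
  have h3 : x = pr z δ x - (δ - z x) • gd z x := by rw [dw1_push]; abel
  have h4 : ‖(δ - z x) • gd z x‖ ≤ 4 * δ := by
    rw [norm_smul, h.gd_norm (by linarith), mul_one, Real.norm_eq_abs]
    have h5 := abs_sub δ (z x)
    rw [abs_of_pos hδ] at h5
    linarith
  calc ‖x‖ = ‖pr z δ x - (δ - z x) • gd z x‖ := by rw [← h3]
    _ ≤ ‖pr z δ x‖ + ‖(δ - z x) • gd z x‖ := norm_sub_le _ _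
    _ ≤ R + 4 * δ := add_le_add h2 h4

/-- bounds of the derivatives of smooth functions on the collar -/
private theorem dw1_bd {E : Type} [NormedAddCommGroup E] [NormedSpace ℝ E] (h : Dom D z δ) {f : Ed d → E}
    (hf : Smo f) (k : ℕ) : ∃ C, 0 ≤ C ∧ Bn {x : Ed d | |z x| < 3 * δ} k C f := by
  have h1 : ∀ i : ℕ, ∃ C, ∀ x, |z x| < 3 * δ → ‖iteratedFDeriv ℝ i f x‖ ≤ C := by
    intro i
    have h2 : Continuous (iteratedFDeriv ℝ i f) :=
      ContDiff.continuous_iteratedFDeriv (n := ((⊤ : ℕ∞) : WithTop ℕ∞)) (by exact_mod_cast le_top) hf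
    obtain ⟨C, hC⟩ := (dw1_bdd h).isCompact_closure.exists_bound_of_continuousOn h2.continuousOn
    exact ⟨C, fun x hx => hC x (subset_closure hx)⟩
  choose C hC using h1
  refine ⟨∑ i ∈ Finset.range (k + 1), |C i|, Finset.sum_nonneg fun i _ => abs_nonneg _, fun i hi x hx => ?_⟩
  refine (hC i x hx).trans ((le_abs_self _).trans ?_)
  exact Finset.single_le_sum (f := fun i => |C i|) (fun j _ => abs_nonneg _) (Finset.mem_range.2 (by omega))

/-- `{|z| < 3δ}` is bounded and `pr z r x = pr z 0 x + r n(x)`. -/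
theorem pr_bn (h : Dom D z δ) (k : ℕ) : ∃ C, 1 ≤ C ∧ ∀ r ∈ Icc 0 δ, ∀ i, 1 ≤ i → i ≤ k → ∀ x, |z x| < 3 * δ →
    ‖iteratedFDeriv ℝ i (pr z r) x‖ ≤ C := by
  have hδ := h.δ0
  obtain ⟨C₀, h0, hC₀⟩ := dw1_bd h (pr_smo h 0) k
  obtain ⟨C₁, h1, hC₁⟩ := dw1_bd h (Smo.gd h.smo) k
  refine ⟨1 + (C₀ + δ * C₁), by nlinarith [mul_nonneg hδ.le h1], fun r hr i _ hik x hx => ?_⟩
  have h2 : pr z r = fun x => pr z 0 x + r • gd z x := by
    funext y
    unfold pr
    module
  have h3 : ContDiffAt ℝ (i : WithTop ℕ∞) (pr z 0) x :=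
    (ContDiff.contDiffAt (pr_smo h 0)).of_le (by exact_mod_cast le_top)
  have h4 : ContDiffAt ℝ (i : WithTop ℕ∞) (gd z) x :=
    (ContDiff.contDiffAt (Smo.gd h.smo)).of_le (by exact_mod_cast le_top)
  have h5 : iteratedFDeriv ℝ i (fun x => pr z 0 x + r • gd z x) x =
      iteratedFDeriv ℝ i (pr z 0) x + iteratedFDeriv ℝ i (fun x => r • gd z x) x :=
    iteratedFDeriv_add_apply h3 (h4.const_smul r)
  have h6 : iteratedFDeriv ℝ i (fun x => r • gd z x) x = r • iteratedFDeriv ℝ i (gd z) x :=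
    iteratedFDeriv_const_smul_apply (a := r) (f := gd z) h4
  rw [h2, h5, h6]
  refine (norm_add_le _ _).trans ?_
  rw [norm_smul, Real.norm_eq_abs, abs_of_nonneg hr.1]
  have h7 := hC₀ i hik x hx
  have h8 := hC₁ i hik x hx
  have h9 : r * ‖iteratedFDeriv ℝ i (gd z) x‖ ≤ δ * C₁ := mul_le_mul hr.2 h8 (norm_nonneg _) hδ.le
  linarith

/-- The cut-off in the collar, on both sides of the walls. -/
noncomputable def kap2 (δ : ℝ) (z : Ed d → ℝ) (x : Ed d) : ℝ := kap δ (z x) * kap δ (-z x)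

private theorem dw1_kap_smo (h : Dom D z δ) : Smo (kap2 δ z) :=
  ContDiff.mul ((kap_smooth δ).comp h.smo) ((kap_smooth δ).comp (ContDiff.neg h.smo))

private theorem dw1_kap_zero (h : Dom D z δ) {x : Ed d} (hx : 2 * δ < |z x|) : kap2 δ z x = 0 := by
  unfold kap2
  rcases le_abs.1 hx.le with h1 | h1
  · rw [kap_zero h.δ0 h1, zero_mul]
  · rw [kap_zero h.δ0 h1, mul_zero]

/-- near a point with `2δ < |z|` the cut off functions vanish -/
private theorem dw1_near (h : Dom D z δ) (g : Ed d → G) {x : Ed d} (hx : 2 * δ < |z x|) :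
    (fun x => kap2 δ z x • g x) =ᶠ[𝓝 x] fun _ => 0 := by
  have h1 : {y : Ed d | 2 * δ < |z y|} ∈ 𝓝 x := (isOpen_lt continuous_const h.cont.abs).mem_nhds hx
  filter_upwards [h1] with y hy
  rw [dw1_kap_zero h hy, zero_smul]

/-- the composition is smooth in the collar -/
private theorem dw1_comp (h : Dom D z δ) {f : Ed d → G} (hf : BD D f) {r : ℝ} (h0 : 0 < r) (hr : r ≤ δ) :
    ContDiffOn ℝ ((⊤ : ℕ∞) : WithTop ℕ∞) (fun x => f (pr z r x)) {x : Ed d | |z x| < 3 * δ} := by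
  have hδ := h.δ0
  exact hf.1.comp (ContDiff.contDiffOn (pr_smo h r)) fun x hx =>
    pr_mem h h0 (by linarith) (by have : |z x| < 3 * δ := hx; linarith)

/-- The approximations `f ∘ pr r`, cut off, are smooth on the whole space. -/
theorem ext_smo (h : Dom D z δ) {f : Ed d → G} (hf : BD D f) {r : ℝ} (h0 : 0 < r) (hr : r ≤ δ) :
    Smo fun x => kap2 δ z x • f (pr z r x) := by
  have hδ := h.δ0
  refine contDiff_iff_contDiffAt.2 fun x => ?_
  rcases lt_or_ge (|z x|) (3 * δ) with h1 | h1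
  · exact (ContDiff.contDiffAt (dw1_kap_smo h)).smul ((dw1_comp h hf h0 hr).contDiffAt ((dw1_open h _).mem_nhds h1))
  · exact contDiffAt_const.congr_of_eventuallyEq (dw1_near h _ (by linarith))

/-- Bounds, uniform in `r` (`norm_iteratedFDeriv_comp_le`, Leibniz). -/
theorem ext_bn (h : Dom D z δ) (k : ℕ) : ∃ C, 0 ≤ C ∧ ∀ ρ ∈ Ioc 0 δ, ∀ (f : Ed d → G) (A : ℝ), BD D f →
    0 ≤ A → Bn (strip D z ρ) k A f → ∀ r ∈ Ioo 0 ρ, ∀ i ≤ k, ∀ x,
    ‖iteratedFDeriv ℝ i (fun x => kap2 δ z x • f (pr z r x)) x‖ ≤ C * A := by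
  have hδ := h.δ0
  obtain ⟨P, hP1, hP⟩ := pr_bn h k
  obtain ⟨Q, hQ0, hQ⟩ := dw1_bd h (dw1_kap_smo h) k
  obtain ⟨L, hL0, hL⟩ := Bn.bilin (d := d) (ContinuousLinearMap.lsmul ℝ ℝ : ℝ →L[ℝ] G →L[ℝ] G) k
  have hP0 : 0 ≤ P := by linarith
  refine ⟨L * (Q * (k.factorial * P ^ k)), by positivity, fun ρ hρ f A hf hA hfA r hr i hi x => ?_⟩
  have hrδ : r ≤ δ := hr.2.le.trans hρ.2
  have hO := dw1_open h (3 * δ)
  have key : Bn {x : Ed d | |z x| < 3 * δ} k (k.factorial * A * P ^ k) (fun x => f (pr z r x)) := by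
    intro j hj y hy
    have hy' : |z y| < 3 * δ := hy
    have hD : IsOpen (strip D z ρ) := h.isOpen.inter (isOpen_lt h.cont continuous_const)
    have hmap : MapsTo (pr z r) {x : Ed d | |z x| < 3 * δ} (strip D z ρ) := by
      intro w hw
      have hw' : |z w| < 3 * δ := hw
      refine ⟨pr_mem h hr.1 (by linarith) (by linarith), ?_⟩
      rw [(pr_z h (by rw [abs_of_pos hr.1]; linarith) (by linarith)).1]
      exact hr.2
    rw [← iteratedFDerivWithin_of_isOpen j hO hy]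
    have h1 := norm_iteratedFDerivWithin_comp_le (𝕜 := ℝ) (g := f) (f := pr z r) (n := j)
      (N := ((⊤ : ℕ∞) : WithTop ℕ∞)) (C := A) (D := P) (t := strip D z ρ)
      (hf.1.mono fun w (hw : w ∈ strip D z ρ) => hw.1)
      (ContDiff.contDiffOn (pr_smo h r)) (by exact_mod_cast le_top) hD.uniqueDiffOn hO.uniqueDiffOn hmap hy
      (fun l hl => by
        rw [iteratedFDerivWithin_of_isOpen l hD (hmap hy)]
        exact hfA l (hl.trans hj) _ (hmap hy))
      (fun l hl1 hl => by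
        rw [iteratedFDerivWithin_of_isOpen l hO hy]
        refine (hP r ⟨hr.1.le, hrδ⟩ l hl1 (hl.trans hj) y hy').trans ?_
        exact le_self_pow₀ hP1 (by omega))
    refine h1.trans ?_
    have h2 : (j.factorial : ℝ) ≤ k.factorial := by exact_mod_cast Nat.factorial_le hj
    have h3 : P ^ j ≤ P ^ k := pow_le_pow_right₀ hP1 hj
    gcongr
  have h4 := hL _ hO (kap2 δ z) (fun x => f (pr z r x)) Q (k.factorial * A * P ^ k) hQ0 (by positivity)
    (ContDiff.contDiffOn (dw1_kap_smo h)) (dw1_comp h hf hr.1 hrδ) hQ key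
  rcases lt_or_ge (|z x|) (3 * δ) with h1 | h1
  · refine (h4 i hi x h1).trans (le_of_eq ?_)
    ring
  · have h5 := (dw1_near h (fun x => f (pr z r x)) (x := x) (by linarith)).iteratedFDeriv (𝕜 := ℝ) i
    rw [h5.self_of_nhds]
    have h6 : iteratedFDeriv ℝ i (fun _ : Ed d => (0 : G)) x = 0 := by
      simp
    rw [h6, norm_zero]
    positivity

end Pool.Agent.Lib.MP_79abb3_an.W
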