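import Pool.Agent.Lib.MP_79abb3_an.W.DN1c
import Pool.Agent.Lib.MP_79abb3_an.W.DT1

/-!
Theorem W, block D, part X1: assembly, the cross terms.
-/

set_option autoImplicit false
set_option linter.unusedSectionVars false

open MeasureTheory Set Filter Topology Function
open scoped ENNReal RealInnerProductSpace

namespace Pool.Agent.Lib.MP_79abb3_an.W

variable {d : ℕ} {D B : Set (Ed d)} {z : Ed d → ℝ} {δ : ℝ}

/-- The residual of `u` with the slow part `S` and the fast potential part `P`: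
`∂_t u + (u·∇)u - Δu - [∂_t S - ΔS + (P·∇)S + (S·∇)P + (S·∇)S]`. -/
noncomputable def Res (u P S : Fam d (Ed d)) : Fam d (Ed d) := fun ε t x =>
  Hop u ε t x + Trn u u ε t x - (Hop S ε t x + Trn P S ε t x + Trn S P ε t x + Trn S S ε t x)

/-- All terms besides `∂_t - Δ` of the layers and the quadratic terms of order `ε⁻²` are negligible. `p1`: the waves (order
`-1`), `p0`, `p'`: potentials of order `0`, `1`, `L1`, `L0`: layers of order `-1`, `0`, `E`: crude correctors, `C0 + C1`: the slow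
field. -/
theorem assemble (hS : Stg D B z δ) {p1 p0 p' L1 L0 E C0 C1 : Fam d (Ed d)}
    (hp1 : PLay D B (-1) p1) (hp1' : Tb D z (-1) p1) (hp0 : PLay D B 0 p0) (hp' : PLay D B 1 p')
    (hL1 : IsLay D z (-1) L1) (hL0 : IsLay D z 0 L0) (hE : IsCr D E)
    (hC0 : Bkf D 0 C0) (hC0' : Tb D z 0 C0) (hC1 : Bkf D 1 C1)
    (hm : Ng D B z fun ε t x => Hop L1 ε t x + Hop L0 ε t x + Trn p1 L1 ε t x + Trn L1 p1 ε t x + Trn L1 L1 ε t x +
      Trn p0 L1 ε t x) :
    Ng D B z (Res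
      (fun ε t x => p1 ε t x + p0 ε t x + (C0 ε t x + C1 ε t x) + (p' ε t x + L1 ε t x + L0 ε t x + E ε t x))
      (fun ε t x => p1 ε t x + p0 ε t x) (fun ε t x => C0 ε t x + C1 ε t x)) := by
  have hD : IsOpen D := hS.dom.col.isOpen
  have hz : ∀ x ∈ D, 0 < z x := fun x hx => hS.dom.zpos hx
  have lb : ∀ {m : ℤ} {X : Fam d (Ed d)}, -1 ≤ m → Lb D z m X → Ng D B z X := fun hm h => Ng.of_lb hS (h.mono hz hm)
  have bb : ∀ {m : ℤ} {X : Fam d (Ed d)}, 1 ≤ m → Bb D m X → Ng D B z X := fun hm h => Ng.of_bb hS (h.mono hm)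
  have hop : ∀ {X : Fam d (Ed d)}, Pot D B X → Ng D B z (Hop X) := fun h => (Pot.ng_dt hS h).sub hS (Pot.ng_lap hS h)
  have g1 := ((hop hp1.2.2).add hS (hop hp0.2.2)).add hS (hop hp'.2.2)
  have g2 := (Ng.of_bb hS hE.hop).add hS (Pot.ng_trn hS ((hp1.2.2.add hp0.2.2).add hp'.2.2))
  have g3 := ((((lb (by norm_num) (trn_lay_bk hS hL1 hp0.1)).add hS (lb (by norm_num) (trn_bk_lay hS hp'.1 hL1))).add hS (lb (by norm_num) (trn_lay_bk hS hL1 hp'.1))).add hS (lb (by norm_num) (trn_tb_lay hS hp1.1 hp1' hL0)))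
  have g4 := ((((lb (by norm_num) (trn_lay_bk hS hL0 hp1.1)).add hS (lb (by norm_num) (trn_bk_lay hS hp0.1 hL0))).add hS (lb (by norm_num) (trn_lay_bk hS hL0 hp0.1))).add hS (lb (by norm_num) (trn_bk_lay hS hp'.1 hL0)))
  have g5 := ((((lb (by norm_num) (trn_lay_bk hS hL0 hp'.1)).add hS (lb (by norm_num) (trn_tb_lay hS hC0 hC0' hL1))).add hS (lb (by norm_num) (trn_bk_lay hS hC1 hL1))).add hS (lb (by norm_num) (trn_lay_bk hS hL1 hC0)))
  have g6 := ((((lb (by norm_num) (trn_lay_bk hS hL1 hC1)).add hS (lb (by norm_num) (trn_bk_lay hS hC0 hL0))).add hS (lb (by norm_num) (trn_bk_lay hS hC1 hL0))).add hS (lb (by norm_num) (trn_lay_bk hS hL0 hC0)))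
  have g7 := ((((lb (by norm_num) (trn_lay_bk hS hL0 hC1)).add hS (lb (by norm_num) (trn_lay_lay hS hL1 hL0))).add hS (lb (by norm_num) (trn_lay_lay hS hL0 hL1))).add hS (lb (by norm_num) (trn_lay_lay hS hL0 hL0)))
  have g8 := ((((lb (by norm_num) (trn_lay_bk hS hL0 hE.bk)).add hS (lb (by norm_num) (trn_bk_lay hS hE.bk hL0))).add hS (bb (by norm_num) (trn_bk_bk hS hp1.1 hE.bk))).add hS (bb (by norm_num) (trn_bk_bk hS hE.bk hp1.1)))
  have g9 := ((((bb (by norm_num) (trn_bk_bk hS hp0.1 hE.bk)).add hS (bb (by norm_num) (trn_bk_bk hS hE.bk hp0.1))).add hS (bb (by norm_num) (trn_bk_bk hS hp'.1 hE.bk))).add hS (bb (by norm_num) (trn_bk_bk hS hE.bk hp'.1)))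
  have g10 := ((((bb (by norm_num) (trn_bk_bk hS hC0 hE.bk)).add hS (bb (by norm_num) (trn_bk_bk hS hE.bk hC0))).add hS (bb (by norm_num) (trn_bk_bk hS hC1 hE.bk))).add hS (bb (by norm_num) (trn_bk_bk hS hE.bk hC1)))
  have g11 := ((((bb (by norm_num) (trn_bk_bk hS hp'.1 hC0)).add hS (bb (by norm_num) (trn_bk_bk hS hC0 hp'.1))).add hS (bb (by norm_num) (trn_bk_bk hS hp'.1 hC1))).add hS (bb (by norm_num) (trn_bk_bk hS hC1 hp'.1)))
  have g12 := (bb (by norm_num) (trn_bk_bk hS hE.bk hE.bk))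
  have g13 := (bb le_rfl (trn_lay_cr hS hL1 hE).1).add hS (bb le_rfl (trn_lay_cr hS hL1 hE).2)
  refine Ng.congr (((((((((((((hm.add hS g1).add hS g2).add hS g3).add hS g4).add hS g5).add hS g6).add hS g7).add hS g8).add hS g9).add hS g10).add hS g11).add hS g12).add hS g13) fun ε hε t x hx => ?_
  have hx' : x ∈ D := hx.1
  have df : ∀ {X : Fam d (Ed d)}, FFS D X → DifferentiableAt ℝ (X ε t) x := fun h => ((h ε hε).bd hD t).diff hD hx'
  have fa : ∀ {X Y : Fam d (Ed d)}, FFS D X → FFS D Y → FFS D fun ε t x => X ε t x + Y ε t x := fun h h' ε hε => (h ε hε).add (h' ε hε)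
  have f1 := hp1.1.1
  have f0 := hp0.1.1
  have f' := hp'.1.1
  have fL1 := hL1.fs
  have fL0 := hL0.fs
  have fE := hE.bk.1
  have fC0 := hC0.1
  have fC1 := hC1.1
  have eH : Hop (fun ε t x => p1 ε t x + p0 ε t x + (C0 ε t x + C1 ε t x) +
      (p' ε t x + L1 ε t x + L0 ε t x + E ε t x)) ε t x =
      Hop p1 ε t x + Hop p0 ε t x + (Hop (fun ε t x => C0 ε t x + C1 ε t x) ε t x) +
      (Hop p' ε t x + Hop L1 ε t x + Hop L0 ε t x + Hop E ε t x) := by
    rw [Hop_add hD (fa (fa f1 f0) (fa fC0 fC1)) (fa (fa (fa f' fL1) fL0) fE) hε t hx',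
      Hop_add hD (fa f1 f0) (fa fC0 fC1) hε t hx', Hop_add hD f1 f0 hε t hx',
      Hop_add hD (fa (fa f' fL1) fL0) fE hε t hx', Hop_add hD (fa f' fL1) fL0 hε t hx',
      Hop_add hD f' fL1 hε t hx']
  have eF : fderiv ℝ (fun x => p1 ε t x + p0 ε t x + (C0 ε t x + C1 ε t x) +
      (p' ε t x + L1 ε t x + L0 ε t x + E ε t x)) x =
      fderiv ℝ (p1 ε t) x + fderiv ℝ (p0 ε t) x + (fderiv ℝ (C0 ε t) x + fderiv ℝ (C1 ε t) x) +
      (fderiv ℝ (p' ε t) x + fderiv ℝ (L1 ε t) x + fderiv ℝ (L0 ε t) x + fderiv ℝ (E ε t) x) := by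
    rw [fderiv_fun_add (df (fa (fa f1 f0) (fa fC0 fC1))) (df (fa (fa (fa f' fL1) fL0) fE)),
      fderiv_fun_add (df (fa f1 f0)) (df (fa fC0 fC1)), fderiv_fun_add (df f1) (df f0),
      fderiv_fun_add (df fC0) (df fC1), fderiv_fun_add (df (fa (fa f' fL1) fL0)) (df fE),
      fderiv_fun_add (df (fa f' fL1)) (df fL0), fderiv_fun_add (df f') (df fL1)]
  have eS : fderiv ℝ (fun x => C0 ε t x + C1 ε t x) x = fderiv ℝ (C0 ε t) x + fderiv ℝ (C1 ε t) x :=
    fderiv_fun_add (df fC0) (df fC1)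
  have eP : fderiv ℝ (fun x => p1 ε t x + p0 ε t x) x = fderiv ℝ (p1 ε t) x + fderiv ℝ (p0 ε t) x :=
    fderiv_fun_add (df f1) (df f0)
  have eQ : fderiv ℝ (fun x => p1 ε t x + p0 ε t x + p' ε t x) x =
      fderiv ℝ (p1 ε t) x + fderiv ℝ (p0 ε t) x + fderiv ℝ (p' ε t) x := by
    rw [fderiv_fun_add (df (fa f1 f0)) (df f'), fderiv_fun_add (df f1) (df f0)]
  simp only [Res]
  rw [eH]
  simp only [Trn]
  rw [eF, eS, eP, eQ]
  simp only [map_add, add_apply]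
  abel

end Pool.Agent.Lib.MP_79abb3_an.W
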