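import Pool.Agent.Lib.MP_79abb3_an.W.DB3
import Pool.Agent.Lib.MP_79abb3_an.W.DF3b
import Pool.Agent.Lib.MP_79abb3_an.W.DN1
import Pool.Agent.Lib.MP_79abb3_an.W.DC3
import Pool.Agent.Lib.MP_79abb3_an.W.DB3b
import Pool.Agent.Lib.MP_79abb3_an.W.DT1

section

/-!
Theorem W, block D, part M1: the terms of order `ε⁻²` of the equation, modulo negligible families.

`V`, `V'` waves, `σ = slip V`, `σ' = slip V'`; `a` the slow amplitude. `n·V = z div σ + O(z²)`, `n·ℓ(σ) = - div σ`,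
`n·∇q = - div σ + O(z)`.
-/

set_option autoImplicit false
set_option linter.unusedSectionVars false

open MeasureTheory Set Filter Topology Function
open scoped ENNReal RealInnerProductSpace

namespace Pool.Agent.Lib.MP_79abb3_an.W

variable {d : ℕ} {D B : Set (Ed d)} {z : Ed d → ℝ} {δ : ℝ} {V : Ed d → Ed d} {σ σ' : Ed d → Ed d} {a T : ℝ → ℝ}
  {K L K' L' : ℝ → ℝ → ℝ}

theorem CB.sq (ha : CB a) : CB fun t => a t ^ 2 := by
  obtain ⟨C, hC⟩ := ha.bd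
  have hC0 : 0 ≤ C := (abs_nonneg _).trans (hC 0).1
  refine ⟨ha.smo.pow 2, 2 * C ^ 2, fun t => ⟨?_, ?_⟩⟩
  · rw [abs_pow]
    have h1 : |a t| ^ 2 ≤ C ^ 2 := pow_le_pow_left₀ (abs_nonneg _) (hC t).1 2
    nlinarith [sq_nonneg C]
  · have h1 : HasDerivAt a (deriv a t) t := (ha.smo.differentiable (by norm_num) t).hasDerivAt
    have h2 : deriv (fun t => a t ^ 2) t = 2 * a t * deriv a t := by
      rw [(h1.fun_pow 2).deriv]
      norm_num
    rw [h2, abs_mul, abs_mul, abs_two]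
    calc 2 * |a t| * |deriv a t| ≤ 2 * C * C :=
          mul_le_mul (mul_le_mul_of_nonneg_left (hC t).1 (by norm_num)) (hC t).2 (abs_nonneg _) (by positivity)
      _ = 2 * C ^ 2 := by ring

private theorem dm1_atm_zero {K : ℝ → ℝ → ℝ} (hK : ∀ θ ζ, K θ ζ = 0) (c : ℝ → ℝ) (v : Ed d → Ed d) (ε t : ℝ)
    (x : Ed d) : atm z c K v ε t x = 0 := by
  unfold atm
  rw [hK, mul_zero, zero_smul]

/-- The Stokes layer of a wave: `∂_t - Δ`. -/
theorem main_hop (hS : Stg D B z δ) (ha : CB a) {k : ℕ} (hk : 1 ≤ k) (φ : ℝ) (hσ : CF D z δ σ) :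
    Ng D B z fun ε t x => Hop (fun ε t x => ε⁻¹ • lay z a (Kh k φ) (Gh k φ) σ ε t x) ε t x +
      (ε ^ 2)⁻¹ • atm z a (pze (Kh k φ)) (fun y => lap z y • σ y + (2 : ℝ) • fderiv ℝ σ y (gd z y)) ε t x := by
  have h := hS.dom
  have hD : IsOpen D := by
    have h1 : D = z ⁻¹' Ioi 0 := by
      ext x
      exact h.pos x
    rw [h1]
    exact isOpen_Ioi.preimage h.smo.continuous
  have hKu := PR.mono (subset_univ _) (Kh_mem hk φ)
  have hGu := PR.mono (subset_univ _) (Gh_mem hk φ)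
  have h1 := (lay_hop h ha hKu hGu (Gh_ze hk φ) hσ).zsmul (-1)
  have hm : (-1 + 0 : ℤ) = -1 := by norm_num
  rw [hm] at h1
  refine (Ng.of_lb hS h1).congr fun ε hε t x hx => ?_
  have hffs : FFS D (lay z a (Kh k φ) (Gh k φ) σ) := (lay_isLay h ha hKu hGu (Gh_ze hk φ) hσ).fs
  have h2 := Hop_smul hD hffs (fun ε => ε⁻¹) hε t hx.1
  have h3 : atm z a (fun θ ζ => pth (Kh k φ) θ ζ - pze (pze (Kh k φ)) θ ζ) σ ε t x = 0 :=
    dm1_atm_zero (fun θ ζ => by rw [Kh_heat, sub_self]) _ _ _ _ _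
  have h4 : atm z a (fun θ ζ => pth (Gh k φ) θ ζ - pze (Kh k φ) θ ζ) (ell z σ) ε t x = 0 :=
    dm1_atm_zero (fun θ ζ => by rw [Gh_th hk, sub_self]) _ _ _ _ _
  rw [h2, h3, h4, smul_zero, smul_zero, sub_zero, sub_zero, zpow_neg, zpow_one, smul_add, smul_smul]
  congr 2
  rw [sq, mul_inv]

end Pool.Agent.Lib.MP_79abb3_an.W
end

section

/-!
Theorem W, block D, part M1c: layers and potentials.
-/

set_option autoImplicit false
set_option linter.unusedSectionVars false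

open MeasureTheory Set Filter Topology Function
open scoped ENNReal RealInnerProductSpace

namespace Pool.Agent.Lib.MP_79abb3_an.W

variable {d : ℕ} {D B : Set (Ed d)} {z : Ed d → ℝ} {δ : ℝ} {V : Ed d → Ed d} {σ σ' : Ed d → Ed d} {a T : ℝ → ℝ}
  {K L K' L' : ℝ → ℝ → ℝ}

private theorem dm1c_opn (h : Dom D z δ) : IsOpen D := by
  have h1 : D = z ⁻¹' Ioi 0 := by
    ext x
    exact h.pos x
  rw [h1]
  exact isOpen_Ioi.preimage h.smo.continuous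

private theorem dm1c_pos (h : Dom D z δ) : ∀ x ∈ D, 0 < z x := fun x hx => (h.pos x).1 hx

private theorem dm1c_mul (hK : K ∈ PR univ) (hL : L ∈ PR univ) : (fun θ ζ => K θ ζ * L θ ζ) ∈ PR univ :=
  PR.mul (fun _ _ _ _ => ⟨mem_univ _, mem_univ _⟩) hK hL

private theorem dm1c_tr (hT : T ∈ TR univ) (hL : L ∈ PR univ) : (fun θ ζ => T θ * L θ ζ) ∈ PR univ :=
  PR.tr (fun _ _ _ _ => ⟨mem_univ _, mem_univ _⟩) hT hL

/-- the gradient of a layer -/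
private theorem dm1c_fd (h : Dom D z δ) (hK : K ∈ PR univ) (hL : L ∈ PR univ) (hKL : pze L = K)
    (ha : CB a) (hσ : CF D z δ σ) {ε : ℝ} (hε : ε ∈ Ioc (0 : ℝ) 1) (t : ℝ) {x : Ed d} (hx : x ∈ D) (w : Ed d) :
    fderiv ℝ (fun x => ε⁻¹ • lay z a K L σ ε t x) x w =
      ε⁻¹ • ((ε⁻¹ * ⟪gd z x, w⟫) • atm z a (pze K) σ ε t x + atm z a K (fun y => fderiv ℝ σ y w) ε t x) +
      (ε⁻¹ * ⟪gd z x, w⟫) • atm z a K (ell z σ) ε t x + atm z a L (fun y => fderiv ℝ (ell z σ) y w) ε t x := by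
  have hD := dm1c_opn h
  have hl : CV D z δ (ell z σ) := hσ.toCV.ell h
  have h1 : DifferentiableAt ℝ (atm z a K σ ε t) x :=
    ((atm_ffs hD h.bdd h.smo ha.smo hK hσ.bd ε hε).bd hD t).diff hD hx
  have h2 : DifferentiableAt ℝ (atm z a L (ell z σ) ε t) x :=
    ((atm_ffs hD h.bdd h.smo ha.smo hL hl.bd ε hε).bd hD t).diff hD hx
  have e1 : (fun x => ε⁻¹ • lay z a K L σ ε t x) =
      fun x => ε⁻¹ • (atm z a K σ ε t x + ε • atm z a L (ell z σ) ε t x) := rfl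
  rw [e1, fderiv_fun_const_smul (h1.fun_add (h2.fun_const_smul ε)), fderiv_fun_add h1 (h2.fun_const_smul ε),
    fderiv_fun_const_smul h2]
  show ε⁻¹ • (fderiv ℝ (atm z a K σ ε t) x w + ε • fderiv ℝ (atm z a L (ell z σ) ε t) x w) = _
  rw [atm_fderiv h hK hσ.bd hε.1 t hx, atm_fderiv h hL hl.bd hε.1 t hx, hKL, smul_add, smul_smul ε⁻¹ ε,
    inv_mul_cancel₀ hε.1.ne', one_smul]
  module

/-- Layer on layer: `(ε⁻¹ a (K σ + ε L ℓ(σ)) · ∇)(ε⁻¹ a (K' σ' + ..)) = ε⁻² a² (- L K'_ζ (div σ) σ' + K K' (σ·∇)σ') + ..`. -/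
theorem main_ll (hS : Stg D B z δ) (ha : CB a) (hK : K ∈ PR univ) (hL : L ∈ PR univ) (hKL : pze L = K)
    (hK' : K' ∈ PR univ) (hL' : L' ∈ PR univ) (hKL' : pze L' = K') (hσ : CF D z δ σ) (hσ' : CF D z δ σ') :
    Ng D B z fun ε t x =>
      Trn (fun ε t x => ε⁻¹ • lay z a K L σ ε t x) (fun ε t x => ε⁻¹ • lay z a K' L' σ' ε t x) ε t x +
      (ε ^ 2)⁻¹ • atm z (fun t => a t ^ 2) (fun θ ζ => L θ ζ * pze K' θ ζ) (fun y => dv σ y • σ' y) ε t x -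
      (ε ^ 2)⁻¹ • atm z (fun t => a t ^ 2) (fun θ ζ => K θ ζ * K' θ ζ) (fun y => fderiv ℝ σ' y (σ y)) ε t x := by
  have h := hS.dom
  have hD := dm1c_opn h
  have hz := dm1c_pos h
  have hl : CV D z δ (ell z σ) := hσ.toCV.ell h
  have hl' : CV D z δ (ell z σ') := hσ'.toCV.ell h
  -- the four remainders
  have r1 : Lb D z (-1 + 0) fun ε t x => ε ^ (-1 : ℤ) •
      atm z (fun t => a t ^ 2) (fun θ ζ => L θ ζ * K' θ ζ) (fun y => fderiv ℝ σ' y (ell z σ y)) ε t x :=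
    (atm_lb h ha.sq (dm1c_mul hL hK') (hσ'.bd.fderiv_apply hD hl.bd)).zsmul (-1)
  have r2 : Lb D z (-1 + 0) fun ε t x => ε ^ (-1 : ℤ) •
      atm z (fun t => a t ^ 2) (fun θ ζ => L θ ζ * K' θ ζ) (fun y => dv σ y • ell z σ' y) ε t x :=
    (atm_lb h ha.sq (dm1c_mul hL hK') ((hσ.bd.dv hD).smul hD hl'.bd)).zsmul (-1)
  have r3 : Lb D z (-1 + 0) fun ε t x => ε ^ (-1 : ℤ) •
      atm z (fun t => a t ^ 2) (fun θ ζ => K θ ζ * L' θ ζ) (fun y => fderiv ℝ (ell z σ') y (σ y)) ε t x :=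
    (atm_lb h ha.sq (dm1c_mul hK hL') (hl'.bd.fderiv_apply hD hσ.bd)).zsmul (-1)
  have r4 : Lb D z (-1) fun ε t x =>
      atm z (fun t => a t ^ 2) (fun θ ζ => L θ ζ * L' θ ζ) (fun y => fderiv ℝ (ell z σ') y (ell z σ y)) ε t x :=
    (atm_lb h ha.sq (dm1c_mul hL hL') (hl'.bd.fderiv_apply hD hl.bd)).mono hz (by norm_num)
  have hm : (-1 + 0 : ℤ) = -1 := by norm_num
  rw [hm] at r1 r2 r3
  have hR := ((r1.sub hz r2).add hz r3).add hz r4
  refine (Ng.of_lb hS hR).congr fun ε hε t x hx => ?_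
  have hxD : x ∈ D := hx.1
  have hn : ⟪gd z x, ε⁻¹ • lay z a K L σ ε t x⟫ = -(a t * L (t / ε ^ 2) (z x / ε) * dv σ x) := by
    unfold lay atm
    rw [inner_smul_right, inner_add_right, inner_smul_right, inner_smul_right, inner_smul_right, hσ.tan x hxD,
      ell_nor h hσ hxD, mul_zero, zero_add]
    field_simp [hε.1.ne']
  show fderiv ℝ (fun x => ε⁻¹ • lay z a K' L' σ' ε t x) x (ε⁻¹ • lay z a K L σ ε t x) + _ - _ = _
  rw [dm1c_fd h hK' hL' hKL' ha hσ' hε t hxD, hn]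
  unfold lay atm
  simp only [map_smul, map_add, zpow_neg, zpow_one]
  have hε0 : ε ≠ 0 := hε.1.ne'
  match_scalars <;> field_simp <;> ring

/-- Potential on layer: `(a T ∇q · ∇)(ε⁻¹ a (K' σ' + ..)) = - ε⁻² a² T K'_ζ (div σ) σ' + ..`. -/
theorem main_pl (hS : Stg D B z δ) (ha : CB a) (hT : T ∈ TR univ) (hK' : K' ∈ PR univ) (hL' : L' ∈ PR univ)
    (hKL' : pze L' = K') (hσ : CF D z δ σ) {q : Ed d → ℝ} (hq : IsPt D z σ q) (hσ' : CF D z δ σ') :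
    Ng D B z fun ε t x =>
      Trn (btm a T (gd q)) (fun ε t x => ε⁻¹ • lay z a K' L' σ' ε t x) ε t x +
      (ε ^ 2)⁻¹ • atm z (fun t => a t ^ 2) (fun θ ζ => T θ * pze K' θ ζ) (fun y => dv σ y • σ' y) ε t x := by
  have h := hS.dom
  have hD := dm1c_opn h
  have hz := dm1c_pos h
  have hl' : CV D z δ (ell z σ') := hσ'.toCV.ell h
  have hg : BD D (gd q) := hq.bd.gd hD
  -- the remainders
  have hnor : Lb D z 1 (atm z (fun t => a t ^ 2) (fun θ ζ => T θ * pze K' θ ζ)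
      (fun y => (⟪gd z y, gd q y⟫ + dv σ y) • σ' y)) := by
    obtain ⟨C, hC, hb⟩ := hσ'.bd.bound
    refine atm_lb_oz h ha.sq (dm1c_tr hT (PR.pze hK'))
      ((((h.bd_n).inner hD hg).add hD (hσ.bd.dv hD)).smul hD hσ'.bd) (hq.nor.smul' hb)
  have r0 : Lb D z (-2 + 1) fun ε t x => ε ^ (-2 : ℤ) • atm z (fun t => a t ^ 2) (fun θ ζ => T θ * pze K' θ ζ)
      (fun y => (⟪gd z y, gd q y⟫ + dv σ y) • σ' y) ε t x := hnor.zsmul (-2)
  have r1 : Lb D z (-1 + 0) fun ε t x => ε ^ (-1 : ℤ) •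
      atm z (fun t => a t ^ 2) (fun θ ζ => T θ * K' θ ζ) (fun y => fderiv ℝ σ' y (gd q y)) ε t x :=
    (atm_lb h ha.sq (dm1c_tr hT hK') (hσ'.bd.fderiv_apply hD hg)).zsmul (-1)
  have r2 : Lb D z (-1 + 0) fun ε t x => ε ^ (-1 : ℤ) •
      atm z (fun t => a t ^ 2) (fun θ ζ => T θ * K' θ ζ) (fun y => ⟪gd z y, gd q y⟫ • ell z σ' y) ε t x :=
    (atm_lb h ha.sq (dm1c_tr hT hK') (((h.bd_n).inner hD hg).smul hD hl'.bd)).zsmul (-1)
  have r3 : Lb D z (-1) fun ε t x =>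
      atm z (fun t => a t ^ 2) (fun θ ζ => T θ * L' θ ζ) (fun y => fderiv ℝ (ell z σ') y (gd q y)) ε t x :=
    (atm_lb h ha.sq (dm1c_tr hT hL') (hl'.bd.fderiv_apply hD hg)).mono hz (by norm_num)
  have hm : (-1 + 0 : ℤ) = -1 := by norm_num
  have hm' : (-2 + 1 : ℤ) = -1 := by norm_num
  rw [hm] at r1 r2
  rw [hm'] at r0
  have hR := ((r0.add hz r1).add hz r2).add hz r3
  refine (Ng.of_lb hS hR).congr fun ε hε t x hx => ?_
  have hxD : x ∈ D := hx.1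
  have hn : ⟪gd z x, btm a T (gd q) ε t x⟫ = a t * T (t / ε ^ 2) * ⟪gd z x, gd q x⟫ := by
    unfold btm
    rw [inner_smul_right]
  show fderiv ℝ (fun x => ε⁻¹ • lay z a K' L' σ' ε t x) x (btm a T (gd q) ε t x) + _ = _
  rw [dm1c_fd h hK' hL' hKL' ha hσ' hε t hxD, hn]
  have hε0 : ε ≠ 0 := hε.1.ne'
  have e2 : (ε ^ (-2 : ℤ) : ℝ) = (ε ^ 2)⁻¹ := by
    rw [zpow_neg]
    norm_cast
  unfold btm atm
  rw [e2]
  simp only [map_smul, zpow_neg, zpow_one]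
  match_scalars <;> field_simp

end Pool.Agent.Lib.MP_79abb3_an.W
end

section

/-!
Theorem W, block D, part M1b: waves and layers.
-/

set_option autoImplicit false
set_option linter.unusedSectionVars false

open MeasureTheory Set Filter Topology Function
open scoped ENNReal RealInnerProductSpace

namespace Pool.Agent.Lib.MP_79abb3_an.W

variable {d : ℕ} {D B : Set (Ed d)} {z : Ed d → ℝ} {δ : ℝ} {V : Ed d → Ed d} {σ σ' : Ed d → Ed d} {a T : ℝ → ℝ}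
  {K L K' L' : ℝ → ℝ → ℝ}

private theorem dm1b_lb {X : Fam d (Ed d)} {m : ℕ} (h : Lb D z m X) :
    Lb D z (-1) fun ε t x => (ε ^ (m + 1))⁻¹ • X ε t x := by
  have h1 := h.zsmul (-(m + 1 : ℤ))
  rw [show (-(m + 1 : ℤ) + (m : ℤ)) = -1 by ring] at h1
  refine h1.congr fun ε _ t x _ => ?_
  rw [zpow_neg]
  norm_cast

private theorem dm1b_diff (hD : IsOpen D) {f : Ed d → Ed d} (hf : BD D f) {x : Ed d} (hx : x ∈ D) :
    DifferentiableAt ℝ f x :=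
  (hf.1.contDiffAt (hD.mem_nhds hx)).differentiableAt (by norm_num)

private theorem dm1b_tr (hT : T ∈ TR univ) (hK : K ∈ PR univ) : (fun θ ζ => T θ * K θ ζ) ∈ PR univ :=
  PR.tr (fun _ _ _ _ => ⟨mem_univ _, mem_univ _⟩) hT hK

/-- Wave on layer: `(ε⁻¹ a T V · ∇)(ε⁻¹ a (K σ' + ..)) = ε⁻² a² T (ζ K_ζ (div σ) σ' - K (σ·∇)σ') + ..`. -/
theorem main_wl (hS : Stg D B z δ) (ha : CB a) (hT : T ∈ TR univ) (hK : K ∈ PR univ) (hL : L ∈ PR univ)
    (hKL : pze L = K) (hV : Wave D B z V) (hσ' : CF D z δ σ') :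
    Ng D B z fun ε t x =>
      Trn (fun ε t x => ε⁻¹ • btm a T V ε t x) (fun ε t x => ε⁻¹ • lay z a K L σ' ε t x) ε t x -
      (ε ^ 2)⁻¹ • atm z (fun t => a t ^ 2) (fun θ ζ => T θ * (ζ * pze K θ ζ))
        (fun y => dv (slip z δ V) y • σ' y) ε t x +
      (ε ^ 2)⁻¹ • atm z (fun t => a t ^ 2) (fun θ ζ => T θ * K θ ζ)
        (fun y => fderiv ℝ σ' y (slip z δ V y)) ε t x := by
  have hd := hS.dom
  have hD : IsOpen D := hd.col.isOpen
  have hz : ∀ x ∈ D, 0 < z x := fun x hx => (hd.pos x).1 hx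
  have ha2 : CB fun t => a t ^ 2 := ha.sq
  have hK' : pze K ∈ PR univ := PR.pze hK
  have hσ : CF D z δ (slip z δ V) := slip_cf hd hV.bd
  have hbn : BD D (gd z) := hd.bd_n
  have hdvσ : BD D (dv (slip z δ V)) := (CV.dv hd hσ.toCV).bd
  have hin : BD D fun x => ⟪gd z x, V x⟫ := BD.inner hD hbn hV.bd
  have hell : CV D z δ (ell z σ') := CV.ell hd hσ'.toCV
  -- the fields of the remainders
  have hb1 : BD D fun x => (⟪gd z x, V x⟫ - z x * dv (slip z δ V) x) • σ' x :=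
    BD.smul hD (BD.sub hD hin (BD.mul hD hd.bd_z hdvσ)) hσ'.bd
  have hb2 : BD D fun x => fderiv ℝ σ' x (V x + slip z δ V x) :=
    (CV.trn' hd (BD.add hD hV.bd hσ.bd) hσ'.toCV).bd
  have hb3 : BD D fun x => ⟪gd z x, V x⟫ • ell z σ' x := BD.smul hD hin hell.bd
  have hb4 : BD D fun x => fderiv ℝ (ell z σ') x (V x) := (CV.trn' hd hV.bd hell).bd
  -- (1)
  have l1 : Lb D z (2 : ℕ) (atm z (fun t => a t ^ 2) (fun θ ζ => T θ * pze K θ ζ)
      (fun x => (⟪gd z x, V x⟫ - z x * dv (slip z δ V) x) • σ' x)) := by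
    obtain ⟨C, hC⟩ := slip_nor hd hV
    have hb0 : BD D fun x => z x • σ' x := BD.smul hD hd.bd_z hσ'.bd
    have hz0 : Oz D z fun x => z x • σ' x := by
      obtain ⟨A, hA⟩ := hσ'.bd.2 0
      refine ⟨A, fun x hx => ?_⟩
      have h1 := hA x hx
      rw [norm_iteratedFDeriv_zero] at h1
      rw [norm_smul, Real.norm_eq_abs, abs_of_pos (hz x hx), mul_comm]
      exact mul_le_mul_of_nonneg_right h1 (hz x hx).le
    have h2 := atm_lb_oz hd ha2 (dm1b_tr hT hK') hb0 hz0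
    have h3 := Lb.mul_z hd h2 (atm_ffs hD hd.bdd hd.smo ha2.smo (dm1b_tr hT hK') hb1) (l := 0) (C := C) ?_
    · rwa [show ((1 : ℤ) + 0 + 1) = ((2 : ℕ) : ℤ) by norm_num] at h3
    · intro ε hε t x hx
      simp only [atm]
      rw [norm_smul, norm_smul, norm_smul, norm_smul, zpow_zero, mul_one, Real.norm_eq_abs (z x),
        abs_of_pos (hz x hx), Real.norm_eq_abs (⟪gd z x, V x⟫ - z x * dv (slip z δ V) x)]
      calc _ ≤ ‖a t ^ 2 * (T (t / ε ^ 2) * pze K (t / ε ^ 2) (z x / ε))‖ * (C * z x ^ 2 * ‖σ' x‖) :=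
            mul_le_mul_of_nonneg_left (mul_le_mul_of_nonneg_right (hC x hx) (norm_nonneg _)) (norm_nonneg _)
        _ = _ := by ring
  -- (2)
  have l2 : Lb D z (1 : ℕ) (atm z (fun t => a t ^ 2) (fun θ ζ => T θ * K θ ζ)
      (fun x => fderiv ℝ σ' x (V x + slip z δ V x))) := by
    refine atm_lb_oz hd ha2 (dm1b_tr hT hK) hb2 ?_
    obtain ⟨A, hA⟩ := hσ'.bd.2 1
    obtain ⟨C, hC⟩ := slip_sub hd hV
    refine ⟨A * C, fun x hx => ?_⟩
    have h1 := hA x hx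
    rw [← zero_add 1, ← norm_iteratedFDeriv_fderiv, norm_iteratedFDeriv_zero] at h1
    have h3 : 0 ≤ A := (norm_nonneg _).trans h1
    calc _ ≤ ‖fderiv ℝ σ' x‖ * ‖V x + slip z δ V x‖ := (fderiv ℝ σ' x).le_opNorm _
      _ ≤ A * (C * z x) := mul_le_mul h1 (hC x hx) (norm_nonneg _) h3
      _ = A * C * z x := by ring
  -- (3)
  have l3 : Lb D z (1 : ℕ) (atm z (fun t => a t ^ 2) (fun θ ζ => T θ * K θ ζ)
      (fun x => ⟪gd z x, V x⟫ • ell z σ' x)) := by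
    refine atm_lb_oz hd ha2 (dm1b_tr hT hK) hb3 ?_
    obtain ⟨A, hA⟩ := hell.bd.2 0
    refine Oz.smul' (C := A) (fun x hx => ?_) hV.tan
    have h1 := hA x hx
    rwa [norm_iteratedFDeriv_zero] at h1
  -- (4)
  have l4 : Lb D z (0 : ℕ) (atm z (fun t => a t ^ 2) (fun θ ζ => T θ * L θ ζ)
      (fun x => fderiv ℝ (ell z σ') x (V x))) := atm_lb hd ha2 (dm1b_tr hT hL) hb4
  have hsum := (((Ng.of_lb hS (dm1b_lb l1)).add hS (Ng.of_lb hS (dm1b_lb l2))).add hS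
    (Ng.of_lb hS (dm1b_lb l3))).add hS (Ng.of_lb hS (dm1b_lb l4))
  refine hsum.congr fun ε hε t x hx => ?_
  have hε0 : 0 < ε := hε.1
  have hne : ε ≠ 0 := hε0.ne'
  have hxD : x ∈ D := hx.1
  -- the derivative of the layer
  have f1 : FFS D (atm z a K σ') := atm_ffs hD hd.bdd hd.smo ha.smo hK hσ'.bd
  have f2 : FFS D (atm z a L (ell z σ')) := atm_ffs hD hd.bdd hd.smo ha.smo hL hell.bd
  have d1 : DifferentiableAt ℝ (atm z a K σ' ε t) x := dm1b_diff hD ((f1 ε hε).bd hD t) hxD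
  have d2 : DifferentiableAt ℝ (atm z a L (ell z σ') ε t) x := dm1b_diff hD ((f2 ε hε).bd hD t) hxD
  have e1 : ∀ w : Ed d, fderiv ℝ (fun x => ε⁻¹ • lay z a K L σ' ε t x) x w =
      ε⁻¹ • (((ε⁻¹ * ⟪gd z x, w⟫) • atm z a (pze K) σ' ε t x + atm z a K (fun y => fderiv ℝ σ' y w) ε t x) +
      ε • ((ε⁻¹ * ⟪gd z x, w⟫) • atm z a (pze L) (ell z σ') ε t x +
        atm z a L (fun y => fderiv ℝ (ell z σ') y w) ε t x)) := by
    intro w
    have g1 : HasFDerivAt (fun x => ε⁻¹ • (atm z a K σ' ε t x + ε • atm z a L (ell z σ') ε t x))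
        (ε⁻¹ • (fderiv ℝ (atm z a K σ' ε t) x + ε • fderiv ℝ (atm z a L (ell z σ') ε t) x)) x :=
      (d1.hasFDerivAt.add (d2.hasFDerivAt.const_smul ε)).const_smul ε⁻¹
    have g2 : fderiv ℝ (fun x => ε⁻¹ • lay z a K L σ' ε t x) x =
      ε⁻¹ • (fderiv ℝ (atm z a K σ' ε t) x + ε • fderiv ℝ (atm z a L (ell z σ') ε t) x) := g1.fderiv
    rw [g2, ← atm_fderiv hd hK hσ'.bd hε0 t hxD w, ← atm_fderiv hd hL hell.bd hε0 t hxD w]
    rfl
  show fderiv ℝ (fun x => ε⁻¹ • lay z a K L σ' ε t x) x (ε⁻¹ • btm a T V ε t x) - _ + _ = _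
  rw [e1, hKL]
  simp only [atm, btm, map_smul, map_add, inner_smul_right, smul_add, smul_smul, sub_smul, pow_succ,
    pow_zero, one_mul]
  match_scalars <;> field_simp

/-- Layer on wave: `(ε⁻¹ a (K σ' + ..) · ∇)(ε⁻¹ a T V) = - ε⁻² a² T K (σ'·∇)σ + ..` (`slip_trn`, `Ng.main`). -/
theorem main_lw (hS : Stg D B z δ) (ha : CB a) (hT : T ∈ TR univ) (hK : K ∈ PR univ) (hL : L ∈ PR univ)
    (hKL : pze L = K) (hV : Wave D B z V) (hσ' : CF D z δ σ') :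
    Ng D B z fun ε t x =>
      Trn (fun ε t x => ε⁻¹ • lay z a K L σ' ε t x) (fun ε t x => ε⁻¹ • btm a T V ε t x) ε t x +
      (ε ^ 2)⁻¹ • atm z (fun t => a t ^ 2) (fun θ ζ => T θ * K θ ζ)
        (fun y => fderiv ℝ (slip z δ V) y (σ' y)) ε t x := by
  have hd := hS.dom
  have hD : IsOpen D := hd.col.isOpen
  have hz : ∀ x ∈ D, 0 < z x := fun x hx => (hd.pos x).1 hx
  have ha2 : CB fun t => a t ^ 2 := ha.sq
  have hσ : CF D z δ (slip z δ V) := slip_cf hd hV.bd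
  have hell : CV D z δ (ell z σ') := CV.ell hd hσ'.toCV
  have hv : CV D z δ fun x => fderiv ℝ V x (σ' x) + fderiv ℝ (slip z δ V) x (σ' x) :=
    CV.add hd (CV.trn hd hσ'.toCV hV.bd) (CV.trn hd hσ'.toCV hσ.bd)
  have h1 := Ng.main hS ha2 (dm1b_tr hT hK) hv (slip_trn hd hV hσ')
  have h2 : Lb D z (0 : ℕ) (atm z (fun t => a t ^ 2) (fun θ ζ => T θ * L θ ζ)
      (fun x => fderiv ℝ V x (ell z σ' x))) := atm_lb hd ha2 (dm1b_tr hT hL) (CV.trn hd hell hV.bd).bd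
  refine (h1.add hS (Ng.of_lb hS (dm1b_lb h2))).congr fun ε hε t x hx => ?_
  have hne : ε ≠ 0 := hε.1.ne'
  have hxD : x ∈ D := hx.1
  have dV : DifferentiableAt ℝ V x := dm1b_diff hD hV.bd hxD
  have e1 : fderiv ℝ (fun x => ε⁻¹ • btm a T V ε t x) x = ε⁻¹ • ((a t * T (t / ε ^ 2)) • fderiv ℝ V x) :=
    ((dV.hasFDerivAt.const_smul (a t * T (t / ε ^ 2))).const_smul ε⁻¹).fderiv
  show fderiv ℝ (fun x => ε⁻¹ • btm a T V ε t x) x (ε⁻¹ • lay z a K L σ' ε t x) + _ = _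
  rw [e1]
  simp only [smul_apply, lay, atm, map_smul, map_add, smul_add, smul_smul, pow_succ, pow_zero, one_mul]
  match_scalars <;> field_simp

end Pool.Agent.Lib.MP_79abb3_an.W
end

section

/-!
Theorem W, block D, part X2: finite families of waves: the terms of order `ε⁻²` and the forced layers.

`ι` is the finite set of waves `cos (k_i θ + φ_i) V_i`, `σ_i = slip V_i`, `q_i` the potential of `σ_i`.
-/

set_option autoImplicit false
set_option linter.unusedSectionVars false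

open MeasureTheory Set Filter Topology Function
open scoped ENNReal RealInnerProductSpace

namespace Pool.Agent.Lib.MP_79abb3_an.W

variable {d : ℕ} {D B : Set (Ed d)} {z : Ed d → ℝ} {δ : ℝ} {ι : Type} [Fintype ι]

/-- The data of a finite family of waves. -/
structure WFam (D B : Set (Ed d)) (z : Ed d → ℝ) (δ : ℝ) (k : ι → ℕ) (V : ι → Ed d → Ed d) (q : ι → Ed d → ℝ) : Prop where
  stg : Stg D B z δ
  k1 : ∀ i, 1 ≤ k i
  wave : ∀ i, Wave D B z (V i)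
  pt : ∀ i, IsPt D z (slip z δ (V i)) (q i)

/-- The waves, `ε⁻¹ a ∑ cos (k_i θ + φ_i) V_i`. -/
noncomputable def fp1 (a : ℝ → ℝ) (k : ι → ℕ) (φ : ι → ℝ) (V : ι → Ed d → Ed d) : Fam d (Ed d) :=
  fun ε t x => ∑ i, ε⁻¹ • btm a (cw (k i) (φ i)) (V i) ε t x

/-- The potentials of order `0`, `- a ∑ g_i(θ) ∇q_i`, `g_i(θ) = Gh (k i) (φ i) θ 0`. -/
noncomputable def fp0 (a : ℝ → ℝ) (k : ι → ℕ) (φ : ι → ℝ) (q : ι → Ed d → ℝ) : Fam d (Ed d) :=
  fun ε t x => ∑ i, -btm a (fun θ => Gh (k i) (φ i) θ 0) (gd (q i)) ε t x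

/-- The layers of order `-1`. -/
noncomputable def fL1 (z : Ed d → ℝ) (δ : ℝ) (a : ℝ → ℝ) (k : ι → ℕ) (φ : ι → ℝ) (V : ι → Ed d → Ed d) :
    Fam d (Ed d) := fun ε t x => ∑ i, ε⁻¹ • lay z a (Kh (k i) (φ i)) (Gh (k i) (φ i)) (slip z δ (V i)) ε t x

/-- The vector fields of the terms of order `ε⁻²`. -/
noncomputable def vL (z : Ed d → ℝ) (σ : Ed d → Ed d) (y : Ed d) : Ed d :=
  lap z y • σ y + (2 : ℝ) • fderiv ℝ σ y (gd z y)
noncomputable def vA (σ σ' : Ed d → Ed d) (y : Ed d) : Ed d := dv σ y • σ' y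
noncomputable def vB (σ σ' : Ed d → Ed d) (y : Ed d) : Ed d := fderiv ℝ σ' y (σ y)

variable {k : ι → ℕ} {φ : ι → ℝ} {V : ι → Ed d → Ed d} {q : ι → Ed d → ℝ} {a : ℝ → ℝ}

/-! ### Auxiliary facts -/

private theorem dx2_ffs_smul {X : Fam d (Ed d)} (h : FFS D X) (c : ℝ → ℝ) : FFS D fun ε t x => c ε • X ε t x :=
  fun ε hε => FS.const_smul (c ε) (h ε hε)

private theorem dx2_tb {m : ℤ} {X : Fam d (Ed d)} (h : Tb D z m X) : Tb D z (-1 + m) fun ε t x => ε⁻¹ • X ε t x := by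
  obtain ⟨C, hC⟩ := h
  refine ⟨C, fun ε hε t x hx => ?_⟩
  have hε0 : 0 < ε := hε.1
  rw [inner_smul_right, abs_mul, abs_of_pos (inv_pos.2 hε0)]
  have h1 := mul_le_mul_of_nonneg_left (hC ε hε t x hx) (inv_pos.2 hε0).le
  refine h1.trans (le_of_eq ?_)
  rw [zpow_add₀ hε0.ne', zpow_neg_one]
  ring

private theorem dx2_bk {m : ℤ} {X : Fam d (Ed d)} (hD : IsOpen D) (h : Bkf D m X) :
    Bkf D (-1 + m) fun ε t x => ε⁻¹ • X ε t x := by
  have h1 := Bkf.zsmul hD h (-1)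
  simpa only [zpow_neg_one] using h1

private theorem dx2_dfr {X : Fam d (Ed d)} (hD : IsOpen D) (hX : FFS D X) (h : Dfr D X) :
    Dfr D fun ε t x => ε⁻¹ • X ε t x := by
  have h1 := Dfr.zsmul hD hX h (-1)
  simpa only [zpow_neg_one] using h1

private theorem dx2_pot {X : Fam d (Ed d)} (h : Pot D B X) :
    Pot D B fun ε t x => ε⁻¹ • X ε t x := by
  have h1 := Pot.zsmul h (-1)
  simpa only [zpow_neg_one] using h1

private theorem dx2_lay {m : ℤ} {X : Fam d (Ed d)} (hS : Dom D z δ) (h : IsLay D z m X) :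
    IsLay D z (-1 + m) fun ε t x => ε⁻¹ • X ε t x := by
  have h1 := IsLay.zsmul hS h (-1)
  simpa only [zpow_neg_one] using h1

private theorem dx2_btm_ffs (ha : CB a) (k : ℕ) (φ : ℝ) {v : Ed d → Ed d} (hv : BD D v) :
    FFS D (btm a (cw k φ) v) := btm_ffs ha.smo (cw_mem k φ) hv

private theorem dx2_g_mem {k : ℕ} (hk : 1 ≤ k) (φ : ℝ) :
    (fun θ => Gh k φ θ 0) ∈ TR {(k : ℤ), -(k : ℤ)} := PR.at_zero (Gh_mem hk φ)

private theorem dx2_lay0 (hF : WFam D B z δ k V q) (ha : CB a) (i : ι) :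
    IsLay D z (-1) fun ε t x => ε⁻¹ • lay z a (Kh (k i) (φ i)) (Gh (k i) (φ i)) (slip z δ (V i)) ε t x := by
  have h1 := lay_isLay hF.stg.dom ha (Kh_mem (hF.k1 i) (φ i)) (Gh_mem (hF.k1 i) (φ i)) (Gh_ze (hF.k1 i) (φ i))
    (slip_cf hF.stg.dom (hF.wave i).bd)
  have h2 := dx2_lay hF.stg.dom h1
  simpa only [add_zero] using h2

theorem fp1_p (hF : WFam D B z δ k V q) (ha : CB a) : PLay D B (-1) (fp1 a k φ V) ∧ Tb D z (-1) (fp1 a k φ V) := by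
  have hD : IsOpen D := hF.stg.dom.isOpen
  have hbk : ∀ i, Bkf D (-1) fun ε t x => ε⁻¹ • btm a (cw (k i) (φ i)) (V i) ε t x := fun i => by
    have h1 := dx2_bk hD (btm_bk hD ha (cw_mem (k i) (φ i)) (hF.wave i).bd)
    simpa only [add_zero] using h1
  have hffs : ∀ i, FFS D (btm a (cw (k i) (φ i)) (V i)) := fun i => dx2_btm_ffs ha _ _ (hF.wave i).bd
  have hdf : ∀ i, Dfr D fun ε t x => ε⁻¹ • btm a (cw (k i) (φ i)) (V i) ε t x := fun i =>
    dx2_dfr hD (hffs i) (btm_dfr hD (hF.wave i).bd (hF.wave i).div)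
  have hpt : ∀ i, Pot D B fun ε t x => ε⁻¹ • btm a (cw (k i) (φ i)) (V i) ε t x := fun i => by
    obtain ⟨p, hp, hp2⟩ := (hF.wave i).pot
    exact dx2_pot (btm_pot ha (cw_mem (k i) (φ i)) hp hp2)
  have htb : ∀ i, Tb D z (-1) fun ε t x => ε⁻¹ • btm a (cw (k i) (φ i)) (V i) ε t x := fun i => by
    have h1 := dx2_tb (btm_tb ha (cw_mem (k i) (φ i)) (hF.wave i).tan)
    simpa only [add_zero] using h1
  exact ⟨⟨Bkf.sum hD Finset.univ fun i _ => hbk i,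
    Dfr.sum hD Finset.univ (fun i _ => dx2_ffs_smul (hffs i) fun ε => ε⁻¹) fun i _ => hdf i,
    Pot.sum Finset.univ fun i _ => hpt i⟩, Tb.sum Finset.univ fun i _ => htb i⟩

theorem fp0_p (hF : WFam D B z δ k V q) (ha : CB a) : PLay D B 0 (fp0 a k φ q) := by
  have hD : IsOpen D := hF.stg.dom.isOpen
  have hbd : ∀ i, BD D (gd (q i)) := fun i => IsPt.bd_gd hF.stg.dom (hF.pt i)
  have hffs : ∀ i, FFS D (btm a (fun θ => Gh (k i) (φ i) θ 0) (gd (q i))) := fun i =>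
    btm_ffs ha.smo (dx2_g_mem (hF.k1 i) (φ i)) (hbd i)
  have hbk : ∀ i, Bkf D 0 fun ε t x => -btm a (fun θ => Gh (k i) (φ i) θ 0) (gd (q i)) ε t x := fun i => by
    have h1 := Bkf.const_smul hD (-1) (btm_bk hD ha (dx2_g_mem (hF.k1 i) (φ i)) (hbd i))
    simpa only [neg_smul, one_smul] using h1
  have hdf : ∀ i, Dfr D fun ε t x => -btm a (fun θ => Gh (k i) (φ i) θ 0) (gd (q i)) ε t x := fun i => by
    have h1 := Dfr.const_smul hD (hffs i) (btm_dfr hD (hbd i) fun x hx => IsPt.dv_gd hF.stg.dom (hF.pt i) hx) (-1)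
    simpa only [neg_smul, one_smul] using h1
  have hpt : ∀ i, Pot D B fun ε t x => -btm a (fun θ => Gh (k i) (φ i) θ 0) (gd (q i)) ε t x := fun i => by
    have h1 := Pot.const_smul (btm_pot (B := B) (v := gd (q i)) ha (dx2_g_mem (hF.k1 i) (φ i))
      ((hF.pt i).bd.1.mono sdiff_subset) fun x _ => rfl) (-1)
    simpa only [neg_smul, one_smul] using h1
  have hffs' : ∀ i, FFS D fun ε t x => -btm a (fun θ => Gh (k i) (φ i) θ 0) (gd (q i)) ε t x := fun i =>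
    fun ε hε => FS.neg (hffs i ε hε)
  exact ⟨Bkf.sum hD Finset.univ fun i _ => hbk i, Dfr.sum hD Finset.univ (fun i _ => hffs' i) fun i _ => hdf i,
    Pot.sum Finset.univ fun i _ => hpt i⟩

theorem fL1_lay (hF : WFam D B z δ k V q) (ha : CB a) : IsLay D z (-1) (fL1 z δ a k φ V) :=
  IsLay.sum hF.stg.dom Finset.univ fun i _ => dx2_lay0 hF ha i

private theorem dx2_pair (hF : WFam D B z δ k V q) (ha : CB a) (i j : ι) : Ng D B z fun ε t x =>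
    (Trn (fun ε t x => ε⁻¹ • btm a (cw (k i) (φ i)) (V i) ε t x)
      (fun ε t x => ε⁻¹ • lay z a (Kh (k j) (φ j)) (Gh (k j) (φ j)) (slip z δ (V j)) ε t x) ε t x +
    Trn (fun ε t x => ε⁻¹ • lay z a (Kh (k j) (φ j)) (Gh (k j) (φ j)) (slip z δ (V j)) ε t x)
      (fun ε t x => ε⁻¹ • btm a (cw (k i) (φ i)) (V i) ε t x) ε t x +
    Trn (fun ε t x => ε⁻¹ • lay z a (Kh (k i) (φ i)) (Gh (k i) (φ i)) (slip z δ (V i)) ε t x)
      (fun ε t x => ε⁻¹ • lay z a (Kh (k j) (φ j)) (Gh (k j) (φ j)) (slip z δ (V j)) ε t x) ε t x +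
    Trn (fun ε t x => -btm a (fun θ => Gh (k i) (φ i) θ 0) (gd (q i)) ε t x)
      (fun ε t x => ε⁻¹ • lay z a (Kh (k j) (φ j)) (Gh (k j) (φ j)) (slip z δ (V j)) ε t x) ε t x) -
    ((ε ^ 2)⁻¹ • atm z (fun t => a t ^ 2) (fA (k i) (φ i) (k j) (φ j)) (vA (slip z δ (V i)) (slip z δ (V j))) ε t x +
       (ε ^ 2)⁻¹ • atm z (fun t => a t ^ 2) (fB (k i) (φ i) (k j) (φ j)) (vB (slip z δ (V i)) (slip z δ (V j))) ε t x +
       (ε ^ 2)⁻¹ • atm z (fun t => a t ^ 2) (fC (k i) (φ i) (k j) (φ j))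
         (vB (slip z δ (V j)) (slip z δ (V i))) ε t x) := by
  have hS := hF.stg
  have hσ : ∀ i, CF D z δ (slip z δ (V i)) := fun i => slip_cf hS.dom (hF.wave i).bd
  have hu : ∀ {s : Set ℤ} {K : ℝ → ℝ → ℝ}, K ∈ PR s → K ∈ PR univ := fun h => PR.mono (subset_univ _) h
  have hv : ∀ {s : Set ℤ} {T : ℝ → ℝ}, T ∈ TR s → T ∈ TR univ := fun h => TR.mono (subset_univ _) h
  have hK : ∀ i, Kh (k i) (φ i) ∈ PR univ := fun i => hu (Kh_mem (hF.k1 i) (φ i))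
  have hG : ∀ i, Gh (k i) (φ i) ∈ PR univ := fun i => hu (Gh_mem (hF.k1 i) (φ i))
  have hKG : ∀ i, pze (Gh (k i) (φ i)) = Kh (k i) (φ i) := fun i => Gh_ze (hF.k1 i) (φ i)
  have h1 := main_wl hS ha (hv (cw_mem (k i) (φ i))) (hK j) (hG j) (hKG j) (hF.wave i) (hσ j)
  have h2 := main_lw hS ha (hv (cw_mem (k i) (φ i))) (hK j) (hG j) (hKG j) (hF.wave i) (hσ j)
  have h3 := main_ll hS ha (hK i) (hG i) (hKG i) (hK j) (hG j) (hKG j) (hσ i) (hσ j)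
  have h4 := main_pl hS ha (hv (dx2_g_mem (hF.k1 i) (φ i))) (hK j) (hG j) (hKG j) (hσ i) (hF.pt i) (hσ j)
  refine Ng.congr (Ng.sub hS (Ng.add hS (Ng.add hS h1 h2) h3) h4) fun ε hε t x hx => ?_
  have e1 : Trn (fun ε t x => -btm a (fun θ => Gh (k i) (φ i) θ 0) (gd (q i)) ε t x)
      (fun ε t x => ε⁻¹ • lay z a (Kh (k j) (φ j)) (Gh (k j) (φ j)) (slip z δ (V j)) ε t x) ε t x =
      -Trn (btm a (fun θ => Gh (k i) (φ i) θ 0) (gd (q i)))
      (fun ε t x => ε⁻¹ • lay z a (Kh (k j) (φ j)) (Gh (k j) (φ j)) (slip z δ (V j)) ε t x) ε t x := by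
    unfold Trn
    rw [map_neg]
  rw [e1]
  have e2 : atm z (fun t => a t ^ 2) (fA (k i) (φ i) (k j) (φ j)) (vA (slip z δ (V i)) (slip z δ (V j))) ε t x =
      atm z (fun t => a t ^ 2) (fun θ ζ => cw (k i) (φ i) θ * (ζ * pze (Kh (k j) (φ j)) θ ζ))
        (fun y => dv (slip z δ (V i)) y • slip z δ (V j) y) ε t x -
      atm z (fun t => a t ^ 2) (fun θ ζ => Gh (k i) (φ i) θ ζ * pze (Kh (k j) (φ j)) θ ζ)
        (fun y => dv (slip z δ (V i)) y • slip z δ (V j) y) ε t x +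
      atm z (fun t => a t ^ 2) (fun θ ζ => Gh (k i) (φ i) θ 0 * pze (Kh (k j) (φ j)) θ ζ)
        (fun y => dv (slip z δ (V i)) y • slip z δ (V j) y) ε t x := by
    simp only [atm, fA, vA]
    module
  have e3 : atm z (fun t => a t ^ 2) (fB (k i) (φ i) (k j) (φ j)) (vB (slip z δ (V i)) (slip z δ (V j))) ε t x =
      atm z (fun t => a t ^ 2) (fun θ ζ => Kh (k i) (φ i) θ ζ * Kh (k j) (φ j) θ ζ)
        (fun y => fderiv ℝ (slip z δ (V j)) y (slip z δ (V i) y)) ε t x -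
      atm z (fun t => a t ^ 2) (fun θ ζ => cw (k i) (φ i) θ * Kh (k j) (φ j) θ ζ)
        (fun y => fderiv ℝ (slip z δ (V j)) y (slip z δ (V i) y)) ε t x := by
    simp only [atm, fB, vB]
    module
  have e4 : atm z (fun t => a t ^ 2) (fC (k i) (φ i) (k j) (φ j)) (vB (slip z δ (V j)) (slip z δ (V i))) ε t x =
      -atm z (fun t => a t ^ 2) (fun θ ζ => cw (k i) (φ i) θ * Kh (k j) (φ j) θ ζ)
        (fun y => fderiv ℝ (slip z δ (V i)) y (slip z δ (V j) y)) ε t x := by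
    simp only [atm, fC, vB]
    module
  rw [e2, e3, e4]
  module

private theorem dx2_one (hF : WFam D B z δ k V q) (ha : CB a) (i : ι) : Ng D B z fun ε t x =>
    Hop (fun ε t x => ε⁻¹ • lay z a (Kh (k i) (φ i)) (Gh (k i) (φ i)) (slip z δ (V i)) ε t x) ε t x -
      (ε ^ 2)⁻¹ • atm z a (fun θ ζ => -pze (Kh (k i) (φ i)) θ ζ) (vL z (slip z δ (V i))) ε t x := by
  refine Ng.congr (main_hop hF.stg ha (hF.k1 i) (φ i) (slip_cf hF.stg.dom (hF.wave i).bd)) fun ε hε t x hx => ?_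
  have e2 : atm z a (fun θ ζ => -pze (Kh (k i) (φ i)) θ ζ) (vL z (slip z δ (V i))) ε t x =
      -atm z a (pze (Kh (k i) (φ i)))
        (fun y => lap z y • slip z δ (V i) y + (2 : ℝ) • fderiv ℝ (slip z δ (V i)) y (gd z y)) ε t x := by
    simp only [atm, vL]
    module
  rw [e2]
  module

/-- The sum of all terms of order `ε⁻²`. -/
theorem main_sum (hF : WFam D B z δ k V q) (ha : CB a) : Ng D B z fun ε t x =>
    Hop (fL1 z δ a k φ V) ε t x + Trn (fp1 a k φ V) (fL1 z δ a k φ V) ε t x +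
    Trn (fL1 z δ a k φ V) (fp1 a k φ V) ε t x + Trn (fL1 z δ a k φ V) (fL1 z δ a k φ V) ε t x +
    Trn (fp0 a k φ q) (fL1 z δ a k φ V) ε t x -
    ((∑ i, (ε ^ 2)⁻¹ • atm z a (fun θ ζ => -pze (Kh (k i) (φ i)) θ ζ) (vL z (slip z δ (V i))) ε t x) +
     ∑ i, ∑ j, ((ε ^ 2)⁻¹ • atm z (fun t => a t ^ 2) (fA (k i) (φ i) (k j) (φ j)) (vA (slip z δ (V i)) (slip z δ (V j))) ε t x +
       (ε ^ 2)⁻¹ • atm z (fun t => a t ^ 2) (fB (k i) (φ i) (k j) (φ j)) (vB (slip z δ (V i)) (slip z δ (V j))) ε t x +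
       (ε ^ 2)⁻¹ • atm z (fun t => a t ^ 2) (fC (k i) (φ i) (k j) (φ j))
         (vB (slip z δ (V j)) (slip z δ (V i))) ε t x)) := by
  have hD : IsOpen D := hF.stg.dom.isOpen
  have hS := hF.stg
  refine Ng.congr (Ng.add hS (Ng.sum hS Finset.univ fun i _ => dx2_one (φ := φ) hF ha i)
    (Ng.sum hS Finset.univ fun i _ => Ng.sum hS Finset.univ fun j _ => dx2_pair (φ := φ) hF ha i j))
    fun ε hε t x hx => ?_
  have hb : ∀ i, FFS D fun ε t x => ε⁻¹ • btm a (cw (k i) (φ i)) (V i) ε t x := fun i =>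
    dx2_ffs_smul (dx2_btm_ffs ha _ _ (hF.wave i).bd) fun ε => ε⁻¹
  have hl : ∀ i, FFS D fun ε t x =>
      ε⁻¹ • lay z a (Kh (k i) (φ i)) (Gh (k i) (φ i)) (slip z δ (V i)) ε t x := fun i => (dx2_lay0 hF ha i).fs
  have e1 : Hop (fL1 z δ a k φ V) ε t x = ∑ i, Hop (fun ε t x =>
      ε⁻¹ • lay z a (Kh (k i) (φ i)) (Gh (k i) (φ i)) (slip z δ (V i)) ε t x) ε t x :=
    Hop_sum hD Finset.univ (fun i _ => hl i) hε t hx.1
  have e2 : ∀ X : Fam d (Ed d), Trn X (fL1 z δ a k φ V) ε t x = ∑ j, Trn X (fun ε t x =>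
      ε⁻¹ • lay z a (Kh (k j) (φ j)) (Gh (k j) (φ j)) (slip z δ (V j)) ε t x) ε t x := fun X =>
    Trn_sum_right hD Finset.univ (fun i _ => hl i) hε t hx.1
  have e3 : ∀ Y : Fam d (Ed d), Trn (fL1 z δ a k φ V) Y ε t x = ∑ j, Trn (fun ε t x =>
      ε⁻¹ • lay z a (Kh (k j) (φ j)) (Gh (k j) (φ j)) (slip z δ (V j)) ε t x) Y ε t x := fun Y =>
    Trn_sum_left Finset.univ _ Y ε t x
  have e4 : ∀ X : Fam d (Ed d), Trn X (fp1 a k φ V) ε t x = ∑ i, Trn X (fun ε t x =>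
      ε⁻¹ • btm a (cw (k i) (φ i)) (V i) ε t x) ε t x := fun X =>
    Trn_sum_right hD Finset.univ (fun i _ => hb i) hε t hx.1
  have e5 : ∀ Y : Fam d (Ed d), Trn (fp1 a k φ V) Y ε t x = ∑ i, Trn (fun ε t x =>
      ε⁻¹ • btm a (cw (k i) (φ i)) (V i) ε t x) Y ε t x := fun Y =>
    Trn_sum_left Finset.univ _ Y ε t x
  have e6 : ∀ Y : Fam d (Ed d), Trn (fp0 a k φ q) Y ε t x = ∑ i, Trn (fun ε t x =>
      -btm a (fun θ => Gh (k i) (φ i) θ 0) (gd (q i)) ε t x) Y ε t x := fun Y =>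
    Trn_sum_left Finset.univ _ Y ε t x
  have f1 : Trn (fp1 a k φ V) (fL1 z δ a k φ V) ε t x = ∑ i, ∑ j,
      Trn (fun ε t x => ε⁻¹ • btm a (cw (k i) (φ i)) (V i) ε t x)
      (fun ε t x => ε⁻¹ • lay z a (Kh (k j) (φ j)) (Gh (k j) (φ j)) (slip z δ (V j)) ε t x) ε t x := by
    rw [e5]
    exact Finset.sum_congr rfl fun i _ => e2 _
  have f2 : Trn (fL1 z δ a k φ V) (fp1 a k φ V) ε t x = ∑ i, ∑ j,
      Trn (fun ε t x => ε⁻¹ • lay z a (Kh (k j) (φ j)) (Gh (k j) (φ j)) (slip z δ (V j)) ε t x)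
      (fun ε t x => ε⁻¹ • btm a (cw (k i) (φ i)) (V i) ε t x) ε t x := by
    rw [e4]
    exact Finset.sum_congr rfl fun i _ => e3 _
  have f3 : Trn (fL1 z δ a k φ V) (fL1 z δ a k φ V) ε t x = ∑ i, ∑ j,
      Trn (fun ε t x => ε⁻¹ • lay z a (Kh (k i) (φ i)) (Gh (k i) (φ i)) (slip z δ (V i)) ε t x)
      (fun ε t x => ε⁻¹ • lay z a (Kh (k j) (φ j)) (Gh (k j) (φ j)) (slip z δ (V j)) ε t x) ε t x := by
    rw [e3]
    exact Finset.sum_congr rfl fun i _ => e2 _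
  have f4 : Trn (fp0 a k φ q) (fL1 z δ a k φ V) ε t x = ∑ i, ∑ j,
      Trn (fun ε t x => -btm a (fun θ => Gh (k i) (φ i) θ 0) (gd (q i)) ε t x)
      (fun ε t x => ε⁻¹ • lay z a (Kh (k j) (φ j)) (Gh (k j) (φ j)) (slip z δ (V j)) ε t x) ε t x := by
    rw [e6]
    exact Finset.sum_congr rfl fun i _ => e2 _
  rw [e1, f1, f2, f3, f4]
  simp only [Finset.sum_add_distrib, Finset.sum_sub_distrib]
  abel

end Pool.Agent.Lib.MP_79abb3_an.W
end
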