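import Pool.Agent.Lib.MP_79abb3_an.W.DT1
import Pool.Agent.Lib.MP_79abb3_an.W.DX2

section

/-!
Theorem W, block D, part T1c: closure properties of `HLay`, `PLay`, `Van`.
-/

set_option autoImplicit false
set_option linter.unusedSectionVars false

open MeasureTheory Set Filter Topology Function
open scoped ENNReal RealInnerProductSpace

namespace Pool.Agent.Lib.MP_79abb3_an.W

variable {d : ℕ} {D B : Set (Ed d)} {z : Ed d → ℝ} {δ : ℝ} {m m' : ℤ} {X Y : Fam d (Ed d)} {ι : Type} {c : ℝ → ℝ}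

theorem Dom.open' (h : Dom D z δ) : IsOpen D := h.isOpen

theorem Dom.zp (h : Dom D z δ) : ∀ x ∈ D, 0 < z x := fun _ hx => h.zpos hx

theorem HLay.congr (hX : HLay D z m X) (h : Dom D z δ)
    (e : ∀ ε ∈ Ioc (0 : ℝ) 1, ∀ t x, Y ε t x = X ε t x) : HLay D z m Y := by
  obtain ⟨h1, h2⟩ := hX
  have e' : ∀ ε ∈ Ioc (0 : ℝ) 1, Y ε = X ε := fun ε hε => by ext1 t; ext1 x; exact e ε hε t x
  refine ⟨⟨fun ε hε => ?_, fun ε hε t x hx => ?_, ?_⟩, h2.congr fun ε hε t x hx => ?_⟩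
  · rw [e' ε hε]; exact h1.fs ε hε
  · rw [e' ε hε]; exact h1.div ε hε t x hx
  · obtain ⟨C, c, hc, hb⟩ := h1.bd
    refine ⟨C, c, hc, fun ε hε t x hx => ?_⟩
    rw [e' ε hε]; exact hb ε hε t x hx
  · show deriv (fun s => Y ε s x) t - lap (Y ε t) x = deriv (fun s => X ε s x) t - lap (X ε t) x
    rw [e' ε hε]

theorem HLay.sum (h : Dom D z δ) (s : Finset ι) {X : ι → Fam d (Ed d)} (hX : ∀ i ∈ s, HLay D z m (X i)) :
    HLay D z m fun ε t x => ∑ i ∈ s, X i ε t x := by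
  refine ⟨IsLay.sum h s fun i hi => (hX i hi).1, ?_⟩
  refine (Lb.sum h.zp s (X := fun i => Hop (X i)) fun i hi => (hX i hi).2).congr fun ε hε t x hx => ?_
  exact Hop_sum h.isOpen s (fun i hi => (hX i hi).1.fs) hε t hx

theorem HLay.const_smul (h : Dom D z δ) (a : ℝ) (hX : HLay D z m X) : HLay D z m fun ε t x => a • X ε t x := by
  refine ⟨hX.1.const_smul h a, ?_⟩
  refine (hX.2.const_smul a).congr fun ε hε t x hx => ?_
  exact Hop_smul h.isOpen hX.1.fs (fun _ => a) hε t hx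

theorem HLay.zsmul (h : Dom D z δ) (hX : HLay D z m X) (l : ℤ) : HLay D z (l + m) fun ε t x => ε ^ l • X ε t x := by
  refine ⟨hX.1.zsmul h l, ?_⟩
  have h1 : l + m - 1 = l + (m - 1) := by ring
  rw [h1]
  refine (hX.2.zsmul l).congr fun ε hε t x hx => ?_
  exact Hop_smul h.isOpen hX.1.fs (fun ε => ε ^ l) hε t hx

theorem HLay.mono (h : Dom D z δ) (hm : m' ≤ m) (hX : HLay D z m X) : HLay D z m' X :=
  ⟨hX.1.mono h hm, hX.2.mono h.zp (by omega)⟩

/-- multiplication by `ε` -/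
theorem HLay.eps (h : Dom D z δ) (hX : HLay D z m X) : HLay D z m fun ε t x => ε • X ε t x := by
  have h1 := (hX.zsmul h 1).mono h (m' := m) (by omega)
  exact h1.congr h fun ε hε t x => by rw [zpow_one]

theorem HLay.add (h : Dom D z δ) (hX : HLay D z m X) (hY : HLay D z m Y) :
    HLay D z m fun ε t x => X ε t x + Y ε t x := by
  refine ⟨hX.1.add h hY.1, ?_⟩
  refine (hX.2.add h.zp hY.2).congr fun ε hε t x hx => ?_
  exact Hop_add h.isOpen hX.1.fs hY.1.fs hε t hx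

theorem HLay.neg (h : Dom D z δ) (hX : HLay D z m X) : HLay D z m fun ε t x => -X ε t x :=
  (hX.const_smul h (-1)).congr h fun ε hε t x => by rw [neg_one_smul]

theorem PLay.congr (hX : PLay D B m X) (e : ∀ ε ∈ Ioc (0 : ℝ) 1, ∀ t x, Y ε t x = X ε t x) : PLay D B m Y := by
  obtain ⟨⟨h1, C, h2⟩, h3, h4⟩ := hX
  have e' : ∀ ε ∈ Ioc (0 : ℝ) 1, Y ε = X ε := fun ε hε => by ext1 t; ext1 x; exact e ε hε t x
  refine ⟨⟨fun ε hε => ?_, C, fun ε hε t x hx => ?_⟩, fun ε hε t x hx => ?_, fun ε hε => ?_⟩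
  · rw [e' ε hε]; exact h1 ε hε
  · rw [e' ε hε]; exact h2 ε hε t x hx
  · rw [e' ε hε]; exact h3 ε hε t x hx
  · rw [e' ε hε]; exact h4 ε hε

theorem PLay.sum (h : Dom D z δ) (s : Finset ι) {X : ι → Fam d (Ed d)} (hX : ∀ i ∈ s, PLay D B m (X i)) :
    PLay D B m fun ε t x => ∑ i ∈ s, X i ε t x :=
  ⟨Bkf.sum h.isOpen s fun i hi => (hX i hi).1,
    Dfr.sum h.isOpen s (fun i hi => (hX i hi).1.1) fun i hi => (hX i hi).2.1, Pot.sum s fun i hi => (hX i hi).2.2⟩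

theorem PLay.add (h : Dom D z δ) (hX : PLay D B m X) (hY : PLay D B m Y) :
    PLay D B m fun ε t x => X ε t x + Y ε t x :=
  ⟨hX.1.add h.isOpen hY.1, Dfr.add h.isOpen hX.1.1 hY.1.1 hX.2.1 hY.2.1, hX.2.2.add hY.2.2⟩

theorem PLay.const_smul (h : Dom D z δ) (a : ℝ) (hX : PLay D B m X) : PLay D B m fun ε t x => a • X ε t x :=
  ⟨hX.1.const_smul h.isOpen a, hX.2.1.const_smul h.isOpen hX.1.1 a, hX.2.2.const_smul a⟩

theorem PLay.zsmul (h : Dom D z δ) (hX : PLay D B m X) (l : ℤ) : PLay D B (l + m) fun ε t x => ε ^ l • X ε t x :=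
  ⟨hX.1.zsmul h.isOpen l, hX.2.1.zsmul h.isOpen hX.1.1 l, hX.2.2.zsmul l⟩

theorem PLay.mono (hm : m' ≤ m) (hX : PLay D B m X) : PLay D B m' X := ⟨hX.1.mono hm, hX.2⟩

theorem PLay.neg (h : Dom D z δ) (hX : PLay D B m X) : PLay D B m fun ε t x => -X ε t x :=
  (hX.const_smul h (-1)).congr fun ε hε t x => by rw [neg_one_smul]

/-- multiplication by `ε` raises the order -/
theorem PLay.eps (h : Dom D z δ) (hX : PLay D B m X) : PLay D B (1 + m) fun ε t x => ε • X ε t x :=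
  (hX.zsmul h 1).congr fun ε hε t x => by rw [zpow_one]

theorem PLay.eps' (h : Dom D z δ) (hX : PLay D B m X) : PLay D B m fun ε t x => ε • X ε t x :=
  (hX.eps h).mono (by omega)

theorem IsCr.neg (hD : IsOpen D) (hX : IsCr D X) : IsCr D fun ε t x => -X ε t x := by
  have h1 := hX.const_smul hD (-1)
  have e : (fun ε t x => (-1 : ℝ) • X ε t x) = fun ε t x => -X ε t x := by
    ext1 ε; ext1 t; ext1 x; rw [neg_one_smul]
  rwa [e] at h1

theorem Van.sum (s : Finset ι) {X : ι → Fam d (Ed d)} (hX : ∀ i ∈ s, Van c (X i)) :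
    Van c fun ε t x => ∑ i ∈ s, X i ε t x :=
  fun ε t x h => Finset.sum_eq_zero fun i hi => hX i hi ε t x h

theorem Van.add (hX : Van c X) (hY : Van c Y) : Van c fun ε t x => X ε t x + Y ε t x := by
  intro ε t x h
  show X ε t x + Y ε t x = 0
  rw [hX ε t x h, hY ε t x h, add_zero]

/-- the factor may depend on everything -/
theorem Van.smul (a : ℝ → ℝ → Ed d → ℝ) (hX : Van c X) : Van c fun ε t x => a ε t x • X ε t x := by
  intro ε t x h
  show a ε t x • X ε t x = 0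
  rw [hX ε t x h, smul_zero]

theorem Van.neg (hX : Van c X) : Van c fun ε t x => -X ε t x := by
  intro ε t x h
  show -X ε t x = 0
  rw [hX ε t x h, neg_zero]

theorem Van.sq (hX : Van (fun t => c t ^ 2) X) : Van c X :=
  fun ε t x h => hX ε t x (by show c t ^ 2 = 0; rw [h]; ring)

theorem Tz.congr {X Y : Fam d (Ed d)} (hX : Tz D z X) (e : ∀ ε ∈ Ioc (0 : ℝ) 1, ∀ t, ∀ x ∈ D, Y ε t x = X ε t x) :
    Tz D z Y := fun ε hε t => (hX ε hε t).congr fun x hx => e ε hε t x hx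

theorem Tz.add {X Y : Fam d (Ed d)} (hX : Tz D z X) (hY : Tz D z Y) : Tz D z fun ε t x => X ε t x + Y ε t x :=
  fun ε hε t => (hX ε hε t).add (hY ε hε t)

theorem Tz.sub {X Y : Fam d (Ed d)} (hX : Tz D z X) (hY : Tz D z Y) : Tz D z fun ε t x => X ε t x - Y ε t x :=
  fun ε hε t => (hX ε hε t).sub (hY ε hε t)

theorem Tz.sum (s : Finset ι) {X : ι → Fam d (Ed d)} (hX : ∀ i ∈ s, Tz D z (X i)) :
    Tz D z fun ε t x => ∑ i ∈ s, X i ε t x :=
  fun ε hε t => Oz.sum s fun i hi => hX i hi ε hε t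

/-- factors which may depend on `ε`, `t` -/
theorem Tz.smul {X : Fam d (Ed d)} (a : ℝ → ℝ → ℝ) (hX : Tz D z X) : Tz D z fun ε t x => a ε t • X ε t x :=
  fun ε hε t => (hX ε hε t).const_smul (a ε t)

theorem Tz.of_oz {v : Ed d → Ed d} (hv : Oz D z v) (a : ℝ → ℝ → ℝ) : Tz D z fun ε t x => a ε t • v x :=
  fun ε _ t => hv.const_smul (a ε t)

theorem Van.lay (z : Ed d → ℝ) (c : ℝ → ℝ) (K G : ℝ → ℝ → ℝ) (σ : Ed d → Ed d) : Van c (lay z c K G σ) := by
  intro ε t x h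
  show (c t * _) • _ + ε • ((c t * _) • _) = 0
  rw [h, zero_mul, zero_mul, zero_smul, zero_smul, smul_zero, add_zero]

theorem Van.btm (c T : ℝ → ℝ) (v : Ed d → Ed d) : Van c (btm c T v) := by
  intro ε t x h
  show (c t * _) • _ = 0
  rw [h, zero_mul, zero_smul]

end Pool.Agent.Lib.MP_79abb3_an.W
end

section

/-!
Theorem W, block D, part X2c: oscillating traces.
-/

set_option autoImplicit false
set_option linter.unusedSectionVars false

open MeasureTheory Set Filter Topology Function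
open scoped ENNReal RealInnerProductSpace

namespace Pool.Agent.Lib.MP_79abb3_an.W

variable {d : ℕ} {D B : Set (Ed d)} {z : Ed d → ℝ} {δ : ℝ} {ι : Type} [Fintype ι]
  {k : ι → ℕ} {φ : ι → ℝ} {V : ι → Ed d → Ed d} {q : ι → Ed d → ℝ} {a : ℝ → ℝ}

/-- Correction of the oscillating trace of order `0` of the layers `fL1` (`trace_corr` with the phases `φ_i - π/4` and
the factors `- (√k_i)⁻¹`): the potentials are exactly `fp0`. -/
theorem osc_sum (hF : WFam D B z δ k V q) (ha : CB a) :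
    ∃ Y P E : Fam d (Ed d), HLay D z 0 Y ∧ PLay D B 1 P ∧ IsCr D E ∧ Van a Y ∧ Van a P ∧ Van a E ∧
      Tz D z fun ε t x => fp1 a k φ V ε t x + fL1 z δ a k φ V ε t x + fp0 a k φ q ε t x + Y ε t x + P ε t x +
        E ε t x := by
  have hS := hF.stg
  have hd := hS.dom
  have hσ : ∀ i, CF D z δ (slip z δ (V i)) := fun i => slip_cf hd (hF.wave i).bd
  have h1 : ∀ i, ∃ Y P E : Fam d (Ed d), HLay D z 0 Y ∧ PLay D B 1 P ∧ IsCr D E ∧
      Van a Y ∧ Van a P ∧ Van a E ∧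
      Tz D z fun ε t x => -btm a (cw (k i) (φ i - Real.pi / 4)) (gd (q i)) ε t x + Y ε t x + P ε t x + E ε t x +
        btm a (cw (k i) (φ i - Real.pi / 4)) (ell z (slip z δ (V i))) ε t x :=
    fun i => trace_corr hS ha (hF.k1 i) _ (hσ i) (hF.pt i)
  choose Y P E hY hP hE vY vP vE ht using h1
  set A : ι → ℝ := fun i => -(√(k i))⁻¹ with hA
  refine ⟨fun ε t x => ∑ i, A i • Y i ε t x, fun ε t x => ∑ i, A i • P i ε t x, fun ε t x => ∑ i, A i • E i ε t x,
    HLay.sum hd _ fun i _ => (hY i).const_smul hd _, PLay.sum hd _ fun i _ => (hP i).const_smul hd _,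
    IsCr.sum hd.isOpen _ fun i _ => (hE i).const_smul hd.isOpen _,
    Van.sum _ fun i _ => (vY i).smul fun _ _ _ => A i, Van.sum _ fun i _ => (vP i).smul fun _ _ _ => A i,
    Van.sum _ fun i _ => (vE i).smul fun _ _ _ => A i, ?_⟩
  -- one wave
  have hone : ∀ i, Tz D z fun ε t x => (ε⁻¹ * (a t * cw (k i) (φ i) (t / ε ^ 2))) • (V i x + slip z δ (V i) x) +
      ε⁻¹ • (lay z a (Kh (k i) (φ i)) (Gh (k i) (φ i)) (slip z δ (V i)) ε t x -
        (btm a (fun θ => Kh (k i) (φ i) θ 0) (slip z δ (V i)) ε t x +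
          ε • btm a (fun θ => Gh (k i) (φ i) θ 0) (ell z (slip z δ (V i))) ε t x)) +
      A i • (-btm a (cw (k i) (φ i - Real.pi / 4)) (gd (q i)) ε t x + Y i ε t x + P i ε t x + E i ε t x +
        btm a (cw (k i) (φ i - Real.pi / 4)) (ell z (slip z δ (V i))) ε t x) := by
    intro i
    refine Tz.add (Tz.add ?_ ?_) ?_
    · exact Tz.of_oz (slip_sub hd (hF.wave i)) _
    · exact (lay_trace hd ha (Kh_mem (hF.k1 i) _) (Gh_mem (hF.k1 i) _) (hσ i)).smul fun ε _ => ε⁻¹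
    · exact (ht i).smul fun _ _ => A i
  refine (Tz.sum Finset.univ fun i _ => hone i).congr fun ε hε t x hx => ?_
  have he : ε ≠ 0 := hε.1.ne'
  show (∑ i, ε⁻¹ • btm a (cw (k i) (φ i)) (V i) ε t x) +
    (∑ i, ε⁻¹ • lay z a (Kh (k i) (φ i)) (Gh (k i) (φ i)) (slip z δ (V i)) ε t x) +
    (∑ i, -btm a (fun θ => Gh (k i) (φ i) θ 0) (gd (q i)) ε t x) + (∑ i, A i • Y i ε t x) + (∑ i, A i • P i ε t x) +
    (∑ i, A i • E i ε t x) = _
  rw [← Finset.sum_add_distrib, ← Finset.sum_add_distrib, ← Finset.sum_add_distrib, ← Finset.sum_add_distrib,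
    ← Finset.sum_add_distrib]
  refine Finset.sum_congr rfl fun i _ => ?_
  have hG : ∀ θ, Gh (k i) (φ i) θ 0 = A i * cw (k i) (φ i - Real.pi / 4) θ := fun θ => Gh_zero _ _ _
  have hK : ∀ θ, Kh (k i) (φ i) θ 0 = cw (k i) (φ i) θ := fun θ => Kh_zero _ _ _
  simp only [btm, hG, hK, smul_add, smul_sub, smul_smul, smul_neg]
  rw [show ε⁻¹ * (ε * (a t * (A i * cw (k i) (φ i - Real.pi / 4) (t / ε ^ 2)))) =
    A i * (a t * cw (k i) (φ i - Real.pi / 4) (t / ε ^ 2)) by field_simp,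
    show a t * (A i * cw (k i) (φ i - Real.pi / 4) (t / ε ^ 2)) =
      A i * (a t * cw (k i) (φ i - Real.pi / 4) (t / ε ^ 2)) by ring]
  abel

end Pool.Agent.Lib.MP_79abb3_an.W
end
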