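import Pool.Agent.Lib.MP_79abb3_an.W.DX2

/-!
Theorem W, block D, part X3: the lacunary family `cos (4^j θ) P_j + sin (4^j θ) Q_j`: smallness of the layers and size of
the streaming.
-/

set_option autoImplicit false
set_option linter.unusedSectionVars false

open MeasureTheory Set Filter Topology Function
open scoped ENNReal RealInnerProductSpace

namespace Pool.Agent.Lib.MP_79abb3_an.W

variable {d n : ℕ} {D B : Set (Ed d)} {z : Ed d → ℝ} {δ : ℝ}

/-- Frequencies, phases and fields, index set `Fin n × Bool`. -/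
def kk (i : Fin n × Bool) : ℕ := 4 ^ (i.1 : ℕ)
noncomputable def ph (i : Fin n × Bool) : ℝ := if i.2 then -(Real.pi / 2) else 0
def PQ (P Q : Fin n → Ed d → Ed d) (i : Fin n × Bool) : Ed d → Ed d := if i.2 then Q i.1 else P i.1

/-- `U_1(θ) = ∑ cos (4^j θ) P_j + sin (4^j θ) Q_j` -/
noncomputable def wv (P Q : Fin n → Ed d → Ed d) (θ : ℝ) (x : Ed d) : Ed d :=
  ∑ j : Fin n, (Real.cos (4 ^ (j : ℕ) * θ) • P j x + Real.sin (4 ^ (j : ℕ) * θ) • Q j x)

theorem fp1_eq (P Q : Fin n → Ed d → Ed d) (a : ℝ → ℝ) (ε t : ℝ) (x : Ed d) :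
    fp1 a kk ph (PQ P Q) ε t x = (ε⁻¹ * a t) • wv P Q (t / ε ^ 2) x := by
  unfold fp1 wv
  rw [Fintype.sum_prod_type, Finset.smul_sum]
  refine Finset.sum_congr rfl fun j _ => ?_
  rw [Fintype.sum_bool]
  have h1 : cw (kk (j, true)) (ph (j, true)) (t / ε ^ 2) = Real.sin (4 ^ (j : ℕ) * (t / ε ^ 2)) := by
    simp only [cw, kk, ph, if_true, Nat.cast_pow, Nat.cast_ofNat]
    rw [← sub_eq_add_neg, Real.cos_sub_pi_div_two]
  have h2 : cw (kk (j, false)) (ph (j, false)) (t / ε ^ 2) = Real.cos (4 ^ (j : ℕ) * (t / ε ^ 2)) := by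
    simp only [cw, kk, ph, Bool.false_eq_true, if_false, Nat.cast_pow, Nat.cast_ofNat, add_zero]
  simp only [btm, h1, h2, PQ, if_true, Bool.false_eq_true, if_false, smul_add, smul_smul]
  rw [add_comm]
  congr 1
  · congr 1
    ring
  · congr 1
    ring

private theorem dx3_sqrt (j : Fin n) (b : Bool) : √((kk (j, b) : ℕ) : ℝ) = 2 ^ (j : ℕ) := by
  have h1 : ((kk (j, b) : ℕ) : ℝ) = (2 ^ (j : ℕ)) ^ 2 := by
    simp only [kk, Nat.cast_pow, Nat.cast_ofNat]
    rw [← pow_mul, mul_comm, pow_mul]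
    norm_num
  rw [h1, Real.sqrt_sq (by positivity)]

/-- Combinations of two harmonic functions. -/
private theorem dx3_comb (hD : IsOpen D) (c s : ℝ) {p q : Ed d → ℝ} (hp : BD D p) (hq : BD D q)
    (lp : ∀ x ∈ D, lap p x = 0) (lq : ∀ x ∈ D, lap q x = 0) :
    (BD D (fun y => c * (p y + s * q y)) ∧ ∀ x ∈ D, lap (fun y => c * (p y + s * q y)) x = 0) ∧
      ∀ x ∈ D, gd (fun y => c * (p y + s * q y)) x = c • (gd p x + s • gd q x) := by
  have hsq : BD D fun y => s * q y := BD.const_smul hD s hq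
  have hs : BD D fun y => p y + s * q y := BD.add hD hp hsq
  have hb : BD D fun y => c * (p y + s * q y) := BD.const_smul hD c hs
  have hg : ∀ x ∈ D, gd (fun y => c * (p y + s * q y)) x = c • (gd p x + s • gd q x) := by
    intro x hx
    rw [gd_smul_at c (hs.diff hD hx), gd_add_at (hp.diff hD hx) (hsq.diff hD hx), gd_smul_at s (hq.diff hD hx)]
  refine ⟨⟨hb, fun x hx => ?_⟩, hg⟩
  have h1 : gd (fun y => c * (p y + s * q y)) =ᶠ[𝓝 x] fun y => c • (gd p y + s • gd q y) := by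
    filter_upwards [hD.mem_nhds hx] with y hy using hg y hy
  have dp : DifferentiableAt ℝ (gd p) x := (hp.gd hD).diff hD hx
  have dq : DifferentiableAt ℝ (gd q) x := (hq.gd hD).diff hD hx
  rw [← dv_gd_at ((hb.gd hD).diff hD hx), dv_congr h1,
    dv_const_smul_at c (v := fun y => gd p y + s • gd q y) (dp.add (dq.const_smul s)),
    dv_add_at (w := fun y => s • gd q y) dp (dq.const_smul s), dv_const_smul_at s dq, dv_gd_at dp, dv_gd_at dq,
    lp x hx, lq x hx]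
  ring

/-- The potentials of order `0`: `ψ_j = 2^{-j} (q_{j,0} - q_{j,1}) / √2`, `ψ'_j = 2^{-j} (q_{j,0} + q_{j,1}) / √2`. -/
theorem fp0_eq (hS : Stg D B z δ) (q : Fin n × Bool → Ed d → ℝ)
    (hq : ∀ i, BD D (q i) ∧ ∀ x ∈ D, lap (q i) x = 0) : ∃ ψ ψ' : Fin n → Ed d → ℝ,
    (∀ j, BD D (ψ j) ∧ ∀ x ∈ D, lap (ψ j) x = 0) ∧ (∀ j, BD D (ψ' j) ∧ ∀ x ∈ D, lap (ψ' j) x = 0) ∧
    ∀ (a : ℝ → ℝ) (ε t : ℝ), ∀ x ∈ D, fp0 a kk ph q ε t x =
      a t • wv (fun j => gd (ψ j)) (fun j => gd (ψ' j)) (t / ε ^ 2) x := by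
  have hD : IsOpen D := hS.dom.isOpen
  set c : Fin n → ℝ := fun j => (2 ^ (j : ℕ))⁻¹ * (√2 / 2) with hc
  have h1 : ∀ j : Fin n, _ := fun j =>
    dx3_comb hD (c j) (-1) (hq (j, false)).1 (hq (j, true)).1 (hq (j, false)).2 (hq (j, true)).2
  have h2 : ∀ j : Fin n, _ := fun j =>
    dx3_comb hD (c j) 1 (hq (j, false)).1 (hq (j, true)).1 (hq (j, false)).2 (hq (j, true)).2
  refine ⟨fun j y => c j * (q (j, false) y + -1 * q (j, true) y), fun j y => c j * (q (j, false) y + 1 * q (j, true) y),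
    fun j => (h1 j).1, fun j => (h2 j).1, fun a ε t x hx => ?_⟩
  unfold fp0 wv
  rw [Fintype.sum_prod_type, Finset.smul_sum]
  refine Finset.sum_congr rfl fun j _ => ?_
  rw [Fintype.sum_bool]
  simp only [(h1 j).2 x hx, (h2 j).2 x hx]
  set θ : ℝ := t / ε ^ 2 with hθ
  have e1 : Gh (kk (j, true)) (ph (j, true)) θ 0 =
      -(c j * (Real.sin (4 ^ (j : ℕ) * θ) - Real.cos (4 ^ (j : ℕ) * θ))) := by
    rw [Gh_zero, dx3_sqrt]
    simp only [cw, kk, ph, if_true, Nat.cast_pow, Nat.cast_ofNat]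
    have e3 : (4 : ℝ) ^ (j : ℕ) * θ + (-(Real.pi / 2) - Real.pi / 4) = 4 ^ (j : ℕ) * θ - Real.pi / 4 - Real.pi / 2 := by
      ring
    rw [e3, Real.cos_sub_pi_div_two, Real.sin_sub, Real.cos_pi_div_four, Real.sin_pi_div_four]
    simp only [hc]
    ring
  have e2 : Gh (kk (j, false)) (ph (j, false)) θ 0 =
      -(c j * (Real.cos (4 ^ (j : ℕ) * θ) + Real.sin (4 ^ (j : ℕ) * θ))) := by
    rw [Gh_zero, dx3_sqrt]
    simp only [cw, kk, ph, Bool.false_eq_true, if_false, Nat.cast_pow, Nat.cast_ofNat]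
    have e3 : (4 : ℝ) ^ (j : ℕ) * θ + (0 - Real.pi / 4) = 4 ^ (j : ℕ) * θ - Real.pi / 4 := by
      ring
    rw [e3, Real.cos_sub, Real.cos_pi_div_four, Real.sin_pi_div_four]
    simp only [hc]
    ring
  simp only [btm, ← hθ, e1, e2]
  module

end Pool.Agent.Lib.MP_79abb3_an.W
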