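import Mathlib
import Pool.Agent.Lib.MP_79abb3_an.W.DX3

section

/-!
Theorem W, block D, part B5: lacunary sums.
-/

set_option autoImplicit false
set_option linter.unusedSectionVars false

open MeasureTheory Set Filter Topology Function
open scoped ENNReal RealInnerProductSpace

namespace Pool.Agent.Lib.MP_79abb3_an.W

variable {k k' : ℕ} {φ φ' : ℝ}

/-- The summand is dominated by a telescoping difference. -/
private theorem lac_key {x : ℝ} (hx : 0 ≤ x) : (x + x ^ 2) * Real.exp (-(x / √2)) ≤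
    64 * (Real.exp (-(x / 4)) - Real.exp (-(2 * x / 4))) := by
  have hE := Real.exp_pos (-(x / 4))
  have h2 : Real.exp (-(2 * x / 4)) = Real.exp (-(x / 4)) * Real.exp (-(x / 4)) := by
    rw [← Real.exp_add]
    congr 1
    ring
  have h3 : Real.exp (-(x / √2)) ≤ Real.exp (-(2 * x / 4)) := by
    apply Real.exp_le_exp.2
    have h4 : √2 ≤ 2 := Real.sqrt_le_iff.2 ⟨by norm_num, by norm_num⟩
    have h5 : x / 2 ≤ x / √2 := div_le_div_of_nonneg_left hx (by positivity) h4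
    linarith
  have h6 : 64 + x + x ^ 2 ≤ 64 * Real.exp (x / 4) := by
    have e : Real.exp (x / 4) = Real.exp (x / 8) ^ 2 := by
      rw [← Real.exp_nat_mul]
      congr 1
      push_cast
      ring
    have h7 : x / 8 + 1 ≤ Real.exp (x / 8) := Real.add_one_le_exp _
    have h8 : (x / 8 + 1) ^ 2 ≤ Real.exp (x / 8) ^ 2 := pow_le_pow_left₀ (by positivity) h7 2
    rw [e]
    nlinarith
  have h9 : Real.exp (x / 4) * Real.exp (-(x / 4)) = 1 := by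
    rw [← Real.exp_add]
    simp
  have h10 : (64 + x + x ^ 2) * Real.exp (-(x / 4)) ≤ 64 := by
    have h11 := mul_le_mul_of_nonneg_right h6 hE.le
    rw [mul_assoc, h9] at h11
    linarith
  have h12 : 0 ≤ x + x ^ 2 := by positivity
  calc (x + x ^ 2) * Real.exp (-(x / √2)) ≤ (x + x ^ 2) * Real.exp (-(2 * x / 4)) :=
        mul_le_mul_of_nonneg_left h3 h12
    _ = ((x + x ^ 2) * Real.exp (-(x / 4))) * Real.exp (-(x / 4)) := by rw [h2]; ring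
    _ ≤ (64 - 64 * Real.exp (-(x / 4))) * Real.exp (-(x / 4)) :=
        mul_le_mul_of_nonneg_right (by linarith) hE.le
    _ = 64 * (Real.exp (-(x / 4)) - Real.exp (-(2 * x / 4))) := by rw [h2]; ring

/-- Lacunary sums: at each `y` only `O(1)` terms are active (`x e^{-x/√2}`, `x² e^{-x/√2} ≤ C min (x, 1/x)`, geometric
series on both sides). -/
theorem lacunary : ∃ C, 0 ≤ C ∧ ∀ (n : ℕ) (y : ℝ), 0 ≤ y →
    ∑ j ∈ Finset.range n, (2 ^ j * y + (2 ^ j * y) ^ 2) * Real.exp (-(2 ^ j * y / √2)) ≤ C := by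
  refine ⟨64, by norm_num, fun n y hy => ?_⟩
  have h1 : ∀ j ∈ Finset.range n, (2 ^ j * y + (2 ^ j * y) ^ 2) * Real.exp (-(2 ^ j * y / √2)) ≤
      64 * (Real.exp (-(2 ^ j * y / 4)) - Real.exp (-(2 ^ (j + 1) * y / 4))) := by
    intro j _
    have h2 := lac_key (x := 2 ^ j * y) (by positivity)
    have e : (2 : ℝ) ^ (j + 1) * y = 2 * (2 ^ j * y) := by ring
    rw [e]
    exact h2
  refine (Finset.sum_le_sum h1).trans ?_
  rw [← Finset.mul_sum, Finset.sum_range_sub' (fun j : ℕ => Real.exp (-(2 ^ j * y / 4))) n]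
  have h3 : Real.exp (-(2 ^ 0 * y / 4)) ≤ 1 := by
    apply Real.exp_le_one_iff.2
    simp only [pow_zero, one_mul]
    linarith
  have h4 := Real.exp_pos (-(2 ^ n * y / 4))
  linarith

end Pool.Agent.Lib.MP_79abb3_an.W
end

section

/-!
Theorem W, block D, part X3b: smallness of the layers.
-/

set_option autoImplicit false
set_option linter.unusedSectionVars false

open MeasureTheory Set Filter Topology Function
open scoped ENNReal RealInnerProductSpace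

namespace Pool.Agent.Lib.MP_79abb3_an.W

variable {d n : ℕ} {D B : Set (Ed d)} {z : Ed d → ℝ} {δ : ℝ}

/-- `u^n exp(-c u) ≤ n!/c^n` -/
private theorem dx_pow (n : ℕ) {c u : ℝ} (hc : 0 < c) (hu : 0 ≤ u) :
    u ^ n * Real.exp (-(c * u)) ≤ n.factorial / c ^ n := by
  have h1 := Real.pow_div_factorial_le_exp (c * u) (by positivity) n
  have h2 : (0 : ℝ) < n.factorial := by exact_mod_cast n.factorial_pos
  have h3 := Real.exp_pos (-(c * u))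
  rw [div_le_iff₀ h2] at h1
  have h4 : Real.exp (c * u) * Real.exp (-(c * u)) = 1 := by
    rw [← Real.exp_add]
    simp
  rw [le_div_iff₀ (by positivity)]
  calc u ^ n * Real.exp (-(c * u)) * c ^ n = (c * u) ^ n * Real.exp (-(c * u)) := by rw [mul_pow]; ring
    _ ≤ Real.exp (c * u) * n.factorial * Real.exp (-(c * u)) := mul_le_mul_of_nonneg_right h1 h3.le
    _ = (Real.exp (c * u) * Real.exp (-(c * u))) * n.factorial := by ring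
    _ = n.factorial := by rw [h4, one_mul]

/-- Powers of `z` times the exponential. -/
private theorem dx_z (n : ℕ) {c w ε : ℝ} (hc : 0 < c) (hw : 0 < w) (hε : 0 < ε) :
    w ^ n * Real.exp (-(c * (w / ε))) ≤ n.factorial / c ^ n * ε ^ n := by
  have h1 := dx_pow n hc (u := w / ε) (by positivity)
  have h2 : w ^ n = (w / ε) ^ n * ε ^ n := by
    rw [← mul_pow, div_mul_cancel₀ _ hε.ne']
  calc w ^ n * Real.exp (-(c * (w / ε))) = ((w / ε) ^ n * Real.exp (-(c * (w / ε)))) * ε ^ n := by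
        rw [h2]; ring
    _ ≤ n.factorial / c ^ n * ε ^ n := mul_le_mul_of_nonneg_right h1 (by positivity)

/-- The size of the slip. -/
private theorem dx_slip (h : Dom D z δ) (V : Ed d → Ed d) {x : Ed d} (hx : x ∈ D) :
    ‖slip z δ V x‖ ≤ ‖V x‖ ∧ ‖gd z x‖ * ‖slip z δ V x‖ ≤ ‖slip z δ V x‖ := by
  have hz : 0 < z x := h.zpos hx
  have hδ := h.δ0
  rcases le_or_gt (2 * δ) (z x) with h2 | h2
  · have h3 : slip z δ V x = 0 := by
      simp only [slip, ct, kap_zero hδ h2, zero_smul, neg_zero]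
    rw [h3, norm_zero, mul_zero]
    exact ⟨norm_nonneg _, le_rfl⟩
  · have h3 : ‖gd z x‖ = 1 := h.gd_norm (by rw [abs_of_pos hz]; linarith)
    refine ⟨?_, by rw [h3, one_mul]⟩
    have h4 : ‖V x - ⟪gd z x, V x⟫ • gd z x‖ ≤ ‖V x‖ := by
      have h5 : ‖V x - ⟪gd z x, V x⟫ • gd z x‖ ^ 2 ≤ ‖V x‖ ^ 2 := by
        rw [norm_sub_sq_real, norm_smul, h3, mul_one, real_inner_smul_right, real_inner_comm, Real.norm_eq_abs,
          sq_abs]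
        nlinarith [sq_nonneg ⟪gd z x, V x⟫]
      exact abs_le_of_sq_le_sq' h5 (norm_nonneg _) |>.2
    simp only [slip, ct, norm_neg, norm_smul, Real.norm_eq_abs, abs_of_nonneg (kap_nonneg δ (z x))]
    calc kap δ (z x) * ‖V x - ⟪gd z x, V x⟫ • gd z x‖ ≤ 1 * ‖V x‖ := by
          gcongr
          exact kap_le_one _ _
      _ = ‖V x‖ := one_mul _

/-- The gradient of an atom. -/
private theorem dx_grad (h : Dom D z δ) {c : ℝ → ℝ} {K : ℝ → ℝ → ℝ} {s : Set ℤ} (hK : K ∈ PR s) {v : Ed d → Ed d}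
    (hv : BD D v) {ε : ℝ} (hε : 0 < ε) (t : ℝ) {x : Ed d} (hx : x ∈ D) {A a b : ℝ} (hA : |c t| ≤ A)
    (ha : |pze K (t / ε ^ 2) (z x / ε)| ≤ a) (hb : |K (t / ε ^ 2) (z x / ε)| ≤ b) :
    ‖fderiv ℝ (atm z c K v ε t) x‖ ≤ A * (ε⁻¹ * a * (‖gd z x‖ * ‖v x‖) + b * ‖fderiv ℝ v x‖) := by
  have hA0 : 0 ≤ A := (abs_nonneg _).trans hA
  have ha0 : 0 ≤ a := (abs_nonneg _).trans ha
  have hb0 : 0 ≤ b := (abs_nonneg _).trans hb
  refine ContinuousLinearMap.opNorm_le_bound _ (by positivity) fun w => ?_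
  rw [atm_fderiv h hK hv hε t hx w]
  refine (norm_add_le _ _).trans ?_
  simp only [atm, norm_smul, norm_mul, Real.norm_eq_abs, abs_inv, abs_of_pos hε]
  have h1 : |⟪gd z x, w⟫| ≤ ‖gd z x‖ * ‖w‖ := abs_real_inner_le_norm _ _
  have h2 : ‖fderiv ℝ v x w‖ ≤ ‖fderiv ℝ v x‖ * ‖w‖ := ContinuousLinearMap.le_opNorm _ _
  calc ε⁻¹ * |⟪gd z x, w⟫| * (|c t| * |pze K (t / ε ^ 2) (z x / ε)| * ‖v x‖) +
        |c t| * |K (t / ε ^ 2) (z x / ε)| * ‖fderiv ℝ v x w‖ ≤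
        ε⁻¹ * (‖gd z x‖ * ‖w‖) * (A * a * ‖v x‖) + A * b * (‖fderiv ℝ v x‖ * ‖w‖) := by gcongr
    _ = A * (ε⁻¹ * a * (‖gd z x‖ * ‖v x‖) + b * ‖fderiv ℝ v x‖) * ‖w‖ := by ring

/-- The bounds of one layer. -/
private theorem dx_term (h : Dom D z δ) {V : Ed d → Ed d} (hV : BD D V) (j : ℕ) (φ : ℝ) {a : ℝ → ℝ} (ha : CB a)
    {A : ℝ} (hA : ∀ t, |a t| ≤ A) : ∃ M, 0 ≤ M ∧ ∀ ε ∈ Ioc (0 : ℝ) 1, ∀ t, ∀ x ∈ D,
    DifferentiableAt ℝ (fun y => ε⁻¹ • lay z a (Kh (4 ^ j) φ) (Gh (4 ^ j) φ) (slip z δ V) ε t y) x ∧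
    z x * ‖ε⁻¹ • lay z a (Kh (4 ^ j) φ) (Gh (4 ^ j) φ) (slip z δ V) ε t x‖ +
      z x ^ 2 * ‖fderiv ℝ (fun y => ε⁻¹ • lay z a (Kh (4 ^ j) φ) (Gh (4 ^ j) φ) (slip z δ V) ε t y) x‖ ≤
      2 * A * ‖slip z δ V x‖ * ((z x / ε + 2 ^ j * (z x / ε) ^ 2) * Real.exp (-(2 ^ j * (z x / ε) / √2))) +
        M * ε := by
  have hD : IsOpen D := h.isOpen
  have hk : 1 ≤ 4 ^ j := Nat.one_le_pow _ _ (by norm_num)
  have hA0 : 0 ≤ A := (abs_nonneg _).trans (hA 0)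
  have hσ : BD D (slip z δ V) := (slip_cf h hV).bd
  have hℓ : BD D (ell z (slip z δ V)) := ((slip_cf h hV).toCV.ell h).bd
  obtain ⟨M1, hM1, b1⟩ := hσ.bound_fderiv
  obtain ⟨M2, hM2, b2⟩ := hℓ.bound
  obtain ⟨M3, hM3, b3⟩ := hℓ.bound_fderiv
  obtain ⟨N, hN, bN⟩ := h.bd_n.bound
  have hKm := Kh_mem hk φ
  have hGm := Gh_mem hk φ
  refine ⟨A * (2 * M2 + 8 * M1 + 8 * (N * M2) + 8 * M3), by positivity, fun ε hε t x hx => ?_⟩
  have hε0 : 0 < ε := hε.1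
  have hε1 : ε ≤ 1 := hε.2
  have hz : 0 < z x := h.zpos hx
  have hsk : √(((4 ^ j : ℕ) : ℝ)) = 2 ^ j := by
    have h1 : (((4 ^ j : ℕ) : ℝ)) = (2 ^ j) ^ 2 := by
      rw [Nat.cast_pow, Nat.cast_ofNat, ← pow_mul, mul_comm, pow_mul]
      norm_num
    rw [h1, Real.sqrt_sq (by positivity)]
  have hsk2 : √(((4 ^ j : ℕ) : ℝ) / 2) = 2 ^ j / √2 := by
    rw [Real.sqrt_div (by positivity), hsk]
  set E : ℝ := Real.exp (-(2 ^ j * (z x / ε) / √2)) with hEdef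
  have hE0 : 0 < E := Real.exp_pos _
  have hEe : Real.exp (-(√(((4 ^ j : ℕ) : ℝ) / 2) * (z x / ε))) = E := by
    rw [hsk2, hEdef]
    congr 1
    ring
  have hE2 : E ≤ Real.exp (-((1 / 2 : ℝ) * (z x / ε))) := by
    apply Real.exp_le_exp.2
    have h4 : √2 ≤ 2 := Real.sqrt_le_iff.2 ⟨by norm_num, by norm_num⟩
    have h5 : (1 : ℝ) ≤ 2 ^ j := one_le_pow₀ (by norm_num)
    have h6 : 0 ≤ z x / ε := by positivity
    have h7 : (1 / 2 : ℝ) * (z x / ε) ≤ 2 ^ j * (z x / ε) / √2 := by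
      calc (1 / 2 : ℝ) * (z x / ε) = 1 * (z x / ε) / 2 := by ring
        _ ≤ 2 ^ j * (z x / ε) / 2 := by gcongr
        _ ≤ 2 ^ j * (z x / ε) / √2 := by
            apply div_le_div_of_nonneg_left (by positivity) (by positivity) h4
    linarith
  have kb : |Kh (4 ^ j) φ (t / ε ^ 2) (z x / ε)| ≤ E := by
    have := Kh_bound (4 ^ j) φ (t / ε ^ 2) (z x / ε)
    rwa [hEe] at this
  have kb' : |pze (Kh (4 ^ j) φ) (t / ε ^ 2) (z x / ε)| ≤ 2 * 2 ^ j * E := by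
    have := pze_Kh_bound (4 ^ j) φ (t / ε ^ 2) (z x / ε)
    rwa [hEe, hsk] at this
  have gb : |Gh (4 ^ j) φ (t / ε ^ 2) (z x / ε)| ≤ E := by
    have h1 := Kh_bound (4 ^ j) (φ - Real.pi / 4) (t / ε ^ 2) (z x / ε)
    rw [hEe] at h1
    simp only [Gh, abs_mul, abs_neg, abs_inv, hsk]
    rw [abs_of_pos (by positivity : (0 : ℝ) < 2 ^ j)]
    have h2 : ((2 : ℝ) ^ j)⁻¹ ≤ 1 := inv_le_one_of_one_le₀ (one_le_pow₀ (by norm_num))
    calc ((2 : ℝ) ^ j)⁻¹ * |Kh (4 ^ j) (φ - Real.pi / 4) (t / ε ^ 2) (z x / ε)| ≤ 1 * E := by gcongr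
      _ = E := one_mul _
  have gb' : |pze (Gh (4 ^ j) φ) (t / ε ^ 2) (z x / ε)| ≤ E := by
    rw [Gh_ze hk]
    exact kb
  -- the two atoms
  set u : Ed d → Ed d := atm z a (Kh (4 ^ j) φ) (slip z δ V) ε t with hu
  set w : Ed d → Ed d := atm z a (Gh (4 ^ j) φ) (ell z (slip z δ V)) ε t with hw
  have du : DifferentiableAt ℝ u x :=
    (((atm_ffs hD h.bdd h.smo ha.smo hKm hσ) ε hε).bd hD t).diff hD hx
  have dw : DifferentiableAt ℝ w x :=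
    (((atm_ffs hD h.bdd h.smo ha.smo hGm hℓ) ε hε).bd hD t).diff hD hx
  have eT : (fun y => ε⁻¹ • lay z a (Kh (4 ^ j) φ) (Gh (4 ^ j) φ) (slip z δ V) ε t y) =
      fun y => ε⁻¹ • (u y + ε • w y) := rfl
  have dT : DifferentiableAt ℝ (fun y => ε⁻¹ • (u y + ε • w y)) x := (du.add (dw.const_smul ε)).const_smul ε⁻¹
  refine ⟨by rw [eT]; exact dT, ?_⟩
  have fT : fderiv ℝ (fun y => ε⁻¹ • (u y + ε • w y)) x = ε⁻¹ • (fderiv ℝ u x + ε • fderiv ℝ w x) :=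
    ((du.hasFDerivAt.add (dw.hasFDerivAt.const_smul ε)).const_smul ε⁻¹).fderiv
  obtain ⟨-, hnσ⟩ := dx_slip h V hx
  have nu : ‖u x‖ ≤ A * E * ‖slip z δ V x‖ := by
    simp only [hu, atm, norm_smul, norm_mul, Real.norm_eq_abs]
    have := hA t
    gcongr
  have nw : ‖w x‖ ≤ A * E * M2 := by
    simp only [hw, atm, norm_smul, norm_mul, Real.norm_eq_abs]
    have h1 := hA t
    have h2 := b2 x hx
    gcongr
  have fu : ‖fderiv ℝ u x‖ ≤ A * (ε⁻¹ * (2 * 2 ^ j * E) * ‖slip z δ V x‖ + E * M1) := by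
    refine (dx_grad h hKm hσ hε0 t hx (hA t) kb' kb).trans ?_
    have h1 := b1 x hx
    gcongr
  have fw : ‖fderiv ℝ w x‖ ≤ A * (ε⁻¹ * E * (N * M2) + E * M3) := by
    refine (dx_grad h hGm hℓ hε0 t hx (hA t) gb' gb).trans ?_
    have h1 := b2 x hx
    have h2 := b3 x hx
    have h3 := bN x hx
    gcongr
  have nT : ‖ε⁻¹ • (u x + ε • w x)‖ ≤ ε⁻¹ * (A * E * ‖slip z δ V x‖ + ε * (A * E * M2)) := by
    rw [norm_smul, norm_inv, Real.norm_eq_abs, abs_of_pos hε0]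
    gcongr
    refine (norm_add_le _ _).trans ?_
    rw [norm_smul, Real.norm_eq_abs, abs_of_pos hε0]
    gcongr
  have gT : ‖ε⁻¹ • (fderiv ℝ u x + ε • fderiv ℝ w x)‖ ≤
      ε⁻¹ * (A * (ε⁻¹ * (2 * 2 ^ j * E) * ‖slip z δ V x‖ + E * M1) + ε * (A * (ε⁻¹ * E * (N * M2) + E * M3))) := by
    rw [norm_smul, norm_inv, Real.norm_eq_abs, abs_of_pos hε0]
    gcongr
    refine (norm_add_le _ _).trans ?_
    rw [norm_smul, Real.norm_eq_abs, abs_of_pos hε0]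
    gcongr
  have d1 : z x * E ≤ 2 * ε := by
    have h1 := dx_z 1 (c := 1 / 2) (by norm_num) hz hε0
    have e2 : ((1 : ℕ).factorial : ℝ) / (1 / 2) ^ 1 * ε ^ 1 = 2 * ε := by norm_num [Nat.factorial]
    rw [e2, pow_one] at h1
    exact (mul_le_mul_of_nonneg_left hE2 hz.le).trans h1
  have d2 : z x ^ 2 * E ≤ 8 * ε ^ 2 := by
    have h1 := dx_z 2 (c := 1 / 2) (by norm_num) hz hε0
    have e2 : ((2 : ℕ).factorial : ℝ) / (1 / 2) ^ 2 * ε ^ 2 = 8 * ε ^ 2 := by norm_num [Nat.factorial]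
    rw [e2] at h1
    exact (mul_le_mul_of_nonneg_left hE2 (by positivity)).trans h1
  have d3 : z x ^ 2 * (ε⁻¹ * E) ≤ 8 * ε := by
    calc z x ^ 2 * (ε⁻¹ * E) = ε⁻¹ * (z x ^ 2 * E) := by ring
      _ ≤ ε⁻¹ * (8 * ε ^ 2) := by gcongr
      _ = 8 * ε := by field_simp
  have d4 : z x ^ 2 * E ≤ 8 * ε := d2.trans (by nlinarith)
  show z x * ‖ε⁻¹ • (u x + ε • w x)‖ + z x ^ 2 * ‖fderiv ℝ (fun y => ε⁻¹ • (u y + ε • w y)) x‖ ≤ _
  rw [fT]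
  have hσ0 : 0 ≤ ‖slip z δ V x‖ := norm_nonneg _
  have hζ : z x * ε⁻¹ = z x / ε := by rw [div_eq_mul_inv]
  calc z x * ‖ε⁻¹ • (u x + ε • w x)‖ + z x ^ 2 * ‖ε⁻¹ • (fderiv ℝ u x + ε • fderiv ℝ w x)‖ ≤
        z x * (ε⁻¹ * (A * E * ‖slip z δ V x‖ + ε * (A * E * M2))) +
        z x ^ 2 * (ε⁻¹ * (A * (ε⁻¹ * (2 * 2 ^ j * E) * ‖slip z δ V x‖ + E * M1) +
          ε * (A * (ε⁻¹ * E * (N * M2) + E * M3)))) := by gcongr
    _ = A * ‖slip z δ V x‖ * (((z x * ε⁻¹) + 2 * (2 ^ j * (z x * ε⁻¹) ^ 2)) * E) +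
        A * ((ε⁻¹ * ε) * M2 * (z x * E) + M1 * (z x ^ 2 * (ε⁻¹ * E)) +
          (ε⁻¹ * ε) * (N * M2) * (z x ^ 2 * (ε⁻¹ * E)) + (ε⁻¹ * ε) * M3 * (z x ^ 2 * E)) := by ring
    _ ≤ A * ‖slip z δ V x‖ * ((2 * (z x * ε⁻¹) + 2 * (2 ^ j * (z x * ε⁻¹) ^ 2)) * E) +
        A * (1 * M2 * (2 * ε) + M1 * (8 * ε) + 1 * (N * M2) * (8 * ε) + 1 * M3 * (8 * ε)) := by
        rw [inv_mul_cancel₀ hε0.ne']
        have h9 : 0 ≤ z x * ε⁻¹ := by positivity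
        have h10 : z x * ε⁻¹ + 2 * (2 ^ j * (z x * ε⁻¹) ^ 2) ≤ 2 * (z x * ε⁻¹) + 2 * (2 ^ j * (z x * ε⁻¹) ^ 2) := by
          linarith
        have h11 : A * ‖slip z δ V x‖ * ((z x * ε⁻¹ + 2 * (2 ^ j * (z x * ε⁻¹) ^ 2)) * E) ≤
            A * ‖slip z δ V x‖ * ((2 * (z x * ε⁻¹) + 2 * (2 ^ j * (z x * ε⁻¹) ^ 2)) * E) :=
          mul_le_mul_of_nonneg_left (mul_le_mul_of_nonneg_right h10 hE0.le) (by positivity)
        refine add_le_add h11 ?_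
        gcongr
    _ = 2 * A * ‖slip z δ V x‖ * ((z x / ε + 2 ^ j * (z x / ε) ^ 2) * E) +
        A * (2 * M2 + 8 * M1 + 8 * (N * M2) + 8 * M3) * ε := by
        rw [hζ]
        ring

/-- **Smallness of the layers** (Reynolds number of the layers): lacunary frequencies. For `z < r₀` use `lacunary` with
`y = z/ε`, `|c_j| ≤ √κ`; for `z ≥ r₀` and for all terms with `ℓ(σ)` or `∇σ` there is a factor `ε`. -/
theorem fL1_small (hS : Stg D B z δ) : ∃ K₀, 0 ≤ K₀ ∧ ∀ (n : ℕ) (P Q : Fin n → Ed d → Ed d) (c : Fin n → ℝ)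
    (r₀ κ : ℝ), (∀ j, Wave D B z (P j)) → (∀ j, Wave D B z (Q j)) → 0 < r₀ → (∀ j, 0 ≤ c j) →
    ∑ j, c j ^ 2 ≤ κ → (∀ j : Fin n, ∀ x ∈ strip D z r₀, ‖P j x‖ ≤ 2 ^ (j : ℕ) * c j) →
    (∀ j : Fin n, ∀ x ∈ strip D z r₀, ‖Q j x‖ ≤ 2 ^ (j : ℕ) * c j) → ∀ (a : ℝ → ℝ) (A : ℝ), CB a → (∀ t, |a t| ≤ A) →
    ∃ C, ∀ ε ∈ Ioc (0 : ℝ) 1, ∀ t, ∀ x ∈ D,
      z x * ‖fL1 z δ a kk ph (PQ P Q) ε t x‖ + z x ^ 2 * ‖fderiv ℝ (fL1 z δ a kk ph (PQ P Q) ε t) x‖ ≤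
        K₀ * √κ * A + C * ε := by
  obtain ⟨L, hL0, hL⟩ := lacunary
  refine ⟨4 * L, by positivity, fun n P Q c r₀ κ hP hQ hr₀ hc hκ bP bQ a A ha hA => ?_⟩
  have h := hS.dom
  have hA0 : 0 ≤ A := (abs_nonneg _).trans (hA 0)
  have hκ0 : 0 ≤ κ := (Finset.sum_nonneg fun j _ => sq_nonneg (c j)).trans hκ
  have hck : ∀ j, c j ≤ √κ := fun j => Real.le_sqrt_of_sq_le
    ((Finset.single_le_sum (fun i _ => sq_nonneg (c i)) (Finset.mem_univ j)).trans hκ)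
  have hV : ∀ i : Fin n × Bool, BD D (PQ P Q i) := by
    rintro ⟨j, b⟩
    cases b
    · exact (hP j).bd
    · exact (hQ j).bd
  have bV : ∀ i : Fin n × Bool, ∀ x ∈ strip D z r₀, ‖PQ P Q i x‖ ≤ 2 ^ (i.1 : ℕ) * c i.1 := by
    rintro ⟨j, b⟩ x hx
    cases b
    · exact bP j x hx
    · exact bQ j x hx
  choose M hM0 hM using fun i : Fin n × Bool => dx_term h (hV i) (i.1 : ℕ) (ph i) ha hA
  choose S hS0 hSb using fun i : Fin n × Bool => (slip_cf h (hV i)).bd.bound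
  refine ⟨∑ i, (2 * A * S i * (2 ^ (i.1 : ℕ) * (56 / r₀)) + M i), fun ε hε t x hx => ?_⟩
  have hε0 : 0 < ε := hε.1
  have hz : 0 < z x := h.zpos hx
  set ζ : ℝ := z x / ε with hζ
  have hζ0 : 0 < ζ := by positivity
  -- the terms
  set T : Fin n × Bool → Ed d → Ed d := fun i y =>
    ε⁻¹ • lay z a (Kh (kk i) (ph i)) (Gh (kk i) (ph i)) (slip z δ (PQ P Q i)) ε t y with hT
  have eF : fL1 z δ a kk ph (PQ P Q) ε t = fun y => ∑ i, T i y := rfl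
  have dT : ∀ i, DifferentiableAt ℝ (T i) x := fun i => (hM i ε hε t x hx).1
  have bT : ∀ i, z x * ‖T i x‖ + z x ^ 2 * ‖fderiv ℝ (T i) x‖ ≤
      2 * A * ‖slip z δ (PQ P Q i) x‖ * ((ζ + 2 ^ (i.1 : ℕ) * ζ ^ 2) * Real.exp (-(2 ^ (i.1 : ℕ) * ζ / √2))) +
        M i * ε := fun i => (hM i ε hε t x hx).2
  have fF : fderiv ℝ (fun y => ∑ i, T i y) x = ∑ i, fderiv ℝ (T i) x :=
    fderiv_fun_sum fun i _ => dT i
  have s1 : z x * ‖fL1 z δ a kk ph (PQ P Q) ε t x‖ + z x ^ 2 * ‖fderiv ℝ (fL1 z δ a kk ph (PQ P Q) ε t) x‖ ≤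
      ∑ i, (z x * ‖T i x‖ + z x ^ 2 * ‖fderiv ℝ (T i) x‖) := by
    rw [eF, fF, Finset.sum_add_distrib, ← Finset.mul_sum, ← Finset.mul_sum]
    gcongr
    · exact norm_sum_le _ _
    · exact norm_sum_le _ _
  refine s1.trans ((Finset.sum_le_sum fun i _ => bT i).trans ?_)
  rw [Finset.sum_add_distrib]
  have hpos : ∀ j : ℕ, 0 ≤ (ζ + 2 ^ j * ζ ^ 2) * Real.exp (-(2 ^ j * ζ / √2)) := fun j => by positivity
  rcases lt_or_ge (z x) r₀ with hr | hr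
  · -- near the wall
    have m1 : ∀ i : Fin n × Bool, 2 * A * ‖slip z δ (PQ P Q i) x‖ *
        ((ζ + 2 ^ (i.1 : ℕ) * ζ ^ 2) * Real.exp (-(2 ^ (i.1 : ℕ) * ζ / √2))) ≤
        2 * A * √κ * ((2 ^ (i.1 : ℕ) * ζ + (2 ^ (i.1 : ℕ) * ζ) ^ 2) * Real.exp (-(2 ^ (i.1 : ℕ) * ζ / √2))) := by
      intro i
      have h1 : ‖slip z δ (PQ P Q i) x‖ ≤ 2 ^ (i.1 : ℕ) * √κ :=
        (dx_slip h _ hx).1.trans ((bV i x ⟨hx, hr⟩).trans (by gcongr; exact hck _))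
      calc 2 * A * ‖slip z δ (PQ P Q i) x‖ *
            ((ζ + 2 ^ (i.1 : ℕ) * ζ ^ 2) * Real.exp (-(2 ^ (i.1 : ℕ) * ζ / √2))) ≤
            2 * A * (2 ^ (i.1 : ℕ) * √κ) *
            ((ζ + 2 ^ (i.1 : ℕ) * ζ ^ 2) * Real.exp (-(2 ^ (i.1 : ℕ) * ζ / √2))) := by
            gcongr
        _ = 2 * A * √κ * ((2 ^ (i.1 : ℕ) * ζ + (2 ^ (i.1 : ℕ) * ζ) ^ 2) *
            Real.exp (-(2 ^ (i.1 : ℕ) * ζ / √2))) := by ring
    have m2 : ∑ i : Fin n × Bool, 2 * A * √κ *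
        ((2 ^ (i.1 : ℕ) * ζ + (2 ^ (i.1 : ℕ) * ζ) ^ 2) * Real.exp (-(2 ^ (i.1 : ℕ) * ζ / √2))) ≤
        4 * L * √κ * A := by
      rw [← Finset.mul_sum, Fintype.sum_prod_type]
      simp only [Fintype.sum_bool]
      rw [Finset.sum_add_distrib,
        Fin.sum_univ_eq_sum_range (fun j : ℕ => (2 ^ j * ζ + (2 ^ j * ζ) ^ 2) * Real.exp (-(2 ^ j * ζ / √2))) n]
      have h2 := hL n ζ hζ0.le
      have h3 : 0 ≤ 2 * A * √κ := by positivity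
      nlinarith
    have m3 : ∑ i, M i * ε ≤ (∑ i, (2 * A * S i * (2 ^ (i.1 : ℕ) * (56 / r₀)) + M i)) * ε := by
      rw [Finset.sum_mul]
      refine Finset.sum_le_sum fun i _ => ?_
      have h4 := hS0 i
      have h5 : 0 ≤ 2 * A * S i * (2 ^ (i.1 : ℕ) * (56 / r₀)) := by positivity
      gcongr
      linarith
    exact add_le_add ((Finset.sum_le_sum fun i _ => m1 i).trans m2) m3
  · -- away from the wall
    have m1 : ∀ i : Fin n × Bool, 2 * A * ‖slip z δ (PQ P Q i) x‖ *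
        ((ζ + 2 ^ (i.1 : ℕ) * ζ ^ 2) * Real.exp (-(2 ^ (i.1 : ℕ) * ζ / √2))) ≤
        2 * A * S i * (2 ^ (i.1 : ℕ) * (56 / r₀)) * ε := by
      intro i
      have h1 := hSb i x hx
      have h0 := hS0 i
      have h2 : (1 : ℝ) ≤ 2 ^ (i.1 : ℕ) := one_le_pow₀ (by norm_num)
      have h3 : (ζ + ζ ^ 2) * Real.exp (-(2 ^ (i.1 : ℕ) * ζ / √2)) ≤ 56 / r₀ * ε := by
        have hE2 : Real.exp (-(2 ^ (i.1 : ℕ) * ζ / √2)) ≤ Real.exp (-((1 / 2 : ℝ) * ζ)) := by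
          apply Real.exp_le_exp.2
          have h4 : √2 ≤ 2 := Real.sqrt_le_iff.2 ⟨by norm_num, by norm_num⟩
          have h7 : (1 / 2 : ℝ) * ζ ≤ 2 ^ (i.1 : ℕ) * ζ / √2 := by
            calc (1 / 2 : ℝ) * ζ = 1 * ζ / 2 := by ring
              _ ≤ 2 ^ (i.1 : ℕ) * ζ / 2 := by gcongr
              _ ≤ 2 ^ (i.1 : ℕ) * ζ / √2 := by
                  apply div_le_div_of_nonneg_left (by positivity) (by positivity) h4
          linarith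
        have p2 := dx_pow 2 (c := 1 / 2) (by norm_num) hζ0.le
        have p3 := dx_pow 3 (c := 1 / 2) (by norm_num) hζ0.le
        have e2 : ((2 : ℕ).factorial : ℝ) / (1 / 2) ^ 2 = 8 := by norm_num [Nat.factorial]
        have e3 : ((3 : ℕ).factorial : ℝ) / (1 / 2) ^ 3 = 48 := by norm_num [Nat.factorial]
        rw [e2] at p2
        rw [e3] at p3
        have h5 : (ζ + ζ ^ 2) * Real.exp (-((1 / 2 : ℝ) * ζ)) ≤ 56 / ζ := by
          rw [le_div_iff₀ hζ0]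
          nlinarith
        have h6 : 56 / ζ = 56 / z x * ε := by
          rw [hζ]
          field_simp
        calc (ζ + ζ ^ 2) * Real.exp (-(2 ^ (i.1 : ℕ) * ζ / √2)) ≤ (ζ + ζ ^ 2) * Real.exp (-((1 / 2 : ℝ) * ζ)) := by
              gcongr
          _ ≤ 56 / ζ := h5
          _ = 56 / z x * ε := h6
          _ ≤ 56 / r₀ * ε := by gcongr
      calc 2 * A * ‖slip z δ (PQ P Q i) x‖ *
            ((ζ + 2 ^ (i.1 : ℕ) * ζ ^ 2) * Real.exp (-(2 ^ (i.1 : ℕ) * ζ / √2))) ≤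
            2 * A * S i * ((2 ^ (i.1 : ℕ) * ζ + 2 ^ (i.1 : ℕ) * ζ ^ 2) *
              Real.exp (-(2 ^ (i.1 : ℕ) * ζ / √2))) := by
            have h8 : ζ ≤ 2 ^ (i.1 : ℕ) * ζ := le_mul_of_one_le_left hζ0.le h2
            gcongr
        _ = 2 * A * S i * (2 ^ (i.1 : ℕ) * ((ζ + ζ ^ 2) * Real.exp (-(2 ^ (i.1 : ℕ) * ζ / √2)))) := by ring
        _ ≤ 2 * A * S i * (2 ^ (i.1 : ℕ) * (56 / r₀ * ε)) := by gcongr
        _ = 2 * A * S i * (2 ^ (i.1 : ℕ) * (56 / r₀)) * ε := by ring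
    have m4 : 0 ≤ 4 * L * √κ * A := by positivity
    calc ∑ i : Fin n × Bool, 2 * A * ‖slip z δ (PQ P Q i) x‖ *
          ((ζ + 2 ^ (i.1 : ℕ) * ζ ^ 2) * Real.exp (-(2 ^ (i.1 : ℕ) * ζ / √2))) + ∑ i, M i * ε ≤
          ∑ i : Fin n × Bool, 2 * A * S i * (2 ^ (i.1 : ℕ) * (56 / r₀)) * ε + ∑ i, M i * ε :=
          add_le_add (Finset.sum_le_sum fun i _ => m1 i) le_rfl
      _ = (∑ i : Fin n × Bool, (2 * A * S i * (2 ^ (i.1 : ℕ) * (56 / r₀)) + M i)) * ε := by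
          rw [Finset.sum_mul, ← Finset.sum_add_distrib]
          refine Finset.sum_congr rfl fun i _ => ?_
          ring
      _ ≤ 4 * L * √κ * A + (∑ i : Fin n × Bool, (2 * A * S i * (2 ^ (i.1 : ℕ) * (56 / r₀)) + M i)) * ε := by
          linarith

/-- Layers of order `0` and bulk fields of order `1` are small. -/
theorem lay0_small (hS : Stg D B z δ) {X : Fam d (Ed d)} (hX : IsLay D z 0 X) :
    ∃ C, ∀ ε ∈ Ioc (0 : ℝ) 1, ∀ t, ∀ x ∈ D, z x * ‖X ε t x‖ + z x ^ 2 * ‖fderiv ℝ (X ε t) x‖ ≤ C * ε := by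
  obtain ⟨C, c, hc, hb⟩ := hX.bd
  obtain ⟨N, hN0, hN⟩ := hS.dom.bd_n.bound
  refine ⟨|C| * (1 / c + (N + 1) * (2 / c ^ 2)), fun ε hε t x hx => ?_⟩
  obtain ⟨b1, -, b3⟩ := hb ε hε t x hx
  have hε0 : 0 < ε := hε.1
  have hε1 : ε ≤ 1 := hε.2
  have hz : 0 < z x := hS.dom.zpos hx
  have hE := Real.exp_pos (-(c * (z x / ε)))
  have hC : C ≤ |C| := le_abs_self C
  rw [zpow_zero, mul_one] at b1
  have c1 : ‖X ε t x‖ ≤ |C| * Real.exp (-(c * (z x / ε))) := b1.trans (by gcongr)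
  have c2 : ‖fderiv ℝ (X ε t) x‖ ≤ |C| * Real.exp (-(c * (z x / ε))) * (ε⁻¹ * N + 1) := by
    refine ContinuousLinearMap.opNorm_le_bound _ (by positivity) fun v => ?_
    refine (b3 v).trans ?_
    have h1 : |⟪gd z x, v⟫| ≤ N * ‖v‖ :=
      (abs_real_inner_le_norm _ _).trans (mul_le_mul_of_nonneg_right (hN x hx) (norm_nonneg _))
    have e1 : ε ^ ((0 : ℤ) - 1) = ε⁻¹ := by
      rw [zero_sub, zpow_neg_one]
    rw [e1, zpow_zero, one_mul]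
    calc C * Real.exp (-(c * (z x / ε))) * (ε⁻¹ * |⟪gd z x, v⟫| + ‖v‖) ≤
          |C| * Real.exp (-(c * (z x / ε))) * (ε⁻¹ * (N * ‖v‖) + ‖v‖) := by gcongr
      _ = |C| * Real.exp (-(c * (z x / ε))) * (ε⁻¹ * N + 1) * ‖v‖ := by ring
  have d1 := dx_z 1 hc hz hε0
  have d2 := dx_z 2 hc hz hε0
  simp only [pow_one, Nat.factorial, Nat.cast_one, mul_one, Nat.succ_eq_add_one, zero_add] at d1
  have e2 : ((2 : ℕ).factorial : ℝ) = 2 := by norm_num [Nat.factorial]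
  rw [e2] at d2
  calc z x * ‖X ε t x‖ + z x ^ 2 * ‖fderiv ℝ (X ε t) x‖ ≤
        z x * (|C| * Real.exp (-(c * (z x / ε)))) +
          z x ^ 2 * (|C| * Real.exp (-(c * (z x / ε))) * (ε⁻¹ * N + 1)) := by gcongr
    _ = |C| * (z x * Real.exp (-(c * (z x / ε)))) +
          |C| * (ε⁻¹ * N + 1) * (z x ^ 2 * Real.exp (-(c * (z x / ε)))) := by ring
    _ ≤ |C| * (1 / c * ε) + |C| * (ε⁻¹ * N + 1) * (2 / c ^ 2 * ε ^ 2) := by gcongr
    _ = |C| * (1 / c * ε) + |C| * (N * (ε⁻¹ * ε) * ε + ε * ε) * (2 / c ^ 2) := by ring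
    _ ≤ |C| * (1 / c * ε) + |C| * (N * (ε⁻¹ * ε) * ε + 1 * ε) * (2 / c ^ 2) := by gcongr
    _ = |C| * (1 / c + (N + 1) * (2 / c ^ 2)) * ε := by
        rw [inv_mul_cancel₀ hε0.ne']
        ring

theorem bk1_small (hS : Stg D B z δ) {X : Fam d (Ed d)} (hX : Bkf D 1 X) :
    ∃ C, ∀ ε ∈ Ioc (0 : ℝ) 1, ∀ t, ∀ x ∈ D, z x * ‖X ε t x‖ + z x ^ 2 * ‖fderiv ℝ (X ε t) x‖ ≤ C * ε := by
  obtain ⟨-, C, hb⟩ := hX
  obtain ⟨Z, hZ0, hZ⟩ := hS.dom.bd_z.bound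
  refine ⟨(Z + Z ^ 2) * |C|, fun ε hε t x hx => ?_⟩
  obtain ⟨b1, b2⟩ := hb ε hε t x hx
  have hε0 : 0 < ε := hε.1
  have hz : 0 < z x := hS.dom.zpos hx
  have hzZ : z x ≤ Z := (Real.le_norm_self _).trans (hZ x hx)
  have hC : C ≤ |C| := le_abs_self C
  rw [zpow_one] at b1 b2
  have c1 : ‖X ε t x‖ ≤ |C| * ε := b1.trans (by gcongr)
  have c2 : ‖fderiv ℝ (X ε t) x‖ ≤ |C| * ε := b2.trans (by gcongr)
  calc z x * ‖X ε t x‖ + z x ^ 2 * ‖fderiv ℝ (X ε t) x‖ ≤ Z * (|C| * ε) + Z ^ 2 * (|C| * ε) := by gcongr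
    _ = (Z + Z ^ 2) * |C| * ε := by ring

end Pool.Agent.Lib.MP_79abb3_an.W
end
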