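import Pool.Agent.Lib.MP_79abb3_an.W.DB2b
import Pool.Agent.Lib.MP_79abb3_an.W.DB3b
import Pool.Agent.Lib.MP_79abb3_an.W.DW1
import Pool.Agent.Lib.MP_79abb3_an.W.DC1b
import Pool.Agent.Lib.MP_79abb3_an.W.DA2
import Pool.Agent.Lib.MP_79abb3_an.W.DC2b
import Pool.Agent.Lib.MP_79abb3_an.W.DC3
import Pool.Agent.Lib.MP_79abb3_an.W.DN1
import Pool.Agent.Lib.MP_79abb3_an.W.DT1
import Pool.Agent.Lib.MP_79abb3_an.W.DX2
import Pool.Agent.Lib.MP_79abb3_an.W.DX3

section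

/-!
Theorem W, block D, part B4: forced profiles of the quadratic terms.
-/

set_option autoImplicit false
set_option linter.unusedSectionVars false

open MeasureTheory Set Filter Topology Function
open scoped ENNReal RealInnerProductSpace

namespace Pool.Agent.Lib.MP_79abb3_an.W

/-- The common proof of `FD_A`, `FD_B`, `FD_C`. -/
theorem FD_gen (f : ℕ → ℝ → ℕ → ℝ → ℝ → ℝ → ℝ)
    (h1 : ∀ φ φ', f 1 φ 1 φ' ∈ PR univ)
    (h0 : ∀ (k k' : ℕ) (φ φ' : ℝ), 1 ≤ k → 1 ≤ k' → k ≠ k' → f k φ k' φ' ∈ PR {0}ᶜ)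
    (hs : ∀ (k : ℕ) (φ φ' θ ζ : ℝ), 1 ≤ k → f k φ k φ' θ ζ = f 1 φ 1 φ' (k * θ) (√k * ζ)) :
    ∃ m M : ℝ → ℝ → ℝ, ∀ (k k' : ℕ) (φ φ' : ℝ), 1 ≤ k → 1 ≤ k' → ∃ K G τ,
    IsFD (f k φ k' φ') (if k = k' then m φ φ' / k else 0) (if k = k' then M φ φ' / (k * √k) else 0) K G τ := by
  choose m M K G τ hF using fun φ φ' => FD_exists (h1 φ φ')
  refine ⟨m, M, fun k k' φ φ' hk hk' => ?_⟩
  by_cases h : k = k'
  · subst h
    have h2 := (hF φ φ').scale k hk
    have h3 : (fun θ ζ => f 1 φ 1 φ' (k * θ) (√k * ζ)) = f k φ k φ' := by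
      funext θ ζ
      exact (hs k φ φ' θ ζ hk).symm
    rw [h3] at h2
    rw [if_pos rfl, if_pos rfl]
    exact ⟨_, _, _, h2⟩
  · rw [if_neg h, if_neg h]
    exact FD_zero (h0 k k' φ φ' hk hk' h)

/-- `FD_zero` for different frequencies, `FD_exists` for `k = k' = 1` and `IsFD.scale` for equal frequencies. -/
theorem FD_A : ∃ m M : ℝ → ℝ → ℝ, ∀ (k k' : ℕ) (φ φ' : ℝ), 1 ≤ k → 1 ≤ k' → ∃ K G τ,
    IsFD (fA k φ k' φ') (if k = k' then m φ φ' / k else 0) (if k = k' then M φ φ' / (k * √k) else 0) K G τ :=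
  FD_gen fA (fun _ _ => fA_mem le_rfl le_rfl) (fun _ _ _ _ hk hk' h => fA_mem0 hk hk' h)
    fun _ _ _ θ ζ hk => fA_scale hk θ ζ

theorem FD_B : ∃ m M : ℝ → ℝ → ℝ, ∀ (k k' : ℕ) (φ φ' : ℝ), 1 ≤ k → 1 ≤ k' → ∃ K G τ,
    IsFD (fB k φ k' φ') (if k = k' then m φ φ' / k else 0) (if k = k' then M φ φ' / (k * √k) else 0) K G τ :=
  FD_gen fB (fun _ _ => fB_mem le_rfl le_rfl) (fun _ _ _ _ hk hk' h => fB_mem0 hk hk' h)
    fun _ _ _ θ ζ hk => fB_scale hk θ ζ

theorem FD_C : ∃ m M : ℝ → ℝ → ℝ, ∀ (k k' : ℕ) (φ φ' : ℝ), 1 ≤ k → 1 ≤ k' → ∃ K G τ,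
    IsFD (fC k φ k' φ') (if k = k' then m φ φ' / k else 0) (if k = k' then M φ φ' / (k * √k) else 0) K G τ :=
  FD_gen fC (fun _ _ => fC_mem le_rfl le_rfl) (fun _ _ _ _ hk hk' h => fC_mem0 hk hk' h)
    fun _ _ _ θ ζ hk => fC_scale hk θ ζ

/-- The linear term. -/
theorem FD_L {k : ℕ} (hk : 1 ≤ k) (φ : ℝ) : ∃ K G τ, IsFD (fun θ ζ => -pze (Kh k φ) θ ζ) 0 0 K G τ := by
  have h1 : pze (Kh k φ) ∈ PR {0}ᶜ := by
    refine PR.mono ?_ (PR.pze (Kh_mem hk φ))
    intro j hj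
    rcases hj with rfl | hj
    · intro h
      have h2 : (k : ℤ) = 0 := h
      omega
    · intro h
      have h2 : j = 0 := h
      have h3 : j = -(k : ℤ) := hj
      omega
  have h2 : (fun θ ζ => -pze (Kh k φ) θ ζ) ∈ PR {0}ᶜ := by
    have h3 := (PR {0}ᶜ).neg_mem h1
    exact h3
  exact FD_zero h2

end Pool.Agent.Lib.MP_79abb3_an.W
end

section

/-!
Theorem W, block D, part W1b: differences and the limit.
-/

set_option autoImplicit false
set_option linter.unusedSectionVars false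

open MeasureTheory Set Filter Topology Function
open scoped ENNReal RealInnerProductSpace

namespace Pool.Agent.Lib.MP_79abb3_an.W

variable {d : ℕ} {D : Set (Ed d)} {z : Ed d → ℝ} {δ : ℝ} {G : Type} [NormedAddCommGroup G] [NormedSpace ℝ G]

/-! The functions `x ↦ B x (f (pr z r x))`, `B` with compact support in the collar. -/

section Gen

variable {W : Type} [NormedAddCommGroup W] [NormedSpace ℝ W]

/-- coefficients with compact support in the collar -/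
private structure dwC (z : Ed d → ℝ) (δ : ℝ) (B : Ed d → W) : Prop where
  smo : Smo B
  cpt : HasCompactSupport B
  supp : ∀ x ∈ tsupport B, |z x| < 4 * δ

private theorem dwC.bd {B : Ed d → W} (hB : dwC z δ B) : ∃ C, 0 ≤ C ∧ ∀ x, ‖B x‖ ≤ C := by
  obtain ⟨C, hC⟩ := hB.cpt.exists_bound_of_continuous hB.smo.continuous
  exact ⟨C, (norm_nonneg _).trans (hC 0), hC⟩

private theorem dw_iadd {f g : Ed d → W} {i : ℕ} {x : Ed d} (hf : Smo f) (hg : Smo g) :
    iteratedFDeriv ℝ i (fun x => f x + g x) x = iteratedFDeriv ℝ i f x + iteratedFDeriv ℝ i g x := by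
  have hle : ((i : ℕ) : WithTop ℕ∞) ≤ ((⊤ : ℕ∞) : WithTop ℕ∞) := by exact_mod_cast le_top
  exact iteratedFDeriv_add_apply (ContDiff.of_le hf hle).contDiffAt (ContDiff.of_le hg hle).contDiffAt

private theorem dw_isub {f g : Ed d → W} {i : ℕ} {x : Ed d} (hf : Smo f) (hg : Smo g) :
    iteratedFDeriv ℝ i (fun x => f x - g x) x = iteratedFDeriv ℝ i f x - iteratedFDeriv ℝ i g x := by
  have hle : ((i : ℕ) : WithTop ℕ∞) ≤ ((⊤ : ℕ∞) : WithTop ℕ∞) := by exact_mod_cast le_top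
  exact iteratedFDeriv_sub_apply (ContDiff.of_le hf hle).contDiffAt (ContDiff.of_le hg hle).contDiffAt

private theorem dw_ismul {f : Ed d → W} {i : ℕ} {x : Ed d} (c : ℝ) (hf : Smo f) :
    iteratedFDeriv ℝ i (fun x => c • f x) x = c • iteratedFDeriv ℝ i f x := by
  have hle : ((i : ℕ) : WithTop ℕ∞) ≤ ((⊤ : ℕ∞) : WithTop ℕ∞) := by exact_mod_cast le_top
  exact iteratedFDeriv_const_smul_apply (ContDiff.of_le hf hle).contDiffAt

private theorem dw_csmul {f : Ed d → W} (c : ℝ) (hf : Smo f) : Smo fun x => c • f x :=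
  contDiff_const.smul hf

private theorem dw_pr_fderiv (h : Dom D z δ) (r : ℝ) (x : Ed d) :
    HasFDerivAt (pr z r) (fderiv ℝ (pr z 0) x + r • fderiv ℝ (gd z) x) x := by
  have h1 : pr z r = fun x => pr z 0 x + r • gd z x := by
    funext x
    unfold pr
    rw [sub_zero, sub_smul]
    abel
  rw [h1]
  exact (((pr_smo h 0).differentiable x).hasFDerivAt).add (((h.gd_smo).differentiable x).hasFDerivAt.const_smul r)

private theorem dw_smo (h : Dom D z δ) {B : Ed d → G →L[ℝ] W} (hB : dwC z δ B) {f : Ed d → G} (hf : BD D f)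
    {r : ℝ} (h0 : 0 < r) (hr : r ≤ δ) : Smo fun x => B x (f (pr z r x)) := by
  refine contDiff_iff_contDiffAt.2 fun x => ?_
  by_cases hx : x ∈ tsupport B
  · have hz := hB.supp x hx
    have hD : pr z r x ∈ D := pr_mem h h0 (by linarith [h.δ0]) hz
    have h1 : ContDiffAt ℝ ((⊤ : ℕ∞) : WithTop ℕ∞) f (pr z r x) := hf.1.contDiffAt (h.isOpen.mem_nhds hD)
    have h2 : ContDiffAt ℝ ((⊤ : ℕ∞) : WithTop ℕ∞) (fun x => f (pr z r x)) x :=
      h1.comp x (ContDiff.contDiffAt (pr_smo h r))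
    exact (ContDiff.contDiffAt hB.smo).clm_apply h2
  · have h1 : (fun x => B x (f (pr z r x))) =ᶠ[𝓝 x] fun _ => 0 := by
      filter_upwards [notMem_tsupport_iff_eventuallyEq.1 hx] with y hy
      rw [hy]
      rfl
    exact contDiffAt_const.congr_of_eventuallyEq h1

/-- the three coefficients of the derivative -/
private noncomputable def dwB1 (B : Ed d → G →L[ℝ] W) (x : Ed d) : G →L[ℝ] (Ed d →L[ℝ] W) := (fderiv ℝ B x).flip

private noncomputable def dwBT (B : Ed d → G →L[ℝ] W) (T : Ed d → (Ed d →L[ℝ] Ed d)) (x : Ed d) :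
    (Ed d →L[ℝ] G) →L[ℝ] (Ed d →L[ℝ] W) :=
  ((ContinuousLinearMap.compL ℝ (Ed d) (Ed d) W).flip (T x)).comp (ContinuousLinearMap.compL ℝ (Ed d) G W (B x))

private theorem dwBT_apply (B : Ed d → G →L[ℝ] W) (T : Ed d → (Ed d →L[ℝ] Ed d)) (x : Ed d) (M : Ed d →L[ℝ] G) (v : Ed d) :
    dwBT B T x M v = B x (M (T x v)) := rfl

private theorem dwB1_apply (B : Ed d → G →L[ℝ] W) (x : Ed d) (w : G) (v : Ed d) :
    dwB1 B x w v = fderiv ℝ B x v w := rfl

private theorem dwC_B1 {B : Ed d → G →L[ℝ] W} (hB : dwC z δ B) : dwC z δ (dwB1 B) := by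
  have hs : support (dwB1 B) ⊆ tsupport B := by
    intro x hx
    by_contra h1
    have h2 : fderiv ℝ B x = 0 := by
      by_contra h3
      exact h1 (support_fderiv_subset ℝ h3)
    apply hx
    show (fderiv ℝ B x).flip = 0
    rw [h2]
    rfl
  have hs' : tsupport (dwB1 B) ⊆ tsupport B := closure_minimal hs (isClosed_tsupport B)
  refine ⟨?_, HasCompactSupport.of_support_subset_isCompact hB.cpt hs, fun x hx => hB.supp x (hs' hx)⟩
  have h1 : ContDiff ℝ ((⊤ : ℕ∞) : WithTop ℕ∞) (fderiv ℝ B) :=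
    ContDiff.fderiv_right hB.smo (by exact_mod_cast le_top)
  have h2 : ContDiff ℝ ((⊤ : ℕ∞) : WithTop ℕ∞) fun x =>
      ((ContinuousLinearMap.flipₗᵢ ℝ (Ed d) G W).toContinuousLinearEquiv : (Ed d →L[ℝ] G →L[ℝ] W) →L[ℝ]
        (G →L[ℝ] Ed d →L[ℝ] W)) (fderiv ℝ B x) := contDiff_const.clm_apply h1
  exact h2

private theorem dwC_BT {B : Ed d → G →L[ℝ] W} (hB : dwC z δ B) {T : Ed d → (Ed d →L[ℝ] Ed d)} (hT : Smo T) :
    dwC z δ (dwBT B T) := by
  have hs : support (dwBT B T) ⊆ tsupport B := by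
    intro x hx
    by_contra h1
    have h2 : B x = 0 := image_eq_zero_of_notMem_tsupport h1
    apply hx
    ext M v
    rw [dwBT_apply, h2]
    rfl
  have hs' : tsupport (dwBT B T) ⊆ tsupport B := closure_minimal hs (isClosed_tsupport B)
  refine ⟨?_, HasCompactSupport.of_support_subset_isCompact hB.cpt hs, fun x hx => hB.supp x (hs' hx)⟩
  have h1 : ContDiff ℝ ((⊤ : ℕ∞) : WithTop ℕ∞) fun x => (ContinuousLinearMap.compL ℝ (Ed d) (Ed d) W).flip (T x) :=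
    contDiff_const.clm_apply hT
  have h2 : ContDiff ℝ ((⊤ : ℕ∞) : WithTop ℕ∞) fun x => ContinuousLinearMap.compL ℝ (Ed d) G W (B x) :=
    contDiff_const.clm_apply hB.smo
  exact h1.clm_comp h2

private theorem dw_fderiv (h : Dom D z δ) {B : Ed d → G →L[ℝ] W} (hB : dwC z δ B) {f : Ed d → G} (hf : BD D f)
    {r : ℝ} (h0 : 0 < r) (hr : r ≤ δ) :
    fderiv ℝ (fun x => B x (f (pr z r x))) = fun x => dwB1 B x (f (pr z r x)) +
      (dwBT B (fderiv ℝ (pr z 0)) x (fderiv ℝ f (pr z r x)) +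
        r • dwBT B (fderiv ℝ (gd z)) x (fderiv ℝ f (pr z r x))) := by
  funext x
  by_cases hx : x ∈ tsupport B
  · have hz := hB.supp x hx
    have hD : pr z r x ∈ D := pr_mem h h0 (by linarith [h.δ0]) hz
    have h1 : ContDiffAt ℝ ((⊤ : ℕ∞) : WithTop ℕ∞) f (pr z r x) := hf.1.contDiffAt (h.isOpen.mem_nhds hD)
    have h2 : HasFDerivAt f (fderiv ℝ f (pr z r x)) (pr z r x) := (h1.differentiableAt (by norm_num)).hasFDerivAt
    have h3 := h2.comp x (dw_pr_fderiv h r x)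
    have h4 : HasFDerivAt B (fderiv ℝ B x) x := (hB.smo.differentiable x).hasFDerivAt
    have h5 := h4.clm_apply h3
    have h6 : fderiv ℝ (fun x => B x (f (pr z r x))) x = _ := h5.fderiv
    rw [h6]
    ext v
    show B x (fderiv ℝ f (pr z r x) (fderiv ℝ (pr z 0) x v + r • fderiv ℝ (gd z) x v)) +
      fderiv ℝ B x v (f (pr z r x)) = fderiv ℝ B x v (f (pr z r x)) +
        (B x (fderiv ℝ f (pr z r x) (fderiv ℝ (pr z 0) x v)) +
          r • B x (fderiv ℝ f (pr z r x) (fderiv ℝ (gd z) x v)))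
    rw [map_add, map_add, map_smul, map_smul]
    abel
  · have h1 : (fun x => B x (f (pr z r x))) =ᶠ[𝓝 x] fun _ => 0 := by
      filter_upwards [notMem_tsupport_iff_eventuallyEq.1 hx] with y hy
      rw [hy]
      rfl
    have h2 : B x = 0 := image_eq_zero_of_notMem_tsupport hx
    have h3 : fderiv ℝ B x = 0 := by
      by_contra h4
      exact hx (support_fderiv_subset ℝ h4)
    rw [h1.fderiv_eq]
    ext v
    rw [fderiv_fun_const]
    show (0 : W) = fderiv ℝ B x v (f (pr z r x)) +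
        (B x (fderiv ℝ f (pr z r x) (fderiv ℝ (pr z 0) x v)) +
          r • B x (fderiv ℝ f (pr z r x) (fderiv ℝ (gd z) x v)))
    rw [h2, h3]
    simp

end Gen

/-- uniform bounds -/
private theorem dw_bound (h : Dom D z δ) (i : ℕ) : ∀ (G W : Type) [NormedAddCommGroup G] [NormedSpace ℝ G]
    [NormedAddCommGroup W] [NormedSpace ℝ W] (B : Ed d → G →L[ℝ] W) (f : Ed d → G), dwC z δ B → BD D f →
    ∃ C, 0 ≤ C ∧ ∀ r ∈ Ioc 0 δ, ∀ x, ‖iteratedFDeriv ℝ i (fun x => B x (f (pr z r x))) x‖ ≤ C := by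
  induction i with
  | zero =>
    intro G W _ _ _ _ B f hB hf
    obtain ⟨C, hC, hCb⟩ := hB.bd
    obtain ⟨A, hA, hAb⟩ := hf.bound
    refine ⟨C * A, by positivity, fun r hr x => ?_⟩
    rw [norm_iteratedFDeriv_zero]
    by_cases hx : x ∈ tsupport B
    · have hD : pr z r x ∈ D := pr_mem h hr.1 (by linarith [h.δ0, hr.2]) (hB.supp x hx)
      calc ‖B x (f (pr z r x))‖ ≤ ‖B x‖ * ‖f (pr z r x)‖ := (B x).le_opNorm _
        _ ≤ C * A := by
            gcongr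
            · exact hCb x
            · exact hAb _ hD
    · rw [image_eq_zero_of_notMem_tsupport hx]
      simp only [zero_apply, norm_zero]
      positivity
  | succ i ih =>
    intro G W _ _ _ _ B f hB hf
    have hT0 : Smo (fderiv ℝ (pr z 0)) := ContDiff.fderiv_right (pr_smo h 0) (by exact_mod_cast le_top)
    have hTn : Smo (fderiv ℝ (gd z)) := ContDiff.fderiv_right h.gd_smo (by exact_mod_cast le_top)
    obtain ⟨C₁, hC₁, h1⟩ := ih G (Ed d →L[ℝ] W) (dwB1 B) f (dwC_B1 hB) hf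
    obtain ⟨C₂, hC₂, h2⟩ := ih (Ed d →L[ℝ] G) (Ed d →L[ℝ] W) (dwBT B (fderiv ℝ (pr z 0))) (fderiv ℝ f)
      (dwC_BT hB hT0) (hf.fderiv h.isOpen)
    obtain ⟨C₃, hC₃, h3⟩ := ih (Ed d →L[ℝ] G) (Ed d →L[ℝ] W) (dwBT B (fderiv ℝ (gd z))) (fderiv ℝ f)
      (dwC_BT hB hTn) (hf.fderiv h.isOpen)
    have hδ := h.δ0
    refine ⟨C₁ + (C₂ + δ * C₃), by positivity, fun r hr x => ?_⟩
    rw [← norm_iteratedFDeriv_fderiv, dw_fderiv h hB hf hr.1 hr.2]
    have s1 := dw_smo h (dwC_B1 hB) hf hr.1 hr.2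
    have s2 := dw_smo h (dwC_BT hB hT0) (hf.fderiv h.isOpen) hr.1 hr.2
    have s3 := dw_smo h (dwC_BT hB hTn) (hf.fderiv h.isOpen) hr.1 hr.2
    have e1 : iteratedFDeriv ℝ i (fun x => dwB1 B x (f (pr z r x)) +
      (dwBT B (fderiv ℝ (pr z 0)) x (fderiv ℝ f (pr z r x)) +
        r • dwBT B (fderiv ℝ (gd z)) x (fderiv ℝ f (pr z r x)))) x =
        iteratedFDeriv ℝ i (fun x => dwB1 B x (f (pr z r x))) x +
        (iteratedFDeriv ℝ i (fun x => dwBT B (fderiv ℝ (pr z 0)) x (fderiv ℝ f (pr z r x))) x +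
          r • iteratedFDeriv ℝ i (fun x => dwBT B (fderiv ℝ (gd z)) x (fderiv ℝ f (pr z r x))) x) := by
      rw [dw_iadd s1 (ContDiff.add s2 (dw_csmul r s3)), dw_iadd s2 (dw_csmul r s3), dw_ismul r s3]
    rw [e1]
    refine (norm_add_le _ _).trans (add_le_add (h1 r hr x) ((norm_add_le _ _).trans (add_le_add (h2 r hr x) ?_)))
    rw [norm_smul, Real.norm_eq_abs, abs_of_pos hr.1]
    exact mul_le_mul hr.2 (h3 r hr x) (norm_nonneg _) hδ.le

/-- differences -/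
private theorem dw_diff (h : Dom D z δ) (i : ℕ) : ∀ (G W : Type) [NormedAddCommGroup G] [NormedSpace ℝ G]
    [NormedAddCommGroup W] [NormedSpace ℝ W] (B : Ed d → G →L[ℝ] W) (f : Ed d → G), dwC z δ B → BD D f →
    ∃ C, 0 ≤ C ∧ ∀ r ∈ Ioc 0 δ, ∀ s ∈ Ioc 0 δ, ∀ x,
      ‖iteratedFDeriv ℝ i (fun x => B x (f (pr z r x)) - B x (f (pr z s x))) x‖ ≤ C * |r - s| := by
  induction i with
  | zero =>
    intro G W _ _ _ _ B f hB hf
    obtain ⟨C, hC, hCb⟩ := hB.bd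
    obtain ⟨A, hA, hAb⟩ := hf.bound_fderiv
    refine ⟨C * A, by positivity, fun r hr s hs x => ?_⟩
    rw [norm_iteratedFDeriv_zero]
    by_cases hx : x ∈ tsupport B
    · have hz := hB.supp x hx
      have hn := h.gd_norm hz
      have hder : ∀ τ ∈ Ioc 0 δ, HasDerivWithinAt (fun τ => f (pr z τ x)) (fderiv ℝ f (pr z τ x) (gd z x))
          (Ioc 0 δ) τ := by
        intro τ hτ
        have hD : pr z τ x ∈ D := pr_mem h hτ.1 (by linarith [h.δ0, hτ.2]) hz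
        have h1 : ContDiffAt ℝ ((⊤ : ℕ∞) : WithTop ℕ∞) f (pr z τ x) := hf.1.contDiffAt (h.isOpen.mem_nhds hD)
        have h2 : HasFDerivAt f (fderiv ℝ f (pr z τ x)) (pr z τ x) := (h1.differentiableAt (by norm_num)).hasFDerivAt
        have h3 : HasDerivAt (fun τ : ℝ => pr z τ x) (gd z x) τ := by
          have h4 : (fun τ : ℝ => pr z τ x) = fun τ => pr z 0 x + τ • gd z x := by
            funext τ
            unfold pr
            rw [sub_zero, sub_smul]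
            abel
          rw [h4]
          simpa using ((hasDerivAt_id τ).smul_const (gd z x)).const_add (pr z 0 x)
        exact (h2.comp_hasDerivAt τ h3).hasDerivWithinAt
      have hbd : ∀ τ ∈ Ioc 0 δ, ‖fderiv ℝ f (pr z τ x) (gd z x)‖ ≤ A := by
        intro τ hτ
        have hD : pr z τ x ∈ D := pr_mem h hτ.1 (by linarith [h.δ0, hτ.2]) hz
        calc ‖fderiv ℝ f (pr z τ x) (gd z x)‖ ≤ ‖fderiv ℝ f (pr z τ x)‖ * ‖gd z x‖ :=
              ContinuousLinearMap.le_opNorm _ _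
          _ ≤ A * 1 := by rw [hn]; gcongr; exact hAb _ hD
          _ = A := mul_one A
      have h5 := (convex_Ioc (0 : ℝ) δ).norm_image_sub_le_of_norm_hasDerivWithin_le hder hbd hs hr
      rw [← map_sub]
      calc ‖B x (f (pr z r x) - f (pr z s x))‖ ≤ ‖B x‖ * ‖f (pr z r x) - f (pr z s x)‖ := (B x).le_opNorm _
        _ ≤ C * (A * |r - s|) := by
            gcongr
            · exact hCb x
            · exact h5
        _ = _ := by ring
    · rw [image_eq_zero_of_notMem_tsupport hx]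
      simp only [zero_apply, sub_zero, norm_zero]
      positivity
  | succ i ih =>
    intro G W _ _ _ _ B f hB hf
    have hT0 : Smo (fderiv ℝ (pr z 0)) := ContDiff.fderiv_right (pr_smo h 0) (by exact_mod_cast le_top)
    have hTn : Smo (fderiv ℝ (gd z)) := ContDiff.fderiv_right h.gd_smo (by exact_mod_cast le_top)
    obtain ⟨C₁, hC₁, h1⟩ := ih G (Ed d →L[ℝ] W) (dwB1 B) f (dwC_B1 hB) hf
    obtain ⟨C₂, hC₂, h2⟩ := ih (Ed d →L[ℝ] G) (Ed d →L[ℝ] W) (dwBT B (fderiv ℝ (pr z 0))) (fderiv ℝ f)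
      (dwC_BT hB hT0) (hf.fderiv h.isOpen)
    obtain ⟨C₃, hC₃, h3⟩ := ih (Ed d →L[ℝ] G) (Ed d →L[ℝ] W) (dwBT B (fderiv ℝ (gd z))) (fderiv ℝ f)
      (dwC_BT hB hTn) (hf.fderiv h.isOpen)
    obtain ⟨C₄, hC₄, h4⟩ := dw_bound h i (Ed d →L[ℝ] G) (Ed d →L[ℝ] W) (dwBT B (fderiv ℝ (gd z))) (fderiv ℝ f)
      (dwC_BT hB hTn) (hf.fderiv h.isOpen)
    have hδ := h.δ0
    refine ⟨C₁ + (C₂ + (δ * C₃ + C₄)), by positivity, fun r hr s hs x => ?_⟩
    have hsmo := fun (r : ℝ) (hr : r ∈ Ioc 0 δ) => dw_smo h hB hf hr.1 hr.2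
    have hfd : fderiv ℝ (fun x => B x (f (pr z r x)) - B x (f (pr z s x))) = fun x =>
        (dwB1 B x (f (pr z r x)) - dwB1 B x (f (pr z s x))) +
        ((dwBT B (fderiv ℝ (pr z 0)) x (fderiv ℝ f (pr z r x)) -
          dwBT B (fderiv ℝ (pr z 0)) x (fderiv ℝ f (pr z s x))) +
        (r • (dwBT B (fderiv ℝ (gd z)) x (fderiv ℝ f (pr z r x)) -
          dwBT B (fderiv ℝ (gd z)) x (fderiv ℝ f (pr z s x))) +
          (r - s) • dwBT B (fderiv ℝ (gd z)) x (fderiv ℝ f (pr z s x)))) := by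
      funext x
      rw [fderiv_fun_sub ((hsmo r hr).differentiable x) ((hsmo s hs).differentiable x),
        dw_fderiv h hB hf hr.1 hr.2, dw_fderiv h hB hf hs.1 hs.2]
      beta_reduce
      rw [smul_sub, sub_smul]
      abel
    rw [← norm_iteratedFDeriv_fderiv, hfd]
    have s1 := fun (r : ℝ) (hr : r ∈ Ioc 0 δ) => dw_smo h (dwC_B1 hB) hf hr.1 hr.2
    have s2 := fun (r : ℝ) (hr : r ∈ Ioc 0 δ) => dw_smo h (dwC_BT hB hT0) (hf.fderiv h.isOpen) hr.1 hr.2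
    have s3 := fun (r : ℝ) (hr : r ∈ Ioc 0 δ) => dw_smo h (dwC_BT hB hTn) (hf.fderiv h.isOpen) hr.1 hr.2
    have d1 := ContDiff.sub (s1 r hr) (s1 s hs)
    have d2 := ContDiff.sub (s2 r hr) (s2 s hs)
    have d3 := ContDiff.sub (s3 r hr) (s3 s hs)
    have d4 := s3 s hs
    have e1 : iteratedFDeriv ℝ i (fun x =>
        (dwB1 B x (f (pr z r x)) - dwB1 B x (f (pr z s x))) +
        ((dwBT B (fderiv ℝ (pr z 0)) x (fderiv ℝ f (pr z r x)) -
          dwBT B (fderiv ℝ (pr z 0)) x (fderiv ℝ f (pr z s x))) +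
        (r • (dwBT B (fderiv ℝ (gd z)) x (fderiv ℝ f (pr z r x)) -
          dwBT B (fderiv ℝ (gd z)) x (fderiv ℝ f (pr z s x))) +
          (r - s) • dwBT B (fderiv ℝ (gd z)) x (fderiv ℝ f (pr z s x))))) x =
        iteratedFDeriv ℝ i (fun x => dwB1 B x (f (pr z r x)) - dwB1 B x (f (pr z s x))) x +
        (iteratedFDeriv ℝ i (fun x => dwBT B (fderiv ℝ (pr z 0)) x (fderiv ℝ f (pr z r x)) -
          dwBT B (fderiv ℝ (pr z 0)) x (fderiv ℝ f (pr z s x))) x +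
        (r • iteratedFDeriv ℝ i (fun x => dwBT B (fderiv ℝ (gd z)) x (fderiv ℝ f (pr z r x)) -
          dwBT B (fderiv ℝ (gd z)) x (fderiv ℝ f (pr z s x))) x +
          (r - s) • iteratedFDeriv ℝ i (fun x => dwBT B (fderiv ℝ (gd z)) x (fderiv ℝ f (pr z s x))) x)) := by
      rw [dw_iadd d1 (ContDiff.add d2 (ContDiff.add (dw_csmul r d3) (dw_csmul (r - s) d4))),
        dw_iadd d2 (ContDiff.add (dw_csmul r d3) (dw_csmul (r - s) d4)),
        dw_iadd (dw_csmul r d3) (dw_csmul (r - s) d4), dw_ismul r d3, dw_ismul (r - s) d4]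
    rw [e1]
    have b1 := h1 r hr s hs x
    have b2 := h2 r hr s hs x
    have b3 := h3 r hr s hs x
    have b4 := h4 s hs x
    refine (norm_add_le _ _).trans ?_
    have t1 := norm_add_le (iteratedFDeriv ℝ i (fun x => dwBT B (fderiv ℝ (pr z 0)) x (fderiv ℝ f (pr z r x)) -
          dwBT B (fderiv ℝ (pr z 0)) x (fderiv ℝ f (pr z s x))) x)
        (r • iteratedFDeriv ℝ i (fun x => dwBT B (fderiv ℝ (gd z)) x (fderiv ℝ f (pr z r x)) -
          dwBT B (fderiv ℝ (gd z)) x (fderiv ℝ f (pr z s x))) x +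
          (r - s) • iteratedFDeriv ℝ i (fun x => dwBT B (fderiv ℝ (gd z)) x (fderiv ℝ f (pr z s x))) x)
    have t2 := norm_add_le (r • iteratedFDeriv ℝ i (fun x => dwBT B (fderiv ℝ (gd z)) x (fderiv ℝ f (pr z r x)) -
          dwBT B (fderiv ℝ (gd z)) x (fderiv ℝ f (pr z s x))) x)
          ((r - s) • iteratedFDeriv ℝ i (fun x => dwBT B (fderiv ℝ (gd z)) x (fderiv ℝ f (pr z s x))) x)
    rw [norm_smul, norm_smul, Real.norm_eq_abs, Real.norm_eq_abs, abs_of_pos hr.1] at t2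
    have t3 := mul_le_mul hr.2 b3 (norm_nonneg _) hδ.le
    have t4 := mul_le_mul_of_nonneg_left b4 (abs_nonneg (r - s))
    calc _ ≤ C₁ * |r - s| + (C₂ * |r - s| + (δ * (C₃ * |r - s|) + |r - s| * C₄)) := by linarith
      _ = _ := by ring

/-- the cut-off as a coefficient -/
private theorem dw_kap2 (h : Dom D z δ) (G : Type) [NormedAddCommGroup G] [NormedSpace ℝ G] :
    dwC z δ (fun x => kap2 δ z x • ContinuousLinearMap.id ℝ G) := by
  have hδ := h.δ0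
  have hk : Smo (kap2 δ z) := by
    have h1 : Smo fun x => kap δ (z x) := (kap_smooth δ).comp h.smo
    have h2 : Smo fun x => kap δ (-z x) := (kap_smooth δ).comp (ContDiff.neg h.smo)
    exact h1.mul h2
  have hsub : support (fun x => kap2 δ z x • ContinuousLinearMap.id ℝ G) ⊆ {x | |z x| ≤ 2 * δ} := by
    intro x hx
    by_contra h1
    have h1 : 2 * δ < |z x| := not_le.1 h1
    apply hx
    have h2 : kap2 δ z x = 0 := by
      unfold kap2
      rcases lt_abs.1 h1 with h3 | h3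
      · rw [kap_zero hδ h3.le, zero_mul]
      · rw [kap_zero hδ h3.le, mul_zero]
    show kap2 δ z x • ContinuousLinearMap.id ℝ G = 0
    rw [h2, zero_smul]
  have hcl : IsClosed {x | |z x| ≤ 2 * δ} := isClosed_le (h.cont.abs) continuous_const
  have hts := closure_minimal hsub hcl
  refine ⟨hk.smul contDiff_const, ?_, fun x hx => ?_⟩
  · have hb : Bornology.IsBounded {x : Ed d | |z x| ≤ 2 * δ} := by
      obtain ⟨R, hR⟩ := h.bdd.subset_closedBall (0 : Ed d)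
      refine (Metric.isBounded_closedBall (x := (0 : Ed d)) (r := R + 3 * δ)).subset fun x hx => ?_
      have hx' : |z x| < 4 * δ := lt_of_le_of_lt hx (by linarith)
      have hD := pr_mem h hδ (by linarith) hx'
      have h1 := hR hD
      rw [mem_closedBall_zero_iff] at h1 ⊢
      have h2 : x = pr z δ x + (z x - δ) • gd z x := by unfold pr; abel
      have h3 : ‖(z x - δ) • gd z x‖ ≤ 3 * δ := by
        rw [norm_smul, h.gd_norm hx', mul_one, Real.norm_eq_abs, abs_le]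
        have := abs_le.1 (show |z x| ≤ 2 * δ from hx)
        constructor <;> linarith
      calc ‖x‖ = ‖pr z δ x + (z x - δ) • gd z x‖ := by rw [← h2]
        _ ≤ ‖pr z δ x‖ + ‖(z x - δ) • gd z x‖ := norm_add_le _ _
        _ ≤ R + 3 * δ := add_le_add h1 h3
    exact HasCompactSupport.of_support_subset_isCompact
      (Metric.isCompact_of_isClosed_isBounded hcl hb) hsub
  · exact lt_of_le_of_lt (hts hx) (by linarith)

/-- Differences. The function `Φ(τ, x) = κ₂(x) f (pr z τ x)` is smooth on the open set `{0 < τ < 4δ, |z x| < 3δ}` of `ℝ × Ed d` and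
its derivatives of order at most `k + 1` are bounded for `τ ≤ δ` (`norm_iteratedFDeriv_comp_le` for `f` and `(τ, x) ↦ pr z τ x`);
`iteratedFDeriv i (Φ(τ, ·)) x` is the restriction of `iteratedFDeriv i Φ (τ, x)` to `{0} × Ed d`; mean value theorem in `τ`. -/
theorem ext_diff (h : Dom D z δ) {f : Ed d → G} (hf : BD D f) (k : ℕ) : ∃ C, 0 ≤ C ∧ ∀ r ∈ Ioc 0 δ, ∀ s ∈ Ioc 0 δ,
    ∀ i ≤ k, ∀ x, ‖iteratedFDeriv ℝ i (fun x => kap2 δ z x • f (pr z r x)) x -
      iteratedFDeriv ℝ i (fun x => kap2 δ z x • f (pr z s x)) x‖ ≤ C * |r - s| := by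
  have hB := dw_kap2 h G
  choose C hC hCb using fun i => dw_diff h i G G (fun x => kap2 δ z x • ContinuousLinearMap.id ℝ G) f hB hf
  refine ⟨∑ i ∈ Finset.range (k + 1), C i, Finset.sum_nonneg fun i _ => hC i, fun r hr s hs i hi x => ?_⟩
  have h1 := hCb i r hr s hs x
  have hle : ((i : ℕ) : WithTop ℕ∞) ≤ ((⊤ : ℕ∞) : WithTop ℕ∞) := by exact_mod_cast le_top
  have c1 := (ContDiff.of_le (ext_smo h hf hr.1 hr.2) hle).contDiffAt (x := x)
  have c2 := (ContDiff.of_le (ext_smo h hf hs.1 hs.2) hle).contDiffAt (x := x)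
  have h2 : iteratedFDeriv ℝ i (fun x => kap2 δ z x • f (pr z r x)) x -
      iteratedFDeriv ℝ i (fun x => kap2 δ z x • f (pr z s x)) x =
      iteratedFDeriv ℝ i (fun x => (kap2 δ z x • ContinuousLinearMap.id ℝ G) (f (pr z r x)) -
        (kap2 δ z x • ContinuousLinearMap.id ℝ G) (f (pr z s x))) x := by
    rw [← iteratedFDeriv_sub_apply c1 c2]
    rfl
  rw [h2]
  refine h1.trans (mul_le_mul_of_nonneg_right ?_ (abs_nonneg _))
  exact Finset.single_le_sum (f := C) (fun i _ => hC i) (Finset.mem_range.2 (by omega))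

/-- **Extension from the wall** (limit of `κ₂ f ∘ pr (δ/2^n)`: `contDiff_tsum` for the telescoping series, or
`contDiff_of_...` limits; `G` complete). -/
theorem wall_ext0 [CompleteSpace G] (h : Dom D z δ) (k : ℕ) : ∃ C, 0 ≤ C ∧ ∀ f : Ed d → G, BD D f →
    ∃ g : Ed d → G, Smo g ∧ (∀ x, Tendsto (fun r => kap2 δ z x • f (pr z r x)) (𝓝[>] 0) (𝓝 (g x))) ∧
    ∀ ρ ∈ Ioc 0 δ, ∀ A : ℝ, 0 ≤ A → Bn (strip D z ρ) k A f → ∀ i ≤ k, ∀ x, ‖iteratedFDeriv ℝ i g x‖ ≤ C * A := by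
  obtain ⟨C, hC, hCb⟩ := ext_bn (G := G) h k
  refine ⟨C, hC, fun f hf => ?_⟩
  have hδ := h.δ0
  choose K hK hKb using fun i => ext_diff h hf i
  set F : ℝ → Ed d → G := fun r x => kap2 δ z x • f (pr z r x) with hF
  set ρ : ℕ → ℝ := fun n => δ / 2 ^ n with hρ
  have hρ0 : ∀ n, 0 < ρ n := fun n => by positivity
  have hρδ : ∀ n, ρ n ≤ δ := fun n => div_le_self hδ.le (one_le_pow₀ (by norm_num))
  have hρm : ∀ n, ρ n ∈ Ioc 0 δ := fun n => ⟨hρ0 n, hρδ n⟩
  have hρs : ∀ n, ρ n - ρ (n + 1) = δ / 2 * (1 / 2) ^ n := by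
    intro n
    simp only [hρ]
    rw [pow_succ, div_pow, one_pow]
    field_simp
    ring
  have hsm : ∀ n, Smo (F (ρ n)) := fun n => ext_smo h hf (hρ0 n) (hρδ n)
  have hsc : Smo (F δ) := ext_smo h hf hδ le_rfl
  set g : ℕ → Ed d → G := fun n x => F (ρ (n + 1)) x - F (ρ n) x with hg
  have hgs : ∀ n, ContDiff ℝ ((⊤ : ℕ∞) : WithTop ℕ∞) (g n) := fun n => (hsm (n + 1)).sub (hsm n)
  have hle : ∀ i : ℕ, ((i : ℕ) : WithTop ℕ∞) ≤ ((⊤ : ℕ∞) : WithTop ℕ∞) := fun i => by exact_mod_cast le_top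
  have hgi : ∀ i n x, iteratedFDeriv ℝ i (g n) x = iteratedFDeriv ℝ i (F (ρ (n + 1))) x - iteratedFDeriv ℝ i (F (ρ n)) x := by
    intro i n x
    have c1 := (ContDiff.of_le (hsm (n + 1)) (hle i)).contDiffAt (x := x)
    have c2 := (ContDiff.of_le (hsm n) (hle i)).contDiffAt (x := x)
    rw [← iteratedFDeriv_sub_apply c1 c2]
    rfl
  have hgb : ∀ i n x, ‖iteratedFDeriv ℝ i (g n) x‖ ≤ K i * (δ / 2 * (1 / 2) ^ n) := by
    intro i n x
    rw [hgi]
    have h1 := hKb i (ρ (n + 1)) (hρm _) (ρ n) (hρm _) i le_rfl x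
    have h2 : |ρ (n + 1) - ρ n| = δ / 2 * (1 / 2) ^ n := by
      rw [abs_sub_comm, hρs, abs_of_nonneg (by positivity)]
    rw [h2] at h1
    exact h1
  have hsum : ∀ i, Summable fun n => K i * (δ / 2 * (1 / 2) ^ n) := fun i =>
    ((summable_geometric_of_lt_one (by norm_num) (by norm_num)).mul_left (δ / 2)).mul_left (K i)
  set S : Ed d → G := fun x => ∑' n, g n x with hS
  have hSs : ContDiff ℝ ((⊤ : ℕ∞) : WithTop ℕ∞) S :=
    contDiff_tsum hgs (fun i _ => hsum i) fun i n x _ => hgb i n x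
  have hSi : ∀ i x, iteratedFDeriv ℝ i S x = ∑' n, iteratedFDeriv ℝ i (g n) x := by
    intro i x
    exact iteratedFDeriv_tsum_apply hgs (fun i _ => hsum i) (fun i n x _ => hgb i n x) (by exact_mod_cast le_top) x
  have hGs : Smo fun x => F (ρ 0) x + S x := (hsm 0).add hSs
  have hGi : ∀ i x, iteratedFDeriv ℝ i (fun x => F (ρ 0) x + S x) x =
      iteratedFDeriv ℝ i (F (ρ 0)) x + ∑' n, iteratedFDeriv ℝ i (g n) x := by
    intro i x
    have c1 := (ContDiff.of_le (hsm 0) (hle i)).contDiffAt (x := x)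
    have c2 := (ContDiff.of_le hSs (hle i)).contDiffAt (x := x)
    rw [← hSi, ← iteratedFDeriv_add_apply c1 c2]
    rfl
  have hlim : ∀ i x, Tendsto (fun n => iteratedFDeriv ℝ i (F (ρ n)) x) atTop
      (𝓝 (iteratedFDeriv ℝ i (fun x => F (ρ 0) x + S x) x)) := by
    intro i x
    have h1 : Summable fun n => iteratedFDeriv ℝ i (g n) x :=
      Summable.of_norm_bounded (hsum i) fun n => hgb i n x
    have h2 := (h1.hasSum.tendsto_sum_nat).const_add (iteratedFDeriv ℝ i (F (ρ 0)) x)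
    rw [hGi]
    refine h2.congr fun n => ?_
    simp only [hgi]
    rw [Finset.sum_range_sub (fun n => iteratedFDeriv ℝ i (F (ρ n)) x)]
    abel
  have hρt : Tendsto ρ atTop (𝓝 0) := by
    have h1 : Tendsto (fun n : ℕ => δ * (1 / 2 : ℝ) ^ n) atTop (𝓝 (δ * 0)) :=
      (tendsto_pow_atTop_nhds_zero_of_lt_one (by norm_num) (by norm_num)).const_mul δ
    rw [mul_zero] at h1
    refine h1.congr fun n => ?_
    simp only [hρ]
    rw [div_pow, one_pow]
    ring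
  -- the value of the limit
  have hval : ∀ x, ∀ r ∈ Ioc 0 δ, ‖F r x - (F (ρ 0) x + S x)‖ ≤ K 0 * r := by
    intro x r hr
    have h1 : Tendsto (fun n => F (ρ n) x) atTop (𝓝 (F (ρ 0) x + S x)) := by
      have h2 : Summable fun n => g n x := by
        refine Summable.of_norm_bounded (hsum 0) fun n => ?_
        have := hgb 0 n x
        rwa [norm_iteratedFDeriv_zero] at this
      have h3 := (h2.hasSum.tendsto_sum_nat).const_add (F (ρ 0) x)
      refine h3.congr fun n => ?_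
      simp only [hg]
      rw [Finset.sum_range_sub (fun n => F (ρ n) x)]
      abel
    have h4 : Tendsto (fun n => ‖F r x - F (ρ n) x‖) atTop (𝓝 ‖F r x - (F (ρ 0) x + S x)‖) :=
      (tendsto_const_nhds.sub h1).norm
    have h5 : Tendsto (fun n => K 0 * |r - ρ n|) atTop (𝓝 (K 0 * |r - 0|)) :=
      ((tendsto_const_nhds.sub hρt).abs).const_mul (K 0)
    have h6 : ∀ n, ‖F r x - F (ρ n) x‖ ≤ K 0 * |r - ρ n| := by
      intro n
      have h7 := hKb 0 r hr (ρ n) (hρm n) 0 le_rfl x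
      have c1 := (ContDiff.of_le (ext_smo h hf hr.1 hr.2) (hle 0)).contDiffAt (x := x)
      have c2 := (ContDiff.of_le (hsm n) (hle 0)).contDiffAt (x := x)
      rw [← iteratedFDeriv_sub_apply c1 c2, norm_iteratedFDeriv_zero] at h7
      exact h7
    have h8 := le_of_tendsto_of_tendsto' h4 h5 h6
    rwa [sub_zero, abs_of_pos hr.1] at h8
  refine ⟨fun x => F (ρ 0) x + S x, hGs, fun x => ?_, fun ρ₀ hρ₀ A hA hAb i hi x => ?_⟩
  · rw [tendsto_iff_norm_sub_tendsto_zero]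
    have h1 : Tendsto (fun r : ℝ => K 0 * r) (𝓝[>] 0) (𝓝 0) := by
      have : Tendsto (fun r : ℝ => K 0 * r) (𝓝 0) (𝓝 (K 0 * 0)) := tendsto_id.const_mul (K 0)
      rw [mul_zero] at this
      exact this.mono_left nhdsWithin_le_nhds
    refine squeeze_zero' (Eventually.of_forall fun r => norm_nonneg _) ?_ h1
    filter_upwards [Ioc_mem_nhdsGT hδ] with r hr
    exact hval x r hr
  · have h1 := (hlim i x).norm
    refine le_of_tendsto h1 ?_
    filter_upwards [hρt.eventually (gt_mem_nhds hρ₀.1)] with n hn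
    exact hCb ρ₀ hρ₀ f A hf hA hAb (ρ n) ⟨hρ0 n, hn⟩ i hi x

end Pool.Agent.Lib.MP_79abb3_an.W
end

section

/-!
Theorem W, block D, part W1c: tangential fields.
-/

set_option autoImplicit false
set_option linter.unusedSectionVars false

open MeasureTheory Set Filter Topology Function
open scoped ENNReal RealInnerProductSpace

namespace Pool.Agent.Lib.MP_79abb3_an.W

variable {d : ℕ} {D : Set (Ed d)} {z : Ed d → ℝ} {δ : ℝ} {G : Type} [NormedAddCommGroup G] [NormedSpace ℝ G]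

/-- The form used below. -/
theorem wall_ext (h : Dom D z δ) (k : ℕ) : ∃ C, 0 ≤ C ∧ ∀ σ : Ed d → Ed d, CF D z δ σ →
    ∃ g : Ed d → Ed d, CF D z δ g ∧ (Oz D z fun x => g x - σ x) ∧
    ∀ ρ ∈ Ioc 0 δ, ∀ A : ℝ, 0 ≤ A → Bn (strip D z ρ) k A σ → Bn D k (C * A) g := by
  obtain ⟨C, hC, hext⟩ := wall_ext0 (G := Ed d) h k
  refine ⟨C, hC, fun σ hσ => ?_⟩
  obtain ⟨g, hgs, hlim, hb⟩ := hext σ hσ.bd
  have hD : IsOpen D := h.isOpen
  have hδ := h.δ0
  have hgBD : BD D g := BD.of_smo h.bdd hgs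
  have hsupp : ∀ x ∈ D, 2 * δ ≤ z x → g x = 0 := by
    intro x _ h2
    have h3 : ∀ r, kap2 δ z x • σ (pr z r x) = 0 := by
      intro r
      rw [kap2, kap_zero hδ h2, zero_mul, zero_smul]
    have h4 := hlim x
    simp only [h3] at h4
    exact tendsto_nhds_unique h4 tendsto_const_nhds
  have htan : ∀ x ∈ D, ⟪gd z x, g x⟫ = 0 := by
    intro x hx
    have hz : 0 < z x := h.zpos hx
    rcases le_or_gt (2 * δ) (z x) with h2 | h2
    · rw [hsupp x hx h2, inner_zero_right]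
    · have hx4 : |z x| < 4 * δ := by rw [abs_of_pos hz]; linarith
      have h1 : Tendsto (fun r => ⟪gd z x, kap2 δ z x • σ (pr z r x)⟫) (𝓝[>] 0) (𝓝 ⟪gd z x, g x⟫) :=
        tendsto_const_nhds.inner (hlim x)
      have h3 : ∀ᶠ r in 𝓝[>] (0 : ℝ), (0 : ℝ) = ⟪gd z x, kap2 δ z x • σ (pr z r x)⟫ := by
        filter_upwards [Ioo_mem_nhdsGT hδ] with r hr
        have hr4 : |r| < 4 * δ := by rw [abs_of_pos hr.1]; linarith [hr.2]
        obtain ⟨-, hg⟩ := pr_z h hr4 hx4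
        have h5 := hσ.tan _ (pr_mem h hr.1 (by linarith [hr.2]) hx4)
        rw [hg] at h5
        rw [real_inner_smul_right, h5, mul_zero]
      exact tendsto_nhds_unique h1 (tendsto_const_nhds.congr' h3)
  obtain ⟨C0, -, hC0⟩ := (BD.sub hD hgBD hσ.bd).bound
  obtain ⟨C1, hC10, hC1⟩ := hσ.bd.bound_fderiv
  refine ⟨g, ⟨⟨hgBD, fun x hx h2 => hsupp x hx h2.le⟩, htan⟩, ?_, ?_⟩
  · refine Oz.of_near h (C' := C1) hC0 fun x hx hxδ => ?_
    have hz : 0 < z x := h.zpos hx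
    have hx4 : |z x| < 4 * δ := by rw [abs_of_pos hz]; linarith
    have hk : kap2 δ z x = 1 := by
      rw [kap2, kap_one hδ hxδ.le, kap_one hδ (by linarith), one_mul]
    have h1 : Tendsto (fun r => ‖kap2 δ z x • σ (pr z r x) - σ x‖) (𝓝[>] 0) (𝓝 ‖g x - σ x‖) :=
      ((hlim x).sub_const _).norm
    refine le_of_tendsto h1 ?_
    filter_upwards [Ioo_mem_nhdsGT hz] with r hr
    rw [hk, one_smul]
    have hin : ∀ s ∈ Icc 0 (z x - r), x - s • gd z x ∈ D := by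
      intro s hs
      have h2 : |z x + -s| < 4 * δ := by
        rw [abs_of_pos (by linarith [hs.2, hr.1])]
        linarith [hs.1]
      have h3 := (h.push hx4 h2).1
      have h4 : x + -s • gd z x = x - s • gd z x := by rw [neg_smul, ← sub_eq_add_neg]
      rw [h4] at h3
      rw [h.pos, h3]
      linarith [hs.2, hr.1]
    have hder : ∀ s ∈ Icc 0 (z x - r), HasDerivWithinAt (fun s : ℝ => σ (x - s • gd z x))
        (fderiv ℝ σ (x - s • gd z x) (-gd z x)) (Icc 0 (z x - r)) s := by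
      intro s hs
      have h2 : HasFDerivAt σ (fderiv ℝ σ (x - s • gd z x)) (x - s • gd z x) :=
        (hσ.bd.diff hD (hin s hs)).hasFDerivAt
      have h3 : HasDerivAt (fun s : ℝ => x - s • gd z x) (-gd z x) s := by
        have h4 := ((hasDerivAt_id s).smul_const (gd z x)).const_sub x
        simpa using h4
      exact (h2.comp_hasDerivAt s h3).hasDerivWithinAt
    have hbd : ∀ s ∈ Ico 0 (z x - r), ‖fderiv ℝ σ (x - s • gd z x) (-gd z x)‖ ≤ C1 := by
      intro s hs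
      have h2 := hC1 _ (hin s ⟨hs.1, hs.2.le⟩)
      refine (ContinuousLinearMap.le_opNorm _ _).trans ?_
      rw [norm_neg, h.gd_norm hx4, mul_one]
      exact h2
    have h5 := norm_image_sub_le_of_norm_deriv_le_segment' hder hbd (z x - r) ⟨by linarith [hr.2], le_rfl⟩
    have h6 : pr z r x = x - (z x - r) • gd z x := rfl
    rw [h6]
    simp only [zero_smul, sub_zero] at h5
    refine h5.trans ?_
    gcongr
    linarith [hr.1]
  · intro ρ hρ A hA hBn i hi x _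
    exact hb ρ hρ A hA hBn i hi x

end Pool.Agent.Lib.MP_79abb3_an.W
end

section

/-!
Theorem W, block D, part S1b: lift of slow traces.
-/

set_option autoImplicit false
set_option linter.unusedSectionVars false

open MeasureTheory Set Filter Topology Function
open scoped ENNReal RealInnerProductSpace

namespace Pool.Agent.Lib.MP_79abb3_an.W

variable {d : ℕ} {D B : Set (Ed d)} {z : Ed d → ℝ} {δ : ℝ}

/-- The lift of a tangential field: `F'(z) g + F(z) ℓ(g)`, `F(s) = s κ(s)`. -/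
noncomputable def lftD (z : Ed d → ℝ) (δ : ℝ) (g : Ed d → Ed d) (x : Ed d) : Ed d :=
  deriv (fun s : ℝ => s * kap δ s) (z x) • g x + (z x * kap δ (z x)) • ell z g x

private theorem ds1b_smo (δ : ℝ) : ContDiff ℝ ((⊤ : ℕ∞) : WithTop ℕ∞) (fun s : ℝ => s * kap δ s) :=
  contDiff_id.mul (kap_smooth δ)

private theorem ds1b_smo' (δ : ℝ) : ContDiff ℝ ((⊤ : ℕ∞) : WithTop ℕ∞) (deriv fun s : ℝ => s * kap δ s) :=
  ((contDiff_infty_iff_deriv (𝕜 := ℝ)).1 (ds1b_smo δ)).2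

theorem lftD_bd (h : Dom D z δ) {g : Ed d → Ed d} (hg : CF D z δ g) : BD D (lftD z δ g) := by
  have hD : IsOpen D := h.col.isOpen
  exact BD.add hD (BD.smul hD (h.bd_comp (ds1b_smo' δ)) hg.bd)
    (BD.smul hD (h.bd_comp (ds1b_smo δ)) (CV.ell h hg.toCV).bd)

theorem lftD_dv (h : Dom D z δ) {g : Ed d → Ed d} (hg : CF D z δ g) : ∀ x ∈ D, dv (lftD z δ g) x = 0 :=
  fun _ hx => strm_div h (ds1b_smo δ) hg hx

theorem lftD_tan (h : Dom D z δ) {g : Ed d → Ed d} (hg : CF D z δ g) : Oz D z fun x => ⟪gd z x, lftD z δ g x⟫ := by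
  have hD : IsOpen D := h.col.isOpen
  obtain ⟨C, hC0, hC⟩ := (BD.dv hD hg.bd).bound
  refine ⟨C, fun x hx => ?_⟩
  have hz := h.zpos hx
  have e : ⟪gd z x, lftD z δ g x⟫ = -(z x * kap δ (z x) * dv g x) := by
    unfold lftD
    rw [inner_add_right, inner_smul_right, inner_smul_right, hg.tan x hx, ell_nor h hg hx]
    ring
  show ‖⟪gd z x, lftD z δ g x⟫‖ ≤ C * z x
  rw [e, norm_neg, Real.norm_eq_abs, abs_mul, abs_mul, abs_of_pos hz, abs_of_nonneg (kap_nonneg δ _)]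
  have h1 : |dv g x| ≤ C := hC x hx
  have h2 := kap_le_one δ (z x)
  have h3 := kap_nonneg δ (z x)
  calc z x * kap δ (z x) * |dv g x| ≤ z x * 1 * C := by gcongr
    _ = C * z x := by ring

theorem lftD_sub (h : Dom D z δ) {g : Ed d → Ed d} (hg : CF D z δ g) : Oz D z fun x => lftD z δ g x - g x := by
  have hD : IsOpen D := h.col.isOpen
  obtain ⟨C, -, hC⟩ := (BD.sub hD (lftD_bd h hg) hg.bd).bound
  obtain ⟨C', -, hC'⟩ := (CV.ell h hg.toCV).bd.bound
  refine Oz.of_near h (C := C) (C' := C') hC fun x hx hxδ => ?_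
  have hz := h.zpos hx
  have e1 : deriv (fun s : ℝ => s * kap δ s) (z x) = 1 := by
    have h1 : (fun s : ℝ => s * kap δ s) =ᶠ[𝓝 (z x)] fun s => s := by
      filter_upwards [Iio_mem_nhds hxδ] with s hs
      rw [kap_one h.δ0 (le_of_lt hs), mul_one]
    rw [h1.deriv_eq]
    exact deriv_id (z x)
  have e2 : lftD z δ g x - g x = z x • ell z g x := by
    unfold lftD
    rw [e1, kap_one h.δ0 hxδ.le, one_smul, mul_one, add_sub_cancel_left]
  rw [e2, norm_smul, Real.norm_eq_abs, abs_of_pos hz, mul_comm]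
  exact mul_le_mul_of_nonneg_right (hC' x hx) hz.le

/-- `(n, s) ↦ n_j s` -/
private noncomputable def ds1b_P (j : Fin d) : Ed d →L[ℝ] Ed d →L[ℝ] Ed d :=
  (ContinuousLinearMap.lsmul ℝ ℝ : ℝ →L[ℝ] Ed d →L[ℝ] Ed d).comp (EuclideanSpace.proj j : Ed d →L[ℝ] ℝ)

/-- `(n, s) ↦ n_j s - s_j n` -/
private noncomputable def ds1b_L (j : Fin d) : Ed d →L[ℝ] Ed d →L[ℝ] Ed d := ds1b_P j - (ds1b_P j).flip

private theorem ds1b_L_apply (j : Fin d) (n s : Ed d) : ds1b_L j n s = n j • s - s j • n := rfl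

private theorem ds1b_ell (h : Dom D z δ) (k : ℕ) : ∃ C, 0 ≤ C ∧ ∀ (g : Ed d → Ed d) (A : ℝ), BD D g → 0 ≤ A →
    Bn D (k + 1) A g → Bn D k (C * A) (ell z g) := by
  have hD : IsOpen D := h.col.isOpen
  choose c hc0 hc using fun j : Fin d => Bn.fix hD h.bd_n (ds1b_L j) (k + 1)
  refine ⟨∑ j, ‖ContinuousLinearMap.apply ℝ (Ed d) (ei j : Ed d)‖ * c j,
    Finset.sum_nonneg fun j _ => mul_nonneg (norm_nonneg _) (hc0 j), fun g A hg hA hb => ?_⟩
  have h1 : ∀ j : Fin d, BD D fun y => ds1b_L j (gd z y) (g y) := fun j => BD.bilin hD (ds1b_L j) h.bd_n hg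
  have h2 : ∀ j : Fin d, Bn D k (‖ContinuousLinearMap.apply ℝ (Ed d) (ei j : Ed d)‖ * (c j * A))
      (pd j fun y => ds1b_L j (gd z y) (g y)) := fun j =>
    Bn.clm hD (ContinuousLinearMap.apply ℝ (Ed d) (ei j : Ed d)) (BD.fderiv hD (h1 j)).1
      (Bn.fderiv hD (hc j D Subset.rfl hD g A hA hg.1 hb))
  have h3 := Bn.sum hD Finset.univ (fun j _ => (BD.pd hD (h1 j) j).1) fun j _ => h2 j
  have e : ∑ j, ‖ContinuousLinearMap.apply ℝ (Ed d) (ei j : Ed d)‖ * (c j * A) =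
      (∑ j, ‖ContinuousLinearMap.apply ℝ (Ed d) (ei j : Ed d)‖ * c j) * A := by
    rw [Finset.sum_mul]
    exact Finset.sum_congr rfl fun j _ => by ring
  rw [← e]
  exact h3

theorem lftD_bn (h : Dom D z δ) (k : ℕ) : ∃ C, 0 ≤ C ∧ ∀ (g : Ed d → Ed d) (A : ℝ), CF D z δ g → 0 ≤ A →
    Bn D (k + 1) A g → Bn D k (C * A) (lftD z δ g) := by
  have hD : IsOpen D := h.col.isOpen
  obtain ⟨c0, hc0, h0⟩ := ds1b_ell h k
  obtain ⟨c1, hc1, h1⟩ := Bn.fix hD (h.bd_comp (ds1b_smo' δ))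
    (ContinuousLinearMap.lsmul ℝ ℝ : ℝ →L[ℝ] Ed d →L[ℝ] Ed d) k
  obtain ⟨c2, hc2, h2⟩ := Bn.fix hD (h.bd_comp (ds1b_smo δ))
    (ContinuousLinearMap.lsmul ℝ ℝ : ℝ →L[ℝ] Ed d →L[ℝ] Ed d) k
  refine ⟨c1 + c2 * c0, by positivity, fun g A hg hA hb => ?_⟩
  have hl : BD D (ell z g) := (CV.ell h hg.toCV).bd
  have h3 := h1 D Subset.rfl hD g A hA hg.bd.1 (Bn.mono hb (Nat.le_succ k) le_rfl)
  have h4 := h2 D Subset.rfl hD (ell z g) (c0 * A) (mul_nonneg hc0 hA) hl.1 (h0 g A hg.bd hA hb)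
  have h5 := Bn.add hD (BD.smul hD (h.bd_comp (ds1b_smo' δ)) hg.bd).1
    (BD.smul hD (h.bd_comp (ds1b_smo δ)) hl).1 h3 h4
  have e : (c1 + c2 * c0) * A = c1 * A + c2 * (c0 * A) := by ring
  rw [e]
  exact h5

end Pool.Agent.Lib.MP_79abb3_an.W
end

section

/-!
Theorem W, block D, part S1: bounds in the collar and the lift of slow tangential traces.
-/

set_option autoImplicit false
set_option linter.unusedSectionVars false

open MeasureTheory Set Filter Topology Function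
open scoped ENNReal RealInnerProductSpace

namespace Pool.Agent.Lib.MP_79abb3_an.W

variable {d : ℕ} {D B : Set (Ed d)} {z : Ed d → ℝ} {δ : ℝ}

theorem strip_open (h : Dom D z δ) (r : ℝ) : IsOpen (strip D z r) := by
  have h1 : strip D z r = {x | 0 < z x} ∩ {x | z x < r} := by
    ext x
    simp only [strip, mem_ofPred_eq, mem_inter_iff, h.pos x]
  rw [h1]
  exact (isOpen_lt continuous_const h.smo.continuous).inter (isOpen_lt h.smo.continuous continuous_const)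

private theorem ds1_open (h : Dom D z δ) : IsOpen D := by
  have h1 : D = {x | 0 < z x} := by
    ext x
    exact h.pos x
  rw [h1]
  exact isOpen_lt continuous_const h.smo.continuous

private theorem ds1_sub (r : ℝ) : strip D z r ⊆ D := fun _ hx => hx.1

/-- Bounds of the quadratic fields, constants depend only on `D`, `z`, `δ`, `k`. -/
theorem ct_bn (h : Dom D z δ) (k : ℕ) : ∃ C, 0 ≤ C ∧ ∀ (r : ℝ) (v : Ed d → Ed d) (A : ℝ), BD D v → 0 ≤ A →
    Bn (strip D z r) k A v → Bn (strip D z r) k (C * A) (ct z δ v) := by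
  have hD := ds1_open h
  obtain ⟨C₁, hC₁, H₁⟩ := Bn.fix hD h.bd_n (innerSL ℝ) k
  obtain ⟨C₂, hC₂, H₂⟩ := Bn.fix hD h.bd_n ((ContinuousLinearMap.lsmul ℝ ℝ : ℝ →L[ℝ] Ed d →L[ℝ] Ed d).flip) k
  obtain ⟨C₃, hC₃, H₃⟩ := Bn.fix hD (h.bd_comp (kap_smooth δ))
    (ContinuousLinearMap.lsmul ℝ ℝ : ℝ →L[ℝ] Ed d →L[ℝ] Ed d) k
  refine ⟨C₃ * (1 + C₂ * C₁), by positivity, fun r v A hv hA hb => ?_⟩
  have hO := strip_open h r
  have hsub : strip D z r ⊆ D := ds1_sub r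
  have hvc := hv.1.mono hsub
  have hn : ContDiffOn ℝ ((⊤ : ℕ∞) : WithTop ℕ∞) (gd z) (strip D z r) := h.bd_n.1.mono hsub
  have e1 : Bn (strip D z r) k (C₁ * A) (fun x => ⟪gd z x, v x⟫) := H₁ _ hsub hO v A hA hvc hb
  have c1 : ContDiffOn ℝ ((⊤ : ℕ∞) : WithTop ℕ∞) (fun x => ⟪gd z x, v x⟫) (strip D z r) := hn.inner ℝ hvc
  have e2 : Bn (strip D z r) k (C₂ * (C₁ * A)) (fun x => ⟪gd z x, v x⟫ • gd z x) :=
    H₂ _ hsub hO (fun x => ⟪gd z x, v x⟫) _ (by positivity) c1 e1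
  have c2 : ContDiffOn ℝ ((⊤ : ℕ∞) : WithTop ℕ∞) (fun x => ⟪gd z x, v x⟫ • gd z x) (strip D z r) := c1.smul hn
  have e3 : Bn (strip D z r) k (A + |(-1)| * (C₂ * (C₁ * A))) (fun x => v x + (-1 : ℝ) • (⟪gd z x, v x⟫ • gd z x)) :=
    Bn.add hO hvc (c2.const_smul (-1)) hb (Bn.const_smul hO (-1) c2 e2)
  have e4 := H₃ _ hsub hO _ _ (by positivity) (hvc.add (c2.const_smul (-1))) e3
  refine Bn.mono (Bn.congr hO e4 fun x _ => ?_) le_rfl (le_of_eq ?_)
  · show kap δ (z x) • (v x - ⟪gd z x, v x⟫ • gd z x) = kap δ (z x) • (v x + (-1 : ℝ) • (⟪gd z x, v x⟫ • gd z x))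
    rw [neg_one_smul, sub_eq_add_neg]
  · rw [abs_neg, abs_one]
    ring

private theorem ds1_slip (h : Dom D z δ) (k : ℕ) : ∃ C, 0 ≤ C ∧ ∀ (r : ℝ) (v : Ed d → Ed d) (A : ℝ), BD D v →
    0 ≤ A → Bn (strip D z r) k A v → Bn (strip D z r) k (C * A) (slip z δ v) := by
  obtain ⟨C, hC, H⟩ := ct_bn h k
  refine ⟨C, hC, fun r v A hv hA hb => ?_⟩
  have hO := strip_open h r
  have hc : ContDiffOn ℝ ((⊤ : ℕ∞) : WithTop ℕ∞) (ct z δ v) (strip D z r) := (ct_cf h hv).bd.1.mono (ds1_sub r)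
  refine Bn.mono (Bn.congr hO (Bn.const_smul hO (-1) hc (H r v A hv hA hb)) fun x _ => ?_) le_rfl (le_of_eq ?_)
  · show -ct z δ v x = (-1 : ℝ) • ct z δ v x
    rw [neg_one_smul]
  · rw [abs_neg, abs_one, one_mul]

/-- the trace as a continuous linear map -/
private noncomputable def ds1_tr (d : ℕ) : (Ed d →L[ℝ] Ed d) →L[ℝ] ℝ :=
  ∑ i, (EuclideanSpace.proj i : Ed d →L[ℝ] ℝ) ∘L ContinuousLinearMap.apply ℝ (Ed d) (eb i)

private theorem ds1_tr_apply (f : Ed d → Ed d) (x : Ed d) : ds1_tr d (fderiv ℝ f x) = dv f x := by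
  simp [ds1_tr, dv, pd]

theorem quadA_bn (h : Dom D z δ) (k : ℕ) : ∃ C, 0 ≤ C ∧ ∀ (r : ℝ) (V V' : Ed d → Ed d) (A A' : ℝ), BD D V → BD D V' →
    0 ≤ A → 0 ≤ A' → Bn (strip D z r) (k + 1) A V → Bn (strip D z r) (k + 1) A' V' →
    Bn (strip D z r) k (C * (A * A')) (ct z δ fun x => dv (slip z δ V) x • slip z δ V' x) := by
  have hD := ds1_open h
  obtain ⟨C₀, hC₀, H₀⟩ := ct_bn h k
  obtain ⟨C₁, hC₁, H₁⟩ := ds1_slip h (k + 1)
  obtain ⟨C₂, hC₂, H₂⟩ := Bn.bilin (d := d) (ContinuousLinearMap.lsmul ℝ ℝ : ℝ →L[ℝ] Ed d →L[ℝ] Ed d) k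
  refine ⟨C₀ * (C₂ * (‖ds1_tr d‖ * C₁ * C₁)), by positivity, fun r V V' A A' hV hV' hA hA' hb hb' => ?_⟩
  have hO := strip_open h r
  have hsub : strip D z r ⊆ D := ds1_sub r
  have hs := (slip_cf h hV).bd
  have hs' := (slip_cf h hV').bd
  have e1 : Bn (strip D z r) k (C₁ * A) (fderiv ℝ (slip z δ V)) := Bn.fderiv hO (H₁ r V A hV hA hb)
  have e2 : Bn (strip D z r) k (‖ds1_tr d‖ * (C₁ * A)) (dv (slip z δ V)) :=
    Bn.congr hO (Bn.clm hO (ds1_tr d) ((hs.fderiv hD).1.mono hsub) e1) fun x _ => (ds1_tr_apply _ x).symm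
  have e3 : Bn (strip D z r) k (C₁ * A') (slip z δ V') := Bn.mono (H₁ r V' A' hV' hA' hb') (Nat.le_succ k) le_rfl
  have e4 : Bn (strip D z r) k (C₂ * (‖ds1_tr d‖ * (C₁ * A) * (C₁ * A'))) (fun x => dv (slip z δ V) x • slip z δ V' x) :=
    H₂ _ hO _ _ _ _ (by positivity) (by positivity) ((hs.dv hD).1.mono hsub) (hs'.1.mono hsub) e2 e3
  refine Bn.mono (H₀ r _ _ (BD.smul hD (hs.dv hD) hs') (by positivity) e4) le_rfl (le_of_eq ?_)
  ring

theorem quadB_bn (h : Dom D z δ) (k : ℕ) : ∃ C, 0 ≤ C ∧ ∀ (r : ℝ) (V V' : Ed d → Ed d) (A A' : ℝ), BD D V → BD D V' →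
    0 ≤ A → 0 ≤ A' → Bn (strip D z r) (k + 1) A V → Bn (strip D z r) (k + 1) A' V' →
    Bn (strip D z r) k (C * (A * A')) (ct z δ fun x => fderiv ℝ (slip z δ V) x (slip z δ V' x)) := by
  have hD := ds1_open h
  obtain ⟨C₀, hC₀, H₀⟩ := ct_bn h k
  obtain ⟨C₁, hC₁, H₁⟩ := ds1_slip h (k + 1)
  obtain ⟨C₂, hC₂, H₂⟩ := Bn.bilin (d := d) (ContinuousLinearMap.id ℝ (Ed d →L[ℝ] Ed d)) k
  refine ⟨C₀ * (C₂ * (C₁ * C₁)), by positivity, fun r V V' A A' hV hV' hA hA' hb hb' => ?_⟩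
  have hO := strip_open h r
  have hsub : strip D z r ⊆ D := ds1_sub r
  have hs := (slip_cf h hV).bd
  have hs' := (slip_cf h hV').bd
  have e1 : Bn (strip D z r) k (C₁ * A) (fderiv ℝ (slip z δ V)) := Bn.fderiv hO (H₁ r V A hV hA hb)
  have e3 : Bn (strip D z r) k (C₁ * A') (slip z δ V') := Bn.mono (H₁ r V' A' hV' hA' hb') (Nat.le_succ k) le_rfl
  have e4 : Bn (strip D z r) k (C₂ * ((C₁ * A) * (C₁ * A'))) (fun x => fderiv ℝ (slip z δ V) x (slip z δ V' x)) :=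
    H₂ _ hO _ _ _ _ (by positivity) (by positivity) ((hs.fderiv hD).1.mono hsub) (hs'.1.mono hsub) e1 e3
  refine Bn.mono (H₀ r _ _ (BD.fderiv_apply hD hs hs') (by positivity) e4) le_rfl (le_of_eq ?_)
  ring

end Pool.Agent.Lib.MP_79abb3_an.W
end

section

/-!
Theorem W, block D, part T1b: forced layers.
-/

set_option autoImplicit false
set_option linter.unusedSectionVars false

open MeasureTheory Set Filter Topology Function
open scoped ENNReal RealInnerProductSpace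

namespace Pool.Agent.Lib.MP_79abb3_an.W

variable {d : ℕ} {D B : Set (Ed d)} {z : Ed d → ℝ} {δ : ℝ} {σ : Ed d → Ed d} {a c : ℝ → ℝ}

private theorem dt1b_zpow_neg_one {z : Ed d → ℝ} {X : Fam d (Ed d)} (h : Lb D z 0 X) :
    Lb D z (-1) fun ε t x => ε⁻¹ • X ε t x := by
  have h1 := h.zsmul (-1)
  rw [show ((-1 : ℤ) + 0) = -1 by norm_num] at h1
  refine h1.congr fun ε _ t x _ => ?_
  rw [zpow_neg_one]

private theorem dt1b_bd (hb : Bornology.IsBounded D) {f : Ed d → ℝ} (hf : Smo f) : BD D f := by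
  have hf' : ContDiff ℝ ((⊤ : ℕ∞) : WithTop ℕ∞) f := hf
  refine ⟨hf'.contDiffOn, fun k => ?_⟩
  have h1 : Continuous (iteratedFDeriv ℝ k f) :=
    ContDiff.continuous_iteratedFDeriv (n := ((⊤ : ℕ∞) : WithTop ℕ∞)) (by exact_mod_cast le_top) hf'
  obtain ⟨C, hC⟩ := hb.isCompact_closure.exists_bound_of_continuousOn h1.continuousOn
  exact ⟨C, fun x hx => hC x (subset_closure hx)⟩

/-- **Forced layers**: for a term `ε⁻² c f v` and forced profiles for `f`: layers of order `0` with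
`∂_t Y - ΔY = - ε⁻² c f v + negligible`, whose trace (with the correctors `P`, `E`) is `c (m σ + ε M ℓ(σ))`,
`σ = ct v`. (`Y = lay c K G σ` plus the correction of `ε c τ(θ) ℓ(σ)`.) -/
theorem forced (hS : Stg D B z δ) (hc : CB c) {f K G : ℝ → ℝ → ℝ} {m M : ℝ} {τ : ℝ → ℝ} (hf : f ∈ PR univ)
    (hF : IsFD f m M K G τ) {v : Ed d → Ed d} (hv : CV D z δ v) :
    ∃ Y P E : Fam d (Ed d), IsLay D z 0 Y ∧ PLay D B 1 P ∧ IsCr D E ∧ Van c Y ∧ Van c P ∧ Van c E ∧
      (Ng D B z fun ε t x => Hop Y ε t x + (ε ^ 2)⁻¹ • atm z c f v ε t x) ∧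
      Tz D z fun ε t x => Y ε t x + P ε t x + E ε t x - c t • (m • ct z δ v x + (ε * M) • ell z (ct z δ v) x) := by
  have hd := hS.dom
  have hD : IsOpen D := hd.col.isOpen
  have hz : ∀ x ∈ D, 0 < z x := fun x hx => (hd.pos x).1 hx
  have hσ : CF D z δ (ct z δ v) := ct_cf hd hv.bd
  obtain ⟨Y1, P, E, hY1, hP, hE, vY, vP, vE, hT⟩ := trace_corr_eps (B := B) hS hc hF.hτ hσ
  have hL0 : IsLay D z 0 (lay z c K G (ct z δ v)) := lay_isLay hd hc hF.hK hF.hG hF.prim hσ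
  refine ⟨fun ε t x => lay z c K G (ct z δ v) ε t x + Y1 ε t x, P, E, hL0.add hd hY1.1, hP, hE, ?_, vP, vE, ?_, ?_⟩
  · intro ε t x h0
    show lay z c K G (ct z δ v) ε t x + Y1 ε t x = 0
    rw [vY ε t x h0, add_zero]
    simp only [lay, atm, h0, zero_mul, zero_smul, smul_zero, add_zero]
  · -- the residual
    have hK' : pze K ∈ PR univ := PR.pze hF.hK
    have hGK : (fun θ ζ => pth G θ ζ - pze K θ ζ) ∈ PR univ := Submodule.sub_mem _ (PR.pth hF.hG) hK'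
    have hw : BD D fun y => lap z y • ct z δ v y + (2 : ℝ) • fderiv ℝ (ct z δ v) y (gd z y) :=
      (CV.add hd (CV.smul hd (dt1b_bd hd.bdd hd.smo.lap) hσ.toCV)
        (CV.const_smul hd 2 (CV.trn' hd hd.bd_n hσ.toCV))).bd
    have h1 := (lay_hop hd hc hF.hK hF.hG hF.prim hσ).mono hz (m' := -1) (by norm_num)
    have h2 : Lb D z (-1) fun ε t x => ε⁻¹ • atm z c (pze K)
        (fun y => lap z y • ct z δ v y + (2 : ℝ) • fderiv ℝ (ct z δ v) y (gd z y)) ε t x :=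
      dt1b_zpow_neg_one (atm_lb hd hc hK' hw)
    have h3 : Lb D z (-1) fun ε t x => ε⁻¹ • atm z c (fun θ ζ => pth G θ ζ - pze K θ ζ) (ell z (ct z δ v)) ε t x :=
      dt1b_zpow_neg_one (atm_lb hd hc hGK (CV.ell hd hσ.toCV).bd)
    have h4 := Ng.main_ct hS hc hf hv
    have h5 : Lb D z (-1) (Hop Y1) := by
      have h6 := hY1.2
      rwa [show ((0 : ℤ) - 1) = -1 by norm_num] at h6
    refine ((((Ng.of_lb hS h1).sub hS (Ng.of_lb hS h2)).add hS (Ng.of_lb hS h3)).add hS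
      (h4.add hS (Ng.of_lb hS h5))).congr fun ε hε t x hx => ?_
    have e1 : Hop (fun ε t x => lay z c K G (ct z δ v) ε t x + Y1 ε t x) ε t x =
        Hop (lay z c K G (ct z δ v)) ε t x + Hop Y1 ε t x := Hop_add hD hL0.fs hY1.1.fs hε t hx.1
    have e2 : atm z c (fun θ ζ => pth K θ ζ - pze (pze K) θ ζ) (ct z δ v) ε t x =
        -atm z c f (ct z δ v) ε t x := by
      simp only [atm]
      rw [hF.heat, mul_neg, neg_smul]
    show Hop (fun ε t x => lay z c K G (ct z δ v) ε t x + Y1 ε t x) ε t x + (ε ^ 2)⁻¹ • atm z c f v ε t x = _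
    rw [e1, e2, smul_neg]
    abel
  · -- the trace
    intro ε hε t
    have h1 := lay_trace hd hc hF.hK hF.hG hσ ε hε t
    have h2 := hT ε hε t
    refine (h1.add h2).congr fun x _ => ?_
    simp only [btm, hF.tK, hF.tG]
    have e3 : (c t * (M + τ (t / ε ^ 2))) • ell z (ct z δ v) x =
        (c t * M) • ell z (ct z δ v) x + (c t * τ (t / ε ^ 2)) • ell z (ct z δ v) x := by
      rw [mul_add, add_smul]
    rw [e3]
    module

end Pool.Agent.Lib.MP_79abb3_an.W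
end

section

/-!
Theorem W, block D, part X2b: forced layers.
-/

set_option autoImplicit false
set_option linter.unusedSectionVars false

open MeasureTheory Set Filter Topology Function
open scoped ENNReal RealInnerProductSpace

namespace Pool.Agent.Lib.MP_79abb3_an.W

variable {d : ℕ} {D B : Set (Ed d)} {z : Ed d → ℝ} {δ : ℝ} {ι : Type} [Fintype ι]

/-- The slow tangential trace of the forced layers (`m = mA, mB, mC`). -/
noncomputable def slowT (z : Ed d → ℝ) (δ : ℝ) (mA mB mC : ℝ → ℝ → ℝ) (k : ι → ℕ) (φ : ι → ℝ) (V : ι → Ed d → Ed d)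
    (x : Ed d) : Ed d :=
  ∑ i, ∑ j, if k i = k j then
    (mA (φ i) (φ j) / k i) • ct z δ (vA (slip z δ (V i)) (slip z δ (V j))) x +
    (mB (φ i) (φ j) / k i) • ct z δ (vB (slip z δ (V i)) (slip z δ (V j))) x +
    (mC (φ i) (φ j) / k i) • ct z δ (vB (slip z δ (V j)) (slip z δ (V i))) x else 0

variable {k : ι → ℕ} {φ : ι → ℝ} {V : ι → Ed d → Ed d} {q : ι → Ed d → ℝ} {a : ℝ → ℝ}

/-! ### Divergence free fields of class `BB(D)` -/

private def Dx2bF (D : Set (Ed d)) (v : Ed d → Ed d) : Prop := BD D v ∧ ∀ x ∈ D, dv v x = 0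

private theorem Dx2bF.add (hD : IsOpen D) {v w : Ed d → Ed d} (hv : Dx2bF D v) (hw : Dx2bF D w) :
    Dx2bF D fun x => v x + w x := by
  refine ⟨BD.add hD hv.1 hw.1, fun x hx => ?_⟩
  rw [dv_add_at (BD.diff hD hv.1 hx) (BD.diff hD hw.1 hx), hv.2 x hx, hw.2 x hx, add_zero]

private theorem Dx2bF.const_smul (hD : IsOpen D) (c : ℝ) {v : Ed d → Ed d} (hv : Dx2bF D v) :
    Dx2bF D fun x => c • v x := by
  refine ⟨BD.const_smul hD c hv.1, fun x hx => ?_⟩
  rw [dv_const_smul_at c (BD.diff hD hv.1 hx), hv.2 x hx, mul_zero]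

private theorem Dx2bF.sum (hD : IsOpen D) {κ : Type} (s : Finset κ) {v : κ → Ed d → Ed d} (hv : ∀ i ∈ s, Dx2bF D (v i)) :
    Dx2bF D fun x => ∑ i ∈ s, v i x := by
  refine ⟨BD.sum hD s fun i hi => (hv i hi).1, fun x hx => ?_⟩
  rw [dv_sum_at s fun i hi => BD.diff hD (hv i hi).1 hx]
  exact Finset.sum_eq_zero fun i hi => (hv i hi).2 x hx

/-! ### Forced packages -/

private def Dx2bP (D B : Set (Ed d)) (z : Ed d → ℝ) (a : ℝ → ℝ) (F S : Fam d (Ed d)) : Prop :=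
  ∃ Y P E : Fam d (Ed d), IsLay D z 0 Y ∧ PLay D B 1 P ∧ IsCr D E ∧ Van a Y ∧ Van a P ∧ Van a E ∧
    (Ng D B z fun ε t x => Hop Y ε t x + F ε t x) ∧
    Tz D z fun ε t x => Y ε t x + P ε t x + E ε t x - S ε t x

private theorem Dx2bP.congr {a : ℝ → ℝ} {F S F' S' : Fam d (Ed d)} (h : Dx2bP D B z a F S)
    (hF : ∀ ε t x, F' ε t x = F ε t x) (hS : ∀ ε t x, S' ε t x = S ε t x) : Dx2bP D B z a F' S' := by
  have e1 : F' = F := by
    funext ε t x
    exact hF ε t x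
  have e2 : S' = S := by
    funext ε t x
    exact hS ε t x
  rw [e1, e2]
  exact h

private theorem dx2b_play_sum (hD : IsOpen D) {κ : Type} (s : Finset κ) {m : ℤ} {X : κ → Fam d (Ed d)}
    (h : ∀ i ∈ s, PLay D B m (X i)) : PLay D B m fun ε t x => ∑ i ∈ s, X i ε t x :=
  ⟨Bkf.sum hD s fun i hi => (h i hi).1, Dfr.sum hD s (fun i hi => (h i hi).1.1) fun i hi => (h i hi).2.1,
    Pot.sum s fun i hi => (h i hi).2.2⟩

private theorem dx2b_play_add (hD : IsOpen D) {m : ℤ} {X Y : Fam d (Ed d)}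
    (h : PLay D B m X) (h' : PLay D B m Y) : PLay D B m fun ε t x => X ε t x + Y ε t x :=
  ⟨Bkf.add hD h.1 h'.1, Dfr.add hD h.1.1 h'.1.1 h.2.1 h'.2.1, Pot.add h.2.2 h'.2.2⟩

private theorem Dx2bP.add (hS : Stg D B z δ) {a : ℝ → ℝ} {F S F' S' : Fam d (Ed d)} (h : Dx2bP D B z a F S)
    (h' : Dx2bP D B z a F' S') :
    Dx2bP D B z a (fun ε t x => F ε t x + F' ε t x) (fun ε t x => S ε t x + S' ε t x) := by
  have hD : IsOpen D := hS.dom.isOpen
  obtain ⟨Y, P, E, h1, h2, h3, h4, h5, h6, h7, h8⟩ := h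
  obtain ⟨Y', P', E', k1, k2, k3, k4, k5, k6, k7, k8⟩ := h'
  refine ⟨fun ε t x => Y ε t x + Y' ε t x, fun ε t x => P ε t x + P' ε t x, fun ε t x => E ε t x + E' ε t x,
    IsLay.add hS.dom h1 k1, dx2b_play_add hD h2 k2, IsCr.add hD h3 k3,
    fun ε t x ht => by simp only [h4 ε t x ht, k4 ε t x ht, add_zero],
    fun ε t x ht => by simp only [h5 ε t x ht, k5 ε t x ht, add_zero],
    fun ε t x ht => by simp only [h6 ε t x ht, k6 ε t x ht, add_zero], ?_, fun ε hε t => ?_⟩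
  · refine Ng.congr (Ng.add hS h7 k7) fun ε hε t x hx => ?_
    rw [Hop_add hD h1.fs k1.fs hε t hx.1]
    module
  · refine Oz.congr (Oz.add (h8 ε hε t) (k8 ε hε t)) fun x hx => ?_
    beta_reduce
    module

private theorem Dx2bP.sum (hS : Stg D B z δ) {a : ℝ → ℝ} {κ : Type} [Fintype κ] {F S : κ → Fam d (Ed d)}
    (h : ∀ i, Dx2bP D B z a (F i) (S i)) :
    Dx2bP D B z a (fun ε t x => ∑ i, F i ε t x) (fun ε t x => ∑ i, S i ε t x) := by
  have hD : IsOpen D := hS.dom.isOpen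
  choose Y P E h1 h2 h3 h4 h5 h6 h7 h8 using h
  refine ⟨fun ε t x => ∑ i, Y i ε t x, fun ε t x => ∑ i, P i ε t x, fun ε t x => ∑ i, E i ε t x,
    IsLay.sum hS.dom Finset.univ fun i _ => h1 i, dx2b_play_sum hD Finset.univ fun i _ => h2 i,
    IsCr.sum hD Finset.univ fun i _ => h3 i,
    fun ε t x ht => Finset.sum_eq_zero fun i _ => h4 i ε t x ht,
    fun ε t x ht => Finset.sum_eq_zero fun i _ => h5 i ε t x ht,
    fun ε t x ht => Finset.sum_eq_zero fun i _ => h6 i ε t x ht, ?_, fun ε hε t => ?_⟩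
  · refine Ng.congr (Ng.sum hS Finset.univ fun i _ => h7 i) fun ε hε t x hx => ?_
    rw [Hop_sum hD Finset.univ (fun i _ => (h1 i).fs) hε t hx.1, Finset.sum_add_distrib]
  · refine Oz.congr (Oz.sum Finset.univ fun i _ => h8 i ε hε t) fun x hx => ?_
    simp only [Finset.sum_add_distrib, Finset.sum_sub_distrib]

private theorem dx2b_forced (hS : Stg D B z δ) {a c : ℝ → ℝ} (hc : CB c) (hac : ∀ t, a t = 0 → c t = 0)
    {f K G : ℝ → ℝ → ℝ} {m M : ℝ} {τ : ℝ → ℝ} (hf : f ∈ PR univ) (hF : IsFD f m M K G τ) {v : Ed d → Ed d}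
    (hv : CV D z δ v) :
    Dx2bP D B z a (fun ε t x => (ε ^ 2)⁻¹ • atm z c f v ε t x)
      (fun ε t x => c t • (m • ct z δ v x + (ε * M) • ell z (ct z δ v) x)) := by
  obtain ⟨Y, P, E, h1, h2, h3, h4, h5, h6, h7, h8⟩ := forced hS hc hf hF hv
  exact ⟨Y, P, E, h1, h2, h3, fun ε t x ht => h4 ε t x (hac t ht), fun ε t x ht => h5 ε t x (hac t ht),
    fun ε t x ht => h6 ε t x (hac t ht), h7, h8⟩

private theorem dx2b_cvA (hF : WFam D B z δ k V q) (i j : ι) :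
    CV D z δ (vA (slip z δ (V i)) (slip z δ (V j))) := by
  have hσ : ∀ i, CF D z δ (slip z δ (V i)) := fun i => slip_cf hF.stg.dom (hF.wave i).bd
  exact CV.smul' hF.stg.dom (CV.dv hF.stg.dom (hσ i).toCV) (hσ j).bd

private theorem dx2b_cvB (hF : WFam D B z δ k V q) (i j : ι) :
    CV D z δ (vB (slip z δ (V i)) (slip z δ (V j))) := by
  have hσ : ∀ i, CF D z δ (slip z δ (V i)) := fun i => slip_cf hF.stg.dom (hF.wave i).bd
  exact CV.trn hF.stg.dom (hσ i).toCV (hσ j).bd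

private theorem dx2b_cvL (hF : WFam D B z δ k V q) (i : ι) :
    CV D z δ (vL z (slip z δ (V i))) := by
  have hσ : ∀ i, CF D z δ (slip z δ (V i)) := fun i => slip_cf hF.stg.dom (hF.wave i).bd
  have hz := hF.stg.dom.bd_z
  exact CV.add hF.stg.dom (CV.smul hF.stg.dom (BD.lap hF.stg.dom.isOpen hz) (hσ i).toCV)
    (CV.const_smul hF.stg.dom 2 (CV.trn' hF.stg.dom hF.stg.dom.bd_n (hσ i).toCV))

private theorem dx2b_ell (hS : Stg D B z δ) {v : Ed d → Ed d} (hv : CV D z δ v) :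
    Dx2bF D (ell z (ct z δ v)) := by
  have h1 := ct_cf hS.dom hv.bd
  exact ⟨(CV.ell hS.dom h1.toCV).bd, fun x hx => ell_div hS.dom h1.bd hx⟩

/-- **All forced layers.** `mA, mB, mC` are universal functions. `FD_A`, .., `FD_L`, `forced` for every term, sums. `M1` is
divergence free (`ell_div`). -/
theorem forced_sum : ∃ mA mB mC : ℝ → ℝ → ℝ, ∀ {d : ℕ} {D B : Set (Ed d)} {z : Ed d → ℝ} {δ : ℝ} {ι : Type} [Fintype ι]
    {k : ι → ℕ} {φ : ι → ℝ} {V : ι → Ed d → Ed d} {q : ι → Ed d → ℝ}, WFam D B z δ k V q →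
    ∃ M1 : Ed d → Ed d, BD D M1 ∧ (∀ x ∈ D, dv M1 x = 0) ∧ ∀ a : ℝ → ℝ, CB a →
    ∃ Y P E : Fam d (Ed d), IsLay D z 0 Y ∧ PLay D B 1 P ∧ IsCr D E ∧ Van a Y ∧ Van a P ∧ Van a E ∧
      (Ng D B z fun ε t x => Hop Y ε t x +
        ((∑ i, (ε ^ 2)⁻¹ • atm z a (fun θ ζ => -pze (Kh (k i) (φ i)) θ ζ) (vL z (slip z δ (V i))) ε t x) +
         ∑ i, ∑ j, ((ε ^ 2)⁻¹ • atm z (fun t => a t ^ 2) (fA (k i) (φ i) (k j) (φ j))
            (vA (slip z δ (V i)) (slip z δ (V j))) ε t x +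
           (ε ^ 2)⁻¹ • atm z (fun t => a t ^ 2) (fB (k i) (φ i) (k j) (φ j)) (vB (slip z δ (V i)) (slip z δ (V j))) ε t x +
           (ε ^ 2)⁻¹ • atm z (fun t => a t ^ 2) (fC (k i) (φ i) (k j) (φ j))
             (vB (slip z δ (V j)) (slip z δ (V i))) ε t x))) ∧
      Tz D z fun ε t x => Y ε t x + P ε t x + E ε t x -
        (a t ^ 2) • (slowT z δ mA mB mC k φ V x + ε • M1 x) := by
  obtain ⟨mA, MA, hA⟩ := FD_A
  obtain ⟨mB, MB, hB⟩ := FD_B
  obtain ⟨mC, MC, hC⟩ := FD_C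
  refine ⟨mA, mB, mC, ?_⟩
  intro d D B z δ ι _ k φ V q hF
  have hS := hF.stg
  have hD : IsOpen D := hS.dom.isOpen
  refine ⟨fun x => ∑ i, ∑ j,
    (((if k i = k j then MA (φ i) (φ j) / (k i * √(k i)) else 0) • ell z (ct z δ (vA (slip z δ (V i)) (slip z δ (V j)))) x +
    (if k i = k j then MB (φ i) (φ j) / (k i * √(k i)) else 0) • ell z (ct z δ (vB (slip z δ (V i)) (slip z δ (V j)))) x) +
    (if k i = k j then MC (φ i) (φ j) / (k i * √(k i)) else 0) •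
      ell z (ct z δ (vB (slip z δ (V j)) (slip z δ (V i)))) x), ?_⟩
  have hM : Dx2bF D fun x => ∑ i, ∑ j,
    (((if k i = k j then MA (φ i) (φ j) / (k i * √(k i)) else 0) • ell z (ct z δ (vA (slip z δ (V i)) (slip z δ (V j)))) x +
    (if k i = k j then MB (φ i) (φ j) / (k i * √(k i)) else 0) • ell z (ct z δ (vB (slip z δ (V i)) (slip z δ (V j)))) x) +
    (if k i = k j then MC (φ i) (φ j) / (k i * √(k i)) else 0) •
      ell z (ct z δ (vB (slip z δ (V j)) (slip z δ (V i)))) x) :=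
    Dx2bF.sum hD Finset.univ fun i _ => Dx2bF.sum hD Finset.univ fun j _ =>
      Dx2bF.add hD (Dx2bF.add hD (Dx2bF.const_smul hD _ (dx2b_ell hS (dx2b_cvA hF i j)))
        (Dx2bF.const_smul hD _ (dx2b_ell hS (dx2b_cvB hF i j))))
        (Dx2bF.const_smul hD _ (dx2b_ell hS (dx2b_cvB hF j i)))
  refine ⟨hM.1, hM.2, fun a ha => ?_⟩
  have hL1 : ∀ i, Dx2bP D B z a
      (fun ε t x => (ε ^ 2)⁻¹ • atm z a (fun θ ζ => -pze (Kh (k i) (φ i)) θ ζ) (vL z (slip z δ (V i))) ε t x)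
      (fun ε t x => 0) := fun i => by
    obtain ⟨K, G, τ, h⟩ := FD_L (hF.k1 i) (φ i)
    have hm : (fun θ ζ => -pze (Kh (k i) (φ i)) θ ζ) ∈ PR univ := by
      have h1 : (fun θ ζ => (-1 : ℝ) * pze (Kh (k i) (φ i)) θ ζ) ∈ PR univ :=
        PR.smul (-1) (PR.mono (subset_univ _) (PR.pze (Kh_mem (hF.k1 i) (φ i))))
      simpa only [neg_one_mul] using h1
    refine Dx2bP.congr (dx2b_forced hS ha (fun t ht => ht) hm h (dx2b_cvL hF i)) (fun ε t x => rfl) fun ε t x => ?_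
    simp only [zero_smul, mul_zero, add_zero, smul_zero]
  have h2 : ∀ t, a t = 0 → a t ^ 2 = 0 := fun t ht => by rw [ht]; ring
  have hA1 : ∀ i j, Dx2bP D B z a
      (fun ε t x => (ε ^ 2)⁻¹ • atm z (fun t => a t ^ 2) (fA (k i) (φ i) (k j) (φ j))
        (vA (slip z δ (V i)) (slip z δ (V j))) ε t x)
      (fun ε t x => a t ^ 2 • ((if k i = k j then mA (φ i) (φ j) / k i else 0) •
        ct z δ (vA (slip z δ (V i)) (slip z δ (V j))) x +
        (ε * (if k i = k j then MA (φ i) (φ j) / (k i * √(k i)) else 0)) •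
        ell z (ct z δ (vA (slip z δ (V i)) (slip z δ (V j)))) x)) := fun i j => by
    obtain ⟨K, G, τ, h⟩ := hA (k i) (k j) (φ i) (φ j) (hF.k1 i) (hF.k1 j)
    exact dx2b_forced hS (CB.sq ha) h2 (fA_mem (hF.k1 i) (hF.k1 j)) h (dx2b_cvA hF i j)
  have hB1 : ∀ i j, Dx2bP D B z a
      (fun ε t x => (ε ^ 2)⁻¹ • atm z (fun t => a t ^ 2) (fB (k i) (φ i) (k j) (φ j))
        (vB (slip z δ (V i)) (slip z δ (V j))) ε t x)
      (fun ε t x => a t ^ 2 • ((if k i = k j then mB (φ i) (φ j) / k i else 0) •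
        ct z δ (vB (slip z δ (V i)) (slip z δ (V j))) x +
        (ε * (if k i = k j then MB (φ i) (φ j) / (k i * √(k i)) else 0)) •
        ell z (ct z δ (vB (slip z δ (V i)) (slip z δ (V j)))) x)) := fun i j => by
    obtain ⟨K, G, τ, h⟩ := hB (k i) (k j) (φ i) (φ j) (hF.k1 i) (hF.k1 j)
    exact dx2b_forced hS (CB.sq ha) h2 (fB_mem (hF.k1 i) (hF.k1 j)) h (dx2b_cvB hF i j)
  have hC1 : ∀ i j, Dx2bP D B z a
      (fun ε t x => (ε ^ 2)⁻¹ • atm z (fun t => a t ^ 2) (fC (k i) (φ i) (k j) (φ j))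
        (vB (slip z δ (V j)) (slip z δ (V i))) ε t x)
      (fun ε t x => a t ^ 2 • ((if k i = k j then mC (φ i) (φ j) / k i else 0) •
        ct z δ (vB (slip z δ (V j)) (slip z δ (V i))) x +
        (ε * (if k i = k j then MC (φ i) (φ j) / (k i * √(k i)) else 0)) •
        ell z (ct z δ (vB (slip z δ (V j)) (slip z δ (V i)))) x)) := fun i j => by
    obtain ⟨K, G, τ, h⟩ := hC (k i) (k j) (φ i) (φ j) (hF.k1 i) (hF.k1 j)
    exact dx2b_forced hS (CB.sq ha) h2 (fC_mem (hF.k1 i) (hF.k1 j)) h (dx2b_cvB hF j i)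
  have hsum := Dx2bP.add hS (Dx2bP.sum hS hL1) (Dx2bP.sum hS fun i => Dx2bP.sum hS fun j =>
    Dx2bP.add hS (Dx2bP.add hS (hA1 i j) (hB1 i j)) (hC1 i j))
  refine Dx2bP.congr hsum (fun ε t x => rfl) fun ε t x => ?_
  simp only [slowT, Finset.sum_const_zero, zero_add, Finset.smul_sum, ← Finset.sum_add_distrib]
  refine Finset.sum_congr rfl fun i _ => Finset.sum_congr rfl fun j _ => ?_
  by_cases hij : k i = k j
  · simp only [hij, if_true]
    module
  · simp only [hij, if_false]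
    module

end Pool.Agent.Lib.MP_79abb3_an.W
end

section

/-!
Theorem W, block D, part X3c: size of the streaming.
-/

set_option autoImplicit false
set_option linter.unusedSectionVars false

open MeasureTheory Set Filter Topology Function
open scoped ENNReal RealInnerProductSpace

namespace Pool.Agent.Lib.MP_79abb3_an.W

variable {d n : ℕ} {D B : Set (Ed d)} {z : Ed d → ℝ} {δ : ℝ}

private theorem dx3c_open (h : Dom D z δ) : IsOpen D := h.col.isOpen

private theorem dx3c_cf_zero (_h : Dom D z δ) : CF D z δ fun _ => (0 : Ed d) where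
  bd := BD.const (dx3c_open _h) 0
  supp _ _ _ := rfl
  tan _ _ := inner_zero_right _

private theorem dx3c_bdA (h : Dom D z δ) {V V' : Ed d → Ed d} (hV : BD D V) (hV' : BD D V') :
    BD D (vA (slip z δ V) (slip z δ V')) :=
  BD.smul (dx3c_open h) (BD.dv (dx3c_open h) (slip_cf h hV).bd) (slip_cf h hV').bd

private theorem dx3c_bdB (h : Dom D z δ) {V V' : Ed d → Ed d} (hV : BD D V) (hV' : BD D V') :
    BD D (vB (slip z δ V) (slip z δ V')) :=
  BD.fderiv_apply (dx3c_open h) (slip_cf h hV').bd (slip_cf h hV).bd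

private noncomputable def dx3cT (z : Ed d → ℝ) (δ : ℝ) (a b c : ℝ) (σ σ' : Ed d → Ed d) (x : Ed d) : Ed d :=
  a • ct z δ (vA σ σ') x + b • ct z δ (vB σ σ') x + c • ct z δ (vB σ' σ) x

private theorem dx3cT_cf (h : Dom D z δ) (a b c : ℝ) {V V' : Ed d → Ed d} (hV : BD D V) (hV' : BD D V') :
    CF D z δ (dx3cT z δ a b c (slip z δ V) (slip z δ V')) :=
  CF.add h (CF.add h (CF.const_smul h a (ct_cf h (dx3c_bdA h hV hV')))
    (CF.const_smul h b (ct_cf h (dx3c_bdB h hV hV')))) (CF.const_smul h c (ct_cf h (dx3c_bdB h hV' hV)))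

private theorem dx3cT_bn (h : Dom D z δ) : ∃ C, 0 ≤ C ∧ ∀ (r a b c M A A' : ℝ) (V V' : Ed d → Ed d), BD D V → BD D V' →
    0 ≤ A → 0 ≤ A' → |a| ≤ M → |b| ≤ M → |c| ≤ M → Bn (strip D z r) 4 A V → Bn (strip D z r) 4 A' V' →
    Bn (strip D z r) 3 (M * C * (A * A')) (dx3cT z δ a b c (slip z δ V) (slip z δ V')) := by
  obtain ⟨C1, h1, hC1⟩ := quadA_bn h 3
  obtain ⟨C2, h2, hC2⟩ := quadB_bn h 3
  refine ⟨C1 + C2 + C2, by positivity, fun r a b c M A A' V V' hV hV' hA hA' ha hb hc hB hB' => ?_⟩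
  have hO : IsOpen (strip D z r) := strip_open h r
  have hs : strip D z r ⊆ D := fun x hx => hx.1
  have hAA : 0 ≤ A * A' := mul_nonneg hA hA'
  have s1 := ((ct_cf h (dx3c_bdA h hV hV')).bd.1).mono hs
  have s2 := ((ct_cf h (dx3c_bdB h hV hV')).bd.1).mono hs
  have s3 := ((ct_cf h (dx3c_bdB h hV' hV)).bd.1).mono hs
  have t1 := ((CF.const_smul h a (ct_cf h (dx3c_bdA h hV hV'))).bd.1).mono hs
  have t2 := ((CF.const_smul h b (ct_cf h (dx3c_bdB h hV hV'))).bd.1).mono hs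
  have t3 := ((CF.const_smul h c (ct_cf h (dx3c_bdB h hV' hV))).bd.1).mono hs
  have t12 := ((CF.add h (CF.const_smul h a (ct_cf h (dx3c_bdA h hV hV')))
    (CF.const_smul h b (ct_cf h (dx3c_bdB h hV hV')))).bd.1).mono hs
  have b1 : Bn (strip D z r) 3 (C1 * (A * A')) (ct z δ (vA (slip z δ V) (slip z δ V'))) :=
    hC1 r V V' A A' hV hV' hA hA' hB hB'
  have b2 : Bn (strip D z r) 3 (C2 * (A * A')) (ct z δ (vB (slip z δ V) (slip z δ V'))) := by
    rw [mul_comm A A']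
    exact hC2 r V' V A' A hV' hV hA' hA hB' hB
  have b3 : Bn (strip D z r) 3 (C2 * (A * A')) (ct z δ (vB (slip z δ V') (slip z δ V))) :=
    hC2 r V V' A A' hV hV' hA hA' hB hB'
  have e1 := Bn.const_smul hO a s1 b1
  have e2 := Bn.const_smul hO b s2 b2
  have e3 := Bn.const_smul hO c s3 b3
  have e := Bn.add hO t12 t3 (Bn.add hO t1 t2 e1 e2) e3
  refine e.mono le_rfl ?_
  have g1 : |a| * (C1 * (A * A')) ≤ M * (C1 * (A * A')) := mul_le_mul_of_nonneg_right ha (by positivity)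
  have g2 : |b| * (C2 * (A * A')) ≤ M * (C2 * (A * A')) := mul_le_mul_of_nonneg_right hb (by positivity)
  have g3 : |c| * (C2 * (A * A')) ≤ M * (C2 * (A * A')) := mul_le_mul_of_nonneg_right hc (by positivity)
  calc |a| * (C1 * (A * A')) + |b| * (C2 * (A * A')) + |c| * (C2 * (A * A'))
      ≤ M * (C1 * (A * A')) + M * (C2 * (A * A')) + M * (C2 * (A * A')) := add_le_add (add_le_add g1 g2) g3
    _ = M * (C1 + C2 + C2) * (A * A') := by ring

private theorem dx3c_slowT (mA mB mC : ℝ → ℝ → ℝ) (P Q : Fin n → Ed d → Ed d) (x : Ed d) :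
    slowT z δ mA mB mC kk ph (PQ P Q) x = ∑ i : Fin n × Bool, ∑ j : Fin n × Bool,
      (if i.1 = j.1 then
        dx3cT z δ (mA (ph i) (ph j) / (kk i : ℕ)) (mB (ph i) (ph j) / (kk i : ℕ)) (mC (ph i) (ph j) / (kk i : ℕ))
          (slip z δ (PQ P Q i)) (slip z δ (PQ P Q j))
      else fun _ => 0) x := by
  simp only [slowT]
  refine Finset.sum_congr rfl fun i _ => Finset.sum_congr rfl fun j _ => ?_
  by_cases hij : i.1 = j.1
  · have : kk i = kk j := by simp [kk, hij]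
    rw [if_pos this, if_pos hij]
    rfl
  · have : ¬ kk i = kk j := by
      intro hk
      apply hij
      have := Nat.pow_right_injective (le_refl 2 |>.trans (by norm_num) : 2 ≤ 4) hk
      exact Fin.ext this
    rw [if_neg this, if_neg hij]

private theorem dx3c_M (m : ℝ → ℝ → ℝ) : ∃ M, 0 ≤ M ∧ ∀ (n : ℕ) (i j : Fin n × Bool), |m (ph i) (ph j)| ≤ M := by
  refine ⟨|m (-(Real.pi / 2)) (-(Real.pi / 2))| + |m (-(Real.pi / 2)) 0| + |m 0 (-(Real.pi / 2))| + |m 0 0|,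
    by positivity, fun n i j => ?_⟩
  have a1 := abs_nonneg (m (-(Real.pi / 2)) (-(Real.pi / 2)))
  have a2 := abs_nonneg (m (-(Real.pi / 2)) 0)
  have a3 := abs_nonneg (m 0 (-(Real.pi / 2)))
  have a4 := abs_nonneg (m 0 0)
  unfold ph
  split_ifs <;> linarith

/-- **Size of the streaming**: `(2^j c_j)² / 4^j = c_j²`. -/
theorem slowT_small (hS : Stg D B z δ) (mA mB mC : ℝ → ℝ → ℝ) : ∃ K₀, 0 ≤ K₀ ∧ ∀ (n : ℕ)
    (P Q : Fin n → Ed d → Ed d) (c : Fin n → ℝ) (r₀ κ : ℝ), (∀ j, Wave D B z (P j)) → (∀ j, Wave D B z (Q j)) →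
    0 < r₀ → (∀ j, 0 ≤ c j) → ∑ j, c j ^ 2 ≤ κ → (∀ j : Fin n, Bn (strip D z r₀) 4 (2 ^ (j : ℕ) * c j) (P j)) →
    (∀ j : Fin n, Bn (strip D z r₀) 4 (2 ^ (j : ℕ) * c j) (Q j)) →
    CF D z δ (slowT z δ mA mB mC kk ph (PQ P Q)) ∧
      Bn (strip D z r₀) 3 (K₀ * κ) (slowT z δ mA mB mC kk ph (PQ P Q)) := by
  have h := hS.dom
  obtain ⟨C, hC0, hC⟩ := dx3cT_bn h
  obtain ⟨M1, h1, hM1⟩ := dx3c_M mA
  obtain ⟨M2, h2, hM2⟩ := dx3c_M mB
  obtain ⟨M3, h3, hM3⟩ := dx3c_M mC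
  refine ⟨4 * ((M1 + M2 + M3) * C), by positivity, fun n P Q c r₀ κ hP hQ hr hc hκ hBP hBQ => ?_⟩
  have hO : IsOpen (strip D z r₀) := strip_open h r₀
  have hs : strip D z r₀ ⊆ D := fun x hx => hx.1
  have hbd : ∀ i, BD D (PQ P Q i) := fun i => by
    unfold PQ
    split_ifs
    · exact (hQ _).bd
    · exact (hP _).bd
  have hbn : ∀ i : Fin n × Bool, Bn (strip D z r₀) 4 (2 ^ (i.1 : ℕ) * c i.1) (PQ P Q i) := fun i => by
    unfold PQ
    split_ifs
    · exact hBQ _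
    · exact hBP _
  have hcf : ∀ i j : Fin n × Bool, CF D z δ (if i.1 = j.1 then
        dx3cT z δ (mA (ph i) (ph j) / (kk i : ℕ)) (mB (ph i) (ph j) / (kk i : ℕ)) (mC (ph i) (ph j) / (kk i : ℕ))
          (slip z δ (PQ P Q i)) (slip z δ (PQ P Q j))
      else fun _ => 0) := fun i j => by
    split_ifs
    · exact dx3cT_cf h _ _ _ (hbd i) (hbd j)
    · exact dx3c_cf_zero h
  have hterm : ∀ i j : Fin n × Bool, Bn (strip D z r₀) 3 (if i.1 = j.1 then (M1 + M2 + M3) * C * c i.1 ^ 2 else 0)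
      (if i.1 = j.1 then
        dx3cT z δ (mA (ph i) (ph j) / (kk i : ℕ)) (mB (ph i) (ph j) / (kk i : ℕ)) (mC (ph i) (ph j) / (kk i : ℕ))
          (slip z δ (PQ P Q i)) (slip z δ (PQ P Q j))
      else fun _ => 0) := fun i j => by
    by_cases hij : i.1 = j.1
    · rw [if_pos hij, if_pos hij]
      have hk : (0 : ℝ) < (kk i : ℕ) := by
        simp only [kk, Nat.cast_pow, Nat.cast_ofNat]
        positivity
      have hdiv : ∀ {m : ℝ}, |m| ≤ M1 + M2 + M3 → |m / (kk i : ℕ)| ≤ (M1 + M2 + M3) / (kk i : ℕ) := fun {m} hm => by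
        rw [abs_div, abs_of_pos hk]
        exact div_le_div_of_nonneg_right hm hk.le
      have hb := hC r₀ (mA (ph i) (ph j) / (kk i : ℕ)) (mB (ph i) (ph j) / (kk i : ℕ)) (mC (ph i) (ph j) / (kk i : ℕ))
        ((M1 + M2 + M3) / (kk i : ℕ)) (2 ^ (i.1 : ℕ) * c i.1) (2 ^ (j.1 : ℕ) * c j.1) (PQ P Q i) (PQ P Q j)
        (hbd i) (hbd j) (mul_nonneg (by positivity) (hc _)) (mul_nonneg (by positivity) (hc _))
        (hdiv (by linarith [hM1 n i j])) (hdiv (by linarith [hM2 n i j])) (hdiv (by linarith [hM3 n i j]))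
        (hbn i) (hbn j)
      refine hb.mono le_rfl (le_of_eq ?_)
      rw [← hij]
      have hk' : ((kk i : ℕ) : ℝ) = 2 ^ (i.1 : ℕ) * 2 ^ (i.1 : ℕ) := by
        simp only [kk, Nat.cast_pow, Nat.cast_ofNat]
        rw [← mul_pow]; norm_num
      rw [hk']
      field_simp
    · rw [if_neg hij, if_neg hij]
      intro k _ x _
      rw [iteratedFDeriv_fun_zero]
      simp
  have hcfs : ∀ i : Fin n × Bool, CF D z δ fun x => ∑ j : Fin n × Bool, (if i.1 = j.1 then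
        dx3cT z δ (mA (ph i) (ph j) / (kk i : ℕ)) (mB (ph i) (ph j) / (kk i : ℕ)) (mC (ph i) (ph j) / (kk i : ℕ))
          (slip z δ (PQ P Q i)) (slip z δ (PQ P Q j))
      else fun _ => 0) x := fun i => CF.sum h Finset.univ fun j _ => hcf i j
  have e : slowT z δ mA mB mC kk ph (PQ P Q) = fun x => ∑ i : Fin n × Bool, ∑ j : Fin n × Bool, (if i.1 = j.1 then
        dx3cT z δ (mA (ph i) (ph j) / (kk i : ℕ)) (mB (ph i) (ph j) / (kk i : ℕ)) (mC (ph i) (ph j) / (kk i : ℕ))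
          (slip z δ (PQ P Q i)) (slip z δ (PQ P Q j))
      else fun _ => 0) x := funext fun x => dx3c_slowT mA mB mC P Q x
  rw [e]
  refine ⟨CF.sum h Finset.univ fun i _ => hcfs i, ?_⟩
  have hb1 : ∀ i : Fin n × Bool, Bn (strip D z r₀) 3
      (∑ j : Fin n × Bool, if i.1 = j.1 then (M1 + M2 + M3) * C * c i.1 ^ 2 else 0)
      (fun x => ∑ j : Fin n × Bool, (if i.1 = j.1 then
        dx3cT z δ (mA (ph i) (ph j) / (kk i : ℕ)) (mB (ph i) (ph j) / (kk i : ℕ)) (mC (ph i) (ph j) / (kk i : ℕ))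
          (slip z δ (PQ P Q i)) (slip z δ (PQ P Q j))
      else fun _ => 0) x) := fun i =>
    Bn.sum hO Finset.univ (fun j _ => ((hcf i j).bd.1).mono hs) fun j _ => hterm i j
  have hb2 := Bn.sum hO Finset.univ (fun i _ => ((hcfs i).bd.1).mono hs) fun i _ => hb1 i
  refine hb2.mono le_rfl ?_
  have hsum : ∑ i : Fin n × Bool, ∑ j : Fin n × Bool, (if i.1 = j.1 then (M1 + M2 + M3) * C * c i.1 ^ 2 else 0) =
      4 * ((M1 + M2 + M3) * C) * ∑ j, c j ^ 2 := by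
    rw [Fintype.sum_prod_type, Finset.mul_sum]
    refine Finset.sum_congr rfl fun i _ => ?_
    simp only [Fintype.sum_prod_type, Fintype.sum_bool, Finset.sum_add_distrib, Finset.sum_ite_eq, Finset.mem_univ,
      if_true]
    ring
  rw [hsum]
  exact mul_le_mul_of_nonneg_left hκ (by positivity)

/-- The lift of the streaming: `C0 = - lftD g`, `g` the extension of `slowT` from the walls. -/
theorem slow_lift (hS : Stg D B z δ) (mA mB mC : ℝ → ℝ → ℝ) : ∃ K₀, 0 ≤ K₀ ∧ ∀ (n : ℕ)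
    (P Q : Fin n → Ed d → Ed d) (c : Fin n → ℝ) (r₀ κ : ℝ), (∀ j, Wave D B z (P j)) → (∀ j, Wave D B z (Q j)) →
    0 < r₀ → (∀ j, 0 ≤ c j) → ∑ j, c j ^ 2 ≤ κ → (∀ j : Fin n, Bn (strip D z r₀) 4 (2 ^ (j : ℕ) * c j) (P j)) →
    (∀ j : Fin n, Bn (strip D z r₀) 4 (2 ^ (j : ℕ) * c j) (Q j)) →
    ∃ C0 : Ed d → Ed d, BD D C0 ∧ (∀ x ∈ D, dv C0 x = 0) ∧ (Oz D z fun x => ⟪gd z x, C0 x⟫) ∧
      Bn D 2 (K₀ * κ) C0 ∧ Oz D z fun x => C0 x + slowT z δ mA mB mC kk ph (PQ P Q) x := by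
  have h := hS.dom
  have hD := dx3c_open h
  obtain ⟨K, hK0, hK⟩ := slowT_small hS mA mB mC
  obtain ⟨Cw, hw0, hw⟩ := wall_ext h 3
  obtain ⟨Cl, hl0, hl⟩ := lftD_bn h 2
  refine ⟨Cl * (Cw * K), by positivity, fun n P Q c r₀ κ hP hQ hr hc hκ hBP hBQ => ?_⟩
  obtain ⟨hcf, hbn⟩ := hK n P Q c r₀ κ hP hQ hr hc hκ hBP hBQ
  have hκ0 : 0 ≤ κ := le_trans (Finset.sum_nonneg fun j _ => sq_nonneg _) hκ
  obtain ⟨g, hg, hgo, hgb⟩ := hw _ hcf
  have hρ : min r₀ δ ∈ Ioc 0 δ := ⟨lt_min hr h.δ0, min_le_right _ _⟩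
  have hsub : strip D z (min r₀ δ) ⊆ strip D z r₀ := fun x hx => ⟨hx.1, lt_of_lt_of_le hx.2 (min_le_left _ _)⟩
  have hgB : Bn D 3 (Cw * (K * κ)) g := hgb _ hρ _ (by positivity) (hbn.subset hsub)
  have hlB : Bn D 2 (Cl * (Cw * (K * κ))) (lftD z δ g) := hl g _ hg (by positivity) hgB
  have hbd := lftD_bd h hg
  refine ⟨fun x => -lftD z δ g x, BD.neg hD hbd, fun x hx => ?_, ?_, ?_, ?_⟩
  · have e : dv (fun x => -lftD z δ g x) x = -dv (lftD z δ g) x := by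
      simp only [dv, pd]
      rw [← Finset.sum_neg_distrib]
      refine Finset.sum_congr rfl fun i _ => ?_
      rw [fderiv_fun_neg]
      rfl
    rw [e, lftD_dv h hg x hx, neg_zero]
  · refine (lftD_tan h hg).neg.congr fun x _ => ?_
    rw [inner_neg_right]
  · have e := Bn.const_smul hD (-1) hbd.1 hlB
    rw [abs_neg, abs_one, one_mul] at e
    refine (e.congr hD fun x _ => ?_).mono le_rfl (le_of_eq ?_)
    · rw [neg_one_smul]
    · ring
  · refine ((lftD_sub h hg).add hgo).neg.congr fun x _ => ?_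
    simp only
    abel

end Pool.Agent.Lib.MP_79abb3_an.W
end
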