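import Pool.Agent.Lib.MP_79abb3_an.W.DX1
import Pool.Agent.Lib.MP_79abb3_an.W.DX2c
import Pool.Agent.Lib.MP_79abb3_an.W.DX3b
import Pool.Agent.Lib.MP_79abb3_an.W.DX3c

/-!
Theorem W, block D, part X4: **the main theorem on layers**, and the coupling with a slow field.
-/

set_option autoImplicit false
set_option linter.unusedSectionVars false

open MeasureTheory Set Filter Topology Function
open scoped ENNReal RealInnerProductSpace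

namespace Pool.Agent.Lib.MP_79abb3_an.W

variable {d : ℕ} {D B : Set (Ed d)} {z : Ed d → ℝ} {δ : ℝ}

/-- The data of the waves. -/
structure Wvs (D B : Set (Ed d)) (z : Ed d → ℝ) (n : ℕ) (P Q : Fin n → Ed d → Ed d) (c : Fin n → ℝ) (r₀ κ : ℝ) :
    Prop where
  wP : ∀ j, Wave D B z (P j)
  wQ : ∀ j, Wave D B z (Q j)
  r0 : 0 < r₀
  c0 : ∀ j, 0 ≤ c j
  sc : ∑ j, c j ^ 2 ≤ κ
  bP : ∀ j : Fin n, Bn (strip D z r₀) 4 (2 ^ (j : ℕ) * c j) (P j)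
  bQ : ∀ j : Fin n, Bn (strip D z r₀) 4 (2 ^ (j : ℕ) * c j) (Q j)

/-- The fast potential field `ε⁻¹ a U_1(t/ε²) + a Ψ(t/ε²)`. -/
noncomputable def uPD {n : ℕ} (P Q : Fin n → Ed d → Ed d) (ψ ψ' : Fin n → Ed d → ℝ) (a : ℝ → ℝ) : Fam d (Ed d) :=
  fun ε t x => (ε⁻¹ * a t) • wv P Q (t / ε ^ 2) x + a t • wv (fun j => gd (ψ j)) (fun j => gd (ψ' j)) (t / ε ^ 2) x

/-- The slow field `a² (C0 + ε C1)`. -/
noncomputable def uS (a : ℝ → ℝ) (C0 C1 : Ed d → Ed d) : Fam d (Ed d) := fun ε t x => a t ^ 2 • (C0 x + ε • C1 x)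

/-- The properties of the layers. `u = uPD + uS + R`, `R = RL + RB`. -/
structure Layers (D B : Set (Ed d)) (z : Ed d → ℝ) (K₀ κ A : ℝ) (a : ℝ → ℝ) (fP fS RL RB : Fam d (Ed d)) : Prop where
  lay : IsLay D z (-1) RL
  bk : Bkf D 1 RB
  dvB : Dfr D RB
  ffs : FFS D fun ε t x => fP ε t x + fS ε t x + (RL ε t x + RB ε t x)
  div : Dfr D fun ε t x => fP ε t x + fS ε t x + (RL ε t x + RB ε t x)
  van : Van a fun ε t x => fP ε t x + fS ε t x + (RL ε t x + RB ε t x)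
  van' : Van a fun ε t x => RL ε t x + RB ε t x
  trace : Tz D z fun ε t x => fP ε t x + fS ε t x + (RL ε t x + RB ε t x)
  small : ∃ C, ∀ ε ∈ Ioc (0 : ℝ) 1, ∀ t, ∀ x ∈ D, z x * ‖RL ε t x + RB ε t x‖ +
    z x ^ 2 * ‖fderiv ℝ (fun y => RL ε t y + RB ε t y) x‖ ≤ K₀ * √κ * A + C * ε
  eq : Ng D B z (Res (fun ε t x => fP ε t x + fS ε t x + (RL ε t x + RB ε t x)) fP fS)

/-! ### Congruence -/

private theorem dx4_hop_congr (hD : IsOpen D) {X Y : Fam d (Ed d)} {ε : ℝ} (h : ∀ t, ∀ x ∈ D, X ε t x = Y ε t x)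
    (t : ℝ) {x : Ed d} (hx : x ∈ D) : Hop X ε t x = Hop Y ε t x := by
  have h1 : (fun s => X ε s x) = fun s => Y ε s x := funext fun s => h s x hx
  have h2 : X ε t =ᶠ[𝓝 x] Y ε t := by
    filter_upwards [hD.mem_nhds hx] with y hy using h t y hy
  show deriv (fun s => X ε s x) t - lap (X ε t) x = deriv (fun s => Y ε s x) t - lap (Y ε t) x
  rw [h1, lap_congr h2]

private theorem dx4_trn_congr (hD : IsOpen D) {X Y X' Y' : Fam d (Ed d)} {ε : ℝ}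
    (h : ∀ t, ∀ x ∈ D, X ε t x = X' ε t x) (h' : ∀ t, ∀ x ∈ D, Y ε t x = Y' ε t x)
    (t : ℝ) {x : Ed d} (hx : x ∈ D) : Trn X Y ε t x = Trn X' Y' ε t x := by
  have h2 : Y ε t =ᶠ[𝓝 x] Y' ε t := by
    filter_upwards [hD.mem_nhds hx] with y hy using h' t y hy
  show fderiv ℝ (Y ε t) x (X ε t x) = fderiv ℝ (Y' ε t) x (X' ε t x)
  rw [h2.fderiv_eq, h t x hx]

private theorem dx4_res_congr (hD : IsOpen D) {u P S u' P' S' : Fam d (Ed d)} {ε : ℝ}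
    (hu : ∀ t, ∀ x ∈ D, u ε t x = u' ε t x) (hP : ∀ t, ∀ x ∈ D, P ε t x = P' ε t x)
    (hS : ∀ t, ∀ x ∈ D, S ε t x = S' ε t x) (t : ℝ) {x : Ed d} (hx : x ∈ D) :
    Res u P S ε t x = Res u' P' S' ε t x := by
  unfold Res
  rw [dx4_hop_congr hD hu t hx, dx4_hop_congr hD hS t hx, dx4_trn_congr hD hu hu t hx, dx4_trn_congr hD hP hS t hx,
    dx4_trn_congr hD hS hP t hx, dx4_trn_congr hD hS hS t hx]

private theorem dx4_dfr_congr (hD : IsOpen D) {X Y : Fam d (Ed d)} (hX : Dfr D X)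
    (h : ∀ ε t, ∀ x ∈ D, Y ε t x = X ε t x) : Dfr D Y := by
  intro ε hε t x hx
  have h2 : Y ε t =ᶠ[𝓝 x] X ε t := by
    filter_upwards [hD.mem_nhds hx] with y hy using h ε t y hy
  rw [dv_congr h2]
  exact hX ε hε t x hx

private theorem dx4_ffs_congr {X Y : Fam d (Ed d)} (hX : FFS D X)
    (h : ∀ ε t, ∀ x ∈ D, Y ε t x = X ε t x) : FFS D Y :=
  fun ε hε => FS.congr (hX ε hε) (h ε)

private theorem dx4_ffs_add {X Y : Fam d (Ed d)} (hX : FFS D X) (hY : FFS D Y) :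
    FFS D fun ε t x => X ε t x + Y ε t x := fun ε hε => FS.add (hX ε hε) (hY ε hε)

private theorem dx4_play_add (hD : IsOpen D) {m : ℤ} {X Y : Fam d (Ed d)}
    (h : PLay D B m X) (h' : PLay D B m Y) : PLay D B m fun ε t x => X ε t x + Y ε t x :=
  ⟨Bkf.add hD h.1 h'.1, Dfr.add hD h.1.1 h'.1.1 h.2.1 h'.2.1, Pot.add h.2.2 h'.2.2⟩

/-! ### Slow fields -/

private theorem dx4_slow_bk (hD : IsOpen D) {a : ℝ → ℝ} (ha : CB a) {v : Ed d → Ed d} (hv : BD D v) :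
    Bkf D 0 fun _ t x => a t ^ 2 • v x := by
  have hsq := CB.sq ha
  obtain ⟨C, hC⟩ := hsq.bd
  obtain ⟨M, hM0, hM⟩ := hv.bound
  obtain ⟨M', hM0', hM'⟩ := hv.bound_fderiv
  have hC0 : 0 ≤ C := (abs_nonneg _).trans (hC 0).1
  refine ⟨fun ε hε => FS.single hsq.smo hv, C * (M + M'), fun ε hε t x hx => ?_⟩
  have h1 : |a t ^ 2| ≤ C := (hC t).1
  rw [zpow_zero, mul_one]
  constructor
  · rw [norm_smul, Real.norm_eq_abs]
    exact mul_le_mul h1 ((hM x hx).trans (by linarith)) (norm_nonneg _) hC0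
  · have h2 : fderiv ℝ (fun y => a t ^ 2 • v y) x = a t ^ 2 • fderiv ℝ v x := fderiv_fun_const_smul (hv.diff hD hx) _
    rw [h2, norm_smul, Real.norm_eq_abs]
    exact mul_le_mul h1 ((hM' x hx).trans (by linarith)) (norm_nonneg _) hC0

private theorem dx4_slow_tb {a : ℝ → ℝ} (ha : CB a) {v : Ed d → Ed d} (hv : Oz D z fun x => ⟪gd z x, v x⟫) :
    Tb D z 0 fun _ t x => a t ^ 2 • v x := by
  have hsq := CB.sq ha
  obtain ⟨C, hC⟩ := hsq.bd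
  obtain ⟨M, hM⟩ := hv
  have hC0 : 0 ≤ C := (abs_nonneg _).trans (hC 0).1
  refine ⟨C * M, fun ε hε t x hx => ?_⟩
  have h1 : |a t ^ 2| ≤ C := (hC t).1
  have h2 := hM x hx
  rw [Real.norm_eq_abs] at h2
  rw [zpow_zero, mul_one, inner_smul_right, abs_mul, mul_assoc]
  exact mul_le_mul h1 h2 (abs_nonneg _) hC0

private theorem dx4_slow_dfr (hD : IsOpen D) {a : ℝ → ℝ} {v : Ed d → Ed d} (hv : BD D v)
    (h : ∀ x ∈ D, dv v x = 0) : Dfr D fun _ t x => a t ^ 2 • v x := by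
  intro ε hε t x hx
  show dv (fun y => a t ^ 2 • v y) x = 0
  rw [dv_const_smul_at _ (hv.diff hD hx), h x hx, mul_zero]

private theorem dx4_uS_dfr (hD : IsOpen D) {a : ℝ → ℝ} {C0 C1 : Ed d → Ed d} (h0 : BD D C0) (h1 : BD D C1)
    (e0 : ∀ x ∈ D, dv C0 x = 0) (e1 : ∀ x ∈ D, dv C1 x = 0) : Dfr D (uS a C0 C1) := by
  intro ε hε t x hx
  show dv (fun y => a t ^ 2 • (C0 y + ε • C1 y)) x = 0
  have h2 : BD D fun y => ε • C1 y := BD.const_smul hD ε h1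
  rw [dv_const_smul_at _ ((BD.add hD h0 h2).diff hD hx), dv_add_at (h0.diff hD hx) (h2.diff hD hx),
    dv_const_smul_at _ (h1.diff hD hx), e0 x hx, e1 x hx]
  ring

private theorem dx4_uS_ffs (hD : IsOpen D) {a : ℝ → ℝ} (ha : CB a) {C0 C1 : Ed d → Ed d} (h0 : BD D C0)
    (h1 : BD D C1) : FFS D (uS a C0 C1) := by
  intro ε hε
  exact FS.single (v := fun y => C0 y + ε • C1 y) (CB.sq ha).smo (BD.add hD h0 (BD.const_smul hD ε h1))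

private theorem dx4_fL1_van (z : Ed d → ℝ) (δ : ℝ) (a : ℝ → ℝ) {ι : Type} [Fintype ι] (k : ι → ℕ) (φ : ι → ℝ)
    (V : ι → Ed d → Ed d) : Van a (fL1 z δ a k φ V) := by
  intro ε t x ht
  show ∑ i, ε⁻¹ • lay z a (Kh (k i) (φ i)) (Gh (k i) (φ i)) (slip z δ (V i)) ε t x = 0
  refine Finset.sum_eq_zero fun i _ => ?_
  simp only [lay, atm, ht, zero_mul, zero_smul, smul_zero, add_zero]

private theorem dx4_uP_van {n : ℕ} (P Q : Fin n → Ed d → Ed d) (ψ ψ' : Fin n → Ed d → ℝ) (a : ℝ → ℝ) :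
    Van a (uPD P Q ψ ψ' a) := by
  intro ε t x ht
  simp only [uPD, ht, mul_zero, zero_smul, add_zero]

private theorem dx4_uS_van (a : ℝ → ℝ) (C0 C1 : Ed d → Ed d) : Van a (uS a C0 C1) := by
  intro ε t x ht
  simp only [uS, ht]
  simp

private theorem dx4_van_add {a : ℝ → ℝ} {X Y : Fam d (Ed d)} (h : Van a X) (h' : Van a Y) :
    Van a fun ε t x => X ε t x + Y ε t x := by
  intro ε t x ht
  show X ε t x + Y ε t x = 0
  rw [h ε t x ht, h' ε t x ht, add_zero]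

private theorem dx4_small_add (hD : IsOpen D) (hz : ∀ x ∈ D, 0 < z x) {X Y : Fam d (Ed d)} (hX : FFS D X)
    (hY : FFS D Y) {M : ℝ}
    (h : ∃ C, ∀ ε ∈ Ioc (0 : ℝ) 1, ∀ t, ∀ x ∈ D, z x * ‖X ε t x‖ + z x ^ 2 * ‖fderiv ℝ (X ε t) x‖ ≤ M + C * ε)
    (h' : ∃ C, ∀ ε ∈ Ioc (0 : ℝ) 1, ∀ t, ∀ x ∈ D, z x * ‖Y ε t x‖ + z x ^ 2 * ‖fderiv ℝ (Y ε t) x‖ ≤ C * ε) :
    ∃ C, ∀ ε ∈ Ioc (0 : ℝ) 1, ∀ t, ∀ x ∈ D, z x * ‖X ε t x + Y ε t x‖ +
      z x ^ 2 * ‖fderiv ℝ (fun y => X ε t y + Y ε t y) x‖ ≤ M + C * ε := by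
  obtain ⟨C, hC⟩ := h
  obtain ⟨C', hC'⟩ := h'
  refine ⟨C + C', fun ε hε t x hx => ?_⟩
  have h1 := hC ε hε t x hx
  have h2 := hC' ε hε t x hx
  have hzx := (hz x hx).le
  have e1 : fderiv ℝ (fun y => X ε t y + Y ε t y) x = fderiv ℝ (X ε t) x + fderiv ℝ (Y ε t) x :=
    fderiv_fun_add ((FS.bd hD (hX ε hε) t).diff hD hx) ((FS.bd hD (hY ε hε) t).diff hD hx)
  rw [e1]
  have h3 : z x * ‖X ε t x + Y ε t x‖ ≤ z x * ‖X ε t x‖ + z x * ‖Y ε t x‖ := by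
    rw [← mul_add]
    exact mul_le_mul_of_nonneg_left (norm_add_le _ _) hzx
  have h4 : z x ^ 2 * ‖fderiv ℝ (X ε t) x + fderiv ℝ (Y ε t) x‖ ≤
      z x ^ 2 * ‖fderiv ℝ (X ε t) x‖ + z x ^ 2 * ‖fderiv ℝ (Y ε t) x‖ := by
    rw [← mul_add]
    exact mul_le_mul_of_nonneg_left (norm_add_le _ _) (sq_nonneg _)
  linarith

/-- **Main theorem of block D.** `K₀` depends on `D, z, δ` only. -/
theorem layers_main (hS : Stg D B z δ) : ∃ K₀, 0 ≤ K₀ ∧ ∀ (n : ℕ) (P Q : Fin n → Ed d → Ed d) (c : Fin n → ℝ)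
    (r₀ κ : ℝ), Wvs D B z n P Q c r₀ κ →
    ∃ (ψ ψ' : Fin n → Ed d → ℝ) (C0 C1 : Ed d → Ed d),
      (∀ j, BD D (ψ j) ∧ ∀ x ∈ D, lap (ψ j) x = 0) ∧ (∀ j, BD D (ψ' j) ∧ ∀ x ∈ D, lap (ψ' j) x = 0) ∧
      BD D C0 ∧ (∀ x ∈ D, dv C0 x = 0) ∧ (Oz D z fun x => ⟪gd z x, C0 x⟫) ∧ Bn D 2 (K₀ * κ) C0 ∧
      BD D C1 ∧ (∀ x ∈ D, dv C1 x = 0) ∧
      ∀ (a : ℝ → ℝ) (A : ℝ), CB a → (∀ t, |a t| ≤ A) → ∃ RL RB : Fam d (Ed d),
        Layers D B z K₀ κ A a (uPD P Q ψ ψ' a) (uS a C0 C1) RL RB := by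
  obtain ⟨mA, mB, mC, hforced⟩ := forced_sum
  obtain ⟨K1, hK1, hsl⟩ := slow_lift hS mA mB mC
  obtain ⟨K2, hK2, hsm⟩ := fL1_small hS
  refine ⟨K1 + K2, add_nonneg hK1 hK2, fun n P Q c r₀ κ hW => ?_⟩
  have hD : IsOpen D := hS.dom.isOpen
  have hκ : 0 ≤ κ := (Finset.sum_nonneg fun j _ => sq_nonneg (c j)).trans hW.sc
  have hwv : ∀ i : Fin n × Bool, Wave D B z (PQ P Q i) := fun i => by
    unfold PQ
    split_ifs
    · exact hW.wQ _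
    · exact hW.wP _
  choose q hq using fun i : Fin n × Bool => exists_pt hS.dom (slip_cf hS.dom (hwv i).bd)
  have hF : WFam D B z δ kk (PQ P Q) q := ⟨hS, fun i => Nat.one_le_pow _ _ (by norm_num), hwv, hq⟩
  obtain ⟨M1, hM1, hM1d, hf⟩ := hforced (φ := ph) hF
  obtain ⟨ψ, ψ', hψ, hψ', hfp0⟩ := fp0_eq hS q fun i => ⟨(hq i).bd, (hq i).lap⟩
  obtain ⟨C0, hC0, hC0d, hC0t, hC0b, hC0s⟩ := hsl n P Q c r₀ κ hW.wP hW.wQ hW.r0 hW.c0 hW.sc hW.bP hW.bQ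
  have hC1 : BD D fun x => -M1 x := BD.neg hD hM1
  have hC1d : ∀ x ∈ D, dv (fun x => -M1 x) x = 0 := fun x hx => by
    have h1 : dv (fun x => (-1 : ℝ) • M1 x) x = -1 * dv M1 x := dv_const_smul_at (-1) (hM1.diff hD hx)
    simp only [neg_smul, one_smul] at h1
    rw [h1, hM1d x hx, mul_zero]
  refine ⟨ψ, ψ', C0, fun x => -M1 x, hψ, hψ', hC0, hC0d, hC0t, ?_, hC1, hC1d, fun a A ha hA => ?_⟩
  · exact Bn.mono hC0b le_rfl (mul_le_mul_of_nonneg_right (by linarith) hκ)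
  have hA0 : 0 ≤ A := (abs_nonneg _).trans (hA 0)
  obtain ⟨Y1, P1, E1, y1, p1, e1, vY1, vP1, vE1, ng1, tr1⟩ := hf a ha
  obtain ⟨Y2, P2, E2, y2, p2, e2, vY2, vP2, vE2, tr2⟩ := osc_sum (φ := ph) hF ha
  obtain ⟨w1, w1'⟩ := fp1_p (φ := ph) hF ha
  have w0 := fp0_p (φ := ph) hF ha
  have hL := fL1_lay (φ := ph) hF ha
  have hY : IsLay D z 0 fun ε t x => Y1 ε t x + Y2 ε t x := IsLay.add hS.dom y1 y2.1
  have hP : PLay D B 1 fun ε t x => P1 ε t x + P2 ε t x := dx4_play_add hD p1 p2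
  have hE : IsCr D fun ε t x => E1 ε t x + E2 ε t x := IsCr.add hD e1 e2
  have hRL : IsLay D z (-1) fun ε t x => fL1 z δ a kk ph (PQ P Q) ε t x + (Y1 ε t x + Y2 ε t x) :=
    IsLay.add hS.dom hL (IsLay.mono hS.dom (by norm_num) hY)
  have hRB : Bkf D 1 fun ε t x => (P1 ε t x + P2 ε t x) + (E1 ε t x + E2 ε t x) :=
    Bkf.add hD hP.1 (Bkf.mono (by norm_num) hE.bk)
  have hRBd : Dfr D fun ε t x => (P1 ε t x + P2 ε t x) + (E1 ε t x + E2 ε t x) :=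
    Dfr.add hD hP.1.1 hE.bk.1 hP.2.1 hE.div
  have eP : ∀ ε t, ∀ x ∈ D, uPD P Q ψ ψ' a ε t x = fp1 a kk ph (PQ P Q) ε t x + fp0 a kk ph q ε t x :=
    fun ε t x hx => by
      rw [fp1_eq, hfp0 a ε t x hx]
      rfl
  have fPP : FFS D (uPD P Q ψ ψ' a) := dx4_ffs_congr (dx4_ffs_add w1.1.1 w0.1.1) eP
  have fPS : FFS D (uS a C0 fun x => -M1 x) := dx4_uS_ffs hD ha hC0 hC1
  have dPP : Dfr D (uPD P Q ψ ψ' a) := dx4_dfr_congr hD (Dfr.add hD w1.1.1 w0.1.1 w1.2.1 w0.2.1) eP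
  have dPS : Dfr D (uS a C0 fun x => -M1 x) := dx4_uS_dfr hD hC0 hC1 hC0d hC1d
  have fR := dx4_ffs_add hRL.fs hRB.1
  have dR := Dfr.add hD hRL.fs hRB.1 hRL.div hRBd
  have fPS' := dx4_ffs_add fPP fPS
  have dPS' := Dfr.add hD fPP fPS dPP dPS
  have vR : Van a fun ε t x => (fL1 z δ a kk ph (PQ P Q) ε t x + (Y1 ε t x + Y2 ε t x)) +
      ((P1 ε t x + P2 ε t x) + (E1 ε t x + E2 ε t x)) :=
    dx4_van_add (dx4_van_add (dx4_fL1_van z δ a kk ph (PQ P Q)) (dx4_van_add vY1 vY2))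
      (dx4_van_add (dx4_van_add vP1 vP2) (dx4_van_add vE1 vE2))
  have vU := dx4_van_add (dx4_van_add (dx4_uP_van P Q ψ ψ' a) (dx4_uS_van a C0 fun x => -M1 x)) vR
  refine ⟨fun ε t x => fL1 z δ a kk ph (PQ P Q) ε t x + (Y1 ε t x + Y2 ε t x),
    fun ε t x => (P1 ε t x + P2 ε t x) + (E1 ε t x + E2 ε t x), hRL, hRB, hRBd, dx4_ffs_add fPS' fR,
    Dfr.add hD fPS' fR dPS' dR, vU, vR, ?_, ?_, ?_⟩
  · intro ε hε t
    have h1 : Oz D z fun x => a t ^ 2 • (C0 x + slowT z δ mA mB mC kk ph (PQ P Q) x) := Oz.const_smul (a t ^ 2) hC0s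
    refine Oz.congr (Oz.add (Oz.add (tr1 ε hε t) (tr2 ε hε t)) h1) fun x hx => ?_
    beta_reduce
    rw [eP ε t x hx]
    simp only [uS]
    module
  · have s1 := hsm n P Q c r₀ κ hW.wP hW.wQ hW.r0 hW.c0 hW.sc
      (fun j x hx => by simpa using hW.bP j 0 (by norm_num) x hx)
      (fun j x hx => by simpa using hW.bQ j 0 (by norm_num) x hx) a A ha hA
    have s1' : ∃ C, ∀ ε ∈ Ioc (0 : ℝ) 1, ∀ t, ∀ x ∈ D,
        z x * ‖fL1 z δ a kk ph (PQ P Q) ε t x‖ + z x ^ 2 * ‖fderiv ℝ (fL1 z δ a kk ph (PQ P Q) ε t) x‖ ≤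
        (K1 + K2) * √κ * A + C * ε := by
      obtain ⟨C, hC⟩ := s1
      refine ⟨C, fun ε hε t x hx => (hC ε hε t x hx).trans ?_⟩
      have h1 : 0 ≤ K1 * √κ * A := by positivity
      nlinarith
    exact dx4_small_add hD (fun x hx => hS.dom.zpos hx) hRL.fs hRB.1
      (dx4_small_add hD (fun x hx => hS.dom.zpos hx) hL.fs hY.fs s1' (lay0_small hS hY)) (bk1_small hS hRB)
  · have hm : Ng D B z fun ε t x => Hop (fL1 z δ a kk ph (PQ P Q)) ε t x + Hop (fun ε t x => Y1 ε t x + Y2 ε t x) ε t x +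
        Trn (fp1 a kk ph (PQ P Q)) (fL1 z δ a kk ph (PQ P Q)) ε t x +
        Trn (fL1 z δ a kk ph (PQ P Q)) (fp1 a kk ph (PQ P Q)) ε t x +
        Trn (fL1 z δ a kk ph (PQ P Q)) (fL1 z δ a kk ph (PQ P Q)) ε t x +
        Trn (fp0 a kk ph q) (fL1 z δ a kk ph (PQ P Q)) ε t x := by
      have n1 := main_sum (φ := ph) hF ha
      have n2 : Ng D B z (Hop Y2) := Ng.of_lb hS y2.2
      refine Ng.congr (Ng.add hS (Ng.add hS n1 ng1) n2) fun ε hε t x hx => ?_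
      rw [Hop_add hD y1.fs y2.1.fs hε t hx.1]
      abel
    have hb1 : Bkf D 1 fun ε t x => a t ^ 2 • (ε • -M1 x) := by
      have h1 := Bkf.zsmul hD (dx4_slow_bk hD ha hC1) 1
      have e : (fun (ε t : ℝ) (x : Ed d) => a t ^ 2 • (ε • -M1 x)) = fun ε t x => ε ^ (1 : ℤ) • a t ^ 2 • -M1 x := by
        funext ε t x
        rw [zpow_one, smul_comm]
      rw [e]
      simpa only [add_zero] using h1
    have key := assemble hS (p' := fun ε t x => P1 ε t x + P2 ε t x) (L0 := fun ε t x => Y1 ε t x + Y2 ε t x)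
      (E := fun ε t x => E1 ε t x + E2 ε t x) (C0 := fun ε t x => a t ^ 2 • C0 x)
      (C1 := fun ε t x => a t ^ 2 • (ε • -M1 x)) w1 w1' w0 hP hL hY hE (dx4_slow_bk hD ha hC0)
      (dx4_slow_tb ha hC0t) hb1 hm
    refine Ng.congr key fun ε hε t x hx => ?_
    refine dx4_res_congr hD (fun t x hx => ?_) (fun t x hx => eP ε t x hx) (fun t x hx => ?_) t hx.1
    · rw [eP ε t x hx]
      simp only [uS]
      module
    · simp only [uS]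
      module

end Pool.Agent.Lib.MP_79abb3_an.W
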