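import Pool.Agent.Lib.MP_79abb3_an.W.DA3
import Pool.Agent.Lib.MP_79abb3_an.W.DC1b
import Pool.Agent.Lib.MP_79abb3_an.W.DDef

/-!
Theorem W, block D, part X5: finite sums in V.
-/

set_option autoImplicit false
set_option linter.unusedSectionVars false

open MeasureTheory Set Filter Topology Function
open scoped ENNReal RealInnerProductSpace

namespace Pool.Agent.Lib.MP_79abb3_an.W

variable {d : ℕ} {D B : Set (Ed d)} {z : Ed d → ℝ} {δ : ℝ}

/-- A function of time with values in the fields of class `FS`, divergence free and `O(z)`: finite sum with smooth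
coefficients of fixed fields with these properties. (Finite dimensional linear algebra: the coefficient vectors lie in the
subspace of those `c` with `∑ c_i v_i` divergence free in `D` and `O(z)`; take a basis of this subspace.) -/
theorem FS.inV (hS : Stg D B z δ) {X : ℝ → Ed d → Ed d} (hX : FS D X) (hd : ∀ t, ∀ x ∈ D, dv (X t) x = 0)
    (h0 : ∀ t, Oz D z (X t)) : ∃ (n : ℕ) (c : Fin n → ℝ → ℝ) (v : Fin n → Ed d → Ed d),
      (∀ i, ContDiff ℝ ((⊤ : ℕ∞) : WithTop ℕ∞) (c i)) ∧
      (∀ i, BD D (v i) ∧ (∀ x ∈ D, dv (v i) x = 0) ∧ Oz D z (v i)) ∧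
      ∀ t, ∀ x ∈ D, X t x = ∑ i, c i t • v i x := by
  have h := hS.dom
  have hD : IsOpen D := by
    have h1 : D = z ⁻¹' Ioi 0 := by
      ext x
      exact h.pos x
    rw [h1]
    exact isOpen_Ioi.preimage h.smo.continuous
  obtain ⟨ι, hι, c, v, hc, hv, hX⟩ := hX
  -- divergence of a combination
  have hdv : ∀ (b : ι → ℝ), ∀ x ∈ D, dv (fun y => ∑ i, b i • v i y) x = ∑ i, b i * dv (v i) x := by
    intro b x hx
    rw [dv_sum_at _ fun i _ => ((hv i).diff hD hx).fun_const_smul (b i)]
    exact Finset.sum_congr rfl fun i _ => dv_const_smul_at (b i) ((hv i).diff hD hx)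
  let S : Submodule ℝ (ι → ℝ) :=
    { carrier := {b | (∀ x ∈ D, ∑ i, b i * dv (v i) x = 0) ∧ Oz D z fun x => ∑ i, b i • v i x}
      add_mem' := by
        rintro b b' ⟨h1, h2⟩ ⟨h3, h4⟩
        refine ⟨fun x hx => ?_, (h2.add h4).congr fun x hx => ?_⟩
        · have h5 := h1 x hx
          have h6 := h3 x hx
          simp only [Pi.add_apply, add_mul, Finset.sum_add_distrib]
          rw [h5, h6, add_zero]
        · simp only [Pi.add_apply, add_smul, Finset.sum_add_distrib]
      zero_mem' := by
        refine ⟨fun x hx => by simp, 0, fun x hx => by simp⟩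
      smul_mem' := by
        rintro r b ⟨h1, h2⟩
        refine ⟨fun x hx => ?_, (h2.const_smul r).congr fun x hx => ?_⟩
        · have h5 := h1 x hx
          simp only [Pi.smul_apply, smul_eq_mul, mul_assoc]
          rw [← Finset.mul_sum, h5, mul_zero]
        · simp only [Pi.smul_apply, smul_eq_mul, mul_smul, Finset.smul_sum] }
  have hmem : ∀ t, (fun i => c i t) ∈ S := by
    intro t
    refine ⟨fun x hx => ?_, (h0 t).congr fun x hx => ?_⟩
    · rw [← hdv (fun i => c i t) x hx, ← hd t x hx]
      refine dv_congr ?_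
      filter_upwards [hD.mem_nhds hx] with y hy
      exact (hX t y hy).symm
    · exact (hX t x hx).symm
  obtain ⟨g, hg⟩ := LinearMap.exists_leftInverse_of_injective S.subtype (LinearMap.ker_eq_bot.2 S.injective_subtype)
  have hg' : ∀ t, g (fun i => c i t) = ⟨fun i => c i t, hmem t⟩ := fun t =>
    LinearMap.congr_fun hg ⟨fun i => c i t, hmem t⟩
  let b := Module.finBasis ℝ S
  refine ⟨Module.finrank ℝ S, fun k t => b.coord k (g fun i => c i t),
    fun k x => ∑ i, (b k : ι → ℝ) i • v i x, fun k => ?_, fun k => ⟨?_, fun x hx => ?_, (b k).2.2⟩, fun t x hx => ?_⟩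
  · have h1 : ContDiff ℝ ((⊤ : ℕ∞) : WithTop ℕ∞) fun t => fun i => c i t := contDiff_pi.2 hc
    exact (LinearMap.toContinuousLinearMap (b.coord k ∘ₗ g)).contDiff.comp h1
  · exact BD.sum hD _ fun i _ => (hv i).const_smul hD _
  · rw [hdv _ x hx]
    exact (b k).2.1 x hx
  · rw [hX t x hx]
    have h1 : (fun i => c i t) = ∑ k, b.coord k (g fun i => c i t) • (b k : ι → ℝ) := by
      have h2 := b.sum_repr (g fun i => c i t)
      have h3 := congrArg (fun s : S => (s : ι → ℝ)) h2
      simp only [hg' t] at h3 ⊢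
      rw [Submodule.coe_sum] at h3
      exact h3.symm
    have h4 : ∀ i, c i t = ∑ k, b.coord k (g fun i => c i t) * (b k : ι → ℝ) i := fun i => by
      have h5 := congrFun h1 i
      rw [Finset.sum_apply] at h5
      exact h5
    calc ∑ i, c i t • v i x = ∑ i, ∑ k, (b.coord k (g fun i => c i t) * (b k : ι → ℝ) i) • v i x := by
          refine Finset.sum_congr rfl fun i _ => ?_
          rw [← Finset.sum_smul, ← h4 i]
      _ = ∑ k, ∑ i, (b.coord k (g fun i => c i t) * (b k : ι → ℝ) i) • v i x := Finset.sum_comm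
      _ = _ := by
          refine Finset.sum_congr rfl fun k _ => ?_
          rw [Finset.smul_sum]
          exact Finset.sum_congr rfl fun i _ => mul_smul _ _ _

end Pool.Agent.Lib.MP_79abb3_an.W
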