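import Pool.Agent.Lib.MP_79abb3_an.W.BDc

/-!
Theorem W, block DY, part d: the corrector `div (g (Y nᵀ - n Yᵀ))`, algebra.
-/

set_option autoImplicit false
set_option linter.unusedSectionVars false

open MeasureTheory Set Filter Topology Function
open scoped ENNReal RealInnerProductSpace

namespace Pool.Agent.Lib.MP_79abb3_an.W

section
variable {d : ℕ} {D : Set (En d)}

/-- the matrix `g (Y nᵀ - n Yᵀ)` -/
noncomputable def dyM (g : En d → ℝ) (n Y : En d → En d) (i j : Fin d) (x : En d) : ℝ :=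
  g x * (Y x i * n x j - n x i * Y x j)

/-- its row divergence -/
noncomputable def dyC (g : En d → ℝ) (n Y : En d → En d) (x : En d) : En d :=
  WithLp.toLp 2 fun i => ∑ j, pd j (dyM g n Y i j) x

theorem dyM_anti (g : En d → ℝ) (n Y : En d → En d) (i j : Fin d) (x : En d) :
    dyM g n Y i j x = -dyM g n Y j i x := by
  unfold dyM; ring

/-- components of a `BD` field -/
private theorem dyd_comp (hD : IsOpen D) {f : En d → En d} (hf : BD D f) (i : Fin d) : BD D (fun x => f x i) :=
  hf.clm hD (EuclideanSpace.proj i : En d →L[ℝ] ℝ)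

/-- the components of the derivative of a field -/
private theorem dyd_apply (hD : IsOpen D) {f : En d → En d} (hf : BD D f) (i k : Fin d) {x : En d} (hx : x ∈ D) :
    pd i (fun x => f x k) x = pd i f x k := by
  have h1 : HasFDerivAt (fun x => f x k) ((EuclideanSpace.proj k : En d →L[ℝ] ℝ).comp (fderiv ℝ f x)) x :=
    (EuclideanSpace.proj k : En d →L[ℝ] ℝ).hasFDerivAt.comp x (hf.differentiableAt hD hx).hasFDerivAt
  show fderiv ℝ (fun x => f x k) x (ei i) = _
  rw [h1.fderiv]
  rfl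

theorem dyM_bd (hD : IsOpen D) {g : En d → ℝ} {n Y : En d → En d} (hg : BD D g) (hn : BD D n) (hY : BD D Y)
    (i j : Fin d) : BD D (dyM g n Y i j) :=
  hg.mul hD (((dyd_comp hD hY i).mul hD (dyd_comp hD hn j)).sub hD
    ((dyd_comp hD hn i).mul hD (dyd_comp hD hY j)))

/-- second derivatives commute in `D` -/
theorem dy_pd_comm (hD : IsOpen D) {f : En d → ℝ} (hf : BD D f) (i j : Fin d) {x : En d} (hx : x ∈ D) :
    pd i (pd j f) x = pd j (pd i f) x := by
  have h1 : ∀ k l : Fin d, pd k (pd l f) x = fderiv ℝ (fderiv ℝ f) x (ei k) (ei l) := by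
    intro k l
    have h2 : DifferentiableAt ℝ (fderiv ℝ f) x := (hf.fderiv hD).differentiableAt hD hx
    show fderiv ℝ (fun y => fderiv ℝ f y (ei l)) x (ei k) = _
    rw [fderiv_clm_apply h2 (differentiableAt_const _)]
    simp
  rw [h1, h1]
  have h4 : minSmoothness ℝ 2 ≤ ((⊤ : ℕ∞) : WithTop ℕ∞) := by
    rw [minSmoothness_of_isRCLikeNormedField]
    exact WithTop.coe_le_coe.2 (le_top : (2 : ℕ∞) ≤ ⊤)
  exact ((hf.contDiffAt hD hx).isSymmSndFDerivAt h4).eq _ _

/-- the corrector is of class `BD` -/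
private theorem dyd_bd (hD : IsOpen D) {g : En d → ℝ} {n Y : En d → En d} (hg : BD D g) (hn : BD D n) (hY : BD D Y) :
    BD D (dyC g n Y) := by
  have h1 : BD D (fun x => ∑ i : Fin d, (∑ j : Fin d, pd j (dyM g n Y i j) x) • ei i) :=
    BD.sum hD _ fun i _ => (BD.sum hD _ fun j _ => (dyM_bd hD hg hn hY i j).pd hD j).smul hD
      (BD.const hD (ei i))
  refine h1.congr hD fun x _ => ?_
  ext k
  simp [dyC, ei, Pi.single_apply]

/-- the corrector is divergence free (`dyM_anti`, `dy_pd_comm`) -/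
theorem dyC_dv (hD : IsOpen D) {g : En d → ℝ} {n Y : En d → En d} (hg : BD D g) (hn : BD D n) (hY : BD D Y)
    {x : En d} (hx : x ∈ D) : dv (dyC g n Y) x = 0 := by
  have h1 : ∀ i j : Fin d, DifferentiableAt ℝ (pd j (dyM g n Y i j)) x := fun i j =>
    ((dyM_bd hD hg hn hY i j).pd hD j).differentiableAt hD hx
  have h2 : ∀ i : Fin d, pd i (dyC g n Y) x i = ∑ j, pd i (pd j (dyM g n Y i j)) x := by
    intro i
    rw [← dyd_apply hD (dyd_bd hD hg hn hY) i i hx]
    show fderiv ℝ (fun x => ∑ j, pd j (dyM g n Y i j) x) x (ei i) = _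
    rw [fderiv_fun_sum fun j _ => h1 i j]
    simp only [_root_.sum_apply]
    rfl
  have h3 : dv (dyC g n Y) x = ∑ i, ∑ j, pd i (pd j (dyM g n Y i j)) x := by
    unfold dv
    exact Finset.sum_congr rfl fun i _ => h2 i
  have h4 : ∀ i j : Fin d, pd i (pd j (dyM g n Y i j)) x = -pd j (pd i (dyM g n Y j i)) x := by
    intro i j
    rw [dy_pd_comm hD (dyM_bd hD hg hn hY i j) i j hx]
    have h5 : dyM g n Y i j = fun y => -dyM g n Y j i y := funext fun y => dyM_anti g n Y i j y
    have h6 : pd i (dyM g n Y i j) = fun y => -pd i (dyM g n Y j i) y := by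
      funext y
      show fderiv ℝ (dyM g n Y i j) y (ei i) = _
      rw [h5, fderiv_fun_neg]
      rfl
    show fderiv ℝ (pd i (dyM g n Y i j)) x (ei j) = _
    rw [h6, fderiv_fun_neg]
    rfl
  have h7 : (∑ i, ∑ j, pd i (pd j (dyM g n Y i j)) x) = -∑ i, ∑ j, pd i (pd j (dyM g n Y i j)) x := by
    conv_lhs => rw [Finset.sum_comm]
    rw [← Finset.sum_neg_distrib]
    refine Finset.sum_congr rfl fun j _ => ?_
    rw [← Finset.sum_neg_distrib]
    exact Finset.sum_congr rfl fun i _ => h4 i j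
  rw [h3]
  linarith

end

end Pool.Agent.Lib.MP_79abb3_an.W
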