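import Pool.Agent.Lib.MP_79abb3_an.W.EDef

/-!
Theorem W, block E: the fast generators.
-/

set_option autoImplicit false

open MeasureTheory Set Filter Topology Function
open scoped InnerProductSpace

namespace Pool.Agent.Lib.MP_79abb3_an.W

section
variable {H V : Type} [NormedAddCommGroup H] [InnerProductSpace ℝ H] [NormedAddCommGroup V]
  [InnerProductSpace ℝ V]

theorem Fast.Aself (F : Fast H V) (θ : ℝ) (v : V) : ⟪F.A θ v, F.ι v⟫_ℝ = ⟪F.S θ (F.ι v), F.ι v⟫_ℝ := by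
  have h1 := F.adj θ v v
  have h2 := congrArg (fun x => ⟪x, F.ι v⟫_ℝ) (F.sym θ v)
  simp only [inner_add_left, real_inner_smul_left] at h2
  rw [real_inner_comm (F.A' θ v) (F.ι v)] at h1
  linarith

theorem Fast.cB (F : Fast H V) : Continuous F.B := by
  exact continuous_iff_continuousAt.2 fun θ => (F.dB θ).continuousAt

/-- `∫_a^b A(κ r) v dr = κ⁻¹ (B(κ b) - B(κ a)) v`, tested; the same for any primitive. -/
theorem ftc_path {β α : ℝ → H} (hβ : ∀ θ, HasDerivAt β (α θ) θ) (hα : Continuous α) {κ : ℝ} (hκ : 0 < κ)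
    (a b : ℝ) (z : H) :
    ∫ r in a..b, ⟪α (κ * r), z⟫_ℝ = κ⁻¹ * ⟪β (κ * b) - β (κ * a), z⟫_ℝ := by
  have hd : ∀ r ∈ uIcc a b, HasDerivAt (fun r => κ⁻¹ * ⟪β (κ * r), z⟫_ℝ) ⟪α (κ * r), z⟫_ℝ r := by
    intro r _
    have h1 : HasDerivAt (fun r : ℝ => κ * r) κ r := by
      simpa using (hasDerivAt_id r).const_mul κ
    have h2 : HasDerivAt (fun r => β (κ * r)) (κ • α (κ * r)) r := (hβ (κ * r)).scomp r h1
    have h3 := (h2.inner ℝ (hasDerivAt_const r z)).const_mul κ⁻¹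
    rw [inner_zero_right, zero_add, real_inner_smul_left, inv_mul_cancel_left₀ hκ.ne'] at h3
    exact h3
  have hc : Continuous fun r => ⟪α (κ * r), z⟫_ℝ :=
    (hα.comp (continuous_const.mul continuous_id)).inner continuous_const
  rw [intervalIntegral.integral_eq_sub_of_hasDerivAt hd (hc.intervalIntegrable _ _), inner_sub_left]
  ring

theorem Fast.ftc (F : Fast H V) {κ : ℝ} (hκ : 0 < κ) (a b : ℝ) (v : V) (z : H) :
    ∫ r in a..b, ⟪F.A (κ * r) v, z⟫_ℝ = κ⁻¹ * ⟪(F.B (κ * b) - F.B (κ * a)) v, z⟫_ℝ := by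
  have h1 : ∀ θ, HasDerivAt (fun θ => F.B θ v) (F.A θ v) θ := fun θ => by
    simpa using (F.dB θ).clm_apply (hasDerivAt_const θ v)
  have h2 : Continuous fun θ => F.A θ v := F.cA.clm_apply continuous_const
  simpa using ftc_path h1 h2 hκ a b z

/-- `A'` has mean zero -/
theorem Fast.mA' (F : Fast H V) (v : V) (z : H) :
    ∫ θ in (0:ℝ)..2 * Real.pi, ⟪F.A' θ v, z⟫_ℝ = 0 := by
  have h1 : ∀ θ, ⟪F.A' θ v, z⟫_ℝ = 2 * ⟪F.S θ (F.ι v), z⟫_ℝ - ⟪F.A θ v, z⟫_ℝ := by
    intro θ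
    have h2 := congrArg (fun x => ⟪x, z⟫_ℝ) (F.sym θ v)
    simp only [inner_add_left, real_inner_smul_left] at h2
    linarith
  have hS : Continuous fun θ => ⟪F.S θ (F.ι v), z⟫_ℝ :=
    (F.cS.clm_apply continuous_const).inner continuous_const
  have hA : Continuous fun θ => ⟪F.A θ v, z⟫_ℝ :=
    (F.cA.clm_apply continuous_const).inner continuous_const
  simp only [h1]
  rw [intervalIntegral.integral_sub ((hS.const_mul 2).intervalIntegrable _ _)
    (hA.intervalIntegrable _ _), intervalIntegral.integral_const_mul, F.mS]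
  have h3 := F.ftc one_pos 0 (2 * Real.pi) v z
  simp only [one_mul] at h3
  rw [h3]
  have h4 := F.pB 0
  rw [zero_add] at h4
  rw [h4]
  simp

end

end Pool.Agent.Lib.MP_79abb3_an.W
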