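import Pool.Agent.Lib.MP_79abb3_an.W.EDef

/-!
Theorem W, block E: the drift form.
-/

set_option autoImplicit false

open MeasureTheory Set Filter Topology Function
open scoped InnerProductSpace

namespace Pool.Agent.Lib.MP_79abb3_an.W

section
variable {H V : Type} [NormedAddCommGroup H] [InnerProductSpace ℝ H] [NormedAddCommGroup V]
  [InnerProductSpace ℝ V]

private theorem drS_ii (F : Fast H V) {β : ℝ → H} (h : Continuous β) (φ : V) :
    IntervalIntegrable (fun θ => ⟪β θ, F.A' θ φ⟫_ℝ) volume 0 (2 * Real.pi) :=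
  (h.inner (F.cA'.clm_apply continuous_const)).intervalIntegrable _ _

/-- the drift is bilinear and bounded -/
theorem Fast.drS_add (F : Fast H V) {β β' : ℝ → H} (h : Continuous β) (h' : Continuous β') (φ : V) :
    F.drS (fun θ => β θ + β' θ) φ = F.drS β φ + F.drS β' φ := by
  unfold Fast.drS
  simp only [inner_add_left]
  rw [intervalIntegral.integral_add (drS_ii F h φ) (drS_ii F h' φ)]
  ring

theorem Fast.drS_sub (F : Fast H V) {β β' : ℝ → H} (h : Continuous β) (h' : Continuous β') (φ : V) :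
    F.drS (fun θ => β θ - β' θ) φ = F.drS β φ - F.drS β' φ := by
  unfold Fast.drS
  simp only [inner_sub_left]
  rw [intervalIntegral.integral_sub (drS_ii F h φ) (drS_ii F h' φ)]
  ring

theorem Fast.drS_add' (F : Fast H V) {β : ℝ → H} (h : Continuous β) (φ ψ : V) :
    F.drS β (φ + ψ) = F.drS β φ + F.drS β ψ := by
  unfold Fast.drS
  simp only [map_add, inner_add_right]
  rw [intervalIntegral.integral_add (drS_ii F h φ) (drS_ii F h ψ)]
  ring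

theorem Fast.drS_smul' (F : Fast H V) (β : ℝ → H) (a : ℝ) (φ : V) : F.drS β (a • φ) = a * F.drS β φ := by
  unfold Fast.drS
  simp only [map_smul, real_inner_smul_right]
  rw [intervalIntegral.integral_const_mul]
  ring

theorem Fast.drS_le (F : Fast H V) {K M : ℝ} {β : ℝ → H} (h1 : ∀ θ, ‖β θ‖ ≤ M) (h2 : ∀ θ, ‖F.A' θ‖ ≤ K)
    (φ : V) : |F.drS β φ| ≤ M * K * ‖φ‖ := by
  unfold Fast.drS
  have hM : 0 ≤ M := (norm_nonneg _).trans (h1 0)
  have hK : 0 ≤ K := (norm_nonneg _).trans (h2 0)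
  have hpi : 0 < 2 * Real.pi := by positivity
  have h3 : ‖∫ θ in (0:ℝ)..2 * Real.pi, ⟪β θ, F.A' θ φ⟫_ℝ‖ ≤ (M * (K * ‖φ‖)) * |2 * Real.pi - 0| := by
    refine intervalIntegral.norm_integral_le_of_norm_le_const fun θ _ => ?_
    calc ‖⟪β θ, F.A' θ φ⟫_ℝ‖ ≤ ‖β θ‖ * ‖F.A' θ φ‖ := norm_inner_le_norm _ _
      _ ≤ M * (K * ‖φ‖) := by
          gcongr
          · exact h1 θ
          · exact (F.A' θ).le_of_opNorm_le (h2 θ) φ
  rw [abs_neg, abs_mul, abs_of_pos (inv_pos.2 hpi)]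
  rw [Real.norm_eq_abs, sub_zero, abs_of_pos hpi] at h3
  calc (2 * Real.pi)⁻¹ * |∫ θ in (0:ℝ)..2 * Real.pi, ⟪β θ, F.A' θ φ⟫_ℝ|
      ≤ (2 * Real.pi)⁻¹ * ((M * (K * ‖φ‖)) * (2 * Real.pi)) := by gcongr
    _ = M * K * ‖φ‖ := by
        field_simp

theorem Fast.dr_le (F : Fast H V) {K : ℝ} (h1 : ∀ θ, ‖F.B θ‖ ≤ K) (h2 : ∀ θ, ‖F.A' θ‖ ≤ K) (u φ : V) :
    |F.dr u φ| ≤ K ^ 2 * ‖u‖ * ‖φ‖ := by
  have h3 : ∀ θ, ‖F.B θ u‖ ≤ K * ‖u‖ := fun θ => (F.B θ).le_of_opNorm_le (h1 θ) u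
  have h4 := F.drS_le h3 h2 φ
  calc |F.dr u φ| ≤ K * ‖u‖ * K * ‖φ‖ := h4
    _ = K ^ 2 * ‖u‖ * ‖φ‖ := by ring

end

end Pool.Agent.Lib.MP_79abb3_an.W
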