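import Pool.Agent.Lib.MP_79abb3_an.W.EDef

/-!
Theorem W, block E: basic facts about solutions.
-/

set_option autoImplicit false

open MeasureTheory Set Filter Topology Function
open scoped InnerProductSpace

namespace Pool.Agent.Lib.MP_79abb3_an.W

section
variable {H V : Type} [NormedAddCommGroup H] [InnerProductSpace ℝ H] [NormedAddCommGroup V]
  [InnerProductSpace ℝ V]

namespace EData
variable {E : EData H V} {K₀ K CV δ γ : ℝ} {e : ℝ → V}

theorem OK.c_anti (hE : E.OK K₀ K CV δ γ) (u v φ : V) : E.c u v φ = -E.c u φ v := by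
  have h1 := hE.c0 u (v + φ)
  have h2 := hE.c0 u v
  have h3 := hE.c0 u φ
  simp only [map_add, add_apply] at h1
  linarith

theorem OK.K1 (hE : E.OK K₀ K CV δ γ) : 1 ≤ K := hE.K₀1.trans hE.K₀K

theorem OK.ℓ0 (hE : E.OK K₀ K CV δ γ) : 0 < E.ℓ := by
  have h1 := hE.q1
  have h2 : 0 < E.q := by linarith
  have h3 := Real.pi_pos
  unfold ℓ
  positivity

/-- `E.R t e` is linear in the test field -/
theorem R_sub (E : EData H V) (t : ℝ) (e φ ψ : V) : E.R t e (φ - ψ) = E.R t e φ - E.R t e ψ := by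
  unfold R
  simp only [map_sub, inner_sub_right]
  ring

private theorem ea3_a (hE : E.OK K₀ K CV δ γ) : ContinuousOn E.a (Icc 0 1) := by
  have hK : 0 ≤ K := le_trans zero_le_one hE.K1
  have h1 : LipschitzOnWith (Real.toNNReal K) E.a (Icc 0 1) := by
    refine LipschitzOnWith.of_dist_le_mul fun t ht r hr => ?_
    rw [Real.dist_eq, Real.dist_eq, Real.coe_toNNReal K hK]
    exact hE.al t ht r hr
  exact h1.continuousOn

private theorem ea3_fast (hE : E.OK K₀ K CV δ γ) (hs : E.Sol e) {φ : ℝ → V}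
    (hφ : ContinuousOn φ (Icc 0 1)) :
    ContinuousOn (fun r => E.q ^ 12 * (E.a r *
      ⟪E.A (E.q ^ 24 * r) (e r) + E.as (E.q ^ 24 * r) r, E.ι (φ r)⟫_ℝ)) (Icc 0 1) := by
  have h1 : ContinuousOn (fun r => E.A (E.q ^ 24 * r)) (Icc 0 1) :=
    (E.cA.comp (continuous_const.mul continuous_id)).continuousOn
  have h2 : ContinuousOn (fun r : ℝ => E.as (E.q ^ 24 * r) r) (Icc 0 1) := by
    have h3 : ContinuousOn (fun r : ℝ => ((E.q ^ 24 * r, r) : ℝ × ℝ)) (Icc 0 1) := by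
      fun_prop
    exact hE.cas.comp h3 fun r hr => ⟨mem_univ _, hr⟩
  have h4 : ContinuousOn (fun r => E.ι (φ r)) (Icc 0 1) := E.ι.continuous.comp_continuousOn hφ
  exact continuousOn_const.mul ((ea3_a hE).mul (((h1.clm_apply hs.ce).add h2).inner h4))

private theorem ea3_low (hE : E.OK K₀ K CV δ γ) (hs : E.Sol e) {φ : ℝ → V}
    (hφ : ContinuousOn φ (Icc 0 1)) :
    ContinuousOn (fun r => ⟪E.m (E.ι (e r)), E.ι (φ r)⟫_ℝ + ⟪E.s' r, E.ι (φ r)⟫_ℝ) (Icc 0 1) := by
  have h4 : ContinuousOn (fun r => E.ι (φ r)) (Icc 0 1) := E.ι.continuous.comp_continuousOn hφ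
  have h5 : ContinuousOn (fun r => E.m (E.ι (e r))) (Icc 0 1) :=
    E.m.continuous.comp_continuousOn (E.ι.continuous.comp_continuousOn hs.ce)
  exact (h5.inner h4).add (hE.cs'.inner h4)

/-- the integrands are continuous -/
theorem Sol.cR (hE : E.OK K₀ K CV δ γ) (hs : E.Sol e) {φ : ℝ → V} (hφ : ContinuousOn φ (Icc 0 1)) :
    ContinuousOn (fun r => E.R r (e r) (φ r)) (Icc 0 1) := by
  unfold R
  have h1 := ea3_fast hE hs hφ
  have h2 := ea3_low hE hs hφ
  have h3 : ContinuousOn (fun r => E.d r (e r) (φ r)) (Icc 0 1) :=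
    (hE.cd.clm_apply hs.ce).clm_apply hφ
  have h4 : ContinuousOn (fun r => E.c (e r) (e r) (φ r)) (Icc 0 1) :=
    ((E.c.continuous.comp_continuousOn hs.ce).clm_apply hs.ce).clm_apply hφ
  have h5 : ContinuousOn (fun r => E.g r (φ r)) (Icc 0 1) := hE.cg.clm_apply hφ
  exact (h1.add h2).add (((continuousOn_const.mul h3).add (continuousOn_const.mul h4)).sub h5)

theorem Sol.cfast (hE : E.OK K₀ K CV δ γ) (hs : E.Sol e) : ContinuousOn (E.fast e) (Icc 0 1) :=
  ea3_fast hE hs hs.ce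

theorem Sol.clow (hE : E.OK K₀ K CV δ γ) (hs : E.Sol e) : ContinuousOn (E.low e) (Icc 0 1) :=
  ea3_low hE hs hs.ce

/-- the identity for `h = e - e(t₀)` -/
theorem Sol.hEq (hE : E.OK K₀ K CV δ γ) (hs : E.Sol e) {t₀ t : ℝ} (h0 : 0 ≤ t₀) (h1 : t₀ ≤ t)
    (h2 : t ≤ 1) : 1 / 2 * ‖E.ι (e t) - E.ι (e t₀)‖ ^ 2 = -∫ r in t₀..t, E.R r (e r) (e r - e t₀) := by
  have hsub : uIcc t₀ t ⊆ Icc 0 1 := by
    rw [uIcc_of_le h1]
    exact Icc_subset_Icc h0 h2
  have i1 : IntervalIntegrable (fun r => E.R r (e r) (e r)) volume t₀ t :=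
    ((hs.cR hE hs.ce).mono hsub).intervalIntegrable
  have i2 : IntervalIntegrable (fun r => E.R r (e r) (e t₀)) volume t₀ t :=
    ((hs.cR hE (φ := fun _ => e t₀) continuousOn_const).mono hsub).intervalIntegrable
  simp only [R_sub]
  rw [intervalIntegral.integral_sub i1 i2]
  have h3 := hs.energy t₀ t h0 h1 h2
  have h4 := hs.weak (e t₀) t₀ t h0 h1 h2
  rw [@norm_sub_sq_real]
  rw [real_inner_self_eq_norm_sq] at h4
  linarith

end EData

end

end Pool.Agent.Lib.MP_79abb3_an.W
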