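import Pool.Agent.Lib.MP_79abb3_an.W.EA1
import Pool.Agent.Lib.MP_79abb3_an.W.EA3

/-!
Theorem W, block E: pointwise bound of the rate for `e - e₀`.
-/

set_option autoImplicit false

open MeasureTheory Set Filter Topology Function
open scoped InnerProductSpace

namespace Pool.Agent.Lib.MP_79abb3_an.W

section
variable {H V : Type} [NormedAddCommGroup H] [InnerProductSpace ℝ H] [NormedAddCommGroup V]
  [InnerProductSpace ℝ V]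

namespace EData

/-- **Pointwise bound of the rate for `h = e - e₀`**, `β ≥ 1`, `‖e₀‖ ≤ β²`. Proof:
`⟪A e, ιh⟫ = ⟪A h, ιh⟫ + ⟪A e₀, ιh⟫`, `⟪A h, ιh⟫ = ⟪S ιh, ιh⟫` (`Fast.Aself`), `d e h = d h h + d e₀ h`,
`d h h ≥ 3/4 ‖h‖² - K₀ ‖ιh‖²`, `c e h h = 0`, so `c e e h = c e e₀ h`, `|c e e₀ h| ≤ K₀ ‖e₀‖ (n(e)² + n(h)²)/2`,
`nb` with `η = 1/β`; `‖ιh‖ ≤ 2 K₀`, `‖h‖ ≤ ‖e‖ + β²`, `‖e‖ ≤ 1 + ‖e‖²`. -/
theorem OK.h_pt (K : ℝ) : ∃ C, 0 ≤ C ∧ ∀ (E : EData H V) (K₀ CV δ γ : ℝ), E.OK K₀ K CV δ γ →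
    ∀ t ∈ Icc (0:ℝ) 1, ∀ (e e₀ : V) (β : ℝ), 1 ≤ β → ‖e₀‖ ≤ β ^ 2 → ‖E.ι e‖ ≤ K₀ → ‖E.ι e₀‖ ≤ K₀ →
    -E.R t e (e - e₀) ≤
      E.q ^ 12 * (K * ‖E.ι (e - e₀)‖ ^ 2 + 2 * K * β ^ 2 * ‖E.ι (e - e₀)‖) +
        C * (β * ‖e‖ ^ 2 + β ^ 5) := by
  refine ⟨16 * K ^ 4, by positivity, ?_⟩
  intro E K₀ CV δ γ hE t ht e e₀ β hβ he₀ hιe hιe₀
  have hK1 := hE.K1
  have hK₀1 := hE.K₀1
  have hK₀K := hE.K₀K
  have hb0 := hE.b0
  have hb1 := hE.b1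
  have hq0 : 0 < E.q := by linarith [hE.q1]
  set h : V := e - e₀ with hh
  set x : ℝ := ‖E.ι h‖ with hx
  set N : ℝ := ‖e‖ with hN
  have hx0 : 0 ≤ x := norm_nonneg _
  have hN0 : 0 ≤ N := norm_nonneg _
  have hx2 : x ≤ 2 * K₀ := by
    have h1 : E.ι h = E.ι e - E.ι e₀ := by rw [hh, map_sub]
    rw [hx, h1]
    exact (norm_sub_le _ _).trans (by linarith)
  have hh1 : ‖h‖ ≤ N + β ^ 2 := (norm_sub_le _ _).trans (by linarith)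
  have hee : e = e₀ + h := by rw [hh]; abel
  -- powers of beta
  have hβ0 : 0 ≤ β := by linarith
  have b2 : 1 ≤ β ^ 2 := one_le_pow₀ hβ
  have b5 : 1 ≤ β ^ 5 := one_le_pow₀ hβ
  have b15 : β ≤ β ^ 5 := le_self_pow₀ hβ (by norm_num)
  have b25 : β ^ 2 ≤ β ^ 5 := pow_le_pow_right₀ hβ (by norm_num)
  have b35 : β ^ 3 ≤ β ^ 5 := pow_le_pow_right₀ hβ (by norm_num)
  have b45 : β ^ 4 ≤ β ^ 5 := pow_le_pow_right₀ hβ (by norm_num)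
  have hNβ : β ^ 2 * N ≤ β * N ^ 2 + β ^ 5 := by nlinarith [sq_nonneg (N - β), mul_nonneg hβ0 (sq_nonneg (N - β))]
  have hN1 : N ≤ β * N ^ 2 + β ^ 5 := by nlinarith [sq_nonneg (N - 1), mul_nonneg hβ0 (sq_nonneg N)]
  have hβN : 0 ≤ β * N ^ 2 := by positivity
  -- term 1
  have t1 : -(E.a t * ⟪E.A (E.q ^ 24 * t) e + E.as (E.q ^ 24 * t) t, E.ι h⟫_ℝ) ≤
      K * x ^ 2 + 2 * K * β ^ 2 * x := by
    have e1 : ⟪E.A (E.q ^ 24 * t) e + E.as (E.q ^ 24 * t) t, E.ι h⟫_ℝ =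
        ⟪E.S (E.q ^ 24 * t) (E.ι h), E.ι h⟫_ℝ + ⟪E.A (E.q ^ 24 * t) e₀, E.ι h⟫_ℝ +
        ⟪E.as (E.q ^ 24 * t) t, E.ι h⟫_ℝ := by
      have e2 : E.A (E.q ^ 24 * t) e = E.A (E.q ^ 24 * t) e₀ + E.A (E.q ^ 24 * t) h := by
        rw [← map_add, ← hee]
      have e3 := E.toFast.Aself (E.q ^ 24 * t) h
      rw [e2, inner_add_left, inner_add_left, e3]
      ring
    have c1 : |⟪E.S (E.q ^ 24 * t) (E.ι h), E.ι h⟫_ℝ| ≤ K * x ^ 2 := by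
      have h1 : ‖E.S (E.q ^ 24 * t) (E.ι h)‖ ≤ K * x :=
        ((E.S (E.q ^ 24 * t)).le_opNorm _).trans (mul_le_mul_of_nonneg_right (hE.Sb _) hx0)
      calc |⟪E.S (E.q ^ 24 * t) (E.ι h), E.ι h⟫_ℝ| ≤ ‖E.S (E.q ^ 24 * t) (E.ι h)‖ * ‖E.ι h‖ :=
            abs_real_inner_le_norm _ _
        _ ≤ (K * x) * x := mul_le_mul_of_nonneg_right h1 hx0
        _ = K * x ^ 2 := by ring
    have c2 : |⟪E.A (E.q ^ 24 * t) e₀, E.ι h⟫_ℝ| ≤ K * β ^ 2 * x := by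
      have h1 : ‖E.A (E.q ^ 24 * t) e₀‖ ≤ K * β ^ 2 :=
        ((E.A (E.q ^ 24 * t)).le_opNorm _).trans
          (mul_le_mul (hE.Ab _) he₀ (norm_nonneg _) (by linarith))
      exact (abs_real_inner_le_norm _ _).trans (mul_le_mul_of_nonneg_right h1 hx0)
    have c3 : |⟪E.as (E.q ^ 24 * t) t, E.ι h⟫_ℝ| ≤ K * β ^ 2 * x := by
      have h1 : ‖E.as (E.q ^ 24 * t) t‖ ≤ K * β ^ 2 := by
        have h2 := hE.asb t ht (E.q ^ 24 * t)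
        nlinarith
      exact (abs_real_inner_le_norm _ _).trans (mul_le_mul_of_nonneg_right h1 hx0)
    have hZ : |⟪E.A (E.q ^ 24 * t) e + E.as (E.q ^ 24 * t) t, E.ι h⟫_ℝ| ≤
        K * x ^ 2 + 2 * K * β ^ 2 * x := by
      rw [e1]
      refine (abs_add_three _ _ _).trans ?_
      linarith
    refine (neg_le_abs _).trans ?_
    rw [abs_mul]
    have h3 := hE.ab t ht
    calc |E.a t| * |⟪E.A (E.q ^ 24 * t) e + E.as (E.q ^ 24 * t) t, E.ι h⟫_ℝ| ≤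
          1 * |⟪E.A (E.q ^ 24 * t) e + E.as (E.q ^ 24 * t) t, E.ι h⟫_ℝ| :=
          mul_le_mul_of_nonneg_right h3 (abs_nonneg _)
      _ ≤ _ := by rw [one_mul]; exact hZ
  -- term 2
  have t2 : -⟪E.m (E.ι e), E.ι h⟫_ℝ ≤ 2 * K ^ 3 := by
    have h1 : ‖E.m (E.ι e)‖ ≤ K * K₀ :=
      (E.m.le_opNorm _).trans (mul_le_mul hE.mb hιe (norm_nonneg _) (by linarith))
    have h2 : |⟪E.m (E.ι e), E.ι h⟫_ℝ| ≤ (K * K₀) * (2 * K₀) :=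
      (abs_real_inner_le_norm _ _).trans (mul_le_mul h1 hx2 hx0 (by positivity))
    have h3 : (K * K₀) * (2 * K₀) ≤ 2 * K ^ 3 := by
      have h4 : K₀ * K₀ ≤ K * K := mul_le_mul hK₀K hK₀K (by linarith) (by linarith)
      nlinarith
    linarith [neg_le_abs ⟪E.m (E.ι e), E.ι h⟫_ℝ]
  have t3 : -⟪E.s' t, E.ι h⟫_ℝ ≤ 2 * K ^ 2 := by
    have h1 : |⟪E.s' t, E.ι h⟫_ℝ| ≤ K * (2 * K₀) :=
      (abs_real_inner_le_norm _ _).trans (mul_le_mul (hE.s'b t ht) hx2 hx0 (by linarith))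
    have h2 : K * (2 * K₀) ≤ 2 * K ^ 2 := by nlinarith
    linarith [neg_le_abs ⟪E.s' t, E.ι h⟫_ℝ]
  -- term 4: viscosity
  have t4 : -(E.b * E.d t e h) ≤ 4 * K ^ 3 + K * (β * N ^ 2 + 2 * β ^ 5) := by
    have e1 : E.d t e h = E.d t e₀ h + E.d t h h := by
      rw [← add_apply, ← map_add, ← hee]
    have h1 := hE.dc t ht h
    have h2 := hE.db t ht e₀ h
    have h3 : K₀ * ‖e₀‖ * ‖h‖ ≤ K * β ^ 2 * (N + β ^ 2) := by
      refine mul_le_mul (mul_le_mul hK₀K he₀ (norm_nonneg _) (by linarith)) hh1 (norm_nonneg _)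
        (by positivity)
    have h4 : K * β ^ 2 * (N + β ^ 2) ≤ K * (β * N ^ 2 + 2 * β ^ 5) := by
      have h5 : β ^ 2 * (N + β ^ 2) ≤ β * N ^ 2 + 2 * β ^ 5 := by
        have h6 : β ^ 2 * (N + β ^ 2) = β ^ 2 * N + β ^ 4 := by ring
        rw [h6]
        linarith
      calc K * β ^ 2 * (N + β ^ 2) = K * (β ^ 2 * (N + β ^ 2)) := by ring
        _ ≤ _ := mul_le_mul_of_nonneg_left h5 (by linarith)
    have h6 : K₀ * x ^ 2 ≤ 4 * K ^ 3 := by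
      have h7 : x ^ 2 ≤ (2 * K) ^ 2 := pow_le_pow_left₀ hx0 (by linarith) 2
      have h8 : K₀ * x ^ 2 ≤ K * (2 * K) ^ 2 := mul_le_mul hK₀K h7 (by positivity) (by linarith)
      have h9 : K * (2 * K) ^ 2 = 4 * K ^ 3 := by ring
      linarith
    have h7 : -E.d t e h ≤ 4 * K ^ 3 + K * (β * N ^ 2 + 2 * β ^ 5) := by
      rw [e1]
      have h8 := neg_le_abs (E.d t e₀ h)
      have h9 : 0 ≤ ‖h‖ ^ 2 := by positivity
      linarith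
    have h10 : 0 ≤ 4 * K ^ 3 + K * (β * N ^ 2 + 2 * β ^ 5) := by positivity
    have h11 : -(E.b * E.d t e h) = E.b * (-E.d t e h) := by ring
    rw [h11]
    nlinarith
  -- term 5: nonlinearity
  have t5 : -(E.b * E.c e e h) ≤ K / 2 * (3 * (β * N ^ 2) + (5 * K ^ 3 + 2) * β ^ 5) := by
    have e1 : E.c e e h = E.c e e₀ h := by
      have h1 : E.c e e h = E.c e e₀ h + E.c e h h := by
        rw [← add_apply, ← map_add, ← hee]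
      rw [h1, hE.c0, add_zero]
    have h1 := hE.cb e e₀ h
    have hn1 := hE.n0 e
    have hn2 := hE.n0 h
    have hη : 0 < 1 / β := by positivity
    have hη1 : 1 / β ≤ 1 := by
      rw [div_le_one (by linarith)]
      exact hβ
    have n1 : E.n e ^ 2 ≤ 1 / β * N ^ 2 + K ^ 3 * β ^ 3 := by
      have h2 := hE.nb e (1 / β) hη hη1
      have h3 : K₀ / (1 / β) ^ 3 * ‖E.ι e‖ ^ 2 ≤ K ^ 3 * β ^ 3 := by
        have h4 : K₀ / (1 / β) ^ 3 = K₀ * β ^ 3 := by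
          field_simp
        rw [h4]
        have h5 : ‖E.ι e‖ ^ 2 ≤ K ^ 2 := pow_le_pow_left₀ (norm_nonneg _) (by linarith) 2
        calc K₀ * β ^ 3 * ‖E.ι e‖ ^ 2 ≤ K * β ^ 3 * K ^ 2 :=
              mul_le_mul (mul_le_mul_of_nonneg_right hK₀K (by positivity)) h5 (by positivity)
                (by positivity)
          _ = K ^ 3 * β ^ 3 := by ring
      linarith
    have n2 : E.n h ^ 2 ≤ 1 / β * (2 * N ^ 2 + 2 * β ^ 4) + 4 * K ^ 3 * β ^ 3 := by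
      have h2 := hE.nb h (1 / β) hη hη1
      have h3 : K₀ / (1 / β) ^ 3 * ‖E.ι h‖ ^ 2 ≤ 4 * K ^ 3 * β ^ 3 := by
        have h4 : K₀ / (1 / β) ^ 3 = K₀ * β ^ 3 := by
          field_simp
        rw [h4]
        have h5 : ‖E.ι h‖ ^ 2 ≤ (2 * K) ^ 2 := pow_le_pow_left₀ (norm_nonneg _) (by linarith) 2
        calc K₀ * β ^ 3 * ‖E.ι h‖ ^ 2 ≤ K * β ^ 3 * (2 * K) ^ 2 :=
              mul_le_mul (mul_le_mul_of_nonneg_right hK₀K (by positivity)) h5 (by positivity)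
                (by positivity)
          _ = 4 * K ^ 3 * β ^ 3 := by ring
      have h6 : ‖h‖ ^ 2 ≤ 2 * N ^ 2 + 2 * β ^ 4 := by
        have h7 : ‖h‖ ^ 2 ≤ (N + β ^ 2) ^ 2 := pow_le_pow_left₀ (norm_nonneg _) hh1 2
        nlinarith [sq_nonneg (N - β ^ 2)]
      have h8 : 1 / β * ‖h‖ ^ 2 ≤ 1 / β * (2 * N ^ 2 + 2 * β ^ 4) :=
        mul_le_mul_of_nonneg_left h6 hη.le
      linarith
    have h2 : |E.c e e₀ h| ≤ K / 2 * (β ^ 2 * (E.n e ^ 2 + E.n h ^ 2)) := by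
      have h3 : K₀ * E.n e * ‖e₀‖ * E.n h ≤ K * β ^ 2 * (E.n e * E.n h) := by
        have h4 : K₀ * ‖e₀‖ ≤ K * β ^ 2 := mul_le_mul hK₀K he₀ (norm_nonneg _) (by linarith)
        calc K₀ * E.n e * ‖e₀‖ * E.n h = (K₀ * ‖e₀‖) * (E.n e * E.n h) := by ring
          _ ≤ _ := mul_le_mul_of_nonneg_right h4 (mul_nonneg hn1 hn2)
      have h5 : E.n e * E.n h ≤ (E.n e ^ 2 + E.n h ^ 2) / 2 := by nlinarith [sq_nonneg (E.n e - E.n h)]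
      have h6 : K * β ^ 2 * (E.n e * E.n h) ≤ K * β ^ 2 * ((E.n e ^ 2 + E.n h ^ 2) / 2) :=
        mul_le_mul_of_nonneg_left h5 (by positivity)
      calc |E.c e e₀ h| ≤ K₀ * E.n e * ‖e₀‖ * E.n h := h1
        _ ≤ K * β ^ 2 * (E.n e * E.n h) := h3
        _ ≤ K * β ^ 2 * ((E.n e ^ 2 + E.n h ^ 2) / 2) := h6
        _ = _ := by ring
    have h3 : β ^ 2 * (E.n e ^ 2 + E.n h ^ 2) ≤ 3 * (β * N ^ 2) + (5 * K ^ 3 + 2) * β ^ 5 := by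
      have h4 : β ^ 2 * (E.n e ^ 2 + E.n h ^ 2) ≤
          β ^ 2 * (1 / β * (3 * N ^ 2 + 2 * β ^ 4) + 5 * K ^ 3 * β ^ 3) := by
        refine mul_le_mul_of_nonneg_left ?_ (by positivity)
        have h5 : 1 / β * (3 * N ^ 2 + 2 * β ^ 4) = 1 / β * N ^ 2 + 1 / β * (2 * N ^ 2 + 2 * β ^ 4) := by
          ring
        rw [h5]
        linarith
      have h5 : β ^ 2 * (1 / β * (3 * N ^ 2 + 2 * β ^ 4) + 5 * K ^ 3 * β ^ 3) =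
          3 * (β * N ^ 2) + (5 * K ^ 3 + 2) * β ^ 5 := by
        field_simp
        ring
      linarith
    have h4 : |E.c e e₀ h| ≤ K / 2 * (3 * (β * N ^ 2) + (5 * K ^ 3 + 2) * β ^ 5) :=
      h2.trans (mul_le_mul_of_nonneg_left h3 (by linarith))
    have h5 : 0 ≤ K / 2 * (3 * (β * N ^ 2) + (5 * K ^ 3 + 2) * β ^ 5) := by positivity
    rw [e1]
    have h6 : -(E.b * E.c e e₀ h) = E.b * (-E.c e e₀ h) := by ring
    rw [h6]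
    have h7 := neg_le_abs (E.c e e₀ h)
    nlinarith
  -- term 6: residual
  have t6 : E.g t h ≤ β * N ^ 2 + 2 * β ^ 5 := by
    have h1 : |E.g t h| ≤ ‖h‖ := by
      have h2 := (E.g t).le_opNorm h
      have h3 : ‖E.g t‖ ≤ 1 := (hE.gb t ht).trans hE.γ1
      rw [Real.norm_eq_abs] at h2
      nlinarith [norm_nonneg h]
    linarith [le_abs_self (E.g t h)]
  -- the sum
  have hR : -E.R t e h = E.q ^ 12 * (-(E.a t * ⟪E.A (E.q ^ 24 * t) e + E.as (E.q ^ 24 * t) t, E.ι h⟫_ℝ)) +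
      (-⟪E.m (E.ι e), E.ι h⟫_ℝ) + (-⟪E.s' t, E.ι h⟫_ℝ) + (-(E.b * E.d t e h)) + (-(E.b * E.c e e h)) +
      E.g t h := by
    unfold R
    ring
  rw [hR]
  have hq : E.q ^ 12 * (-(E.a t * ⟪E.A (E.q ^ 24 * t) e + E.as (E.q ^ 24 * t) t, E.ι h⟫_ℝ)) ≤
      E.q ^ 12 * (K * x ^ 2 + 2 * K * β ^ 2 * x) :=
    mul_le_mul_of_nonneg_left t1 (by positivity)
  have k2 : K ^ 2 ≤ K ^ 4 := pow_le_pow_right₀ hK1 (by norm_num)
  have k3 : K ^ 3 ≤ K ^ 4 := pow_le_pow_right₀ hK1 (by norm_num)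
  have k1 : K ≤ K ^ 4 := le_self_pow₀ hK1 (by norm_num)
  have k0 : 1 ≤ K ^ 4 := one_le_pow₀ hK1
  have s1 : 2 * K ^ 3 + 2 * K ^ 2 + 4 * K ^ 3 ≤ 8 * K ^ 4 * β ^ 5 := by
    have h1 : 2 * K ^ 3 + 2 * K ^ 2 + 4 * K ^ 3 ≤ 8 * K ^ 4 * 1 := by linarith
    exact h1.trans (mul_le_mul_of_nonneg_left b5 (by positivity))
  have s2 : K * (β * N ^ 2 + 2 * β ^ 5) ≤ K ^ 4 * (β * N ^ 2) + 2 * K ^ 4 * β ^ 5 := by
    have h1 : K * (β * N ^ 2 + 2 * β ^ 5) ≤ K ^ 4 * (β * N ^ 2 + 2 * β ^ 5) :=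
      mul_le_mul_of_nonneg_right k1 (by positivity)
    linarith
  have s3 : K / 2 * (3 * (β * N ^ 2) + (5 * K ^ 3 + 2) * β ^ 5) ≤
      3 / 2 * K ^ 4 * (β * N ^ 2) + 7 / 2 * K ^ 4 * β ^ 5 := by
    have h1 : K / 2 * (3 * (β * N ^ 2) + (5 * K ^ 3 + 2) * β ^ 5) =
        3 / 2 * (K * (β * N ^ 2)) + 5 / 2 * K ^ 4 * β ^ 5 + K * β ^ 5 := by ring
    have h2 : K * (β * N ^ 2) ≤ K ^ 4 * (β * N ^ 2) := mul_le_mul_of_nonneg_right k1 hβN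
    have h3 : K * β ^ 5 ≤ K ^ 4 * β ^ 5 := mul_le_mul_of_nonneg_right k1 (by positivity)
    rw [h1]
    linarith
  have s4 : β * N ^ 2 + 2 * β ^ 5 ≤ K ^ 4 * (β * N ^ 2) + 2 * (K ^ 4 * β ^ 5) := by
    have h1 : 1 * (β * N ^ 2) ≤ K ^ 4 * (β * N ^ 2) := mul_le_mul_of_nonneg_right k0 hβN
    have h2 : 1 * β ^ 5 ≤ K ^ 4 * β ^ 5 := mul_le_mul_of_nonneg_right k0 (by positivity)
    linarith
  have hpos1 : 0 ≤ K ^ 4 * (β * N ^ 2) := by positivity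
  have hpos2 : 0 ≤ K ^ 4 * β ^ 5 := by positivity
  have hfin : 16 * K ^ 4 * (β * N ^ 2 + β ^ 5) = 16 * (K ^ 4 * (β * N ^ 2)) + 16 * (K ^ 4 * β ^ 5) := by
    ring
  rw [hfin]
  linarith

end EData

end

end Pool.Agent.Lib.MP_79abb3_an.W
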