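import Pool.Agent.Lib.MP_79abb3_an.W.EA1
import Pool.Agent.Lib.MP_79abb3_an.W.EA3
import Pool.Agent.Lib.MP_79abb3_an.W.EB1

section

/-!
Theorem W, block E: mean values over a period.
-/

set_option autoImplicit false

open MeasureTheory Set Filter Topology Function
open scoped InnerProductSpace

namespace Pool.Agent.Lib.MP_79abb3_an.W

section
variable {H V : Type} [NormedAddCommGroup H] [InnerProductSpace ℝ H] [NormedAddCommGroup V]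
  [InnerProductSpace ℝ V]

/-- periodic functions: the integral over the `k`-th period of length `2π/κ` -/
theorem int_period {f : ℝ → ℝ} (hf : ∀ θ, f (θ + 2 * Real.pi) = f θ) {κ : ℝ} (hκ : 0 < κ) (k : ℕ) :
    ∫ r in (k * (2 * Real.pi / κ))..(k * (2 * Real.pi / κ) + 2 * Real.pi / κ), f (κ * r) =
      κ⁻¹ * ∫ θ in (0:ℝ)..2 * Real.pi, f θ := by
  have h1 : Function.Periodic f (2 * Real.pi) := hf
  rw [intervalIntegral.integral_comp_mul_left (fun x => f x) hκ.ne', smul_eq_mul]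
  have h2 : κ * (k * (2 * Real.pi / κ)) = k * (2 * Real.pi) := by field_simp
  have h3 : κ * (k * (2 * Real.pi / κ) + 2 * Real.pi / κ) = k * (2 * Real.pi) + 2 * Real.pi := by field_simp
  rw [h2, h3, h1.intervalIntegral_add_eq (k * (2 * Real.pi)) 0, zero_add]

/-- **The resonance.** Over a period the leading term is the drift. Proof: with `p(θ) = B(θ) e + β(θ) - z`,
`p' = A e + α`, `2 S ι e + α = p' + A' e`, `∫ ⟪p, p'⟫ = 0` by periodicity, `∫ ⟪z, A' e⟫ = 0` (`Fast.mA'`). -/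
theorem Fast.res (F : Fast H V) {β α : ℝ → H} (hβ : ∀ θ, HasDerivAt β (α θ) θ) (hα : Continuous α)
    (pβ : ∀ θ, β (θ + 2 * Real.pi) = β θ) {κ : ℝ} (hκ : 0 < κ) (k : ℕ) (e : V) (z : H) :
    ∫ r in (k * (2 * Real.pi / κ))..(k * (2 * Real.pi / κ) + 2 * Real.pi / κ),
      ⟪F.B (κ * r) e + β (κ * r) - z, (2 : ℝ) • F.S (κ * r) (F.ι e) + α (κ * r)⟫_ℝ =
      -(2 * Real.pi / κ * (F.dr e e + F.drS β e)) := by
  have hBc : Continuous fun θ => F.B θ e := F.cB.clm_apply continuous_const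
  have hβc : Continuous β := continuous_iff_continuousAt.2 fun θ => (hβ θ).continuousAt
  have hpc : Continuous fun θ => F.B θ e + β θ - z := (hBc.add hβc).sub continuous_const
  have hAc : Continuous fun θ => F.A θ e := F.cA.clm_apply continuous_const
  have hA'c : Continuous fun θ => F.A' θ e := F.cA'.clm_apply continuous_const
  have hB : ∀ θ, HasDerivAt (fun θ => F.B θ e) (F.A θ e) θ := fun θ => by
    simpa using (F.dB θ).clm_apply (hasDerivAt_const θ e)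
  have hp : ∀ θ, HasDerivAt (fun θ => F.B θ e + β θ - z) (F.A θ e + α θ) θ := fun θ =>
    ((hB θ).add (hβ θ)).sub_const z
  have hper : ∀ θ, ⟪F.B (θ + 2 * Real.pi) e + β (θ + 2 * Real.pi) - z,
      (2 : ℝ) • F.S (θ + 2 * Real.pi) (F.ι e) + α (θ + 2 * Real.pi)⟫_ℝ =
      ⟪F.B θ e + β θ - z, (2 : ℝ) • F.S θ (F.ι e) + α θ⟫_ℝ := by
    intro θ
    have hα' : α (θ + 2 * Real.pi) = α θ := by
      have h1 : HasDerivAt (fun x : ℝ => β (x + 2 * Real.pi)) (α (θ + 2 * Real.pi)) θ :=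
        (hβ (θ + 2 * Real.pi)).comp_add_const θ (2 * Real.pi)
      have h2 : (fun x : ℝ => β (x + 2 * Real.pi)) = β := funext pβ
      rw [h2] at h1
      exact h1.unique (hβ θ)
    rw [F.pB, F.pS, pβ, hα']
  rw [int_period (f := fun θ => ⟪F.B θ e + β θ - z, (2 : ℝ) • F.S θ (F.ι e) + α θ⟫_ℝ) hper hκ k]
  have h1 : ∀ θ, ⟪F.B θ e + β θ - z, (2 : ℝ) • F.S θ (F.ι e) + α θ⟫_ℝ =
      ⟪F.B θ e + β θ - z, F.A θ e + α θ⟫_ℝ +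
        (⟪F.B θ e, F.A' θ e⟫_ℝ + ⟪β θ, F.A' θ e⟫_ℝ - ⟪F.A' θ e, z⟫_ℝ) := by
    intro θ
    rw [← F.sym θ e, real_inner_comm z (F.A' θ e)]
    simp only [inner_add_left, inner_add_right, inner_sub_left]
    ring
  have h2 : ∫ θ in (0:ℝ)..2 * Real.pi, ⟪F.B θ e + β θ - z, F.A θ e + α θ⟫_ℝ = 0 := by
    have hd : ∀ θ ∈ uIcc (0:ℝ) (2 * Real.pi), HasDerivAt
        (fun θ => 1 / 2 * ⟪F.B θ e + β θ - z, F.B θ e + β θ - z⟫_ℝ) ⟪F.B θ e + β θ - z, F.A θ e + α θ⟫_ℝ θ := by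
      intro θ _
      have h3 := ((hp θ).inner ℝ (hp θ)).const_mul (1 / 2)
      have h4 : 1 / 2 * (⟪F.B θ e + β θ - z, F.A θ e + α θ⟫_ℝ + ⟪F.A θ e + α θ, F.B θ e + β θ - z⟫_ℝ) =
          ⟪F.B θ e + β θ - z, F.A θ e + α θ⟫_ℝ := by
        rw [real_inner_comm (F.B θ e + β θ - z) (F.A θ e + α θ)]
        ring
      rw [h4] at h3
      exact h3
    rw [intervalIntegral.integral_eq_sub_of_hasDerivAt hd
      ((hpc.inner (hAc.add hα)).intervalIntegrable _ _)]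
    have h5 := F.pB 0
    have h6 := pβ 0
    rw [zero_add] at h5 h6
    rw [h5, h6, sub_self]
  have i1 : IntervalIntegrable (fun θ => ⟪F.B θ e + β θ - z, F.A θ e + α θ⟫_ℝ) volume 0 (2 * Real.pi) :=
    (hpc.inner (hAc.add hα)).intervalIntegrable _ _
  have i2 : IntervalIntegrable (fun θ => ⟪F.B θ e, F.A' θ e⟫_ℝ) volume 0 (2 * Real.pi) :=
    (hBc.inner hA'c).intervalIntegrable _ _
  have i3 : IntervalIntegrable (fun θ => ⟪β θ, F.A' θ e⟫_ℝ) volume 0 (2 * Real.pi) :=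
    (hβc.inner hA'c).intervalIntegrable _ _
  have i4 : IntervalIntegrable (fun θ => ⟪F.A' θ e, z⟫_ℝ) volume 0 (2 * Real.pi) :=
    (hA'c.inner continuous_const).intervalIntegrable _ _
  simp only [h1]
  rw [intervalIntegral.integral_add i1 ((i2.add i3).sub i4), h2, zero_add,
    intervalIntegral.integral_sub (i2.add i3) i4, intervalIntegral.integral_add i2 i3, F.mA', sub_zero]
  unfold Fast.dr Fast.drS
  have hpi : (2 * Real.pi) ≠ 0 := by positivity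
  field_simp
  ring

/-- mean zero over a period -/
theorem Fast.mean (F : Fast H V) {β α : ℝ → H} (hβ : ∀ θ, HasDerivAt β (α θ) θ) (hα : Continuous α)
    (pβ : ∀ θ, β (θ + 2 * Real.pi) = β θ) {κ : ℝ} (hκ : 0 < κ) (k : ℕ) (x z : H) :
    ∫ r in (k * (2 * Real.pi / κ))..(k * (2 * Real.pi / κ) + 2 * Real.pi / κ),
      (⟪F.S (κ * r) x, z⟫_ℝ + ⟪α (κ * r), z⟫_ℝ) = 0 := by
  have hper : ∀ θ, ⟪F.S (θ + 2 * Real.pi) x, z⟫_ℝ + ⟪α (θ + 2 * Real.pi), z⟫_ℝ = ⟪F.S θ x, z⟫_ℝ + ⟪α θ, z⟫_ℝ := by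
    intro θ
    have hα' : α (θ + 2 * Real.pi) = α θ := by
      have h1 : HasDerivAt (fun x : ℝ => β (x + 2 * Real.pi)) (α (θ + 2 * Real.pi)) θ :=
        (hβ (θ + 2 * Real.pi)).comp_add_const θ (2 * Real.pi)
      have h2 : (fun x : ℝ => β (x + 2 * Real.pi)) = β := funext pβ
      rw [h2] at h1
      exact h1.unique (hβ θ)
    rw [F.pS, hα']
  rw [int_period (f := fun θ => ⟪F.S θ x, z⟫_ℝ + ⟪α θ, z⟫_ℝ) hper hκ k]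
  have i1 : IntervalIntegrable (fun θ => ⟪F.S θ x, z⟫_ℝ) volume 0 (2 * Real.pi) :=
    ((F.cS.clm_apply continuous_const).inner continuous_const).intervalIntegrable _ _
  have i2 : IntervalIntegrable (fun θ => ⟪α θ, z⟫_ℝ) volume 0 (2 * Real.pi) :=
    (hα.inner continuous_const).intervalIntegrable _ _
  rw [intervalIntegral.integral_add i1 i2, F.mS]
  have h3 := ftc_path hβ hα one_pos 0 (2 * Real.pi) z
  simp only [one_mul] at h3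
  have h6 := pβ 0
  rw [zero_add] at h6
  rw [h3, h6]
  simp

end

end Pool.Agent.Lib.MP_79abb3_an.W
end

section

/-!
Theorem W, block E: the periods.
-/

set_option autoImplicit false

open MeasureTheory Set Filter Topology Function
open scoped InnerProductSpace

namespace Pool.Agent.Lib.MP_79abb3_an.W

section
variable {H V : Type} [NormedAddCommGroup H] [InnerProductSpace ℝ H] [NormedAddCommGroup V]
  [InnerProductSpace ℝ V]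

namespace EData
variable {E : EData H V} {K₀ K CV δ γ : ℝ} {e : ℝ → V}

private theorem ea4_int (hs : E.Sol e) {a c : ℝ} (ha : 0 ≤ a) (hac : a ≤ c) (hc : c ≤ 1) :
    IntervalIntegrable (fun r => ‖e r‖ ^ 2) volume a c := by
  have hsub : uIcc a c ⊆ Icc 0 1 := by
    rw [uIcc_of_le hac]
    exact Icc_subset_Icc ha hc
  exact ((hs.ce.norm.pow 2).mono hsub).intervalIntegrable

private theorem ea4_k (hE : E.OK K₀ K CV δ γ) {k : ℕ} (hk : 1 ≤ k) : 0 ≤ k * E.ℓ - E.ℓ := by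
  have h1 := hE.ℓ0
  have h2 : (1 : ℝ) ≤ k := by exact_mod_cast hk
  nlinarith

/-- facts about `α_k`, `β_k`: `α_k ≥ ℓ = 2π/q²⁴` gives `β ≥ 1`; `α_k ≤ (2/b) K₀² + 2ℓ` gives the upper bound -/
theorem OK.be_facts (hE : E.OK K₀ K CV δ γ) (hs : E.Sol e) {τ : ℝ} (hτ : τ ≤ 1) (hb : E.Bd e K₀ τ)
    {k : ℕ} (hk : 1 ≤ k) (hkτ : k * E.ℓ + E.ℓ ≤ τ) :
    1 ≤ E.be e k ∧ E.be e k ^ 4 = E.q ^ 24 * E.alp e k ∧ E.be e k ≤ 9 * K ^ 3 * E.q ^ 6 ∧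
    0 ≤ E.alp e k ∧ ∫ r in (k * E.ℓ - E.ℓ)..(k * E.ℓ + E.ℓ), ‖e r‖ ^ 2 ≤ E.be e k ^ 4 / E.q ^ 24 := by
  have hℓ := hE.ℓ0
  have hk0 := ea4_k hE hk
  have hq1 := hE.q1
  have hq0 : 0 < E.q := by linarith
  have hK1 := hE.K1
  have hle : k * E.ℓ - E.ℓ ≤ k * E.ℓ + E.ℓ := by linarith
  have hI0 : 0 ≤ ∫ r in (k * E.ℓ - E.ℓ)..(k * E.ℓ + E.ℓ), ‖e r‖ ^ 2 :=
    intervalIntegral.integral_nonneg hle fun r _ => by positivity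
  have hα : E.alp e k = (∫ r in (k * E.ℓ - E.ℓ)..(k * E.ℓ + E.ℓ), ‖e r‖ ^ 2) + E.ℓ := rfl
  have hα0 : 0 ≤ E.alp e k := by rw [hα]; linarith
  have hqℓ : E.q ^ 24 * E.ℓ = 2 * Real.pi := by
    unfold ℓ
    field_simp
  have hβ4 : E.be e k ^ 4 = E.q ^ 24 * E.alp e k := by
    have h1 : 0 ≤ E.q ^ 24 * E.alp e k := by positivity
    unfold be
    have h2 : ∀ x : ℝ, x ^ 4 = (x ^ 2) ^ 2 := fun x => by ring
    rw [h2, Real.sq_sqrt (Real.sqrt_nonneg _), Real.sq_sqrt h1]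
  have hβ0 : 0 ≤ E.be e k := Real.sqrt_nonneg _
  have hpi := Real.pi_gt_three
  have hpi4 := Real.pi_le_four
  have hβ1 : 1 ≤ E.be e k := by
    have h1 : (1 : ℝ) ^ 4 ≤ E.be e k ^ 4 := by
      rw [hβ4, hα, mul_add, hqℓ]
      have h2 : 0 ≤ E.q ^ 24 * ∫ r in (k * E.ℓ - E.ℓ)..(k * E.ℓ + E.ℓ), ‖e r‖ ^ 2 := by positivity
      linarith
    exact le_of_pow_le_pow_left₀ (by norm_num) hβ0 h1
  have hαb : E.alp e k ≤ 2 * K ^ 3 + 8 := by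
    have h1 : ∫ r in (k * E.ℓ - E.ℓ)..(k * E.ℓ + E.ℓ), ‖e r‖ ^ 2 ≤
        ∫ r in (0:ℝ)..(k * E.ℓ + E.ℓ), ‖e r‖ ^ 2 := by
      refine intervalIntegral.integral_mono_interval hk0 hle le_rfl ?_ ?_
      · exact Eventually.of_forall fun r => by positivity
      · exact ea4_int hs le_rfl (by linarith) (hkτ.trans hτ)
    have h2 := hb (k * E.ℓ + E.ℓ) ⟨by linarith, hkτ⟩
    have hb0 := hE.b0
    have h3 : E.b / 2 * ∫ r in (0:ℝ)..(k * E.ℓ + E.ℓ), ‖e r‖ ^ 2 ≤ K₀ ^ 2 := by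
      have := sq_nonneg ‖E.ι (e (k * E.ℓ + E.ℓ))‖
      linarith
    have h4 : 1 ≤ E.b * K := by
      have := hE.bK
      rw [div_le_iff₀ hb0] at this
      linarith
    have hK0K : K₀ ^ 2 ≤ K ^ 2 := by
      have h5 := hE.K₀1
      have h6 := hE.K₀K
      nlinarith
    have hI0' : 0 ≤ ∫ r in (0:ℝ)..(k * E.ℓ + E.ℓ), ‖e r‖ ^ 2 := hI0.trans h1
    have h7 : ∫ r in (0:ℝ)..(k * E.ℓ + E.ℓ), ‖e r‖ ^ 2 ≤ 2 * K ^ 3 := by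
      set J := ∫ r in (0:ℝ)..(k * E.ℓ + E.ℓ), ‖e r‖ ^ 2
      have h8 : J ≤ E.b * K * J := by nlinarith
      have h9 : E.b * K * J = 2 * K * (E.b / 2 * J) := by ring
      have h10 : 2 * K * (E.b / 2 * J) ≤ 2 * K * K ^ 2 :=
        mul_le_mul_of_nonneg_left (h3.trans hK0K) (by linarith)
      have h11 : 2 * K * K ^ 2 = 2 * K ^ 3 := by ring
      linarith
    have h12 : E.ℓ ≤ 8 := by
      have h13 : E.ℓ * 1 ≤ E.ℓ * E.q ^ 24 :=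
        mul_le_mul_of_nonneg_left (one_le_pow₀ hq1) hℓ.le
      have h14 : E.ℓ * E.q ^ 24 = 2 * Real.pi := by rw [mul_comm, hqℓ]
      linarith
    rw [hα]
    linarith
  refine ⟨hβ1, hβ4, ?_, hα0, ?_⟩
  · have h1 : E.be e k ^ 4 ≤ (9 * K ^ 3 * E.q ^ 6) ^ 4 := by
      have h2 : (9 * K ^ 3 * E.q ^ 6) ^ 4 = E.q ^ 24 * (6561 * (K ^ 3) ^ 4) := by ring
      rw [hβ4, h2]
      refine mul_le_mul_of_nonneg_left ?_ (by positivity)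
      have h3 : 1 ≤ K ^ 3 := one_le_pow₀ hK1
      have h4 : K ^ 3 ≤ (K ^ 3) ^ 4 := le_self_pow₀ h3 (by norm_num)
      linarith
    exact le_of_pow_le_pow_left₀ (by norm_num) (by positivity) h1
  · have h1 : E.q ^ 24 * E.alp e k / E.q ^ 24 = E.alp e k := by
      field_simp
    rw [hβ4, h1, hα]
    linarith

/-- integrals over parts of the two periods -/
theorem OK.int_le (hE : E.OK K₀ K CV δ γ) (hs : E.Sol e) {τ : ℝ} (hτ : τ ≤ 1) (hb : E.Bd e K₀ τ)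
    {k : ℕ} (hk : 1 ≤ k) (hkτ : k * E.ℓ + E.ℓ ≤ τ) {a c : ℝ} (ha : k * E.ℓ - E.ℓ ≤ a) (hac : a ≤ c)
    (hc : c ≤ k * E.ℓ + E.ℓ) : ∫ r in a..c, ‖e r‖ ^ 2 ≤ E.be e k ^ 4 / E.q ^ 24 := by
  have hk0 := ea4_k hE hk
  have hℓ := hE.ℓ0
  refine le_trans ?_ (hE.be_facts hs hτ hb hk hkτ).2.2.2.2
  refine intervalIntegral.integral_mono_interval ha hac hc ?_ ?_
  · exact Eventually.of_forall fun r => by positivity
  · exact ea4_int hs hk0 (by linarith) (hkτ.trans hτ)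

/-- **The good time.** Otherwise `‖e‖² > β⁴` on the period `k - 1`, so
`∫ ‖e‖² ≥ β⁴ ℓ = 2π β⁴/q²⁴ > β⁴/q²⁴`. -/
theorem OK.good (hE : E.OK K₀ K CV δ γ) (hs : E.Sol e) {τ : ℝ} (hτ : τ ≤ 1) (hb : E.Bd e K₀ τ)
    {k : ℕ} (hk : 1 ≤ k) (hkτ : k * E.ℓ + E.ℓ ≤ τ) :
    ∃ t₀ ∈ Icc (k * E.ℓ - E.ℓ) (k * E.ℓ), ‖e t₀‖ ≤ E.be e k ^ 2 := by
  have hk0 := ea4_k hE hk
  have hℓ := hE.ℓ0
  have hq0 : 0 < E.q := by linarith [hE.q1]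
  by_contra hcon
  push Not at hcon
  obtain ⟨hβ1, -, -, -, -⟩ := hE.be_facts hs hτ hb hk hkτ
  have h1 := hE.int_le hs hτ hb hk hkτ (a := k * E.ℓ - E.ℓ) (c := k * E.ℓ) le_rfl (by linarith)
    (by linarith)
  have h2 : ∫ _ in (k * E.ℓ - E.ℓ)..(k * E.ℓ), E.be e k ^ 4 ≤
      ∫ r in (k * E.ℓ - E.ℓ)..(k * E.ℓ), ‖e r‖ ^ 2 := by
    refine intervalIntegral.integral_mono_on (by linarith) intervalIntegrable_const
      (ea4_int hs hk0 (by linarith) (by linarith)) fun t ht => ?_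
    have h3 := hcon t ht
    have h4 : E.be e k ^ 4 = (E.be e k ^ 2) ^ 2 := by ring
    rw [h4]
    exact pow_le_pow_left₀ (by positivity) h3.le 2
  rw [intervalIntegral.integral_const, smul_eq_mul] at h2
  have h5 : (k * E.ℓ - (k * E.ℓ - E.ℓ)) * E.be e k ^ 4 = 2 * Real.pi * (E.be e k ^ 4 / E.q ^ 24) := by
    unfold ℓ
    field_simp
    ring
  rw [h5] at h2
  have hpi := Real.pi_gt_three
  have h6 : 0 < E.be e k ^ 4 / E.q ^ 24 := by positivity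
  nlinarith

end EData

end

end Pool.Agent.Lib.MP_79abb3_an.W
end

section

/-!
Theorem W, block E: approximation of the test field.
-/

set_option autoImplicit false

open MeasureTheory Set Filter Topology Function
open scoped InnerProductSpace

namespace Pool.Agent.Lib.MP_79abb3_an.W

section
variable {H V : Type} [NormedAddCommGroup H] [InnerProductSpace ℝ H] [NormedAddCommGroup V]
  [InnerProductSpace ℝ V]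

namespace EData

/-- approximation of `Y` by elements of `V` (`yS`, `ys`): `y = 2 y₁ + y₂` -/
theorem OK.yY {E : EData H V} {K₀ K CV δ γ : ℝ} (hE : E.OK K₀ K CV δ γ) {t : ℝ} (ht : t ∈ Icc (0:ℝ) 1)
    (θ : ℝ) (e₀ : V) {β : ℝ} (hβ : 1 ≤ β) (he : ‖e₀‖ ≤ β ^ 2) :
    ∃ y : V, ‖y‖ ≤ 3 * K * E.q ^ 5 * β ^ 2 ∧ ‖E.Y θ t e₀ - E.ι y‖ ≤ 3 * K / E.q ^ 5 * β ^ 2 ∧
      ∀ z : V, |⟪E.ι z, E.Y θ t e₀ - E.ι y⟫_ℝ| ≤ 3 * K / E.q ^ 15 * β ^ 2 * ‖z‖ := by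
  obtain ⟨y₁, h1, h2, h3⟩ := hE.yS θ e₀
  obtain ⟨y₂, k1, k2, k3⟩ := hE.ys t ht θ
  have hK : 0 ≤ K := zero_le_one.trans hE.K1
  have hq : 1 ≤ E.q := hE.q1
  have hq0 : 0 < E.q := zero_lt_one.trans_le hq
  have hβ2 : 1 ≤ β ^ 2 := one_le_pow₀ hβ
  have hY : E.Y θ t e₀ - E.ι ((2 : ℝ) • y₁ + y₂) =
      (2 : ℝ) • (E.S θ (E.ι e₀) - E.ι y₁) + (E.as θ t - E.ι y₂) := by
    unfold EData.Y
    rw [map_add, map_smul, smul_sub]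
    abel
  refine ⟨(2 : ℝ) • y₁ + y₂, ?_, ?_, fun z => ?_⟩
  · calc ‖(2 : ℝ) • y₁ + y₂‖ ≤ 2 * ‖y₁‖ + ‖y₂‖ := by
          refine (norm_add_le _ _).trans ?_
          rw [norm_smul]; norm_num
      _ ≤ 2 * (K * E.q ^ 5 * ‖e₀‖) + K * E.q ^ 5 := by gcongr
      _ ≤ 2 * (K * E.q ^ 5 * β ^ 2) + K * E.q ^ 5 * β ^ 2 := add_le_add (by gcongr) (le_mul_of_one_le_right (by positivity) hβ2)
      _ = _ := by ring
  · rw [hY]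
    calc ‖(2 : ℝ) • (E.S θ (E.ι e₀) - E.ι y₁) + (E.as θ t - E.ι y₂)‖
        ≤ 2 * ‖E.S θ (E.ι e₀) - E.ι y₁‖ + ‖E.as θ t - E.ι y₂‖ := by
          refine (norm_add_le _ _).trans ?_
          rw [norm_smul]; norm_num
      _ ≤ 2 * (K / E.q ^ 5 * ‖e₀‖) + K / E.q ^ 5 := by gcongr
      _ ≤ 2 * (K / E.q ^ 5 * β ^ 2) + K / E.q ^ 5 * β ^ 2 := add_le_add (by gcongr) (le_mul_of_one_le_right (by positivity) hβ2)
      _ = _ := by ring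
  · rw [hY, inner_add_right, real_inner_smul_right]
    calc |2 * ⟪E.ι z, E.S θ (E.ι e₀) - E.ι y₁⟫_ℝ + ⟪E.ι z, E.as θ t - E.ι y₂⟫_ℝ|
        ≤ 2 * |⟪E.ι z, E.S θ (E.ι e₀) - E.ι y₁⟫_ℝ| + |⟪E.ι z, E.as θ t - E.ι y₂⟫_ℝ| := by
          refine (abs_add_le _ _).trans ?_
          rw [abs_mul]; norm_num
      _ ≤ 2 * (K / E.q ^ 15 * ‖z‖ * ‖e₀‖) + K / E.q ^ 15 * ‖z‖ := by
          gcongr
          · exact h3 z
          · exact k3 z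
      _ ≤ 2 * (K / E.q ^ 15 * ‖z‖ * β ^ 2) + K / E.q ^ 15 * ‖z‖ * β ^ 2 := add_le_add (by gcongr) (le_mul_of_one_le_right (by positivity) hβ2)
      _ = _ := by ring

end EData

end

end Pool.Agent.Lib.MP_79abb3_an.W
end

section

/-!
Theorem W, block E: the rate tested with a fixed field.
-/

set_option autoImplicit false

open MeasureTheory Set Filter Topology Function
open scoped InnerProductSpace

namespace Pool.Agent.Lib.MP_79abb3_an.W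

section
variable {H V : Type} [NormedAddCommGroup H] [InnerProductSpace ℝ H] [NormedAddCommGroup V]
  [InnerProductSpace ℝ V]

namespace EData

/-- **Pointwise bound of the rate, tested with a fixed `y`**, without the leading fast part; `X` bounds
`‖ι e - ι e₀‖`. Proof: `a(r) A e - a(t₀) A e₀ = a(r) A (e - e₀) + (a(r) - a(t₀)) A e₀`, `⟪A v, ιy⟫ = ⟪ιv, A' y⟫`;
`as(·, r) - as(·, t₀)` is Lipschitz; `c e e y = - c e y e` (`OK.c_anti`), `|c e y e| ≤ K₀ ‖y‖ n(e)²`, `nb` with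
`η = 1/β`; `‖e‖ ≤ ‖e‖²/β + β`, `β ≤ β³`. -/
theorem OK.y_pt (K : ℝ) : ∃ C, 0 ≤ C ∧ ∀ (E : EData H V) (K₀ CV δ γ : ℝ), E.OK K₀ K CV δ γ →
    ∀ r ∈ Icc (0:ℝ) 1, ∀ t₀ ∈ Icc (0:ℝ) 1, ∀ (e e₀ y : V) (β X : ℝ), 1 ≤ β → ‖E.ι e‖ ≤ K₀ →
    ‖E.ι e₀‖ ≤ K₀ → ‖E.ι e - E.ι e₀‖ ≤ X → |r - t₀| ≤ 2 * E.ℓ →
    |E.R r e y - E.q ^ 12 * (E.a t₀ * ⟪E.A (E.q ^ 24 * r) e₀ + E.as (E.q ^ 24 * r) t₀, E.ι y⟫_ℝ)| ≤
      C * ‖y‖ * (E.q ^ 12 * X + E.q ^ 12 * E.ℓ + ‖e‖ ^ 2 / β + β ^ 3) := by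
  refine ⟨10 * K ^ 4, by positivity, ?_⟩
  intro E K₀ CV δ γ hE r hr t₀ ht₀ e e₀ y β X hβ he he₀ hX hrt
  have hK1 : 1 ≤ K := hE.K1
  have hK : 0 ≤ K := zero_le_one.trans hK1
  have hK₀ : 0 ≤ K₀ := zero_le_one.trans hE.K₀1
  have hKK := hE.K₀K
  have hq0 : 0 < E.q := zero_lt_one.trans_le hE.q1
  have hℓ := hE.ℓ0
  have hβ0 : 0 < β := zero_lt_one.trans_le hβ
  have hX0 : 0 ≤ X := (norm_nonneg _).trans hX
  have hy : 0 ≤ ‖y‖ := norm_nonneg y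
  set θ := E.q ^ 24 * r with hθ
  have hιy : ‖E.ι y‖ ≤ K * ‖y‖ := ((E.ι).le_of_opNorm_le hE.ιb y).trans (by gcongr)
  have har : |E.a r| ≤ 1 := hE.ab r hr
  have hadiff : |E.a r - E.a t₀| ≤ 2 * K * E.ℓ := by
    calc |E.a r - E.a t₀| ≤ K * |r - t₀| := hE.al r hr t₀ ht₀
      _ ≤ K * (2 * E.ℓ) := by gcongr
      _ = _ := by ring
  -- the fast part
  have f1 : |E.a r * ⟪E.A θ (e - e₀), E.ι y⟫_ℝ| ≤ K * X * ‖y‖ := by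
    rw [E.adj, abs_mul]
    calc |E.a r| * |⟪E.ι (e - e₀), E.A' θ y⟫_ℝ| ≤ 1 * (‖E.ι (e - e₀)‖ * ‖E.A' θ y‖) := by
          gcongr
          exact abs_real_inner_le_norm _ _
      _ ≤ 1 * (X * (K * ‖y‖)) := by
          gcongr
          · rw [map_sub]; exact hX
          · exact (E.A' θ).le_of_opNorm_le (hE.A'b θ) y
      _ = _ := by ring
  have f2 : |(E.a r - E.a t₀) * ⟪E.A θ e₀, E.ι y⟫_ℝ| ≤ 2 * K ^ 3 * E.ℓ * ‖y‖ := by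
    rw [E.adj, abs_mul]
    calc |E.a r - E.a t₀| * |⟪E.ι e₀, E.A' θ y⟫_ℝ| ≤ (2 * K * E.ℓ) * (‖E.ι e₀‖ * ‖E.A' θ y‖) := by
          gcongr
          exact abs_real_inner_le_norm _ _
      _ ≤ (2 * K * E.ℓ) * (K * (K * ‖y‖)) := by
          gcongr
          · exact he₀.trans hKK
          · exact (E.A' θ).le_of_opNorm_le (hE.A'b θ) y
      _ = _ := by ring
  have f3 : |E.a r * ⟪E.as θ r - E.as θ t₀, E.ι y⟫_ℝ| ≤ 2 * K ^ 3 * E.ℓ * ‖y‖ := by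
    rw [abs_mul]
    calc |E.a r| * |⟪E.as θ r - E.as θ t₀, E.ι y⟫_ℝ| ≤ 1 * (‖E.as θ r - E.as θ t₀‖ * ‖E.ι y‖) := by
          gcongr
          exact abs_real_inner_le_norm _ _
      _ ≤ 1 * ((K * (2 * E.ℓ)) * (K * ‖y‖)) := by
          gcongr
          exact (hE.asl r hr t₀ ht₀ θ).trans (by gcongr)
      _ = (2 * K ^ 2 * E.ℓ * ‖y‖) * 1 := by ring
      _ ≤ (2 * K ^ 2 * E.ℓ * ‖y‖) * K := by gcongr
      _ = _ := by ring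
  have f4 : |(E.a r - E.a t₀) * ⟪E.as θ t₀, E.ι y⟫_ℝ| ≤ 2 * K ^ 3 * E.ℓ * ‖y‖ := by
    rw [abs_mul]
    calc |E.a r - E.a t₀| * |⟪E.as θ t₀, E.ι y⟫_ℝ| ≤ (2 * K * E.ℓ) * (‖E.as θ t₀‖ * ‖E.ι y‖) := by
          gcongr
          exact abs_real_inner_le_norm _ _
      _ ≤ (2 * K * E.ℓ) * (K * (K * ‖y‖)) := by
          gcongr
          exact hE.asb t₀ ht₀ θ
      _ = _ := by ring
  have hfast : |E.a r * ⟪E.A θ e + E.as θ r, E.ι y⟫_ℝ - E.a t₀ * ⟪E.A θ e₀ + E.as θ t₀, E.ι y⟫_ℝ| ≤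
      (K * X + 6 * K ^ 3 * E.ℓ) * ‖y‖ := by
    have h1 : E.a r * ⟪E.A θ e + E.as θ r, E.ι y⟫_ℝ - E.a t₀ * ⟪E.A θ e₀ + E.as θ t₀, E.ι y⟫_ℝ =
        (E.a r * ⟪E.A θ (e - e₀), E.ι y⟫_ℝ + (E.a r - E.a t₀) * ⟪E.A θ e₀, E.ι y⟫_ℝ) +
        (E.a r * ⟪E.as θ r - E.as θ t₀, E.ι y⟫_ℝ + (E.a r - E.a t₀) * ⟪E.as θ t₀, E.ι y⟫_ℝ) := by
      simp only [map_sub, inner_add_left, inner_sub_left]
      ring
    rw [h1]
    refine (abs_add_le _ _).trans ?_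
    have h2 := abs_add_le (E.a r * ⟪E.A θ (e - e₀), E.ι y⟫_ℝ) ((E.a r - E.a t₀) * ⟪E.A θ e₀, E.ι y⟫_ℝ)
    have h3 := abs_add_le (E.a r * ⟪E.as θ r - E.as θ t₀, E.ι y⟫_ℝ)
      ((E.a r - E.a t₀) * ⟪E.as θ t₀, E.ι y⟫_ℝ)
    linarith
  -- the low part
  have l1 : |⟪E.m (E.ι e), E.ι y⟫_ℝ| ≤ K ^ 3 * ‖y‖ := by
    calc |⟪E.m (E.ι e), E.ι y⟫_ℝ| ≤ ‖E.m (E.ι e)‖ * ‖E.ι y‖ := abs_real_inner_le_norm _ _
      _ ≤ (K * K) * (K * ‖y‖) := by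
          gcongr
          calc ‖E.m (E.ι e)‖ ≤ K * ‖E.ι e‖ := (E.m).le_of_opNorm_le hE.mb _
            _ ≤ K * K := by gcongr; exact he.trans hKK
      _ = _ := by ring
  have l2 : |⟪E.s' r, E.ι y⟫_ℝ| ≤ K ^ 2 * ‖y‖ := by
    calc |⟪E.s' r, E.ι y⟫_ℝ| ≤ ‖E.s' r‖ * ‖E.ι y‖ := abs_real_inner_le_norm _ _
      _ ≤ K * (K * ‖y‖) := by
          gcongr
          exact hE.s'b r hr
      _ = _ := by ring
  have hee : ‖e‖ ≤ ‖e‖ ^ 2 / β + β := by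
    have h1 : ‖e‖ ^ 2 / β + β - ‖e‖ = ((‖e‖ - β) ^ 2 + ‖e‖ * β) / β := by
      field_simp
      ring
    have h2 : 0 ≤ ((‖e‖ - β) ^ 2 + ‖e‖ * β) / β := by positivity
    linarith
  have hββ : β ≤ β ^ 3 := le_self_pow₀ hβ (by norm_num)
  have d1 : |E.b * E.d r e y| ≤ K * (‖e‖ ^ 2 / β + β ^ 3) * ‖y‖ := by
    rw [abs_mul]
    calc |E.b| * |E.d r e y| ≤ 1 * (K₀ * ‖e‖ * ‖y‖) := by
          gcongr
          · rw [abs_of_pos hE.b0]; exact hE.b1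
          · exact hE.db r hr e y
      _ ≤ 1 * (K * (‖e‖ ^ 2 / β + β ^ 3) * ‖y‖) := by
          gcongr
          linarith
      _ = _ := by ring
  have c1 : |E.b * E.c e e y| ≤ (K * (‖e‖ ^ 2 / β) + K ^ 4 * β ^ 3) * ‖y‖ := by
    have hn := hE.nb e (1 / β) (by positivity) (by rw [div_le_one hβ0]; exact hβ)
    have hn' : E.n e ^ 2 ≤ ‖e‖ ^ 2 / β + K ^ 3 * β ^ 3 := by
      calc E.n e ^ 2 ≤ 1 / β * ‖e‖ ^ 2 + K₀ / (1 / β) ^ 3 * ‖E.ι e‖ ^ 2 := hn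
        _ = ‖e‖ ^ 2 / β + K₀ * β ^ 3 * ‖E.ι e‖ ^ 2 := by
            field_simp
        _ ≤ ‖e‖ ^ 2 / β + K * β ^ 3 * K ^ 2 := by
            gcongr
            exact he.trans hKK
        _ = _ := by ring
    rw [abs_mul, hE.c_anti e e y, abs_neg]
    calc |E.b| * |E.c e y e| ≤ 1 * (K₀ * E.n e * ‖y‖ * E.n e) := by
          gcongr
          · rw [abs_of_pos hE.b0]; exact hE.b1
          · exact hE.cb e y e
      _ = K₀ * (E.n e ^ 2) * ‖y‖ := by ring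
      _ ≤ K * (‖e‖ ^ 2 / β + K ^ 3 * β ^ 3) * ‖y‖ := by gcongr
      _ = _ := by ring
  have g1 : |E.g r y| ≤ 1 * ‖y‖ := by
    calc |E.g r y| = ‖E.g r y‖ := (Real.norm_eq_abs _).symm
      _ ≤ 1 * ‖y‖ := (E.g r).le_of_opNorm_le ((hE.gb r hr).trans hE.γ1) y
  have hR : E.R r e y - E.q ^ 12 * (E.a t₀ * ⟪E.A θ e₀ + E.as θ t₀, E.ι y⟫_ℝ) =
      E.q ^ 12 * (E.a r * ⟪E.A θ e + E.as θ r, E.ι y⟫_ℝ - E.a t₀ * ⟪E.A θ e₀ + E.as θ t₀, E.ι y⟫_ℝ) +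
      (⟪E.m (E.ι e), E.ι y⟫_ℝ + ⟪E.s' r, E.ι y⟫_ℝ) + (E.b * E.d r e y + E.b * E.c e e y - E.g r y) := by
    unfold EData.R
    rw [← hθ]
    ring
  rw [hR]
  have hq12 : 0 < E.q ^ 12 := by positivity
  have hA : |E.q ^ 12 * (E.a r * ⟪E.A θ e + E.as θ r, E.ι y⟫_ℝ - E.a t₀ * ⟪E.A θ e₀ + E.as θ t₀, E.ι y⟫_ℝ)| ≤
      E.q ^ 12 * ((K * X + 6 * K ^ 3 * E.ℓ) * ‖y‖) := by
    rw [abs_mul, abs_of_pos hq12]
    gcongr
  have hB : |⟪E.m (E.ι e), E.ι y⟫_ℝ + ⟪E.s' r, E.ι y⟫_ℝ| ≤ (K ^ 3 + K ^ 2) * ‖y‖ := by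
    refine (abs_add_le _ _).trans ?_
    linarith
  have hC : |E.b * E.d r e y + E.b * E.c e e y - E.g r y| ≤
      (K * (‖e‖ ^ 2 / β + β ^ 3) + (K * (‖e‖ ^ 2 / β) + K ^ 4 * β ^ 3) + 1) * ‖y‖ := by
    have h1 := abs_sub (E.b * E.d r e y + E.b * E.c e e y) (E.g r y)
    have h2 := abs_add_le (E.b * E.d r e y) (E.b * E.c e e y)
    linarith
  have hsum : |E.q ^ 12 * (E.a r * ⟪E.A θ e + E.as θ r, E.ι y⟫_ℝ - E.a t₀ * ⟪E.A θ e₀ + E.as θ t₀, E.ι y⟫_ℝ) +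
      (⟪E.m (E.ι e), E.ι y⟫_ℝ + ⟪E.s' r, E.ι y⟫_ℝ) + (E.b * E.d r e y + E.b * E.c e e y - E.g r y)| ≤
      ((E.q ^ 12 * (K * X + 6 * K ^ 3 * E.ℓ)) + (K ^ 3 + K ^ 2) +
        (K * (‖e‖ ^ 2 / β + β ^ 3) + (K * (‖e‖ ^ 2 / β) + K ^ 4 * β ^ 3) + 1)) * ‖y‖ := by
    refine (abs_add_three _ _ _).trans ?_
    linarith
  refine hsum.trans ?_
  have hfin : (E.q ^ 12 * (K * X + 6 * K ^ 3 * E.ℓ)) + (K ^ 3 + K ^ 2) +
        (K * (‖e‖ ^ 2 / β + β ^ 3) + (K * (‖e‖ ^ 2 / β) + K ^ 4 * β ^ 3) + 1) ≤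
      10 * K ^ 4 * (E.q ^ 12 * X + E.q ^ 12 * E.ℓ + ‖e‖ ^ 2 / β + β ^ 3) := by
    have k1 : K ≤ K ^ 4 := le_self_pow₀ hK1 (by norm_num)
    have k2 : K ^ 2 ≤ K ^ 4 := pow_le_pow_right₀ hK1 (by norm_num)
    have k3 : K ^ 3 ≤ K ^ 4 := pow_le_pow_right₀ hK1 (by norm_num)
    have k4 : 1 ≤ K ^ 4 := one_le_pow₀ hK1
    have b3 : 1 ≤ β ^ 3 := one_le_pow₀ hβ
    have hn : 0 ≤ ‖e‖ ^ 2 / β := by positivity
    have hqX : 0 ≤ E.q ^ 12 * X := by positivity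
    have hql : 0 ≤ E.q ^ 12 * E.ℓ := by positivity
    have hb3 : 0 ≤ β ^ 3 := by positivity
    have m1 := mul_le_mul_of_nonneg_right k1 hqX
    have m2 := mul_le_mul_of_nonneg_right k3 hql
    have m3 := mul_le_mul_of_nonneg_right k1 hn
    have m4 := mul_le_mul_of_nonneg_right k1 hb3
    have m5 : K ^ 4 ≤ K ^ 4 * β ^ 3 := le_mul_of_one_le_right (by positivity) b3
    have n1 : 0 ≤ K ^ 4 * (E.q ^ 12 * X) := by positivity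
    have n2 : 0 ≤ K ^ 4 * (E.q ^ 12 * E.ℓ) := by positivity
    have n3 : 0 ≤ K ^ 4 * (‖e‖ ^ 2 / β) := by positivity
    have e1 : (E.q ^ 12 * (K * X + 6 * K ^ 3 * E.ℓ)) + (K ^ 3 + K ^ 2) +
        (K * (‖e‖ ^ 2 / β + β ^ 3) + (K * (‖e‖ ^ 2 / β) + K ^ 4 * β ^ 3) + 1) =
        K * (E.q ^ 12 * X) + 6 * (K ^ 3 * (E.q ^ 12 * E.ℓ)) + K ^ 3 + K ^ 2 + 2 * (K * (‖e‖ ^ 2 / β)) +
          K * β ^ 3 + K ^ 4 * β ^ 3 + 1 := by ring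
    have e2 : 10 * K ^ 4 * (E.q ^ 12 * X + E.q ^ 12 * E.ℓ + ‖e‖ ^ 2 / β + β ^ 3) =
        10 * (K ^ 4 * (E.q ^ 12 * X)) + 10 * (K ^ 4 * (E.q ^ 12 * E.ℓ)) + 10 * (K ^ 4 * (‖e‖ ^ 2 / β)) +
          10 * (K ^ 4 * β ^ 3) := by ring
    rw [e1, e2]
    generalize K ^ 4 * (E.q ^ 12 * X) = x1 at *
    generalize K * (E.q ^ 12 * X) = x2 at *
    generalize K ^ 4 * (E.q ^ 12 * E.ℓ) = x3 at *
    generalize K ^ 3 * (E.q ^ 12 * E.ℓ) = x4 at *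
    generalize K ^ 4 * (‖e‖ ^ 2 / β) = x5 at *
    generalize K * (‖e‖ ^ 2 / β) = x6 at *
    generalize K ^ 4 * β ^ 3 = x7 at *
    generalize K * β ^ 3 = x8 at *
    linarith
  calc _ ≤ 10 * K ^ 4 * (E.q ^ 12 * X + E.q ^ 12 * E.ℓ + ‖e‖ ^ 2 / β + β ^ 3) * ‖y‖ := by gcongr
    _ = _ := by ring

end EData

end

end Pool.Agent.Lib.MP_79abb3_an.W
end

section

/-!
Theorem W, block E: freezing.
-/

set_option autoImplicit false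

open MeasureTheory Set Filter Topology Function
open scoped InnerProductSpace

namespace Pool.Agent.Lib.MP_79abb3_an.W

section
variable {H V : Type} [NormedAddCommGroup H] [InnerProductSpace ℝ H] [NormedAddCommGroup V]
  [InnerProductSpace ℝ V]

namespace EData

/-- **Freezing.** The fast term at time `r` (in the period `k`, `t₀` in the period `k - 1`), `x = ι e`,
`h = x r - x t₀`: `⟪A e, x⟫ = ⟪S x, x⟫ = ⟪S x₀, x₀⟫ + 2⟪S x₀, h⟫ + ⟪S h, h⟫`,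
`⟪as(·, r), x⟫ = ⟪as(·, t₀), x₀⟫ + ⟪as(·, t₀), h⟫ + ⟪as(·, r) - as(·, t₀), x⟫`, `|a(r) - a(t₀)| ≤ 2Kℓ`. -/
theorem OK.freeze (K : ℝ) : ∃ C, 0 ≤ C ∧ ∀ (E : EData H V) (K₀ CV δ γ : ℝ), E.OK K₀ K CV δ γ →
    ∀ r ∈ Icc (0:ℝ) 1, ∀ t₀ ∈ Icc (0:ℝ) 1, ∀ e : ℝ → V, ‖E.ι (e r)‖ ≤ K₀ → ‖E.ι (e t₀)‖ ≤ K₀ →
    |r - t₀| ≤ 2 * E.ℓ →
    |E.fast e r - E.q ^ 12 * (E.a t₀ * (⟪E.S (E.q ^ 24 * r) (E.ι (e t₀)), E.ι (e t₀)⟫_ℝ +
      ⟪E.as (E.q ^ 24 * r) t₀, E.ι (e t₀)⟫_ℝ +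
      ⟪E.ι (e r) - E.ι (e t₀), E.Y (E.q ^ 24 * r) t₀ (e t₀)⟫_ℝ))| ≤
      C * E.q ^ 12 * (‖E.ι (e r) - E.ι (e t₀)‖ ^ 2 + E.ℓ) := by
  refine ⟨18 * K ^ 4, by positivity, ?_⟩
  intro E K₀ CV δ γ hE r hr t₀ ht₀ e he he₀ hrt
  have hK1 : 1 ≤ K := hE.K1
  have hK : 0 ≤ K := zero_le_one.trans hK1
  have hKK := hE.K₀K
  have hq0 : 0 < E.q := zero_lt_one.trans_le hE.q1
  have hℓ := hE.ℓ0
  set θ := E.q ^ 24 * r with hθ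
  have hx : ‖E.ι (e r)‖ ≤ K := he.trans hKK
  have hx₀ : ‖E.ι (e t₀)‖ ≤ K := he₀.trans hKK
  have har : |E.a r| ≤ 1 := hE.ab r hr
  have hadiff : |E.a r - E.a t₀| ≤ 2 * K * E.ℓ := by
    calc |E.a r - E.a t₀| ≤ K * |r - t₀| := hE.al r hr t₀ ht₀
      _ ≤ K * (2 * E.ℓ) := by gcongr
      _ = _ := by ring
  have hself := E.Aself θ (e r)
  have hasd : ‖E.as θ r - E.as θ t₀‖ ≤ 2 * K * E.ℓ := by
    calc ‖E.as θ r - E.as θ t₀‖ ≤ K * |r - t₀| := hE.asl r hr t₀ ht₀ θ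
      _ ≤ K * (2 * E.ℓ) := by gcongr
      _ = _ := by ring
  unfold EData.fast EData.Y
  rw [← hθ, inner_add_left, hself]
  generalize E.ι (e r) = x at *
  generalize E.ι (e t₀) = x₀ at *
  obtain ⟨h, rfl⟩ : ∃ h, x = x₀ + h := ⟨x - x₀, by abel⟩
  rw [add_sub_cancel_left]
  have hh : ‖h‖ ≤ 2 * K := by
    calc ‖h‖ = ‖(x₀ + h) - x₀‖ := by rw [add_sub_cancel_left]
      _ ≤ ‖x₀ + h‖ + ‖x₀‖ := norm_sub_le _ _
      _ ≤ _ := by linarith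
  have hS : ∀ z : H, ‖E.S θ z‖ ≤ K * ‖z‖ := fun z => (E.S θ).le_of_opNorm_le (hE.Sb θ) z
  have hc1 : ⟪E.S θ h, x₀⟫_ℝ = ⟪h, E.S θ x₀⟫_ℝ := E.sS θ h x₀
  have hc2 : ⟪E.S θ x₀, h⟫_ℝ = ⟪h, E.S θ x₀⟫_ℝ := real_inner_comm _ _
  have hc3 : ⟪E.as θ t₀, h⟫_ℝ = ⟪h, E.as θ t₀⟫_ℝ := real_inner_comm _ _
  set Q := ⟪E.S θ x₀, x₀⟫_ℝ + ⟪E.as θ t₀, x₀⟫_ℝ + (2 * ⟪h, E.S θ x₀⟫_ℝ + ⟪h, E.as θ t₀⟫_ℝ) with hQ
  have hdiff : E.q ^ 12 * (E.a r * (⟪E.S θ (x₀ + h), x₀ + h⟫_ℝ + ⟪E.as θ r, x₀ + h⟫_ℝ)) -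
      E.q ^ 12 * (E.a t₀ * (⟪E.S θ x₀, x₀⟫_ℝ + ⟪E.as θ t₀, x₀⟫_ℝ +
        ⟪h, (2 : ℝ) • E.S θ x₀ + E.as θ t₀⟫_ℝ)) =
      E.q ^ 12 * ((E.a r - E.a t₀) * Q + E.a r * (⟪E.S θ h, h⟫_ℝ + ⟪E.as θ r - E.as θ t₀, x₀ + h⟫_ℝ)) := by
    simp only [map_add, inner_add_left, inner_add_right, inner_sub_left, real_inner_smul_right, hc1, hc2,
      hc3, hQ]
    ring
  rw [hdiff]
  have q1 : |⟪E.S θ x₀, x₀⟫_ℝ| ≤ K ^ 3 := by
    calc |⟪E.S θ x₀, x₀⟫_ℝ| ≤ ‖E.S θ x₀‖ * ‖x₀‖ := abs_real_inner_le_norm _ _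
      _ ≤ (K * K) * K := by
          gcongr
          exact (hS x₀).trans (by gcongr)
      _ = _ := by ring
  have q2 : |⟪E.as θ t₀, x₀⟫_ℝ| ≤ K ^ 2 := by
    calc |⟪E.as θ t₀, x₀⟫_ℝ| ≤ ‖E.as θ t₀‖ * ‖x₀‖ := abs_real_inner_le_norm _ _
      _ ≤ K * K := by
          gcongr
          exact hE.asb t₀ ht₀ θ
      _ = _ := by ring
  have q3 : |⟪h, E.S θ x₀⟫_ℝ| ≤ 2 * K ^ 3 := by
    calc |⟪h, E.S θ x₀⟫_ℝ| ≤ ‖h‖ * ‖E.S θ x₀‖ := abs_real_inner_le_norm _ _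
      _ ≤ (2 * K) * (K * K) := by
          gcongr
          exact (hS x₀).trans (by gcongr)
      _ = _ := by ring
  have q4 : |⟪h, E.as θ t₀⟫_ℝ| ≤ 2 * K ^ 2 := by
    calc |⟪h, E.as θ t₀⟫_ℝ| ≤ ‖h‖ * ‖E.as θ t₀‖ := abs_real_inner_le_norm _ _
      _ ≤ (2 * K) * K := by
          gcongr
          exact hE.asb t₀ ht₀ θ
      _ = _ := by ring
  have q5 : |⟪E.S θ h, h⟫_ℝ| ≤ K * ‖h‖ ^ 2 := by
    calc |⟪E.S θ h, h⟫_ℝ| ≤ ‖E.S θ h‖ * ‖h‖ := abs_real_inner_le_norm _ _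
      _ ≤ (K * ‖h‖) * ‖h‖ := by
          gcongr
          exact hS h
      _ = _ := by ring
  have q6 : |⟪E.as θ r - E.as θ t₀, x₀ + h⟫_ℝ| ≤ 2 * K ^ 2 * E.ℓ := by
    calc |⟪E.as θ r - E.as θ t₀, x₀ + h⟫_ℝ| ≤ ‖E.as θ r - E.as θ t₀‖ * ‖x₀ + h‖ :=
          abs_real_inner_le_norm _ _
      _ ≤ (2 * K * E.ℓ) * K := by gcongr
      _ = _ := by ring
  have k2 : K ^ 2 ≤ K ^ 3 := pow_le_pow_right₀ hK1 (by norm_num)
  have hQb : |Q| ≤ 8 * K ^ 3 := by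
    have t1 := abs_add_three ⟪E.S θ x₀, x₀⟫_ℝ ⟪E.as θ t₀, x₀⟫_ℝ (2 * ⟪h, E.S θ x₀⟫_ℝ + ⟪h, E.as θ t₀⟫_ℝ)
    have t2 := abs_add_le (2 * ⟪h, E.S θ x₀⟫_ℝ) ⟪h, E.as θ t₀⟫_ℝ
    rw [abs_mul, abs_two] at t2
    rw [← hQ] at t1
    linarith
  have hq12 : 0 < E.q ^ 12 := by positivity
  rw [abs_mul, abs_of_pos hq12]
  have t3 : |(E.a r - E.a t₀) * Q + E.a r * (⟪E.S θ h, h⟫_ℝ + ⟪E.as θ r - E.as θ t₀, x₀ + h⟫_ℝ)| ≤
      (2 * K * E.ℓ) * (8 * K ^ 3) + 1 * (K * ‖h‖ ^ 2 + 2 * K ^ 2 * E.ℓ) := by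
    refine (abs_add_le _ _).trans ?_
    rw [abs_mul, abs_mul]
    gcongr
    exact (abs_add_le _ _).trans (add_le_add q5 q6)
  have t4 : (2 * K * E.ℓ) * (8 * K ^ 3) + 1 * (K * ‖h‖ ^ 2 + 2 * K ^ 2 * E.ℓ) ≤
      18 * K ^ 4 * (‖h‖ ^ 2 + E.ℓ) := by
    have m1 : K ≤ K ^ 4 := le_self_pow₀ hK1 (by norm_num)
    have m2 : K ^ 2 ≤ K ^ 4 := pow_le_pow_right₀ hK1 (by norm_num)
    have m3 := mul_le_mul_of_nonneg_right m1 (sq_nonneg ‖h‖)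
    have m4 := mul_le_mul_of_nonneg_right m2 hℓ.le
    have m5 : 0 ≤ K ^ 4 * ‖h‖ ^ 2 := by positivity
    linarith
  calc E.q ^ 12 * |(E.a r - E.a t₀) * Q + E.a r * (⟪E.S θ h, h⟫_ℝ + ⟪E.as θ r - E.as θ t₀, x₀ + h⟫_ℝ)|
      ≤ E.q ^ 12 * (18 * K ^ 4 * (‖h‖ ^ 2 + E.ℓ)) := by
        gcongr
        exact t3.trans t4
    _ = _ := by ring

end EData

end

end Pool.Agent.Lib.MP_79abb3_an.W
end

section

/-!
Theorem W, block E: the change of `e` in one period.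
-/

set_option autoImplicit false

open MeasureTheory Set Filter Topology Function
open scoped InnerProductSpace

namespace Pool.Agent.Lib.MP_79abb3_an.W

section
variable {H V : Type} [NormedAddCommGroup H] [InnerProductSpace ℝ H] [NormedAddCommGroup V]
  [InnerProductSpace ℝ V]

namespace EData

/-- **The change of `e` in a period.** Proof: `Hm = sup ‖x - x₀‖` on `[t₀, kℓ + ℓ]` (attained, continuity);
`Sol.hEq`, `OK.h_pt`, `OK.int_le`: `Hm²/2 ≤ 2ℓ q¹² (K Hm² + 2K β² Hm) + C (β β⁴/q²⁴ + 2ℓ β⁵)`,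
`2ℓ q¹² = 4π/q¹²`; for `q` large `4πK/q¹² ≤ 1/8` and `(8πK/q¹²) β² Hm ≤ Hm²/8 + 128π²K²β⁴/q²⁴`. -/
theorem OK.h_bound (K : ℝ) : ∃ C q₀, 0 ≤ C ∧ 1 ≤ q₀ ∧ ∀ (E : EData H V) (K₀ CV δ γ : ℝ),
    E.OK K₀ K CV δ γ → q₀ ≤ E.q → ∀ e : ℝ → V, E.Sol e → ∀ τ ≤ 1, E.Bd e K₀ τ →
    ∀ k : ℕ, 1 ≤ k → k * E.ℓ + E.ℓ ≤ τ → ∀ t₀ ∈ Icc (k * E.ℓ - E.ℓ) (k * E.ℓ), ‖e t₀‖ ≤ E.be e k ^ 2 →
    ∀ t ∈ Icc t₀ (k * E.ℓ + E.ℓ), ‖E.ι (e t) - E.ι (e t₀)‖ ^ 2 ≤ C / E.q ^ 24 * E.be e k ^ 5 := by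
  obtain ⟨C₁, hC₁, hpt⟩ := OK.h_pt (H := H) (V := V) K
  refine ⟨8192 * K ^ 2 + 68 * C₁, 1 + 128 * |K|, by positivity, by
    have := abs_nonneg K
    linarith, ?_⟩
  intro E K₀ CV δ γ hE hq e hs τ hτ hb k hk hkτ t₀ ht₀ he₀ t ht
  have hℓ := hE.ℓ0
  have hK1 := hE.K1
  have hK₀1 := hE.K₀1
  have hq1 := hE.q1
  have hq0 : 0 < E.q := by linarith
  have hk1 : (1 : ℝ) ≤ k := by exact_mod_cast hk
  have hk0 : 0 ≤ k * E.ℓ - E.ℓ := by nlinarith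
  obtain ⟨hβ1, -, -, -, -⟩ := hE.be_facts hs hτ hb hk hkτ
  set β := E.be e k with hβ
  have ht₀0 : 0 ≤ t₀ := hk0.trans ht₀.1
  have hend : k * E.ℓ + E.ℓ ≤ 1 := hkτ.trans hτ
  -- the maximum
  have hcont : ContinuousOn (fun r => ‖E.ι (e r) - E.ι (e t₀)‖) (Icc t₀ (k * E.ℓ + E.ℓ)) := by
    have h1 : ContinuousOn (fun r => E.ι (e r)) (Icc 0 1) := E.ι.continuous.comp_continuousOn hs.ce
    exact ((h1.mono (Icc_subset_Icc ht₀0 hend)).sub continuousOn_const).norm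
  obtain ⟨tm, htm, hmax⟩ := isCompact_Icc.exists_isMaxOn
    (nonempty_Icc.mpr (show t₀ ≤ k * E.ℓ + E.ℓ by linarith [ht₀.2])) hcont
  set Hm : ℝ := ‖E.ι (e tm) - E.ι (e t₀)‖ with hHm
  have hHm0 : 0 ≤ Hm := norm_nonneg _
  have hmax' : ∀ r ∈ Icc t₀ (k * E.ℓ + E.ℓ), ‖E.ι (e r) - E.ι (e t₀)‖ ≤ Hm := fun r hr => hmax hr
  -- the norm in H
  have hιb : ∀ r ∈ Icc (0 : ℝ) τ, ‖E.ι (e r)‖ ≤ K₀ := by
    intro r hr
    have h1 := hb r hr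
    have h2 : 0 ≤ E.b / 2 * ∫ r in (0:ℝ)..r, ‖e r‖ ^ 2 := by
      have h3 := hE.b0
      have h4 : 0 ≤ ∫ r in (0:ℝ)..r, ‖e r‖ ^ 2 :=
        intervalIntegral.integral_nonneg hr.1 fun r _ => by positivity
      positivity
    have h5 : ‖E.ι (e r)‖ ^ 2 ≤ K₀ ^ 2 := by linarith
    exact le_of_pow_le_pow_left₀ (by norm_num) (by linarith) h5
  have hsub1 : Icc t₀ tm ⊆ Icc 0 1 := Icc_subset_Icc ht₀0 (htm.2.trans hend)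
  have hsub : uIcc t₀ tm ⊆ Icc 0 1 := by
    rw [uIcc_of_le htm.1]
    exact hsub1
  have hi2 : IntervalIntegrable (fun r => ‖e r‖ ^ 2) volume t₀ tm :=
    ((hs.ce.norm.pow 2).mono hsub).intervalIntegrable
  have hiR : IntervalIntegrable (fun r => E.R r (e r) (e r - e t₀)) volume t₀ tm :=
    ((hs.cR hE (φ := fun r => e r - e t₀) (hs.ce.sub continuousOn_const)).mono hsub).intervalIntegrable
  have hid := hs.hEq hE ht₀0 htm.1 (htm.2.trans hend)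
  rw [← hHm, ← intervalIntegral.integral_neg] at hid
  set M : ℝ := E.q ^ 12 * (K * Hm ^ 2 + 2 * K * β ^ 2 * Hm) + C₁ * β ^ 5 with hM
  have hle : ∫ r in t₀..tm, -E.R r (e r) (e r - e t₀) ≤
      ∫ r in t₀..tm, (M + C₁ * β * ‖e r‖ ^ 2) := by
    refine intervalIntegral.integral_mono_on htm.1 hiR.neg
      (intervalIntegrable_const.add (hi2.const_mul _)) fun r hr => ?_
    have hr1 : r ∈ Icc (0 : ℝ) 1 := hsub1 hr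
    have hrτ : r ∈ Icc (0 : ℝ) τ := ⟨hr1.1, hr.2.trans (htm.2.trans hkτ)⟩
    have h0τ : t₀ ∈ Icc (0 : ℝ) τ := ⟨ht₀0, (hr.1.trans hrτ.2)⟩
    have h1 := hpt E K₀ CV δ γ hE r hr1 (e r) (e t₀) β hβ1 he₀ (hιb r hrτ) (hιb t₀ h0τ)
    have h2 : ‖E.ι (e r - e t₀)‖ ≤ Hm := by
      rw [map_sub]
      exact hmax' r ⟨hr.1, hr.2.trans htm.2⟩
    have h3 : K * ‖E.ι (e r - e t₀)‖ ^ 2 + 2 * K * β ^ 2 * ‖E.ι (e r - e t₀)‖ ≤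
        K * Hm ^ 2 + 2 * K * β ^ 2 * Hm := by
      have h4 : ‖E.ι (e r - e t₀)‖ ^ 2 ≤ Hm ^ 2 := pow_le_pow_left₀ (norm_nonneg _) h2 2
      have h5 : K * ‖E.ι (e r - e t₀)‖ ^ 2 ≤ K * Hm ^ 2 :=
        mul_le_mul_of_nonneg_left h4 (by linarith)
      have h6 : 2 * K * β ^ 2 * ‖E.ι (e r - e t₀)‖ ≤ 2 * K * β ^ 2 * Hm :=
        mul_le_mul_of_nonneg_left h2 (by positivity)
      linarith
    have h4 := mul_le_mul_of_nonneg_left h3 (show (0 : ℝ) ≤ E.q ^ 12 by positivity)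
    have h5 : M + C₁ * β * ‖e r‖ ^ 2 = E.q ^ 12 * (K * Hm ^ 2 + 2 * K * β ^ 2 * Hm) +
        C₁ * (β * ‖e r‖ ^ 2 + β ^ 5) := by
      rw [hM]
      ring
    rw [h5]
    linarith
  rw [intervalIntegral.integral_add intervalIntegrable_const (hi2.const_mul _),
    intervalIntegral.integral_const, intervalIntegral.integral_const_mul, smul_eq_mul] at hle
  have hint := hE.int_le hs hτ hb hk hkτ ht₀.1 htm.1 htm.2
  have hM0 : 0 ≤ M := by positivity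
  have hlen : tm - t₀ ≤ 16 / E.q ^ 24 := by
    have h1 : E.ℓ ≤ 8 / E.q ^ 24 := by
      unfold ℓ
      have hpi4 := Real.pi_le_four
      exact div_le_div_of_nonneg_right (by linarith) (by positivity)
    have h2 : (16 : ℝ) / E.q ^ 24 = 8 / E.q ^ 24 + 8 / E.q ^ 24 := by ring
    have h3 := htm.2
    have h4 := ht₀.1
    linarith
  have h1 : (tm - t₀) * M ≤ 16 / E.q ^ 24 * M := mul_le_mul_of_nonneg_right hlen hM0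
  have h2 : C₁ * β * ∫ r in t₀..tm, ‖e r‖ ^ 2 ≤ C₁ * β * (β ^ 4 / E.q ^ 24) :=
    mul_le_mul_of_nonneg_left hint (by positivity)
  -- algebra
  set Q : ℝ := E.q ^ 12 with hQ
  have hQ0 : 0 < Q := by positivity
  have hQ24 : E.q ^ 24 = Q ^ 2 := by rw [hQ]; ring
  rw [hQ24] at h1 h2 ⊢
  have hQK : 128 * K ≤ Q := by
    have h3 : E.q ≤ Q := le_self_pow₀ hq1 (by norm_num)
    have h4 := le_abs_self K
    linarith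
  have e1 : 16 / Q ^ 2 * M = 16 * K / Q * Hm ^ 2 + 32 * K * β ^ 2 / Q * Hm +
      16 * C₁ * β ^ 5 / Q ^ 2 := by
    rw [hM]
    field_simp
    ring
  have e2 : C₁ * β * (β ^ 4 / Q ^ 2) = C₁ * β ^ 5 / Q ^ 2 := by ring
  have g1 : 16 * K / Q * Hm ^ 2 ≤ 1 / 8 * Hm ^ 2 := by
    refine mul_le_mul_of_nonneg_right ?_ (by positivity)
    rw [div_le_iff₀ hQ0]
    linarith
  have g2 : 32 * K * β ^ 2 / Q * Hm ≤ 1 / 8 * Hm ^ 2 + 2 * (32 * K * β ^ 2 / Q) ^ 2 := by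
    nlinarith [sq_nonneg (Hm - 4 * (32 * K * β ^ 2 / Q))]
  have g3 : 2 * (32 * K * β ^ 2 / Q) ^ 2 ≤ 2048 * K ^ 2 * β ^ 5 / Q ^ 2 := by
    have h3 : 2 * (32 * K * β ^ 2 / Q) ^ 2 = 2048 * K ^ 2 * β ^ 4 / Q ^ 2 := by ring
    rw [h3]
    refine div_le_div_of_nonneg_right ?_ (by positivity)
    exact mul_le_mul_of_nonneg_left (pow_le_pow_right₀ hβ1 (by norm_num)) (by positivity)
  have hHfin : Hm ^ 2 ≤ (8192 * K ^ 2 + 68 * C₁) / Q ^ 2 * β ^ 5 := by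
    have h3 : (8192 * K ^ 2 + 68 * C₁) / Q ^ 2 * β ^ 5 =
        4 * (2048 * K ^ 2 * β ^ 5 / Q ^ 2 + 16 * C₁ * β ^ 5 / Q ^ 2 + C₁ * β ^ 5 / Q ^ 2) := by ring
    rw [h3]
    rw [e1] at h1
    rw [e2] at h2
    linarith
  have h3 : ‖E.ι (e t) - E.ι (e t₀)‖ ^ 2 ≤ Hm ^ 2 :=
    pow_le_pow_left₀ (norm_nonneg _) (hmax' t ht) 2
  exact h3.trans hHfin

end EData

end

end Pool.Agent.Lib.MP_79abb3_an.W
end

section

/-!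
Theorem W, block E: the part of the fast term which is linear in `h = e - e(t₀)`.
-/

set_option autoImplicit false

open MeasureTheory Set Filter Topology Function
open scoped InnerProductSpace

namespace Pool.Agent.Lib.MP_79abb3_an.W

section
variable {H V : Type} [NormedAddCommGroup H] [InnerProductSpace ℝ H] [NormedAddCommGroup V]
  [InnerProductSpace ℝ V]

namespace EData

private theorem lin_as_cont {E : EData H V} {K₀ K CV δ γ : ℝ} (hE : E.OK K₀ K CV δ γ) {t₀ : ℝ}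
    (ht₀ : t₀ ∈ Icc (0:ℝ) 1) : Continuous fun θ => E.as θ t₀ := by
  rw [← continuousOn_univ]
  have h1 : ContinuousOn (fun θ : ℝ => (θ, t₀)) univ :=
    (continuous_id.prodMk continuous_const).continuousOn
  exact hE.cas.comp h1 fun θ _ => ⟨mem_univ _, ht₀⟩

private theorem lin_lead {E : EData H V} {K₀ K CV δ γ : ℝ} (hE : E.OK K₀ K CV δ γ) {t₀ : ℝ}
    (ht₀ : t₀ ∈ Icc (0:ℝ) 1) (e₀ : V) (z : H) (s t : ℝ) :
    IntervalIntegrable (fun r => E.q ^ 12 * (E.a t₀ * ⟪E.A (E.q ^ 24 * r) e₀ + E.as (E.q ^ 24 * r) t₀, z⟫_ℝ))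
      volume s t ∧
    ∫ r in s..t, E.q ^ 12 * (E.a t₀ * ⟪E.A (E.q ^ 24 * r) e₀ + E.as (E.q ^ 24 * r) t₀, z⟫_ℝ) =
      E.a t₀ / E.q ^ 12 * ⟪(E.B (E.q ^ 24 * t) - E.B (E.q ^ 24 * s)) e₀ +
          (E.bs (E.q ^ 24 * t) t₀ - E.bs (E.q ^ 24 * s) t₀), z⟫_ℝ := by
  have hq0 : 0 < E.q := zero_lt_one.trans_le hE.q1
  have hκ : 0 < E.q ^ 24 := by positivity
  have hasc := lin_as_cont hE ht₀
  have hm : Continuous fun r : ℝ => E.q ^ 24 * r := continuous_const.mul continuous_id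
  have c1 : Continuous fun r => ⟪E.A (E.q ^ 24 * r) e₀, z⟫_ℝ :=
    ((E.cA.comp hm).clm_apply continuous_const).inner continuous_const
  have c2 : Continuous fun r => ⟪E.as (E.q ^ 24 * r) t₀, z⟫_ℝ := (hasc.comp hm).inner continuous_const
  have h1 : (fun r => E.q ^ 12 * (E.a t₀ * ⟪E.A (E.q ^ 24 * r) e₀ + E.as (E.q ^ 24 * r) t₀, z⟫_ℝ)) =
      fun r => (E.q ^ 12 * E.a t₀) * (⟪E.A (E.q ^ 24 * r) e₀, z⟫_ℝ + ⟪E.as (E.q ^ 24 * r) t₀, z⟫_ℝ) := by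
    funext r
    rw [inner_add_left]
    ring
  rw [h1]
  refine ⟨((c1.add c2).const_mul _).intervalIntegrable _ _, ?_⟩
  rw [intervalIntegral.integral_const_mul,
    intervalIntegral.integral_add (c1.intervalIntegrable _ _) (c2.intervalIntegrable _ _),
    E.ftc hκ s t e₀ z, ftc_path (hE.dbs t₀ ht₀) hasc hκ s t z, inner_add_left]
  field_simp

/-- **The linear term.** Proof: take `y` from `OK.yY` for `Y(q²⁴ t, t₀, e₀)`; `Sol.weak` with `φ = y` on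
`[t₀, t]`; `OK.y_pt` with `X² = C β⁵/q²⁴` (`OK.h_bound`), so
`∫ (q¹² X + q¹² ℓ + ‖e‖²/β + β³) ≤ C β³/q²⁴` and `‖y‖ ≤ 3 K q⁵ β²`, `β ≤ 9 K³ q⁶`: the error is
`≤ C β⁵/q¹⁹ ≤ C β⁴/q¹³`; the leading part is integrated by `Fast.ftc`, `ftc_path`
(`q¹² q⁻²⁴ = q⁻¹²`); then replace `ι y` by `Y`: errors `3K β²/q¹⁵ ‖e t - e t₀‖` and
`q⁻¹² (2K β² + 2K) 3K β²/q⁵`. -/
theorem OK.lin (K : ℝ) : ∃ C q₀, 0 ≤ C ∧ 1 ≤ q₀ ∧ ∀ (E : EData H V) (K₀ CV δ γ : ℝ),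
    E.OK K₀ K CV δ γ → q₀ ≤ E.q → ∀ e : ℝ → V, E.Sol e → ∀ τ ≤ 1, E.Bd e K₀ τ →
    ∀ k : ℕ, 1 ≤ k → k * E.ℓ + E.ℓ ≤ τ → ∀ t₀ ∈ Icc (k * E.ℓ - E.ℓ) (k * E.ℓ), ‖e t₀‖ ≤ E.be e k ^ 2 →
    ∀ t ∈ Icc t₀ (k * E.ℓ + E.ℓ),
      |⟪E.ι (e t) - E.ι (e t₀), E.Y (E.q ^ 24 * t) t₀ (e t₀)⟫_ℝ +
        E.a t₀ / E.q ^ 12 * ⟪(E.B (E.q ^ 24 * t) - E.B (E.q ^ 24 * t₀)) (e t₀) +
          (E.bs (E.q ^ 24 * t) t₀ - E.bs (E.q ^ 24 * t₀) t₀), E.Y (E.q ^ 24 * t) t₀ (e t₀)⟫_ℝ| ≤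
      C * (E.be e k ^ 2 / E.q ^ 15 * ‖e t - e t₀‖ + E.be e k ^ 4 / E.q ^ 13) := by
  obtain ⟨C₁, q₀, hC₁, hq₀, H1⟩ := OK.h_bound (H := H) (V := V) K
  obtain ⟨C₂, hC₂, H2⟩ := OK.y_pt (H := H) (V := V) K
  set C₃ : ℝ := 4 * Real.pi * √C₁ + 8 * Real.pi ^ 2 + 1 + 4 * Real.pi with hC₃
  have hpi : 0 < Real.pi := Real.pi_pos
  have hC₃0 : 0 ≤ C₃ := by positivity
  refine ⟨3 * |K| + 27 * K ^ 4 * C₂ * C₃ + 12 * K ^ 2, q₀, by positivity, hq₀, ?_⟩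
  intro E K₀ CV δ γ hE hq e hs τ hτ hb k hk hkτ t₀ ht₀ he₀ t ht
  have hK1 : 1 ≤ K := hE.K1
  have hK : 0 ≤ K := zero_le_one.trans hK1
  have hq1 : 1 ≤ E.q := hE.q1
  have hq0 : 0 < E.q := zero_lt_one.trans_le hq1
  have hℓ := hE.ℓ0
  have hkR : (1 : ℝ) ≤ k := by exact_mod_cast hk
  have ht₀0 : 0 ≤ t₀ := by
    have : 0 ≤ k * E.ℓ - E.ℓ := by
      have := mul_le_mul_of_nonneg_right hkR hℓ.le
      linarith
    exact this.trans ht₀.1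
  have ht₀t : t₀ ≤ t := ht.1
  have ht1 : t ≤ 1 := ht.2.trans (hkτ.trans hτ)
  have ht₀m : t₀ ∈ Icc (0:ℝ) 1 := ⟨ht₀0, ht₀t.trans ht1⟩
  obtain ⟨hβ1, hβ4, hβ6, hα, -⟩ := hE.be_facts hs hτ hb hk hkτ
  have hint := hE.int_le hs hτ hb hk hkτ ht₀.1 ht₀t ht.2
  have hsub : ∀ r ∈ Icc t₀ t, r ∈ Icc (0:ℝ) 1 := fun r hr => ⟨ht₀0.trans hr.1, hr.2.trans ht1⟩
  have hιb : ∀ r ∈ Icc t₀ t, ‖E.ι (e r)‖ ≤ K₀ := by
    intro r hr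
    have h1 := hb r ⟨ht₀0.trans hr.1, hr.2.trans (ht.2.trans hkτ)⟩
    have h2 : 0 ≤ ∫ s in (0:ℝ)..r, ‖e s‖ ^ 2 :=
      intervalIntegral.integral_nonneg (ht₀0.trans hr.1) fun s _ => sq_nonneg _
    have h3 : ‖E.ι (e r)‖ ^ 2 ≤ K₀ ^ 2 := by
      have h4 : 0 ≤ E.b / 2 * ∫ s in (0:ℝ)..r, ‖e s‖ ^ 2 := mul_nonneg (by linarith [hE.b0]) h2
      linarith
    exact (sq_le_sq₀ (norm_nonneg _) (zero_le_one.trans hE.K₀1)).1 h3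
  set β := E.be e k with hβdef
  set e₀ := e t₀ with he₀def
  have hβ0 : 0 < β := zero_lt_one.trans_le hβ1
  obtain ⟨y, hy1, hy2, hy3⟩ := hE.yY ht₀m (E.q ^ 24 * t) e₀ hβ1 he₀
  set Yv := E.Y (E.q ^ 24 * t) t₀ e₀ with hYv
  set W := (E.B (E.q ^ 24 * t) - E.B (E.q ^ 24 * t₀)) e₀ +
          (E.bs (E.q ^ 24 * t) t₀ - E.bs (E.q ^ 24 * t₀) t₀) with hW
  set X : ℝ := √C₁ * β ^ 3 / E.q ^ 12 with hX
  have hX0 : 0 ≤ X := by positivity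
  have hXb : ∀ r ∈ Icc t₀ t, ‖E.ι (e r) - E.ι e₀‖ ≤ X := by
    intro r hr
    have h1 := H1 E K₀ CV δ γ hE hq e hs τ hτ hb k hk hkτ t₀ ht₀ he₀ r ⟨hr.1, hr.2.trans ht.2⟩
    have h2 : C₁ / E.q ^ 24 * β ^ 5 ≤ X ^ 2 := by
      rw [hX, div_pow, mul_pow, Real.sq_sqrt hC₁]
      have h3 : β ^ 5 ≤ β ^ 6 := pow_le_pow_right₀ hβ1 (by norm_num)
      calc C₁ / E.q ^ 24 * β ^ 5 ≤ C₁ / E.q ^ 24 * β ^ 6 := by gcongr
        _ = _ := by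
            rw [← pow_mul, ← pow_mul]
            ring
    exact (sq_le_sq₀ (norm_nonneg _) hX0).1 (h1.trans h2)
  -- the equation tested with `y`
  have hweak := hs.weak y t₀ t ht₀0 ht₀t ht1
  obtain ⟨hi2, hlead⟩ := lin_lead hE ht₀m e₀ (E.ι y) t₀ t
  have hi1 : IntervalIntegrable (fun r => E.R r (e r) y) volume t₀ t := by
    have h1 : ContinuousOn (fun r => E.R r (e r) y) (Icc 0 1) := hs.cR hE continuousOn_const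
    exact (h1.mono (by rw [uIcc_of_le ht₀t]; exact fun r hr => hsub r hr)).intervalIntegrable
  have hce : ContinuousOn (fun r => ‖e r‖ ^ 2) (uIcc t₀ t) := by
    rw [uIcc_of_le ht₀t]
    exact ((hs.ce.mono fun r hr => hsub r hr).norm).pow 2
  have hi3 : IntervalIntegrable (fun r => ‖e r‖ ^ 2) volume t₀ t := hce.intervalIntegrable
  have hgint : IntervalIntegrable (fun r => C₂ * ‖y‖ * (E.q ^ 12 * X + E.q ^ 12 * E.ℓ + ‖e r‖ ^ 2 / β + β ^ 3))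
      volume t₀ t := by
    refine ContinuousOn.intervalIntegrable ?_
    exact continuousOn_const.mul (((continuousOn_const.add continuousOn_const).add
      (hce.div_const β)).add continuousOn_const)
  have hbd : |∫ r in t₀..t, (E.R r (e r) y -
      E.q ^ 12 * (E.a t₀ * ⟪E.A (E.q ^ 24 * r) e₀ + E.as (E.q ^ 24 * r) t₀, E.ι y⟫_ℝ))| ≤
      ∫ r in t₀..t, C₂ * ‖y‖ * (E.q ^ 12 * X + E.q ^ 12 * E.ℓ + ‖e r‖ ^ 2 / β + β ^ 3) := by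
    rw [← Real.norm_eq_abs]
    refine intervalIntegral.norm_integral_le_of_norm_le ht₀t (Eventually.of_forall fun r hr => ?_) hgint
    have hr' : r ∈ Icc t₀ t := ⟨hr.1.le, hr.2⟩
    rw [Real.norm_eq_abs]
    refine H2 E K₀ CV δ γ hE r (hsub r hr') t₀ ht₀m (e r) e₀ y β X hβ1 (hιb r hr')
      (hιb t₀ ⟨le_rfl, ht₀t⟩) (hXb r hr') ?_
    rw [abs_of_nonneg (by linarith [hr.1])]
    have := ht₀.1
    have := ht.2
    linarith [hr.2]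
  have hgval : ∫ r in t₀..t, C₂ * ‖y‖ * (E.q ^ 12 * X + E.q ^ 12 * E.ℓ + ‖e r‖ ^ 2 / β + β ^ 3) =
      C₂ * ‖y‖ * ((E.q ^ 12 * X + E.q ^ 12 * E.ℓ + β ^ 3) * (t - t₀) + (∫ r in t₀..t, ‖e r‖ ^ 2) / β) := by
    rw [intervalIntegral.integral_const_mul]
    congr 1
    have h1 : (fun r => E.q ^ 12 * X + E.q ^ 12 * E.ℓ + ‖e r‖ ^ 2 / β + β ^ 3) =
        fun r => (E.q ^ 12 * X + E.q ^ 12 * E.ℓ + β ^ 3) + ‖e r‖ ^ 2 / β := by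
      funext r; ring
    rw [h1, intervalIntegral.integral_add intervalIntegrable_const (hi3.div_const β),
      intervalIntegral.integral_const, intervalIntegral.integral_div, smul_eq_mul]
    ring
  have htt : t - t₀ ≤ 2 * E.ℓ := by
    have := ht₀.1
    have := ht.2
    linarith
  have hℓv : E.ℓ = 2 * Real.pi / E.q ^ 24 := rfl
  have hβ3 : 1 ≤ β ^ 3 := one_le_pow₀ hβ1
  have hbr : (E.q ^ 12 * X + E.q ^ 12 * E.ℓ + β ^ 3) * (t - t₀) + (∫ r in t₀..t, ‖e r‖ ^ 2) / β ≤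
      C₃ * β ^ 3 / E.q ^ 24 := by
    have h1 : (E.q ^ 12 * X + E.q ^ 12 * E.ℓ + β ^ 3) * (t - t₀) ≤
        (E.q ^ 12 * X + E.q ^ 12 * E.ℓ + β ^ 3) * (2 * E.ℓ) := by gcongr
    have h2 : (∫ r in t₀..t, ‖e r‖ ^ 2) / β ≤ (β ^ 4 / E.q ^ 24) / β := by gcongr
    have h3 : (β ^ 4 / E.q ^ 24) / β = β ^ 3 / E.q ^ 24 := by field_simp
    have h4 : E.q ^ 12 * X * (2 * E.ℓ) = 4 * Real.pi * √C₁ * β ^ 3 / E.q ^ 24 := by
      rw [hX, hℓv]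
      field_simp
      ring
    have h5 : E.q ^ 12 * E.ℓ * (2 * E.ℓ) ≤ 8 * Real.pi ^ 2 * β ^ 3 / E.q ^ 24 := by
      have h6 : E.q ^ 12 * E.ℓ * (2 * E.ℓ) = 8 * Real.pi ^ 2 / E.q ^ 36 := by
        rw [hℓv]
        field_simp
        ring
      rw [h6]
      have h7 : E.q ^ 24 ≤ E.q ^ 36 := pow_le_pow_right₀ hq1 (by norm_num)
      calc 8 * Real.pi ^ 2 / E.q ^ 36 ≤ 8 * Real.pi ^ 2 / E.q ^ 24 := by gcongr
        _ ≤ _ := div_le_div_of_nonneg_right (le_mul_of_one_le_right (by positivity) hβ3) (by positivity)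
    have h8 : β ^ 3 * (2 * E.ℓ) = 4 * Real.pi * β ^ 3 / E.q ^ 24 := by
      rw [hℓv]
      ring
    have h9 : C₃ * β ^ 3 / E.q ^ 24 = 4 * Real.pi * √C₁ * β ^ 3 / E.q ^ 24 +
        8 * Real.pi ^ 2 * β ^ 3 / E.q ^ 24 + β ^ 3 / E.q ^ 24 + 4 * Real.pi * β ^ 3 / E.q ^ 24 := by
      rw [hC₃]
      ring
    rw [h9]
    have h10 : (E.q ^ 12 * X + E.q ^ 12 * E.ℓ + β ^ 3) * (2 * E.ℓ) =
        E.q ^ 12 * X * (2 * E.ℓ) + E.q ^ 12 * E.ℓ * (2 * E.ℓ) + β ^ 3 * (2 * E.ℓ) := by ring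
    rw [h10] at h1
    rw [h3] at h2
    linarith
  -- the term with `ι y`
  have hmain : |⟪E.ι (e t) - E.ι e₀, E.ι y⟫_ℝ + E.a t₀ / E.q ^ 12 * ⟪W, E.ι y⟫_ℝ| ≤
      27 * K ^ 4 * C₂ * C₃ * (β ^ 4 / E.q ^ 13) := by
    have h1 : ⟪E.ι (e t) - E.ι e₀, E.ι y⟫_ℝ + E.a t₀ / E.q ^ 12 * ⟪W, E.ι y⟫_ℝ =
        -∫ r in t₀..t, (E.R r (e r) y -
          E.q ^ 12 * (E.a t₀ * ⟪E.A (E.q ^ 24 * r) e₀ + E.as (E.q ^ 24 * r) t₀, E.ι y⟫_ℝ)) := by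
      rw [intervalIntegral.integral_sub hi1 hi2, hlead, inner_sub_left, hweak]
      ring
    rw [h1, abs_neg]
    refine hbd.trans ?_
    rw [hgval]
    calc C₂ * ‖y‖ * ((E.q ^ 12 * X + E.q ^ 12 * E.ℓ + β ^ 3) * (t - t₀) + (∫ r in t₀..t, ‖e r‖ ^ 2) / β)
        ≤ C₂ * ‖y‖ * (C₃ * β ^ 3 / E.q ^ 24) := by gcongr
      _ ≤ C₂ * (3 * K * E.q ^ 5 * β ^ 2) * (C₃ * β ^ 3 / E.q ^ 24) := by gcongr
      _ = 3 * K * C₂ * C₃ * β ^ 4 / E.q ^ 19 * β := by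
          field_simp
      _ ≤ 3 * K * C₂ * C₃ * β ^ 4 / E.q ^ 19 * (9 * K ^ 3 * E.q ^ 6) := by gcongr
      _ = _ := by
          field_simp
          ring
  have hYy : |⟪E.ι (e t) - E.ι e₀, Yv - E.ι y⟫_ℝ| ≤ 3 * K * (β ^ 2 / E.q ^ 15 * ‖e t - e₀‖) := by
    rw [← map_sub]
    calc _ ≤ 3 * K / E.q ^ 15 * β ^ 2 * ‖e t - e₀‖ := hy3 _
      _ = _ := by ring
  have hWb : ‖W‖ ≤ 4 * K * β ^ 2 := by
    have h1 : ‖(E.B (E.q ^ 24 * t) - E.B (E.q ^ 24 * t₀)) e₀‖ ≤ 2 * K * β ^ 2 := by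
      calc ‖(E.B (E.q ^ 24 * t) - E.B (E.q ^ 24 * t₀)) e₀‖ ≤ ‖E.B (E.q ^ 24 * t) - E.B (E.q ^ 24 * t₀)‖ * ‖e₀‖ :=
            ContinuousLinearMap.le_opNorm _ _
        _ ≤ (K + K) * β ^ 2 := by
            gcongr
            exact (norm_sub_le _ _).trans (add_le_add (hE.Bb _) (hE.Bb _))
        _ = _ := by ring
    have h2 : ‖E.bs (E.q ^ 24 * t) t₀ - E.bs (E.q ^ 24 * t₀) t₀‖ ≤ K + K :=
      (norm_sub_le _ _).trans (add_le_add (hE.bsb t₀ ht₀m _) (hE.bsb t₀ ht₀m _))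
    have h3 : K ≤ K * β ^ 2 := le_mul_of_one_le_right hK (one_le_pow₀ hβ1)
    calc ‖W‖ ≤ ‖(E.B (E.q ^ 24 * t) - E.B (E.q ^ 24 * t₀)) e₀‖ +
          ‖E.bs (E.q ^ 24 * t) t₀ - E.bs (E.q ^ 24 * t₀) t₀‖ := norm_add_le _ _
      _ ≤ _ := by linarith
  have hWY : |E.a t₀ / E.q ^ 12 * ⟪W, Yv - E.ι y⟫_ℝ| ≤ 12 * K ^ 2 * (β ^ 4 / E.q ^ 13) := by
    rw [abs_mul, abs_div, abs_of_pos (show 0 < E.q ^ 12 by positivity)]
    calc |E.a t₀| / E.q ^ 12 * |⟪W, Yv - E.ι y⟫_ℝ| ≤ 1 / E.q ^ 12 * (‖W‖ * ‖Yv - E.ι y‖) := by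
          gcongr
          · exact hE.ab t₀ ht₀m
          · exact abs_real_inner_le_norm _ _
      _ ≤ 1 / E.q ^ 12 * ((4 * K * β ^ 2) * (3 * K / E.q ^ 5 * β ^ 2)) := by gcongr
      _ = 12 * K ^ 2 * (β ^ 4 / E.q ^ 17) := by
          field_simp
          ring
      _ ≤ 12 * K ^ 2 * (β ^ 4 / E.q ^ 13) := by
          gcongr
          norm_num
  have hfin : ⟪E.ι (e t) - E.ι e₀, Yv⟫_ℝ + E.a t₀ / E.q ^ 12 * ⟪W, Yv⟫_ℝ =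
      (⟪E.ι (e t) - E.ι e₀, E.ι y⟫_ℝ + E.a t₀ / E.q ^ 12 * ⟪W, E.ι y⟫_ℝ) +
        ⟪E.ι (e t) - E.ι e₀, Yv - E.ι y⟫_ℝ + E.a t₀ / E.q ^ 12 * ⟪W, Yv - E.ι y⟫_ℝ := by
    rw [inner_sub_right, inner_sub_right]
    ring
  rw [hfin, abs_of_nonneg hK]
  refine (abs_add_three _ _ _).trans ?_
  have n1 : 0 ≤ β ^ 2 / E.q ^ 15 * ‖e t - e₀‖ := by positivity
  have n2 : 0 ≤ β ^ 4 / E.q ^ 13 := by positivity
  have n3 : 0 ≤ 27 * K ^ 4 * C₂ * C₃ := by positivity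
  have m1 := mul_nonneg n3 n1
  have m2 := mul_nonneg hK n2
  have m3 : 0 ≤ K ^ 2 * (β ^ 2 / E.q ^ 15 * ‖e t - e₀‖) := by positivity
  have h20 : (3 * K + 27 * K ^ 4 * C₂ * C₃ + 12 * K ^ 2) * (β ^ 2 / E.q ^ 15 * ‖e t - e₀‖ + β ^ 4 / E.q ^ 13) =
      3 * K * (β ^ 2 / E.q ^ 15 * ‖e t - e₀‖) + 3 * (K * (β ^ 4 / E.q ^ 13)) +
      27 * K ^ 4 * C₂ * C₃ * (β ^ 2 / E.q ^ 15 * ‖e t - e₀‖) + 27 * K ^ 4 * C₂ * C₃ * (β ^ 4 / E.q ^ 13) +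
      12 * (K ^ 2 * (β ^ 2 / E.q ^ 15 * ‖e t - e₀‖)) + 12 * K ^ 2 * (β ^ 4 / E.q ^ 13) := by ring
  rw [h20]
  linarith

end EData

end

end Pool.Agent.Lib.MP_79abb3_an.W
end

section

/-!
Theorem W, block E: the fast term in one period.
-/

set_option autoImplicit false

open MeasureTheory Set Filter Topology Function
open scoped InnerProductSpace

namespace Pool.Agent.Lib.MP_79abb3_an.W

section
variable {H V : Type} [NormedAddCommGroup H] [InnerProductSpace ℝ H] [NormedAddCommGroup V]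
  [InnerProductSpace ℝ V]

namespace EData

private theorem x_le {E : EData H V} {K₀ K CV δ γ : ℝ} (hE : E.OK K₀ K CV δ γ) {e : ℝ → V} {τ : ℝ}
    (hb : E.Bd e K₀ τ) {t : ℝ} (ht : t ∈ Icc (0:ℝ) τ) : ‖E.ι (e t)‖ ≤ K₀ := by
  have h1 := hb t ht
  have h2 : 0 ≤ E.b / 2 * ∫ r in (0:ℝ)..t, ‖e r‖ ^ 2 :=
    mul_nonneg (by linarith [hE.b0]) (intervalIntegral.integral_nonneg ht.1 fun x _ => by positivity)
  exact abs_le_of_sq_le_sq' (by linarith) (by linarith [hE.K₀1]) |>.2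

private theorem int_aux {F P Q w : ℝ → ℝ} {a c x y D₁ D₂ : ℝ} (hac : a ≤ c)
    (hF : IntervalIntegrable F volume a c) (hP : IntervalIntegrable P volume a c)
    (hQ : IntervalIntegrable Q volume a c) (hw : IntervalIntegrable w volume a c)
    (h : ∀ r ∈ Icc a c, |F r - x * P r + y * Q r| ≤ D₁ + D₂ * w r) :
    |(∫ r in a..c, F r) - x * (∫ r in a..c, P r) + y * (∫ r in a..c, Q r)| ≤
      D₁ * (c - a) + D₂ * ∫ r in a..c, w r := by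
  have h1 : (∫ r in a..c, F r) - x * (∫ r in a..c, P r) + y * (∫ r in a..c, Q r) =
      ∫ r in a..c, (F r - x * P r + y * Q r) := by
    rw [intervalIntegral.integral_add (hF.sub (hP.const_mul x)) (hQ.const_mul y),
      intervalIntegral.integral_sub hF (hP.const_mul x), intervalIntegral.integral_const_mul,
      intervalIntegral.integral_const_mul]
  have h2 : D₁ * (c - a) + D₂ * (∫ r in a..c, w r) = ∫ r in a..c, (D₁ + D₂ * w r) := by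
    rw [intervalIntegral.integral_add intervalIntegrable_const (hw.const_mul D₂),
      intervalIntegral.integral_const_mul, intervalIntegral.integral_const, smul_eq_mul, mul_comm D₁]
  rw [h1, h2, ← Real.norm_eq_abs]
  apply intervalIntegral.norm_integral_le_of_norm_le hac
  · filter_upwards with r hr
    exact h r ⟨hr.1.le, hr.2⟩
  · exact intervalIntegrable_const.add (hw.const_mul D₂)

/-- the pointwise bound -/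
private theorem pt_aux {F P Wr Qr a₀ q C₁ C₂ C₃ β ℓ nh2 nd ne : ℝ} (hq : 1 ≤ q) (hC₁ : 0 ≤ C₁)
    (hC₃ : 0 ≤ C₃) (hβ : 1 ≤ β) (ha : |a₀| ≤ 1) (hne : 0 ≤ ne)
    (h1 : |F - q ^ 12 * (a₀ * (P + Wr))| ≤ C₁ * q ^ 12 * (nh2 + ℓ)) (h2 : nh2 ≤ C₂ / q ^ 24 * β ^ 5)
    (h3 : |Wr + a₀ / q ^ 12 * Qr| ≤ C₃ * (β ^ 2 / q ^ 15 * nd + β ^ 4 / q ^ 13))
    (h4 : nd ≤ ne + β ^ 2) :
    |F - q ^ 12 * a₀ * P + a₀ ^ 2 * Qr| ≤
      (C₁ * (C₂ * β ^ 5 / q ^ 12 + q ^ 12 * ℓ) + 3 * C₃ * β ^ 4 / q) + C₃ / q * ne ^ 2 := by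
  have hq0 : 0 < q := lt_of_lt_of_le one_pos hq
  have hβ0 : 0 < β := lt_of_lt_of_le one_pos hβ
  have e1 : F - q ^ 12 * a₀ * P + a₀ ^ 2 * Qr =
      (F - q ^ 12 * (a₀ * (P + Wr))) + q ^ 12 * a₀ * (Wr + a₀ / q ^ 12 * Qr) := by
    field_simp
    ring
  have e2 : |q ^ 12 * a₀ * (Wr + a₀ / q ^ 12 * Qr)| ≤
      q ^ 12 * (C₃ * (β ^ 2 / q ^ 15 * nd + β ^ 4 / q ^ 13)) := by
    rw [mul_assoc, abs_mul, abs_of_pos (by positivity : (0:ℝ) < q ^ 12), abs_mul]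
    refine mul_le_mul_of_nonneg_left ?_ (by positivity)
    calc |a₀| * |Wr + a₀ / q ^ 12 * Qr| ≤ 1 * |Wr + a₀ / q ^ 12 * Qr| := by gcongr
      _ = |Wr + a₀ / q ^ 12 * Qr| := one_mul _
      _ ≤ _ := h3
  have e3 : β ^ 2 * nd ≤ ne ^ 2 + 2 * β ^ 4 := by
    nlinarith [sq_nonneg (ne - β ^ 2), mul_le_mul_of_nonneg_left h4 (by positivity : (0:ℝ) ≤ β ^ 2),
      sq_nonneg (ne + β ^ 2), sq_nonneg ne, sq_nonneg (β ^ 2)]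
  have e4 : q ^ 12 * (C₃ * (β ^ 2 / q ^ 15 * nd + β ^ 4 / q ^ 13)) =
      C₃ * (β ^ 2 * nd) / q ^ 3 + C₃ * β ^ 4 / q := by
    field_simp
  have e5 : C₃ * (β ^ 2 * nd) / q ^ 3 ≤ C₃ * (ne ^ 2 + 2 * β ^ 4) / q := by
    calc C₃ * (β ^ 2 * nd) / q ^ 3 ≤ C₃ * (ne ^ 2 + 2 * β ^ 4) / q ^ 3 := by gcongr
      _ ≤ C₃ * (ne ^ 2 + 2 * β ^ 4) / q := by
        apply div_le_div_of_nonneg_left (by positivity) hq0
        calc q = q ^ 1 := (pow_one q).symm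
          _ ≤ q ^ 3 := pow_le_pow_right₀ hq (by norm_num)
  have e6 : C₁ * q ^ 12 * (nh2 + ℓ) ≤ C₁ * (C₂ * β ^ 5 / q ^ 12 + q ^ 12 * ℓ) := by
    calc C₁ * q ^ 12 * (nh2 + ℓ) ≤ C₁ * q ^ 12 * (C₂ / q ^ 24 * β ^ 5 + ℓ) := by gcongr
      _ = C₁ * (C₂ * β ^ 5 / q ^ 12 + q ^ 12 * ℓ) := by field_simp
  have e7 : C₃ * (ne ^ 2 + 2 * β ^ 4) / q = C₃ / q * ne ^ 2 + 2 * (C₃ * β ^ 4 / q) := by
    field_simp
  have e8 : 3 * C₃ * β ^ 4 / q = 3 * (C₃ * β ^ 4 / q) := by ring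
  rw [e1, e8]
  have e9 := abs_add_le (F - q ^ 12 * (a₀ * (P + Wr))) (q ^ 12 * a₀ * (Wr + a₀ / q ^ 12 * Qr))
  linarith

/-- the sum of the errors -/
private theorem err_aux {K q C₁ C₂ C₃ β ℓ α I : ℝ} (hq : 1 ≤ q) (hC₁ : 0 ≤ C₁) (hC₂ : 0 ≤ C₂)
    (hC₃ : 0 ≤ C₃) (hβ : 1 ≤ β) (hα : β ^ 4 = q ^ 24 * α) (hβ2 : β ≤ 9 * K ^ 3 * q ^ 6)
    (hℓ0 : 0 ≤ ℓ) (hℓ : ℓ ≤ 7 / q ^ 24) (hℓα : ℓ ≤ α) (hI : I ≤ β ^ 4 / q ^ 24) (hK : 0 ≤ K) :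
    (C₁ * (C₂ * β ^ 5 / q ^ 12 + q ^ 12 * ℓ) + 3 * C₃ * β ^ 4 / q) * ℓ + C₃ / q * I ≤
      (63 * K ^ 3 * C₁ * C₂ + 7 * C₁ + 22 * C₃) / q * α := by
  have hq0 : 0 < q := lt_of_lt_of_le one_pos hq
  have hα0 : 0 ≤ α := hℓ0.trans hℓα
  have hα' : α = β ^ 4 / q ^ 24 := by
    rw [hα]
    field_simp
  have t1 : C₁ * (C₂ * β ^ 5 / q ^ 12) * ℓ ≤ 63 * K ^ 3 * C₁ * C₂ * (α / q) := by
    calc C₁ * (C₂ * β ^ 5 / q ^ 12) * ℓ ≤ C₁ * (C₂ * β ^ 5 / q ^ 12) * (7 / q ^ 24) := by gcongr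
      _ = 7 * C₁ * C₂ * β * (β ^ 4 / q ^ 24) / q ^ 12 := by field_simp
      _ ≤ 7 * C₁ * C₂ * (9 * K ^ 3 * q ^ 6) * (β ^ 4 / q ^ 24) / q ^ 12 := by gcongr
      _ = 63 * K ^ 3 * C₁ * C₂ * (α / q ^ 6) := by
        rw [hα']
        field_simp
        ring
      _ ≤ 63 * K ^ 3 * C₁ * C₂ * (α / q) := by
        have : q ≤ q ^ 6 := by
          calc q = q ^ 1 := (pow_one q).symm
            _ ≤ q ^ 6 := pow_le_pow_right₀ hq (by norm_num)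
        gcongr
  have t2 : C₁ * (q ^ 12 * ℓ) * ℓ ≤ 7 * C₁ * (α / q) := by
    calc C₁ * (q ^ 12 * ℓ) * ℓ ≤ C₁ * (q ^ 12 * (7 / q ^ 24)) * α := by gcongr
      _ = 7 * C₁ * (α / q ^ 12) := by field_simp
      _ ≤ 7 * C₁ * (α / q) := by
        have : q ≤ q ^ 12 := by
          calc q = q ^ 1 := (pow_one q).symm
            _ ≤ q ^ 12 := pow_le_pow_right₀ hq (by norm_num)
        gcongr
  have t3 : 3 * C₃ * β ^ 4 / q * ℓ ≤ 21 * C₃ * (α / q) := by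
    calc 3 * C₃ * β ^ 4 / q * ℓ ≤ 3 * C₃ * β ^ 4 / q * (7 / q ^ 24) := by gcongr
      _ = 21 * C₃ * (α / q) := by
        rw [hα']
        field_simp
        ring
  have t4 : C₃ / q * I ≤ C₃ * (α / q) := by
    calc C₃ / q * I ≤ C₃ / q * (β ^ 4 / q ^ 24) := by gcongr
      _ = C₃ * (α / q) := by
        rw [hα']
        field_simp
  have t5 : (63 * K ^ 3 * C₁ * C₂ + 7 * C₁ + 22 * C₃) / q * α =
      63 * K ^ 3 * C₁ * C₂ * (α / q) + 7 * C₁ * (α / q) + (21 * C₃ * (α / q) + C₃ * (α / q)) := by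
    field_simp
    ring
  rw [t5]
  linarith

/-- **The fast term in a period is the drift.** Proof: `OK.freeze`; the first two terms have mean zero
(`Fast.mean`), the third: `OK.lin`, `Fast.res` with `β = bs(·, t₀)`, `z = B(q²⁴ t₀) e₀ + bs(q²⁴ t₀, t₀)`
(`q¹² · a₀/q¹² · a₀ = a₀²`); the errors: `q¹² ∫ C (β²/q¹⁵ ‖e - e₀‖ + β⁴/q¹³)`,
`∫ ‖e - e₀‖ ≤ √ℓ (∫ ‖e‖²)^{1/2} + ℓ β² ≤ C β²/q²⁴`, `β⁴/q²⁴ = α_k`; `q¹² ℓ C β⁵/q²⁴ ≤ C α_k/q⁶`. -/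
theorem OK.period (K : ℝ) : ∃ C q₀, 0 ≤ C ∧ 1 ≤ q₀ ∧ ∀ (E : EData H V) (K₀ CV δ γ : ℝ),
    E.OK K₀ K CV δ γ → q₀ ≤ E.q → ∀ e : ℝ → V, E.Sol e → ∀ τ ≤ 1, E.Bd e K₀ τ →
    ∀ k : ℕ, 1 ≤ k → k * E.ℓ + E.ℓ ≤ τ → ∀ t₀ ∈ Icc (k * E.ℓ - E.ℓ) (k * E.ℓ), ‖e t₀‖ ≤ E.be e k ^ 2 →
      |(∫ r in (k * E.ℓ)..(k * E.ℓ + E.ℓ), E.fast e r) -
        E.ℓ * (E.a t₀ ^ 2 * (E.dr (e t₀) (e t₀) + E.drS (fun θ => E.bs θ t₀) (e t₀)))| ≤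
        C / E.q * E.alp e k := by
  obtain ⟨C₁, hC₁, hfr⟩ := OK.freeze (H := H) (V := V) K
  obtain ⟨C₂, q₂, hC₂, hq₂, hhb⟩ := OK.h_bound (H := H) (V := V) K
  obtain ⟨C₃, q₃, hC₃, hq₃, hlin⟩ := OK.lin (H := H) (V := V) K
  refine ⟨63 * |K| ^ 3 * C₁ * C₂ + 7 * C₁ + 22 * C₃, max q₂ q₃, by positivity,
    hq₂.trans (le_max_left _ _), ?_⟩
  intro E K₀ CV δ γ hE hq e he τ hτ hb k hk hkτ t₀ ht₀ het₀
  have hqq₂ : q₂ ≤ E.q := (le_max_left _ _).trans hq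
  have hqq₃ : q₃ ≤ E.q := (le_max_right _ _).trans hq
  have hq0 : 0 < E.q := lt_of_lt_of_le one_pos hE.q1
  have hK : 1 ≤ K := hE.K1
  rw [abs_of_nonneg (by linarith : 0 ≤ K)]
  have hℓ : 0 < E.ℓ := hE.ℓ0
  obtain ⟨hβ1, hβ4, hβ2, hα0, hI2⟩ := hE.be_facts he hτ hb hk hkτ
  have hk1 : (1:ℝ) ≤ k := by exact_mod_cast hk
  have hkℓ : E.ℓ ≤ k * E.ℓ := by nlinarith
  have ht₀1 : t₀ ∈ Icc (0:ℝ) 1 := ⟨by linarith [ht₀.1], by linarith [ht₀.2]⟩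
  have ht₀τ : t₀ ∈ Icc (0:ℝ) τ := ⟨ht₀1.1, by linarith [ht₀.2]⟩
  have hx₀ := x_le hE hb ht₀τ
  have hI := hE.int_le he hτ hb hk hkτ (a := k * E.ℓ) (c := k * E.ℓ + E.ℓ) (by linarith) (by linarith)
    le_rfl
  have hℓ7 : E.ℓ ≤ 7 / E.q ^ 24 := by
    rw [ℓ]
    gcongr
    linarith [Real.pi_lt_d2]
  have hℓα : E.ℓ ≤ E.alp e k := by
    rw [alp]
    have : 0 ≤ ∫ r in (k * E.ℓ - E.ℓ)..(k * E.ℓ + E.ℓ), ‖e r‖ ^ 2 :=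
      intervalIntegral.integral_nonneg (by linarith) fun x _ => by positivity
    linarith
  have cas : Continuous fun θ => E.as θ t₀ :=
    hE.cas.comp_continuous (f := fun θ : ℝ => (θ, t₀)) (by fun_prop) fun θ => ⟨mem_univ _, ht₀1⟩
  have cbs : Continuous fun θ => E.bs θ t₀ :=
    continuous_iff_continuousAt.2 fun θ => (hE.dbs t₀ ht₀1 θ).continuousAt
  have cκ : Continuous fun r : ℝ => E.q ^ 24 * r := continuous_const.mul continuous_id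
  have cSr : ∀ x : H, Continuous fun r : ℝ => E.S (E.q ^ 24 * r) x := fun x =>
    (E.cS.comp cκ).clm_apply continuous_const
  have cBr : ∀ x : V, Continuous fun r : ℝ => E.B (E.q ^ 24 * r) x := fun x =>
    (E.toFast.cB.comp cκ).clm_apply continuous_const
  have casr : Continuous fun r : ℝ => E.as (E.q ^ 24 * r) t₀ := cas.comp cκ
  have cbsr : Continuous fun r : ℝ => E.bs (E.q ^ 24 * r) t₀ := cbs.comp cκ
  have hκ : 0 < E.q ^ 24 := by positivity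
  obtain ⟨z, hz⟩ : ∃ z, z = E.B (E.q ^ 24 * t₀) (e t₀) + E.bs (E.q ^ 24 * t₀) t₀ := ⟨_, rfl⟩
  have hmean : ∫ r in (k * E.ℓ)..(k * E.ℓ + E.ℓ), (⟪E.S (E.q ^ 24 * r) (E.ι (e t₀)), E.ι (e t₀)⟫_ℝ +
      ⟪E.as (E.q ^ 24 * r) t₀, E.ι (e t₀)⟫_ℝ) = 0 :=
    E.toFast.mean (hE.dbs t₀ ht₀1) cas (hE.pbs t₀ ht₀1) hκ k (E.ι (e t₀)) (E.ι (e t₀))
  have hres : ∫ r in (k * E.ℓ)..(k * E.ℓ + E.ℓ), ⟪E.B (E.q ^ 24 * r) (e t₀) + E.bs (E.q ^ 24 * r) t₀ - z,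
      (2 : ℝ) • E.S (E.q ^ 24 * r) (E.ι (e t₀)) + E.as (E.q ^ 24 * r) t₀⟫_ℝ =
      -(E.ℓ * (E.dr (e t₀) (e t₀) + E.drS (fun θ => E.bs θ t₀) (e t₀))) :=
    E.toFast.res (hE.dbs t₀ ht₀1) cas (hE.pbs t₀ ht₀1) hκ k (e t₀) z
  have key := int_aux (F := E.fast e)
    (P := fun r => ⟪E.S (E.q ^ 24 * r) (E.ι (e t₀)), E.ι (e t₀)⟫_ℝ +
      ⟪E.as (E.q ^ 24 * r) t₀, E.ι (e t₀)⟫_ℝ)
    (Q := fun r => ⟪E.B (E.q ^ 24 * r) (e t₀) + E.bs (E.q ^ 24 * r) t₀ - z,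
      (2 : ℝ) • E.S (E.q ^ 24 * r) (E.ι (e t₀)) + E.as (E.q ^ 24 * r) t₀⟫_ℝ)
    (w := fun r => ‖e r‖ ^ 2) (a := k * E.ℓ) (c := k * E.ℓ + E.ℓ) (x := E.q ^ 12 * E.a t₀)
    (y := E.a t₀ ^ 2)
    (D₁ := C₁ * (C₂ * E.be e k ^ 5 / E.q ^ 12 + E.q ^ 12 * E.ℓ) + 3 * C₃ * E.be e k ^ 4 / E.q)
    (D₂ := C₃ / E.q) (by linarith)
    (((Sol.cfast hE he).mono (by
      rw [uIcc_of_le (by linarith)]
      exact Icc_subset_Icc (by linarith) (by linarith))).intervalIntegrable)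
    ((((cSr _).inner continuous_const).add (casr.inner continuous_const)).intervalIntegrable _ _)
    (((((cBr _).add cbsr).sub continuous_const).inner
      (((cSr _).const_smul (2:ℝ)).add casr)).intervalIntegrable _ _)
    (((he.ce.norm.pow 2).mono (by
      rw [uIcc_of_le (by linarith)]
      exact Icc_subset_Icc (by linarith) (by linarith))).intervalIntegrable) (by
    intro r hr
    have hr1 : r ∈ Icc (0:ℝ) 1 := ⟨by linarith [hr.1], by linarith [hr.2]⟩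
    have hrτ : r ∈ Icc (0:ℝ) τ := ⟨hr1.1, by linarith [hr.2]⟩
    have hxr := x_le hE hb hrτ
    have hrt : |r - t₀| ≤ 2 * E.ℓ := by
      rw [abs_le]
      constructor <;> linarith [hr.1, hr.2, ht₀.1, ht₀.2]
    have hrI : r ∈ Icc t₀ (k * E.ℓ + E.ℓ) := ⟨by linarith [hr.1, ht₀.2], hr.2⟩
    have f1 := hfr E K₀ CV δ γ hE r hr1 t₀ ht₀1 e hxr hx₀ hrt
    have f2 := hhb E K₀ CV δ γ hE hqq₂ e he τ hτ hb k hk hkτ t₀ ht₀ het₀ r hrI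
    have f3 := hlin E K₀ CV δ γ hE hqq₃ e he τ hτ hb k hk hkτ t₀ ht₀ het₀ r hrI
    have f4 : ‖e r - e t₀‖ ≤ ‖e r‖ + E.be e k ^ 2 := (norm_sub_le _ _).trans (by linarith)
    refine pt_aux hE.q1 hC₁ hC₃ hβ1 (hE.ab t₀ ht₀1) (norm_nonneg _) f1 f2 ?_ f4
    have e1 : (E.B (E.q ^ 24 * r) - E.B (E.q ^ 24 * t₀)) (e t₀) +
        (E.bs (E.q ^ 24 * r) t₀ - E.bs (E.q ^ 24 * t₀) t₀) =
        E.B (E.q ^ 24 * r) (e t₀) + E.bs (E.q ^ 24 * r) t₀ - z := by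
      rw [hz, ContinuousLinearMap.sub_apply]
      abel
    rw [e1] at f3
    exact f3)
  have e2 : (∫ r in (k * E.ℓ)..(k * E.ℓ + E.ℓ), E.fast e r) -
      E.ℓ * (E.a t₀ ^ 2 * (E.dr (e t₀) (e t₀) + E.drS (fun θ => E.bs θ t₀) (e t₀))) =
      (∫ r in (k * E.ℓ)..(k * E.ℓ + E.ℓ), E.fast e r) - E.q ^ 12 * E.a t₀ * 0 +
      E.a t₀ ^ 2 * -(E.ℓ * (E.dr (e t₀) (e t₀) + E.drS (fun θ => E.bs θ t₀) (e t₀))) := by ring
  rw [hmean, hres, ← e2, add_sub_cancel_left] at key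
  exact key.trans (err_aux hE.q1 hC₁ hC₂ hC₃ hβ1 hβ4 hβ2 hℓ.le hℓ7 hℓα hI (by linarith))

end EData

end

end Pool.Agent.Lib.MP_79abb3_an.W
end
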