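import Pool.Agent.Lib.MP_79abb3_an.W.EA1b
import Pool.Agent.Lib.MP_79abb3_an.W.ED1

/-!
Theorem W, block E: the energy balance in one period.
-/

set_option autoImplicit false

open MeasureTheory Set Filter Topology Function
open scoped InnerProductSpace

namespace Pool.Agent.Lib.MP_79abb3_an.W

section
variable {H V : Type} [NormedAddCommGroup H] [InnerProductSpace ℝ H] [NormedAddCommGroup V]
  [InnerProductSpace ℝ V]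

namespace EData

private theorem x_le {E : EData H V} {K₀ K CV δ γ : ℝ} (hE : E.OK K₀ K CV δ γ) {e : ℝ → V} {τ : ℝ}
    (hb : E.Bd e K₀ τ) {t : ℝ} (ht : t ∈ Icc (0:ℝ) τ) : ‖E.ι (e t)‖ ≤ K₀ := by
  have h1 := hb t ht
  have h2 : 0 ≤ E.b / 2 * ∫ r in (0:ℝ)..t, ‖e r‖ ^ 2 :=
    mul_nonneg (by linarith [hE.b0]) (intervalIntegral.integral_nonneg ht.1 fun x _ => by positivity)
  exact abs_le_of_sq_le_sq' (by linarith) (by linarith [hE.K₀1]) |>.2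

/-- the change of the damping and of the slow term, pointwise -/
private theorem low_pt {E : EData H V} {K₀ K CV δ γ : ℝ} (hE : E.OK K₀ K CV δ γ) {r t₀ : ℝ}
    (hr : r ∈ Icc (0:ℝ) 1) (ht₀ : t₀ ∈ Icc (0:ℝ) 1) (hrt : |r - t₀| ≤ 2 * E.ℓ) {e : ℝ → V} {β : ℝ}
    (hx : ‖E.ι (e r)‖ ≤ K₀) (hx₀ : ‖E.ι (e t₀)‖ ≤ K₀) (he₀ : ‖e t₀‖ ≤ β ^ 2) :
    CV * ‖E.ι (e t₀)‖ ^ 2 + ⟪E.m (E.ι (e t₀)), E.ι (e t₀)⟫_ℝ -
      E.a t₀ ^ 2 * E.drS (fun θ => E.bs θ t₀) (e t₀) - E.low e r ≤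
      CV * ‖E.ι (e r)‖ ^ 2 + δ * ‖E.ι (e r)‖ + 6 * K ^ 2 * ‖E.ι (e r) - E.ι (e t₀)‖ +
        6 * K ^ 3 * E.ℓ * β ^ 2 := by
  have hK : 1 ≤ K := hE.K1
  have hℓ : 0 < E.ℓ := hE.ℓ0
  have hxK : ‖E.ι (e r)‖ ≤ K := hx.trans hE.K₀K
  have hx₀K : ‖E.ι (e t₀)‖ ≤ K := hx₀.trans hE.K₀K
  obtain ⟨x, hxd⟩ : ∃ x, x = E.ι (e r) := ⟨_, rfl⟩
  obtain ⟨x₀, hx₀d⟩ : ∃ x₀, x₀ = E.ι (e t₀) := ⟨_, rfl⟩
  obtain ⟨d, hd⟩ : ∃ d, d = ‖x - x₀‖ := ⟨_, rfl⟩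
  have hd0 : 0 ≤ d := by rw [hd]; exact norm_nonneg _
  have hCV := hE.CV0
  have hδ := hE.δ0
  rw [low, ← hxd, ← hx₀d, ← hd]
  rw [← hxd] at hxK
  rw [← hx₀d] at hx₀K
  have hn : ‖x₀‖ ≤ ‖x‖ + d := by
    rw [hd, norm_sub_rev]
    calc ‖x₀‖ = ‖x + (x₀ - x)‖ := by rw [add_sub_cancel]
      _ ≤ ‖x‖ + ‖x₀ - x‖ := norm_add_le _ _
  have b1 : CV * ‖x₀‖ ^ 2 ≤ CV * ‖x‖ ^ 2 + 2 * K ^ 2 * d := by
    have h1 : ‖x₀‖ ^ 2 ≤ ‖x‖ ^ 2 + 2 * K * d := by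
      have : ‖x₀‖ ^ 2 - ‖x‖ ^ 2 = (‖x₀‖ - ‖x‖) * (‖x₀‖ + ‖x‖) := by ring
      have h2 : (‖x₀‖ - ‖x‖) * (‖x₀‖ + ‖x‖) ≤ d * (‖x₀‖ + ‖x‖) :=
        mul_le_mul_of_nonneg_right (by linarith) (by positivity)
      have h3 : d * (‖x₀‖ + ‖x‖) ≤ d * (2 * K) := mul_le_mul_of_nonneg_left (by linarith) hd0
      linarith
    have h2 := mul_le_mul_of_nonneg_left h1 hCV
    have h3 : CV * (2 * K * d) ≤ K * (2 * K * d) :=
      mul_le_mul_of_nonneg_right hE.CVK (by positivity)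
    have h4 : K * (2 * K * d) = 2 * K ^ 2 * d := by ring
    linarith
  have b2 : ⟪E.m x₀, x₀⟫_ℝ - ⟪E.m x, x⟫_ℝ ≤ 2 * K ^ 2 * d := by
    have h1 : ⟪E.m x₀, x₀⟫_ℝ - ⟪E.m x, x⟫_ℝ = ⟪E.m (x₀ - x), x₀⟫_ℝ + ⟪E.m x, x₀ - x⟫_ℝ := by
      rw [map_sub, inner_sub_left, inner_sub_right]
      ring
    have hd' : ‖x₀ - x‖ = d := by rw [hd, norm_sub_rev]
    have h2 : ⟪E.m (x₀ - x), x₀⟫_ℝ ≤ K * d * K := by
      refine (real_inner_le_norm _ _).trans ?_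
      rw [← hd']
      gcongr
      exact E.m.le_of_opNorm_le hE.mb _
    have h3 : ⟪E.m x, x₀ - x⟫_ℝ ≤ K * K * d := by
      refine (real_inner_le_norm _ _).trans ?_
      rw [hd']
      gcongr
      exact (E.m.le_of_opNorm_le hE.mb _).trans (by gcongr)
    have h4 : K * d * K = K ^ 2 * d := by ring
    have h5 : K * K * d = K ^ 2 * d := by ring
    rw [h1]
    linarith
  have cbs : ∀ t ∈ Icc (0:ℝ) 1, Continuous fun θ => E.bs θ t := fun t ht =>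
    continuous_iff_continuousAt.2 fun θ => (hE.dbs t ht θ).continuousAt
  have b3 : |E.a r ^ 2 * E.drS (fun θ => E.bs θ r) (e t₀) -
      E.a t₀ ^ 2 * E.drS (fun θ => E.bs θ t₀) (e t₀)| ≤ 6 * K ^ 3 * E.ℓ * β ^ 2 := by
    have h1 : E.drS (fun θ => E.bs θ r) (e t₀) - E.drS (fun θ => E.bs θ t₀) (e t₀) =
        E.drS (fun θ => E.bs θ r - E.bs θ t₀) (e t₀) :=
      (E.toFast.drS_sub (cbs r hr) (cbs t₀ ht₀) (e t₀)).symm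
    have h2 : |E.drS (fun θ => E.bs θ r - E.bs θ t₀) (e t₀)| ≤ K * (2 * E.ℓ) * K * β ^ 2 := by
      refine (E.toFast.drS_le (K := K) (M := K * (2 * E.ℓ)) ?_ hE.A'b (e t₀)).trans (by gcongr)
      intro θ
      exact (hE.bsl r hr t₀ ht₀ θ).trans (by gcongr)
    have h3 : |E.drS (fun θ => E.bs θ t₀) (e t₀)| ≤ K * K * β ^ 2 := by
      refine (E.toFast.drS_le (K := K) (M := K) ?_ hE.A'b (e t₀)).trans (by gcongr)
      intro θ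
      exact hE.bsb t₀ ht₀ θ
    have ha1 := hE.ab r hr
    have ha2 := hE.ab t₀ ht₀
    have h4 : |E.a r ^ 2 - E.a t₀ ^ 2| ≤ 4 * K * E.ℓ := by
      have e1 : E.a r ^ 2 - E.a t₀ ^ 2 = (E.a r - E.a t₀) * (E.a r + E.a t₀) := by ring
      rw [e1, abs_mul]
      have e2 : |E.a r + E.a t₀| ≤ 2 := (abs_add_le _ _).trans (by linarith)
      have e3 : |E.a r - E.a t₀| ≤ K * (2 * E.ℓ) := (hE.al r hr t₀ ht₀).trans (by gcongr)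
      calc |E.a r - E.a t₀| * |E.a r + E.a t₀| ≤ K * (2 * E.ℓ) * 2 := by gcongr
        _ = 4 * K * E.ℓ := by ring
    have h5 : |E.a r ^ 2| ≤ 1 := by
      rw [abs_pow]
      exact pow_le_one₀ (abs_nonneg _) ha1
    have h6 : E.a r ^ 2 * E.drS (fun θ => E.bs θ r) (e t₀) -
        E.a t₀ ^ 2 * E.drS (fun θ => E.bs θ t₀) (e t₀) =
        (E.a r ^ 2 - E.a t₀ ^ 2) * E.drS (fun θ => E.bs θ t₀) (e t₀) +
          E.a r ^ 2 * E.drS (fun θ => E.bs θ r - E.bs θ t₀) (e t₀) := by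
      rw [← h1]
      ring
    rw [h6]
    refine (abs_add_le _ _).trans ?_
    rw [abs_mul, abs_mul]
    have h7 : |E.a r ^ 2 - E.a t₀ ^ 2| * |E.drS (fun θ => E.bs θ t₀) (e t₀)| ≤
        4 * K * E.ℓ * (K * K * β ^ 2) := by gcongr
    have h8 : |E.a r ^ 2| * |E.drS (fun θ => E.bs θ r - E.bs θ t₀) (e t₀)| ≤
        1 * (K * (2 * E.ℓ) * K * β ^ 2) := by gcongr
    have h9 : 4 * K * E.ℓ * (K * K * β ^ 2) = 4 * K ^ 3 * (E.ℓ * β ^ 2) := by ring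
    have h10 : 1 * (K * (2 * E.ℓ) * K * β ^ 2) = 2 * K ^ 2 * (E.ℓ * β ^ 2) := by ring
    have h11 : K ^ 2 * (E.ℓ * β ^ 2) ≤ K ^ 3 * (E.ℓ * β ^ 2) :=
      mul_le_mul_of_nonneg_right (pow_le_pow_right₀ hK (by norm_num)) (by positivity)
    have h12 : 6 * K ^ 3 * E.ℓ * β ^ 2 = 6 * (K ^ 3 * (E.ℓ * β ^ 2)) := by ring
    linarith
  have b4 : -(E.a r ^ 2 * E.drS (fun θ => E.bs θ r) (e t₀) + ⟪E.s' r, x₀⟫_ℝ) ≤ δ * ‖x‖ + d := by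
    have h1 := hE.drδ r hr (e t₀)
    rw [← hx₀d] at h1
    have h2 := (neg_le_abs _).trans h1
    have h3 : δ * ‖x₀‖ ≤ δ * (‖x‖ + d) := mul_le_mul_of_nonneg_left hn hδ
    have h4 : δ * d ≤ 1 * d := mul_le_mul_of_nonneg_right hE.δ1 hd0
    linarith
  have b5 : -⟪E.s' r, x⟫_ℝ + ⟪E.s' r, x₀⟫_ℝ ≤ K * d := by
    have h1 : -⟪E.s' r, x⟫_ℝ + ⟪E.s' r, x₀⟫_ℝ = ⟪E.s' r, x₀ - x⟫_ℝ := by
      rw [inner_sub_right]
      ring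
    rw [h1]
    refine (real_inner_le_norm _ _).trans ?_
    rw [hd, norm_sub_rev]
    gcongr
    exact hE.s'b r hr
  have b6 := (abs_le.1 b3).2
  have b7 : K * d ≤ K ^ 2 * d := mul_le_mul_of_nonneg_right (by nlinarith) hd0
  have b8 : d ≤ K ^ 2 * d := by
    have : 1 * d ≤ K ^ 2 * d := mul_le_mul_of_nonneg_right (one_le_pow₀ hK) hd0
    linarith
  linarith

/-- the sum of the errors -/
private theorem err_aux {K q C₁ C₂ β ℓ α : ℝ} (hq : 1 ≤ q) (hC₂ : 0 ≤ C₂) (hβ : 1 ≤ β)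
    (hα : β ^ 4 = q ^ 24 * α) (hℓ0 : 0 ≤ ℓ) (hℓ : ℓ ≤ 7 / q ^ 24) (hK : 0 ≤ K) :
    (6 * K ^ 2 * ((C₂ + 1) * β ^ 4 / q) + 6 * K ^ 3 * ℓ * β ^ 2) * ℓ + C₁ / q * α ≤
      (C₁ + 42 * K ^ 2 * (C₂ + 1) + 294 * K ^ 3) / q * α := by
  have hq0 : 0 < q := lt_of_lt_of_le one_pos hq
  have hα' : α = β ^ 4 / q ^ 24 := by
    rw [hα]
    field_simp
  have t1 : 6 * K ^ 2 * ((C₂ + 1) * β ^ 4 / q) * ℓ ≤ 42 * K ^ 2 * (C₂ + 1) * (α / q) := by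
    calc 6 * K ^ 2 * ((C₂ + 1) * β ^ 4 / q) * ℓ ≤
          6 * K ^ 2 * ((C₂ + 1) * β ^ 4 / q) * (7 / q ^ 24) := by gcongr
      _ = 42 * K ^ 2 * (C₂ + 1) * (α / q) := by
        rw [hα']
        field_simp
        ring
  have t2 : 6 * K ^ 3 * ℓ * β ^ 2 * ℓ ≤ 294 * K ^ 3 * (α / q) := by
    have h1 : ℓ ≤ 7 / q := hℓ.trans (by
      apply div_le_div_of_nonneg_left (by norm_num) hq0
      calc q = q ^ 1 := (pow_one q).symm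
        _ ≤ q ^ 24 := pow_le_pow_right₀ hq (by norm_num))
    calc 6 * K ^ 3 * ℓ * β ^ 2 * ℓ ≤ 6 * K ^ 3 * (7 / q) * β ^ 4 * (7 / q ^ 24) := by
          gcongr 6 * K ^ 3 * ?_ * ?_ * ?_
          · exact pow_le_pow_right₀ hβ (by norm_num)
      _ = 294 * K ^ 3 * (α / q) := by
        rw [hα']
        field_simp
        ring
  have t3 : (C₁ + 42 * K ^ 2 * (C₂ + 1) + 294 * K ^ 3) / q * α =
      C₁ / q * α + 42 * K ^ 2 * (C₂ + 1) * (α / q) + 294 * K ^ 3 * (α / q) := by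
    field_simp
  rw [t3, add_mul]
  linarith

private theorem int_mono {f g h : ℝ → ℝ} {a c A B C D : ℝ} (hac : a ≤ c)
    (hf : IntervalIntegrable f volume a c) (hg : IntervalIntegrable g volume a c)
    (hh : IntervalIntegrable h volume a c)
    (H : ∀ r ∈ Icc a c, A - f r ≤ B * g r + C * h r + D) :
    A * (c - a) - (∫ r in a..c, f r) ≤ B * (∫ r in a..c, g r) + C * (∫ r in a..c, h r) +
      D * (c - a) := by
  have h1 : A * (c - a) - (∫ r in a..c, f r) = ∫ r in a..c, (A - f r) := by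
    rw [intervalIntegral.integral_sub intervalIntegrable_const hf, intervalIntegral.integral_const,
      smul_eq_mul, mul_comm A]
  have h2 : B * (∫ r in a..c, g r) + C * (∫ r in a..c, h r) + D * (c - a) =
      ∫ r in a..c, (B * g r + C * h r + D) := by
    rw [intervalIntegral.integral_add ((hg.const_mul B).add (hh.const_mul C)) intervalIntegrable_const,
      intervalIntegral.integral_add (hg.const_mul B) (hh.const_mul C),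
      intervalIntegral.integral_const_mul, intervalIntegral.integral_const_mul,
      intervalIntegral.integral_const, smul_eq_mul, mul_comm D]
  rw [h1, h2]
  exact intervalIntegral.integral_mono_on hac (intervalIntegrable_const.sub hf)
    (((hg.const_mul B).add (hh.const_mul C)).add intervalIntegrable_const) H

/-- **The energy balance of the fast term, the damping and the slow derivative in a period.** Proof: `OK.good`,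
`OK.period`; `- a₀² dr e₀ e₀ ≤ CV ‖x₀‖² + ⟪m x₀, x₀⟫` (`drb`, `a₀² ≤ 1`); `⟪m x, x⟫`, `‖x‖²`, `⟪s', x⟫` differ from
the values at `x₀` by `C ‖x - x₀‖`, `‖x - x₀‖ ≤ C β^{5/2}/q¹²` (`OK.h_bound`), and `ℓ β^{5/2}/q¹² ≤ C α_k/q¹²`;
`drδ` at time `r` with `φ = e₀`: `a(r)² drS (bs(·, r)) e₀` differs from `a₀² drS (bs(·, t₀)) e₀` by `C ℓ β²`. -/
theorem OK.period2 (K : ℝ) : ∃ C q₀, 0 ≤ C ∧ 1 ≤ q₀ ∧ ∀ (E : EData H V) (K₀ CV δ γ : ℝ),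
    E.OK K₀ K CV δ γ → q₀ ≤ E.q → ∀ e : ℝ → V, E.Sol e → ∀ τ ≤ 1, E.Bd e K₀ τ →
    ∀ k : ℕ, 1 ≤ k → k * E.ℓ + E.ℓ ≤ τ →
      -∫ r in (k * E.ℓ)..(k * E.ℓ + E.ℓ), (E.fast e r + E.low e r) ≤
        2 * CV * (∫ r in (k * E.ℓ)..(k * E.ℓ + E.ℓ), ‖E.ι (e r)‖ ^ 2) +
        δ * (∫ r in (k * E.ℓ)..(k * E.ℓ + E.ℓ), ‖E.ι (e r)‖) + C / E.q * E.alp e k := by
  obtain ⟨C₁, q₁, hC₁, hq₁, hper⟩ := OK.period (H := H) (V := V) K
  obtain ⟨C₂, q₂, hC₂, hq₂, hhb⟩ := OK.h_bound (H := H) (V := V) K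
  refine ⟨C₁ + 42 * |K| ^ 2 * (C₂ + 1) + 294 * |K| ^ 3, max q₁ q₂, by positivity,
    hq₁.trans (le_max_left _ _), ?_⟩
  intro E K₀ CV δ γ hE hq e he τ hτ hb k hk hkτ
  have hqq₁ : q₁ ≤ E.q := (le_max_left _ _).trans hq
  have hqq₂ : q₂ ≤ E.q := (le_max_right _ _).trans hq
  have hq0 : 0 < E.q := lt_of_lt_of_le one_pos hE.q1
  have hK : 1 ≤ K := hE.K1
  rw [abs_of_nonneg (by linarith : 0 ≤ K)]
  have hℓ : 0 < E.ℓ := hE.ℓ0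
  have hCV := hE.CV0
  obtain ⟨hβ1, hβ4, hβ2, hα0, hI2⟩ := hE.be_facts he hτ hb hk hkτ
  obtain ⟨t₀, ht₀, het₀⟩ := hE.good he hτ hb hk hkτ
  have hk1 : (1:ℝ) ≤ k := by exact_mod_cast hk
  have hkℓ : E.ℓ ≤ k * E.ℓ := by nlinarith
  have ht₀1 : t₀ ∈ Icc (0:ℝ) 1 := ⟨by linarith [ht₀.1], by linarith [ht₀.2]⟩
  have ht₀τ : t₀ ∈ Icc (0:ℝ) τ := ⟨ht₀1.1, by linarith [ht₀.2]⟩
  have hx₀ := x_le hE hb ht₀τ
  have hℓ7 : E.ℓ ≤ 7 / E.q ^ 24 := by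
    rw [ℓ]
    gcongr
    linarith [Real.pi_lt_d2]
  have hsub : uIcc (k * E.ℓ) (k * E.ℓ + E.ℓ) ⊆ Icc 0 1 := by
    rw [uIcc_of_le (by linarith)]
    exact Icc_subset_Icc (by linarith) (by linarith)
  have iF : IntervalIntegrable (E.fast e) volume (k * E.ℓ) (k * E.ℓ + E.ℓ) :=
    ((Sol.cfast hE he).mono hsub).intervalIntegrable
  have iL : IntervalIntegrable (E.low e) volume (k * E.ℓ) (k * E.ℓ + E.ℓ) :=
    ((Sol.clow hE he).mono hsub).intervalIntegrable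
  have cx : ContinuousOn (fun r => ‖E.ι (e r)‖) (Icc 0 1) :=
    (E.ι.continuous.comp_continuousOn he.ce).norm
  have ix : IntervalIntegrable (fun r => ‖E.ι (e r)‖) volume (k * E.ℓ) (k * E.ℓ + E.ℓ) :=
    (cx.mono hsub).intervalIntegrable
  have ix2 : IntervalIntegrable (fun r => ‖E.ι (e r)‖ ^ 2) volume (k * E.ℓ) (k * E.ℓ + E.ℓ) :=
    ((cx.pow 2).mono hsub).intervalIntegrable
  have hP := hper E K₀ CV δ γ hE hqq₁ e he τ hτ hb k hk hkτ t₀ ht₀ het₀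
  have key := int_mono (f := E.low e) (g := fun r => ‖E.ι (e r)‖ ^ 2) (h := fun r => ‖E.ι (e r)‖)
    (a := k * E.ℓ) (c := k * E.ℓ + E.ℓ)
    (A := CV * ‖E.ι (e t₀)‖ ^ 2 + ⟪E.m (E.ι (e t₀)), E.ι (e t₀)⟫_ℝ -
      E.a t₀ ^ 2 * E.drS (fun θ => E.bs θ t₀) (e t₀)) (B := CV) (C := δ)
    (D := 6 * K ^ 2 * ((C₂ + 1) * E.be e k ^ 4 / E.q) + 6 * K ^ 3 * E.ℓ * E.be e k ^ 2)
    (by linarith) iL ix2 ix (by
    intro r hr
    have hr1 : r ∈ Icc (0:ℝ) 1 := ⟨by linarith [hr.1], by linarith [hr.2]⟩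
    have hrτ : r ∈ Icc (0:ℝ) τ := ⟨hr1.1, by linarith [hr.2]⟩
    have hxr := x_le hE hb hrτ
    have hrt : |r - t₀| ≤ 2 * E.ℓ := by
      rw [abs_le]
      constructor <;> linarith [hr.1, hr.2, ht₀.1, ht₀.2]
    have hrI : r ∈ Icc t₀ (k * E.ℓ + E.ℓ) := ⟨by linarith [hr.1, ht₀.2], hr.2⟩
    have f2 := hhb E K₀ CV δ γ hE hqq₂ e he τ hτ hb k hk hkτ t₀ ht₀ het₀ r hrI
    have f1 := low_pt hE hr1 ht₀1 hrt hxr hx₀ het₀
    have f3 : ‖E.ι (e r) - E.ι (e t₀)‖ ≤ (C₂ + 1) * E.be e k ^ 4 / E.q := by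
      refine abs_le_of_sq_le_sq' ?_ (by positivity) |>.2
      refine f2.trans ?_
      have h1 : E.be e k ^ 5 ≤ E.be e k ^ 8 := pow_le_pow_right₀ hβ1 (by norm_num)
      have h2 : E.q ^ 2 ≤ E.q ^ 24 := pow_le_pow_right₀ hE.q1 (by norm_num)
      calc C₂ / E.q ^ 24 * E.be e k ^ 5 ≤ (C₂ + 1) ^ 2 / E.q ^ 2 * E.be e k ^ 8 := by
            gcongr
            nlinarith
        _ = ((C₂ + 1) * E.be e k ^ 4 / E.q) ^ 2 := by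
            field_simp
    have f4 : 6 * K ^ 2 * ‖E.ι (e r) - E.ι (e t₀)‖ ≤
        6 * K ^ 2 * ((C₂ + 1) * E.be e k ^ 4 / E.q) := mul_le_mul_of_nonneg_left f3 (by positivity)
    linarith)
  rw [add_sub_cancel_left] at key
  have herr := err_aux (C₁ := C₁) hE.q1 hC₂ hβ1 hβ4 hℓ.le hℓ7 (by linarith : 0 ≤ K)
  have hP' := (abs_le.1 hP).1
  rw [intervalIntegral.integral_add iF iL]
  have hdr : -(E.a t₀ ^ 2 * E.dr (e t₀) (e t₀)) ≤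
      CV * ‖E.ι (e t₀)‖ ^ 2 + ⟪E.m (E.ι (e t₀)), E.ι (e t₀)⟫_ℝ := by
    have h1 := hE.drb (e t₀)
    have h2 : E.a t₀ ^ 2 ≤ 1 := by
      rw [← sq_abs]
      exact pow_le_one₀ (abs_nonneg _) (hE.ab t₀ ht₀1)
    have h3 : 0 ≤ E.a t₀ ^ 2 := sq_nonneg _
    have h4 : 0 ≤ CV * ‖E.ι (e t₀)‖ ^ 2 + ⟪E.m (E.ι (e t₀)), E.ι (e t₀)⟫_ℝ :=
      add_nonneg (by positivity) (hE.m0 _)
    calc -(E.a t₀ ^ 2 * E.dr (e t₀) (e t₀)) = E.a t₀ ^ 2 * (-E.dr (e t₀) (e t₀)) := by ring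
      _ ≤ E.a t₀ ^ 2 * (CV * ‖E.ι (e t₀)‖ ^ 2 + ⟪E.m (E.ι (e t₀)), E.ι (e t₀)⟫_ℝ) :=
        mul_le_mul_of_nonneg_left h1 h3
      _ ≤ 1 * (CV * ‖E.ι (e t₀)‖ ^ 2 + ⟪E.m (E.ι (e t₀)), E.ι (e t₀)⟫_ℝ) :=
        mul_le_mul_of_nonneg_right h2 h4
      _ = _ := one_mul _
  have hdr' := mul_le_mul_of_nonneg_right hdr hℓ.le
  have hx2 : 0 ≤ ∫ r in (k * E.ℓ)..(k * E.ℓ + E.ℓ), ‖E.ι (e r)‖ ^ 2 :=
    intervalIntegral.integral_nonneg (by linarith) fun x _ => by positivity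
  have hx2' := mul_nonneg hCV hx2
  have e1 : E.ℓ * (E.a t₀ ^ 2 * (E.dr (e t₀) (e t₀) + E.drS (fun θ => E.bs θ t₀) (e t₀))) =
      E.a t₀ ^ 2 * E.dr (e t₀) (e t₀) * E.ℓ +
        E.a t₀ ^ 2 * E.drS (fun θ => E.bs θ t₀) (e t₀) * E.ℓ := by ring
  rw [e1] at hP'
  rw [sub_mul] at key
  linarith

end EData

end

end Pool.Agent.Lib.MP_79abb3_an.W
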