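import Mathlib

/-!
Theorem W (MP_79abb3_an), block E: the energy estimate in a fast oscillating background, in an abstract
Gelfand triple `V ⊂ H` (real Hilbert spaces).

Time is rescaled to `[0, 1]`; the equation for the error `e` is
`d/dt ⟨e, φ⟩ = - (q¹² a(t) ⟨A(q²⁴ t) e + as(q²⁴ t, t), φ⟩ + ⟨m e, φ⟩ + ⟨s'(t), φ⟩ + b d(t; e, φ) + b c(e, e, φ)
- g(t; φ))`, `φ ∈ V`.  (`A v = P L_U v`, `as(θ, t) = P L_{U(θ)} s(t)`, `s` = slow reference, `a` = slow amplitude,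
`m` = damping in the control region, `d` = viscosity and all linear terms which are bounded forms on `V × V`,
`c` = nonlinearity, mollified or not, `g` = residual.)
-/

set_option autoImplicit false

open MeasureTheory Set Filter Topology Function
open scoped InnerProductSpace

namespace Pool.Agent.Lib.MP_79abb3_an.W

section
variable (H V : Type) [NormedAddCommGroup H] [InnerProductSpace ℝ H] [NormedAddCommGroup V]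
  [InnerProductSpace ℝ V]

/-- Fast generators: `A v = P L_U v` (Lie derivative of the 1-form `v`), `A' φ = -P ([U, φ] + (div U) φ)`,
`B' = A`, `S = P ∘ (sym (∇U) - (div U)/2)`; `2π`-periodic in the phase, with mean zero. -/
structure Fast where
  ι : V →L[ℝ] H
  A : ℝ → V →L[ℝ] H
  A' : ℝ → V →L[ℝ] H
  B : ℝ → V →L[ℝ] H
  S : ℝ → H →L[ℝ] H
  cA : Continuous A
  cA' : Continuous A'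
  cS : Continuous S
  dB : ∀ θ, HasDerivAt B (A θ) θ
  pA : ∀ θ, A (θ + 2 * Real.pi) = A θ
  pA' : ∀ θ, A' (θ + 2 * Real.pi) = A' θ
  pB : ∀ θ, B (θ + 2 * Real.pi) = B θ
  pS : ∀ θ, S (θ + 2 * Real.pi) = S θ
  adj : ∀ θ v φ, ⟪A θ v, ι φ⟫_ℝ = ⟪ι v, A' θ φ⟫_ℝ
  sym : ∀ θ v, A θ v + A' θ v = (2 : ℝ) • S θ (ι v)
  sS : ∀ θ x y, ⟪S θ x, y⟫_ℝ = ⟪x, S θ y⟫_ℝ
  mS : ∀ x y, ∫ θ in (0:ℝ)..2 * Real.pi, ⟪S θ x, y⟫_ℝ = 0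

/-- The data of the energy estimate. -/
structure EData extends Fast H V where
  c : V →L[ℝ] V →L[ℝ] V →L[ℝ] ℝ
  d : ℝ → V →L[ℝ] V →L[ℝ] ℝ
  g : ℝ → V →L[ℝ] ℝ
  m : H →L[ℝ] H
  as : ℝ → ℝ → H
  bs : ℝ → ℝ → H
  s' : ℝ → H
  a : ℝ → ℝ
  n : V → ℝ
  q : ℝ
  b : ℝ

end

section
variable {H V : Type} [NormedAddCommGroup H] [InnerProductSpace ℝ H] [NormedAddCommGroup V]
  [InnerProductSpace ℝ V]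

/-- The drift: `- mean ⟨β(θ), A'(θ) φ⟩`. -/
noncomputable def Fast.drS (F : Fast H V) (β : ℝ → H) (φ : V) : ℝ :=
  -((2 * Real.pi)⁻¹ * ∫ θ in (0:ℝ)..2 * Real.pi, ⟪β θ, F.A' θ φ⟫_ℝ)

/-- The drift form: `⟨P L_V u, φ⟩`. -/
noncomputable def Fast.dr (F : Fast H V) (u φ : V) : ℝ := F.drS (fun θ => F.B θ u) φ

namespace EData

/-- The rate: `d/dt ⟨e, φ⟩ = - R t e φ`. -/
noncomputable def R (E : EData H V) (t : ℝ) (e φ : V) : ℝ :=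
  E.q ^ 12 * (E.a t * ⟪E.A (E.q ^ 24 * t) e + E.as (E.q ^ 24 * t) t, E.ι φ⟫_ℝ) +
    (⟪E.m (E.ι e), E.ι φ⟫_ℝ + ⟪E.s' t, E.ι φ⟫_ℝ) + (E.b * E.d t e φ + E.b * E.c e e φ - E.g t φ)

/-- The hypotheses. `K₀`: constants which do not depend on the waves nor on `b`; `K`: all constants,
`K ≥ 1/b`. -/
structure OK (E : EData H V) (K₀ K CV δ γ : ℝ) : Prop where
  q1 : 1 ≤ E.q
  b0 : 0 < E.b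
  b1 : E.b ≤ 1
  K₀1 : 1 ≤ K₀
  K₀K : K₀ ≤ K
  bK : 1 / E.b ≤ K
  CV0 : 0 ≤ CV
  CVK : CV ≤ K
  δ0 : 0 ≤ δ
  δ1 : δ ≤ 1
  γ0 : 0 ≤ γ
  γ1 : γ ≤ 1
  ιb : ‖E.ι‖ ≤ K₀
  Ab : ∀ θ, ‖E.A θ‖ ≤ K
  A'b : ∀ θ, ‖E.A' θ‖ ≤ K
  Bb : ∀ θ, ‖E.B θ‖ ≤ K
  Sb : ∀ θ, ‖E.S θ‖ ≤ K
  c0 : ∀ u v, E.c u v v = 0
  cb : ∀ u v φ, |E.c u v φ| ≤ K₀ * E.n u * ‖v‖ * E.n φ
  n0 : ∀ v, 0 ≤ E.n v
  nb : ∀ v η, 0 < η → η ≤ 1 → E.n v ^ 2 ≤ η * ‖v‖ ^ 2 + K₀ / η ^ 3 * ‖E.ι v‖ ^ 2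
  cd : ContinuousOn E.d (Icc 0 1)
  db : ∀ t ∈ Icc (0:ℝ) 1, ∀ v φ, |E.d t v φ| ≤ K₀ * ‖v‖ * ‖φ‖
  dc : ∀ t ∈ Icc (0:ℝ) 1, ∀ v, 3 / 4 * ‖v‖ ^ 2 - K₀ * ‖E.ι v‖ ^ 2 ≤ E.d t v v
  cg : ContinuousOn E.g (Icc 0 1)
  gb : ∀ t ∈ Icc (0:ℝ) 1, ‖E.g t‖ ≤ γ
  m0 : ∀ x, 0 ≤ ⟪E.m x, x⟫_ℝ
  mb : ‖E.m‖ ≤ K
  ab : ∀ t ∈ Icc (0:ℝ) 1, |E.a t| ≤ 1
  al : ∀ t ∈ Icc (0:ℝ) 1, ∀ r ∈ Icc (0:ℝ) 1, |E.a t - E.a r| ≤ K * |t - r|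
  cas : ContinuousOn (fun p : ℝ × ℝ => E.as p.1 p.2) (univ ×ˢ Icc 0 1)
  asb : ∀ t ∈ Icc (0:ℝ) 1, ∀ θ, ‖E.as θ t‖ ≤ K
  asl : ∀ t ∈ Icc (0:ℝ) 1, ∀ r ∈ Icc (0:ℝ) 1, ∀ θ, ‖E.as θ t - E.as θ r‖ ≤ K * |t - r|
  pas : ∀ t ∈ Icc (0:ℝ) 1, ∀ θ, E.as (θ + 2 * Real.pi) t = E.as θ t
  dbs : ∀ t ∈ Icc (0:ℝ) 1, ∀ θ, HasDerivAt (fun θ => E.bs θ t) (E.as θ t) θ
  bsb : ∀ t ∈ Icc (0:ℝ) 1, ∀ θ, ‖E.bs θ t‖ ≤ K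
  bsl : ∀ t ∈ Icc (0:ℝ) 1, ∀ r ∈ Icc (0:ℝ) 1, ∀ θ, ‖E.bs θ t - E.bs θ r‖ ≤ K * |t - r|
  pbs : ∀ t ∈ Icc (0:ℝ) 1, ∀ θ, E.bs (θ + 2 * Real.pi) t = E.bs θ t
  cs' : ContinuousOn E.s' (Icc 0 1)
  s'b : ∀ t ∈ Icc (0:ℝ) 1, ‖E.s' t‖ ≤ K
  drb : ∀ v, -E.dr v v ≤ CV * ‖E.ι v‖ ^ 2 + ⟪E.m (E.ι v), E.ι v⟫_ℝ
  drδ : ∀ t ∈ Icc (0:ℝ) 1, ∀ φ,
    |E.a t ^ 2 * E.drS (fun θ => E.bs θ t) φ + ⟪E.s' t, E.ι φ⟫_ℝ| ≤ δ * ‖E.ι φ‖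
  /-- approximation of `S v` by elements of `V` -/
  yS : ∀ θ v, ∃ y : V, ‖y‖ ≤ K * E.q ^ 5 * ‖v‖ ∧ ‖E.S θ (E.ι v) - E.ι y‖ ≤ K / E.q ^ 5 * ‖v‖ ∧
    ∀ e : V, |⟪E.ι e, E.S θ (E.ι v) - E.ι y⟫_ℝ| ≤ K / E.q ^ 15 * ‖e‖ * ‖v‖
  /-- approximation of `as` by elements of `V` -/
  ys : ∀ t ∈ Icc (0:ℝ) 1, ∀ θ, ∃ y : V, ‖y‖ ≤ K * E.q ^ 5 ∧ ‖E.as θ t - E.ι y‖ ≤ K / E.q ^ 5 ∧
    ∀ e : V, |⟪E.ι e, E.as θ t - E.ι y⟫_ℝ| ≤ K / E.q ^ 15 * ‖e‖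

/-- A solution. -/
structure Sol (E : EData H V) (e : ℝ → V) : Prop where
  ce : ContinuousOn e (Icc 0 1)
  weak : ∀ φ : V, ∀ t₁ t₂ : ℝ, 0 ≤ t₁ → t₁ ≤ t₂ → t₂ ≤ 1 →
    ⟪E.ι (e t₂), E.ι φ⟫_ℝ - ⟪E.ι (e t₁), E.ι φ⟫_ℝ = -∫ r in t₁..t₂, E.R r (e r) φ
  energy : ∀ t₁ t₂ : ℝ, 0 ≤ t₁ → t₁ ≤ t₂ → t₂ ≤ 1 →
    1 / 2 * ‖E.ι (e t₂)‖ ^ 2 - 1 / 2 * ‖E.ι (e t₁)‖ ^ 2 = -∫ r in t₁..t₂, E.R r (e r) (e r)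

/-- The a priori bound on `[0, τ]`. -/
def Bd (E : EData H V) (e : ℝ → V) (K₀ τ : ℝ) : Prop :=
  ∀ t ∈ Icc (0:ℝ) τ, ‖E.ι (e t)‖ ^ 2 + E.b / 2 * ∫ r in (0:ℝ)..t, ‖e r‖ ^ 2 ≤ K₀ ^ 2

/-- The length of a period. -/
noncomputable def ℓ (E : EData H V) : ℝ := 2 * Real.pi / E.q ^ 24

/-- The dissipation in the periods `k - 1` and `k`, plus the length of a period. -/
noncomputable def alp (E : EData H V) (e : ℝ → V) (k : ℕ) : ℝ :=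
  (∫ r in (k * E.ℓ - E.ℓ)..(k * E.ℓ + E.ℓ), ‖e r‖ ^ 2) + E.ℓ

/-- `β⁴ = q²⁴ α_k` -/
noncomputable def be (E : EData H V) (e : ℝ → V) (k : ℕ) : ℝ := √(√(E.q ^ 24 * E.alp e k))

/-- the test field `Y = 2 S ι e₀ + as` -/
noncomputable def Y (E : EData H V) (θ t : ℝ) (e₀ : V) : H :=
  (2 : ℝ) • E.S θ (E.ι e₀) + E.as θ t

/-- the fast term -/
noncomputable def fast (E : EData H V) (e : ℝ → V) (r : ℝ) : ℝ :=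
  E.q ^ 12 * (E.a r * ⟪E.A (E.q ^ 24 * r) (e r) + E.as (E.q ^ 24 * r) r, E.ι (e r)⟫_ℝ)

/-- the damping and the slow derivative -/
noncomputable def low (E : EData H V) (e : ℝ → V) (r : ℝ) : ℝ :=
  ⟪E.m (E.ι (e r)), E.ι (e r)⟫_ℝ + ⟪E.s' r, E.ι (e r)⟫_ℝ

end EData

end

end Pool.Agent.Lib.MP_79abb3_an.W
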