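import Pool.Agent.Lib.MP_79abb3_an.W.EDef
import Pool.Agent.Lib.MP_79abb3_an.W.EA1
import Pool.Agent.Lib.MP_79abb3_an.W.EA3

section

/-!
Theorem W, block E: the slow terms of the energy identity.
-/

set_option autoImplicit false

open MeasureTheory Set Filter Topology Function
open scoped InnerProductSpace

namespace Pool.Agent.Lib.MP_79abb3_an.W

section
variable {H V : Type} [NormedAddCommGroup H] [InnerProductSpace ℝ H] [NormedAddCommGroup V]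
  [InnerProductSpace ℝ V]

namespace EData

/-- **The other terms** of the energy identity, pointwise (`c e e e = 0`, `γ ‖e‖ ≤ b/4 ‖e‖² + γ²/b`). -/
theorem OK.slow_pt {E : EData H V} {K₀ K CV δ γ : ℝ} (hE : E.OK K₀ K CV δ γ) {t : ℝ}
    (ht : t ∈ Icc (0:ℝ) 1) {e : V} (he : ‖E.ι e‖ ≤ K₀) :
    -(E.b * E.d t e e + E.b * E.c e e e - E.g t e) ≤
      -(E.b / 2 * ‖e‖ ^ 2) + K₀ ^ 3 * E.b + γ ^ 2 / E.b := by
  have hb := hE.b0
  have h1 := hE.dc t ht e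
  have h2 : E.c e e e = 0 := hE.c0 e e
  have h3 : E.g t e ≤ γ * ‖e‖ := by
    have := (E.g t).le_opNorm e
    have h4 : E.g t e ≤ ‖E.g t e‖ := Real.le_norm_self _
    have h5 : ‖E.g t‖ * ‖e‖ ≤ γ * ‖e‖ := mul_le_mul_of_nonneg_right (hE.gb t ht) (norm_nonneg _)
    linarith
  have h6 : γ * ‖e‖ ≤ E.b / 4 * ‖e‖ ^ 2 + γ ^ 2 / E.b := by
    have h7 : E.b / 4 * ‖e‖ ^ 2 + γ ^ 2 / E.b - γ * ‖e‖ = (E.b / 2 * ‖e‖ - γ) ^ 2 / E.b := by
      field_simp
      ring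
    have h8 : 0 ≤ (E.b / 2 * ‖e‖ - γ) ^ 2 / E.b := by positivity
    linarith
  have h9 : ‖E.ι e‖ ^ 2 ≤ K₀ ^ 2 := pow_le_pow_left₀ (norm_nonneg _) he 2
  have hK : 0 ≤ K₀ := zero_le_one.trans hE.K₀1
  have h10 : K₀ * ‖E.ι e‖ ^ 2 ≤ K₀ * K₀ ^ 2 := mul_le_mul_of_nonneg_left h9 hK
  have h11 : E.b * (3 / 4 * ‖e‖ ^ 2 - K₀ * K₀ ^ 2) ≤ E.b * E.d t e e :=
    mul_le_mul_of_nonneg_left (by linarith) hb.le
  rw [h2]
  nlinarith

end EData

end

end Pool.Agent.Lib.MP_79abb3_an.W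
end

section

/-!
Theorem W, block E: the fast term on a short interval.
-/

set_option autoImplicit false

open MeasureTheory Set Filter Topology Function
open scoped InnerProductSpace

namespace Pool.Agent.Lib.MP_79abb3_an.W

section
variable {H V : Type} [NormedAddCommGroup H] [InnerProductSpace ℝ H] [NormedAddCommGroup V]
  [InnerProductSpace ℝ V]

namespace EData

private theorem x_le {E : EData H V} {K₀ K CV δ γ : ℝ} (hE : E.OK K₀ K CV δ γ) {e : ℝ → V} {τ : ℝ}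
    (hb : E.Bd e K₀ τ) {t : ℝ} (ht : t ∈ Icc (0:ℝ) τ) : ‖E.ι (e t)‖ ≤ K₀ := by
  have h1 := hb t ht
  have h2 : 0 ≤ E.b / 2 * ∫ r in (0:ℝ)..t, ‖e r‖ ^ 2 :=
    mul_nonneg (by linarith [hE.b0]) (intervalIntegral.integral_nonneg ht.1 fun x _ => by positivity)
  exact abs_le_of_sq_le_sq' (by linarith) (by linarith [hE.K₀1]) |>.2

private theorem arith_aux {K K₀ Q u v w z a x : ℝ} (hQ : 1 ≤ Q) (h1 : 1 ≤ K₀) (h2 : K₀ ≤ K) (hx : x ≤ K₀)
    (hx0 : 0 ≤ x) (ha : |a| ≤ 1) (hu : |u| ≤ K * x * x) (hv : |v| ≤ K * x) (hw : |w| ≤ K * x * x)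
    (hz : |z| ≤ K * x) : |Q * (a * (u + v)) + (w + z)| ≤ 4 * K ^ 3 * Q := by
  have hK : 1 ≤ K := h1.trans h2
  have hxK : x ≤ K := hx.trans h2
  have e1 : K * x * x ≤ K ^ 3 := by
    calc K * x * x ≤ K * K * K := by gcongr
      _ = K ^ 3 := by ring
  have e2 : K * x ≤ K ^ 3 := by
    calc K * x ≤ K * K := by gcongr
      _ = K * K * 1 := by ring
      _ ≤ K * K * K := by gcongr
      _ = K ^ 3 := by ring
  have e3 : |a * (u + v)| ≤ 2 * K ^ 3 := by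
    rw [abs_mul]
    calc |a| * |u + v| ≤ 1 * |u + v| := by gcongr
      _ = |u + v| := one_mul _
      _ ≤ |u| + |v| := abs_add_le _ _
      _ ≤ 2 * K ^ 3 := by linarith
  have e4 : |Q * (a * (u + v))| ≤ Q * (2 * K ^ 3) := by
    rw [abs_mul, abs_of_nonneg (by linarith : (0:ℝ) ≤ Q)]
    gcongr
  have e5 : 0 ≤ K ^ 3 := by positivity
  calc |Q * (a * (u + v)) + (w + z)| ≤ |Q * (a * (u + v))| + |w + z| := abs_add_le _ _
    _ ≤ |Q * (a * (u + v))| + (|w| + |z|) := by gcongr; exact abs_add_le _ _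
    _ ≤ 4 * K ^ 3 * Q := by nlinarith

/-- the fast term on an interval of length at most a period -/
theorem OK.fast_le {E : EData H V} {K₀ K CV δ γ : ℝ} (hE : E.OK K₀ K CV δ γ) {e : ℝ → V} (hs : E.Sol e)
    {τ : ℝ} (hτ : τ ≤ 1) (hb : E.Bd e K₀ τ) {a c : ℝ} (ha : 0 ≤ a) (hac : a ≤ c) (hc : c ≤ τ)
    (hl : c - a ≤ E.ℓ) : |∫ r in a..c, (E.fast e r + E.low e r)| ≤ 28 * K ^ 3 / E.q ^ 12 := by
  have hq : 0 < E.q := lt_of_lt_of_le one_pos hE.q1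
  have hK : 1 ≤ K := hE.K1
  have hpt : ∀ r ∈ uIoc a c, ‖E.fast e r + E.low e r‖ ≤ 4 * K ^ 3 * E.q ^ 12 := by
    intro r hr
    rw [uIoc_of_le hac] at hr
    have hrτ : r ∈ Icc (0:ℝ) τ := ⟨ha.trans hr.1.le, hr.2.trans hc⟩
    have hr1 : r ∈ Icc (0:ℝ) 1 := ⟨hrτ.1, hrτ.2.trans hτ⟩
    have hx := x_le hE hb hrτ
    rw [Real.norm_eq_abs, fast, low, inner_add_left]
    refine arith_aux (one_le_pow₀ hE.q1) hE.K₀1 hE.K₀K hx (norm_nonneg _) (hE.ab r hr1) ?_ ?_ ?_ ?_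
    · rw [Fast.Aself]
      refine (abs_real_inner_le_norm _ _).trans ?_
      gcongr
      exact (E.S (E.q ^ 24 * r)).le_of_opNorm_le (hE.Sb _) _
    · refine (abs_real_inner_le_norm _ _).trans ?_
      gcongr
      exact hE.asb r hr1 _
    · refine (abs_real_inner_le_norm _ _).trans ?_
      gcongr
      exact E.m.le_of_opNorm_le hE.mb _
    · refine (abs_real_inner_le_norm _ _).trans ?_
      gcongr
      exact hE.s'b r hr1
  have h1 := intervalIntegral.norm_integral_le_of_norm_le_const hpt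
  rw [Real.norm_eq_abs, abs_of_nonneg (by linarith : 0 ≤ c - a)] at h1
  refine h1.trans ?_
  have h2 : 4 * K ^ 3 * E.q ^ 12 * (c - a) ≤ 4 * K ^ 3 * E.q ^ 12 * (7 / E.q ^ 24) := by
    refine mul_le_mul_of_nonneg_left (hl.trans ?_) (by positivity)
    rw [ℓ]
    gcongr
    linarith [Real.pi_lt_d2]
  refine h2.trans (le_of_eq ?_)
  have hq12 : E.q ^ 24 = E.q ^ 12 * E.q ^ 12 := by ring
  rw [hq12]
  field_simp
  ring

end EData

end

end Pool.Agent.Lib.MP_79abb3_an.W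
end
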