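import Mathlib

/-!
Theorem W, block EF: piecewise linear approximation of a smooth curve by a finite sum `∑ c_k(s) g_k` with smooth
coefficients.
-/

set_option autoImplicit false
set_option linter.unusedSectionVars false

open MeasureTheory Set Filter Topology Function

namespace Pool.Agent.Lib.MP_79abb3_an.W

/-- the hat function `smoothTransition(u + 1) - smoothTransition(u)` -/
noncomputable def hat (u : ℝ) : ℝ := Real.smoothTransition (u + 1) - Real.smoothTransition u

theorem hat_smo : ContDiff ℝ ((⊤ : ℕ∞) : WithTop ℕ∞) hat := by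
  have h1 : ContDiff ℝ ((⊤ : ℕ∞) : WithTop ℕ∞) fun u : ℝ => Real.smoothTransition (u + 1) :=
    Real.smoothTransition.contDiff.comp (contDiff_id.add contDiff_const)
  exact h1.sub Real.smoothTransition.contDiff

theorem hat_nonneg (u : ℝ) : 0 ≤ hat u := by
  have h := Real.smoothTransition.monotone (show u ≤ u + 1 by linarith)
  unfold hat
  linarith

theorem hat_le_one (u : ℝ) : hat u ≤ 1 := by
  have h1 := Real.smoothTransition.le_one (u + 1)
  have h2 := Real.smoothTransition.nonneg u
  unfold hat
  linarith

theorem hat_zero : hat 0 = 1 := by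
  unfold hat
  rw [zero_add, Real.smoothTransition.one, Real.smoothTransition.zero, sub_zero]

theorem hat_out {u : ℝ} (hu : 1 ≤ |u|) : hat u = 0 := by
  unfold hat
  rcases le_abs.1 hu with h | h
  · rw [Real.smoothTransition.one_of_one_le h, Real.smoothTransition.one_of_one_le (by linarith), sub_self]
  · rw [Real.smoothTransition.zero_of_nonpos (show u ≤ 0 by linarith),
      Real.smoothTransition.zero_of_nonpos (by linarith), sub_self]

theorem hat_int {k : ℤ} (hk : k ≠ 0) : hat k = 0 := by
  apply hat_out
  exact_mod_cast Int.one_le_abs hk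

/-- partition of unity -/
theorem hat_sum (n : ℕ) {u : ℝ} (h0 : 0 ≤ u) (h1 : u ≤ n) : ∑ k ∈ Finset.range (n + 1), hat (u - k) = 1 := by
  have h2 : ∀ k : ℕ, hat (u - k) = Real.smoothTransition (u - k + 1) -
      Real.smoothTransition (u - ((k + 1 : ℕ) : ℝ) + 1) := by
    intro k
    unfold hat
    congr 2
    push_cast
    ring
  simp only [h2]
  rw [Finset.sum_range_sub' (fun k : ℕ => Real.smoothTransition (u - k + 1)) (n + 1)]
  rw [Real.smoothTransition.one_of_one_le (by push_cast; linarith),
    Real.smoothTransition.zero_of_nonpos (by push_cast; linarith), sub_zero]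

theorem hat_deriv_bd : ∃ C : ℝ, 0 ≤ C ∧ ∀ u, |deriv hat u| ≤ C := by
  have h1 : HasCompactSupport hat := by
    refine HasCompactSupport.intro (K := Icc (-1) 1) isCompact_Icc fun u hu => ?_
    apply hat_out
    by_contra hc
    exact hu (abs_le.1 (not_le.1 hc).le)
  obtain ⟨C, hC⟩ := h1.deriv.exists_bound_of_continuous (hat_smo.continuous_deriv (by norm_num))
  exact ⟨C, (norm_nonneg _).trans (hC 0), fun u => hC u⟩

end Pool.Agent.Lib.MP_79abb3_an.W
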