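import Pool.Agent.Lib.MP_79abb3_an.W.EFa

/-!
Theorem W, block EF: piecewise linear approximation of a smooth curve by a finite sum `∑ c_k(s) g_k` with smooth
coefficients.
-/

set_option autoImplicit false
set_option linter.unusedSectionVars false

open MeasureTheory Set Filter Topology Function

namespace Pool.Agent.Lib.MP_79abb3_an.W

/-- the coefficients `β(n s - k)` and `β(n s - k) (s - k/n)` -/
noncomputable def ha (n k : ℕ) (s : ℝ) : ℝ := hat (n * s - k)
noncomputable def hb (n k : ℕ) (s : ℝ) : ℝ := hat (n * s - k) * (s - k / n)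

section
variable {X : Type} [NormedAddCommGroup X] [NormedSpace ℝ X]

/-- the approximation of a curve `G` with derivative `G'` -/
noncomputable def apx (n : ℕ) (G G' : ℝ → X) (s : ℝ) : X :=
  ∑ k ∈ Finset.range (n + 1), (ha n k s • G (k / n) + hb n k s • G' (k / n))

private theorem efa2_ne {n : ℕ} (hn : 1 ≤ n) : (0:ℝ) < n := by
  exact_mod_cast hn

private theorem efa2_div_mem {n k : ℕ} (hn : 1 ≤ n) (hk : k ∈ Finset.range (n + 1)) :
    (k / n : ℝ) ∈ Icc (0:ℝ) 1 := by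
  have h1 := efa2_ne hn
  have h2 : (k:ℝ) ≤ n := by
    exact_mod_cast Nat.lt_succ_iff.mp (Finset.mem_range.mp hk)
  exact ⟨by positivity, (div_le_one h1).mpr h2⟩

private theorem efa2_sum {n : ℕ} (hn : 1 ≤ n) {s : ℝ} (hs : s ∈ Icc (0:ℝ) 1) :
    ∑ k ∈ Finset.range (n + 1), ha n k s = 1 := by
  have h1 := efa2_ne hn
  exact hat_sum n (mul_nonneg h1.le hs.1) (by
    have := mul_le_mul_of_nonneg_left hs.2 h1.le
    linarith)

private theorem efa2_ha_nonneg (n k : ℕ) (s : ℝ) : 0 ≤ ha n k s := hat_nonneg _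

private theorem efa2_hb (n k : ℕ) (s : ℝ) : hb n k s = ha n k s * (s - k / n) := rfl

theorem apx_zero {n : ℕ} (hn : 1 ≤ n) (G G' : ℝ → X) : apx n G G' 0 = G 0 := by
  unfold apx
  have h0 : ∀ k : ℕ, k ≠ 0 → ha n k 0 = 0 := by
    intro k hk
    have h1 : (n * (0:ℝ) - k) = ((-(k:ℤ) : ℤ) : ℝ) := by push_cast; ring
    unfold ha
    rw [h1]
    exact hat_int (by omega)
  rw [Finset.sum_eq_single 0]
  · have h1 : ha n 0 0 = 1 := by
      unfold ha
      rw [Nat.cast_zero, mul_zero, sub_zero, hat_zero]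
    rw [efa2_hb, h1, Nat.cast_zero, zero_div, sub_zero, mul_zero, one_smul, zero_smul, add_zero]
  · intro k _ hk
    rw [efa2_hb, h0 k hk, zero_mul, zero_smul, zero_smul, add_zero]
  · intro h
    exact absurd (Finset.mem_range.mpr (Nat.succ_pos n)) h

theorem apx_one {n : ℕ} (hn : 1 ≤ n) (G G' : ℝ → X) : apx n G G' 1 = G 1 := by
  unfold apx
  have hn0 := efa2_ne hn
  have h0 : ∀ k : ℕ, k ≠ n → ha n k 1 = 0 := by
    intro k hk
    have h1 : (n * (1:ℝ) - k) = (((n:ℤ) - (k:ℤ) : ℤ) : ℝ) := by push_cast; ring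
    unfold ha
    rw [h1]
    exact hat_int (by omega)
  rw [Finset.sum_eq_single n]
  · have h1 : ha n n 1 = 1 := by
      unfold ha
      rw [mul_one, sub_self, hat_zero]
    rw [efa2_hb, h1, div_self hn0.ne', sub_self, mul_zero, one_smul, zero_smul, add_zero]
  · intro k _ hk
    rw [efa2_hb, h0 k hk, zero_mul, zero_smul, zero_smul, add_zero]
  · intro h
    exact absurd (Finset.mem_range.mpr (Nat.lt_succ_self n)) h

/-- bound: convex combination -/
theorem apx_le {n : ℕ} (hn : 1 ≤ n) {G G' : ℝ → X} {A B : ℝ} (hA : ∀ s ∈ Icc (0:ℝ) 1, ‖G s‖ ≤ A)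
    (hB : ∀ s ∈ Icc (0:ℝ) 1, ‖G' s‖ ≤ B) {s : ℝ} (hs : s ∈ Icc (0:ℝ) 1) : ‖apx n G G' s‖ ≤ A + B := by
  have hB0 : 0 ≤ B := (norm_nonneg _).trans (hB 0 ⟨le_rfl, zero_le_one⟩)
  have h1 : A + B = ∑ k ∈ Finset.range (n + 1), ha n k s * (A + B) := by
    rw [← Finset.sum_mul, efa2_sum hn hs, one_mul]
  rw [h1]
  refine (norm_sum_le _ _).trans (Finset.sum_le_sum fun k hk => ?_)
  have hkm := efa2_div_mem hn hk
  have h2 : |s - k / n| ≤ 1 := by
    rw [abs_le]
    constructor <;> linarith [hs.1, hs.2, hkm.1, hkm.2]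
  refine (norm_add_le _ _).trans ?_
  rw [norm_smul, norm_smul, efa2_hb, norm_mul, Real.norm_eq_abs, Real.norm_eq_abs,
    abs_of_nonneg (efa2_ha_nonneg n k s), mul_add, mul_assoc]
  refine add_le_add (mul_le_mul_of_nonneg_left (hA _ hkm) (efa2_ha_nonneg n k s))
    (mul_le_mul_of_nonneg_left ?_ (efa2_ha_nonneg n k s))
  calc |s - k / n| * ‖G' (k / n)‖ ≤ 1 * B := mul_le_mul h2 (hB _ hkm) (norm_nonneg _) zero_le_one
    _ = B := one_mul B

private theorem efa2_lip {G' G'' : ℝ → X} {M : ℝ}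
    (h2 : ∀ s, HasDerivAt G' (G'' s) s) (hM : ∀ s ∈ Icc (0:ℝ) 1, ‖G'' s‖ ≤ M) {s t : ℝ}
    (hs : s ∈ Icc (0:ℝ) 1) (ht : t ∈ Icc (0:ℝ) 1) : ‖G' s - G' t‖ ≤ M * |s - t| :=
  (convex_Icc (0:ℝ) 1).norm_image_sub_le_of_norm_hasDerivWithin_le (f := G') (f' := G'') (C := M)
    (fun x _ => (h2 x).hasDerivWithinAt) hM ht hs

private theorem efa2_taylor {G G' G'' : ℝ → X} {M : ℝ} (h1 : ∀ s, HasDerivAt G (G' s) s)
    (h2 : ∀ s, HasDerivAt G' (G'' s) s) (hM : ∀ s ∈ Icc (0:ℝ) 1, ‖G'' s‖ ≤ M) {s t : ℝ}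
    (hs : s ∈ Icc (0:ℝ) 1) (ht : t ∈ Icc (0:ℝ) 1) :
    ‖G t + (s - t) • G' t - G s‖ ≤ M * |s - t| ^ 2 := by
  have hM0 : 0 ≤ M := (norm_nonneg _).trans (hM 0 ⟨le_rfl, zero_le_one⟩)
  have hF : ∀ u, HasDerivAt (fun u => G u - u • G' t) (G' u - (1:ℝ) • G' t) u := fun u =>
    (h1 u).sub ((hasDerivAt_id' u).smul_const (G' t))
  have h3 : ∀ u ∈ uIcc t s, ‖G' u - (1:ℝ) • G' t‖ ≤ M * |s - t| := by
    intro u hu
    have hu1 : u ∈ Icc (0:ℝ) 1 := (uIcc_subset_Icc ht hs) hu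
    rw [one_smul]
    refine (efa2_lip h2 hM hu1 ht).trans (mul_le_mul_of_nonneg_left ?_ hM0)
    exact abs_sub_left_of_mem_uIcc hu
  have h4 := (convex_uIcc t s).norm_image_sub_le_of_norm_hasDerivWithin_le
    (f := fun u => G u - u • G' t) (f' := fun u => G' u - (1:ℝ) • G' t) (C := M * |s - t|)
    (fun x _ => (hF x).hasDerivWithinAt) h3 left_mem_uIcc right_mem_uIcc
  have e : G t + (s - t) • G' t - G s = -((G s - s • G' t) - (G t - t • G' t)) := by
    rw [sub_smul]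
    abel
  rw [e, norm_neg, pow_two, ← mul_assoc]
  exact h4

/-- the interpolation error at one node -/
private theorem efa2_err (n k : ℕ) (G G' : ℝ → X) (s : ℝ) :
    ha n k s • G (k / n) + hb n k s • G' (k / n) =
      ha n k s • (G (k / n) + (s - k / n) • G' (k / n) - G s) + ha n k s • G s := by
  rw [efa2_hb, mul_smul, smul_sub, smul_add]
  abel

/-- **Error of the value.** Taylor: `‖G s - G(k/n) - (s - k/n) G'(k/n)‖ ≤ M (s - k/n)²/2` and only `|n s - k| < 1`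
contributes. -/
theorem apx_sub {n : ℕ} (hn : 1 ≤ n) {G G' G'' : ℝ → X} {M : ℝ} (h1 : ∀ s, HasDerivAt G (G' s) s)
    (h2 : ∀ s, HasDerivAt G' (G'' s) s) (hM : ∀ s ∈ Icc (0:ℝ) 1, ‖G'' s‖ ≤ M) {s : ℝ} (hs : s ∈ Icc (0:ℝ) 1) :
    ‖apx n G G' s - G s‖ ≤ M / n ^ 2 := by
  have hn0 := efa2_ne hn
  have hM0 : 0 ≤ M := (norm_nonneg _).trans (hM 0 ⟨le_rfl, zero_le_one⟩)
  have e : apx n G G' s - G s =
      ∑ k ∈ Finset.range (n + 1), ha n k s • (G (k / n) + (s - k / n) • G' (k / n) - G s) := by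
    unfold apx
    rw [Finset.sum_congr rfl fun k _ => efa2_err n k G G' s, Finset.sum_add_distrib,
      ← Finset.sum_smul, efa2_sum hn hs, one_smul, add_sub_cancel_right]
  have h3 : M / n ^ 2 = ∑ k ∈ Finset.range (n + 1), ha n k s * (M / n ^ 2) := by
    rw [← Finset.sum_mul, efa2_sum hn hs, one_mul]
  rw [e, h3]
  refine (norm_sum_le _ _).trans (Finset.sum_le_sum fun k hk => ?_)
  rw [norm_smul, Real.norm_eq_abs, abs_of_nonneg (efa2_ha_nonneg n k s)]
  by_cases hc : 1 ≤ |n * s - k|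
  · have h4 : ha n k s = 0 := hat_out hc
    rw [h4, zero_mul, zero_mul]
  · refine mul_le_mul_of_nonneg_left ?_ (efa2_ha_nonneg n k s)
    refine (efa2_taylor h1 h2 hM hs (efa2_div_mem hn hk)).trans ?_
    have h5 : |s - k / n| ≤ 1 / n := by
      have h6 : s - k / n = (n * s - k) / n := by field_simp
      rw [h6, abs_div, abs_of_pos hn0]
      exact div_le_div_of_nonneg_right (not_le.mp hc).le hn0.le
    have h7 : |s - k / n| ^ 2 ≤ (1 / n : ℝ) ^ 2 := by gcongr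
    calc M * |s - k / n| ^ 2 ≤ M * (1 / n : ℝ) ^ 2 := mul_le_mul_of_nonneg_left h7 hM0
      _ = M / n ^ 2 := by ring

private theorem efa2_ha_deriv (n k : ℕ) (s : ℝ) :
    HasDerivAt (ha n k) (n * deriv hat (n * s - k)) s := by
  have h1 : HasDerivAt hat (deriv hat (n * s - k)) (n * s - k) :=
    ((hat_smo.differentiable (by simp)) _).hasDerivAt
  have h2 : HasDerivAt (fun s : ℝ => n * s - k) (n * 1) s :=
    ((hasDerivAt_id' s).const_mul (n:ℝ)).sub_const _
  have h3 := h1.comp s h2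
  rw [mul_one, mul_comm] at h3
  exact h3

private theorem efa2_hb_deriv (n k : ℕ) (s : ℝ) :
    HasDerivAt (hb n k) (n * deriv hat (n * s - k) * (s - k / n) + ha n k s * 1) s :=
  (efa2_ha_deriv n k s).mul ((hasDerivAt_id' s).sub_const _)

private theorem efa2_apx_deriv (n : ℕ) (G G' : ℝ → X) (s : ℝ) : HasDerivAt (apx n G G')
    (∑ k ∈ Finset.range (n + 1), ((n * deriv hat (n * s - k)) • G (k / n) +
      (n * deriv hat (n * s - k) * (s - k / n) + ha n k s * 1) • G' (k / n))) s := by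
  have h : HasDerivAt (fun s => ∑ k ∈ Finset.range (n + 1),
      (ha n k s • G (k / n) + hb n k s • G' (k / n))) _ s :=
    HasDerivAt.fun_sum fun k _ => ((efa2_ha_deriv n k s).smul_const (G (k / n))).add
      ((efa2_hb_deriv n k s).smul_const (G' (k / n)))
  exact h

theorem apx_deriv_exists (n : ℕ) (G G' : ℝ → X) (s : ℝ) : DifferentiableAt ℝ (apx n G G') s :=
  (efa2_apx_deriv n G G' s).differentiableAt

/-- the derivative of the partition of unity -/
private theorem efa2_sum_deriv {n : ℕ} (hn : 1 ≤ n) {s : ℝ} (hs : s ∈ Icc (0:ℝ) 1) :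
    ∑ k ∈ Finset.range (n + 1), n * deriv hat (n * s - k) = 0 := by
  have h1 : HasDerivWithinAt (fun s => ∑ k ∈ Finset.range (n + 1), ha n k s)
      (∑ k ∈ Finset.range (n + 1), n * deriv hat (n * s - k)) (Icc 0 1) s :=
    (HasDerivAt.fun_sum fun k _ => efa2_ha_deriv n k s).hasDerivWithinAt
  have h2 : HasDerivWithinAt (fun s => ∑ k ∈ Finset.range (n + 1), ha n k s) 0 (Icc 0 1) s :=
    (hasDerivWithinAt_const s (Icc (0:ℝ) 1) (1:ℝ)).congr (fun x hx => efa2_sum hn hx) (efa2_sum hn hs)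
  exact (uniqueDiffOn_Icc (zero_lt_one' ℝ) s hs).eq_deriv _ h1 h2

/-- at most three integers are near `u` -/
private theorem efa2_near (n : ℕ) (u : ℝ) {f : ℕ → ℝ} {B : ℝ} (hB : 0 ≤ B)
    (h1 : ∀ k ∈ Finset.range (n + 1), |u - k| ≤ 1 → f k ≤ B)
    (h2 : ∀ k ∈ Finset.range (n + 1), 1 < |u - k| → f k ≤ 0) :
    ∑ k ∈ Finset.range (n + 1), f k ≤ 3 * B := by
  classical
  have h3 : ∑ k ∈ Finset.range (n + 1), f k ≤
      ∑ k ∈ Finset.range (n + 1), if |u - k| ≤ 1 then B else 0 := by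
    refine Finset.sum_le_sum fun k hk => ?_
    by_cases hc : |u - k| ≤ 1
    · rw [if_pos hc]; exact h1 k hk hc
    · rw [if_neg hc]; exact h2 k hk (not_le.mp hc)
  refine h3.trans ?_
  rw [← Finset.sum_filter, Finset.sum_const, nsmul_eq_mul]
  refine mul_le_mul_of_nonneg_right ?_ hB
  have h4 : ((Finset.range (n + 1)).filter fun k : ℕ => |u - k| ≤ 1).card ≤
      (Finset.Icc (⌊u⌋ - 1) (⌊u⌋ + 1)).card := by
    refine Finset.card_le_card_of_injOn (fun k : ℕ => (k:ℤ)) (fun k hk => ?_)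
      (fun a _ b _ hab => Int.ofNat_inj.mp hab)
    have hk2 : |u - k| ≤ 1 := (Finset.mem_filter.mp hk).2
    rw [abs_le] at hk2
    have f1 := Int.floor_le u
    have f2 := Int.lt_floor_add_one u
    rw [Finset.coe_Icc, Set.mem_Icc]
    constructor
    · have : ((⌊u⌋ - 1 : ℤ) : ℝ) ≤ ((k:ℤ) : ℝ) := by push_cast; linarith
      exact_mod_cast this
    · have : (((k:ℤ)) : ℝ) < ((⌊u⌋ + 1 + 1 : ℤ) : ℝ) := by push_cast; linarith
      exact Int.lt_add_one_iff.mp (by exact_mod_cast this)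
  rw [Int.card_Icc] at h4
  have h5 : (⌊u⌋ + 1 + 1 - (⌊u⌋ - 1)).toNat = 3 := by
    have : ⌊u⌋ + 1 + 1 - (⌊u⌋ - 1) = 3 := by ring
    rw [this]; rfl
  rw [h5] at h4
  exact_mod_cast h4

private theorem efa2_deriv_out {u : ℝ} (hu : 1 < |u|) : deriv hat u = 0 := by
  have h1 : hat =ᶠ[𝓝 u] fun _ => (0:ℝ) := by
    have h3 : IsOpen {v : ℝ | 1 < |v|} := isOpen_lt continuous_const continuous_abs
    filter_upwards [h3.mem_nhds hu] with v hv
    exact hat_out (le_of_lt hv)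
  rw [h1.deriv_eq, deriv_const]

/-- **Error of the derivative.** `(d/ds) apx - G' = ∑ n β'(n s - k) (G(k/n) + (s - k/n) G'(k/n) - G s) +
∑ β (n s - k) (G'(k/n) - G' s)`, since `∑ β = 1`, `∑ β' = 0`; at most two terms are not zero. -/
theorem apx_deriv_sub : ∃ C : ℝ, 0 ≤ C ∧ ∀ (n : ℕ), 1 ≤ n → ∀ (G G' G'' : ℝ → X) (M : ℝ),
    (∀ s, HasDerivAt G (G' s) s) → (∀ s, HasDerivAt G' (G'' s) s) → (∀ s ∈ Icc (0:ℝ) 1, ‖G'' s‖ ≤ M) →
    ∀ s ∈ Icc (0:ℝ) 1, ‖deriv (apx n G G') s - G' s‖ ≤ C * M / n := by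
  obtain ⟨C, hC0, hC⟩ := hat_deriv_bd
  refine ⟨3 * C + 1, by positivity, fun n hn G G' G'' M h1 h2 hM s hs => ?_⟩
  have hn0 := efa2_ne hn
  have hM0 : 0 ≤ M := (norm_nonneg _).trans (hM 0 ⟨le_rfl, zero_le_one⟩)
  have hdist : ∀ k : ℕ, |n * s - k| ≤ 1 → |s - k / n| ≤ 1 / n := by
    intro k hk
    have h6 : s - k / n = (n * s - k) / n := by field_simp
    rw [h6, abs_div, abs_of_pos hn0]
    exact div_le_div_of_nonneg_right hk hn0.le
  have e : deriv (apx n G G') s - G' s =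
      (∑ k ∈ Finset.range (n + 1),
        (n * deriv hat (n * s - k)) • (G (k / n) + (s - k / n) • G' (k / n) - G s)) +
      ∑ k ∈ Finset.range (n + 1), ha n k s • (G' (k / n) - G' s) := by
    rw [(efa2_apx_deriv n G G' s).deriv]
    have e1 : ∑ k ∈ Finset.range (n + 1), ha n k s • (G' (k / n) - G' s) =
        ∑ k ∈ Finset.range (n + 1), ha n k s • G' (k / n) - G' s := by
      rw [Finset.sum_congr rfl fun k _ => smul_sub (ha n k s) (G' (k / n)) (G' s),
        Finset.sum_sub_distrib, ← Finset.sum_smul, efa2_sum hn hs, one_smul]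
    have e2 : ∑ k ∈ Finset.range (n + 1),
        (n * deriv hat (n * s - k)) • (G (k / n) + (s - k / n) • G' (k / n) - G s) =
        ∑ k ∈ Finset.range (n + 1),
        (n * deriv hat (n * s - k)) • (G (k / n) + (s - k / n) • G' (k / n)) := by
      rw [Finset.sum_congr rfl fun (k : ℕ) _ => smul_sub (n * deriv hat (n * s - k))
        (G (k / n) + (s - k / n) • G' (k / n)) (G s), Finset.sum_sub_distrib, ← Finset.sum_smul,
        efa2_sum_deriv hn hs, zero_smul, sub_zero]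
    rw [e1, e2, ← add_sub_assoc, ← Finset.sum_add_distrib]
    congr 1
    refine Finset.sum_congr rfl fun k _ => ?_
    rw [mul_one, add_smul, smul_add, ← mul_smul]
    abel
  rw [e]
  refine (norm_add_le _ _).trans ?_
  have b1 : ‖∑ k ∈ Finset.range (n + 1),
      (n * deriv hat (n * s - k)) • (G (k / n) + (s - k / n) • G' (k / n) - G s)‖ ≤
      3 * (C * M / n) := by
    refine (norm_sum_le _ _).trans (efa2_near n (n * s) (by positivity) (fun k hk hk1 => ?_)
      (fun k _ hk1 => ?_))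
    · rw [norm_smul, norm_mul, Real.norm_eq_abs, Real.norm_eq_abs, abs_of_pos hn0]
      have h5 := hdist k hk1
      have h7 : |s - k / n| ^ 2 ≤ (1 / n : ℝ) ^ 2 := by gcongr
      have h8 := (efa2_taylor h1 h2 hM hs (efa2_div_mem hn hk)).trans
        (mul_le_mul_of_nonneg_left h7 hM0)
      calc (n:ℝ) * |deriv hat (n * s - k)| * ‖G (k / n) + (s - k / n) • G' (k / n) - G s‖
          ≤ n * C * (M * (1 / n : ℝ) ^ 2) :=
            mul_le_mul (mul_le_mul_of_nonneg_left (hC _) hn0.le) h8 (norm_nonneg _)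
              (mul_nonneg hn0.le hC0)
        _ = C * M / n := by field_simp
    · rw [efa2_deriv_out hk1, mul_zero, zero_smul, norm_zero]
  have b2 : ‖∑ k ∈ Finset.range (n + 1), ha n k s • (G' (k / n) - G' s)‖ ≤ M / n := by
    have h3 : M / n = ∑ k ∈ Finset.range (n + 1), ha n k s * (M / n) := by
      rw [← Finset.sum_mul, efa2_sum hn hs, one_mul]
    rw [h3]
    refine (norm_sum_le _ _).trans (Finset.sum_le_sum fun k hk => ?_)
    rw [norm_smul, Real.norm_eq_abs, abs_of_nonneg (efa2_ha_nonneg n k s)]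
    by_cases hc : 1 ≤ |n * s - k|
    · have h4 : ha n k s = 0 := hat_out hc
      rw [h4, zero_mul, zero_mul]
    · refine mul_le_mul_of_nonneg_left ?_ (efa2_ha_nonneg n k s)
      have h5 := hdist k (not_le.mp hc).le
      rw [norm_sub_rev]
      refine (efa2_lip h2 hM hs (efa2_div_mem hn hk)).trans ?_
      calc M * |s - k / n| ≤ M * (1 / n) := mul_le_mul_of_nonneg_left h5 hM0
        _ = M / n := by ring
  refine (add_le_add b1 b2).trans (le_of_eq ?_)
  ring

end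

end Pool.Agent.Lib.MP_79abb3_an.W
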