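import Pool.Agent.Lib.MP_79abb3_an.W.BDc
import Pool.Agent.Lib.MP_79abb3_an.W.BX2

/-!
Theorem W, block EF: the Leray projection of fields of the class `BD`.
-/

set_option autoImplicit false
set_option linter.unusedSectionVars false

open MeasureTheory Set Filter Topology Function
open scoped ENNReal RealInnerProductSpace

namespace Pool.Agent.Lib.MP_79abb3_an.W

variable {d : ℕ} {D : Set (En d)} {z : En d → ℝ} {δ : ℝ}

/-- `v = P F` in the classical sense: `F = v + ∇q` in `D`, `v` divergence free and tangential. -/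
structure IsLr (D : Set (En d)) (z : En d → ℝ) (F v : En d → En d) : Prop where
  bd : BD D v
  div : ∀ x ∈ D, dv v x = 0
  tan : Oz D z fun x => ⟪gradient z x, v x⟫
  gr : ∃ q : En d → ℝ, BD D q ∧ ∀ x ∈ D, F x = v x + gradient q x

/-- the gradient as a linear map of the derivative -/
private noncomputable def efc_G (d : ℕ) : (En d →L[ℝ] ℝ) →L[ℝ] En d :=
  LinearMap.toContinuousLinearMap
    { toFun := fun L => (InnerProductSpace.toDual ℝ (En d)).symm L
      map_add' := fun A B => by simp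
      map_smul' := fun c A => by simp }

private theorem efc_gradient (q : En d → ℝ) : gradient q = fun x => efc_G d (fderiv ℝ q x) := rfl

private theorem efc_BDgrad (hD : IsOpen D) {q : En d → ℝ} (hq : BD D q) : BD D (gradient q) := by
  rw [efc_gradient]
  exact (hq.fderiv hD).clm hD (efc_G d)

private theorem efc_Hn (h : Dom D z δ) : ∃ V : ℝ, 0 ≤ V ∧ ∀ (K : ℕ) (A : ℝ) (F : En d → En d), 0 ≤ A →
    Bk D K A F → B.Hn D K F ≤ ENNReal.ofReal (((K : ℝ) + 1) * (A * V)) := by
  have hvol : volume D ≠ ⊤ := h.bdd.measure_lt_top.ne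
  set V : ℝ≥0∞ := volume D ^ ((2 : ℝ≥0∞).toReal⁻¹) with hV
  have hVt : V ≠ ⊤ := ENNReal.rpow_ne_top_of_nonneg (by norm_num) hvol
  refine ⟨V.toReal, ENNReal.toReal_nonneg, fun K A F hA hF => ?_⟩
  have hm := h.isOpen.measurableSet
  have h1 : ∀ j ∈ Finset.range (K + 1), eLpNorm (fun x => iteratedFDeriv ℝ j F x) 2 (volume.restrict D) ≤
      ENNReal.ofReal (A * V.toReal) := by
    intro j hj
    have h2 : ∀ᵐ x ∂(volume.restrict D), ‖iteratedFDeriv ℝ j F x‖ ≤ A :=
      (ae_restrict_iff' hm).2 (Eventually.of_forall fun x hx => hF j (by have := Finset.mem_range.1 hj; omega) x hx)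
    refine (eLpNorm_le_of_ae_bound h2).trans ?_
    rw [Measure.restrict_apply_univ, ENNReal.ofReal_mul hA, ENNReal.ofReal_toReal hVt, mul_comm, hV]
  unfold B.Hn
  refine (Finset.sum_le_sum h1).trans ?_
  have h2 : ENNReal.ofReal (((K : ℝ) + 1) * (A * V.toReal)) =
      ENNReal.ofReal ((K : ℝ) + 1) * ENNReal.ofReal (A * V.toReal) := ENNReal.ofReal_mul (by positivity)
  have h3 : ENNReal.ofReal ((K : ℝ) + 1) = ((K + 1 : ℕ) : ℝ≥0∞) := by
    rw [← ENNReal.ofReal_natCast, Nat.cast_succ]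
  rw [Finset.sum_const, Finset.card_range, nsmul_eq_mul, h2, h3]

/-- **The Leray projection in the class `BD`, with bounds.** Proof: `B.Dom.leray`, `B.Dom.sobolev`. -/
theorem exists_lr (h : Dom D z δ) : ∃ (m : ℕ → ℕ) (C : ℕ → ℝ), (∀ k, 0 ≤ C k) ∧ ∀ F : En d → En d, BD D F →
    ∃ v : En d → En d, IsLr D z F v ∧ ∀ (k : ℕ) (A : ℝ), 0 ≤ A → Bk D (m k) A F → Bk D k (C k * A) v := by
  obtain ⟨C, hC⟩ := h.toB.leray
  choose S hS using fun k => h.toB.sobolev k
  obtain ⟨V, hV, hVn⟩ := efc_Hn h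
  refine ⟨fun k => k + d, fun k => ∑ j ∈ Finset.range (k + 1), (S j : ℝ) * (C (j + d) : ℝ) * ((((j + d : ℕ) : ℝ) + 1) * V),
    fun k => Finset.sum_nonneg fun j _ => by positivity, fun F hF => ?_⟩
  obtain ⟨v, q, hv, hq, he, hd, hn, h1, -⟩ := hC F hF
  refine ⟨v, ⟨hv, hd, hn, q, hq, fun x _ => he x⟩, fun k A hA hk j hj x hx => ?_⟩
  have h2 := hS j (En d) v hv.1 x hx
  have h3 := hVn (j + d) A F hA (hk.mono (show j + d ≤ k + d by omega) le_rfl)
  have h4 : ‖iteratedFDeriv ℝ j v x‖ₑ ≤ ENNReal.ofReal ((S j : ℝ) * (C (j + d) : ℝ) * ((((j + d : ℕ) : ℝ) + 1) * (A * V))) := by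
    refine h2.trans ((mul_le_mul_right ((h1 (j + d)).trans (mul_le_mul_right h3 _)) _).trans ?_)
    have k1 : ENNReal.ofReal ((S j : ℝ) * (C (j + d) : ℝ) * ((((j + d : ℕ) : ℝ) + 1) * (A * V))) =
        ENNReal.ofReal (S j : ℝ) * ENNReal.ofReal (C (j + d) : ℝ) *
          ENNReal.ofReal ((((j + d : ℕ) : ℝ) + 1) * (A * V)) := by
      rw [ENNReal.ofReal_mul (p := (S j : ℝ) * (C (j + d) : ℝ)) (by positivity),
        ENNReal.ofReal_mul (p := (S j : ℝ)) (by positivity)]
    rw [k1, ENNReal.ofReal_coe_nnreal, ENNReal.ofReal_coe_nnreal, mul_assoc]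
  have h5 : ‖iteratedFDeriv ℝ j v x‖ ≤ (S j : ℝ) * (C (j + d) : ℝ) * ((((j + d : ℕ) : ℝ) + 1) * (A * V)) := by
    rw [← ofReal_norm] at h4
    exact (ENNReal.ofReal_le_ofReal_iff (by positivity)).1 h4
  refine h5.trans ?_
  rw [Finset.sum_mul]
  refine le_trans (le_of_eq ?_) (Finset.single_le_sum
    (f := fun j => (S j : ℝ) * (C (j + d) : ℝ) * ((((j + d : ℕ) : ℝ) + 1) * V) * A)
    (fun i _ => by positivity) (Finset.mem_range.2 (Nat.lt_succ_of_le hj)))
  ring

/-- fields in `BD` are square integrable on `D` -/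
theorem BD.memLp (h : Dom D z δ) {f : En d → En d} (hf : BD D f) :
    MemLp (D.indicator f) 2 (volume : Measure (En d)) := by
  obtain ⟨C, hC⟩ := hf.2 0
  refine ind_memLp h hf.1.continuousOn (C := C) (fun x hx => ?_) 2
  have := hC x hx
  rwa [norm_iteratedFDeriv_zero] at this

theorem pcd_add (h : Dom D z δ) {f g : En d → En d} (hf : BD D f) (hg : BD D g) :
    PcD D (fun x => f x + g x) = PcD D f + PcD D g := by
  unfold PcD
  have h1 : (D.indicator fun x => f x + g x) = fun x => D.indicator f x + D.indicator g x :=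
    Set.indicator_add D f g
  rw [h1, cl_add (hf.memLp h) (hg.memLp h), map_add]

theorem pcd_smul (h : Dom D z δ) (c : ℝ) {f : En d → En d} (hf : BD D f) :
    PcD D (fun x => c • f x) = c • PcD D f := by
  unfold PcD
  have h1 : (D.indicator fun x => c • f x) = fun x => c • D.indicator f x :=
    Set.indicator_const_smul D c f
  rw [h1, cl_smul c (hf.memLp h), map_smul]

theorem pcd_sum (h : Dom D z δ) {ι : Type} (s : Finset ι) {f : ι → En d → En d} (hf : ∀ i ∈ s, BD D (f i)) :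
    PcD D (fun x => ∑ i ∈ s, f i x) = ∑ i ∈ s, PcD D (f i) := by
  classical
  induction s using Finset.induction_on with
  | empty =>
    simp only [Finset.sum_empty]
    have h1 := pcd_smul h 0 (BD.const h.isOpen (0 : En d))
    simpa using h1
  | insert a s ha ih =>
    rw [Finset.sum_insert ha, ← ih fun i hi => hf i (Finset.mem_insert_of_mem hi),
      ← pcd_add h (hf a (Finset.mem_insert_self a s))
        (BD.sum h.isOpen s fun i hi => hf i (Finset.mem_insert_of_mem hi))]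
    congr 1
    funext x
    rw [Finset.sum_insert ha]

theorem pcd_congr {f g : En d → En d} (hfg : ∀ x ∈ D, f x = g x) : PcD D f = PcD D g := by
  unfold PcD
  rw [Set.indicator_congr hfg]

/-- bound by the supremum -/
theorem pcd_sup (h : Dom D z δ) : ∃ C : ℝ, 0 ≤ C ∧ ∀ (f : En d → En d) (A : ℝ), BD D f → 0 ≤ A →
    (∀ x ∈ D, ‖f x‖ ≤ A) → ‖PcD D f‖ ≤ C * A := by
  obtain ⟨V, hV, hVn⟩ := efc_Hn h
  refine ⟨V, hV, fun f A hf hA hb => (PD_le _).trans ?_⟩
  have h1 := hVn 0 A f hA fun j hj x hx => by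
    rw [Nat.le_zero.1 hj, norm_iteratedFDeriv_zero]
    exact hb x hx
  unfold B.Hn at h1
  rw [Finset.sum_range_one] at h1
  have h2 : eLpNorm (D.indicator f) 2 volume ≤ ENNReal.ofReal (V * A) := by
    rw [eLpNorm_indicator_eq_eLpNorm_restrict h.isOpen.measurableSet]
    refine le_trans (le_of_eq ?_) (h1.trans (le_of_eq ?_))
    · exact eLpNorm_congr_norm_ae (Eventually.of_forall fun x => norm_iteratedFDeriv_zero.symm)
    · congr 1
      push_cast
      ring
  rw [cl_eq (hf.memLp h), Lp.norm_toLp]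
  exact ENNReal.toReal_le_of_le_ofReal (by positivity) h2

/-- gradients are orthogonal to `HD D` -/
theorem pcd_gradient (h : Dom D z δ) {q : En d → ℝ} (hq : BD D q) : PcD D (gradient q) = 0 := by
  have h1 := h.PD_eq (F := gradient q) (v := fun _ => 0) (efc_BDgrad h.isOpen hq) (BD.const h.isOpen _) hq
    (fun x _ => (zero_add _).symm) (fun x _ => ?_) ⟨0, fun x _ => ?_⟩
  · have h2 := pcd_smul h 0 (BD.const h.isOpen (0 : En d))
    simp only [zero_smul] at h2
    have h3 : D.indicator (fun _ : En d => (0 : En d)) = fun _ => 0 := Set.indicator_zero _ _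
    have h4 : cl (fun _ : En d => (0 : En d)) = 0 := by
      have h5 := cl_smul 0 (f := fun _ : En d => (0 : En d)) MemLp.zero
      simpa using h5
    rw [h3, h4] at h1
    exact Subtype.ext h1
  · unfold dv pd
    simp
  · simp

/-- `P F = v` -/
theorem IsLr.pcd (h : Dom D z δ) {F v : En d → En d} (hF : BD D F) (hl : IsLr D z F v) :
    PcD D F = PcD D v ∧ ((PcD D v : HD D) : L2E d) = cl (D.indicator v) := by
  obtain ⟨q, hq, he⟩ := hl.gr
  have h1 := h.PD_eq hF hl.bd hq he hl.div hl.tan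
  have h2 := h.PD_eq (F := v) (v := v) (q := fun _ => 0) hl.bd hl.bd (BD.const h.isOpen _)
    (fun x _ => ?_) hl.div hl.tan
  · exact ⟨Subtype.ext (h1.trans h2.symm), h2⟩
  · have h3 : gradient (fun _ : En d => (0 : ℝ)) x = 0 := gradient_fun_const x 0
    rw [h3, add_zero]

/-- the Lie derivative of a gradient is a gradient -/
theorem lieF_gradient (hD : IsOpen D) {W : En d → En d} {q : En d → ℝ} (hW : BD D W) (hq : BD D q) {x : En d}
    (hx : x ∈ D) : lieF W (gradient q) x = gradient (fun y => fderiv ℝ q y (W y)) x := by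
  have h1 : HasFDerivAt W (fderiv ℝ W x) x := (hW.differentiableAt hD hx).hasFDerivAt
  have h2 : HasFDerivAt (fderiv ℝ q) (fderiv ℝ (fderiv ℝ q) x) x :=
    ((hq.fderiv hD).differentiableAt hD hx).hasFDerivAt
  have hsym : ∀ y y', fderiv ℝ (fderiv ℝ q) x y y' = fderiv ℝ (fderiv ℝ q) x y' y := by
    intro y y'
    have h4 : minSmoothness ℝ 2 ≤ ((⊤ : ℕ∞) : WithTop ℕ∞) := by
      rw [minSmoothness_of_isRCLikeNormedField]
      exact WithTop.coe_le_coe.2 (le_top : (2 : ℕ∞) ≤ ⊤)
    exact ((hq.contDiffAt hD hx).isSymmSndFDerivAt h4).eq _ _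
  have h3 : HasFDerivAt (gradient q) ((efc_G d).comp (fderiv ℝ (fderiv ℝ q) x)) x :=
    (efc_G d).hasFDerivAt.comp x h2
  have hG : ∀ (L : En d →L[ℝ] ℝ) (y : En d), ⟪efc_G d L, y⟫ = L y := fun L y =>
    InnerProductSpace.toDual_symm_apply
  have h5 : HasFDerivAt (fun y => fderiv ℝ q y (W y)) _ x := h2.clm_apply h1
  refine ext_inner_right ℝ fun y => ?_
  have h6 : ⟪gradient (fun y => fderiv ℝ q y (W y)) x, y⟫ = fderiv ℝ (fun y => fderiv ℝ q y (W y)) x y := by
    rw [efc_gradient]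
    exact hG _ _
  rw [h6, h5.fderiv]
  unfold lieF
  rw [inner_add_left, h3.fderiv, ContinuousLinearMap.adjoint_inner_left]
  have h7 : ⟪((efc_G d).comp (fderiv ℝ (fderiv ℝ q) x)) (W x), y⟫ = fderiv ℝ (fderiv ℝ q) x (W x) y := hG _ _
  have h8 : ⟪gradient q x, fderiv ℝ W x y⟫ = fderiv ℝ q x (fderiv ℝ W x y) := by
    rw [efc_gradient]
    exact hG _ _
  rw [h7, h8, hsym]
  simp only [_root_.add_apply, ContinuousLinearMap.comp_apply, ContinuousLinearMap.flip_apply]
  ring

/-- `P L_W P F = P L_W F` -/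
theorem IsLr.lie (h : Dom D z δ) {W F v : En d → En d} (hW : BD D W) (hF : BD D F) (hl : IsLr D z F v) :
    PcD D (lieF W v) = PcD D (lieF W F) := by
  have hD := h.isOpen
  obtain ⟨q, hq, he⟩ := hl.gr
  have hg := efc_BDgrad hD hq
  have hB : BD D (fun y => fderiv ℝ q y (W y)) := (hq.fderiv hD).apply hD hW
  have h1 : ∀ x ∈ D, lieF W F x = lieF W v x + gradient (fun y => fderiv ℝ q y (W y)) x := by
    intro x hx
    rw [← lieF_gradient hD hW hq hx]
    have h2 : fderiv ℝ F x = fderiv ℝ v x + fderiv ℝ (gradient q) x := by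
      rw [fderiv_congr_on hD he hx]
      exact fderiv_fun_add (hl.bd.differentiableAt hD hx) (hg.differentiableAt hD hx)
    unfold lieF
    rw [h2, he x hx, map_add, _root_.add_apply]
    abel
  rw [pcd_congr h1, pcd_add h (hW.lieF hD hl.bd) (efc_BDgrad hD hB), pcd_gradient h hB, add_zero]

end Pool.Agent.Lib.MP_79abb3_an.W
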