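import Pool.Agent.Lib.MP_79abb3_an.W.DEf

/-!
Theorem W, block EF: calculus of the class `Sep` of time dependent fields, continued: sums over any index set, time
derivatives, linear operators, Lie derivatives, uniform bounds.
-/

set_option autoImplicit false
set_option linter.unusedSectionVars false

open MeasureTheory Set Filter Topology Function
open scoped ENNReal RealInnerProductSpace

namespace Pool.Agent.Lib.MP_79abb3_an.W

section
variable {d : ℕ} {F G E : Type} [NormedAddCommGroup F] [NormedSpace ℝ F] [NormedAddCommGroup G] [NormedSpace ℝ G]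
  [NormedAddCommGroup E] [NormedSpace ℝ E] {D : Set (En d)}

/-- any finite index type -/
theorem Sep.of_fintype {ι : Type} [Fintype ι] {f : ℝ → En d → F} (c : ι → ℝ → ℝ) (g : ι → En d → F)
    (hc : ∀ k, ContDiff ℝ ((⊤ : ℕ∞) : WithTop ℕ∞) (c k)) (hg : ∀ k, BD D (g k))
    (h : ∀ t, ∀ x ∈ D, f t x = ∑ k, c k t • g k x) : Sep D f := by
  let e := Fintype.equivFin ι
  refine ⟨Fintype.card ι, fun k => c (e.symm k), fun k => g (e.symm k), fun k => hc _, fun k => hg _,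
    fun t x hx => ?_⟩
  rw [h t x hx]
  exact (Equiv.sum_comp e.symm (fun k => c k t • g k x)).symm

/-- sums over a finite set -/
theorem Sep.of_finset {ι : Type} (s : Finset ι) {f : ℝ → En d → F} (c : ι → ℝ → ℝ) (g : ι → En d → F)
    (hc : ∀ k ∈ s, ContDiff ℝ ((⊤ : ℕ∞) : WithTop ℕ∞) (c k)) (hg : ∀ k ∈ s, BD D (g k))
    (h : ∀ t, ∀ x ∈ D, f t x = ∑ k ∈ s, c k t • g k x) : Sep D f := by
  refine Sep.of_fintype (ι := s) (fun k => c k) (fun k => g k) (fun k => hc k k.2) (fun k => hg k k.2)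
    fun t x hx => ?_
  rw [h t x hx]
  exact (Finset.sum_coe_sort s fun k => c k t • g k x).symm

/-- change of time -/
theorem Sep.comp {f : ℝ → En d → F} (hf : Sep D f) {φ : ℝ → ℝ} (hφ : ContDiff ℝ ((⊤ : ℕ∞) : WithTop ℕ∞) φ) :
    Sep D fun t => f (φ t) := by
  obtain ⟨n, c, a, hc, ha, hs⟩ := hf
  exact ⟨n, fun k t => c k (φ t), a, fun k => (hc k).comp hφ, ha, fun t x hx => hs (φ t) x hx⟩

/-! ### The time derivative -/

theorem Sep.dtm_eq {f : ℝ → En d → F} {n : ℕ} {c : Fin n → ℝ → ℝ} {g : Fin n → En d → F}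
    (hc : ∀ k, ContDiff ℝ ((⊤ : ℕ∞) : WithTop ℕ∞) (c k)) (hs : ∀ t, ∀ x ∈ D, f t x = ∑ k, c k t • g k x)
    (t : ℝ) {x : En d} (hx : x ∈ D) : W.dtm f t x = ∑ k, deriv (c k) t • g k x := by
  have h1 : HasDerivAt (fun s => f s x) (∑ k, deriv (c k) t • g k x) t := by
    have h1 : (fun s => f s x) = fun s => ∑ k, c k s • g k x := funext fun s => hs s x hx
    rw [h1]
    exact HasDerivAt.fun_sum fun k _ => (((hc k).differentiable (by simp)) t).hasDerivAt.smul_const (g k x)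
  exact h1.deriv

theorem Sep.dtm_congr {f g : ℝ → En d → F} (h : ∀ t, ∀ x ∈ D, f t x = g t x) (t : ℝ) {x : En d} (hx : x ∈ D) :
    W.dtm f t x = W.dtm g t x := by
  unfold W.dtm
  congr 1
  exact funext fun s => h s x hx

theorem Sep.dtm_of_bd (g : En d → F) (t : ℝ) (x : En d) : W.dtm (fun _ => g) t x = 0 :=
  (hasDerivAt_const t (g x)).deriv

theorem Sep.dtm_add {f g : ℝ → En d → F} (hf : Sep D f) (hg : Sep D g) (t : ℝ) {x : En d} (hx : x ∈ D) :
    W.dtm (fun t x => f t x + g t x) t x = W.dtm f t x + W.dtm g t x :=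
  ((hf.hasDerivAt t hx).add (hg.hasDerivAt t hx)).deriv

theorem Sep.dtm_sub {f g : ℝ → En d → F} (hf : Sep D f) (hg : Sep D g) (t : ℝ) {x : En d} (hx : x ∈ D) :
    W.dtm (fun t x => f t x - g t x) t x = W.dtm f t x - W.dtm g t x :=
  ((hf.hasDerivAt t hx).sub (hg.hasDerivAt t hx)).deriv

theorem Sep.dtm_smul {c : ℝ → ℝ} (hc : ContDiff ℝ ((⊤ : ℕ∞) : WithTop ℕ∞) c) {f : ℝ → En d → F} (hf : Sep D f)
    (t : ℝ) {x : En d} (hx : x ∈ D) :
    W.dtm (fun t x => c t • f t x) t x = c t • W.dtm f t x + deriv c t • f t x :=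
  (((hc.differentiable (by simp)) t).hasDerivAt.smul (hf.hasDerivAt t hx)).deriv

theorem Sep.dtm_bilin (B : F →L[ℝ] G →L[ℝ] E) {f : ℝ → En d → F} {g : ℝ → En d → G} (hf : Sep D f)
    (hg : Sep D g) (t : ℝ) {x : En d} (hx : x ∈ D) :
    W.dtm (fun t x => B (f t x) (g t x)) t x = B (W.dtm f t x) (g t x) + B (f t x) (W.dtm g t x) := by
  have h1 : HasDerivAt (fun s => B (f s x)) (B (W.dtm f t x)) t :=
    B.hasFDerivAt.comp_hasDerivAt t (hf.hasDerivAt t hx)
  exact (h1.clm_apply (hg.hasDerivAt t hx)).deriv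

/-! ### Linear operators -/

/-- a linear operator on functions of the class `BD`, acting at each time -/
theorem Sep.map {T : (En d → F) → En d → G} (hT : ∀ g, BD D g → BD D (T g))
    (hl : ∀ (n : ℕ) (c : Fin n → ℝ) (g : Fin n → En d → F), (∀ k, BD D (g k)) → ∀ x ∈ D,
      T (fun x => ∑ k, c k • g k x) x = ∑ k, c k • T (g k) x)
    (hcg : ∀ g g' : En d → F, (∀ x ∈ D, g x = g' x) → ∀ x ∈ D, T g x = T g' x) {f : ℝ → En d → F} (hf : Sep D f) :
    Sep D (fun t => T (f t)) ∧ ∀ t, ∀ x ∈ D, W.dtm (fun t => T (f t)) t x = T (W.dtm f t) x := by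
  obtain ⟨n, c, a, hc, ha, hs⟩ := hf
  have h1 : ∀ t, ∀ x ∈ D, T (f t) x = ∑ k, c k t • T (a k) x := fun t x hx => by
    rw [hcg (f t) (fun x => ∑ k, c k t • a k x) (fun y hy => hs t y hy) x hx]
    exact hl n (fun k => c k t) a ha x hx
  refine ⟨⟨n, c, fun k => T (a k), hc, fun k => hT _ (ha k), h1⟩, fun t x hx => ?_⟩
  rw [Sep.dtm_eq (f := fun t => T (f t)) hc h1 t hx,
    hcg (W.dtm f t) (fun x => ∑ k, deriv (c k) t • a k x) (fun y hy => Sep.dtm_eq hc hs t hy) x hx]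
  exact (hl n (fun k => deriv (c k) t) a ha x hx).symm

theorem fderiv_sum_on (hD : IsOpen D) {ι : Type} (s : Finset ι) (c : ι → ℝ) {g : ι → En d → F}
    (hg : ∀ k ∈ s, BD D (g k)) {x : En d} (hx : x ∈ D) :
    fderiv ℝ (fun x => ∑ k ∈ s, c k • g k x) x = ∑ k ∈ s, c k • fderiv ℝ (g k) x := by
  have h1 : HasFDerivAt (fun x => ∑ k ∈ s, c k • g k x) (∑ k ∈ s, c k • fderiv ℝ (g k) x) x :=
    HasFDerivAt.fun_sum fun k hk => ((hg k hk).differentiableAt hD hx).hasFDerivAt.const_smul (c k)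
  exact h1.fderiv

theorem Sep.dtm_fderiv (hD : IsOpen D) {f : ℝ → En d → F} (hf : Sep D f) (t : ℝ) {x : En d} (hx : x ∈ D) :
    W.dtm (fun t => _root_.fderiv ℝ (f t)) t x = _root_.fderiv ℝ (W.dtm f t) x :=
  (Sep.map (T := fun g => _root_.fderiv ℝ g) (fun _ hg => hg.fderiv hD)
    (fun _ c _ hg _ hx => fderiv_sum_on hD Finset.univ c (fun k _ => hg k) hx)
    (fun _ _ h _ hx => fderiv_congr_on hD h hx) hf).2 t x hx

theorem Sep.dtm_clm (L : F →L[ℝ] G) {f : ℝ → En d → F} (hf : Sep D f) (t : ℝ) {x : En d}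
    (hx : x ∈ D) : W.dtm (fun t x => L (f t x)) t x = L (W.dtm f t x) :=
  (L.hasFDerivAt.comp_hasDerivAt t (hf.hasDerivAt t hx)).deriv

theorem Sep.dv (hD : IsOpen D) {f : ℝ → En d → En d} (hf : Sep D f) :
    Sep D (fun t => W.dv (f t)) ∧ ∀ t, ∀ x ∈ D, W.dtm (fun t => W.dv (f t)) t x = W.dv (W.dtm f t) x := by
  refine ⟨(hf.fderiv hD).clm hD (trL d), fun t x hx => ?_⟩
  have h5 := (hf.fderiv hD).dtm_clm (trL d) t hx
  rw [hf.dtm_fderiv hD t hx] at h5
  exact h5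

theorem Sep.fun_smul (hD : IsOpen D) {a : ℝ → En d → ℝ} {f : ℝ → En d → F} (ha : Sep D a) (hf : Sep D f) :
    Sep D fun t x => a t x • f t x :=
  Sep.bilin hD (ContinuousLinearMap.lsmul ℝ ℝ) ha hf

/-- the Lie derivative along time dependent fields -/
theorem Sep.lieF₂ (hD : IsOpen D) {W Y : ℝ → En d → En d} (hW : Sep D W) (hY : Sep D Y) :
    Sep D fun t => lieF (W t) (Y t) := by
  have h1 : Sep D fun t x => _root_.fderiv ℝ (Y t) x (W t x) := Sep.apply hD (hY.fderiv hD) hW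
  have h2 : Sep D fun t x => ContinuousLinearMap.adjoint (_root_.fderiv ℝ (W t) x) (Y t x) :=
    Sep.apply hD ((hW.fderiv hD).clm hD (adjL d)) hY
  exact h1.add h2

theorem lieF_sum_on (hD : IsOpen D) (W : En d → En d) {ι : Type} (s : Finset ι) (c : ι → ℝ) {g : ι → En d → En d}
    (hg : ∀ k ∈ s, BD D (g k)) {x : En d} (hx : x ∈ D) :
    lieF W (fun x => ∑ k ∈ s, c k • g k x) x = ∑ k ∈ s, c k • lieF W (g k) x := by
  unfold lieF
  rw [fderiv_sum_on hD s c hg hx, sum_apply, map_sum, ← Finset.sum_add_distrib]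
  exact Finset.sum_congr rfl fun k _ => by rw [smul_add, map_smul]; rfl

theorem lieF_congr_on (hD : IsOpen D) (W : En d → En d) {g g' : En d → En d} (h : ∀ x ∈ D, g x = g' x) {x : En d}
    (hx : x ∈ D) : lieF W g x = lieF W g' x := by
  unfold lieF
  rw [fderiv_congr_on hD h hx, h x hx]

/-- linearity in the vector field -/
theorem lieF_sum_left (hD : IsOpen D) (Y : En d → En d) {ι : Type} (s : Finset ι) (c : ι → ℝ)
    {g : ι → En d → En d} (hg : ∀ k ∈ s, BD D (g k)) {x : En d} (hx : x ∈ D) :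
    lieF (fun x => ∑ k ∈ s, c k • g k x) Y x = ∑ k ∈ s, c k • lieF (g k) Y x := by
  unfold lieF
  rw [fderiv_sum_on hD s c hg hx, map_sum, ← adjL_apply, map_sum, sum_apply, ← Finset.sum_add_distrib]
  exact Finset.sum_congr rfl fun k _ => by rw [smul_add, map_smul, map_smul, ← adjL_apply]; rfl

/-- the Lie derivative along a fixed field -/
theorem Sep.lieF (hD : IsOpen D) {V : En d → En d} (hV : BD D V) {f : ℝ → En d → En d} (hf : Sep D f) :
    Sep D (fun t => W.lieF V (f t)) ∧ ∀ t, ∀ x ∈ D, W.dtm (fun t => W.lieF V (f t)) t x = W.lieF V (W.dtm f t) x :=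
  Sep.map (T := fun g => W.lieF V g) (fun _ hg => BD.lieF hD hV hg)
    (fun _ c _ hg _ hx => lieF_sum_on hD V Finset.univ c (fun k _ => hg k) hx)
    (fun _ _ h _ hx => lieF_congr_on hD V h hx) hf

/-- uniform bounds on the time interval -/
theorem Sep.exists_Bk (hD : IsOpen D) {f : ℝ → En d → F} (hf : Sep D f) (k : ℕ) :
    ∃ M : ℝ, 0 ≤ M ∧ ∀ t ∈ Icc (0:ℝ) 1, Bk D k M (f t) := by
  obtain ⟨n, c, a, hc, ha, hs⟩ := hf
  choose A hA0 hA using fun j => (ha j).exists_Bk k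
  have h1 : ∀ j, ∃ C : ℝ, ∀ t ∈ Icc (0:ℝ) 1, ‖c j t‖ ≤ C := fun j =>
    isCompact_Icc.exists_bound_of_continuousOn (hc j).continuous.continuousOn
  choose C hC using h1
  have hC0 : ∀ j, 0 ≤ C j := fun j => (norm_nonneg _).trans (hC j 0 ⟨le_rfl, zero_le_one⟩)
  refine ⟨∑ j, C j * A j, Finset.sum_nonneg fun j _ => mul_nonneg (hC0 j) (hA0 j), fun t ht i hi x hx => ?_⟩
  have h2 : iteratedFDeriv ℝ i (f t) x = ∑ j, c j t • iteratedFDeriv ℝ i (a j) x := by
    rw [iteratedFDeriv_congr_on hD (hs t) i hx]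
    have h3 : ∀ j ∈ (Finset.univ : Finset (Fin n)), ContDiffAt ℝ (i : WithTop ℕ∞) (fun x => c j t • a j x) x :=
      fun j _ => (((ha j).contDiffAt hD hx).of_le (by exact_mod_cast le_top)).const_smul (c j t)
    rw [iteratedFDeriv_fun_sum_apply h3]
    refine Finset.sum_congr rfl fun j _ => ?_
    exact iteratedFDeriv_const_smul_apply (((ha j).contDiffAt hD hx).of_le (by exact_mod_cast le_top))
  rw [h2]
  refine (norm_sum_le _ _).trans (Finset.sum_le_sum fun j _ => ?_)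
  rw [norm_smul]
  exact mul_le_mul (hC j t ht) (hA j i hi x hx) (norm_nonneg _) (hC0 j)

end

end Pool.Agent.Lib.MP_79abb3_an.W
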