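import Pool.Agent.Lib.MP_79abb3_an.W.EMe
import Pool.Agent.Lib.MP_79abb3_an.W.EFs
import Pool.Agent.Lib.MP_79abb3_an.W.EFa2
import Pool.Agent.Lib.MP_79abb3_an.W.EFc

section

/-!
Theorem W, block EM: the transport equation.
-/

set_option autoImplicit false
set_option linter.unusedSectionVars false

open MeasureTheory Set Filter Topology Function
open scoped ENNReal RealInnerProductSpace

namespace Pool.Agent.Lib.MP_79abb3_an.W

variable {d : ℕ}

namespace Rot
variable (R : Rot d)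

/-- the adjoint as a linear map -/
private noncomputable def emf_adj (d : ℕ) : (En d →L[ℝ] En d) →L[ℝ] (En d →L[ℝ] En d) :=
  LinearMap.mkContinuous
    { toFun := fun A => ContinuousLinearMap.adjoint A
      map_add' := fun A B => map_add _ A B
      map_smul' := fun c A => by simp } 1
    (fun A => by
      rw [one_mul]
      exact (LinearIsometryEquiv.norm_map _ _).le)

private theorem emf_adj_apply (A : En d →L[ℝ] En d) : emf_adj d A = ContinuousLinearMap.adjoint A := rfl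

/-- smoothness of `(t, x) ↦ pb t f x` -/
theorem pb_smo {f : En d → En d} (hf : Smo f) :
    ContDiff ℝ ((⊤ : ℕ∞) : WithTop ℕ∞) fun p : ℝ × En d => R.pb p.1 f p.2 := by
  have h0 : ContDiff ℝ ((⊤ : ℕ∞) : WithTop ℕ∞)
      (Function.uncurry fun (p : ℝ × En d) (y : En d) => R.X p.1 y) :=
    R.X_smo.comp ((contDiff_fst.comp contDiff_fst).prodMk contDiff_snd)
  have h1 : ContDiff ℝ ((⊤ : ℕ∞) : WithTop ℕ∞) fun p : ℝ × En d => fderiv ℝ (R.X p.1) p.2 :=
    ContDiff.fderiv h0 contDiff_snd (by exact_mod_cast le_top)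
  have h2 : ContDiff ℝ ((⊤ : ℕ∞) : WithTop ℕ∞) fun p : ℝ × En d => f (R.X p.1 p.2) :=
    ContDiff.comp hf R.X_smo
  exact ((emf_adj d).contDiff.comp h1).clm_apply h2

private theorem emf_smo (t : ℝ) {f : En d → En d} (hf : Smo f) : Smo (R.pb t f) := by
  have h1 : ContDiff ℝ ((⊤ : ℕ∞) : WithTop ℕ∞) fun x : En d => ((t, x) : ℝ × En d) :=
    contDiff_const.prodMk contDiff_id
  have h2 := ContDiff.comp (R.pb_smo hf) h1
  exact h2

theorem pb_supp {f : En d → En d} {D : Set (En d)} (hD : Metric.closedBall R.c R.r ⊆ D)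
    (hf : IsTe D f) (t : ℝ) : IsTe D (R.pb t f) := by
  have hK : IsCompact (R.X (-t) '' tsupport f) :=
    IsCompact.image hf.cpt (R.X_smo' (-t)).continuous
  have hsub : tsupport (R.pb t f) ⊆ R.X (-t) '' tsupport f := by
    refine closure_minimal (fun x hx => ?_) hK.isClosed
    refine ⟨R.X t x, subset_tsupport _ ?_, R.X_neg t x⟩
    intro h0
    apply hx
    unfold pb
    rw [h0, map_zero]
  refine ⟨R.emf_smo t hf.smooth, hK.of_isClosed_subset (isClosed_tsupport _) hsub, ?_⟩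
  refine hsub.trans ?_
  rintro _ ⟨y, hy, rfl⟩
  exact (R.X_mem hD (-t) y).2 (hf.supp hy)

/-- a common compact set contains the supports -/
theorem pb_cpt {f : En d → En d} (hf : HasCompactSupport f) :
    ∃ K : Set (En d), IsCompact K ∧ ∀ t, tsupport (R.pb t f) ⊆ K := by
  refine ⟨tsupport f ∪ Metric.closedBall R.c R.r, IsCompact.union hf (isCompact_closedBall _ _),
    fun t => ?_⟩
  refine closure_minimal (fun x hx => ?_) ((isClosed_tsupport f).union Metric.isClosed_closedBall)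
  by_contra h
  rw [mem_union, not_or, Metric.mem_closedBall, dist_eq_norm, not_le] at h
  apply hx
  rw [R.pb_out t f h.2]
  exact image_eq_zero_of_notMem_tsupport h.1

/-- the derivative of the vector field -/
private noncomputable def emf_B (x : En d) : En d →L[ℝ] En d :=
  (deriv R.η (‖x - R.c‖ ^ 2) • ((2 : ℝ) • innerSL ℝ (x - R.c))).smulRight (R.J (x - R.c))

private theorem emf_dV (x : En d) :
    HasFDerivAt R.V (R.η (‖x - R.c‖ ^ 2) • R.J + R.emf_B x) x := by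
  have h1 : HasFDerivAt (fun z : En d => z - R.c) (ContinuousLinearMap.id ℝ (En d)) x :=
    (hasFDerivAt_id x).sub_const R.c
  have h2 : HasFDerivAt (fun z : En d => ‖z - R.c‖ ^ 2) ((2 : ℝ) • innerSL ℝ (x - R.c)) x := by
    refine h1.norm_sq.congr_fderiv ?_
    refine ContinuousLinearMap.ext fun z => ?_
    simp [two_mul]
  have h3 : HasDerivAt R.η (deriv R.η (‖x - R.c‖ ^ 2)) (‖x - R.c‖ ^ 2) :=
    ((R.smo.differentiable (by norm_num)) _).hasDerivAt
  have h4 := h3.comp_hasFDerivAt x h2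
  have h5 : HasFDerivAt (fun z : En d => R.J (z - R.c)) (R.J.comp (ContinuousLinearMap.id ℝ (En d))) x :=
    R.J.hasFDerivAt.comp x h1
  exact h4.smul h5

private theorem emf_dA (x : En d) :
    HasDerivAt (fun s => fderiv ℝ (R.X s) x) (R.η (‖x - R.c‖ ^ 2) • R.J + R.emf_B x) 0 := by
  have e : (fun s => fderiv ℝ (R.X s) x) = fun s =>
      (R.rot (s * R.η (‖x - R.c‖ ^ 2))).comp (ContinuousLinearMap.id ℝ (En d) + s • R.emf_B x) := by
    funext s
    refine ContinuousLinearMap.ext fun h => ?_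
    rw [R.X_fderiv]
    show _ = R.rot (s * R.η (‖x - R.c‖ ^ 2)) (h + s • R.emf_B x h)
    congr 2
    unfold emf_B
    simp only [ContinuousLinearMap.smulRight_apply, ContinuousLinearMap.smul_apply, innerSL_apply_apply,
      smul_smul, smul_eq_mul]
    congr 1
    ring
  rw [e]
  have h1 : HasDerivAt (fun s : ℝ => s * R.η (‖x - R.c‖ ^ 2)) (R.η (‖x - R.c‖ ^ 2)) 0 :=
    hasDerivAt_mul_const _
  have h2 := (R.rot_deriv (0 * R.η (‖x - R.c‖ ^ 2))).scomp 0 h1
  have h3 : HasDerivAt (fun s : ℝ => ContinuousLinearMap.id ℝ (En d) + s • R.emf_B x) (R.emf_B x) 0 := by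
    have := ((hasDerivAt_id (0 : ℝ)).smul_const (R.emf_B x)).const_add (ContinuousLinearMap.id ℝ (En d))
    simpa using this
  have h4 := h2.clm_comp h3
  refine h4.congr_deriv ?_
  refine ContinuousLinearMap.ext fun h => ?_
  simp [R.rot_zero]

private theorem emf_zero {g : En d → En d} (hg : Smo g) (x : En d) :
    HasDerivAt (fun s => R.pb s g x) (lieF R.V g x) 0 := by
  have h1 : HasDerivAt (fun s => emf_adj d (fderiv ℝ (R.X s) x))
      (emf_adj d (R.η (‖x - R.c‖ ^ 2) • R.J + R.emf_B x)) 0 :=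
    (emf_adj d).hasFDerivAt.comp_hasDerivAt 0 (R.emf_dA x)
  have h2 : HasDerivAt (fun s => g (R.X s x)) (fderiv ℝ g x (R.V x)) 0 := by
    have h3 := (hg.differentiable (R.X 0 x)).hasFDerivAt.comp_hasDerivAt 0 (R.X_deriv 0 x)
    rw [R.X_zero] at h3
    exact h3
  have h4 := h1.clm_apply h2
  refine h4.congr_deriv ?_
  have h5 : emf_adj d (fderiv ℝ (R.X 0) x) (fderiv ℝ g x (R.V x)) = fderiv ℝ g x (R.V x) :=
    congrFun (R.pb_zero fun _ => fderiv ℝ g x (R.V x)) x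
  rw [h5, R.X_zero]
  unfold lieF
  rw [(R.emf_dV x).fderiv, emf_adj_apply, add_comm]

/-- **The transport equation**: `d/dt X_t^* f = L_V X_t^* f`. Proof: `pb (t + h) f = pb h (pb t f)`, so it is enough
to differentiate `pb h g x = (D X_h(x))^T g(X_h x)` at `h = 0` (`X` is smooth in `(t, x)`, `X_deriv`). -/
theorem pb_deriv {f : En d → En d} (hf : Smo f) (t : ℝ) (x : En d) :
    HasDerivAt (fun s => R.pb s f x) (lieF R.V (R.pb t f) x) t := by
  have h0 : HasDerivAt (fun s => R.pb s (R.pb t f) x) (lieF R.V (R.pb t f) x) (t - t) := by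
    rw [sub_self]
    exact R.emf_zero (R.emf_smo t hf) x
  have h1 := h0.comp_sub_const t t
  have e : (fun s => R.pb (s - t) (R.pb t f) x) = fun s => R.pb s f x := by
    funext s
    rw [← R.pb_add, sub_add_cancel]
  rw [e] at h1
  exact h1

end Rot

end Pool.Agent.Lib.MP_79abb3_an.W
end

section

/-!
Theorem W, block EF: bounds for the transported one form `G(s) = pb (-s) f`.
-/

set_option autoImplicit false
set_option linter.unusedSectionVars false

open MeasureTheory Set Filter Topology Function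
open scoped ENNReal RealInnerProductSpace

namespace Pool.Agent.Lib.MP_79abb3_an.W

variable {d : ℕ}

section aux
variable {E : Type} [NormedAddCommGroup E] [NormedSpace ℝ E]

private theorem efb_inr {H : ℝ × En d → E} (hH : ContDiff ℝ ((⊤ : ℕ∞) : WithTop ℕ∞) H) (s : ℝ) (x : En d) :
    fderiv ℝ (fun x => H (s, x)) x = (fderiv ℝ H (s, x)).comp (ContinuousLinearMap.inr ℝ ℝ (En d)) := by
  have h1 : HasFDerivAt (fun x : En d => (s, x)) (ContinuousLinearMap.inr ℝ ℝ (En d)) x :=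
    hasFDerivAt_prodMk_right s x
  exact (((hH.differentiable (by simp)) (s, x)).hasFDerivAt.comp x h1).fderiv

private theorem efb_smo {H : ℝ × En d → E} (hH : ContDiff ℝ ((⊤ : ℕ∞) : WithTop ℕ∞) H) :
    ContDiff ℝ ((⊤ : ℕ∞) : WithTop ℕ∞) fun p : ℝ × En d => fderiv ℝ (fun x => H (p.1, x)) p.2 := by
  have h1 : (fun p : ℝ × En d => fderiv ℝ (fun x => H (p.1, x)) p.2) = fun p =>
      (fderiv ℝ H p).comp (ContinuousLinearMap.inr ℝ ℝ (En d)) := funext fun p => efb_inr hH p.1 p.2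
  rw [h1]
  exact (hH.fderiv_right (m := ((⊤ : ℕ∞) : WithTop ℕ∞)) (by simp)).clm_comp contDiff_const

/-- exchange of the derivatives in time and space -/
private theorem efb_der {H H' : ℝ × En d → E} (hH : ContDiff ℝ ((⊤ : ℕ∞) : WithTop ℕ∞) H)
    (h : ∀ s x, HasDerivAt (fun s => H (s, x)) (H' (s, x)) s) (s : ℝ) (x : En d) :
    HasDerivAt (fun s => fderiv ℝ (fun x => H (s, x)) x) (fderiv ℝ (fun x => H' (s, x)) x) s := by
  have hd : ∀ p, HasFDerivAt H (fderiv ℝ H p) p := fun p => ((hH.differentiable (by simp)) p).hasFDerivAt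
  have hH1 : ContDiff ℝ ((⊤ : ℕ∞) : WithTop ℕ∞) (fderiv ℝ H) :=
    hH.fderiv_right (m := ((⊤ : ℕ∞) : WithTop ℕ∞)) (by simp)
  have hd1 : ∀ p, HasFDerivAt (fderiv ℝ H) (fderiv ℝ (fderiv ℝ H) p) p := fun p =>
    ((hH1.differentiable (by simp)) p).hasFDerivAt
  have hl : ∀ (s : ℝ) (x : En d), HasDerivAt (fun s : ℝ => ((s, x) : ℝ × En d)) (1, 0) s := fun s x =>
    (hasDerivAt_id s).prodMk (hasDerivAt_const s x)
  have e1 : ∀ s x, H' (s, x) = fderiv ℝ H (s, x) (1, 0) := fun s x =>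
    (h s x).unique ((hd (s, x)).comp_hasDerivAt s (hl s x))
  have h3 : HasDerivAt (fun s => fderiv ℝ H (s, x)) (fderiv ℝ (fderiv ℝ H) (s, x) (1, 0)) s :=
    (hd1 (s, x)).comp_hasDerivAt s (hl s x)
  have h4 := h3.clm_comp (hasDerivAt_const s (ContinuousLinearMap.inr ℝ ℝ (En d)))
  have e2 : (fun s => fderiv ℝ (fun x => H (s, x)) x) = fun s =>
      (fderiv ℝ H (s, x)).comp (ContinuousLinearMap.inr ℝ ℝ (En d)) := funext fun s => efb_inr hH s x
  rw [e2]
  refine h4.congr_deriv ?_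
  have e3 : (fun x => H' (s, x)) = fun x => fderiv ℝ H (s, x) (1, 0) := funext fun x => e1 s x
  have hr : HasFDerivAt (fun x : En d => (s, x)) (ContinuousLinearMap.inr ℝ ℝ (En d)) x :=
    hasFDerivAt_prodMk_right s x
  have h5 : HasFDerivAt (fun x => fderiv ℝ H (s, x)) ((fderiv ℝ (fderiv ℝ H) (s, x)).comp
      (ContinuousLinearMap.inr ℝ ℝ (En d))) x := (hd1 (s, x)).comp x hr
  have h6 := ((ContinuousLinearMap.apply ℝ E ((1, 0) : ℝ × En d)).hasFDerivAt
    (x := fderiv ℝ H (s, x))).comp x h5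
  rw [e3]
  have h7 : fderiv ℝ (fun x => fderiv ℝ H (s, x) (1, 0)) x = _ := h6.fderiv
  rw [h7]
  apply ContinuousLinearMap.ext
  intro v
  have h2 : minSmoothness ℝ 2 ≤ ((⊤ : ℕ∞) : WithTop ℕ∞) := by
    rw [minSmoothness_of_isRCLikeNormedField]
    exact WithTop.coe_le_coe.2 (le_top : (2 : ℕ∞) ≤ ⊤)
  have hs := (hH.contDiffAt (x := (s, x))).isSymmSndFDerivAt h2 (1, 0) (0, v)
  rw [ContinuousLinearMap.comp_zero, add_zero]
  exact hs

/-- uniform bounds of the derivatives in `x` of a family with a common compact support -/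
private theorem efb_bd (K : Set (En d)) (hK : IsCompact K) (j : ℕ) :
    ∀ {E : Type} [NormedAddCommGroup E] [NormedSpace ℝ E] (H : ℝ × En d → E),
    ContDiff ℝ ((⊤ : ℕ∞) : WithTop ℕ∞) H → (∀ s x, x ∉ K → H (s, x) = 0) →
    ∃ M : ℝ, 0 ≤ M ∧ ∀ s ∈ Icc (0:ℝ) 1, ∀ x, ‖iteratedFDeriv ℝ j (fun x => H (s, x)) x‖ ≤ M := by
  induction j with
  | zero =>
    intro E _ _ H hH h0
    obtain ⟨C, hC⟩ := ((isCompact_Icc (a := (0:ℝ)) (b := 1)).prod hK).exists_bound_of_continuousOn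
      (f := H) hH.continuous.continuousOn
    refine ⟨max C 0, le_max_right _ _, fun s hs x => ?_⟩
    rw [norm_iteratedFDeriv_zero]
    by_cases hx : x ∈ K
    · exact (hC (s, x) ⟨hs, hx⟩).trans (le_max_left _ _)
    · rw [h0 s x hx, norm_zero]
      exact le_max_right _ _
  | succ j ih =>
    intro E _ _ H hH h0
    obtain ⟨M, hM0, hM⟩ := ih (fun p : ℝ × En d => fderiv ℝ (fun x => H (p.1, x)) p.2) (efb_smo hH)
      (fun s x hx => by
        have h1 : (fun x => H (s, x)) =ᶠ[𝓝 x] fun _ => 0 := by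
          filter_upwards [hK.isClosed.isOpen_compl.mem_nhds hx] with y hy
          exact h0 s y hy
        show fderiv ℝ (fun x => H (s, x)) x = 0
        rw [h1.fderiv_eq, fderiv_fun_const]
        rfl)
    refine ⟨M, hM0, fun s hs x => ?_⟩
    rw [← norm_iteratedFDeriv_fderiv]
    exact hM s hs x

private theorem efb_lie_out {V g : En d → En d} {x : En d} (hx : x ∉ tsupport g) : lieF V g x = 0 := by
  have h0 : g =ᶠ[𝓝 x] fun _ => 0 := notMem_tsupport_iff_eventuallyEq.1 hx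
  have h1 : fderiv ℝ g x = 0 := by
    rw [h0.fderiv_eq, fderiv_fun_const]
    rfl
  unfold lieF
  rw [h1, h0.eq_of_nhds, map_zero, add_zero]
  rfl

private theorem efb_lie_supp {V g : En d → En d} : tsupport (fun x => -lieF V g x) ⊆ tsupport g := by
  refine closure_minimal (fun x hx => ?_) (isClosed_tsupport g)
  by_contra h1
  exact hx (by show -lieF V g x = 0; rw [efb_lie_out h1, neg_zero])

private theorem efb_adj {V : En d → En d} (hV : Smo V) :
    ContDiff ℝ ((⊤ : ℕ∞) : WithTop ℕ∞) fun x => ContinuousLinearMap.adjoint (fderiv ℝ V x) :=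
  (ContinuousLinearMap.adjoint (𝕜 := ℝ) (E := En d) (F := En d)).toContinuousLinearEquiv.contDiff.comp
    (ContDiff.fderiv_right hV (m := ((⊤ : ℕ∞) : WithTop ℕ∞)) (by simp))

private theorem efb_lie_smo {V : En d → En d} (hV : Smo V) {H : ℝ × En d → En d}
    (hH : ContDiff ℝ ((⊤ : ℕ∞) : WithTop ℕ∞) H) :
    ContDiff ℝ ((⊤ : ℕ∞) : WithTop ℕ∞) fun p : ℝ × En d => -lieF V (fun x => H (p.1, x)) p.2 := by
  unfold lieF
  refine ContDiff.neg (ContDiff.add ?_ ?_)
  · exact (efb_smo hH).clm_apply (ContDiff.comp hV contDiff_snd)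
  · exact ((efb_adj hV).comp contDiff_snd).clm_apply hH

private theorem efb_lie_te {V g : En d → En d} (hV : Smo V) {O : Set (En d)} (hg : IsTe O g) :
    IsTe O fun x => -lieF V g x := by
  refine ⟨?_, ?_, efb_lie_supp.trans hg.supp⟩
  · unfold lieF
    refine ContDiff.neg (ContDiff.add ?_ ?_)
    · exact (ContDiff.fderiv_right hg.smooth (m := ((⊤ : ℕ∞) : WithTop ℕ∞)) (by simp)).clm_apply hV
    · exact (efb_adj hV).clm_apply hg.smooth
  · exact hg.cpt.of_isClosed_subset (isClosed_tsupport _) efb_lie_supp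

end aux

namespace Rot
variable (R : Rot d)

private theorem efb_V : Smo R.V := by
  have h1 : ContDiff ℝ ((⊤ : ℕ∞) : WithTop ℕ∞) fun x : En d => x - R.c := contDiff_id.sub contDiff_const
  exact (R.smo.comp (h1.norm_sq ℝ)).smul (R.J.contDiff.comp h1)

/-- the transported one form and its time derivatives -/
noncomputable def G0 (f : En d → En d) (s : ℝ) : En d → En d := R.pb (-s) f
noncomputable def G1 (f : En d → En d) (s : ℝ) : En d → En d := fun x => -lieF R.V (R.G0 f s) x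
noncomputable def G2 (f : En d → En d) (s : ℝ) : En d → En d := fun x => -lieF R.V (R.G1 f s) x

private theorem efb_G0 {f : En d → En d} (hf : Smo f) :
    ContDiff ℝ ((⊤ : ℕ∞) : WithTop ℕ∞) fun p : ℝ × En d => R.G0 f p.1 p.2 := by
  have h0 : ContDiff ℝ ((⊤ : ℕ∞) : WithTop ℕ∞) fun p : ℝ × En d => ((-p.1, p.2) : ℝ × En d) :=
    contDiff_fst.neg.prodMk contDiff_snd
  have h := (R.pb_smo hf).comp h0
  have e : (fun p : ℝ × En d => R.G0 f p.1 p.2) = (fun p : ℝ × En d => R.pb p.1 f p.2) ∘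
    fun p : ℝ × En d => ((-p.1, p.2) : ℝ × En d) := rfl
  rw [e]
  exact h

private theorem efb_G1 {f : En d → En d} (hf : Smo f) :
    ContDiff ℝ ((⊤ : ℕ∞) : WithTop ℕ∞) fun p : ℝ × En d => R.G1 f p.1 p.2 :=
  efb_lie_smo R.efb_V (R.efb_G0 hf)

private theorem efb_G2 {f : En d → En d} (hf : Smo f) :
    ContDiff ℝ ((⊤ : ℕ∞) : WithTop ℕ∞) fun p : ℝ × En d => R.G2 f p.1 p.2 :=
  efb_lie_smo R.efb_V (R.efb_G1 hf)

theorem G0_deriv {f : En d → En d} (hf : Smo f) (s : ℝ) (x : En d) :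
    HasDerivAt (fun s => R.G0 f s x) (R.G1 f s x) s := by
  have h1 := (R.pb_deriv hf (-s) x).scomp s (hasDerivAt_neg s)
  refine h1.congr_deriv ?_
  show (-1 : ℝ) • lieF R.V (R.pb (-s) f) x = -lieF R.V (R.pb (-s) f) x
  rw [neg_one_smul]

theorem G1_deriv {f : En d → En d} (hf : Smo f) (s : ℝ) (x : En d) :
    HasDerivAt (fun s => R.G1 f s x) (R.G2 f s x) s := by
  have h1 : HasDerivAt (fun s => fderiv ℝ (R.G0 f s) x) (fderiv ℝ (R.G1 f s) x) s :=
    efb_der (H := fun p => R.G0 f p.1 p.2) (H' := fun p => R.G1 f p.1 p.2) (R.efb_G0 hf)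
      (fun s x => R.G0_deriv hf s x) s x
  have h2 : HasDerivAt (fun s => fderiv ℝ (R.G0 f s) x (R.V x)) (fderiv ℝ (R.G1 f s) x (R.V x)) s :=
    ((ContinuousLinearMap.apply ℝ (En d) (R.V x)).hasFDerivAt).comp_hasDerivAt s h1
  have h3 : HasDerivAt (fun s => ContinuousLinearMap.adjoint (fderiv ℝ R.V x) (R.G0 f s x))
      (ContinuousLinearMap.adjoint (fderiv ℝ R.V x) (R.G1 f s x)) s :=
    ((ContinuousLinearMap.adjoint (fderiv ℝ R.V x)).hasFDerivAt).comp_hasDerivAt s (R.G0_deriv hf s x)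
  exact (h2.add h3).neg

/-- the derivatives in `x`: `D_x G0`, `D_x G1`, `D_x G2` -/
theorem G0_fderiv_deriv {f : En d → En d} (hf : Smo f) (s : ℝ) (x : En d) :
    HasDerivAt (fun s => fderiv ℝ (R.G0 f s) x) (fderiv ℝ (R.G1 f s) x) s :=
  efb_der (H := fun p => R.G0 f p.1 p.2) (H' := fun p => R.G1 f p.1 p.2) (R.efb_G0 hf)
    (fun s x => R.G0_deriv hf s x) s x

theorem G1_fderiv_deriv {f : En d → En d} (hf : Smo f) (s : ℝ) (x : En d) :
    HasDerivAt (fun s => fderiv ℝ (R.G1 f s) x) (fderiv ℝ (R.G2 f s) x) s :=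
  efb_der (H := fun p => R.G1 f p.1 p.2) (H' := fun p => R.G2 f p.1 p.2) (R.efb_G1 hf)
    (fun s x => R.G1_deriv hf s x) s x

theorem G_te {O : Set (En d)} (hO : Metric.closedBall R.c R.r ⊆ O) {f : En d → En d} (hf : IsTe O f) (s : ℝ) :
    IsTe O (R.G0 f s) ∧ IsTe O (R.G1 f s) ∧ IsTe O (R.G2 f s) := by
  have h0 : IsTe O (R.G0 f s) := R.pb_supp hO hf (-s)
  have h1 : IsTe O (R.G1 f s) := efb_lie_te R.efb_V h0
  exact ⟨h0, h1, efb_lie_te R.efb_V h1⟩

/-- uniform bounds of all derivatives in `x` -/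
theorem G_bd {f : En d → En d} (hf : Smo f) (hc : HasCompactSupport f) (k : ℕ) :
    ∃ M : ℝ, 0 ≤ M ∧ ∀ s ∈ Icc (0:ℝ) 1, ∀ j ≤ k, ∀ x, ‖iteratedFDeriv ℝ j (R.G0 f s) x‖ ≤ M ∧
      ‖iteratedFDeriv ℝ j (R.G1 f s) x‖ ≤ M ∧ ‖iteratedFDeriv ℝ j (R.G2 f s) x‖ ≤ M := by
  obtain ⟨K, hK, hKs⟩ := R.pb_cpt hc
  have s0 : ∀ s, tsupport (R.G0 f s) ⊆ K := fun s => hKs (-s)
  have s1 : ∀ s, tsupport (R.G1 f s) ⊆ K := fun s => efb_lie_supp.trans (s0 s)
  have s2 : ∀ s, tsupport (R.G2 f s) ⊆ K := fun s => efb_lie_supp.trans (s1 s)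
  choose M0 hM0 h0 using fun j => efb_bd K hK j (fun p : ℝ × En d => R.G0 f p.1 p.2) (R.efb_G0 hf)
    (fun s x hx => image_eq_zero_of_notMem_tsupport fun h => hx (s0 s h))
  choose M1 hM1 h1 using fun j => efb_bd K hK j (fun p : ℝ × En d => R.G1 f p.1 p.2) (R.efb_G1 hf)
    (fun s x hx => image_eq_zero_of_notMem_tsupport fun h => hx (s1 s h))
  choose M2 hM2 h2 using fun j => efb_bd K hK j (fun p : ℝ × En d => R.G2 f p.1 p.2) (R.efb_G2 hf)
    (fun s x hx => image_eq_zero_of_notMem_tsupport fun h => hx (s2 s h))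
  have hle : ∀ j ≤ k, M0 j + M1 j + M2 j ≤ ∑ j ∈ Finset.range (k + 1), (M0 j + M1 j + M2 j) := by
    intro j hj
    refine Finset.single_le_sum (f := fun j => M0 j + M1 j + M2 j) (fun i _ => ?_)
      (Finset.mem_range.2 (Nat.lt_succ_of_le hj))
    have := hM0 i
    have := hM1 i
    have := hM2 i
    positivity
  refine ⟨∑ j ∈ Finset.range (k + 1), (M0 j + M1 j + M2 j), Finset.sum_nonneg fun i _ => ?_,
    fun s hs j hj x => ?_⟩
  · have := hM0 i
    have := hM1 i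
    have := hM2 i
    positivity
  · have e := hle j hj
    have a0 := hM0 j
    have a1 := hM1 j
    have a2 := hM2 j
    exact ⟨(h0 j s hs x).trans (by linarith), (h1 j s hs x).trans (by linarith),
      (h2 j s hs x).trans (by linarith)⟩

theorem G0_zero (f : En d → En d) : R.G0 f 0 = f := by
  unfold G0
  rw [neg_zero, R.pb_zero]

theorem G0_one (f : En d → En d) : R.G0 f 1 = R.pb (-1) f := rfl

end Rot

end Pool.Agent.Lib.MP_79abb3_an.W
end

section

/-!
Theorem W, block EF: **the slow field**. The one form `G(s) = pb (-s) f` transported by the rotation `R` is approximated by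
a finite sum `F t = ∑ c_k(t) g_k` of fields of the class `BD`; `Y t` is its Leray projection. Time is the clock `s(t)`.
-/

set_option autoImplicit false
set_option linter.unusedSectionVars false

open MeasureTheory Set Filter Topology Function
open scoped ENNReal RealInnerProductSpace

namespace Pool.Agent.Lib.MP_79abb3_an.W

variable {d : ℕ} {D : Set (En d)} {z : En d → ℝ} {δ : ℝ}

theorem gradient_sum_on (hD : IsOpen D) {ι : Type} (s : Finset ι) (c : ι → ℝ) {q : ι → En d → ℝ}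
    (hq : ∀ k ∈ s, BD D (q k)) {x : En d} (hx : x ∈ D) :
    gradient (fun x => ∑ k ∈ s, c k • q k x) x = ∑ k ∈ s, c k • gradient (q k) x := by
  unfold gradient
  rw [fderiv_sum_on hD s c hq hx, map_sum]
  exact Finset.sum_congr rfl fun k _ => by simp

theorem dv_sum_on (hD : IsOpen D) {ι : Type} (s : Finset ι) (c : ι → ℝ) {v : ι → En d → En d}
    (hv : ∀ k ∈ s, BD D (v k)) {x : En d} (hx : x ∈ D) :
    dv (fun x => ∑ k ∈ s, c k • v k x) x = ∑ k ∈ s, c k • dv (v k) x := by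
  rw [dv_eq, fderiv_sum_on hD s c hv hx, map_sum]
  exact Finset.sum_congr rfl fun k _ => by rw [map_smul, dv_eq]

theorem Oz_sum {F : Type} [NormedAddCommGroup F] [NormedSpace ℝ F] {ι : Type} (s : Finset ι) (c : ι → ℝ)
    {g : ι → En d → F} (hg : ∀ k ∈ s, Oz D z (g k)) : Oz D z fun x => ∑ k ∈ s, c k • g k x := by
  have h1 : ∀ k, ∃ C, k ∈ s → ∀ x ∈ D, ‖g k x‖ ≤ C * z x := fun k => by
    by_cases hk : k ∈ s
    · obtain ⟨C, hC⟩ := hg k hk
      exact ⟨C, fun _ => hC⟩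
    · exact ⟨0, fun h => absurd h hk⟩
  choose C hC using h1
  refine ⟨∑ k ∈ s, |c k| * C k, fun x hx => ?_⟩
  refine (norm_sum_le _ _).trans ?_
  rw [Finset.sum_mul]
  refine Finset.sum_le_sum fun k hk => ?_
  rw [norm_smul, Real.norm_eq_abs, mul_assoc]
  exact mul_le_mul_of_nonneg_left (hC k hk x hx) (abs_nonneg _)

/-- finite sums -/
theorem IsLr.sum (hD : IsOpen D) {ι : Type} (s : Finset ι) (c : ι → ℝ) {F v : ι → En d → En d}
    (h : ∀ k ∈ s, IsLr D z (F k) (v k)) :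
    IsLr D z (fun x => ∑ k ∈ s, c k • F k x) (fun x => ∑ k ∈ s, c k • v k x) := by
  have h1 : ∀ k, ∃ q : En d → ℝ, k ∈ s → BD D q ∧ ∀ x ∈ D, F k x = v k x + gradient q x := fun k => by
    by_cases hk : k ∈ s
    · obtain ⟨q, hq⟩ := (h k hk).gr
      exact ⟨q, fun _ => hq⟩
    · exact ⟨fun _ => 0, fun h => absurd h hk⟩
  choose q hq using h1
  refine ⟨BD.sum hD s fun k hk => (h k hk).bd.const_smul hD (c k), fun x hx => ?_, ?_, ?_⟩
  · rw [dv_sum_on hD s c (fun k hk => (h k hk).bd) hx]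
    exact Finset.sum_eq_zero fun k hk => by rw [(h k hk).div x hx, smul_zero]
  · obtain ⟨C, hC⟩ := Oz_sum s c fun k hk => (h k hk).tan
    refine ⟨C, fun x hx => ?_⟩
    have h2 : ⟪gradient z x, ∑ k ∈ s, c k • v k x⟫ = ∑ k ∈ s, c k • ⟪gradient z x, v k x⟫ := by
      rw [inner_sum]
      exact Finset.sum_congr rfl fun k _ => by rw [inner_smul_right, smul_eq_mul]
    show ‖⟪gradient z x, ∑ k ∈ s, c k • v k x⟫‖ ≤ C * z x
    rw [h2]
    exact hC x hx
  · refine ⟨fun x => ∑ k ∈ s, c k • q k x, BD.sum hD s fun k hk => (hq k hk).1.const_smul hD (c k),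
      fun x hx => ?_⟩
    rw [gradient_sum_on hD s c (fun k hk => (hq k hk).1) hx, ← Finset.sum_add_distrib]
    exact Finset.sum_congr rfl fun k hk => by rw [(hq k hk).2 x hx, smul_add]

theorem IsLr.congr_left {F F' v : En d → En d} (h : IsLr D z F v) (hF : ∀ x ∈ D, F' x = F x) : IsLr D z F' v := by
  obtain ⟨q, hq, hq2⟩ := h.gr
  exact ⟨h.bd, h.div, h.tan, q, hq, fun x hx => by rw [hF x hx, hq2 x hx]⟩

theorem iter_sum_on {F : Type} [NormedAddCommGroup F] [NormedSpace ℝ F] (hD : IsOpen D) (i : ℕ) {ι : Type}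
    (s : Finset ι) (c : ι → ℝ) {g : ι → En d → F} (hg : ∀ k ∈ s, BD D (g k)) {x : En d} (hx : x ∈ D) :
    iteratedFDeriv ℝ i (fun x => ∑ k ∈ s, c k • g k x) x = ∑ k ∈ s, c k • iteratedFDeriv ℝ i (g k) x := by
  have h3 : ∀ j ∈ s, ContDiffAt ℝ (i : WithTop ℕ∞) (fun x => c j • g j x) x :=
    fun j hj => (((hg j hj).contDiffAt hD hx).of_le (by exact_mod_cast le_top)).const_smul (c j)
  rw [iteratedFDeriv_fun_sum_apply h3]
  refine Finset.sum_congr rfl fun j hj => ?_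
  exact iteratedFDeriv_const_smul_apply (((hg j hj).contDiffAt hD hx).of_le (by exact_mod_cast le_top))

/-- the approximation of a curve of functions -/
noncomputable def apf {F : Type} [NormedAddCommGroup F] [NormedSpace ℝ F] (n : ℕ) (G G' : ℝ → En d → F) (s : ℝ)
    (x : En d) : F := apx n (fun s => G s x) (fun s => G' s x) s

/-- the coefficients -/
noncomputable def apc (n : ℕ) (k : ℕ × Bool) (s : ℝ) : ℝ := if k.2 then ha n k.1 s else hb n k.1 s

/-- the functions -/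
noncomputable def apg {X : Type} (n : ℕ) (G G' : ℝ → X) (k : ℕ × Bool) : X :=
  if k.2 then G (k.1 / n) else G' (k.1 / n)

/-- the index set -/
def aps (n : ℕ) : Finset (ℕ × Bool) := Finset.range (n + 1) ×ˢ (Finset.univ : Finset Bool)

theorem apc_smo (n : ℕ) (k : ℕ × Bool) : ContDiff ℝ ((⊤ : ℕ∞) : WithTop ℕ∞) (apc n k) := by
  have h1 : ContDiff ℝ ((⊤ : ℕ∞) : WithTop ℕ∞) (ha n k.1) :=
    hat_smo.comp ((contDiff_const.mul contDiff_id).sub contDiff_const)
  have h2 : ContDiff ℝ ((⊤ : ℕ∞) : WithTop ℕ∞) (hb n k.1) :=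
    h1.mul (contDiff_id.sub contDiff_const)
  unfold apc
  rcases k with ⟨k, _ | _⟩
  · simpa using h2
  · simpa using h1

theorem apx_eq {X : Type} [NormedAddCommGroup X] [NormedSpace ℝ X] (n : ℕ) (G G' : ℝ → X) (s : ℝ) :
    apx n G G' s = ∑ k ∈ aps n, apc n k s • apg n G G' k := by
  unfold apx aps apc apg
  rw [Finset.sum_product]
  refine Finset.sum_congr rfl fun k _ => ?_
  rw [Fintype.sum_bool]
  simp

theorem apg_apply {F : Type} (n : ℕ) (G G' : ℝ → En d → F) (k : ℕ × Bool) (x : En d) :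
    apg n G G' k x = apg n (fun s => G s x) (fun s => G' s x) k := by
  unfold apg
  rcases k with ⟨k, _ | _⟩ <;> simp

section
variable {F : Type} [NormedAddCommGroup F] [NormedSpace ℝ F]

/-- `apf` is a finite sum -/
theorem apf_eq (n : ℕ) (G G' : ℝ → En d → F) (s : ℝ) (x : En d) :
    apf n G G' s x = ∑ k ∈ aps n, apc n k s • apg n G G' k x := by
  unfold apf
  rw [apx_eq]
  exact Finset.sum_congr rfl fun k _ => by rw [apg_apply]

theorem apf_eq' (n : ℕ) (G G' : ℝ → En d → F) (s : ℝ) :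
    apf n G G' s = fun x => ∑ k ∈ aps n, apc n k s • apg n G G' k x := funext fun x => apf_eq n G G' s x

theorem apg_mem {X : Type} (n : ℕ) {G G' : ℝ → X} {P : X → Prop} (hG : ∀ s, P (G s)) (hG' : ∀ s, P (G' s))
    (k : ℕ × Bool) : P (apg n G G' k) := by
  unfold apg
  rcases k with ⟨k, _ | _⟩
  · simpa using hG' _
  · simpa using hG _

theorem apf_sep (n : ℕ) {G G' : ℝ → En d → F} (hG : ∀ s, BD D (G s)) (hG' : ∀ s, BD D (G' s))
    {s : ℝ → ℝ} (hs : ContDiff ℝ ((⊤ : ℕ∞) : WithTop ℕ∞) s) : Sep D fun t => apf n G G' (s t) :=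
  Sep.of_finset (aps n) (fun k t => apc n k (s t)) (fun k => apg n G G' k) (fun k _ => (apc_smo n k).comp hs)
    (fun k _ => apg_mem n (P := BD D) hG hG' k) fun t x _ => apf_eq n G G' (s t) x

/-- bounds -/
theorem apf_Bk (hD : IsOpen D) {n : ℕ} (hn : 1 ≤ n) {G G' : ℝ → En d → F} (hG : ∀ s, BD D (G s))
    (hG' : ∀ s, BD D (G' s)) {k : ℕ} {A B : ℝ} (hA : ∀ s ∈ Icc (0:ℝ) 1, Bk D k A (G s))
    (hB : ∀ s ∈ Icc (0:ℝ) 1, Bk D k B (G' s)) {s : ℝ} (hs : s ∈ Icc (0:ℝ) 1) : Bk D k (A + B) (apf n G G' s) := by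
  intro j hj x hx
  have h1 : iteratedFDeriv ℝ j (apf n G G' s) x =
      apx n (fun s => iteratedFDeriv ℝ j (G s) x) (fun s => iteratedFDeriv ℝ j (G' s) x) s := by
    rw [apf_eq', iter_sum_on hD j (aps n) (fun k => apc n k s) (fun k _ => apg_mem n (P := BD D) hG hG' k) hx,
      apx_eq]
    refine Finset.sum_congr rfl fun k _ => ?_
    congr 1
    unfold apg
    rcases k with ⟨k, _ | _⟩ <;> simp
  rw [h1]
  exact apx_le hn (fun s hs => hA s hs j hj x hx) (fun s hs => hB s hs j hj x hx) hs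

/-- the derivative in space -/
theorem apf_fderiv (hD : IsOpen D) (n : ℕ) {G G' : ℝ → En d → F} (hG : ∀ s, BD D (G s))
    (hG' : ∀ s, BD D (G' s)) (s : ℝ) {x : En d} (hx : x ∈ D) :
    fderiv ℝ (apf n G G' s) x = apx n (fun s => fderiv ℝ (G s) x) (fun s => fderiv ℝ (G' s) x) s := by
  rw [apf_eq', fderiv_sum_on hD (aps n) (fun k => apc n k s) (fun k _ => apg_mem n (P := BD D) hG hG' k) hx,
    apx_eq]
  refine Finset.sum_congr rfl fun k _ => ?_
  congr 1
  unfold apg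
  rcases k with ⟨k, _ | _⟩ <;> simp

/-- the derivative in time -/
theorem apf_dtm (n : ℕ) (G G' : ℝ → En d → F) {s : ℝ → ℝ} {s' : ℝ} {t : ℝ} (hs : HasDerivAt s s' t) (x : En d) :
    dtm (fun t => apf n G G' (s t)) t x = s' • deriv (apx n (fun s => G s x) (fun s => G' s x)) (s t) :=
  ((apx_deriv_exists n (fun s => G s x) (fun s => G' s x) (s t)).hasDerivAt.scomp t hs).deriv

theorem apf_dtm_eq (n : ℕ) (G G' : ℝ → En d → F) {s : ℝ → ℝ} (hs : ContDiff ℝ ((⊤ : ℕ∞) : WithTop ℕ∞) s)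
    (t : ℝ) (x : En d) : dtm (fun t => apf n G G' (s t)) t x =
      ∑ k ∈ aps n, deriv (fun t => apc n k (s t)) t • apg n G G' k x := by
  have h1 : HasDerivAt (fun t => ∑ k ∈ aps n, apc n k (s t) • apg n G G' k x)
      (∑ k ∈ aps n, deriv (fun t => apc n k (s t)) t • apg n G G' k x) t :=
    HasDerivAt.fun_sum fun k _ =>
      ((((apc_smo n k).comp hs).differentiable (by simp)) t).hasDerivAt.smul_const (apg n G G' k x)
  have h2 : (fun t => apf n G G' (s t) x) = fun t => ∑ k ∈ aps n, apc n k (s t) • apg n G G' k x :=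
    funext fun t => apf_eq n G G' (s t) x
  unfold dtm
  rw [h2]
  exact h1.deriv

end

/-- **The slow field** (statement of helper38). -/
theorem exists_slow (h : Dom D z δ) (R : Rot d) (hR : Metric.closedBall R.c R.r ⊆ D) {a s : ℝ → ℝ} {c : ℝ}
    (hc : 0 < c) (_ha : ContDiff ℝ ((⊤ : ℕ∞) : WithTop ℕ∞) a) (hs : ContDiff ℝ ((⊤ : ℕ∞) : WithTop ℕ∞) s)
    (ha0 : ∀ t, 0 ≤ a t) (ha1 : ∀ t, a t ≤ 1) (hds : ∀ t, HasDerivAt s (c * a t ^ 2) t)
    (hs0 : ∀ t, t ≤ 1 / 4 → s t = 0) (hs1 : ∀ t, 3 / 4 ≤ t → s t = 1) (hsI : ∀ t, s t ∈ Icc (0:ℝ) 1)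
    {f : En d → En d} (hf : IsTe D f) :
    ∃ K : ℕ → ℝ, (∀ k, 0 ≤ K k) ∧ ∀ η : ℝ, 0 < η → ∃ Y F : ℝ → En d → En d, Sep D Y ∧ Sep D F ∧
      (∀ t, IsLr D z (F t) (Y t)) ∧ (∀ k t, Bk D k (K k) (Y t)) ∧ (∀ k t, Bk D k (K k) (F t)) ∧
      (∀ x, F 0 x = f x) ∧ (∀ x, F 1 x = R.pb (-1) f x) ∧
      (∀ t, IsTe D (F t)) ∧
      (∀ t, ∀ x ∈ D, ‖(a t ^ 2 * c) • lieF R.V (F t) x + dtm F t x‖ ≤ η) ∧
      ∀ t, PcD D (dtm Y t) = PcD D (dtm F t) := by
  have hD : IsOpen D := h.isOpen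
  have hT := fun s => R.G_te hR hf s
  have b0 : ∀ s, BD D (R.G0 f s) := fun s => (Smo.bd h.bdd (hT s).1.smooth)
  have b1 : ∀ s, BD D (R.G1 f s) := fun s => (Smo.bd h.bdd (hT s).2.1.smooth)
  have b2 : ∀ s, BD D (R.G2 f s) := fun s => (Smo.bd h.bdd (hT s).2.2.smooth)
  obtain ⟨m, C, hC0, hlr⟩ := exists_lr h
  choose v0 hv0 hb0 using fun s => hlr (R.G0 f s) (b0 s)
  choose v1 hv1 hb1 using fun s => hlr (R.G1 f s) (b1 s)
  choose M hM0 hM using fun k => R.G_bd hf.smooth hf.cpt k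
  have B0 : ∀ k, ∀ s ∈ Icc (0:ℝ) 1, Bk D k (M k) (R.G0 f s) := fun k s hs j hj x _ => (hM k s hs j hj x).1
  have B1 : ∀ k, ∀ s ∈ Icc (0:ℝ) 1, Bk D k (M k) (R.G1 f s) := fun k s hs j hj x _ => (hM k s hs j hj x).2.1
  have B2 : ∀ k, ∀ s ∈ Icc (0:ℝ) 1, Bk D k (M k) (R.G2 f s) := fun k s hs j hj x _ => (hM k s hs j hj x).2.2
  obtain ⟨CA, hCA0, hCA⟩ := apx_deriv_sub (X := En d)
  have hVs : Smo R.V := by
    have h1 : ContDiff ℝ ((⊤ : ℕ∞) : WithTop ℕ∞) fun x : En d => x - R.c := contDiff_id.sub contDiff_const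
    exact (R.smo.comp (h1.norm_sq ℝ)).smul (R.J.contDiff.comp h1)
  obtain ⟨MV, hMV0, hMV⟩ := (Smo.bd h.bdd hVs : BD D R.V).exists_Bk 1
  refine ⟨fun k => (C k * M (m k) + C k * M (m k)) + (M k + M k), fun k => ?_, fun η hη => ?_⟩
  · have := hM0 k
    have := mul_nonneg (hC0 k) (hM0 (m k))
    positivity
  have hn : ∃ n : ℕ, 1 ≤ n ∧ c * (2 * MV * M 1 + CA * M 1) / n ≤ η := by
    obtain ⟨n, hn⟩ := exists_nat_ge (c * (2 * MV * M 1 + CA * M 1) / η)
    refine ⟨n + 1, by omega, ?_⟩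
    have h1 : (0:ℝ) < ((n + 1 : ℕ) : ℝ) := by positivity
    rw [div_le_iff₀ h1]
    rw [div_le_iff₀ hη] at hn
    push_cast
    nlinarith
  obtain ⟨n, hn1, hn2⟩ := hn
  have hnp : (0:ℝ) < n := by exact_mod_cast hn1
  refine ⟨fun t => apf n v0 v1 (s t), fun t => apf n (R.G0 f) (R.G1 f) (s t),
    apf_sep n (fun s => (hv0 s).bd) (fun s => (hv1 s).bd) hs, apf_sep n b0 b1 hs, fun t => ?_, fun k t => ?_,
    fun k t => ?_, fun x => ?_, fun x => ?_, fun t => ?_, fun t x hx => ?_, fun t => ?_⟩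
  · -- the projection
    show IsLr D z (apf n (R.G0 f) (R.G1 f) (s t)) (apf n v0 v1 (s t))
    rw [apf_eq', apf_eq']
    refine IsLr.sum hD (aps n) (fun k => apc n k (s t)) fun k _ => ?_
    unfold apg
    rcases k with ⟨k, _ | _⟩
    · simpa using hv1 _
    · simpa using hv0 _
  · -- bounds of `Y`
    have h1 := apf_Bk hD hn1 (fun s => (hv0 s).bd) (fun s => (hv1 s).bd)
      (fun s hs => hb0 s k (M (m k)) (hM0 _) (B0 (m k) s hs)) (fun s hs => hb1 s k (M (m k)) (hM0 _) (B1 (m k) s hs))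
      (hsI t)
    refine h1.mono le_rfl ?_
    have := hM0 k
    show _ ≤ (C k * M (m k) + C k * M (m k)) + (M k + M k)
    linarith
  · -- bounds of `F`
    have h1 := apf_Bk hD hn1 b0 b1 (B0 k) (B1 k) (hsI t)
    refine h1.mono le_rfl ?_
    have := mul_nonneg (hC0 k) (hM0 (m k))
    show _ ≤ (C k * M (m k) + C k * M (m k)) + (M k + M k)
    linarith
  · -- initial value
    show apf n (R.G0 f) (R.G1 f) (s 0) x = f x
    rw [hs0 0 (by norm_num)]
    unfold apf
    rw [apx_zero hn1, R.G0_zero]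
  · show apf n (R.G0 f) (R.G1 f) (s 1) x = R.pb (-1) f x
    rw [hs1 1 (by norm_num)]
    unfold apf
    rw [apx_one hn1, R.G0_one]
  · show IsTe D (apf n (R.G0 f) (R.G1 f) (s t))
    rw [apf_eq']
    exact IsTe.sum_fun _ fun k _ => IsTe.smul _ (apg_mem n (P := IsTe D) (fun s => (hT s).1) (fun s => (hT s).2.1) k)
  · -- the transport equation
    rw [apf_dtm n (R.G0 f) (R.G1 f) (hds t) x]
    set σ := s t with hσ
    set A' := deriv (apx n (fun s => R.G0 f s x) fun s => R.G1 f s x) σ with hA'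
    have e1 : ‖A' - R.G1 f σ x‖ ≤ CA * M 1 / n :=
      hCA n hn1 _ _ _ (M 1) (fun s => R.G0_deriv hf.smooth s x) (fun s => R.G1_deriv hf.smooth s x)
        (fun s hs => (B2 1 s hs).le0 hx) σ (hsI t)
    have e2 : ‖apf n (R.G0 f) (R.G1 f) σ x - R.G0 f σ x‖ ≤ M 1 / n ^ 2 :=
      apx_sub hn1 (fun s => R.G0_deriv hf.smooth s x) (fun s => R.G1_deriv hf.smooth s x)
        (fun s hs => (B2 1 s hs).le0 hx) (hsI t)
    have e3 : ‖fderiv ℝ (apf n (R.G0 f) (R.G1 f) σ) x - fderiv ℝ (R.G0 f σ) x‖ ≤ M 1 / n ^ 2 := by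
      rw [apf_fderiv hD n b0 b1 σ hx]
      exact apx_sub hn1 (fun s => R.G0_fderiv_deriv hf.smooth s x) (fun s => R.G1_fderiv_deriv hf.smooth s x)
        (fun s hs => (B2 1 s hs).le1 hx) (hsI t)
    have e4 : lieF R.V (apf n (R.G0 f) (R.G1 f) σ) x + A' =
        (fderiv ℝ (apf n (R.G0 f) (R.G1 f) σ) x - fderiv ℝ (R.G0 f σ) x) (R.V x) +
        ContinuousLinearMap.adjoint (fderiv ℝ R.V x) (apf n (R.G0 f) (R.G1 f) σ x - R.G0 f σ x) +
        (A' - R.G1 f σ x) := by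
      have h1 : R.G1 f σ x = -lieF R.V (R.G0 f σ) x := rfl
      rw [h1]
      unfold lieF
      rw [map_sub, sub_apply]
      abel
    have hV0 : ‖R.V x‖ ≤ MV := hMV.le0 hx
    have hV1 : ‖fderiv ℝ R.V x‖ ≤ MV := hMV.le1 hx
    have e5 : ‖lieF R.V (apf n (R.G0 f) (R.G1 f) σ) x + A'‖ ≤ (2 * MV * M 1 + CA * M 1) / n := by
      rw [e4]
      have h1 : ‖(fderiv ℝ (apf n (R.G0 f) (R.G1 f) σ) x - fderiv ℝ (R.G0 f σ) x) (R.V x)‖ ≤ M 1 / n ^ 2 * MV :=
        (ContinuousLinearMap.le_opNorm _ _).trans (mul_le_mul e3 hV0 (norm_nonneg _) (by have := hM0 1; positivity))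
      have h2 : ‖ContinuousLinearMap.adjoint (fderiv ℝ R.V x) (apf n (R.G0 f) (R.G1 f) σ x - R.G0 f σ x)‖ ≤
          MV * (M 1 / n ^ 2) := by
        refine (ContinuousLinearMap.le_opNorm _ _).trans (mul_le_mul ?_ e2 (norm_nonneg _) hMV0)
        rw [LinearIsometryEquiv.norm_map]
        exact hV1
      have h3 : M 1 / n ^ 2 ≤ M 1 / n := by
        have h4 : (n:ℝ) ≤ n ^ 2 := by
          have : (1:ℝ) ≤ n := by exact_mod_cast hn1
          nlinarith
        exact div_le_div_of_nonneg_left (hM0 1) hnp h4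
      have h5 : M 1 / n ^ 2 * MV ≤ MV * (M 1 / n) := by
        rw [mul_comm]
        exact mul_le_mul_of_nonneg_left h3 hMV0
      have h6 : MV * (M 1 / n ^ 2) ≤ MV * (M 1 / n) := mul_le_mul_of_nonneg_left h3 hMV0
      refine (norm_add_le _ _).trans ((add_le_add ((norm_add_le _ _).trans (add_le_add (h1.trans h5) (h2.trans h6)))
        e1).trans (le_of_eq ?_))
      ring
    have e6 : (a t ^ 2 * c) • lieF R.V (apf n (R.G0 f) (R.G1 f) σ) x + (c * a t ^ 2) • A' =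
        (c * a t ^ 2) • (lieF R.V (apf n (R.G0 f) (R.G1 f) σ) x + A') := by
      rw [smul_add, mul_comm (a t ^ 2) c]
    show ‖(a t ^ 2 * c) • lieF R.V (apf n (R.G0 f) (R.G1 f) σ) x + (c * a t ^ 2) • A'‖ ≤ η
    rw [e6, norm_smul, Real.norm_eq_abs, abs_of_nonneg (by have := ha0 t; positivity)]
    have h7 : c * a t ^ 2 ≤ c := by
      have h8 : a t ^ 2 ≤ 1 := pow_le_one₀ (ha0 t) (ha1 t)
      nlinarith
    calc c * a t ^ 2 * ‖lieF R.V (apf n (R.G0 f) (R.G1 f) σ) x + A'‖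
        ≤ c * ((2 * MV * M 1 + CA * M 1) / n) := mul_le_mul h7 e5 (norm_nonneg _) hc.le
      _ = c * (2 * MV * M 1 + CA * M 1) / n := by ring
      _ ≤ η := hn2
  · -- the time derivatives
    have h1 : IsLr D z (dtm (fun t => apf n (R.G0 f) (R.G1 f) (s t)) t) (dtm (fun t => apf n v0 v1 (s t)) t) := by
      have e1 : dtm (fun t => apf n (R.G0 f) (R.G1 f) (s t)) t =
          fun x => ∑ k ∈ aps n, deriv (fun t => apc n k (s t)) t • apg n (R.G0 f) (R.G1 f) k x :=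
        funext fun x => apf_dtm_eq n _ _ hs t x
      have e2 : dtm (fun t => apf n v0 v1 (s t)) t =
          fun x => ∑ k ∈ aps n, deriv (fun t => apc n k (s t)) t • apg n v0 v1 k x :=
        funext fun x => apf_dtm_eq n _ _ hs t x
      rw [e1, e2]
      refine IsLr.sum hD (aps n) (fun k => deriv (fun t => apc n k (s t)) t) fun k _ => ?_
      unfold apg
      rcases k with ⟨k, _ | _⟩
      · simpa using hv1 _
      · simpa using hv0 _
    exact (h1.pcd h ((apf_sep n b0 b1 hs).dtm.bd hD t)).1.symm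

end Pool.Agent.Lib.MP_79abb3_an.W
end
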