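import Pool.Agent.Lib.MP_79abb3_an.W.DH0
import Pool.Agent.Lib.MP_79abb3_an.W.DYd2

/-!
Theorem W, block EF: the corrector of width `ρ` which removes the slip of a tangential field.
-/

set_option autoImplicit false
set_option linter.unusedSectionVars false

open MeasureTheory Set Filter Topology Function
open scoped ENNReal RealInnerProductSpace

namespace Pool.Agent.Lib.MP_79abb3_an.W

variable {d : ℕ} {D : Set (En d)} {z : En d → ℝ} {δ : ℝ}

/-- cut off: `1` for `u ≤ 1`, `0` for `u ≥ 2` -/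
noncomputable def cth (u : ℝ) : ℝ := Real.smoothTransition (2 - u)

theorem cth_smo : ContDiff ℝ ((⊤ : ℕ∞) : WithTop ℕ∞) cth :=
  Real.smoothTransition.contDiff.comp (contDiff_const.sub contDiff_id)

theorem cth_one {u : ℝ} (hu : u ≤ 1) : cth u = 1 :=
  Real.smoothTransition.one_of_one_le (by linarith)

theorem cth_zero {u : ℝ} (hu : 2 ≤ u) : cth u = 0 :=
  Real.smoothTransition.zero_of_nonpos (by linarith)

theorem cth_mem (u : ℝ) : cth u ∈ Icc (0:ℝ) 1 :=
  ⟨Real.smoothTransition.nonneg _, Real.smoothTransition.le_one _⟩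

/-- the matrix field `χ(z/ρ) z (Y ⊗ n - n ⊗ Y)`, `n = ∇z` -/
noncomputable def cE (z : En d → ℝ) (ρ : ℝ) (Y : En d → En d) (i j : Fin d) (x : En d) : ℝ :=
  cth (z x / ρ) * z x * (Y x i * gradient z x j - gradient z x i * Y x j)

/-- **The corrector** `div (χ(z/ρ) z (Y ⊗ n - n ⊗ Y))`. -/
noncomputable def corr (z : En d → ℝ) (ρ : ℝ) (Y : En d → En d) (x : En d) : En d :=
  WithLp.toLp 2 fun i => ∑ j, pd j (cE z ρ Y i j) x

/-- the scalar factor -/
noncomputable def cg (z : En d → ℝ) (ρ : ℝ) (x : En d) : ℝ := cth (z x / ρ) * z x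

theorem cE_eq (z : En d → ℝ) (ρ : ℝ) (Y : En d → En d) (i j : Fin d) :
    cE z ρ Y i j = dyM (cg z ρ) (gradient z) Y i j := rfl

theorem corr_dyC (z : En d → ℝ) (ρ : ℝ) (Y : En d → En d) : corr z ρ Y = dyC (cg z ρ) (gradient z) Y := rfl

private theorem efe_open (h : Dom D z δ) : IsOpen D := by
  have h1 : D = {x | 0 < z x} := by
    ext x
    exact h.pos x
  rw [h1]
  exact isOpen_lt continuous_const (ContDiff.continuous h.smo)

private theorem efe_cg (h : Dom D z δ) (ρ : ℝ) : BD D (cg z ρ) := by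
  refine Smo.bd h.bdd ?_
  exact (cth_smo.comp (ContDiff.div_const h.smo ρ)).mul h.smo

private theorem efe_n (h : Dom D z δ) : BD D (gradient z) := by
  refine Smo.bd h.bdd ?_
  have h1 : gradient z = fun x => (InnerProductSpace.toDual ℝ (En d)).symm (fderiv ℝ z x) := rfl
  rw [h1]
  exact (InnerProductSpace.toDual ℝ (En d)).symm.contDiff.comp
    (ContDiff.fderiv_right (m := ((⊤ : ℕ∞) : WithTop ℕ∞)) h.smo (by norm_cast))

theorem cE_bd (h : Dom D z δ) {ρ : ℝ} (hρ : 0 < ρ) {Y : En d → En d} (hY : BD D Y) (i j : Fin d) :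
    BD D (cE z ρ Y i j) := dyM_bd (efe_open h) (efe_cg h ρ) (efe_n h) hY i j

theorem corr_bd (h : Dom D z δ) {ρ : ℝ} (hρ : 0 < ρ) {Y : En d → En d} (hY : BD D Y) :
    BD D (corr z ρ Y) := dyC_bd (efe_open h) (efe_cg h ρ) (efe_n h) hY

/-- `div div` of an antisymmetric matrix field is zero -/
theorem corr_div (h : Dom D z δ) {ρ : ℝ} (hρ : 0 < ρ) {Y : En d → En d} (hY : BD D Y) :
    ∀ x ∈ D, dv (corr z ρ Y) x = 0 := fun _ hx => dyC_dv (efe_open h) (efe_cg h ρ) (efe_n h) hY hx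

/-- **Explicit form**: `corr = θ'(z) (|n|² Y - ⟪n, Y⟫ n) + θ(z) W`, `θ(z) = χ(z/ρ) z`, with
`W = DY n + (div n) Y - Dn Y - (div Y) n` (`n = ∇z`). -/
theorem corr_eq (h : Dom D z δ) {ρ : ℝ} (hρ : 0 < ρ) {Y : En d → En d} (hY : BD D Y) {x : En d} (hx : x ∈ D) :
    corr z ρ Y x = (deriv cth (z x / ρ) * (z x / ρ) + cth (z x / ρ)) •
        (‖gradient z x‖ ^ 2 • Y x - ⟪gradient z x, Y x⟫ • gradient z x) +
      (cth (z x / ρ) * z x) • (fderiv ℝ Y x (gradient z x) + dv (gradient z) x • Y x -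
        fderiv ℝ (gradient z) x (Y x) - dv Y x • gradient z x) := by
  have hzd : DifferentiableAt ℝ z x := (ContDiff.differentiable h.smo (by simp)) x
  have hcd : HasDerivAt cth (deriv cth (z x / ρ)) (z x / ρ) :=
    ((cth_smo.differentiable (by simp)) (z x / ρ)).hasDerivAt
  have h1 : HasFDerivAt (fun y => z y / ρ) ((ρ⁻¹ : ℝ) • fderiv ℝ z x) x := by
    have h2 := hzd.hasFDerivAt.const_mul ρ⁻¹
    refine h2.congr_of_eventuallyEq (Eventually.of_forall fun y => ?_)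
    show z y / ρ = ρ⁻¹ * z y
    rw [div_eq_inv_mul]
  have h2 : HasFDerivAt (fun y => cth (z y / ρ)) (deriv cth (z x / ρ) • ((ρ⁻¹ : ℝ) • fderiv ℝ z x)) x :=
    HasDerivAt.comp_hasFDerivAt (h₂ := cth) (f := fun y => z y / ρ) x hcd h1
  have h3 : HasFDerivAt (cg z ρ) (cth (z x / ρ) • fderiv ℝ z x +
      z x • (deriv cth (z x / ρ) • ((ρ⁻¹ : ℝ) • fderiv ℝ z x))) x := h2.mul hzd.hasFDerivAt
  have hg : gd (cg z ρ) x = (deriv cth (z x / ρ) * (z x / ρ) + cth (z x / ρ)) • gradient z x := by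
    rw [gd_eq_gradient]
    show (InnerProductSpace.toDual ℝ (En d)).symm (fderiv ℝ (cg z ρ) x) =
      (deriv cth (z x / ρ) * (z x / ρ) + cth (z x / ρ)) • (InnerProductSpace.toDual ℝ (En d)).symm (fderiv ℝ z x)
    rw [h3.fderiv]
    have h4 : cth (z x / ρ) • fderiv ℝ z x + z x • (deriv cth (z x / ρ) • ((ρ⁻¹ : ℝ) • fderiv ℝ z x)) =
        (deriv cth (z x / ρ) * (z x / ρ) + cth (z x / ρ)) • fderiv ℝ z x := by
      rw [smul_smul, smul_smul, ← add_smul]
      congr 1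
      rw [div_eq_mul_inv]
      ring
    rw [h4]
    exact map_smul (InnerProductSpace.toDual ℝ (En d)).symm _ _
  rw [corr_dyC, dyC_eq (efe_open h) (efe_cg h ρ) (efe_n h) hY hx, hg, real_inner_smul_left, real_inner_smul_left,
    real_inner_self_eq_norm_sq]
  unfold cg
  module

end Pool.Agent.Lib.MP_79abb3_an.W
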