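import Pool.Agent.Lib.MP_79abb3_an.W.DH2
import Pool.Agent.Lib.MP_79abb3_an.W.EFe

/-!
Theorem W, block EF: the corrector of width `ρ` which removes the slip of a tangential field.
-/

set_option autoImplicit false
set_option linter.unusedSectionVars false

open MeasureTheory Set Filter Topology Function
open scoped ENNReal RealInnerProductSpace

namespace Pool.Agent.Lib.MP_79abb3_an.W

variable {d : ℕ} {D : Set (En d)} {z : En d → ℝ} {δ : ℝ}

/-! ### Auxiliary functions -/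

private theorem ef_deriv_zero {u : ℝ} (hu : 2 ≤ u) : deriv cth u = 0 := by
  apply IsLocalMin.deriv_eq_zero
  refine Filter.Eventually.of_forall fun s => ?_
  show cth u ≤ cth s
  rw [cth_zero hu]
  exact (cth_mem s).1

private theorem ef_deriv_one {u : ℝ} (hu : u ≤ 1) : deriv cth u = 0 := by
  apply IsLocalMax.deriv_eq_zero
  refine Filter.Eventually.of_forall fun s => ?_
  show cth s ≤ cth u
  rw [cth_one hu]
  exact (cth_mem s).2

private noncomputable def ca (u : ℝ) : ℝ := deriv cth u * u + cth u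

private noncomputable def cb (u : ℝ) : ℝ := cth u * u

private theorem ca_smo : ContDiff ℝ ((⊤ : ℕ∞) : WithTop ℕ∞) ca := by
  have h1 : ContDiff ℝ ((⊤ : ℕ∞) : WithTop ℕ∞) (deriv cth) := by
    have h2 := cth_smo
    rw [show (((⊤ : ℕ∞) : WithTop ℕ∞)) = ((⊤ : ℕ∞) : WithTop ℕ∞) + 1 from rfl, contDiff_succ_iff_deriv] at h2
    exact h2.2.2
  exact (h1.mul contDiff_id).add cth_smo

private theorem cb_smo : ContDiff ℝ ((⊤ : ℕ∞) : WithTop ℕ∞) cb := cth_smo.mul contDiff_id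

private theorem cb_deriv (u : ℝ) : HasDerivAt cb (ca u) u := by
  have h1 : HasDerivAt cth (deriv cth u) u := (cth_smo.differentiable (by norm_num) u).hasDerivAt
  have h2 := h1.mul (hasDerivAt_id u)
  have h3 : ca u = deriv cth u * id u + cth u * 1 := by
    unfold ca
    simp
  rw [h3]
  exact h2

private theorem ca_deriv (u : ℝ) : HasDerivAt ca (deriv ca u) u :=
  (ca_smo.differentiable (by norm_num) u).hasDerivAt

private theorem ca_one {u : ℝ} (hu : u ≤ 1) : ca u = 1 := by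
  unfold ca
  rw [ef_deriv_one hu, cth_one hu]
  ring

private theorem ca_zero {u : ℝ} (hu : 2 ≤ u) : ca u = 0 := by
  unfold ca
  rw [ef_deriv_zero hu, cth_zero hu]
  ring

private theorem cb_one {u : ℝ} (hu : u ≤ 1) : cb u = u := by
  unfold cb
  rw [cth_one hu, one_mul]

private theorem cb_zero {u : ℝ} (hu : 2 ≤ u) : cb u = 0 := by
  unfold cb
  rw [cth_zero hu, zero_mul]

private theorem cab_bd : ∃ K : ℝ, 0 ≤ K ∧ ∀ u ∈ Icc (0:ℝ) 2, |ca u| ≤ K ∧ |deriv ca u| ≤ K ∧ |cb u| ≤ K := by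
  obtain ⟨K1, h1⟩ := (isCompact_Icc (a := (0:ℝ)) (b := 2)).exists_bound_of_continuousOn
    ca_smo.continuous.continuousOn
  obtain ⟨K2, h2⟩ := (isCompact_Icc (a := (0:ℝ)) (b := 2)).exists_bound_of_continuousOn
    (ca_smo.continuous_deriv (by norm_num)).continuousOn
  obtain ⟨K3, h3⟩ := (isCompact_Icc (a := (0:ℝ)) (b := 2)).exists_bound_of_continuousOn
    cb_smo.continuous.continuousOn
  refine ⟨max (max K1 K2) (max K3 0), (le_max_right K3 0).trans (le_max_right _ _), fun u hu => ⟨?_, ?_, ?_⟩⟩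
  · exact (h1 u hu).trans ((le_max_left K1 K2).trans (le_max_left _ _))
  · exact (h2 u hu).trans ((le_max_right K1 K2).trans (le_max_left _ _))
  · exact (h3 u hu).trans ((le_max_left K3 0).trans (le_max_right _ _))

private noncomputable def cP (z : En d → ℝ) (Y : En d → En d) (x : En d) : En d :=
  ‖gradient z x‖ ^ 2 • Y x - ⟪gradient z x, Y x⟫ • gradient z x

private noncomputable def cW (z : En d → ℝ) (Y : En d → En d) (x : En d) : En d :=
  fderiv ℝ Y x (gradient z x) + dv (gradient z) x • Y x - fderiv ℝ (gradient z) x (Y x) - dv Y x • gradient z x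

private theorem corr_eq' (h : Dom D z δ) {ρ : ℝ} (hρ : 0 < ρ) {Y : En d → En d} (hY : BD D Y) {x : En d}
    (hx : x ∈ D) : corr z ρ Y x = ca (z x / ρ) • cP z Y x + (ρ * cb (z x / ρ)) • cW z Y x := by
  rw [corr_eq h hρ hY hx]
  have h1 : ρ * cb (z x / ρ) = cth (z x / ρ) * z x := by
    unfold cb
    field_simp
  rw [h1]
  rfl

private theorem nz_bd (h : Dom D z δ) : BD D (gradient z) := by
  have h1 : gradient z = gd z := by
    ext1 x
    exact (gd_eq_gradient z x).symm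
  rw [h1]
  exact Smo.bd h.bdd h.smo.gd

private noncomputable def LP (z : En d → ℝ) (x : En d) : En d →L[ℝ] En d :=
  ‖gradient z x‖ ^ 2 • ContinuousLinearMap.id ℝ (En d) -
    ContinuousLinearMap.smulRightL ℝ (En d) (En d) (innerSL ℝ (gradient z x)) (gradient z x)

private theorem LP_apply (z : En d → ℝ) (Y : En d → En d) (x : En d) : cP z Y x = LP z x (Y x) := by
  unfold cP LP
  simp

private theorem LP_bd (h : Dom D z δ) : BD D (LP z) := by
  have hD := h.col.isOpen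
  have hN := nz_bd h
  have h1 : BD D (fun x => ‖gradient z x‖ ^ 2) :=
    (BD.bilin hD (innerSL ℝ) hN hN).congr hD fun x _ => by
      rw [innerSL_apply_apply, real_inner_self_eq_norm_sq]
  exact (h1.smul hD (BD.const hD _)).sub hD
    (BD.bilin hD (ContinuousLinearMap.smulRightL ℝ (En d) (En d)) (hN.clm hD (innerSL ℝ)) hN)

private noncomputable def LW (z : En d → ℝ) (x : En d) : En d →L[ℝ] En d :=
  dv (gradient z) x • ContinuousLinearMap.id ℝ (En d) - fderiv ℝ (gradient z) x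

private theorem LW_bd (h : Dom D z δ) : BD D (LW z) := by
  have hD := h.col.isOpen
  have hN := nz_bd h
  exact ((hN.dv hD).smul hD (BD.const hD _)).sub hD (hN.fderiv hD)

private theorem LW_apply (z : En d → ℝ) (Y : En d → En d) (x : En d) :
    cW z Y x = (fderiv ℝ Y x (gradient z x) + LW z x (Y x)) - dv Y x • gradient z x := by
  unfold cW LW
  simp only [sub_apply, smul_apply, ContinuousLinearMap.id_apply]
  abel

private theorem cP_bd (h : Dom D z δ) {Y : En d → En d} (hY : BD D Y) : BD D (cP z Y) :=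
  ((LP_bd h).apply h.col.isOpen hY).congr h.col.isOpen fun x _ => (LP_apply z Y x).symm

private theorem cW_bd (h : Dom D z δ) {Y : En d → En d} (hY : BD D Y) : BD D (cW z Y) := by
  have hD := h.col.isOpen
  have hN := nz_bd h
  exact ((((hY.fderiv hD).apply hD hN).add hD ((LW_bd h).apply hD hY)).sub hD ((hY.dv hD).smul hD hN)).congr hD
    fun x _ => (LW_apply z Y x).symm

private theorem cP_Bk (h : Dom D z δ) : ∃ C : ℝ, 0 ≤ C ∧ ∀ (Y : En d → En d) (A : ℝ), BD D Y → 0 ≤ A →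
    Bk D 2 A Y → Bk D 1 (C * A) (cP z Y) := by
  have hD := h.col.isOpen
  obtain ⟨M, hM0, hM⟩ := (LP_bd h).exists_Bk 1
  refine ⟨2 * M, by positivity, fun Y A hY hA hk => ?_⟩
  have h1 : Bk D 1 (2 ^ 1 * (M * A)) (fun x => LP z x (Y x)) :=
    hM.apply hD (LP_bd h).1 hY.1 hM0 hA (hk.mono (by norm_num) le_rfl)
  refine (h1.congr hD fun x _ => (LP_apply z Y x).symm).mono le_rfl (le_of_eq ?_)
  ring

private theorem cW_Bk (h : Dom D z δ) : ∃ C : ℝ, 0 ≤ C ∧ ∀ (Y : En d → En d) (A : ℝ), BD D Y → 0 ≤ A →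
    Bk D 2 A Y → Bk D 1 (C * A) (cW z Y) := by
  have hD := h.col.isOpen
  have hN := nz_bd h
  obtain ⟨M, hM0, hM⟩ := (LW_bd h).exists_Bk 1
  obtain ⟨M2, hM20, hM2⟩ := hN.exists_Bk 1
  set T : ℝ := ‖trL d‖ with hT
  set S : ℝ := ‖(ContinuousLinearMap.lsmul ℝ ℝ : ℝ →L[ℝ] En d →L[ℝ] En d)‖ with hS
  have hT0 : 0 ≤ T := ContinuousLinearMap.opNorm_nonneg _
  have hS0 : 0 ≤ S := ContinuousLinearMap.opNorm_nonneg _
  refine ⟨2 * M2 + 2 * M + S * (2 * (T * M2)), by positivity, fun Y A hY hA hk => ?_⟩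
  have hkf : Bk D 1 A (fderiv ℝ Y) := Bk.fderiv hk
  have hYf : BD D (fderiv ℝ Y) := hY.fderiv hD
  have h1 : Bk D 1 (2 ^ 1 * (A * M2)) (fun x => fderiv ℝ Y x (gradient z x)) :=
    hkf.apply hD hYf.1 hN.1 hA hM20 hM2
  have h2 : Bk D 1 (2 ^ 1 * (M * A)) (fun x => LW z x (Y x)) :=
    hM.apply hD (LW_bd h).1 hY.1 hM0 hA (hk.mono (by norm_num) le_rfl)
  have h3 : Bk D 1 (T * A) (dv Y) := hkf.clm hD (trL d) hYf.1
  have h4 : Bk D 1 (S * (2 ^ 1 * ((T * A) * M2))) (fun x => dv Y x • gradient z x) :=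
    h3.bilin hD (ContinuousLinearMap.lsmul ℝ ℝ) (hY.dv hD).1 hN.1 (by positivity) hM20 hM2
  have hb1 := (hYf.apply hD hN).add hD ((LW_bd h).apply hD hY)
  have hb2 := (hY.dv hD).smul hD hN
  have h5 := (h1.add hD (hYf.apply hD hN).1 ((LW_bd h).apply hD hY).1 h2)
  have h6 := h5.add hD hb1.1 (hb2.const_smul hD (-1)).1 (h4.const_smul hD (-1) hb2.1)
  refine (h6.congr hD fun x _ => ?_).mono le_rfl (le_of_eq ?_)
  · rw [LW_apply]
    module
  · rw [abs_neg, abs_one]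
    ring

/-- the corrector removes the slip -/
theorem corr_oz (h : Dom D z δ) {ρ : ℝ} (hρ : 0 < ρ) (hρδ : ρ ≤ δ) {Y : En d → En d} (hY : BD D Y)
    (hn : Oz D z fun x => ⟪gradient z x, Y x⟫) : Oz D z fun x => Y x - corr z ρ Y x := by
  have hD := h.col.isOpen
  have hN := nz_bd h
  obtain ⟨M1, hM10, hM1⟩ := hY.exists_Bk 0
  obtain ⟨M2, hM20, hM2⟩ := (corr_bd h hρ hY).exists_Bk 0
  obtain ⟨M3, hM30, hM3⟩ := (cW_bd h hY).exists_Bk 0
  obtain ⟨C0, hC0⟩ := hn
  refine ⟨(M1 + M2) / ρ + (C0 + M3), fun x hx => ?_⟩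
  have hz : 0 < z x := (h.pos x).1 hx
  have h0 : ‖⟪gradient z x, Y x⟫‖ ≤ C0 * z x := hC0 x hx
  show ‖Y x - corr z ρ Y x‖ ≤ _
  have h1 : 0 ≤ (M1 + M2) / ρ * z x := by positivity
  by_cases hzρ : ρ ≤ z x
  · have h2 : ‖Y x - corr z ρ Y x‖ ≤ M1 + M2 :=
      (norm_sub_le _ _).trans (add_le_add (hM1.le0 hx) (hM2.le0 hx))
    have h3 : M1 + M2 ≤ (M1 + M2) / ρ * z x := by
      rw [div_mul_eq_mul_div, le_div_iff₀ hρ]
      exact mul_le_mul_of_nonneg_left hzρ (by positivity)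
    have h4 : 0 ≤ C0 * z x := (norm_nonneg _).trans h0
    have h5 : 0 ≤ M3 * z x := by positivity
    calc ‖Y x - corr z ρ Y x‖ ≤ (M1 + M2) / ρ * z x := h2.trans h3
      _ ≤ ((M1 + M2) / ρ + (C0 + M3)) * z x := by linarith
  · push Not at hzρ
    have hu : z x / ρ ≤ 1 := (div_le_one hρ).2 hzρ.le
    have hun : ‖gradient z x‖ = 1 := h.unit x (by
      rw [abs_of_pos hz]
      have := h.δ0
      linarith)
    have h2 : Y x - corr z ρ Y x = ⟪gradient z x, Y x⟫ • gradient z x - z x • cW z Y x := by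
      rw [corr_eq' h hρ hY hx, ca_one hu, cb_one hu]
      unfold cP
      rw [hun, mul_div_cancel₀ _ hρ.ne']
      module
    rw [h2]
    refine (norm_sub_le _ _).trans ?_
    rw [norm_smul, norm_smul, hun, mul_one]
    have h3 : ‖z x‖ * ‖cW z Y x‖ ≤ z x * M3 := by
      rw [Real.norm_eq_abs, abs_of_pos hz]
      exact mul_le_mul_of_nonneg_left (hM3.le0 hx) hz.le
    linarith

theorem corr_zero (h : Dom D z δ) {ρ : ℝ} (hρ : 0 < ρ) {Y : En d → En d} (hY : BD D Y) {x : En d} (hxD : x ∈ D)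
    (hx : 2 * ρ ≤ z x) : corr z ρ Y x = 0 := by
  have hu : 2 ≤ z x / ρ := (le_div_iff₀ hρ).2 hx
  rw [corr_eq' h hρ hY hxD, ca_zero hu, cb_zero hu]
  simp

theorem corr_sum (h : Dom D z δ) {ρ : ℝ} (hρ : 0 < ρ) {n : ℕ} (c : Fin n → ℝ) {Y : Fin n → En d → En d}
    (hY : ∀ k, BD D (Y k)) {x : En d} (hx : x ∈ D) :
    corr z ρ (fun x => ∑ k, c k • Y k x) x = ∑ k, c k • corr z ρ (Y k) x := by
  have hD := h.col.isOpen
  have h1 : ∀ i j : Fin d, pd j (cE z ρ (fun x => ∑ k, c k • Y k x) i j) x =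
      ∑ k, c k * pd j (cE z ρ (Y k) i j) x := by
    intro i j
    have h2 : cE z ρ (fun x => ∑ k, c k • Y k x) i j = fun x => ∑ k, c k * cE z ρ (Y k) i j x := by
      ext1 y
      unfold cE
      have h3 : ∀ i : Fin d, (∑ k, c k • Y k y) i = ∑ k, c k * Y k y i := by
        intro i
        rw [WithLp.ofLp_sum, Finset.sum_apply]
        rfl
      show cth (z y / ρ) * z y * ((∑ k, c k • Y k y) i * gradient z y j - gradient z y i * (∑ k, c k • Y k y) j) = _
      rw [h3, h3, Finset.sum_mul, Finset.mul_sum, ← Finset.sum_sub_distrib, Finset.mul_sum]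
      refine Finset.sum_congr rfl fun k _ => ?_
      ring
    rw [h2]
    have h4 : HasFDerivAt (fun x => ∑ k, c k * cE z ρ (Y k) i j x)
        (∑ k, c k • fderiv ℝ (cE z ρ (Y k) i j) x) x := by
      refine HasFDerivAt.fun_sum fun k _ => ?_
      exact ((cE_bd h hρ (hY k) i j).differentiableAt hD hx).hasFDerivAt.const_mul (c k)
    show fderiv ℝ _ x (ei j) = _
    rw [h4.fderiv, sum_apply]
    rfl
  have h5 : ∀ (v : Fin n → En d) (i : Fin d), (∑ k, c k • v k) i = ∑ k, c k * v k i := by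
    intro v i
    rw [WithLp.ofLp_sum, Finset.sum_apply]
    rfl
  ext i
  rw [h5]
  show ∑ j, pd j (cE z ρ (fun x => ∑ k, c k • Y k x) i j) x = ∑ k, c k * ∑ j, pd j (cE z ρ (Y k) i j) x
  simp only [h1, Finset.mul_sum]
  exact Finset.sum_comm

/-- **Bounds.** -/
theorem corr_le (h : Dom D z δ) : ∃ C : ℝ, 0 ≤ C ∧ ∀ (ρ : ℝ), 0 < ρ → ρ ≤ δ → ρ ≤ 1 → ∀ (Y : En d → En d) (A : ℝ),
    BD D Y → Bk D 2 A Y → ∀ x ∈ D, ‖corr z ρ Y x‖ ≤ C * A ∧ ‖fderiv ℝ (corr z ρ Y) x‖ ≤ C * A / ρ ∧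
      z x * ‖corr z ρ Y x‖ ≤ C * ρ * A ∧ z x ^ 2 * ‖fderiv ℝ (corr z ρ Y) x‖ ≤ C * ρ * A := by
  have hD := h.col.isOpen
  obtain ⟨K, hK0, hK⟩ := cab_bd
  obtain ⟨CP, hCP0, hCP⟩ := cP_Bk h
  obtain ⟨CW, hCW0, hCW⟩ := cW_Bk h
  obtain ⟨N, hN0, hN⟩ := (Smo.bd h.bdd h.smo).exists_Bk 1
  refine ⟨4 * (K * ((1 + N) * (CP + CW))), by positivity, fun ρ hρ hρδ hρ1 Y A hY hk x hx => ?_⟩
  have hA : 0 ≤ A := (norm_nonneg _).trans (hk.le0 hx)
  have hz : 0 < z x := (h.pos x).1 hx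
  have hkP := hCP Y A hY hA hk
  have hkW := hCW Y A hY hA hk
  set C1 : ℝ := K * ((1 + N) * (CP + CW)) with hC1
  have hC10 : 0 ≤ C1 := by positivity
  have hC1A : 0 ≤ C1 * A := by positivity
  have hi : (1:ℝ) ≤ ρ⁻¹ := (one_le_inv₀ hρ).2 hρ1
  rcases le_or_gt (z x) (2 * ρ) with hle | hgt
  · have hu : z x / ρ ∈ Icc (0:ℝ) 2 := ⟨by positivity, (div_le_iff₀ hρ).2 hle⟩
    obtain ⟨k1, k2, k3⟩ := hK _ hu
    have hP := hkP.le0 hx
    have hW := hkW.le0 hx
    have hP1 := Bk.le1 (k := 0) hkP hx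
    have hW1 := Bk.le1 (k := 0) hkW hx
    have hz1 := Bk.le1 (k := 0) hN hx
    -- the value
    have hv : ‖corr z ρ Y x‖ ≤ C1 * A := by
      rw [corr_eq' h hρ hY hx]
      refine (norm_add_le _ _).trans ?_
      rw [norm_smul, norm_smul, Real.norm_eq_abs, Real.norm_eq_abs, abs_mul, abs_of_pos hρ]
      have e1 : |ca (z x / ρ)| * ‖cP z Y x‖ ≤ K * (CP * A) := mul_le_mul k1 hP (norm_nonneg _) hK0
      have e2 : ρ * |cb (z x / ρ)| * ‖cW z Y x‖ ≤ (1 * K) * (CW * A) :=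
        mul_le_mul (mul_le_mul hρ1 k3 (abs_nonneg _) zero_le_one) hW (norm_nonneg _) (by positivity)
      have e3 : C1 * A = K * (CP * A) + (1 * K) * (CW * A) + N * (K * (CP * A) + K * (CW * A)) := by
        rw [hC1]; ring
      have e4 : 0 ≤ N * (K * (CP * A) + K * (CW * A)) := by positivity
      linarith
    -- the derivative
    have hd : ‖fderiv ℝ (corr z ρ Y) x‖ ≤ C1 * A * ρ⁻¹ := by
      have f0 : HasFDerivAt z (fderiv ℝ z x) x := (h.smo.differentiable x).hasFDerivAt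
      have f1 : HasFDerivAt (fun y => z y / ρ) (ρ⁻¹ • fderiv ℝ z x) x := by
        have := f0.const_mul ρ⁻¹
        refine this.congr_of_eventuallyEq (Filter.Eventually.of_forall fun y => ?_)
        show z y / ρ = ρ⁻¹ * z y
        ring
      have f2 : HasFDerivAt (fun y => ca (z y / ρ)) (deriv ca (z x / ρ) • (ρ⁻¹ • fderiv ℝ z x)) x :=
        HasDerivAt.comp_hasFDerivAt (h₂ := ca) x (ca_deriv (z x / ρ)) f1
      have f3 : HasFDerivAt (fun y => ρ * cb (z y / ρ)) (ρ • (ca (z x / ρ) • (ρ⁻¹ • fderiv ℝ z x))) x :=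
        (HasDerivAt.comp_hasFDerivAt (h₂ := cb) x (cb_deriv (z x / ρ)) f1).const_mul ρ
      have f4 : HasFDerivAt (cP z Y) (fderiv ℝ (cP z Y) x) x := ((cP_bd h hY).differentiableAt hD hx).hasFDerivAt
      have f5 : HasFDerivAt (cW z Y) (fderiv ℝ (cW z Y) x) x := ((cW_bd h hY).differentiableAt hD hx).hasFDerivAt
      have f6 := (f2.smul f4).add (f3.smul f5)
      have f7 : fderiv ℝ (corr z ρ Y) x = fderiv ℝ (fun y => ca (z y / ρ) • cP z Y y + (ρ * cb (z y / ρ)) • cW z Y y) x :=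
        fderiv_congr_on hD (fun y hy => corr_eq' h hρ hY hy) hx
      rw [f7]
      have f8 : fderiv ℝ (fun y => ca (z y / ρ) • cP z Y y + (ρ * cb (z y / ρ)) • cW z Y y) x = _ := f6.fderiv
      rw [f8]
      refine (norm_add_le _ _).trans ((add_le_add (norm_add_le _ _) (norm_add_le _ _)).trans ?_)
      have g1 : ‖ca (z x / ρ) • fderiv ℝ (cP z Y) x‖ ≤ K * (CP * A) := by
        rw [norm_smul, Real.norm_eq_abs]
        exact mul_le_mul k1 hP1 (norm_nonneg _) hK0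
      have g2 : ‖ContinuousLinearMap.smulRight (deriv ca (z x / ρ) • (ρ⁻¹ • fderiv ℝ z x)) (cP z Y x)‖ ≤
          (K * (ρ⁻¹ * N)) * (CP * A) := by
        rw [ContinuousLinearMap.norm_smulRight_apply, norm_smul, norm_smul, Real.norm_eq_abs, Real.norm_eq_abs,
          abs_of_pos (inv_pos.2 hρ)]
        refine mul_le_mul ?_ hP (norm_nonneg _) (by positivity)
        refine mul_le_mul k2 ?_ (by positivity) hK0
        exact mul_le_mul_of_nonneg_left hz1 (by positivity)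
      have g3 : ‖(ρ * cb (z x / ρ)) • fderiv ℝ (cW z Y) x‖ ≤ (1 * K) * (CW * A) := by
        rw [norm_smul, Real.norm_eq_abs, abs_mul, abs_of_pos hρ]
        exact mul_le_mul (mul_le_mul hρ1 k3 (abs_nonneg _) zero_le_one) hW1 (norm_nonneg _) (by positivity)
      have g4 : ‖ContinuousLinearMap.smulRight (ρ • (ca (z x / ρ) • (ρ⁻¹ • fderiv ℝ z x))) (cW z Y x)‖ ≤
          (K * N) * (CW * A) := by
        have g5 : ρ • (ca (z x / ρ) • (ρ⁻¹ • fderiv ℝ z x)) = ca (z x / ρ) • fderiv ℝ z x := by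
          rw [smul_smul, smul_smul]
          congr 1
          field_simp
        rw [g5, ContinuousLinearMap.norm_smulRight_apply, norm_smul, Real.norm_eq_abs]
        refine mul_le_mul ?_ hW (norm_nonneg _) (by positivity)
        exact mul_le_mul k1 hz1 (norm_nonneg _) hK0
      have e1 : K * (CP * A) ≤ K * (CP * A) * ρ⁻¹ := le_mul_of_one_le_right (by positivity) hi
      have e2 : (1 * K) * (CW * A) ≤ K * (CW * A) * ρ⁻¹ := by
        rw [one_mul]
        exact le_mul_of_one_le_right (by positivity) hi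
      have e3 : (K * N) * (CW * A) ≤ (K * N) * (CW * A) * ρ⁻¹ := le_mul_of_one_le_right (by positivity) hi
      have e4 : C1 * A * ρ⁻¹ = K * (CP * A) * ρ⁻¹ + (K * (ρ⁻¹ * N)) * (CP * A) + (K * (CW * A) * ρ⁻¹ +
          (K * N) * (CW * A) * ρ⁻¹) := by
        rw [hC1]; ring
      linarith
    have hz2 : z x ^ 2 ≤ (2 * ρ) ^ 2 := pow_le_pow_left₀ hz.le hle 2
    refine ⟨?_, ?_, ?_, ?_⟩
    · linarith
    · rw [div_eq_mul_inv]
      have : 0 ≤ C1 * A * ρ⁻¹ := by positivity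
      linarith
    · calc z x * ‖corr z ρ Y x‖ ≤ (2 * ρ) * (C1 * A) := mul_le_mul hle hv (norm_nonneg _) (by positivity)
        _ ≤ 4 * C1 * ρ * A := by
          have : 0 ≤ C1 * A * ρ := by positivity
          linarith
    · calc z x ^ 2 * ‖fderiv ℝ (corr z ρ Y) x‖ ≤ (2 * ρ) ^ 2 * (C1 * A * ρ⁻¹) :=
            mul_le_mul hz2 hd (norm_nonneg _) (by positivity)
        _ = 4 * C1 * ρ * A := by field_simp; ring
  · have hv : corr z ρ Y x = 0 := corr_zero h hρ hY hx hgt.le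
    have hd : fderiv ℝ (corr z ρ Y) x = 0 := by
      have ho : IsOpen (D ∩ {y | 2 * ρ < z y}) := hD.inter (isOpen_lt continuous_const h.smo.continuous)
      have h1 : corr z ρ Y =ᶠ[𝓝 x] fun _ => 0 :=
        Filter.eventuallyEq_of_mem (ho.mem_nhds ⟨hx, hgt⟩) fun y hy =>
          corr_zero h hρ hY hy.1 (le_of_lt hy.2)
      rw [h1.fderiv_eq, fderiv_fun_const]
      rfl
    rw [hv, hd, norm_zero, norm_zero, mul_zero, mul_zero]
    refine ⟨?_, ?_, ?_, ?_⟩ <;> positivity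

/-- the `L²` norm: the volume of the layer is `O(ρ)` (`Col.vol_le`) -/
theorem corr_pcd (h : Dom D z δ) : ∃ C : ℝ, 0 ≤ C ∧ ∀ (ρ : ℝ), 0 < ρ → ρ ≤ δ → ρ ≤ 1 →
    ∀ (Y : En d → En d) (A : ℝ), BD D Y → 0 ≤ A → Bk D 2 A Y → ‖PcD D (corr z ρ Y)‖ ≤ C * √ρ * A := by
  have hD := h.col.isOpen
  have hm := h.col.meas
  obtain ⟨C, hC0, hC⟩ := corr_le h
  obtain ⟨C', hC'0, hC'⟩ := h.col.vol_le
  refine ⟨C * √(2 * C'), by positivity, fun ρ hρ hρδ hρ1 Y A hY hA hk => ?_⟩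
  have hb := corr_bd h hρ hY
  have hvol : volume D ≠ ∞ := h.col.vol.ne
  have : IsFiniteMeasure (volume.restrict D) := ⟨by rw [Measure.restrict_apply_univ]; exact h.col.vol⟩
  have hmem : MemLp (D.indicator (corr z ρ Y)) 2 (volume : Measure (En d)) := by
    rw [memLp_indicator_iff_restrict hm]
    refine MemLp.of_bound (hb.1.continuousOn.aestronglyMeasurable hm) (C * A) ?_
    filter_upwards [ae_restrict_mem hm] with x hx
    exact (hC ρ hρ hρδ hρ1 Y A hY hk x hx).1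
  have hS : MeasurableSet (D ∩ {x | z x ≤ 2 * ρ}) :=
    hm.inter (measurableSet_le h.smo.continuous.measurable measurable_const)
  have hSfin : volume (D ∩ {x | z x ≤ 2 * ρ}) ≠ ∞ := ((measure_mono inter_subset_left).trans_lt h.col.vol).ne
  have h1 : ‖cl (D.indicator (corr z ρ Y))‖ ^ 2 ≤ (C * A) ^ 2 * (C' * (2 * ρ)) := by
    rw [norm_sq_cl hmem]
    calc ∫ x, ‖D.indicator (corr z ρ Y) x‖ ^ 2
        ≤ ∫ x, (D ∩ {x | z x ≤ 2 * ρ}).indicator (fun _ => (C * A) ^ 2) x := by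
          refine integral_mono (hmem.integrable_norm_pow (by norm_num)) ?_ fun x => ?_
          · rw [integrable_indicator_iff hS]
            exact integrableOn_const hSfin
          · show ‖D.indicator (corr z ρ Y) x‖ ^ 2 ≤ _
            by_cases hx : x ∈ D
            · by_cases hz : z x ≤ 2 * ρ
              · rw [indicator_of_mem hx, indicator_of_mem (show x ∈ D ∩ {x | z x ≤ 2 * ρ} from ⟨hx, hz⟩)]
                exact pow_le_pow_left₀ (norm_nonneg _) (hC ρ hρ hρδ hρ1 Y A hY hk x hx).1 2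
              · rw [indicator_of_mem hx, corr_zero h hρ hY hx (le_of_lt (not_le.1 hz)), norm_zero]
                rw [zero_pow two_ne_zero]
                exact indicator_nonneg (fun _ _ => by positivity) x
            · rw [indicator_of_notMem hx, norm_zero, zero_pow two_ne_zero]
              exact indicator_nonneg (fun _ _ => by positivity) x
      _ = (C * A) ^ 2 * volume.real (D ∩ {x | z x ≤ 2 * ρ}) := by
          rw [integral_indicator hS, setIntegral_const, smul_eq_mul, mul_comm]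
      _ ≤ (C * A) ^ 2 * (C' * (2 * ρ)) :=
          mul_le_mul_of_nonneg_left (hC' (2 * ρ) (by positivity)) (by positivity)
  refine (PD_le _).trans ?_
  refine le_of_sq_le_sq ?_ (by positivity)
  refine h1.trans (le_of_eq ?_)
  have h2 : √(2 * C') ^ 2 = 2 * C' := Real.sq_sqrt (by positivity)
  have h3 : √ρ ^ 2 = ρ := Real.sq_sqrt hρ.le
  calc (C * A) ^ 2 * (C' * (2 * ρ)) = C ^ 2 * (2 * C') * ρ * A ^ 2 := by ring
    _ = C ^ 2 * √(2 * C') ^ 2 * √ρ ^ 2 * A ^ 2 := by rw [h2, h3]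
    _ = (C * √(2 * C') * √ρ * A) ^ 2 := by ring

/-- time dependence -/
theorem corr_sep (h : Dom D z δ) {ρ : ℝ} (hρ : 0 < ρ) {Y : ℝ → En d → En d} (hY : Sep D Y) :
    Sep D (fun t => corr z ρ (Y t)) ∧ ∀ t, ∀ x ∈ D, dtm (fun t => corr z ρ (Y t)) t x = corr z ρ (dtm Y t) x := by
  have hD := h.col.isOpen
  obtain ⟨n, c, g, hc, hg, hY⟩ := hY
  have key : ∀ (e : Fin n → ℝ) (f : En d → En d), (∀ x ∈ D, f x = ∑ k, e k • g k x) → ∀ x ∈ D,
      corr z ρ f x = ∑ k, e k • corr z ρ (g k) x := by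
    intro e f hf x hx
    rw [← corr_sum h hρ e hg hx]
    ext i
    show ∑ j, pd j (cE z ρ f i j) x = ∑ j, pd j (cE z ρ (fun x => ∑ k, e k • g k x) i j) x
    refine Finset.sum_congr rfl fun j _ => ?_
    have h1 : fderiv ℝ (cE z ρ f i j) x = fderiv ℝ (cE z ρ (fun x => ∑ k, e k • g k x) i j) x := by
      refine fderiv_congr_on hD (fun y hy => ?_) hx
      unfold cE
      rw [hf y hy]
    show fderiv ℝ (cE z ρ f i j) x (ei j) = _
    rw [h1]
    rfl
  have hder : ∀ (G : Fin n → En d) (t : ℝ), HasDerivAt (fun s => ∑ k, c k s • G k) (∑ k, deriv (c k) t • G k) t := by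
    intro G t
    refine HasDerivAt.fun_sum fun k _ => ?_
    exact (((hc k).differentiable (by norm_num)) t).hasDerivAt.smul_const (G k)
  refine ⟨⟨n, c, fun k => corr z ρ (g k), hc, fun k => corr_bd h hρ (hg k), fun t x hx =>
    key (fun k => c k t) (Y t) (hY t) x hx⟩, fun t x hx => ?_⟩
  have h2 : (fun s => corr z ρ (Y s) x) = fun s => ∑ k, c k s • corr z ρ (g k) x := by
    ext1 s
    exact key (fun k => c k s) (Y s) (hY s) x hx
  have h3 : dtm (fun t => corr z ρ (Y t)) t x = ∑ k, deriv (c k) t • corr z ρ (g k) x := by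
    show deriv (fun s => corr z ρ (Y s) x) t = _
    rw [h2]
    exact (hder (fun k => corr z ρ (g k) x) t).deriv
  rw [h3]
  refine (key (fun k => deriv (c k) t) (dtm Y t) (fun y hy => ?_) x hx).symm
  have h4 : (fun s => Y s y) = fun s => ∑ k, c k s • g k y := by
    ext1 s
    exact hY s y hy
  show deriv (fun s => Y s y) t = _
  rw [h4]
  exact (hder (fun k => g k y) t).deriv

/-- Directional derivatives: only the normal derivative is large. -/
theorem corr_fd (h : Dom D z δ) : ∃ C : ℝ, 0 ≤ C ∧ ∀ (ρ : ℝ), 0 < ρ → ρ ≤ 1 → ∀ (Y : En d → En d) (A : ℝ),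
    BD D Y → Bk D 2 A Y → ∀ x ∈ D, (∀ v : En d, ‖fderiv ℝ (corr z ρ Y) x v‖ ≤
      C * A * (|⟪gradient z x, v⟫| / ρ + ‖v‖)) ∧ (2 * ρ < z x → fderiv ℝ (corr z ρ Y) x = 0) := by
  have hD := h.col.isOpen
  obtain ⟨K, hK0, hK⟩ := cab_bd
  obtain ⟨CP, hCP0, hCP⟩ := cP_Bk h
  obtain ⟨CW, hCW0, hCW⟩ := cW_Bk h
  obtain ⟨N, hN0, hN⟩ := (Smo.bd h.bdd h.smo).exists_Bk 1
  refine ⟨K * ((1 + N) * (CP + CW)), by positivity, fun ρ hρ hρ1 Y A hY hk x hx => ?_⟩
  have hA : 0 ≤ A := (norm_nonneg _).trans (hk.le0 hx)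
  have hz : 0 < z x := (h.pos x).1 hx
  have hkP := hCP Y A hY hA hk
  have hkW := hCW Y A hY hA hk
  have hzero : 2 * ρ < z x → fderiv ℝ (corr z ρ Y) x = 0 := by
    intro hgt
    have ho : IsOpen (D ∩ {y | 2 * ρ < z y}) := hD.inter (isOpen_lt continuous_const h.smo.continuous)
    have h1 : corr z ρ Y =ᶠ[𝓝 x] fun _ => 0 :=
      Filter.eventuallyEq_of_mem (ho.mem_nhds ⟨hx, hgt⟩) fun y hy =>
        corr_zero h hρ hY hy.1 (le_of_lt hy.2)
    rw [h1.fderiv_eq, fderiv_fun_const]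
    rfl
  refine ⟨fun v => ?_, hzero⟩
  rcases le_or_gt (z x) (2 * ρ) with hle | hgt
  · have hu : z x / ρ ∈ Icc (0:ℝ) 2 := ⟨by positivity, (div_le_iff₀ hρ).2 hle⟩
    obtain ⟨k1, k2, k3⟩ := hK _ hu
    have hP := hkP.le0 hx
    have hW := hkW.le0 hx
    have hP1 := Bk.le1 (k := 0) hkP hx
    have hW1 := Bk.le1 (k := 0) hkW hx
    have hz1 := Bk.le1 (k := 0) hN hx
    have f0 : HasFDerivAt z (fderiv ℝ z x) x := (h.smo.differentiable x).hasFDerivAt
    have f1 : HasFDerivAt (fun y => z y / ρ) (ρ⁻¹ • fderiv ℝ z x) x := by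
      have := f0.const_mul ρ⁻¹
      refine this.congr_of_eventuallyEq (Filter.Eventually.of_forall fun y => ?_)
      show z y / ρ = ρ⁻¹ * z y
      ring
    have f2 : HasFDerivAt (fun y => ca (z y / ρ)) (deriv ca (z x / ρ) • (ρ⁻¹ • fderiv ℝ z x)) x :=
      HasDerivAt.comp_hasFDerivAt (h₂ := ca) x (ca_deriv (z x / ρ)) f1
    have f3 : HasFDerivAt (fun y => ρ * cb (z y / ρ)) (ρ • (ca (z x / ρ) • (ρ⁻¹ • fderiv ℝ z x))) x :=
      (HasDerivAt.comp_hasFDerivAt (h₂ := cb) x (cb_deriv (z x / ρ)) f1).const_mul ρ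
    have f4 : HasFDerivAt (cP z Y) (fderiv ℝ (cP z Y) x) x := ((cP_bd h hY).differentiableAt hD hx).hasFDerivAt
    have f5 : HasFDerivAt (cW z Y) (fderiv ℝ (cW z Y) x) x := ((cW_bd h hY).differentiableAt hD hx).hasFDerivAt
    have f6 := (f2.smul f4).add (f3.smul f5)
    have f7 : fderiv ℝ (corr z ρ Y) x = fderiv ℝ (fun y => ca (z y / ρ) • cP z Y y + (ρ * cb (z y / ρ)) • cW z Y y) x :=
      fderiv_congr_on hD (fun y hy => corr_eq' h hρ hY hy) hx
    rw [f7]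
    have f8 : fderiv ℝ (fun y => ca (z y / ρ) • cP z Y y + (ρ * cb (z y / ρ)) • cW z Y y) x = _ := f6.fderiv
    rw [f8]
    have hzv : fderiv ℝ z x v = ⟪gradient z x, v⟫ := by
      unfold gradient
      rw [InnerProductSpace.toDual_symm_apply]
    obtain ⟨s, hs⟩ : ∃ s, s = ⟪gradient z x, v⟫ := ⟨_, rfl⟩
    have hsN : |s| ≤ N * ‖v‖ := by
      rw [hs, ← hzv, ← Real.norm_eq_abs]
      exact (ContinuousLinearMap.le_opNorm _ _).trans (mul_le_mul_of_nonneg_right hz1 (norm_nonneg _))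
    rw [← hs] at hzv ⊢
    have e0 : (ca (z x / ρ) • fderiv ℝ (cP z Y) x +
        ContinuousLinearMap.smulRight (deriv ca (z x / ρ) • (ρ⁻¹ • fderiv ℝ z x)) (cP z Y x) +
        ((ρ * cb (z x / ρ)) • fderiv ℝ (cW z Y) x +
        ContinuousLinearMap.smulRight (ρ • (ca (z x / ρ) • (ρ⁻¹ • fderiv ℝ z x))) (cW z Y x))) v =
        ca (z x / ρ) • fderiv ℝ (cP z Y) x v + (deriv ca (z x / ρ) * (ρ⁻¹ * s)) • cP z Y x +
        ((ρ * cb (z x / ρ)) • fderiv ℝ (cW z Y) x v + (ρ * (ca (z x / ρ) * (ρ⁻¹ * s))) • cW z Y x) := by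
      simp only [add_apply, smul_apply, ContinuousLinearMap.smulRight_apply, smul_eq_mul, hzv]
    refine le_trans (le_of_eq (congrArg norm e0)) ?_
    refine (norm_add_le _ _).trans ((add_le_add (norm_add_le _ _) (norm_add_le _ _)).trans ?_)
    have hv0 := norm_nonneg v
    have g1 : ‖ca (z x / ρ) • fderiv ℝ (cP z Y) x v‖ ≤ K * (CP * A * ‖v‖) := by
      rw [norm_smul, Real.norm_eq_abs]
      refine mul_le_mul k1 ?_ (norm_nonneg _) hK0
      exact (ContinuousLinearMap.le_opNorm _ _).trans (mul_le_mul_of_nonneg_right hP1 hv0)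
    have g2 : ‖(deriv ca (z x / ρ) * (ρ⁻¹ * s)) • cP z Y x‖ ≤ K * (ρ⁻¹ * |s|) * (CP * A) := by
      rw [norm_smul, Real.norm_eq_abs, abs_mul, abs_mul, abs_of_pos (inv_pos.2 hρ)]
      exact mul_le_mul (mul_le_mul_of_nonneg_right k2 (by positivity)) hP (norm_nonneg _) (by positivity)
    have g3 : ‖(ρ * cb (z x / ρ)) • fderiv ℝ (cW z Y) x v‖ ≤ (1 * K) * (CW * A * ‖v‖) := by
      rw [norm_smul, Real.norm_eq_abs, abs_mul, abs_of_pos hρ]
      refine mul_le_mul (mul_le_mul hρ1 k3 (abs_nonneg _) zero_le_one) ?_ (norm_nonneg _) (by positivity)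
      exact (ContinuousLinearMap.le_opNorm _ _).trans (mul_le_mul_of_nonneg_right hW1 hv0)
    have g4 : ‖(ρ * (ca (z x / ρ) * (ρ⁻¹ * s))) • cW z Y x‖ ≤ (K * (N * ‖v‖)) * (CW * A) := by
      have g5 : ρ * (ca (z x / ρ) * (ρ⁻¹ * s)) = ca (z x / ρ) * s := by
        field_simp
      rw [g5, norm_smul, Real.norm_eq_abs, abs_mul]
      exact mul_le_mul (mul_le_mul k1 hsN (abs_nonneg _) hK0) hW (norm_nonneg _) (by positivity)
    have e4 : K * ((1 + N) * (CP + CW)) * A * (|s| / ρ + ‖v‖) = K * (CP * A * ‖v‖) + K * (ρ⁻¹ * |s|) * (CP * A) +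
        ((1 * K) * (CW * A * ‖v‖) + (K * (N * ‖v‖)) * (CW * A)) + (K * (N * ‖v‖) * (CP * A) +
        K * (ρ⁻¹ * |s|) * (CW * A) + K * (ρ⁻¹ * |s|) * (N * (CP + CW) * A)) := by
      rw [div_eq_mul_inv]; ring
    have e5 : 0 ≤ K * (N * ‖v‖) * (CP * A) +
        K * (ρ⁻¹ * |s|) * (CW * A) + K * (ρ⁻¹ * |s|) * (N * (CP + CW) * A) := by positivity
    linarith
  · rw [hzero hgt, zero_apply, norm_zero]
    positivity

end Pool.Agent.Lib.MP_79abb3_an.W
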