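import Pool.Agent.Lib.MP_79abb3_an.W.DX4
import Pool.Agent.Lib.MP_79abb3_an.W.EFc
import Pool.Agent.Lib.MP_79abb3_an.W.EFe

/-!
Theorem W (MP_79abb3_an), block EG (the reference fields of one move): definitions.

`e` is the thickness of the layers; in the end `e = √b / q¹²`. Time is rescaled, `t ∈ [0,1]`, the physical time is `b t`. The
layers are built with the amplitude `ap(t) = b^{-1/2} a(t/b)`.
-/

set_option autoImplicit false
set_option linter.unusedSectionVars false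

open MeasureTheory Set Filter Topology Function
open scoped ENNReal RealInnerProductSpace

namespace Pool.Agent.Lib.MP_79abb3_an.W

/-- All fields of one move before the frequency is chosen, and the numbers which bound them. -/
structure Fld (d : ℕ) where
  z : En d → ℝ
  δ : ℝ
  /-- the control ball `closedBall p r`, `B = closedBall p (r/2)` -/
  p : En d
  rr : ℝ
  /-- amplitude, length of the time interval, width of the corrector -/
  a : ℝ → ℝ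
  b : ℝ
  ρ : ℝ
  /-- slow field and slow one form -/
  Y : ℝ → En d → En d
  F : ℝ → En d → En d
  /-- the drift which is wanted -/
  V₀ : En d → En d
  /-- waves and potentials of order `0` -/
  n : ℕ
  P : Fin n → En d → En d
  Q : Fin n → En d → En d
  ψ : Fin n → En d → ℝ
  ψ' : Fin n → En d → ℝ
  /-- the streaming `C0 + e C1` -/
  C0 : En d → En d
  C1 : En d → En d
  /-- layers, bulk correctors, residual and pressure -/
  RL : Fam d (En d)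
  RB : Fam d (En d)
  rN : Fam d (En d)
  πN : Fam d ℝ
  /-- cut off of the force -/
  χ₁ : En d → ℝ
  /-- bounds: `V₀` in `C¹`, `a'`, `Y` and `F` in `C²`, error of the slow equation, corrector in `C¹`, `sl` in `C²`, norm of the
  corrector of `∂_t Y`, closeness of the drift, `C0` in `C²`, size of the layers, residual -/
  Kv : ℝ
  Ka : ℝ
  K : ℝ
  η : ℝ
  Kc : ℝ
  Ks : ℝ
  ηc : ℝ
  εC : ℝ
  KC : ℝ
  K₀ : ℝ
  κ : ℝ
  Cr : ℝ
  cr : ℝ

namespace Fld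
variable {d : ℕ} (X : Fld d)

/-- the closed ball on which nothing is required of the waves -/
def B : Set (En d) := Metric.closedBall X.p (X.rr / 2)

/-- the amplitude in physical time -/
noncomputable def ap (t : ℝ) : ℝ := (√X.b)⁻¹ * X.a (t / X.b)

/-- the waves with the potentials of order `0` -/
noncomputable def Wv (e : ℝ) : Wav d where
  n := X.n
  α := fun j => 4 ^ (j : ℕ)
  p := fun j x => X.P j x + e • gd (X.ψ j) x
  r := fun j x => X.Q j x + e • gd (X.ψ' j) x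

/-- the streaming -/
noncomputable def S0 (e t : ℝ) (x : En d) : En d := (X.a t ^ 2 / X.b) • (X.C0 x + e • X.C1 x)
/-- the layers -/
noncomputable def RR (e t : ℝ) (x : En d) : En d := X.RL e (X.b * t) x + X.RB e (X.b * t) x
/-- the corrector -/
noncomputable def co (t : ℝ) : En d → En d := corr X.z X.ρ (X.Y t)
/-- the slow field with zero boundary values -/
noncomputable def sl (t : ℝ) (x : En d) : En d := X.Y t x - X.co t x
/-- the slow field in the fast transport -/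
noncomputable def Sa (e t : ℝ) (x : En d) : En d := X.sl t x + X.S0 e t x
/-- the bounded field -/
noncomputable def Se (e t : ℝ) (x : En d) : En d := X.Y t x + X.S0 e t x
/-- the thin field -/
noncomputable def Rt (e t : ℝ) (x : En d) : En d := X.RR e t x - X.co t x
/-- the fields of block D in physical time -/
noncomputable def uu : Fam d (En d) := fun e t x =>
  uPD X.P X.Q X.ψ X.ψ' X.ap e t x + uS X.ap X.C0 X.C1 e t x + (X.RL e t x + X.RB e t x)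
/-- the reference field -/
noncomputable def u (e t : ℝ) (x : En d) : En d := X.uu e (X.b * t) x + X.sl t x
/-- the coupling of the layers with the slow field -/
noncomputable def cpl (e t : ℝ) (x : En d) : En d :=
  fderiv ℝ (X.RR e t) x (X.sl t x) + fderiv ℝ (X.sl t) x (X.RR e t x)
/-- the residual -/
noncomputable def r (e t : ℝ) (x : En d) : En d :=
  fderiv ℝ (X.Sa e t) x (X.Sa e t x) - lap (X.Sa e t) x + X.cpl e t x + X.rN e (X.b * t) x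
/-- the force on the slow field: it compensates the drift in `B` -/
noncomputable def fN (e t : ℝ) (x : En d) : En d :=
  -((X.χ₁ x * X.a t ^ 2) • lieF (fun y => (X.Wv e).Vb y - X.V₀ y) (fun y => X.F t y + X.S0 e t y) x)

/-- the input of block DE; `MN` is the damping in `B` -/
noncomputable def I (e q MN : ℝ) : DIn d where
  wv := X.Wv e
  q := q
  b := X.b
  a := X.a
  u := X.u e
  R := X.Rt e
  Se := X.Se e
  Sa := X.Sa e
  r := X.r e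
  fN := X.fN e
  χ := X.B.indicator fun _ => MN

/-- The hypotheses on the fields. -/
structure OK (D : Set (En d)) : Prop where
  d2 : d = 2 ∨ d = 3
  stg : Stg D X.B X.z X.δ
  r0 : 0 < X.rr
  sub : Metric.closedBall X.p X.rr ⊆ D
  /- amplitude -/
  as : ContDiff ℝ ((⊤ : ℕ∞) : WithTop ℕ∞) X.a
  a0 : ∀ t, 0 ≤ X.a t
  a1 : ∀ t, X.a t ≤ 1
  al : ∀ t, t ≤ 1 / 4 → X.a t = 0
  ar : ∀ t, 3 / 4 ≤ t → X.a t = 0
  a' : ∀ t, |deriv X.a t| ≤ X.Ka
  b0 : 0 < X.b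
  b1 : X.b ≤ 1
  /- corrector -/
  ρ0 : 0 < X.ρ
  ρ1 : X.ρ ≤ 1
  ρδ : X.ρ ≤ X.δ
  /- slow fields -/
  sY : Sep D X.Y
  sF : Sep D X.F
  lr : ∀ t, IsLr D X.z (X.F t) (X.Y t)
  K1 : 0 ≤ X.K
  bY : ∀ t, Bk D 2 X.K (X.Y t)
  bF : ∀ t, Bk D 2 X.K (X.F t)
  η0 : 0 ≤ X.η
  slow : ∀ t, ∀ x ∈ D, ‖X.a t ^ 2 • lieF X.V₀ (X.F t) x + dtm X.F t x‖ ≤ X.η
  pd : ∀ t, PcD D (dtm X.Y t) = PcD D (dtm X.F t)
  bco : ∀ t ∈ Icc (0:ℝ) 1, Bk D 1 X.Kc (X.co t)
  Kc0 : 0 ≤ X.Kc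
  bsl : ∀ t ∈ Icc (0:ℝ) 1, Bk D 2 X.Ks (X.sl t)
  Ks0 : 0 ≤ X.Ks
  pco : ∀ t ∈ Icc (0:ℝ) 1, ‖PcD D (corr X.z X.ρ (dtm X.Y t))‖ ≤ X.ηc
  /- the drift which is wanted: zero near the walls -/
  V₀b : BD D X.V₀
  V₀k : Bk D 1 X.Kv X.V₀
  Kv0 : 0 ≤ X.Kv
  V₀z : ∀ x ∈ D, X.z x ≤ 2 * X.ρ → X.V₀ x = 0 ∧ fderiv ℝ X.V₀ x = 0
  /- waves -/
  wP : ∀ j, Wave D X.B X.z (X.P j)
  wQ : ∀ j, Wave D X.B X.z (X.Q j)
  ε0 : 0 ≤ X.εC
  ε1 : X.εC ≤ 1
  near : Bk (D \ X.B) 1 X.εC fun x => (∑ j : Fin X.n, (2 * 4 ^ (j : ℕ) : ℝ)⁻¹ • brk (X.P j) (X.Q j) x) - X.V₀ x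
  hψ : ∀ j, BD D (X.ψ j) ∧ ∀ x ∈ D, lap (X.ψ j) x = 0
  hψ' : ∀ j, BD D (X.ψ' j) ∧ ∀ x ∈ D, lap (X.ψ' j) x = 0
  /- streaming -/
  C0b : BD D X.C0
  C0d : ∀ x ∈ D, dv X.C0 x = 0
  C0n : Oz D X.z fun x => ⟪gd X.z x, X.C0 x⟫
  C0k : Bk D 2 X.KC X.C0
  KC0 : 0 ≤ X.KC
  KCb : X.KC / X.b ≤ 1 / 4
  C1b : BD D X.C1
  C1d : ∀ x ∈ D, dv X.C1 x = 0
  /- layers -/
  lay : Layers D X.B X.z X.K₀ X.κ (√X.b)⁻¹ X.ap (uPD X.P X.Q X.ψ X.ψ' X.ap) (uS X.ap X.C0 X.C1) X.RL X.RB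
  frN : FFS D X.rN
  cr0 : 0 < X.cr
  brN : ∀ e ∈ Ioc (0 : ℝ) 1, ∀ t, ∀ x ∈ D,
    ‖X.rN e t x‖ ≤ X.Cr * (e⁻¹ * Real.exp (-(X.cr * (X.z x / e))) + e)
  sπ : ∀ e ∈ Ioc (0 : ℝ) 1, ∀ t, ContDiffOn ℝ ((⊤ : ℕ∞) : WithTop ℕ∞) (X.πN e t) (D \ X.B)
  eN : ∀ e ∈ Ioc (0 : ℝ) 1, ∀ t, ∀ x ∈ D \ X.B,
    Res X.uu (uPD X.P X.Q X.ψ X.ψ' X.ap) (uS X.ap X.C0 X.C1) e t x = X.rN e t x + gd (X.πN e t) x
  /- cut off -/
  χs : ContDiff ℝ ((⊤ : ℕ∞) : WithTop ℕ∞) X.χ₁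
  χ01 : ∀ x, X.χ₁ x ∈ Icc (0:ℝ) 1
  χB : ∀ x ∈ X.B, X.χ₁ x = 1
  χo : ∀ x, x ∉ Metric.closedBall X.p X.rr → X.χ₁ x = 0

end Fld

end Pool.Agent.Lib.MP_79abb3_an.W
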