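import Pool.Agent.Lib.MP_79abb3_an.W.EFe2
import Pool.Agent.Lib.MP_79abb3_an.W.EFs
import Pool.Agent.Lib.MP_79abb3_an.W.EGDef

/-!
Theorem W (MP_79abb3_an), block EG (the reference fields of one move): time dependence (the class Sep).
-/

set_option autoImplicit false
set_option linter.unusedSectionVars false

open MeasureTheory Set Filter Topology Function
open scoped ENNReal RealInnerProductSpace

namespace Pool.Agent.Lib.MP_79abb3_an.W

variable {d : ℕ} {X : Fld d} {D : Set (En d)} {z : En d → ℝ} {δ : ℝ}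

variable {G : Type} [NormedAddCommGroup G] [NormedSpace ℝ G] {e : ℝ}

/-- `FS` (block D) and `Sep` (block DE) are the same class (`Sep.of_fintype`). -/
theorem FS.sep {f : ℝ → En d → G} (h : FS D f) : Sep D f := by
  obtain ⟨ι, _, c, v, hc, hv, h⟩ := h
  exact Sep.of_fintype c v hc hv h

private theorem eg2_lap (hD : IsOpen D) {f : ℝ → En d → En d} (hf : Sep D f) : Sep D (fun t => lap (f t)) := by
  have h1 : ∀ (i : Fin d) {g : ℝ → En d → En d}, Sep D g → Sep D (fun t => pd i (g t)) := by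
    intro i g hg
    exact (Sep.fderiv hD hg).clm hD (ContinuousLinearMap.apply ℝ (En d) (ei i))
  exact Sep.sum hD Finset.univ fun i _ => h1 i (h1 i hf)

namespace Fld.OK

private theorem eg2_open (h : X.OK D) : IsOpen D := h.stg.dom.isOpen

private theorem eg2_bt (X : Fld d) : ContDiff ℝ ((⊤ : ℕ∞) : WithTop ℕ∞) (fun t : ℝ => X.b * t) :=
  contDiff_const.mul contDiff_id


/-- the corrector (`corr_sep`) -/
theorem sep_co (h : X.OK D) : Sep D X.co ∧ ∀ t, ∀ x ∈ D, dtm X.co t x = corr X.z X.ρ (dtm X.Y t) x := by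
  exact corr_sep h.stg.dom h.ρ0 h.sY

theorem sep_sl (h : X.OK D) : Sep D X.sl := by
  exact h.sY.sub h.sep_co.1

theorem sep_S0 (h : X.OK D) (e : ℝ) : Sep D (X.S0 e) := by
  have hD := h.eg2_open
  exact (Sep.of_bd (h.C0b.add hD (h.C1b.const_smul hD e))).smul ((h.as.pow 2).div_const X.b)

/-- the layers: `lay.lay.fs`, `lay.bk.1`, `FS.sep`, `Sep.comp` -/
theorem sep_RR (h : X.OK D) (he : e ∈ Ioc (0:ℝ) 1) : Sep D (X.RR e) := by
  exact ((h.lay.lay.fs e he).sep.comp (eg2_bt X)).add ((h.lay.bk.1 e he).sep.comp (eg2_bt X))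

theorem sep_Sa (h : X.OK D) (e : ℝ) : Sep D (X.Sa e) := by
  exact h.sep_sl.add (h.sep_S0 e)

theorem sep_Se (h : X.OK D) (e : ℝ) : Sep D (X.Se e) := by
  exact h.sY.add (h.sep_S0 e)

theorem sep_Rt (h : X.OK D) (he : e ∈ Ioc (0:ℝ) 1) : Sep D (X.Rt e) := by
  exact (h.sep_RR he).sub h.sep_co.1

/-- `lay.ffs`, `FS.sep`, `Sep.comp` -/
theorem sep_u (h : X.OK D) (he : e ∈ Ioc (0:ℝ) 1) : Sep D (X.u e) := by
  exact ((h.lay.ffs e he).sep.comp (eg2_bt X)).add h.sep_sl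

theorem sep_cpl (h : X.OK D) (he : e ∈ Ioc (0:ℝ) 1) : Sep D (X.cpl e) := by
  have hD := h.eg2_open
  exact ((Sep.fderiv hD (h.sep_RR he)).apply hD h.sep_sl).add ((Sep.fderiv hD h.sep_sl).apply hD (h.sep_RR he))

theorem sep_r (h : X.OK D) (he : e ∈ Ioc (0:ℝ) 1) : Sep D (X.r e) := by
  have hD := h.eg2_open
  exact ((((Sep.fderiv hD (h.sep_Sa e)).apply hD (h.sep_Sa e)).sub (eg2_lap hD (h.sep_Sa e))).add
    (h.sep_cpl he)).add ((h.frN e he).sep.comp (eg2_bt X))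

/-- the drift is in the class `BD` -/
theorem bd_Vb (h : X.OK D) (e : ℝ) : BD D (X.Wv e).Vb := by
  have hD := h.eg2_open
  refine BD.sum hD Finset.univ fun j _ => BD.const_smul hD _ ?_
  exact BD.brk hD ((h.wP j).bd.add hD ((BD.gd hD (h.hψ j).1).const_smul hD e))
    ((h.wQ j).bd.add hD ((BD.gd hD (h.hψ' j).1).const_smul hD e))

theorem sep_fN (h : X.OK D) (e : ℝ) : Sep D (X.fN e) := by
  have hD := h.eg2_open
  have h1 : Sep D (fun t x => lieF (fun y => (X.Wv e).Vb y - X.V₀ y) (fun y => X.F t y + X.S0 e t y) x) :=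
    (Sep.lieF hD ((h.bd_Vb e).sub hD h.V₀b) (h.sF.add (h.sep_S0 e))).1
  have hχ : BD D X.χ₁ := Smo.bd h.stg.dom.bdd h.χs
  have h2 : Sep D (fun t x => X.χ₁ x * X.a t ^ 2) :=
    ((Sep.of_bd hχ).smul (h.as.pow 2)).congr fun t x _ => mul_comm _ _
  exact (Sep.fun_smul hD h2 h1).neg

end Fld.OK

end Pool.Agent.Lib.MP_79abb3_an.W
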