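import Pool.Agent.Lib.MP_79abb3_an.W.EGDef
import Pool.Agent.Lib.MP_79abb3_an.W.EG2

section

/-!
Theorem W (MP_79abb3_an), block EG (the reference fields of one move): the drift.
-/

set_option autoImplicit false
set_option linter.unusedSectionVars false

open MeasureTheory Set Filter Topology Function
open scoped ENNReal RealInnerProductSpace

namespace Pool.Agent.Lib.MP_79abb3_an.W

variable {d : ℕ} {X : Fld d} {D : Set (En d)} {z : En d → ℝ} {δ : ℝ}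

namespace Fld.OK
variable {e : ℝ}

/-! ### auxiliary lemmas -/

private theorem eg7_brk (e : ℝ) {P g Q g' : En d → En d} {x : En d} (hP : DifferentiableAt ℝ P x)
    (hg : DifferentiableAt ℝ g x) (hQ : DifferentiableAt ℝ Q x) (hg' : DifferentiableAt ℝ g' x) :
    brk (fun x => P x + e • g x) (fun x => Q x + e • g' x) x =
      brk P Q x + e • (brk P g' x + brk g Q x) + e ^ 2 • brk g g' x := by
  unfold brk
  rw [fderiv_fun_add hP (hg.fun_const_smul e), fderiv_fun_add hQ (hg'.fun_const_smul e),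
    fderiv_fun_const_smul hg e, fderiv_fun_const_smul hg' e]
  simp only [add_apply, smul_apply, map_add, map_smul]
  module

private noncomputable def eg7V0 (X : Fld d) (x : En d) : En d :=
  ∑ j : Fin X.n, (2 * 4 ^ (j : ℕ) : ℝ)⁻¹ • brk (X.P j) (X.Q j) x

private noncomputable def eg7X1 (X : Fld d) (x : En d) : En d :=
  ∑ j : Fin X.n, (2 * 4 ^ (j : ℕ) : ℝ)⁻¹ • (brk (X.P j) (gd (X.ψ' j)) x + brk (gd (X.ψ j)) (X.Q j) x)

private noncomputable def eg7X2 (X : Fld d) (x : En d) : En d :=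
  ∑ j : Fin X.n, (2 * 4 ^ (j : ℕ) : ℝ)⁻¹ • brk (gd (X.ψ j)) (gd (X.ψ' j)) x

private theorem eg7_open (h : X.OK D) : IsOpen D := h.stg.dom.isOpen

private theorem eg7_openB (h : X.OK D) : IsOpen (D \ X.B) := (eg7_open h).sdiff h.stg.clo

private theorem eg7_gψ (h : X.OK D) (j : Fin X.n) : BD D (gd (X.ψ j)) := (h.hψ j).1.gd (eg7_open h)

private theorem eg7_gψ' (h : X.OK D) (j : Fin X.n) : BD D (gd (X.ψ' j)) := (h.hψ' j).1.gd (eg7_open h)

private theorem eg7_b0 (h : X.OK D) : BD D (eg7V0 X) :=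
  BD.sum (eg7_open h) _ fun j _ => ((h.wP j).bd.brk (eg7_open h) (h.wQ j).bd).const_smul (eg7_open h) _

private theorem eg7_b1 (h : X.OK D) : BD D (eg7X1 X) :=
  BD.sum (eg7_open h) _ fun j _ => (((h.wP j).bd.brk (eg7_open h) (eg7_gψ' h j)).add (eg7_open h)
    ((eg7_gψ h j).brk (eg7_open h) (h.wQ j).bd)).const_smul (eg7_open h) _

private theorem eg7_b2 (h : X.OK D) : BD D (eg7X2 X) :=
  BD.sum (eg7_open h) _ fun j _ => ((eg7_gψ h j).brk (eg7_open h) (eg7_gψ' h j)).const_smul (eg7_open h) _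

private theorem eg7_eq (h : X.OK D) (e : ℝ) : ∀ x ∈ D, (X.Wv e).Vb x =
    eg7V0 X x + (e • eg7X1 X x + e ^ 2 • eg7X2 X x) := by
  intro x hx
  have hD := eg7_open h
  show ∑ j : Fin X.n, (2 * ((4 ^ (j : ℕ) : ℕ) : ℝ) : ℝ)⁻¹ • brk (fun x => X.P j x + e • gd (X.ψ j) x)
    (fun x => X.Q j x + e • gd (X.ψ' j) x) x = _
  unfold eg7V0 eg7X1 eg7X2
  rw [Finset.smul_sum, Finset.smul_sum, ← Finset.sum_add_distrib, ← Finset.sum_add_distrib]
  refine Finset.sum_congr rfl fun j _ => ?_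
  rw [eg7_brk e ((h.wP j).bd.differentiableAt hD hx) ((eg7_gψ h j).differentiableAt hD hx)
    ((h.wQ j).bd.differentiableAt hD hx) ((eg7_gψ' h j).differentiableAt hD hx)]
  push_cast
  module

private theorem eg7_near (h : X.OK D) : ∃ C : ℝ, 0 ≤ C ∧ ∀ e ∈ Ioc (0:ℝ) 1, Bk D 2 (C * e) fun x =>
    (X.Wv e).Vb x - eg7V0 X x := by
  have hD := eg7_open h
  obtain ⟨M1, h10, h1⟩ := (eg7_b1 h).exists_Bk 2
  obtain ⟨M2, h20, h2⟩ := (eg7_b2 h).exists_Bk 2
  refine ⟨M1 + M2, by positivity, fun e he => ?_⟩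
  have e1 : Bk D 2 (|e| * M1) fun x => e • eg7X1 X x := h1.const_smul hD e (eg7_b1 h).1
  have e2 : Bk D 2 (|e ^ 2| * M2) fun x => e ^ 2 • eg7X2 X x := h2.const_smul hD (e ^ 2) (eg7_b2 h).1
  have e3 := e1.add hD ((eg7_b1 h).const_smul hD e).1 ((eg7_b2 h).const_smul hD (e ^ 2)).1 e2
  refine (e3.mono le_rfl ?_).congr hD fun x hx => ?_
  · rw [abs_of_pos he.1, abs_of_pos (pow_pos he.1 2)]
    have h3 : e ^ 2 ≤ e := by nlinarith [he.1, he.2]
    have h4 : e ^ 2 * M2 ≤ e * M2 := mul_le_mul_of_nonneg_right h3 h20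
    linarith
  · rw [eg7_eq h e x hx, add_sub_cancel_left]

private theorem eg7_sym {O : Set (En d)} (hO : IsOpen O) (e : ℝ) {P : En d → En d} {p ψ : En d → ℝ}
    (hp : ContDiffOn ℝ ((⊤ : ℕ∞) : WithTop ℕ∞) p O) (hψ : ContDiffOn ℝ ((⊤ : ℕ∞) : WithTop ℕ∞) ψ O)
    (hP : ∀ x ∈ O, P x = gd p x) {x : En d} (hx : x ∈ O) (v w : En d) :
    ⟪fderiv ℝ (fun x => P x + e • gd ψ x) x v, w⟫ = ⟪fderiv ℝ (fun x => P x + e • gd ψ x) x w, v⟫ := by
  have h1 : DifferentiableAt ℝ (gd p) x :=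
    ((gd_contDiffOn hO hp).contDiffAt (hO.mem_nhds hx)).differentiableAt (by norm_num)
  have h2 : DifferentiableAt ℝ (gd ψ) x :=
    ((gd_contDiffOn hO hψ).contDiffAt (hO.mem_nhds hx)).differentiableAt (by norm_num)
  have h3 : fderiv ℝ (fun x => P x + e • gd ψ x) x = fderiv ℝ (gd p) x + e • fderiv ℝ (gd ψ) x := by
    have h4 : fderiv ℝ (fun x => P x + e • gd ψ x) x = fderiv ℝ (fun x => gd p x + e • gd ψ x) x :=
      fderiv_congr_on hO (fun y hy => by rw [hP y hy]) hx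
    rw [h4, fderiv_fun_add h1 (h2.fun_const_smul e), fderiv_fun_const_smul h2 e]
  rw [h3]
  simp only [add_apply, smul_apply, inner_add_left, real_inner_smul_left]
  rw [fderiv_gd_symm hO hp hx v w, fderiv_gd_symm hO hψ hx v w]

/-- **The drift of the corrected waves.** `Vb(e) = Vb(0) + e X₁ + e² X₂`, `X₁, X₂ ∈ BD` (`brk` is bilinear). -/
theorem Vb_near (h : X.OK D) : ∃ C : ℝ, 0 ≤ C ∧ ∀ e ∈ Ioc (0:ℝ) 1, Bk D 2 (C * e) fun x =>
    (X.Wv e).Vb x - ∑ j : Fin X.n, (2 * 4 ^ (j : ℕ) : ℝ)⁻¹ • brk (X.P j) (X.Q j) x := by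
  exact eg7_near h

/-- off `B` the drift is close to `V₀` -/
theorem Vb_close (h : X.OK D) : ∃ C : ℝ, 0 ≤ C ∧ ∀ e ∈ Ioc (0:ℝ) 1, Bk (D \ X.B) 1 (X.εC + C * e) fun x =>
    (X.Wv e).Vb x - X.V₀ x := by
  have hD := eg7_open h
  have hO := eg7_openB h
  obtain ⟨C, hC, h1⟩ := eg7_near h
  refine ⟨C, hC, fun e he => ?_⟩
  have h2 : Bk (D \ X.B) 1 (C * e) fun x => (X.Wv e).Vb x - eg7V0 X x :=
    fun j hj x hx => h1 e he j (hj.trans one_le_two) x hx.1
  have hVb : BD D (X.Wv e).Vb := by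
    refine BD.congr hD ((eg7_b0 h).add hD (((eg7_b1 h).const_smul hD e).add hD
      ((eg7_b2 h).const_smul hD (e ^ 2)))) fun x hx => (eg7_eq h e x hx).symm
  have h3 : ContDiffOn ℝ ((⊤ : ℕ∞) : WithTop ℕ∞) (fun x => (X.Wv e).Vb x - eg7V0 X x) (D \ X.B) :=
    ((hVb.sub hD (eg7_b0 h)).1).mono sdiff_subset
  have h4 : ContDiffOn ℝ ((⊤ : ℕ∞) : WithTop ℕ∞) (fun x => eg7V0 X x - X.V₀ x) (D \ X.B) :=
    (((eg7_b0 h).sub hD h.V₀b).1).mono sdiff_subset
  have h5 : Bk (D \ X.B) 1 X.εC (fun x => eg7V0 X x - X.V₀ x) := h.near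
  refine ((h2.add hO h3 h4 h5).mono le_rfl (by linarith)).congr hO fun x _ => ?_
  abel

theorem Vb_bdd (h : X.OK D) : ∃ C : ℝ, 0 ≤ C ∧ ∀ e ∈ Ioc (0:ℝ) 1, Bk D 2 C (X.Wv e).Vb := by
  have hD := eg7_open h
  obtain ⟨C, hC, h1⟩ := eg7_near h
  obtain ⟨M, hM0, hM⟩ := (eg7_b0 h).exists_Bk 2
  refine ⟨C + M, by positivity, fun e he => ?_⟩
  have hVb : BD D (X.Wv e).Vb := by
    refine BD.congr hD ((eg7_b0 h).add hD (((eg7_b1 h).const_smul hD e).add hD
      ((eg7_b2 h).const_smul hD (e ^ 2)))) fun x hx => (eg7_eq h e x hx).symm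
  refine (((h1 e he).add hD (hVb.sub hD (eg7_b0 h)).1 (eg7_b0 h).1 hM).mono le_rfl ?_).congr hD fun x _ => ?_
  · have : C * e ≤ C * 1 := mul_le_mul_of_nonneg_left he.2 hC
    linarith
  · abel

/-- the waves are irrotational off `B`: `Wave.pot`, second derivatives are symmetric -/
theorem sym_p (h : X.OK D) (e : ℝ) (j : Fin X.n) : ∀ x ∈ D \ X.B, ∀ v w,
    ⟪fderiv ℝ ((X.Wv e).p j) x v, w⟫ = ⟪fderiv ℝ ((X.Wv e).p j) x w, v⟫ := by
  intro x hx v w
  obtain ⟨p, hp, hp1⟩ := (h.wP j).pot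
  exact eg7_sym (eg7_openB h) e hp ((h.hψ j).1.1.mono sdiff_subset) hp1 hx v w

theorem sym_r (h : X.OK D) (e : ℝ) (j : Fin X.n) : ∀ x ∈ D \ X.B, ∀ v w,
    ⟪fderiv ℝ ((X.Wv e).r j) x v, w⟫ = ⟪fderiv ℝ ((X.Wv e).r j) x w, v⟫ := by
  intro x hx v w
  obtain ⟨p, hp, hp1⟩ := (h.wQ j).pot
  exact eg7_sym (eg7_openB h) e hp ((h.hψ' j).1.1.mono sdiff_subset) hp1 hx v w

/-- the sum `U(θ)` is irrotational off `B` -/
theorem sym_U (h : X.OK D) (e θ : ℝ) : ∀ x ∈ D \ X.B, ∀ v w,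
    ⟪fderiv ℝ ((X.Wv e).U θ) x v, w⟫ = ⟪fderiv ℝ ((X.Wv e).U θ) x w, v⟫ := by
  intro x hx v w
  have hD := eg7_open h
  have bp : ∀ j : Fin X.n, DifferentiableAt ℝ ((X.Wv e).p j) x := fun j =>
    ((h.wP j).bd.differentiableAt hD hx.1).fun_add (((eg7_gψ h j).differentiableAt hD hx.1).fun_const_smul e)
  have br : ∀ j : Fin X.n, DifferentiableAt ℝ ((X.Wv e).r j) x := fun j =>
    ((h.wQ j).bd.differentiableAt hD hx.1).fun_add (((eg7_gψ' h j).differentiableAt hD hx.1).fun_const_smul e)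
  have e1 : fderiv ℝ ((X.Wv e).U θ) x = ∑ j : Fin X.n, (Real.cos ((X.Wv e).α j * θ) • fderiv ℝ ((X.Wv e).p j) x +
      Real.sin ((X.Wv e).α j * θ) • fderiv ℝ ((X.Wv e).r j) x) := by
    show fderiv ℝ (fun x => ∑ j : Fin X.n, (Real.cos ((X.Wv e).α j * θ) • (X.Wv e).p j x +
      Real.sin ((X.Wv e).α j * θ) • (X.Wv e).r j x)) x = _
    rw [fderiv_fun_sum fun j _ => ((bp j).fun_const_smul _).fun_add ((br j).fun_const_smul _)]
    refine Finset.sum_congr rfl fun j _ => ?_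
    rw [fderiv_fun_add ((bp j).fun_const_smul _) ((br j).fun_const_smul _), fderiv_fun_const_smul (bp j),
      fderiv_fun_const_smul (br j)]
  rw [e1]
  simp only [sum_apply, add_apply, smul_apply, sum_inner, inner_add_left, real_inner_smul_left]
  refine Finset.sum_congr rfl fun j _ => ?_
  rw [sym_p h e j x hx v w, sym_r h e j x hx v w]

end Fld.OK

end Pool.Agent.Lib.MP_79abb3_an.W
end

section

/-!
Theorem W (MP_79abb3_an), block EG (the reference fields of one move): the streaming and the bounded fields.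
-/

set_option autoImplicit false
set_option linter.unusedSectionVars false

open MeasureTheory Set Filter Topology Function
open scoped ENNReal RealInnerProductSpace

namespace Pool.Agent.Lib.MP_79abb3_an.W

variable {d : ℕ} {X : Fld d} {D : Set (En d)} {z : En d → ℝ} {δ : ℝ}

private theorem eg5_C (h : X.OK D) (e : ℝ) : BD D fun x => X.C0 x + e • X.C1 x :=
  h.C0b.add h.stg.dom.isOpen (h.C1b.const_smul h.stg.dom.isOpen e)

private theorem eg5_bk (h : X.OK D) {k : ℕ} {M0 M1 : ℝ} (h0 : Bk D k M0 X.C0) (h1 : Bk D k M1 X.C1) {e : ℝ}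
    (he : 0 ≤ e) (h2 : 0 ≤ M0 + e * M1) {c A : ℝ} (hc : |c| ≤ A) :
    Bk D k (A * (M0 + e * M1)) fun x => c • (X.C0 x + e • X.C1 x) := by
  have hD := h.stg.dom.isOpen
  have h3 := h1.const_smul hD e h.C1b.1
  rw [abs_of_nonneg he] at h3
  have h4 := h0.add hD h.C0b.1 (h.C1b.const_smul hD e).1 h3
  have h5 := h4.const_smul hD c (eg5_C h e).1
  exact h5.mono le_rfl (mul_le_mul_of_nonneg_right hc h2)

private theorem eg5_a (h : X.OK D) (t : ℝ) : |X.a t ^ 2 / X.b| ≤ 1 / X.b := by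
  have h0 := h.a0 t
  have h1 := h.a1 t
  have hb := h.b0
  rw [abs_of_nonneg (by positivity)]
  exact div_le_div_of_nonneg_right (pow_le_one₀ h0 h1) hb.le

private theorem eg5_Ka (h : X.OK D) : 0 ≤ X.Ka := (abs_nonneg _).trans (h.a' 0)

private theorem eg5_a' (h : X.OK D) (t : ℝ) : |2 * X.a t * deriv X.a t / X.b| ≤ 2 * X.Ka / X.b := by
  have h0 := h.a0 t
  have h1 := h.a1 t
  have hb := h.b0
  rw [abs_div, abs_mul, abs_mul, abs_of_pos hb, abs_of_nonneg h0, abs_of_pos (two_pos (α := ℝ))]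
  refine div_le_div_of_nonneg_right ?_ hb.le
  have h2 := h.a' t
  have h3 : X.a t * |deriv X.a t| ≤ 1 * X.Ka := mul_le_mul h1 h2 (abs_nonneg _) zero_le_one
  linarith

private theorem eg5_dtm (h : X.OK D) (e t : ℝ) :
    dtm (X.S0 e) t = fun x => (2 * X.a t * deriv X.a t / X.b) • (X.C0 x + e • X.C1 x) := by
  funext x
  have h1 : HasDerivAt X.a (deriv X.a t) t := (h.as.differentiable (by simp) t).hasDerivAt
  have h2 : HasDerivAt (fun s => X.a s ^ 2 / X.b) (2 * X.a t * deriv X.a t / X.b) t := by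
    have h3 := (h1.pow 2).div_const X.b
    refine h3.congr_deriv ?_
    norm_num
  exact (h2.smul_const (X.C0 x + e • X.C1 x)).deriv

private theorem eg5_S0 (h : X.OK D) (e t : ℝ) : BD D (X.S0 e t) :=
  (eg5_C h e).const_smul h.stg.dom.isOpen (X.a t ^ 2 / X.b)

namespace Fld.OK

/-- the streaming: `C0` is small, `C1` has the factor `e` -/
theorem S0_le (h : X.OK D) : ∃ C : ℝ, 0 ≤ C ∧ ∀ e ∈ Ioc (0:ℝ) 1, ∀ t,
    Bk D 2 (X.KC / X.b + C * e) (X.S0 e t) ∧ Bk D 2 (2 * X.Ka * (X.KC / X.b + C * e)) (dtm (X.S0 e) t) := by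
  obtain ⟨M, hM0, hM⟩ := h.C1b.exists_Bk 2
  have hb := h.b0
  have hK := h.KC0
  refine ⟨M / X.b, by positivity, fun e he t => ?_⟩
  have he0 : 0 ≤ e := he.1.le
  have hp : 0 ≤ X.KC + e * M := by positivity
  constructor
  · refine (eg5_bk h h.C0k hM he0 hp (eg5_a h t)).mono le_rfl (le_of_eq ?_)
    field_simp
  · rw [eg5_dtm h]
    refine (eg5_bk h h.C0k hM he0 hp (eg5_a' h t)).mono le_rfl (le_of_eq ?_)
    field_simp

/-- the streaming, third derivatives -/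
theorem S0_le3 (h : X.OK D) : ∃ C : ℝ, 0 ≤ C ∧ ∀ e ∈ Ioc (0:ℝ) 1, ∀ t,
    Bk D 3 C (X.S0 e t) ∧ Bk D 3 C (dtm (X.S0 e) t) := by
  obtain ⟨M0, hM00, hM0⟩ := h.C0b.exists_Bk 3
  obtain ⟨M, hM10, hM⟩ := h.C1b.exists_Bk 3
  have hb := h.b0
  have hKa := eg5_Ka h
  refine ⟨(1 / X.b + 2 * X.Ka / X.b) * (M0 + M), by positivity, fun e he t => ?_⟩
  have he0 : 0 ≤ e := he.1.le
  have hp : 0 ≤ M0 + e * M := by positivity
  have hle : M0 + e * M ≤ M0 + M := by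
    have := mul_le_mul_of_nonneg_right he.2 hM10
    linarith
  constructor
  · refine (eg5_bk h hM0 hM he0 hp (eg5_a h t)).mono le_rfl ?_
    exact mul_le_mul (le_add_of_nonneg_right (by positivity)) hle hp (by positivity)
  · rw [eg5_dtm h]
    refine (eg5_bk h hM0 hM he0 hp (eg5_a' h t)).mono le_rfl ?_
    exact mul_le_mul (le_add_of_nonneg_left (by positivity)) hle hp (by positivity)

/-- the bounded field -/
theorem Se_bd (h : X.OK D) : ∃ e₀ ∈ Ioc (0:ℝ) 1, ∀ e ∈ Ioc (0:ℝ) e₀, ∀ t ∈ Icc (0:ℝ) 1,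
    Bk D 1 (X.K + 1) (X.Se e t) := by
  have hD := h.stg.dom.isOpen
  obtain ⟨C, hC0, hC⟩ := h.S0_le
  refine ⟨1 / (2 * (C + 1)), ⟨by positivity, ?_⟩, fun e he t _ => ?_⟩
  · rw [div_le_one (by positivity)]
    linarith
  have he1 : e ≤ 1 := he.2.trans (by
    rw [div_le_one (by positivity)]
    linarith)
  have h1 : C * e ≤ 1 / 2 := by
    have h2 : (C + 1) * e ≤ (C + 1) * (1 / (2 * (C + 1))) := mul_le_mul_of_nonneg_left he.2 (by positivity)
    have h3 : (C + 1) * (1 / (2 * (C + 1))) = 1 / 2 := by field_simp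
    have h4 : C * e ≤ (C + 1) * e := mul_le_mul_of_nonneg_right (by linarith) he.1.le
    linarith
  have h2 := (hC e ⟨he.1, he1⟩ t).1
  have h3 := (h.bY t).add hD (h.sY.bd hD t).1 (eg5_S0 h e t).1 h2
  refine h3.mono (by norm_num) ?_
  have := h.KCb
  linarith

/-- the slow field with the streaming in `C²` -/
theorem Sa_bd2 (h : X.OK D) : ∃ e₀ ∈ Ioc (0:ℝ) 1, ∀ e ∈ Ioc (0:ℝ) e₀, ∀ t ∈ Icc (0:ℝ) 1,
    Bk D 2 (X.Ks + 1) (X.Sa e t) := by
  have hD := h.stg.dom.isOpen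
  obtain ⟨C, hC0, hC⟩ := h.S0_le
  refine ⟨1 / (2 * (C + 1)), ⟨by positivity, ?_⟩, fun e he t ht => ?_⟩
  · rw [div_le_one (by positivity)]
    linarith
  have he1 : e ≤ 1 := he.2.trans (by
    rw [div_le_one (by positivity)]
    linarith)
  have h1 : C * e ≤ 1 / 2 := by
    have h2 : (C + 1) * e ≤ (C + 1) * (1 / (2 * (C + 1))) := mul_le_mul_of_nonneg_left he.2 (by positivity)
    have h3 : (C + 1) * (1 / (2 * (C + 1))) = 1 / 2 := by field_simp
    have h4 : C * e ≤ (C + 1) * e := mul_le_mul_of_nonneg_right (by linarith) he.1.le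
    linarith
  have h2 := (hC e ⟨he.1, he1⟩ t).1
  have h3 := (h.bsl t ht).add hD (h.sep_sl.bd hD t).1 (eg5_S0 h e t).1 h2
  refine h3.mono le_rfl ?_
  have := h.KCb
  linarith

end Fld.OK

end Pool.Agent.Lib.MP_79abb3_an.W
end
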