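import Pool.Agent.Lib.MP_79abb3_an.W.EMa

/-!
Theorem W, block EM: the vector field of a local rotation.
-/

set_option autoImplicit false
set_option linter.unusedSectionVars false

open MeasureTheory Set Filter Topology Function
open scoped ENNReal RealInnerProductSpace

namespace Pool.Agent.Lib.MP_79abb3_an.W

variable {d : ℕ}

namespace Rot
variable (R : Rot d)

theorem V_smo : Smo R.V := by
  have h1 : ContDiff ℝ ((⊤ : ℕ∞) : WithTop ℕ∞) fun x : En d => x - R.c := contDiff_id.sub contDiff_const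
  exact (R.smo.comp (h1.norm_sq ℝ)).smul (R.J.contDiff.comp h1)

theorem V_out {x : En d} (hx : R.r ≤ ‖x - R.c‖) : R.V x = 0 := by
  unfold V
  rw [R.hη _ (pow_le_pow_left₀ R.r0.le hx 2), zero_smul]

theorem V_supp : tsupport R.V ⊆ Metric.closedBall R.c R.r := by
  apply closure_minimal _ Metric.isClosed_closedBall
  intro x hx
  by_contra h
  rw [Metric.mem_closedBall, dist_eq_norm, not_le] at h
  exact hx (R.V_out h.le)

theorem V_cpt : HasCompactSupport R.V :=
  (isCompact_closedBall R.c R.r).of_isClosed_subset (isClosed_tsupport _) R.V_supp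

private theorem emc_norm (x : En d) : HasFDerivAt (fun x : En d => ‖x - R.c‖ ^ 2)
    ((2 : ℝ) • innerSL ℝ (x - R.c)) x := by
  have h1 : HasFDerivAt (fun x : En d => x - R.c) (ContinuousLinearMap.id ℝ (En d)) x :=
    (hasFDerivAt_id x).sub_const _
  have h2 := (hasStrictFDerivAt_norm_sq (x - R.c)).hasFDerivAt.comp x h1
  refine h2.congr_fderiv ?_
  apply ContinuousLinearMap.ext
  intro v
  simp

private theorem emc_basis (a b : En d) : ∑ i, ⟪a, ei i⟫ * b i = ⟪a, b⟫ := by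
  rw [real_inner_comm, PiLp.inner_apply]
  refine Finset.sum_congr rfl fun i _ => ?_
  have h1 : ⟪a, ei i⟫ = a i := by
    unfold ei
    rw [EuclideanSpace.inner_single_right]
    simp
  rw [h1]
  rfl

/-- `div V = 0`: `div (η J y) = 2 η' ⟪y, J y⟫ + η tr J = 0` -/
theorem V_div (x : En d) : dv R.V x = 0 := by
  have h1 : HasFDerivAt (fun x : En d => x - R.c) (ContinuousLinearMap.id ℝ (En d)) x :=
    (hasFDerivAt_id x).sub_const _
  have h2 : HasFDerivAt (fun x : En d => R.J (x - R.c)) (R.J.comp (ContinuousLinearMap.id ℝ (En d))) x :=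
    R.J.hasFDerivAt.comp x h1
  have h3 : HasDerivAt R.η (deriv R.η (‖x - R.c‖ ^ 2)) (‖x - R.c‖ ^ 2) :=
    ((R.smo.differentiable (by norm_num)) _).hasDerivAt
  have h4 := (h3.comp_hasFDerivAt x (emc_norm R x)).smul h2
  have h5 : ∀ v, fderiv ℝ R.V x v = R.η (‖x - R.c‖ ^ 2) • R.J v +
      (deriv R.η (‖x - R.c‖ ^ 2) * (2 * ⟪x - R.c, v⟫)) • R.J (x - R.c) := by
    intro v
    have h6 : fderiv ℝ R.V x = _ := h4.fderiv
    rw [h6]
    simp [inner_sub_left]
  have h7 : ∀ i, (fderiv ℝ R.V x (ei i)) i = R.η (‖x - R.c‖ ^ 2) * (R.J (ei i)) i +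
      (2 * deriv R.η (‖x - R.c‖ ^ 2)) * (⟪x - R.c, ei i⟫ * (R.J (x - R.c)) i) := by
    intro i
    rw [h5, PiLp.add_apply, PiLp.smul_apply, PiLp.smul_apply, smul_eq_mul, smul_eq_mul]
    ring
  have h8 : ∑ i, (R.J (ei i)) i = 0 := by
    have h9 : ∀ i, (R.J (ei i)) i = ⟪R.u, ei i⟫ * R.w i - ⟪R.w, ei i⟫ * R.u i := by
      intro i
      rw [J_apply, PiLp.sub_apply, PiLp.smul_apply, PiLp.smul_apply, smul_eq_mul, smul_eq_mul]
    simp only [h9]
    rw [Finset.sum_sub_distrib, emc_basis, emc_basis, real_inner_comm, sub_self]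
  show ∑ i, (fderiv ℝ R.V x (ei i)) i = 0
  simp only [h7]
  rw [Finset.sum_add_distrib, ← Finset.mul_sum, ← Finset.mul_sum, h8, emc_basis, real_inner_comm, J_self]
  ring

/-- the primitive of the profile -/
noncomputable def pr (s : ℝ) : ℝ := 2⁻¹ * ∫ t in (R.r ^ 2)..s, R.η t

private theorem emc_pr (s : ℝ) : HasDerivAt R.pr (2⁻¹ * R.η s) s :=
  (intervalIntegral.integral_hasDerivAt_right (R.smo.continuous.intervalIntegrable _ _)
    (R.smo.continuous.stronglyMeasurableAtFilter _ _) R.smo.continuous.continuousAt).const_mul _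

private theorem emc_pr_smo : ContDiff ℝ ((⊤ : ℕ∞) : WithTop ℕ∞) R.pr := by
  rw [contDiff_infty_iff_deriv]
  refine ⟨fun t => (emc_pr R t).differentiableAt, ?_⟩
  have h : deriv R.pr = fun t => 2⁻¹ * R.η t := funext fun t => (emc_pr R t).deriv
  rw [h]
  exact contDiff_const.mul R.smo

private theorem emc_pr_zero {s : ℝ} (h : R.r ^ 2 ≤ s) : R.pr s = 0 := by
  unfold pr
  rw [intervalIntegral.integral_congr (g := fun _ => (0 : ℝ)), intervalIntegral.integral_zero, mul_zero]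
  intro t ht
  rw [uIcc_of_le h] at ht
  exact R.hη t ht.1

/-- **`V` is a divergence**: `V_i = ∑_j ∂_j E_ij`, `E_ij = H(|x-c|²) (J e_j)_i`, `H' = η/2`, `H = 0` for
`s ≥ r²`; `(J e_j)_i = w_i u_j - u_i w_j`. -/
theorem V_divE : ∃ E : Fin d → Fin d → En d → ℝ, (∀ i j, Smo (E i j)) ∧
    (∀ i j, tsupport (E i j) ⊆ Metric.closedBall R.c R.r) ∧ (∀ i j x, E i j x = -E j i x) ∧
    ∀ i x, R.V x i = ∑ j, pd j (E i j) x := by
  refine ⟨fun i j x => R.pr (‖x - R.c‖ ^ 2) * (R.w i * R.u j - R.u i * R.w j), ?_, ?_, ?_, ?_⟩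
  · intro i j
    have h1 : ContDiff ℝ ((⊤ : ℕ∞) : WithTop ℕ∞) fun x : En d => x - R.c := contDiff_id.sub contDiff_const
    exact ((emc_pr_smo R).comp (h1.norm_sq ℝ)).mul contDiff_const
  · intro i j
    apply closure_minimal _ Metric.isClosed_closedBall
    intro x hx
    by_contra h
    rw [Metric.mem_closedBall, dist_eq_norm, not_le] at h
    apply hx
    show R.pr (‖x - R.c‖ ^ 2) * (R.w i * R.u j - R.u i * R.w j) = 0
    rw [emc_pr_zero R (pow_le_pow_left₀ R.r0.le h.le 2), zero_mul]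
  · intro i j x
    ring
  · intro i x
    have h1 : ∀ j, pd j (fun x => R.pr (‖x - R.c‖ ^ 2) * (R.w i * R.u j - R.u i * R.w j)) x =
        R.η (‖x - R.c‖ ^ 2) * (⟪x - R.c, ei j⟫ * R.u j * R.w i - ⟪x - R.c, ei j⟫ * R.w j * R.u i) := by
      intro j
      have h2 := ((emc_pr R (‖x - R.c‖ ^ 2)).comp_hasFDerivAt x (emc_norm R x)).mul_const
        (R.w i * R.u j - R.u i * R.w j)
      have h3 : fderiv ℝ (fun x => R.pr (‖x - R.c‖ ^ 2) * (R.w i * R.u j - R.u i * R.w j)) x = _ :=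
        h2.fderiv
      unfold pd
      rw [h3]
      simp [inner_sub_left]
      ring
    simp only [h1]
    rw [← Finset.mul_sum, Finset.sum_sub_distrib, ← Finset.sum_mul, ← Finset.sum_mul, emc_basis, emc_basis]
    unfold V
    rw [J_apply, PiLp.smul_apply, PiLp.sub_apply, PiLp.smul_apply, PiLp.smul_apply, smul_eq_mul,
      smul_eq_mul, smul_eq_mul, real_inner_comm (x - R.c) R.u, real_inner_comm (x - R.c) R.w]

end Rot

end Pool.Agent.Lib.MP_79abb3_an.W
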