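import Mathlib

/-!
Theorem W (MP_79abb3_an), block A1: the real spaces of a bounded open set `D` of `ℝ^d`.

Fields are functions `En d → En d`. `TS D`: smooth divergence free fields with compact support in `D`.
`HD D`: their closure in `L²`. `VD D`: the closure of their gradients in `(L²)^d`, with the norm `|∇u|₂`.
`io D : VD D → HD D` maps the gradient to the field (Poincaré).
-/

set_option autoImplicit false
set_option linter.unusedSectionVars false

open MeasureTheory Set Filter Topology Function
open scoped ENNReal RealInnerProductSpace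

namespace Pool.Agent.Lib.MP_79abb3_an.W

/-- the space `ℝ^d` -/
abbrev En (d : ℕ) : Type := EuclideanSpace ℝ (Fin d)
/-- square integrable fields -/
abbrev L2E (d : ℕ) : Type := Lp (En d) 2 (volume : Measure (En d))
/-- square integrable gradients: the `i`-th entry is the derivative in the direction `i` -/
abbrev G2E (d : ℕ) : Type := PiLp 2 (fun _ : Fin d => L2E d)

section
variable {d : ℕ} {F : Type} [NormedAddCommGroup F] [NormedSpace ℝ F]

/-- the basis vectors -/
noncomputable def ei (i : Fin d) : En d := EuclideanSpace.single i 1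

/-- derivative in the direction `i` -/
noncomputable def pd (i : Fin d) (f : En d → F) (x : En d) : F := fderiv ℝ f x (ei i)

/-- divergence -/
noncomputable def dv (φ : En d → En d) (x : En d) : ℝ := ∑ i, pd i φ x i

/-- infinitely differentiable functions -/
def Smo (f : En d → F) : Prop := ContDiff ℝ ((⊤ : ℕ∞) : WithTop ℕ∞) f

/-- the class of a field in `L²`, `0` if it is not square integrable -/
noncomputable def cl (f : En d → En d) : L2E d :=
  open scoped Classical in if h : MemLp f 2 (volume : Measure (En d)) then h.toLp f else 0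

theorem cl_eq {f : En d → En d} (h : MemLp f 2 (volume : Measure (En d))) : cl f = h.toLp f := dif_pos h

theorem cl_coe {f : En d → En d} (h : MemLp f 2 (volume : Measure (En d))) :
    (cl f : En d → En d) =ᵐ[volume] f := by
  rw [cl_eq h]
  exact h.coeFn_toLp

theorem cl_add {f g : En d → En d} (hf : MemLp f 2 (volume : Measure (En d)))
    (hg : MemLp g 2 (volume : Measure (En d))) : cl (fun x => f x + g x) = cl f + cl g := by
  have h : MemLp (fun x => f x + g x) 2 (volume : Measure (En d)) := hf.add hg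
  rw [cl_eq hf, cl_eq hg, cl_eq h]; rfl

theorem cl_smul (c : ℝ) {f : En d → En d} (hf : MemLp f 2 (volume : Measure (En d))) :
    cl (fun x => c • f x) = c • cl f := by
  have h : MemLp (fun x => c • f x) 2 (volume : Measure (En d)) := hf.const_smul c
  rw [cl_eq hf, cl_eq h]; rfl

theorem cl_self (f : L2E d) : cl (f : En d → En d) = f := by
  rw [cl_eq (Lp.memLp f)]
  exact Lp.toLp_coeFn f _

/-- Smooth functions with compact support in `D`. -/
structure IsTe (D : Set (En d)) (ψ : En d → F) : Prop where
  smooth : Smo ψ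
  cpt : HasCompactSupport ψ
  supp : tsupport ψ ⊆ D

/-- Smooth divergence free fields with compact support in `D`. -/
structure IsTs (D : Set (En d)) (φ : En d → En d) : Prop extends IsTe D φ where
  div : ∀ x, dv φ x = 0

theorem Smo.differentiable {f : En d → F} (h : Smo f) : Differentiable ℝ f :=
  ContDiff.differentiable h (by norm_num)

theorem Smo.pd {f : En d → F} (h : Smo f) (i : Fin d) : Smo (pd i f) := by
  have h1 : ContDiff ℝ ((⊤ : ℕ∞) : WithTop ℕ∞) (fderiv ℝ f) :=
    ContDiff.fderiv_right h (by exact_mod_cast le_top)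
  exact h1.clm_apply contDiff_const

theorem pd_add {f g : En d → F} (hf : Smo f) (hg : Smo g) (i : Fin d) :
    pd i (fun x => f x + g x) = fun x => pd i f x + pd i g x := by
  ext1 x
  show fderiv ℝ (fun x => f x + g x) x (ei i) = _
  rw [fderiv_fun_add (hf.differentiable x) (hg.differentiable x)]
  rfl

theorem pd_smul (c : ℝ) {f : En d → F} (hf : Smo f) (i : Fin d) :
    pd i (fun x => c • f x) = fun x => c • pd i f x := by
  ext1 x
  show fderiv ℝ (fun x => c • f x) x (ei i) = _
  rw [fderiv_fun_const_smul (hf.differentiable x)]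
  rfl

theorem IsTe.pd {D : Set (En d)} {ψ : En d → F} (h : IsTe D ψ) (i : Fin d) : IsTe D (pd i ψ) where
  smooth := h.smooth.pd i
  cpt := h.cpt.fderiv_apply ℝ (ei i)
  supp := by
    refine (closure_minimal (fun x hx => ?_) (isClosed_tsupport ψ)).trans h.supp
    by_contra h1
    have h2 : fderiv ℝ ψ x = 0 := by
      by_contra h3
      exact h1 (support_fderiv_subset ℝ h3)
    exact hx (by show fderiv ℝ ψ x (ei i) = 0; rw [h2]; rfl)

theorem IsTe.add {D : Set (En d)} {φ ψ : En d → F} (hφ : IsTe D φ) (hψ : IsTe D ψ) :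
    IsTe D (fun x => φ x + ψ x) where
  smooth := hφ.smooth.add hψ.smooth
  cpt := hφ.cpt.add hψ.cpt
  supp := (tsupport_add φ ψ).trans (union_subset hφ.supp hψ.supp)

theorem IsTe.smul {D : Set (En d)} {φ : En d → F} (c : ℝ) (hφ : IsTe D φ) :
    IsTe D (fun x => c • φ x) where
  smooth := contDiff_const.smul hφ.smooth
  cpt := hφ.cpt.smul_left (f := fun _ => c)
  supp := (tsupport_smul_subset_right (fun _ => c) φ).trans hφ.supp

theorem IsTe.memLp {D : Set (En d)} {φ : En d → F} (hφ : IsTe D φ) (p : ℝ≥0∞) :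
    MemLp φ p (volume : Measure (En d)) :=
  hφ.smooth.continuous.memLp_of_hasCompactSupport hφ.cpt

/-- the space of test fields -/
def TS (D : Set (En d)) : Submodule ℝ (En d → En d) where
  carrier := {φ | IsTs D φ}
  add_mem' {φ ψ} hφ hψ := by
    refine ⟨hφ.toIsTe.add hψ.toIsTe, fun x => ?_⟩
    show ∑ i, pd i (fun x => φ x + ψ x) x i = 0
    have h1 : ∀ i, pd i (fun x => φ x + ψ x) x i = pd i φ x i + pd i ψ x i := fun i => by
      rw [pd_add hφ.smooth hψ.smooth i]; rfl
    rw [Finset.sum_congr rfl fun i _ => h1 i, Finset.sum_add_distrib]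
    have h2 := hφ.div x
    have h3 := hψ.div x
    unfold dv at h2 h3
    rw [h2, h3, add_zero]
  zero_mem' := by
    refine ⟨⟨contDiff_const, HasCompactSupport.zero, ?_⟩, fun x => ?_⟩
    · rw [tsupport_eq_empty_iff.2 rfl]; exact empty_subset _
    · show ∑ i, pd i (0 : En d → En d) x i = 0
      refine Finset.sum_eq_zero fun i _ => ?_
      show (fderiv ℝ (0 : En d → En d) x (ei i)) i = 0
      rw [fderiv_zero]; rfl
  smul_mem' c φ hφ := by
    refine ⟨hφ.toIsTe.smul c, fun x => ?_⟩
    show ∑ i, pd i (fun x => c • φ x) x i = 0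
    have h1 : ∀ i, pd i (fun x => c • φ x) x i = c * pd i φ x i := fun i => by
      rw [pd_smul c hφ.smooth i]; rfl
    rw [Finset.sum_congr rfl fun i _ => h1 i, ← Finset.mul_sum]
    have h2 := hφ.div x
    unfold dv at h2
    rw [h2, mul_zero]

theorem TS.ts {D : Set (En d)} (φ : TS D) : IsTs D (φ : En d → En d) := φ.2

/-- a test field as an element of `L²` -/
noncomputable def clT (D : Set (En d)) : TS D →ₗ[ℝ] L2E d where
  toFun φ := cl (φ : En d → En d)
  map_add' φ ψ := cl_add ((TS.ts φ).memLp 2) ((TS.ts ψ).memLp 2)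
  map_smul' c φ := cl_smul c ((TS.ts φ).memLp 2)

/-- the gradient of a test field -/
noncomputable def grT (D : Set (En d)) : TS D →ₗ[ℝ] G2E d where
  toFun φ := WithLp.toLp 2 fun i => cl (pd i (φ : En d → En d))
  map_add' φ ψ := by
    ext1 i
    show cl (pd i fun x => (φ : En d → En d) x + (ψ : En d → En d) x) = cl _ + cl _
    rw [pd_add (TS.ts φ).smooth (TS.ts ψ).smooth i, cl_add (((TS.ts φ).toIsTe.pd i).memLp 2) (((TS.ts ψ).toIsTe.pd i).memLp 2)]
  map_smul' c φ := by
    ext1 i
    show cl (pd i fun x => c • (φ : En d → En d) x) = c • cl _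
    rw [pd_smul c (TS.ts φ).smooth i, cl_smul c (((TS.ts φ).toIsTe.pd i).memLp 2)]

/-- `H(D)` -/
noncomputable def HD (D : Set (En d)) : Submodule ℝ (L2E d) := (LinearMap.range (clT D)).topologicalClosure
/-- `V(D)`, given by the gradients -/
noncomputable def VD (D : Set (En d)) : Submodule ℝ (G2E d) := (LinearMap.range (grT D)).topologicalClosure

noncomputable instance (D : Set (En d)) : CompleteSpace (HD D) :=
  (Submodule.isClosed_topologicalClosure _).completeSpace_coe
noncomputable instance (D : Set (En d)) : CompleteSpace (VD D) :=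
  (Submodule.isClosed_topologicalClosure _).completeSpace_coe

/-- a test field in `H(D)` -/
noncomputable def hT (D : Set (En d)) : TS D →ₗ[ℝ] HD D :=
  (clT D).codRestrict (HD D) fun φ => Submodule.le_topologicalClosure _ ⟨φ, rfl⟩
/-- a test field in `V(D)` -/
noncomputable def vT (D : Set (En d)) : TS D →ₗ[ℝ] VD D :=
  (grT D).codRestrict (VD D) fun φ => Submodule.le_topologicalClosure _ ⟨φ, rfl⟩

/-- the field of a gradient -/
noncomputable def io (D : Set (En d)) : VD D →L[ℝ] HD D := (hT D).extendOfNorm (vT D)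

/-- the `i`-th derivative of `v` -/
noncomputable def gi {D : Set (En d)} (v : VD D) (i : Fin d) : L2E d := (v : G2E d) i

theorem hT_coe {D : Set (En d)} (φ : TS D) : ((hT D φ : HD D) : L2E d) = cl (φ : En d → En d) := rfl

theorem gi_vT {D : Set (En d)} (φ : TS D) (i : Fin d) : gi (vT D φ) i = cl (pd i (φ : En d → En d)) := rfl

theorem hT_dense (D : Set (En d)) : DenseRange (hT D) := by
  intro x
  rw [closure_subtype]
  have h : ((↑) '' range (hT D) : Set (L2E d)) = (LinearMap.range (clT D) : Set (L2E d)) := by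
    ext y
    constructor
    · rintro ⟨_, ⟨ψ, rfl⟩, rfl⟩
      exact ⟨ψ, rfl⟩
    · rintro ⟨ψ, rfl⟩
      exact ⟨_, ⟨ψ, rfl⟩, rfl⟩
  rw [h]
  exact x.2

theorem vT_dense (D : Set (En d)) : DenseRange (vT D) := by
  intro x
  rw [closure_subtype]
  have h : ((↑) '' range (vT D) : Set (G2E d)) = (LinearMap.range (grT D) : Set (G2E d)) := by
    ext y
    constructor
    · rintro ⟨_, ⟨ψ, rfl⟩, rfl⟩
      exact ⟨ψ, rfl⟩
    · rintro ⟨ψ, rfl⟩
      exact ⟨_, ⟨ψ, rfl⟩, rfl⟩
  rw [h]
  exact x.2

end

end Pool.Agent.Lib.MP_79abb3_an.W
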