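import Mathlib
import Pool.Agent.Lib.MP_79abb3_an.W.SpDef
import Pool.Agent.Lib.MP_79abb3_an.W.DC1
import Pool.Agent.Lib.MP_79abb3_an.W.DDef
import Pool.Agent.Lib.MP_79abb3_an.W.EMc
import Pool.Agent.Lib.MP_79abb3_an.W.DF1b
import Pool.Agent.Lib.MP_79abb3_an.W.EGDef
import Pool.Agent.Lib.MP_79abb3_an.W.EG5
import Pool.Agent.Lib.MP_79abb3_an.W.DEf
import Pool.Agent.Lib.MP_79abb3_an.W.EFe2
import Pool.Agent.Lib.MP_79abb3_an.W.DH0
import Pool.Agent.Lib.MP_79abb3_an.W.DH2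
import Pool.Agent.Lib.MP_79abb3_an.W.HV
import Pool.Agent.Lib.MP_79abb3_an.W.EG2

section

/-!
Theorem W, block EF: amplitude and clock.
-/

set_option autoImplicit false
set_option linter.unusedSectionVars false

open MeasureTheory Set Filter Topology Function

namespace Pool.Agent.Lib.MP_79abb3_an.W

/-- The amplitude: smooth, support in `(0, 1)`, `0 ≤ a ≤ 1`, `a² ` has positive integral. -/
theorem exists_amp : ∃ a : ℝ → ℝ, ContDiff ℝ ((⊤ : ℕ∞) : WithTop ℕ∞) a ∧ (∀ t, 0 ≤ a t) ∧ (∀ t, a t ≤ 1) ∧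
    (∀ t, t ≤ 1 / 4 → a t = 0) ∧ (∀ t, 3 / 4 ≤ t → a t = 0) ∧ 0 < ∫ t in (0:ℝ)..1, a t ^ 2 := by
  let f : ContDiffBump (1 / 2 : ℝ) := ⟨1 / 8, 1 / 4, by norm_num, by norm_num⟩
  have hz : ∀ t : ℝ, 1 / 4 ≤ |t - 1 / 2| → f t = 0 := by
    intro t ht
    apply f.zero_of_le_dist
    rw [Real.dist_eq]
    exact ht
  have hcont : Continuous fun t : ℝ => f t ^ 2 := (f.continuous).pow 2
  have h1 : f (1 / 2 : ℝ) = 1 := by
    apply f.one_of_mem_closedBall
    exact Metric.mem_closedBall_self f.rIn_pos.le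
  refine ⟨fun t => f t, f.contDiff, fun t => f.nonneg, fun t => f.le_one, ?_, ?_, ?_⟩
  · intro t ht
    apply hz
    rw [abs_of_nonpos (by linarith)]
    linarith
  · intro t ht
    apply hz
    rw [abs_of_nonneg (by linarith)]
    linarith
  · rw [intervalIntegral.integral_pos_iff_support_of_nonneg_ae
      (Filter.Eventually.of_forall fun t => by positivity) (hcont.intervalIntegrable _ _)]
    refine ⟨by norm_num, ?_⟩
    have hopen : IsOpen (support (fun t : ℝ => f t ^ 2) ∩ Ioo (0:ℝ) 1) :=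
      (hcont.isOpen_support).inter isOpen_Ioo
    have hne : (support (fun t : ℝ => f t ^ 2) ∩ Ioo (0:ℝ) 1).Nonempty := by
      refine ⟨1 / 2, ?_, by norm_num, by norm_num⟩
      rw [mem_support, h1]; norm_num
    exact (hopen.measure_pos volume hne).trans_le
      (measure_mono (inter_subset_inter_right _ Ioo_subset_Ioc_self))

/-- The clock `s(t) = ∫_0^t a² / ∫_0^1 a²`. -/
theorem exists_clock : ∃ (a s : ℝ → ℝ) (c : ℝ), 0 < c ∧ ContDiff ℝ ((⊤ : ℕ∞) : WithTop ℕ∞) a ∧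
    ContDiff ℝ ((⊤ : ℕ∞) : WithTop ℕ∞) s ∧ (∀ t, 0 ≤ a t) ∧ (∀ t, a t ≤ 1) ∧ (∀ t, t ≤ 1 / 4 → a t = 0) ∧
    (∀ t, 3 / 4 ≤ t → a t = 0) ∧ (∀ t, HasDerivAt s (c * a t ^ 2) t) ∧ (∀ t, t ≤ 1 / 4 → s t = 0) ∧
    (∀ t, 3 / 4 ≤ t → s t = 1) ∧ ∀ t, s t ∈ Icc (0:ℝ) 1 := by
  obtain ⟨a, ha, h0, h1, hl, hr, hI⟩ := exists_amp
  set I : ℝ := ∫ t in (0:ℝ)..1, a t ^ 2 with hIdef
  have hcont : Continuous fun t : ℝ => a t ^ 2 := ha.continuous.pow 2
  have hint : ∀ u v : ℝ, IntervalIntegrable (fun t => a t ^ 2) volume u v :=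
    fun u v => hcont.intervalIntegrable u v
  have hder : ∀ t, HasDerivAt (fun t => I⁻¹ * ∫ u in (0:ℝ)..t, a u ^ 2) (I⁻¹ * a t ^ 2) t := by
    intro t
    exact (intervalIntegral.integral_hasDerivAt_right (hint 0 t)
      hcont.stronglyMeasurable.stronglyMeasurableAtFilter hcont.continuousAt).const_mul _
  have hs0 : ∀ t, t ≤ 1 / 4 → I⁻¹ * ∫ u in (0:ℝ)..t, a u ^ 2 = 0 := by
    intro t ht
    have : ∫ u in (0:ℝ)..t, a u ^ 2 = 0 := by
      rw [intervalIntegral.integral_congr (g := fun _ => (0:ℝ)), intervalIntegral.integral_zero]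
      intro u hu
      have hu' : u ≤ 1 / 4 := by
        have := hu.2
        exact this.trans (sup_le (by norm_num) ht)
      simp only [hl u hu']
      norm_num
    rw [this, mul_zero]
  have hs1 : ∀ t, 3 / 4 ≤ t → I⁻¹ * ∫ u in (0:ℝ)..t, a u ^ 2 = 1 := by
    intro t ht
    have h2 : ∫ u in (1:ℝ)..t, a u ^ 2 = 0 := by
      rw [intervalIntegral.integral_congr (g := fun _ => (0:ℝ)), intervalIntegral.integral_zero]
      intro u hu
      have hu' : 3 / 4 ≤ u := by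
        have := hu.1
        exact (le_inf (by norm_num) ht).trans this
      simp only [hr u hu']
      norm_num
    rw [← intervalIntegral.integral_add_adjacent_intervals (hint 0 1) (hint 1 t), h2, add_zero,
      ← hIdef, inv_mul_cancel₀ hI.ne']
  have hmono : Monotone fun t => I⁻¹ * ∫ u in (0:ℝ)..t, a u ^ 2 := by
    apply monotone_of_deriv_nonneg (fun t => (hder t).differentiableAt)
    intro t
    rw [(hder t).deriv]
    positivity
  refine ⟨a, fun t => I⁻¹ * ∫ u in (0:ℝ)..t, a u ^ 2, I⁻¹, inv_pos.2 hI, ha, ?_, h0, h1, hl, hr,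
    hder, hs0, hs1, ?_⟩
  · rw [contDiff_infty_iff_deriv]
    refine ⟨fun t => (hder t).differentiableAt, ?_⟩
    have : deriv (fun t => I⁻¹ * ∫ u in (0:ℝ)..t, a u ^ 2) = fun t => I⁻¹ * a t ^ 2 :=
      funext fun t => (hder t).deriv
    rw [this]
    exact contDiff_const.mul (ha.pow 2)
  · intro t
    constructor
    · have h := hmono (min_le_left t (1 / 4))
      have h' := hs0 (min t (1 / 4)) (min_le_right _ _)
      simp only at h
      rw [h'] at h
      exact h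
    · have h := hmono (le_max_left t (3 / 4))
      have h' := hs1 (max t (3 / 4)) (le_max_right _ _)
      simp only at h
      rw [h'] at h
      exact h

end Pool.Agent.Lib.MP_79abb3_an.W
end

section

/-!
Theorem W, block EM: density of test fields.
-/

set_option autoImplicit false
set_option linter.unusedSectionVars false

open MeasureTheory Set Filter Topology Function
open scoped ENNReal RealInnerProductSpace

namespace Pool.Agent.Lib.MP_79abb3_an.W

variable {d : ℕ}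

open scoped Manifold in
private theorem emj_cut {K O : Set (En d)} (hK : IsCompact K) (hO : IsOpen O) (hKO : K ⊆ O) :
    ∃ χ : En d → ℝ, ContDiff ℝ ((⊤ : ℕ∞) : WithTop ℕ∞) χ ∧ HasCompactSupport χ ∧
      tsupport χ ⊆ O ∧ (∀ x ∈ K, χ x = 1) ∧ ∀ x, |χ x| ≤ 1 := by
  obtain ⟨K', hK', hKK', hK'O⟩ := exists_compact_between hK hO hKO
  obtain ⟨f, h1, h2, h3⟩ := exists_contMDiffMap_one_nhds_of_subset_interior (𝓘(ℝ, En d))
    (n := ⊤) hK.isClosed hKK'
  have hsup : tsupport (fun x => f x) ⊆ K' := by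
    refine closure_minimal (fun x hx => ?_) hK'.isClosed
    by_contra h
    exact hx (h2 x h)
  refine ⟨fun x => f x, f.contMDiff.contDiff, ?_, hsup.trans hK'O, fun x hx => ?_, fun x => ?_⟩
  · exact hK'.of_isClosed_subset (isClosed_tsupport _) hsup
  · exact h1.self_of_nhdsSet x hx
  · rw [abs_of_nonneg (h3 x).1]
    exact (h3 x).2

/-- smooth fields with compact support in an open set are dense in `L²` -/
theorem te_dense {O : Set (En d)} (hO : IsOpen O) {f : En d → En d} (hf : MemLp f 2 (volume : Measure (En d)))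
    (h0 : ∀ᵐ x, x ∉ O → f x = 0) {ε : ℝ} (hε : 0 < ε) : ∃ g : En d → En d, IsTe O g ∧
    eLpNorm (fun x => f x - g x) 2 (volume : Measure (En d)) ≤ ENNReal.ofReal ε := by
  classical
  have hε3 : 0 < ε / 3 := by positivity
  have h2t : (2 : ℝ≥0∞) ≠ ⊤ := ENNReal.ofNat_ne_top
  obtain ⟨S, hS, hSf, hS2⟩ := hf.exists_eLpNorm_indicator_compl_lt h2t
    (ε := ENNReal.ofReal (ε / 3)) (ENNReal.ofReal_pos.2 hε3).ne'
  obtain ⟨δ, hδ, hδ2⟩ := hf.eLpNorm_indicator_le one_le_two h2t hε3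
  have hSO : MeasurableSet (S ∩ O) := hS.inter hO.measurableSet
  obtain ⟨K, hKS, hK, hKm⟩ := hSO.exists_isCompact_sdiff_lt
    (measure_ne_top_of_subset inter_subset_left hSf.ne) (ENNReal.ofReal_pos.2 hδ).ne'
  obtain ⟨χ, c1, c2, c3, c4, c5⟩ := emj_cut hK hO (hKS.trans inter_subset_right)
  obtain ⟨g, hg1, hg2, hg3⟩ := (hf.indicator hK.measurableSet).exist_eLpNorm_sub_le h2t
    one_le_two hε3
  refine ⟨fun x => χ x • g x, ⟨c1.smul hg2, c2.smul_right, ?_⟩, ?_⟩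
  · exact (tsupport_smul_subset_left χ g).trans c3
  have hA : MeasurableSet ((S ∩ O) \ K) := hSO.diff hK.measurableSet
  have m1 : AEStronglyMeasurable (((S ∩ O) \ K).indicator f) (volume : Measure (En d)) :=
    hf.1.indicator hA
  have m2 : AEStronglyMeasurable (Sᶜ.indicator f) (volume : Measure (En d)) :=
    hf.1.indicator hS.compl
  have m3 : AEStronglyMeasurable (fun x => χ x • (K.indicator f x - g x))
      (volume : Measure (En d)) :=
    c1.continuous.aestronglyMeasurable.smul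
      ((hf.1.indicator hK.measurableSet).sub hg2.continuous.aestronglyMeasurable)
  have e : (fun x => f x - χ x • g x) =ᵐ[volume]
      (fun x => (((S ∩ O) \ K).indicator f x + Sᶜ.indicator f x) +
        χ x • (K.indicator f x - g x)) := by
    filter_upwards [h0] with x hx
    by_cases hxO : x ∈ O
    · by_cases hxK : x ∈ K
      · have hxS : x ∈ S := (hKS hxK).1
        have n1 : x ∉ (S ∩ O) \ K := fun h => h.2 hxK
        have n2 : x ∉ Sᶜ := fun h => h hxS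
        rw [indicator_of_notMem n1, indicator_of_notMem n2, indicator_of_mem hxK, c4 x hxK]
        simp
      · rw [indicator_of_notMem hxK]
        by_cases hxS : x ∈ S
        · have n1 : x ∈ (S ∩ O) \ K := ⟨⟨hxS, hxO⟩, hxK⟩
          have n2 : x ∉ Sᶜ := fun h => h hxS
          rw [indicator_of_mem n1, indicator_of_notMem n2]
          simp [sub_eq_add_neg]
        · have n1 : x ∉ (S ∩ O) \ K := fun h => hxS h.1.1
          have n2 : x ∈ Sᶜ := hxS
          rw [indicator_of_notMem n1, indicator_of_mem n2]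
          simp [sub_eq_add_neg]
    · have hxK : x ∉ K := fun h => hxO (hKS h).2
      have n1 : x ∉ (S ∩ O) \ K := fun h => hxO h.1.2
      have n2 : Sᶜ.indicator f x = 0 := by
        by_cases hxS : x ∈ Sᶜ
        · rw [indicator_of_mem hxS, hx hxO]
        · rw [indicator_of_notMem hxS]
      rw [indicator_of_notMem n1, n2, indicator_of_notMem hxK, hx hxO]
      simp
  have b3 : eLpNorm (fun x => χ x • (K.indicator f x - g x)) 2 (volume : Measure (En d)) ≤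
      ENNReal.ofReal (ε / 3) := by
    refine le_trans (eLpNorm_mono fun x => ?_) hg3
    rw [norm_smul, Real.norm_eq_abs]
    exact mul_le_of_le_one_left (norm_nonneg _) (c5 x)
  rw [eLpNorm_congr_ae e]
  have t1 := eLpNorm_add_le (m1.add m2) m3 (one_le_two (α := ℝ≥0∞))
  have t2 := eLpNorm_add_le m1 m2 (one_le_two (α := ℝ≥0∞))
  refine t1.trans ((add_le_add (t2.trans (add_le_add (hδ2 _ hA hKm.le) hS2.le)) b3).trans ?_)
  rw [← ENNReal.ofReal_add hε3.le hε3.le, ← ENNReal.ofReal_add (by linarith) hε3.le]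
  exact ENNReal.ofReal_le_ofReal (by linarith)

end Pool.Agent.Lib.MP_79abb3_an.W
end

section

/-!
Theorem W (MP_79abb3_an), block EG (the reference fields of one move): geometry.
-/

set_option autoImplicit false
set_option linter.unusedSectionVars false

open MeasureTheory Set Filter Topology Function
open scoped ENNReal RealInnerProductSpace

namespace Pool.Agent.Lib.MP_79abb3_an.W

variable {d : ℕ} {D : Set (En d)} {z : En d → ℝ} {δ : ℝ}

/-- compact sets are far from the walls -/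
theorem Dom.exists_far (h : Dom D z δ) {K : Set (En d)} (hK : IsCompact K) (hKD : K ⊆ D) :
    ∃ m : ℝ, 0 < m ∧ ∀ x ∈ K, m ≤ z x := by
  rcases K.eq_empty_or_nonempty with h0 | h0
  · exact ⟨1, one_pos, fun x hx => by rw [h0] at hx; exact absurd hx (notMem_empty x)⟩
  · obtain ⟨y, hy, hmin⟩ := hK.exists_isMinOn h0 (ContDiff.continuous h.smo).continuousOn
    exact ⟨z y, (h.pos y).1 (hKD hy), fun x hx => hmin hx⟩

/-- the setting of block D -/
theorem Dom.exists_stg (h : Dom D z δ) {p : En d} {s : ℝ} (hs : Metric.closedBall p s ⊆ D) :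
    ∃ δ' : ℝ, 0 < δ' ∧ δ' ≤ δ ∧ Stg D (Metric.closedBall p s) z δ' := by
  obtain ⟨m, hm, hmz⟩ := h.exists_far (isCompact_closedBall p s) hs
  have h0 : 0 < min δ (m / 4) := lt_min h.δ0 (by positivity)
  refine ⟨min δ (m / 4), h0, min_le_left _ _, h.shrink h0 (min_le_left _ _), Metric.isClosed_closedBall, hs,
    fun x hx => ?_⟩
  have h1 : min δ (m / 4) ≤ m / 4 := min_le_right _ _
  linarith [hmz x hx]

/-- the cut off of the force -/
theorem exists_cutG {p : En d} {r : ℝ} (hr : 0 < r) : ∃ χ : En d → ℝ, ContDiff ℝ ((⊤ : ℕ∞) : WithTop ℕ∞) χ ∧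
    (∀ x, χ x ∈ Icc (0:ℝ) 1) ∧ (∀ x ∈ Metric.closedBall p (r / 2), χ x = 1) ∧
    ∀ x, x ∉ Metric.closedBall p r → χ x = 0 := by
  let f : ContDiffBump p := ⟨r / 2, r, by positivity, by linarith⟩
  refine ⟨fun x => f x, f.contDiff, fun x => ⟨f.nonneg, f.le_one⟩, fun x hx => f.one_of_mem_closedBall hx,
    fun x hx => f.zero_of_le_dist ?_⟩
  rw [Metric.mem_closedBall, not_le] at hx
  exact hx.le

/-- the drift which is wanted -/
theorem Rot.V₀_facts (h : Dom D z δ) (R : Rot d) (hR : Metric.closedBall R.c R.r ⊆ D) (c : ℝ) :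
    BD D (fun x => c • R.V x) ∧ ∃ m : ℝ, 0 < m ∧ ∀ x ∈ D, z x ≤ m →
      c • R.V x = 0 ∧ fderiv ℝ (fun x => c • R.V x) x = 0 := by
  refine ⟨(Smo.bd h.bdd R.V_smo).const_smul h.isOpen c, ?_⟩
  obtain ⟨m, hm, hmz⟩ := h.exists_far (isCompact_closedBall R.c R.r) hR
  refine ⟨m / 2, by positivity, fun x _ hx => ?_⟩
  have hxn : x ∉ Metric.closedBall R.c R.r := fun hx' => by
    have := hmz x hx'
    linarith
  have h1 : (fun x => c • R.V x) =ᶠ[𝓝 x] fun _ => 0 := by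
    filter_upwards [Metric.isClosed_closedBall.isOpen_compl.mem_nhds hxn] with y hy
    have h2 : y ∉ tsupport R.V := fun h3 => hy (R.V_supp h3)
    show c • R.V y = 0
    rw [image_eq_zero_of_notMem_tsupport h2, smul_zero]
  refine ⟨h1.eq_of_nhds, ?_⟩
  rw [h1.fderiv_eq, fderiv_fun_const]
  rfl

theorem lieF_smul_left (c : ℝ) {V : En d → En d} (hV : Smo V) (f : En d → En d) (x : En d) :
    lieF (fun x => c • V x) f x = c • lieF V f x := by
  unfold lieF
  have h1 : DifferentiableAt ℝ V x := (ContDiff.differentiable hV (by simp)).differentiableAt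
  rw [fderiv_fun_const_smul h1, map_smul, map_smul, smul_add]
  rfl

end Pool.Agent.Lib.MP_79abb3_an.W
end

section

/-!
Theorem W, block D, part X6: coupling.
-/

set_option autoImplicit false
set_option linter.unusedSectionVars false

open MeasureTheory Set Filter Topology Function
open scoped ENNReal RealInnerProductSpace

namespace Pool.Agent.Lib.MP_79abb3_an.W

variable {d : ℕ} {D B : Set (Ed d)} {z : Ed d → ℝ} {δ : ℝ}

private theorem dx6_exp {c y : ℝ} (hc : 0 < c) (hy : 0 ≤ y) :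
    Real.exp (-(c * y)) ≤ Real.exp (-(c / 2 * y)) ∧ y * Real.exp (-(c * y)) ≤ 2 / c * Real.exp (-(c / 2 * y)) := by
  constructor
  · apply Real.exp_le_exp.2
    nlinarith [mul_nonneg hc.le hy]
  · have h1 : Real.exp (-(c * y)) = Real.exp (-(c / 2 * y)) * Real.exp (-(c / 2 * y)) := by
      rw [← Real.exp_add]
      congr 1
      ring
    have h2 : c / 2 * y ≤ Real.exp (c / 2 * y) := by
      have := Real.add_one_le_exp (c / 2 * y)
      linarith
    have h3 : y * Real.exp (-(c / 2 * y)) ≤ 2 / c := by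
      rw [Real.exp_neg, ← div_eq_mul_inv, div_le_div_iff₀ (Real.exp_pos _) hc]
      nlinarith
    have h4 := mul_le_mul_of_nonneg_right h3 (Real.exp_pos (-(c / 2 * y))).le
    rw [h1]
    linarith

/-- Coupling with a slow field. -/
theorem couple (hS : Stg D B z δ) {RL RB : Fam d (Ed d)} (hL : IsLay D z (-1) RL) (hB : Bkf D 1 RB) :
    ∃ C c : ℝ, 0 < c ∧ ∀ (s : Ed d → Ed d) (M : ℝ), (∀ x ∈ D, ‖s x‖ ≤ M ∧ ‖fderiv ℝ s x‖ ≤ M ∧
      |⟪gd z x, s x⟫| ≤ M * z x) → ∀ ε ∈ Ioc (0 : ℝ) 1, ∀ t, ∀ x ∈ D,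
      ‖fderiv ℝ (fun y => RL ε t y + RB ε t y) x (s x) + fderiv ℝ s x (RL ε t x + RB ε t x)‖ ≤
        C * M * (ε⁻¹ * Real.exp (-(c * (z x / ε))) + ε) := by
  have hD : IsOpen D := hS.dom.col.isOpen
  obtain ⟨C₁, c, hc, h1⟩ := hL.bd
  obtain ⟨hBf, C₂, h2⟩ := hB
  refine ⟨|C₁| * (2 / c + 2) + 2 * |C₂|, c / 2, by positivity, ?_⟩
  intro s M hs ε hε t x hx
  have hε0 : 0 < ε := hε.1
  obtain ⟨s1, s2, s3⟩ := hs x hx
  have hM : 0 ≤ M := (norm_nonneg _).trans s1
  have hzx : 0 < z x := hS.dom.zpos hx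
  obtain ⟨a1, -, a3⟩ := h1 ε hε t x hx
  obtain ⟨b1, b2⟩ := h2 ε hε t x hx
  have e1 : ε ^ ((-1 : ℤ) - 1) = ε⁻¹ * ε⁻¹ := by
    rw [show ((-1 : ℤ) - 1) = -1 + -1 by norm_num, zpow_add₀ hε0.ne', zpow_neg_one]
  have a3' := a3 (s x)
  rw [e1, zpow_neg_one] at a3'
  rw [zpow_neg_one] at a1
  rw [zpow_one] at b1 b2
  have d1 : DifferentiableAt ℝ (RL ε t) x := ((hL.fs ε hε).bd hD t).diff hD hx
  have d2 : DifferentiableAt ℝ (RB ε t) x := ((hBf ε hε).bd hD t).diff hD hx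
  rw [fderiv_fun_add d1 d2, ContinuousLinearMap.add_apply, map_add]
  obtain ⟨y, hy⟩ : ∃ y, y = z x / ε := ⟨_, rfl⟩
  have hy0 : 0 ≤ y := by rw [hy]; positivity
  have hzy : z x = y * ε := by rw [hy]; field_simp
  rw [← hy] at a1 a3' ⊢
  obtain ⟨x1, x2⟩ := dx6_exp hc hy0
  obtain ⟨E, hE⟩ : ∃ E, E = Real.exp (-(c / 2 * y)) := ⟨_, rfl⟩
  obtain ⟨E', hE'⟩ : ∃ E', E' = Real.exp (-(c * y)) := ⟨_, rfl⟩
  rw [← hE, ← hE'] at x1 x2
  rw [← hE'] at a1 a3'
  rw [← hE]
  have hE0 : 0 ≤ E := by rw [hE]; exact (Real.exp_pos _).le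
  have hE'0 : 0 ≤ E' := by rw [hE']; exact (Real.exp_pos _).le
  have hi : 0 < ε⁻¹ := inv_pos.2 hε0
  have k1 : ‖fderiv ℝ (RL ε t) x (s x)‖ ≤ |C₁| * (2 / c + 1) * M * (ε⁻¹ * E) := by
    have hX : 0 ≤ ε⁻¹ * ε⁻¹ * |⟪gd z x, s x⟫| + ε⁻¹ * ‖s x‖ := by positivity
    have l1 : C₁ * E' * (ε⁻¹ * ε⁻¹ * |⟪gd z x, s x⟫| + ε⁻¹ * ‖s x‖) ≤
        |C₁| * E' * (ε⁻¹ * ε⁻¹ * (M * z x) + ε⁻¹ * M) := by
      have l2 : C₁ ≤ |C₁| := le_abs_self _
      gcongr
    have l3 : |C₁| * E' * (ε⁻¹ * ε⁻¹ * (M * z x) + ε⁻¹ * M) = |C₁| * M * ε⁻¹ * (y * E' + E') := by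
      rw [hzy]
      field_simp
    have l4 : |C₁| * M * ε⁻¹ * (y * E' + E') ≤ |C₁| * M * ε⁻¹ * (2 / c * E + E) := by gcongr
    have l5 : |C₁| * M * ε⁻¹ * (2 / c * E + E) = |C₁| * (2 / c + 1) * M * (ε⁻¹ * E) := by ring
    linarith
  have k2 : ‖fderiv ℝ s x (RL ε t x)‖ ≤ |C₁| * M * (ε⁻¹ * E) := by
    refine ((fderiv ℝ s x).le_opNorm _).trans ?_
    have l1 : ‖RL ε t x‖ ≤ |C₁| * ε⁻¹ * E := by
      refine a1.trans ?_
      have l2 : C₁ ≤ |C₁| := le_abs_self _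
      gcongr
    calc ‖fderiv ℝ s x‖ * ‖RL ε t x‖ ≤ M * (|C₁| * ε⁻¹ * E) := by gcongr
      _ = |C₁| * M * (ε⁻¹ * E) := by ring
  have k3 : ‖fderiv ℝ (RB ε t) x (s x)‖ ≤ |C₂| * M * ε := by
    refine ((fderiv ℝ (RB ε t) x).le_opNorm _).trans ?_
    have l1 : ‖fderiv ℝ (RB ε t) x‖ ≤ |C₂| * ε :=
      b2.trans (mul_le_mul_of_nonneg_right (le_abs_self _) hε0.le)
    calc ‖fderiv ℝ (RB ε t) x‖ * ‖s x‖ ≤ |C₂| * ε * M := by gcongr
      _ = |C₂| * M * ε := by ring
  have k4 : ‖fderiv ℝ s x (RB ε t x)‖ ≤ |C₂| * M * ε := by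
    refine ((fderiv ℝ s x).le_opNorm _).trans ?_
    have l1 : ‖RB ε t x‖ ≤ |C₂| * ε := b1.trans (mul_le_mul_of_nonneg_right (le_abs_self _) hε0.le)
    calc ‖fderiv ℝ s x‖ * ‖RB ε t x‖ ≤ M * (|C₂| * ε) := by gcongr
      _ = |C₂| * M * ε := by ring
  have t1 := norm_add_le (fderiv ℝ (RL ε t) x (s x) + fderiv ℝ (RB ε t) x (s x))
    (fderiv ℝ s x (RL ε t x) + fderiv ℝ s x (RB ε t x))
  have t2 := norm_add_le (fderiv ℝ (RL ε t) x (s x)) (fderiv ℝ (RB ε t) x (s x))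
  have t3 := norm_add_le (fderiv ℝ s x (RL ε t x)) (fderiv ℝ s x (RB ε t x))
  have p1 : 0 ≤ |C₁| * (2 / c + 2) * M * ε := by positivity
  have p2 : 0 ≤ 2 * |C₂| * M * (ε⁻¹ * E) := by positivity
  have fin : (|C₁| * (2 / c + 2) + 2 * |C₂|) * M * (ε⁻¹ * E + ε) =
      |C₁| * (2 / c + 1) * M * (ε⁻¹ * E) + |C₁| * M * (ε⁻¹ * E) + |C₂| * M * ε + |C₂| * M * ε +
      |C₁| * (2 / c + 2) * M * ε + 2 * |C₂| * M * (ε⁻¹ * E) := by ring
  rw [fin]
  linarith

end Pool.Agent.Lib.MP_79abb3_an.W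
end

section

/-!
Theorem W (MP_79abb3_an), block EG (the reference fields of one move): algebra: the splitting of the reference field.
-/

set_option autoImplicit false
set_option linter.unusedSectionVars false

open MeasureTheory Set Filter Topology Function
open scoped ENNReal RealInnerProductSpace

namespace Pool.Agent.Lib.MP_79abb3_an.W

variable {d : ℕ} {X : Fld d} {D : Set (En d)} {z : En d → ℝ} {δ : ℝ}

/-- The amplitude in physical time. -/
theorem ap_cb {a : ℝ → ℝ} (ha : ContDiff ℝ ((⊤ : ℕ∞) : WithTop ℕ∞) a) (h0 : ∀ t, 0 ≤ a t) (h1 : ∀ t, a t ≤ 1)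
    (hl : ∀ t, t ≤ 1 / 4 → a t = 0) (hr : ∀ t, 3 / 4 ≤ t → a t = 0) {b : ℝ} (hb : 0 < b) :
    CB (fun t => (√b)⁻¹ * a (t / b)) ∧ ∀ t, |(√b)⁻¹ * a (t / b)| ≤ (√b)⁻¹ := by
  have hs : ContDiff ℝ ((⊤ : ℕ∞) : WithTop ℕ∞) (fun t => (√b)⁻¹ * a (t / b)) :=
    contDiff_const.mul (ha.comp (contDiff_id.div_const b))
  have hcs : HasCompactSupport (fun t => (√b)⁻¹ * a (t / b)) := by
    refine HasCompactSupport.intro (isCompact_Icc (a := 0) (b := b)) fun t ht => ?_
    have : a (t / b) = 0 := by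
      rcases lt_or_ge t 0 with h | h
      · refine hl _ ?_
        have : t / b < 0 := div_neg_of_neg_of_pos h hb
        linarith
      · have h2 : b < t := by
          by_contra h3
          exact ht ⟨h, not_lt.1 h3⟩
        refine hr _ ?_
        have : 1 ≤ t / b := (one_le_div hb).2 h2.le
        linarith
    show (√b)⁻¹ * a (t / b) = 0
    rw [this, mul_zero]
  have hv : ∀ t, |(√b)⁻¹ * a (t / b)| ≤ (√b)⁻¹ := by
    intro t
    have hb' : 0 ≤ (√b)⁻¹ := by positivity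
    rw [abs_of_nonneg (mul_nonneg hb' (h0 _))]
    exact mul_le_of_le_one_right hb' (h1 _)
  refine ⟨⟨hs, ?_⟩, hv⟩
  obtain ⟨C, hC⟩ := hcs.deriv.exists_bound_of_continuous (hs.continuous_deriv (by simp))
  refine ⟨max (√b)⁻¹ C, fun t => ⟨(hv t).trans (le_max_left _ _), ?_⟩⟩
  exact (hC t).trans (le_max_right _ _)

theorem Fld.ap_b (hb : 0 < X.b) (t : ℝ) : X.ap (X.b * t) = (√X.b)⁻¹ * X.a t := by
  unfold Fld.ap
  rw [mul_div_cancel_left₀ _ hb.ne']

/-- The fast potential field: `e⁻¹ ap(bt) = q¹² a(t) / b`, `bt / e² = q²⁴ t`. -/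
theorem Fld.uP_eq (hb : 0 < X.b) {q e : ℝ} (hq : 0 < q) (he : e = √X.b / q ^ 12) (t : ℝ) (x : En d) :
    uPD X.P X.Q X.ψ X.ψ' X.ap e (X.b * t) x = (q ^ 12 * X.a t / X.b) • (X.Wv e).U (q ^ 24 * t) x := by
  have hsb : 0 < √X.b := Real.sqrt_pos.2 hb
  have hsq : √X.b * √X.b = X.b := Real.mul_self_sqrt hb.le
  have hq' : 0 < q ^ 12 := by positivity
  have he0 : 0 < e := by rw [he]; positivity
  have e1 : e⁻¹ * X.ap (X.b * t) = q ^ 12 * X.a t / X.b := by
    rw [X.ap_b hb, he, inv_div]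
    have h1 : q ^ 12 / √X.b * ((√X.b)⁻¹ * X.a t) = q ^ 12 * X.a t / (√X.b * √X.b) := by
      field_simp
    rw [h1, hsq]
  have e2 : X.ap (X.b * t) = (q ^ 12 * X.a t / X.b) * e := by
    rw [← e1]
    field_simp
  have e3 : X.b * t / e ^ 2 = q ^ 24 * t := by
    have h1 : e ^ 2 = X.b / q ^ 24 := by
      rw [he, div_pow, Real.sq_sqrt hb.le, ← pow_mul]
    rw [h1]
    field_simp
  unfold uPD
  rw [e1, e3, e2, mul_smul, ← smul_add]
  congr 1
  unfold wv Wav.U Fld.Wv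
  rw [Finset.smul_sum, ← Finset.sum_add_distrib]
  refine Finset.sum_congr rfl fun j _ => ?_
  simp only [Nat.cast_pow, Nat.cast_ofNat]
  module

/-- The slow field: `ap(bt)² = a(t)² / b`. -/
theorem Fld.uS_eq (hb : 0 < X.b) (e t : ℝ) (x : En d) : uS X.ap X.C0 X.C1 e (X.b * t) x = X.S0 e t x := by
  unfold uS Fld.S0
  rw [X.ap_b hb, mul_pow, inv_pow, Real.sq_sqrt hb.le]
  congr 1
  rw [div_eq_inv_mul]

/-- The splitting of the reference field. -/
theorem Fld.spl (hb : 0 < X.b) {q e : ℝ} (hq : 0 < q) (he : e = √X.b / q ^ 12) (t : ℝ) (x : En d) :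
    X.u e t x = (q ^ 12 * X.a t / X.b) • (X.Wv e).U (q ^ 24 * t) x + X.Rt e t x + X.Se e t x := by
  unfold Fld.u Fld.uu Fld.Rt Fld.Se Fld.RR Fld.sl
  rw [X.uP_eq hb hq he, X.uS_eq hb]
  abel

end Pool.Agent.Lib.MP_79abb3_an.W
end

section

/-!
Theorem W (MP_79abb3_an), block EG (the reference fields of one move): stability of the drift.
-/

set_option autoImplicit false
set_option linter.unusedSectionVars false

open MeasureTheory Set Filter Topology Function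
open scoped ENNReal RealInnerProductSpace

namespace Pool.Agent.Lib.MP_79abb3_an.W

variable {d : ℕ} {X : Fld d} {D : Set (En d)} {z : En d → ℝ} {δ : ℝ}

private theorem eg7b_bound (V : En d → En d) (x w : En d) {A : ℝ} (hA : ‖fderiv ℝ V x‖ ≤ A) :
    -⟪fderiv ℝ V x w, w⟫ + 1 / 2 * dv V x * ‖w‖ ^ 2 ≤ A * (1 + (d : ℝ) / 2) * ‖w‖ ^ 2 := by
  have h1 : -⟪fderiv ℝ V x w, w⟫ ≤ A * ‖w‖ ^ 2 := by
    have h2 : |⟪fderiv ℝ V x w, w⟫| ≤ ‖fderiv ℝ V x w‖ * ‖w‖ := abs_real_inner_le_norm _ _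
    have h3 : ‖fderiv ℝ V x w‖ ≤ A * ‖w‖ := (ContinuousLinearMap.le_opNorm _ _).trans (by gcongr)
    calc -⟪fderiv ℝ V x w, w⟫ ≤ |⟪fderiv ℝ V x w, w⟫| := neg_le_abs _
      _ ≤ ‖fderiv ℝ V x w‖ * ‖w‖ := h2
      _ ≤ A * ‖w‖ * ‖w‖ := by gcongr
      _ = A * ‖w‖ ^ 2 := by ring
  have h4 : dv V x ≤ (d : ℝ) * A := by
    have h5 : ∀ i : Fin d, pd i V x i ≤ A := by
      intro i
      have h6 : |pd i V x i| ≤ ‖pd i V x‖ := by
        have := PiLp.norm_apply_le (pd i V x) i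
        rwa [Real.norm_eq_abs] at this
      have h7 : ‖pd i V x‖ ≤ A := by
        refine (ContinuousLinearMap.le_opNorm _ _).trans ?_
        have h8 : ‖(ei i : En d)‖ = 1 := by simp [ei]
        rw [h8, mul_one]
        exact hA
      exact (le_abs_self _).trans (h6.trans h7)
    calc dv V x = ∑ i, pd i V x i := rfl
      _ ≤ ∑ _i : Fin d, A := Finset.sum_le_sum fun i _ => h5 i
      _ = (d : ℝ) * A := by simp
  have h9 : 1 / 2 * dv V x * ‖w‖ ^ 2 ≤ 1 / 2 * ((d : ℝ) * A) * ‖w‖ ^ 2 := by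
    gcongr
  calc _ ≤ A * ‖w‖ ^ 2 + 1 / 2 * ((d : ℝ) * A) * ‖w‖ ^ 2 := add_le_add h1 h9
    _ = _ := by ring

/-- **Stability of the drift**: `|- ⟪DVb w, w⟫ + (dv Vb) |w|²/2| ≤ ‖DVb‖ (1 + d/2) |w|²`; off `B`: `‖DVb‖ ≤ Kv + εC + C e`. -/
theorem Fld.OK.dr (h : X.OK D) {CV : ℝ} (hCV : (X.Kv + 1) * (1 + (d : ℝ) / 2) ≤ CV) (hε : X.εC ≤ 1 / 2) :
    ∃ e₀ ∈ Ioc (0:ℝ) 1, ∃ MN : ℝ, 0 ≤ MN ∧ ∀ e ∈ Ioc (0:ℝ) e₀, ∀ x ∈ D, ∀ w : En d,
      -⟪fderiv ℝ (X.Wv e).Vb x w, w⟫ + 1 / 2 * dv (X.Wv e).Vb x * ‖w‖ ^ 2 ≤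
        (CV + X.B.indicator (fun _ => MN) x) * ‖w‖ ^ 2 := by
  obtain ⟨C, hC, H1⟩ := h.Vb_close
  obtain ⟨C2, hC2, H2⟩ := h.Vb_bdd
  have hD : IsOpen D := h.stg.dom.isOpen
  have hKv := h.Kv0
  have hd : (0 : ℝ) ≤ (d : ℝ) := Nat.cast_nonneg d
  have hCV0 : 0 ≤ CV := le_trans (by positivity) hCV
  refine ⟨min 1 (1 / (2 * (C + 1))), ⟨by positivity, min_le_left _ _⟩, C2 * (1 + (d : ℝ) / 2), by positivity,
    fun e he x hx w => ?_⟩
  have he1 : e ∈ Ioc (0 : ℝ) 1 := ⟨he.1, he.2.trans (min_le_left _ _)⟩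
  have hCe : C * e ≤ 1 / 2 := by
    have h1 : e ≤ 1 / (2 * (C + 1)) := he.2.trans (min_le_right _ _)
    calc C * e ≤ (C + 1) * (1 / (2 * (C + 1))) := by
          refine mul_le_mul (by linarith) h1 he.1.le (by linarith)
      _ = 1 / 2 := by field_simp
  by_cases hB : x ∈ X.B
  · rw [indicator_of_mem hB]
    have h1 : ‖fderiv ℝ (X.Wv e).Vb x‖ ≤ C2 := (H2 e he1).le1 hx
    refine (eg7b_bound (X.Wv e).Vb x w h1).trans ?_
    have h2 : 0 ≤ CV * ‖w‖ ^ 2 := by positivity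
    nlinarith
  · rw [indicator_of_notMem hB, add_zero]
    have h0 : ‖fderiv ℝ (fun x => (X.Wv e).Vb x - X.V₀ x) x‖ ≤ X.εC + C * e := (H1 e he1).le1 ⟨hx, hB⟩
    have h3 : ‖fderiv ℝ X.V₀ x‖ ≤ X.Kv := h.V₀k.le1 hx
    have h1 : ‖fderiv ℝ (X.Wv e).Vb x‖ ≤ X.Kv + 1 := by
      by_cases hdf : DifferentiableAt ℝ (X.Wv e).Vb x
      · have hdv : DifferentiableAt ℝ X.V₀ x :=
          (h.V₀b.1.contDiffAt (hD.mem_nhds hx)).differentiableAt (by norm_num)
        have h4 : fderiv ℝ (fun x => (X.Wv e).Vb x - X.V₀ x) x = fderiv ℝ (X.Wv e).Vb x - fderiv ℝ X.V₀ x :=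
          fderiv_fun_sub hdf hdv
        have h5 : fderiv ℝ (X.Wv e).Vb x = fderiv ℝ (fun x => (X.Wv e).Vb x - X.V₀ x) x + fderiv ℝ X.V₀ x := by
          rw [h4, sub_add_cancel]
        rw [h5]
        refine (norm_add_le _ _).trans ?_
        linarith
      · rw [fderiv_zero_of_not_differentiableAt hdf, norm_zero]
        linarith
    refine (eg7b_bound (X.Wv e).Vb x w h1).trans ?_
    exact mul_le_mul_of_nonneg_right hCV (by positivity)

end Pool.Agent.Lib.MP_79abb3_an.W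
end

section

/-!
Theorem W (MP_79abb3_an), block EG (the reference fields of one move): boundary values, divergence.
-/

set_option autoImplicit false
set_option linter.unusedSectionVars false

open MeasureTheory Set Filter Topology Function
open scoped ENNReal RealInnerProductSpace

namespace Pool.Agent.Lib.MP_79abb3_an.W

variable {d : ℕ} {X : Fld d} {D : Set (En d)} {z : En d → ℝ} {δ : ℝ}

/-- **Uniform constant in `O(z)`**: a field which vanishes at the walls and is bounded with its gradient by `M` is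
`≤ C M z`. Near the walls: `x - s n(x)`, `0 ≤ s < z(x)`, stays in `D` with `z = z(x) - s` (`Dom.push`), so
`‖f x‖ ≤ ‖f (x - s n)‖ + M s`, let `s → z(x)`; for `z ≥ δ`: `‖f‖ ≤ M ≤ (M/δ) z`. -/
theorem oz_unif (h : Dom D z δ) : ∃ C : ℝ, 0 ≤ C ∧ ∀ (f : En d → En d) (M : ℝ), BD D f → Oz D z f →
    (∀ x ∈ D, ‖f x‖ ≤ M) → (∀ x ∈ D, ‖fderiv ℝ f x‖ ≤ M) → ∀ x ∈ D, ‖f x‖ ≤ C * M * z x := by
  have hδ := h.δ0
  have hD := h.isOpen
  refine ⟨1 + δ⁻¹, by positivity, fun f M hf hO hM hM' x hx => ?_⟩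
  have hzx : 0 < z x := h.zpos hx
  have hM0 : 0 ≤ M := (norm_nonneg _).trans (hM x hx)
  by_cases hzd : δ ≤ z x
  · have h1 : 1 ≤ δ⁻¹ * z x := by
      rw [← inv_mul_cancel₀ hδ.ne']
      exact mul_le_mul_of_nonneg_left hzd (by positivity)
    have h2 : M ≤ M * (δ⁻¹ * z x) := le_mul_of_one_le_right hM0 h1
    have h3 : 0 ≤ M * z x := mul_nonneg hM0 hzx.le
    calc ‖f x‖ ≤ M := hM x hx
      _ ≤ M * (δ⁻¹ * z x) := h2
      _ ≤ M * (δ⁻¹ * z x) + M * z x := le_add_of_nonneg_right h3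
      _ = (1 + δ⁻¹) * M * z x := by ring
  · push Not at hzd
    obtain ⟨C0, hC0⟩ := hO
    have hC00 : 0 ≤ C0 := by
      by_contra hneg
      push Not at hneg
      have h1 := (norm_nonneg _).trans (hC0 x hx)
      have h2 : C0 * z x < 0 := mul_neg_of_neg_of_pos hneg hzx
      linarith
    have hax : |z x| < 4 * δ := by
      rw [abs_of_pos hzx]
      linarith
    have hn : ‖gd z x‖ = 1 := h.gd_norm hax
    -- the points `x - r n`
    have hpt : ∀ r : ℝ, 0 ≤ r → r < z x → x + (-r) • gd z x ∈ D ∧ z (x + (-r) • gd z x) = z x - r := by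
      intro r hr0 hr1
      have h1 : |z x + -r| < 4 * δ := by
        rw [abs_of_pos (by linarith)]
        linarith
      have h2 := (h.push hax h1).1
      have h3 : z (x + (-r) • gd z x) = z x - r := by
        rw [h2]
        ring
      refine ⟨?_, h3⟩
      rw [h.pos, h3]
      linarith
    have key : ∀ s : ℝ, 0 ≤ s → s < z x → ‖f x‖ ≤ C0 * (z x - s) + M * s := by
      intro s hs0 hs1
      obtain ⟨hyD, hyz⟩ := hpt s hs0 hs1
      set y : En d := x + (-s) • gd z x with hy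
      have hseg : ∀ w ∈ segment ℝ y x, w ∈ D := by
        intro w hw
        obtain ⟨a, b, ha, hb, hab, rfl⟩ := hw
        have h1 : a • y + b • x = x + (-(a * s)) • gd z x := by
          rw [hy, smul_add, smul_smul]
          have h2 : a • x + (a * -s) • gd z x + b • x = (a + b) • x + (-(a * s)) • gd z x := by
            rw [add_smul]
            have h3 : a * -s = -(a * s) := by ring
            rw [h3]
            abel
          rw [h2, hab, one_smul]
        rw [h1]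
        have ha1 : a ≤ 1 := by linarith
        have h4 : a * s ≤ s := by
          calc a * s ≤ 1 * s := mul_le_mul_of_nonneg_right ha1 hs0
            _ = s := one_mul s
        exact (hpt (a * s) (mul_nonneg ha hs0) (lt_of_le_of_lt h4 hs1)).1
      have h1 : ‖f x - f y‖ ≤ M * ‖x - y‖ :=
        Convex.norm_image_sub_le_of_norm_hasFDerivWithin_le (f := f) (f' := fderiv ℝ f)
          (s := segment ℝ y x) (fun w hw => (hf.diff hD (hseg w hw)).hasFDerivAt.hasFDerivWithinAt)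
          (fun w hw => hM' w (hseg w hw)) (convex_segment y x) (left_mem_segment ℝ y x)
          (right_mem_segment ℝ y x)
      have h2 : ‖x - y‖ = s := by
        have h3 : x - y = s • gd z x := by
          rw [hy]
          module
        rw [h3, norm_smul, hn, mul_one, Real.norm_eq_abs, abs_of_nonneg hs0]
      rw [h2] at h1
      have h4 : ‖f y‖ ≤ C0 * (z x - s) := by
        have h5 := hC0 y hyD
        rwa [hyz] at h5
      calc ‖f x‖ = ‖f y + (f x - f y)‖ := by congr 1; abel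
        _ ≤ ‖f y‖ + ‖f x - f y‖ := norm_add_le _ _
        _ ≤ C0 * (z x - s) + M * s := add_le_add h4 h1
    have hfin : ‖f x‖ ≤ M * z x := by
      refine le_of_forall_pos_le_add fun η hη => ?_
      set τ : ℝ := min (z x) (η / (C0 + 1)) with hτ
      have hτ0 : 0 < τ := lt_min hzx (by positivity)
      have hτ1 : τ ≤ z x := min_le_left _ _
      have hτ2 : τ ≤ η / (C0 + 1) := min_le_right _ _
      have h1 := key (z x - τ) (by linarith) (by linarith)
      have h2 : C0 * τ ≤ η := by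
        calc C0 * τ ≤ (C0 + 1) * (η / (C0 + 1)) :=
              mul_le_mul (by linarith) hτ2 hτ0.le (by linarith)
          _ = η := mul_div_cancel₀ η (by positivity)
      have h3 : M * (z x - τ) ≤ M * z x := mul_le_mul_of_nonneg_left (by linarith) hM0
      have h4 : C0 * (z x - (z x - τ)) = C0 * τ := by ring
      rw [h4] at h1
      linarith
    have h5 : 0 ≤ δ⁻¹ * (M * z x) := by positivity
    calc ‖f x‖ ≤ M * z x := hfin
      _ ≤ M * z x + δ⁻¹ * (M * z x) := le_add_of_nonneg_right h5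
      _ = (1 + δ⁻¹) * M * z x := by ring

namespace Fld.OK
variable {e : ℝ}

/-- `corr_div` -/
theorem sl_div (h : X.OK D) (t : ℝ) : ∀ x ∈ D, dv (X.sl t) x = 0 := by
  intro x hx
  have hD := h.stg.dom.isOpen
  have hY : BD D (X.Y t) := h.sY.bd hD t
  have hc : BD D (X.co t) := corr_bd h.stg.dom h.ρ0 hY
  have h1 : fderiv ℝ (X.sl t) x = fderiv ℝ (X.Y t) x - fderiv ℝ (X.co t) x :=
    fderiv_fun_sub (hY.diff hD hx) (hc.diff hD hx)
  rw [dv_eq, h1, map_sub, ← dv_eq, ← dv_eq, (h.lr t).div x hx]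
  have h2 : dv (X.co t) x = 0 := corr_div h.stg.dom h.ρ0 hY x hx
  rw [h2, sub_zero]

/-- `corr_oz` -/
theorem sl_oz (h : X.OK D) (t : ℝ) : Oz D X.z (X.sl t) :=
  corr_oz h.stg.dom h.ρ0 h.ρδ (h.sY.bd h.stg.dom.isOpen t) (h.lr t).tan

/-- `lay.div`, `sl_div` -/
theorem u_div (h : X.OK D) (he : e ∈ Ioc (0:ℝ) 1) (t : ℝ) : ∀ x ∈ D, dv (X.u e t) x = 0 := by
  intro x hx
  have hD := h.stg.dom.isOpen
  have hu : BD D (X.uu e (X.b * t)) := FS.bd hD (h.lay.ffs e he) (X.b * t)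
  have hs : BD D (X.sl t) :=
    (h.sY.bd hD t).sub hD (corr_bd h.stg.dom h.ρ0 (h.sY.bd hD t))
  have h1 : fderiv ℝ (X.u e t) x = fderiv ℝ (X.uu e (X.b * t)) x + fderiv ℝ (X.sl t) x :=
    fderiv_fun_add (hu.diff hD hx) (hs.diff hD hx)
  have h2 : dv (X.uu e (X.b * t)) x = 0 := h.lay.div e he (X.b * t) x hx
  rw [dv_eq, h1, map_add, ← dv_eq, ← dv_eq, h2, sl_div h t x hx, add_zero]

/-- `lay.trace`, `sl_oz` -/
theorem u_oz (h : X.OK D) (he : e ∈ Ioc (0:ℝ) 1) (t : ℝ) : Oz D X.z (X.u e t) := by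
  obtain ⟨C1, h1⟩ := h.lay.trace e he (X.b * t)
  obtain ⟨C2, h2⟩ := sl_oz h t
  refine ⟨C1 + C2, fun x hx => ?_⟩
  have h3 : ‖X.uu e (X.b * t) x‖ ≤ C1 * X.z x := h1 x hx
  calc ‖X.u e t x‖ ≤ ‖X.uu e (X.b * t) x‖ + ‖X.sl t x‖ := norm_add_le _ _
    _ ≤ C1 * X.z x + C2 * X.z x := add_le_add h3 (h2 x hx)
    _ = (C1 + C2) * X.z x := by ring

/-- the hypothesis of `couple`, uniformly in `t` (`oz_unif`, `‖gd z‖` is bounded on `D`) -/
theorem sl_couple (h : X.OK D) : ∃ M : ℝ, ∀ t ∈ Icc (0:ℝ) 1, ∀ x ∈ D, ‖X.sl t x‖ ≤ M ∧ ‖fderiv ℝ (X.sl t) x‖ ≤ M ∧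
    |⟪gd X.z x, X.sl t x⟫| ≤ M * X.z x := by
  have hD := h.stg.dom.isOpen
  obtain ⟨C, hC0, hC⟩ := oz_unif h.stg.dom
  obtain ⟨G, hG0, hG⟩ := h.stg.dom.bd_n.bound
  have hK := h.Ks0
  refine ⟨X.Ks + G * (C * X.Ks), fun t ht x hx => ?_⟩
  have hk := h.bsl t ht
  have hs : BD D (X.sl t) :=
    (h.sY.bd hD t).sub hD (corr_bd h.stg.dom h.ρ0 (h.sY.bd hD t))
  have h0 : ∀ y ∈ D, ‖X.sl t y‖ ≤ X.Ks := fun y hy => hk.le0 hy
  have h1 : ∀ y ∈ D, ‖fderiv ℝ (X.sl t) y‖ ≤ X.Ks := fun y hy => Bk.le1 hk hy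
  have h2 := hC (X.sl t) X.Ks hs (sl_oz h t) h0 h1 x hx
  have h3 : 0 ≤ G * (C * X.Ks) := by positivity
  have hz : 0 < X.z x := h.stg.dom.zpos hx
  refine ⟨(h0 x hx).trans (le_add_of_nonneg_right h3), (h1 x hx).trans (le_add_of_nonneg_right h3), ?_⟩
  calc |⟪gd X.z x, X.sl t x⟫| ≤ ‖gd X.z x‖ * ‖X.sl t x‖ := abs_real_inner_le_norm _ _
    _ ≤ G * (C * X.Ks * X.z x) := mul_le_mul (hG x hx) h2 (norm_nonneg _) hG0
    _ = G * (C * X.Ks) * X.z x := by ring
    _ ≤ (X.Ks + G * (C * X.Ks)) * X.z x := mul_le_mul_of_nonneg_right (le_add_of_nonneg_left hK) hz.le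

end Fld.OK

end Pool.Agent.Lib.MP_79abb3_an.W
end

section

/-!
Theorem W (MP_79abb3_an), block EG (the reference fields of one move): sources in the dual of V.
-/

set_option autoImplicit false
set_option linter.unusedSectionVars false

open MeasureTheory Set Filter Topology Function
open scoped ENNReal RealInnerProductSpace

namespace Pool.Agent.Lib.MP_79abb3_an.W

variable {d : ℕ} {X : Fld d} {D : Set (En d)} {z : En d → ℝ} {δ : ℝ}

/-- Cauchy-Schwarz with the Hardy weight -/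
private theorem eg9_core (h : Dom D z δ) {H : ℝ} (v : VD D)
    (hm : MemLp (fun x => (z x)⁻¹ • ((io D v : HD D) : L2E d) x) 2 volume)
    (hH : ∫ x, ‖((io D v : HD D) : L2E d) x‖ ^ 2 / z x ^ 2 ≤ H) {f : En d → En d} {g : En d → ℝ}
    (hg : Continuous g) (h0 : ∀ x ∈ D, ‖f x‖ * z x ≤ g x) {G : ℝ} (hG : ∫ x in D, g x ^ 2 ≤ G) :
    |∫ x in D, ⟪f x, ((io D v : HD D) : L2E d) x⟫| ≤ √G * √H := by
  have hD : MeasurableSet D := h.col.meas
  set U : En d → En d := fun x => ((io D v : HD D) : L2E d) x with hU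
  set w : En d → ℝ := fun x => ‖(z x)⁻¹ • U x‖ with hw
  have hwm : MemLp w 2 volume := hm.norm
  have hwr : MemLp w 2 (volume.restrict D) := hwm.restrict D
  have : IsFiniteMeasure (volume.restrict D) := ⟨by
    rw [Measure.restrict_apply_univ]
    exact h.col.vol⟩
  obtain ⟨M, hM0, hM⟩ := h.col.bound hg
  have hgr : MemLp g 2 (volume.restrict D) := by
    refine MemLp.of_bound hg.aestronglyMeasurable M ?_
    filter_upwards [ae_restrict_mem hD] with x hx
    exact hM x (subset_closure hx)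
  have hi : Integrable (fun x => g x * w x) (volume.restrict D) := hgr.integrable_mul hwr
  have hg0 : ∀ x ∈ D, 0 ≤ g x := fun x hx =>
    (mul_nonneg (norm_nonneg _) ((h.pos x).1 hx).le).trans (h0 x hx)
  have h1 : |∫ x in D, ⟪f x, U x⟫| ≤ ∫ x in D, g x * w x := by
    rw [← Real.norm_eq_abs]
    refine norm_integral_le_of_norm_le hi ?_
    filter_upwards [ae_restrict_mem hD] with x hx
    have hz : 0 < z x := (h.pos x).1 hx
    have h2 : ‖U x‖ = z x * w x := by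
      simp only [hw, norm_smul, norm_inv, Real.norm_eq_abs, abs_of_pos hz]
      rw [mul_inv_cancel_left₀ hz.ne']
    calc ‖⟪f x, U x⟫‖ ≤ ‖f x‖ * ‖U x‖ := norm_inner_le_norm _ _
      _ = ‖f x‖ * z x * w x := by rw [h2, mul_assoc]
      _ ≤ g x * w x := mul_le_mul_of_nonneg_right (h0 x hx) (norm_nonneg _)
  have h2 : ∫ x in D, g x * w x ≤ (∫ x in D, g x ^ (2 : ℝ)) ^ (1 / (2 : ℝ)) * (∫ x in D, w x ^ (2 : ℝ)) ^ (1 / (2 : ℝ)) := by
    refine integral_mul_le_Lp_mul_Lq_of_nonneg Real.HolderConjugate.two_two ?_ ?_ ?_ ?_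
    · filter_upwards [ae_restrict_mem hD] with x hx
      exact hg0 x hx
    · exact Eventually.of_forall fun x => norm_nonneg _
    · simpa using hgr
    · simpa using hwr
  have h3 : ∫ x in D, w x ^ (2 : ℝ) ≤ H := by
    have h4 : (fun x => w x ^ (2 : ℝ)) = fun x => ‖U x‖ ^ 2 / z x ^ 2 := by
      funext x
      rw [Real.rpow_two]
      simp only [hw, norm_smul, norm_inv, Real.norm_eq_abs]
      rw [mul_pow, inv_pow, sq_abs, div_eq_inv_mul]
    rw [h4]
    refine le_trans (setIntegral_le_integral ?_ ?_) hH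
    · rw [← h4]
      have h5 := hwm.integrable_norm_rpow (by norm_num) (by norm_num)
      refine h5.congr (Eventually.of_forall fun x => ?_)
      simp [hw]
    · exact Eventually.of_forall fun x => by positivity
  have h4 : ∫ x in D, g x ^ (2 : ℝ) ≤ G := by
    have h5 : (fun x => g x ^ (2 : ℝ)) = fun x => g x ^ 2 := by
      funext x
      rw [Real.rpow_two]
    rw [h5]
    exact hG
  refine h1.trans (h2.trans ?_)
  rw [Real.sqrt_eq_rpow, Real.sqrt_eq_rpow]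
  have h5 : 0 ≤ ∫ x in D, g x ^ (2 : ℝ) := integral_nonneg_of_ae (by
    filter_upwards [ae_restrict_mem hD] with x hx
    exact Real.rpow_nonneg (hg0 x hx) _)
  have h6 : 0 ≤ ∫ x in D, w x ^ (2 : ℝ) := integral_nonneg fun x => Real.rpow_nonneg (norm_nonneg _) _
  have h7 : 0 ≤ G := h5.trans h4
  exact mul_le_mul (Real.rpow_le_rpow h5 h4 (by norm_num)) (Real.rpow_le_rpow h6 h3 (by norm_num))
    (Real.rpow_nonneg h6 _) (Real.rpow_nonneg h7 _)

private theorem eg9_exp {c : ℝ} (hc : 0 < c) {t : ℝ} (ht : 0 ≤ t) :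
    (t * Real.exp (-(c * t))) ^ 2 ≤ 2 / c ^ 2 * Real.exp (-(c * t)) := by
  have h1 := Real.quadratic_le_exp_of_nonneg (mul_nonneg hc.le ht)
  have h2 : Real.exp (c * t) * Real.exp (-(c * t)) = 1 := by
    rw [← Real.exp_add, add_neg_cancel, Real.exp_zero]
  have h3 : 0 < Real.exp (-(c * t)) := Real.exp_pos _
  have h4 : (c * t) ^ 2 ≤ 2 * Real.exp (c * t) := by nlinarith [mul_nonneg hc.le ht]
  have h5 : (c * t) ^ 2 * Real.exp (-(c * t)) ^ 2 ≤ 2 * Real.exp (-(c * t)) := by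
    calc (c * t) ^ 2 * Real.exp (-(c * t)) ^ 2 ≤ 2 * Real.exp (c * t) * Real.exp (-(c * t)) ^ 2 :=
          mul_le_mul_of_nonneg_right h4 (by positivity)
      _ = 2 * (Real.exp (c * t) * Real.exp (-(c * t))) * Real.exp (-(c * t)) := by ring
      _ = 2 * Real.exp (-(c * t)) := by rw [h2, mul_one]
  rw [div_mul_eq_mul_div, le_div_iff₀ (by positivity)]
  calc (t * Real.exp (-(c * t))) ^ 2 * c ^ 2 = (c * t) ^ 2 * Real.exp (-(c * t)) ^ 2 := by ring
    _ ≤ _ := h5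

/-- **Thin sources in the dual of `V`**: `∫_D |f| |v| ≤ C B √e ‖v‖` if `|f| ≤ B (e⁻¹ exp(-c z/e) + e)`; Hardy
inequality `Dom.hardy_V` and `Col.int_exp`: `∫_D (z/e)² exp(-2c z/e) ≤ C e`. -/
theorem thin_dual (hd : d = 2 ∨ d = 3) (h : Dom D z δ) {c : ℝ} (hc : 0 < c) : ∃ C : ℝ, 0 ≤ C ∧
    ∀ (f : En d → En d) (B e : ℝ), BD D f → 0 ≤ B → 0 < e → e ≤ 1 →
      (∀ x ∈ D, ‖f x‖ ≤ B * (e⁻¹ * Real.exp (-(c * (z x / e))) + e)) → ∀ v : VD D,
      |∫ x in D, ⟪f x, ((io D v : HD D) : L2E d) x⟫| ≤ C * B * √e * ‖v‖ := by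
  have hd0 : 0 < d := by omega
  obtain ⟨H, hH0, hH⟩ := h.hardy_V hd0
  obtain ⟨E, hE0, hE⟩ := h.col.int_exp
  obtain ⟨M, hM0, hM⟩ := h.col.bound h.smo.continuous
  have hD : MeasurableSet D := h.col.meas
  have : IsFiniteMeasure (volume.restrict D) := ⟨by
    rw [Measure.restrict_apply_univ]
    exact h.col.vol⟩
  set K : ℝ := 2 * (2 / c ^ 3 * E + M ^ 2 * volume.real D) with hK
  have hK0 : 0 ≤ K := by positivity
  refine ⟨√K * √H, by positivity, fun f B e _ hB he he1 hf v => ?_⟩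
  obtain ⟨hm, hHv⟩ := hH v
  set g : En d → ℝ := fun x => B * (z x / e * Real.exp (-(c * (z x / e))) + e * z x) with hg
  have hzc : Continuous z := h.smo.continuous
  have hgc : Continuous g := by
    rw [hg]
    fun_prop
  have h0 : ∀ x ∈ D, ‖f x‖ * z x ≤ g x := by
    intro x hx
    have hz : 0 < z x := (h.pos x).1 hx
    calc ‖f x‖ * z x ≤ B * (e⁻¹ * Real.exp (-(c * (z x / e))) + e) * z x :=
          mul_le_mul_of_nonneg_right (hf x hx) hz.le
      _ = g x := by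
          simp only [hg]
          ring
  have hG : ∫ x in D, g x ^ 2 ≤ B ^ 2 * e * K := by
    have h1 : ∀ x ∈ D, g x ^ 2 ≤ 2 * B ^ 2 * (2 / c ^ 2) * Real.exp (-(z x / (e / c))) +
        2 * B ^ 2 * e ^ 2 * M ^ 2 := by
      intro x hx
      have hz : 0 < z x := (h.pos x).1 hx
      have h2 := eg9_exp hc (div_pos hz he).le
      have h3 : z x ≤ M := (le_abs_self _).trans (by simpa using hM x (subset_closure hx))
      have h4 : z x / (e / c) = c * (z x / e) := by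
        field_simp
      rw [h4]
      have h5 : (e * z x) ^ 2 ≤ e ^ 2 * M ^ 2 := by
        rw [mul_pow]
        exact mul_le_mul_of_nonneg_left (pow_le_pow_left₀ hz.le h3 2) (by positivity)
      have h6 : (z x / e * Real.exp (-(c * (z x / e))) + e * z x) ^ 2 ≤
          2 * (z x / e * Real.exp (-(c * (z x / e)))) ^ 2 + 2 * (e * z x) ^ 2 := by
        nlinarith [sq_nonneg (z x / e * Real.exp (-(c * (z x / e))) - e * z x)]
      calc g x ^ 2 = B ^ 2 * (z x / e * Real.exp (-(c * (z x / e))) + e * z x) ^ 2 := by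
            simp only [hg]
            ring
        _ ≤ B ^ 2 * (2 * (z x / e * Real.exp (-(c * (z x / e)))) ^ 2 + 2 * (e * z x) ^ 2) :=
            mul_le_mul_of_nonneg_left h6 (by positivity)
        _ ≤ B ^ 2 * (2 * (2 / c ^ 2 * Real.exp (-(c * (z x / e)))) + 2 * (e ^ 2 * M ^ 2)) := by
            gcongr
        _ = _ := by ring
    have h2 : Continuous fun x => Real.exp (-(z x / (e / c))) := by fun_prop
    have h3 : Integrable (fun x => Real.exp (-(z x / (e / c)))) (volume.restrict D) := by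
      obtain ⟨M', _, hM'⟩ := h.col.bound h2
      refine Integrable.of_bound h2.aestronglyMeasurable M' ?_
      filter_upwards [ae_restrict_mem hD] with x hx
      exact hM' x (subset_closure hx)
    have h4 : Integrable (fun x => g x ^ 2) (volume.restrict D) := by
      obtain ⟨M', _, hM'⟩ := h.col.bound (hgc.pow 2)
      refine Integrable.of_bound (hgc.pow 2).aestronglyMeasurable M' ?_
      filter_upwards [ae_restrict_mem hD] with x hx
      exact hM' x (subset_closure hx)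
    have h5 := hE (e / c) (by positivity)
    have h6 : Integrable (fun x => 2 * B ^ 2 * (2 / c ^ 2) * Real.exp (-(z x / (e / c))) +
        2 * B ^ 2 * e ^ 2 * M ^ 2) (volume.restrict D) := (h3.const_mul _).add (integrable_const _)
    calc ∫ x in D, g x ^ 2 ≤ ∫ x in D, (2 * B ^ 2 * (2 / c ^ 2) * Real.exp (-(z x / (e / c))) +
          2 * B ^ 2 * e ^ 2 * M ^ 2) :=
          setIntegral_mono_on h4 h6 hD h1
      _ = 2 * B ^ 2 * (2 / c ^ 2) * (∫ x in D, Real.exp (-(z x / (e / c)))) +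
          2 * B ^ 2 * e ^ 2 * M ^ 2 * volume.real D := by
          rw [integral_add (h3.const_mul _) (integrable_const _), integral_const_mul, integral_const]
          simp [mul_comm]
      _ ≤ 2 * B ^ 2 * (2 / c ^ 2) * (E * (e / c)) + 2 * B ^ 2 * (e * 1) * M ^ 2 * volume.real D := by
          gcongr
          rw [sq]
          gcongr
      _ = B ^ 2 * e * K := by
          rw [hK]
          field_simp
  have h1 := eg9_core h v hm hHv hgc h0 hG
  refine h1.trans (le_of_eq ?_)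
  rw [Real.sqrt_mul (by positivity), Real.sqrt_mul (by positivity), Real.sqrt_sq hB,
    Real.sqrt_mul hH0.le, Real.sqrt_sq (norm_nonneg _)]
  ring

/-- bounded sources -/
theorem bdd_dual (hd : d = 2 ∨ d = 3) (h : Dom D z δ) : ∃ C : ℝ, 0 ≤ C ∧ ∀ (f : En d → En d) (A : ℝ), BD D f →
    0 ≤ A → (∀ x ∈ D, ‖f x‖ ≤ A) → ∀ v : VD D, |∫ x in D, ⟪f x, ((io D v : HD D) : L2E d) x⟫| ≤ C * A * ‖v‖ := by
  have hd0 : 0 < d := by omega
  obtain ⟨H, hH0, hH⟩ := h.hardy_V hd0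
  obtain ⟨M, hM0, hM⟩ := h.col.bound h.smo.continuous
  have hD : MeasurableSet D := h.col.meas
  have : IsFiniteMeasure (volume.restrict D) := ⟨by
    rw [Measure.restrict_apply_univ]
    exact h.col.vol⟩
  refine ⟨M * √(volume.real D) * √H, by positivity, fun f A _ hA hf v => ?_⟩
  obtain ⟨hm, hHv⟩ := hH v
  have h0 : ∀ x ∈ D, ‖f x‖ * z x ≤ (fun _ : En d => A * M) x := by
    intro x hx
    have hz : 0 < z x := (h.pos x).1 hx
    have h3 : z x ≤ M := (le_abs_self _).trans (by simpa using hM x (subset_closure hx))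
    exact mul_le_mul (hf x hx) h3 hz.le hA
  have hG : ∫ x in D, (fun _ : En d => A * M) x ^ 2 ≤ (A * M) ^ 2 * volume.real D := by
    rw [integral_const]
    simp [mul_comm]
  have h1 := eg9_core h v hm hHv continuous_const h0 hG
  refine h1.trans (le_of_eq ?_)
  rw [Real.sqrt_mul (by positivity), Real.sqrt_sq (by positivity), Real.sqrt_mul hH0.le,
    Real.sqrt_sq (norm_nonneg _)]
  ring

end Pool.Agent.Lib.MP_79abb3_an.W
end

section

/-!
Theorem W (MP_79abb3_an), block EG (the reference fields of one move): the equation of the reference field.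
-/

set_option autoImplicit false
set_option linter.unusedSectionVars false

open MeasureTheory Set Filter Topology Function
open scoped ENNReal RealInnerProductSpace

namespace Pool.Agent.Lib.MP_79abb3_an.W

variable {d : ℕ} {X : Fld d} {D : Set (En d)} {z : En d → ℝ} {δ : ℝ}

private theorem eg10_alg {E : Type} [AddCommGroup E] [Module ℝ E] {b : ℝ} {ut St slt Lu LS Lsl rN gp : E}
    {PP PS PR Psl SP SS SR Ssl RP RS RR Rsl lP lS lR ll : E}
    (hE : ut - Lu + (PP + PS + PR + (SP + SS + SR) + (RP + RS + RR)) -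
      (St - LS + SP + PS + SS) = rN + gp) :
    b • ut + slt + b • ((PP + PS + PR + (SP + SS + SR) + (RP + RS + RR)) + (Psl + Ssl + Rsl) + (lP + lS + lR) + ll -
        (Lu + Lsl)) =
      b • ((ll + Ssl + (lS + SS)) - (Lsl + LS) + (Rsl + lR) + rN) + (slt + b • St) +
        b • ((lP + SP) + (Psl + PS)) + b • gp := by
  have h1 : ut = rN + gp + Lu - (PP + PS + PR + (SP + SS + SR) + (RP + RS + RR)) + (St - LS + SP + PS + SS) := by
    rw [← hE]
    abel
  rw [h1]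
  module

/-- **The equation of the reference field** off `B`. `u = uu + sl`, `uu = uP + uS + RR`; `eN` at the time `b t`, multiplied by
`b`; `(S·∇)P + (P·∇)S = lieF P S` off `B` by symmetry (`sym_U`). -/
theorem Fld.OK.eqn (h : X.OK D) {q e : ℝ} (hq : 1 ≤ q) (he : e = √X.b / q ^ 12) (t : ℝ) :
    ∃ p : En d → ℝ, ContDiffOn ℝ ((⊤ : ℕ∞) : WithTop ℕ∞) p (D \ X.B) ∧ ∀ x ∈ D \ X.B,
      dtm (X.u e) t x + X.b • (fderiv ℝ (X.u e t) x (X.u e t x) - lap (X.u e t) x) =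
        X.b • X.r e t x + dtm (X.Sa e) t x + (q ^ 12 * X.a t) • lieF ((X.Wv e).U (q ^ 24 * t)) (X.Sa e t) x +
          gd p x := by
  have hD : IsOpen D := h.stg.dom.isOpen
  have hb : 0 < X.b := h.b0
  have hq0 : 0 < q := lt_of_lt_of_le one_pos hq
  have hsb : 0 < √X.b := Real.sqrt_pos.2 hb
  have he0 : 0 < e := by rw [he]; positivity
  have he1 : e ≤ 1 := by
    rw [he, div_le_one (by positivity)]
    exact (Real.sqrt_le_one.2 h.b1).trans (one_le_pow₀ hq)
  have heI : e ∈ Ioc (0:ℝ) 1 := ⟨he0, he1⟩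
  have hO : IsOpen (D \ X.B) := hD.sdiff h.stg.clo
  refine ⟨fun x => X.b * X.πN e (X.b * t) x, contDiffOn_const.mul (h.sπ e heI (X.b * t)), fun x hx => ?_⟩
  have hxD : x ∈ D := hx.1
  -- the classes
  have su : Sep D (X.uu e) := FS.sep (h.lay.ffs e heI)
  have bu : BD D (X.uu e (X.b * t)) := su.bd hD (X.b * t)
  have bl : BD D (X.sl t) := h.sep_sl.bd hD t
  have bS : BD D (X.S0 e t) := (h.sep_S0 e).bd hD t
  have bR : BD D (X.RR e t) := (h.sep_RR heI).bd hD t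
  obtain ⟨P, hP⟩ : ∃ P : En d → En d, P = uPD X.P X.Q X.ψ X.ψ' X.ap e (X.b * t) := ⟨_, rfl⟩
  have hSS : uS X.ap X.C0 X.C1 e (X.b * t) = X.S0 e t := funext fun y => X.uS_eq hb e t y
  have huu : ∀ y, X.uu e (X.b * t) y = P y + X.S0 e t y + X.RR e t y := by
    intro y
    rw [hP, ← hSS]
    rfl
  have bP : BD D P := by
    refine ((bu.sub hD bS).sub hD bR).congr hD fun y _ => ?_
    show X.uu e (X.b * t) y - X.S0 e t y - X.RR e t y = P y
    rw [huu y]
    abel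
  obtain ⟨c, hc⟩ : ∃ c : ℝ, c = q ^ 12 * X.a t / X.b := ⟨_, rfl⟩
  obtain ⟨U, hU⟩ : ∃ U : En d → En d, U = (X.Wv e).U (q ^ 24 * t) := ⟨_, rfl⟩
  have hPU : P = c • U := by
    funext y
    rw [hP, hc, hU]
    exact X.uP_eq hb hq0 he t y
  have hPx : P x = c • U x := by rw [hPU]; rfl
  have hPd : fderiv ℝ P x = c • fderiv ℝ U x := by
    rw [hPU]
    rcases eq_or_ne c 0 with h0 | h0
    · rw [h0, zero_smul]
      have h1 : fderiv ℝ (0 : En d → En d) x = 0 := by simp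
      rw [h1]
      exact (zero_smul ℝ (fderiv ℝ U x)).symm
    · have h1 : DifferentiableAt ℝ U x := by
        have h2 : U = c⁻¹ • P := by rw [hPU, smul_smul, inv_mul_cancel₀ h0, one_smul]
        rw [h2]
        exact (bP.differentiableAt hD hxD).const_smul c⁻¹
      exact fderiv_const_smul h1 c
  have hcb : q ^ 12 * X.a t = X.b * c := by rw [hc]; field_simp
  -- derivatives with respect to time
  have t1 : dtm (X.u e) t x = X.b • deriv (fun s => X.uu e s x) (X.b * t) + dtm X.sl t x := by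
    have h1 : HasDerivAt (fun s => X.uu e s x) (deriv (fun s => X.uu e s x) (X.b * t)) (X.b * t) :=
      su.hasDerivAt (X.b * t) hxD
    have h2 : HasDerivAt (fun s : ℝ => X.b * s) X.b t := by
      simpa using (hasDerivAt_id t).const_mul X.b
    have h3 := (h1.scomp t h2).add (h.sep_sl.hasDerivAt t hxD)
    exact h3.deriv
  have t2 : dtm (X.S0 e) t x = X.b • deriv (fun s => uS X.ap X.C0 X.C1 e s x) (X.b * t) := by
    have h1 : HasDerivAt (fun s => X.S0 e s x) (dtm (X.S0 e) t x) t := (h.sep_S0 e).hasDerivAt t hxD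
    have h1' : HasDerivAt (fun s => X.S0 e s x) (dtm (X.S0 e) t x) ((X.b * t) / X.b) := by
      rw [mul_div_cancel_left₀ t hb.ne']
      exact h1
    have h2 : HasDerivAt (fun s : ℝ => s / X.b) (1 / X.b) (X.b * t) := (hasDerivAt_id _).div_const X.b
    have h3 := h1'.scomp (X.b * t) h2
    have h4 : ((fun s => X.S0 e s x) ∘ fun s : ℝ => s / X.b) = fun s => uS X.ap X.C0 X.C1 e s x := by
      funext s
      show X.S0 e (s / X.b) x = _
      rw [← X.uS_eq hb e (s / X.b) x, mul_div_cancel₀ s hb.ne']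
    rw [h4] at h3
    rw [h3.deriv, smul_smul, mul_one_div_cancel hb.ne', one_smul]
  have t3 : dtm (X.Sa e) t x = dtm X.sl t x + dtm (X.S0 e) t x :=
    Sep.dtm_add h.sep_sl (h.sep_S0 e) t hxD
  -- derivatives in space
  have du := (bu.differentiableAt hD hxD).hasFDerivAt
  have dl := (bl.differentiableAt hD hxD).hasFDerivAt
  have dS := (bS.differentiableAt hD hxD).hasFDerivAt
  have dR := (bR.differentiableAt hD hxD).hasFDerivAt
  have dP := (bP.differentiableAt hD hxD).hasFDerivAt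
  have f1 : fderiv ℝ (X.u e t) x = fderiv ℝ (X.uu e (X.b * t)) x + fderiv ℝ (X.sl t) x := (du.add dl).fderiv
  have f2 : fderiv ℝ (X.uu e (X.b * t)) x = fderiv ℝ P x + fderiv ℝ (X.S0 e t) x + fderiv ℝ (X.RR e t) x := by
    have h1 : X.uu e (X.b * t) = fun y => P y + X.S0 e t y + X.RR e t y := funext huu
    rw [h1]
    exact ((dP.add dS).add dR).fderiv
  have f3 : fderiv ℝ (X.Sa e t) x = fderiv ℝ (X.sl t) x + fderiv ℝ (X.S0 e t) x := (dl.add dS).fderiv
  have l1 : lap (X.u e t) x = lap (X.uu e (X.b * t)) x + lap (X.sl t) x := lap_add_on hD bu.1 bl.1 hxD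
  have l3 : lap (X.Sa e t) x = lap (X.sl t) x + lap (X.S0 e t) x := lap_add_on hD bl.1 bS.1 hxD
  have v1 : X.u e t x = P x + X.S0 e t x + X.RR e t x + X.sl t x := by
    show X.uu e (X.b * t) x + X.sl t x = _
    rw [huu x]
  have v3 : X.Sa e t x = X.sl t x + X.S0 e t x := rfl
  have gπ : gd (fun x => X.b * X.πN e (X.b * t) x) x = X.b • gd (X.πN e (X.b * t)) x :=
    gd_smul_at X.b (((h.sπ e heI (X.b * t)).contDiffAt (hO.mem_nhds hx)).differentiableAt (by norm_num))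
  -- the Lie derivative
  have hL : (q ^ 12 * X.a t) • lieF U (X.Sa e t) x =
      X.b • (fderiv ℝ (X.Sa e t) x (P x) + fderiv ℝ P x (X.Sa e t x)) := by
    have hsym : ∀ v w, ⟪fderiv ℝ U x v, w⟫ = ⟪fderiv ℝ U x w, v⟫ := by
      rw [hU]
      exact h.sym_U e (q ^ 24 * t) x hx
    have h1 : ContinuousLinearMap.adjoint (fderiv ℝ U x) (X.Sa e t x) = fderiv ℝ U x (X.Sa e t x) := by
      refine ext_inner_right ℝ fun w => ?_
      rw [ContinuousLinearMap.adjoint_inner_left, hsym (X.Sa e t x) w, real_inner_comm]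
    unfold lieF
    rw [h1, hcb, hPx, hPd, map_smul, _root_.smul_apply]
    module
  -- the equation of the layers
  have hE := h.eN e heI (X.b * t) x hx
  unfold Res Hop Trn at hE
  rw [hSS, ← hP, f2, huu x] at hE
  rw [← hU, hL, t1, t3, t2, gπ, f1, f2, l1, v1]
  have hr : X.r e t x = fderiv ℝ (X.Sa e t) x (X.Sa e t x) - lap (X.Sa e t) x + (fderiv ℝ (X.RR e t) x (X.sl t x) +
      fderiv ℝ (X.sl t) x (X.RR e t x)) + X.rN e (X.b * t) x := rfl
  rw [hr, f3, l3, v3]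
  simp only [map_add, _root_.add_apply] at hE ⊢
  have key := eg10_alg (b := X.b) (ut := deriv (fun s => X.uu e s x) (X.b * t))
    (St := deriv (fun s => uS X.ap X.C0 X.C1 e s x) (X.b * t)) (slt := dtm X.sl t x)
    (Lu := lap (X.uu e (X.b * t)) x) (LS := lap (X.S0 e t) x) (Lsl := lap (X.sl t) x)
    (rN := X.rN e (X.b * t) x) (gp := gd (X.πN e (X.b * t)) x)
    (PP := fderiv ℝ P x (P x)) (PS := fderiv ℝ P x (X.S0 e t x)) (PR := fderiv ℝ P x (X.RR e t x))
    (Psl := fderiv ℝ P x (X.sl t x))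
    (SP := fderiv ℝ (X.S0 e t) x (P x)) (SS := fderiv ℝ (X.S0 e t) x (X.S0 e t x))
    (SR := fderiv ℝ (X.S0 e t) x (X.RR e t x)) (Ssl := fderiv ℝ (X.S0 e t) x (X.sl t x))
    (RP := fderiv ℝ (X.RR e t) x (P x)) (RS := fderiv ℝ (X.RR e t) x (X.S0 e t x))
    (RR := fderiv ℝ (X.RR e t) x (X.RR e t x)) (Rsl := fderiv ℝ (X.RR e t) x (X.sl t x))
    (lP := fderiv ℝ (X.sl t) x (P x)) (lS := fderiv ℝ (X.sl t) x (X.S0 e t x))
    (lR := fderiv ℝ (X.sl t) x (X.RR e t x)) (ll := fderiv ℝ (X.sl t) x (X.sl t x))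
    (by
      rw [← hE]
      abel)
  refine Eq.trans ?_ (key.trans ?_)
  · congr 2
    abel
  · abel

end Pool.Agent.Lib.MP_79abb3_an.W
end

section

/-!
Theorem W (MP_79abb3_an), block EG (the reference fields of one move): uniform bounds.
-/

set_option autoImplicit false
set_option linter.unusedSectionVars false

open MeasureTheory Set Filter Topology Function
open scoped ENNReal RealInnerProductSpace

namespace Pool.Agent.Lib.MP_79abb3_an.W

variable {d : ℕ} {X : Fld d} {D : Set (En d)} {z : En d → ℝ} {δ : ℝ}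

section
variable {F : Type} [NormedAddCommGroup F] [NormedSpace ℝ F]

/-- a finite family, uniform bounds of order `k` -/
private theorem eg6_fam {n : ℕ} (k : ℕ) {P : Fin n → En d → F} (hP : ∀ j, BD D (P j)) :
    ∃ M : ℝ, 0 ≤ M ∧ ∀ j, Bk D k M (P j) := by
  choose A hA0 hA using fun j => (hP j).exists_Bk k
  refine ⟨∑ j, A j, Finset.sum_nonneg fun j _ => hA0 j, fun j => (hA j).mono le_rfl ?_⟩
  exact Finset.single_le_sum (f := A) (fun i _ => hA0 i) (Finset.mem_univ j)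

/-- `P j + e • G j`, uniformly in `e` -/
private theorem eg6_wave (hD : IsOpen D) {n : ℕ} {P G : Fin n → En d → F} (hP : ∀ j, BD D (P j)) (hG : ∀ j, BD D (G j)) :
    ∃ M : ℝ, 0 ≤ M ∧ ∀ e ∈ Ioc (0:ℝ) 1, ∀ j, Bk D 4 M fun x => P j x + e • G j x := by
  obtain ⟨A, hA0, hA⟩ := eg6_fam 4 hP
  obtain ⟨B, hB0, hB⟩ := eg6_fam 4 hG
  refine ⟨A + B, add_nonneg hA0 hB0, fun e he j => ?_⟩
  refine ((hA j).add hD (hP j).1 ((hG j).1.const_smul e) ((hB j).const_smul hD e (hG j).1)).mono le_rfl ?_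
  rw [abs_of_pos he.1]
  have h1 : e * B ≤ 1 * B := mul_le_mul_of_nonneg_right he.2 hB0
  linarith

end

/-- **Uniform bounds** of all fields (uniform in the thickness `e`). `fN = - χ₁ a² lieF (Vb - V₀) (F + S0)`; all fields are
polynomials in `e` with coefficients in `BD` (`Sep.exists_Bk`). -/
theorem Fld.OK.unif (h : X.OK D) : ∃ M : ℝ, 1 ≤ M ∧ (X.n : ℝ) ≤ M ∧ X.Ka ≤ M ∧ ∀ e ∈ Ioc (0:ℝ) 1,
    (∀ j, Bk D 4 M ((X.Wv e).p j)) ∧ (∀ j, Bk D 4 M ((X.Wv e).r j)) ∧ ∀ t ∈ Icc (0:ℝ) 1,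
      Bk D 3 M (X.Sa e t) ∧ Bk D 1 M (dtm (X.Sa e) t) ∧ ∀ x ∈ D, ‖X.fN e t x‖ ≤ M := by
  have hD : IsOpen D := h.stg.dom.isOpen
  obtain ⟨M₁, h10, h1⟩ := eg6_wave hD (fun j => (h.wP j).bd) (fun j => (h.hψ j).1.gd hD)
  obtain ⟨M₂, h20, h2⟩ := eg6_wave hD (fun j => (h.wQ j).bd) (fun j => (h.hψ' j).1.gd hD)
  obtain ⟨C₃, h30, h3⟩ := h.sep_sl.exists_Bk hD 3
  obtain ⟨C₄, h40, h4⟩ := h.S0_le3
  obtain ⟨C₅, h50, h5⟩ := h.sep_sl.dtm.exists_Bk hD 1
  obtain ⟨C₆, h60, h6⟩ := h.Vb_bdd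
  have hKa : 0 ≤ X.Ka := (abs_nonneg _).trans (h.a' 0)
  have hK : 0 ≤ X.K := h.K1
  have hn : (0:ℝ) ≤ X.n := Nat.cast_nonneg _
  set L : ℝ := (C₆ + X.Kv) * (X.K + C₄) + (C₆ + X.Kv) * (X.K + C₄) with hL
  have hL0 : 0 ≤ L := by
    have h7 : 0 ≤ (C₆ + X.Kv) * (X.K + C₄) := mul_nonneg (add_nonneg h60 h.Kv0) (add_nonneg hK h40)
    exact add_nonneg h7 h7
  refine ⟨1 + X.n + X.Ka + M₁ + M₂ + (C₃ + C₄) + (C₅ + C₄) + L, by linarith, by linarith, by linarith,
    fun e he => ⟨fun j => (h1 e he j).mono le_rfl (by linarith), fun j => (h2 e he j).mono le_rfl (by linarith),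
      fun t ht => ⟨?_, ?_, fun x hx => ?_⟩⟩⟩
  · exact ((h3 t ht).add hD (h.sep_sl.bd hD t).1 ((h.sep_S0 e).bd hD t).1 (h4 e he t).1).mono le_rfl (by linarith)
  · have h8 := (h5 t ht).add hD (h.sep_sl.dtm.bd hD t).1 ((h.sep_S0 e).dtm.bd hD t).1
      ((h4 e he t).2.mono (by norm_num : 1 ≤ 3) le_rfl)
    refine (h8.congr hD fun x hx => ?_).mono le_rfl (by linarith)
    exact (Sep.dtm_add h.sep_sl (h.sep_S0 e) t hx).symm
  · -- the force
    have hV : Bk D 1 (C₆ + X.Kv) fun y => (X.Wv e).Vb y - X.V₀ y := by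
      have h9 := ((h6 e he).mono (by norm_num : 1 ≤ 2) le_rfl).add hD (h.bd_Vb e).1 (h.V₀b.neg hD).1
        (h.V₀k.const_smul hD (-1) h.V₀b.1 |>.congr hD fun x _ => by simp)
      refine (h9.congr hD fun x _ => by simp [sub_eq_add_neg]).mono le_rfl ?_
      simp
    have hF : Bk D 1 (X.K + C₄) fun y => X.F t y + X.S0 e t y :=
      ((h.bF t).mono (by norm_num : 1 ≤ 2) le_rfl).add hD (h.sF.bd hD t).1 ((h.sep_S0 e).bd hD t).1
        ((h4 e he t).1.mono (by norm_num : 1 ≤ 3) le_rfl)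
    have hl : ‖lieF (fun y => (X.Wv e).Vb y - X.V₀ y) (fun y => X.F t y + X.S0 e t y) x‖ ≤ L := by
      unfold lieF
      refine (norm_add_le _ _).trans (add_le_add ?_ ?_)
      · refine ((fderiv ℝ (fun y => X.F t y + X.S0 e t y) x).le_opNorm _).trans ?_
        rw [mul_comm (C₆ + X.Kv)]
        exact mul_le_mul (hF.le1 hx) (hV.le0 hx) (norm_nonneg _) (add_nonneg hK h40)
      · refine ((ContinuousLinearMap.adjoint (fderiv ℝ (fun y => (X.Wv e).Vb y - X.V₀ y) x)).le_opNorm _).trans ?_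
        rw [LinearIsometryEquiv.norm_map]
        exact mul_le_mul (hV.le1 hx) (hF.le0 hx) (norm_nonneg _) (add_nonneg h60 h.Kv0)
    have hfac : |X.χ₁ x * X.a t ^ 2| ≤ 1 := by
      have c1 := (h.χ01 x).1
      have c2 := (h.χ01 x).2
      have c3 := h.a0 t
      have c4 := h.a1 t
      have c5 : X.a t ^ 2 ≤ 1 := by nlinarith
      rw [abs_of_nonneg (mul_nonneg c1 (sq_nonneg _))]
      exact mul_le_one₀ c2 (sq_nonneg _) c5
    have hres : ‖X.fN e t x‖ ≤ L := by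
      unfold Fld.fN
      rw [norm_neg, norm_smul, Real.norm_eq_abs]
      calc |X.χ₁ x * X.a t ^ 2| * ‖lieF (fun y => (X.Wv e).Vb y - X.V₀ y) (fun y => X.F t y + X.S0 e t y) x‖
          ≤ 1 * L := mul_le_mul hfac hl (norm_nonneg _) zero_le_one
        _ = L := one_mul _
    linarith

end Pool.Agent.Lib.MP_79abb3_an.W
end

section

/-!
Theorem W (MP_79abb3_an), block EG (the reference fields of one move): the thin field is small.
-/

set_option autoImplicit false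
set_option linter.unusedSectionVars false

open MeasureTheory Set Filter Topology Function
open scoped ENNReal RealInnerProductSpace

namespace Pool.Agent.Lib.MP_79abb3_an.W

variable {d : ℕ} {X : Fld d} {D : Set (En d)} {z : En d → ℝ} {δ : ℝ}

/-- **The thin field.** `lay.small` and the corrector. -/
theorem Fld.OK.Rt_small (h : X.OK D) {κ₀ : ℝ} (hκ : 0 < κ₀) (h1 : X.K₀ * √X.κ * (√X.b)⁻¹ ≤ κ₀ / 4)
    (h2 : ∀ t ∈ Icc (0:ℝ) 1, ∀ x ∈ D, X.z x * ‖X.co t x‖ ≤ κ₀ / 4)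
    (h3 : ∀ t ∈ Icc (0:ℝ) 1, ∀ x ∈ D, X.z x ^ 2 * ‖fderiv ℝ (X.co t) x‖ ≤ κ₀ / 4) :
    ∃ e₀ ∈ Ioc (0:ℝ) 1, ∀ e ∈ Ioc (0:ℝ) e₀, ∀ t ∈ Icc (0:ℝ) 1, ∀ x ∈ D,
      X.z x * ‖X.Rt e t x‖ ≤ κ₀ ∧ X.z x ^ 2 * ‖fderiv ℝ (X.Rt e t) x‖ ≤ κ₀ := by
  obtain ⟨C, hC⟩ := h.lay.small
  have hD : IsOpen D := h.stg.dom.isOpen
  have hC1 : 0 < |C| + 1 := by positivity
  refine ⟨min 1 (κ₀ / 4 / (|C| + 1)), ⟨lt_min one_pos (by positivity), min_le_left _ _⟩, ?_⟩
  intro e he t ht x hx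
  have he1 : e ∈ Ioc (0:ℝ) 1 := ⟨he.1, he.2.trans (min_le_left _ _)⟩
  have he2 : C * e ≤ κ₀ / 4 := by
    have h4 : e ≤ κ₀ / 4 / (|C| + 1) := he.2.trans (min_le_right _ _)
    rw [le_div_iff₀ hC1] at h4
    nlinarith [le_abs_self C, he.1]
  have hz : 0 ≤ X.z x := (h.stg.dom.zpos hx).le
  have h5 := hC e he1 (X.b * t) x hx
  have h6 : 0 ≤ X.z x * ‖X.RL e (X.b * t) x + X.RB e (X.b * t) x‖ := mul_nonneg hz (norm_nonneg _)
  have h7 : 0 ≤ X.z x ^ 2 * ‖fderiv ℝ (fun y => X.RL e (X.b * t) y + X.RB e (X.b * t) y) x‖ :=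
    mul_nonneg (sq_nonneg _) (norm_nonneg _)
  have h8 : X.z x * ‖X.RR e t x‖ ≤ κ₀ / 2 := by
    show X.z x * ‖X.RL e (X.b * t) x + X.RB e (X.b * t) x‖ ≤ κ₀ / 2
    linarith
  have h9 : X.z x ^ 2 * ‖fderiv ℝ (X.RR e t) x‖ ≤ κ₀ / 2 := by
    show X.z x ^ 2 * ‖fderiv ℝ (fun y => X.RL e (X.b * t) y + X.RB e (X.b * t) y) x‖ ≤ κ₀ / 2
    linarith
  have h10 := h2 t ht x hx
  have h11 := h3 t ht x hx
  constructor
  · have h12 : ‖X.Rt e t x‖ ≤ ‖X.RR e t x‖ + ‖X.co t x‖ := norm_sub_le _ _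
    have h13 := mul_le_mul_of_nonneg_left h12 hz
    rw [mul_add] at h13
    linarith
  · have h12 : fderiv ℝ (X.Rt e t) x = fderiv ℝ (X.RR e t) x - fderiv ℝ (X.co t) x :=
      fderiv_fun_sub ((Sep.bd hD (h.sep_RR he1) t).diff hD hx) ((Sep.bd hD h.sep_co.1 t).diff hD hx)
    rw [h12]
    have h13 := mul_le_mul_of_nonneg_left (norm_sub_le (fderiv ℝ (X.RR e t) x) (fderiv ℝ (X.co t) x))
      (sq_nonneg (X.z x))
    rw [mul_add] at h13
    linarith

end Pool.Agent.Lib.MP_79abb3_an.W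
end
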