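import Pool.Agent.Lib.MP_79abb3_an.W.ED2
import Pool.Agent.Lib.MP_79abb3_an.W.EE0
import Pool.Agent.Lib.MP_79abb3_an.W.A3le
import Pool.Agent.Lib.MP_79abb3_an.W.EMDef
import Pool.Agent.Lib.MP_79abb3_an.W.BX2
import Pool.Agent.Lib.MP_79abb3_an.W.DEb
import Pool.Agent.Lib.MP_79abb3_an.W.DEg
import Pool.Agent.Lib.MP_79abb3_an.W.DEh
import Pool.Agent.Lib.MP_79abb3_an.W.DEf
import Pool.Agent.Lib.MP_79abb3_an.W.DEja
import Pool.Agent.Lib.MP_79abb3_an.W.A3hd

section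

/-!
Theorem W, block E: sum over the periods.
-/

set_option autoImplicit false

open MeasureTheory Set Filter Topology Function
open scoped InnerProductSpace

namespace Pool.Agent.Lib.MP_79abb3_an.W

section
variable {H V : Type} [NormedAddCommGroup H] [InnerProductSpace ℝ H] [NormedAddCommGroup V]
  [InnerProductSpace ℝ V]

namespace EData

private theorem x_le {E : EData H V} {K₀ K CV δ γ : ℝ} (hE : E.OK K₀ K CV δ γ) {e : ℝ → V} {τ : ℝ}
    (hb : E.Bd e K₀ τ) {t : ℝ} (ht : t ∈ Icc (0:ℝ) τ) : ‖E.ι (e t)‖ ≤ K₀ := by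
  have h1 := hb t ht
  have h2 : 0 ≤ E.b / 2 * ∫ r in (0:ℝ)..t, ‖e r‖ ^ 2 :=
    mul_nonneg (by linarith [hE.b0]) (intervalIntegral.integral_nonneg ht.1 fun x _ => by positivity)
  exact abs_le_of_sq_le_sq' (by linarith) (by linarith [hE.K₀1]) |>.2

private theorem ii {f : ℝ → ℝ} (hf : ContinuousOn f (Icc 0 1)) {a c : ℝ} (ha : 0 ≤ a) (hac : a ≤ c)
    (hc : c ≤ 1) : IntervalIntegrable f volume a c := by
  apply ContinuousOn.intervalIntegrable
  rw [uIcc_of_le hac]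
  exact hf.mono (Icc_subset_Icc ha hc)

private theorem add_ii {f : ℝ → ℝ} (hf : ContinuousOn f (Icc 0 1)) {a c : ℝ} (ha : 0 ≤ a) (hac : a ≤ c)
    (hc : c ≤ 1) : ∫ r in (0:ℝ)..c, f r = (∫ r in (0:ℝ)..a, f r) + ∫ r in a..c, f r :=
  (intervalIntegral.integral_add_adjacent_intervals (ii hf le_rfl ha (hac.trans hc))
    (ii hf ha hac hc)).symm

/-- the sum over the full periods -/
private theorem sum_aux {F u v w : ℝ → ℝ} (hF : ContinuousOn F (Icc 0 1)) (hu : ContinuousOn u (Icc 0 1))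
    (hv : ContinuousOn v (Icc 0 1)) (hw : ContinuousOn w (Icc 0 1)) {ℓ A B c d τ : ℝ} (hℓ : 0 < ℓ)
    (hτ : τ ≤ 1) (h0 : ℓ ≤ τ → -∫ r in (0:ℝ)..ℓ, F r ≤ A)
    (hA : 0 ≤ c) (hd : 0 ≤ d) (hB : 0 ≤ B) (hu0 : ∀ t, 0 ≤ u t) (hv0 : ∀ t, 0 ≤ v t)
    (hw0 : ∀ t, 0 ≤ w t)
    (hk : ∀ k : ℕ, 1 ≤ k → k * ℓ + ℓ ≤ τ → -∫ r in (k * ℓ)..(k * ℓ + ℓ), F r ≤
      c * (∫ r in (k * ℓ)..(k * ℓ + ℓ), u r) + d * (∫ r in (k * ℓ)..(k * ℓ + ℓ), v r) +
        B * ((∫ r in (k * ℓ - ℓ)..(k * ℓ + ℓ), w r) + ℓ)) (n : ℕ) (hn : ((n + 1 : ℕ) : ℝ) * ℓ ≤ τ) :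
    -∫ r in (0:ℝ)..((n + 1 : ℕ) * ℓ), F r ≤ A + c * (∫ r in (0:ℝ)..((n + 1 : ℕ) * ℓ), u r) +
      d * (∫ r in (0:ℝ)..((n + 1 : ℕ) * ℓ), v r) +
      B * ((∫ r in (0:ℝ)..((n + 1 : ℕ) * ℓ), w r) + (∫ r in (0:ℝ)..(n * ℓ), w r) +
        (n + 1 : ℕ) * ℓ) := by
  induction n with
  | zero =>
    have hn' : ℓ ≤ τ := by simpa using hn
    have h1 := h0 hn'
    have e1 : (((0:ℕ) + 1 : ℕ) : ℝ) * ℓ = ℓ := by push_cast; ring
    have e2 : ((0:ℕ) : ℝ) * ℓ = 0 := by push_cast; ring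
    rw [e1, e2, intervalIntegral.integral_same]
    have h2 : 0 ≤ ∫ r in (0:ℝ)..ℓ, u r := intervalIntegral.integral_nonneg hℓ.le fun x _ => hu0 x
    have h3 : 0 ≤ ∫ r in (0:ℝ)..ℓ, v r := intervalIntegral.integral_nonneg hℓ.le fun x _ => hv0 x
    have h4 : 0 ≤ ∫ r in (0:ℝ)..ℓ, w r := intervalIntegral.integral_nonneg hℓ.le fun x _ => hw0 x
    have h5 := mul_nonneg hA h2
    have h6 := mul_nonneg hd h3
    have h7 : 0 ≤ B * ((∫ r in (0:ℝ)..ℓ, w r) + 0 + ℓ) := mul_nonneg hB (by linarith)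
    linarith
  | succ n ih =>
    have e1 : ((n + 1 + 1 : ℕ) : ℝ) * ℓ = ((n + 1 : ℕ) : ℝ) * ℓ + ℓ := by push_cast; ring
    rw [e1] at hn ⊢
    have h1 := ih (by linarith)
    have h2 := hk (n + 1) (by omega) hn
    have e2 : ((n + 1 : ℕ) : ℝ) * ℓ - ℓ = n * ℓ := by push_cast; ring
    rw [e2] at h2
    have hp : 0 ≤ ((n + 1 : ℕ) : ℝ) * ℓ := by positivity
    have hp' : 0 ≤ (n : ℝ) * ℓ := by positivity
    have hle : (n : ℝ) * ℓ ≤ ((n + 1 : ℕ) : ℝ) * ℓ := by push_cast; nlinarith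
    have hle1 : ((n + 1 : ℕ) : ℝ) * ℓ + ℓ ≤ 1 := by linarith
    rw [add_ii hF hp (by linarith) hle1, add_ii hu hp (by linarith) hle1,
      add_ii hv hp (by linarith) hle1, add_ii hw hp' (by linarith) hle1]
    have h3 : B * (((∫ r in (0:ℝ)..((n + 1 : ℕ) * ℓ), w r) + (∫ r in (0:ℝ)..(n * ℓ), w r) +
        (n + 1 : ℕ) * ℓ)) + B * ((∫ r in (n * ℓ)..((n + 1 : ℕ) * ℓ + ℓ), w r) + ℓ) =
        B * ((∫ r in (0:ℝ)..(n * ℓ), w r) + (∫ r in (n * ℓ)..((n + 1 : ℕ) * ℓ + ℓ), w r) +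
        (∫ r in (0:ℝ)..((n + 1 : ℕ) * ℓ), w r) + ((n + 1 : ℕ) * ℓ + ℓ)) := by ring
    linarith

/-- **Sum over the periods.** Proof: `N = ⌊τ/ℓ⌋₊`; the periods `1 ≤ k ≤ N - 1` by `OK.period2`, the intervals
`[0, min ℓ τ]` and `[Nℓ, τ]` by `OK.fast_le`; `∑ α_k ≤ 2 ∫_0^τ ‖e‖² + 1 ≤ (4/b) K₀² + 1`. -/
theorem OK.fast_sum (K : ℝ) : ∃ C q₀, 0 ≤ C ∧ 1 ≤ q₀ ∧ ∀ (E : EData H V) (K₀ CV δ γ : ℝ),
    E.OK K₀ K CV δ γ → q₀ ≤ E.q → ∀ e : ℝ → V, E.Sol e → ∀ τ ∈ Icc (0:ℝ) 1, E.Bd e K₀ τ →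
      -∫ r in (0:ℝ)..τ, (E.fast e r + E.low e r) ≤
        2 * CV * (∫ r in (0:ℝ)..τ, ‖E.ι (e r)‖ ^ 2) + δ * K₀ + C / E.q := by
  obtain ⟨C, q₀, hC, hq₀, hper⟩ := OK.period2 (H := H) (V := V) K
  refine ⟨56 * |K| ^ 3 + 5 * C * |K| ^ 3, q₀, by positivity, hq₀, ?_⟩
  intro E K₀ CV δ γ hE hq e he τ hτ hb
  have hq0 : 0 < E.q := lt_of_lt_of_le one_pos hE.q1
  have hK : 1 ≤ K := hE.K1
  have hK₀ : 1 ≤ K₀ := hE.K₀1
  rw [abs_of_nonneg (by linarith : 0 ≤ K)]
  have hℓ : 0 < E.ℓ := hE.ℓ0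
  have hCV := hE.CV0
  have hδ := hE.δ0
  have cF : ContinuousOn (fun r => E.fast e r + E.low e r) (Icc 0 1) :=
    (Sol.cfast hE he).add (Sol.clow hE he)
  have cx : ContinuousOn (fun r => ‖E.ι (e r)‖) (Icc 0 1) :=
    (E.ι.continuous.comp_continuousOn he.ce).norm
  have cu : ContinuousOn (fun r => ‖E.ι (e r)‖ ^ 2) (Icc 0 1) := cx.pow 2
  have cw : ContinuousOn (fun r => ‖e r‖ ^ 2) (Icc 0 1) := he.ce.norm.pow 2
  have hCq : 0 ≤ C / E.q := by positivity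
  have hKq : 28 * K ^ 3 / E.q ^ 12 ≤ 28 * K ^ 3 / E.q := by
    apply div_le_div_of_nonneg_left (by positivity) hq0
    calc E.q = E.q ^ 1 := (pow_one _).symm
      _ ≤ E.q ^ 12 := pow_le_pow_right₀ hE.q1 (by norm_num)
  have hx0 : 0 ≤ ∫ r in (0:ℝ)..τ, ‖E.ι (e r)‖ ^ 2 :=
    intervalIntegral.integral_nonneg hτ.1 fun x _ => by positivity
  have hfin : (56 * K ^ 3 + 5 * C * K ^ 3) / E.q = 2 * (28 * K ^ 3 / E.q) + C / E.q * (5 * K ^ 3) := by
    ring
  have hnn : 0 ≤ C / E.q * (5 * K ^ 3) := by positivity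
  have hnn2 : 0 ≤ 28 * K ^ 3 / E.q := by positivity
  rw [hfin]
  have hCVx : 0 ≤ 2 * CV * (∫ r in (0:ℝ)..τ, ‖E.ι (e r)‖ ^ 2) := by positivity
  have hδK : 0 ≤ δ * K₀ := by positivity
  obtain ⟨N, hN⟩ : ∃ N : ℕ, N = ⌊τ / E.ℓ⌋₊ := ⟨_, rfl⟩
  have hN1 : (N : ℝ) * E.ℓ ≤ τ := by
    rw [hN]
    have := Nat.floor_le (div_nonneg hτ.1 hℓ.le)
    rwa [le_div_iff₀ hℓ] at this
  have hN2 : τ - N * E.ℓ ≤ E.ℓ := by
    have := Nat.lt_floor_add_one (τ / E.ℓ)
    rw [← hN, div_lt_iff₀ hℓ] at this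
    linarith
  have hN0 : 0 ≤ (N : ℝ) * E.ℓ := by positivity
  have hlast := hE.fast_le he hτ.2 hb hN0 hN1 le_rfl hN2
  have hlast' := (neg_le_abs _).trans hlast
  rw [add_ii cF hN0 hN1 hτ.2]
  rcases Nat.eq_zero_or_pos N with h | h
  · rw [h] at hlast' ⊢
    simp only [Nat.cast_zero, zero_mul, intervalIntegral.integral_same, zero_add] at hlast' ⊢
    linarith
  · obtain ⟨n, rfl⟩ : ∃ n, N = n + 1 := ⟨N - 1, by omega⟩
    have key := sum_aux (F := fun r => E.fast e r + E.low e r) (u := fun r => ‖E.ι (e r)‖ ^ 2)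
      (v := fun r => ‖E.ι (e r)‖) (w := fun r => ‖e r‖ ^ 2) (ℓ := E.ℓ) (A := 28 * K ^ 3 / E.q ^ 12)
      (B := C / E.q) (c := 2 * CV) (d := δ) (τ := τ) cF cu cx cw hℓ hτ.2 (by
        intro h
        exact (neg_le_abs _).trans (hE.fast_le he hτ.2 hb le_rfl hℓ.le h (by linarith)))
      (by linarith) hδ hCq (fun t => by positivity) (fun t => by positivity) (fun t => by positivity)
      (fun k hk hkτ => hper E K₀ CV δ γ hE hq e he τ hτ.2 hb k hk hkτ) n hN1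
    have h1 : ∫ r in (0:ℝ)..((n + 1 : ℕ) * E.ℓ), ‖E.ι (e r)‖ ^ 2 ≤ ∫ r in (0:ℝ)..τ, ‖E.ι (e r)‖ ^ 2 := by
      rw [add_ii cu hN0 hN1 hτ.2]
      have : 0 ≤ ∫ r in ((n + 1 : ℕ) * E.ℓ)..τ, ‖E.ι (e r)‖ ^ 2 :=
        intervalIntegral.integral_nonneg hN1 fun x _ => by positivity
      linarith
    have h2 : ∫ r in (0:ℝ)..((n + 1 : ℕ) * E.ℓ), ‖E.ι (e r)‖ ≤ K₀ := by
      have h3 : ∫ r in (0:ℝ)..((n + 1 : ℕ) * E.ℓ), ‖E.ι (e r)‖ ≤ ∫ r in (0:ℝ)..((n + 1 : ℕ) * E.ℓ), K₀ := by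
        apply intervalIntegral.integral_mono_on hN0 (ii cx le_rfl hN0 (hN1.trans hτ.2))
          (continuous_const.intervalIntegrable _ _)
        intro r hr
        exact x_le hE hb ⟨hr.1, hr.2.trans hN1⟩
      rw [intervalIntegral.integral_const, smul_eq_mul, sub_zero] at h3
      have : ((n + 1 : ℕ) : ℝ) * E.ℓ * K₀ ≤ 1 * K₀ :=
        mul_le_mul_of_nonneg_right (hN1.trans hτ.2) (by linarith)
      linarith
    have hIτ : ∫ r in (0:ℝ)..τ, ‖e r‖ ^ 2 ≤ 2 * K ^ 3 := by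
      have h3 := hb τ ⟨hτ.1, le_rfl⟩
      have h4 : E.b / 2 * (∫ r in (0:ℝ)..τ, ‖e r‖ ^ 2) ≤ K₀ ^ 2 := by
        have : 0 ≤ ‖E.ι (e τ)‖ ^ 2 := by positivity
        linarith
      have h5 : (∫ r in (0:ℝ)..τ, ‖e r‖ ^ 2) ≤ 2 * K₀ ^ 2 * (1 / E.b) := by
        rw [mul_one_div, le_div_iff₀ hE.b0]
        linarith
      refine h5.trans ?_
      have h6 : 0 ≤ 1 / E.b := by have := hE.b0; positivity
      calc 2 * K₀ ^ 2 * (1 / E.b) ≤ 2 * K ^ 2 * K := by
            have := hE.bK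
            have := hE.K₀K
            gcongr
        _ = 2 * K ^ 3 := by ring
    have hmono : ∀ s : ℝ, 0 ≤ s → s ≤ τ → ∫ r in (0:ℝ)..s, ‖e r‖ ^ 2 ≤ 2 * K ^ 3 := by
      intro s h1 h2
      refine le_trans ?_ hIτ
      rw [add_ii cw h1 h2 hτ.2]
      have : 0 ≤ ∫ r in s..τ, ‖e r‖ ^ 2 := intervalIntegral.integral_nonneg h2 fun x _ => by positivity
      linarith
    have h3 := hmono _ hN0 hN1
    have hn0 : 0 ≤ (n : ℝ) * E.ℓ := by positivity
    have hn1 : (n : ℝ) * E.ℓ ≤ τ := by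
      refine le_trans ?_ hN1
      push_cast
      nlinarith
    have h4 := hmono _ hn0 hn1
    have hK3 : 1 ≤ K ^ 3 := one_le_pow₀ hK
    have h5 : C / E.q * ((∫ r in (0:ℝ)..((n + 1 : ℕ) * E.ℓ), ‖e r‖ ^ 2) +
        (∫ r in (0:ℝ)..(n * E.ℓ), ‖e r‖ ^ 2) + (n + 1 : ℕ) * E.ℓ) ≤ C / E.q * (5 * K ^ 3) := by
      refine mul_le_mul_of_nonneg_left ?_ hCq
      linarith [hN1.trans hτ.2]
    have h6 := mul_le_mul_of_nonneg_left h2 hδ
    have h7 := mul_le_mul_of_nonneg_left h1 (by linarith : 0 ≤ 2 * CV)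
    linarith

end EData

end

end Pool.Agent.Lib.MP_79abb3_an.W
end

section

/-!
Theorem W, block E: the energy inequality.
-/

set_option autoImplicit false

open MeasureTheory Set Filter Topology Function
open scoped InnerProductSpace

namespace Pool.Agent.Lib.MP_79abb3_an.W

section
variable {H V : Type} [NormedAddCommGroup H] [InnerProductSpace ℝ H] [NormedAddCommGroup V]
  [InnerProductSpace ℝ V]

namespace EData

/-- **The energy inequality.** Proof: `Sol.energy` on `[0, τ]`, `OK.fast_sum`, `OK.slow_pt`. -/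
theorem OK.core (K : ℝ) : ∃ C q₀, 0 ≤ C ∧ 1 ≤ q₀ ∧ ∀ (E : EData H V) (K₀ CV δ γ : ℝ),
    E.OK K₀ K CV δ γ → q₀ ≤ E.q → ∀ e : ℝ → V, E.Sol e → ∀ τ ∈ Icc (0:ℝ) 1,
    E.Bd e K₀ τ → ‖E.ι (e τ)‖ ^ 2 + E.b * (∫ r in (0:ℝ)..τ, ‖e r‖ ^ 2) ≤
      ‖E.ι (e 0)‖ ^ 2 + 4 * CV * (∫ r in (0:ℝ)..τ, ‖E.ι (e r)‖ ^ 2) +
        (2 * δ * K₀ + 2 * K₀ ^ 3 * E.b + 2 * γ ^ 2 / E.b + C / E.q) := by
  obtain ⟨C, q₀, hC, hq₀, h⟩ := OK.fast_sum (H := H) (V := V) K
  refine ⟨2 * C, q₀, by positivity, hq₀, fun E K₀ CV δ γ hE hq e hs τ hτ hB => ?_⟩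
  have hfs := h E K₀ CV δ γ hE hq e hs τ hτ hB
  have hen := hs.energy 0 τ le_rfl hτ.1 hτ.2
  have hb := hE.b0
  have hK : 0 ≤ K₀ := zero_le_one.trans hE.K₀1
  have hsub : Icc 0 τ ⊆ Icc (0:ℝ) 1 := Icc_subset_Icc_right hτ.2
  have huI : uIcc 0 τ = Icc 0 τ := uIcc_of_le hτ.1
  -- continuity
  have c1 : ContinuousOn (fun r => E.R r (e r) (e r)) (uIcc 0 τ) := by
    rw [huI]; exact (hs.cR hE hs.ce).mono hsub
  have c2 : ContinuousOn (fun r => E.fast e r + E.low e r) (uIcc 0 τ) := by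
    rw [huI]; exact ((hs.cfast hE).add (hs.clow hE)).mono hsub
  have c3 : ContinuousOn (fun r => ‖e r‖ ^ 2) (uIcc 0 τ) := by
    rw [huI]; exact (hs.ce.norm.pow 2).mono hsub
  have c4 : ContinuousOn (fun r => -(E.R r (e r) (e r) - (E.fast e r + E.low e r))) (uIcc 0 τ) :=
    (c1.sub c2).neg
  have i1 : IntervalIntegrable (fun r => E.R r (e r) (e r)) volume 0 τ := c1.intervalIntegrable
  have i2 : IntervalIntegrable (fun r => E.fast e r + E.low e r) volume 0 τ := c2.intervalIntegrable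
  have i3 : IntervalIntegrable (fun r => ‖e r‖ ^ 2) volume 0 τ := c3.intervalIntegrable
  have i4 : IntervalIntegrable (fun r => -(E.R r (e r) (e r) - (E.fast e r + E.low e r))) volume 0 τ :=
    c4.intervalIntegrable
  have hsplit : -∫ r in (0:ℝ)..τ, E.R r (e r) (e r) =
      (-∫ r in (0:ℝ)..τ, (E.fast e r + E.low e r)) +
        ∫ r in (0:ℝ)..τ, -(E.R r (e r) (e r) - (E.fast e r + E.low e r)) := by
    rw [intervalIntegral.integral_neg, intervalIntegral.integral_sub i1 i2]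
    ring
  have hpt : ∀ r ∈ Icc (0:ℝ) τ, -(E.R r (e r) (e r) - (E.fast e r + E.low e r)) ≤
      -(E.b / 2 * ‖e r‖ ^ 2) + (K₀ ^ 3 * E.b + γ ^ 2 / E.b) := by
    intro r hr
    have hle : ‖E.ι (e r)‖ ≤ K₀ := by
      have h1 := hB r hr
      have h2 : 0 ≤ ∫ s in (0:ℝ)..r, ‖e s‖ ^ 2 :=
        intervalIntegral.integral_nonneg hr.1 fun s _ => by positivity
      have h3 : 0 ≤ E.b / 2 * ∫ s in (0:ℝ)..r, ‖e s‖ ^ 2 := by positivity
      exact le_of_sq_le_sq (by linarith) hK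
    have h4 := hE.slow_pt (hsub hr) hle
    have h5 : E.R r (e r) (e r) - (E.fast e r + E.low e r) =
        E.b * E.d r (e r) (e r) + E.b * E.c (e r) (e r) (e r) - E.g r (e r) := by
      unfold EData.R EData.fast EData.low
      ring
    rw [h5]
    linarith
  have hint : ∫ r in (0:ℝ)..τ, -(E.R r (e r) (e r) - (E.fast e r + E.low e r)) ≤
      ∫ r in (0:ℝ)..τ, (-(E.b / 2 * ‖e r‖ ^ 2) + (K₀ ^ 3 * E.b + γ ^ 2 / E.b)) :=
    intervalIntegral.integral_mono_on hτ.1 i4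
      (((i3.const_mul (E.b / 2)).neg).add (intervalIntegrable_const)) hpt
  have hint2 : ∫ r in (0:ℝ)..τ, (-(E.b / 2 * ‖e r‖ ^ 2) + (K₀ ^ 3 * E.b + γ ^ 2 / E.b)) =
      -(E.b / 2 * ∫ r in (0:ℝ)..τ, ‖e r‖ ^ 2) + τ * (K₀ ^ 3 * E.b + γ ^ 2 / E.b) := by
    have i5 : IntervalIntegrable (fun r => -(E.b / 2 * ‖e r‖ ^ 2)) volume 0 τ :=
      (i3.const_mul (E.b / 2)).neg
    rw [intervalIntegral.integral_add i5 intervalIntegrable_const,
      intervalIntegral.integral_neg, intervalIntegral.integral_const_mul,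
      intervalIntegral.integral_const]
    simp
  have hτ1 : τ * (K₀ ^ 3 * E.b + γ ^ 2 / E.b) ≤ 1 * (K₀ ^ 3 * E.b + γ ^ 2 / E.b) :=
    mul_le_mul_of_nonneg_right hτ.2 (by positivity)
  have hq0 : 0 < E.q := zero_lt_one.trans_le hE.q1
  have e1 : 2 * C / E.q = 2 * (C / E.q) := by ring
  have e2 : 2 * γ ^ 2 / E.b = 2 * (γ ^ 2 / E.b) := by ring
  rw [e1, e2]
  rw [hsplit] at hen
  linarith

end EData

end

end Pool.Agent.Lib.MP_79abb3_an.W
end

section

/-!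
Theorem W, block E: the energy estimate.
-/

set_option autoImplicit false

open MeasureTheory Set Filter Topology Function
open scoped InnerProductSpace

namespace Pool.Agent.Lib.MP_79abb3_an.W

section
variable {H V : Type} [NormedAddCommGroup H] [InnerProductSpace ℝ H] [NormedAddCommGroup V]
  [InnerProductSpace ℝ V]

/-- **Bootstrap.** Proof: the set of `c ∈ [a, b]` with `φ ≤ M` on `[a, c]` is closed, contains `a`, and is open
by `h` (see `SC/L2B.lean`, theorem `boot`, for the same statement with proof). -/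
theorem boot_half {a b M : ℝ} (hab : a ≤ b) (hM : 0 < M) {φ : ℝ → ℝ} (hc : ContinuousOn φ (Icc a b))
    (ha : φ a ≤ M / 2) (h : ∀ c ∈ Icc a b, (∀ t ∈ Icc a c, φ t ≤ M) → φ c ≤ M / 2) :
    ∀ t ∈ Icc a b, φ t ≤ M / 2 := by
  by_contra hcon
  push Not at hcon
  obtain ⟨t1, ht1, hφ1⟩ := hcon
  have hT : ({t | t ∈ Icc a b ∧ M / 2 < φ t} : Set ℝ).Nonempty := ⟨t1, ht1, hφ1⟩
  have hbd : BddBelow ({t | t ∈ Icc a b ∧ M / 2 < φ t} : Set ℝ) := ⟨a, fun t ht => ht.1.1⟩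
  obtain ⟨c, hcdef⟩ : ∃ c, c = sInf ({t | t ∈ Icc a b ∧ M / 2 < φ t} : Set ℝ) := ⟨_, rfl⟩
  have hca : a ≤ c := by
    rw [hcdef]
    exact le_csInf hT fun t ht => ht.1.1
  have hct1 : c ≤ t1 := by
    rw [hcdef]
    exact csInf_le hbd ⟨ht1, hφ1⟩
  have hcI : c ∈ Icc a b := ⟨hca, hct1.trans ht1.2⟩
  have hbelow : ∀ t ∈ Icc a b, t < c → φ t ≤ M / 2 := by
    intro t ht htc
    by_contra h
    push Not at h
    have : c ≤ t := by
      rw [hcdef]
      exact csInf_le hbd ⟨ht, h⟩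
    linarith
  have hφc : φ c ≤ M / 2 := by
    rcases eq_or_lt_of_le hca with h | h
    · rw [← h]; exact ha
    · have hcl : ContinuousWithinAt φ (Ioo a c) c :=
        (hc c hcI).mono fun x hx => ⟨hx.1.le, hx.2.le.trans hcI.2⟩
      have hne : (𝓝[Ioo a c] c).NeBot := by
        rw [← mem_closure_iff_nhdsWithin_neBot, closure_Ioo h.ne]
        exact ⟨h.le, le_rfl⟩
      refine le_of_tendsto hcl ?_
      filter_upwards [self_mem_nhdsWithin] with x hx
      exact hbelow x ⟨hx.1.le, hx.2.le.trans hcI.2⟩ hx.2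
  have hlt : φ c < M := by linarith
  have hev : ∀ᶠ x in 𝓝[Icc a b] c, φ x < M := (hc c hcI).eventually_lt_const hlt
  obtain ⟨d, hd, hd'⟩ := Metric.mem_nhdsWithin_iff.1 hev
  obtain ⟨t2, ht2, ht2'⟩ := exists_lt_of_csInf_lt hT
    (show sInf ({t | t ∈ Icc a b ∧ M / 2 < φ t} : Set ℝ) < c + d by rw [← hcdef]; linarith)
  have hct2 : c ≤ t2 := by
    rw [hcdef]
    exact csInf_le hbd ht2
  have hall : ∀ t ∈ Icc a t2, φ t ≤ M := by
    intro t ht
    have htI : t ∈ Icc a b := ⟨ht.1, ht.2.trans ht2.1.2⟩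
    rcases lt_or_ge t c with h | h
    · linarith [hbelow t htI h]
    · have h3 : t ∈ Metric.ball c d := by
        rw [Metric.mem_ball, Real.dist_eq, abs_of_nonneg (by linarith)]
        linarith [ht.2]
      exact (hd' ⟨h3, htI⟩).le
  have := h t2 ht2.1 hall
  linarith [ht2.2]

private theorem gron_aux {c M k : ℝ} (hc : 0 ≤ c) (hM : 0 ≤ M) (hk : 0 ≤ k) {u : ℝ → ℝ} (hu : Continuous u)
    (hu0 : ∀ t, 0 ≤ u t) (h : ∀ t ∈ Icc 0 c, u t ≤ M + k * ∫ r in (0:ℝ)..t, u r) :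
    M + k * (∫ r in (0:ℝ)..c, u r) ≤ M * Real.exp (k * c) := by
  have hd : ∀ t : ℝ, HasDerivAt (fun t : ℝ => M + k * ∫ r in (0:ℝ)..t, u r) (k * u t) t := fun t =>
    ((hu.integral_hasStrictDerivAt 0 t).hasDerivAt.const_mul k).const_add M
  have hG0 : ∀ t : ℝ, 0 ≤ t → 0 ≤ M + k * ∫ r in (0:ℝ)..t, u r := fun t ht =>
    add_nonneg hM (mul_nonneg hk (intervalIntegral.integral_nonneg ht fun x _ => hu0 x))
  have key := norm_le_gronwallBound_of_norm_deriv_right_le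
    (f := fun t : ℝ => M + k * ∫ r in (0:ℝ)..t, u r) (f' := fun t => k * u t) (δ := M) (K := k)
    (ε := 0) (a := 0) (b := c)
    (fun t _ => (hd t).continuousAt.continuousWithinAt) (fun t _ => (hd t).hasDerivWithinAt)
    (by simp [abs_of_nonneg hM]) (by
      intro x hx
      rw [Real.norm_of_nonneg (mul_nonneg hk (hu0 x)), Real.norm_of_nonneg (hG0 x hx.1), add_zero]
      exact mul_le_mul_of_nonneg_left (h x ⟨hx.1, hx.2.le⟩) hk) c ⟨hc, le_rfl⟩
  rw [Real.norm_of_nonneg (hG0 c hc), gronwallBound_ε0, sub_zero] at key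
  exact key

private theorem ext_aux {W : Type} [NormedAddCommGroup W] {e : ℝ → W} (he : ContinuousOn e (Icc 0 1)) :
    ∃ f : ℝ → W, Continuous f ∧ ∀ t ∈ Icc (0:ℝ) 1, f t = e t := by
  refine ⟨IccExtend (zero_le_one (α := ℝ)) (Set.restrict (Icc 0 1) e), ?_, ?_⟩
  · exact (continuousOn_iff_continuous_restrict.1 he).Icc_extend'
  · intro t ht
    rw [IccExtend_of_mem _ _ ht]
    rfl

private theorem int_aux {f g : ℝ → ℝ} (h : ∀ t ∈ Icc (0:ℝ) 1, f t = g t) {t : ℝ} (ht : t ∈ Icc (0:ℝ) 1) :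
    ∫ r in (0:ℝ)..t, f r = ∫ r in (0:ℝ)..t, g r := by
  apply intervalIntegral.integral_congr
  intro r hr
  rw [uIcc_of_le ht.1] at hr
  exact h r ⟨hr.1, hr.2.trans ht.2⟩

namespace EData

/-- **THE ENERGY ESTIMATE.** Proof: `boot_half` with `φ t = ‖ι e‖² + b/2 ∫ ‖e‖²` and `M = K₀²`; on the interval where
`Bd` holds: `OK.core` and Gronwall for `ψ τ = ‖ι (e τ)‖² + b ∫_0^τ ‖e‖²`: `ψ τ ≤ M₀ + 4 CV ∫_0^τ ψ`, so
`ψ τ ≤ exp(4 CV τ) M₀`. -/
theorem energy_est (K : ℝ) : ∃ C q₀, 0 ≤ C ∧ 1 ≤ q₀ ∧ ∀ (E : EData H V)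
    (K₀ CV δ γ : ℝ), E.OK K₀ K CV δ γ → q₀ ≤ E.q → ∀ e : ℝ → V, E.Sol e →
    Real.exp (4 * CV) * (‖E.ι (e 0)‖ ^ 2 + 2 * δ * K₀ + 2 * K₀ ^ 3 * E.b + 2 * γ ^ 2 / E.b + C / E.q) ≤
      K₀ ^ 2 / 2 →
    ∀ t ∈ Icc (0:ℝ) 1, ‖E.ι (e t)‖ ^ 2 + E.b / 2 * (∫ r in (0:ℝ)..t, ‖e r‖ ^ 2) ≤
      Real.exp (4 * CV) *
        (‖E.ι (e 0)‖ ^ 2 + 2 * δ * K₀ + 2 * K₀ ^ 3 * E.b + 2 * γ ^ 2 / E.b + C / E.q) := by
  obtain ⟨C, q₀, hC, hq₀, hcore⟩ := OK.core (H := H) (V := V) K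
  refine ⟨C, q₀, hC, hq₀, ?_⟩
  intro E K₀ CV δ γ hE hq e he hsmall
  have hb := hE.b0
  have hK₀ : 0 < K₀ := lt_of_lt_of_le one_pos hE.K₀1
  have hq0 : 0 < E.q := lt_of_lt_of_le one_pos hE.q1
  obtain ⟨f, hf, hfe⟩ := ext_aux he.ce
  obtain ⟨D, hD⟩ : ∃ D, D = 2 * δ * K₀ + 2 * K₀ ^ 3 * E.b + 2 * γ ^ 2 / E.b + C / E.q := ⟨_, rfl⟩
  have hD0 : 0 ≤ D := by
    rw [hD]
    have h1 : 0 ≤ 2 * δ * K₀ := mul_nonneg (mul_nonneg zero_le_two hE.δ0) hK₀.le
    have h2 : 0 ≤ 2 * K₀ ^ 3 * E.b := by positivity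
    have h3 : 0 ≤ 2 * γ ^ 2 / E.b := by positivity
    have h4 : 0 ≤ C / E.q := by positivity
    linarith
  have hM : ‖E.ι (e 0)‖ ^ 2 + 2 * δ * K₀ + 2 * K₀ ^ 3 * E.b + 2 * γ ^ 2 / E.b + C / E.q =
      ‖E.ι (e 0)‖ ^ 2 + D := by rw [hD]; ring
  rw [hM] at hsmall ⊢
  have hM0 : 0 ≤ ‖E.ι (e 0)‖ ^ 2 + D := by positivity
  have hk : 0 ≤ 4 * CV := by linarith [hE.CV0]
  have hexp1 : 1 ≤ Real.exp (4 * CV) := Real.one_le_exp hk
  have hI : ∀ t ∈ Icc (0:ℝ) 1, ∫ r in (0:ℝ)..t, ‖f r‖ ^ 2 = ∫ r in (0:ℝ)..t, ‖e r‖ ^ 2 := fun t ht =>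
    int_aux (fun s hs => by rw [hfe s hs]) ht
  have hJ : ∀ t ∈ Icc (0:ℝ) 1, ∫ r in (0:ℝ)..t, ‖E.ι (f r)‖ ^ 2 = ∫ r in (0:ℝ)..t, ‖E.ι (e r)‖ ^ 2 :=
    fun t ht => int_aux (fun s hs => by rw [hfe s hs]) ht
  have hI0 : ∀ t : ℝ, 0 ≤ t → 0 ≤ ∫ r in (0:ℝ)..t, ‖e r‖ ^ 2 := fun t ht =>
    intervalIntegral.integral_nonneg ht fun x _ => by positivity
  have hu : Continuous fun t => ‖E.ι (f t)‖ ^ 2 := ((E.ι.continuous.comp hf).norm).pow 2
  have main : ∀ c ∈ Icc (0:ℝ) 1, (∀ t ∈ Icc (0:ℝ) c,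
      ‖E.ι (e t)‖ ^ 2 + E.b / 2 * (∫ r in (0:ℝ)..t, ‖e r‖ ^ 2) ≤ K₀ ^ 2) →
      ‖E.ι (e c)‖ ^ 2 + E.b / 2 * (∫ r in (0:ℝ)..c, ‖e r‖ ^ 2) ≤
        Real.exp (4 * CV) * (‖E.ι (e 0)‖ ^ 2 + D) := by
    intro c hc hbd
    have hcore' : ∀ t ∈ Icc (0:ℝ) c, ‖E.ι (e t)‖ ^ 2 + E.b * (∫ r in (0:ℝ)..t, ‖e r‖ ^ 2) ≤
        (‖E.ι (e 0)‖ ^ 2 + D) + 4 * CV * ∫ r in (0:ℝ)..t, ‖E.ι (f r)‖ ^ 2 := by
      intro t ht
      have ht1 : t ∈ Icc (0:ℝ) 1 := ⟨ht.1, ht.2.trans hc.2⟩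
      have := hcore E K₀ CV δ γ hE hq e he t ht1 fun s hs => hbd s ⟨hs.1, hs.2.trans ht.2⟩
      rw [← hD] at this
      rw [hJ t ht1]
      linarith
    have hg := gron_aux hc.1 hM0 hk hu (fun t => by positivity) (by
      intro t ht
      have ht1 : t ∈ Icc (0:ℝ) 1 := ⟨ht.1, ht.2.trans hc.2⟩
      have h1 := hcore' t ht
      have h2 := mul_nonneg hb.le (hI0 t ht.1)
      rw [hfe t ht1]
      linarith)
    have h1 := hcore' c ⟨hc.1, le_rfl⟩
    have h2 := mul_nonneg hb.le (hI0 c hc.1)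
    have h3 : Real.exp (4 * CV * c) ≤ Real.exp (4 * CV) := by
      apply Real.exp_le_exp.2
      nlinarith [hc.2]
    have h4 := mul_le_mul_of_nonneg_left h3 hM0
    have h5 : E.b / 2 * (∫ r in (0:ℝ)..c, ‖e r‖ ^ 2) ≤ E.b * (∫ r in (0:ℝ)..c, ‖e r‖ ^ 2) := by
      nlinarith
    linarith
  have hboot := boot_half (a := 0) (b := 1) (M := K₀ ^ 2) zero_le_one (by positivity)
    (φ := fun t => ‖E.ι (e t)‖ ^ 2 + E.b / 2 * (∫ r in (0:ℝ)..t, ‖e r‖ ^ 2)) (by
      have hcf : Continuous fun t => ‖E.ι (f t)‖ ^ 2 + E.b / 2 * ∫ r in (0:ℝ)..t, ‖f r‖ ^ 2 := by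
        refine hu.add (continuous_const.mul ?_)
        exact intervalIntegral.continuous_primitive
          (fun a b => (hf.norm.pow 2).intervalIntegrable a b) 0
      refine hcf.continuousOn.congr ?_
      intro t ht
      simp only
      rw [hI t ht, hfe t ht]) (by
      simp only [intervalIntegral.integral_same, mul_zero, add_zero]
      have h1 : ‖E.ι (e 0)‖ ^ 2 ≤ ‖E.ι (e 0)‖ ^ 2 + D := by linarith
      nlinarith [mul_le_mul_of_nonneg_right hexp1 hM0]) (by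
      intro c hc hbd
      exact (main c hc hbd).trans hsmall)
  intro t ht
  refine main t ht ?_
  intro s hs
  have := hboot s ⟨hs.1, hs.2.trans ht.2⟩
  nlinarith

end EData

end

end Pool.Agent.Lib.MP_79abb3_an.W
end

section

/-!
Theorem W, block EM: the reference solution of one move.
-/

set_option autoImplicit false
set_option linter.unusedSectionVars false

open MeasureTheory Set Filter Topology Function
open scoped ENNReal RealInnerProductSpace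

namespace Pool.Agent.Lib.MP_79abb3_an.W

variable {d : ℕ}

/-- The reference `u` of one move, on the rescaled time interval `[0, 1]` (physical time `b t`): `u'` is its time
derivative; the error `v` (total field `u + v`) solves `v' + b A v + F v + b (v·∇) v = g` modulo forces in `N`. -/
structure Move (D N : Set (En d)) (b : ℝ) (F : ℝ → VD D →L[ℝ] HD D) (g : ℝ → HD D) (u : ℝ → VD D)
    (u' : ℝ → HD D) : Prop where
  cF : ContinuousOn F (Icc 0 1)
  cg : ContinuousOn g (Icc 0 1)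
  cu : ContinuousOn u (Icc 0 1)
  cu' : ContinuousOn u' (Icc 0 1)
  du : ∀ φ : TS D, ∀ s t : ℝ, 0 ≤ s → s ≤ t → t ≤ 1 →
    ⟪io D (u t), hT D φ⟫ - ⟪io D (u s), hT D φ⟫ = ∫ r in s..t, ⟪u' r, hT D φ⟫
  id : ∀ t ∈ Icc (0:ℝ) 1, ∀ v : VD D, ∀ φ : TS D, Disjoint (tsupport (φ : En d → En d)) (closure N) →
    ⟪u' t, hT D φ⟫ + b * (⟪u t, vT D φ⟫ + bV D (u t) (u t) (vT D φ) + bV D (u t) v (vT D φ) +
      bV D v (u t) (vT D φ)) = ⟪F t v - g t, hT D φ⟫

private theorem emh_map {b : ℝ} (hb : 0 < b) :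
    Measure.map (fun t : ℝ => t / b) (volume.restrict (Ioc 0 b)) =
      ENNReal.ofReal b • volume.restrict (Ioc 0 1) := by
  have e1 : (fun t : ℝ => t / b) = fun t : ℝ => t * b⁻¹ := by
    funext t
    rw [div_eq_mul_inv]
  have hm : Measurable fun t : ℝ => t * b⁻¹ := measurable_id.mul_const _
  have e2 : Ioc (0:ℝ) b = (fun t : ℝ => t * b⁻¹) ⁻¹' Ioc 0 1 := by
    ext t
    simp only [mem_Ioc, mem_preimage]
    rw [← div_eq_mul_inv, div_pos_iff_of_pos_right hb, div_le_one hb]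
  rw [e1, e2, ← Measure.restrict_map hm measurableSet_Ioc,
    Real.map_volume_mul_right (inv_ne_zero hb.ne'), inv_inv, abs_of_pos hb, Measure.restrict_smul]

/-- **From the error to the trajectory.** `x_tot(t) = u(t/b) + x(t/b)`. Proof: change of variables `r = b τ` in the
integrals; `Move.du`, `LSol.eq` with `p = vT D φ` (`io (vT D φ) = hT D φ`), `Move.id`, bilinearity of `bV`. -/
theorem Move.ctr {D N : Set (En d)} {b : ℝ} {F : ℝ → VD D →L[ℝ] HD D} {g : ℝ → HD D} {u : ℝ → VD D}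
    {u' : ℝ → HD D} (hD : Bornology.IsBounded D) (hb : 0 < b) (hm : Move D N b F g u u') {x₀ : HD D}
    {x : ℝ → HD D} {v : ℝ → VD D}
    (hl : LSol (io D) b F g (fun p q r => b * bV D p q r) 0 1 x₀ x v) :
    CTr D N 0 b (fun t => io D (u (t / b)) + x (t / b)) (fun t => u (t / b) + v (t / b)) := by
  have hmd : Measurable fun t : ℝ => t / b := measurable_id.div_const b
  have hmaps : MapsTo (fun t : ℝ => t / b) (Icc 0 b) (Icc 0 1) := fun t ht =>
    ⟨div_nonneg ht.1 hb.le, (div_le_one hb).mpr ht.2⟩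
  have hcd : ContinuousOn (fun t : ℝ => t / b) (Icc 0 b) := (continuous_id.div_const b).continuousOn
  have hv1 : MemLp v 2 (volume.restrict (Ioc 0 1)) :=
    hl.mem.mono_measure (Measure.restrict_mono Ioc_subset_Icc_self le_rfl)
  have hae1 : ∀ᵐ t ∂(volume.restrict (Ioc (0:ℝ) 1)), io D (v t) = x t :=
    ae_mono (Measure.restrict_mono Ioc_subset_Icc_self le_rfl) hl.ae
  refine ⟨hb.le, fun h => ?_, ?_, ?_, ?_⟩
  · have h1 : ContinuousOn (fun t => ⟪io D (u (t / b)), h⟫) (Icc 0 b) := by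
      have h2 : ContinuousOn (fun t => io D (u (t / b))) (Icc 0 b) :=
        (io D).continuous.comp_continuousOn (hm.cu.comp hcd hmaps)
      exact h2.inner continuousOn_const
    have h3 : ContinuousOn (fun t => ⟪x (t / b), h⟫) (Icc 0 b) :=
      (hl.weak h).comp hcd hmaps
    refine (h1.add h3).congr fun t _ => ?_
    simp only [inner_add_left]
    rfl
  · refine MemLp.add ?_ ?_
    · have h2 : ContinuousOn (fun t => u (t / b)) (Icc 0 b) := hm.cu.comp hcd hmaps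
      have h3 : MemLp (fun t => u (t / b)) 2 (volume.restrict (Icc 0 b)) := by
        obtain ⟨C, hC⟩ := isCompact_Icc.exists_bound_of_continuousOn h2
        exact MemLp.of_bound (h2.aestronglyMeasurable measurableSet_Icc) C
          (ae_restrict_of_forall_mem measurableSet_Icc hC)
      exact h3.mono_measure (Measure.restrict_mono Ioc_subset_Icc_self le_rfl)
    · have h3 : MemLp v 2 (Measure.map (fun t : ℝ => t / b) (volume.restrict (Ioc 0 b))) := by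
        rw [emh_map hb]
        exact hv1.smul_measure ENNReal.ofReal_ne_top
      exact h3.comp_of_map hmd.aemeasurable
  · have h3 : ∀ᵐ t ∂(Measure.map (fun t : ℝ => t / b) (volume.restrict (Ioc 0 b))),
        io D (v t) = x t := by
      rw [emh_map hb]
      exact Measure.ae_smul_measure hae1 _
    have h4 := ae_of_ae_map hmd.aemeasurable h3
    filter_upwards [h4] with t ht
    rw [map_add, ht]
  · intro φ hφ s t hs hst ht
    have hs' : 0 ≤ s / b := div_nonneg hs hb.le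
    have hst' : s / b ≤ t / b := div_le_div_of_nonneg_right hst hb.le
    have ht' : t / b ≤ 1 := (div_le_one hb).mpr ht
    have e1 := hm.du φ (s / b) (t / b) hs' hst' ht'
    have e2 := hl.eq (vT D φ) (s / b) (t / b) hs' hst' ht'
    rw [io_vT hD] at e2
    have hsub : uIcc (s / b) (t / b) ⊆ uIcc 0 1 := by
      rw [uIcc_of_le hst', uIcc_of_le zero_le_one]
      exact Icc_subset_Icc hs' ht'
    have i1 : IntervalIntegrable (fun r => ⟪u' r, hT D φ⟫) volume (s / b) (t / b) := by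
      refine ContinuousOn.intervalIntegrable ?_
      rw [uIcc_of_le hst']
      exact (hm.cu'.mono (Icc_subset_Icc hs' ht')).inner continuousOn_const
    have i2 : IntervalIntegrable (fun r => -(b * ⟪v r, vT D φ⟫) + ⟪g r - F r (v r), hT D φ⟫ -
        b * bV D (v r) (v r) (vT D φ)) volume (s / b) (t / b) := by
      have h1 := hl.int (vT D φ)
      rw [io_vT hD] at h1
      exact h1.mono_set hsub
    have e3 : ∫ r in s..t, (⟪u (r / b) + v (r / b), vT D φ⟫ +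
        bV D (u (r / b) + v (r / b)) (u (r / b) + v (r / b)) (vT D φ)) =
        b * ∫ r in (s / b)..(t / b), (⟪u r + v r, vT D φ⟫ +
          bV D (u r + v r) (u r + v r) (vT D φ)) := by
      have h1 := intervalIntegral.integral_comp_div (a := s) (b := t)
        (fun r => ⟪u r + v r, vT D φ⟫ + bV D (u r + v r) (u r + v r) (vT D φ)) hb.ne'
      rw [smul_eq_mul] at h1
      exact h1
    have e4 : ⟪io D (u (t / b)) + x (t / b), hT D φ⟫ - ⟪io D (u (s / b)) + x (s / b), hT D φ⟫ =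
        (⟪io D (u (t / b)), hT D φ⟫ - ⟪io D (u (s / b)), hT D φ⟫) +
        (⟪x (t / b), hT D φ⟫ - ⟪x (s / b), hT D φ⟫) := by
      rw [inner_add_left, inner_add_left]
      ring
    rw [e4, e1, e2, e3, ← intervalIntegral.integral_add i1 i2, ← neg_mul,
      ← intervalIntegral.integral_const_mul]
    refine intervalIntegral.integral_congr fun r hr => ?_
    rw [uIcc_of_le hst'] at hr
    have h5 := hm.id r ⟨hs'.trans hr.1, hr.2.trans ht'⟩ (v r) φ hφ
    simp only [map_add, add_apply, inner_add_left, inner_sub_left] at h5 ⊢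
    linear_combination h5

end Pool.Agent.Lib.MP_79abb3_an.W
end

section

/-!
Theorem W (MP_79abb3_an), block DE: the reference field as an element of `V(D)`; tested identities.
-/

set_option autoImplicit false
set_option linter.unusedSectionVars false

open MeasureTheory Set Filter Topology Function
open scoped ENNReal RealInnerProductSpace

namespace Pool.Agent.Lib.MP_79abb3_an.W

section
variable {d : ℕ} {D : Set (En d)} {z : En d → ℝ} {δ : ℝ}

/-- `vD` of a field of class `BD`, divergence free, `O(z)`. -/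
theorem vD_spec (h : Dom D z δ) {f : En d → En d} (hf : BD D f) (hd : ∀ x ∈ D, dv f x = 0) (hz : Oz D z f) :
    ((io D (vD D f) : HD D) : L2E d) = cl (D.indicator f) ∧ ∀ i, gi (vD D f) i = cl (D.indicator (pd i f)) := by
  have h1 := h.mem_VD_BD hf hd hz
  unfold vD
  rw [dif_pos h1]
  exact h1.choose_spec

/-- The projection is the identity: `io (vD f) = P f`. -/
theorem io_vD (h : Dom D z δ) {f : En d → En d} (hf : BD D f) (hd : ∀ x ∈ D, dv f x = 0) (hz : Oz D z f) :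
    io D (vD D f) = PcD D f := by
  have h1 := (vD_spec h hf hd hz).1
  unfold PcD
  rw [← h1, PD_coe]

theorem inner_clI (hD : MeasurableSet D) (hb : Bornology.IsBounded D) {f g : En d → En d} (hf : Bm D f)
    (hg : MemLp g 2 (volume : Measure (En d))) : ⟪cl (D.indicator f), cl g⟫ = ∫ x in D, ⟪f x, g x⟫ := by
  rw [cl_inner (hf.memL2 hb) hg, ← integral_indicator hD]
  refine integral_congr_ae (Eventually.of_forall fun x => ?_)
  by_cases h : x ∈ D
  · beta_reduce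
    rw [indicator_of_mem h, indicator_of_mem h]
  · beta_reduce
    rw [indicator_of_notMem h, indicator_of_notMem h, inner_zero_left]

/-- integration by parts in `D` -/
theorem te_ibp (hD : IsOpen D) {a φ : En d → En d} (ha : BD D a) (hφ : IsTe D φ) (i : Fin d) :
    ∫ x in D, ⟪a x, pd i φ x⟫ = -∫ x in D, ⟪pd i a x, φ x⟫ := by
  have h1 : IsTe D (fun x => ⟪a x, φ x⟫) := IsTe.bilin hD (innerSL ℝ) ha.1 hφ
  have h0 := integral_pd h1.smooth h1.cpt i
  have h2 : ∀ x, x ∉ D → pd i (fun x => ⟪a x, φ x⟫) x = 0 := fun x hx => (h1.pd i).zero_off hx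
  rw [← setIntegral_eq_integral_of_forall_compl_eq_zero h2] at h0
  have h3 : ∀ x ∈ D, pd i (fun x => ⟪a x, φ x⟫) x = ⟪a x, pd i φ x⟫ + ⟪pd i a x, φ x⟫ := fun x hx =>
    fderiv_inner_apply ℝ (ha.differentiableAt hD hx) (hφ.smooth.differentiable x) (ei i)
  rw [setIntegral_congr_fun hD.measurableSet h3, integral_add] at h0
  · linarith
  · have h4 : IsTe D (fun x => ⟪a x, pd i φ x⟫) := IsTe.bilin hD (innerSL ℝ) ha.1 (hφ.pd i)
    exact h4.integrable.integrableOn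
  · have h4 : IsTe D (fun x => ⟪pd i a x, φ x⟫) := IsTe.bilin hD (innerSL ℝ) (ha.pd hD i).1 hφ
    exact h4.integrable.integrableOn

theorem BD.lap1 (hD : IsOpen D) {f : En d → En d} (hf : BD D f) : BD D (lap f) :=
  BD.sum hD Finset.univ fun i _ => (hf.pd hD i).pd hD i

/-- the viscous term -/
theorem inner_vD (h : Dom D z δ) {f : En d → En d} (hf : BD D f) (hd : ∀ x ∈ D, dv f x = 0) (hz : Oz D z f)
    (φ : TS D) : ⟪vD D f, vT D φ⟫ = -∫ x in D, ⟪lap f x, (φ : En d → En d) x⟫ := by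
  have hD := h.isOpen
  have hφ := (TS.ts φ).toIsTe
  rw [inner_gi]
  have h1 : ∀ i, ⟪gi (vD D f) i, gi (vT D φ) i⟫ = -∫ x in D, ⟪pd i (pd i f) x, (φ : En d → En d) x⟫ := by
    intro i
    rw [(vD_spec h hf hd hz).2 i, gi_vT, inner_clI hD.measurableSet h.bdd ((hf.pd hD i).bm hD) ((hφ.pd i).memLp 2),
      te_ibp hD (hf.pd hD i) hφ i]
  rw [Finset.sum_congr rfl fun i _ => h1 i, Finset.sum_neg_distrib, ← integral_finsetSum]
  · congr 1
    refine integral_congr_ae (Eventually.of_forall fun x => ?_)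
    show ∑ i, ⟪pd i (pd i f) x, (φ : En d → En d) x⟫ = ⟪∑ i, pd i (pd i f) x, (φ : En d → En d) x⟫
    rw [sum_inner]
  · intro i _
    have h4 : IsTe D (fun x => ⟪pd i (pd i f) x, (φ : En d → En d) x⟫) :=
      IsTe.bilin hD (innerSL ℝ) ((hf.pd hD i).pd hD i).1 hφ
    exact h4.integrable.integrableOn

/-- **The linearised nonlinearity.** -/
theorem bV_vD (hd' : d = 2 ∨ d = 3) (h : Dom D z δ) {f : En d → En d} (hf : BD D f) (hd : ∀ x ∈ D, dv f x = 0)
    (hz : Oz D z f) (v : VD D) (φ : TS D) :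
    bV D (vD D f) v (vT D φ) + bV D v (vD D f) (vT D φ) = ⟪TvD D f v, hT D φ⟫ := by
  have hD := h.isOpen
  have hb := h.bdd
  have hDm : Bm D (Dm f) := hf.bm_fderiv hD
  have hs := vD_spec h hf hd hz
  have hv1 : (((io D (vD D f) : HD D) : L2E d) : En d → En d) =ᵐ[volume] D.indicator f := by
    rw [hs.1]
    exact clI_coe hb (hf.bm hD)
  have hv2 : ∀ i, (gi (vD D f) i : En d → En d) =ᵐ[volume] D.indicator (pd i f) := fun i => by
    rw [hs.2 i]
    exact clI_coe hb ((hf.pd hD i).bm hD)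
  have hφ : (((io D (vT D φ) : HD D) : L2E d) : En d → En d) =ᵐ[volume] (φ : En d → En d) := by
    rw [io_vT hb, hT_coe]
    exact cl_coe ((TS.ts φ).memLp 2)
  have hφ' : (((hT D φ : HD D) : L2E d) : En d → En d) =ᵐ[volume] (φ : En d → En d) := by
    rw [hT_coe]
    exact cl_coe ((TS.ts φ).memLp 2)
  obtain ⟨C, hC⟩ := (TS.ts φ).smooth.continuous.bounded_above_of_compact_support (TS.ts φ).cpt
  obtain ⟨Cf, hCf0, hCf⟩ := (hf.bm hD).ind_bdd
  -- integrability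
  have hi1 : ∀ i, Integrable fun x => (((io D (vD D f) : HD D) : L2E d) : En d → En d) x i *
      ⟪(gi v i : En d → En d) x, (((io D (vT D φ) : HD D) : L2E d) : En d → En d) x⟫ := by
    intro i
    have h1 : Integrable (fun x => ⟪(gi v i : En d → En d) x, (((io D (vT D φ) : HD D) : L2E d) : En d → En d) x⟫) :=
      L2.integrable_inner (𝕜 := ℝ) _ _
    have hai : AEStronglyMeasurable (fun x => (((io D (vD D f) : HD D) : L2E d) : En d → En d) x i) volume :=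
      (EuclideanSpace.proj i : En d →L[ℝ] ℝ).continuous.comp_aestronglyMeasurable (Lp.memLp _).1
    refine (h1.norm.const_mul Cf).mono' (hai.mul h1.1) ?_
    filter_upwards [hv1] with x hx
    rw [norm_mul, hx]
    exact mul_le_mul_of_nonneg_right ((PiLp.norm_apply_le _ _).trans (hCf x)) (norm_nonneg _)
  have hi2 : ∀ i, Integrable fun x => (((io D v : HD D) : L2E d) : En d → En d) x i *
      ⟪(gi (vD D f) i : En d → En d) x, (((io D (vT D φ) : HD D) : L2E d) : En d → En d) x⟫ := by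
    intro i
    obtain ⟨Ci, hCi0, hCi⟩ := ((hf.pd hD i).bm hD).ind_bdd
    have hai : AEStronglyMeasurable (fun x => (((io D v : HD D) : L2E d) : En d → En d) x i) volume :=
      (EuclideanSpace.proj i : En d →L[ℝ] ℝ).continuous.comp_aestronglyMeasurable (Lp.memLp _).1
    have h1 : Integrable (fun x => ⟪(gi (vD D f) i : En d → En d) x,
      (((io D (vT D φ) : HD D) : L2E d) : En d → En d) x⟫) := L2.integrable_inner (𝕜 := ℝ) _ _
    have h2 := (int_norm_mul ((io D v : HD D) : L2E d) ((io D (vT D φ) : HD D) : L2E d)).1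
    refine (h2.const_mul Ci).mono' (hai.mul h1.1) ?_
    filter_upwards [hv2 i] with x hx
    rw [norm_mul, hx]
    have e1 : ‖(((io D v : HD D) : L2E d) : En d → En d) x i‖ ≤ ‖(((io D v : HD D) : L2E d) : En d → En d) x‖ :=
      PiLp.norm_apply_le _ _
    have e2 : ‖⟪D.indicator (pd i f) x, (((io D (vT D φ) : HD D) : L2E d) : En d → En d) x⟫‖ ≤
        Ci * ‖(((io D (vT D φ) : HD D) : L2E d) : En d → En d) x‖ :=
      (norm_inner_le_norm (𝕜 := ℝ) _ _).trans (mul_le_mul_of_nonneg_right (hCi x) (norm_nonneg _))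
    calc _ ≤ ‖(((io D v : HD D) : L2E d) : En d → En d) x‖ *
          (Ci * ‖(((io D (vT D φ) : HD D) : L2E d) : En d → En d) x‖) := mul_le_mul e1 e2 (norm_nonneg _) (norm_nonneg _)
      _ = _ := by ring
  unfold TvD
  rw [bV_int hd' hb, bV_int hd' hb, inner_OpD hD.measurableSet (hf.bm hD) hDm, ← integral_finsetSum _ fun i _ => hi1 i,
    ← integral_finsetSum _ fun i _ => hi2 i, ← integral_add (integrable_finsetSum _ fun i _ => hi1 i)
    (integrable_finsetSum _ fun i _ => hi2 i), ← integral_indicator hD.measurableSet]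
  refine integral_congr_ae ?_
  filter_upwards [hv1, ae_all_iff.2 hv2, hφ, hφ'] with x h1 h2 h3 h4
  by_cases hx : x ∈ D
  · rw [indicator_of_mem hx, h4, h3, h1, indicator_of_mem hx]
    have e1 : Dm f x ((((io D v : HD D) : L2E d) : En d → En d) x) =
        ∑ i, (((io D v : HD D) : L2E d) : En d → En d) x i • pd i f x := fderiv_eq_sum f x _
    rw [e1, inner_add_left, sum_inner, sum_inner]
    congr 1
    · exact Finset.sum_congr rfl fun i _ => (real_inner_smul_left _ _ _).symm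
    · refine Finset.sum_congr rfl fun i _ => ?_
      rw [h2 i, indicator_of_mem hx, real_inner_smul_left]
  · rw [indicator_of_notMem hx, h3, (TS.ts φ).toIsTe.zero_off hx]
    simp

end

end Pool.Agent.Lib.MP_79abb3_an.W
end

section

/-!
Theorem W (MP_79abb3_an), block DE: continuity in time of the reference field; gradients are orthogonal to test fields.
-/

set_option autoImplicit false
set_option linter.unusedSectionVars false

open MeasureTheory Set Filter Topology Function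
open scoped ENNReal RealInnerProductSpace

namespace Pool.Agent.Lib.MP_79abb3_an.W

section
variable {d : ℕ} {D : Set (En d)} {z : En d → ℝ} {δ : ℝ}

theorem linD_pd (hD : IsOpen D) (hb : Bornology.IsBounded D) (i : Fin d) :
    LinD D fun f : En d → En d => cl (D.indicator (pd i f)) where
  congr f g h := clI_congr fun x hx => by
    unfold pd
    rw [fderiv_congr_on hD h hx]
  add f g hf hg := by
    rw [← clI_add hb ((hf.pd hD i).bm hD) ((hg.pd hD i).bm hD)]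
    refine clI_congr fun x hx => ?_
    unfold pd
    rw [fderiv_fun_add (hf.differentiableAt hD hx) (hg.differentiableAt hD hx), _root_.add_apply]
  smul c f hf := by
    rw [← clI_smul hb c ((hf.pd hD i).bm hD)]
    refine clI_congr fun x hx => ?_
    unfold pd
    rw [fderiv_fun_const_smul (hf.differentiableAt hD hx), _root_.smul_apply]

/-- continuity with values in `V(D)` -/
theorem vD_cont (h : Dom D z δ) {f : ℝ → En d → En d} (hf : Sep D f) (hd : ∀ t ∈ Icc (0:ℝ) 1, ∀ x ∈ D, dv (f t) x = 0)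
    (hz : ∀ t ∈ Icc (0:ℝ) 1, Oz D z (f t)) : ContinuousOn (fun t => vD D (f t)) (Icc 0 1) := by
  have hD := h.isOpen
  have hb := h.bdd
  intro t ht
  rw [ContinuousWithinAt, tendsto_iff_norm_sub_tendsto_zero]
  have h1 : ∀ s ∈ Icc (0:ℝ) 1, ‖vD D (f s) - vD D (f t)‖ =
      √(∑ i, ‖cl (D.indicator (pd i (f s))) - cl (D.indicator (pd i (f t)))‖ ^ 2) := by
    intro s hs
    have h2 : ‖vD D (f s) - vD D (f t)‖ ^ 2 =
        ∑ i, ‖cl (D.indicator (pd i (f s))) - cl (D.indicator (pd i (f t)))‖ ^ 2 := by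
      rw [norm_sq_gi]
      refine Finset.sum_congr rfl fun i _ => ?_
      have h3 : gi (vD D (f s) - vD D (f t)) i = gi (vD D (f s)) i - gi (vD D (f t)) i := rfl
      rw [h3, (vD_spec h (hf.bd hD s) (hd s hs) (hz s hs)).2 i, (vD_spec h (hf.bd hD t) (hd t ht) (hz t ht)).2 i]
    rw [← h2, Real.sqrt_sq (norm_nonneg _)]
  have h2 : Tendsto (fun s => √(∑ i, ‖cl (D.indicator (pd i (f s))) - cl (D.indicator (pd i (f t)))‖ ^ 2))
      (𝓝[Icc (0:ℝ) 1] t) (𝓝 0) := by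
    have h3 : Continuous fun s => √(∑ i, ‖cl (D.indicator (pd i (f s))) - cl (D.indicator (pd i (f t)))‖ ^ 2) := by
      refine (continuous_finsetSum _ fun i _ => ?_).sqrt
      exact (((hf.map_cont hD (linD_pd hD hb i)).sub continuous_const).norm).pow 2
    have h4 := (h3.tendsto t).mono_left (nhdsWithin_le_nhds (s := Icc (0:ℝ) 1))
    refine h4.congr' ?_ |>.trans (le_of_eq ?_)
    · exact Eventually.of_forall fun s => rfl
    · simp
  refine h2.congr' ?_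
  filter_upwards [self_mem_nhdsWithin] with s hs
  exact (h1 s hs).symm

open scoped Manifold in
/-- a smooth cut-off which is one near a compact set -/
theorem exists_cut {K O : Set (En d)} (hK : IsCompact K) (hO : IsOpen O) (hKO : K ⊆ O) :
    ∃ χ : En d → ℝ, ContDiff ℝ ((⊤ : ℕ∞) : WithTop ℕ∞) χ ∧ HasCompactSupport χ ∧
      tsupport χ ⊆ O ∧ ∃ U : Set (En d), IsOpen U ∧ K ⊆ U ∧ ∀ x ∈ U, χ x = 1 := by
  obtain ⟨K', hK', hKK', hK'O⟩ := exists_compact_between hK hO hKO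
  obtain ⟨f, h1, h2, h3⟩ := exists_contMDiffMap_one_nhds_of_subset_interior (𝓘(ℝ, En d))
    (n := ⊤) hK.isClosed hKK'
  have hsup : tsupport (fun x => f x) ⊆ K' := by
    refine closure_minimal (fun x hx => ?_) hK'.isClosed
    by_contra h
    exact hx (h2 x h)
  refine ⟨fun x => f x, f.contMDiff.contDiff, ?_, hsup.trans hK'O, ?_⟩
  · exact hK'.of_isClosed_subset (isClosed_tsupport _) hsup
  · rw [Filter.eventually_iff_exists_mem] at h1
    obtain ⟨v, hv, hv1⟩ := h1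
    obtain ⟨U, hU, hKU, hUv⟩ := mem_nhdsSet_iff_exists.1 hv
    exact ⟨U, hU, hKU, fun x hx => hv1 x (hUv hx)⟩

/-- **Gradients are orthogonal to test fields.** -/
theorem gd_test {O : Set (En d)} (hO : IsOpen O) {p : En d → ℝ}
    (hp : ContDiffOn ℝ ((⊤ : ℕ∞) : WithTop ℕ∞) p O) (φ : TS D) (hφ : tsupport (φ : En d → En d) ⊆ O) :
    ∫ x, ⟪gd p x, (φ : En d → En d) x⟫ = 0 := by
  obtain ⟨χ, h1, h2, h3, U, hU, hKU, hU1⟩ := exists_cut (TS.ts φ).cpt hO hφ
  have hq : Smo fun x => χ x * p x := by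
    show ContDiff ℝ _ _
    rw [contDiff_iff_contDiffAt]
    intro x
    by_cases hx : x ∈ O
    · exact h1.contDiffAt.mul (hp.contDiffAt (hO.mem_nhds hx))
    · have hx' : x ∉ tsupport χ := fun h => hx (h3 h)
      have h4 : (fun x => χ x * p x) =ᶠ[𝓝 x] fun _ => 0 := by
        filter_upwards [(isClosed_tsupport χ).isOpen_compl.mem_nhds hx'] with y hy
        rw [image_eq_zero_of_notMem_tsupport hy, zero_mul]
      exact contDiffAt_const.congr_of_eventuallyEq h4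
  have hc : HasCompactSupport fun x => χ x * p x := h2.mul_right
  have h5 := HD_div (hT D φ) hq hc
  have hgc : Continuous (gd fun x => χ x * p x) := hq.gd.continuous
  have hgs : HasCompactSupport (gd fun x => χ x * p x) := by
    refine HasCompactSupport.of_support_subset_isCompact hc fun x hx => ?_
    by_contra h6
    refine hx ?_
    have h7 : fderiv ℝ (fun x => χ x * p x) x = 0 := by
      by_contra h8
      exact h6 (support_fderiv_subset ℝ h8)
    ext i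
    rw [gd_apply]
    unfold pd
    rw [h7]
    rfl
  have h6 : ⟪((hT D φ : HD D) : L2E d), cl (gd fun x => χ x * p x)⟫ =
      ∫ x, ⟪(φ : En d → En d) x, gd (fun x => χ x * p x) x⟫ := by
    rw [hT_coe, cl_inner ((TS.ts φ).memLp 2) (hgc.memLp_of_hasCompactSupport hgs)]
  rw [h6] at h5
  rw [← h5]
  refine integral_congr_ae (Eventually.of_forall fun x => ?_)
  beta_reduce
  by_cases hx : x ∈ tsupport (φ : En d → En d)
  · have h7 : gd (fun x => χ x * p x) x = gd p x := by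
      ext i
      rw [gd_apply, gd_apply]
      unfold pd
      congr 1
      refine Filter.EventuallyEq.fderiv_eq ?_
      filter_upwards [hU.mem_nhds (hKU hx)] with y hy
      rw [hU1 y hy, one_mul]
    rw [h7, real_inner_comm]
  · rw [image_eq_zero_of_notMem_tsupport hx, inner_zero_left, inner_zero_right]

end

end Pool.Agent.Lib.MP_79abb3_an.W
end

section

/-!
Theorem W (MP_79abb3_an), block DE: the reference field of one move satisfies `Move`.
-/

set_option autoImplicit false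
set_option linter.unusedSectionVars false

open MeasureTheory Set Filter Topology Function
open scoped ENNReal RealInnerProductSpace

namespace Pool.Agent.Lib.MP_79abb3_an.W

section
variable {d : ℕ} {D : Set (En d)} {z : En d → ℝ} {δ : ℝ} {I : DIn d} {Ω N : Set (En d)} {κ₀ MS M CV δ' γ : ℝ}

theorem DIn.OK.cFo (hI : I.OK D Ω z κ₀ MS M CV δ' γ) (hD : IsOpen D) (hb : Bornology.IsBounded D) :
    Continuous (I.Fo D) := by
  have e1 : I.Fo D = fun t => (I.q ^ 12 * I.a t) • tp I.wv.α (fun j => LvD D (I.wv.p j)) (fun j => LvD D (I.wv.r j))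
      (I.q ^ 24 * t) + MuD D (fun x => I.χ x • ContinuousLinearMap.id ℝ (En d)) ∘L io D +
      I.b • (TvD D (I.R t) + TvD D (I.Se t)) := by
    funext t
    unfold DIn.Fo
    rw [I.wv.LvD_eq hD hb hI.bp hI.br]
  rw [e1]
  have ha : Continuous fun t => I.q ^ 12 * I.a t := continuous_const.mul hI.as.continuous
  have h1 : Continuous fun t => tp I.wv.α (fun j => LvD D (I.wv.p j)) (fun j => LvD D (I.wv.r j)) (I.q ^ 24 * t) :=
    (tp_cont _ _ _).comp (continuous_const.mul continuous_id)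
  exact ((ha.smul h1).add continuous_const).add
    (((hI.sR.map_cont hD (linD_TvD hD)).add (hI.sSe.map_cont hD (linD_TvD hD))).const_smul I.b)

theorem DIn.OK.cgo (hI : I.OK D Ω z κ₀ MS M CV δ' γ) (hD : IsOpen D) (hb : Bornology.IsBounded D) :
    Continuous (I.go D) := by
  have e1 : I.go D = fun t => -((I.q ^ 12 * I.a t) • I.asF D (I.q ^ 24 * t) t + I.sF D t + I.b • PcD D (I.r t)) := by
    funext t
    unfold DIn.go
    rw [I.wv.PcD_lieF hD hb hI.bp hI.br (hI.sSa.bd hD t)]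
    rfl
  rw [e1]
  have ha : Continuous fun t => I.q ^ 12 * I.a t := continuous_const.mul hI.as.continuous
  have h1 : Continuous fun t : ℝ => ((I.q ^ 24 * t, t) : ℝ × ℝ) := by fun_prop
  exact (((ha.smul ((hI.cas hD hb).comp h1)).add (hI.csF hD hb)).add
    ((hI.ss.map_cont hD (linD_PcD hD hb)).const_smul I.b)).neg

/-- the linear terms, tested -/
theorem DIn.OK.lin (hI : I.OK D Ω z κ₀ MS M CV δ' γ) (hd : d = 2 ∨ d = 3) (h : Dom D z δ)
    {t : ℝ} (ht : t ∈ Icc (0:ℝ) 1) (v : VD D) (φ : TS D) (hφ : tsupport (φ : En d → En d) ⊆ Ω) :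
    I.b * (bV D (vD D (I.u t)) v (vT D φ) + bV D v (vD D (I.u t)) (vT D φ)) = ⟪I.Fo D t v, hT D φ⟫ := by
  have hD := h.isOpen
  have hb := h.bdd
  have hU := I.wv.bdU hD hI.bp hI.br (I.q ^ 24 * t)
  have hR := hI.sR.bd hD t
  have hS := hI.sSe.bd hD t
  have hL := linD_TvD (d := d) hD
  have e1 : TvD D (I.u t) = (I.q ^ 12 * I.a t / I.b) • TvD D (I.wv.U (I.q ^ 24 * t)) + TvD D (I.R t) + TvD D (I.Se t) := by
    rw [hL.congr (I.u t) (fun x => (fun x => (I.q ^ 12 * I.a t / I.b) • I.wv.U (I.q ^ 24 * t) x + I.R t x) x + I.Se t x)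
      (hI.spl t ht), hL.add _ _ ((hU.const_smul hD _).add hD hR) hS, hL.add _ _ (hU.const_smul hD _) hR,
      hL.smul _ _ hU]
  have e2 : ⟪TvD D (I.wv.U (I.q ^ 24 * t)) v, hT D φ⟫ = ⟪LvD D (I.wv.U (I.q ^ 24 * t)) v, hT D φ⟫ := by
    have hDm : Bm D (Dm (I.wv.U (I.q ^ 24 * t))) := hU.bm_fderiv hD
    have hDt : Bm D (Dt (I.wv.U (I.q ^ 24 * t))) := (hU.Dt hD).bm hD
    unfold TvD LvD
    rw [inner_OpD hD.measurableSet (hU.bm hD) hDm, inner_OpD hD.measurableSet (hU.bm hD) hDt]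
    have h7 : (((hT D φ : HD D) : L2E d) : En d → En d) =ᵐ[volume] (φ : En d → En d) := cl_coe ((TS.ts φ).memLp 2)
    refine integral_congr_ae ?_
    filter_upwards [ae_restrict_of_ae h7, ae_restrict_mem hD.measurableSet] with x hx hxD
    rw [hx]
    by_cases hs : x ∈ tsupport (φ : En d → En d)
    · have hxΩ := hφ hs
      have h8 : Dm (I.wv.U (I.q ^ 24 * t)) x = Dt (I.wv.U (I.q ^ 24 * t)) x := by
        unfold Dm Dt
        refine ContinuousLinearMap.ext fun y => ext_inner_right ℝ fun w => ?_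
        rw [ContinuousLinearMap.adjoint_inner_left, I.wv.fderiv_U hD hI.bp hI.br _ hxD]
        simp only [sum_apply, add_apply, smul_apply, sum_inner, inner_sum, inner_add_left, inner_add_right,
          real_inner_smul_left, real_inner_smul_right]
        refine Finset.sum_congr rfl fun j _ => ?_
        rw [hI.sp j x hxΩ, hI.sr j x hxΩ, real_inner_comm y, real_inner_comm y]
      rw [h8]
    · rw [image_eq_zero_of_notMem_tsupport hs, inner_zero_right, inner_zero_right]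
  have e3 : ⟪MuD D (fun x => I.χ x • ContinuousLinearMap.id ℝ (En d)) (io D v), hT D φ⟫ = 0 := by
    rw [hI.inner_m hD]
    have h7 : (((hT D φ : HD D) : L2E d) : En d → En d) =ᵐ[volume] (φ : En d → En d) := cl_coe ((TS.ts φ).memLp 2)
    refine integral_eq_zero_of_ae ?_
    filter_upwards [ae_restrict_of_ae h7] with x hx
    rw [hx]
    by_cases hs : x ∈ tsupport (φ : En d → En d)
    · rw [hI.χs x (hφ hs), zero_mul]
      rfl
    · rw [image_eq_zero_of_notMem_tsupport hs, inner_zero_right, mul_zero]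
      rfl
  rw [bV_vD hd h (hI.su.bd hD t) (hI.du t ht) (hI.uz t ht), e1]
  unfold DIn.Fo
  have hs : ∀ (c : ℝ) (x y : HD D), ⟪c • x, y⟫ = c * ⟪x, y⟫ := fun c x y => real_inner_smul_left x y c
  simp only [_root_.add_apply, _root_.smul_apply, ContinuousLinearMap.comp_apply, inner_add_left, hs, e2, e3]
  have hb0 : I.b ≠ 0 := hI.b0.ne'
  field_simp
  ring

/-- the equation of the reference field, tested -/
theorem DIn.OK.ref (hI : I.OK D Ω z κ₀ MS M CV δ' γ) (hd : d = 2 ∨ d = 3) (h : Dom D z δ) (hΩ : IsOpen Ω)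
    {t : ℝ} (ht : t ∈ Icc (0:ℝ) 1) (φ : TS D) (hφ : tsupport (φ : En d → En d) ⊆ Ω) :
    ⟪PcD D (dtm I.u t), hT D φ⟫ + I.b * (⟪vD D (I.u t), vT D φ⟫ + bV D (vD D (I.u t)) (vD D (I.u t)) (vT D φ)) =
      -⟪I.go D t, hT D φ⟫ := by
  have hD := h.isOpen
  have hb := h.bdd
  have hu := hI.su.bd hD t
  have hu' := hI.su.dtm.bd hD t
  have hU := I.wv.bdU hD hI.bp hI.br (I.q ^ 24 * t)
  have hφT := (TS.ts φ).toIsTe
  -- the nonlinear term
  have e1 : bV D (vD D (I.u t)) (vD D (I.u t)) (vT D φ) =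
      ∫ x in D, ⟪fderiv ℝ (I.u t) x (I.u t x), (φ : En d → En d) x⟫ := by
    have h1 := bV_vD hd h hu (hI.du t ht) (hI.uz t ht) (vD D (I.u t)) φ
    have hDm : Bm D (Dm (I.u t)) := hu.bm_fderiv hD
    unfold TvD at h1
    rw [inner_OpD hD.measurableSet (hu.bm hD) hDm] at h1
    have hs := vD_spec h hu (hI.du t ht) (hI.uz t ht)
    have hv1 : (((io D (vD D (I.u t)) : HD D) : L2E d) : En d → En d) =ᵐ[volume] D.indicator (I.u t) := by
      rw [hs.1]
      exact clI_coe hb (hu.bm hD)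
    have hv2 : ∀ i, (gi (vD D (I.u t)) i : En d → En d) =ᵐ[volume] D.indicator (pd i (I.u t)) := fun i => by
      rw [hs.2 i]
      exact clI_coe hb ((hu.pd hD i).bm hD)
    have h7 : (((hT D φ : HD D) : L2E d) : En d → En d) =ᵐ[volume] (φ : En d → En d) := cl_coe ((TS.ts φ).memLp 2)
    have h2 : ∫ x in D, ⟪(∑ i, I.u t x i • (gi (vD D (I.u t)) i : En d → En d) x) +
        Dm (I.u t) x ((((io D (vD D (I.u t)) : HD D) : L2E d) : En d → En d) x),
          (((hT D φ : HD D) : L2E d) : En d → En d) x⟫ =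
        2 * ∫ x in D, ⟪fderiv ℝ (I.u t) x (I.u t x), (φ : En d → En d) x⟫ := by
      rw [← integral_const_mul]
      refine integral_congr_ae ?_
      filter_upwards [ae_restrict_of_ae hv1, ae_restrict_of_ae (ae_all_iff.2 hv2), ae_restrict_of_ae h7,
        ae_restrict_mem hD.measurableSet] with x g1 g2 g3 g4
      rw [g1, g3, indicator_of_mem g4]
      have g5 : (∑ i, I.u t x i • (gi (vD D (I.u t)) i : En d → En d) x) = fderiv ℝ (I.u t) x (I.u t x) := by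
        rw [fderiv_eq_sum]
        refine Finset.sum_congr rfl fun i _ => ?_
        rw [g2 i, indicator_of_mem g4]
      rw [g5, inner_add_left]
      show ⟪fderiv ℝ (I.u t) x (I.u t x), (φ : En d → En d) x⟫ + ⟪fderiv ℝ (I.u t) x (I.u t x), (φ : En d → En d) x⟫ = _
      ring
    linarith
  obtain ⟨p, hp, heq⟩ := hI.eq t ht
  have hpt : ∀ {f : En d → En d}, BD D f → IntegrableOn (fun x => ⟪f x, (φ : En d → En d) x⟫) D := by
    intro f hf
    have h4 : IsTe D (fun x => ⟪f x, (φ : En d → En d) x⟫) := IsTe.bilin hD (innerSL ℝ) hf.1 hφT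
    exact h4.integrable.integrableOn
  have hsmul : ∀ (c : ℝ) (f : En d → En d), ∫ x in D, ⟪c • f x, (φ : En d → En d) x⟫ =
      c * ∫ x in D, ⟪f x, (φ : En d → En d) x⟫ := by
    intro c f
    rw [← integral_const_mul]
    exact integral_congr_ae (Eventually.of_forall fun x => real_inner_smul_left _ _ _)
  have hadd : ∀ {f g : En d → En d}, BD D f → BD D g → ∫ x in D, ⟪f x + g x, (φ : En d → En d) x⟫ =
      (∫ x in D, ⟪f x, (φ : En d → En d) x⟫) + ∫ x in D, ⟪g x, (φ : En d → En d) x⟫ := by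
    intro f g hf hg
    rw [← integral_add (hpt hf) (hpt hg)]
    exact integral_congr_ae (Eventually.of_forall fun x => inner_add_left _ _ _)
  have hconv : BD D fun x => fderiv ℝ (I.u t) x (I.u t x) := (hu.fderiv hD).apply hD hu
  have hlap : BD D (lap (I.u t)) := hu.lap1 hD
  have hr := hI.ss.bd hD t
  have hSa := hI.sSa.dtm.bd hD t
  have hlie : BD D (lieF (I.wv.U (I.q ^ 24 * t)) (I.Sa t)) := hU.lieF hD (hI.sSa.bd hD t)
  -- the pressure
  have e2 : ∫ x in D, ⟪gd p x, (φ : En d → En d) x⟫ = 0 := by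
    rw [setIntegral_eq_integral_of_forall_compl_eq_zero
      (fun x hx => by rw [hφT.zero_off hx, inner_zero_right])]
    exact gd_test hΩ hp φ hφ
  have hgi : IntegrableOn (fun x => ⟪gd p x, (φ : En d → En d) x⟫) D := by
    have h1 : IsTe Ω (φ : En d → En d) := ⟨hφT.smooth, hφT.cpt, hφ⟩
    have hgp : ContDiffOn ℝ ((⊤ : ℕ∞) : WithTop ℕ∞) (gd p) Ω := by
      have h2 : ContDiffOn ℝ ((⊤ : ℕ∞) : WithTop ℕ∞) (fderiv ℝ p) Ω := hp.fderiv_of_isOpen hΩ (by exact_mod_cast le_top)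
      rw [contDiffOn_euclidean]
      intro i
      have h3 : ContDiffOn ℝ ((⊤ : ℕ∞) : WithTop ℕ∞) (fun x => fderiv ℝ p x (ei i)) Ω := h2.clm_apply contDiffOn_const
      exact h3.congr fun x _ => gd_apply p x i
    have h4 : IsTe Ω (fun x => ⟪gd p x, (φ : En d → En d) x⟫) := IsTe.bilin hΩ (innerSL ℝ) hgp h1
    exact h4.integrable.integrableOn
  -- the equation, integrated
  have e3 : ∫ x in D, ⟪dtm I.u t x + I.b • (fderiv ℝ (I.u t) x (I.u t x) - lap (I.u t) x), (φ : En d → En d) x⟫ =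
      ∫ x in D, (⟪I.b • I.r t x + dtm I.Sa t x + (I.q ^ 12 * I.a t) • lieF (I.wv.U (I.q ^ 24 * t)) (I.Sa t) x,
        (φ : En d → En d) x⟫ + ⟪gd p x, (φ : En d → En d) x⟫) := by
    refine integral_congr_ae (Eventually.of_forall fun x => ?_)
    beta_reduce
    by_cases hs : x ∈ tsupport (φ : En d → En d)
    · rw [heq x (hφ hs), ← inner_add_left]
    · rw [image_eq_zero_of_notMem_tsupport hs]
      simp only [inner_zero_right, add_zero]
  have hL3 : BD D fun x => I.b • I.r t x + dtm I.Sa t x + (I.q ^ 12 * I.a t) • lieF (I.wv.U (I.q ^ 24 * t)) (I.Sa t) x :=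
    ((hr.const_smul hD _).add hD hSa).add hD (hlie.const_smul hD _)
  rw [integral_add (hpt hL3) hgi, e2, add_zero] at e3
  have e4 : ∫ x in D, ⟪dtm I.u t x + I.b • (fderiv ℝ (I.u t) x (I.u t x) - lap (I.u t) x), (φ : En d → En d) x⟫ =
      (∫ x in D, ⟪dtm I.u t x, (φ : En d → En d) x⟫) + I.b * ((∫ x in D, ⟪fderiv ℝ (I.u t) x (I.u t x),
        (φ : En d → En d) x⟫) + -∫ x in D, ⟪lap (I.u t) x, (φ : En d → En d) x⟫) := by
    have h1 : BD D fun x => fderiv ℝ (I.u t) x (I.u t x) - lap (I.u t) x := hconv.sub hD hlap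
    rw [hadd hu' (h1.const_smul hD _), hsmul]
    congr 2
    have h2 : ∫ x in D, ⟪fderiv ℝ (I.u t) x (I.u t x) - lap (I.u t) x, (φ : En d → En d) x⟫ =
        ∫ x in D, ⟪fderiv ℝ (I.u t) x (I.u t x) + (-1 : ℝ) • lap (I.u t) x, (φ : En d → En d) x⟫ := by
      refine integral_congr_ae (Eventually.of_forall fun x => ?_)
      beta_reduce
      rw [neg_one_smul, ← sub_eq_add_neg]
    rw [h2, hadd hconv (hlap.const_smul hD _), hsmul]
    ring
  have e5 : ∫ x in D, ⟪I.b • I.r t x + dtm I.Sa t x + (I.q ^ 12 * I.a t) • lieF (I.wv.U (I.q ^ 24 * t)) (I.Sa t) x,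
        (φ : En d → En d) x⟫ = I.b * (∫ x in D, ⟪I.r t x, (φ : En d → En d) x⟫) +
      (∫ x in D, ⟪dtm I.Sa t x, (φ : En d → En d) x⟫) + (I.q ^ 12 * I.a t) *
        ∫ x in D, ⟪lieF (I.wv.U (I.q ^ 24 * t)) (I.Sa t) x, (φ : En d → En d) x⟫ := by
    rw [hadd ((hr.const_smul hD _).add hD hSa) (hlie.const_smul hD _), hadd (hr.const_smul hD _) hSa, hsmul, hsmul]
  have e6 : ⟪PcD D (fun x => dtm I.Sa t x + I.fN t x), hT D φ⟫ = ∫ x in D, ⟪dtm I.Sa t x, (φ : En d → En d) x⟫ := by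
    rw [inner_PcD_hT hD hb ((hI.ssF.bd hD t).bm hD)]
    refine integral_congr_ae (Eventually.of_forall fun x => ?_)
    beta_reduce
    by_cases hs : x ∈ tsupport (φ : En d → En d)
    · rw [hI.fNs t ht x (hφ hs), add_zero]
    · rw [image_eq_zero_of_notMem_tsupport hs, inner_zero_right, inner_zero_right]
  have hgo : ⟪I.go D t, hT D φ⟫ = -((I.q ^ 12 * I.a t) * ⟪PcD D (lieF (I.wv.U (I.q ^ 24 * t)) (I.Sa t)), hT D φ⟫ +
      ⟪PcD D (fun x => dtm I.Sa t x + I.fN t x), hT D φ⟫ + I.b * ⟪PcD D (I.r t), hT D φ⟫) := by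
    unfold DIn.go
    have hs : ∀ (c : ℝ) (x y : HD D), ⟪c • x, y⟫ = c * ⟪x, y⟫ := fun c x y => real_inner_smul_left x y c
    rw [inner_neg_left, inner_add_left, inner_add_left, hs, hs]
  rw [e1, inner_vD h hu (hI.du t ht) (hI.uz t ht), inner_PcD_hT hD hb (hu'.bm hD), hgo,
    inner_PcD_hT hD hb (hlie.bm hD), e6, inner_PcD_hT hD hb (hr.bm hD)]
  rw [e4, e5] at e3
  linarith

/-- **The reference field.** -/
theorem DIn.OK.move (hd : d = 2 ∨ d = 3) (h : Dom D z δ)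
    (hI : I.OK D Ω z κ₀ MS M CV δ' γ) (hN : D \ closure N ⊆ Ω) :
    Move D N I.b (I.Fo D) (I.go D) (fun t => vD D (I.u t)) (fun t => PcD D (dtm I.u t)) := by
  have hD := h.isOpen
  have hb := h.bdd
  refine ⟨(hI.cFo hD hb).continuousOn, (hI.cgo hD hb).continuousOn, vD_cont h hI.su hI.du hI.uz,
    (hI.su.dtm.map_cont hD (linD_PcD hD hb)).continuousOn, fun φ s t hs hst ht => ?_, fun t ht v φ hφ => ?_⟩
  · have hs' : s ∈ Icc (0:ℝ) 1 := ⟨hs, hst.trans ht⟩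
    have ht' : t ∈ Icc (0:ℝ) 1 := ⟨hs.trans hst, ht⟩
    rw [io_vD h (hI.su.bd hD t) (hI.du t ht') (hI.uz t ht'), io_vD h (hI.su.bd hD s) (hI.du s hs') (hI.uz s hs')]
    have hL : LinD D fun f : En d → En d => ⟪PcD D f, hT D φ⟫ := by
      have h1 := (linD_PcD (d := d) hD hb).comp (innerSL ℝ (hT D φ))
      refine ⟨fun f g hfg => ?_, fun f g hf hg => ?_, fun c f hf => ?_⟩
      · have h2 := h1.congr f g hfg
        simp only [innerSL_apply_apply] at h2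
        rw [real_inner_comm, h2, real_inner_comm]
      · have h2 := h1.add f g hf hg
        simp only [innerSL_apply_apply] at h2
        rw [real_inner_comm, h2, real_inner_comm, real_inner_comm (PcD D g)]
      · have h2 := h1.smul c f hf
        simp only [innerSL_apply_apply] at h2
        rw [real_inner_comm, h2, real_inner_comm]
    exact hI.su.map_integral hD hL s t
  · -- the support of `φ`
    set O : Set (En d) := D \ closure N with hO
    have hOo : IsOpen O := hD.sdiff isClosed_closure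
    have hφO : tsupport (φ : En d → En d) ⊆ O := fun x hx =>
      ⟨(TS.ts φ).supp hx, fun h' => (Set.disjoint_left.1 hφ hx) h'⟩
    -- restrict the hypotheses to `O`
    have hI' : I.OK D O z κ₀ MS M CV δ' γ :=
      { hI with
        sp := fun j x hx => hI.sp j x (hN hx)
        sr := fun j x hx => hI.sr j x (hN hx)
        fNs := fun t ht x hx => hI.fNs t ht x (hN hx)
        χs := fun x hx => hI.χs x (hN hx)
        eq := fun t ht => by
          obtain ⟨p, hp, he⟩ := hI.eq t ht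
          exact ⟨p, hp.mono hN, fun x hx => he x (hN hx)⟩ }
    have h1 := hI'.ref hd h hOo ht φ hφO
    have h2 := hI'.lin hd h ht v φ hφO
    rw [inner_sub_left, ← h2]
    linarith

end

end Pool.Agent.Lib.MP_79abb3_an.W
end

section

/-!
Theorem W, block EM: the energy estimate for the regularised solutions and for the limit.
-/

set_option autoImplicit false
set_option linter.unusedSectionVars false

open MeasureTheory Set Filter Topology Function
open scoped ENNReal InnerProductSpace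

namespace Pool.Agent.Lib.MP_79abb3_an.W

section
variable {H V : Type} [NormedAddCommGroup H] [InnerProductSpace ℝ H] [CompleteSpace H]
  [NormedAddCommGroup V] [InnerProductSpace ℝ V] [CompleteSpace V]

/-- A solution of the regularised system is a solution in the sense of `EData`. Proof: `RSol` unfolds to the tested
equation with `Rhs = g - F e - N (ι e) e`; `RSol.energy`. -/
theorem sol_of_rsol {E : EData H V} {F : ℝ → V →L[ℝ] H} {g : ℝ → H} {N : H →L[ℝ] V →L[ℝ] H}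
    (hN : ∀ u v, ⟪N u v, E.ι v⟫_ℝ = 0)
    (hR : ∀ t ∈ Icc (0:ℝ) 1, ∀ e φ : V, E.R t e φ = E.b * ⟪e, φ⟫_ℝ + ⟪F t e + N (E.ι e) e - g t, E.ι φ⟫_ℝ)
    {e : ℝ → V} (he : RSol E.ι E.b F g N 0 1 e) : E.Sol e := by
  refine ⟨he.cont, fun φ t₁ t₂ h1 h2 h3 => ?_, fun t₁ t₂ h1 h2 h3 => ?_⟩
  · rw [he.eq φ t₁ t₂ h1 h2 h3, ← intervalIntegral.integral_neg]
    refine intervalIntegral.integral_congr fun r hr => ?_
    rw [uIcc_of_le h2] at hr
    have hr' : r ∈ Icc (0:ℝ) 1 := ⟨h1.trans hr.1, hr.2.trans h3⟩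
    rw [hR r hr' (e r) φ, Rhs, show g r - F r (e r) - N (E.ι (e r)) (e r) =
      -(F r (e r) + N (E.ι (e r)) (e r) - g r) by abel, inner_neg_left]
    ring
  · have h4 := RSol.energy hN he h1 h2 h3
    have h5 : (1 / 2 : ℝ) * ‖E.ι (e t₂)‖ ^ 2 - 1 / 2 * ‖E.ι (e t₁)‖ ^ 2 =
        ∫ r in t₁..t₂, (-(E.b * ‖e r‖ ^ 2) + ⟪g r - F r (e r), E.ι (e r)⟫_ℝ) := by
      rw [← mul_sub, h4]; ring
    rw [h5, ← intervalIntegral.integral_neg]
    refine intervalIntegral.integral_congr fun r hr => ?_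
    rw [uIcc_of_le h2] at hr
    have hr' : r ∈ Icc (0:ℝ) 1 := ⟨h1.trans hr.1, hr.2.trans h3⟩
    rw [hR r hr' (e r) (e r), show F r (e r) + N (E.ι (e r)) (e r) - g r =
      N (E.ι (e r)) (e r) - (g r - F r (e r)) by abel,
      inner_sub_left (N (E.ι (e r)) (e r)), hN, zero_sub, real_inner_self_eq_norm_sq]
    ring

/-- The bound for one regularised solution. -/
private theorem emi_bound (K : ℝ) : ∃ C q₁ : ℝ, 0 ≤ C ∧ 1 ≤ q₁ ∧ ∀ (ι : V →L[ℝ] H) (q b : ℝ)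
    (K₀ CV δ γ : ℝ) (F : ℝ → V →L[ℝ] H) (g : ℝ → H) (N : H →L[ℝ] V →L[ℝ] H), q₁ ≤ q →
    (∀ u v, ⟪N u v, ι v⟫_ℝ = 0) →
    (∃ E : EData H V, E.ι = ι ∧ E.q = q ∧ E.b = b ∧ E.OK K₀ K CV δ γ ∧
        ∀ t ∈ Icc (0:ℝ) 1, ∀ e φ : V, E.R t e φ = b * ⟪e, φ⟫_ℝ + ⟪F t e + N (ι e) e - g t, ι φ⟫_ℝ) →
    ∀ e : ℝ → V, RSol ι b F g N 0 1 e →
    Real.exp (4 * CV) * (‖ι (e 0)‖ ^ 2 + 2 * δ * K₀ + 2 * K₀ ^ 3 * b + 2 * γ ^ 2 / b + C / q) ≤
      K₀ ^ 2 / 2 →
    ∀ t ∈ Icc (0:ℝ) 1, ‖ι (e t)‖ ^ 2 + b / 2 * (∫ r in (0:ℝ)..t, ‖e r‖ ^ 2) ≤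
      Real.exp (4 * CV) * (‖ι (e 0)‖ ^ 2 + 2 * δ * K₀ + 2 * K₀ ^ 3 * b + 2 * γ ^ 2 / b + C / q) := by
  obtain ⟨C, q₁, hC, hq₁, hest⟩ := EData.energy_est (H := H) (V := V) K
  refine ⟨C, q₁, hC, hq₁, ?_⟩
  rintro ι q b K₀ CV δ γ F g N hq hN ⟨E, rfl, rfl, rfl, hOK, hR⟩ e he hs
  exact hest E K₀ CV δ γ hOK hq e (sol_of_rsol hN hR he) hs

/-- **One move, abstract form.** `N_m` are the regularised nonlinearities, `E_m` the data of the energy estimate.
The limit solution starts in `x₀` and ends at a point of norm `≤ exp(2 CV) ‖x₀‖ + √ε`. Proof: `v_m ∈ V` with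
`ι v_m → x₀`; `reg_exists`; `sol_of_rsol`; `energy_est` (for `m` large the hypothesis holds); `reg_limit`; the norm of the
weak limit. -/
theorem move_abs {ι : V →L[ℝ] H} (hι : IsTri ι) {nq : V → ℝ} (hq : IsQ ι nq) (K : ℝ) : ∃ q₀ : ℝ → ℝ,
    ∀ (K₀ CV δ γ ε q b : ℝ) (F : ℝ → V →L[ℝ] H) (g : ℝ → H) (N : ℕ → H →L[ℝ] V →L[ℝ] H)
      (c : V → V → V → ℝ) (x₀ : H), 0 < ε → q₀ ε ≤ q → 0 ≤ CV → 1 ≤ K₀ → CV ≤ K → 
      ContinuousOn F (Icc 0 1) → ContinuousOn g (Icc 0 1) → (∀ j, NB ι nq (N j)) →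
      (∀ u v p, Tendsto (fun j => ⟪N j (ι u) v, ι p⟫_ℝ) atTop (𝓝 (c u v p))) →
      (∀ m, ∃ E : EData H V, E.ι = ι ∧ E.q = q ∧ E.b = b ∧ E.OK K₀ K CV δ γ ∧
        ∀ t ∈ Icc (0:ℝ) 1, ∀ e φ : V, E.R t e φ = b * ⟪e, φ⟫_ℝ + ⟪F t e + N m (ι e) e - g t, ι φ⟫_ℝ) →
      Real.exp (4 * CV) * (2 * δ * K₀ + 2 * K₀ ^ 3 * b + 2 * γ ^ 2 / b) ≤ ε →
      Real.exp (4 * CV) * ‖x₀‖ ^ 2 + 3 * ε ≤ K₀ ^ 2 / 2 →
      ∃ (x : ℝ → H) (v : ℝ → V), LSol ι b F g c 0 1 x₀ x v ∧
        ‖x 1‖ ^ 2 ≤ Real.exp (4 * CV) * ‖x₀‖ ^ 2 + 3 * ε := by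
  obtain ⟨C, q₁, hC, hq₁, hest⟩ := emi_bound (H := H) (V := V) K
  refine ⟨fun ε => max q₁ (Real.exp (4 * K) * C / ε), ?_⟩
  intro K₀ CV δ γ ε q b F g N c x₀ hε hq2 hCV hK₀ hCVK hF hg hN hc hE hsm hbig
  have hqq : q₁ ≤ q := (le_max_left _ _).trans hq2
  have hqε : Real.exp (4 * K) * C / ε ≤ q := (le_max_right _ _).trans hq2
  have hq0 : 0 < q := lt_of_lt_of_le one_pos (hq₁.trans hqq)
  have hb0 : 0 < b := by
    obtain ⟨E, _, _, h3, h4, _⟩ := hE 0
    rw [← h3]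
    exact h4.b0
  have hexp : 0 < Real.exp (4 * CV) := Real.exp_pos _
  have hCq : Real.exp (4 * CV) * (C / q) ≤ ε := by
    have h1 : Real.exp (4 * CV) ≤ Real.exp (4 * K) := Real.exp_le_exp.2 (by linarith)
    have h2 : Real.exp (4 * CV) * (C / q) ≤ Real.exp (4 * K) * (C / q) :=
      mul_le_mul_of_nonneg_right h1 (by positivity)
    refine h2.trans ?_
    rw [mul_div_assoc', div_le_iff₀ hq0]
    rw [div_le_iff₀ hε] at hqε
    linarith [mul_comm ε q]
  -- initial values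
  obtain ⟨w, hw⟩ : ∃ w : ℕ → V, Tendsto (fun m => ι (w m)) atTop (𝓝 x₀) := by
    obtain ⟨u, hu, hu2⟩ := mem_closure_iff_seq_limit.1 (hι.dense x₀)
    choose w hw using hu
    exact ⟨w, by simpa only [hw] using hu2⟩
  have hev : ∀ᶠ m in atTop, Real.exp (4 * CV) * ‖ι (w m)‖ ^ 2 < Real.exp (4 * CV) * ‖x₀‖ ^ 2 + ε := by
    have h1 : Tendsto (fun m => Real.exp (4 * CV) * ‖ι (w m)‖ ^ 2) atTop (𝓝 (Real.exp (4 * CV) * ‖x₀‖ ^ 2)) :=
      (hw.norm.pow 2).const_mul _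
    exact h1.eventually_lt_const (by linarith)
  obtain ⟨m₀, hm₀⟩ := eventually_atTop.1 hev
  set B : ℝ := Real.exp (4 * CV) * ‖x₀‖ ^ 2 + 3 * ε with hB
  have hB0 : 0 ≤ B := by positivity
  have hNa : ∀ j u v, ⟪N j u v, ι v⟫_ℝ = 0 := fun j u v => (hN j).skew u v
  choose e he he0 using fun m => reg_exists (N := N m) hι hb0 zero_le_one hF hg (hNa m) (w (m + m₀))
  have hbd : ∀ m, ∀ t ∈ Icc (0:ℝ) 1, ‖ι (e m t)‖ ^ 2 + b / 2 * (∫ r in (0:ℝ)..t, ‖e m r‖ ^ 2) ≤ B := by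
    intro m t ht
    have h1 : Real.exp (4 * CV) * (‖ι (e m 0)‖ ^ 2 + 2 * δ * K₀ + 2 * K₀ ^ 3 * b + 2 * γ ^ 2 / b + C / q) ≤ B := by
      have h2 := hm₀ (m + m₀) (Nat.le_add_left _ _)
      rw [he0 m]
      have h3 : Real.exp (4 * CV) * (‖ι (w (m + m₀))‖ ^ 2 + 2 * δ * K₀ + 2 * K₀ ^ 3 * b + 2 * γ ^ 2 / b + C / q) =
          Real.exp (4 * CV) * ‖ι (w (m + m₀))‖ ^ 2 +
            Real.exp (4 * CV) * (2 * δ * K₀ + 2 * K₀ ^ 3 * b + 2 * γ ^ 2 / b) +
            Real.exp (4 * CV) * (C / q) := by ring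
      rw [h3, hB]
      linarith
    exact (hest ι q b K₀ CV δ γ F g (N m) hqq (hNa m) (hE m) (e m) (he m) (h1.trans hbig) t ht).trans h1
  have hint0 : ∀ m, ∀ t : ℝ, 0 ≤ t → 0 ≤ ∫ r in (0:ℝ)..t, ‖e m r‖ ^ 2 := fun m t ht =>
    intervalIntegral.integral_nonneg ht fun _ _ => by positivity
  set M : ℝ := max (√B) (2 * B / b) with hMdef
  have hM1 : ∀ m, ∀ t ∈ Icc (0:ℝ) 1, ‖ι (e m t)‖ ≤ √B := by
    intro m t ht
    refine Real.le_sqrt_of_sq_le ?_
    have h1 := hbd m t ht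
    have h2 : 0 ≤ b / 2 * ∫ r in (0:ℝ)..t, ‖e m r‖ ^ 2 := mul_nonneg (by linarith) (hint0 m t ht.1)
    linarith
  have hM2 : ∀ m, ∫ t in (0:ℝ)..1, ‖e m t‖ ^ 2 ≤ 2 * B / b := by
    intro m
    have h1 := hbd m 1 (right_mem_Icc.2 zero_le_one)
    rw [le_div_iff₀ hb0]
    have h2 : 0 ≤ ‖ι (e m 1)‖ ^ 2 := by positivity
    linarith [mul_comm (∫ t in (0:ℝ)..1, ‖e m t‖ ^ 2) b]
  obtain ⟨φ, x, v, hφ, hL, -, -, hl, -⟩ := reg_limit (M := M) hι hq hb0 zero_le_one hF hg hN hc he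
    (fun j t ht => (hM1 j t ht).trans (le_max_left _ _)) (fun j => (hM2 j).trans (le_max_right _ _))
    (x₀ := x₀) (fun h => by
      have h1 : Tendsto (fun j => ι (w (j + m₀))) atTop (𝓝 x₀) := hw.comp (tendsto_add_atTop_nat m₀)
      simp only [he0]
      exact h1.inner tendsto_const_nhds)
  refine ⟨x, v, hL, ?_⟩
  have h1 := hl 1 (right_mem_Icc.2 zero_le_one) (x 1)
  have h2 : ⟪x 1, x 1⟫_ℝ ≤ √B * ‖x 1‖ := by
    refine le_of_tendsto h1 (Eventually.of_forall fun j => ?_)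
    refine (real_inner_le_norm _ _).trans ?_
    exact mul_le_mul_of_nonneg_right (hM1 (φ j) 1 (right_mem_Icc.2 zero_le_one)) (norm_nonneg _)
  rw [real_inner_self_eq_norm_sq] at h2
  have h3 : ‖x 1‖ ≤ √B := by
    rcases (norm_nonneg (x 1)).eq_or_lt with h0 | h0
    · rw [← h0]; exact Real.sqrt_nonneg _
    · rw [pow_two] at h2
      exact le_of_mul_le_mul_right h2 h0
  calc ‖x 1‖ ^ 2 ≤ √B ^ 2 := pow_le_pow_left₀ (norm_nonneg _) h3 2
    _ = B := Real.sq_sqrt hB0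

end

end Pool.Agent.Lib.MP_79abb3_an.W
end
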