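import Pool.Agent.Lib.MP_79abb3_an.W.EGDef
import Pool.Agent.Lib.MP_79abb3_an.W.EG5
import Pool.Agent.Lib.MP_79abb3_an.W.EG4
import Pool.Agent.Lib.MP_79abb3_an.W.DEk
import Pool.Agent.Lib.MP_79abb3_an.W.EMi
import Pool.Agent.Lib.MP_79abb3_an.W.P0f1
import Pool.Agent.Lib.MP_79abb3_an.W.CXd
import Pool.Agent.Lib.MP_79abb3_an.W.DX4
import Pool.Agent.Lib.MP_79abb3_an.W.FZ
import Pool.Agent.Lib.MP_79abb3_an.W.EFd

section

/-!
Theorem W (MP_79abb3_an), block EG (the reference fields of one move): initial and final values.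
-/

set_option autoImplicit false
set_option linter.unusedSectionVars false

open MeasureTheory Set Filter Topology Function
open scoped ENNReal RealInnerProductSpace

namespace Pool.Agent.Lib.MP_79abb3_an.W

variable {d : ℕ} {X : Fld d} {D : Set (En d)} {z : En d → ℝ} {δ : ℝ}

/-- **The initial and the final value**: the layers and the waves vanish where the amplitude vanishes (`lay.van`), and
`PcD (Y t) = PcD (F t)`. -/
theorem Fld.OK.ends (h : X.OK D) {e t : ℝ} (he : e ∈ Ioc (0:ℝ) 1) (ht : X.a t = 0) :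
    PcD D (X.u e t) = PcD D (X.F t) - PcD D (X.co t) := by
  have hdom := h.stg.dom
  have hD : IsOpen D := hdom.isOpen
  have hap : X.ap (X.b * t) = 0 := by
    show (√X.b)⁻¹ * X.a (X.b * t / X.b) = 0
    rw [mul_div_cancel_left₀ t h.b0.ne', ht, mul_zero]
  have hu : ∀ x ∈ D, X.u e t x = X.Y t x + (-1 : ℝ) • X.co t x := by
    intro x _
    have h1 : X.uu e (X.b * t) x = 0 := h.lay.van e (X.b * t) x hap
    show X.uu e (X.b * t) x + (X.Y t x - X.co t x) = _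
    rw [h1, zero_add, neg_one_smul, sub_eq_add_neg]
  have bY : BD D (X.Y t) := (h.lr t).bd
  have bF : BD D (X.F t) := by
    obtain ⟨n, c, g, hc, hg, hf⟩ := h.sF
    exact BD.congr hD (BD.sum hD Finset.univ fun k _ => BD.const_smul hD (c k t) (hg k))
      fun x hx => (hf t x hx).symm
  have bc : BD D (X.co t) := corr_bd hdom h.ρ0 bY
  rw [pcd_congr hu, pcd_add hdom bY (BD.const_smul hD (-1) bc), pcd_smul hdom (-1) bc, neg_one_smul,
    ← sub_eq_add_neg, ((h.lr t).pcd hdom bF).1]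

end Pool.Agent.Lib.MP_79abb3_an.W
end

section

/-!
Theorem W (MP_79abb3_an), block EG (the reference fields of one move): the slow equation, pointwise.
-/

set_option autoImplicit false
set_option linter.unusedSectionVars false

open MeasureTheory Set Filter Topology Function
open scoped ENNReal RealInnerProductSpace

namespace Pool.Agent.Lib.MP_79abb3_an.W

variable {d : ℕ} {X : Fld d} {D : Set (En d)} {z : En d → ℝ} {δ : ℝ}

private theorem eg8_lie {u f : En d → En d} {x : En d} {A B : ℝ} (h1 : ‖u x‖ ≤ A) (h2 : ‖fderiv ℝ u x‖ ≤ A)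
    (h3 : ‖f x‖ ≤ B) (h4 : ‖fderiv ℝ f x‖ ≤ B) : ‖lieF u f x‖ ≤ 2 * A * B := by
  unfold lieF
  have hA : 0 ≤ A := (norm_nonneg _).trans h1
  have hB : 0 ≤ B := (norm_nonneg _).trans h3
  have e1 : ‖fderiv ℝ f x (u x)‖ ≤ B * A :=
    (ContinuousLinearMap.le_opNorm _ _).trans (mul_le_mul h4 h1 (norm_nonneg _) hB)
  have e2 : ‖ContinuousLinearMap.adjoint (fderiv ℝ u x) (f x)‖ ≤ A * B := by
    refine (ContinuousLinearMap.le_opNorm _ _).trans ?_
    rw [LinearIsometryEquiv.norm_map]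
    exact mul_le_mul h2 h3 (norm_nonneg _) hA
  calc ‖fderiv ℝ f x (u x) + ContinuousLinearMap.adjoint (fderiv ℝ u x) (f x)‖
      ≤ ‖fderiv ℝ f x (u x)‖ + ‖ContinuousLinearMap.adjoint (fderiv ℝ u x) (f x)‖ := norm_add_le _ _
    _ ≤ B * A + A * B := add_le_add e1 e2
    _ = 2 * A * B := by ring

/-- linearity in the vector field -/
private theorem eg8_left {u v f : En d → En d} {x : En d} (hu : DifferentiableAt ℝ u x)
    (hv : DifferentiableAt ℝ v x) : lieF (fun y => u y - v y) f x = lieF u f x - lieF v f x := by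
  unfold lieF
  rw [fderiv_fun_sub hu hv, map_sub, map_sub, sub_apply]
  abel

/-- linearity in the one form -/
private theorem eg8_right {u f g : En d → En d} {x : En d} (hf : DifferentiableAt ℝ f x)
    (hg : DifferentiableAt ℝ g x) : lieF u (fun y => f y + g y) x = lieF u f x + lieF u g x := by
  unfold lieF
  rw [fderiv_fun_add hf hg, map_add, add_apply]
  abel

/-- the part of the slow equation with the corrector: near the walls `V₀ = 0`, `DV₀ = 0`, and the corrector vanishes for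
`z ≥ 2ρ`; so `‖lieF Vb (co t)‖ ≤ 2 (εC + C e) Kc` in `D` -/
theorem Fld.OK.lie_co (h : X.OK D) : ∃ C : ℝ, 0 ≤ C ∧ ∀ e ∈ Ioc (0:ℝ) 1, ∀ t ∈ Icc (0:ℝ) 1, ∀ x ∈ D,
    ‖lieF (X.Wv e).Vb (X.co t) x‖ ≤ 2 * (X.εC + C * e) * X.Kc := by
  have hD : IsOpen D := h.stg.dom.col.isOpen
  obtain ⟨C, hC0, hC⟩ := h.Vb_close
  refine ⟨C, hC0, fun e he t ht x hx => ?_⟩
  have he0 : 0 < e := he.1
  have hY : BD D (X.Y t) := h.sY.bd hD t
  rcases le_or_gt (X.z x) (2 * X.ρ) with hle | hgt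
  · have hxB : x ∉ X.B := by
      intro hB
      have h1 := h.stg.far x hB
      have h2 := h.ρδ
      have h3 := h.ρ0
      linarith
    obtain ⟨v0, v1⟩ := h.V₀z x hx hle
    have hb := hC e he
    have k0 : ‖(X.Wv e).Vb x - X.V₀ x‖ ≤ X.εC + C * e := hb.le0 (x := x) ⟨hx, hxB⟩
    have k1 : ‖fderiv ℝ (fun y => (X.Wv e).Vb y - X.V₀ y) x‖ ≤ X.εC + C * e :=
      Bk.le1 (k := 0) hb (x := x) ⟨hx, hxB⟩
    rw [fderiv_fun_sub ((h.bd_Vb e).differentiableAt hD hx) (h.V₀b.differentiableAt hD hx), v1, sub_zero] at k1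
    rw [v0, sub_zero] at k0
    exact eg8_lie (u := (X.Wv e).Vb) (f := X.co t) (x := x) k0 k1 ((h.bco t ht).le0 hx)
      (Bk.le1 (k := 0) (h.bco t ht) hx)
  · have ho : IsOpen (D ∩ {y | 2 * X.ρ < X.z y}) :=
      hD.inter (isOpen_lt continuous_const h.stg.dom.smo.continuous)
    have hz : X.co t =ᶠ[𝓝 x] fun _ => (0 : En d) :=
      Filter.eventuallyEq_of_mem (ho.mem_nhds ⟨hx, hgt⟩) fun y hy =>
        corr_zero h.stg.dom h.ρ0 hY hy.1 (le_of_lt hy.2)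
    have h1 : lieF (X.Wv e).Vb (X.co t) x = 0 := by
      unfold lieF
      rw [hz.fderiv_eq, hz.eq_of_nhds]
      simp
    rw [h1, norm_zero]
    have h2 := h.ε0
    have h3 := h.Kc0
    have h4 : 0 ≤ C * e := mul_nonneg hC0 he0.le
    have h5 : 0 ≤ X.εC + C * e := by linarith
    exact mul_nonneg (by linarith) h3

/-- the force compensates the drift in `B`: pointwise estimate of
`a² lieF Vb (F + S0) + dtm F + dtm S0 + fN = (a² lieF V₀ F + dtm F) + (1-χ₁) a² lieF (Vb - V₀) (F + S0) + a² lieF V₀ S0 +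
dtm S0` -/
theorem Fld.OK.slow_pt (h : X.OK D) : ∃ C : ℝ, 0 ≤ C ∧ ∀ e ∈ Ioc (0:ℝ) 1, ∀ t ∈ Icc (0:ℝ) 1, ∀ x ∈ D,
    ‖X.a t ^ 2 • lieF (X.Wv e).Vb (fun y => X.F t y + X.S0 e t y) x + dtm X.F t x + dtm (X.S0 e) t x +
      X.fN e t x‖ ≤ X.η + 2 * (X.εC + C * e) * (X.K + X.KC / X.b + C * e) +
        (2 * X.Kv + 2 * X.Ka) * (X.KC / X.b + C * e) := by
  have hD : IsOpen D := h.stg.dom.col.isOpen
  obtain ⟨C1, hC10, hC1⟩ := h.Vb_close
  obtain ⟨C2, hC20, hC2⟩ := h.S0_le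
  refine ⟨C1 + C2, by positivity, fun e he t _ x hx => ?_⟩
  have he0 : 0 < e := he.1
  have hF : BD D (X.F t) := h.sF.bd hD t
  have hS : BD D (X.S0 e t) := (h.sep_S0 e).bd hD t
  have dF : DifferentiableAt ℝ (X.F t) x := hF.differentiableAt hD hx
  have dS : DifferentiableAt ℝ (X.S0 e t) x := hS.differentiableAt hD hx
  have dV : DifferentiableAt ℝ (X.Wv e).Vb x := (h.bd_Vb e).differentiableAt hD hx
  have dV0 : DifferentiableAt ℝ X.V₀ x := h.V₀b.differentiableAt hD hx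
  have hKa : 0 ≤ X.Ka := (abs_nonneg _).trans (h.a' 0)
  have hKC : 0 ≤ X.KC / X.b := div_nonneg h.KC0 h.b0.le
  have hε := h.ε0
  have hK := h.K1
  have hKv := h.Kv0
  have a1e : 0 ≤ C1 * e := mul_nonneg hC10 he0.le
  have a2e : 0 ≤ C2 * e := mul_nonneg hC20 he0.le
  have ha0 := h.a0 t
  have ha1 : X.a t ^ 2 ≤ 1 := pow_le_one₀ ha0 (h.a1 t)
  have ha2 : 0 ≤ X.a t ^ 2 := sq_nonneg _
  obtain ⟨hs1, hs2⟩ := hC2 e he t
  have s0 : ‖X.S0 e t x‖ ≤ X.KC / X.b + C2 * e := hs1.le0 hx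
  have s1 : ‖fderiv ℝ (X.S0 e t) x‖ ≤ X.KC / X.b + C2 * e := Bk.le1 (k := 1) hs1 hx
  have s2 : ‖dtm (X.S0 e) t x‖ ≤ 2 * X.Ka * (X.KC / X.b + C2 * e) := hs2.le0 hx
  -- the identity
  have hid : X.a t ^ 2 • lieF (X.Wv e).Vb (fun y => X.F t y + X.S0 e t y) x + dtm X.F t x + dtm (X.S0 e) t x +
      X.fN e t x = (X.a t ^ 2 • lieF X.V₀ (X.F t) x + dtm X.F t x) +
        ((1 - X.χ₁ x) * X.a t ^ 2) • lieF (fun y => (X.Wv e).Vb y - X.V₀ y) (fun y => X.F t y + X.S0 e t y) x +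
        X.a t ^ 2 • lieF X.V₀ (X.S0 e t) x + dtm (X.S0 e) t x := by
    have e1 : lieF (X.Wv e).Vb (fun y => X.F t y + X.S0 e t y) x =
        lieF (fun y => (X.Wv e).Vb y - X.V₀ y) (fun y => X.F t y + X.S0 e t y) x +
        (lieF X.V₀ (X.F t) x + lieF X.V₀ (X.S0 e t) x) := by
      rw [← eg8_right dF dS, eg8_left dV dV0]
      abel
    have e2 : X.fN e t x = -((X.χ₁ x * X.a t ^ 2) •
        lieF (fun y => (X.Wv e).Vb y - X.V₀ y) (fun y => X.F t y + X.S0 e t y) x) := rfl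
    rw [e1, e2]
    module
  rw [hid]
  -- the middle term
  have hm : ‖((1 - X.χ₁ x) * X.a t ^ 2) • lieF (fun y => (X.Wv e).Vb y - X.V₀ y)
      (fun y => X.F t y + X.S0 e t y) x‖ ≤ 2 * (X.εC + (C1 + C2) * e) * (X.K + X.KC / X.b + (C1 + C2) * e) := by
    have hr : 0 ≤ 2 * (X.εC + (C1 + C2) * e) * (X.K + X.KC / X.b + (C1 + C2) * e) := by
      have : 0 ≤ (C1 + C2) * e := by positivity
      positivity
    by_cases hB : x ∈ X.B
    · rw [h.χB x hB, sub_self, zero_mul, zero_smul, norm_zero]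
      exact hr
    · have hb := hC1 e he
      have k0 : ‖(fun y => (X.Wv e).Vb y - X.V₀ y) x‖ ≤ X.εC + C1 * e := hb.le0 (x := x) ⟨hx, hB⟩
      have k1 : ‖fderiv ℝ (fun y => (X.Wv e).Vb y - X.V₀ y) x‖ ≤ X.εC + C1 * e :=
        Bk.le1 (k := 0) hb (x := x) ⟨hx, hB⟩
      have f0 : ‖(fun y => X.F t y + X.S0 e t y) x‖ ≤ X.K + (X.KC / X.b + C2 * e) :=
        (norm_add_le _ _).trans (add_le_add ((h.bF t).le0 hx) s0)
      have f1 : ‖fderiv ℝ (fun y => X.F t y + X.S0 e t y) x‖ ≤ X.K + (X.KC / X.b + C2 * e) := by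
        rw [fderiv_fun_add dF dS]
        exact (norm_add_le _ _).trans (add_le_add (Bk.le1 (k := 1) (h.bF t) hx) s1)
      have hl := eg8_lie (u := fun y => (X.Wv e).Vb y - X.V₀ y) (f := fun y => X.F t y + X.S0 e t y) (x := x)
        (A := X.εC + C1 * e) (B := X.K + (X.KC / X.b + C2 * e)) k0 k1 f0 f1
      have hχ := h.χ01 x
      have h01 : 0 ≤ (1 - X.χ₁ x) * X.a t ^ 2 := mul_nonneg (by linarith [hχ.2]) ha2
      have h02 : (1 - X.χ₁ x) * X.a t ^ 2 ≤ 1 := by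
        have := mul_le_mul (show 1 - X.χ₁ x ≤ 1 by linarith [hχ.1]) ha1 ha2 zero_le_one
        linarith
      rw [norm_smul, Real.norm_eq_abs, abs_of_nonneg h01]
      refine (mul_le_mul h02 hl (norm_nonneg _) zero_le_one).trans ?_
      rw [one_mul]
      have b1 : 2 * (X.εC + C1 * e) ≤ 2 * (X.εC + (C1 + C2) * e) := by linarith
      have b2 : X.K + (X.KC / X.b + C2 * e) ≤ X.K + X.KC / X.b + (C1 + C2) * e := by linarith
      exact mul_le_mul b1 b2 (by linarith) (by linarith)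
  have ht3 : ‖X.a t ^ 2 • lieF X.V₀ (X.S0 e t) x‖ ≤ 2 * X.Kv * (X.KC / X.b + C2 * e) := by
    have hl := eg8_lie (u := X.V₀) (f := X.S0 e t) (x := x) (h.V₀k.le0 hx) (Bk.le1 (k := 0) h.V₀k hx) s0 s1
    rw [norm_smul, Real.norm_eq_abs, abs_of_nonneg ha2]
    have := mul_le_mul ha1 hl (norm_nonneg _) zero_le_one
    linarith
  have ht1 := h.slow t x hx
  have hfin : 2 * X.Kv * (X.KC / X.b + C2 * e) + 2 * X.Ka * (X.KC / X.b + C2 * e) ≤
      (2 * X.Kv + 2 * X.Ka) * (X.KC / X.b + (C1 + C2) * e) := by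
    have := mul_nonneg (show 0 ≤ 2 * X.Kv + 2 * X.Ka by linarith) a1e
    linarith
  calc ‖(X.a t ^ 2 • lieF X.V₀ (X.F t) x + dtm X.F t x) +
        ((1 - X.χ₁ x) * X.a t ^ 2) • lieF (fun y => (X.Wv e).Vb y - X.V₀ y) (fun y => X.F t y + X.S0 e t y) x +
        X.a t ^ 2 • lieF X.V₀ (X.S0 e t) x + dtm (X.S0 e) t x‖
      ≤ ‖X.a t ^ 2 • lieF X.V₀ (X.F t) x + dtm X.F t x‖ +
        ‖((1 - X.χ₁ x) * X.a t ^ 2) • lieF (fun y => (X.Wv e).Vb y - X.V₀ y)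
          (fun y => X.F t y + X.S0 e t y) x‖ +
        ‖X.a t ^ 2 • lieF X.V₀ (X.S0 e t) x‖ + ‖dtm (X.S0 e) t x‖ :=
        (norm_add_le _ _).trans (add_le_add ((norm_add_le _ _).trans (add_le_add (norm_add_le _ _) le_rfl)) le_rfl)
    _ ≤ X.η + 2 * (X.εC + (C1 + C2) * e) * (X.K + X.KC / X.b + (C1 + C2) * e) +
        2 * X.Kv * (X.KC / X.b + C2 * e) + 2 * X.Ka * (X.KC / X.b + C2 * e) :=
        add_le_add (add_le_add (add_le_add ht1 hm) ht3) s2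
    _ ≤ _ := by linarith

end Pool.Agent.Lib.MP_79abb3_an.W
end

section

/-!
Theorem W (MP_79abb3_an), block EG (the reference fields of one move): the slow equation.
-/

set_option autoImplicit false
set_option linter.unusedSectionVars false

open MeasureTheory Set Filter Topology Function
open scoped ENNReal RealInnerProductSpace

namespace Pool.Agent.Lib.MP_79abb3_an.W

variable {d : ℕ} {X : Fld d} {D : Set (En d)} {z : En d → ℝ} {δ : ℝ}

private theorem eg8b_lie3 (hD : IsOpen D) {W a b c : En d → En d} (ha : BD D a) (hb : BD D b) (hc : BD D c)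
    {x : En d} (hx : x ∈ D) :
    lieF W (fun y => a y - b y + c y) x = lieF W a x - lieF W b x + lieF W c x := by
  have h1 : fderiv ℝ (fun y => a y - b y + c y) x = fderiv ℝ a x - fderiv ℝ b x + fderiv ℝ c x := by
    have e1 := ((ha.differentiableAt hD hx).hasFDerivAt.sub (hb.differentiableAt hD hx).hasFDerivAt).add
      (hc.differentiableAt hD hx).hasFDerivAt
    exact e1.fderiv
  unfold lieF
  rw [h1, map_add, map_sub, _root_.add_apply, _root_.sub_apply]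
  abel

private theorem eg8b_lie2 (hD : IsOpen D) {W a c : En d → En d} (ha : BD D a) (hc : BD D c)
    {x : En d} (hx : x ∈ D) :
    lieF W (fun y => a y + c y) x = lieF W a x + lieF W c x := by
  have h1 : fderiv ℝ (fun y => a y + c y) x = fderiv ℝ a x + fderiv ℝ c x :=
    ((ha.differentiableAt hD hx).hasFDerivAt.add (hc.differentiableAt hD hx).hasFDerivAt).fderiv
  unfold lieF
  rw [h1, map_add, _root_.add_apply]
  abel

/-- **The slow equation.** `PcD (lieF Vb Y) = PcD (lieF Vb F)` (`IsLr.lie`), `PcD (dtm Y) = PcD (dtm F)`, `slow_pt`, `lie_co`,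
`pco`, `pcd_sup`. -/
theorem sl_le (h0 : Dom D z δ) (Kv Ka : ℝ) : ∃ C : ℝ, 0 ≤ C ∧ ∀ X : Fld d, X.OK D → X.z = z → X.Kv = Kv → X.Ka = Ka →
    ∀ ε' > 0, ∃ e₀ ∈ Ioc (0:ℝ) 1, ∀ e ∈ Ioc (0:ℝ) e₀, ∀ t ∈ Icc (0:ℝ) 1,
      ‖PcD D (fun x => X.a t ^ 2 • lieF (X.Wv e).Vb (X.Sa e t) x + dtm (X.Sa e) t x + X.fN e t x)‖ ≤
        C * (X.η + X.εC * (X.K + X.Kc + 1) + X.KC / X.b) + X.ηc + ε' := by
  have hD := h0.isOpen
  obtain ⟨C1, hC1, hsup⟩ := pcd_sup h0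
  refine ⟨C1 * (2 + 2 * |Kv| + 2 * |Ka|), by positivity, fun X h hz hKv hKa ε' hε => ?_⟩
  obtain ⟨Ca, hCa, hlie⟩ := h.lie_co
  obtain ⟨Cb, hCb, hslow⟩ := h.slow_pt
  have hKv0 : 0 ≤ X.Kv := h.Kv0
  have hKa0 : 0 ≤ X.Ka := (abs_nonneg _).trans (h.a' 0)
  have hK0 : 0 ≤ X.K := h.K1
  have hη0 : 0 ≤ X.η := h.η0
  have hε0 : 0 ≤ X.εC := h.ε0
  have hε1 : X.εC ≤ 1 := h.ε1
  have hKc0 : 0 ≤ X.Kc := h.Kc0
  have hG0 : 0 ≤ X.KC / X.b := div_nonneg h.KC0 h.b0.le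
  have hG1 : X.KC / X.b ≤ 1 / 4 := h.KCb
  obtain ⟨G, hG⟩ : ∃ G : ℝ, G = X.KC / X.b := ⟨_, rfl⟩
  rw [← hG] at hG0 hG1 hslow ⊢
  obtain ⟨M, hM⟩ : ∃ M : ℝ, M = C1 * (2 * Cb * (X.K + G + Cb) + 2 * Cb + (2 * X.Kv + 2 * X.Ka) * Cb +
    2 * Ca * X.Kc) := ⟨_, rfl⟩
  have hM0 : 0 ≤ M := by rw [hM]; positivity
  refine ⟨min 1 (ε' / (M + 1)), ⟨lt_min one_pos (by positivity), min_le_left _ _⟩, fun e he t ht => ?_⟩
  have he0 : 0 < e := he.1
  have he1 : e ≤ 1 := he.2.trans (min_le_left _ _)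
  have heM : M * e ≤ ε' := by
    have h1 : e ≤ ε' / (M + 1) := he.2.trans (min_le_right _ _)
    rw [le_div_iff₀ (by positivity)] at h1
    nlinarith
  have heI : e ∈ Ioc (0:ℝ) 1 := ⟨he0, he1⟩
  have ha0 : 0 ≤ X.a t := h.a0 t
  have ha1 : X.a t ≤ 1 := h.a1 t
  have ha2 : X.a t ^ 2 ≤ 1 := pow_le_one₀ ha0 ha1
  have bV := h.bd_Vb e
  have bF : BD D (X.F t) := h.sF.bd hD t
  have bY : BD D (X.Y t) := h.sY.bd hD t
  have bco : BD D (X.co t) := h.sep_co.1.bd hD t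
  have bS : BD D (X.S0 e t) := (h.sep_S0 e).bd hD t
  have bf : BD D (X.fN e t) := (h.sep_fN e).bd hD t
  have bdY : BD D (dtm X.Y t) := h.sY.dtm.bd hD t
  have bdF : BD D (dtm X.F t) := h.sF.dtm.bd hD t
  have bdco : BD D (dtm X.co t) := h.sep_co.1.dtm.bd hD t
  have bdS : BD D (dtm (X.S0 e) t) := (h.sep_S0 e).dtm.bd hD t
  have bFS : BD D (fun y => X.F t y + X.S0 e t y) := bF.add hD bS
  obtain ⟨V, hV⟩ : ∃ V, V = (X.Wv e).Vb := ⟨_, rfl⟩
  have hlie' := hlie e heI t ht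
  have hslow' := hslow e heI t ht
  rw [← hV] at bV hlie' hslow' ⊢
  -- the pieces
  have b1 : BD D (fun x => X.a t ^ 2 • lieF V (fun y => X.F t y + X.S0 e t y) x + dtm X.F t x +
      dtm (X.S0 e) t x + X.fN e t x) :=
    ((((bV.lieF hD bFS).const_smul hD _).add hD bdF).add hD bdS).add hD bf
  have b2 : BD D (fun x => X.a t ^ 2 • lieF V (X.Y t) x) := (bV.lieF hD bY).const_smul hD _
  have b3 : BD D (fun x => (-(X.a t ^ 2)) • lieF V (X.F t) x) := (bV.lieF hD bF).const_smul hD _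
  have b5 : BD D (fun x => (-1 : ℝ) • dtm X.F t x) := bdF.const_smul hD _
  have b6 : BD D (fun x => (-(X.a t ^ 2)) • lieF V (X.co t) x) := (bV.lieF hD bco).const_smul hD _
  have b7 : BD D (fun x => (-1 : ℝ) • dtm X.co t x) := bdco.const_smul hD _
  have hsl : ∀ t, ∀ x ∈ D, dtm X.sl t x = dtm X.Y t x - dtm X.co t x := fun t x hx =>
    Sep.dtm_sub h.sY h.sep_co.1 t hx
  have hsum : ∀ x ∈ D, X.a t ^ 2 • lieF V (X.Sa e t) x + dtm (X.Sa e) t x + X.fN e t x =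
      (X.a t ^ 2 • lieF V (fun y => X.F t y + X.S0 e t y) x + dtm X.F t x + dtm (X.S0 e) t x + X.fN e t x) +
      ((X.a t ^ 2 • lieF V (X.Y t) x + (-(X.a t ^ 2)) • lieF V (X.F t) x) +
      ((dtm X.Y t x + (-1 : ℝ) • dtm X.F t x) +
      ((-(X.a t ^ 2)) • lieF V (X.co t) x + (-1 : ℝ) • dtm X.co t x))) := by
    intro x hx
    have e1 : lieF V (X.Sa e t) x = lieF V (X.Y t) x - lieF V (X.co t) x + lieF V (X.S0 e t) x :=
      eg8b_lie3 hD bY bco bS hx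
    have e2 : dtm (X.Sa e) t x = dtm X.Y t x - dtm X.co t x + dtm (X.S0 e) t x := by
      have e3 : dtm (X.Sa e) t x = dtm X.sl t x + dtm (X.S0 e) t x :=
        Sep.dtm_add h.sep_sl (h.sep_S0 e) t hx
      rw [e3, hsl t x hx]
    have e4 : lieF V (fun y => X.F t y + X.S0 e t y) x = lieF V (X.F t) x + lieF V (X.S0 e t) x :=
      eg8b_lie2 hD bF bS hx
    rw [e1, e2, e4]
    module
  have k1 : PcD D (fun x => X.a t ^ 2 • lieF V (X.Sa e t) x + dtm (X.Sa e) t x + X.fN e t x) =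
      PcD D (fun x => X.a t ^ 2 • lieF V (fun y => X.F t y + X.S0 e t y) x + dtm X.F t x + dtm (X.S0 e) t x +
        X.fN e t x) + ((PcD D (fun x => X.a t ^ 2 • lieF V (X.Y t) x) +
        PcD D (fun x => (-(X.a t ^ 2)) • lieF V (X.F t) x)) +
        ((PcD D (dtm X.Y t) + PcD D (fun x => (-1 : ℝ) • dtm X.F t x)) +
        (PcD D (fun x => (-(X.a t ^ 2)) • lieF V (X.co t) x) + PcD D (fun x => (-1 : ℝ) • dtm X.co t x)))) := by
    rw [pcd_congr hsum, pcd_add h0 b1 ((b2.add hD b3).add hD ((bdY.add hD b5).add hD (b6.add hD b7))),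
      pcd_add h0 (b2.add hD b3) ((bdY.add hD b5).add hD (b6.add hD b7)), pcd_add h0 b2 b3,
      pcd_add h0 (bdY.add hD b5) (b6.add hD b7), pcd_add h0 bdY b5, pcd_add h0 b6 b7]
  have hlr : IsLr D z (X.F t) (X.Y t) := hz ▸ h.lr t
  have k2 : PcD D (fun x => X.a t ^ 2 • lieF V (X.Y t) x) +
      PcD D (fun x => (-(X.a t ^ 2)) • lieF V (X.F t) x) = 0 := by
    rw [pcd_smul h0 _ (bV.lieF hD bY), pcd_smul h0 _ (bV.lieF hD bF), hlr.lie h0 bV bF, neg_smul,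
      add_neg_cancel]
  have k3 : PcD D (dtm X.Y t) + PcD D (fun x => (-1 : ℝ) • dtm X.F t x) = 0 := by
    rw [pcd_smul h0 _ bdF, h.pd t, neg_smul, one_smul, add_neg_cancel]
  rw [k1, k2, k3, zero_add, zero_add]
  have n1 := hsup _ (X.η + 2 * (X.εC + Cb * e) * (X.K + G + Cb * e) + (2 * X.Kv + 2 * X.Ka) * (G + Cb * e))
    b1 (by positivity) hslow'
  have n6 : ‖PcD D (fun x => (-(X.a t ^ 2)) • lieF V (X.co t) x)‖ ≤ C1 * (2 * (X.εC + Ca * e) * X.Kc) := by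
    refine hsup _ _ b6 (by positivity) fun x hx => ?_
    have e1 := hlie' x hx
    rw [norm_smul, norm_neg, Real.norm_of_nonneg (by positivity)]
    exact (mul_le_of_le_one_left (norm_nonneg _) ha2).trans e1
  have n7 : ‖PcD D (fun x => (-1 : ℝ) • dtm X.co t x)‖ ≤ X.ηc := by
    rw [pcd_smul h0 _ bdco, norm_smul, norm_neg, norm_one, one_mul]
    have e1 := h.pco t ht
    rwa [← pcd_congr (h.sep_co.2 t)] at e1
  refine (norm_add_le _ _).trans ((add_le_add n1 ((norm_add_le _ _).trans (add_le_add n6 n7))).trans ?_)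
  have hKv1 : X.Kv ≤ |Kv| := by rw [hKv]; exact le_abs_self _
  have hKa1 : X.Ka ≤ |Ka| := by rw [hKa]; exact le_abs_self _
  have q1 : 2 * (X.εC + Cb * e) * (X.K + G + Cb * e) ≤
      2 * X.εC * (X.K + 1) + (2 * Cb * (X.K + G + Cb) + 2 * Cb) * e := by
    have e1 : Cb * e ≤ Cb := mul_le_of_le_one_right hCb he1
    have e2 : 0 ≤ Cb * e := by positivity
    have e3 : 2 * X.εC * (X.K + G) ≤ 2 * X.εC * (X.K + 1) := by
      have : X.K + G ≤ X.K + 1 := by linarith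
      exact mul_le_mul_of_nonneg_left this (by positivity)
    have e4 : 2 * X.εC * (Cb * e) ≤ 2 * 1 * (Cb * e) :=
      mul_le_mul_of_nonneg_right (by linarith) e2
    have e5 : 2 * (Cb * e) * (X.K + G + Cb * e) ≤ 2 * (Cb * e) * (X.K + G + Cb) :=
      mul_le_mul_of_nonneg_left (by linarith) (by positivity)
    linarith
  have q2 : (2 * X.Kv + 2 * X.Ka) * G ≤ (2 * |Kv| + 2 * |Ka|) * G :=
    mul_le_mul_of_nonneg_right (by linarith) hG0
  have q3 : X.η + 2 * X.εC * (X.K + 1) + (2 * |Kv| + 2 * |Ka|) * G + 2 * X.εC * X.Kc ≤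
      (2 + 2 * |Kv| + 2 * |Ka|) * (X.η + X.εC * (X.K + X.Kc + 1) + G) := by
    have a1 := abs_nonneg Kv
    have a2 := abs_nonneg Ka
    have e1 : 0 ≤ (2 * |Kv| + 2 * |Ka|) * (X.η + X.εC * (X.K + X.Kc + 1)) := by positivity
    have e2 : 0 ≤ X.η + 2 * G := by positivity
    linarith
  have q4 := mul_le_mul_of_nonneg_left q3 hC1
  have q5 := mul_le_mul_of_nonneg_left q1 hC1
  have q6 := mul_le_mul_of_nonneg_left q2 hC1
  rw [hM] at heM
  linarith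

end Pool.Agent.Lib.MP_79abb3_an.W
end

section

/-!
Theorem W (MP_79abb3_an), block EG (the reference fields of one move): the residual.
-/

set_option autoImplicit false
set_option linter.unusedSectionVars false

open MeasureTheory Set Filter Topology Function
open scoped ENNReal RealInnerProductSpace

namespace Pool.Agent.Lib.MP_79abb3_an.W

variable {d : ℕ} {X : Fld d} {D : Set (En d)} {z : En d → ℝ} {δ : ℝ}

private theorem eg9b_int (h : Dom D z δ) {f : En d → En d} (hf : BD D f) (w : L2E d) :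
    IntegrableOn (fun x => ⟪f x, w x⟫) D := by
  have hm := h.isOpen.measurableSet
  have h1 : MemLp f 2 (volume.restrict D) := by
    have := hf.memLp h
    rwa [memLp_indicator_iff_restrict hm] at this
  have h2 : MemLp (w : En d → En d) 2 (volume.restrict D) := (Lp.memLp w).restrict D
  have h3 := L2.integrable_inner (𝕜 := ℝ) (h1.toLp f) (h2.toLp _)
  refine h3.congr ?_
  filter_upwards [h1.coeFn_toLp, h2.coeFn_toLp] with x e1 e2
  rw [e1, e2]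

private theorem eg9b_lap (hD : IsOpen D) {f : En d → En d} {M : ℝ} (hf : BD D f) (h : Bk D 2 M f) {x : En d}
    (hx : x ∈ D) : ‖lap f x‖ ≤ d * M := by
  have hM : 0 ≤ M := (norm_nonneg _).trans (h.le0 hx)
  have h1 : ∀ i : Fin d, ‖pd i (pd i f) x‖ ≤ M := by
    intro i
    have e0 : HasFDerivAt (fderiv ℝ f) (fderiv ℝ (fderiv ℝ f) x) x :=
      ((hf.fderiv hD).differentiableAt hD hx).hasFDerivAt
    have e1 : fderiv ℝ (fun y => fderiv ℝ f y (ei i)) x =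
        (ContinuousLinearMap.apply ℝ (En d) (ei i)).comp (fderiv ℝ (fderiv ℝ f) x) :=
      ((ContinuousLinearMap.apply ℝ (En d) (ei i)).hasFDerivAt.comp x e0).fderiv
    have e2 : pd i (pd i f) x = fderiv ℝ (fderiv ℝ f) x (ei i) (ei i) := by
      show fderiv ℝ (fun y => fderiv ℝ f y (ei i)) x (ei i) = _
      rw [e1]
      rfl
    have e3 : ‖(ei i : En d)‖ = 1 := by
      simp [ei]
    have e4 : ‖fderiv ℝ (fderiv ℝ f) x‖ ≤ M := Bk.le1 (k := 0) h.fderiv hx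
    rw [e2]
    calc ‖fderiv ℝ (fderiv ℝ f) x (ei i) (ei i)‖ ≤ ‖fderiv ℝ (fderiv ℝ f) x (ei i)‖ * ‖(ei i : En d)‖ :=
          ContinuousLinearMap.le_opNorm _ _
      _ ≤ (‖fderiv ℝ (fderiv ℝ f) x‖ * ‖(ei i : En d)‖) * ‖(ei i : En d)‖ :=
          mul_le_mul_of_nonneg_right (ContinuousLinearMap.le_opNorm _ _) (norm_nonneg _)
      _ ≤ M := by rw [e3, mul_one, mul_one]; exact e4
  unfold lap
  refine (norm_sum_le _ _).trans ((Finset.sum_le_sum fun i _ => h1 i).trans ?_)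
  rw [Finset.sum_const, Finset.card_univ, Fintype.card_fin, nsmul_eq_mul]

/-- **The residual.** `(Sa·∇)Sa - ΔSa` is bounded by `(Ks+1)² + d (Ks+1)` (`Sa_bd2`), the coupling (`couple`, `sl_couple`) and
`rN` are thin (`thin_dual`). -/
theorem rb_le (hd : d = 2 ∨ d = 3) (h0 : Dom D z δ) : ∃ C : ℝ, 0 ≤ C ∧ ∀ X : Fld d, X.OK D → X.z = z →
    ∃ e₀ ∈ Ioc (0:ℝ) 1, ∀ e ∈ Ioc (0:ℝ) e₀, ∀ t ∈ Icc (0:ℝ) 1, ∀ v : VD D,
      |∫ x in D, ⟪X.r e t x, ((io D v : HD D) : L2E d) x⟫| ≤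
        (C * ((X.Ks + 1) ^ 2 + d * (X.Ks + 1)) + 1) * ‖v‖ := by
  have hD := h0.isOpen
  obtain ⟨C1, hC1, hbdd⟩ := bdd_dual hd h0
  refine ⟨C1, hC1, fun X h hz => ?_⟩
  obtain ⟨Cc, cc, hcc, hcou⟩ := couple h.stg h.lay.lay h.lay.bk
  obtain ⟨M, hM⟩ := h.sl_couple
  obtain ⟨e₁, he₁, hSa⟩ := h.Sa_bd2
  obtain ⟨T1, hT1, ht1⟩ := thin_dual hd h0 hcc
  obtain ⟨T2, hT2, ht2⟩ := thin_dual hd h0 h.cr0
  obtain ⟨Q, hQ⟩ : ∃ Q : ℝ, Q = T1 * |Cc * M| + T2 * |X.Cr| := ⟨_, rfl⟩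
  have hQ0 : 0 ≤ Q := by rw [hQ]; positivity
  have hq1 : 0 < 1 / (Q + 1) ^ 2 := by positivity
  refine ⟨min e₁ (1 / (Q + 1) ^ 2), ⟨lt_min he₁.1 hq1, (min_le_left _ _).trans he₁.2⟩, fun e he t ht v => ?_⟩
  have he0 : 0 < e := he.1
  have hee : e ≤ e₁ := he.2.trans (min_le_left _ _)
  have he1 : e ≤ 1 := hee.trans he₁.2
  have heI : e ∈ Ioc (0:ℝ) 1 := ⟨he0, he1⟩
  have hsq : Q * √e ≤ 1 := by
    have h1 : e ≤ 1 / (Q + 1) ^ 2 := he.2.trans (min_le_right _ _)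
    have h2 : √e ≤ 1 / (Q + 1) := by
      rw [Real.sqrt_le_left (by positivity), div_pow, one_pow]
      exact h1
    have h3 : 0 ≤ √e := Real.sqrt_nonneg e
    rw [le_div_iff₀ (by positivity)] at h2
    linarith
  -- the classes
  have b0 : BD D (X.r e t) := (h.sep_r heI).bd hD t
  have b1 : BD D (X.cpl e t) := (h.sep_cpl heI).bd hD t
  have b2 : BD D (X.rN e (X.b * t)) := (FS.sep (h.frN e heI)).bd hD (X.b * t)
  have bS : BD D (X.Sa e t) := (h.sep_Sa e).bd hD t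
  obtain ⟨f, hf⟩ : ∃ f : En d → En d, f = fun x => X.r e t x - X.cpl e t x - X.rN e (X.b * t) x := ⟨_, rfl⟩
  have bf : BD D f := by
    rw [hf]
    exact (b0.sub hD b1).sub hD b2
  have hfe : ∀ x, f x = fderiv ℝ (X.Sa e t) x (X.Sa e t x) - lap (X.Sa e t) x := by
    intro x
    rw [hf]
    show fderiv ℝ (X.Sa e t) x (X.Sa e t x) - lap (X.Sa e t) x + X.cpl e t x + X.rN e (X.b * t) x -
      X.cpl e t x - X.rN e (X.b * t) x = _
    abel
  have hSk := hSa e ⟨he0, hee⟩ t ht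
  have hKs : 0 ≤ X.Ks := h.Ks0
  have hfb : ∀ x ∈ D, ‖f x‖ ≤ (X.Ks + 1) ^ 2 + d * (X.Ks + 1) := by
    intro x hx
    rw [hfe]
    refine (norm_sub_le _ _).trans (add_le_add ?_ (eg9b_lap hD bS hSk hx))
    have e1 : ‖fderiv ℝ (X.Sa e t) x‖ ≤ X.Ks + 1 := Bk.le1 (k := 1) hSk hx
    have e2 : ‖X.Sa e t x‖ ≤ X.Ks + 1 := hSk.le0 hx
    calc ‖fderiv ℝ (X.Sa e t) x (X.Sa e t x)‖ ≤ ‖fderiv ℝ (X.Sa e t) x‖ * ‖X.Sa e t x‖ :=
          ContinuousLinearMap.le_opNorm _ _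
      _ ≤ (X.Ks + 1) * (X.Ks + 1) := mul_le_mul e1 e2 (norm_nonneg _) (by positivity)
      _ = _ := by ring
  have n0 := hbdd f ((X.Ks + 1) ^ 2 + d * (X.Ks + 1)) bf (by positivity) hfb v
  have n1 := ht1 (X.cpl e t) |Cc * M| e b1 (abs_nonneg _) he0 he1 (fun x hx => by
    have e1 := hcou (X.sl t) M (hM t ht) e heI (X.b * t) x hx
    rw [hz] at e1
    refine e1.trans (mul_le_mul_of_nonneg_right (le_abs_self _) ?_)
    have := Real.exp_pos (-(cc * (z x / e)))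
    positivity) v
  have n2 := ht2 (X.rN e (X.b * t)) |X.Cr| e b2 (abs_nonneg _) he0 he1 (fun x hx => by
    have e1 := h.brN e heI (X.b * t) x hx
    rw [hz] at e1
    refine e1.trans (mul_le_mul_of_nonneg_right (le_abs_self _) ?_)
    have := Real.exp_pos (-(X.cr * (z x / e)))
    positivity) v
  obtain ⟨w, hw⟩ : ∃ w : L2E d, w = ((io D v : HD D) : L2E d) := ⟨_, rfl⟩
  rw [← hw] at n0 n1 n2 ⊢
  have i0 := eg9b_int h0 bf w
  have i1 := eg9b_int h0 b1 w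
  have i2 := eg9b_int h0 b2 w
  have hsum : (∫ x in D, ⟪X.r e t x, w x⟫) = (∫ x in D, ⟪f x, w x⟫) + (∫ x in D, ⟪X.cpl e t x, w x⟫) +
      ∫ x in D, ⟪X.rN e (X.b * t) x, w x⟫ := by
    have i01 : IntegrableOn (fun x => ⟪f x, w x⟫ + ⟪X.cpl e t x, w x⟫) D := i0.add i1
    rw [← integral_add i0 i1, ← integral_add i01 i2]
    refine integral_congr_ae (Eventually.of_forall fun x => ?_)
    show ⟪X.r e t x, w x⟫ = ⟪f x, w x⟫ + ⟪X.cpl e t x, w x⟫ + ⟪X.rN e (X.b * t) x, w x⟫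
    have e0 : X.r e t x = f x + X.cpl e t x + X.rN e (X.b * t) x := by
      rw [hf]
      show X.r e t x = X.r e t x - X.cpl e t x - X.rN e (X.b * t) x + X.cpl e t x + X.rN e (X.b * t) x
      abel
    rw [e0, inner_add_left, inner_add_left]
  rw [hsum]
  have t1 := abs_add_le ((∫ x in D, ⟪f x, w x⟫) + (∫ x in D, ⟪X.cpl e t x, w x⟫))
    (∫ x in D, ⟪X.rN e (X.b * t) x, w x⟫)
  have t2 := abs_add_le (∫ x in D, ⟪f x, w x⟫) (∫ x in D, ⟪X.cpl e t x, w x⟫)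
  have t3 : T1 * |Cc * M| * √e * ‖v‖ + T2 * |X.Cr| * √e * ‖v‖ ≤ 1 * ‖v‖ := by
    have e1 : T1 * |Cc * M| * √e * ‖v‖ + T2 * |X.Cr| * √e * ‖v‖ = (Q * √e) * ‖v‖ := by
      rw [hQ]; ring
    rw [e1]
    exact mul_le_mul_of_nonneg_right hsq (norm_nonneg _)
  linarith

end Pool.Agent.Lib.MP_79abb3_an.W
end

section

/-!
Theorem W (MP_79abb3_an), block EG (the reference fields of one move): the input of block DE.
-/

set_option autoImplicit false
set_option linter.unusedSectionVars false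

open MeasureTheory Set Filter Topology Function
open scoped ENNReal RealInnerProductSpace

namespace Pool.Agent.Lib.MP_79abb3_an.W

variable {d : ℕ} {D : Set (En d)} {z : En d → ℝ} {δ : ℝ}

/-- **The fields satisfy the hypotheses of block DE.** -/
theorem Fld.din (hd : d = 2 ∨ d = 3) (h0 : Dom D z δ) : ∃ CH : ℝ, 0 ≤ CH ∧ ∀ Kv Ka : ℝ, ∃ CS : ℝ, 0 ≤ CS ∧
    ∀ X : Fld d, X.OK D → X.z = z → X.Kv = Kv → X.Ka = Ka → ∀ κ₀ : ℝ, 0 < κ₀ →
      X.K₀ * √X.κ * (√X.b)⁻¹ ≤ κ₀ / 4 → (∀ t ∈ Icc (0:ℝ) 1, ∀ x ∈ D, X.z x * ‖X.co t x‖ ≤ κ₀ / 4) →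
      (∀ t ∈ Icc (0:ℝ) 1, ∀ x ∈ D, X.z x ^ 2 * ‖fderiv ℝ (X.co t) x‖ ≤ κ₀ / 4) →
      ∀ CV : ℝ, (Kv + 1) * (1 + (d : ℝ) / 2) ≤ CV → X.εC ≤ 1 / 2 → ∀ δ' γ : ℝ,
        CS * (X.η + X.εC * (X.K + X.Kc + 1) + X.KC / X.b) + X.ηc < δ' → δ' ≤ 1 →
        X.b * (CH * ((X.Ks + 1) ^ 2 + d * (X.Ks + 1)) + 1) ≤ γ → γ ≤ 1 →
        ∃ M : ℝ, 1 / X.b ≤ M ∧ ∃ e₀ ∈ Ioc (0:ℝ) 1, ∃ MN : ℝ, ∀ q e : ℝ, 1 ≤ q → e = √X.b / q ^ 12 → e ≤ e₀ →
          (X.I e q MN).OK D (D \ Metric.closedBall X.p X.rr) z κ₀ (X.K + 1) M CV δ' γ := by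
  obtain ⟨CH, hCH, hrb⟩ := rb_le hd h0
  refine ⟨CH, hCH, fun Kv Ka => ?_⟩
  obtain ⟨CS, hCS, hsl⟩ := sl_le h0 Kv Ka
  refine ⟨CS, hCS, fun X h hz hKv hKa κ₀ hκ h1 h2 h3 CV hCV hε δ' γ hδ hδ1 hγ hγ1 => ?_⟩
  have hD : IsOpen D := h0.isOpen
  obtain ⟨e1, he1, hRt⟩ := h.Rt_small hκ h1 h2 h3
  obtain ⟨e2, he2, hSe⟩ := h.Se_bd
  obtain ⟨M0, hM01, hMn, hMa, hM0⟩ := h.unif
  obtain ⟨e3, he3, MN, hMN, hdr⟩ := h.dr (CV := CV) (by rw [hKv]; exact hCV) hε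
  obtain ⟨e4, he4, hs⟩ := hsl X h hz hKv hKa (δ' - (CS * (X.η + X.εC * (X.K + X.Kc + 1) + X.KC / X.b) + X.ηc))
    (by linarith)
  obtain ⟨e5, he5, hr⟩ := hrb X h hz
  have hb0 := h.b0
  have hCV0 : 0 ≤ CV := by
    refine le_trans ?_ hCV
    have := h.Kv0
    rw [hKv] at this
    positivity
  refine ⟨max M0 (max (1 / X.b) (max CV MN)), (le_max_left _ _).trans (le_max_right _ _),
    min e1 (min e2 (min e3 (min e4 e5))), ?_, MN, fun q e hq he hee => ?_⟩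
  · exact ⟨lt_min he1.1 (lt_min he2.1 (lt_min he3.1 (lt_min he4.1 he5.1))), (min_le_left _ _).trans he1.2⟩
  have hq0 : 0 < q := lt_of_lt_of_le one_pos hq
  have hepos : 0 < e := by
    rw [he]
    exact div_pos (Real.sqrt_pos.2 hb0) (pow_pos hq0 12)
  have hm0 : M0 ≤ max M0 (max (1 / X.b) (max CV MN)) := le_max_left _ _
  have hmCV : CV ≤ max M0 (max (1 / X.b) (max CV MN)) :=
    (le_max_left _ _).trans ((le_max_right _ _).trans (le_max_right _ _))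
  have hmMN : MN ≤ max M0 (max (1 / X.b) (max CV MN)) :=
    (le_max_right _ _).trans ((le_max_right _ _).trans (le_max_right _ _))
  obtain ⟨M, hM⟩ : ∃ M : ℝ, M = max M0 (max (1 / X.b) (max CV MN)) := ⟨_, rfl⟩
  rw [← hM] at hm0 hmCV hmMN ⊢
  have hM1 : 1 ≤ M := hM01.trans hm0
  have k1 : e ∈ Ioc (0:ℝ) e1 := ⟨hepos, hee.trans (min_le_left _ _)⟩
  have k2 : e ∈ Ioc (0:ℝ) e2 := ⟨hepos, hee.trans ((min_le_right _ _).trans (min_le_left _ _))⟩
  have k3 : e ∈ Ioc (0:ℝ) e3 :=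
    ⟨hepos, hee.trans ((min_le_right _ _).trans ((min_le_right _ _).trans (min_le_left _ _)))⟩
  have k4 : e ∈ Ioc (0:ℝ) e4 := ⟨hepos, hee.trans ((min_le_right _ _).trans ((min_le_right _ _).trans
    ((min_le_right _ _).trans (min_le_left _ _))))⟩
  have k5 : e ∈ Ioc (0:ℝ) e5 := ⟨hepos, hee.trans ((min_le_right _ _).trans ((min_le_right _ _).trans
    ((min_le_right _ _).trans (min_le_right _ _))))⟩
  have k : e ∈ Ioc (0:ℝ) 1 := ⟨hepos, k1.2.trans he1.2⟩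
  obtain ⟨hkp, hkr, hM2⟩ := hM0 e k
  have hBO : D \ Metric.closedBall X.p X.rr ⊆ D \ X.B := by
    refine sdiff_subset_sdiff_right (Metric.closedBall_subset_closedBall ?_)
    have := h.r0
    linarith
  have hbdp : ∀ j, BD D ((X.Wv e).p j) := fun j =>
    BD.add hD (h.wP j).bd (BD.const_smul hD e ((h.hψ j).1.gd hD))
  have hbdr : ∀ j, BD D ((X.Wv e).r j) := fun j =>
    BD.add hD (h.wQ j).bd (BD.const_smul hD e ((h.hψ' j).1.gd hD))
  exact
    { q1 := hq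
      b0 := hb0
      b1 := h.b1
      α0 := fun j => pow_pos (by norm_num) _
      αi := fun i j hij => Fin.ext (Nat.pow_right_injective (le_refl 2 |>.trans (by norm_num : (2:ℕ) ≤ 4)) hij)
      nM := hMn.trans hm0
      bp := hbdp
      br := hbdr
      kp := fun j => (hkp j).mono le_rfl hm0
      kr := fun j => (hkr j).mono le_rfl hm0
      sp := fun j x hx => h.sym_p e j x (hBO hx)
      sr := fun j x hx => h.sym_r e j x (hBO hx)
      as := h.as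
      a1 := fun t _ => by
        show |X.a t| ≤ 1
        rw [abs_of_nonneg (h.a0 t)]
        exact h.a1 t
      a' := fun t _ => (h.a' t).trans (hMa.trans hm0)
      su := h.sep_u k
      sR := h.sep_Rt k
      sSe := h.sep_Se e
      sSa := h.sep_Sa e
      ss := h.sep_r k
      sfN := h.sep_fN e
      spl := fun t _ x _ => X.spl hb0 hq0 he t x
      du := fun t _ => h.u_div k t
      uz := fun t _ => hz ▸ h.u_oz k t
      Rz := fun t ht x hx => hz ▸ (hRt e k1 t ht x hx).1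
      Rz' := fun t ht x hx => hz ▸ (hRt e k1 t ht x hx).2
      Seb := fun t ht => hSe e k2 t ht
      Sab := fun t ht => (hM2 t ht).1.mono le_rfl hm0
      Sad := fun t ht => (hM2 t ht).2.1.mono le_rfl hm0
      fNb := fun t ht x hx => ((hM2 t ht).2.2 x hx).trans hm0
      fNs := fun t _ x hx => by
        show -((X.χ₁ x * X.a t ^ 2) • _) = 0
        rw [h.χo x hx.2, zero_mul, zero_smul, neg_zero]
      χm := measurable_const.indicator Metric.isClosed_closedBall.measurableSet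
      χ0 := fun x => indicator_nonneg (fun _ _ => hMN) x
      χM := fun x => by
        show X.B.indicator (fun _ => MN) x ≤ M
        by_cases hx : x ∈ X.B
        · rw [indicator_of_mem hx]
          exact hmMN
        · rw [indicator_of_notMem hx]
          linarith
      χs := fun x hx => by
        show X.B.indicator (fun _ => MN) x = 0
        exact indicator_of_notMem (hBO hx).2 _
      eq := fun t _ => by
        obtain ⟨p, hp, hpe⟩ := h.eqn hq he t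
        exact ⟨p, hp.mono hBO, fun x hx => hpe x (hBO hx)⟩
      sl := fun t ht => by
        have := hs e k4 t ht
        refine this.trans (le_of_eq ?_)
        ring
      CV0 := hCV0
      CVM := hmCV
      dr := fun x hx w => hdr e k3 x hx w
      δ0 := by
        have h5 : 0 ≤ X.εC * (X.K + X.Kc + 1) := mul_nonneg h.ε0 (by linarith [h.K1, h.Kc0])
        have h6 : 0 ≤ X.KC / X.b := div_nonneg h.KC0 hb0.le
        have h7 : 0 ≤ CS * (X.η + X.εC * (X.K + X.Kc + 1) + X.KC / X.b) :=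
          mul_nonneg hCS (by linarith [h.η0])
        have h8 : 0 ≤ X.ηc := (norm_nonneg _).trans (h.pco 0 ⟨le_rfl, zero_le_one⟩)
        linarith
      δ1 := hδ1
      γ0 := by
        refine le_trans ?_ hγ
        have := h.Ks0
        positivity
      γ1 := hγ1
      rb := fun t ht v => by
        have h5 := hr e k5 t ht v
        show X.b * |∫ x in D, ⟪X.r e t x, ((io D v : HD D) : L2E d) x⟫| ≤ γ * ‖v‖
        calc X.b * |∫ x in D, ⟪X.r e t x, ((io D v : HD D) : L2E d) x⟫| ≤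
            X.b * ((CH * ((X.Ks + 1) ^ 2 + d * (X.Ks + 1)) + 1) * ‖v‖) := mul_le_mul_of_nonneg_left h5 hb0.le
          _ = X.b * (CH * ((X.Ks + 1) ^ 2 + d * (X.Ks + 1)) + 1) * ‖v‖ := by ring
          _ ≤ γ * ‖v‖ := mul_le_mul_of_nonneg_right hγ (norm_nonneg _) }

end Pool.Agent.Lib.MP_79abb3_an.W
end

section

/-!
Theorem W (MP_79abb3_an), block DE: **the export**. One move in a fast oscillating background: from the reference fields
to a controlled trajectory.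
-/

set_option autoImplicit false
set_option linter.unusedSectionVars false

open MeasureTheory Set Filter Topology Function
open scoped ENNReal RealInnerProductSpace

namespace Pool.Agent.Lib.MP_79abb3_an.W

variable {d : ℕ} {D : Set (En d)} {z : En d → ℝ} {δ : ℝ}

/-- **The data of one move** (the form of `DEStatement`): `κ₀` depends on `D` only, `K₁` on the bound `MS` of the fields
`Se`, `K` on `K₀` and on the bound `M` of everything. -/
theorem de_data (hd : d = 2 ∨ d = 3) (h : Dom D z δ) : ∃ κ₀ : ℝ, 0 < κ₀ ∧ ∀ MS : ℝ, ∃ K₁ : ℝ, 1 ≤ K₁ ∧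
    ∀ K₀ M : ℝ, K₁ ≤ K₀ → ∃ K : ℝ, K₀ ≤ K ∧ M ≤ K ∧ ∀ (I : DIn d) (Ω N : Set (En d)) (CV δ' γ : ℝ),
      I.OK D Ω z κ₀ MS M CV δ' γ → 1 / I.b ≤ M → D \ closure N ⊆ Ω →
      ∃ (F : ℝ → VD D →L[ℝ] HD D) (g : ℝ → HD D) (u : ℝ → VD D) (u' : ℝ → HD D), Move D N I.b F g u u' ∧
        (∀ t ∈ Icc (0:ℝ) 1, ((io D (u t) : HD D) : L2E d) = cl (D.indicator (I.u t))) ∧
        ∀ m : ℕ, ∃ E : EData (HD D) (VD D), E.ι = io D ∧ E.q = I.q ∧ E.b = I.b ∧ E.OK K₀ K CV δ' γ ∧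
          ∀ t ∈ Icc (0:ℝ) 1, ∀ e φ : VD D,
            E.R t e φ = I.b * ⟪e, φ⟫ + ⟪F t e + I.b • Nm D m (io D e) e - g t, io D φ⟫ := by
  obtain ⟨κ₀, hκ, hE⟩ := de_edata hd h
  refine ⟨κ₀, hκ, fun MS => ?_⟩
  obtain ⟨K₁, hK₁, hE⟩ := hE MS
  refine ⟨K₁, hK₁, fun K₀ M hK₀ => ?_⟩
  obtain ⟨K, hKK, hMK, hE⟩ := hE K₀ M hK₀
  refine ⟨K, hKK, hMK, fun I Ω N CV δ' γ hI hbM hN => ?_⟩
  exact ⟨_, _, _, _, hI.move hd h hN, fun t ht => (vD_spec h (hI.su.bd h.isOpen t) (hI.du t ht) (hI.uz t ht)).1,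
    hE I Ω CV δ' γ hI hbM⟩

/-- **One move.** `κ₀` depends on `D` only, `K₁` on the bound `MS` of the fields `Se`, `q₀` on the bound `M` of everything. -/
theorem de_move (hd : d = 2 ∨ d = 3) (h : Dom D z δ) : ∃ κ₀ : ℝ, 0 < κ₀ ∧ ∀ MS : ℝ, ∃ K₁ : ℝ, 1 ≤ K₁ ∧
    ∀ K₀ M : ℝ, K₁ ≤ K₀ → ∃ q₀ : ℝ → ℝ, ∀ (I : DIn d) (Ω N : Set (En d)) (CV δ' γ ε : ℝ) (y₀ : HD D),
      I.OK D Ω z κ₀ MS M CV δ' γ → 1 / I.b ≤ M → D \ closure N ⊆ Ω → 0 < ε → q₀ ε ≤ I.q →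
      Real.exp (4 * CV) * (2 * δ' * K₀ + 2 * K₀ ^ 3 * I.b + 2 * γ ^ 2 / I.b) ≤ ε →
      Real.exp (4 * CV) * ‖y₀ - PcD D (I.u 0)‖ ^ 2 + 3 * ε ≤ K₀ ^ 2 / 2 →
      ∃ (x : ℝ → HD D) (v : ℝ → VD D), CTr D N 0 I.b x v ∧ x 0 = y₀ ∧
        ‖x I.b - PcD D (I.u 1)‖ ^ 2 ≤ Real.exp (4 * CV) * ‖y₀ - PcD D (I.u 0)‖ ^ 2 + 3 * ε := by
  obtain ⟨κ₀, hκ, hE⟩ := de_edata hd h
  refine ⟨κ₀, hκ, fun MS => ?_⟩
  obtain ⟨K₁, hK₁, hE⟩ := hE MS
  refine ⟨K₁, hK₁, fun K₀ M hK₀ => ?_⟩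
  obtain ⟨K, hKK, hMK, hE⟩ := hE K₀ M hK₀
  have hbd := h.bdd
  obtain ⟨q₀, hmv⟩ := move_abs (io_tri hbd) (j4_isQ hd hbd) K
  refine ⟨q₀, fun I Ω N CV δ' γ ε y₀ hI hbM hN hε hq hexp hbig => ?_⟩
  have hM := hI.move hd h hN
  have hb0 := hI.b0
  have hNB : ∀ j, NB (io D) (fun v => ‖j4 D v‖) (I.b • Nm D j) := by
    intro j
    have h1 := Nm_NB hd hbd j
    refine ⟨fun u v => ?_, fun u v p => ?_⟩
    · rw [_root_.smul_apply, _root_.smul_apply, real_inner_smul_left, h1.skew, mul_zero]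
    · rw [_root_.smul_apply, _root_.smul_apply, real_inner_smul_left, abs_mul, abs_of_pos hb0]
      have h2 := h1.bd u v p
      calc I.b * |⟪Nm D j (io D u) v, io D p⟫| ≤ 1 * |⟪Nm D j (io D u) v, io D p⟫| :=
            mul_le_mul_of_nonneg_right hI.b1 (abs_nonneg _)
        _ ≤ _ := by rw [one_mul]; exact h2
  have hNt : ∀ u v p : VD D, Tendsto (fun j => ⟪(I.b • Nm D j) (io D u) v, io D p⟫) atTop
      (𝓝 (I.b * bV D u v p)) := by
    intro u v p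
    have h1 := (Nm_tendsto hd hbd u v p).const_mul I.b
    refine h1.congr fun j => ?_
    rw [_root_.smul_apply, _root_.smul_apply, real_inner_smul_left]
  have hu : ∀ t ∈ Icc (0:ℝ) 1, io D (vD D (I.u t)) = PcD D (I.u t) := fun t ht => by
    refine io_vD h ?_ (hI.du t ht) (hI.uz t ht)
    obtain ⟨n, c, g, hc, hg, he⟩ := hI.su
    exact (BD.sum (D := D) h.isOpen Finset.univ (f := fun k x => c k t • g k x)
      fun k _ => (hg k).const_smul h.isOpen (c k t)).congr h.isOpen fun x hx => (he t x hx).symm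
  obtain ⟨x, v, hl, hx1⟩ := hmv K₀ CV δ' γ ε I.q I.b (I.Fo D) (I.go D) (fun m => I.b • Nm D m)
    (fun p q r => I.b * bV D p q r) (y₀ - PcD D (I.u 0)) hε hq hI.CV0 (hK₁.trans hK₀) (hI.CVM.trans hMK) hM.cF hM.cg
    hNB hNt
    (fun m => by
      obtain ⟨E, h1, h2, h3, h4, h5⟩ := hE I Ω CV δ' γ hI hbM m
      refine ⟨E, h1, h2, h3, h4, fun t ht e φ => ?_⟩
      rw [h5 t ht e φ]
      rfl) hexp hbig
  refine ⟨fun t => io D (vD D (I.u (t / I.b))) + x (t / I.b), fun t => vD D (I.u (t / I.b)) + v (t / I.b),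
    hM.ctr hbd hb0 hl, ?_, ?_⟩
  · show io D (vD D (I.u (0 / I.b))) + x (0 / I.b) = y₀
    rw [zero_div, hl.init, hu 0 ⟨le_rfl, zero_le_one⟩]
    abel
  · show ‖io D (vD D (I.u (I.b / I.b))) + x (I.b / I.b) - PcD D (I.u 1)‖ ^ 2 ≤ _
    rw [div_self hb0.ne', hu 1 ⟨zero_le_one, le_rfl⟩, add_sub_cancel_left]
    exact hx1

end Pool.Agent.Lib.MP_79abb3_an.W
end

section

/-!
Theorem W (MP_79abb3_an), block C: EXPORT in the notation of the blocks D, DE, EM.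
-/

set_option autoImplicit false
set_option linter.unusedSectionVars false
set_option linter.unusedVariables false

open MeasureTheory Set Filter Topology Function
open scoped ENNReal RealInnerProductSpace

namespace Pool.Agent.Lib.MP_79abb3_an.W

variable {d : ℕ}

/-- **The waves exist** (export of block C). -/
theorem waves_exist (hd : d = 2 ∨ d = 3) {D : Set (En d)} {z : En d → ℝ} {δ : ℝ} (h : Dom D z δ) {p : En d} {r₂ : ℝ}
    (h0 : 0 < r₂) (hsub : Metric.closedBall p r₂ ⊆ D) (R : Rot d) (hR : Metric.closedBall R.c R.r ⊆ D) (c₀ : ℝ)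
    {ε κ : ℝ} (hε : 0 < ε) (hκ : 0 < κ) :
    ∃ (n : ℕ) (P Q : Fin n → En d → En d) (c : Fin n → ℝ) (r₀ : ℝ),
      Wvs D (Metric.closedBall p r₂) z n P Q c r₀ κ ∧
      Bk (D \ Metric.closedBall p r₂) 1 ε
        (fun x => ∑ j : Fin n, (2 * 4 ^ (j : ℕ) : ℝ)⁻¹ • brk (P j) (Q j) x - c₀ • R.V x) := by
  have h2 : 2 ≤ d := by omega
  obtain ⟨n, P, Q, c, hW, hw⟩ := exists_waves h h2 h0 hsub R hR c₀ 4 hε hκ
  obtain ⟨r₀, hr₀, hsl⟩ := hW.sl
  have hb : ∀ x : En d, x ∉ Metric.closedBall p r₂ → x ∉ Metric.ball p r₂ := fun x hx hh =>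
    hx (Metric.ball_subset_closedBall hh)
  have hwave : ∀ W : En d → En d, BD D W → (∀ x ∈ D, dv W x = 0) → (Oz D z fun x => ⟪gradient z x, W x⟫) →
      (∃ p' : En d → ℝ, BD D p' ∧ ∀ x ∈ D, x ∉ Metric.ball p r₂ → W =ᶠ[𝓝 x] gradient p') →
      Wave D (Metric.closedBall p r₂) z W := by
    intro W hW1 hW2 hW3 hW4
    obtain ⟨p', hp', he⟩ := hW4
    refine ⟨hW1, hW2, ?_, ⟨p', hp'.1.mono sdiff_subset, fun x hx => ?_⟩⟩
    · obtain ⟨C, hC⟩ := hW3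
      refine ⟨C, fun x hx => ?_⟩
      have := hC x hx
      simp only at this ⊢
      rw [gd_eq_gradient]
      exact this
    · rw [gd_eq_gradient]
      exact (he x hx.1 (hb x hx.2)).eq_of_nhds
  refine ⟨n, P, Q, c, r₀, ⟨fun j => hwave _ (hW.bP j) (hW.dP j) (hW.nP j) (hW.gP j),
    fun j => hwave _ (hW.bQ j) (hW.dQ j) (hW.nQ j) (hW.gQ j), hr₀, hW.c0, hW.cκ,
    fun j i hi x hx => (hsl j i hi x hx.1 hx.2).1, fun j i hi x hx => (hsl j i hi x hx.1 hx.2).2⟩, ?_⟩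
  intro i hi x hx
  exact hw i (by omega) x hx.1 (hb x hx.2)

end Pool.Agent.Lib.MP_79abb3_an.W
end

section

/-!
Theorem W (MP_79abb3_an), block EG: from the reference fields of one move to the elementary move `EMall`.
-/

set_option autoImplicit false
set_option linter.unusedSectionVars false

open MeasureTheory Set Filter Topology Function
open scoped ENNReal RealInnerProductSpace

namespace Pool.Agent.Lib.MP_79abb3_an.W

variable {d : ℕ}

/-- **The output of blocks C, D and EF**: the reference fields of one move. `κ₀` is given by `de_move`; the growth constant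
`CV` depends on the rotation, `MS` on the rotation and on `f`; `b` and all constants `M`, `δ'`, `γ` are chosen after `K₀`, `ε`,
`T`; they do not depend on the frequency `q`. -/
def DInS (D : Set (En d)) (z : En d → ℝ) (p : En d) (r : ℝ) (R : Rot d) : Prop :=
  ∀ κ₀ > 0, ∃ CV : ℝ, 0 ≤ CV ∧ ∀ f : En d → En d, IsTe D f → ∃ MS : ℝ, ∀ K₀ ≥ 1, ∀ ε > 0, ∀ T > 0,
    ∃ M b δ' γ : ℝ, 0 < b ∧ b ≤ T ∧ 1 / b ≤ M ∧
      Real.exp (4 * CV) * (2 * δ' * K₀ + 2 * K₀ ^ 3 * b + 2 * γ ^ 2 / b) ≤ ε ∧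
      ∀ q₀ : ℝ, ∃ I : DIn d, I.OK D (D \ Metric.closedBall p r) z κ₀ MS M CV δ' γ ∧ I.b = b ∧ q₀ ≤ I.q ∧
        ‖PcD D (I.u 0) - PD D (cl f)‖ ≤ ε ∧ ‖PcD D (I.u 1) - PD D (cl (R.pb (-1) f))‖ ≤ ε

/-- The export of blocks C, D, EF for all domains. -/
def DInall : Prop := ∀ d : ℕ, d = 2 ∨ d = 3 → ∀ (D : Set (En d)) (z : En d → ℝ) (δ : ℝ), Dom D z δ →
  ∀ (p : En d) (r : ℝ), 0 < r → Metric.closedBall p r ⊆ D → ∀ R : Rot d,
    Metric.closedBall R.c R.r ⊆ D \ Metric.closedBall p (r / 2) → DInS D z p r R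

/-- The elementary move for smooth one forms. -/
def EmS (D : Set (En d)) (xN : En d) (r : ℝ) (R : Rot d) : Prop :=
  ∃ C : ℝ, 0 ≤ C ∧ ∀ f : En d → En d, IsTe D f → ∀ y₀ : HD D, ∀ ε > 0, ∀ T > 0,
    ∃ b ∈ Ioc (0:ℝ) T, ∃ (x : ℝ → HD D) (v : ℝ → VD D), CTr D (Metric.ball xN r) 0 b x v ∧ x 0 = y₀ ∧
      ‖x b - PD D (cl (R.pb (-1) f))‖ ≤ C * ‖y₀ - PD D (cl f)‖ + ε

private theorem ega_sqrt {a e CV : ℝ} (ha : 0 ≤ a) (he : 0 ≤ e) {X : ℝ} (hX0 : 0 ≤ X)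
    (hX : X ^ 2 ≤ Real.exp (4 * CV) * a ^ 2 + 3 * e) : X ≤ Real.exp (2 * CV) * a + √(3 * e) := by
  have h1 : Real.exp (4 * CV) = Real.exp (2 * CV) ^ 2 := by
    rw [← Real.exp_nat_mul]
    congr 1
    push_cast
    ring
  have h2 : √(3 * e) ^ 2 = 3 * e := Real.sq_sqrt (by linarith)
  have h3 : 0 ≤ Real.exp (2 * CV) * a := mul_nonneg (Real.exp_pos _).le ha
  have h4 : 0 ≤ √(3 * e) := Real.sqrt_nonneg _
  refine abs_le_of_sq_le_sq' ?_ (by positivity) |>.2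
  rw [h1] at hX
  nlinarith [mul_nonneg h3 h4]

private theorem ega_cl_norm {f : En d → En d} (hf : MemLp f 2 (volume : Measure (En d))) :
    ‖cl f‖ = (eLpNorm f 2 (volume : Measure (En d))).toReal := by
  rw [cl_eq hf, Lp.norm_toLp]

private theorem ega_cl_sub {f g : En d → En d} (hf : MemLp f 2 (volume : Measure (En d)))
    (hg : MemLp g 2 (volume : Measure (En d))) : cl f - cl g = cl (fun x => f x - g x) := by
  have h : MemLp (fun x => f x - g x) 2 (volume : Measure (En d)) := hf.sub hg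
  rw [cl_eq hf, cl_eq hg, cl_eq h]
  rfl

/-- The move for smooth one forms: `de_move`, `K₀` large after `‖y₀ - P f‖`. -/
theorem emS_of (hd : d = 2 ∨ d = 3) {D : Set (En d)} {z : En d → ℝ} {δ : ℝ} (h : Dom D z δ) {p : En d} {r : ℝ}
    (hr : 0 < r) {R : Rot d} (hI : DInS D z p r R) : EmS D p r R := by
  obtain ⟨κ₀, hκ, hmove⟩ := de_move hd h
  obtain ⟨CV, hCV, hf0⟩ := hI κ₀ hκ
  refine ⟨Real.exp (2 * CV), (Real.exp_pos _).le, fun f hf y₀ ε hε T hT => ?_⟩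
  obtain ⟨MS, hf1⟩ := hf0 f hf
  obtain ⟨K₁, hK₁, hmv⟩ := hmove MS
  obtain ⟨E2, hE2⟩ : ∃ E2 : ℝ, E2 = Real.exp (2 * CV) := ⟨_, rfl⟩
  have hE2p : 0 < E2 := by rw [hE2]; exact Real.exp_pos _
  obtain ⟨ρ, hρ⟩ : ∃ ρ : ℝ, ρ = ‖y₀ - PD D (cl f)‖ := ⟨_, rfl⟩
  have hρ0 : 0 ≤ ρ := by rw [hρ]; exact norm_nonneg _
  obtain ⟨ε₁, hε₁⟩ : ∃ ε₁ : ℝ, ε₁ = min (ε / (2 * (1 + E2))) (ε ^ 2 / 12) := ⟨_, rfl⟩
  have hε₁0 : 0 < ε₁ := by
    rw [hε₁]
    exact lt_min (by positivity) (by positivity)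
  have hε₁a : (1 + E2) * ε₁ ≤ ε / 2 := by
    have h1 : ε₁ ≤ ε / (2 * (1 + E2)) := by rw [hε₁]; exact min_le_left _ _
    rw [le_div_iff₀ (by positivity)] at h1
    linarith
  have hε₁b : √(3 * ε₁) ≤ ε / 2 := by
    rw [Real.sqrt_le_left (by positivity)]
    have h1 : ε₁ ≤ ε ^ 2 / 12 := by rw [hε₁]; exact min_le_right _ _
    nlinarith
  obtain ⟨S, hSd⟩ : ∃ S : ℝ, S = 2 * (Real.exp (4 * CV) * (ρ + ε₁) ^ 2 + 3 * ε₁) := ⟨_, rfl⟩
  have hS0 : 0 ≤ S := by rw [hSd]; positivity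
  obtain ⟨M, b, δ', γ, hb0, hbT, hbM, hexp, hq⟩ :=
    hf1 (max K₁ (S + 1)) (hK₁.trans (le_max_left _ _)) ε₁ hε₁0 T hT
  obtain ⟨q₀, hmv⟩ := hmv (max K₁ (S + 1)) M (le_max_left _ _)
  obtain ⟨I, hIOK, hIb, hIq, hu0, hu1⟩ := hq (q₀ ε₁)
  have hx₀ : ‖y₀ - PcD D (I.u 0)‖ ≤ ρ + ε₁ := by
    have h1 : y₀ - PcD D (I.u 0) = (y₀ - PD D (cl f)) - (PcD D (I.u 0) - PD D (cl f)) := by abel
    rw [h1, hρ]
    exact (norm_sub_le _ _).trans (by linarith)
  have hbig : Real.exp (4 * CV) * ‖y₀ - PcD D (I.u 0)‖ ^ 2 + 3 * ε₁ ≤ max K₁ (S + 1) ^ 2 / 2 := by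
    have h1 : ‖y₀ - PcD D (I.u 0)‖ ^ 2 ≤ (ρ + ε₁) ^ 2 := pow_le_pow_left₀ (norm_nonneg _) hx₀ 2
    have h2 : Real.exp (4 * CV) * ‖y₀ - PcD D (I.u 0)‖ ^ 2 ≤ Real.exp (4 * CV) * (ρ + ε₁) ^ 2 :=
      mul_le_mul_of_nonneg_left h1 (Real.exp_pos _).le
    have h3 : (S + 1) ^ 2 ≤ max K₁ (S + 1) ^ 2 :=
      pow_le_pow_left₀ (by linarith) (le_max_right _ _) 2
    have h4 : S ≤ (S + 1) ^ 2 := by nlinarith
    linarith
  have hN : D \ closure (Metric.ball p r) ⊆ D \ Metric.closedBall p r := by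
    rw [closure_ball p hr.ne']
  obtain ⟨x, v, hct, hx0, hx1⟩ := hmv I (D \ Metric.closedBall p r) (Metric.ball p r) CV δ' γ ε₁ y₀ hIOK
    (by rw [hIb]; exact hbM) hN hε₁0 hIq (by rw [hIb]; exact hexp) hbig
  rw [hIb] at hct hx1
  refine ⟨b, ⟨hb0, hbT⟩, x, v, hct, hx0, ?_⟩
  rw [← hρ, ← hE2]
  have h1 : x b - PD D (cl (R.pb (-1) f)) =
      (x b - PcD D (I.u 1)) + (PcD D (I.u 1) - PD D (cl (R.pb (-1) f))) := by abel
  rw [h1]
  have h2 := ega_sqrt (norm_nonneg _) hε₁0.le (norm_nonneg _) hx1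
  rw [← hE2] at h2
  have h3 : E2 * ‖y₀ - PcD D (I.u 0)‖ ≤ E2 * (ρ + ε₁) := mul_le_mul_of_nonneg_left hx₀ hE2p.le
  refine (norm_add_le _ _).trans ?_
  nlinarith

private theorem ega_PD_ind {D : Set (En d)} (hDo : IsOpen D) {f : En d → En d}
    (hf : MemLp f 2 (volume : Measure (En d))) : PD D (cl f) = PD D (cl (D.indicator f)) := by
  have hfi : MemLp (D.indicator f) 2 (volume : Measure (En d)) := hf.indicator hDo.measurableSet
  refine ext_inner_right ℝ fun u => ?_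
  rw [inner_PD, inner_PD, real_inner_comm, inner_cl _ hf, real_inner_comm, inner_cl _ hfi]
  refine integral_congr_ae ?_
  filter_upwards [HD_supp u] with x hx
  by_cases h : x ∈ D
  · rw [indicator_of_mem h]
  · rw [hx h, inner_zero_left, inner_zero_left]

private theorem ega_pb_ind {D : Set (En d)} {R : Rot d} (hR : Metric.closedBall R.c R.r ⊆ D) (t : ℝ)
    (f : En d → En d) : R.pb t (D.indicator f) = D.indicator (R.pb t f) := by
  funext x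
  by_cases hx : x ∈ D
  · rw [indicator_of_mem hx]
    show ContinuousLinearMap.adjoint (fderiv ℝ (R.X t) x) (D.indicator f (R.X t x)) = _
    rw [indicator_of_mem ((R.X_mem hR t x).2 hx)]
    rfl
  · rw [indicator_of_notMem hx]
    show ContinuousLinearMap.adjoint (fderiv ℝ (R.X t) x) (D.indicator f (R.X t x)) = _
    rw [indicator_of_notMem (fun h => hx ((R.X_mem hR t x).1 h)), map_zero]

private theorem ega_em0 {D : Set (En d)} (hDo : IsOpen D) {p : En d} {r : ℝ} {R : Rot d} (hE : EmS D p r R) :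
    ∃ C : ℝ, 0 ≤ C ∧ ∀ f : En d → En d, MemLp f 2 (volume : Measure (En d)) →
      (∀ᵐ x, x ∉ D → f x = 0) → ∀ y₀ : HD D, ∀ ε > 0, ∀ T > 0,
      ∃ b ∈ Ioc (0:ℝ) T, ∃ (x : ℝ → HD D) (v : ℝ → VD D), CTr D (Metric.ball p r) 0 b x v ∧ x 0 = y₀ ∧
        ‖x b - PD D (cl (R.pb (-1) f))‖ ≤ C * ‖y₀ - PD D (cl f)‖ + ε := by
  obtain ⟨C₀, hC₀, hmv⟩ := hE
  obtain ⟨Cp, hCp, hpb⟩ := R.pb_le 1
  refine ⟨C₀, hC₀, fun f hf hf0 y₀ ε hε T hT => ?_⟩
  obtain ⟨ε', hε'⟩ : ∃ ε' : ℝ, ε' = ε / (2 * (C₀ + Cp + 1)) := ⟨_, rfl⟩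
  have hε'0 : 0 < ε' := by rw [hε']; positivity
  have hε'1 : (C₀ + Cp) * ε' ≤ ε / 2 := by
    have h1 : (C₀ + Cp + 1) * ε' = ε / 2 := by
      rw [hε']
      field_simp
    nlinarith
  obtain ⟨g, hg, hfg⟩ := te_dense hDo hf hf0 hε'0
  have hgm : MemLp g 2 (volume : Measure (En d)) := hg.memLp 2
  obtain ⟨b, hb, x, v, hct, hx0, hxb⟩ := hmv g hg y₀ (ε / 2) (by positivity) T hT
  refine ⟨b, hb, x, v, hct, hx0, ?_⟩
  have hd1 : ‖PD D (cl f) - PD D (cl g)‖ ≤ ε' := by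
    rw [← map_sub]
    refine (PD_le _).trans ?_
    have hfgm : MemLp (fun x => f x - g x) 2 (volume : Measure (En d)) := hf.sub hgm
    rw [ega_cl_sub hf hgm, ega_cl_norm hfgm]
    exact ENNReal.toReal_le_of_le_ofReal hε'0.le hfg
  have hfp := R.pb_memLp (-1) hf
  have hgp := R.pb_memLp (-1) hgm
  have hd2 : ‖PD D (cl (R.pb (-1) f)) - PD D (cl (R.pb (-1) g))‖ ≤ Cp * ε' := by
    rw [← map_sub]
    refine (PD_le _).trans ?_
    rw [ega_cl_sub hfp hgp]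
    have h1 : (fun x => R.pb (-1) f x - R.pb (-1) g x) = R.pb (-1) (fun x => f x - g x) := by
      have h2 := R.pb_lin (-1) 1 (-1) f g
      have h3 : (fun x => (1 : ℝ) • f x + (-1 : ℝ) • g x) = fun x => f x - g x := by
        funext x
        rw [one_smul, neg_one_smul, ← sub_eq_add_neg]
      rw [h3] at h2
      rw [h2]
      funext x
      rw [one_smul, neg_one_smul, ← sub_eq_add_neg]
    have hfgm : MemLp (fun x => f x - g x) 2 (volume : Measure (En d)) := hf.sub hgm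
    rw [h1, ega_cl_norm (R.pb_memLp (-1) hfgm)]
    have h4 := hpb (-1) ⟨le_rfl, by norm_num⟩ _ hfgm
    refine ENNReal.toReal_le_of_le_ofReal (by positivity) (h4.trans ?_)
    rw [ENNReal.ofReal_mul hCp]
    exact mul_le_mul_right hfg _
  have h1 : x b - PD D (cl (R.pb (-1) f)) = (x b - PD D (cl (R.pb (-1) g))) -
      (PD D (cl (R.pb (-1) f)) - PD D (cl (R.pb (-1) g))) := by abel
  have h2 : y₀ - PD D (cl g) = (y₀ - PD D (cl f)) + (PD D (cl f) - PD D (cl g)) := by abel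
  have h3 : ‖y₀ - PD D (cl g)‖ ≤ ‖y₀ - PD D (cl f)‖ + ε' := by
    rw [h2]
    exact (norm_add_le _ _).trans (by linarith)
  have h4 : C₀ * ‖y₀ - PD D (cl g)‖ ≤ C₀ * (‖y₀ - PD D (cl f)‖ + ε') :=
    mul_le_mul_of_nonneg_left h3 hC₀
  rw [h1]
  refine (norm_sub_le _ _).trans ?_
  linarith

/-- **The elementary move for all one forms.** -/
theorem em_of_emS {D : Set (En d)} (hDo : IsOpen D) {p : En d} {r : ℝ} {R : Rot d}
    (hR : Metric.closedBall R.c R.r ⊆ D) (hE : EmS D p r R) :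
    ∃ C : ℝ, 0 ≤ C ∧ ∀ f : En d → En d, MemLp f 2 (volume : Measure (En d)) → ∀ y₀ : HD D, ∀ ε > 0, ∀ T > 0,
      ∃ b ∈ Ioc (0:ℝ) T, ∃ (x : ℝ → HD D) (v : ℝ → VD D), CTr D (Metric.ball p r) 0 b x v ∧ x 0 = y₀ ∧
        ‖x b - PD D (cl (R.pb (-1) f))‖ ≤ C * ‖y₀ - PD D (cl f)‖ + ε := by
  obtain ⟨C, hC, h⟩ := ega_em0 hDo hE
  refine ⟨C, hC, fun f hf y₀ ε hε T hT => ?_⟩
  have hfi : MemLp (D.indicator f) 2 (volume : Measure (En d)) := hf.indicator hDo.measurableSet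
  obtain ⟨b, hb, x, v, h1, h2, h3⟩ := h (D.indicator f) hfi
    (Eventually.of_forall fun x hx => indicator_of_notMem hx f) y₀ ε hε T hT
  refine ⟨b, hb, x, v, h1, h2, ?_⟩
  rw [ega_PD_ind hDo hf, ega_PD_ind hDo (R.pb_memLp (-1) hf), ← ega_pb_ind hR]
  exact h3

/-- **`EMall` from the reference fields.** -/
theorem em_all_of_din (h : DInall) : EMall := by
  intro d hd D z δ hD p r hr hb R hR
  exact em_of_emS hD.isOpen (hR.trans sdiff_subset) (emS_of hd hD hr (h d hd D z δ hD p r hr hb R hR))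

end Pool.Agent.Lib.MP_79abb3_an.W
end

section

/-!
Theorem W (MP_79abb3_an), block EG (the reference fields of one move): **the choice of all constants**.
-/

set_option autoImplicit false
set_option linter.unusedSectionVars false

open MeasureTheory Set Filter Topology Function
open scoped ENNReal RealInnerProductSpace

namespace Pool.Agent.Lib.MP_79abb3_an.W

/-- The export of block C (`waves_exist`). -/
def Cexp : Prop := ∀ d : ℕ, d = 2 ∨ d = 3 → ∀ (D : Set (En d)) (z : En d → ℝ) (δ : ℝ), Dom D z δ →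
  ∀ (p : En d) (r₂ : ℝ), 0 < r₂ → Metric.closedBall p r₂ ⊆ D → ∀ R : Rot d, Metric.closedBall R.c R.r ⊆ D →
    ∀ c₀ ε κ : ℝ, 0 < ε → 0 < κ → ∃ (n : ℕ) (P Q : Fin n → En d → En d) (c : Fin n → ℝ) (r₀ : ℝ),
      Wvs D (Metric.closedBall p r₂) z n P Q c r₀ κ ∧ Bk (D \ Metric.closedBall p r₂) 1 ε fun x =>
        (∑ j : Fin n, (2 * 4 ^ (j : ℕ) : ℝ)⁻¹ • brk (P j) (Q j) x) - c₀ • R.V x

private theorem egc_Ka {a : ℝ → ℝ} (ha : ContDiff ℝ ((⊤ : ℕ∞) : WithTop ℕ∞) a) (hl : ∀ t, t ≤ 1 / 4 → a t = 0)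
    (hr : ∀ t, 3 / 4 ≤ t → a t = 0) : ∃ Ka : ℝ, ∀ t, |deriv a t| ≤ Ka := by
  have h1 : Continuous (deriv a) := ha.continuous_deriv (by simp)
  have h2 : HasCompactSupport a := by
    refine HasCompactSupport.intro (isCompact_Icc (a := (1 / 4 : ℝ)) (b := 3 / 4)) fun t ht => ?_
    rw [mem_Icc, not_and_or, not_le, not_le] at ht
    rcases ht with ht | ht
    · exact hl t ht.le
    · exact hr t ht.le
  obtain ⟨C, hC⟩ := h1.bounded_above_of_compact_support h2.deriv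
  exact ⟨C, fun t => by
    have := hC t
    rwa [Real.norm_eq_abs] at this⟩

/-- `ρ` small -/
private theorem egc_ρ {δ₀ m κ₀ A B C E x y : ℝ} (h1 : 0 < δ₀) (h2 : 0 < m) (h3 : 0 < κ₀) (hA : 0 ≤ A) (hB : 0 ≤ B)
    (hC : 0 ≤ C) (hE : 0 ≤ E) (hx : 0 < x) (hy : 0 < y) :
    ∃ ρ : ℝ, 0 < ρ ∧ ρ ≤ δ₀ ∧ ρ ≤ 1 ∧ 2 * ρ ≤ m ∧ A * ρ * B ≤ κ₀ / 4 ∧ C * √ρ * E ≤ x ∧ C * √ρ * B ≤ y := by
  obtain ⟨w, hw⟩ : ∃ w : ℝ, w = min x y / (C * (E + B) + 1) := ⟨_, rfl⟩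
  have hm0 : 0 < min x y := lt_min hx hy
  have hw0 : 0 < w := by rw [hw]; positivity
  have hw1 : C * w * (E + B) ≤ min x y := by
    have h : w * (C * (E + B) + 1) = min x y := by
      rw [hw]
      field_simp
    nlinarith
  obtain ⟨ρ, hρ⟩ : ∃ ρ : ℝ, ρ = min (min δ₀ 1) (min (m / 2) (min (κ₀ / (4 * (A * B + 1))) (w ^ 2))) := ⟨_, rfl⟩
  have hρ0 : 0 < ρ := by rw [hρ]; positivity
  have k1 : ρ ≤ δ₀ := by rw [hρ]; exact (min_le_left _ _).trans (min_le_left _ _)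
  have k2 : ρ ≤ 1 := by rw [hρ]; exact (min_le_left _ _).trans (min_le_right _ _)
  have k3 : ρ ≤ m / 2 := by rw [hρ]; exact (min_le_right _ _).trans (min_le_left _ _)
  have k4 : ρ ≤ κ₀ / (4 * (A * B + 1)) := by
    rw [hρ]
    exact (min_le_right _ _).trans ((min_le_right _ _).trans (min_le_left _ _))
  have k5 : ρ ≤ w ^ 2 := by
    rw [hρ]
    exact (min_le_right _ _).trans ((min_le_right _ _).trans (min_le_right _ _))
  have k6 : √ρ ≤ w := by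
    rw [← Real.sqrt_sq hw0.le]
    exact Real.sqrt_le_sqrt k5
  have k7 : 0 ≤ √ρ := Real.sqrt_nonneg _
  refine ⟨ρ, hρ0, k1, k2, by linarith, ?_, ?_, ?_⟩
  · rw [le_div_iff₀ (by positivity)] at k4
    nlinarith [mul_nonneg hA hB]
  · refine le_trans ?_ (hw1.trans (min_le_left _ _))
    have e1 : C * √ρ * E ≤ C * w * E := mul_le_mul_of_nonneg_right (mul_le_mul_of_nonneg_left k6 hC) hE
    nlinarith [mul_nonneg (mul_nonneg hC hw0.le) hB]
  · refine le_trans ?_ (hw1.trans (min_le_right _ _))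
    have e1 : C * √ρ * B ≤ C * w * B := mul_le_mul_of_nonneg_right (mul_le_mul_of_nonneg_left k6 hC) hB
    nlinarith [mul_nonneg (mul_nonneg hC hw0.le) hE]

/-- `b` small -/
private theorem egc_b {T ε E K₀ G δ' : ℝ} (hT : 0 < T) (hε : 0 < ε) (hE : 0 < E) (hK : 1 ≤ K₀) (hG : 1 ≤ G)
    (hδ : E * (2 * δ' * K₀) ≤ ε / 3) : ∃ b : ℝ, 0 < b ∧ b ≤ T ∧ b ≤ 1 ∧ b * G ≤ 1 ∧
      E * (2 * δ' * K₀ + 2 * K₀ ^ 3 * b + 2 * (b * G) ^ 2 / b) ≤ ε := by
  have hK3 : 0 < K₀ ^ 3 := by positivity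
  have hG2 : 0 < G ^ 2 := by positivity
  obtain ⟨b, hb⟩ : ∃ b : ℝ, b = min (min T 1) (min (1 / G) (ε / (3 * E * (K₀ ^ 3 + G ^ 2)))) := ⟨_, rfl⟩
  have hb0 : 0 < b := by rw [hb]; positivity
  have k1 : b ≤ T := by rw [hb]; exact (min_le_left _ _).trans (min_le_left _ _)
  have k2 : b ≤ 1 := by rw [hb]; exact (min_le_left _ _).trans (min_le_right _ _)
  have k3 : b ≤ 1 / G := by rw [hb]; exact (min_le_right _ _).trans (min_le_left _ _)
  have k4 : b ≤ ε / (3 * E * (K₀ ^ 3 + G ^ 2)) := by rw [hb]; exact (min_le_right _ _).trans (min_le_right _ _)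
  refine ⟨b, hb0, k1, k2, ?_, ?_⟩
  · rw [le_div_iff₀ (by positivity)] at k3
    exact k3
  · rw [le_div_iff₀ (by positivity)] at k4
    have e1 : 2 * (b * G) ^ 2 / b = 2 * b * G ^ 2 := by field_simp
    rw [e1]
    nlinarith

/-- `κ'` small -/
private theorem egc_κ {KL κ₀ δ' CS : ℝ} (h1 : 0 ≤ KL) (h2 : 0 < κ₀) (h3 : 0 < δ') (h4 : 0 ≤ CS) :
    ∃ κ' : ℝ, 0 < κ' ∧ KL * κ' ≤ 1 / 4 ∧ CS * (KL * κ') ≤ δ' / 8 ∧ KL * √κ' ≤ κ₀ / 4 := by
  obtain ⟨w, hw⟩ : ∃ w : ℝ, w = κ₀ / (4 * (KL + 1)) := ⟨_, rfl⟩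
  have hw0 : 0 < w := by rw [hw]; positivity
  obtain ⟨κ', hκ⟩ : ∃ κ' : ℝ, κ' = min (1 / (4 * (KL + 1))) (min (δ' / (8 * (CS + 1) * (KL + 1))) (w ^ 2)) := ⟨_, rfl⟩
  have hκ0 : 0 < κ' := by rw [hκ]; positivity
  have k1 : κ' ≤ 1 / (4 * (KL + 1)) := by rw [hκ]; exact min_le_left _ _
  have k2 : κ' ≤ δ' / (8 * (CS + 1) * (KL + 1)) := by rw [hκ]; exact (min_le_right _ _).trans (min_le_left _ _)
  have k3 : κ' ≤ w ^ 2 := by rw [hκ]; exact (min_le_right _ _).trans (min_le_right _ _)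
  have k6 : √κ' ≤ w := by
    rw [← Real.sqrt_sq hw0.le]
    exact Real.sqrt_le_sqrt k3
  refine ⟨κ', hκ0, ?_, ?_, ?_⟩
  · rw [le_div_iff₀ (by positivity)] at k1
    nlinarith
  · rw [le_div_iff₀ (by positivity)] at k2
    have e1 : 0 ≤ κ' * CS := by positivity
    have e2 : 0 ≤ κ' * KL := by positivity
    nlinarith
  · have e1 : KL * √κ' ≤ KL * w := mul_le_mul_of_nonneg_left k6 h1
    have e2 : w * (4 * (KL + 1)) = κ₀ := by
      rw [hw]
      field_simp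
    nlinarith

/-- `εC` small -/
private theorem egc_ε {A CS δ' : ℝ} (h1 : 0 ≤ A) (h3 : 0 < δ') (h4 : 0 ≤ CS) :
    ∃ ε : ℝ, 0 < ε ∧ ε ≤ 1 / 2 ∧ CS * (ε * A) ≤ δ' / 8 := by
  obtain ⟨ε, hε⟩ : ∃ ε : ℝ, ε = min (1 / 2) (δ' / (8 * (CS + 1) * (A + 1))) := ⟨_, rfl⟩
  have hε0 : 0 < ε := by rw [hε]; positivity
  have k1 : ε ≤ 1 / 2 := by rw [hε]; exact min_le_left _ _
  have k2 : ε ≤ δ' / (8 * (CS + 1) * (A + 1)) := by rw [hε]; exact min_le_right _ _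
  refine ⟨ε, hε0, k1, ?_⟩
  rw [le_div_iff₀ (by positivity)] at k2
  have e1 : 0 ≤ ε * CS := by positivity
  have e2 : 0 ≤ ε * A := by positivity
  nlinarith

/-- **The reference fields of one move exist.** -/
theorem din_all (hC : Cexp) : DInall := by
  intro d hd D z δ hDom p r hr hb R hR κ₀ hκ
  have hRD : Metric.closedBall R.c R.r ⊆ D := hR.trans sdiff_subset
  have hbB : Metric.closedBall p (r / 2) ⊆ D :=
    (Metric.closedBall_subset_closedBall (by linarith)).trans hb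
  obtain ⟨a, s, c, hc, ha, hs, ha0, ha1, hal, har, hds, hs0, hs1, hsI⟩ := exists_clock
  obtain ⟨δ₀, hδ0, hδδ, hstg⟩ := hDom.exists_stg hbB
  have h0 : Dom D z δ₀ := hstg.dom
  have hD : IsOpen D := h0.isOpen
  obtain ⟨hVb, m, hm, hVz⟩ := Rot.V₀_facts h0 R hRD c
  obtain ⟨Kv, hKv0, hKv⟩ := hVb.exists_Bk 1
  obtain ⟨Ka, hKa⟩ := egc_Ka ha hal har
  obtain ⟨CH, hCH, hdin⟩ := Fld.din hd h0
  obtain ⟨CS, hCS, hdin⟩ := hdin Kv Ka
  obtain ⟨KL, hKL, hlay⟩ := layers_main hstg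
  obtain ⟨Cc, hCc, hcorr⟩ := corr_le h0
  obtain ⟨Cp, hCp, hpcd⟩ := corr_pcd h0
  obtain ⟨χ₁, hχs, hχ01, hχB, hχo⟩ := exists_cutG (p := p) hr
  have hCV0 : 0 ≤ (Kv + 1) * (1 + (d : ℝ) / 2) := by positivity
  refine ⟨(Kv + 1) * (1 + (d : ℝ) / 2), hCV0, fun f hf => ?_⟩
  obtain ⟨K, hK0, hslow⟩ := exists_slow h0 R hRD hc ha hs ha0 ha1 hds hs0 hs1 hsI hf
  refine ⟨K 2 + 1, fun K₀ hK₀ ε hε T hT => ?_⟩
  have hK2 : 0 ≤ K 2 := hK0 2
  obtain ⟨E, hE⟩ : ∃ E : ℝ, E = Real.exp (4 * ((Kv + 1) * (1 + (d : ℝ) / 2))) := ⟨_, rfl⟩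
  have hE0 : 0 < E := by rw [hE]; exact Real.exp_pos _
  rw [← hE]
  -- the error of the slow equation
  obtain ⟨δ', hδ'⟩ : ∃ δ' : ℝ, δ' = min 1 (ε / (6 * E * K₀)) := ⟨_, rfl⟩
  have hK00 : 0 < K₀ := lt_of_lt_of_le one_pos hK₀
  have hδ'0 : 0 < δ' := by rw [hδ']; positivity
  have hδ'1 : δ' ≤ 1 := by rw [hδ']; exact min_le_left _ _
  have hδ'2 : E * (2 * δ' * K₀) ≤ ε / 3 := by
    have h1 : δ' ≤ ε / (6 * E * K₀) := by rw [hδ']; exact min_le_right _ _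
    rw [le_div_iff₀ (by positivity)] at h1
    linarith
  obtain ⟨η, hη⟩ : ∃ η : ℝ, η = δ' / (8 * (CS + 1)) := ⟨_, rfl⟩
  have hη0 : 0 < η := by rw [hη]; positivity
  have hη1 : CS * η ≤ δ' / 8 := by
    have h1 : η * (8 * (CS + 1)) = δ' := by
      rw [hη]
      field_simp
    nlinarith
  obtain ⟨Y, F, hsY, hsF, hlr, hbY, hbF, hF0, hF1, hFte, heq, hpd⟩ := hslow η hη0
  -- the width of the corrector
  obtain ⟨A2, hA20, hA2⟩ := hsY.dtm.exists_Bk hD 2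
  obtain ⟨ρ, hρ0, hρδ, hρ1, hρm, hρκ, hρA, hρK⟩ := egc_ρ (δ₀ := δ₀) (m := m) (κ₀ := κ₀) (A := Cc) (B := K 2)
    (C := Cp) (E := A2) (x := δ' / 8) (y := ε) hδ0 hm hκ hCc hK2 hCp hA20 (by positivity) hε
  have hYbd : ∀ t, BD D (Y t) := fun t => (hlr t).bd
  obtain ⟨hsco, hdco⟩ := corr_sep h0 hρ0 hsY
  obtain ⟨Kc, hKc0, hKc⟩ := hsco.exists_Bk hD 1
  obtain ⟨Ks, hKs0, hKs⟩ := (hsY.sub hsco).exists_Bk hD 2
  obtain ⟨G, hG⟩ : ∃ G : ℝ, G = CH * ((Ks + 1) ^ 2 + d * (Ks + 1)) + 1 := ⟨_, rfl⟩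
  have hG1 : 1 ≤ G := by
    rw [hG]
    have : 0 ≤ CH * ((Ks + 1) ^ 2 + d * (Ks + 1)) := by positivity
    linarith
  -- the length of the time interval
  obtain ⟨b, hb0, hbT, hb1, hbG, hbE⟩ := egc_b hT hε hE0 hK₀ hG1 hδ'2
  obtain ⟨κ', hκ'0, hκ'1, hκ'2, hκ'3⟩ := egc_κ hKL hκ hδ'0 hCS
  obtain ⟨εC, hεC0, hεC1, hεC2⟩ := egc_ε (A := K 2 + Kc + 1) (by positivity) hδ'0 hCS
  have hbκ : 0 < b * κ' := mul_pos hb0 hκ'0
  -- the waves and the layers
  obtain ⟨n, P, Q, c', r₀, hW, hnear⟩ := hC d hd D z δ hDom p (r / 2) (by positivity) hbB R hRD c εC (b * κ')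
    hεC0 hbκ
  obtain ⟨ψ, ψ', C0, C1, hψ, hψ', hC0b, hC0d, hC0n, hC0k, hC1b, hC1d, hlay1⟩ := hlay n P Q c' r₀ (b * κ') hW
  obtain ⟨hcb, hap⟩ := ap_cb ha ha0 ha1 hal har hb0
  obtain ⟨RL, RB, hL⟩ := hlay1 (fun t => (√b)⁻¹ * a (t / b)) (√b)⁻¹ hcb hap
  obtain ⟨rN, πN, Cr, cr, hcr, hfrN, hsπ, heN, hbrN⟩ := hL.eq
  have hKCb : KL * (b * κ') / b = KL * κ' := by field_simp
  obtain ⟨X, hX⟩ : ∃ X : Fld d, X = ⟨z, δ₀, p, r, a, b, ρ, Y, F, fun x => c • R.V x, n, P, Q, ψ, ψ', C0, C1, RL,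
    RB, rN, πN, χ₁, Kv, Ka, K 2, η, Kc, Ks, δ' / 8, εC, KL * (b * κ'), KL, b * κ', Cr, cr⟩ := ⟨_, rfl⟩
  have hOK : X.OK D := by
    rw [hX]
    exact
      { d2 := hd
        stg := hstg
        r0 := hr
        sub := hb
        as := ha
        a0 := ha0
        a1 := ha1
        al := hal
        ar := har
        a' := hKa
        b0 := hb0
        b1 := hb1
        ρ0 := hρ0
        ρ1 := hρ1
        ρδ := hρδ
        sY := hsY
        sF := hsF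
        lr := hlr
        K1 := hK2
        bY := fun t => hbY 2 t
        bF := fun t => hbF 2 t
        η0 := hη0.le
        slow := fun t x hx => by
          have h1 := heq t x hx
          rw [mul_smul, ← lieF_smul_left c R.V_smo] at h1
          exact h1
        pd := hpd
        bco := hKc
        Kc0 := hKc0
        bsl := hKs
        Ks0 := hKs0
        pco := fun t ht => (hpcd ρ hρ0 hρδ hρ1 (dtm Y t) A2 (hsY.dtm.bd hD t) hA20 (hA2 t ht)).trans hρA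
        V₀b := hVb
        V₀k := hKv
        Kv0 := hKv0
        V₀z := fun x hx hz => hVz x hx (hz.trans hρm)
        wP := hW.wP
        wQ := hW.wQ
        ε0 := hεC0.le
        ε1 := hεC1.trans (by norm_num)
        near := hnear
        hψ := hψ
        hψ' := hψ'
        C0b := hC0b
        C0d := hC0d
        C0n := hC0n
        C0k := hC0k
        KC0 := mul_nonneg hKL hbκ.le
        KCb := by
          show KL * (b * κ') / b ≤ 1 / 4
          rw [hKCb]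
          exact hκ'1
        C1b := hC1b
        C1d := hC1d
        lay := hL
        frN := hfrN
        cr0 := hcr
        brN := hbrN
        sπ := hsπ
        eN := heN
        χs := hχs
        χ01 := hχ01
        χB := hχB
        χo := hχo }
  have e1 : X.z = z := by rw [hX]
  have e2 : X.Kv = Kv := by rw [hX]
  have e3 : X.Ka = Ka := by rw [hX]
  have e4 : X.b = b := by rw [hX]
  have e5 : X.p = p := by rw [hX]
  have e6 : X.rr = r := by rw [hX]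
  have e7 : X.K = K 2 := by rw [hX]
  have eco : ∀ t, X.co t = corr z ρ (Y t) := fun t => by rw [hX]; rfl
  obtain ⟨M, hM, e₀, he₀, MN, hfin⟩ := hdin X hOK e1 e2 e3 κ₀ hκ
    (by
      have h1 : X.K₀ * √X.κ * (√X.b)⁻¹ = KL * √κ' := by
        rw [hX]
        show KL * √(b * κ') * (√b)⁻¹ = KL * √κ'
        rw [Real.sqrt_mul hb0.le]
        have : √b ≠ 0 := (Real.sqrt_pos.2 hb0).ne'
        field_simp
      rw [h1]
      exact hκ'3)
    (fun t _ x hx => by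
      rw [e1, eco]
      exact (hcorr ρ hρ0 hρδ hρ1 (Y t) (K 2) (hYbd t) (hbY 2 t) x hx).2.2.1.trans hρκ)
    (fun t _ x hx => by
      rw [e1, eco]
      exact (hcorr ρ hρ0 hρδ hρ1 (Y t) (K 2) (hYbd t) (hbY 2 t) x hx).2.2.2.trans hρκ)
    ((Kv + 1) * (1 + (d : ℝ) / 2)) le_rfl (by rw [hX]; exact hεC1) δ' (b * G)
    (by
      have h1 : X.η + X.εC * (X.K + X.Kc + 1) + X.KC / X.b = η + εC * (K 2 + Kc + 1) + KL * κ' := by
        rw [hX]
        show η + εC * (K 2 + Kc + 1) + KL * (b * κ') / b = _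
        rw [hKCb]
      have h2 : X.ηc = δ' / 8 := by rw [hX]
      rw [h1, h2]
      have h3 : CS * (η + εC * (K 2 + Kc + 1) + KL * κ') =
          CS * η + CS * (εC * (K 2 + Kc + 1)) + CS * (KL * κ') := by ring
      rw [h3]
      linarith) hδ'1
    (by
      have h1 : X.b * (CH * ((X.Ks + 1) ^ 2 + d * (X.Ks + 1)) + 1) = b * G := by rw [hX, hG]
      rw [h1]) hbG
  rw [e4] at hM
  refine ⟨M, b, δ', b * G, hb0, hbT, hM, hbE, fun q₀ => ?_⟩
  obtain ⟨q, hq⟩ : ∃ q : ℝ, q = max q₀ (1 / e₀) := ⟨_, rfl⟩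
  have hq1 : 1 / e₀ ≤ q := by rw [hq]; exact le_max_right _ _
  have hq2 : q₀ ≤ q := by rw [hq]; exact le_max_left _ _
  have hq3 : 1 ≤ q := by
    refine le_trans ?_ hq1
    rw [le_div_iff₀ he₀.1]
    linarith [he₀.2]
  have hq0 : 0 < q := lt_of_lt_of_le one_pos hq3
  obtain ⟨e, he⟩ : ∃ e : ℝ, e = √X.b / q ^ 12 := ⟨_, rfl⟩
  have hee : e ≤ e₀ := by
    rw [he, e4]
    have h1 : √b ≤ 1 := (Real.sqrt_le_sqrt hb1).trans (by rw [Real.sqrt_one])
    have h2 : q ≤ q ^ 12 := by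
      calc q = q ^ 1 := (pow_one q).symm
        _ ≤ q ^ 12 := pow_le_pow_right₀ hq3 (by norm_num)
    rw [div_le_iff₀ (by positivity)]
    rw [div_le_iff₀ he₀.1] at hq1
    have h3 : q * e₀ ≤ q ^ 12 * e₀ := mul_le_mul_of_nonneg_right h2 he₀.1.le
    linarith
  have he1 : e ∈ Ioc (0:ℝ) 1 := by
    refine ⟨?_, hee.trans he₀.2⟩
    rw [he, e4]
    exact div_pos (Real.sqrt_pos.2 hb0) (by positivity)
  have hIOK := hfin q e hq3 he hee
  rw [e5, e6, e7] at hIOK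
  have hind : ∀ g : En d → En d, IsTe D g → PcD D g = PD D (cl g) := fun g hg => by
    unfold PcD
    congr 2
    refine indicator_eq_self.2 ?_
    exact (subset_tsupport g).trans hg.supp
  have hea : X.a = a := by rw [hX]
  have heF : X.F = F := by rw [hX]
  refine ⟨X.I e q MN, hIOK, e4, hq2, ?_, ?_⟩
  · have h1 := hOK.ends he1 (t := 0) (by rw [hea]; exact hal 0 (by norm_num))
    have h2 : PcD D (X.F 0) = PD D (cl f) := by
      have h3 : F 0 = f := funext hF0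
      rw [heF, h3]
      exact hind f hf
    show ‖PcD D (X.u e 0) - PD D (cl f)‖ ≤ ε
    rw [h1, h2, eco, sub_sub_cancel_left, norm_neg]
    exact (hpcd ρ hρ0 hρδ hρ1 (Y 0) (K 2) (hYbd 0) hK2 (hbY 2 0)).trans hρK
  · have h1 := hOK.ends he1 (t := 1) (by rw [hea]; exact har 1 (by norm_num))
    have h2 : PcD D (X.F 1) = PD D (cl (R.pb (-1) f)) := by
      have h3 : F 1 = R.pb (-1) f := funext hF1
      rw [heF, ← h3]
      exact hind (F 1) (hFte 1)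
    show ‖PcD D (X.u e 1) - PD D (cl (R.pb (-1) f))‖ ≤ ε
    rw [h1, h2, eco, sub_sub_cancel_left, norm_neg]
    exact (hpcd ρ hρ0 hρδ hρ1 (Y 1) (K 2) (hYbd 1) hK2 (hbY 2 1)).trans hρK

/-- **The elementary move** from the export of block C. -/
theorem em_all_of_C (hC : Cexp) : EMall := em_all_of_din (din_all hC)

end Pool.Agent.Lib.MP_79abb3_an.W
end

section

/-!
Theorem W (MP_79abb3_an), block EG: **the elementary move**.
-/

set_option autoImplicit false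
set_option linter.unusedSectionVars false

open MeasureTheory Set Filter Topology Function
open scoped ENNReal RealInnerProductSpace

namespace Pool.Agent.Lib.MP_79abb3_an.W

theorem cexp : Cexp := fun _ hd _ _ _ h _ _ h0 hsub R hR c₀ _ _ hε hκ => waves_exist hd h h0 hsub R hR c₀ hε hκ

/-- **The elementary move.** -/
theorem em_all : EMall := em_all_of_C cexp

end Pool.Agent.Lib.MP_79abb3_an.W
end
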