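import Pool.Agent.Lib.MP_79abb3_an.W.EFd
import Pool.Agent.Lib.MP_79abb3_an.W.EFe2
import Pool.Agent.Lib.MP_79abb3_an.W.DC1b

/-!
Theorem W (MP_79abb3_an), block EG, part EH1: the corrector in the slow equation. The term of the transport is small in `L²`,
uniformly in the drift, as soon as the drift is bounded with its first derivatives near the walls and tangential.
-/

set_option autoImplicit false
set_option linter.unusedSectionVars false

open MeasureTheory Set Filter Topology Function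
open scoped ENNReal RealInnerProductSpace

namespace Pool.Agent.Lib.MP_79abb3_an.W

variable {d : ℕ} {D : Set (En d)} {z : En d → ℝ} {δ : ℝ}

/-- `O(z)` with the bound of the normal derivative. -/
theorem Dom.oz_unif {G : Type} [NormedAddCommGroup G] [NormedSpace ℝ G] (h : Dom D z δ) {f : En d → G} (hf : BD D f)
    (h0 : Oz D z f) {A : ℝ} (h1 : ∀ x ∈ D, z x < δ → ‖fderiv ℝ f x (gd z x)‖ ≤ A) :
    ∀ x ∈ D, z x < δ → ‖f x‖ ≤ A * z x := by
  obtain ⟨C₀, hC₀⟩ := h0
  have hδ := h.δ0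
  intro x hx h2
  have hz := h.zpos hx
  have hA : 0 ≤ A := (norm_nonneg _).trans (h1 x hx h2)
  refine le_of_forall_pos_le_add fun ε hε => ?_
  obtain ⟨s, hs0, hs1, hs2⟩ : ∃ s, 0 < s ∧ s ≤ z x ∧ |C₀| * s ≤ ε := by
    refine ⟨min (z x) (ε / (|C₀| + 1)), lt_min hz (by positivity), min_le_left _ _, ?_⟩
    have h4 : min (z x) (ε / (|C₀| + 1)) ≤ ε / (|C₀| + 1) := min_le_right _ _
    calc |C₀| * min (z x) (ε / (|C₀| + 1)) ≤ (|C₀| + 1) * (ε / (|C₀| + 1)) := by
          refine mul_le_mul (by linarith) h4 (le_min hz.le (by positivity)) (by positivity)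
      _ = ε := by field_simp
  set γ : ℝ → En d := fun t => x + (t - z x) • gd z x with hγ
  have hxδ : |z x| < 4 * δ := by
    rw [abs_of_pos hz]
    linarith
  have hpush : ∀ t ∈ Icc s (z x), z (γ t) = t ∧ gd z (γ t) = gd z x := by
    intro t ht
    have ht0 : 0 < t := hs0.trans_le ht.1
    have h5 : |z x + (t - z x)| < 4 * δ := by
      rw [add_sub_cancel, abs_of_pos ht0]
      linarith [ht.2]
    have h6 := h.push hxδ h5
    rw [add_sub_cancel] at h6
    exact h6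
  have hmem : ∀ t ∈ Icc s (z x), γ t ∈ D := by
    intro t ht
    rw [h.pos, (hpush t ht).1]
    exact hs0.trans_le ht.1
  have hγd : ∀ t, HasDerivAt γ (gd z x) t := by
    intro t
    have h7 : HasDerivAt (fun t : ℝ => x + (t - z x) • gd z x) ((1 : ℝ) • gd z x) t :=
      (((hasDerivAt_id t).sub_const (z x)).smul_const (gd z x)).const_add x
    rwa [one_smul] at h7
  have hder : ∀ t ∈ Icc s (z x), HasDerivWithinAt (fun t => f (γ t)) (fderiv ℝ f (γ t) (gd z (γ t)))
      (Icc s (z x)) t := by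
    intro t ht
    have h8 : HasFDerivAt f (fderiv ℝ f (γ t)) (γ t) := (hf.differentiableAt h.col.isOpen (hmem t ht)).hasFDerivAt
    have h9 := h8.comp_hasDerivAt t (hγd t)
    rw [(hpush t ht).2]
    exact h9.hasDerivWithinAt
  have h10 := norm_image_sub_le_of_norm_deriv_le_segment' (f := fun t => f (γ t)) (C := A) hder
    (fun t ht => h1 (γ t) (hmem t ⟨ht.1, ht.2.le⟩) (by
      rw [(hpush t ⟨ht.1, ht.2.le⟩).1]
      exact ht.2.trans h2)) (z x) ⟨hs1, le_rfl⟩
  have h12 : γ (z x) = x := by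
    rw [hγ]
    simp
  have h13 : ‖f (γ s)‖ ≤ |C₀| * s := by
    have h14 := hC₀ (γ s) (hmem s ⟨le_rfl, hs1⟩)
    rw [(hpush s ⟨le_rfl, hs1⟩).1] at h14
    exact h14.trans (mul_le_mul_of_nonneg_right (le_abs_self _) hs0.le)
  simp only [h12] at h10
  have h15 : ‖f x‖ ≤ ‖f x - f (γ s)‖ + ‖f (γ s)‖ := by
    have h16 := norm_add_le (f x - f (γ s)) (f (γ s))
    rwa [sub_add_cancel] at h16
  have h17 : A * (z x - s) ≤ A * z x := mul_le_mul_of_nonneg_left (by linarith) hA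
  linarith

/-- The projection of a bounded field with support in the layer `{z ≤ 2ρ}`. -/
theorem strip_pcd (h : Dom D z δ) : ∃ C : ℝ, 0 ≤ C ∧ ∀ (ρ : ℝ), 0 < ρ → ∀ (f : En d → En d) (A : ℝ), BD D f →
    0 ≤ A → (∀ x ∈ D, ‖f x‖ ≤ A) → (∀ x ∈ D, 2 * ρ < z x → f x = 0) → ‖PcD D f‖ ≤ C * √ρ * A := by
  have hm := h.col.meas
  obtain ⟨C', hC'0, hC'⟩ := h.col.vol_le
  refine ⟨√(2 * C'), by positivity, fun ρ hρ f A hb hA hf h0 => ?_⟩
  have hvol : volume D ≠ ∞ := h.col.vol.ne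
  have : IsFiniteMeasure (volume.restrict D) := ⟨by rw [Measure.restrict_apply_univ]; exact h.col.vol⟩
  have hmem : MemLp (D.indicator f) 2 (volume : Measure (En d)) := by
    rw [memLp_indicator_iff_restrict hm]
    refine MemLp.of_bound (hb.1.continuousOn.aestronglyMeasurable hm) A ?_
    filter_upwards [ae_restrict_mem hm] with x hx
    exact hf x hx
  have hS : MeasurableSet (D ∩ {x | z x ≤ 2 * ρ}) :=
    hm.inter (measurableSet_le h.smo.continuous.measurable measurable_const)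
  have hSfin : volume (D ∩ {x | z x ≤ 2 * ρ}) ≠ ∞ := ((measure_mono inter_subset_left).trans_lt h.col.vol).ne
  have h1 : ‖cl (D.indicator f)‖ ^ 2 ≤ A ^ 2 * (C' * (2 * ρ)) := by
    rw [norm_sq_cl hmem]
    calc ∫ x, ‖D.indicator f x‖ ^ 2
        ≤ ∫ x, (D ∩ {x | z x ≤ 2 * ρ}).indicator (fun _ => A ^ 2) x := by
          refine integral_mono (hmem.integrable_norm_pow (by norm_num)) ?_ fun x => ?_
          · rw [integrable_indicator_iff hS]
            exact integrableOn_const hSfin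
          · show ‖D.indicator f x‖ ^ 2 ≤ _
            by_cases hx : x ∈ D
            · by_cases hz : z x ≤ 2 * ρ
              · rw [indicator_of_mem hx, indicator_of_mem (show x ∈ D ∩ {x | z x ≤ 2 * ρ} from ⟨hx, hz⟩)]
                exact pow_le_pow_left₀ (norm_nonneg _) (hf x hx) 2
              · rw [indicator_of_mem hx, h0 x hx (not_le.1 hz), norm_zero]
                rw [zero_pow two_ne_zero]
                exact indicator_nonneg (fun _ _ => by positivity) x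
            · rw [indicator_of_notMem hx, norm_zero, zero_pow two_ne_zero]
              exact indicator_nonneg (fun _ _ => by positivity) x
      _ = A ^ 2 * volume.real (D ∩ {x | z x ≤ 2 * ρ}) := by
          rw [integral_indicator hS, setIntegral_const, smul_eq_mul, mul_comm]
      _ ≤ A ^ 2 * (C' * (2 * ρ)) :=
          mul_le_mul_of_nonneg_left (hC' (2 * ρ) (by positivity)) (by positivity)
  refine (PD_le _).trans ?_
  refine le_of_sq_le_sq ?_ (by positivity)
  refine h1.trans (le_of_eq ?_)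
  have h2 : √(2 * C') ^ 2 = 2 * C' := Real.sq_sqrt (by positivity)
  have h3 : √ρ ^ 2 = ρ := Real.sq_sqrt hρ.le
  calc A ^ 2 * (C' * (2 * ρ)) = (2 * C') * ρ * A ^ 2 := by ring
    _ = √(2 * C') ^ 2 * √ρ ^ 2 * A ^ 2 := by rw [h2, h3]
    _ = (√(2 * C') * √ρ * A) ^ 2 := by ring

/-- The normal component of a tangential field near the walls. -/
theorem nor_unif (h : Dom D z δ) : ∃ C : ℝ, 0 ≤ C ∧ ∀ (V : En d → En d) (A : ℝ), BD D V →
    (Oz D z fun x => ⟪gradient z x, V x⟫) → (∀ x ∈ D, z x < δ → ‖V x‖ ≤ A ∧ ‖fderiv ℝ V x‖ ≤ A) →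
    ∀ x ∈ D, z x < δ → |⟪gradient z x, V x⟫| ≤ C * A * z x := by
  have hD := h.col.isOpen
  have hgz : gradient z = gd z := by
    ext1 x
    exact (gd_eq_gradient z x).symm
  have hN : BD D (gradient z) := by
    rw [hgz]
    exact Smo.bd h.bdd h.smo.gd
  obtain ⟨N, hN0, hN1⟩ := hN.exists_Bk 1
  refine ⟨2 * N * N, by positivity, fun V A hV hn hA x hx hxδ => ?_⟩
  have hg : BD D fun x => ⟪gradient z x, V x⟫ := BD.bilin hD (innerSL ℝ) hN hV
  have h1 := h.oz_unif hg hn (A := 2 * N * N * A) (fun y hy hyδ => ?_) x hx hxδ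
  · exact h1
  · obtain ⟨a1, a2⟩ := hA y hy hyδ
    have hA0 : 0 ≤ A := (norm_nonneg _).trans a1
    have d1 : DifferentiableAt ℝ (gradient z) y := hN.differentiableAt hD hy
    have d2 : DifferentiableAt ℝ V y := hV.differentiableAt hD hy
    have b0 : ‖gradient z y‖ ≤ N := hN1.le0 hy
    have b1 : ‖fderiv ℝ (gradient z) y‖ ≤ N := Bk.le1 (k := 0) hN1 hy
    rw [fderiv_inner_apply ℝ d1 d2, ← hgz]
    refine (norm_add_le _ _).trans ?_
    have c1 : ‖⟪gradient z y, fderiv ℝ V y (gradient z y)⟫‖ ≤ N * (A * N) := by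
      refine (norm_inner_le_norm _ _).trans (mul_le_mul b0 ?_ (norm_nonneg _) hN0)
      exact (ContinuousLinearMap.le_opNorm _ _).trans (mul_le_mul a2 b0 (norm_nonneg _) hA0)
    have c2 : ‖⟪fderiv ℝ (gradient z) y (gradient z y), V y⟫‖ ≤ (N * N) * A := by
      refine (norm_inner_le_norm _ _).trans (mul_le_mul ?_ a1 (norm_nonneg _) (by positivity))
      exact (ContinuousLinearMap.le_opNorm _ _).trans (mul_le_mul b1 b0 (norm_nonneg _) hN0)
    calc _ ≤ N * (A * N) + (N * N) * A := add_le_add c1 c2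
      _ = 2 * N * N * A := by ring

/-- pointwise bound of the Lie derivative -/
theorem lieF_leH {V f : En d → En d} {x : En d} {a b : ℝ} (h1 : ‖fderiv ℝ f x (V x)‖ ≤ a)
    (h2 : ‖fderiv ℝ V x‖ * ‖f x‖ ≤ b) : ‖lieF V f x‖ ≤ a + b := by
  unfold lieF
  refine (norm_add_le _ _).trans (add_le_add h1 (le_trans ?_ h2))
  refine (ContinuousLinearMap.le_opNorm _ _).trans ?_
  rw [LinearIsometryEquiv.norm_map]

theorem lieF_leH' {V f : En d → En d} {x : En d} {A B : ℝ} (hV : ‖V x‖ ≤ A) (hV' : ‖fderiv ℝ V x‖ ≤ A) (hf : ‖f x‖ ≤ B)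
    (hf' : ‖fderiv ℝ f x‖ ≤ B) : ‖lieF V f x‖ ≤ 2 * (A * B) := by
  have hA : 0 ≤ A := (norm_nonneg _).trans hV
  have hB : 0 ≤ B := (norm_nonneg _).trans hf
  have h := lieF_leH (V := V) (f := f) (x := x) (a := A * B) (b := A * B) ?_ ?_
  · linarith
  · refine (ContinuousLinearMap.le_opNorm _ _).trans ?_
    rw [mul_comm A B]
    exact mul_le_mul hf' hV (norm_nonneg _) hB
  · exact mul_le_mul hV' hf (norm_nonneg _) hA

/-- **The corrector in the transport term.** -/
theorem corr_lie (h : Dom D z δ) : ∃ C : ℝ, 0 ≤ C ∧ ∀ (ρ : ℝ), 0 < ρ → 2 * ρ < δ → ρ ≤ 1 →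
    ∀ (V : En d → En d) (A : ℝ), BD D V → 0 ≤ A → (Oz D z fun x => ⟪gradient z x, V x⟫) →
    (∀ x ∈ D, z x < δ → ‖V x‖ ≤ A ∧ ‖fderiv ℝ V x‖ ≤ A) →
    ∀ (Y : En d → En d) (K : ℝ), BD D Y → 0 ≤ K → Bk D 2 K Y →
    ‖PcD D (lieF V (corr z ρ Y))‖ ≤ C * √ρ * (A * K) := by
  have hD := h.col.isOpen
  obtain ⟨C1, hC1, h1⟩ := corr_fd h
  obtain ⟨C2, hC2, h2⟩ := corr_le h
  obtain ⟨C3, hC3, h3⟩ := nor_unif h
  obtain ⟨C4, hC4, h4⟩ := strip_pcd h
  refine ⟨C4 * (C1 * (2 * C3 + 1) + C2), by positivity, fun ρ hρ hρδ hρ1 V A hV hA hn hVA Y K hY hK hk => ?_⟩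
  have hb : BD D (lieF V (corr z ρ Y)) := BD.lieF hD hV (corr_bd h hρ hY)
  have hz0 : ∀ x ∈ D, 2 * ρ < z x → lieF V (corr z ρ Y) x = 0 := by
    intro x hx hzx
    unfold lieF
    rw [(h1 ρ hρ hρ1 Y K hY hk x hx).2 hzx, corr_zero h hρ hY hx hzx.le, map_zero, zero_apply, add_zero]
  have hle : ∀ x ∈ D, ‖lieF V (corr z ρ Y) x‖ ≤ (C1 * (2 * C3 + 1) + C2) * (A * K) := by
    intro x hx
    rcases lt_or_ge (2 * ρ) (z x) with hzx | hzx
    · rw [hz0 x hx hzx, norm_zero]
      positivity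
    · have hxδ : z x < δ := hzx.trans_lt hρδ
      have hz : 0 < z x := h.zpos hx
      obtain ⟨v0, v1⟩ := hVA x hx hxδ
      have e1 := (h1 ρ hρ hρ1 Y K hY hk x hx).1 (V x)
      have e2 := (h2 ρ hρ (by linarith) hρ1 Y K hY hk x hx).1
      have e3 := h3 V A hV hn hVA x hx hxδ
      have e4 : |⟪gradient z x, V x⟫| / ρ ≤ 2 * C3 * A := by
        rw [div_le_iff₀ hρ]
        refine e3.trans ?_
        have : C3 * A * z x ≤ C3 * A * (2 * ρ) := mul_le_mul_of_nonneg_left hzx (by positivity)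
        linarith
      have e5 : ‖fderiv ℝ (corr z ρ Y) x (V x)‖ ≤ C1 * (2 * C3 + 1) * (A * K) := by
        refine e1.trans ?_
        have : C1 * K * (|⟪gradient z x, V x⟫| / ρ + ‖V x‖) ≤ C1 * K * (2 * C3 * A + A) :=
          mul_le_mul_of_nonneg_left (add_le_add e4 v0) (by positivity)
        refine this.trans (le_of_eq (by ring))
      have e6 : ‖fderiv ℝ V x‖ * ‖corr z ρ Y x‖ ≤ C2 * (A * K) := by
        refine (mul_le_mul v1 e2 (norm_nonneg _) hA).trans (le_of_eq (by ring))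
      refine (lieF_leH e5 e6).trans (le_of_eq (by ring))
  refine (h4 ρ hρ _ _ hb (by positivity) hle hz0).trans (le_of_eq (by ring))

end Pool.Agent.Lib.MP_79abb3_an.W
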