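import Pool.Agent.Lib.MP_79abb3_an.W.Def
import Pool.Agent.Lib.MP_79abb3_an.W.EMe
import Pool.Agent.Lib.MP_79abb3_an.W.EMh
import Pool.Agent.Lib.MP_79abb3_an.W.EMi
import Pool.Agent.Lib.MP_79abb3_an.W.EMj
import Pool.Agent.Lib.MP_79abb3_an.W.P0f1

/-!
Theorem W, block EM: **the elementary move**.
-/

set_option autoImplicit false
set_option linter.unusedSectionVars false

open MeasureTheory Set Filter Topology Function
open scoped ENNReal RealInnerProductSpace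

namespace Pool.Agent.Lib.MP_79abb3_an.W

variable {d : ℕ}

/-- The geometric setting of all moves: the domain `D`, the control balls `closedBall xN r' ⊆ ball xN r`. -/
structure Sett (D : Set (En d)) (z : En d → ℝ) (δ : ℝ) (xN : En d) (r' r : ℝ) : Prop where
  dom : Dom D z δ
  r'0 : 0 < r'
  r'r : r' < r
  sub : Metric.closedBall xN r ⊆ D

/-- **The output of blocks C, D, DE** (helper85, helper16, helper53): the reference solution of one move. The growth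
constant `CV` depends only on the rotation, `K₁` on the rotation and on `f`; `b` is chosen after `K₀`, `ε`; all constants `K`
(depending on the waves) are uniform in the frequency `q`. -/
def DEStatement (D : Set (En d)) (xN : En d) (r' r : ℝ) (R : Rot d) : Prop :=
  ∃ CV : ℝ, 0 ≤ CV ∧ ∀ f : En d → En d, IsTe D f → ∃ K₁ : ℝ, 1 ≤ K₁ ∧
    ∀ K₀ ≥ K₁, ∀ ε > 0, ∀ T > 0, ∃ b K δ γ : ℝ, 0 < b ∧ b ≤ T ∧ b ≤ 1 ∧ CV ≤ K ∧
      Real.exp (4 * CV) * (2 * δ * K₀ + 2 * K₀ ^ 3 * b + 2 * γ ^ 2 / b) ≤ ε ∧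
      ∀ q₀ : ℝ, ∃ q ≥ q₀, ∃ (F : ℝ → VD D →L[ℝ] HD D) (g : ℝ → HD D) (u : ℝ → VD D) (u' : ℝ → HD D),
        Move D (Metric.ball xN r) b F g u u' ∧
        ‖io D (u 0) - PD D (cl f)‖ ≤ ε ∧ ‖io D (u 1) - PD D (cl (R.pb (-1) f))‖ ≤ ε ∧
        ∀ m : ℕ, ∃ E : EData (HD D) (VD D), E.ι = io D ∧ E.q = q ∧ E.b = b ∧ E.OK K₀ K CV δ γ ∧
          ∀ t ∈ Icc (0:ℝ) 1, ∀ e φ : VD D,
            E.R t e φ = b * ⟪e, φ⟫ + ⟪F t e + b • Nm D m (io D e) e - g t, io D φ⟫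

private theorem emm_sqrt {a e CV : ℝ} (ha : 0 ≤ a) (he : 0 ≤ e) {X : ℝ} (hX0 : 0 ≤ X)
    (hX : X ^ 2 ≤ Real.exp (4 * CV) * a ^ 2 + 3 * e) : X ≤ Real.exp (2 * CV) * a + √(3 * e) := by
  have h1 : Real.exp (4 * CV) = Real.exp (2 * CV) ^ 2 := by
    rw [← Real.exp_nat_mul]
    congr 1
    push_cast
    ring
  have h2 : √(3 * e) ^ 2 = 3 * e := Real.sq_sqrt (by linarith)
  have h3 : 0 ≤ Real.exp (2 * CV) * a := mul_nonneg (Real.exp_pos _).le ha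
  have h4 : 0 ≤ √(3 * e) := Real.sqrt_nonneg _
  refine abs_le_of_sq_le_sq' ?_ (by positivity) |>.2
  rw [h1] at hX
  nlinarith [mul_nonneg h3 h4]

private theorem emm_cl_norm {f : En d → En d} (hf : MemLp f 2 (volume : Measure (En d))) :
    ‖cl f‖ = (eLpNorm f 2 (volume : Measure (En d))).toReal := by
  rw [cl_eq hf, Lp.norm_toLp]

private theorem emm_cl_sub {f g : En d → En d} (hf : MemLp f 2 (volume : Measure (En d)))
    (hg : MemLp g 2 (volume : Measure (En d))) : cl f - cl g = cl (fun x => f x - g x) := by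
  have h : MemLp (fun x => f x - g x) 2 (volume : Measure (En d)) := hf.sub hg
  rw [cl_eq hf, cl_eq hg, cl_eq h]
  rfl

/-- The move for smooth one forms. Proof: `move_abs` with `N m = b • Nm D m`, `c = b • bV` (`Nm_skew`, `Nm_le`,
`Nm_tendsto`, `isQ_of_quarter`, `IsTri` of `io D` from `io_inj`, `io_dense`, `io_cpt`), `x₀ = y₀ - io (u 0)`, `K₀` large after
`‖y₀ - P f‖`; `Move.ctr`. -/
theorem em_smooth (hd : d = 2 ∨ d = 3) {D : Set (En d)} {z : En d → ℝ} {δ : ℝ} {xN : En d} {r' r : ℝ}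
    (hS : Sett D z δ xN r' r) {R : Rot d} (hDE : DEStatement D xN r' r R) : ∃ C : ℝ, 0 ≤ C ∧
    ∀ f : En d → En d, IsTe D f → ∀ y₀ : HD D, ∀ ε > 0, ∀ T > 0,
      ∃ b ∈ Ioc (0:ℝ) T, ∃ (x : ℝ → HD D) (v : ℝ → VD D), CTr D (Metric.ball xN r) 0 b x v ∧ x 0 = y₀ ∧
        ‖x b - PD D (cl (R.pb (-1) f))‖ ≤ C * ‖y₀ - PD D (cl f)‖ + ε := by
  obtain ⟨CV, hCV, hf0⟩ := hDE
  refine ⟨Real.exp (2 * CV), (Real.exp_pos _).le, fun f hf y₀ ε hε T hT => ?_⟩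
  obtain ⟨K₁, hK₁, hf1⟩ := hf0 f hf
  have hbd := hS.dom.bdd
  obtain ⟨E2, hE2⟩ : ∃ E2 : ℝ, E2 = Real.exp (2 * CV) := ⟨_, rfl⟩
  have hE2p : 0 < E2 := by rw [hE2]; exact Real.exp_pos _
  obtain ⟨ρ, hρ⟩ : ∃ ρ : ℝ, ρ = ‖y₀ - PD D (cl f)‖ := ⟨_, rfl⟩
  have hρ0 : 0 ≤ ρ := by rw [hρ]; exact norm_nonneg _
  obtain ⟨ε₁, hε₁⟩ : ∃ ε₁ : ℝ, ε₁ = min (ε / (2 * (1 + E2))) (ε ^ 2 / 12) := ⟨_, rfl⟩
  have hε₁0 : 0 < ε₁ := by
    rw [hε₁]
    exact lt_min (by positivity) (by positivity)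
  have hε₁a : (1 + E2) * ε₁ ≤ ε / 2 := by
    have h1 : ε₁ ≤ ε / (2 * (1 + E2)) := by rw [hε₁]; exact min_le_left _ _
    rw [le_div_iff₀ (by positivity)] at h1
    linarith
  have hε₁b : √(3 * ε₁) ≤ ε / 2 := by
    rw [Real.sqrt_le_left (by positivity)]
    have h1 : ε₁ ≤ ε ^ 2 / 12 := by rw [hε₁]; exact min_le_right _ _
    nlinarith
  obtain ⟨S, hSd⟩ : ∃ S : ℝ, S = 2 * (Real.exp (4 * CV) * (ρ + ε₁) ^ 2 + 3 * ε₁) := ⟨_, rfl⟩
  have hS0 : 0 ≤ S := by rw [hSd]; positivity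
  obtain ⟨b, K, δ', γ, hb0, hbT, hb1, hCVK, hexp, hq⟩ :=
    hf1 (max K₁ (S + 1)) (le_max_left _ _) ε₁ hε₁0 T hT
  obtain ⟨q₀, hmv⟩ := move_abs (io_tri hbd) (j4_isQ hd hbd) K
  obtain ⟨q, hqq, F, g, u, u', hM, hu0, hu1, hE⟩ := hq (q₀ ε₁)
  have hK₀ : (1 : ℝ) ≤ max K₁ (S + 1) := hK₁.trans (le_max_left _ _)
  have hNB : ∀ j, NB (io D) (fun v => ‖j4 D v‖) (b • Nm D j) := by
    intro j
    have h1 := Nm_NB hd hbd j
    refine ⟨fun u v => ?_, fun u v p => ?_⟩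
    · rw [_root_.smul_apply, _root_.smul_apply, real_inner_smul_left, h1.skew, mul_zero]
    · rw [_root_.smul_apply, _root_.smul_apply, real_inner_smul_left, abs_mul, abs_of_pos hb0]
      have h2 := h1.bd u v p
      calc b * |⟪Nm D j (io D u) v, io D p⟫| ≤ 1 * |⟪Nm D j (io D u) v, io D p⟫| :=
            mul_le_mul_of_nonneg_right hb1 (abs_nonneg _)
        _ ≤ _ := by rw [one_mul]; exact h2
  have hNt : ∀ u v p : VD D, Tendsto (fun j => ⟪(b • Nm D j) (io D u) v, io D p⟫) atTop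
      (𝓝 (b * bV D u v p)) := by
    intro u v p
    have h1 := (Nm_tendsto hd hbd u v p).const_mul b
    refine h1.congr fun j => ?_
    rw [_root_.smul_apply, _root_.smul_apply, real_inner_smul_left]
  have hx₀ : ‖y₀ - io D (u 0)‖ ≤ ρ + ε₁ := by
    have h1 : y₀ - io D (u 0) = (y₀ - PD D (cl f)) - (io D (u 0) - PD D (cl f)) := by abel
    rw [h1, hρ]
    exact (norm_sub_le _ _).trans (by linarith)
  have hbig : Real.exp (4 * CV) * ‖y₀ - io D (u 0)‖ ^ 2 + 3 * ε₁ ≤ max K₁ (S + 1) ^ 2 / 2 := by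
    have h1 : ‖y₀ - io D (u 0)‖ ^ 2 ≤ (ρ + ε₁) ^ 2 := pow_le_pow_left₀ (norm_nonneg _) hx₀ 2
    have h2 : Real.exp (4 * CV) * ‖y₀ - io D (u 0)‖ ^ 2 ≤ Real.exp (4 * CV) * (ρ + ε₁) ^ 2 :=
      mul_le_mul_of_nonneg_left h1 (Real.exp_pos _).le
    have h3 : (S + 1) ^ 2 ≤ max K₁ (S + 1) ^ 2 :=
      pow_le_pow_left₀ (by linarith) (le_max_right _ _) 2
    have h4 : S ≤ (S + 1) ^ 2 := by nlinarith
    linarith
  obtain ⟨x, v, hl, hx1⟩ := hmv (max K₁ (S + 1)) CV δ' γ ε₁ q b F g (fun m => b • Nm D m)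
    (fun p q r => b * bV D p q r) (y₀ - io D (u 0)) hε₁0 hqq hCV hK₀ hCVK hM.cF hM.cg hNB hNt
    (fun m => by
      obtain ⟨E, h1, h2, h3, h4, h5⟩ := hE m
      refine ⟨E, h1, h2, h3, h4, fun t ht e φ => ?_⟩
      rw [h5 t ht e φ]
      rfl) hexp hbig
  refine ⟨b, ⟨hb0, hbT⟩, fun t => io D (u (t / b)) + x (t / b), fun t => u (t / b) + v (t / b),
    hM.ctr hbd hb0 hl, ?_, ?_⟩
  · show io D (u (0 / b)) + x (0 / b) = y₀
    rw [zero_div, hl.init]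
    abel
  · show ‖io D (u (b / b)) + x (b / b) - PD D (cl (R.pb (-1) f))‖ ≤ _
    rw [div_self hb0.ne', ← hρ, ← hE2]
    have h1 : io D (u 1) + x 1 - PD D (cl (R.pb (-1) f)) =
        (io D (u 1) - PD D (cl (R.pb (-1) f))) + x 1 := by abel
    rw [h1]
    have h2 := emm_sqrt (norm_nonneg _) hε₁0.le (norm_nonneg _) hx1
    rw [← hE2] at h2
    have h3 : E2 * ‖y₀ - io D (u 0)‖ ≤ E2 * (ρ + ε₁) := mul_le_mul_of_nonneg_left hx₀ hE2p.le
    refine (norm_add_le _ _).trans ?_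
    nlinarith

private theorem emm_PD_ind {D : Set (En d)} (hDo : IsOpen D) {f : En d → En d}
    (hf : MemLp f 2 (volume : Measure (En d))) : PD D (cl f) = PD D (cl (D.indicator f)) := by
  have hfi : MemLp (D.indicator f) 2 (volume : Measure (En d)) := hf.indicator hDo.measurableSet
  refine ext_inner_right ℝ fun u => ?_
  rw [inner_PD, inner_PD, real_inner_comm, inner_cl _ hf, real_inner_comm, inner_cl _ hfi]
  refine integral_congr_ae ?_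
  filter_upwards [HD_supp u] with x hx
  by_cases h : x ∈ D
  · rw [indicator_of_mem h]
  · rw [hx h, inner_zero_left, inner_zero_left]

private theorem emm_pb_ind {D : Set (En d)} {R : Rot d} (hR : Metric.closedBall R.c R.r ⊆ D) (t : ℝ)
    (f : En d → En d) : R.pb t (D.indicator f) = D.indicator (R.pb t f) := by
  funext x
  by_cases hx : x ∈ D
  · rw [indicator_of_mem hx]
    show ContinuousLinearMap.adjoint (fderiv ℝ (R.X t) x) (D.indicator f (R.X t x)) = _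
    rw [indicator_of_mem ((R.X_mem hR t x).2 hx)]
    rfl
  · rw [indicator_of_notMem hx]
    show ContinuousLinearMap.adjoint (fderiv ℝ (R.X t) x) (D.indicator f (R.X t x)) = _
    rw [indicator_of_notMem (fun h => hx ((R.X_mem hR t x).1 h)), map_zero]

/-- **THE ELEMENTARY MOVE.** Proof: `te_dense` with `O = D`, for `D.indicator f`, `em_smooth` for the smooth field `g`;
`‖PD (cl f) - PD (cl g)‖ ≤ ‖f - g‖`, `‖PD (cl (pb (-1) f)) - PD (cl (pb (-1) g))‖ ≤ C ‖f - g‖` (`pb_lin`, `pb_le`,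
`pb_memLp`). -/
theorem em0 (hd : d = 2 ∨ d = 3) {D : Set (En d)} {z : En d → ℝ} {δ : ℝ} {xN : En d} {r' r : ℝ}
    (hS : Sett D z δ xN r' r) {R : Rot d} (hDE : DEStatement D xN r' r R) : ∃ C : ℝ, 0 ≤ C ∧
    ∀ f : En d → En d, MemLp f 2 (volume : Measure (En d)) →
      (∀ᵐ x, x ∉ D → f x = 0) → ∀ y₀ : HD D, ∀ ε > 0, ∀ T > 0,
      ∃ b ∈ Ioc (0:ℝ) T, ∃ (x : ℝ → HD D) (v : ℝ → VD D), CTr D (Metric.ball xN r) 0 b x v ∧ x 0 = y₀ ∧
        ‖x b - PD D (cl (R.pb (-1) f))‖ ≤ C * ‖y₀ - PD D (cl f)‖ + ε := by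
  obtain ⟨C₀, hC₀, hmv⟩ := em_smooth hd hS hDE
  obtain ⟨Cp, hCp, hpb⟩ := R.pb_le 1
  refine ⟨C₀, hC₀, fun f hf hf0 y₀ ε hε T hT => ?_⟩
  have hDo : IsOpen D := by
    have h1 : D = {x | 0 < z x} := by
      ext x
      exact hS.dom.pos x
    rw [h1]
    exact isOpen_lt continuous_const (ContDiff.continuous hS.dom.smo)
  obtain ⟨ε', hε'⟩ : ∃ ε' : ℝ, ε' = ε / (2 * (C₀ + Cp + 1)) := ⟨_, rfl⟩
  have hε'0 : 0 < ε' := by rw [hε']; positivity
  have hε'1 : (C₀ + Cp) * ε' ≤ ε / 2 := by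
    have h1 : (C₀ + Cp + 1) * ε' = ε / 2 := by
      rw [hε']
      field_simp
    nlinarith
  obtain ⟨g, hg, hfg⟩ := te_dense hDo hf hf0 hε'0
  have hgm : MemLp g 2 (volume : Measure (En d)) := hg.memLp 2
  obtain ⟨b, hb, x, v, hct, hx0, hxb⟩ := hmv g hg y₀ (ε / 2) (by positivity) T hT
  refine ⟨b, hb, x, v, hct, hx0, ?_⟩
  have hd1 : ‖PD D (cl f) - PD D (cl g)‖ ≤ ε' := by
    rw [← map_sub]
    refine (PD_le _).trans ?_
    have hfgm : MemLp (fun x => f x - g x) 2 (volume : Measure (En d)) := hf.sub hgm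
    rw [emm_cl_sub hf hgm, emm_cl_norm hfgm]
    exact ENNReal.toReal_le_of_le_ofReal hε'0.le hfg
  have hfp := R.pb_memLp (-1) hf
  have hgp := R.pb_memLp (-1) hgm
  have hd2 : ‖PD D (cl (R.pb (-1) f)) - PD D (cl (R.pb (-1) g))‖ ≤ Cp * ε' := by
    rw [← map_sub]
    refine (PD_le _).trans ?_
    rw [emm_cl_sub hfp hgp]
    have h1 : (fun x => R.pb (-1) f x - R.pb (-1) g x) = R.pb (-1) (fun x => f x - g x) := by
      have h2 := R.pb_lin (-1) 1 (-1) f g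
      have h3 : (fun x => (1 : ℝ) • f x + (-1 : ℝ) • g x) = fun x => f x - g x := by
        funext x
        rw [one_smul, neg_one_smul, ← sub_eq_add_neg]
      rw [h3] at h2
      rw [h2]
      funext x
      rw [one_smul, neg_one_smul, ← sub_eq_add_neg]
    have hfgm : MemLp (fun x => f x - g x) 2 (volume : Measure (En d)) := hf.sub hgm
    rw [h1, emm_cl_norm (R.pb_memLp (-1) hfgm)]
    have h4 := hpb (-1) ⟨le_rfl, by norm_num⟩ _ hfgm
    refine ENNReal.toReal_le_of_le_ofReal (by positivity) (h4.trans ?_)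
    rw [ENNReal.ofReal_mul hCp]
    exact mul_le_mul_right hfg _
  have h1 : x b - PD D (cl (R.pb (-1) f)) = (x b - PD D (cl (R.pb (-1) g))) -
      (PD D (cl (R.pb (-1) f)) - PD D (cl (R.pb (-1) g))) := by abel
  have h2 : y₀ - PD D (cl g) = (y₀ - PD D (cl f)) + (PD D (cl f) - PD D (cl g)) := by abel
  have h3 : ‖y₀ - PD D (cl g)‖ ≤ ‖y₀ - PD D (cl f)‖ + ε' := by
    rw [h2]
    exact (norm_add_le _ _).trans (by linarith)
  have h4 : C₀ * ‖y₀ - PD D (cl g)‖ ≤ C₀ * (‖y₀ - PD D (cl f)‖ + ε') :=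
    mul_le_mul_of_nonneg_left h3 hC₀
  rw [h1]
  refine (norm_sub_le _ _).trans ?_
  linarith

/-- **THE ELEMENTARY MOVE.** Proof: `em0` for `D.indicator f`. -/
theorem em (hd : d = 2 ∨ d = 3) {D : Set (En d)} {z : En d → ℝ} {δ : ℝ} {xN : En d} {r' r : ℝ}
    (hS : Sett D z δ xN r' r) {R : Rot d} (hR : Metric.closedBall R.c R.r ⊆ D) (hDE : DEStatement D xN r' r R) :
    ∃ C : ℝ, 0 ≤ C ∧ ∀ f : En d → En d, MemLp f 2 (volume : Measure (En d)) → ∀ y₀ : HD D, ∀ ε > 0, ∀ T > 0,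
      ∃ b ∈ Ioc (0:ℝ) T, ∃ (x : ℝ → HD D) (v : ℝ → VD D), CTr D (Metric.ball xN r) 0 b x v ∧ x 0 = y₀ ∧
        ‖x b - PD D (cl (R.pb (-1) f))‖ ≤ C * ‖y₀ - PD D (cl f)‖ + ε := by
  obtain ⟨C, hC, h⟩ := em0 hd hS hDE
  refine ⟨C, hC, fun f hf y₀ ε hε T hT => ?_⟩
  have hDo : IsOpen D := by
    have h1 : D = {x | 0 < z x} := by
      ext x
      exact hS.dom.pos x
    rw [h1]
    exact isOpen_lt continuous_const (ContDiff.continuous hS.dom.smo)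
  have hfi : MemLp (D.indicator f) 2 (volume : Measure (En d)) := hf.indicator hDo.measurableSet
  obtain ⟨b, hb, x, v, h1, h2, h3⟩ := h (D.indicator f) hfi
    (Eventually.of_forall fun x hx => indicator_of_notMem hx f) y₀ ε hε T hT
  refine ⟨b, hb, x, v, h1, h2, ?_⟩
  rw [emm_PD_ind hDo hf, emm_PD_ind hDo (R.pb_memLp (-1) hf), ← emm_pb_ind hR]
  exact h3

end Pool.Agent.Lib.MP_79abb3_an.W
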