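import Pool.Agent.Lib.MP_79abb3_an.W.EMM
import Pool.Agent.Lib.MP_79abb3_an.W.FZ

/-!
Theorem W, block EM: the elementary move in the form used by block F.
-/

set_option autoImplicit false
set_option linter.unusedSectionVars false

open MeasureTheory Set Filter Topology Function
open scoped ENNReal RealInnerProductSpace

namespace Pool.Agent.Lib.MP_79abb3_an.W

/-- The export of blocks C, D, DE. -/
def DEall : Prop := ∀ d : ℕ, d = 2 ∨ d = 3 → ∀ (D : Set (En d)) (z : En d → ℝ) (δ : ℝ), Dom D z δ →
  ∀ (p : En d) (r : ℝ), 0 < r → Metric.closedBall p r ⊆ D → ∀ R : Rot d,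
    Metric.closedBall R.c R.r ⊆ D \ Metric.closedBall p (r / 2) → DEStatement D p (r / 2) r R

theorem em_all_of (h : DEall) : EMall := by
  intro d hd D z δ hD p r hr hb R hR
  have hS : Sett D z δ p (r / 2) r := ⟨hD, by positivity, by linarith, hb⟩
  exact em hd hS (hR.trans sdiff_subset) (h d hd D z δ hD p r hr hb R hR)

end Pool.Agent.Lib.MP_79abb3_an.W
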