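import Pool.Agent.Lib.MP_79abb3_an.W.EMDef

/-!
Theorem W, block EM: the generator of a rotation.
-/

set_option autoImplicit false
set_option linter.unusedSectionVars false

open MeasureTheory Set Filter Topology Function
open scoped ENNReal RealInnerProductSpace

namespace Pool.Agent.Lib.MP_79abb3_an.W

variable {d : ℕ}

namespace Rot
variable (R : Rot d)

theorem J_apply (x : En d) : R.J x = ⟪R.u, x⟫ • R.w - ⟪R.w, x⟫ • R.u := by
  simp [J]

theorem J_u : R.J R.u = R.w := by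
  rw [J_apply, real_inner_self_eq_norm_sq, R.hu, real_inner_comm, R.huw]
  simp

theorem J_w : R.J R.w = -R.u := by
  rw [J_apply, real_inner_self_eq_norm_sq, R.hw, R.huw]
  simp

theorem J_anti (x y : En d) : ⟪R.J x, y⟫ = -⟪x, R.J y⟫ := by
  rw [J_apply, J_apply, inner_sub_left, inner_sub_right]
  simp only [real_inner_smul_left, real_inner_smul_right]
  rw [real_inner_comm x R.u, real_inner_comm x R.w]
  ring

theorem J_self (x : En d) : ⟪R.J x, x⟫ = 0 := by
  have h1 := R.J_anti x x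
  rw [real_inner_comm (R.J x) x] at h1
  linarith

theorem J_cube (x : En d) : R.J (R.J (R.J x)) = -R.J x := by
  rw [R.J_apply x]
  simp only [map_sub, map_smul, map_neg, J_u, J_w, smul_neg]
  abel

private theorem J_JJ (x y : En d) : ⟪R.J (R.J x), R.J (R.J y)⟫ = ⟪R.J x, R.J y⟫ := by
  rw [J_anti, J_cube, inner_neg_right, neg_neg]

theorem J_le (x : En d) : ‖R.J x‖ ≤ ‖x‖ := by
  have h1 : ‖x + R.J (R.J x)‖ ^ 2 = ‖x‖ ^ 2 - ‖R.J x‖ ^ 2 := by
    rw [norm_add_sq_real]
    have h2 : ⟪x, R.J (R.J x)⟫ = -‖R.J x‖ ^ 2 := by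
      have h3 := R.J_anti x (R.J x)
      rw [real_inner_self_eq_norm_sq] at h3
      linarith
    have h4 : ‖R.J (R.J x)‖ ^ 2 = ‖R.J x‖ ^ 2 := by
      rw [← real_inner_self_eq_norm_sq, J_JJ, real_inner_self_eq_norm_sq]
    rw [h2, h4]
    ring
  have h2 : 0 ≤ ‖x + R.J (R.J x)‖ ^ 2 := sq_nonneg _
  exact le_of_sq_le_sq (by linarith) (norm_nonneg x)

/-- the rotation by the angle `φ` -/
noncomputable def rot (φ : ℝ) : En d →L[ℝ] En d :=
  ContinuousLinearMap.id ℝ (En d) + (Real.sin φ • R.J + (1 - Real.cos φ) • R.J.comp R.J)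

private theorem rot_apply (φ : ℝ) (x : En d) :
    R.rot φ x = x + (Real.sin φ • R.J x + (1 - Real.cos φ) • R.J (R.J x)) := by
  simp [rot]

theorem rot_zero : R.rot 0 = ContinuousLinearMap.id ℝ (En d) := by
  apply ContinuousLinearMap.ext
  intro x
  rw [rot_apply]
  simp

theorem rot_add (φ ψ : ℝ) : R.rot (φ + ψ) = (R.rot φ).comp (R.rot ψ) := by
  apply ContinuousLinearMap.ext
  intro x
  rw [ContinuousLinearMap.comp_apply, rot_apply, rot_apply, rot_apply, Real.sin_add, Real.cos_add]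
  simp only [map_add, map_smul, J_cube, map_neg]
  module

/-- rotations are isometries -/
theorem rot_inner (φ : ℝ) (x y : En d) : ⟪R.rot φ x, R.rot φ y⟫ = ⟪x, y⟫ := by
  have h1 : ⟪x, R.J (R.J y)⟫ = -⟪R.J x, R.J y⟫ := by
    have := R.J_anti x (R.J y)
    linarith
  have h2 : ⟪R.J (R.J x), y⟫ = -⟪R.J x, R.J y⟫ := R.J_anti _ _
  have h3 : ⟪R.J x, R.J (R.J y)⟫ = -⟪R.J (R.J x), R.J y⟫ := by
    have := R.J_anti (R.J x) (R.J y)
    linarith
  have h4 := R.J_JJ x y
  have h5 := R.J_anti x y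
  rw [rot_apply, rot_apply]
  simp only [inner_add_left, inner_add_right, real_inner_smul_left, real_inner_smul_right]
  rw [h1, h2, h3, h4, h5]
  have h6 := Real.sin_sq_add_cos_sq φ
  linear_combination ⟪R.J x, R.J y⟫ * h6

theorem rot_norm (φ : ℝ) (x : En d) : ‖R.rot φ x‖ = ‖x‖ := by
  have h1 := R.rot_inner φ x x
  rw [real_inner_self_eq_norm_sq, real_inner_self_eq_norm_sq] at h1
  exact (sq_eq_sq₀ (norm_nonneg _) (norm_nonneg _)).mp h1

theorem rot_J (φ : ℝ) (x : En d) : R.rot φ (R.J x) = R.J (R.rot φ x) := by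
  rw [rot_apply, rot_apply]
  simp only [map_add, map_smul]

theorem rot_deriv (φ : ℝ) : HasDerivAt R.rot (R.J.comp (R.rot φ)) φ := by
  have h1 := (Real.hasDerivAt_sin φ).smul_const R.J
  have h2 : HasDerivAt (fun φ : ℝ => (1 - Real.cos φ) • R.J.comp R.J)
      ((Real.sin φ) • R.J.comp R.J) φ := by
    have h3 := ((Real.hasDerivAt_cos φ).const_sub 1).smul_const (R.J.comp R.J)
    rwa [neg_neg] at h3
  have h3 : HasDerivAt R.rot (Real.cos φ • R.J + (Real.sin φ) • R.J.comp R.J) φ :=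
    (h1.add h2).const_add _
  refine h3.congr_deriv ?_
  apply ContinuousLinearMap.ext
  intro x
  rw [ContinuousLinearMap.comp_apply, rot_apply]
  simp only [map_add, map_smul, J_cube, _root_.add_apply, _root_.smul_apply,
    ContinuousLinearMap.comp_apply]
  module

theorem X_eq (t : ℝ) (x : En d) : R.X t x = R.c + R.rot (t * R.η (‖x - R.c‖ ^ 2)) (x - R.c) := by
  rw [rot_apply]
  unfold X
  abel

end Rot

end Pool.Agent.Lib.MP_79abb3_an.W
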