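import Pool.Agent.Lib.MP_79abb3_an.W.FA2
import Pool.Agent.Lib.MP_79abb3_an.W.FB4

/-!
Theorem W (MP_79abb3_an), block F: the state zero is reached.
-/

set_option autoImplicit false
set_option linter.unusedSectionVars false

open MeasureTheory Set Filter Topology Function
open scoped ENNReal RealInnerProductSpace

namespace Pool.Agent.Lib.MP_79abb3_an.W

section
variable {d : ℕ}

variable {D : Set (En d)} {p : En d} {r₁ r₀ : ℝ}

/-- a trajectory which arrives at rest can wait -/
theorem Mv.wait {Ω W : Set (En d)} {t T : ℝ} (ht : 0 ≤ t) (hT : t ≤ T) {x : L2E d} (h : Mv Ω W t x 0) :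
    Mv Ω W T x 0 := by
  have h1 := Mv.trans ht (sub_nonneg.2 hT) h (Mv.zero (Ω := Ω) (W := W) (T - t))
  rwa [add_sub_cancel] at h1

/-- **Global null controllability in `D ∖ closure N`**, for all states in `HD D`: flush, then the local result, then wait.
`hN` is the export of blocks A4, G (`null_L2`). -/
theorem global_null (hd : d = 2 ∨ d = 3) (hO : IsOpen D) (hc : IsPreconnected D) (hD : Bornology.IsBounded D)
    (h : Ctr D p r₁ r₀) (hem : Emove D p r₁ r₀)
    (hN : ∀ T : ℝ, 0 < T → ∃ ε : ℝ, 0 < ε ∧ ∀ x : HD D, ‖x‖ ≤ ε →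
      Mv (D \ Metric.closedBall p r₀) (frontier D) T (x : L2E d) 0)
    (y : HD D) {T : ℝ} (hT : 0 < T) :
    Mv (D \ Metric.closedBall p r₀) (frontier D) T (y : L2E d) 0 := by
  have hd2 : 2 ≤ d := by omega
  have hT2 : 0 < T / 2 := half_pos hT
  obtain ⟨ε, hε, hloc⟩ := hN (T / 2) hT2
  obtain ⟨b, hb, hbT, y', hm, hy'⟩ := flush hd2 hO hc h hem
    (erase hd hO hD Metric.isOpen_ball.measurableSet) y hT2 hε
  rw [closure_ball p (h.r1.trans h.r10).ne'] at hm
  have h2 := Mv.trans hb.le hT2.le hm (hloc y' hy')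
  exact h2.wait (by linarith) (by linarith)

end

end Pool.Agent.Lib.MP_79abb3_an.W
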