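import Pool.Agent.Lib.MP_79abb3_an.W.Def
import Pool.Agent.Lib.MP_79abb3_an.W.FinalW

section

/-!
Theorem W, block H (geometry): definitions.
-/

set_option autoImplicit false
set_option linter.unusedSectionVars false

open MeasureTheory Set Filter Topology Function
open scoped ENNReal RealInnerProductSpace

namespace Pool.Agent.Lib.MP_79abb3_an.W

variable {d : ℕ}

/-- `g` is a defining function of `Ω` in the open set `U`: `Ω ∩ U = {g > 0} ∩ U`, `dg ≠ 0`. -/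
structure IsDf (Ω U : Set (Ed d)) (g : Ed d → ℝ) : Prop where
  op : IsOpen U
  smo : Smo g
  reg : ∀ y ∈ U, fderiv ℝ g y ≠ 0
  eq : ∀ y ∈ U, y ∈ Ω ↔ 0 < g y

/-- The unit normal field `∇g/|∇g|` of a function (interior normal of `{g > 0}`). -/
noncomputable def nu (g : Ed d → ℝ) (y : Ed d) : Ed d := ‖gradient g y‖⁻¹ • gradient g y

/-- The signed distance to the boundary of `D`, positive in `D`. -/
noncomputable def sdist (D : Set (Ed d)) (x : Ed d) : ℝ :=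
  open Classical in if x ∈ D then Metric.infDist x (frontier D) else -Metric.infDist x (frontier D)

/-- Tubular coordinates near a point of `{g = 0}`: `x = p x + t x • ν(p x)`, `g (p x) = 0`. -/
structure IsTub (U : Set (Ed d)) (g : Ed d → ℝ) (x₀ : Ed d) (ε : ℝ) (p : Ed d → Ed d) (t : Ed d → ℝ) :
    Prop where
  ε0 : 0 < ε
  psmo : ContDiffOn ℝ ((⊤ : ℕ∞) : WithTop ℕ∞) p (Metric.ball x₀ ε)
  tsmo : ContDiffOn ℝ ((⊤ : ℕ∞) : WithTop ℕ∞) t (Metric.ball x₀ ε)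
  mem : ∀ x ∈ Metric.ball x₀ ε, p x ∈ U ∧ g (p x) = 0 ∧ x = p x + t x • nu g (p x)
  at0 : p x₀ = x₀ ∧ t x₀ = 0
  uniq : ∀ y : Ed d, ∀ s : ℝ, y ∈ Metric.ball x₀ ε → |s| < ε → g y = 0 →
    y + s • nu g y ∈ Metric.ball x₀ ε → p (y + s • nu g y) = y ∧ t (y + s • nu g y) = s

end Pool.Agent.Lib.MP_79abb3_an.W
end

section

/-!
Theorem W, block H, part A: defining functions.
-/

set_option autoImplicit false
set_option linter.unusedSectionVars false

open MeasureTheory Set Filter Topology Function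
open scoped ENNReal RealInnerProductSpace

namespace Pool.Agent.Lib.MP_79abb3_an.W

variable {d : ℕ}

theorem IsSmoothDomain.df {Ω : Set (Ed d)} (h : IsSmoothDomain Ω) {x : Ed d} (hx : x ∈ frontier Ω) :
    ∃ (U : Set (Ed d)) (g : Ed d → ℝ), IsDf Ω U g ∧ x ∈ U := by
  obtain ⟨U, g, h1, h2, h3, h4, h5⟩ := h.loc x hx
  exact ⟨U, g, ⟨h1, h3, h4, h5⟩, h2⟩

theorem IsDf.mono {Ω U V : Set (Ed d)} {g : Ed d → ℝ} (h : IsDf Ω U g) (hV : IsOpen V) (hVU : V ⊆ U) :
    IsDf Ω V g :=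
  ⟨hV, h.smo, fun y hy => h.reg y (hVU hy), fun y hy => h.eq y (hVU hy)⟩

/-- `⟪∇g, v⟫ = dg(v)` (`toDual`). -/
theorem grad_inner (g : Ed d → ℝ) (y v : Ed d) : ⟪gradient g y, v⟫ = fderiv ℝ g y v := by
  rw [gradient]
  exact InnerProductSpace.toDual_symm_apply

theorem grad_norm (g : Ed d → ℝ) (y : Ed d) : ‖gradient g y‖ = ‖fderiv ℝ g y‖ := by
  rw [gradient]
  exact LinearIsometryEquiv.norm_map _ _

theorem Smo.gradient {g : Ed d → ℝ} (h : Smo g) : Smo (gradient g) := by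
  have h1 : ContDiff ℝ ((⊤ : ℕ∞) : WithTop ℕ∞) (fderiv ℝ g) :=
    ContDiff.fderiv_right h (by exact_mod_cast le_top)
  exact ((InnerProductSpace.toDual ℝ (Ed d)).symm.toContinuousLinearEquiv.toContinuousLinearMap.contDiff).comp h1

theorem grad_of_inner {g : Ed d → ℝ} {y w : Ed d} (hg : HasFDerivAt g (innerSL ℝ w) y) : gradient g y = w := by
  have h1 : HasGradientAt g w y := by
    rw [hasGradientAt_iff_hasFDerivAt]
    exact hg
  exact h1.gradient

theorem IsDf.grad_ne {Ω U : Set (Ed d)} {g : Ed d → ℝ} (h : IsDf Ω U g) {y : Ed d} (hy : y ∈ U) :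
    gradient g y ≠ 0 := by
  intro h0
  apply h.reg y hy
  rw [← norm_eq_zero, ← grad_norm, h0, norm_zero]

theorem IsDf.nu_norm {Ω U : Set (Ed d)} {g : Ed d → ℝ} (h : IsDf Ω U g) {y : Ed d} (hy : y ∈ U) :
    ‖nu g y‖ = 1 := by
  have h1 : ‖gradient g y‖ ≠ 0 := norm_ne_zero_iff.2 (h.grad_ne hy)
  rw [nu, norm_smul, norm_inv, norm_norm, inv_mul_cancel₀ h1]

theorem IsDf.nu_smooth {Ω U : Set (Ed d)} {g : Ed d → ℝ} (h : IsDf Ω U g) :
    ContDiffOn ℝ ((⊤ : ℕ∞) : WithTop ℕ∞) (nu g) U := by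
  have h1 : ContDiffOn ℝ ((⊤ : ℕ∞) : WithTop ℕ∞) (gradient g) U := ContDiff.contDiffOn h.smo.gradient
  have h2 : ContDiffOn ℝ ((⊤ : ℕ∞) : WithTop ℕ∞) (fun y => ‖gradient g y‖) U :=
    h1.norm ℝ fun y hy => h.grad_ne hy
  exact (h2.inv fun y hy => norm_ne_zero_iff.2 (h.grad_ne hy)).smul h1

/-- A direction of uniform increase (`v = ν(x)`, continuity of `dg`). -/
theorem IsDf.exists_dir {Ω U : Set (Ed d)} {g : Ed d → ℝ} (h : IsDf Ω U g) {x : Ed d} (hx : x ∈ U) :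
    ∃ (v : Ed d) (c r : ℝ), ‖v‖ = 1 ∧ 0 < c ∧ 0 < r ∧ Metric.ball x r ⊆ U ∧
      ∀ y ∈ Metric.ball x r, c ≤ fderiv ℝ g y v := by
  have h1 : ‖gradient g x‖ ≠ 0 := norm_ne_zero_iff.2 (h.grad_ne hx)
  have h2 : 0 < ‖gradient g x‖ := lt_of_le_of_ne (norm_nonneg _) (Ne.symm h1)
  have h3 : fderiv ℝ g x (nu g x) = ‖gradient g x‖ := by
    rw [← grad_inner, nu, inner_smul_right, real_inner_self_eq_norm_sq]
    field_simp
  have h4 : ContDiff ℝ ((⊤ : ℕ∞) : WithTop ℕ∞) (fderiv ℝ g) :=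
    ContDiff.fderiv_right h.smo (by exact_mod_cast le_top)
  have h5 : Continuous fun y => fderiv ℝ g y (nu g x) := (h4.clm_apply contDiff_const).continuous
  have h6 : ∀ᶠ y in 𝓝 x, ‖gradient g x‖ / 2 < fderiv ℝ g y (nu g x) := by
    refine h5.continuousAt.eventually_const_lt ?_
    show ‖gradient g x‖ / 2 < fderiv ℝ g x (nu g x)
    rw [h3]; linarith
  obtain ⟨r, hr, hr2⟩ := Metric.eventually_nhds_iff_ball.1 (h6.and (h.op.mem_nhds hx))
  exact ⟨nu g x, ‖gradient g x‖ / 2, r, h.nu_norm hx, by linarith, hr, fun y hy => (hr2 y hy).2,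
    fun y hy => (hr2 y hy).1.le⟩

/-- Growth along a segment (mean value theorem). -/
theorem grow {g : Ed d → ℝ} (hg : Differentiable ℝ g) {A : Set (Ed d)} {v : Ed d} {c : ℝ}
    (hc : ∀ y ∈ A, c ≤ fderiv ℝ g y v) {y : Ed d} {τ : ℝ} (hτ : 0 ≤ τ)
    (hs : ∀ s ∈ Icc 0 τ, y + s • v ∈ A) : g y + c * τ ≤ g (y + τ • v) := by
  have h1 : ∀ s : ℝ, HasDerivAt (fun s : ℝ => g (y + s • v)) (fderiv ℝ g (y + s • v) v) s := by
    intro s
    have h2 : HasDerivAt (fun s : ℝ => y + s • v) v s := by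
      simpa using ((hasDerivAt_id s).smul_const v).const_add y
    exact (hg (y + s • v)).hasFDerivAt.comp_hasDerivAt s h2
  have h3 := (convex_Icc (0:ℝ) τ).mul_sub_le_image_sub_of_le_deriv
    (f := fun s : ℝ => g (y + s • v)) (fun s _ => (h1 s).continuousAt.continuousWithinAt)
    (fun s _ => (h1 s).differentiableAt.differentiableWithinAt) (C := c) (fun s hs' => by
      rw [(h1 s).deriv]
      exact hc _ (hs s (interior_subset hs'))) 0 (left_mem_Icc.2 hτ) τ (right_mem_Icc.2 hτ) hτ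
  simp only [zero_smul, add_zero, sub_zero] at h3
  linarith

private theorem ha_pos_of_zero {U : Set (Ed d)} {Ω : Set (Ed d)} {g : Ed d → ℝ} (h : IsDf Ω U g) {y : Ed d}
    (hy : y ∈ U) (h0 : g y = 0) : y ∈ closure Ω := by
  obtain ⟨v, c, r, hv, hc, hr, hb, hd⟩ := h.exists_dir hy
  rw [Metric.mem_closure_iff]
  intro ε hε
  set s := min (ε / 2) (r / 2) with hs
  have hs0 : 0 < s := lt_min (by linarith) (by linarith)
  have hin : ∀ σ ∈ Icc 0 s, y + σ • v ∈ Metric.ball y r := by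
    intro σ hσ
    rw [Metric.mem_ball, dist_eq_norm, add_sub_cancel_left, norm_smul, hv, mul_one, Real.norm_eq_abs,
      abs_of_nonneg hσ.1]
    have := min_le_right (ε / 2) (r / 2)
    linarith [hσ.2]
  have h1 := grow (Smo.differentiable h.smo) hd hs0.le hin
  refine ⟨y + s • v, (h.eq _ (hb (hin s (right_mem_Icc.2 hs0.le)))).2 ?_, ?_⟩
  · rw [h0, zero_add] at h1
    exact lt_of_lt_of_le (mul_pos hc hs0) h1
  · rw [dist_comm, dist_eq_norm, add_sub_cancel_left, norm_smul, hv, mul_one, Real.norm_eq_abs,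
      abs_of_nonneg hs0.le]
    have := min_le_left (ε / 2) (r / 2)
    linarith

/-- In `U` the closure is `{g ≥ 0}`. -/
theorem IsDf.closure_iff {Ω U : Set (Ed d)} {g : Ed d → ℝ} (hΩ : IsOpen Ω) (h : IsDf Ω U g) {y : Ed d}
    (hy : y ∈ U) : y ∈ closure Ω ↔ 0 ≤ g y := by
  constructor
  · intro hcl
    by_contra hneg
    rw [not_le] at hneg
    have h1 : ∀ᶠ x in 𝓝 y, g x < 0 :=
      (Smo.differentiable h.smo).continuous.continuousAt.eventually_lt_const hneg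
    obtain ⟨x, hx, hx2⟩ := mem_closure_iff_nhds.1 hcl _ (h1.and (h.op.mem_nhds hy))
    have h2 := (h.eq x hx.2).1 hx2
    exact absurd h2 (not_lt.2 (le_of_lt hx.1))
  · intro h0
    rcases h0.eq_or_lt with h0 | h0
    · exact ha_pos_of_zero h hy h0.symm
    · exact subset_closure ((h.eq y hy).2 h0)

/-- In `U` the boundary is the zero set. (At a zero `y`: `y ∉ Ω`, and `y + s v ∈ Ω` for small `s > 0` if `dg(v) > 0`.) -/
theorem IsDf.frontier_iff {Ω U : Set (Ed d)} {g : Ed d → ℝ} (hΩ : IsOpen Ω) (h : IsDf Ω U g) {y : Ed d}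
    (hy : y ∈ U) : y ∈ frontier Ω ↔ g y = 0 := by
  rw [hΩ.frontier_eq, Set.mem_sdiff, h.closure_iff hΩ hy, h.eq y hy]
  constructor
  · rintro ⟨h1, h2⟩
    exact le_antisymm (not_lt.1 h2) h1
  · intro h0
    rw [h0]
    exact ⟨le_refl _, lt_irrefl _⟩

/-- Sets which agree near `x` have the same boundary near `x`. -/
theorem frontier_congr {A B : Set (Ed d)} {x : Ed d} (h : ∀ᶠ y in 𝓝 x, (y ∈ A ↔ y ∈ B)) :
    x ∈ frontier A ↔ x ∈ frontier B := by
  have key : ∀ {A B : Set (Ed d)}, (∀ᶠ y in 𝓝 x, (y ∈ A ↔ y ∈ B)) → x ∈ frontier A → x ∈ frontier B := by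
    intro A B h hA
    rw [frontier, Set.mem_sdiff, mem_closure_iff_frequently, mem_interior_iff_mem_nhds] at hA ⊢
    refine ⟨(hA.1.and_eventually h).mono fun y hy => hy.2.1 hy.1, fun hB => hA.2 ?_⟩
    have : ∀ᶠ y in 𝓝 x, y ∈ B := hB
    filter_upwards [this, h] with y hy1 hy2
    exact hy2.2 hy1
  exact ⟨key h, key (h.mono fun y hy => hy.symm)⟩

/-- Connected union: if `Ω` is connected, `Ω ⊆ D`, and every point of `D` is joined inside `D` with `Ω` by a connected set,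
then `D` is connected. -/
theorem conn_of_join {Ω D : Set (Ed d)} (hΩ : IsConnected Ω) (hD : Ω ⊆ D)
    (h : ∀ x ∈ D, ∃ C : Set (Ed d), IsPreconnected C ∧ C ⊆ D ∧ x ∈ C ∧ (C ∩ Ω).Nonempty) : IsConnected D := by
  obtain ⟨o, ho⟩ := hΩ.nonempty
  refine ⟨⟨o, hD ho⟩, isPreconnected_of_forall o fun x hx => ?_⟩
  obtain ⟨C, hC, hCD, hxC, y, hyC, hyΩ⟩ := h x hx
  exact ⟨C ∪ Ω, union_subset hCD hD, Or.inr ho, Or.inl hxC, hC.union y hyC hyΩ hΩ.isPreconnected⟩

end Pool.Agent.Lib.MP_79abb3_an.W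
end
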