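import Pool.Agent.Lib.MP_79abb3_an.W.HF1

/-!
Theorem W, block H, part G: connectedness, chains of balls.
-/

set_option autoImplicit false
set_option linter.unusedSectionVars false

open MeasureTheory Set Filter Topology Function
open scoped ENNReal RealInnerProductSpace

namespace Pool.Agent.Lib.MP_79abb3_an.W

variable {d : ℕ}

variable {D : Set (Ed d)} {z : Ed d → ℝ} {δ : ℝ}

/-- The image of the connected set `Ioo r s ×ˢ sphere 0 1` (`isConnected_sphere`, dimension `≥ 2`). -/
theorem conn_annulus (hd : 2 ≤ d) {r s : ℝ} (hr : 0 ≤ r) (h : r < s) (x : Ed d) :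
    IsConnected {y : Ed d | r < dist y x ∧ dist y x < s} := by
  have hrank : 1 < Module.rank ℝ (Ed d) := by
    rw [← Module.finrank_eq_rank, finrank_euclideanSpace_fin]
    exact_mod_cast hd
  have h1 : {y : Ed d | r < dist y x ∧ dist y x < s} =
      (fun p : ℝ × Ed d => x + p.1 • p.2) '' (Ioo r s ×ˢ Metric.sphere (0 : Ed d) 1) := by
    ext y
    constructor
    · rintro ⟨h2, h3⟩
      have h4 : 0 < dist y x := hr.trans_lt h2
      refine ⟨(dist y x, (dist y x)⁻¹ • (y - x)), ⟨⟨h2, h3⟩, ?_⟩, ?_⟩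
      · rw [mem_sphere_zero_iff_norm, norm_smul, norm_inv, Real.norm_eq_abs, abs_of_pos h4,
          ← dist_eq_norm, inv_mul_cancel₀ h4.ne']
      · simp only
        rw [smul_smul, mul_inv_cancel₀ h4.ne', one_smul]
        abel
    · rintro ⟨⟨t, u⟩, ⟨⟨h2, h3⟩, h4⟩, rfl⟩
      simp only at h2 h3 h4
      have h5 : dist (x + t • u) x = t := by
        rw [dist_eq_norm, add_sub_cancel_left, norm_smul, mem_sphere_zero_iff_norm.mp h4, mul_one,
          Real.norm_eq_abs, abs_of_nonneg (hr.trans h2.le)]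
      simp only [mem_ofPred_eq, h5]
      exact ⟨h2, h3⟩
  rw [h1]
  refine IsConnected.image ?_ _ ?_
  · exact (isConnected_Ioo h).prod (isConnected_sphere hrank 0 zero_le_one)
  · exact Continuous.continuousOn (by fun_prop)

/-- If `A` is removed from the connected open set `D` and `A` has an open neighbourhood `V ⊆ D` with `V \ A` connected
and nonempty, then `D \ A` is connected. Proof: a partition of `D \ A` into open sets `U₁, U₂` with
`V \ A ⊆ U₁` gives the partition `U₁ ∪ V, U₂` of `D`. (The same as `PD.conn_remove`, PD/GE2.lean.) -/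
theorem conn_remove {D A V : Set (Ed d)} (hD : IsOpen D) (hc : IsPreconnected D) (hA : IsOpen (D \ A))
    (hV : IsOpen V) (hVD : V ⊆ D) (hAV : A ∩ D ⊆ V) (hVA : IsConnected (V \ A)) :
    IsConnected (D \ A) := by
  refine ⟨hVA.nonempty.mono (sdiff_subset_sdiff_left hVD), ?_⟩
  rw [isPreconnected_iff_subset_of_disjoint]
  have key : ∀ u v : Set (Ed d), IsOpen u → IsOpen v → D \ A ⊆ u ∪ v → (D \ A) ∩ (u ∩ v) = ∅ →
      V \ A ⊆ u → D \ A ⊆ u ∨ D \ A ⊆ v := by
    intro u v hu hv huv hdis hVu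
    have h1 := isPreconnected_iff_subset_of_disjoint.1 hc (((D \ A) ∩ u) ∪ V) ((D \ A) ∩ v)
      ((hA.inter hu).union hV) (hA.inter hv) ?_ ?_
    · rcases h1 with h1 | h1
      · left
        intro x hx
        rcases h1 hx.1 with h2 | h2
        · exact h2.2
        · exact hVu ⟨h2, hx.2⟩
      · right
        intro x hx
        exact (h1 hx.1).2
    · intro x hx
      by_cases hxA : x ∈ A
      · exact Or.inl (Or.inr (hAV ⟨hxA, hx⟩))
      · rcases huv ⟨hx, hxA⟩ with h2 | h2
        · exact Or.inl (Or.inl ⟨⟨hx, hxA⟩, h2⟩)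
        · exact Or.inr ⟨⟨hx, hxA⟩, h2⟩
    · rw [eq_empty_iff_forall_notMem]
      rintro x ⟨hx, h2, h3⟩
      have h4 : x ∈ u := by
        rcases h2 with h2 | h2
        · exact h2.2
        · exact hVu ⟨h2, h3.1.2⟩
      have : x ∈ (D \ A) ∩ (u ∩ v) := ⟨h3.1, h4, h3.2⟩
      rw [hdis] at this
      exact this
  intro u v hu hv huv hdis
  have h5 : V \ A ⊆ D \ A := sdiff_subset_sdiff_left hVD
  have h6 := isPreconnected_iff_subset_of_disjoint.1 hVA.isPreconnected u v hu hv (h5.trans huv) (by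
    rw [eq_empty_iff_forall_notMem]
    rintro x ⟨hx, h2⟩
    have : x ∈ (D \ A) ∩ (u ∩ v) := ⟨h5 hx, h2⟩
    rw [hdis] at this
    exact this)
  rcases h6 with h6 | h6
  · exact key u v hu hv huv hdis h6
  · rw [union_comm] at huv
    rw [inter_comm u v] at hdis
    exact (key v u hv hu huv hdis h6).symm

/-- A larger concentric closed ball is contained in `D` (compactness). -/
theorem exists_larger_ball {D : Set (Ed d)} (hD : IsOpen D) {x : Ed d} {r : ℝ} (hb : Metric.closedBall x r ⊆ D) :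
    ∃ s, r < s ∧ Metric.closedBall x s ⊆ D := by
  rcases lt_or_ge r 0 with hr | hr
  · refine ⟨r / 2, by linarith, ?_⟩
    rw [Metric.closedBall_eq_empty.mpr (by linarith)]
    exact empty_subset _
  · obtain ⟨δ, hδ, hsub⟩ := (isCompact_closedBall x r).exists_cthickening_subset_open hD hb
    rw [cthickening_closedBall hδ.le hr] at hsub
    exact ⟨δ + r, by linarith, hsub⟩

theorem conn_diff_ball (hd : 2 ≤ d) {D : Set (Ed d)} (hD : IsOpen D) (hc : IsPreconnected D) {x : Ed d} {r : ℝ}
    (hr : 0 ≤ r) (hb : Metric.closedBall x r ⊆ D) : IsConnected (D \ Metric.closedBall x r) := by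
  obtain ⟨s, hs, hsub⟩ := exists_larger_ball hD hb
  refine conn_remove hD hc (hD.sdiff Metric.isClosed_closedBall) (V := Metric.ball x s)
    Metric.isOpen_ball (Metric.ball_subset_closedBall.trans hsub) ?_ ?_
  · intro y hy
    have := Metric.mem_closedBall.1 hy.1
    rw [Metric.mem_ball]
    linarith
  · have h1 : Metric.ball x s \ Metric.closedBall x r = {y : Ed d | r < dist y x ∧ dist y x < s} := by
      ext y
      simp only [Set.mem_sdiff, Metric.mem_ball, Metric.mem_closedBall, not_le, mem_ofPred_eq]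
      exact and_comm
    rw [h1]
    exact conn_annulus hd hr hs x

/-- **Chains of balls** in a connected open set. (The set of points which can be reached from `a` by a chain is open and
closed in `O`; or: a path, compactness.) -/
theorem exists_chain {O : Set (Ed d)} (hO : IsOpen O) (hc : IsPreconnected O) {a b : Ed d} (ha : a ∈ O)
    (hb : b ∈ O) : ∃ (n : ℕ) (c : ℕ → Ed d) (r : ℝ), 0 < r ∧ c 0 = a ∧ c n = b ∧
      (∀ i ≤ n, Metric.closedBall (c i) r ⊆ O) ∧ ∀ i < n, dist (c i) (c (i + 1)) < r / 8 := by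
  have hpc : IsPathConnected O := (hO.isConnected_iff_isPathConnected).mp ⟨⟨a, ha⟩, hc⟩
  obtain ⟨γ, hγ⟩ := hpc.joinedIn a ha b hb
  have hK : IsCompact (range γ) := isCompact_range γ.continuous
  have hKO : range γ ⊆ O := by
    rintro _ ⟨t, rfl⟩; exact hγ t
  obtain ⟨r, hr, hsub⟩ := hK.exists_cthickening_subset_open hO hKO
  have huc := (isCompact_Icc : IsCompact (Icc (0 : ℝ) 1)).uniformContinuousOn_of_continuous
    γ.continuous_extend.continuousOn
  rw [Metric.uniformContinuousOn_iff] at huc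
  obtain ⟨η, hη, huc⟩ := huc (r / 8) (by positivity)
  obtain ⟨n, hn⟩ := exists_nat_gt (1 / η)
  have hn0 : (0 : ℝ) < n := lt_trans (by positivity) hn
  have hmem : ∀ i ≤ n, ((i : ℝ) / n) ∈ Icc (0 : ℝ) 1 := fun i hi =>
    ⟨by positivity, (div_le_one hn0).mpr (by exact_mod_cast hi)⟩
  refine ⟨n, fun i => γ.extend ((i : ℝ) / n), r, hr, by simp, ?_, ?_, ?_⟩
  · simp only
    rw [div_self hn0.ne', Path.extend_one]
  · intro i _
    refine (Metric.closedBall_subset_cthickening ?_ r).trans hsub
    rw [← Path.extend_range]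
    exact mem_range_self _
  · intro i hi
    refine huc _ (hmem i hi.le) _ (hmem (i + 1) hi) ?_
    rw [Real.dist_eq]
    push_cast
    have h1 : (i : ℝ) / n - (i + 1) / n = -(1 / n) := by ring
    rw [h1, abs_neg, abs_of_pos (by positivity)]
    rw [div_lt_iff₀ hη] at hn
    rw [div_lt_iff₀ hn0]
    linarith

/-- The interior part: `{x ∈ D | η ≤ z x}` exhausts `D`. -/
theorem Dom.exhaust (h : Dom D z δ) {f : Ed d → ℝ} (hf : Integrable f) {ε : ℝ} (hε : 0 < ε) :
    ∃ η > 0, ∫ x in {x | 0 < z x ∧ z x < η}, |f x| < ε := by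
  let A : ℕ → Set (Ed d) := fun n => {x | 0 < z x ∧ z x < 1 / ((n : ℝ) + 1)}
  have hA : ∀ n, MeasurableSet (A n) := fun n =>
    ((isOpen_lt continuous_const h.cont).inter (isOpen_lt h.cont continuous_const)).measurableSet
  have hanti : Antitone A := by
    intro m n hmn x hx
    exact ⟨hx.1, hx.2.trans_le (Nat.one_div_le_one_div hmn)⟩
  have h1 := tendsto_setIntegral_of_antitone (f := fun x => |f x|) (μ := volume) hA hanti
    ⟨0, hf.abs.integrableOn⟩
  have h2 : (⋂ n, A n) = ∅ := by
    rw [eq_empty_iff_forall_notMem]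
    intro x hx
    rw [mem_iInter] at hx
    have h3 := (hx 0).1
    obtain ⟨n, hn⟩ := exists_nat_one_div_lt h3
    exact absurd (hx n).2 (not_lt.mpr hn.le)
  rw [h2, setIntegral_empty] at h1
  obtain ⟨n, hn⟩ := (h1.eventually (gt_mem_nhds hε)).exists
  exact ⟨1 / ((n : ℝ) + 1), Nat.one_div_pos_of_nat, hn⟩

end Pool.Agent.Lib.MP_79abb3_an.W
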