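import Pool.Agent.Lib.MP_79abb3_an.W.SpDef

/-!
Theorem W, block A: small perturbations of the identity are diffeomorphisms.
-/

set_option autoImplicit false
set_option linter.unusedSectionVars false

open MeasureTheory Set Filter Topology Function
open scoped ENNReal RealInnerProductSpace

namespace Pool.Agent.Lib.MP_79abb3_an.W

section
variable {d : ℕ} {X : En d → En d}

/-- the perturbation of the identity -/
noncomputable def th (X : En d → En d) (ε : ℝ) (x : En d) : En d := x - ε • X x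

theorem th_smo (hX : Smo X) (ε : ℝ) : Smo (th X ε) := by
  have h1 : ContDiff ℝ ((⊤ : ℕ∞) : WithTop ℕ∞) X := hX
  exact contDiff_id.sub (h1.const_smul ε)

theorem mb1_hasFDerivAt (hX : Smo X) (ε : ℝ) (x : En d) :
    HasFDerivAt (th X ε) (ContinuousLinearMap.id ℝ (En d) - ε • fderiv ℝ X x) x :=
  (hasFDerivAt_id x).sub ((hX.differentiable x).hasFDerivAt.const_smul ε)

theorem th_fderiv (hX : Smo X) (ε : ℝ) (x : En d) :
    fderiv ℝ (th X ε) x = ContinuousLinearMap.id ℝ (En d) - ε • fderiv ℝ X x :=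
  (mb1_hasFDerivAt hX ε x).fderiv

theorem mb1_bound (hX : Smo X) (hc : HasCompactSupport X) : ∃ M : ℝ, 0 ≤ M ∧ (∀ x, ‖fderiv ℝ X x‖ ≤ M) ∧
    ∀ x y, ‖X x - X y‖ ≤ M * ‖x - y‖ := by
  have hcont : Continuous (fderiv ℝ X) := ContDiff.continuous_fderiv hX (by simp)
  obtain ⟨M, hM⟩ := (hc.fderiv (𝕜 := ℝ)).exists_bound_of_continuous hcont
  refine ⟨M, (norm_nonneg _).trans (hM 0), hM, fun x y => ?_⟩
  exact Convex.norm_image_sub_le_of_norm_fderiv_le (𝕜 := ℝ) (fun z _ => hX.differentiable z) (fun z _ => hM z)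
    convex_univ (mem_univ y) (mem_univ x)

theorem mb1_det (d : ℕ) : ∃ η : ℝ, 0 < η ∧ ∀ L : En d →L[ℝ] En d, ‖L - ContinuousLinearMap.id ℝ (En d)‖ < η →
    1 / 2 ≤ L.det ∧ L.det ≤ 2 := by
  have h1 : (ContinuousLinearMap.id ℝ (En d)).det = 1 := by
    show LinearMap.det (LinearMap.id : En d →ₗ[ℝ] En d) = 1
    exact LinearMap.det_id
  have h := (ContinuousLinearMap.continuous_det (𝕜 := ℝ) (E := En d)).continuousAt
    (x := ContinuousLinearMap.id ℝ (En d))
  obtain ⟨η, hη, h2⟩ := Metric.continuousAt_iff.1 h (1 / 2) (by norm_num)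
  refine ⟨η, hη, fun L hL => ?_⟩
  have h3 := h2 (x := L) (by rw [dist_eq_norm]; exact hL)
  rw [h1, Real.dist_eq, abs_lt] at h3
  constructor <;> linarith [h3.1, h3.2]

/-- For small `ε` the map `th X ε` is a diffeomorphism of the whole space (`‖Θ x - Θ y - (x - y)‖ ≤ ‖x - y‖/2`:
`ApproximatesLinearOn.toHomeomorph`; smoothness of the inverse: `Homeomorph.contDiff_symm`; the determinant is close
to `1` by continuity of `det` at the identity). -/
theorem exists_diffeo (hX : Smo X) (hc : HasCompactSupport X) : ∃ ε₀ : ℝ, 0 < ε₀ ∧ ∀ ε : ℝ, |ε| ≤ ε₀ →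
    (∀ x, 1 / 2 ≤ (fderiv ℝ (th X ε) x).det ∧ (fderiv ℝ (th X ε) x).det ≤ 2) ∧
    ∃ Ψ : En d → En d, Smo Ψ ∧ (∀ x, Ψ (th X ε x) = x) ∧ ∀ x, th X ε (Ψ x) = x := by
  obtain ⟨M, hM0, hM, hL⟩ := mb1_bound hX hc
  obtain ⟨η, hη, hdet⟩ := mb1_det d
  have hM1 : 0 < M + 1 := by linarith
  refine ⟨min (1 / 2) (η / 2) / (M + 1), by positivity, ?_⟩
  intro ε hε
  have hε1 : |ε| * (M + 1) ≤ min (1 / 2) (η / 2) := (le_div_iff₀ hM1).1 hε
  have hε2 : |ε| * M ≤ min (1 / 2) (η / 2) :=
    (mul_le_mul_of_nonneg_left (by linarith) (abs_nonneg ε)).trans hε1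
  have hε3 : |ε| * M ≤ 1 / 2 := hε2.trans (min_le_left _ _)
  have hε4 : |ε| * M ≤ η / 2 := hε2.trans (min_le_right _ _)
  have hd : ∀ x, 1 / 2 ≤ (fderiv ℝ (th X ε) x).det ∧ (fderiv ℝ (th X ε) x).det ≤ 2 := by
    intro x
    refine hdet _ ?_
    rw [th_fderiv hX]
    have e1 : ContinuousLinearMap.id ℝ (En d) - ε • fderiv ℝ X x - ContinuousLinearMap.id ℝ (En d) =
        -(ε • fderiv ℝ X x) := by abel
    rw [e1, norm_neg, norm_smul, Real.norm_eq_abs]
    have := mul_le_mul_of_nonneg_left (hM x) (abs_nonneg ε)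
    linarith
  refine ⟨hd, ?_⟩
  have happ : ApproximatesLinearOn (th X ε)
      ((ContinuousLinearEquiv.refl ℝ (En d) : En d ≃L[ℝ] En d) : En d →L[ℝ] En d) univ (1 / 2 : NNReal) := by
    intro x _ y _
    have e1 : th X ε x - th X ε y -
        ((ContinuousLinearEquiv.refl ℝ (En d) : En d ≃L[ℝ] En d) : En d →L[ℝ] En d) (x - y) =
        -(ε • (X x - X y)) := by
      simp only [ContinuousLinearEquiv.coe_coe, ContinuousLinearEquiv.refl_apply, th, smul_sub]
      abel
    rw [e1, norm_neg, norm_smul, Real.norm_eq_abs]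
    have h1 := mul_le_mul_of_nonneg_left (hL x y) (abs_nonneg ε)
    have h2 := mul_le_mul_of_nonneg_right hε3 (norm_nonneg (x - y))
    push_cast
    calc |ε| * ‖X x - X y‖ ≤ |ε| * (M * ‖x - y‖) := h1
      _ = |ε| * M * ‖x - y‖ := by ring
      _ ≤ _ := h2
  have hcN : Subsingleton (En d) ∨
      (1 / 2 : NNReal) < ‖((ContinuousLinearEquiv.refl ℝ (En d) : En d ≃L[ℝ] En d).symm : En d →L[ℝ] En d)‖₊⁻¹ := by
    rcases subsingleton_or_nontrivial (En d) with hs | hs
    · exact Or.inl hs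
    · refine Or.inr ?_
      have : ‖((ContinuousLinearEquiv.refl ℝ (En d) : En d ≃L[ℝ] En d).symm : En d →L[ℝ] En d)‖₊ = 1 := by
        have h1 : ((ContinuousLinearEquiv.refl ℝ (En d) : En d ≃L[ℝ] En d).symm : En d →L[ℝ] En d) =
            ContinuousLinearMap.id ℝ (En d) := rfl
        rw [h1]
        exact Subtype.ext ContinuousLinearMap.norm_id
      rw [this, inv_one]
      exact_mod_cast (by norm_num : (1 / 2 : ℝ) < 1)
  set Θ : En d ≃ₜ En d := happ.toHomeomorph (th X ε) hcN with hΘ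
  have hco : ∀ x, Θ x = th X ε x := fun x => rfl
  refine ⟨Θ.symm, ?_, fun x => ?_, fun x => ?_⟩
  · refine Homeomorph.contDiff_symm Θ
      (f₀' := fun a => (fderiv ℝ (th X ε) a).toContinuousLinearEquivOfDetNeZero (by
        have := (hd a).1
        intro h0
        rw [h0] at this
        norm_num at this)) ?_ ?_
    · intro a
      rw [ContinuousLinearMap.coe_toContinuousLinearEquivOfDetNeZero]
      exact ((th_smo hX ε).differentiable a).hasFDerivAt
    · exact th_smo hX ε
  · rw [← hco]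
    exact Θ.symm_apply_apply x
  · rw [← hco]
    exact Θ.apply_symm_apply x

/-- change of variables (`integral_image_eq_integral_abs_det_fderiv_smul`) -/
theorem th_cov {F : Type} [NormedAddCommGroup F] [NormedSpace ℝ F] (hX : Smo X) {ε : ℝ}
    (h1 : ∀ x, 0 < (fderiv ℝ (th X ε) x).det) {Ψ : En d → En d} (h2 : ∀ x, Ψ (th X ε x) = x)
    (h3 : ∀ x, th X ε (Ψ x) = x) (f : En d → F) :
    ∫ x, f x = ∫ x, (fderiv ℝ (th X ε) x).det • f (th X ε x) := by
  have hi : InjOn (th X ε) univ := (LeftInverse.injective h2).injOn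
  have hs : th X ε '' univ = univ := by
    rw [image_univ]
    exact (RightInverse.surjective h3).range_eq
  have h := integral_image_eq_integral_abs_det_fderiv_smul (volume : Measure (En d)) MeasurableSet.univ
    (fun x _ => ((th_smo hX ε).differentiable x).hasFDerivAt.hasFDerivWithinAt) hi f
  rw [hs, setIntegral_univ, setIntegral_univ] at h
  rw [h]
  refine integral_congr_ae (Eventually.of_forall fun x => ?_)
  simp only
  rw [abs_of_pos (h1 x)]

/-- bound for the composition with `th X ε` -/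
theorem th_le (hX : Smo X) {ε : ℝ} (h1 : ∀ x, 1 / 2 ≤ (fderiv ℝ (th X ε) x).det) {Ψ : En d → En d}
    (h2 : ∀ x, Ψ (th X ε x) = x) (h3 : ∀ x, th X ε (Ψ x) = x) {f : En d → ℝ} (hf : ∀ x, 0 ≤ f x)
    (hi : Integrable f) : ∫ x, f (th X ε x) ≤ 2 * ∫ x, f x := by
  have h1' : ∀ x, 0 < (fderiv ℝ (th X ε) x).det := fun x => by linarith [h1 x]
  have hinj : InjOn (th X ε) univ := (LeftInverse.injective h2).injOn
  have hs : th X ε '' univ = univ := by
    rw [image_univ]
    exact (RightInverse.surjective h3).range_eq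
  have h := (integrableOn_image_iff_integrableOn_abs_det_fderiv_smul (volume : Measure (En d)) MeasurableSet.univ
    (fun x _ => ((th_smo hX ε).differentiable x).hasFDerivAt.hasFDerivWithinAt) hinj f).1
    (by rw [hs]; exact hi.integrableOn)
  rw [integrableOn_univ] at h
  rw [th_cov hX h1' h2 h3 f, ← integral_const_mul]
  refine integral_mono_of_nonneg (Eventually.of_forall fun x => hf _) ?_ (Eventually.of_forall fun x => ?_)
  · refine (h.const_mul 2).congr (Eventually.of_forall fun x => ?_)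
    simp only
    rw [abs_of_pos (h1' x)]
  · simp only [smul_eq_mul]
    nlinarith [h1 x, hf (th X ε x), mul_le_mul_of_nonneg_right (h1 x) (hf (th X ε x))]

end

end Pool.Agent.Lib.MP_79abb3_an.W
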