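import Pool.Agent.Lib.MP_79abb3_an.W.SpG2
import Pool.Agent.Lib.MP_79abb3_an.W.SpD4
import Pool.Agent.Lib.MP_79abb3_an.W.A3ld
import Pool.Agent.Lib.MP_79abb3_an.W.A3hb

/-!
Theorem W, block A: the abstract theorems of block A3 for the triple of `D`; Leray solutions.
-/

set_option autoImplicit false
set_option linter.unusedSectionVars false

open MeasureTheory Set Filter Topology Function
open scoped ENNReal RealInnerProductSpace

namespace Pool.Agent.Lib.MP_79abb3_an.W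

section
variable {d : ℕ} {D : Set (En d)}

theorem isTri_io (hD : Bornology.IsBounded D) : IsTri (io D) where
  inj := by
    intro v w h
    have h1 : io D (v - w) = 0 := by rw [map_sub, h, sub_self]
    exact sub_eq_zero.1 (io_inj hD _ h1)
  dense := io_dense hD
  cpt := io_cpt hD

/-- (`isQ_of_quarter`, `j4_le'`) -/
theorem isQ_j4 (hd : d = 2 ∨ d = 3) (hD : Bornology.IsBounded D) : IsQ (io D) fun v => ‖j4 D v‖ := by
  obtain ⟨C, hC, h⟩ := j4_le' hd hD
  refine isQ_of_quarter hC (fun v => norm_nonneg _) fun v => ?_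
  rw [mul_assoc]
  exact h v

theorem Nm_le4 (hd : d = 2 ∨ d = 3) (hD : Bornology.IsBounded D) (n : ℕ) (u v w : VD D) :
    |⟪Nm D n (io D u) v, io D w⟫| ≤ ‖j4 D u‖ * ‖v‖ * ‖j4 D w‖ := by
  rw [Nm_tri hd hD]
  refine (tri_le _ _ _).trans ?_
  have e : ‖(v : G2E d)‖ = ‖v‖ := rfl
  rw [e]
  have h1 := Jz_le n (j4 D u)
  gcongr

theorem nb_Nm (hd : d = 2 ∨ d = 3) (hD : Bornology.IsBounded D) (n : ℕ) :
    NB (io D) (fun v => ‖j4 D v‖) (Nm D n) :=
  ⟨Nm_skew hD n, Nm_le4 hd hD n⟩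

/-- the form `b` as a function -/
noncomputable def cV (D : Set (En d)) (u v w : VD D) : ℝ := bV D u v w

/-- **Leray solutions** of the unforced system, with bounds. Proof: `v_j → x₀` in `H` with `‖io v_j‖ ≤ ‖x₀‖ + 1/j`, `reg_exists`
with `F = 0`, `g = 0`, `N = Nm D j`, `RSol.bound` (`f = γ = 0`): `‖e_j t‖² + ∫ ‖e_j‖² ≤ ‖io v_j‖² e^T`; `reg_limit` gives
`x`, `v`; the bounds pass to the limit (apply `reg_limit` with `M = max (√M0, M0)`). -/
theorem leray_D (hd : d = 2 ∨ d = 3) (hD : Bornology.IsBounded D) {T : ℝ} (hT : 0 < T) (x₀ : HD D) {r : ℝ}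
    (hr : ‖x₀‖ < r) :
    ∃ (x : ℝ → HD D) (v : ℝ → VD D), LSol (io D) 1 (fun _ => 0) (fun _ => 0) (cV D) 0 T x₀ x v ∧
      (∀ t ∈ Icc 0 T, ‖x t‖ ≤ max (r * Real.exp T) (r ^ 2 * Real.exp T)) ∧
      ∫ t in (0 : ℝ)..T, ‖v t‖ ^ 2 ≤ max (r * Real.exp T) (r ^ 2 * Real.exp T) := by
  have h := isTri_io (D := D) hD
  have hr0 : 0 < r := (norm_nonneg _).trans_lt hr
  have hT' : (0:ℝ) ≤ T := hT.le
  have hex : ∀ j : ℕ, ∃ w : VD D, ‖io D w - x₀‖ < min (1 / ((j : ℝ) + 1)) (r - ‖x₀‖) := by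
    intro j
    have hpos : 0 < min (1 / ((j : ℝ) + 1)) (r - ‖x₀‖) := lt_min (by positivity) (by linarith)
    obtain ⟨w, hw⟩ := Metric.denseRange_iff.1 h.dense x₀ _ hpos
    refine ⟨w, ?_⟩
    rw [← dist_eq_norm, dist_comm]
    exact hw
  choose w hw using hex
  have hwx : Tendsto (fun j => io D (w j)) atTop (𝓝 x₀) := by
    rw [tendsto_iff_norm_sub_tendsto_zero]
    refine squeeze_zero (fun _ => norm_nonneg _) (fun j => ((hw j).le.trans (min_le_left _ _)))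
      tendsto_one_div_add_atTop_nhds_zero_nat
  have hwr : ∀ j, ‖io D (w j)‖ ≤ r := by
    intro j
    have h1 := (hw j).le.trans (min_le_right _ _)
    have h2 : ‖io D (w j)‖ ≤ ‖io D (w j) - x₀‖ + ‖x₀‖ := by
      have := norm_add_le (io D (w j) - x₀) x₀
      rwa [sub_add_cancel] at this
    linarith
  choose e he hea using fun j => reg_exists h one_pos hT' (F := fun _ => (0 : VD D →L[ℝ] HD D))
    (g := fun _ => (0 : HD D)) continuousOn_const continuousOn_const (nb_Nm hd hD j).skew (w j)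
  have hexp : ∀ j, ∀ t ∈ Icc (0:ℝ) T, ‖io D (e j t)‖ ^ 2 + 1 * ∫ s in (0:ℝ)..t, ‖e j s‖ ^ 2 ≤
      r ^ 2 * Real.exp T := by
    intro j t ht
    have h1 := RSol.bound one_pos (nb_Nm hd hD j).skew (f := 0) (γ := 0) (he j)
      (fun s _ => ContinuousLinearMap.opNorm_zero.le) (fun s _ => norm_zero.le) ht
    refine h1.trans ?_
    rw [hea]
    have h2 : (1 + (0:ℝ) ^ 2 / 1) * (t - 0) = t := by ring
    have h3 : (t - 0) * (0:ℝ) ^ 2 = 0 := by ring
    rw [h2, h3, add_zero]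
    have h4 := hwr j
    have h5 : Real.exp t ≤ Real.exp T := Real.exp_le_exp.2 ht.2
    gcongr
  have hM : ∀ j, ∀ t ∈ Icc (0:ℝ) T, ‖io D (e j t)‖ ≤ max (r * Real.exp T) (r ^ 2 * Real.exp T) := by
    intro j t ht
    refine le_trans ?_ (le_max_left _ _)
    have h1 := hexp j t ht
    have h2 : 0 ≤ ∫ s in (0:ℝ)..t, ‖e j s‖ ^ 2 := intervalIntegral.integral_nonneg ht.1 fun _ _ => by positivity
    have h3 : 1 ≤ Real.exp T := Real.one_le_exp hT'
    refine abs_le_of_sq_le_sq' ?_ (by positivity) |>.2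
    have h4 : r ^ 2 * Real.exp T * 1 ≤ r ^ 2 * Real.exp T * Real.exp T :=
      mul_le_mul_of_nonneg_left h3 (by positivity)
    have h5 : (r * Real.exp T) ^ 2 = r ^ 2 * Real.exp T * Real.exp T := by ring
    linarith
  have hM' : ∀ j, ∫ t in (0:ℝ)..T, ‖e j t‖ ^ 2 ≤ max (r * Real.exp T) (r ^ 2 * Real.exp T) := by
    intro j
    refine le_trans ?_ (le_max_right _ _)
    have h1 := hexp j T ⟨hT', le_rfl⟩
    have h2 : 0 ≤ ‖io D (e j T)‖ ^ 2 := by positivity
    linarith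
  obtain ⟨-, x, v, -, hL, hx, hv, -, -⟩ := reg_limit h (isQ_j4 hd hD) one_pos hT' continuousOn_const
    continuousOn_const (nb_Nm hd hD) (c := cV D) (fun u v p => Nm_tendsto hd hD u v p) he hM hM' (x₀ := x₀)
    fun k => by
      have h1 : Tendsto (fun j => ⟪io D (w j), k⟫) atTop (𝓝 ⟪x₀, k⟫) := hwx.inner tendsto_const_nhds
      exact h1.congr fun j => by rw [hea]
  exact ⟨x, v, hL, hx, hv⟩

end

end Pool.Agent.Lib.MP_79abb3_an.W
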