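import Pool.Agent.Lib.MP_79abb3_an.W.TrA2
import Pool.Agent.Lib.MP_79abb3_an.W.SpJ2
import Pool.Agent.Lib.MP_79abb3_an.W.TrB

/-!
Theorem W, block A: from small in `L²` to rest.
-/

set_option autoImplicit false
set_option linter.unusedSectionVars false

open MeasureTheory Set Filter Topology Function
open scoped ENNReal RealInnerProductSpace

namespace Pool.Agent.Lib.MP_79abb3_an.W

section
variable {d : ℕ} {D Ω : Set (En d)} {T : ℝ}

/-- Leray solutions without force are trajectories. -/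
theorem LSol.wtr (hd : d = 2 ∨ d = 3) (hO : IsOpen D) (hD : Bornology.IsBounded D) (hΩ : Ω ⊆ D) {x₀ : HD D}
    {x : ℝ → HD D} {v : ℝ → VD D} (h : LSol (io D) 1 (fun _ => 0) (fun _ => 0) (cV D) 0 T x₀ x v) :
    WTr Ω (frontier D) 0 T (fun t => (x t : L2E d)) (fun t => (v t : G2E d)) := by
  have hr : volume.restrict (Icc (0 : ℝ) T) = volume.restrict (Ioc (0 : ℝ) T) :=
    Measure.restrict_congr_set Ioc_ae_eq_Icc.symm
  refine WTr.of_triple hd hO hD hΩ x v h.weak (hr ▸ h.mem) ?_ ?_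
  · rw [← hr]
    filter_upwards [h.ae] with t ht
    exact ht.symm
  · intro φ _ s t hs hst ht
    have h1 := h.eq (vT D φ) s t hs hst ht
    rw [io_vT hD] at h1
    rw [h1, ← intervalIntegral.integral_neg]
    refine intervalIntegral.integral_congr fun r _ => ?_
    show -(1 * ⟪v r, vT D φ⟫) + ⟪(0 : HD D) - (0 : VD D →L[ℝ] HD D) (v r), hT D φ⟫ - bV D (v r) (v r) (vT D φ) =
      -(⟪v r, vT D φ⟫ + bV D (v r) (v r) (vT D φ))
    simp
    ring

/-- **From small in `H` to rest**, if small data in `V` can be controlled to rest. -/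
theorem null_L2_of (hd : d = 2 ∨ d = 3) (hO : IsOpen D) (hD : Bornology.IsBounded D) (hΩ : Ω ⊆ D) (hT : 0 < T)
    (hn : ∃ ε : ℝ, 0 < ε ∧ ∀ v₀ : VD D, ‖v₀‖ ≤ ε →
      Mv Ω (frontier D) (T / 2) ((io D v₀ : HD D) : L2E d) 0) :
    ∃ ε : ℝ, 0 < ε ∧ ∀ x : HD D, ‖x‖ ≤ ε → Mv Ω (frontier D) T (x : L2E d) 0 := by
  obtain ⟨δ, hδ, hδn⟩ := hn
  -- the size
  set E := Real.exp (T / 2) with hE
  have hE0 : 0 < E := Real.exp_pos _
  set r : ℝ := min 1 (δ ^ 2 * (T / 2) / (2 * E)) with hr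
  have hr0 : 0 < r := lt_min one_pos (by positivity)
  have hr1 : r ≤ 1 := min_le_left _ _
  have hM : max (r * E) (r ^ 2 * E) < δ ^ 2 * (T / 2) := by
    have h1 : r * E ≤ δ ^ 2 * (T / 2) / 2 := by
      have h2 : r ≤ δ ^ 2 * (T / 2) / (2 * E) := min_le_right _ _
      calc r * E ≤ δ ^ 2 * (T / 2) / (2 * E) * E := by gcongr
        _ = δ ^ 2 * (T / 2) / 2 := by field_simp
    have h3 : r ^ 2 * E ≤ r * E := by
      have : r ^ 2 ≤ r := by nlinarith
      gcongr
    have h4 : 0 < δ ^ 2 * (T / 2) := by positivity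
    refine max_lt (by linarith) (by linarith)
  refine ⟨r / 2, by positivity, fun x₀ hx₀ => ?_⟩
  obtain ⟨x, v, hL, -, hv⟩ := leray_D hd hD (T := T / 2) (by positivity) x₀ (r := r) (by linarith)
  -- a good time
  obtain ⟨t, ht0, ht1, hxt, hvt⟩ : ∃ t, 0 < t ∧ t ≤ T / 2 ∧ io D (v t) = x t ∧ ‖v t‖ ≤ δ := by
    by_contra hcon
    push Not at hcon
    have hae : ∀ᵐ t ∂(volume.restrict (Ioc 0 (T / 2))), δ ^ 2 ≤ ‖v t‖ ^ 2 := by
      have h1 : ∀ᵐ t ∂(volume.restrict (Ioc 0 (T / 2))), io D (v t) = x t := by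
        have h2 := hL.ae
        rwa [Measure.restrict_congr_set Ioc_ae_eq_Icc.symm] at h2
      filter_upwards [h1, ae_restrict_mem measurableSet_Ioc] with t h2 h3
      have h4 := hcon t h3.1 h3.2 h2
      have : 0 < δ := hδ
      nlinarith [norm_nonneg (v t)]
    have hint : IntegrableOn (fun t => ‖v t‖ ^ 2) (Ioc 0 (T / 2)) := by
      have h2 := hL.mem
      rw [Measure.restrict_congr_set Ioc_ae_eq_Icc.symm] at h2
      exact (memLp_two_iff_integrable_sq_norm h2.1).1 h2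
    have h5 : ∫ t in (0 : ℝ)..(T / 2), δ ^ 2 ≤ ∫ t in (0 : ℝ)..(T / 2), ‖v t‖ ^ 2 := by
      rw [intervalIntegral.integral_of_le (by positivity), intervalIntegral.integral_of_le (by positivity)]
      exact integral_mono_ae (integrable_const _) hint hae
    rw [intervalIntegral.integral_const, smul_eq_mul, sub_zero] at h5
    have h6 := hv.trans_lt hM
    linarith
  -- the three pieces
  have p1 : Mv Ω (frontier D) t (x₀ : L2E d) (x t : L2E d) := by
    refine ⟨_, _, (hL.wtr hd hO hD hΩ).sub le_rfl ht1, ?_, rfl⟩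
    show ((x 0 : HD D) : L2E d) = x₀
    rw [hL.init]
  have p2 : Mv Ω (frontier D) (T / 2) (x t : L2E d) 0 := by
    rw [← hxt]
    exact hδn _ hvt
  have p3 : Mv Ω (frontier D) (T / 2 - t) (0 : L2E d) 0 := Mv.zero _
  have h1 := (p1.trans ht0.le (by positivity) p2).trans (by positivity) (by linarith) p3
  have e : t + T / 2 + (T / 2 - t) = T := by ring
  rwa [e] at h1

end

end Pool.Agent.Lib.MP_79abb3_an.W
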