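import Pool.Agent.Lib.MP_79abb3_an.W.SpA

/-!
Theorem W (MP_79abb3_an), Phase 0: from an arbitrary admissible `L²` datum (with flux through `Γ`) to a state in `H(Ω)`.
Definitions: the lift `L(t) = ∑_k σ_k(t) Y_k` of the datum.

The datum `u₀` is the limit in `L²(Ω)` of smooth fields `U_k = ∑_{j<k} Y_j`, divergence free in `Ω` and zero on the wall.
`σ_k = 1` for `t ≤ τ_{k+1}`, `σ_k = 0` for `t ≥ τ_k`, where the times `τ_k` decrease to `0` so fast that
`L(t)` and its derivatives in space are bounded by `t^(-1/8)`.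
-/

set_option autoImplicit false
set_option linter.unusedSectionVars false

open MeasureTheory Set Filter Topology Function
open scoped ENNReal RealInnerProductSpace

namespace Pool.Agent.Lib.MP_79abb3_an.W

variable {d : ℕ}

/-- the cut-off in time: `1` for `t ≤ a`, `0` for `t ≥ b` (for `a < b`) -/
noncomputable def sgt (a b t : ℝ) : ℝ := Real.smoothTransition ((b - t) / (b - a))

/-- A decomposition of the datum `u₀` and a sequence of times. -/
structure P0Seq (Ω W : Set (En d)) (u₀ : En d → En d) (Y : ℕ → En d → En d) (ω τ : ℕ → ℝ) : Prop where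
  smo : ∀ k, Smo (Y k)
  cpt : ∀ k, HasCompactSupport (Y k)
  dvz : ∀ k, ∀ x ∈ Ω, dv (Y k) x = 0
  wall : ∀ k, ∀ x ∈ W, Y k x = 0
  ω0 : ∀ k, 0 ≤ ω k
  nrm : ∀ k, eLpNorm (Y k) 2 (volume.restrict Ω) ≤ ENNReal.ofReal (ω k)
  ωs : Summable ω
  lim : Tendsto (fun n => eLpNorm (fun x => u₀ x - ∑ k ∈ Finset.range n, Y k x) 2 (volume.restrict Ω)) atTop (𝓝 0)
  τ0 : ∀ k, 0 < τ k
  τa : StrictAnti τ
  τl : Tendsto τ atTop (𝓝 0)
  sup : ∀ k, ∀ x, ∑ j ∈ Finset.range (k + 1), (‖Y j x‖ + ‖fderiv ℝ (Y j) x‖ + ‖lap (Y j) x‖) ≤ τ k ^ (-(1 / 8 : ℝ))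

/-- the coefficient `σ_k(t)` -/
noncomputable def sg (τ : ℕ → ℝ) (k : ℕ) (t : ℝ) : ℝ := sgt (τ (k + 1)) (τ k) t

/-- the lift -/
noncomputable def lft (Y : ℕ → En d → En d) (τ : ℕ → ℝ) (t : ℝ) (x : En d) : En d := ∑' k, sg τ k t • Y k x

/-- the time derivative of the lift -/
noncomputable def lfd (Y : ℕ → En d → En d) (τ : ℕ → ℝ) (t : ℝ) (x : En d) : En d :=
  ∑' k, deriv (sg τ k) t • Y k x

/-- the bound of the time derivative in `L²(Ω)` -/
noncomputable def lbd (ω τ : ℕ → ℝ) (t : ℝ) : ℝ := ∑' k, |deriv (sg τ k) t| * ω k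

end Pool.Agent.Lib.MP_79abb3_an.W
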