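import Mathlib
import Pool.Agent.Lib.MP_79abb3_an.W.SpA
import Pool.Agent.Lib.MP_79abb3_an.W.P0Def

section

/-!
Theorem W (MP_79abb3_an), Phase 0: existence of the decomposition of the datum and of the times.
-/

set_option autoImplicit false
set_option linter.unusedSectionVars false

open MeasureTheory Set Filter Topology Function
open scoped ENNReal RealInnerProductSpace

namespace Pool.Agent.Lib.MP_79abb3_an.W

variable {d : ℕ}

/-- the recursive choice of the times -/
private noncomputable def p0seq (B : ℕ → ℝ) (t₁ : ℝ) : ℕ → ℝ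
  | 0 => min t₁ ((1 + |B 0|) ^ (-8 : ℝ))
  | (k + 1) => min (p0seq B t₁ k / 2) ((1 + |B (k + 1)|) ^ (-8 : ℝ))

/-- JOB P0-a3. The times: for every sequence `B` of reals there are `τ_k ↓ 0` with `B_k ≤ τ_k^(-1/8)`. Recursively
`τ_{k+1} = min (τ_k / 2) ((1 + |B_{k+1}|)^(-8))`. -/
theorem p0_times (B : ℕ → ℝ) {t₁ : ℝ} (ht : 0 < t₁) :
    ∃ τ : ℕ → ℝ, (∀ k, 0 < τ k) ∧ StrictAnti τ ∧ Tendsto τ atTop (𝓝 0) ∧ τ 0 ≤ t₁ ∧
      ∀ k, B k ≤ τ k ^ (-(1 / 8 : ℝ)) := by
  have hc : ∀ k, 0 < (1 + |B k|) ^ (-8 : ℝ) := fun k =>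
    Real.rpow_pos_of_pos (by have := abs_nonneg (B k); linarith) _
  have hpos : ∀ k, 0 < p0seq B t₁ k := by
    intro k
    induction k with
    | zero => exact lt_min ht (hc 0)
    | succ k ih => exact lt_min (half_pos ih) (hc (k + 1))
  have hle : ∀ k, p0seq B t₁ k ≤ (1 + |B k|) ^ (-8 : ℝ) := by
    intro k
    cases k with
    | zero => exact min_le_right _ _
    | succ k => exact min_le_right _ _
  have hhalf : ∀ k, p0seq B t₁ (k + 1) ≤ p0seq B t₁ k / 2 := fun k => min_le_left _ _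
  have h0 : p0seq B t₁ 0 ≤ t₁ := min_le_left _ _
  have hgeo : ∀ k, p0seq B t₁ k ≤ t₁ * (1 / 2 : ℝ) ^ k := by
    intro k
    induction k with
    | zero => simpa using h0
    | succ k ih =>
      calc p0seq B t₁ (k + 1) ≤ p0seq B t₁ k / 2 := hhalf k
        _ ≤ t₁ * (1 / 2 : ℝ) ^ k / 2 := by linarith
        _ = t₁ * (1 / 2 : ℝ) ^ (k + 1) := by rw [pow_succ]; ring
  refine ⟨p0seq B t₁, hpos, strictAnti_nat_of_succ_lt fun k => ?_, ?_, h0, fun k => ?_⟩
  · have h1 := hhalf k
    have h2 := hpos k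
    linarith
  · have h1 : Tendsto (fun k : ℕ => t₁ * (1 / 2 : ℝ) ^ k) atTop (𝓝 0) := by
      have h2 := (tendsto_pow_atTop_nhds_zero_of_lt_one (by norm_num : (0 : ℝ) ≤ 1 / 2)
        (by norm_num : (1 / 2 : ℝ) < 1)).const_mul t₁
      simpa using h2
    exact squeeze_zero (fun k => (hpos k).le) hgeo h1
  · have hB : (0 : ℝ) < 1 + |B k| := by have := abs_nonneg (B k); linarith
    have h1 : ((1 + |B k|) ^ (-8 : ℝ)) ^ (-(1 / 8 : ℝ)) ≤ p0seq B t₁ k ^ (-(1 / 8 : ℝ)) :=
      Real.rpow_le_rpow_of_nonpos (hpos k) (hle k) (by norm_num)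
    rw [← Real.rpow_mul hB.le] at h1
    norm_num at h1
    have h2 := le_abs_self (B k)
    have h3 : (-(1 / 8) : ℝ) = -(1 / 8 : ℝ) := rfl
    norm_num
    linarith

end Pool.Agent.Lib.MP_79abb3_an.W
end

section

/-!
Theorem W (MP_79abb3_an), Phase 0: existence of the decomposition of the datum and of the times.
-/

set_option autoImplicit false
set_option linter.unusedSectionVars false

open MeasureTheory Set Filter Topology Function
open scoped ENNReal RealInnerProductSpace

namespace Pool.Agent.Lib.MP_79abb3_an.W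

variable {d : ℕ}

/-- JOB P0-a1. Cut off outside a large ball: multiply by a `ContDiffBump` which is `1` on `ball 0 (R+1) ⊇ closure Ω`. -/
theorem p0_cut {Ω : Set (En d)} (hb : Bornology.IsBounded Ω) {L : En d → En d} (hL : Smo L) :
    ∃ L' : En d → En d, Smo L' ∧ HasCompactSupport L' ∧ ∀ x ∈ closure Ω, L' =ᶠ[𝓝 x] L := by
  obtain ⟨R, hR⟩ := hb.subset_closedBall (0 : En d)
  set f : ContDiffBump (0 : En d) := ⟨max R 0 + 1, max R 0 + 2, by positivity, by linarith⟩ with hf
  refine ⟨fun x => f x • L x, ?_, ?_, fun x hx => ?_⟩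
  · exact (f.contDiff (n := (⊤ : ℕ∞))).smul hL
  · exact f.hasCompactSupport.smul_right
  · have h1 : x ∈ Metric.closedBall (0 : En d) R := closure_minimal hR Metric.isClosed_closedBall hx
    have h2 : x ∈ Metric.ball (0 : En d) f.rIn := by
      rw [mem_closedBall_zero_iff] at h1
      rw [mem_ball_zero_iff]
      have h3 : f.rIn = max R 0 + 1 := rfl
      rw [h3]
      linarith [le_max_left R 0]
    filter_upwards [f.eventuallyEq_one_of_mem_ball h2] with y hy
    rw [hy]
    simp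

/-- JOB P0-a2. A smooth field with compact support and its derivatives are bounded. (`fderiv` of a smooth function with
compact support is continuous with compact support; `lap Y` likewise, `IsTe.lap` with `D = univ`.) -/
theorem p0_bdd {Y : En d → En d} (h : Smo Y) (hc : HasCompactSupport Y) :
    ∃ B, ∀ x, ‖Y x‖ + ‖fderiv ℝ Y x‖ + ‖lap Y x‖ ≤ B := by
  obtain ⟨a, ha⟩ := h.continuous.bounded_above_of_compact_support hc
  have h1 : Continuous (fderiv ℝ Y) := h.continuous_fderiv (by norm_num)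
  obtain ⟨b, hb⟩ := h1.bounded_above_of_compact_support (hc.fderiv ℝ)
  have h2 : IsTe (univ : Set (En d)) Y := ⟨h, hc, subset_univ _⟩
  obtain ⟨c, hc'⟩ := h2.lap.smooth.continuous.bounded_above_of_compact_support h2.lap.cpt
  exact ⟨a + b + c, fun x => add_le_add (add_le_add (ha x) (hb x)) (hc' x)⟩

end Pool.Agent.Lib.MP_79abb3_an.W
end

section

/-!
Theorem W (MP_79abb3_an), Phase 0: existence of the decomposition of the datum and of the times.
-/

set_option autoImplicit false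
set_option linter.unusedSectionVars false

open MeasureTheory Set Filter Topology Function
open scoped ENNReal RealInnerProductSpace

namespace Pool.Agent.Lib.MP_79abb3_an.W

variable {d : ℕ}

/-- the differences of a sequence of fields -/
private noncomputable def p0a3Y (U : ℕ → En d → En d) : ℕ → En d → En d
  | 0 => U 0
  | (k + 1) => fun x => U (k + 1) x - U k x

private theorem p0a3_sum (U : ℕ → En d → En d) (n : ℕ) (x : En d) :
    ∑ k ∈ Finset.range (n + 1), p0a3Y U k x = U n x := by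
  induction n with
  | zero => simp [p0a3Y]
  | succ n ih =>
    rw [Finset.sum_range_succ, ih]
    show U n x + (U (n + 1) x - U n x) = _
    abel

private theorem p0a3_dv_sub {f g : En d → En d} (hf : Smo f) (hg : Smo g) (x : En d) :
    dv (fun x => f x - g x) x = dv f x - dv g x := by
  unfold dv
  rw [← Finset.sum_sub_distrib]
  refine Finset.sum_congr rfl fun i _ => ?_
  show (fderiv ℝ (fun x => f x - g x) x (ei i)) i = _
  rw [fderiv_fun_sub (hf.differentiable x) (hg.differentiable x)]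
  rfl

/-- JOB P0-a4. The decomposition. Choose `U_k` admissible with `|u₀ - U_k| ≤ 2^(-k)` in `L²(Ω)`, cut off by `p0_cut`
(`dv` and the values on the wall `W ⊆ closure Ω` do not change), `Y_0 = U_0`, `Y_{k+1} = U_{k+1} - U_k`,
`∑_{k<n+1} Y_k = U_n`, `ω_0 = (eLpNorm Y_0).toReal` (finite by `memLp`), `ω_{k+1} = 2^(-k) + 2^(-k-1)`;
`B_k` = sum over `j ≤ k` of the bounds of `p0_bdd`; `τ` by `p0_times`. -/
theorem p0_seq {Ω W : Set (En d)} (hb : Bornology.IsBounded Ω) (hW : W ⊆ closure Ω) {u₀ : En d → En d}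
    (hm : MemLp u₀ 2 (volume.restrict Ω))
    (hu : ∀ ε : ℝ≥0∞, 0 < ε → ∃ L : En d → En d, Smo L ∧ (∀ x ∈ Ω, dv L x = 0) ∧ (∀ x ∈ W, L x = 0) ∧
      eLpNorm (fun x => u₀ x - L x) 2 (volume.restrict Ω) ≤ ε) {t₁ : ℝ} (ht : 0 < t₁) :
    ∃ (Y : ℕ → En d → En d) (ω τ : ℕ → ℝ), P0Seq Ω W u₀ Y ω τ ∧ τ 0 ≤ t₁ := by
  have hU : ∀ n : ℕ, ∃ U : En d → En d, Smo U ∧ HasCompactSupport U ∧ (∀ x ∈ Ω, dv U x = 0) ∧
      (∀ x ∈ W, U x = 0) ∧
      eLpNorm (fun x => u₀ x - U x) 2 (volume.restrict Ω) ≤ ENNReal.ofReal ((1 / 2 : ℝ) ^ n) := by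
    intro n
    obtain ⟨L, hL, hd, hw, he⟩ := hu (ENNReal.ofReal ((1 / 2 : ℝ) ^ n)) (ENNReal.ofReal_pos.2 (by positivity))
    obtain ⟨U, hU, hc, hUL⟩ := p0_cut hb hL
    refine ⟨U, hU, hc, fun x hx => ?_, fun x hx => ?_, ?_⟩
    · rw [← hd x hx]
      unfold dv pd
      rw [(hUL x (subset_closure hx)).fderiv_eq]
    · rw [(hUL x (hW hx)).eq_of_nhds, hw x hx]
    · refine le_of_eq_of_le (eLpNorm_congr_ae ?_) he
      have h1 : ∀ᵐ x ∂(volume.restrict (closure Ω)), u₀ x - U x = u₀ x - L x :=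
        (ae_restrict_iff' isClosed_closure.measurableSet).2
          (Eventually.of_forall fun x hx => by rw [(hUL x hx).eq_of_nhds])
      exact ae_restrict_of_ae_restrict_of_subset subset_closure h1
  choose U hU1 hU2 hU3 hU4 hU5 using hU
  have hY1 : ∀ k, Smo (p0a3Y U k) := by
    intro k
    cases k with
    | zero => exact hU1 0
    | succ k => exact (hU1 (k + 1)).sub (hU1 k)
  have hY2 : ∀ k, HasCompactSupport (p0a3Y U k) := by
    intro k
    cases k with
    | zero => exact hU2 0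
    | succ k => exact (hU2 (k + 1)).sub (hU2 k)
  have hUm : ∀ k, MemLp (U k) 2 (volume.restrict Ω) := fun k =>
    ((hU1 k).continuous.memLp_of_hasCompactSupport (hU2 k)).restrict Ω
  choose b hb' using fun k => p0_bdd (hY1 k) (hY2 k)
  obtain ⟨τ, hτ0, hτa, hτl, hτ1, hτB⟩ := p0_times (fun k => ∑ j ∈ Finset.range (k + 1), b j) ht
  set ω : ℕ → ℝ := fun k => match k with
    | 0 => (eLpNorm (U 0) 2 (volume.restrict Ω)).toReal
    | (k + 1) => (1 / 2 : ℝ) ^ k + (1 / 2 : ℝ) ^ (k + 1) with hω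
  refine ⟨p0a3Y U, ω, τ, ?_, hτ1⟩
  refine ⟨hY1, hY2, ?_, ?_, ?_, ?_, ?_, ?_, hτ0, hτa, hτl, ?_⟩
  · intro k x hx
    cases k with
    | zero => exact hU3 0 x hx
    | succ k =>
      show dv (fun x => U (k + 1) x - U k x) x = 0
      rw [p0a3_dv_sub (hU1 _) (hU1 _), hU3 _ x hx, hU3 _ x hx, sub_zero]
  · intro k x hx
    cases k with
    | zero => exact hU4 0 x hx
    | succ k =>
      show U (k + 1) x - U k x = 0
      rw [hU4 _ x hx, hU4 _ x hx, sub_zero]
  · intro k
    cases k with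
    | zero => exact ENNReal.toReal_nonneg
    | succ k => simp only [hω]; positivity
  · intro k
    cases k with
    | zero =>
      show eLpNorm (U 0) 2 (volume.restrict Ω) ≤ ENNReal.ofReal (eLpNorm (U 0) 2 (volume.restrict Ω)).toReal
      rw [ENNReal.ofReal_toReal (hUm 0).2.ne]
    | succ k =>
      show eLpNorm (fun x => U (k + 1) x - U k x) 2 (volume.restrict Ω) ≤
        ENNReal.ofReal ((1 / 2 : ℝ) ^ k + (1 / 2 : ℝ) ^ (k + 1))
      have e : (fun x => U (k + 1) x - U k x) = (fun x => u₀ x - U k x) - (fun x => u₀ x - U (k + 1) x) := by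
        funext x
        show U (k + 1) x - U k x = (u₀ x - U k x) - (u₀ x - U (k + 1) x)
        abel
      rw [e, ENNReal.ofReal_add (by positivity) (by positivity)]
      refine (eLpNorm_sub_le (hm.1.sub (hUm k).1) (hm.1.sub (hUm (k + 1)).1) (by norm_num)).trans ?_
      exact add_le_add (hU5 k) (hU5 (k + 1))
  · rw [← summable_nat_add_iff 1]
    have h1 : Summable fun k : ℕ => (1 / 2 : ℝ) ^ k :=
      summable_geometric_of_lt_one (by norm_num) (by norm_num)
    exact h1.add ((summable_nat_add_iff 1).2 h1)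
  · rw [← tendsto_add_atTop_iff_nat 1]
    have h2 : Tendsto (fun n : ℕ => ENNReal.ofReal ((1 / 2 : ℝ) ^ n)) atTop (𝓝 0) := by
      have h3 := ENNReal.tendsto_ofReal (tendsto_pow_atTop_nhds_zero_of_lt_one (by norm_num : (0 : ℝ) ≤ 1 / 2)
        (by norm_num : (1 / 2 : ℝ) < 1))
      simpa using h3
    refine tendsto_of_tendsto_of_tendsto_of_le_of_le tendsto_const_nhds h2 (fun _ => bot_le) fun n => ?_
    show eLpNorm (fun x => u₀ x - ∑ k ∈ Finset.range (n + 1), p0a3Y U k x) 2 (volume.restrict Ω) ≤ _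
    simp only [p0a3_sum]
    exact hU5 n
  · intro k x
    refine le_trans (Finset.sum_le_sum fun j _ => hb' j x) (hτB k)

end Pool.Agent.Lib.MP_79abb3_an.W
end
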