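import Pool.Agent.Lib.MP_79abb3_an.W.SpE1
import Pool.Agent.Lib.MP_79abb3_an.W.SpB2
import Pool.Agent.Lib.MP_79abb3_an.W.SpC

section

/-!
Theorem W, block A: the embedding of `V(D)` into `L⁴`.
-/

set_option autoImplicit false
set_option linter.unusedSectionVars false

open MeasureTheory Set Filter Topology Function
open scoped ENNReal RealInnerProductSpace

namespace Pool.Agent.Lib.MP_79abb3_an.W

section
variable {d : ℕ} {D : Set (En d)}

instance fact_one_le_four : Fact ((1 : ℝ≥0∞) ≤ 4) := ⟨by norm_num⟩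

/-- fields of class `L⁴` -/
abbrev Z4 (d : ℕ) : Type := Lp (En d) 4 (volume : Measure (En d))

/-- the class of a field in `L⁴`, `0` if it is not in `L⁴` -/
noncomputable def cl4 (f : En d → En d) : Z4 d :=
  open scoped Classical in if h : MemLp f 4 (volume : Measure (En d)) then h.toLp f else 0

theorem cl4_eq {f : En d → En d} (h : MemLp f 4 (volume : Measure (En d))) : cl4 f = h.toLp f := dif_pos h

theorem cl4_coe {f : En d → En d} (h : MemLp f 4 (volume : Measure (En d))) :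
    (cl4 f : En d → En d) =ᵐ[volume] f := by
  rw [cl4_eq h]
  exact h.coeFn_toLp

/-- a test field as an element of `L⁴` -/
noncomputable def zT (D : Set (En d)) : TS D →ₗ[ℝ] Z4 d where
  toFun φ := cl4 (φ : En d → En d)
  map_add' φ ψ := by
    have h1 := (TS.ts φ).memLp 4
    have h2 := (TS.ts ψ).memLp 4
    have h : MemLp ((φ : En d → En d) + (ψ : En d → En d)) 4 (volume : Measure (En d)) := h1.add h2
    show cl4 ((φ : En d → En d) + (ψ : En d → En d)) = _
    rw [cl4_eq h1, cl4_eq h2, cl4_eq h]; rfl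
  map_smul' c φ := by
    have h1 := (TS.ts φ).memLp 4
    have h : MemLp (c • (φ : En d → En d)) 4 (volume : Measure (En d)) := h1.const_smul c
    show cl4 (c • (φ : En d → En d)) = _
    rw [cl4_eq h1, cl4_eq h]; rfl

/-- the embedding of `V` into `L⁴` -/
noncomputable def j4 (D : Set (En d)) : VD D →L[ℝ] Z4 d := (zT D).extendOfNorm (vT D)

private theorem cl4_pow {f : En d → En d} (h : MemLp f 4 (volume : Measure (En d))) :
    ‖cl4 f‖ ^ 4 = ∫ x, ‖f x‖ ^ 4 := by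
  have h0 : 0 ≤ ∫ x, ‖f x‖ ^ 4 := integral_nonneg fun x => by positivity
  rw [cl4_eq h, Lp.norm_toLp, h.eLpNorm_eq_integral_rpow_norm (by norm_num) (by norm_num)]
  have h4 : (4 : ℝ≥0∞).toReal = ((4 : ℕ) : ℝ) := by norm_num
  rw [h4]
  simp only [Real.rpow_natCast]
  rw [ENNReal.toReal_ofReal (Real.rpow_nonneg h0 _), Real.rpow_inv_natCast_pow h0 (by norm_num)]

private theorem zT_le8 (hd : d = 2 ∨ d = 3) (hD : Bornology.IsBounded D) : ∃ C : ℝ, 0 ≤ C ∧ ∀ φ : TS D,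
    ‖zT D φ‖ ^ 8 ≤ C * ‖hT D φ‖ ^ 2 * ‖vT D φ‖ ^ 6 := by
  obtain ⟨C, hC, h⟩ := L4_test hd hD
  refine ⟨C, hC, fun φ => ?_⟩
  have h1 := h _ (TS.ts φ).toIsTe
  rw [← norm_sq_hT, ← norm_sq_vT, ← cl4_pow ((TS.ts φ).memLp 4)] at h1
  calc ‖zT D φ‖ ^ 8 = (‖cl4 (φ : En d → En d)‖ ^ 4) ^ 2 := by
        rw [← pow_mul]; rfl
    _ ≤ _ := h1
    _ = _ := by ring

private theorem zT_le4 (hd : d = 2 ∨ d = 3) (hD : Bornology.IsBounded D) : ∃ C : ℝ, 0 ≤ C ∧ ∀ φ : TS D,
    ‖zT D φ‖ ^ 4 ≤ C * ‖hT D φ‖ * ‖vT D φ‖ ^ 3 := by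
  obtain ⟨C, hC, h⟩ := zT_le8 hd hD
  refine ⟨Real.sqrt C, Real.sqrt_nonneg C, fun φ => ?_⟩
  have h1 := h φ
  refine le_of_pow_le_pow_left₀ (n := 2) (by norm_num) (by positivity) ?_
  calc (‖zT D φ‖ ^ 4) ^ 2 = ‖zT D φ‖ ^ 8 := by ring
    _ ≤ C * ‖hT D φ‖ ^ 2 * ‖vT D φ‖ ^ 6 := h1
    _ = (Real.sqrt C * ‖hT D φ‖ * ‖vT D φ‖ ^ 3) ^ 2 := by
        rw [mul_pow, mul_pow, Real.sq_sqrt hC]; ring

private theorem zT_le (hd : d = 2 ∨ d = 3) (hD : Bornology.IsBounded D) : ∃ C : ℝ, ∀ φ : TS D,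
    ‖zT D φ‖ ≤ C * ‖vT D φ‖ := by
  obtain ⟨C, hC, h⟩ := zT_le4 hd hD
  obtain ⟨R, hR0, hR⟩ : ∃ R : ℝ, 0 ≤ R ∧ D ⊆ Metric.closedBall 0 R := by
    obtain ⟨R, hR⟩ := hD.subset_closedBall 0
    exact ⟨max R 0, le_max_right _ _, hR.trans (Metric.closedBall_subset_closedBall (le_max_left _ _))⟩
  refine ⟨(C * (2 * R)) ^ (1 / 4 : ℝ), fun φ => ?_⟩
  have h1 := h φ
  have h2 : ‖hT D φ‖ ≤ 2 * R * ‖vT D φ‖ := by
    rw [← io_vT hD]
    exact io_le hR0 hR _
  have h3 : ‖zT D φ‖ ^ 4 ≤ (C * (2 * R)) * ‖vT D φ‖ ^ 4 := by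
    calc ‖zT D φ‖ ^ 4 ≤ C * ‖hT D φ‖ * ‖vT D φ‖ ^ 3 := h1
      _ ≤ C * (2 * R * ‖vT D φ‖) * ‖vT D φ‖ ^ 3 := by gcongr
      _ = _ := by ring
  have h4 : 0 ≤ C * (2 * R) := by positivity
  refine le_of_pow_le_pow_left₀ (n := 4) (by norm_num) (by positivity) ?_
  refine h3.trans_eq ?_
  rw [mul_pow, ← Real.rpow_natCast ((C * (2 * R)) ^ (1 / 4 : ℝ)) 4, ← Real.rpow_mul h4]
  norm_num

theorem j4_vT (hd : d = 2 ∨ d = 3) (hD : Bornology.IsBounded D) (φ : TS D) :
    j4 D (vT D φ) = cl4 (φ : En d → En d) := by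
  exact LinearMap.extendOfNorm_eq (vT_dense D) (zT_le hd hD) φ

/-- `j4 v` and `io v` are the same function (a sequence of test fields converges in `L²` and in `L⁴`, hence a
subsequence a.e.) -/
theorem j4_ae (hd : d = 2 ∨ d = 3) (hD : Bornology.IsBounded D) (v : VD D) :
    (j4 D v : En d → En d) =ᵐ[volume] ((io D v : HD D) : L2E d) := by
  obtain ⟨φ, h1, h2⟩ := exists_seq hD v
  have h3 : Tendsto (fun n => j4 D (vT D (φ n))) atTop (𝓝 (j4 D v)) :=
    ((j4 D).continuous.tendsto v).comp h1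
  have h4 : Tendsto (fun n => ((hT D (φ n) : HD D) : L2E d)) atTop (𝓝 ((io D v : HD D) : L2E d)) :=
    (continuous_subtype_val.tendsto _).comp h2
  have h5 := tendstoInMeasure_of_tendsto_Lp h3
  have h6 := tendstoInMeasure_of_tendsto_Lp h4
  have h7 : TendstoInMeasure volume (fun n => ((φ n : TS D) : En d → En d)) atTop (j4 D v : En d → En d) := by
    refine h5.congr_left fun n => ?_
    rw [j4_vT hd hD]
    exact cl4_coe ((TS.ts (φ n)).memLp 4)
  have h8 : TendstoInMeasure volume (fun n => ((φ n : TS D) : En d → En d)) atTop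
      (((io D v : HD D) : L2E d) : En d → En d) := by
    refine h6.congr_left fun n => ?_
    rw [hT_coe]
    exact cl_coe ((TS.ts (φ n)).memLp 2)
  exact tendstoInMeasure_ae_unique h7 h8

theorem j4_le (hd : d = 2 ∨ d = 3) (hD : Bornology.IsBounded D) : ∃ C : ℝ, 0 ≤ C ∧ ∀ v : VD D,
    ‖j4 D v‖ ^ 4 ≤ C * ‖io D v‖ * ‖v‖ ^ 3 := by
  obtain ⟨C, hC, h⟩ := zT_le4 hd hD
  refine ⟨C, hC, fun v => ?_⟩
  refine (vT_dense D).induction_on v ?_ fun φ => ?_
  · exact isClosed_le (by fun_prop) (by fun_prop)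
  · rw [j4_vT hd hD, io_vT hD]
    exact h φ

theorem j4_le' (hd : d = 2 ∨ d = 3) (hD : Bornology.IsBounded D) : ∃ C : ℝ, 0 ≤ C ∧ ∀ v : VD D,
    ‖j4 D v‖ ≤ C * (‖io D v‖ ^ (1 / 4 : ℝ) * ‖v‖ ^ (3 / 4 : ℝ)) := by
  obtain ⟨C, hC, h⟩ := j4_le hd hD
  refine ⟨C ^ (1 / 4 : ℝ), Real.rpow_nonneg hC _, fun v => ?_⟩
  refine le_of_pow_le_pow_left₀ (n := 4) (by norm_num) (by positivity) ?_
  refine (h v).trans_eq ?_
  have h1 : ∀ (x : ℝ), 0 ≤ x → (x ^ (1 / 4 : ℝ)) ^ 4 = x := by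
    intro x hx
    rw [← Real.rpow_natCast, ← Real.rpow_mul hx]
    norm_num
  have h2 : ∀ (x : ℝ), 0 ≤ x → (x ^ (3 / 4 : ℝ)) ^ 4 = x ^ 3 := by
    intro x hx
    rw [← Real.rpow_natCast, ← Real.rpow_mul hx, ← Real.rpow_natCast x 3]
    norm_num
  rw [mul_pow, mul_pow, h1 C hC, h1 _ (norm_nonneg _), h2 _ (norm_nonneg _)]
  ring

end

end Pool.Agent.Lib.MP_79abb3_an.W
end

section

/-!
Theorem W, block A: the trilinear form on `L⁴ × L² × L⁴`.
-/

set_option autoImplicit false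
set_option linter.unusedSectionVars false

open MeasureTheory Set Filter Topology Function
open scoped ENNReal RealInnerProductSpace

namespace Pool.Agent.Lib.MP_79abb3_an.W

section
variable {d : ℕ} {D : Set (En d)}

private theorem spF1_ht : ENNReal.HolderTriple 4 4 2 := by
  refine ⟨?_⟩
  have e : (4 : ℝ≥0∞) = 2 * 2 := by norm_num
  rw [e, ENNReal.mul_inv (Or.inl (by norm_num)) (Or.inl (by norm_num)), ← two_mul, ← mul_assoc,
    ENNReal.mul_inv_cancel (by norm_num) (by norm_num), one_mul]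

/-- `(a, w) ↦ a_i w` -/
private noncomputable def spF1_B (i : Fin d) : En d →L[ℝ] En d →L[ℝ] En d :=
  (ContinuousLinearMap.lsmul ℝ ℝ).comp (EuclideanSpace.proj i : En d →L[ℝ] ℝ)

private theorem spF1_B_apply (i : Fin d) (a w : En d) : spF1_B i a w = a i • w := rfl

private noncomputable def spF1_H (i : Fin d) : Z4 d →L[ℝ] Z4 d →L[ℝ] L2E d :=
  have := spF1_ht
  (spF1_B i).holderL volume 4 4 2

private theorem spF1_H_coe (i : Fin d) (a w : Z4 d) :
    (spF1_H i a w : En d → En d) =ᵐ[volume] fun x => (a : En d → En d) x i • (w : En d → En d) x := by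
  have := spF1_ht
  exact (spF1_B i).coeFn_holder a w

private theorem spF1_int_H (i : Fin d) (a : Z4 d) (g : G2E d) (w : Z4 d) :
    ⟪g i, spF1_H i a w⟫ = ∫ x, (a : En d → En d) x i * ⟪(g i : En d → En d) x, (w : En d → En d) x⟫ := by
  rw [inner_L2]
  refine integral_congr_ae ?_
  filter_upwards [spF1_H_coe i a w] with x hx
  rw [hx, real_inner_smul_right]

private theorem spF1_sq (a w : Z4 d) :
    Integrable (fun x => ‖(a : En d → En d) x‖ ^ 2 * ‖(w : En d → En d) x‖ ^ 2) ∧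
    ∫ x, ‖(a : En d → En d) x‖ ^ 2 * ‖(w : En d → En d) x‖ ^ 2 ≤ (‖a‖ * ‖w‖) ^ 2 := by
  have := spF1_ht
  have ha := Lp.memLp a
  have hw := Lp.memLp w
  have h1 : eLpNorm (fun x => ‖(a : En d → En d) x‖ * ‖(w : En d → En d) x‖) 2 volume ≤
      ((1 : NNReal) : ℝ≥0∞) * eLpNorm a 4 volume * eLpNorm w 4 volume :=
    eLpNorm_le_eLpNorm_mul_eLpNorm_of_nnnorm ha.1 hw.1 (fun u v => ‖u‖ * ‖v‖) 1
      (Eventually.of_forall fun x => by
        rw [nnnorm_mul, nnnorm_norm, nnnorm_norm, one_mul])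
  have h2 : eLpNorm (fun x => ‖(a : En d → En d) x‖ * ‖(w : En d → En d) x‖) 2 volume ≤
      ENNReal.ofReal (‖a‖ * ‖w‖) := by
    refine h1.trans (le_of_eq ?_)
    rw [ENNReal.ofReal_mul (norm_nonneg _), ENNReal.coe_one, one_mul, Lp.norm_def, Lp.norm_def,
      ENNReal.ofReal_toReal (Lp.eLpNorm_ne_top a), ENNReal.ofReal_toReal (Lp.eLpNorm_ne_top w)]
  have hm : MemLp (fun x => ‖(a : En d → En d) x‖ * ‖(w : En d → En d) x‖) 2 (volume : Measure (En d)) :=
    ⟨ha.1.norm.mul hw.1.norm, h2.trans_lt ENNReal.ofReal_lt_top⟩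
  have e1 : ∀ x, ‖‖(a : En d → En d) x‖ * ‖(w : En d → En d) x‖‖ ^ 2 =
      ‖(a : En d → En d) x‖ ^ 2 * ‖(w : En d → En d) x‖ ^ 2 := fun x => by
    rw [norm_mul, norm_norm, norm_norm, mul_pow]
  have hint := hm.integrable_norm_pow (by norm_num)
  simp only [e1] at hint
  refine ⟨hint, ?_⟩
  have h3 := hm.eLpNorm_eq_integral_rpow_norm (by norm_num) (by norm_num)
  have e2 : (2 : ℝ≥0∞).toReal = 2 := by norm_num
  rw [h3, e2] at h2
  have hI : 0 ≤ ∫ x, ‖(a : En d → En d) x‖ ^ 2 * ‖(w : En d → En d) x‖ ^ 2 :=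
    integral_nonneg fun x => by positivity
  simp only [Real.rpow_two, e1] at h2
  have h4 := (ENNReal.ofReal_le_ofReal_iff (by positivity)).1 h2
  have h5 := pow_le_pow_left₀ (Real.rpow_nonneg hI _) h4 2
  rwa [← Real.rpow_natCast, ← Real.rpow_mul hI, Nat.cast_ofNat, inv_mul_cancel₀ two_ne_zero,
    Real.rpow_one] at h5

private theorem spF1_H_sq (a w : Z4 d) : ∑ i, ‖spF1_H i a w‖ ^ 2 ≤ (‖a‖ * ‖w‖) ^ 2 := by
  obtain ⟨hint, hle⟩ := spF1_sq a w
  have e1 : ∀ i : Fin d, ‖spF1_H i a w‖ ^ 2 =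
      ∫ x, ((a : En d → En d) x i) ^ 2 * ‖(w : En d → En d) x‖ ^ 2 := fun i => by
    rw [norm_sq_L2]
    refine integral_congr_ae ?_
    filter_upwards [spF1_H_coe i a w] with x hx
    rw [hx, norm_smul, mul_pow, Real.norm_eq_abs, sq_abs]
  have hi : ∀ i : Fin d, Integrable fun x => ((a : En d → En d) x i) ^ 2 * ‖(w : En d → En d) x‖ ^ 2 :=
    fun i => by
      have h0 := (Lp.memLp (spF1_H i a w)).integrable_norm_pow (by norm_num)
      refine h0.congr ?_
      filter_upwards [spF1_H_coe i a w] with x hx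
      rw [hx, norm_smul, mul_pow, Real.norm_eq_abs, sq_abs]
  rw [Finset.sum_congr rfl fun i _ => e1 i, ← integral_finsetSum _ fun i _ => hi i]
  refine le_trans (le_of_eq ?_) hle
  refine integral_congr_ae (Eventually.of_forall fun x => ?_)
  show ∑ i, ((a : En d → En d) x i) ^ 2 * ‖(w : En d → En d) x‖ ^ 2 =
    ‖(a : En d → En d) x‖ ^ 2 * ‖(w : En d → En d) x‖ ^ 2
  rw [← Finset.sum_mul, EuclideanSpace.norm_sq_eq ((a : En d → En d) x)]
  simp only [Real.norm_eq_abs, sq_abs]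

private noncomputable def spF1_L (a w : Z4 d) : G2E d := WithLp.toLp 2 fun i => spF1_H i a w

private theorem spF1_L_le (a w : Z4 d) : ‖spF1_L a w‖ ≤ 1 * ‖a‖ * ‖w‖ := by
  refine le_of_sq_le_sq ?_ (by positivity)
  rw [PiLp.norm_sq_eq_of_L2, one_mul]
  exact spF1_H_sq a w

private noncomputable def spF1_LL : Z4 d →L[ℝ] Z4 d →L[ℝ] G2E d :=
  LinearMap.mkContinuous₂ (LinearMap.mk₂ ℝ spF1_L
    (fun a a' w => by
      ext1 i
      show spF1_H i (a + a') w = spF1_H i a w + spF1_H i a' w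
      rw [map_add]; rfl)
    (fun c a w => by
      ext1 i
      show spF1_H i (c • a) w = c • spF1_H i a w
      rw [map_smul]; rfl)
    (fun a w w' => by
      ext1 i
      show spF1_H i a (w + w') = spF1_H i a w + spF1_H i a w'
      rw [map_add])
    (fun c a w => by
      ext1 i
      show spF1_H i a (c • w) = c • spF1_H i a w
      rw [map_smul])) 1 spF1_L_le

/-- The form `(a,g,w) ↦ ∑_i ∫ a_i ⟪g_i, w⟫`. (For fixed `i` the map `(a,w) ↦ a_i w`, `L⁴ × L⁴ → L²`, is bilinear and bounded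
(`ContinuousLinearMap.holderL` with `ENNReal.HolderTriple 4 4 2`), then the scalar product of `L²` with `g_i`.
The bound: `|∑ a_i ⟪g_i, w⟫| ≤ |a| |w| (∑ |g_i|²)^{1/2}` pointwise, Hölder.) -/
theorem exists_tri (d : ℕ) : ∃ T : Z4 d →L[ℝ] G2E d →L[ℝ] Z4 d →L[ℝ] ℝ, ∀ (a : Z4 d) (g : G2E d) (w : Z4 d),
    T a g w = ∑ i, ∫ x, (a : En d → En d) x i * ⟪(g i : En d → En d) x, (w : En d → En d) x⟫ ∧
    |T a g w| ≤ ‖a‖ * ‖g‖ * ‖w‖ := by
  refine ⟨(((ContinuousLinearMap.compL ℝ (Z4 d) (G2E d) ℝ).comp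
    (isBoundedBilinearMap_inner (𝕜 := ℝ) (E := G2E d)).toContinuousLinearMap).flip).comp spF1_LL,
    fun a g w => ?_⟩
  have e1 : ((((ContinuousLinearMap.compL ℝ (Z4 d) (G2E d) ℝ).comp
    (isBoundedBilinearMap_inner (𝕜 := ℝ) (E := G2E d)).toContinuousLinearMap).flip).comp spF1_LL) a g w =
      ⟪g, spF1_L a w⟫ := rfl
  refine ⟨?_, ?_⟩
  · rw [e1, PiLp.inner_apply]
    exact Finset.sum_congr rfl fun i _ => spF1_int_H i a g w
  · rw [e1]
    refine (abs_real_inner_le_norm _ _).trans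
      ((mul_le_mul_of_nonneg_left (spF1_L_le a w) (norm_nonneg _)).trans ?_)
    exact le_of_eq (by ring)

noncomputable def tri (d : ℕ) : Z4 d →L[ℝ] G2E d →L[ℝ] Z4 d →L[ℝ] ℝ := (exists_tri d).choose

theorem tri_apply (a : Z4 d) (g : G2E d) (w : Z4 d) :
    tri d a g w = ∑ i, ∫ x, (a : En d → En d) x i * ⟪(g i : En d → En d) x, (w : En d → En d) x⟫ :=
  ((exists_tri d).choose_spec a g w).1

theorem tri_le (a : Z4 d) (g : G2E d) (w : Z4 d) : |tri d a g w| ≤ ‖a‖ * ‖g‖ * ‖w‖ :=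
  ((exists_tri d).choose_spec a g w).2

/-- `a` is divergence free in `D` in the weak sense -/
def dz (D : Set (En d)) (a : En d → En d) : Prop :=
  ∀ q : En d → ℝ, IsTe D q → ∫ x, ⟪a x, gd q x⟫ = 0

/-- the velocities of `V(D)` are divergence free (even on the whole space) -/
theorem j4_dz (hd : d = 2 ∨ d = 3) (hD : Bornology.IsBounded D) (u : VD D) : dz univ (j4 D u : En d → En d) := by
  intro q hq
  have h1 := HD_div (io D u) hq.smooth hq.cpt
  rw [inner_cl _ (hq.gd.memLp 2)] at h1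
  rw [← h1]
  refine integral_congr_ae ?_
  filter_upwards [j4_ae hd hD u] with x hx
  rw [hx]

private theorem spF1_int (a : Z4 d) {g : En d → ℝ} (hg : Continuous g) (hc : HasCompactSupport g)
    (i : Fin d) : Integrable fun x => (a : En d → En d) x i * g x := by
  have hloc : LocallyIntegrable (a : En d → En d) volume :=
    (Lp.memLp a).locallyIntegrable (by norm_num)
  have h1 : Integrable (fun x => g x • (a : En d → En d) x) volume :=
    hloc.integrable_smul_left_of_hasCompactSupport hg hc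
  refine ((EuclideanSpace.proj i : En d →L[ℝ] ℝ).integrable_comp h1).congr
    (Eventually.of_forall fun x => ?_)
  show (g x • (a : En d → En d) x) i = _
  rw [PiLp.smul_apply, smul_eq_mul, mul_comm]

private theorem spF1_anti_T (hd : d = 2 ∨ d = 3) (hD : Bornology.IsBounded D) {a : Z4 d}
    (ha : dz D (a : En d → En d)) (φ χ : TS D) :
    tri d a (vT D φ : G2E d) (j4 D (vT D χ)) = -tri d a (vT D χ : G2E d) (j4 D (vT D φ)) := by
  have key : ∀ φ χ : TS D, tri d a (vT D φ : G2E d) (j4 D (vT D χ)) =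
      ∑ i, ∫ x, (a : En d → En d) x i * ⟪pd i (φ : En d → En d) x, (χ : En d → En d) x⟫ := fun φ χ => by
    rw [tri_apply, j4_vT hd hD]
    refine Finset.sum_congr rfl fun i _ => integral_congr_ae ?_
    filter_upwards [cl4_coe ((TS.ts χ).memLp 4), cl_coe (((TS.ts φ).toIsTe.pd i).memLp 2)] with x h1 h2
    rw [h1]
    have h3 : ((vT D φ : G2E d) i : En d → En d) x = pd i (φ : En d → En d) x := h2
    rw [h3]
  rw [key φ χ, key χ φ, eq_neg_iff_add_eq_zero, ← Finset.sum_add_distrib]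
  have hφ := (TS.ts φ).toIsTe
  have hχ := (TS.ts χ).toIsTe
  have hq : IsTe D fun x => ⟪(φ : En d → En d) x, (χ : En d → En d) x⟫ := by
    have hs : support (fun x => ⟪(φ : En d → En d) x, (χ : En d → En d) x⟫) ⊆
        tsupport (φ : En d → En d) := fun x hx => subset_tsupport _ (by
      intro h0
      apply hx
      show ⟪(φ : En d → En d) x, (χ : En d → En d) x⟫ = 0
      rw [h0, inner_zero_left])
    exact ⟨hφ.smooth.inner hχ.smooth, HasCompactSupport.of_support_subset_isCompact hφ.cpt hs,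
      (closure_minimal hs (isClosed_tsupport _)).trans hφ.supp⟩
  have h1 := ha _ hq
  have hci : ∀ {f g : En d → En d}, Continuous f → Continuous g → HasCompactSupport f →
      HasCompactSupport fun x => ⟪f x, g x⟫ := fun {f g} _ _ hfc =>
    hfc.mono' fun x hx => subset_tsupport _ (by
      intro h0
      apply hx
      show ⟪f x, g x⟫ = 0
      rw [h0, inner_zero_left])
  have i1 : ∀ i : Fin d, Integrable fun x => (a : En d → En d) x i *
      ⟪pd i (φ : En d → En d) x, (χ : En d → En d) x⟫ := fun i =>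
    spF1_int a ((hφ.pd i).smooth.continuous.inner hχ.smooth.continuous)
      (hci (hφ.pd i).smooth.continuous hχ.smooth.continuous (hφ.pd i).cpt) i
  have i2 : ∀ i : Fin d, Integrable fun x => (a : En d → En d) x i *
      ⟪pd i (χ : En d → En d) x, (φ : En d → En d) x⟫ := fun i =>
    spF1_int a ((hχ.pd i).smooth.continuous.inner hφ.smooth.continuous)
      (hci (hχ.pd i).smooth.continuous hφ.smooth.continuous (hχ.pd i).cpt) i
  have e1 : ∀ i : Fin d, (∫ x, (a : En d → En d) x i * ⟪pd i (φ : En d → En d) x, (χ : En d → En d) x⟫) +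
      ∫ x, (a : En d → En d) x i * ⟪pd i (χ : En d → En d) x, (φ : En d → En d) x⟫ =
      ∫ x, (a : En d → En d) x i * pd i (fun x => ⟪(φ : En d → En d) x, (χ : En d → En d) x⟫) x := fun i => by
    rw [← integral_add (i1 i) (i2 i)]
    refine integral_congr_ae (Eventually.of_forall fun x => ?_)
    show (a : En d → En d) x i * ⟪pd i (φ : En d → En d) x, (χ : En d → En d) x⟫ +
      (a : En d → En d) x i * ⟪pd i (χ : En d → En d) x, (φ : En d → En d) x⟫ =
      (a : En d → En d) x i * pd i (fun x => ⟪(φ : En d → En d) x, (χ : En d → En d) x⟫) x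
    rw [pd_inner hφ.smooth hχ.smooth, real_inner_comm ((φ : En d → En d) x) (pd i (χ : En d → En d) x)]
    ring
  rw [Finset.sum_congr rfl fun i _ => e1 i, ← integral_finsetSum _ fun i _ =>
    spF1_int a (hq.pd i).smooth.continuous (hq.pd i).cpt i, ← h1]
  refine integral_congr_ae (Eventually.of_forall fun x => ?_)
  show ∑ i, (a : En d → En d) x i * pd i (fun x => ⟪(φ : En d → En d) x, (χ : En d → En d) x⟫) x =
    ⟪(a : En d → En d) x, gd (fun x => ⟪(φ : En d → En d) x, (χ : En d → En d) x⟫) x⟫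
  rw [PiLp.inner_apply]
  refine Finset.sum_congr rfl fun i _ => ?_
  rw [gd_apply]
  simp [mul_comm]

/-- **Skew symmetry.** For test fields `v = φ`, `w = χ`: `∑ a_i (⟪∂_i φ, χ⟫ + ⟪φ, ∂_i χ⟫) = ⟪a, ∇⟪φ, χ⟫⟫`, and `⟪φ, χ⟫` is a test
function of `D`. Then density of `vT` and continuity. -/
theorem tri_anti (hd : d = 2 ∨ d = 3) (hD : Bornology.IsBounded D) {a : Z4 d} (ha : dz D (a : En d → En d))
    (v w : VD D) : tri d a (v : G2E d) (j4 D w) = -tri d a (w : G2E d) (j4 D v) := by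
  have hc1 : Continuous fun p : VD D × VD D => tri d a (p.1 : G2E d) (j4 D p.2) := by
    have h1 : Continuous fun p : VD D × VD D => tri d a (p.1 : G2E d) :=
      (tri d a).continuous.comp (continuous_subtype_val.comp continuous_fst)
    have h2 : Continuous fun p : VD D × VD D => j4 D p.2 := (j4 D).continuous.comp continuous_snd
    exact h1.clm_apply h2
  have hc2 : Continuous fun p : VD D × VD D => -tri d a (p.2 : G2E d) (j4 D p.1) :=
    (hc1.comp continuous_swap).neg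
  refine (vT_dense D).induction_on₂ (p := fun v w : VD D =>
    tri d a (v : G2E d) (j4 D w) = -tri d a (w : G2E d) (j4 D v)) ?_ ?_ v w
  · exact isClosed_eq hc1 hc2
  · exact fun φ χ => spF1_anti_T hd hD ha φ χ

theorem tri_skew (hd : d = 2 ∨ d = 3) (hD : Bornology.IsBounded D) {a : Z4 d} (ha : dz D (a : En d → En d))
    (v : VD D) : tri d a (v : G2E d) (j4 D v) = 0 := by
  have h := tri_anti hd hD ha v v
  linarith

end

end Pool.Agent.Lib.MP_79abb3_an.W
end
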