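import Pool.Agent.Lib.MP_79abb3_an.W.SpC

/-!
Theorem W, block A: the control operator `χ x = P(1_N x)`.
-/

set_option autoImplicit false
set_option linter.unusedSectionVars false

open MeasureTheory Set Filter Topology Function
open scoped ENNReal RealInnerProductSpace

namespace Pool.Agent.Lib.MP_79abb3_an.W

section
variable {d : ℕ} {D N : Set (En d)}

theorem exists_indL (N : Set (En d)) (hN : MeasurableSet N) : ∃ T : L2E d →L[ℝ] L2E d, ∀ u : L2E d,
    (T u : En d → En d) =ᵐ[volume] N.indicator (u : En d → En d) ∧ ‖T u‖ ≤ ‖u‖ := by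
  have hm : ∀ u : L2E d, MemLp (N.indicator (u : En d → En d)) 2 (volume : Measure (En d)) := fun u =>
    (Lp.memLp u).indicator hN
  let T0 : L2E d →ₗ[ℝ] L2E d :=
    { toFun := fun u => (hm u).toLp _
      map_add' := by
        intro u w
        rw [← MemLp.toLp_add (hm u) (hm w)]
        apply MemLp.toLp_congr
        filter_upwards [Lp.coeFn_add u w] with x hx
        rw [Pi.add_apply]
        by_cases hxN : x ∈ N
        · rw [indicator_of_mem hxN, indicator_of_mem hxN, indicator_of_mem hxN, hx, Pi.add_apply]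
        · rw [indicator_of_notMem hxN, indicator_of_notMem hxN, indicator_of_notMem hxN, add_zero]
      map_smul' := by
        intro c u
        rw [RingHom.id_apply, ← MemLp.toLp_const_smul c (hm u)]
        apply MemLp.toLp_congr
        filter_upwards [Lp.coeFn_smul c u] with x hx
        rw [Pi.smul_apply]
        by_cases hxN : x ∈ N
        · rw [indicator_of_mem hxN, indicator_of_mem hxN, hx, Pi.smul_apply]
        · rw [indicator_of_notMem hxN, indicator_of_notMem hxN, smul_zero] }
  have hb : ∀ u, ‖T0 u‖ ≤ 1 * ‖u‖ := by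
    intro u
    rw [one_mul]
    apply Lp.norm_le_norm_of_ae_le
    filter_upwards [(hm u).coeFn_toLp] with x hx
    show ‖((hm u).toLp _ : En d → En d) x‖ ≤ _
    rw [hx]
    exact norm_indicator_le_norm_self _ _
  refine ⟨T0.mkContinuous 1 hb, fun u => ⟨(hm u).coeFn_toLp, ?_⟩⟩
  have := hb u
  rw [one_mul] at this
  exact this

open scoped Classical in
/-- multiplication by the indicator of `N` -/
noncomputable def indL (N : Set (En d)) : L2E d →L[ℝ] L2E d :=
  if h : MeasurableSet N then (exists_indL N h).choose else 0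

theorem indL_ae (hN : MeasurableSet N) (u : L2E d) :
    (indL N u : En d → En d) =ᵐ[volume] N.indicator (u : En d → En d) := by
  unfold indL
  rw [dif_pos hN]
  exact ((exists_indL N hN).choose_spec u).1

theorem indL_le (hN : MeasurableSet N) (u : L2E d) : ‖indL N u‖ ≤ ‖u‖ := by
  unfold indL
  rw [dif_pos hN]
  exact ((exists_indL N hN).choose_spec u).2

theorem indL_adj (hN : MeasurableSet N) (u w : L2E d) : ⟪indL N u, w⟫ = ⟪u, indL N w⟫ := by
  rw [inner_L2, inner_L2]
  apply integral_congr_ae
  filter_upwards [indL_ae hN u, indL_ae hN w] with x h1 h2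
  rw [h1, h2]
  by_cases hx : x ∈ N
  · rw [indicator_of_mem hx, indicator_of_mem hx]
  · rw [indicator_of_notMem hx, indicator_of_notMem hx, inner_zero_left, inner_zero_right]

/-- The control operator. -/
noncomputable def chN (D N : Set (En d)) : HD D →L[ℝ] HD D :=
  (PD D).comp ((indL N).comp (HD D).subtypeL)

theorem chN_inner (x y : HD D) : ⟪chN D N x, y⟫ = ⟪indL N (x : L2E d), (y : L2E d)⟫ :=
  inner_PD (indL N (x : L2E d)) y

theorem chN_adj (hN : MeasurableSet N) (x y : HD D) : ⟪chN D N x, y⟫ = ⟪x, chN D N y⟫ := by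
  rw [real_inner_comm (chN D N y) x, chN_inner, chN_inner, indL_adj hN]
  exact real_inner_comm _ _

theorem chN_le (hN : MeasurableSet N) (x : HD D) : ‖chN D N x‖ ≤ ‖x‖ :=
  (PD_le (indL N (x : L2E d))).trans (indL_le hN (x : L2E d))

/-- `∫_N ‖v‖² = ⟪χ v, v⟫ ≤ ‖χ v‖ ‖v‖` -/
theorem chN_ge (hN : MeasurableSet N) (x : HD D) :
    ∫ p in N, ‖((x : L2E d) : En d → En d) p‖ ^ 2 ≤ ‖chN D N x‖ * ‖x‖ := by
  refine le_trans (le_of_eq ?_) (real_inner_le_norm (chN D N x) x)
  rw [chN_inner, inner_L2, ← integral_indicator hN]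
  apply integral_congr_ae
  filter_upwards [indL_ae hN (x : L2E d)] with p hp
  rw [hp]
  by_cases h : p ∈ N
  · rw [indicator_of_mem h, indicator_of_mem h, real_inner_self_eq_norm_sq]
  · rw [indicator_of_notMem h, indicator_of_notMem h, inner_zero_left]

/-- the forces `χ g` are invisible for test fields supported outside of `N` -/
theorem chN_test (hN : MeasurableSet N) (g : HD D) (φ : TS D) (h : tsupport (φ : En d → En d) ∩ N = ∅) :
    ⟪chN D N g, hT D φ⟫ = 0 := by
  rw [chN_inner, hT_coe, inner_cl _ ((TS.ts φ).memLp 2)]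
  refine integral_eq_zero_of_ae ?_
  filter_upwards [indL_ae hN (g : L2E d)] with p hp
  rw [hp]
  by_cases hpN : p ∈ N
  · have : (φ : En d → En d) p = 0 := by
      by_contra h1
      have h2 : p ∈ tsupport (φ : En d → En d) ∩ N := ⟨subset_tsupport _ h1, hpN⟩
      rw [h] at h2
      exact h2
    rw [this, inner_zero_right]
    rfl
  · rw [indicator_of_notMem hpN, inner_zero_left]
    rfl

end

end Pool.Agent.Lib.MP_79abb3_an.W
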