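import Pool.Agent.Lib.MP_79abb3_an.W.SpF2
import Pool.Agent.Lib.MP_79abb3_an.W.NDef
import Pool.Agent.Lib.MP_79abb3_an.W.SpJ1

/-!
Theorem W, block A: the data of block A4 for the triple of `D`.
-/

set_option autoImplicit false
set_option linter.unusedSectionVars false

open MeasureTheory Set Filter Topology Function
open scoped ENNReal RealInnerProductSpace

namespace Pool.Agent.Lib.MP_79abb3_an.W

section
variable {d : ℕ} {D : Set (En d)}

/-- `B u v z = ∫ (u·∇)v·z` for `z ∈ L⁴` -/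
noncomputable def BZ (D : Set (En d)) : VD D →L[ℝ] VD D →L[ℝ] Z4 d →L[ℝ] ℝ :=
  (ContinuousLinearMap.precomp (Z4 d →L[ℝ] ℝ) (VD D).subtypeL).comp ((tri d).comp (j4 D))

theorem BZ_apply (u v : VD D) (z : Z4 d) : BZ D u v z = tri d (j4 D u) (v : G2E d) z := rfl

theorem BZ_bV (u v w : VD D) : BZ D u v (j4 D w) = bV D u v w := by
  rw [BZ_apply, bV_apply]

theorem rns_io (hd : d = 2 ∨ d = 3) (hD : Bornology.IsBounded D) : ∃ C : ℝ, RNS (io D) (j4 D) C := by
  obtain ⟨C, hC, h⟩ := j4_le hd hD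
  refine ⟨C + 1, io_inj hD, io_dense hD, by linarith, fun v => (h v).trans ?_⟩
  have h1 : C ≤ (C + 1) ^ 4 := by
    have h2 : (C + 1) ^ 1 ≤ (C + 1) ^ 4 := pow_le_pow_right₀ (by linarith) (by norm_num)
    linarith
  rw [mul_assoc]
  exact mul_le_mul_of_nonneg_right h1 (by positivity)

end

end Pool.Agent.Lib.MP_79abb3_an.W
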