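import Mathlib

/-!
MP_79abb3_an (Lions' problem): the definitions of the statement. The Navier-Stokes system (viscosity one) in a smooth
bounded connected domain `Ω` of `ℝ^d`, with the Dirichlet condition on `∂Ω ∖ Γ` and no condition on `Γ`.
-/

set_option autoImplicit false

open MeasureTheory Set
open scoped ENNReal RealInnerProductSpace

namespace Pool.Agent.Lib.MP_79abb3_an.Stm

/-- the space `ℝ^d` -/
abbrev Rd (d : ℕ) : Type := EuclideanSpace ℝ (Fin d)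

variable {d : ℕ} {E F : Type} [NormedAddCommGroup E] [NormedSpace ℝ E] [NormedAddCommGroup F] [NormedSpace ℝ F]

/-- infinitely differentiable functions -/
def Smooth (f : E → F) : Prop := ContDiff ℝ ((⊤ : ℕ∞) : WithTop ℕ∞) f

/-- the standard basis -/
noncomputable def bas (i : Fin d) : Rd d := EuclideanSpace.single i 1

/-- the partial derivative `∂_i f` -/
noncomputable def pdr (i : Fin d) (f : Rd d → F) (x : Rd d) : F := fderiv ℝ f x (bas i)

/-- the divergence `∑ ∂_i v_i` -/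
noncomputable def dvr (v : Rd d → Rd d) (x : Rd d) : ℝ := ∑ i, pdr i v x i

/-- the norm of `f` in `L²(Ω)` -/
noncomputable def nL2 (Ω : Set (Rd d)) (f : Rd d → F) : ℝ≥0∞ := eLpNorm f 2 (volume.restrict Ω)

/-- A smooth bounded connected domain: near every boundary point it is `{g > 0}` for a smooth function `g` whose
derivative does not vanish. -/
structure SmoothDomain (Ω : Set (Rd d)) : Prop where
  op : IsOpen Ω
  bdd : Bornology.IsBounded Ω
  conn : IsConnected Ω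
  loc : ∀ x ∈ frontier Ω, ∃ (U : Set (Rd d)) (g : Rd d → ℝ), IsOpen U ∧ x ∈ U ∧ Smooth g ∧
    (∀ y ∈ U, fderiv ℝ g y ≠ 0) ∧ ∀ y ∈ U, y ∈ Ω ↔ 0 < g y

/-- `Γ` is a nonempty relatively open part of the boundary of `Ω`. -/
def OpenPart (Ω Γ : Set (Rd d)) : Prop := Γ.Nonempty ∧ ∃ O : Set (Rd d), IsOpen O ∧ Γ = O ∩ frontier Ω

/-- Admissible initial data: `u₀ ∈ L²(Ω)` is in the `L²(Ω)` closure of the smooth fields which are divergence free in `Ω`
and vanish on `∂Ω ∖ Γ`. -/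
def Admissible (Ω Γ : Set (Rd d)) (u₀ : Rd d → Rd d) : Prop :=
  MemLp u₀ 2 (volume.restrict Ω) ∧ ∀ ε > 0, ∃ v : Rd d → Rd d, Smooth v ∧ (∀ x ∈ Ω, dvr v x = 0) ∧
    (∀ x ∈ frontier Ω \ Γ, v x = 0) ∧ nL2 Ω (fun x => u₀ x - v x) ≤ ε

/-- `v ∈ H¹(Ω)` with the partial derivatives `g i = ∂_i v` and with trace zero on `W`: a limit in `H¹(Ω)` of smooth
functions with compact support disjoint from `W`. -/
def ZeroTrace (Ω W : Set (Rd d)) (v : Rd d → Rd d) (g : Fin d → Rd d → Rd d) : Prop :=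
  ∀ ε > 0, ∃ φ : Rd d → Rd d, Smooth φ ∧ HasCompactSupport φ ∧ Disjoint (tsupport φ) W ∧
    nL2 Ω (fun x => v x - φ x) ≤ ε ∧ ∀ i, nL2 Ω (fun x => g i x - pdr i φ x) ≤ ε

/-- derivative of a function of `(t, x)` in the space direction `e` -/
noncomputable def dX (φ : ℝ × Rd d → F) (e : Rd d) (p : ℝ × Rd d) : F := fderiv ℝ φ p (0, e)
/-- derivative of a function of `(t, x)` in time -/
noncomputable def dT (φ : ℝ × Rd d → F) (p : ℝ × Rd d) : F := fderiv ℝ φ p (1, 0)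
/-- Laplacian in space -/
noncomputable def lapX (φ : ℝ × Rd d → F) (p : ℝ × Rd d) : F := ∑ i, dX (dX φ (bas i)) (bas i) p
/-- divergence in space -/
noncomputable def divX (φ : ℝ × Rd d → Rd d) (p : ℝ × Rd d) : ℝ := ∑ i, (dX φ (bas i) p) i

/-- Test functions: smooth with compact support in `(0,T) × Ω`. -/
structure Test (T : ℝ) (Ω : Set (Rd d)) (φ : ℝ × Rd d → F) : Prop where
  smooth : Smooth φ
  cpt : HasCompactSupport φ
  supp : tsupport φ ⊆ Ioo 0 T ×ˢ Ω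

/-- `u(t)` is weakly continuous on `[0,T]` with values in `L²(Ω)`. -/
def WeakCont (Ω : Set (Rd d)) (T : ℝ) (u : ℝ × Rd d → Rd d) : Prop :=
  ∀ φ : Rd d → Rd d, MemLp φ 2 (volume.restrict Ω) →
    ContinuousOn (fun t => ∫ x in Ω, ⟪u (t, x), φ x⟫) (Icc 0 T)

/-- `u ∈ L²(0,T; H¹(Ω))` with partial derivatives `g i = ∂_i u`, and `u = 0` on `W` in the sense of traces. -/
def L2H1 (Ω W : Set (Rd d)) (T : ℝ) (u : ℝ × Rd d → Rd d) : Prop :=
  MemLp u 2 (volume.restrict (Ioo 0 T ×ˢ Ω)) ∧ ∃ g : Fin d → ℝ × Rd d → Rd d,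
    (∀ i, MemLp (g i) 2 (volume.restrict (Ioo 0 T ×ˢ Ω))) ∧
    ∀ᵐ t ∂(volume.restrict (Ioo 0 T)), ZeroTrace Ω W (fun x => u (t, x)) (fun i x => g i (t, x))

/-- `div u = 0` in the sense of distributions -/
def DivFree (Ω : Set (Rd d)) (T : ℝ) (u : ℝ × Rd d → Rd d) : Prop :=
  ∀ φ : ℝ × Rd d → ℝ, Test T Ω φ → ∫ p, dX φ (u p) p = 0

/-- The momentum equation with some pressure: `∫ (u·∂_t φ + u·Δφ + ∑ u_i u_j ∂_j φ_i) = 0` for all divergence free test
fields `φ` with compact support in `(0,T) × Ω`. -/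
def Momentum (Ω : Set (Rd d)) (T : ℝ) (u : ℝ × Rd d → Rd d) : Prop :=
  ∀ φ : ℝ × Rd d → Rd d, Test T Ω φ → (∀ p, divX φ p = 0) →
    ∫ p, (⟪u p, dT φ p⟫ + ⟪u p, lapX φ p⟫ + ⟪u p, dX φ (u p) p⟫) = 0

/-- Weak (Leray type) trajectories on `[0,T]` of the Navier-Stokes system (viscosity one) in `Ω` with the condition
`u = 0` on `∂Ω ∖ Γ` in the sense of traces and with the initial datum `u₀`: `u ∈ C_w([0,T]; L²(Ω))`,
`u ∈ L²(0,T; H¹(Ω))`. -/
structure Traj (Ω Γ : Set (Rd d)) (T : ℝ) (u₀ : Rd d → Rd d) (u : ℝ × Rd d → Rd d) : Prop where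
  sq : ∀ t ∈ Icc 0 T, MemLp (fun x => u (t, x)) 2 (volume.restrict Ω)
  cont : WeakCont Ω T u
  init : ∀ᵐ x ∂(volume.restrict Ω), u (0, x) = u₀ x
  grad : L2H1 Ω (frontier Ω \ Γ) T u
  div : DivFree Ω T u
  ns : Momentum Ω T u

end Pool.Agent.Lib.MP_79abb3_an.Stm
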