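import Pool.Agent.Lib.MP_79abb3_an.W.FinalW
import Pool.Agent.Lib.MP_79abb3_an.W.Stm

/-!
Theorem W (MP_79abb3_an): the final statement with the definitions of `Stm.lean` follows from `TheoremW`.
-/

set_option autoImplicit false

open MeasureTheory Set
open scoped ENNReal RealInnerProductSpace

namespace Pool.Agent.Lib.MP_79abb3_an.Stm

variable {d : ℕ} {F : Type} [NormedAddCommGroup F] [NormedSpace ℝ F]

private theorem stm_dom {Ω : Set (Rd d)} (h : SmoothDomain Ω) : W.IsSmoothDomain Ω :=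
  ⟨h.op, h.bdd, h.conn, h.loc⟩

private theorem stm_test {T : ℝ} {Ω : Set (Rd d)} {φ : ℝ × Rd d → F} (h : Test T Ω φ) : W.IsTfE T Ω φ :=
  ⟨h.smooth, h.cpt, h.supp⟩

private theorem stm_bas (i : Fin d) : ‖(bas i : Rd d)‖ = 1 := by
  simp [bas]

private theorem stm_h1 {Ω W' : Set (Rd d)} {v : Rd d → Rd d} {g : Rd d → (Rd d →L[ℝ] Rd d)}
    (h : W.IsH0 Ω W' v g) : ZeroTrace Ω W' v fun i x => g x (bas i) := by
  intro ε hε
  obtain ⟨φ, h1, h2, h3, h4, h5⟩ := h ε hε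
  refine ⟨φ, h1, h2, h3, h4, fun i => (eLpNorm_mono fun x => ?_).trans h5⟩
  have h6 : g x (bas i) - pdr i φ x = (g x - fderiv ℝ φ x) (bas i) := by
    rw [ContinuousLinearMap.sub_apply]
    rfl
  show ‖g x (bas i) - pdr i φ x‖ ≤ ‖g x - fderiv ℝ φ x‖
  rw [h6]
  refine ((g x - fderiv ℝ φ x).le_opNorm _).trans ?_
  rw [stm_bas, mul_one]

private theorem stm_traj {Ω Γ : Set (Rd d)} {T : ℝ} {u₀ : Rd d → Rd d} {u : ℝ × Rd d → Rd d}
    (h : W.IsTraj Ω Γ T u₀ u) : Traj Ω Γ T u₀ u := by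
  obtain ⟨hu, g, hg, hz⟩ := h.grad
  refine ⟨h.sq, h.cont, h.init, ⟨hu, fun i p => g p (bas i), fun i => ?_, ?_⟩, fun φ hφ => h.div φ (stm_test hφ),
    fun φ hφ hd => h.ns φ (stm_test hφ) hd⟩
  · exact (ContinuousLinearMap.apply ℝ (Rd d) (bas i : Rd d)).comp_memLp' hg
  · filter_upwards [hz] with t ht
    exact stm_h1 ht

/-- The final statement, from `TheoremW`. -/
theorem final_of (h : W.TheoremW) (d : ℕ) (hd : d = 2 ∨ d = 3) (Ω Γ : Set (Rd d)) (hΩ : SmoothDomain Ω)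
    (hΓ : OpenPart Ω Γ) (T : ℝ) (hT : 0 < T) (u₀ : Rd d → Rd d) (hu₀ : Admissible Ω Γ u₀) :
    ∃ u : ℝ × Rd d → Rd d, Traj Ω Γ T u₀ u ∧ ∀ᵐ x ∂(volume.restrict Ω), u (T, x) = 0 := by
  obtain ⟨u, h1, h2⟩ := h d hd Ω Γ (stm_dom hΩ) hΓ T hT u₀ hu₀
  exact ⟨u, stm_traj h1, h2⟩

end Pool.Agent.Lib.MP_79abb3_an.Stm
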